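import Mathlib

/- Helper53.KN.Helper10.QRH.StA -/
section
/-! Statements of Part A of project QRH (MP_768c9c_nt): primes in short cells under a zero-free
half plane with finitely many exceptions. -/

set_option autoImplicit false
open Filter Topology MeasureTheory

namespace Pool.Agent.M17.Helper10.QRH

/-- triangle kernel -/
noncomputable def tri (lam v : ℝ) : ℝ := max 0 (1 - |v| / lam) / lam

/-- its Laplace transform (entire function of s) -/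
noncomputable def KK (lam : ℝ) (s : ℂ) : ℂ := ∫ v : ℝ, (tri lam v : ℂ) * Complex.exp (-s * v)

/-- A1 -/
def FactorFinite : Prop := ∀ (F : ℂ → ℂ), Differentiable ℂ F → ∀ U : Set ℂ, IsOpen U →
    IsPreconnected U → (∃ z ∈ U, F z ≠ 0) → {z : ℂ | z ∈ U ∧ F z = 0}.Finite →
    ∃ (M : Multiset ℂ) (Z : ℂ → ℂ), Differentiable ℂ Z ∧ (∀ z ∈ U, Z z ≠ 0) ∧
      (∀ ρ ∈ M, ρ ∈ U ∧ F ρ = 0) ∧ ∀ z, F z = (M.map (fun ρ => z - ρ)).prod * Z z

/-- A3 -/
structure KFacts : Prop where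
  diff : ∀ lam : ℝ, 0 < lam → Differentiable ℂ (KK lam)
  bound : ∃ C : ℝ, ∀ lam : ℝ, 0 < lam → lam ≤ 1 → ∀ s : ℂ, 0 ≤ s.re → s.re ≤ 2 →
      ‖KK lam s‖ ≤ C / (1 + (lam * s.im) ^ 2)
  inv : ∀ lam c v : ℝ, 0 < lam → (tri lam v : ℂ) =
      (1 / (2 * Real.pi)) * ∫ t : ℝ, KK lam (c + t * Complex.I) *
        Complex.exp ((c + t * Complex.I) * v)

/-- A5: duality (large sieve with the Lorentz weight) -/
def Duality : Prop := ∃ C : ℝ, ∀ (lam : ℝ), 0 < lam → lam ≤ 1/2 → ∀ (g : ℝ → ℂ), Measurable g →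
    ∀ B : ℝ, 0 ≤ B → (∀ t, ‖g t‖ ≤ B / (1 + (lam * t) ^ 2) * Real.log (2 + |t|)) →
    ∀ (R : Finset ℝ), (∀ u ∈ R, ∀ u' ∈ R, u ≠ u' → lam ≤ |u - u'|) →
    (∑ u ∈ R, ‖∫ t : ℝ, g t * Complex.exp (t * u * Complex.I)‖) ≤
      C * B * Real.log (1 / lam) / lam * Real.sqrt R.card

end Pool.Agent.M17.Helper10.QRH
end

/- Helper53.KN.Helper55.MZ.Local -/
section
/-!
# Zero-free discs give small values (Borel-Caratheodory and three circles)
-/

set_option autoImplicit false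
open Filter Topology Complex Metric Set

namespace Pool.Agent.M17.Helper55.MZ

lemma exists_log {G : ℂ → ℂ} {r : ℝ} (hr : 0 < r) (hG : DifferentiableOn ℂ G (ball 0 r))
    (hne : ∀ z ∈ ball (0 : ℂ) r, G z ≠ 0) :
    ∃ g : ℂ → ℂ, DifferentiableOn ℂ g (ball 0 r) ∧ (∀ z ∈ ball (0 : ℂ) r, cexp (g z) = G z) ∧
      g 0 = Complex.log (G 0) := by
  have h0 : (0 : ℂ) ∈ ball (0 : ℂ) r := mem_ball_self hr
  have hd : DifferentiableOn ℂ (fun z => deriv G z / G z) (ball 0 r) :=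
    (hG.deriv isOpen_ball).div hG hne
  obtain ⟨g, hg0, hg⟩ := hd.isExactOn_ball.with_val_at 0 (Complex.log (G 0))
  have hgd : DifferentiableOn ℂ g (ball 0 r) := fun z hz =>
    (hg z hz).differentiableAt.differentiableWithinAt
  refine ⟨g, hgd, ?_, hg0⟩
  have hprod : ∀ z ∈ ball (0 : ℂ) r, HasDerivAt (fun z => G z * cexp (-g z)) 0 z := by
    intro z hz
    have h1 : HasDerivAt G (deriv G z) z :=
      (hG.differentiableAt (isOpen_ball.mem_nhds hz)).hasDerivAt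
    have h2 : HasDerivAt (fun z => cexp (-g z)) (cexp (-g z) * -(deriv G z / G z)) z :=
      (hg z hz).neg.cexp
    have h3 := h1.mul h2
    have h4 := hne z hz
    have h5 : deriv G z * cexp (-g z) + G z * (cexp (-g z) * -(deriv G z / G z)) = 0 := by
      field_simp
      ring
    rw [h5] at h3
    exact h3
  have hconst : ∀ z ∈ ball (0 : ℂ) r, G z * cexp (-g z) = 1 := by
    intro z hz
    have h1 := isOpen_ball.is_const_of_deriv_eq_zero (convex_ball (0 : ℂ) r).isPreconnected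
      (f := fun z => G z * cexp (-g z))
      (fun z hz => (hprod z hz).differentiableAt.differentiableWithinAt)
      (fun z hz => (hprod z hz).deriv) hz h0
    have h2 : G z * cexp (-g z) = G 0 * cexp (-g 0) := h1
    rw [h2, hg0, Complex.exp_neg, Complex.exp_log (hne 0 h0), mul_inv_cancel₀ (hne 0 h0)]
  intro z hz
  have h1 := hconst z hz
  rw [Complex.exp_neg, mul_inv_eq_one₀ (Complex.exp_ne_zero _)] at h1
  exact h1.symm

end Pool.Agent.M17.Helper55.MZ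
end

/- Helper53.KN.Helper69.QRH.A0 -/
section
/-! QRH-A0: polynomial growth of the Riemann zeta function in the half plane `Re s ≥ 1/2`. -/

set_option autoImplicit false
open Filter Topology Complex

namespace Pool.Agent.M17.Helper69.QRH


/-- `(s-1) ζ(s)` as an entire function -/
noncomputable def EZ : ℂ → ℂ := Function.update (fun s : ℂ => (s - 1) * riemannZeta s) 1 1

lemma EZ_differentiable : Differentiable ℂ EZ := by
  unfold EZ
  rw [← differentiableOn_univ,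
    ← differentiableOn_compl_singleton_and_continuousAt_iff (c := 1) Filter.univ_mem]
  refine ⟨DifferentiableOn.congr (f := fun s ↦ (s - 1) * riemannZeta s)
    (fun s hs ↦ DifferentiableAt.differentiableWithinAt ?_)
    fun _ hs ↦ Function.update_of_ne (Set.mem_sdiff_singleton.mp hs).2 .., ?_⟩
  · have hs' : s ≠ 1 := (Set.mem_sdiff_singleton.mp hs).2
    exact (differentiableAt_id.sub_const 1).mul (differentiableAt_riemannZeta hs')
  · refine continuousWithinAt_compl_self.mp ?_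
    simpa using riemannZeta_residue_one

lemma EZ_eq {s : ℂ} (hs : s ≠ 1) : EZ s = (s - 1) * riemannZeta s := by
  unfold EZ
  rw [Function.update_of_ne hs]

lemma EZ_one : EZ 1 = 1 := by
  unfold EZ
  rw [Function.update_self]

lemma hasDerivAt_real_cpow {x : ℝ} (hx : 0 < x) (r : ℂ) :
    HasDerivAt (fun y : ℝ => (y : ℂ) ^ r) (r * (x : ℂ) ^ (r - 1)) x := by
  have h1 : HasDerivAt (fun z : ℂ => z ^ r) (r * (x : ℂ) ^ (r - 1) * 1) (x : ℂ) :=
    (hasDerivAt_id (x : ℂ)).cpow_const (Complex.ofReal_mem_slitPlane.2 hx)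
  rw [mul_one] at h1
  exact h1.comp_ofReal

lemma cpow_sub_le {a x : ℝ} (ha : 1 ≤ a) (hx : x ∈ Set.Icc a (a + 1)) {s : ℂ} (hs : 0 < s.re) :
    ‖(a : ℂ) ^ (-s) - (x : ℂ) ^ (-s)‖ ≤ ‖s‖ * a ^ (-s.re - 1) := by
  have h := Convex.norm_image_sub_le_of_norm_hasDerivWithin_le (s := Set.Icc a (a + 1))
    (f := fun y : ℝ => (y : ℂ) ^ (-s)) (f' := fun y : ℝ => -s * (y : ℂ) ^ (-s - 1))
    (C := ‖s‖ * a ^ (-s.re - 1)) (x := x) (y := a) (fun y hy => by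
      have hy0 : 0 < y := by (clear * - ha hy; linarith [hy.1])
      exact (hasDerivAt_real_cpow hy0 (-s)).hasDerivWithinAt) (fun y hy => by
      have hy0 : 0 < y := by (clear * - ha hy; linarith [hy.1])
      rw [norm_mul, norm_neg, Complex.norm_cpow_eq_rpow_re_of_pos hy0]
      refine mul_le_mul_of_nonneg_left ?_ (norm_nonneg _)
      have h1 : (-s - 1).re = -s.re - 1 := by simp
      rw [h1]
      exact Real.rpow_le_rpow_of_nonpos (by (clear * - ha; linarith)) hy.1 (by linarith)) (convex_Icc _ _) hx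
      ⟨le_rfl, by linarith⟩
  refine h.trans ?_
  have h2 : ‖a - x‖ ≤ 1 := by
    rw [Real.norm_eq_abs, abs_le]
    constructor <;> linarith [hx.1, hx.2]
  have h3 : 0 ≤ ‖s‖ * a ^ (-s.re - 1) := mul_nonneg (norm_nonneg _) (Real.rpow_nonneg (by linarith) _)
  calc _ ≤ ‖s‖ * a ^ (-s.re - 1) * 1 := mul_le_mul_of_nonneg_left h2 h3
    _ = _ := mul_one _

/-- the terms of the series -/
noncomputable def TT (n : ℕ) (s : ℂ) : ℂ :=
  (s - 1) * ((n : ℂ) + 1) ^ (-s) + (((n : ℂ) + 2) ^ (1 - s) - ((n : ℂ) + 1) ^ (1 - s))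

lemma TT_bound (n : ℕ) {s : ℂ} (hs : 0 < s.re) :
    ‖TT n s‖ ≤ ‖s - 1‖ * ‖s‖ * ((n : ℝ) + 1) ^ (-s.re - 1) := by
  set a : ℝ := (n : ℝ) + 1 with ha
  have ha1 : 1 ≤ a := by
    rw [ha]
    (clear * -; linarith [(n.cast_nonneg : (0 : ℝ) ≤ n)])
  have h := Convex.norm_image_sub_le_of_norm_hasDerivWithin_le (s := Set.Icc a (a + 1))
    (f := fun y : ℝ => (s - 1) * (a : ℂ) ^ (-s) * (y : ℂ) + (y : ℂ) ^ (1 - s))
    (f' := fun y : ℝ => (s - 1) * ((a : ℂ) ^ (-s) - (y : ℂ) ^ (-s)))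
    (C := ‖s - 1‖ * (‖s‖ * a ^ (-s.re - 1))) (x := a) (y := a + 1) (fun y hy => by
      have hy0 : 0 < y := by linarith [hy.1]
      have h1 := hasDerivAt_real_cpow hy0 (1 - s)
      have h2 : HasDerivAt (fun y : ℝ => (s - 1) * (a : ℂ) ^ (-s) * (y : ℂ))
          ((s - 1) * (a : ℂ) ^ (-s) * 1) y :=
        (HasDerivAt.ofReal_comp (hasDerivAt_id y)).const_mul _
      have h3 := (h2.add h1).hasDerivWithinAt (s := Set.Icc a (a + 1))
      have h4 : (1 : ℂ) - s - 1 = -s := by ring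
      have h5 : (s - 1) * ((a : ℂ) ^ (-s) - (y : ℂ) ^ (-s)) =
          (s - 1) * (a : ℂ) ^ (-s) * 1 + (1 - s) * (y : ℂ) ^ (1 - s - 1) := by
        rw [h4]; ring
      rw [h5]
      exact h3) (fun y hy => by
      rw [norm_mul]
      exact mul_le_mul_of_nonneg_left (cpow_sub_le ha1 hy hs) (norm_nonneg _)) (convex_Icc _ _)
      ⟨le_rfl, by (clear * -; linarith)⟩ ⟨by linarith, le_rfl⟩
  have h5 : TT n s = ((s - 1) * (a : ℂ) ^ (-s) * ((a + 1 : ℝ) : ℂ) + ((a + 1 : ℝ) : ℂ) ^ (1 - s)) -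
      ((s - 1) * (a : ℂ) ^ (-s) * (a : ℂ) + (a : ℂ) ^ (1 - s)) := by
    unfold TT
    have h6 : ((a : ℝ) : ℂ) = (n : ℂ) + 1 := by
      rw [ha]; push_cast; ring
    have h7 : ((a + 1 : ℝ) : ℂ) = (n : ℂ) + 2 := by
      rw [ha]; push_cast; ring
    rw [h6, h7]
    ring
  rw [h5]
  refine h.trans (le_of_eq ?_)
  have h8 : ‖(a + 1 : ℝ) - a‖ = 1 := by
    rw [add_sub_cancel_left]; simp
  rw [h8, mul_one, mul_assoc]

lemma TT_differentiable (n : ℕ) : Differentiable ℂ (TT n) := by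
  have h1 : ((n : ℂ) + 1) ≠ 0 := by exact_mod_cast Nat.succ_ne_zero n
  have h2 : ((n : ℂ) + 2) ≠ 0 := by
    have : ((n + 2 : ℕ) : ℂ) ≠ 0 := by exact_mod_cast (by omega : n + 2 ≠ 0)
    push_cast at this
    exact this
  unfold TT
  refine Differentiable.add ?_ (Differentiable.sub ?_ ?_)
  · exact (differentiable_id.sub_const 1).mul (differentiable_id.neg.const_cpow (Or.inl h1))
  · exact ((differentiable_const 1).sub differentiable_id).const_cpow (Or.inl h2)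
  · exact ((differentiable_const 1).sub differentiable_id).const_cpow (Or.inl h1)

lemma summable_rpow_aux {r : ℝ} (hr : r < -1) : Summable (fun n : ℕ => ((n : ℝ) + 1) ^ r) := by
  have h1 : Summable (fun n : ℕ => (n : ℝ) ^ r) := Real.summable_nat_rpow.2 hr
  have h2 := (summable_nat_add_iff 1).2 h1
  simpa using h2

lemma tsum_TT {s : ℂ} (hs : 1 < s.re) : ∑' n : ℕ, TT n s = (s - 1) * riemannZeta s - 1 := by
  have hs0 : 0 < s.re := by linarith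
  have hS : Summable (fun n : ℕ => TT n s) := by
    refine Summable.of_norm_bounded
      ((summable_rpow_aux (r := -s.re - 1) (by (clear * - hs; linarith))).mul_left (‖s - 1‖ * ‖s‖)) fun n => ?_
    exact TT_bound n hs0
  have hZ : HasSum (fun n : ℕ => 1 / ((n : ℂ) + 1) ^ s) (riemannZeta s) := by
    rw [zeta_eq_tsum_one_div_nat_add_one_cpow hs]
    refine Summable.hasSum ?_
    have h1 := (summable_nat_add_iff 1).2 (Complex.summable_one_div_nat_cpow.2 hs)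
    simpa using h1
  have hZ' := hZ.mul_left (s - 1)
  have ht1 := hS.hasSum.tendsto_sum_nat
  have ht2 := hZ'.tendsto_sum_nat
  have ht3 : Tendsto (fun N : ℕ => ((N : ℂ) + 1) ^ (1 - s) - 1) atTop (𝓝 (0 - 1)) := by
    refine Tendsto.sub_const ?_ 1
    rw [tendsto_zero_iff_norm_tendsto_zero]
    have h1 : ∀ N : ℕ, ‖((N : ℂ) + 1) ^ (1 - s)‖ = ((N : ℝ) + 1) ^ (-(s.re - 1)) := by
      intro N
      have h2 : ((N : ℂ) + 1) = (((N : ℝ) + 1 : ℝ) : ℂ) := by push_cast; ring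
      rw [h2, Complex.norm_cpow_eq_rpow_re_of_pos (by (clear * -; positivity))]
      congr 1
      simp
    simp_rw [h1]
    exact (tendsto_rpow_neg_atTop (by (clear * - hs; linarith))).comp
      (tendsto_atTop_add_const_right _ _ tendsto_natCast_atTop_atTop)
  have hsum : ∀ N : ℕ, ∑ n ∈ Finset.range N, TT n s =
      (∑ n ∈ Finset.range N, (s - 1) * (1 / ((n : ℂ) + 1) ^ s)) + (((N : ℂ) + 1) ^ (1 - s) - 1) := by
    intro N
    induction N with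
    | zero => simp
    | succ N ih =>
      rw [Finset.sum_range_succ, Finset.sum_range_succ, ih]
      unfold TT
      rw [Complex.cpow_neg, one_div]
      push_cast
      have h1 : (N : ℂ) + 1 + 1 = N + 2 := by ring
      rw [h1]
      ring
  have ht4 := ht2.add ht3
  have ht5 : Tendsto (fun N : ℕ => ∑ n ∈ Finset.range N, TT n s) atTop
      (𝓝 ((s - 1) * riemannZeta s + (0 - 1))) := by
    refine ht4.congr fun N => ?_
    rw [hsum]
  have := tendsto_nhds_unique ht1 ht5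
  rw [this]
  ring

theorem EZ_eq_tsum {s : ℂ} (hs : 1 / 4 < s.re) : EZ s = ∑' n : ℕ, TT n s + 1 := by
  set R : ℝ := ‖s‖ + 10 with hR
  set U : Set ℂ := {z | 1 / 4 < z.re} ∩ Metric.ball 0 R with hU
  have hUo : IsOpen U := (isOpen_lt continuous_const Complex.continuous_re).inter Metric.isOpen_ball
  have hUc : Convex ℝ U := (convex_halfSpace_re_gt _).inter (convex_ball _ _)
  have hF : DifferentiableOn ℂ (fun z => ∑' n : ℕ, TT n z) U := by
    refine differentiableOn_tsum_of_summable_norm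
      (u := fun n : ℕ => (R + 1) * R * ((n : ℝ) + 1) ^ (-(1 / 4 : ℝ) - 1)) ?_
      (fun n => (TT_differentiable n).differentiableOn) hUo ?_
    · exact (summable_rpow_aux (by norm_num)).mul_left _
    · intro n z hz
      have hz1 : 1 / 4 < z.re := hz.1
      have hz2 : ‖z‖ < R := by simpa using hz.2
      refine (TT_bound n (by (clear * - hz1; linarith))).trans ?_
      have h1 : ‖z - 1‖ ≤ R + 1 := (norm_sub_le _ _).trans (by rw [norm_one]; (clear * - hz2; linarith))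
      have h2 : ((n : ℝ) + 1) ^ (-z.re - 1) ≤ ((n : ℝ) + 1) ^ (-(1 / 4 : ℝ) - 1) :=
        Real.rpow_le_rpow_of_exponent_le (by (clear * -; linarith [(n.cast_nonneg : (0 : ℝ) ≤ n)])) (by (clear * - hz1; linarith))
      have h3 : 0 ≤ R := (norm_nonneg z).trans hz2.le
      (clear * - h1 hz2 h2; gcongr)
  have hA : AnalyticOnNhd ℂ (fun z => ∑' n : ℕ, TT n z + 1) U :=
    (hF.add_const 1).analyticOnNhd hUo
  have hB : AnalyticOnNhd ℂ EZ U := EZ_differentiable.differentiableOn.analyticOnNhd hUo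
  have h2 : (2 : ℂ) ∈ U := by
    refine ⟨by norm_num, ?_⟩
    simp only [Metric.mem_ball, dist_zero_right, Complex.norm_ofNat]
    rw [hR]
    (clear * -; linarith [norm_nonneg s])
  have hev : EZ =ᶠ[𝓝 (2 : ℂ)] fun z => ∑' n : ℕ, TT n z + 1 := by
    have h3 : ∀ᶠ z in 𝓝 (2 : ℂ), 1 < z.re := by
      have : {z : ℂ | 1 < z.re} ∈ 𝓝 (2 : ℂ) :=
        (isOpen_lt continuous_const Complex.continuous_re).mem_nhds (by norm_num)
      exact this
    filter_upwards [h3] with z hz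
    have hz1 : z ≠ 1 := by
      rintro rfl
      simp at hz
    rw [EZ_eq hz1, tsum_TT hz]
    ring
  have h := hB.eqOn_of_preconnected_of_eventuallyEq hA hUc.isPreconnected h2 hev
  refine h ⟨hs, ?_⟩
  simp only [Metric.mem_ball, dist_zero_right]
  rw [hR]
  (clear * -; linarith)

theorem EZ_bound : ∃ C : ℝ, 0 < C ∧ ∀ s : ℂ, 1/2 ≤ s.re → ‖EZ s‖ ≤ C * (1 + ‖s‖) ^ 2 := by
  set K : ℝ := ∑' n : ℕ, ((n : ℝ) + 1) ^ (-(3 / 2 : ℝ)) with hK
  have hK0 : 0 ≤ K := tsum_nonneg fun n => Real.rpow_nonneg (by (clear * -; positivity)) _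
  refine ⟨K + 1, by (clear * - hK0; linarith), fun s hs => ?_⟩
  rw [EZ_eq_tsum (by (clear * - hs; linarith))]
  have h1 : ‖∑' n : ℕ, TT n s‖ ≤ ‖s - 1‖ * ‖s‖ * K := by
    rw [hK, ← tsum_mul_left]
    refine tsum_of_norm_bounded ((summable_rpow_aux (by norm_num)).mul_left _).hasSum fun n => ?_
    refine (TT_bound n (by (clear * - hs; linarith))).trans ?_
    refine mul_le_mul_of_nonneg_left ?_ (by positivity)
    exact Real.rpow_le_rpow_of_exponent_le (by (clear * -; linarith [(n.cast_nonneg : (0 : ℝ) ≤ n)])) (by linarith)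
  have h2 : ‖s - 1‖ ≤ 1 + ‖s‖ := (norm_sub_le _ _).trans (by rw [norm_one]; linarith)
  have h3 := norm_nonneg s
  calc ‖∑' n : ℕ, TT n s + 1‖ ≤ ‖∑' n : ℕ, TT n s‖ + ‖(1 : ℂ)‖ := norm_add_le _ _
    _ ≤ ‖s - 1‖ * ‖s‖ * K + 1 := by
      rw [norm_one]
      (clear * - h1; linarith)
    _ ≤ (1 + ‖s‖) * (1 + ‖s‖) * K + (1 + ‖s‖) ^ 2 := by
      have h4 : ‖s - 1‖ * ‖s‖ ≤ (1 + ‖s‖) * (1 + ‖s‖) :=
        mul_le_mul h2 (by (clear * -; linarith)) h3 (by linarith)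
      have h5 := mul_le_mul_of_nonneg_right h4 hK0
      (clear * - h3 h5; nlinarith)
    _ = (K + 1) * (1 + ‖s‖) ^ 2 := by ring

end Pool.Agent.M17.Helper69.QRH
end

/- Helper53.KN.Helper69.QRH.A2 -/
section
/-! QRH-A2: the logarithmic derivative of zeta without the poles at finitely many exceptional
zeros, and its logarithmic bound. -/

set_option autoImplicit false
open Filter Topology Complex Metric

namespace Pool.Agent.M17.Helper69.QRH


lemma zeta_two_line {s : ℂ} (hs : s.re = 2) : 1 / 3 ≤ ‖riemannZeta s‖ := by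
  have hs1 : 1 < s.re := by rw [hs]; norm_num
  have hsum : Summable (fun n : ℕ => 1 / ((n : ℂ) + 1) ^ s) := by
    have h1 := (summable_nat_add_iff 1).2 (Complex.summable_one_div_nat_cpow.2 hs1)
    simpa using h1
  have h1 : riemannZeta s = 1 + ∑' n : ℕ, 1 / (((n + 1 : ℕ) : ℂ) + 1) ^ s := by
    rw [zeta_eq_tsum_one_div_nat_add_one_cpow hs1, hsum.tsum_eq_zero_add]
    simp
  have hpi : HasSum (fun n : ℕ => 1 / ((((n + 2 : ℕ)) : ℝ)) ^ 2) (Real.pi ^ 2 / 6 - 1) := by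
    have h2 := (hasSum_nat_add_iff' (f := fun n : ℕ => 1 / (n : ℝ) ^ 2) 2).2 hasSum_zeta_two
    simpa [Finset.sum_range_succ] using h2
  have h3 : ‖∑' n : ℕ, 1 / (((n + 1 : ℕ) : ℂ) + 1) ^ s‖ ≤ Real.pi ^ 2 / 6 - 1 := by
    refine tsum_of_norm_bounded hpi fun n => ?_
    have h4 : (((n + 1 : ℕ) : ℂ) + 1) = (((n + 2 : ℕ) : ℝ) : ℂ) := by push_cast; ring
    rw [h4, norm_div, norm_one, Complex.norm_cpow_eq_rpow_re_of_pos (by positivity), hs]
    norm_num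
  have h5 : Real.pi ^ 2 ≤ 10 := by
    have := Real.pi_lt_d2
    have := Real.pi_pos
    nlinarith
  have h6 : ‖(1 : ℂ)‖ - ‖∑' n : ℕ, 1 / (((n + 1 : ℕ) : ℂ) + 1) ^ s‖ ≤ ‖riemannZeta s‖ := by
    rw [h1]
    have := norm_sub_norm_le (1 : ℂ) (-(∑' n : ℕ, 1 / (((n + 1 : ℕ) : ℂ) + 1) ^ s))
    rwa [norm_neg, sub_neg_eq_add] at this
  rw [norm_one] at h6
  linarith

/-- the polynomial with roots `M` -/
noncomputable def Qp (M : Multiset ℂ) (z : ℂ) : ℂ := (M.map (fun ρ => z - ρ)).prod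

lemma Qp_zero (z : ℂ) : Qp 0 z = 1 := by simp [Qp]

lemma Qp_cons (a : ℂ) (M : Multiset ℂ) (z : ℂ) : Qp (a ::ₘ M) z = (z - a) * Qp M z := by
  simp [Qp]

lemma Qp_upper (M : Multiset ℂ) (z : ℂ) (X : ℝ) (hX : 0 ≤ X) (h : ∀ ρ ∈ M, ‖z - ρ‖ ≤ X) :
    ‖Qp M z‖ ≤ X ^ Multiset.card M := by
  induction M using Multiset.induction_on with
  | empty => simp [Qp]
  | cons a M ih =>
    rw [Qp_cons, norm_mul, Multiset.card_cons, pow_succ, mul_comm]
    have h1 := h a (Multiset.mem_cons_self a M)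
    have h2 := ih fun ρ hρ => h ρ (Multiset.mem_cons_of_mem hρ)
    exact mul_le_mul h2 h1 (norm_nonneg _) (pow_nonneg hX _)

lemma Qp_differentiable (M : Multiset ℂ) : Differentiable ℂ (Qp M) := by
  induction M using Multiset.induction_on with
  | empty =>
    have : Qp 0 = fun _ => 1 := funext Qp_zero
    rw [this]
    exact differentiable_const _
  | cons a M ih =>
    have : Qp (a ::ₘ M) = fun z => (z - a) * Qp M z := funext (Qp_cons a M)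
    rw [this]
    exact (differentiable_id.sub_const a).mul ih

lemma Qp_ne_zero (M : Multiset ℂ) (z : ℂ) (h : ∀ ρ ∈ M, z ≠ ρ) : Qp M z ≠ 0 := by
  induction M using Multiset.induction_on with
  | empty => simp [Qp]
  | cons a M ih =>
    rw [Qp_cons]
    exact mul_ne_zero (sub_ne_zero.2 (h a (Multiset.mem_cons_self a M)))
      (ih fun ρ hρ => h ρ (Multiset.mem_cons_of_mem hρ))

lemma logDeriv_Qp (M : Multiset ℂ) (z : ℂ) (h : ∀ ρ ∈ M, z ≠ ρ) :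
    logDeriv (Qp M) z = (M.map (fun ρ => 1 / (z - ρ))).sum := by
  induction M using Multiset.induction_on with
  | empty =>
    have : Qp 0 = fun _ => 1 := funext Qp_zero
    rw [this]
    simp [logDeriv_apply]
  | cons a M ih =>
    have : Qp (a ::ₘ M) = fun z => (z - a) * Qp M z := funext (Qp_cons a M)
    have h1 := h a (Multiset.mem_cons_self a M)
    have h2 : ∀ ρ ∈ M, z ≠ ρ := fun ρ hρ => h ρ (Multiset.mem_cons_of_mem hρ)
    rw [this, logDeriv_mul (f := fun z => z - a) (g := Qp M) z (sub_ne_zero.2 h1)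
      (Qp_ne_zero M z h2) ((differentiable_id.sub_const a) z) (Qp_differentiable M z), ih h2,
      Multiset.map_cons, Multiset.sum_cons]
    congr 1
    rw [logDeriv_apply]
    have h3 : HasDerivAt (fun z : ℂ => z - a) 1 z := (hasDerivAt_id z).sub_const a
    rw [h3.deriv]

lemma logDeriv_EZ {s : ℂ} (hs : 1 < s.re) :
    logDeriv EZ s = 1 / (s - 1) - LSeries (fun n => (ArithmeticFunction.vonMangoldt n : ℂ)) s := by
  have hs1 : s ≠ 1 := by
    rintro rfl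
    simp at hs
  have hz : riemannZeta s ≠ 0 := riemannZeta_ne_zero_of_one_lt_re hs
  have h1 : EZ =ᶠ[𝓝 s] fun z => (z - 1) * riemannZeta z := by
    filter_upwards [isOpen_compl_singleton.mem_nhds (show s ∈ ({1} : Set ℂ)ᶜ from hs1)] with z hz
    exact EZ_eq hz
  have h2 : logDeriv EZ s = logDeriv (fun z => (z - 1) * riemannZeta z) s := by
    rw [logDeriv_apply, logDeriv_apply, h1.deriv_eq, h1.eq_of_nhds]
  rw [h2, logDeriv_mul (f := fun z => z - 1) (g := riemannZeta) s (sub_ne_zero.2 hs1) hz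
    ((differentiable_id.sub_const 1) s) (differentiableAt_riemannZeta hs1)]
  have h3 : HasDerivAt (fun z : ℂ => z - 1) 1 s := (hasDerivAt_id s).sub_const 1
  have h4 : logDeriv (fun z : ℂ => z - 1) s = 1 / (s - 1) := by
    rw [logDeriv_apply, h3.deriv]
  have h5 : logDeriv riemannZeta s =
      -LSeries (fun n => (ArithmeticFunction.vonMangoldt n : ℂ)) s := by
    rw [ArithmeticFunction.LSeries_vonMangoldt_eq_deriv_riemannZeta_div hs, logDeriv_apply]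
    ring
  rw [h4, h5]
  ring

/-- bound of the logarithmic derivative through Borel-Caratheodory and Cauchy -/
lemma logDeriv_bound {H : ℂ → ℂ} {R r₂ r₁ Mt : ℝ} (hr₁ : 0 < r₁) (h12 : r₁ < r₂) (h2R : r₂ < R)
    (hMt : 0 < Mt) (hH : DifferentiableOn ℂ H (ball 0 R)) (hne : ∀ z ∈ ball (0 : ℂ) R, H z ≠ 0)
    (h0 : H 0 = 1) (hb : ∀ z ∈ ball (0 : ℂ) R, ‖H z‖ ≤ Real.exp Mt) {w : ℂ} (hw : ‖w‖ ≤ r₁) :
    ‖deriv H w / H w‖ ≤ 2 * Mt * r₂ / (R - r₂) / (r₂ - r₁) := by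
  have hR : 0 < R := by linarith
  obtain ⟨g, hgd, hgexp, hg0⟩ := Pool.Agent.M17.Helper55.MZ.exists_log hR hH hne
  rw [h0, Complex.log_one] at hg0
  have hmaps : Set.MapsTo g (ball 0 R) {z | z.re ≤ Mt} := by
    intro z hz
    have h1 := hb z hz
    rw [← hgexp z hz, Complex.norm_exp, Real.exp_le_exp] at h1
    exact h1
  have hbound : ∀ z : ℂ, ‖z‖ ≤ r₂ → ‖g z‖ ≤ 2 * Mt * r₂ / (R - r₂) := by
    intro z hz
    have hzR : z ∈ ball (0 : ℂ) R := by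
      rw [mem_ball_zero_iff]; linarith
    have h1 := Complex.borelCaratheodory hMt hgd hmaps hR hzR
    rw [hg0, norm_zero, zero_mul, zero_div, add_zero] at h1
    refine h1.trans ?_
    have hz0 := norm_nonneg z
    have h2 : 2 * Mt * ‖z‖ ≤ 2 * Mt * r₂ := by nlinarith
    have h3 : R - r₂ ≤ R - ‖z‖ := by linarith
    have h4 : 0 < R - r₂ := by linarith
    have h5 : 0 < r₂ := by linarith
    exact div_le_div₀ (by positivity) h2 h4 h3
  have hwR : w ∈ ball (0 : ℂ) R := by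
    rw [mem_ball_zero_iff]; linarith
  have hder : deriv g w = deriv H w / H w := by
    have h1 : H =ᶠ[𝓝 w] fun z => cexp (g z) := by
      filter_upwards [isOpen_ball.mem_nhds hwR] with z hz
      exact (hgexp z hz).symm
    have h2 : HasDerivAt g (deriv g w) w :=
      (hgd.differentiableAt (isOpen_ball.mem_nhds hwR)).hasDerivAt
    rw [h1.deriv_eq, h2.cexp.deriv, ← hgexp w hwR, mul_div_assoc, mul_comm, div_mul_cancel₀]
    exact Complex.exp_ne_zero _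
  rw [← hder]
  have hsub : closedBall w (r₂ - r₁) ⊆ ball (0 : ℂ) R := by
    intro z hz
    rw [mem_closedBall, dist_eq_norm] at hz
    rw [mem_ball_zero_iff]
    have : ‖z‖ ≤ ‖z - w‖ + ‖w‖ := by
      have := norm_add_le (z - w) w
      rwa [sub_add_cancel] at this
    linarith
  refine Complex.norm_deriv_le_of_forall_mem_sphere_norm_le (by linarith)
    (DifferentiableOn.diffContOnCl ?_) fun z hz => hbound z ?_
  · rw [closure_ball w (by linarith : r₂ - r₁ ≠ 0)]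
    exact hgd.mono hsub
  · rw [mem_sphere, dist_eq_norm] at hz
    have : ‖z‖ ≤ ‖z - w‖ + ‖w‖ := by
      have := norm_add_le (z - w) w
      rwa [sub_add_cancel] at this
    linarith

end Pool.Agent.M17.Helper69.QRH
end

/- Helper53.KN.Helper46.KSZ.St -/
section
/-!
# Project KSZ, explicit formula (helper46): definitions and module statements

Paper proof: `KS_zeros.md`, PART A.
-/

set_option autoImplicit false
open Filter Topology MeasureTheory Complex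
open scoped Classical

namespace Pool.Agent.M17.Helper46.KSZ

open Pool.Agent.M17.Helper10.QRH Pool.Agent.M17.Helper69.QRH

/-- `M` is the multiset of all zeros of zeta (with multiplicity) in the box
`3/5 < Re s, |Im s| < T + 2`, and `Z = (s-1) ζ(s) / ∏ (s - ρ)`. -/
structure Box (T : ℝ) (M : Multiset ℂ) (Z : ℂ → ℂ) : Prop where
  diff : Differentiable ℂ Z
  eq : ∀ z, EZ z = Qp M z * Z z
  mem : ∀ ρ ∈ M, riemannZeta ρ = 0 ∧ 3/5 < ρ.re ∧ ρ.re < 1 ∧ |ρ.im| < T + 2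
  ne : ∀ z : ℂ, 3/5 < z.re → |z.im| < T + 2 → Z z ≠ 0
  count : ∀ ρ : ℂ, riemannZeta ρ = 0 → 3/5 < ρ.re → |ρ.im| < T + 2 →
    M.count ρ = analyticOrderNatAt riemannZeta ρ

/-- E1 -/
def BoxExists : Prop := ∀ T : ℝ, 0 ≤ T → ∃ (M : Multiset ℂ) (Z : ℂ → ℂ), Box T M Z

/-- E2: Jensen's inequality for `EZ` at `2 + i t` -/
def JensenEZ : Prop := ∃ C : ℝ, 0 < C ∧ ∀ (N : Multiset ℂ) (Z : ℂ → ℂ), Differentiable ℂ Z →
  (∀ z, EZ z = Qp N z * Z z) → ∀ t : ℝ, (∀ ρ ∈ N, ‖ρ - (2 + t * Complex.I)‖ ≤ 1.45) →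
    (Multiset.card N : ℝ) ≤ C * Real.log (|t| + 2)

/-- the zeros of `M` in the disc of radius `1.4` about `2 + i t` -/
noncomputable def near (M : Multiset ℂ) (t : ℝ) : Multiset ℂ :=
  M.filter (fun ρ => ‖ρ - (2 + t * Complex.I)‖ < 1.4)

/-- the other zeros -/
noncomputable def far (M : Multiset ℂ) (t : ℝ) : Multiset ℂ :=
  M.filter (fun ρ => ¬ ‖ρ - (2 + t * Complex.I)‖ < 1.4)

/-- E3: the logarithmic derivative of `EZ / ∏_{near}` -/
def LocalLog : Prop := ∃ C : ℝ, 0 < C ∧ ∀ (T : ℝ) (M : Multiset ℂ) (Z : ℂ → ℂ), 1 ≤ T → Box T M Z →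
  ∀ s : ℂ, 0.605 ≤ s.re → s.re ≤ 2 → |s.im| ≤ T →
    Qp (far M s.im) s * Z s ≠ 0 ∧
    ‖logDeriv (fun z => Qp (far M s.im) z * Z z) s‖ ≤ C * Real.log (|s.im| + 2)

/-- E4: sums over the zeros of the box -/
def FarSum : Prop := ∃ C : ℝ, 0 < C ∧ ∀ (T : ℝ) (M : Multiset ℂ) (Z : ℂ → ℂ), 1 ≤ T → Box T M Z →
  ∀ (N : Multiset ℂ), N ≤ M → ∀ s : ℂ, (∀ ρ ∈ N, 0.003 ≤ ‖s - ρ‖) →
    (N.map (fun ρ => 1 / ‖s - ρ‖)).sum ≤ C * (Real.log (T + 2)) ^ 2

/-- E4': the number of zeros of the box -/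
def CardBox : Prop := ∃ C : ℝ, 0 < C ∧ ∀ (T : ℝ) (M : Multiset ℂ) (Z : ℂ → ℂ), 1 ≤ T → Box T M Z →
  (Multiset.card M : ℝ) ≤ C * T * Real.log (T + 2)

/-- E5: bounds for `Z'/Z` -/
def GBound : Prop := ∃ C : ℝ, 0 < C ∧ ∀ (T : ℝ) (M : Multiset ℂ) (Z : ℂ → ℂ), 1 ≤ T → Box T M Z →
  (∀ s : ℂ, 0.605 ≤ s.re → s.re ≤ 2 → |s.im| ≤ T → ‖logDeriv Z s‖ ≤ C * (Real.log (T + 2)) ^ 2) ∧
  (∀ t : ℝ, ‖logDeriv Z (2 + t * Complex.I)‖ ≤ C * (Real.log (T + 2)) ^ 2)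

/-- the left side of the explicit formula, kernel `K`, powers `p` of `KK` -/
noncomputable def lhs (K : ℝ → ℝ) (p : ℕ) (lam : ℝ) (M : Multiset ℂ) (u : ℝ) : ℂ :=
  ((∑' n : ℕ, ArithmeticFunction.vonMangoldt n * K (u - Real.log n) : ℝ) : ℂ)
    - Complex.exp u * KK lam 1 ^ p + (M.map (fun ρ => Complex.exp (ρ * u) * KK lam ρ ^ p)).sum

/-- the line integral -/
noncomputable def line (p : ℕ) (lam T : ℝ) (Z : ℂ → ℂ) (u : ℝ) : ℂ :=
  (1 / (2 * Real.pi)) * ∫ t in (-T)..T, KK lam ((0.605 : ℝ) + t * Complex.I) ^ p *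
    (-logDeriv Z ((0.605 : ℝ) + t * Complex.I)) * Complex.exp (((0.605 : ℝ) + t * Complex.I) * u)

/-- E6: exact identity on `Re s = 2` -/
def LineTwo : Prop := ∀ (T : ℝ) (M : Multiset ℂ) (Z : ℂ → ℂ), 1 ≤ T → Box T M Z →
  ∀ lam u : ℝ, 0 < lam → lam ≤ 1 → 1 ≤ u →
    Integrable (fun t : ℝ => KK lam ((2 : ℝ) + t * Complex.I) *
      (-logDeriv Z ((2 : ℝ) + t * Complex.I)) * Complex.exp (((2 : ℝ) + t * Complex.I) * u)) ∧
    lhs (tri lam) 1 lam M u = (1 / (2 * Real.pi)) * ∫ t : ℝ, KK lam ((2 : ℝ) + t * Complex.I) *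
      (-logDeriv Z ((2 : ℝ) + t * Complex.I)) * Complex.exp (((2 : ℝ) + t * Complex.I) * u)

/-- E7: shift to the line `0.605` -/
def Shift : Prop := ∃ C : ℝ, 0 < C ∧ ∀ (T : ℝ) (M : Multiset ℂ) (Z : ℂ → ℂ), 1 ≤ T → Box T M Z →
  ∀ lam u : ℝ, 0 < lam → lam ≤ 1 → 1 ≤ u →
    ‖lhs (tri lam) 1 lam M u - line 1 lam T Z u‖ ≤
      C * Real.exp (2 * u) * (Real.log (T + 2)) ^ 2 / (lam ^ 2 * T)

/-- iterated triangle kernels (`p = j + 1` factors) -/
noncomputable def ker (lam : ℝ) : ℕ → ℝ → ℝ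
  | 0 => tri lam
  | j + 1 => fun v => ∫ w : ℝ, tri lam w * ker lam j (v - w)

/-- E8: facts on the iterated kernels -/
def KerFacts : Prop := ∀ lam : ℝ, 0 < lam → ∀ j : ℕ, Continuous (ker lam j) ∧
  (∀ v, 0 ≤ ker lam j v) ∧ (∀ v, ker lam j v ≤ 1 / lam) ∧
  (∀ v, (j + 1) * lam ≤ |v| → ker lam j v = 0)

/-- E9: the explicit formula with the iterated kernel -/
def ShiftIter : Prop := ∃ C : ℝ, 0 < C ∧ ∀ (T : ℝ) (M : Multiset ℂ) (Z : ℂ → ℂ), 1 ≤ T → Box T M Z →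
  ∀ lam u : ℝ, ∀ j : ℕ, 0 < lam → lam ≤ 1 → 1 + j * lam ≤ u →
    ‖lhs (ker lam j) (j + 1) lam M u - line (j + 1) lam T Z u‖ ≤
      C * Real.exp (2 * (u + j * lam)) * (Real.log (T + 2)) ^ 2 / (lam ^ 2 * T)

/-- length exponent of the cells of block `k` -/
noncomputable def ee (d : ℝ) (k : ℕ) : ℕ := ⌊(k : ℝ) * (1/2 - d)⌋₊

/-- the `j`-th cell of block `k` -/
noncomputable def cell (d : ℝ) (k j : ℕ) : Finset ℕ :=
  Finset.Ico (2 ^ k + j * 2 ^ ee d k) (2 ^ k + (j + 1) * 2 ^ ee d k)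

/-- logarithm of the centre of the cell -/
noncomputable def uu (d : ℝ) (k j : ℕ) : ℝ :=
  Real.log ((2 ^ k + j * 2 ^ ee d k : ℕ) + (2 : ℝ) ^ ee d k / 2)

/-- few primes -/
def Few (c₀ d : ℝ) (k j : ℕ) : Prop :=
  (((cell d k j).filter Nat.Prime).card : ℝ) < c₀ * (2 : ℝ) ^ ee d k / k

/-- the kernel width for the iterated kernel with `p` factors -/
noncomputable def lamk (p : ℕ) (d : ℝ) (k : ℕ) : ℝ := (2 : ℝ) ^ ee d k / (8 * p * 2 ^ k)

/-- E10: a cell with few primes makes the prime side small -/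
def PrimeSide : Prop := ∀ (p : ℕ) (d : ℝ), 1 ≤ p → 0 < d → d ≤ 1/100 → ∃ K : ℕ, ∀ k : ℕ, K ≤ k →
  ∀ j < 2 ^ (k - ee d k), Few (1 / (200 * p)) d k j →
    (∑' n : ℕ, ArithmeticFunction.vonMangoldt n * ker (lamk p d k) (p - 1) (uu d k j - Real.log n)) ≤
      1/8 * (2 : ℝ) ^ k

/-- E11: the line integral is small outside of few cells (`T = 2^(5k)`) -/
def LineFew : Prop := ∀ (p : ℕ) (d : ℝ), 1 ≤ p → 0 < d → d ≤ 1/100 → ∃ K : ℕ, ∀ k : ℕ, K ≤ k →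
  ∀ (M : Multiset ℂ) (Z : ℂ → ℂ), Box (2 ^ (5 * k)) M Z →
    (((Finset.range (2 ^ (k - ee d k))).filter (fun j =>
      1/100 * (2 : ℝ) ^ k ≤ ‖line p (lamk p d k) (2 ^ (5 * k)) Z (uu d k j)‖)).card : ℝ) ≤
      (2 : ℝ) ^ ((0.21 + 5 * d) * k)

/-- E12: high zeros are negligible -/
def HighZeros : Prop := ∀ d : ℝ, 0 < d → d ≤ 1/100 → ∃ p : ℕ, 1 ≤ p ∧ ∃ K : ℕ, ∀ k : ℕ, K ≤ k →
  ∀ (M : Multiset ℂ) (Z : ℂ → ℂ), Box (2 ^ (5 * k)) M Z → ∀ j < 2 ^ (k - ee d k),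
    ((M.filter (fun ρ => (2 : ℝ) ^ ((1/2 + 2 * d) * k) < |ρ.im|)).map (fun ρ =>
      ‖Complex.exp (ρ * uu d k j) * KK (lamk p d k) ρ ^ p‖)).sum ≤ 1

/-- the zeros with `3/5 < Re ρ` and `|Im ρ| ≤ 2^((1/2+2d)k)` -/
def zeroSet (d : ℝ) (k : ℕ) : Set ℂ :=
  {ρ : ℂ | riemannZeta ρ = 0 ∧ 3/5 < ρ.re ∧ |ρ.im| ≤ (2 : ℝ) ^ ((1/2 + 2 * d) * k)}

/-- FINAL RESULT of this part -/
def ExplicitCells : Prop := (∀ (d : ℝ) (k : ℕ), (zeroSet d k).Finite) ∧
  ∀ d : ℝ, 0 < d → d ≤ 1/100 → ∃ c₀ : ℝ, 0 < c₀ ∧ ∃ K : ℕ, ∀ k : ℕ, K ≤ k →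
  ∃ (c : ℂ → ℂ) (Ex : Finset ℕ), (∀ ρ : ℂ, 0 ≤ ρ.re → ρ.re ≤ 1 → ‖c ρ‖ ≤ 2) ∧
    (Ex.card : ℝ) ≤ (2 : ℝ) ^ ((0.21 + 5 * d) * k) ∧
    ∀ j < 2 ^ (k - ee d k), j ∉ Ex → Few c₀ d k j →
      ∀ S : Finset ℂ, (∀ ρ, ρ ∈ S ↔ ρ ∈ zeroSet d k) →
      3/4 ≤ ‖∑ ρ ∈ S, (analyticOrderNatAt riemannZeta ρ : ℂ) * c ρ *
        Complex.exp ((ρ - 1) * uu d k j)‖

end Pool.Agent.M17.Helper46.KSZ
end

/- Helper53.KN.Helper1.KL.St -/
section
/-!
# The explicit formula with the line `0.575` (project KS, design D4): definitions and statements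

Copy of `Pool/Agent/Helper46/KSZ/St.lean` (helper46) with the box `57/100 < Re s` and the line `Re s = 0.575`, and with
general cell lengths as in `Pool/Agent/Helper60/KG` (helper60).  This is needed for windows of length `y ^ 0.172`.
-/

set_option autoImplicit false
open Filter Topology MeasureTheory Complex
open scoped Classical

namespace Pool.Agent.M17.Helper1.KL

export Pool.Agent.M17.Helper46.KSZ (JensenEZ lhs ker KerFacts ee cell uu Few lamk)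

open Pool.Agent.M17.Helper10.QRH Pool.Agent.M17.Helper69.QRH

/-- `M` is the multiset of all zeros of zeta (with multiplicity) in the box
`57/100 < Re s, |Im s| < T + 2`, and `Z = (s-1) ζ(s) / ∏ (s - ρ)`. -/
structure Box (T : ℝ) (M : Multiset ℂ) (Z : ℂ → ℂ) : Prop where
  diff : Differentiable ℂ Z
  eq : ∀ z, EZ z = Qp M z * Z z
  mem : ∀ ρ ∈ M, riemannZeta ρ = 0 ∧ 57/100 < ρ.re ∧ ρ.re < 1 ∧ |ρ.im| < T + 2
  ne : ∀ z : ℂ, 57/100 < z.re → |z.im| < T + 2 → Z z ≠ 0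
  count : ∀ ρ : ℂ, riemannZeta ρ = 0 → 57/100 < ρ.re → |ρ.im| < T + 2 →
    M.count ρ = analyticOrderNatAt riemannZeta ρ

/-- E1 -/
def BoxExists : Prop := ∀ T : ℝ, 0 ≤ T → ∃ (M : Multiset ℂ) (Z : ℂ → ℂ), Box T M Z

/-- the zeros of `M` in the disc of radius `1.43` about `2 + i t` -/
noncomputable def near (M : Multiset ℂ) (t : ℝ) : Multiset ℂ :=
  M.filter (fun ρ => ‖ρ - (2 + t * Complex.I)‖ < 1.43)

/-- the other zeros -/
noncomputable def far (M : Multiset ℂ) (t : ℝ) : Multiset ℂ :=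
  M.filter (fun ρ => ¬ ‖ρ - (2 + t * Complex.I)‖ < 1.43)

/-- E3: the logarithmic derivative of `EZ / ∏_{near}` -/
def LocalLog : Prop := ∃ C : ℝ, 0 < C ∧ ∀ (T : ℝ) (M : Multiset ℂ) (Z : ℂ → ℂ), 1 ≤ T → Box T M Z →
  ∀ s : ℂ, 0.575 ≤ s.re → s.re ≤ 2 → |s.im| ≤ T →
    Qp (far M s.im) s * Z s ≠ 0 ∧
    ‖logDeriv (fun z => Qp (far M s.im) z * Z z) s‖ ≤ C * Real.log (|s.im| + 2)

/-- E4: sums over the zeros of the box -/
def FarSum : Prop := ∃ C : ℝ, 0 < C ∧ ∀ (T : ℝ) (M : Multiset ℂ) (Z : ℂ → ℂ), 1 ≤ T → Box T M Z →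
  ∀ (N : Multiset ℂ), N ≤ M → ∀ s : ℂ, (∀ ρ ∈ N, 0.003 ≤ ‖s - ρ‖) →
    (N.map (fun ρ => 1 / ‖s - ρ‖)).sum ≤ C * (Real.log (T + 2)) ^ 2

/-- E4': the number of zeros of the box -/
def CardBox : Prop := ∃ C : ℝ, 0 < C ∧ ∀ (T : ℝ) (M : Multiset ℂ) (Z : ℂ → ℂ), 1 ≤ T → Box T M Z →
  (Multiset.card M : ℝ) ≤ C * T * Real.log (T + 2)

/-- E5: bounds for `Z'/Z` -/
def GBound : Prop := ∃ C : ℝ, 0 < C ∧ ∀ (T : ℝ) (M : Multiset ℂ) (Z : ℂ → ℂ), 1 ≤ T → Box T M Z →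
  (∀ s : ℂ, 0.575 ≤ s.re → s.re ≤ 2 → |s.im| ≤ T → ‖logDeriv Z s‖ ≤ C * (Real.log (T + 2)) ^ 2) ∧
  (∀ t : ℝ, ‖logDeriv Z (2 + t * Complex.I)‖ ≤ C * (Real.log (T + 2)) ^ 2)

/-- the line integral -/
noncomputable def line (p : ℕ) (lam T : ℝ) (Z : ℂ → ℂ) (u : ℝ) : ℂ :=
  (1 / (2 * Real.pi)) * ∫ t in (-T)..T, KK lam ((0.575 : ℝ) + t * Complex.I) ^ p *
    (-logDeriv Z ((0.575 : ℝ) + t * Complex.I)) * Complex.exp (((0.575 : ℝ) + t * Complex.I) * u)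

/-- E6: exact identity on `Re s = 2` -/
def LineTwo : Prop := ∀ (T : ℝ) (M : Multiset ℂ) (Z : ℂ → ℂ), 1 ≤ T → Box T M Z →
  ∀ lam u : ℝ, 0 < lam → lam ≤ 1 → 1 ≤ u →
    Integrable (fun t : ℝ => KK lam ((2 : ℝ) + t * Complex.I) *
      (-logDeriv Z ((2 : ℝ) + t * Complex.I)) * Complex.exp (((2 : ℝ) + t * Complex.I) * u)) ∧
    lhs (tri lam) 1 lam M u = (1 / (2 * Real.pi)) * ∫ t : ℝ, KK lam ((2 : ℝ) + t * Complex.I) *
      (-logDeriv Z ((2 : ℝ) + t * Complex.I)) * Complex.exp (((2 : ℝ) + t * Complex.I) * u)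

/-- E7: shift to the line `0.575` -/
def Shift : Prop := ∃ C : ℝ, 0 < C ∧ ∀ (T : ℝ) (M : Multiset ℂ) (Z : ℂ → ℂ), 1 ≤ T → Box T M Z →
  ∀ lam u : ℝ, 0 < lam → lam ≤ 1 → 1 ≤ u →
    ‖lhs (tri lam) 1 lam M u - line 1 lam T Z u‖ ≤
      C * Real.exp (2 * u) * (Real.log (T + 2)) ^ 2 / (lam ^ 2 * T)

/-- E9: the explicit formula with the iterated kernel -/
def ShiftIter : Prop := ∃ C : ℝ, 0 < C ∧ ∀ (T : ℝ) (M : Multiset ℂ) (Z : ℂ → ℂ), 1 ≤ T → Box T M Z →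
  ∀ lam u : ℝ, ∀ j : ℕ, 0 < lam → lam ≤ 1 → 1 + j * lam ≤ u →
    ‖lhs (ker lam j) (j + 1) lam M u - line (j + 1) lam T Z u‖ ≤
      C * Real.exp (2 * (u + j * lam)) * (Real.log (T + 2)) ^ 2 / (lam ^ 2 * T)

/-- E10: a cell with few primes makes the prime side small -/
def PrimeSideG : Prop := ∀ (p : ℕ) (d : ℝ), 1 ≤ p → -(1 / 2) ≤ d → d ≤ 34/100 → ∃ K : ℕ, ∀ k : ℕ, K ≤ k →
  ∀ j < 2 ^ (k - ee d k), Few (1 / (200 * p)) d k j →
    (∑' n : ℕ, ArithmeticFunction.vonMangoldt n * ker (lamk p d k) (p - 1) (uu d k j - Real.log n)) ≤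
      1/8 * (2 : ℝ) ^ k

/-- E11: the line integral is small outside of few cells (`T = 2^(5k)`) -/
def LineFewG : Prop := ∀ (p : ℕ) (d η : ℝ), 1 ≤ p → -(1 / 2) ≤ d → d ≤ 34/100 → 0 < η → ∃ K : ℕ, ∀ k : ℕ, K ≤ k →
  ∀ (M : Multiset ℂ) (Z : ℂ → ℂ), Box (2 ^ (5 * k)) M Z →
    (((Finset.range (2 ^ (k - ee d k))).filter (fun j =>
      1/100 * (2 : ℝ) ^ k ≤ ‖line p (lamk p d k) (2 ^ (5 * k)) Z (uu d k j)‖)).card : ℝ) ≤
      (2 : ℝ) ^ ((0.15 + 2 * d + 3 * η) * k)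

/-- E12: high zeros are negligible -/
def HighZerosG : Prop := ∀ d η : ℝ, -(1 / 2) ≤ d → d ≤ 34/100 → 0 < η → ∃ p : ℕ, 1 ≤ p ∧ ∃ K : ℕ, ∀ k : ℕ, K ≤ k →
  ∀ (M : Multiset ℂ) (Z : ℂ → ℂ), Box (2 ^ (5 * k)) M Z → ∀ j < 2 ^ (k - ee d k),
    ((M.filter (fun ρ => (2 : ℝ) ^ ((1/2 + d + η) * k) < |ρ.im|)).map (fun ρ =>
      ‖Complex.exp (ρ * uu d k j) * KK (lamk p d k) ρ ^ p‖)).sum ≤ 1

/-- the zeros with `57/100 < Re ρ` and `|Im ρ| ≤ 2^(s k)` -/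
def zeroSetG (s : ℝ) (k : ℕ) : Set ℂ :=
  {ρ : ℂ | riemannZeta ρ = 0 ∧ 57/100 < ρ.re ∧ |ρ.im| ≤ (2 : ℝ) ^ (s * k)}

/-- explicit formula for cells of length `2^⌊k (1/2 - d)⌋`, `-1/2 ≤ d ≤ 34/100`, with room `η` -/
def ExplicitCellsG : Prop := ∀ d η : ℝ, -(1 / 2) ≤ d → d ≤ 34/100 → 0 < η → η ≤ 1 →
  ∃ c₀ : ℝ, 0 < c₀ ∧ ∃ K : ℕ, ∀ k : ℕ, K ≤ k →
  ∃ (c : ℂ → ℂ) (Ex : Finset ℕ), (∀ ρ : ℂ, 0 ≤ ρ.re → ρ.re ≤ 1 → ‖c ρ‖ ≤ 2) ∧
    (Ex.card : ℝ) ≤ (2 : ℝ) ^ ((0.15 + 2 * d + 3 * η) * k) ∧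
    ∀ j < 2 ^ (k - ee d k), j ∉ Ex → Few c₀ d k j →
      ∀ S : Finset ℂ, (∀ ρ, ρ ∈ S ↔ ρ ∈ zeroSetG (1/2 + d + η) k) →
      3/4 ≤ ‖∑ ρ ∈ S, (analyticOrderNatAt riemannZeta ρ : ℂ) * c ρ *
        Complex.exp ((ρ - 1) * uu d k j)‖

end Pool.Agent.M17.Helper1.KL
end
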