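import Mathlib

/- Helper53.KN.Helper44.Mertens -/
section
/-!
# Mertens' theorems in interval form
-/

set_option autoImplicit false

open Finset Real
open scoped ArithmeticFunction.vonMangoldt

namespace Pool.Agent.M17.Helper44

/-- `log N! = ∑_{d ≤ N} Λ(d) ⌊N/d⌋`. -/
theorem log_factorial_eq_sum (N : ℕ) :
    Real.log (N.factorial : ℝ) = ∑ d ∈ Ioc 0 N, Λ d * ((N / d : ℕ) : ℝ) := by
  have h1 : Real.log (N.factorial : ℝ) = ∑ m ∈ Ioc 0 N, Real.log m := by
    rw [← Finset.prod_Ico_id_eq_factorial, Nat.cast_prod, Real.log_prod]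
    · apply Finset.sum_congr _ (fun _ _ => rfl)
      ext i
      simp only [Finset.mem_Ico, Finset.mem_Ioc]
      omega
    · intro i hi
      have := (Finset.mem_Ico.mp hi).1
      positivity
  rw [h1]
  have h2 : ∀ m ∈ Ioc 0 N, Real.log m = ∑ d ∈ Ioc 0 N, if d ∣ m then Λ d else 0 := by
    intro m hm
    rw [← ArithmeticFunction.vonMangoldt_sum, ← Finset.sum_filter]
    apply Finset.sum_congr _ (fun _ _ => rfl)
    ext d
    simp only [Nat.mem_divisors, Finset.mem_filter, Finset.mem_Ioc]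
    rw [Finset.mem_Ioc] at hm
    constructor
    · rintro ⟨h, h0⟩
      exact ⟨⟨Nat.pos_of_dvd_of_pos h hm.1, (Nat.le_of_dvd hm.1 h).trans hm.2⟩, h⟩
    · rintro ⟨_, h⟩
      exact ⟨h, by omega⟩
  rw [Finset.sum_congr rfl h2, Finset.sum_comm]
  apply Finset.sum_congr rfl
  intro d hd
  rw [← Finset.sum_filter, Finset.sum_const, nsmul_eq_mul, mul_comm]
  congr 2
  rw [Nat.Ioc_filter_dvd_card_eq_div]

theorem log_factorial_le (N : ℕ) : Real.log (N.factorial : ℝ) ≤ N * Real.log N := by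
  rcases Nat.eq_zero_or_pos N with h | h
  · simp [h]
  rw [← Real.log_pow]
  apply Real.log_le_log
  · positivity
  · exact_mod_cast Nat.factorial_le_pow N

theorem le_log_factorial (N : ℕ) : (N : ℝ) * Real.log N - N ≤ Real.log (N.factorial : ℝ) := by
  rcases Nat.eq_zero_or_pos N with h | h
  · simp [h]
  have hN : (0 : ℝ) < N := by exact_mod_cast h
  have h1 : (N : ℝ) ^ N / N.factorial ≤ Real.exp N := by
    exact Real.pow_div_factorial_le_exp _ hN.le N
  have h2 : Real.log ((N : ℝ) ^ N / N.factorial) ≤ N := by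
    calc Real.log ((N : ℝ) ^ N / N.factorial) ≤ Real.log (Real.exp N) :=
          Real.log_le_log (by positivity) h1
      _ = N := Real.log_exp _
  rw [Real.log_div (by positivity) (by positivity), Real.log_pow] at h2
  (clear * - h2; linarith)

/-- First theorem, with `Λ`, integer argument. -/
theorem abs_sum_vonMangoldt_div_sub_log_nat (N : ℕ) (hN : 1 ≤ N) :
    |∑ d ∈ Ioc 0 N, Λ d / d - Real.log N| ≤ 6 := by
  have hN0 : (0 : ℝ) < N := by exact_mod_cast hN
  have h1 := log_factorial_eq_sum N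
  have h2 := log_factorial_le N
  have h3 := le_log_factorial N
  have h4 : ∑ d ∈ Ioc 0 N, Λ d * ((N / d : ℕ) : ℝ) ≤ N * ∑ d ∈ Ioc 0 N, Λ d / d := by
    rw [Finset.mul_sum]
    apply Finset.sum_le_sum
    intro d hd
    have hd0 : (0 : ℝ) < d := by exact_mod_cast (Finset.mem_Ioc.mp hd).1
    have : ((N / d : ℕ) : ℝ) ≤ N / d := Nat.cast_div_le
    calc Λ d * ((N / d : ℕ) : ℝ) ≤ Λ d * (N / d) :=
          mul_le_mul_of_nonneg_left this ArithmeticFunction.vonMangoldt_nonneg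
      _ = N * (Λ d / d) := by ring
  have h5 : N * ∑ d ∈ Ioc 0 N, Λ d / d - Chebyshev.psi N
      ≤ ∑ d ∈ Ioc 0 N, Λ d * ((N / d : ℕ) : ℝ) := by
    have : Chebyshev.psi N = ∑ d ∈ Ioc 0 N, Λ d := by
      simp [Chebyshev.psi]
    rw [this, Finset.mul_sum, ← Finset.sum_sub_distrib]
    apply Finset.sum_le_sum
    intro d hd
    have hd0 : (0 : ℝ) < d := by exact_mod_cast (Finset.mem_Ioc.mp hd).1
    have : (N / d : ℝ) - 1 ≤ ((N / d : ℕ) : ℝ) := by
      have h := Nat.div_add_mod N d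
      have h' := Nat.mod_lt N (Finset.mem_Ioc.mp hd).1
      have h6 : (N : ℝ) ≤ d * ((N / d : ℕ) : ℝ) + d := by
        have : N ≤ d * (N / d) + d := by omega
        exact_mod_cast this
      rw [sub_le_iff_le_add, div_le_iff₀ hd0]
      (clear * - h6; linarith)
    calc N * (Λ d / d) - Λ d = Λ d * (N / d - 1) := by ring
      _ ≤ _ := mul_le_mul_of_nonneg_left this ArithmeticFunction.vonMangoldt_nonneg
  have h6 : Chebyshev.psi N ≤ (Real.log 4 + 4) * N := Chebyshev.psi_le_const_mul_self hN0.le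
  have h7 : Real.log 4 ≤ 2 := by
    have : Real.log 4 = 2 * Real.log 2 := by
      rw [show (4 : ℝ) = 2 ^ 2 by norm_num, Real.log_pow]; norm_num
    have := Real.log_two_lt_d9
    linarith
  rw [abs_le]
  constructor
  · -- lower bound
    have : N * (Real.log N - 1) ≤ N * ∑ d ∈ Ioc 0 N, Λ d / d := by
      calc (N : ℝ) * (Real.log N - 1) = N * Real.log N - N := by ring
        _ ≤ _ := by (clear * - h1 h3 h4; linarith)
    have := le_of_mul_le_mul_left this hN0
    (clear * - this; linarith)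
  · have : N * ∑ d ∈ Ioc 0 N, Λ d / d ≤ N * (Real.log N + 6) := by
      have : N * ∑ d ∈ Ioc 0 N, Λ d / d ≤ N * Real.log N + (Real.log 4 + 4) * N := by linarith
      have h8 : (Real.log 4 + 4) * N ≤ 6 * N := by
        apply mul_le_mul_of_nonneg_right _ hN0.le
        (clear * - h7; linarith)
      calc _ ≤ _ := this
        _ ≤ N * Real.log N + 6 * N := by (clear * - h8; linarith)
        _ = _ := by ring
    have := le_of_mul_le_mul_left this hN0
    (clear * - this; linarith)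

/-- A constant bounding the contribution of proper prime powers. -/
noncomputable def ppC : ℝ := ∑' n : ℕ, 4 / (n : ℝ) ^ (3 / 2 : ℝ)

theorem summable_ppC : Summable (fun n : ℕ => 4 / (n : ℝ) ^ (3 / 2 : ℝ)) := by
  have h : Summable (fun n : ℕ => ((n : ℝ) ^ (3 / 2 : ℝ))⁻¹) :=
    Real.summable_nat_rpow_inv.mpr (by norm_num)
  simpa [div_eq_mul_inv] using h.mul_left 4

theorem ppC_nonneg : 0 ≤ ppC := tsum_nonneg fun n => by (clear * -; positivity)

theorem log_div_sq_le (n : ℕ) : Real.log n / (n : ℝ) ^ 2 * 2 ≤ 4 / (n : ℝ) ^ (3 / 2 : ℝ) := by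
  rcases Nat.eq_zero_or_pos n with h | h
  · simp [h]
  have hn : (0 : ℝ) < n := by exact_mod_cast h
  have h1 : Real.log n ≤ 2 * (n : ℝ) ^ (1 / 2 : ℝ) := by
    have := Real.log_le_rpow_div hn.le (show (0 : ℝ) < 1 / 2 by norm_num)
    calc Real.log n ≤ (n : ℝ) ^ (1 / 2 : ℝ) / (1 / 2) := this
      _ = _ := by ring
  have h2 : (n : ℝ) ^ 2 = (n : ℝ) ^ (1 / 2 : ℝ) * (n : ℝ) ^ (3 / 2 : ℝ) := by
    rw [← Real.rpow_natCast, ← Real.rpow_add hn]; norm_num
  rw [h2, div_mul_eq_mul_div, div_le_div_iff₀ (by positivity) (by positivity)]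
  calc Real.log n * 2 * (n : ℝ) ^ (3 / 2 : ℝ)
      ≤ (2 * (n : ℝ) ^ (1 / 2 : ℝ)) * 2 * (n : ℝ) ^ (3 / 2 : ℝ) := by gcongr
    _ = _ := by ring

theorem sum_vonMangoldt_div_sub_primes (N : ℕ) :
    0 ≤ ∑ d ∈ Ioc 0 N, Λ d / d - ∑ q ∈ (Ioc 0 N).filter Nat.Prime, Real.log q / q ∧
    ∑ d ∈ Ioc 0 N, Λ d / d - ∑ q ∈ (Ioc 0 N).filter Nat.Prime, Real.log q / q ≤ ppC := by
  have hsplit : ∑ d ∈ Ioc 0 N, Λ d / d = ∑ d ∈ (Ioc 0 N).filter IsPrimePow, Λ d / d := by
    rw [Finset.sum_filter]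
    apply Finset.sum_congr rfl
    intro d _
    split_ifs with h
    · rfl
    · rw [ArithmeticFunction.vonMangoldt_eq_zero_iff.mpr h, zero_div]
  have hN0 : (0 : ℝ) ≤ (N : ℝ) := by positivity
  have hpp := Chebyshev.sum_PrimePow_eq_sum_sum (R := ℝ) (fun n => Λ n / n) hN0
  rw [Nat.floor_natCast] at hpp
  set K := ⌊Real.log N / Real.log 2⌋₊ with hK
  have hfk : ∀ k ∈ Icc 1 K, ∑ p ∈ Ioc 0 ⌊(N : ℝ) ^ ((1 : ℝ) / k)⌋₊ with p.Prime,
      (Λ (p ^ k) / ((p ^ k : ℕ) : ℝ)) =
      ∑ p ∈ Ioc 0 ⌊(N : ℝ) ^ ((1 : ℝ) / k)⌋₊ with p.Prime, Real.log p / (p : ℝ) ^ k := by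
    intro k hk
    apply Finset.sum_congr rfl
    intro p hp
    have hk1 := (Finset.mem_Icc.mp hk).1
    rw [ArithmeticFunction.vonMangoldt_apply_pow (by omega),
      ArithmeticFunction.vonMangoldt_apply_prime (Finset.mem_filter.mp hp).2, Nat.cast_pow]
  rw [hsplit, hpp, Finset.sum_congr rfl hfk]
  rcases Nat.lt_or_ge N 2 with hN2 | hN2
  · have hK0 : K = 0 := by
      rw [hK]
      interval_cases N <;> simp
    have : (Ioc 0 N).filter Nat.Prime = ∅ := by
      ext q
      simp only [Finset.mem_filter, Finset.mem_Ioc, Finset.notMem_empty, iff_false]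
      rintro ⟨⟨_, h⟩, hq⟩
      have := hq.two_le
      omega
    rw [hK0, this]
    simp [ppC_nonneg]
  have hK1 : 1 ≤ K := by
    rw [hK, Nat.one_le_floor_iff, one_le_div (Real.log_pos (by norm_num))]
    exact Real.log_le_log (by norm_num) (by exact_mod_cast hN2)
  rw [← Finset.add_sum_Ioc_eq_sum_Icc hK1]
  have h1 : ∑ p ∈ Ioc 0 ⌊(N : ℝ) ^ ((1 : ℝ) / (1 : ℕ))⌋₊ with p.Prime, Real.log p / (p : ℝ) ^ 1
      = ∑ q ∈ (Ioc 0 N).filter Nat.Prime, Real.log q / q := by
    simp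
  rw [h1, add_sub_cancel_left]
  have hnn : ∀ k p : ℕ, 0 ≤ Real.log p / (p : ℝ) ^ k := by
    intro k p
    apply div_nonneg (Real.log_natCast_nonneg p) (by (clear * -; positivity))
  refine ⟨Finset.sum_nonneg fun k _ => Finset.sum_nonneg fun p _ => hnn k p, ?_⟩
  calc ∑ k ∈ Ioc 1 K, ∑ p ∈ Ioc 0 ⌊(N : ℝ) ^ ((1 : ℝ) / k)⌋₊ with p.Prime, Real.log p / (p : ℝ) ^ k
      ≤ ∑ k ∈ Ioc 1 K, ∑ p ∈ (Ioc 0 N).filter Nat.Prime, Real.log p / (p : ℝ) ^ k := by
        apply Finset.sum_le_sum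
        intro k hk
        apply Finset.sum_le_sum_of_subset_of_nonneg
        · intro p hp
          rw [Finset.mem_filter, Finset.mem_Ioc] at hp ⊢
          refine ⟨⟨hp.1.1, hp.1.2.trans ?_⟩, hp.2⟩
          have hk1 := (Finset.mem_Ioc.mp hk).1
          have : (N : ℝ) ^ ((1 : ℝ) / k) ≤ N := by
            apply Real.rpow_le_self_of_one_le
            · exact_mod_cast (by omega : 1 ≤ N)
            · rw [div_le_one (by positivity)]
              exact_mod_cast hk1.le
          calc ⌊(N : ℝ) ^ ((1 : ℝ) / k)⌋₊ ≤ ⌊(N : ℝ)⌋₊ := Nat.floor_le_floor this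
            _ = N := Nat.floor_natCast N
        · intro p _ _
          exact hnn k p
    _ = ∑ p ∈ (Ioc 0 N).filter Nat.Prime, ∑ k ∈ Ioc 1 K, Real.log p / (p : ℝ) ^ k :=
        Finset.sum_comm
    _ ≤ ∑ p ∈ (Ioc 0 N).filter Nat.Prime, 4 / (p : ℝ) ^ (3 / 2 : ℝ) := by
        apply Finset.sum_le_sum
        intro p hp
        have hpp := (Finset.mem_filter.mp hp).2
        have hp2 : (2 : ℝ) ≤ p := by exact_mod_cast hpp.two_le
        refine le_trans ?_ (log_div_sq_le p)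
        have hgeo : ∑ k ∈ Ioc 1 K, (1 / (p : ℝ)) ^ k ≤ 2 * (1 / (p : ℝ)) ^ 2 := by
          have h0 : ∀ K : ℕ, ∑ k ∈ Ioc 1 K, (1 / (p : ℝ)) ^ k ≤
              2 * (1 / (p : ℝ)) ^ 2 * (1 - (1 / (p : ℝ)) ^ (K - 1)) := by
            intro K
            induction K with
            | zero => simp
            | succ n ih =>
              rcases Nat.eq_zero_or_pos n with h | h
              · subst h; simp
              · rw [Finset.sum_Ioc_succ_top (by omega)]
                obtain ⟨m, rfl⟩ : ∃ m, n = m + 1 := ⟨n - 1, by omega⟩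
                simp only [Nat.add_sub_cancel] at ih ⊢
                have hx : (1 / (p : ℝ)) ≤ 1 / 2 := by
                  apply one_div_le_one_div_of_le (by norm_num) hp2
                have hx0 : (0 : ℝ) ≤ 1 / (p : ℝ) := by (clear * - hp2; positivity)
                set x := 1 / (p : ℝ)
                have e1 : x ^ (m + 1 + 1) = x ^ 2 * x ^ m := by ring
                have e2 : x ^ (m + 1) = x ^ m * x := by ring
                rw [e1, e2]
                have hxm : 0 ≤ x ^ m := by (clear * - hp2; positivity)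
                have : 0 ≤ x ^ 2 * x ^ m * (1 - 2 * x) := by
                  apply mul_nonneg (by (clear * - hp2; positivity)); (clear * - hx; linarith)
                (clear * - ih this; nlinarith)
          refine (h0 K).trans ?_
          have : 0 ≤ (1 / (p : ℝ)) ^ (K - 1) := by (clear * - hp2; positivity)
          have h2 : (0 : ℝ) ≤ 2 * (1 / (p : ℝ)) ^ 2 := by (clear * - hp2; positivity)
          (clear * - this; nlinarith)
        calc ∑ k ∈ Ioc 1 K, Real.log p / (p : ℝ) ^ k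
            = Real.log p * ∑ k ∈ Ioc 1 K, (1 / (p : ℝ)) ^ k := by
              rw [Finset.mul_sum]
              apply Finset.sum_congr rfl
              intro k _
              rw [one_div, inv_pow]; rfl
          _ ≤ Real.log p * (2 * (1 / (p : ℝ)) ^ 2) :=
              mul_le_mul_of_nonneg_left hgeo (Real.log_natCast_nonneg p)
          _ = Real.log p / (p : ℝ) ^ 2 * 2 := by
              rw [one_div, inv_pow]; ring
    _ ≤ ppC := by
        unfold ppC
        exact summable_ppC.sum_le_tsum _ (fun n _ => by (clear * -; positivity))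

/-- Mertens' first theorem for primes. -/
theorem mertens_first : ∃ C : ℝ, 0 < C ∧ ∀ N : ℕ, 1 ≤ N →
    |∑ q ∈ (Ioc 0 N).filter Nat.Prime, Real.log q / q - Real.log N| ≤ C := by
  refine ⟨6 + ppC, by have := ppC_nonneg; linarith, ?_⟩
  intro N hN
  have h1 := abs_sum_vonMangoldt_div_sub_log_nat N hN
  have h2 := sum_vonMangoldt_div_sub_primes N
  rw [abs_le] at h1 ⊢
  constructor <;> (clear * - h1 h2; linarith [h1.1, h1.2, h2.1, h2.2])

end Pool.Agent.M17.Helper44
end

/- Helper53.KN.Helper44.MertensInterval -/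
section
set_option autoImplicit false

open Finset Real
open scoped ArithmeticFunction.vonMangoldt

namespace Pool.Agent.M17.Helper44

/-- Mertens' second theorem on intervals. -/
theorem mertens_interval : ∃ C : ℝ, 0 < C ∧ ∀ x y : ℝ, 2 ≤ x → x ≤ y →
    |∑ q ∈ (Finset.Ioc ⌊x⌋₊ ⌊y⌋₊).filter Nat.Prime, (1:ℝ)/q - Real.log (Real.log y / Real.log x)|
      ≤ C / Real.log x := by
  obtain ⟨C0, hC0, hM⟩ := mertens_first
  set C1 := C0 + 1 with hC1
  refine ⟨3 * C1, by positivity, ?_⟩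
  intro x y hx hxy
  have hx0 : (0 : ℝ) < x := by linarith
  have hlx : 0 < Real.log x := Real.log_pos (by linarith)
  have hly : 0 < Real.log y := Real.log_pos (by linarith)
  set c : ℕ → ℝ := fun n => if n.Prime then Real.log n / n else 0 with hc
  set A : ℝ → ℝ := fun t => ∑ k ∈ Icc 0 ⌊t⌋₊, c k with hA
  have hAbound : ∀ t : ℝ, 2 ≤ t → |A t - Real.log t| ≤ C1 := by
    intro t ht
    have hN : 1 ≤ ⌊t⌋₊ := by
      rw [Nat.one_le_floor_iff]; linarith
    have h1 := hM ⌊t⌋₊ hN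
    have h2 : A t = ∑ q ∈ (Ioc 0 ⌊t⌋₊).filter Nat.Prime, Real.log q / q := by
      simp only [hA, hc]
      rw [← Finset.sum_filter]
      apply Finset.sum_congr _ (fun _ _ => rfl)
      ext q
      simp only [Finset.mem_filter, Finset.mem_Icc, Finset.mem_Ioc]
      constructor
      · rintro ⟨⟨_, h⟩, hq⟩; exact ⟨⟨hq.pos, h⟩, hq⟩
      · rintro ⟨⟨_, h⟩, hq⟩; exact ⟨⟨Nat.zero_le _, h⟩, hq⟩
    rw [← h2] at h1
    have hfl : (⌊t⌋₊ : ℝ) ≤ t := Nat.floor_le (by (clear * - ht; linarith))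
    have hfl2 : t ≤ 2 * (⌊t⌋₊ : ℝ) := by
      have := (Nat.lt_floor_add_one t).le
      have h3 : (1 : ℝ) ≤ (⌊t⌋₊ : ℝ) := by exact_mod_cast hN
      (clear * - ht this; linarith)
    have hf0 : (0 : ℝ) < (⌊t⌋₊ : ℝ) := by exact_mod_cast hN
    have h4 : Real.log (⌊t⌋₊ : ℝ) ≤ Real.log t := Real.log_le_log hf0 hfl
    have h5 : Real.log t ≤ Real.log 2 + Real.log (⌊t⌋₊ : ℝ) := by
      rw [← Real.log_mul (by norm_num) hf0.ne']
      exact Real.log_le_log (by (clear * - ht; linarith)) hfl2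
    have h6 : Real.log 2 ≤ 1 := by
      have := Real.log_two_lt_d9; (clear * - this; linarith)
    rw [abs_le] at h1 ⊢
    constructor <;> (clear * - h1 h5 h6 h4; linarith [h1.1, h1.2])
  -- Abel summation
  have hderiv : ∀ t ∈ Set.Icc x y, HasDerivAt (fun t => (Real.log t)⁻¹) (-(t * Real.log t ^ 2)⁻¹) t := by
    intro t ht
    have ht0 : 0 < t := by linarith [ht.1]
    have hlt : Real.log t ≠ 0 := (Real.log_pos (by linarith [ht.1])).ne'
    refine HasDerivAt.congr_deriv ((Real.hasDerivAt_log ht0.ne').inv hlt) ?_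
    rw [mul_inv, neg_div, div_eq_mul_inv]
  have hdiff : ∀ t ∈ Set.Icc x y, DifferentiableAt ℝ (fun t => (Real.log t)⁻¹) t :=
    fun t ht => (hderiv t ht).differentiableAt
  have hcont : ContinuousOn (fun t : ℝ => -(t * Real.log t ^ 2)⁻¹) (Set.Icc x y) := by
    intro t ht
    have ht0 : 0 < t := by linarith [ht.1]
    have hlt : Real.log t ≠ 0 := (Real.log_pos (by linarith [ht.1])).ne'
    apply ContinuousAt.continuousWithinAt
    have : t * Real.log t ^ 2 ≠ 0 := by positivity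
    fun_prop (disch := first | exact this | exact ht0.ne')
  have hint : MeasureTheory.IntegrableOn (fun t : ℝ => -(t * Real.log t ^ 2)⁻¹) (Set.Icc x y) :=
    hcont.integrableOn_Icc
  have hint' : MeasureTheory.IntegrableOn (deriv (fun t => (Real.log t)⁻¹)) (Set.Icc x y) := by
    apply hint.congr_fun _ measurableSet_Icc
    intro t ht
    exact (hderiv t ht).deriv.symm
  have habel := sum_mul_eq_sub_sub_integral_mul c (f := fun t => (Real.log t)⁻¹) hx0.le hxy hdiff hint'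
  have hlhs : ∑ k ∈ Ioc ⌊x⌋₊ ⌊y⌋₊, (Real.log (k : ℝ))⁻¹ * c k =
      ∑ q ∈ (Finset.Ioc ⌊x⌋₊ ⌊y⌋₊).filter Nat.Prime, (1:ℝ)/q := by
    rw [Finset.sum_filter]
    apply Finset.sum_congr rfl
    intro k hk
    simp only [hc]
    split_ifs with h
    · have : Real.log (k : ℝ) ≠ 0 := (Real.log_pos (by exact_mod_cast h.one_lt)).ne'
      (clear * - this; field_simp)
    · simp
  rw [hlhs] at habel
  have hcongr : ∫ t in Set.Ioc x y, deriv (fun t => (Real.log t)⁻¹) t * ∑ k ∈ Icc 0 ⌊t⌋₊, c k =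
      ∫ t in Set.Ioc x y, -(t * Real.log t ^ 2)⁻¹ * A t := by
    apply MeasureTheory.setIntegral_congr_fun measurableSet_Ioc
    intro t ht
    simp only [hA]
    rw [(hderiv t ⟨ht.1.le, ht.2⟩).deriv]
  rw [hcongr] at habel
  -- integrability
  have hiA : MeasureTheory.IntegrableOn (fun t => -(t * Real.log t ^ 2)⁻¹ * A t) (Set.Ioc x y) :=
    (integrableOn_mul_sum_Icc c (m := 0) hx0.le hint).mono_set Set.Ioc_subset_Icc_self
  have hcontL : ContinuousOn (fun t : ℝ => -(t * Real.log t)⁻¹) (Set.Icc x y) := by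
    intro t ht
    have ht0 : 0 < t := by (clear * - hx ht; linarith [ht.1])
    have hlt : Real.log t ≠ 0 := (Real.log_pos (by (clear * - hx ht; linarith [ht.1]))).ne'
    apply ContinuousAt.continuousWithinAt
    have : t * Real.log t ≠ 0 := by (clear * - ht0 hlt; positivity)
    fun_prop (disch := first | exact this | exact ht0.ne')
  have hiL : MeasureTheory.IntegrableOn (fun t => -(t * Real.log t ^ 2)⁻¹ * Real.log t) (Set.Ioc x y) := by
    have h1 : MeasureTheory.IntegrableOn (fun t : ℝ => -(t * Real.log t)⁻¹) (Set.Ioc x y) :=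
      hcontL.integrableOn_Icc.mono_set Set.Ioc_subset_Icc_self
    apply h1.congr_fun _ measurableSet_Ioc
    intro t ht
    have ht0 : 0 < t := by (clear * - hx ht; linarith [ht.1])
    have hlt : Real.log t ≠ 0 := (Real.log_pos (by (clear * - hx ht; linarith [ht.1]))).ne'
    simp only
    field_simp
  have hI1 : ∫ t in Set.Ioc x y, -(t * Real.log t ^ 2)⁻¹ * Real.log t =
      -(Real.log (Real.log y / Real.log x)) := by
    rw [← intervalIntegral.integral_of_le hxy]
    have : ∀ t ∈ Set.uIcc x y, HasDerivAt (fun t => -Real.log (Real.log t))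
        (-(t * Real.log t ^ 2)⁻¹ * Real.log t) t := by
      intro t ht
      rw [Set.uIcc_of_le hxy] at ht
      have ht0 : 0 < t := by (clear * - hx ht; linarith [ht.1])
      have hlt : Real.log t ≠ 0 := (Real.log_pos (by (clear * - hx ht; linarith [ht.1]))).ne'
      refine HasDerivAt.congr_deriv (((Real.hasDerivAt_log ht0.ne').log hlt).neg) ?_
      rw [mul_inv, neg_mul, mul_assoc, sq, mul_inv, mul_assoc, inv_mul_cancel₀ hlt, mul_one,
        div_eq_mul_inv]
    rw [intervalIntegral.integral_eq_sub_of_hasDerivAt this]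
    · rw [Real.log_div hly.ne' hlx.ne']; ring
    · rw [intervalIntegrable_iff_integrableOn_Ioc_of_le hxy]
      exact hiL
  have hI2 : ∫ t in Set.Ioc x y, (t * Real.log t ^ 2)⁻¹ = (Real.log x)⁻¹ - (Real.log y)⁻¹ := by
    rw [← intervalIntegral.integral_of_le hxy]
    have : ∀ t ∈ Set.uIcc x y, HasDerivAt (fun t => -(Real.log t)⁻¹)
        ((t * Real.log t ^ 2)⁻¹) t := by
      intro t ht
      rw [Set.uIcc_of_le hxy] at ht
      have := (hderiv t ht).neg
      rw [neg_neg] at this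
      exact this
    rw [intervalIntegral.integral_eq_sub_of_hasDerivAt this]
    · ring
    · rw [intervalIntegrable_iff_integrableOn_Ioc_of_le hxy]
      have := hint.neg.mono_set (Set.Ioc_subset_Icc_self (a := x) (b := y))
      apply this.congr_fun _ measurableSet_Ioc
      intro t _
      simp
  have hdiffI : |∫ t in Set.Ioc x y, -(t * Real.log t ^ 2)⁻¹ * (A t - Real.log t)| ≤
      C1 * ((Real.log x)⁻¹ - (Real.log y)⁻¹) := by
    rw [← hI2, ← MeasureTheory.integral_const_mul]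
    rw [← Real.norm_eq_abs]
    apply MeasureTheory.norm_integral_le_of_norm_le
    · have := hint.neg.mono_set (Set.Ioc_subset_Icc_self (a := x) (b := y))
      have h2 : MeasureTheory.IntegrableOn (fun t => (t * Real.log t ^ 2)⁻¹) (Set.Ioc x y) := by
        apply this.congr_fun _ measurableSet_Ioc
        intro t _
        simp
      exact h2.const_mul C1
    · rw [MeasureTheory.ae_restrict_iff' measurableSet_Ioc]
      apply Filter.Eventually.of_forall
      intro t ht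
      have ht0 : 0 < t := by (clear * - hx ht; linarith [ht.1])
      have hlt : 0 < Real.log t := (Real.log_pos (by (clear * - hx ht; linarith [ht.1])))
      rw [norm_mul, norm_neg, Real.norm_eq_abs, Real.norm_eq_abs,
        abs_of_pos (by (clear * - ht0 hlt; positivity) : 0 < (t * Real.log t ^ 2)⁻¹), mul_comm]
      exact mul_le_mul_of_nonneg_right (hAbound t (by (clear * - hx ht; linarith [ht.1]))) (by positivity)
  have hsplitI : ∫ t in Set.Ioc x y, -(t * Real.log t ^ 2)⁻¹ * (A t - Real.log t) =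
      (∫ t in Set.Ioc x y, -(t * Real.log t ^ 2)⁻¹ * A t) +
        Real.log (Real.log y / Real.log x) := by
    have : ∀ t, -(t * Real.log t ^ 2)⁻¹ * (A t - Real.log t) =
      -(t * Real.log t ^ 2)⁻¹ * A t - -(t * Real.log t ^ 2)⁻¹ * Real.log t := by
      intro t; ring
    simp_rw [this]
    rw [MeasureTheory.integral_sub hiA hiL, hI1]
    ring
  rw [hsplitI] at hdiffI
  have hbx := hAbound x hx
  have hby := hAbound y (by (clear * - hx hxy; linarith))
  have hly' : (Real.log y)⁻¹ ≤ (Real.log x)⁻¹ :=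
    inv_anti₀ hlx (Real.log_le_log hx0 hxy)
  have e1 : |(Real.log y)⁻¹ * A y - 1| ≤ C1 * (Real.log y)⁻¹ := by
    have : (Real.log y)⁻¹ * A y - 1 = (A y - Real.log y) * (Real.log y)⁻¹ := by
      (clear * - hly; field_simp)
    rw [this, abs_mul, abs_of_pos (inv_pos.mpr hly)]
    exact mul_le_mul_of_nonneg_right hby (inv_pos.mpr hly).le
  have e2 : |(Real.log x)⁻¹ * A x - 1| ≤ C1 * (Real.log x)⁻¹ := by
    have : (Real.log x)⁻¹ * A x - 1 = (A x - Real.log x) * (Real.log x)⁻¹ := by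
      (clear * - hlx; field_simp)
    rw [this, abs_mul, abs_of_pos (inv_pos.mpr hlx)]
    exact mul_le_mul_of_nonneg_right hbx (inv_pos.mpr hlx).le
  have habel' : ∑ q ∈ (Finset.Ioc ⌊x⌋₊ ⌊y⌋₊).filter Nat.Prime, (1:ℝ)/q =
    (Real.log y)⁻¹ * A y - (Real.log x)⁻¹ * A x -
      ∫ t in Set.Ioc x y, -(t * Real.log t ^ 2)⁻¹ * A t := habel
  rw [habel']
  have hC1pos : 0 < C1 := by positivity
  have h9 : C1 * (Real.log y)⁻¹ ≤ C1 * (Real.log x)⁻¹ := mul_le_mul_of_nonneg_left hly' hC1pos.le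
  have h10 : 3 * C1 / Real.log x = 3 * (C1 * (Real.log x)⁻¹) := by ring
  rw [h10]
  rw [abs_le] at e1 e2 hdiffI ⊢
  have h11 : 0 < (Real.log y)⁻¹ := inv_pos.mpr hly
  have h12 : 0 < C1 * (Real.log y)⁻¹ := by positivity
  constructor <;> (clear * - hdiffI e1 e2 h12; nlinarith [e1.1, e1.2, e2.1, e2.2, hdiffI.1, hdiffI.2])

end Pool.Agent.M17.Helper44
end

/- Helper53.KN.Helper44.MertensProd -/
section
/-!
# Mertens' product, up to constants
-/

set_option autoImplicit false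

open Finset Real

namespace Pool.Agent.M17.Helper44

theorem one_sub_ge_exp {x : ℝ} (h0 : 0 ≤ x) (h1 : x ≤ 1 / 2) : Real.exp (-(2 * x)) ≤ 1 - x := by
  have h2 : 2 * x + 1 ≤ Real.exp (2 * x) := Real.add_one_le_exp _
  have h3 : 0 < Real.exp (2 * x) := Real.exp_pos _
  rw [Real.exp_neg, inv_le_comm₀ h3 (by linarith)]
  refine le_trans ?_ h2
  rw [inv_le_iff_one_le_mul₀ (by linarith)]
  nlinarith

theorem one_sub_ge_exp' {x : ℝ} (h0 : 0 ≤ x) (h1 : x ≤ 1 / 2) :
    Real.exp (-(x + 2 * x ^ 2)) ≤ 1 - x := by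
  have h2 : (x + 2 * x ^ 2) + 1 ≤ Real.exp (x + 2 * x ^ 2) := Real.add_one_le_exp _
  have h3 : 0 < Real.exp (x + 2 * x ^ 2) := Real.exp_pos _
  rw [Real.exp_neg, inv_le_comm₀ h3 (by linarith)]
  refine le_trans ?_ h2
  rw [inv_le_iff_one_le_mul₀ (by linarith)]
  nlinarith [sq_nonneg x, mul_nonneg h0 h0, mul_nonneg (mul_nonneg h0 h0) (by linarith : 0 ≤ 1 - 2 * x)]

theorem sum_inv_sq_le : ∃ C : ℝ, 0 ≤ C ∧ ∀ s : Finset ℕ, ∑ n ∈ s, ((1 : ℝ) / n) ^ 2 ≤ C := by
  have h : Summable (fun n : ℕ => ((1 : ℝ) / n) ^ 2) := by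
    have := Real.summable_one_div_nat_pow.mpr (by norm_num : 1 < 2)
    refine this.congr ?_
    intro n
    rw [div_pow, one_pow]
  exact ⟨∑' n : ℕ, ((1 : ℝ) / n) ^ 2, tsum_nonneg fun n => by positivity,
    fun s => h.sum_le_tsum s (fun n _ => by positivity)⟩

/-- Primes up to `w`. -/
noncomputable def primesUpTo (w : ℝ) : Finset ℕ := (Finset.Ioc 0 ⌊w⌋₊).filter Nat.Prime

theorem mem_primesUpTo {w : ℝ} (hw : 0 ≤ w) {q : ℕ} : q ∈ primesUpTo w ↔ q.Prime ∧ (q : ℝ) ≤ w := by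
  unfold primesUpTo
  rw [Finset.mem_filter, Finset.mem_Ioc]
  constructor
  · rintro ⟨⟨_, h⟩, hq⟩
    exact ⟨hq, (Nat.le_floor_iff hw).mp h⟩
  · rintro ⟨hq, h⟩
    exact ⟨⟨hq.pos, (Nat.le_floor_iff hw).mpr h⟩, hq⟩

theorem sum_primesUpTo_bounds : ∃ C : ℝ, 0 < C ∧ ∀ w : ℝ, 2 ≤ w →
    |∑ q ∈ primesUpTo w, (1 : ℝ) / q - Real.log (Real.log w)| ≤ C := by
  obtain ⟨C, hC, hM⟩ := mertens_interval
  refine ⟨C / Real.log 2 + 2, by positivity, ?_⟩
  intro w hw
  have h1 := hM 2 w le_rfl hw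
  have hl2 : 0 < Real.log 2 := Real.log_pos (by norm_num)
  have hlw : 0 < Real.log w := Real.log_pos (by linarith)
  have hfl : (2 : ℕ) ≤ ⌊w⌋₊ := by
    rw [Nat.le_floor_iff (by linarith)]; exact_mod_cast hw
  have hsplit : ∑ q ∈ primesUpTo w, (1 : ℝ) / q =
      1 / 2 + ∑ q ∈ (Finset.Ioc ⌊(2:ℝ)⌋₊ ⌊w⌋₊).filter Nat.Prime, (1:ℝ)/q := by
    have : ⌊(2:ℝ)⌋₊ = 2 := by norm_num
    rw [this]
    have hu : primesUpTo w = insert 2 ((Finset.Ioc 2 ⌊w⌋₊).filter Nat.Prime) := by
      ext q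
      unfold primesUpTo
      simp only [Finset.mem_filter, Finset.mem_Ioc, Finset.mem_insert]
      constructor
      · rintro ⟨⟨h0, h⟩, hq⟩
        rcases eq_or_ne q 2 with h2 | h2
        · left; exact h2
        · right; exact ⟨⟨by have := hq.two_le; omega, h⟩, hq⟩
      · rintro (rfl | ⟨⟨h0, h⟩, hq⟩)
        · exact ⟨⟨by norm_num, hfl⟩, Nat.prime_two⟩
        · exact ⟨⟨by omega, h⟩, hq⟩
    rw [hu, Finset.sum_insert]
    · norm_num
    · simp
  rw [hsplit]
  rw [Real.log_div hlw.ne' hl2.ne'] at h1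
  have hll : |Real.log (Real.log 2)| ≤ 1 := by
    rw [abs_le]
    constructor
    · -- log log 2 ≥ -1 : log 2 ≥ exp (-1)
      have h3 : Real.exp (-1) ≤ Real.log 2 := by
        have h4 := Real.exp_neg_one_lt_d9
        have h5 := Real.log_two_gt_d9
        linarith
      calc (-1 : ℝ) = Real.log (Real.exp (-1)) := by rw [Real.log_exp]
        _ ≤ _ := Real.log_le_log (Real.exp_pos _) h3
    · have := Real.log_le_sub_one_of_pos hl2
      have h5 := Real.log_two_lt_d9
      linarith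
  rw [abs_le] at h1 hll ⊢
  constructor <;> linarith [h1.1, h1.2, hll.1, hll.2]

theorem mertens_prod : ∃ c C : ℝ, 0 < c ∧ 0 < C ∧ ∀ w : ℝ, 2 ≤ w →
    c / Real.log w ≤ ∏ q ∈ primesUpTo w, (1 - (1 : ℝ) / q) ∧
    ∏ q ∈ primesUpTo w, (1 - (1 : ℝ) / q) ≤ C / Real.log w := by
  obtain ⟨C, hC, hM⟩ := sum_primesUpTo_bounds
  obtain ⟨C2, hC2, hS⟩ := sum_inv_sq_le
  refine ⟨Real.exp (-(C + 2 * C2)), Real.exp C, Real.exp_pos _, Real.exp_pos _, ?_⟩
  intro w hw
  have hlw : 0 < Real.log w := Real.log_pos (by linarith)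
  have h1 := hM w hw
  rw [abs_le] at h1
  have hq : ∀ q ∈ primesUpTo w, (0 : ℝ) ≤ 1 / q ∧ (1 : ℝ) / q ≤ 1 / 2 := by
    intro q hq
    rw [mem_primesUpTo (by linarith)] at hq
    have : (2 : ℝ) ≤ q := by exact_mod_cast hq.1.two_le
    exact ⟨by positivity, one_div_le_one_div_of_le (by norm_num) this⟩
  constructor
  · calc Real.exp (-(C + 2 * C2)) / Real.log w
        = Real.exp (-(C + 2 * C2) - Real.log (Real.log w)) := by
          rw [Real.exp_sub, Real.exp_log hlw]
      _ ≤ Real.exp (-∑ q ∈ primesUpTo w, ((1 : ℝ) / q + 2 * ((1 : ℝ) / q) ^ 2)) := by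
          apply Real.exp_le_exp.mpr
          rw [Finset.sum_add_distrib, ← Finset.mul_sum]
          have := hS (primesUpTo w)
          linarith [h1.2]
      _ = ∏ q ∈ primesUpTo w, Real.exp (-((1 : ℝ) / q + 2 * ((1 : ℝ) / q) ^ 2)) := by
          rw [← Finset.sum_neg_distrib, Real.exp_sum]
      _ ≤ ∏ q ∈ primesUpTo w, (1 - (1 : ℝ) / q) := by
          apply Finset.prod_le_prod
          · intro q _; exact (Real.exp_pos _).le
          · intro q hq'
            exact one_sub_ge_exp' (hq q hq').1 (hq q hq').2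
  · calc ∏ q ∈ primesUpTo w, (1 - (1 : ℝ) / q)
        ≤ ∏ q ∈ primesUpTo w, Real.exp (-((1 : ℝ) / q)) := by
          apply Finset.prod_le_prod
          · intro q hq'
            linarith [(hq q hq').2]
          · intro q _
            have := Real.add_one_le_exp (-((1 : ℝ) / q))
            linarith
      _ = Real.exp (-∑ q ∈ primesUpTo w, (1 : ℝ) / q) := by
          rw [← Real.exp_sum, Finset.sum_neg_distrib]
      _ ≤ Real.exp (C - Real.log (Real.log w)) := by
          apply Real.exp_le_exp.mpr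
          linarith [h1.1]
      _ = Real.exp C / Real.log w := by rw [Real.exp_sub, Real.exp_log hlw]

end Pool.Agent.M17.Helper44
end

/- Helper53.KN.Helper40.AV.St -/
section
/-!
# Project AV (part of KS, MP_768c9c_nt): rough integers with a large prime factor in short intervals

Statements of the modules.
-/

set_option autoImplicit false

open Filter Topology

namespace Pool.Agent.M17.Helper40.AV

open Pool.Agent.M17.Helper44 (primesUpTo)

/-- the product over the primes `r ≤ z` -/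
noncomputable def VV (z : ℝ) : ℝ := ∏ r ∈ primesUpTo z, (1 - (1 : ℝ) / r)

/-- the primes in `(a, b]` -/
noncomputable def PI (a b : ℝ) : Finset ℕ := (primesUpTo b).filter fun p => a < (p : ℝ)

open Classical in
/-- the integers in `[y, y + l)` all of whose prime factors exceed `z` -/
noncomputable def RS (y l : ℕ) (z : ℝ) : Finset ℕ :=
  (Finset.Ico y (y + l)).filter fun n => ∀ r : ℕ, r.Prime → r ∣ n → z < r

open Classical in
/-- Selberg's sum -/
noncomputable def GG (z Y : ℝ) : ℝ :=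
  ∑ m ∈ (Finset.Icc 1 ⌊Y⌋₊).filter (fun m => Squarefree m ∧
    ∀ r : ℕ, r.Prime → r ∣ m → (r : ℝ) ≤ z), (1 : ℝ) / m.totient

/-- AV1: Mertens' third theorem -/
def Mertens3 : Prop :=
  Tendsto (fun z => VV z * Real.log z) atTop (𝓝 (Real.exp (-Real.eulerMascheroniConstant)))

/-- AV1b -/
def GammaNum : Prop :=
  (0.557 : ℝ) ≤ Real.exp (-Real.eulerMascheroniConstant) ∧
    Real.exp (-Real.eulerMascheroniConstant) ≤ 0.57

open Classical in
/-- AV2: Selberg's sieve for multiples of `p` in an interval (`p = 1` allowed) -/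
def SelbergP : Prop :=
  ∀ (y l p : ℕ) (z Y : ℝ), 1 ≤ p → 1 ≤ Y →
    ((((Finset.Ico y (y + l)).filter fun n => p ∣ n ∧
      ∀ r : ℕ, r.Prime → r ∣ n → z < r).card : ℕ) : ℝ) ≤ (l / p + 1) / GG z Y + Y ^ 2

/-- AV3a: lower bound for Selberg's sum, `1 ≤ u ≤ 2` -/
def GGlow : Prop :=
  ∃ C : ℝ, ∀ z u : ℝ, 2 ≤ z → 1 ≤ u → u ≤ 2 →
    (2 * u - 1 - u * Real.log u) * Real.log z - C ≤ GG z (z ^ u)

/-- AV3a: trivial lower bound for Selberg's sum, `Y ≤ z` -/
def GGtriv : Prop := ∀ z Y : ℝ, 1 ≤ Y → Y ≤ z → Real.log Y ≤ GG z Y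

/-- AV3b: Selberg's sum for large `u` (Rankin) -/
def GGrankin : Prop :=
  ∃ z₀ : ℝ, 2 ≤ z₀ ∧ ∀ z u : ℝ, z₀ ≤ z → 0 ≤ u →
    1 - Real.exp (4.2 - 2 * u) ≤ VV z * GG z (z ^ u)

/-- AV4: sums over primes and integrals -/
def PrimeInt : Prop :=
  ∀ (α β : ℝ) (f : ℝ → ℝ), 0 < α → α ≤ β → ContinuousOn f (Set.Icc α β) →
    Tendsto (fun X : ℝ => ∑ p ∈ PI (X ^ α) (X ^ β), (1 : ℝ) / p * f (Real.log p / Real.log X)) atTop
      (𝓝 (∫ a in α..β, f a / a))

open Classical in
/-- AV5: Buchstab's inequality -/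
def Buchstab : Prop :=
  ∀ (y l : ℕ) (w z : ℝ), 1 ≤ w → w ≤ z →
    ((RS y l w).card : ℝ) ≤ (RS y l z).card + ∑ p ∈ PI w z,
      ((((Finset.Ico y (y + l)).filter fun n => p ∣ n ∧
        ∀ r : ℕ, r.Prime → r ∣ n → (p : ℝ) - 1 / 2 < r).card : ℕ) : ℝ)

/-- AV5: the product telescopes -/
def Telescope : Prop :=
  ∀ w z : ℝ, 1 ≤ w → w ≤ z → VV w - VV z = ∑ p ∈ PI w z, VV ((p : ℝ) - 1 / 2) / p

/-- AV0: fundamental lemma with a quantitative level -/
def RoughQ : Prop :=
  ∀ η : ℝ, 0 < η → ∃ ε K z₀ : ℝ, 0 < ε ∧ 1 ≤ K ∧ ε * K ≤ η ∧ ∀ z : ℝ, z₀ ≤ z → ∀ y l : ℕ,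
    z ^ K ≤ (l : ℝ) → (1 - ε) * l * VV z ≤ (RS y l z).card

/-- the function in the lower bound of Selberg's sum -/
noncomputable def cu (u : ℝ) : ℝ := 2 * u - 1 - u * Real.log u

end Pool.Agent.M17.Helper40.AV
end
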