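import Mathlib

/- Helper53.KN.Helper60.KS.St -/
section
/-! Project KS (MP_768c9c_nt), counting part: statements of the modules (blueprint: KS_H60_counting.md in the
team store; section numbers refer to it). -/

set_option autoImplicit false
open Filter Topology MeasureTheory
open scoped Classical

namespace Pool.Agent.M17.Helper60.KS

/-- multiplicity of a zero of zeta -/
noncomputable def mz (ρ : ℂ) : ℕ := analyticOrderNatAt riemannZeta ρ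

/-- heights spaced by at least 1 -/
def Spaced1 (Z : Finset ℂ) : Prop := ∀ ρ ∈ Z, ∀ ρ' ∈ Z, ρ ≠ ρ' → 1 ≤ |ρ.im - ρ'.im|

def SpacedR (U : Finset ℝ) (δ : ℝ) : Prop := ∀ u ∈ U, ∀ u' ∈ U, u ≠ u' → δ ≤ |u - u'|

def InStrip (Z : Finset ℂ) (b b' T : ℝ) : Prop := ∀ ρ ∈ Z, b ≤ ρ.re ∧ ρ.re ≤ b' ∧ |ρ.im| ≤ T

/-- additive energy of the heights -/
noncomputable def EZ (Z : Finset ℂ) : ℕ :=
  (((Z ×ˢ Z) ×ˢ (Z ×ˢ Z)).filter
    (fun p => |p.1.1.im + p.1.2.im - p.2.1.im - p.2.2.im| ≤ 1)).card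

/-- Dirichlet polynomial on `(Q, hQ]` -/
noncomputable def DP (g : ℕ → ℂ) (Q h : ℕ) (s : ℂ) : ℂ := ∑ n ∈ Finset.Ioc Q (h * Q), g n * (n : ℂ) ^ (-s)

/-! ### classical inputs (shapes of section 2) -/

def A2 : Prop := ∃ C : ℝ, 0 < C ∧ ∀ (N N1 : ℕ) (t κ : ℝ), 1 ≤ N → N < N1 → N1 ≤ 2 * N → 1 ≤ t → 0 ≤ κ →
  κ ≤ 1 → ‖∑ n ∈ Finset.Ioc N N1, (n : ℂ) ^ (-((κ : ℂ) + t * Complex.I))‖ ≤
    C * (N : ℝ) ^ (-κ) * (N / t + Real.sqrt t)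

def A5 : Prop := ∃ C : ℝ, 0 < C ∧ (∀ t : ℝ, 2 ≤ t → ‖riemannZeta (1/2 + t * Complex.I)‖ ≤
    C * t ^ (1/6 : ℝ) * Real.log t) ∧
  ∀ σ t : ℝ, 5/7 ≤ σ → σ ≤ 1 → 2 ≤ t →
    ‖riemannZeta (σ + t * Complex.I)‖ ≤ C * t ^ ((1 - σ) / 4) * Real.log t

def A7 : Prop := ∃ C : ℝ, 0 < C ∧ ∀ t : ℝ, 2 ≤ t → ‖riemannZeta (2/7 + t * Complex.I)‖ ≤
    C * t ^ (2/7 : ℝ) * Real.log t

/-- A9 (i) -/
def A9i : Prop := ∃ C : ℝ, 0 < C ∧ ∀ (t : ℝ) (F : Finset ℂ),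
  (∀ ρ ∈ F, riemannZeta ρ = 0 ∧ 1/2 ≤ ρ.re ∧ |ρ.im - t| ≤ 1) →
  ∑ ρ ∈ F, (mz ρ : ℝ) ≤ C * Real.log (|t| + 2)

/-- Theorem N -/
def ThmN : Prop := ∃ ε0 X0 : ℝ, 0 < ε0 ∧ ε0 ≤ 1/100 ∧ ∀ X : ℝ, X0 ≤ X → ∀ F : Finset ℂ,
  (∀ ρ ∈ F, riemannZeta ρ = 0 ∧ 1 - ε0 ≤ ρ.re ∧ |ρ.im| ≤ X ^ (0.6 : ℝ)) →
  ∑ ρ ∈ F, (mz ρ : ℝ) * X ^ (ρ.re - 1) ≤ 1/16

/-! ### A11, A12 -/

/-- A11: mean value with Gaussian weight -/
def MeanValue : Prop := ∃ C : ℝ, 0 < C ∧ ∀ (ι : Type) (S : Finset ι) (a : ι → ℂ) (y : ι → ℝ) (T : ℝ),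
  1 ≤ T →
  ∫ t : ℝ, Real.exp (-(t / T) ^ 2) * ‖∑ j ∈ S, a j * Complex.exp (Complex.I * ((y j * t : ℝ) : ℂ))‖ ^ 2 ≤
    C * T * ∑ j ∈ S, ∑ k ∈ S, if |y j - y k| ≤ 1 / T then ‖a j‖ * ‖a k‖ else 0

/-- A11' -/
def PairCount : Prop := ∀ (ι : Type) (S : Finset ι) (y : ι → ℝ) (δ : ℝ), 0 < δ →
  ((S ×ˢ S).filter (fun p => |y p.1 - y p.2| ≤ 2 * δ)).card ≤
    5 * ((S ×ˢ S).filter (fun p => |y p.1 - y p.2| ≤ δ)).card

/-- A12 + A11: mean value at well spaced complex points -/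
def DiscMV : Prop := ∃ C : ℝ, 0 < C ∧ ∀ (ι : Type) (S : Finset ι) (a : ι → ℂ) (y : ι → ℝ)
  (T b b' r M : ℝ) (Z : Finset ℂ), 1 ≤ T → 0 < r → r ≤ 1/2 → b ≤ b' → b' ≤ b + 1 →
  InStrip Z b b' T → Spaced1 Z →
  (∀ σ : ℝ, b - r ≤ σ → σ ≤ b' + r →
    ∑ j ∈ S, ∑ k ∈ S, (if |y j - y k| ≤ 1 / T then ‖a j‖ * ‖a k‖ * Real.exp (σ * (y j + y k)) else 0) ≤ M) →
  ∑ ρ ∈ Z, ‖∑ j ∈ S, a j * Complex.exp ((y j : ℂ) * ρ)‖ ^ 2 ≤ C / r ^ 2 * T * M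

/-! ### section 6 -/

/-- (6.1) -/
def MVCount : Prop := ∀ h : ℕ, 1 ≤ h → ∃ C : ℝ, 0 < C ∧ ∀ (Z : Finset ℂ) (g : ℕ → ℂ) (Q : ℕ)
  (B V b b' T r : ℝ), 1 ≤ Q → 1 ≤ T → 0 < r → r ≤ 1/2 → 0 ≤ b → b ≤ b' → b' ≤ b + 1 → b' ≤ 1 → 0 < V → 0 ≤ B →
  (∀ n, ‖g n‖ ≤ B) → InStrip Z b b' T → Spaced1 Z → (∀ ρ ∈ Z, V ≤ ‖DP g Q h ρ‖) →
  (Z.card : ℝ) * V ^ 2 ≤ C * B ^ 2 / r ^ 2 * (T + Q) * (Q : ℝ) ^ (1 - 2 * b + 2 * r)

/-- (6.2), Huxley -/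
def HuxleyCount : Prop := ∀ h : ℕ, 1 ≤ h → ∃ C : ℝ, 0 < C ∧ ∀ (Z : Finset ℂ) (g : ℕ → ℂ) (Q : ℕ)
  (B V b b' T : ℝ), 1 ≤ Q → 1 ≤ T → 0 ≤ b → b ≤ b' → b' ≤ b + 1/2 → b' ≤ 1 → 0 < V → 0 < B →
  (∀ n, ‖g n‖ ≤ B) → InStrip Z b b' T → Spaced1 Z → (∀ ρ ∈ Z, V ≤ ‖DP g Q h ρ‖) →
  (Z.card : ℝ) ≤ C * (B ^ 2 * (Q : ℝ) ^ (2 - 2 * b) / V ^ 2) * Real.log (T + 2) *
    (1 + T * (B ^ 4 * (Q : ℝ) ^ (2 - 4 * b) / V ^ 4))

/-- number of coincidences -/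
noncomputable def ET (U : Finset ℝ) (T : ℝ) (Q Q' : ℕ) : ℕ :=
  (((U ×ˢ Finset.Icc Q Q') ×ˢ (U ×ˢ Finset.Icc Q Q')).filter
    (fun p => |(p.1.1 - Real.log p.1.2) - (p.2.1 - Real.log p.2.2)| ≤ 1 / T)).card

/-- (6.6) -/
def TwoWalk : Prop := ∀ (h : ℕ) (ε : ℝ), 1 ≤ h → 0 < ε → ∃ C : ℝ, 0 < C ∧ ∀ (X T u0 : ℝ) (U : Finset ℝ)
  (Q : ℕ), 2 ≤ X → 1 ≤ T → T ≤ X → 1 ≤ Q → (Q : ℝ) ≤ X ^ 2 →
  (∀ u ∈ U, u0 ≤ u ∧ u ≤ u0 + 1) → SpacedR U (1 / T) →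
  (ET U T Q (h * Q) : ℝ) ≤ C * X ^ ε * (U.card * Q * (1 + ((U.card : ℝ) ^ 3 / T) ^ (1/4 : ℝ)) +
    (U.card : ℝ) ^ 2 * (Q : ℝ) ^ 2 / T)

/-- (6.7) -/
def SLemma : Prop := ∀ (h : ℕ) (ε : ℝ), 1 ≤ h → 0 < ε → ∃ C : ℝ, 0 < C ∧
  ∀ (X T b b' B V c0 v : ℝ) (Z : Finset ℂ) (c : ℂ → ℂ) (g : ℕ → ℂ) (Q : ℕ) (U : Finset ℝ),
  8 ≤ X → 1 ≤ T → T ≤ X → 1 ≤ Q → (Q : ℝ) ≤ X ^ 2 → 0 ≤ b → b ≤ b' → b' ≤ b + 1 → b' ≤ 1 → 0 < V → 0 ≤ B →
  0 ≤ c0 → 0 ≤ v → (∀ n, ‖g n‖ ≤ B) → InStrip Z b b' T → Spaced1 Z → (∀ ρ ∈ Z, V ≤ ‖DP g Q h ρ‖) →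
  (∀ ρ ∈ Z, ‖c ρ‖ ≤ c0) → (∀ u ∈ U, Real.log X ≤ u ∧ u ≤ Real.log X + 1) → SpacedR U (1 / T) →
  (∀ u ∈ U, v ≤ ‖∑ ρ ∈ Z, c ρ * Complex.exp ((ρ - 1) * (u : ℂ))‖) →
  (U.card : ℝ) ^ 2 * v ^ 2 * V ^ 2 ≤ C * X ^ ε * Z.card * c0 ^ 2 * B ^ 2 * T * X ^ (2 * (b' - 1)) *
    (Q : ℝ) ^ (-2 * b) * (U.card * Q * (1 + ((U.card : ℝ) ^ 3 / T) ^ (1/4 : ℝ)) +
      (U.card : ℝ) ^ 2 * (Q : ℝ) ^ 2 / T)

/-- (6.8)(a) -/
def FourthU : Prop := ∃ C : ℝ, 0 < C ∧ ∀ (Z : Finset ℂ) (c : ℂ → ℂ) (B b T u0 : ℝ) (U : Finset ℝ),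
  1 ≤ T → 0 ≤ u0 → b ≤ 1 → 0 ≤ B → (∀ ρ ∈ Z, 0 ≤ ρ.re ∧ ρ.re ≤ b ∧ |ρ.im| ≤ T ∧ ‖c ρ‖ ≤ B) →
  (∀ u ∈ U, u0 ≤ u ∧ u ≤ u0 + 1) → SpacedR U (1 / T) →
  ∑ u ∈ U, ‖∑ ρ ∈ Z, c ρ * Complex.exp ((ρ - 1) * (u : ℂ))‖ ^ 4 ≤
    C * B ^ 4 * T * EZ Z * Real.exp (4 * (b - 1) * u0)

/-- (6.8)(b) -/
def EnergyG : Prop := ∀ h : ℕ, 1 ≤ h → ∃ C : ℝ, 0 < C ∧ ∀ (Z : Finset ℂ) (g : ℕ → ℂ) (Q : ℕ)
  (B V b b' T r : ℝ), 1 ≤ Q → 1 ≤ T → 0 < r → r ≤ 1/2 → 0 ≤ b → b ≤ b' → b' ≤ b + 1 → b' ≤ 1 → 0 < V →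
  0 ≤ B → (∀ n, ‖g n‖ ≤ B) → InStrip Z b b' T → Spaced1 Z → (∀ ρ ∈ Z, V ≤ ‖DP g Q h ρ‖) →
  Real.sqrt (EZ Z) * V ^ 2 ≤ C * B ^ 2 / r ^ 2 * (Q : ℝ) ^ (-2 * b + 2 * r) * (1 + Real.log Q) *
    ((Q : ℝ) ^ 2 * Real.sqrt Z.card + Q * Z.card * Real.sqrt T)

/-! ### section 7 -/

noncomputable def yy (x : ℝ) : ℝ := min ((1/3) / (1 - 2 * x)) ((2/7) / (5/7 - x))

/-- section 7 -/
def Numeric : Prop := ∀ ε0 : ℝ, 0 < ε0 → ε0 ≤ 1/100 → ∀ ε x n r ϱ : ℝ, 0 < ε → ε ≤ ε0 / 10 ^ 5 →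
  ε0 ≤ x → x ≤ 0.4 + ε → 0 < n → n ≤ yy x + ε →
  (∀ k : ℕ, 1 ≤ k → (k : ℝ) ≤ 4 / n → r ≤ max (2 * x * (k * n)) (1 - k * n * (1 - 2 * x)) + ε) →
  (∀ k : ℕ, 1 ≤ k → (k : ℝ) ≤ 4 / n → r ≤ max (2 * x * (k * n)) (1 - k * n * (2 - 6 * x)) + ε) →
  2 * x - ε ≤ r →
  (∀ j : ℕ, 1 ≤ j → (j : ℝ) ≤ 4 / n → r + 2 * x * (j * n) ≤ 4 * x - ε →
    ϱ ≤ max (1 + r - 4 * x - j * n * (1 - 2 * x)) (4 * (1 + r - 4 * x - j * n * (1 - 2 * x)) - 1) + ε) →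
  (∀ j : ℕ, 1 ≤ j → (j : ℝ) ≤ 4 / n →
    ϱ ≤ 1 - 8 * x + max (4 * x * (j * n) + r) (1 + 2 * r - (2 - 4 * x) * (j * n)) + ε) →
  ϱ ≤ 0.431

/-! ### section 5: detection, powers, splitting -/

/-- (5.1). The coefficients are `g n = (∑_{d ∣ n, d ≤ X^δ} μ(d)) * W(n)` with a smooth cut-off `0 ≤ W ≤ 1` at
`Y = X ^ ((1/2+2d) μ0/(1-x-s0) + 40 δ)`, `(s0, μ0) = (1/2, 1/6)` or `(2/7, 2/7)` whichever gives `yy x`;
only what is stated is used. -/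
def Detect : Prop := ∀ δ d : ℝ, 0 < δ → δ ≤ 1/1000 → 0 < d → d ≤ δ → ∃ X0 : ℝ, ∀ X x : ℝ, X0 ≤ X → 0 < x →
  x ≤ 0.4 + δ → ∃ g : ℕ → ℂ, (∀ n, ‖g n‖ ≤ (n.divisors.card : ℝ)) ∧
  ∀ ρ : ℂ, riemannZeta ρ = 0 → 1 - x ≤ ρ.re → Real.log X ^ 2 ≤ |ρ.im| → |ρ.im| ≤ X ^ (1/2 + 2 * d) + 1 →
  ∃ i : ℕ, X ^ δ / 2 ≤ (2 : ℝ) ^ i ∧ (2 : ℝ) ^ i ≤ X ^ (yy x / 2 + 45 * δ) ∧
    1 / (16 * Real.log X) ≤ ‖DP g (2 ^ i) 2 ρ‖

/-- powers of Dirichlet polynomials -/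
def PowDP : Prop := ∀ (k : ℕ) (ε : ℝ), 1 ≤ k → 0 < ε → ∃ C : ℝ, 0 < C ∧ ∀ (g : ℕ → ℂ) (Q : ℕ), 1 ≤ Q →
  (∀ n, ‖g n‖ ≤ (n.divisors.card : ℝ)) → ∃ b : ℕ → ℂ, (∀ n, ‖b n‖ ≤ C * (Q : ℝ) ^ ε) ∧
  ∀ s : ℂ, (DP g Q 2 s) ^ k = DP b (Q ^ k) (2 ^ k) s

/-- greedy colouring -/
def SplitSpaced : Prop := ∀ (Z : Finset ℂ) (M : ℕ), (∀ t : ℝ, (Z.filter (fun ρ => |ρ.im - t| ≤ 1)).card ≤ M) →
  ∃ col : ℂ → ℕ, (∀ ρ ∈ Z, col ρ < M) ∧ ∀ i : ℕ, Spaced1 (Z.filter (fun ρ => col ρ = i))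

/-! ### one class (sections 6 and 7 together) -/

/-! ### cells -/

noncomputable def ec (d : ℝ) (k : ℕ) : ℕ := ⌊(k : ℝ) * (1/2 - d)⌋₊

/-- number of primes in the `j`-th cell of length `2^e` of `[2^k, 2^(k+1))` -/
noncomputable def npr (k e j : ℕ) : ℕ :=
  ((Finset.Ico (2 ^ k + j * 2 ^ e) (2 ^ k + (j + 1) * 2 ^ e)).filter Nat.Prime).card

end Pool.Agent.M17.Helper60.KS
end

/- Helper53.KN.Helper65.KC.MeanValue -/
section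
/-! KC-1 : MeanValue and PairCount (A11, A11'). -/

set_option autoImplicit false
open Filter Topology MeasureTheory
open scoped Classical

namespace Pool.Agent.M17.Helper65.KC

open Pool.Agent.M17.Helper60.KS

/-- The Schur-type partition bound. -/
theorem partition_bound {ι : Type} (S : Finset ι) (a : ι → ℝ) (m : ι → ℤ) (w : ℤ → ℝ) (W : ℝ)
    (hw : ∀ d, 0 ≤ w d) (hsym : ∀ d, w (-d) = w d) (hW : ∀ F : Finset ℤ, ∑ d ∈ F, w d ≤ W) :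
    ∑ j ∈ S, ∑ k ∈ S, a j * a k * w (m j - m k) ≤
      W * ∑ j ∈ S, ∑ k ∈ S, if m j = m k then a j * a k else 0 := by
  set M := S.image m with hM
  set A : ℤ → ℝ := fun p => ∑ j ∈ S with m j = p, a j with hA
  have hfib : ∀ f : ι → ℝ, ∑ j ∈ S, f j = ∑ p ∈ M, ∑ j ∈ S with m j = p, f j := by
    intro f
    exact (Finset.sum_fiberwise_of_maps_to (fun i hi => Finset.mem_image_of_mem m hi) f).symm
  have h1 : ∑ j ∈ S, ∑ k ∈ S, a j * a k * w (m j - m k) =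
      ∑ p ∈ M, ∑ q ∈ M, A p * A q * w (p - q) := by
    rw [hfib]
    refine Finset.sum_congr rfl fun p _ => ?_
    have : ∀ j ∈ S.filter (fun j => m j = p), ∑ k ∈ S, a j * a k * w (m j - m k) =
        ∑ q ∈ M, a j * A q * w (p - q) := by
      intro j hj
      have hjp : m j = p := (Finset.mem_filter.mp hj).2
      rw [hfib]
      refine Finset.sum_congr rfl fun q _ => ?_
      rw [hA]
      simp only
      rw [Finset.mul_sum, Finset.sum_mul]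
      refine Finset.sum_congr rfl fun k hk => ?_
      rw [hjp, (Finset.mem_filter.mp hk).2]
    rw [Finset.sum_congr rfl this, Finset.sum_comm]
    refine Finset.sum_congr rfl fun q _ => ?_
    rw [← Finset.sum_mul, ← Finset.sum_mul]
  have h2 : ∑ j ∈ S, ∑ k ∈ S, (if m j = m k then a j * a k else 0) = ∑ p ∈ M, A p ^ 2 := by
    rw [hfib]
    refine Finset.sum_congr rfl fun p _ => ?_
    have : ∀ j ∈ S.filter (fun j => m j = p), ∑ k ∈ S, (if m j = m k then a j * a k else 0) =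
        a j * A p := by
      intro j hj
      have hjp : m j = p := (Finset.mem_filter.mp hj).2
      rw [hA]
      simp only
      rw [Finset.mul_sum, Finset.sum_filter]
      refine Finset.sum_congr rfl fun k _ => ?_
      rw [hjp]
      by_cases h : m k = p
      · simp [h]
      · rw [if_neg (fun h' => h h'.symm), if_neg h]
    rw [Finset.sum_congr rfl this, ← Finset.sum_mul]
    simp only [hA]
    ring
  rw [h1, h2]
  have h3 : ∀ p ∈ M, ∀ q ∈ M, A p * A q * w (p - q) ≤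
      (A p ^ 2 * w (p - q) + A q ^ 2 * w (q - p)) / 2 := by
    intro p _ q _
    have e : w (q - p) = w (p - q) := by rw [← hsym (p - q)]; congr 1; ring
    rw [e]
    have := hw (p - q)
    (clear * - this; nlinarith [sq_nonneg (A p - A q), mul_nonneg (sq_nonneg (A p - A q)) this])
  calc ∑ p ∈ M, ∑ q ∈ M, A p * A q * w (p - q)
      ≤ ∑ p ∈ M, ∑ q ∈ M, (A p ^ 2 * w (p - q) + A q ^ 2 * w (q - p)) / 2 :=
        Finset.sum_le_sum fun p hp => Finset.sum_le_sum fun q hq => h3 p hp q hq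
    _ = (∑ p ∈ M, ∑ q ∈ M, A p ^ 2 * w (p - q) + ∑ p ∈ M, ∑ q ∈ M, A q ^ 2 * w (q - p)) / 2 := by
        rw [← Finset.sum_add_distrib, Finset.sum_div]
        refine Finset.sum_congr rfl fun p _ => ?_
        rw [← Finset.sum_add_distrib, Finset.sum_div]
    _ = ∑ p ∈ M, ∑ q ∈ M, A p ^ 2 * w (p - q) := by
        rw [Finset.sum_comm (s := M) (t := M) (f := fun p q => A q ^ 2 * w (q - p))]
        ring
    _ ≤ ∑ p ∈ M, A p ^ 2 * W := by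
        refine Finset.sum_le_sum fun p _ => ?_
        rw [← Finset.mul_sum]
        refine mul_le_mul_of_nonneg_left ?_ (sq_nonneg _)
        have : ∑ q ∈ M, w (p - q) = ∑ d ∈ M.image (fun q => p - q), w d := by
          refine (Finset.sum_image (f := w) (g := fun q => p - q) (s := M) ?_).symm
          intro x _ y _ h
          simpa using h
        rw [this]
        exact hW _
    _ = W * ∑ p ∈ M, A p ^ 2 := by rw [← Finset.sum_mul]; ring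

theorem pairCount : PairCount := by
  intro ι S y δ hδ
  have key := partition_bound S (fun _ => (1 : ℝ)) (fun j => ⌊y j / δ⌋)
    (fun d => if |d| ≤ 2 then 1 else 0) 5 (fun d => by split_ifs <;> norm_num)
    (fun d => by simp [abs_neg]) (by
      intro F
      have : ∑ d ∈ F, (if |d| ≤ 2 then (1 : ℝ) else 0) ≤ ∑ d ∈ Finset.Icc (-2 : ℤ) 2, (1 : ℝ) := by
        rw [← Finset.sum_filter]
        refine Finset.sum_le_sum_of_subset_of_nonneg ?_ (fun _ _ _ => by norm_num)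
        intro d hd
        rw [Finset.mem_Icc]
        exact abs_le.mp (Finset.mem_filter.mp hd).2
      refine this.trans ?_
      simp)
  have e1 : (((S ×ˢ S).filter (fun p => |y p.1 - y p.2| ≤ 2 * δ)).card : ℝ) ≤
      ∑ j ∈ S, ∑ k ∈ S, (1 : ℝ) * 1 * (if |⌊y j / δ⌋ - ⌊y k / δ⌋| ≤ 2 then 1 else 0) := by
    rw [Finset.card_filter, Nat.cast_sum, Finset.sum_product]
    refine Finset.sum_le_sum fun j _ => Finset.sum_le_sum fun k _ => ?_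
    simp only
    by_cases h : |y j - y k| ≤ 2 * δ
    · have h2 : |⌊y j / δ⌋ - ⌊y k / δ⌋| ≤ 2 := by
        have h3 := abs_le.mp h
        have h4 : y j / δ ≤ y k / δ + 2 := by
          rw [div_add' _ _ _ hδ.ne', div_le_div_iff_of_pos_right hδ]; (clear * - h3; linarith)
        have h5 : y k / δ ≤ y j / δ + 2 := by
          rw [div_add' _ _ _ hδ.ne', div_le_div_iff_of_pos_right hδ]; (clear * - h3; linarith)
        have h6 : ⌊y j / δ⌋ ≤ ⌊y k / δ⌋ + 2 := by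
          have := Int.floor_le_floor h4
          have e : ⌊y k / δ + 2⌋ = ⌊y k / δ⌋ + 2 := by
            exact Int.floor_add_intCast (y k / δ) 2
          rwa [e] at this
        have h7 : ⌊y k / δ⌋ ≤ ⌊y j / δ⌋ + 2 := by
          have := Int.floor_le_floor h5
          have e : ⌊y j / δ + 2⌋ = ⌊y j / δ⌋ + 2 := by
            exact Int.floor_add_intCast (y j / δ) 2
          rwa [e] at this
        rw [abs_le]
        constructor <;> (clear * - h7 h6; linarith)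
      rw [if_pos h, if_pos h2]; norm_num
    · rw [if_neg h]
      split_ifs <;> norm_num
  have e2 : ∑ j ∈ S, ∑ k ∈ S, (if ⌊y j / δ⌋ = ⌊y k / δ⌋ then (1 : ℝ) * 1 else 0) ≤
      (((S ×ˢ S).filter (fun p => |y p.1 - y p.2| ≤ δ)).card : ℝ) := by
    rw [Finset.card_filter, Nat.cast_sum, Finset.sum_product]
    refine Finset.sum_le_sum fun j _ => Finset.sum_le_sum fun k _ => ?_
    simp only
    by_cases h : ⌊y j / δ⌋ = ⌊y k / δ⌋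
    · have h1 := Int.abs_sub_lt_one_of_floor_eq_floor h
      have h2 : |y j - y k| ≤ δ := by
        rw [← sub_div, abs_div, abs_of_pos hδ, div_lt_one hδ] at h1
        exact h1.le
      rw [if_pos h, if_pos h2]; norm_num
    · rw [if_neg h]
      split_ifs <;> norm_num
  have : (((S ×ˢ S).filter (fun p => |y p.1 - y p.2| ≤ 2 * δ)).card : ℝ) ≤
      5 * (((S ×ˢ S).filter (fun p => |y p.1 - y p.2| ≤ δ)).card : ℝ) := by
    refine e1.trans (key.trans ?_)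
    (clear * - e2; linarith [e2])
  exact_mod_cast this

/-- the kernel used for the mean value theorem -/
theorem kernel_bound (F : Finset ℤ) :
    ∑ d ∈ F, (16 : ℝ) / (1 + (d : ℝ) ^ 2) ≤ ∑' d : ℤ, (16 : ℝ) / (1 + (d : ℝ) ^ 2) := by
  refine Summable.sum_le_tsum F (fun d _ => by (clear * -; positivity)) ?_
  have h : Summable (fun d : ℤ => 16 * (1 / (d : ℝ) ^ 2)) :=
    (Real.summable_one_div_int_pow.mpr (by norm_num)).mul_left 16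
  refine Summable.of_norm_bounded_eventually h ?_
  rw [Filter.eventually_cofinite]
  refine (Set.finite_singleton (0 : ℤ)).subset ?_
  intro d hd
  rw [Set.mem_singleton_iff]
  by_contra hne
  apply hd
  have hd2 : 0 < (d : ℝ) ^ 2 := by (clear * - hne; positivity)
  rw [Real.norm_of_nonneg (by (clear * - hne; positivity))]
  rw [mul_one_div]
  exact div_le_div_of_nonneg_left (by norm_num) hd2 (by (clear * -; linarith))

theorem gauss_integral (T c : ℝ) (hT : 0 < T) :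
    ∫ t : ℝ, Complex.exp (Complex.I * (c : ℂ) * t) * Complex.exp (-(1 / T ^ 2 : ℂ) * (t : ℂ) ^ 2) =
      ((Real.sqrt Real.pi * T * Real.exp (-(T * c) ^ 2 / 4) : ℝ) : ℂ) := by
  have hb : 0 < ((1 / T ^ 2 : ℂ)).re := by
    have : ((1 / T ^ 2 : ℂ)) = ((1 / T ^ 2 : ℝ) : ℂ) := by push_cast; ring
    rw [this, Complex.ofReal_re]; positivity
  rw [fourierIntegral_gaussian hb]
  have h1 : ((Real.pi : ℂ) / (1 / T ^ 2 : ℂ)) = ((Real.pi * T ^ 2 : ℝ) : ℂ) := by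
    push_cast
    (clear * -; field_simp)
  rw [h1]
  have h2 : (((Real.pi * T ^ 2 : ℝ) : ℂ)) ^ (1 / 2 : ℂ) = ((Real.sqrt Real.pi * T : ℝ) : ℂ) := by
    have : (1 / 2 : ℂ) = ((1 / 2 : ℝ) : ℂ) := by push_cast; ring
    rw [this, ← Complex.ofReal_cpow (by positivity), ← Real.sqrt_eq_rpow,
      Real.sqrt_mul Real.pi_pos.le, Real.sqrt_sq hT.le]
  rw [h2]
  have h3 : -(c : ℂ) ^ 2 / (4 * (1 / T ^ 2 : ℂ)) = ((-(T * c) ^ 2 / 4 : ℝ) : ℂ) := by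
    push_cast
    have : (T : ℂ) ≠ 0 := by exact_mod_cast hT.ne'
    field_simp
  rw [h3, ← Complex.ofReal_exp]
  push_cast
  ring

theorem gauss_integrable (T c : ℝ) (hT : 0 < T) :
    Integrable (fun t : ℝ => Complex.exp (Complex.I * (c : ℂ) * t) *
      Complex.exp (-(1 / T ^ 2 : ℂ) * (t : ℂ) ^ 2)) := by
  have hb : 0 < ((1 / T ^ 2 : ℂ)).re := by
    have : ((1 / T ^ 2 : ℂ)) = ((1 / T ^ 2 : ℝ) : ℂ) := by push_cast; ring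
    rw [this, Complex.ofReal_re]; positivity
  have := integrable_cexp_quadratic (b := (1 / T ^ 2 : ℂ)) hb (Complex.I * c) 0
  refine this.congr (Filter.Eventually.of_forall fun t => ?_)
  simp only
  rw [← Complex.exp_add]
  congr 1
  ring

theorem meanValue : MeanValue := by
  refine ⟨Real.sqrt Real.pi * (∑' d : ℤ, (16 : ℝ) / (1 + (d : ℝ) ^ 2) + 1), ?_, ?_⟩
  · have : 0 ≤ ∑' d : ℤ, (16 : ℝ) / (1 + (d : ℝ) ^ 2) := tsum_nonneg fun d => by (clear * -; positivity)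
    have := Real.sqrt_pos.mpr Real.pi_pos
    positivity
  intro ι S a y T hT
  have hT0 : 0 < T := by linarith
  set W := ∑' d : ℤ, (16 : ℝ) / (1 + (d : ℝ) ^ 2) with hWdef
  have hW0 : 0 ≤ W := tsum_nonneg fun d => by (clear * -; positivity)
  -- step 1: the integral as a double sum
  have hpt : ∀ t : ℝ, ((Real.exp (-(t / T) ^ 2) *
      ‖∑ j ∈ S, a j * Complex.exp (Complex.I * ((y j * t : ℝ) : ℂ))‖ ^ 2 : ℝ) : ℂ) =
      ∑ j ∈ S, ∑ k ∈ S, a j * (starRingEnd ℂ) (a k) *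
        (Complex.exp (Complex.I * ((y j - y k : ℝ) : ℂ) * t) *
          Complex.exp (-(1 / T ^ 2 : ℂ) * (t : ℂ) ^ 2)) := by
    intro t
    have h1 : ((‖∑ j ∈ S, a j * Complex.exp (Complex.I * ((y j * t : ℝ) : ℂ))‖ ^ 2 : ℝ) : ℂ) =
        (∑ j ∈ S, a j * Complex.exp (Complex.I * ((y j * t : ℝ) : ℂ))) *
        (starRingEnd ℂ) (∑ j ∈ S, a j * Complex.exp (Complex.I * ((y j * t : ℝ) : ℂ))) := by
      rw [Complex.mul_conj, Complex.normSq_eq_norm_sq]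
    rw [Complex.ofReal_mul, h1, map_sum, Finset.sum_mul_sum, Finset.mul_sum]
    refine Finset.sum_congr rfl fun j _ => ?_
    rw [Finset.mul_sum]
    refine Finset.sum_congr rfl fun k _ => ?_
    rw [map_mul, ← Complex.exp_conj, map_mul, Complex.conj_I, Complex.conj_ofReal]
    have h2 : ((Real.exp (-(t / T) ^ 2) : ℝ) : ℂ) = Complex.exp (-(1 / T ^ 2 : ℂ) * (t : ℂ) ^ 2) := by
      rw [Complex.ofReal_exp]
      congr 1
      push_cast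
      ring
    have h3 : Complex.exp (Complex.I * ((y j - y k : ℝ) : ℂ) * t) =
        Complex.exp (Complex.I * ((y j * t : ℝ) : ℂ)) * Complex.exp (-Complex.I * ((y k * t : ℝ) : ℂ)) := by
      rw [← Complex.exp_add]
      congr 1
      push_cast
      ring
    rw [h2, h3]
    ring
  have hint : ((∫ t : ℝ, Real.exp (-(t / T) ^ 2) *
      ‖∑ j ∈ S, a j * Complex.exp (Complex.I * ((y j * t : ℝ) : ℂ))‖ ^ 2 : ℝ) : ℂ) =
      ∑ j ∈ S, ∑ k ∈ S, a j * (starRingEnd ℂ) (a k) *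
        ((Real.sqrt Real.pi * T * Real.exp (-(T * (y j - y k)) ^ 2 / 4) : ℝ) : ℂ) := by
    rw [← integral_complex_ofReal]
    simp_rw [hpt]
    rw [integral_finset_sum]
    · refine Finset.sum_congr rfl fun j _ => ?_
      rw [integral_finset_sum]
      · refine Finset.sum_congr rfl fun k _ => ?_
        rw [integral_const_mul, gauss_integral T (y j - y k) hT0]
      · intro k _
        exact (gauss_integrable T (y j - y k) hT0).const_mul _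
    · intro j _
      refine integrable_finset_sum _ fun k _ => ?_
      exact (gauss_integrable T (y j - y k) hT0).const_mul _
  have hle : ∫ t : ℝ, Real.exp (-(t / T) ^ 2) *
      ‖∑ j ∈ S, a j * Complex.exp (Complex.I * ((y j * t : ℝ) : ℂ))‖ ^ 2 ≤
      Real.sqrt Real.pi * T * ∑ j ∈ S, ∑ k ∈ S, ‖a j‖ * ‖a k‖ * Real.exp (-(T * (y j - y k)) ^ 2 / 4) := by
    refine (le_abs_self _).trans ?_
    rw [← Real.norm_eq_abs, ← Complex.norm_real, hint]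
    refine (norm_sum_le _ _).trans ?_
    rw [Finset.mul_sum]
    refine Finset.sum_le_sum fun j _ => ?_
    refine (norm_sum_le _ _).trans ?_
    rw [Finset.mul_sum]
    refine Finset.sum_le_sum fun k _ => ?_
    rw [norm_mul, norm_mul, RCLike.norm_conj, Complex.norm_real, Real.norm_of_nonneg (by positivity)]
    apply le_of_eq
    ring
  -- step 2: kernel
  have hker : ∀ j ∈ S, ∀ k ∈ S, Real.exp (-(T * (y j - y k)) ^ 2 / 4) ≤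
      16 / (1 + ((⌊y j * T⌋ - ⌊y k * T⌋ : ℤ) : ℝ) ^ 2) := by
    intro j _ k _
    set p := ⌊y j * T⌋
    set q := ⌊y k * T⌋
    have h1 := Int.floor_le (y j * T)
    have h2 := Int.lt_floor_add_one (y j * T)
    have h3 := Int.floor_le (y k * T)
    have h4 := Int.lt_floor_add_one (y k * T)
    set u := T * (y j - y k) with hu
    have hu1 : ((p - q : ℤ) : ℝ) < u + 1 := by push_cast; rw [hu]; (clear * - h1 h4; nlinarith)
    have hu2 : u - 1 < ((p - q : ℤ) : ℝ) := by push_cast; rw [hu]; (clear * - h2 h3; nlinarith)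
    set d : ℝ := ((p - q : ℤ) : ℝ) with hd
    have hexp : Real.exp (-u ^ 2 / 4) ≤ 1 / (1 + u ^ 2 / 4) := by
      rw [show -u ^ 2 / 4 = -(u ^ 2 / 4) by ring, Real.exp_neg, ← one_div]
      refine one_div_le_one_div_of_le (by (clear * -; positivity)) ?_
      (clear * -; linarith [Real.add_one_le_exp (u ^ 2 / 4)])
    refine hexp.trans ?_
    rw [div_le_div_iff₀ (by (clear * -; positivity)) (by positivity)]
    -- 1 + d² ≤ 16 (1 + u²/4) = 16 + 4 u²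
    have : d ^ 2 ≤ 2 * u ^ 2 + 2 := by
      have hx : |d - u| ≤ 1 := by rw [abs_le]; constructor <;> (clear * - hu2 hu1; linarith)
      have hx2 := abs_le.mp hx
      (clear * - hu1 hu2; nlinarith [sq_nonneg (d - 2 * u), sq_nonneg (d - u)])
    (clear * - this; nlinarith)
  have key := partition_bound S (fun j => ‖a j‖) (fun j => ⌊y j * T⌋)
    (fun d => 16 / (1 + (d : ℝ) ^ 2)) W (fun d => by positivity) (fun d => by push_cast; ring_nf)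
    (fun F => kernel_bound F)
  have hstep : ∑ j ∈ S, ∑ k ∈ S, ‖a j‖ * ‖a k‖ * Real.exp (-(T * (y j - y k)) ^ 2 / 4) ≤
      W * ∑ j ∈ S, ∑ k ∈ S, if |y j - y k| ≤ 1 / T then ‖a j‖ * ‖a k‖ else 0 := by
    calc ∑ j ∈ S, ∑ k ∈ S, ‖a j‖ * ‖a k‖ * Real.exp (-(T * (y j - y k)) ^ 2 / 4)
        ≤ ∑ j ∈ S, ∑ k ∈ S, ‖a j‖ * ‖a k‖ * (16 / (1 + ((⌊y j * T⌋ - ⌊y k * T⌋ : ℤ) : ℝ) ^ 2)) :=
          Finset.sum_le_sum fun j hj => Finset.sum_le_sum fun k hk =>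
            mul_le_mul_of_nonneg_left (hker j hj k hk) (by positivity)
      _ ≤ W * ∑ j ∈ S, ∑ k ∈ S, (if ⌊y j * T⌋ = ⌊y k * T⌋ then ‖a j‖ * ‖a k‖ else 0) := key
      _ ≤ W * ∑ j ∈ S, ∑ k ∈ S, if |y j - y k| ≤ 1 / T then ‖a j‖ * ‖a k‖ else 0 := by
          refine mul_le_mul_of_nonneg_left ?_ hW0
          refine Finset.sum_le_sum fun j _ => Finset.sum_le_sum fun k _ => ?_
          by_cases h : ⌊y j * T⌋ = ⌊y k * T⌋
          · have h1 := Int.abs_sub_lt_one_of_floor_eq_floor h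
            have h2 : |y j - y k| ≤ 1 / T := by
              rw [← sub_mul, abs_mul, abs_of_pos hT0] at h1
              rw [le_div_iff₀ hT0]
              exact h1.le
            rw [if_pos h, if_pos h2]
          · rw [if_neg h]
            split_ifs
            · positivity
            · exact le_refl 0
  have hD0 : 0 ≤ ∑ j ∈ S, ∑ k ∈ S, if |y j - y k| ≤ 1 / T then ‖a j‖ * ‖a k‖ else 0 := by
    refine Finset.sum_nonneg fun j _ => Finset.sum_nonneg fun k _ => ?_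
    split_ifs
    · positivity
    · exact le_refl 0
  refine hle.trans ?_
  have hpi := Real.sqrt_nonneg Real.pi
  calc Real.sqrt Real.pi * T * ∑ j ∈ S, ∑ k ∈ S, ‖a j‖ * ‖a k‖ * Real.exp (-(T * (y j - y k)) ^ 2 / 4)
      ≤ Real.sqrt Real.pi * T * (W * ∑ j ∈ S, ∑ k ∈ S, if |y j - y k| ≤ 1 / T then ‖a j‖ * ‖a k‖ else 0) :=
        mul_le_mul_of_nonneg_left hstep (by positivity)
    _ ≤ Real.sqrt Real.pi * T * ((W + 1) * ∑ j ∈ S, ∑ k ∈ S, if |y j - y k| ≤ 1 / T then ‖a j‖ * ‖a k‖ else 0) := by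
        refine mul_le_mul_of_nonneg_left ?_ (by positivity)
        (clear * - hD0; nlinarith)
    _ = _ := by ring

end Pool.Agent.M17.Helper65.KC
end

/- Helper53.KN.Helper60.KS.StG -/
section
/-! Project KS: general cell length `2^e`, `e = ⌊k (1/2 + w - d)⌋`; height exponent `τ = 1/2 - w`, `κ = 1/τ`. -/

set_option autoImplicit false
open Filter Topology MeasureTheory
open scoped Classical

namespace Pool.Agent.M17.Helper60.KS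

/-- detection with height exponent `τ` -/
def DetectG : Prop := ∀ τ δ d : ℝ, 1/4 ≤ τ → τ ≤ 1/2 → 0 < δ → δ ≤ 1/1000 → 0 < d → d ≤ δ →
  ∃ X0 : ℝ, ∀ X x : ℝ, X0 ≤ X → 0 < x →
  x ≤ 0.4 + δ → ∃ g : ℕ → ℂ, (∀ n, ‖g n‖ ≤ (n.divisors.card : ℝ)) ∧
  ∀ ρ : ℂ, riemannZeta ρ = 0 → 1 - x ≤ ρ.re → Real.log X ^ 2 ≤ |ρ.im| → |ρ.im| ≤ X ^ (τ + 2 * d) + 1 →
  ∃ i : ℕ, X ^ δ / 2 ≤ (2 : ℝ) ^ i ∧ (2 : ℝ) ^ i ≤ X ^ (yy x * τ + 45 * δ) ∧
    1 / (16 * Real.log X) ≤ ‖DP g (2 ^ i) 2 ρ‖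

/-- section 7 with `X = T^κ` -/
def NumericG (κ ρ0 : ℝ) : Prop := ∀ ε0 : ℝ, 0 < ε0 → ε0 ≤ 1/100 → ∀ ε x n r ϱ : ℝ, 0 < ε → ε ≤ ε0 / 10 ^ 5 →
  ε0 ≤ x → x ≤ 0.4 + ε → 0 < n → n ≤ yy x + ε →
  (∀ k : ℕ, 1 ≤ k → (k : ℝ) ≤ 4 / n → r ≤ max (2 * x * (k * n)) (1 - k * n * (1 - 2 * x)) + ε) →
  (∀ k : ℕ, 1 ≤ k → (k : ℝ) ≤ 4 / n → r ≤ max (2 * x * (k * n)) (1 - k * n * (2 - 6 * x)) + ε) →
  κ * x - ε ≤ r →
  (∀ j : ℕ, 1 ≤ j → (j : ℝ) ≤ 4 / n → r + 2 * x * (j * n) ≤ 2 * κ * x - ε →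
    ϱ ≤ max (1 + r - 2 * κ * x - j * n * (1 - 2 * x)) (4 * (1 + r - 2 * κ * x - j * n * (1 - 2 * x)) - 1) + ε) →
  (∀ j : ℕ, 1 ≤ j → (j : ℝ) ≤ 4 / n →
    ϱ ≤ 1 - 4 * κ * x + max (4 * x * (j * n) + r) (1 + 2 * r - (2 - 4 * x) * (j * n)) + ε) →
  ϱ ≤ ρ0

/-- one class, height exponent `τ`; `δ = ε0 / 10^8` -/
def ClassBoundG (τ ρ0 : ℝ) : Prop := ∀ ε0 δ d : ℝ, 0 < ε0 → ε0 ≤ 1/100 → δ = ε0 / 10 ^ 8 → 0 < d → d ≤ δ → ∃ X0 : ℝ,
  ∀ (X x : ℝ) (Z : Finset ℂ) (c : ℂ → ℂ) (g : ℕ → ℂ) (N : ℕ) (U : Finset ℝ), X0 ≤ X → ε0 ≤ x → x ≤ 0.4 + δ →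
  InStrip Z (1 - x) (1 - x + δ) (X ^ (τ + 2 * d) + 1) → Spaced1 Z →
  (∀ n, ‖g n‖ ≤ (n.divisors.card : ℝ)) →
  X ^ δ / 2 ≤ N → (N : ℝ) ≤ X ^ (yy x * τ + 45 * δ) → (∀ ρ ∈ Z, 1 / (16 * Real.log X) ≤ ‖DP g N 2 ρ‖) →
  (∀ ρ ∈ Z, ‖c ρ‖ ≤ Real.log X ^ 2) → (∀ u ∈ U, Real.log X ≤ u ∧ u ≤ Real.log X + 1) →
  SpacedR U (1 / X ^ (τ + 2 * d)) →
  (∀ u ∈ U, 1 / Real.log X ^ 4 ≤ ‖∑ ρ ∈ Z, c ρ * Complex.exp ((ρ - 1) * (u : ℂ))‖) →
  (U.card : ℝ) ≤ X ^ (τ * ρ0)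

/-- exponent of the cell length -/
noncomputable def ecw (w d : ℝ) (k : ℕ) : ℕ := ⌊(k : ℝ) * (1/2 + w - d)⌋₊

/-- explicit formula for cells of length `2^(ecw w d k)` (section 4) -/
def BadZeroG (w : ℝ) : Prop := ∀ d : ℝ, 0 < d → d ≤ 1/100 → ∃ c0 : ℝ, 0 < c0 ∧ ∃ K : ℕ, ∀ k : ℕ, K ≤ k →
  ∃ (F : Finset ℂ) (c : ℂ → ℂ) (u : ℕ → ℝ) (Exc : Finset ℕ),
  (∀ ρ ∈ F, riemannZeta ρ = 0 ∧ 0.6 < ρ.re ∧ |ρ.im| ≤ ((2 : ℝ) ^ k) ^ (1/2 - w + 2 * d) + 1) ∧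
  (∀ ρ ∈ F, ‖c ρ‖ ≤ 2) ∧
  (∀ j < 2 ^ (k - ecw w d k), Real.log (2 ^ k) ≤ u j ∧ u j ≤ Real.log (2 ^ k) + 1) ∧
  (∀ j < 2 ^ (k - ecw w d k), ∀ j' < 2 ^ (k - ecw w d k), j ≠ j' →
    1 / ((2 : ℝ) ^ k) ^ (1/2 - w + 2 * d) ≤ |u j - u j'|) ∧
  (Exc.card : ℝ) ≤ ((2 : ℝ) ^ k) ^ (0.21 - 2 * w + 5 * d) ∧
  ∀ j < 2 ^ (k - ecw w d k), j ∉ Exc → (npr k (ecw w d k) j : ℝ) < c0 * 2 ^ ecw w d k / k →
    1/2 ≤ ‖∑ ρ ∈ F, (mz ρ : ℂ) * c ρ * Complex.exp ((ρ - 1) * (u j : ℂ))‖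

/-- at most `2^(U k)` cells of length `2^⌊k(1/2+w-d)⌋` of `[2^k, 2^(k+1))` contain fewer than `c0 2^e / k` primes -/
def CountW (w U : ℝ) : Prop := ∃ d0 : ℝ, 0 < d0 ∧ ∀ d : ℝ, 0 < d → d ≤ d0 → ∃ c0 : ℝ, 0 < c0 ∧ ∃ K : ℕ, ∀ k : ℕ,
  K ≤ k → (((Finset.range (2 ^ (k - ecw w d k))).filter (fun j =>
    (npr k (ecw w d k) j : ℝ) < c0 * 2 ^ ecw w d k / k)).card : ℝ) ≤ (2 : ℝ) ^ (U * (k : ℝ))

end Pool.Agent.M17.Helper60.KS
end

/- Helper53.KN.Helper60.KC.Main -/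
section
/-! KC-18: assembly of Theorem C. -/

set_option autoImplicit false
set_option maxHeartbeats 4000000
open Filter Topology
open scoped Classical

namespace Pool.Agent.M17.Helper60.KC
open Pool.Agent.M17.Helper60.KS

lemma zero_re_lt {ρ : ℂ} (h : riemannZeta ρ = 0) : ρ.re < 1 := by
  by_contra hcon
  exact riemannZeta_ne_zero_of_one_le_re (not_lt.mp hcon) h

lemma term_le {X u : ℝ} {ρ c : ℂ} (hX : 1 < X) (hz : riemannZeta ρ = 0) (hc : ‖c‖ ≤ 2) (hu : Real.log X ≤ u) :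
    ‖(mz ρ : ℂ) * c * Complex.exp ((ρ - 1) * (u : ℂ))‖ ≤ 2 * ((mz ρ : ℝ) * X ^ (ρ.re - 1)) := by
  have h1 := zero_re_lt hz
  have hl : 0 < Real.log X := Real.log_pos hX
  rw [norm_mul, norm_mul, Complex.norm_exp, Complex.norm_natCast]
  have e : ((ρ - 1) * (u:ℂ)).re = (ρ.re - 1) * u := by
    simp [Complex.mul_re]
  have e2 : Real.exp ((ρ - 1) * (u:ℂ)).re ≤ X ^ (ρ.re - 1) := by
    rw [e, Real.rpow_def_of_pos (by linarith)]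
    apply Real.exp_le_exp.mpr
    nlinarith
  calc (mz ρ : ℝ) * ‖c‖ * Real.exp ((ρ - 1) * (u:ℂ)).re ≤ (mz ρ : ℝ) * 2 * X ^ (ρ.re - 1) := by
        apply mul_le_mul _ e2 (Real.exp_pos _).le (by positivity)
        exact mul_le_mul_of_nonneg_left hc (by positivity)
    _ = _ := by ring

lemma low_zeros {C : ℝ} (hC : 0 < C)
    (hA : ∀ (t : ℝ) (F : Finset ℂ), (∀ ρ ∈ F, riemannZeta ρ = 0 ∧ 1/2 ≤ ρ.re ∧ |ρ.im - t| ≤ 1) →
      ∑ ρ ∈ F, (mz ρ : ℝ) ≤ C * Real.log (|t| + 2)) (M : ℕ) (F : Finset ℂ)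
    (hF : ∀ ρ ∈ F, riemannZeta ρ = 0 ∧ 1/2 ≤ ρ.re ∧ |ρ.im| ≤ M) :
    ∑ ρ ∈ F, (mz ρ : ℝ) ≤ (2 * M + 1) * (C * Real.log (M + 2)) := by
  have hmap : ∀ ρ ∈ F, round ρ.im ∈ Finset.Icc (-(M:ℤ)) M := by
    intro ρ hρ
    obtain ⟨-, -, h⟩ := hF ρ hρ
    rw [abs_le] at h
    have h1 := abs_le.mp (abs_sub_round ρ.im)
    rw [Finset.mem_Icc]
    constructor
    · have : (-(M:ℤ) - 1 : ℝ) < (round ρ.im : ℝ) := by push_cast; linarith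
      have h2 : (-(M:ℤ) - 1 : ℤ) < round ρ.im := by exact_mod_cast this
      omega
    · have : (round ρ.im : ℝ) < ((M:ℤ) + 1 : ℝ) := by push_cast; linarith
      have h2 : round ρ.im < ((M:ℤ) + 1 : ℤ) := by exact_mod_cast this
      omega
  rw [← Finset.sum_fiberwise_of_maps_to hmap]
  have hb : ∀ m ∈ Finset.Icc (-(M:ℤ)) M, ∑ ρ ∈ F with round ρ.im = m, (mz ρ : ℝ) ≤ C * Real.log (M + 2) := by
    intro m hm
    have h1 := hA m (F.filter (fun ρ => round ρ.im = m)) (by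
      intro ρ hρ
      rw [Finset.mem_filter] at hρ
      obtain ⟨h2, h3, -⟩ := hF ρ hρ.1
      refine ⟨h2, h3, ?_⟩
      rw [← hρ.2]
      exact le_trans (abs_sub_round _) (by norm_num))
    refine le_trans h1 ?_
    apply mul_le_mul_of_nonneg_left _ hC.le
    apply Real.log_le_log (by positivity)
    have : |(m:ℝ)| ≤ M := by
      rw [Finset.mem_Icc] at hm
      rw [abs_le]
      constructor
      · have := hm.1; exact_mod_cast this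
      · exact_mod_cast hm.2
    linarith
  refine le_trans (Finset.sum_le_sum hb) ?_
  rw [Finset.sum_const, nsmul_eq_mul, Int.card_Icc]
  apply le_of_eq
  congr 1
  have : (M:ℤ) + 1 - -(M:ℤ) = 2 * M + 1 := by ring
  rw [this]
  have h2 : ((2 * (M:ℤ) + 1).toNat : ℤ) = 2 * M + 1 := Int.toNat_of_nonneg (by omega)
  exact_mod_cast h2

end Pool.Agent.M17.Helper60.KC
end

/- Helper53.KN.Helper91.KC.DivBound -/
section
/-!
# The divisor bound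
-/

set_option autoImplicit false

open Finset

namespace Pool.Agent.M17.Helper91.KC

theorem card_divisors_bound (ε : ℝ) (hε : 0 < ε) : ∃ C : ℝ, 1 ≤ C ∧ ∀ n : ℕ, 0 < n →
    (n.divisors.card : ℝ) ≤ C * (n : ℝ) ^ ε := by
  obtain ⟨N0, hN0⟩ := exists_nat_ge ((2 : ℝ) ^ (1 / ε))
  have hl2 : 0 < Real.log 2 := Real.log_pos (by norm_num)
  have hel : 0 < ε * Real.log 2 := mul_pos hε hl2
  obtain ⟨K, hK⟩ : ∃ K : ℝ, K = max 1 (1 / (ε * Real.log 2)) := ⟨_, rfl⟩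
  have hK1 : 1 ≤ K := by rw [hK]; exact le_max_left _ _
  have hK2 : 1 ≤ K * (ε * Real.log 2) := by
    have : 1 / (ε * Real.log 2) ≤ K := by rw [hK]; exact le_max_right _ _
    rwa [div_le_iff₀ hel] at this
  refine ⟨K ^ (N0 + 1), one_le_pow₀ hK1, ?_⟩
  intro n hn
  have key : ∀ p ∈ n.primeFactors, ((n.factorization p + 1 : ℕ) : ℝ) ≤
      (if p ≤ N0 then K else 1) * ((p : ℝ) ^ (n.factorization p)) ^ ε := by
    intro p hp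
    have hp2 : (2 : ℝ) ≤ p := by exact_mod_cast (Nat.prime_of_mem_primeFactors hp).two_le
    set a := n.factorization p with ha
    split_ifs with h
    · have h1 : (1 : ℝ) + a * (ε * Real.log 2) ≤ ((p : ℝ) ^ a) ^ ε := by
        calc (1 : ℝ) + a * (ε * Real.log 2) ≤ Real.exp (a * (ε * Real.log 2)) := by
              have := Real.add_one_le_exp (a * (ε * Real.log 2))
              linarith
          _ = ((2 : ℝ) ^ a) ^ ε := by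
              rw [Real.rpow_def_of_pos (by positivity), Real.log_pow]
              congr 1
              ring
          _ ≤ _ := Real.rpow_le_rpow (by positivity) (pow_le_pow_left₀ (by norm_num) hp2 a) hε.le
      have h2 := mul_le_mul_of_nonneg_left h1 (by linarith : (0 : ℝ) ≤ K)
      push_cast
      have h3 : (a : ℝ) * 1 ≤ a * (K * (ε * Real.log 2)) :=
        mul_le_mul_of_nonneg_left hK2 (Nat.cast_nonneg _)
      nlinarith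
    · push Not at h
      have h1 : (2 : ℝ) ≤ (p : ℝ) ^ ε := by
        have h2 : (2 : ℝ) ^ (1 / ε) ≤ p := hN0.trans (by exact_mod_cast h.le)
        have h3 := Real.rpow_le_rpow (by positivity) h2 hε.le
        rwa [← Real.rpow_mul (by norm_num), one_div_mul_cancel hε.ne', Real.rpow_one] at h3
      rw [one_mul, ← Real.rpow_natCast, ← Real.rpow_mul (by positivity), mul_comm,
        Real.rpow_mul (by positivity), Real.rpow_natCast]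
      calc ((a + 1 : ℕ) : ℝ) ≤ (2 : ℝ) ^ a := by exact_mod_cast Nat.succ_le_of_lt (Nat.lt_two_pow_self)
        _ ≤ _ := pow_le_pow_left₀ (by norm_num) h1 a
  calc (n.divisors.card : ℝ) = ∏ p ∈ n.primeFactors, ((n.factorization p + 1 : ℕ) : ℝ) := by
        rw [Nat.card_divisors hn.ne']
        push_cast
        rfl
    _ ≤ ∏ p ∈ n.primeFactors, ((if p ≤ N0 then K else 1) * ((p : ℝ) ^ (n.factorization p)) ^ ε) :=
        Finset.prod_le_prod (fun _ _ => Nat.cast_nonneg _) key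
    _ = (∏ p ∈ n.primeFactors, (if p ≤ N0 then K else 1)) *
        (∏ p ∈ n.primeFactors, ((p : ℝ) ^ (n.factorization p)) ^ ε) := Finset.prod_mul_distrib
    _ = (∏ p ∈ n.primeFactors, (if p ≤ N0 then K else 1)) * (n : ℝ) ^ ε := by
        rw [Real.finsetProd_rpow _ _ (fun i _ => by positivity)]
        congr 2
        have := Nat.prod_factorization_pow_eq_self hn.ne'
        rw [Finsupp.prod, Nat.support_factorization] at this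
        exact_mod_cast this
    _ ≤ K ^ (N0 + 1) * (n : ℝ) ^ ε := by
        apply mul_le_mul_of_nonneg_right _ (by positivity)
        rw [Finset.prod_ite, Finset.prod_const, Finset.prod_const_one, mul_one]
        apply pow_le_pow_right₀ hK1
        calc _ ≤ (range (N0 + 1)).card := by
              apply Finset.card_le_card
              intro p hp
              rw [Finset.mem_filter] at hp
              rw [Finset.mem_range]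
              omega
          _ = N0 + 1 := Finset.card_range _

end Pool.Agent.M17.Helper91.KC
end
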