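import Mathlib
import Pool.Agent.Helper53.KM.G02
import Pool.Agent.Helper53.KM.G03
import Pool.Agent.Helper53.KM.G06

/- Helper53.KN.Helper89.SLE.Div -/
section
/-!
# Divisor bound and pairs with given product
-/

set_option autoImplicit false

namespace Pool.Agent.M17.Helper89.SLE

open Finset

/-- `τ(n) ≤ C n^ε`. -/
theorem divisor_bound (ε : ℝ) (hε : 0 < ε) :
    ∃ C : ℝ, 1 ≤ C ∧ ∀ n : ℕ, 0 < n → ((n.divisors.card : ℕ) : ℝ) ≤ C * (n : ℝ) ^ ε := by
  classical
  -- `(v + 1) ≤ K * 2 ^ (ε v)`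
  obtain ⟨K, hK1, hK⟩ : ∃ K : ℝ, 1 ≤ K ∧ ∀ v : ℕ, ((v : ℝ) + 1) ≤ K * ((2 : ℝ) ^ ε) ^ v := by
    have h2 : 1 < (2 : ℝ) ^ ε := Real.one_lt_rpow (by norm_num) hε
    set δ := (2 : ℝ) ^ ε - 1 with hδ
    have hδ0 : 0 < δ := by linarith
    refine ⟨max 1 (1 / δ), le_max_left _ _, fun v => ?_⟩
    have h3 : 1 + (v : ℝ) * δ ≤ ((2 : ℝ) ^ ε) ^ v := by
      have := one_add_mul_le_pow (a := δ) (by linarith) v
      have h4 : 1 + δ = (2 : ℝ) ^ ε := by rw [hδ]; ring
      rw [h4] at this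
      exact this
    have hm : 0 < max 1 (1 / δ) := lt_of_lt_of_le one_pos (le_max_left _ _)
    have h5 : max 1 (1 / δ) * (1 + v * δ) ≤ max 1 (1 / δ) * ((2 : ℝ) ^ ε) ^ v :=
      mul_le_mul_of_nonneg_left h3 hm.le
    refine le_trans ?_ h5
    have h6 : (1 : ℝ) ≤ max 1 (1 / δ) * 1 := by rw [mul_one]; exact le_max_left _ _
    have h7 : (v : ℝ) ≤ max 1 (1 / δ) * (v * δ) := by
      have : (1 / δ) * (v * δ) ≤ max 1 (1 / δ) * (v * δ) :=
        mul_le_mul_of_nonneg_right (le_max_right _ _) (by positivity)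
      have h8 : (1 / δ) * (v * δ) = v := by field_simp
      linarith
    linarith
  obtain ⟨P, hP⟩ : ∃ P : ℕ, ∀ p : ℕ, P ≤ p → (2 : ℝ) ≤ (p : ℝ) ^ ε := by
    have := (tendsto_rpow_atTop hε).comp tendsto_natCast_atTop_atTop
    obtain ⟨P, hP⟩ := Filter.eventually_atTop.mp (this.eventually_ge_atTop 2)
    exact ⟨P, fun p hp => hP p hp⟩
  refine ⟨K ^ P, one_le_pow₀ hK1, fun n hn => ?_⟩
  rw [Nat.card_divisors hn.ne']
  push_cast
  have h1 : (n : ℝ) ^ ε = ∏ p ∈ n.primeFactors, ((p : ℝ) ^ ε) ^ (n.factorization p) := by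
    conv_lhs => rw [← Nat.prod_factorization_pow_eq_self hn.ne']
    rw [Finsupp.prod, Nat.support_factorization]
    push_cast
    rw [← Real.finset_prod_rpow _ _ (fun i _ => by positivity)]
    refine Finset.prod_congr rfl fun p hp => ?_
    rw [← Real.rpow_natCast, ← Real.rpow_natCast, ← Real.rpow_mul (by positivity),
      ← Real.rpow_mul (by positivity), mul_comm]
  rw [h1]
  have h2 : ∏ p ∈ n.primeFactors, ((n.factorization p : ℝ) + 1) ≤
      ∏ p ∈ n.primeFactors, ((if p < P then K else 1) * ((p : ℝ) ^ ε) ^ (n.factorization p)) := by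
    refine Finset.prod_le_prod (fun p _ => by positivity) fun p hp => ?_
    have hpp : p.Prime := Nat.prime_of_mem_primeFactors hp
    split_ifs with h
    · refine (hK _).trans ?_
      refine mul_le_mul_of_nonneg_left ?_ (by linarith)
      refine pow_le_pow_left₀ (by positivity) ?_ _
      exact Real.rpow_le_rpow (by norm_num) (by exact_mod_cast hpp.two_le) hε.le
    · rw [one_mul]
      have h3 : (2 : ℝ) ≤ (p : ℝ) ^ ε := hP p (by omega)
      have h4 : (2 : ℝ) ^ (n.factorization p) ≤ ((p : ℝ) ^ ε) ^ (n.factorization p) :=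
        pow_le_pow_left₀ (by norm_num) h3 _
      refine le_trans ?_ h4
      have := Nat.lt_two_pow_self (n := n.factorization p)
      exact_mod_cast this
  refine h2.trans ?_
  rw [Finset.prod_mul_distrib]
  refine mul_le_mul_of_nonneg_right ?_ (Finset.prod_nonneg fun p _ => by positivity)
  rw [Finset.prod_ite, Finset.prod_const_one, mul_one, Finset.prod_const]
  refine pow_le_pow_right₀ hK1 ?_
  calc (filter (fun p => p < P) n.primeFactors).card ≤ (Finset.range P).card :=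
        Finset.card_le_card (fun p hp => Finset.mem_range.mpr (Finset.mem_filter.mp hp).2)
    _ = P := Finset.card_range P

end Pool.Agent.M17.Helper89.SLE
end

/- Helper53.KN.Helper67.KSZ.E4 -/
section
/-! KSZ-E4 (MP_768c9c_nt): sums over the zeros in a box. -/

set_option autoImplicit false
open Filter Topology MeasureTheory Complex
open scoped Classical

namespace Pool.Agent.M17.Helper67.KSZ.E4

open Pool.Agent.M17.Helper10.QRH Pool.Agent.M17.Helper69.QRH Pool.Agent.M17.Helper46.KSZ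

theorem Qp_add (A B : Multiset ℂ) (z : ℂ) : Qp (A + B) z = Qp A z * Qp B z := by
  simp [Qp, Multiset.map_add, Multiset.prod_add]

/-- the index of a point: `ρ.im ≈ m / 4` -/
noncomputable def rr (ρ : ℂ) : ℤ := round (4 * ρ.im)

theorem rr_spec (ρ : ℂ) : |ρ.im - (rr ρ : ℝ) / 4| ≤ 1 / 8 := by
  have h := abs_sub_round (4 * ρ.im)
  have e : ρ.im - (rr ρ : ℝ) / 4 = (4 * ρ.im - (round (4 * ρ.im) : ℝ)) / 4 := by
    unfold rr; ring
  rw [e, abs_div, abs_of_pos (show (0 : ℝ) < 4 by norm_num)]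
  (clear * - h; linarith)

theorem sum_fibers {ι : Type*} (I : Finset ℤ) (r : ι → ℤ) (g : ι → ℝ) (N : Multiset ι)
    (h : ∀ ρ ∈ N, r ρ ∈ I) :
    (N.map g).sum = ∑ m ∈ I, ((N.filter (fun ρ => r ρ = m)).map g).sum := by
  induction N using Multiset.induction_on with
  | empty => simp
  | cons a N ih =>
    rw [Multiset.map_cons, Multiset.sum_cons, ih (fun ρ hρ => h ρ (Multiset.mem_cons_of_mem hρ))]
    have e : ∀ m ∈ I, (((a ::ₘ N).filter (fun ρ => r ρ = m)).map g).sum =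
        (if r a = m then g a else 0) + ((N.filter (fun ρ => r ρ = m)).map g).sum := by
      intro m _
      by_cases hm : r a = m
      · rw [Multiset.filter_cons_of_pos (p := fun ρ => r ρ = m) N hm, Multiset.map_cons, Multiset.sum_cons, if_pos hm]
      · rw [Multiset.filter_cons_of_neg (p := fun ρ => r ρ = m) N hm, if_neg hm, zero_add]
    rw [Finset.sum_congr rfl e, Finset.sum_add_distrib, Finset.sum_ite_eq,
      if_pos (h a (Multiset.mem_cons_self a N))]

/-- the fibres are small -/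
theorem fiber_card (h : JensenEZ) : ∃ C : ℝ, 0 < C ∧ ∀ (T : ℝ) (M : Multiset ℂ) (Z : ℂ → ℂ), 1 ≤ T →
    Box T M Z → ∀ (N : Multiset ℂ), N ≤ M → ∀ m : ℤ,
    (Multiset.card (N.filter (fun ρ => rr ρ = m)) : ℝ) ≤ C * Real.log (|(m : ℝ) / 4| + 2) := by
  obtain ⟨C, hC, hJ⟩ := h
  refine ⟨C, hC, ?_⟩
  intro T M Z hT hB N hNM m
  have h1 : Multiset.card (N.filter (fun ρ => rr ρ = m)) ≤
      Multiset.card (M.filter (fun ρ => rr ρ = m)) :=
    Multiset.card_le_card (Multiset.filter_le_filter _ hNM)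
  have h2 := hJ (M.filter (fun ρ => rr ρ = m))
    (fun z => Qp (M.filter (fun ρ => ¬ rr ρ = m)) z * Z z)
    ((Qp_differentiable _).mul hB.diff) (fun z => by
      rw [hB.eq z, ← mul_assoc, ← Qp_add, Multiset.filter_add_not]) ((m : ℝ) / 4) (by
      intro ρ hρ
      have hρM := Multiset.mem_filter.1 hρ
      obtain ⟨_, h3, h4, _⟩ := hB.mem ρ hρM.1
      have h5 := rr_spec ρ
      rw [hρM.2] at h5
      have h6 := abs_le.1 h5
      have e1 : (ρ - (2 + (((m : ℝ) / 4 : ℝ) : ℂ) * Complex.I)).re = ρ.re - 2 := by simp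
      have e2 : (ρ - (2 + (((m : ℝ) / 4 : ℝ) : ℂ) * Complex.I)).im = ρ.im - (m : ℝ) / 4 := by
        simp only [Complex.sub_im, Complex.add_im, Complex.mul_im, Complex.ofReal_re,
          Complex.I_im, mul_one, Complex.ofReal_im, Complex.I_re, mul_zero, add_zero]
        simp
      have e3 : ‖ρ - (2 + (((m : ℝ) / 4 : ℝ) : ℂ) * Complex.I)‖ ^ 2 ≤ 1.45 ^ 2 := by
        rw [Complex.sq_norm, Complex.normSq_apply, e1, e2]
        (clear * - h3 h4 h6; nlinarith)
      exact le_of_sq_le_sq e3 (by norm_num))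
  exact (by exact_mod_cast h1 : (Multiset.card (N.filter (fun ρ => rr ρ = m)) : ℝ) ≤
    (Multiset.card (M.filter (fun ρ => rr ρ = m)) : ℝ)).trans h2

theorem log_facts {T : ℝ} (hT : 1 ≤ T) : 1 ≤ Real.log (T + 2) := by
  have h1 : Real.exp 1 ≤ T + 2 := by
    have := Real.exp_one_lt_d9
    (clear * - hT this; linarith)
  rw [← Real.log_exp 1]
  exact Real.log_le_log (Real.exp_pos 1) h1

theorem rr_mem {T : ℝ} {ρ : ℂ} (h : |ρ.im| < T + 2) :
    rr ρ ∈ Finset.Icc (-(⌈4 * (T + 2)⌉ + 1)) (⌈4 * (T + 2)⌉ + 1) := by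
  have h1 := rr_spec ρ
  have h2 := abs_le.1 h1
  have h3 := abs_lt.1 h
  have h4 := Int.le_ceil (4 * (T + 2))
  rw [Finset.mem_Icc]
  constructor
  · have : (-(⌈4 * (T + 2)⌉ + 1 : ℤ) : ℝ) ≤ (rr ρ : ℝ) := by push_cast; (clear * - h2 h3 h4; linarith)
    exact_mod_cast this
  · have : (rr ρ : ℝ) ≤ ((⌈4 * (T + 2)⌉ + 1 : ℤ) : ℝ) := by push_cast; linarith
    exact_mod_cast this

theorem log_m {T : ℝ} (hT : 1 ≤ T) {m : ℤ}
    (hm : m ∈ Finset.Icc (-(⌈4 * (T + 2)⌉ + 1)) (⌈4 * (T + 2)⌉ + 1)) :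
    Real.log (|(m : ℝ) / 4| + 2) ≤ 2 * Real.log (T + 2) := by
  rw [Finset.mem_Icc] at hm
  have h4 := Int.ceil_lt_add_one (4 * (T + 2))
  have h1 : (-(⌈4 * (T + 2)⌉ + 1 : ℤ) : ℝ) ≤ (m : ℝ) := by exact_mod_cast hm.1
  have h2 : (m : ℝ) ≤ ((⌈4 * (T + 2)⌉ + 1 : ℤ) : ℝ) := by exact_mod_cast hm.2
  push_cast at h1 h2
  have h3 : |(m : ℝ) / 4| ≤ T + 3 := by
    rw [abs_le]; constructor <;> (clear * - h4 h1 h2; linarith)
  have h5 : |(m : ℝ) / 4| + 2 ≤ (T + 2) ^ 2 := by (clear * - hT h3; nlinarith)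
  have h6 := Real.log_le_log (by (clear * -; positivity)) h5
  rw [Real.log_pow] at h6
  exact_mod_cast h6

theorem cardBox (h : JensenEZ) : CardBox := by
  obtain ⟨C, hC, hF⟩ := fiber_card h
  refine ⟨C * 2 * 40, by positivity, ?_⟩
  intro T M Z hT hB
  set I := Finset.Icc (-(⌈4 * (T + 2)⌉ + 1)) (⌈4 * (T + 2)⌉ + 1) with hI
  have h1 := sum_fibers I rr (fun _ => (1 : ℝ)) M (fun ρ hρ => rr_mem (hB.mem ρ hρ).2.2.2)
  have h2 : (M.map (fun _ => (1 : ℝ))).sum = Multiset.card M := by simp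
  rw [h2] at h1
  rw [h1]
  have h3 : ∀ m ∈ I, ((M.filter (fun ρ => rr ρ = m)).map (fun _ => (1 : ℝ))).sum ≤
      C * (2 * Real.log (T + 2)) := by
    intro m hm
    have : ((M.filter (fun ρ => rr ρ = m)).map (fun _ => (1 : ℝ))).sum =
        Multiset.card (M.filter (fun ρ => rr ρ = m)) := by simp
    rw [this]
    refine (hF T M Z hT hB M le_rfl m).trans ?_
    gcongr
    exact log_m hT hm
  refine (Finset.sum_le_card_nsmul _ _ _ h3).trans ?_
  have h4 : (I.card : ℝ) ≤ 40 * T := by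
    rw [hI, Int.card_Icc]
    have h5 := Int.ceil_lt_add_one (4 * (T + 2))
    have h6 : (0 : ℝ) ≤ ⌈4 * (T + 2)⌉ := by exact_mod_cast Int.ceil_nonneg (by (clear * - hT; linarith))
    have h6' : (0 : ℤ) ≤ ⌈4 * (T + 2)⌉ := Int.ceil_nonneg (by (clear * - hT; linarith))
    have h7 : (((⌈4 * (T + 2)⌉ + 1 + 1 - -(⌈4 * (T + 2)⌉ + 1)).toNat : ℕ) : ℤ) =
        ⌈4 * (T + 2)⌉ + 1 + 1 - -(⌈4 * (T + 2)⌉ + 1) := Int.toNat_of_nonneg (by (clear * - h6'; linarith))
    have h8 : (((⌈4 * (T + 2)⌉ + 1 + 1 - -(⌈4 * (T + 2)⌉ + 1)).toNat : ℕ) : ℝ) =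
        ((⌈4 * (T + 2)⌉ + 1 + 1 - -(⌈4 * (T + 2)⌉ + 1) : ℤ) : ℝ) := by exact_mod_cast h7
    rw [h8]
    push_cast
    (clear * - hT h5; linarith)
  rw [nsmul_eq_mul]
  have hl := log_facts hT
  have h5 : (0 : ℝ) ≤ C * (2 * Real.log (T + 2)) := by (clear * - hC hl; positivity)
  calc (I.card : ℝ) * (C * (2 * Real.log (T + 2))) ≤ 40 * T * (C * (2 * Real.log (T + 2))) := by
        (clear * - h4 hC hl; gcongr)
    _ = _ := by ring

/-- harmonic sums -/
theorem harm_le (n : ℕ) : ∑ i ∈ Finset.range (n + 1), (1 : ℝ) / (1 + i) ≤ 1 + Real.log (n + 1) := by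
  have h := harmonic_le_one_add_log (n + 1)
  have e : ((harmonic (n + 1) : ℚ) : ℝ) = ∑ i ∈ Finset.range (n + 1), (1 : ℝ) / (1 + i) := by
    unfold harmonic
    push_cast
    apply Finset.sum_congr rfl
    intro i _
    rw [one_div, add_comm]
  rw [← e]
  refine h.trans (le_of_eq ?_)
  push_cast
  rfl

theorem sum_int_le (J : ℕ) (k0 : ℤ) (hk : |k0| ≤ J) :
    ∑ m ∈ Finset.Icc (-(J : ℤ)) J, (1 : ℝ) / (1 + |((m - k0 : ℤ) : ℝ)|) ≤
      2 * ∑ i ∈ Finset.range (2 * J + 1), (1 : ℝ) / (1 + i) := by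
  have hk' := abs_le.1 hk
  -- split in `m ≥ k0` and `m < k0`
  have e : Finset.Icc (-(J : ℤ)) J =
      (Finset.Icc (-(J : ℤ)) J).filter (fun m => k0 ≤ m) ∪
        (Finset.Icc (-(J : ℤ)) J).filter (fun m => ¬ k0 ≤ m) :=
    (Finset.filter_union_filter_not_eq _ _).symm
  rw [e, Finset.sum_union (Finset.disjoint_filter_filter_not _ _ _), two_mul]
  apply add_le_add
  · have : ∑ m ∈ (Finset.Icc (-(J : ℤ)) J).filter (fun m => k0 ≤ m),
        (1 : ℝ) / (1 + |((m - k0 : ℤ) : ℝ)|) =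
        ∑ i ∈ ((Finset.Icc (-(J : ℤ)) J).filter (fun m => k0 ≤ m)).image (fun m => (m - k0).toNat),
          (1 : ℝ) / (1 + i) := by
      rw [Finset.sum_image]
      · apply Finset.sum_congr rfl
        intro m hm
        have h1 := (Finset.mem_filter.1 hm).2
        have h2 : (((m - k0).toNat : ℕ) : ℤ) = m - k0 := Int.toNat_of_nonneg (by (clear * - h1; linarith))
        have h3 : (((m - k0).toNat : ℕ) : ℝ) = ((m - k0 : ℤ) : ℝ) := by exact_mod_cast h2
        rw [h3, abs_of_nonneg]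
        exact_mod_cast (by (clear * - h1; linarith) : 0 ≤ m - k0)
      · intro a ha b hb hab
        have h1 := (Finset.mem_filter.1 ha).2
        have h2 := (Finset.mem_filter.1 hb).2
        simp only at hab
        omega
    rw [this]
    apply Finset.sum_le_sum_of_subset_of_nonneg
    · intro i hi
      obtain ⟨m, hm, rfl⟩ := Finset.mem_image.1 hi
      have h1 := Finset.mem_filter.1 hm
      have h2 := Finset.mem_Icc.1 h1.1
      rw [Finset.mem_range]
      omega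
    · intro i _ _
      (clear * -; positivity)
  · have : ∑ m ∈ (Finset.Icc (-(J : ℤ)) J).filter (fun m => ¬ k0 ≤ m),
        (1 : ℝ) / (1 + |((m - k0 : ℤ) : ℝ)|) =
        ∑ i ∈ ((Finset.Icc (-(J : ℤ)) J).filter (fun m => ¬ k0 ≤ m)).image
          (fun m => (k0 - m).toNat), (1 : ℝ) / (1 + i) := by
      rw [Finset.sum_image]
      · apply Finset.sum_congr rfl
        intro m hm
        have h1 := (Finset.mem_filter.1 hm).2
        have h2 : (((k0 - m).toNat : ℕ) : ℤ) = k0 - m := Int.toNat_of_nonneg (by omega)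
        have h3 : (((k0 - m).toNat : ℕ) : ℝ) = ((k0 - m : ℤ) : ℝ) := by exact_mod_cast h2
        rw [h3]
        have h4 : |((m - k0 : ℤ) : ℝ)| = ((k0 - m : ℤ) : ℝ) := by
          rw [abs_of_nonpos]
          · push_cast; ring
          · exact_mod_cast (by omega : m - k0 ≤ 0)
        rw [h4]
      · intro a ha b hb hab
        have h1 := (Finset.mem_filter.1 ha).2
        have h2 := (Finset.mem_filter.1 hb).2
        simp only at hab
        omega
    rw [this]
    apply Finset.sum_le_sum_of_subset_of_nonneg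
    · intro i hi
      obtain ⟨m, hm, rfl⟩ := Finset.mem_image.1 hi
      have h1 := Finset.mem_filter.1 hm
      have h2 := Finset.mem_Icc.1 h1.1
      rw [Finset.mem_range]
      omega
    · intro i _ _
      (clear * -; positivity)

theorem sum_real_le (J : ℕ) (x : ℝ) :
    ∑ m ∈ Finset.Icc (-(J : ℤ)) J, (1 : ℝ) / (1 + |x - m|) ≤ 4 * (1 + Real.log (2 * J + 1)) := by
  set k0 : ℤ := max (-(J : ℤ)) (min J ⌊x⌋) with hk0
  have hk : |k0| ≤ J := by
    rw [abs_le, hk0]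
    constructor
    · exact le_max_left _ _
    · apply max_le
      · have : (0 : ℤ) ≤ J := Int.natCast_nonneg J
        (clear * -; linarith)
      · exact min_le_left _ _
  have h1 : ∀ m ∈ Finset.Icc (-(J : ℤ)) J, (1 : ℝ) / (1 + |x - m|) ≤
      2 * (1 / (1 + |((m - k0 : ℤ) : ℝ)|)) := by
    intro m hm
    have hm' := Finset.mem_Icc.1 hm
    have h2 : |((m - k0 : ℤ) : ℝ)| ≤ |x - m| + 1 := by
      have hf1 := Int.floor_le x
      have hf2 := Int.lt_floor_add_one x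
      push_cast
      rcases le_total ⌊x⌋ (-(J : ℤ)) with c | c
      · -- k0 = -J
        have e : k0 = -(J : ℤ) := by
          rw [hk0, max_eq_left]
          exact (min_le_right _ _).trans c
        have c1 : (⌊x⌋ : ℝ) ≤ -(J : ℝ) := by exact_mod_cast c
        have c2 : -(J : ℝ) ≤ (m : ℝ) := by exact_mod_cast hm'.1
        rw [e]
        push_cast
        rw [abs_of_nonneg (by (clear * - c2; linarith))]
        have := neg_abs_le (x - m)
        linarith
      · rcases le_total (J : ℤ) ⌊x⌋ with c' | c'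
        · have e : k0 = (J : ℤ) := by
            rw [hk0, min_eq_left c', max_eq_right]
            have : (0 : ℤ) ≤ J := Int.natCast_nonneg J
            linarith
          have c1 : (J : ℝ) ≤ (⌊x⌋ : ℝ) := by exact_mod_cast c'
          have c2 : (m : ℝ) ≤ (J : ℝ) := by exact_mod_cast hm'.2
          rw [e]
          push_cast
          rw [abs_of_nonpos (by linarith)]
          have := le_abs_self (x - m)
          linarith
        · have e : k0 = ⌊x⌋ := by
            rw [hk0, min_eq_right c', max_eq_right c]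
          rw [e]
          have := abs_le.1 (le_refl |x - m|)
          rw [abs_le]
          constructor
          · have := neg_abs_le (x - m)
            have := le_abs_self (x - m)
            linarith
          · have := neg_abs_le (x - m)
            linarith
    have h3 := abs_nonneg (x - m)
    have h4 := abs_nonneg (((m - k0 : ℤ) : ℝ))
    rw [mul_one_div, div_le_div_iff₀ (by linarith) (by linarith)]
    linarith
  refine (Finset.sum_le_sum h1).trans ?_
  rw [← Finset.mul_sum]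
  have h2 := sum_int_le J k0 hk
  have h3 := harm_le (2 * J)
  push_cast at h3
  linarith

theorem farSum (h : JensenEZ) : FarSum := by
  obtain ⟨C, hC, hF⟩ := fiber_card h
  refine ⟨C * 2 * 1670 * 4 * 5, by positivity, ?_⟩
  intro T M Z hT hB N hNM s hs
  have hl := log_facts hT
  set J : ℕ := (⌈4 * (T + 2)⌉ + 1).toNat with hJ
  have hcn : (0 : ℤ) ≤ ⌈4 * (T + 2)⌉ := Int.ceil_nonneg (by (clear * - hT; linarith))
  have hJZ : (J : ℤ) = ⌈4 * (T + 2)⌉ + 1 := Int.toNat_of_nonneg (by (clear * - hcn; linarith))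
  have hI : ∀ ρ ∈ N, rr ρ ∈ Finset.Icc (-(J : ℤ)) J := by
    intro ρ hρ
    rw [hJZ]
    exact rr_mem (hB.mem ρ (Multiset.mem_of_le hNM hρ)).2.2.2
  rw [sum_fibers _ rr _ N hI]
  set x : ℝ := 4 * s.im with hx
  have h1 : ∀ m ∈ Finset.Icc (-(J : ℤ)) J,
      ((N.filter (fun ρ => rr ρ = m)).map (fun ρ => 1 / ‖s - ρ‖)).sum ≤
      C * (2 * Real.log (T + 2)) * (1670 * (1 / (1 + |x - m|))) := by
    intro m hm
    have h2 : ∀ y ∈ (N.filter (fun ρ => rr ρ = m)).map (fun ρ => 1 / ‖s - ρ‖),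
        y ≤ 1670 * (1 / (1 + |x - m|)) := by
      intro y hy
      obtain ⟨ρ, hρ, rfl⟩ := Multiset.mem_map.1 hy
      have hρ' := Multiset.mem_filter.1 hρ
      have h3 := hs ρ hρ'.1
      have h4 := rr_spec ρ
      rw [hρ'.2] at h4
      have h5 : |s.im - ρ.im| ≤ ‖s - ρ‖ := by
        have := Complex.abs_im_le_norm (s - ρ)
        simpa using this
      have hpos : 0 < ‖s - ρ‖ := by (clear * - h3; linarith)
      have hax := abs_nonneg (x - m)
      rw [mul_one_div, div_le_div_iff₀ hpos (by (clear * - hax; linarith))]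
      have h6 : |x - m| ≤ 4 * |s.im - ρ.im| + 1 / 2 := by
        have e : x - m = 4 * (s.im - ρ.im) + 4 * (ρ.im - (m : ℝ) / 4) := by rw [hx]; ring
        rw [e]
        refine (abs_add_le _ _).trans ?_
        rw [abs_mul, abs_mul, abs_of_pos (show (0 : ℝ) < 4 by norm_num)]
        (clear * - h4; linarith)
      (clear * - h3 h5 hpos h6; linarith)
    have h3 := Multiset.sum_le_card_nsmul _ _ h2
    rw [Multiset.card_map, nsmul_eq_mul] at h3
    refine h3.trans ?_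
    have h4 := (hF T M Z hT hB N hNM m).trans
      (mul_le_mul_of_nonneg_left (log_m hT (by rw [← hJZ]; exact hm)) hC.le)
    have hax := abs_nonneg (x - m)
    gcongr
  refine (Finset.sum_le_sum h1).trans ?_
  rw [← Finset.mul_sum, ← Finset.mul_sum]
  have h2 := sum_real_le J x
  have h3 : Real.log (2 * J + 1) ≤ 4 * Real.log (T + 2) := by
    have hJr : (J : ℝ) ≤ 4 * (T + 2) + 2 := by
      have e : (J : ℝ) = ((⌈4 * (T + 2)⌉ + 1 : ℤ) : ℝ) := by exact_mod_cast hJZ
      have := Int.ceil_lt_add_one (4 * (T + 2))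
      rw [e]
      push_cast
      (clear * - this; linarith)
    have h5 : 2 * (J : ℝ) + 1 ≤ (T + 2) ^ 4 := by
      have h6 : 2 * (J : ℝ) + 1 ≤ 8 * (T + 2) + 5 := by linarith
      have h7 : 9 ≤ (T + 2) ^ 2 := by (clear * - hT; nlinarith)
      have h8 : 9 * (T + 2) ^ 2 ≤ (T + 2) ^ 4 := by (clear * - h7; nlinarith [sq_nonneg (T + 2)])
      (clear * - hJr h7 h8 hT; nlinarith)
    have h6 := Real.log_le_log (by positivity) h5
    rw [Real.log_pow] at h6
    exact_mod_cast h6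
  have h4 : ∑ m ∈ Finset.Icc (-(J : ℤ)) J, (1 : ℝ) / (1 + |x - m|) ≤ 4 * 5 * Real.log (T + 2) := by
    (clear * - hl h2 h3; linarith)
  calc C * (2 * Real.log (T + 2)) * (1670 * ∑ m ∈ Finset.Icc (-(J : ℤ)) J, (1 : ℝ) / (1 + |x - m|))
      ≤ C * (2 * Real.log (T + 2)) * (1670 * (4 * 5 * Real.log (T + 2))) := by (clear * - h4 hC hl; gcongr)
    _ = _ := by ring

end Pool.Agent.M17.Helper67.KSZ.E4
end

/- Helper53.KN.Helper1.KL.E4 -/
section
/-! Helper67/KSZ/E4.lean adapted to the line 0.575 (box 57/100) by helper1 -/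

set_option autoImplicit false
open Filter Topology MeasureTheory Complex
open scoped Classical

namespace Pool.Agent.M17.Helper1.KL

open Pool.Agent.M17.Helper67.KSZ.E4 hiding fiber_card cardBox farSum
open Pool.Agent.M17.Helper10.QRH Pool.Agent.M17.Helper69.QRH 

/-- the fibres are small -/
theorem fiber_card (h : JensenEZ) : ∃ C : ℝ, 0 < C ∧ ∀ (T : ℝ) (M : Multiset ℂ) (Z : ℂ → ℂ), 1 ≤ T →
    Box T M Z → ∀ (N : Multiset ℂ), N ≤ M → ∀ m : ℤ,
    (Multiset.card (N.filter (fun ρ => rr ρ = m)) : ℝ) ≤ C * Real.log (|(m : ℝ) / 4| + 2) := by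
  obtain ⟨C, hC, hJ⟩ := h
  refine ⟨C, hC, ?_⟩
  intro T M Z hT hB N hNM m
  have h1 : Multiset.card (N.filter (fun ρ => rr ρ = m)) ≤
      Multiset.card (M.filter (fun ρ => rr ρ = m)) :=
    Multiset.card_le_card (Multiset.filter_le_filter _ hNM)
  have h2 := hJ (M.filter (fun ρ => rr ρ = m))
    (fun z => Qp (M.filter (fun ρ => ¬ rr ρ = m)) z * Z z)
    ((Qp_differentiable _).mul hB.diff) (fun z => by
      rw [hB.eq z, ← mul_assoc, ← Qp_add, Multiset.filter_add_not]) ((m : ℝ) / 4) (by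
      intro ρ hρ
      have hρM := Multiset.mem_filter.1 hρ
      obtain ⟨_, h3, h4, _⟩ := hB.mem ρ hρM.1
      have h5 := rr_spec ρ
      rw [hρM.2] at h5
      have h6 := abs_le.1 h5
      have e1 : (ρ - (2 + (((m : ℝ) / 4 : ℝ) : ℂ) * Complex.I)).re = ρ.re - 2 := by simp
      have e2 : (ρ - (2 + (((m : ℝ) / 4 : ℝ) : ℂ) * Complex.I)).im = ρ.im - (m : ℝ) / 4 := by
        simp only [Complex.sub_im, Complex.add_im, Complex.mul_im, Complex.ofReal_re,
          Complex.I_im, mul_one, Complex.ofReal_im, Complex.I_re, mul_zero, add_zero]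
        simp
      have e3 : ‖ρ - (2 + (((m : ℝ) / 4 : ℝ) : ℂ) * Complex.I)‖ ^ 2 ≤ 1.45 ^ 2 := by
        rw [Complex.sq_norm, Complex.normSq_apply, e1, e2]
        (clear * - h3 h4 h6; nlinarith)
      exact le_of_sq_le_sq e3 (by norm_num))
  exact (by exact_mod_cast h1 : (Multiset.card (N.filter (fun ρ => rr ρ = m)) : ℝ) ≤
    (Multiset.card (M.filter (fun ρ => rr ρ = m)) : ℝ)).trans h2

theorem cardBox (h : JensenEZ) : CardBox := by
  obtain ⟨C, hC, hF⟩ := fiber_card h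
  refine ⟨C * 2 * 40, by positivity, ?_⟩
  intro T M Z hT hB
  set I := Finset.Icc (-(⌈4 * (T + 2)⌉ + 1)) (⌈4 * (T + 2)⌉ + 1) with hI
  have h1 := sum_fibers I rr (fun _ => (1 : ℝ)) M (fun ρ hρ => rr_mem (hB.mem ρ hρ).2.2.2)
  have h2 : (M.map (fun _ => (1 : ℝ))).sum = Multiset.card M := by simp
  rw [h2] at h1
  rw [h1]
  have h3 : ∀ m ∈ I, ((M.filter (fun ρ => rr ρ = m)).map (fun _ => (1 : ℝ))).sum ≤
      C * (2 * Real.log (T + 2)) := by
    intro m hm
    have : ((M.filter (fun ρ => rr ρ = m)).map (fun _ => (1 : ℝ))).sum =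
        Multiset.card (M.filter (fun ρ => rr ρ = m)) := by simp
    rw [this]
    refine (hF T M Z hT hB M le_rfl m).trans ?_
    gcongr
    exact log_m hT hm
  refine (Finset.sum_le_card_nsmul _ _ _ h3).trans ?_
  have h4 : (I.card : ℝ) ≤ 40 * T := by
    rw [hI, Int.card_Icc]
    have h5 := Int.ceil_lt_add_one (4 * (T + 2))
    have h6 : (0 : ℝ) ≤ ⌈4 * (T + 2)⌉ := by exact_mod_cast Int.ceil_nonneg (by (clear * - hT; linarith))
    have h6' : (0 : ℤ) ≤ ⌈4 * (T + 2)⌉ := Int.ceil_nonneg (by linarith)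
    have h7 : (((⌈4 * (T + 2)⌉ + 1 + 1 - -(⌈4 * (T + 2)⌉ + 1)).toNat : ℕ) : ℤ) =
        ⌈4 * (T + 2)⌉ + 1 + 1 - -(⌈4 * (T + 2)⌉ + 1) := Int.toNat_of_nonneg (by (clear * - h6'; linarith))
    have h8 : (((⌈4 * (T + 2)⌉ + 1 + 1 - -(⌈4 * (T + 2)⌉ + 1)).toNat : ℕ) : ℝ) =
        ((⌈4 * (T + 2)⌉ + 1 + 1 - -(⌈4 * (T + 2)⌉ + 1) : ℤ) : ℝ) := by exact_mod_cast h7
    rw [h8]
    push_cast
    (clear * - hT h5; linarith)
  rw [nsmul_eq_mul]
  have hl := log_facts hT
  have h5 : (0 : ℝ) ≤ C * (2 * Real.log (T + 2)) := by positivity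
  calc (I.card : ℝ) * (C * (2 * Real.log (T + 2))) ≤ 40 * T * (C * (2 * Real.log (T + 2))) := by
        gcongr
    _ = _ := by ring

theorem farSum (h : JensenEZ) : FarSum := by
  obtain ⟨C, hC, hF⟩ := fiber_card h
  refine ⟨C * 2 * 1670 * 4 * 5, by positivity, ?_⟩
  intro T M Z hT hB N hNM s hs
  have hl := log_facts hT
  set J : ℕ := (⌈4 * (T + 2)⌉ + 1).toNat with hJ
  have hcn : (0 : ℤ) ≤ ⌈4 * (T + 2)⌉ := Int.ceil_nonneg (by (clear * - hT; linarith))
  have hJZ : (J : ℤ) = ⌈4 * (T + 2)⌉ + 1 := Int.toNat_of_nonneg (by (clear * - hcn; linarith))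
  have hI : ∀ ρ ∈ N, rr ρ ∈ Finset.Icc (-(J : ℤ)) J := by
    intro ρ hρ
    rw [hJZ]
    exact rr_mem (hB.mem ρ (Multiset.mem_of_le hNM hρ)).2.2.2
  rw [sum_fibers _ rr _ N hI]
  set x : ℝ := 4 * s.im with hx
  have h1 : ∀ m ∈ Finset.Icc (-(J : ℤ)) J,
      ((N.filter (fun ρ => rr ρ = m)).map (fun ρ => 1 / ‖s - ρ‖)).sum ≤
      C * (2 * Real.log (T + 2)) * (1670 * (1 / (1 + |x - m|))) := by
    intro m hm
    have h2 : ∀ y ∈ (N.filter (fun ρ => rr ρ = m)).map (fun ρ => 1 / ‖s - ρ‖),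
        y ≤ 1670 * (1 / (1 + |x - m|)) := by
      intro y hy
      obtain ⟨ρ, hρ, rfl⟩ := Multiset.mem_map.1 hy
      have hρ' := Multiset.mem_filter.1 hρ
      have h3 := hs ρ hρ'.1
      have h4 := rr_spec ρ
      rw [hρ'.2] at h4
      have h5 : |s.im - ρ.im| ≤ ‖s - ρ‖ := by
        have := Complex.abs_im_le_norm (s - ρ)
        simpa using this
      have hpos : 0 < ‖s - ρ‖ := by (clear * - h3; linarith)
      have hax := abs_nonneg (x - m)
      rw [mul_one_div, div_le_div_iff₀ hpos (by (clear * - hax; linarith))]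
      have h6 : |x - m| ≤ 4 * |s.im - ρ.im| + 1 / 2 := by
        have e : x - m = 4 * (s.im - ρ.im) + 4 * (ρ.im - (m : ℝ) / 4) := by rw [hx]; ring
        rw [e]
        refine (abs_add_le _ _).trans ?_
        rw [abs_mul, abs_mul, abs_of_pos (show (0 : ℝ) < 4 by norm_num)]
        (clear * - h4; linarith)
      (clear * - h3 h5 hpos h6; linarith)
    have h3 := Multiset.sum_le_card_nsmul _ _ h2
    rw [Multiset.card_map, nsmul_eq_mul] at h3
    refine h3.trans ?_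
    have h4 := (hF T M Z hT hB N hNM m).trans
      (mul_le_mul_of_nonneg_left (log_m hT (by rw [← hJZ]; exact hm)) hC.le)
    have hax := abs_nonneg (x - m)
    (clear * - h4; gcongr)
  refine (Finset.sum_le_sum h1).trans ?_
  rw [← Finset.mul_sum, ← Finset.mul_sum]
  have h2 := sum_real_le J x
  have h3 : Real.log (2 * J + 1) ≤ 4 * Real.log (T + 2) := by
    have hJr : (J : ℝ) ≤ 4 * (T + 2) + 2 := by
      have e : (J : ℝ) = ((⌈4 * (T + 2)⌉ + 1 : ℤ) : ℝ) := by exact_mod_cast hJZ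
      have := Int.ceil_lt_add_one (4 * (T + 2))
      rw [e]
      push_cast
      (clear * - this; linarith)
    have h5 : 2 * (J : ℝ) + 1 ≤ (T + 2) ^ 4 := by
      have h6 : 2 * (J : ℝ) + 1 ≤ 8 * (T + 2) + 5 := by (clear * - hJr; linarith)
      have h7 : 9 ≤ (T + 2) ^ 2 := by (clear * - hT; nlinarith)
      have h8 : 9 * (T + 2) ^ 2 ≤ (T + 2) ^ 4 := by (clear * - h7; nlinarith [sq_nonneg (T + 2)])
      (clear * - hJr h7 h8 hT; nlinarith)
    have h6 := Real.log_le_log (by positivity) h5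
    rw [Real.log_pow] at h6
    exact_mod_cast h6
  have h4 : ∑ m ∈ Finset.Icc (-(J : ℤ)) J, (1 : ℝ) / (1 + |x - m|) ≤ 4 * 5 * Real.log (T + 2) := by
    (clear * - hl h2 h3; linarith)
  calc C * (2 * Real.log (T + 2)) * (1670 * ∑ m ∈ Finset.Icc (-(J : ℤ)) J, (1 : ℝ) / (1 + |x - m|))
      ≤ C * (2 * Real.log (T + 2)) * (1670 * (4 * 5 * Real.log (T + 2))) := by (clear * - h4 hC hl; gcongr)
    _ = _ := by ring

end Pool.Agent.M17.Helper1.KL
end

/- Helper53.KN.Helper71.KC.TwoWalk -/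
section
/-!
Project KS (MP_768c9c_nt), module KC-5: the two-walk lemma (6.6).
-/

set_option autoImplicit false

open Finset
open scoped Classical

namespace Pool.Agent.M17.Helper71.KC

open Pool.Agent.M17.Helper60.KS

/-- the number of `δ`-spaced points in an interval of length `ℓ` is at most `1 + ℓ / δ` -/
theorem card_spaced {ι : Type*} (S : Finset ι) (f : ι → ℝ) {δ x ℓ : ℝ} (hδ : 0 < δ)
    (hsp : ∀ i ∈ S, ∀ j ∈ S, i ≠ j → δ ≤ |f i - f j|)
    (hI : ∀ i ∈ S, x ≤ f i ∧ f i ≤ x + ℓ) (hℓ : 0 ≤ ℓ) : (S.card : ℝ) ≤ 1 + ℓ / δ := by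
  have h1 : S.card ≤ (range (⌊ℓ / δ⌋₊ + 1)).card := by
    refine Finset.card_le_card_of_injOn (fun i => ⌊(f i - x) / δ⌋₊) ?_ ?_
    · intro i hi
      have hi' := hI i hi
      simp only [coe_range, Set.mem_Iio]
      refine Nat.lt_succ_of_le (Nat.floor_le_floor ?_)
      exact div_le_div_of_nonneg_right (by (clear * - hi'; linarith)) hδ.le
    · intro i hi j hj hij
      by_contra hne
      have h2 := hsp i hi j hj hne
      have hi0 : 0 ≤ (f i - x) / δ := div_nonneg (by (clear * - hI hi; linarith [(hI i hi).1])) hδ.le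
      have hj0 : 0 ≤ (f j - x) / δ := div_nonneg (by (clear * - hI hj; linarith [(hI j hj).1])) hδ.le
      have hij' : ⌊(f i - x) / δ⌋₊ = ⌊(f j - x) / δ⌋₊ := hij
      have e1 := Nat.floor_le hi0
      have e2 := Nat.lt_floor_add_one ((f i - x) / δ)
      have e3 := Nat.floor_le hj0
      have e4 := Nat.lt_floor_add_one ((f j - x) / δ)
      rw [hij'] at e1 e2
      have h3 : |(f i - x) / δ - (f j - x) / δ| < 1 := by
        rw [abs_lt]
        constructor <;> (clear * - e1 e4 e2 e3; linarith)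
      rw [← sub_div, abs_div, abs_of_pos hδ, div_lt_one hδ] at h3
      have h4 : f i - x - (f j - x) = f i - f j := by ring
      rw [h4] at h3
      (clear * - h2 h3; linarith)
  rw [card_range] at h1
  have h5 : ((⌊ℓ / δ⌋₊ : ℕ) : ℝ) ≤ ℓ / δ := Nat.floor_le (div_nonneg hℓ hδ.le)
  have h6 : (S.card : ℝ) ≤ ((⌊ℓ / δ⌋₊ + 1 : ℕ) : ℝ) := by exact_mod_cast h1
  push_cast at h6
  (clear * - h5 h6; linarith)

theorem log_sep {x y : ℕ} {M : ℝ} (hx : 1 ≤ x) (hy : 1 ≤ y) (hxy : x ≠ y) (hxM : (x : ℝ) ≤ M)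
    (hyM : (y : ℝ) ≤ M) : 1 / M ≤ |Real.log x - Real.log y| := by
  have key : ∀ x y : ℕ, 1 ≤ x → 1 ≤ y → y < x → (x : ℝ) ≤ M → 1 / M ≤ Real.log x - Real.log y := by
    intro x y hx hy hxy hxM
    have hx0 : (0 : ℝ) < x := by exact_mod_cast hx
    have hy0 : (0 : ℝ) < y := by exact_mod_cast hy
    have h1 := Real.log_le_sub_one_of_pos (div_pos hy0 hx0)
    rw [Real.log_div hy0.ne' hx0.ne'] at h1
    have h2 : (y : ℝ) + 1 ≤ x := by exact_mod_cast hxy
    have h3 : (y : ℝ) / x ≤ 1 - 1 / x := by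
      rw [div_le_iff₀ hx0]
      have : (1 - 1 / (x : ℝ)) * x = x - 1 := by field_simp
      rw [this]
      (clear * - h2; linarith)
    have h4 : 1 / M ≤ 1 / (x : ℝ) := one_div_le_one_div_of_le hx0 hxM
    (clear * - h1 h3 h4; linarith)
  rcases lt_or_gt_of_ne hxy with h | h
  · have := key y x hy hx h hyM
    rw [abs_sub_comm]
    exact this.trans (le_abs_self _)
  · exact (key x y hx hy h hxM).trans (le_abs_self _)

/-- coprime pairs `(a, b)` with `g ≤ max a b < 2 g` and `|s - log (a / b)| ≤ 1 / T` -/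
noncomputable def pr (T : ℝ) (g : ℕ) (s : ℝ) : Finset (ℕ × ℕ) :=
  (Icc 1 (2 * g) ×ˢ Icc 1 (2 * g)).filter (fun p => p.1.Coprime p.2 ∧ g ≤ max p.1 p.2 ∧
    max p.1 p.2 < 2 * g ∧ |s - (Real.log p.1 - Real.log p.2)| ≤ 1 / T)

theorem cross_ne {a b a' b' : ℕ} (ha : 1 ≤ a) (h : a.Coprime b)
    (h' : a'.Coprime b') (hne : (a, b) ≠ (a', b')) : a * b' ≠ a' * b := by
  intro he
  apply hne
  have h1 : a ∣ a' := by
    have : a ∣ a' * b := ⟨b', he.symm⟩
    exact h.dvd_of_dvd_mul_right this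
  have h2 : a' ∣ a := by
    have : a' ∣ a * b' := ⟨b, he⟩
    exact h'.dvd_of_dvd_mul_right this
  have h3 : a = a' := Nat.dvd_antisymm h1 h2
  subst h3
  have h4 : b' = b := Nat.eq_of_mul_eq_mul_left ha he
  rw [h4]

theorem card_pr {T : ℝ} (hT : 1 ≤ T) {g : ℕ} (hg : 1 ≤ g) (s : ℝ) :
    ((pr T g s).card : ℝ) ≤ 1 + 8 * (g : ℝ) ^ 2 / T := by
  have hT0 : 0 < T := by (clear * - hT; linarith)
  have hg0 : (0 : ℝ) < g := by exact_mod_cast hg
  have h1 := card_spaced (pr T g s) (fun p => Real.log p.1 - Real.log p.2)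
    (δ := 1 / (4 * (g : ℝ) ^ 2)) (x := s - 1 / T) (ℓ := 2 / T) (by (clear * - hg; positivity)) ?_ ?_
    (by positivity)
  · refine h1.trans (le_of_eq ?_)
    field_simp
    ring
  · intro p hp q hq hpq
    simp only [pr, mem_filter, mem_product, mem_Icc] at hp hq
    obtain ⟨⟨⟨hp1, hp2⟩, hp3, hp4⟩, hp5, -, -, -⟩ := hp
    obtain ⟨⟨⟨hq1, hq2⟩, hq3, hq4⟩, hq5, -, -, -⟩ := hq
    have hne := cross_ne hp1 hp5 hq5 hpq
    have hb : ∀ x y : ℕ, x ≤ 2 * g → y ≤ 2 * g → ((x * y : ℕ) : ℝ) ≤ 4 * (g : ℝ) ^ 2 := by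
      intro x y hx hy
      have : x * y ≤ (2 * g) * (2 * g) := Nat.mul_le_mul hx hy
      have h2 : ((x * y : ℕ) : ℝ) ≤ (((2 * g) * (2 * g) : ℕ) : ℝ) := by exact_mod_cast this
      push_cast at h2 ⊢
      (clear * - h2; linarith)
    have h3 := log_sep (M := 4 * (g : ℝ) ^ 2) (Nat.mul_pos hp1 hq3 : 0 < p.1 * q.2)
      (Nat.mul_pos hq1 hp3 : 0 < q.1 * p.2) hne (hb _ _ hp2 hq4) (hb _ _ hq2 hp4)
    have e1 : (0 : ℝ) < p.1 := by exact_mod_cast hp1
    have e2 : (0 : ℝ) < p.2 := by exact_mod_cast hp3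
    have e3 : (0 : ℝ) < q.1 := by exact_mod_cast hq1
    have e4 : (0 : ℝ) < q.2 := by exact_mod_cast hq3
    push_cast at h3
    rw [Real.log_mul e1.ne' e4.ne', Real.log_mul e3.ne' e2.ne'] at h3
    refine h3.trans (le_of_eq ?_)
    congr 1
    ring
  · intro p hp
    simp only [pr, mem_filter] at hp
    have h2 := abs_le.1 hp.2.2.2.2
    constructor
    · (clear * - h2; linarith [h2.2])
    · have : s - 1 / T + 2 / T = s + 1 / T := by ring
      (clear * - h2 this; linarith [h2.1])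

/-- pairs `(u, u')` admitting such a fraction -/
noncomputable def AA (U : Finset ℝ) (T : ℝ) (g : ℕ) : Finset (ℝ × ℝ) :=
  (U ×ˢ U).filter (fun p => (pr T g (p.1 - p.2)).Nonempty)

theorem card_AA_le (U : Finset ℝ) (T : ℝ) (g : ℕ) : (AA U T g).card ≤ U.card ^ 2 := by
  refine (Finset.card_filter_le _ _).trans ?_
  rw [card_product, sq]

theorem ET_mono {U : Finset ℝ} {T : ℝ} {Q Q' : ℕ} (hQ : 1 ≤ Q) : ET U T Q Q' ≤ ET U T 1 Q' := by
  unfold ET
  refine Finset.card_le_card (Finset.filter_subset_filter _ ?_)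
  have h1 : U ×ˢ Icc Q Q' ⊆ U ×ˢ Icc 1 Q' :=
    Finset.product_subset_product_right (Finset.Icc_subset_Icc_left hQ)
  exact Finset.product_subset_product h1 h1

/-- (2): upper bound for the number of coincidences -/
theorem ET_le_sum {U : Finset ℝ} {T : ℝ} (hT : 1 ≤ T) (Q' : ℕ) :
    (ET U T 1 Q' : ℝ) ≤ ∑ i ∈ range (Nat.log 2 Q' + 1),
      ((AA U T (2 ^ i)).card : ℝ) * ((1 + 8 * ((2 : ℝ) ^ i) ^ 2 / T) * ((Q' : ℝ) / 2 ^ i)) := by
  have hT0 : 0 < T := by linarith
  set E := (((U ×ˢ Finset.Icc 1 Q') ×ˢ (U ×ˢ Finset.Icc 1 Q')).filter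
    (fun p => |(p.1.1 - Real.log p.1.2) - (p.2.1 - Real.log p.2.2)| ≤ 1 / T)) with hE
  have hcard : ET U T 1 Q' = E.card := rfl
  rw [hcard]
  set lev : (ℝ × ℕ) × (ℝ × ℕ) → ℕ := fun p =>
    Nat.log 2 (max (p.1.2 / Nat.gcd p.1.2 p.2.2) (p.2.2 / Nat.gcd p.1.2 p.2.2)) with hlev
  have hmaps : ∀ p ∈ E, lev p ∈ range (Nat.log 2 Q' + 1) := by
    intro p hp
    simp only [hE, mem_filter, mem_product, mem_Icc] at hp
    obtain ⟨⟨⟨-, -, h2⟩, -, -, h4⟩, -⟩ := hp
    rw [mem_range, Nat.lt_succ_iff]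
    refine Nat.log_mono_right (max_le ?_ ?_)
    · exact (Nat.div_le_self _ _).trans h2
    · exact (Nat.div_le_self _ _).trans h4
  rw [Finset.card_eq_sum_card_fiberwise hmaps]
  push_cast
  refine Finset.sum_le_sum fun i _ => ?_
  set B := (AA U T (2 ^ i)).sigma (fun p => (pr T (2 ^ i) (p.1 - p.2)) ×ˢ Icc 1 (Q' / 2 ^ i)) with hB
  have h1 : (E.filter (fun p => lev p = i)).card ≤ B.card := by
    refine Finset.card_le_card_of_injOn (fun p => (⟨(p.1.1, p.2.1),
      ((p.1.2 / Nat.gcd p.1.2 p.2.2, p.2.2 / Nat.gcd p.1.2 p.2.2), Nat.gcd p.1.2 p.2.2)⟩ :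
        Σ _ : ℝ × ℝ, (ℕ × ℕ) × ℕ)) ?_ ?_
    · intro p hp
      rw [mem_coe, mem_filter] at hp
      obtain ⟨hp, hpi⟩ := hp
      simp only [hE, mem_filter, mem_product, mem_Icc] at hp
      obtain ⟨⟨⟨hu, h1, h2⟩, hu', h3, h4⟩, h5⟩ := hp
      set m := Nat.gcd p.1.2 p.2.2 with hm
      have hm0 : 0 < m := Nat.gcd_pos_of_pos_left _ h1
      set a := p.1.2 / m with ha
      set b := p.2.2 / m with hb
      have hna : p.1.2 = m * a := (Nat.mul_div_cancel' (Nat.gcd_dvd_left _ _)).symm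
      have hnb : p.2.2 = m * b := (Nat.mul_div_cancel' (Nat.gcd_dvd_right _ _)).symm
      have ha1 : 1 ≤ a := by
        rcases Nat.eq_zero_or_pos a with h | h
        · rw [h, mul_zero] at hna
          omega
        · exact h
      have hb1 : 1 ≤ b := by
        rcases Nat.eq_zero_or_pos b with h | h
        · rw [h, mul_zero] at hnb
          omega
        · exact h
      have hcop : a.Coprime b := Nat.coprime_div_gcd_div_gcd hm0
      have hlv : Nat.log 2 (max a b) = i := hpi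
      have hmax0 : max a b ≠ 0 := by
        have := le_max_left a b
        omega
      have hl1 : 2 ^ i ≤ max a b := by
        rw [← hlv]
        exact Nat.pow_log_le_self 2 hmax0
      have hl2 : max a b < 2 * 2 ^ i := by
        have := Nat.lt_pow_succ_log_self (b := 2) (by norm_num) (max a b)
        rw [hlv, Nat.succ_eq_add_one, pow_succ] at this
        (clear * - U T Q' this; omega)
      have hmr : (0 : ℝ) < m := by exact_mod_cast hm0
      have har : (0 : ℝ) < a := by exact_mod_cast ha1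
      have hbr : (0 : ℝ) < b := by exact_mod_cast hb1
      have hmem : (a, b) ∈ pr T (2 ^ i) (p.1.1 - p.2.1) := by
        simp only [pr, mem_filter, mem_product, mem_Icc]
        have g1 := le_max_left a b
        have g2 := le_max_right a b
        refine ⟨⟨⟨ha1, by omega⟩, hb1, by omega⟩, hcop, hl1, hl2, ?_⟩
        rw [hna, hnb] at h5
        push_cast at h5
        rw [Real.log_mul hmr.ne' har.ne', Real.log_mul hmr.ne' hbr.ne'] at h5
        refine le_trans (le_of_eq ?_) h5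
        congr 1
        ring
      rw [mem_coe, hB, mem_sigma]
      refine ⟨?_, ?_⟩
      · simp only [AA, mem_filter, mem_product]
        exact ⟨⟨hu, hu'⟩, ⟨_, hmem⟩⟩
      · simp only [mem_product, mem_Icc]
        refine ⟨hmem, hm0, ?_⟩
        rw [Nat.le_div_iff_mul_le (by positivity)]
        calc m * 2 ^ i ≤ m * max a b := Nat.mul_le_mul_left _ hl1
          _ = max (m * a) (m * b) := by rw [Nat.mul_max_mul_left]
          _ ≤ Q' := by
            rw [← hna, ← hnb]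
            exact max_le h2 h4
    · intro p hp q hq hpq
      rw [mem_coe, mem_filter] at hp hq
      simp only [Sigma.mk.injEq, Prod.mk.injEq, heq_eq_eq] at hpq
      obtain ⟨⟨e1, e2⟩, ⟨e3, e4⟩, e5⟩ := hpq
      have d1 := Nat.div_mul_cancel (Nat.gcd_dvd_left p.1.2 p.2.2)
      have d2 := Nat.div_mul_cancel (Nat.gcd_dvd_right p.1.2 p.2.2)
      have d3 := Nat.div_mul_cancel (Nat.gcd_dvd_left q.1.2 q.2.2)
      have d4 := Nat.div_mul_cancel (Nat.gcd_dvd_right q.1.2 q.2.2)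
      rw [e3, e5, d3] at d1
      rw [e4, e5, d4] at d2
      exact Prod.ext (Prod.ext e1 d1.symm) (Prod.ext e2 d2.symm)
  have h2 : (B.card : ℝ) ≤ ((AA U T (2 ^ i)).card : ℝ) *
      ((1 + 8 * ((2 : ℝ) ^ i) ^ 2 / T) * ((Q' : ℝ) / 2 ^ i)) := by
    rw [hB, Finset.card_sigma]
    push_cast
    rw [← nsmul_eq_mul, ← Finset.sum_const]
    refine Finset.sum_le_sum fun p _ => ?_
    rw [card_product]
    push_cast
    refine mul_le_mul ?_ ?_ (Nat.cast_nonneg _) (by positivity)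
    · have := card_pr hT (g := 2 ^ i) Nat.one_le_two_pow (p.1 - p.2)
      push_cast at this
      exact this
    · rw [Nat.card_Icc, Nat.add_sub_cancel]
      have := Nat.cast_div_le (α := ℝ) (m := Q') (n := 2 ^ i)
      push_cast at this
      exact this
  have h3 : ((E.filter (fun p => lev p = i)).card : ℝ) ≤ B.card := by exact_mod_cast h1
  exact h3.trans h2

/-- (2'): upper bound in terms of `M` -/
theorem ET_le {U : Finset ℝ} {T M : ℝ} (hT : 1 ≤ T) {Q' : ℕ} (hQ' : 1 ≤ Q')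
    (hM : ∀ i : ℕ, ((AA U T (2 ^ i)).card : ℝ) ≤ M * U.card * 2 ^ i) :
    (ET U T 1 Q' : ℝ) ≤ ((Nat.log 2 Q' + 1 : ℕ) : ℝ) * (M * U.card * Q') +
      16 * (U.card : ℝ) ^ 2 * (Q' : ℝ) ^ 2 / T := by
  have hT0 : 0 < T := by (clear * - hT; linarith)
  have hQ0 : (0 : ℝ) < Q' := by exact_mod_cast hQ'
  refine (ET_le_sum hT Q').trans ?_
  have h1 : ∀ i ∈ range (Nat.log 2 Q' + 1),
      ((AA U T (2 ^ i)).card : ℝ) * ((1 + 8 * ((2 : ℝ) ^ i) ^ 2 / T) * ((Q' : ℝ) / 2 ^ i)) ≤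
      M * U.card * Q' + (8 * (U.card : ℝ) ^ 2 * Q' / T) * 2 ^ i := by
    intro i _
    have h2i : (0 : ℝ) < 2 ^ i := by positivity
    have e1 : ((AA U T (2 ^ i)).card : ℝ) * ((1 + 8 * ((2 : ℝ) ^ i) ^ 2 / T) * ((Q' : ℝ) / 2 ^ i)) =
      ((AA U T (2 ^ i)).card : ℝ) * ((Q' : ℝ) / 2 ^ i) +
        ((AA U T (2 ^ i)).card : ℝ) * (8 * Q' / T * 2 ^ i) := by
      (clear * - hT hQ'; field_simp)
    rw [e1]
    refine add_le_add ?_ ?_
    · calc ((AA U T (2 ^ i)).card : ℝ) * ((Q' : ℝ) / 2 ^ i)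
          ≤ (M * U.card * 2 ^ i) * ((Q' : ℝ) / 2 ^ i) :=
            mul_le_mul_of_nonneg_right (hM i) (by (clear * - hQ'; positivity))
        _ = M * U.card * Q' := by (clear * - hQ'; field_simp)
    · have h2 : ((AA U T (2 ^ i)).card : ℝ) ≤ (U.card : ℝ) ^ 2 := by exact_mod_cast card_AA_le U T _
      calc ((AA U T (2 ^ i)).card : ℝ) * (8 * Q' / T * 2 ^ i)
          ≤ (U.card : ℝ) ^ 2 * (8 * Q' / T * 2 ^ i) :=
            mul_le_mul_of_nonneg_right h2 (by (clear * - hQ' hT; positivity))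
        _ = (8 * (U.card : ℝ) ^ 2 * Q' / T) * 2 ^ i := by ring
  refine (Finset.sum_le_sum h1).trans ?_
  rw [Finset.sum_add_distrib, Finset.sum_const, card_range, nsmul_eq_mul, ← Finset.mul_sum]
  refine add_le_add le_rfl ?_
  have h3 : ∑ i ∈ range (Nat.log 2 Q' + 1), (2 : ℝ) ^ i ≤ 2 * Q' := by
    have h4 : ∑ i ∈ range (Nat.log 2 Q' + 1), (2 : ℝ) ^ i = 2 ^ (Nat.log 2 Q' + 1) - 1 := by
      rw [geom_sum_eq (by norm_num)]
      norm_num
    have h5 : 2 ^ Nat.log 2 Q' ≤ Q' := Nat.pow_log_le_self 2 (by omega)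
    have h6 : ((2 : ℝ)) ^ Nat.log 2 Q' ≤ Q' := by exact_mod_cast h5
    rw [h4, pow_succ]
    (clear * - h6; linarith)
  calc 8 * (U.card : ℝ) ^ 2 * Q' / T * ∑ i ∈ range (Nat.log 2 Q' + 1), (2 : ℝ) ^ i
      ≤ 8 * (U.card : ℝ) ^ 2 * Q' / T * (2 * Q') := mul_le_mul_of_nonneg_left h3 (by (clear * - hQ' hT; positivity))
    _ = 16 * (U.card : ℝ) ^ 2 * (Q' : ℝ) ^ 2 / T := by ring

/-- (4): two-walks -/
theorem two_walks (hPC : PairCount) {U : Finset ℝ} {T D : ℝ} (hT : 1 ≤ T)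
    (hU : SpacedR U (1 / T)) {g : ℕ} (hg : 1 ≤ g)
    (hD : ∀ n : ℕ, 1 ≤ n → n ≤ 4 * g ^ 2 → (n.divisors.card : ℝ) ≤ D) :
    ((AA U T g).card : ℝ) ^ 2 ≤ U.card * (15 * D ^ 2 * ET U T 1 (4 * g ^ 2)) := by
  have hT0 : 0 < T := by linarith
  have hD1 : 1 ≤ D := by
    have := hD 1 le_rfl (by (clear * - hg; nlinarith))
    simpa using this
  set A := AA U T g with hA
  set W := (A ×ˢ A).filter (fun q => q.1.2 = q.2.2) with hW
  -- Cauchy-Schwarz
  have hmA : ∀ p ∈ A, p.2 ∈ U := by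
    intro p hp
    simp only [hA, AA, mem_filter, mem_product] at hp
    exact hp.1.2
  have hc1 : A.card = ∑ u ∈ U, (A.filter (fun p => p.2 = u)).card :=
    Finset.card_eq_sum_card_fiberwise hmA
  have hc2 : W.card = ∑ u ∈ U, (A.filter (fun p => p.2 = u)).card ^ 2 := by
    have hmW : ∀ q ∈ W, q.1.2 ∈ U := by
      intro q hq
      rw [hW, mem_filter, mem_product] at hq
      exact hmA _ hq.1.1
    rw [Finset.card_eq_sum_card_fiberwise hmW]
    refine Finset.sum_congr rfl fun u _ => ?_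
    rw [sq, ← card_product]
    congr 1
    ext q
    simp only [hW, mem_filter, mem_product]
    constructor
    · rintro ⟨⟨⟨h1, h2⟩, h3⟩, h4⟩
      exact ⟨⟨h1, h4⟩, h2, h3.symm.trans h4⟩
    · rintro ⟨⟨h1, h2⟩, h3, h4⟩
      exact ⟨⟨⟨h1, h3⟩, h2.trans h4.symm⟩, h2⟩
  have hCS : (A.card : ℝ) ^ 2 ≤ U.card * W.card := by
    rw [hc1, hc2]
    push_cast
    exact sq_sum_le_card_mul_sum_sq
  -- witnesses
  have hex : ∀ s : ℝ, ∃ w : ℕ × ℕ, (pr T g s).Nonempty → w ∈ pr T g s := by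
    intro s
    by_cases h : (pr T g s).Nonempty
    · obtain ⟨w, hw⟩ := h
      exact ⟨w, fun _ => hw⟩
    · exact ⟨(1, 1), fun h' => absurd h' h⟩
  choose wit hwit using hex
  set E2 : Finset ((ℝ × ℕ) × (ℝ × ℕ)) :=
    (((U ×ˢ Finset.Icc 1 (4 * g ^ 2)) ×ˢ (U ×ˢ Finset.Icc 1 (4 * g ^ 2))).filter
      (fun p => |(p.1.1 - Real.log p.1.2) - (p.2.1 - Real.log p.2.2)| ≤ 2 * (1 / T))) with hE2
  set F : (ℝ × ℝ) × (ℝ × ℝ) → (ℝ × ℕ) × (ℝ × ℕ) := fun q =>
    ((q.1.1, (wit (q.1.1 - q.1.2)).1 * (wit (q.2.1 - q.2.2)).2),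
      (q.2.1, (wit (q.1.1 - q.1.2)).2 * (wit (q.2.1 - q.2.2)).1)) with hF
  have hWfacts : ∀ q ∈ W, q.1.1 ∈ U ∧ q.2.1 ∈ U ∧ q.1.2 ∈ U ∧ q.1.2 = q.2.2 ∧
      wit (q.1.1 - q.1.2) ∈ pr T g (q.1.1 - q.1.2) ∧
      wit (q.2.1 - q.2.2) ∈ pr T g (q.2.1 - q.2.2) := by
    intro q hq
    simp only [hW, hA, AA, mem_filter, mem_product] at hq
    obtain ⟨⟨⟨⟨h1, h2⟩, h3⟩, ⟨h4, h5⟩, h6⟩, h7⟩ := hq
    exact ⟨h1, h4, h2, h7, hwit _ h3, hwit _ h6⟩
  have hmaps : ∀ q ∈ W, F q ∈ E2 := by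
    intro q hq
    obtain ⟨h1, h2, h3, h4, h5, h6⟩ := hWfacts q hq
    simp only [pr, mem_filter, mem_product, mem_Icc] at h5 h6
    obtain ⟨⟨⟨a1, a2⟩, a3, a4⟩, -, -, -, a5⟩ := h5
    obtain ⟨⟨⟨b1, b2⟩, b3, b4⟩, -, -, -, b5⟩ := h6
    set a := (wit (q.1.1 - q.1.2)).1
    set b := (wit (q.1.1 - q.1.2)).2
    set a' := (wit (q.2.1 - q.2.2)).1
    set b' := (wit (q.2.1 - q.2.2)).2
    have hb : ∀ x y : ℕ, x ≤ 2 * g → y ≤ 2 * g → x * y ≤ 4 * g ^ 2 := by
      intro x y hx hy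
      calc x * y ≤ (2 * g) * (2 * g) := Nat.mul_le_mul hx hy
        _ = 4 * g ^ 2 := by ring
    simp only [hE2, hF, mem_filter, mem_product, mem_Icc]
    refine ⟨⟨⟨h1, Nat.mul_pos a1 b3, hb _ _ a2 b4⟩, h2, Nat.mul_pos a3 b1, hb _ _ a4 b2⟩, ?_⟩
    have e1 : (0 : ℝ) < a := by exact_mod_cast a1
    have e2 : (0 : ℝ) < b := by exact_mod_cast a3
    have e3 : (0 : ℝ) < a' := by exact_mod_cast b1
    have e4 : (0 : ℝ) < b' := by exact_mod_cast b3
    push_cast
    rw [Real.log_mul e1.ne' e4.ne', Real.log_mul e2.ne' e3.ne']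
    have e5 : q.1.1 - (Real.log a + Real.log b') - (q.2.1 - (Real.log b + Real.log a')) =
        (q.1.1 - q.1.2 - (Real.log a - Real.log b)) -
          (q.2.1 - q.2.2 - (Real.log a' - Real.log b')) := by
      rw [h4]
      ring
    rw [e5]
    refine (abs_sub _ _).trans ?_
    (clear * - a5 b5; linarith)
  have hfib : ∀ e ∈ E2, ((W.filter (fun q => F q = e)).card : ℝ) ≤ 3 * D ^ 2 := by
    intro e he
    simp only [hE2, mem_filter, mem_product, mem_Icc] at he
    obtain ⟨⟨⟨e1, e2, e3⟩, e4, e5, e6⟩, -⟩ := he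
    set Bu := (e.1.2.divisors ×ˢ e.2.2.divisors).biUnion (fun ab =>
      U.filter (fun u => |e.1.1 - u - (Real.log ab.1 - Real.log ab.2)| ≤ 1 / T)) with hBu
    have h1 : (W.filter (fun q => F q = e)).card ≤ Bu.card := by
      refine Finset.card_le_card_of_injOn (fun q => q.1.2) ?_ ?_
      · intro q hq
        rw [mem_coe, mem_filter] at hq
        obtain ⟨hq, hqe⟩ := hq
        obtain ⟨h1, h2, h3, h4, h5, h6⟩ := hWfacts q hq
        simp only [pr, mem_filter, mem_product, mem_Icc] at h5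
        rw [mem_coe, hBu, mem_biUnion]
        refine ⟨wit (q.1.1 - q.1.2), ?_, ?_⟩
        · rw [mem_product, Nat.mem_divisors, Nat.mem_divisors]
          rw [← hqe]
          refine ⟨⟨Dvd.intro _ rfl, ?_⟩, Dvd.intro _ rfl, ?_⟩
          · rw [hqe]
            omega
          · rw [hqe]
            omega
        · rw [mem_filter]
          refine ⟨h3, ?_⟩
          have h7 : e.1.1 = q.1.1 := by rw [← hqe]
          rw [h7]
          exact h5.2.2.2.2
      · intro q hq q' hq' hqq'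
        rw [mem_coe, mem_filter] at hq hq'
        obtain ⟨hq, hqe⟩ := hq
        obtain ⟨hq', hqe'⟩ := hq'
        obtain ⟨-, -, -, h4, -, -⟩ := hWfacts q hq
        obtain ⟨-, -, -, h4', -, -⟩ := hWfacts q' hq'
        have h5 : F q = F q' := hqe.trans hqe'.symm
        simp only [hF, Prod.mk.injEq] at h5
        have h6 : q.1.2 = q'.1.2 := hqq'
        exact Prod.ext (Prod.ext h5.1.1 h6) (Prod.ext h5.2.1 (by rw [← h4, h6, h4']))
    have h2 : (Bu.card : ℝ) ≤ 3 * D ^ 2 := by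
      have h3 : Bu.card ≤ ∑ ab ∈ e.1.2.divisors ×ˢ e.2.2.divisors,
          (U.filter (fun u => |e.1.1 - u - (Real.log ab.1 - Real.log ab.2)| ≤ 1 / T)).card :=
        Finset.card_biUnion_le
      have h4 : ∀ ab ∈ e.1.2.divisors ×ˢ e.2.2.divisors,
          ((U.filter (fun u => |e.1.1 - u - (Real.log ab.1 - Real.log ab.2)| ≤ 1 / T)).card : ℝ) ≤
            3 := by
        intro ab _
        have h5 := card_spaced
          (U.filter (fun u => |e.1.1 - u - (Real.log ab.1 - Real.log ab.2)| ≤ 1 / T))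
          (fun u => u) (δ := 1 / T) (x := e.1.1 - (Real.log ab.1 - Real.log ab.2) - 1 / T)
          (ℓ := 2 / T) (by positivity) ?_ ?_ (by positivity)
        · refine h5.trans (le_of_eq ?_)
          field_simp
          norm_num
        · intro u hu u' hu' hne
          exact hU u (Finset.mem_filter.1 hu).1 u' (Finset.mem_filter.1 hu').1 hne
        · intro u hu
          have h6 := abs_le.1 (Finset.mem_filter.1 hu).2
          constructor
          · (clear * - h6; linarith [h6.2])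
          · have : e.1.1 - (Real.log ab.1 - Real.log ab.2) - 1 / T + 2 / T =
              e.1.1 - (Real.log ab.1 - Real.log ab.2) + 1 / T := by ring
            (clear * - h6 this; linarith [h6.1])
      have h5 : (Bu.card : ℝ) ≤ ∑ ab ∈ e.1.2.divisors ×ˢ e.2.2.divisors, (3 : ℝ) := by
        refine le_trans ?_ (Finset.sum_le_sum h4)
        exact_mod_cast h3
      rw [Finset.sum_const, card_product, nsmul_eq_mul] at h5
      push_cast at h5
      have h6 := hD _ e2 e3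
      have h7 := hD _ e5 e6
      have h8 : (e.1.2.divisors.card : ℝ) * (e.2.2.divisors.card : ℝ) ≤ D * D :=
        mul_le_mul h6 h7 (Nat.cast_nonneg _) (by (clear * - hD1; linarith))
      (clear * - h5 h8; nlinarith)
    have h3 : ((W.filter (fun q => F q = e)).card : ℝ) ≤ Bu.card := by exact_mod_cast h1
    exact h3.trans h2
  have hWE : (W.card : ℝ) ≤ 3 * D ^ 2 * E2.card := by
    rw [Finset.card_eq_sum_card_fiberwise hmaps]
    push_cast
    refine (Finset.sum_le_sum hfib).trans ?_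
    rw [Finset.sum_const, nsmul_eq_mul]
    exact le_of_eq (mul_comm _ _)
  have hpc : E2.card ≤ 5 * ET U T 1 (4 * g ^ 2) :=
    hPC (ℝ × ℕ) (U ×ˢ Icc 1 (4 * g ^ 2)) (fun p => p.1 - Real.log p.2) (1 / T) (by positivity)
  have hpc' : (E2.card : ℝ) ≤ 5 * ET U T 1 (4 * g ^ 2) := by exact_mod_cast hpc
  refine hCS.trans (mul_le_mul_of_nonneg_left ?_ (Nat.cast_nonneg _))
  calc (W.card : ℝ) ≤ 3 * D ^ 2 * E2.card := hWE
    _ ≤ 3 * D ^ 2 * (5 * ET U T 1 (4 * g ^ 2)) := mul_le_mul_of_nonneg_left hpc' (by positivity)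
    _ = 15 * D ^ 2 * ET U T 1 (4 * g ^ 2) := by ring

theorem card_le_AA_one {U : Finset ℝ} {T : ℝ} (hT : 1 ≤ T) : U.card ≤ (AA U T (2 ^ 0)).card := by
  refine Finset.card_le_card_of_injOn (fun u => (u, u)) ?_ ?_
  · intro u hu
    simp only [AA, mem_coe, mem_filter, mem_product]
    refine ⟨⟨hu, hu⟩, (1, 1), ?_⟩
    simp only [pr, mem_filter, mem_product, mem_Icc]
    have hT0 : (0 : ℝ) ≤ 1 / T := by (clear * - hT; positivity)
    refine ⟨⟨⟨by norm_num, by norm_num⟩, by norm_num, by norm_num⟩, by norm_num, by norm_num,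
      by norm_num, ?_⟩
    simp only [sub_self, abs_zero]
    exact hT0
  · intro u _ u' _ h
    exact (Prod.mk.inj h).1

/-- (3), (5): the extremal argument -/
theorem exists_M (hPC : PairCount) {U : Finset ℝ} {T D : ℝ} (hT : 1 ≤ T)
    (hU : SpacedR U (1 / T)) (hne : U.Nonempty)
    (hD : ∀ n : ℕ, 1 ≤ n → n ≤ 4 * U.card ^ 2 → (n.divisors.card : ℝ) ≤ D) :
    ∃ M : ℝ, (∀ i : ℕ, ((AA U T (2 ^ i)).card : ℝ) ≤ M * U.card * 2 ^ i) ∧
      M ≤ 120 * D ^ 3 * (1 + ((U.card : ℝ) ^ 3 / T) ^ (1 / 4 : ℝ)) := by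
  have hT0 : 0 < T := by linarith
  set R : ℝ := (U.card : ℝ) with hR
  have hR1n : 1 ≤ U.card := Finset.card_pos.2 hne
  have hR1 : 1 ≤ R := by
    rw [hR]
    exact_mod_cast hR1n
  have hR0 : 0 < R := by (clear * - hR1; linarith)
  have hD1 : 1 ≤ D := by
    have := hD 1 le_rfl (by (clear * - hR1n; nlinarith))
    simpa using this
  obtain ⟨i0, hi0, hmax⟩ := Finset.exists_max_image (range (U.card + 1))
    (fun i => ((AA U T (2 ^ i)).card : ℝ) / 2 ^ i) ⟨0, mem_range.2 (Nat.succ_pos _)⟩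
  set A0 : ℝ := ((AA U T (2 ^ i0)).card : ℝ) with hA0
  set M : ℝ := A0 / (R * 2 ^ i0) with hM
  have h2i : (0 : ℝ) < 2 ^ i0 := by positivity
  have hMR : M * R * 2 ^ i0 = A0 := by
    rw [hM]
    field_simp
  have hMR' : M * R = A0 / 2 ^ i0 := by
    rw [hM]
    (clear * - hR1; field_simp)
  have hAR : R ≤ M * R := by
    rw [hMR']
    have h1 := hmax 0 (mem_range.2 (Nat.succ_pos _))
    have h2 : (U.card : ℝ) ≤ ((AA U T (2 ^ 0)).card : ℝ) := by exact_mod_cast card_le_AA_one hT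
    refine le_trans ?_ h1
    have e0 : ((AA U T (2 ^ 0)).card : ℝ) / 2 ^ 0 = ((AA U T (2 ^ 0)).card : ℝ) := by
      rw [pow_zero, pow_zero, div_one]
    rw [e0]
    exact h2
  have hM1 : 1 ≤ M := by
    by_contra h
    have : M * R < 1 * R := mul_lt_mul_of_pos_right (not_le.1 h) hR0
    (clear * - hAR this; linarith)
  have hMall : ∀ i : ℕ, ((AA U T (2 ^ i)).card : ℝ) ≤ M * R * 2 ^ i := by
    intro i
    have h2i' : (0 : ℝ) < 2 ^ i := by positivity
    rw [← div_le_iff₀ h2i']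
    by_cases hi : i ∈ range (U.card + 1)
    · rw [hMR']
      exact hmax i hi
    · rw [mem_range, not_lt] at hi
      rw [div_le_iff₀ h2i']
      have h3 : ((AA U T (2 ^ i)).card : ℝ) ≤ R ^ 2 := by
        rw [hR]
        exact_mod_cast card_AA_le U T (2 ^ i)
      have h4 : (R : ℝ) ≤ 2 ^ i := by
        have h5 : U.card ≤ 2 ^ U.card := Nat.lt_two_pow_self.le
        have h6 : 2 ^ U.card ≤ 2 ^ i := Nat.pow_le_pow_right (by norm_num) (by omega)
        have h7 : U.card ≤ 2 ^ i := h5.trans h6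
        rw [hR]
        exact_mod_cast h7
      calc ((AA U T (2 ^ i)).card : ℝ) ≤ R ^ 2 := h3
        _ = R * R := sq R
        _ ≤ (M * R) * 2 ^ i := mul_le_mul hAR h4 hR0.le (by (clear * - hM1 hne; positivity))
  refine ⟨M, hMall, ?_⟩
  -- `M g ≤ R`
  have hMg : M * 2 ^ i0 ≤ R := by
    have h3 : A0 ≤ R ^ 2 := by
      have : (AA U T (2 ^ i0)).card ≤ U.card ^ 2 := card_AA_le U T _
      rw [hA0, hR]
      exact_mod_cast this
    have h4 : (M * 2 ^ i0) * R ≤ R * R := by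
      calc (M * 2 ^ i0) * R = M * R * 2 ^ i0 := by ring
        _ = A0 := hMR
        _ ≤ R ^ 2 := h3
        _ = R * R := sq R
    exact le_of_mul_le_mul_right h4 hR0
  have hgR : (2 : ℝ) ^ i0 ≤ R := by
    have : 1 * (2 : ℝ) ^ i0 ≤ M * 2 ^ i0 := mul_le_mul_of_nonneg_right hM1 h2i.le
    (clear * - hMg this; linarith)
  have hgRn : 2 ^ i0 ≤ U.card := by
    rw [hR] at hgR
    exact_mod_cast hgR
  have hg2 : 4 * (2 ^ i0) ^ 2 ≤ 4 * U.card ^ 2 :=
    Nat.mul_le_mul_left _ (Nat.pow_le_pow_left hgRn 2)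
  have hDg : ∀ n : ℕ, 1 ≤ n → n ≤ 4 * (2 ^ i0) ^ 2 → (n.divisors.card : ℝ) ≤ D :=
    fun n h1 h2 => hD n h1 (h2.trans hg2)
  have hQ1 : 1 ≤ 4 * (2 ^ i0) ^ 2 := by
    have : 1 ≤ 2 ^ i0 := Nat.one_le_two_pow
    (clear * - this; nlinarith)
  have htw := two_walks hPC hT hU (g := 2 ^ i0) Nat.one_le_two_pow hDg
  have hET := ET_le (U := U) hT hQ1 hMall
  have hLam : ((Nat.log 2 (4 * (2 ^ i0) ^ 2) + 1 : ℕ) : ℝ) ≤ D := by
    have h5 := hDg (2 ^ Nat.log 2 (4 * (2 ^ i0) ^ 2)) Nat.one_le_two_pow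
      (Nat.pow_log_le_self 2 (by omega))
    rw [Nat.divisors_prime_pow Nat.prime_two, Finset.card_map, Finset.card_range] at h5
    exact h5
  set ρ : ℝ := (R ^ 3 / T) ^ (1 / 4 : ℝ) with hρ
  have hρ0 : 0 ≤ ρ := by (clear * - hne hT; positivity)
  have hρ4 : ρ ^ 4 = R ^ 3 / T := by
    rw [hρ, ← Real.rpow_natCast, ← Real.rpow_mul (by (clear * - hne hT; positivity))]
    norm_num
  -- main inequality
  set G : ℝ := 2 ^ i0 with hG
  have hmain : M ^ 4 ≤ 60 * D ^ 3 * M ^ 3 + 3840 * D ^ 2 * ρ ^ 4 := by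
    have h6 : (M * R * G) ^ 2 ≤
        R * (15 * D ^ 2 * (D * (M * R * (4 * G ^ 2)) + 16 * R ^ 2 * (4 * G ^ 2) ^ 2 / T)) := by
      rw [hMR]
      refine htw.trans ?_
      refine mul_le_mul_of_nonneg_left ?_ hR0.le
      refine mul_le_mul_of_nonneg_left ?_ (by positivity)
      refine hET.trans ?_
      push_cast
      refine add_le_add ?_ le_rfl
      refine mul_le_mul_of_nonneg_right ?_ (by (clear * - hM1 hne; positivity))
      push_cast at hLam
      exact hLam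
    have h7 : (M * R * G) ^ 2 = M ^ 2 * (R ^ 2 * G ^ 2) := by ring
    have h8 : R * (15 * D ^ 2 * (D * (M * R * (4 * G ^ 2)) + 16 * R ^ 2 * (4 * G ^ 2) ^ 2 / T)) =
        (60 * D ^ 3 * M + 3840 * D ^ 2 * (R / T) * G ^ 2) * (R ^ 2 * G ^ 2) := by
      field_simp
      ring
    rw [h7, h8] at h6
    have h9 : M ^ 2 ≤ 60 * D ^ 3 * M + 3840 * D ^ 2 * (R / T) * G ^ 2 :=
      le_of_mul_le_mul_right h6 (by (clear * - hne; positivity))
    have h10 : M ^ 2 * G ^ 2 ≤ R ^ 2 := by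
      rw [← mul_pow]
      exact pow_le_pow_left₀ (by (clear * - hM1; positivity)) hMg 2
    calc M ^ 4 = M ^ 2 * M ^ 2 := by ring
      _ ≤ M ^ 2 * (60 * D ^ 3 * M + 3840 * D ^ 2 * (R / T) * G ^ 2) :=
          mul_le_mul_of_nonneg_left h9 (by (clear * - hM1; positivity))
      _ = 60 * D ^ 3 * M ^ 3 + 3840 * D ^ 2 * (R / T) * (M ^ 2 * G ^ 2) := by ring
      _ ≤ 60 * D ^ 3 * M ^ 3 + 3840 * D ^ 2 * (R / T) * R ^ 2 := by
          refine add_le_add le_rfl (mul_le_mul_of_nonneg_left h10 (by (clear * - hD1 hne hT; positivity)))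
      _ = 60 * D ^ 3 * M ^ 3 + 3840 * D ^ 2 * ρ ^ 4 := by
          rw [hρ4]
          ring
  by_contra hcon
  rw [not_le] at hcon
  have hD3 : 1 ≤ D ^ 3 := one_le_pow₀ hD1
  have hM0 : 0 < M := by (clear * - hM1; linarith)
  have k1 : 120 * D ^ 3 ≤ M := by (clear * - hρ0 hcon hD3; nlinarith)
  have k2 : 60 * D ^ 3 * M ^ 3 ≤ M ^ 4 / 2 := by
    have : 60 * D ^ 3 * M ^ 3 ≤ M / 2 * M ^ 3 :=
      mul_le_mul_of_nonneg_right (by (clear * - k1; linarith)) (by (clear * - hM1; positivity))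
    calc 60 * D ^ 3 * M ^ 3 ≤ M / 2 * M ^ 3 := this
      _ = M ^ 4 / 2 := by ring
  have k3 : 120 * D * ρ ≤ M := by
    have k4 : D ≤ D ^ 3 := le_self_pow₀ hD1 (by norm_num)
    (clear * - hcon hD3 hρ0 k4; nlinarith)
  have k5 : (120 * D * ρ) ^ 4 ≤ M ^ 4 := pow_le_pow_left₀ (by (clear * - hD1 hne hT; positivity)) k3 4
  have k6 : 3840 * D ^ 2 * ρ ^ 4 * 54000 ≤ (120 * D * ρ) ^ 4 := by
    have k7 : (120 * D * ρ) ^ 4 = 207360000 * (D ^ 4 * ρ ^ 4) := by ring
    have k8 : D ^ 2 * ρ ^ 4 ≤ D ^ 4 * ρ ^ 4 :=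
      mul_le_mul_of_nonneg_right (pow_le_pow_right₀ hD1 (by norm_num)) (by (clear * - hne hT; positivity))
    rw [k7]
    (clear * - k8; nlinarith)
  have k9 : 0 < M ^ 4 := by (clear * - hM1; positivity)
  (clear * - hmain k2 k5 k6 k9; linarith)

/-- (6.6) -/
theorem twoWalk (hPC : PairCount) : TwoWalk := by
  intro h ε hh hε
  set ε1 : ℝ := min ε 1 / 20 with hε1
  have hmin : 0 < min ε 1 := lt_min hε one_pos
  have hε10 : 0 < ε1 := by positivity
  have hε11 : ε1 ≤ 1 := by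
    have := min_le_right ε 1
    rw [hε1]
    (clear * - hε1 hε10 this; linarith)
  have hε20 : 20 * ε1 ≤ ε := by
    have := min_le_left ε 1
    rw [hε1]
    (clear * - this; linarith)
  obtain ⟨C1, hC1, hdiv⟩ := Pool.Agent.M17.Helper89.SLE.divisor_bound ε1 hε10
  have hC10 : 0 < C1 := by (clear * - hC1; linarith)
  have hh0 : (0 : ℝ) < h := by exact_mod_cast hh
  refine ⟨120 * C1 ^ 4 * h ^ 2 + 16 * h ^ 2, by (clear * - hC1 hh; positivity), ?_⟩
  intro X T u0 U Q hX hT hTX hQ hQX hUI hUs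
  have hX0 : 0 < X := by (clear * - hX; linarith)
  have hX1 : 1 ≤ X := by (clear * - hX; linarith)
  have hT0 : 0 < T := by (clear * - hT; linarith)
  have hQ0 : (0 : ℝ) < Q := by exact_mod_cast hQ
  rcases U.eq_empty_or_nonempty with hU0 | hne
  · have : ET U T Q (h * Q) = 0 := by
      rw [hU0]
      simp [ET]
    rw [this]
    simp only [Nat.cast_zero]
    (clear * - hC1 hh hX hQ hT; positivity)
  set R : ℝ := (U.card : ℝ) with hR
  have hR0 : 0 ≤ R := Nat.cast_nonneg _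
  -- `R ≤ 1 + T`
  have hRT : R ≤ 1 + T := by
    have := card_spaced U (fun u => u) (δ := 1 / T) (x := u0) (ℓ := 1) (by positivity)
      (fun u hu u' hu' hne => hUs u hu u' hu' hne) (fun u hu => hUI u hu) (by norm_num)
    simpa using this
  have hR2X : R ≤ 2 * X := by (clear * - hX hTX hRT; linarith)
  have h4R : 4 * R ^ 2 ≤ X ^ 6 := by
    have e1 : R ^ 2 ≤ (2 * X) ^ 2 := pow_le_pow_left₀ hR0 hR2X 2
    have e2 : (2 : ℝ) ^ 4 ≤ X ^ 4 := pow_le_pow_left₀ (by norm_num) hX 4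
    have e3 : (16 : ℝ) * X ^ 2 ≤ X ^ 4 * X ^ 2 :=
      mul_le_mul_of_nonneg_right (by (clear * - e2; linarith)) (by positivity)
    (clear * - e1 e3; nlinarith)
  set D : ℝ := C1 * (X ^ 6) ^ ε1 with hD
  have hDn : ∀ n : ℕ, 1 ≤ n → n ≤ 4 * U.card ^ 2 → (n.divisors.card : ℝ) ≤ D := by
    intro n h1 h2
    refine (hdiv n h1).trans ?_
    refine mul_le_mul_of_nonneg_left ?_ hC10.le
    refine Real.rpow_le_rpow (Nat.cast_nonneg _) ?_ hε10.le
    have h3 : (n : ℝ) ≤ 4 * R ^ 2 := by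
      rw [hR]
      exact_mod_cast h2
    exact h3.trans h4R
  obtain ⟨M, hM, hMle⟩ := exists_M hPC hT hUs hne hDn
  have hQ' : 1 ≤ h * Q := Nat.mul_pos hh hQ
  have h1 := ET_le (U := U) hT hQ' hM
  have h2 : (ET U T Q (h * Q) : ℝ) ≤ ET U T 1 (h * Q) := by exact_mod_cast ET_mono hQ
  refine h2.trans (h1.trans ?_)
  set ρ : ℝ := (R ^ 3 / T) ^ (1 / 4 : ℝ) with hρ
  have hρ0 : 0 ≤ ρ := by (clear * - hne hT; positivity)
  -- the logarithm
  have hlog : ((Nat.log 2 (h * Q) + 1 : ℕ) : ℝ) ≤ C1 * (h * (X ^ 2) ^ ε1) := by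
    have e1 := hdiv (2 ^ Nat.log 2 (h * Q)) (by positivity)
    rw [Nat.divisors_prime_pow Nat.prime_two, Finset.card_map, Finset.card_range] at e1
    refine e1.trans (mul_le_mul_of_nonneg_left ?_ hC10.le)
    have e2 : ((2 ^ Nat.log 2 (h * Q) : ℕ) : ℝ) ≤ h * Q := by
      have : 2 ^ Nat.log 2 (h * Q) ≤ h * Q := Nat.pow_log_le_self 2 (by omega)
      exact_mod_cast this
    refine (Real.rpow_le_rpow (Nat.cast_nonneg _) e2 hε10.le).trans ?_
    rw [Real.mul_rpow hh0.le hQ0.le]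
    refine mul_le_mul ?_ (Real.rpow_le_rpow hQ0.le hQX hε10.le) (by positivity) hh0.le
    have e3 : (1 : ℝ) ≤ h := by exact_mod_cast hh
    calc (h : ℝ) ^ ε1 ≤ (h : ℝ) ^ (1 : ℝ) := Real.rpow_le_rpow_of_exponent_le e3 hε11
      _ = h := Real.rpow_one _
  -- powers of `X`
  have hXX : (X ^ 2) ^ ε1 * ((X ^ 6) ^ ε1) ^ 3 ≤ X ^ ε := by
    have e1 : (X ^ 2) ^ ε1 = X ^ (2 * ε1) := by
      rw [← Real.rpow_natCast, ← Real.rpow_mul hX0.le]
      norm_num
    have e2 : ((X ^ 6) ^ ε1) ^ 3 = X ^ (18 * ε1) := by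
      rw [← Real.rpow_natCast, ← Real.rpow_natCast, ← Real.rpow_mul hX0.le,
        ← Real.rpow_mul hX0.le]
      congr 1
      push_cast
      ring
    rw [e1, e2, ← Real.rpow_add hX0]
    exact Real.rpow_le_rpow_of_exponent_le hX1 (by (clear * - hε20; linarith))
  have hXε : 1 ≤ X ^ ε := Real.one_le_rpow hX1 hε.le
  have hD0 : 0 ≤ D := by positivity
  have t1 : ((Nat.log 2 (h * Q) + 1 : ℕ) : ℝ) * (M * R * ((h * Q : ℕ) : ℝ)) ≤
      (120 * C1 ^ 4 * h ^ 2) * X ^ ε * (R * Q * (1 + ρ)) := by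
    push_cast
    calc ((Nat.log 2 (h * Q) : ℝ) + 1) * (M * R * ((h : ℝ) * Q))
        ≤ (C1 * (h * (X ^ 2) ^ ε1)) * ((120 * D ^ 3 * (1 + ρ)) * R * ((h : ℝ) * Q)) := by
          push_cast at hlog
          have e1 : M * R * ((h : ℝ) * Q) ≤ (120 * D ^ 3 * (1 + ρ)) * R * ((h : ℝ) * Q) := by
            refine mul_le_mul_of_nonneg_right ?_ (by positivity)
            exact mul_le_mul_of_nonneg_right hMle hR0
          calc ((Nat.log 2 (h * Q) : ℝ) + 1) * (M * R * ((h : ℝ) * Q))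
              ≤ ((Nat.log 2 (h * Q) : ℝ) + 1) * ((120 * D ^ 3 * (1 + ρ)) * R * ((h : ℝ) * Q)) :=
                mul_le_mul_of_nonneg_left e1 (by (clear * -; positivity))
            _ ≤ _ := mul_le_mul_of_nonneg_right hlog (by (clear * - hC1 hX hne hT hh hQ; positivity))
      _ = (120 * C1 ^ 4 * h ^ 2) * ((X ^ 2) ^ ε1 * ((X ^ 6) ^ ε1) ^ 3) * (R * Q * (1 + ρ)) := by
          rw [hD]
          ring
      _ ≤ (120 * C1 ^ 4 * h ^ 2) * X ^ ε * (R * Q * (1 + ρ)) := by
          refine mul_le_mul_of_nonneg_right ?_ (by (clear * - hne hQ hT; positivity))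
          exact mul_le_mul_of_nonneg_left hXX (by positivity)
  have t2 : 16 * R ^ 2 * ((h * Q : ℕ) : ℝ) ^ 2 / T ≤ (16 * h ^ 2) * X ^ ε * (R ^ 2 * Q ^ 2 / T) := by
    push_cast
    calc 16 * R ^ 2 * ((h : ℝ) * Q) ^ 2 / T = (16 * h ^ 2) * 1 * (R ^ 2 * Q ^ 2 / T) := by ring
      _ ≤ (16 * h ^ 2) * X ^ ε * (R ^ 2 * Q ^ 2 / T) := by
          refine mul_le_mul_of_nonneg_right ?_ (by (clear * - hne hQ hT; positivity))
          exact mul_le_mul_of_nonneg_left hXε (by positivity)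
  have t3 : 0 ≤ (120 * C1 ^ 4 * h ^ 2) * X ^ ε * (R ^ 2 * Q ^ 2 / T) := by (clear * - hC1 hh hX hne hQ hT; positivity)
  have t4 : 0 ≤ (16 * (h : ℝ) ^ 2) * X ^ ε * (R * Q * (1 + ρ)) := by (clear * - hh hX hne hQ hT; positivity)
  calc ((Nat.log 2 (h * Q) + 1 : ℕ) : ℝ) * (M * R * ((h * Q : ℕ) : ℝ)) +
        16 * R ^ 2 * ((h * Q : ℕ) : ℝ) ^ 2 / T
      ≤ (120 * C1 ^ 4 * h ^ 2) * X ^ ε * (R * Q * (1 + ρ)) +
        (16 * h ^ 2) * X ^ ε * (R ^ 2 * Q ^ 2 / T) := add_le_add t1 t2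
    _ ≤ (120 * C1 ^ 4 * h ^ 2) * X ^ ε * (R * Q * (1 + ρ)) +
        (16 * h ^ 2) * X ^ ε * (R ^ 2 * Q ^ 2 / T) +
        (120 * C1 ^ 4 * h ^ 2) * X ^ ε * (R ^ 2 * Q ^ 2 / T) +
        (16 * (h : ℝ) ^ 2) * X ^ ε * (R * Q * (1 + ρ)) := by (clear * - t3 t4; linarith)
    _ = (120 * C1 ^ 4 * h ^ 2 + 16 * h ^ 2) * X ^ ε * (R * Q * (1 + ρ) + R ^ 2 * Q ^ 2 / T) := by
        ring

end Pool.Agent.M17.Helper71.KC
end

/- Helper53.KN.Helper9.AV.Mertens3 -/
section
/-!
# Project AV, module AV1: Mertens' third theorem with the constant `exp (-γ)`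
-/

set_option autoImplicit false

open Filter Topology MeasureTheory Set

namespace Pool.Agent.M17.Helper9.AV

open Pool.Agent.M17.Helper44 (primesUpTo mem_primesUpTo mertens_interval one_sub_ge_exp')
open Pool.Agent.M17.Helper40.AV

/-! ### the general integral formula -/

theorem int_Ici (a c : ℝ) (ha : 0 ≤ a) :
    IntegrableOn (fun t : ℝ => if a ≤ t then c * Real.exp (-t) else 0) (Ioi 0) ∧
    ∫ t in Ioi (0 : ℝ), (if a ≤ t then c * Real.exp (-t) else 0) = c * Real.exp (-a) := by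
  have e : (fun t : ℝ => if a ≤ t then c * Real.exp (-t) else 0) =
      (Ici a).indicator (fun t => c * Real.exp (-t)) := by
    funext t
    simp only [indicator, mem_Ici]
  have hint : IntegrableOn (fun t : ℝ => c * Real.exp (-t)) (Ioi 0) :=
    (integrableOn_exp_neg_Ioi 0).const_mul c
  refine ⟨?_, ?_⟩
  · rw [e]
    exact hint.indicator measurableSet_Ici
  · rw [e, setIntegral_indicator measurableSet_Ici]
    have h1 : (Ioi 0 ∩ Ici a : Set ℝ) =ᵐ[volume] Ioi a := by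
      have h2 : (Ioi 0 ∩ Ici a : Set ℝ) =ᵐ[volume] (Ioi 0 ∩ Ioi a : Set ℝ) :=
        (ae_eq_refl _).inter Ioi_ae_eq_Ici.symm
      rw [Ioi_inter_Ioi, sup_eq_right.2 ha] at h2
      exact h2
    rw [setIntegral_congr_set h1, integral_const_mul, integral_exp_neg_Ioi]

theorem laplace (c lam : ℕ → ℝ) (hc : ∀ n, 0 ≤ c n) (hl : ∀ n, 0 ≤ lam n) (δ : ℝ) (hδ : 0 < δ)
    (hs : Summable fun n => c n * Real.exp (-(δ * lam n))) (S : ℝ → ℝ)
    (hS : ∀ u, 0 < u → HasSum (fun n => if lam n ≤ u then c n else 0) (S u)) :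
    ∫ t in Ioi (0 : ℝ), S (t / δ) * Real.exp (-t) = ∑' n, c n * Real.exp (-(δ * lam n)) := by
  have h1 : ∀ n, 0 ≤ δ * lam n := fun n => mul_nonneg hδ.le (hl n)
  have h2 := hasSum_integral_of_summable_integral_norm (μ := volume.restrict (Ioi (0 : ℝ)))
    (F := fun (n : ℕ) (t : ℝ) => if δ * lam n ≤ t then c n * Real.exp (-t) else 0)
    (fun n => (int_Ici (δ * lam n) (c n) (h1 n)).1) ?_
  · have h3 := h2.tsum_eq
    rw [← tsum_congr fun n => (int_Ici (δ * lam n) (c n) (h1 n)).2, h3]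
    refine setIntegral_congr_fun measurableSet_Ioi ?_
    intro t ht
    have ht' : 0 < t / δ := div_pos ht hδ
    have h4 := (hS _ ht').mul_right (Real.exp (-t))
    have h5 : (fun n => (if lam n ≤ t / δ then c n else 0) * Real.exp (-t)) =
        fun n => if δ * lam n ≤ t then c n * Real.exp (-t) else 0 := by
      funext n
      have : lam n ≤ t / δ ↔ δ * lam n ≤ t := le_div_iff₀' hδ
      by_cases h6 : lam n ≤ t / δ
      · rw [if_pos h6, if_pos (this.1 h6)]
      · rw [if_neg h6, if_neg fun h => h6 (this.2 h), zero_mul]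
    rw [h5] at h4
    exact h4.tsum_eq.symm
  · refine hs.congr fun n => ?_
    rw [← (int_Ici (δ * lam n) (c n) (h1 n)).2]
    refine setIntegral_congr_fun measurableSet_Ioi ?_
    intro t _
    show _ = ‖_‖
    dsimp only
    split_ifs
    · rw [Real.norm_of_nonneg (mul_nonneg (hc n) (Real.exp_pos _).le)]
    · rw [norm_zero]

/-- the Abelian theorem -/
theorem abel (G : ℝ → ℝ) (κ M : ℝ) (hm : Measurable G) (hM : ∀ u, 0 < u → |G u| ≤ M)
    (hG : Tendsto G atTop (𝓝 κ)) :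
    Tendsto (fun δ : ℝ => ∫ t in Ioi (0 : ℝ), G (t / δ) * Real.exp (-t)) (𝓝[>] 0) (𝓝 κ) := by
  have h1 : ∫ t in Ioi (0 : ℝ), κ * Real.exp (-t) = κ := by
    rw [integral_const_mul, integral_exp_neg_Ioi, neg_zero, Real.exp_zero, mul_one]
  rw [← h1]
  refine tendsto_integral_filter_of_dominated_convergence (fun t => M * Real.exp (-t)) ?_ ?_ ?_ ?_
  · refine Eventually.of_forall fun δ => ?_
    refine Measurable.aestronglyMeasurable ?_
    exact (hm.comp (measurable_id.div_const δ)).mul (Real.measurable_exp.comp measurable_neg)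
  · filter_upwards [self_mem_nhdsWithin] with δ hδ
    refine (ae_restrict_iff' measurableSet_Ioi).2 (Eventually.of_forall fun t ht => ?_)
    rw [Real.norm_eq_abs, abs_mul, abs_of_pos (Real.exp_pos _)]
    exact mul_le_mul_of_nonneg_right (hM _ (div_pos ht hδ)) (Real.exp_pos _).le
  · exact (integrableOn_exp_neg_Ioi 0).const_mul M
  · refine (ae_restrict_iff' measurableSet_Ioi).2 (Eventually.of_forall fun t ht => ?_)
    refine Tendsto.mul_const _ (hG.comp ?_)
    have h2 : Tendsto (fun δ : ℝ => t * δ⁻¹) (𝓝[>] 0) atTop :=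
      tendsto_inv_nhdsGT_zero.const_mul_atTop ht
    exact h2

/-! ### the two step functions -/

/-- `-log (1 - 1 / p)` on the primes -/
noncomputable def ca (n : ℕ) : ℝ := if n.Prime then -Real.log (1 - 1 / n) else 0

theorem neg_log_bounds {x : ℝ} (h0 : 0 ≤ x) (h1 : x ≤ 1 / 2) :
    x ≤ -Real.log (1 - x) ∧ -Real.log (1 - x) ≤ x + 2 * x ^ 2 := by
  have h2 : 0 < 1 - x := by (clear * - h1; linarith)
  refine ⟨?_, ?_⟩
  · have := Real.log_le_sub_one_of_pos h2
    (clear * - this; linarith)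
  · have h3 := Real.log_le_log (Real.exp_pos _) (one_sub_ge_exp' h0 h1)
    rw [Real.log_exp] at h3
    linarith

theorem inv_prime_bounds {n : ℕ} (hn : n.Prime) : (0 : ℝ) ≤ 1 / n ∧ (1 : ℝ) / n ≤ 1 / 2 := by
  have : (2 : ℝ) ≤ n := by exact_mod_cast hn.two_le
  exact ⟨by (clear * - this; positivity), one_div_le_one_div_of_le (by norm_num) this⟩

theorem ca_nonneg (n : ℕ) : 0 ≤ ca n := by
  unfold ca
  split_ifs with h
  · obtain ⟨h1, h2⟩ := inv_prime_bounds h
    exact h1.trans (neg_log_bounds h1 h2).1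
  · exact le_rfl

theorem ca_le (n : ℕ) : ca n ≤ 2 / n := by
  unfold ca
  split_ifs with h
  · obtain ⟨h1, h2⟩ := inv_prime_bounds h
    have h3 := (neg_log_bounds h1 h2).2
    have h4 : (2 : ℝ) / n = 2 * (1 / n) := by ring
    rw [h4]
    (clear * - h3 h1 h2; nlinarith)
  · (clear * -; positivity)

/-- the sum of `ca` up to `exp u` -/
noncomputable def S1 (u : ℝ) : ℝ := ∑ p ∈ primesUpTo (Real.exp u), ca p

/-- the harmonic sum up to `u` -/
noncomputable def S2 (u : ℝ) : ℝ := ∑ n ∈ Finset.Ioc 0 ⌊u⌋₊, (1 : ℝ) / n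

theorem S1_hasSum (u : ℝ) : HasSum (fun n : ℕ => if Real.log n ≤ u then ca n else 0) (S1 u) := by
  have h : S1 u = ∑ n ∈ primesUpTo (Real.exp u), if Real.log n ≤ u then ca n else 0 := by
    unfold S1
    refine Finset.sum_congr rfl fun n hn => ?_
    rw [mem_primesUpTo (Real.exp_pos _).le] at hn
    have hpos : (0 : ℝ) < n := by exact_mod_cast hn.1.pos
    rw [if_pos]
    rw [← Real.log_exp u]
    exact Real.log_le_log hpos hn.2
  rw [h]
  refine hasSum_sum_of_ne_finset_zero fun n hn => ?_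
  rw [mem_primesUpTo (Real.exp_pos _).le] at hn
  by_cases hp : n.Prime
  · have hpos : (0 : ℝ) < n := by exact_mod_cast hp.pos
    rw [if_neg]
    intro h1
    apply hn
    refine ⟨hp, ?_⟩
    rw [← Real.exp_log hpos]
    exact Real.exp_le_exp.2 h1
  · unfold ca
    rw [if_neg hp, ite_self]

theorem S2_hasSum (u : ℝ) (hu : 0 < u) :
    HasSum (fun n : ℕ => if (n : ℝ) ≤ u then (1 : ℝ) / n else 0) (S2 u) := by
  have h : S2 u = ∑ n ∈ Finset.Ioc 0 ⌊u⌋₊, if (n : ℝ) ≤ u then (1 : ℝ) / n else 0 := by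
    unfold S2
    refine Finset.sum_congr rfl fun n hn => ?_
    rw [Finset.mem_Ioc] at hn
    rw [if_pos ((Nat.le_floor_iff hu.le).1 hn.2)]
  rw [h]
  refine hasSum_sum_of_ne_finset_zero fun n hn => ?_
  rw [Finset.mem_Ioc, not_and_or] at hn
  rcases hn with hn | hn
  · have : n = 0 := by omega
    subst this
    simp
  · rw [if_neg]
    intro h1
    exact hn ((Nat.le_floor_iff hu.le).2 h1)

theorem S1_mono : Monotone S1 := by
  intro u v huv
  unfold S1
  refine Finset.sum_le_sum_of_subset_of_nonneg ?_ fun n _ _ => ca_nonneg n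
  intro n hn
  rw [mem_primesUpTo (Real.exp_pos _).le] at hn ⊢
  exact ⟨hn.1, hn.2.trans (Real.exp_le_exp.2 huv)⟩

theorem S2_mono : Monotone S2 := by
  intro u v huv
  unfold S2
  refine Finset.sum_le_sum_of_subset_of_nonneg ?_ fun n _ _ => by positivity
  exact Finset.Ioc_subset_Ioc le_rfl (Nat.floor_mono huv)

theorem S1_nonneg (u : ℝ) : 0 ≤ S1 u := Finset.sum_nonneg fun n _ => ca_nonneg n

theorem S2_nonneg (u : ℝ) : 0 ≤ S2 u := Finset.sum_nonneg fun n _ => by positivity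

theorem S2_le {u : ℝ} (hu : 0 ≤ u) : S2 u ≤ u := by
  have h1 : S2 u ≤ ∑ n ∈ Finset.Ioc 0 ⌊u⌋₊, (1 : ℝ) := by
    unfold S2
    refine Finset.sum_le_sum fun n hn => ?_
    rw [Finset.mem_Ioc] at hn
    rw [div_le_one (by exact_mod_cast hn.1)]
    exact_mod_cast hn.1
  rw [Finset.sum_const, Nat.card_Ioc, nsmul_eq_mul, mul_one, Nat.sub_zero] at h1
  exact h1.trans (Nat.floor_le hu)

/-! ### asymptotics of the step functions -/

theorem S2_lim : Tendsto (fun u => S2 u - Real.log u) atTop (𝓝 Real.eulerMascheroniConstant) := by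
  have h1 : Tendsto (fun u : ℝ => ((harmonic ⌊u⌋₊ : ℚ) : ℝ) - Real.log (⌊u⌋₊ : ℝ)) atTop
      (𝓝 Real.eulerMascheroniConstant) := Real.tendsto_harmonic_sub_log.comp tendsto_nat_floor_atTop
  have h2 : Tendsto (fun u : ℝ => Real.log ((⌊u⌋₊ : ℝ) / u)) atTop (𝓝 0) := by
    have h3 := (Real.continuousAt_log one_ne_zero).tendsto.comp
      (tendsto_nat_floor_div_atTop (R := ℝ))
    rw [Real.log_one] at h3
    exact h3
  have h3 := h1.add h2
  rw [add_zero] at h3
  refine h3.congr' ?_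
  filter_upwards [eventually_ge_atTop (1 : ℝ)] with u hu
  have hf : (0 : ℝ) < ⌊u⌋₊ := by
    have : 1 ≤ ⌊u⌋₊ := by rwa [Nat.one_le_floor_iff]
    exact_mod_cast this
  rw [Real.log_div hf.ne' (by linarith)]
  have h4 : ((harmonic ⌊u⌋₊ : ℚ) : ℝ) = S2 u := by
    unfold S2
    rw [harmonic_eq_sum_Icc]
    push_cast
    refine Finset.sum_congr ?_ fun n _ => by rw [one_div]
    ext n
    simp only [Finset.mem_Icc, Finset.mem_Ioc]
    omega
  rw [h4]
  ring

theorem S1_lim : ∃ C1 : ℝ, Tendsto (fun u => S1 u - Real.log u) atTop (𝓝 C1) := by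
  -- the absolutely convergent part
  let f : ℕ → ℝ := fun n => if n.Prime then ca n - 1 / n else 0
  have hf : Summable f := by
    refine Summable.of_nonneg_of_le ?_ ?_ ((Real.summable_one_div_nat_pow.mpr
      (by norm_num : 1 < 2)).mul_left 2)
    · intro n
      show 0 ≤ (if n.Prime then ca n - 1 / n else 0)
      split_ifs with h
      · obtain ⟨h1, h2⟩ := inv_prime_bounds h
        have := (neg_log_bounds h1 h2).1
        unfold ca
        rw [if_pos h]
        (clear * - this; linarith)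
      · exact le_rfl
    · intro n
      show (if n.Prime then ca n - 1 / n else 0) ≤ _
      split_ifs with h
      · obtain ⟨h1, h2⟩ := inv_prime_bounds h
        have := (neg_log_bounds h1 h2).2
        unfold ca
        rw [if_pos h]
        rw [div_pow, one_pow] at this
        (clear * - this; linarith)
      · positivity
  have hlim1 : Tendsto (fun u : ℝ => ∑ n ∈ Finset.range (⌊Real.exp u⌋₊ + 1), f n) atTop
      (𝓝 (∑' n, f n)) := by
    refine hf.hasSum.tendsto_sum_nat.comp ?_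
    exact (tendsto_add_atTop_nat 1).comp (tendsto_nat_floor_atTop.comp Real.tendsto_exp_atTop)
  -- the sum of `1 / p`
  obtain ⟨C, hC, hM⟩ := mertens_interval
  let g : ℝ → ℝ := fun u => ∑ p ∈ primesUpTo (Real.exp u), (1 : ℝ) / p - Real.log u
  have hdiff : ∀ u v : ℝ, 1 ≤ u → u ≤ v → |g v - g u| ≤ C / u := by
    intro u v hu huv
    have h2 : (2 : ℝ) ≤ Real.exp u := by
      have := Real.add_one_le_exp u
      linarith
    have h1 := hM (Real.exp u) (Real.exp v) h2 (Real.exp_le_exp.2 huv)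
    rw [Real.log_exp, Real.log_exp, Real.log_div (by (clear * - hu huv; linarith)) (by linarith)] at h1
    have h3 : primesUpTo (Real.exp v) = primesUpTo (Real.exp u) ∪
        (Finset.Ioc ⌊Real.exp u⌋₊ ⌊Real.exp v⌋₊).filter Nat.Prime := by
      unfold Pool.Agent.M17.Helper44.primesUpTo
      rw [← Finset.filter_union, Finset.Ioc_union_Ioc_eq_Ioc (Nat.zero_le _)
        (Nat.floor_mono (Real.exp_le_exp.2 huv))]
    have h4 : Disjoint (primesUpTo (Real.exp u))
        ((Finset.Ioc ⌊Real.exp u⌋₊ ⌊Real.exp v⌋₊).filter Nat.Prime) := by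
      unfold Pool.Agent.M17.Helper44.primesUpTo
      rw [Finset.disjoint_left]
      intro n hn hn'
      rw [Finset.mem_filter, Finset.mem_Ioc] at hn hn'
      omega
    have h5 : g v - g u = ∑ q ∈ (Finset.Ioc ⌊Real.exp u⌋₊ ⌊Real.exp v⌋₊).filter Nat.Prime, (1:ℝ)/q -
        (Real.log v - Real.log u) := by
      show (∑ p ∈ primesUpTo (Real.exp v), (1 : ℝ) / p - Real.log v) -
        (∑ p ∈ primesUpTo (Real.exp u), (1 : ℝ) / p - Real.log u) = _
      rw [h3, Finset.sum_union h4]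
      ring
    rw [h5]
    exact h1
  have hcau : CauchySeq g := by
    rw [Metric.cauchySeq_iff]
    intro ε hε
    refine ⟨max 1 (C / ε + 1), ?_⟩
    have key : ∀ m n : ℝ, max 1 (C / ε + 1) ≤ m → m ≤ n → |g n - g m| < ε := by
      intro m n hm hmn
      have h1 : 1 ≤ m := (le_max_left _ _).trans hm
      have h2 : C / ε + 1 ≤ m := (le_max_right _ _).trans hm
      refine (hdiff m n h1 hmn).trans_lt ?_
      rw [div_lt_iff₀ (by linarith)]
      have h3 : C / ε < m := by linarith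
      rw [div_lt_iff₀ hε] at h3
      (clear * - h3; linarith)
    intro m hm n hn
    rw [Real.dist_eq]
    rcases le_total m n with h | h
    · rw [abs_sub_comm]
      exact key m n hm h
    · exact key n m hn h
  obtain ⟨C2, hC2⟩ := cauchySeq_tendsto_of_complete hcau
  refine ⟨∑' n, f n + C2, ?_⟩
  refine (hlim1.add hC2).congr fun u => ?_
  show ∑ n ∈ Finset.range (⌊Real.exp u⌋₊ + 1), f n +
    (∑ p ∈ primesUpTo (Real.exp u), (1 : ℝ) / p - Real.log u) = S1 u - Real.log u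
  have h6 : ∑ n ∈ Finset.range (⌊Real.exp u⌋₊ + 1), f n =
      ∑ p ∈ primesUpTo (Real.exp u), (ca p - 1 / p) := by
    show ∑ n ∈ Finset.range (⌊Real.exp u⌋₊ + 1), (if n.Prime then ca n - 1 / n else 0) = _
    rw [← Finset.sum_filter]
    refine Finset.sum_congr ?_ fun _ _ => rfl
    unfold Pool.Agent.M17.Helper44.primesUpTo
    ext n
    simp only [Finset.mem_filter, Finset.mem_range, Finset.mem_Ioc]
    constructor
    · rintro ⟨h1, h2⟩
      exact ⟨⟨h2.pos, by omega⟩, h2⟩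
    · rintro ⟨⟨_, h1⟩, h2⟩
      exact ⟨by omega, h2⟩
  rw [h6, Finset.sum_sub_distrib]
  unfold S1
  ring

/-! ### the two Dirichlet series -/

/-- `n ^ (-δ)` -/
noncomputable def xx (δ : ℝ) (n : ℕ) : ℝ := Real.exp (-(δ * Real.log n))

theorem xx_pos (δ : ℝ) (n : ℕ) : 0 < xx δ n := Real.exp_pos _

theorem xx_le_one {δ : ℝ} (hδ : 0 ≤ δ) (n : ℕ) : xx δ n ≤ 1 := by
  unfold xx
  rw [Real.exp_le_one_iff]
  have := mul_nonneg hδ (Real.log_natCast_nonneg n)
  linarith

theorem xx_rpow (δ : ℝ) {n : ℕ} (hn : 0 < n) : (1 : ℝ) / n * xx δ n = (n : ℝ) ^ (-(1 + δ)) := by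
  have h : (0 : ℝ) < n := by exact_mod_cast hn
  unfold xx
  rw [Real.rpow_def_of_pos h, show Real.log n * -(1 + δ) = -Real.log n + -(δ * Real.log n) by ring,
    Real.exp_add, Real.exp_neg (Real.log n), Real.exp_log h, one_div]

theorem summable_xx {δ : ℝ} (hδ : 0 < δ) : Summable fun n : ℕ => (1 : ℝ) / n * xx δ n := by
  have h := Real.summable_one_div_nat_rpow.2 (show (1 : ℝ) < 1 + δ by linarith)
  refine h.congr fun n => ?_
  rcases Nat.eq_zero_or_pos n with h0 | h0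
  · subst h0
    rw [Nat.cast_zero, Real.zero_rpow (by linarith), div_zero, zero_mul]
  · rw [xx_rpow δ h0, Real.rpow_neg (Nat.cast_nonneg n), one_div]

/-- the terms of the logarithm of the Euler product -/
noncomputable def cw (δ : ℝ) (n : ℕ) : ℝ :=
  if n.Prime then -Real.log (1 - 1 / n * xx δ n) else 0

theorem cw_bounds {δ : ℝ} (hδ : 0 ≤ δ) (n : ℕ) : 0 ≤ cw δ n ∧ cw δ n ≤ 2 * (1 / n * xx δ n) := by
  unfold cw
  split_ifs with h
  · obtain ⟨h1, h2⟩ := inv_prime_bounds h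
    have h3 := xx_pos δ n
    have h4 := xx_le_one hδ n
    have h5 : (0 : ℝ) ≤ 1 / n * xx δ n := mul_nonneg h1 h3.le
    have h6 : (1 : ℝ) / n * xx δ n ≤ 1 / 2 := by nlinarith
    obtain ⟨h7, h8⟩ := neg_log_bounds h5 h6
    exact ⟨h5.trans h7, by (clear * - h8 h5 h6; nlinarith)⟩
  · have h3 := xx_pos δ n
    exact ⟨le_rfl, by (clear * - h3; positivity)⟩

theorem summable_cw {δ : ℝ} (hδ : 0 < δ) : Summable (cw δ) :=
  Summable.of_nonneg_of_le (fun n => (cw_bounds hδ.le n).1) (fun n => (cw_bounds hδ.le n).2)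
    ((summable_xx hδ).mul_left 2)

theorem summable_ca {δ : ℝ} (hδ : 0 < δ) : Summable fun n => ca n * xx δ n := by
  refine Summable.of_nonneg_of_le (fun n => mul_nonneg (ca_nonneg n) (xx_pos δ n).le) (fun n => ?_)
    ((summable_xx hδ).mul_left 2)
  have h1 := mul_le_mul_of_nonneg_right (ca_le n) (xx_pos δ n).le
  calc ca n * xx δ n ≤ 2 / n * xx δ n := h1
    _ = 2 * (1 / n * xx δ n) := by ring

theorem zeta_eq {δ : ℝ} (hδ : 0 < δ) :
    riemannZeta ((1 + δ : ℝ) : ℂ) = ((Real.exp (∑' n, cw δ n) : ℝ) : ℂ) := by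
  have h1 := riemannZeta_eulerProduct_exp_log (s := ((1 + δ : ℝ) : ℂ))
    (by rw [Complex.ofReal_re]; linarith)
  rw [← h1, Complex.ofReal_exp]
  congr 1
  have h2 : ∑' n, cw δ n = ∑' p : Nat.Primes, -Real.log (1 - 1 / (p : ℕ) * xx δ p) := by
    have h3 := tsum_subtype {n : ℕ | n.Prime} (fun n : ℕ => -Real.log (1 - 1 / n * xx δ n))
    have h4 : cw δ = {n : ℕ | n.Prime}.indicator (fun n : ℕ => -Real.log (1 - 1 / n * xx δ n)) := by
      funext n
      unfold cw
      by_cases h : n.Prime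
      · rw [if_pos h, indicator_of_mem (show n ∈ {n : ℕ | n.Prime} from h)]
      · rw [if_neg h, indicator_of_notMem (show n ∉ {n : ℕ | n.Prime} from h)]
    rw [h4, ← h3]
    rfl
  rw [h2, Complex.ofReal_tsum]
  refine tsum_congr fun p => ?_
  have hp : (p : ℕ).Prime := p.2
  obtain ⟨h5, h6⟩ := inv_prime_bounds hp
  have h7 := xx_pos δ p
  have h8 := xx_le_one hδ.le p
  have h9 : (0 : ℝ) ≤ 1 - 1 / (p : ℕ) * xx δ p := by (clear * - h6 h5 h8; nlinarith)
  rw [Complex.ofReal_neg, Complex.ofReal_log h9, xx_rpow δ hp.pos, Complex.ofReal_sub,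
    Complex.ofReal_cpow (Nat.cast_nonneg _)]
  push_cast
  rfl

theorem W_lim : Tendsto (fun δ : ℝ => Real.log δ + ∑' n, cw δ n) (𝓝[>] 0) (𝓝 0) := by
  have h1 : Tendsto (fun δ : ℝ => (((1 + δ : ℝ) : ℂ) - 1) * riemannZeta ((1 + δ : ℝ) : ℂ)) (𝓝[>] 0)
      (𝓝 1) := by
    refine riemannZeta_residue_one.comp ?_
    refine tendsto_nhdsWithin_iff.2 ⟨?_, ?_⟩
    · have h2 : Tendsto (fun δ : ℝ => ((1 + δ : ℝ) : ℂ)) (𝓝 0) (𝓝 (((1 + 0 : ℝ) : ℝ) : ℂ)) := by
        apply Continuous.tendsto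
        fun_prop
      rw [add_zero, Complex.ofReal_one] at h2
      exact h2.mono_left nhdsWithin_le_nhds
    · filter_upwards [self_mem_nhdsWithin] with δ hδ
      have : (0 : ℝ) < δ := hδ
      simp only [mem_compl_iff, mem_singleton_iff]
      intro h
      have h3 := congrArg Complex.re h
      rw [Complex.ofReal_re, Complex.one_re] at h3
      linarith
  have h2 : Tendsto (fun δ : ℝ => δ * Real.exp (∑' n, cw δ n)) (𝓝[>] 0) (𝓝 1) := by
    have h3 := (Complex.continuous_re.tendsto 1).comp h1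
    rw [Complex.one_re] at h3
    refine h3.congr' ?_
    filter_upwards [self_mem_nhdsWithin] with δ hδ
    show ((((1 + δ : ℝ) : ℂ) - 1) * riemannZeta ((1 + δ : ℝ) : ℂ)).re = _
    rw [zeta_eq hδ]
    have h4 : (((1 + δ : ℝ) : ℂ) - 1) * ((Real.exp (∑' n, cw δ n) : ℝ) : ℂ) =
        ((δ * Real.exp (∑' n, cw δ n) : ℝ) : ℂ) := by
      push_cast
      ring
    rw [h4, Complex.ofReal_re]
  have h3 := (Real.continuousAt_log one_ne_zero).tendsto.comp h2
  rw [Real.log_one] at h3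
  refine h3.congr' ?_
  filter_upwards [self_mem_nhdsWithin] with δ hδ
  show Real.log (δ * Real.exp (∑' n, cw δ n)) = _
  rw [Real.log_mul (ne_of_gt hδ) (Real.exp_pos _).ne', Real.log_exp]

theorem D_lim : Tendsto (fun δ : ℝ => ∑' n, (ca n * xx δ n - cw δ n)) (𝓝[>] 0) (𝓝 0) := by
  have h0 : ∑' _ : ℕ, (0 : ℝ) = 0 := tsum_zero
  have hmain : Tendsto (fun δ : ℝ => ∑' n, (ca n * xx δ n - cw δ n)) (𝓝[>] 0)
      (𝓝 (∑' _ : ℕ, (0 : ℝ))) := by
   refine tendsto_tsum_of_dominated_convergence (bound := fun n : ℕ => 2 * (1 / (n : ℝ) ^ 2))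
    ((Real.summable_one_div_nat_pow.mpr (by norm_num : 1 < 2)).mul_left 2) ?_ ?_
   · intro n
     by_cases hp : n.Prime
     · obtain ⟨h1, h2⟩ := inv_prime_bounds hp
       have hx : Tendsto (fun δ : ℝ => xx δ n) (𝓝 0) (𝓝 (xx 0 n)) := by
         apply Continuous.tendsto
         unfold xx
         fun_prop
       have hx0 : xx 0 n = 1 := by
         unfold xx
         rw [zero_mul, neg_zero, Real.exp_zero]
       rw [hx0] at hx
       have h3 : Tendsto (fun δ : ℝ => 1 - 1 / (n : ℝ) * xx δ n) (𝓝 0) (𝓝 (1 - 1 / (n : ℝ) * 1)) :=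
         (hx.const_mul _).const_sub 1
       have h4 : (1 : ℝ) - 1 / (n : ℝ) * 1 ≠ 0 := by
         rw [mul_one]
         linarith
       have h5 := ((Real.continuousAt_log h4).tendsto.comp h3).neg
       have h6 := (hx.const_mul (ca n)).sub h5
       have h7 : ca n * 1 - -Real.log (1 - 1 / (n : ℝ) * 1) = 0 := by
         unfold ca
         rw [if_pos hp, mul_one, mul_one, sub_self]
       rw [h7] at h6
       refine (h6.mono_left nhdsWithin_le_nhds).congr fun δ => ?_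
       unfold cw
       rw [if_pos hp]
       rfl
     · refine tendsto_const_nhds.congr fun δ => ?_
       unfold ca cw
       rw [if_neg hp, if_neg hp, zero_mul, sub_zero]
   · filter_upwards [self_mem_nhdsWithin] with δ hδ
     intro n
     by_cases hp : n.Prime
     · obtain ⟨h1, h2⟩ := inv_prime_bounds hp
       have h3 := xx_pos δ n
       have h4 := xx_le_one (le_of_lt hδ) n
       have h5 : (0 : ℝ) ≤ 1 / n * xx δ n := mul_nonneg h1 h3.le
       have h6 : (1 : ℝ) / n * xx δ n ≤ 1 / 2 := by (clear * - h2 h1 h4; nlinarith)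
       obtain ⟨h7, h8⟩ := neg_log_bounds h5 h6
       obtain ⟨h9, h10⟩ := neg_log_bounds h1 h2
       rw [Real.norm_eq_abs]
       unfold ca cw
       rw [if_pos hp, if_pos hp]
       rw [show (1 : ℝ) / (n : ℝ) ^ 2 = (1 / n) ^ 2 by rw [div_pow, one_pow]]
       generalize (1 : ℝ) / n = y at *
       generalize xx δ n = x at *
       generalize -Real.log (1 - y) = a at *
       generalize -Real.log (1 - y * x) = b at *
       have hyx : (y * x) ^ 2 ≤ y ^ 2 := by
         refine pow_le_pow_left₀ h5 ?_ 2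
         (clear * - h1 h4; nlinarith)
       rw [abs_le]
       constructor
       · (clear * - h8 hyx h3 h9; nlinarith)
       · (clear * - h7 h10 h3 h4; nlinarith [mul_le_mul_of_nonneg_right h10 h3.le, sq_nonneg y])
     · unfold ca cw
       rw [if_neg hp, if_neg hp, zero_mul, sub_zero, norm_zero]
       positivity
  rwa [h0] at hmain

theorem F_lim : Tendsto (fun δ : ℝ => Real.log δ + ∑' n, ca n * xx δ n) (𝓝[>] 0) (𝓝 0) := by
  have h := W_lim.add D_lim
  rw [add_zero] at h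
  refine h.congr' ?_
  filter_upwards [self_mem_nhdsWithin] with δ hδ
  rw [(summable_ca hδ).tsum_sub (summable_cw hδ)]
  ring

theorem E_eq {δ : ℝ} (hδ : 0 < δ) :
    HasSum (fun n : ℕ => (1 : ℝ) / n * Real.exp (-(δ * n))) (-Real.log (1 - Real.exp (-δ))) := by
  have h1 : |Real.exp (-δ)| < 1 := by
    rw [abs_of_pos (Real.exp_pos _), Real.exp_lt_one_iff]
    linarith
  have h2 := Real.hasSum_pow_div_log_of_abs_lt_one h1
  have h3 := (hasSum_nat_add_iff (f := fun n : ℕ => (1 : ℝ) / n * Real.exp (-(δ * n))) 1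
    (g := -Real.log (1 - Real.exp (-δ)))).1 ?_
  · simpa using h3
  · refine h2.congr_fun ?_
    intro n
    show (1 : ℝ) / ((n + 1 : ℕ) : ℝ) * Real.exp (-(δ * ((n + 1 : ℕ) : ℝ))) =
      Real.exp (-δ) ^ (n + 1) / ((n : ℝ) + 1)
    rw [← Real.exp_nat_mul]
    push_cast
    rw [show ((n : ℝ) + 1) * -δ = -(δ * ((n : ℝ) + 1)) by ring]
    ring

theorem E_lim : Tendsto (fun δ : ℝ => Real.log δ + ∑' n : ℕ, (1 : ℝ) / n * Real.exp (-(δ * n)))
    (𝓝[>] 0) (𝓝 0) := by
  have h1 : HasDerivAt (fun δ : ℝ => -Real.exp (-δ)) 1 0 := by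
    have h2 : HasDerivAt (fun δ : ℝ => Real.exp (-δ)) (Real.exp (-0) * -1) 0 :=
      (hasDerivAt_neg (0 : ℝ)).exp
    have h3 := h2.neg
    rw [neg_zero, Real.exp_zero, one_mul, neg_neg] at h3
    exact h3
  have h2 := (hasDerivAt_iff_tendsto_slope_zero.1 h1).mono_left
    (nhdsWithin_mono (0 : ℝ) (fun x (hx : 0 < x) => (ne_of_gt hx : x ≠ 0)))
  have h3 := (Real.continuousAt_log one_ne_zero).tendsto.comp h2
  rw [Real.log_one] at h3
  have h4 := h3.neg
  rw [neg_zero] at h4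
  refine h4.congr' ?_
  filter_upwards [self_mem_nhdsWithin] with δ hδ
  have hδ' : (0 : ℝ) < δ := hδ
  rw [(E_eq hδ').tsum_eq]
  show -Real.log (δ⁻¹ • (-Real.exp (-(0 + δ)) - -Real.exp 0)) = _
  have h5 : Real.exp (-δ) < 1 := by
    rw [Real.exp_lt_one_iff]
    linarith
  rw [zero_add, Real.exp_zero, smul_eq_mul,
    show -Real.exp (-δ) - -1 = 1 - Real.exp (-δ) by ring,
    Real.log_mul (inv_ne_zero hδ'.ne') (by linarith), Real.log_inv]
  ring

/-! ### the constant -/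

theorem const_eq {C1 : ℝ} (hC1 : Tendsto (fun u => S1 u - Real.log u) atTop (𝓝 C1)) :
    C1 = Real.eulerMascheroniConstant := by
  -- the difference
  have hG : Tendsto (fun u => S1 u - S2 u) atTop (𝓝 (C1 - Real.eulerMascheroniConstant)) := by
    refine (hC1.sub S2_lim).congr fun u => ?_
    ring
  have hmeas : Measurable fun u => S1 u - S2 u := S1_mono.measurable.sub S2_mono.measurable
  obtain ⟨M, hM⟩ : ∃ M : ℝ, ∀ u, 0 < u → |S1 u - S2 u| ≤ M := by
    have h1 := (hG.eventually (Metric.ball_mem_nhds _ one_pos)).exists_forall_of_atTop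
    obtain ⟨U, hU⟩ := h1
    refine ⟨max (|C1 - Real.eulerMascheroniConstant| + 1) (S1 U + S2 U), ?_⟩
    intro u hu
    rcases le_total U u with h | h
    · refine le_trans ?_ (le_max_left _ _)
      have h2 := hU u h
      rw [Real.dist_eq] at h2
      have h3 := abs_sub_abs_le_abs_sub (S1 u - S2 u) (C1 - Real.eulerMascheroniConstant)
      linarith
    · refine le_trans ?_ (le_max_right _ _)
      have h2 := S1_mono h
      have h3 := S2_mono h
      have h4 := S1_nonneg u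
      have h5 := S2_nonneg u
      rw [abs_le]
      constructor <;> linarith
  have hA := abel _ _ M hmeas hM hG
  have hFE : Tendsto (fun δ : ℝ => (Real.log δ + ∑' n, ca n * xx δ n) -
      (Real.log δ + ∑' n : ℕ, (1 : ℝ) / n * Real.exp (-(δ * n)))) (𝓝[>] 0) (𝓝 (0 - 0)) :=
    F_lim.sub E_lim
  have hA2 : Tendsto (fun δ : ℝ => (Real.log δ + ∑' n, ca n * xx δ n) -
      (Real.log δ + ∑' n : ℕ, (1 : ℝ) / n * Real.exp (-(δ * n)))) (𝓝[>] 0)
      (𝓝 (C1 - Real.eulerMascheroniConstant)) := by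
    refine hA.congr' ?_
    filter_upwards [self_mem_nhdsWithin] with δ hδ
    have hδ' : (0 : ℝ) < δ := hδ
    have i2 : IntegrableOn (fun t => S2 (t / δ) * Real.exp (-t)) (Ioi 0) := by
      have h1 := (Real.GammaIntegral_convergent (s := 2) (by norm_num)).const_mul δ⁻¹
      refine Integrable.mono' h1 ?_ ?_
      · refine Measurable.aestronglyMeasurable ?_
        exact (S2_mono.measurable.comp (measurable_id.div_const δ)).mul
          (Real.measurable_exp.comp measurable_neg)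
      · refine (ae_restrict_iff' measurableSet_Ioi).2 (Eventually.of_forall fun t ht => ?_)
        have ht' : 0 < t / δ := div_pos ht hδ'
        rw [Real.norm_eq_abs, abs_of_nonneg (mul_nonneg (S2_nonneg _) (Real.exp_pos _).le)]
        calc S2 (t / δ) * Real.exp (-t) ≤ (t / δ) * Real.exp (-t) :=
              mul_le_mul_of_nonneg_right (S2_le ht'.le) (Real.exp_pos _).le
          _ = δ⁻¹ * (Real.exp (-t) * t ^ ((2 : ℝ) - 1)) := by
              rw [show (2 : ℝ) - 1 = 1 by norm_num, Real.rpow_one]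
              ring
    have iG : IntegrableOn (fun t => (S1 (t / δ) - S2 (t / δ)) * Real.exp (-t)) (Ioi 0) := by
      refine Integrable.mono' ((integrableOn_exp_neg_Ioi 0).const_mul M) ?_ ?_
      · refine Measurable.aestronglyMeasurable ?_
        exact (hmeas.comp (measurable_id.div_const δ)).mul
          (Real.measurable_exp.comp measurable_neg)
      · refine (ae_restrict_iff' measurableSet_Ioi).2 (Eventually.of_forall fun t ht => ?_)
        rw [Real.norm_eq_abs, abs_mul, abs_of_pos (Real.exp_pos _)]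
        exact mul_le_mul_of_nonneg_right (hM _ (div_pos ht hδ')) (Real.exp_pos _).le
    have i1 : IntegrableOn (fun t => S1 (t / δ) * Real.exp (-t)) (Ioi 0) := by
      refine (iG.add i2).congr (Eventually.of_forall fun t => ?_)
      show (S1 (t / δ) - S2 (t / δ)) * Real.exp (-t) + S2 (t / δ) * Real.exp (-t) = _
      ring
    have l1 := laplace ca (fun n => Real.log n) ca_nonneg (fun n => Real.log_natCast_nonneg n) δ hδ'
      (summable_ca hδ') S1 (fun u _ => S1_hasSum u)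
    have l2 := laplace (fun n => (1 : ℝ) / n) (fun n => (n : ℝ)) (fun n => by (clear * -; positivity))
      (fun n => Nat.cast_nonneg n) δ hδ' (E_eq hδ').summable S2 (fun u hu => S2_hasSum u hu)
    have l3 : ∫ t in Ioi (0 : ℝ), (S1 (t / δ) - S2 (t / δ)) * Real.exp (-t) =
        (∫ t in Ioi (0 : ℝ), S1 (t / δ) * Real.exp (-t)) -
          ∫ t in Ioi (0 : ℝ), S2 (t / δ) * Real.exp (-t) := by
      rw [← integral_sub i1 i2]
      refine integral_congr_ae (Eventually.of_forall fun t => ?_)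
      show (S1 (t / δ) - S2 (t / δ)) * Real.exp (-t) = _
      ring
    rw [l3, l1, l2]
    unfold xx
    ring
  have h := tendsto_nhds_unique hA2 hFE
  linarith

theorem mertens3 : Mertens3 := by
  obtain ⟨C1, hC1⟩ := S1_lim
  have hγ := const_eq hC1
  subst hγ
  have h1 := ((Real.continuous_exp.tendsto _).comp (hC1.comp Real.tendsto_log_atTop).neg)
  refine h1.congr' ?_
  filter_upwards [eventually_ge_atTop (2 : ℝ)] with z hz
  have hz0 : (0 : ℝ) < z := by linarith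
  have hlz : 0 < Real.log z := Real.log_pos (by linarith)
  show Real.exp (-(S1 (Real.log z) - Real.log (Real.log z))) = VV z * Real.log z
  rw [show -(S1 (Real.log z) - Real.log (Real.log z)) = -S1 (Real.log z) + Real.log (Real.log z) by
    ring, Real.exp_add, Real.exp_log hlz]
  congr 1
  unfold S1 VV
  rw [Real.exp_log hz0, ← Finset.sum_neg_distrib, Real.exp_sum]
  refine Finset.prod_congr rfl fun p hp => ?_
  rw [mem_primesUpTo hz0.le] at hp
  obtain ⟨h2, h3⟩ := inv_prime_bounds hp.1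
  unfold ca
  rw [if_pos hp.1, neg_neg, Real.exp_log (by (clear * - h3; linarith))]

end Pool.Agent.M17.Helper9.AV
end
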