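import Mathlib

/- Helper53.KN.Helper16.KS.Defs -/
section
/-!
# Project KS (MP_768c9c_nt, S17468), construction D5: definitions

Blocks `[2^k, 2^(k+1))`, cells of length `2^(e k)`, `e k = ⌊k (1/2 - d)⌋`.  A control system `Sys`:
good cells contain many primes; every bad cell `(k, j)` of class `i` (at most `2^(u i k)` of them) has
many candidates `(q, m)`: `q` prime, `q m` squarefree, `q m` in the cell, all prime factors `p`
satisfy `2^((u i + c) k) ≤ p^(1/2 - δ)`, and `m^(1/2 + δ) ≤ 2^((1/2 - u i - c) k)`.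

`R` is a (random) set of primes.  The function at primes is
`f_t(p) = 1_R(p) p^(-1/2-δ) + ∑_i t_i w_i(p)`, `i` running over all cells (and the initial block);
all the `w_i` are nonnegative: a good cell uses its own primes, a bad cell the control primes `q` of
its candidates `(q, m)` with `m` composed of elements of `R`.
-/

set_option autoImplicit false
open scoped Classical

namespace Pool.Agent.M17.Helper16.KS

/-- completely multiplicative extension of a function given at the primes -/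
noncomputable def CM (g : ℕ → ℝ) (n : ℕ) : ℝ := (n.primeFactorsList.map g).prod

/-- radical -/
def rad (n : ℕ) : ℕ := ∏ p ∈ n.primeFactors, p

/-- Numbers with a large `k / rad k` in short windows.  (Follows from helper18's lemma POW for every
`δ > 0`, from helper14's power lemma for `δ > 1/18`.) -/
def PowC (δ η : ℝ) : Prop := ∃ C : ℝ, ∀ x y : ℕ, ∀ B : ℝ, 1 ≤ x → (x : ℝ) ^ (1 / 2 - η) ≤ y →
  y ≤ x → 1 ≤ B →
  ∑ k ∈ (Finset.Ico x (x + y)).filter (fun k : ℕ => B ≤ (k : ℝ) / (rad k : ℝ)),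
    ((k : ℝ) / (rad k : ℝ)) ^ (1 / 2 - δ) ≤ C * y * B ^ (-η)

/-- cells of block `k` have length `2^(ec d k)` -/
noncomputable def ec (d : ℝ) (k : ℕ) : ℕ := ⌊(k : ℝ) * (1/2 - d)⌋₊

noncomputable def cell (d : ℝ) (k j : ℕ) : Finset ℕ :=
  Finset.Ico (2 ^ k + j * 2 ^ ec d k) (2 ^ k + (j + 1) * 2 ^ ec d k)

/-- number of cells of block `k` -/
noncomputable def nc (d : ℝ) (k : ℕ) : ℕ := 2 ^ (k - ec d k)

/-- number of primes in a cell -/
noncomputable def npr (d : ℝ) (k j : ℕ) : ℕ := ((cell d k j).filter Nat.Prime).card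

/-- A control system. -/
structure Sys where
  d : ℝ
  c : ℝ
  eta : ℝ
  del : ℝ
  c1 : ℝ
  C1 : ℝ
  K : ℕ
  u : Fin 3 → ℝ
  bad : ℕ → ℕ → Prop
  cls : ℕ → ℕ → Fin 3
  Cand : ℕ → ℕ → Finset (ℕ × ℕ)
  d_pos : 0 < d
  d_le : d ≤ c / 10 ^ 5
  c_le : c ≤ eta / 10
  eta_le : eta ≤ del
  del_le : del ≤ 3 / 50
  c1_pos : 0 < c1
  c1_le : c1 ≤ 1
  C1_ge : 1 ≤ C1
  K_pos : 1 ≤ K
  u_ge : ∀ i, 1/10 ≤ u i
  u_le : ∀ i, u i ≤ 0.22
  pow : PowC del eta
  /-- few bad cells of each class -/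
  few : ∀ k, K ≤ k → ∀ i, (((Finset.range (nc d k)).filter
    (fun j => bad k j ∧ cls k j = i)).card : ℝ) ≤ (2 : ℝ) ^ (u i * k)
  /-- good cells contain many primes -/
  good : ∀ k, K ≤ k → ∀ j < nc d k, ¬ bad k j → c1 * 2 ^ ec d k / k ≤ (npr d k j : ℝ)
  /-- candidates -/
  cand : ∀ k, K ≤ k → ∀ j < nc d k, bad k j → ∀ x ∈ Cand k j,
    x.1.Prime ∧ (2 : ℝ) ^ ((k : ℝ) / 3) ≤ x.1 ∧
    Squarefree (x.1 * x.2) ∧ 1 < x.2 ∧ x.1 * x.2 ∈ cell d k j ∧
    (∀ p : ℕ, p.Prime → p ∣ x.1 * x.2 →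
      (2 : ℝ) ^ ((u (cls k j) + c) * k) ≤ (p : ℝ) ^ (1/2 - del)) ∧
    (x.2 : ℝ) ^ (1/2 + del) ≤ (2 : ℝ) ^ ((1/2 - u (cls k j) - c) * k)
  /-- an integer comes from at most one candidate -/
  inj : ∀ k, K ≤ k → ∀ j < nc d k, bad k j → ∀ x ∈ Cand k j, ∀ y ∈ Cand k j,
    x.1 * x.2 = y.1 * y.2 → x = y
  many : ∀ k, K ≤ k → ∀ j < nc d k, bad k j → c1 * 2 ^ ec d k / k ^ 2 ≤ ((Cand k j).card : ℝ)
  /-- long windows contain the right proportion of candidates (up to a constant) -/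
  win1 : ∀ k, K ≤ k → ∀ j < nc d k, bad k j → ∀ x h : ℕ, (2 : ℝ) ^ (0.498 * (k : ℝ)) ≤ h →
    (((Cand k j).filter (fun y => x ≤ y.1 * y.2 ∧ y.1 * y.2 < x + h)).card : ℝ) ≤
      C1 * (h / 2 ^ ec d k) * (Cand k j).card
  /-- shorter windows: one logarithm may be lost -/
  win2 : ∀ k, K ≤ k → ∀ j < nc d k, bad k j → ∀ x h : ℕ, (2 : ℝ) ^ (0.38 * (k : ℝ)) ≤ h →
    (((Cand k j).filter (fun y => x ≤ y.1 * y.2 ∧ y.1 * y.2 < x + h)).card : ℝ) ≤
      C1 * k * (h / 2 ^ ec d k) * (Cand k j).card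

namespace Sys

variable (S : Sys)

/-! ### parameters -/

noncomputable def s : ℝ := S.d / 2
/-- savings are of the form `2^(-(ep/100) k)` -/
noncomputable def ep : ℝ := S.c * S.eta * S.d
noncomputable def tau : ℝ := S.ep / 10 ^ 4
/-- `P(r ∈ R) = r^(-hh)`, `hh = 1/2 - s - δ + τ` -/
noncomputable def hh : ℝ := 1/2 - S.s - S.del + S.tau
/-- control primes of cells of block `k'` are heavy for block `k` if `κ₁ k ≤ k'` -/
noncomputable def kap : ℝ := S.d / 10

/-- probability that all prime factors of the squarefree number `m` are in `R` -/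
noncomputable def pr (m : ℕ) : ℝ := (m : ℝ) ^ (-S.hh)

/-- value at (products of) elements of `R`; `pr m * base m = m^(s-1-τ)` -/
noncomputable def base (m : ℕ) : ℝ := (m : ℝ) ^ (-(1/2 + S.del))

/-- scale of the cells of block `k` -/
noncomputable def G (k : ℕ) : ℝ := 2 ^ ec S.d k * (2 : ℝ) ^ ((S.s - 1) * k) / k ^ 4

/-- index of the cell of `n` in its block -/
noncomputable def idx (n : ℕ) : ℕ := (n - 2 ^ Nat.log 2 n) / 2 ^ ec S.d (Nat.log 2 n)

/-- weight of the primes of the initial block `[2^(k0-1), 2^k0)` -/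
noncomputable def phi0 (k0 : ℕ) : ℝ := (2 : ℝ) ^ ((S.s - 1) * k0) / k0 ^ 3

/-- scale of the initial cell -/
noncomputable def G0 (k0 : ℕ) : ℝ :=
  S.phi0 k0 * (((Finset.Ico (2 ^ (k0 - 1)) (2 ^ k0)).filter Nat.Prime).card : ℝ)

/-- ordinary weight of a prime -/
noncomputable def ordw (k0 p : ℕ) : ℝ :=
  if p < 2 ^ (k0 - 1) then 0
  else if p < 2 ^ k0 then S.phi0 k0
  else if S.bad (Nat.log 2 p) (S.idx p) then 0
  else S.G (Nat.log 2 p) / npr S.d (Nat.log 2 p) (S.idx p)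

/-- the cell of a prime; everything below `2^k0` belongs to the initial cell `(0, 0)` -/
noncomputable def cix (k0 n : ℕ) : ℕ × ℕ := if n < 2 ^ k0 then (0, 0) else (Nat.log 2 n, S.idx n)

end Sys

/-! ### control weights (depending on the set `R`) -/

/-- all prime factors of `m` are in `R` -/
def inR (R : Set ℕ) (m : ℕ) : Prop := ∀ p : ℕ, p.Prime → p ∣ m → p ∈ R

/-- a control prime `q` of block `k` satisfies `k < top q` -/
def top (q : ℕ) : ℕ := 3 * (Nat.log 2 q + 1)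

namespace Sys

variable (S : Sys)

/-- bad cells of block `k` -/
noncomputable def badc (k : ℕ) : Finset ℕ := (Finset.range (nc S.d k)).filter (fun j => S.bad k j)

/-- active candidates of a cell -/
noncomputable def act (R : Set ℕ) (k j : ℕ) : Finset (ℕ × ℕ) :=
  (S.Cand k j).filter (fun x => inR R x.2)

/-- normalised number of active candidates of a cell; its expectation is `(S.Cand k j).card` -/
noncomputable def NN (R : Set ℕ) (k j : ℕ) : ℝ := ∑ x ∈ S.act R k j, 1 / S.pr x.2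

/-- weight of an active candidate `(q, m)` -/
noncomputable def wo (R : Set ℕ) (k j m : ℕ) : ℝ := S.G k / (S.NN R k j * S.pr m * S.base m)

/-- deterministic majorant (up to the factor `(2/c1) k^(-2)`) of `wo`:
`2^((s-1)k) / (pr m * base m) = 2^((s-1)k) m^(1-s+τ)` -/
noncomputable def wd (k m : ℕ) : ℝ := (2 : ℝ) ^ ((S.s - 1) * k) * (m : ℝ) ^ (1 - S.s + S.tau)

/-- control weight of the prime `q` coming from the bad cell `(k, j)` -/
noncomputable def cw (R : Set ℕ) (k j q : ℕ) : ℝ :=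
  ∑ x ∈ (S.act R k j).filter (fun x => x.1 = q), S.wo R k j x.2

/-- control weight of the prime `q` coming from the blocks `k0 ≤ k < k1` -/
noncomputable def ctl (k0 k1 : ℕ) (R : Set ℕ) (q : ℕ) : ℝ :=
  ∑ k ∈ Finset.Ico k0 k1, ∑ j ∈ S.badc k, S.cw R k j q

/-- contribution of `R` at the prime `p` -/
noncomputable def bR (R : Set ℕ) (p : ℕ) : ℝ := if p ∈ R then S.base p else 0

/-- the majorant at primes -/
noncomputable def Wp (k0 : ℕ) (R : Set ℕ) (p : ℕ) : ℝ :=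
  S.bR R p + 2 * S.ordw k0 p + 2 * S.ctl k0 (top p) R p

/-- the completely multiplicative majorant -/
noncomputable def W (k0 : ℕ) (R : Set ℕ) (n : ℕ) : ℝ := CM (S.Wp k0 R) n

/-- the function at primes, with parameters `t` -/
noncomputable def fp (k0 : ℕ) (R : Set ℕ) (t : ℕ × ℕ → ℝ) (p : ℕ) : ℝ :=
  S.bR R p + t (S.cix k0 p) * S.ordw k0 p +
    ∑ k ∈ Finset.Ico k0 (top p), ∑ j ∈ S.badc k, t (k, j) * S.cw R k j p

/-- the completely multiplicative function -/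
noncomputable def ft (k0 : ℕ) (R : Set ℕ) (t : ℕ × ℕ → ℝ) (n : ℕ) : ℝ := CM (S.fp k0 R t) n

/-- the main inequality: the majorant is at most `9/4` times the own part in every cell -/
def Star (k0 : ℕ) (R : Set ℕ) : Prop :=
  ∑ n ∈ Finset.Ico 1 (2 ^ k0), S.W k0 R n ≤ (2 + 1/4) * S.G0 k0 ∧
  ∀ k, k0 ≤ k → ∀ j < nc S.d k, ∑ n ∈ cell S.d k j, S.W k0 R n ≤ (2 + 1/4) * S.G k

/-! ### crude majorants -/

/-- `p^(s-1+6τ)`: majorant of the ordinary and control weights -/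
noncomputable def gam (p : ℕ) : ℝ := (p : ℝ) ^ (S.s - 1 + 6 * S.tau)

/-- crude majorant at primes: every prime `≥ 2^(k0/5)` is a control prime of maximal size -/
noncomputable def Fh (k0 : ℕ) (R : Set ℕ) (p : ℕ) : ℝ :=
  if (p : ℝ) < (2 : ℝ) ^ ((k0 : ℝ) / 5) then 0 else S.bR R p + S.gam p

/-- majorant at primes with the heavy control part (blocks `≥ κ₁ k`) removed -/
noncomputable def Wl (k0 : ℕ) (R : Set ℕ) (k p : ℕ) : ℝ :=
  S.bR R p + 2 * S.ordw k0 p + 2 * S.ctl k0 (min (top p) ⌈S.kap * k⌉₊) R p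

/-- heavy blocks for block `k` (those which can have control primes dividing elements of it) -/
noncomputable def hvy (k0 k : ℕ) : Finset ℕ := Finset.Ico (max k0 ⌈S.kap * k⌉₊) (3 * (k + 1))

/-- the expanded heavy part of a cell: sum over `n` in the cell, heavy active candidates `x = (q, m)`
with `q ∣ n` satisfying `Q (k', j') n x`, `(k', j')` the cell of the candidate `x` -/
noncomputable def HT (k0 : ℕ) (R : Set ℕ) (k j : ℕ) (Q : ℕ × ℕ → ℕ → ℕ × ℕ → Prop) : ℝ :=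
  ∑ n ∈ cell S.d k j, ∑ k' ∈ S.hvy k0 k, ∑ j' ∈ S.badc k',
    ∑ x ∈ (S.act R k' j').filter (fun x => x.1 ∣ n ∧ Q (k', j') n x),
      (n.factorization x.1 : ℝ) * (2 * S.wo R k' j' x.2 * S.W k0 R (n / x.1))

/-- the same with deterministic weights and the crude majorant -/
noncomputable def HP (k0 : ℕ) (R : Set ℕ) (k j : ℕ) (Q : ℕ × ℕ → ℕ → ℕ × ℕ → Prop) : ℝ :=
  ∑ n ∈ cell S.d k j, ∑ k' ∈ S.hvy k0 k, ∑ j' ∈ S.badc k',
    ∑ x ∈ (S.act R k' j').filter (fun x => x.1 ∣ n ∧ Q (k', j') n x),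
      S.wd k' x.2 * CM (S.Fh k0 R) (n / x.1)

/-- non-direct terms -/
def Q1 (_ : ℕ × ℕ) (n : ℕ) (x : ℕ × ℕ) : Prop := ¬ x.2 ∣ n / x.1

/-- direct terms with a large cofactor -/
def Q2 (i : ℕ × ℕ) (n : ℕ) (x : ℕ × ℕ) : Prop :=
  x.2 ∣ n / x.1 ∧ (2 : ℝ) ^ ((S.u (S.cls i.1 i.2) + S.c) * i.1) ≤ ((n / x.1 / x.2 : ℕ) : ℝ)

/-- direct terms with a small cofactor -/
def Q3 (i : ℕ × ℕ) (n : ℕ) (x : ℕ × ℕ) : Prop :=
  x.2 ∣ n / x.1 ∧ 1 < n / x.1 / x.2 ∧
    ((n / x.1 / x.2 : ℕ) : ℝ) < (2 : ℝ) ^ ((S.u (S.cls i.1 i.2) + S.c) * i.1)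

/-- own terms -/
def Q4 (_ : ℕ × ℕ) (n : ℕ) (x : ℕ × ℕ) : Prop := n = x.1 * x.2

/-! ### conditional expectations of the crude majorants -/

/-- all the prime factors of `n` are at least `2^(k0/5)` -/
def rough (k0 n : ℕ) : Prop := ∀ p : ℕ, p.Prime → p ∣ n → (2 : ℝ) ^ ((k0 : ℝ) / 5) ≤ p

/-- `CM (Fh k0 R) n ≤ ∑_{D ⊆ primeFactors n, D ⊆ R} Fe D n` for rough `n` -/
noncomputable def Fe (D : Finset ℕ) (n : ℕ) : ℝ :=
  ∏ p ∈ n.primeFactors,
    if p ∈ D then (S.base p + S.gam p) ^ n.factorization p else S.gam p ^ n.factorization p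

/-- `P(D ⊆ R | A ⊆ R)` -/
noncomputable def pc (A D : Finset ℕ) : ℝ := ∏ p ∈ D \ A, S.pr p

/-- conditional expectation of `HP`, given `A ⊆ R` (only the terms whose support contains `A`) -/
noncomputable def LP (k0 k j : ℕ) (Q : ℕ × ℕ → ℕ → ℕ × ℕ → Prop) (A : Finset ℕ) : ℝ :=
  ∑ n ∈ (cell S.d k j).filter (rough k0), ∑ k' ∈ S.hvy k0 k, ∑ j' ∈ S.badc k',
    ∑ x ∈ (S.Cand k' j').filter (fun x => x.1 ∣ n ∧ Q (k', j') n x),
      ∑ D ∈ (n / x.1).primeFactors.powerset.filter (fun D => A ⊆ x.2.primeFactors ∪ D),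
        S.wd k' x.2 * S.Fe D (n / x.1) * S.pc A (x.2.primeFactors ∪ D)

/-- conditional expectation of the crude mass of a window -/
noncomputable def CP (k0 x h : ℕ) (A : Finset ℕ) : ℝ :=
  ∑ n ∈ (Finset.Ico x (x + h)).filter (rough k0),
    ∑ D ∈ n.primeFactors.powerset.filter (fun D => A ⊆ D), S.Fe D n * S.pc A D

end Sys

end Pool.Agent.M17.Helper16.KS
end

/- Helper53.KN.Helper16.KS.Basic -/
section
/-!
# Project KS: common lemmas
-/

set_option autoImplicit false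
open scoped Classical

namespace Pool.Agent.M17.Helper16.KS

/-! ### completely multiplicative extensions -/

theorem CM_one (g : ℕ → ℝ) : CM g 1 = 1 := by simp [CM]

theorem CM_prime (g : ℕ → ℝ) {p : ℕ} (hp : p.Prime) : CM g p = g p := by
  simp [CM, Nat.primeFactorsList_prime hp]

theorem CM_mul (g : ℕ → ℝ) {m n : ℕ} (hm : m ≠ 0) (hn : n ≠ 0) :
    CM g (m * n) = CM g m * CM g n := by
  unfold CM
  rw [((Nat.perm_primeFactorsList_mul hm hn).map g).prod_eq, List.map_append, List.prod_append]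

theorem CM_eq_prod (g : ℕ → ℝ) (n : ℕ) :
    CM g n = ∏ p ∈ n.primeFactors, g p ^ n.factorization p := by
  unfold CM
  rw [Finset.prod_list_map_count]
  refine Finset.prod_congr rfl fun p _ => ?_
  rw [Nat.primeFactorsList_count_eq]

theorem CM_nonneg {g : ℕ → ℝ} {n : ℕ} (h : ∀ p : ℕ, p.Prime → p ∣ n → 0 ≤ g p) : 0 ≤ CM g n := by
  rw [CM_eq_prod]
  exact Finset.prod_nonneg fun p hp => pow_nonneg
    (h p (Nat.prime_of_mem_primeFactors hp) (Nat.dvd_of_mem_primeFactors hp)) _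

theorem CM_mono {g h : ℕ → ℝ} {n : ℕ} (h0 : ∀ p : ℕ, p.Prime → p ∣ n → 0 ≤ g p)
    (h1 : ∀ p : ℕ, p.Prime → p ∣ n → g p ≤ h p) : CM g n ≤ CM h n := by
  rw [CM_eq_prod, CM_eq_prod]
  refine Finset.prod_le_prod (fun p hp => pow_nonneg
    (h0 p (Nat.prime_of_mem_primeFactors hp) (Nat.dvd_of_mem_primeFactors hp)) _) fun p hp => ?_
  exact pow_le_pow_left₀ (h0 p (Nat.prime_of_mem_primeFactors hp) (Nat.dvd_of_mem_primeFactors hp))
    (h1 p (Nat.prime_of_mem_primeFactors hp) (Nat.dvd_of_mem_primeFactors hp)) _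

theorem CM_congr {g h : ℕ → ℝ} {n : ℕ} (h1 : ∀ p : ℕ, p.Prime → p ∣ n → g p = h p) :
    CM g n = CM h n := by
  rw [CM_eq_prod, CM_eq_prod]
  refine Finset.prod_congr rfl fun p hp => ?_
  rw [h1 p (Nat.prime_of_mem_primeFactors hp) (Nat.dvd_of_mem_primeFactors hp)]

theorem CM_mul_fun (g h : ℕ → ℝ) (n : ℕ) : CM (fun p => g p * h p) n = CM g n * CM h n := by
  simp only [CM_eq_prod, mul_pow, Finset.prod_mul_distrib]

theorem abs_CM (g : ℕ → ℝ) (n : ℕ) : |CM g n| = CM (fun p => |g p|) n := by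
  simp only [CM_eq_prod, Finset.abs_prod, abs_pow]

theorem CM_const (c : ℝ) (n : ℕ) : CM (fun _ => c) n = c ^ n.primeFactorsList.length := by
  simp [CM]

theorem CM_rpow (a : ℝ) {n : ℕ} (hn : n ≠ 0) : CM (fun p => (p : ℝ) ^ a) n = (n : ℝ) ^ a := by
  induction n using Nat.recOnMul with
  | zero => exact absurd rfl hn
  | one => simp [CM_one]
  | prime p hp => exact CM_prime _ hp
  | mul m k hm hk =>
    have hm0 : m ≠ 0 := left_ne_zero_of_mul hn
    have hk0 : k ≠ 0 := right_ne_zero_of_mul hn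
    rw [CM_mul _ hm0 hk0, hm hm0, hk hk0, Nat.cast_mul,
      Real.mul_rpow (Nat.cast_nonneg _) (Nat.cast_nonneg _)]

theorem CM_eq_zero {g : ℕ → ℝ} {n p : ℕ} (hn : n ≠ 0) (hp : p.Prime) (hpn : p ∣ n)
    (h : g p = 0) : CM g n = 0 := by
  rw [CM_eq_prod]
  refine Finset.prod_eq_zero (Nat.mem_primeFactors.mpr ⟨hp, hpn, hn⟩) ?_
  rw [h, zero_pow]
  exact (hp.factorization_pos_of_dvd hn hpn).ne'

/-! ### cells -/

theorem ec_le (d : ℝ) (hd : 0 < d) (k : ℕ) : ec d k ≤ k := by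
  unfold ec
  refine Nat.floor_le_of_le ?_
  have : (0 : ℝ) ≤ k := Nat.cast_nonneg k
  (clear * - hd; nlinarith)

theorem mem_cell {d : ℝ} {k j n : ℕ} :
    n ∈ cell d k j ↔ 2 ^ k + j * 2 ^ ec d k ≤ n ∧ n < 2 ^ k + (j + 1) * 2 ^ ec d k := by
  simp [cell]

theorem cell_lt {d : ℝ} (hd : 0 < d) {k j n : ℕ} (hj : j < nc d k) (hn : n ∈ cell d k j) :
    n < 2 ^ (k + 1) := by
  rw [mem_cell] at hn
  have h1 : (j + 1) * 2 ^ ec d k ≤ 2 ^ (k - ec d k) * 2 ^ ec d k :=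
    Nat.mul_le_mul_right _ hj
  rw [← pow_add, Nat.sub_add_cancel (ec_le d hd k)] at h1
  have h2 : 2 ^ (k + 1) = 2 ^ k + 2 ^ k := by ring
  omega

theorem cell_ge {d : ℝ} {k j n : ℕ} (hn : n ∈ cell d k j) : 2 ^ k ≤ n := by
  rw [mem_cell] at hn
  omega

theorem cell_log {d : ℝ} (hd : 0 < d) {k j n : ℕ} (hj : j < nc d k) (hn : n ∈ cell d k j) :
    Nat.log 2 n = k :=
  Nat.log_eq_of_pow_le_of_lt_pow (cell_ge hn) (cell_lt hd hj hn)

namespace Sys

variable (S : Sys)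

theorem cell_idx {k j n : ℕ} (hj : j < nc S.d k) (hn : n ∈ cell S.d k j) : S.idx n = j := by
  unfold idx
  rw [cell_log S.d_pos hj hn]
  rw [mem_cell] at hn
  have h2 : 0 < 2 ^ ec S.d k := by positivity
  refine Nat.div_eq_of_lt_le ?_ ?_
  · omega
  · omega

theorem mem_cell_idx {n : ℕ} (hn : n ≠ 0) : n ∈ cell S.d (Nat.log 2 n) (S.idx n) := by
  rw [mem_cell]
  unfold idx
  have h1 : 2 ^ Nat.log 2 n ≤ n := Nat.pow_log_le_self 2 hn
  have h2 : 0 < 2 ^ ec S.d (Nat.log 2 n) := by positivity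
  have h3 := Nat.div_mul_le_self (n - 2 ^ Nat.log 2 n) (2 ^ ec S.d (Nat.log 2 n))
  have h4 := Nat.lt_div_mul_add h2 (a := n - 2 ^ Nat.log 2 n)
  constructor
  · omega
  · rw [add_mul, one_mul]
    omega

theorem idx_lt (n : ℕ) : S.idx n < nc S.d (Nat.log 2 n) := by
  unfold idx nc
  have h2 : 0 < 2 ^ ec S.d (Nat.log 2 n) := by positivity
  rw [Nat.div_lt_iff_lt_mul h2, ← pow_add, Nat.sub_add_cancel (ec_le S.d S.d_pos _)]
  have h1 : n < 2 ^ (Nat.log 2 n + 1) := Nat.lt_pow_succ_log_self (by norm_num) n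
  have h3 : 2 ^ (Nat.log 2 n + 1) = 2 ^ Nat.log 2 n + 2 ^ Nat.log 2 n := by ring
  have h4 : 0 < 2 ^ Nat.log 2 n := by positivity
  omega

theorem mem_badc {k j : ℕ} : j ∈ S.badc k ↔ j < nc S.d k ∧ S.bad k j := by
  unfold badc
  rw [Finset.mem_filter, Finset.mem_range]

theorem mem_act {R : Set ℕ} {k j : ℕ} {x : ℕ × ℕ} :
    x ∈ S.act R k j ↔ x ∈ S.Cand k j ∧ inR R x.2 := by
  unfold act
  rw [Finset.mem_filter]

/-- basic facts about candidates -/
theorem cand_facts {k j : ℕ} (hk : S.K ≤ k) (hj : j ∈ S.badc k) {x : ℕ × ℕ}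
    (hx : x ∈ S.Cand k j) :
    x.1.Prime ∧ Squarefree x.2 ∧ x.1.Coprime x.2 ∧ 1 < x.2 ∧ x.1 * x.2 ∈ cell S.d k j ∧
      2 ^ k ≤ x.1 * x.2 ∧ x.1 * x.2 < 2 ^ (k + 1) ∧ (2 : ℝ) ^ ((k : ℝ) / 3) ≤ x.1 ∧ k < top x.1 := by
  rw [S.mem_badc] at hj
  obtain ⟨h1, h2, h3, h4, h5, -, -⟩ := S.cand k hk j hj.1 hj.2 x hx
  refine ⟨h1, h3.squarefree_of_dvd (Dvd.intro_left _ rfl), Nat.coprime_of_squarefree_mul h3, h4, h5,
    cell_ge h5, cell_lt S.d_pos hj.1 h5, h2, ?_⟩
  unfold top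
  have h6 : x.1 < 2 ^ (Nat.log 2 x.1 + 1) := Nat.lt_pow_succ_log_self (by norm_num) _
  have h7 : (x.1 : ℝ) < (2 : ℝ) ^ ((Nat.log 2 x.1 + 1 : ℕ) : ℝ) := by
    rw [Real.rpow_natCast]
    exact_mod_cast h6
  have h8 := (Real.rpow_lt_rpow_left_iff (by norm_num : (1 : ℝ) < 2)).mp (h2.trans_lt h7)
  have h9 : (k : ℝ) < (3 * (Nat.log 2 x.1 + 1) : ℕ) := by
    push_cast at h8 ⊢
    (clear * - h8; linarith)
  exact_mod_cast h9

theorem cell_disj {k j k' j' n : ℕ} (hj : j < nc S.d k) (hj' : j' < nc S.d k')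
    (hn : n ∈ cell S.d k j) (hn' : n ∈ cell S.d k' j') : k' = k ∧ j' = j := by
  have h1 := cell_log S.d_pos hj hn
  have h2 := cell_log S.d_pos hj' hn'
  exact ⟨h2.symm.trans h1, (S.cell_idx hj' hn').symm.trans (S.cell_idx hj hn)⟩

/-! ### parameters -/

theorem c_pos : 0 < S.c := by
  have h1 := S.d_pos
  have h2 := S.d_le
  have h3 : S.d * 10 ^ 5 ≤ S.c := by
    rw [le_div_iff₀ (by positivity)] at h2
    exact h2
  (clear * - h1 h2; nlinarith)

theorem eta_pos : 0 < S.eta := by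
  have := S.c_pos
  have := S.c_le
  linarith

theorem del_pos : 0 < S.del := lt_of_lt_of_le S.eta_pos S.eta_le

theorem c_le' : S.c ≤ 3 / 500 := by
  have := S.c_le
  have := S.eta_le
  have := S.del_le
  linarith

theorem eta_le' : S.eta ≤ 3 / 50 := S.eta_le.trans S.del_le

theorem d_le' : S.d ≤ 3 / 5 / 10 ^ 7 := by
  have h := S.d_le
  have h1 := S.c_le'
  have : S.c / 10 ^ 5 ≤ (3 / 500) / 10 ^ 5 := div_le_div_of_nonneg_right h1 (by positivity)
  norm_num at this ⊢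
  (clear * - h h1; linarith)

theorem d_le_c : S.d ≤ S.c / 10 ^ 5 := S.d_le

theorem s_pos : 0 < S.s := by
  have := S.d_pos
  unfold s
  linarith

theorem s_eq : S.s = S.d / 2 := rfl

theorem s_lt : S.s < 1 / 10 ^ 6 := by
  have := S.d_le'
  rw [S.s_eq]
  norm_num at this ⊢
  linarith

theorem ep_pos : 0 < S.ep := mul_pos (mul_pos S.c_pos S.eta_pos) S.d_pos

theorem tau_pos : 0 < S.tau := by
  have := S.ep_pos
  unfold tau
  positivity

theorem ep_eq : S.ep = S.c * S.eta * S.d := rfl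

theorem tau_eq : S.tau = S.ep / 10 ^ 4 := rfl

/-- `τ ≤ c d / 10^5` -/
theorem tau_le : S.tau ≤ S.c * S.d / 10 ^ 5 := by
  rw [S.tau_eq, S.ep_eq]
  have h1 : S.eta ≤ 1 / 10 := by
    have := S.eta_le'
    linarith
  have h2 := mul_pos S.c_pos S.d_pos
  have h3 : S.c * S.eta * S.d ≤ S.c * S.d * (1 / 10) := by (clear * - h1 h2; nlinarith)
  calc S.c * S.eta * S.d / 10 ^ 4 ≤ S.c * S.d * (1 / 10) / 10 ^ 4 :=
        div_le_div_of_nonneg_right h3 (by positivity)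
    _ = S.c * S.d / 10 ^ 5 := by ring

/-- `τ ≤ s / 10^6` -/
theorem tau_le_s : S.tau ≤ S.s / 10 ^ 6 := by
  have h1 := S.tau_le
  have h2 := S.c_le'
  have h3 := S.d_pos
  rw [S.s_eq]
  have h4 : S.c * S.d ≤ (3 / 500) * S.d := mul_le_mul_of_nonneg_right h2 h3.le
  have h5 : S.c * S.d / 10 ^ 5 ≤ (3 / 500) * S.d / 10 ^ 5 :=
    div_le_div_of_nonneg_right h4 (by positivity)
  norm_num at h5 h1 ⊢
  linarith

theorem hh_eq : S.hh = 1/2 - S.s - S.del + S.tau := rfl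

theorem hh_le : S.hh ≤ 1/2 - S.del := by
  have h1 := S.tau_le_s
  have h2 := S.s_pos
  rw [S.hh_eq]
  have : S.s / 10 ^ 6 ≤ S.s := by
    rw [div_le_iff₀ (by positivity)]
    (clear * - h2; nlinarith)
  linarith

theorem hh_ge : 2/5 ≤ S.hh := by
  have h1 := S.tau_pos
  have h2 := S.s_lt
  have h3 := S.del_le
  rw [S.hh_eq]
  norm_num at h2
  linarith

/-! ### `pr`, `base`, `G` -/

theorem pr_pos {m : ℕ} (hm : m ≠ 0) : 0 < S.pr m :=
  Real.rpow_pos_of_pos (by exact_mod_cast Nat.pos_of_ne_zero hm) _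

theorem base_pos {m : ℕ} (hm : m ≠ 0) : 0 < S.base m :=
  Real.rpow_pos_of_pos (by exact_mod_cast Nat.pos_of_ne_zero hm) _

theorem pr_nonneg (m : ℕ) : 0 ≤ S.pr m := Real.rpow_nonneg (Nat.cast_nonneg _) _

theorem base_nonneg (m : ℕ) : 0 ≤ S.base m := Real.rpow_nonneg (Nat.cast_nonneg _) _

theorem gam_nonneg (m : ℕ) : 0 ≤ S.gam m := Real.rpow_nonneg (Nat.cast_nonneg _) _

theorem pr_le_one {m : ℕ} (hm : m ≠ 0) : S.pr m ≤ 1 := by
  unfold pr
  refine Real.rpow_le_one_of_one_le_of_nonpos ?_ ?_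
  · exact_mod_cast Nat.one_le_iff_ne_zero.mpr hm
  · have := S.hh_ge
    (clear * - this; linarith)

theorem pr_mul_base {m : ℕ} (hm : m ≠ 0) : S.pr m * S.base m = (m : ℝ) ^ (S.s - 1 - S.tau) := by
  unfold pr base
  rw [← Real.rpow_add (by exact_mod_cast Nat.pos_of_ne_zero hm), S.hh_eq]
  congr 1
  ring

theorem CM_base {n : ℕ} (hn : n ≠ 0) : CM S.base n = S.base n := CM_rpow _ hn

theorem G_pos {k : ℕ} (hk : 1 ≤ k) : 0 < S.G k := by
  have : (0 : ℝ) < k := by exact_mod_cast hk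
  unfold G
  (clear * - hk; positivity)

theorem G_nonneg (k : ℕ) : 0 ≤ S.G k := by
  unfold G
  (clear * -; positivity)

/-! ### weights -/

theorem bR_nonneg (R : Set ℕ) (p : ℕ) : 0 ≤ S.bR R p := by
  unfold bR
  split_ifs
  · exact S.base_nonneg p
  · exact le_rfl

theorem ordw_nonneg (k0 p : ℕ) : 0 ≤ S.ordw k0 p := by
  unfold ordw
  split_ifs
  · exact le_rfl
  · unfold phi0
    (clear * -; positivity)
  · exact le_rfl
  · exact div_nonneg (S.G_nonneg _) (Nat.cast_nonneg _)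

theorem NN_nonneg (R : Set ℕ) (k j : ℕ) : 0 ≤ S.NN R k j :=
  Finset.sum_nonneg fun x _ => div_nonneg zero_le_one (S.pr_nonneg _)

theorem wo_nonneg (R : Set ℕ) (k j m : ℕ) : 0 ≤ S.wo R k j m :=
  div_nonneg (S.G_nonneg _) (mul_nonneg (mul_nonneg (S.NN_nonneg _ _ _) (S.pr_nonneg _))
    (S.base_nonneg _))

theorem cw_nonneg (R : Set ℕ) (k j q : ℕ) : 0 ≤ S.cw R k j q :=
  Finset.sum_nonneg fun x _ => S.wo_nonneg _ _ _ _

theorem ctl_nonneg (k0 k1 : ℕ) (R : Set ℕ) (q : ℕ) : 0 ≤ S.ctl k0 k1 R q :=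
  Finset.sum_nonneg fun k _ => Finset.sum_nonneg fun j _ => S.cw_nonneg _ _ _ _

theorem ctl_mono {k0 k1 k2 : ℕ} (h : k1 ≤ k2) (R : Set ℕ) (q : ℕ) :
    S.ctl k0 k1 R q ≤ S.ctl k0 k2 R q :=
  Finset.sum_le_sum_of_subset_of_nonneg (Finset.Ico_subset_Ico_right h)
    fun k _ _ => Finset.sum_nonneg fun j _ => S.cw_nonneg _ _ _ _

theorem Wp_nonneg (k0 : ℕ) (R : Set ℕ) (p : ℕ) : 0 ≤ S.Wp k0 R p := by
  have h1 := S.bR_nonneg R p
  have h2 := S.ordw_nonneg k0 p
  have h3 := S.ctl_nonneg k0 (top p) R p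
  unfold Wp
  (clear * - h1 h2 h3; positivity)

theorem Wl_le_Wp (k0 : ℕ) (R : Set ℕ) (k p : ℕ) : S.Wl k0 R k p ≤ S.Wp k0 R p := by
  have h3 := S.ctl_mono (k0 := k0) (min_le_left (top p) ⌈S.kap * k⌉₊) R p
  unfold Wl Wp
  linarith

theorem W_nonneg (k0 : ℕ) (R : Set ℕ) (n : ℕ) : 0 ≤ S.W k0 R n :=
  CM_nonneg fun p _ _ => S.Wp_nonneg k0 R p

theorem W_mul (k0 : ℕ) (R : Set ℕ) {m n : ℕ} (hm : m ≠ 0) (hn : n ≠ 0) :
    S.W k0 R (m * n) = S.W k0 R m * S.W k0 R n := CM_mul _ hm hn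

theorem W_one (k0 : ℕ) (R : Set ℕ) : S.W k0 R 1 = 1 := CM_one _

theorem Fh_nonneg (k0 : ℕ) (R : Set ℕ) (p : ℕ) : 0 ≤ S.Fh k0 R p := by
  unfold Fh
  split_ifs
  · exact le_rfl
  · exact add_nonneg (S.bR_nonneg _ _) (S.gam_nonneg _)

theorem wd_nonneg (k m : ℕ) : 0 ≤ S.wd k m := by
  unfold wd
  positivity

theorem Fe_nonneg (D : Finset ℕ) (n : ℕ) : 0 ≤ S.Fe D n := by
  unfold Fe
  refine Finset.prod_nonneg fun p _ => ?_
  split_ifs
  · exact pow_nonneg (add_nonneg (S.base_nonneg _) (S.gam_nonneg _)) _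
  · exact pow_nonneg (S.gam_nonneg _) _

/-- expansion of the crude majorant -/
theorem CM_Fh_le (k0 : ℕ) (R : Set ℕ) {n : ℕ} (hn : rough k0 n) :
    CM (S.Fh k0 R) n ≤ ∑ D ∈ n.primeFactors.powerset.filter (fun D => ∀ p ∈ D, p ∈ R), S.Fe D n := by
  set D0 : Finset ℕ := n.primeFactors.filter (fun p => p ∈ R) with hD0
  have h1 : CM (S.Fh k0 R) n ≤ S.Fe D0 n := by
    rw [CM_eq_prod]
    unfold Fe
    refine Finset.prod_le_prod (fun p _ => pow_nonneg (S.Fh_nonneg _ _ _) _) fun p hp => ?_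
    have hp' := Nat.mem_primeFactors.mp hp
    have h2 : ¬ ((p : ℝ) < (2 : ℝ) ^ ((k0 : ℝ) / 5)) := not_lt.mpr (hn p hp'.1 hp'.2.1)
    have h3 : S.Fh k0 R p = S.bR R p + S.gam p := by
      unfold Fh
      rw [if_neg h2]
    rw [h3]
    by_cases hR : p ∈ R
    · rw [if_pos (by rw [hD0, Finset.mem_filter]; exact ⟨hp, hR⟩)]
      unfold bR
      rw [if_pos hR]
    · rw [if_neg (by rw [hD0, Finset.mem_filter]; exact fun h => hR h.2)]
      unfold bR
      rw [if_neg hR, zero_add]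
  refine h1.trans ?_
  refine Finset.single_le_sum (f := fun D => S.Fe D n) (fun D _ => S.Fe_nonneg D n) ?_
  rw [Finset.mem_filter, Finset.mem_powerset]
  exact ⟨Finset.filter_subset _ _, fun p hp => (Finset.mem_filter.mp hp).2⟩

theorem CM_Fh_eq_zero (k0 : ℕ) (R : Set ℕ) {n : ℕ} (hn0 : n ≠ 0) (hn : ¬ rough k0 n) :
    CM (S.Fh k0 R) n = 0 := by
  unfold rough at hn
  push Not at hn
  obtain ⟨p, hp, hpn, hlt⟩ := hn
  refine CM_eq_zero hn0 hp hpn ?_
  unfold Fh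
  rw [if_pos hlt]

/-- number of prime factors of rough numbers -/
theorem rough_omega {k0 n : ℕ} (hn0 : n ≠ 0) (hn : rough k0 n) :
    (2 : ℝ) ^ ((k0 : ℝ) / 5 * n.primeFactorsList.length) ≤ n := by
  induction n using Nat.recOnMul with
  | zero => exact absurd rfl hn0
  | one => simp
  | prime p hp =>
    rw [Nat.primeFactorsList_prime hp]
    simpa using hn p hp dvd_rfl
  | mul m k hm hk =>
    have hm0 : m ≠ 0 := left_ne_zero_of_mul hn0
    have hk0 : k ≠ 0 := right_ne_zero_of_mul hn0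
    have h1 := hm hm0 fun p hp hpm => hn p hp (hpm.mul_right _)
    have h2 := hk hk0 fun p hp hpm => hn p hp (hpm.mul_left _)
    rw [(Nat.perm_primeFactorsList_mul hm0 hk0).length_eq, List.length_append, Nat.cast_add,
      mul_add, Real.rpow_add (by norm_num), Nat.cast_mul]
    exact mul_le_mul h1 h2 (by positivity) (Nat.cast_nonneg _)

theorem rough_omega_le {k0 k n : ℕ} (hk0 : 1 ≤ k0) (hn0 : n ≠ 0) (hn : rough k0 n)
    (hnk : n < 2 ^ (k + 1)) : (n.primeFactorsList.length : ℝ) ≤ 5 * (k + 1) / k0 := by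
  have h1 := rough_omega hn0 hn
  have h2 : (n : ℝ) ≤ (2 : ℝ) ^ ((k + 1 : ℕ) : ℝ) := by
    rw [Real.rpow_natCast]
    exact_mod_cast hnk.le
  have h3 := (Real.rpow_le_rpow_left_iff (by norm_num : (1 : ℝ) < 2)).mp (h1.trans h2)
  have h4 : (0 : ℝ) < k0 := by exact_mod_cast hk0
  push_cast at h3
  rw [le_div_iff₀ h4]
  (clear * - h3; linarith)

end Sys

end Pool.Agent.M17.Helper16.KS
end

/- Helper53.KN.Helper30.QRH.BadCells -/
section
/-! Project QRH (MP_768c9c_nt), Part A6: few cells without primes. -/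

set_option autoImplicit false
open Filter Topology MeasureTheory Finset
open scoped ArithmeticFunction.vonMangoldt

namespace Pool.Agent.M17.Helper30.QRH


lemma card_diam {l : ℕ} (X : Finset ℕ) (hd : ∀ x ∈ X, ∀ y ∈ X, x ≤ y + l) : X.card ≤ l + 1 := by
  rcases X.eq_empty_or_nonempty with h | h
  · simp [h]
  · set a := X.min' h with ha
    have hamem : a ∈ X := X.min'_mem h
    have hsub : X ⊆ Icc a (a + l) := by
      intro x hx
      rw [mem_Icc]
      exact ⟨X.min'_le x hx, hd x hx a hamem⟩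
    calc X.card ≤ (Icc a (a + l)).card := card_le_card hsub
      _ = l + 1 := by rw [Nat.card_Icc]; omega

/-- `a`-th powers in a short interval -/
lemma pow_count (y H D a : ℕ) (ha : 2 ≤ a) (hD : 0 < D) (hDy : D * D ≤ y) (T : Finset ℕ)
    (hT : ∀ m ∈ T, y ≤ m ^ a ∧ m ^ a < y + H) : T.card ≤ H / D + 1 := by
  apply card_diam
  intro x hx z hz
  by_contra hc
  push Not at hc
  have hzx : z < x := lt_of_le_of_lt (Nat.le_add_right _ _) hc
  have h1 := hT x hx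
  have h2 := hT z hz
  obtain ⟨b, rfl⟩ : ∃ b, a = b + 1 := ⟨a - 1, by omega⟩
  have hx0 : 0 < x := by omega
  have h3 : D ≤ x ^ b := by
    by_contra hlt
    push Not at hlt
    have h4 : x ^ (b + 1) ≤ x ^ b * x ^ b := by
      rw [pow_succ]
      exact Nat.mul_le_mul_left _ (Nat.le_self_pow (by omega) x)
    have h5 : x ^ b * x ^ b < D * D := Nat.mul_lt_mul_of_lt_of_le hlt hlt.le hD
    omega
  have h6 : z ^ (b + 1) + (x - z) * x ^ b ≤ x ^ (b + 1) := by
    have h7 : z ^ (b + 1) ≤ z * x ^ b := by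
      rw [pow_succ, mul_comm]
      exact Nat.mul_le_mul_left _ (Nat.pow_le_pow_left hzx.le b)
    have h8 : z * x ^ b + (x - z) * x ^ b = x ^ (b + 1) := by
      rw [← add_mul, pow_succ, mul_comm]
      congr 1
      omega
    omega
  have h9 : (x - z) * D ≤ (x - z) * x ^ b := Nat.mul_le_mul_left _ h3
  have h10 : (x - z) * D ≤ H := by omega
  have h11 : x - z ≤ H / D := (Nat.le_div_iff_mul_le hD).2 h10
  omega

/-- proper prime powers in a short interval -/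
lemma ppow_count (k y H D : ℕ) (hD : 0 < D) (hDy : D * D ≤ y)
    (hy2 : y + H ≤ 2 ^ (k + 1)) :
    ((Ico y (y + H)).filter (fun n => IsPrimePow n ∧ ¬ n.Prime)).card ≤ k * (H / D + 1) := by
  classical
  have hsub : (Ico y (y + H)).filter (fun n => IsPrimePow n ∧ ¬ n.Prime) ⊆
      (Icc 2 k).biUnion (fun a => ((range (2 ^ (k + 1))).filter
        (fun m => y ≤ m ^ a ∧ m ^ a < y + H)).image (fun m => m ^ a)) := by
    intro n hn
    rw [mem_filter, mem_Ico] at hn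
    obtain ⟨⟨hn1, hn2⟩, hpp, hnp⟩ := hn
    rw [isPrimePow_nat_iff] at hpp
    obtain ⟨p, a, hp, ha, rfl⟩ := hpp
    have ha2 : 2 ≤ a := by
      by_contra hc
      have : a = 1 := by omega
      subst this
      rw [pow_one] at hnp
      exact hnp hp
    have h1 : 2 ^ a ≤ p ^ a := Nat.pow_le_pow_left hp.two_le a
    have h2 : 2 ^ a < 2 ^ (k + 1) := by omega
    have h3 : a < k + 1 := (Nat.pow_lt_pow_iff_right (by norm_num)).1 h2
    have h4 : p ≤ p ^ a := Nat.le_self_pow (by omega) p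
    simp only [mem_biUnion, mem_Icc, mem_image, mem_filter, mem_range]
    exact ⟨a, ⟨ha2, by omega⟩, p, ⟨by omega, hn1, hn2⟩, rfl⟩
  refine (card_le_card hsub).trans (card_biUnion_le.trans ?_)
  have hb : ∀ a ∈ Icc 2 k, (((range (2 ^ (k + 1))).filter
        (fun m => y ≤ m ^ a ∧ m ^ a < y + H)).image (fun m => m ^ a)).card ≤ H / D + 1 := by
    intro a ha
    rw [mem_Icc] at ha
    refine card_image_le.trans (pow_count y H D a ha.1 hD hDy _ ?_)
    intro m hm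
    exact (mem_filter.1 hm).2
  refine (sum_le_sum hb).trans ?_
  rw [sum_const, Nat.card_Icc, smul_eq_mul]
  exact Nat.mul_le_mul_right _ (by omega)

/-- the sum of `Λ` over a bad cell -/
lemma cell_sum (k y H D : ℕ) (hD : 0 < D) (hDy : D * D ≤ y)
    (hy2 : y + H ≤ 2 ^ (k + 1)) (π : ℝ)
    (hπ : ((((Ico y (y + H)).filter Nat.Prime).card : ℕ) : ℝ) ≤ π) :
    ∑ n ∈ Ico y (y + H), Λ n ≤ ((k + 1) * Real.log 2) * (π + k * (H / D + 1)) := by
  classical
  have h1 : ∀ n ∈ Ico y (y + H), Λ n ≤ if IsPrimePow n then ((k : ℝ) + 1) * Real.log 2 else 0 := by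
    intro n hn
    rw [mem_Ico] at hn
    split_ifs with h
    · refine ArithmeticFunction.vonMangoldt_le_log.trans ?_
      have h2 : (n : ℝ) ≤ 2 ^ (k + 1) := by exact_mod_cast (by omega : n ≤ 2 ^ (k + 1))
      have hn0 : (0 : ℝ) < n := by exact_mod_cast h.pos
      refine (Real.log_le_log hn0 h2).trans (le_of_eq ?_)
      rw [Real.log_pow]
      push_cast
      ring
    · exact (ArithmeticFunction.vonMangoldt_eq_zero_iff.2 h).le
  refine (sum_le_sum h1).trans ?_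
  rw [← sum_filter, sum_const, nsmul_eq_mul, mul_comm]
  have hlog : 0 ≤ ((k : ℝ) + 1) * Real.log 2 := by positivity
  apply mul_le_mul_of_nonneg_left _ hlog
  have h3 : ((Ico y (y + H)).filter IsPrimePow).card ≤ ((Ico y (y + H)).filter Nat.Prime).card +
      ((Ico y (y + H)).filter (fun n => IsPrimePow n ∧ ¬ n.Prime)).card := by
    have : (Ico y (y + H)).filter IsPrimePow ⊆ (Ico y (y + H)).filter Nat.Prime ∪
        (Ico y (y + H)).filter (fun n => IsPrimePow n ∧ ¬ n.Prime) := by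
      intro n hn
      rw [mem_filter] at hn
      rw [mem_union, mem_filter, mem_filter]
      by_cases hp : n.Prime
      · exact Or.inl ⟨hn.1, hp⟩
      · exact Or.inr ⟨hn.1, hn.2, hp⟩
    exact (card_le_card this).trans (card_union_le _ _)
  have h4 := ppow_count k y H D hD hDy hy2
  have h5 : (((Ico y (y + H)).filter IsPrimePow).card : ℝ) ≤
      ((((Ico y (y + H)).filter Nat.Prime).card : ℕ) : ℝ) + ((k * (H / D + 1) : ℕ) : ℝ) := by
    exact_mod_cast h3.trans (Nat.add_le_add_left h4 _)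
  have h6 : ((k * (H / D + 1) : ℕ) : ℝ) ≤ k * ((H : ℝ) / D + 1) := by
    push_cast
    apply mul_le_mul_of_nonneg_left _ (Nat.cast_nonneg k)
    have : ((H / D : ℕ) : ℝ) ≤ (H : ℝ) / D := Nat.cast_div_le
    linarith
  linarith

lemma log_gap {a b : ℝ} (ha : 0 < a) (hab : a ≤ b) : (b - a) / b ≤ Real.log b - Real.log a := by
  have hb : 0 < b := lt_of_lt_of_le ha hab
  have h1 := Real.one_sub_inv_le_log_of_pos (x := b / a) (by positivity)
  rw [Real.log_div hb.ne' ha.ne', inv_div] at h1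
  refine le_trans (le_of_eq ?_) h1
  field_simp

end Pool.Agent.M17.Helper30.QRH
end

/- Helper53.KN.Helper40.AV.EulerNum -/
section
/-! A sharper numerical bound for `e ^ γ`. -/

set_option autoImplicit false

namespace Pool.Agent.M17.Helper40.AV

open Real

theorem harmonic_1024 : (harmonic 1024 : ℚ) < 7.5091757 := by
  decide +kernel

theorem log1024 : Real.log 1024 = 10 * Real.log 2 := by
  rw [show (1024 : ℝ) = 2 ^ 10 by norm_num, Real.log_pow]
  norm_num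

theorem gamma_lt' : eulerMascheroniConstant < 0.57771 := by
  have h1 := eulerMascheroniConstant_lt_eulerMascheroniSeq' 1024
  rw [eulerMascheroniSeq', if_neg (by norm_num)] at h1
  have h2 : ((harmonic 1024 : ℚ) : ℝ) < 7.5091757 := by
    have := (Rat.cast_lt (K := ℝ)).2 harmonic_1024
    refine this.trans_eq ?_
    norm_num
  have h3 := Real.log_two_gt_d9
  push_cast at h1
  rw [log1024] at h1
  linarith

theorem exp_gamma_le : Real.exp eulerMascheroniConstant ≤ 1.782 := by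
  have h1 : Real.exp eulerMascheroniConstant ≤ Real.exp 0.57771 :=
    Real.exp_le_exp.2 gamma_lt'.le
  refine h1.trans ?_
  have h3 := Real.exp_bound' (x := (0.57771 : ℝ)) (by norm_num) (by norm_num)
    (n := 9) (by norm_num)
  refine h3.trans ?_
  norm_num [Finset.sum_range_succ, Nat.factorial]

end Pool.Agent.M17.Helper40.AV
end
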