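import Mathlib
import Pool.Agent.Helper53.KM.G01
import Pool.Agent.Helper53.KM.G02

/- Helper53.KN.Helper18.KL.Defs -/
section
/-!
# Project KS: load theorem (Load1, Load2), common definitions and statements

`x = (q, m)` a candidate of a bad cell of block `k'`, `q ∣ n`, `n` in the cell `(k, j)`, `l = n / q`,
`A` the conditioning set.

* (Red) `LP ≤ 2^(20 τ k) 2^((s-1) k) LS`, `LS` the sum of the relative weights
  `((m_A / m) * sig (A ∪ pf m) l)^hh`.
* (KF) terms such that some prime of `m` is neither in `A` nor a divisor of `l`: `n` first.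
* (JF) terms such that `A` contains a prime of `m` and all the primes of `m` outside `A` divide `l`:
  candidates first.
* (LL) terms with `m ∣ l`, no prime of `m` in `A`, large cofactor.
-/

set_option autoImplicit false
open scoped Classical

namespace Pool.Agent.M17.Helper18.KL

open Pool.Agent.M17.Helper16.KS

/-- `∏ p^v` over the primes of `O`, `∏ p^(v-1)` over the other primes, `v` the exponent in `n` -/
noncomputable def sig (O : Finset ℕ) (n : ℕ) : ℕ :=
  ∏ p ∈ n.primeFactors, if p ∈ O then p ^ n.factorization p else p ^ (n.factorization p - 1)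

/-- the part of the squarefree number `m` composed of primes of `A` -/
def mA (A : Finset ℕ) (m : ℕ) : ℕ := ∏ p ∈ m.primeFactors ∩ A, p

/-- relative weight of a term -/
noncomputable def tw (S : Sys) (A : Finset ℕ) (m l : ℕ) : ℝ :=
  ((mA A m : ℝ) / m * (sig (A ∪ m.primeFactors) l : ℝ)) ^ S.hh

/-- sum of the relative weights -/
noncomputable def LS (S : Sys) (k0 k j : ℕ) (Q : ℕ × ℕ → ℕ → ℕ × ℕ → Prop) (A : Finset ℕ) : ℝ :=
  ∑ n ∈ (cell S.d k j).filter (Sys.rough k0), ∑ k' ∈ S.hvy k0 k, ∑ j' ∈ S.badc k',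
    ∑ x ∈ (S.Cand k' j').filter (fun x => x.1 ∣ n ∧ Q (k', j') n x ∧
      A ⊆ x.2.primeFactors ∪ (n / x.1).primeFactors), tw S A x.2 (n / x.1)

/-- (RED) -/
def Red : Prop := ∀ S : Sys, ∃ K0 : ℕ, ∀ k0 : ℕ, K0 ≤ k0 → ∀ k, k0 ≤ k → ∀ j < nc S.d k,
  ∀ (Q : ℕ × ℕ → ℕ → ℕ × ℕ → Prop) (A : Finset ℕ),
  S.LP k0 k j Q A ≤ (2 : ℝ) ^ (20 * S.tau * k) * (2 : ℝ) ^ ((S.s - 1) * k) * LS S k0 k j Q A

/-- (POWA) weighted count of the multiples of `a` in a window, all primes of `a` in `O` -/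
def PowA : Prop := ∀ S : Sys, ∀ e : ℝ, 0 < e → e ≤ S.eta → ∃ C : ℝ, 0 < C ∧
  ∀ (x y P0 : ℕ) (O : Finset ℕ) (a : ℕ), 1 ≤ x → y ≤ x → 2 ≤ P0 → (∀ p ∈ O, p.Prime ∧ P0 ≤ p) → 1 ≤ a →
  a.primeFactors ⊆ O →
  ∑ n ∈ (Finset.Ico x (x + y)).filter (fun n => a ∣ n), (sig O n : ℝ) ^ S.hh ≤
    C * 2 ^ (O.card + Nat.log P0 (2 * x)) *
      (y * (a : ℝ) ^ (S.hh - 1) + (x : ℝ) ^ (1 / 2 - e) * (a : ℝ) ^ (S.hh - 1 / 2 + e))

/-- (POWB) weighted count of the numbers with large `sig` -/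
def PowB : Prop := ∀ S : Sys, ∀ e : ℝ, 0 < e → e ≤ S.eta → ∃ C : ℝ, 0 < C ∧
  ∀ (x y P0 : ℕ) (O : Finset ℕ) (B : ℝ), 1 ≤ x → y ≤ x → 2 ≤ P0 → (∀ p ∈ O, p.Prime ∧ P0 ≤ p) → 1 ≤ B →
  ∑ n ∈ (Finset.Ico x (x + y)).filter (fun n => B ≤ (sig O n : ℝ)), (sig O n : ℝ) ^ S.hh ≤
    C * 2 ^ (O.card + Nat.log P0 (2 * x)) * (y * B ^ (-e) + (x : ℝ) ^ (1 / 2 - e))

/-- `n` first: some prime of `m` is neither in `A` nor a divisor of `n / q` -/
def QK (A : Finset ℕ) (_ : ℕ × ℕ) (n : ℕ) (x : ℕ × ℕ) : Prop :=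
  ∃ p : ℕ, p.Prime ∧ p ∣ x.2 ∧ p ∉ A ∧ ¬ p ∣ n / x.1

/-- candidates first: a prime of `m` is in `A`, the primes of `m` outside `A` divide `n / q` -/
def QJ (A : Finset ℕ) (_ : ℕ × ℕ) (n : ℕ) (x : ℕ × ℕ) : Prop :=
  (∃ p : ℕ, p.Prime ∧ p ∣ x.2 ∧ p ∈ A) ∧ ∀ p : ℕ, p.Prime → p ∣ x.2 → p ∉ A → p ∣ n / x.1

/-- direct terms with a large cofactor, no prime of `m` in `A` -/
def QL (S : Sys) (A : Finset ℕ) (i : ℕ × ℕ) (n : ℕ) (x : ℕ × ℕ) : Prop :=
  S.Q2 i n x ∧ ∀ p : ℕ, p.Prime → p ∣ x.2 → p ∉ A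

/-- the bound which is needed (the three classes and the blocks are added up) -/
def SmallLS (Q : Sys → Finset ℕ → ℕ × ℕ → ℕ → ℕ × ℕ → Prop) : Prop :=
  ∀ S : Sys, ∃ K0 : ℕ, ∀ k0 : ℕ, K0 ≤ k0 → ∀ k, k0 ≤ k → ∀ j < nc S.d k, ∀ A : Finset ℕ,
    LS S k0 k j (Q S A) A ≤ (2 : ℝ) ^ (-(S.ep / 40) * k) * 2 ^ ec S.d k

def KF : Prop := SmallLS (fun _ A => QK A)
def JF : Prop := SmallLS (fun _ A => QJ A)
def LL : Prop := SmallLS (fun S A => QL S A)

end Pool.Agent.M17.Helper18.KL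
end

/- Helper53.KN.Helper48.KS.PowGiven -/
section
/-!
# Powerful parts with a given set of primes (project KS, MP_768c9c_nt)

Consumer forms of `PowHalf` (helper18's POW): sums of `(k / rad_g k) ^ (1/2 - δ)` over `k` in an
interval, where `rad_g k` is the product of the primes `p ∣ k`, `p ∉ g`.
-/

set_option autoImplicit false

namespace Pool.Agent.M17.Helper48.KS

open Finset

/-- product of the primes dividing `k` which are not in `g` -/
def radg (g : Finset ℕ) (k : ℕ) : ℕ := ∏ p ∈ k.primeFactors \ g, p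

/-- the part of `k` composed of primes of `g` -/
def gpart (g : Finset ℕ) (k : ℕ) : ℕ := ∏ p ∈ k.primeFactors ∩ g, p ^ k.factorization p

/-- the part of `k` composed of primes outside `g` -/
def cpart (g : Finset ℕ) (k : ℕ) : ℕ := ∏ p ∈ k.primeFactors \ g, p ^ k.factorization p

/-- number of `1 ≤ a ≤ z` composed of primes of `g` -/
def Ng (g : Finset ℕ) (z : ℕ) : ℕ := ((Finset.Icc 1 z).filter (fun a => a.primeFactors ⊆ g)).card

theorem gpart_mul_cpart (g : Finset ℕ) {k : ℕ} (hk : k ≠ 0) : gpart g k * cpart g k = k := by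
  classical
  unfold gpart cpart
  conv_rhs => rw [← Nat.prod_factorization_pow_eq_self hk]
  rw [Nat.prod_factorization_eq_prod_primeFactors, ← Finset.prod_union]
  · rw [Finset.union_comm, Finset.sdiff_union_inter]
  · exact Finset.disjoint_of_subset_left Finset.inter_subset_right Finset.disjoint_sdiff

theorem primeFactors_prod_pow {s : Finset ℕ} (hs : ∀ p ∈ s, p.Prime) (v : ℕ → ℕ)
    (hv : ∀ p ∈ s, v p ≠ 0) : (∏ p ∈ s, p ^ v p).primeFactors = s := by
  classical
  ext q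
  rw [Nat.mem_primeFactors]
  constructor
  · rintro ⟨hq, hd, _⟩
    obtain ⟨p, hp, hqp⟩ := (Prime.dvd_finsetProd_iff hq.prime _).mp hd
    have := hq.dvd_of_dvd_pow hqp
    rw [(Nat.prime_dvd_prime_iff_eq hq (hs p hp)).mp this]
    exact hp
  · intro hq
    refine ⟨hs q hq, ?_, ?_⟩
    · exact (dvd_pow_self q (hv q hq)).trans (Finset.dvd_prod_of_mem (fun p => p ^ v p) hq)
    · exact Finset.prod_ne_zero_iff.mpr fun p hp => pow_ne_zero _ (hs p hp).ne_zero

theorem primeFactors_cpart (g : Finset ℕ) (k : ℕ) :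
    (cpart g k).primeFactors = k.primeFactors \ g := by
  classical
  refine primeFactors_prod_pow (fun p hp => Nat.prime_of_mem_primeFactors (Finset.sdiff_subset hp))
    _ fun p hp => ?_
  have := Finset.sdiff_subset hp
  rw [← Nat.support_factorization] at this
  exact Finsupp.mem_support_iff.mp this

theorem primeFactors_gpart (g : Finset ℕ) (k : ℕ) :
    (gpart g k).primeFactors = k.primeFactors ∩ g := by
  classical
  refine primeFactors_prod_pow
    (fun p hp => Nat.prime_of_mem_primeFactors (Finset.inter_subset_left hp)) _ fun p hp => ?_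
  have := Finset.inter_subset_left hp
  rw [← Nat.support_factorization] at this
  exact Finsupp.mem_support_iff.mp this

theorem gpart_pos (g : Finset ℕ) (k : ℕ) : 0 < gpart g k :=
  Finset.prod_pos fun p hp =>
    pow_pos (Nat.prime_of_mem_primeFactors (Finset.inter_subset_left hp)).pos _

theorem cpart_pos (g : Finset ℕ) (k : ℕ) : 0 < cpart g k :=
  Finset.prod_pos fun p hp =>
    pow_pos (Nat.prime_of_mem_primeFactors (Finset.sdiff_subset hp)).pos _

theorem radg_pos (g : Finset ℕ) (k : ℕ) : 0 < radg g k :=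
  Finset.prod_pos fun _ hp => (Nat.prime_of_mem_primeFactors (Finset.sdiff_subset hp)).pos

theorem radg_eq (g : Finset ℕ) (k : ℕ) : radg g k = ∏ p ∈ (cpart g k).primeFactors, p := by
  rw [primeFactors_cpart]; rfl

theorem radg_eq' (g : Finset ℕ) (k : ℕ) :
    (radg g k : ℝ) = ∏ p ∈ (cpart g k).primeFactors, (p : ℝ) := by
  rw [radg_eq]; push_cast; rfl

theorem ratio_eq (g : Finset ℕ) {k : ℕ} (hk : k ≠ 0) :
    (k : ℝ) / radg g k =
      gpart g k * ((cpart g k : ℝ) / ∏ p ∈ (cpart g k).primeFactors, (p : ℝ)) := by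
  have h := gpart_mul_cpart g hk
  have h1 : (k : ℝ) = gpart g k * cpart g k := by exact_mod_cast h.symm
  rw [← radg_eq', h1, mul_div_assoc]

/-! ### The number of integers composed of given primes -/

theorem Ng_empty (z : ℕ) : Ng ∅ z ≤ 1 := by
  unfold Ng
  rw [Finset.card_le_one]
  have key : ∀ a ∈ (Finset.Icc 1 z).filter (fun a => a.primeFactors ⊆ (∅ : Finset ℕ)), a = 1 := by
    intro a ha
    rw [Finset.mem_filter, Finset.mem_Icc, Finset.subset_empty, Nat.primeFactors_eq_empty] at ha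
    omega
  intro a ha b hb
  rw [key a ha, key b hb]

theorem Ng_insert (g : Finset ℕ) (p z : ℕ) (hp : p.Prime) :
    Ng (insert p g) z ≤ ∑ j ∈ Finset.range (Nat.log p z + 1), Ng g (z / p ^ j) := by
  classical
  unfold Ng
  rw [← Finset.card_sigma]
  refine Finset.card_le_card_of_injOn
    (fun a => (⟨a.factorization p, a / p ^ a.factorization p⟩ : Σ _ : ℕ, ℕ)) ?_ ?_
  · intro a ha
    rw [Finset.mem_coe, Finset.mem_filter, Finset.mem_Icc] at ha
    obtain ⟨⟨ha1, haz⟩, hag⟩ := ha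
    have ha0 : a ≠ 0 := by omega
    rw [Finset.mem_coe, Finset.mem_sigma]
    constructor
    · rw [Finset.mem_range, Nat.lt_succ_iff]
      have h1 : p ^ a.factorization p ≤ z := (Nat.ordProj_le p ha0).trans haz
      exact Nat.le_log_of_pow_le hp.one_lt h1
    · dsimp only
      rw [Finset.mem_filter, Finset.mem_Icc]
      refine ⟨⟨Nat.div_pos (Nat.ordProj_le p ha0) (Nat.ordProj_pos a p),
        Nat.div_le_div_right haz⟩, ?_⟩
      intro q hq
      rw [Nat.mem_primeFactors] at hq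
      have hqa : q ∣ a := hq.2.1.trans (Nat.ordCompl_dvd a p)
      have hmem : q ∈ insert p g := hag (Nat.mem_primeFactors.mpr ⟨hq.1, hqa, ha0⟩)
      rcases Finset.mem_insert.mp hmem with h | h
      · exfalso
        subst h
        exact Nat.not_dvd_ordCompl hq.1 ha0 hq.2.1
      · exact h
  · intro a ha b hb hab
    simp only [Sigma.mk.injEq, heq_eq_eq] at hab
    obtain ⟨h1, h2⟩ := hab
    rw [← Nat.ordProj_mul_ordCompl_eq_self a p, ← Nat.ordProj_mul_ordCompl_eq_self b p, h2, h1]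

/-- (G2) -/
theorem Ng_le (P0 : ℕ) (hP0 : 2 ≤ P0) (g : Finset ℕ) (hg : ∀ p ∈ g, p.Prime ∧ P0 ≤ p) :
    ∀ z : ℕ, Ng g z ≤ 2 ^ (g.card + Nat.log P0 z) := by
  classical
  induction g using Finset.induction_on with
  | empty =>
    intro z
    exact (Ng_empty z).trans Nat.one_le_two_pow
  | insert p g hpg ih =>
    intro z
    have hp := hg p (Finset.mem_insert_self p g)
    have ih' := ih fun q hq => hg q (Finset.mem_insert_of_mem hq)
    refine (Ng_insert g p z hp.1).trans ?_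
    have hlog : ∀ j ∈ Finset.range (Nat.log p z + 1), Ng g (z / p ^ j) ≤
        2 ^ (g.card + (Nat.log P0 z - j)) := by
      intro j _
      refine (ih' (z / p ^ j)).trans ?_
      apply Nat.pow_le_pow_right (by norm_num)
      apply Nat.add_le_add_left
      calc Nat.log P0 (z / p ^ j) ≤ Nat.log P0 (z / P0 ^ j) := by
            apply Nat.log_mono_right
            apply Nat.div_le_div_left (Nat.pow_le_pow_left hp.2 j)
            exact pow_pos (by omega) j
        _ = Nat.log P0 z - j := Nat.log_div_base_pow P0 z j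
    refine (Finset.sum_le_sum hlog).trans ?_
    have hle : Nat.log p z ≤ Nat.log P0 z := by
      apply Nat.log_anti_left (by omega) hp.2
    calc ∑ j ∈ Finset.range (Nat.log p z + 1), 2 ^ (g.card + (Nat.log P0 z - j))
        ≤ ∑ j ∈ Finset.range (Nat.log P0 z + 1), 2 ^ (g.card + (Nat.log P0 z - j)) := by
          apply Finset.sum_le_sum_of_subset
          apply Finset.range_mono
          omega
      _ = 2 ^ g.card * ∑ j ∈ Finset.range (Nat.log P0 z + 1), 2 ^ (Nat.log P0 z - j) := by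
          rw [Finset.mul_sum]
          refine Finset.sum_congr rfl fun j _ => ?_
          rw [pow_add]
      _ = 2 ^ g.card * ∑ j ∈ Finset.range (Nat.log P0 z + 1), 2 ^ j := by
          congr 1
          rw [← Finset.sum_range_reflect]
          refine Finset.sum_congr rfl fun j hj => ?_
          rw [Finset.mem_range] at hj
          congr 1
          omega
      _ ≤ 2 ^ g.card * 2 ^ (Nat.log P0 z + 1) := by
          apply Nat.mul_le_mul_left
          have := Nat.geomSum_eq (m := 2) le_rfl (Nat.log P0 z + 1)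
          rw [this]
          simp
      _ = 2 ^ ((insert p g).card + Nat.log P0 z) := by
          rw [Finset.card_insert_of_notMem hpg, ← pow_add]
          congr 1
          omega

end Pool.Agent.M17.Helper48.KS
end

/- Helper53.KN.Helper18.KL.PowA -/
section
/-! Project KS: weighted counts in windows with a given set of primes. -/

set_option autoImplicit false
open scoped Classical
open Finset

namespace Pool.Agent.M17.Helper18.KL

open Pool.Agent.M17.Helper16.KS Pool.Agent.M17.Helper48.KS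

theorem sig_mul_radg (O : Finset ℕ) {n : ℕ} (hn : n ≠ 0) : sig O n * radg O n = n := by
  have h1 : radg O n = ∏ p ∈ n.primeFactors, if p ∈ O then 1 else p := by
    unfold radg
    rw [Finset.prod_ite, Finset.prod_const_one, one_mul]
    refine Finset.prod_congr ?_ fun _ _ => rfl
    ext p
    simp [Finset.mem_sdiff]
  rw [h1]
  unfold sig
  rw [← Finset.prod_mul_distrib]
  conv_rhs => rw [← Nat.prod_factorization_pow_eq_self hn]
  rw [Nat.prod_factorization_eq_prod_primeFactors]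
  refine Finset.prod_congr rfl fun p hp => ?_
  have hv : 1 ≤ n.factorization p :=
    (Nat.prime_of_mem_primeFactors hp).factorization_pos_of_dvd hn (Nat.dvd_of_mem_primeFactors hp)
  split_ifs with h
  · rw [mul_one]
  · rw [← pow_succ]
    congr 1
    omega

theorem sig_pos (O : Finset ℕ) {n : ℕ} (hn : n ≠ 0) : 1 ≤ sig O n := by
  have h := sig_mul_radg O hn
  rcases Nat.eq_zero_or_pos (sig O n) with h0 | h0
  · rw [h0, zero_mul] at h; omega
  · exact h0

theorem sig_eq (O : Finset ℕ) {n : ℕ} (hn : n ≠ 0) : (sig O n : ℝ) = (n : ℝ) / radg O n := by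
  have h := sig_mul_radg O hn
  have h0 : (radg O n : ℝ) ≠ 0 := by exact_mod_cast (radg_pos O n).ne'
  rw [eq_div_iff h0]
  exact_mod_cast h

theorem sig_eq2 (O : Finset ℕ) {n : ℕ} (hn : n ≠ 0) :
    (sig O n : ℝ) = gpart O n * ((cpart O n : ℝ) / (rad (cpart O n) : ℝ)) := by
  rw [sig_eq O hn, ratio_eq O hn]
  congr 2
  unfold rad
  push_cast
  rfl

theorem hh_le (S : Sys) : S.hh ≤ 1 / 2 - S.del ∧ 0 < S.hh ∧ S.hh - 1 + S.eta ≤ 0 ∧ S.hh - 1 / 2 + S.eta ≤ 0 := by
  have h1 := S.d_pos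
  have h2 := S.d_le
  have h3 := S.c_le
  have h4 := S.eta_le
  have h5 := S.del_le
  have hc : 0 < S.c := by (clear * - h1 h2; nlinarith)
  have heta : 0 < S.eta := by (clear * - h1 h2 h3; nlinarith)
  have hep : S.ep ≤ S.d := by
    unfold Sys.ep
    have : S.c * S.eta ≤ 1 := by (clear * - h2 h3 h4 h5 h1; nlinarith)
    (clear * - h1 this; nlinarith)
  have hep0 : 0 < S.ep := by unfold Sys.ep; positivity
  have htau : S.tau ≤ S.s := by
    unfold Sys.tau Sys.s
    (clear * - h1 hep; linarith)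
  have htau0 : 0 < S.tau := by unfold Sys.tau; positivity
  have hs : 0 < S.s := by unfold Sys.s; positivity
  have hs1 : S.s ≤ 1 / 100 := by unfold Sys.s; linarith
  unfold Sys.hh
  refine ⟨by (clear * - htau; linarith), by linarith, by linarith, by (clear * - h4 htau; linarith)⟩

theorem eta_pos (S : Sys) : 0 < S.eta := by
  have h1 := S.d_pos
  have h2 := S.d_le
  have h3 := S.c_le
  nlinarith

theorem one_le_ratio' {k : ℕ} (hk : k ≠ 0) : 1 ≤ (k : ℝ) / (rad k : ℝ) := by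
  have h0 : 0 < rad k := Finset.prod_pos fun p hp => (Nat.prime_of_mem_primeFactors hp).pos
  rw [one_le_div (by exact_mod_cast h0)]
  exact_mod_cast Nat.le_of_dvd (Nat.pos_of_ne_zero hk) (Nat.prod_primeFactors_dvd k)

/-- windows of any length -/
theorem winC (S : Sys) (e : ℝ) (he0 : 0 < e) (he : e ≤ S.eta) : ∃ C : ℝ, 0 < C ∧ ∀ (x y : ℕ) (B : ℝ),
    1 ≤ x → y ≤ x → 1 ≤ B →
    ∑ k ∈ (Ico x (x + y)).filter (fun k : ℕ => B ≤ (k : ℝ) / (rad k : ℝ)), ((k : ℝ) / (rad k : ℝ)) ^ S.hh ≤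
      C * (y + (x : ℝ) ^ (1 / 2 - e)) * B ^ (-e) := by
  obtain ⟨C, h⟩ := S.pow
  refine ⟨2 * (|C| + 1), by (clear * -; positivity), ?_⟩
  intro x y B hx hy hB
  have hx1 : (1 : ℝ) ≤ x := by exact_mod_cast hx
  have hx0 : (0 : ℝ) < x := by (clear * - hx1; linarith)
  set y' : ℕ := max y ⌈(x : ℝ) ^ (1 / 2 - e)⌉₊ with hy'
  have heta := eta_pos S
  have hdel : S.del ≤ 3 / 50 := S.del_le
  have heta2 : S.eta ≤ 3 / 50 := S.eta_le.trans hdel
  have hxe : (1 : ℝ) ≤ (x : ℝ) ^ (1 / 2 - e) := Real.one_le_rpow hx1 (by (clear * - he0 he heta2; linarith))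
  have hxe2 : (x : ℝ) ^ (1 / 2 - e) ≤ x := by
    calc (x : ℝ) ^ (1 / 2 - e) ≤ (x : ℝ) ^ (1 : ℝ) := Real.rpow_le_rpow_of_exponent_le hx1 (by (clear * - he0 he heta2; linarith))
      _ = x := Real.rpow_one _
  have h1 : (x : ℝ) ^ (1 / 2 - S.eta) ≤ y' := by
    calc (x : ℝ) ^ (1 / 2 - S.eta) ≤ (x : ℝ) ^ (1 / 2 - e) := Real.rpow_le_rpow_of_exponent_le hx1 (by (clear * - he; linarith))
      _ ≤ (⌈(x : ℝ) ^ (1 / 2 - e)⌉₊ : ℝ) := Nat.le_ceil _
      _ ≤ y' := by exact_mod_cast le_max_right _ _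
  have h2 : y' ≤ x := by
    refine max_le hy ?_
    exact Nat.ceil_le.2 hxe2
  have h3 := h x y' B hx h1 h2 hB
  have hyy : y ≤ y' := le_max_left _ _
  have h4 : ∑ k ∈ (Ico x (x + y)).filter (fun k : ℕ => B ≤ (k : ℝ) / (rad k : ℝ)), ((k : ℝ) / (rad k : ℝ)) ^ S.hh ≤
      ∑ k ∈ (Ico x (x + y')).filter (fun k : ℕ => B ≤ (k : ℝ) / (rad k : ℝ)), ((k : ℝ) / (rad k : ℝ)) ^ (1 / 2 - S.del) := by
    refine (Finset.sum_le_sum_of_subset_of_nonneg ?_ fun k _ _ => by (clear * -; positivity)).trans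
      (Finset.sum_le_sum fun k hk => ?_)
    · intro k hk
      rw [Finset.mem_filter, Finset.mem_Ico] at hk ⊢
      exact ⟨⟨hk.1.1, by omega⟩, hk.2⟩
    · rw [Finset.mem_filter, Finset.mem_Ico] at hk
      exact Real.rpow_le_rpow_of_exponent_le (one_le_ratio' (by omega)) (hh_le S).1
  refine h4.trans (h3.trans ?_)
  have h5 : (y' : ℝ) ≤ 2 * (y + (x : ℝ) ^ (1 / 2 - e)) := by
    have h6 : (y' : ℝ) ≤ y + ⌈(x : ℝ) ^ (1 / 2 - e)⌉₊ := by
      have : y' ≤ y + ⌈(x : ℝ) ^ (1 / 2 - e)⌉₊ := by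
        rw [hy']; omega
      exact_mod_cast this
    have h7 : (⌈(x : ℝ) ^ (1 / 2 - e)⌉₊ : ℝ) ≤ (x : ℝ) ^ (1 / 2 - e) + 1 := (Nat.ceil_lt_add_one (by positivity)).le
    have : (0 : ℝ) ≤ y := Nat.cast_nonneg y
    (clear * - hxe h6 h7; linarith)
  have h8 : B ^ (-S.eta) ≤ B ^ (-e) := Real.rpow_le_rpow_of_exponent_le hB (by (clear * - he; linarith))
  have hBe : 0 < B ^ (-S.eta) := by positivity
  have hy0 : (0 : ℝ) ≤ y' := Nat.cast_nonneg _
  calc C * y' * B ^ (-S.eta) ≤ (|C| + 1) * y' * B ^ (-S.eta) := by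
        refine mul_le_mul_of_nonneg_right (mul_le_mul_of_nonneg_right ?_ hy0) hBe.le
        (clear * - he0 he heta2; linarith [le_abs_self C])
    _ ≤ (|C| + 1) * (2 * (y + (x : ℝ) ^ (1 / 2 - e))) * B ^ (-e) := by
        refine mul_le_mul (mul_le_mul_of_nonneg_left h5 (by (clear * -; positivity))) h8 hBe.le (by (clear * - hx; positivity))
    _ = 2 * (|C| + 1) * (y + (x : ℝ) ^ (1 / 2 - e)) * B ^ (-e) := by ring

/-- multiples of `b` in a window -/
theorem ceil_div_facts (x y b : ℕ) (hb : 1 ≤ b) (hx : 1 ≤ x) (hy : y ≤ x) :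
    1 ≤ (x + b - 1) / b ∧ (x + y + b - 1) / b - (x + b - 1) / b ≤ (x + b - 1) / b ∧
    (((x + y + b - 1) / b - (x + b - 1) / b : ℕ) : ℝ) ≤ (y : ℝ) / b + 1 ∧
    (((x + b - 1) / b : ℕ) : ℝ) ≤ (x : ℝ) / b + 1 ∧
    ∀ k : ℕ, (x ≤ b * k ∧ b * k < x + y) ↔ k ∈ Ico ((x + b - 1) / b) ((x + b - 1) / b +
      ((x + y + b - 1) / b - (x + b - 1) / b)) := by
  have hb0 : (0 : ℝ) < b := by exact_mod_cast hb
  set u := (x + b - 1) / b with hu
  set v := (x + y + b - 1) / b with hv
  have hu1 : b * u ≤ x + b - 1 := Nat.mul_div_le _ _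
  have hu2 : x + b - 1 < b * u + b := by
    have := Nat.lt_mul_div_succ (x + b - 1) (show 0 < b by omega)
    rw [← hu] at this
    (clear * - this; linarith)
  have hv1 : b * v ≤ x + y + b - 1 := Nat.mul_div_le _ _
  have hv2 : x + y + b - 1 < b * v + b := by
    have := Nat.lt_mul_div_succ (x + y + b - 1) (show 0 < b by omega)
    rw [← hv] at this
    (clear * - this; linarith)
  have huv : u ≤ v := Nat.div_le_div_right (by omega)
  have h1 : 1 ≤ u := by
    rw [hu]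
    exact (Nat.one_le_div_iff (by omega)).2 (by (clear * - hb hx hy hu1 hu2; omega))
  refine ⟨h1, ?_, ?_, ?_, ?_⟩
  · -- v ≤ 2 u
    have h2 : x ≤ b * u := by omega
    have h3 : b * v < b * (2 * u + 1) := by
      have e1 : b * (2 * u + 1) = 2 * (b * u) + b := by ring
      rw [e1]
      omega
    have h4 : v < 2 * u + 1 := lt_of_mul_lt_mul_left h3 (Nat.zero_le b)
    omega
  · rw [Nat.cast_sub huv]
    have e1 : (b : ℝ) * v ≤ x + y + b - 1 := by
      have : ((b * v : ℕ) : ℝ) ≤ ((x + y + b - 1 : ℕ) : ℝ) := by exact_mod_cast hv1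
      rw [Nat.cast_sub (by omega)] at this
      push_cast at this
      exact this
    have e2 : (x : ℝ) ≤ b * u := by
      have : x ≤ b * u := by omega
      exact_mod_cast this
    have e3 : (v : ℝ) ≤ (x + y + b - 1) / b := by rw [le_div_iff₀ hb0]; (clear * - e1; linarith)
    have e4 : (x : ℝ) / b ≤ u := by rw [div_le_iff₀ hb0]; (clear * - e2; linarith)
    have e5 : ((x : ℝ) + y + b - 1) / b = x / b + y / b + 1 - 1 / b := by field_simp
    have e6 : (0 : ℝ) < 1 / b := by (clear * - hb; positivity)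
    (clear * - e3 e4 e5 e6; linarith)
  · have e1 : (b : ℝ) * u ≤ x + b - 1 := by
      have : ((b * u : ℕ) : ℝ) ≤ ((x + b - 1 : ℕ) : ℝ) := by exact_mod_cast hu1
      rw [Nat.cast_sub (by omega)] at this
      push_cast at this
      exact this
    have e3 : (u : ℝ) ≤ (x + b - 1) / b := by rw [le_div_iff₀ hb0]; (clear * - e1; linarith)
    have e5 : ((x : ℝ) + b - 1) / b = x / b + 1 - 1 / b := by (clear * - hb; field_simp)
    have e6 : (0 : ℝ) < 1 / b := by positivity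
    (clear * - e3 e5 e6; linarith)
  · intro k
    rw [Finset.mem_Ico]
    have e7 : u + (v - u) = v := by omega
    rw [e7]
    constructor
    · rintro ⟨h2, h3⟩
      constructor
      · -- u ≤ k
        by_contra hlt
        push Not at hlt
        have h4 : b * (k + 1) ≤ b * u := Nat.mul_le_mul_left b hlt
        rw [Nat.mul_add, mul_one] at h4
        omega
      · by_contra hge
        push Not at hge
        have h4 : b * v ≤ b * k := Nat.mul_le_mul_left b hge
        omega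
    · rintro ⟨h2, h3⟩
      constructor
      · have h4 : b * u ≤ b * k := Nat.mul_le_mul_left b h2
        omega
      · have h4 : b * (k + 1) ≤ b * v := Nat.mul_le_mul_left b h3
        rw [Nat.mul_add, mul_one] at h4
        omega

theorem dvd_gpart {O : Finset ℕ} {a n : ℕ} (hn : n ≠ 0) (ha : a.primeFactors ⊆ O) (han : a ∣ n) :
    a ∣ gpart O n := by
  have h0 : a ≠ 0 := by rintro rfl; exact hn (Nat.eq_zero_of_zero_dvd han)
  have h1 : a ∣ gpart O n * cpart O n := by rw [gpart_mul_cpart O hn]; exact han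
  refine Nat.Coprime.dvd_of_dvd_mul_right ?_ h1
  rw [Nat.coprime_iff_gcd_eq_one, ← Nat.coprime_iff_gcd_eq_one]
  refine Nat.Coprime.symm ?_
  rw [Nat.Coprime.eq_1]
  by_contra hne
  obtain ⟨p, hp, hpd⟩ := Nat.exists_prime_and_dvd hne
  have hp1 : p ∣ cpart O n := hpd.trans (Nat.gcd_dvd_left _ _)
  have hp2 : p ∣ a := hpd.trans (Nat.gcd_dvd_right _ _)
  have hm1 : p ∈ (cpart O n).primeFactors := Nat.mem_primeFactors.2 ⟨hp, hp1, (cpart_pos O n).ne'⟩
  rw [primeFactors_cpart, Finset.mem_sdiff] at hm1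
  exact hm1.2 (ha (Nat.mem_primeFactors.2 ⟨hp, hp2, h0⟩))

/-- general form -/
theorem powG (S : Sys) (e : ℝ) (he0 : 0 < e) (he : e ≤ S.eta) : ∃ C : ℝ, 0 < C ∧
    ∀ (x y : ℕ) (O : Finset ℕ) (a : ℕ) (B : ℝ), 1 ≤ x → y ≤ x → 1 ≤ a → a.primeFactors ⊆ O → 1 ≤ B →
    ∑ n ∈ (Ico x (x + y)).filter (fun n => a ∣ n ∧ B ≤ (sig O n : ℝ)), (sig O n : ℝ) ^ S.hh ≤
      ∑ b ∈ (Icc 1 (2 * x)).filter (fun b => b.primeFactors ⊆ O ∧ a ∣ b),
        C * ((y * (b : ℝ) ^ (S.hh - 1) + (x : ℝ) ^ (1 / 2 - e) * (b : ℝ) ^ (S.hh - 1 / 2 + e)) *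
          (max 1 (B / b)) ^ (-e)) := by
  obtain ⟨C, hC, h⟩ := winC S e he0 he
  refine ⟨8 * C, by positivity, ?_⟩
  intro x y O a B hx hy ha haO hB
  have hxr : (1 : ℝ) ≤ x := by exact_mod_cast hx
  have hx0 : (0 : ℝ) < x := by (clear * - hxr; linarith)
  have hhh := hh_le S
  have heta2 : S.eta ≤ 3 / 50 := S.eta_le.trans S.del_le
  rw [← Finset.sum_fiberwise_of_maps_to (s := (Ico x (x + y)).filter (fun n => a ∣ n ∧ B ≤ (sig O n : ℝ)))
    (t := (Icc 1 (2 * x)).filter (fun b => b.primeFactors ⊆ O ∧ a ∣ b)) (g := fun n => gpart O n)]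
  · refine Finset.sum_le_sum fun b hb => ?_
    rw [Finset.mem_filter, Finset.mem_Icc] at hb
    have hb1 : 1 ≤ b := hb.1.1
    have hbr : (1 : ℝ) ≤ b := by exact_mod_cast hb1
    have hb0 : (0 : ℝ) < b := by (clear * - he0 he heta2 hbr; linarith)
    have hb2x : (b : ℝ) ≤ 2 * x := by exact_mod_cast hb.1.2
    obtain ⟨f1, f2, f3, f4, f5⟩ := ceil_div_facts x y b hb1 hx hy
    set x' := (x + b - 1) / b with hx'
    set y' := (x + y + b - 1) / b - (x + b - 1) / b with hy'
    set B' : ℝ := max 1 (B / b) with hB'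
    have hB'1 : 1 ≤ B' := le_max_left _ _
    have hw := h x' y' B' f1 f2 hB'1
    -- the fibre
    have hfib : ∑ n ∈ ((Ico x (x + y)).filter (fun n => a ∣ n ∧ B ≤ (sig O n : ℝ))).filter
        (fun n => gpart O n = b), (sig O n : ℝ) ^ S.hh ≤
        (b : ℝ) ^ S.hh * ∑ k ∈ (Ico x' (x' + y')).filter (fun k : ℕ => B' ≤ (k : ℝ) / (rad k : ℝ)),
          ((k : ℝ) / (rad k : ℝ)) ^ S.hh := by
      rw [Finset.mul_sum]
      set F := ((Ico x (x + y)).filter (fun n => a ∣ n ∧ B ≤ (sig O n : ℝ))).filter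
        (fun n => gpart O n = b) with hF
      have hFm : ∀ n ∈ F, n ≠ 0 ∧ b * cpart O n = n ∧ x ≤ n ∧ n < x + y ∧ B ≤ (sig O n : ℝ) ∧ gpart O n = b := by
        intro n hn
        rw [hF, Finset.mem_filter, Finset.mem_filter, Finset.mem_Ico] at hn
        have hn0 : n ≠ 0 := by omega
        refine ⟨hn0, ?_, hn.1.1.1, hn.1.1.2, hn.1.2.2, hn.2⟩
        rw [← hn.2]; exact gpart_mul_cpart O hn0
      have h1 : ∑ n ∈ F, (sig O n : ℝ) ^ S.hh = ∑ n ∈ F, (b : ℝ) ^ S.hh * ((cpart O n : ℝ) / (rad (cpart O n) : ℝ)) ^ S.hh := by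
        refine Finset.sum_congr rfl fun n hn => ?_
        have := hFm n hn
        rw [sig_eq2 O this.1, this.2.2.2.2.2, Real.mul_rpow hb0.le (by (clear * -; positivity))]
      have hinj : Set.InjOn (fun n => cpart O n) (F : Set ℕ) := by
        intro n hn n' hn' hnn
        have e1 := hFm n hn
        have e2 := hFm n' hn'
        simp only at hnn
        rw [← e1.2.1, ← e2.2.1, hnn]
      have h2 : ∑ n ∈ F, (b : ℝ) ^ S.hh * ((cpart O n : ℝ) / (rad (cpart O n) : ℝ)) ^ S.hh =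
          ∑ k ∈ F.image (fun n => cpart O n), (b : ℝ) ^ S.hh * ((k : ℝ) / (rad k : ℝ)) ^ S.hh := by
        rw [Finset.sum_image hinj]
      rw [h1, h2]
      refine Finset.sum_le_sum_of_subset_of_nonneg ?_ fun k _ _ => by (clear * - hb1; positivity)
      intro k hk
      rw [Finset.mem_image] at hk
      obtain ⟨n, hn, rfl⟩ := hk
      have e1 := hFm n hn
      rw [Finset.mem_filter]
      constructor
      · rw [← f5, e1.2.1]
        exact ⟨e1.2.2.1, e1.2.2.2.1⟩
      · have h3 := e1.2.2.2.2.1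
        rw [sig_eq2 O e1.1, e1.2.2.2.2.2] at h3
        refine max_le (one_le_ratio' (cpart_pos O n).ne') ?_
        rw [div_le_iff₀ hb0]
        (clear * - h3; linarith)
    refine hfib.trans ((mul_le_mul_of_nonneg_left hw (by (clear * - hb1; positivity))).trans ?_)
    have hBe : 0 < B' ^ (-e) := by positivity
    -- sizes
    have hxb : (1 : ℝ) / 2 ≤ (x : ℝ) / b := by rw [le_div_iff₀ hb0]; (clear * - hb2x; linarith)
    have hxb0 : (0 : ℝ) < (x : ℝ) / b := by positivity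
    have h3 : (x' : ℝ) ≤ 3 * ((x : ℝ) / b) := by (clear * - f4 hxb; linarith)
    have h4 : (x' : ℝ) ^ (1 / 2 - e) ≤ 3 * ((x : ℝ) / b) ^ (1 / 2 - e) := by
      calc (x' : ℝ) ^ (1 / 2 - e) ≤ (3 * ((x : ℝ) / b)) ^ (1 / 2 - e) :=
            Real.rpow_le_rpow (Nat.cast_nonneg _) h3 (by (clear * - he0 he heta2; linarith))
        _ = 3 ^ (1 / 2 - e) * ((x : ℝ) / b) ^ (1 / 2 - e) := Real.mul_rpow (by norm_num) hxb0.le
        _ ≤ 3 * ((x : ℝ) / b) ^ (1 / 2 - e) := by
          refine mul_le_mul_of_nonneg_right ?_ (by positivity)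
          calc (3 : ℝ) ^ (1 / 2 - e) ≤ 3 ^ (1 : ℝ) := Real.rpow_le_rpow_of_exponent_le (by norm_num) (by (clear * - he0 he heta2; linarith))
            _ = 3 := Real.rpow_one _
    have h5 : (1 : ℝ) ≤ 2 * ((x : ℝ) / b) ^ (1 / 2 - e) := by
      have h6 : (1 / 2 : ℝ) ^ (1 / 2 - e) ≤ ((x : ℝ) / b) ^ (1 / 2 - e) :=
        Real.rpow_le_rpow (by norm_num) hxb (by (clear * - he0 he heta2; linarith))
      have h7 : (1 / 2 : ℝ) ≤ (1 / 2 : ℝ) ^ (1 / 2 - e) := by
        calc (1 / 2 : ℝ) = (1 / 2 : ℝ) ^ (1 : ℝ) := (Real.rpow_one _).symm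
          _ ≤ (1 / 2 : ℝ) ^ (1 / 2 - e) :=
            Real.rpow_le_rpow_of_exponent_ge (by norm_num) (by norm_num) (by (clear * - he0 he heta2; linarith))
      (clear * - h6 h7; linarith)
    have h8 : (y' : ℝ) + (x' : ℝ) ^ (1 / 2 - e) ≤ 8 * ((y : ℝ) / b + ((x : ℝ) / b) ^ (1 / 2 - e)) := by
      have : 0 ≤ (y : ℝ) / b := by (clear * - hb1; positivity)
      have : 0 ≤ ((x : ℝ) / b) ^ (1 / 2 - e) := by positivity
      linarith
    have h9 : (b : ℝ) ^ S.hh * ((y : ℝ) / b + ((x : ℝ) / b) ^ (1 / 2 - e)) =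
        y * (b : ℝ) ^ (S.hh - 1) + (x : ℝ) ^ (1 / 2 - e) * (b : ℝ) ^ (S.hh - 1 / 2 + e) := by
      rw [Real.div_rpow hx0.le hb0.le, Real.rpow_sub hb0 S.hh 1, Real.rpow_one]
      have e1 : (b : ℝ) ^ (S.hh - 1 / 2 + e) = (b : ℝ) ^ S.hh / (b : ℝ) ^ (1 / 2 - e) := by
        rw [← Real.rpow_sub hb0]; congr 1; ring
      rw [e1]
      ring
    calc (b : ℝ) ^ S.hh * (C * ((y' : ℝ) + (x' : ℝ) ^ (1 / 2 - e)) * B' ^ (-e))
        ≤ (b : ℝ) ^ S.hh * (C * (8 * ((y : ℝ) / b + ((x : ℝ) / b) ^ (1 / 2 - e))) * B' ^ (-e)) := by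
          refine mul_le_mul_of_nonneg_left ?_ (by positivity)
          exact mul_le_mul_of_nonneg_right (mul_le_mul_of_nonneg_left h8 hC.le) hBe.le
      _ = 8 * C * (((b : ℝ) ^ S.hh * ((y : ℝ) / b + ((x : ℝ) / b) ^ (1 / 2 - e))) * B' ^ (-e)) := by ring
      _ = 8 * C * ((y * (b : ℝ) ^ (S.hh - 1) + (x : ℝ) ^ (1 / 2 - e) * (b : ℝ) ^ (S.hh - 1 / 2 + e)) *
          B' ^ (-e)) := by rw [h9]
  · intro n hn
    rw [Finset.mem_filter, Finset.mem_Ico] at hn
    have hn0 : n ≠ 0 := by (clear * - hy hn; omega)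
    rw [Finset.mem_filter, Finset.mem_Icc]
    have h1 := gpart_pos O n
    have h2 : gpart O n ≤ n := by
      conv_rhs => rw [← gpart_mul_cpart O hn0]
      exact Nat.le_mul_of_pos_right _ (cpart_pos O n)
    refine ⟨⟨h1, by omega⟩, ?_, dvd_gpart hn0 haO hn.2.1⟩
    rw [primeFactors_gpart]
    exact Finset.inter_subset_right

theorem card_le_Ng (O : Finset ℕ) (a x : ℕ) :
    ((Icc 1 (2 * x)).filter (fun b => b.primeFactors ⊆ O ∧ a ∣ b)).card ≤ Ng O (2 * x) := by
  unfold Ng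
  refine Finset.card_le_card ?_
  intro b hb
  rw [Finset.mem_filter] at hb ⊢
  exact ⟨hb.1, hb.2.1⟩

theorem powA : PowA := by
  intro S e he0 he
  obtain ⟨C, hC, h⟩ := powG S e he0 he
  refine ⟨C, hC, ?_⟩
  intro x y P0 O a hx hy hP0 hO ha haO
  have hhh := hh_le S
  have hx0 : (0 : ℝ) < x := by exact_mod_cast hx
  have ha0 : (0 : ℝ) < a := by exact_mod_cast ha
  have h1 := h x y O a 1 hx hy ha haO le_rfl
  have h2 : (Ico x (x + y)).filter (fun n => a ∣ n) = (Ico x (x + y)).filter (fun n => a ∣ n ∧ (1 : ℝ) ≤ (sig O n : ℝ)) := by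
    refine Finset.filter_congr fun n hn => ?_
    rw [Finset.mem_Ico] at hn
    have : (1 : ℝ) ≤ (sig O n : ℝ) := by exact_mod_cast sig_pos O (by omega : n ≠ 0)
    simp [this]
  rw [h2]
  refine h1.trans ?_
  set E : ℝ := y * (a : ℝ) ^ (S.hh - 1) + (x : ℝ) ^ (1 / 2 - e) * (a : ℝ) ^ (S.hh - 1 / 2 + e) with hE
  have hE0 : 0 ≤ E := by (clear * - ha hx; positivity)
  have h3 : ∀ b ∈ (Icc 1 (2 * x)).filter (fun b => b.primeFactors ⊆ O ∧ a ∣ b),
      C * ((y * (b : ℝ) ^ (S.hh - 1) + (x : ℝ) ^ (1 / 2 - e) * (b : ℝ) ^ (S.hh - 1 / 2 + e)) *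
          (max 1 (1 / (b : ℝ))) ^ (-e)) ≤ C * E := by
    intro b hb
    rw [Finset.mem_filter, Finset.mem_Icc] at hb
    have hb1 : (1 : ℝ) ≤ b := by exact_mod_cast hb.1.1
    have hab : (a : ℝ) ≤ b := by exact_mod_cast Nat.le_of_dvd (by omega) hb.2.2
    have h4 : max 1 (1 / (b : ℝ)) = 1 := by
      rw [max_eq_left]
      rw [div_le_one (by (clear * - he0 he hhh hb1; linarith))]; exact hb1
    rw [h4, Real.one_rpow, mul_one]
    refine mul_le_mul_of_nonneg_left ?_ hC.le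
    rw [hE]
    refine add_le_add ?_ ?_
    · refine mul_le_mul_of_nonneg_left ?_ (Nat.cast_nonneg _)
      exact Real.rpow_le_rpow_of_nonpos ha0 hab (by (clear * - he0 he hhh; linarith [hhh.2.2.1, eta_pos S]))
    · refine mul_le_mul_of_nonneg_left ?_ (by positivity)
      exact Real.rpow_le_rpow_of_nonpos ha0 hab (by linarith [hhh.2.2.2])
  refine (Finset.sum_le_sum h3).trans ?_
  rw [Finset.sum_const, nsmul_eq_mul]
  have h5 : ((((Icc 1 (2 * x)).filter (fun b => b.primeFactors ⊆ O ∧ a ∣ b)).card : ℕ) : ℝ) ≤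
      2 ^ (O.card + Nat.log P0 (2 * x)) := by
    have := (card_le_Ng O a x).trans (Ng_le P0 hP0 O hO (2 * x))
    exact_mod_cast this
  calc ((((Icc 1 (2 * x)).filter (fun b => b.primeFactors ⊆ O ∧ a ∣ b)).card : ℕ) : ℝ) * (C * E)
      ≤ 2 ^ (O.card + Nat.log P0 (2 * x)) * (C * E) := mul_le_mul_of_nonneg_right h5 (by (clear * - hC ha hx; positivity))
    _ = C * 2 ^ (O.card + Nat.log P0 (2 * x)) * E := by ring

theorem powB : PowB := by
  intro S e he0 he
  obtain ⟨C, hC, h⟩ := powG S e he0 he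
  refine ⟨C, hC, ?_⟩
  intro x y P0 O B hx hy hP0 hO hB
  have hhh := hh_le S
  have hx0 : (0 : ℝ) < x := by exact_mod_cast hx
  have hB0 : 0 < B := by (clear * - he0 he hB hhh; linarith)
  have h1 := h x y O 1 B hx hy le_rfl (by simp) hB
  have h2 : (Ico x (x + y)).filter (fun n => B ≤ (sig O n : ℝ)) =
      (Ico x (x + y)).filter (fun n => 1 ∣ n ∧ B ≤ (sig O n : ℝ)) := by
    refine Finset.filter_congr fun n _ => ?_
    simp
  rw [h2]
  refine h1.trans ?_
  set E : ℝ := y * B ^ (-e) + (x : ℝ) ^ (1 / 2 - e) with hE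
  have hE0 : 0 ≤ E := by (clear * - hB hx; positivity)
  have h3 : ∀ b ∈ (Icc 1 (2 * x)).filter (fun b => b.primeFactors ⊆ O ∧ 1 ∣ b),
      C * ((y * (b : ℝ) ^ (S.hh - 1) + (x : ℝ) ^ (1 / 2 - e) * (b : ℝ) ^ (S.hh - 1 / 2 + e)) *
          (max 1 (B / (b : ℝ))) ^ (-e)) ≤ C * E := by
    intro b hb
    rw [Finset.mem_filter, Finset.mem_Icc] at hb
    have hb1 : (1 : ℝ) ≤ b := by exact_mod_cast hb.1.1
    have hb0 : (0 : ℝ) < b := by (clear * - he0 he hhh hb1; linarith)
    refine mul_le_mul_of_nonneg_left ?_ hC.le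
    have hM1 : (1 : ℝ) ≤ max 1 (B / (b : ℝ)) := le_max_left _ _
    have hMe : (max 1 (B / (b : ℝ))) ^ (-e) ≤ 1 := Real.rpow_le_one_of_one_le_of_nonpos hM1 (by (clear * - he0; linarith))
    rw [hE, add_mul]
    refine add_le_add ?_ ?_
    · rw [mul_assoc]
      refine mul_le_mul_of_nonneg_left ?_ (Nat.cast_nonneg _)
      rcases le_or_gt B b with hBb | hBb
      · calc (b : ℝ) ^ (S.hh - 1) * (max 1 (B / (b : ℝ))) ^ (-e) ≤ (b : ℝ) ^ (S.hh - 1) * 1 :=
              mul_le_mul_of_nonneg_left hMe (by (clear * - hb1; positivity))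
          _ = (b : ℝ) ^ (S.hh - 1) := mul_one _
          _ ≤ B ^ (S.hh - 1) := Real.rpow_le_rpow_of_nonpos hB0 hBb (by (clear * - he0 he hhh; linarith [hhh.2.2.1, eta_pos S]))
          _ ≤ B ^ (-e) := Real.rpow_le_rpow_of_exponent_le hB (by (clear * - he0 he hhh; linarith [hhh.2.2.1]))
      · have h4 : (max 1 (B / (b : ℝ))) ^ (-e) ≤ (B / b) ^ (-e) :=
          Real.rpow_le_rpow_of_nonpos (by (clear * - hB hb1; positivity)) (le_max_right _ _) (by (clear * - he0; linarith))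
        calc (b : ℝ) ^ (S.hh - 1) * (max 1 (B / (b : ℝ))) ^ (-e) ≤ (b : ℝ) ^ (S.hh - 1) * (B / b) ^ (-e) :=
              mul_le_mul_of_nonneg_left h4 (by (clear * - hb1; positivity))
          _ = B ^ (-e) * (b : ℝ) ^ (S.hh - 1 + e) := by
            rw [Real.div_rpow hB0.le hb0.le, Real.rpow_add hb0, Real.rpow_neg hb0.le]
            (clear * - hb1 hB; field_simp)
          _ ≤ B ^ (-e) * 1 := by
            refine mul_le_mul_of_nonneg_left ?_ (by positivity)
            exact Real.rpow_le_one_of_one_le_of_nonpos hb1 (by (clear * - he0 he hhh; linarith [hhh.2.2.1]))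
          _ = B ^ (-e) := mul_one _
    · rw [mul_assoc]
      calc (x : ℝ) ^ (1 / 2 - e) * ((b : ℝ) ^ (S.hh - 1 / 2 + e) * (max 1 (B / (b : ℝ))) ^ (-e))
          ≤ (x : ℝ) ^ (1 / 2 - e) * (1 * 1) := by
            refine mul_le_mul_of_nonneg_left ?_ (by positivity)
            refine mul_le_mul ?_ hMe (by positivity) (by norm_num)
            exact Real.rpow_le_one_of_one_le_of_nonpos hb1 (by (clear * - he hhh; linarith [hhh.2.2.2]))
        _ = (x : ℝ) ^ (1 / 2 - e) := by ring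
  refine (Finset.sum_le_sum h3).trans ?_
  rw [Finset.sum_const, nsmul_eq_mul]
  have h5 : ((((Icc 1 (2 * x)).filter (fun b => b.primeFactors ⊆ O ∧ 1 ∣ b)).card : ℕ) : ℝ) ≤
      2 ^ (O.card + Nat.log P0 (2 * x)) := by
    have := (card_le_Ng O 1 x).trans (Ng_le P0 hP0 O hO (2 * x))
    exact_mod_cast this
  calc ((((Icc 1 (2 * x)).filter (fun b => b.primeFactors ⊆ O ∧ 1 ∣ b)).card : ℕ) : ℝ) * (C * E)
      ≤ 2 ^ (O.card + Nat.log P0 (2 * x)) * (C * E) := mul_le_mul_of_nonneg_right h5 (by (clear * - hC hB hx; positivity))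
    _ = C * 2 ^ (O.card + Nat.log P0 (2 * x)) * E := by ring

end Pool.Agent.M17.Helper18.KL
end

/- Helper53.KN.Helper88.KS.Basic -/
section
/-!
# Project KS: small facts about cells and candidates used for `Mult1` and `Cand1`
-/

set_option autoImplicit false
open scoped Classical

namespace Pool.Agent.M17.Helper88.KS

open Pool.Agent.M17.Helper16.KS

/-- multiples of `D` in an interval of length `H` -/
theorem card_mult_le (L H D : ℕ) (hD : 0 < D) :
    (((Finset.Ico L (L + H)).filter (fun n => D ∣ n)).card : ℝ) ≤ (H : ℝ) / D + 1 := by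
  rcases Nat.eq_zero_or_pos H with h0 | hpos
  · subst h0
    simp
  have h1 : ((Finset.Ico L (L + H)).filter (fun n => D ∣ n)).card ≤
      (Finset.range ((H - 1) / D + 1)).card := by
    apply Finset.card_le_card_of_injOn (fun n => (n - L) / D)
    · intro n hn
      rw [Finset.mem_coe, Finset.mem_filter, Finset.mem_Ico] at hn
      rw [Finset.mem_coe, Finset.mem_range]
      have : n - L ≤ H - 1 := by omega
      exact Nat.lt_succ_of_le (Nat.div_le_div_right this)
    · intro a ha b hb hab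
      rw [Finset.mem_coe, Finset.mem_filter, Finset.mem_Ico] at ha hb
      have hab' : (a - L) / D = (b - L) / D := hab
      obtain ⟨⟨ha1, ha2⟩, ⟨a', ha3⟩⟩ := ha
      obtain ⟨⟨hb1, hb2⟩, ⟨b', hb3⟩⟩ := hb
      have e1 := Nat.div_add_mod (a - L) D
      have e2 := Nat.div_add_mod (b - L) D
      have m1 := Nat.mod_lt (a - L) hD
      have m2 := Nat.mod_lt (b - L) hD
      rw [hab'] at e1
      have hlt1 : a < b + D := by omega
      have hlt2 : b < a + D := by omega
      rw [ha3, hb3] at hlt1 hlt2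
      have h3 : D * a' < D * (b' + 1) := by rw [Nat.mul_add, Nat.mul_one]; exact hlt1
      have h4 : D * b' < D * (a' + 1) := by rw [Nat.mul_add, Nat.mul_one]; exact hlt2
      have h5 := Nat.lt_of_mul_lt_mul_left h3
      have h6 := Nat.lt_of_mul_lt_mul_left h4
      have : a' = b' := by omega
      rw [ha3, hb3, this]
  rw [Finset.card_range] at h1
  have h2 : (((Finset.Ico L (L + H)).filter (fun n => D ∣ n)).card : ℝ) ≤
      (((H - 1) / D + 1 : ℕ) : ℝ) := by exact_mod_cast h1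
  refine h2.trans ?_
  push_cast
  have h3 : (((H - 1) / D : ℕ) : ℝ) ≤ ((H - 1 : ℕ) : ℝ) / D := Nat.cast_div_le
  have h4 : ((H - 1 : ℕ) : ℝ) ≤ H := by exact_mod_cast Nat.sub_le H 1
  have hD' : (0 : ℝ) < D := by exact_mod_cast hD
  have h5 : ((H - 1 : ℕ) : ℝ) / D ≤ (H : ℝ) / D := by gcongr
  linarith

theorem ec_le (d : ℝ) (hd : 0 ≤ d) (k : ℕ) : ec d k ≤ k := by
  unfold ec
  have h : (k : ℝ) * (1 / 2 - d) ≤ k := by
    have hk : (0 : ℝ) ≤ k := Nat.cast_nonneg k
    nlinarith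
  calc ⌊(k : ℝ) * (1 / 2 - d)⌋₊ ≤ ⌊(k : ℝ)⌋₊ := Nat.floor_le_floor h
    _ = k := Nat.floor_natCast k

theorem cell_bound {d : ℝ} (hd : 0 ≤ d) {k j n : ℕ} (hj : j < nc d k) (hn : n ∈ cell d k j) :
    2 ^ k ≤ n ∧ n < 2 ^ (k + 1) := by
  unfold cell at hn
  rw [Finset.mem_Ico] at hn
  refine ⟨le_trans (Nat.le_add_right _ _) hn.1, lt_of_lt_of_le hn.2 ?_⟩
  have h1 : (j + 1) * 2 ^ ec d k ≤ 2 ^ k := by
    unfold nc at hj
    calc (j + 1) * 2 ^ ec d k ≤ 2 ^ (k - ec d k) * 2 ^ ec d k := Nat.mul_le_mul_right _ hj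
      _ = 2 ^ k := by rw [← pow_add, Nat.sub_add_cancel (ec_le d hd k)]
  rw [pow_succ]
  omega

theorem cell_eq (d : ℝ) (k j : ℕ) :
    cell d k j = Finset.Ico (2 ^ k + j * 2 ^ ec d k) (2 ^ k + j * 2 ^ ec d k + 2 ^ ec d k) := by
  unfold cell
  congr 1
  ring

/-- length of a cell -/
theorem ec_real_le (d : ℝ) (hd : d ≤ 1/2) (k : ℕ) :
    ((2 : ℝ) ^ ec d k) ≤ (2 : ℝ) ^ ((1/2 - d) * (k : ℝ)) := by
  rw [← Real.rpow_natCast]
  apply Real.rpow_le_rpow_of_exponent_le (by norm_num)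
  unfold ec
  have : 0 ≤ (k : ℝ) * (1 / 2 - d) := mul_nonneg (Nat.cast_nonneg k) (by linarith)
  calc ((⌊(k : ℝ) * (1 / 2 - d)⌋₊ : ℕ) : ℝ) ≤ (k : ℝ) * (1 / 2 - d) := Nat.floor_le this
    _ = (1/2 - d) * k := by ring

theorem ec_real_ge (d : ℝ) (k : ℕ) :
    (2 : ℝ) ^ ((1/2 - d) * (k : ℝ) - 1) ≤ (2 : ℝ) ^ ec d k := by
  rw [← Real.rpow_natCast]
  apply Real.rpow_le_rpow_of_exponent_le (by norm_num)
  unfold ec
  have := Nat.lt_floor_add_one ((k : ℝ) * (1 / 2 - d))
  linarith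

/-- bad cells -/
theorem mem_badc {S : Sys} {k j : ℕ} : j ∈ S.badc k ↔ j < nc S.d k ∧ S.bad k j := by
  unfold Sys.badc
  rw [Finset.mem_filter, Finset.mem_range]

/-! ### products over sets of primes -/

theorem prod_pr (S : Sys) (A : Finset ℕ) :
    ∏ p ∈ A, S.pr p = ((∏ p ∈ A, p : ℕ) : ℝ) ^ (-S.hh) := by
  unfold Sys.pr
  rw [Real.finsetProd_rpow _ _ (fun i _ => Nat.cast_nonneg i), Nat.cast_prod]

theorem pc_eq (S : Sys) (A D : Finset ℕ) :
    S.pc A D = ((∏ p ∈ D \ A, p : ℕ) : ℝ) ^ (-S.hh) := prod_pr S _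

theorem prod_mul_prod_sdiff {m : ℕ} (hm : Squarefree m) {A : Finset ℕ}
    (hA : A ⊆ m.primeFactors) :
    (∏ p ∈ A, p) * (∏ p ∈ m.primeFactors \ A, p) = m := by
  rw [mul_comm, Finset.prod_sdiff hA, Nat.prod_primeFactors_of_squarefree hm]

end Pool.Agent.M17.Helper88.KS
end

/- Helper53.KN.Helper67.KSZ.E5 -/
section
/-! KSZ-E5 (MP_768c9c_nt): bounds for `Z'/Z` on the box. -/

set_option autoImplicit false
open Filter Topology MeasureTheory Complex
open scoped Classical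

namespace Pool.Agent.M17.Helper67.KSZ.E5

open Pool.Agent.M17.Helper10.QRH Pool.Agent.M17.Helper69.QRH Pool.Agent.M17.Helper46.KSZ

theorem norm_sum_inv (N : Multiset ℂ) (s : ℂ) :
    ‖(N.map (fun ρ => 1 / (s - ρ))).sum‖ ≤ (N.map (fun ρ => 1 / ‖s - ρ‖)).sum := by
  induction N using Multiset.induction_on with
  | empty => simp
  | cons a N ih =>
    rw [Multiset.map_cons, Multiset.sum_cons, Multiset.map_cons, Multiset.sum_cons]
    refine (norm_add_le _ _).trans ?_
    have : ‖1 / (s - a)‖ = 1 / ‖s - a‖ := by rw [norm_div, norm_one]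
    rw [this]
    (clear * - ih; linarith)

theorem log_facts {T : ℝ} (hT : 1 ≤ T) : 1 ≤ Real.log (T + 2) := by
  have h1 : Real.exp 1 ≤ T + 2 := by
    have := Real.exp_one_lt_d9
    (clear * - hT this; linarith)
  rw [← Real.log_exp 1]
  exact Real.log_le_log (Real.exp_pos 1) h1

theorem norm_L_two : ∃ C : ℝ, 0 ≤ C ∧ ∀ t : ℝ,
    ‖LSeries (fun n => (ArithmeticFunction.vonMangoldt n : ℂ)) (2 + t * Complex.I)‖ ≤ C := by
  refine ⟨∑' n : ℕ, ‖LSeries.term (fun n => (ArithmeticFunction.vonMangoldt n : ℂ)) 2 n‖,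
    tsum_nonneg fun n => norm_nonneg _, ?_⟩
  intro t
  have hsum : Summable (fun n : ℕ =>
      ‖LSeries.term (fun n => (ArithmeticFunction.vonMangoldt n : ℂ)) 2 n‖) :=
    (ArithmeticFunction.LSeriesSummable_vonMangoldt (s := 2) (by norm_num)).norm
  have he : ∀ n : ℕ, ‖LSeries.term (fun n => (ArithmeticFunction.vonMangoldt n : ℂ))
      (2 + t * Complex.I) n‖ =
      ‖LSeries.term (fun n => (ArithmeticFunction.vonMangoldt n : ℂ)) 2 n‖ := by
    intro n
    rw [LSeries.norm_term_eq, LSeries.norm_term_eq]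
    simp
  rw [LSeries]
  refine (norm_tsum_le_tsum_norm ?_).trans (le_of_eq (tsum_congr he))
  exact hsum.congr fun n => (he n).symm

theorem gBound (h1 : LocalLog) (h2 : FarSum) : GBound := by
  obtain ⟨C1, hC1, h1⟩ := h1
  obtain ⟨C2, hC2, h2⟩ := h2
  obtain ⟨C3, hC3, h3⟩ := norm_L_two
  refine ⟨C1 + C2 + C3 + 1, by positivity, ?_⟩
  intro T M Z hT hB
  have hl := log_facts hT
  have hl2 : Real.log (T + 2) ≤ Real.log (T + 2) ^ 2 := by (clear * - hl; nlinarith)
  have hsq : 1 ≤ Real.log (T + 2) ^ 2 := by (clear * - hl hl2; nlinarith)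
  constructor
  · intro s hs1 hs2 hs3
    obtain ⟨hne, hb⟩ := h1 T M Z hT hB s hs1 hs2 hs3
    have hQ : Qp (far M s.im) s ≠ 0 := left_ne_zero_of_mul hne
    have hZ : Z s ≠ 0 := right_ne_zero_of_mul hne
    -- distances
    have hdist : ∀ ρ ∈ far M s.im, 0.003 ≤ ‖s - ρ‖ := by
      intro ρ hρ
      have hρ' := Multiset.mem_filter.1 hρ
      obtain ⟨_, hr1, hr2, _⟩ := hB.mem ρ hρ'.1
      have hge : 1.4 ≤ ‖ρ - (2 + s.im * Complex.I)‖ := not_lt.1 hρ'.2
      by_cases hc : ρ.re ≤ 0.602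
      · have := Complex.abs_re_le_norm (s - ρ)
        have h5 : (s - ρ).re = s.re - ρ.re := by simp
        rw [h5, abs_of_nonneg (by (clear * - hs1 hr1 hc; linarith))] at this
        (clear * - hs1 hc this; linarith)
      · push Not at hc
        have h6 : 1.4 ^ 2 ≤ ‖ρ - (2 + s.im * Complex.I)‖ ^ 2 :=
          pow_le_pow_left₀ (by norm_num) hge 2
        rw [Complex.sq_norm, Complex.normSq_apply] at h6
        have e1 : (ρ - (2 + s.im * Complex.I)).re = ρ.re - 2 := by simp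
        have e2 : (ρ - (2 + s.im * Complex.I)).im = ρ.im - s.im := by simp
        rw [e1, e2] at h6
        have h7 : 0.003 ^ 2 ≤ (ρ.im - s.im) * (ρ.im - s.im) := by (clear * - hr1 hc h6 hr2; nlinarith)
        have h8 : 0.003 ^ 2 ≤ ‖s - ρ‖ ^ 2 := by
          rw [Complex.sq_norm, Complex.normSq_apply]
          have e3 : (s - ρ).im = s.im - ρ.im := by simp
          rw [e3]
          (clear * - h7; nlinarith [mul_self_nonneg (s - ρ).re])
        exact le_of_sq_le_sq h8 (norm_nonneg _)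
    have hsρ : ∀ ρ ∈ far M s.im, s ≠ ρ := by
      intro ρ hρ he
      have := hdist ρ hρ
      rw [he, sub_self, norm_zero] at this
      norm_num at this
    have e : logDeriv (fun z => Qp (far M s.im) z * Z z) s =
        logDeriv (Qp (far M s.im)) s + logDeriv Z s :=
      logDeriv_mul (f := Qp (far M s.im)) (g := Z) s hQ hZ ((Qp_differentiable _) s) (hB.diff s)
    have e2 : logDeriv Z s = logDeriv (fun z => Qp (far M s.im) z * Z z) s -
        ((far M s.im).map (fun ρ => 1 / (s - ρ))).sum := by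
      rw [e, logDeriv_Qp _ _ hsρ]; ring
    rw [e2]
    refine (norm_sub_le _ _).trans ?_
    have h5 := norm_sum_inv (far M s.im) s
    have h6 := h2 T M Z hT hB (far M s.im) (Multiset.filter_le _ _) s hdist
    have h7 : Real.log (|s.im| + 2) ≤ Real.log (T + 2) :=
      Real.log_le_log (by positivity) (by (clear * - hs3; linarith))
    have h8 : C1 * Real.log (|s.im| + 2) ≤ C1 * Real.log (T + 2) ^ 2 := by
      apply mul_le_mul_of_nonneg_left _ hC1.le
      (clear * - hl2 h7; linarith)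
    have h9 : 0 ≤ (C3 + 1) * Real.log (T + 2) ^ 2 := by positivity
    linarith
  · intro t
    set s : ℂ := 2 + t * Complex.I with hs
    have hre : s.re = 2 := by simp [hs]
    have hs1 : s ≠ 1 := by
      intro h
      rw [h] at hre
      norm_num at hre
    have hζ : riemannZeta s ≠ 0 := riemannZeta_ne_zero_of_one_lt_re (by rw [hre]; norm_num)
    have hEZ : EZ s ≠ 0 := by
      rw [EZ_eq hs1]
      exact mul_ne_zero (sub_ne_zero.2 hs1) hζ
    have hEZ' := hEZ
    rw [hB.eq s] at hEZ'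
    have hQ : Qp M s ≠ 0 := left_ne_zero_of_mul hEZ'
    have hZ : Z s ≠ 0 := right_ne_zero_of_mul hEZ'
    have hdist : ∀ ρ ∈ M, 1 ≤ ‖s - ρ‖ := by
      intro ρ hρ
      obtain ⟨_, _, hr2, _⟩ := hB.mem ρ hρ
      have := Complex.abs_re_le_norm (s - ρ)
      have h5 : (s - ρ).re = 2 - ρ.re := by rw [Complex.sub_re, hre]
      rw [h5, abs_of_nonneg (by linarith)] at this
      (clear * - hr2 this; linarith)
    have hsρ : ∀ ρ ∈ M, s ≠ ρ := by
      intro ρ hρ he
      have := hdist ρ hρ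
      rw [he, sub_self, norm_zero] at this
      norm_num at this
    have hEZfun : EZ = fun z => Qp M z * Z z := funext hB.eq
    have e : logDeriv EZ s = logDeriv (Qp M) s + logDeriv Z s := by
      rw [hEZfun]
      exact logDeriv_mul (f := Qp M) (g := Z) s hQ hZ ((Qp_differentiable _) s) (hB.diff s)
    have e2 : logDeriv Z s = 1 / (s - 1) -
        LSeries (fun n => (ArithmeticFunction.vonMangoldt n : ℂ)) s -
        (M.map (fun ρ => 1 / (s - ρ))).sum := by
      rw [logDeriv_Qp _ _ hsρ, logDeriv_EZ (by rw [hre]; norm_num)] at e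
      rw [e]; ring
    rw [e2]
    refine (norm_sub_le _ _).trans ?_
    have b0 := norm_sub_le (1 / (s - 1))
      (LSeries (fun n => (ArithmeticFunction.vonMangoldt n : ℂ)) s)
    have b1 : ‖1 / (s - 1)‖ ≤ 1 := by
      rw [norm_div, norm_one]
      have := Complex.abs_re_le_norm (s - 1)
      have h5 : (s - 1).re = 1 := by rw [Complex.sub_re, hre]; norm_num
      rw [h5, abs_one] at this
      rw [div_le_one (by linarith)]
      exact this
    have b2 := h3 t
    have b3 := norm_sum_inv M s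
    have b4 := h2 T M Z hT hB M le_rfl s (fun ρ hρ => le_trans (by norm_num) (hdist ρ hρ))
    have b5 : (C3 + 1) * 1 ≤ (C3 + 1) * Real.log (T + 2) ^ 2 := by gcongr
    have b6 : 0 ≤ C1 * Real.log (T + 2) ^ 2 := by positivity
    (clear * - b0 b1 b2 b3 b4 b5 b6; linarith)

end Pool.Agent.M17.Helper67.KSZ.E5
end

/- Helper53.KN.Helper1.KL.E5 -/
section
/-! Helper67/KSZ/E5.lean adapted to the line 0.575 (box 57/100) by helper1 -/

set_option autoImplicit false
open Filter Topology MeasureTheory Complex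
open scoped Classical

namespace Pool.Agent.M17.Helper1.KL

open Pool.Agent.M17.Helper67.KSZ.E5 (norm_sum_inv norm_L_two log_facts)
open Pool.Agent.M17.Helper10.QRH Pool.Agent.M17.Helper69.QRH 

theorem gBound (h1 : LocalLog) (h2 : FarSum) : GBound := by
  obtain ⟨C1, hC1, h1⟩ := h1
  obtain ⟨C2, hC2, h2⟩ := h2
  obtain ⟨C3, hC3, h3⟩ := norm_L_two
  refine ⟨C1 + C2 + C3 + 1, by positivity, ?_⟩
  intro T M Z hT hB
  have hl := log_facts hT
  have hl2 : Real.log (T + 2) ≤ Real.log (T + 2) ^ 2 := by (clear * - hl; nlinarith)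
  have hsq : 1 ≤ Real.log (T + 2) ^ 2 := by (clear * - hl hl2; nlinarith)
  constructor
  · intro s hs1 hs2 hs3
    obtain ⟨hne, hb⟩ := h1 T M Z hT hB s hs1 hs2 hs3
    have hQ : Qp (far M s.im) s ≠ 0 := left_ne_zero_of_mul hne
    have hZ : Z s ≠ 0 := right_ne_zero_of_mul hne
    -- distances
    have hdist : ∀ ρ ∈ far M s.im, 0.003 ≤ ‖s - ρ‖ := by
      intro ρ hρ
      have hρ' := Multiset.mem_filter.1 hρ
      obtain ⟨_, hr1, hr2, _⟩ := hB.mem ρ hρ'.1
      have hge : 1.43 ≤ ‖ρ - (2 + s.im * Complex.I)‖ := not_lt.1 hρ'.2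
      by_cases hc : ρ.re ≤ 0.572
      · have := Complex.abs_re_le_norm (s - ρ)
        have h5 : (s - ρ).re = s.re - ρ.re := by simp
        rw [h5, abs_of_nonneg (by linarith)] at this
        (clear * - hs1 hc this; linarith)
      · push Not at hc
        have h6 : 1.43 ^ 2 ≤ ‖ρ - (2 + s.im * Complex.I)‖ ^ 2 :=
          pow_le_pow_left₀ (by norm_num) hge 2
        rw [Complex.sq_norm, Complex.normSq_apply] at h6
        have e1 : (ρ - (2 + s.im * Complex.I)).re = ρ.re - 2 := by simp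
        have e2 : (ρ - (2 + s.im * Complex.I)).im = ρ.im - s.im := by simp
        rw [e1, e2] at h6
        have h7 : 0.003 ^ 2 ≤ (ρ.im - s.im) * (ρ.im - s.im) := by (clear * - hr1 hc h6 hr2; nlinarith)
        have h8 : 0.003 ^ 2 ≤ ‖s - ρ‖ ^ 2 := by
          rw [Complex.sq_norm, Complex.normSq_apply]
          have e3 : (s - ρ).im = s.im - ρ.im := by simp
          rw [e3]
          (clear * - h7; nlinarith [mul_self_nonneg (s - ρ).re])
        exact le_of_sq_le_sq h8 (norm_nonneg _)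
    have hsρ : ∀ ρ ∈ far M s.im, s ≠ ρ := by
      intro ρ hρ he
      have := hdist ρ hρ
      rw [he, sub_self, norm_zero] at this
      norm_num at this
    have e : logDeriv (fun z => Qp (far M s.im) z * Z z) s =
        logDeriv (Qp (far M s.im)) s + logDeriv Z s :=
      logDeriv_mul (f := Qp (far M s.im)) (g := Z) s hQ hZ ((Qp_differentiable _) s) (hB.diff s)
    have e2 : logDeriv Z s = logDeriv (fun z => Qp (far M s.im) z * Z z) s -
        ((far M s.im).map (fun ρ => 1 / (s - ρ))).sum := by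
      rw [e, logDeriv_Qp _ _ hsρ]; ring
    rw [e2]
    refine (norm_sub_le _ _).trans ?_
    have h5 := norm_sum_inv (far M s.im) s
    have h6 := h2 T M Z hT hB (far M s.im) (Multiset.filter_le _ _) s hdist
    have h7 : Real.log (|s.im| + 2) ≤ Real.log (T + 2) :=
      Real.log_le_log (by positivity) (by (clear * - hs3; linarith))
    have h8 : C1 * Real.log (|s.im| + 2) ≤ C1 * Real.log (T + 2) ^ 2 := by
      apply mul_le_mul_of_nonneg_left _ hC1.le
      (clear * - hl2 h7; linarith)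
    have h9 : 0 ≤ (C3 + 1) * Real.log (T + 2) ^ 2 := by positivity
    linarith
  · intro t
    set s : ℂ := 2 + t * Complex.I with hs
    have hre : s.re = 2 := by simp [hs]
    have hs1 : s ≠ 1 := by
      intro h
      rw [h] at hre
      norm_num at hre
    have hζ : riemannZeta s ≠ 0 := riemannZeta_ne_zero_of_one_lt_re (by rw [hre]; norm_num)
    have hEZ : EZ s ≠ 0 := by
      rw [EZ_eq hs1]
      exact mul_ne_zero (sub_ne_zero.2 hs1) hζ
    have hEZ' := hEZ
    rw [hB.eq s] at hEZ'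
    have hQ : Qp M s ≠ 0 := left_ne_zero_of_mul hEZ'
    have hZ : Z s ≠ 0 := right_ne_zero_of_mul hEZ'
    have hdist : ∀ ρ ∈ M, 1 ≤ ‖s - ρ‖ := by
      intro ρ hρ
      obtain ⟨_, _, hr2, _⟩ := hB.mem ρ hρ
      have := Complex.abs_re_le_norm (s - ρ)
      have h5 : (s - ρ).re = 2 - ρ.re := by rw [Complex.sub_re, hre]
      rw [h5, abs_of_nonneg (by linarith)] at this
      linarith
    have hsρ : ∀ ρ ∈ M, s ≠ ρ := by
      intro ρ hρ he
      have := hdist ρ hρ
      rw [he, sub_self, norm_zero] at this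
      norm_num at this
    have hEZfun : EZ = fun z => Qp M z * Z z := funext hB.eq
    have e : logDeriv EZ s = logDeriv (Qp M) s + logDeriv Z s := by
      rw [hEZfun]
      exact logDeriv_mul (f := Qp M) (g := Z) s hQ hZ ((Qp_differentiable _) s) (hB.diff s)
    have e2 : logDeriv Z s = 1 / (s - 1) -
        LSeries (fun n => (ArithmeticFunction.vonMangoldt n : ℂ)) s -
        (M.map (fun ρ => 1 / (s - ρ))).sum := by
      rw [logDeriv_Qp _ _ hsρ, logDeriv_EZ (by rw [hre]; norm_num)] at e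
      rw [e]; ring
    rw [e2]
    refine (norm_sub_le _ _).trans ?_
    have b0 := norm_sub_le (1 / (s - 1))
      (LSeries (fun n => (ArithmeticFunction.vonMangoldt n : ℂ)) s)
    have b1 : ‖1 / (s - 1)‖ ≤ 1 := by
      rw [norm_div, norm_one]
      have := Complex.abs_re_le_norm (s - 1)
      have h5 : (s - 1).re = 1 := by rw [Complex.sub_re, hre]; norm_num
      rw [h5, abs_one] at this
      rw [div_le_one (by (clear * - this; linarith))]
      exact this
    have b2 := h3 t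
    have b3 := norm_sum_inv M s
    have b4 := h2 T M Z hT hB M le_rfl s (fun ρ hρ => le_trans (by norm_num) (hdist ρ hρ))
    have b5 : (C3 + 1) * 1 ≤ (C3 + 1) * Real.log (T + 2) ^ 2 := by (clear * - hsq hC3; gcongr)
    have b6 : 0 ≤ C1 * Real.log (T + 2) ^ 2 := by positivity
    linarith

end Pool.Agent.M17.Helper1.KL
end
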