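import Mathlib
import Pool.Agent.Helper53.KM.G02

/- Helper53.KN.Helper33.KSZ.Landau -/
section
/-! KSZ A8: Landau's lemma. Zeros of an analytic function in a disc, with multiplicities
`analyticOrderNatAt`, their number, and the logarithmic derivative near the centre. -/

set_option autoImplicit false
open Filter Topology Complex Metric

namespace Pool.Agent.M17.Helper33.KSZ

/-- dividing out one point -/
lemma factor_one {s₀ : ℂ} {R : ℝ} {F : ℂ → ℂ} (hF : DifferentiableOn ℂ F (ball s₀ R))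
    (hne : ∃ z ∈ ball s₀ R, F z ≠ 0) {c : ℂ} (hc : c ∈ ball s₀ R) :
    ∃ g : ℂ → ℂ, DifferentiableOn ℂ g (ball s₀ R) ∧ g c ≠ 0 ∧
      ∀ z, F z = (z - c) ^ (analyticOrderNatAt F c) * g z := by
  have hFa : AnalyticOnNhd ℂ F (ball s₀ R) := hF.analyticOnNhd isOpen_ball
  obtain ⟨p, hp⟩ := hFa c hc
  have hconn : IsPreconnected (ball s₀ R) := (convex_ball s₀ R).isPreconnected
  have hnot : ¬ ∀ᶠ z in 𝓝 c, F z = 0 := by
    intro h1
    obtain ⟨z, hz, hz0⟩ := hne
    exact hz0 (hFa.eqOn_zero_of_preconnected_of_eventuallyEq_zero hconn hc h1 hz)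
  have hp0 : p ≠ 0 := fun h => hnot (hp.locally_zero_iff.2 h)
  have hdiff : ∀ n : ℕ, DifferentiableOn ℂ ((Function.swap dslope c)^[n] F) (ball s₀ R) := by
    intro n
    induction n with
    | zero => exact hF
    | succ n ih =>
      rw [Function.iterate_succ_apply']
      exact (Complex.differentiableOn_dslope (isOpen_ball.mem_nhds hc)).2 ih
  have hgc := hp.iterate_dslope_fslope_ne_zero hp0
  have heq : ∀ z, F z = (z - c) ^ p.order * ((Function.swap dslope c)^[p.order] F) z := by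
    intro z
    have h2 := hp.eq_pow_order_mul_iterate_dslope z
    simpa using h2
  have hord : analyticOrderNatAt F c = p.order := by
    rw [(hFa c hc).analyticOrderNatAt_eq_iff]
    · refine ⟨_, (hdiff p.order).analyticAt (isOpen_ball.mem_nhds hc), hgc, ?_⟩
      exact Eventually.of_forall fun z => by rw [smul_eq_mul]; exact heq z
    · rw [Ne, analyticOrderAt_eq_top]
      exact hnot
  refine ⟨_, hdiff p.order, hgc, ?_⟩
  rw [hord]
  exact heq

/-- dividing out finitely many points -/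
lemma factor_fin {s₀ : ℂ} {R : ℝ} (S : Finset ℂ) : ∀ {F : ℂ → ℂ},
    DifferentiableOn ℂ F (ball s₀ R) → (∃ z ∈ ball s₀ R, F z ≠ 0) →
    (∀ c ∈ S, c ∈ ball s₀ R) →
    ∃ g : ℂ → ℂ, DifferentiableOn ℂ g (ball s₀ R) ∧ (∀ c ∈ S, g c ≠ 0) ∧
      ∀ z, F z = (∏ c ∈ S, (z - c) ^ (analyticOrderNatAt F c)) * g z := by
  classical
  induction S using Finset.induction_on with
  | empty =>
    intro F hF hne hS
    exact ⟨F, hF, by simp, by simp⟩
  | insert a S haS ih =>
    intro F hF hne hS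
    have haB : a ∈ ball s₀ R := hS a (Finset.mem_insert_self a S)
    obtain ⟨g, hg, hga, hFg⟩ := factor_one hF hne haB
    obtain ⟨z1, hz1, hz1'⟩ := hne
    have hgne : ∃ z ∈ ball s₀ R, g z ≠ 0 := ⟨a, haB, hga⟩
    obtain ⟨G, hG, hG0, hgG⟩ := ih hg hgne fun c hc => hS c (Finset.mem_insert_of_mem hc)
    set n := analyticOrderNatAt F a with hn
    have hordS : ∀ c ∈ S, analyticOrderNatAt F c = analyticOrderNatAt g c := by
      intro c hc
      have hcB : c ∈ ball s₀ R := hS c (Finset.mem_insert_of_mem hc)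
      have hca : c ≠ a := by
        rintro rfl
        exact haS hc
      have h1 : AnalyticAt ℂ (fun z : ℂ => (z - a) ^ n) c := by fun_prop
      have h2 : AnalyticAt ℂ g c := hg.analyticAt (isOpen_ball.mem_nhds hcB)
      have h3 : F = (fun z : ℂ => (z - a) ^ n) * g := by
        funext z
        rw [Pi.mul_apply]
        exact hFg z
      have h4 : analyticOrderAt (fun z : ℂ => (z - a) ^ n) c = 0 := by
        rw [h1.analyticOrderAt_eq_zero]
        exact pow_ne_zero _ (sub_ne_zero.2 hca)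
      have h5 : analyticOrderAt F c = analyticOrderAt g c := by
        rw [h3, analyticOrderAt_mul h1 h2, h4, zero_add]
      unfold analyticOrderNatAt
      rw [h5]
    refine ⟨G, hG, ?_, ?_⟩
    · intro c hc
      rcases Finset.mem_insert.1 hc with rfl | hc
      · intro h0
        apply hga
        rw [hgG, h0, mul_zero]
      · exact hG0 c hc
    · intro z
      rw [Finset.prod_insert haS, Finset.prod_congr rfl fun c hc => by rw [hordS c hc], hFg, hgG,
        mul_assoc]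

/-- finitely many zeros in a smaller closed disc -/
lemma zeros_finite {s₀ : ℂ} {R r : ℝ} (hr : r < R) {F : ℂ → ℂ}
    (hF : DifferentiableOn ℂ F (ball s₀ R)) (hne : ∃ z ∈ ball s₀ R, F z ≠ 0) :
    {z : ℂ | z ∈ closedBall s₀ r ∧ F z = 0}.Finite := by
  by_contra hinf
  have hinf' : {z : ℂ | z ∈ closedBall s₀ r ∧ F z = 0}.Infinite := hinf
  obtain ⟨x, hx, hacc⟩ := hinf'.exists_accPt_of_subset_isCompact (isCompact_closedBall s₀ r)
    (fun z hz => hz.1)
  have hxB : x ∈ ball s₀ R := closedBall_subset_ball hr hx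
  have hFa : AnalyticOnNhd ℂ F (ball s₀ R) := hF.analyticOnNhd isOpen_ball
  have hconn : IsPreconnected (ball s₀ R) := (convex_ball s₀ R).isPreconnected
  have hfreq : ∃ᶠ z in 𝓝[≠] x, F z = 0 := by
    rw [accPt_iff_frequently_nhdsNE] at hacc
    exact hacc.mono fun z hz => hz.2
  obtain ⟨z, hz, hz0⟩ := hne
  exact hz0 (hFa.eqOn_zero_of_preconnected_of_frequently_eq_zero hconn hxB hfreq hz)

/-- the reflected linear factor, `(r² - conj (c - s₀) (z - s₀)) / r` -/
noncomputable def Bl (s₀ : ℂ) (r : ℝ) (c z : ℂ) : ℂ :=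
  ((r : ℂ) ^ 2 - (starRingEnd ℂ) (c - s₀) * (z - s₀)) / r

lemma Bl_norm_circle {s₀ : ℂ} {r : ℝ} (hr : 0 < r) {c z : ℂ} (hz : ‖z - s₀‖ = r) :
    ‖Bl s₀ r c z‖ = ‖z - c‖ := by
  have h1 : (r : ℂ) ^ 2 = (starRingEnd ℂ) (z - s₀) * (z - s₀) := by
    rw [mul_comm, Complex.mul_conj, Complex.normSq_eq_norm_sq, hz]
    push_cast
    ring
  have h2 : (r : ℂ) ^ 2 - (starRingEnd ℂ) (c - s₀) * (z - s₀) =
      (starRingEnd ℂ) (z - c) * (z - s₀) := by
    rw [h1, ← sub_mul, ← map_sub]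
    congr 2
    ring
  rw [Bl, h2, norm_div, norm_mul, RCLike.norm_conj, hz, Complex.norm_real, Real.norm_eq_abs,
    abs_of_pos hr]
  field_simp

lemma Bl_differentiable (s₀ : ℂ) (r : ℝ) (c : ℂ) : Differentiable ℂ (Bl s₀ r c) := by
  unfold Bl
  fun_prop

lemma Bl_center (s₀ : ℂ) {r : ℝ} (hr : 0 < r) (c : ℂ) : Bl s₀ r c s₀ = r := by
  have : (r : ℂ) ≠ 0 := by exact_mod_cast hr.ne'
  rw [Bl, sub_self, mul_zero, sub_zero]
  field_simp

lemma Bl_lower {s₀ : ℂ} {R : ℝ} (hR : 0 < R) {c z : ℂ} (hc : ‖c - s₀‖ ≤ R / 2)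
    (hz : ‖z - s₀‖ ≤ R / 2) :
    5 / 16 * R ^ 2 ≤ ‖((3 * R / 4 : ℝ) : ℂ) ^ 2 - (starRingEnd ℂ) (c - s₀) * (z - s₀)‖ := by
  have h1 := norm_sub_norm_le (((3 * R / 4 : ℝ) : ℂ) ^ 2) ((starRingEnd ℂ) (c - s₀) * (z - s₀))
  rw [norm_pow, Complex.norm_real, Real.norm_eq_abs, abs_of_pos (by positivity), norm_mul,
    RCLike.norm_conj] at h1
  have h2 : ‖c - s₀‖ * ‖z - s₀‖ ≤ R / 2 * (R / 2) :=
    mul_le_mul hc hz (norm_nonneg _) (by positivity)
  (clear * - h1 h2; nlinarith)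

lemma Bl_lower' {s₀ : ℂ} {R : ℝ} (hR : 0 < R) {c z : ℂ} (hc : ‖c - s₀‖ ≤ R / 2)
    (hz : ‖z - s₀‖ ≤ R / 4) :
    7 / 16 * R ^ 2 ≤ ‖((3 * R / 4 : ℝ) : ℂ) ^ 2 - (starRingEnd ℂ) (c - s₀) * (z - s₀)‖ := by
  have h1 := norm_sub_norm_le (((3 * R / 4 : ℝ) : ℂ) ^ 2) ((starRingEnd ℂ) (c - s₀) * (z - s₀))
  rw [norm_pow, Complex.norm_real, Real.norm_eq_abs, abs_of_pos (by positivity), norm_mul,
    RCLike.norm_conj] at h1
  have h2 : ‖c - s₀‖ * ‖z - s₀‖ ≤ R / 2 * (R / 4) :=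
    mul_le_mul hc hz (norm_nonneg _) (by positivity)
  (clear * - h1 h2; nlinarith)

lemma Bl_logDeriv {s₀ : ℂ} {R : ℝ} (hR : 0 < R) {c z : ℂ} (hc : ‖c - s₀‖ ≤ R / 2)
    (hz : ‖z - s₀‖ ≤ R / 4) : ‖logDeriv (Bl s₀ (3 * R / 4) c) z‖ ≤ 2 / R := by
  have h1 := Bl_lower' hR hc hz
  have hr : ((3 * R / 4 : ℝ) : ℂ) ≠ 0 := by
    exact_mod_cast (by positivity : (3 * R / 4 : ℝ) ≠ 0)
  have h2 : HasDerivAt (Bl s₀ (3 * R / 4) c)
      (-(starRingEnd ℂ) (c - s₀) / ((3 * R / 4 : ℝ) : ℂ)) z := by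
    have h3 : HasDerivAt (fun z : ℂ => z - s₀) 1 z := (hasDerivAt_id z).sub_const s₀
    have h4 := ((h3.const_mul ((starRingEnd ℂ) (c - s₀))).const_sub
      (((3 * R / 4 : ℝ) : ℂ) ^ 2)).div_const ((3 * R / 4 : ℝ) : ℂ)
    rw [mul_one] at h4
    exact h4
  rw [logDeriv_apply, h2.deriv, Bl]
  have hne : ((3 * R / 4 : ℝ) : ℂ) ^ 2 - (starRingEnd ℂ) (c - s₀) * (z - s₀) ≠ 0 := by
    intro h0
    rw [h0, norm_zero] at h1
    (clear * - h1 hR; nlinarith)
  have h5 : -(starRingEnd ℂ) (c - s₀) / ((3 * R / 4 : ℝ) : ℂ) /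
      ((((3 * R / 4 : ℝ) : ℂ) ^ 2 - (starRingEnd ℂ) (c - s₀) * (z - s₀)) /
        ((3 * R / 4 : ℝ) : ℂ)) =
      -(starRingEnd ℂ) (c - s₀) /
        (((3 * R / 4 : ℝ) : ℂ) ^ 2 - (starRingEnd ℂ) (c - s₀) * (z - s₀)) := by
    field_simp
  rw [h5, norm_div, norm_neg, RCLike.norm_conj, div_le_div_iff₀ (by (clear * - h1 hR; nlinarith)) hR]
  (clear * - h1 hR hc; nlinarith)

/-- **Landau's lemma.** -/
theorem landau {s₀ : ℂ} {R M : ℝ} {F : ℂ → ℂ} (hR : 0 < R) (hM : 0 < M)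
    (hF : DifferentiableOn ℂ F (ball s₀ R)) (h0 : F s₀ ≠ 0)
    (hb : ∀ z ∈ ball s₀ R, ‖F z‖ ≤ Real.exp M * ‖F s₀‖) :
    ∃ S : Finset ℂ, (∀ z, z ∈ S ↔ z ∈ closedBall s₀ (R / 2) ∧ F z = 0) ∧
      (∑ c ∈ S, (analyticOrderNatAt F c : ℝ)) ≤ 3 * M ∧
      ∀ z ∈ closedBall s₀ (R / 4), F z ≠ 0 →
        ‖deriv F z / F z - ∑ c ∈ S, (analyticOrderNatAt F c : ℂ) / (z - c)‖ ≤ 54 * M / R := by
  classical
  have hs0B : s₀ ∈ ball s₀ R := mem_ball_self hR
  have hfin := zeros_finite (r := R / 2) (by (clear * - hR; linarith)) hF ⟨s₀, hs0B, h0⟩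
  set S : Finset ℂ := hfin.toFinset with hS
  have hSmem : ∀ z, z ∈ S ↔ z ∈ closedBall s₀ (R / 2) ∧ F z = 0 := by
    intro z
    rw [hS, Set.Finite.mem_toFinset]
    rfl
  have hSn : ∀ c ∈ S, ‖c - s₀‖ ≤ R / 2 := by
    intro c hc
    have := ((hSmem c).1 hc).1
    rwa [mem_closedBall, dist_eq_norm] at this
  obtain ⟨g, hg, hgS, hFg⟩ := factor_fin S hF ⟨s₀, hs0B, h0⟩ (fun c hc => by
    rw [mem_ball, dist_eq_norm]
    (clear * - hR hSn hc; linarith [hSn c hc]))
  set m : ℂ → ℕ := fun c => analyticOrderNatAt F c with hm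
  set r : ℝ := 3 * R / 4 with hr
  have hr0 : 0 < r := by positivity
  set P : ℂ → ℂ := fun z => ∏ c ∈ S, Bl s₀ r c z ^ m c with hP
  set h : ℂ → ℂ := fun z => P z * g z with hh
  set N : ℕ := ∑ c ∈ S, m c with hN
  have hPd : Differentiable ℂ P := by
    rw [hP]
    exact Differentiable.fun_finsetProd fun c _ => (Bl_differentiable s₀ r c).pow _
  have hhd : DifferentiableOn ℂ h (ball s₀ R) := hPd.differentiableOn.mul hg
  -- bound on the circle
  have hcirc : ∀ z : ℂ, ‖z - s₀‖ = r → ‖h z‖ ≤ Real.exp M * ‖F s₀‖ := by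
    intro z hz
    have hzB : z ∈ ball s₀ R := by
      rw [mem_ball, dist_eq_norm, hz]
      (clear * - hr hr0; linarith)
    have h1 : ‖h z‖ = ‖F z‖ := by
      rw [hFg z]
      simp only [hh, hP, norm_mul, norm_prod, norm_pow]
      congr 1
      exact Finset.prod_congr rfl fun c hc => by rw [Bl_norm_circle hr0 hz]
    rw [h1]
    exact hb z hzB
  have hmax : ∀ z : ℂ, ‖z - s₀‖ ≤ r → ‖h z‖ ≤ Real.exp M * ‖F s₀‖ := by
    intro z hz
    have hd : DiffContOnCl ℂ h (ball s₀ r) := by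
      refine DifferentiableOn.diffContOnCl ?_
      rw [closure_ball s₀ hr0.ne']
      exact hhd.mono (closedBall_subset_ball (by (clear * - hr hr0; linarith)))
    refine Complex.norm_le_of_forall_mem_frontier_norm_le isBounded_ball hd ?_ ?_
    · intro w hw
      rw [frontier_ball s₀ hr0.ne', mem_sphere, dist_eq_norm] at hw
      exact hcirc w hw
    · rw [closure_ball s₀ hr0.ne', mem_closedBall, dist_eq_norm]
      exact hz
  -- the centre
  have hgs : ‖h s₀‖ = r ^ N * ‖g s₀‖ := by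
    have h1 : h s₀ = (∏ c ∈ S, (r : ℂ) ^ m c) * g s₀ := by
      simp only [hh, hP]
      congr 1
      exact Finset.prod_congr rfl fun c hc => by rw [Bl_center s₀ hr0]
    rw [h1, Finset.prod_pow_eq_pow_sum, norm_mul, norm_pow, Complex.norm_real, Real.norm_eq_abs,
      abs_of_pos hr0]
  have hFs : ‖F s₀‖ ≤ (R / 2) ^ N * ‖g s₀‖ := by
    rw [hFg s₀, norm_mul, norm_prod]
    refine mul_le_mul_of_nonneg_right ?_ (norm_nonneg _)
    rw [hN, ← Finset.prod_pow_eq_pow_sum]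
    refine Finset.prod_le_prod (fun _ _ => norm_nonneg _) fun c hc => ?_
    rw [norm_pow]
    refine pow_le_pow_left₀ (norm_nonneg _) ?_ _
    rw [norm_sub_rev]
    exact hSn c hc
  have hF0 : 0 < ‖F s₀‖ := norm_pos_iff.2 h0
  have hratio : (3 / 2 : ℝ) ^ N * ‖F s₀‖ ≤ ‖h s₀‖ := by
    calc (3 / 2 : ℝ) ^ N * ‖F s₀‖ ≤ (3 / 2 : ℝ) ^ N * ((R / 2) ^ N * ‖g s₀‖) := by (clear * - hFs; gcongr)
      _ = (3 / 2 * (R / 2)) ^ N * ‖g s₀‖ := by rw [mul_pow]; ring
      _ = ‖h s₀‖ := by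
        rw [hgs, hr]
        congr 2
        ring
  have hpow : (3 / 2 : ℝ) ^ N ≤ Real.exp M := by
    have h1 := hmax s₀ (by rw [sub_self, norm_zero]; exact hr0.le)
    have h2 := hratio.trans h1
    exact le_of_mul_le_mul_right h2 hF0
  have hNM : (N : ℝ) ≤ 3 * M := by
    have h1 : Real.log ((3 / 2 : ℝ) ^ N) ≤ M := by
      rw [Real.log_le_iff_le_exp (by positivity)]
      exact hpow
    rw [Real.log_pow] at h1
    have h2 : (1 / 3 : ℝ) ≤ Real.log (3 / 2) := by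
      have h3 := Real.one_sub_inv_le_log_of_pos (by norm_num : (0 : ℝ) < 3 / 2)
      norm_num at h3
      exact h3
    have h4 : (0 : ℝ) ≤ N := Nat.cast_nonneg N
    (clear * - h1 h2; nlinarith)
  have hsN : (∑ c ∈ S, (analyticOrderNatAt F c : ℝ)) = N := by
    rw [hN]
    push_cast
    rfl
  refine ⟨S, hSmem, by rw [hsN]; exact hNM, ?_⟩
  intro z hz hFz
  have hzn : ‖z - s₀‖ ≤ R / 4 := by
    rwa [mem_closedBall, dist_eq_norm] at hz
  have hzB : z ∈ ball s₀ R := by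
    rw [mem_ball, dist_eq_norm]
    (clear * - hR hzn; linarith)
  have hgz : g z ≠ 0 := by
    intro h1
    apply hFz
    rw [hFg, h1, mul_zero]
  have hh0 : ‖F s₀‖ ≤ ‖h s₀‖ := by
    refine le_trans ?_ hratio
    have : (1 : ℝ) ≤ (3 / 2 : ℝ) ^ N := one_le_pow₀ (by norm_num)
    (clear * - hF0 this; nlinarith)
  have hhs0 : h s₀ ≠ 0 := norm_pos_iff.1 (hF0.trans_le hh0)
  -- non-vanishing of h
  have hhne : ∀ w : ℂ, ‖w - s₀‖ ≤ R / 2 → h w ≠ 0 := by
    intro w hw
    have hwB : w ∈ ball s₀ R := by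
      rw [mem_ball, dist_eq_norm]
      (clear * - hR hw; linarith)
    refine mul_ne_zero ?_ ?_
    · rw [hP]
      refine Finset.prod_ne_zero_iff.2 fun c hc => pow_ne_zero _ ?_
      intro h1
      have h2 := Bl_lower hR (hSn c hc) hw
      rw [Bl, div_eq_zero_iff] at h1
      rcases h1 with h1 | h1
      · rw [← hr, h1, norm_zero] at h2
        (clear * - h2 hR; nlinarith)
      · exact hr0.ne' (by exact_mod_cast h1)
    · intro h1
      have h2 : F w = 0 := by rw [hFg, h1, mul_zero]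
      have h3 : w ∈ S := (hSmem w).2 ⟨by rw [mem_closedBall, dist_eq_norm]; exact hw, h2⟩
      exact hgS w h3 h1
  set H : ℂ → ℂ := fun w => h (s₀ + w) / h s₀ with hH
  have hHd : DifferentiableOn ℂ H (ball 0 (R / 2)) := by
    refine DifferentiableOn.div_const ?_ _
    refine hhd.comp (by fun_prop) ?_
    intro w hw
    rw [mem_ball_zero_iff] at hw
    show s₀ + w ∈ ball s₀ R
    rw [mem_ball, dist_eq_norm, add_sub_cancel_left]
    (clear * - hR hw; linarith)
  have hHne : ∀ w ∈ ball (0 : ℂ) (R / 2), H w ≠ 0 := by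
    intro w hw
    rw [mem_ball_zero_iff] at hw
    exact div_ne_zero (hhne _ (by rw [add_sub_cancel_left]; exact hw.le)) hhs0
  have hH0 : H 0 = 1 := by
    rw [hH]
    show h (s₀ + 0) / h s₀ = 1
    rw [add_zero, div_self hhs0]
  have hHb : ∀ w ∈ ball (0 : ℂ) (R / 2), ‖H w‖ ≤ Real.exp M := by
    intro w hw
    rw [mem_ball_zero_iff] at hw
    show ‖h (s₀ + w) / h s₀‖ ≤ _
    rw [norm_div, div_le_iff₀ (norm_pos_iff.2 hhs0)]
    refine (hmax _ (by rw [add_sub_cancel_left]; (clear * - hr hr0 hw; linarith))).trans ?_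
    (clear * - hh0; gcongr)
  have hw : ‖z - s₀‖ ≤ R / 4 := hzn
  have hmain := Pool.Agent.M17.Helper69.QRH.logDeriv_bound (r₁ := R / 4) (r₂ := 3 * R / 8)
    (by positivity) (by (clear * - hR; linarith)) (by (clear * - hR; linarith)) hM hHd hHne hH0 hHb hw
  have hcalc : 2 * M * (3 * R / 8) / (R / 2 - 3 * R / 8) / (3 * R / 8 - R / 4) = 48 * M / R := by
    have h1 : R / 2 - 3 * R / 8 = R / 8 := by ring
    have h2 : 3 * R / 8 - R / 4 = R / 8 := by ring
    rw [h1, h2]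
    field_simp
    ring
  rw [hcalc] at hmain
  -- derivative of H
  have hhz : DifferentiableAt ℂ h z := hhd.differentiableAt (isOpen_ball.mem_nhds hzB)
  have hHz : deriv H (z - s₀) / H (z - s₀) = logDeriv h z := by
    have h1 : HasDerivAt (fun w : ℂ => s₀ + w) 1 (z - s₀) := (hasDerivAt_id _).const_add s₀
    have h2 : HasDerivAt h (deriv h z) (s₀ + (z - s₀)) := by
      rw [add_sub_cancel]
      exact hhz.hasDerivAt
    have h3 : HasDerivAt H (deriv h z * 1 / h s₀) (z - s₀) := (h2.comp _ h1).div_const _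
    rw [h3.deriv, logDeriv_apply]
    show deriv h z * 1 / h s₀ / (h (s₀ + (z - s₀)) / h s₀) = _
    rw [add_sub_cancel]
    have := hhne z (by (clear * - hR hzn; linarith))
    (clear * - hhs0 this; field_simp)
  rw [hHz] at hmain
  -- logarithmic derivatives
  have hBne : ∀ c ∈ S, Bl s₀ r c z ≠ 0 := by
    intro c hc h1
    have h2 := Bl_lower hR (hSn c hc) (by (clear * - hR hzn; linarith) : ‖z - s₀‖ ≤ R / 2)
    rw [Bl, div_eq_zero_iff] at h1
    rcases h1 with h1 | h1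
    · rw [← hr, h1, norm_zero] at h2
      (clear * - h2 hR; nlinarith)
    · exact hr0.ne' (by exact_mod_cast h1)
  have hgzd : DifferentiableAt ℂ g z := hg.differentiableAt (isOpen_ball.mem_nhds hzB)
  have hlP : logDeriv P z = ∑ c ∈ S, (m c : ℂ) * logDeriv (Bl s₀ r c) z := by
    rw [hP, logDeriv_prod (f := fun c z => Bl s₀ r c z ^ m c)
      (fun c hc => pow_ne_zero _ (hBne c hc))
      (fun c _ => ((Bl_differentiable s₀ r c).pow _) z)]
    exact Finset.sum_congr rfl fun c _ => logDeriv_fun_pow (Bl_differentiable s₀ r c z) _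
  have hlh : logDeriv h z = ∑ c ∈ S, (m c : ℂ) * logDeriv (Bl s₀ r c) z + logDeriv g z := by
    rw [hh, logDeriv_mul (f := P) (g := g) z
      (by rw [hP]; exact Finset.prod_ne_zero_iff.2 fun c hc => pow_ne_zero _ (hBne c hc)) hgz
      (hPd z) hgzd, hlP]
  have hzS : ∀ c ∈ S, z - c ≠ 0 := by
    intro c hc h1
    rw [sub_eq_zero] at h1
    rw [h1] at hFz
    exact hFz ((hSmem c).1 hc).2
  have hlF : deriv F z / F z = ∑ c ∈ S, (m c : ℂ) / (z - c) + logDeriv g z := by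
    rw [← logDeriv_apply]
    have h1 : F = fun z => (∏ c ∈ S, (z - c) ^ m c) * g z := funext hFg
    conv_lhs => rw [h1]
    rw [logDeriv_mul (f := fun z => ∏ c ∈ S, (z - c) ^ m c) (g := g) z
      (Finset.prod_ne_zero_iff.2 fun c hc => pow_ne_zero _ (hzS c hc)) hgz
      (DifferentiableAt.fun_finsetProd fun c _ => by fun_prop) hgzd,
      logDeriv_prod (f := fun c z => (z - c) ^ m c)
      (fun c hc => pow_ne_zero _ (hzS c hc)) (fun c _ => by fun_prop)]
    congr 1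
    refine Finset.sum_congr rfl fun c _ => ?_
    rw [logDeriv_fun_pow (f := fun z => z - c) (by fun_prop), logDeriv_apply]
    have h3 : HasDerivAt (fun z : ℂ => z - c) 1 z := (hasDerivAt_id z).sub_const c
    rw [h3.deriv]
    ring
  have hdiff : deriv F z / F z - ∑ c ∈ S, (analyticOrderNatAt F c : ℂ) / (z - c) =
      logDeriv h z - ∑ c ∈ S, (m c : ℂ) * logDeriv (Bl s₀ r c) z := by
    rw [hlF, hlh]
    simp only [hm]
    ring
  rw [hdiff]
  refine (norm_sub_le _ _).trans ?_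
  have hsum : ‖∑ c ∈ S, (m c : ℂ) * logDeriv (Bl s₀ r c) z‖ ≤ 3 * M * (2 / R) := by
    refine (norm_sum_le _ _).trans ?_
    calc ∑ c ∈ S, ‖(m c : ℂ) * logDeriv (Bl s₀ r c) z‖ ≤ ∑ c ∈ S, (m c : ℝ) * (2 / R) := by
          refine Finset.sum_le_sum fun c hc => ?_
          rw [norm_mul, Complex.norm_natCast]
          exact mul_le_mul_of_nonneg_left (Bl_logDeriv hR (hSn c hc) hzn) (Nat.cast_nonneg _)
      _ = (N : ℝ) * (2 / R) := by
          rw [← Finset.sum_mul, hN]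
          push_cast
          rfl
      _ ≤ 3 * M * (2 / R) := by (clear * - hNM hR; gcongr)
  calc ‖logDeriv h z‖ + ‖∑ c ∈ S, (m c : ℂ) * logDeriv (Bl s₀ r c) z‖
      ≤ 48 * M / R + 3 * M * (2 / R) := add_le_add hmain hsum
    _ = 54 * M / R := by ring

end Pool.Agent.M17.Helper33.KSZ
end

/- Helper53.KN.Helper69.QRH.A1 -/
section
/-! QRH-A1: dividing out finitely many zeros of an entire function. -/

set_option autoImplicit false
open Filter Topology Complex

namespace Pool.Agent.M17.Helper69.QRH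

open Pool.Agent.M17.Helper10.QRH

lemma differentiable_dslope {F : ℂ → ℂ} (hF : Differentiable ℂ F) (c : ℂ) :
    Differentiable ℂ (dslope F c) := by
  rw [← differentiableOn_univ] at hF ⊢
  exact (Complex.differentiableOn_dslope Filter.univ_mem).2 hF

lemma differentiable_iterate_dslope {F : ℂ → ℂ} (hF : Differentiable ℂ F) (c : ℂ) (n : ℕ) :
    Differentiable ℂ ((Function.swap dslope c)^[n] F) := by
  induction n with
  | zero => exact hF
  | succ n ih =>
    rw [Function.iterate_succ_apply']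
    exact differentiable_dslope ih c

/-- an entire function that is not identically zero, at one point -/
lemma exists_factor {F : ℂ → ℂ} (hF : Differentiable ℂ F) (hne : ∃ z, F z ≠ 0) (c : ℂ) :
    ∃ (n : ℕ) (g : ℂ → ℂ), Differentiable ℂ g ∧ g c ≠ 0 ∧ ∀ z, F z = (z - c) ^ n * g z := by
  have hFa : AnalyticOnNhd ℂ F Set.univ := hF.differentiableOn.analyticOnNhd isOpen_univ
  obtain ⟨p, hp⟩ := hFa c (Set.mem_univ c)
  have hp0 : p ≠ 0 := by
    intro h
    obtain ⟨z, hz⟩ := hne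
    have h1 : ∀ᶠ z in 𝓝 c, F z = 0 := hp.locally_zero_iff.2 h
    exact hz (hFa.eqOn_zero_of_preconnected_of_eventuallyEq_zero isPreconnected_univ
      (Set.mem_univ c) h1 (Set.mem_univ z))
  refine ⟨p.order, (Function.swap dslope c)^[p.order] F,
    differentiable_iterate_dslope hF c _, hp.iterate_dslope_fslope_ne_zero hp0, ?_⟩
  intro z
  have h2 := hp.eq_pow_order_mul_iterate_dslope z
  simpa using h2

theorem factor_aux (U : Set ℂ) (S : Finset ℂ) : ∀ (F : ℂ → ℂ), Differentiable ℂ F →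
    (∃ z ∈ U, F z ≠ 0) → {z : ℂ | z ∈ U ∧ F z = 0} = ↑S →
    ∃ (M : Multiset ℂ) (Z : ℂ → ℂ), Differentiable ℂ Z ∧ (∀ z ∈ U, Z z ≠ 0) ∧
      (∀ ρ ∈ M, ρ ∈ U ∧ F ρ = 0) ∧ ∀ z, F z = (M.map (fun ρ => z - ρ)).prod * Z z := by
  classical
  induction S using Finset.induction_on with
  | empty =>
    intro F hF hne hS
    refine ⟨0, F, hF, fun z hz h0 => ?_, fun ρ hρ => by simp at hρ, fun z => by simp⟩
    have : z ∈ {z : ℂ | z ∈ U ∧ F z = 0} := ⟨hz, h0⟩
    rw [hS] at this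
    simp at this
  | insert a S haS ih =>
    intro F hF hne hS
    have ha : a ∈ U ∧ F a = 0 := by
      have : a ∈ {z : ℂ | z ∈ U ∧ F z = 0} := by rw [hS]; simp
      exact this
    obtain ⟨z0, hz0, hz0'⟩ := hne
    obtain ⟨n, g, hg, hga, hFg⟩ := exists_factor hF ⟨z0, hz0'⟩ a
    have hn : n ≠ 0 := by
      rintro rfl
      have h1 := hFg a
      rw [ha.2, pow_zero, one_mul] at h1
      exact hga h1.symm
    obtain ⟨M, Z, hZ, hZ0, hM, hgM⟩ := ih g hg ⟨a, ha.1, hga⟩ (by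
      ext z
      constructor
      · rintro ⟨hz, hgz⟩
        have h1 : z ∈ {z : ℂ | z ∈ U ∧ F z = 0} := ⟨hz, by rw [hFg, hgz, mul_zero]⟩
        rw [hS, Finset.coe_insert] at h1
        rcases h1 with h1 | h1
        · rw [h1] at hgz
          exact absurd hgz hga
        · exact h1
      · intro hz
        have h1 : z ∈ {z : ℂ | z ∈ U ∧ F z = 0} := by
          rw [hS, Finset.coe_insert]
          exact Or.inr hz
        refine ⟨h1.1, ?_⟩
        have hza : z - a ≠ 0 := by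
          intro h
          rw [sub_eq_zero] at h
          rw [h] at hz
          exact haS hz
        have h2 := h1.2
        rw [hFg] at h2
        exact (mul_eq_zero.1 h2).resolve_left (pow_ne_zero _ hza))
    refine ⟨Multiset.replicate n a + M, Z, hZ, hZ0, ?_, ?_⟩
    · intro ρ hρ
      rw [Multiset.mem_add] at hρ
      rcases hρ with hρ | hρ
      · rw [Multiset.eq_of_mem_replicate hρ]
        exact ha
      · exact ⟨(hM ρ hρ).1, by rw [hFg, (hM ρ hρ).2, mul_zero]⟩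
    · intro z
      rw [Multiset.map_add, Multiset.prod_add, Multiset.map_replicate, Multiset.prod_replicate,
        hFg, hgM, mul_assoc]

theorem factorFinite : FactorFinite := by
  intro F hF U _ _ hne hfin
  exact factor_aux U hfin.toFinset F hF hne (by simp)

end Pool.Agent.M17.Helper69.QRH
end

/- Helper53.KN.Helper33.KSZ.BoxEx -/
section
/-! KSZ-E1: all zeros of zeta in a box divided out of `EZ`. -/

set_option autoImplicit false
open Filter Topology Complex Metric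

namespace Pool.Agent.M17.Helper33.KSZ

open Pool.Agent.M17.Helper10.QRH Pool.Agent.M17.Helper69.QRH

/-- the order of `EZ` and of zeta agree away from `1` -/
lemma order_EZ {ρ : ℂ} (h1 : ρ ≠ 1) :
    analyticOrderAt EZ ρ = analyticOrderAt riemannZeta ρ := by
  have hev : EZ =ᶠ[𝓝 ρ] (fun z : ℂ => z - 1) * riemannZeta := by
    filter_upwards [isOpen_compl_singleton.mem_nhds (show ρ ∈ ({1} : Set ℂ)ᶜ from h1)] with z hz
    exact EZ_eq hz
  have hz : AnalyticAt ℂ riemannZeta ρ := by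
    have h2 : DifferentiableOn ℂ riemannZeta ({1}ᶜ : Set ℂ) := fun z hz =>
      (differentiableAt_riemannZeta hz).differentiableWithinAt
    exact h2.analyticAt (isOpen_compl_singleton.mem_nhds h1)
  have hl : AnalyticAt ℂ (fun z : ℂ => z - 1) ρ := by fun_prop
  have hl0 : analyticOrderAt (fun z : ℂ => z - 1) ρ = 0 := by
    rw [hl.analyticOrderAt_eq_zero]
    exact sub_ne_zero.2 h1
  rw [analyticOrderAt_congr hev, analyticOrderAt_mul hl hz, hl0, zero_add]

lemma orderNat_EZ {ρ : ℂ} (h1 : ρ ≠ 1) :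
    analyticOrderNatAt EZ ρ = analyticOrderNatAt riemannZeta ρ := by
  unfold analyticOrderNatAt
  rw [order_EZ h1]

lemma Qp_replicate_add (n : ℕ) (a : ℂ) (M : Multiset ℂ) (z : ℂ) :
    Qp (Multiset.replicate n a + M) z = (z - a) ^ n * Qp M z := by
  unfold Qp
  rw [Multiset.map_add, Multiset.prod_add, Multiset.map_replicate, Multiset.prod_replicate]

/-- the multiplicity in a factorisation is the order -/
lemma count_eq_order {M : Multiset ℂ} {Z : ℂ → ℂ} (hZ : Differentiable ℂ Z)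
    (hfac : ∀ z, EZ z = Qp M z * Z z) {ρ : ℂ} (hρ : Z ρ ≠ 0) :
    M.count ρ = analyticOrderNatAt EZ ρ := by
  classical
  have hM : M = Multiset.replicate (M.count ρ) ρ + M.filter (fun c => ¬ ρ = c) := by
    rw [← Multiset.filter_eq, Multiset.filter_add_not]
  set M' := M.filter (fun c => ¬ ρ = c) with hM'
  have hQ : Qp M' ρ ≠ 0 := by
    refine Qp_ne_zero _ _ fun c hc => ?_
    exact (Multiset.mem_filter.1 hc).2
  have hEa : AnalyticAt ℂ EZ ρ :=
    EZ_differentiable.differentiableOn.analyticAt (isOpen_univ.mem_nhds (Set.mem_univ ρ))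
  have hga : AnalyticAt ℂ (fun z => Qp M' z * Z z) ρ :=
    ((Qp_differentiable M').mul hZ).differentiableOn.analyticAt
      (isOpen_univ.mem_nhds (Set.mem_univ ρ))
  have heq : ∀ z, EZ z = (z - ρ) ^ (M.count ρ) • (Qp M' z * Z z) := by
    intro z
    rw [hfac z]
    conv_lhs => rw [hM, Qp_replicate_add]
    rw [smul_eq_mul, mul_assoc]
  symm
  have htop : analyticOrderAt EZ ρ = (M.count ρ : ℕ) := by
    rw [hEa.analyticOrderAt_eq_natCast]
    exact ⟨_, hga, mul_ne_zero hQ hρ, Eventually.of_forall heq⟩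
  unfold analyticOrderNatAt
  rw [htop]
  rfl

theorem boxExists : Pool.Agent.M17.Helper46.KSZ.BoxExists := by
  intro T hT
  set U : Set ℂ := {z : ℂ | 3/5 < z.re ∧ |z.im| < T + 2} with hU
  have hUo : IsOpen U := by
    refine IsOpen.inter (isOpen_lt continuous_const Complex.continuous_re) ?_
    exact isOpen_lt (continuous_abs.comp Complex.continuous_im) continuous_const
  have hUc : IsPreconnected U := by
    have h1 : U = {z : ℂ | 3/5 < z.re} ∩ ({z : ℂ | z.im < T + 2} ∩ {z : ℂ | -(T + 2) < z.im}) := by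
      ext z
      simp only [hU, Set.mem_ofPred_eq, Set.mem_inter_iff, abs_lt]
      tauto
    rw [h1]
    exact ((convex_halfSpace_re_gt _).inter
      ((convex_halfSpace_im_lt _).inter (convex_halfSpace_im_gt _))).isPreconnected
  have hzero : ∀ z : ℂ, EZ z = 0 → riemannZeta z = 0 ∧ z.re < 1 := by
    intro z hz
    have h1 : z ≠ 1 := by
      rintro rfl
      rw [EZ_one] at hz
      exact one_ne_zero hz
    rw [EZ_eq h1] at hz
    have h2 := (mul_eq_zero.1 hz).resolve_left (sub_ne_zero.2 h1)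
    refine ⟨h2, ?_⟩
    by_contra h3
    exact riemannZeta_ne_zero_of_one_le_re (not_lt.1 h3) h2
  have hfin : {z : ℂ | z ∈ U ∧ EZ z = 0}.Finite := by
    have h1 := zeros_finite (s₀ := 0) (R := T + 10) (r := T + 4) (by linarith) (F := EZ)
      EZ_differentiable.differentiableOn
      ⟨1, by rw [mem_ball_zero_iff, norm_one]; linarith, by rw [EZ_one]; exact one_ne_zero⟩
    refine h1.subset fun z hz => ⟨?_, hz.2⟩
    rw [mem_closedBall_zero_iff]
    have h2 := (hzero z hz.2).2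
    have h3 : 3 / 5 < z.re := hz.1.1
    have h4 : |z.im| < T + 2 := hz.1.2
    refine (Complex.norm_le_abs_re_add_abs_im z).trans ?_
    rw [abs_of_pos (by linarith : 0 < z.re)]
    linarith
  obtain ⟨M, Z, hZ, hZ0, hM, hfac⟩ := factorFinite EZ EZ_differentiable U hUo hUc
    ⟨1, ⟨by norm_num, by simp only [Complex.one_im, abs_zero]; linarith⟩,
      by rw [EZ_one]; exact one_ne_zero⟩ hfin
  refine ⟨M, Z, hZ, hfac, ?_, fun z h1 h2 => hZ0 z ⟨h1, h2⟩, ?_⟩
  · intro ρ hρ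
    obtain ⟨h1, h2⟩ := hM ρ hρ
    obtain ⟨h3, h4⟩ := hzero ρ h2
    exact ⟨h3, h1.1, h4, h1.2⟩
  · intro ρ hρ h1 h2
    have h3 : ρ ≠ 1 := by
      rintro rfl
      exact riemannZeta_one_ne_zero hρ
    rw [← orderNat_EZ h3]
    have h4 := count_eq_order hZ hfac (hZ0 ρ ⟨h1, h2⟩)
    convert h4

end Pool.Agent.M17.Helper33.KSZ
end

/- Helper53.KN.Helper55.KSZ.LocalLog -/
section
/-! KSZ-E3: the local logarithmic derivative of zeta. -/

set_option autoImplicit false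
open Filter Topology Complex Metric
open scoped Classical

namespace Pool.Agent.M17.Helper55.KSZ

open Pool.Agent.M17.Helper10.QRH Pool.Agent.M17.Helper69.QRH Pool.Agent.M17.Helper46.KSZ

lemma Qp_lower_pow (M : Multiset ℂ) (z : ℂ) (c : ℝ) (hc : 0 ≤ c) (h : ∀ ρ ∈ M, c ≤ ‖z - ρ‖) :
    c ^ Multiset.card M ≤ ‖Qp M z‖ := by
  induction M using Multiset.induction_on with
  | empty => simp [Qp]
  | cons a M ih =>
    rw [Qp_cons, norm_mul, Multiset.card_cons, pow_succ, mul_comm]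
    have h1 := h a (Multiset.mem_cons_self a M)
    have h2 := ih fun ρ hρ => h ρ (Multiset.mem_cons_of_mem hρ)
    exact mul_le_mul h1 h2 (pow_nonneg hc _) (norm_nonneg _)

lemma Qp_add (M N : Multiset ℂ) (z : ℂ) : Qp (M + N) z = Qp M z * Qp N z := by
  simp [Qp]

lemma Qp_near_far (M : Multiset ℂ) (t : ℝ) (z : ℂ) :
    Qp M z = Qp (near M t) z * Qp (far M t) z := by
  rw [← Qp_add, near, far, Multiset.filter_add_not]

lemma EZ_lower_two (t : ℝ) : 1 / 3 ≤ ‖EZ (2 + t * I)‖ := by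
  have hs0re : (2 + t * I : ℂ).re = 2 := by simp
  have hs01 : (2 + t * I : ℂ) ≠ 1 := by
    intro h
    have := congrArg Complex.re h
    rw [hs0re] at this
    norm_num at this
  rw [EZ_eq hs01, norm_mul]
  have h1 := zeta_two_line hs0re
  have h2 : 1 ≤ ‖(2 + t * I : ℂ) - 1‖ := by
    have := Complex.re_le_norm ((2 + t * I : ℂ) - 1)
    rw [Complex.sub_re, hs0re, Complex.one_re] at this
    (clear * - this; linarith)
  nlinarith [norm_nonneg (riemannZeta (2 + t * I : ℂ))]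

lemma norm_s0_le (t : ℝ) : ‖(2 + t * I : ℂ)‖ ≤ 2 + |t| := by
  refine (norm_add_le _ _).trans ?_
  rw [norm_mul, Complex.norm_I, mul_one, Complex.norm_real, Real.norm_eq_abs, Complex.norm_ofNat]

/-- log (5 + |t|) ≤ 3 log (|t| + 2) -/
lemma log_five_le (t : ℝ) : Real.log (5 + |t|) ≤ 3 * Real.log (|t| + 2) := by
  have ht := abs_nonneg t
  have h1 : 5 + |t| ≤ (|t| + 2) ^ 3 := by nlinarith [mul_nonneg ht ht, mul_nonneg (mul_nonneg ht ht) ht]
  calc Real.log (5 + |t|) ≤ Real.log ((|t| + 2) ^ 3) := Real.log_le_log (by (clear * - ht; linarith)) h1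
    _ = 3 * Real.log (|t| + 2) := by rw [Real.log_pow]; norm_num

theorem localLog (h : JensenEZ) : LocalLog := by
  obtain ⟨C₁, hC₁, hJ⟩ := h
  obtain ⟨C₀, hC₀, hE⟩ := EZ_bound
  have hlog2 : 0 < Real.log 2 := Real.log_pos (by norm_num)
  have hlog14 : 0 < Real.log 14 := Real.log_pos (by norm_num)
  set A : ℝ := |Real.log (3 * C₀)| / Real.log 2 + 6 + C₁ * Real.log 14 with hA
  have hApos : 0 < A := by (clear * - hC₁; positivity)
  refine ⟨2 * A * 1.3975 / (1.4 - 1.3975) / (1.3975 - 1.395), by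
    have : (0:ℝ) < 1.4 - 1.3975 := by norm_num
    have : (0:ℝ) < 1.3975 - 1.395 := by norm_num
    (clear * - hC₁; positivity), ?_⟩
  intro T M Z hT hB s hs1 hs2 hst
  obtain ⟨t, ht⟩ : ∃ t : ℝ, t = s.im := ⟨_, rfl⟩
  rw [← ht] at hst ⊢
  obtain ⟨s0, hs0⟩ : ∃ s0 : ℂ, s0 = 2 + t * I := ⟨_, rfl⟩
  obtain ⟨F, hF⟩ : ∃ F : ℂ → ℂ, F = fun z => Qp (far M t) z * Z z := ⟨_, rfl⟩
  have hFd : Differentiable ℂ F := by
    rw [hF]
    exact (Qp_differentiable _).mul hB.diff
  have hEF : ∀ z, EZ z = Qp (near M t) z * F z := by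
    intro z
    rw [hB.eq z, Qp_near_far M t z, hF]
    ring
  set n := Multiset.card (near M t) with hn
  have hnear : ∀ ρ ∈ near M t, ‖ρ - s0‖ < 1.4 := by
    intro ρ hρ
    have := (Multiset.mem_filter.1 hρ).2
    rwa [hs0]
  have hfar : ∀ ρ ∈ far M t, 1.4 ≤ ‖ρ - s0‖ := by
    intro ρ hρ
    have := (Multiset.mem_filter.1 hρ).2
    rw [hs0]
    exact not_lt.1 this
  have hL : Real.log 2 ≤ Real.log (|t| + 2) :=
    Real.log_le_log (by norm_num) (by (clear * -; linarith [abs_nonneg t]))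
  set L := Real.log (|t| + 2) with hLdef
  have hL0 : 0 < L := hlog2.trans_le hL
  have hcard : (n : ℝ) ≤ C₁ * L := by
    refine hJ (near M t) F hFd hEF t fun ρ hρ => ?_
    have := hnear ρ hρ
    rw [hs0] at this
    (clear * - this; linarith)
  have hs0re : s0.re = 2 := by simp [hs0]
  have hs0im : s0.im = t := by simp [hs0]
  -- nonvanishing
  have hne : ∀ w : ℂ, ‖w‖ < 1.4 → F (s0 + w) ≠ 0 := by
    intro w hw
    have hwre := (abs_le.1 (Complex.abs_re_le_norm w))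
    have hwim := (Complex.abs_im_le_norm w)
    rw [hF]
    refine mul_ne_zero (Qp_ne_zero _ _ fun ρ hρ hEq => ?_) (hB.ne _ ?_ ?_)
    · have h1 := hfar ρ hρ
      rw [← hEq, add_sub_cancel_left] at h1
      (clear * - hw h1; linarith)
    · rw [Complex.add_re, hs0re]
      (clear * - hw hwre; linarith [hwre.1])
    · rw [Complex.add_im, hs0im]
      have := abs_add_le t w.im
      (clear * - hst hw hwim this; linarith)
  -- the boundary bound
  have hbd : ∀ w : ℂ, ‖w‖ ≤ 1.5 → ‖F (s0 + w)‖ ≤ C₀ * (5 + |t|) ^ 2 * 10 ^ n := by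
    have hmax : ∀ w ∈ closure (ball (0 : ℂ) 1.5), ‖F (s0 + w)‖ ≤ C₀ * (5 + |t|) ^ 2 * 10 ^ n := by
      intro w hw
      have hd : DiffContOnCl ℂ (fun w => F (s0 + w)) (ball (0 : ℂ) 1.5) :=
        (hFd.comp ((differentiable_const s0).add differentiable_id)).diffContOnCl
      refine Complex.norm_le_of_forall_mem_frontier_norm_le isBounded_ball hd ?_ hw
      intro v hv
      rw [frontier_ball (0 : ℂ) (by norm_num : (1.5 : ℝ) ≠ 0), mem_sphere_zero_iff_norm] at hv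
      have h1 := hE (s0 + v) (by
        have := (abs_le.1 (Complex.abs_re_le_norm v))
        rw [Complex.add_re, hs0re]
        (clear * - hv this; linarith [this.1]))
      rw [hEF, norm_mul] at h1
      have h2 : ‖s0 + v‖ ≤ 4 + |t| := by
        refine (norm_add_le _ _).trans ?_
        have := norm_s0_le t
        rw [← hs0] at this
        (clear * - hv this; linarith)
      have h3 : (0.1 : ℝ) ^ n ≤ ‖Qp (near M t) (s0 + v)‖ := by
        refine Qp_lower_pow _ _ _ (by norm_num) fun ρ hρ => ?_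
        have h4 := hnear ρ hρ
        have h5 : ‖v‖ ≤ ‖s0 + v - ρ‖ + ‖ρ - s0‖ := by
          have := norm_add_le (s0 + v - ρ) (ρ - s0)
          have e : s0 + v - ρ + (ρ - s0) = v := by ring
          rwa [e] at this
        linarith
      have h6 : (1 + ‖s0 + v‖) ^ 2 ≤ (5 + |t|) ^ 2 :=
        pow_le_pow_left₀ (by positivity) (by (clear * - h2; linarith)) 2
      have h7 : (0.1 : ℝ) ^ n * ‖F (s0 + v)‖ ≤ C₀ * (5 + |t|) ^ 2 := by
        calc (0.1 : ℝ) ^ n * ‖F (s0 + v)‖ ≤ ‖Qp (near M t) (s0 + v)‖ * ‖F (s0 + v)‖ := by (clear * - h3; gcongr)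
          _ ≤ C₀ * (1 + ‖s0 + v‖) ^ 2 := h1
          _ ≤ C₀ * (5 + |t|) ^ 2 := by (clear * - h6 hC₀; gcongr)
      have h8 : (10 : ℝ) ^ n * (0.1 : ℝ) ^ n = 1 := by
        rw [← mul_pow]; norm_num
      calc ‖F (s0 + v)‖ = (10 : ℝ) ^ n * ((0.1 : ℝ) ^ n * ‖F (s0 + v)‖) := by
            rw [← mul_assoc, h8, one_mul]
        _ ≤ (10 : ℝ) ^ n * (C₀ * (5 + |t|) ^ 2) := by (clear * - h7; gcongr)
        _ = _ := by ring
    intro w hw
    refine hmax w ?_
    rw [closure_ball (0 : ℂ) (by norm_num : (1.5 : ℝ) ≠ 0), mem_closedBall_zero_iff]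
    exact hw
  -- the lower bound at the centre
  have hF0 : F s0 ≠ 0 := by
    have := hne 0 (by norm_num)
    rwa [add_zero] at this
  have hF0pos : 0 < ‖F s0‖ := norm_pos_iff.2 hF0
  have hlow : 1 / 3 ≤ 1.4 ^ n * ‖F s0‖ := by
    have h1 := EZ_lower_two t
    rw [← hs0, hEF, norm_mul] at h1
    refine h1.trans ?_
    refine mul_le_mul_of_nonneg_right (Qp_upper _ _ _ (by norm_num) fun ρ hρ => ?_) (norm_nonneg _)
    rw [norm_sub_rev]
    exact (hnear ρ hρ).le
  obtain ⟨H, hH⟩ : ∃ H : ℂ → ℂ, H = fun w => F (s0 + w) / F s0 := ⟨_, rfl⟩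
  have hHb : ∀ w ∈ ball (0 : ℂ) 1.4, ‖H w‖ ≤ Real.exp (A * L) := by
    intro w hw
    rw [mem_ball_zero_iff] at hw
    have h1 := hbd w (by (clear * - hw; linarith))
    have h2 : ‖H w‖ ≤ 3 * C₀ * (5 + |t|) ^ 2 * 14 ^ n := by
      rw [hH]
      simp only
      rw [norm_div, div_le_iff₀ hF0pos]
      calc ‖F (s0 + w)‖ ≤ C₀ * (5 + |t|) ^ 2 * 10 ^ n := h1
        _ = 3 * C₀ * (5 + |t|) ^ 2 * 10 ^ n * (1 / 3) := by ring
        _ ≤ 3 * C₀ * (5 + |t|) ^ 2 * 10 ^ n * (1.4 ^ n * ‖F s0‖) := by (clear * - hlow hC₀; gcongr)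
        _ = 3 * C₀ * (5 + |t|) ^ 2 * (10 ^ n * 1.4 ^ n) * ‖F s0‖ := by ring
        _ = 3 * C₀ * (5 + |t|) ^ 2 * 14 ^ n * ‖F s0‖ := by
          rw [← mul_pow]; norm_num
    refine h2.trans ?_
    have ht0 := abs_nonneg t
    rw [← Real.log_le_iff_le_exp (by (clear * - hC₀; positivity)), Real.log_mul (by positivity) (by positivity),
      Real.log_mul (by positivity) (by positivity), Real.log_pow, Real.log_pow]
    push_cast
    have h3 : Real.log (3 * C₀) ≤ |Real.log (3 * C₀)| / Real.log 2 * L := by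
      calc Real.log (3 * C₀) ≤ |Real.log (3 * C₀)| := le_abs_self _
        _ = |Real.log (3 * C₀)| / Real.log 2 * Real.log 2 := by (clear * -; field_simp)
        _ ≤ _ := by (clear * - hL; gcongr)
    have h4 := log_five_le t
    have h5 : (n : ℝ) * Real.log 14 ≤ C₁ * Real.log 14 * L := by
      calc (n : ℝ) * Real.log 14 ≤ C₁ * L * Real.log 14 := by gcongr
        _ = _ := by ring
    rw [hA]
    (clear * - h3 h4 h5; nlinarith)
  have hHd : Differentiable ℂ H := by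
    rw [hH]
    exact (hFd.comp ((differentiable_const s0).add differentiable_id)).div_const _
  obtain ⟨w, hw⟩ : ∃ w : ℂ, w = s - s0 := ⟨_, rfl⟩
  have hwn : ‖w‖ ≤ 1.395 := by
    have h1 : w = ((s.re - 2 : ℝ) : ℂ) := by
      apply Complex.ext
      · rw [hw, Complex.sub_re, hs0re, Complex.ofReal_re]
      · rw [hw, Complex.sub_im, hs0im, Complex.ofReal_im, ht, sub_self]
    rw [h1, Complex.norm_real, Real.norm_eq_abs, abs_le]
    constructor <;> (clear * - hs1 hs2; linarith)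
  have hsw : s0 + w = s := by rw [hw]; ring
  have hmain := logDeriv_bound (H := H) (R := 1.4) (r₂ := 1.3975) (r₁ := 1.395) (Mt := A * L)
    (by norm_num) (by norm_num) (by norm_num) (by (clear * - hC₁ hL0; positivity)) hHd.differentiableOn
    (fun z hz => by
      rw [hH]
      exact div_ne_zero (hne z (by rwa [mem_ball_zero_iff] at hz)) hF0)
    (by
      rw [hH]
      simp only [add_zero]
      exact div_self hF0) hHb hwn
  have hFs : F s ≠ 0 := by
    have := hne w (by (clear * - hwn; linarith))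
    rwa [hsw] at this
  have hder : deriv H w / H w = logDeriv F s := by
    have h1 : HasDerivAt H (deriv F s / F s0) w := by
      have h2 : HasDerivAt F (deriv F s) (s0 + w) := by
        rw [hsw]
        exact (hFd s).hasDerivAt
      have h3 : HasDerivAt (fun w : ℂ => s0 + w) 1 w := (hasDerivAt_id w).const_add s0
      have h4 := (h2.comp w h3).div_const (F s0)
      rw [mul_one] at h4
      rw [hH]
      exact h4
    rw [h1.deriv, logDeriv_apply, hH]
    simp only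
    rw [hsw]
    field_simp
  have hgoal1 : Qp (far M t) s * Z s ≠ 0 := by
    rw [hF] at hFs
    exact hFs
  refine ⟨hgoal1, ?_⟩
  have hgoal2 : ‖logDeriv F s‖ ≤
      2 * A * 1.3975 / (1.4 - 1.3975) / (1.3975 - 1.395) * L := by
    rw [← hder]
    refine hmain.trans (le_of_eq ?_)
    ring
  rw [hF] at hgoal2
  exact hgoal2

end Pool.Agent.M17.Helper55.KSZ
end

/- Helper53.KN.Helper33.KSZ.Jensen -/
section
/-! KSZ-E2: Jensen's inequality for `EZ` at `2 + i t`; and growth of `EZ` for `Re s ≥ 0.26`. -/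

set_option autoImplicit false
open Filter Topology Complex Metric

namespace Pool.Agent.M17.Helper33.KSZ

open Pool.Agent.M17.Helper10.QRH Pool.Agent.M17.Helper69.QRH

theorem EZ_bound' : ∃ C : ℝ, 0 < C ∧ ∀ s : ℂ, 0.26 ≤ s.re → ‖EZ s‖ ≤ C * (1 + ‖s‖) ^ 2 := by
  set K : ℝ := ∑' n : ℕ, ((n : ℝ) + 1) ^ (-(1.26 : ℝ)) with hK
  have hK0 : 0 ≤ K := tsum_nonneg fun n => Real.rpow_nonneg (by (clear * -; positivity)) _
  refine ⟨K + 1, by (clear * - hK0; linarith), fun s hs => ?_⟩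
  rw [EZ_eq_tsum (by norm_num at hs ⊢; (clear * - hs; linarith))]
  have hs0 : 0 < s.re := by norm_num at hs; (clear * - hs; linarith)
  have h1 : ‖∑' n : ℕ, TT n s‖ ≤ ‖s - 1‖ * ‖s‖ * K := by
    rw [hK, ← tsum_mul_left]
    refine tsum_of_norm_bounded ((summable_rpow_aux (by norm_num)).mul_left _).hasSum fun n => ?_
    refine (TT_bound n hs0).trans ?_
    refine mul_le_mul_of_nonneg_left ?_ (by positivity)
    exact Real.rpow_le_rpow_of_exponent_le (by (clear * -; linarith [(n.cast_nonneg : (0 : ℝ) ≤ n)]))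
      (by norm_num at hs ⊢; (clear * - hs; linarith))
  have h2 : ‖s - 1‖ ≤ 1 + ‖s‖ := (norm_sub_le _ _).trans (by rw [norm_one]; (clear * -; linarith))
  have h3 := norm_nonneg s
  calc ‖∑' n : ℕ, TT n s + 1‖ ≤ ‖∑' n : ℕ, TT n s‖ + ‖(1 : ℂ)‖ := norm_add_le _ _
    _ ≤ ‖s - 1‖ * ‖s‖ * K + 1 := by
      rw [norm_one]
      (clear * - h1; linarith)
    _ ≤ (1 + ‖s‖) * (1 + ‖s‖) * K + (1 + ‖s‖) ^ 2 := by
      have h4 : ‖s - 1‖ * ‖s‖ ≤ (1 + ‖s‖) * (1 + ‖s‖) :=
        mul_le_mul h2 (by linarith) h3 (by linarith)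
      have h5 := mul_le_mul_of_nonneg_right h4 hK0
      (clear * - h3 h5; nlinarith)
    _ = (K + 1) * (1 + ‖s‖) ^ 2 := by ring

lemma log_bound {K : ℝ} (hK : 0 < K) : ∃ C : ℝ, 0 < C ∧ ∀ t : ℝ,
    Real.log (K * (5 + |t|) ^ 2) ≤ C * Real.log (|t| + 2) := by
  have hlog2 : 0 < Real.log 2 := Real.log_pos (by norm_num)
  refine ⟨|Real.log (9 * K)| / Real.log 2 + 2, by (clear * -; positivity), fun t => ?_⟩
  have ht := abs_nonneg t
  have hl : Real.log 2 ≤ Real.log (|t| + 2) := Real.log_le_log (by norm_num) (by linarith)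
  calc Real.log (K * (5 + |t|) ^ 2) ≤ Real.log (9 * K * (|t| + 2) ^ 2) := by
        apply Real.log_le_log (by (clear * - hK; positivity))
        have h9 : (5 + |t|) ^ 2 ≤ 9 * (|t| + 2) ^ 2 := by (clear * - ht; nlinarith)
        calc K * (5 + |t|) ^ 2 ≤ K * (9 * (|t| + 2) ^ 2) := by gcongr
          _ = 9 * K * (|t| + 2) ^ 2 := by ring
    _ = Real.log (9 * K) + 2 * Real.log (|t| + 2) := by
        rw [Real.log_mul (by positivity) (by positivity), Real.log_pow]
        push_cast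
        ring
    _ ≤ |Real.log (9 * K)| / Real.log 2 * Real.log (|t| + 2) + 2 * Real.log (|t| + 2) := by
        gcongr
        calc Real.log (9 * K) ≤ |Real.log (9 * K)| := le_abs_self _
          _ = |Real.log (9 * K)| / Real.log 2 * Real.log 2 := by field_simp
          _ ≤ _ := by gcongr
    _ = _ := by ring

lemma center_norm (t : ℝ) : ‖(2 : ℂ) + t * I‖ ≤ 2 + |t| := by
  refine (norm_add_le _ _).trans ?_
  rw [norm_mul, Complex.norm_I, mul_one, Complex.norm_real, Real.norm_eq_abs, Complex.norm_ofNat]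

lemma EZ_center (t : ℝ) : 1 / 3 ≤ ‖EZ (2 + t * I)‖ := by
  have hre : ((2 : ℂ) + t * I).re = 2 := by simp
  have hs01 : (2 : ℂ) + t * I ≠ 1 := by
    intro h
    have := congrArg Complex.re h
    rw [hre] at this
    norm_num at this
  rw [EZ_eq hs01, norm_mul]
  have h1 := zeta_two_line hre
  have h2 : 1 ≤ ‖(2 : ℂ) + t * I - 1‖ := by
    have := Complex.re_le_norm ((2 : ℂ) + t * I - 1)
    rw [Complex.sub_re, hre, Complex.one_re] at this
    (clear * - this; linarith)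
  (clear * - h1 h2; nlinarith [norm_nonneg (riemannZeta ((2 : ℂ) + t * I))])

lemma PB_circle {s₀ : ℂ} {r : ℝ} (hr : 0 < r) (N : Multiset ℂ) {z : ℂ} (hz : ‖z - s₀‖ = r) :
    ‖(N.map (fun ρ => Bl s₀ r ρ z)).prod‖ = ‖Qp N z‖ := by
  induction N using Multiset.induction_on with
  | empty => simp [Qp]
  | cons a N ih =>
    rw [Qp_cons, Multiset.map_cons, Multiset.prod_cons, norm_mul, norm_mul, ih,
      Bl_norm_circle hr hz]

lemma PB_center {s₀ : ℂ} {r : ℝ} (hr : 0 < r) (N : Multiset ℂ) :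
    (N.map (fun ρ => Bl s₀ r ρ s₀)).prod = (r : ℂ) ^ (Multiset.card N) := by
  induction N using Multiset.induction_on with
  | empty => simp
  | cons a N ih =>
    rw [Multiset.map_cons, Multiset.prod_cons, Multiset.card_cons, pow_succ, ih,
      Bl_center s₀ hr]
    ring

lemma PB_diff (s₀ : ℂ) (r : ℝ) (N : Multiset ℂ) :
    Differentiable ℂ (fun z => (N.map (fun ρ => Bl s₀ r ρ z)).prod) := by
  induction N using Multiset.induction_on with
  | empty => simp
  | cons a N ih =>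
    simp only [Multiset.map_cons, Multiset.prod_cons]
    exact (Bl_differentiable s₀ r a).mul ih

theorem jensenEZ : Pool.Agent.M17.Helper46.KSZ.JensenEZ := by
  obtain ⟨C₀, hC₀, hEZ⟩ := EZ_bound
  obtain ⟨C, hC, hlog⟩ := log_bound (K := 3 * C₀) (by positivity)
  have hL : 0 < Real.log (1.5 / 1.45 : ℝ) := Real.log_pos (by norm_num)
  refine ⟨C / Real.log (1.5 / 1.45), by (clear * - hC; positivity), ?_⟩
  intro N Z hZ hfac t hN
  set s₀ : ℂ := 2 + t * I with hs₀
  have hs₀re : s₀.re = 2 := by simp [hs₀]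
  set h : ℂ → ℂ := fun z => (N.map (fun ρ => Bl s₀ 1.5 ρ z)).prod * Z z with hh
  have hr0 : (0 : ℝ) < 1.5 := by norm_num
  have hd : Differentiable ℂ h := (PB_diff s₀ 1.5 N).mul hZ
  have hmax : ‖h s₀‖ ≤ C₀ * (5 + |t|) ^ 2 := by
    refine Complex.norm_le_of_forall_mem_frontier_norm_le (U := ball s₀ 1.5) isBounded_ball
      hd.diffContOnCl ?_ (subset_closure (mem_ball_self hr0))
    intro w hw
    rw [frontier_ball s₀ hr0.ne', mem_sphere, dist_eq_norm] at hw
    have h1 : ‖h w‖ = ‖EZ w‖ := by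
      rw [hh, hfac w, norm_mul, norm_mul, PB_circle hr0 N hw]
    rw [h1]
    have h2 : 1 / 2 ≤ w.re := by
      have h3 := (abs_le.1 (Complex.abs_re_le_norm (w - s₀))).1
      rw [Complex.sub_re, hs₀re, hw] at h3
      norm_num at h3 ⊢
      linarith
    have h4 : ‖w‖ ≤ 1.5 + (2 + |t|) := by
      calc ‖w‖ = ‖(w - s₀) + s₀‖ := by rw [sub_add_cancel]
        _ ≤ ‖w - s₀‖ + ‖s₀‖ := norm_add_le _ _
        _ ≤ 1.5 + (2 + |t|) := by rw [hw]; gcongr; exact center_norm t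
    refine (hEZ w h2).trans ?_
    have h5 : 1 + ‖w‖ ≤ 5 + |t| := by
      norm_num at h4 ⊢
      (clear * - h4; linarith)
    (clear * - h5 hC₀; gcongr)
  have hcen : ‖h s₀‖ = 1.5 ^ Multiset.card N * ‖Z s₀‖ := by
    rw [hh]
    show ‖(N.map (fun ρ => Bl s₀ 1.5 ρ s₀)).prod * Z s₀‖ = _
    rw [PB_center hr0, norm_mul, norm_pow, Complex.norm_real, Real.norm_eq_abs,
      abs_of_pos hr0]
  have hQ : ‖Qp N s₀‖ ≤ 1.45 ^ Multiset.card N :=
    Qp_upper N s₀ _ (by norm_num) fun ρ hρ => by rw [norm_sub_rev]; exact hN ρ hρ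
  have hE := EZ_center t
  rw [← hs₀, hfac s₀, norm_mul] at hE
  set n := Multiset.card N with hn
  have hfin : (1.5 / 1.45 : ℝ) ^ n ≤ 3 * C₀ * (5 + |t|) ^ 2 := by
    have h1 : (1.5 / 1.45 : ℝ) ^ n * (1 / 3) ≤ 1.5 ^ n * ‖Z s₀‖ := by
      calc (1.5 / 1.45 : ℝ) ^ n * (1 / 3) ≤ (1.5 / 1.45 : ℝ) ^ n * (‖Qp N s₀‖ * ‖Z s₀‖) := by
            gcongr
        _ ≤ (1.5 / 1.45 : ℝ) ^ n * (1.45 ^ n * ‖Z s₀‖) := by (clear * - hQ; gcongr)
        _ = 1.5 ^ n * ‖Z s₀‖ := by
            rw [div_pow]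
            (clear * -; field_simp)
    rw [← hcen] at h1
    have h2 := h1.trans hmax
    (clear * - hmax h1; linarith)
  have h1 : (n : ℝ) * Real.log (1.5 / 1.45) ≤ C * Real.log (|t| + 2) := by
    rw [← Real.log_pow]
    refine le_trans (Real.log_le_log (by positivity) hfin) (hlog t)
  rw [div_mul_eq_mul_div, le_div_iff₀ hL]
  exact h1

end Pool.Agent.M17.Helper33.KSZ
end

/- Helper53.KN.Helper33.KSZ.LandauGen -/
section
/-! KSZ A8, general radii `r₁ < r₂ < r < R`. -/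

set_option autoImplicit false
open Filter Topology Complex Metric

namespace Pool.Agent.M17.Helper33.KSZ

lemma Bl_low {s₀ : ℂ} {r ρ₁ ρ₂ : ℝ} {c z : ℂ} (hr : 0 ≤ r) (hρ₂ : 0 ≤ ρ₂) (hc : ‖c - s₀‖ ≤ ρ₂)
    (hz : ‖z - s₀‖ ≤ ρ₁) :
    r ^ 2 - ρ₂ * ρ₁ ≤ ‖(r : ℂ) ^ 2 - (starRingEnd ℂ) (c - s₀) * (z - s₀)‖ := by
  have h1 := norm_sub_norm_le ((r : ℂ) ^ 2) ((starRingEnd ℂ) (c - s₀) * (z - s₀))
  rw [norm_pow, Complex.norm_real, Real.norm_eq_abs, abs_of_nonneg hr, norm_mul,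
    RCLike.norm_conj] at h1
  have h2 : ‖c - s₀‖ * ‖z - s₀‖ ≤ ρ₂ * ρ₁ :=
    mul_le_mul hc hz (norm_nonneg _) hρ₂
  linarith

lemma Bl_logDeriv_gen {s₀ : ℂ} {r ρ₁ ρ₂ : ℝ} {c z : ℂ} (hr : 0 < r) (hρ₂ : 0 ≤ ρ₂)
    (hc : ‖c - s₀‖ ≤ ρ₂) (hz : ‖z - s₀‖ ≤ ρ₁) (hpos : 0 < r ^ 2 - ρ₂ * ρ₁) :
    ‖logDeriv (Bl s₀ r c) z‖ ≤ ρ₂ / (r ^ 2 - ρ₂ * ρ₁) := by
  have h1 := Bl_low hr.le hρ₂ hc hz
  have hr' : (r : ℂ) ≠ 0 := by exact_mod_cast hr.ne'
  have h2 : HasDerivAt (Bl s₀ r c) (-(starRingEnd ℂ) (c - s₀) / (r : ℂ)) z := by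
    have h3 : HasDerivAt (fun z : ℂ => z - s₀) 1 z := (hasDerivAt_id z).sub_const s₀
    have h4 := ((h3.const_mul ((starRingEnd ℂ) (c - s₀))).const_sub ((r : ℂ) ^ 2)).div_const (r : ℂ)
    rw [mul_one] at h4
    exact h4
  rw [logDeriv_apply, h2.deriv, Bl]
  have hne : (r : ℂ) ^ 2 - (starRingEnd ℂ) (c - s₀) * (z - s₀) ≠ 0 := by
    intro h0
    rw [h0, norm_zero] at h1
    (clear * - hpos h1; linarith)
  have h5 : -(starRingEnd ℂ) (c - s₀) / (r : ℂ) /
      (((r : ℂ) ^ 2 - (starRingEnd ℂ) (c - s₀) * (z - s₀)) / (r : ℂ)) =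
      -(starRingEnd ℂ) (c - s₀) / ((r : ℂ) ^ 2 - (starRingEnd ℂ) (c - s₀) * (z - s₀)) := by
    (clear * - hr' hne; field_simp)
  rw [h5, norm_div, norm_neg, RCLike.norm_conj]
  exact div_le_div₀ hρ₂ hc hpos h1

/-- **Landau's lemma**, general radii. -/
theorem landau_gen {s₀ : ℂ} {r₁ r₂ r R M : ℝ} {F : ℂ → ℂ} (hr₁ : 0 < r₁) (h12 : r₁ < r₂)
    (h2r : r₂ < r) (hrR : r < R) (hM : 0 < M)
    (hF : DifferentiableOn ℂ F (ball s₀ R)) (h0 : F s₀ ≠ 0)
    (hb : ∀ z ∈ ball s₀ R, ‖F z‖ ≤ Real.exp M * ‖F s₀‖) :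
    ∃ S : Finset ℂ, (∀ z, z ∈ S ↔ z ∈ closedBall s₀ r₂ ∧ F z = 0) ∧
      (∑ c ∈ S, (analyticOrderNatAt F c : ℝ)) * Real.log (r / r₂) ≤ M ∧
      ∀ z ∈ closedBall s₀ r₁, F z ≠ 0 →
        ‖deriv F z / F z - ∑ c ∈ S, (analyticOrderNatAt F c : ℂ) / (z - c)‖ ≤
          8 * M * r₂ / (r₂ - r₁) ^ 2 +
          (∑ c ∈ S, (analyticOrderNatAt F c : ℝ)) * (r₂ / (r ^ 2 - r₂ * r₁)) := by
  classical
  have hr₂ : 0 < r₂ := hr₁.trans h12
  have hr0 : 0 < r := hr₂.trans h2r
  have hR : 0 < R := hr0.trans hrR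
  have hs0B : s₀ ∈ ball s₀ R := mem_ball_self hR
  have hfin := zeros_finite (r := r₂) (by (clear * - h2r hrR; linarith)) hF ⟨s₀, hs0B, h0⟩
  set S : Finset ℂ := hfin.toFinset with hS
  have hSmem : ∀ z, z ∈ S ↔ z ∈ closedBall s₀ r₂ ∧ F z = 0 := by
    intro z
    rw [hS, Set.Finite.mem_toFinset]
    rfl
  have hSn : ∀ c ∈ S, ‖c - s₀‖ ≤ r₂ := by
    intro c hc
    have := ((hSmem c).1 hc).1
    rwa [mem_closedBall, dist_eq_norm] at this
  obtain ⟨g, hg, hgS, hFg⟩ := factor_fin S hF ⟨s₀, hs0B, h0⟩ (fun c hc => by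
    rw [mem_ball, dist_eq_norm]
    (clear * - h2r hrR hSn hc; linarith [hSn c hc]))
  set m : ℂ → ℕ := fun c => analyticOrderNatAt F c with hm
  set P : ℂ → ℂ := fun z => ∏ c ∈ S, Bl s₀ r c z ^ m c with hP
  set h : ℂ → ℂ := fun z => P z * g z with hh
  set N : ℕ := ∑ c ∈ S, m c with hN
  have hPd : Differentiable ℂ P := by
    rw [hP]
    exact Differentiable.fun_finsetProd fun c _ => (Bl_differentiable s₀ r c).pow _
  have hhd : DifferentiableOn ℂ h (ball s₀ R) := hPd.differentiableOn.mul hg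
  -- bound on the circle
  have hcirc : ∀ z : ℂ, ‖z - s₀‖ = r → ‖h z‖ ≤ Real.exp M * ‖F s₀‖ := by
    intro z hz
    have hzB : z ∈ ball s₀ R := by
      rw [mem_ball, dist_eq_norm, hz]
      (clear * - hrR; linarith)
    have h1 : ‖h z‖ = ‖F z‖ := by
      rw [hFg z]
      simp only [hh, hP, norm_mul, norm_prod, norm_pow]
      congr 1
      exact Finset.prod_congr rfl fun c hc => by rw [Bl_norm_circle hr0 hz]
    rw [h1]
    exact hb z hzB
  have hmax : ∀ z : ℂ, ‖z - s₀‖ ≤ r → ‖h z‖ ≤ Real.exp M * ‖F s₀‖ := by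
    intro z hz
    have hd : DiffContOnCl ℂ h (ball s₀ r) := by
      refine DifferentiableOn.diffContOnCl ?_
      rw [closure_ball s₀ hr0.ne']
      exact hhd.mono (closedBall_subset_ball (by linarith))
    refine Complex.norm_le_of_forall_mem_frontier_norm_le isBounded_ball hd ?_ ?_
    · intro w hw
      rw [frontier_ball s₀ hr0.ne', mem_sphere, dist_eq_norm] at hw
      exact hcirc w hw
    · rw [closure_ball s₀ hr0.ne', mem_closedBall, dist_eq_norm]
      exact hz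
  -- the centre
  have hgs : ‖h s₀‖ = r ^ N * ‖g s₀‖ := by
    have h1 : h s₀ = (∏ c ∈ S, (r : ℂ) ^ m c) * g s₀ := by
      simp only [hh, hP]
      congr 1
      exact Finset.prod_congr rfl fun c hc => by rw [Bl_center s₀ hr0]
    rw [h1, Finset.prod_pow_eq_pow_sum, norm_mul, norm_pow, Complex.norm_real, Real.norm_eq_abs,
      abs_of_pos hr0]
  have hFs : ‖F s₀‖ ≤ r₂ ^ N * ‖g s₀‖ := by
    rw [hFg s₀, norm_mul, norm_prod]
    refine mul_le_mul_of_nonneg_right ?_ (norm_nonneg _)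
    rw [hN, ← Finset.prod_pow_eq_pow_sum]
    refine Finset.prod_le_prod (fun _ _ => norm_nonneg _) fun c hc => ?_
    rw [norm_pow]
    refine pow_le_pow_left₀ (norm_nonneg _) ?_ _
    rw [norm_sub_rev]
    exact hSn c hc
  have hF0 : 0 < ‖F s₀‖ := norm_pos_iff.2 h0
  have hratio : (r / r₂) ^ N * ‖F s₀‖ ≤ ‖h s₀‖ := by
    calc (r / r₂) ^ N * ‖F s₀‖ ≤ (r / r₂) ^ N * (r₂ ^ N * ‖g s₀‖) := by (clear * - hFs hr0 hr₂; gcongr)
      _ = (r / r₂ * r₂) ^ N * ‖g s₀‖ := by rw [mul_pow]; ring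
      _ = ‖h s₀‖ := by
        rw [hgs, div_mul_cancel₀ _ hr₂.ne']
  have hpow : (r / r₂) ^ N ≤ Real.exp M := by
    have h1 := hmax s₀ (by rw [sub_self, norm_zero]; exact hr0.le)
    have h2 := hratio.trans h1
    exact le_of_mul_le_mul_right h2 hF0
  have hNM : (N : ℝ) * Real.log (r / r₂) ≤ M := by
    have h1 : Real.log ((r / r₂) ^ N) ≤ M := by
      rw [Real.log_le_iff_le_exp (by positivity)]
      exact hpow
    rwa [Real.log_pow] at h1
  have hsN : (∑ c ∈ S, (analyticOrderNatAt F c : ℝ)) = N := by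
    rw [hN]
    push_cast
    rfl
  refine ⟨S, hSmem, by rw [hsN]; exact hNM, ?_⟩
  rw [hsN]
  intro z hz hFz
  have hzn : ‖z - s₀‖ ≤ r₁ := by
    rwa [mem_closedBall, dist_eq_norm] at hz
  have hzB : z ∈ ball s₀ R := by
    rw [mem_ball, dist_eq_norm]
    (clear * - h12 h2r hrR hzn; linarith)
  have hgz : g z ≠ 0 := by
    intro h1
    apply hFz
    rw [hFg, h1, mul_zero]
  have hh0 : ‖F s₀‖ ≤ ‖h s₀‖ := by
    refine le_trans ?_ hratio
    have : (1 : ℝ) ≤ (r / r₂) ^ N := one_le_pow₀ (by rw [le_div_iff₀ hr₂]; (clear * - h2r; linarith))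
    (clear * - hF0 this; nlinarith)
  have hhs0 : h s₀ ≠ 0 := norm_pos_iff.1 (hF0.trans_le hh0)
  have hpos22 : 0 < r ^ 2 - r₂ * r₂ := by (clear * - hr₁ h2r h12; nlinarith)
  have hpos21 : 0 < r ^ 2 - r₂ * r₁ := by (clear * - hpos22 hr₁ h12; nlinarith)
  -- non-vanishing of h
  have hBl0 : ∀ c ∈ S, ∀ w : ℂ, ‖w - s₀‖ ≤ r₂ → Bl s₀ r c w ≠ 0 := by
    intro c hc w hw h1
    have h2 := Bl_low hr0.le hr₂.le (hSn c hc) hw
    rw [Bl, div_eq_zero_iff] at h1
    rcases h1 with h1 | h1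
    · rw [h1, norm_zero] at h2
      (clear * - hpos22 h2; linarith)
    · exact hr0.ne' (by exact_mod_cast h1)
  have hhne : ∀ w : ℂ, ‖w - s₀‖ ≤ r₂ → h w ≠ 0 := by
    intro w hw
    have hwB : w ∈ ball s₀ R := by
      rw [mem_ball, dist_eq_norm]
      (clear * - h2r hrR hw; linarith)
    refine mul_ne_zero ?_ ?_
    · rw [hP]
      exact Finset.prod_ne_zero_iff.2 fun c hc => pow_ne_zero _ (hBl0 c hc w hw)
    · intro h1
      have h2 : F w = 0 := by rw [hFg, h1, mul_zero]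
      have h3 : w ∈ S := (hSmem w).2 ⟨by rw [mem_closedBall, dist_eq_norm]; exact hw, h2⟩
      exact hgS w h3 h1
  set H : ℂ → ℂ := fun w => h (s₀ + w) / h s₀ with hH
  have hHd : DifferentiableOn ℂ H (ball 0 r₂) := by
    refine DifferentiableOn.div_const ?_ _
    refine hhd.comp (by fun_prop) ?_
    intro w hw
    rw [mem_ball_zero_iff] at hw
    show s₀ + w ∈ ball s₀ R
    rw [mem_ball, dist_eq_norm, add_sub_cancel_left]
    (clear * - h2r hrR hw; linarith)
  have hHne : ∀ w ∈ ball (0 : ℂ) r₂, H w ≠ 0 := by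
    intro w hw
    rw [mem_ball_zero_iff] at hw
    exact div_ne_zero (hhne _ (by rw [add_sub_cancel_left]; exact hw.le)) hhs0
  have hH0 : H 0 = 1 := by
    rw [hH]
    show h (s₀ + 0) / h s₀ = 1
    rw [add_zero, div_self hhs0]
  have hHb : ∀ w ∈ ball (0 : ℂ) r₂, ‖H w‖ ≤ Real.exp M := by
    intro w hw
    rw [mem_ball_zero_iff] at hw
    show ‖h (s₀ + w) / h s₀‖ ≤ _
    rw [norm_div, div_le_iff₀ (norm_pos_iff.2 hhs0)]
    refine (hmax _ (by rw [add_sub_cancel_left]; (clear * - h2r hw; linarith))).trans ?_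
    (clear * - hh0; gcongr)
  have hmain := Pool.Agent.M17.Helper69.QRH.logDeriv_bound (r₁ := r₁) (r₂ := (r₁ + r₂) / 2)
    hr₁ (by (clear * - h12; linarith)) (by (clear * - h12; linarith)) hM hHd hHne hH0 hHb hzn
  have hcalc : 2 * M * ((r₁ + r₂) / 2) / (r₂ - (r₁ + r₂) / 2) / ((r₁ + r₂) / 2 - r₁) ≤
      8 * M * r₂ / (r₂ - r₁) ^ 2 := by
    have hd : 0 < r₂ - r₁ := by (clear * - h12; linarith)
    have h1 : r₂ - (r₁ + r₂) / 2 = (r₂ - r₁) / 2 := by ring
    have h2 : (r₁ + r₂) / 2 - r₁ = (r₂ - r₁) / 2 := by ring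
    rw [h1, h2]
    have h3 : 2 * M * ((r₁ + r₂) / 2) / ((r₂ - r₁) / 2) / ((r₂ - r₁) / 2) =
        4 * M * (r₁ + r₂) / (r₂ - r₁) ^ 2 := by
      field_simp
      ring
    rw [h3]
    apply div_le_div_of_nonneg_right _ (by positivity)
    (clear * - h12 hM; nlinarith)
  have hmain := hmain.trans hcalc
  -- derivative of H
  have hhz : DifferentiableAt ℂ h z := hhd.differentiableAt (isOpen_ball.mem_nhds hzB)
  have hHz : deriv H (z - s₀) / H (z - s₀) = logDeriv h z := by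
    have h1 : HasDerivAt (fun w : ℂ => s₀ + w) 1 (z - s₀) := (hasDerivAt_id _).const_add s₀
    have h2 : HasDerivAt h (deriv h z) (s₀ + (z - s₀)) := by
      rw [add_sub_cancel]
      exact hhz.hasDerivAt
    have h3 : HasDerivAt H (deriv h z * 1 / h s₀) (z - s₀) := (h2.comp _ h1).div_const _
    rw [h3.deriv, logDeriv_apply]
    show deriv h z * 1 / h s₀ / (h (s₀ + (z - s₀)) / h s₀) = _
    rw [add_sub_cancel]
    have := hhne z (by (clear * - h12 hzn; linarith))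
    (clear * - hhs0 this; field_simp)
  rw [hHz] at hmain
  -- logarithmic derivatives
  have hBne : ∀ c ∈ S, Bl s₀ r c z ≠ 0 := fun c hc => hBl0 c hc z (by (clear * - h12 hzn; linarith))
  have hgzd : DifferentiableAt ℂ g z := hg.differentiableAt (isOpen_ball.mem_nhds hzB)
  have hlP : logDeriv P z = ∑ c ∈ S, (m c : ℂ) * logDeriv (Bl s₀ r c) z := by
    rw [hP, logDeriv_prod (f := fun c z => Bl s₀ r c z ^ m c)
      (fun c hc => pow_ne_zero _ (hBne c hc))
      (fun c _ => ((Bl_differentiable s₀ r c).pow _) z)]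
    exact Finset.sum_congr rfl fun c _ => logDeriv_fun_pow (Bl_differentiable s₀ r c z) _
  have hlh : logDeriv h z = ∑ c ∈ S, (m c : ℂ) * logDeriv (Bl s₀ r c) z + logDeriv g z := by
    rw [hh, logDeriv_mul (f := P) (g := g) z
      (by rw [hP]; exact Finset.prod_ne_zero_iff.2 fun c hc => pow_ne_zero _ (hBne c hc)) hgz
      (hPd z) hgzd, hlP]
  have hzS : ∀ c ∈ S, z - c ≠ 0 := by
    intro c hc h1
    rw [sub_eq_zero] at h1
    rw [h1] at hFz
    exact hFz ((hSmem c).1 hc).2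
  have hlF : deriv F z / F z = ∑ c ∈ S, (m c : ℂ) / (z - c) + logDeriv g z := by
    rw [← logDeriv_apply]
    have h1 : F = fun z => (∏ c ∈ S, (z - c) ^ m c) * g z := funext hFg
    conv_lhs => rw [h1]
    rw [logDeriv_mul (f := fun z => ∏ c ∈ S, (z - c) ^ m c) (g := g) z
      (Finset.prod_ne_zero_iff.2 fun c hc => pow_ne_zero _ (hzS c hc)) hgz
      (DifferentiableAt.fun_finsetProd fun c _ => by fun_prop) hgzd,
      logDeriv_prod (f := fun c z => (z - c) ^ m c)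
      (fun c hc => pow_ne_zero _ (hzS c hc)) (fun c _ => by fun_prop)]
    congr 1
    refine Finset.sum_congr rfl fun c _ => ?_
    rw [logDeriv_fun_pow (f := fun z => z - c) (by fun_prop), logDeriv_apply]
    have h3 : HasDerivAt (fun z : ℂ => z - c) 1 z := (hasDerivAt_id z).sub_const c
    rw [h3.deriv]
    ring
  have hdiff : deriv F z / F z - ∑ c ∈ S, (analyticOrderNatAt F c : ℂ) / (z - c) =
      logDeriv h z - ∑ c ∈ S, (m c : ℂ) * logDeriv (Bl s₀ r c) z := by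
    rw [hlF, hlh]
    simp only [hm]
    ring
  rw [hdiff]
  refine (norm_sub_le _ _).trans (add_le_add hmain ?_)
  refine (norm_sum_le _ _).trans ?_
  calc ∑ c ∈ S, ‖(m c : ℂ) * logDeriv (Bl s₀ r c) z‖
      ≤ ∑ c ∈ S, (m c : ℝ) * (r₂ / (r ^ 2 - r₂ * r₁)) := by
        refine Finset.sum_le_sum fun c hc => ?_
        rw [norm_mul, Complex.norm_natCast]
        exact mul_le_mul_of_nonneg_left
          (Bl_logDeriv_gen hr0 hr₂.le (hSn c hc) hzn hpos21) (Nat.cast_nonneg _)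
    _ = (N : ℝ) * (r₂ / (r ^ 2 - r₂ * r₁)) := by
        rw [← Finset.sum_mul, hN]
        push_cast
        rfl

end Pool.Agent.M17.Helper33.KSZ
end
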