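import Mathlib
import Pool.Agent.Helper53.KM.G01
import Pool.Agent.Helper53.KM.G02

/- Helper53.KN.Helper79.QRH.KFacts -/
section
/-! QRH-A3: the triangle kernel and its Laplace transform. -/

set_option autoImplicit false
open MeasureTheory

namespace Pool.Agent.M17.Helper79.QRH

open Pool.Agent.M17.Helper10.QRH

lemma tri_cont (lam : ℝ) : Continuous (tri lam) := by
  unfold tri
  fun_prop

lemma tri_zero {lam v : ℝ} (hl : 0 < lam) (hv : lam ≤ |v|) : tri lam v = 0 := by
  unfold tri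
  have h : 1 - |v| / lam ≤ 0 := by
    have := (one_le_div hl).2 hv
    (clear * - this; linarith)
  rw [max_eq_left h, zero_div]

lemma tri_nonneg {lam v : ℝ} (hl : 0 < lam) : 0 ≤ tri lam v :=
  div_nonneg (le_max_left _ _) hl.le

lemma tri_le {lam v : ℝ} (hl : 0 < lam) : tri lam v ≤ 1 / lam := by
  unfold tri
  apply div_le_div_of_nonneg_right _ hl.le
  apply max_le zero_le_one
  have : 0 ≤ |v| / lam := div_nonneg (abs_nonneg _) hl.le
  linarith

lemma integrand_cont (lam : ℝ) (s : ℂ) :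
    Continuous (fun v : ℝ => (tri lam v : ℂ) * Complex.exp (-s * v)) := by
  have := tri_cont lam
  fun_prop

lemma integral_eq_interval {lam : ℝ} (hl : 0 < lam) (g : ℝ → ℂ)
    (hg : ∀ v, lam ≤ |v| → g v = 0) : ∫ v : ℝ, g v = ∫ v in (-lam)..lam, g v := by
  rw [intervalIntegral.integral_of_le (by linarith)]
  symm
  apply setIntegral_eq_integral_of_forall_compl_eq_zero
  intro v hv
  apply hg
  rw [Set.mem_Ioc, not_and_or, not_lt, not_le] at hv
  rcases hv with h | h
  · rw [le_abs]; right; (clear * - h; linarith)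
  · rw [le_abs]; left; exact h.le

lemma KK_eq {lam : ℝ} (hl : 0 < lam) (s : ℂ) :
    KK lam s = ∫ v in (-lam)..lam, (tri lam v : ℂ) * Complex.exp (-s * v) := by
  unfold KK
  apply integral_eq_interval hl
  intro v hv
  rw [tri_zero hl hv]
  simp

lemma norm_exp_le {lam v : ℝ} (s : ℂ) (hv : |v| ≤ lam) :
    ‖Complex.exp (-s * v)‖ ≤ Real.exp (lam * |s.re|) := by
  rw [Complex.norm_exp]
  apply Real.exp_le_exp.2
  have : (-s * (v : ℂ)).re = -s.re * v := by simp
  rw [this]
  calc -s.re * v ≤ |-s.re * v| := le_abs_self _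
    _ = |s.re| * |v| := by rw [abs_mul, abs_neg]
    _ ≤ |s.re| * lam := mul_le_mul_of_nonneg_left hv (abs_nonneg _)
    _ = lam * |s.re| := mul_comm _ _

lemma abs_le_of_mem {lam v : ℝ} (hl : 0 < lam) (hv : v ∈ Set.uIoc (-lam) lam) : |v| ≤ lam := by
  rw [Set.uIoc_of_le (by linarith)] at hv
  exact abs_le.2 ⟨hv.1.le, hv.2⟩

lemma KK_triv {lam : ℝ} (hl : 0 < lam) (s : ℂ) :
    ‖KK lam s‖ ≤ 2 * Real.exp (lam * |s.re|) := by
  rw [KK_eq hl]
  have h := intervalIntegral.norm_integral_le_of_norm_le_const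
    (a := -lam) (b := lam) (C := 1 / lam * Real.exp (lam * |s.re|))
    (f := fun v : ℝ => (tri lam v : ℂ) * Complex.exp (-s * v)) (by
      intro v hv
      rw [norm_mul, Complex.norm_real, Real.norm_of_nonneg (tri_nonneg hl)]
      exact mul_le_mul (tri_le hl) (norm_exp_le s (abs_le_of_mem hl hv)) (norm_nonneg _)
        (by positivity))
  refine h.trans (le_of_eq ?_)
  rw [show lam - -lam = 2 * lam by ring, abs_of_pos (show 0 < 2 * lam by (clear * - hl; linarith))]
  field_simp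

lemma KK_closed {lam : ℝ} (hl : 0 < lam) {s : ℂ} (hs : s ≠ 0) :
    KK lam s = (Complex.exp (s * lam) + Complex.exp (-s * lam) - 2) / ((lam : ℂ) * s) ^ 2 := by
  have hlC : (lam : ℂ) ≠ 0 := by exact_mod_cast hl.ne'
  rw [KK_eq hl]
  have hc := integrand_cont lam s
  rw [← intervalIntegral.integral_add_adjacent_intervals (b := 0)
    (hc.intervalIntegrable _ _) (hc.intervalIntegrable _ _)]
  have hexp : ∀ v : ℝ, HasDerivAt (fun v : ℝ => Complex.exp (-s * v))
      (Complex.exp (-s * v) * (-s)) v := by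
    intro v
    have h1 : HasDerivAt (fun v : ℝ => -s * (v : ℂ)) (-s) v := by
      have := (Complex.ofRealCLM.hasDerivAt (x := v)).const_mul (-s)
      simpa using this
    exact h1.cexp
  have hid : ∀ v : ℝ, HasDerivAt (fun v : ℝ => (v : ℂ)) 1 v := by
    intro v
    have := (hasDerivAt_id v).ofReal_comp
    simpa using this
  have h1 : ∫ v in (-lam)..0, (tri lam v : ℂ) * Complex.exp (-s * v) =
      (-1 / (lam * s ^ 2) - 1 / s) / lam + Complex.exp (s * lam) / (lam ^ 2 * s ^ 2) := by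
    have hcongr : ∫ v in (-lam)..0, (tri lam v : ℂ) * Complex.exp (-s * v) =
        ∫ v in (-lam)..0, ((1 + (v : ℂ) / lam) / lam) * Complex.exp (-s * v) := by
      apply intervalIntegral.integral_congr
      intro v hv
      rw [Set.uIcc_of_le (by linarith)] at hv
      have h3 : tri lam v = (1 + v / lam) / lam := by
        unfold tri
        rw [abs_of_nonpos hv.2, max_eq_right]
        · ring
        · have : -v / lam ≤ 1 := by
            rw [div_le_one hl]
            linarith [hv.1]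
          linarith
      show (tri lam v : ℂ) * _ = _
      rw [h3]
      push_cast
      ring
    rw [hcongr]
    have hQ : ∀ v : ℝ, HasDerivAt (fun v : ℝ => Complex.exp (-s * v) *
        ((-1 / ((lam : ℂ) ^ 2 * s)) * (v : ℂ) + (-1 / (lam * s ^ 2) - 1 / s) / lam))
        (((1 + (v : ℂ) / lam) / lam) * Complex.exp (-s * v)) v := by
      intro v
      have h4 := (hexp v).mul (((hid v).const_mul (-1 / ((lam : ℂ) ^ 2 * s))).add_const
        ((-1 / ((lam : ℂ) * s ^ 2) - 1 / s) / lam))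
      refine h4.congr_deriv ?_
      field_simp
      ring
    rw [intervalIntegral.integral_eq_sub_of_hasDerivAt (fun v _ => hQ v)
      (by apply Continuous.intervalIntegrable; fun_prop)]
    have h5 : -s * ((-lam : ℝ) : ℂ) = s * lam := by push_cast; ring
    rw [h5]
    push_cast
    rw [mul_zero, Complex.exp_zero]
    field_simp
    ring
  have h2 : ∫ v in (0 : ℝ)..lam, (tri lam v : ℂ) * Complex.exp (-s * v) =
      Complex.exp (-s * lam) / (lam ^ 2 * s ^ 2) - (1 / (lam * s ^ 2) - 1 / s) / lam := by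
    have hcongr : ∫ v in (0 : ℝ)..lam, (tri lam v : ℂ) * Complex.exp (-s * v) =
        ∫ v in (0 : ℝ)..lam, ((1 - (v : ℂ) / lam) / lam) * Complex.exp (-s * v) := by
      apply intervalIntegral.integral_congr
      intro v hv
      rw [Set.uIcc_of_le (by linarith)] at hv
      have h3 : tri lam v = (1 - v / lam) / lam := by
        unfold tri
        rw [abs_of_nonneg hv.1, max_eq_right]
        have : v / lam ≤ 1 := by
          rw [div_le_one hl]
          linarith [hv.2]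
        linarith
      show (tri lam v : ℂ) * _ = _
      rw [h3]
      push_cast
      ring
    rw [hcongr]
    have hQ : ∀ v : ℝ, HasDerivAt (fun v : ℝ => Complex.exp (-s * v) *
        ((1 / ((lam : ℂ) ^ 2 * s)) * (v : ℂ) + (1 / (lam * s ^ 2) - 1 / s) / lam))
        (((1 - (v : ℂ) / lam) / lam) * Complex.exp (-s * v)) v := by
      intro v
      have h4 := (hexp v).mul (((hid v).const_mul (1 / ((lam : ℂ) ^ 2 * s))).add_const
        ((1 / ((lam : ℂ) * s ^ 2) - 1 / s) / lam))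
      refine h4.congr_deriv ?_
      field_simp
      ring
    rw [intervalIntegral.integral_eq_sub_of_hasDerivAt (fun v _ => hQ v)
      (by apply Continuous.intervalIntegrable; fun_prop)]
    push_cast
    rw [mul_zero, Complex.exp_zero]
    field_simp
    ring
  rw [h1, h2]
  field_simp
  ring

lemma KK_bound {lam : ℝ} (hl : 0 < lam) (s : ℂ) :
    ‖KK lam s‖ ≤ 6 * Real.exp (lam * |s.re|) / (1 + (lam * s.im) ^ 2) := by
  have hE : 1 ≤ Real.exp (lam * |s.re|) := by
    apply Real.one_le_exp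
    (clear * - hl; positivity)
  have h0 := KK_triv hl s
  rw [le_div_iff₀ (by positivity)]
  have h1 : ‖KK lam s‖ * (lam * s.im) ^ 2 ≤ 4 * Real.exp (lam * |s.re|) := by
    rcases eq_or_ne s 0 with rfl | hs
    · simp
    · rw [KK_closed hl hs, norm_div, norm_pow, norm_mul, Complex.norm_real,
        Real.norm_of_nonneg hl.le]
      have hsn : 0 < ‖s‖ := norm_pos_iff.2 hs
      have h2 : (lam * s.im) ^ 2 ≤ (lam * ‖s‖) ^ 2 := by
        rw [mul_pow, mul_pow]
        apply mul_le_mul_of_nonneg_left _ (by positivity)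
        exact sq_le_sq.2 (by rw [abs_of_nonneg (norm_nonneg _)]; exact Complex.abs_im_le_norm s)
      have h3 : ‖Complex.exp (s * lam) + Complex.exp (-s * lam) - 2‖ ≤
          4 * Real.exp (lam * |s.re|) := by
        have e1 : ‖Complex.exp (s * lam)‖ ≤ Real.exp (lam * |s.re|) := by
          have := norm_exp_le (lam := lam) (v := -lam) s (by rw [abs_neg, abs_of_pos hl])
          have h5 : -s * ((-lam : ℝ) : ℂ) = s * lam := by push_cast; ring
          rwa [h5] at this
        have e2 : ‖Complex.exp (-s * lam)‖ ≤ Real.exp (lam * |s.re|) :=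
          norm_exp_le (lam := lam) (v := lam) s (by rw [abs_of_pos hl])
        have e3 : ‖(2 : ℂ)‖ = 2 := by simp
        calc ‖Complex.exp (s * lam) + Complex.exp (-s * lam) - 2‖
            ≤ ‖Complex.exp (s * lam) + Complex.exp (-s * lam)‖ + ‖(2 : ℂ)‖ := norm_sub_le _ _
          _ ≤ ‖Complex.exp (s * lam)‖ + ‖Complex.exp (-s * lam)‖ + ‖(2 : ℂ)‖ := by
              gcongr
              exact norm_add_le _ _
          _ ≤ 4 * Real.exp (lam * |s.re|) := by rw [e3]; linarith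
      calc ‖Complex.exp (s * lam) + Complex.exp (-s * lam) - 2‖ / (lam * ‖s‖) ^ 2 *
            (lam * s.im) ^ 2
          ≤ ‖Complex.exp (s * lam) + Complex.exp (-s * lam) - 2‖ / (lam * ‖s‖) ^ 2 *
            (lam * ‖s‖) ^ 2 := by gcongr
        _ = ‖Complex.exp (s * lam) + Complex.exp (-s * lam) - 2‖ := by
            rw [div_mul_cancel₀]
            positivity
        _ ≤ _ := h3
  rw [mul_add, mul_one]
  linarith

lemma KK_diff {lam : ℝ} (hl : 0 < lam) : Differentiable ℂ (KK lam) := by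
  intro s
  have hfun : KK lam = fun s => ∫ v in (-lam)..lam, (tri lam v : ℂ) * Complex.exp (-s * v) := by
    funext s
    exact KK_eq hl s
  rw [hfun]
  have hD : ∀ (v : ℝ) (z : ℂ), HasDerivAt (fun z : ℂ => (tri lam v : ℂ) * Complex.exp (-z * v))
      ((tri lam v : ℂ) * (Complex.exp (-z * v) * (-(v : ℂ)))) z := by
    intro v z
    have h1 : HasDerivAt (fun z : ℂ => -z * (v : ℂ)) (-(v : ℂ)) z := by
      have := (hasDerivAt_id z).neg.mul_const (v : ℂ)
      simpa using this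
    exact h1.cexp.const_mul _
  have key := intervalIntegral.hasDerivAt_integral_of_dominated_loc_of_deriv_le
    (μ := volume) (𝕜 := ℂ)
    (F := fun (z : ℂ) (v : ℝ) => (tri lam v : ℂ) * Complex.exp (-z * v))
    (F' := fun (z : ℂ) (v : ℝ) => (tri lam v : ℂ) * (Complex.exp (-z * v) * (-(v : ℂ))))
    (x₀ := s) (a := -lam) (b := lam) (s := Metric.ball s 1)
    (bound := fun _ => 1 / lam * (Real.exp (lam * (|s.re| + 1)) * lam))
    (Metric.ball_mem_nhds s one_pos)
    (Filter.Eventually.of_forall (fun z => (integrand_cont lam z).aestronglyMeasurable.restrict))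
    ((integrand_cont lam s).intervalIntegrable _ _)
    (by
      have := tri_cont lam
      apply Continuous.aestronglyMeasurable
      fun_prop)
    (Filter.Eventually.of_forall (by
      intro v hv z hz
      have hv' := abs_le_of_mem hl hv
      rw [norm_mul, norm_mul, Complex.norm_real, Real.norm_of_nonneg (tri_nonneg hl), norm_neg,
        Complex.norm_real, Real.norm_eq_abs]
      have hre : |z.re| ≤ |s.re| + 1 := by
        have h6 : |(z - s).re| ≤ ‖z - s‖ := Complex.abs_re_le_norm _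
        have h7 : ‖z - s‖ < 1 := by rwa [← dist_eq_norm]
        have h8 : |z.re| ≤ |z.re - s.re| + |s.re| := by
          have := abs_add_le (z.re - s.re) s.re
          simpa using this
        rw [Complex.sub_re] at h6
        linarith
      have h9 : ‖Complex.exp (-z * v)‖ ≤ Real.exp (lam * (|s.re| + 1)) :=
        (norm_exp_le z hv').trans (Real.exp_le_exp.2 (mul_le_mul_of_nonneg_left hre hl.le))
      exact mul_le_mul (tri_le hl) (mul_le_mul h9 hv' (abs_nonneg _) (by positivity))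
        (by positivity) (by positivity)))
    (by exact intervalIntegrable_const)
    (Filter.Eventually.of_forall (fun v _ z _ => hD v z))
  exact key.2.differentiableAt

lemma KK_cont {lam : ℝ} (hl : 0 < lam) : Continuous (KK lam) := (KK_diff hl).continuous

lemma KK_inv {lam : ℝ} (c v : ℝ) (hl : 0 < lam) : (tri lam v : ℂ) =
      (1 / (2 * Real.pi)) * ∫ t : ℝ, KK lam (c + t * Complex.I) *
        Complex.exp ((c + t * Complex.I) * v) := by
  set f : ℝ → ℂ := fun v => (tri lam v : ℂ) * Complex.exp (-(c : ℂ) * v) with hf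
  have hfc : Continuous f := integrand_cont lam c
  have hfi : Integrable f := by
    apply hfc.integrable_of_hasCompactSupport
    apply HasCompactSupport.of_support_subset_isCompact (isCompact_Icc (a := -lam) (b := lam))
    intro x hx
    by_contra hx'
    apply hx
    have : lam ≤ |x| := by
      rw [Set.mem_Icc, not_and_or, not_le, not_le] at hx'
      rcases hx' with h | h
      · rw [le_abs]; right; linarith
      · rw [le_abs]; left; exact h.le
    simp only [hf]
    rw [tri_zero hl this]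
    simp
  have hF : ∀ ξ : ℝ, FourierTransform.fourier f ξ = KK lam (c + (2 * Real.pi * ξ : ℝ) * Complex.I) := by
    intro ξ
    rw [Real.fourier_eq']
    unfold KK
    congr 1
    funext x
    simp only [hf, smul_eq_mul]
    rw [mul_left_comm, ← Complex.exp_add]
    congr 2
    simp only [RCLike.inner_apply, conj_trivial]
    push_cast
    ring
  have hFi : Integrable (FourierTransform.fourier f) := by
    have hfun : FourierTransform.fourier f =
        fun ξ : ℝ => KK lam (c + (2 * Real.pi * ξ : ℝ) * Complex.I) := funext hF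
    rw [hfun]
    have hcon : Continuous (fun ξ : ℝ => KK lam (c + (2 * Real.pi * ξ : ℝ) * Complex.I)) := by
      apply (KK_cont hl).comp
      fun_prop
    have hint : Integrable (fun x : ℝ => 6 * Real.exp (lam * |c|) *
        (1 + (lam * (2 * Real.pi) * x) ^ 2)⁻¹) := by
      apply Integrable.const_mul
      exact integrable_inv_one_add_sq.comp_mul_left' (by positivity)
    refine hint.mono' hcon.aestronglyMeasurable (Filter.Eventually.of_forall ?_)
    intro ξ
    refine (KK_bound hl _).trans (le_of_eq ?_)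
    have h1 : ((c : ℂ) + (2 * Real.pi * ξ : ℝ) * Complex.I).re = c := by simp
    have h2 : ((c : ℂ) + (2 * Real.pi * ξ : ℝ) * Complex.I).im = 2 * Real.pi * ξ := by simp
    rw [h1, h2, div_eq_mul_inv]
    congr 3
    ring
  have hinv := congrFun (hfc.fourierInv_fourier_eq hfi hFi) v
  rw [Real.fourierInv_eq'] at hinv
  simp only [hF, smul_eq_mul, RCLike.inner_apply, conj_trivial] at hinv
  have hsub := MeasureTheory.Measure.integral_comp_mul_left
    (fun t : ℝ => KK lam (c + t * Complex.I) * Complex.exp ((c + t * Complex.I) * v)) (2 * Real.pi)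
  have hpi : (0 : ℝ) < 2 * Real.pi := by positivity
  rw [abs_of_pos (inv_pos.2 hpi)] at hsub
  have h4 : ∫ (x : ℝ), KK lam (c + (2 * Real.pi * x : ℝ) * Complex.I) *
        Complex.exp ((c + (2 * Real.pi * x : ℝ) * Complex.I) * v) =
      Complex.exp (c * v) * f v := by
    rw [← hinv, ← integral_const_mul]
    congr 1
    funext x
    rw [mul_left_comm, mul_comm (Complex.exp (c * v)), mul_assoc, mul_left_comm]
    rw [mul_comm (Complex.exp _) (KK _ _ * _), mul_assoc, ← Complex.exp_add]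
    congr 2
    push_cast
    ring
  rw [h4] at hsub
  have h5 : Complex.exp (c * v) * f v = (tri lam v : ℂ) := by
    simp only [hf]
    rw [mul_left_comm, ← Complex.exp_add]
    simp
  rw [h5] at hsub
  rw [hsub, Complex.real_smul]
  push_cast
  rw [one_div]

theorem kFacts : KFacts where
  diff := fun _ hl => KK_diff hl
  bound := by
    refine ⟨6 * Real.exp 2, ?_⟩
    intro lam hl hl1 s h0 h2
    refine (KK_bound hl s).trans ?_
    gcongr
    rw [abs_of_nonneg h0]
    nlinarith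
  inv := fun _ c v hl => KK_inv c v hl

end Pool.Agent.M17.Helper79.QRH
end

/- Helper53.KN.Helper8.KSZ.LineFew -/
section
/-! KSZ-E11: the line integral is small outside of few cells. -/

set_option autoImplicit false
open Filter Topology MeasureTheory

namespace Pool.Agent.M17.Helper8.KSZ.LF

open Pool.Agent.M17.Helper10.QRH Pool.Agent.M17.Helper69.QRH Pool.Agent.M17.Helper46.KSZ
open Pool.Agent.M17.Helper79.QRH (KK_cont)

lemma line_re (c t : ℝ) : ((c : ℂ) + t * Complex.I).re = c := by simp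
lemma line_im (c t : ℝ) : ((c : ℂ) + t * Complex.I).im = t := by simp

/-- the density on the line -/
noncomputable def gg (p : ℕ) (lam T : ℝ) (Z : ℂ → ℂ) : ℝ → ℂ :=
  (Set.Ioc (-T) T).indicator (fun t => KK lam ((0.605 : ℝ) + t * Complex.I) ^ p *
    (-logDeriv Z ((0.605 : ℝ) + t * Complex.I)))

lemma gg_meas {p : ℕ} {lam T : ℝ} (hl : 0 < lam) {Z : ℂ → ℂ} (hZ : Differentiable ℂ Z) :
    Measurable (gg p lam T Z) := by
  apply Measurable.indicator _ measurableSet_Ioc
  have hi : Continuous (fun t : ℝ => (((0.605 : ℝ) : ℂ) + t * Complex.I)) := by fun_prop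
  have h1 : Measurable (fun t : ℝ => KK lam ((0.605 : ℝ) + t * Complex.I)) :=
    ((KK_cont hl).comp hi).measurable
  have h2 : Measurable (fun t : ℝ => logDeriv Z ((0.605 : ℝ) + t * Complex.I)) := by
    have h3 : Measurable (fun t : ℝ => deriv Z ((0.605 : ℝ) + t * Complex.I)) := by
      have : Differentiable ℂ (deriv Z) := fun z => hZ.deriv z
      exact (this.continuous.comp hi).measurable
    have h4 : Measurable (fun t : ℝ => Z ((0.605 : ℝ) + t * Complex.I)) :=
      (hZ.continuous.comp hi).measurable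
    exact h3.div h4
  exact (h1.pow_const p).mul h2.neg

lemma line_eq {p : ℕ} {lam T : ℝ} (hT : 0 ≤ T) (Z : ℂ → ℂ) (u : ℝ) :
    line p lam T Z u = (1 / (2 * Real.pi)) * (Complex.exp ((0.605 : ℝ) * u) *
      ∫ t : ℝ, gg p lam T Z t * Complex.exp (t * u * Complex.I)) := by
  unfold line
  congr 1
  rw [intervalIntegral.integral_of_le (by (clear * - hT; linarith)), ← integral_indicator measurableSet_Ioc,
    ← integral_const_mul]
  congr 1
  funext t
  unfold gg
  by_cases ht : t ∈ Set.Ioc (-T) T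
  · rw [Set.indicator_of_mem ht, Set.indicator_of_mem ht, add_mul, Complex.exp_add,
      show (t : ℂ) * Complex.I * u = t * u * Complex.I by ring]
    ring
  · rw [Set.indicator_of_notMem ht, Set.indicator_of_notMem ht]
    ring

lemma line_norm {p : ℕ} {lam T : ℝ} (hT : 0 ≤ T) (Z : ℂ → ℂ) (u : ℝ) :
    ‖line p lam T Z u‖ ≤ Real.exp (0.605 * u) *
      ‖∫ t : ℝ, gg p lam T Z t * Complex.exp (t * u * Complex.I)‖ := by
  rw [line_eq hT, norm_mul, norm_mul, Complex.norm_exp]
  have h1 : ‖(1 / (2 * (Real.pi : ℂ)))‖ ≤ 1 := by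
    rw [norm_div, norm_one, norm_mul, Complex.norm_real, Real.norm_of_nonneg Real.pi_pos.le,
      Complex.norm_ofNat, div_le_one (by positivity)]
    (clear * -; linarith [Real.pi_gt_three])
  have h2 : (((0.605 : ℝ) : ℂ) * (u : ℂ)).re = 0.605 * u := by
    rw [← Complex.ofReal_mul, Complex.ofReal_re]
  rw [h2]
  exact mul_le_of_le_one_left (by positivity) h1

lemma gg_bound {p : ℕ} (hp : 1 ≤ p) {lam T CK L : ℝ} {Z : ℂ → ℂ} (hCK : 0 ≤ CK) (hL : 0 ≤ L)
    (hKK : ∀ s : ℂ, 0 ≤ s.re → s.re ≤ 2 → ‖KK lam s‖ ≤ CK / (1 + (lam * s.im) ^ 2))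
    (hG : ∀ s : ℂ, 0.605 ≤ s.re → s.re ≤ 2 → |s.im| ≤ T → ‖logDeriv Z s‖ ≤ L) (t : ℝ) :
    ‖gg p lam T Z t‖ ≤ (2 * (CK ^ p * L)) / (1 + (lam * t) ^ 2) * Real.log (2 + |t|) := by
  have hlog : 1/2 ≤ Real.log (2 + |t|) := by
    have h1 : Real.log 2 ≤ Real.log (2 + |t|) :=
      Real.log_le_log (by norm_num) (by (clear * -; linarith [abs_nonneg t]))
    (clear * - h1; linarith [Real.log_two_gt_d9])
  have hlog0 : 0 ≤ Real.log (2 + |t|) := by linarith
  unfold gg
  by_cases ht : t ∈ Set.Ioc (-T) T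
  · rw [Set.indicator_of_mem ht, norm_mul, norm_pow, norm_neg]
    have h1 := hKK ((0.605 : ℝ) + t * Complex.I) (by rw [line_re]; norm_num)
      (by rw [line_re]; norm_num)
    rw [line_im] at h1
    have h2 := hG ((0.605 : ℝ) + t * Complex.I) (by rw [line_re])
      (by rw [line_re]; norm_num) (by rw [line_im]; exact abs_le.2 ⟨ht.1.le, ht.2⟩)
    have h3 : (1 : ℝ) ≤ 1 + (lam * t) ^ 2 := by (clear * -; nlinarith [sq_nonneg (lam * t)])
    have h4 : ‖KK lam ((0.605 : ℝ) + t * Complex.I)‖ ^ p ≤ CK ^ p / (1 + (lam * t) ^ 2) := by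
      calc ‖KK lam ((0.605 : ℝ) + t * Complex.I)‖ ^ p ≤ (CK / (1 + (lam * t) ^ 2)) ^ p := by
            (clear * - h1; gcongr)
        _ = CK ^ p / (1 + (lam * t) ^ 2) ^ p := by rw [div_pow]
        _ ≤ CK ^ p / (1 + (lam * t) ^ 2) := by
            apply div_le_div_of_nonneg_left (by positivity) (by (clear * -; positivity))
            exact le_self_pow₀ h3 (by omega)
    calc ‖KK lam ((0.605 : ℝ) + t * Complex.I)‖ ^ p * ‖logDeriv Z ((0.605 : ℝ) + t * Complex.I)‖
        ≤ (CK ^ p / (1 + (lam * t) ^ 2)) * L := by (clear * - h4 h2 hCK; gcongr)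
      _ = (2 * (CK ^ p * L)) / (1 + (lam * t) ^ 2) * (1/2) := by ring
      _ ≤ _ := by gcongr
  · rw [Set.indicator_of_notMem ht, norm_zero]
    (clear * - hCK hL hlog; positivity)

/-- the choice of `K` -/
lemma exists_K (C d : ℝ) (hd : 0 < d) : ∃ K : ℕ, ∀ k : ℕ, K ≤ k →
    C * (k : ℝ) ^ 3 ≤ (2 : ℝ) ^ (3/2 * d * k) := by
  have hr : 1 < (2 : ℝ) ^ (3/2 * d) := Real.one_lt_rpow (by norm_num) (by positivity)
  have h1 := (tendsto_pow_const_div_const_pow_of_one_lt 3 hr).const_mul C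
  rw [mul_zero] at h1
  have h2 := h1.eventually (gt_mem_nhds (one_pos : (0 : ℝ) < 1))
  obtain ⟨K, hK⟩ := Filter.eventually_atTop.1 h2
  refine ⟨K, fun k hk => ?_⟩
  have h3 := hK k hk
  have h4 : (0 : ℝ) < ((2 : ℝ) ^ (3/2 * d)) ^ k := by positivity
  rw [← mul_div_assoc, div_lt_one h4] at h3
  rw [Real.rpow_mul (by norm_num), Real.rpow_natCast]
  exact h3.le

lemma ee_le (d : ℝ) (hd : 0 < d) (k : ℕ) : ee d k ≤ k := by
  have h1 : (k : ℝ) * (1/2 - d) ≤ k := by
    have : (0 : ℝ) ≤ k := Nat.cast_nonneg k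
    nlinarith
  have h2 := Nat.floor_le_floor h1
  rwa [Nat.floor_natCast] at h2

lemma ee_ge (d : ℝ) (k : ℕ) : (k : ℝ) * (1/2 - d) - 1 ≤ ee d k :=
  (Nat.sub_one_lt_floor _).le

/-- the centre of the cell -/
noncomputable def cc (d : ℝ) (k j : ℕ) : ℝ := ((2 ^ k + j * 2 ^ ee d k : ℕ) : ℝ) + (2 : ℝ) ^ ee d k / 2

lemma uu_eq (d : ℝ) (k j : ℕ) : uu d k j = Real.log (cc d k j) := rfl

lemma cc_eq (d : ℝ) (k j : ℕ) : cc d k j = 2 ^ k + j * 2 ^ ee d k + (2 : ℝ) ^ ee d k / 2 := by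
  unfold cc
  push_cast
  ring

lemma cc_pos (d : ℝ) (k j : ℕ) : 0 < cc d k j := by
  rw [cc_eq]; (clear * -; positivity)

lemma cc_lt (d : ℝ) (hd : 0 < d) (k j : ℕ) (hj : j < 2 ^ (k - ee d k)) : cc d k j ≤ 2 * 2 ^ k := by
  rw [cc_eq]
  have h1 : (j + 1) * 2 ^ ee d k ≤ 2 ^ k := by
    calc (j + 1) * 2 ^ ee d k ≤ 2 ^ (k - ee d k) * 2 ^ ee d k := Nat.mul_le_mul_right _ hj
      _ = 2 ^ k := by rw [← pow_add, Nat.sub_add_cancel (ee_le d hd k)]
  have h2 : ((j : ℝ) + 1) * 2 ^ ee d k ≤ 2 ^ k := by exact_mod_cast h1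
  have h3 : (0 : ℝ) < 2 ^ ee d k := by positivity
  (clear * - h2 h3; linarith)

lemma lamk_pos {p : ℕ} (hp : 1 ≤ p) (d : ℝ) (k : ℕ) : 0 < lamk p d k := by
  unfold lamk
  have : (0 : ℝ) < p := by exact_mod_cast hp
  (clear * - hp; positivity)

lemma uu_sep {p : ℕ} (hp : 1 ≤ p) (d : ℝ) (hd : 0 < d) (k j j' : ℕ) (hjj : j < j')
    (hj : j' < 2 ^ (k - ee d k)) : lamk p d k ≤ uu d k j' - uu d k j := by
  rw [uu_eq, uu_eq]
  have h1 : cc d k j + 2 ^ ee d k ≤ cc d k j' := by
    rw [cc_eq, cc_eq]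
    have h2 : (j : ℝ) + 1 ≤ j' := by exact_mod_cast hjj
    have h3 : (0 : ℝ) < 2 ^ ee d k := by positivity
    (clear * - h2 h3; nlinarith)
  have h3 : (0 : ℝ) < 2 ^ ee d k := by positivity
  have h4 := Helper30.QRH.log_gap (cc_pos d k j) (by (clear * - h1 h3; linarith) : cc d k j ≤ cc d k j')
  refine le_trans ?_ h4
  have h5 := cc_lt d hd k j' hj
  have h6 := cc_pos d k j'
  unfold lamk
  have hp' : (1 : ℝ) ≤ p := by exact_mod_cast hp
  have hX : (0 : ℝ) < 2 ^ k := by positivity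
  rw [div_le_div_iff₀ (by positivity) h6]
  have h7 : (2 : ℝ) * 2 ^ k ≤ 8 * p * 2 ^ k := by
    have : (2 : ℝ) ≤ 8 * p := by (clear * - hp'; linarith)
    exact mul_le_mul_of_nonneg_right this hX.le
  calc (2 : ℝ) ^ ee d k * cc d k j' ≤ 2 ^ ee d k * (8 * p * 2 ^ k) := by gcongr; (clear * - h5 h7; linarith)
    _ ≤ (cc d k j' - cc d k j) * (8 * p * 2 ^ k) := by
        apply mul_le_mul_of_nonneg_right _ (by positivity)
        (clear * - h1; linarith)

lemma uu_abs {p : ℕ} (hp : 1 ≤ p) (d : ℝ) (hd : 0 < d) (k j j' : ℕ) (hne : j ≠ j')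
    (hj : j < 2 ^ (k - ee d k)) (hj' : j' < 2 ^ (k - ee d k)) :
    lamk p d k ≤ |uu d k j - uu d k j'| := by
  rcases lt_or_gt_of_ne hne with h | h
  · rw [abs_sub_comm]
    exact (uu_sep hp d hd k j j' h hj').trans (le_abs_self _)
  · exact (uu_sep hp d hd k j' j h hj).trans (le_abs_self _)

lemma lamk_le {p : ℕ} (hp : 1 ≤ p) (d : ℝ) (hd : 0 < d) (k : ℕ) : lamk p d k ≤ 1/2 := by
  unfold lamk
  have hp' : (1 : ℝ) ≤ p := by exact_mod_cast hp
  have hX : (0 : ℝ) < 2 ^ k := by positivity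
  rw [div_le_iff₀ (by positivity)]
  have h1 : (2 : ℝ) ^ ee d k ≤ 2 ^ k := pow_le_pow_right₀ (by norm_num) (ee_le d hd k)
  (clear * - hX h1 hp'; nlinarith)

lemma inv_lamk {p : ℕ} (hp : 1 ≤ p) (d : ℝ) (k : ℕ) :
    1 / lamk p d k ≤ 16 * p * (2 : ℝ) ^ ((1/2 + d) * k) := by
  unfold lamk
  have hp' : (1 : ℝ) ≤ p := by exact_mod_cast hp
  rw [one_div_div]
  have h1 : (2 : ℝ) ^ ((k : ℝ) * (1/2 - d) - 1) ≤ (2 : ℝ) ^ ee d k := by
    rw [← Real.rpow_natCast (2 : ℝ) (ee d k)]
    exact Real.rpow_le_rpow_of_exponent_le (by norm_num) (ee_ge d k)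
  rw [div_le_iff₀ (by positivity)]
  have h2 : (2 : ℝ) ^ k = 2 * ((2 : ℝ) ^ ((1/2 + d) * k) * (2 : ℝ) ^ ((k : ℝ) * (1/2 - d) - 1)) := by
    rw [← Real.rpow_add (by norm_num), ← Real.rpow_natCast (2 : ℝ) k]
    nth_rewrite 2 [← Real.rpow_one (2 : ℝ)]
    rw [← Real.rpow_add (by norm_num)]
    congr 1
    ring
  calc 8 * p * (2 : ℝ) ^ k = 16 * p * (2 : ℝ) ^ ((1/2 + d) * k) *
        (2 : ℝ) ^ ((k : ℝ) * (1/2 - d) - 1) := by rw [h2]; ring
    _ ≤ _ := by (clear * - h1 hp; gcongr)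

lemma log_inv_lamk {p : ℕ} (hp : 1 ≤ p) (d : ℝ) (k : ℕ) (hk : 1 ≤ k) :
    Real.log (1 / lamk p d k) ≤ 9 * p * k := by
  have hp' : (1 : ℝ) ≤ p := by exact_mod_cast hp
  have hk' : (1 : ℝ) ≤ k := by exact_mod_cast hk
  have h1 : 1 / lamk p d k ≤ 8 * p * 2 ^ k := by
    unfold lamk
    rw [one_div_div]
    apply div_le_self (by positivity)
    exact one_le_pow₀ (by norm_num)
  have h2 : Real.log (1 / lamk p d k) ≤ Real.log (8 * p * 2 ^ k) :=
    Real.log_le_log (by have := lamk_pos hp d k; positivity) h1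
  refine h2.trans ?_
  rw [Real.log_mul (by (clear * - hp; positivity)) (by positivity), Real.log_pow]
  have h3 : Real.log (8 * p) ≤ 8 * p := by
    have := Real.log_le_sub_one_of_pos (by positivity : (0 : ℝ) < 8 * p)
    (clear * - this; linarith)
  have h4 : Real.log 2 ≤ 1 := by (clear * -; linarith [Real.log_two_lt_d9])
  have h5 : (k : ℝ) * Real.log 2 ≤ p * k := by
    have h6 : (k : ℝ) * Real.log 2 ≤ k * 1 := by gcongr
    (clear * - h6 hp'; nlinarith)
  (clear * - h3 h5 hk'; nlinarith)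

lemma logT (k : ℕ) (hk : 1 ≤ k) : Real.log ((2 : ℝ) ^ (5 * k) + 2) ≤ 6 * k := by
  have hk' : (1 : ℝ) ≤ k := by exact_mod_cast hk
  have h1 : (2 : ℝ) ^ (5 * k) + 2 ≤ 2 ^ (5 * k + 1) := by
    have : (2 : ℝ) ^ 1 ≤ 2 ^ (5 * k) := pow_le_pow_right₀ (by norm_num) (by omega)
    rw [pow_succ]
    linarith
  refine (Real.log_le_log (by positivity) h1).trans ?_
  rw [Real.log_pow]
  push_cast
  have h4 : Real.log 2 ≤ 1 := by (clear * -; linarith [Real.log_two_lt_d9])
  have : (5 * (k : ℝ) + 1) * Real.log 2 ≤ (5 * k + 1) * 1 := by (clear * - h4 hk; gcongr)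
  (clear * - hk' this; linarith)

lemma exp_uu (d : ℝ) (hd : 0 < d) (k j : ℕ) (hj : j < 2 ^ (k - ee d k)) :
    Real.exp (0.605 * uu d k j) ≤ 2 * (2 : ℝ) ^ ((0.605 : ℝ) * k) := by
  rw [uu_eq, mul_comm, ← Real.rpow_def_of_pos (cc_pos d k j)]
  calc cc d k j ^ (0.605 : ℝ) ≤ (2 * 2 ^ k) ^ (0.605 : ℝ) :=
        Real.rpow_le_rpow (cc_pos d k j).le (cc_lt d hd k j hj) (by norm_num)
    _ = (2 : ℝ) ^ (0.605 : ℝ) * (2 : ℝ) ^ ((0.605 : ℝ) * k) := by
        rw [Real.mul_rpow (by norm_num) (by positivity), ← Real.rpow_natCast (2 : ℝ) k,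
          ← Real.rpow_mul (by norm_num), mul_comm (k : ℝ)]
    _ ≤ 2 * (2 : ℝ) ^ ((0.605 : ℝ) * k) := by
        gcongr
        calc (2 : ℝ) ^ (0.605 : ℝ) ≤ (2 : ℝ) ^ (1 : ℝ) :=
              Real.rpow_le_rpow_of_exponent_le (by norm_num) (by norm_num)
          _ = 2 := Real.rpow_one 2

end Pool.Agent.M17.Helper8.KSZ.LF

namespace Pool.Agent.M17.Helper8.KSZ

open Pool.Agent.M17.Helper10.QRH Pool.Agent.M17.Helper69.QRH Pool.Agent.M17.Helper46.KSZ

theorem lineFew (hK : KFacts) (hG : GBound) (hD : Duality) : LineFew := by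
  obtain ⟨CK0, hCK0⟩ := hK.bound
  obtain ⟨CG, hCG0, hCG⟩ := hG
  obtain ⟨CD, hCD⟩ := hD
  set CK : ℝ := |CK0| + 1 with hCKd
  have hCK1 : 1 ≤ CK := by linarith [abs_nonneg CK0]
  intro p d hp hd hd1
  have hp' : (1 : ℝ) ≤ p := by exact_mod_cast hp
  set C' : ℝ := 200 * |CD| * (2 * (CK ^ p * (CG * 36))) * (9 * p) * (16 * p) with hC'
  obtain ⟨K, hKk⟩ := LF.exists_K C' d hd
  refine ⟨K + 1, ?_⟩
  intro k hk M Z hB
  have hk1 : 1 ≤ k := by omega
  have hk1' : (1 : ℝ) ≤ k := by exact_mod_cast hk1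
  set lam := lamk p d k with hlam
  have hl : 0 < lam := LF.lamk_pos hp d k
  have hl2 : lam ≤ 1/2 := LF.lamk_le hp d hd k
  set T : ℝ := 2 ^ (5 * k) with hTd
  have hT : 1 ≤ T := one_le_pow₀ (by norm_num)
  obtain ⟨hG1, -⟩ := hCG T M Z hT hB
  set L : ℝ := CG * (36 * (k : ℝ) ^ 2) with hLd
  have hL0 : 0 ≤ L := by positivity
  have hlogT : (Real.log (T + 2)) ^ 2 ≤ 36 * (k : ℝ) ^ 2 := by
    have h1 := LF.logT k hk1
    have h2 : 0 ≤ Real.log (T + 2) := Real.log_nonneg (by (clear * - hd hd1 hT; linarith))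
    calc (Real.log (T + 2)) ^ 2 ≤ (6 * (k : ℝ)) ^ 2 := by (clear * - h2 h1; gcongr)
      _ = _ := by ring
  set B : ℝ := 2 * (CK ^ p * L) with hBd
  have hB0 : 0 ≤ B := by (clear * - hCG0 hk1; positivity)
  have hgb := LF.gg_bound hp (lam := lam) (T := T) (CK := CK) (L := L) (Z := Z) (by (clear * - hCK1 hd hd1; linarith)) hL0
    (by
      intro s h0 h2
      refine (hCK0 lam hl (by (clear * - hd hd1 hl2; linarith)) s h0 h2).trans ?_
      apply div_le_div_of_nonneg_right _ (by (clear * -; positivity))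
      (clear * - hd hd1; linarith [le_abs_self CK0]))
    (by
      intro s h0 h2 h3
      refine (hG1 s h0 h2 h3).trans ?_
      rw [hLd]
      gcongr)
  set F := (Finset.range (2 ^ (k - ee d k))).filter (fun j =>
      1/100 * (2 : ℝ) ^ k ≤ ‖line p lam T Z (uu d k j)‖) with hF
  have hFj : ∀ j ∈ F, j < 2 ^ (k - ee d k) := by
    intro j hj
    exact Finset.mem_range.1 (Finset.mem_filter.1 hj).1
  have hinj : Set.InjOn (uu d k) F := by
    intro a ha b hb hab
    by_contra hne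
    have := LF.uu_abs hp d hd k a b hne (hFj a ha) (hFj b hb)
    rw [hab, sub_self, abs_zero] at this
    (clear * - hl this; linarith)
  have hdual := hCD lam hl hl2 (LF.gg p lam T Z) (LF.gg_meas hl hB.diff) B hB0 hgb
    (F.image (uu d k)) (by
      intro u hu u' hu' hne
      obtain ⟨a, ha, rfl⟩ := Finset.mem_image.1 hu
      obtain ⟨b, hb, rfl⟩ := Finset.mem_image.1 hu'
      exact LF.uu_abs hp d hd k a b (fun h => hne (by rw [h])) (hFj a ha) (hFj b hb))
  rw [Finset.sum_image hinj, Finset.card_image_of_injOn hinj] at hdual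
  -- lower bound for each term
  set E : ℝ := (2 : ℝ) ^ ((0.605 : ℝ) * k) with hE
  have hE0 : 0 < E := by positivity
  have hlow : ∀ j ∈ F, (2 : ℝ) ^ k / (200 * E) ≤
      ‖∫ t : ℝ, LF.gg p lam T Z t * Complex.exp (t * (uu d k j) * Complex.I)‖ := by
    intro j hj
    have h1 := (Finset.mem_filter.1 hj).2
    have h2 := LF.line_norm (p := p) (lam := lam) (T := T) (by (clear * - hd hd1 hT; linarith)) Z (uu d k j)
    have h3 := LF.exp_uu d hd k j (hFj j hj)
    rw [div_le_iff₀ (by positivity)]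
    have h4 : Real.exp (0.605 * uu d k j) *
        ‖∫ t : ℝ, LF.gg p lam T Z t * Complex.exp (t * (uu d k j) * Complex.I)‖ ≤
        (2 * E) * ‖∫ t : ℝ, LF.gg p lam T Z t * Complex.exp (t * (uu d k j) * Complex.I)‖ := by
      (clear * - h3; gcongr)
    (clear * - h1 h2 h4; linarith)
  have hsum : (F.card : ℝ) * ((2 : ℝ) ^ k / (200 * E)) ≤
      CD * B * Real.log (1 / lam) / lam * Real.sqrt F.card := by
    refine le_trans ?_ hdual
    rw [← nsmul_eq_mul]
    exact Finset.card_nsmul_le_sum _ _ _ hlow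
  -- final computation
  rcases Nat.eq_zero_or_pos F.card with h0 | hpos
  · rw [h0]
    simp only [Nat.cast_zero]
    positivity
  have hFc : (0 : ℝ) < F.card := by exact_mod_cast hpos
  set S : ℝ := Real.sqrt F.card with hS
  have hS0 : 0 < S := Real.sqrt_pos.2 hFc
  have hSS : (F.card : ℝ) = S * S := (Real.mul_self_sqrt hFc.le).symm
  have hlog0 : 0 ≤ Real.log (1 / lam) := Real.log_nonneg (by rw [le_div_iff₀ hl]; (clear * - hd hd1 hl2; linarith))
  have hS1 : S * ((2 : ℝ) ^ k / (200 * E)) ≤ CD * B * Real.log (1 / lam) / lam := by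
    rw [hSS] at hsum
    have : S * (S * ((2 : ℝ) ^ k / (200 * E))) ≤ S * (CD * B * Real.log (1 / lam) / lam) := by
      (clear * - hsum; linarith)
    exact le_of_mul_le_mul_left this hS0
  have h1 := LF.inv_lamk hp d k
  have h2 := LF.log_inv_lamk hp d k hk1
  have hS2 : CD * B * Real.log (1 / lam) / lam ≤
      |CD| * B * (9 * p * k) * (16 * p * (2 : ℝ) ^ ((1/2 + d) * k)) := by
    calc CD * B * Real.log (1 / lam) / lam = CD * (B * Real.log (1 / lam) * (1 / lam)) := by
          (clear * - hl; field_simp)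
      _ ≤ |CD| * (B * Real.log (1 / lam) * (1 / lam)) := by
          apply mul_le_mul_of_nonneg_right (le_abs_self _) (by (clear * - hCG0 hk1 hlog0 hl; positivity))
      _ ≤ |CD| * (B * (9 * p * k) * (16 * p * (2 : ℝ) ^ ((1/2 + d) * k))) := by (clear * - h2 hCG0 hk1 h1 hl hp; gcongr)
      _ = _ := by ring
  have hXk : (2 : ℝ) ^ k = (2 : ℝ) ^ (k : ℝ) := (Real.rpow_natCast _ _).symm
  have hS3 : S ≤ C' * (k : ℝ) ^ 3 * (2 : ℝ) ^ ((0.105 + d) * k) := by
    have h3 : S * ((2 : ℝ) ^ k / (200 * E)) ≤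
        |CD| * B * (9 * p * k) * (16 * p * (2 : ℝ) ^ ((1/2 + d) * k)) := hS1.trans hS2
    have h4 : (2 : ℝ) ^ ((1/2 + d) * k) * E = (2 : ℝ) ^ ((0.105 + d) * k) * (2 : ℝ) ^ k := by
      rw [hE, hXk, ← Real.rpow_add (by norm_num), ← Real.rpow_add (by norm_num)]
      congr 1
      ring
    rw [← mul_div_assoc, div_le_iff₀ (by positivity)] at h3
    have h5 : |CD| * B * (9 * p * k) * (16 * p * (2 : ℝ) ^ ((1/2 + d) * k)) * (200 * E) =
        C' * (k : ℝ) ^ 3 * (2 : ℝ) ^ ((0.105 + d) * k) * (2 : ℝ) ^ k := by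
      calc _ = 200 * |CD| * B * (9 * p * k) * (16 * p) * ((2 : ℝ) ^ ((1/2 + d) * k) * E) := by ring
        _ = 200 * |CD| * B * (9 * p * k) * (16 * p) *
            ((2 : ℝ) ^ ((0.105 + d) * k) * (2 : ℝ) ^ k) := by rw [h4]
        _ = _ := by
          rw [hC', hBd, hLd]
          ring
    rw [h5] at h3
    exact le_of_mul_le_mul_right h3 (by positivity)
  have hS4 : S ≤ (2 : ℝ) ^ ((0.105 + 5/2 * d) * k) := by
    refine hS3.trans ?_
    have h6 := hKk k (by omega)
    calc C' * (k : ℝ) ^ 3 * (2 : ℝ) ^ ((0.105 + d) * k) ≤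
        (2 : ℝ) ^ (3/2 * d * k) * (2 : ℝ) ^ ((0.105 + d) * k) := by (clear * - h6; gcongr)
      _ = _ := by
        rw [← Real.rpow_add (by norm_num)]
        congr 1
        ring
  rw [hSS]
  calc S * S ≤ (2 : ℝ) ^ ((0.105 + 5/2 * d) * k) * (2 : ℝ) ^ ((0.105 + 5/2 * d) * k) :=
        mul_le_mul hS4 hS4 hS0.le (by positivity)
    _ = (2 : ℝ) ^ ((0.21 + 5 * d) * k) := by
      rw [← Real.rpow_add (by norm_num)]
      congr 1
      ring

end Pool.Agent.M17.Helper8.KSZ
end

/- Helper53.KN.Helper46.KSZ.Assembly -/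
section
/-!
KSZ-E13: assembly of the explicit formula part: `ExplicitCells` from the modules.
-/

set_option autoImplicit false
open Filter Topology MeasureTheory Complex
open scoped Classical

namespace Pool.Agent.M17.Helper46.KSZ

open Pool.Agent.M17.Helper10.QRH Pool.Agent.M17.Helper69.QRH

lemma zeroSet_finite (d : ℝ) (k : ℕ) : (zeroSet d k).Finite := by
  set B : ℝ := (2 : ℝ) ^ ((1/2 + 2 * d) * k) with hB
  have hB0 : 0 < B := by positivity
  have h := (isCompact_closedBall (0 : ℂ) (1 + B)).inter_riemannZetaZeros_finite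
  refine h.subset fun ρ hρ => ?_
  obtain ⟨h0, h1, h2⟩ := hρ
  refine ⟨?_, h0⟩
  rw [Metric.mem_closedBall, dist_zero_right]
  have hre : ρ.re < 1 := by
    by_contra hc
    exact riemannZeta_ne_zero_of_one_le_re (not_lt.1 hc) h0
  have h3 : |ρ.re| ≤ 1 := abs_le.2 ⟨by (clear * - h1 hre; linarith), hre.le⟩
  exact (Complex.norm_le_abs_re_add_abs_im ρ).trans (by (clear * - h2 h3; linarith))

lemma tri_integral {lam : ℝ} (hl : 0 < lam) : ∫ v : ℝ, tri lam v = 1 := by
  have h := (Helper79.QRH.KK_diff hl).continuous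
  -- use the value of the Laplace transform at `0` as a limit
  have h0 : KK lam 0 = ((∫ v : ℝ, tri lam v : ℝ) : ℂ) := by
    unfold KK
    rw [← integral_complex_ofReal]
    refine integral_congr_ae (Filter.Eventually.of_forall fun v => ?_)
    simp
  have hlim : Tendsto (fun x : ℝ => KK lam (x : ℂ)) (𝓝[≠] (0 : ℝ)) (𝓝 (KK lam 0)) := by
    have h1 : Continuous (fun x : ℝ => KK lam (x : ℂ)) := h.comp Complex.continuous_ofReal
    have := h1.tendsto 0
    simpa using this.mono_left nhdsWithin_le_nhds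
  have hval : ∀ x : ℝ, x ≠ 0 → KK lam (x : ℂ) =
      (((Real.sinh (lam * x / 2) / (lam * x / 2)) ^ 2 : ℝ) : ℂ) := by
    intro x hx
    rw [Helper79.QRH.KK_closed hl (by exact_mod_cast hx)]
    have e1 : Complex.exp ((x : ℂ) * lam) = ((Real.exp (lam * x / 2) ^ 2 : ℝ) : ℂ) := by
      rw [← Real.exp_nat_mul]; push_cast; congr 1; ring
    have e2 : Complex.exp (-(x : ℂ) * lam) = ((Real.exp (-(lam * x / 2)) ^ 2 : ℝ) : ℂ) := by
      rw [← Real.exp_nat_mul]; push_cast; congr 1; ring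
    rw [e1, e2]
    have hee : Real.exp (lam * x / 2) * Real.exp (-(lam * x / 2)) = 1 := by
      rw [← Real.exp_add, add_neg_cancel, Real.exp_zero]
    have hreal : (Real.exp (lam * x / 2) ^ 2 + Real.exp (-(lam * x / 2)) ^ 2 - 2) / (lam * x) ^ 2 =
        (Real.sinh (lam * x / 2) / (lam * x / 2)) ^ 2 := by
      rw [Real.sinh_eq]
      have hlx : lam * x ≠ 0 := mul_ne_zero hl.ne' hx
      have h2 : Real.exp (lam * x / 2) ^ 2 + Real.exp (-(lam * x / 2)) ^ 2 - 2 =
          (Real.exp (lam * x / 2) - Real.exp (-(lam * x / 2))) ^ 2 := by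
        (clear * - hee; nlinarith [hee])
      rw [h2]
      (clear * - hx hl; field_simp)
    rw [← hreal]
    push_cast
    ring
  have hlim2 : Tendsto (fun x : ℝ => (((Real.sinh (lam * x / 2) / (lam * x / 2)) ^ 2 : ℝ) : ℂ))
      (𝓝[≠] (0 : ℝ)) (𝓝 (((1 : ℝ) : ℂ))) := by
    refine (Complex.continuous_ofReal.tendsto _).comp ?_
    have hs : Tendsto (fun y : ℝ => Real.sinh y / y) (𝓝[≠] (0 : ℝ)) (𝓝 1) := by
      have := (Real.hasDerivAt_sinh 0).tendsto_slope
      rw [Real.cosh_zero] at this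
      refine this.congr fun y => ?_
      rw [slope_def_field]
      simp
    have hc : Tendsto (fun x : ℝ => lam * x / 2) (𝓝[≠] (0 : ℝ)) (𝓝[≠] (0 : ℝ)) := by
      refine tendsto_nhdsWithin_iff.2 ⟨?_, ?_⟩
      · have : Continuous (fun x : ℝ => lam * x / 2) := by fun_prop
        have := this.tendsto 0
        simp only [mul_zero, zero_div] at this
        exact this.mono_left nhdsWithin_le_nhds
      · filter_upwards [self_mem_nhdsWithin] with x hx
        have hx' : x ≠ 0 := hx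
        simp only [Set.mem_compl_iff, Set.mem_singleton_iff]
        (clear * - hl hx'; positivity)
    have := (hs.comp hc).pow 2
    simpa using this
  have hlim3 : Tendsto (fun x : ℝ => KK lam (x : ℂ)) (𝓝[≠] (0 : ℝ)) (𝓝 (((1 : ℝ) : ℂ))) := by
    refine hlim2.congr' ?_
    filter_upwards [self_mem_nhdsWithin] with x hx
    exact (hval x hx).symm
  have := tendsto_nhds_unique hlim hlim3
  rw [h0] at this
  exact_mod_cast this

/-- the trivial bound with constant `1` -/
lemma KK_norm_le {lam : ℝ} (hl : 0 < lam) (s : ℂ) : ‖KK lam s‖ ≤ Real.exp (lam * |s.re|) := by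
  unfold KK
  have hint : Integrable (fun v : ℝ => tri lam v * Real.exp (lam * |s.re|)) := by
    refine Integrable.mul_const ?_ _
    by_contra hc
    have := tri_integral hl
    rw [integral_undef hc] at this
    exact zero_ne_one this
  refine (norm_integral_le_of_norm_le hint (Filter.Eventually.of_forall fun v => ?_)).trans ?_
  · rw [norm_mul, Complex.norm_real, Real.norm_of_nonneg (Helper79.QRH.tri_nonneg hl)]
    by_cases hv : lam ≤ |v|
    · rw [Helper79.QRH.tri_zero hl hv]; simp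
    · exact mul_le_mul_of_nonneg_left (Helper79.QRH.norm_exp_le s (not_le.1 hv).le)
        (Helper79.QRH.tri_nonneg hl)
  · rw [integral_mul_const, tri_integral hl, one_mul]

lemma KK_one_ge {lam : ℝ} (hlam : 0 < lam) : ∃ κ : ℝ, 1 ≤ κ ∧ KK lam 1 = κ := by
  refine ⟨(Real.exp lam + Real.exp (-lam) - 2) / lam ^ 2, ?_, ?_⟩
  · rw [le_div_iff₀ (by positivity), one_mul]
    have h1 : lam / 2 ≤ Real.sinh (lam / 2) := Real.self_le_sinh_iff.2 (by positivity)
    have h2 : Real.exp lam + Real.exp (-lam) - 2 = (2 * Real.sinh (lam / 2)) ^ 2 := by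
      rw [Real.sinh_eq]
      have e1 : Real.exp lam = Real.exp (lam / 2) ^ 2 := by
        rw [← Real.exp_nat_mul]; congr 1; push_cast; ring
      have e2 : Real.exp (-lam) = Real.exp (-(lam / 2)) ^ 2 := by
        rw [← Real.exp_nat_mul]; congr 1; push_cast; ring
      have hee : Real.exp (lam / 2) * Real.exp (-(lam / 2)) = 1 := by
        rw [← Real.exp_add, add_neg_cancel, Real.exp_zero]
      rw [e1, e2]
      (clear * - hee; nlinarith)
    rw [h2]
    nlinarith
  · rw [Helper79.QRH.KK_closed hlam one_ne_zero]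
    push_cast
    simp

lemma ev_sq (A : ℝ) : ∃ K : ℕ, ∀ k : ℕ, K ≤ k → A * (k : ℝ) ^ 2 ≤ (2 : ℝ) ^ k := by
  have h2 := (tendsto_pow_const_div_const_pow_of_one_lt 2 (show (1 : ℝ) < 2 by norm_num)).const_mul A
  rw [mul_zero] at h2
  have h4 := h2.eventually (gt_mem_nhds (show (0 : ℝ) < 1 by norm_num))
  obtain ⟨K, hK⟩ := eventually_atTop.mp h4
  refine ⟨K, fun k hk => ?_⟩
  have h5 := hK k hk
  rw [← mul_div_assoc, div_lt_one (by positivity)] at h5
  exact h5.le

lemma ee_le {d : ℝ} (hd : 0 < d) (k : ℕ) : ee d k ≤ k := by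
  unfold ee
  refine Nat.floor_le_of_le ?_
  have : (0 : ℝ) ≤ k := k.cast_nonneg
  nlinarith

/-- numerical error of the shifted formula -/
lemma err_small (C : ℝ) (hC : 0 < C) (p : ℕ) (hp : 1 ≤ p) (d : ℝ) (hd : 0 < d) :
    ∃ K : ℕ, ∀ k : ℕ, K ≤ k → ∀ u : ℝ, Real.exp u ≤ 2 * 2 ^ k →
      C * Real.exp (2 * (u + ((p - 1 : ℕ) : ℝ) * lamk p d k)) *
        (Real.log ((2 : ℝ) ^ (5 * k) + 2)) ^ 2 / (lamk p d k ^ 2 * 2 ^ (5 * k)) ≤ 1/100 * 2 ^ k := by
  obtain ⟨K, hK⟩ := ev_sq (C * 8 * 25 * 64 * p ^ 2 * 100)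
  refine ⟨max K 1, fun k hk u hu => ?_⟩
  have hkK : K ≤ k := le_trans (le_max_left _ _) hk
  have hk1 : 1 ≤ k := le_trans (le_max_right _ _) hk
  have hk1r : (1 : ℝ) ≤ k := by exact_mod_cast hk1
  have hpr : (1 : ℝ) ≤ p := by exact_mod_cast hp
  set X : ℝ := (2 : ℝ) ^ k with hX
  have hX1 : 1 ≤ X := one_le_pow₀ (by norm_num)
  have hX0 : 0 < X := by (clear * - hX1; linarith)
  set H : ℝ := (2 : ℝ) ^ ee d k with hH
  have hH1 : 1 ≤ H := one_le_pow₀ (by norm_num)
  have hHX : H ≤ X := pow_le_pow_right₀ (by norm_num) (ee_le hd k)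
  have hlam : lamk p d k = H / (8 * p * X) := rfl
  have hlam0 : 0 < lamk p d k := by rw [hlam]; (clear * - hp; positivity)
  -- the exponential
  have hpl : ((p - 1 : ℕ) : ℝ) * lamk p d k ≤ 1 / 8 := by
    have h1 : ((p - 1 : ℕ) : ℝ) ≤ p := by exact_mod_cast Nat.sub_le p 1
    calc ((p - 1 : ℕ) : ℝ) * lamk p d k ≤ p * (H / (8 * p * X)) := by
          rw [hlam]; (clear * - h1 hp; gcongr)
      _ = H / X / 8 := by field_simp
      _ ≤ 1 / 8 := by
          have : H / X ≤ 1 := by rw [div_le_one hX0]; exact hHX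
          (clear * - this; linarith)
  have hexp : Real.exp (2 * (u + ((p - 1 : ℕ) : ℝ) * lamk p d k)) ≤ 8 * X ^ 2 := by
    have h1 : Real.exp (2 * (u + ((p - 1 : ℕ) : ℝ) * lamk p d k)) =
        Real.exp u ^ 2 * Real.exp (2 * (((p - 1 : ℕ) : ℝ) * lamk p d k)) := by
      rw [← Real.exp_nat_mul, ← Real.exp_add]; congr 1; push_cast; ring
    have h2 : Real.exp (2 * (((p - 1 : ℕ) : ℝ) * lamk p d k)) ≤ 2 := by
      have h3 : Real.exp (2 * (((p - 1 : ℕ) : ℝ) * lamk p d k)) ≤ Real.exp (1 / 2) :=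
        Real.exp_le_exp.2 (by (clear * - hpl; linarith))
      have h4 : Real.exp (1 / 2 : ℝ) ^ 2 ≤ 2 ^ 2 := by
        rw [← Real.exp_nat_mul]
        have := Real.exp_one_lt_d9
        norm_num
        (clear * - this; linarith)
      have h5 := Real.exp_pos (1/2 : ℝ)
      (clear * - h3 h4 h5; nlinarith)
    have h6 : Real.exp u ^ 2 ≤ (2 * X) ^ 2 := pow_le_pow_left₀ (Real.exp_pos _).le hu 2
    rw [h1]
    have h7 := Real.exp_pos (2 * (((p - 1 : ℕ) : ℝ) * lamk p d k))
    (clear * - h6 h2; nlinarith [sq_nonneg (Real.exp u)])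
  -- the logarithm
  have hlog : (Real.log ((2 : ℝ) ^ (5 * k) + 2)) ^ 2 ≤ 25 * (k : ℝ) ^ 2 := by
    have h1 : (2 : ℝ) ^ (5 * k) + 2 ≤ 2 ^ (5 * k + 1) := by
      have : (2 : ℝ) ^ 1 ≤ 2 ^ (5 * k) := pow_le_pow_right₀ (by norm_num) (by omega)
      rw [pow_succ]
      (clear * - this; linarith)
    have h2 : Real.log ((2 : ℝ) ^ (5 * k) + 2) ≤ 5 * k := by
      have h3 := Real.log_le_log (by positivity) h1
      rw [Real.log_pow] at h3
      push_cast at h3
      have h4 := Real.log_two_lt_d9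
      have h5 : (5 * (k : ℝ) + 1) * Real.log 2 ≤ (5 * k + 1) * 0.7 := by
        gcongr
        (clear * - h4; linarith)
      (clear * - hk1r h3 h5; linarith)
    have h6 : 0 ≤ Real.log ((2 : ℝ) ^ (5 * k) + 2) := Real.log_nonneg (by
      have : (0 : ℝ) < 2 ^ (5 * k) := by positivity
      (clear * - this; linarith))
    (clear * - h2 h6; nlinarith)
  have hT : (2 : ℝ) ^ (5 * k) = X ^ 5 := by rw [hX, ← pow_mul, mul_comm]
  have hden : 1 / (64 * p ^ 2) * X ^ 3 ≤ lamk p d k ^ 2 * 2 ^ (5 * k) := by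
    rw [hT, hlam]
    have : (H / (8 * p * X)) ^ 2 * X ^ 5 = H ^ 2 * (1 / (64 * p ^ 2) * X ^ 3) := by
      field_simp
      ring
    rw [this]
    have h1 : 1 ≤ H ^ 2 := one_le_pow₀ hH1
    have h2 : 0 ≤ 1 / (64 * (p : ℝ) ^ 2) * X ^ 3 := by positivity
    (clear * - h1 h2; nlinarith)
  have hden0 : 0 < lamk p d k ^ 2 * 2 ^ (5 * k) := by positivity
  rw [div_le_iff₀ hden0]
  have hmain := hK k hkK
  calc C * Real.exp (2 * (u + ((p - 1 : ℕ) : ℝ) * lamk p d k)) *
        (Real.log ((2 : ℝ) ^ (5 * k) + 2)) ^ 2 ≤ C * (8 * X ^ 2) * (25 * (k : ℝ) ^ 2) := by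
        (clear * - hexp hC hlog; gcongr)
    _ = 1 / (64 * p ^ 2) * X ^ 2 / 100 * (C * 8 * 25 * 64 * p ^ 2 * 100 * k ^ 2) := by
        field_simp
    _ ≤ 1 / (64 * p ^ 2) * X ^ 2 / 100 * X := by (clear * - hmain hp; gcongr)
    _ ≤ 1 / 100 * X * (1 / (64 * p ^ 2) * X ^ 3) := by
        have h1 : X ^ 3 ≤ X ^ 4 := pow_le_pow_right₀ hX1 (by norm_num)
        have h2 : 0 ≤ 1 / (64 * (p : ℝ) ^ 2) / 100 := by positivity
        calc 1 / (64 * (p : ℝ) ^ 2) * X ^ 2 / 100 * X = 1 / (64 * (p : ℝ) ^ 2) / 100 * X ^ 3 := by ring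
          _ ≤ 1 / (64 * (p : ℝ) ^ 2) / 100 * X ^ 4 := by (clear * - h1 hp; gcongr)
          _ = _ := by ring
    _ ≤ 1 / 100 * X * (lamk p d k ^ 2 * 2 ^ (5 * k)) := by (clear * - hden; gcongr)

theorem explicitCells (h1 : BoxExists) (h9 : ShiftIter) (h10 : PrimeSide) (h11 : LineFew)
    (h12 : HighZeros) : ExplicitCells := by
  refine ⟨zeroSet_finite, fun d hd hd1 => ?_⟩
  obtain ⟨p, hp, K12, hK12⟩ := h12 d hd hd1
  obtain ⟨K10, hK10⟩ := h10 p d hp hd hd1
  obtain ⟨K11, hK11⟩ := h11 p d hp hd hd1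
  obtain ⟨C, hC, hC9⟩ := h9
  obtain ⟨Ke, hKe⟩ := err_small C hC p hp d hd
  have hpr : (1 : ℝ) ≤ p := by exact_mod_cast hp
  refine ⟨1 / (200 * p), by (clear * - hp; positivity), max (max K12 K10) (max (max K11 Ke) 10), fun k hk => ?_⟩
  have hkA : K12 ≤ k := le_trans (le_trans (le_max_left _ _) (le_max_left _ _)) hk
  have hkB : K10 ≤ k := le_trans (le_trans (le_max_right _ _) (le_max_left _ _)) hk
  have hkC : K11 ≤ k := le_trans (le_trans (le_trans (le_max_left _ _) (le_max_left _ _)) (le_max_right _ _)) hk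
  have hkD : Ke ≤ k := le_trans (le_trans (le_trans (le_max_right _ _) (le_max_left _ _)) (le_max_right _ _)) hk
  have hkE : 10 ≤ k := le_trans (le_trans (le_max_right _ _) (le_max_right _ _)) hk
  set X : ℝ := (2 : ℝ) ^ k with hX
  have hX10 : (1000 : ℝ) ≤ X := by
    have : (2 : ℝ) ^ 10 ≤ 2 ^ k := pow_le_pow_right₀ (by norm_num) hkE
    rw [hX]; norm_num at this ⊢; (clear * - hd hd1 this; linarith)
  have hX0 : 0 < X := by (clear * - hd hd1 hX10; linarith)
  have hX1 : 1 ≤ X := by (clear * - hd hd1 hX10; linarith)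
  have hXk : ((2 ^ k : ℕ) : ℝ) = X := by push_cast; rfl
  obtain ⟨M, Z, hBox⟩ := h1 (2 ^ (5 * k)) (by positivity)
  set T : ℝ := (2 : ℝ) ^ (5 * k) with hT
  have hT1 : 1 ≤ T := one_le_pow₀ (by norm_num)
  set lam : ℝ := lamk p d k with hlam
  set H : ℝ := (2 : ℝ) ^ ee d k with hH
  have hH1 : 1 ≤ H := one_le_pow₀ (by norm_num)
  have hHX : H ≤ X := pow_le_pow_right₀ (by norm_num) (ee_le hd k)
  have hlamE : lam = H / (8 * p * X) := rfl
  have hlam0 : 0 < lam := by rw [hlamE]; (clear * - hp; positivity)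
  have hplam : p * lam ≤ 1 / 8 := by
    rw [hlamE]
    have : (p : ℝ) * (H / (8 * p * X)) = H / X / 8 := by field_simp
    rw [this]
    have : H / X ≤ 1 := by rw [div_le_one hX0]; exact hHX
    (clear * - this; linarith)
  have hlam1 : lam ≤ 1 := by (clear * - hd hd1 hpr hplam; nlinarith)
  refine ⟨fun ρ => KK lam ρ ^ p, (Finset.range (2 ^ (k - ee d k))).filter (fun j =>
      1/100 * (2 : ℝ) ^ k ≤ ‖line p (lamk p d k) (2 ^ (5 * k)) Z (uu d k j)‖), ?_,
      hK11 k hkC M Z hBox, ?_⟩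
  · intro ρ hρ0 hρ1
    rw [norm_pow]
    have h2 := KK_norm_le hlam0 ρ
    have h3 : |ρ.re| ≤ 1 := abs_le.2 ⟨by (clear * - hd hd1 hρ0; linarith), hρ1⟩
    calc ‖KK lam ρ‖ ^ p ≤ (Real.exp (lam * |ρ.re|)) ^ p := pow_le_pow_left₀ (norm_nonneg _) h2 p
      _ = Real.exp (p * (lam * |ρ.re|)) := by rw [Real.exp_nat_mul]
      _ ≤ Real.exp (1 / 2) := by
          apply Real.exp_le_exp.2
          have : (p : ℝ) * (lam * |ρ.re|) = (p * lam) * |ρ.re| := by ring
          rw [this]
          have := abs_nonneg ρ.re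
          (clear * - hd1 h3 hd hplam this; nlinarith)
      _ ≤ 2 := by
          have h4 : Real.exp (1 / 2 : ℝ) ^ 2 ≤ 2 ^ 2 := by
            rw [← Real.exp_nat_mul]
            have := Real.exp_one_lt_d9
            norm_num
            (clear * - hd hd1 this; linarith)
          have h5 := Real.exp_pos (1/2 : ℝ)
          (clear * - h4 hd hd1 h5; nlinarith)
  intro j hj hjE hfew S hS
  set u : ℝ := uu d k j with hu
  -- the centre
  set y : ℕ := 2 ^ k + j * 2 ^ ee d k with hy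
  have hyX : X ≤ y := by
    rw [← hXk]
    exact_mod_cast (by rw [hy]; exact Nat.le_add_right _ _ : 2 ^ k ≤ y)
  have hek := ee_le hd k
  have hy2 : (y : ℝ) + H ≤ 2 * X := by
    have h2 : y + 2 ^ ee d k ≤ 2 ^ (k + 1) := by
      have h3 : (j + 1) * 2 ^ ee d k ≤ 2 ^ (k - ee d k) * 2 ^ ee d k := Nat.mul_le_mul_right _ hj
      rw [← pow_add, Nat.sub_add_cancel hek] at h3
      rw [pow_succ, hy]
      have h4 : (j + 1) * 2 ^ ee d k = j * 2 ^ ee d k + 2 ^ ee d k := by ring
      omega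
    have h3 : ((y + 2 ^ ee d k : ℕ) : ℝ) ≤ ((2 ^ (k + 1) : ℕ) : ℝ) := by exact_mod_cast h2
    push_cast at h3
    rw [pow_succ] at h3
    rw [hH, hX]
    (clear * - h3; linarith)
  have heu : Real.exp u = (y : ℝ) + H / 2 := by
    rw [hu]
    unfold uu
    rw [Real.exp_log (by (clear * -; positivity))]
  have heuX : X ≤ Real.exp u := by rw [heu]; (clear * - hd hd1 hH1 hyX; linarith)
  have heuX2 : Real.exp u ≤ 2 * X := by rw [heu]; (clear * - hd hd1 hH1 hy2; linarith)
  have hu1 : 1 + ((p - 1 : ℕ) : ℝ) * lam ≤ u := by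
    have h2 : ((p - 1 : ℕ) : ℝ) ≤ p := by exact_mod_cast Nat.sub_le p 1
    have h3 : ((p - 1 : ℕ) : ℝ) * lam ≤ 1 / 8 := (mul_le_mul_of_nonneg_right h2 hlam0.le).trans hplam
    have h4 : (2 : ℝ) ≤ u := by
      by_contra hc
      have h5 : Real.exp u < Real.exp 2 := Real.exp_lt_exp.2 (not_le.1 hc)
      have h6 : Real.exp 2 ≤ 9 := by
        have h7 : Real.exp 2 = Real.exp 1 ^ 2 := by rw [← Real.exp_nat_mul]; norm_num
        rw [h7]
        have h8 := Real.exp_one_lt_d9
        have h9 := Real.exp_pos 1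
        (clear * - hd1 hX10 hH1 hyX heu h7 hd h5 h8 h9; nlinarith)
      (clear * - hd hd1 hX10 hH1 hyX heu h5 h6; linarith)
    (clear * - hd hd1 h3 h4; linarith)
  have hp1 : p - 1 + 1 = p := Nat.sub_add_cancel hp
  -- the formula
  have hform := hC9 T M Z hT1 hBox lam u (p - 1) hlam0 hlam1 hu1
  rw [hp1] at hform
  have herr := hKe k hkD u heuX2
  have hform2 : ‖lhs (ker lam (p - 1)) p lam M u - line p lam T Z u‖ ≤ 1/100 * X :=
    hform.trans herr
  have hline : ‖line p lam T Z u‖ < 1/100 * X := by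
    by_contra hc
    apply hjE
    rw [Finset.mem_filter, Finset.mem_range]
    exact ⟨hj, not_lt.1 hc⟩
  have hlhs : ‖lhs (ker lam (p - 1)) p lam M u‖ ≤ 1/50 * X := by
    have := norm_add_le (lhs (ker lam (p - 1)) p lam M u - line p lam T Z u) (line p lam T Z u)
    rw [sub_add_cancel] at this
    (clear * - hform herr hline this; linarith)
  have hprime := hK10 k hkB j hj hfew
  set P : ℝ := ∑' n : ℕ, ArithmeticFunction.vonMangoldt n * ker lam (p - 1) (u - Real.log n) with hP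
  have hP8 : P ≤ 1/8 * X := hprime
  obtain ⟨κ, hκ, hκe⟩ := KK_one_ge hlam0
  have hκp : 1 ≤ κ ^ p := one_le_pow₀ hκ
  have hlhsE : lhs (ker lam (p - 1)) p lam M u = ((P - Real.exp u * κ ^ p : ℝ) : ℂ) +
      (M.map (fun ρ => Complex.exp (ρ * u) * KK lam ρ ^ p)).sum := by
    unfold lhs
    rw [hκe, ← hP]
    push_cast
    ring
  have hmainlow : Real.exp u - 1/8 * X - 1/50 * X ≤
      ‖(M.map (fun ρ => Complex.exp (ρ * u) * KK lam ρ ^ p)).sum‖ := by
    have h2 : ‖((P - Real.exp u * κ ^ p : ℝ) : ℂ)‖ ≥ Real.exp u - 1/8 * X := by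
      rw [Complex.norm_real, Real.norm_eq_abs, abs_sub_comm]
      refine le_trans ?_ (le_abs_self _)
      have := Real.exp_pos u
      (clear * - hprime hκp hd hd1 hH1 heu; nlinarith)
    have h3 := norm_sub_le_norm_add ((P - Real.exp u * κ ^ p : ℝ) : ℂ)
      (M.map (fun ρ => Complex.exp (ρ * u) * KK lam ρ ^ p)).sum
    rw [← hlhsE] at h3
    (clear * - hlhs h2 h3; linarith)
  -- low and high zeros
  set B : ℝ := (2 : ℝ) ^ ((1/2 + 2 * d) * k) with hB
  set Mh := M.filter (fun ρ => B < |ρ.im|) with hMh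
  set Ml := M.filter (fun ρ => ¬ B < |ρ.im|) with hMl
  have hsplit : Mh + Ml = M := Multiset.filter_add_not _ _
  have hhigh := hK12 k hkA M Z hBox j hj
  have hhigh2 : ‖(Mh.map (fun ρ => Complex.exp (ρ * u) * KK lam ρ ^ p)).sum‖ ≤ 1 := by
    refine le_trans ?_ hhigh
    have h2 := Multiset.le_sum_of_subadditive (fun z : ℂ => ‖z‖) (by simp) (fun a b => norm_add_le a b)
      (Mh.map (fun ρ => Complex.exp (ρ * u) * KK lam ρ ^ p))
    rw [Multiset.map_map] at h2
    exact h2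
  have hlow : Real.exp u - 1/8 * X - 1/50 * X - 1 ≤
      ‖(Ml.map (fun ρ => Complex.exp (ρ * u) * KK lam ρ ^ p)).sum‖ := by
    have h2 : (M.map (fun ρ => Complex.exp (ρ * u) * KK lam ρ ^ p)).sum =
        (Mh.map (fun ρ => Complex.exp (ρ * u) * KK lam ρ ^ p)).sum +
        (Ml.map (fun ρ => Complex.exp (ρ * u) * KK lam ρ ^ p)).sum := by
      rw [← hsplit, Multiset.map_add, Multiset.sum_add]
    have h3 := norm_add_le (Mh.map (fun ρ => Complex.exp (ρ * u) * KK lam ρ ^ p)).sum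
      (Ml.map (fun ρ => Complex.exp (ρ * u) * KK lam ρ ^ p)).sum
    rw [← h2] at h3
    (clear * - hmainlow hhigh2 h3; linarith)
  -- the finset
  have hBT : B < T + 2 := by
    have h2 : B ≤ T := by
      rw [hB, hT, ← Real.rpow_natCast]
      apply Real.rpow_le_rpow_of_exponent_le (by norm_num)
      push_cast
      exact mul_le_mul_of_nonneg_right (by (clear * - hd hd1; linarith)) k.cast_nonneg
    (clear * - hd hd1 h2; linarith)
  have hmemS : ∀ ρ, ρ ∈ S ↔ ρ ∈ Ml := by
    intro ρ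
    rw [hS, hMl, Multiset.mem_filter]
    constructor
    · rintro ⟨h2, h3, h4⟩
      refine ⟨?_, not_lt.2 h4⟩
      have hρT : |ρ.im| < T + 2 := lt_of_le_of_lt h4 hBT
      have hne := hBox.ne ρ h3 hρT
      have hρ1 : ρ ≠ 1 := by
        rintro rfl
        exact riemannZeta_one_ne_zero h2
      have hE0 : EZ ρ = 0 := by rw [EZ_eq hρ1, h2, mul_zero]
      have hQ := hBox.eq ρ
      rw [hE0] at hQ
      have hQ0 : Qp M ρ = 0 := by
        rcases mul_eq_zero.1 hQ.symm with h | h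
        · exact h
        · exact absurd h hne
      by_contra hc
      exact Qp_ne_zero M ρ (fun a ha hρa => hc (hρa ▸ ha)) hQ0
    · rintro ⟨h2, h3⟩
      obtain ⟨h4, h5, h6, h7⟩ := hBox.mem ρ h2
      exact ⟨h4, h5, not_lt.1 h3⟩
  have hSfin : Ml.toFinset = S := by
    ext ρ
    rw [Multiset.mem_toFinset, hmemS]
  have hsum : (Ml.map (fun ρ => Complex.exp (ρ * u) * KK lam ρ ^ p)).sum =
      Complex.exp u * ∑ ρ ∈ S, (analyticOrderNatAt riemannZeta ρ : ℂ) * (KK lam ρ ^ p) *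
        Complex.exp ((ρ - 1) * u) := by
    rw [Finset.sum_multiset_map_count, hSfin, Finset.mul_sum]
    refine Finset.sum_congr rfl fun ρ hρ => ?_
    have h2 := (hmemS ρ).1 hρ
    rw [hMl, Multiset.mem_filter] at h2
    obtain ⟨h4, h5, h6, h7⟩ := hBox.mem ρ h2.1
    have hcount : Ml.count ρ = analyticOrderNatAt riemannZeta ρ := by
      rw [hMl, Multiset.count_filter_of_pos (p := fun ρ : ℂ => ¬ B < |ρ.im|) h2.2]
      exact hBox.count ρ h4 h5 h7
    rw [hcount, nsmul_eq_mul]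
    have h8 : Complex.exp (ρ * u) = Complex.exp u * Complex.exp ((ρ - 1) * u) := by
      rw [← Complex.exp_add]; congr 1; ring
    rw [h8]
    ring
  rw [hsum, norm_mul, Complex.norm_exp, Complex.ofReal_re] at hlow
  have hupos := Real.exp_pos u
  have hfin : Real.exp u * (3/4) ≤ Real.exp u * ‖∑ ρ ∈ S, (analyticOrderNatAt riemannZeta ρ : ℂ) *
      (KK lam ρ ^ p) * Complex.exp ((ρ - 1) * u)‖ := by
    refine le_trans ?_ hlow
    (clear * - hd hd1 hX10 hH1 hyX heu; linarith)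
  exact le_of_mul_le_mul_left hfin hupos

end Pool.Agent.M17.Helper46.KSZ
end
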