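import Mathlib
import Pool.Agent.Helper53.KM.G01
import Pool.Agent.Helper53.KM.G02

/- Helper53.KN.Helper18.KSZ.E10 -/
section
/-!
# KSZ-E10: a cell with few primes makes the prime side of the explicit formula small
-/

set_option autoImplicit false
open Filter Topology Finset
open scoped ArithmeticFunction.vonMangoldt

namespace Pool.Agent.M17.Helper18.KSZ

open Pool.Agent.M17.Helper10.QRH Pool.Agent.M17.Helper46.KSZ Pool.Agent.M17.Helper30.QRH

lemma ker_sum_le {p : ℕ} {lam X : ℝ} (hK : KerFacts) (hp : 1 ≤ p) (y H : ℕ) (hlam : 0 < lam)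
    (hX : 0 < X) (hHX : p * lam * (4 * X) ≤ H) (hy : X ≤ y) (hy2 : (y : ℝ) + H ≤ 2 * X) :
    ∑' n : ℕ, Λ n * ker lam (p - 1) (Real.log (y + H / 2) - Real.log n) ≤
      1 / lam * ∑ n ∈ Ico y (y + H), Λ n := by
  obtain ⟨_, hk0, hk1, hk2⟩ := hK lam hlam (p - 1)
  have hp1 : (((p - 1 : ℕ) : ℝ) + 1) = p := by
    rw [Nat.cast_sub hp]; push_cast; ring
  rw [hp1] at hk2
  set l' : ℝ := p * lam with hl'
  have hl'0 : 0 < l' := by
    have : (0 : ℝ) < p := by exact_mod_cast hp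
    (clear * - hp hlam; positivity)
  have hH : (0 : ℝ) < H := by
    refine lt_of_lt_of_le (by (clear * - hp hlam hX; positivity)) hHX
  have hy0 : (0 : ℝ) < y := by (clear * - hX hy; linarith)
  have hz : ∀ n ∉ Ico y (y + H), Λ n * ker lam (p - 1) (Real.log (y + H / 2) - Real.log n) = 0 := by
    intro n hn
    rw [mem_Ico, not_and_or, not_le, not_lt] at hn
    rcases Nat.eq_zero_or_pos n with h0 | h0
    · subst h0
      simp
    have hn0 : (0 : ℝ) < n := by exact_mod_cast h0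
    rw [hk2, mul_zero]
    rcases hn with hn | hn
    · have h1 : (n : ℝ) ≤ y := by exact_mod_cast hn.le
      have h2 := Real.log_le_log hn0 h1
      have h3 := log_gap (a := (y : ℝ)) (b := y + H / 2) hy0 (by (clear * - hH; linarith))
      have h4 : l' ≤ ((y : ℝ) + H / 2 - y) / (y + H / 2) := by
        rw [le_div_iff₀ (by (clear * - hy0 hH; positivity))]
        (clear * - hHX hy2 hX; nlinarith)
      rw [le_abs]
      left
      (clear * - h2 h3 h4; linarith)
    · have h1 : (y : ℝ) + H ≤ n := by exact_mod_cast hn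
      have h2 := Real.log_le_log (by (clear * - hy0 hH; positivity)) h1
      have h3 := log_gap (a := (y : ℝ) + H / 2) (b := y + H) (by (clear * - hy0 hH; positivity)) (by (clear * - hH; linarith))
      have h4 : l' ≤ ((y : ℝ) + H - (y + H / 2)) / (y + H) := by
        rw [le_div_iff₀ (by (clear * - hy0 hH; positivity))]
        (clear * - hHX hy2 hX; nlinarith)
      rw [le_abs]
      right
      (clear * - h2 h3 h4; linarith)
  rw [tsum_eq_sum hz, mul_sum]
  apply sum_le_sum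
  intro n _
  rw [mul_comm]
  exact mul_le_mul_of_nonneg_right (hk1 _) ArithmeticFunction.vonMangoldt_nonneg

lemma num_bound' {K H D X L p : ℝ} (hK : 100 ≤ K) (hp : 1 ≤ p) (hH : 2000 * p * K ^ 2 ≤ H)
    (hD : 2000 * p * K ^ 2 ≤ D) (hX : 0 < X) (_hL0 : 0 ≤ L) (hL : L ≤ 0.6932) :
    1 / (H / (8 * p * X)) * (((K + 1) * L) * (1 / (200 * p) * H / K + K * (H / D + 1))) ≤
      1 / 8 * X := by
  have hK0 : 0 < K := by (clear * - hK; linarith)
  have hp0 : 0 < p := by (clear * - hp; linarith)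
  have hH0 : 0 < H := lt_of_lt_of_le (by positivity) hH
  have hD0 : 0 < D := lt_of_lt_of_le (by positivity) hD
  have e1 : 1 / (H / (8 * p * X)) * (((K + 1) * L) * (1 / (200 * p) * H / K + K * (H / D + 1))) =
      X * (L * ((K + 1) / K) * (8 / 200) + 8 * L * (K + 1) * K * (p / D) +
        8 * L * (K + 1) * K * (p / H)) := by
    field_simp
    ring
  rw [e1, mul_comm (1 / 8) X]
  apply mul_le_mul_of_nonneg_left _ hX.le
  have h1 : (K + 1) / K ≤ 1.01 := by
    rw [div_le_iff₀ hK0]; (clear * - hK; linarith)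
  have h2 : p / D ≤ 1 / (2000 * K ^ 2) := by
    rw [div_le_div_iff₀ hD0 (by positivity)]; (clear * - hD; linarith)
  have h3 : p / H ≤ 1 / (2000 * K ^ 2) := by
    rw [div_le_div_iff₀ hH0 (by positivity)]; (clear * - hH; linarith)
  have h4 : (K + 1) * K * (1 / (2000 * K ^ 2)) ≤ 1.01 / 2000 := by
    rw [mul_one_div, div_le_div_iff₀ (by positivity) (by norm_num)]
    (clear * - hK; nlinarith)
  have h5 : 0 ≤ (K + 1) * K := by positivity
  have h6 : (K + 1) * K * (p / D) ≤ 1.01 / 2000 :=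
    (mul_le_mul_of_nonneg_left h2 h5).trans h4
  have h7 : (K + 1) * K * (p / H) ≤ 1.01 / 2000 :=
    (mul_le_mul_of_nonneg_left h3 h5).trans h4
  have h8 : L * ((K + 1) / K) ≤ 0.6932 * 1.01 := mul_le_mul hL h1 (by positivity) (by norm_num)
  have h9 : 8 * L * (K + 1) * K * (p / D) ≤ 8 * 0.6932 * (1.01 / 2000) := by
    calc 8 * L * (K + 1) * K * (p / D) = (8 * L) * ((K + 1) * K * (p / D)) := by ring
      _ ≤ (8 * 0.6932) * (1.01 / 2000) := by
          apply mul_le_mul (by (clear * - hL; linarith)) h6 (by positivity) (by norm_num)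
  have h10 : 8 * L * (K + 1) * K * (p / H) ≤ 8 * 0.6932 * (1.01 / 2000) := by
    calc 8 * L * (K + 1) * K * (p / H) = (8 * L) * ((K + 1) * K * (p / H)) := by ring
      _ ≤ (8 * 0.6932) * (1.01 / 2000) := by
          apply mul_le_mul (by (clear * - hL; linarith)) h7 (by (clear * - hK hp hH0; positivity)) (by norm_num)
  (clear * - h8 h9 h10; linarith)

lemma pow_large (B : ℝ) : ∃ K : ℕ, ∀ k : ℕ, K ≤ k → B * (k : ℝ) ^ 2 ≤ (2 : ℝ) ^ ((2 / 5 : ℝ) * k) := by
  have h1 : 1 < (2 : ℝ) ^ (2 / 5 : ℝ) := Real.one_lt_rpow (by norm_num) (by norm_num)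
  have h2 := (tendsto_pow_const_div_const_pow_of_one_lt 2 h1).const_mul B
  rw [mul_zero] at h2
  have h4 := h2.eventually (gt_mem_nhds (show (0 : ℝ) < 1 by norm_num))
  obtain ⟨K, hK⟩ := eventually_atTop.mp h4
  refine ⟨K, fun k hk => ?_⟩
  have h5 := (hK k hk).le
  have h6 : (0 : ℝ) < ((2 : ℝ) ^ (2 / 5 : ℝ)) ^ k := by positivity
  rw [← mul_div_assoc, div_le_one h6] at h5
  rw [Real.rpow_mul (by norm_num), Real.rpow_natCast]
  exact h5

lemma ee_large {d : ℝ} (hd0 : 0 < d) (hd : d ≤ 1 / 100) {k : ℕ} (hk : 20 ≤ k) :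
    (2 : ℝ) ^ ((2 / 5 : ℝ) * k) ≤ (2 : ℝ) ^ ee d k ∧
    (2 : ℝ) ^ ((2 / 5 : ℝ) * k) ≤ (((2 : ℕ) ^ (k / 2) : ℕ) : ℝ) ∧ ee d k ≤ k := by
  have hk' : (20 : ℝ) ≤ k := by exact_mod_cast hk
  refine ⟨?_, ?_, ?_⟩
  · rw [← Real.rpow_natCast 2 (ee d k)]
    apply Real.rpow_le_rpow_of_exponent_le (by norm_num)
    have h1 := Nat.lt_floor_add_one ((k : ℝ) * (1 / 2 - d))
    unfold ee
    (clear * - hd0 hd hk' h1; nlinarith)
  · push_cast
    rw [← Real.rpow_natCast 2 (k / 2)]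
    apply Real.rpow_le_rpow_of_exponent_le (by norm_num)
    have h1 : k ≤ 2 * (k / 2) + 1 := by omega
    have h2 : (k : ℝ) ≤ 2 * ((k / 2 : ℕ) : ℝ) + 1 := by exact_mod_cast h1
    (clear * - hd0 hd hk' h2; linarith)
  · unfold ee
    apply Nat.floor_le_of_le
    (clear * - hd0 hd hk'; nlinarith)

/-- E10 -/
theorem primeSide (h8 : KerFacts) : PrimeSide := by
  intro p d hp hd0 hd
  obtain ⟨K, hK⟩ := pow_large (2000 * p)
  refine ⟨max K 100, fun k hk j hj hfew => ?_⟩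
  have hkK : K ≤ k := (le_max_left _ _).trans hk
  have hk100 : 100 ≤ k := (le_max_right _ _).trans hk
  have hk100' : (100 : ℝ) ≤ k := by exact_mod_cast hk100
  obtain ⟨he1, he2, he3⟩ := ee_large hd0 hd (by omega : 20 ≤ k)
  have hbig := hK k hkK
  set e := ee d k with he
  have hp' : (1 : ℝ) ≤ p := by exact_mod_cast hp
  have hp0 : (0 : ℝ) < p := by (clear * - hd0 hd hp'; linarith)
  set X : ℝ := (2 : ℝ) ^ k with hX
  have hX0 : 0 < X := by positivity
  set y : ℕ := 2 ^ k + j * 2 ^ e with hy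
  have hyH : y + 2 ^ e ≤ 2 ^ (k + 1) := by
    have h1 : (j + 1) * 2 ^ e ≤ 2 ^ (k - e) * 2 ^ e := Nat.mul_le_mul_right _ hj
    rw [← pow_add, Nat.sub_add_cancel he3] at h1
    rw [hy, pow_succ]
    (clear * - h1; nlinarith)
  have hlamdef : lamk p d k = (2 : ℝ) ^ e / (8 * p * X) := rfl
  have hlam0 : 0 < lamk p d k := by rw [hlamdef]; positivity
  have hu : uu d k j = Real.log ((y : ℝ) + ((2 ^ e : ℕ) : ℝ) / 2) := by
    unfold uu
    rw [hy, he]
    push_cast
    ring_nf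
  have hcell : cell d k j = Ico y (y + 2 ^ e) := by
    unfold cell
    rw [hy]
    congr 1
    ring
  have h1 := ker_sum_le (X := X) h8 hp y (2 ^ e) hlam0 hX0 (by
      rw [hlamdef]
      push_cast
      have : (p : ℝ) * (2 ^ e / (8 * p * X)) * (4 * X) = 2 ^ e / 2 := by
        field_simp; ring
      rw [this]
      have : (0 : ℝ) < 2 ^ e := by positivity
      (clear * - this; linarith))
    (by rw [hy, hX]; push_cast; have : (0 : ℝ) ≤ (j : ℝ) * 2 ^ e := by positivity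
        (clear * - this; linarith))
    (by rw [hX]; have : ((y + 2 ^ e : ℕ) : ℝ) ≤ ((2 ^ (k + 1) : ℕ) : ℝ) := by exact_mod_cast hyH
        push_cast at this ⊢
        rw [pow_succ] at this
        (clear * - this; linarith))
  rw [hu]
  refine h1.trans ?_
  have hD0 : 0 < 2 ^ (k / 2) := by positivity
  have hDD : 2 ^ (k / 2) * 2 ^ (k / 2) ≤ y := by
    rw [← pow_add]
    have : 2 ^ (k / 2 + k / 2) ≤ 2 ^ k := Nat.pow_le_pow_right (by norm_num) (by (clear * - p d K j; omega))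
    rw [hy]; omega
  have hfew' : ((((Ico y (y + 2 ^ e)).filter Nat.Prime).card : ℕ) : ℝ) ≤
      1 / (200 * p) * (2 : ℝ) ^ e / k := by
    unfold Few at hfew
    rw [hcell] at hfew
    exact hfew.le
  have h2 := cell_sum k y (2 ^ e) (2 ^ (k / 2)) hD0 hDD hyH _ hfew'
  have h3 : 1 / lamk p d k * ∑ n ∈ Ico y (y + 2 ^ e), Λ n ≤
      1 / lamk p d k * (((k + 1) * Real.log 2) * (1 / (200 * p) * (2 : ℝ) ^ e / k +
        k * (((2 ^ e : ℕ) : ℝ) / ((2 ^ (k / 2) : ℕ) : ℝ) + 1))) :=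
    mul_le_mul_of_nonneg_left h2 (by positivity)
  refine h3.trans ?_
  rw [hlamdef]
  have h4 := num_bound' (K := k) (H := (2 : ℝ) ^ e) (D := ((2 ^ (k / 2) : ℕ) : ℝ)) (X := X)
    (L := Real.log 2) (p := p) hk100' hp' (hbig.trans he1) (hbig.trans he2) hX0
    (Real.log_nonneg (by norm_num)) (by have := Real.log_two_lt_d9; (clear * - hd0 hd this; linarith))
  push_cast at h4 ⊢
  exact h4

end Pool.Agent.M17.Helper18.KSZ
end

/- Helper53.KN.Helper1.KL.E10 -/
section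
/-! Helper18/KSZ/E10.lean (helper18), Helper60/KG/E10.lean (helper60) adapted to the line 0.575 (box 57/100) by helper1 -/

set_option autoImplicit false
open Filter Topology Finset
open scoped ArithmeticFunction.vonMangoldt

namespace Pool.Agent.M17.Helper1.KL

open Pool.Agent.M17.Helper10.QRH Pool.Agent.M17.Helper30.QRH
open Pool.Agent.M17.Helper18.KSZ (ker_sum_le num_bound')

lemma pow_large3 (B : ℝ) : ∃ K : ℕ, ∀ k : ℕ, K ≤ k → B * (k : ℝ) ^ 2 ≤ (2 : ℝ) ^ ((3 / 20 : ℝ) * k) := by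
  have h1 : 1 < (2 : ℝ) ^ (3 / 20 : ℝ) := Real.one_lt_rpow (by norm_num) (by norm_num)
  have h2 := (tendsto_pow_const_div_const_pow_of_one_lt 2 h1).const_mul B
  rw [mul_zero] at h2
  have h4 := h2.eventually (gt_mem_nhds (show (0 : ℝ) < 1 by norm_num))
  obtain ⟨K, hK⟩ := eventually_atTop.mp h4
  refine ⟨K, fun k hk => ?_⟩
  have h5 := (hK k hk).le
  have h6 : (0 : ℝ) < ((2 : ℝ) ^ (3 / 20 : ℝ)) ^ k := by positivity
  rw [← mul_div_assoc, div_le_one h6] at h5
  refine h5.trans (le_of_eq ?_)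
  rw [← Real.rpow_natCast, ← Real.rpow_mul (by norm_num)]

lemma ee_largeG {d : ℝ} (hd0 : -(1 / 2) ≤ d) (hd : d ≤ 34 / 100) {k : ℕ} (hk : 100 ≤ k) :
    (2 : ℝ) ^ ((3 / 20 : ℝ) * k) ≤ (2 : ℝ) ^ ee d k ∧
    (2 : ℝ) ^ ((3 / 20 : ℝ) * k) ≤ (((2 : ℕ) ^ (k / 2) : ℕ) : ℝ) ∧ ee d k ≤ k := by
  have hk' : (100 : ℝ) ≤ k := by exact_mod_cast hk
  refine ⟨?_, ?_, ?_⟩
  · rw [← Real.rpow_natCast 2 (ee d k)]
    apply Real.rpow_le_rpow_of_exponent_le (by norm_num)
    have h1 := Nat.lt_floor_add_one ((k : ℝ) * (1 / 2 - d))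
    unfold ee
    nlinarith
  · push_cast
    rw [← Real.rpow_natCast 2 (k / 2)]
    apply Real.rpow_le_rpow_of_exponent_le (by norm_num)
    have h1 : k ≤ 2 * (k / 2) + 1 := by omega
    have h2 : (k : ℝ) ≤ 2 * ((k / 2 : ℕ) : ℝ) + 1 := by exact_mod_cast h1
    linarith
  · unfold ee
    apply Nat.floor_le_of_le
    nlinarith

/-- E10 -/
theorem primeSideG (h8 : KerFacts) : PrimeSideG := by
  intro p d hp hd0 hd
  obtain ⟨K, hK⟩ := pow_large3 (2000 * p)
  refine ⟨max K 100, fun k hk j hj hfew => ?_⟩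
  have hkK : K ≤ k := (le_max_left _ _).trans hk
  have hk100 : 100 ≤ k := (le_max_right _ _).trans hk
  have hk100' : (100 : ℝ) ≤ k := by exact_mod_cast hk100
  obtain ⟨he1, he2, he3⟩ := ee_largeG hd0 hd hk100
  have hbig := hK k hkK
  set e := ee d k with he
  have hp' : (1 : ℝ) ≤ p := by exact_mod_cast hp
  have hp0 : (0 : ℝ) < p := by linarith
  set X : ℝ := (2 : ℝ) ^ k with hX
  have hX0 : 0 < X := by positivity
  set y : ℕ := 2 ^ k + j * 2 ^ e with hy
  have hyH : y + 2 ^ e ≤ 2 ^ (k + 1) := by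
    have h1 : (j + 1) * 2 ^ e ≤ 2 ^ (k - e) * 2 ^ e := Nat.mul_le_mul_right _ hj
    rw [← pow_add, Nat.sub_add_cancel he3] at h1
    rw [hy, pow_succ]
    nlinarith
  have hlamdef : lamk p d k = (2 : ℝ) ^ e / (8 * p * X) := rfl
  have hlam0 : 0 < lamk p d k := by rw [hlamdef]; positivity
  have hu : uu d k j = Real.log ((y : ℝ) + ((2 ^ e : ℕ) : ℝ) / 2) := by
    unfold uu
    rw [hy, he]
    push_cast
    ring_nf
  have hcell : cell d k j = Ico y (y + 2 ^ e) := by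
    unfold cell
    rw [hy]
    congr 1
    ring
  have h1 := ker_sum_le (X := X) h8 hp y (2 ^ e) hlam0 hX0 (by
      rw [hlamdef]
      push_cast
      have : (p : ℝ) * (2 ^ e / (8 * p * X)) * (4 * X) = 2 ^ e / 2 := by
        field_simp; ring
      rw [this]
      have : (0 : ℝ) < 2 ^ e := by positivity
      linarith)
    (by rw [hy, hX]; push_cast; have : (0 : ℝ) ≤ (j : ℝ) * 2 ^ e := by positivity
        linarith)
    (by rw [hX]; have : ((y + 2 ^ e : ℕ) : ℝ) ≤ ((2 ^ (k + 1) : ℕ) : ℝ) := by exact_mod_cast hyH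
        push_cast at this ⊢
        rw [pow_succ] at this
        linarith)
  rw [hu]
  refine h1.trans ?_
  have hD0 : 0 < 2 ^ (k / 2) := by positivity
  have hDD : 2 ^ (k / 2) * 2 ^ (k / 2) ≤ y := by
    rw [← pow_add]
    have : 2 ^ (k / 2 + k / 2) ≤ 2 ^ k := Nat.pow_le_pow_right (by norm_num) (by omega)
    rw [hy]; omega
  have hfew' : ((((Ico y (y + 2 ^ e)).filter Nat.Prime).card : ℕ) : ℝ) ≤
      1 / (200 * p) * (2 : ℝ) ^ e / k := by
    unfold Few at hfew
    rw [hcell] at hfew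
    exact hfew.le
  have h2 := cell_sum k y (2 ^ e) (2 ^ (k / 2)) hD0 hDD hyH _ hfew'
  have h3 : 1 / lamk p d k * ∑ n ∈ Ico y (y + 2 ^ e), Λ n ≤
      1 / lamk p d k * (((k + 1) * Real.log 2) * (1 / (200 * p) * (2 : ℝ) ^ e / k +
        k * (((2 ^ e : ℕ) : ℝ) / ((2 ^ (k / 2) : ℕ) : ℝ) + 1))) :=
    mul_le_mul_of_nonneg_left h2 (by positivity)
  refine h3.trans ?_
  rw [hlamdef]
  have h4 := num_bound' (K := k) (H := (2 : ℝ) ^ e) (D := ((2 ^ (k / 2) : ℕ) : ℝ)) (X := X)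
    (L := Real.log 2) (p := p) hk100' hp' (hbig.trans he1) (hbig.trans he2) hX0
    (Real.log_nonneg (by norm_num)) (by have := Real.log_two_lt_d9; linarith)
  push_cast at h4 ⊢
  exact h4

end Pool.Agent.M17.Helper1.KL
end

/- Helper53.KN.Helper18.KSZ.E12 -/
section
/-!
# KSZ-E12: high zeros are negligible in the explicit formula with iterated kernels
-/

set_option autoImplicit false
open Filter Topology

namespace Pool.Agent.M17.Helper18.KSZ

open Pool.Agent.M17.Helper10.QRH Pool.Agent.M17.Helper46.KSZ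

lemma multiset_sum_le' (M : Multiset ℂ) (f : ℂ → ℝ) (b : ℝ) (h : ∀ ρ ∈ M, f ρ ≤ b) :
    (M.map f).sum ≤ Multiset.card M * b := by
  induction M using Multiset.induction_on with
  | empty => simp
  | cons a M ih =>
    rw [Multiset.map_cons, Multiset.sum_cons, Multiset.card_cons]
    have h1 := ih fun ρ hρ => h ρ (Multiset.mem_cons_of_mem hρ)
    have h2 := h a (Multiset.mem_cons_self a M)
    push_cast
    linarith

lemma geo_small (A : ℝ) : ∃ K : ℕ, ∀ k : ℕ, K ≤ k → A * ((5 * (k : ℝ) + 2) * (1 / 2 : ℝ) ^ k) ≤ 1 := by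
  have h1 := tendsto_pow_const_div_const_pow_of_one_lt 1 (by norm_num : (1 : ℝ) < 2)
  have h2 := tendsto_pow_const_div_const_pow_of_one_lt 0 (by norm_num : (1 : ℝ) < 2)
  have h3 := ((h1.const_mul 5).add (h2.const_mul 2)).const_mul A
  simp only [mul_zero, add_zero] at h3
  have h4 := h3.eventually (gt_mem_nhds (show (0 : ℝ) < 1 by norm_num))
  obtain ⟨K, hK⟩ := eventually_atTop.mp h4
  refine ⟨K, fun k hk => ?_⟩
  have h5 := (hK k hk).le
  calc A * ((5 * (k : ℝ) + 2) * (1 / 2 : ℝ) ^ k) =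
      A * (5 * ((k : ℝ) ^ 1 / 2 ^ k) + 2 * ((k : ℝ) ^ 0 / 2 ^ k)) := by
        rw [one_div, inv_pow]
        ring
    _ ≤ 1 := h5

/-- E12 -/
theorem highZeros (hK : KFacts) (h4 : CardBox) : HighZeros := by
  intro d hd0 hd
  obtain ⟨C1, hC1⟩ := hK.bound
  obtain ⟨C2, hC2, hcard⟩ := h4
  set p : ℕ := ⌈8 / d⌉₊ with hp
  have hpd : 8 ≤ (p : ℝ) * d := by
    have := Nat.le_ceil (8 / d)
    rw [← hp, div_le_iff₀ hd0] at this
    exact this
  have hp1 : 1 ≤ p := by
    rw [hp]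
    exact Nat.ceil_pos.mpr (by positivity)
  have hp1' : (1 : ℝ) ≤ p := by exact_mod_cast hp1
  have hp0 : (0 : ℝ) < p := by (clear * - hd0 hd hp1'; linarith)
  set B : ℝ := (|C1| * (16 * p) ^ 2) ^ p with hB
  have hB0 : 0 ≤ B := by rw [hB]; (clear * - hd0; positivity)
  obtain ⟨K, hKK⟩ := geo_small (2 * (C2 * B))
  refine ⟨p, hp1, max K 100, fun k hk M Z hM j hj => ?_⟩
  have hkK : K ≤ k := (le_max_left _ _).trans hk
  have hk100 : 100 ≤ k := (le_max_right _ _).trans hk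
  have hk100' : (100 : ℝ) ≤ k := by exact_mod_cast hk100
  obtain ⟨he1, he2, he3⟩ := ee_large hd0 hd (by omega : 20 ≤ k)
  set e := ee d k with he
  set X : ℝ := (2 : ℝ) ^ k with hX
  have hX0 : 0 < X := by positivity
  have hlamdef : lamk p d k = (2 : ℝ) ^ e / (8 * p * X) := rfl
  set lam := lamk p d k with hlam
  have hlam0 : 0 < lam := by rw [hlamdef]; positivity
  have heX : (2 : ℝ) ^ e ≤ X := pow_le_pow_right₀ (by norm_num) he3
  have hlam1 : lam ≤ 1 := by
    rw [hlamdef, div_le_one (by positivity)]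
    (clear * - hd0 hX0 heX hd hpd; nlinarith)
  -- the point u
  have huexp : Real.exp (uu d k j) ≤ 2 * X ∧ 0 ≤ uu d k j := by
    have hyH : 2 ^ k + j * 2 ^ e + 2 ^ e ≤ 2 ^ (k + 1) := by
      have h1 : (j + 1) * 2 ^ e ≤ 2 ^ (k - e) * 2 ^ e := Nat.mul_le_mul_right _ hj
      rw [← pow_add, Nat.sub_add_cancel he3] at h1
      rw [pow_succ]
      (clear * - h1; nlinarith)
    have h1 : ((2 ^ k + j * 2 ^ e + 2 ^ e : ℕ) : ℝ) ≤ ((2 ^ (k + 1) : ℕ) : ℝ) := by
      exact_mod_cast hyH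
    push_cast at h1
    have h2 : (0 : ℝ) < 2 ^ e := by positivity
    have h3 : (0 : ℝ) ≤ (j : ℝ) * 2 ^ e := by (clear * -; positivity)
    have h4 : (1 : ℝ) ≤ 2 ^ k := one_le_pow₀ (by norm_num)
    unfold uu
    push_cast
    rw [← he]
    rw [pow_succ] at h1
    constructor
    · rw [Real.exp_log (by (clear * -; positivity)), hX]
      (clear * - h1 h2; linarith)
    · apply Real.log_nonneg
      (clear * - h2 h3 h4; linarith)
  -- one zero
  have hone : ∀ ρ ∈ M.filter (fun ρ => (2 : ℝ) ^ ((1/2 + 2 * d) * k) < |ρ.im|),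
      ‖Complex.exp (ρ * uu d k j) * KK lam ρ ^ p‖ ≤ 2 * X * (B * (2 : ℝ) ^ (-(16 * k : ℝ))) := by
    intro ρ hρ
    rw [Multiset.mem_filter] at hρ
    obtain ⟨hρM, him⟩ := hρ
    obtain ⟨_, h1, h2, _⟩ := hM.mem ρ hρM
    rw [norm_mul, norm_pow]
    have e1 : ‖Complex.exp (ρ * uu d k j)‖ ≤ 2 * X := by
      rw [Complex.norm_exp]
      have : (ρ * (uu d k j : ℂ)).re = ρ.re * uu d k j := by simp
      rw [this]
      refine le_trans (Real.exp_le_exp.mpr ?_) huexp.1
      (clear * - hd0 hd huexp h2; nlinarith [huexp.2])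
    have e2 : ‖KK lam ρ‖ ≤ |C1| * (16 * p) ^ 2 * (2 : ℝ) ^ (-(2 * d * k)) := by
      have g1 := hC1 lam hlam0 hlam1 ρ (by (clear * - hd0 hd h1; linarith)) (by (clear * - hd0 hd h2; linarith))
      have g2 : (2 : ℝ) ^ (d * k) / (16 * p) ≤ lam * |ρ.im| := by
        have f1 : (2 : ℝ) ^ ((1 / 2 - d) * k - 1) ≤ (2 : ℝ) ^ e := by
          rw [← Real.rpow_natCast 2 e]
          apply Real.rpow_le_rpow_of_exponent_le (by norm_num)
          have := Nat.lt_floor_add_one ((k : ℝ) * (1 / 2 - d))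
          rw [he]
          unfold ee
          (clear * - this; linarith)
        have f2 : (2 : ℝ) ^ (d * k) / (16 * p) =
            (2 : ℝ) ^ ((1 / 2 - d) * k - 1) / (8 * p * X) * (2 : ℝ) ^ ((1/2 + 2 * d) * k) := by
          rw [hX, ← Real.rpow_natCast 2 k]
          have g3 : (2 : ℝ) ^ ((1 / 2 - d) * k - 1) * (2 : ℝ) ^ ((1/2 + 2 * d) * k) =
              (2 : ℝ) ^ (d * k) * (2 : ℝ) ^ (k : ℝ) / 2 := by
            rw [← Real.rpow_add (by norm_num), ← Real.rpow_add (by norm_num)]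
            have : (2 : ℝ) ^ (d * k + k) / 2 = (2 : ℝ) ^ (d * k + k - 1) := by
              rw [Real.rpow_sub_one (by norm_num)]
            rw [this]
            congr 1
            ring
          have g4 : (0 : ℝ) < (2 : ℝ) ^ (k : ℝ) := by positivity
          rw [div_mul_eq_mul_div, g3]
          field_simp
          ring
        rw [f2, hlamdef]
        (clear * - f1 hd0 him; gcongr)
      have g3 : 0 < (2 : ℝ) ^ (d * k) / (16 * p) := by positivity
      have g4 : ((2 : ℝ) ^ (d * k) / (16 * p)) ^ 2 ≤ 1 + (lam * ρ.im) ^ 2 := by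
        have : (lam * ρ.im) ^ 2 = (lam * |ρ.im|) ^ 2 := by
          rw [mul_pow, mul_pow, sq_abs]
        rw [this]
        have := pow_le_pow_left₀ g3.le g2 2
        (clear * - hd0 hd this; linarith)
      calc ‖KK lam ρ‖ ≤ C1 / (1 + (lam * ρ.im) ^ 2) := g1
        _ ≤ |C1| / (1 + (lam * ρ.im) ^ 2) := by
            apply div_le_div_of_nonneg_right (le_abs_self _)
            (clear * -; positivity)
        _ ≤ |C1| / ((2 : ℝ) ^ (d * k) / (16 * p)) ^ 2 := by
            apply div_le_div_of_nonneg_left (abs_nonneg _) (by positivity) g4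
        _ = _ := by
            have g5 : (2 : ℝ) ^ (-(2 * d * k)) = (((2 : ℝ) ^ (d * k)) ^ 2)⁻¹ := by
              rw [← Real.rpow_natCast, ← Real.rpow_mul (by norm_num),
                ← Real.rpow_neg (by norm_num)]
              congr 1
              push_cast
              ring
            rw [g5, div_pow, div_div_eq_mul_div]
            (clear * - hp1; field_simp)
    have e3 : ‖KK lam ρ‖ ^ p ≤ B * (2 : ℝ) ^ (-(16 * k : ℝ)) := by
      calc ‖KK lam ρ‖ ^ p ≤ (|C1| * (16 * p) ^ 2 * (2 : ℝ) ^ (-(2 * d * k))) ^ p :=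
            pow_le_pow_left₀ (norm_nonneg _) e2 p
        _ = B * ((2 : ℝ) ^ (-(2 * d * k))) ^ p := by rw [mul_pow]
        _ ≤ B * (2 : ℝ) ^ (-(16 * k : ℝ)) := by
            apply mul_le_mul_of_nonneg_left _ hB0
            rw [← Real.rpow_natCast, ← Real.rpow_mul (by norm_num)]
            apply Real.rpow_le_rpow_of_exponent_le (by norm_num)
            have : (16 : ℝ) * k ≤ 2 * (p * d) * k := by (clear * - hpd; nlinarith)
            (clear * - this; nlinarith)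
    exact mul_le_mul e1 e3 (by (clear * -; positivity)) (by positivity)
  refine (multiset_sum_le' _ _ _ hone).trans ?_
  have hc : (Multiset.card (M.filter (fun ρ => (2 : ℝ) ^ ((1/2 + 2 * d) * k) < |ρ.im|)) : ℝ) ≤
      C2 * 2 ^ (5 * k) * (5 * k + 2) := by
    have g1 := hcard (2 ^ (5 * k)) M Z (one_le_pow₀ (by norm_num)) hM
    have g2 : (Multiset.card (M.filter (fun ρ => (2 : ℝ) ^ ((1/2 + 2 * d) * k) < |ρ.im|)) : ℝ) ≤
        (Multiset.card M : ℝ) := by
      exact_mod_cast Multiset.card_le_card (Multiset.filter_le _ _)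
    refine g2.trans (g1.trans ?_)
    apply mul_le_mul_of_nonneg_left _ (by positivity)
    have g3 : (2 : ℝ) ^ (5 * k) + 2 ≤ (2 : ℝ) ^ (5 * k + 1) := by
      have : (2 : ℝ) ≤ 2 ^ (5 * k) := by
        calc (2 : ℝ) = 2 ^ 1 := by norm_num
          _ ≤ 2 ^ (5 * k) := pow_le_pow_right₀ (by norm_num) (by (clear * - d K j hk100; omega))
      rw [pow_succ]; (clear * - this; linarith)
    calc Real.log ((2 : ℝ) ^ (5 * k) + 2) ≤ Real.log ((2 : ℝ) ^ (5 * k + 1)) :=
          Real.log_le_log (by positivity) g3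
      _ = ((5 * k + 1 : ℕ) : ℝ) * Real.log 2 := Real.log_pow _ _
      _ ≤ ((5 * k + 1 : ℕ) : ℝ) * 1 := by
          apply mul_le_mul_of_nonneg_left _ (by (clear * - hk100; positivity))
          have := Real.log_two_lt_d9
          (clear * - hd0 hd this; linarith)
      _ ≤ 5 * k + 2 := by push_cast; (clear * - hd0 hd; linarith)
  have hX16 : (2 : ℝ) ^ (-(16 * k : ℝ)) = (1 / 2 : ℝ) ^ (16 * k) := by
    rw [Real.rpow_neg (by norm_num), one_div, inv_pow]
    congr 1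
    rw [← Real.rpow_natCast]
    congr 1
    push_cast
    ring
  calc (Multiset.card (M.filter (fun ρ => (2 : ℝ) ^ ((1/2 + 2 * d) * k) < |ρ.im|)) : ℝ) *
        (2 * X * (B * (2 : ℝ) ^ (-(16 * k : ℝ)))) ≤
        (C2 * 2 ^ (5 * k) * (5 * k + 2)) * (2 * X * (B * (2 : ℝ) ^ (-(16 * k : ℝ)))) := by
        apply mul_le_mul_of_nonneg_right hc
        (clear * - hd0; positivity)
    _ = 2 * (C2 * B) * ((5 * k + 2) * ((2 : ℝ) ^ (5 * k) * 2 ^ k * (1 / 2 : ℝ) ^ (16 * k))) := by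
        rw [hX16, hX]; ring
    _ ≤ 2 * (C2 * B) * ((5 * k + 2) * (1 / 2 : ℝ) ^ k) := by
        apply mul_le_mul_of_nonneg_left _ (by (clear * - hC2 hd0; positivity))
        apply mul_le_mul_of_nonneg_left _ (by positivity)
        have f1 : (2 : ℝ) ^ (5 * k) * 2 ^ k * (1 / 2 : ℝ) ^ (16 * k) = (1 / 2 : ℝ) ^ (10 * k) := by
          have : 16 * k = 6 * k + 10 * k := by ring
          rw [this, pow_add, ← mul_assoc, ← pow_add]
          have h7 : 5 * k + k = 6 * k := by ring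
          rw [h7, ← mul_pow]
          norm_num
        rw [f1]
        apply pow_le_pow_of_le_one (by norm_num) (by norm_num)
        (clear * - d K j hk100; omega)
    _ ≤ 1 := hKK k hkK

end Pool.Agent.M17.Helper18.KSZ
end

/- Helper53.KN.Helper1.KL.E12 -/
section
/-! Helper60/KG/E12.lean (helper60) adapted to the line 0.575 (box 57/100) by helper1 -/

set_option autoImplicit false
open Filter Topology

namespace Pool.Agent.M17.Helper1.KL

open Pool.Agent.M17.Helper10.QRH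
open Pool.Agent.M17.Helper18.KSZ (geo_small multiset_sum_le')

/-- E12 -/
theorem highZerosG (hK : KFacts) (h4 : CardBox) : HighZerosG := by
  intro d η hdm hd hη
  obtain ⟨C1, hC1⟩ := hK.bound
  obtain ⟨C2, hC2, hcard⟩ := h4
  set p : ℕ := ⌈8 / η⌉₊ with hp
  have hpd : 8 ≤ (p : ℝ) * η := by
    have := Nat.le_ceil (8 / η)
    rw [← hp, div_le_iff₀ hη] at this
    exact this
  have hp1 : 1 ≤ p := by
    rw [hp]
    exact Nat.ceil_pos.mpr (by positivity)
  have hp1' : (1 : ℝ) ≤ p := by exact_mod_cast hp1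
  have hp0 : (0 : ℝ) < p := by (clear * - hp1'; linarith)
  set B : ℝ := (|C1| * (16 * p) ^ 2) ^ p with hB
  have hB0 : 0 ≤ B := by rw [hB]; positivity
  obtain ⟨K, hKK⟩ := geo_small (2 * (C2 * B))
  refine ⟨p, hp1, max K 100, fun k hk M Z hM j hj => ?_⟩
  have hkK : K ≤ k := (le_max_left _ _).trans hk
  have hk100 : 100 ≤ k := (le_max_right _ _).trans hk
  have hk100' : (100 : ℝ) ≤ k := by exact_mod_cast hk100
  obtain ⟨he1, he2, he3⟩ := ee_largeG hdm hd hk100
  set e := ee d k with he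
  set X : ℝ := (2 : ℝ) ^ k with hX
  have hX0 : 0 < X := by positivity
  have hlamdef : lamk p d k = (2 : ℝ) ^ e / (8 * p * X) := rfl
  set lam := lamk p d k with hlam
  have hlam0 : 0 < lam := by rw [hlamdef]; positivity
  have heX : (2 : ℝ) ^ e ≤ X := pow_le_pow_right₀ (by norm_num) he3
  have hlam1 : lam ≤ 1 := by
    rw [hlamdef, div_le_one (by positivity)]
    (clear * - hX0 heX hp1'; nlinarith)
  -- the point u
  have huexp : Real.exp (uu d k j) ≤ 2 * X ∧ 0 ≤ uu d k j := by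
    have hyH : 2 ^ k + j * 2 ^ e + 2 ^ e ≤ 2 ^ (k + 1) := by
      have h1 : (j + 1) * 2 ^ e ≤ 2 ^ (k - e) * 2 ^ e := Nat.mul_le_mul_right _ hj
      rw [← pow_add, Nat.sub_add_cancel he3] at h1
      rw [pow_succ]
      (clear * - h1; nlinarith)
    have h1 : ((2 ^ k + j * 2 ^ e + 2 ^ e : ℕ) : ℝ) ≤ ((2 ^ (k + 1) : ℕ) : ℝ) := by
      exact_mod_cast hyH
    push_cast at h1
    have h2 : (0 : ℝ) < 2 ^ e := by positivity
    have h3 : (0 : ℝ) ≤ (j : ℝ) * 2 ^ e := by positivity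
    have h4 : (1 : ℝ) ≤ 2 ^ k := one_le_pow₀ (by norm_num)
    unfold uu
    push_cast
    rw [← he]
    rw [pow_succ] at h1
    constructor
    · rw [Real.exp_log (by (clear * -; positivity)), hX]
      (clear * - h1 h2; linarith)
    · apply Real.log_nonneg
      (clear * - h2 h3 h4; linarith)
  -- one zero
  have hone : ∀ ρ ∈ M.filter (fun ρ => (2 : ℝ) ^ ((1/2 + d + η) * k) < |ρ.im|),
      ‖Complex.exp (ρ * uu d k j) * KK lam ρ ^ p‖ ≤ 2 * X * (B * (2 : ℝ) ^ (-(16 * k : ℝ))) := by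
    intro ρ hρ
    rw [Multiset.mem_filter] at hρ
    obtain ⟨hρM, him⟩ := hρ
    obtain ⟨_, h1, h2, _⟩ := hM.mem ρ hρM
    rw [norm_mul, norm_pow]
    have e1 : ‖Complex.exp (ρ * uu d k j)‖ ≤ 2 * X := by
      rw [Complex.norm_exp]
      have : (ρ * (uu d k j : ℂ)).re = ρ.re * uu d k j := by simp
      rw [this]
      refine le_trans (Real.exp_le_exp.mpr ?_) huexp.1
      (clear * - huexp h2; nlinarith [huexp.2])
    have e2 : ‖KK lam ρ‖ ≤ |C1| * (16 * p) ^ 2 * (2 : ℝ) ^ (-(2 * η * k)) := by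
      have g1 := hC1 lam hlam0 hlam1 ρ (by (clear * - h1 h2; linarith)) (by (clear * - h1 h2; linarith))
      have g2 : (2 : ℝ) ^ (η * k) / (16 * p) ≤ lam * |ρ.im| := by
        have f1 : (2 : ℝ) ^ ((1 / 2 - d) * k - 1) ≤ (2 : ℝ) ^ e := by
          rw [← Real.rpow_natCast 2 e]
          apply Real.rpow_le_rpow_of_exponent_le (by norm_num)
          have := Nat.lt_floor_add_one ((k : ℝ) * (1 / 2 - d))
          rw [he]
          unfold ee
          (clear * - this; linarith)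
        have f2 : (2 : ℝ) ^ (η * k) / (16 * p) =
            (2 : ℝ) ^ ((1 / 2 - d) * k - 1) / (8 * p * X) * (2 : ℝ) ^ ((1/2 + d + η) * k) := by
          rw [hX, ← Real.rpow_natCast 2 k]
          have g3 : (2 : ℝ) ^ ((1 / 2 - d) * k - 1) * (2 : ℝ) ^ ((1/2 + d + η) * k) =
              (2 : ℝ) ^ (η * k) * (2 : ℝ) ^ (k : ℝ) / 2 := by
            rw [← Real.rpow_add (by norm_num), ← Real.rpow_add (by norm_num)]
            have : (2 : ℝ) ^ (η * k + k) / 2 = (2 : ℝ) ^ (η * k + k - 1) := by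
              rw [Real.rpow_sub_one (by norm_num)]
            rw [this]
            congr 1
            ring
          have g4 : (0 : ℝ) < (2 : ℝ) ^ (k : ℝ) := by positivity
          rw [div_mul_eq_mul_div, g3]
          field_simp
          ring
        rw [f2, hlamdef]
        (clear * - f1 hη him; gcongr)
      have g3 : 0 < (2 : ℝ) ^ (η * k) / (16 * p) := by positivity
      have g4 : ((2 : ℝ) ^ (η * k) / (16 * p)) ^ 2 ≤ 1 + (lam * ρ.im) ^ 2 := by
        have : (lam * ρ.im) ^ 2 = (lam * |ρ.im|) ^ 2 := by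
          rw [mul_pow, mul_pow, sq_abs]
        rw [this]
        have := pow_le_pow_left₀ g3.le g2 2
        (clear * - h1 h2 this; linarith)
      calc ‖KK lam ρ‖ ≤ C1 / (1 + (lam * ρ.im) ^ 2) := g1
        _ ≤ |C1| / (1 + (lam * ρ.im) ^ 2) := by
            apply div_le_div_of_nonneg_right (le_abs_self _)
            (clear * -; positivity)
        _ ≤ |C1| / ((2 : ℝ) ^ (η * k) / (16 * p)) ^ 2 := by
            apply div_le_div_of_nonneg_left (abs_nonneg _) (by positivity) g4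
        _ = _ := by
            have g5 : (2 : ℝ) ^ (-(2 * η * k)) = (((2 : ℝ) ^ (η * k)) ^ 2)⁻¹ := by
              rw [← Real.rpow_natCast, ← Real.rpow_mul (by norm_num),
                ← Real.rpow_neg (by norm_num)]
              congr 1
              push_cast
              ring
            rw [g5, div_pow, div_div_eq_mul_div]
            (clear * - hp1; field_simp)
    have e3 : ‖KK lam ρ‖ ^ p ≤ B * (2 : ℝ) ^ (-(16 * k : ℝ)) := by
      calc ‖KK lam ρ‖ ^ p ≤ (|C1| * (16 * p) ^ 2 * (2 : ℝ) ^ (-(2 * η * k))) ^ p :=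
            pow_le_pow_left₀ (norm_nonneg _) e2 p
        _ = B * ((2 : ℝ) ^ (-(2 * η * k))) ^ p := by rw [mul_pow]
        _ ≤ B * (2 : ℝ) ^ (-(16 * k : ℝ)) := by
            apply mul_le_mul_of_nonneg_left _ hB0
            rw [← Real.rpow_natCast, ← Real.rpow_mul (by norm_num)]
            apply Real.rpow_le_rpow_of_exponent_le (by norm_num)
            have : (16 : ℝ) * k ≤ 2 * (p * η) * k := by (clear * - hpd; nlinarith)
            (clear * - this; nlinarith)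
    exact mul_le_mul e1 e3 (by positivity) (by positivity)
  refine (multiset_sum_le' _ _ _ hone).trans ?_
  have hc : (Multiset.card (M.filter (fun ρ => (2 : ℝ) ^ ((1/2 + d + η) * k) < |ρ.im|)) : ℝ) ≤
      C2 * 2 ^ (5 * k) * (5 * k + 2) := by
    have g1 := hcard (2 ^ (5 * k)) M Z (one_le_pow₀ (by norm_num)) hM
    have g2 : (Multiset.card (M.filter (fun ρ => (2 : ℝ) ^ ((1/2 + d + η) * k) < |ρ.im|)) : ℝ) ≤
        (Multiset.card M : ℝ) := by
      exact_mod_cast Multiset.card_le_card (Multiset.filter_le _ _)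
    refine g2.trans (g1.trans ?_)
    apply mul_le_mul_of_nonneg_left _ (by positivity)
    have g3 : (2 : ℝ) ^ (5 * k) + 2 ≤ (2 : ℝ) ^ (5 * k + 1) := by
      have : (2 : ℝ) ≤ 2 ^ (5 * k) := by
        calc (2 : ℝ) = 2 ^ 1 := by norm_num
          _ ≤ 2 ^ (5 * k) := pow_le_pow_right₀ (by norm_num) (by omega)
      rw [pow_succ]; (clear * - this; linarith)
    calc Real.log ((2 : ℝ) ^ (5 * k) + 2) ≤ Real.log ((2 : ℝ) ^ (5 * k + 1)) :=
          Real.log_le_log (by positivity) g3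
      _ = ((5 * k + 1 : ℕ) : ℝ) * Real.log 2 := Real.log_pow _ _
      _ ≤ ((5 * k + 1 : ℕ) : ℝ) * 1 := by
          apply mul_le_mul_of_nonneg_left _ (by positivity)
          have := Real.log_two_lt_d9
          (clear * - this; linarith)
      _ ≤ 5 * k + 2 := by push_cast; (clear * -; linarith)
  have hX16 : (2 : ℝ) ^ (-(16 * k : ℝ)) = (1 / 2 : ℝ) ^ (16 * k) := by
    rw [Real.rpow_neg (by norm_num), one_div, inv_pow]
    congr 1
    rw [← Real.rpow_natCast]
    congr 1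
    push_cast
    ring
  calc (Multiset.card (M.filter (fun ρ => (2 : ℝ) ^ ((1/2 + d + η) * k) < |ρ.im|)) : ℝ) *
        (2 * X * (B * (2 : ℝ) ^ (-(16 * k : ℝ)))) ≤
        (C2 * 2 ^ (5 * k) * (5 * k + 2)) * (2 * X * (B * (2 : ℝ) ^ (-(16 * k : ℝ)))) := by
        apply mul_le_mul_of_nonneg_right hc
        (clear * - hη; positivity)
    _ = 2 * (C2 * B) * ((5 * k + 2) * ((2 : ℝ) ^ (5 * k) * 2 ^ k * (1 / 2 : ℝ) ^ (16 * k))) := by
        rw [hX16, hX]; ring
    _ ≤ 2 * (C2 * B) * ((5 * k + 2) * (1 / 2 : ℝ) ^ k) := by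
        apply mul_le_mul_of_nonneg_left _ (by (clear * - hC2 hη; positivity))
        apply mul_le_mul_of_nonneg_left _ (by positivity)
        have f1 : (2 : ℝ) ^ (5 * k) * 2 ^ k * (1 / 2 : ℝ) ^ (16 * k) = (1 / 2 : ℝ) ^ (10 * k) := by
          have : 16 * k = 6 * k + 10 * k := by ring
          rw [this, pow_add, ← mul_assoc, ← pow_add]
          have h7 : 5 * k + k = 6 * k := by ring
          rw [h7, ← mul_pow]
          norm_num
        rw [f1]
        apply pow_le_pow_of_le_one (by norm_num) (by norm_num)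
        omega
    _ ≤ 1 := hKK k hkK

end Pool.Agent.M17.Helper1.KL
end

/- Helper53.KN.Helper60.KG.E10 -/
section
/-!
# KG-1: the explicit formula for cells of general length

The cell parameter `d` may be negative: cells have length `2^⌊k (1/2 - d)⌋`.  Adapted from the files of helper46, helper18,
helper8.
-/

set_option autoImplicit false
open Filter Topology Finset
open scoped ArithmeticFunction.vonMangoldt

namespace Pool.Agent.M17.Helper60.KG

open Pool.Agent.M17.Helper10.QRH Pool.Agent.M17.Helper46.KSZ Pool.Agent.M17.Helper30.QRH Pool.Agent.M17.Helper18.KSZ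

/-- a cell with few primes makes the prime side small -/
def PrimeSideG : Prop := ∀ (p : ℕ) (d : ℝ), 1 ≤ p → -(1 / 2) ≤ d → d ≤ 1/100 → ∃ K : ℕ, ∀ k : ℕ, K ≤ k →
  ∀ j < 2 ^ (k - ee d k), Few (1 / (200 * p)) d k j →
    (∑' n : ℕ, ArithmeticFunction.vonMangoldt n * ker (lamk p d k) (p - 1) (uu d k j - Real.log n)) ≤
      1/8 * (2 : ℝ) ^ k

lemma ee_largeG {d : ℝ} (hd0 : -(1 / 2) ≤ d) (hd : d ≤ 1 / 100) {k : ℕ} (hk : 20 ≤ k) :
    (2 : ℝ) ^ ((2 / 5 : ℝ) * k) ≤ (2 : ℝ) ^ ee d k ∧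
    (2 : ℝ) ^ ((2 / 5 : ℝ) * k) ≤ (((2 : ℕ) ^ (k / 2) : ℕ) : ℝ) ∧ ee d k ≤ k := by
  have hk' : (20 : ℝ) ≤ k := by exact_mod_cast hk
  refine ⟨?_, ?_, ?_⟩
  · rw [← Real.rpow_natCast 2 (ee d k)]
    apply Real.rpow_le_rpow_of_exponent_le (by norm_num)
    have h1 := Nat.lt_floor_add_one ((k : ℝ) * (1 / 2 - d))
    unfold ee
    (clear * - hk' h1 hd; nlinarith)
  · push_cast
    rw [← Real.rpow_natCast 2 (k / 2)]
    apply Real.rpow_le_rpow_of_exponent_le (by norm_num)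
    have h1 : k ≤ 2 * (k / 2) + 1 := by omega
    have h2 : (k : ℝ) ≤ 2 * ((k / 2 : ℕ) : ℝ) + 1 := by exact_mod_cast h1
    (clear * - hk' h2; linarith)
  · unfold ee
    apply Nat.floor_le_of_le
    (clear * - hd0; nlinarith)

/-- E10 -/
theorem primeSideG (h8 : KerFacts) : PrimeSideG := by
  intro p d hp hd0 hd
  obtain ⟨K, hK⟩ := pow_large (2000 * p)
  refine ⟨max K 100, fun k hk j hj hfew => ?_⟩
  have hkK : K ≤ k := (le_max_left _ _).trans hk
  have hk100 : 100 ≤ k := (le_max_right _ _).trans hk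
  have hk100' : (100 : ℝ) ≤ k := by exact_mod_cast hk100
  obtain ⟨he1, he2, he3⟩ := ee_largeG hd0 hd (by omega : 20 ≤ k)
  have hbig := hK k hkK
  set e := ee d k with he
  have hp' : (1 : ℝ) ≤ p := by exact_mod_cast hp
  have hp0 : (0 : ℝ) < p := by (clear * - hp'; linarith)
  set X : ℝ := (2 : ℝ) ^ k with hX
  have hX0 : 0 < X := by positivity
  set y : ℕ := 2 ^ k + j * 2 ^ e with hy
  have hyH : y + 2 ^ e ≤ 2 ^ (k + 1) := by
    have h1 : (j + 1) * 2 ^ e ≤ 2 ^ (k - e) * 2 ^ e := Nat.mul_le_mul_right _ hj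
    rw [← pow_add, Nat.sub_add_cancel he3] at h1
    rw [hy, pow_succ]
    (clear * - h1; nlinarith)
  have hlamdef : lamk p d k = (2 : ℝ) ^ e / (8 * p * X) := rfl
  have hlam0 : 0 < lamk p d k := by rw [hlamdef]; positivity
  have hu : uu d k j = Real.log ((y : ℝ) + ((2 ^ e : ℕ) : ℝ) / 2) := by
    unfold uu
    rw [hy, he]
    push_cast
    ring_nf
  have hcell : cell d k j = Ico y (y + 2 ^ e) := by
    unfold cell
    rw [hy]
    congr 1
    ring
  have h1 := ker_sum_le (X := X) h8 hp y (2 ^ e) hlam0 hX0 (by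
      rw [hlamdef]
      push_cast
      have : (p : ℝ) * (2 ^ e / (8 * p * X)) * (4 * X) = 2 ^ e / 2 := by
        field_simp; ring
      rw [this]
      have : (0 : ℝ) < 2 ^ e := by positivity
      (clear * - this; linarith))
    (by rw [hy, hX]; push_cast; have : (0 : ℝ) ≤ (j : ℝ) * 2 ^ e := by positivity
        (clear * - this; linarith))
    (by rw [hX]; have : ((y + 2 ^ e : ℕ) : ℝ) ≤ ((2 ^ (k + 1) : ℕ) : ℝ) := by exact_mod_cast hyH
        push_cast at this ⊢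
        rw [pow_succ] at this
        (clear * - this; linarith))
  rw [hu]
  refine h1.trans ?_
  have hD0 : 0 < 2 ^ (k / 2) := by positivity
  have hDD : 2 ^ (k / 2) * 2 ^ (k / 2) ≤ y := by
    rw [← pow_add]
    have : 2 ^ (k / 2 + k / 2) ≤ 2 ^ k := Nat.pow_le_pow_right (by norm_num) (by omega)
    rw [hy]; omega
  have hfew' : ((((Ico y (y + 2 ^ e)).filter Nat.Prime).card : ℕ) : ℝ) ≤
      1 / (200 * p) * (2 : ℝ) ^ e / k := by
    unfold Few at hfew
    rw [hcell] at hfew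
    exact hfew.le
  have h2 := cell_sum k y (2 ^ e) (2 ^ (k / 2)) hD0 hDD hyH _ hfew'
  have h3 : 1 / lamk p d k * ∑ n ∈ Ico y (y + 2 ^ e), Λ n ≤
      1 / lamk p d k * (((k + 1) * Real.log 2) * (1 / (200 * p) * (2 : ℝ) ^ e / k +
        k * (((2 ^ e : ℕ) : ℝ) / ((2 ^ (k / 2) : ℕ) : ℝ) + 1))) :=
    mul_le_mul_of_nonneg_left h2 (by positivity)
  refine h3.trans ?_
  rw [hlamdef]
  have h4 := num_bound' (K := k) (H := (2 : ℝ) ^ e) (D := ((2 ^ (k / 2) : ℕ) : ℝ)) (X := X)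
    (L := Real.log 2) (p := p) hk100' hp' (hbig.trans he1) (hbig.trans he2) hX0
    (Real.log_nonneg (by norm_num)) (by have := Real.log_two_lt_d9; (clear * - this; linarith))
  push_cast at h4 ⊢
  exact h4

end Pool.Agent.M17.Helper60.KG
end

/- Helper53.KN.Helper60.KG.E12 -/
section
/-! KG-1, high zeros -/

set_option autoImplicit false
open Filter Topology

namespace Pool.Agent.M17.Helper60.KG

open Pool.Agent.M17.Helper10.QRH Pool.Agent.M17.Helper46.KSZ Pool.Agent.M17.Helper18.KSZ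

/-- high zeros are negligible -/
def HighZerosG : Prop := ∀ d η : ℝ, -(1 / 2) ≤ d → d ≤ 1/100 → 0 < η → ∃ p : ℕ, 1 ≤ p ∧ ∃ K : ℕ, ∀ k : ℕ, K ≤ k →
  ∀ (M : Multiset ℂ) (Z : ℂ → ℂ), Box (2 ^ (5 * k)) M Z → ∀ j < 2 ^ (k - ee d k),
    ((M.filter (fun ρ => (2 : ℝ) ^ ((1/2 + d + η) * k) < |ρ.im|)).map (fun ρ =>
      ‖Complex.exp (ρ * uu d k j) * KK (lamk p d k) ρ ^ p‖)).sum ≤ 1

/-- E12 -/
theorem highZerosG (hK : KFacts) (h4 : CardBox) : HighZerosG := by
  intro d η hdm hd hη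
  obtain ⟨C1, hC1⟩ := hK.bound
  obtain ⟨C2, hC2, hcard⟩ := h4
  set p : ℕ := ⌈8 / η⌉₊ with hp
  have hpd : 8 ≤ (p : ℝ) * η := by
    have := Nat.le_ceil (8 / η)
    rw [← hp, div_le_iff₀ hη] at this
    exact this
  have hp1 : 1 ≤ p := by
    rw [hp]
    exact Nat.ceil_pos.mpr (by positivity)
  have hp1' : (1 : ℝ) ≤ p := by exact_mod_cast hp1
  have hp0 : (0 : ℝ) < p := by (clear * - hp1'; linarith)
  set B : ℝ := (|C1| * (16 * p) ^ 2) ^ p with hB
  have hB0 : 0 ≤ B := by rw [hB]; (clear * - hη; positivity)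
  obtain ⟨K, hKK⟩ := geo_small (2 * (C2 * B))
  refine ⟨p, hp1, max K 100, fun k hk M Z hM j hj => ?_⟩
  have hkK : K ≤ k := (le_max_left _ _).trans hk
  have hk100 : 100 ≤ k := (le_max_right _ _).trans hk
  have hk100' : (100 : ℝ) ≤ k := by exact_mod_cast hk100
  obtain ⟨he1, he2, he3⟩ := ee_largeG hdm hd (by omega : 20 ≤ k)
  set e := ee d k with he
  set X : ℝ := (2 : ℝ) ^ k with hX
  have hX0 : 0 < X := by positivity
  have hlamdef : lamk p d k = (2 : ℝ) ^ e / (8 * p * X) := rfl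
  set lam := lamk p d k with hlam
  have hlam0 : 0 < lam := by rw [hlamdef]; positivity
  have heX : (2 : ℝ) ^ e ≤ X := pow_le_pow_right₀ (by norm_num) he3
  have hlam1 : lam ≤ 1 := by
    rw [hlamdef, div_le_one (by positivity)]
    (clear * - hX0 heX hp1'; nlinarith)
  -- the point u
  have huexp : Real.exp (uu d k j) ≤ 2 * X ∧ 0 ≤ uu d k j := by
    have hyH : 2 ^ k + j * 2 ^ e + 2 ^ e ≤ 2 ^ (k + 1) := by
      have h1 : (j + 1) * 2 ^ e ≤ 2 ^ (k - e) * 2 ^ e := Nat.mul_le_mul_right _ hj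
      rw [← pow_add, Nat.sub_add_cancel he3] at h1
      rw [pow_succ]
      (clear * - h1; nlinarith)
    have h1 : ((2 ^ k + j * 2 ^ e + 2 ^ e : ℕ) : ℝ) ≤ ((2 ^ (k + 1) : ℕ) : ℝ) := by
      exact_mod_cast hyH
    push_cast at h1
    have h2 : (0 : ℝ) < 2 ^ e := by positivity
    have h3 : (0 : ℝ) ≤ (j : ℝ) * 2 ^ e := by positivity
    have h4 : (1 : ℝ) ≤ 2 ^ k := one_le_pow₀ (by norm_num)
    unfold uu
    push_cast
    rw [← he]
    rw [pow_succ] at h1
    constructor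
    · rw [Real.exp_log (by (clear * -; positivity)), hX]
      (clear * - h1 h2; linarith)
    · apply Real.log_nonneg
      (clear * - h2 h3 h4; linarith)
  -- one zero
  have hone : ∀ ρ ∈ M.filter (fun ρ => (2 : ℝ) ^ ((1/2 + d + η) * k) < |ρ.im|),
      ‖Complex.exp (ρ * uu d k j) * KK lam ρ ^ p‖ ≤ 2 * X * (B * (2 : ℝ) ^ (-(16 * k : ℝ))) := by
    intro ρ hρ
    rw [Multiset.mem_filter] at hρ
    obtain ⟨hρM, him⟩ := hρ
    obtain ⟨_, h1, h2, _⟩ := hM.mem ρ hρM
    rw [norm_mul, norm_pow]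
    have e1 : ‖Complex.exp (ρ * uu d k j)‖ ≤ 2 * X := by
      rw [Complex.norm_exp]
      have : (ρ * (uu d k j : ℂ)).re = ρ.re * uu d k j := by simp
      rw [this]
      refine le_trans (Real.exp_le_exp.mpr ?_) huexp.1
      (clear * - huexp h2; nlinarith [huexp.2])
    have e2 : ‖KK lam ρ‖ ≤ |C1| * (16 * p) ^ 2 * (2 : ℝ) ^ (-(2 * η * k)) := by
      have g1 := hC1 lam hlam0 hlam1 ρ (by (clear * - h1 h2; linarith)) (by (clear * - h1 h2; linarith))
      have g2 : (2 : ℝ) ^ (η * k) / (16 * p) ≤ lam * |ρ.im| := by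
        have f1 : (2 : ℝ) ^ ((1 / 2 - d) * k - 1) ≤ (2 : ℝ) ^ e := by
          rw [← Real.rpow_natCast 2 e]
          apply Real.rpow_le_rpow_of_exponent_le (by norm_num)
          have := Nat.lt_floor_add_one ((k : ℝ) * (1 / 2 - d))
          rw [he]
          unfold ee
          (clear * - this; linarith)
        have f2 : (2 : ℝ) ^ (η * k) / (16 * p) =
            (2 : ℝ) ^ ((1 / 2 - d) * k - 1) / (8 * p * X) * (2 : ℝ) ^ ((1/2 + d + η) * k) := by
          rw [hX, ← Real.rpow_natCast 2 k]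
          have g3 : (2 : ℝ) ^ ((1 / 2 - d) * k - 1) * (2 : ℝ) ^ ((1/2 + d + η) * k) =
              (2 : ℝ) ^ (η * k) * (2 : ℝ) ^ (k : ℝ) / 2 := by
            rw [← Real.rpow_add (by norm_num), ← Real.rpow_add (by norm_num)]
            have : (2 : ℝ) ^ (η * k + k) / 2 = (2 : ℝ) ^ (η * k + k - 1) := by
              rw [Real.rpow_sub_one (by norm_num)]
            rw [this]
            congr 1
            ring
          have g4 : (0 : ℝ) < (2 : ℝ) ^ (k : ℝ) := by positivity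
          rw [div_mul_eq_mul_div, g3]
          field_simp
          ring
        rw [f2, hlamdef]
        (clear * - f1 hη him; gcongr)
      have g3 : 0 < (2 : ℝ) ^ (η * k) / (16 * p) := by positivity
      have g4 : ((2 : ℝ) ^ (η * k) / (16 * p)) ^ 2 ≤ 1 + (lam * ρ.im) ^ 2 := by
        have : (lam * ρ.im) ^ 2 = (lam * |ρ.im|) ^ 2 := by
          rw [mul_pow, mul_pow, sq_abs]
        rw [this]
        have := pow_le_pow_left₀ g3.le g2 2
        (clear * - h1 h2 this; linarith)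
      calc ‖KK lam ρ‖ ≤ C1 / (1 + (lam * ρ.im) ^ 2) := g1
        _ ≤ |C1| / (1 + (lam * ρ.im) ^ 2) := by
            apply div_le_div_of_nonneg_right (le_abs_self _)
            (clear * -; positivity)
        _ ≤ |C1| / ((2 : ℝ) ^ (η * k) / (16 * p)) ^ 2 := by
            apply div_le_div_of_nonneg_left (abs_nonneg _) (by positivity) g4
        _ = _ := by
            have g5 : (2 : ℝ) ^ (-(2 * η * k)) = (((2 : ℝ) ^ (η * k)) ^ 2)⁻¹ := by
              rw [← Real.rpow_natCast, ← Real.rpow_mul (by norm_num),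
                ← Real.rpow_neg (by norm_num)]
              congr 1
              push_cast
              ring
            rw [g5, div_pow, div_div_eq_mul_div]
            (clear * - hp1; field_simp)
    have e3 : ‖KK lam ρ‖ ^ p ≤ B * (2 : ℝ) ^ (-(16 * k : ℝ)) := by
      calc ‖KK lam ρ‖ ^ p ≤ (|C1| * (16 * p) ^ 2 * (2 : ℝ) ^ (-(2 * η * k))) ^ p :=
            pow_le_pow_left₀ (norm_nonneg _) e2 p
        _ = B * ((2 : ℝ) ^ (-(2 * η * k))) ^ p := by rw [mul_pow]
        _ ≤ B * (2 : ℝ) ^ (-(16 * k : ℝ)) := by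
            apply mul_le_mul_of_nonneg_left _ hB0
            rw [← Real.rpow_natCast, ← Real.rpow_mul (by norm_num)]
            apply Real.rpow_le_rpow_of_exponent_le (by norm_num)
            have : (16 : ℝ) * k ≤ 2 * (p * η) * k := by (clear * - hpd; nlinarith)
            (clear * - this; nlinarith)
    exact mul_le_mul e1 e3 (by (clear * -; positivity)) (by positivity)
  refine (multiset_sum_le' _ _ _ hone).trans ?_
  have hc : (Multiset.card (M.filter (fun ρ => (2 : ℝ) ^ ((1/2 + d + η) * k) < |ρ.im|)) : ℝ) ≤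
      C2 * 2 ^ (5 * k) * (5 * k + 2) := by
    have g1 := hcard (2 ^ (5 * k)) M Z (one_le_pow₀ (by norm_num)) hM
    have g2 : (Multiset.card (M.filter (fun ρ => (2 : ℝ) ^ ((1/2 + d + η) * k) < |ρ.im|)) : ℝ) ≤
        (Multiset.card M : ℝ) := by
      exact_mod_cast Multiset.card_le_card (Multiset.filter_le _ _)
    refine g2.trans (g1.trans ?_)
    apply mul_le_mul_of_nonneg_left _ (by positivity)
    have g3 : (2 : ℝ) ^ (5 * k) + 2 ≤ (2 : ℝ) ^ (5 * k + 1) := by
      have : (2 : ℝ) ≤ 2 ^ (5 * k) := by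
        calc (2 : ℝ) = 2 ^ 1 := by norm_num
          _ ≤ 2 ^ (5 * k) := pow_le_pow_right₀ (by norm_num) (by omega)
      rw [pow_succ]; (clear * - this; linarith)
    calc Real.log ((2 : ℝ) ^ (5 * k) + 2) ≤ Real.log ((2 : ℝ) ^ (5 * k + 1)) :=
          Real.log_le_log (by positivity) g3
      _ = ((5 * k + 1 : ℕ) : ℝ) * Real.log 2 := Real.log_pow _ _
      _ ≤ ((5 * k + 1 : ℕ) : ℝ) * 1 := by
          apply mul_le_mul_of_nonneg_left _ (by positivity)
          have := Real.log_two_lt_d9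
          (clear * - this; linarith)
      _ ≤ 5 * k + 2 := by push_cast; (clear * -; linarith)
  have hX16 : (2 : ℝ) ^ (-(16 * k : ℝ)) = (1 / 2 : ℝ) ^ (16 * k) := by
    rw [Real.rpow_neg (by norm_num), one_div, inv_pow]
    congr 1
    rw [← Real.rpow_natCast]
    congr 1
    push_cast
    ring
  calc (Multiset.card (M.filter (fun ρ => (2 : ℝ) ^ ((1/2 + d + η) * k) < |ρ.im|)) : ℝ) *
        (2 * X * (B * (2 : ℝ) ^ (-(16 * k : ℝ)))) ≤
        (C2 * 2 ^ (5 * k) * (5 * k + 2)) * (2 * X * (B * (2 : ℝ) ^ (-(16 * k : ℝ)))) := by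
        apply mul_le_mul_of_nonneg_right hc
        (clear * - hη; positivity)
    _ = 2 * (C2 * B) * ((5 * k + 2) * ((2 : ℝ) ^ (5 * k) * 2 ^ k * (1 / 2 : ℝ) ^ (16 * k))) := by
        rw [hX16, hX]; ring
    _ ≤ 2 * (C2 * B) * ((5 * k + 2) * (1 / 2 : ℝ) ^ k) := by
        apply mul_le_mul_of_nonneg_left _ (by (clear * - hC2 hη; positivity))
        apply mul_le_mul_of_nonneg_left _ (by positivity)
        have f1 : (2 : ℝ) ^ (5 * k) * 2 ^ k * (1 / 2 : ℝ) ^ (16 * k) = (1 / 2 : ℝ) ^ (10 * k) := by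
          have : 16 * k = 6 * k + 10 * k := by ring
          rw [this, pow_add, ← mul_assoc, ← pow_add]
          have h7 : 5 * k + k = 6 * k := by ring
          rw [h7, ← mul_pow]
          norm_num
        rw [f1]
        apply pow_le_pow_of_le_one (by norm_num) (by norm_num)
        omega
    _ ≤ 1 := hKK k hkK

end Pool.Agent.M17.Helper60.KG
end

/- Helper53.KN.Helper73.KC.Gauss -/
section
/-! KC-8, part 1: Gaussian mean value of a Dirichlet polynomial against a family of centres. -/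

set_option autoImplicit false
open MeasureTheory Complex

namespace Pool.Agent.M17.Helper73.KC

/-- the Gaussian integral with centre `a` and frequency `y` -/
lemma gauss_int (a y : ℝ) :
    Integrable (fun t : ℝ => cexp (-((t - a : ℝ) : ℂ) ^ 2) * cexp (-(I * t * y))) ∧
    ∫ t : ℝ, cexp (-((t - a : ℝ) : ℂ) ^ 2) * cexp (-(I * t * y)) =
      (Real.pi / (-(-1 : ℂ))) ^ (1 / 2 : ℂ) * cexp (-(y ^ 2 / 4 : ℂ)) * cexp (-(I * a * y)) := by
  have h1 : (fun t : ℝ => cexp (-((t - a : ℝ) : ℂ) ^ 2) * cexp (-(I * t * y))) =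
      fun t : ℝ => cexp ((-1 : ℂ) * (t : ℂ) ^ 2 + (2 * a - I * y) * t + (-(a : ℂ) ^ 2)) := by
    funext t
    rw [← Complex.exp_add]
    congr 1
    push_cast
    ring
  have hb : ((-1 : ℂ)).re < 0 := by norm_num
  refine ⟨?_, ?_⟩
  · rw [h1]
    exact integrable_cexp_quadratic' hb _ _
  · rw [h1, integral_cexp_quadratic hb, mul_assoc, ← Complex.exp_add]
    congr 2
    have := Complex.I_sq
    ring_nf
    rw [this]
    ring

lemma norm_gauss_const : ‖((Real.pi : ℂ) / (-(-1 : ℂ))) ^ (1 / 2 : ℂ)‖ ≤ 2 := by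
  have h1 : ((Real.pi : ℂ) / (-(-1 : ℂ))) = ((Real.pi : ℝ) : ℂ) := by simp
  rw [h1, Complex.norm_cpow_eq_rpow_re_of_pos Real.pi_pos]
  have h2 : (1 / 2 : ℂ).re = (1 / 2 : ℝ) := by norm_num
  rw [h2]
  calc Real.pi ^ (1 / 2 : ℝ) ≤ (4 : ℝ) ^ (1 / 2 : ℝ) :=
        Real.rpow_le_rpow Real.pi_pos.le (by linarith [Real.pi_lt_four]) (by norm_num)
    _ = 2 := by
      rw [← Real.sqrt_eq_rpow]
      rw [show (4 : ℝ) = 2 ^ 2 by norm_num]
      exact Real.sqrt_sq (by norm_num)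

variable {κ ι : Type*}

/-- pointwise expansion -/
lemma expand (P : Finset κ) (a : κ → ℝ) (S : Finset ι) (c : ι → ℂ) (y : ι → ℝ) (t : ℝ) :
    (((∑ p ∈ P, Real.exp (-(t - a p) ^ 2)) *
      ‖∑ j ∈ S, c j * cexp (-(I * t * y j))‖ ^ 2 : ℝ) : ℂ) =
    ∑ j ∈ S, ∑ k ∈ S, ∑ p ∈ P, c j * (starRingEnd ℂ) (c k) *
      (cexp (-((t - a p : ℝ) : ℂ) ^ 2) * cexp (-(I * t * ((y j - y k : ℝ) : ℂ)))) := by
  have h1 : ((‖∑ j ∈ S, c j * cexp (-(I * t * y j))‖ ^ 2 : ℝ) : ℂ) =
      (∑ j ∈ S, c j * cexp (-(I * t * y j))) * (starRingEnd ℂ) (∑ j ∈ S, c j * cexp (-(I * t * y j))) := by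
    rw [Complex.mul_conj, Complex.normSq_eq_norm_sq]
  have h2 : ∀ j, (starRingEnd ℂ) (c j * cexp (-(I * t * y j))) =
      (starRingEnd ℂ) (c j) * cexp (I * t * y j) := by
    intro j
    rw [map_mul, ← Complex.exp_conj]
    congr 2
    simp
  push_cast
  rw [show (((‖∑ j ∈ S, c j * cexp (-(I * t * y j))‖ : ℝ) : ℂ)) ^ 2 =
    ((‖∑ j ∈ S, c j * cexp (-(I * t * y j))‖ ^ 2 : ℝ) : ℂ) by push_cast; rfl, h1, map_sum,
    Finset.sum_mul_sum, Finset.mul_sum]
  refine Finset.sum_congr rfl fun j _ => ?_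
  rw [Finset.mul_sum]
  refine Finset.sum_congr rfl fun k _ => ?_
  rw [Finset.sum_mul]
  refine Finset.sum_congr rfl fun p _ => ?_
  rw [h2]
  have h3 : cexp (-(I * t * ((y j : ℂ) - (y k : ℂ)))) =
      cexp (-(I * t * y j)) * cexp (I * t * y k) := by
    rw [← Complex.exp_add]
    congr 1
    ring
  rw [h3]
  ring

/-- mean value -/
theorem gauss_mean (P : Finset κ) (a : κ → ℝ) (S : Finset ι) (c : ι → ℂ) (y : ι → ℝ) :
    Integrable (fun t : ℝ => (∑ p ∈ P, Real.exp (-(t - a p) ^ 2)) *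
      ‖∑ j ∈ S, c j * cexp (-(I * t * y j))‖ ^ 2) ∧
    ∫ t : ℝ, (∑ p ∈ P, Real.exp (-(t - a p) ^ 2)) *
      ‖∑ j ∈ S, c j * cexp (-(I * t * y j))‖ ^ 2 ≤
    2 * ∑ j ∈ S, ∑ k ∈ S, ‖c j‖ * ‖c k‖ *
      ‖∑ p ∈ P, cexp (-(I * a p * ((y j - y k : ℝ) : ℂ)))‖ := by
  set f : ℝ → ℝ := fun t => (∑ p ∈ P, Real.exp (-(t - a p) ^ 2)) *
      ‖∑ j ∈ S, c j * cexp (-(I * t * y j))‖ ^ 2 with hf
  have hint : Integrable (fun t : ℝ => ((f t : ℝ) : ℂ)) := by
    have : (fun t : ℝ => ((f t : ℝ) : ℂ)) = fun t : ℝ =>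
        ∑ j ∈ S, ∑ k ∈ S, ∑ p ∈ P, c j * (starRingEnd ℂ) (c k) *
        (cexp (-((t - a p : ℝ) : ℂ) ^ 2) * cexp (-(I * t * ((y j - y k : ℝ) : ℂ)))) := by
      funext t
      exact expand P a S c y t
    rw [this]
    refine integrable_finsetSum _ fun j _ => integrable_finsetSum _ fun k _ =>
      integrable_finsetSum _ fun p _ => ?_
    exact (gauss_int (a p) (y j - y k)).1.const_mul _
  have hfint : Integrable f := by
    have := hint.re
    simpa using this
  refine ⟨hfint, ?_⟩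
  have h1 : ((∫ t, f t : ℝ) : ℂ) = ∑ j ∈ S, ∑ k ∈ S, ∑ p ∈ P, c j * (starRingEnd ℂ) (c k) *
      ((Real.pi / (-(-1 : ℂ))) ^ (1 / 2 : ℂ) * cexp (-(((y j - y k : ℝ) : ℂ) ^ 2 / 4 : ℂ)) *
        cexp (-(I * a p * ((y j - y k : ℝ) : ℂ)))) := by
    rw [← integral_complex_ofReal]
    have : (fun t : ℝ => ((f t : ℝ) : ℂ)) = fun t : ℝ =>
        ∑ j ∈ S, ∑ k ∈ S, ∑ p ∈ P, c j * (starRingEnd ℂ) (c k) *
        (cexp (-((t - a p : ℝ) : ℂ) ^ 2) * cexp (-(I * t * ((y j - y k : ℝ) : ℂ)))) := by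
      funext t
      exact expand P a S c y t
    rw [this]
    rw [integral_finsetSum _ fun j _ => ?_]
    · refine Finset.sum_congr rfl fun j _ => ?_
      rw [integral_finsetSum _ fun k _ => ?_]
      · refine Finset.sum_congr rfl fun k _ => ?_
        rw [integral_finsetSum _ fun p _ => ?_]
        · refine Finset.sum_congr rfl fun p _ => ?_
          rw [integral_const_mul, (gauss_int (a p) (y j - y k)).2]
        · exact (gauss_int (a p) (y j - y k)).1.const_mul _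
      · exact integrable_finsetSum _ fun p _ => (gauss_int (a p) (y j - y k)).1.const_mul _
    · exact integrable_finsetSum _ fun k _ =>
        integrable_finsetSum _ fun p _ => (gauss_int (a p) (y j - y k)).1.const_mul _
  have h2 : ∫ t, f t ≤ ‖((∫ t, f t : ℝ) : ℂ)‖ := by
    rw [Complex.norm_real]
    exact le_abs_self _
  refine h2.trans ?_
  rw [h1, Finset.mul_sum]
  refine (norm_sum_le _ _).trans (Finset.sum_le_sum fun j _ => ?_)
  rw [Finset.mul_sum]
  refine (norm_sum_le _ _).trans (Finset.sum_le_sum fun k _ => ?_)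
  have h3 : ∑ p ∈ P, c j * (starRingEnd ℂ) (c k) *
      ((Real.pi / (-(-1 : ℂ))) ^ (1 / 2 : ℂ) * cexp (-(((y j - y k : ℝ) : ℂ) ^ 2 / 4 : ℂ)) *
        cexp (-(I * a p * ((y j - y k : ℝ) : ℂ)))) =
      (c j * (starRingEnd ℂ) (c k)) * ((Real.pi / (-(-1 : ℂ))) ^ (1 / 2 : ℂ) *
        cexp (-(((y j - y k : ℝ) : ℂ) ^ 2 / 4 : ℂ))) *
        ∑ p ∈ P, cexp (-(I * a p * ((y j - y k : ℝ) : ℂ))) := by
    rw [Finset.mul_sum]
    refine Finset.sum_congr rfl fun p _ => ?_
    ring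
  rw [h3, norm_mul, norm_mul, norm_mul, norm_mul]
  have h4 : ‖(starRingEnd ℂ) (c k)‖ = ‖c k‖ := RCLike.norm_conj _
  have h5 : ‖cexp (-(((y j - y k : ℝ) : ℂ) ^ 2 / 4 : ℂ))‖ ≤ 1 := by
    rw [Complex.norm_exp]
    have : (-(((y j - y k : ℝ) : ℂ) ^ 2 / 4 : ℂ)).re = -((y j - y k) ^ 2 / 4) := by
      have : (-(((y j - y k : ℝ) : ℂ) ^ 2 / 4 : ℂ)) = ((-((y j - y k) ^ 2 / 4) : ℝ) : ℂ) := by
        push_cast; ring
      rw [this, Complex.ofReal_re]
    rw [this, Real.exp_le_one_iff]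
    nlinarith [sq_nonneg (y j - y k)]
  rw [h4]
  have h6 := norm_gauss_const
  have h7 : ‖((Real.pi : ℂ) / (-(-1 : ℂ))) ^ (1 / 2 : ℂ)‖ *
      ‖cexp (-(((y j - y k : ℝ) : ℂ) ^ 2 / 4 : ℂ))‖ ≤ 2 := by
    calc _ ≤ (2 : ℝ) * 1 := mul_le_mul h6 h5 (norm_nonneg _) (by norm_num)
      _ = 2 := by norm_num
  calc ‖c j‖ * ‖c k‖ * (‖((Real.pi : ℂ) / (-(-1 : ℂ))) ^ (1 / 2 : ℂ)‖ *
      ‖cexp (-(((y j - y k : ℝ) : ℂ) ^ 2 / 4 : ℂ))‖) *
      ‖∑ p ∈ P, cexp (-(I * a p * ((y j - y k : ℝ) : ℂ)))‖ ≤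
      ‖c j‖ * ‖c k‖ * 2 * ‖∑ p ∈ P, cexp (-(I * a p * ((y j - y k : ℝ) : ℂ)))‖ := by
        gcongr
    _ = _ := by ring

end Pool.Agent.M17.Helper73.KC
end
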