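import Mathlib
import Pool.Agent.Helper53.KM.G02
import Pool.Agent.Helper53.KM.G03
import Pool.Agent.Helper53.KM.G04

/- Helper53.KN.Helper44.SievePairs -/
section
/-!
# Two-dimensional sieve for pairs `(r, s)`
-/

set_option autoImplicit false

open Finset Real

namespace Pool.Agent.M17.Helper44

/-- Sieving scales `w^(1/2^j)`. -/
noncomputable def zs (w : ℝ) (j : ℕ) : ℝ := w ^ ((1 / 2 : ℝ) ^ j)

theorem zs_zero (w : ℝ) : zs w 0 = w := by simp [zs]

theorem one_le_zs {w : ℝ} (hw : 1 ≤ w) (j : ℕ) : 1 ≤ zs w j :=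
  Real.one_le_rpow hw (by positivity)

theorem zs_pos {w : ℝ} (hw : 1 ≤ w) (j : ℕ) : 0 < zs w j :=
  lt_of_lt_of_le one_pos (one_le_zs hw j)

theorem zs_succ_sq {w : ℝ} (hw : 1 ≤ w) (j : ℕ) : zs w (j + 1) ^ 2 = zs w j := by
  unfold zs
  rw [← Real.rpow_natCast, ← Real.rpow_mul (by linarith)]
  congr 1
  rw [pow_succ]
  push_cast
  ring

theorem zs_succ_le {w : ℝ} (hw : 1 ≤ w) (j : ℕ) : zs w (j + 1) ≤ zs w j := by
  have h1 := one_le_zs hw (j + 1)
  rw [← zs_succ_sq hw j]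
  nlinarith

theorem zs_anti {w : ℝ} (hw : 1 ≤ w) {i j : ℕ} (hij : i ≤ j) : zs w j ≤ zs w i := by
  induction j, hij using Nat.le_induction with
  | base => exact le_rfl
  | succ n _ ih => exact (zs_succ_le hw n).trans ih

theorem log_zs {w : ℝ} (hw : 0 < w) (j : ℕ) : Real.log (zs w j) = (1 / 2 : ℝ) ^ j * Real.log w := by
  unfold zs
  rw [Real.log_rpow hw]

/-- Number of blocks. -/
noncomputable def nb (w : ℝ) : ℕ := ⌊w⌋₊ + 1

theorem zs_nb_lt {w : ℝ} (hw : 2 ≤ w) : zs w (nb w) < 2 := by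
  have hw0 : 0 < w := by linarith
  rw [← Real.log_lt_log_iff (zs_pos (by linarith) _) (by norm_num), log_zs hw0]
  have h1 : ((nb w : ℕ) : ℝ) + 1 ≤ 2 ^ (nb w) := by
    have := Nat.lt_two_pow_self (n := nb w)
    exact_mod_cast this
  have h2 : w < nb w := by
    unfold nb
    push_cast
    exact Nat.lt_floor_add_one w
  have h3 : Real.log w ≤ w - 1 := Real.log_le_sub_one_of_pos hw0
  have h4 : Real.log 2 > 0.5 := by
    have := Real.log_two_gt_d9; linarith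
  have h5 : (0 : ℝ) < 2 ^ (nb w) := by positivity
  rw [one_div, inv_pow, inv_mul_lt_iff₀ h5]
  have h6 : (1 : ℝ) ≤ 2 ^ (nb w - 1) := one_le_pow₀ (by norm_num)
  -- 2^(nb w) * log 2 > log w
  have h7 : Real.log w ≤ Real.log (nb w) := Real.log_le_log hw0 h2.le
  have h8 : Real.log (nb w : ℝ) < (nb w : ℝ) * Real.log 2 := by
    have h9 : ((nb w : ℕ) : ℝ) < 2 ^ (nb w) := by linarith
    have h10 : (0 : ℝ) < (nb w : ℕ) := by linarith
    calc Real.log (nb w : ℝ) < Real.log (2 ^ (nb w)) := Real.log_lt_log h10 h9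
      _ = (nb w : ℝ) * Real.log 2 := by rw [Real.log_pow]
  have h11 : (nb w : ℝ) * Real.log 2 ≤ 2 ^ (nb w) * Real.log 2 := by
    apply mul_le_mul_of_nonneg_right _ (by linarith)
    linarith
  linarith

/-- Block `j` of primes (two copies). -/
noncomputable def blk (w : ℝ) (j : ℕ) : Finset (ℕ × Bool) :=
  ((Finset.Ioc ⌊zs w (j + 1)⌋₊ ⌊zs w j⌋₊).filter Nat.Prime) ×ˢ (Finset.univ : Finset Bool)

theorem mem_blk {w : ℝ} {j : ℕ} {i : ℕ × Bool} :
    i ∈ blk w j ↔ (⌊zs w (j + 1)⌋₊ < i.1 ∧ i.1 ≤ ⌊zs w j⌋₊) ∧ i.1.Prime := by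
  unfold blk
  simp [Finset.mem_product]

/-- The density of an event. -/
noncomputable def dens (i : ℕ × Bool) : ℝ := 1 / (i.1 : ℝ)

theorem sum_dens_blk (w : ℝ) (j : ℕ) : ∑ i ∈ blk w j, dens i =
    2 * ∑ q ∈ (Finset.Ioc ⌊zs w (j + 1)⌋₊ ⌊zs w j⌋₊).filter Nat.Prime, (1 : ℝ) / q := by
  unfold blk dens
  rw [Finset.sum_product]
  simp only [Finset.sum_const, Finset.card_univ, Fintype.card_bool, nsmul_eq_mul]
  rw [Finset.mul_sum]
  rfl

theorem sum_dens_blk_le : ∃ S0 : ℝ, 0 < S0 ∧ ∀ w : ℝ, 2 ≤ w → ∀ j : ℕ,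
    ∑ i ∈ blk w j, dens i ≤ S0 := by
  obtain ⟨C, hC, hM⟩ := mertens_interval
  have hl2 : 0 < Real.log 2 := Real.log_pos (by norm_num)
  refine ⟨2 * (Real.log 2 + C / Real.log 2) + 8, by positivity, ?_⟩
  intro w hw j
  rw [sum_dens_blk]
  have hw1 : (1 : ℝ) ≤ w := by linarith
  rcases lt_or_ge (zs w (j + 1)) 2 with h | h
  · -- small scale
    have h4 : zs w j < 4 := by
      rw [← zs_succ_sq hw1 j]
      have := one_le_zs hw1 (j + 1)
      nlinarith
    have hfl : ⌊zs w j⌋₊ ≤ 3 := by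
      have : ⌊zs w j⌋₊ < 4 := by
        rw [Nat.floor_lt (zs_pos hw1 j).le]
        exact_mod_cast h4
      omega
    have : ∑ q ∈ (Finset.Ioc ⌊zs w (j + 1)⌋₊ ⌊zs w j⌋₊).filter Nat.Prime, (1 : ℝ) / q ≤ 4 := by
      calc ∑ q ∈ (Finset.Ioc ⌊zs w (j + 1)⌋₊ ⌊zs w j⌋₊).filter Nat.Prime, (1 : ℝ) / q
          ≤ ∑ q ∈ (Finset.Ioc ⌊zs w (j + 1)⌋₊ ⌊zs w j⌋₊).filter Nat.Prime, 1 := by
            apply Finset.sum_le_sum
            intro q hq
            have : (1 : ℝ) ≤ q := by exact_mod_cast (Finset.mem_filter.mp hq).2.one_lt.le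
            rw [div_le_one (by linarith)]
            exact this
        _ = ((Finset.Ioc ⌊zs w (j + 1)⌋₊ ⌊zs w j⌋₊).filter Nat.Prime).card := by simp
        _ ≤ (4 : ℕ) := by
            have h1 : ((Finset.Ioc ⌊zs w (j + 1)⌋₊ ⌊zs w j⌋₊).filter Nat.Prime).card ≤
              (Finset.Ioc ⌊zs w (j + 1)⌋₊ ⌊zs w j⌋₊).card := Finset.card_filter_le _ _
            rw [Nat.card_Ioc] at h1
            exact_mod_cast (by omega)
        _ = 4 := by norm_num
    have : 0 < C / Real.log 2 := by positivity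
    linarith
  · have h1 := hM (zs w (j + 1)) (zs w j) h (zs_succ_le hw1 j)
    have hlz : 0 < Real.log (zs w (j + 1)) := Real.log_pos (by linarith)
    have h2 : Real.log (zs w j) / Real.log (zs w (j + 1)) = 2 := by
      rw [← zs_succ_sq hw1 j, Real.log_pow]
      push_cast
      field_simp
    rw [h2] at h1
    have h3 : C / Real.log (zs w (j + 1)) ≤ C / Real.log 2 := by
      apply div_le_div_of_nonneg_left hC.le hl2
      exact Real.log_le_log (by norm_num) h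
    rw [abs_le] at h1
    linarith [h1.2]

theorem sum_geo_le (t : ℕ) : ∑ j ∈ range t, (1 / 2 : ℝ) ^ j ≤ 2 := by
  have h : ∀ t : ℕ, ∑ j ∈ range t, (1 / 2 : ℝ) ^ j = 2 - 2 * (1 / 2 : ℝ) ^ t := by
    intro t
    induction t with
    | zero => simp
    | succ n ih => rw [Finset.sum_range_succ, ih]; ring
  rw [h]
  have : (0 : ℝ) ≤ (1 / 2 : ℝ) ^ t := by positivity
  linarith

theorem sum_geo_mul_le (t : ℕ) : ∑ j ∈ range t, (j : ℝ) * (1 / 2 : ℝ) ^ j ≤ 2 := by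
  have h : ∀ t : ℕ, ∑ j ∈ range t, (j : ℝ) * (1 / 2 : ℝ) ^ j = 2 - (2 * t + 2) * (1 / 2 : ℝ) ^ t := by
    intro t
    induction t with
    | zero => simp
    | succ n ih => rw [Finset.sum_range_succ, ih]; push_cast; ring
  rw [h]
  have : (0 : ℝ) ≤ (2 * t + 2) * (1 / 2 : ℝ) ^ t := by positivity
  linarith

theorem biUnion_blk {w : ℝ} (hw : 2 ≤ w) :
    (Finset.univ : Finset (Fin (nb w))).biUnion (fun j => blk w j) =
      primesUpTo w ×ˢ (Finset.univ : Finset Bool) := by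
  have hw1 : (1 : ℝ) ≤ w := by linarith
  ext i
  simp only [Finset.mem_biUnion, Finset.mem_univ, true_and, mem_blk, Finset.mem_product, and_true]
  rw [mem_primesUpTo (by linarith)]
  constructor
  · rintro ⟨j, ⟨_, h2⟩, h3⟩
    refine ⟨h3, ?_⟩
    have h4 : (i.1 : ℝ) ≤ zs w j := (Nat.le_floor_iff (zs_pos hw1 j).le).mp h2
    have h5 : zs w j ≤ w := by
      have := zs_anti hw1 (Nat.zero_le (j : ℕ))
      rwa [zs_zero] at this
    linarith
  · rintro ⟨hq, hle⟩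
    -- find the last scale at least `i.1`
    have hex : ∃ j : ℕ, j < nb w ∧ (i.1 ≤ ⌊zs w j⌋₊ ∧ ¬ i.1 ≤ ⌊zs w (j + 1)⌋₊) := by
      by_contra hcon
      push Not at hcon
      have hall : ∀ j : ℕ, j ≤ nb w → i.1 ≤ ⌊zs w j⌋₊ := by
        intro j
        induction j with
        | zero =>
          intro _
          rw [zs_zero, Nat.le_floor_iff (by linarith)]
          exact hle
        | succ n ih =>
          intro hn
          exact hcon n (by omega) (ih (by omega))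
      have h6 := hall (nb w) le_rfl
      have h7 : (i.1 : ℝ) ≤ zs w (nb w) := (Nat.le_floor_iff (zs_pos hw1 _).le).mp h6
      have h8 := zs_nb_lt hw
      have h9 : (2 : ℝ) ≤ i.1 := by exact_mod_cast hq.two_le
      linarith
    obtain ⟨j, hj, h1, h2⟩ := hex
    exact ⟨⟨j, hj⟩, ⟨by simpa using h2, h1⟩, hq⟩

end Pool.Agent.M17.Helper44
end

/- Helper53.KN.Helper96.CPAP.SieveK -/
section
/-!
# The Brun-Hooley sieve in dimension `k`
-/

set_option autoImplicit false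

open Finset Real

namespace Pool.Agent.M17.Helper96.CPAP

open Pool.Agent.M17.Helper44

/-- Block `j` of sieving primes. -/
noncomputable def pb (P : ℕ → Prop) (w : ℝ) (j : ℕ) : Finset ℕ := by
  classical exact (Finset.Ioc ⌊zs w (j + 1)⌋₊ ⌊zs w j⌋₊).filter P

/-- All sieving primes up to `w`. -/
noncomputable def pU (P : ℕ → Prop) (w : ℝ) : Finset ℕ := by
  classical exact (primesUpTo w).filter P

theorem mem_pb {P : ℕ → Prop} {w : ℝ} {j i : ℕ} :
    i ∈ pb P w j ↔ (⌊zs w (j + 1)⌋₊ < i ∧ i ≤ ⌊zs w j⌋₊) ∧ P i := by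
  classical
  unfold pb
  rw [Finset.mem_filter, Finset.mem_Ioc]

theorem mem_pU {P : ℕ → Prop} (hP : ∀ q, P q → q.Prime) {w : ℝ} (hw : 0 ≤ w) {q : ℕ} :
    q ∈ pU P w ↔ P q ∧ (q : ℝ) ≤ w := by
  classical
  unfold pU
  rw [Finset.mem_filter, mem_primesUpTo hw]
  constructor
  · rintro ⟨⟨_, h⟩, h'⟩; exact ⟨h', h⟩
  · rintro ⟨h', h⟩; exact ⟨⟨hP q h', h⟩, h'⟩

theorem pb_disjoint {P : ℕ → Prop} {w : ℝ} (hw : 1 ≤ w) {i j : ℕ} (hij : i ≠ j) :
    Disjoint (pb P w i) (pb P w j) := by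
  rw [Finset.disjoint_left]
  intro a hi hj
  rw [mem_pb] at hi hj
  rcases lt_or_gt_of_ne hij with h | h
  · have : ⌊zs w j⌋₊ ≤ ⌊zs w (i + 1)⌋₊ := Nat.floor_le_floor (zs_anti hw h)
    omega
  · have : ⌊zs w i⌋₊ ≤ ⌊zs w (j + 1)⌋₊ := Nat.floor_le_floor (zs_anti hw h)
    omega

theorem biUnion_pb {P : ℕ → Prop} (hP : ∀ q, P q → q.Prime) {w : ℝ} (hw : 2 ≤ w) :
    (Finset.univ : Finset (Fin (nb w))).biUnion (fun j => pb P w j) = pU P w := by
  have hw1 : (1 : ℝ) ≤ w := by linarith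
  have hw0 : (0 : ℝ) ≤ w := by (clear * - hw; linarith)
  ext q
  rw [mem_pU hP hw0, Finset.mem_biUnion]
  constructor
  · rintro ⟨j, _, hj⟩
    rw [mem_pb] at hj
    refine ⟨hj.2, ?_⟩
    have h4 : (q : ℝ) ≤ zs w j := (Nat.le_floor_iff (zs_pos hw1 j).le).mp hj.1.2
    have h5 : zs w j ≤ w := by
      have := zs_anti hw1 (Nat.zero_le (j : ℕ))
      rwa [zs_zero] at this
    (clear * - h4 h5; linarith)
  · rintro ⟨hPq, hle⟩
    have h1 : ((q, true) : ℕ × Bool) ∈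
        (Finset.univ : Finset (Fin (nb w))).biUnion (fun j => blk w j) := by
      rw [biUnion_blk hw, Finset.mem_product, mem_primesUpTo hw0]
      exact ⟨⟨hP q hPq, hle⟩, Finset.mem_univ _⟩
    rw [Finset.mem_biUnion] at h1
    obtain ⟨j, _, hj⟩ := h1
    rw [mem_blk] at hj
    exact ⟨j, Finset.mem_univ _, mem_pb.mpr ⟨hj.1, hPq⟩⟩

theorem sum_inv_pb_le : ∃ S0 : ℝ, 0 < S0 ∧ ∀ (P : ℕ → Prop), (∀ q, P q → q.Prime) →
    ∀ w : ℝ, 2 ≤ w → ∀ j : ℕ, ∑ q ∈ pb P w j, (1 : ℝ) / q ≤ S0 := by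
  obtain ⟨S0, hS0, hS⟩ := sum_dens_blk_le
  refine ⟨S0, hS0, ?_⟩
  intro P hP w hw j
  have h1 := hS w hw j
  rw [sum_dens_blk] at h1
  have h2 : ∑ q ∈ pb P w j, (1 : ℝ) / q ≤
      ∑ q ∈ (Finset.Ioc ⌊zs w (j + 1)⌋₊ ⌊zs w j⌋₊).filter Nat.Prime, (1 : ℝ) / q := by
    apply Finset.sum_le_sum_of_subset_of_nonneg
    · intro q hq
      rw [mem_pb] at hq
      rw [Finset.mem_filter, Finset.mem_Ioc]
      exact ⟨hq.1, hP q hq.2⟩
    · intro q _ _; (clear * -; positivity)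
  have h3 : 0 ≤ ∑ q ∈ (Finset.Ioc ⌊zs w (j + 1)⌋₊ ⌊zs w j⌋₊).filter Nat.Prime, (1 : ℝ) / q :=
    Finset.sum_nonneg fun q _ => by (clear * -; positivity)
  (clear * - hS0 h1 h2; linarith)

theorem card_pb_le {P : ℕ → Prop} (hP : ∀ q, P q → q.Prime) (k : ℕ) {w : ℝ} (hw : 2 ≤ w) (j : ℕ) :
    ((k : ℝ) + 1) * ((pb P w j).card : ℝ) + 1 ≤ (zs w j) ^ (k + 2) := by
  classical
  have hw1 : (1 : ℝ) ≤ w := by (clear * - hw; linarith)
  have h1 := one_le_zs hw1 j
  rcases Finset.eq_empty_or_nonempty (pb P w j) with h | ⟨i, hi⟩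
  · rw [h]
    simp only [Finset.card_empty, Nat.cast_zero, mul_zero, zero_add]
    exact one_le_pow₀ h1
  · rw [mem_pb] at hi
    have h2 : (2 : ℝ) ≤ zs w j := by
      have h3 : (i : ℝ) ≤ zs w j := (Nat.le_floor_iff (zs_pos hw1 j).le).mp hi.1.2
      have h4 : (2 : ℝ) ≤ i := by exact_mod_cast (hP i hi.2).two_le
      (clear * - h3 h4; linarith)
    have h6 : (pb P w j).card ≤ ⌊zs w j⌋₊ := by
      unfold pb
      refine (Finset.card_filter_le _ _).trans ?_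
      rw [Nat.card_Ioc]; omega
    have h7 : (⌊zs w j⌋₊ : ℝ) ≤ zs w j := Nat.floor_le (zs_pos hw1 j).le
    have h8 : ((pb P w j).card : ℝ) ≤ zs w j := le_trans (by exact_mod_cast h6) h7
    have h9 : (k : ℝ) + 2 ≤ 2 ^ (k + 1) := by
      have := Nat.lt_two_pow_self (n := k + 1)
      have h10 : k + 2 ≤ 2 ^ (k + 1) := by omega
      exact_mod_cast h10
    have h10 : (2 : ℝ) ^ (k + 1) ≤ (zs w j) ^ (k + 1) := pow_le_pow_left₀ (by norm_num) h2 _
    have hk : (0 : ℝ) ≤ k := by positivity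
    calc ((k : ℝ) + 1) * ((pb P w j).card : ℝ) + 1 ≤ ((k : ℝ) + 1) * zs w j + 1 := by (clear * - h8; gcongr)
      _ ≤ ((k : ℝ) + 2) * zs w j := by (clear * - h2; nlinarith)
      _ ≤ (zs w j) ^ (k + 1) * zs w j := by
          apply mul_le_mul_of_nonneg_right (h9.trans h10) (by (clear * - h2; linarith))
      _ = (zs w j) ^ (k + 2) := by ring

theorem prod_pb_card_le {P : ℕ → Prop} (hP : ∀ q, P q → q.Prime) (k : ℕ) {w : ℝ} (hw : 2 ≤ w)
    (b : ℕ) :
    ∏ j : Fin (nb w), (((k : ℝ) + 1) * ((pb P w j).card : ℝ) + 1) ^ (2 * (b + (j : ℕ)) + 1) ≤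
      w ^ (((k : ℝ) + 2) * (4 * b + 6) : ℝ) := by
  have hw1 : (1 : ℝ) ≤ w := by (clear * - hw; linarith)
  have hw0 : (0 : ℝ) < w := by (clear * - hw; linarith)
  calc ∏ j : Fin (nb w), (((k : ℝ) + 1) * ((pb P w j).card : ℝ) + 1) ^ (2 * (b + (j : ℕ)) + 1)
      ≤ ∏ j : Fin (nb w), w ^ ((1 / 2 : ℝ) ^ (j : ℕ) * (((k : ℝ) + 2) * (2 * (b + (j : ℕ)) + 1))) := by
        apply Finset.prod_le_prod
        · intro j _; (clear * -; positivity)
        · intro j _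
          calc (((k : ℝ) + 1) * ((pb P w j).card : ℝ) + 1) ^ (2 * (b + (j : ℕ)) + 1)
              ≤ ((zs w j) ^ (k + 2)) ^ (2 * (b + (j : ℕ)) + 1) :=
                pow_le_pow_left₀ (by (clear * -; positivity)) (card_pb_le hP k hw j) _
            _ = w ^ ((1 / 2 : ℝ) ^ (j : ℕ) * (((k : ℝ) + 2) * (2 * (b + (j : ℕ)) + 1))) := by
                unfold zs
                rw [← pow_mul, ← Real.rpow_natCast, ← Real.rpow_mul hw0.le]
                congr 1
                push_cast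
                ring
    _ = w ^ (∑ j : Fin (nb w), (1 / 2 : ℝ) ^ (j : ℕ) *
          (((k : ℝ) + 2) * (2 * (b + (j : ℕ)) + 1))) := by
        rw [Real.rpow_sum_of_pos hw0]
    _ ≤ w ^ (((k : ℝ) + 2) * (4 * b + 6) : ℝ) := by
        apply Real.rpow_le_rpow_of_exponent_le hw1
        rw [Fin.sum_univ_eq_sum_range
          (fun j => (1 / 2 : ℝ) ^ (j : ℕ) * (((k : ℝ) + 2) * (2 * (b + (j : ℝ)) + 1))) (nb w)]
        have e : ∀ j ∈ range (nb w), (1 / 2 : ℝ) ^ (j : ℕ) *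
            (((k : ℝ) + 2) * (2 * (b + (j : ℝ)) + 1)) =
            (((k : ℝ) + 2) * (2 * b + 1)) * (1 / 2 : ℝ) ^ j +
              (2 * ((k : ℝ) + 2)) * ((j : ℝ) * (1 / 2 : ℝ) ^ j) := by
          intro j _; ring
        rw [Finset.sum_congr rfl e, Finset.sum_add_distrib, ← Finset.mul_sum, ← Finset.mul_sum]
        have h1 := sum_geo_le (nb w)
        have h2 := sum_geo_mul_le (nb w)
        have h3 : (0 : ℝ) ≤ ((k : ℝ) + 2) * (2 * b + 1) := by (clear * -; positivity)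
        have h4 : (0 : ℝ) ≤ 2 * ((k : ℝ) + 2) := by positivity
        have h5 := mul_le_mul_of_nonneg_left h1 h3
        have h6 := mul_le_mul_of_nonneg_left h2 h4
        calc _ ≤ ((k : ℝ) + 2) * (2 * b + 1) * 2 + 2 * ((k : ℝ) + 2) * 2 := add_le_add h5 h6
          _ = _ := by ring

/-- Lower bound for the sieve product in dimension `k`. -/
theorem prod_lower_bound (k : ℕ) : ∃ c : ℝ, 0 < c ∧ ∀ (P : ℕ → Prop),
    (∀ q, P q → q.Prime ∧ 2 * k ≤ q) → ∀ ν : ℕ → ℝ, (∀ q, P q → 0 ≤ ν q ∧ ν q ≤ k) →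
    ∀ w : ℝ, 2 ≤ w → c / (Real.log w) ^ k ≤ ∏ q ∈ pU P w, (1 - ν q / q) := by
  classical
  obtain ⟨C, hC, hM⟩ := sum_primesUpTo_bounds
  obtain ⟨C2, hC2, hS⟩ := sum_inv_sq_le
  refine ⟨Real.exp (-(k * C + 2 * k ^ 2 * C2)), Real.exp_pos _, ?_⟩
  intro P hP ν hν w hw
  have hP' : ∀ q, P q → q.Prime := fun q h => (hP q h).1
  have hw0 : 0 ≤ w := by (clear * - hw; linarith)
  have hlw : 0 < Real.log w := Real.log_pos (by (clear * - hw; linarith))
  have hy : ∀ q ∈ pU P w, 0 ≤ ν q / q ∧ ν q / q ≤ k * (1 / (q : ℝ)) ∧ ν q / q ≤ 1 / 2 := by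
    intro q hq
    rw [mem_pU hP' hw0] at hq
    have h1 := hP q hq.1
    have h2 := hν q hq.1
    have hq0 : (0 : ℝ) < q := by exact_mod_cast h1.1.pos
    have h3 : (2 : ℝ) * k ≤ q := by exact_mod_cast h1.2
    refine ⟨div_nonneg h2.1 hq0.le, ?_, ?_⟩
    · rw [mul_one_div]
      exact div_le_div_of_nonneg_right h2.2 hq0.le
    · rw [div_le_iff₀ hq0]
      (clear * - h2 h3; linarith)
  have h1 : ∏ q ∈ pU P w, Real.exp (-(ν q / q + 2 * (ν q / q) ^ 2)) ≤
      ∏ q ∈ pU P w, (1 - ν q / q) := by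
    apply Finset.prod_le_prod
    · intro q _; exact (Real.exp_pos _).le
    · intro q hq
      exact one_sub_ge_exp' (hy q hq).1 (hy q hq).2.2
  refine le_trans ?_ h1
  rw [← Real.exp_sum, Finset.sum_neg_distrib, Finset.sum_add_distrib]
  have h2 : ∑ q ∈ pU P w, ν q / q ≤ k * (Real.log (Real.log w) + C) := by
    calc ∑ q ∈ pU P w, ν q / q ≤ ∑ q ∈ pU P w, k * (1 / (q : ℝ)) :=
          Finset.sum_le_sum fun q hq => (hy q hq).2.1
      _ = k * ∑ q ∈ pU P w, (1 / (q : ℝ)) := by rw [Finset.mul_sum]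
      _ ≤ k * ∑ q ∈ primesUpTo w, (1 / (q : ℝ)) := by
          apply mul_le_mul_of_nonneg_left _ (by (clear * -; positivity))
          apply Finset.sum_le_sum_of_subset_of_nonneg
          · unfold pU
            exact Finset.filter_subset _ _
          · intro q _ _; (clear * -; positivity)
      _ ≤ k * (Real.log (Real.log w) + C) := by
          apply mul_le_mul_of_nonneg_left _ (by (clear * -; positivity))
          have := (abs_le.mp (hM w hw)).2
          (clear * - this; linarith)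
  have h3 : ∑ q ∈ pU P w, 2 * (ν q / q) ^ 2 ≤ 2 * k ^ 2 * C2 := by
    calc ∑ q ∈ pU P w, 2 * (ν q / q) ^ 2 ≤ ∑ q ∈ pU P w, 2 * (k : ℝ) ^ 2 * (1 / (q : ℝ)) ^ 2 := by
          apply Finset.sum_le_sum
          intro q hq
          have h4 := pow_le_pow_left₀ (hy q hq).1 (hy q hq).2.1 2
          rw [mul_pow] at h4
          (clear * - h4; linarith)
      _ = 2 * (k : ℝ) ^ 2 * ∑ q ∈ pU P w, (1 / (q : ℝ)) ^ 2 := by rw [Finset.mul_sum]
      _ ≤ 2 * k ^ 2 * C2 := mul_le_mul_of_nonneg_left (hS _) (by (clear * -; positivity))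
  have h4 : Real.exp (-(k * C + 2 * k ^ 2 * C2)) / (Real.log w) ^ k =
      Real.exp (-(k * (Real.log (Real.log w) + C) + 2 * k ^ 2 * C2)) := by
    have h5 : (Real.log w) ^ k = Real.exp (k * Real.log (Real.log w)) := by
      rw [Real.exp_nat_mul, Real.exp_log hlw]
    rw [h5, ← Real.exp_sub]
    congr 1
    ring
  rw [h4]
  apply Real.exp_le_exp.mpr
  (clear * - h2 h3; linarith)

/-- The `k`-dimensional Brun-Hooley sieve. -/
theorem sieveK (k : ℕ) : ∃ K c : ℝ, 1 ≤ K ∧ 0 < c ∧ ∀ (α : Type) (P : ℕ → Prop),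
    (∀ q, P q → q.Prime ∧ 2 * k ≤ q) → ∀ ν : ℕ → ℝ, (∀ q, P q → 0 ≤ ν q ∧ ν q ≤ k) →
    ∀ w : ℝ, 2 ≤ w → ∀ (Ω : Finset α) (occ : ℕ → α → Prop) (X E : ℝ), 0 ≤ X → 0 ≤ E →
    (∀ I : Finset ℕ, (∀ q ∈ I, P q ∧ (q : ℝ) ≤ w) →
      |evCount Ω (fun ω => ∀ q ∈ I, occ q ω) - X * ∏ q ∈ I, (ν q / q)| ≤
        E * ((k : ℝ) + 1) ^ I.card) →
    evCount Ω (fun ω => ∀ q : ℕ, P q → (q : ℝ) ≤ w → ¬ occ q ω) ≤
        2 * X * (∏ q ∈ pU P w, (1 - ν q / q)) + E * w ^ K ∧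
    c * X / (Real.log w) ^ k - E * w ^ K ≤
      evCount Ω (fun ω => ∀ q : ℕ, P q → (q : ℝ) ≤ w → ¬ occ q ω) := by
  obtain ⟨S0, hS0, hS⟩ := sum_inv_pb_le
  obtain ⟨c1, hc1, hlow⟩ := prod_lower_bound k
  set S1 : ℝ := k * S0 with hS1
  have hS1n : 0 ≤ S1 := by (clear * - hS0; positivity)
  have hsum : Summable (fun n : ℕ => S1 ^ n / (n.factorial : ℝ)) := Real.summable_pow_div_factorial S1
  obtain ⟨s0, hs0⟩ := summable_iff_vanishing_norm.mp hsum (Real.exp (-(2 * S1)) / 2) (by positivity)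
  set b := s0.sup id + 1 with hb
  set K0 : ℝ := ((k : ℝ) + 2) * (4 * b + 6) with hK0
  have hK0' : 0 ≤ K0 := by (clear * -; positivity)
  refine ⟨K0 + 2, c1 / 2, by (clear * - hK0'; linarith), by positivity, ?_⟩
  intro α P hP ν hν w hw Ω occ X E hX hE hcnt
  have hP' : ∀ q, P q → q.Prime := fun q h => (hP q h).1
  have hw1 : (1 : ℝ) ≤ w := by (clear * - hw; linarith)
  have hw0 : (0 : ℝ) < w := by (clear * - hw; linarith)
  have hlw : 0 < Real.log w := Real.log_pos (by (clear * - hw; linarith))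
  have hdisj : ∀ i j : Fin (nb w), i ≠ j → Disjoint (pb P w i) (pb P w j) := by
    intro i j hij
    exact pb_disjoint hw1 (fun h => hij (Fin.ext h))
  have hx : ∀ j : ℕ, ∀ i ∈ pb P w j, 0 ≤ ν i / i ∧ ν i / i ≤ 1 / 2 := by
    intro j i hi
    rw [mem_pb] at hi
    have h1 := hP i hi.2
    have h2 := hν i hi.2
    have hq0 : (0 : ℝ) < i := by exact_mod_cast h1.1.pos
    have h3 : (2 : ℝ) * k ≤ i := by exact_mod_cast h1.2
    refine ⟨div_nonneg h2.1 hq0.le, ?_⟩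
    rw [div_le_iff₀ hq0]
    (clear * - h2 h3; linarith)
  have hcnt' : ∀ I : Finset ℕ,
      I ⊆ Finset.univ.biUnion (fun j : Fin (nb w) => pb P w j) →
      |evCount Ω (fun ω => ∀ i ∈ I, occ i ω) - X * ∏ i ∈ I, (ν i / i)| ≤
        E * ((k : ℝ) + 1) ^ I.card := by
    intro I hI
    apply hcnt
    intro q hq
    have := hI hq
    rwa [biUnion_pb hP' hw, mem_pU hP' hw0.le] at this
  have hsumx : ∀ j : ℕ, ∑ i ∈ pb P w j, ν i / i ≤ S1 := by
    intro j
    calc ∑ i ∈ pb P w j, ν i / i ≤ ∑ i ∈ pb P w j, k * ((1 : ℝ) / i) := by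
          apply Finset.sum_le_sum
          intro i hi
          rw [mem_pb] at hi
          have hq0 : (0 : ℝ) < i := by exact_mod_cast (hP' i hi.2).pos
          rw [mul_one_div]
          exact div_le_div_of_nonneg_right (hν i hi.2).2 hq0.le
      _ = k * ∑ i ∈ pb P w j, (1 : ℝ) / i := by rw [Finset.mul_sum]
      _ ≤ k * S0 := mul_le_mul_of_nonneg_left (hS P hP' w hw j) (by positivity)
  have hVlow : ∀ j : Fin (nb w), Real.exp (-(2 * S1)) ≤ ∏ i ∈ pb P w j, (1 - ν i / i) := by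
    intro j
    calc Real.exp (-(2 * S1)) ≤ Real.exp (-∑ i ∈ pb P w j, 2 * (ν i / i)) := by
          apply Real.exp_le_exp.mpr
          rw [← Finset.mul_sum]
          have := hsumx j
          (clear * - this; linarith)
      _ = ∏ i ∈ pb P w j, Real.exp (-(2 * (ν i / i))) := by
          rw [← Finset.sum_neg_distrib, Real.exp_sum]
      _ ≤ _ := by
          apply Finset.prod_le_prod
          · intro i _; exact (Real.exp_pos _).le
          · intro i hi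
            have := hx j i hi
            exact one_sub_ge_exp this.1 this.2
  have hr : ∑ j : Fin (nb w), es (pb P w j) (2 * (b + (j : ℕ)) + 1) (fun q => ν q / q) /
      ∏ i ∈ pb P w j, (1 - ν i / i) ≤ 1 / 2 := by
    have hterm : ∀ j : Fin (nb w), es (pb P w j) (2 * (b + (j : ℕ)) + 1) (fun q => ν q / q) /
        ∏ i ∈ pb P w j, (1 - ν i / i) ≤
        (S1 ^ (2 * (b + (j : ℕ)) + 1) / ((2 * (b + (j : ℕ)) + 1).factorial : ℝ)) *
          Real.exp (2 * S1) := by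
      intro j
      have h1 : es (pb P w j) (2 * (b + (j : ℕ)) + 1) (fun q => ν q / q) ≤
          S1 ^ (2 * (b + (j : ℕ)) + 1) / ((2 * (b + (j : ℕ)) + 1).factorial : ℝ) := by
        refine (es_le_pow_div_factorial _ _ (fun i hi => (hx j i hi).1) _).trans ?_
        apply div_le_div_of_nonneg_right _ (by positivity)
        apply pow_le_pow_left₀ (Finset.sum_nonneg fun i hi => (hx j i hi).1) (hsumx j)
      have h2 := hVlow j
      have h3 : 0 < Real.exp (-(2 * S1)) := Real.exp_pos _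
      rw [div_le_iff₀ (h3.trans_le h2)]
      calc es (pb P w j) (2 * (b + (j : ℕ)) + 1) (fun q => ν q / q)
          ≤ S1 ^ (2 * (b + (j : ℕ)) + 1) / ((2 * (b + (j : ℕ)) + 1).factorial : ℝ) * 1 := by
            rw [mul_one]; exact h1
        _ = S1 ^ (2 * (b + (j : ℕ)) + 1) / ((2 * (b + (j : ℕ)) + 1).factorial : ℝ) *
              (Real.exp (2 * S1) * Real.exp (-(2 * S1))) := by
            rw [← Real.exp_add]; simp
        _ ≤ S1 ^ (2 * (b + (j : ℕ)) + 1) / ((2 * (b + (j : ℕ)) + 1).factorial : ℝ) *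
              (Real.exp (2 * S1) * ∏ i ∈ pb P w j, (1 - ν i / i)) := by
            (clear * - h2 hS0; gcongr)
        _ = _ := by ring
    calc ∑ j : Fin (nb w), es (pb P w j) (2 * (b + (j : ℕ)) + 1) (fun q => ν q / q) /
          ∏ i ∈ pb P w j, (1 - ν i / i)
        ≤ ∑ j : Fin (nb w), (S1 ^ (2 * (b + (j : ℕ)) + 1) /
            ((2 * (b + (j : ℕ)) + 1).factorial : ℝ)) * Real.exp (2 * S1) :=
          Finset.sum_le_sum fun j _ => hterm j
      _ = (∑ n ∈ (Finset.univ : Finset (Fin (nb w))).image (fun j : Fin (nb w) => 2 * (b + (j : ℕ)) + 1),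
            S1 ^ n / (n.factorial : ℝ)) * Real.exp (2 * S1) := by
          rw [← Finset.sum_mul, Finset.sum_image]
          intro i _ j _ hij
          apply Fin.ext
          simp only at hij
          omega
      _ ≤ (Real.exp (-(2 * S1)) / 2) * Real.exp (2 * S1) := by
          apply mul_le_mul_of_nonneg_right _ (Real.exp_pos _).le
          have h4 := hs0 ((Finset.univ : Finset (Fin (nb w))).image
            (fun j : Fin (nb w) => 2 * (b + (j : ℕ)) + 1)) ?_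
          · rw [Real.norm_eq_abs] at h4
            exact (le_abs_self _).trans h4.le
          · rw [Finset.disjoint_left]
            intro n hn hn'
            rw [Finset.mem_image] at hn
            obtain ⟨j, _, rfl⟩ := hn
            have : id (2 * (b + (j : ℕ)) + 1) ≤ s0.sup id := Finset.le_sup (f := id) hn'
            simp only [id] at this
            omega
      _ = 1 / 2 := by
          rw [div_mul_eq_mul_div, ← Real.exp_add]; simp
  have hmain := brun_hooleyK Ω occ (fun j : Fin (nb w) => pb P w j) hdisj (fun q => ν q / q)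
    (fun j i hi => hx j i hi) X E ((k : ℝ) + 1) hX hE (by (clear * - α; linarith [Nat.cast_nonneg (α := ℝ) k]))
    hcnt' (fun j => 2 * (b + (j : ℕ)))
    (fun j => even_two_mul _) hr
  -- identify the event
  have hevent : (fun ω : α => ∀ j : Fin (nb w), ∀ i ∈ pb P w j, ¬ occ i ω) =
      (fun ω => ∀ q : ℕ, P q → (q : ℝ) ≤ w → ¬ occ q ω) := by
    funext ω
    apply propext
    constructor
    · intro h q hq hqw
      have : q ∈ (Finset.univ : Finset (Fin (nb w))).biUnion (fun j => pb P w j) := by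
        rw [biUnion_pb hP' hw, mem_pU hP' hw0.le]
        exact ⟨hq, hqw⟩
      rw [Finset.mem_biUnion] at this
      obtain ⟨j, _, hj⟩ := this
      exact h j q hj
    · intro h j i hi
      have hi' : i ∈ (Finset.univ : Finset (Fin (nb w))).biUnion (fun j => pb P w j) :=
        Finset.mem_biUnion.mpr ⟨j, Finset.mem_univ _, hi⟩
      rw [biUnion_pb hP' hw, mem_pU hP' hw0.le] at hi'
      exact h i hi'.1 hi'.2
  rw [hevent] at hmain
  -- the product
  have hprodV : ∏ j : Fin (nb w), ∏ i ∈ pb P w j, (1 - ν i / i) =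
      ∏ q ∈ pU P w, (1 - ν q / q) := by
    rw [← Finset.prod_biUnion, biUnion_pb hP' hw]
    intro i _ j _ hij
    exact hdisj i j hij
  rw [hprodV] at hmain
  have hPw := hlow P hP ν hν w hw
  have hprod := prod_pb_card_le hP' k hw b
  have hprod0 : 0 ≤ ∏ j : Fin (nb w),
      (((k : ℝ) + 1) * ((pb P w j).card : ℝ) + 1) ^ (2 * (b + (j : ℕ)) + 1) :=
    Finset.prod_nonneg fun j _ => by (clear * -; positivity)
  have hwK : w ^ (K0 + 2) = w ^ K0 * w ^ 2 := by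
    rw [Real.rpow_add hw0]
    norm_num
  have hwK0 : 0 < w ^ K0 := Real.rpow_pos_of_pos hw0 _
  have hnb : (nb w : ℝ) + 1 ≤ w ^ 2 := by
    unfold nb
    push_cast
    have := Nat.floor_le hw0.le
    (clear * - hw this; nlinarith)
  constructor
  · refine hmain.1.trans ?_
    have h2 : E * ∏ j : Fin (nb w),
        (((k : ℝ) + 1) * ((pb P w j).card : ℝ) + 1) ^ (2 * (b + (j : ℕ)) + 1) ≤
        E * w ^ (K0 + 2) := by
      apply mul_le_mul_of_nonneg_left _ hE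
      refine hprod.trans ?_
      rw [hwK]
      have : (1 : ℝ) ≤ w ^ 2 := one_le_pow₀ hw1
      (clear * - hprod hprod0 hnb; nlinarith)
    (clear * - h2; linarith)
  · refine le_trans ?_ hmain.2
    have h1 : c1 / 2 * X / Real.log w ^ k ≤
        1 / 2 * X * ∏ q ∈ pU P w, (1 - ν q / q) := by
      calc c1 / 2 * X / Real.log w ^ k = 1 / 2 * X * (c1 / Real.log w ^ k) := by ring
        _ ≤ _ := by
            apply mul_le_mul_of_nonneg_left _ (by (clear * - hX; positivity))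
            exact hPw
    have h2 : E * (((nb w : ℕ) + 1) *
        ∏ j : Fin (nb w), (((k : ℝ) + 1) * ((pb P w j).card : ℝ) + 1) ^ (2 * (b + (j : ℕ)) + 1)) ≤
        E * w ^ (K0 + 2) := by
      apply mul_le_mul_of_nonneg_left _ hE
      rw [hwK, mul_comm (w ^ K0)]
      exact mul_le_mul hnb hprod hprod0 (by positivity)
    (clear * - h1 h2; linarith)

end Pool.Agent.M17.Helper96.CPAP
end

/- Helper53.KN.Helper52.QRH.Duality -/
section
/-! Project QRH, module A5: the duality inequality with the Lorentz weight. -/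

set_option autoImplicit false
open Filter Topology MeasureTheory

namespace Pool.Agent.M17.Helper52.QRH

open Pool.Agent.M17.Helper10.QRH

open scoped FourierTransform

lemma integral_split {f : ℝ → ℂ} (h1 : IntegrableOn f (Set.Iic 0)) (h2 : IntegrableOn f (Set.Ioi 0)) :
    ∫ x, f x = (∫ x in Set.Iic 0, f x) + ∫ x in Set.Ioi 0, f x := by
  rw [← setIntegral_union _ measurableSet_Ioi h1 h2, Set.Iic_union_Ioi, setIntegral_univ]
  exact Set.Iic_disjoint_Ioi le_rfl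

lemma expabs_integrable : Integrable (fun x : ℝ => Complex.exp ((-|x| : ℝ) : ℂ)) := by
  have h1 : IntegrableOn (fun x : ℝ => Complex.exp ((-|x| : ℝ) : ℂ)) (Set.Iic 0) := by
    have := integrableOn_exp_mul_complex_Iic (a := 1) (by simp) 0
    refine this.congr_fun (fun x hx => ?_) measurableSet_Iic
    simp only [Set.mem_Iic] at hx
    simp [abs_of_nonpos hx]
  have h2 : IntegrableOn (fun x : ℝ => Complex.exp ((-|x| : ℝ) : ℂ)) (Set.Ioi 0) := by
    have := integrableOn_exp_mul_complex_Ioi (a := -1) (by simp) 0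
    refine this.congr_fun (fun x hx => ?_) measurableSet_Ioi
    simp only [Set.mem_Ioi] at hx
    simp [abs_of_pos hx]
  have := h1.union h2
  rwa [Set.Iic_union_Ioi, integrableOn_univ] at this

lemma fourier_expabs (w : ℝ) :
    𝓕 (fun x : ℝ => Complex.exp ((-|x| : ℝ) : ℂ)) w = 2 / (1 + (2 * Real.pi * w) ^ 2) := by
  rw [Real.fourier_real_eq_integral_exp_smul]
  set c : ℂ := (2 * Real.pi * w : ℝ) * Complex.I with hc
  have hcre : c.re = 0 := by simp [hc]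
  have e1 : Set.EqOn (fun x : ℝ => Complex.exp ((1 - c) * x))
      (fun v : ℝ => Complex.exp (↑(-2 * Real.pi * v * w) * Complex.I) • Complex.exp ((-|v| : ℝ) : ℂ))
      (Set.Iic 0) := by
    intro x hx
    simp only [Set.mem_Iic] at hx
    simp only [smul_eq_mul]
    rw [← Complex.exp_add, abs_of_nonpos hx]
    congr 1
    rw [hc]; push_cast; ring
  have e2 : Set.EqOn (fun x : ℝ => Complex.exp ((-1 - c) * x))
      (fun v : ℝ => Complex.exp (↑(-2 * Real.pi * v * w) * Complex.I) • Complex.exp ((-|v| : ℝ) : ℂ))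
      (Set.Ioi 0) := by
    intro x hx
    simp only [Set.mem_Ioi] at hx
    simp only [smul_eq_mul]
    rw [← Complex.exp_add, abs_of_pos hx]
    congr 1
    rw [hc]; push_cast; ring
  have r1 : 0 < (1 - c).re := by simp [hcre]
  have r2 : (-1 - c).re < 0 := by simp [hcre]
  rw [integral_split ((integrableOn_exp_mul_complex_Iic r1 0).congr_fun e1 measurableSet_Iic)
    ((integrableOn_exp_mul_complex_Ioi r2 0).congr_fun e2 measurableSet_Ioi),
    ← setIntegral_congr_fun measurableSet_Iic e1, ← setIntegral_congr_fun measurableSet_Ioi e2,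
    integral_exp_mul_complex_Iic r1, integral_exp_mul_complex_Ioi r2]
  have n1 : (1 - c) ≠ 0 := fun h => by rw [h] at r1; simp at r1
  have n2 : (-1 - c) ≠ 0 := fun h => by rw [h] at r2; simp at r2
  have n3 : (1 + (2 * (Real.pi : ℂ) * w) ^ 2) = -((1 - c) * (-1 - c)) := by
    have hI : Complex.I ^ 2 = -1 := Complex.I_sq
    rw [hc]; push_cast
    linear_combination ((2 * (Real.pi : ℂ) * w) ^ 2) * hI
  rw [n3]
  simp only [Complex.ofReal_zero, mul_zero, Complex.exp_zero]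
  field_simp
  ring

lemma lorentz_integrable {lam : ℝ} (hl : 0 < lam) : Integrable (fun t : ℝ => 1 / (1 + (lam * t) ^ 2)) := by
  have := integrable_inv_one_add_sq.comp_mul_left' hl.ne'
  simpa [one_div] using this

lemma fourier_lorentz {lam : ℝ} (hl : 0 < lam) (v : ℝ) :
    ∫ t : ℝ, (1 / (1 + (lam * t) ^ 2) : ℝ) * Complex.exp (t * v * Complex.I) =
      Real.pi / lam * Complex.exp ((-(|v| / lam) : ℝ) : ℂ) := by
  have hint : Integrable (𝓕 (fun x : ℝ => Complex.exp ((-|x| : ℝ) : ℂ))) := by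
    have := (integrable_inv_one_add_sq.comp_mul_left' (R := 2 * Real.pi) (by positivity)).ofReal (𝕜 := ℂ)
    refine (this.const_mul 2).congr (Filter.Eventually.of_forall fun w => ?_)
    simp only [fourier_expabs]
    push_cast
    rw [div_eq_mul_inv]
    rfl
  have inv := Continuous.fourierInv_fourier_eq (f := fun x : ℝ => Complex.exp ((-|x| : ℝ) : ℂ))
    (by fun_prop) expabs_integrable hint
  have inv' := congrFun inv (v / lam)
  rw [Real.fourierInv_eq'] at inv'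
  simp only [fourier_expabs] at inv'
  have key := Measure.integral_comp_mul_left
    (fun t : ℝ => ((1 / (1 + (lam * t) ^ 2) : ℝ) : ℂ) * Complex.exp (t * v * Complex.I)) (2 * Real.pi / lam)
  have hp : (0 : ℝ) < 2 * Real.pi / lam := by (clear * - hl; positivity)
  have e : ∀ x : ℝ, ((1 / (1 + (lam * (2 * Real.pi / lam * x)) ^ 2) : ℝ) : ℂ) *
      Complex.exp (((2 * Real.pi / lam * x : ℝ) : ℂ) * v * Complex.I) =
      (1 / 2 : ℂ) * (Complex.exp (((2 * Real.pi * inner ℝ x (v / lam) : ℝ) : ℂ) * Complex.I) •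
        (2 / (1 + (2 * (Real.pi : ℂ) * x) ^ 2))) := by
    intro x
    have hx : lam * (2 * Real.pi / lam * x) = 2 * Real.pi * x := by (clear * - hl; field_simp)
    rw [hx, smul_eq_mul]
    have hi : (((2 * Real.pi / lam * x : ℝ) : ℂ) * v * Complex.I) =
        (((2 * Real.pi * inner ℝ x (v / lam) : ℝ) : ℂ) * Complex.I) := by
      simp only [RCLike.inner_apply, conj_trivial]
      push_cast
      ring
    rw [hi]
    push_cast
    ring
  simp only [e] at key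
  rw [integral_const_mul, inv', abs_of_pos (inv_pos.2 hp)] at key
  have hlc : (lam : ℂ) ≠ 0 := by exact_mod_cast hl.ne'
  have hpc : (Real.pi : ℂ) ≠ 0 := by exact_mod_cast Real.pi_pos.ne'
  have habs : |v / lam| = |v| / lam := by rw [abs_div, abs_of_pos hl]
  rw [habs] at key
  rw [Complex.real_smul] at key
  have : (((2 * Real.pi / lam)⁻¹ : ℝ) : ℂ) = (lam : ℂ) / (2 * Real.pi) := by
    push_cast
    rw [inv_div]
  rw [this] at key
  field_simp at key
  field_simp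
  linear_combination -key

lemma norm_fourier_lorentz {lam : ℝ} (hl : 0 < lam) (v : ℝ) :
    ‖∫ t : ℝ, ((1 / (1 + (lam * t) ^ 2) : ℝ) : ℂ) * Complex.exp (t * v * Complex.I)‖ =
      Real.pi / lam * Real.exp (-(|v| / lam)) := by
  rw [fourier_lorentz hl v, norm_mul, Complex.norm_exp_ofReal, norm_div, Complex.norm_real,
    Complex.norm_real, Real.norm_of_nonneg Real.pi_pos.le, Real.norm_of_nonneg hl.le]

/-- the constant in the packing bound -/
noncomputable def C0 : ℝ := Real.exp 1 * ∑' n : ℤ, Real.exp (-|(n : ℝ)|)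

lemma summable_exp_int : Summable (fun n : ℤ => Real.exp (-|(n : ℝ)|)) := by
  have h : Summable (fun n : ℕ => Real.exp (-(n : ℝ))) := by
    exact Real.summable_exp_neg_nat
  refine Summable.of_nat_of_neg ?_ ?_
  · simpa using h
  · simpa using h

lemma C0_pos : 0 < C0 := by
  unfold C0
  have : 0 < ∑' n : ℤ, Real.exp (-|(n : ℝ)|) := summable_exp_int.tsum_pos (fun _ => (Real.exp_pos _).le) 0 (Real.exp_pos _)
  positivity

lemma packing {lam : ℝ} (hl : 0 < lam) (R : Finset ℝ)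
    (hR : ∀ u ∈ R, ∀ u' ∈ R, u ≠ u' → lam ≤ |u - u'|) (u : ℝ) :
    ∑ u' ∈ R, Real.exp (-(|u - u'| / lam)) ≤ C0 := by
  have hinj : Set.InjOn (fun u' : ℝ => ⌊(u - u') / lam⌋) (R : Set ℝ) := by
    intro a ha b hb hab
    by_contra hne
    have h1 := hR a ha b hb hne
    have h2 := Int.abs_sub_lt_one_of_floor_eq_floor hab
    have h3 : (u - a) / lam - (u - b) / lam = (b - a) / lam := by ring
    rw [h3, abs_div, abs_of_pos hl, div_lt_one hl, abs_sub_comm] at h2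
    (clear * - h1 h2; linarith)
  calc ∑ u' ∈ R, Real.exp (-(|u - u'| / lam))
      ≤ ∑ u' ∈ R, Real.exp 1 * Real.exp (-|((⌊(u - u') / lam⌋ : ℤ) : ℝ)|) := by
        refine Finset.sum_le_sum fun u' _ => ?_
        rw [← Real.exp_add]
        apply Real.exp_le_exp.2
        have h1 := Int.floor_le ((u - u') / lam)
        have h2 := Int.lt_floor_add_one ((u - u') / lam)
        have h3 : |u - u'| / lam = |(u - u') / lam| := by rw [abs_div, abs_of_pos hl]
        rw [h3]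
        have h4 : |((⌊(u - u') / lam⌋ : ℤ) : ℝ)| ≤ |(u - u') / lam| + 1 := by
          rw [abs_le]
          constructor
          · have := neg_abs_le ((u - u') / lam)
            (clear * - h2 this; linarith)
          · have := le_abs_self ((u - u') / lam)
            (clear * - h1 this; linarith)
        (clear * - h4; linarith)
    _ = Real.exp 1 * ∑ n ∈ R.image (fun u' : ℝ => ⌊(u - u') / lam⌋), Real.exp (-|((n : ℤ) : ℝ)|) := by
        rw [Finset.sum_image hinj, Finset.mul_sum]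
    _ ≤ C0 := by
        unfold C0
        refine mul_le_mul_of_nonneg_left ?_ (Real.exp_pos 1).le
        exact summable_exp_int.sum_le_tsum _ (fun _ _ => (Real.exp_pos _).le)

lemma log_bound : ∃ C : ℝ, 0 < C ∧ ∀ x : ℝ, 1 + Real.log (2 + |x|) / Real.log 2 ≤ C * (1 + x ^ 2) ^ (1/8 : ℝ) := by
  refine ⟨1 + 8 * 3 / Real.log 2, by (clear * -; positivity), fun x => ?_⟩
  have hl2 : 0 < Real.log 2 := Real.log_pos (by norm_num)
  have h1 : (1 : ℝ) ≤ (1 + x ^ 2) ^ (1/8 : ℝ) := Real.one_le_rpow (by (clear * -; nlinarith [sq_nonneg x])) (by norm_num)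
  have h2 : Real.log (2 + |x|) ≤ 8 * 3 * (1 + x ^ 2) ^ (1/8 : ℝ) := by
    have h3 : 2 + |x| ≤ 3 * (1 + x ^ 2) := by
      have := sq_nonneg (|x| - 1)
      have h4 : |x| ^ 2 = x ^ 2 := sq_abs x
      (clear * - h4; nlinarith [abs_nonneg x])
    have h5 := Real.log_le_rpow_div (x := 2 + |x|) (by (clear * -; positivity)) (ε := 1/8) (by norm_num)
    have h6 : (2 + |x|) ^ (1/8 : ℝ) ≤ (3 * (1 + x ^ 2)) ^ (1/8 : ℝ) :=
      Real.rpow_le_rpow (by positivity) h3 (by norm_num)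
    rw [Real.mul_rpow (by norm_num) (by positivity)] at h6
    have h7 : (3 : ℝ) ^ (1/8 : ℝ) ≤ 3 := by
      calc (3 : ℝ) ^ (1/8 : ℝ) ≤ 3 ^ (1 : ℝ) := Real.rpow_le_rpow_of_exponent_le (by norm_num) (by norm_num)
        _ = 3 := Real.rpow_one 3
    have h8 : (0 : ℝ) < (1 + x ^ 2) ^ (1/8 : ℝ) := by (clear * - h1; linarith)
    (clear * - h5 h6 h7 h1; nlinarith)
  calc 1 + Real.log (2 + |x|) / Real.log 2 ≤ (1 + x ^ 2) ^ (1/8 : ℝ) + (8 * 3 * (1 + x ^ 2) ^ (1/8 : ℝ)) / Real.log 2 := by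
        gcongr
    _ = _ := by ring

/-- pointwise bound of the weighted square -/
lemma exists_C1 : ∃ C1 : ℝ, 0 < C1 ∧ ∀ lam : ℝ, 0 < lam → lam ≤ 1/2 →
    Integrable (fun t : ℝ => Real.log (2 + |t|) ^ 2 / (1 + (lam * t) ^ 2)) ∧
    ∫ t : ℝ, Real.log (2 + |t|) ^ 2 / (1 + (lam * t) ^ 2) ≤ C1 * Real.log (1 / lam) ^ 2 / lam := by
  obtain ⟨C, hC, hb⟩ := log_bound
  have hI : Integrable (fun x : ℝ => ((1 : ℝ) + ‖x‖ ^ 2) ^ (-(3/2 : ℝ) / 2)) :=
    integrable_rpow_neg_one_add_norm_sq (by simp; norm_num)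
  set I0 : ℝ := ∫ x : ℝ, ((1 : ℝ) + ‖x‖ ^ 2) ^ (-(3/2 : ℝ) / 2) with hI0
  have hI0n : 0 ≤ I0 := integral_nonneg fun x => by (clear * -; positivity)
  refine ⟨C ^ 2 * (I0 + 1), by (clear * - hC; positivity), fun lam hl hl2 => ?_⟩
  have hll : Real.log 2 ≤ Real.log (1 / lam) := by
    apply Real.log_le_log (by norm_num)
    rw [le_div_iff₀ hl]; (clear * - hl2; linarith)
  have hl2p : 0 < Real.log 2 := Real.log_pos (by norm_num)
  have hpt : ∀ t : ℝ, Real.log (2 + |t|) ^ 2 / (1 + (lam * t) ^ 2) ≤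
      (C ^ 2 * Real.log (1 / lam) ^ 2) * ((1 : ℝ) + ‖lam * t‖ ^ 2) ^ (-(3/2 : ℝ) / 2) := by
    intro t
    have h1 : Real.log (2 + |t|) ≤ Real.log (1 / lam) * (1 + Real.log (2 + |lam * t|) / Real.log 2) := by
      have h2 : 2 + |t| ≤ (1 / lam) * (2 + |lam * t|) := by
        rw [abs_mul, abs_of_pos hl]
        have : (1 / lam) * (2 + lam * |t|) = 2 / lam + |t| := by field_simp
        rw [this]
        have : 2 ≤ 2 / lam := by rw [le_div_iff₀ hl]; (clear * - hl hl2; linarith)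
        (clear * - this; linarith)
      have h3 : Real.log (2 + |t|) ≤ Real.log (1 / lam) + Real.log (2 + |lam * t|) := by
        rw [← Real.log_mul (by positivity) (by (clear * -; positivity))]
        exact Real.log_le_log (by positivity) h2
      have h4 : 0 ≤ Real.log (2 + |lam * t|) := Real.log_nonneg (by (clear * - hl hl2; linarith [abs_nonneg (lam * t)]))
      have h5 : Real.log (2 + |lam * t|) ≤ Real.log (1 / lam) * (Real.log (2 + |lam * t|) / Real.log 2) := by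
        rw [mul_div_assoc', le_div_iff₀ hl2p]
        (clear * - hl hl2 hll h4; nlinarith)
      (clear * - h3 h5; linarith)
    have h6 := hb (lam * t)
    have h7 : Real.log (2 + |t|) ≤ Real.log (1 / lam) * (C * (1 + (lam * t) ^ 2) ^ (1/8 : ℝ)) :=
      h1.trans (mul_le_mul_of_nonneg_left h6 (by (clear * - hll hl2p; linarith)))
    have h8 : 0 ≤ Real.log (2 + |t|) := Real.log_nonneg (by (clear * - hl hl2; linarith [abs_nonneg t]))
    have hpos : (0 : ℝ) < 1 + (lam * t) ^ 2 := by positivity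
    rw [div_le_iff₀ hpos]
    have h9 : (1 : ℝ) + ‖lam * t‖ ^ 2 = 1 + (lam * t) ^ 2 := by rw [Real.norm_eq_abs, sq_abs]
    rw [h9]
    calc Real.log (2 + |t|) ^ 2 ≤ (Real.log (1 / lam) * (C * (1 + (lam * t) ^ 2) ^ (1/8 : ℝ))) ^ 2 :=
          pow_le_pow_left₀ h8 h7 2
      _ = C ^ 2 * Real.log (1 / lam) ^ 2 * ((1 + (lam * t) ^ 2) ^ (1/8 : ℝ)) ^ 2 := by ring
      _ = C ^ 2 * Real.log (1 / lam) ^ 2 * ((1 + (lam * t) ^ 2) ^ (-(3/2 : ℝ) / 2) * (1 + (lam * t) ^ 2)) := by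
          congr 1
          rw [← Real.rpow_natCast, ← Real.rpow_mul hpos.le]
          nth_rewrite 3 [← Real.rpow_one (1 + (lam * t) ^ 2)]
          rw [← Real.rpow_add hpos]
          norm_num
      _ = _ := by ring
  have hI2 : Integrable (fun t : ℝ => (C ^ 2 * Real.log (1 / lam) ^ 2) *
      ((1 : ℝ) + ‖lam * t‖ ^ 2) ^ (-(3/2 : ℝ) / 2)) :=
    (hI.comp_mul_left' hl.ne').const_mul _
  have hint : Integrable (fun t : ℝ => Real.log (2 + |t|) ^ 2 / (1 + (lam * t) ^ 2)) := by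
    refine hI2.mono' ?_ (Filter.Eventually.of_forall fun t => ?_)
    · apply Measurable.aestronglyMeasurable
      fun_prop
    · rw [Real.norm_of_nonneg (by (clear * -; positivity))]
      exact hpt t
  refine ⟨hint, ?_⟩
  calc ∫ t : ℝ, Real.log (2 + |t|) ^ 2 / (1 + (lam * t) ^ 2)
      ≤ ∫ t : ℝ, (C ^ 2 * Real.log (1 / lam) ^ 2) * ((1 : ℝ) + ‖lam * t‖ ^ 2) ^ (-(3/2 : ℝ) / 2) :=
        integral_mono hint hI2 hpt
    _ = (C ^ 2 * Real.log (1 / lam) ^ 2) * (lam⁻¹ * I0) := by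
        rw [integral_const_mul]
        congr 1
        have := Measure.integral_comp_mul_left (fun x : ℝ => ((1 : ℝ) + ‖x‖ ^ 2) ^ (-(3/2 : ℝ) / 2)) lam
        rw [this, abs_of_pos (inv_pos.2 hl), smul_eq_mul]
    _ ≤ C ^ 2 * (I0 + 1) * Real.log (1 / lam) ^ 2 / lam := by
        have : 0 < lam⁻¹ := inv_pos.2 hl
        have h : 0 ≤ C ^ 2 * Real.log (1 / lam) ^ 2 * lam⁻¹ := by (clear * - hC hl; positivity)
        have e : C ^ 2 * (I0 + 1) * Real.log (1 / lam) ^ 2 / lam =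
          C ^ 2 * Real.log (1 / lam) ^ 2 * lam⁻¹ * (I0 + 1) := by rw [div_eq_mul_inv]; ring
        rw [e]
        (clear * - h; nlinarith)

/-- the weighted second moment of an exponential polynomial -/
lemma second_moment {lam : ℝ} (hl : 0 < lam) (R : Finset ℝ)
    (hR : ∀ u ∈ R, ∀ u' ∈ R, u ≠ u' → lam ≤ |u - u'|) (ε : ℝ → ℂ) (hε : ∀ u, ‖ε u‖ = 1) :
    Integrable (fun t : ℝ => 1 / (1 + (lam * t) ^ 2) *
      ‖∑ u ∈ R, ε u * Complex.exp (t * u * Complex.I)‖ ^ 2) ∧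
    ∫ t : ℝ, 1 / (1 + (lam * t) ^ 2) * ‖∑ u ∈ R, ε u * Complex.exp (t * u * Complex.I)‖ ^ 2 ≤
      Real.pi / lam * R.card * C0 := by
  have hexpand : ∀ t : ℝ, ((1 / (1 + (lam * t) ^ 2) *
      ‖∑ u ∈ R, ε u * Complex.exp (t * u * Complex.I)‖ ^ 2 : ℝ) : ℂ) =
      ∑ u ∈ R, ∑ u' ∈ R, (ε u * (starRingEnd ℂ) (ε u')) *
        (((1 / (1 + (lam * t) ^ 2) : ℝ) : ℂ) * Complex.exp (t * (u - u' : ℝ) * Complex.I)) := by
    intro t
    have h1 : ((‖∑ u ∈ R, ε u * Complex.exp (t * u * Complex.I)‖ ^ 2 : ℝ) : ℂ) =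
        (∑ u ∈ R, ε u * Complex.exp (t * u * Complex.I)) *
          (starRingEnd ℂ) (∑ u ∈ R, ε u * Complex.exp (t * u * Complex.I)) := by
      rw [Complex.mul_conj, Complex.normSq_eq_norm_sq]
    rw [Complex.ofReal_mul, h1, map_sum, Finset.sum_mul_sum, Finset.mul_sum]
    refine Finset.sum_congr rfl fun u _ => ?_
    rw [Finset.mul_sum]
    refine Finset.sum_congr rfl fun u' _ => ?_
    rw [map_mul, ← Complex.exp_conj]
    have h2 : (starRingEnd ℂ) (t * u' * Complex.I) = -(t * u' * Complex.I) := by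
      simp
    have h3 : Complex.exp (t * (u - u' : ℝ) * Complex.I) =
        Complex.exp (t * u * Complex.I) * Complex.exp (-(t * u' * Complex.I)) := by
      rw [← Complex.exp_add]; congr 1; push_cast; ring
    rw [h2, h3]
    ring
  have hint1 : ∀ v : ℝ, Integrable (fun t : ℝ => ((1 / (1 + (lam * t) ^ 2) : ℝ) : ℂ) *
      Complex.exp (t * v * Complex.I)) := by
    intro v
    have h := (lorentz_integrable hl).ofReal (𝕜 := ℂ)
    refine h.mul_bdd (c := 1) ?_ ?_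
    · exact Continuous.aestronglyMeasurable (by fun_prop)
    · refine Filter.Eventually.of_forall fun t => ?_
      have : (t * v * Complex.I : ℂ) = ((t * v : ℝ) : ℂ) * Complex.I := by push_cast; ring
      rw [this, Complex.norm_exp_ofReal_mul_I]
  have hintc : Integrable (fun t : ℝ => ((1 / (1 + (lam * t) ^ 2) *
      ‖∑ u ∈ R, ε u * Complex.exp (t * u * Complex.I)‖ ^ 2 : ℝ) : ℂ)) := by
    simp only [hexpand]
    refine integrable_finsetSum _ fun u _ => integrable_finsetSum _ fun u' _ => ?_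
    exact (hint1 (u - u')).const_mul _
  refine ⟨?_, ?_⟩
  · exact hintc.re
  · have h1 : ((∫ t : ℝ, 1 / (1 + (lam * t) ^ 2) *
        ‖∑ u ∈ R, ε u * Complex.exp (t * u * Complex.I)‖ ^ 2 : ℝ) : ℂ) =
        ∑ u ∈ R, ∑ u' ∈ R, (ε u * (starRingEnd ℂ) (ε u')) *
          ∫ t : ℝ, (((1 / (1 + (lam * t) ^ 2) : ℝ) : ℂ) * Complex.exp (t * (u - u' : ℝ) * Complex.I)) := by
      rw [← integral_complex_ofReal]
      simp only [hexpand]
      rw [integral_finsetSum _ (fun u _ => integrable_finsetSum _ fun u' _ => (hint1 (u - u')).const_mul _)]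
      refine Finset.sum_congr rfl fun u _ => ?_
      rw [integral_finsetSum _ (fun u' _ => (hint1 (u - u')).const_mul _)]
      refine Finset.sum_congr rfl fun u' _ => ?_
      rw [integral_const_mul]
    have h2 : ∫ t : ℝ, 1 / (1 + (lam * t) ^ 2) *
        ‖∑ u ∈ R, ε u * Complex.exp (t * u * Complex.I)‖ ^ 2 ≤
        ‖((∫ t : ℝ, 1 / (1 + (lam * t) ^ 2) *
        ‖∑ u ∈ R, ε u * Complex.exp (t * u * Complex.I)‖ ^ 2 : ℝ) : ℂ)‖ := by
      rw [Complex.norm_real]; exact le_abs_self _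
    refine h2.trans ?_
    rw [h1]
    calc _ ≤ ∑ u ∈ R, ∑ u' ∈ R, Real.pi / lam * Real.exp (-(|u - u'| / lam)) := by
          refine (norm_sum_le _ _).trans (Finset.sum_le_sum fun u _ => ?_)
          refine (norm_sum_le _ _).trans (Finset.sum_le_sum fun u' _ => ?_)
          rw [norm_mul, norm_fourier_lorentz hl, norm_mul, hε, RCLike.norm_conj, hε]
          simp
      _ ≤ ∑ u ∈ R, Real.pi / lam * C0 := by
          refine Finset.sum_le_sum fun u _ => ?_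
          rw [← Finset.mul_sum]
          exact mul_le_mul_of_nonneg_left (packing hl R hR u) (by positivity)
      _ = Real.pi / lam * R.card * C0 := by
          rw [Finset.sum_const, nsmul_eq_mul]; ring

lemma exists_phase (z : ℂ) : ∃ ε : ℂ, ‖ε‖ = 1 ∧ ε * z = ‖z‖ := by
  by_cases hz : z = 0
  · exact ⟨1, by simp, by simp [hz]⟩
  · refine ⟨(starRingEnd ℂ) z / ‖z‖, ?_, ?_⟩
    · have : ‖z‖ ≠ 0 := by simpa using hz
      rw [norm_div, RCLike.norm_conj, Complex.norm_real, norm_norm, div_self this]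
    · have : (‖z‖ : ℂ) ≠ 0 := by simpa using hz
      rw [div_mul_eq_mul_div, div_eq_iff this, mul_comm, Complex.mul_conj, Complex.normSq_eq_norm_sq]
      push_cast; ring

theorem duality : Duality := by
  obtain ⟨C1, hC1, h1⟩ := exists_C1
  refine ⟨Real.sqrt (C1 * (Real.pi * C0)), fun lam hl hl2 g hg B hB hgb R hR => ?_⟩
  obtain ⟨hI1, hI1b⟩ := h1 lam hl hl2
  have hll : 0 < Real.log (1 / lam) := Real.log_pos (by rw [lt_div_iff₀ hl]; (clear * - hl hl2; linarith))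
  have hC0 := C0_pos
  choose ph hph1 hph2 using exists_phase
  -- integrability of g
  have hlog : ∀ t : ℝ, 0 ≤ Real.log (2 + |t|) := fun t => Real.log_nonneg (by (clear * - hl hl2; linarith [abs_nonneg t]))
  have hlor := lorentz_integrable hl
  have hbig : Integrable (fun t : ℝ => B / (1 + (lam * t) ^ 2) * Real.log (2 + |t|)) := by
    refine ((hlor.add hI1).const_mul B).mono' ?_ (Filter.Eventually.of_forall fun t => ?_)
    · apply Measurable.aestronglyMeasurable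
      fun_prop
    · rw [Real.norm_of_nonneg (mul_nonneg (by positivity) (hlog t))]
      simp only [Pi.add_apply]
      have hp : (0 : ℝ) < 1 + (lam * t) ^ 2 := by positivity
      have : B / (1 + (lam * t) ^ 2) * Real.log (2 + |t|) =
          B * (Real.log (2 + |t|) / (1 + (lam * t) ^ 2)) := by ring
      rw [this]
      refine mul_le_mul_of_nonneg_left ?_ hB
      rw [← add_div]
      refine div_le_div_of_nonneg_right ?_ hp.le
      (clear * - hl hl2; nlinarith [sq_nonneg (Real.log (2 + |t|) - 1/2)])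
  have hgi : Integrable g :=
    hbig.mono' hg.aestronglyMeasurable (Filter.Eventually.of_forall hgb)
  have hgi' : ∀ u : ℝ, Integrable (fun t : ℝ => g t * Complex.exp (t * u * Complex.I)) := by
    intro u
    refine hgi.mul_bdd (c := 1) ?_ ?_
    · exact Continuous.aestronglyMeasurable (by fun_prop)
    · refine Filter.Eventually.of_forall fun t => ?_
      have : (t * u * Complex.I : ℂ) = ((t * u : ℝ) : ℂ) * Complex.I := by push_cast; ring
      rw [this, Complex.norm_exp_ofReal_mul_I]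
  set ε : ℝ → ℂ := fun u => ph (∫ t : ℝ, g t * Complex.exp (t * u * Complex.I)) with hε
  obtain ⟨hI2, hI2b⟩ := second_moment hl R hR ε (fun u => hph1 _)
  set S : ℝ → ℂ := fun t => ∑ u ∈ R, ε u * Complex.exp (t * u * Complex.I) with hS
  have hsum : ((∑ u ∈ R, ‖∫ t : ℝ, g t * Complex.exp (t * u * Complex.I)‖ : ℝ) : ℂ) =
      ∫ t : ℝ, g t * S t := by
    push_cast
    have : ∀ t : ℝ, g t * S t = ∑ u ∈ R, ε u * (g t * Complex.exp (t * u * Complex.I)) := by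
      intro t
      rw [hS]; simp only [Finset.mul_sum]
      refine Finset.sum_congr rfl fun u _ => by ring
    simp only [this]
    rw [integral_finsetSum _ (fun u _ => (hgi' u).const_mul _)]
    refine Finset.sum_congr rfl fun u _ => ?_
    rw [integral_const_mul, hε]
    exact (hph2 _).symm
  -- trivial cases
  set X0 : ℝ := B ^ 2 * (C1 * Real.log (1 / lam) ^ 2 / lam) with hX0
  set Y0 : ℝ := Real.pi / lam * R.card * C0 with hY0
  rcases Nat.eq_zero_or_pos R.card with hR0 | hR0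
  · rw [Finset.card_eq_zero.1 hR0]; simp
  rcases hB.eq_or_lt with hB0 | hB0
  · have : ∀ t, g t = 0 := by
      intro t
      have := hgb t
      rw [← hB0] at this
      simpa using this
    simp [this, ← hB0]
  have hX0p : 0 < X0 := by positivity
  have hY0p : 0 < Y0 := by
    have : (0 : ℝ) < R.card := by exact_mod_cast hR0
    (clear * - hl hR0 hC0; positivity)
  have hamgm : ∀ a : ℝ, 0 < a → ∑ u ∈ R, ‖∫ t : ℝ, g t * Complex.exp (t * u * Complex.I)‖ ≤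
      a / 2 * X0 + 1 / (2 * a) * Y0 := by
    intro a ha
    have e1 : ∑ u ∈ R, ‖∫ t : ℝ, g t * Complex.exp (t * u * Complex.I)‖ ≤ ∫ t : ℝ, ‖g t * S t‖ := by
      have h2 : ∑ u ∈ R, ‖∫ t : ℝ, g t * Complex.exp (t * u * Complex.I)‖ ≤
        ‖((∑ u ∈ R, ‖∫ t : ℝ, g t * Complex.exp (t * u * Complex.I)‖ : ℝ) : ℂ)‖ := by
        rw [Complex.norm_real]; exact le_abs_self _
      rw [hsum] at h2
      exact h2.trans (norm_integral_le_integral_norm _)
    refine e1.trans ?_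
    have hi : Integrable (fun t : ℝ => (a / 2 * B ^ 2) * (Real.log (2 + |t|) ^ 2 / (1 + (lam * t) ^ 2)) +
        1 / (2 * a) * (1 / (1 + (lam * t) ^ 2) * ‖S t‖ ^ 2)) :=
      (hI1.const_mul _).add (hI2.const_mul _)
    calc ∫ t : ℝ, ‖g t * S t‖ ≤ ∫ t : ℝ, ((a / 2 * B ^ 2) * (Real.log (2 + |t|) ^ 2 / (1 + (lam * t) ^ 2)) +
        1 / (2 * a) * (1 / (1 + (lam * t) ^ 2) * ‖S t‖ ^ 2)) := by
          refine integral_mono_of_nonneg (Filter.Eventually.of_forall fun t => norm_nonneg _) hi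
            (Filter.Eventually.of_forall fun t => ?_)
          simp only
          rw [norm_mul]
          have hp : (0 : ℝ) < 1 + (lam * t) ^ 2 := by (clear * -; positivity)
          have b1 : ‖g t‖ * ‖S t‖ ≤ B / (1 + (lam * t) ^ 2) * Real.log (2 + |t|) * ‖S t‖ :=
            mul_le_mul_of_nonneg_right (hgb t) (norm_nonneg _)
          refine b1.trans ?_
          have e : B / (1 + (lam * t) ^ 2) * Real.log (2 + |t|) * ‖S t‖ =
            (B * Real.log (2 + |t|) * ‖S t‖) / (1 + (lam * t) ^ 2) := by ring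
          have e' : (a / 2 * B ^ 2) * (Real.log (2 + |t|) ^ 2 / (1 + (lam * t) ^ 2)) +
            1 / (2 * a) * (1 / (1 + (lam * t) ^ 2) * ‖S t‖ ^ 2) =
            (a / 2 * (B * Real.log (2 + |t|)) ^ 2 + 1 / (2 * a) * ‖S t‖ ^ 2) / (1 + (lam * t) ^ 2) := by
            ring
          rw [e, e']
          refine div_le_div_of_nonneg_right ?_ hp.le
          have key : a / 2 * (B * Real.log (2 + |t|)) ^ 2 + 1 / (2 * a) * ‖S t‖ ^ 2 -
              B * Real.log (2 + |t|) * ‖S t‖ = 1 / (2 * a) * (a * (B * Real.log (2 + |t|)) - ‖S t‖) ^ 2 := by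
            field_simp
            ring
          have : 0 ≤ 1 / (2 * a) * (a * (B * Real.log (2 + |t|)) - ‖S t‖) ^ 2 := by (clear * - ha; positivity)
          (clear * - key this; linarith)
      _ = (a / 2 * B ^ 2) * (∫ t : ℝ, Real.log (2 + |t|) ^ 2 / (1 + (lam * t) ^ 2)) +
          1 / (2 * a) * ∫ t : ℝ, 1 / (1 + (lam * t) ^ 2) * ‖S t‖ ^ 2 := by
          rw [integral_add (hI1.const_mul _) (hI2.const_mul _), integral_const_mul, integral_const_mul]
      _ ≤ (a / 2 * B ^ 2) * (C1 * Real.log (1 / lam) ^ 2 / lam) + 1 / (2 * a) * Y0 := by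
          gcongr
      _ = a / 2 * X0 + 1 / (2 * a) * Y0 := by rw [hX0]; ring
  have hfin := hamgm (Real.sqrt (Y0 / X0)) (Real.sqrt_pos.2 (div_pos hY0p hX0p))
  refine hfin.trans (le_of_eq ?_)
  have hsX : Real.sqrt X0 = B * Real.log (1 / lam) * Real.sqrt (C1 / lam) := by
    have : X0 = (B * Real.log (1 / lam)) ^ 2 * (C1 / lam) := by rw [hX0]; ring
    rw [this, Real.sqrt_mul (sq_nonneg _), Real.sqrt_sq (by positivity)]
  have hsY : Real.sqrt Y0 = Real.sqrt (Real.pi * C0 / lam) * Real.sqrt R.card := by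
    have : Y0 = (Real.pi * C0 / lam) * R.card := by rw [hY0]; ring
    rw [this, Real.sqrt_mul (by positivity)]
  have hdiv : Real.sqrt (Y0 / X0) = Real.sqrt Y0 / Real.sqrt X0 := Real.sqrt_div hY0p.le _
  have hsXp : 0 < Real.sqrt X0 := Real.sqrt_pos.2 hX0p
  have hsYp : 0 < Real.sqrt Y0 := Real.sqrt_pos.2 hY0p
  have hX2 : X0 = Real.sqrt X0 * Real.sqrt X0 := (Real.mul_self_sqrt hX0p.le).symm
  have hY2 : Y0 = Real.sqrt Y0 * Real.sqrt Y0 := (Real.mul_self_sqrt hY0p.le).symm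
  have hval : Real.sqrt (Y0 / X0) / 2 * X0 + 1 / (2 * Real.sqrt (Y0 / X0)) * Y0 =
      Real.sqrt X0 * Real.sqrt Y0 := by
    rw [hdiv]
    generalize hx : Real.sqrt X0 = x at *
    generalize hy : Real.sqrt Y0 = y at *
    rw [hX2, hY2]
    field_simp
    ring
  rw [hval, hsX, hsY]
  have hl2' : Real.sqrt (C1 / lam) * Real.sqrt (Real.pi * C0 / lam) =
      Real.sqrt (C1 * (Real.pi * C0)) / lam := by
    rw [← Real.sqrt_mul (by positivity)]
    have : C1 / lam * (Real.pi * C0 / lam) = (C1 * (Real.pi * C0)) / lam ^ 2 := by ring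
    rw [this, Real.sqrt_div (by positivity), Real.sqrt_sq hl.le]
  calc B * Real.log (1 / lam) * Real.sqrt (C1 / lam) * (Real.sqrt (Real.pi * C0 / lam) * Real.sqrt R.card)
      = B * Real.log (1 / lam) * (Real.sqrt (C1 / lam) * Real.sqrt (Real.pi * C0 / lam)) * Real.sqrt R.card := by
        ring
    _ = _ := by rw [hl2']; ring

end Pool.Agent.M17.Helper52.QRH
end

/- Helper53.KN.Helper18.KSZ.NSpec -/
section
/-!
# Theorem N (zeros of zeta near the line 1): definitions and module statements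
(project KSZ, Section 3 of KS_H60_counting.md)
-/

set_option autoImplicit false

open Finset

namespace Pool.Agent.M17.Helper18.KSZ

/-- all prime factors are at most `w` -/
def smooth (w : ℝ) (n : ℕ) : Prop := ∀ p : ℕ, p.Prime → p ∣ n → (p : ℝ) ≤ w

/-- all prime factors are larger than `w` -/
def rough (w : ℝ) (n : ℕ) : Prop := ∀ p : ℕ, p.Prime → p ∣ n → w < (p : ℝ)

/-- multiplicity of a zero -/
noncomputable def mz (ρ : ℂ) : ℝ := (analyticOrderNatAt riemannZeta ρ : ℝ)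

/-! ## Classical inputs -/

/-- (A3), from the k-th derivative tests -/
def InA3 : Prop := ∀ A : ℝ, 1 ≤ A → ∃ c C : ℝ, 0 < c ∧ 0 < C ∧ ∀ (N N1 : ℕ) (t : ℝ),
  1 ≤ N → N < N1 → N1 ≤ 2 * N → (N : ℝ) ^ (1 / A) ≤ t → t ≤ (N : ℝ) ^ A →
  ‖∑ n ∈ Ioc N N1, (n : ℂ) ^ (-((t : ℂ) * Complex.I))‖ ≤ C * (N : ℝ) ^ (1 - c)

/-- (A9 iii), density lemma -/
def InA9 : Prop := ∃ C : ℝ, 0 < C ∧ ∀ t r : ℝ, 2 ≤ |t| → 0 < r → r ≤ 1 / 10 →
  ∀ Z : Finset ℂ, (∀ ρ ∈ Z, riemannZeta ρ = 0 ∧ ‖ρ - (1 + (t : ℂ) * Complex.I)‖ ≤ r) →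
  ∑ ρ ∈ Z, mz ρ ≤ C * (1 + r * Real.log (|t| + 2))

/-- (A10), zero-free region with a large constant -/
def InA10 : Prop := ∀ C0 : ℝ, ∃ T0 : ℝ, 2 ≤ T0 ∧ ∀ ρ : ℂ, riemannZeta ρ = 0 → T0 ≤ |ρ.im| →
  ρ.re ≤ 1 - C0 / Real.log |ρ.im|

/-! ## N1: the sieve weights -/

/-- `beta` -/
noncomputable def bet (lam : ℕ → ℝ) (n : ℕ) : ℝ := ∑ d ∈ n.divisors, lam d

/-- upper bound sieve weights of level `w ^ K` -/
structure SW (K C w : ℝ) (lam : ℕ → ℝ) : Prop where
  one : lam 1 = 1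
  abs_le : ∀ d, |lam d| ≤ 1
  supp : ∀ d, lam d ≠ 0 → 0 < d ∧ smooth w d ∧ (d : ℝ) ≤ w ^ K
  nonneg : ∀ n, 0 < n → 0 ≤ bet lam n
  small : ∀ x : ℝ, 0 ≤ x → w ^ x ≤ 11 / 10 → ∀ S : Finset ℕ, (∀ n ∈ S, 1 < n ∧ smooth w n) →
    ∑ n ∈ S, bet lam n * (n : ℝ) ^ (x - 1) ≤ 1 / 8
  mean : |∑ d ∈ Icc 1 ⌊w ^ K⌋₊, lam d / d| ≤ C / Real.log w

/-- N1 -/
def SieveWeights : Prop := ∃ K C : ℝ, 1 ≤ K ∧ 0 < C ∧ ∀ w : ℝ, 2 ≤ w → ∃ lam : ℕ → ℝ, SW K C w lam

open Classical in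
/-- the explicit Brun-Hooley weights: at most `2 (b + j)` prime factors from the block
`pb Nat.Prime w j`, i.e. the primes in `(w ^ (1/2^(j+1)), w ^ (1/2^j)]` -/
noncomputable def lamE (b : ℕ) (w : ℝ) (d : ℕ) : ℝ :=
  if 0 < d ∧ smooth w d ∧ ∀ j < Helper44.nb w,
      (d.primeFactors ∩ Helper96.CPAP.pb Nat.Prime w j).card ≤ 2 * (b + j)
  then (ArithmeticFunction.moebius d : ℝ) else 0

/-- number of prime factors of `n` in block `j` -/
noncomputable def omB (w : ℝ) (j n : ℕ) : ℕ :=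
  (n.primeFactors ∩ Helper96.CPAP.pb Nat.Prime w j).card

/-- N1a -/
def LamBasic : Prop := ∀ (b : ℕ) (w : ℝ), 2 ≤ w →
  lamE b w 1 = 1 ∧ (∀ d, |lamE b w d| ≤ 1) ∧
  (∀ d, lamE b w d ≠ 0 → 0 < d ∧ smooth w d ∧ (d : ℝ) ≤ w ^ ((4 * b + 4 : ℕ) : ℝ)) ∧
  (∀ n, 0 < n → 0 ≤ bet (lamE b w) n) ∧
  (∀ n, 0 < n → bet (lamE b w) n ≤ ∏ j ∈ range (Helper44.nb w),
    (if omB w j n = 0 then 1 else if omB w j n ≤ 2 * (b + j) then 0 else (2 : ℝ) ^ omB w j n))

/-- N1b -/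
def LamSmall : Prop := ∃ b0 : ℕ, ∀ b : ℕ, b0 ≤ b → ∀ w : ℝ, 2 ≤ w → ∀ x : ℝ, 0 ≤ x →
  w ^ x ≤ 11 / 10 → ∀ S : Finset ℕ, (∀ n ∈ S, 1 < n ∧ smooth w n) →
  ∑ n ∈ S, bet (lamE b w) n * (n : ℝ) ^ (x - 1) ≤ 1 / 8

/-- N1c -/
def LamMean : Prop := ∀ b : ℕ, ∃ C : ℝ, 0 < C ∧ ∀ w : ℝ, 2 ≤ w →
  |∑ d ∈ Icc 1 ⌊w ^ ((4 * b + 4 : ℕ) : ℝ)⌋₊, lamE b w d / d| ≤ C / Real.log w

/-! ## N2: coefficients of the mollified zeta function -/

open Classical in
/-- truncated Moebius function on rough integers -/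
noncomputable def mur (w D : ℝ) (d : ℕ) : ℝ :=
  if rough w d ∧ (d : ℝ) ≤ D then (ArithmeticFunction.moebius d : ℝ) else 0

/-- `alpha` -/
noncomputable def alp (w D : ℝ) (n : ℕ) : ℝ := ∑ d ∈ n.divisors, mur w D d

/-- coefficients of the mollifier `M1 M2` -/
noncomputable def cc (lam : ℕ → ℝ) (w D : ℝ) (d : ℕ) : ℝ :=
  ∑ x ∈ d.divisorsAntidiagonal, lam x.1 * mur w D x.2

open Classical in
/-- N2 -/
def Coeffs : Prop := ∀ (K C w : ℝ) (lam : ℕ → ℝ), 2 ≤ w → SW K C w lam → ∀ D : ℝ, 1 ≤ D →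
  cc lam w D 1 = 1 ∧ (∀ d, |cc lam w D d| ≤ 1) ∧
  (∀ d, cc lam w D d ≠ 0 → 0 < d ∧ (d : ℝ) ≤ w ^ K * D) ∧
  (∀ n, 0 < n → ∑ d ∈ n.divisors, cc lam w D d = bet lam n * alp w D n) ∧
  (∀ n : ℕ, 0 < n → (n : ℝ) ≤ D → alp w D n = if smooth w n then 1 else 0) ∧
  (∀ a m, 0 < a → 0 < m → smooth w a → rough w m →
    bet lam (a * m) = bet lam a ∧ alp w D (a * m) = alp w D m ∧
    |alp w D m| ≤ 2 ^ m.primeFactors.card)

/-! ## N3, N4: sums over rough integers, first factor of the duality argument -/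

open Classical in
/-- N3 (Mertens, Euler products over `factoredNumbers`) -/
def RoughSums : Prop := ∃ C : ℝ, 0 < C ∧ ∀ w Y : ℝ, 2 ≤ w → w ≤ Y →
  ∑ m ∈ (Icc 1 ⌊Y⌋₊).filter (rough w), 1 / (m : ℝ) ≤ C * (Real.log Y / Real.log w) ∧
  ∑ m ∈ (Icc 1 ⌊Y⌋₊).filter (rough w), 4 ^ m.primeFactors.card / (m : ℝ) ≤
    C * (Real.log Y / Real.log w) ^ 4

/-- N4 -/
def FirstFactor : Prop := ∀ K C : ℝ, 1 ≤ K → 0 < C → ∃ C' : ℝ, 0 < C' ∧ ∀ (w : ℝ) (lam : ℕ → ℝ),
  2 ≤ w → SW K C w lam → ∀ D Y : ℝ, 1 ≤ D → w ≤ Y →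
  ∑ n ∈ Icc 1 ⌊Y⌋₊, bet lam n / n ≤ C' * (Real.log Y / Real.log w) ∧
  ∑ n ∈ Icc 1 ⌊Y⌋₊, bet lam n * alp w D n ^ 2 / n ≤ C' * (Real.log Y / Real.log w) ^ 4

/-! ## N5, N6: exponential sums -/

/-- N5 -/
def ExpSum : Prop := ∃ c ε X0 : ℝ, 0 < c ∧ 0 < ε ∧ ∀ X : ℝ, X0 ≤ X → ∀ t : ℝ,
  X ^ (1 / 200 : ℝ) ≤ |t| → |t| ≤ X ^ (61 / 100 : ℝ) → ∀ M M' : ℕ, X ^ (3 / 200 : ℝ) ≤ M →
  M ≤ M' → (M' : ℝ) ≤ X ^ (4 : ℝ) → ∀ σ : ℝ, 1 - ε ≤ σ → σ ≤ 1 →
  ‖∑ n ∈ Ioc M M', (n : ℂ) ^ (-((σ : ℂ) + (t : ℂ) * Complex.I))‖ ≤ X ^ (-c)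

/-- N6: partial sums at a zero -/
def ZeroSum : Prop := ∃ c ε X0 : ℝ, 0 < c ∧ 0 < ε ∧ ∀ X : ℝ, X0 ≤ X → ∀ ρ : ℂ,
  riemannZeta ρ = 0 → 1 - ε ≤ ρ.re → X ^ (3 / 10 : ℝ) ≤ |ρ.im| → |ρ.im| ≤ X ^ (6 / 10 : ℝ) →
  ∀ M : ℕ, X ^ (1 / 10 : ℝ) ≤ M → (M : ℝ) ≤ X → ‖∑ n ∈ Icc 1 M, (n : ℂ) ^ (-ρ)‖ ≤ X ^ (-c)

/-! ## N7: detection of zeros -/

/-- N7 -/
def Detect : Prop := ∀ K C : ℝ, 1 ≤ K → 0 < C → ∃ ε X0 : ℝ, 0 < ε ∧ ∀ X : ℝ, X0 ≤ X →
  ∀ (w : ℝ) (lam : ℕ → ℝ), 2 ≤ w → w ^ K ≤ X ^ (1 / 100 : ℝ) → SW K C w lam →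
  ∀ ρ : ℂ, riemannZeta ρ = 0 → 1 - ε ≤ ρ.re → w ^ (1 - ρ.re) ≤ 11 / 10 →
  X ^ (3 / 10 : ℝ) ≤ |ρ.im| → |ρ.im| ≤ X ^ (6 / 10 : ℝ) →
  1 / 2 ≤ ‖∑ n ∈ Ioc ⌊X ^ (1 / 20 : ℝ)⌋₊ ⌊X ^ (1 / 5 : ℝ)⌋₊,
    ((bet lam n * alp w (X ^ (1 / 20 : ℝ)) n : ℝ) : ℂ) * (n : ℂ) ^ (-ρ)‖

/-! ## N8, N9, N10: the kernel of the duality argument -/

/-- trapezoid in `log y / log X`: zero outside `[1/40, 1/4]`, one on `[1/20, 1/5]` -/
noncomputable def trap (X y : ℝ) : ℝ :=
  max 0 (min 1 (min (40 * (Real.log y / Real.log X) - 1) (5 - 20 * (Real.log y / Real.log X))))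

/-- its integral against `y ^ (-s)` -/
noncomputable def Itr (X : ℝ) (s : ℂ) : ℂ :=
  (20 * ((X : ℂ) ^ ((1 - s) / 4) - (X : ℂ) ^ ((1 - s) / 5)) -
    40 * ((X : ℂ) ^ ((1 - s) / 20) - (X : ℂ) ^ ((1 - s) / 40))) /
    ((Real.log X : ℂ) * (1 - s) ^ 2)

/-- N8: inner sum, small ordinates -/
def InnerSmall : Prop := ∃ C X0 : ℝ, 0 < C ∧ ∀ X : ℝ, X0 ≤ X → ∀ d : ℕ, 1 ≤ d →
  (d : ℝ) ≤ X ^ (1 / 100 : ℝ) → ∀ s : ℂ, 9 / 10 ≤ s.re → s.re ≤ 1 → s ≠ 1 →
  ‖∑ m ∈ Icc 1 ⌊X⌋₊, (trap X ((d : ℝ) * m) : ℂ) * (m : ℂ) ^ (-s) - (d : ℂ) ^ (s - 1) * Itr X s‖ ≤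
    C * (1 + ‖s‖) * X ^ (-(1 / 100) : ℝ)

/-- N9: inner sum, large ordinates -/
def InnerLarge : Prop := ∃ c ε X0 : ℝ, 0 < c ∧ 0 < ε ∧ ∀ X : ℝ, X0 ≤ X → ∀ d : ℕ, 1 ≤ d →
  (d : ℝ) ≤ X ^ (1 / 100 : ℝ) → ∀ s : ℂ, 1 - ε ≤ s.re → s.re ≤ 1 →
  X ^ (1 / 200 : ℝ) ≤ |s.im| → |s.im| ≤ X ^ (61 / 100 : ℝ) →
  ‖∑ m ∈ Icc 1 ⌊X⌋₊, (trap X ((d : ℝ) * m) : ℂ) * (m : ℂ) ^ (-s)‖ ≤ X ^ (-c)

/-- the kernel -/
noncomputable def Ker (lam : ℕ → ℝ) (X : ℝ) (s : ℂ) : ℂ :=
  ∑ n ∈ Icc 1 ⌊X⌋₊, ((bet lam n * trap X n : ℝ) : ℂ) * (n : ℂ) ^ (-s)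

/-- N10 -/
def KerBound : Prop := ∀ K C : ℝ, 1 ≤ K → 0 < C → ∃ c ε C' X0 : ℝ, 0 < c ∧ 0 < ε ∧ 0 < C' ∧
  ∀ X : ℝ, X0 ≤ X → ∀ (w : ℝ) (lam : ℕ → ℝ), 2 ≤ w → w ^ K ≤ X ^ (1 / 100 : ℝ) → SW K C w lam →
  ∀ s : ℂ, 1 - ε ≤ s.re → s.re ≤ 1 → s.im ≠ 0 → |s.im| ≤ X ^ (61 / 100 : ℝ) →
  ‖Ker lam X s‖ ≤ C' * X ^ ((1 - s.re) / 4) / (Real.log w * Real.log X * s.im ^ 2) + X ^ (-c)

/-! ## N11: well spaced points -/

/-- N11 -/
def Spaced : Prop := ∀ δ : ℝ, 0 < δ → ∀ Γ : Finset ℂ,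
  (∀ ρ ∈ Γ, ∀ ρ' ∈ Γ, ρ ≠ ρ' → δ ≤ |ρ.im - ρ'.im|) →
  ∀ ρ ∈ Γ, ∑ ρ' ∈ Γ.erase ρ, 1 / (ρ.im - ρ'.im) ^ 2 ≤ 4 / δ ^ 2

/-! ## N12 - N15: density, multiplicity, final sum -/

/-- N12: log-free density of well spaced zeros -/
def Density : Prop := ∃ ε C X0 : ℝ, 0 < ε ∧ 0 < C ∧ ∀ X : ℝ, X0 ≤ X → ∀ c : ℝ, 1 ≤ c →
  c ≤ ε * Real.log X → ∀ Γ : Finset ℂ,
  (∀ ρ ∈ Γ, riemannZeta ρ = 0 ∧ 1 - c / Real.log X ≤ ρ.re ∧ X ^ (3 / 10 : ℝ) ≤ |ρ.im| ∧
    |ρ.im| ≤ X ^ (6 / 10 : ℝ)) →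
  (∀ ρ ∈ Γ, ∀ ρ' ∈ Γ, ρ ≠ ρ' → 1 / Real.log X ≤ |ρ.im - ρ'.im|) →
  (Γ.card : ℝ) ≤ C * c ^ 5 * Real.exp (c / 2)

/-- N13: with multiplicities, no spacing -/
def DensityM : Prop := ∃ ε C X0 : ℝ, 0 < ε ∧ 0 < C ∧ ∀ X : ℝ, X0 ≤ X → ∀ c : ℝ, 1 ≤ c →
  c ≤ ε * Real.log X → ∀ Z : Finset ℂ,
  (∀ ρ ∈ Z, riemannZeta ρ = 0 ∧ 1 - c / Real.log X ≤ ρ.re ∧ X ^ (3 / 10 : ℝ) ≤ |ρ.im| ∧
    |ρ.im| ≤ X ^ (6 / 10 : ℝ)) →
  ∑ ρ ∈ Z, mz ρ ≤ C * c ^ 6 * Real.exp (c / 2)

/-- N14: one level -/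
def OneLevel : Prop := ∃ ε : ℝ, 0 < ε ∧ ∀ η : ℝ, 0 < η → ∃ X0 : ℝ, ∀ X : ℝ, X0 ≤ X →
  ∀ Z : Finset ℂ, (∀ ρ ∈ Z, riemannZeta ρ = 0 ∧ 1 - ε ≤ ρ.re ∧ X ^ (3 / 10 : ℝ) ≤ |ρ.im| ∧
    |ρ.im| ≤ X ^ (6 / 10 : ℝ)) →
  ∑ ρ ∈ Z, mz ρ * X ^ (ρ.re - 1) ≤ η

/-- N15: Theorem N -/
def TheoremN : Prop := ∃ ε : ℝ, 0 < ε ∧ ∀ η : ℝ, 0 < η → ∃ X0 : ℝ, ∀ X : ℝ, X0 ≤ X →
  ∀ Z : Finset ℂ, (∀ ρ ∈ Z, riemannZeta ρ = 0 ∧ 1 - ε ≤ ρ.re ∧ |ρ.im| ≤ X ^ (6 / 10 : ℝ)) →
  ∑ ρ ∈ Z, mz ρ * X ^ (ρ.re - 1) ≤ η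

end Pool.Agent.M17.Helper18.KSZ
end

/- Helper53.KN.Helper94.KSZ.N5 -/
section
/-!
Project KSZ, module N5: exponential sums over long ranges.
-/

set_option autoImplicit false

open Finset

namespace Pool.Agent.M17.Helper94.KSZ

open Pool.Agent.M17.Helper18.KSZ

/-- Abel summation with decreasing weights -/
theorem abel_bound (a : ℕ → ℝ) (b : ℕ → ℂ) (N : ℕ) (B : ℝ) (N1 : ℕ) (hN : N < N1)
    (ha : ∀ n, N < n → n < N1 → a (n + 1) ≤ a n) (ha0 : ∀ n, N < n → n ≤ N1 → 0 ≤ a n)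
    (hB : ∀ k, N < k → k ≤ N1 → ‖∑ n ∈ Ioc N k, b n‖ ≤ B) :
    ‖∑ n ∈ Ioc N N1, (a n : ℂ) * b n‖ ≤ a (N + 1) * B := by
  have key : ∀ k, N + 1 ≤ k → k ≤ N1 →
      ‖∑ n ∈ Ioc N k, (a n : ℂ) * b n - (a k : ℂ) * ∑ n ∈ Ioc N k, b n‖ ≤
        (a (N + 1) - a k) * B := by
    intro k hk
    induction k, hk using Nat.le_induction with
    | base =>
      intro _
      simp
    | succ k hk ih =>
      intro hk1
      have h1 := ih (by omega)
      have h2 : ∑ n ∈ Ioc N (k + 1), (a n : ℂ) * b n - (a (k + 1) : ℂ) * ∑ n ∈ Ioc N (k + 1), b n =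
          (∑ n ∈ Ioc N k, (a n : ℂ) * b n - (a k : ℂ) * ∑ n ∈ Ioc N k, b n) +
            ((a k - a (k + 1) : ℝ) : ℂ) * ∑ n ∈ Ioc N k, b n := by
        rw [Finset.sum_Ioc_succ_top (by omega), Finset.sum_Ioc_succ_top (by omega)]
        push_cast
        ring
      rw [h2]
      refine (norm_add_le _ _).trans ?_
      have h3 := ha k (by omega) (by omega)
      have h4 : ‖((a k - a (k + 1) : ℝ) : ℂ) * ∑ n ∈ Ioc N k, b n‖ ≤ (a k - a (k + 1)) * B := by
        rw [norm_mul, Complex.norm_real, Real.norm_of_nonneg (by (clear * - h3; linarith))]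
        exact mul_le_mul_of_nonneg_left (hB k (by omega) (by omega)) (by (clear * - h3; linarith))
      (clear * - h1 h4; linarith)
  have h1 := key N1 hN le_rfl
  have h2 : ‖(a N1 : ℂ) * ∑ n ∈ Ioc N N1, b n‖ ≤ a N1 * B := by
    rw [norm_mul, Complex.norm_real, Real.norm_of_nonneg (ha0 N1 hN le_rfl)]
    exact mul_le_mul_of_nonneg_left (hB N1 hN le_rfl) (ha0 N1 hN le_rfl)
  have h3 : ∑ n ∈ Ioc N N1, (a n : ℂ) * b n =
      (∑ n ∈ Ioc N N1, (a n : ℂ) * b n - (a N1 : ℂ) * ∑ n ∈ Ioc N N1, b n) +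
        (a N1 : ℂ) * ∑ n ∈ Ioc N N1, b n := by ring
  rw [h3]
  refine (norm_add_le _ _).trans ?_
  (clear * - h1 h2; linarith)

/-- dyadic decomposition -/
theorem dyadic_bound (f : ℕ → ℂ) (B : ℝ) (hB : 0 ≤ B) (M' : ℕ) (P : ℕ → Prop)
    (hP : ∀ N, P N → P (2 * N))
    (hblock : ∀ N N1, P N → N < N1 → N1 ≤ 2 * N → N1 ≤ M' → ‖∑ n ∈ Ioc N N1, f n‖ ≤ B) :
    ∀ k : ℕ, ∀ M, P M → M ≤ M' → M' ≤ 2 ^ k * M → ‖∑ n ∈ Ioc M M', f n‖ ≤ k * B := by
  intro k
  induction k with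
  | zero =>
    intro M _ h1 h2
    have : M = M' := by
      rw [pow_zero, one_mul] at h2
      omega
    subst this
    simp
  | succ k ih =>
    intro M hM h1 h2
    rcases Nat.eq_or_lt_of_le h1 with h3 | h3
    · subst h3
      simp only [Finset.Ioc_self, Finset.sum_empty, norm_zero]
      (clear * - hB; positivity)
    rcases le_total M' (2 * M) with h4 | h4
    · have := hblock M M' hM h3 h4 le_rfl
      push_cast
      (clear * - this hB; nlinarith [this, (Nat.cast_nonneg k : (0 : ℝ) ≤ k)])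
    · have h5 : ∑ n ∈ Ioc M M', f n = ∑ n ∈ Ioc M (2 * M), f n + ∑ n ∈ Ioc (2 * M) M', f n := by
        rw [Finset.sum_Ioc_consecutive _ (by omega) h4]
      rw [h5]
      refine (norm_add_le _ _).trans ?_
      have h6 := ih (2 * M) (hP M hM) h4 (by rw [pow_succ] at h2; (clear * - h2; nlinarith))
      have h7 : ‖∑ n ∈ Ioc M (2 * M), f n‖ ≤ B := by
        rcases Nat.eq_zero_or_pos M with h8 | h8
        · subst h8
          simpa using hB
        · exact hblock M (2 * M) hM (by omega) le_rfl h4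
      push_cast
      (clear * - h6 h7; linarith)

theorem norm_conj_sum (S : Finset ℕ) (σ t : ℝ) :
    ‖∑ n ∈ S, (n : ℂ) ^ (-((σ : ℂ) + (t : ℂ) * Complex.I))‖ =
      ‖∑ n ∈ S, (n : ℂ) ^ (-((σ : ℂ) + ((-t : ℝ) : ℂ) * Complex.I))‖ := by
  rw [← Complex.norm_conj, map_sum]
  congr 1
  refine Finset.sum_congr rfl fun n _ => ?_
  have h1 : ((n : ℂ)).arg ≠ Real.pi := by
    rw [Complex.natCast_arg]
    exact Real.pi_pos.ne
  have h2 := Complex.cpow_conj (n : ℂ) (-((σ : ℂ) + (t : ℂ) * Complex.I)) h1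
  rw [Complex.conj_natCast] at h2
  rw [← h2]
  congr 1
  simp

theorem block_bound {c C : ℝ} (hc : 0 < c) (hC : 0 < C)
    (h3 : ∀ (N N1 : ℕ) (t : ℝ), 1 ≤ N → N < N1 → N1 ≤ 2 * N → (N : ℝ) ^ (1 / (800 : ℝ)) ≤ t →
      t ≤ (N : ℝ) ^ (800 : ℝ) →
      ‖∑ n ∈ Ioc N N1, (n : ℂ) ^ (-((t : ℂ) * Complex.I))‖ ≤ C * (N : ℝ) ^ (1 - c))
    {X t σ : ℝ} (hX : 1 ≤ X) (ht1 : X ^ (1 / 200 : ℝ) ≤ t) (ht2 : t ≤ X ^ (61 / 100 : ℝ))
    (hσ : 1 - c / 2 ≤ σ) (hσ0 : 0 ≤ σ) (N N1 : ℕ) (hN : X ^ (3 / 200 : ℝ) ≤ N) (hN1 : N < N1)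
    (hN2 : N1 ≤ 2 * N) (hN4 : (N : ℝ) ≤ X ^ (4 : ℝ)) :
    ‖∑ n ∈ Ioc N N1, (n : ℂ) ^ (-((σ : ℂ) + (t : ℂ) * Complex.I))‖ ≤
      C * X ^ (-(3 * c / 400)) := by
  have hX0 : (0 : ℝ) < X := by (clear * - hX; linarith)
  have hN0 : (1 : ℝ) ≤ N := (Real.one_le_rpow hX (by norm_num)).trans hN
  have hN0' : 1 ≤ N := by exact_mod_cast hN0
  have e1 : (N : ℝ) ^ (1 / (800 : ℝ)) ≤ t := by
    refine le_trans ?_ ht1
    calc (N : ℝ) ^ (1 / (800 : ℝ)) ≤ (X ^ (4 : ℝ)) ^ (1 / (800 : ℝ)) :=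
          Real.rpow_le_rpow (by (clear * - hN0; linarith)) hN4 (by norm_num)
      _ = X ^ (1 / 200 : ℝ) := by
          rw [← Real.rpow_mul hX0.le]
          norm_num
  have e2 : t ≤ (N : ℝ) ^ (800 : ℝ) := by
    refine ht2.trans ?_
    calc X ^ (61 / 100 : ℝ) ≤ X ^ (12 : ℝ) := Real.rpow_le_rpow_of_exponent_le hX (by norm_num)
      _ = (X ^ (3 / 200 : ℝ)) ^ (800 : ℝ) := by
          rw [← Real.rpow_mul hX0.le]
          norm_num
      _ ≤ (N : ℝ) ^ (800 : ℝ) := Real.rpow_le_rpow (by positivity) hN (by norm_num)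
  have e3 : ∑ n ∈ Ioc N N1, (n : ℂ) ^ (-((σ : ℂ) + (t : ℂ) * Complex.I)) =
      ∑ n ∈ Ioc N N1, (((n : ℝ) ^ (-σ) : ℝ) : ℂ) * (n : ℂ) ^ (-((t : ℂ) * Complex.I)) := by
    refine Finset.sum_congr rfl fun n hn => ?_
    rw [mem_Ioc] at hn
    have hn0 : (n : ℂ) ≠ 0 := by
      have : n ≠ 0 := by omega
      exact_mod_cast this
    rw [neg_add, Complex.cpow_add _ _ hn0, Complex.ofReal_cpow (by positivity)]
    simp
  rw [e3]
  have e4 := abel_bound (fun n => (n : ℝ) ^ (-σ)) (fun n => (n : ℂ) ^ (-((t : ℂ) * Complex.I))) N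
    (C * (N : ℝ) ^ (1 - c)) N1 hN1 (fun n h1 _ => by
      have h0 : (0 : ℝ) < n := by
        have : 0 < n := by omega
        exact_mod_cast this
      exact Real.rpow_le_rpow_of_nonpos h0 (by push_cast; (clear * -; linarith)) (by (clear * - hσ0; linarith)))
    (fun n _ _ => by (clear * -; positivity))
    (fun k h1 h2 => h3 N k t hN0' h1 (h2.trans hN2) e1 e2)
  refine e4.trans ?_
  have hNpos : (0 : ℝ) < N := by (clear * - hN0; linarith)
  have e5 : ((N + 1 : ℕ) : ℝ) ^ (-σ) ≤ (N : ℝ) ^ (-σ) :=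
    Real.rpow_le_rpow_of_nonpos hNpos (by push_cast; (clear * -; linarith)) (by (clear * - hσ0; linarith))
  calc ((N + 1 : ℕ) : ℝ) ^ (-σ) * (C * (N : ℝ) ^ (1 - c))
      ≤ (N : ℝ) ^ (-σ) * (C * (N : ℝ) ^ (1 - c)) := mul_le_mul_of_nonneg_right e5 (by positivity)
    _ = C * (N : ℝ) ^ (-σ + (1 - c)) := by
        rw [Real.rpow_add hNpos]
        ring
    _ ≤ C * (N : ℝ) ^ (-(c / 2)) := by
        refine mul_le_mul_of_nonneg_left ?_ hC.le
        exact Real.rpow_le_rpow_of_exponent_le hN0 (by (clear * - hσ; linarith))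
    _ ≤ C * (X ^ (3 / 200 : ℝ)) ^ (-(c / 2)) := by
        refine mul_le_mul_of_nonneg_left ?_ hC.le
        exact Real.rpow_le_rpow_of_nonpos (by positivity) hN (by (clear * - hc; linarith))
    _ = C * X ^ (-(3 * c / 400)) := by
        rw [← Real.rpow_mul hX0.le]
        congr 2
        ring

/-- N5 -/
theorem expSum (h : InA3) : ExpSum := by
  obtain ⟨c, C, hc, hC, h3⟩ := h 800 (by norm_num)
  have h0 : ∀ᶠ X : ℝ in Filter.atTop, (6 * Real.log X + 2) * C ≤ X ^ (3 * c / 800) := by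
    have e1 : (fun X : ℝ => (6 * Real.log X + 2) * C) =o[Filter.atTop] fun X => X ^ (3 * c / 800) := by
      have e2 : (fun X : ℝ => 6 * Real.log X) =o[Filter.atTop] fun X => X ^ (3 * c / 800) :=
        (isLittleO_log_rpow_atTop (by positivity)).const_mul_left 6
      have e3 : (fun _ : ℝ => (2 : ℝ)) =o[Filter.atTop] fun X => X ^ (3 * c / 800) := by
        refine Asymptotics.isLittleO_const_left.2 (Or.inr ?_)
        exact tendsto_norm_atTop_atTop.comp (tendsto_rpow_atTop (by positivity))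
      have e4 := (e2.add e3).const_mul_left C
      refine e4.congr_left fun X => by ring
    have e5 := e1.bound (c := 1) one_pos
    filter_upwards [e5, Filter.eventually_gt_atTop (0 : ℝ)] with X hX hX0
    rw [one_mul, Real.norm_of_nonneg (r := X ^ (3 * c / 800)) (by positivity)] at hX
    exact (le_abs_self _).trans hX
  obtain ⟨X0, hX0⟩ := Filter.eventually_atTop.1 (h0.and (Filter.eventually_ge_atTop 1))
  refine ⟨3 * c / 800, min (c / 2) 1, X0, by positivity, by positivity, ?_⟩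
  -- the case of positive ordinates
  have pos : ∀ X : ℝ, X0 ≤ X → ∀ t : ℝ, X ^ (1 / 200 : ℝ) ≤ t → t ≤ X ^ (61 / 100 : ℝ) →
      ∀ M M' : ℕ, X ^ (3 / 200 : ℝ) ≤ M → M ≤ M' → (M' : ℝ) ≤ X ^ (4 : ℝ) → ∀ σ : ℝ,
      1 - min (c / 2) 1 ≤ σ → σ ≤ 1 →
      ‖∑ n ∈ Ioc M M', (n : ℂ) ^ (-((σ : ℂ) + (t : ℂ) * Complex.I))‖ ≤ X ^ (-(3 * c / 800)) := by
    intro X hX t ht1 ht2 M M' hM hMM hM' σ hσ1 hσ2
    obtain ⟨hX1, hX2⟩ := hX0 X hX
    have hXp : (0 : ℝ) < X := by (clear * - hX2; linarith)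
    have hσ3 : 1 - c / 2 ≤ σ := by
      have := min_le_left (c / 2) 1
      (clear * - hσ1 this; linarith)
    have hσ4 : 0 ≤ σ := by
      have := min_le_right (c / 2) 1
      (clear * - hσ1 this; linarith)
    have hM1 : (1 : ℝ) ≤ M := (Real.one_le_rpow hX2 (by norm_num)).trans hM
    have hM1' : 1 ≤ M := by exact_mod_cast hM1
    have hk : M' ≤ 2 ^ Nat.clog 2 M' * M := by
      calc M' ≤ 2 ^ Nat.clog 2 M' := Nat.le_pow_clog (by norm_num) _
        _ ≤ 2 ^ Nat.clog 2 M' * M := Nat.le_mul_of_pos_right _ hM1'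
    have h5 := dyadic_bound (fun n => (n : ℂ) ^ (-((σ : ℂ) + (t : ℂ) * Complex.I)))
      (C * X ^ (-(3 * c / 400))) (by positivity) M' (fun N => X ^ (3 / 200 : ℝ) ≤ N)
      (fun N hN => by
        refine hN.trans ?_
        push_cast
        have := (Nat.cast_nonneg N : (0 : ℝ) ≤ N)
        (clear * -; linarith))
      (fun N N1 hN hN1 hN2 hN3 => block_bound hc hC h3 hX2 ht1 ht2 hσ3 hσ4 N N1 hN hN1 hN2 (by
        refine le_trans ?_ hM'
        exact_mod_cast (hN1.le.trans hN3)))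
      (Nat.clog 2 M') M hM hMM hk
    refine h5.trans ?_
    have h6 : (Nat.clog 2 M' : ℝ) ≤ 6 * Real.log X + 2 := by
      rcases Nat.lt_or_ge 1 M' with h7 | h7
      · have h8 : 2 ^ (Nat.clog 2 M' - 1) < M' := Nat.pow_pred_clog_lt_self (by norm_num) h7
        have h9 : (2 : ℝ) ^ (Nat.clog 2 M' - 1) < X ^ (4 : ℝ) := by
          refine lt_of_lt_of_le ?_ hM'
          exact_mod_cast h8
        have h10 := Real.log_lt_log (by positivity) h9
        rw [Real.log_pow, Real.log_rpow hXp] at h10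
        have h11 : (Nat.clog 2 M' : ℝ) ≤ ((Nat.clog 2 M' - 1 : ℕ) : ℝ) + 1 := by
          have : Nat.clog 2 M' ≤ (Nat.clog 2 M' - 1) + 1 := by omega
          exact_mod_cast this
        have h12 : 0.6931471803 < Real.log 2 := Real.log_two_gt_d9
        have h13 : 0 ≤ Real.log X := Real.log_nonneg hX2
        have h14 : (0 : ℝ) ≤ ((Nat.clog 2 M' - 1 : ℕ) : ℝ) := Nat.cast_nonneg _
        (clear * - h10 h11 h12; nlinarith)
      · have h8 : Nat.clog 2 M' = 0 := Nat.clog_of_right_le_one h7 _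
        rw [h8, Nat.cast_zero]
        have h13 : 0 ≤ Real.log X := Real.log_nonneg hX2
        (clear * - h13; linarith)
    calc (Nat.clog 2 M' : ℝ) * (C * X ^ (-(3 * c / 400)))
        ≤ (6 * Real.log X + 2) * (C * X ^ (-(3 * c / 400))) :=
          mul_le_mul_of_nonneg_right h6 (by positivity)
      _ = ((6 * Real.log X + 2) * C) * X ^ (-(3 * c / 400)) := by ring
      _ ≤ X ^ (3 * c / 800) * X ^ (-(3 * c / 400)) :=
          mul_le_mul_of_nonneg_right hX1 (by positivity)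
      _ = X ^ (-(3 * c / 800)) := by
          rw [← Real.rpow_add hXp]
          congr 1
          ring
  intro X hX t ht1 ht2 M M' hM hMM hM' σ hσ1 hσ2
  rcases le_total 0 t with ht | ht
  · rw [abs_of_nonneg ht] at ht1 ht2
    exact pos X hX t ht1 ht2 M M' hM hMM hM' σ hσ1 hσ2
  · rw [abs_of_nonpos ht] at ht1 ht2
    rw [norm_conj_sum]
    exact pos X hX (-t) ht1 ht2 M M' hM hMM hM' σ hσ1 hσ2

end Pool.Agent.M17.Helper94.KSZ
end

/- Helper53.KN.Helper79.KS.Fix -/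
section
/-! The fixed point theorem of the construction for MP_768c9c_nt (S17468): the STAR inequality gives the function.
`b p` is the base weight of the prime `p` (a fixed value), `w i p` is the weight of the cell `i` at the prime `p`;
the function is `b p + ∑ i, t i * w i p` at the primes, `|t i| ≤ 1`. -/

set_option autoImplicit false
open Filter Topology

namespace Pool.Agent.M17.Helper79.KS

/-- completely multiplicative function with values `v p` at the primes -/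
noncomputable def cm (v : ℕ → ℝ) (n : ℕ) : ℝ := (n.primeFactorsList.map v).prod

/-- linear coefficient of a product over a list: one position has the weight `a`, all the others `b` -/
noncomputable def linL (b a : ℕ → ℝ) : List ℕ → ℝ
  | [] => 0
  | p :: l => b p * linL b a l + a p * (l.map b).prod

/-- linear coefficient at `n` -/
noncomputable def lin (b a : ℕ → ℝ) (n : ℕ) : ℝ := linL b a n.primeFactorsList

theorem linL_perm (b a : ℕ → ℝ) {l l' : List ℕ} (h : l.Perm l') : linL b a l = linL b a l' := by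
  induction h with
  | nil => rfl
  | cons x h ih =>
    simp only [linL]
    rw [ih, (h.map b).prod_eq]
  | swap x y l =>
    simp only [linL, List.map_cons, List.prod_cons]
    ring
  | trans _ _ ih1 ih2 => exact ih1.trans ih2

theorem cm_one (v : ℕ → ℝ) : cm v 1 = 1 := by simp [cm]

theorem cm_nonneg {v : ℕ → ℝ} (hv : ∀ p, 0 ≤ v p) (n : ℕ) : 0 ≤ cm v n := by
  unfold cm
  apply List.prod_nonneg
  intro x hx
  rw [List.mem_map] at hx
  obtain ⟨p, _, rfl⟩ := hx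
  exact hv p

theorem lin_mul (b a : ℕ → ℝ) {q m : ℕ} (hq : q.Prime) (hm : m ≠ 0) :
    lin b a (q * m) = b q * lin b a m + a q * cm b m := by
  unfold lin cm
  rw [linL_perm b a (Nat.perm_primeFactorsList_mul hq.ne_zero hm), Nat.primeFactorsList_prime hq]
  simp [linL]

theorem lin_prime (b a : ℕ → ℝ) {q : ℕ} (hq : q.Prime) : lin b a q = a q := by
  have h := lin_mul b a hq one_ne_zero
  have h1 : lin b a 1 = 0 := by simp [lin, linL]
  rw [mul_one, h1, cm_one] at h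
  (clear * - h; linarith)

/-! ### the list estimates -/

section ListEst

variable {b a ω x x' : ℕ → ℝ} {t t' D : ℝ}

theorem linL_nonneg (hb : ∀ p, 0 ≤ b p) (ha : ∀ p, 0 ≤ a p) (l : List ℕ) : 0 ≤ linL b a l := by
  induction l with
  | nil => simp [linL]
  | cons p l ih =>
    simp only [linL]
    have h1 : 0 ≤ (l.map b).prod := List.prod_nonneg (by
      intro y hy; rw [List.mem_map] at hy; obtain ⟨q, _, rfl⟩ := hy; exact hb q)
    have := hb p
    have := ha p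
    positivity

theorem lin_nonneg (hb : ∀ p, 0 ≤ b p) (ha : ∀ p, 0 ≤ a p) (n : ℕ) : 0 ≤ lin b a n :=
  linL_nonneg hb ha _

theorem lin_ge (hb : ∀ p, 0 ≤ b p) (ha : ∀ p, 0 ≤ a p) {q m : ℕ} (hq : q.Prime) (hm : m ≠ 0) :
    a q * cm b m ≤ lin b a (q * m) := by
  rw [lin_mul b a hq hm]
  have := mul_nonneg (hb q) (lin_nonneg hb ha m)
  linarith

/-- `P ≥ 0` -/
theorem prodb_nonneg (hb : ∀ p, 0 ≤ b p) (l : List ℕ) : 0 ≤ (l.map b).prod :=
  List.prod_nonneg (by intro y hy; rw [List.mem_map] at hy; obtain ⟨q, _, rfl⟩ := hy; exact hb q)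

theorem list_low (hb : ∀ p, 0 ≤ b p) (ha : ∀ p, 0 ≤ a p) (haω : ∀ p, a p ≤ ω p) (l : List ℕ) :
    (l.map b).prod + 2 * linL b a l ≤ (l.map (fun p => b p + 2 * ω p)).prod := by
  induction l with
  | nil => simp [linL]
  | cons p l ih =>
    simp only [linL, List.map_cons, List.prod_cons]
    have hP := prodb_nonneg hb l
    have hL := linL_nonneg hb ha l
    set P := (l.map b).prod
    set L := linL b a l
    set W := (l.map (fun p => b p + 2 * ω p)).prod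
    have h1 := hb p
    have h2 := ha p
    have h3 := haω p
    have h4 : b p * (P + 2 * L) ≤ b p * W := mul_le_mul_of_nonneg_left ih h1
    have h5 : a p * P ≤ ω p * W := mul_le_mul h3 (by (clear * - hL ih; linarith)) hP (by linarith)
    (clear * - h4 h5; nlinarith)

theorem list_main (hb : ∀ p, 0 ≤ b p) (ha : ∀ p, 0 ≤ a p) (haω : ∀ p, a p ≤ ω p) (hD : 0 ≤ D)
    (hx : ∀ p, |x p| ≤ ω p) (hx' : ∀ p, |x' p| ≤ ω p) (hxx : ∀ p, |x p - x' p| ≤ D * ω p)
    (hyy : ∀ p, |(x p - t * a p) - (x' p - t' * a p)| ≤ D * (ω p - a p)) (l : List ℕ) :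
    |(l.map (fun p => b p + x p)).prod - (l.map b).prod| ≤
        ((l.map (fun p => b p + 2 * ω p)).prod - (l.map b).prod) / 2 ∧
      |(l.map (fun p => b p + x' p)).prod - (l.map b).prod| ≤
        ((l.map (fun p => b p + 2 * ω p)).prod - (l.map b).prod) / 2 ∧
      |(l.map (fun p => b p + x p)).prod - (l.map (fun p => b p + x' p)).prod| ≤
        D / 2 * ((l.map (fun p => b p + 2 * ω p)).prod - (l.map b).prod) ∧
      |((l.map (fun p => b p + x p)).prod - t * linL b a l) -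
          ((l.map (fun p => b p + x' p)).prod - t' * linL b a l)| ≤
        D / 2 * ((l.map (fun p => b p + 2 * ω p)).prod - (l.map b).prod - 2 * linL b a l) := by
  induction l with
  | nil => simp [linL]
  | cons p l ih =>
    simp only [linL, List.map_cons, List.prod_cons]
    have hP := prodb_nonneg hb l
    have hL := linL_nonneg hb ha l
    have hlow := list_low (ω := ω) hb ha haω l
    obtain ⟨i1, i2, i3, i4⟩ := ih
    set P := (l.map b).prod
    set L := linL b a l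
    set W := (l.map (fun p => b p + 2 * ω p)).prod
    set F := (l.map (fun p => b p + x p)).prod
    set F' := (l.map (fun p => b p + x' p)).prod
    have hb1 := hb p
    have ha1 := ha p
    have hω1 : 0 ≤ ω p := ha1.trans (haω p)
    have hx1 := hx p
    have hx1' := hx' p
    have hxx1 := hxx p
    have hyy1 := hyy p
    have hWP : 0 ≤ W - P := by (clear * - hL hlow; linarith)
    have hF : |F| ≤ (W + P) / 2 := by
      have := abs_sub_abs_le_abs_sub F P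
      rw [abs_of_nonneg hP] at this
      (clear * - i1 this; linarith)
    have hF' : |F'| ≤ (W + P) / 2 := by
      have := abs_sub_abs_le_abs_sub F' P
      rw [abs_of_nonneg hP] at this
      (clear * - i2 this; linarith)
    have aux : ∀ (y G : ℝ), |y| ≤ ω p → |G - P| ≤ (W - P) / 2 → |G| ≤ (W + P) / 2 →
        |(b p + y) * G - b p * P| ≤ ((b p + 2 * ω p) * W - b p * P) / 2 := by
      intro y G hy hG hG2
      have e1 : (b p + y) * G - b p * P = b p * (G - P) + y * G := by ring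
      rw [e1]
      refine (abs_add_le _ _).trans ?_
      rw [abs_mul, abs_mul, abs_of_nonneg hb1]
      have h1 : b p * |G - P| ≤ b p * ((W - P) / 2) := mul_le_mul_of_nonneg_left hG hb1
      have h2 : |y| * |G| ≤ ω p * ((W + P) / 2) := mul_le_mul hy hG2 (abs_nonneg _) hω1
      have h3 : ω p * ((W + P) / 2) ≤ ω p * W := mul_le_mul_of_nonneg_left (by (clear * - hL hlow; linarith)) hω1
      (clear * - h1 h2 h3; nlinarith)
    refine ⟨aux _ _ hx1 i1 hF, aux _ _ hx1' i2 hF', ?_, ?_⟩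
    · have e1 : (b p + x p) * F - (b p + x' p) * F' =
          b p * (F - F') + x p * (F - F') + (x p - x' p) * F' := by ring
      rw [e1]
      refine (abs_add_le _ _).trans ?_
      refine (add_le_add_left (abs_add_le _ _) _).trans ?_
      rw [abs_mul, abs_mul, abs_mul, abs_of_nonneg hb1]
      have h1 : b p * |F - F'| ≤ b p * (D / 2 * (W - P)) := mul_le_mul_of_nonneg_left i3 hb1
      have h2 : |x p| * |F - F'| ≤ ω p * (D / 2 * (W - P)) := mul_le_mul hx1 i3 (abs_nonneg _) hω1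
      have h3 : |x p - x' p| * |F'| ≤ D * ω p * ((W + P) / 2) :=
        mul_le_mul hxx1 hF' (abs_nonneg _) (by positivity)
      (clear * - h1 h2 h3; nlinarith)
    · have e1 : ((b p + x p) * F - t * (b p * L + a p * P)) -
            ((b p + x' p) * F' - t' * (b p * L + a p * P)) =
          b p * ((F - t * L) - (F' - t' * L)) + (x p - x' p) * (F - P) + x' p * (F - F') +
            ((x p - t * a p) - (x' p - t' * a p)) * P := by ring
      rw [e1]
      refine (abs_add_le _ _).trans ?_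
      refine (add_le_add_left (abs_add_le _ _) _).trans ?_
      refine (add_le_add_left (add_le_add_left (abs_add_le _ _) _) _).trans ?_
      rw [abs_mul, abs_mul, abs_mul, abs_mul, abs_of_nonneg hb1, abs_of_nonneg hP]
      have h1 : b p * |F - t * L - (F' - t' * L)| ≤ b p * (D / 2 * (W - P - 2 * L)) :=
        mul_le_mul_of_nonneg_left i4 hb1
      have h2 : |x p - x' p| * |F - P| ≤ D * ω p * ((W - P) / 2) :=
        mul_le_mul hxx1 i1 (abs_nonneg _) (by positivity)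
      have h3 : |x' p| * |F - F'| ≤ ω p * (D / 2 * (W - P)) :=
        mul_le_mul hx1' i3 (abs_nonneg _) hω1
      have h4 : |x p - t * a p - (x' p - t' * a p)| * P ≤ D * (ω p - a p) * P :=
        mul_le_mul_of_nonneg_right hyy1 hP
      (clear * - h1 h2 h3 h4; nlinarith)

end ListEst

end Pool.Agent.M17.Helper79.KS
end
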