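import Mathlib
import Pool.Agent.Helper53.KM.G06

/- Helper53.KN.Helper60.KC.ClassBound -/
section
/-! KC-16: the bound for one class of zeros. -/

set_option autoImplicit false
set_option maxHeartbeats 4000000
open Filter Topology
open scoped Classical

namespace Pool.Agent.M17.Helper60.KC
open Pool.Agent.M17.Helper60.KS

lemma small (A B κ : ℝ) (hκ : 0 < κ) : ∀ᶠ X : ℝ in atTop,
    A + B * Real.log (Real.log X) ≤ κ * Real.log X := by
  have h1 : ∀ᶠ y : ℝ in atTop, A + B * Real.log y ≤ κ * y := by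
    have h2 := (Real.isLittleO_log_id_atTop).bound (show 0 < κ / (2 * (|B| + 1)) by (clear * - hκ; positivity))
    filter_upwards [h2, eventually_ge_atTop (2 * |A| / κ), eventually_ge_atTop 1] with y hy hA h1
    simp only [id_eq, Real.norm_eq_abs] at hy
    rw [abs_of_pos (by linarith : (0:ℝ) < y)] at hy
    have h3 : A ≤ κ / 2 * y := by
      have := (div_le_iff₀ hκ).mp hA
      have := le_abs_self A
      linarith
    have h4 : B * Real.log y ≤ |B| * |Real.log y| := by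
      rw [← abs_mul]; exact le_abs_self _
    have h5 : |B| * |Real.log y| ≤ (|B| + 1) * (κ / (2 * (|B| + 1)) * y) := by
      apply mul_le_mul (by linarith) hy (abs_nonneg _) (by positivity)
    have h6 : (|B| + 1) * (κ / (2 * (|B| + 1)) * y) = κ / 2 * y := by
      field_simp
    (clear * - h3 h4 h5 h6; linarith)
  exact Real.tendsto_log_atTop.eventually h1

/-- hypotheses of `ClassBound` -/
structure Cls (ε0 δ d X x : ℝ) (Z : Finset ℂ) (c : ℂ → ℂ) (g : ℕ → ℂ) (N : ℕ) (U : Finset ℝ) : Prop where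
  hx0 : ε0 ≤ x
  hx1 : x ≤ 0.4 + δ
  hs : InStrip Z (1 - x) (1 - x + δ) (X ^ (1/2 + 2 * d) + 1)
  hsp : Spaced1 Z
  hg : ∀ n, ‖g n‖ ≤ (n.divisors.card : ℝ)
  hN0 : X ^ δ / 2 ≤ N
  hN1 : (N : ℝ) ≤ X ^ (yy x / 2 + 45 * δ)
  hD : ∀ ρ ∈ Z, 1 / (16 * Real.log X) ≤ ‖DP g N 2 ρ‖
  hc : ∀ ρ ∈ Z, ‖c ρ‖ ≤ Real.log X ^ 2
  hU : ∀ u ∈ U, Real.log X ≤ u ∧ u ≤ Real.log X + 1
  hUs : SpacedR U (1 / X ^ (1/2 + 2 * d))
  hS : ∀ u ∈ U, 1 / Real.log X ^ 4 ≤ ‖∑ ρ ∈ Z, c ρ * Complex.exp ((ρ - 1) * (u : ℂ))‖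

/-- parameters -/
structure Par (ε0 δ d : ℝ) : Prop where
  h1 : 0 < ε0
  h2 : ε0 ≤ 1/100
  h3 : δ = ε0 / 10 ^ 7
  h4 : 0 < d
  h5 : d ≤ δ

lemma Par.dpos {ε0 δ d : ℝ} (h : Par ε0 δ d) : 0 < δ := by
  rw [h.h3]; have := h.h1; positivity

lemma Par.dsmall {ε0 δ d : ℝ} (h : Par ε0 δ d) : δ ≤ 1 / 10 ^ 9 := by
  have h2 := h.h2; have h3 := h.h3
  rw [h3]; (clear * - h2; linarith)

/-- facts valid for large `X`; `l = log X`, `q = log N` -/
lemma base {ε0 δ d : ℝ} (hp : Par ε0 δ d) : ∀ᶠ X : ℝ in atTop, ∀ (x : ℝ) (Z : Finset ℂ) (c : ℂ → ℂ)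
    (g : ℕ → ℂ) (N : ℕ) (U : Finset ℝ), Cls ε0 δ d X x Z c g N U →
    8 ≤ X ∧ 10 ≤ Real.log X ∧ 1 ≤ N ∧ δ / 2 * Real.log X ≤ Real.log N ∧
      Real.log N ≤ (yy x / 2 + 45 * δ) * Real.log X ∧ Real.log N ≤ Real.log X := by
  have hδ := hp.dpos
  have hδ' := hp.dsmall
  filter_upwards [small 1 0 (δ/2) (by (clear * - hδ; linarith)), eventually_ge_atTop (Real.exp 10), eventually_ge_atTop 8]
    with X h1 h2 h8 x Z c g N U h
  have hX : (0:ℝ) < X := by (clear * - hδ hδ' h8; linarith)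
  have hl : 10 ≤ Real.log X := by
    rw [Real.le_log_iff_exp_le hX]; exact h2
  have hl0 : 0 < Real.log X := by linarith
  have hN0 := h.hN0
  have hXd : (0:ℝ) < X ^ δ := Real.rpow_pos_of_pos hX _
  have hNpos : (0:ℝ) < N := by (clear * - hN0 hXd; linarith)
  have hN1 : 1 ≤ N := by
    have : 0 < N := by exact_mod_cast hNpos
    omega
  have h3 : Real.log (X ^ δ / 2) ≤ Real.log N := Real.log_le_log (by positivity) hN0
  rw [Real.log_div (by positivity) (by norm_num), Real.log_rpow hX] at h3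
  have h4 : Real.log 2 ≤ 1 := by have := Real.log_two_lt_d9; (clear * - hδ hδ' this; linarith)
  have h5 : Real.log N ≤ (yy x / 2 + 45 * δ) * Real.log X := by
    rw [← Real.log_rpow hX]; exact Real.log_le_log hNpos h.hN1
  have h6 : yy x ≤ 0.92 := by
    unfold yy
    refine le_trans (min_le_right _ _) ?_
    have hx1 := h.hx1
    rw [div_le_iff₀ (by (clear * - hδ hδ' hx1; linarith))]
    (clear * - hδ hδ' hx1; linarith)
  refine ⟨h8, hl, hN1, ?_, h5, ?_⟩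
  · (clear * - h1 h3 h4; nlinarith)
  · refine le_trans h5 ?_
    have : (yy x / 2 + 45 * δ) ≤ 1 := by (clear * - hδ hδ' h6; linarith)
    (clear * - hδ' h1 h6 hδ; nlinarith)

/-- powers in the class -/
lemma pow_class (hP : PowDP) {ε0 δ d : ℝ} (hp : Par ε0 δ d) (k : ℕ) (hk : 1 ≤ k) (ε1 : ℝ) (hε1 : 0 < ε1) :
    ∃ C1 : ℝ, 0 < C1 ∧ ∀ᶠ X : ℝ in atTop, ∀ (x : ℝ) (Z : Finset ℂ) (c : ℂ → ℂ)
    (g : ℕ → ℂ) (N : ℕ) (U : Finset ℝ), Cls ε0 δ d X x Z c g N U →
    ∃ b : ℕ → ℂ, (∀ n, ‖b n‖ ≤ C1 * (N : ℝ) ^ ε1) ∧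
      ∀ ρ ∈ Z, (1 / (16 * Real.log X)) ^ k ≤ ‖DP b (N ^ k) (2 ^ k) ρ‖ := by
  obtain ⟨C1, hC1, h⟩ := hP k ε1 hk hε1
  refine ⟨C1, hC1, ?_⟩
  filter_upwards [base hp] with X hb x Z c g N U hcl
  obtain ⟨h8, hl, hN, -⟩ := hb x Z c g N U hcl
  obtain ⟨b, hb1, hb2⟩ := h g N hN hcl.hg
  refine ⟨b, hb1, fun ρ hρ => ?_⟩
  rw [← hb2, norm_pow]
  exact pow_le_pow_left₀ (by positivity) (hcl.hD ρ hρ) k

lemma log_add_le {a b : ℝ} (ha : 0 < a) (hb : 0 < b) :
    Real.log (a + b) ≤ Real.log 2 + Real.log a ∨ Real.log (a + b) ≤ Real.log 2 + Real.log b := by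
  rcases le_total a b with h | h
  · right
    rw [← Real.log_mul (by norm_num) hb.ne']
    exact Real.log_le_log (by linarith) (by linarith)
  · left
    rw [← Real.log_mul (by norm_num) ha.ne']
    exact Real.log_le_log (by linarith) (by linarith)

/-- height -/
lemma logT {X d : ℝ} (hX : 8 ≤ X) (hd : 0 < d) :
    1 ≤ X ^ (1/2 + 2 * d) ∧ (1/2) * Real.log X ≤ Real.log (X ^ (1/2 + 2 * d) + 1) ∧
      Real.log (X ^ (1/2 + 2 * d) + 1) ≤ (1/2 + 2 * d) * Real.log X + 1 := by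
  have h1 : 1 ≤ X ^ (1/2 + 2 * d) := Real.one_le_rpow (by linarith) (by (clear * - hd; linarith))
  have hX0 : 0 < X := by linarith
  have hl : 0 < Real.log X := Real.log_pos (by linarith)
  refine ⟨h1, ?_, ?_⟩
  · calc (1/2) * Real.log X ≤ (1/2 + 2 * d) * Real.log X := by (clear * - hd hl; nlinarith)
      _ = Real.log (X ^ (1/2 + 2 * d)) := (Real.log_rpow hX0 _).symm
      _ ≤ _ := Real.log_le_log (by linarith) (by linarith)
  · calc Real.log (X ^ (1/2 + 2 * d) + 1) ≤ Real.log (2 * X ^ (1/2 + 2 * d)) :=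
          Real.log_le_log (by (clear * - h1; linarith)) (by linarith)
      _ = Real.log 2 + (1/2 + 2 * d) * Real.log X := by
          rw [Real.log_mul (by norm_num) (by linarith), Real.log_rpow hX0]
      _ ≤ _ := by have := Real.log_two_lt_d9; (clear * - this; linarith)

/-- second bound: Huxley -/
lemma P2 (hMV : HuxleyCount) (hP : PowDP) {ε0 δ d : ℝ} (hp : Par ε0 δ d) (k : ℕ) (hk : 1 ≤ k) :
    ∀ᶠ X : ℝ in atTop, ∀ (x : ℝ) (Z : Finset ℂ) (c : ℂ → ℂ) (g : ℕ → ℂ) (N : ℕ) (U : Finset ℝ),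
    Cls ε0 δ d X x Z c g N U → Z.Nonempty → (k : ℝ) * Real.log N ≤ 2 * Real.log X →
    Real.log Z.card ≤ max (2 * x * (k * Real.log N))
      (Real.log X / 2 - k * Real.log N * (2 - 6 * x)) + 40 * δ * Real.log X := by
  have hδ := hp.dpos
  have hδ' := hp.dsmall
  have hd4 := hp.h4
  have hd5 := hp.h5
  obtain ⟨C1, hC1, hpc⟩ := pow_class hP hp k hk (δ / 10) (by positivity)
  obtain ⟨C, hC, hmv⟩ := hMV (2 ^ k) (Nat.one_le_two_pow)
  filter_upwards [base hp, hpc, small (2 * k * Real.log 16 + Real.log C + 2 * Real.log C1 + 2 * Real.log 2)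
    (2 * k + 1) δ hδ, small (6 * k * Real.log 16 + Real.log C + 6 * Real.log C1 + 1 + 2 * Real.log 2)
    (6 * k + 1) δ hδ] with X hb hpc hsm1 hsm2 x Z c g N U h hZ hkq
  obtain ⟨h8, hl, hN, hq0, hq1, hq2⟩ := hb x Z c g N U h
  obtain ⟨b, hb1, hb2⟩ := hpc x Z c g N U h
  have hx0 := h.hx0
  have hx1 := h.hx1
  have h1 := hp.h1
  obtain ⟨hT1, hT2, hT3⟩ := logT h8 hd4
  have hN' : (1:ℝ) ≤ N := by exact_mod_cast hN
  have hQ : 1 ≤ N ^ k := Nat.one_le_pow _ _ (by omega)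
  have hl0 : 0 < Real.log X := by (clear * - hδ hδ' hl; linarith)
  have hkk : (1:ℝ) ≤ k := by exact_mod_cast hk
  have hZc : (0:ℝ) < Z.card := by exact_mod_cast hZ.card_pos
  have hT4 : Real.log (X ^ (1/2 + 2 * d) + 1 + 2) ≤ 2 * Real.log X := by
    rw [← Real.log_rpow (by (clear * - hδ hδ' h8; linarith) : (0:ℝ) < X)]
    apply Real.log_le_log (by (clear * - hδ hδ' hT1; linarith))
    have e1 : X ^ (1/2 + 2 * d) ≤ X := by
      calc X ^ (1/2 + 2 * d) ≤ X ^ (1:ℝ) := Real.rpow_le_rpow_of_exponent_le (by (clear * - hδ hδ' h8; linarith)) (by (clear * - hδ hδ' hd5; linarith))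
        _ = X := Real.rpow_one _
    have e2 : X ^ (2:ℝ) = X * X := by rw [show (2:ℝ) = ((2:ℕ):ℝ) by norm_num, Real.rpow_natCast]; ring
    rw [e2]; (clear * - hδ' h8 e1 hδ; nlinarith)
  set l := Real.log X with hldef
  set q := Real.log N with hqdef
  set T := X ^ (1/2 + 2 * d) + 1 with hTdef
  have hq00 : 0 ≤ q := Real.log_nonneg hN'
  have hVpos : 0 < (1 / (16 * l)) ^ k := by positivity
  have hB : 0 < C1 * (N:ℝ) ^ (δ / 10) := by positivity
  have hmain := hmv Z b (N ^ k) (C1 * (N:ℝ) ^ (δ/10)) ((1 / (16 * l)) ^ k) (1 - x) (1 - x + δ) T hQ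
    (by (clear * - hδ hδ' hT1; linarith)) (by (clear * - hδ hδ' hx1; linarith))
    (by (clear * - hδ; linarith)) (by (clear * - hδ hδ'; linarith)) (by have := hp.h3; (clear * - hx0 h1 this; linarith)) hVpos hB hb1 h.hs h.hsp hb2
  have hQpos : (0:ℝ) < ((N ^ k : ℕ) : ℝ) := by exact_mod_cast hQ
  have hlogQ : Real.log ((N ^ k : ℕ) : ℝ) = k * q := by push_cast; rw [Real.log_pow]
  have hlT : 0 < Real.log (T + 2) := Real.log_pos (by (clear * - hδ hδ' hT1; linarith))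
  have hllT : Real.log (Real.log (T + 2)) ≤ Real.log 2 + Real.log l := by
    rw [← Real.log_mul (by norm_num) hl0.ne']
    exact Real.log_le_log hlT hT4
  have hlg := Real.log_le_log (by (clear * - hZ; positivity)) hmain
  have hTp : 0 < T := by (clear * - hδ hδ' hT1; linarith)
  have hin : (0:ℝ) < T * ((C1 * (N:ℝ) ^ (δ / 10)) ^ 4 * ((N ^ k : ℕ) : ℝ) ^ (2 - 4 * (1 - x)) / ((1 / (16 * l)) ^ k) ^ 4) := by
    (clear * - h8 hC1 hN hl; positivity)
  have hlogin : Real.log (T * ((C1 * (N:ℝ) ^ (δ / 10)) ^ 4 * ((N ^ k : ℕ) : ℝ) ^ (2 - 4 * (1 - x)) / ((1 / (16 * l)) ^ k) ^ 4)) =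
      Real.log T + (4 * (Real.log C1 + δ / 10 * q) + (2 - 4 * (1 - x)) * (k * q) + 4 * (k * (Real.log 16 + Real.log l))) := by
    rw [Real.log_mul hTp.ne' (by positivity), Real.log_div (by positivity) (by positivity),
      Real.log_mul (by positivity) (by positivity), Real.log_pow, Real.log_pow, Real.log_pow,
      Real.log_mul hC1.ne' (by positivity), Real.log_rpow (by (clear * - hδ hδ' hN'; linarith)), Real.log_rpow hQpos,
      Real.log_div (by norm_num) (by positivity), Real.log_one, Real.log_mul (by norm_num) hl0.ne', hlogQ]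
    simp only [Nat.cast_ofNat]
    rw [← hqdef]
    ring
  rw [Real.log_mul (by (clear * - hC hC1 hN hl hlT; positivity)) (by (clear * - h8 hC1 hN hl; positivity)), Real.log_mul (by (clear * - hC hC1 hN hl; positivity)) hlT.ne', Real.log_mul hC.ne' (by positivity),
    Real.log_div (by positivity) (by positivity), Real.log_mul (by positivity) (by positivity),
    Real.log_pow, Real.log_mul hC1.ne' (by positivity), Real.log_rpow (by (clear * - hδ hδ' hN'; linarith)), Real.log_rpow hQpos,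
    Real.log_pow, Real.log_pow, Real.log_div (by norm_num) (by positivity), Real.log_one,
    Real.log_mul (by norm_num) hl0.ne', hlogQ] at hlg
  have hdq : δ / 10 * q ≤ δ / 10 * l := mul_le_mul_of_nonneg_left hq2 (by positivity)
  simp only [Nat.cast_ofNat] at hlg
  rw [← hqdef] at hlg
  have hdl0 : 0 ≤ δ * l := by (clear * - hδ hl; positivity)
  have hdl : d * l ≤ δ * l := mul_le_mul_of_nonneg_right hd5 hl0.le
  rcases log_add_le one_pos hin with hc | hc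
  · refine le_trans ?_ (add_le_add_left (le_max_left _ _) _)
    rw [Real.log_one] at hc
    (clear * - hsm1 hllT hlg hdq hdl0 hc; linarith)
  · refine le_trans ?_ (add_le_add_left (le_max_right _ _) _)
    rw [hlogin] at hc
    (clear * - hsm2 hT3 hllT hlg hdq hdl0 hdl hc; linarith)

lemma T_le {X d : ℝ} (hX : 8 ≤ X) (hl : 10 ≤ Real.log X) (hd : 0 < d) (hd1 : d ≤ 1 / 10 ^ 9) :
    X ^ (1/2 + 2 * d) + 1 ≤ X := by
  obtain ⟨h1, -, h3⟩ := logT hX hd
  have hX0 : (0:ℝ) < X := by (clear * - hX hd hd1; linarith)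
  rw [← Real.log_le_log_iff (by (clear * - hd hd1 h1; linarith)) hX0]
  have : 2 * d * Real.log X ≤ 2 * (1 / 10 ^ 9) * Real.log X := by
    apply mul_le_mul_of_nonneg_right (by (clear * - hd1; linarith)) (by (clear * - hl hd hd1; linarith))
  linarith

lemma conv {z a b e l A B E : ℝ} (hl : 0 < l) (h : z ≤ max a b + e) (ha : 2 * a / l = A) (hb : 2 * b / l = B)
    (he : 2 * e / l ≤ E) : 2 * z / l ≤ max A B + E := by
  rw [← ha, ← hb]
  have h1 : 2 * z / l ≤ 2 * (max a b + e) / l := by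
    apply div_le_div_of_nonneg_right (by (clear * - h; linarith)) hl.le
  have h2 : 2 * (max a b + e) / l = 2 * max a b / l + 2 * e / l := by ring
  have h3 : 2 * max a b / l ≤ max (2 * a / l) (2 * b / l) := by
    rcases le_total a b with hab | hab
    · rw [max_eq_right hab]; exact le_max_right _ _
    · rw [max_eq_left hab]; exact le_max_left _ _
  (clear * - he h1 h2 h3; linarith)

end Pool.Agent.M17.Helper60.KC
end

/- Helper53.KN.Helper26.KC.StDens -/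
section
/-!
# Project KS: Huxley's density theorem (statements)
-/

set_option autoImplicit false
open MeasureTheory Filter Topology Finset

namespace Pool.Agent.M17.Helper26.KC

open Pool.Agent.M17.Helper60.KS (DP Spaced1 mz)

/-- detection at the length `T^(1/2)` with few exceptions, for `x ≤ 0.45` -/
def DetectFM45 : Prop := ∀ τ δ d : ℝ, 1 / 10 ≤ τ → τ ≤ 1 → 0 < δ → δ ≤ 1 / 1000 → 0 < d → d ≤ δ →
  ∃ X0 : ℝ, ∀ X x : ℝ, X0 ≤ X → 0 < x → x ≤ 0.45 → ∃ g : ℕ → ℂ, (∀ n, ‖g n‖ ≤ (n.divisors.card : ℝ)) ∧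
  ∀ Z : Finset ℂ, Spaced1 Z → (∀ ρ ∈ Z, riemannZeta ρ = 0 ∧ 1 - x ≤ ρ.re ∧ Real.log X ^ 2 ≤ |ρ.im| ∧
    |ρ.im| ≤ X ^ (τ + 2 * d) + 1 ∧ ¬ ∃ i : ℕ, X ^ δ / 2 ≤ (2 : ℝ) ^ i ∧ (2 : ℝ) ^ i ≤ X ^ (τ / 2 + 45 * δ) ∧
      1 / (16 * Real.log X) ≤ ‖DP g (2 ^ i) 2 ρ‖) →
  (Z.card : ℝ) ≤ X ^ (2 * x * τ + 60 * δ)

/-- Huxley's density theorem for spaced zeros, `0.55 ≤ σ = 1 - x` -/
def DensS : Prop := ∀ ε : ℝ, 0 < ε → ∃ T0 : ℝ, ∀ T x : ℝ, T0 ≤ T → 0 < x → x ≤ 0.45 →
  ∀ Z : Finset ℂ, Spaced1 Z →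
  (∀ ρ ∈ Z, riemannZeta ρ = 0 ∧ 1 - x ≤ ρ.re ∧ Real.log T ^ 2 ≤ |ρ.im| ∧ |ρ.im| ≤ T) →
  (Z.card : ℝ) ≤ T ^ (2.4 * x + ε)

end Pool.Agent.M17.Helper26.KC
end

/- Helper53.KN.Helper26.KC.F9 -/
section
/-!
# KS, Huxley's density theorem for spaced zeros
-/

set_option autoImplicit false
set_option maxHeartbeats 4000000
open Filter Topology
open scoped Classical

namespace Pool.Agent.M17.Helper26.KC

open Pool.Agent.M17.Helper60.KS
open Pool.Agent.M17.Helper60.KC (small log_add_le)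

/-- zeros detected by one polynomial -/
structure ClsD (δ T x : ℝ) (Z : Finset ℂ) (g : ℕ → ℂ) (N : ℕ) : Prop where
  hx0 : 0 < x
  hx1 : x ≤ 0.45
  hs : InStrip Z (1 - x) 1 T
  hsp : Spaced1 Z
  hg : ∀ n, ‖g n‖ ≤ (n.divisors.card : ℝ)
  hN0 : T ^ δ / 2 ≤ N
  hN1 : (N : ℝ) ≤ T ^ (1 / 2 + 45 * δ)
  hD : ∀ ρ ∈ Z, 1 / (16 * Real.log T) ≤ ‖DP g N 2 ρ‖

lemma baseD {δ : ℝ} (hδ : 0 < δ) (hδ' : δ ≤ 1 / 1000) : ∀ᶠ T : ℝ in atTop, ∀ (x : ℝ) (Z : Finset ℂ)
    (g : ℕ → ℂ) (N : ℕ), ClsD δ T x Z g N →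
    8 ≤ T ∧ 10 ≤ Real.log T ∧ 1 ≤ N ∧ δ / 2 * Real.log T ≤ Real.log N ∧
      Real.log N ≤ (1 / 2 + 45 * δ) * Real.log T ∧ Real.log N ≤ Real.log T := by
  filter_upwards [small 1 0 (δ/2) (by (clear * - hδ; linarith)), eventually_ge_atTop (Real.exp 10), eventually_ge_atTop 8]
    with T h1 h2 h8 x Z g N h
  have hX : (0:ℝ) < T := by (clear * - hδ hδ' h8; linarith)
  have hl : 10 ≤ Real.log T := by
    rw [Real.le_log_iff_exp_le hX]; exact h2
  have hl0 : 0 < Real.log T := by (clear * - hδ hδ' hl; linarith)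
  have hN0 := h.hN0
  have hXd : (0:ℝ) < T ^ δ := Real.rpow_pos_of_pos hX _
  have hNpos : (0:ℝ) < N := by (clear * - hN0 hXd; linarith)
  have hN1 : 1 ≤ N := by
    have : 0 < N := by exact_mod_cast hNpos
    omega
  have h3 : Real.log (T ^ δ / 2) ≤ Real.log N := Real.log_le_log (by positivity) hN0
  rw [Real.log_div (by positivity) (by norm_num), Real.log_rpow hX] at h3
  have h4 : Real.log 2 ≤ 1 := by have := Real.log_two_lt_d9; (clear * - hδ hδ' this; linarith)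
  have h5 : Real.log N ≤ (1 / 2 + 45 * δ) * Real.log T := by
    rw [← Real.log_rpow hX]; exact Real.log_le_log hNpos h.hN1
  refine ⟨h8, hl, hN1, ?_, h5, ?_⟩
  · (clear * - h1 h3 h4; nlinarith)
  · refine le_trans h5 ?_
    have : (1 / 2 + 45 * δ) ≤ 1 := by (clear * - hδ hδ'; linarith)
    (clear * - hδ' h1 hδ; nlinarith)

lemma pow_classD (hP : PowDP) {δ : ℝ} (hδ : 0 < δ) (hδ' : δ ≤ 1 / 1000) (k : ℕ) (hk : 1 ≤ k) (ε1 : ℝ)
    (hε1 : 0 < ε1) :
    ∃ C1 : ℝ, 0 < C1 ∧ ∀ᶠ T : ℝ in atTop, ∀ (x : ℝ) (Z : Finset ℂ)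
    (g : ℕ → ℂ) (N : ℕ), ClsD δ T x Z g N →
    ∃ b : ℕ → ℂ, (∀ n, ‖b n‖ ≤ C1 * (N : ℝ) ^ ε1) ∧
      ∀ ρ ∈ Z, (1 / (16 * Real.log T)) ^ k ≤ ‖DP b (N ^ k) (2 ^ k) ρ‖ := by
  obtain ⟨C1, hC1, h⟩ := hP k ε1 hk hε1
  refine ⟨C1, hC1, ?_⟩
  filter_upwards [baseD hδ hδ'] with T hb x Z g N hcl
  obtain ⟨h8, hl, hN, -⟩ := hb x Z g N hcl
  obtain ⟨b, hb1, hb2⟩ := h g N hN hcl.hg
  refine ⟨b, hb1, fun ρ hρ => ?_⟩
  rw [← hb2, norm_pow]
  exact pow_le_pow_left₀ (by (clear * - hl; positivity)) (hcl.hD ρ hρ) k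

/-- first bound: mean values -/
lemma P1D (hMV : MVCount) (hP : PowDP) {δ : ℝ} (hδ : 0 < δ) (hδ' : δ ≤ 1 / 1000) (k : ℕ) (hk : 1 ≤ k) :
    ∀ᶠ T : ℝ in atTop, ∀ (x : ℝ) (Z : Finset ℂ) (g : ℕ → ℂ) (N : ℕ),
    ClsD δ T x Z g N → Z.Nonempty → (k : ℝ) * Real.log N ≤ 2 * Real.log T →
    Real.log Z.card ≤ max (2 * x * (k * Real.log N))
      (Real.log T - k * Real.log N * (1 - 2 * x)) + 40 * δ * Real.log T := by
  obtain ⟨C1, hC1, hpc⟩ := pow_classD hP hδ hδ' k hk (δ / 10) (by (clear * - hδ; positivity))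
  obtain ⟨C, hC, hmv⟩ := hMV (2 ^ k) (Nat.one_le_two_pow)
  filter_upwards [baseD hδ hδ', hpc, small (2 * k * Real.log 16 + Real.log C + 2 * Real.log C1 + 5 + Real.log 2)
    (2 * k + 2) δ hδ] with T hb hpc hsm x Z g N h hZ hkq
  obtain ⟨h8, hl, hN, hq0, hq1, hq2⟩ := hb x Z g N h
  obtain ⟨b, hb1, hb2⟩ := hpc x Z g N h
  have hx0 := h.hx0
  have hx1 := h.hx1
  have hN' : (1:ℝ) ≤ N := by exact_mod_cast hN
  have hQ : 1 ≤ N ^ k := Nat.one_le_pow _ _ (by omega)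
  have hl0 : 0 < Real.log T := by (clear * - hδ hδ' hl; linarith)
  have hkk : (1:ℝ) ≤ k := by exact_mod_cast hk
  have hZc : (0:ℝ) < Z.card := by exact_mod_cast hZ.card_pos
  set l := Real.log T with hldef
  set q := Real.log N with hqdef
  have hq00 : 0 ≤ q := Real.log_nonneg hN'
  have hVpos : 0 < (1 / (16 * l)) ^ k := by (clear * - hl; positivity)
  have hB : 0 < C1 * (N:ℝ) ^ (δ / 10) := by positivity
  have hmain := hmv Z b (N ^ k) (C1 * (N:ℝ) ^ (δ/10)) ((1 / (16 * l)) ^ k) (1 - x) 1 T (1 / l) hQ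
    (by (clear * - hδ hδ' h8; linarith)) (by positivity) (by rw [div_le_div_iff₀ hl0 (by norm_num)]; (clear * - hδ hδ' hl; linarith)) (by (clear * - hδ hδ' hx1; linarith))
    (by (clear * - hx0; linarith)) (by (clear * - hδ hδ' hx1; linarith)) le_rfl hVpos hB.le hb1 h.hs h.hsp hb2
  have hQpos : (0:ℝ) < ((N ^ k : ℕ) : ℝ) := by exact_mod_cast hQ
  have hlogQ : Real.log ((N ^ k : ℕ) : ℝ) = k * q := by push_cast; rw [Real.log_pow]
  have hlg := Real.log_le_log (by (clear * - hZ hl; positivity)) hmain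
  have hTQ : (0:ℝ) < T + ((N ^ k : ℕ) : ℝ) := by (clear * - hδ hδ' h8 hQpos; linarith)
  rw [Real.log_mul hZc.ne' (by positivity), Real.log_pow, Real.log_pow, Real.log_div (by norm_num) (by positivity),
    Real.log_one, Real.log_mul (by norm_num) hl0.ne', Real.log_mul (by (clear * - hC hC1 hN hl h8; positivity)) (by positivity),
    Real.log_mul (by (clear * - hC hC1 hN hl; positivity)) hTQ.ne', Real.log_div (by positivity) (by positivity), Real.log_mul hC.ne' (by positivity),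
    Real.log_pow, Real.log_mul hC1.ne' (by positivity), Real.log_rpow (by (clear * - hδ hδ' hN'; linarith)), Real.log_rpow hQpos,
    Real.log_pow, Real.log_div (by norm_num) hl0.ne', Real.log_one, hlogQ] at hlg
  have hqq : (2 * (1 / l)) * (k * q) ≤ 4 := by
    have : (2 * (1 / l)) * (k * q) = 2 * (k * q) / l := by ring
    rw [this, div_le_iff₀ hl0]; (clear * - hkq; linarith)
  have hexp : (1 - 2 * (1 - x) + 2 * (1 / l)) * (k * q) = -(k * q * (1 - 2 * x)) + (2 * (1 / l)) * (k * q) := by ring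
  rw [hexp] at hlg
  have hdq : δ / 10 * q ≤ δ / 10 * l := mul_le_mul_of_nonneg_left hq2 (by positivity)
  simp only [Nat.cast_ofNat] at hlg
  rw [← hqdef] at hlg
  have hdl0 : 0 ≤ δ * l := by positivity
  rcases log_add_le (show 0 < T by (clear * - hδ hδ' h8; linarith)) hQpos with hc | hc
  · refine le_trans ?_ (add_le_add_left (le_max_right _ _) _)
    (clear * - hδ hδ' hsm hlg hqq hdq hdl0 hc; linarith)
  · refine le_trans ?_ (add_le_add_left (le_max_left _ _) _)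
    rw [hlogQ] at hc
    (clear * - hδ hδ' hsm hlg hqq hdq hdl0 hc; linarith)

/-- second bound: Huxley -/
lemma P2D (hMV : HuxleyCount) (hP : PowDP) {δ : ℝ} (hδ : 0 < δ) (hδ' : δ ≤ 1 / 1000) (k : ℕ) (hk : 1 ≤ k) :
    ∀ᶠ T : ℝ in atTop, ∀ (x : ℝ) (Z : Finset ℂ) (g : ℕ → ℂ) (N : ℕ),
    ClsD δ T x Z g N → Z.Nonempty → (k : ℝ) * Real.log N ≤ 2 * Real.log T →
    Real.log Z.card ≤ max (2 * x * (k * Real.log N))
      (Real.log T - k * Real.log N * (2 - 6 * x)) + 40 * δ * Real.log T := by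
  obtain ⟨C1, hC1, hpc⟩ := pow_classD hP hδ hδ' k hk (δ / 10) (by positivity)
  obtain ⟨C, hC, hmv⟩ := hMV (2 ^ k) (Nat.one_le_two_pow)
  filter_upwards [baseD hδ hδ', hpc, small (2 * k * Real.log 16 + Real.log C + 2 * Real.log C1 + 2 * Real.log 2)
    (2 * k + 1) δ hδ, small (6 * k * Real.log 16 + Real.log C + 6 * Real.log C1 + 1 + 2 * Real.log 2)
    (6 * k + 1) δ hδ] with T hb hpc hsm1 hsm2 x Z g N h hZ hkq
  obtain ⟨h8, hl, hN, hq0, hq1, hq2⟩ := hb x Z g N h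
  obtain ⟨b, hb1, hb2⟩ := hpc x Z g N h
  have hx0 := h.hx0
  have hx1 := h.hx1
  have hN' : (1:ℝ) ≤ N := by exact_mod_cast hN
  have hQ : 1 ≤ N ^ k := Nat.one_le_pow _ _ (by omega)
  have hl0 : 0 < Real.log T := by (clear * - hδ hδ' hl; linarith)
  have hkk : (1:ℝ) ≤ k := by exact_mod_cast hk
  have hZc : (0:ℝ) < Z.card := by exact_mod_cast hZ.card_pos
  have hT4 : Real.log (T + 2) ≤ 2 * Real.log T := by
    rw [← Real.log_rpow (by (clear * - hδ hδ' h8; linarith) : (0:ℝ) < T)]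
    apply Real.log_le_log (by (clear * - hδ hδ' h8; linarith))
    have e2 : T ^ (2:ℝ) = T * T := by rw [show (2:ℝ) = ((2:ℕ):ℝ) by norm_num, Real.rpow_natCast]; ring
    rw [e2]; (clear * - h8; nlinarith)
  set l := Real.log T with hldef
  set q := Real.log N with hqdef
  have hq00 : 0 ≤ q := Real.log_nonneg hN'
  have hVpos : 0 < (1 / (16 * l)) ^ k := by positivity
  have hB : 0 < C1 * (N:ℝ) ^ (δ / 10) := by positivity
  have hmain := hmv Z b (N ^ k) (C1 * (N:ℝ) ^ (δ/10)) ((1 / (16 * l)) ^ k) (1 - x) 1 T hQ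
    (by (clear * - hδ hδ' h8; linarith)) (by (clear * - hδ hδ' hx1; linarith))
    (by (clear * - hx0; linarith)) (by (clear * - hδ hδ' hx1; linarith)) le_rfl hVpos hB hb1 h.hs h.hsp hb2
  have hQpos : (0:ℝ) < ((N ^ k : ℕ) : ℝ) := by exact_mod_cast hQ
  have hlogQ : Real.log ((N ^ k : ℕ) : ℝ) = k * q := by push_cast; rw [Real.log_pow]
  have hlT : 0 < Real.log (T + 2) := Real.log_pos (by (clear * - hδ hδ' h8; linarith))
  have hllT : Real.log (Real.log (T + 2)) ≤ Real.log 2 + Real.log l := by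
    rw [← Real.log_mul (by norm_num) hl0.ne']
    exact Real.log_le_log hlT hT4
  have hlg := Real.log_le_log (by (clear * - hZ; positivity)) hmain
  have hTp : 0 < T := by (clear * - hδ hδ' h8; linarith)
  have hin : (0:ℝ) < T * ((C1 * (N:ℝ) ^ (δ / 10)) ^ 4 * ((N ^ k : ℕ) : ℝ) ^ (2 - 4 * (1 - x)) / ((1 / (16 * l)) ^ k) ^ 4) := by
    (clear * - h8 hC1 hN hl; positivity)
  have hlogin : Real.log (T * ((C1 * (N:ℝ) ^ (δ / 10)) ^ 4 * ((N ^ k : ℕ) : ℝ) ^ (2 - 4 * (1 - x)) / ((1 / (16 * l)) ^ k) ^ 4)) =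
      Real.log T + (4 * (Real.log C1 + δ / 10 * q) + (2 - 4 * (1 - x)) * (k * q) + 4 * (k * (Real.log 16 + Real.log l))) := by
    rw [Real.log_mul hTp.ne' (by (clear * - hC1 hN hl; positivity)), Real.log_div (by positivity) (by positivity),
      Real.log_mul (by positivity) (by positivity), Real.log_pow, Real.log_pow, Real.log_pow,
      Real.log_mul hC1.ne' (by positivity), Real.log_rpow (by (clear * - hδ hδ' hN'; linarith)), Real.log_rpow hQpos,
      Real.log_div (by norm_num) (by positivity), Real.log_one, Real.log_mul (by norm_num) hl0.ne', hlogQ]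
    simp only [Nat.cast_ofNat]
    rw [← hqdef]
    ring
  rw [Real.log_mul (by (clear * - hC hC1 hN hl hlT; positivity)) (by (clear * - h8 hC1 hN hl; positivity)), Real.log_mul (by (clear * - hC hC1 hN hl; positivity)) hlT.ne', Real.log_mul hC.ne' (by (clear * - hC1 hN hl; positivity)),
    Real.log_div (by (clear * - hC1 hN; positivity)) (by positivity), Real.log_mul (by positivity) (by positivity),
    Real.log_pow, Real.log_mul hC1.ne' (by positivity), Real.log_rpow (by (clear * - hδ hδ' hN'; linarith)), Real.log_rpow hQpos,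
    Real.log_pow, Real.log_pow, Real.log_div (by norm_num) (by positivity), Real.log_one,
    Real.log_mul (by norm_num) hl0.ne', hlogQ] at hlg
  have hdq : δ / 10 * q ≤ δ / 10 * l := mul_le_mul_of_nonneg_left hq2 (by positivity)
  simp only [Nat.cast_ofNat] at hlg
  rw [← hqdef] at hlg
  have hdl0 : 0 ≤ δ * l := by positivity
  rcases log_add_le one_pos hin with hc | hc
  · refine le_trans ?_ (add_le_add_left (le_max_left _ _) _)
    rw [Real.log_one] at hc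
    (clear * - hsm1 hllT hlg hdq hdl0 hc; linarith)
  · refine le_trans ?_ (add_le_add_left (le_max_right _ _) _)
    rw [hlogin] at hc
    (clear * - hδ hδ' hsm2 hllT hlg hdq hdl0 hc; linarith)

/-- one class has at most `T^(2.4 x + 40 δ)` elements -/
lemma class_card (hMV : MVCount) (hHC : HuxleyCount) (hP : PowDP) {δ : ℝ} (hδ : 0 < δ) (hδ' : δ ≤ 1 / 1000) :
    ∀ᶠ T : ℝ in atTop, ∀ (x : ℝ) (Z : Finset ℂ) (g : ℕ → ℂ) (N : ℕ),
    ClsD δ T x Z g N → (Z.card : ℝ) ≤ T ^ (2.4 * x + 40 * δ) := by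
  set K : ℕ := ⌈1.6 / δ + 1⌉₊ with hK
  have e1 : ∀ᶠ T : ℝ in atTop, ∀ k ∈ Finset.Icc 1 K, ∀ (x : ℝ) (Z : Finset ℂ) (g : ℕ → ℂ) (N : ℕ),
      ClsD δ T x Z g N → Z.Nonempty → (k : ℝ) * Real.log N ≤ 2 * Real.log T →
      Real.log Z.card ≤ max (2 * x * (k * Real.log N))
        (Real.log T - k * Real.log N * (1 - 2 * x)) + 40 * δ * Real.log T := by
    rw [Filter.eventually_all_finset]
    intro k hk
    exact P1D hMV hP hδ hδ' k (Finset.mem_Icc.mp hk).1
  have e2 : ∀ᶠ T : ℝ in atTop, ∀ k ∈ Finset.Icc 1 K, ∀ (x : ℝ) (Z : Finset ℂ) (g : ℕ → ℂ) (N : ℕ),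
      ClsD δ T x Z g N → Z.Nonempty → (k : ℝ) * Real.log N ≤ 2 * Real.log T →
      Real.log Z.card ≤ max (2 * x * (k * Real.log N))
        (Real.log T - k * Real.log N * (2 - 6 * x)) + 40 * δ * Real.log T := by
    rw [Filter.eventually_all_finset]
    intro k hk
    exact P2D hHC hP hδ hδ' k (Finset.mem_Icc.mp hk).1
  filter_upwards [baseD hδ hδ', e1, e2] with T hb h1 h2 x Z g N h
  obtain ⟨h8, hl, hN, hq0, hq1, hq2⟩ := hb x Z g N h
  have hx0 := h.hx0
  have hx1 := h.hx1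
  have hT0 : (0 : ℝ) < T := by (clear * - hδ hδ' h8; linarith)
  rcases Z.eq_empty_or_nonempty with hZ | hZ
  · rw [hZ]; simp; positivity
  have hZc : (0:ℝ) < Z.card := by exact_mod_cast hZ.card_pos
  have hl0 : 0 < Real.log T := by (clear * - hδ hδ' hl; linarith)
  set l := Real.log T with hldef
  set q := Real.log N with hqdef
  have hqpos : 0 < q := lt_of_lt_of_le (by (clear * - hδ hl; positivity)) hq0
  set a : ℝ := 0.8 * l / q with ha
  have ha0 : 0 < a := by rw [ha]; (clear * - hl hqpos; positivity)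
  set k : ℕ := ⌈a⌉₊ with hk
  have hk1 : 1 ≤ k := by
    rw [hk]; exact Nat.one_le_ceil_iff.mpr ha0
  have hka : a ≤ k := Nat.le_ceil a
  have hka2 : (k : ℝ) < a + 1 := Nat.ceil_lt_add_one ha0.le
  have haq : a * q = 0.8 * l := by rw [ha]; field_simp
  have hkq1 : 0.8 * l ≤ k * q := by
    rw [← haq]; exact mul_le_mul_of_nonneg_right hka hqpos.le
  have hkq2 : k * q ≤ 1.2 * l := by
    rcases le_or_gt q (0.4 * l) with hc | hc
    · have : (k : ℝ) * q ≤ (a + 1) * q := mul_le_mul_of_nonneg_right hka2.le hqpos.le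
      (clear * - haq hc this; nlinarith)
    · have ha2 : a ≤ 2 := by
        rw [ha, div_le_iff₀ hqpos]; (clear * - hc; linarith)
      have hk2 : k ≤ 2 := by
        rw [hk]; exact Nat.ceil_le.mpr (by exact_mod_cast ha2)
      have hk2' : (k : ℝ) ≤ 2 := by exact_mod_cast hk2
      have h3 : (k : ℝ) * q ≤ 2 * q := mul_le_mul_of_nonneg_right hk2' hqpos.le
      have h4 : 2 * q ≤ (1 + 90 * δ) * l := by (clear * - hq1; linarith)
      have h5 : (1 + 90 * δ) * l ≤ 1.2 * l := mul_le_mul_of_nonneg_right (by (clear * - hδ hδ'; linarith)) hl0.le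
      (clear * - hq1 h3 h5; linarith)
  have hkK : k ∈ Finset.Icc 1 K := by
    rw [Finset.mem_Icc]
    refine ⟨hk1, ?_⟩
    rw [hk, hK]
    apply Nat.ceil_le_ceil
    have : a ≤ 1.6 / δ := by
      rw [ha, div_le_div_iff₀ hqpos hδ]
      (clear * - hq0; nlinarith)
    (clear * - hδ hδ' this; linarith)
  have hkq3 : (k : ℝ) * q ≤ 2 * l := by (clear * - hδ hδ' hl hkq2; linarith)
  have hfin : Real.log Z.card ≤ (2.4 * x + 40 * δ) * l := by
    have m1 : 2 * x * (k * q) ≤ 2.4 * x * l := by (clear * - hδ hδ' hx0 hkq2; nlinarith)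
    rcases le_total x (1 / 4) with hc | hc
    · have h3 := h2 k hkK x Z g N h hZ hkq3
      have m2 : l - k * q * (2 - 6 * x) ≤ 2.4 * x * l := by
        have : 0.8 * l * (2 - 6 * x) ≤ k * q * (2 - 6 * x) :=
          mul_le_mul_of_nonneg_right hkq1 (by (clear * - hδ hδ' hc; linarith))
        (clear * - hc this hδ hδ' hl; nlinarith)
      have m3 := max_le m1 m2
      (clear * - h3 m3; linarith)
    · have h3 := h1 k hkK x Z g N h hZ hkq3
      have m2 : l - k * q * (1 - 2 * x) ≤ 2.4 * x * l := by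
        have : 0.8 * l * (1 - 2 * x) ≤ k * q * (1 - 2 * x) :=
          mul_le_mul_of_nonneg_right hkq1 (by (clear * - hδ hδ' hx1; linarith))
        (clear * - hkq1 hc hδ hδ' hx1 hl; nlinarith)
      have m3 := max_le m1 m2
      (clear * - h3 m3; linarith)
  rw [Real.rpow_def_of_pos hT0, ← Real.log_le_iff_le_exp hZc, ← hldef]
  (clear * - hfin; linarith)

theorem densS (hMV : MVCount) (hHC : HuxleyCount) (hP : PowDP) (hDF : DetectFM45) : DensS := by
  intro ε hε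
  set δ : ℝ := min ε 1 / 1000 with hδdef
  have hmin : 0 < min ε 1 := lt_min hε one_pos
  have hδ : 0 < δ := by rw [hδdef]; positivity
  have hδ' : δ ≤ 1 / 1000 := by
    rw [hδdef]
    have := min_le_right ε 1
    (clear * - this; linarith)
  have hδε : 1000 * δ ≤ ε := by
    rw [hδdef]
    have := min_le_left ε 1
    (clear * - this; linarith)
  obtain ⟨X0, hX0⟩ := hDF 1 δ δ (by norm_num) le_rfl hδ hδ' hδ le_rfl
  have ev := (class_card hMV hHC hP hδ hδ').and ((small (Real.log 4 + 1) 1 δ hδ).and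
    ((eventually_ge_atTop X0).and (eventually_ge_atTop (Real.exp 10))))
  obtain ⟨T0, hT0⟩ := Filter.eventually_atTop.mp ev
  refine ⟨T0, ?_⟩
  intro T x hT hx hx' Z hZ hZp
  obtain ⟨hcc, hsm, hXT, hT10⟩ := hT0 T hT
  have hTpos : 0 < T := (Real.exp_pos _).trans_le hT10
  have hl10 : 10 ≤ Real.log T := by rw [Real.le_log_iff_exp_le hTpos]; exact hT10
  have hT1 : 1 ≤ T := by
    have := Real.add_one_le_exp (10 : ℝ)
    (clear * - hδ hδ' hT10 this; linarith)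
  obtain ⟨g, hg1, hg2⟩ := hX0 T x hXT hx hx'
  have hl0 : 0 < Real.log T := by (clear * - hδ hδ' hl10; linarith)
  -- detected at i
  set det : ℂ → ℕ → Prop := fun ρ i => T ^ δ / 2 ≤ (2 : ℝ) ^ i ∧ (2 : ℝ) ^ i ≤ T ^ ((1:ℝ) / 2 + 45 * δ) ∧
      1 / (16 * Real.log T) ≤ ‖DP g (2 ^ i) 2 ρ‖ with hdet
  set I : ℕ := ⌈2 * Real.log T⌉₊ with hI
  have hspf : ∀ Z' : Finset ℂ, Z' ⊆ Z → Spaced1 Z' := by
    intro Z' hZ' ρ hρ ρ' hρ' hne
    exact hZ ρ (hZ' hρ) ρ' (hZ' hρ') hne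
  have hZ2 : ((Z.filter (fun ρ => ¬ ∃ i, det ρ i)).card : ℝ) ≤ T ^ (2 * x * 1 + 60 * δ) := by
    apply hg2 _ (hspf _ (Finset.filter_subset _ _))
    intro ρ hρ
    rw [Finset.mem_filter] at hρ
    obtain ⟨h1, h2, h3, h4⟩ := hZp ρ hρ.1
    refine ⟨h1, h2, h3, ?_, hρ.2⟩
    have h5 : T ≤ T ^ ((1:ℝ) + 2 * δ) := by
      calc T = T ^ (1:ℝ) := (Real.rpow_one _).symm
        _ ≤ _ := Real.rpow_le_rpow_of_exponent_le hT1 (by (clear * - hδ; linarith))
    (clear * - hδ hδ' h4 h5; linarith)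
  have hZi : ∀ i : ℕ, ((Z.filter (fun ρ => det ρ i)).card : ℝ) ≤ T ^ (2.4 * x + 40 * δ) := by
    intro i
    rcases (Z.filter (fun ρ => det ρ i)).eq_empty_or_nonempty with he | he
    · rw [he]; simp; positivity
    obtain ⟨ρ0, hρ0⟩ := he
    rw [Finset.mem_filter] at hρ0
    apply hcc x _ g (2 ^ i)
    refine ⟨hx, hx', ?_, hspf _ (Finset.filter_subset _ _), hg1, ?_, ?_, ?_⟩
    · intro ρ hρ
      rw [Finset.mem_filter] at hρ
      obtain ⟨h1, h2, h3, h4⟩ := hZp ρ hρ.1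
      refine ⟨h2, ?_, h4⟩
      by_contra hcon
      exact riemannZeta_ne_zero_of_one_le_re (not_le.mp hcon).le h1
    · push_cast; exact hρ0.2.1
    · push_cast; exact hρ0.2.2.1
    · intro ρ hρ
      rw [Finset.mem_filter] at hρ
      exact hρ.2.2.2
  have hcover : Z ⊆ (Z.filter (fun ρ => ¬ ∃ i, det ρ i)) ∪
      (Finset.range (I + 1)).biUnion (fun i => Z.filter (fun ρ => det ρ i)) := by
    intro ρ hρ
    rw [Finset.mem_union, Finset.mem_filter, Finset.mem_biUnion]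
    by_cases h : ∃ i, det ρ i
    · right
      obtain ⟨i, hi⟩ := h
      refine ⟨i, ?_, Finset.mem_filter.mpr ⟨hρ, hi⟩⟩
      rw [Finset.mem_range]
      have h1 : (i : ℝ) * Real.log 2 ≤ (1 / 2 + 45 * δ) * Real.log T := by
        rw [← Real.log_pow, ← Real.log_rpow hTpos]
        exact Real.log_le_log (by positivity) hi.2.1
      have h2 : (i : ℝ) * (1 / 2) ≤ (i : ℝ) * Real.log 2 :=
        mul_le_mul_of_nonneg_left (by (clear * - hδ hδ'; linarith [Real.log_two_gt_d9])) (Nat.cast_nonneg _)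
      have h3 : (i : ℝ) ≤ 2 * Real.log T := by (clear * - hδdef hδ hδ' hl10 h1 h2 hmin; nlinarith)
      have h4 : (i : ℝ) ≤ I := h3.trans (Nat.le_ceil _)
      have h5 : i ≤ I := by exact_mod_cast h4
      omega
    · left
      exact ⟨hρ, h⟩
  have hcard : (Z.card : ℝ) ≤ T ^ (2 * x * 1 + 60 * δ) + (I + 1 : ℕ) * T ^ (2.4 * x + 40 * δ) := by
    have h1 := Finset.card_le_card hcover
    have h2 := (h1.trans (Finset.card_union_le _ _))
    have h3 : (Z.card : ℝ) ≤ ((Z.filter (fun ρ => ¬ ∃ i, det ρ i)).card : ℝ) +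
        (((Finset.range (I + 1)).biUnion (fun i => Z.filter (fun ρ => det ρ i))).card : ℝ) := by
      exact_mod_cast h2
    have h4 : (((Finset.range (I + 1)).biUnion (fun i => Z.filter (fun ρ => det ρ i))).card : ℝ) ≤
        ∑ i ∈ Finset.range (I + 1), ((Z.filter (fun ρ => det ρ i)).card : ℝ) := by
      have := Finset.card_biUnion_le (s := Finset.range (I + 1)) (t := fun i => Z.filter (fun ρ => det ρ i))
      exact_mod_cast this
    have h5 : ∑ i ∈ Finset.range (I + 1), ((Z.filter (fun ρ => det ρ i)).card : ℝ) ≤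
        (I + 1 : ℕ) * T ^ (2.4 * x + 40 * δ) := by
      have := Finset.sum_le_card_nsmul (Finset.range (I + 1)) _ _ (fun i _ => hZi i)
      rwa [Finset.card_range, nsmul_eq_mul] at this
    (clear * - hZ2 h3 h4 h5; linarith)
  have hA : T ^ (2 * x * 1 + 60 * δ) ≤ T ^ (2.4 * x + 60 * δ) :=
    Real.rpow_le_rpow_of_exponent_le hT1 (by (clear * - hx; linarith))
  have hB : T ^ (2.4 * x + 40 * δ) ≤ T ^ (2.4 * x + 60 * δ) :=
    Real.rpow_le_rpow_of_exponent_le hT1 (by (clear * - hδ; linarith))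
  have hI1 : ((I + 1 : ℕ) : ℝ) + 1 ≤ 4 * Real.log T := by
    have := Nat.ceil_lt_add_one (show 0 ≤ 2 * Real.log T by (clear * - hδ hδ' hl10; linarith))
    push_cast
    rw [← hI] at this
    (clear * - hδ hδ' hl10 this; linarith)
  have hlogT : 4 * Real.log T ≤ T ^ δ := by
    rw [Real.rpow_def_of_pos hTpos, ← Real.log_le_iff_le_exp (by positivity),
      Real.log_mul (by norm_num) hl0.ne']
    (clear * - hδ hδ' hsm; linarith)
  calc (Z.card : ℝ) ≤ T ^ (2 * x * 1 + 60 * δ) + (I + 1 : ℕ) * T ^ (2.4 * x + 40 * δ) := hcard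
    _ ≤ T ^ (2.4 * x + 60 * δ) + (I + 1 : ℕ) * T ^ (2.4 * x + 60 * δ) := by (clear * - hA hB hl10; gcongr)
    _ = (((I + 1 : ℕ) : ℝ) + 1) * T ^ (2.4 * x + 60 * δ) := by ring
    _ ≤ (4 * Real.log T) * T ^ (2.4 * x + 60 * δ) := by (clear * - hI1 hTpos; gcongr)
    _ ≤ T ^ δ * T ^ (2.4 * x + 60 * δ) := by gcongr
    _ = T ^ (δ + (2.4 * x + 60 * δ)) := (Real.rpow_add hTpos _ _).symm
    _ ≤ _ := Real.rpow_le_rpow_of_exponent_le hT1 (by (clear * - hδ hδε; linarith))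

end Pool.Agent.M17.Helper26.KC
end

/- Helper53.KN.Helper79.KS.Fix2 -/
section
/-! The fixed point theorem: STAR implies the negation of the Kahane–Saïas statement. -/

set_option autoImplicit false
open Filter Topology
open scoped BoundedContinuousFunction

namespace Pool.Agent.M17.Helper79.KS

/-- cut to `[-1,1]` -/
noncomputable def clip (x : ℝ) : ℝ := max (-1) (min 1 x)

theorem clip_abs (x : ℝ) : |clip x| ≤ 1 := by
  unfold clip
  rw [abs_le]
  exact ⟨le_max_left _ _, max_le (by norm_num) (min_le_left _ _)⟩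

theorem clip_of {x : ℝ} (h : |x| ≤ 1) : clip x = x := by
  rw [abs_le] at h
  unfold clip
  rw [min_eq_right h.2, max_eq_right h.1]

theorem clip_lip (x y : ℝ) : |clip x - clip y| ≤ |x - y| := by
  unfold clip
  refine (abs_max_sub_max_le_max _ _ _ _).trans ?_
  rw [sub_self, abs_zero]
  refine max_le (abs_nonneg _) ?_
  refine (abs_min_sub_min_le_max _ _ _ _).trans ?_
  rw [sub_self, abs_zero]
  exact max_le (abs_nonneg _) le_rfl

section

variable {b : ℕ → ℝ} {w : ℕ → ℕ → ℝ} {a : ℕ → ℕ} {G : ℕ → ℝ}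

end

end Pool.Agent.M17.Helper79.KS
end
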