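import Mathlib
import Pool.Agent.Helper53.KM.G03
import Pool.Agent.Helper53.KM.G06

/- Helper53.KN.Helper10.QRH.StB -/
section
/-! Statements of Part B of project QRH (MP_768c9c_nt): integers n = q m in every interval [x, x+h),
h >= x^(1/2-phi), with a prime q >= x^(1/2+kappa) and m free of primes < x^eta. -/

set_option autoImplicit false
open Filter Topology
open scoped Classical

namespace Pool.Agent.M17.Helper10.QRH

open Pool.Agent.M17.Helper44 (primesUpTo)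

noncomputable def ee (x : ℝ) : ℂ := Complex.exp (2 * Real.pi * x * Complex.I)

/-- B7: few integers divisible by the square of a prime > z -/
def Squares : Prop := ∃ X0 : ℕ, ∀ x h : ℕ, X0 ≤ x → (h : ℝ) ≤ (x : ℝ) ^ (1/2 : ℝ) → ∀ z : ℝ,
    1 ≤ z →
    (((Finset.Ico x (x + h)).filter (fun n => ∃ p : ℕ, p.Prime ∧ z < p ∧ p ^ 2 ∣ n)).card : ℝ) ≤
      2 * h / z + 4 * (x : ℝ) ^ (1/3 : ℝ)

end Pool.Agent.M17.Helper10.QRH
end

/- Helper53.KN.Helper64.QRH.Vdc -/
section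
/-! QRH-B1: van der Corput's second derivative test (project QRH, MP_768c9c_nt). -/

set_option autoImplicit false
open Filter Topology
open scoped Classical

namespace Pool.Agent.M17.Helper64.QRH

open Pool.Agent.M17.Helper10.QRH

/-! ### the exponential -/

theorem ee_add (x y : ℝ) : ee (x + y) = ee x * ee y := by
  unfold ee
  rw [← Complex.exp_add]
  congr 1
  push_cast
  ring

theorem ee_eq (x : ℝ) : ee x = (Real.cos (2 * Real.pi * x) : ℂ) +
    (Real.sin (2 * Real.pi * x) : ℂ) * Complex.I := by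
  unfold ee
  have : (2 * (Real.pi : ℂ) * (x : ℂ) * Complex.I) = ((2 * Real.pi * x : ℝ) : ℂ) * Complex.I := by
    push_cast; ring
  rw [this, Complex.exp_mul_I, Complex.ofReal_cos, Complex.ofReal_sin]

theorem norm_ee (x : ℝ) : ‖ee x‖ = 1 := by
  unfold ee
  have : (2 * (Real.pi : ℂ) * (x : ℂ) * Complex.I) = ((2 * Real.pi * x : ℝ) : ℂ) * Complex.I := by
    push_cast; ring
  rw [this, Complex.norm_exp_ofReal_mul_I]

theorem ee_sub_int (x : ℝ) (m : ℤ) : ee (x - m) = ee x := by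
  rw [ee_eq, ee_eq]
  have h : 2 * Real.pi * (x - m) = 2 * Real.pi * x - m * (2 * Real.pi) := by ring
  rw [h, Real.cos_sub_int_mul_two_pi, Real.sin_sub_int_mul_two_pi]

/-- cotangent of `π x` -/
noncomputable def ct (x : ℝ) : ℝ := Real.cos (Real.pi * x) / Real.sin (Real.pi * x)

/-- `1/(1 - e(x))` -/
noncomputable def gg (x : ℝ) : ℂ := 1 / 2 + (ct x / 2 : ℝ) * Complex.I

theorem sin_lower {D x : ℝ} (hD : 0 < D) (h1 : D ≤ x) (h2 : x ≤ 1 - D) :
    2 * D ≤ Real.sin (Real.pi * x) := by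
  have hpi := Real.pi_pos
  rcases le_total x (1/2) with h | h
  · have := Real.mul_le_sin (x := Real.pi * x) (mul_nonneg hpi.le (by (clear * - hD h1; linarith))) (by (clear * - hD h1 h2 hpi h; nlinarith))
    have h3 : 2 / Real.pi * (Real.pi * x) = 2 * x := by field_simp
    rw [h3] at this
    (clear * - h1 this; linarith)
  · have := Real.mul_le_sin (x := Real.pi * (1 - x)) (by (clear * - hD hpi h2; nlinarith)) (by nlinarith)
    have h3 : 2 / Real.pi * (Real.pi * (1 - x)) = 2 * (1 - x) := by (clear * -; field_simp)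
    rw [h3] at this
    have h4 : Real.sin (Real.pi * (1 - x)) = Real.sin (Real.pi * x) := by
      rw [show Real.pi * (1 - x) = Real.pi - Real.pi * x by ring, Real.sin_pi_sub]
    (clear * - h2 this h4; linarith)

theorem gg_mul {x : ℝ} (h : Real.sin (Real.pi * x) ≠ 0) : (1 - ee x) * gg x = 1 := by
  rw [ee_eq]
  unfold gg ct
  have h2 : 2 * Real.pi * x = 2 * (Real.pi * x) := by ring
  rw [h2, Real.cos_two_mul, Real.sin_two_mul]
  have hs : ((Real.sin (Real.pi * x) : ℝ) : ℂ) ≠ 0 := by exact_mod_cast h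
  have hc := Real.sin_sq_add_cos_sq (Real.pi * x)
  have hcc : ((Real.sin (Real.pi * x) : ℝ) : ℂ) ^ 2 + ((Real.cos (Real.pi * x) : ℝ) : ℂ) ^ 2 = 1 := by
    exact_mod_cast hc
  push_cast [-Complex.ofReal_sin, -Complex.ofReal_cos]
  field_simp
  generalize ((Real.sin (Real.pi * x) : ℝ) : ℂ) = s at hcc ⊢
  generalize ((Real.cos (Real.pi * x) : ℝ) : ℂ) = c at hcc ⊢
  linear_combination (-(2 * Complex.I * c)) * hcc + (-2 * s * c ^ 2) * Complex.I_sq

theorem ct_sub {x y : ℝ} (hx : Real.sin (Real.pi * x) ≠ 0) (hy : Real.sin (Real.pi * y) ≠ 0) :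
    ct x - ct y = Real.sin (Real.pi * (y - x)) / (Real.sin (Real.pi * x) * Real.sin (Real.pi * y)) := by
  unfold ct
  rw [show Real.pi * (y - x) = Real.pi * y - Real.pi * x by ring, Real.sin_sub]
  field_simp

theorem ct_anti {D x y : ℝ} (hD : 0 < D) (h1 : D ≤ x) (hxy : x ≤ y) (h2 : y ≤ 1 - D) :
    ct y ≤ ct x := by
  have hx := sin_lower hD h1 (hxy.trans h2)
  have hy := sin_lower hD (h1.trans hxy) h2
  have h := ct_sub (x := x) (y := y) (by linarith) (by (clear * - hD hy; linarith))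
  have hpi := Real.pi_pos
  have h3 : 0 ≤ Real.sin (Real.pi * (y - x)) :=
    Real.sin_nonneg_of_nonneg_of_le_pi (by (clear * - hxy hpi; nlinarith)) (by (clear * - hD hpi h1 h2; nlinarith))
  have : 0 ≤ ct x - ct y := by
    rw [h]
    apply div_nonneg h3
    apply mul_nonneg <;> linarith
  linarith

theorem abs_ct_le {D x : ℝ} (hD : 0 < D) (h1 : D ≤ x) (h2 : x ≤ 1 - D) :
    |ct x| ≤ 1 / (2 * D) := by
  have hx := sin_lower hD h1 h2
  unfold ct
  rw [abs_div, abs_of_pos (show 0 < Real.sin (Real.pi * x) by linarith)]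
  exact div_le_div₀ zero_le_one (Real.abs_cos_le_one _) (by (clear * - hD; linarith)) hx

theorem norm_gg_le {D x : ℝ} (hD : 0 < D) (hD2 : D ≤ 1/2) (h1 : D ≤ x) (h2 : x ≤ 1 - D) :
    ‖gg x‖ ≤ 3 / (4 * D) := by
  have h := abs_ct_le hD h1 h2
  unfold gg
  calc ‖(1/2 : ℂ) + (ct x / 2 : ℝ) * Complex.I‖ ≤ ‖(1/2 : ℂ)‖ + ‖((ct x / 2 : ℝ) : ℂ) * Complex.I‖ :=
        norm_add_le _ _
    _ = 1/2 + |ct x| / 2 := by
        rw [norm_mul, Complex.norm_I, mul_one, Complex.norm_real, Real.norm_eq_abs, abs_div]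
        norm_num
    _ ≤ 1/2 + (1 / (2 * D)) / 2 := by linarith
    _ ≤ 3 / (4 * D) := by
        rw [div_add_div _ _ (by norm_num) (by norm_num), div_le_div_iff₀ (by norm_num) (by positivity)]
        have : 1 / (2 * D) * D = 1/2 := by field_simp
        (clear * - hD hD2 this; nlinarith)

theorem norm_gg_sub {x y : ℝ} : ‖gg x - gg y‖ = |ct x - ct y| / 2 := by
  unfold gg
  have : (1 / 2 + ((ct x / 2 : ℝ) : ℂ) * Complex.I) - (1 / 2 + ((ct y / 2 : ℝ) : ℂ) * Complex.I)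
      = (((ct x - ct y) / 2 : ℝ) : ℂ) * Complex.I := by
    push_cast; ring
  rw [this, norm_mul, Complex.norm_I, mul_one, Complex.norm_real, Real.norm_eq_abs, abs_div]
  norm_num

/-! ### Kusmin–Landau -/

theorem KL_aux {D : ℝ} (hD : 0 < D) (z : ℕ → ℂ) (x : ℕ → ℝ) (N : ℕ)
    (hz : ∀ n, ‖z n‖ ≤ 1) (hx : ∀ n ≤ N, D ≤ x n ∧ x n ≤ 1 - D)
    (hm : ∀ n < N, x n ≤ x (n + 1)) (hs : ∀ n ≤ N, z (n + 1) = z n * ee (x n)) :
    ‖∑ n ∈ Finset.range (N + 1), z n - (gg (x 0) * z 0 - gg (x N) * z (N + 1))‖ ≤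
      (ct (x 0) - ct (x N)) / 2 := by
  have hg : ∀ n ≤ N, z n = (z n - z (n + 1)) * gg (x n) := by
    intro n hn
    have h := gg_mul (x := x n) (by
      have := sin_lower hD (hx n hn).1 (hx n hn).2
      (clear * - hD this; linarith))
    rw [hs n hn]
    calc z n = z n * 1 := by ring
      _ = z n * ((1 - ee (x n)) * gg (x n)) := by rw [h]
      _ = _ := by ring
  induction N with
  | zero =>
    have h0 := hg 0 le_rfl
    have : ∑ n ∈ Finset.range (0 + 1), z n - (gg (x 0) * z 0 - gg (x 0) * z (0 + 1)) = 0 := by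
      rw [Finset.sum_range_one]
      nth_rewrite 1 [h0]
      ring
    rw [this]
    simp
  | succ N ih =>
    have ih' := ih (fun n hn => hx n (by omega)) (fun n hn => hm n (by omega))
      (fun n hn => hs n (by omega)) (fun n hn => hg n (by omega))
    rw [Finset.sum_range_succ]
    have h0 := hg (N + 1) le_rfl
    have key : ∑ n ∈ Finset.range (N + 1), z n + z (N + 1) -
        (gg (x 0) * z 0 - gg (x (N + 1)) * z (N + 1 + 1)) =
        (∑ n ∈ Finset.range (N + 1), z n - (gg (x 0) * z 0 - gg (x N) * z (N + 1))) +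
        z (N + 1) * (gg (x (N + 1)) - gg (x N)) := by
      have : z (N + 1) + gg (x (N + 1)) * z (N + 1 + 1) = z (N + 1) * gg (x (N + 1)) := by
        nth_rewrite 1 [h0]
        ring
      linear_combination this
    rw [key]
    refine (norm_add_le _ _).trans ?_
    have h1 : ‖z (N + 1) * (gg (x (N + 1)) - gg (x N))‖ ≤ (ct (x N) - ct (x (N + 1))) / 2 := by
      rw [norm_mul, norm_gg_sub]
      have ha := ct_anti hD (hx N (by omega)).1 (hm N (by omega)) (hx (N + 1) le_rfl).2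
      rw [abs_sub_comm, abs_of_nonneg (by (clear * - ha; linarith) : 0 ≤ ct (x N) - ct (x (N + 1)))]
      have := hz (N + 1)
      (clear * - ha this; nlinarith [norm_nonneg (z (N + 1))])
    linarith

theorem KL {D : ℝ} (hD : 0 < D) (hD2 : D ≤ 1/2) (z : ℕ → ℂ) (x : ℕ → ℝ) (N : ℕ)
    (hz : ∀ n, ‖z n‖ ≤ 1) (hx : ∀ n ≤ N, D ≤ x n ∧ x n ≤ 1 - D)
    (hm : ∀ n < N, x n ≤ x (n + 1)) (hs : ∀ n ≤ N, z (n + 1) = z n * ee (x n)) :
    ‖∑ n ∈ Finset.range (N + 1), z n‖ ≤ 2 / D := by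
  have h := KL_aux hD z x N hz hx hm hs
  have h1 := norm_gg_le hD hD2 (hx 0 (by omega)).1 (hx 0 (by omega)).2
  have h2 := norm_gg_le hD hD2 (hx N le_rfl).1 (hx N le_rfl).2
  have h3 := abs_ct_le hD (hx 0 (by omega)).1 (hx 0 (by omega)).2
  have h4 := abs_ct_le hD (hx N le_rfl).1 (hx N le_rfl).2
  have e : ∑ n ∈ Finset.range (N + 1), z n =
      (∑ n ∈ Finset.range (N + 1), z n - (gg (x 0) * z 0 - gg (x N) * z (N + 1))) +
      (gg (x 0) * z 0 - gg (x N) * z (N + 1)) := by ring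
  rw [e]
  refine (norm_add_le _ _).trans ?_
  have h5 : ‖gg (x 0) * z 0 - gg (x N) * z (N + 1)‖ ≤ 3 / (4 * D) + 3 / (4 * D) := by
    refine (norm_sub_le _ _).trans (add_le_add ?_ ?_)
    · rw [norm_mul]
      calc ‖gg (x 0)‖ * ‖z 0‖ ≤ ‖gg (x 0)‖ * 1 :=
            mul_le_mul_of_nonneg_left (hz 0) (norm_nonneg _)
        _ ≤ _ := by (clear * - h1; linarith)
    · rw [norm_mul]
      calc ‖gg (x N)‖ * ‖z (N + 1)‖ ≤ ‖gg (x N)‖ * 1 :=
            mul_le_mul_of_nonneg_left (hz _) (norm_nonneg _)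
        _ ≤ _ := by (clear * - h2; linarith)
  have h6 : (ct (x 0) - ct (x N)) / 2 ≤ 1 / (2 * D) := by
    have := abs_le.1 h3
    have := abs_le.1 h4
    linarith
  calc _ ≤ 1 / (2 * D) + (3 / (4 * D) + 3 / (4 * D)) := by linarith
    _ = 2 / D := by field_simp; norm_num

/-! ### the second derivative test for sequences -/

section seq

variable {z : ℕ → ℂ} {δ : ℕ → ℝ} {N : ℕ} {lam A : ℝ}

theorem delta_diff (h1 : ∀ n, n + 1 < N → lam ≤ δ (n + 1) - δ n) :
    ∀ k p : ℕ, p + k < N → k * lam ≤ δ (p + k) - δ p := by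
  intro k
  induction k with
  | zero => intro p _; simp
  | succ k ih =>
    intro p hp
    have h2 := ih p (by omega)
    have h3 := h1 (p + k) (by omega)
    rw [← add_assoc]
    push_cast
    nlinarith

theorem delta_diff_up (h1 : ∀ n, n + 1 < N → δ (n + 1) - δ n ≤ A * lam) :
    ∀ k p : ℕ, p + k < N → δ (p + k) - δ p ≤ k * (A * lam) := by
  intro k
  induction k with
  | zero => intro p _; simp
  | succ k ih =>
    intro p hp
    have h2 := ih p (by omega)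
    have h3 := h1 (p + k) (by omega)
    rw [← add_assoc]
    push_cast
    (clear * - h2 h3; nlinarith)

theorem delta_mono (hl : 0 < lam) (h1 : ∀ n, n + 1 < N → lam ≤ δ (n + 1) - δ n) {p q : ℕ}
    (hpq : p ≤ q) (hq : q < N) : δ p ≤ δ q := by
  obtain ⟨k, rfl⟩ := Nat.exists_eq_add_of_le hpq
  have := delta_diff h1 k p hq
  have h2 : (0 : ℝ) ≤ k * lam := by positivity
  (clear * - this h2; linarith)

theorem count_le (hl : 0 < lam) (h1 : ∀ n, n + 1 < N → lam ≤ δ (n + 1) - δ n) (T : Finset ℕ)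
    (hT : T ⊆ Finset.range N) {u D : ℝ} (hD : 0 ≤ D) (hu : ∀ n ∈ T, u ≤ δ n ∧ δ n ≤ u + D) :
    (T.card : ℝ) ≤ D / lam + 1 := by
  rcases T.eq_empty_or_nonempty with h | h
  · rw [h]; simp; (clear * - hD hl; positivity)
  · have hp := T.min'_mem h
    have hq := T.max'_mem h
    have hpq : T.min' h ≤ T.max' h := T.min'_le _ hq
    obtain ⟨k, hk⟩ := Nat.exists_eq_add_of_le hpq
    have hqN : T.max' h < N := Finset.mem_range.1 (hT hq)
    have h3 := delta_diff h1 k (T.min' h) (by omega)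
    rw [← hk] at h3
    have h4 : T.card ≤ k + 1 := by
      have : T ⊆ Finset.Icc (T.min' h) (T.max' h) := fun n hn =>
        Finset.mem_Icc.2 ⟨T.min'_le _ hn, T.le_max' _ hn⟩
      have h5 := Finset.card_le_card this
      rw [Nat.card_Icc] at h5
      omega
    have h5 : (T.card : ℝ) ≤ k + 1 := by exact_mod_cast h4
    have h6 : (k : ℝ) ≤ D / lam := by
      rw [le_div_iff₀ hl]
      (clear * - h3 hu hp hq; linarith [(hu _ hp).1, (hu _ hq).2])
    (clear * - h5 h6; linarith)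

theorem mid_le (hl : 0 < lam) (hz : ∀ n, ‖z n‖ ≤ 1) (hs : ∀ n < N, z (n + 1) = z n * ee (δ n))
    (h1 : ∀ n, n + 1 < N → lam ≤ δ (n + 1) - δ n) {D : ℝ} (hD : 0 < D) (hD2 : D ≤ 1/2) (m : ℤ) :
    ‖∑ n ∈ (Finset.range N).filter (fun n => (m : ℝ) + D ≤ δ n ∧ δ n ≤ m + 1 - D), z n‖ ≤ 2 / D := by
  set T := (Finset.range N).filter (fun n => (m : ℝ) + D ≤ δ n ∧ δ n ≤ m + 1 - D) with hT
  rcases T.eq_empty_or_nonempty with h | h
  · rw [h]; simp; positivity
  · have hp := T.min'_mem h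
    have hq := T.max'_mem h
    set p := T.min' h with hpdef
    set q := T.max' h with hqdef
    have hpq : p ≤ q := T.min'_le _ hq
    have hpm := (Finset.mem_filter.1 hp)
    have hqm := (Finset.mem_filter.1 hq)
    have hqN : q < N := Finset.mem_range.1 hqm.1
    obtain ⟨k, hk⟩ := Nat.exists_eq_add_of_le hpq
    have hTI : T = Finset.Icc p q := by
      ext n
      constructor
      · intro hn
        exact Finset.mem_Icc.2 ⟨T.min'_le _ hn, T.le_max' _ hn⟩
      · intro hn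
        rw [Finset.mem_Icc] at hn
        rw [hT, Finset.mem_filter]
        refine ⟨Finset.mem_range.2 (by omega), ?_, ?_⟩
        · exact hpm.2.1.trans (delta_mono hl h1 hn.1 (by omega))
        · exact (delta_mono hl h1 hn.2 hqN).trans hqm.2.2
    have hsum : ∑ n ∈ T, z n = ∑ i ∈ Finset.range (k + 1), z (p + i) := by
      rw [hTI, hk]
      rw [← Finset.Ico_add_one_right_eq_Icc, Finset.sum_Ico_eq_sum_range]
      congr 1
      congr 1
      omega
    rw [hsum]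
    refine KL hD hD2 (fun i => z (p + i)) (fun i => δ (p + i) - m) k (fun n => hz _) ?_ ?_ ?_
    · intro i hi
      have : p + i ∈ T := by
        rw [hTI, Finset.mem_Icc]; omega
      have := (Finset.mem_filter.1 this).2
      constructor <;> (clear * - this; linarith [this.1, this.2])
    · intro i hi
      have := h1 (p + i) (by omega)
      have e : p + (i + 1) = p + i + 1 := by ring
      simp only [e]
      (clear * - hl this; linarith)
    · intro i hi
      have := hs (p + i) (by omega)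
      have e : p + (i + 1) = p + i + 1 := by ring
      simp only [e]
      rw [this, ee_sub_int]

theorem class_le (hl : 0 < lam) (hz : ∀ n, ‖z n‖ ≤ 1) (hs : ∀ n < N, z (n + 1) = z n * ee (δ n))
    (h1 : ∀ n, n + 1 < N → lam ≤ δ (n + 1) - δ n) {D : ℝ} (hD : 0 < D) (hD2 : D ≤ 1/4) (m : ℤ) :
    ‖∑ n ∈ (Finset.range N).filter (fun n => ⌊δ n⌋ = m), z n‖ ≤ 2 / D + 2 * (D / lam + 1) := by
  set T := (Finset.range N).filter (fun n => ⌊δ n⌋ = m) with hT
  set T1 := (Finset.range N).filter (fun n => (m : ℝ) + D ≤ δ n ∧ δ n ≤ m + 1 - D) with hT1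
  set T2 := (Finset.range N).filter (fun n => (m : ℝ) ≤ δ n ∧ δ n < m + D) with hT2
  set T3 := (Finset.range N).filter (fun n => (m : ℝ) + 1 - D < δ n ∧ δ n < m + 1) with hT3
  have d12 : Disjoint T1 T2 := by
    rw [Finset.disjoint_left]
    intro n h h'
    have h1' := (Finset.mem_filter.1 h).2
    have h2' := (Finset.mem_filter.1 h').2
    (clear * - h1' h2'; linarith [h1'.1, h2'.2])
  have d3 : Disjoint (T1 ∪ T2) T3 := by
    rw [Finset.disjoint_left]
    intro n h h'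
    have h2' := (Finset.mem_filter.1 h').2
    rcases Finset.mem_union.1 h with h | h
    · have h1' := (Finset.mem_filter.1 h).2
      (clear * - h2' h1'; linarith [h1'.2, h2'.1])
    · have h1' := (Finset.mem_filter.1 h).2
      linarith [h1'.2, h2'.1]
  have hU : T = (T1 ∪ T2) ∪ T3 := by
    ext n
    rw [Finset.mem_union, Finset.mem_union, hT, hT1, hT2, hT3]
    simp only [Finset.mem_filter, Finset.mem_range, Int.floor_eq_iff]
    constructor
    · rintro ⟨hn, ha, hb⟩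
      rcases lt_or_ge (δ n) (m + D) with h | h
      · exact Or.inl (Or.inr ⟨hn, ha, h⟩)
      · rcases le_or_gt (δ n) (m + 1 - D) with h' | h'
        · exact Or.inl (Or.inl ⟨hn, h, h'⟩)
        · exact Or.inr ⟨hn, h', hb⟩
    · rintro ((⟨hn, ha, hb⟩ | ⟨hn, ha, hb⟩) | ⟨hn, ha, hb⟩)
      · exact ⟨hn, by (clear * - hD ha; linarith), by (clear * - hD hb; linarith)⟩
      · exact ⟨hn, by (clear * - ha; linarith), by (clear * - hD hD2 hb; linarith)⟩
      · exact ⟨hn, by linarith, by linarith⟩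
  rw [hU, Finset.sum_union d3, Finset.sum_union d12]
  have b1 := mid_le hl hz hs h1 hD (by linarith) m
  rw [← hT1] at b1
  have triv : ∀ S : Finset ℕ, ‖∑ n ∈ S, z n‖ ≤ S.card := by
    intro S
    refine (norm_sum_le _ _).trans ?_
    refine (Finset.sum_le_sum (fun n _ => hz n)).trans ?_
    simp
  have b2 : ‖∑ n ∈ T2, z n‖ ≤ D / lam + 1 := by
    refine (triv T2).trans ?_
    refine count_le hl h1 T2 (Finset.filter_subset _ _) (u := m) (D := D) hD.le ?_
    intro n hn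
    have := (Finset.mem_filter.1 hn).2
    exact ⟨this.1, this.2.le⟩
  have b3 : ‖∑ n ∈ T3, z n‖ ≤ D / lam + 1 := by
    refine (triv T3).trans ?_
    refine count_le hl h1 T3 (Finset.filter_subset _ _) (u := m + 1 - D) (D := D) hD.le ?_
    intro n hn
    have := (Finset.mem_filter.1 hn).2
    exact ⟨this.1.le, by (clear * - this; linarith [this.2])⟩
  calc _ ≤ ‖∑ n ∈ T1, z n‖ + ‖∑ n ∈ T2, z n‖ + ‖∑ n ∈ T3, z n‖ := norm_add₃_le
    _ ≤ _ := by linarith

theorem seq_bound (hl : 0 < lam) (hA : 1 ≤ A) (hz : ∀ n, ‖z n‖ ≤ 1)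
    (hs : ∀ n < N, z (n + 1) = z n * ee (δ n))
    (h1 : ∀ n, n + 1 < N → lam ≤ δ (n + 1) - δ n)
    (h2 : ∀ n, n + 1 < N → δ (n + 1) - δ n ≤ A * lam) (hlam : Real.sqrt lam ≤ 1/4) :
    ‖∑ n ∈ Finset.range N, z n‖ ≤ (A * lam * N + 2) * (5 / Real.sqrt lam) := by
  have hr : 0 < Real.sqrt lam := Real.sqrt_pos.2 hl
  rcases Nat.eq_zero_or_pos N with hN | hN
  · subst hN
    simp
    positivity
  set K := (Finset.range N).image (fun n => ⌊δ n⌋) with hK
  have hsum : ∑ n ∈ Finset.range N, z n =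
      ∑ m ∈ K, ∑ n ∈ (Finset.range N).filter (fun n => ⌊δ n⌋ = m), z n := by
    rw [Finset.sum_fiberwise_of_maps_to]
    intro n hn
    exact Finset.mem_image_of_mem _ hn
  have hcard : (K.card : ℝ) ≤ A * lam * N + 2 := by
    have hsub : K ⊆ Finset.Icc ⌊δ 0⌋ ⌊δ (N - 1)⌋ := by
      intro m hm
      obtain ⟨n, hn, rfl⟩ := Finset.mem_image.1 hm
      have hn' := Finset.mem_range.1 hn
      rw [Finset.mem_Icc]
      exact ⟨Int.floor_le_floor (delta_mono hl h1 (Nat.zero_le n) hn'),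
        Int.floor_le_floor (delta_mono hl h1 (by omega) (by omega))⟩
    have h3 := Finset.card_le_card hsub
    rw [Int.card_Icc] at h3
    have h01 : ⌊δ 0⌋ ≤ ⌊δ (N - 1)⌋ :=
      Int.floor_le_floor (delta_mono hl h1 (Nat.zero_le _) (by omega))
    have h4 : (K.card : ℤ) ≤ ⌊δ (N - 1)⌋ + 1 - ⌊δ 0⌋ := by omega
    have h5 : (K.card : ℝ) ≤ ⌊δ (N - 1)⌋ + 1 - ⌊δ 0⌋ := by exact_mod_cast h4
    have h6 := delta_diff_up h2 (N - 1) 0 (by omega)
    rw [zero_add] at h6
    have h7 := Int.floor_le (δ (N - 1))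
    have h8 := Int.sub_one_lt_floor (δ 0)
    have h9 : ((N - 1 : ℕ) : ℝ) * (A * lam) ≤ A * lam * N := by
      rw [mul_comm]
      apply mul_le_mul_of_nonneg_left _ (by positivity)
      exact_mod_cast Nat.sub_le N 1
    (clear * - h5 h6 h7 h8 h9; linarith)
  rw [hsum]
  refine (norm_sum_le _ _).trans ?_
  have hc : ∀ m ∈ K, ‖∑ n ∈ (Finset.range N).filter (fun n => ⌊δ n⌋ = m), z n‖ ≤
      5 / Real.sqrt lam := by
    intro m _
    refine (class_le hl hz hs h1 hr hlam m).trans ?_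
    have e1 : Real.sqrt lam / lam = 1 / Real.sqrt lam := by
      rw [div_eq_div_iff hl.ne' hr.ne', Real.mul_self_sqrt hl.le, one_mul]
    rw [e1]
    have : 4 ≤ 1 / Real.sqrt lam := by
      rw [le_div_iff₀ hr]; (clear * - hlam; linarith)
    have e2 : 5 / Real.sqrt lam = 2 / Real.sqrt lam + 3 * (1 / Real.sqrt lam) := by ring
    rw [e2]
    (clear * - hlam hr this; linarith)
  refine (Finset.sum_le_card_nsmul _ _ _ hc).trans ?_
  rw [nsmul_eq_mul]
  exact mul_le_mul_of_nonneg_right hcard (by positivity)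

end seq

/-! ### the test -/

end Pool.Agent.M17.Helper64.QRH
end

/- Helper53.KN.Helper67.KSZ.Weyl -/
section
/-! KSZ (MP_768c9c_nt): van der Corput's inequality (Weyl differencing). -/

set_option autoImplicit false
open scoped ComplexConjugate

namespace Pool.Agent.M17.Helper67.KSZ

/-- truncation of a sequence -/
noncomputable def trunc (z : ℕ → ℂ) (N : ℕ) (n : ℕ) : ℂ := if n < N then z n else 0

/-- shifted truncation -/
noncomputable def shifted (z : ℕ → ℂ) (N j m : ℕ) : ℂ := if j ≤ m then trunc z N (m - j) else 0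

theorem sum_shift (F : ℕ → ℂ) (N M j : ℕ) (hF : ∀ n, N ≤ n → F n = 0) (hM : j + N ≤ M) :
    ∑ m ∈ Finset.range M, (if j ≤ m then F (m - j) else 0) = ∑ n ∈ Finset.range N, F n := by
  obtain ⟨d, rfl⟩ := Nat.exists_eq_add_of_le hM
  rw [add_assoc, Finset.sum_range_add]
  have h1 : ∑ x ∈ Finset.range j, (if j ≤ x then F (x - j) else 0) = 0 := by
    apply Finset.sum_eq_zero
    intro x hx
    rw [if_neg (by rw [Finset.mem_range] at hx; omega)]
  have h2 : ∑ x ∈ Finset.range (N + d), (if j ≤ j + x then F (j + x - j) else 0) =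
      ∑ x ∈ Finset.range (N + d), F x := by
    apply Finset.sum_congr rfl
    intro x _
    rw [if_pos (by omega), Nat.add_sub_cancel_left]
  rw [h1, h2, zero_add, Finset.sum_range_add]
  have h3 : ∑ x ∈ Finset.range d, F (N + x) = 0 :=
    Finset.sum_eq_zero (fun x _ => hF _ (by omega))
  rw [h3, add_zero]

theorem sum_shifted (z : ℕ → ℂ) (N H j : ℕ) (hj : j < H) :
    ∑ m ∈ Finset.range (N + H), shifted z N j m = ∑ n ∈ Finset.range N, z n := by
  unfold shifted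
  rw [sum_shift (trunc z N) N (N + H) j (fun n hn => by rw [trunc, if_neg (by omega)]) (by omega)]
  apply Finset.sum_congr rfl
  intro n hn
  rw [trunc, if_pos (Finset.mem_range.1 hn)]

/-- correlation -/
noncomputable def corr (z : ℕ → ℂ) (N r : ℕ) : ℂ :=
  ∑ n ∈ Finset.range (N - r), z (n + r) * conj (z n)

theorem sum_prod (z : ℕ → ℂ) (N H j r : ℕ) (hj : j + r < H) :
    ∑ m ∈ Finset.range (N + H), shifted z N j m * conj (shifted z N (j + r) m) =
      corr z N r := by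
  have h1 : ∀ m, shifted z N j m * conj (shifted z N (j + r) m) =
      if j + r ≤ m then (fun n => trunc z N (n + r) * conj (trunc z N n)) (m - (j + r)) else 0 := by
    intro m
    unfold shifted
    by_cases h : j + r ≤ m
    · rw [if_pos (by omega), if_pos h, if_pos h]
      have e : m - j = m - (j + r) + r := by omega
      rw [e]
    · rw [if_neg h, if_neg h]; simp
  rw [Finset.sum_congr rfl (fun m _ => h1 m)]
  rw [sum_shift (fun n => trunc z N (n + r) * conj (trunc z N n)) (N - r) (N + H) (j + r) ?_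
    (by omega)]
  · unfold corr
    apply Finset.sum_congr rfl
    intro n hn
    have := Finset.mem_range.1 hn
    simp only [trunc]
    rw [if_pos (by omega), if_pos (by omega)]
  · intro n hn
    simp only [trunc]
    rw [if_neg (by omega), zero_mul]

theorem norm_sum_prod (z : ℕ → ℂ) (N H j j' : ℕ) (hj : j < H) (hj' : j' < H) :
    ‖∑ m ∈ Finset.range (N + H), shifted z N j m * conj (shifted z N j' m)‖ =
      ‖corr z N (Nat.dist j j')‖ := by
  rcases le_total j j' with h | h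
  · obtain ⟨r, rfl⟩ := Nat.exists_eq_add_of_le h
    rw [sum_prod z N H j r hj', Nat.dist_eq_sub_of_le h, Nat.add_sub_cancel_left]
  · obtain ⟨r, rfl⟩ := Nat.exists_eq_add_of_le h
    rw [Nat.dist_comm, Nat.dist_eq_sub_of_le h, Nat.add_sub_cancel_left,
      ← sum_prod z N H j' r hj, ← RCLike.norm_conj, map_sum]
    congr 1
    apply Finset.sum_congr rfl
    intro m _
    rw [map_mul, Complex.conj_conj, mul_comm]

theorem sum_dist_le (τ : ℕ → ℝ) (hτ : ∀ r, 0 ≤ τ r) (H j : ℕ) (hj : j < H) :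
    ∑ j' ∈ Finset.range H, τ (Nat.dist j j') ≤
      τ 0 + 2 * ∑ x ∈ Finset.range (H - 1), τ (x + 1) := by
  obtain ⟨d, rfl⟩ := Nat.exists_eq_add_of_lt hj
  have e : j + d + 1 = j + (1 + d) := by ring
  rw [e, Finset.sum_range_add, Finset.sum_range_add]
  have h1 : ∑ x ∈ Finset.range j, τ (Nat.dist j x) = ∑ x ∈ Finset.range j, τ (x + 1) := by
    rw [← Finset.sum_range_reflect]
    apply Finset.sum_congr rfl
    intro x hx
    have := Finset.mem_range.1 hx
    rw [Nat.dist_comm, Nat.dist_eq_sub_of_le (by omega)]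
    congr 1
    omega
  have h2 : ∑ x ∈ Finset.range d, τ (Nat.dist j (j + (1 + x))) =
      ∑ x ∈ Finset.range d, τ (x + 1) := by
    apply Finset.sum_congr rfl
    intro x hx
    rw [Nat.dist_eq_sub_of_le (by omega)]
    congr 1
    omega
  rw [h1, h2]
  simp only [Finset.sum_range_one, add_zero, Nat.dist_self]
  have h3 : ∑ x ∈ Finset.range j, τ (x + 1) ≤ ∑ x ∈ Finset.range (j + (1 + d) - 1), τ (x + 1) :=
    Finset.sum_le_sum_of_subset_of_nonneg (Finset.range_subset_range.2 (by omega))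
      (fun _ _ _ => hτ _)
  have h4 : ∑ x ∈ Finset.range d, τ (x + 1) ≤ ∑ x ∈ Finset.range (j + (1 + d) - 1), τ (x + 1) :=
    Finset.sum_le_sum_of_subset_of_nonneg (Finset.range_subset_range.2 (by omega))
      (fun _ _ _ => hτ _)
  linarith

theorem weyl_vdc (z : ℕ → ℂ) (N H : ℕ) (hH : 1 ≤ H) :
    ‖∑ n ∈ Finset.range N, z n‖ ^ 2 * H ≤ (N + H : ℕ) *
      (‖corr z N 0‖ + 2 * ∑ x ∈ Finset.range (H - 1), ‖corr z N (x + 1)‖) := by
  set S := ∑ n ∈ Finset.range N, z n with hS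
  have hH' : (0 : ℝ) < H := by exact_mod_cast hH
  have h1 : (H : ℂ) * S = ∑ m ∈ Finset.range (N + H), ∑ j ∈ Finset.range H, shifted z N j m := by
    rw [Finset.sum_comm, Finset.sum_congr rfl (fun j hj => sum_shifted z N H j
      (Finset.mem_range.1 hj))]
    simp [hS]
  have h2 : (H * ‖S‖) ^ 2 ≤ (N + H : ℕ) *
      ∑ m ∈ Finset.range (N + H), ‖∑ j ∈ Finset.range H, shifted z N j m‖ ^ 2 := by
    have : (H : ℝ) * ‖S‖ = ‖(H : ℂ) * S‖ := by simp
    rw [this, h1]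
    have h3 := sq_sum_le_card_mul_sum_sq (s := Finset.range (N + H))
      (f := fun m => ‖∑ j ∈ Finset.range H, shifted z N j m‖)
    rw [Finset.card_range] at h3
    refine le_trans ?_ h3
    exact pow_le_pow_left₀ (norm_nonneg _) (norm_sum_le _ _) 2
  have h3 : ∑ m ∈ Finset.range (N + H), ‖∑ j ∈ Finset.range H, shifted z N j m‖ ^ 2 ≤
      ∑ j ∈ Finset.range H, ∑ j' ∈ Finset.range H, ‖corr z N (Nat.dist j j')‖ := by
    have h4 : ((∑ m ∈ Finset.range (N + H), ‖∑ j ∈ Finset.range H, shifted z N j m‖ ^ 2 : ℝ) : ℂ) =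
        ∑ j ∈ Finset.range H, ∑ j' ∈ Finset.range H,
          ∑ m ∈ Finset.range (N + H), shifted z N j m * conj (shifted z N j' m) := by
      push_cast
      rw [Finset.sum_congr rfl (fun j _ => Finset.sum_comm), Finset.sum_comm]
      apply Finset.sum_congr rfl
      intro m _
      rw [← Complex.mul_conj', map_sum, Finset.sum_mul_sum]
    have h5 : ∑ m ∈ Finset.range (N + H), ‖∑ j ∈ Finset.range H, shifted z N j m‖ ^ 2 =
        ‖((∑ m ∈ Finset.range (N + H), ‖∑ j ∈ Finset.range H, shifted z N j m‖ ^ 2 : ℝ) : ℂ)‖ := by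
      rw [Complex.norm_real, Real.norm_of_nonneg]
      exact Finset.sum_nonneg (fun _ _ => by positivity)
    rw [h5, h4]
    refine (norm_sum_le _ _).trans (Finset.sum_le_sum (fun j hj => ?_))
    refine (norm_sum_le _ _).trans (Finset.sum_le_sum (fun j' hj' => ?_))
    exact (norm_sum_prod z N H j j' (Finset.mem_range.1 hj) (Finset.mem_range.1 hj')).le
  have h4 : ∑ j ∈ Finset.range H, ∑ j' ∈ Finset.range H, ‖corr z N (Nat.dist j j')‖ ≤
      H * (‖corr z N 0‖ + 2 * ∑ x ∈ Finset.range (H - 1), ‖corr z N (x + 1)‖) := by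
    have := Finset.sum_le_card_nsmul (Finset.range H)
      (fun j => ∑ j' ∈ Finset.range H, ‖corr z N (Nat.dist j j')‖)
      (‖corr z N 0‖ + 2 * ∑ x ∈ Finset.range (H - 1), ‖corr z N (x + 1)‖)
      (fun j hj => sum_dist_le (fun r => ‖corr z N r‖) (fun _ => norm_nonneg _) H j
        (Finset.mem_range.1 hj))
    rwa [Finset.card_range, nsmul_eq_mul] at this
  have h5 : (H * ‖S‖) ^ 2 ≤ (N + H : ℕ) *
      (H * (‖corr z N 0‖ + 2 * ∑ x ∈ Finset.range (H - 1), ‖corr z N (x + 1)‖)) :=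
    h2.trans (mul_le_mul_of_nonneg_left (h3.trans h4) (by positivity))
  have h6 : H * (‖S‖ ^ 2 * H) ≤ H * ((N + H : ℕ) *
      (‖corr z N 0‖ + 2 * ∑ x ∈ Finset.range (H - 1), ‖corr z N (x + 1)‖)) := by
    calc H * (‖S‖ ^ 2 * H) = (H * ‖S‖) ^ 2 := by ring
      _ ≤ _ := h5
      _ = _ := by ring
  exact le_of_mul_le_mul_left h6 hH'

end Pool.Agent.M17.Helper67.KSZ
end

/- Helper53.KN.Helper67.KSZ.KTest -/
section
/-! KSZ (MP_768c9c_nt): the k-th derivative test for exponential sums, in a discrete form. -/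

set_option autoImplicit false
open scoped ComplexConjugate

namespace Pool.Agent.M17.Helper67.KSZ

open Pool.Agent.M17.Helper10.QRH (ee)
open Pool.Agent.M17.Helper64.QRH (ee_add ee_eq norm_ee seq_bound)

/-- iterated forward differences -/
noncomputable def dk : ℕ → (ℕ → ℝ) → ℕ → ℝ
  | 0, f => f
  | k + 1, f => dk k (fun n => f (n + 1) - f n)

theorem dk_shift (k : ℕ) : ∀ (f : ℕ → ℝ) (r n : ℕ), dk k (fun n => f (n + r)) n = dk k f (n + r) := by
  induction k with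
  | zero => intro f r n; rfl
  | succ k ih =>
    intro f r n
    show dk k (fun n => f (n + 1 + r) - f (n + r)) n = dk k (fun n => f (n + 1) - f n) (n + r)
    rw [← ih (fun n => f (n + 1) - f n) r n]
    congr 1
    funext m
    have : m + 1 + r = m + r + 1 := by ring
    rw [this]

theorem dk_sub (k : ℕ) : ∀ (f g : ℕ → ℝ) (n : ℕ),
    dk k (fun n => f n - g n) n = dk k f n - dk k g n := by
  induction k with
  | zero => intro f g n; rfl
  | succ k ih =>
    intro f g n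
    show dk k (fun n => (f (n + 1) - g (n + 1)) - (f n - g n)) n =
      dk k (fun n => f (n + 1) - f n) n - dk k (fun n => g (n + 1) - g n) n
    rw [← ih]
    congr 1
    funext m
    ring

theorem dk_succ (k : ℕ) (f : ℕ → ℝ) (n : ℕ) : dk (k + 1) f n = dk k f (n + 1) - dk k f n := by
  show dk k (fun n => f (n + 1) - f n) n = _
  rw [dk_sub k (fun n => f (n + 1)) f n, dk_shift]

theorem dk_diff (k : ℕ) (f : ℕ → ℝ) (r n : ℕ) :
    dk k (fun n => f (n + r) - f n) n = ∑ j ∈ Finset.range r, dk (k + 1) f (n + j) := by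
  rw [dk_sub k (fun n => f (n + r)) f n, dk_shift]
  have : ∀ j ∈ Finset.range r, dk (k + 1) f (n + j) =
      (fun j => dk k f (n + j)) (j + 1) - (fun j => dk k f (n + j)) j := by
    intro j _
    rw [dk_succ]
    rfl
  rw [Finset.sum_congr rfl this, Finset.sum_range_sub (fun j => dk k f (n + j)) r]
  simp

/-- the k-th difference test -/
def KTest (k : ℕ) (α β C : ℝ) : Prop := ∀ (N : ℕ) (f : ℕ → ℝ) (lam A : ℝ), 0 < lam → 1 ≤ A →
  (∀ n, n + k ≤ N → lam ≤ dk k f n ∧ dk k f n ≤ A * lam) →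
  ‖∑ n ∈ Finset.range N, ee (f n)‖ ≤
    C * A * (N * lam ^ α + (N : ℝ) ^ (1 - β) * lam ^ (-α))

theorem norm_sum_ee_le (N : ℕ) (f : ℕ → ℝ) : ‖∑ n ∈ Finset.range N, ee (f n)‖ ≤ N := by
  refine (norm_sum_le _ _).trans ?_
  rw [Finset.sum_congr rfl (fun n _ => norm_ee (f n))]
  simp

theorem conj_ee (x : ℝ) : conj (ee x) = ee (-x) := by
  rw [ee_eq, ee_eq, map_add, map_mul, Complex.conj_ofReal, Complex.conj_ofReal, Complex.conj_I,
    mul_neg, mul_neg, Real.cos_neg, Real.sin_neg]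
  push_cast
  ring

theorem corr_ee (f : ℕ → ℝ) (N r : ℕ) :
    corr (fun n => ee (f n)) N r = ∑ n ∈ Finset.range (N - r), ee (f (n + r) - f n) := by
  unfold corr
  apply Finset.sum_congr rfl
  intro n _
  rw [conj_ee, ← ee_add, sub_eq_add_neg]

theorem ktest_two : KTest 2 (1 / 2) 1 10 := by
  intro N f lam A hl hA h
  rcases Nat.eq_zero_or_pos N with hN | hN
  · subst hN
    simp only [Finset.range_zero, Finset.sum_empty, norm_zero]
    (clear * - hA hl; positivity)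
  have hN' : (1 : ℝ) ≤ N := by exact_mod_cast hN
  have hr : 0 < Real.sqrt lam := Real.sqrt_pos.2 hl
  rw [← Real.sqrt_eq_rpow, Real.rpow_neg hl.le, ← Real.sqrt_eq_rpow, sub_self, Real.rpow_zero,
    one_mul]
  by_cases hs : Real.sqrt lam ≤ 1 / 4
  · have h1 := seq_bound (z := fun n => ee (f n)) (δ := fun n => f (n + 1) - f n) (N := N)
      (lam := lam) (A := A) hl hA (fun n => (norm_ee _).le)
      (fun n _ => by rw [← ee_add]; congr 1; ring)
      (fun n hn => (h n (by omega)).1) (fun n hn => (h n (by omega)).2) hs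
    refine h1.trans ?_
    have e : A * lam * N * (5 / Real.sqrt lam) = 5 * A * N * Real.sqrt lam := by
      have : lam = Real.sqrt lam * Real.sqrt lam := (Real.mul_self_sqrt hl.le).symm
      field_simp
      (clear * - this hl; nlinarith [Real.sq_sqrt hl.le])
    have h2 : (A * lam * N + 2) * (5 / Real.sqrt lam) =
        5 * A * N * Real.sqrt lam + 10 * (Real.sqrt lam)⁻¹ := by
      rw [add_mul, e]; ring
    rw [h2]
    have h3 : 0 < (Real.sqrt lam)⁻¹ := inv_pos.2 hr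
    have h4 : 0 < A * N * Real.sqrt lam := by (clear * - hA hN hl; positivity)
    (clear * - h4 hA h3; nlinarith)
  · refine (norm_sum_ee_le N f).trans ?_
    push Not at hs
    have h3 : 0 < (Real.sqrt lam)⁻¹ := inv_pos.2 hr
    have h4 : (N : ℝ) * (1 / 4) ≤ N * Real.sqrt lam := by (clear * - hs; nlinarith)
    have h5 : 0 ≤ N * Real.sqrt lam := by (clear * - hN hl; positivity)
    calc (N : ℝ) ≤ 10 * 1 * (N * Real.sqrt lam + 0) := by (clear * - hN' h4; linarith)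
      _ ≤ 10 * A * (N * Real.sqrt lam + (Real.sqrt lam)⁻¹) := by gcongr

theorem sum_rpow_neg_le {α : ℝ} (h0 : 0 < α) (h1 : α ≤ 1 / 2) (n : ℕ) :
    ∑ x ∈ Finset.range n, ((x + 1 : ℕ) : ℝ) ^ (-α) ≤ 2 * (n : ℝ) ^ (1 - α) := by
  induction n with
  | zero => simp; positivity
  | succ n ih =>
    rw [Finset.sum_range_succ]
    have hn : (0 : ℝ) < ((n + 1 : ℕ) : ℝ) := by (clear * -; positivity)
    have h2 : (n : ℝ) ^ (1 - α) ≤
        ((n + 1 : ℕ) : ℝ) ^ (1 - α) - (1 - α) * ((n + 1 : ℕ) : ℝ) ^ (-α) := by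
      have e : (n : ℝ) = ((n + 1 : ℕ) : ℝ) * (1 + (-1 / ((n + 1 : ℕ) : ℝ))) := by
        rw [mul_add, mul_div_assoc', mul_one, mul_neg_one, neg_div, div_self hn.ne']
        push_cast; ring
      have hnn : (-1 : ℝ) ≤ -1 / ((n + 1 : ℕ) : ℝ) := by
        rw [le_div_iff₀ hn]
        push_cast
        have : (0 : ℝ) ≤ n := Nat.cast_nonneg n
        (clear * -; linarith)
      have hb := rpow_one_add_le_one_add_mul_self hnn (p := 1 - α) (by (clear * - h0 h1; linarith)) (by (clear * - h0; linarith))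
      calc (n : ℝ) ^ (1 - α) = (((n + 1 : ℕ) : ℝ) * (1 + (-1 / ((n + 1 : ℕ) : ℝ)))) ^ (1 - α) := by
            rw [← e]
        _ = ((n + 1 : ℕ) : ℝ) ^ (1 - α) * (1 + (-1 / ((n + 1 : ℕ) : ℝ))) ^ (1 - α) :=
            Real.mul_rpow hn.le (by (clear * - hnn; linarith))
        _ ≤ ((n + 1 : ℕ) : ℝ) ^ (1 - α) * (1 + (1 - α) * (-1 / ((n + 1 : ℕ) : ℝ))) :=
            mul_le_mul_of_nonneg_left hb (by (clear * -; positivity))
        _ = ((n + 1 : ℕ) : ℝ) ^ (1 - α) - (1 - α) * (((n + 1 : ℕ) : ℝ) ^ (1 - α) /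
              ((n + 1 : ℕ) : ℝ)) := by ring
        _ = _ := by
            congr 2
            rw [div_eq_mul_inv, ← Real.rpow_neg_one, ← Real.rpow_add hn]
            congr 1
            ring
    have h3 : 0 ≤ ((n + 1 : ℕ) : ℝ) ^ (-α) := by (clear * -; positivity)
    (clear * - ih h2 h1 h3; nlinarith)

/-- the induction step -/
theorem ktest_succ {k : ℕ} {α β C : ℝ} (h0 : 0 < α) (h1 : α ≤ 1 / 2) (hβ : β ≤ 1)
    (hC : 0 ≤ C) (h : KTest k α β C) :
    KTest (k + 1) (α / (2 * (1 + α))) (β / 2) (4 * (1 + C)) := by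
  intro N f lam A hl hA hd
  set α' : ℝ := α / (2 * (1 + α)) with hα'
  have hα'0 : 0 < α' := by positivity
  have hrel : (1 - 2 * α') * α = 2 * α' := by
    rw [hα']; field_simp; ring
  have hrel2 : 0 < 1 - 2 * α' := by
    have : 1 - 2 * α' = 1 / (1 + α) := by rw [hα']; field_simp; ring
    rw [this]; (clear * - h0; positivity)
  rcases Nat.eq_zero_or_pos N with hN | hN
  · subst hN
    simp only [Finset.range_zero, Finset.sum_empty, norm_zero]
    (clear * - hC hA hl; positivity)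
  have hN' : (1 : ℝ) ≤ N := by exact_mod_cast hN
  have hN0 : (0 : ℝ) < N := by (clear * - hα'0 hrel2 hN'; linarith)
  set S := ‖∑ n ∈ Finset.range N, ee (f n)‖ with hS
  have htriv : S ≤ N := norm_sum_ee_le N f
  have hP1 : 0 ≤ N * lam ^ α' := by (clear * - hN hl; positivity)
  have hP2 : 0 ≤ (N : ℝ) ^ (1 - β / 2) * lam ^ (-α') := by positivity
  have hCA : 1 ≤ 4 * (1 + C) * A := by (clear * - h1 hC hA hrel h0 hα'0; nlinarith)
  -- trivial cases
  by_cases hlam1 : 1 ≤ lam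
  · have h2 : 1 ≤ lam ^ α' := Real.one_le_rpow hlam1 hα'0.le
    have h3 : (N : ℝ) ≤ N * lam ^ α' := by (clear * - h2; nlinarith)
    (clear * - htriv hP2 h3 hα'0 hrel2 hP1 hCA; nlinarith)
  push Not at hlam1
  set H0 : ℝ := lam ^ (-(2 * α')) with hH0
  have hH0pos : 0 < H0 := by positivity
  have hH01 : 1 ≤ H0 := Real.one_le_rpow_of_pos_of_le_one_of_nonpos hl hlam1.le (by (clear * - hα'0; linarith))
  by_cases hbig : (N : ℝ) < H0
  · have h2 : (N : ℝ) ^ (1 / 2 : ℝ) ≤ lam ^ (-α') := by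
      have h3 : (N : ℝ) ^ (1 / 2 : ℝ) ≤ H0 ^ (1 / 2 : ℝ) :=
        Real.rpow_le_rpow hN0.le hbig.le (by norm_num)
      refine h3.trans (le_of_eq ?_)
      rw [hH0, ← Real.rpow_mul hl.le]
      congr 1
      ring
    have h4 : (N : ℝ) ^ (1 / 2 : ℝ) ≤ (N : ℝ) ^ (1 - β / 2) :=
      Real.rpow_le_rpow_of_exponent_le hN' (by (clear * - hβ; linarith))
    have h5 : (N : ℝ) ≤ (N : ℝ) ^ (1 - β / 2) * lam ^ (-α') := by
      calc (N : ℝ) = (N : ℝ) ^ (1 / 2 : ℝ) * (N : ℝ) ^ (1 / 2 : ℝ) := by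
            rw [← Real.rpow_add hN0]; norm_num
        _ ≤ _ := mul_le_mul h4 h2 (by positivity) (by positivity)
    (clear * - htriv hP1 h5 hα'0 hrel2 hCA hP2; nlinarith)
  push Not at hbig
  -- main case
  set H : ℕ := ⌊H0⌋₊ with hHdef
  have hH1 : 1 ≤ H := Nat.one_le_iff_ne_zero.2 (by
    intro h0
    rw [hHdef, Nat.floor_eq_zero] at h0
    (clear * - hH01 h0; linarith))
  have hHle : (H : ℝ) ≤ H0 := Nat.floor_le hH0pos.le
  have hHge : H0 / 2 ≤ H := by
    have h2 := Nat.lt_floor_add_one H0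
    have h3 : (1 : ℝ) ≤ H := by exact_mod_cast hH1
    rw [← hHdef] at h2
    (clear * - h2 h3; linarith)
  have hHpos : (0 : ℝ) < H := by exact_mod_cast hH1
  have hHN : (H : ℝ) ≤ N := hHle.trans hbig
  have e0 : H0 * lam = lam ^ (1 - 2 * α') := by
    calc H0 * lam = lam ^ (-(2 * α')) * lam ^ (1 : ℝ) := by rw [Real.rpow_one]
      _ = lam ^ (1 - 2 * α') := by
        rw [← Real.rpow_add hl]
        congr 1
        ring
  -- facts
  set u : ℝ := lam ^ (2 * α') with hu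
  set v : ℝ := lam ^ (-(2 * α')) with hv
  have hupos : 0 < u := by positivity
  have hvpos : 0 < v := by positivity
  have huv : u * v = 1 := by
    rw [hu, hv, ← Real.rpow_add hl]; simp
  have f1 : 1 / (H : ℝ) ≤ 2 * u := by
    rw [div_le_iff₀ hHpos]
    have : u * H0 = 1 := huv
    (clear * - hHge huv hH0pos; nlinarith)
  have f2 : ((H : ℝ) * lam) ^ α ≤ u := by
    have h2 : (H : ℝ) * lam ≤ lam ^ (1 - 2 * α') := by
      calc (H : ℝ) * lam ≤ H0 * lam := by (clear * - hHle hl; gcongr)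
        _ = lam ^ (1 - 2 * α') := e0
    calc ((H : ℝ) * lam) ^ α ≤ (lam ^ (1 - 2 * α')) ^ α :=
          Real.rpow_le_rpow (by (clear * - hH1 hl; positivity)) h2 h0.le
      _ = u := by rw [← Real.rpow_mul hl.le, hrel]
  have f3 : ((H : ℝ) * lam) ^ (-α) ≤ 2 * v := by
    have h2 : lam ^ (1 - 2 * α') / 2 ≤ (H : ℝ) * lam := by
      calc lam ^ (1 - 2 * α') / 2 = H0 / 2 * lam := by
            rw [← e0]; ring
        _ ≤ H * lam := by (clear * - hHge hl; gcongr)
    have h3 : 0 < lam ^ (1 - 2 * α') / 2 := by positivity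
    calc ((H : ℝ) * lam) ^ (-α) ≤ (lam ^ (1 - 2 * α') / 2) ^ (-α) :=
          Real.rpow_le_rpow_of_nonpos h3 h2 (by (clear * - h0; linarith))
      _ = (lam ^ (1 - 2 * α')) ^ (-α) / 2 ^ (-α) := Real.div_rpow (by positivity) (by norm_num) _
      _ = v * 2 ^ α := by
          rw [← Real.rpow_mul hl.le, Real.rpow_neg (by norm_num : (0 : ℝ) ≤ 2), div_inv_eq_mul]
          congr 2
          (clear * - hrel; linarith)
      _ ≤ v * 2 ^ (1 : ℝ) := by
          apply mul_le_mul_of_nonneg_left _ hvpos.le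
          exact Real.rpow_le_rpow_of_exponent_le (by norm_num) (by (clear * - h1 hα'0 hrel2; linarith))
      _ = 2 * v := by rw [Real.rpow_one]; ring
  -- Weyl differencing
  have hW := weyl_vdc (fun n => ee (f n)) N H hH1
  have hc0 : ‖corr (fun n => ee (f n)) N 0‖ ≤ N := by
    rw [corr_ee]
    exact norm_sum_ee_le _ _
  have hcr : ∀ x ∈ Finset.range (H - 1), ‖corr (fun n => ee (f n)) N (x + 1)‖ ≤
      C * A * (N * u) + C * A * ((N : ℝ) ^ (1 - β) * lam ^ (-α)) * ((x + 1 : ℕ) : ℝ) ^ (-α) := by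
    intro x hx
    have hx' := Finset.mem_range.1 hx
    rw [corr_ee]
    have hxpos : (0 : ℝ) < ((x + 1 : ℕ) : ℝ) := by (clear * -; positivity)
    have h2 := h (N - (x + 1)) (fun n => f (n + (x + 1)) - f n) (((x + 1 : ℕ) : ℝ) * lam) A
      (by (clear * - hl; positivity)) hA (by
        intro n hn
        rw [dk_diff]
        by_cases hNx : x + 1 ≤ N
        · have h3 : ∀ j ∈ Finset.range (x + 1), lam ≤ dk (k + 1) f (n + j) ∧
              dk (k + 1) f (n + j) ≤ A * lam := by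
            intro j hj
            have := Finset.mem_range.1 hj
            exact hd (n + j) (by (clear * - α lam hn hNx this; omega))
          constructor
          · have := Finset.card_nsmul_le_sum (Finset.range (x + 1)) (fun j => dk (k + 1) f (n + j))
              lam (fun j hj => (h3 j hj).1)
            rwa [Finset.card_range, nsmul_eq_mul] at this
          · have := Finset.sum_le_card_nsmul (Finset.range (x + 1)) (fun j => dk (k + 1) f (n + j))
              (A * lam) (fun j hj => (h3 j hj).2)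
            rw [Finset.card_range, nsmul_eq_mul] at this
            (clear * - this; linarith)
        · exfalso
          have : (x : ℝ) + 1 ≤ N := by
            have h5 : x + 1 ≤ H := by omega
            have h6 : ((x + 1 : ℕ) : ℝ) ≤ H := by exact_mod_cast h5
            push_cast at h6
            (clear * - hbig hHle h6; linarith)
          exact hNx (by exact_mod_cast this))
    refine h2.trans ?_
    have hNr : ((N - (x + 1) : ℕ) : ℝ) ≤ N := by exact_mod_cast Nat.sub_le _ _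
    have h3 : (((x + 1 : ℕ) : ℝ) * lam) ^ α ≤ u := by
      refine le_trans (Real.rpow_le_rpow (by (clear * - hl; positivity)) ?_ h0.le) f2
      have h5 : x + 1 ≤ H := by omega
      have h6 : ((x + 1 : ℕ) : ℝ) ≤ H := by exact_mod_cast h5
      (clear * - h6 hl; gcongr)
    have h4 : (((x + 1 : ℕ) : ℝ) * lam) ^ (-α) = ((x + 1 : ℕ) : ℝ) ^ (-α) * lam ^ (-α) :=
      Real.mul_rpow hxpos.le hl.le
    have h5 : ((N - (x + 1) : ℕ) : ℝ) ^ (1 - β) ≤ (N : ℝ) ^ (1 - β) :=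
      Real.rpow_le_rpow (Nat.cast_nonneg _) hNr (by (clear * - hβ; linarith))
    have hCA0 : 0 ≤ C * A := by (clear * - hC hA; positivity)
    calc C * A * (((N - (x + 1) : ℕ) : ℝ) * (((x + 1 : ℕ) : ℝ) * lam) ^ α +
          ((N - (x + 1) : ℕ) : ℝ) ^ (1 - β) * (((x + 1 : ℕ) : ℝ) * lam) ^ (-α))
        ≤ C * A * (N * u + (N : ℝ) ^ (1 - β) * (((x + 1 : ℕ) : ℝ) ^ (-α) * lam ^ (-α))) := by
          rw [h4]
          (clear * - hNr h3 hl hN h5 hC hA; gcongr)
      _ = _ := by ring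
  have hsum : ∑ x ∈ Finset.range (H - 1), ‖corr (fun n => ee (f n)) N (x + 1)‖ ≤
      H * (C * A * (N * u)) + C * A * ((N : ℝ) ^ (1 - β) * lam ^ (-α)) * (2 * (H : ℝ) ^ (1 - α)) := by
    refine (Finset.sum_le_sum hcr).trans ?_
    rw [Finset.sum_add_distrib]
    have hHm : ((H - 1 : ℕ) : ℝ) ≤ H := by exact_mod_cast Nat.sub_le _ _
    have h2 : ∑ x ∈ Finset.range (H - 1), C * A * (N * u) ≤ H * (C * A * (N * u)) := by
      rw [Finset.sum_const, Finset.card_range, nsmul_eq_mul]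
      gcongr
    have h3 : ∑ x ∈ Finset.range (H - 1), ((x + 1 : ℕ) : ℝ) ^ (-α) ≤ 2 * (H : ℝ) ^ (1 - α) := by
      refine (sum_rpow_neg_le h0 h1 _).trans ?_
      have := Real.rpow_le_rpow (Nat.cast_nonneg _) hHm (z := 1 - α) (by (clear * - h1 hα'0 hrel2; linarith))
      (clear * - this; linarith)
    have hCA0 : 0 ≤ C * A * ((N : ℝ) ^ (1 - β) * lam ^ (-α)) := by (clear * - hC hA hN hl; positivity)
    refine add_le_add h2 ?_
    rw [← Finset.mul_sum]
    exact mul_le_mul_of_nonneg_left h3 hCA0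
  have hHα : (H : ℝ) ^ (1 - α) * lam ^ (-α) = H * ((H : ℝ) * lam) ^ (-α) := by
    rw [Real.mul_rpow hHpos.le hl.le, sub_eq_add_neg, Real.rpow_add hHpos, Real.rpow_one]
    ring
  have hS2 : S ^ 2 * H ≤ (2 * N) * (N + 2 * (H * (C * A * (N * u)) +
      C * A * (N : ℝ) ^ (1 - β) * (2 * (H * (2 * v))))) := by
    refine hW.trans ?_
    have hNH : ((N + H : ℕ) : ℝ) ≤ 2 * N := by push_cast; (clear * - hbig hHle; linarith)
    have h2 : ‖corr (fun n => ee (f n)) N 0‖ +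
        2 * ∑ x ∈ Finset.range (H - 1), ‖corr (fun n => ee (f n)) N (x + 1)‖ ≤
        N + 2 * (H * (C * A * (N * u)) + C * A * (N : ℝ) ^ (1 - β) * (2 * (H * (2 * v)))) := by
      have h3 : C * A * ((N : ℝ) ^ (1 - β) * lam ^ (-α)) * (2 * (H : ℝ) ^ (1 - α)) ≤
          C * A * (N : ℝ) ^ (1 - β) * (2 * (H * (2 * v))) := by
        calc C * A * ((N : ℝ) ^ (1 - β) * lam ^ (-α)) * (2 * (H : ℝ) ^ (1 - α)) =
            C * A * (N : ℝ) ^ (1 - β) * (2 * ((H : ℝ) ^ (1 - α) * lam ^ (-α))) := by ring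
          _ = C * A * (N : ℝ) ^ (1 - β) * (2 * (H * ((H : ℝ) * lam) ^ (-α))) := by rw [hHα]
          _ ≤ _ := by (clear * - f3 hH1 hC hA hN; gcongr)
      (clear * - hc0 hsum h3; linarith)
    refine mul_le_mul hNH h2 ?_ (by positivity)
    have : 0 ≤ ∑ x ∈ Finset.range (H - 1), ‖corr (fun n => ee (f n)) N (x + 1)‖ :=
      Finset.sum_nonneg (fun _ _ => norm_nonneg _)
    have h5 := norm_nonneg (corr (fun n => ee (f n)) N 0)
    (clear * - this h5; linarith)
  -- divide by H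
  have hS3 : S ^ 2 ≤ (2 * N) * (N * (2 * u) + 2 * (C * A * (N * u)) +
      8 * C * A * (N : ℝ) ^ (1 - β) * v) := by
    have h2 : S ^ 2 * H ≤ ((2 * N) * (N * (1 / H) + 2 * (C * A * (N * u)) +
      8 * C * A * (N : ℝ) ^ (1 - β) * v)) * H := by
      refine hS2.trans (le_of_eq ?_)
      field_simp
      ring
    have h3 := le_of_mul_le_mul_right h2 hHpos
    refine h3.trans ?_
    (clear * - f1 hN; gcongr)
  have hS4 : S ^ 2 ≤ (4 * (1 + C) * A * (N * lam ^ α' + (N : ℝ) ^ (1 - β / 2) * lam ^ (-α'))) ^ 2 := by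
    have e1 : (N * lam ^ α') ^ 2 = N * (N * u) := by
      rw [mul_pow, hu, two_mul, Real.rpow_add hl]; ring
    have e2 : ((N : ℝ) ^ (1 - β / 2) * lam ^ (-α')) ^ 2 = N * (N : ℝ) ^ (1 - β) * v := by
      rw [mul_pow, hv, ← Real.rpow_natCast, ← Real.rpow_natCast, ← Real.rpow_mul hN0.le,
        ← Real.rpow_mul hl.le]
      have : (N : ℝ) * (N : ℝ) ^ (1 - β) = (N : ℝ) ^ (1 + (1 - β)) := by
        rw [Real.rpow_add hN0, Real.rpow_one]
      rw [this]
      congr 1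
      · congr 1; push_cast; ring
      · congr 1; push_cast; ring
    have h2 : (N * lam ^ α' + (N : ℝ) ^ (1 - β / 2) * lam ^ (-α')) ^ 2 ≥
        N * (N * u) + N * (N : ℝ) ^ (1 - β) * v := by
      rw [← e1, ← e2]
      (clear * - hP1 hP2; nlinarith [mul_nonneg hP1 hP2])
    have hAA : A ≤ A ^ 2 := by (clear * - hA; nlinarith)
    have hCC : 1 + C ≤ (1 + C) ^ 2 := by (clear * - hC; nlinarith)
    have hQ1 : 0 ≤ N * (N * u) := by (clear * - hN hl; positivity)
    have hQ2 : 0 ≤ N * (N : ℝ) ^ (1 - β) * v := by positivity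
    have hK : 16 * (1 + C) * A ≤ (4 * (1 + C) * A) ^ 2 := by
      have : (1 + C) * A ≤ (1 + C) ^ 2 * A ^ 2 := by
        apply mul_le_mul hCC hAA (by (clear * - hA hα'0 hrel2; linarith)) (by (clear * - hC; positivity))
      (clear * - this; nlinarith)
    calc S ^ 2 ≤ (2 * N) * (N * (2 * u) + 2 * (C * A * (N * u)) +
          8 * C * A * (N : ℝ) ^ (1 - β) * v) := hS3
      _ = (4 + 4 * C * A) * (N * (N * u)) + 16 * C * A * (N * (N : ℝ) ^ (1 - β) * v) := by ring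
      _ ≤ 16 * (1 + C) * A * (N * (N * u)) + 16 * (1 + C) * A * (N * (N : ℝ) ^ (1 - β) * v) := by
          have hCA' : 0 ≤ C * A := by positivity
          apply add_le_add
          · apply mul_le_mul_of_nonneg_right _ hQ1
            (clear * - hA hα'0 hrel2 hCA'; nlinarith)
          · apply mul_le_mul_of_nonneg_right _ hQ2
            (clear * - hA hα'0 hrel2; nlinarith)
      _ = 16 * (1 + C) * A * (N * (N * u) + N * (N : ℝ) ^ (1 - β) * v) := by ring
      _ ≤ (4 * (1 + C) * A) ^ 2 * (N * lam ^ α' + (N : ℝ) ^ (1 - β / 2) * lam ^ (-α')) ^ 2 := by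
          apply mul_le_mul hK h2 (by (clear * - hN hl; positivity)) (by (clear * - hC hA; positivity))
      _ = _ := by ring
  exact le_of_sq_le_sq hS4 (by (clear * - hC hA hN hl; positivity))

/-- the k-th difference test for all `k ≥ 2` -/
theorem ktest (k : ℕ) : ∃ C : ℝ, 1 ≤ C ∧
    KTest (k + 2) (1 / (2 ^ (k + 2) - 2)) (4 / 2 ^ (k + 2)) C := by
  induction k with
  | zero =>
    refine ⟨10, by norm_num, ?_⟩
    have := ktest_two
    norm_num at this ⊢
    exact this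
  | succ k ih =>
    obtain ⟨C, hC, h⟩ := ih
    have hp : (1 : ℝ) ≤ 2 ^ k := one_le_pow₀ (by norm_num)
    have h4 : (2 : ℝ) ^ (k + 2) = 4 * 2 ^ k := by rw [pow_add]; ring
    have h8 : (2 : ℝ) ^ (k + 1 + 2) = 8 * 2 ^ k := by rw [pow_add, pow_add]; ring
    have h5 : (0 : ℝ) < 2 ^ (k + 2) - 2 := by rw [h4]; (clear * - hp; linarith)
    have h6 := ktest_succ (k := k + 2) (α := 1 / (2 ^ (k + 2) - 2)) (β := 4 / 2 ^ (k + 2)) (C := C)
      (by (clear * - h5; positivity)) (by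
        rw [div_le_div_iff₀ h5 (by norm_num), h4]; (clear * - hp; linarith)) (by
        rw [div_le_one (by positivity), h4]; (clear * - hp; linarith)) (by linarith) h
    refine ⟨4 * (1 + C), by (clear * - hC; linarith), ?_⟩
    have e1 : (1 : ℝ) / (2 ^ (k + 2) - 2) / (2 * (1 + 1 / (2 ^ (k + 2) - 2))) =
        1 / (2 ^ (k + 1 + 2) - 2) := by
      have h9 : (2 : ℝ) ^ (k + 1 + 2) - 2 = 2 * ((2 ^ (k + 2) - 2) + 1) := by rw [h4, h8]; ring
      rw [h9]
      generalize (2 : ℝ) ^ (k + 2) - 2 = D at h5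
      (clear * - h5; field_simp)
    have e2 : (4 : ℝ) / 2 ^ (k + 2) / 2 = 4 / 2 ^ (k + 1 + 2) := by
      rw [h4, h8]; field_simp; ring
    rw [e1, e2] at h6
    exact h6

end Pool.Agent.M17.Helper67.KSZ
end

/- Helper53.KN.Helper67.KSZ.ExpSum -/
section
/-! KSZ (MP_768c9c_nt): exponential sums `∑ n^(-it)` over dyadic intervals. -/

set_option autoImplicit false
open scoped ComplexConjugate

namespace Pool.Agent.M17.Helper67.KSZ

open Pool.Agent.M17.Helper10.QRH (ee)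
open Pool.Agent.M17.Helper64.QRH (ee_add ee_eq norm_ee KL)

/-! ### differences of smooth functions -/

/-- iterated forward differences of a function of a real variable -/
noncomputable def Dk : ℕ → (ℝ → ℝ) → ℝ → ℝ
  | 0, g => g
  | k + 1, g => Dk k (fun x => g (x + 1) - g x)

theorem dk_eq_Dk (k : ℕ) : ∀ (g : ℝ → ℝ) (a : ℝ) (i : ℕ), dk k (fun i => g (a + i)) i = Dk k g (a + i) := by
  induction k with
  | zero => intro g a i; rfl
  | succ k ih =>
    intro g a i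
    show dk k (fun n => g (a + ((n + 1 : ℕ) : ℝ)) - g (a + n)) i = Dk k (fun x => g (x + 1) - g x) (a + i)
    rw [← ih]
    congr 1
    funext n
    push_cast
    rw [add_assoc]

theorem Dk_mvt (k : ℕ) : ∀ (G : ℕ → ℝ → ℝ), (∀ j x, 0 < x → HasDerivAt (G j) (G (j + 1) x) x) →
    ∀ x : ℝ, 0 < x → ∃ ξ ∈ Set.Icc x (x + k), Dk k (G 0) x = G k ξ := by
  induction k with
  | zero =>
    intro G _ x _
    exact ⟨x, ⟨le_rfl, by simp⟩, rfl⟩
  | succ k ih =>
    intro G hG x hx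
    obtain ⟨ξ, hξ, h⟩ := ih (fun j y => G j (y + 1) - G j y) (fun j y hy => by
      have e1 : HasDerivAt (fun x => G j (x + 1)) (G (j + 1) (y + 1)) y :=
        HasDerivAt.comp_add_const y 1 (hG j (y + 1) (by (clear * - hy; linarith)))
      exact e1.sub (hG j y hy)) x hx
    have hξ0 : 0 < ξ := lt_of_lt_of_le hx hξ.1
    obtain ⟨η, hη, hη'⟩ := exists_hasDerivAt_eq_slope (G k) (G (k + 1))
      (show ξ < ξ + 1 by linarith)
      (fun y hy => (hG k y (lt_of_lt_of_le hξ0 hy.1)).continuousAt.continuousWithinAt)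
      (fun y hy => hG k y (lt_trans hξ0 hy.1))
    refine ⟨η, ⟨by linarith [hξ.1, hη.1], ?_⟩, ?_⟩
    · push_cast
      linarith [hξ.2, hη.2]
    · show Dk k (fun x => G 0 (x + 1) - G 0 x) x = G (k + 1) η
      rw [hη', h]
      simp

/-- the derivatives of `log` -/
noncomputable def Glog : ℕ → ℝ → ℝ
  | 0, x => Real.log x
  | j + 1, x => (-1) ^ j * (j.factorial : ℝ) * (x ^ (j + 1))⁻¹

theorem Glog_deriv (j : ℕ) (x : ℝ) (hx : 0 < x) : HasDerivAt (Glog j) (Glog (j + 1) x) x := by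
  cases j with
  | zero =>
    have h := Real.hasDerivAt_log hx.ne'
    have e0 : Glog 0 = Real.log := by funext y; rfl
    have e1 : Glog (0 + 1) x = x⁻¹ := by simp [Glog]
    rw [e0, e1]
    exact h
  | succ j =>
    have h1 : HasDerivAt (fun y : ℝ => y ^ (j + 1)) (((j + 1 : ℕ) : ℝ) * x ^ j) x := by
      have := hasDerivAt_pow (j + 1) x
      simpa using this
    have h2 := (h1.inv (by positivity)).const_mul ((-1 : ℝ) ^ j * (j.factorial : ℝ))
    have e : (-1 : ℝ) ^ j * (j.factorial : ℝ) * (-(((j + 1 : ℕ) : ℝ) * x ^ j) / (x ^ (j + 1)) ^ 2) =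
        Glog (j + 1 + 1) x := by
      simp only [Glog]
      rw [Nat.factorial_succ, pow_succ (-1 : ℝ) j]
      push_cast
      field_simp
      ring
    rw [← e]
    exact h2

theorem dk_log_bounds (k : ℕ) (a : ℝ) (ha : 0 < a) (i : ℕ) :
    (k.factorial : ℝ) * ((a + i + (k + 1)) ^ (k + 1))⁻¹ ≤
      (-1) ^ k * dk (k + 1) (fun i => Real.log (a + i)) i ∧
    (-1) ^ k * dk (k + 1) (fun i => Real.log (a + i)) i ≤
      (k.factorial : ℝ) * (a ^ (k + 1))⁻¹ := by
  have hi : (0 : ℝ) ≤ i := Nat.cast_nonneg i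
  rw [dk_eq_Dk (k + 1) Real.log a i]
  obtain ⟨ξ, hξ, h⟩ := Dk_mvt (k + 1) Glog Glog_deriv (a + i) (by (clear * - ha; linarith))
  have h' : Dk (k + 1) Real.log (a + i) = (-1) ^ k * (k.factorial : ℝ) * (ξ ^ (k + 1))⁻¹ := h
  have hξ0 : 0 < ξ := by (clear * - ha hξ; linarith [hξ.1])
  have e : (-1 : ℝ) ^ k * Dk (k + 1) Real.log (a + i) = (k.factorial : ℝ) * (ξ ^ (k + 1))⁻¹ := by
    rw [h', ← mul_assoc, ← mul_assoc, ← mul_pow]
    norm_num
  rw [e]
  have hf : (0 : ℝ) ≤ k.factorial := Nat.cast_nonneg _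
  constructor
  · apply mul_le_mul_of_nonneg_left _ hf
    apply inv_anti₀ (by positivity)
    apply pow_le_pow_left₀ hξ0.le
    have := hξ.2
    push_cast at this
    (clear * - this; linarith)
  · apply mul_le_mul_of_nonneg_left _ hf
    apply inv_anti₀ (by positivity)
    apply pow_le_pow_left₀ ha.le
    (clear * - hξ; linarith [hξ.1])

/-! ### the exponential sums -/

theorem nit_eq {n : ℕ} (hn : 0 < n) (t : ℝ) :
    (n : ℂ) ^ (-((t : ℂ) * Complex.I)) = ee (-(t / (2 * Real.pi)) * Real.log n) := by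
  have hn' : (n : ℂ) ≠ 0 := by exact_mod_cast hn.ne'
  have hlog : Complex.log (n : ℂ) = ((Real.log n : ℝ) : ℂ) := by
    rw [← Complex.ofReal_natCast, Complex.ofReal_log (Nat.cast_nonneg n)]
  rw [Complex.cpow_def_of_ne_zero hn', hlog, ee]
  congr 1
  have hpi : (Real.pi : ℂ) ≠ 0 := by exact_mod_cast Real.pi_ne_zero
  push_cast
  field_simp

theorem sum_Ioc_eq (F : ℕ → ℂ) (N N1 : ℕ) :
    ∑ n ∈ Finset.Ioc N N1, F n = ∑ i ∈ Finset.range (N1 - N), F (N + 1 + i) := by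
  have : Finset.Ioc N N1 = Finset.Ico (N + 1) (N1 + 1) := by
    ext n; simp only [Finset.mem_Ioc, Finset.mem_Ico]; omega
  rw [this, Finset.sum_Ico_eq_sum_range]
  congr 2
  omega

/-- the shape of the sums -/
noncomputable def Sit (t : ℝ) (N N1 : ℕ) : ℂ :=
  ∑ n ∈ Finset.Ioc N N1, (n : ℂ) ^ (-((t : ℂ) * Complex.I))

theorem norm_Sit (t : ℝ) (N N1 : ℕ) (e : ℝ) (he : e = 1 ∨ e = -1) : ‖Sit t N N1‖ =
    ‖∑ i ∈ Finset.range (N1 - N), ee (e * (t / (2 * Real.pi)) * Real.log (((N + 1 : ℕ) : ℝ) + i))‖ := by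
  have h1 : Sit t N N1 = ∑ i ∈ Finset.range (N1 - N),
      ee (-(t / (2 * Real.pi)) * Real.log (((N + 1 : ℕ) : ℝ) + i)) := by
    unfold Sit
    rw [sum_Ioc_eq]
    apply Finset.sum_congr rfl
    intro i _
    rw [nit_eq (by omega)]
    congr 3
    push_cast
    ring
  rcases he with rfl | rfl
  · rw [h1, ← RCLike.norm_conj, map_sum]
    congr 1
    apply Finset.sum_congr rfl
    intro i _
    rw [conj_ee]
    congr 1
    ring
  · rw [h1]
    congr 1
    apply Finset.sum_congr rfl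
    intro i _
    congr 1
    ring

theorem norm_Sit_le (t : ℝ) {N N1 : ℕ} (h : N1 ≤ 2 * N) : ‖Sit t N N1‖ ≤ N := by
  rw [norm_Sit t N N1 1 (Or.inl rfl)]
  refine (norm_sum_ee_le _ _).trans ?_
  have : N1 - N ≤ N := by omega
  exact_mod_cast this

/-- A1: the k-th derivative test for `∑ n^(-it)` -/
theorem A1 (k : ℕ) (hk : 2 ≤ k) : ∃ C : ℝ, 0 < C ∧ ∀ (N N1 : ℕ) (t : ℝ), 1 ≤ N → N < N1 →
    N1 ≤ 2 * N → 0 < t →
    ‖∑ n ∈ Finset.Ioc N N1, (n : ℂ) ^ (-((t : ℂ) * Complex.I))‖ ≤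
      C * (N * (t / (N : ℝ) ^ k) ^ (1 / (2 ^ k - 2) : ℝ) +
        (N : ℝ) ^ (1 - 4 / 2 ^ k : ℝ) * ((N : ℝ) ^ k / t) ^ (1 / (2 ^ k - 2) : ℝ)) := by
  obtain ⟨m, rfl⟩ := Nat.exists_eq_add_of_le' hk
  obtain ⟨C, hC, hT⟩ := ktest m
  set α : ℝ := 1 / (2 ^ (m + 2) - 2) with hα
  set β : ℝ := 4 / 2 ^ (m + 2) with hβ
  have hp : (1 : ℝ) ≤ 2 ^ m := one_le_pow₀ (by norm_num)
  have h4 : (2 : ℝ) ^ (m + 2) = 4 * 2 ^ m := by rw [pow_add]; ring
  have hα0 : 0 < α := by
    rw [hα, h4]; apply div_pos one_pos; (clear * - hp; linarith)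
  have hβ1 : β ≤ 1 := by rw [hβ, h4, div_le_one (by positivity)]; (clear * - hp; linarith)
  set c : ℝ := ((m + 1).factorial : ℝ) / (2 * Real.pi) / 3 ^ (m + 2) with hc
  have hc0 : 0 < c := by
    have := Real.pi_pos
    have : (0 : ℝ) < (m + 1).factorial := by exact_mod_cast Nat.factorial_pos _
    positivity
  set A : ℝ := 3 ^ (m + 2) with hA
  have hA1 : 1 ≤ A := one_le_pow₀ (by norm_num)
  refine ⟨C * A * (c ^ α + c ^ (-α)), by positivity, ?_⟩
  intro N N1 t hN hN1 hN2 ht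
  have hNr : (1 : ℝ) ≤ N := by exact_mod_cast hN
  have hN0 : (0 : ℝ) < N := by (clear * - hNr; linarith)
  set lam : ℝ := c * (t / (N : ℝ) ^ (m + 2)) with hlam
  have hlam0 : 0 < lam := by positivity
  have h := norm_Sit t N N1 ((-1) ^ (m + 1)) (neg_one_pow_eq_or ℝ (m + 1))
  unfold Sit at h
  rw [h]
  have hfac : (0 : ℝ) < (m + 1).factorial := by exact_mod_cast Nat.factorial_pos _
  have hcond : ∀ n, n + (m + 2) ≤ N1 - N →
      lam ≤ dk (m + 2) (fun i => (-1) ^ (m + 1) * (t / (2 * Real.pi)) *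
        Real.log (((N + 1 : ℕ) : ℝ) + i)) n ∧
      dk (m + 2) (fun i => (-1) ^ (m + 1) * (t / (2 * Real.pi)) *
        Real.log (((N + 1 : ℕ) : ℝ) + i)) n ≤ A * lam := by
    intro n hn
    have e : dk (m + 2) (fun i => (-1) ^ (m + 1) * (t / (2 * Real.pi)) *
        Real.log (((N + 1 : ℕ) : ℝ) + i)) n =
        (t / (2 * Real.pi)) * ((-1) ^ (m + 1) * dk (m + 2) (fun i =>
        Real.log (((N + 1 : ℕ) : ℝ) + i)) n) := by
      have hlin : ∀ (k : ℕ) (a : ℝ) (f : ℕ → ℝ) (n : ℕ), dk k (fun n => a * f n) n = a * dk k f n := by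
        intro k
        induction k with
        | zero => intro a f n; rfl
        | succ k ih =>
          intro a f n
          show dk k (fun n => a * f (n + 1) - a * f n) n = a * dk k (fun n => f (n + 1) - f n) n
          rw [← ih]
          congr 1
          funext n
          ring
      rw [hlin]
      ring
    rw [e]
    have hb := dk_log_bounds (m + 1) ((N + 1 : ℕ) : ℝ) (by positivity) n
    have hpi := Real.pi_pos
    have htp : 0 < t / (2 * Real.pi) := by positivity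
    constructor
    · refine le_trans ?_ (mul_le_mul_of_nonneg_left hb.1 htp.le)
      have h1 : (((N + 1 : ℕ) : ℝ) + n + (((m + 1 : ℕ) : ℝ) + 1)) ≤ 3 * N := by
        have h2 : N + 1 + n + (m + 1 + 1) ≤ 3 * N := by omega
        exact_mod_cast h2
      have h2 : ((3 * (N : ℝ)) ^ (m + 2))⁻¹ ≤
          ((((N + 1 : ℕ) : ℝ) + n + (((m + 1 : ℕ) : ℝ) + 1)) ^ (m + 1 + 1))⁻¹ := by
        apply inv_anti₀ (by (clear * - hN; positivity))
        exact pow_le_pow_left₀ (by positivity) h1 _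
      calc lam = t / (2 * Real.pi) * (((m + 1).factorial : ℝ) * ((3 * (N : ℝ)) ^ (m + 2))⁻¹) := by
            rw [hlam, hc, mul_pow, hA]
            field_simp
        _ ≤ _ := by gcongr
    · refine le_trans (mul_le_mul_of_nonneg_left hb.2 htp.le) ?_
      have h2 : ((((N + 1 : ℕ) : ℝ)) ^ (m + 1 + 1))⁻¹ ≤ ((N : ℝ) ^ (m + 2))⁻¹ := by
        apply inv_anti₀ (by positivity)
        apply pow_le_pow_left₀ hN0.le
        push_cast; (clear * -; linarith)
      calc t / (2 * Real.pi) * (((m + 1).factorial : ℝ) * ((((N + 1 : ℕ) : ℝ)) ^ (m + 1 + 1))⁻¹)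
          ≤ t / (2 * Real.pi) * (((m + 1).factorial : ℝ) * ((N : ℝ) ^ (m + 2))⁻¹) := by (clear * - h2 ht; gcongr)
        _ = A * lam := by
            rw [hlam, hc, hA]
            field_simp
  have h1 := hT (N1 - N) _ lam A hlam0 hA1 hcond
  refine h1.trans ?_
  have hM : ((N1 - N : ℕ) : ℝ) ≤ N := by
    have : N1 - N ≤ N := by omega
    exact_mod_cast this
  have htN : 0 < t / (N : ℝ) ^ (m + 2) := by positivity
  have e1 : lam ^ α = c ^ α * (t / (N : ℝ) ^ (m + 2)) ^ α := by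
    rw [hlam, Real.mul_rpow hc0.le htN.le]
  have e2 : lam ^ (-α) = c ^ (-α) * ((N : ℝ) ^ (m + 2) / t) ^ α := by
    rw [hlam, Real.mul_rpow hc0.le htN.le]
    congr 1
    rw [Real.rpow_neg htN.le, ← Real.inv_rpow htN.le, inv_div]
  have hCA : 0 ≤ C * A := by positivity
  have h2 : ((N1 - N : ℕ) : ℝ) ^ (1 - β) ≤ (N : ℝ) ^ (1 - β) :=
    Real.rpow_le_rpow (Nat.cast_nonneg _) hM (by (clear * - hβ1; linarith))
  set P := (N : ℝ) * (t / (N : ℝ) ^ (m + 2)) ^ α with hP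
  set Q := (N : ℝ) ^ (1 - β) * ((N : ℝ) ^ (m + 2) / t) ^ α with hQ
  have hP0 : 0 ≤ P := by positivity
  have hQ0 : 0 ≤ Q := by positivity
  have hca : 0 < c ^ α := by positivity
  have hcb : 0 < c ^ (-α) := by positivity
  calc C * A * (((N1 - N : ℕ) : ℝ) * lam ^ α + ((N1 - N : ℕ) : ℝ) ^ (1 - β) * lam ^ (-α))
      ≤ C * A * ((N : ℝ) * lam ^ α + (N : ℝ) ^ (1 - β) * lam ^ (-α)) := by gcongr
    _ = C * A * (c ^ α * P + c ^ (-α) * Q) := by rw [e1, e2, hP, hQ]; ring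
    _ ≤ C * A * ((c ^ α + c ^ (-α)) * (P + Q)) := by
        apply mul_le_mul_of_nonneg_left _ hCA
        (clear * - hca hQ0 hcb hP0; nlinarith [mul_nonneg hca.le hQ0, mul_nonneg hcb.le hP0])
    _ = _ := by ring

/-! ### Kusmin-Landau -/

theorem KLsum {N N1 : ℕ} {t : ℝ} (hN : 1 ≤ N) (hN1 : N < N1) (hN2 : N1 ≤ 2 * N) (ht : 0 < t)
    (htN : t ≤ N) : ‖Sit t N N1‖ ≤ 12 * Real.pi * (N / t) := by
  have hpi := Real.pi_pos
  have hpi3 := Real.pi_gt_three
  have hNr : (1 : ℝ) ≤ N := by exact_mod_cast hN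
  have hN0 : (0 : ℝ) < N := by (clear * - ht htN; linarith)
  rw [norm_Sit t N N1 (-1) (Or.inr rfl)]
  obtain ⟨M, hM⟩ : ∃ M, N1 - N = M + 1 := ⟨N1 - N - 1, by omega⟩
  rw [hM]
  set D : ℝ := t / (2 * Real.pi) / (3 * N) with hD
  have hD0 : 0 < D := by positivity
  have hDle : D ≤ 1 / 2 := by
    rw [hD, div_div, div_le_iff₀ (by positivity)]
    (clear * - ht htN hpi3; nlinarith)
  have hMN : M + 1 ≤ N := by omega
  set x : ℕ → ℝ := fun n => 1 - (t / (2 * Real.pi)) *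
    (Real.log (((N + 1 : ℕ) : ℝ) + (n + 1 : ℕ)) - Real.log (((N + 1 : ℕ) : ℝ) + n)) with hx
  have hlog : ∀ n : ℕ, Real.log (((N + 1 : ℕ) : ℝ) + (n + 1 : ℕ)) -
      Real.log (((N + 1 : ℕ) : ℝ) + n) = Real.log (1 + 1 / (((N + 1 : ℕ) : ℝ) + n)) := by
    intro n
    rw [← Real.log_div (by (clear * - hN; positivity)) (by positivity)]
    congr 1
    push_cast
    field_simp
    ring
  have h2D : 12 * Real.pi * (N / t) = 2 / D := by
    rw [hD]; field_simp; ring
  rw [h2D]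
  refine KL hD0 hDle (fun i => ee (-1 * (t / (2 * Real.pi)) * Real.log (((N + 1 : ℕ) : ℝ) + i)))
    x M (fun n => (norm_ee _).le) ?_ ?_ ?_
  · intro n hn
    have hnr : ((n : ℝ)) + 1 ≤ N := by
      have : n + 1 ≤ N := by omega
      exact_mod_cast this
    have hn0 : (0 : ℝ) ≤ n := Nat.cast_nonneg n
    set y : ℝ := 1 / (((N + 1 : ℕ) : ℝ) + n) with hy
    have hy0 : 0 < y := by positivity
    have hup : Real.log (1 + y) ≤ y := by
      have := Real.log_le_sub_one_of_pos (show (0 : ℝ) < 1 + y by (clear * - hD0 hDle hy0; linarith))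
      (clear * - this; linarith)
    have hlow : 1 / (3 * N) ≤ Real.log (1 + y) := by
      have h1 := Real.one_sub_inv_le_log_of_pos (show (0 : ℝ) < 1 + y by (clear * - hD0 hDle hy0; linarith))
      refine le_trans ?_ h1
      have h3 : (1 : ℝ) - (1 + y)⁻¹ = 1 / (((N + 1 : ℕ) : ℝ) + n + 1) := by
        rw [hy]; field_simp; ring
      rw [h3]
      apply one_div_le_one_div_of_le (by positivity)
      push_cast
      (clear * - hNr hnr; linarith)
    have hy1 : y ≤ 1 / N := by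
      rw [hy]
      apply one_div_le_one_div_of_le hN0
      push_cast; (clear * - hD0 hDle; linarith)
    have hx' : x n = 1 - (t / (2 * Real.pi)) * Real.log (1 + y) := by
      rw [hx]; simp only; rw [hlog]
    rw [hx']
    have htp : 0 < t / (2 * Real.pi) := by positivity
    constructor
    · have h4 : (t / (2 * Real.pi)) * Real.log (1 + y) ≤ (t / (2 * Real.pi)) * (1 / N) := by
        gcongr
        (clear * - hup hy1; linarith)
      have h5 : (t / (2 * Real.pi)) * (1 / N) ≤ 1 / 2 := by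
        rw [div_mul_div_comm, mul_one, div_le_iff₀ (by positivity)]
        (clear * - htN hNr hD0 hDle hpi3; nlinarith)
      (clear * - hDle h4 h5; linarith)
    · have h4 : (t / (2 * Real.pi)) * (1 / (3 * N)) ≤ (t / (2 * Real.pi)) * Real.log (1 + y) := by
        (clear * - hlow ht; gcongr)
      have h5 : (t / (2 * Real.pi)) * (1 / (3 * N)) = D := by rw [hD]; field_simp
      (clear * - h4 h5; linarith)
  · intro n hn
    simp only [hx]
    rw [hlog, hlog]
    have h1 : Real.log (1 + 1 / (((N + 1 : ℕ) : ℝ) + (n + 1 : ℕ))) ≤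
        Real.log (1 + 1 / (((N + 1 : ℕ) : ℝ) + n)) := by
      apply Real.log_le_log (by (clear * - hN; positivity))
      have : 1 / (((N + 1 : ℕ) : ℝ) + (n + 1 : ℕ)) ≤ 1 / (((N + 1 : ℕ) : ℝ) + n) := by
        apply one_div_le_one_div_of_le (by positivity)
        push_cast; (clear * - hD0 hDle; linarith)
      (clear * - this; linarith)
    have htp : 0 < t / (2 * Real.pi) := by positivity
    have := mul_le_mul_of_nonneg_left h1 htp.le
    (clear * - this; linarith)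
  · intro n hn
    simp only [hx]
    rw [← ee_add]
    have e : ee (-1 * (t / (2 * Real.pi)) * Real.log (((N + 1 : ℕ) : ℝ) + (n + 1 : ℕ))) =
        ee ((-1 * (t / (2 * Real.pi)) * Real.log (((N + 1 : ℕ) : ℝ) + n) +
          (1 - (t / (2 * Real.pi)) *
    (Real.log (((N + 1 : ℕ) : ℝ) + (n + 1 : ℕ)) - Real.log (((N + 1 : ℕ) : ℝ) + n)))) - ((1 : ℤ) : ℝ)) := by
      congr 1
      push_cast
      ring
    rw [e, Pool.Agent.M17.Helper64.QRH.ee_sub_int]

end Pool.Agent.M17.Helper67.KSZ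
end

/- Helper53.KN.Helper67.KSZ.ExpSum2 -/
section
/-! KSZ (MP_768c9c_nt): partial summation, the classical inputs A2 and A3. -/

set_option autoImplicit false
open scoped ComplexConjugate

namespace Pool.Agent.M17.Helper67.KSZ

/-! ### Abel's inequality -/

theorem abel_aux (b : ℕ → ℝ) (z : ℕ → ℂ) (B : ℝ) (M : ℕ) (hb : ∀ n, b (n + 1) ≤ b n)
    (hP : ∀ m ≤ M, ‖∑ n ∈ Finset.range m, z n‖ ≤ B) :
    ‖∑ n ∈ Finset.range M, (b n : ℂ) * z n - b M * ∑ n ∈ Finset.range M, z n‖ ≤ (b 0 - b M) * B := by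
  induction M with
  | zero => simp
  | succ M ih =>
    have h1 := ih (fun m hm => hP m (by omega))
    have e : ∑ n ∈ Finset.range (M + 1), (b n : ℂ) * z n -
        b (M + 1) * ∑ n ∈ Finset.range (M + 1), z n =
        (∑ n ∈ Finset.range M, (b n : ℂ) * z n - b M * ∑ n ∈ Finset.range M, z n) +
          ((b M - b (M + 1) : ℝ) : ℂ) * ∑ n ∈ Finset.range (M + 1), z n := by
      rw [Finset.sum_range_succ, Finset.sum_range_succ]
      push_cast
      ring
    rw [e]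
    refine (norm_add_le _ _).trans ?_
    rw [norm_mul, Complex.norm_real, Real.norm_of_nonneg (by linarith [hb M])]
    have h2 := hP (M + 1) le_rfl
    have h3 := mul_le_mul_of_nonneg_left h2 (show 0 ≤ b M - b (M + 1) by linarith [hb M])
    linarith

theorem abel_range (b : ℕ → ℝ) (z : ℕ → ℂ) (B : ℝ) (M : ℕ) (hb : ∀ n, b (n + 1) ≤ b n)
    (hb0 : ∀ n, 0 ≤ b n) (hP : ∀ m ≤ M, ‖∑ n ∈ Finset.range m, z n‖ ≤ B) :
    ‖∑ n ∈ Finset.range M, (b n : ℂ) * z n‖ ≤ b 0 * B := by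
  have h1 := abel_aux b z B M hb hP
  have e : ∑ n ∈ Finset.range M, (b n : ℂ) * z n =
      (∑ n ∈ Finset.range M, (b n : ℂ) * z n - b M * ∑ n ∈ Finset.range M, z n) +
        (b M : ℂ) * ∑ n ∈ Finset.range M, z n := by ring
  rw [e]
  refine (norm_add_le _ _).trans ?_
  rw [norm_mul, Complex.norm_real, Real.norm_of_nonneg (hb0 M)]
  have h3 := mul_le_mul_of_nonneg_left (hP M le_rfl) (hb0 M)
  (clear * - h1 h3; linarith)

/-- Abel's inequality on `(N, N1]` -/
theorem abel_Ioc (w : ℕ → ℝ) (z : ℕ → ℂ) (B : ℝ) (N N1 : ℕ) (hw : ∀ n, N < n → w (n + 1) ≤ w n)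
    (hw0 : ∀ n, N < n → 0 ≤ w n) (hB : 0 ≤ B)
    (hP : ∀ N', N < N' → N' ≤ N1 → ‖∑ n ∈ Finset.Ioc N N', z n‖ ≤ B) :
    ‖∑ n ∈ Finset.Ioc N N1, (w n : ℂ) * z n‖ ≤ w (N + 1) * B := by
  rw [sum_Ioc_eq]
  refine (abel_range (fun i => w (N + 1 + i)) (fun i => z (N + 1 + i)) B (N1 - N)
    (fun n => by
      have e : N + 1 + (n + 1) = N + 1 + n + 1 := by ring
      simp only [e]
      exact hw (N + 1 + n) (by omega)) (fun n => hw0 _ (by omega)) ?_).trans (by simp)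
  intro m hm
  rcases Nat.eq_zero_or_pos m with h | h
  · subst h; simpa using hB
  · have := hP (N + m) (by omega) (by omega)
    rw [sum_Ioc_eq, Nat.add_sub_cancel_left] at this
    exact this

theorem pow_split {n : ℕ} (hn : 0 < n) (κ t : ℝ) :
    (n : ℂ) ^ (-((κ : ℂ) + (t : ℂ) * Complex.I)) =
      (((n : ℝ) ^ (-κ) : ℝ) : ℂ) * (n : ℂ) ^ (-((t : ℂ) * Complex.I)) := by
  have hn' : (n : ℂ) ≠ 0 := by exact_mod_cast hn.ne'
  rw [neg_add, Complex.cpow_add _ _ hn', Complex.ofReal_cpow (Nat.cast_nonneg n)]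
  push_cast
  rfl

/-- partial summation for `n^(-κ-it)` -/
theorem abel_pow {N N1 : ℕ} {κ t B : ℝ} (hN : 1 ≤ N) (hκ : 0 ≤ κ) (hB : 0 ≤ B)
    (hP : ∀ N', N < N' → N' ≤ N1 → ‖Sit t N N'‖ ≤ B) :
    ‖∑ n ∈ Finset.Ioc N N1, (n : ℂ) ^ (-((κ : ℂ) + (t : ℂ) * Complex.I))‖ ≤ (N : ℝ) ^ (-κ) * B := by
  have hN0 : (0 : ℝ) < N := by exact_mod_cast hN
  have e : ∑ n ∈ Finset.Ioc N N1, (n : ℂ) ^ (-((κ : ℂ) + (t : ℂ) * Complex.I)) =
      ∑ n ∈ Finset.Ioc N N1, (((n : ℝ) ^ (-κ) : ℝ) : ℂ) * (n : ℂ) ^ (-((t : ℂ) * Complex.I)) := by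
    apply Finset.sum_congr rfl
    intro n hn
    rw [pow_split (by rw [Finset.mem_Ioc] at hn; omega)]
  rw [e]
  refine (abel_Ioc (fun n => (n : ℝ) ^ (-κ)) (fun n => (n : ℂ) ^ (-((t : ℂ) * Complex.I))) B N N1
    (fun n hn => ?_) (fun n _ => by positivity) hB hP).trans ?_
  · have hn0 : (0 : ℝ) < n := by exact_mod_cast (by omega : 0 < n)
    exact Real.rpow_le_rpow_of_nonpos hn0 (by push_cast; (clear * -; linarith)) (by (clear * - hκ; linarith))
  · apply mul_le_mul_of_nonneg_right _ hB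
    exact Real.rpow_le_rpow_of_nonpos hN0 (by push_cast; linarith) (by linarith)

/-! ### A2 -/

theorem Sit_two : ∃ C : ℝ, 0 < C ∧ ∀ (N N1 : ℕ) (t : ℝ), 1 ≤ N → N < N1 → N1 ≤ 2 * N → 0 < t →
    t ≤ N → ‖Sit t N N1‖ ≤ C * (N / t) :=
  ⟨12 * Real.pi, by have := Real.pi_pos; positivity, fun N N1 t h1 h2 h3 h4 h5 =>
    KLsum h1 h2 h3 h4 h5⟩

theorem Sit_half : ∃ C : ℝ, 0 < C ∧ ∀ (N N1 : ℕ) (t : ℝ), 1 ≤ N → N < N1 → N1 ≤ 2 * N → 0 < t →
    ‖Sit t N N1‖ ≤ C * (N / t + t ^ (1 / 2 : ℝ)) := by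
  obtain ⟨C1, hC1, h1⟩ := A1 2 le_rfl
  obtain ⟨C2, hC2, h2⟩ := Sit_two
  refine ⟨2 * C1 + C2, by positivity, ?_⟩
  intro N N1 t hN hN1 hN2 ht
  have hN0 : (0 : ℝ) < N := by exact_mod_cast hN
  have hNt : 0 < N / t := by (clear * - hN ht; positivity)
  have hth : 0 < t ^ (1 / 2 : ℝ) := by positivity
  rcases le_total t N with h | h
  · refine (h2 N N1 t hN hN1 hN2 ht h).trans ?_
    (clear * - hC1 hNt hth hC2; nlinarith)
  · refine (h1 N N1 t hN hN1 hN2 ht).trans ?_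
    have e0 : (1 / (2 ^ 2 - 2) : ℝ) = 1 / 2 := by norm_num
    have e1 : (1 - 4 / 2 ^ 2 : ℝ) = 0 := by norm_num
    rw [e0, e1, Real.rpow_zero, one_mul]
    have e2 : (N : ℝ) * (t / (N : ℝ) ^ 2) ^ (1 / 2 : ℝ) = t ^ (1 / 2 : ℝ) := by
      rw [Real.div_rpow ht.le (by positivity), ← Real.sqrt_eq_rpow ((N : ℝ) ^ 2),
        Real.sqrt_sq hN0.le]
      field_simp
    have e3 : ((N : ℝ) ^ 2 / t) ^ (1 / 2 : ℝ) ≤ t ^ (1 / 2 : ℝ) := by
      apply Real.rpow_le_rpow (by positivity) _ (by norm_num)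
      rw [div_le_iff₀ ht]
      (clear * - h ht; nlinarith)
    rw [e2]
    nlinarith

/-- A2, first form -/
theorem A2 : ∃ C : ℝ, 0 < C ∧ ∀ (N N1 : ℕ) (κ t : ℝ), 1 ≤ N → N < N1 → N1 ≤ 2 * N → 0 < t →
    0 ≤ κ → ‖∑ n ∈ Finset.Ioc N N1, (n : ℂ) ^ (-((κ : ℂ) + (t : ℂ) * Complex.I))‖ ≤
      C * (N : ℝ) ^ (-κ) * (N / t + t ^ (1 / 2 : ℝ)) := by
  obtain ⟨C, hC, h⟩ := Sit_half
  refine ⟨C, hC, ?_⟩
  intro N N1 κ t hN hN1 hN2 ht hκ
  have hN0 : (0 : ℝ) < N := by exact_mod_cast hN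
  refine (abel_pow (B := C * (N / t + t ^ (1 / 2 : ℝ))) hN hκ (by (clear * - hC hN ht; positivity)) ?_).trans
    (le_of_eq (by ring))
  intro N' h1 h2
  exact h N N' t hN h1 (by omega) ht

/-- A2, second form (`t ≤ N`) -/
theorem A2' : ∃ C : ℝ, 0 < C ∧ ∀ (N N1 : ℕ) (κ t : ℝ), 1 ≤ N → N < N1 → N1 ≤ 2 * N → 0 < t →
    t ≤ N → 0 ≤ κ → ‖∑ n ∈ Finset.Ioc N N1, (n : ℂ) ^ (-((κ : ℂ) + (t : ℂ) * Complex.I))‖ ≤
      C * ((N : ℝ) ^ (1 - κ) / t) := by
  obtain ⟨C, hC, h⟩ := Sit_two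
  refine ⟨C, hC, ?_⟩
  intro N N1 κ t hN hN1 hN2 ht htN hκ
  have hN0 : (0 : ℝ) < N := by exact_mod_cast hN
  refine (abel_pow (B := C * (N / t)) hN hκ (by (clear * - hC hN ht; positivity)) ?_).trans (le_of_eq ?_)
  · intro N' h1 h2
    exact h N N' t hN h1 (by omega) ht htN
  · rw [Real.rpow_sub hN0, Real.rpow_one, Real.rpow_neg hN0.le]
    ring

/-! ### A3 -/

theorem A3_aux (m : ℕ) : ∃ c C : ℝ, 0 < c ∧ 0 < C ∧ ∀ (N N1 : ℕ) (t : ℝ), 1 ≤ N → N < N1 →
    N1 ≤ 2 * N → (N : ℝ) ≤ t → t ≤ (N : ℝ) ^ (m + 1) → ‖Sit t N N1‖ ≤ C * (N : ℝ) ^ (1 - c) := by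
  induction m with
  | zero =>
    obtain ⟨C, hC, h⟩ := Sit_two
    refine ⟨1, C, one_pos, hC, ?_⟩
    intro N N1 t hN hN1 hN2 h1 h2
    have hN0 : (0 : ℝ) < N := by exact_mod_cast hN
    have ht : t = N := le_antisymm (by simpa using h2) h1
    refine (h N N1 t hN hN1 hN2 (by (clear * - h1 hN0; linarith)) ht.le).trans ?_
    rw [ht, div_self hN0.ne', sub_self, Real.rpow_zero]
  | succ m ih =>
    obtain ⟨c1, C1, hc1, hC1, h1⟩ := ih
    obtain ⟨C2, hC2, h2⟩ := A1 (m + 3) (by omega)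
    set α : ℝ := 1 / (2 ^ (m + 3) - 2) with hα
    set β : ℝ := 4 / 2 ^ (m + 3) with hβ
    have hp : (1 : ℝ) ≤ 2 ^ m := one_le_pow₀ (by norm_num)
    have h8 : (2 : ℝ) ^ (m + 3) = 8 * 2 ^ m := by rw [pow_add]; ring
    have hα0 : 0 < α := by
      rw [hα, h8]; apply div_pos one_pos; (clear * - hp; linarith)
    have hβα : 0 < β - 2 * α := by
      rw [hα, hβ, h8, sub_pos, mul_one_div, div_lt_div_iff₀ (by (clear * - hp; linarith)) (by positivity)]
      (clear * - hp; linarith)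
    refine ⟨min c1 (min α (β - 2 * α)), C1 + 2 * C2, by (clear * - hc1 hα0 hβα; positivity), by positivity, ?_⟩
    intro N N1 t hN hN1 hN2 htN htN2
    have hNr : (1 : ℝ) ≤ N := by exact_mod_cast hN
    have hN0 : (0 : ℝ) < N := by (clear * - hNr; linarith)
    have ht : 0 < t := by (clear * - htN hNr; linarith)
    set c := min c1 (min α (β - 2 * α)) with hc
    have hcc1 : c ≤ c1 := min_le_left _ _
    have hcα : c ≤ α := (min_le_right _ _).trans (min_le_left _ _)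
    have hcβ : c ≤ β - 2 * α := (min_le_right _ _).trans (min_le_right _ _)
    have hpos : 0 < (N : ℝ) ^ (1 - c) := by positivity
    rcases le_total t ((N : ℝ) ^ (m + 1)) with h | h
    · refine (h1 N N1 t hN hN1 hN2 htN h).trans ?_
      have : (N : ℝ) ^ (1 - c1) ≤ (N : ℝ) ^ (1 - c) :=
        Real.rpow_le_rpow_of_exponent_le hNr (by (clear * - hcc1; linarith))
      calc C1 * (N : ℝ) ^ (1 - c1) ≤ C1 * (N : ℝ) ^ (1 - c) := by (clear * - this hC1; gcongr)
        _ ≤ _ := by (clear * - hC2 hpos; nlinarith)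
    · refine (h2 N N1 t hN hN1 hN2 ht).trans ?_
      have b1 : (N : ℝ) * (t / (N : ℝ) ^ (m + 3)) ^ α ≤ (N : ℝ) ^ (1 - c) := by
        have e1 : t / (N : ℝ) ^ (m + 3) ≤ (N : ℝ) ^ (-1 : ℝ) := by
          rw [div_le_iff₀ (by (clear * - hN; positivity)), Real.rpow_neg_one]
          calc t ≤ (N : ℝ) ^ (m + 1 + 1) := htN2
            _ = (N : ℝ)⁻¹ * (N : ℝ) ^ (m + 3) := by
              rw [show m + 3 = (m + 1 + 1) + 1 by ring, pow_succ (N : ℝ) (m + 1 + 1)]
              field_simp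
        calc (N : ℝ) * (t / (N : ℝ) ^ (m + 3)) ^ α ≤ N * ((N : ℝ) ^ (-1 : ℝ)) ^ α := by
              apply mul_le_mul_of_nonneg_left _ hN0.le
              exact Real.rpow_le_rpow (by (clear * - ht hN; positivity)) e1 hα0.le
          _ = (N : ℝ) ^ (1 - α) := by
              rw [← Real.rpow_mul hN0.le, sub_eq_add_neg, Real.rpow_add hN0, Real.rpow_one]
              congr 2
              ring
          _ ≤ (N : ℝ) ^ (1 - c) := Real.rpow_le_rpow_of_exponent_le hNr (by (clear * - hcα; linarith))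
      have b2 : (N : ℝ) ^ (1 - β) * ((N : ℝ) ^ (m + 3) / t) ^ α ≤ (N : ℝ) ^ (1 - c) := by
        have e1 : (N : ℝ) ^ (m + 3) / t ≤ (N : ℝ) ^ (2 : ℝ) := by
          rw [div_le_iff₀ ht, Real.rpow_two]
          calc (N : ℝ) ^ (m + 3) = (N : ℝ) ^ 2 * (N : ℝ) ^ (m + 1) := by ring
            _ ≤ (N : ℝ) ^ 2 * t := by gcongr
        calc (N : ℝ) ^ (1 - β) * ((N : ℝ) ^ (m + 3) / t) ^ α ≤
            (N : ℝ) ^ (1 - β) * ((N : ℝ) ^ (2 : ℝ)) ^ α := by
              apply mul_le_mul_of_nonneg_left _ (by positivity)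
              exact Real.rpow_le_rpow (by positivity) e1 hα0.le
          _ = (N : ℝ) ^ (1 - (β - 2 * α)) := by
              rw [← Real.rpow_mul hN0.le, ← Real.rpow_add hN0]
              congr 1
              ring
          _ ≤ (N : ℝ) ^ (1 - c) := Real.rpow_le_rpow_of_exponent_le hNr (by (clear * - hcβ; linarith))
      calc C2 * ((N : ℝ) * (t / (N : ℝ) ^ (m + 3)) ^ α + (N : ℝ) ^ (1 - β) *
            ((N : ℝ) ^ (m + 3) / t) ^ α) ≤ C2 * ((N : ℝ) ^ (1 - c) + (N : ℝ) ^ (1 - c)) := by (clear * - b1 b2 hC2; gcongr)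
        _ ≤ _ := by (clear * - hC1 hpos; nlinarith)

/-- A3: the uniform saving -/
theorem A3 (A : ℝ) (hA : 1 ≤ A) : ∃ c C : ℝ, 0 < c ∧ 0 < C ∧ ∀ (N N1 : ℕ) (t : ℝ), 1 ≤ N →
    N < N1 → N1 ≤ 2 * N → (N : ℝ) ^ (1 / A) ≤ t → t ≤ (N : ℝ) ^ A →
    ‖∑ n ∈ Finset.Ioc N N1, (n : ℂ) ^ (-((t : ℂ) * Complex.I))‖ ≤ C * (N : ℝ) ^ (1 - c) := by
  obtain ⟨c1, C1, hc1, hC1, h1⟩ := A3_aux ⌈A⌉₊
  obtain ⟨C2, hC2, h2⟩ := Sit_two
  have hA0 : 0 < A := by linarith
  refine ⟨min c1 (1 / A), C1 + C2, by positivity, by positivity, ?_⟩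
  intro N N1 t hN hN1 hN2 h3 h4
  have hNr : (1 : ℝ) ≤ N := by exact_mod_cast hN
  have hN0 : (0 : ℝ) < N := by (clear * - hNr; linarith)
  have hNA : 0 < (N : ℝ) ^ (1 / A) := by positivity
  have ht : 0 < t := by (clear * - h3 hNA; linarith)
  set c := min c1 (1 / A) with hc
  have hcc1 : c ≤ c1 := min_le_left _ _
  have hcA : c ≤ 1 / A := min_le_right _ _
  have hpos : 0 < (N : ℝ) ^ (1 - c) := by positivity
  show ‖Sit t N N1‖ ≤ _
  rcases le_total (N : ℝ) t with h | h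
  · have h5 : t ≤ (N : ℝ) ^ (⌈A⌉₊ + 1) := by
      refine h4.trans ?_
      rw [← Real.rpow_natCast]
      apply Real.rpow_le_rpow_of_exponent_le hNr
      push_cast
      (clear * -; linarith [Nat.le_ceil A])
    refine (h1 N N1 t hN hN1 hN2 h h5).trans ?_
    have : (N : ℝ) ^ (1 - c1) ≤ (N : ℝ) ^ (1 - c) :=
      Real.rpow_le_rpow_of_exponent_le hNr (by (clear * - hcc1; linarith))
    calc C1 * (N : ℝ) ^ (1 - c1) ≤ C1 * (N : ℝ) ^ (1 - c) := by (clear * - this hC1; gcongr)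
      _ ≤ _ := by (clear * - hC2 hpos; nlinarith)
  · refine (h2 N N1 t hN hN1 hN2 ht h).trans ?_
    have : N / t ≤ (N : ℝ) ^ (1 - c) := by
      rw [div_le_iff₀ ht]
      calc (N : ℝ) = (N : ℝ) ^ (1 - 1 / A) * (N : ℝ) ^ (1 / A) := by
            rw [← Real.rpow_add hN0]; simp
        _ ≤ (N : ℝ) ^ (1 - c) * t := by
            apply mul_le_mul _ h3 hNA.le hpos.le
            exact Real.rpow_le_rpow_of_exponent_le hNr (by (clear * - hcA; linarith))
    calc C2 * (N / t) ≤ C2 * (N : ℝ) ^ (1 - c) := by (clear * - this hC2; gcongr)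
      _ ≤ _ := by (clear * - hC1 hpos; nlinarith)

end Pool.Agent.M17.Helper67.KSZ
end

/- Helper53.KN.Helper91.KC.PowDP -/
section
/-!
# Project KS, module KC-15: powers of Dirichlet polynomials
-/

set_option autoImplicit false
set_option maxHeartbeats 4000000

open Finset

namespace Pool.Agent.M17.Helper91.KC

open Pool.Agent.M17.Helper60.KS

/-- coefficients of the product -/
noncomputable def mulC (f : ℕ → ℂ) (P h : ℕ) (g : ℕ → ℂ) (Q h' : ℕ) (n : ℕ) : ℂ :=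
  ∑ x ∈ n.divisorsAntidiagonal, (if x.1 ∈ Ioc P (h * P) then f x.1 else 0) *
    (if x.2 ∈ Ioc Q (h' * Q) then g x.2 else 0)

theorem DP_mul (f : ℕ → ℂ) (P h : ℕ) (g : ℕ → ℂ) (Q h' : ℕ) (s : ℂ) :
    DP f P h s * DP g Q h' s = DP (mulC f P h g Q h') (P * Q) (h * h') s := by
  unfold DP
  rw [Finset.sum_mul_sum, ← Finset.sum_product']
  have hmap : ∀ p ∈ Ioc P (h * P) ×ˢ Ioc Q (h' * Q), p.1 * p.2 ∈ Ioc (P * Q) (h * h' * (P * Q)) := by
    intro p hp
    rw [Finset.mem_product, Finset.mem_Ioc, Finset.mem_Ioc] at hp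
    rw [Finset.mem_Ioc]
    constructor
    · exact Nat.mul_lt_mul'' hp.1.1 hp.2.1
    · calc p.1 * p.2 ≤ (h * P) * (h' * Q) := Nat.mul_le_mul hp.1.2 hp.2.2
        _ = _ := by ring
  rw [← Finset.sum_fiberwise_of_maps_to hmap]
  refine Finset.sum_congr rfl fun n hn => ?_
  rw [Finset.mem_Ioc] at hn
  have hn0 : n ≠ 0 := by omega
  unfold mulC
  rw [Finset.sum_mul]
  have e1 : ∑ x ∈ n.divisorsAntidiagonal, ((if x.1 ∈ Ioc P (h * P) then f x.1 else 0) *
      (if x.2 ∈ Ioc Q (h' * Q) then g x.2 else 0)) * (n : ℂ) ^ (-s) =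
      ∑ x ∈ n.divisorsAntidiagonal.filter (fun x => x.1 ∈ Ioc P (h * P) ∧ x.2 ∈ Ioc Q (h' * Q)),
        f x.1 * g x.2 * (n : ℂ) ^ (-s) := by
    rw [Finset.sum_filter]
    refine Finset.sum_congr rfl fun x _ => ?_
    by_cases h1 : x.1 ∈ Ioc P (h * P)
    · by_cases h2 : x.2 ∈ Ioc Q (h' * Q)
      · rw [if_pos h1, if_pos h2, if_pos ⟨h1, h2⟩]
      · rw [if_neg h2, if_neg (not_and_of_not_right _ h2), mul_zero, zero_mul]
    · rw [if_neg h1, if_neg (not_and_of_not_left _ h1), zero_mul, zero_mul]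
  rw [e1]
  have e2 : (Ioc P (h * P) ×ˢ Ioc Q (h' * Q)).filter (fun p => p.1 * p.2 = n) =
      n.divisorsAntidiagonal.filter (fun x => x.1 ∈ Ioc P (h * P) ∧ x.2 ∈ Ioc Q (h' * Q)) := by
    ext p
    rw [Finset.mem_filter, Finset.mem_filter, Finset.mem_product, Nat.mem_divisorsAntidiagonal]
    tauto
  rw [e2]
  refine Finset.sum_congr rfl fun p hp => ?_
  rw [Finset.mem_filter, Nat.mem_divisorsAntidiagonal] at hp
  rw [← hp.1.1]
  push_cast
  rw [Complex.natCast_mul_natCast_cpow]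
  ring

theorem norm_mulC {f g : ℕ → ℂ} {P h Q h' : ℕ} {A B : ℝ} (hA : 0 ≤ A) (hB : 0 ≤ B)
    (hf : ∀ n, ‖f n‖ ≤ A) (hg : ∀ n ∈ Ioc Q (h' * Q), ‖g n‖ ≤ B) (n : ℕ) :
    ‖mulC f P h g Q h' n‖ ≤ n.divisors.card * (A * B) := by
  unfold mulC
  refine (norm_sum_le _ _).trans ?_
  refine (Finset.sum_le_card_nsmul _ _ (A * B) fun x hx => ?_).trans ?_
  · rw [norm_mul]
    apply mul_le_mul _ _ (norm_nonneg _) hA
    · split_ifs
      · exact hf _
      · simpa using hA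
    · split_ifs with h2
      · exact hg _ h2
      · simpa using hB
  · rw [nsmul_eq_mul]
    have : n.divisorsAntidiagonal.card = n.divisors.card := by
      rw [← Nat.map_div_right_divisors, Finset.card_map]
    rw [this]

/-- truncation of the coefficients -/
theorem DP_trunc (f : ℕ → ℂ) (P h : ℕ) (s : ℂ) :
    DP (fun n => if n ∈ Ioc P (h * P) then f n else 0) P h s = DP f P h s := by
  unfold DP
  refine Finset.sum_congr rfl fun n hn => ?_
  simp only [hn, if_true]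

theorem powDP : PowDP := by
  intro k ε hk hε
  induction k, hk using Nat.le_induction generalizing ε with
  | base =>
    obtain ⟨C, hC, hd⟩ := card_divisors_bound ε hε
    refine ⟨C * 2 ^ ε, by positivity, ?_⟩
    intro g Q hQ hg
    refine ⟨fun n => if n ∈ Ioc Q (2 * Q) then g n else 0, ?_, ?_⟩
    · intro n
      beta_reduce
      split_ifs with h
      · rw [Finset.mem_Ioc] at h
        calc ‖g n‖ ≤ (n.divisors.card : ℝ) := hg n
          _ ≤ C * (n : ℝ) ^ ε := hd n (by omega)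
          _ ≤ C * (2 * (Q : ℝ)) ^ ε := by
              apply mul_le_mul_of_nonneg_left _ (by positivity)
              apply Real.rpow_le_rpow (Nat.cast_nonneg _) _ hε.le
              exact_mod_cast h.2
          _ = C * 2 ^ ε * (Q : ℝ) ^ ε := by
              rw [Real.mul_rpow (by norm_num) (Nat.cast_nonneg _)]
              ring
      · rw [norm_zero]
        positivity
    · intro s
      rw [pow_one, pow_one, pow_one, DP_trunc]
  | succ k hk ih =>
    obtain ⟨C1, hC1, h1⟩ := ih (ε / 3) (by positivity)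
    obtain ⟨C2, hC2, h2⟩ := card_divisors_bound (ε / 3) (by positivity)
    obtain ⟨C3, hC3, h3⟩ := card_divisors_bound (ε / (3 * (k + 1))) (by positivity)
    refine ⟨(C3 * (2 ^ (k + 1)) ^ (ε / (3 * (k + 1)))) * (C1 * (C2 * 2 ^ (ε / 3))), by positivity, ?_⟩
    intro g Q hQ hg
    have hQ0 : (0 : ℝ) < Q := by exact_mod_cast hQ
    obtain ⟨b, hb, hbs⟩ := h1 g Q hQ hg
    have hg' : ∀ n ∈ Ioc Q (2 * Q), ‖g n‖ ≤ C2 * 2 ^ (ε / 3) * (Q : ℝ) ^ (ε / 3) := by
      intro n h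
      rw [Finset.mem_Ioc] at h
      calc ‖g n‖ ≤ (n.divisors.card : ℝ) := hg n
        _ ≤ C2 * (n : ℝ) ^ (ε / 3) := h2 n (by omega)
        _ ≤ C2 * (2 * (Q : ℝ)) ^ (ε / 3) := by
            apply mul_le_mul_of_nonneg_left _ (by positivity)
            apply Real.rpow_le_rpow (Nat.cast_nonneg _) _ (by positivity)
            exact_mod_cast h.2
        _ = C2 * 2 ^ (ε / 3) * (Q : ℝ) ^ (ε / 3) := by
            rw [Real.mul_rpow (by norm_num) (Nat.cast_nonneg _)]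
            ring
    refine ⟨fun n => if n ∈ Ioc (Q ^ (k + 1)) (2 ^ (k + 1) * Q ^ (k + 1)) then
      mulC b (Q ^ k) (2 ^ k) g Q 2 n else 0, ?_, ?_⟩
    · intro n
      beta_reduce
      split_ifs with h
      · rw [Finset.mem_Ioc] at h
        have hn0 : 0 < n := by
          have := Nat.zero_le (Q ^ (k + 1))
          omega
        have e1 := norm_mulC (h := 2 ^ k) (P := Q ^ k) (by positivity) (by positivity) hb hg' n
        have e2 : (n.divisors.card : ℝ) ≤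
            C3 * (2 ^ (k + 1)) ^ (ε / (3 * (k + 1))) * (Q : ℝ) ^ (ε / 3) := by
          calc (n.divisors.card : ℝ) ≤ C3 * (n : ℝ) ^ (ε / (3 * (k + 1))) := h3 n hn0
            _ ≤ C3 * ((2 ^ (k + 1)) * (Q : ℝ) ^ (k + 1)) ^ (ε / (3 * (k + 1))) := by
                apply mul_le_mul_of_nonneg_left _ (by positivity)
                apply Real.rpow_le_rpow (Nat.cast_nonneg _) _ (by positivity)
                exact_mod_cast h.2
            _ = _ := by
                rw [Real.mul_rpow (by positivity) (by positivity), ← Real.rpow_natCast (Q : ℝ),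
                  ← Real.rpow_mul hQ0.le]
                have : ((k + 1 : ℕ) : ℝ) * (ε / (3 * (k + 1))) = ε / 3 := by
                  push_cast
                  field_simp
                rw [this]
                ring
        calc _ ≤ (n.divisors.card : ℝ) * (C1 * (Q : ℝ) ^ (ε / 3) *
              (C2 * 2 ^ (ε / 3) * (Q : ℝ) ^ (ε / 3))) := e1
          _ ≤ C3 * (2 ^ (k + 1)) ^ (ε / (3 * (k + 1))) * (Q : ℝ) ^ (ε / 3) *
              (C1 * (Q : ℝ) ^ (ε / 3) * (C2 * 2 ^ (ε / 3) * (Q : ℝ) ^ (ε / 3))) :=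
              mul_le_mul_of_nonneg_right e2 (by positivity)
          _ = (C3 * (2 ^ (k + 1)) ^ (ε / (3 * (k + 1)))) * (C1 * (C2 * 2 ^ (ε / 3))) *
              ((Q : ℝ) ^ (ε / 3) * (Q : ℝ) ^ (ε / 3) * (Q : ℝ) ^ (ε / 3)) := by ring
          _ = _ := by
              rw [← Real.rpow_add hQ0, ← Real.rpow_add hQ0]
              congr 2
              ring
      · rw [norm_zero]
        positivity
    · intro s
      have e1 := DP_trunc (mulC b (Q ^ k) (2 ^ k) g Q 2) (Q ^ (k + 1)) (2 ^ (k + 1)) s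
      rw [e1, pow_succ, hbs s, DP_mul, pow_succ, pow_succ]

end Pool.Agent.M17.Helper91.KC
end

/- Helper53.KN.Helper60.KS.StE2 -/
section
/-! Project KS, design D5: counting of the cells without numbers `q m`, `m` prime of size `X^0.495` (CountE2). -/

set_option autoImplicit false
open Filter Topology MeasureTheory
open scoped Classical

namespace Pool.Agent.M17.Helper60.KS

/-- `M = 2^(em k)`, about `X^0.495` for `X = 2^k` -/
def em (k : ℕ) : ℕ := 99 * k / 200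

/-- the prime multipliers: primes in `(M, 2M]`, `M = 2^(em k)` -/
noncomputable def PM (k : ℕ) : Finset ℕ := (Finset.Ioc (2 ^ em k) (2 * 2 ^ em k)).filter Nat.Prime

/-- sum of the reciprocals -/
noncomputable def S1 (k : ℕ) : ℝ := ∑ m ∈ PM k, 1 / (m : ℝ)

/-- indicator function of the primes -/
noncomputable def gP (n : ℕ) : ℂ := if n.Prime then 1 else 0

/-- number of pairs `(m, q)`, `q` prime, `m ∈ PM k`, `m q` in the `j`-th cell of length `2^e` of `[2^k, 2^(k+1))` -/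
noncomputable def nE2 (k e j : ℕ) : ℕ :=
  ((PM k ×ˢ Finset.range (2 ^ (k + 1))).filter (fun p => p.2.Prime ∧ 2 ^ k + j * 2 ^ e ≤ p.1 * p.2 ∧
    p.1 * p.2 < 2 ^ k + (j + 1) * 2 ^ e)).card

/-- **CountE2**: at most `2^(U k)` cells of length `2^⌊k(1/2-d)⌋` contain fewer than `c0 2^e / k^2` numbers `q m` -/
def CountE2 (U : ℝ) : Prop := ∃ d0 : ℝ, 0 < d0 ∧ ∀ d : ℝ, 0 < d → d ≤ d0 → ∃ c0 : ℝ, 0 < c0 ∧ ∃ K : ℕ, ∀ k : ℕ,
  K ≤ k → (((Finset.range (2 ^ (k - ec d k))).filter (fun j =>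
    (nE2 k (ec d k) j : ℝ) < c0 * 2 ^ ec d k / (k : ℝ) ^ 2)).card : ℝ) ≤ (2 : ℝ) ^ (U * (k : ℝ))

/-- explicit formula: a cell with few numbers `q m` makes the weighted sum over the zeros large -/
def BadZeroE2 : Prop := ∀ d : ℝ, 0 < d → d ≤ 1/100 → ∃ c0 : ℝ, 0 < c0 ∧ ∃ K : ℕ, ∀ k : ℕ, K ≤ k →
  ∃ (F : Finset ℂ) (c : ℂ → ℂ) (u : ℕ → ℝ) (Exc : Finset ℕ),
  (∀ ρ ∈ F, riemannZeta ρ = 0 ∧ 0.6 < ρ.re ∧ |ρ.im| ≤ ((2 : ℝ) ^ k) ^ (1/2 + 2 * d) + 1) ∧
  (∀ ρ ∈ F, ‖c ρ‖ ≤ 2) ∧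
  (∀ j < 2 ^ (k - ec d k), Real.log (2 ^ k) ≤ u j ∧ u j ≤ Real.log (2 ^ k) + 1) ∧
  (∀ j < 2 ^ (k - ec d k), ∀ j' < 2 ^ (k - ec d k), j ≠ j' → 1 / ((2 : ℝ) ^ k) ^ (1/2 + 2 * d) ≤ |u j - u j'|) ∧
  (Exc.card : ℝ) ≤ ((2 : ℝ) ^ k) ^ (0.12 + 5 * d) ∧
  ∀ j < 2 ^ (k - ec d k), j ∉ Exc → (nE2 k (ec d k) j : ℝ) < c0 * 2 ^ ec d k / (k : ℝ) ^ 2 →
    1/2 * S1 k ≤ ‖∑ ρ ∈ F, (mz ρ : ℂ) * c ρ * DP gP (2 ^ em k) 2 ρ * Complex.exp ((ρ - 1) * (u j : ℂ))‖

/-- Theorem N with weight `X^(κ0 (β - 1))`, `κ0 > 1/2` -/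
def ThmNk (κ0 : ℝ) : Prop := ∃ ε0 X0 : ℝ, 0 < ε0 ∧ ε0 ≤ 1/100 ∧ ∀ X : ℝ, X0 ≤ X → ∀ F : Finset ℂ,
  (∀ ρ ∈ F, riemannZeta ρ = 0 ∧ 1 - ε0 ≤ ρ.re ∧ |ρ.im| ≤ X ^ (0.6 : ℝ)) →
  ∑ ρ ∈ F, (mz ρ : ℝ) * X ^ (κ0 * (ρ.re - 1)) ≤ 1/16

/-- Chebyshev -/
def S1Lower : Prop := ∃ c : ℝ, 0 < c ∧ ∃ K : ℕ, ∀ k : ℕ, K ≤ k → c / k ≤ S1 k

/-- one class of zeros, with `V ≤ |P(ρ)| ≤ 2 V`; `δ = ε0 / 10^8` -/
def ClassBoundE2 : Prop := ∀ ε0 δ d : ℝ, 0 < ε0 → ε0 ≤ 1/100 → δ = ε0 / 10 ^ 8 → 0 < d → d ≤ δ → ∃ X0 : ℝ,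
  ∀ (X x V : ℝ) (Z : Finset ℂ) (c : ℂ → ℂ) (g : ℕ → ℂ) (N M : ℕ) (U : Finset ℝ), X0 ≤ X → ε0 ≤ x → x ≤ 0.4 + δ →
  X ^ (0.495 : ℝ) / 4 ≤ M → (M : ℝ) ≤ X ^ (0.495 : ℝ) → X ^ (-1 : ℝ) ≤ V →
  InStrip Z (1 - x) (1 - x + δ) (X ^ (1/2 + 2 * d) + 1) → Spaced1 Z →
  (∀ n, ‖g n‖ ≤ (n.divisors.card : ℝ)) →
  X ^ δ / 2 ≤ N → (N : ℝ) ≤ X ^ (yy x / 2 + 45 * δ) → (∀ ρ ∈ Z, 1 / (16 * Real.log X) ≤ ‖DP g N 2 ρ‖) →
  (∀ ρ ∈ Z, V ≤ ‖DP gP M 2 ρ‖ ∧ ‖DP gP M 2 ρ‖ ≤ 2 * V) →
  (∀ ρ ∈ Z, ‖c ρ‖ ≤ Real.log X ^ 2) → (∀ u ∈ U, Real.log X ≤ u ∧ u ≤ Real.log X + 1) →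
  SpacedR U (1 / X ^ (1/2 + 2 * d)) →
  (∀ u ∈ U, 1 / Real.log X ^ 6 ≤ ‖∑ ρ ∈ Z, c ρ * DP gP M 2 ρ * Complex.exp ((ρ - 1) * (u : ℂ))‖) →
  (U.card : ℝ) ≤ X ^ (0.171 : ℝ)

end Pool.Agent.M17.Helper60.KS
end
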