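import Mathlib
import Pool.Agent.Helper53.KM.G05
import Pool.Agent.Helper53.KM.G06

/- Helper53.KN.Helper26.KC.StFM -/
section
/-!
# Project KS: fourth moment of zeta on the critical line (statements of the modules FM-1 ... FM-6)

Proof on paper. `s = 1/2 + it`, `N = M = T^(1/2)`, `K(w) = e^(w^2)/w` (Mellin transform of `Phi`), all `t` at once
with the weight `e^(-(t/T)^2)`.

* `(1/2πi) ∫_{Re w = 2} ζ(s+w) N^w K(w) dw = S1 N t = ∑ n^(-s) Phi(log N - log n)`.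
* shift to `Re w = -3/4`: residue `ζ(s)` at `w = 0`, residue `N^(1-s) e^((1-s)^2)/(1-s)` at `w = 1-s`
  (at most `4 N^(1/2) e^(-t^2)`).
* functional equation `ζ(s+w) = 2 (2π)^(s+w-1) FF(1-s-w) ζ(1-s-w)`, `FF(s) = Γ(s) cos(πs/2)`, and
  `ζ(5/4-iu) = ∑_{m ≤ M} + ∑_{m > M}`; the first part is shifted to `Re w = -ε` (no pole in between).
* `|FF(σ+it)| ≤ C (1+|t|)^(σ-1/2)` (FM-1), mean value theorem for the squares of the polynomials (FM-2, FM-3).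
-/

set_option autoImplicit false
open MeasureTheory Filter Topology Finset

namespace Pool.Agent.M17.Helper26.KC

open Pool.Agent.M17.Helper1.KSZ (FF)

/-- FM-1. `Pool.Agent.M17.Helper1.KSZ.norm_FF_line` is the case `σ = 5/7` (Phragmén–Lindelöf on `[1/2,1]`); here use the
strip `[1/2, 3/2]`, `|FF(3/2+iy)| = |1/2+iy| |FF(1/2+iy)|` (`Γ(s+1) = sΓ(s)`, `|sin(π/4+iy')| = |cos(π/4+iy')|`),
and `G(s) = FF(s) (1+|t|)^(-(s-1/2)) / (s - it + 1)`. -/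
def FMff : Prop := ∃ C : ℝ, 0 < C ∧ ∀ σ t : ℝ, 1 / 2 ≤ σ → σ ≤ 3 / 2 →
  ‖FF ((σ : ℂ) + t * Complex.I)‖ ≤ C * (1 + |t|) ^ (σ - 1 / 2)

/-- FM-2 (from `Pool.Agent.M17.Helper60.KS.MeanValue` with `y_n = log n`: `|log n - log k| ≤ 1/T` holds for at most
`1 + 8 n/T` numbers `k` with `k ≤ 3n`, and `|c_n c_k| ≤ (|c_n|^2+|c_k|^2)/2`) -/
def FMmv2 : Prop := ∃ C : ℝ, 0 < C ∧ ∀ (L : ℕ) (c : ℕ → ℂ) (T : ℝ), 1 ≤ T →
  ∫ t : ℝ, Real.exp (-(t / T) ^ 2) * ‖∑ n ∈ Icc 1 L, c n * (n : ℂ) ^ ((t : ℂ) * Complex.I)‖ ^ 2 ≤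
    C * ∑ n ∈ Icc 1 L, (T + n) * ‖c n‖ ^ 2

/-- FM-3a (square of the polynomial, divisor bound) -/
def FMmv4a : Prop := ∀ ε : ℝ, 0 < ε → ∃ C : ℝ, 0 < C ∧ ∀ (L : ℕ) (a : ℕ → ℂ) (T : ℝ), 1 ≤ T → 1 ≤ L →
  (∀ n : ℕ, 1 ≤ n → ‖a n‖ ≤ (n : ℝ) ^ (-(1 / 2) : ℝ)) →
  ∫ t : ℝ, Real.exp (-(t / T) ^ 2) * ‖∑ n ∈ Icc 1 L, a n * (n : ℂ) ^ ((t : ℂ) * Complex.I)‖ ^ 4 ≤
    C * (T * L) ^ ε * (T + (L : ℝ) ^ 2)

/-- FM-3b -/
def FMmv4b : Prop := ∀ ε : ℝ, 0 < ε → ∃ C : ℝ, 0 < C ∧ ∀ (M L : ℕ) (a : ℕ → ℂ) (T : ℝ), 1 ≤ T → 1 ≤ M → M ≤ L →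
  (∀ n : ℕ, 1 ≤ n → ‖a n‖ ≤ (n : ℝ) ^ (-(5 / 4) : ℝ)) →
  ∫ t : ℝ, Real.exp (-(t / T) ^ 2) * ‖∑ n ∈ Ioc M L, a n * (n : ℂ) ^ ((t : ℂ) * Complex.I)‖ ^ 4 ≤
    C * (T * L) ^ ε * (T / (M : ℝ) ^ 3 + 1 / (M : ℝ))

/-- the smoothed Dirichlet polynomial (`In (1/2 + it) (log N) 1` of D3) -/
noncomputable def S1 (N t : ℝ) : ℂ := ∑' m : ℕ, ((m : ℂ) + 1) ^ (-(1 / 2 + (t : ℂ) * Complex.I)) *
  (Phi (Real.log N - Real.log ((m : ℝ) + 1)) : ℂ)

/-- FM-4 (helper26) -/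
def FMafe : Prop := ∀ ε : ℝ, 0 < ε → ε ≤ 1 / 4 → ∃ C : ℝ, 0 < C ∧ ∀ (N : ℝ) (M : ℕ) (t : ℝ), 1 ≤ N → 1 ≤ M →
  ‖riemannZeta (1 / 2 + (t : ℂ) * Complex.I)‖ ≤ ‖S1 N t‖ + C * Real.sqrt N * Real.exp (-t ^ 2) +
    C * N ^ (-ε) * (∫ v : ℝ, (1 + |t + v|) ^ ε * ‖∑ m ∈ Icc 1 M, (m : ℂ) ^ ((-(1 / 2 + ε : ℝ) : ℂ) +
      ((t + v : ℝ) : ℂ) * Complex.I)‖ * Real.exp (-v ^ 2 / 2)) +
    C * N ^ (-(3 / 4) : ℝ) * (∫ v : ℝ, (1 + |t + v|) ^ (3 / 4 : ℝ) *
      ‖∑' m : ℕ, ((m : ℂ) + M + 1) ^ ((-(5 / 4) : ℂ) + ((t + v : ℝ) : ℂ) * Complex.I)‖ * Real.exp (-v ^ 2 / 2))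

/-- FM-5: the fourth moment, from the previous ones (`N = √T`, `M = ⌈√T⌉`) -/
def FourthMoment : Prop := ∀ ε : ℝ, 0 < ε → ∃ C : ℝ, 0 < C ∧ ∀ T : ℝ, 1 ≤ T →
  ∫ t : ℝ, Real.exp (-(t / T) ^ 2) * ‖riemannZeta (1 / 2 + (t : ℂ) * Complex.I)‖ ^ 4 ≤ C * T ^ (1 + ε)

end Pool.Agent.M17.Helper26.KC
end

/- Helper53.KN.Helper65.KC.MV2 -/
section
/-! FM-2 : Gaussian mean value theorem for Dirichlet polynomials. -/

set_option autoImplicit false
open MeasureTheory Filter Topology Finset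
open scoped Classical

namespace Pool.Agent.M17.Helper65.KC

open Pool.Agent.M17.Helper26.KC Pool.Agent.M17.Helper60.KS

theorem card_log_near (L n : ℕ) (T : ℝ) (hT : 1 ≤ T) (hn : 1 ≤ n) :
    (((Icc 1 L).filter (fun k : ℕ => |Real.log n - Real.log k| ≤ 1 / T)).card : ℝ) ≤ 1 + 3 * n / T := by
  have hT0 : 0 < T := by (clear * - hT; linarith)
  have hn0 : (0 : ℝ) < n := by exact_mod_cast hn
  have hx0 : 0 < 1 / T := by positivity
  have hx1 : 1 / T ≤ 1 := by rw [div_le_one hT0]; exact hT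
  have hsub : (Icc 1 L).filter (fun k : ℕ => |Real.log n - Real.log k| ≤ 1 / T) ⊆
      Icc ⌈(n : ℝ) * (1 - 1 / T)⌉₊ ⌊(n : ℝ) * (1 + 2 * (1 / T))⌋₊ := by
    intro k hk
    rw [Finset.mem_filter, Finset.mem_Icc] at hk
    obtain ⟨⟨hk1, _⟩, hk2⟩ := hk
    have hk0 : (0 : ℝ) < k := by exact_mod_cast hk1
    rw [abs_le] at hk2
    have h1 : (k : ℝ) ≤ n * Real.exp (1 / T) := by
      have : Real.log k ≤ Real.log n + 1 / T := by (clear * - hk2; linarith [hk2.1])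
      calc (k : ℝ) = Real.exp (Real.log k) := (Real.exp_log hk0).symm
        _ ≤ Real.exp (Real.log n + 1 / T) := Real.exp_le_exp.2 this
        _ = n * Real.exp (1 / T) := by rw [Real.exp_add, Real.exp_log hn0]
    have h2 : (n : ℝ) * Real.exp (-(1 / T)) ≤ k := by
      have : Real.log n + -(1 / T) ≤ Real.log k := by (clear * - hk2; linarith [hk2.2])
      calc (n : ℝ) * Real.exp (-(1 / T)) = Real.exp (Real.log n + -(1 / T)) := by
            rw [Real.exp_add, Real.exp_log hn0]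
        _ ≤ Real.exp (Real.log k) := Real.exp_le_exp.2 this
        _ = k := Real.exp_log hk0
    have h3 : Real.exp (1 / T) ≤ 1 + 2 * (1 / T) := by
      have := Real.exp_bound' hx0.le hx1 (n := 1) (by norm_num)
      simp [Finset.sum_range_succ] at this
      have h4 : Real.exp T⁻¹ ≤ 1 + 2 * T⁻¹ := by
        refine this.trans (by (clear * -; linarith))
      simpa using h4
    have h4 : 1 - 1 / T ≤ Real.exp (-(1 / T)) := by
      have := Real.add_one_le_exp (-(1 / T))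
      (clear * - this; linarith)
    rw [Finset.mem_Icc]
    constructor
    · refine Nat.ceil_le.2 ?_
      exact (mul_le_mul_of_nonneg_left h4 hn0.le).trans h2
    · refine Nat.le_floor ?_
      exact h1.trans (mul_le_mul_of_nonneg_left h3 hn0.le)
  have hcard := Finset.card_le_card hsub
  rw [Nat.card_Icc] at hcard
  have hA : (n : ℝ) * (1 - 1 / T) ≤ ⌈(n : ℝ) * (1 - 1 / T)⌉₊ := Nat.le_ceil _
  have hB : (⌊(n : ℝ) * (1 + 2 * (1 / T))⌋₊ : ℝ) ≤ (n : ℝ) * (1 + 2 * (1 / T)) :=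
    Nat.floor_le (by positivity)
  have hR : (0 : ℝ) ≤ 1 + 3 * n / T := by positivity
  rcases le_or_gt ⌈(n : ℝ) * (1 - 1 / T)⌉₊ (⌊(n : ℝ) * (1 + 2 * (1 / T))⌋₊ + 1) with h | h
  · have : ((⌊(n : ℝ) * (1 + 2 * (1 / T))⌋₊ + 1 - ⌈(n : ℝ) * (1 - 1 / T)⌉₊ : ℕ) : ℝ) ≤ 1 + 3 * n / T := by
      rw [Nat.cast_sub h]
      push_cast
      have e1 : (n : ℝ) * (1 + 2 * (1 / T)) - n * (1 - 1 / T) = 3 * n / T := by ring
      (clear * - hA hB e1; linarith)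
    exact (Nat.cast_le.2 hcard).trans this
  · have : ⌊(n : ℝ) * (1 + 2 * (1 / T))⌋₊ + 1 - ⌈(n : ℝ) * (1 - 1 / T)⌉₊ = 0 := by omega
    rw [this] at hcard
    exact (Nat.cast_le.2 hcard).trans (by simpa using hR)

theorem mv2 : FMmv2 := by
  obtain ⟨C, hC, h⟩ := meanValue
  refine ⟨3 * C, by positivity, ?_⟩
  intro L c T hT
  have hT0 : 0 < T := by linarith
  have h1 := h ℕ (Icc 1 L) c (fun n => Real.log n) T hT
  have h2 : ∀ t : ℝ, ∑ n ∈ Icc 1 L, c n * (n : ℂ) ^ ((t : ℂ) * Complex.I) =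
      ∑ j ∈ Icc 1 L, c j * Complex.exp (Complex.I * ((Real.log j * t : ℝ) : ℂ)) := by
    intro t
    refine Finset.sum_congr rfl fun n hn => ?_
    have hn1 : 1 ≤ n := (Finset.mem_Icc.1 hn).1
    have hn0 : (n : ℂ) ≠ 0 := by exact_mod_cast (by omega : n ≠ 0)
    rw [Complex.cpow_def_of_ne_zero hn0, Complex.natCast_log.symm]
    congr 2
    push_cast
    ring
  simp_rw [h2]
  refine h1.trans ?_
  rw [mul_assoc, mul_comm 3 C, mul_assoc]
  refine mul_le_mul_of_nonneg_left ?_ hC.le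
  have h3 : ∑ j ∈ Icc 1 L, ∑ k ∈ Icc 1 L, (if |Real.log j - Real.log k| ≤ 1 / T then ‖c j‖ * ‖c k‖ else 0) ≤
      ∑ j ∈ Icc 1 L, ∑ k ∈ Icc 1 L, (if |Real.log j - Real.log k| ≤ 1 / T then ‖c j‖ ^ 2 else 0) := by
    have h4 : ∑ j ∈ Icc 1 L, ∑ k ∈ Icc 1 L, (if |Real.log j - Real.log k| ≤ 1 / T then ‖c j‖ * ‖c k‖ else 0) ≤
        ∑ j ∈ Icc 1 L, ∑ k ∈ Icc 1 L, ((if |Real.log j - Real.log k| ≤ 1 / T then ‖c j‖ ^ 2 else 0) / 2 +
          (if |Real.log k - Real.log j| ≤ 1 / T then ‖c k‖ ^ 2 else 0) / 2) := by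
      refine Finset.sum_le_sum fun j _ => Finset.sum_le_sum fun k _ => ?_
      rw [abs_sub_comm (Real.log k) (Real.log j)]
      split_ifs
      · (clear * -; nlinarith [sq_nonneg (‖c j‖ - ‖c k‖)])
      · norm_num
    refine h4.trans ?_
    simp_rw [Finset.sum_add_distrib]
    have h5 : ∑ j ∈ Icc 1 L, ∑ k ∈ Icc 1 L, (if |Real.log k - Real.log j| ≤ 1 / T then ‖c k‖ ^ 2 else 0) / 2 =
        ∑ j ∈ Icc 1 L, ∑ k ∈ Icc 1 L, (if |Real.log j - Real.log k| ≤ 1 / T then ‖c j‖ ^ 2 else 0) / 2 := by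
      rw [Finset.sum_comm]
    rw [h5]
    simp_rw [← Finset.sum_div]
    (clear * -; linarith)
  have h6 : ∀ j ∈ Icc 1 L, T * ∑ k ∈ Icc 1 L, (if |Real.log j - Real.log k| ≤ 1 / T then ‖c j‖ ^ 2 else 0) ≤
      3 * ((T + j) * ‖c j‖ ^ 2) := by
    intro j hj
    have hj1 : 1 ≤ j := (Finset.mem_Icc.1 hj).1
    rw [← Finset.sum_filter, Finset.sum_const, nsmul_eq_mul]
    have h7 := card_log_near L j T hT hj1
    have h8 : T * ((((Icc 1 L).filter (fun k : ℕ => |Real.log j - Real.log k| ≤ 1 / T)).card : ℝ)) ≤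
        T + 3 * j := by
      have := mul_le_mul_of_nonneg_left h7 hT0.le
      have e : T * (1 + 3 * (j : ℝ) / T) = T + 3 * j := by field_simp
      (clear * - this e; linarith)
    have h9 : T + 3 * (j : ℝ) ≤ 3 * (T + j) := by (clear * - hT; linarith)
    have h10 : (0 : ℝ) ≤ ‖c j‖ ^ 2 := by positivity
    calc T * (((((Icc 1 L).filter (fun k : ℕ => |Real.log j - Real.log k| ≤ 1 / T)).card : ℝ)) * ‖c j‖ ^ 2)
        = (T * ((((Icc 1 L).filter (fun k : ℕ => |Real.log j - Real.log k| ≤ 1 / T)).card : ℝ))) * ‖c j‖ ^ 2 := by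
          ring
      _ ≤ (3 * (T + j)) * ‖c j‖ ^ 2 := mul_le_mul_of_nonneg_right (h8.trans h9) h10
      _ = 3 * ((T + j) * ‖c j‖ ^ 2) := by ring
  calc T * ∑ j ∈ Icc 1 L, ∑ k ∈ Icc 1 L, (if |Real.log j - Real.log k| ≤ 1 / T then ‖c j‖ * ‖c k‖ else 0)
      ≤ T * ∑ j ∈ Icc 1 L, ∑ k ∈ Icc 1 L, (if |Real.log j - Real.log k| ≤ 1 / T then ‖c j‖ ^ 2 else 0) :=
        mul_le_mul_of_nonneg_left h3 hT0.le
    _ = ∑ j ∈ Icc 1 L, T * ∑ k ∈ Icc 1 L, (if |Real.log j - Real.log k| ≤ 1 / T then ‖c j‖ ^ 2 else 0) := by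
        rw [Finset.mul_sum]
    _ ≤ ∑ j ∈ Icc 1 L, 3 * ((T + j) * ‖c j‖ ^ 2) := Finset.sum_le_sum h6
    _ = 3 * ∑ n ∈ Icc 1 L, (T + n) * ‖c n‖ ^ 2 := by rw [← Finset.mul_sum]

end Pool.Agent.M17.Helper65.KC
end

/- Helper53.KN.Helper18.KP.Mom -/
section
/-! Project KS, lemma POW: moments of short polynomials. -/

set_option autoImplicit false
open MeasureTheory Filter Topology Finset
open scoped Classical

namespace Pool.Agent.M17.Helper18.KP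

open Pool.Agent.M17.Helper60.KS Pool.Agent.M17.Helper65.KC

/-- group polynomial -/
noncomputable def GP {ι : Type} (S : Finset ι) (n : ι → ℕ) (v t : ℝ) : ℂ :=
  ∑ j ∈ S, Complex.exp (Complex.I * (((v * Real.log (n j)) * t : ℝ) : ℂ))

theorem second_moment : ∃ C : ℝ, 0 < C ∧ ∀ (ι : Type) (S : Finset ι) (n : ι → ℕ) (v T : ℝ) (M F : ℕ),
    1 ≤ T → 1 ≤ v → (∀ j ∈ S, 1 ≤ n j ∧ n j ≤ M) → (∀ m : ℕ, (S.filter (fun j => n j = m)).card ≤ F) →
    ∫ t : ℝ, Real.exp (-(t / T) ^ 2) * ‖GP S n v t‖ ^ 2 ≤ C * T * (S.card * F * (1 + 3 * M / T)) := by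
  obtain ⟨C, hC, h⟩ := meanValue
  refine ⟨C, hC, ?_⟩
  intro ι S n v T M F hT hv hn hF
  have hT0 : 0 < T := by linarith
  have h1 := h ι S (fun _ => 1) (fun j => v * Real.log (n j)) T hT
  have h2 : ∀ t : ℝ, ∑ j ∈ S, (1 : ℂ) * Complex.exp (Complex.I * (((v * Real.log (n j)) * t : ℝ) : ℂ)) =
      GP S n v t := by
    intro t; unfold GP; simp
  simp_rw [h2] at h1
  refine h1.trans ?_
  refine mul_le_mul_of_nonneg_left ?_ (by positivity)
  have h3 : ∀ j ∈ S, ∑ k ∈ S, (if |v * Real.log (n j) - v * Real.log (n k)| ≤ 1 / T then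
      ‖(1 : ℂ)‖ * ‖(1 : ℂ)‖ else 0) ≤ (F : ℝ) * (1 + 3 * M / T) := by
    intro j hj
    have hj1 := hn j hj
    rw [← Finset.sum_filter]
    simp only [norm_one, mul_one, Finset.sum_const, nsmul_eq_mul]
    have h4 : (S.filter (fun k => |v * Real.log (n j) - v * Real.log (n k)| ≤ 1 / T)).card ≤
        F * ((Icc 1 M).filter (fun k : ℕ => |Real.log (n j) - Real.log k| ≤ 1 / T)).card := by
      refine Finset.card_le_mul_card_image_of_maps_to (f := n) ?_ F ?_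
      · intro k hk
        rw [Finset.mem_filter] at hk
        rw [Finset.mem_filter, Finset.mem_Icc]
        refine ⟨hn k hk.1, ?_⟩
        have e : v * Real.log (n j) - v * Real.log (n k) = v * (Real.log (n j) - Real.log (n k)) := by ring
        have h5 := hk.2
        rw [e, abs_mul, abs_of_pos (by linarith)] at h5
        have h6 : |Real.log (n j) - Real.log (n k)| ≤ v * |Real.log (n j) - Real.log (n k)| := by
          have := abs_nonneg (Real.log (n j) - Real.log (n k))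
          nlinarith
        exact h6.trans h5
      · intro m _
        refine (Finset.card_le_card ?_).trans (hF m)
        intro k hk
        rw [Finset.mem_filter] at hk ⊢
        rw [Finset.mem_filter] at hk
        exact ⟨hk.1.1, hk.2⟩
    have h7 := card_log_near M (n j) T hT hj1.1
    have h8 : ((S.filter (fun k => |v * Real.log (n j) - v * Real.log (n k)| ≤ 1 / T)).card : ℝ) ≤
        F * ((Icc 1 M).filter (fun k : ℕ => |Real.log (n j) - Real.log k| ≤ 1 / T)).card := by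
      exact_mod_cast h4
    refine h8.trans (mul_le_mul_of_nonneg_left ?_ (Nat.cast_nonneg _))
    refine h7.trans ?_
    have : (n j : ℝ) ≤ M := by exact_mod_cast hj1.2
    have h9 : 3 * (n j : ℝ) / T ≤ 3 * M / T := div_le_div_of_nonneg_right (by linarith) hT0.le
    linarith
  refine (Finset.sum_le_sum h3).trans ?_
  rw [Finset.sum_const, nsmul_eq_mul]
  apply le_of_eq
  ring

theorem GP_pow {ι : Type} (S : Finset ι) (n : ι → ℕ) (hn : ∀ j ∈ S, 1 ≤ n j) (v t : ℝ) (κ : ℕ) :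
    GP S n v t ^ κ = GP (Fintype.piFinset (fun _ : Fin κ => S)) (fun p => ∏ i, n (p i)) v t := by
  unfold GP
  have h1 : (∑ j ∈ S, Complex.exp (Complex.I * (((v * Real.log (n j)) * t : ℝ) : ℂ))) ^ κ =
      ∏ _i : Fin κ, ∑ j ∈ S, Complex.exp (Complex.I * (((v * Real.log (n j)) * t : ℝ) : ℂ)) := by
    rw [Finset.prod_const, Finset.card_univ, Fintype.card_fin]
  rw [h1, Finset.prod_univ_sum]
  refine Finset.sum_congr rfl fun p hp => ?_
  rw [← Complex.exp_sum]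
  congr 1
  have hp1 : ∀ i, p i ∈ S := fun i => (Fintype.mem_piFinset.1 hp) i
  have h2 : Real.log ((∏ i, n (p i) : ℕ) : ℝ) = ∑ i, Real.log (n (p i)) := by
    push_cast
    rw [Real.log_prod]
    intro i _
    have := hn (p i) (hp1 i)
    exact_mod_cast (by omega : n (p i) ≠ 0)
  rw [h2, ← Finset.mul_sum]
  congr 1
  rw [Finset.mul_sum, Finset.sum_mul]
  push_cast
  rfl

theorem moment : ∃ C : ℝ, 0 < C ∧ ∀ (κ : ℕ) (ι : Type) (S : Finset ι) (n : ι → ℕ) (v T : ℝ) (M F D : ℕ),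
    1 ≤ T → 1 ≤ v → (∀ j ∈ S, 1 ≤ n j ∧ n j ≤ M) → (∀ m : ℕ, (S.filter (fun j => n j = m)).card ≤ F) →
    (∀ m : ℕ, 1 ≤ m → m ≤ M ^ κ → m.divisors.card ≤ D) →
    ∫ t : ℝ, Real.exp (-(t / T) ^ 2) * ‖GP S n v t‖ ^ (2 * κ) ≤
      C * T * ((S.card : ℝ) ^ κ * (F * D : ℝ) ^ κ * (1 + 3 * (M : ℝ) ^ κ / T)) := by
  obtain ⟨C, hC, h⟩ := second_moment
  refine ⟨C, hC, ?_⟩
  intro κ ι S n v T M F D hT hv hn hF hD
  have h1 := h (Fin κ → ι) (Fintype.piFinset (fun _ : Fin κ => S)) (fun p => ∏ i, n (p i)) v T (M ^ κ)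
    ((F * D) ^ κ) hT hv ?_ ?_
  · have h2 : ∀ t : ℝ, ‖GP (Fintype.piFinset (fun _ : Fin κ => S)) (fun p => ∏ i, n (p i)) v t‖ ^ 2 =
        ‖GP S n v t‖ ^ (2 * κ) := by
      intro t
      rw [← GP_pow S n (fun j hj => (hn j hj).1) v t κ, norm_pow, ← pow_mul, mul_comm κ 2]
    simp_rw [h2] at h1
    refine h1.trans (le_of_eq ?_)
    rw [Fintype.card_piFinset]
    push_cast
    simp only [Finset.prod_const, Finset.card_univ, Fintype.card_fin]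
  · intro p hp
    have hp1 : ∀ i, p i ∈ S := fun i => (Fintype.mem_piFinset.1 hp) i
    constructor
    · exact Nat.one_le_iff_ne_zero.2 (Finset.prod_ne_zero_iff.2 fun i _ => by
        have := (hn (p i) (hp1 i)).1
        omega)
    · refine (Finset.prod_le_prod' (fun i _ => (hn (p i) (hp1 i)).2)).trans ?_
      rw [Finset.prod_const, Finset.card_univ, Fintype.card_fin]
  · intro m
    rcases Finset.eq_empty_or_nonempty ((Fintype.piFinset (fun _ : Fin κ => S)).filter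
      (fun p => ∏ i, n (p i) = m)) with he | ⟨q, hq⟩
    · rw [he]; simp
    rw [Finset.mem_filter] at hq
    have hq1 : ∀ i, q i ∈ S := fun i => (Fintype.mem_piFinset.1 hq.1) i
    have hm1 : 1 ≤ m := by
      rw [← hq.2]
      exact Nat.one_le_iff_ne_zero.2 (Finset.prod_ne_zero_iff.2 fun i _ => by
        have := (hn (q i) (hq1 i)).1
        omega)
    have hm2 : m ≤ M ^ κ := by
      rw [← hq.2]
      refine (Finset.prod_le_prod' (fun i _ => (hn (q i) (hq1 i)).2)).trans ?_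
      rw [Finset.prod_const, Finset.card_univ, Fintype.card_fin]
    have hsub : (Fintype.piFinset (fun _ : Fin κ => S)).filter (fun p => ∏ i, n (p i) = m) ⊆
        Fintype.piFinset (fun _ : Fin κ => S.filter (fun j => n j ∣ m)) := by
      intro p hp
      rw [Finset.mem_filter] at hp
      rw [Fintype.mem_piFinset]
      intro i
      rw [Finset.mem_filter]
      refine ⟨(Fintype.mem_piFinset.1 hp.1) i, ?_⟩
      rw [← hp.2]
      exact Finset.dvd_prod_of_mem (fun i => n (p i)) (Finset.mem_univ i)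
    refine (Finset.card_le_card hsub).trans ?_
    rw [Fintype.card_piFinset]
    simp only [Finset.prod_const, Finset.card_univ, Fintype.card_fin]
    refine Nat.pow_le_pow_left ?_ κ
    have h5 : (S.filter (fun j => n j ∣ m)).card ≤ F * m.divisors.card := by
      refine Finset.card_le_mul_card_image_of_maps_to (f := n) ?_ F ?_
      · intro k hk
        rw [Finset.mem_filter] at hk
        rw [Nat.mem_divisors]
        exact ⟨hk.2, by omega⟩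
      · intro d _
        refine (Finset.card_le_card ?_).trans (hF d)
        intro k hk
        rw [Finset.mem_filter] at hk ⊢
        rw [Finset.mem_filter] at hk
        exact ⟨hk.1.1, hk.2⟩
    exact h5.trans (Nat.mul_le_mul_left F (hD m hm1 hm2))

end Pool.Agent.M17.Helper18.KP
end

/- Helper53.KN.Helper46.KC.Split -/
section
/-! KC-17: greedy colouring of heights. -/

set_option autoImplicit false
open scoped Classical

namespace Pool.Agent.M17.Helper46.KC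

open Pool.Agent.M17.Helper60.KS

theorem splitSpaced : SplitSpaced := by
  intro Z
  induction Z using Finset.induction_on with
  | empty =>
    intro M _
    exact ⟨fun _ => 0, by simp, fun i ρ hρ => by simp at hρ⟩
  | insert a Z ha ih =>
    intro M hM
    obtain ⟨col, hcol, hsp⟩ := ih M (fun t => by
      refine le_trans (Finset.card_le_card ?_) (hM t)
      exact Finset.filter_subset_filter _ (Finset.subset_insert a Z))
    set C := Z.filter (fun ρ => |ρ.im - a.im| < 1) with hC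
    have hC1 : C.card + 1 ≤ M := by
      have haC : a ∉ C := fun h => ha (Finset.mem_of_mem_filter a h)
      rw [← Finset.card_insert_of_notMem haC]
      refine le_trans (Finset.card_le_card ?_) (hM a.im)
      intro ρ hρ
      rw [Finset.mem_insert] at hρ
      rw [Finset.mem_filter, Finset.mem_insert]
      rcases hρ with h | h
      · subst h
        exact ⟨Or.inl rfl, by simp⟩
      · rw [hC, Finset.mem_filter] at h
        exact ⟨Or.inr h.1, h.2.le⟩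
    have hlt : (C.image col).card < (Finset.range M).card := by
      rw [Finset.card_range]
      exact lt_of_le_of_lt Finset.card_image_le (by omega)
    obtain ⟨i, hiM, hi⟩ := Finset.exists_mem_notMem_of_card_lt_card hlt
    rw [Finset.mem_range] at hiM
    refine ⟨Function.update col a i, ?_, ?_⟩
    · intro ρ hρ
      rw [Finset.mem_insert] at hρ
      by_cases h : ρ = a
      · rw [h, Function.update_self]; exact hiM
      · rw [Function.update_of_ne h]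
        exact hcol ρ (hρ.resolve_left h)
    · have key : ∀ ρ ∈ Z, ρ ≠ a → col ρ = i → 1 ≤ |ρ.im - a.im| := by
        intro ρ hρ _ hc
        by_contra hcon
        apply hi
        rw [Finset.mem_image]
        exact ⟨ρ, by rw [hC, Finset.mem_filter]; exact ⟨hρ, not_le.1 hcon⟩, hc⟩
      intro j ρ hρ ρ' hρ' hne
      rw [Finset.mem_filter, Finset.mem_insert] at hρ hρ'
      obtain ⟨h1, h2⟩ := hρ
      obtain ⟨h1', h2'⟩ := hρ'
      by_cases h : ρ = a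
      · subst h
        rw [Function.update_self] at h2
        have h' : ρ' ≠ ρ := fun e => hne e.symm
        rw [Function.update_of_ne h'] at h2'
        rw [abs_sub_comm]
        exact key ρ' (h1'.resolve_left h') h' (h2'.trans h2.symm)
      · rw [Function.update_of_ne h] at h2
        by_cases h' : ρ' = a
        · subst h'
          rw [Function.update_self] at h2'
          exact key ρ (h1.resolve_left h) h (h2.trans h2'.symm)
        · rw [Function.update_of_ne h'] at h2'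
          exact hsp j ρ (Finset.mem_filter.2 ⟨h1.resolve_left h, h2⟩) ρ'
            (Finset.mem_filter.2 ⟨h1'.resolve_left h', h2'⟩) hne

end Pool.Agent.M17.Helper46.KC
end

/- Helper53.KN.Helper52.KC.FMavg -/
section
/-!
# Project KS, module FM-5, part 1: averaging with a Gaussian
-/

set_option autoImplicit false
open MeasureTheory Filter Topology Finset

namespace Pool.Agent.M17.Helper52.KC

/-- polynomial growth against a Gaussian -/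
theorem pow_le_gauss (n : ℕ) {b : ℝ} (hb : 0 < b) {x : ℝ} (hx : 0 ≤ x) :
    (1 + x) ^ n ≤ Real.exp ((n : ℝ) ^ 2 / (4 * b)) * Real.exp (b * x ^ 2) := by
  have h1 : (1 + x) ^ n ≤ Real.exp (n * x) := by
    rw [mul_comm, Real.exp_mul, Real.rpow_natCast]
    exact pow_le_pow_left₀ (by (clear * - hx; linarith)) (by (clear * -; linarith [Real.add_one_le_exp x])) n
  refine h1.trans ?_
  rw [← Real.exp_add]
  apply Real.exp_le_exp.mpr
  have : 0 ≤ (2 * b * x - n) ^ 2 / (4 * b) := by (clear * - hb; positivity)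
  have h2 : (2 * b * x - n) ^ 2 / (4 * b) = b * x ^ 2 - n * x + (n : ℝ) ^ 2 / (4 * b) := by
    field_simp
    ring
  (clear * - this h2; linarith)

theorem gint {b : ℝ} (hb : 0 < b) : Integrable (fun t : ℝ => Real.exp (-(b * t ^ 2))) := by
  have := integrable_exp_neg_mul_sq hb
  refine this.congr (Eventually.of_forall fun t => ?_)
  simp only [neg_mul]

/-- integrability of a function of polynomial growth against a Gaussian -/
theorem poly_gauss_integrable {h : ℝ → ℝ} (hc : Continuous h) {K : ℝ} {n : ℕ} (hK : 0 ≤ K)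
    (hb : ∀ v, |h v| ≤ K * (1 + |v|) ^ n) {b : ℝ} (hb0 : 0 < b) :
    Integrable (fun v => h v * Real.exp (-(b * v ^ 2))) := by
  have hg : Integrable (fun v : ℝ => (K * Real.exp ((n : ℝ) ^ 2 / (4 * (b / 2)))) *
      Real.exp (-((b / 2) * v ^ 2))) := (gint (by positivity)).const_mul _
  refine hg.mono' (by fun_prop) (Eventually.of_forall fun v => ?_)
  rw [Real.norm_eq_abs, abs_mul, abs_of_pos (Real.exp_pos _)]
  have h1 := pow_le_gauss n (b := b / 2) (by positivity) (abs_nonneg v)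
  rw [sq_abs] at h1
  calc |h v| * Real.exp (-(b * v ^ 2))
      ≤ (K * (1 + |v|) ^ n) * Real.exp (-(b * v ^ 2)) :=
        mul_le_mul_of_nonneg_right (hb v) (Real.exp_pos _).le
    _ ≤ (K * (Real.exp ((n : ℝ) ^ 2 / (4 * (b / 2))) * Real.exp (b / 2 * v ^ 2))) *
          Real.exp (-(b * v ^ 2)) := by (clear * - h1 hK; gcongr)
    _ = (K * Real.exp ((n : ℝ) ^ 2 / (4 * (b / 2)))) * Real.exp (-((b / 2) * v ^ 2)) := by
        rw [show -(b / 2 * v ^ 2) = b / 2 * v ^ 2 + -(b * v ^ 2) by ring, Real.exp_add]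
        ring

theorem shift_bound {F : ℝ → ℝ} {K : ℝ} (hK : 0 ≤ K) (h0 : ∀ u, 0 ≤ F u)
    (hF : ∀ u, F u ≤ K * (1 + |u|)) (t : ℝ) (n : ℕ) (v : ℝ) :
    |F (t + v) ^ n| ≤ (K * (1 + |t|)) ^ n * (1 + |v|) ^ n := by
  rw [abs_of_nonneg (pow_nonneg (h0 _) _), ← mul_pow]
  apply pow_le_pow_left₀ (h0 _)
  refine (hF _).trans ?_
  rw [mul_assoc]
  apply mul_le_mul_of_nonneg_left _ hK
  have := abs_add_le t v
  (clear * - this; nlinarith [abs_nonneg t, abs_nonneg v])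

theorem shift_integrable {F : ℝ → ℝ} (hc : Continuous F) {K : ℝ} (hK : 0 ≤ K) (h0 : ∀ u, 0 ≤ F u)
    (hF : ∀ u, F u ≤ K * (1 + |u|)) (t : ℝ) (n : ℕ) {b : ℝ} (hb : 0 < b) :
    Integrable (fun v => F (t + v) ^ n * Real.exp (-(b * v ^ 2))) := by
  refine poly_gauss_integrable (h := fun v => F (t + v) ^ n) (K := (K * (1 + |t|)) ^ n) (n := n)
    (by fun_prop) (by (clear * - hK; positivity)) (fun v => shift_bound hK h0 hF t n v) hb

/-- Cauchy–Schwarz for the Gaussian measure -/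
theorem cs_gauss {f : ℝ → ℝ} (h1 : Integrable (fun v => f v * Real.exp (-(1 / 2 * v ^ 2))))
    (h2 : Integrable (fun v => f v ^ 2 * Real.exp (-(1 / 2 * v ^ 2)))) :
    (∫ v, f v * Real.exp (-(1 / 2 * v ^ 2))) ^ 2 ≤
      (∫ v : ℝ, Real.exp (-(1 / 2 * v ^ 2))) * ∫ v, f v ^ 2 * Real.exp (-(1 / 2 * v ^ 2)) := by
  set W := ∫ v : ℝ, Real.exp (-(1 / 2 * v ^ 2)) with hW
  set A := ∫ v, f v * Real.exp (-(1 / 2 * v ^ 2)) with hA
  set B := ∫ v, f v ^ 2 * Real.exp (-(1 / 2 * v ^ 2)) with hB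
  have hi : Integrable (fun v : ℝ => Real.exp (-(1 / 2 * v ^ 2))) := gint (by norm_num)
  have hWpos : 0 < W := by
    rw [hW]
    have : (∫ v : ℝ, Real.exp (-(1 / 2 * v ^ 2))) = Real.sqrt (Real.pi / (1 / 2)) := by
      rw [← integral_gaussian (1 / 2)]
      simp only [neg_mul]
    rw [this]
    positivity
  have hpos : 0 ≤ ∫ v, (W * f v - A) ^ 2 * Real.exp (-(1 / 2 * v ^ 2)) :=
    integral_nonneg fun v => by (clear * -; positivity)
  have hexp : ∫ v, (W * f v - A) ^ 2 * Real.exp (-(1 / 2 * v ^ 2)) =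
      W ^ 2 * B - 2 * W * A * A + A ^ 2 * W := by
    have he : (fun v => (W * f v - A) ^ 2 * Real.exp (-(1 / 2 * v ^ 2))) = fun v =>
        (W ^ 2 * (f v ^ 2 * Real.exp (-(1 / 2 * v ^ 2))) -
          2 * W * A * (f v * Real.exp (-(1 / 2 * v ^ 2)))) +
          A ^ 2 * Real.exp (-(1 / 2 * v ^ 2)) := by
      funext v; ring
    have i12 : Integrable (fun v => W ^ 2 * (f v ^ 2 * Real.exp (-(1 / 2 * v ^ 2))) -
        2 * W * A * (f v * Real.exp (-(1 / 2 * v ^ 2)))) :=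
      (h2.const_mul (W ^ 2)).sub (h1.const_mul (2 * W * A))
    rw [he, integral_add i12 (hi.const_mul _),
      integral_sub (h2.const_mul _) (h1.const_mul _), integral_const_mul, integral_const_mul,
      integral_const_mul]
  rw [hexp] at hpos
  have : 0 ≤ W * (W * B - A ^ 2) := by (clear * - hpos; nlinarith)
  have := nonneg_of_mul_nonneg_right this hWpos
  (clear * - this; linarith)

theorem jensen4 {F : ℝ → ℝ} (hc : Continuous F) {K : ℝ} (hK : 0 ≤ K) (h0 : ∀ u, 0 ≤ F u)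
    (hF : ∀ u, F u ≤ K * (1 + |u|)) (t : ℝ) :
    (∫ v, F (t + v) * Real.exp (-(1 / 2 * v ^ 2))) ^ 4 ≤
      (∫ v : ℝ, Real.exp (-(1 / 2 * v ^ 2))) ^ 3 *
        ∫ v, F (t + v) ^ 4 * Real.exp (-(1 / 2 * v ^ 2)) := by
  have i1 : Integrable (fun v => F (t + v) * Real.exp (-(1 / 2 * v ^ 2))) := by
    simpa using shift_integrable hc hK h0 hF t 1 (b := 1 / 2) (by norm_num)
  have i2 := shift_integrable hc hK h0 hF t 2 (b := 1 / 2) (by norm_num)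
  have i4 : Integrable (fun v => (F (t + v) ^ 2) ^ 2 * Real.exp (-(1 / 2 * v ^ 2))) := by
    have := shift_integrable hc hK h0 hF t 4 (b := 1 / 2) (by norm_num)
    refine this.congr (Eventually.of_forall fun v => ?_)
    simp only; ring
  have c1 := cs_gauss (f := fun v => F (t + v)) i1 i2
  have c2 := cs_gauss (f := fun v => F (t + v) ^ 2) i2 i4
  have e4 : ∫ v, (F (t + v) ^ 2) ^ 2 * Real.exp (-(1 / 2 * v ^ 2)) =
      ∫ v, F (t + v) ^ 4 * Real.exp (-(1 / 2 * v ^ 2)) := by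
    congr 1; funext v; ring
  rw [e4] at c2
  set W := ∫ v : ℝ, Real.exp (-(1 / 2 * v ^ 2)) with hW
  have hW0 : 0 ≤ W := integral_nonneg fun v => (Real.exp_pos _).le
  set A := ∫ v, F (t + v) * Real.exp (-(1 / 2 * v ^ 2))
  set B := ∫ v, F (t + v) ^ 2 * Real.exp (-(1 / 2 * v ^ 2))
  set D := ∫ v, F (t + v) ^ 4 * Real.exp (-(1 / 2 * v ^ 2))
  have hB0 : 0 ≤ B := integral_nonneg fun v => by (clear * -; positivity)
  calc A ^ 4 = (A ^ 2) ^ 2 := by ring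
    _ ≤ (W * B) ^ 2 := pow_le_pow_left₀ (by (clear * -; positivity)) c1 2
    _ = W ^ 2 * B ^ 2 := by ring
    _ ≤ W ^ 2 * (W * D) := by (clear * - c2; gcongr)
    _ = W ^ 3 * D := by ring

/-- the averaging lemma -/
theorem avg4 : ∃ C : ℝ, 0 < C ∧ ∀ (F : ℝ → ℝ) (K T : ℝ), Continuous F → 0 ≤ K → (∀ u, 0 ≤ F u) →
    (∀ u, F u ≤ K * (1 + |u|)) → 2 ≤ T →
    ∫⁻ t, ENNReal.ofReal (Real.exp (-(t / T) ^ 2) *
        (∫ v, F (t + v) * Real.exp (-(1 / 2 * v ^ 2))) ^ 4) ≤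
      ENNReal.ofReal C * ∫⁻ u, ENNReal.ofReal (Real.exp (-(u ^ 2 / (2 * T ^ 2))) * F u ^ 4) := by
  set W := ∫ v : ℝ, Real.exp (-(1 / 2 * v ^ 2)) with hW
  have hW0 : 0 ≤ W := integral_nonneg fun v => (Real.exp_pos _).le
  set V := ∫ v : ℝ, Real.exp (-(1 / 4 * v ^ 2)) with hV
  have hV0 : 0 ≤ V := integral_nonneg fun v => (Real.exp_pos _).le
  refine ⟨W ^ 3 * V + 1, by (clear * -; positivity), ?_⟩
  intro F K T hc hK h0 hF hT
  have hT0 : 0 < T := by (clear * - hT; linarith)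
  set J := ∫⁻ u, ENNReal.ofReal (Real.exp (-(u ^ 2 / (2 * T ^ 2))) * F u ^ 4) with hJ
  have step1 : ∀ t, ENNReal.ofReal (Real.exp (-(t / T) ^ 2) *
        (∫ v, F (t + v) * Real.exp (-(1 / 2 * v ^ 2))) ^ 4) ≤
      ENNReal.ofReal (W ^ 3) * ∫⁻ v, ENNReal.ofReal (Real.exp (-(t / T) ^ 2) *
        (F (t + v) ^ 4 * Real.exp (-(1 / 2 * v ^ 2)))) := by
    intro t
    have i4 := (shift_integrable hc hK h0 hF t 4 (b := 1 / 2) (by norm_num)).const_mul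
      (Real.exp (-(t / T) ^ 2))
    rw [← ofReal_integral_eq_lintegral_ofReal i4 (Eventually.of_forall fun v => by (clear * -; positivity)),
      ← ENNReal.ofReal_mul (by (clear * -; positivity))]
    apply ENNReal.ofReal_le_ofReal
    rw [integral_const_mul]
    calc _ ≤ Real.exp (-(t / T) ^ 2) * (W ^ 3 *
          ∫ v, F (t + v) ^ 4 * Real.exp (-(1 / 2 * v ^ 2))) := by
          gcongr
          exact jensen4 hc hK h0 hF t
      _ = _ := by ring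
  have step2 : ∀ v, ∫⁻ t, ENNReal.ofReal (Real.exp (-(t / T) ^ 2) *
        (F (t + v) ^ 4 * Real.exp (-(1 / 2 * v ^ 2)))) ≤
      ENNReal.ofReal (Real.exp (-(1 / 4 * v ^ 2))) * J := by
    intro v
    have e1 : ∫⁻ t, ENNReal.ofReal (Real.exp (-(t / T) ^ 2) *
        (F (t + v) ^ 4 * Real.exp (-(1 / 2 * v ^ 2)))) =
        ∫⁻ u, ENNReal.ofReal (Real.exp (-((u - v) / T) ^ 2) *
        (F u ^ 4 * Real.exp (-(1 / 2 * v ^ 2)))) := by
      rw [← lintegral_add_right_eq_self (fun u => ENNReal.ofReal (Real.exp (-((u - v) / T) ^ 2) *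
        (F u ^ 4 * Real.exp (-(1 / 2 * v ^ 2))))) v]
      simp only [add_sub_cancel_right]
    rw [e1, hJ, ← lintegral_const_mul' _ _ ENNReal.ofReal_ne_top]
    apply lintegral_mono
    intro u
    simp only
    rw [← ENNReal.ofReal_mul (Real.exp_pos _).le]
    apply ENNReal.ofReal_le_ofReal
    have hexp : Real.exp (-((u - v) / T) ^ 2) * Real.exp (-(1 / 2 * v ^ 2)) ≤
        Real.exp (-(1 / 4 * v ^ 2)) * Real.exp (-(u ^ 2 / (2 * T ^ 2))) := by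
      rw [← Real.exp_add, ← Real.exp_add]
      apply Real.exp_le_exp.mpr
      have h3 : (v / T) ^ 2 ≤ v ^ 2 / 4 := by
        rw [div_pow]
        apply div_le_div_of_nonneg_left (by positivity) (by norm_num)
        (clear * - hT; nlinarith)
      have h4 : u ^ 2 / (2 * T ^ 2) ≤ ((u - v) / T) ^ 2 + (v / T) ^ 2 := by
        rw [div_pow, div_pow, ← add_div, div_le_div_iff₀ (by positivity) (by positivity)]
        have : u ^ 2 ≤ 2 * ((u - v) ^ 2 + v ^ 2) := by (clear * -; nlinarith [sq_nonneg (u - 2 * v)])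
        (clear * - this; nlinarith [sq_nonneg T])
      (clear * - h3 h4; linarith)
    calc Real.exp (-((u - v) / T) ^ 2) * (F u ^ 4 * Real.exp (-(1 / 2 * v ^ 2)))
        = (Real.exp (-((u - v) / T) ^ 2) * Real.exp (-(1 / 2 * v ^ 2))) * F u ^ 4 := by ring
      _ ≤ (Real.exp (-(1 / 4 * v ^ 2)) * Real.exp (-(u ^ 2 / (2 * T ^ 2)))) * F u ^ 4 := by
          apply mul_le_mul_of_nonneg_right hexp (pow_nonneg (h0 u) 4)
      _ = _ := by ring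
  calc ∫⁻ t, ENNReal.ofReal (Real.exp (-(t / T) ^ 2) *
        (∫ v, F (t + v) * Real.exp (-(1 / 2 * v ^ 2))) ^ 4)
      ≤ ∫⁻ t, ENNReal.ofReal (W ^ 3) * ∫⁻ v, ENNReal.ofReal (Real.exp (-(t / T) ^ 2) *
        (F (t + v) ^ 4 * Real.exp (-(1 / 2 * v ^ 2)))) := lintegral_mono step1
    _ = ENNReal.ofReal (W ^ 3) * ∫⁻ t, ∫⁻ v, ENNReal.ofReal (Real.exp (-(t / T) ^ 2) *
        (F (t + v) ^ 4 * Real.exp (-(1 / 2 * v ^ 2)))) :=
        lintegral_const_mul' _ _ ENNReal.ofReal_ne_top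
    _ = ENNReal.ofReal (W ^ 3) * ∫⁻ v, ∫⁻ t, ENNReal.ofReal (Real.exp (-(t / T) ^ 2) *
        (F (t + v) ^ 4 * Real.exp (-(1 / 2 * v ^ 2)))) := by
        congr 1
        apply lintegral_lintegral_swap
        apply Measurable.aemeasurable
        apply ENNReal.measurable_ofReal.comp
        apply Continuous.measurable
        fun_prop
    _ ≤ ENNReal.ofReal (W ^ 3) * ∫⁻ v, ENNReal.ofReal (Real.exp (-(1 / 4 * v ^ 2))) * J := by
        gcongr with v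
        exact step2 v
    _ = ENNReal.ofReal (W ^ 3) * (ENNReal.ofReal V * J) := by
        congr 1
        rw [lintegral_mul_const _ (by fun_prop), hV,
          ofReal_integral_eq_lintegral_ofReal (gint (by norm_num))
            (Eventually.of_forall fun v => (Real.exp_pos _).le)]
    _ = ENNReal.ofReal (W ^ 3 * V) * J := by
        rw [ENNReal.ofReal_mul (by positivity), mul_assoc]
    _ ≤ ENNReal.ofReal (W ^ 3 * V + 1) * J := by
        gcongr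
        (clear * -; linarith)

end Pool.Agent.M17.Helper52.KC
end

/- Helper53.KN.Helper52.KC.FMs1 -/
section
/-!
# Project KS, module FM-5, part 2: the smoothed sum and the tails
-/

set_option autoImplicit false
open MeasureTheory Filter Topology Finset
open Pool.Agent.M17.Helper26.KC

namespace Pool.Agent.M17.Helper52.KC

/-- coefficients of the smoothed polynomial -/
noncomputable def aS (T : ℝ) (n : ℕ) : ℂ :=
  (((n : ℝ) ^ (-(1 / 2) : ℝ) * Phi (Real.log (Real.sqrt T) - Real.log n) : ℝ) : ℂ)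

theorem norm_aS_le (T : ℝ) (n : ℕ) : ‖aS T n‖ ≤ (n : ℝ) ^ (-(1 / 2) : ℝ) := by
  rw [aS, Complex.norm_real, Real.norm_eq_abs, abs_of_nonneg
    (mul_nonneg (Real.rpow_nonneg (Nat.cast_nonneg n) _) (Phi_nonneg _))]
  exact mul_le_of_le_one_right (Real.rpow_nonneg (Nat.cast_nonneg n) _) (Phi_le_one _)

theorem S1_term_eq (T t : ℝ) (m : ℕ) :
    ((m : ℂ) + 1) ^ (-(1 / 2 + (t : ℂ) * Complex.I)) *
      (Phi (Real.log (Real.sqrt T) - Real.log ((m : ℝ) + 1)) : ℂ) =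
    aS T (m + 1) * ((m + 1 : ℕ) : ℂ) ^ (((-t : ℝ) : ℂ) * Complex.I) := by
  have hm : ((m + 1 : ℕ) : ℂ) ≠ 0 := by exact_mod_cast Nat.succ_ne_zero m
  have h1 : -(1 / 2 + (t : ℂ) * Complex.I) = ((-(1 / 2) : ℝ) : ℂ) + ((-t : ℝ) : ℂ) * Complex.I := by
    push_cast; ring
  have h2 : ((m : ℂ) + 1) = ((m + 1 : ℕ) : ℂ) := by push_cast; ring
  rw [h2, h1, Complex.cpow_add _ _ hm, aS]
  have h3 : ((m + 1 : ℕ) : ℂ) ^ ((-(1 / 2) : ℝ) : ℂ) = ((((m + 1 : ℕ) : ℝ) ^ (-(1 / 2) : ℝ) : ℝ) : ℂ) := by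
    rw [Complex.ofReal_cpow (Nat.cast_nonneg _)]
    push_cast
    rfl
  rw [h3]
  push_cast
  ring

theorem norm_S1_term (T t : ℝ) (m : ℕ) :
    ‖aS T (m + 1) * ((m + 1 : ℕ) : ℂ) ^ (((-t : ℝ) : ℂ) * Complex.I)‖ =
      ((m : ℝ) + 1) ^ (-(1 / 2) : ℝ) * Phi (Real.log (Real.sqrt T) - Real.log ((m : ℝ) + 1)) := by
  rw [norm_mul, Complex.norm_natCast_cpow_of_pos (Nat.succ_pos m)]
  have : ((((-t : ℝ) : ℂ) * Complex.I)).re = 0 := by simp
  rw [this, Real.rpow_zero, mul_one, aS, Complex.norm_real, Real.norm_eq_abs, abs_of_nonneg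
    (mul_nonneg (Real.rpow_nonneg (Nat.cast_nonneg _) _) (Phi_nonneg _))]
  push_cast
  rfl

theorem summable_sq : Summable (fun m : ℕ => ((m : ℝ) + 1) ^ (-2 : ℝ)) := by
  have h := (Real.summable_nat_rpow (p := -2)).mpr (by norm_num)
  have := (summable_nat_add_iff 1).mpr h
  refine this.congr fun m => ?_
  push_cast
  rfl

/-- the terms are bounded by `B (m+1)^(-2)` -/
theorem S1_term_le {K : ℝ} (hK : 1 ≤ K) {T : ℝ} (hT : 1 ≤ T) (t : ℝ) (m : ℕ) :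
    ‖aS T (m + 1) * ((m + 1 : ℕ) : ℂ) ^ (((-t : ℝ) : ℂ) * Complex.I)‖ ≤
      Real.exp (K ^ 2) * (Real.sqrt T) ^ K * ((m : ℝ) + 1) ^ (-(1 / 2) - K) := by
  have hm : (0 : ℝ) < (m : ℝ) + 1 := by positivity
  have hs : 0 < Real.sqrt T := Real.sqrt_pos.mpr (by linarith)
  rw [norm_S1_term]
  have h1 := Phi_le K hK (Real.log (Real.sqrt T) - Real.log ((m : ℝ) + 1))
  calc ((m : ℝ) + 1) ^ (-(1 / 2) : ℝ) * Phi (Real.log (Real.sqrt T) - Real.log ((m : ℝ) + 1))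
      ≤ ((m : ℝ) + 1) ^ (-(1 / 2) : ℝ) *
        Real.exp (K ^ 2 + K * (Real.log (Real.sqrt T) - Real.log ((m : ℝ) + 1))) := by (clear * - h1; gcongr)
    _ = Real.exp (K ^ 2) * (Real.sqrt T) ^ K * ((m : ℝ) + 1) ^ (-(1 / 2) - K) := by
        rw [Real.rpow_sub hm, Real.rpow_def_of_pos hs, Real.rpow_def_of_pos hm K, Real.exp_add,
          mul_sub, Real.exp_sub, mul_comm K (Real.log (Real.sqrt T)),
          mul_comm K (Real.log ((m : ℝ) + 1))]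
        ring

theorem S1_bound {e : ℝ} (he : 0 < e) : ∃ C : ℝ, 0 < C ∧ ∀ (T t : ℝ) (L : ℕ), 1 ≤ T →
    Real.sqrt T * T ^ e ≤ L → ‖S1 (Real.sqrt T) t‖ ≤
      ‖∑ n ∈ Icc 1 L, aS T n * (n : ℂ) ^ (((-t : ℝ) : ℂ) * Complex.I)‖ + C := by
  set K : ℝ := 3 / 2 + 3 / (4 * e) with hKdef
  have hK0 : 0 < 3 / (4 * e) := by positivity
  have hK1 : 3 / 2 ≤ K := by rw [hKdef]; (clear * - hK0; linarith)
  have hKe : e * (K - 3 / 2) = 3 / 4 := by rw [hKdef]; field_simp; ring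
  set Z : ℝ := ∑' m : ℕ, ((m : ℝ) + 1) ^ (-2 : ℝ) with hZ
  have hZ0 : 0 ≤ Z := tsum_nonneg fun m => by positivity
  refine ⟨Real.exp (K ^ 2) * Z + 1, by positivity, ?_⟩
  intro T t L hT hL
  have hT0 : 0 < T := by (clear * - hT; linarith)
  have hs1 : 1 ≤ Real.sqrt T := Real.one_le_sqrt.mpr hT
  have hs0 : 0 < Real.sqrt T := by (clear * - hs1; linarith)
  have hTe : 1 ≤ T ^ e := Real.one_le_rpow hT he.le
  have hL1 : (1 : ℝ) ≤ L := le_trans (by (clear * - hs1 hTe; nlinarith)) hL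
  set f : ℕ → ℂ := fun m => aS T (m + 1) * ((m + 1 : ℕ) : ℂ) ^ (((-t : ℝ) : ℂ) * Complex.I) with hf
  have hS : S1 (Real.sqrt T) t = ∑' m, f m := by
    rw [S1]
    exact tsum_congr fun m => S1_term_eq T t m
  have hb1 : ∀ m, ‖f m‖ ≤ Real.exp (K ^ 2) * (Real.sqrt T) ^ K * ((m : ℝ) + 1) ^ (-2 : ℝ) := by
    intro m
    refine (S1_term_le (K := K) (by (clear * - hKdef hK0; linarith)) hT t m).trans ?_
    apply mul_le_mul_of_nonneg_left _ (by positivity)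
    apply Real.rpow_le_rpow_of_exponent_le
    · have : (0 : ℝ) ≤ m := Nat.cast_nonneg m
      (clear * -; linarith)
    · linarith
  have hsum : Summable (fun m => ‖f m‖) :=
    Summable.of_nonneg_of_le (fun m => norm_nonneg _) hb1 (summable_sq.mul_left _)
  have hsf : Summable f := hsum.of_norm
  rw [hS, ← hsf.sum_add_tsum_nat_add L]
  refine (norm_add_le _ _).trans ?_
  apply add_le_add
  · apply le_of_eq
    congr 1
    rw [Finset.range_eq_Ico, Finset.sum_Ico_add' (fun n : ℕ => aS T n *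
      (n : ℂ) ^ (((-t : ℝ) : ℂ) * Complex.I)) 0 L 1]
    apply Finset.sum_congr _ fun _ _ => rfl
    ext n
    simp only [Finset.mem_Ico, Finset.mem_Icc]
    omega
  · have hb2 : ∀ m, ‖f (m + L)‖ ≤ Real.exp (K ^ 2) * ((m : ℝ) + 1) ^ (-2 : ℝ) := by
      intro m
      refine (S1_term_le (K := K) (by (clear * - hKdef hK0; linarith)) hT t (m + L)).trans ?_
      have hm : (0 : ℝ) < (m : ℝ) + 1 := by positivity
      have hmL : (0 : ℝ) < ((m + L : ℕ) : ℝ) + 1 := by (clear * -; positivity)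
      have e1 : (((m + L : ℕ) : ℝ) + 1) ^ (-(1 / 2) - K) =
          (((m + L : ℕ) : ℝ) + 1) ^ (-(K - 3 / 2)) * (((m + L : ℕ) : ℝ) + 1) ^ (-2 : ℝ) := by
        rw [← Real.rpow_add hmL]; congr 1; ring
      have e2 : (((m + L : ℕ) : ℝ) + 1) ^ (-2 : ℝ) ≤ ((m : ℝ) + 1) ^ (-2 : ℝ) := by
        apply Real.rpow_le_rpow_of_nonpos hm _ (by norm_num)
        push_cast
        (clear * - hL1; linarith)
      have e3 : (((m + L : ℕ) : ℝ) + 1) ^ (-(K - 3 / 2)) ≤ (Real.sqrt T * T ^ e) ^ (-(K - 3 / 2)) := by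
        apply Real.rpow_le_rpow_of_nonpos (by positivity) _ (by (clear * - hKdef hK0; linarith))
        push_cast
        have : (0 : ℝ) ≤ m := Nat.cast_nonneg m
        (clear * - hL; linarith)
      have e4 : (Real.sqrt T) ^ K * (Real.sqrt T * T ^ e) ^ (-(K - 3 / 2)) = 1 := by
        rw [Real.mul_rpow hs0.le (by positivity), ← mul_assoc, ← Real.rpow_add hs0,
          ← Real.rpow_mul hT0.le, show K + -(K - 3 / 2) = 3 / 2 by ring,
          show e * -(K - 3 / 2) = -(3 / 4) by rw [mul_neg, hKe], Real.sqrt_eq_rpow,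
          ← Real.rpow_mul hT0.le, ← Real.rpow_add hT0]
        norm_num
      rw [e1]
      calc Real.exp (K ^ 2) * (Real.sqrt T) ^ K * ((((m + L : ℕ) : ℝ) + 1) ^ (-(K - 3 / 2)) *
            (((m + L : ℕ) : ℝ) + 1) ^ (-2 : ℝ))
          ≤ Real.exp (K ^ 2) * (Real.sqrt T) ^ K * ((Real.sqrt T * T ^ e) ^ (-(K - 3 / 2)) *
            ((m : ℝ) + 1) ^ (-2 : ℝ)) := by (clear * - e3 e2 hT; gcongr)
        _ = Real.exp (K ^ 2) * ((Real.sqrt T) ^ K * (Real.sqrt T * T ^ e) ^ (-(K - 3 / 2))) *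
            ((m : ℝ) + 1) ^ (-2 : ℝ) := by ring
        _ = _ := by rw [e4, mul_one]
    have hs2 : Summable (fun m => ‖f (m + L)‖) :=
      Summable.of_nonneg_of_le (fun m => norm_nonneg _) hb2 (summable_sq.mul_left _)
    calc ‖∑' m, f (m + L)‖ ≤ ∑' m, ‖f (m + L)‖ := norm_tsum_le_tsum_norm hs2
      _ ≤ ∑' m : ℕ, Real.exp (K ^ 2) * ((m : ℝ) + 1) ^ (-2 : ℝ) :=
        hs2.tsum_le_tsum hb2 (summable_sq.mul_left _)
      _ = Real.exp (K ^ 2) * Z := by rw [tsum_mul_left]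
      _ ≤ _ := by (clear * -; linarith)

/-- the tail of the series of `ζ(5/4 - iu)` -/
theorem tail54 : ∃ C : ℝ, 0 < C ∧ ∀ (T u : ℝ) (M L : ℕ), 1 ≤ T → M ≤ L → T ^ 8 ≤ L →
    ‖∑' m : ℕ, ((m : ℂ) + M + 1) ^ ((-(5 / 4) : ℂ) + (u : ℂ) * Complex.I)‖ ≤
      ‖∑ n ∈ Ioc M L, (((n : ℝ) ^ (-(5 / 4) : ℝ) : ℝ) : ℂ) * (n : ℂ) ^ ((u : ℂ) * Complex.I)‖ + C / T := by
  have hs0 : Summable (fun m : ℕ => ((m : ℝ) + 1) ^ (-(9 / 8) : ℝ)) := by
    have h := (Real.summable_nat_rpow (p := -(9 / 8))).mpr (by norm_num)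
    have := (summable_nat_add_iff 1).mpr h
    refine this.congr fun m => ?_
    push_cast
    rfl
  set Z : ℝ := ∑' m : ℕ, ((m : ℝ) + 1) ^ (-(9 / 8) : ℝ) with hZ
  have hZ0 : 0 ≤ Z := tsum_nonneg fun m => by (clear * -; positivity)
  refine ⟨Z + 1, by (clear * -; positivity), ?_⟩
  intro T u M L hT hML hL
  have hT0 : 0 < T := by (clear * - hT; linarith)
  set g : ℕ → ℂ := fun n => (((n : ℝ) ^ (-(5 / 4) : ℝ) : ℝ) : ℂ) *
    (n : ℂ) ^ ((u : ℂ) * Complex.I) with hg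
  have hterm : ∀ m : ℕ, ((m : ℂ) + M + 1) ^ ((-(5 / 4) : ℂ) + (u : ℂ) * Complex.I) =
      g (m + (M + 1)) := by
    intro m
    have hm : ((m + (M + 1) : ℕ) : ℂ) ≠ 0 := by
      have : m + (M + 1) ≠ 0 := by omega
      exact_mod_cast this
    have h2 : ((m : ℂ) + M + 1) = ((m + (M + 1) : ℕ) : ℂ) := by push_cast; ring
    rw [h2, Complex.cpow_add _ _ hm, hg]
    simp only
    congr 1
    rw [Complex.ofReal_cpow (Nat.cast_nonneg _)]
    push_cast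
    rfl
  have hnorm : ∀ n : ℕ, 0 < n → ‖g n‖ = (n : ℝ) ^ (-(5 / 4) : ℝ) := by
    intro n hn
    rw [hg]
    simp only
    rw [norm_mul, Complex.norm_natCast_cpow_of_pos hn]
    have : (((u : ℂ) * Complex.I)).re = 0 := by simp
    rw [this, Real.rpow_zero, mul_one, Complex.norm_real, Real.norm_eq_abs, abs_of_nonneg
      (Real.rpow_nonneg (Nat.cast_nonneg _) _)]
  have hb : ∀ A m : ℕ, ‖g (m + (A + 1))‖ ≤ ((m : ℝ) + 1) ^ (-(9 / 8) : ℝ) := by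
    intro A m
    rw [hnorm _ (by omega)]
    have h1 : (1 : ℝ) ≤ (m : ℝ) + 1 := by
      have : (0 : ℝ) ≤ m := Nat.cast_nonneg m
      (clear * -; linarith)
    calc ((m + (A + 1) : ℕ) : ℝ) ^ (-(5 / 4) : ℝ) ≤ ((m : ℝ) + 1) ^ (-(5 / 4) : ℝ) := by
          apply Real.rpow_le_rpow_of_nonpos (by (clear * -; positivity)) _ (by norm_num)
          push_cast
          have : (0 : ℝ) ≤ A := Nat.cast_nonneg A
          (clear * -; linarith)
      _ ≤ ((m : ℝ) + 1) ^ (-(9 / 8) : ℝ) :=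
          Real.rpow_le_rpow_of_exponent_le h1 (by norm_num)
  have hsum : Summable (fun m => g (m + (M + 1))) :=
    (Summable.of_nonneg_of_le (fun m => norm_nonneg _) (hb M) hs0).of_norm
  rw [tsum_congr hterm, ← hsum.sum_add_tsum_nat_add (L - M)]
  refine (norm_add_le _ _).trans ?_
  apply add_le_add
  · apply le_of_eq
    congr 1
    rw [Finset.range_eq_Ico, Finset.sum_Ico_add' g 0 (L - M) (M + 1)]
    apply Finset.sum_congr _ fun _ _ => rfl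
    ext n
    simp only [Finset.mem_Ico, Finset.mem_Ioc]
    omega
  · have hb2 : ∀ m, ‖g (m + (L - M) + (M + 1))‖ ≤ (1 / T) * ((m : ℝ) + 1) ^ (-(9 / 8) : ℝ) := by
      intro m
      have hidx : m + (L - M) + (M + 1) = m + (L + 1) := by omega
      rw [hidx, hnorm _ (by omega)]
      have hm : (0 : ℝ) < (m : ℝ) + 1 := by (clear * -; positivity)
      have hmL : (0 : ℝ) < ((m + (L + 1) : ℕ) : ℝ) := by (clear * -; positivity)
      have e1 : ((m + (L + 1) : ℕ) : ℝ) ^ (-(5 / 4) : ℝ) =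
          ((m + (L + 1) : ℕ) : ℝ) ^ (-(1 / 8) : ℝ) * ((m + (L + 1) : ℕ) : ℝ) ^ (-(9 / 8) : ℝ) := by
        rw [← Real.rpow_add hmL]; norm_num
      have e2 : ((m + (L + 1) : ℕ) : ℝ) ^ (-(9 / 8) : ℝ) ≤ ((m : ℝ) + 1) ^ (-(9 / 8) : ℝ) := by
        apply Real.rpow_le_rpow_of_nonpos hm _ (by norm_num)
        push_cast
        have : (0 : ℝ) ≤ L := Nat.cast_nonneg L
        (clear * -; linarith)
      have e3 : ((m + (L + 1) : ℕ) : ℝ) ^ (-(1 / 8) : ℝ) ≤ 1 / T := by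
        have h8 : (T ^ 8) ^ (-(1 / 8) : ℝ) = 1 / T := by
          rw [← Real.rpow_natCast, ← Real.rpow_mul hT0.le]
          norm_num
          rw [Real.rpow_neg_one]
        rw [← h8]
        apply Real.rpow_le_rpow_of_nonpos (by positivity) _ (by norm_num)
        push_cast
        have : (0 : ℝ) ≤ m := Nat.cast_nonneg m
        (clear * - hL; linarith)
      rw [e1]
      gcongr
    have hs2 : Summable (fun m => ‖g (m + (L - M) + (M + 1))‖) :=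
      Summable.of_nonneg_of_le (fun m => norm_nonneg _) hb2 (hs0.mul_left _)
    calc ‖∑' m, g (m + (L - M) + (M + 1))‖ ≤ ∑' m, ‖g (m + (L - M) + (M + 1))‖ :=
          norm_tsum_le_tsum_norm hs2
      _ ≤ ∑' m : ℕ, (1 / T) * ((m : ℝ) + 1) ^ (-(9 / 8) : ℝ) :=
        hs2.tsum_le_tsum hb2 (hs0.mul_left _)
      _ = (1 / T) * Z := by rw [tsum_mul_left]
      _ ≤ (Z + 1) / T := by
        rw [one_div, div_eq_inv_mul]
        gcongr
        (clear * -; linarith)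

end Pool.Agent.M17.Helper52.KC
end

/- Helper53.KN.Helper52.KC.FM5 -/
section
/-!
# Project KS, module FM-5: the fourth moment of zeta from the smoothed functional equation
-/

set_option autoImplicit false
open MeasureTheory Filter Topology Finset
open Pool.Agent.M17.Helper26.KC

namespace Pool.Agent.M17.Helper52.KC

theorem gaussT {T : ℝ} (t : ℝ) :
    Real.exp (-(t / T) ^ 2) = Real.exp (-(1 / T ^ 2 * t ^ 2)) := by
  congr 1
  rw [div_pow]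
  ring

theorem bdd_integrable {g : ℝ → ℝ} (hc : Continuous g) (h0 : ∀ t, 0 ≤ g t) {B : ℝ}
    (hB : ∀ t, g t ≤ B) {T : ℝ} (hT : 0 < T) :
    Integrable (fun t => Real.exp (-(t / T) ^ 2) * g t) := by
  have hB0 : 0 ≤ B := (h0 0).trans (hB 0)
  have := poly_gauss_integrable (h := g) hc (K := B) (n := 0) hB0
    (fun v => by rw [abs_of_nonneg (h0 v), pow_zero, mul_one]; exact hB v) (b := 1 / T ^ 2)
    (by positivity)
  refine this.congr (Eventually.of_forall fun t => ?_)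
  simp only
  rw [gaussT, mul_comm]

theorem int_wT {T : ℝ} (hT : 0 < T) : ∫ t : ℝ, Real.exp (-(t / T) ^ 2) = Real.sqrt Real.pi * T := by
  have h : (fun t : ℝ => Real.exp (-(t / T) ^ 2)) = fun t => Real.exp (-(1 / T ^ 2) * t ^ 2) := by
    funext t; rw [gaussT]; congr 1; ring
  rw [h, integral_gaussian, show Real.pi / (1 / T ^ 2) = Real.pi * T ^ 2 by (clear * - hT; field_simp),
    Real.sqrt_mul Real.pi_pos.le, Real.sqrt_sq hT.le]

/-- polynomial growth against the Gaussian of width `T` -/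
theorem growth {s T : ℝ} (hs0 : 0 ≤ s) (hs3 : s ≤ 3) (hT : 1 ≤ T) (u : ℝ) :
    Real.exp (-(u ^ 2 / (2 * T ^ 2))) * (1 + |u|) ^ s ≤
      Real.exp 9 * T ^ s * Real.exp (-(u / (2 * T)) ^ 2) := by
  have hT0 : 0 < T := by (clear * - hT; linarith)
  set x : ℝ := |u| / T with hx
  have hx0 : 0 ≤ x := by positivity
  have h1 : (1 + |u|) ≤ T * (1 + x) := by
    rw [hx, mul_add, mul_div_cancel₀ _ hT0.ne']
    linarith
  have h2 : (1 + |u|) ^ s ≤ T ^ s * (Real.exp 9 * Real.exp (1 / 4 * x ^ 2)) := by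
    calc (1 + |u|) ^ s ≤ (T * (1 + x)) ^ s := Real.rpow_le_rpow (by (clear * -; positivity)) h1 hs0
      _ = T ^ s * (1 + x) ^ s := Real.mul_rpow hT0.le (by positivity)
      _ ≤ T ^ s * (1 + x) ^ (3 : ℝ) := by
          gcongr
          linarith
      _ ≤ T ^ s * (Real.exp 9 * Real.exp (1 / 4 * x ^ 2)) := by
          gcongr
          have h3 := pow_le_gauss 3 (b := 1 / 4) (by norm_num) hx0
          have h4 : (1 + x) ^ (3 : ℝ) = (1 + x) ^ 3 := by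
            rw [← Real.rpow_natCast]; norm_num
          rw [h4]
          refine h3.trans (le_of_eq ?_)
          norm_num
  have h5 : Real.exp (-(u ^ 2 / (2 * T ^ 2))) * Real.exp (1 / 4 * x ^ 2) =
      Real.exp (-(u / (2 * T)) ^ 2) := by
    rw [← Real.exp_add]
    congr 1
    rw [hx, div_pow, sq_abs, div_pow]
    field_simp
    ring
  calc Real.exp (-(u ^ 2 / (2 * T ^ 2))) * (1 + |u|) ^ s
      ≤ Real.exp (-(u ^ 2 / (2 * T ^ 2))) * (T ^ s * (Real.exp 9 * Real.exp (1 / 4 * x ^ 2))) := by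
        gcongr
    _ = Real.exp 9 * T ^ s * (Real.exp (-(u ^ 2 / (2 * T ^ 2))) * Real.exp (1 / 4 * x ^ 2)) := by
        ring
    _ = _ := by rw [h5]

theorem cont_poly (S : Finset ℕ) (a : ℕ → ℂ) (hS : ∀ n ∈ S, 1 ≤ n) :
    Continuous (fun u : ℝ => ∑ n ∈ S, a n * (n : ℂ) ^ ((u : ℂ) * Complex.I)) := by
  apply continuous_finsetSum
  intro n hn
  apply continuous_const.mul
  apply Continuous.const_cpow (by fun_prop)
  left
  have := hS n hn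
  have : n ≠ 0 := by omega
  exact_mod_cast this

theorem bdd_poly (S : Finset ℕ) (a : ℕ → ℂ) (hS : ∀ n ∈ S, 1 ≤ n) (u : ℝ) :
    ‖∑ n ∈ S, a n * (n : ℂ) ^ ((u : ℂ) * Complex.I)‖ ≤ ∑ n ∈ S, ‖a n‖ := by
  refine (norm_sum_le _ _).trans (Finset.sum_le_sum fun n hn => ?_)
  rw [norm_mul, Complex.norm_natCast_cpow_of_pos (by have := hS n hn; omega)]
  have : (((u : ℂ) * Complex.I)).re = 0 := by simp
  rw [this, Real.rpow_zero, mul_one]

theorem pow4_add2 (x y : ℝ) : (x + y) ^ 4 ≤ 8 * (x ^ 4 + y ^ 4) := by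
  have h1 : (x + y) ^ 2 ≤ 2 * (x ^ 2 + y ^ 2) := by nlinarith [sq_nonneg (x - y)]
  have h2 : (x ^ 2 + y ^ 2) ^ 2 ≤ 2 * (x ^ 4 + y ^ 4) := by (clear * -; nlinarith [sq_nonneg (x ^ 2 - y ^ 2)])
  calc (x + y) ^ 4 = ((x + y) ^ 2) ^ 2 := by ring
    _ ≤ (2 * (x ^ 2 + y ^ 2)) ^ 2 := pow_le_pow_left₀ (by positivity) h1 2
    _ = 4 * (x ^ 2 + y ^ 2) ^ 2 := by ring
    _ ≤ _ := by linarith

theorem pow4_add3 (x y z : ℝ) :
    (x + y + z) ^ 4 ≤ 64 * (x ^ 4 + y ^ 4 + z ^ 4) := by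
  have h1 := pow4_add2 (x + y) z
  have h2 := pow4_add2 x y
  have h3 : 0 ≤ z ^ 4 := by positivity
  linarith

theorem ceil_le_two {x : ℝ} (hx : 1 ≤ x) : (⌈x⌉₊ : ℝ) ≤ 2 * x := by
  have := Nat.ceil_lt_add_one (show 0 ≤ x by linarith)
  linarith

/-- numerical bound 1 -/
theorem num1 {e T : ℝ} (he : 0 < e) (he1 : e ≤ 1 / 16) (hT : 1 ≤ T) :
    (T * (⌈Real.sqrt T * T ^ e⌉₊ : ℝ)) ^ e * (T + (⌈Real.sqrt T * T ^ e⌉₊ : ℝ) ^ 2) ≤
      10 * T ^ (1 + 4 * e) := by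
  have hT0 : 0 < T := by linarith
  have hs1 : 1 ≤ Real.sqrt T := Real.one_le_sqrt.mpr hT
  have hTe : 1 ≤ T ^ e := Real.one_le_rpow hT he.le
  have hx1 : 1 ≤ Real.sqrt T * T ^ e := by (clear * - hs1 hTe he he1; nlinarith)
  have hL := ceil_le_two hx1
  set L : ℝ := (⌈Real.sqrt T * T ^ e⌉₊ : ℝ) with hLdef
  have hL0 : 0 ≤ L := Nat.cast_nonneg _
  have e1 : Real.sqrt T * T ^ e = T ^ (1 / 2 + e) := by
    rw [Real.sqrt_eq_rpow, ← Real.rpow_add hT0]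
  rw [e1] at hL
  have h1 : T * L ≤ 2 * T ^ (3 / 2 + e) := by
    calc T * L ≤ T * (2 * T ^ (1 / 2 + e)) := by gcongr
      _ = 2 * (T ^ (1 : ℝ) * T ^ (1 / 2 + e)) := by rw [Real.rpow_one]; ring
      _ = _ := by rw [← Real.rpow_add hT0]; ring_nf
  have h2 : (T * L) ^ e ≤ 2 * T ^ (2 * e) := by
    calc (T * L) ^ e ≤ (2 * T ^ (3 / 2 + e)) ^ e :=
          Real.rpow_le_rpow (by positivity) h1 he.le
      _ = 2 ^ e * T ^ ((3 / 2 + e) * e) := by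
          rw [Real.mul_rpow (by norm_num) (by positivity), ← Real.rpow_mul hT0.le]
      _ ≤ 2 ^ (1 : ℝ) * T ^ (2 * e) := by
          gcongr
          · norm_num
          · (clear * - he he1; linarith)
          · (clear * - he he1; linarith)
      _ = _ := by rw [Real.rpow_one]
  have h3 : T + L ^ 2 ≤ 5 * T ^ (1 + 2 * e) := by
    have h4 : L ^ 2 ≤ 4 * T ^ (1 + 2 * e) := by
      calc L ^ 2 ≤ (2 * T ^ (1 / 2 + e)) ^ 2 := pow_le_pow_left₀ hL0 hL 2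
        _ = 4 * (T ^ (1 / 2 + e)) ^ (2 : ℝ) := by
            rw [mul_pow, ← Real.rpow_natCast (T ^ (1 / 2 + e)) 2]; norm_num
        _ = _ := by rw [← Real.rpow_mul hT0.le]; ring_nf
    have h5 : T ≤ T ^ (1 + 2 * e) := by
      calc T = T ^ (1 : ℝ) := (Real.rpow_one T).symm
        _ ≤ _ := Real.rpow_le_rpow_of_exponent_le hT (by (clear * - he; linarith))
    (clear * - h4 h5; linarith)
  calc (T * L) ^ e * (T + L ^ 2) ≤ (2 * T ^ (2 * e)) * (5 * T ^ (1 + 2 * e)) := by (clear * - h2 h3 hT; gcongr)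
    _ = 10 * (T ^ (2 * e) * T ^ (1 + 2 * e)) := by ring
    _ = _ := by rw [← Real.rpow_add hT0]; ring_nf

/-- numerical bound 2 -/
theorem num2 {e T : ℝ} (he : 0 < e) (he1 : e ≤ 1 / 16) (hT : 1 ≤ T) :
    T ^ (4 * e) * ((2 * T * (⌈Real.sqrt T⌉₊ : ℝ)) ^ e * (2 * T + (⌈Real.sqrt T⌉₊ : ℝ) ^ 2)) ≤
      24 * T ^ (1 + 6 * e) := by
  have hT0 : 0 < T := by linarith
  have hs1 : 1 ≤ Real.sqrt T := Real.one_le_sqrt.mpr hT
  have hM := ceil_le_two hs1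
  set M : ℝ := (⌈Real.sqrt T⌉₊ : ℝ) with hMdef
  have hM0 : 0 ≤ M := Nat.cast_nonneg _
  have hsT : Real.sqrt T ≤ T := by
    rw [Real.sqrt_le_left (by linarith)]; (clear * - hT; nlinarith)
  have h2 : (2 * T * M) ^ e ≤ 4 * T ^ (2 * e) := by
    calc (2 * T * M) ^ e ≤ (4 * T ^ 2) ^ e := by
          apply Real.rpow_le_rpow (by (clear * - hT; positivity)) _ he.le
          (clear * - hM hsT he he1 hT; nlinarith)
      _ = 4 ^ e * T ^ (2 * e) := by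
          rw [Real.mul_rpow (by norm_num) (by positivity), ← Real.rpow_natCast T 2,
            ← Real.rpow_mul hT0.le]
          norm_num
      _ ≤ 4 ^ (1 : ℝ) * T ^ (2 * e) := by
          gcongr
          · norm_num
          · (clear * - he he1; linarith)
      _ = _ := by rw [Real.rpow_one]
  have h3 : 2 * T + M ^ 2 ≤ 6 * T := by
    have h4 : M ^ 2 ≤ 4 * T := by
      calc M ^ 2 ≤ (2 * Real.sqrt T) ^ 2 := pow_le_pow_left₀ hM0 hM 2
        _ = 4 * T := by rw [mul_pow, Real.sq_sqrt hT0.le]; norm_num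
    (clear * - h4; linarith)
  calc T ^ (4 * e) * ((2 * T * M) ^ e * (2 * T + M ^ 2))
      ≤ T ^ (4 * e) * ((4 * T ^ (2 * e)) * (6 * T)) := by gcongr
    _ = 24 * (T ^ (4 * e) * T ^ (2 * e) * T ^ (1 : ℝ)) := by rw [Real.rpow_one]; ring
    _ = _ := by rw [← Real.rpow_add hT0, ← Real.rpow_add hT0]; ring_nf

/-- numerical bound 3 -/
theorem num3 {e T : ℝ} (he : 0 < e) (he1 : e ≤ 1 / 16) (hT : 1 ≤ T) :
    T ^ (3 / 2 : ℝ) * ((2 * T * (⌈T ^ 8⌉₊ : ℝ)) ^ e *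
      (2 * T / (⌈Real.sqrt T⌉₊ : ℝ) ^ 3 + 1 / (⌈Real.sqrt T⌉₊ : ℝ))) ≤
      12 * T ^ (1 + 9 * e) := by
  have hT0 : 0 < T := by (clear * - he he1 hT; linarith)
  have hs1 : 1 ≤ Real.sqrt T := Real.one_le_sqrt.mpr hT
  have hs0 : 0 < Real.sqrt T := by (clear * - he he1 hs1; linarith)
  have hM : Real.sqrt T ≤ (⌈Real.sqrt T⌉₊ : ℝ) := Nat.le_ceil _
  set M : ℝ := (⌈Real.sqrt T⌉₊ : ℝ) with hMdef
  have hM0 : 0 < M := by linarith
  have hL := ceil_le_two (one_le_pow₀ hT (n := 8))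
  set L : ℝ := (⌈T ^ 8⌉₊ : ℝ) with hLdef
  have hL0 : 0 ≤ L := Nat.cast_nonneg _
  have h2 : (2 * T * L) ^ e ≤ 4 * T ^ (9 * e) := by
    calc (2 * T * L) ^ e ≤ (4 * T ^ 9) ^ e := by
          apply Real.rpow_le_rpow (by positivity) _ he.le
          calc 2 * T * L ≤ 2 * T * (2 * T ^ 8) := by gcongr
            _ = 4 * T ^ 9 := by ring
      _ = 4 ^ e * T ^ (9 * e) := by
          rw [Real.mul_rpow (by norm_num) (by positivity), ← Real.rpow_natCast T 9,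
            ← Real.rpow_mul hT0.le]
          norm_num
      _ ≤ 4 ^ (1 : ℝ) * T ^ (9 * e) := by
          gcongr
          · norm_num
          · linarith
      _ = _ := by rw [Real.rpow_one]
  have h3 : 2 * T / M ^ 3 + 1 / M ≤ 3 * T ^ (-(1 / 2) : ℝ) := by
    have a1 : T ^ (-(1 / 2) : ℝ) = 1 / Real.sqrt T := by
      rw [Real.rpow_neg hT0.le, Real.sqrt_eq_rpow, one_div]
      norm_num
    have a2 : 1 / M ≤ 1 / Real.sqrt T := one_div_le_one_div_of_le hs0 hM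
    have a3 : 2 * T / M ^ 3 ≤ 2 * (1 / Real.sqrt T) := by
      calc 2 * T / M ^ 3 ≤ 2 * T / (Real.sqrt T) ^ 3 := by gcongr
        _ = 2 * (1 / Real.sqrt T) := by
            have : (Real.sqrt T) ^ 3 = T * Real.sqrt T := by
              rw [show (3 : ℕ) = 2 + 1 from rfl, pow_succ, Real.sq_sqrt hT0.le]
            rw [this]
            field_simp
    rw [a1]
    (clear * - a2 a3; linarith)
  calc T ^ (3 / 2 : ℝ) * ((2 * T * L) ^ e * (2 * T / M ^ 3 + 1 / M))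
      ≤ T ^ (3 / 2 : ℝ) * ((4 * T ^ (9 * e)) * (3 * T ^ (-(1 / 2) : ℝ))) := by gcongr
    _ = 12 * (T ^ (3 / 2 : ℝ) * T ^ (9 * e) * T ^ (-(1 / 2) : ℝ)) := by ring
    _ = _ := by rw [← Real.rpow_add hT0, ← Real.rpow_add hT0]; ring_nf

/-- coefficients of the short dual polynomial -/
noncomputable def coA (e : ℝ) (n : ℕ) : ℂ := (((n : ℝ) ^ (-(1 / 2 + e) : ℝ) : ℝ) : ℂ)

/-- coefficients of the long dual polynomial -/
noncomputable def coB (n : ℕ) : ℂ := (((n : ℝ) ^ (-(5 / 4) : ℝ) : ℝ) : ℂ)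

noncomputable def P0 (e T u : ℝ) : ℂ :=
  ∑ n ∈ Icc 1 ⌈Real.sqrt T * T ^ e⌉₊, aS T n * (n : ℂ) ^ ((u : ℂ) * Complex.I)

noncomputable def P1 (e T u : ℝ) : ℂ :=
  ∑ n ∈ Icc 1 ⌈Real.sqrt T⌉₊, coA e n * (n : ℂ) ^ ((u : ℂ) * Complex.I)

noncomputable def P2 (T u : ℝ) : ℂ :=
  ∑ n ∈ Ioc ⌈Real.sqrt T⌉₊ ⌈T ^ 8⌉₊, coB n * (n : ℂ) ^ ((u : ℂ) * Complex.I)

noncomputable def F1 (Cz e T u : ℝ) : ℝ :=
  Cz * Real.sqrt T ^ (-e) * ((1 + |u|) ^ e * ‖P1 e T u‖)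

noncomputable def F2 (Cz Ct T u : ℝ) : ℝ :=
  Cz * Real.sqrt T ^ (-(3 / 4) : ℝ) * ((1 + |u|) ^ (3 / 4 : ℝ) * (‖P2 T u‖ + Ct / T))

theorem P0_cont (e T : ℝ) : Continuous (P0 e T) :=
  cont_poly _ _ fun _ hn => (Finset.mem_Icc.mp hn).1

theorem P1_cont (e T : ℝ) : Continuous (P1 e T) :=
  cont_poly _ _ fun _ hn => (Finset.mem_Icc.mp hn).1

theorem P2_cont (T : ℝ) : Continuous (P2 T) :=
  cont_poly _ _ fun n hn => by have := (Finset.mem_Ioc.mp hn).1; omega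

theorem P0_bdd (e T : ℝ) : ∃ B : ℝ, 0 ≤ B ∧ ∀ u, ‖P0 e T u‖ ≤ B :=
  ⟨_, Finset.sum_nonneg fun _ _ => norm_nonneg _,
    bdd_poly _ _ fun _ hn => (Finset.mem_Icc.mp hn).1⟩

theorem P1_bdd (e T : ℝ) : ∃ B : ℝ, 0 ≤ B ∧ ∀ u, ‖P1 e T u‖ ≤ B :=
  ⟨_, Finset.sum_nonneg fun _ _ => norm_nonneg _,
    bdd_poly _ _ fun _ hn => (Finset.mem_Icc.mp hn).1⟩

theorem P2_bdd (T : ℝ) : ∃ B : ℝ, 0 ≤ B ∧ ∀ u, ‖P2 T u‖ ≤ B :=
  ⟨_, Finset.sum_nonneg fun _ _ => norm_nonneg _,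
    bdd_poly _ _ fun n hn => by have := (Finset.mem_Ioc.mp hn).1; omega⟩

theorem rpow_abs_cont {s : ℝ} : Continuous (fun u : ℝ => (1 + |u|) ^ s) :=
  Continuous.rpow_const (by fun_prop) fun u => Or.inl (by (clear * -; positivity))

theorem rpow_abs_le {s : ℝ} (hs : s ≤ 1) (u : ℝ) : (1 + |u|) ^ s ≤ 1 + |u| := by
  calc (1 + |u|) ^ s ≤ (1 + |u|) ^ (1 : ℝ) :=
        Real.rpow_le_rpow_of_exponent_le (by linarith [abs_nonneg u]) hs
    _ = _ := Real.rpow_one _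

theorem F1_cont (Cz e T : ℝ) : Continuous (F1 Cz e T) :=
  continuous_const.mul (rpow_abs_cont.mul (P1_cont e T).norm)

theorem F2_cont (Cz Ct T : ℝ) : Continuous (F2 Cz Ct T) :=
  continuous_const.mul (rpow_abs_cont.mul ((P2_cont T).norm.add continuous_const))

theorem F1_nonneg {Cz : ℝ} (hC : 0 ≤ Cz) (e T u : ℝ) : 0 ≤ F1 Cz e T u := by
  unfold F1; positivity

theorem F2_nonneg {Cz Ct T : ℝ} (hC : 0 ≤ Cz) (hCt : 0 ≤ Ct) (hT : 0 ≤ T) (u : ℝ) :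
    0 ≤ F2 Cz Ct T u := by
  unfold F2; (clear * - hC hCt hT; positivity)

theorem F1_le {Cz e : ℝ} (hC : 0 ≤ Cz) (he : e ≤ 1) (T : ℝ) :
    ∃ K : ℝ, 0 ≤ K ∧ ∀ u, F1 Cz e T u ≤ K * (1 + |u|) := by
  obtain ⟨B, hB0, hB⟩ := P1_bdd e T
  refine ⟨Cz * Real.sqrt T ^ (-e) * B, by positivity, fun u => ?_⟩
  unfold F1
  have h := mul_le_mul (rpow_abs_le he u) (hB u) (norm_nonneg _) (by positivity)
  calc Cz * Real.sqrt T ^ (-e) * ((1 + |u|) ^ e * ‖P1 e T u‖)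
      ≤ Cz * Real.sqrt T ^ (-e) * ((1 + |u|) * B) := mul_le_mul_of_nonneg_left h (by positivity)
    _ = _ := by ring

theorem F2_le {Cz Ct T : ℝ} (hC : 0 ≤ Cz) (hCt : 0 ≤ Ct) (hT : 0 ≤ T) :
    ∃ K : ℝ, 0 ≤ K ∧ ∀ u, F2 Cz Ct T u ≤ K * (1 + |u|) := by
  obtain ⟨B, hB0, hB⟩ := P2_bdd T
  refine ⟨Cz * Real.sqrt T ^ (-(3 / 4) : ℝ) * (B + Ct / T), by (clear * - hC hB0 hCt hT; positivity), fun u => ?_⟩
  unfold F2
  have h : (1 + |u|) ^ (3 / 4 : ℝ) * (‖P2 T u‖ + Ct / T) ≤ (1 + |u|) * (B + Ct / T) :=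
    mul_le_mul (rpow_abs_le (by norm_num) u) (by linarith [hB u]) (by (clear * - hCt hT; positivity))
      (by positivity)
  calc Cz * Real.sqrt T ^ (-(3 / 4) : ℝ) * ((1 + |u|) ^ (3 / 4 : ℝ) * (‖P2 T u‖ + Ct / T))
      ≤ Cz * Real.sqrt T ^ (-(3 / 4) : ℝ) * ((1 + |u|) * (B + Ct / T)) :=
        mul_le_mul_of_nonneg_left h (by positivity)
    _ = _ := by ring

theorem P1_eq (e T u : ℝ) :
    ∑ m ∈ Icc 1 ⌈Real.sqrt T⌉₊, (m : ℂ) ^ ((-(1 / 2 + e : ℝ) : ℂ) + (u : ℂ) * Complex.I) =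
      P1 e T u := by
  unfold P1 coA
  refine Finset.sum_congr rfl fun m hm => ?_
  have hm1 := (Finset.mem_Icc.mp hm).1
  have hm0 : (m : ℂ) ≠ 0 := by
    have : m ≠ 0 := by omega
    exact_mod_cast this
  rw [Complex.cpow_add _ _ hm0, Complex.ofReal_cpow (Nat.cast_nonneg m)]
  congr 2
  push_cast
  ring

theorem pointwise (hA : FMafe) {e : ℝ} (he : 0 < e) (he1 : e ≤ 1 / 16) :
    ∃ Cs Cz Ct : ℝ, 0 < Cs ∧ 0 < Cz ∧ 0 < Ct ∧ ∀ T t : ℝ, 1 ≤ T →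
      ‖riemannZeta (1 / 2 + (t : ℂ) * Complex.I)‖ ≤
        (‖P0 e T (-t)‖ + Cs + Cz * Real.sqrt (Real.sqrt T) * Real.exp (-t ^ 2)) +
        ∫ v : ℝ, (F1 Cz e T (t + v) + F2 Cz Ct T (t + v)) * Real.exp (-(1 / 2 * v ^ 2)) := by
  obtain ⟨Cs, hCs, hs⟩ := S1_bound he
  obtain ⟨Cz, hCz, hz⟩ := hA e he (by linarith)
  obtain ⟨Ct, hCt, ht⟩ := tail54
  refine ⟨Cs, Cz, Ct, hCs, hCz, hCt, fun T t hT => ?_⟩
  have hT0 : 0 < T := by (clear * - he he1 hT; linarith)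
  have hs1 : 1 ≤ Real.sqrt T := Real.one_le_sqrt.mpr hT
  have hM1 : 1 ≤ ⌈Real.sqrt T⌉₊ := by
    rw [Nat.one_le_ceil_iff]; linarith
  have h := hz (Real.sqrt T) ⌈Real.sqrt T⌉₊ t hs1 hM1
  have h0 := hs T t ⌈Real.sqrt T * T ^ e⌉₊ hT (Nat.le_ceil _)
  have h0' : ‖S1 (Real.sqrt T) t‖ ≤ ‖P0 e T (-t)‖ + Cs := h0
  obtain ⟨K1, hK1, hF1⟩ := F1_le (Cz := Cz) (e := e) hCz.le (by (clear * - he he1; linarith)) T
  obtain ⟨K2, hK2, hF2⟩ := F2_le (Cz := Cz) (Ct := Ct) (T := T) hCz.le hCt.le hT0.le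
  have i1 : Integrable (fun v : ℝ => F1 Cz e T (t + v) * Real.exp (-(1 / 2 * v ^ 2))) := by
    have := shift_integrable (F1_cont Cz e T) hK1 (F1_nonneg hCz.le e T) hF1 t 1
      (b := 1 / 2) (by norm_num)
    simpa using this
  have i2 : Integrable (fun v : ℝ => F2 Cz Ct T (t + v) * Real.exp (-(1 / 2 * v ^ 2))) := by
    have := shift_integrable (F2_cont Cz Ct T) hK2 (F2_nonneg hCz.le hCt.le hT0.le) hF2 t 1
      (b := 1 / 2) (by norm_num)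
    simpa using this
  have e0 : ∀ v : ℝ, Real.exp (-v ^ 2 / 2) = Real.exp (-(1 / 2 * v ^ 2)) := fun v => by
    congr 1; ring
  have h1 : Cz * Real.sqrt T ^ (-e) * (∫ v : ℝ, (1 + |t + v|) ^ e *
      ‖∑ m ∈ Icc 1 ⌈Real.sqrt T⌉₊, (m : ℂ) ^ ((-(1 / 2 + e : ℝ) : ℂ) +
      ((t + v : ℝ) : ℂ) * Complex.I)‖ * Real.exp (-v ^ 2 / 2)) =
      ∫ v : ℝ, F1 Cz e T (t + v) * Real.exp (-(1 / 2 * v ^ 2)) := by
    rw [← integral_const_mul]
    congr 1
    funext v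
    rw [P1_eq, e0, F1]
    ring
  have h2 : Cz * Real.sqrt T ^ (-(3 / 4) : ℝ) * (∫ v : ℝ, (1 + |t + v|) ^ (3 / 4 : ℝ) *
      ‖∑' m : ℕ, ((m : ℂ) + ⌈Real.sqrt T⌉₊ + 1) ^ ((-(5 / 4) : ℂ) +
      ((t + v : ℝ) : ℂ) * Complex.I)‖ * Real.exp (-v ^ 2 / 2)) ≤
      ∫ v : ℝ, F2 Cz Ct T (t + v) * Real.exp (-(1 / 2 * v ^ 2)) := by
    rw [← integral_const_mul]
    refine integral_mono_of_nonneg (Eventually.of_forall fun v => by
      simp only [Pi.zero_apply]; (clear * - hCz hT; positivity)) i2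
      (Eventually.of_forall fun v => ?_)
    simp only
    have hsT : Real.sqrt T ≤ T ^ 8 := by
      have a1 : Real.sqrt T ≤ T := by
        rw [Real.sqrt_le_left (by (clear * - he he1 hT; linarith))]; (clear * - hT; nlinarith)
      exact a1.trans (le_self_pow₀ hT (by norm_num))
    have h3 := ht T (t + v) ⌈Real.sqrt T⌉₊ ⌈T ^ 8⌉₊ hT (Nat.ceil_le_ceil hsT) (Nat.le_ceil _)
    have h4 : ‖∑' m : ℕ, ((m : ℂ) + ⌈Real.sqrt T⌉₊ + 1) ^ ((-(5 / 4) : ℂ) +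
        ((t + v : ℝ) : ℂ) * Complex.I)‖ ≤ ‖P2 T (t + v)‖ + Ct / T := h3
    rw [e0, F2]
    calc _ = Cz * Real.sqrt T ^ (-(3 / 4) : ℝ) * ((1 + |t + v|) ^ (3 / 4 : ℝ) *
        ‖∑' m : ℕ, ((m : ℂ) + ⌈Real.sqrt T⌉₊ + 1) ^ ((-(5 / 4) : ℂ) +
        ((t + v : ℝ) : ℂ) * Complex.I)‖) * Real.exp (-(1 / 2 * v ^ 2)) := by ring
      _ ≤ _ := by (clear * - h4 hCz hT; gcongr)
  have h5 : ∫ v : ℝ, (F1 Cz e T (t + v) + F2 Cz Ct T (t + v)) * Real.exp (-(1 / 2 * v ^ 2)) =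
      (∫ v : ℝ, F1 Cz e T (t + v) * Real.exp (-(1 / 2 * v ^ 2))) +
      ∫ v : ℝ, F2 Cz Ct T (t + v) * Real.exp (-(1 / 2 * v ^ 2)) := by
    rw [← integral_add i1 i2]
    congr 1
    funext v
    ring
  rw [h5]
  (clear * - h h0' h1 h2; linarith)

/-- weighted integrals of powers of the polynomials, in `ENNReal` -/
theorem lint_poly {P : ℝ → ℂ} (hc : Continuous P) {B : ℝ} (hB : ∀ u, ‖P u‖ ≤ B) {T c : ℝ}
    (hT : 0 < T) (hI : ∫ t : ℝ, Real.exp (-(t / T) ^ 2) * ‖P t‖ ^ 4 ≤ c) :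
    ∫⁻ t : ℝ, ENNReal.ofReal (Real.exp (-(t / T) ^ 2) * ‖P t‖ ^ 4) ≤ ENNReal.ofReal c := by
  have hint : Integrable (fun t => Real.exp (-(t / T) ^ 2) * ‖P t‖ ^ 4) :=
    bdd_integrable (g := fun t => ‖P t‖ ^ 4) (hc.norm.pow 4) (fun t => by positivity)
      (fun t => pow_le_pow_left₀ (norm_nonneg _) (hB t) 4) hT
  rw [← ofReal_integral_eq_lintegral_ofReal hint
    (Eventually.of_forall fun t => by simp only [Pi.zero_apply]; positivity)]
  exact ENNReal.ofReal_le_ofReal hI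

theorem lint_w {T : ℝ} (hT : 0 < T) :
    ∫⁻ t : ℝ, ENNReal.ofReal (Real.exp (-(t / T) ^ 2)) = ENNReal.ofReal (Real.sqrt Real.pi * T) := by
  rw [← int_wT hT]
  have hint : Integrable (fun t : ℝ => Real.exp (-(t / T) ^ 2)) := by
    have := bdd_integrable (g := fun _ => 1) continuous_const (fun t => by norm_num)
      (B := 1) (fun t => le_refl _) hT
    simpa using this
  rw [← ofReal_integral_eq_lintegral_ofReal hint
    (Eventually.of_forall fun t => by simp only [Pi.zero_apply]; positivity)]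

theorem one_le_pow_T {e T : ℝ} (he : 0 < e) (hT : 1 ≤ T) : T ≤ T ^ (1 + 9 * e) := by
  calc T = T ^ (1 : ℝ) := (Real.rpow_one T).symm
    _ ≤ _ := Real.rpow_le_rpow_of_exponent_le hT (by (clear * - he; linarith))

theorem F1_pow {Cz e T : ℝ} (he : 0 < e) (he1 : e ≤ 1 / 16) (hT : 1 ≤ T) (u : ℝ) :
    Real.exp (-(u ^ 2 / (2 * T ^ 2))) * F1 Cz e T u ^ 4 ≤
      Cz ^ 4 * Real.exp 9 * T ^ (4 * e) *
        (Real.exp (-(u / (2 * T)) ^ 2) * ‖P1 e T u‖ ^ 4) := by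
  have hT0 : 0 < T := by (clear * - he he1 hT; linarith)
  have hs1 : 1 ≤ Real.sqrt T := Real.one_le_sqrt.mpr hT
  have hg := growth (s := 4 * e) (by positivity) (by (clear * - he he1; linarith)) hT u
  have h1 : Real.sqrt T ^ (-e) ≤ 1 := Real.rpow_le_one_of_one_le_of_nonpos hs1 (by (clear * - he; linarith))
  have h2 : (Real.sqrt T ^ (-e)) ^ 4 ≤ 1 := pow_le_one₀ (by positivity) h1
  have h3 : ((1 + |u|) ^ e) ^ 4 = (1 + |u|) ^ (4 * e) := by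
    rw [← Real.rpow_natCast, ← Real.rpow_mul (by positivity)]
    congr 1
    push_cast
    ring
  unfold F1
  calc Real.exp (-(u ^ 2 / (2 * T ^ 2))) *
        (Cz * Real.sqrt T ^ (-e) * ((1 + |u|) ^ e * ‖P1 e T u‖)) ^ 4
      = Cz ^ 4 * (Real.sqrt T ^ (-e)) ^ 4 *
        ((Real.exp (-(u ^ 2 / (2 * T ^ 2))) * ((1 + |u|) ^ e) ^ 4) * ‖P1 e T u‖ ^ 4) := by ring
    _ ≤ Cz ^ 4 * 1 *
        ((Real.exp 9 * T ^ (4 * e) * Real.exp (-(u / (2 * T)) ^ 2)) * ‖P1 e T u‖ ^ 4) := by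
        rw [h3]
        (clear * - h2 hg; gcongr)
    _ = _ := by ring

theorem F2_pow {Cz Ct T : ℝ} (hT : 1 ≤ T) (u : ℝ) :
    Real.exp (-(u ^ 2 / (2 * T ^ 2))) * F2 Cz Ct T u ^ 4 ≤
      8 * Cz ^ 4 * Real.exp 9 * T ^ (3 / 2 : ℝ) *
        (Real.exp (-(u / (2 * T)) ^ 2) * ‖P2 T u‖ ^ 4) +
      8 * Cz ^ 4 * Real.exp 9 * T ^ (3 / 2 : ℝ) * (Ct / T) ^ 4 * Real.exp (-(u / (2 * T)) ^ 2) := by
  have hT0 : 0 < T := by linarith
  have hs1 : 1 ≤ Real.sqrt T := Real.one_le_sqrt.mpr hT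
  have hg := growth (s := 3) (by norm_num) (le_refl _) hT u
  have h2 : (Real.sqrt T ^ (-(3 / 4) : ℝ)) ^ 4 = T ^ (-(3 / 2) : ℝ) := by
    rw [Real.sqrt_eq_rpow, ← Real.rpow_mul hT0.le, ← Real.rpow_natCast, ← Real.rpow_mul hT0.le]
    norm_num
  have h3 : ((1 + |u|) ^ (3 / 4 : ℝ)) ^ 4 = (1 + |u|) ^ (3 : ℝ) := by
    rw [← Real.rpow_natCast, ← Real.rpow_mul (by (clear * -; positivity))]
    norm_num
  have h4 : T ^ (-(3 / 2) : ℝ) * T ^ (3 : ℝ) = T ^ (3 / 2 : ℝ) := by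
    rw [← Real.rpow_add hT0]; norm_num
  have h5 := pow4_add2 ‖P2 T u‖ (Ct / T)
  unfold F2
  calc Real.exp (-(u ^ 2 / (2 * T ^ 2))) *
        (Cz * Real.sqrt T ^ (-(3 / 4) : ℝ) * ((1 + |u|) ^ (3 / 4 : ℝ) * (‖P2 T u‖ + Ct / T))) ^ 4
      = Cz ^ 4 * (Real.sqrt T ^ (-(3 / 4) : ℝ)) ^ 4 *
        ((Real.exp (-(u ^ 2 / (2 * T ^ 2))) * ((1 + |u|) ^ (3 / 4 : ℝ)) ^ 4) *
          (‖P2 T u‖ + Ct / T) ^ 4) := by ring
    _ ≤ Cz ^ 4 * T ^ (-(3 / 2) : ℝ) *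
        ((Real.exp 9 * T ^ (3 : ℝ) * Real.exp (-(u / (2 * T)) ^ 2)) *
          (8 * (‖P2 T u‖ ^ 4 + (Ct / T) ^ 4))) := by
        rw [h3, h2]
        (clear * - hg h5 hT; gcongr)
    _ = 8 * Cz ^ 4 * Real.exp 9 * (T ^ (-(3 / 2) : ℝ) * T ^ (3 : ℝ)) *
        (Real.exp (-(u / (2 * T)) ^ 2) * ‖P2 T u‖ ^ 4) +
        8 * Cz ^ 4 * Real.exp 9 * (T ^ (-(3 / 2) : ℝ) * T ^ (3 : ℝ)) * (Ct / T) ^ 4 *
          Real.exp (-(u / (2 * T)) ^ 2) := by ring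
    _ = _ := by rw [h4]

theorem lint_smul {c : ℝ} (hc : 0 ≤ c) (f : ℝ → ℝ) :
    ∫⁻ t, ENNReal.ofReal (c * f t) = ENNReal.ofReal c * ∫⁻ t, ENNReal.ofReal (f t) := by
  simp_rw [ENNReal.ofReal_mul hc]
  exact lintegral_const_mul' _ _ ENNReal.ofReal_ne_top

theorem lint_smul_le {c b : ℝ} (hc : 0 ≤ c) {f : ℝ → ℝ}
    (h : ∫⁻ t, ENNReal.ofReal (f t) ≤ ENNReal.ofReal b) :
    ∫⁻ t, ENNReal.ofReal (c * f t) ≤ ENNReal.ofReal (c * b) := by
  rw [lint_smul hc, ENNReal.ofReal_mul hc]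
  gcongr

theorem norm_coA (e : ℝ) (n : ℕ) : ‖coA e n‖ = (n : ℝ) ^ (-(1 / 2 + e) : ℝ) := by
  unfold coA
  rw [Complex.norm_real, Real.norm_eq_abs, abs_of_nonneg (by positivity)]

theorem norm_coB (n : ℕ) : ‖coB n‖ = (n : ℝ) ^ (-(5 / 4) : ℝ) := by
  unfold coB
  rw [Complex.norm_real, Real.norm_eq_abs, abs_of_nonneg (by positivity)]

theorem lint_P0 {Ca e : ℝ} (hCa : 0 < Ca) (he : 0 < e) (he1 : e ≤ 1 / 16)
    (ha : ∀ (L : ℕ) (a : ℕ → ℂ) (T : ℝ), 1 ≤ T → 1 ≤ L →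
      (∀ n : ℕ, 1 ≤ n → ‖a n‖ ≤ (n : ℝ) ^ (-(1 / 2) : ℝ)) →
      ∫ t : ℝ, Real.exp (-(t / T) ^ 2) * ‖∑ n ∈ Icc 1 L, a n * (n : ℂ) ^ ((t : ℂ) * Complex.I)‖ ^ 4 ≤
      Ca * (T * L) ^ e * (T + (L : ℝ) ^ 2)) {T : ℝ} (hT : 1 ≤ T) :
    ∫⁻ t : ℝ, ENNReal.ofReal (Real.exp (-(t / T) ^ 2) * ‖P0 e T (-t)‖ ^ 4) ≤
      ENNReal.ofReal (Ca * (10 * T ^ (1 + 9 * e))) := by
  have hT0 : 0 < T := by (clear * - he he1 hT; linarith)
  obtain ⟨B, hB0, hB⟩ := P0_bdd e T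
  refine lint_poly (P := fun t => P0 e T (-t)) ((P0_cont e T).comp continuous_neg)
    (fun u => hB (-u)) hT0 ?_
  have h1 : ∫ t : ℝ, Real.exp (-(t / T) ^ 2) * ‖P0 e T (-t)‖ ^ 4 =
      ∫ t : ℝ, Real.exp (-(t / T) ^ 2) * ‖P0 e T t‖ ^ 4 := by
    rw [← integral_neg_eq_self (fun t : ℝ => Real.exp (-(t / T) ^ 2) * ‖P0 e T t‖ ^ 4)]
    congr 1
    funext t
    rw [neg_div, neg_sq]
  rw [h1]
  have hTe : 1 ≤ T ^ e := Real.one_le_rpow hT he.le
  have hs1 : 1 ≤ Real.sqrt T := Real.one_le_sqrt.mpr hT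
  have hL : 1 ≤ ⌈Real.sqrt T * T ^ e⌉₊ := by
    rw [Nat.one_le_ceil_iff]; positivity
  refine (ha _ (aS T) T hT hL (fun n _ => norm_aS_le T n)).trans ?_
  have h2 := num1 he he1 hT
  have h3 : T ^ (1 + 4 * e) ≤ T ^ (1 + 9 * e) :=
    Real.rpow_le_rpow_of_exponent_le hT (by (clear * - he; linarith))
  calc _ = Ca * ((T * (⌈Real.sqrt T * T ^ e⌉₊ : ℝ)) ^ e *
        (T + (⌈Real.sqrt T * T ^ e⌉₊ : ℝ) ^ 2)) := by ring
    _ ≤ Ca * (10 * T ^ (1 + 9 * e)) := by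
        apply mul_le_mul_of_nonneg_left _ hCa.le
        (clear * - h2 h3; linarith)

theorem lint_P1 {Ca e : ℝ} (he : 0 < e)
    (ha : ∀ (L : ℕ) (a : ℕ → ℂ) (T : ℝ), 1 ≤ T → 1 ≤ L →
      (∀ n : ℕ, 1 ≤ n → ‖a n‖ ≤ (n : ℝ) ^ (-(1 / 2) : ℝ)) →
      ∫ t : ℝ, Real.exp (-(t / T) ^ 2) * ‖∑ n ∈ Icc 1 L, a n * (n : ℂ) ^ ((t : ℂ) * Complex.I)‖ ^ 4 ≤
      Ca * (T * L) ^ e * (T + (L : ℝ) ^ 2)) {T : ℝ} (hT : 1 ≤ T) :
    ∫⁻ t : ℝ, ENNReal.ofReal (Real.exp (-(t / (2 * T)) ^ 2) * ‖P1 e T t‖ ^ 4) ≤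
      ENNReal.ofReal (Ca * ((2 * T * (⌈Real.sqrt T⌉₊ : ℝ)) ^ e *
        (2 * T + (⌈Real.sqrt T⌉₊ : ℝ) ^ 2))) := by
  have hT0 : 0 < T := by linarith
  obtain ⟨B, hB0, hB⟩ := P1_bdd e T
  refine lint_poly (P1_cont e T) hB (by positivity) ?_
  have hs1 : 1 ≤ Real.sqrt T := Real.one_le_sqrt.mpr hT
  have hL : 1 ≤ ⌈Real.sqrt T⌉₊ := by
    rw [Nat.one_le_ceil_iff]; linarith
  refine (ha _ (coA e) (2 * T) (by linarith) hL (fun n hn => ?_)).trans (le_of_eq (by ring))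
  rw [norm_coA]
  exact Real.rpow_le_rpow_of_exponent_le (by exact_mod_cast hn) (by (clear * - he; linarith))

theorem lint_P2 {Cb e : ℝ} 
    (hb : ∀ (M L : ℕ) (a : ℕ → ℂ) (T : ℝ), 1 ≤ T → 1 ≤ M → M ≤ L →
      (∀ n : ℕ, 1 ≤ n → ‖a n‖ ≤ (n : ℝ) ^ (-(5 / 4) : ℝ)) →
      ∫ t : ℝ, Real.exp (-(t / T) ^ 2) * ‖∑ n ∈ Ioc M L, a n * (n : ℂ) ^ ((t : ℂ) * Complex.I)‖ ^ 4 ≤
      Cb * (T * L) ^ e * (T / (M : ℝ) ^ 3 + 1 / (M : ℝ))) {T : ℝ} (hT : 1 ≤ T) :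
    ∫⁻ t : ℝ, ENNReal.ofReal (Real.exp (-(t / (2 * T)) ^ 2) * ‖P2 T t‖ ^ 4) ≤
      ENNReal.ofReal (Cb * ((2 * T * (⌈T ^ 8⌉₊ : ℝ)) ^ e *
        (2 * T / (⌈Real.sqrt T⌉₊ : ℝ) ^ 3 + 1 / (⌈Real.sqrt T⌉₊ : ℝ)))) := by
  have hT0 : 0 < T := by linarith
  obtain ⟨B, hB0, hB⟩ := P2_bdd T
  refine lint_poly (P2_cont T) hB (by positivity) ?_
  have hs1 : 1 ≤ Real.sqrt T := Real.one_le_sqrt.mpr hT
  have hL : 1 ≤ ⌈Real.sqrt T⌉₊ := by
    rw [Nat.one_le_ceil_iff]; linarith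
  have hsT : Real.sqrt T ≤ T ^ 8 := by
    have a1 : Real.sqrt T ≤ T := by
      rw [Real.sqrt_le_left (by (clear * - hT; linarith))]; (clear * - hT; nlinarith)
    exact a1.trans (le_self_pow₀ hT (by norm_num))
  refine (hb _ _ coB (2 * T) (by linarith) hL (Nat.ceil_le_ceil hsT) (fun n _ => ?_)).trans
    (le_of_eq (by ring))
  rw [norm_coB]

theorem lint_add3 {f g h : ℝ → ℝ} (hf : Continuous f) (hg : Continuous g) {a b c : ℝ}
    (ha0 : 0 ≤ a) (hb0 : 0 ≤ b) (hc0 : 0 ≤ c)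
    (ha : ∫⁻ t, ENNReal.ofReal (f t) ≤ ENNReal.ofReal a)
    (hb : ∫⁻ t, ENNReal.ofReal (g t) ≤ ENNReal.ofReal b)
    (hc : ∫⁻ t, ENNReal.ofReal (h t) ≤ ENNReal.ofReal c) {F : ℝ → ℝ}
    (hF : ∀ t, F t ≤ f t + (g t + h t)) :
    ∫⁻ t, ENNReal.ofReal (F t) ≤ ENNReal.ofReal (a + (b + c)) := by
  calc ∫⁻ t, ENNReal.ofReal (F t)
      ≤ ∫⁻ t, (ENNReal.ofReal (f t) + (ENNReal.ofReal (g t) + ENNReal.ofReal (h t))) := by
        refine lintegral_mono fun t => ?_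
        refine (ENNReal.ofReal_le_ofReal (hF t)).trans ?_
        refine ENNReal.ofReal_add_le.trans ?_
        gcongr
        exact ENNReal.ofReal_add_le
    _ = (∫⁻ t, ENNReal.ofReal (f t)) + ((∫⁻ t, ENNReal.ofReal (g t)) +
        ∫⁻ t, ENNReal.ofReal (h t)) := by
        rw [lintegral_add_left (by fun_prop), lintegral_add_left (by fun_prop)]
    _ ≤ ENNReal.ofReal a + (ENNReal.ofReal b + ENNReal.ofReal c) := by (clear * - ha hb hc; gcongr)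
    _ = _ := by rw [ENNReal.ofReal_add ha0 (by (clear * - hb0 hc0; positivity)), ENNReal.ofReal_add hb0 hc0]

theorem lint_add2 {f h : ℝ → ℝ} (hf : Continuous f) {a c : ℝ}
    (ha0 : 0 ≤ a) (hc0 : 0 ≤ c)
    (ha : ∫⁻ t, ENNReal.ofReal (f t) ≤ ENNReal.ofReal a)
    (hc : ∫⁻ t, ENNReal.ofReal (h t) ≤ ENNReal.ofReal c) :
    ∫⁻ t, ENNReal.ofReal (f t + h t) ≤ ENNReal.ofReal (a + c) := by
  calc ∫⁻ t, ENNReal.ofReal (f t + h t)
      ≤ ∫⁻ t, (ENNReal.ofReal (f t) + ENNReal.ofReal (h t)) := by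
        refine lintegral_mono fun t => ?_
        exact ENNReal.ofReal_add_le
    _ = (∫⁻ t, ENNReal.ofReal (f t)) + ∫⁻ t, ENNReal.ofReal (h t) := by
        rw [lintegral_add_left (by fun_prop)]
    _ ≤ ENNReal.ofReal a + ENNReal.ofReal c := by gcongr
    _ = _ := by rw [ENNReal.ofReal_add ha0 hc0]

theorem lint_avg {Ca Cb Cz Ct Cv e : ℝ} (hCa : 0 < Ca) (hCb : 0 < Cb) (hCz : 0 < Cz)
    (hCt : 0 < Ct) (hCv : 0 < Cv) (he : 0 < e) (he1 : e ≤ 1 / 16)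
    (ha : ∀ (L : ℕ) (a : ℕ → ℂ) (T : ℝ), 1 ≤ T → 1 ≤ L →
      (∀ n : ℕ, 1 ≤ n → ‖a n‖ ≤ (n : ℝ) ^ (-(1 / 2) : ℝ)) →
      ∫ t : ℝ, Real.exp (-(t / T) ^ 2) * ‖∑ n ∈ Icc 1 L, a n * (n : ℂ) ^ ((t : ℂ) * Complex.I)‖ ^ 4 ≤
      Ca * (T * L) ^ e * (T + (L : ℝ) ^ 2))
    (hb : ∀ (M L : ℕ) (a : ℕ → ℂ) (T : ℝ), 1 ≤ T → 1 ≤ M → M ≤ L →
      (∀ n : ℕ, 1 ≤ n → ‖a n‖ ≤ (n : ℝ) ^ (-(5 / 4) : ℝ)) →
      ∫ t : ℝ, Real.exp (-(t / T) ^ 2) * ‖∑ n ∈ Ioc M L, a n * (n : ℂ) ^ ((t : ℂ) * Complex.I)‖ ^ 4 ≤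
      Cb * (T * L) ^ e * (T / (M : ℝ) ^ 3 + 1 / (M : ℝ)))
    (hv : ∀ (F : ℝ → ℝ) (K T : ℝ), Continuous F → 0 ≤ K → (∀ u, 0 ≤ F u) →
      (∀ u, F u ≤ K * (1 + |u|)) → 2 ≤ T →
      ∫⁻ t, ENNReal.ofReal (Real.exp (-(t / T) ^ 2) *
        (∫ v, F (t + v) * Real.exp (-(1 / 2 * v ^ 2))) ^ 4) ≤
      ENNReal.ofReal Cv * ∫⁻ u, ENNReal.ofReal (Real.exp (-(u ^ 2 / (2 * T ^ 2))) * F u ^ 4))
    {T : ℝ} (hT2 : 2 ≤ T) :
    ∫⁻ t : ℝ, ENNReal.ofReal (Real.exp (-(t / T) ^ 2) *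
      (∫ v : ℝ, (F1 Cz e T (t + v) + F2 Cz Ct T (t + v)) * Real.exp (-(1 / 2 * v ^ 2))) ^ 4) ≤
    ENNReal.ofReal (Cv * ((8 * Cz ^ 4 * Real.exp 9 * (24 * Ca) +
      (64 * Cz ^ 4 * Real.exp 9 * (12 * Cb) +
      64 * Cz ^ 4 * Real.exp 9 * Ct ^ 4 * (2 * Real.sqrt Real.pi))) * T ^ (1 + 9 * e))) := by
  have hT : 1 ≤ T := by (clear * - he he1 hT2; linarith)
  have hT0 : 0 < T := by linarith
  obtain ⟨K1, hK1, hF1⟩ := F1_le (Cz := Cz) (e := e) hCz.le (by linarith) T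
  obtain ⟨K2, hK2, hF2⟩ := F2_le (Cz := Cz) (Ct := Ct) (T := T) hCz.le hCt.le hT0.le
  refine (hv (fun u => F1 Cz e T u + F2 Cz Ct T u) (K1 + K2) T
    ((F1_cont Cz e T).add (F2_cont Cz Ct T)) (by positivity)
    (fun u => add_nonneg (F1_nonneg hCz.le e T u) (F2_nonneg hCz.le hCt.le hT0.le u))
    (fun u => by linarith [hF1 u, hF2 u]) hT2).trans ?_
  rw [ENNReal.ofReal_mul hCv.le]
  gcongr
  have b1 := lint_smul_le (c := 8 * Cz ^ 4 * Real.exp 9 * T ^ (4 * e)) (by positivity)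
    (lint_P1 he ha hT)
  have b2 := lint_smul_le (c := 64 * Cz ^ 4 * Real.exp 9 * T ^ (3 / 2 : ℝ)) (by positivity)
    (lint_P2 hb hT)
  have b3 := lint_smul_le (c := 64 * Cz ^ 4 * Real.exp 9 * T ^ (3 / 2 : ℝ) * (Ct / T) ^ 4)
    (by positivity) (le_of_eq (lint_w (T := 2 * T) (by positivity)))
  refine (lint_add3 (by
      have := P1_cont e T
      fun_prop) (by
      have := P2_cont T
      fun_prop) (by positivity) (by positivity) (by positivity) b1 b2 b3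
    (F := fun u => Real.exp (-(u ^ 2 / (2 * T ^ 2))) * (F1 Cz e T u + F2 Cz Ct T u) ^ 4)
    (fun u => ?_)).trans (ENNReal.ofReal_le_ofReal ?_)
  · have h1 := F1_pow (Cz := Cz) he he1 hT u
    have h2 := F2_pow (Cz := Cz) (Ct := Ct) hT u
    have h3 := pow4_add2 (F1 Cz e T u) (F2 Cz Ct T u)
    have h4 : Real.exp (-(u ^ 2 / (2 * T ^ 2))) * (F1 Cz e T u + F2 Cz Ct T u) ^ 4 ≤
        Real.exp (-(u ^ 2 / (2 * T ^ 2))) * (8 * (F1 Cz e T u ^ 4 + F2 Cz Ct T u ^ 4)) :=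
      mul_le_mul_of_nonneg_left h3 (Real.exp_pos _).le
    linarith
  · have n2 := num2 he he1 hT
    have n3 := num3 he he1 hT
    have h6 : T ^ (1 + 6 * e) ≤ T ^ (1 + 9 * e) :=
      Real.rpow_le_rpow_of_exponent_le hT (by (clear * - he; linarith))
    have h1 := one_le_pow_T he hT
    have h7 : T ^ (3 / 2 : ℝ) * (Ct / T) ^ 4 * T ≤ Ct ^ 4 * T ^ (1 + 9 * e) := by
      have h8 : T ^ (3 / 2 : ℝ) ≤ T ^ 4 := by
        rw [← Real.rpow_natCast T 4]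
        exact Real.rpow_le_rpow_of_exponent_le hT (by norm_num)
      calc T ^ (3 / 2 : ℝ) * (Ct / T) ^ 4 * T ≤ T ^ 4 * (Ct / T) ^ 4 * T := by gcongr
        _ = Ct ^ 4 * T := by field_simp
        _ ≤ _ := by (clear * - h1 hCt; gcongr)
    have c1 : 8 * Cz ^ 4 * Real.exp 9 * T ^ (4 * e) * (Ca * ((2 * T * (⌈Real.sqrt T⌉₊ : ℝ)) ^ e *
        (2 * T + (⌈Real.sqrt T⌉₊ : ℝ) ^ 2))) ≤
        8 * Cz ^ 4 * Real.exp 9 * (24 * Ca) * T ^ (1 + 9 * e) := by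
      calc _ = 8 * Cz ^ 4 * Real.exp 9 * Ca * (T ^ (4 * e) * ((2 * T * (⌈Real.sqrt T⌉₊ : ℝ)) ^ e *
        (2 * T + (⌈Real.sqrt T⌉₊ : ℝ) ^ 2))) := by ring
        _ ≤ 8 * Cz ^ 4 * Real.exp 9 * Ca * (24 * T ^ (1 + 9 * e)) :=
          mul_le_mul_of_nonneg_left (by (clear * - n2 h6; linarith)) (by positivity)
        _ = _ := by ring
    have c2 : 64 * Cz ^ 4 * Real.exp 9 * T ^ (3 / 2 : ℝ) *
        (Cb * ((2 * T * (⌈T ^ 8⌉₊ : ℝ)) ^ e *
        (2 * T / (⌈Real.sqrt T⌉₊ : ℝ) ^ 3 + 1 / (⌈Real.sqrt T⌉₊ : ℝ)))) ≤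
        64 * Cz ^ 4 * Real.exp 9 * (12 * Cb) * T ^ (1 + 9 * e) := by
      calc _ = 64 * Cz ^ 4 * Real.exp 9 * Cb * (T ^ (3 / 2 : ℝ) * ((2 * T * (⌈T ^ 8⌉₊ : ℝ)) ^ e *
        (2 * T / (⌈Real.sqrt T⌉₊ : ℝ) ^ 3 + 1 / (⌈Real.sqrt T⌉₊ : ℝ)))) := by ring
        _ ≤ 64 * Cz ^ 4 * Real.exp 9 * Cb * (12 * T ^ (1 + 9 * e)) :=
          mul_le_mul_of_nonneg_left n3 (by positivity)
        _ = _ := by ring
    have c3 : 64 * Cz ^ 4 * Real.exp 9 * T ^ (3 / 2 : ℝ) * (Ct / T) ^ 4 *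
        (Real.sqrt Real.pi * (2 * T)) ≤
        64 * Cz ^ 4 * Real.exp 9 * Ct ^ 4 * (2 * Real.sqrt Real.pi) * T ^ (1 + 9 * e) := by
      calc _ = 64 * Cz ^ 4 * Real.exp 9 * (2 * Real.sqrt Real.pi) *
          (T ^ (3 / 2 : ℝ) * (Ct / T) ^ 4 * T) := by ring
        _ ≤ 64 * Cz ^ 4 * Real.exp 9 * (2 * Real.sqrt Real.pi) * (Ct ^ 4 * T ^ (1 + 9 * e)) :=
          mul_le_mul_of_nonneg_left h7 (by positivity)
        _ = _ := by ring
    linarith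

/-- the fourth moment for `T ≥ 2`, in `ENNReal` -/
theorem lint_zeta (ha : FMmv4a) (hb : FMmv4b) (hA : FMafe) {e : ℝ} (he : 0 < e)
    (he1 : e ≤ 1 / 16) : ∃ C : ℝ, 0 < C ∧ ∀ T : ℝ, 2 ≤ T →
      ∫⁻ t : ℝ, ENNReal.ofReal (Real.exp (-(t / T) ^ 2) *
        ‖riemannZeta (1 / 2 + (t : ℂ) * Complex.I)‖ ^ 4) ≤ ENNReal.ofReal (C * T ^ (1 + 9 * e)) := by
  obtain ⟨Cs, Cz, Ct, hCs, hCz, hCt, hp⟩ := pointwise hA he he1
  obtain ⟨Ca, hCa, ha'⟩ := ha e he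
  obtain ⟨Cb, hCb, hb'⟩ := hb e he
  obtain ⟨Cv, hCv, hv⟩ := avg4
  set D : ℝ := Cv * (8 * Cz ^ 4 * Real.exp 9 * (24 * Ca) +
      (64 * Cz ^ 4 * Real.exp 9 * (12 * Cb) +
      64 * Cz ^ 4 * Real.exp 9 * Ct ^ 4 * (2 * Real.sqrt Real.pi))) with hD
  have hD0 : 0 < D := by (clear * - hCv hCz hCa hCb hCt; positivity)
  refine ⟨512 * (10 * Ca) + (512 * Cs ^ 4 * Real.sqrt Real.pi +
    (512 * Cz ^ 4 * Real.sqrt Real.pi + 8 * D)), by positivity, fun T hT2 => ?_⟩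
  have hT : 1 ≤ T := by linarith
  have hT0 : 0 < T := by (clear * - he he1 hT2; linarith)
  have d0 := lint_smul_le (c := 512) (by norm_num) (lint_P0 hCa he he1 ha' hT)
  have d1 := lint_smul_le (c := 512 * Cs ^ 4) (by positivity) (le_of_eq (lint_w hT0))
  have d2 := lint_smul_le (c := 512 * Cz ^ 4 * T) (by positivity)
    (le_of_eq (lint_w (T := 1) one_pos))
  have d3 := lint_smul_le (c := 8) (by norm_num)
    (lint_avg hCa hCb hCz hCt hCv he he1 ha' hb' hv hT2)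
  have hA4 : ∀ t : ℝ, Real.exp (-(t / T) ^ 2) *
        ‖riemannZeta (1 / 2 + (t : ℂ) * Complex.I)‖ ^ 4 ≤
      512 * (Real.exp (-(t / T) ^ 2) * ‖P0 e T (-t)‖ ^ 4) +
      (512 * Cs ^ 4 * Real.exp (-(t / T) ^ 2) +
      (512 * Cz ^ 4 * T * Real.exp (-(t / 1) ^ 2) +
        8 * (Real.exp (-(t / T) ^ 2) *
      (∫ v : ℝ, (F1 Cz e T (t + v) + F2 Cz Ct T (t + v)) * Real.exp (-(1 / 2 * v ^ 2))) ^ 4))) := by
    intro t
    have h1 := hp T t hT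
    set A : ℝ := ∫ v : ℝ, (F1 Cz e T (t + v) + F2 Cz Ct T (t + v)) *
      Real.exp (-(1 / 2 * v ^ 2)) with hAdef
    set w : ℝ := Real.exp (-(t / T) ^ 2) with hw
    have hw0 : 0 ≤ w := (Real.exp_pos _).le
    have hw1 : w ≤ 1 := by
      rw [hw]; exact Real.exp_le_one_iff.mpr (by (clear * -; nlinarith [sq_nonneg (t / T)]))
    set g : ℝ := Real.exp (-t ^ 2) with hg
    have hg0 : 0 ≤ g := (Real.exp_pos _).le
    have hg1 : g ≤ 1 := by
      rw [hg]; exact Real.exp_le_one_iff.mpr (by (clear * -; nlinarith [sq_nonneg t]))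
    have hg' : Real.exp (-(t / 1) ^ 2) = g := by rw [div_one]
    have h2 : ‖riemannZeta (1 / 2 + (t : ℂ) * Complex.I)‖ ^ 4 ≤
        ((‖P0 e T (-t)‖ + Cs + Cz * Real.sqrt (Real.sqrt T) * g) + A) ^ 4 :=
      pow_le_pow_left₀ (norm_nonneg _) h1 4
    have h3 := pow4_add2 (‖P0 e T (-t)‖ + Cs + Cz * Real.sqrt (Real.sqrt T) * g) A
    have h4 := pow4_add3 ‖P0 e T (-t)‖ Cs (Cz * Real.sqrt (Real.sqrt T) * g)
    have h5 : (Cz * Real.sqrt (Real.sqrt T) * g) ^ 4 ≤ Cz ^ 4 * T * g := by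
      have h6 : (Real.sqrt (Real.sqrt T)) ^ 4 = T := by
        rw [show (4 : ℕ) = 2 * 2 from rfl, pow_mul, Real.sq_sqrt (Real.sqrt_nonneg T),
          Real.sq_sqrt hT0.le]
      have h7 : g ^ 4 ≤ g := by
        calc g ^ 4 ≤ g ^ 1 := pow_le_pow_of_le_one hg0 hg1 (by norm_num)
          _ = g := pow_one g
      calc (Cz * Real.sqrt (Real.sqrt T) * g) ^ 4 = Cz ^ 4 * (Real.sqrt (Real.sqrt T)) ^ 4 * g ^ 4 := by
            ring
        _ ≤ Cz ^ 4 * T * g := by rw [h6]; (clear * - h7 hCz hT2; gcongr)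
    have h8 : ‖riemannZeta (1 / 2 + (t : ℂ) * Complex.I)‖ ^ 4 ≤
        512 * ‖P0 e T (-t)‖ ^ 4 + 512 * Cs ^ 4 + 512 * (Cz ^ 4 * T * g) + 8 * A ^ 4 := by
      (clear * - h2 h3 h4 h5; linarith)
    have h9 : w * (512 * (Cz ^ 4 * T * g)) ≤ 1 * (512 * (Cz ^ 4 * T * g)) :=
      mul_le_mul_of_nonneg_right hw1 (by positivity)
    rw [hg']
    have h10 := mul_le_mul_of_nonneg_left h8 hw0
    (clear * - h9 h10; linarith)
  have hP0 : Continuous (fun t => P0 e T (-t)) := (P0_cont e T).comp continuous_neg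
  have s1 := lint_add2 (by fun_prop) (by positivity) (by positivity) d2 d3
  refine (lint_add3 (by fun_prop) (by fun_prop) (by positivity) (by positivity) (by positivity)
    d0 d1 s1 hA4).trans (ENNReal.ofReal_le_ofReal ?_)
  have h1 := one_le_pow_T he hT
  have e1 : 512 * Cs ^ 4 * (Real.sqrt Real.pi * T) ≤
      512 * Cs ^ 4 * Real.sqrt Real.pi * T ^ (1 + 9 * e) := by
    calc _ = 512 * Cs ^ 4 * Real.sqrt Real.pi * T := by ring
      _ ≤ _ := by gcongr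
  have e2 : 512 * Cz ^ 4 * T * (Real.sqrt Real.pi * 1) ≤
      512 * Cz ^ 4 * Real.sqrt Real.pi * T ^ (1 + 9 * e) := by
    calc _ = 512 * Cz ^ 4 * Real.sqrt Real.pi * T := by ring
      _ ≤ _ := by gcongr
  have e3 : 8 * (Cv * ((8 * Cz ^ 4 * Real.exp 9 * (24 * Ca) +
      (64 * Cz ^ 4 * Real.exp 9 * (12 * Cb) +
      64 * Cz ^ 4 * Real.exp 9 * Ct ^ 4 * (2 * Real.sqrt Real.pi))) * T ^ (1 + 9 * e))) =
      8 * D * T ^ (1 + 9 * e) := by rw [hD]; ring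
  rw [e3]
  (clear * - e1 e2; linarith)

theorem fourthMoment (ha : FMmv4a) (hb : FMmv4b) (hA : FMafe) : FourthMoment := by
  intro ε hε
  set e : ℝ := min ε 1 / 16 with hedef
  have hm : 0 < min ε 1 := lt_min hε one_pos
  have he : 0 < e := by positivity
  have he1 : e ≤ 1 / 16 := by
    have := min_le_right ε 1
    rw [hedef]; (clear * - this; linarith)
  have he2 : 9 * e ≤ ε := by
    have := min_le_left ε 1
    rw [hedef]; (clear * - hedef he this; linarith)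
  obtain ⟨C, hC, h⟩ := lint_zeta ha hb hA he he1
  refine ⟨C * 2 ^ (1 + ε), by positivity, fun T hT => ?_⟩
  have hT0 : 0 < T := by (clear * - he he1 hT; linarith)
  have h1 := h (2 * T) (by (clear * - hT; linarith))
  have h2 : ∫⁻ t : ℝ, ENNReal.ofReal ‖Real.exp (-(t / T) ^ 2) *
      ‖riemannZeta (1 / 2 + (t : ℂ) * Complex.I)‖ ^ 4‖ ≤
      ENNReal.ofReal (C * (2 * T) ^ (1 + 9 * e)) := by
    refine (lintegral_mono fun t => ENNReal.ofReal_le_ofReal ?_).trans h1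
    rw [Real.norm_eq_abs, abs_of_nonneg (by positivity)]
    apply mul_le_mul_of_nonneg_right _ (by positivity)
    apply Real.exp_le_exp.mpr
    apply neg_le_neg
    rw [div_pow, div_pow]
    apply div_le_div_of_nonneg_left (sq_nonneg _) (by positivity)
    (clear * -; nlinarith)
  calc ∫ t : ℝ, Real.exp (-(t / T) ^ 2) * ‖riemannZeta (1 / 2 + (t : ℂ) * Complex.I)‖ ^ 4
      ≤ ‖∫ t : ℝ, Real.exp (-(t / T) ^ 2) * ‖riemannZeta (1 / 2 + (t : ℂ) * Complex.I)‖ ^ 4‖ :=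
        Real.le_norm_self _
    _ ≤ (∫⁻ t : ℝ, ENNReal.ofReal ‖Real.exp (-(t / T) ^ 2) *
      ‖riemannZeta (1 / 2 + (t : ℂ) * Complex.I)‖ ^ 4‖).toReal :=
        norm_integral_le_lintegral_norm _
    _ ≤ (ENNReal.ofReal (C * (2 * T) ^ (1 + 9 * e))).toReal :=
        ENNReal.toReal_mono ENNReal.ofReal_ne_top h2
    _ = C * (2 * T) ^ (1 + 9 * e) := ENNReal.toReal_ofReal (by positivity)
    _ ≤ C * (2 * T) ^ (1 + ε) := by
        apply mul_le_mul_of_nonneg_left _ hC.le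
        exact Real.rpow_le_rpow_of_exponent_le (by (clear * - he he1 hT; linarith)) (by linarith)
    _ = C * 2 ^ (1 + ε) * T ^ (1 + ε) := by
        rw [Real.mul_rpow (by norm_num) hT0.le]; ring

end Pool.Agent.M17.Helper52.KC
end
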