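import Mathlib
import Pool.Agent.Helper53.KM.G02
import Pool.Agent.Helper53.KM.G03
import Pool.Agent.Helper53.KM.G05
import Pool.Agent.Helper53.KM.G06

/- Helper53.KN.Helper26.KC.D2 -/
section
/-!
# KC-10, part 2: shifting a vertical line of integration
-/

set_option autoImplicit false
open MeasureTheory Filter Topology

namespace Pool.Agent.M17.Helper26.KC

theorem line_re (c t : ℝ) : ((c : ℂ) + t * Complex.I).re = c := by simp

theorem line_im (c t : ℝ) : ((c : ℂ) + t * Complex.I).im = t := by simp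

theorem inv_one_add_sq_tendsto : Tendsto (fun T : ℝ => (1 + T ^ 2)⁻¹) atTop (𝓝 0) := by
  apply Tendsto.inv_tendsto_atTop
  exact tendsto_atTop_add_const_left _ _ (tendsto_pow_atTop (by norm_num))

/-- a continuous function with decay for large imaginary part has decay in the whole strip -/
theorem uniform_decay {L : ℂ → ℂ} (hL : Continuous L) {a b A H : ℝ}
    (hA : ∀ s : ℂ, a ≤ s.re → s.re ≤ b → H ≤ |s.im| → ‖L s‖ ≤ A * (1 + s.im ^ 2)⁻¹) :
    ∃ A' : ℝ, 0 ≤ A' ∧ ∀ s : ℂ, a ≤ s.re → s.re ≤ b → ‖L s‖ ≤ A' * (1 + s.im ^ 2)⁻¹ := by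
  have hcomp : IsCompact ((Set.Icc a b) ×ℂ (Set.Icc (-H) H)) :=
    (isCompact_Icc).reProdIm isCompact_Icc
  obtain ⟨B, hB⟩ := hcomp.exists_bound_of_continuousOn hL.continuousOn
  refine ⟨max |A| (|B| * (1 + H ^ 2)), le_max_of_le_left (abs_nonneg _), ?_⟩
  intro s h1 h2
  have hp : (0 : ℝ) < 1 + s.im ^ 2 := by (clear * -; positivity)
  have hp' : 0 ≤ (1 + s.im ^ 2)⁻¹ := by (clear * -; positivity)
  rcases le_or_gt H |s.im| with h | h
  · refine (hA s h1 h2 h).trans ?_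
    exact mul_le_mul_of_nonneg_right ((le_abs_self A).trans (le_max_left _ _)) hp'
  · have h3 : s ∈ (Set.Icc a b) ×ℂ (Set.Icc (-H) H) := by
      rw [Complex.mem_reProdIm]
      exact ⟨⟨h1, h2⟩, ⟨by (clear * - h; linarith [neg_abs_le s.im]), by (clear * - h; linarith [le_abs_self s.im])⟩⟩
    have h4 := (hB s h3).trans (le_abs_self B)
    have h5 : 1 + s.im ^ 2 ≤ 1 + H ^ 2 := by
      have : |s.im| ^ 2 ≤ H ^ 2 := pow_le_pow_left₀ (abs_nonneg _) h.le 2
      rw [sq_abs] at this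
      (clear * - this; linarith)
    have h6 : 1 ≤ (1 + H ^ 2) * (1 + s.im ^ 2)⁻¹ := by
      rw [← div_eq_mul_inv, le_div_iff₀ hp]
      (clear * - h5; linarith)
    calc ‖L s‖ ≤ |B| * 1 := by (clear * - h4; linarith)
      _ ≤ |B| * ((1 + H ^ 2) * (1 + s.im ^ 2)⁻¹) := mul_le_mul_of_nonneg_left h6 (abs_nonneg _)
      _ = |B| * (1 + H ^ 2) * (1 + s.im ^ 2)⁻¹ := by ring
      _ ≤ _ := mul_le_mul_of_nonneg_right (le_max_right _ _) hp'

theorem line_integrable {L : ℂ → ℂ} {a b A : ℝ} {c : ℝ}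
    (hL : Continuous (fun t : ℝ => L ((c : ℂ) + t * Complex.I)))
    (hA : ∀ s : ℂ, a ≤ s.re → s.re ≤ b → ‖L s‖ ≤ A * (1 + s.im ^ 2)⁻¹) (h1 : a ≤ c)
    (h2 : c ≤ b) : Integrable (fun t : ℝ => L ((c : ℂ) + t * Complex.I)) := by
  refine (integrable_inv_one_add_sq.const_mul A).mono' hL.aestronglyMeasurable
    (Eventually.of_forall fun t => ?_)
  have := hA ((c : ℂ) + t * Complex.I) (by rw [line_re]; exact h1) (by rw [line_re]; exact h2)
  rwa [line_im] at this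

/-- contour shift -/
theorem shift {L : ℂ → ℂ} (hL : Differentiable ℂ L) {a b A H : ℝ} (hab : a ≤ b)
    (hA0 : ∀ s : ℂ, a ≤ s.re → s.re ≤ b → H ≤ |s.im| → ‖L s‖ ≤ A * (1 + s.im ^ 2)⁻¹) :
    ∫ t : ℝ, L ((b : ℂ) + t * Complex.I) = ∫ t : ℝ, L ((a : ℂ) + t * Complex.I) := by
  obtain ⟨A', hA', hA⟩ := uniform_decay hL.continuous hA0
  have hcont : ∀ c : ℝ, Continuous (fun t : ℝ => L ((c : ℂ) + t * Complex.I)) := fun c =>
    hL.continuous.comp (by fun_prop)
  have hdec : Tendsto (fun T : ℝ => A' * (1 + T ^ 2)⁻¹ * |b - a|) atTop (𝓝 0) := by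
    have := (inv_one_add_sq_tendsto.const_mul A').mul_const |b - a|
    simpa using this
  have hup : Tendsto (fun T : ℝ => ∫ x : ℝ in a..b, L (x + (T : ℝ) * Complex.I)) atTop (𝓝 0) := by
    refine squeeze_zero_norm (fun T => ?_) hdec
    refine intervalIntegral.norm_integral_le_of_norm_le_const fun x hx => ?_
    rw [Set.uIoc_of_le hab] at hx
    have := hA (x + T * Complex.I) (by rw [line_re]; exact hx.1.le) (by rw [line_re]; exact hx.2)
    rwa [line_im] at this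
  have hdown : Tendsto (fun T : ℝ => ∫ x : ℝ in a..b, L (x + ((-T : ℝ) : ℂ) * Complex.I)) atTop
      (𝓝 0) := by
    refine squeeze_zero_norm (fun T => ?_) hdec
    refine intervalIntegral.norm_integral_le_of_norm_le_const fun x hx => ?_
    rw [Set.uIoc_of_le hab] at hx
    have := hA (x + ((-T : ℝ) : ℂ) * Complex.I) (by rw [line_re]; exact hx.1.le)
      (by rw [line_re]; exact hx.2)
    rwa [line_im, neg_sq] at this
  have hv2 := intervalIntegral_tendsto_integral (line_integrable (hcont b) hA hab le_rfl)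
    tendsto_neg_atTop_atBot tendsto_id
  have hv1 := intervalIntegral_tendsto_integral (line_integrable (hcont a) hA le_rfl hab)
    tendsto_neg_atTop_atBot tendsto_id
  have hrect : ∀ T : ℝ, (∫ x : ℝ in a..b, L (x + ((-T : ℝ) : ℂ) * Complex.I)) -
      (∫ x : ℝ in a..b, L (x + (T : ℂ) * Complex.I)) +
      Complex.I * (∫ y : ℝ in (-T)..T, L (b + y * Complex.I)) -
      Complex.I * (∫ y : ℝ in (-T)..T, L (a + y * Complex.I)) = 0 := by
    intro T
    have := Complex.integral_boundary_rect_eq_zero_of_differentiableOn L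
      (a + ((-T : ℝ) : ℂ) * Complex.I) (b + (T : ℂ) * Complex.I) hL.differentiableOn
    simpa only [line_re, line_im, smul_eq_mul] using this
  have hlim := ((hdown.sub hup).add (hv2.const_mul Complex.I)).sub (hv1.const_mul Complex.I)
  simp only [id_eq] at hlim
  have hz : Tendsto (fun T : ℝ => (0 : ℂ)) atTop (𝓝 (0 - 0 + Complex.I *
      (∫ t : ℝ, L (b + t * Complex.I)) - Complex.I * ∫ t : ℝ, L (a + t * Complex.I))) := by
    refine hlim.congr fun T => ?_
    exact hrect T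
  have heq := tendsto_nhds_unique tendsto_const_nhds hz
  have hI := Complex.I_ne_zero
  have : Complex.I * (∫ t : ℝ, L (b + t * Complex.I)) =
      Complex.I * ∫ t : ℝ, L (a + t * Complex.I) := by
    linear_combination -heq
  exact mul_left_cancel₀ hI this

theorem exp_bound_aux (y : ℝ) : (1 + y ^ 2) ^ 2 * Real.exp (-(y ^ 2 / 4)) ≤ 32 := by
  have h1 : 0 ≤ y ^ 2 / 4 := by (clear * -; positivity)
  have h2 := Real.quadratic_le_exp_of_nonneg h1
  rw [Real.exp_neg, ← div_eq_mul_inv, div_le_iff₀ (Real.exp_pos _)]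
  (clear * - h2; nlinarith)

theorem exp_bound_aux' (R y : ℝ) :
    (R + |y|) ^ 2 * Real.exp (-(y ^ 2 / 4)) ≤ 64 * (R ^ 2 + 1) * (1 + y ^ 2)⁻¹ := by
  have h1 : (R + |y|) ^ 2 ≤ 2 * (R ^ 2 + 1) * (1 + y ^ 2) := by
    have := sq_abs y
    nlinarith [sq_nonneg (R - |y|), sq_nonneg (R * y)]
  have h2 := exp_bound_aux y
  have hp : (0 : ℝ) < 1 + y ^ 2 := by (clear * -; positivity)
  have h3 := Real.exp_pos (-(y ^ 2 / 4))
  have h4 : 2 * (R ^ 2 + 1) * (1 + y ^ 2) * Real.exp (-(y ^ 2 / 4)) =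
      2 * (R ^ 2 + 1) * ((1 + y ^ 2) ^ 2 * Real.exp (-(y ^ 2 / 4))) * (1 + y ^ 2)⁻¹ := by
    (clear * -; field_simp)
  calc (R + |y|) ^ 2 * Real.exp (-(y ^ 2 / 4))
      ≤ 2 * (R ^ 2 + 1) * (1 + y ^ 2) * Real.exp (-(y ^ 2 / 4)) :=
        mul_le_mul_of_nonneg_right h1 h3.le
    _ = 2 * (R ^ 2 + 1) * ((1 + y ^ 2) ^ 2 * Real.exp (-(y ^ 2 / 4))) * (1 + y ^ 2)⁻¹ := h4
    _ ≤ 2 * (R ^ 2 + 1) * 32 * (1 + y ^ 2)⁻¹ := by (clear * - h2; gcongr)
    _ = _ := by ring

/-- residue subtraction and shift: `J` entire with decay in the strip `a ≤ Re s ≤ b` -/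
theorem shift_pole {J : ℂ → ℂ} (hJ : Differentiable ℂ J) {a b A H : ℝ} {s1 : ℂ} (hab : a ≤ b)
    (ha1 : 1 / 2 ≤ |a - s1.re|) (hb1 : 1 / 2 ≤ |b - s1.re|) (ha2 : |a - s1.re| ≤ 2)
    (hb2 : |b - s1.re| ≤ 2)
    (hA0 : ∀ s : ℂ, a ≤ s.re → s.re ≤ b → H ≤ |s.im| → ‖J s‖ ≤ A * (1 + s.im ^ 2)⁻¹) :
    ‖(∫ t : ℝ, J ((b : ℂ) + t * Complex.I) / ((b : ℂ) + t * Complex.I - s1)) -
      ∫ t : ℝ, J ((a : ℂ) + t * Complex.I) / ((a : ℂ) + t * Complex.I - s1)‖ ≤ 600 * ‖J s1‖ := by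
  obtain ⟨A', hA', hA⟩ := uniform_decay hJ.continuous hA0
  set E : ℂ → ℂ := fun s => Complex.exp ((s - s1) ^ 2) with hE
  have hEd : Differentiable ℂ E := by rw [hE]; fun_prop
  have hEn : ∀ s : ℂ, ‖E s‖ = Real.exp ((s.re - s1.re) ^ 2) * Real.exp (-(s.im - s1.im) ^ 2) := by
    intro s
    simp only [hE]
    rw [Complex.norm_exp, ← Real.exp_add]
    congr 1
    simp [pow_two]
    ring
  have hreb : ∀ x : ℝ, a ≤ x → x ≤ b → (x - s1.re) ^ 2 ≤ 4 := by
    intro x hx1 hx2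
    have h1 : |x - s1.re| ≤ 2 := by
      rw [abs_le] at ha2 hb2 ⊢
      constructor <;> (clear * - ha2 hx1 hb2 hx2; linarith [ha2.1, hb2.2])
    have := pow_le_pow_left₀ (abs_nonneg _) h1 2
    rw [sq_abs] at this
    (clear * - this; linarith)
  -- decay of E
  have hEb : ∀ s : ℂ, a ≤ s.re → s.re ≤ b → 2 * |s1.im| + 1 ≤ |s.im| →
      ‖E s‖ ≤ (Real.exp 4 * 64) * (1 + s.im ^ 2)⁻¹ := by
    intro s h1 h2 h3
    rw [hEn, mul_assoc]
    have h4 : Real.exp (-(s.im - s1.im) ^ 2) ≤ 64 * (1 + s.im ^ 2)⁻¹ := by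
      have h5 : s.im ^ 2 / 4 ≤ (s.im - s1.im) ^ 2 := by
        have h6 : |s.im| / 2 ≤ |s.im - s1.im| := by
          have := abs_sub_abs_le_abs_sub s.im s1.im
          (clear * - h3 this; linarith)
        have h7 := pow_le_pow_left₀ (by positivity) h6 2
        rw [div_pow, sq_abs, sq_abs] at h7
        (clear * - h7; linarith)
      have h8 : Real.exp (-(s.im - s1.im) ^ 2) ≤ Real.exp (-(s.im ^ 2 / 4)) :=
        Real.exp_le_exp.mpr (by (clear * - h5; linarith))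
      refine h8.trans ?_
      have h9 := exp_bound_aux' 0 s.im
      have h10 : 1 ≤ (0 + |s.im|) ^ 2 := by
        have : 1 ≤ |s.im| := by (clear * - h3; linarith [abs_nonneg s1.im])
        (clear * - this; nlinarith)
      have h11 := Real.exp_pos (-(s.im ^ 2 / 4))
      (clear * - h9 h10 h11; nlinarith)
    have h5 : Real.exp ((s.re - s1.re) ^ 2) ≤ Real.exp 4 := Real.exp_le_exp.mpr (hreb _ h1 h2)
    exact mul_le_mul h5 h4 (Real.exp_pos _).le (Real.exp_pos _).le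
  obtain ⟨AE, hAE, hEA⟩ := uniform_decay hEd.continuous hEb
  set K : ℂ → ℂ := fun s => J s - J s1 * E s with hK
  have hKd : Differentiable ℂ K := by
    rw [hK]
    exact hJ.sub (hEd.const_mul _)
  have hK1 : K s1 = 0 := by simp [hK, hE]
  set L : ℂ → ℂ := dslope K s1 with hL
  have hLd : Differentiable ℂ L := by
    rw [hL, ← differentiableOn_univ, Complex.differentiableOn_dslope univ_mem, differentiableOn_univ]
    exact hKd
  have hLne : ∀ s : ℂ, s ≠ s1 → L s = J s / (s - s1) - J s1 * (E s / (s - s1)) := by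
    intro s hs
    rw [hL, dslope_of_ne _ hs, slope_def_field, hK1]
    simp only [hK]
    ring
  have hLb : ∀ s : ℂ, a ≤ s.re → s.re ≤ b → 2 * |s1.im| + 1 ≤ |s.im| →
      ‖L s‖ ≤ (A' + ‖J s1‖ * AE) * (1 + s.im ^ 2)⁻¹ := by
    intro s h1 h2 h3
    have h4 : 1 ≤ ‖s - s1‖ := by
      have h5 := Complex.abs_im_le_norm (s - s1)
      rw [Complex.sub_im] at h5
      have := abs_sub_abs_le_abs_sub s.im s1.im
      (clear * - h3 h5 this; linarith [abs_nonneg s1.im])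
    have h5 : s ≠ s1 := by
      intro h
      rw [h, sub_self, norm_zero] at h4
      (clear * - h4; linarith)
    have h6 : L s = K s / (s - s1) := by
      rw [hL, dslope_of_ne _ h5, slope_def_field, hK1, sub_zero]
    rw [h6, norm_div]
    have h7 : ‖K s‖ ≤ (A' + ‖J s1‖ * AE) * (1 + s.im ^ 2)⁻¹ := by
      simp only [hK]
      refine (norm_sub_le _ _).trans ?_
      rw [norm_mul]
      have h8 := hA s h1 h2
      have h9 := mul_le_mul_of_nonneg_left (hEA s h1 h2) (norm_nonneg (J s1))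
      (clear * - h8 h9; linarith)
    exact (div_le_self (norm_nonneg _) h4).trans h7
  have hsh := shift hLd hab hLb
  -- split on a line
  have hline : ∀ c : ℝ, a ≤ c → c ≤ b → 1 / 2 ≤ |c - s1.re| →
      Integrable (fun t : ℝ => J ((c : ℂ) + t * Complex.I) / ((c : ℂ) + t * Complex.I - s1)) ∧
      Integrable (fun t : ℝ => E ((c : ℂ) + t * Complex.I) / ((c : ℂ) + t * Complex.I - s1)) ∧
      ‖∫ t : ℝ, E ((c : ℂ) + t * Complex.I) / ((c : ℂ) + t * Complex.I - s1)‖ ≤ 300 ∧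
      ∫ t : ℝ, L ((c : ℂ) + t * Complex.I) =
        (∫ t : ℝ, J ((c : ℂ) + t * Complex.I) / ((c : ℂ) + t * Complex.I - s1)) -
        J s1 * ∫ t : ℝ, E ((c : ℂ) + t * Complex.I) / ((c : ℂ) + t * Complex.I - s1) := by
    intro c hc1 hc2 hc3
    have hdist : ∀ t : ℝ, 1 / 2 ≤ ‖(c : ℂ) + t * Complex.I - s1‖ := by
      intro t
      have h5 := Complex.abs_re_le_norm ((c : ℂ) + t * Complex.I - s1)
      rw [Complex.sub_re, line_re] at h5
      (clear * - hc3 h5; linarith)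
    have hne : ∀ t : ℝ, (c : ℂ) + t * Complex.I - s1 ≠ 0 := by
      intro t h
      have := hdist t
      rw [h, norm_zero] at this
      linarith
    have hgen : ∀ (F : ℂ → ℂ) (B : ℝ), Continuous F →
        (∀ s : ℂ, a ≤ s.re → s.re ≤ b → ‖F s‖ ≤ B * (1 + s.im ^ 2)⁻¹) →
        Integrable (fun t : ℝ => F ((c : ℂ) + t * Complex.I) / ((c : ℂ) + t * Complex.I - s1)) := by
      intro F B hF hB
      refine (integrable_inv_one_add_sq.const_mul (2 * B)).mono' ?_ (Eventually.of_forall fun t => ?_)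
      · refine Continuous.aestronglyMeasurable ?_
        exact (hF.comp (by fun_prop)).div (by fun_prop) hne
      · have h1 := hB ((c : ℂ) + t * Complex.I) (by rw [line_re]; exact hc1)
          (by rw [line_re]; exact hc2)
        rw [line_im] at h1
        rw [norm_div, div_le_iff₀ (by (clear * - hdist; linarith [hdist t]))]
        have h2 := hdist t
        have h3 : 0 ≤ B * (1 + t ^ 2)⁻¹ := (norm_nonneg _).trans h1
        (clear * - h1 h2 h3; nlinarith)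
    have i1 := hgen J A' hJ.continuous hA
    have i2 := hgen E AE hEd.continuous hEA
    refine ⟨i1, i2, ?_, ?_⟩
    · have hi : Integrable (fun t : ℝ => (2 * Real.exp 4) * Real.exp (-1 * (t - s1.im) ^ 2)) :=
        ((integrable_exp_neg_mul_sq one_pos).comp_sub_right s1.im).const_mul _
      have h1 : ‖∫ t : ℝ, E ((c : ℂ) + t * Complex.I) / ((c : ℂ) + t * Complex.I - s1)‖ ≤
          ∫ t : ℝ, (2 * Real.exp 4) * Real.exp (-1 * (t - s1.im) ^ 2) := by
        refine norm_integral_le_of_norm_le hi (Eventually.of_forall fun t => ?_)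
        rw [norm_div, hEn, line_re, line_im, div_le_iff₀ (by (clear * - hdist; linarith [hdist t]))]
        have h2 := hdist t
        have h3 : Real.exp ((c - s1.re) ^ 2) ≤ Real.exp 4 := Real.exp_le_exp.mpr (hreb _ hc1 hc2)
        have h4 := Real.exp_pos (-(t - s1.im) ^ 2)
        have h5 : -1 * (t - s1.im) ^ 2 = -(t - s1.im) ^ 2 := by ring
        rw [h5]
        have h6 : Real.exp ((c - s1.re) ^ 2) * Real.exp (-(t - s1.im) ^ 2) ≤
            Real.exp 4 * Real.exp (-(t - s1.im) ^ 2) := mul_le_mul_of_nonneg_right h3 h4.le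
        have h7 : 0 < Real.exp 4 * Real.exp (-(t - s1.im) ^ 2) := by positivity
        (clear * - h6 h2 h7; nlinarith)
      refine h1.trans ?_
      rw [integral_const_mul, integral_sub_right_eq_self (fun t : ℝ => Real.exp (-1 * t ^ 2)) s1.im,
        integral_gaussian, div_one]
      have h2 : Real.exp 4 ≤ 60 := by
        have h3 := Real.exp_one_lt_d9
        have h4 : Real.exp 4 = Real.exp 1 ^ 4 := by
          rw [← Real.exp_nat_mul]; norm_num
        rw [h4]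
        have h5 : Real.exp 1 ^ 4 ≤ 2.7182818286 ^ 4 :=
          pow_le_pow_left₀ (Real.exp_pos _).le h3.le 4
        refine h5.trans (by norm_num)
      have h3 : Real.sqrt Real.pi ≤ 2 := by
        rw [Real.sqrt_le_left (by norm_num)]
        (clear * -; linarith [Real.pi_lt_four])
      have h4 := sqrt_pi_pos
      have h5 := Real.exp_pos 4
      (clear * - h3 h2 h4; nlinarith)
    · have h1 : ∀ t : ℝ, L ((c : ℂ) + t * Complex.I) =
          J ((c : ℂ) + t * Complex.I) / ((c : ℂ) + t * Complex.I - s1) -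
          J s1 * (E ((c : ℂ) + t * Complex.I) / ((c : ℂ) + t * Complex.I - s1)) := by
        intro t
        apply hLne
        intro h
        exact hne t (by rw [h, sub_self])
      simp_rw [h1]
      rw [integral_sub i1 (i2.const_mul _), integral_const_mul]
  obtain ⟨_, _, hb3, hb4⟩ := hline b hab le_rfl hb1
  obtain ⟨_, _, ha3, ha4⟩ := hline a le_rfl hab ha1
  rw [hb4, ha4] at hsh
  have hfin : (∫ t : ℝ, J ((b : ℂ) + t * Complex.I) / ((b : ℂ) + t * Complex.I - s1)) -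
      ∫ t : ℝ, J ((a : ℂ) + t * Complex.I) / ((a : ℂ) + t * Complex.I - s1) =
      J s1 * ((∫ t : ℝ, E ((b : ℂ) + t * Complex.I) / ((b : ℂ) + t * Complex.I - s1)) -
      ∫ t : ℝ, E ((a : ℂ) + t * Complex.I) / ((a : ℂ) + t * Complex.I - s1)) := by
    linear_combination hsh
  rw [hfin, norm_mul, mul_comm]
  apply mul_le_mul_of_nonneg_right _ (norm_nonneg _)
  refine (norm_sub_le _ _).trans ?_
  (clear * - hb3 ha3; linarith)

end Pool.Agent.M17.Helper26.KC
end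

/- Helper53.KN.Helper26.KC.D3 -/
section
/-!
# KC-10, part 3: smoothed sums at a zero of zeta
-/

set_option autoImplicit false
open MeasureTheory Filter Topology Finset

namespace Pool.Agent.M17.Helper26.KC

open Pool.Agent.M17.Helper69.QRH

theorem EZ_growth : ∃ C : ℝ, 0 < C ∧ ∀ s : ℂ, 2 / 7 ≤ s.re → ‖EZ s‖ ≤ C * (1 + ‖s‖) ^ 2 := by
  set K : ℝ := ∑' n : ℕ, ((n : ℝ) + 1) ^ (-(9 / 7 : ℝ)) with hK
  have hK0 : 0 ≤ K := tsum_nonneg fun n => Real.rpow_nonneg (by (clear * -; positivity)) _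
  refine ⟨K + 1, by (clear * - hK0; linarith), fun s hs => ?_⟩
  rw [EZ_eq_tsum (by (clear * - hs; linarith))]
  have h1 : ‖∑' n : ℕ, TT n s‖ ≤ ‖s - 1‖ * ‖s‖ * K := by
    rw [hK, ← tsum_mul_left]
    refine tsum_of_norm_bounded ((summable_rpow_aux (by norm_num)).mul_left _).hasSum fun n => ?_
    refine (TT_bound n (by (clear * - hs; linarith))).trans ?_
    refine mul_le_mul_of_nonneg_left ?_ (by positivity)
    exact Real.rpow_le_rpow_of_exponent_le (by (clear * -; linarith [(n.cast_nonneg : (0 : ℝ) ≤ n)])) (by (clear * - hs; linarith))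
  have h2 : ‖s - 1‖ ≤ 1 + ‖s‖ := (norm_sub_le _ _).trans (by rw [norm_one]; (clear * -; linarith))
  have h3 := norm_nonneg s
  calc ‖∑' n : ℕ, TT n s + 1‖ ≤ ‖∑' n : ℕ, TT n s‖ + ‖(1 : ℂ)‖ := norm_add_le _ _
    _ ≤ ‖s - 1‖ * ‖s‖ * K + 1 := by
      rw [norm_one]
      (clear * - h1; linarith)
    _ ≤ (1 + ‖s‖) * (1 + ‖s‖) * K + (1 + ‖s‖) ^ 2 := by
      have h4 : ‖s - 1‖ * ‖s‖ ≤ (1 + ‖s‖) * (1 + ‖s‖) :=
        mul_le_mul h2 (by (clear * -; linarith)) h3 (by (clear * - h3; linarith))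
      have h5 := mul_le_mul_of_nonneg_right h4 hK0
      (clear * - h3 h5; nlinarith)
    _ = (K + 1) * (1 + ‖s‖) ^ 2 := by ring

/-- the mollifier -/
noncomputable def Mo (D : ℕ) (s : ℂ) : ℂ :=
  ∑ d ∈ Icc 1 D, (ArithmeticFunction.moebius d : ℂ) * (d : ℂ) ^ (-s)

theorem Mo_diff (D : ℕ) : Differentiable ℂ (Mo D) := by
  unfold Mo
  apply Differentiable.fun_sum
  intro d hd
  have h1 : (d : ℂ) ≠ 0 := by
    have := (Finset.mem_Icc.mp hd).1
    exact_mod_cast (by omega : d ≠ 0)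
  exact (differentiable_id.neg.const_cpow (Or.inl h1)).const_mul _

theorem moebius_norm_le (d : ℕ) : ‖(ArithmeticFunction.moebius d : ℂ)‖ ≤ 1 := by
  have := ArithmeticFunction.abs_moebius_le_one (n := d)
  rw [Complex.norm_intCast]
  exact_mod_cast this

theorem norm_natCast_cpow_neg_le {d : ℕ} (hd : 1 ≤ d) {s : ℂ} (hs : 0 ≤ s.re) :
    ‖(d : ℂ) ^ (-s)‖ ≤ 1 := by
  rw [Complex.norm_natCast_cpow_of_pos (by omega)]
  apply Real.rpow_le_one_of_one_le_of_nonpos
  · exact_mod_cast hd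
  · simp [hs]

theorem Mo_le (D : ℕ) {s : ℂ} (hs : 0 ≤ s.re) : ‖Mo D s‖ ≤ D := by
  unfold Mo
  refine (norm_sum_le _ _).trans ?_
  have h1 : ∀ d ∈ Icc 1 D, ‖(ArithmeticFunction.moebius d : ℂ) * (d : ℂ) ^ (-s)‖ ≤ 1 := by
    intro d hd
    rw [norm_mul]
    have h2 := norm_natCast_cpow_neg_le (Finset.mem_Icc.mp hd).1 hs
    have h3 := moebius_norm_le d
    have h4 := norm_nonneg ((d : ℂ) ^ (-s))
    have h5 := norm_nonneg (ArithmeticFunction.moebius d : ℂ)
    (clear * - h3 h2 h5; nlinarith)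
  refine (Finset.sum_le_card_nsmul _ _ _ h1).trans ?_
  simp

/-- the inner smoothed sum -/
noncomputable def In (ρ : ℂ) (V : ℝ) (d : ℕ) : ℂ :=
  ∑' m : ℕ, ((m : ℂ) + 1) ^ (-ρ) * (Phi (V - Real.log d - Real.log ((m : ℝ) + 1)) : ℂ)

theorem cpow_eq_exp_log {x : ℝ} (hx : 0 < x) (s : ℂ) :
    (x : ℂ) ^ s = Complex.exp (s * (Real.log x : ℝ)) := by
  rw [Complex.cpow_def_of_ne_zero (by exact_mod_cast hx.ne'), ← Complex.ofReal_log hx.le, mul_comm]

/-- one divisor -/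
theorem inner_mellin {ρ : ℂ} (hρ : 0 ≤ ρ.re) (W : ℝ) :
    Integrable (fun t : ℝ => riemannZeta (ρ + ((2 : ℝ) + t * Complex.I)) *
      (Complex.exp ((((2 : ℝ) : ℂ) + t * Complex.I) * W + (((2 : ℝ) : ℂ) + t * Complex.I) ^ 2) /
        (((2 : ℝ) : ℂ) + t * Complex.I))) ∧
    ∫ t : ℝ, riemannZeta (ρ + ((2 : ℝ) + t * Complex.I)) *
      (Complex.exp ((((2 : ℝ) : ℂ) + t * Complex.I) * W + (((2 : ℝ) : ℂ) + t * Complex.I) ^ 2) /
        (((2 : ℝ) : ℂ) + t * Complex.I)) =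
      2 * Real.pi * ∑' m : ℕ, ((m : ℂ) + 1) ^ (-ρ) * (Phi (W - Real.log ((m : ℝ) + 1)) : ℂ) := by
  set F : ℕ → ℝ → ℂ := fun m t => ((m : ℂ) + 1) ^ (-ρ) *
    (Complex.exp ((((2 : ℝ) : ℂ) + t * Complex.I) * ((W - Real.log ((m : ℝ) + 1) : ℝ) : ℂ) +
      (((2 : ℝ) : ℂ) + t * Complex.I) ^ 2) / (((2 : ℝ) : ℂ) + t * Complex.I)) with hF
  have hm0 : ∀ m : ℕ, (0 : ℝ) < (m : ℝ) + 1 := fun m => by (clear * -; positivity)
  have hFn : ∀ m t, ‖F m t‖ ≤ (Real.exp (2 * W + 4) * ((m : ℝ) + 1) ^ (-(2 : ℝ))) *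
      Real.exp (-1 * t ^ 2) := by
    intro m t
    simp only [hF]
    rw [norm_mul, norm_div, norm_exp_line]
    have h1 : ‖((m : ℂ) + 1) ^ (-ρ)‖ ≤ 1 := by
      have := norm_natCast_cpow_neg_le (d := m + 1) (by omega) hρ
      push_cast at this
      exact this
    have h2 : 1 ≤ ‖((2 : ℝ) : ℂ) + t * Complex.I‖ := by
      have := Complex.abs_re_le_norm (((2 : ℝ) : ℂ) + t * Complex.I)
      rw [line_re] at this
      have h3 : |(2 : ℝ)| = 2 := abs_of_pos (by norm_num)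
      (clear * - this h3; linarith)
    have h3 : Real.exp (2 * (W - Real.log ((m : ℝ) + 1)) + 2 ^ 2) =
        Real.exp (2 * W + 4) * ((m : ℝ) + 1) ^ (-(2 : ℝ)) := by
      rw [Real.rpow_def_of_pos (hm0 m), ← Real.exp_add]
      congr 1
      ring
    rw [h3]
    have h4 : 0 ≤ Real.exp (2 * W + 4) * ((m : ℝ) + 1) ^ (-(2 : ℝ)) * Real.exp (-1 * t ^ 2) := by
      (clear * -; positivity)
    calc ‖((m : ℂ) + 1) ^ (-ρ)‖ * (Real.exp (2 * W + 4) * ((m : ℝ) + 1) ^ (-(2 : ℝ)) *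
          Real.exp (-1 * t ^ 2) / ‖((2 : ℝ) : ℂ) + t * Complex.I‖)
        ≤ 1 * (Real.exp (2 * W + 4) * ((m : ℝ) + 1) ^ (-(2 : ℝ)) * Real.exp (-1 * t ^ 2)) := by
          apply mul_le_mul h1 (div_le_self h4 h2) (by (clear * - h2; positivity)) zero_le_one
      _ = _ := one_mul _
  have hFc : ∀ m, Continuous (F m) := by
    intro m
    simp only [hF]
    refine continuous_const.mul (Continuous.div (by fun_prop) (by fun_prop) ?_)
    intro t
    exact line_ne (by norm_num)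
  have hFi : ∀ m, Integrable (F m) := by
    intro m
    refine ((integrable_exp_neg_mul_sq one_pos).const_mul _).mono' (hFc m).aestronglyMeasurable
      (Eventually.of_forall (hFn m))
  have hsum : Summable (fun m : ℕ => Real.exp (2 * W + 4) * ((m : ℝ) + 1) ^ (-(2 : ℝ)) *
      ∫ t : ℝ, Real.exp (-1 * t ^ 2)) :=
    ((summable_rpow_aux (r := -(2 : ℝ)) (by norm_num)).mul_left _).mul_right _
  have hFs : Summable (fun m => ∫ t, ‖F m t‖) := by
    refine Summable.of_nonneg_of_le (fun m => integral_nonneg fun t => norm_nonneg _)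
      (fun m => ?_) hsum
    rw [← integral_const_mul]
    exact integral_mono (hFi m).norm ((integrable_exp_neg_mul_sq one_pos).const_mul _) (hFn m)
  have hkey : ∀ t : ℝ, riemannZeta (ρ + ((2 : ℝ) + t * Complex.I)) *
      (Complex.exp ((((2 : ℝ) : ℂ) + t * Complex.I) * W + (((2 : ℝ) : ℂ) + t * Complex.I) ^ 2) /
        (((2 : ℝ) : ℂ) + t * Complex.I)) = ∑' m, F m t := by
    intro t
    rw [zeta_eq_tsum_one_div_nat_add_one_cpow (by
      rw [Complex.add_re, line_re]; (clear * - hρ; linarith)), ← tsum_mul_right]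
    apply tsum_congr
    intro m
    simp only [hF]
    have h1 : ((m : ℂ) + 1) = (((m : ℝ) + 1 : ℝ) : ℂ) := by push_cast; ring
    rw [h1, one_div, ← Complex.cpow_neg, cpow_eq_exp_log (hm0 m), cpow_eq_exp_log (hm0 m),
      mul_div_assoc', mul_div_assoc', ← Complex.exp_add, ← Complex.exp_add]
    congr 2
    push_cast
    ring
  constructor
  · simp_rw [hkey]
    have h1 : ∀ t : ℝ, ‖∑' m, F m t‖ ≤ (∑' m : ℕ, Real.exp (2 * W + 4) * ((m : ℝ) + 1) ^ (-(2 : ℝ))) *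
        Real.exp (-1 * t ^ 2) := by
      intro t
      rw [← tsum_mul_right]
      exact tsum_of_norm_bounded (((summable_rpow_aux (r := -(2 : ℝ)) (by norm_num)).mul_left _).mul_right
        _).hasSum (fun m => hFn m t)
    refine ((integrable_exp_neg_mul_sq one_pos).const_mul _).mono' ?_ (Eventually.of_forall h1)
    have h2 : (fun t : ℝ => ∑' m, F m t) = fun t : ℝ => riemannZeta (ρ + ((2 : ℝ) + t * Complex.I)) *
      (Complex.exp ((((2 : ℝ) : ℂ) + t * Complex.I) * W + (((2 : ℝ) : ℂ) + t * Complex.I) ^ 2) /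
        (((2 : ℝ) : ℂ) + t * Complex.I)) := by
      funext t; rw [hkey]
    rw [h2]
    refine Continuous.aestronglyMeasurable ?_
    refine Continuous.mul ?_ (Continuous.div (by fun_prop) (by fun_prop) fun t =>
      line_ne (by norm_num))
    rw [continuous_iff_continuousAt]
    intro t
    have h3 : ρ + ((2 : ℝ) + t * Complex.I) ≠ 1 := by
      intro h
      have := congrArg Complex.re h
      rw [Complex.add_re, line_re, Complex.one_re] at this
      (clear * - hρ this; linarith)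
    exact ContinuousAt.comp (f := fun t : ℝ => ρ + ((2 : ℝ) + t * Complex.I))
      (differentiableAt_riemannZeta h3).continuousAt (by fun_prop)
  · simp_rw [hkey]
    rw [← integral_tsum_of_summable_integral_norm hFi hFs, ← tsum_mul_left]
    apply tsum_congr
    intro m
    simp only [hF]
    rw [integral_const_mul, mellin_Phi (by norm_num)]
    ring

theorem zeta_line_bound {Cz μ0 s0 : ℝ} (hμ0 : 0 ≤ μ0) (hμ1 : μ0 ≤ 1) (hCz : 0 ≤ Cz)
    (hz : ∀ τ : ℝ, ‖riemannZeta (s0 + τ * Complex.I)‖ ≤ Cz * (2 + |τ|) ^ μ0 * Real.log (2 + |τ|))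
    (γ t : ℝ) : ‖riemannZeta (s0 + (γ + t : ℝ) * Complex.I)‖ ≤
      Cz * (2 + |γ|) ^ μ0 * Real.log (2 + |γ|) * (1 + 2 * |t|) ^ 2 := by
  refine (hz (γ + t)).trans ?_
  have hγ := abs_nonneg γ
  have ht := abs_nonneg t
  have h1 : 2 + |γ + t| ≤ (2 + |γ|) * (1 + |t|) := by
    have := abs_add_le γ t
    nlinarith
  have h2 : (2 + |γ + t|) ^ μ0 ≤ (2 + |γ|) ^ μ0 * (1 + |t|) := by
    calc (2 + |γ + t|) ^ μ0 ≤ ((2 + |γ|) * (1 + |t|)) ^ μ0 :=
          Real.rpow_le_rpow (by (clear * -; positivity)) h1 hμ0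
      _ = (2 + |γ|) ^ μ0 * (1 + |t|) ^ μ0 := Real.mul_rpow (by positivity) (by positivity)
      _ ≤ (2 + |γ|) ^ μ0 * (1 + |t|) := by
          gcongr
          calc (1 + |t|) ^ μ0 ≤ (1 + |t|) ^ (1 : ℝ) :=
                Real.rpow_le_rpow_of_exponent_le (by (clear * - ht; linarith)) hμ1
            _ = 1 + |t| := Real.rpow_one _
  have hlog2 : 1 / 2 ≤ Real.log (2 + |γ|) := by
    have h3 : Real.log 2 ≤ Real.log (2 + |γ|) := Real.log_le_log (by norm_num) (by linarith)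
    (clear * - h3; linarith [Real.log_two_gt_d9])
  have h3 : Real.log (2 + |γ + t|) ≤ Real.log (2 + |γ|) * (1 + 2 * |t|) := by
    calc Real.log (2 + |γ + t|) ≤ Real.log ((2 + |γ|) * (1 + |t|)) :=
          Real.log_le_log (by (clear * -; positivity)) h1
      _ = Real.log (2 + |γ|) + Real.log (1 + |t|) :=
          Real.log_mul (by positivity) (by positivity)
      _ ≤ Real.log (2 + |γ|) + |t| := by
          have := Real.log_le_sub_one_of_pos (show (0 : ℝ) < 1 + |t| by positivity)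
          (clear * - this; linarith)
      _ ≤ Real.log (2 + |γ|) * (1 + 2 * |t|) := by (clear * - ht hlog2; nlinarith)
  have h4 : 0 ≤ Real.log (2 + |γ + t|) := Real.log_nonneg (by (clear * -; linarith [abs_nonneg (γ + t)]))
  have h5 : (0 : ℝ) ≤ (2 + |γ|) ^ μ0 := by (clear * -; positivity)
  calc Cz * (2 + |γ + t|) ^ μ0 * Real.log (2 + |γ + t|)
      ≤ Cz * ((2 + |γ|) ^ μ0 * (1 + |t|)) * (Real.log (2 + |γ|) * (1 + 2 * |t|)) := by (clear * - h2 hCz h3 h4; gcongr)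
    _ ≤ Cz * ((2 + |γ|) ^ μ0 * (1 + 2 * |t|)) * (Real.log (2 + |γ|) * (1 + 2 * |t|)) := by
        have : 1 + |t| ≤ 1 + 2 * |t| := by (clear * - ht; linarith)
        (clear * - this hCz hlog2; gcongr)
    _ = _ := by ring

/-- the smoothed mollified sum at a zero is small -/
theorem mellin_bound {Cz μ0 s0 : ℝ} (hμ0 : 0 ≤ μ0) (hμ1 : μ0 ≤ 1) (hCz : 0 ≤ Cz) (hs0 : 2 / 7 ≤ s0)
    (hs1 : s0 ≤ 1 / 2)
    (hz : ∀ τ : ℝ, ‖riemannZeta (s0 + τ * Complex.I)‖ ≤ Cz * (2 + |τ|) ^ μ0 * Real.log (2 + |τ|))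
    {ρ : ℂ} (hρ : riemannZeta ρ = 0) (hρ1 : s0 < ρ.re) (hρ2 : ρ.re ≤ 1) (hγ : 1 ≤ |ρ.im|)
    {V : ℝ} (hV : 0 ≤ V) (D : ℕ) :
    ‖∑ d ∈ Icc 1 D, (ArithmeticFunction.moebius d : ℂ) * (d : ℂ) ^ (-ρ) * In ρ V d‖ ≤
      32 * Cz * (2 + |ρ.im|) ^ μ0 * Real.log (2 + |ρ.im|) * D *
        Real.exp (1 - (ρ.re - s0) * V) / (ρ.re - s0) + 300 * (D * Real.exp (V - ρ.im ^ 2)) := by
  obtain ⟨CE, hCE0, hCE⟩ := EZ_growth
  have hρne : ρ ≠ 1 := by
    rintro rfl
    simp at hγ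
    (clear * - hs0 hρ1 hρ2 hγ; linarith)
  have hEρ : EZ ρ = 0 := by rw [EZ_eq hρne, hρ, mul_zero]
  set s1 : ℂ := 1 - ρ with hs1def
  have hs1re : s1.re = 1 - ρ.re := by simp [hs1def]
  have hs1im : s1.im = -ρ.im := by simp [hs1def]
  set J0 : ℂ → ℂ := dslope EZ ρ with hJ0
  have hJ0d : Differentiable ℂ J0 := by
    rw [hJ0, ← differentiableOn_univ, Complex.differentiableOn_dslope univ_mem, differentiableOn_univ]
    exact EZ_differentiable
  have hJ0ne : ∀ s : ℂ, s ≠ 0 → J0 (ρ + s) = EZ (ρ + s) / s := by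
    intro s hs
    rw [hJ0, dslope_of_ne _ (by simpa using hs), slope_def_field, hEρ, sub_zero,
      add_sub_cancel_left]
  set J : ℂ → ℂ := fun s => J0 (ρ + s) * Mo D (ρ + s) * Complex.exp (s * V + s ^ 2) with hJ
  have hJd : Differentiable ℂ J := by
    rw [hJ]
    refine Differentiable.mul (Differentiable.mul ?_ ?_) (by fun_prop)
    · exact hJ0d.comp (by fun_prop)
    · exact (Mo_diff D).comp (by fun_prop)
  -- real part of the left line
  set a : ℝ := s0 - ρ.re with ha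
  have hexpn : ∀ s : ℂ, ‖Complex.exp (s * V + s ^ 2)‖ =
      Real.exp (s.re * V + s.re ^ 2) * Real.exp (-s.im ^ 2) := by
    intro s
    rw [Complex.norm_exp, ← Real.exp_add]
    congr 1
    simp [pow_two]
    ring
  -- decay of J
  have hdecay : ∀ s : ℂ, a ≤ s.re → s.re ≤ 2 → 1 ≤ |s.im| →
      ‖J s‖ ≤ (CE * D * Real.exp (2 * V + 4) * (64 * ((4 + ‖ρ‖) ^ 2 + 1))) * (1 + s.im ^ 2)⁻¹ := by
    intro s h1 h2 h3
    have hs : 1 ≤ ‖s‖ := h3.trans (Complex.abs_im_le_norm s)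
    have hsne : s ≠ 0 := by
      intro h; rw [h, norm_zero] at hs; (clear * - hs0 hρ1 hρ2 hs; linarith)
    have hre : (ρ + s).re = ρ.re + s.re := Complex.add_re _ _
    have hre0 : 2 / 7 ≤ (ρ + s).re := by rw [hre]; (clear * - hs0 h1; linarith)
    have e1 : ‖J0 (ρ + s)‖ ≤ CE * (4 + ‖ρ‖ + |s.im|) ^ 2 := by
      rw [hJ0ne s hsne, norm_div]
      refine (div_le_self (norm_nonneg _) hs).trans ((hCE _ hre0).trans ?_)
      have h4 : ‖s‖ ≤ 2 + |s.im| := by
        refine (Complex.norm_le_abs_re_add_abs_im s).trans ?_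
        have : |s.re| ≤ 2 := by rw [abs_le]; constructor <;> (clear * - hs0 hρ1 hρ2 h1 h2; linarith)
        (clear * - this; linarith)
      have h5 := norm_add_le ρ s
      have h6 := norm_nonneg (ρ + s)
      have h7 : 1 + ‖ρ + s‖ ≤ 4 + ‖ρ‖ + |s.im| := by linarith
      (clear * - h7 hCE0; gcongr)
    have e2 : ‖Mo D (ρ + s)‖ ≤ D := Mo_le D (by (clear * - hs0 hρ1 hρ2 h1 hre; linarith))
    have e3 : ‖Complex.exp (s * V + s ^ 2)‖ ≤ Real.exp (2 * V + 4) * Real.exp (-(s.im ^ 2 / 4)) := by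
      rw [hexpn]
      apply mul_le_mul _ _ (Real.exp_pos _).le (Real.exp_pos _).le
      · apply Real.exp_le_exp.mpr
        have h4 : -1 ≤ s.re := by (clear * - hs0 hρ1 hρ2 h1; linarith)
        (clear * - h2 hs0 hρ1 hρ2 hV h1; nlinarith)
      · apply Real.exp_le_exp.mpr
        (clear * -; nlinarith [sq_nonneg s.im])
    have e4 := exp_bound_aux' (4 + ‖ρ‖) s.im
    calc ‖J s‖ = ‖J0 (ρ + s)‖ * ‖Mo D (ρ + s)‖ * ‖Complex.exp (s * V + s ^ 2)‖ := by
          simp only [hJ, norm_mul]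
      _ ≤ (CE * (4 + ‖ρ‖ + |s.im|) ^ 2) * D *
          (Real.exp (2 * V + 4) * Real.exp (-(s.im ^ 2 / 4))) := by (clear * - e1 e2 hCE0 h3 e3; gcongr)
      _ = CE * D * Real.exp (2 * V + 4) *
          ((4 + ‖ρ‖ + |s.im|) ^ 2 * Real.exp (-(s.im ^ 2 / 4))) := by ring
      _ ≤ CE * D * Real.exp (2 * V + 4) *
          (64 * ((4 + ‖ρ‖) ^ 2 + 1) * (1 + s.im ^ 2)⁻¹) := by (clear * - e4 hCE0; gcongr)
      _ = _ := by ring
  have hshift := shift_pole hJd (a := a) (b := 2) (s1 := s1) (by (clear * - hs0 hρ1 hρ2; linarith))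
    (by rw [hs1re]; rw [ha]; rw [show s0 - ρ.re - (1 - ρ.re) = -(1 - s0) by ring, abs_neg,
          abs_of_nonneg (by (clear * - hρ1 hρ2; linarith))]; linarith)
    (by rw [hs1re, show (2 : ℝ) - (1 - ρ.re) = 1 + ρ.re by ring, abs_of_nonneg (by (clear * - hs0 hρ1 hρ2; linarith))]; linarith)
    (by rw [hs1re]; rw [ha]; rw [show s0 - ρ.re - (1 - ρ.re) = -(1 - s0) by ring, abs_neg,
          abs_of_nonneg (by linarith)]; linarith)
    (by rw [hs1re, show (2 : ℝ) - (1 - ρ.re) = 1 + ρ.re by ring, abs_of_nonneg (by linarith)]; linarith)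
    hdecay
  -- the quotient away from the two special points
  have hquot : ∀ s : ℂ, s ≠ 0 → s ≠ s1 → J s / (s - s1) =
      riemannZeta (ρ + s) * Mo D (ρ + s) * Complex.exp (s * V + s ^ 2) / s := by
    intro s h1 h2
    have h3 : ρ + s ≠ 1 := by
      intro h
      apply h2
      rw [hs1def, ← h]
      ring
    have h4 : s - s1 ≠ 0 := sub_ne_zero.mpr h2
    simp only [hJ]
    rw [hJ0ne s h1, EZ_eq h3]
    have h5 : ρ + s - 1 = s - s1 := by rw [hs1def]; ring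
    rw [h5]
    (clear * - h4 h1; field_simp)
  -- right line
  have hright : ∫ t : ℝ, J (((2 : ℝ) : ℂ) + t * Complex.I) / (((2 : ℝ) : ℂ) + t * Complex.I - s1) =
      2 * Real.pi * ∑ d ∈ Icc 1 D, (ArithmeticFunction.moebius d : ℂ) * (d : ℂ) ^ (-ρ) * In ρ V d := by
    have h1 : ∀ t : ℝ, J (((2 : ℝ) : ℂ) + t * Complex.I) / (((2 : ℝ) : ℂ) + t * Complex.I - s1) =
        ∑ d ∈ Icc 1 D, ((ArithmeticFunction.moebius d : ℂ) * (d : ℂ) ^ (-ρ)) *
        (riemannZeta (ρ + ((2 : ℝ) + t * Complex.I)) *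
          (Complex.exp ((((2 : ℝ) : ℂ) + t * Complex.I) * ((V - Real.log d : ℝ) : ℂ) +
            (((2 : ℝ) : ℂ) + t * Complex.I) ^ 2) / (((2 : ℝ) : ℂ) + t * Complex.I))) := by
      intro t
      rw [hquot _ (line_ne (by norm_num)) (by
        intro h
        have := congrArg Complex.re h
        rw [line_re, hs1re] at this
        (clear * - hs0 hρ1 hρ2 this; linarith))]
      unfold Mo
      rw [Finset.mul_sum, Finset.sum_mul, Finset.sum_div]
      apply Finset.sum_congr rfl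
      intro d hd
      have hd0 : (0 : ℝ) < d := by exact_mod_cast (Finset.mem_Icc.mp hd).1
      have e1 : (d : ℂ) ^ (-(ρ + (((2 : ℝ) : ℂ) + t * Complex.I))) =
          (d : ℂ) ^ (-ρ) * Complex.exp (-(((2 : ℝ) : ℂ) + t * Complex.I) * (Real.log d : ℝ)) := by
        have h2 : (d : ℂ) = ((d : ℝ) : ℂ) := by push_cast; ring
        rw [h2, cpow_eq_exp_log hd0, cpow_eq_exp_log hd0, ← Complex.exp_add]
        congr 1
        push_cast
        ring
      have e2 : Complex.exp ((((2 : ℝ) : ℂ) + t * Complex.I) * ((V - Real.log d : ℝ) : ℂ) +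
            (((2 : ℝ) : ℂ) + t * Complex.I) ^ 2) =
          Complex.exp (-(((2 : ℝ) : ℂ) + t * Complex.I) * (Real.log d : ℝ)) *
          Complex.exp ((((2 : ℝ) : ℂ) + t * Complex.I) * V + (((2 : ℝ) : ℂ) + t * Complex.I) ^ 2) := by
        rw [← Complex.exp_add]
        congr 1
        push_cast
        ring
      rw [e1, e2]
      ring
    simp_rw [h1]
    rw [integral_finsetSum]
    · rw [Finset.mul_sum]
      apply Finset.sum_congr rfl
      intro d _
      rw [integral_const_mul, (inner_mellin (by (clear * - hs0 hρ1 hρ2; linarith)) (V - Real.log d)).2]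
      unfold In
      ring
    · intro d _
      exact (inner_mellin (by linarith) (V - Real.log d)).1.const_mul _
  -- left line
  have hβ : 0 < ρ.re - s0 := by (clear * - hρ1; linarith)
  have hleft : ‖∫ t : ℝ, J ((a : ℂ) + t * Complex.I) / ((a : ℂ) + t * Complex.I - s1)‖ ≤
      (Cz * (2 + |ρ.im|) ^ μ0 * Real.log (2 + |ρ.im|) * D *
        Real.exp (1 - (ρ.re - s0) * V) / (ρ.re - s0)) * (64 * 5 * Real.pi / 5) := by
    set B : ℝ := Cz * (2 + |ρ.im|) ^ μ0 * Real.log (2 + |ρ.im|) * D *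
        Real.exp (1 - (ρ.re - s0) * V) / (ρ.re - s0) with hB
    have hlog : 0 ≤ Real.log (2 + |ρ.im|) := Real.log_nonneg (by (clear * - hs0 hρ1 hρ2 hγ; linarith [abs_nonneg ρ.im]))
    have hB0 : 0 ≤ B := by rw [hB]; (clear * - hCz hγ hlog hρ1; positivity)
    have h1 : ∀ t : ℝ, ‖J ((a : ℂ) + t * Complex.I) / ((a : ℂ) + t * Complex.I - s1)‖ ≤
        B * 64 * (1 + t ^ 2)⁻¹ := by
      intro t
      have hne : (a : ℂ) + t * Complex.I ≠ 0 := by
        intro h
        have := congrArg Complex.re h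
        rw [line_re, Complex.zero_re] at this
        (clear * - hρ1 this; linarith)
      rw [hquot _ hne (by
        intro h
        have := congrArg Complex.re h
        rw [line_re, hs1re] at this
        (clear * - hρ1 hρ2 this; linarith))]
      have e0 : ρ + ((a : ℂ) + t * Complex.I) = (s0 : ℂ) + ((ρ.im + t : ℝ) : ℂ) * Complex.I := by
        apply Complex.ext
        · simp [ha]
        · simp
      rw [e0, norm_div, norm_mul, norm_mul, norm_exp_line]
      have e1 := zeta_line_bound hμ0 hμ1 hCz hz ρ.im t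
      have e2 : ‖Mo D ((s0 : ℂ) + ((ρ.im + t : ℝ) : ℂ) * Complex.I)‖ ≤ D := by
        apply Mo_le
        rw [line_re]
        linarith
      have e3 : Real.exp (a * V + a ^ 2) ≤ Real.exp (1 - (ρ.re - s0) * V) := by
        apply Real.exp_le_exp.mpr
        have : a ^ 2 ≤ 1 := by (clear * - hs0 hρ1 hρ2; nlinarith)
        rw [ha] at *
        (clear * - this; linarith)
      have e4 : ρ.re - s0 ≤ ‖(a : ℂ) + t * Complex.I‖ := by
        have h5 := Complex.abs_re_le_norm ((a : ℂ) + t * Complex.I)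
        rw [line_re] at h5
        have h6 : |a| = ρ.re - s0 := by
          rw [ha, show s0 - ρ.re = -(ρ.re - s0) by ring, abs_neg, abs_of_pos hβ]
        (clear * - h5 h6; linarith)
      have e5 : (1 + 2 * |t|) ^ 2 * Real.exp (-1 * t ^ 2) ≤ 64 * (1 + t ^ 2)⁻¹ := by
        have f1 : (1 + 2 * |t|) ^ 2 ≤ 8 * (1 + t ^ 2) := by
          have := sq_abs t
          (clear * - hs0 hρ1 hρ2 this; nlinarith [sq_nonneg (1 - |t|), sq_nonneg (1 - 2 * |t|)])
        have f2 : (1 + t ^ 2) ^ 2 * Real.exp (-1 * t ^ 2) ≤ 2 := by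
          have f3 := Real.quadratic_le_exp_of_nonneg (sq_nonneg t)
          rw [neg_one_mul, Real.exp_neg, ← div_eq_mul_inv, div_le_iff₀ (Real.exp_pos _)]
          (clear * - hs0 hρ1 hρ2 f3; nlinarith [sq_nonneg t])
        have f3 : (0 : ℝ) < 1 + t ^ 2 := by (clear * -; positivity)
        have f4 := Real.exp_pos (-1 * t ^ 2)
        rw [← div_eq_mul_inv, le_div_iff₀ f3]
        calc (1 + 2 * |t|) ^ 2 * Real.exp (-1 * t ^ 2) * (1 + t ^ 2)
            ≤ 8 * (1 + t ^ 2) * Real.exp (-1 * t ^ 2) * (1 + t ^ 2) := by (clear * - f1; gcongr)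
          _ = 8 * ((1 + t ^ 2) ^ 2 * Real.exp (-1 * t ^ 2)) := by ring
          _ ≤ 8 * 2 := by (clear * - f2; gcongr)
          _ ≤ 64 := by norm_num
      calc ‖riemannZeta ((s0 : ℂ) + ((ρ.im + t : ℝ) : ℂ) * Complex.I)‖ *
            ‖Mo D ((s0 : ℂ) + ((ρ.im + t : ℝ) : ℂ) * Complex.I)‖ *
            (Real.exp (a * V + a ^ 2) * Real.exp (-1 * t ^ 2)) / ‖(a : ℂ) + t * Complex.I‖
          ≤ (Cz * (2 + |ρ.im|) ^ μ0 * Real.log (2 + |ρ.im|) * (1 + 2 * |t|) ^ 2) * D *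
            (Real.exp (1 - (ρ.re - s0) * V) * Real.exp (-1 * t ^ 2)) / (ρ.re - s0) := by
            (clear * - hCz hγ hlog e1 e2 e3 hρ1 e4; gcongr)
        _ = B * ((1 + 2 * |t|) ^ 2 * Real.exp (-1 * t ^ 2)) := by rw [hB]; ring
        _ ≤ B * (64 * (1 + t ^ 2)⁻¹) := by (clear * - e5 hCz hγ hlog hρ1; gcongr)
        _ = _ := by ring
    refine (norm_integral_le_of_norm_le (integrable_inv_one_add_sq.const_mul (B * 64))
      (Eventually.of_forall h1)).trans ?_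
    rw [integral_const_mul, integral_univ_inv_one_add_sq]
    apply le_of_eq
    ring
  -- value at the pole
  have hJs1 : ‖J s1‖ ≤ D * Real.exp (V + 1 - ρ.im ^ 2) := by
    have hs1ne : s1 ≠ 0 := by
      rw [hs1def]; exact sub_ne_zero.mpr hρne.symm
    have h1 : ρ + s1 = 1 := by rw [hs1def]; ring
    have h2 : 1 ≤ ‖s1‖ := by
      have := Complex.abs_im_le_norm s1
      rw [hs1im, abs_neg] at this
      (clear * - hγ this; linarith)
    simp only [hJ]
    rw [norm_mul, norm_mul, hJ0ne s1 hs1ne, h1, EZ_one, norm_div, norm_one, hexpn, hs1re, hs1im]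
    have h3 : ‖Mo D 1‖ ≤ D := Mo_le D (by simp)
    have h4 : (1 : ℝ) / ‖s1‖ ≤ 1 := by
      rw [div_le_one (by (clear * - hs0 hρ1 hρ2 h2; linarith))]; exact h2
    have h5 : Real.exp ((1 - ρ.re) * V + (1 - ρ.re) ^ 2) * Real.exp (-(-ρ.im) ^ 2) ≤
        Real.exp (V + 1 - ρ.im ^ 2) := by
      rw [← Real.exp_add]
      apply Real.exp_le_exp.mpr
      have h6 : (1 - ρ.re) ^ 2 ≤ 1 := by (clear * - hs0 hρ1 hρ2; nlinarith)
      have h7 : (1 - ρ.re) * V ≤ V := by (clear * - hV hs0 hρ1; nlinarith)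
      (clear * - h6 h7; nlinarith)
    have h6 := norm_nonneg (Mo D 1)
    calc 1 / ‖s1‖ * ‖Mo D 1‖ * (Real.exp ((1 - ρ.re) * V + (1 - ρ.re) ^ 2) * Real.exp (-(-ρ.im) ^ 2))
        ≤ 1 * D * Real.exp (V + 1 - ρ.im ^ 2) := by (clear * - h4 h3 h5; gcongr)
      _ = _ := by ring
  rw [hright] at hshift
  have hpi := Real.pi_pos
  have hpi3 := Real.pi_gt_three
  set Sg : ℂ := ∑ d ∈ Icc 1 D, (ArithmeticFunction.moebius d : ℂ) * (d : ℂ) ^ (-ρ) * In ρ V d with hSg
  have h1 : ‖2 * (Real.pi : ℂ) * Sg‖ ≤ 600 * ‖J s1‖ +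
      (Cz * (2 + |ρ.im|) ^ μ0 * Real.log (2 + |ρ.im|) * D *
        Real.exp (1 - (ρ.re - s0) * V) / (ρ.re - s0)) * (64 * 5 * Real.pi / 5) := by
    have := norm_sub_norm_le (2 * (Real.pi : ℂ) * Sg)
      (∫ t : ℝ, J ((a : ℂ) + t * Complex.I) / ((a : ℂ) + t * Complex.I - s1))
    linarith
  rw [norm_mul, norm_mul, Complex.norm_real, Complex.norm_ofNat, Real.norm_of_nonneg hpi.le] at h1
  have h2 : D * Real.exp (V + 1 - ρ.im ^ 2) ≤ 3 * (D * Real.exp (V - ρ.im ^ 2)) := by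
    rw [show V + 1 - ρ.im ^ 2 = 1 + (V - ρ.im ^ 2) by ring, Real.exp_add]
    have h3 := Real.exp_one_lt_d9
    have h4 : 0 ≤ (D : ℝ) * Real.exp (V - ρ.im ^ 2) := by (clear * -; positivity)
    (clear * - h4 hs0 hρ1 hρ2 h3; nlinarith)
  have h3 : 0 ≤ (D : ℝ) * Real.exp (V - ρ.im ^ 2) := by (clear * -; positivity)
  set B : ℝ := Cz * (2 + |ρ.im|) ^ μ0 * Real.log (2 + |ρ.im|) * D *
        Real.exp (1 - (ρ.re - s0) * V) / (ρ.re - s0) with hB
  have h4 : 32 * Cz * (2 + |ρ.im|) ^ μ0 * Real.log (2 + |ρ.im|) * D *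
        Real.exp (1 - (ρ.re - s0) * V) / (ρ.re - s0) = 32 * B := by
    rw [hB]; ring
  rw [h4]
  have h5 : 2 * Real.pi * ‖Sg‖ ≤ 600 * (3 * (D * Real.exp (V - ρ.im ^ 2))) + B * (64 * Real.pi) := by
    (clear * - hJs1 h2 h1; linarith)
  have h6 : 2 * Real.pi * ‖Sg‖ ≤ 2 * Real.pi * (32 * B + 300 * (D * Real.exp (V - ρ.im ^ 2))) := by
    (clear * - hJs1 h2 h1 hs0 hρ1 hρ2 hpi3 h3; nlinarith)
  exact le_of_mul_le_mul_left h6 (by positivity)

end Pool.Agent.M17.Helper26.KC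
end

/- Helper53.KN.Helper26.KC.D4 -/
section
/-!
# KC-10, part 4: finite sums, conclusion
-/

set_option autoImplicit false
open MeasureTheory Filter Topology Finset

namespace Pool.Agent.M17.Helper26.KC

open Pool.Agent.M17.Helper69.QRH Pool.Agent.M17.Helper60.KS

theorem zeta_neg (s0 τ : ℝ) :
    ‖riemannZeta (s0 + ((-τ : ℝ) : ℂ) * Complex.I)‖ = ‖riemannZeta (s0 + τ * Complex.I)‖ := by
  have h : (s0 : ℂ) + ((-τ : ℝ) : ℂ) * Complex.I =
      (starRingEnd ℂ) ((s0 : ℂ) + τ * Complex.I) := by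
    simp
  rw [h, riemannZeta_conj, RCLike.norm_conj]

theorem zline {s0 μ0 C : ℝ} (hs1 : s0 < 1) (hμ : 0 ≤ μ0) (hC : 0 < C)
    (h : ∀ t : ℝ, 2 ≤ t → ‖riemannZeta (s0 + t * Complex.I)‖ ≤ C * t ^ μ0 * Real.log t) :
    ∃ Cz : ℝ, 0 ≤ Cz ∧ ∀ τ : ℝ,
      ‖riemannZeta (s0 + τ * Complex.I)‖ ≤ Cz * (2 + |τ|) ^ μ0 * Real.log (2 + |τ|) := by
  have hcont : Continuous (fun t : ℝ => riemannZeta (s0 + t * Complex.I)) := by
    rw [continuous_iff_continuousAt]
    intro t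
    have h3 : (s0 : ℂ) + t * Complex.I ≠ 1 := by
      intro h
      have := congrArg Complex.re h
      rw [line_re, Complex.one_re] at this
      linarith
    exact ContinuousAt.comp (f := fun t : ℝ => (s0 : ℂ) + t * Complex.I)
      (differentiableAt_riemannZeta h3).continuousAt (by fun_prop)
  obtain ⟨B, hB⟩ := (isCompact_Icc (a := (0 : ℝ)) (b := 2)).exists_bound_of_continuousOn
    hcont.continuousOn
  refine ⟨C + 2 * |B|, by positivity, ?_⟩
  have key : ∀ τ : ℝ, 0 ≤ τ →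
      ‖riemannZeta (s0 + τ * Complex.I)‖ ≤ (C + 2 * |B|) * (2 + τ) ^ μ0 * Real.log (2 + τ) := by
    intro τ hτ
    have hlog2 : 1 / 2 ≤ Real.log (2 + τ) := by
      have h3 : Real.log 2 ≤ Real.log (2 + τ) := Real.log_le_log (by norm_num) (by linarith)
      linarith [Real.log_two_gt_d9]
    have hp : 1 ≤ (2 + τ) ^ μ0 := Real.one_le_rpow (by linarith) hμ
    rcases le_or_gt 2 τ with h2 | h2
    · refine (h τ h2).trans ?_
      have h3 : τ ^ μ0 ≤ (2 + τ) ^ μ0 := Real.rpow_le_rpow hτ (by linarith) hμ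
      have h4 : Real.log τ ≤ Real.log (2 + τ) := Real.log_le_log (by (clear * - h2; linarith)) (by linarith)
      have h5 : 0 ≤ Real.log τ := Real.log_nonneg (by (clear * - h2; linarith))
      have h6 : C ≤ C + 2 * |B| := by (clear * -; linarith [abs_nonneg B])
      have h7 : 0 ≤ τ ^ μ0 := Real.rpow_nonneg hτ _
      gcongr
    · have h3 := (hB τ ⟨hτ, h2.le⟩).trans (le_abs_self B)
      refine h3.trans ?_
      have h4 : 1 / 2 ≤ (2 + τ) ^ μ0 * Real.log (2 + τ) := by (clear * - hlog2 hp; nlinarith)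
      have h5 := abs_nonneg B
      calc |B| = (2 * |B|) * (1 / 2) := by ring
        _ ≤ (C + 2 * |B|) * ((2 + τ) ^ μ0 * Real.log (2 + τ)) := by
            apply mul_le_mul (by linarith) h4 (by norm_num) (by positivity)
        _ = _ := by ring
  intro τ
  rcases le_total 0 τ with h1 | h1
  · rw [abs_of_nonneg h1]; exact key τ h1
  · rw [abs_of_nonpos h1]
    have := key (-τ) (by linarith)
    rwa [zeta_neg] at this

/-- coefficients -/
noncomputable def an (D n : ℕ) : ℂ :=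
  ∑ e ∈ n.divisors.filter (fun e => e ≤ D), (ArithmeticFunction.moebius e : ℂ)

theorem an_norm_le (D n : ℕ) : ‖an D n‖ ≤ n.divisors.card := by
  unfold an
  refine (norm_sum_le _ _).trans ?_
  refine (Finset.sum_le_card_nsmul _ _ 1 fun e _ => moebius_norm_le e).trans ?_
  rw [nsmul_eq_mul, mul_one]
  exact_mod_cast Finset.card_filter_le _ _

theorem an_one {D : ℕ} (hD : 1 ≤ D) : an D 1 = 1 := by
  unfold an
  have h : (Nat.divisors 1).filter (fun e => e ≤ D) = {1} := by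
    rw [Nat.divisors_one]
    ext e
    simp only [Finset.mem_filter, Finset.mem_singleton]
    constructor
    · exact fun h => h.1
    · rintro rfl; exact ⟨rfl, hD⟩
  rw [h]
  simp

theorem an_zero {D n : ℕ} (h1 : 1 < n) (h2 : n ≤ D) : an D n = 0 := by
  unfold an
  have h : n.divisors.filter (fun e => e ≤ D) = n.divisors := by
    apply Finset.filter_true_of_mem
    intro e he
    exact (Nat.divisor_le he).trans h2
  rw [h]
  have h3 : ∑ e ∈ n.divisors, (ArithmeticFunction.moebius e : ℤ) = 0 := by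
    have h4 := ArithmeticFunction.coe_zeta_mul_apply (f := ArithmeticFunction.moebius) (x := n)
    rw [ArithmeticFunction.coe_zeta_mul_moebius, ArithmeticFunction.one_apply_ne (by omega)] at h4
    exact h4.symm
  exact_mod_cast congrArg (Int.cast : ℤ → ℂ) h3

/-- rearrangement -/
theorem rearrange (D N0 : ℕ) (F : ℕ → ℂ) :
    ∑ e ∈ Icc 1 D, (ArithmeticFunction.moebius e : ℂ) * ∑ m ∈ range (N0 / e), F (e * (m + 1)) =
      ∑ n ∈ Icc 1 N0, an D n * F n := by
  have h1 : ∀ n ∈ Icc 1 N0, an D n * F n =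
      ∑ e ∈ Icc 1 D, if e ∣ n then (ArithmeticFunction.moebius e : ℂ) * F n else 0 := by
    intro n hn
    have hn1 := (Finset.mem_Icc.mp hn).1
    unfold an
    rw [Finset.sum_mul, ← Finset.sum_filter]
    apply Finset.sum_congr
    · ext e
      simp only [Finset.mem_filter, Nat.mem_divisors, Finset.mem_Icc]
      constructor
      · rintro ⟨⟨h1, h2⟩, h3⟩
        exact ⟨⟨Nat.pos_of_dvd_of_pos h1 (by omega), h3⟩, h1⟩
      · rintro ⟨⟨h1, h2⟩, h3⟩
        exact ⟨⟨h3, by omega⟩, h2⟩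
    · intro e _; rfl
  rw [Finset.sum_congr rfl h1, Finset.sum_comm]
  apply Finset.sum_congr rfl
  intro e he
  have he1 := (Finset.mem_Icc.mp he).1
  rw [← Finset.sum_filter, ← Finset.mul_sum]
  congr 1
  symm
  apply Finset.sum_nbij' (fun n => n / e - 1) (fun m => e * (m + 1))
  · intro n hn
    simp only [Finset.mem_filter, Finset.mem_Icc] at hn
    obtain ⟨⟨h1, h2⟩, k, rfl⟩ := hn
    rw [Nat.mul_div_cancel_left _ (by omega), Finset.mem_range]
    have hk : 1 ≤ k := by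
      rcases Nat.eq_zero_or_pos k with h | h
      · rw [h] at h1; omega
      · exact h
    have : k ≤ N0 / e := (Nat.le_div_iff_mul_le (by omega)).mpr (by rw [mul_comm]; exact h2)
    omega
  · intro m hm
    simp only [Finset.mem_filter, Finset.mem_Icc]
    rw [Finset.mem_range] at hm
    refine ⟨⟨?_, ?_⟩, Dvd.intro _ rfl⟩
    · have : 0 < e * (m + 1) := Nat.mul_pos (by omega) (by omega)
      omega
    · have h3 : (m + 1) * e ≤ N0 := (Nat.le_div_iff_mul_le (by omega)).mp hm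
      rw [mul_comm]; exact h3
  · intro n hn
    simp only [Finset.mem_filter, Finset.mem_Icc] at hn
    obtain ⟨⟨h1, h2⟩, k, rfl⟩ := hn
    rw [Nat.mul_div_cancel_left _ (by omega)]
    have hk : 1 ≤ k := by
      rcases Nat.eq_zero_or_pos k with h | h
      · rw [h] at h1; omega
      · exact h
    rw [Nat.sub_add_cancel hk]
  · intro m _
    rw [Nat.mul_div_cancel_left _ (by omega), Nat.add_sub_cancel]
  · intro n hn
    simp only [Finset.mem_filter, Finset.mem_Icc] at hn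
    obtain ⟨⟨h1, h2⟩, k, rfl⟩ := hn
    rw [Nat.mul_div_cancel_left _ (by omega)]
    have hk : 1 ≤ k := by
      rcases Nat.eq_zero_or_pos k with h | h
      · rw [h] at h1; omega
      · exact h
    rw [Nat.sub_add_cancel hk]

theorem S2_le : ∑' m : ℕ, 1 / ((m : ℝ) + 1) ^ 2 ≤ 2 := by
  have h1 := hasSum_zeta_two
  have h2 : HasSum (fun m : ℕ => 1 / ((m : ℝ) + 1) ^ 2) (Real.pi ^ 2 / 6) := by
    have h3 := (hasSum_nat_add_iff' 1).mpr h1
    simp only [Finset.range_one, Finset.sum_singleton, Nat.cast_zero] at h3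
    norm_num at h3
    norm_num
    exact h3
  rw [h2.tsum_eq]
  have h3 := Real.pi_lt_d2
  have h4 := Real.pi_gt_three
  (clear * - h3 h4; nlinarith)

theorem S2_summable : Summable (fun m : ℕ => 1 / ((m : ℝ) + 1) ^ 2) := by
  have h1 := (summable_nat_add_iff 1).mpr hasSum_zeta_two.summable
  simpa using h1

/-- pointwise tail bound -/
theorem Phi_tail {K V L1 : ℝ} (hK : 2 ≤ K) {n : ℕ} (hn : 0 < n)
    (hV : V + L1 ≤ Real.log n) :
    Phi (V - Real.log n) ≤ Real.exp (K ^ 2 + 2 * V - (K - 2) * L1) * (1 / (n : ℝ) ^ 2) := by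
  have hn0 : (0 : ℝ) < n := by exact_mod_cast hn
  refine (Phi_le K (by (clear * - hK; linarith)) _).trans ?_
  have h1 : 1 / (n : ℝ) ^ 2 = Real.exp (-2 * Real.log n) := by
    rw [show -2 * Real.log n = Real.log n * (-2) by ring, ← Real.rpow_def_of_pos hn0,
      Real.rpow_neg hn0.le, one_div]
    norm_num
  rw [h1, ← Real.exp_add]
  apply Real.exp_le_exp.mpr
  have h2 : (K - 2) * (V - Real.log n) ≤ (K - 2) * (-L1) :=
    mul_le_mul_of_nonneg_left (by (clear * - hV; linarith)) (by linarith)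
  (clear * - h2; nlinarith)

theorem In_tail {ρ : ℂ} (hρ : 0 ≤ ρ.re) {K V L1 : ℝ} (hK : 2 ≤ K) {N0 e : ℕ} (he : 1 ≤ e)
    (hN0 : 0 < N0) (hV : V + L1 ≤ Real.log N0) :
    ‖In ρ V e - ∑ m ∈ range (N0 / e), ((m : ℂ) + 1) ^ (-ρ) *
      (Phi (V - Real.log ((e * (m + 1) : ℕ) : ℝ)) : ℂ)‖ ≤
      2 * Real.exp (K ^ 2 + 2 * V - (K - 2) * L1) := by
  set f : ℕ → ℂ := fun m => ((m : ℂ) + 1) ^ (-ρ) * (Phi (V - Real.log ((e * (m + 1) : ℕ) : ℝ)) : ℂ)
    with hf
  have he0 : (0 : ℝ) < e := by exact_mod_cast he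
  have hlog : ∀ m : ℕ, Real.log ((e * (m + 1) : ℕ) : ℝ) = Real.log e + Real.log ((m : ℝ) + 1) := by
    intro m
    push_cast
    rw [Real.log_mul he0.ne' (by (clear * -; positivity))]
  have hIn : In ρ V e = ∑' m, f m := by
    unfold In
    apply tsum_congr
    intro m
    simp only [hf]
    rw [hlog]
    congr 3
    ring
  have hcp : ∀ m : ℕ, ‖((m : ℂ) + 1) ^ (-ρ)‖ ≤ 1 := by
    intro m
    have := norm_natCast_cpow_neg_le (d := m + 1) (by omega) hρ
    push_cast at this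
    exact this
  have hfn : ∀ m, ‖f m‖ ≤ Phi (V - Real.log ((e * (m + 1) : ℕ) : ℝ)) := by
    intro m
    simp only [hf]
    rw [norm_mul, Complex.norm_real, Real.norm_of_nonneg (Phi_nonneg _)]
    have := Phi_nonneg (V - Real.log ((e * (m + 1) : ℕ) : ℝ))
    have := hcp m
    nlinarith [norm_nonneg (((m : ℂ) + 1) ^ (-ρ))]
  set A : ℝ := Real.exp (K ^ 2 + 2 * V - (K - 2) * L1) with hA
  have htail : ∀ m : ℕ, ‖f (m + N0 / e)‖ ≤ A * (1 / ((m : ℝ) + 1) ^ 2) := by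
    intro m
    refine (hfn _).trans ?_
    have h1 : N0 < e * (m + N0 / e + 1) := by
      have := Nat.lt_mul_div_succ N0 (show 0 < e by omega)
      have h2 : e * (N0 / e + 1) ≤ e * (m + N0 / e + 1) := Nat.mul_le_mul_left _ (by omega)
      omega
    have h2 : V + L1 ≤ Real.log ((e * (m + N0 / e + 1) : ℕ) : ℝ) := by
      refine hV.trans (Real.log_le_log (by exact_mod_cast hN0) ?_)
      exact_mod_cast h1.le
    refine (Phi_tail hK (by omega) h2).trans ?_
    rw [← hA]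
    have h3 : (m : ℝ) + 1 ≤ ((e * (m + N0 / e + 1) : ℕ) : ℝ) := by
      have h4 : m + 1 ≤ e * (m + N0 / e + 1) := by
        have h5 : 1 * (m + N0 / e + 1) ≤ e * (m + N0 / e + 1) := Nat.mul_le_mul_right _ he
        have h6 : m + 1 ≤ m + N0 / e + 1 := by
          have := Nat.zero_le (N0 / e)
          (clear * - this; linarith)
        (clear * - h5 h6; linarith)
      exact_mod_cast h4
    have h5 : 0 < A := Real.exp_pos _
    gcongr
  have hsum' : Summable (fun m => f (m + N0 / e)) :=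
    Summable.of_norm_bounded (S2_summable.mul_left A) htail
  have hsum : Summable f := (summable_nat_add_iff (N0 / e)).mp hsum'
  rw [hIn, ← hsum.sum_add_tsum_nat_add (N0 / e), add_sub_cancel_left]
  refine (tsum_of_norm_bounded (S2_summable.mul_left A).hasSum htail).trans ?_
  rw [tsum_mul_left]
  have := S2_le
  have h5 : 0 < A := Real.exp_pos _
  (clear * - this h5; nlinarith)

/-- passing from the infinite smoothed sums to the finite one -/
theorem finite_sum {ρ : ℂ} (hρ : 0 ≤ ρ.re) {K V L1 : ℝ} (hK : 2 ≤ K) {N0 : ℕ} (D : ℕ)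
    (hN0 : 0 < N0) (hV : V + L1 ≤ Real.log N0) :
    ‖∑ d ∈ Icc 1 D, (ArithmeticFunction.moebius d : ℂ) * (d : ℂ) ^ (-ρ) * In ρ V d -
      ∑ n ∈ Icc 1 N0, (an D n * (Phi (V - Real.log n) : ℂ)) * (n : ℂ) ^ (-ρ)‖ ≤
      D * (2 * Real.exp (K ^ 2 + 2 * V - (K - 2) * L1)) := by
  have h1 := rearrange D N0 (fun n => (n : ℂ) ^ (-ρ) * (Phi (V - Real.log n) : ℂ))
  have h2 : ∑ n ∈ Icc 1 N0, (an D n * (Phi (V - Real.log n) : ℂ)) * (n : ℂ) ^ (-ρ) =
      ∑ n ∈ Icc 1 N0, an D n * ((n : ℂ) ^ (-ρ) * (Phi (V - Real.log n) : ℂ)) := by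
    apply Finset.sum_congr rfl
    intro n _
    ring
  rw [h2, ← h1, ← Finset.sum_sub_distrib]
  refine (norm_sum_le _ _).trans ?_
  have h3 : ∀ e ∈ Icc 1 D, ‖(ArithmeticFunction.moebius e : ℂ) * (e : ℂ) ^ (-ρ) * In ρ V e -
      (ArithmeticFunction.moebius e : ℂ) * ∑ m ∈ range (N0 / e),
        ((e * (m + 1) : ℕ) : ℂ) ^ (-ρ) * (Phi (V - Real.log ((e * (m + 1) : ℕ) : ℝ)) : ℂ)‖ ≤
      2 * Real.exp (K ^ 2 + 2 * V - (K - 2) * L1) := by
    intro e he
    have he1 := (Finset.mem_Icc.mp he).1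
    have h4 : ∑ m ∈ range (N0 / e),
        ((e * (m + 1) : ℕ) : ℂ) ^ (-ρ) * (Phi (V - Real.log ((e * (m + 1) : ℕ) : ℝ)) : ℂ) =
        (e : ℂ) ^ (-ρ) * ∑ m ∈ range (N0 / e), ((m : ℂ) + 1) ^ (-ρ) *
          (Phi (V - Real.log ((e * (m + 1) : ℕ) : ℝ)) : ℂ) := by
      rw [Finset.mul_sum]
      apply Finset.sum_congr rfl
      intro m _
      have h5 : ((e * (m + 1) : ℕ) : ℂ) ^ (-ρ) = (e : ℂ) ^ (-ρ) * ((m : ℂ) + 1) ^ (-ρ) := by
        have := Complex.natCast_mul_natCast_cpow e (m + 1) (-ρ)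
        push_cast at this ⊢
        exact this
      rw [h5]
      ring
    rw [h4, show (ArithmeticFunction.moebius e : ℂ) * (e : ℂ) ^ (-ρ) * In ρ V e -
      (ArithmeticFunction.moebius e : ℂ) * ((e : ℂ) ^ (-ρ) * ∑ m ∈ range (N0 / e),
        ((m : ℂ) + 1) ^ (-ρ) * (Phi (V - Real.log ((e * (m + 1) : ℕ) : ℝ)) : ℂ)) =
      ((ArithmeticFunction.moebius e : ℂ) * (e : ℂ) ^ (-ρ)) * (In ρ V e - ∑ m ∈ range (N0 / e),
        ((m : ℂ) + 1) ^ (-ρ) * (Phi (V - Real.log ((e * (m + 1) : ℕ) : ℝ)) : ℂ)) by ring, norm_mul,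
      norm_mul]
    have h6 := In_tail hρ hK he1 hN0 hV
    have h7 := moebius_norm_le e
    have h8 := norm_natCast_cpow_neg_le he1 hρ
    have h9 : ‖(ArithmeticFunction.moebius e : ℂ)‖ * ‖(e : ℂ) ^ (-ρ)‖ ≤ 1 := by
      have := norm_nonneg ((e : ℂ) ^ (-ρ))
      have := norm_nonneg (ArithmeticFunction.moebius e : ℂ)
      nlinarith
    have h10 := norm_nonneg (In ρ V e - ∑ m ∈ range (N0 / e),
        ((m : ℂ) + 1) ^ (-ρ) * (Phi (V - Real.log ((e * (m + 1) : ℕ) : ℝ)) : ℂ))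
    calc _ ≤ 1 * _ := mul_le_mul_of_nonneg_right h9 h10
      _ ≤ _ := by rw [one_mul]; exact h6
  refine (Finset.sum_le_card_nsmul _ _ _ h3).trans ?_
  rw [nsmul_eq_mul]
  simp

/-- dyadic decomposition -/
theorem dyadic (g : ℕ → ℂ) (s : ℂ) (I : ℕ) :
    ∑ n ∈ Icc 1 (2 ^ I), g n * (n : ℂ) ^ (-s) = g 1 + ∑ i ∈ range I, DP g (2 ^ i) 2 s := by
  induction I with
  | zero => simp
  | succ I ih =>
    rw [Finset.sum_range_succ, ← add_assoc, ← ih]
    unfold DP
    have h1 : Icc 1 (2 ^ (I + 1)) = Icc 1 (2 ^ I) ∪ Ioc (2 ^ I) (2 * 2 ^ I) := by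
      ext n
      simp only [Finset.mem_union, Finset.mem_Icc, Finset.mem_Ioc]
      have h2 : 2 ^ (I + 1) = 2 * 2 ^ I := by ring
      have h3 : 1 ≤ 2 ^ I := Nat.one_le_two_pow
      rw [h2]
      omega
    rw [h1, Finset.sum_union]
    rw [Finset.disjoint_left]
    intro n hn hn'
    have h2 := (Finset.mem_Icc.mp hn).2
    have h3 := (Finset.mem_Ioc.mp hn').1
    omega

end Pool.Agent.M17.Helper26.KC
end

/- Helper53.KN.Helper26.KC.D5 -/
section
/-!
# KC-10, part 5: detection of zeros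
-/

set_option autoImplicit false
open MeasureTheory Filter Topology Finset

namespace Pool.Agent.M17.Helper26.KC

open Pool.Agent.M17.Helper69.QRH Pool.Agent.M17.Helper60.KS

theorem exp_ge (y : ℝ) (hy : 8 ≤ y) : 41 ≤ Real.exp y := by
  have := Real.quadratic_le_exp_of_nonneg (show (0 : ℝ) ≤ y by linarith)
  (clear * - hy this; nlinarith)

theorem b1_aux {Cz δ L : ℝ} (_hCz : 0 ≤ Cz) (hδ : 0 < δ) (hL : 33792 * Cz / δ ^ 2 ≤ L) (hL1 : 1 ≤ L) :
    8448 * Cz * L * Real.exp (-(2.9 * δ * L)) ≤ 1 / 16 := by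
  have h0 : 0 ≤ 2.9 * δ * L := by positivity
  have h1 := Real.quadratic_le_exp_of_nonneg h0
  have h2 : 4 * (δ * L) ^ 2 ≤ Real.exp (2.9 * δ * L) := by
    have : (2.9 * δ * L) ^ 2 / 2 = 4.205 * (δ * L) ^ 2 := by ring
    (clear * - h0 h1; nlinarith [sq_nonneg (δ * L)])
  rw [Real.exp_neg, ← div_eq_mul_inv, div_le_iff₀ (Real.exp_pos _)]
  have h3 : 33792 * Cz ≤ L * δ ^ 2 := by
    rwa [div_le_iff₀ (by positivity)] at hL
  have h4 : 8448 * Cz * L ≤ 1 / 4 * (L * δ ^ 2) * L := by (clear * - h3 hL1; nlinarith)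
  (clear * - h0 h1 h4; nlinarith)

theorem b1 {δ d s0 μ0 Cz L x β γ V : ℝ} {D : ℕ} (hδ : 0 < δ) (hδ' : δ ≤ 1 / 1000)
    (hd : 0 < d) (hd' : d ≤ δ) (hs1 : s0 ≤ 1 / 2) (hμ0 : 0 ≤ μ0) (hμ1 : μ0 ≤ 1)
    (hCz : 0 ≤ Cz) (hL2 : 33792 * Cz / δ ^ 2 ≤ L) (hL1 : 10 ≤ L)
    (hx' : x ≤ 0.4 + δ) (hβ : 1 - x ≤ β)
    (hγ : |γ| ≤ Real.exp ((1 / 2 + 2 * d) * L) + 1) (hD : (D : ℝ) ≤ Real.exp (δ * L))
    (hV : V = ((1 / 2 + 2 * d) * (μ0 / (1 - x - s0)) + 40 * δ) * L) (hV0 : 0 ≤ V) :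
    32 * Cz * (2 + |γ|) ^ μ0 * Real.log (2 + |γ|) * D * Real.exp (1 - (β - s0) * V) / (β - s0) ≤
      1 / 16 := by
  have hη : 0.099 ≤ 1 - x - s0 := by (clear * - hδ' hs1 hx'; linarith)
  have hη0 : 0 < 1 - x - s0 := by (clear * - hδ hδ' hs1 hx'; linarith)
  have hηV : (1 - x - s0) * V = ((1 / 2 + 2 * d) * μ0 + 40 * δ * (1 - x - s0)) * L := by
    rw [hV]
    field_simp
  have hexp1 : 1 ≤ Real.exp ((1 / 2 + 2 * d) * L) := Real.one_le_exp (by (clear * - hd hL1; positivity))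
  have h2g : 2 + |γ| ≤ 4 * Real.exp ((1 / 2 + 2 * d) * L) := by (clear * - hγ hexp1; linarith)
  have habs := abs_nonneg γ
  have e1 : (2 + |γ|) ^ μ0 ≤ 4 * Real.exp ((1 / 2 + 2 * d) * μ0 * L) := by
    calc (2 + |γ|) ^ μ0 ≤ (4 * Real.exp ((1 / 2 + 2 * d) * L)) ^ μ0 :=
          Real.rpow_le_rpow (by positivity) h2g hμ0
      _ = 4 ^ μ0 * Real.exp ((1 / 2 + 2 * d) * L) ^ μ0 :=
          Real.mul_rpow (by norm_num) (Real.exp_pos _).le
      _ = 4 ^ μ0 * Real.exp ((1 / 2 + 2 * d) * μ0 * L) := by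
          rw [← Real.exp_mul]; congr 2; ring
      _ ≤ 4 ^ (1 : ℝ) * Real.exp ((1 / 2 + 2 * d) * μ0 * L) := by
          gcongr
          norm_num
      _ = _ := by rw [Real.rpow_one]
  have e2 : Real.log (2 + |γ|) ≤ 2 * L := by
    calc Real.log (2 + |γ|) ≤ Real.log (4 * Real.exp ((1 / 2 + 2 * d) * L)) :=
          Real.log_le_log (by (clear * -; positivity)) h2g
      _ = Real.log 4 + (1 / 2 + 2 * d) * L := by
          rw [Real.log_mul (by norm_num) (Real.exp_pos _).ne', Real.log_exp]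
      _ ≤ 2 * L := by
          have h4 : Real.log 4 ≤ 3 := by
            have := Real.log_le_sub_one_of_pos (show (0 : ℝ) < 4 by norm_num)
            (clear * - this; linarith)
          (clear * - hδ' hd' hL1 h4 hδ; nlinarith)
  have e2' : 0 ≤ Real.log (2 + |γ|) := Real.log_nonneg (by (clear * - hδ hδ' habs; linarith))
  have e3 : Real.exp (1 - (β - s0) * V) ≤
      3 * Real.exp (-(((1 / 2 + 2 * d) * μ0 + 3.9 * δ) * L)) := by
    have h1 : ((1 / 2 + 2 * d) * μ0 + 3.9 * δ) * L ≤ (β - s0) * V := by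
      have h2 : (1 - x - s0) * V ≤ (β - s0) * V := mul_le_mul_of_nonneg_right (by (clear * - hβ; linarith)) hV0
      refine le_trans ?_ h2
      rw [hηV]
      apply mul_le_mul_of_nonneg_right _ (by (clear * - hδ hδ' hL1; linarith))
      (clear * - hδ hδ' hs1 hx'; nlinarith)
    calc Real.exp (1 - (β - s0) * V) ≤ Real.exp (1 + -(((1 / 2 + 2 * d) * μ0 + 3.9 * δ) * L)) :=
          Real.exp_le_exp.mpr (by (clear * - h1; linarith))
      _ = Real.exp 1 * Real.exp (-(((1 / 2 + 2 * d) * μ0 + 3.9 * δ) * L)) := Real.exp_add _ _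
      _ ≤ _ := by
          have := Real.exp_one_lt_d9
          gcongr
          (clear * - hδ hδ' this; linarith)
  have hβs : 0.099 ≤ β - s0 := by (clear * - hδ' hs1 hx' hβ; linarith)
  have e5 : Real.exp ((1 / 2 + 2 * d) * μ0 * L) * Real.exp (δ * L) *
      Real.exp (-(((1 / 2 + 2 * d) * μ0 + 3.9 * δ) * L)) = Real.exp (-(2.9 * δ * L)) := by
    rw [← Real.exp_add, ← Real.exp_add]
    congr 1
    ring
  have h6 := b1_aux hCz hδ hL2 (by (clear * - hδ hδ' hL1; linarith))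
  have hL0 : 0 ≤ L := by (clear * - hδ hδ' hL1; linarith)
  calc 32 * Cz * (2 + |γ|) ^ μ0 * Real.log (2 + |γ|) * D * Real.exp (1 - (β - s0) * V) / (β - s0)
      ≤ 32 * Cz * (4 * Real.exp ((1 / 2 + 2 * d) * μ0 * L)) * (2 * L) * Real.exp (δ * L) *
        (3 * Real.exp (-(((1 / 2 + 2 * d) * μ0 + 3.9 * δ) * L))) / (1 / 11) := by
        gcongr
        (clear * - hδ hδ' hs1 hx' hβ; linarith)
    _ = 8448 * Cz * L * (Real.exp ((1 / 2 + 2 * d) * μ0 * L) * Real.exp (δ * L) *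
        Real.exp (-(((1 / 2 + 2 * d) * μ0 + 3.9 * δ) * L))) := by ring
    _ ≤ 1 / 16 := by rw [e5]; exact h6

theorem core {δ d s0 μ0 Cz : ℝ} (hδ : 0 < δ) (hδ' : δ ≤ 1 / 1000) (hd : 0 < d) (hd' : d ≤ δ)
    (hs0 : 2 / 7 ≤ s0) (hs1 : s0 ≤ 1 / 2) (hμ0 : 0 ≤ μ0) (hμ1 : μ0 ≤ 1) (hCz : 0 ≤ Cz)
    (hz : ∀ τ : ℝ, ‖riemannZeta (s0 + τ * Complex.I)‖ ≤ Cz * (2 + |τ|) ^ μ0 * Real.log (2 + |τ|)) :
    ∃ L0 : ℝ, ∀ L : ℝ, L0 ≤ L → ∀ x : ℝ, 0 < x → x ≤ 0.4 + δ → μ0 / (1 - x - s0) ≤ 1 →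
    ∃ g : ℕ → ℂ, (∀ n, ‖g n‖ ≤ (n.divisors.card : ℝ)) ∧
    ∀ ρ : ℂ, riemannZeta ρ = 0 → 1 - x ≤ ρ.re → L ^ 2 ≤ |ρ.im| →
    |ρ.im| ≤ Real.exp ((1 / 2 + 2 * d) * L) + 1 →
    ∃ i : ℕ, Real.exp (δ * L) / 2 ≤ (2 : ℝ) ^ i ∧
      (2 : ℝ) ^ i ≤ Real.exp ((μ0 / (1 - x - s0) / 2 + 45 * δ) * L) ∧
      1 / (16 * L) ≤ ‖DP g (2 ^ i) 2 ρ‖ := by
  set K : ℝ := 2 + 4 / δ with hK
  have hK2 : 2 ≤ K := by
    have : 0 < 4 / δ := by positivity
    (clear * - this; linarith)
  refine ⟨max (max 10 (33792 * Cz / δ ^ 2)) (max (2 * (K ^ 2 + 8)) (1 / δ)), ?_⟩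
  intro L hL x hx hx' hκ
  have hL1 : 10 ≤ L := (le_max_left _ _).trans ((le_max_left _ _).trans hL)
  have hL2 : 33792 * Cz / δ ^ 2 ≤ L := (le_max_right _ _).trans ((le_max_left _ _).trans hL)
  have hL3 : 2 * (K ^ 2 + 8) ≤ L := (le_max_left _ _).trans ((le_max_right _ _).trans hL)
  have hL4 : 1 ≤ δ * L := by
    have : 1 / δ ≤ L := (le_max_right _ _).trans ((le_max_right _ _).trans hL)
    rw [div_le_iff₀ hδ] at this
    (clear * - this; linarith)
  have hη0 : 0 < 1 - x - s0 := by (clear * - hδ hδ' hs1 hx'; linarith)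
  set κ : ℝ := μ0 / (1 - x - s0) with hκdef
  have hκ0 : 0 ≤ κ := by rw [hκdef]; (clear * - hμ0 hη0; positivity)
  set V : ℝ := ((1 / 2 + 2 * d) * κ + 40 * δ) * L with hV
  have hL0 : 0 ≤ L := by (clear * - hδ hδ' hL1; linarith)
  have hV0 : 0 ≤ V := by rw [hV]; (clear * - hd hμ0 hη0 hδ hL1; positivity)
  have hV1 : 40 * (δ * L) ≤ V := by
    rw [hV]
    have : 0 ≤ (1 / 2 + 2 * d) * κ * L := by (clear * - hd hμ0 hη0 hL1; positivity)
    (clear * - this; nlinarith)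
  have hVL : V ≤ 0.6 * L := by
    rw [hV]
    apply mul_le_mul_of_nonneg_right _ hL0
    have : (1 / 2 + 2 * d) * κ ≤ (1 / 2 + 2 * d) * 1 := mul_le_mul_of_nonneg_left hκ (by positivity)
    (clear * - hδ hδ' hd' this; linarith)
  set D : ℕ := ⌊Real.exp (δ * L)⌋₊ with hD
  have hD1 : 1 ≤ D := by
    rw [hD, Nat.one_le_floor_iff]
    exact Real.one_le_exp (by positivity)
  have hDle : (D : ℝ) ≤ Real.exp (δ * L) := Nat.floor_le (Real.exp_pos _).le
  set g : ℕ → ℂ := fun n => an D n * (Phi (V - Real.log n) : ℂ) with hg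
  refine ⟨g, ?_, ?_⟩
  · intro n
    simp only [hg]
    rw [norm_mul, Complex.norm_real, Real.norm_of_nonneg (Phi_nonneg _)]
    have h1 := an_norm_le D n
    have h2 := Phi_le_one (V - Real.log n)
    have h3 := Phi_nonneg (V - Real.log n)
    have h4 := norm_nonneg (an D n)
    (clear * - h2 hδ hδ' h1 h3; nlinarith)
  intro ρ hρ hβ hγ1 hγ2
  have hβ1 : ρ.re ≤ 1 := by
    by_contra h
    push Not at h
    exact riemannZeta_ne_zero_of_one_le_re h.le hρ
  have hρs0 : s0 < ρ.re := by (clear * - hδ hδ' hs1 hx' hβ; linarith)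
  have hρ0 : 0 ≤ ρ.re := by (clear * - hδ hδ' hx' hβ; linarith)
  have hL100 : 100 ≤ L ^ 2 := by (clear * - hδ' hL4 hδ hL1; nlinarith)
  have hγge : 1 ≤ |ρ.im| := by (clear * - hδ hδ' hγ1 hL100; linarith)
  have hmel := mellin_bound hμ0 hμ1 hCz hs0 hs1 hz hρ hρs0 hβ1 hγge hV0 D
  have hB1 := b1 (D := D) hδ hδ' hd hd' hs1 hμ0 hμ1 hCz hL2 hL1 hx' hβ hγ2 hDle hV hV0
  have hB2 : 300 * (D * Real.exp (V - ρ.im ^ 2)) ≤ 1 / 16 := by
    have h1 : (L ^ 2) ^ 2 ≤ ρ.im ^ 2 := by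
      have := pow_le_pow_left₀ (by positivity) hγ1 2
      rwa [sq_abs] at this
    have h2 : 100 * L ≤ (L ^ 2) ^ 2 := by (clear * - hδ' hL4 hL100 hδ hL1; nlinarith)
    have h3 : (D : ℝ) * Real.exp (V - ρ.im ^ 2) ≤ Real.exp (-(98 * L)) := by
      calc (D : ℝ) * Real.exp (V - ρ.im ^ 2) ≤ Real.exp (δ * L) * Real.exp (V - ρ.im ^ 2) := by (clear * - hDle; gcongr)
        _ = Real.exp (δ * L + (V - ρ.im ^ 2)) := (Real.exp_add _ _).symm
        _ ≤ _ := Real.exp_le_exp.mpr (by (clear * - hδ hδ' hL4 hV1 hVL h1 h2; nlinarith))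
    have h4 : Real.exp (-(98 * L)) ≤ 1 / 4800 := by
      rw [Real.exp_neg, ← one_div, div_le_div_iff_of_pos_left one_pos (Real.exp_pos _) (by norm_num)]
      have h5 := Real.quadratic_le_exp_of_nonneg (show (0 : ℝ) ≤ 98 * L by positivity)
      (clear * - hδ hδ' hL4 hV1 hVL hL100 h5; nlinarith)
    (clear * - h3 h4; linarith)
  obtain ⟨n, hn1, hn2⟩ := exists_nat_pow_near (x := Real.exp (V + δ * L)) (y := 2)
    (Real.one_le_exp (by (clear * - hd hμ0 hη0 hδ hL1; positivity))) (by norm_num)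
  have hlogN : V + δ * L ≤ Real.log ((2 ^ (n + 1) : ℕ) : ℝ) := by
    rw [Real.le_log_iff_exp_le (by positivity)]
    push_cast
    exact hn2.le
  have hfin := finite_sum (ρ := ρ) hρ0 (K := K) (V := V) (L1 := δ * L) hK2 (N0 := 2 ^ (n + 1)) D
    (by positivity) hlogN
  have hB3 : (D : ℝ) * (2 * Real.exp (K ^ 2 + 2 * V - (K - 2) * (δ * L))) ≤ 1 / 16 := by
    have h1 : (K - 2) * (δ * L) = 4 * L := by
      rw [hK]; field_simp; ring
    rw [h1]
    calc (D : ℝ) * (2 * Real.exp (K ^ 2 + 2 * V - 4 * L))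
        ≤ Real.exp (δ * L) * (2 * Real.exp (K ^ 2 + 2 * V - 4 * L)) := by (clear * - hDle; gcongr)
      _ = 2 * Real.exp (δ * L + (K ^ 2 + 2 * V - 4 * L)) := by rw [Real.exp_add]; ring
      _ ≤ 2 * Real.exp (-(L / 2 + 0)) := by
          gcongr
          (clear * - hδ hδ' hL3 hL4 hV1 hVL; nlinarith)
      _ ≤ 1 / 16 := by
          rw [Real.exp_neg, ← div_eq_mul_inv, div_le_iff₀ (Real.exp_pos _)]
          have := exp_ge (L / 2 + 0) (by (clear * - hδ hδ' hL4 hV1 hVL K; nlinarith [sq_nonneg K]))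
          (clear * - hδ hδ' this; linarith)
  have hB4 : 1 - Phi V ≤ 1 / 16 := by
    refine (one_sub_Phi_le 1 le_rfl V).trans ?_
    have h1 : (1 : ℝ) ^ 2 - 1 * V = -(V - 1) := by ring
    rw [h1, Real.exp_neg, ← one_div, div_le_div_iff_of_pos_left one_pos (Real.exp_pos _) (by norm_num)]
    have := exp_ge (V - 1) (by (clear * - hδ hδ' hL4 hV1; linarith))
    (clear * - hδ hδ' this; linarith)
  have hdy := dyadic g ρ (n + 1)
  have hg1 : g 1 = (Phi V : ℂ) := by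
    simp only [hg]
    rw [an_one hD1]
    simp
  -- lower bound for the sum of the blocks
  have hlow : 1 / 2 < ‖∑ i ∈ range (n + 1), DP g (2 ^ i) 2 ρ‖ := by
    set S : ℂ := ∑ d ∈ Icc 1 D, (ArithmeticFunction.moebius d : ℂ) * (d : ℂ) ^ (-ρ) * In ρ V d with hS
    set T : ℂ := ∑ n ∈ Icc 1 (2 ^ (n + 1)), g n * (n : ℂ) ^ (-ρ) with hT
    have h1 : ‖S‖ ≤ 1 / 16 + 1 / 16 := hmel.trans (add_le_add hB1 hB2)
    have h2 : ‖S - T‖ ≤ 1 / 16 := hfin.trans hB3
    have h3 : ‖T‖ ≤ 3 / 16 := by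
      have := norm_sub_norm_le T S
      rw [norm_sub_rev] at this
      (clear * - hB1 hB2 hB3 hmel hfin this; linarith)
    have h4 : ∑ i ∈ range (n + 1), DP g (2 ^ i) 2 ρ = T - (Phi V : ℂ) := by
      rw [hdy, hg1]; ring
    rw [h4]
    have h5 := norm_sub_norm_le (Phi V : ℂ) T
    rw [norm_sub_rev, Complex.norm_real, Real.norm_of_nonneg (Phi_nonneg _)] at h5
    (clear * - hδ hδ' hB4 h3 h5; linarith)
  have hlog2 := Real.log_two_gt_d9
  have hnL : ((n : ℝ) + 1) ≤ 8 * L := by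
    have h1 : (n : ℝ) * Real.log 2 ≤ V + δ * L := by
      have h2 := Real.log_le_log (by positivity) hn1
      rwa [Real.log_pow, Real.log_exp] at h2
    have h2 : (n : ℝ) * (1 / 2) ≤ (n : ℝ) * Real.log 2 :=
      mul_le_mul_of_nonneg_left (by (clear * - hδ hδ' hlog2; linarith)) (Nat.cast_nonneg _)
    (clear * - hδ hδ' hL4 hV1 hVL h1 h2; nlinarith)
  have hex : ∃ i ∈ range (n + 1), 1 / (16 * L) ≤ ‖DP g (2 ^ i) 2 ρ‖ := by
    by_contra hcon
    push Not at hcon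
    have h1 : ‖∑ i ∈ range (n + 1), DP g (2 ^ i) 2 ρ‖ ≤ (n + 1 : ℕ) * (1 / (16 * L)) := by
      refine (norm_sum_le _ _).trans ?_
      refine (Finset.sum_le_card_nsmul _ _ _ fun i hi => (hcon i hi).le).trans ?_
      rw [Finset.card_range, nsmul_eq_mul]
    have h2 : ((n + 1 : ℕ) : ℝ) * (1 / (16 * L)) ≤ 1 / 2 := by
      rw [mul_one_div, div_le_iff₀ (by positivity)]
      push_cast
      (clear * - hnL; linarith)
    (clear * - hlow h1 h2; linarith)
  obtain ⟨i, hi, hDP⟩ := hex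
  rw [Finset.mem_range] at hi
  refine ⟨i, ?_, ?_, hDP⟩
  · by_contra hcon
    push Not at hcon
    have h1 : 2 * 2 ^ i ≤ D := by
      rw [hD]
      apply Nat.le_floor
      push_cast
      (clear * - hcon; linarith)
    have h2 : DP g (2 ^ i) 2 ρ = 0 := by
      unfold DP
      apply Finset.sum_eq_zero
      intro m hm
      rw [Finset.mem_Ioc] at hm
      have h3 : 1 ≤ 2 ^ i := Nat.one_le_two_pow
      have h4 : an D m = 0 := an_zero (by (clear * - δ L n hm h3; omega)) (by omega)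
      simp only [hg]
      rw [h4, zero_mul, zero_mul]
    rw [h2, norm_zero] at hDP
    have : 0 < 1 / (16 * L) := by positivity
    (clear * - hDP this; linarith)
  · calc (2 : ℝ) ^ i ≤ 2 ^ n := pow_le_pow_right₀ (by norm_num) (by omega)
      _ ≤ Real.exp (V + δ * L) := hn1
      _ ≤ _ := by
          apply Real.exp_le_exp.mpr
          rw [hV]
          have h1 : 2 * d * κ ≤ 2 * δ * 1 := by
            apply mul_le_mul (by (clear * - hd'; linarith)) hκ hκ0 (by (clear * - hδ; linarith))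
          have h2 : ((1 / 2 + 2 * d) * κ + 40 * δ) + δ ≤ κ / 2 + 45 * δ := by (clear * - hδ h1; nlinarith)
          calc ((1 / 2 + 2 * d) * κ + 40 * δ) * L + δ * L
              = (((1 / 2 + 2 * d) * κ + 40 * δ) + δ) * L := by ring
            _ ≤ _ := mul_le_mul_of_nonneg_right h2 hL0

theorem detect (h5 : A5) (h7 : A7) : Detect := by
  intro δ d hδ hδ' hd hd'
  obtain ⟨C5, hC5, hA5, _⟩ := h5
  obtain ⟨C7, hC7, hA7⟩ := h7
  obtain ⟨Ca, hCa, ha⟩ := zline (s0 := 1 / 2) (μ0 := 1 / 6) (by norm_num) (by norm_num) hC5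
    (fun t ht => by
      have := hA5 t ht
      push_cast
      exact this)
  obtain ⟨Cb, hCb, hb⟩ := zline (s0 := 2 / 7) (μ0 := 2 / 7) (by norm_num) (by norm_num) hC7
    (fun t ht => by
      have := hA7 t ht
      push_cast
      exact this)
  obtain ⟨La, hLa⟩ := core hδ hδ' hd hd' (s0 := 1 / 2) (μ0 := 1 / 6) (by norm_num) (by norm_num)
    (by norm_num) (by norm_num) hCa ha
  obtain ⟨Lb, hLb⟩ := core hδ hδ' hd hd' (s0 := 2 / 7) (μ0 := 2 / 7) (by norm_num) (by norm_num)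
    (by norm_num) (by norm_num) hCb hb
  refine ⟨Real.exp (max La Lb), ?_⟩
  intro X x hX hx hx'
  have hX0 : 0 < X := (Real.exp_pos _).trans_le hX
  set L : ℝ := Real.log X with hL
  have hLge : max La Lb ≤ L := by
    rw [hL, Real.le_log_iff_exp_le hX0]; exact hX
  have hpow : ∀ a : ℝ, X ^ a = Real.exp (a * L) := by
    intro a
    rw [Real.rpow_def_of_pos hX0, mul_comm]
  have hden1 : (0 : ℝ) < 1 - 2 * x := by linarith
  have hden2 : (0 : ℝ) < 5 / 7 - x := by (clear * - hδ hδ' hx'; linarith)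
  have h2le : (2 / 7 : ℝ) / (5 / 7 - x) ≤ 1 := by
    rw [div_le_one hden2]; linarith
  have key : ∀ s0 μ0 : ℝ, yy x = μ0 / (1 - x - s0) →
      (∃ g : ℕ → ℂ, (∀ n, ‖g n‖ ≤ (n.divisors.card : ℝ)) ∧
        ∀ ρ : ℂ, riemannZeta ρ = 0 → 1 - x ≤ ρ.re → L ^ 2 ≤ |ρ.im| →
        |ρ.im| ≤ Real.exp ((1 / 2 + 2 * d) * L) + 1 →
        ∃ i : ℕ, Real.exp (δ * L) / 2 ≤ (2 : ℝ) ^ i ∧
          (2 : ℝ) ^ i ≤ Real.exp ((μ0 / (1 - x - s0) / 2 + 45 * δ) * L) ∧
          1 / (16 * L) ≤ ‖DP g (2 ^ i) 2 ρ‖) →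
      ∃ g : ℕ → ℂ, (∀ n, ‖g n‖ ≤ (n.divisors.card : ℝ)) ∧
        ∀ ρ : ℂ, riemannZeta ρ = 0 → 1 - x ≤ ρ.re → Real.log X ^ 2 ≤ |ρ.im| →
        |ρ.im| ≤ X ^ (1/2 + 2 * d) + 1 →
        ∃ i : ℕ, X ^ δ / 2 ≤ (2 : ℝ) ^ i ∧ (2 : ℝ) ^ i ≤ X ^ (yy x / 2 + 45 * δ) ∧
          1 / (16 * Real.log X) ≤ ‖DP g (2 ^ i) 2 ρ‖ := by
    intro s0 μ0 hyy ⟨g, hg1, hg2⟩
    refine ⟨g, hg1, ?_⟩
    intro ρ hρ hβ hγ1 hγ2
    rw [hpow] at hγ2
    obtain ⟨i, hi1, hi2, hi3⟩ := hg2 ρ hρ hβ hγ1 hγ2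
    refine ⟨i, ?_, ?_, hi3⟩
    · rw [hpow]; exact hi1
    · rw [hpow, hyy]; exact hi2
  rcases le_total ((1/3 : ℝ) / (1 - 2 * x)) ((2/7) / (5/7 - x)) with hle | hle
  · apply key (1 / 2) (1 / 6)
    · unfold yy
      rw [min_eq_left hle]
      rw [div_eq_div_iff hden1.ne' (by (clear * - hδ hδ' hx'; linarith))]
      ring
    · apply hLa L ((le_max_left _ _).trans hLge) x hx hx'
      have : (1 / 6 : ℝ) / (1 - x - 1 / 2) = (1/3) / (1 - 2 * x) := by
        rw [div_eq_div_iff (by (clear * - hδ hδ' hx'; linarith)) hden1.ne']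
        ring
      rw [this]
      exact hle.trans h2le
  · apply key (2 / 7) (2 / 7)
    · unfold yy
      rw [min_eq_right hle]
      congr 1
      ring
    · apply hLb L ((le_max_right _ _).trans hLge) x hx hx'
      have : (1 : ℝ) - x - 2 / 7 = 5 / 7 - x := by ring
      rw [this]
      exact h2le

end Pool.Agent.M17.Helper26.KC
end

/- Helper53.KN.Helper60.KC.DetectG -/
section
/-!
# Detection of zeros, general height exponent (adapted from helper26's `D5`)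
-/

set_option autoImplicit false
set_option maxHeartbeats 4000000
open MeasureTheory Filter Topology Finset

namespace Pool.Agent.M17.Helper60.KC

open Pool.Agent.M17.Helper26.KC Pool.Agent.M17.Helper69.QRH Pool.Agent.M17.Helper60.KS

theorem b1G {ta δ d s0 μ0 Cz L x β γ V : ℝ} {D : ℕ} (hta1 : 1/4 ≤ ta) (hta2 : ta ≤ 1/2) (hδ : 0 < δ) (hδ' : δ ≤ 1 / 1000)
    (hd : 0 < d) (hd' : d ≤ δ) (hs1 : s0 ≤ 1 / 2) (hμ0 : 0 ≤ μ0) (hμ1 : μ0 ≤ 1)
    (hCz : 0 ≤ Cz) (hL2 : 33792 * Cz / δ ^ 2 ≤ L) (hL1 : 10 ≤ L)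
    (hx' : x ≤ 0.4 + δ) (hβ : 1 - x ≤ β)
    (hγ : |γ| ≤ Real.exp ((ta + 2 * d) * L) + 1) (hD : (D : ℝ) ≤ Real.exp (δ * L))
    (hV : V = ((ta + 2 * d) * (μ0 / (1 - x - s0)) + 40 * δ) * L) (hV0 : 0 ≤ V) :
    32 * Cz * (2 + |γ|) ^ μ0 * Real.log (2 + |γ|) * D * Real.exp (1 - (β - s0) * V) / (β - s0) ≤
      1 / 16 := by
  have hη : 0.099 ≤ 1 - x - s0 := by (clear * - hδ' hs1 hx'; linarith)
  have hη0 : 0 < 1 - x - s0 := by (clear * - hδ hδ' hs1 hx'; linarith)
  have hηV : (1 - x - s0) * V = ((ta + 2 * d) * μ0 + 40 * δ * (1 - x - s0)) * L := by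
    rw [hV]
    field_simp
  have hexp1 : 1 ≤ Real.exp ((ta + 2 * d) * L) := Real.one_le_exp (by (clear * - hta1 hd hL1; positivity))
  have h2g : 2 + |γ| ≤ 4 * Real.exp ((ta + 2 * d) * L) := by (clear * - hγ hexp1; linarith)
  have habs := abs_nonneg γ
  have e1 : (2 + |γ|) ^ μ0 ≤ 4 * Real.exp ((ta + 2 * d) * μ0 * L) := by
    calc (2 + |γ|) ^ μ0 ≤ (4 * Real.exp ((ta + 2 * d) * L)) ^ μ0 :=
          Real.rpow_le_rpow (by positivity) h2g hμ0
      _ = 4 ^ μ0 * Real.exp ((ta + 2 * d) * L) ^ μ0 :=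
          Real.mul_rpow (by norm_num) (Real.exp_pos _).le
      _ = 4 ^ μ0 * Real.exp ((ta + 2 * d) * μ0 * L) := by
          rw [← Real.exp_mul]; congr 2; ring
      _ ≤ 4 ^ (1 : ℝ) * Real.exp ((ta + 2 * d) * μ0 * L) := by
          gcongr
          norm_num
      _ = _ := by rw [Real.rpow_one]
  have e2 : Real.log (2 + |γ|) ≤ 2 * L := by
    calc Real.log (2 + |γ|) ≤ Real.log (4 * Real.exp ((ta + 2 * d) * L)) :=
          Real.log_le_log (by positivity) h2g
      _ = Real.log 4 + (ta + 2 * d) * L := by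
          rw [Real.log_mul (by norm_num) (Real.exp_pos _).ne', Real.log_exp]
      _ ≤ 2 * L := by
          have h4 : Real.log 4 ≤ 3 := by
            have := Real.log_le_sub_one_of_pos (show (0 : ℝ) < 4 by norm_num)
            (clear * - this; linarith)
          (clear * - hta2 hδ' hd' hL1 h4 hδ; nlinarith)
  have e2' : 0 ≤ Real.log (2 + |γ|) := Real.log_nonneg (by (clear * - hδ hδ' habs; linarith))
  have e3 : Real.exp (1 - (β - s0) * V) ≤
      3 * Real.exp (-(((ta + 2 * d) * μ0 + 3.9 * δ) * L)) := by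
    have h1 : ((ta + 2 * d) * μ0 + 3.9 * δ) * L ≤ (β - s0) * V := by
      have h2 : (1 - x - s0) * V ≤ (β - s0) * V := mul_le_mul_of_nonneg_right (by (clear * - hβ; linarith)) hV0
      refine le_trans ?_ h2
      rw [hηV]
      apply mul_le_mul_of_nonneg_right _ (by (clear * - hδ hδ' hL1; linarith))
      (clear * - hδ hδ' hs1 hx'; nlinarith)
    calc Real.exp (1 - (β - s0) * V) ≤ Real.exp (1 + -(((ta + 2 * d) * μ0 + 3.9 * δ) * L)) :=
          Real.exp_le_exp.mpr (by (clear * - h1; linarith))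
      _ = Real.exp 1 * Real.exp (-(((ta + 2 * d) * μ0 + 3.9 * δ) * L)) := Real.exp_add _ _
      _ ≤ _ := by
          have := Real.exp_one_lt_d9
          gcongr
          (clear * - hδ hδ' this; linarith)
  have hβs : 0.099 ≤ β - s0 := by (clear * - hδ' hs1 hx' hβ; linarith)
  have e5 : Real.exp ((ta + 2 * d) * μ0 * L) * Real.exp (δ * L) *
      Real.exp (-(((ta + 2 * d) * μ0 + 3.9 * δ) * L)) = Real.exp (-(2.9 * δ * L)) := by
    rw [← Real.exp_add, ← Real.exp_add]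
    congr 1
    ring
  have h6 := b1_aux hCz hδ hL2 (by (clear * - hδ hδ' hL1; linarith))
  have hL0 : 0 ≤ L := by (clear * - hδ hδ' hL1; linarith)
  calc 32 * Cz * (2 + |γ|) ^ μ0 * Real.log (2 + |γ|) * D * Real.exp (1 - (β - s0) * V) / (β - s0)
      ≤ 32 * Cz * (4 * Real.exp ((ta + 2 * d) * μ0 * L)) * (2 * L) * Real.exp (δ * L) *
        (3 * Real.exp (-(((ta + 2 * d) * μ0 + 3.9 * δ) * L))) / (1 / 11) := by
        gcongr
        (clear * - hδ hδ' hs1 hx' hβ; linarith)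
    _ = 8448 * Cz * L * (Real.exp ((ta + 2 * d) * μ0 * L) * Real.exp (δ * L) *
        Real.exp (-(((ta + 2 * d) * μ0 + 3.9 * δ) * L))) := by ring
    _ ≤ 1 / 16 := by rw [e5]; exact h6

theorem coreG {ta δ d s0 μ0 Cz : ℝ} (hta1 : 1/4 ≤ ta) (hta2 : ta ≤ 1/2) (hδ : 0 < δ) (hδ' : δ ≤ 1 / 1000) (hd : 0 < d) (hd' : d ≤ δ)
    (hs0 : 2 / 7 ≤ s0) (hs1 : s0 ≤ 1 / 2) (hμ0 : 0 ≤ μ0) (hμ1 : μ0 ≤ 1) (hCz : 0 ≤ Cz)
    (hz : ∀ τ : ℝ, ‖riemannZeta (s0 + τ * Complex.I)‖ ≤ Cz * (2 + |τ|) ^ μ0 * Real.log (2 + |τ|)) :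
    ∃ L0 : ℝ, ∀ L : ℝ, L0 ≤ L → ∀ x : ℝ, 0 < x → x ≤ 0.4 + δ → μ0 / (1 - x - s0) ≤ 1 →
    ∃ g : ℕ → ℂ, (∀ n, ‖g n‖ ≤ (n.divisors.card : ℝ)) ∧
    ∀ ρ : ℂ, riemannZeta ρ = 0 → 1 - x ≤ ρ.re → L ^ 2 ≤ |ρ.im| →
    |ρ.im| ≤ Real.exp ((ta + 2 * d) * L) + 1 →
    ∃ i : ℕ, Real.exp (δ * L) / 2 ≤ (2 : ℝ) ^ i ∧
      (2 : ℝ) ^ i ≤ Real.exp ((ta * (μ0 / (1 - x - s0)) + 45 * δ) * L) ∧
      1 / (16 * L) ≤ ‖DP g (2 ^ i) 2 ρ‖ := by
  set K : ℝ := 2 + 4 / δ with hK
  have hK2 : 2 ≤ K := by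
    have : 0 < 4 / δ := by positivity
    (clear * - this; linarith)
  refine ⟨max (max 10 (33792 * Cz / δ ^ 2)) (max (2 * (K ^ 2 + 8)) (1 / δ)), ?_⟩
  intro L hL x hx hx' hκ
  have hL1 : 10 ≤ L := (le_max_left _ _).trans ((le_max_left _ _).trans hL)
  have hL2 : 33792 * Cz / δ ^ 2 ≤ L := (le_max_right _ _).trans ((le_max_left _ _).trans hL)
  have hL3 : 2 * (K ^ 2 + 8) ≤ L := (le_max_left _ _).trans ((le_max_right _ _).trans hL)
  have hL4 : 1 ≤ δ * L := by
    have : 1 / δ ≤ L := (le_max_right _ _).trans ((le_max_right _ _).trans hL)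
    rw [div_le_iff₀ hδ] at this
    (clear * - this; linarith)
  have hη0 : 0 < 1 - x - s0 := by (clear * - hδ hδ' hs1 hx'; linarith)
  set κ : ℝ := μ0 / (1 - x - s0) with hκdef
  have hκ0 : 0 ≤ κ := by rw [hκdef]; (clear * - hμ0 hη0; positivity)
  set V : ℝ := ((ta + 2 * d) * κ + 40 * δ) * L with hV
  have hL0 : 0 ≤ L := by (clear * - hδ hδ' hL1; linarith)
  have hV0 : 0 ≤ V := by rw [hV]; (clear * - hta1 hd hμ0 hη0 hδ hL1; positivity)
  have hV1 : 40 * (δ * L) ≤ V := by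
    rw [hV]
    have : 0 ≤ (ta + 2 * d) * κ * L := by (clear * - hta1 hd hμ0 hη0 hL1; positivity)
    (clear * - this; nlinarith)
  have hVL : V ≤ 0.6 * L := by
    rw [hV]
    apply mul_le_mul_of_nonneg_right _ hL0
    have : (ta + 2 * d) * κ ≤ (ta + 2 * d) * 1 := mul_le_mul_of_nonneg_left hκ (by positivity)
    (clear * - hta2 hδ hδ' hd' this; linarith)
  set D : ℕ := ⌊Real.exp (δ * L)⌋₊ with hD
  have hD1 : 1 ≤ D := by
    rw [hD, Nat.one_le_floor_iff]
    exact Real.one_le_exp (by positivity)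
  have hDle : (D : ℝ) ≤ Real.exp (δ * L) := Nat.floor_le (Real.exp_pos _).le
  set g : ℕ → ℂ := fun n => an D n * (Phi (V - Real.log n) : ℂ) with hg
  refine ⟨g, ?_, ?_⟩
  · intro n
    simp only [hg]
    rw [norm_mul, Complex.norm_real, Real.norm_of_nonneg (Phi_nonneg _)]
    have h1 := an_norm_le D n
    have h2 := Phi_le_one (V - Real.log n)
    have h3 := Phi_nonneg (V - Real.log n)
    have h4 := norm_nonneg (an D n)
    (clear * - h2 hδ hδ' h1 h3; nlinarith)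
  intro ρ hρ hβ hγ1 hγ2
  have hβ1 : ρ.re ≤ 1 := by
    by_contra h
    push Not at h
    exact riemannZeta_ne_zero_of_one_le_re h.le hρ
  have hρs0 : s0 < ρ.re := by (clear * - hδ hδ' hs1 hx' hβ; linarith)
  have hρ0 : 0 ≤ ρ.re := by (clear * - hδ hδ' hx' hβ; linarith)
  have hL100 : 100 ≤ L ^ 2 := by (clear * - hδ' hL4 hδ hL1; nlinarith)
  have hγge : 1 ≤ |ρ.im| := by (clear * - hδ hδ' hγ1 hL100; linarith)
  have hmel := mellin_bound hμ0 hμ1 hCz hs0 hs1 hz hρ hρs0 hβ1 hγge hV0 D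
  have hB1 := b1G (D := D) hta1 hta2 hδ hδ' hd hd' hs1 hμ0 hμ1 hCz hL2 hL1 hx' hβ hγ2 hDle hV hV0
  have hB2 : 300 * (D * Real.exp (V - ρ.im ^ 2)) ≤ 1 / 16 := by
    have h1 : (L ^ 2) ^ 2 ≤ ρ.im ^ 2 := by
      have := pow_le_pow_left₀ (by positivity) hγ1 2
      rwa [sq_abs] at this
    have h2 : 100 * L ≤ (L ^ 2) ^ 2 := by (clear * - hδ' hL4 hL100 hδ hL1; nlinarith)
    have h3 : (D : ℝ) * Real.exp (V - ρ.im ^ 2) ≤ Real.exp (-(98 * L)) := by
      calc (D : ℝ) * Real.exp (V - ρ.im ^ 2) ≤ Real.exp (δ * L) * Real.exp (V - ρ.im ^ 2) := by (clear * - hDle; gcongr)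
        _ = Real.exp (δ * L + (V - ρ.im ^ 2)) := (Real.exp_add _ _).symm
        _ ≤ _ := Real.exp_le_exp.mpr (by (clear * - hδ hδ' hL4 hV1 hVL h1 h2; nlinarith))
    have h4 : Real.exp (-(98 * L)) ≤ 1 / 4800 := by
      rw [Real.exp_neg, ← one_div, div_le_div_iff_of_pos_left one_pos (Real.exp_pos _) (by norm_num)]
      have h5 := Real.quadratic_le_exp_of_nonneg (show (0 : ℝ) ≤ 98 * L by positivity)
      (clear * - hδ hδ' hL4 hV1 hVL hL100 h5; nlinarith)
    (clear * - h3 h4; linarith)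
  obtain ⟨n, hn1, hn2⟩ := exists_nat_pow_near (x := Real.exp (V + δ * L)) (y := 2)
    (Real.one_le_exp (by (clear * - hta1 hd hμ0 hη0 hδ hL1; positivity))) (by norm_num)
  have hlogN : V + δ * L ≤ Real.log ((2 ^ (n + 1) : ℕ) : ℝ) := by
    rw [Real.le_log_iff_exp_le (by positivity)]
    push_cast
    exact hn2.le
  have hfin := finite_sum (ρ := ρ) hρ0 (K := K) (V := V) (L1 := δ * L) hK2 (N0 := 2 ^ (n + 1)) D
    (by positivity) hlogN
  have hB3 : (D : ℝ) * (2 * Real.exp (K ^ 2 + 2 * V - (K - 2) * (δ * L))) ≤ 1 / 16 := by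
    have h1 : (K - 2) * (δ * L) = 4 * L := by
      rw [hK]; field_simp; ring
    rw [h1]
    calc (D : ℝ) * (2 * Real.exp (K ^ 2 + 2 * V - 4 * L))
        ≤ Real.exp (δ * L) * (2 * Real.exp (K ^ 2 + 2 * V - 4 * L)) := by (clear * - hDle; gcongr)
      _ = 2 * Real.exp (δ * L + (K ^ 2 + 2 * V - 4 * L)) := by rw [Real.exp_add]; ring
      _ ≤ 2 * Real.exp (-(L / 2 + 0)) := by
          gcongr
          (clear * - hδ hδ' hL3 hL4 hV1 hVL; nlinarith)
      _ ≤ 1 / 16 := by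
          rw [Real.exp_neg, ← div_eq_mul_inv, div_le_iff₀ (Real.exp_pos _)]
          have := exp_ge (L / 2 + 0) (by (clear * - hδ hδ' hL4 hV1 hVL K; nlinarith [sq_nonneg K]))
          (clear * - hδ hδ' this; linarith)
  have hB4 : 1 - Phi V ≤ 1 / 16 := by
    refine (one_sub_Phi_le 1 le_rfl V).trans ?_
    have h1 : (1 : ℝ) ^ 2 - 1 * V = -(V - 1) := by ring
    rw [h1, Real.exp_neg, ← one_div, div_le_div_iff_of_pos_left one_pos (Real.exp_pos _) (by norm_num)]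
    have := exp_ge (V - 1) (by (clear * - hδ hδ' hL4 hV1; linarith))
    (clear * - hδ hδ' this; linarith)
  have hdy := dyadic g ρ (n + 1)
  have hg1 : g 1 = (Phi V : ℂ) := by
    simp only [hg]
    rw [an_one hD1]
    simp
  -- lower bound for the sum of the blocks
  have hlow : 1 / 2 < ‖∑ i ∈ range (n + 1), DP g (2 ^ i) 2 ρ‖ := by
    set S : ℂ := ∑ d ∈ Icc 1 D, (ArithmeticFunction.moebius d : ℂ) * (d : ℂ) ^ (-ρ) * In ρ V d with hS
    set T : ℂ := ∑ n ∈ Icc 1 (2 ^ (n + 1)), g n * (n : ℂ) ^ (-ρ) with hT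
    have h1 : ‖S‖ ≤ 1 / 16 + 1 / 16 := hmel.trans (add_le_add hB1 hB2)
    have h2 : ‖S - T‖ ≤ 1 / 16 := hfin.trans hB3
    have h3 : ‖T‖ ≤ 3 / 16 := by
      have := norm_sub_norm_le T S
      rw [norm_sub_rev] at this
      (clear * - hB1 hB2 hB3 hmel hfin this; linarith)
    have h4 : ∑ i ∈ range (n + 1), DP g (2 ^ i) 2 ρ = T - (Phi V : ℂ) := by
      rw [hdy, hg1]; ring
    rw [h4]
    have h5 := norm_sub_norm_le (Phi V : ℂ) T
    rw [norm_sub_rev, Complex.norm_real, Real.norm_of_nonneg (Phi_nonneg _)] at h5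
    (clear * - hδ hδ' hB4 h3 h5; linarith)
  have hlog2 := Real.log_two_gt_d9
  have hnL : ((n : ℝ) + 1) ≤ 8 * L := by
    have h1 : (n : ℝ) * Real.log 2 ≤ V + δ * L := by
      have h2 := Real.log_le_log (by positivity) hn1
      rwa [Real.log_pow, Real.log_exp] at h2
    have h2 : (n : ℝ) * (1 / 2) ≤ (n : ℝ) * Real.log 2 :=
      mul_le_mul_of_nonneg_left (by (clear * - hδ hδ' hlog2; linarith)) (Nat.cast_nonneg _)
    (clear * - hδ hδ' hL4 hV1 hVL h1 h2; nlinarith)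
  have hex : ∃ i ∈ range (n + 1), 1 / (16 * L) ≤ ‖DP g (2 ^ i) 2 ρ‖ := by
    by_contra hcon
    push Not at hcon
    have h1 : ‖∑ i ∈ range (n + 1), DP g (2 ^ i) 2 ρ‖ ≤ (n + 1 : ℕ) * (1 / (16 * L)) := by
      refine (norm_sum_le _ _).trans ?_
      refine (Finset.sum_le_card_nsmul _ _ _ fun i hi => (hcon i hi).le).trans ?_
      rw [Finset.card_range, nsmul_eq_mul]
    have h2 : ((n + 1 : ℕ) : ℝ) * (1 / (16 * L)) ≤ 1 / 2 := by
      rw [mul_one_div, div_le_iff₀ (by positivity)]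
      push_cast
      (clear * - hnL; linarith)
    (clear * - hlow h1 h2; linarith)
  obtain ⟨i, hi, hDP⟩ := hex
  rw [Finset.mem_range] at hi
  refine ⟨i, ?_, ?_, hDP⟩
  · by_contra hcon
    push Not at hcon
    have h1 : 2 * 2 ^ i ≤ D := by
      rw [hD]
      apply Nat.le_floor
      push_cast
      (clear * - hcon; linarith)
    have h2 : DP g (2 ^ i) 2 ρ = 0 := by
      unfold DP
      apply Finset.sum_eq_zero
      intro m hm
      rw [Finset.mem_Ioc] at hm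
      have h3 : 1 ≤ 2 ^ i := Nat.one_le_two_pow
      have h4 : an D m = 0 := an_zero (by (clear * - δ L n hm h3; omega)) (by omega)
      simp only [hg]
      rw [h4, zero_mul, zero_mul]
    rw [h2, norm_zero] at hDP
    have : 0 < 1 / (16 * L) := by positivity
    (clear * - hDP this; linarith)
  · calc (2 : ℝ) ^ i ≤ 2 ^ n := pow_le_pow_right₀ (by norm_num) (by omega)
      _ ≤ Real.exp (V + δ * L) := hn1
      _ ≤ _ := by
          apply Real.exp_le_exp.mpr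
          rw [hV]
          have h1 : 2 * d * κ ≤ 2 * δ * 1 := by
            apply mul_le_mul (by (clear * - hd'; linarith)) hκ hκ0 (by (clear * - hδ; linarith))
          have h2 : ((ta + 2 * d) * κ + 40 * δ) + δ ≤ ta * κ + 45 * δ := by (clear * - hδ h1; nlinarith)
          calc ((ta + 2 * d) * κ + 40 * δ) * L + δ * L
              = (((ta + 2 * d) * κ + 40 * δ) + δ) * L := by ring
            _ ≤ _ := mul_le_mul_of_nonneg_right h2 hL0

theorem detectG (h5 : A5) (h7 : A7) : DetectG := by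
  intro ta δ d hta1 hta2 hδ hδ' hd hd'
  obtain ⟨C5, hC5, hA5, _⟩ := h5
  obtain ⟨C7, hC7, hA7⟩ := h7
  obtain ⟨Ca, hCa, ha⟩ := zline (s0 := 1 / 2) (μ0 := 1 / 6) (by norm_num) (by norm_num) hC5
    (fun t ht => by
      have := hA5 t ht
      push_cast
      exact this)
  obtain ⟨Cb, hCb, hb⟩ := zline (s0 := 2 / 7) (μ0 := 2 / 7) (by norm_num) (by norm_num) hC7
    (fun t ht => by
      have := hA7 t ht
      push_cast
      exact this)
  obtain ⟨La, hLa⟩ := coreG hta1 hta2 hδ hδ' hd hd' (s0 := 1 / 2) (μ0 := 1 / 6) (by norm_num) (by norm_num)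
    (by norm_num) (by norm_num) hCa ha
  obtain ⟨Lb, hLb⟩ := coreG hta1 hta2 hδ hδ' hd hd' (s0 := 2 / 7) (μ0 := 2 / 7) (by norm_num) (by norm_num)
    (by norm_num) (by norm_num) hCb hb
  refine ⟨Real.exp (max La Lb), ?_⟩
  intro X x hX hx hx'
  have hX0 : 0 < X := (Real.exp_pos _).trans_le hX
  set L : ℝ := Real.log X with hL
  have hLge : max La Lb ≤ L := by
    rw [hL, Real.le_log_iff_exp_le hX0]; exact hX
  have hpow : ∀ a : ℝ, X ^ a = Real.exp (a * L) := by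
    intro a
    rw [Real.rpow_def_of_pos hX0, mul_comm]
  have hden1 : (0 : ℝ) < 1 - 2 * x := by linarith
  have hden2 : (0 : ℝ) < 5 / 7 - x := by linarith
  have h2le : (2 / 7 : ℝ) / (5 / 7 - x) ≤ 1 := by
    rw [div_le_one hden2]; (clear * - hδ hδ' hx'; linarith)
  have key : ∀ s0 μ0 : ℝ, yy x = μ0 / (1 - x - s0) →
      (∃ g : ℕ → ℂ, (∀ n, ‖g n‖ ≤ (n.divisors.card : ℝ)) ∧
        ∀ ρ : ℂ, riemannZeta ρ = 0 → 1 - x ≤ ρ.re → L ^ 2 ≤ |ρ.im| →
        |ρ.im| ≤ Real.exp ((ta + 2 * d) * L) + 1 →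
        ∃ i : ℕ, Real.exp (δ * L) / 2 ≤ (2 : ℝ) ^ i ∧
          (2 : ℝ) ^ i ≤ Real.exp ((ta * (μ0 / (1 - x - s0)) + 45 * δ) * L) ∧
          1 / (16 * L) ≤ ‖DP g (2 ^ i) 2 ρ‖) →
      ∃ g : ℕ → ℂ, (∀ n, ‖g n‖ ≤ (n.divisors.card : ℝ)) ∧
        ∀ ρ : ℂ, riemannZeta ρ = 0 → 1 - x ≤ ρ.re → Real.log X ^ 2 ≤ |ρ.im| →
        |ρ.im| ≤ X ^ (ta + 2 * d) + 1 →
        ∃ i : ℕ, X ^ δ / 2 ≤ (2 : ℝ) ^ i ∧ (2 : ℝ) ^ i ≤ X ^ (yy x * ta + 45 * δ) ∧
          1 / (16 * Real.log X) ≤ ‖DP g (2 ^ i) 2 ρ‖ := by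
    intro s0 μ0 hyy ⟨g, hg1, hg2⟩
    refine ⟨g, hg1, ?_⟩
    intro ρ hρ hβ hγ1 hγ2
    rw [hpow] at hγ2
    obtain ⟨i, hi1, hi2, hi3⟩ := hg2 ρ hρ hβ hγ1 hγ2
    refine ⟨i, ?_, ?_, hi3⟩
    · rw [hpow]; exact hi1
    · rw [hpow, hyy, mul_comm (μ0 / (1 - x - s0)) ta]; exact hi2
  rcases le_total ((1/3 : ℝ) / (1 - 2 * x)) ((2/7) / (5/7 - x)) with hle | hle
  · apply key (1 / 2) (1 / 6)
    · unfold yy
      rw [min_eq_left hle]
      rw [div_eq_div_iff hden1.ne' (by (clear * - hδ hδ' hx'; linarith))]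
      ring
    · apply hLa L ((le_max_left _ _).trans hLge) x hx hx'
      have : (1 / 6 : ℝ) / (1 - x - 1 / 2) = (1/3) / (1 - 2 * x) := by
        rw [div_eq_div_iff (by (clear * - hδ hδ' hx'; linarith)) hden1.ne']
        ring
      rw [this]
      exact hle.trans h2le
  · apply key (2 / 7) (2 / 7)
    · unfold yy
      rw [min_eq_right hle]
      congr 1
      ring
    · apply hLb L ((le_max_right _ _).trans hLge) x hx hx'
      have : (1 : ℝ) - x - 2 / 7 = 5 / 7 - x := by ring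
      rw [this]
      exact h2le

end Pool.Agent.M17.Helper60.KC
end

/- Helper53.KN.Helper33.AV.PrimeInt -/
section
/-!
# Project AV (helper40), module AV4: sums over primes as integrals
-/

set_option autoImplicit false

open Filter Topology

namespace Pool.Agent.M17.Helper33.AV

open Pool.Agent.M17.Helper44 (primesUpTo)
open Pool.Agent.M17.Helper40.AV

theorem PI_eq {a b : ℝ} (ha : 0 ≤ a) :
    PI a b = (Finset.Ioc ⌊a⌋₊ ⌊b⌋₊).filter Nat.Prime := by
  ext p
  simp only [PI, primesUpTo, Finset.mem_filter, Finset.mem_Ioc]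
  constructor
  · rintro ⟨⟨⟨_, h1⟩, h2⟩, h3⟩
    exact ⟨⟨(Nat.floor_lt ha).mpr h3, h1⟩, h2⟩
  · rintro ⟨⟨h0, h1⟩, h2⟩
    exact ⟨⟨⟨h2.pos, h1⟩, h2⟩, (Nat.floor_lt ha).mp h0⟩

theorem mem_PI {a b : ℝ} (hb : 0 ≤ b) {p : ℕ} : p ∈ PI a b ↔ p.Prime ∧ a < p ∧ (p:ℝ) ≤ b := by
  unfold PI
  rw [Finset.mem_filter, Pool.Agent.M17.Helper44.mem_primesUpTo hb]
  tauto

theorem sum_PI_add {a b c : ℝ} (hab : a ≤ b) (hbc : b ≤ c) (hb : 0 ≤ b) (g : ℕ → ℝ) :
    ∑ p ∈ PI a c, g p = ∑ p ∈ PI a b, g p + ∑ p ∈ PI b c, g p := by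
  have hc : 0 ≤ c := hb.trans hbc
  have h1 : PI a c = PI a b ∪ PI b c := by
    ext p
    rw [Finset.mem_union, mem_PI hc, mem_PI hb, mem_PI hc]
    constructor
    · rintro ⟨h1, h2, h3⟩
      rcases le_or_gt (p : ℝ) b with h | h
      · exact Or.inl ⟨h1, h2, h⟩
      · exact Or.inr ⟨h1, h, h3⟩
    · rintro (⟨h1, h2, h3⟩ | ⟨h1, h2, h3⟩)
      · exact ⟨h1, h2, h3.trans hbc⟩
      · exact ⟨h1, hab.trans_lt h2, h3⟩
  rw [h1, Finset.sum_union]
  rw [Finset.disjoint_left]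
  intro p h2 h3
  rw [mem_PI hb] at h2
  rw [mem_PI hc] at h3
  (clear * - h2 h3; linarith [h2.2.2, h3.2.1])

theorem S_tendsto {a b : ℝ} (ha : 0 < a) (hab : a ≤ b) :
    Tendsto (fun X : ℝ => ∑ p ∈ PI (X ^ a) (X ^ b), (1 : ℝ) / p) atTop
      (𝓝 (Real.log (b / a))) := by
  obtain ⟨C, hC, hM⟩ := Pool.Agent.M17.Helper44.mertens_interval
  rw [tendsto_iff_dist_tendsto_zero]
  have h1 : ∀ᶠ X : ℝ in atTop, 2 ≤ X ^ a := (tendsto_rpow_atTop ha).eventually_ge_atTop 2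
  have h2 : Tendsto (fun X : ℝ => C / (a * Real.log X)) atTop (𝓝 0) :=
    Tendsto.const_div_atTop (Tendsto.const_mul_atTop ha Real.tendsto_log_atTop) C
  refine squeeze_zero' (Eventually.of_forall fun _ => dist_nonneg) ?_ h2
  filter_upwards [h1, eventually_gt_atTop 1] with X hX hX1
  have hX0 : 0 < X := by (clear * - hX1; linarith)
  have hlX : 0 < Real.log X := Real.log_pos hX1
  have h3 := hM (X ^ a) (X ^ b) hX (Real.rpow_le_rpow_of_exponent_le hX1.le hab)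
  rw [Real.log_rpow hX0, Real.log_rpow hX0, mul_div_mul_right _ _ hlX.ne'] at h3
  rw [PI_eq (Real.rpow_nonneg hX0.le a), Real.dist_eq]
  exact h3

theorem step {a b ε η : ℝ} {f : ℝ → ℝ} (ha : 0 < a) (hab : a ≤ b)
    (hf : ContinuousOn f (Set.Icc a b)) (hε : 0 ≤ ε) (hη : 0 < η)
    (hosc : ∀ t ∈ Set.Icc a b, |f t - f b| ≤ ε) :
    ∀ᶠ X : ℝ in atTop, |∑ p ∈ PI (X ^ a) (X ^ b), (1 : ℝ) / p * f (Real.log p / Real.log X) -
      ∫ t in a..b, f t / t| ≤ 2 * ε * Real.log (b / a) + η := by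
  have hb : 0 < b := ha.trans_le hab
  set L := Real.log (b / a) with hL
  have hL0 : 0 ≤ L := Real.log_nonneg ((one_le_div ha).mpr hab)
  have hcont1 : ContinuousOn (fun t : ℝ => 1 / t) (Set.uIcc a b) := by
    rw [Set.uIcc_of_le hab]
    apply ContinuousOn.div continuousOn_const continuousOn_id
    intro t ht
    exact (ha.trans_le ht.1).ne'
  have hcont2 : ContinuousOn (fun t : ℝ => (f t - f b) / t) (Set.uIcc a b) := by
    rw [Set.uIcc_of_le hab]
    apply ContinuousOn.div (hf.sub continuousOn_const) continuousOn_id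
    intro t ht
    exact (ha.trans_le ht.1).ne'
  have hint1 : ∫ t in a..b, 1 / t = L := by
    rw [integral_one_div_of_pos ha hb]
  have hI : |(∫ t in a..b, f t / t) - f b * L| ≤ ε * L := by
    have h1 : (∫ t in a..b, f t / t) = (∫ t in a..b, (f t - f b) / t) + f b * L := by
      rw [← hint1, ← intervalIntegral.integral_const_mul, ← intervalIntegral.integral_add
        hcont2.intervalIntegrable (hcont1.intervalIntegrable.const_mul _)]
      apply intervalIntegral.integral_congr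
      intro t _
      simp only
      ring
    rw [h1, add_sub_cancel_right]
    have h2 : ∫ t in a..b, ε * (1 / t) = ε * L := by
      rw [intervalIntegral.integral_const_mul, hint1]
    rw [← h2, ← Real.norm_eq_abs]
    apply intervalIntegral.norm_integral_le_of_norm_le hab _
      (hcont1.intervalIntegrable.const_mul _)
    refine Eventually.of_forall fun t ht => ?_
    have ht0 : 0 < t := ha.trans ht.1
    rw [Real.norm_eq_abs, abs_div, abs_of_pos ht0, div_eq_mul_one_div]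
    exact mul_le_mul_of_nonneg_right (hosc t ⟨ht.1.le, ht.2⟩) (by positivity)
  set δ := η / (ε + |f b| + 1) with hδ
  have hden : 0 < ε + |f b| + 1 := by (clear * - hε; positivity)
  have hδ0 : 0 < δ := by (clear * - hη hε; positivity)
  have hS := (Metric.tendsto_nhds.mp (S_tendsto ha hab)) δ hδ0
  filter_upwards [hS, eventually_gt_atTop 1] with X hX hX1
  rw [Real.dist_eq] at hX
  have hX0 : 0 < X := by (clear * - hX1; linarith)
  have hlX : 0 < Real.log X := Real.log_pos hX1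
  set S := ∑ p ∈ PI (X ^ a) (X ^ b), (1 : ℝ) / p with hSdef
  have hT : |∑ p ∈ PI (X ^ a) (X ^ b), (1 : ℝ) / p * f (Real.log p / Real.log X) - f b * S| ≤
      ε * S := by
    rw [hSdef, Finset.mul_sum, Finset.mul_sum, ← Finset.sum_sub_distrib]
    refine (Finset.abs_sum_le_sum_abs _ _).trans ?_
    apply Finset.sum_le_sum
    intro p hp
    rw [mem_PI (Real.rpow_nonneg hX0.le b)] at hp
    obtain ⟨hp1, hp2, hp3⟩ := hp
    have hp0 : (0 : ℝ) < p := by exact_mod_cast hp1.pos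
    have h4 : a * Real.log X ≤ Real.log p := by
      rw [← Real.log_rpow hX0]
      exact Real.log_le_log (Real.rpow_pos_of_pos hX0 a) hp2.le
    have h5 : Real.log p ≤ b * Real.log X := by
      rw [← Real.log_rpow hX0]
      exact Real.log_le_log hp0 hp3
    have h6 := hosc (Real.log p / Real.log X) ⟨(le_div_iff₀ hlX).mpr h4, (div_le_iff₀ hlX).mpr h5⟩
    have h7 : (1 : ℝ) / p * f (Real.log p / Real.log X) - f b * (1 / p) =
        (f (Real.log p / Real.log X) - f b) * (1 / p) := by ring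
    rw [h7, abs_mul, abs_of_pos (by (clear * - hp0; positivity) : (0 : ℝ) < 1 / p)]
    exact mul_le_mul_of_nonneg_right h6 (by (clear * - hp0; positivity))
  have h8 : δ * (ε + |f b| + 1) = η := by
    rw [hδ]; (clear * - hε hη; field_simp)
  have h9 : |f b * (S - L)| ≤ |f b| * δ := by
    rw [abs_mul]
    exact mul_le_mul_of_nonneg_left hX.le (abs_nonneg _)
  have h10 : ε * (S - L) ≤ ε * δ :=
    mul_le_mul_of_nonneg_left ((le_abs_self _).trans hX.le) hε
  rw [abs_le] at hI hT h9 ⊢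
  have h11 : f b * (S - L) = f b * S - f b * L := by ring
  constructor <;> (clear * - hI hδ0 hT h8 h9 h10; nlinarith [hI.1, hI.2, hT.1, hT.2, h9.1, h9.2])

theorem primeInt : PrimeInt := by
  intro α β f hα hαβ hf
  rw [Metric.tendsto_nhds]
  intro ε₀ hε₀
  have hβ : 0 < β := hα.trans_le hαβ
  set L := Real.log (β / α) with hL
  have hL0 : 0 ≤ L := Real.log_nonneg ((one_le_div hα).mpr hαβ)
  set ε := ε₀ / (4 * (L + 1)) with hε
  have hε0 : 0 < ε := by positivity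
  have hu := isCompact_Icc.uniformContinuousOn_of_continuous hf
  rw [Metric.uniformContinuousOn_iff] at hu
  obtain ⟨δ, hδ0, hδ⟩ := hu ε hε0
  set h := δ / 2 with hh
  have hh0 : 0 < h := by (clear * - hδ0; positivity)
  set b : ℕ → ℝ := fun n => min (α + n * h) β with hb
  have hbα : ∀ n, α ≤ b n := by
    intro n
    apply le_min _ hαβ
    have h1 : 0 ≤ (n : ℝ) * h := mul_nonneg n.cast_nonneg hh0.le
    (clear * - h1; linarith)
  have hbβ : ∀ n, b n ≤ β := fun n => min_le_right _ _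
  have hb0 : ∀ n, 0 < b n := fun n => hα.trans_le (hbα n)
  have hbmono : ∀ n, b n ≤ b (n + 1) := by
    intro n
    apply min_le_min _ le_rfl
    push_cast
    (clear * - hh0; nlinarith)
  have hbstep : ∀ n, b (n + 1) ≤ b n + h := by
    intro n
    simp only [hb]
    rcases le_total (α + n * h) β with h1 | h1
    · rw [min_eq_left h1]
      refine (min_le_left _ _).trans ?_
      push_cast
      (clear * -; nlinarith)
    · rw [min_eq_right h1]
      exact (min_le_right _ _).trans (by (clear * - hh0; linarith))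
  have hcd : ∀ x y : ℝ, α ≤ x → x ≤ y → y ≤ β →
      IntervalIntegrable (fun t => f t / t) MeasureTheory.volume x y := by
    intro x y hx hxy hy
    apply ContinuousOn.intervalIntegrable
    rw [Set.uIcc_of_le hxy]
    apply ContinuousOn.div (hf.mono (Set.Icc_subset_Icc hx hy)) continuousOn_id
    intro t ht
    exact (hα.trans_le (hx.trans ht.1)).ne'
  have hind : ∀ n : ℕ, ∀ η : ℝ, 0 < η → ∀ᶠ X : ℝ in atTop,
      |∑ p ∈ PI (X ^ α) (X ^ (b n)), (1 : ℝ) / p * f (Real.log p / Real.log X) -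
      ∫ t in α..(b n), f t / t| ≤ 2 * ε * Real.log (b n / α) + η := by
    intro n
    induction n with
    | zero =>
      intro η hη
      have h0 : b 0 = α := by simp [hb, hαβ]
      rw [h0]
      have h1 := step (f := f) (ε := 0) hα le_rfl (by
        rw [Set.Icc_self]
        exact continuousOn_singleton f α) le_rfl hη (by
        intro t ht
        rw [Set.Icc_self, Set.mem_singleton_iff] at ht
        rw [ht]; simp)
      filter_upwards [h1] with X hX
      have h2 : Real.log (α / α) = 0 := by rw [div_self hα.ne', Real.log_one]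
      rw [h2] at hX ⊢
      simpa using hX
    | succ n ih =>
      intro η hη
      have h1 := ih (η / 2) (by positivity)
      have h2 := step (f := f) (ε := ε) (η := η / 2) (hb0 n) (hbmono n)
        (hf.mono (Set.Icc_subset_Icc (hbα n) (hbβ (n + 1)))) hε0.le (by positivity) (by
        intro t ht
        have h3 := hδ t ⟨(hbα n).trans ht.1, ht.2.trans (hbβ (n + 1))⟩ (b (n + 1))
          ⟨hbα (n + 1), hbβ (n + 1)⟩ (by
            rw [Real.dist_eq, abs_sub_comm, abs_of_nonneg (by linarith [ht.2])]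
            linarith [ht.1, hbstep n])
        rw [Real.dist_eq] at h3
        exact h3.le)
      filter_upwards [h1, h2, eventually_gt_atTop 1] with X hX1 hX2 hX
      have hX0 : 0 < X := by (clear * - hX; linarith)
      rw [sum_PI_add (Real.rpow_le_rpow_of_exponent_le hX.le (hbα n))
        (Real.rpow_le_rpow_of_exponent_le hX.le (hbmono n)) (Real.rpow_nonneg hX0.le _),
        ← intervalIntegral.integral_add_adjacent_intervals
          (hcd α (b n) le_rfl (hbα n) (hbβ n)) (hcd (b n) (b (n + 1)) (hbα n) (hbmono n)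
          (hbβ (n + 1)))]
      have h4 : Real.log (b (n + 1) / α) = Real.log (b n / α) + Real.log (b (n + 1) / b n) := by
        rw [← Real.log_mul (div_pos (hb0 n) hα).ne' (div_pos (hb0 (n + 1)) (hb0 n)).ne']
        congr 1
        have := (hb0 n).ne'
        field_simp
      rw [h4]
      rw [abs_le] at hX1 hX2 ⊢
      constructor <;> (clear * - hX1 hX2; linarith [hX1.1, hX1.2, hX2.1, hX2.2])
  obtain ⟨n, hn⟩ := exists_nat_ge ((β - α) / h)
  have hbn : b n = β := by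
    apply min_eq_right
    rw [div_le_iff₀ hh0] at hn
    (clear * - hn; linarith)
  have h1 := hind n (ε₀ / 4) (by positivity)
  rw [hbn] at h1
  filter_upwards [h1] with X hX
  rw [Real.dist_eq]
  refine hX.trans_lt ?_
  have h2 : ε * (L + 1) = ε₀ / 4 := by
    rw [hε]; field_simp
  (clear * - hε₀ hε0 h2; nlinarith)

end Pool.Agent.M17.Helper33.AV
end

/- Helper53.KN.Helper59.AV.NumInt -/
section
set_option autoImplicit false

open Filter Topology

namespace Pool.Agent.M17.Helper59.AV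

open Pool.Agent.M17.Helper40.AV

/-- `cu` is above its chords -/
lemma chord {α β m k : ℝ} (h0 : 0 ≤ α) (hab : α < β) (h1 : m * α + k ≤ cu α)
    (h2 : m * β + k ≤ cu β) {u : ℝ} (hu1 : α ≤ u) (hu2 : u ≤ β) : m * u + k ≤ cu u := by
  have hd : 0 < β - α := by linarith
  have hc := Real.convexOn_mul_log.2 (show α ∈ Set.Ici (0:ℝ) from h0)
    (show β ∈ Set.Ici (0:ℝ) from h0.trans hab.le)
    (show 0 ≤ (β - u) / (β - α) from div_nonneg (by linarith) hd.le)
    (show 0 ≤ (u - α) / (β - α) from div_nonneg (by linarith) hd.le)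
    (by rw [← add_div]; rw [div_eq_one_iff_eq hd.ne']; ring)
  simp only [smul_eq_mul] at hc
  have hu : (β - u) / (β - α) * α + (u - α) / (β - α) * β = u := by
    field_simp
    ring
  rw [hu] at hc
  unfold cu at *
  have e1 : (β - u) / (β - α) * (2 * α - 1 - m * α - k) + (u - α) / (β - α) * (2 * β - 1 - m * β - k)
      = 2 * u - 1 - m * u - k := by
    field_simp
    ring
  have e2 : (β - u) / (β - α) * (α * Real.log α) ≤
      (β - u) / (β - α) * (2 * α - 1 - m * α - k) :=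
    mul_le_mul_of_nonneg_left (by linarith) (div_nonneg (by linarith) hd.le)
  have e3 : (u - α) / (β - α) * (β * Real.log β) ≤
      (u - α) / (β - α) * (2 * β - 1 - m * β - k) :=
    mul_le_mul_of_nonneg_left (by linarith) (div_nonneg (by linarith) hd.le)
  linarith

lemma log_le_of {x c : ℝ} (hx : 0 < x) (hc : 0 ≤ c) (n : ℕ)
    (h : x ≤ ∑ i ∈ Finset.range n, c ^ i / (i.factorial : ℝ)) : Real.log x ≤ c := by
  rw [Real.log_le_iff_le_exp hx]
  exact h.trans (Real.sum_le_exp_of_nonneg hc n)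

lemma log2 : Real.log 2 ≤ 0.6932 := by
  have := Real.log_two_lt_d9
  linarith

lemma log1498 : Real.log 1.498 ≤ 0.4044 := by
  apply log_le_of (by norm_num) (by norm_num) 7
  simp only [Finset.sum_range_succ, Finset.sum_range_zero, Nat.factorial]
  norm_num

lemma log15 : Real.log 1.5 ≤ 0.4055 := by
  apply log_le_of (by norm_num) (by norm_num) 7
  simp only [Finset.sum_range_succ, Finset.sum_range_zero, Nat.factorial]
  norm_num

lemma cu_two : (1.6136 : ℝ) ≤ cu 2 := by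
  unfold cu
  have := log2
  linarith

lemma cu_high {u : ℝ} (h1 : 1.498 ≤ u) (h2 : u ≤ 2) : 0.443 * u + 0.7265 ≤ cu u := by
  apply chord (α := 1.498) (β := 2) (by norm_num) (by norm_num) _ _ h1 h2
  · unfold cu
    have := log1498
    linarith
  · have := cu_two
    linarith

lemma cu_low {u : ℝ} (h1 : 1 ≤ u) (h2 : u ≤ 1.5) : 0.783 * u + 0.217 ≤ cu u := by
  apply chord (α := 1) (β := 1.5) (by norm_num) (by norm_num) _ _ h1 h2
  · unfold cu
    rw [Real.log_one]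
    norm_num
  · unfold cu
    have := log15
    linarith

end Pool.Agent.M17.Helper59.AV
end
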