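import Mathlib
import Pool.Agent.Helper53.KM.G03
import Pool.Agent.Helper53.KM.G05
import Pool.Agent.Helper53.KM.G06

/- Helper53.KN.Helper33.KS.CM -/
section
/-!
# Completely multiplicative extensions (project KS, MP_768c9c_nt)

`cm F` is the completely multiplicative function `ℕ →*₀ ℝ` with `cm F p = F p`.
-/

set_option autoImplicit false

namespace Pool.Agent.M17.Helper33.KS

open Finset

/-- the completely multiplicative function with values `F p` at the primes -/
noncomputable def cm (F : ℕ → ℝ) : ℕ →*₀ ℝ where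
  toFun n := if n = 0 then 0 else n.factorization.prod fun p v => F p ^ v
  map_zero' := by simp
  map_one' := by simp
  map_mul' := by
    intro m n
    by_cases hm : m = 0
    · simp [hm]
    by_cases hn : n = 0
    · simp [hn]
    rw [if_neg (mul_ne_zero hm hn), if_neg hm, if_neg hn, Nat.factorization_mul hm hn]
    rw [Finsupp.prod_add_index' (by simp) (by intro p a b; exact pow_add _ _ _)]

theorem cm_apply (F : ℕ → ℝ) {n : ℕ} (hn : n ≠ 0) :
    cm F n = n.factorization.prod fun p v => F p ^ v := by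
  show (if n = 0 then (0 : ℝ) else _) = _
  rw [if_neg hn]

theorem cm_apply' (F : ℕ → ℝ) {n : ℕ} (hn : n ≠ 0) :
    cm F n = ∏ p ∈ n.primeFactors, F p ^ n.factorization p := by
  rw [cm_apply F hn]; rfl

theorem cm_prime (F : ℕ → ℝ) {p : ℕ} (hp : p.Prime) : cm F p = F p := by
  rw [cm_apply F hp.ne_zero, hp.factorization]
  simp

theorem cm_pow_prime (F : ℕ → ℝ) {p : ℕ} (hp : p.Prime) (v : ℕ) : cm F (p ^ v) = F p ^ v := by
  rw [map_pow, cm_prime F hp]

theorem cm_nonneg {F : ℕ → ℝ} (hF : ∀ p, p.Prime → 0 ≤ F p) (n : ℕ) : 0 ≤ cm F n := by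
  by_cases hn : n = 0
  · simp [hn]
  rw [cm_apply' F hn]
  exact Finset.prod_nonneg fun p hp => pow_nonneg (hF p (Nat.prime_of_mem_primeFactors hp)) _

theorem cm_mono {F G : ℕ → ℝ} {n : ℕ} (hF : ∀ p, p.Prime → p ∣ n → 0 ≤ F p)
    (hFG : ∀ p, p.Prime → p ∣ n → F p ≤ G p) : cm F n ≤ cm G n := by
  by_cases hn : n = 0
  · simp [hn]
  rw [cm_apply' F hn, cm_apply' G hn]
  refine Finset.prod_le_prod (fun p hp => pow_nonneg (hF p (Nat.prime_of_mem_primeFactors hp)
    (Nat.dvd_of_mem_primeFactors hp)) _) fun p hp => ?_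
  exact pow_le_pow_left₀ (hF p (Nat.prime_of_mem_primeFactors hp)
    (Nat.dvd_of_mem_primeFactors hp)) (hFG p (Nat.prime_of_mem_primeFactors hp)
    (Nat.dvd_of_mem_primeFactors hp)) _

theorem cm_congr {F G : ℕ → ℝ} {n : ℕ} (hFG : ∀ p, p.Prime → p ∣ n → F p = G p) :
    cm F n = cm G n := by
  by_cases hn : n = 0
  · simp [hn]
  rw [cm_apply' F hn, cm_apply' G hn]
  refine Finset.prod_congr rfl fun p hp => ?_
  rw [hFG p (Nat.prime_of_mem_primeFactors hp) (Nat.dvd_of_mem_primeFactors hp)]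

theorem cm_mul_fun (F G : ℕ → ℝ) (n : ℕ) : cm (fun p => F p * G p) n = cm F n * cm G n := by
  by_cases hn : n = 0
  · simp [hn]
  rw [cm_apply' _ hn, cm_apply' _ hn, cm_apply' _ hn, ← Finset.prod_mul_distrib]
  refine Finset.prod_congr rfl fun p _ => ?_
  rw [mul_pow]

theorem cm_rpow (a : ℝ) {n : ℕ} (hn : n ≠ 0) : cm (fun p => (p : ℝ) ^ a) n = (n : ℝ) ^ a := by
  induction n using Nat.recOnMul with
  | zero => exact absurd rfl hn
  | one => simp
  | prime p hp => rw [cm_prime _ hp]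
  | mul m n hm hn' =>
    have hm0 : m ≠ 0 := fun h => hn (by simp [h])
    have hn0 : n ≠ 0 := fun h => hn (by simp [h])
    rw [map_mul, hm hm0, hn' hn0, Nat.cast_mul, Real.mul_rpow (by (clear * - hm0; positivity)) (by positivity)]

theorem cm_const (c : ℝ) {n : ℕ} (hn : n ≠ 0) :
    cm (fun _ => c) n = c ^ n.primeFactorsList.length := by
  induction n using Nat.recOnMul with
  | zero => exact absurd rfl hn
  | one => simp
  | prime p hp => rw [cm_prime _ hp, Nat.primeFactorsList_prime hp]; simp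
  | mul m n hm hn' =>
    have hm0 : m ≠ 0 := fun h => hn (by simp [h])
    have hn0 : n ≠ 0 := fun h => hn (by simp [h])
    rw [map_mul, hm hm0, hn' hn0, ← pow_add, ← List.length_append,
      (Nat.perm_primeFactorsList_mul hm0 hn0).length_eq]

/-! ### Telescoping -/

/-- `cm (F + G) n ≤ cm F n + ∑_{p ∣ n} v_p(n) G(p) cm (F + G) (n / p)` -/
theorem cm_tele {F G : ℕ → ℝ} (hF : ∀ p, p.Prime → 0 ≤ F p) (hG : ∀ p, p.Prime → 0 ≤ G p)
    (n : ℕ) : n ≠ 0 →
    cm (fun p => F p + G p) n ≤ cm F n +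
      ∑ p ∈ n.primeFactors, (n.factorization p : ℝ) * (G p * cm (fun p => F p + G p) (n / p)) := by
  induction n using Nat.recOnMul with
  | zero => intro h; exact absurd rfl h
  | one => intro _; simp
  | prime p hp =>
    intro _
    rw [cm_prime _ hp, cm_prime _ hp, hp.primeFactors, Finset.sum_singleton, hp.factorization_self,
      Nat.div_self hp.pos, map_one]
    simp
  | mul m n hm hn =>
    intro hmn
    have hm0 : m ≠ 0 := fun h => hmn (by simp [h])
    have hn0 : n ≠ 0 := fun h => hmn (by simp [h])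
    set W := cm (fun p => F p + G p) with hW
    have hW0 : ∀ k, 0 ≤ W k := fun k => cm_nonneg (fun p hp => add_nonneg (hF p hp) (hG p hp)) k
    have hF0 : ∀ k, 0 ≤ cm F k := fun k => cm_nonneg hF k
    have key : ∀ a b : ℕ, a ≠ 0 → b ≠ 0 →
        (∑ p ∈ a.primeFactors, (a.factorization p : ℝ) * (G p * W (a / p))) * W b =
        ∑ p ∈ (a * b).primeFactors, (a.factorization p : ℝ) * (G p * W (a * b / p)) := by
      intro a b ha hb
      rw [Finset.sum_mul, Nat.primeFactors_mul ha hb]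
      rw [← Finset.sum_subset (Finset.subset_union_left (s₂ := b.primeFactors)) ?_]
      · refine Finset.sum_congr rfl fun p hp => ?_
        have hpa := Nat.dvd_of_mem_primeFactors hp
        have h1 : a * b / p = a / p * b := (Nat.div_mul_right_comm hpa b).symm
        rw [h1, map_mul]; ring
      · intro p hp hpa
        have : a.factorization p = 0 := by
          rw [← Finsupp.notMem_support_iff, Nat.support_factorization]; exact hpa
        rw [this]; simp
    have h1 := hm hm0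
    have h2 := hn hn0
    calc W (m * n) = W m * W n := map_mul W m n
      _ ≤ (cm F m + ∑ p ∈ m.primeFactors, (m.factorization p : ℝ) * (G p * W (m / p))) * W n :=
          mul_le_mul_of_nonneg_right h1 (hW0 n)
      _ = cm F m * W n + ∑ p ∈ (m * n).primeFactors,
            (m.factorization p : ℝ) * (G p * W (m * n / p)) := by
          rw [add_mul, key m n hm0 hn0]
      _ ≤ cm F m * (cm F n + ∑ p ∈ n.primeFactors, (n.factorization p : ℝ) * (G p * W (n / p))) +
            ∑ p ∈ (m * n).primeFactors, (m.factorization p : ℝ) * (G p * W (m * n / p)) := by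
          gcongr
          exact hF0 m
      _ ≤ cm F (m * n) + (∑ p ∈ n.primeFactors, (n.factorization p : ℝ) * (G p * W (n / p))) * W m
            + ∑ p ∈ (m * n).primeFactors, (m.factorization p : ℝ) * (G p * W (m * n / p)) := by
          rw [mul_add, map_mul, mul_comm (cm F m) (∑ p ∈ n.primeFactors, _)]
          have h3 : cm F m ≤ W m := cm_mono (fun p hp _ => hF p hp)
            (fun p hp _ => le_add_of_nonneg_right (hG p hp))
          have h4 : 0 ≤ ∑ p ∈ n.primeFactors, (n.factorization p : ℝ) * (G p * W (n / p)) :=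
            Finset.sum_nonneg fun p hp => mul_nonneg (Nat.cast_nonneg _)
              (mul_nonneg (hG p (Nat.prime_of_mem_primeFactors hp)) (hW0 _))
          have h5 := mul_le_mul_of_nonneg_left h3 h4
          (clear * - h5; linarith)
      _ = cm F (m * n) + ∑ p ∈ (m * n).primeFactors, ((m * n).factorization p : ℝ) *
            (G p * W (m * n / p)) := by
          rw [key n m hn0 hm0, mul_comm n m, add_assoc, ← Finset.sum_add_distrib]
          congr 1
          refine Finset.sum_congr rfl fun p _ => ?_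
          rw [Nat.factorization_mul hm0 hn0, Finsupp.add_apply]
          push_cast; ring

/-! ### Splitting -/

/-- the completely multiplicative function as an arithmetic function -/
noncomputable def cmA (F : ℕ → ℝ) : ArithmeticFunction ℝ where
  toFun := cm F
  map_zero' := map_zero _

theorem cmA_apply (F : ℕ → ℝ) (n : ℕ) : cmA F n = cm F n := rfl

theorem cmA_mult (F : ℕ → ℝ) : (cmA F).IsMultiplicative := by
  refine ⟨?_, ?_⟩
  · rw [cmA_apply, map_one]
  · intro m n _
    rw [cmA_apply, cmA_apply, cmA_apply, map_mul]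

/-- two-fold splitting with weights `t`, `1 - t` -/
theorem cm_split {F G : ℕ → ℝ} (hF : ∀ p, p.Prime → 0 ≤ F p) (hG : ∀ p, p.Prime → 0 ≤ G p)
    (t u : ℝ) (ht : 0 < t) (hu : 0 < u) (htu : t + u = 1) {n : ℕ} (hn : n ≠ 0) :
    cm (fun p => F p + G p) n ≤
      ∑ x ∈ n.divisorsAntidiagonal, cm (fun p => t⁻¹ * F p) x.1 * cm (fun p => u⁻¹ * G p) x.2 := by
  have h1 : ∑ x ∈ n.divisorsAntidiagonal, cm (fun p => t⁻¹ * F p) x.1 * cm (fun p => u⁻¹ * G p) x.2
      = (cmA (fun p => t⁻¹ * F p) * cmA (fun p => u⁻¹ * G p)) n := by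
    rw [ArithmeticFunction.mul_apply]; rfl
  rw [h1, ((cmA_mult _).mul (cmA_mult _)).multiplicative_factorization _ hn, cm_apply _ hn]
  unfold Finsupp.prod
  refine Finset.prod_le_prod (fun p hp => pow_nonneg ?_ _) fun p hp => ?_
  · have hpp := Nat.prime_of_mem_primeFactors (Nat.support_factorization n ▸ hp)
    exact add_nonneg (hF p hpp) (hG p hpp)
  · have hpp := Nat.prime_of_mem_primeFactors (Nat.support_factorization n ▸ hp)
    set v := n.factorization p
    show (F p + G p) ^ v ≤ (cmA (fun p => t⁻¹ * F p) * cmA (fun p => u⁻¹ * G p)) (p ^ v)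
    rw [ArithmeticFunction.mul_apply, Nat.sum_divisorsAntidiagonal
      (f := fun a b => cmA (fun p => t⁻¹ * F p) a * cmA (fun p => u⁻¹ * G p) b),
      Nat.sum_divisors_prime_pow hpp]
    rw [add_pow]
    refine Finset.sum_le_sum fun j hj => ?_
    have hjv : j ≤ v := by have := Finset.mem_range.mp hj; omega
    have h2 : p ^ v / p ^ j = p ^ (v - j) := Nat.pow_div hjv hpp.pos
    rw [h2, cmA_apply, cmA_apply, cm_pow_prime _ hpp, cm_pow_prime _ hpp, mul_pow, mul_pow]
    have h3 : (v.choose j : ℝ) * (t ^ j * u ^ (v - j)) ≤ 1 := by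
      have h4 : (t + u) ^ v = 1 := by rw [htu, one_pow]
      rw [add_pow] at h4
      have h5 : t ^ j * u ^ (v - j) * (v.choose j : ℝ) ≤
          ∑ m ∈ Finset.range (v + 1), t ^ m * u ^ (v - m) * (v.choose m : ℝ) :=
        Finset.single_le_sum (f := fun m => t ^ m * u ^ (v - m) * (v.choose m : ℝ))
          (fun m _ => by (clear * - ht hu; positivity)) hj
      rw [h4] at h5
      (clear * - h5; linarith)
    have h6 : (v.choose j : ℝ) ≤ t⁻¹ ^ j * u⁻¹ ^ (v - j) := by
      rw [inv_pow, inv_pow, ← mul_inv]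
      rw [le_inv_comm₀ ?_ (by positivity)]
      · rw [← one_div, le_div_iff₀ (by exact_mod_cast Nat.choose_pos hjv)]
        (clear * - h3; linarith)
      · exact_mod_cast Nat.choose_pos hjv
    have h7 : 0 ≤ F p ^ j * G p ^ (v - j) :=
      mul_nonneg (pow_nonneg (hF p hpp) _) (pow_nonneg (hG p hpp) _)
    calc F p ^ j * G p ^ (v - j) * (v.choose j : ℝ)
        ≤ F p ^ j * G p ^ (v - j) * (t⁻¹ ^ j * u⁻¹ ^ (v - j)) :=
          mul_le_mul_of_nonneg_left h6 h7
      _ = _ := by ring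

/-- three-fold splitting with factors `3` -/
theorem cm_split_three {F G H : ℕ → ℝ} (hF : ∀ p, p.Prime → 0 ≤ F p)
    (hG : ∀ p, p.Prime → 0 ≤ G p) (hH : ∀ p, p.Prime → 0 ≤ H p) {n : ℕ} (hn : n ≠ 0) :
    cm (fun p => F p + G p + H p) n ≤
      ∑ x ∈ n.divisorsAntidiagonal, (∑ y ∈ x.1.divisorsAntidiagonal,
        cm (fun p => 3 * F p) y.1 * cm (fun p => 3 * G p) y.2) * cm (fun p => 3 * H p) x.2 := by
  have h := cm_split (F := fun p => F p + G p) (G := H) (fun p hp => add_nonneg (hF p hp) (hG p hp))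
    hH (2 / 3) (1 / 3) (by norm_num) (by norm_num) (by norm_num) hn
  refine h.trans (Finset.sum_le_sum fun x hx => ?_)
  have hx1 : x.1 ≠ 0 := by
    have := Nat.mem_divisorsAntidiagonal.mp hx
    intro h0
    apply this.2
    rw [← this.1, h0, zero_mul]
  have h3 : (fun p => (1 / 3 : ℝ)⁻¹ * H p) = fun p => 3 * H p := by
    funext p; norm_num
  have h4 : cm (fun p => (2 / 3 : ℝ)⁻¹ * (F p + G p)) x.1 ≤
      ∑ y ∈ x.1.divisorsAntidiagonal, cm (fun p => 3 * F p) y.1 * cm (fun p => 3 * G p) y.2 := by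
    have h5 := cm_split (F := fun p => (3 / 2 : ℝ) * F p) (G := fun p => (3 / 2 : ℝ) * G p)
      (fun p hp => mul_nonneg (by norm_num) (hF p hp))
      (fun p hp => mul_nonneg (by norm_num) (hG p hp)) (1 / 2) (1 / 2) (by norm_num) (by norm_num)
      (by norm_num) hx1
    have e1 : (fun p => (2 / 3 : ℝ)⁻¹ * (F p + G p)) = fun p => 3 / 2 * F p + 3 / 2 * G p := by
      funext p; ring
    have e2 : (fun p => (1 / 2 : ℝ)⁻¹ * (3 / 2 * F p)) = fun p => 3 * F p := by
      funext p; ring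
    have e3 : (fun p => (1 / 2 : ℝ)⁻¹ * (3 / 2 * G p)) = fun p => 3 * G p := by
      funext p; ring
    rw [e1]
    rw [e2, e3] at h5
    exact h5
  rw [h3]
  exact mul_le_mul_of_nonneg_right h4 (cm_nonneg (fun p hp => mul_nonneg (by norm_num) (hH p hp)) _)

/-! ### Sums -/

/-- `∑_{1 ≤ n ≤ N} cm F n ≤ exp (2 ∑_{p ≤ N} F p)` -/
theorem sum_cm_le {F : ℕ → ℝ} (hF : ∀ p, p.Prime → 0 ≤ F p) (hF2 : ∀ p, p.Prime → F p ≤ 1 / 2)
    (N : ℕ) : ∑ n ∈ Finset.Icc 1 N, cm F n ≤
      Real.exp (2 * ∑ p ∈ (Finset.Icc 1 N).filter Nat.Prime, F p) := by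
  have hlt : ∀ {p : ℕ}, p.Prime → ‖cm F p‖ < 1 := by
    intro p hp
    rw [cm_prime F hp, Real.norm_of_nonneg (hF p hp)]
    (clear * - hF2 hp; linarith [hF2 p hp])
  have hsm := EulerProduct.summable_and_hasSum_smoothNumbers_prod_primesBelow_geometric
    (f := ((cm F : ℕ →*₀ ℝ) : ℕ →* ℝ)) (fun hp => hlt hp) (N + 1)
  simp only [MonoidHom.coe_coe] at hsm
  have h1 : ∑ n ∈ Finset.Icc 1 N, cm F n ≤ ∏ p ∈ (N + 1).primesBelow, (1 - cm F p)⁻¹ := by
    rw [← hsm.2.tsum_eq]
    have hsub : ∀ n ∈ Finset.Icc 1 N, n ∈ Nat.smoothNumbers (N + 1) := by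
      intro n hn
      obtain ⟨hn1, hn2⟩ := Finset.mem_Icc.mp hn
      rw [Nat.mem_smoothNumbers']
      intro p _ hpn
      have := Nat.le_of_dvd (by omega) hpn
      omega
    classical
    have h2 : ∑ n ∈ Finset.Icc 1 N, cm F n =
        ∑ n ∈ (Finset.Icc 1 N).subtype (fun n => n ∈ Nat.smoothNumbers (N + 1)),
          cm F (n : ℕ) := (Finset.sum_subtype_of_mem (fun n => cm F n) hsub).symm
    rw [h2]
    refine Summable.sum_le_tsum _ (fun n _ => cm_nonneg hF _) ?_
    exact hsm.2.summable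
  refine h1.trans ?_
  rw [Finset.mul_sum, Real.exp_sum]
  have h3 : (N + 1).primesBelow = (Finset.Icc 1 N).filter Nat.Prime := by
    ext p
    rw [Nat.mem_primesBelow, Finset.mem_filter, Finset.mem_Icc]
    constructor
    · rintro ⟨h, hp⟩; exact ⟨⟨hp.pos, by omega⟩, hp⟩
    · rintro ⟨⟨_, h⟩, hp⟩; exact ⟨by omega, hp⟩
  rw [h3]
  refine Finset.prod_le_prod (fun p hp => ?_) fun p hp => ?_
  · have hpp := (Finset.mem_filter.mp hp).2
    rw [cm_prime F hpp]
    have := hF2 p hpp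
    exact inv_nonneg.mpr (by linarith)
  · have hpp := (Finset.mem_filter.mp hp).2
    rw [cm_prime F hpp]
    have h4 := hF2 p hpp
    have h5 := hF p hpp
    rw [inv_le_iff_one_le_mul₀ (by linarith)]
    have h6 : 1 + 2 * F p ≤ Real.exp (2 * F p) := by
      have := Real.add_one_le_exp (2 * F p); (clear * - this; linarith)
    (clear * - h6 h4 h5; nlinarith)

/-- `∑_{2 ≤ n ≤ N} cm F n ≤ exp (2 ∑_{p ≤ N} F p) - 1` -/
theorem sum_cm_le' {F : ℕ → ℝ} (hF : ∀ p, p.Prime → 0 ≤ F p) (hF2 : ∀ p, p.Prime → F p ≤ 1 / 2)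
    (N : ℕ) : ∑ n ∈ Finset.Icc 2 N, cm F n ≤
      Real.exp (2 * ∑ p ∈ (Finset.Icc 1 N).filter Nat.Prime, F p) - 1 := by
  have h := sum_cm_le hF hF2 N
  rcases Nat.eq_zero_or_pos N with h0 | h0
  · subst h0; simp
  · have h1 : Finset.Icc 1 N = insert 1 (Finset.Icc 2 N) := by
      ext x; simp only [Finset.mem_insert, Finset.mem_Icc]; omega
    rw [h1, Finset.sum_insert (by simp), map_one] at h
    rw [h1]
    (clear * - h; linarith)

end Pool.Agent.M17.Helper33.KS
end

/- Helper53.KN.Helper14.KSP.Power -/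
section
/-! The power lemma of project KS (MP_768c9c). -/

set_option autoImplicit false

open Finset

namespace Pool.Agent.M17.Helper14.KSP

/-- number of multiples of `h` in an interval -/
theorem card_multiples_le (a L h : ℕ) (hh : 0 < h) :
    (((Ico a (a + L)).filter (fun k => h ∣ k)).card : ℝ) ≤ (L : ℝ) / h + 1 := by
  have h1 : ((Ico a (a + L)).filter (fun k => h ∣ k)).card ≤ L / h + 1 := by
    -- the map k ↦ k / h is injective on multiples, with image in a short interval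
    have hinj : Set.InjOn (fun k => k / h) ((Ico a (a + L)).filter (fun k => h ∣ k) : Set ℕ) := by
      intro x hx y hy hxy
      have hx' := (mem_filter.mp (mem_coe.mp hx)).2
      have hy' := (mem_filter.mp (mem_coe.mp hy)).2
      have : x / h * h = y / h * h := by simp only at hxy; rw [hxy]
      rwa [Nat.div_mul_cancel hx', Nat.div_mul_cancel hy'] at this
    rw [← card_image_of_injOn hinj]
    rcases (((Ico a (a + L)).filter (fun k => h ∣ k)).image (fun k => k / h)).eq_empty_or_nonempty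
      with he | hne
    · rw [he]; simp
    · set I := ((Ico a (a + L)).filter (fun k => h ∣ k)).image (fun k => k / h) with hI
      have hmin := I.min'_mem hne
      have hsub : I ⊆ Icc (I.min' hne) (I.min' hne + L / h) := by
        intro z hz
        refine mem_Icc.mpr ⟨I.min'_le z hz, ?_⟩
        obtain ⟨k, hk, rfl⟩ := mem_image.mp hz
        obtain ⟨k0, hk0, hk0e⟩ := mem_image.mp hmin
        have hk1 := mem_filter.mp hk
        have hk2 := mem_filter.mp hk0
        rw [← hk0e]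
        obtain ⟨u, hu⟩ := hk1.2
        obtain ⟨u0, hu0⟩ := hk2.2
        have hb1 := mem_Ico.mp hk1.1
        have hb2 := mem_Ico.mp hk2.1
        rw [hu, hu0, Nat.mul_div_cancel_left _ hh, Nat.mul_div_cancel_left _ hh]
        have : h * u < h * u0 + L := by rw [← hu, ← hu0]; omega
        by_contra hlt
        push Not at hlt
        have h3 : L / h + 1 + u0 ≤ u := by omega
        have h4 : h * (L / h + 1 + u0) ≤ h * u := Nat.mul_le_mul_left h h3
        have h5 : L < h * (L / h + 1) := by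
          have := Nat.lt_mul_div_succ L hh
          simpa using this
        have h6 : h * (L / h + 1 + u0) = h * (L / h + 1) + h * u0 := by ring
        omega
      calc I.card ≤ (Icc (I.min' hne) (I.min' hne + L / h)).card := card_le_card hsub
        _ = L / h + 1 := by
          rw [Nat.card_Icc]
          generalize L / h = z
          omega
  calc (((Ico a (a + L)).filter (fun k => h ∣ k)).card : ℝ) ≤ ((L / h + 1 : ℕ) : ℝ) := by
        exact_mod_cast h1
    _ ≤ (L : ℝ) / h + 1 := by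
        push_cast
        have := @Nat.cast_div_le ℝ _ _ _ L h
        linarith

end Pool.Agent.M17.Helper14.KSP
end

/- Helper53.KN.Helper1.KSZ.LineA7b -/
section
/-! (A7) in the shape of Helper60.KS.St (project KSZ). -/

set_option autoImplicit false

open Complex
open scoped ComplexConjugate

namespace Pool.Agent.M17.Helper1.KSZ

theorem a5half_of_a5 (h : Pool.Agent.M17.Helper60.KS.A5) : Pool.Agent.M17.Helper10.KSZ.A5half := by
  obtain ⟨C, hC, -, h2⟩ := h
  refine ⟨C, hC, fun t ht => ?_⟩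
  have key : ∀ u : ℝ, 2 ≤ u → ‖riemannZeta ((5 / 7 : ℝ) + (u : ℂ) * Complex.I)‖ ≤
      C * u ^ (1 / 14 : ℝ) * Real.log u := by
    intro u hu
    have := h2 (5 / 7) u le_rfl (by norm_num) hu
    rwa [show ((1 : ℝ) - 5 / 7) / 4 = 1 / 14 by norm_num] at this
  rcases le_total 0 t with h0 | h0
  · rw [abs_of_nonneg h0] at ht ⊢
    exact key t ht
  · rw [abs_of_nonpos h0] at ht ⊢
    have e : ((5 / 7 : ℝ) : ℂ) + t * I = conj (((5 / 7 : ℝ) : ℂ) + ((-t : ℝ) : ℂ) * I) := by
      rw [map_add, map_mul, Complex.conj_I, Complex.conj_ofReal, Complex.conj_ofReal]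
      push_cast; ring
    rw [e, riemannZeta_conj, Complex.norm_conj]
    exact key (-t) ht

theorem a7_helper60 (h : Pool.Agent.M17.Helper60.KS.A5) : Pool.Agent.M17.Helper60.KS.A7 := by
  obtain ⟨C, hC, h1⟩ := a7 (a5half_of_a5 h)
  refine ⟨C, hC, fun t ht => ?_⟩
  have := h1 t (by rw [abs_of_nonneg (by linarith)]; exact ht)
  rw [abs_of_nonneg (by linarith : (0 : ℝ) ≤ t)] at this
  have e : ((2 / 7 : ℝ) : ℂ) = 2 / 7 := by push_cast; ring
  rwa [e] at this

end Pool.Agent.M17.Helper1.KSZ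
end

/- Helper53.KN.Helper69.EK.Selberg -/
section
/-!
Module F of MP_4e26da_nt: Selberg upper bound sieve weights with sharp main term.
-/

set_option autoImplicit false

namespace Pool.Agent.M17.Helper69.EK

open Finset ArithmeticFunction
open scoped ArithmeticFunction.Moebius ArithmeticFunction.zeta

/-- sum over the numbers with a given set of prime factors -/
theorem claim_rad (P : Finset ℕ) : (∀ p ∈ P, p.Prime) → ∀ N : ℕ,
    ∑ m ∈ (Icc 1 N).filter (fun m => m.primeFactors = P), (1 : ℝ) / m ≤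
      ∏ p ∈ P, (1 : ℝ) / (p - 1) := by
  induction P using Finset.induction_on with
  | empty =>
    intro _ N
    rw [Finset.prod_empty]
    have h1 : (Icc 1 N).filter (fun m => m.primeFactors = ∅) ⊆ {1} := by
      intro m hm
      rw [Finset.mem_filter, Finset.mem_Icc, Nat.primeFactors_eq_empty] at hm
      rw [Finset.mem_singleton]
      omega
    calc ∑ m ∈ (Icc 1 N).filter (fun m => m.primeFactors = ∅), (1 : ℝ) / m
        ≤ ∑ m ∈ ({1} : Finset ℕ), (1 : ℝ) / m :=
          Finset.sum_le_sum_of_subset_of_nonneg h1 (fun _ _ _ => by positivity)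
      _ = 1 := by simp
  | insert p P hp ih =>
    intro hP N
    have hpp : p.Prime := hP p (Finset.mem_insert_self _ _)
    have hP' : ∀ q ∈ P, q.Prime := fun q hq => hP q (Finset.mem_insert_of_mem hq)
    have ih' := ih hP' N
    rw [Finset.prod_insert hp]
    have hp1 : (1 : ℝ) < p := by exact_mod_cast hpp.one_lt
    -- the injection
    set S := (Icc 1 N).filter (fun m => m.primeFactors = insert p P) with hS
    set T := (Icc 1 N).filter (fun m => m.primeFactors = P) with hT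
    have hSm : ∀ m ∈ S, m ≠ 0 ∧ 1 ≤ m.factorization p ∧ m.factorization p ≤ N ∧
        m / p ^ m.factorization p ∈ T := by
      intro m hm
      rw [hS, Finset.mem_filter, Finset.mem_Icc] at hm
      obtain ⟨⟨hm1, hm2⟩, hm3⟩ := hm
      have hm0 : m ≠ 0 := by omega
      have hpm : p ∈ m.primeFactors := by rw [hm3]; exact Finset.mem_insert_self _ _
      have hpd : p ∣ m := Nat.dvd_of_mem_primeFactors hpm
      refine ⟨hm0, (hpp.dvd_iff_one_le_factorization hm0).1 hpd, ?_, ?_⟩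
      · exact ((Nat.factorization_lt p hm0).le).trans hm2
      · rw [hT, Finset.mem_filter, Finset.mem_Icc]
        have hpos : 0 < m / p ^ m.factorization p := Nat.ordCompl_pos p hm0
        refine ⟨⟨hpos, (Nat.div_le_self _ _).trans hm2⟩, ?_⟩
        rw [← Nat.support_factorization, Nat.factorization_ordCompl, Finsupp.support_erase,
          Nat.support_factorization, hm3, Finset.erase_insert hp]
    have hsum : ∑ m ∈ S, (1 : ℝ) / m ≤
        ∑ x ∈ (Icc 1 N) ×ˢ T, (1 : ℝ) / (p : ℝ) ^ x.1 * (1 / x.2) := by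
      have h1 : ∑ m ∈ S, (1 : ℝ) / m = ∑ x ∈ S.image (fun m => (m.factorization p,
          m / p ^ m.factorization p)), (1 : ℝ) / (p : ℝ) ^ x.1 * (1 / (x.2 : ℕ)) := by
        rw [Finset.sum_image]
        · apply Finset.sum_congr rfl
          intro m hm
          have h2 : (m : ℝ) = (p : ℝ) ^ m.factorization p * ((m / p ^ m.factorization p : ℕ) : ℝ) := by
            exact_mod_cast (Nat.ordProj_mul_ordCompl_eq_self m p).symm
          conv_lhs => rw [h2]
          rw [one_div_mul_one_div]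
        · intro m hm m' hm' heq
          obtain ⟨h2, h3⟩ := Prod.mk.inj heq
          rw [← Nat.ordProj_mul_ordCompl_eq_self m p, ← Nat.ordProj_mul_ordCompl_eq_self m' p]
          rw [h3, h2]
      rw [h1]
      apply Finset.sum_le_sum_of_subset_of_nonneg
      · intro x hx
        rw [Finset.mem_image] at hx
        obtain ⟨m, hm, rfl⟩ := hx
        obtain ⟨_, h2, h3, h4⟩ := hSm m hm
        rw [Finset.mem_product, Finset.mem_Icc]
        exact ⟨⟨h2, h3⟩, h4⟩
      · intro x _ _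
        positivity
    rw [Finset.sum_product] at hsum
    simp only at hsum
    rw [← Finset.sum_mul_sum] at hsum
    have hgeo : ∑ k ∈ Icc 1 N, (1 : ℝ) / (p : ℝ) ^ k ≤ 1 / (p - 1) := by
      have h2 : ∀ N : ℕ, ∑ k ∈ Icc 1 N, (1 : ℝ) / (p : ℝ) ^ k = (1 - 1 / (p : ℝ) ^ N) / (p - 1) := by
        intro N
        have hp0 : (p : ℝ) ≠ 0 := by positivity
        have hp1' : (p : ℝ) - 1 ≠ 0 := by linarith
        induction N with
        | zero => simp
        | succ N ihN =>
          rw [Finset.sum_Icc_succ_top (by omega), ihN, pow_succ]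
          field_simp
          ring
      rw [h2]
      apply div_le_div_of_nonneg_right _ (by linarith)
      have : (0 : ℝ) ≤ 1 / (p : ℝ) ^ N := by positivity
      linarith
    calc ∑ m ∈ S, (1 : ℝ) / m ≤ _ := hsum
      _ ≤ 1 / (p - 1) * ∏ p ∈ P, (1 : ℝ) / (p - 1) := by
        apply mul_le_mul hgeo ih' (Finset.sum_nonneg (fun _ _ => by positivity))
        apply div_nonneg zero_le_one; linarith

theorem totient_sqf {l : ℕ} (hl : Squarefree l) :
    (1 : ℝ) / l.totient = ∏ p ∈ l.primeFactors, (1 : ℝ) / (p - 1) := by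
  rw [Nat.totient_eq_div_primeFactors_mul, Nat.prod_primeFactors_of_squarefree hl,
    Nat.div_self (Nat.pos_of_ne_zero hl.ne_zero), one_mul, Finset.prod_div_distrib,
    Finset.prod_const_one]
  congr 1
  push_cast
  apply Finset.prod_congr rfl
  intro p hp
  rw [Nat.cast_sub (Nat.prime_of_mem_primeFactors hp).one_le, Nat.cast_one]

theorem squarefree_prod_primes (P : Finset ℕ) (hP : ∀ p ∈ P, p.Prime) :
    Squarefree (∏ p ∈ P, p) := by
  apply Finset.squarefree_prod_of_pairwise_isCoprime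
  · intro a ha b hb hab
    show IsRelPrime a b
    rw [← Nat.coprime_iff_isRelPrime]
    exact (Nat.coprime_primes (hP a ha) (hP b hb)).2 hab
  · intro p hp
    exact (hP p hp).prime.squarefree

/-- coprime index set -/
noncomputable def AA (D R : ℕ) : Finset ℕ := by
  classical
  exact (Icc 1 R).filter (fun l => Squarefree l ∧ Nat.Coprime l D)

theorem mem_AA {D R l : ℕ} : l ∈ AA D R ↔ (1 ≤ l ∧ l ≤ R) ∧ Squarefree l ∧ Nat.Coprime l D := by
  classical
  unfold AA
  rw [Finset.mem_filter, Finset.mem_Icc]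

noncomputable def GG (D R : ℕ) : ℝ := ∑ l ∈ AA D R, (1 : ℝ) / l.totient

theorem sum_mu (n : ℕ) : ∑ d ∈ n.divisors, (μ d : ℤ) = if n = 1 then 1 else 0 := by
  have h := congrArg (fun f : ArithmeticFunction ℤ => f n) moebius_mul_coe_zeta
  simp only [coe_mul_zeta_apply, one_apply] at h
  exact h

theorem mu_interval {l m : ℕ} (hm : Squarefree m) :
    ∑ d ∈ m.divisors.filter (fun d => l ∣ d), (μ d : ℤ) = if m = l then μ l else 0 := by
  classical
  have hm0 : m ≠ 0 := hm.ne_zero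
  by_cases hl : l ∣ m
  · obtain ⟨e, rfl⟩ := hl
    have hl0 : l ≠ 0 := fun h => hm0 (by rw [h, zero_mul])
    have he0 : e ≠ 0 := fun h => hm0 (by rw [h, mul_zero])
    have hcop : Nat.Coprime l e := Nat.coprime_of_squarefree_mul hm
    have h1 : ∑ d ∈ (l * e).divisors.filter (fun d => l ∣ d), (μ d : ℤ) =
        ∑ f ∈ e.divisors, (μ (l * f) : ℤ) := by
      symm
      apply Finset.sum_bij (fun f _ => l * f)
      · intro f hf
        rw [Nat.mem_divisors] at hf
        rw [Finset.mem_filter, Nat.mem_divisors]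
        exact ⟨⟨Nat.mul_dvd_mul_left l hf.1, hm0⟩, Nat.dvd_mul_right _ _⟩
      · intro f _ f' _ h
        exact Nat.eq_of_mul_eq_mul_left (Nat.pos_of_ne_zero hl0) h
      · intro d hd
        rw [Finset.mem_filter, Nat.mem_divisors] at hd
        obtain ⟨⟨hd1, _⟩, f, rfl⟩ := hd
        exact ⟨f, Nat.mem_divisors.2 ⟨Nat.dvd_of_mul_dvd_mul_left (Nat.pos_of_ne_zero hl0) hd1,
          he0⟩, rfl⟩
      · intro f _
        rfl
    rw [h1]
    have h2 : ∀ f ∈ e.divisors, (μ (l * f) : ℤ) = μ l * μ f := by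
      intro f hf
      rw [Nat.mem_divisors] at hf
      exact isMultiplicative_moebius.map_mul_of_coprime (hcop.coprime_dvd_right hf.1)
    rw [Finset.sum_congr rfl h2, ← Finset.mul_sum, sum_mu]
    by_cases he : e = 1
    · subst he; simp
    · rw [if_neg he, mul_zero, if_neg]
      intro h
      apply he
      exact Nat.eq_of_mul_eq_mul_left (Nat.pos_of_ne_zero hl0) (by rw [h, mul_one])
  · rw [if_neg (fun h => hl (by rw [h])), Finset.sum_eq_zero]
    intro d hd
    rw [Finset.mem_filter, Nat.mem_divisors] at hd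
    exact absurd (hd.2.trans hd.1.1) hl

/-- the weights -/
noncomputable def lamW (D R : ℕ) (d : ℕ) : ℝ := by
  classical
  exact if d ∈ AA D R then (μ d : ℝ) * d / GG D R *
    ∑ m ∈ (AA D R).filter (fun m => d ∣ m), (1 : ℝ) / m.totient else 0

theorem GG_pos (D R : ℕ) (hR : 1 ≤ R) : 0 < GG D R := by
  unfold GG
  apply Finset.sum_pos'
  · intro l _; positivity
  · exact ⟨1, mem_AA.2 ⟨⟨le_refl _, hR⟩, squarefree_one, Nat.coprime_one_left D⟩, by simp⟩

theorem y_eq (D R l : ℕ) (hR : 1 ≤ R) :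
    ∑ d ∈ (Icc 1 R).filter (fun d => l ∣ d), lamW D R d / d =
      if l ∈ AA D R then (μ l : ℝ) / (GG D R * l.totient) else 0 := by
  classical
  have hG := GG_pos D R hR
  -- restrict to AA
  have h1 : ∑ d ∈ (Icc 1 R).filter (fun d => l ∣ d), lamW D R d / d =
      ∑ d ∈ (AA D R).filter (fun d => l ∣ d), (1 / GG D R) * ((μ d : ℝ) *
        ∑ m ∈ (AA D R).filter (fun m => d ∣ m), (1 : ℝ) / m.totient) := by
    symm
    have hsub : (AA D R).filter (fun d => l ∣ d) ⊆ (Icc 1 R).filter (fun d => l ∣ d) := by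
      intro d hd
      rw [Finset.mem_filter, mem_AA] at hd
      rw [Finset.mem_filter, Finset.mem_Icc]
      exact ⟨hd.1.1, hd.2⟩
    rw [← Finset.sum_subset hsub]
    · apply Finset.sum_congr rfl
      intro d hd
      rw [Finset.mem_filter] at hd
      have hd0 : (d : ℝ) ≠ 0 := by
        have := (mem_AA.1 hd.1).1.1
        positivity
      unfold lamW
      rw [if_pos hd.1]
      field_simp
    · intro d hd hd'
      rw [Finset.mem_filter] at hd hd'
      unfold lamW
      rw [if_neg (fun h => hd' ⟨h, hd.2⟩), zero_div]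
  rw [h1, ← Finset.mul_sum]
  have h2 : ∑ d ∈ (AA D R).filter (fun d => l ∣ d), ((μ d : ℝ) *
        ∑ m ∈ (AA D R).filter (fun m => d ∣ m), (1 : ℝ) / m.totient) =
      ∑ m ∈ AA D R, (1 : ℝ) / m.totient * (if m = l then (μ l : ℝ) else 0) := by
    have h3 : ∀ d, ∑ m ∈ (AA D R).filter (fun m => d ∣ m), (1 : ℝ) / m.totient =
        ∑ m ∈ AA D R, if d ∣ m then (1 : ℝ) / m.totient else 0 := fun d => Finset.sum_filter _ _
    simp only [h3, Finset.mul_sum]
    rw [Finset.sum_comm]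
    apply Finset.sum_congr rfl
    intro m hm
    have hmA := mem_AA.1 hm
    have h4 := mu_interval (l := l) hmA.2.1
    have h5 : ((∑ d ∈ m.divisors.filter (fun d => l ∣ d), (μ d : ℤ) : ℤ) : ℝ) =
        if m = l then (μ l : ℝ) else 0 := by
      rw [h4]; push_cast; rfl
    rw [← h5, Int.cast_sum, Finset.mul_sum]
    have h6 : m.divisors.filter (fun d => l ∣ d) =
        ((AA D R).filter (fun d => l ∣ d)).filter (fun d => d ∣ m) := by
      ext d
      rw [Finset.mem_filter, Nat.mem_divisors, Finset.mem_filter, Finset.mem_filter, mem_AA]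
      constructor
      · rintro ⟨⟨hd1, _⟩, hd2⟩
        have hm1 : 0 < m := hmA.1.1
        exact ⟨⟨⟨⟨Nat.pos_of_dvd_of_pos hd1 hm1, (Nat.le_of_dvd hm1 hd1).trans hmA.1.2⟩,
          hmA.2.1.squarefree_of_dvd hd1, hmA.2.2.coprime_dvd_left hd1⟩, hd2⟩, hd1⟩
      · rintro ⟨⟨hd1, hd2⟩, hd3⟩
        exact ⟨⟨hd3, hmA.2.1.ne_zero⟩, hd2⟩
    rw [h6, Finset.sum_filter (p := fun d => d ∣ m)]
    apply Finset.sum_congr rfl
    intro d _
    by_cases hd : d ∣ m
    · rw [if_pos hd, if_pos hd]; ring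
    · rw [if_neg hd, if_neg hd, mul_zero]
  rw [h2]
  by_cases hl : l ∈ AA D R
  · rw [if_pos hl, Finset.sum_eq_single l]
    · rw [if_pos rfl]
      have : (l.totient : ℝ) ≠ 0 := by
        have := Nat.totient_pos.2 (mem_AA.1 hl).1.1
        positivity
      field_simp
    · intro m _ hml
      rw [if_neg hml, mul_zero]
    · intro h; exact absurd hl h
  · rw [if_neg hl, Finset.sum_eq_zero, mul_zero]
    intro m hm
    by_cases hml : m = l
    · subst hml
      exact absurd hm hl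
    · rw [if_neg hml, mul_zero]

end Pool.Agent.M17.Helper69.EK
end

/- Helper53.KN.Helper53.AV.SelW -/
section
/-!
# Selberg's weights: the quadratic form and the bound `|λ_d| ≤ 1`
-/

set_option autoImplicit false

namespace Pool.Agent.M17.Helper53AV

open Finset ArithmeticFunction Pool.Agent.M17.Helper69.EK
open scoped ArithmeticFunction.Moebius ArithmeticFunction.zeta

theorem quad (D R : ℕ) (hR : 1 ≤ R) :
    ∑ d₁ ∈ Finset.Icc 1 R, ∑ d₂ ∈ Finset.Icc 1 R, lamW D R d₁ * lamW D R d₂ / (Nat.lcm d₁ d₂ : ℝ) =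
      1 / GG D R := by
  classical
  have hG := GG_pos D R hR
  have hlcm : ∀ d₁ ∈ Icc 1 R, ∀ d₂ ∈ Icc 1 R,
      lamW D R d₁ * lamW D R d₂ / (Nat.lcm d₁ d₂ : ℝ) =
      ∑ l ∈ Icc 1 R, (l.totient : ℝ) * ((if l ∣ d₁ then lamW D R d₁ / d₁ else 0) *
        (if l ∣ d₂ then lamW D R d₂ / d₂ else 0)) := by
    intro d₁ h₁ d₂ h₂
    rw [Finset.mem_Icc] at h₁ h₂
    have e1 : (d₁ : ℝ) ≠ 0 := by have := h₁.1; positivity
    have e2 : (d₂ : ℝ) ≠ 0 := by have := h₂.1; positivity
    have hgcd : ((d₁.gcd d₂ : ℕ) : ℝ) = ∑ l ∈ Icc 1 R,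
        if l ∣ d₁ ∧ l ∣ d₂ then (l.totient : ℝ) else 0 := by
      rw [← Finset.sum_filter]
      conv_lhs => rw [← Nat.sum_totient (d₁.gcd d₂)]
      rw [Nat.cast_sum]
      apply Finset.sum_congr _ (fun _ _ => rfl)
      ext l
      have hgpos : 0 < d₁.gcd d₂ := Nat.gcd_pos_of_pos_left _ (by omega)
      rw [Nat.mem_divisors, Finset.mem_filter, Finset.mem_Icc, Nat.dvd_gcd_iff]
      constructor
      · rintro ⟨h, _⟩
        exact ⟨⟨Nat.pos_of_dvd_of_pos h.1 (by omega), (Nat.le_of_dvd (by omega) h.1).trans h₁.2⟩,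
          h⟩
      · rintro ⟨_, h⟩
        exact ⟨h, hgpos.ne'⟩
    have hl : (Nat.lcm d₁ d₂ : ℝ) = d₁ * d₂ / (d₁.gcd d₂ : ℕ) := by
      have hg0 : ((d₁.gcd d₂ : ℕ) : ℝ) ≠ 0 := by
        have : 0 < d₁.gcd d₂ := Nat.gcd_pos_of_pos_left _ (by omega)
        positivity
      rw [eq_div_iff hg0]
      have := Nat.gcd_mul_lcm d₁ d₂
      rw [mul_comm]
      exact_mod_cast this
    rw [hl, div_div_eq_mul_div, hgcd, Finset.mul_sum, Finset.sum_div]
    apply Finset.sum_congr rfl
    intro l _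
    by_cases c1 : l ∣ d₁
    · by_cases c2 : l ∣ d₂
      · rw [if_pos ⟨c1, c2⟩, if_pos c1, if_pos c2]
        field_simp
      · rw [if_neg (fun h => c2 h.2), if_neg c2]
        simp
    · rw [if_neg (fun h => c1 h.1), if_neg c1]
      simp
  rw [Finset.sum_congr rfl (fun d₁ h₁ => Finset.sum_congr rfl (fun d₂ h₂ => hlcm d₁ h₁ d₂ h₂))]
  have hswap : ∑ d₁ ∈ Icc 1 R, ∑ d₂ ∈ Icc 1 R, ∑ l ∈ Icc 1 R, (l.totient : ℝ) *
      ((if l ∣ d₁ then lamW D R d₁ / d₁ else 0) * (if l ∣ d₂ then lamW D R d₂ / d₂ else 0)) =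
      ∑ l ∈ Icc 1 R, (l.totient : ℝ) *
        (∑ d ∈ (Icc 1 R).filter (fun d => l ∣ d), lamW D R d / d) ^ 2 := by
    have h1 : ∀ d₁ ∈ Icc 1 R, ∑ d₂ ∈ Icc 1 R, ∑ l ∈ Icc 1 R, (l.totient : ℝ) *
      ((if l ∣ d₁ then lamW D R d₁ / d₁ else 0) * (if l ∣ d₂ then lamW D R d₂ / d₂ else 0)) =
        ∑ l ∈ Icc 1 R, ∑ d₂ ∈ Icc 1 R, (l.totient : ℝ) *
      ((if l ∣ d₁ then lamW D R d₁ / d₁ else 0) * (if l ∣ d₂ then lamW D R d₂ / d₂ else 0)) :=
      fun d₁ _ => Finset.sum_comm
    rw [Finset.sum_congr rfl h1, Finset.sum_comm]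
    apply Finset.sum_congr rfl
    intro l _
    rw [Finset.sum_filter, sq, Finset.sum_mul_sum, Finset.mul_sum]
    apply Finset.sum_congr rfl
    intro d₁ _
    rw [Finset.mul_sum]
  rw [hswap]
  simp only [y_eq D R _ hR]
  have hfin : ∑ l ∈ Icc 1 R, (l.totient : ℝ) *
      (if l ∈ AA D R then (μ l : ℝ) / (GG D R * l.totient) else 0) ^ 2 = 1 / GG D R := by
    have hsub : AA D R ⊆ Icc 1 R := by
      intro l hl
      rw [Finset.mem_Icc]
      exact (mem_AA.1 hl).1
    rw [← Finset.sum_subset hsub]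
    · have h1 : ∀ l ∈ AA D R, (l.totient : ℝ) *
          (if l ∈ AA D R then (μ l : ℝ) / (GG D R * l.totient) else 0) ^ 2 =
          (1 / GG D R ^ 2) * (1 / l.totient) := by
        intro l hl
        rw [if_pos hl]
        have hA := mem_AA.1 hl
        have h2 : ((μ l : ℤ) : ℝ) ^ 2 = 1 := by
          have := moebius_sq_eq_one_of_squarefree hA.2.1
          exact_mod_cast this
        have h3 : (l.totient : ℝ) ≠ 0 := by
          have := Nat.totient_pos.2 hA.1.1
          positivity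
        rw [div_pow, h2]
        field_simp
      rw [Finset.sum_congr rfl h1, ← Finset.mul_sum]
      change 1 / GG D R ^ 2 * GG D R = 1 / GG D R
      field_simp
    · intro l _ hl
      rw [if_neg hl]
      simp
  rw [hfin]

theorem sum_inv_totient {d : ℕ} (hd : Squarefree d) :
    ∑ k ∈ d.divisors, (1 : ℝ) / k.totient = d / d.totient := by
  have hd0 : d ≠ 0 := hd.ne_zero
  have hphi : (0 : ℝ) < d.totient := by exact_mod_cast Nat.totient_pos.2 (Nat.pos_of_ne_zero hd0)
  rw [eq_div_iff hphi.ne', Finset.sum_mul]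
  have h : ∀ k ∈ d.divisors, (1 : ℝ) / k.totient * d.totient = (d / k).totient := by
    intro k hk
    rw [Nat.mem_divisors] at hk
    obtain ⟨e, rfl⟩ := hk.1
    have hk0 : 0 < k := Nat.pos_of_ne_zero (fun h => hd0 (by rw [h, zero_mul]))
    have hcop : Nat.Coprime k e := Nat.coprime_of_squarefree_mul hd
    rw [Nat.totient_mul hcop, Nat.mul_div_cancel_left _ hk0]
    have : (k.totient : ℝ) ≠ 0 := by
      have := Nat.totient_pos.2 hk0
      positivity
    push_cast
    field_simp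
  rw [Finset.sum_congr rfl h, ← Nat.cast_sum, Nat.sum_div_divisors d (fun k => k.totient),
    Nat.sum_totient]

theorem key_le {D R d : ℕ} (hd : d ∈ AA D R) :
    (d : ℝ) * ∑ m ∈ (AA D R).filter (fun m => d ∣ m), (1 : ℝ) / m.totient ≤ GG D R := by
  classical
  have hA := mem_AA.1 hd
  have hd1 : 0 < d := hA.1.1
  have hphi : (d.totient : ℝ) ≠ 0 := by
    have := Nat.totient_pos.2 hd1
    positivity
  have h1 : ∀ m ∈ (AA D R).filter (fun m => d ∣ m),
      (1 : ℝ) / m.totient = 1 / d.totient * (1 / (m / d).totient) ∧ Nat.Coprime (m / d) d ∧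
        m / d * d = m ∧ 0 < m := by
    intro m hm
    rw [Finset.mem_filter, mem_AA] at hm
    obtain ⟨⟨⟨hm1, hm2⟩, hm3, hm4⟩, e, rfl⟩ := hm
    have hcop : Nat.Coprime d e := Nat.coprime_of_squarefree_mul hm3
    rw [Nat.mul_div_cancel_left _ hd1]
    refine ⟨?_, hcop.symm, mul_comm _ _, hm1⟩
    rw [Nat.totient_mul hcop, Nat.cast_mul, one_div_mul_one_div]
  rw [Finset.sum_congr rfl (fun m hm => (h1 m hm).1), ← Finset.mul_sum, ← mul_assoc,
    mul_one_div, ← sum_inv_totient hA.2.1, Finset.sum_mul_sum, ← Finset.sum_product']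
  have hinj : Set.InjOn (fun x : ℕ × ℕ => x.1 * (x.2 / d))
      (d.divisors ×ˢ (AA D R).filter (fun m => d ∣ m) : Finset (ℕ × ℕ)) := by
    rintro ⟨k, m⟩ hx ⟨k', m'⟩ hx' heq
    rw [Finset.coe_product, Set.mem_prod, Finset.mem_coe, Finset.mem_coe] at hx hx'
    simp only at heq hx hx'
    obtain ⟨-, hc, he, -⟩ := h1 m hx.2
    obtain ⟨-, hc', he', -⟩ := h1 m' hx'.2
    have hk := Nat.dvd_of_mem_divisors hx.1
    have hk' := Nat.dvd_of_mem_divisors hx'.1
    have g1 : (k * (m / d)).gcd d = k := by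
      rw [Nat.Coprime.gcd_mul_right_cancel k hc]
      exact Nat.gcd_eq_left hk
    have g2 : (k' * (m' / d)).gcd d = k' := by
      rw [Nat.Coprime.gcd_mul_right_cancel k' hc']
      exact Nat.gcd_eq_left hk'
    have hkk : k = k' := by rw [← g1, ← g2, heq]
    subst hkk
    have hk0 : 0 < k := Nat.pos_of_dvd_of_pos hk hd1
    have := Nat.eq_of_mul_eq_mul_left hk0 heq
    rw [← he, ← he', this]
  have h2 : ∑ x ∈ d.divisors ×ˢ (AA D R).filter (fun m => d ∣ m),
      (1 : ℝ) / (x.1.totient : ℝ) * (1 / ((x.2 / d).totient : ℝ)) =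
      ∑ l ∈ (d.divisors ×ˢ (AA D R).filter (fun m => d ∣ m)).image
        (fun x : ℕ × ℕ => x.1 * (x.2 / d)), (1 : ℝ) / l.totient := by
    rw [Finset.sum_image hinj]
    apply Finset.sum_congr rfl
    rintro ⟨k, m⟩ hx
    rw [Finset.mem_product] at hx
    obtain ⟨-, hc, he, -⟩ := h1 m hx.2
    have hk := Nat.dvd_of_mem_divisors hx.1
    rw [Nat.totient_mul (hc.coprime_dvd_right hk).symm, Nat.cast_mul, one_div_mul_one_div]
  rw [h2]
  apply Finset.sum_le_sum_of_subset_of_nonneg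
  · intro l hl
    rw [Finset.mem_image] at hl
    obtain ⟨⟨k, m⟩, hx, rfl⟩ := hl
    rw [Finset.mem_product] at hx
    obtain ⟨-, hc, he, hm0⟩ := h1 m hx.2
    have hk := Nat.dvd_of_mem_divisors hx.1
    have hm := mem_AA.1 (Finset.mem_filter.1 hx.2).1
    have hdv : k * (m / d) ∣ m := by
      conv_rhs => rw [← he, mul_comm]
      exact Nat.mul_dvd_mul_right hk _
    rw [mem_AA]
    exact ⟨⟨Nat.pos_of_dvd_of_pos hdv hm0, (Nat.le_of_dvd hm0 hdv).trans hm.1.2⟩,
      hm.2.1.squarefree_of_dvd hdv, hm.2.2.coprime_dvd_left hdv⟩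
  · intro _ _ _; positivity

theorem abs_lamW_le (D R d : ℕ) (hR : 1 ≤ R) : |lamW D R d| ≤ 1 := by
  classical
  have hG := GG_pos D R hR
  unfold lamW
  by_cases h : d ∈ AA D R
  · rw [if_pos h]
    have h1 : |(μ d : ℝ)| ≤ 1 := by
      have := abs_moebius_le_one (n := d)
      exact_mod_cast this
    have h2 := key_le h
    have h3 : 0 ≤ ∑ m ∈ (AA D R).filter (fun m => d ∣ m), (1 : ℝ) / m.totient :=
      Finset.sum_nonneg (fun _ _ => by positivity)
    have e : (μ d : ℝ) * d / GG D R * ∑ m ∈ (AA D R).filter (fun m => d ∣ m), (1 : ℝ) / m.totient =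
        (μ d : ℝ) * ((d * ∑ m ∈ (AA D R).filter (fun m => d ∣ m), (1 : ℝ) / m.totient) / GG D R) := by
      ring
    rw [e, abs_mul]
    have h4 : |(d * ∑ m ∈ (AA D R).filter (fun m => d ∣ m), (1 : ℝ) / m.totient) / GG D R| ≤ 1 := by
      rw [abs_of_nonneg (by positivity), div_le_one hG]
      exact h2
    calc _ ≤ (1 : ℝ) * 1 := mul_le_mul h1 h4 (abs_nonneg _) zero_le_one
      _ = 1 := one_mul 1
  · rw [if_neg h, abs_zero]; exact zero_le_one

theorem lamW_one (D R : ℕ) (hR : 1 ≤ R) : lamW D R 1 = 1 := by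
  classical
  have hG := GG_pos D R hR
  unfold lamW
  rw [if_pos (mem_AA.2 ⟨⟨le_refl _, by omega⟩, squarefree_one, Nat.coprime_one_left D⟩)]
  have : ∑ m ∈ (AA D R).filter (fun m => 1 ∣ m), (1 : ℝ) / m.totient = GG D R := by
    unfold GG
    apply Finset.sum_congr _ (fun _ _ => rfl)
    simp
  rw [this]
  simp only [moebius_apply_one, Nat.cast_one, mul_one]
  push_cast
  field_simp

theorem lamW_ne {D R d : ℕ} (hd : lamW D R d ≠ 0) : d ∈ AA D R := by
  unfold lamW at hd
  by_contra h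
  rw [if_neg h] at hd
  exact hd rfl

end Pool.Agent.M17.Helper53AV
end

/- Helper53.KN.Helper40.AV.St2 -/
section
/-!
# Project AV, second part: the linear sieve for intervals by iteration

Statements of the modules.
-/

set_option autoImplicit false

open Filter Topology

namespace Pool.Agent.M17.Helper40.AV

/-- upper bound for the number of integers free of primes `≤ z` in intervals of length `≥ z ^ s` -/
def UpB (s F : ℝ) : Prop :=
  ∀ ε : ℝ, 0 < ε → ∃ z₀ : ℝ, ∀ z : ℝ, z₀ ≤ z → ∀ y l : ℕ, z ^ s ≤ l →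
    ((RS y l z).card : ℝ) ≤ (F + ε) * l * VV z

/-- lower bound -/
def LoB (s f : ℝ) : Prop :=
  ∀ ε : ℝ, 0 < ε → ∃ z₀ : ℝ, ∀ z : ℝ, z₀ ≤ z → ∀ y l : ℕ, z ^ s ≤ l →
    (f - ε) * l * VV z ≤ ((RS y l z).card : ℝ)

/-- LS1 -/
def SelUp : Prop :=
  (∀ s : ℝ, 1 ≤ s → s ≤ 2 → UpB s (2 * Real.exp Real.eulerMascheroniConstant / s)) ∧
  (∀ s : ℝ, 2 ≤ s → s ≤ 4 → UpB s (Real.exp Real.eulerMascheroniConstant / cu (s / 2)))

/-- LS4: Buchstab step, lower bound -/
def StepLo : Prop :=
  ∀ (s T g : ℝ) (n : ℕ) (t F : ℕ → ℝ), 1 < s → t 0 = s → t n = T → (∀ i < n, t i < t (i + 1)) →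
    (∀ i < n, UpB (t i - 1) (F i)) → LoB T g →
    LoB s (T / s * g - 1 / s * ∑ i ∈ Finset.range n, (t (i + 1) - t i) * F i)

/-- LS5: Buchstab step, upper bound -/
def StepUp : Prop :=
  ∀ (s T G : ℝ) (n : ℕ) (t f : ℕ → ℝ), 1 < s → t 0 = s → t n = T → (∀ i < n, t i < t (i + 1)) →
    (∀ i < n, f i = 0 ∨ (3 ≤ t i ∧ LoB (t i - 1) (f i))) → UpB T G →
    UpB s (T / s * G - 1 / s * ∑ i ∈ Finset.range n, (t (i + 1) - t i) * f i)

end Pool.Agent.M17.Helper40.AV
end

/- Helper53.KN.Helper40.AV.Base -/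
section
/-! Project AV: elementary facts. -/

set_option autoImplicit false

open Filter Topology

namespace Pool.Agent.M17.Helper40.AV

open Pool.Agent.M17.Helper44 (primesUpTo mem_primesUpTo)

theorem mem_PI {a b : ℝ} (hb : 0 ≤ b) {p : ℕ} : p ∈ PI a b ↔ p.Prime ∧ a < p ∧ (p : ℝ) ≤ b := by
  unfold PI
  rw [Finset.mem_filter, mem_primesUpTo hb]
  tauto

open Classical in
theorem gg_mono (z : ℝ) {Y Y' : ℝ} (h : Y ≤ Y') : GG z Y ≤ GG z Y' := by
  unfold GG
  refine Finset.sum_le_sum_of_subset_of_nonneg ?_ (fun m _ _ => by positivity)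
  intro m hm
  rw [Finset.mem_filter, Finset.mem_Icc] at hm ⊢
  exact ⟨⟨hm.1.1, hm.1.2.trans (Nat.floor_le_floor h)⟩, hm.2⟩

open Classical in
theorem one_le_gg (z : ℝ) {Y : ℝ} (hY : 1 ≤ Y) : 1 ≤ GG z Y := by
  unfold GG
  have h1 : (1 : ℕ) ∈ (Finset.Icc 1 ⌊Y⌋₊).filter (fun m => Squarefree m ∧
      ∀ r : ℕ, r.Prime → r ∣ m → (r : ℝ) ≤ z) := by
    rw [Finset.mem_filter, Finset.mem_Icc]
    refine ⟨⟨le_rfl, ?_⟩, squarefree_one, ?_⟩
    · rw [Nat.le_floor_iff (by linarith)]
      exact_mod_cast hY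
    · intro r hr h
      rw [Nat.dvd_one] at h
      exact absurd (h ▸ hr) Nat.not_prime_one
  have h2 := Finset.single_le_sum (f := fun m : ℕ => (1 : ℝ) / m.totient)
    (fun m _ => by positivity) h1
  simpa using h2

theorem vv_pos (z : ℝ) : 0 < VV z := by
  unfold VV
  refine Finset.prod_pos fun r hr => ?_
  have hr' : r.Prime := (Finset.mem_filter.1 hr).2
  have : (2 : ℝ) ≤ r := by exact_mod_cast hr'.two_le
  have : (1 : ℝ) / r ≤ 1 / 2 := one_div_le_one_div_of_le (by norm_num) this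
  linarith

theorem vv_le_one (z : ℝ) : VV z ≤ 1 := by
  unfold VV
  refine Finset.prod_le_one (fun r hr => ?_) (fun r hr => ?_)
  · have hr' : r.Prime := (Finset.mem_filter.1 hr).2
    have : (2 : ℝ) ≤ r := by exact_mod_cast hr'.two_le
    have : (1 : ℝ) / r ≤ 1 / 2 := one_div_le_one_div_of_le (by norm_num) this
    linarith
  · have : (0 : ℝ) ≤ 1 / r := by positivity
    linarith

theorem tendsto_rpow_top {ω : ℝ} (hω : 0 < ω) : Tendsto (fun X : ℝ => X ^ ω) atTop atTop :=
  tendsto_rpow_atTop hω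

/-- `VV (t - 1/2) log t` tends to the same limit -/
theorem mertens3_shift {γ₀ : ℝ} (hM : Tendsto (fun z => VV z * Real.log z) atTop (𝓝 γ₀)) :
    Tendsto (fun t : ℝ => VV (t - 1 / 2) * Real.log t) atTop (𝓝 γ₀) := by
  have h1 : Tendsto (fun t : ℝ => t - 1 / 2) atTop atTop := tendsto_atTop_add_const_right _ _ tendsto_id
  have h2 := hM.comp h1
  have h3 : Tendsto (fun t : ℝ => Real.log t / Real.log (t - 1 / 2)) atTop (𝓝 1) := by
    have h4 : Tendsto (fun t : ℝ => 1 + Real.log 2 / Real.log (t - 1 / 2)) atTop (𝓝 1) := by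
      have h5 : Tendsto (fun t : ℝ => Real.log 2 / Real.log (t - 1 / 2)) atTop (𝓝 0) :=
        (Real.tendsto_log_atTop.comp h1).const_div_atTop _
      simpa using h5.const_add 1
    refine tendsto_of_tendsto_of_tendsto_of_le_of_le' tendsto_const_nhds h4 ?_ ?_
    · filter_upwards [eventually_ge_atTop (3 : ℝ)] with t ht
      have h6 : 0 < Real.log (t - 1 / 2) := Real.log_pos (by linarith)
      rw [le_div_iff₀ h6, one_mul]
      exact Real.log_le_log (by linarith) (by linarith)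
    · filter_upwards [eventually_ge_atTop (3 : ℝ)] with t ht
      have h6 : 0 < Real.log (t - 1 / 2) := Real.log_pos (by linarith)
      rw [div_le_iff₀ h6, add_mul, one_mul, div_mul_cancel₀ _ h6.ne',
        ← Real.log_mul (by linarith) (by norm_num)]
      exact Real.log_le_log (by linarith) (by linarith)
  have h7 := h2.mul h3
  rw [mul_one] at h7
  refine h7.congr' ?_
  filter_upwards [eventually_ge_atTop (3 : ℝ)] with t ht
  have h6 : 0 < Real.log (t - 1 / 2) := Real.log_pos (by linarith)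
  have key : ∀ V a b : ℝ, a ≠ 0 → V * a * (b / a) = V * b := by
    intro V a b ha
    field_simp
  exact key _ _ _ h6.ne'

end Pool.Agent.M17.Helper40.AV
end

/- Helper53.KN.Helper40.AV.TailLo16 -/
section
/-! Project AV, part 2: LS3, lower bound at level `16`. -/

set_option autoImplicit false

open Filter Topology

namespace Pool.Agent.M17.Helper40.AV.T16

open Pool.Agent.M17.Helper40.AV
open Pool.Agent.M17.Helper44 (primesUpTo mem_primesUpTo)

/-- the error factor -/
noncomputable def eb (a : ℝ) : ℝ := Real.exp (5.2 - 15.9 / a)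

theorem exp_num2 : Real.exp (-10.7) ≤ 0.0000227 := by
  have h1 : (44100 : ℝ) ≤ Real.exp 10.7 := by
    refine le_trans ?_ (Real.sum_le_exp_of_nonneg (by norm_num) 28)
    norm_num [Finset.sum_range_succ, Nat.factorial]
  rw [Real.exp_neg]
  calc (Real.exp 10.7)⁻¹ ≤ (44100 : ℝ)⁻¹ := inv_anti₀ (by norm_num) h1
    _ ≤ 0.0000227 := by norm_num

theorem eb_le {a : ℝ} (ha : 0 < a) (ha' : a ≤ 1) : eb a ≤ 0.0000227 := by
  refine le_trans ?_ exp_num2
  unfold eb
  apply Real.exp_le_exp.2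
  have : 15.9 ≤ 15.9 / a := by
    rw [le_div_iff₀ ha]
    (clear * - ha'; nlinarith)
  linarith

theorem eb_pos (a : ℝ) : 0 < eb a := Real.exp_pos _

/-- the integral of the error -/
theorem int_eb {ω : ℝ} (hω : 0 < ω) (hω' : ω ≤ 1) :
    ∫ a in ω..(1 : ℝ), (eb a / a) / a ≤ 0.0000015 := by
  have hderiv : ∀ a ∈ Set.uIcc ω (1 : ℝ), HasDerivAt (fun a => eb a / 15.9) ((eb a / a) / a) a := by
    intro a ha
    rw [Set.uIcc_of_le hω'] at ha
    have ha0 : 0 < a := hω.trans_le ha.1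
    have h1 : HasDerivAt (fun a : ℝ => 5.2 - 15.9 / a) (15.9 / a ^ 2) a := by
      have h2 := (hasDerivAt_inv ha0.ne').const_mul (15.9 : ℝ)
      have h3 := h2.const_sub (5.2 : ℝ)
      refine (h3.congr_deriv ?_).congr_of_eventuallyEq ?_
      · (clear * - ha0; field_simp)
      · filter_upwards with x
        rw [div_eq_mul_inv]
    have h4 := h1.exp.div_const (15.9 : ℝ)
    refine h4.congr_deriv ?_
    unfold eb
    (clear * - ha0; field_simp)
  have hint : IntervalIntegrable (fun a => (eb a / a) / a) MeasureTheory.volume ω (1 : ℝ) := by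
    apply ContinuousOn.intervalIntegrable
    rw [Set.uIcc_of_le hω']
    intro a ha
    have ha0 : a ≠ 0 := (hω.trans_le ha.1).ne'
    apply ContinuousAt.continuousWithinAt
    unfold eb
    fun_prop (disch := assumption)
  rw [intervalIntegral.integral_eq_sub_of_hasDerivAt hderiv hint]
  have h1 := eb_le (a := 1) (by norm_num) le_rfl
  have h2 := eb_pos ω
  have h3 : (0 : ℝ) < eb ω / 15.9 := by (clear * - h2; positivity)
  have h4 : eb 1 / 15.9 ≤ 0.0000227 / 15.9 := by
    apply div_le_div_of_nonneg_right h1 (by norm_num)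
  have h5 : (0.0000227 : ℝ) / 15.9 ≤ 0.0000015 := by norm_num
  (clear * - h3 h4; linarith)

open Classical in
/-- the bound for one prime -/
theorem np_le2 (hS : SelbergP) {z₀ : ℝ}
    (hG : ∀ z u : ℝ, z₀ ≤ z → 0 ≤ u → 1 - Real.exp (4.2 - 2 * u) ≤ VV z * GG z (z ^ u))
    {X : ℝ} (hX : 1 < X) {ω : ℝ} (hω : 0 < ω) (hz₀ : z₀ ≤ X ^ ω - 1 / 2)
    (hV : ∀ t : ℝ, X ^ ω ≤ t → VV (t - 1 / 2) * Real.log t ≤ 0.572)
    {y l p : ℕ} (hl : X ^ (16 : ℝ) ≤ l) (hp : p ∈ PI (X ^ ω) X) :
    ((((Finset.Ico y (y + l)).filter fun n => p ∣ n ∧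
        ∀ r : ℕ, r.Prime → r ∣ n → (p : ℝ) - 1 / 2 < r).card : ℕ) : ℝ) ≤
      l * (1 + X ^ (-1 : ℝ)) * (VV ((p : ℝ) - 1 / 2) / p) +
      l * (1 + X ^ (-1 : ℝ)) * (0.6095 / Real.log X) *
        ((1 : ℝ) / p * (eb (Real.log p / Real.log X) / (Real.log p / Real.log X))) +
      X ^ (15.9 : ℝ) * ((1 : ℝ) / p) := by
  have hX0 : 0 < X := by (clear * - hX; linarith)
  have hL : 0 < Real.log X := Real.log_pos hX
  have hXω : 1 < X ^ ω := Real.one_lt_rpow hX hω
  obtain ⟨hpp, hp1, hp2⟩ := (mem_PI hX0.le).1 hp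
  have hp0 : (0 : ℝ) < p := by exact_mod_cast hpp.pos
  have hp2' : (2 : ℝ) ≤ p := by exact_mod_cast hpp.two_le
  set a : ℝ := Real.log p / Real.log X with ha
  have hlogp : Real.log p = a * Real.log X := by
    rw [ha]
    (clear * - hL; field_simp)
  have ha0 : 0 < a := div_pos (Real.log_pos (by (clear * - hXω hp1; linarith))) hL
  have ha1 : a ≤ 1 := by
    rw [ha, div_le_iff₀ hL, one_mul]
    exact Real.log_le_log hp0 hp2
  have hpX : (p : ℝ) = X ^ a := by
    rw [← Real.exp_log hp0, hlogp, Real.rpow_def_of_pos hX0, mul_comm]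
  set u : ℝ := (15.9 - a) / (2 * a) with hu
  have hu0 : 0 ≤ u := by
    apply div_nonneg <;> (clear * - ha1 ha0; linarith)
  set Y : ℝ := X ^ ((15.9 - a) / 2) with hY
  have hY1 : 1 ≤ Y := Real.one_le_rpow hX.le (by (clear * - ha1; linarith))
  have hY2 : Y ^ 2 = X ^ (15.9 : ℝ) * (1 / p) := by
    rw [hY, hpX, ← Real.rpow_natCast, ← Real.rpow_mul hX0.le, one_div, ← Real.rpow_neg hX0.le,
      ← Real.rpow_add hX0]
    congr 1
    push_cast
    ring
  have hYu : Y = (p : ℝ) ^ u := by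
    rw [hpX, ← Real.rpow_mul hX0.le, hY]
    congr 1
    rw [hu]
    (clear * - ha0; field_simp)
  have hz1 : z₀ ≤ (p : ℝ) - 1 / 2 := by (clear * - hz₀ hp1; linarith)
  have hGp := hG ((p : ℝ) - 1 / 2) u hz1 hu0
  have hexp : Real.exp (4.2 - 2 * u) = eb a := by
    unfold eb
    congr 1
    rw [hu]
    field_simp
    ring
  rw [hexp] at hGp
  have hGY : GG ((p : ℝ) - 1 / 2) (((p : ℝ) - 1 / 2) ^ u) ≤ GG ((p : ℝ) - 1 / 2) Y := by
    apply gg_mono
    rw [hYu]
    exact Real.rpow_le_rpow (by (clear * - hXω hp1; linarith)) (by (clear * -; linarith)) hu0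
  have hea := eb_le ha0 ha1
  have hea0 := eb_pos a
  have hVp := vv_pos ((p : ℝ) - 1 / 2)
  have hV1 := vv_le_one ((p : ℝ) - 1 / 2)
  have hGG0 : 0 < GG ((p : ℝ) - 1 / 2) Y := lt_of_lt_of_le one_pos (one_le_gg _ hY1)
  have hmain : 1 - eb a ≤ VV ((p : ℝ) - 1 / 2) * GG ((p : ℝ) - 1 / 2) Y :=
    hGp.trans (mul_le_mul_of_nonneg_left hGY hVp.le)
  -- one over G
  have hinv : 1 / GG ((p : ℝ) - 1 / 2) Y ≤ VV ((p : ℝ) - 1 / 2) * (1 + 1.0655 * eb a) := by
    rw [div_le_iff₀ hGG0]
    have h1 : (1 : ℝ) ≤ (1 - eb a) * (1 + 1.0655 * eb a) := by (clear * - hea0 hea; nlinarith)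
    calc (1 : ℝ) ≤ (1 - eb a) * (1 + 1.0655 * eb a) := h1
      _ ≤ (VV ((p : ℝ) - 1 / 2) * GG ((p : ℝ) - 1 / 2) Y) * (1 + 1.0655 * eb a) :=
        mul_le_mul_of_nonneg_right hmain (by positivity)
      _ = _ := by ring
  have hl0 : (0 : ℝ) < l := lt_of_lt_of_le (Real.rpow_pos_of_pos hX0 _) hl
  have hlp : (l : ℝ) / p + 1 ≤ l * (1 + X ^ (-1 : ℝ)) / p := by
    rw [mul_add, mul_one, add_div]
    have h1 : (1 : ℝ) ≤ l * X ^ (-1 : ℝ) / p := by
      rw [le_div_iff₀ hp0, one_mul]
      calc (p : ℝ) ≤ X := hp2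
        _ = X ^ (1 : ℝ) := (Real.rpow_one X).symm
        _ ≤ X ^ (16 + -1 : ℝ) := Real.rpow_le_rpow_of_exponent_le hX.le (by norm_num)
        _ = X ^ (16 : ℝ) * X ^ (-1 : ℝ) := Real.rpow_add hX0 _ _
        _ ≤ l * X ^ (-1 : ℝ) := mul_le_mul_of_nonneg_right hl (Real.rpow_nonneg hX0.le _)
    (clear * - h1; linarith)
  have hVlog := hV p hp1.le
  have hlogp0 : 0 < Real.log p := Real.log_pos (by (clear * - hp2' hea hea0; linarith))
  have hVle : VV ((p : ℝ) - 1 / 2) ≤ 0.572 / (a * Real.log X) := by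
    rw [← hlogp, le_div_iff₀ hlogp0]
    exact hVlog
  refine (hS y l p ((p : ℝ) - 1 / 2) Y hpp.one_le hY1).trans ?_
  rw [hY2]
  have hfac : 0 < l * (1 + X ^ (-1 : ℝ)) / p := by (clear * - hl0 hX hp0; positivity)
  have h2 : ((l : ℝ) / p + 1) / GG ((p : ℝ) - 1 / 2) Y ≤
      (l * (1 + X ^ (-1 : ℝ)) / p) * (VV ((p : ℝ) - 1 / 2) * (1 + 1.0655 * eb a)) := by
    rw [div_eq_mul_one_div]
    exact mul_le_mul hlp hinv (by (clear * - hGG0; positivity)) hfac.le
  have h3 : VV ((p : ℝ) - 1 / 2) * (1.0655 * eb a) ≤ 0.6095 / Real.log X * (eb a / a) := by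
    calc VV ((p : ℝ) - 1 / 2) * (1.0655 * eb a) ≤ 0.572 / (a * Real.log X) * (1.0655 * eb a) :=
          mul_le_mul_of_nonneg_right hVle (by positivity)
      _ = (0.572 * 1.0655) / Real.log X * (eb a / a) := by
        (clear * - hea0 hL ha0; field_simp)
      _ ≤ _ := by
        apply mul_le_mul_of_nonneg_right _ (by (clear * - hea0 hlogp0 hL; positivity))
        apply div_le_div_of_nonneg_right _ hL.le
        norm_num
  have h4 : (l * (1 + X ^ (-1 : ℝ)) / p) * (VV ((p : ℝ) - 1 / 2) * (1 + 1.0655 * eb a)) ≤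
      l * (1 + X ^ (-1 : ℝ)) * (VV ((p : ℝ) - 1 / 2) / p) +
      l * (1 + X ^ (-1 : ℝ)) * (0.6095 / Real.log X) * ((1 : ℝ) / p * (eb a / a)) := by
    have h5 := mul_le_mul_of_nonneg_left h3 hfac.le
    calc (l * (1 + X ^ (-1 : ℝ)) / p) * (VV ((p : ℝ) - 1 / 2) * (1 + 1.0655 * eb a))
        = l * (1 + X ^ (-1 : ℝ)) * (VV ((p : ℝ) - 1 / 2) / p) +
          (l * (1 + X ^ (-1 : ℝ)) / p) * (VV ((p : ℝ) - 1 / 2) * (1.0655 * eb a)) := by ring
      _ ≤ l * (1 + X ^ (-1 : ℝ)) * (VV ((p : ℝ) - 1 / 2) / p) +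
          (l * (1 + X ^ (-1 : ℝ)) / p) * (0.6095 / Real.log X * (eb a / a)) := by (clear * - h5; linarith)
      _ = _ := by ring
  (clear * - h2 h4; linarith)

open Classical in
theorem tailLo (hR : RoughQ) (hM : Mertens3) (hN : GammaNum) (hS : SelbergP) (hG : GGrankin)
    (hB : Buchstab) (hT : Telescope) (hP : PrimeInt) : LoB 16 0.99999 := by
  intro ε hε
  set γ₀ : ℝ := Real.exp (-Real.eulerMascheroniConstant) with hγ₀
  have hγ1 : γ₀ ≤ 0.57 := hN.2
  have hγ2 : 0.557 ≤ γ₀ := hN.1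
  obtain ⟨ε₁, K, zR, hε₁, hK, hεK, hRough⟩ := hR (ε / 64) (by positivity)
  obtain ⟨z₀, hz₀2, hG'⟩ := hG
  set ω : ℝ := min (1 / K) 1 with hω
  have hK0 : 0 < K := by (clear * - hK; linarith)
  have hω0 : 0 < ω := lt_min (by (clear * - hK; positivity)) (by norm_num)
  have hω1 : ω ≤ 1 := min_le_right _ _
  have hωK : ω * K ≤ 1 := by
    have := min_le_left (1 / K) (1 : ℝ)
    rw [← hω, le_div_iff₀ hK0] at this
    exact this
  have hωinv : 1 / ω ≤ 2 * K := by
    rw [div_le_iff₀ hω0, hω]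
    rcases min_choice (1 / K) (1 : ℝ) with h | h <;> rw [h]
    · field_simp
      norm_num
    · (clear * - hK; linarith)
  have hε₁ω : ε₁ / ω ≤ ε / 32 := by
    calc ε₁ / ω = ε₁ * (1 / ω) := by ring
      _ ≤ ε₁ * (2 * K) := mul_le_mul_of_nonneg_left hωinv hε₁.le
      _ = 2 * (ε₁ * K) := by ring
      _ ≤ 2 * (ε / 64) := by (clear * - hεK; linarith)
      _ = ε / 32 := by ring
  -- the integrals
  set f : ℝ → ℝ := fun a => eb a / a with hf
  have hfc : ContinuousOn f (Set.Icc ω 1) := by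
    intro a ha
    have ha0 : a ≠ 0 := (hω0.trans_le ha.1).ne'
    apply ContinuousAt.continuousWithinAt
    simp only [hf]
    unfold eb
    fun_prop (disch := assumption)
  have hI := hP ω 1 f hω0 hω1 hfc
  have hI' : ∫ a in ω..(1 : ℝ), f a / a ≤ 0.0000015 := int_eb hω0 hω1
  have hJ := hP ω 1 (fun _ => 1) hω0 hω1 continuousOn_const
  simp only [Real.rpow_one] at hI hJ
  set C₁ : ℝ := (∫ a in ω..(1 : ℝ), 1 / a) + 1 with hC₁
  -- eventual conditions
  have e1 : ∀ᶠ X : ℝ in atTop, 1 < X := eventually_gt_atTop 1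
  have tω := tendsto_rpow_top hω0
  have e2 : ∀ᶠ X : ℝ in atTop, zR ≤ X ^ ω := tω.eventually_ge_atTop zR
  have e3 : ∀ᶠ X : ℝ in atTop, z₀ + 1 / 2 ≤ X ^ ω := tω.eventually_ge_atTop _
  have e4 : ∀ᶠ X : ℝ in atTop, ∀ t : ℝ, X ^ ω ≤ t → VV (t - 1 / 2) * Real.log t ≤ 0.572 := by
    have h1 := (mertens3_shift hM).eventually_lt_const (show γ₀ < 0.572 by (clear * - hγ1; linarith))
    obtain ⟨T, hT'⟩ := eventually_atTop.1 h1
    filter_upwards [tω.eventually_ge_atTop T] with X hX t ht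
    exact (hT' t (hX.trans ht)).le
  have e5 : ∀ᶠ X : ℝ in atTop, VV (X ^ ω) * Real.log (X ^ ω) ≤ 0.572 := by
    have h1 := (hM.comp tω).eventually_lt_const (show γ₀ < 0.572 by (clear * - hγ1; linarith))
    filter_upwards [h1] with X hX
    exact hX.le
  have e6 : ∀ᶠ X : ℝ in atTop, 0.556 ≤ VV X * Real.log X := by
    have h1 := hM.eventually_const_lt (show (0.556 : ℝ) < γ₀ by (clear * - hγ2; linarith))
    filter_upwards [h1] with X hX
    exact hX.le
  have e7 := hI.eventually_lt_const (show (∫ a in ω..(1 : ℝ), f a / a) < 0.0000015 + ε / 16 by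
    (clear * - hε hI'; linarith))
  have e8 := hJ.eventually_lt_const (show (∫ a in ω..(1 : ℝ), (1 : ℝ) / a) < C₁ by
    rw [hC₁]; (clear * -; linarith))
  have e9 : ∀ᶠ X : ℝ in atTop, X ^ (15.9 : ℝ) * (|C₁| * Real.log X) ≤ ε / 16 * X ^ (16 : ℝ) := by
    have h1 := isLittleO_log_rpow_atTop (show (0 : ℝ) < 0.1 by norm_num)
    have h2 := h1.def (show 0 < ε / (16 * (|C₁| + 1)) by (clear * - hε; positivity))
    filter_upwards [h2, eventually_gt_atTop (1 : ℝ)] with X hX hX1
    have hX0 : 0 < X := by (clear * - hX1; linarith)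
    rw [Real.norm_of_nonneg (Real.log_nonneg hX1.le),
      Real.norm_of_nonneg (Real.rpow_nonneg hX0.le _)] at hX
    have h3 : X ^ (16 : ℝ) = X ^ (15.9 : ℝ) * X ^ (0.1 : ℝ) := by
      rw [← Real.rpow_add hX0]
      norm_num
    rw [h3]
    have h4 : |C₁| * Real.log X ≤ ε / 16 * X ^ (0.1 : ℝ) := by
      calc |C₁| * Real.log X ≤ (|C₁| + 1) * (ε / (16 * (|C₁| + 1)) * X ^ (0.1 : ℝ)) := by
            apply mul_le_mul (by (clear * -; linarith)) hX (Real.log_nonneg hX1.le) (by (clear * -; positivity))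
        _ = ε / 16 * X ^ (0.1 : ℝ) := by
            (clear * - hX1 hε; field_simp)
    calc X ^ (15.9 : ℝ) * (|C₁| * Real.log X) ≤ X ^ (15.9 : ℝ) * (ε / 16 * X ^ (0.1 : ℝ)) :=
          mul_le_mul_of_nonneg_left h4 (Real.rpow_nonneg hX0.le _)
      _ = _ := by ring
  have e10 : ∀ᶠ X : ℝ in atTop, X ^ (-1 : ℝ) * (0.572 / ω + 1 + ε) ≤ ε / 16 := by
    have h1 : Tendsto (fun X : ℝ => X ^ (-1 : ℝ) * (0.572 / ω + 1 + ε)) atTop
        (𝓝 (0 * (0.572 / ω + 1 + ε))) :=
      (tendsto_rpow_neg_atTop (show (0 : ℝ) < 1 by norm_num)).mul_const _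
    rw [zero_mul] at h1
    filter_upwards [h1.eventually_lt_const (show (0 : ℝ) < ε / 16 by positivity)] with X hX
    exact hX.le
  obtain ⟨X₀, hX₀⟩ := eventually_atTop.1
    (e1.and (e2.and (e3.and (e4.and (e5.and (e6.and (e7.and (e8.and (e9.and e10)))))))))
  refine ⟨X₀, fun X hX y l hl => ?_⟩
  obtain ⟨h1, h2, h3, h4, h5, h6, h7, h8, h9, h10⟩ := hX₀ X hX
  have hX0 : 0 < X := by (clear * - h1; linarith)
  have hL : 0 < Real.log X := Real.log_pos h1
  have hl0 : (0 : ℝ) < l := lt_of_lt_of_le (Real.rpow_pos_of_pos hX0 _) hl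
  set δ : ℝ := X ^ (-1 : ℝ) with hδ
  have hδ0 : 0 < δ := Real.rpow_pos_of_pos hX0 _
  set w : ℝ := X ^ ω with hw
  have hw1 : 1 ≤ w := Real.one_le_rpow h1.le hω0.le
  have hwz : w ≤ X := by
    calc w ≤ X ^ (1 : ℝ) := Real.rpow_le_rpow_of_exponent_le h1.le hω1
      _ = X := Real.rpow_one X
  -- fundamental lemma
  have hFL : (1 - ε₁) * l * VV w ≤ (RS y l w).card := by
    refine hRough w h2 y l ?_
    rw [hw, ← Real.rpow_mul hX0.le]
    exact (Real.rpow_le_rpow_of_exponent_le h1.le (hωK.trans (by norm_num))).trans hl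
  have hBu := hB y l w X hw1 hwz
  have hTe := hT w X hw1 hwz
  set S7 : ℝ := ∑ p ∈ PI w X, (1 : ℝ) / p * f (Real.log p / Real.log X) with hS7
  set S8 : ℝ := ∑ p ∈ PI w X, (1 : ℝ) / p * 1 with hS8
  have hS7n : 0 ≤ S7 := by
    rw [hS7]
    refine Finset.sum_nonneg fun p hp => ?_
    obtain ⟨hpp, hp1, hp2⟩ := (mem_PI (by (clear * - hz₀2 h3 hwz; linarith))).1 hp
    have h11 : (1 : ℝ) ≤ p := by exact_mod_cast hpp.one_le
    have h12 := eb_pos (Real.log p / Real.log X)
    have h13 : 0 ≤ Real.log p := Real.log_nonneg h11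
    simp only [hf]
    (clear * - h11 h12 hL; positivity)
  have hsum : ∑ p ∈ PI w X, ((((Finset.Ico y (y + l)).filter fun n => p ∣ n ∧
        ∀ r : ℕ, r.Prime → r ∣ n → (p : ℝ) - 1 / 2 < r).card : ℕ) : ℝ) ≤
      l * (1 + δ) * (VV w - VV X) + l * (1 + δ) * (0.6095 / Real.log X) * S7 +
        X ^ (15.9 : ℝ) * S8 := by
    rw [hTe, hS7, hS8, Finset.mul_sum, Finset.mul_sum, Finset.mul_sum, ← Finset.sum_add_distrib,
      ← Finset.sum_add_distrib]
    refine Finset.sum_le_sum fun p hp => ?_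
    have := np_le2 hS hG' h1 hω0 (by (clear * - h3; linarith)) h4 (y := y) hl hp
    rw [mul_one]
    exact this
  have hVw : VV w * Real.log X ≤ 0.572 / ω := by
    rw [le_div_iff₀ hω0]
    rw [hw, Real.log_rpow hX0] at h5
    rw [hw]
    (clear * - h5; linarith)
  have hVw0 := vv_pos w
  have hVz0 := vv_pos X
  have h8' : X ^ (15.9 : ℝ) * S8 * Real.log X ≤ ε / 16 * l := by
    have h11 : S8 ≤ |C₁| := h8.le.trans (le_abs_self _)
    calc X ^ (15.9 : ℝ) * S8 * Real.log X = X ^ (15.9 : ℝ) * (S8 * Real.log X) := by ring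
      _ ≤ X ^ (15.9 : ℝ) * (|C₁| * Real.log X) := by
        apply mul_le_mul_of_nonneg_left _ (Real.rpow_nonneg hX0.le _)
        exact mul_le_mul_of_nonneg_right h11 hL.le
      _ ≤ ε / 16 * X ^ (16 : ℝ) := h9
      _ ≤ ε / 16 * l := mul_le_mul_of_nonneg_left hl (by positivity)
  -- collect
  have hcard : (1 - ε₁) * l * VV w - (l * (1 + δ) * (VV w - VV X) +
      l * (1 + δ) * (0.6095 / Real.log X) * S7 + X ^ (15.9 : ℝ) * S8) ≤ (RS y l X).card := by
    (clear * - hFL hBu hsum; linarith)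
  have hcard' := mul_le_mul_of_nonneg_right hcard hL.le
  have hexp : ((1 - ε₁) * l * VV w - (l * (1 + δ) * (VV w - VV X) +
      l * (1 + δ) * (0.6095 / Real.log X) * S7 + X ^ (15.9 : ℝ) * S8)) * Real.log X =
      l * ((1 + δ) * (VV X * Real.log X) - ε₁ * (VV w * Real.log X) - δ * (VV w * Real.log X) -
        0.6095 * S7 - δ * (0.6095 * S7)) - X ^ (15.9 : ℝ) * S8 * Real.log X := by
    field_simp
    ring
  rw [hexp] at hcard'
  have k1 : ε₁ * (VV w * Real.log X) ≤ 0.018 * ε := by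
    calc ε₁ * (VV w * Real.log X) ≤ ε₁ * (0.572 / ω) := mul_le_mul_of_nonneg_left hVw hε₁.le
      _ = 0.572 * (ε₁ / ω) := by ring
      _ ≤ 0.572 * (ε / 32) := by (clear * - hε₁ω; linarith)
      _ ≤ 0.018 * ε := by (clear * - hε; linarith)
  have k2 : δ * (VV w * Real.log X) + δ * (0.6095 * S7) ≤ ε / 16 := by
    calc δ * (VV w * Real.log X) + δ * (0.6095 * S7) = δ * (VV w * Real.log X + 0.6095 * S7) := by ring
      _ ≤ δ * (0.572 / ω + 1 + ε) := by
        apply mul_le_mul_of_nonneg_left _ hδ0.le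
        have : 0.6095 * S7 ≤ 1 + ε := by
          have h11 : S7 ≤ 0.0000015 + ε / 16 := h7.le
          (clear * - hε h7; linarith)
        (clear * - hε h7 hVw; linarith)
      _ ≤ ε / 16 := h10
  have k3 : 0.6095 * S7 ≤ 0.000001 + ε / 16 := by
    have h11 : S7 ≤ 0.0000015 + ε / 16 := h7.le
    (clear * - hε h7; linarith)
  have k4 : VV X * Real.log X ≤ (1 + δ) * (VV X * Real.log X) := by
    have : 0 ≤ δ * (VV X * Real.log X) := by (clear * - h1 hVz0 hL; positivity)
    (clear * - this; linarith)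
  have k5 : VV X * Real.log X - 0.000001 - ε * (0.018 + 1 / 16 + 1 / 16) ≤
      (1 + δ) * (VV X * Real.log X) - ε₁ * (VV w * Real.log X) - δ * (VV w * Real.log X) -
        0.6095 * S7 - δ * (0.6095 * S7) := by (clear * - hε h7 k1 k2 k4; linarith)
  have k6 := mul_le_mul_of_nonneg_left k5 hl0.le
  have k7 : (0.99999 - ε) * (VV X * Real.log X) ≤
      VV X * Real.log X - 0.000001 - ε * (0.018 + 1 / 16 + 1 / 16) - ε / 16 := by
    (clear * - hε h6; nlinarith [h6, hε])
  have k8 := mul_le_mul_of_nonneg_left k7 hl0.le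
  have k9 : (0.99999 - ε) * l * VV X * Real.log X ≤ (RS y l X).card * Real.log X := by
    (clear * - h8' hcard' k6 k8; linarith)
  exact le_of_mul_le_mul_right k9 hL

end Pool.Agent.M17.Helper40.AV.T16
end

/- Helper53.KN.Helper30.AV.Rankin -/
section
/-! AV3b: Selberg's sum for large `u` (Rankin's trick). -/

set_option autoImplicit false

open Finset

namespace Pool.Agent.M17.Helper30.AV

open Pool.Agent.M17.Helper40.AV
open Pool.Agent.M17.Helper44 (primesUpTo mem_primesUpTo mertens_first)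

/-! ### Second moments of the logarithm -/

theorem sum_log_sq : ∃ C : ℝ, 0 < C ∧ ∀ N : ℕ, 1 ≤ N →
    |∑ q ∈ (Ioc 0 N).filter Nat.Prime, Real.log q / q - Real.log N| ≤ C ∧
    ∑ q ∈ (Ioc 0 N).filter Nat.Prime, Real.log q ^ 2 / q ≤
      1 / 2 * Real.log N ^ 2 + (2 * C + 1) * Real.log N := by
  obtain ⟨C, hC, h⟩ := mertens_first
  refine ⟨C, hC, fun N hN => ⟨h N hN, ?_⟩⟩
  have key : ∀ N : ℕ, 1 ≤ N → ∑ q ∈ (Ioc 0 N).filter Nat.Prime, Real.log q ^ 2 / q ≤
      (∑ q ∈ (Ioc 0 N).filter Nat.Prime, Real.log q / q) * Real.log N - 1 / 2 * Real.log N ^ 2 +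
        (C + 1) * Real.log N := by
    intro N hN
    induction N, hN using Nat.le_induction with
    | base =>
      have : (Ioc 0 1).filter Nat.Prime = ∅ := by decide
      rw [this]
      simp
    | succ N hN ih =>
      have hNpos : (0 : ℝ) < N := by exact_mod_cast hN
      have hsum : ∀ g : ℕ → ℝ, ∑ q ∈ (Ioc 0 (N + 1)).filter Nat.Prime, g q =
          ∑ q ∈ (Ioc 0 N).filter Nat.Prime, g q + (if (N + 1).Prime then g (N + 1) else 0) := by
        intro g
        rw [Finset.sum_filter, Finset.sum_filter, Finset.sum_Ioc_succ_top (Nat.zero_le N)]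
      rw [hsum, hsum]
      set S := ∑ q ∈ (Ioc 0 N).filter Nat.Prime, Real.log q / q with hS
      set a : ℝ := if (N + 1).Prime then Real.log ((N + 1 : ℕ) : ℝ) / ((N + 1 : ℕ) : ℝ) else 0 with ha
      have ha2 : (if (N + 1).Prime then Real.log ((N + 1 : ℕ) : ℝ) ^ 2 / ((N + 1 : ℕ) : ℝ) else 0) =
          a * Real.log ((N + 1 : ℕ) : ℝ) := by
        rw [ha]
        split_ifs
        · ring
        · ring
      rw [ha2]
      have hb := (abs_le.mp (h N hN)).1
      set d := Real.log ((N + 1 : ℕ) : ℝ) - Real.log N with hd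
      have hd0 : 0 ≤ d := by
        rw [hd, sub_nonneg]
        apply Real.log_le_log hNpos
        push_cast; (clear * -; linarith)
      have hd1 : d ≤ 1 := by
        rw [hd, ← Real.log_div (by (clear * - hN; positivity)) (by positivity)]
        have : (((N + 1 : ℕ) : ℝ) / N) ≤ 2 := by
          rw [div_le_iff₀ hNpos]
          push_cast
          have : (1 : ℝ) ≤ N := by exact_mod_cast hN
          (clear * - this; linarith)
        calc Real.log (((N + 1 : ℕ) : ℝ) / N) ≤ Real.log 2 := Real.log_le_log (by positivity) this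
          _ ≤ 1 := by have := Real.log_two_lt_d9; (clear * - this; linarith)
      have hl : Real.log ((N + 1 : ℕ) : ℝ) = Real.log N + d := by rw [hd]; ring
      rw [hl]
      rw [hl] at hd
      have hSb : Real.log N - C ≤ S := by (clear * - hb; linarith)
      (clear * - ih hd0 hSb hd1; nlinarith [mul_nonneg (sub_nonneg.mpr hSb) hd0, mul_nonneg hd0 (sub_nonneg.mpr hd1)])
  have h1 := key N hN
  have h2 := (abs_le.mp (h N hN)).2
  have hlog : 0 ≤ Real.log N := Real.log_natCast_nonneg N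
  nlinarith [mul_nonneg (sub_nonneg.mpr h2) hlog]

/-- `e^(2t) ≤ 1 + 2t + (e^2 - 3) t^2` on `[0,1]`. -/
theorem exp_bound {t : ℝ} (h0 : 0 ≤ t) (h1 : t ≤ 1) :
    Real.exp (2 * t) ≤ 1 + 2 * t + (Real.exp 2 - 3) * t ^ 2 := by
  have ha : HasSum (fun n : ℕ => (2 * t) ^ n / (n.factorial : ℝ)) (Real.exp (2 * t)) := by
    have := NormedSpace.expSeries_div_hasSum_exp (2 * t)
    rwa [← Real.exp_eq_exp_ℝ] at this
  have hb : HasSum (fun n : ℕ => t ^ 2 * (2 ^ n / (n.factorial : ℝ)) +
      ((if n = 0 then 1 - t ^ 2 else 0) + (if n = 1 then 2 * t - 2 * t ^ 2 else 0)))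
      (t ^ 2 * Real.exp 2 + ((1 - t ^ 2) + (2 * t - 2 * t ^ 2))) := by
    refine HasSum.add ?_ (HasSum.add (hasSum_ite_eq 0 _) (hasSum_ite_eq 1 _))
    apply HasSum.mul_left
    have := NormedSpace.expSeries_div_hasSum_exp (2 : ℝ)
    rwa [← Real.exp_eq_exp_ℝ] at this
  have hle : Real.exp (2 * t) ≤ t ^ 2 * Real.exp 2 + ((1 - t ^ 2) + (2 * t - 2 * t ^ 2)) := by
    refine hasSum_le (fun n => ?_) ha hb
    rcases n with _ | _ | n
    · simp
    · norm_num
      linarith
    · have e1 : ¬ (n + 1 + 1 = 0) := by omega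
      have e2 : ¬ (n + 1 + 1 = 1) := by omega
      rw [if_neg e1, if_neg e2, add_zero, add_zero, mul_pow, ← mul_div_assoc]
      have h3 : t ^ (n + 1 + 1) ≤ t ^ 2 := pow_le_pow_of_le_one h0 h1 (by omega)
      have h4 : 2 ^ (n + 1 + 1) * t ^ (n + 1 + 1) ≤ t ^ 2 * 2 ^ (n + 1 + 1) := by
        rw [mul_comm]
        exact mul_le_mul_of_nonneg_right h3 (by positivity)
      exact div_le_div_of_nonneg_right h4 (by positivity)
  linarith

theorem exp_two_le : Real.exp 2 ≤ 7.3891 := by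
  have h1 := Real.exp_one_lt_d9
  have h2 : Real.exp 2 = Real.exp 1 * Real.exp 1 := by rw [← Real.exp_add]; norm_num
  have h3 : 0 < Real.exp 1 := Real.exp_pos 1
  rw [h2]
  nlinarith

/-- The sum of `(p^η - 1)/p`, `η = 2 / log z`. -/
theorem sum_rpow_le : ∃ z₀ : ℝ, 2 ≤ z₀ ∧ ∀ z : ℝ, z₀ ≤ z →
    ∑ p ∈ primesUpTo z, ((p : ℝ) ^ (2 / Real.log z) - 1) / p ≤ 4.2 := by
  obtain ⟨C, hC, h⟩ := sum_log_sq
  refine ⟨max 2 (Real.exp (1000 * (7 * C + 5))), le_max_left _ _, fun z hz => ?_⟩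
  have hz2 : 2 ≤ z := (le_max_left _ _).trans hz
  have hzpos : 0 < z := by (clear * - hz2; linarith)
  have hL : 1000 * (7 * C + 5) ≤ Real.log z := by
    rw [Real.le_log_iff_exp_le hzpos]
    exact (le_max_right _ _).trans hz
  have hLpos : 0 < Real.log z := by linarith
  have hfl : 1 ≤ ⌊z⌋₊ := by
    rw [Nat.one_le_floor_iff]; (clear * - hz2; linarith)
  obtain ⟨h1, h2⟩ := h ⌊z⌋₊ hfl
  have hlf : Real.log (⌊z⌋₊ : ℝ) ≤ Real.log z := by
    apply Real.log_le_log (by exact_mod_cast hfl)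
    exact Nat.floor_le hzpos.le
  have hlf0 : 0 ≤ Real.log (⌊z⌋₊ : ℝ) := Real.log_natCast_nonneg _
  have h1' : ∑ q ∈ primesUpTo z, Real.log q / q ≤ Real.log z + C := by
    have := (abs_le.mp h1).2
    show ∑ q ∈ (Ioc 0 ⌊z⌋₊).filter Nat.Prime, Real.log q / q ≤ _
    (clear * - hlf this; linarith)
  have h2' : ∑ q ∈ primesUpTo z, Real.log q ^ 2 / q ≤
      1 / 2 * Real.log z ^ 2 + (2 * C + 1) * Real.log z := by
    refine le_trans h2 ?_
    have h3 : Real.log (⌊z⌋₊ : ℝ) ^ 2 ≤ Real.log z ^ 2 := by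
      apply pow_le_pow_left₀ hlf0 hlf
    have h4 : (2 * C + 1) * Real.log (⌊z⌋₊ : ℝ) ≤ (2 * C + 1) * Real.log z :=
      mul_le_mul_of_nonneg_left hlf (by (clear * - hC; linarith))
    (clear * - h3 h4; linarith)
  have hterm : ∀ p ∈ primesUpTo z, ((p : ℝ) ^ (2 / Real.log z) - 1) / p ≤
      2 / Real.log z * (Real.log p / p) + 4.3891 / Real.log z ^ 2 * (Real.log p ^ 2 / p) := by
    intro p hp
    rw [mem_primesUpTo hzpos.le] at hp
    have hp1 : (1 : ℝ) ≤ p := by exact_mod_cast hp.1.one_lt.le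
    have hppos : (0 : ℝ) < p := by (clear * - hp1; linarith)
    have hlp : 0 ≤ Real.log p := Real.log_nonneg hp1
    have hlpz : Real.log p ≤ Real.log z := Real.log_le_log hppos hp.2
    have e1 : (p : ℝ) ^ (2 / Real.log z) = Real.exp (2 * (Real.log p / Real.log z)) := by
      rw [Real.rpow_def_of_pos hppos]
      congr 1
      field_simp
    have h5 := exp_bound (t := Real.log p / Real.log z) (by (clear * - hLpos; positivity))
      (by rw [div_le_one hLpos]; exact hlpz)
    have h6 : Real.exp (2 * (Real.log p / Real.log z)) - 1 ≤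
        2 * (Real.log p / Real.log z) + 4.3891 * (Real.log p / Real.log z) ^ 2 := by
      have h7 := exp_two_le
      have h8 : (Real.exp 2 - 3) * (Real.log p / Real.log z) ^ 2 ≤
          4.3891 * (Real.log p / Real.log z) ^ 2 :=
        mul_le_mul_of_nonneg_right (by (clear * - h7; linarith)) (by (clear * -; positivity))
      (clear * - h5 h8; linarith)
    rw [e1]
    calc (Real.exp (2 * (Real.log p / Real.log z)) - 1) / p ≤
        (2 * (Real.log p / Real.log z) + 4.3891 * (Real.log p / Real.log z) ^ 2) / p :=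
          div_le_div_of_nonneg_right h6 hppos.le
      _ = _ := by (clear * - hp1 hLpos; field_simp)
  have hsum : ∑ p ∈ primesUpTo z, ((p : ℝ) ^ (2 / Real.log z) - 1) / p ≤
      2 / Real.log z * (Real.log z + C) + 4.3891 / Real.log z ^ 2 *
        (1 / 2 * Real.log z ^ 2 + (2 * C + 1) * Real.log z) := by
    refine (Finset.sum_le_sum hterm).trans ?_
    rw [Finset.sum_add_distrib, ← Finset.mul_sum, ← Finset.mul_sum]
    exact add_le_add (mul_le_mul_of_nonneg_left h1' (by positivity))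
      (mul_le_mul_of_nonneg_left h2' (by positivity))
  refine hsum.trans ?_
  have e2 : 2 / Real.log z * (Real.log z + C) + 4.3891 / Real.log z ^ 2 *
        (1 / 2 * Real.log z ^ 2 + (2 * C + 1) * Real.log z) =
      2 + 4.3891 / 2 + (2 * C + 4.3891 * (2 * C + 1)) / Real.log z := by
    field_simp
    ring
  rw [e2]
  have h9 : (2 * C + 4.3891 * (2 * C + 1)) / Real.log z ≤ 0.005 := by
    rw [div_le_iff₀ hLpos]
    (clear * - hC hL; nlinarith)
  (clear * - h9; linarith)

/-! ### Subsets of primes -/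

theorem prod_facts (T : Finset ℕ) (hT : ∀ p ∈ T, p.Prime) :
    Squarefree (∏ p ∈ T, p) ∧ ((∏ p ∈ T, p).totient : ℝ) = ∏ p ∈ T, ((p : ℝ) - 1) := by
  induction T using Finset.induction_on with
  | empty => simp
  | insert p T hp ih =>
    have hpp := hT p (Finset.mem_insert_self p T)
    obtain ⟨h1, h2⟩ := ih fun q hq => hT q (Finset.mem_insert_of_mem hq)
    have hcop : Nat.Coprime p (∏ q ∈ T, q) := by
      apply Nat.Coprime.prod_right
      intro q hq
      rw [Nat.coprime_primes hpp (hT q (Finset.mem_insert_of_mem hq))]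
      rintro rfl
      exact hp hq
    rw [Finset.prod_insert hp, Finset.prod_insert hp]
    refine ⟨(Nat.squarefree_mul hcop).mpr ⟨hpp.squarefree, h1⟩, ?_⟩
    rw [Nat.totient_mul hcop, Nat.totient_prime hpp, Nat.cast_mul, h2,
      Nat.cast_sub hpp.one_lt.le, Nat.cast_one]

theorem GG_ge (z Y : ℝ) (hz : 0 ≤ z) :
    ∑ T ∈ (primesUpTo z).powerset.filter (fun T => ((∏ p ∈ T, p : ℕ) : ℝ) ≤ Y),
      ∏ p ∈ T, (1 : ℝ) / ((p : ℝ) - 1) ≤ GG z Y := by
  classical
  set F := (primesUpTo z).powerset.filter (fun T => ((∏ p ∈ T, p : ℕ) : ℝ) ≤ Y) with hF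
  have hprime : ∀ T ∈ F, ∀ p ∈ T, p.Prime ∧ (p : ℝ) ≤ z := by
    intro T hT p hp
    rw [hF, Finset.mem_filter, Finset.mem_powerset] at hT
    exact (mem_primesUpTo hz).mp (hT.1 hp)
  have hinj : Set.InjOn (fun T : Finset ℕ => ∏ p ∈ T, p) (F : Set (Finset ℕ)) := by
    intro T hT T' hT' heq
    have h1 := Nat.primeFactors_prod (s := T) fun p hp => (hprime T hT p hp).1
    have h2 := Nat.primeFactors_prod (s := T') fun p hp => (hprime T' hT' p hp).1
    rw [← h1, ← h2]
    exact congrArg Nat.primeFactors heq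
  have h3 : ∑ T ∈ F, ∏ p ∈ T, (1 : ℝ) / ((p : ℝ) - 1) =
      ∑ m ∈ F.image (fun T : Finset ℕ => ∏ p ∈ T, p), (1 : ℝ) / m.totient := by
    rw [Finset.sum_image hinj]
    refine Finset.sum_congr rfl fun T hT => ?_
    rw [(prod_facts T fun p hp => (hprime T hT p hp).1).2, Finset.prod_div_distrib,
      Finset.prod_const_one]
  rw [h3, GG]
  refine Finset.sum_le_sum_of_subset_of_nonneg ?_ fun m _ _ => by (clear * -; positivity)
  intro m hm
  rw [Finset.mem_image] at hm
  obtain ⟨T, hT, rfl⟩ := hm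
  have hT2 := (Finset.mem_filter.mp hT).2
  have hpos : 0 < ∏ p ∈ T, p := Finset.prod_pos fun p hp => (hprime T hT p hp).1.pos
  rw [Finset.mem_filter, Finset.mem_Icc]
  refine ⟨⟨hpos, Nat.le_floor hT2⟩, (prod_facts T fun p hp => (hprime T hT p hp).1).1, ?_⟩
  intro r hr hrd
  obtain ⟨p, hp, hrp⟩ := (Prime.dvd_finsetProd_iff hr.prime _).mp hrd
  have h4 := (Nat.prime_dvd_prime_iff_eq hr (hprime T hT p hp).1).mp hrp
  rw [h4]
  exact (hprime T hT p hp).2

theorem gGrankin : GGrankin := by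
  classical
  obtain ⟨z₀, hz₀, h⟩ := sum_rpow_le
  refine ⟨z₀, hz₀, fun z u hz hu => ?_⟩
  have hz2 : 2 ≤ z := hz₀.trans hz
  have hzpos : 0 < z := by linarith
  have hLpos : 0 < Real.log z := Real.log_pos (by linarith)
  set η := 2 / Real.log z with hη
  set P := primesUpTo z with hP
  have hprime : ∀ p ∈ P, p.Prime ∧ (p : ℝ) ≤ z := fun p hp => (mem_primesUpTo hzpos.le).mp hp
  have hp2 : ∀ p ∈ P, (2 : ℝ) ≤ p := fun p hp => by exact_mod_cast (hprime p hp).1.two_le
  set w : Finset ℕ → ℝ := fun T => ∏ p ∈ T, (1 : ℝ) / ((p : ℝ) - 1) with hw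
  set Y := z ^ u with hY
  have hYpos : 0 < Y := Real.rpow_pos_of_pos hzpos u
  -- the full sum
  have hfull : VV z * ∑ T ∈ P.powerset, w T = 1 := by
    rw [hw, ← Finset.prod_one_add, VV, ← hP, ← Finset.prod_mul_distrib]
    refine Finset.prod_eq_one fun p hp => ?_
    have h1 := hp2 p hp
    have h2 : (p : ℝ) - 1 ≠ 0 := by (clear * - h1; linarith)
    have h3 : (p : ℝ) ≠ 0 := by (clear * - h1; linarith)
    field_simp
    ring
  have hV : 0 ≤ VV z := by
    rw [VV]
    refine Finset.prod_nonneg fun p hp => ?_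
    have h1 := hp2 p hp
    rw [sub_nonneg, div_le_one (by (clear * - h1; linarith))]
    (clear * - h1; linarith)
  -- the tail
  have htail : ∑ T ∈ P.powerset.filter (fun T => ¬ ((∏ p ∈ T, p : ℕ) : ℝ) ≤ Y), w T ≤
      Y ^ (-η) * ∏ p ∈ P, (1 + (p : ℝ) ^ η / ((p : ℝ) - 1)) := by
    rw [Finset.prod_one_add, Finset.mul_sum]
    refine le_trans ?_ (Finset.sum_le_sum_of_subset_of_nonneg (Finset.filter_subset
      (fun T => ¬ ((∏ p ∈ T, p : ℕ) : ℝ) ≤ Y) _) ?_)
    · refine Finset.sum_le_sum fun T hT => ?_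
      rw [Finset.mem_filter, Finset.mem_powerset, not_le] at hT
      have h1 : ∏ p ∈ T, (p : ℝ) ^ η / ((p : ℝ) - 1) =
          (((∏ p ∈ T, p : ℕ) : ℝ)) ^ η * w T := by
        rw [hw]
        push_cast
        rw [← Real.finsetProd_rpow _ _ (fun p _ => by (clear * -; positivity)), ← Finset.prod_mul_distrib]
        refine Finset.prod_congr rfl fun p _ => ?_
        rw [mul_one_div]
      rw [h1, ← mul_assoc]
      have hwpos : 0 ≤ w T := by
        refine Finset.prod_nonneg fun p hp => ?_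
        have := hp2 p (hT.1 hp)
        apply div_nonneg zero_le_one
        (clear * - this; linarith)
      have h2 : 1 ≤ Y ^ (-η) * (((∏ p ∈ T, p : ℕ) : ℝ)) ^ η := by
        rw [Real.rpow_neg hYpos.le, inv_mul_eq_div, one_le_div (Real.rpow_pos_of_pos hYpos _)]
        exact Real.rpow_le_rpow hYpos.le hT.2.le (by positivity)
      calc w T = 1 * w T := (one_mul _).symm
        _ ≤ _ := mul_le_mul_of_nonneg_right h2 hwpos
    · intro T hT _
      refine mul_nonneg (Real.rpow_nonneg hYpos.le _) (Finset.prod_nonneg fun p hp => ?_)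
      have := hp2 p (Finset.mem_powerset.mp hT hp)
      apply div_nonneg (Real.rpow_nonneg (by (clear * - this; positivity)) _)
      (clear * - this; linarith)
  have hprod : VV z * ∏ p ∈ P, (1 + (p : ℝ) ^ η / ((p : ℝ) - 1)) ≤ Real.exp 4.2 := by
    rw [VV, ← hP, ← Finset.prod_mul_distrib]
    calc ∏ p ∈ P, ((1 - 1 / (p : ℝ)) * (1 + (p : ℝ) ^ η / ((p : ℝ) - 1))) ≤
        ∏ p ∈ P, Real.exp (((p : ℝ) ^ η - 1) / p) := by
          refine Finset.prod_le_prod (fun p hp => ?_) fun p hp => ?_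
          · have h1 := hp2 p hp
            refine mul_nonneg ?_ ?_
            · rw [sub_nonneg, div_le_one (by (clear * - h1; linarith))]
              (clear * - h1; linarith)
            · have : 0 ≤ (p : ℝ) ^ η / ((p : ℝ) - 1) :=
                div_nonneg (Real.rpow_nonneg (by (clear * - h1; positivity)) _) (by (clear * - h1; linarith))
              (clear * - this; linarith)
          · have h1 := hp2 p hp
            have h2 : (p : ℝ) - 1 ≠ 0 := by (clear * - h1; linarith)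
            have h3 : (p : ℝ) ≠ 0 := by (clear * - h1; linarith)
            have e : (1 - 1 / (p : ℝ)) * (1 + (p : ℝ) ^ η / ((p : ℝ) - 1)) =
                ((p : ℝ) ^ η - 1) / p + 1 := by
              field_simp
              ring
            rw [e]
            exact Real.add_one_le_exp _
      _ = Real.exp (∑ p ∈ P, ((p : ℝ) ^ η - 1) / p) := (Real.exp_sum _ _).symm
      _ ≤ Real.exp 4.2 := Real.exp_le_exp.mpr (h z hz)
  have hYη : Y ^ (-η) = Real.exp (-(2 * u)) := by
    rw [hY, ← Real.rpow_mul hzpos.le, Real.rpow_def_of_pos hzpos]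
    congr 1
    rw [hη]
    field_simp
  have hGG := GG_ge z Y hzpos.le
  have hsplit := Finset.sum_filter_add_sum_filter_not P.powerset
    (fun T => ((∏ p ∈ T, p : ℕ) : ℝ) ≤ Y) w
  have h5 : 1 ≤ VV z * GG z Y + Y ^ (-η) * Real.exp 4.2 := by
    calc (1 : ℝ) = VV z * ∑ T ∈ P.powerset, w T := hfull.symm
      _ = VV z * ∑ T ∈ P.powerset.filter (fun T => ((∏ p ∈ T, p : ℕ) : ℝ) ≤ Y), w T +
          VV z * ∑ T ∈ P.powerset.filter (fun T => ¬ ((∏ p ∈ T, p : ℕ) : ℝ) ≤ Y), w T := by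
          rw [← mul_add, hsplit]
      _ ≤ VV z * GG z Y + VV z * (Y ^ (-η) * ∏ p ∈ P, (1 + (p : ℝ) ^ η / ((p : ℝ) - 1))) :=
          add_le_add (mul_le_mul_of_nonneg_left hGG hV) (mul_le_mul_of_nonneg_left htail hV)
      _ = VV z * GG z Y + Y ^ (-η) * (VV z * ∏ p ∈ P, (1 + (p : ℝ) ^ η / ((p : ℝ) - 1))) := by
          ring
      _ ≤ VV z * GG z Y + Y ^ (-η) * Real.exp 4.2 := by
          (clear * - hprod hz2; gcongr)
  have h6 : Y ^ (-η) * Real.exp 4.2 = Real.exp (4.2 - 2 * u) := by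
    rw [hYη, ← Real.exp_add]
    congr 1
    ring
  rw [h6] at h5
  (clear * - h5; linarith)

end Pool.Agent.M17.Helper30.AV
end

/- Helper53.KN.Helper14.AV.Buch -/
section
/-! Project AV, module AV5: Buchstab's inequality and the telescoping product. -/

set_option autoImplicit false

namespace Pool.Agent.M17.Helper14.AV

open Pool.Agent.M17.Helper40.AV Pool.Agent.M17.Helper44

theorem mem_PI {a b : ℝ} (hb : 0 ≤ b) {p : ℕ} : p ∈ PI a b ↔ p.Prime ∧ a < (p : ℝ) ∧ (p : ℝ) ≤ b := by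
  unfold PI
  rw [Finset.mem_filter, mem_primesUpTo hb]
  tauto

/-- AV5: Buchstab's inequality -/
theorem buchstab : Buchstab := by
  classical
  intro y l w z hw hwz
  have hz0 : (0 : ℝ) ≤ z := by linarith
  set A : ℕ → Finset ℕ := fun p => (Finset.Ico y (y + l)).filter fun n => p ∣ n ∧
    ∀ r : ℕ, r.Prime → r ∣ n → (p : ℝ) - 1 / 2 < r with hA
  have hsub : RS y l w ⊆ RS y l z ∪ (PI w z).biUnion A := by
    intro n hn
    have hn' := hn
    rw [RS, Finset.mem_filter] at hn'
    rw [Finset.mem_union]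
    by_cases h : ∀ r : ℕ, r.Prime → r ∣ n → z < r
    · left
      rw [RS, Finset.mem_filter]
      exact ⟨hn'.1, h⟩
    · right
      push Not at h
      obtain ⟨r, hr, hrn, hrz⟩ := h
      have hn1 : n ≠ 1 := by
        rintro rfl
        exact hr.one_lt.ne' (Nat.dvd_one.mp hrn)
      have hp := Nat.minFac_prime hn1
      have hpn := Nat.minFac_dvd n
      have hmin : ∀ s : ℕ, s.Prime → s ∣ n → n.minFac ≤ s := fun s hs hsn =>
        Nat.minFac_le_of_dvd hs.two_le hsn
      rw [Finset.mem_biUnion]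
      refine ⟨n.minFac, (mem_PI hz0).mpr ⟨hp, hn'.2 _ hp hpn, ?_⟩, ?_⟩
      · have : (n.minFac : ℝ) ≤ r := by exact_mod_cast hmin r hr hrn
        linarith
      · rw [hA, Finset.mem_filter]
        refine ⟨hn'.1, hpn, fun s hs hsn => ?_⟩
        have : (n.minFac : ℝ) ≤ s := by exact_mod_cast hmin s hs hsn
        linarith
  have h1 : (RS y l w).card ≤ (RS y l z).card + ∑ p ∈ PI w z, (A p).card :=
    (Finset.card_le_card hsub).trans ((Finset.card_union_le _ _).trans
      (Nat.add_le_add_left Finset.card_biUnion_le _))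
  exact_mod_cast h1

/-- AV5: the product telescopes -/
theorem telescope : Telescope := by
  intro w z hw hwz
  have hz0 : (0 : ℝ) ≤ z := by linarith
  have hw0 : (0 : ℝ) ≤ w := by linarith
  -- split of the product
  have hsplit : ∀ p : ℕ, p ∈ PI w z → VV ((p : ℝ) - 1 / 2) =
      VV w * ∏ r ∈ (PI w z).filter (fun r => r < p), (1 - (1 : ℝ) / r) := by
    intro p hp
    obtain ⟨hpp, hwp, hpz⟩ := (mem_PI hz0).mp hp
    have hp1 : (1 : ℝ) ≤ p := by exact_mod_cast hpp.one_lt.le
    rw [VV, VV, ← Finset.prod_union]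
    · refine Finset.prod_congr ?_ fun _ _ => rfl
      ext r
      rw [Finset.mem_union, Finset.mem_filter, mem_PI hz0, mem_primesUpTo hw0,
        mem_primesUpTo (by linarith)]
      constructor
      · rintro ⟨hr, hrp⟩
        have hrp' : r < p := by
          by_contra hcon
          have : (p : ℝ) ≤ r := by exact_mod_cast not_lt.mp hcon
          linarith
        rcases le_or_gt (r : ℝ) w with h | h
        · exact Or.inl ⟨hr, h⟩
        · refine Or.inr ⟨⟨hr, h, ?_⟩, hrp'⟩
          have : (r : ℝ) ≤ p := by exact_mod_cast hrp'.le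
          linarith
      · have hkey : ∀ r : ℕ, r < p → (r : ℝ) ≤ p - 1 / 2 := by
          intro r hr
          have : (r : ℝ) + 1 ≤ p := by exact_mod_cast hr
          linarith
        rintro (⟨hr, hrw⟩ | ⟨⟨hr, -, -⟩, hrp⟩)
        · refine ⟨hr, hkey r ?_⟩
          have : (r : ℝ) < p := by linarith
          exact_mod_cast this
        · exact ⟨hr, hkey r hrp⟩
    · rw [Finset.disjoint_left]
      intro r h1 h2
      rw [mem_primesUpTo hw0] at h1
      rw [Finset.mem_filter, mem_PI hz0] at h2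
      linarith [h1.2, h2.1.2.1]
  have hz : VV z = VV w * ∏ r ∈ PI w z, (1 - (1 : ℝ) / r) := by
    rw [VV, VV, ← Finset.prod_union]
    · refine Finset.prod_congr ?_ fun _ _ => rfl
      ext r
      rw [Finset.mem_union, mem_PI hz0, mem_primesUpTo hw0, mem_primesUpTo hz0]
      constructor
      · rintro ⟨hr, hrz⟩
        rcases le_or_gt (r : ℝ) w with h | h
        · exact Or.inl ⟨hr, h⟩
        · exact Or.inr ⟨hr, h, hrz⟩
      · rintro (⟨hr, hrw⟩ | ⟨hr, -, hrz⟩)
        · exact ⟨hr, hrw.trans hwz⟩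
        · exact ⟨hr, hrz⟩
    · rw [Finset.disjoint_left]
      intro r h1 h2
      rw [mem_primesUpTo hw0] at h1
      rw [mem_PI hz0] at h2
      linarith [h1.2, h2.2.1]
  rw [hz, Finset.prod_one_sub_ordered, mul_sub, mul_one, sub_sub_cancel, Finset.mul_sum]
  refine Finset.sum_congr rfl fun p hp => ?_
  rw [hsplit p hp]
  ring

end Pool.Agent.M17.Helper14.AV
end

/- Helper53.KN.Helper5.AV.StepKit -/
section
/-! Project AV part 2 (KS, MP_768c9c_nt): tools for the Buchstab steps. -/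

set_option autoImplicit false

open Filter Topology

namespace Pool.Agent.M17.Helper5.AV

open Pool.Agent.M17.Helper40.AV

/-- the number of integers in a Buchstab term -/
noncomputable def NP (y l p : ℕ) : ℝ :=
  (((@Finset.filter ℕ (fun n => p ∣ n ∧ ∀ r : ℕ, r.Prime → r ∣ n → (p : ℝ) - 1 / 2 < r)
    (Classical.decPred _) (Finset.Ico y (y + l))).card : ℕ) : ℝ)

theorem ratio_tendsto (hM : Mertens3) {s t : ℝ} (hs : 0 < s) (ht : 0 < t) :
    Tendsto (fun z : ℝ => VV (z ^ (s / t)) / VV z) atTop (𝓝 (t / s)) := by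
  have ha : 0 < s / t := by positivity
  have h1 := hM.comp (tendsto_rpow_top ha)
  have hne : Real.exp (-Real.eulerMascheroniConstant) ≠ 0 := (Real.exp_pos _).ne'
  have h2 := h1.div hM hne
  rw [div_self hne] at h2
  have h3 := h2.const_mul (t / s)
  rw [mul_one] at h3
  refine h3.congr' ?_
  filter_upwards [eventually_gt_atTop (1 : ℝ)] with z hz
  have hz0 : 0 < z := by linarith
  have hL : Real.log z ≠ 0 := (Real.log_pos hz).ne'
  have hV : VV z ≠ 0 := (vv_pos z).ne'
  simp only [Function.comp_apply, Pi.div_apply, Real.log_rpow hz0]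
  field_simp

theorem sum_PI_split {a b c : ℝ} (ha : 0 ≤ a) (hab : a ≤ b) (hbc : b ≤ c) (h : ℕ → ℝ) :
    ∑ p ∈ PI a c, h p = ∑ p ∈ PI a b, h p + ∑ p ∈ PI b c, h p := by
  classical
  have hb : 0 ≤ b := ha.trans hab
  have hc : 0 ≤ c := hb.trans hbc
  rw [← Finset.sum_union]
  · refine Finset.sum_congr ?_ (fun _ _ => rfl)
    ext p
    rw [Finset.mem_union, mem_PI hc, mem_PI hb, mem_PI hc]
    constructor
    · rintro ⟨h1, h2, h3⟩
      rcases le_or_gt (p : ℝ) b with h4 | h4
      · exact Or.inl ⟨h1, h2, h4⟩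
      · exact Or.inr ⟨h1, h4, h3⟩
    · rintro (⟨h1, h2, h3⟩ | ⟨h1, h2, h3⟩)
      · exact ⟨h1, h2, h3.trans hbc⟩
      · exact ⟨h1, hab.trans_lt h2, h3⟩
  · rw [Finset.disjoint_left]
    intro p h1 h2
    exact absurd ((mem_PI hb).1 h1).2.2 (not_le.2 ((mem_PI hc).1 h2).2.1)

theorem sum_bands (w : ℕ → ℝ) (h : ℕ → ℝ) (n : ℕ) (hw0 : ∀ i ≤ n, 0 ≤ w i)
    (hw : ∀ i < n, w (i + 1) ≤ w i) :
    ∑ p ∈ PI (w n) (w 0), h p = ∑ i ∈ Finset.range n, ∑ p ∈ PI (w (i + 1)) (w i), h p := by
  induction n with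
  | zero =>
    rw [Finset.range_zero, Finset.sum_empty]
    refine Finset.sum_eq_zero fun p hp => ?_
    obtain ⟨_, h1, h2⟩ := (mem_PI (hw0 0 le_rfl)).1 hp
    exact absurd h2 (not_le.2 h1)
  | succ n ih =>
    have hmono : ∀ i ≤ n, w n ≤ w 0 := by
      have : ∀ i ≤ n, w i ≤ w 0 := by
        intro i
        induction i with
        | zero => exact fun _ => le_rfl
        | succ i ih2 => exact fun hi => (hw i (by omega)).trans (ih2 (by omega))
      exact fun _ _ => this n le_rfl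
    rw [Finset.sum_range_succ, ← ih (fun i hi => hw0 i (by omega)) (fun i hi => hw i (by omega)),
      sum_PI_split (hw0 (n + 1) le_rfl) (hw n (by omega)) (hmono n le_rfl), add_comm]

theorem NP_le (y l p : ℕ) (hp : p.Prime) :
    NP y l p ≤ ((RS ((y + p - 1) / p) (l / p + 1) ((p : ℝ) - 1 / 2)).card : ℝ) := by
  classical
  unfold NP
  norm_cast
  refine Finset.card_le_card_of_injOn (fun n => n / p) ?_ ?_
  · intro n hn
    have hn' := Finset.mem_filter.1 hn
    obtain ⟨h1, ⟨m, hm⟩, h3⟩ := hn'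
    rw [Finset.mem_Ico] at h1
    have hp0 := hp.pos
    have hdiv : n / p = m := by rw [hm, Nat.mul_div_cancel_left _ hp0]
    have hmem : m ∈ RS ((y + p - 1) / p) (l / p + 1) ((p : ℝ) - 1 / 2) := by
      unfold RS
      rw [Finset.mem_filter, Finset.mem_Ico]
      refine ⟨⟨?_, ?_⟩, fun r hr hrm => h3 r hr (hm ▸ Dvd.dvd.mul_left hrm p)⟩
      · have h4 : (y + p - 1) / p ≤ m := by
          rw [Nat.div_le_iff_le_mul_add_pred hp0]
          have : y ≤ p * m := hm ▸ h1.1
          omega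
        exact h4
      · by_contra hcon
        push Not at hcon
        have h5 : y ≤ p * ((y + p - 1) / p) := by
          have h6 := Nat.div_add_mod (y + p - 1) p
          have h7 := Nat.mod_lt (y + p - 1) hp0
          omega
        have h6 : l < p * (l / p + 1) := by
          have h7 := Nat.div_add_mod l p
          have h8 := Nat.mod_lt l hp0
          rw [Nat.mul_add, Nat.mul_one]
          omega
        have h7 : p * ((y + p - 1) / p + (l / p + 1)) ≤ p * m := Nat.mul_le_mul_left p hcon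
        rw [Nat.mul_add] at h7
        have h8 : p * m < y + l := hm ▸ h1.2
        omega
    show n / p ∈ (RS ((y + p - 1) / p) (l / p + 1) ((p : ℝ) - 1 / 2) : Set ℕ)
    rw [hdiv]
    exact Finset.mem_coe.2 hmem
  · intro n hn n' hn' hnn
    obtain ⟨_, ⟨m, hm⟩, _⟩ := Finset.mem_filter.1 hn
    obtain ⟨_, ⟨m', hm'⟩, _⟩ := Finset.mem_filter.1 hn'
    have hp0 := hp.pos
    simp only at hnn
    rw [hm, hm', Nat.mul_div_cancel_left _ hp0, Nat.mul_div_cancel_left _ hp0] at hnn
    rw [hm, hm', hnn]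

theorem card_PI_le {a b : ℝ} (hb : 0 ≤ b) : ((PI a b).card : ℝ) ≤ b := by
  classical
  have hsub : PI a b ⊆ Finset.Icc 1 ⌊b⌋₊ := by
    intro p hp
    obtain ⟨h1, _, h3⟩ := (mem_PI hb).1 hp
    rw [Finset.mem_Icc]
    exact ⟨h1.one_le, Nat.le_floor h3⟩
  have h1 := Finset.card_le_card hsub
  rw [Nat.card_Icc] at h1
  calc ((PI a b).card : ℝ) ≤ (⌊b⌋₊ : ℝ) := by exact_mod_cast (by omega : (PI a b).card ≤ ⌊b⌋₊)
    _ ≤ b := Nat.floor_le hb

end Pool.Agent.M17.Helper5.AV
end

/- Helper53.KN.Helper59.AV.Tab -/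
section
set_option autoImplicit false

/-! Project AV, LS6: kernel computation of the sieve functions on the grid `i / 16`. -/

open Filter Topology

namespace Pool.Agent.M17.Helper59.AV.Tab

open Pool.Agent.M17.Helper40.AV

/-! ### the computation -/

/-- suffix sums -/
def tot (l : List ℕ) (k : ℕ) : ℕ := (l.drop k).sum

/-! ### correctness -/

theorem tot_eq (l : List ℕ) (n k : ℕ) (h : l.length = k + n) :
    tot l k = ∑ j ∈ Finset.range n, l.getD (k + j) 0 := by
  induction n generalizing k with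
  | zero =>
    unfold tot
    rw [List.drop_of_length_le (by omega)]
    simp
  | succ n ih =>
    have h1 := ih (k + 1) (by omega)
    rw [Finset.sum_range_succ']
    have h2 : tot l k = l.getD k 0 + tot l (k + 1) := by
      unfold tot
      rw [List.drop_eq_getElem_cons (show k < l.length by omega), List.sum_cons]
      congr 1
      rw [List.getD_eq_getElem?_getD, List.getElem?_eq_getElem (show k < l.length by omega)]
      rfl
    rw [h2, h1, add_comm]
    congr 1
    apply Finset.sum_congr rfl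
    intro j _
    congr 1
    ring

theorem ceil_div (a i : ℕ) (hi : 0 < i) : (a : ℝ) / i ≤ (((a + (i - 1)) / i : ℕ) : ℝ) := by
  rw [div_le_iff₀ (by exact_mod_cast hi)]
  have h : a ≤ (a + (i - 1)) / i * i := by
    have h1 := Nat.div_add_mod (a + (i - 1)) i
    have h2 := Nat.mod_lt (a + (i - 1)) hi
    have h3 : i * ((a + (i - 1)) / i) = (a + (i - 1)) / i * i := mul_comm _ _
    omega
  exact_mod_cast h

theorem upb_mono {s s' F F' : ℝ} (h : UpB s F) (hs : s ≤ s') (hF : F ≤ F') : UpB s' F' := by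
  intro ε hε
  obtain ⟨z₀, hz⟩ := h ε hε
  refine ⟨max z₀ 1, fun z hz1 y l hl => ?_⟩
  have h1 : z₀ ≤ z := (le_max_left _ _).trans hz1
  have h2 : 1 ≤ z := (le_max_right _ _).trans hz1
  refine (hz z h1 y l ((Real.rpow_le_rpow_of_exponent_le h2 hs).trans hl)).trans ?_
  have h3 : (0 : ℝ) ≤ l := Nat.cast_nonneg _
  have h4 := (vv_pos z).le
  gcongr

theorem lob_mono {s f f' : ℝ} (h : LoB s f) (hF : f' ≤ f) : LoB s f' := by
  intro ε hε
  obtain ⟨z₀, hz⟩ := h ε hε
  refine ⟨z₀, fun z hz1 y l hl => le_trans ?_ (hz z hz1 y l hl)⟩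
  have h3 : (0 : ℝ) ≤ l := Nat.cast_nonneg _
  have h4 := (vv_pos z).le
  gcongr

theorem lob_zero (s : ℝ) : LoB s 0 := by
  intro ε hε
  refine ⟨0, fun z _ y l _ => ?_⟩
  have h3 : (0 : ℝ) ≤ l := Nat.cast_nonneg _
  have h4 := (vv_pos z).le
  have h5 : (0 : ℝ) ≤ ((RS y l z).card : ℝ) := Nat.cast_nonneg _
  have h6 : 0 ≤ ε * l * VV z := by positivity
  linarith

end Pool.Agent.M17.Helper59.AV.Tab
end

/- Helper53.KN.Helper71.AV.StepUp -/
section
/-! Project AV, module LS5: Buchstab step for upper bounds. -/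

set_option autoImplicit false

open Filter Topology

namespace Pool.Agent.M17.Helper71.AV

open Pool.Agent.M17.Helper40.AV
open Pool.Agent.M17.Helper44 (primesUpTo mem_primesUpTo)

open Classical in
/-- the integers in the interval with smallest prime factor `p` -/
noncomputable def AP (y l p : ℕ) : Finset ℕ :=
  (Finset.Ico y (y + l)).filter fun n => p ∣ n ∧
    ∀ r : ℕ, r.Prime → r ∣ n → (p : ℝ) - 1 / 2 < r

theorem mem_AP {y l p n : ℕ} : n ∈ AP y l p ↔ (y ≤ n ∧ n < y + l) ∧ p ∣ n ∧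
    ∀ r : ℕ, r.Prime → r ∣ n → (p : ℝ) - 1 / 2 < r := by
  classical
  unfold AP
  rw [Finset.mem_filter, Finset.mem_Ico]

theorem mem_RS {y l n : ℕ} {z : ℝ} : n ∈ RS y l z ↔ (y ≤ n ∧ n < y + l) ∧
    ∀ r : ℕ, r.Prime → r ∣ n → z < r := by
  classical
  unfold RS
  rw [Finset.mem_filter, Finset.mem_Ico]

theorem nat_le_of_half {p q : ℕ} (h : (p : ℝ) - 1 / 2 < q) : p ≤ q := by
  by_contra hcon
  have h1 : (q : ℝ) + 1 ≤ p := by exact_mod_cast not_le.mp hcon
  (clear * - h h1; linarith)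

/-- Buchstab's identity, the other direction -/
theorem rev_buch (y l : ℕ) {w z : ℝ} (hw : 0 ≤ w) (hwz : w ≤ z) :
    ((RS y l z).card : ℝ) + ∑ p ∈ PI w z, ((AP y l p).card : ℝ) ≤ (RS y l w).card := by
  classical
  have hz : 0 ≤ z := hw.trans hwz
  have hsub : RS y l z ∪ (PI w z).biUnion (AP y l) ⊆ RS y l w := by
    intro n hn
    rw [Finset.mem_union] at hn
    rcases hn with hn | hn
    · rw [mem_RS] at hn ⊢
      exact ⟨hn.1, fun r hr hrn => hwz.trans_lt (hn.2 r hr hrn)⟩
    · rw [Finset.mem_biUnion] at hn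
      obtain ⟨p, hp, hn⟩ := hn
      rw [mem_PI hz] at hp
      rw [mem_AP] at hn
      rw [mem_RS]
      refine ⟨hn.1, fun r hr hrn => ?_⟩
      have h1 : (p : ℝ) ≤ r := by exact_mod_cast nat_le_of_half (hn.2.2 r hr hrn)
      (clear * - hp h1; linarith [hp.2.1])
  have hd1 : Disjoint (RS y l z) ((PI w z).biUnion (AP y l)) := by
    rw [Finset.disjoint_left]
    intro n hn hn'
    rw [Finset.mem_biUnion] at hn'
    obtain ⟨p, hp, hn'⟩ := hn'
    rw [mem_PI hz] at hp
    rw [mem_AP] at hn'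
    rw [mem_RS] at hn
    have := hn.2 p hp.1 hn'.2.1
    (clear * - hp this; linarith [hp.2.2])
  have hd2 : Set.PairwiseDisjoint (↑(PI w z)) (AP y l) := by
    intro p hp q hq hpq
    rw [Finset.mem_coe, mem_PI hz] at hp hq
    change Disjoint _ _
    rw [Finset.disjoint_left]
    intro n hn hn'
    rw [mem_AP] at hn hn'
    have h1 := nat_le_of_half (hn.2.2 q hq.1 hn'.2.1)
    have h2 := nat_le_of_half (hn'.2.2 p hp.1 hn.2.1)
    exact hpq (le_antisymm h1 h2)
  have h := Finset.card_le_card hsub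
  rw [Finset.card_union_of_disjoint hd1, Finset.card_biUnion hd2] at h
  exact_mod_cast h

/-- the multiples of `p` -/
theorem ap_lower (y l p : ℕ) (hp : p.Prime) :
    ∃ y' l' : ℕ, |(l' : ℝ) - l / p| ≤ 1 ∧
      (RS y' l' ((p : ℝ) - 1 / 2)).card ≤ (AP y l p).card := by
  classical
  have hp0 : 0 < p := hp.pos
  set a : ℕ := (y + p - 1) / p with ha
  set b : ℕ := (y + l + p - 1) / p with hb
  have ha1 : p * a ≤ y + p - 1 := Nat.mul_div_le _ _
  have ha2 : y + p - 1 < p * a + p := by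
    have := Nat.lt_mul_div_succ (y + p - 1) hp0
    rw [mul_add, mul_one] at this
    exact this
  have hb1 : p * b ≤ y + l + p - 1 := Nat.mul_div_le _ _
  have hb2 : y + l + p - 1 < p * b + p := by
    have := Nat.lt_mul_div_succ (y + l + p - 1) hp0
    rw [mul_add, mul_one] at this
    exact this
  have hab : a ≤ b := Nat.div_le_div_right (by omega)
  refine ⟨a, b - a, ?_, ?_⟩
  · have hpR : (0 : ℝ) < p := by exact_mod_cast hp0
    have e1 : (p : ℝ) * a + 1 ≤ y + p := by
      have : p * a + 1 ≤ y + p := by omega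
      exact_mod_cast this
    have e2 : (y : ℝ) ≤ p * a := by
      have : y ≤ p * a := by omega
      exact_mod_cast this
    have e3 : (p : ℝ) * b + 1 ≤ y + l + p := by
      have : p * b + 1 ≤ y + l + p := by omega
      exact_mod_cast this
    have e4 : (y : ℝ) + l ≤ p * b := by
      have : y + l ≤ p * b := by omega
      exact_mod_cast this
    rw [Nat.cast_sub hab]
    have h1 : (b : ℝ) - a - l / p = (p * b - p * a - l) / p := by
      (clear * - hp0; field_simp)
    rw [h1, abs_le]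
    constructor
    · rw [le_div_iff₀ hpR]
      (clear * - e1 e4; linarith)
    · rw [div_le_iff₀ hpR]
      (clear * - e2 e3; linarith)
  · refine Finset.card_le_card_of_injOn (fun m => p * m) ?_ ?_
    · intro m hm
      rw [Finset.mem_coe, mem_RS] at hm
      rw [Finset.mem_coe, mem_AP]
      obtain ⟨⟨h1, h2⟩, h3⟩ := hm
      have h2' : m < b := by omega
      refine ⟨⟨?_, ?_⟩, Dvd.intro _ rfl, ?_⟩
      · have : p * a ≤ p * m := Nat.mul_le_mul_left _ h1
        show y ≤ p * m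
        (clear * - hp0 ha2 hab this; omega)
      · have : p * (m + 1) ≤ p * b := Nat.mul_le_mul_left _ h2'
        rw [mul_add, mul_one] at this
        show p * m < y + l
        omega
      · intro r hr hrn
        rcases (Nat.Prime.dvd_mul hr).1 hrn with h | h
        · rw [(Nat.prime_dvd_prime_iff_eq hr hp).1 h]
          (clear * -; linarith)
        · exact h3 r hr h
    · intro m _ m' _ h
      exact Nat.eq_of_mul_eq_mul_left hp0 h

/-- the power gap -/
theorem pow_gap {p a : ℝ} (hp : 2 ≤ p) (ha : 2 ≤ a) : (p - 1 / 2) ^ a ≤ p ^ a - 1 := by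
  have hp0 : 0 < p := by linarith
  have hq0 : 0 < p - 1 / 2 := by (clear * - hp; linarith)
  have h1 : (p - 1 / 2) ^ a = (p - 1 / 2) ^ (a - 2) * (p - 1 / 2) ^ 2 := by
    rw [← Real.rpow_natCast, ← Real.rpow_add hq0]
    congr 1
    push_cast
    ring
  have h2 : p ^ a = p ^ (a - 2) * p ^ 2 := by
    rw [← Real.rpow_natCast, ← Real.rpow_add hp0]
    congr 1
    push_cast
    ring
  have h3 : (p - 1 / 2) ^ (a - 2) ≤ p ^ (a - 2) :=
    Real.rpow_le_rpow hq0.le (by (clear * -; linarith)) (by (clear * - ha; linarith))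
  have h4 : 1 ≤ p ^ (a - 2) := Real.one_le_rpow (by (clear * - hp; linarith)) (by (clear * - ha; linarith))
  have h5 : 0 ≤ (p - 1 / 2) ^ 2 := by positivity
  rw [h1, h2]
  (clear * - hp h4 h3 h5; nlinarith [mul_le_mul_of_nonneg_right h3 h5])

/-- the bound for one prime -/
theorem ap_bound {τ f e z₀ : ℝ} (he : 0 ≤ e)
    (hf : f = 0 ∨ (3 ≤ τ ∧ ∀ z : ℝ, z₀ ≤ z → ∀ y l : ℕ, z ^ (τ - 1) ≤ l →
      (f - e) * l * VV z ≤ ((RS y l z).card : ℝ)))
    (y l p : ℕ) (hp : p.Prime) (hz : z₀ ≤ (p : ℝ) - 1 / 2) (hl : (p : ℝ) ^ τ ≤ l) :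
    (f - e) * l * (VV ((p : ℝ) - 1 / 2) / p) - |f - e| ≤ ((AP y l p).card : ℝ) := by
  have hV := vv_pos ((p : ℝ) - 1 / 2)
  have hV1 := vv_le_one ((p : ℝ) - 1 / 2)
  have hp2 : (2 : ℝ) ≤ p := by exact_mod_cast hp.two_le
  have hp0 : (0 : ℝ) < p := by (clear * - hp2; linarith)
  rcases hf with hf | ⟨hτ, hf⟩
  · subst hf
    have h1 : 0 ≤ e * l * (VV ((p : ℝ) - 1 / 2) / p) := by (clear * - he hV hp2; positivity)
    have h2 : 0 ≤ |0 - e| := abs_nonneg _
    have h3 : (0 : ℝ) ≤ ((AP y l p).card : ℝ) := Nat.cast_nonneg _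
    have h4 : (0 - e) * l * (VV ((p : ℝ) - 1 / 2) / p) = - (e * l * (VV ((p : ℝ) - 1 / 2) / p)) := by
      ring
    (clear * - h1 h2; linarith)
  · obtain ⟨y', l', hl', hc⟩ := ap_lower y l p hp
    have habs := abs_le.1 hl'
    have h1 : ((p : ℝ) - 1 / 2) ^ (τ - 1) ≤ l' := by
      have h2 := pow_gap hp2 (show (2 : ℝ) ≤ τ - 1 by (clear * - hτ; linarith))
      have h3 : (p : ℝ) ^ (τ - 1) ≤ l / p := by
        rw [Real.rpow_sub_one hp0.ne']
        exact div_le_div_of_nonneg_right hl hp0.le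
      (clear * - habs h2 h3; linarith [habs.1])
    have h4 := hf _ hz y' l' h1
    have h5 : ((RS y' l' ((p : ℝ) - 1 / 2)).card : ℝ) ≤ (AP y l p).card := by exact_mod_cast hc
    refine le_trans ?_ (h4.trans h5)
    have h6 : (f - e) * l * (VV ((p : ℝ) - 1 / 2) / p) - (f - e) * l' * VV ((p : ℝ) - 1 / 2) =
        ((f - e) * VV ((p : ℝ) - 1 / 2)) * (l / p - l') := by
      ring
    have h7 : ((f - e) * VV ((p : ℝ) - 1 / 2)) * (l / p - l') ≤ |f - e| := by
      refine (le_abs_self _).trans ?_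
      rw [abs_mul, abs_mul, abs_of_pos hV, abs_sub_comm (l / p : ℝ)]
      calc |f - e| * VV ((p : ℝ) - 1 / 2) * |(l' : ℝ) - l / p| ≤ |f - e| * 1 * 1 := by
            apply mul_le_mul _ hl' (abs_nonneg _) (by (clear * -; positivity))
            exact mul_le_mul_of_nonneg_left hV1 (abs_nonneg _)
        _ = |f - e| := by ring
    (clear * - h6 h7; linarith)

theorem card_PI_le {w z : ℝ} (hz : 0 ≤ z) : ((PI w z).card : ℝ) ≤ z := by
  have h1 : PI w z ⊆ Finset.Icc 1 ⌊z⌋₊ := by
    intro p hp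
    rw [mem_PI hz] at hp
    rw [Finset.mem_Icc]
    exact ⟨hp.1.one_le, Nat.le_floor hp.2.2⟩
  have h2 := Finset.card_le_card h1
  rw [Nat.card_Icc, Nat.add_sub_cancel] at h2
  calc ((PI w z).card : ℝ) ≤ ⌊z⌋₊ := by exact_mod_cast h2
    _ ≤ z := Nat.floor_le hz

/-- ratio of products -/
theorem vv_ratio (hM : Mertens3) {s t : ℝ} (hs : 0 < s) (ht : 0 < t) :
    Tendsto (fun z : ℝ => VV (z ^ (s / t)) / VV z) atTop (𝓝 (t / s)) := by
  have hst : 0 < s / t := div_pos hs ht
  have h1 := hM.comp (tendsto_rpow_top hst)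
  have hγ : Real.exp (-Real.eulerMascheroniConstant) ≠ 0 := (Real.exp_pos _).ne'
  have h2 := (h1.div hM hγ).mul_const (t / s)
  rw [div_self hγ, one_mul] at h2
  refine h2.congr' ?_
  filter_upwards [eventually_gt_atTop (1 : ℝ)] with z hz
  have hz0 : 0 < z := by linarith
  have hL : Real.log z ≠ 0 := (Real.log_pos hz).ne'
  have hV := (vv_pos z).ne'
  simp only [Function.comp_apply, Pi.div_apply]
  rw [Real.log_rpow hz0]
  (clear * - hs ht hL hV; field_simp)

theorem vv_small (hM : Mertens3) {s : ℝ} (hs : 1 < s) :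
    Tendsto (fun z : ℝ => z ^ (1 - s) / VV z) atTop (𝓝 0) := by
  have hγ : Real.exp (-Real.eulerMascheroniConstant) ≠ 0 := (Real.exp_pos _).ne'
  have h1 : Tendsto (fun z : ℝ => z ^ (1 - s) * Real.log z) atTop (𝓝 0) := by
    have h2 := (isLittleO_log_rpow_atTop (show (0 : ℝ) < s - 1 by linarith)).tendsto_div_nhds_zero
    refine h2.congr' ?_
    filter_upwards [eventually_gt_atTop (1 : ℝ)] with z hz
    have hz0 : 0 < z := by linarith
    rw [div_eq_mul_inv, ← Real.rpow_neg hz0.le, mul_comm]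
    congr 2
    ring
  have h3 := h1.div hM hγ
  rw [zero_div] at h3
  refine h3.congr' ?_
  filter_upwards [eventually_gt_atTop (1 : ℝ)] with z hz
  have hL : Real.log z ≠ 0 := (Real.log_pos hz).ne'
  have hV := (vv_pos z).ne'
  simp only [Pi.div_apply]
  field_simp

/-- LS5: the Buchstab step for upper bounds -/
theorem stepUp (hM : Mertens3) : StepUp := by
  intro s T G n t f hs h0 hn ht hf hG ε hε
  have hs0 : 0 < s := by linarith
  -- monotonicity
  have hmono : ∀ j, j ≤ n → s ≤ t j := by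
    intro j
    induction j with
    | zero => intro _; rw [h0]
    | succ j ih => intro hj; exact (ih (by omega)).trans (ht j (by omega)).le
  have hT : s ≤ T := hn ▸ hmono n le_rfl
  have hT0 : 0 < T := by linarith
  -- choice of e
  set e : ℝ := ε * s / (4 * T) with he
  have he0 : 0 < e := by (clear * - hε hs hT0; positivity)
  obtain ⟨zG, hzG⟩ := hG e he0
  have hf' : ∀ i, ∃ z₀ : ℝ, i < n → (f i = 0 ∨ (3 ≤ t i ∧ ∀ z : ℝ, z₀ ≤ z → ∀ y l : ℕ,
      z ^ (t i - 1) ≤ l → (f i - e) * l * VV z ≤ ((RS y l z).card : ℝ))) := by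
    intro i
    by_cases hi : i < n
    · rcases hf i hi with h | ⟨h1, h2⟩
      · exact ⟨0, fun _ => Or.inl h⟩
      · obtain ⟨z₀, hz₀⟩ := h2 e he0
        exact ⟨z₀, fun _ => Or.inr ⟨h1, hz₀⟩⟩
    · exact ⟨0, fun h => absurd h hi⟩
  choose z₀ hz₀ using hf'
  set C : ℝ := ∑ i ∈ Finset.range n, |f i - e| with hC
  -- the comparison function
  set Φ : ℝ → ℝ := fun z => (G + e) * (VV (z ^ (s / T)) / VV z) -
    ∑ i ∈ Finset.range n, (f i - e) * (VV (z ^ (s / t (i + 1))) / VV z - VV (z ^ (s / t i)) / VV z) +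
    C * (z ^ (1 - s) / VV z) with hΦ
  have hlim : Tendsto Φ atTop (𝓝 ((G + e) * (T / s) -
      ∑ i ∈ Finset.range n, (f i - e) * (t (i + 1) / s - t i / s) + C * 0)) := by
    refine ((((vv_ratio hM hs0 hT0).const_mul _).sub ?_).add ((vv_small hM hs).const_mul _))
    refine tendsto_finsetSum _ fun i hi => ?_
    have hi' := Finset.mem_range.1 hi
    exact ((vv_ratio hM hs0 (by (clear * - hs hmono hi'; linarith [hmono (i + 1) (by omega)]))).sub
      (vv_ratio hM hs0 (by (clear * - hs hmono hi'; linarith [hmono i (by omega)])))).const_mul _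
  have hlt : (G + e) * (T / s) -
      ∑ i ∈ Finset.range n, (f i - e) * (t (i + 1) / s - t i / s) + C * 0 <
      T / s * G - 1 / s * ∑ i ∈ Finset.range n, (t (i + 1) - t i) * f i + ε := by
    have h1 : ∑ i ∈ Finset.range n, (f i - e) * (t (i + 1) / s - t i / s) =
        1 / s * ∑ i ∈ Finset.range n, (t (i + 1) - t i) * f i - e * ((T - s) / s) := by
      have h2 : ∑ i ∈ Finset.range n, (t (i + 1) - t i) = T - s := by
        rw [Finset.sum_range_sub, hn, h0]
      rw [← h2, Finset.mul_sum, Finset.sum_div, Finset.mul_sum, ← Finset.sum_sub_distrib]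
      refine Finset.sum_congr rfl fun i _ => ?_
      (clear * - hs; field_simp)
    rw [h1]
    have h3 : e * (T / s) = ε / 4 := by
      rw [he]
      (clear * - hs hT0 hε; field_simp)
    have h4 : e * ((T - s) / s) = ε / 4 - e := by
      rw [sub_div, div_self hs0.ne', mul_sub, h3, mul_one]
    have h5 : (G + e) * (T / s) = T / s * G + e * (T / s) := by ring
    rw [h5, h3, h4]
    linarith
  have e1 := hlim.eventually_lt_const hlt
  have e2 : ∀ᶠ z : ℝ in atTop, 1 < z := eventually_gt_atTop 1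
  have tw := tendsto_rpow_top (show 0 < s / T by positivity)
  have e3 : ∀ᶠ z : ℝ in atTop, zG ≤ z ^ (s / T) := tw.eventually_ge_atTop zG
  have e4 : ∀ᶠ z : ℝ in atTop, ∀ i ∈ Finset.range n, z₀ i + 1 / 2 ≤ z ^ (s / T) := by
    rw [Filter.eventually_all_finset]
    intro i _
    exact tw.eventually_ge_atTop _
  obtain ⟨Z, hZ⟩ := eventually_atTop.1 (e1.and (e2.and (e3.and e4)))
  refine ⟨Z, fun z hz y l hl => ?_⟩
  obtain ⟨k1, k2, k3, k4⟩ := hZ z hz
  have hz0 : 0 < z := by (clear * - k2; linarith)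
  have hV := vv_pos z
  have hl0 : (0 : ℝ) < l := lt_of_lt_of_le (Real.rpow_pos_of_pos hz0 _) hl
  -- the cut points
  set ζ : ℕ → ℝ := fun i => z ^ (s / t i) with hζ
  have hζ0 : ζ 0 = z := by
    simp only [hζ]
    rw [h0, div_self hs0.ne', Real.rpow_one]
  have hζn : ζ n = z ^ (s / T) := by
    simp only [hζ]
    rw [hn]
  have hζ1 : ∀ i, i ≤ n → 1 ≤ ζ i := by
    intro i hi
    exact Real.one_le_rpow k2.le (div_nonneg hs0.le (by (clear * - hs hmono hi; linarith [hmono i hi])))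
  have hζa : ∀ i, i < n → ζ (i + 1) ≤ ζ i := by
    intro i hi
    apply Real.rpow_le_rpow_of_exponent_le k2.le
    apply div_le_div_of_nonneg_left hs0.le _ (ht i hi).le
    (clear * - hs hmono hi; linarith [hmono i hi.le])
  have hζw : ∀ i, i ≤ n → z ^ (s / T) ≤ ζ i := by
    intro i hi
    rw [← hζn]
    have : ∀ d i : ℕ, i + d = n → ζ n ≤ ζ i := by
      intro d
      induction d with
      | zero => intro i h; rw [← h, add_zero]
      | succ d ih =>
        intro i h
        exact (ih (i + 1) (by omega)).trans (hζa i (by omega))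
    exact this (n - i) i (by omega)
  have hζz : ∀ i, i ≤ n → ζ i ≤ z := by
    intro i hi
    induction i with
    | zero => rw [hζ0]
    | succ i ih => exact (hζa i (by omega)).trans (ih (by omega))
  -- iteration of Buchstab
  have hit : ∀ j, j ≤ n → ((RS y l z).card : ℝ) + ∑ i ∈ Finset.range j,
      ∑ p ∈ PI (ζ (i + 1)) (ζ i), ((AP y l p).card : ℝ) ≤ (RS y l (ζ j)).card := by
    intro j
    induction j with
    | zero => intro _; rw [hζ0]; simp
    | succ j ih =>
      intro hj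
      have h1 := ih (by omega)
      have h2 := rev_buch y l (show 0 ≤ ζ (j + 1) by (clear * - hζ1 hj; linarith [hζ1 (j + 1) hj])) (hζa j (by omega))
      rw [Finset.sum_range_succ]
      (clear * - h1 h2; linarith)
  have hmain := hit n le_rfl
  rw [hζn] at hmain
  -- the upper bound at the bottom
  have hbot := hzG _ k3 y l (by
    rw [← Real.rpow_mul hz0.le, div_mul_cancel₀ _ hT0.ne']
    exact hl)
  -- the bands
  have hband : ∀ i ∈ Finset.range n, (f i - e) * l * (VV (ζ (i + 1)) - VV (ζ i)) - |f i - e| * z ≤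
      ∑ p ∈ PI (ζ (i + 1)) (ζ i), ((AP y l p).card : ℝ) := by
    intro i hi
    have hi' := Finset.mem_range.1 hi
    have hti : 0 < t i := by (clear * - hs hmono hi'; linarith [hmono i hi'.le])
    rw [Pool.Agent.M17.Helper14.AV.telescope _ _ (hζ1 (i + 1) hi') (hζa i hi'), Finset.mul_sum]
    have h1 : ∑ p ∈ PI (ζ (i + 1)) (ζ i), ((f i - e) * l * (VV ((p : ℝ) - 1 / 2) / p) - |f i - e|) ≤
        ∑ p ∈ PI (ζ (i + 1)) (ζ i), ((AP y l p).card : ℝ) := by
      refine Finset.sum_le_sum fun p hp => ?_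
      have hζi : 0 ≤ ζ i := by (clear * - hζ1 hi'; linarith [hζ1 i hi'.le])
      rw [mem_PI hζi] at hp
      obtain ⟨hpp, hp1, hp2⟩ := hp
      refine ap_bound he0.le (hz₀ i hi') y l p hpp ?_ ?_
      · have := k4 i hi
        have := hζw (i + 1) hi'
        linarith
      · refine le_trans ?_ hl
        have h3 : z ^ s = (ζ i) ^ (t i) := by
          simp only [hζ]
          rw [← Real.rpow_mul hz0.le, div_mul_cancel₀ _ hti.ne']
        rw [h3]
        exact Real.rpow_le_rpow (Nat.cast_nonneg _) hp2 hti.le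
    rw [Finset.sum_sub_distrib, Finset.sum_const, nsmul_eq_mul] at h1
    have h4 : ((PI (ζ (i + 1)) (ζ i)).card : ℝ) * |f i - e| ≤ |f i - e| * z := by
      rw [mul_comm]
      apply mul_le_mul_of_nonneg_left _ (abs_nonneg _)
      exact (card_PI_le (by (clear * - hζ1 hi'; linarith [hζ1 i hi'.le]))).trans (hζz i hi'.le)
    (clear * - h1 h4; linarith)
  have hsum := Finset.sum_le_sum hband
  rw [Finset.sum_sub_distrib, ← Finset.sum_mul] at hsum
  -- collect
  have hzl : z ≤ l * z ^ (1 - s) := by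
    calc z = z ^ s * z ^ (1 - s) := by
          rw [← Real.rpow_add hz0]
          ring_nf
          rw [Real.rpow_one]
      _ ≤ l * z ^ (1 - s) := mul_le_mul_of_nonneg_right hl (Real.rpow_nonneg hz0.le _)
  have hC0 : 0 ≤ C := Finset.sum_nonneg fun i _ => abs_nonneg _
  have hfin : ((RS y l z).card : ℝ) ≤ Φ z * l * VV z := by
    have h1 : Φ z * l * VV z = (G + e) * l * VV (z ^ (s / T)) -
        ∑ i ∈ Finset.range n, (f i - e) * l * (VV (ζ (i + 1)) - VV (ζ i)) +
        C * (l * z ^ (1 - s)) := by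
      simp only [hΦ]
      rw [add_mul, add_mul, sub_mul, sub_mul, Finset.sum_mul, Finset.sum_mul]
      have h2 : (G + e) * (VV (z ^ (s / T)) / VV z) * l * VV z = (G + e) * l * VV (z ^ (s / T)) := by
        (clear * - hV hl0; field_simp)
      have h3 : C * (z ^ (1 - s) / VV z) * l * VV z = C * (l * z ^ (1 - s)) := by
        (clear * - hV hl0 k2; field_simp)
      rw [h2, h3]
      congr 2
      refine Finset.sum_congr rfl fun i _ => ?_
      simp only [hζ]
      (clear * - hV hl0; field_simp)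
    rw [h1]
    have h5 : C * z ≤ C * (l * z ^ (1 - s)) := mul_le_mul_of_nonneg_left hzl hC0
    (clear * - hmain hbot hsum h5; linarith)
  refine hfin.trans ?_
  have h6 : Φ z * (l * VV z) ≤
      (T / s * G - 1 / s * ∑ i ∈ Finset.range n, (t (i + 1) - t i) * f i + ε) * (l * VV z) :=
    mul_le_mul_of_nonneg_right k1.le (by (clear * - hl0 hV; positivity))
  (clear * - h6; linarith)

end Pool.Agent.M17.Helper71.AV
end
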