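import Mathlib
import Pool.Agent.Helper53.KM.G02
import Pool.Agent.Helper53.KM.G03
import Pool.Agent.Helper53.KM.G05
import Pool.Agent.Helper53.KM.G06
import Pool.Agent.Helper53.KM.G09

/- Helper53.KN.Helper8.KSZ.Shift -/
section
/-! KSZ-E7: the shift to the line `Re s = 0.605`. -/

set_option autoImplicit false
open Filter Topology MeasureTheory

namespace Pool.Agent.M17.Helper8.KSZ

open Pool.Agent.M17.Helper10.QRH Pool.Agent.M17.Helper69.QRH Pool.Agent.M17.Helper46.KSZ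

lemma tail_Ioi {f : ℝ → ℂ} {C T : ℝ} (hT : 0 < T)
    (hb : ∀ t, T < |t| → ‖f t‖ ≤ C / t ^ 2) :
    ‖∫ t in Set.Ioi T, f t‖ ≤ C / T := by
  have h1 : IntegrableOn (fun t : ℝ => C * t ^ (-2 : ℝ)) (Set.Ioi T) :=
    (integrableOn_Ioi_rpow_of_lt (by norm_num) hT).const_mul C
  have h2 : ∫ t in Set.Ioi T, C * t ^ (-2 : ℝ) = C / T := by
    rw [integral_const_mul, integral_Ioi_rpow_of_lt (by norm_num) hT]
    have : (-2 : ℝ) + 1 = -1 := by norm_num
    rw [this, Real.rpow_neg_one]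
    field_simp
  rw [← h2]
  refine norm_integral_le_of_norm_le h1 ?_
  refine (ae_restrict_mem measurableSet_Ioi).mono fun t ht => ?_
  have ht' : T < t := ht
  have h3 : 0 < t := hT.trans ht'
  have h4 := hb t (by rwa [abs_of_pos h3])
  rw [Real.rpow_neg h3.le, show (2 : ℝ) = ((2 : ℕ) : ℝ) by norm_num, Real.rpow_natCast,
    ← div_eq_mul_inv]
  exact h4

lemma tail_Iic {f : ℝ → ℂ} {C T : ℝ} (hT : 0 < T)
    (hb : ∀ t, T < |t| → ‖f t‖ ≤ C / t ^ 2) :
    ‖∫ t in Set.Iic (-T), f t‖ ≤ C / T := by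
  have h1 : ∫ t in Set.Iic (-T), f t = ∫ t in Set.Ioi T, f (-t) := by
    have := integral_comp_neg_Ioi T f
    rw [this]
  rw [h1]
  apply tail_Ioi hT
  intro t ht
  have := hb (-t) (by rwa [abs_neg])
  rwa [neg_sq] at this

lemma tail_bound {f : ℝ → ℂ} (hf : Integrable f) {C T : ℝ} (hT : 0 < T)
    (hb : ∀ t, T < |t| → ‖f t‖ ≤ C / t ^ 2) :
    ‖(∫ t : ℝ, f t) - ∫ t in (-T)..T, f t‖ ≤ 2 * (C / T) := by
  have h1 : ∫ t : ℝ, f t = (∫ t in Set.Iic (-T), f t) + (∫ t in (-T)..T, f t) +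
      ∫ t in Set.Ioi T, f t := by
    rw [intervalIntegral.integral_of_le (by (clear * - hT; linarith))]
    rw [← setIntegral_union (by
        rw [Set.disjoint_left]
        intro x hx hx'
        exact absurd hx'.1 (not_lt.2 hx)) measurableSet_Ioc hf.integrableOn hf.integrableOn,
      Set.Iic_union_Ioc_eq_Iic (by linarith), ← setIntegral_union (by
        rw [Set.disjoint_left]
        intro x hx hx'
        exact absurd (show T < x from hx') (not_lt.2 hx)) measurableSet_Ioi hf.integrableOn hf.integrableOn,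
      Set.Iic_union_Ioi, setIntegral_univ]
  rw [h1]
  have h2 : (∫ t in Set.Iic (-T), f t) + (∫ t in (-T)..T, f t) + (∫ t in Set.Ioi T, f t) -
      (∫ t in (-T)..T, f t) = (∫ t in Set.Iic (-T), f t) + ∫ t in Set.Ioi T, f t := by ring
  rw [h2]
  refine (norm_add_le _ _).trans ?_
  have h3 := tail_Iic hT hb
  have h4 := tail_Ioi hT hb
  (clear * - h3 h4; linarith)

lemma line_re (c t : ℝ) : ((c : ℂ) + t * Complex.I).re = c := by simp
lemma line_im (c t : ℝ) : ((c : ℂ) + t * Complex.I).im = t := by simp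

theorem shift (hK : KFacts) (hG : GBound) (h6 : LineTwo) : Shift := by
  obtain ⟨CK0, hCK0⟩ := hK.bound
  obtain ⟨CG, hCG0, hCG⟩ := hG
  set CK : ℝ := |CK0| + 1 with hCKd
  have hCK1 : 0 < CK := by (clear * -; positivity)
  refine ⟨CK * CG + 1, by positivity, ?_⟩
  intro T M Z hT hB lam u hl hl1 hu
  obtain ⟨hG1, hG2⟩ := hCG T M Z hT hB
  obtain ⟨hi, he⟩ := h6 T M Z hT hB lam u hl hl1 hu
  have hT0 : 0 < T := by linarith
  set L : ℝ := Real.log (T + 2) with hL
  have hL0 : 0 ≤ L := Real.log_nonneg (by (clear * - hT; linarith))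
  set J : ℂ → ℂ := fun s => KK lam s * (-logDeriv Z s) * Complex.exp (s * u) with hJ
  have hZd : ∀ s : ℂ, 3/5 < s.re → |s.im| < T + 2 → DifferentiableAt ℂ (logDeriv Z) s := by
    intro s hs1 hs2
    have h1 : DifferentiableAt ℂ (deriv Z) s :=
      (hB.diff.deriv s)
    exact h1.div (hB.diff s) (hB.ne s hs1 hs2)
  have hJd : ∀ s : ℂ, 3/5 < s.re → |s.im| < T + 2 → DifferentiableAt ℂ J s := by
    intro s hs1 hs2
    refine ((hK.diff lam hl s).mul (hZd s hs1 hs2).neg).mul ?_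
    fun_prop
  -- bound
  set B : ℝ := CK * CG * Real.exp (2 * u) * L ^ 2 / lam ^ 2 with hBd
  have hB0 : 0 ≤ B := by (clear * - hCG0 hl; positivity)
  have hJb : ∀ s : ℂ, 0.605 ≤ s.re → s.re ≤ 2 → s.im ≠ 0 → ‖logDeriv Z s‖ ≤ CG * L ^ 2 →
      ‖J s‖ ≤ B / s.im ^ 2 := by
    intro s hs1 hs2 hs3 hs4
    have b1 := hCK0 lam hl hl1 s (by (clear * - hs1; linarith)) hs2
    have hp : (0 : ℝ) < (lam * s.im) ^ 2 := by positivity
    have b1' : ‖KK lam s‖ ≤ CK / (lam * s.im) ^ 2 := by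
      refine b1.trans ?_
      refine (div_le_div_of_nonneg_right ((le_abs_self CK0).trans (by linarith : |CK0| ≤ CK))
        (by positivity)).trans ?_
      exact div_le_div_of_nonneg_left hCK1.le hp (by linarith)
    have b3 : ‖Complex.exp (s * u)‖ ≤ Real.exp (2 * u) := by
      rw [Complex.norm_exp]
      apply Real.exp_le_exp.2
      simp only [Complex.mul_re, Complex.ofReal_re, Complex.ofReal_im, mul_zero, sub_zero]
      (clear * - hs2 hu; nlinarith)
    calc ‖J s‖ = ‖KK lam s‖ * ‖logDeriv Z s‖ * ‖Complex.exp (s * u)‖ := by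
          simp only [hJ, norm_mul, norm_neg]
      _ ≤ (CK / (lam * s.im) ^ 2) * (CG * L ^ 2) * Real.exp (2 * u) := by (clear * - b1' hs4 hl hs3 b3 hCG0; gcongr)
      _ = B / s.im ^ 2 := by
          rw [hBd]
          (clear * - hCG0 hs3 hl hCK1; field_simp)
  -- tail
  have htail := tail_bound hi hT0 (C := B) (by
    intro t ht
    have ht0 : t ≠ 0 := by
      rintro rfl
      rw [abs_zero] at ht
      linarith
    have := hJb ((2 : ℝ) + t * Complex.I) (by rw [line_re]; norm_num) (by rw [line_re])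
      (by rwa [line_im]) (by
        have := hG2 t
        push_cast
        exact this)
    rwa [line_im] at this)
  -- rectangle
  have hrect : (∫ x : ℝ in (0.605 : ℝ)..2, J (x + ((-T : ℝ) : ℂ) * Complex.I)) -
        (∫ x : ℝ in (0.605 : ℝ)..2, J (x + (T : ℂ) * Complex.I)) +
        Complex.I * (∫ y : ℝ in (-T)..T, J ((2 : ℝ) + y * Complex.I)) -
        Complex.I * (∫ y : ℝ in (-T)..T, J ((0.605 : ℝ) + y * Complex.I)) = 0 := by
    have := Complex.integral_boundary_rect_eq_zero_of_differentiableOn J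
        ((0.605 : ℝ) + ((-T : ℝ) : ℂ) * Complex.I) ((2 : ℝ) + (T : ℂ) * Complex.I) (by
      intro s hs
      rw [Complex.mem_reProdIm] at hs
      simp only [line_re, line_im] at hs
      obtain ⟨h2, h3⟩ := hs
      rw [Set.uIcc_of_le (by norm_num)] at h2
      rw [Set.uIcc_of_le (by linarith)] at h3
      apply (hJd s (by linarith [h2.1, show (3 / 5 : ℝ) < 0.605 by norm_num]) ?_).differentiableWithinAt
      rw [abs_lt]
      constructor <;> linarith [h3.1, h3.2])
    simpa only [line_re, line_im, smul_eq_mul] using this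
  have hhor : ∀ τ : ℝ, |τ| = T → ‖∫ x : ℝ in (0.605 : ℝ)..2, J (x + (τ : ℂ) * Complex.I)‖ ≤
      2 * (B / T) := by
    intro τ hτ
    have hτ0 : τ ≠ 0 := by
      rintro rfl
      rw [abs_zero] at hτ
      (clear * - hT hτ; linarith)
    have h1 := intervalIntegral.norm_integral_le_of_norm_le_const
      (a := (0.605 : ℝ)) (b := 2) (C := B / T ^ 2)
      (f := fun x : ℝ => J (x + (τ : ℂ) * Complex.I)) (by
        intro x hx
        rw [Set.uIoc_of_le (by norm_num)] at hx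
        have := hJb (x + (τ : ℂ) * Complex.I) (by rw [line_re]; exact hx.1.le)
          (by rw [line_re]; exact hx.2) (by rwa [line_im]) (hG1 _ (by rw [line_re]; exact hx.1.le)
          (by rw [line_re]; exact hx.2) (by rw [line_im, hτ]))
        rw [line_im, ← sq_abs, hτ] at this
        exact this)
    refine h1.trans ?_
    have h2 : |(2 : ℝ) - 0.605| ≤ 2 := by norm_num
    have h3 : B / T ^ 2 ≤ B / T := by
      apply div_le_div_of_nonneg_left hB0 hT0
      (clear * - hT; nlinarith)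
    calc B / T ^ 2 * |(2 : ℝ) - 0.605| ≤ (B / T) * 2 := by
          apply mul_le_mul h3 h2 (abs_nonneg _) (by (clear * - hCG0 hl hT; positivity))
      _ = 2 * (B / T) := by ring
  have h1 := hhor (-T) (by rw [abs_neg, abs_of_pos hT0])
  have h2 := hhor T (abs_of_pos hT0)
  -- difference of the vertical sides
  have hver : ‖(∫ y : ℝ in (-T)..T, J ((2 : ℝ) + y * Complex.I)) -
      (∫ y : ℝ in (-T)..T, J ((0.605 : ℝ) + y * Complex.I))‖ ≤ 4 * (B / T) := by
    have h3 : Complex.I * ((∫ y : ℝ in (-T)..T, J ((2 : ℝ) + y * Complex.I)) -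
      (∫ y : ℝ in (-T)..T, J ((0.605 : ℝ) + y * Complex.I))) =
      (∫ x : ℝ in (0.605 : ℝ)..2, J (x + (T : ℂ) * Complex.I)) -
      (∫ x : ℝ in (0.605 : ℝ)..2, J (x + ((-T : ℝ) : ℂ) * Complex.I)) := by
      linear_combination hrect
    have h4 : ‖Complex.I * ((∫ y : ℝ in (-T)..T, J ((2 : ℝ) + y * Complex.I)) -
      (∫ y : ℝ in (-T)..T, J ((0.605 : ℝ) + y * Complex.I)))‖ ≤ 4 * (B / T) := by
      rw [h3]
      refine (norm_sub_le _ _).trans ?_
      (clear * - h1 h2; linarith)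
    rwa [norm_mul, Complex.norm_I, one_mul] at h4
  have hline : line 1 lam T Z u = (1 / (2 * Real.pi)) *
      ∫ y : ℝ in (-T)..T, J ((0.605 : ℝ) + y * Complex.I) := by
    unfold line
    simp only [hJ, pow_one]
  rw [he, hline, ← mul_sub]
  have h5 : ‖(∫ t : ℝ, KK lam ((2 : ℝ) + t * Complex.I) *
      (-logDeriv Z ((2 : ℝ) + t * Complex.I)) * Complex.exp (((2 : ℝ) + t * Complex.I) * u)) -
      ∫ y : ℝ in (-T)..T, J ((0.605 : ℝ) + y * Complex.I)‖ ≤ 6 * (B / T) := by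
    have h6 : (∫ t : ℝ, KK lam ((2 : ℝ) + t * Complex.I) *
      (-logDeriv Z ((2 : ℝ) + t * Complex.I)) * Complex.exp (((2 : ℝ) + t * Complex.I) * u)) -
      (∫ y : ℝ in (-T)..T, J ((0.605 : ℝ) + y * Complex.I)) =
      ((∫ t : ℝ, KK lam ((2 : ℝ) + t * Complex.I) *
      (-logDeriv Z ((2 : ℝ) + t * Complex.I)) * Complex.exp (((2 : ℝ) + t * Complex.I) * u)) -
      ∫ y : ℝ in (-T)..T, J ((2 : ℝ) + y * Complex.I)) +
      ((∫ y : ℝ in (-T)..T, J ((2 : ℝ) + y * Complex.I)) -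
      (∫ y : ℝ in (-T)..T, J ((0.605 : ℝ) + y * Complex.I))) := by ring
    rw [h6]
    refine (norm_add_le _ _).trans ?_
    (clear * - htail hver; linarith)
  rw [norm_mul]
  have h7 : ‖(1 / (2 * Real.pi) : ℂ)‖ ≤ 1 / 6 := by
    rw [norm_div, norm_one, norm_mul, Complex.norm_real, Real.norm_of_nonneg Real.pi_pos.le]
    simp only [Complex.norm_ofNat]
    apply div_le_div_of_nonneg_left (by norm_num) (by norm_num)
    (clear * -; linarith [Real.pi_gt_three])
  calc ‖(1 / (2 * Real.pi) : ℂ)‖ * _ ≤ 1 / 6 * (6 * (B / T)) := by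
        apply mul_le_mul h7 h5 (norm_nonneg _) (by norm_num)
    _ = CK * CG * Real.exp (2 * u) * L ^ 2 / (lam ^ 2 * T) := by
        rw [hBd]
        (clear * - hT hl hCG0 hCK1; field_simp)
    _ ≤ (CK * CG + 1) * Real.exp (2 * u) * L ^ 2 / (lam ^ 2 * T) := by
        gcongr
        (clear * -; linarith)

end Pool.Agent.M17.Helper8.KSZ
end

/- Helper53.KN.Helper1.KL.LineFew -/
section
/-! Helper8/KSZ/LineFew.lean (helper8), Helper60/KG/LineFew.lean (helper60) adapted to the line 0.575 (box 57/100) by helper1 -/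

set_option autoImplicit false
open Filter Topology MeasureTheory

namespace Pool.Agent.M17.Helper1.KL

open Pool.Agent.M17.Helper10.QRH Pool.Agent.M17.Helper69.QRH
open Pool.Agent.M17.Helper8.KSZ hiding line_re line_im
open Pool.Agent.M17.Helper79.QRH (KK_cont)
open Pool.Agent.M17.Helper8.KSZ.LF (cc cc_pos cc_eq uu_eq lamk_pos line_re line_im)

/-- the density on the line -/
noncomputable def gg (p : ℕ) (lam T : ℝ) (Z : ℂ → ℂ) : ℝ → ℂ :=
  (Set.Ioc (-T) T).indicator (fun t => KK lam ((0.575 : ℝ) + t * Complex.I) ^ p *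
    (-logDeriv Z ((0.575 : ℝ) + t * Complex.I)))

lemma gg_meas {p : ℕ} {lam T : ℝ} (hl : 0 < lam) {Z : ℂ → ℂ} (hZ : Differentiable ℂ Z) :
    Measurable (gg p lam T Z) := by
  apply Measurable.indicator _ measurableSet_Ioc
  have hi : Continuous (fun t : ℝ => (((0.575 : ℝ) : ℂ) + t * Complex.I)) := by fun_prop
  have h1 : Measurable (fun t : ℝ => KK lam ((0.575 : ℝ) + t * Complex.I)) :=
    ((KK_cont hl).comp hi).measurable
  have h2 : Measurable (fun t : ℝ => logDeriv Z ((0.575 : ℝ) + t * Complex.I)) := by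
    have h3 : Measurable (fun t : ℝ => deriv Z ((0.575 : ℝ) + t * Complex.I)) := by
      have : Differentiable ℂ (deriv Z) := fun z => hZ.deriv z
      exact (this.continuous.comp hi).measurable
    have h4 : Measurable (fun t : ℝ => Z ((0.575 : ℝ) + t * Complex.I)) :=
      (hZ.continuous.comp hi).measurable
    exact h3.div h4
  exact (h1.pow_const p).mul h2.neg

lemma line_eq {p : ℕ} {lam T : ℝ} (hT : 0 ≤ T) (Z : ℂ → ℂ) (u : ℝ) :
    line p lam T Z u = (1 / (2 * Real.pi)) * (Complex.exp ((0.575 : ℝ) * u) *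
      ∫ t : ℝ, gg p lam T Z t * Complex.exp (t * u * Complex.I)) := by
  unfold line
  congr 1
  rw [intervalIntegral.integral_of_le (by (clear * - hT; linarith)), ← integral_indicator measurableSet_Ioc,
    ← integral_const_mul]
  congr 1
  funext t
  unfold gg
  by_cases ht : t ∈ Set.Ioc (-T) T
  · rw [Set.indicator_of_mem ht, Set.indicator_of_mem ht, add_mul, Complex.exp_add,
      show (t : ℂ) * Complex.I * u = t * u * Complex.I by ring]
    ring
  · rw [Set.indicator_of_notMem ht, Set.indicator_of_notMem ht]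
    ring

lemma line_norm {p : ℕ} {lam T : ℝ} (hT : 0 ≤ T) (Z : ℂ → ℂ) (u : ℝ) :
    ‖line p lam T Z u‖ ≤ Real.exp (0.575 * u) *
      ‖∫ t : ℝ, gg p lam T Z t * Complex.exp (t * u * Complex.I)‖ := by
  rw [line_eq hT, norm_mul, norm_mul, Complex.norm_exp]
  have h1 : ‖(1 / (2 * (Real.pi : ℂ)))‖ ≤ 1 := by
    rw [norm_div, norm_one, norm_mul, Complex.norm_real, Real.norm_of_nonneg Real.pi_pos.le,
      Complex.norm_ofNat, div_le_one (by positivity)]
    linarith [Real.pi_gt_three]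
  have h2 : (((0.575 : ℝ) : ℂ) * (u : ℂ)).re = 0.575 * u := by
    rw [← Complex.ofReal_mul, Complex.ofReal_re]
  rw [h2]
  exact mul_le_of_le_one_left (by positivity) h1

lemma gg_bound {p : ℕ} (hp : 1 ≤ p) {lam T CK L : ℝ} {Z : ℂ → ℂ} (hCK : 0 ≤ CK) (hL : 0 ≤ L)
    (hKK : ∀ s : ℂ, 0 ≤ s.re → s.re ≤ 2 → ‖KK lam s‖ ≤ CK / (1 + (lam * s.im) ^ 2))
    (hG : ∀ s : ℂ, 0.575 ≤ s.re → s.re ≤ 2 → |s.im| ≤ T → ‖logDeriv Z s‖ ≤ L) (t : ℝ) :
    ‖gg p lam T Z t‖ ≤ (2 * (CK ^ p * L)) / (1 + (lam * t) ^ 2) * Real.log (2 + |t|) := by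
  have hlog : 1/2 ≤ Real.log (2 + |t|) := by
    have h1 : Real.log 2 ≤ Real.log (2 + |t|) :=
      Real.log_le_log (by norm_num) (by (clear * -; linarith [abs_nonneg t]))
    (clear * - h1; linarith [Real.log_two_gt_d9])
  have hlog0 : 0 ≤ Real.log (2 + |t|) := by linarith
  unfold gg
  by_cases ht : t ∈ Set.Ioc (-T) T
  · rw [Set.indicator_of_mem ht, norm_mul, norm_pow, norm_neg]
    have h1 := hKK ((0.575 : ℝ) + t * Complex.I) (by rw [line_re]; norm_num)
      (by rw [line_re]; norm_num)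
    rw [line_im] at h1
    have h2 := hG ((0.575 : ℝ) + t * Complex.I) (by rw [line_re])
      (by rw [line_re]; norm_num) (by rw [line_im]; exact abs_le.2 ⟨ht.1.le, ht.2⟩)
    have h3 : (1 : ℝ) ≤ 1 + (lam * t) ^ 2 := by (clear * -; nlinarith [sq_nonneg (lam * t)])
    have h4 : ‖KK lam ((0.575 : ℝ) + t * Complex.I)‖ ^ p ≤ CK ^ p / (1 + (lam * t) ^ 2) := by
      calc ‖KK lam ((0.575 : ℝ) + t * Complex.I)‖ ^ p ≤ (CK / (1 + (lam * t) ^ 2)) ^ p := by
            gcongr
        _ = CK ^ p / (1 + (lam * t) ^ 2) ^ p := by rw [div_pow]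
        _ ≤ CK ^ p / (1 + (lam * t) ^ 2) := by
            apply div_le_div_of_nonneg_left (by positivity) (by (clear * -; positivity))
            exact le_self_pow₀ h3 (by omega)
    calc ‖KK lam ((0.575 : ℝ) + t * Complex.I)‖ ^ p * ‖logDeriv Z ((0.575 : ℝ) + t * Complex.I)‖
        ≤ (CK ^ p / (1 + (lam * t) ^ 2)) * L := by (clear * - h4 h2 hCK; gcongr)
      _ = (2 * (CK ^ p * L)) / (1 + (lam * t) ^ 2) * (1/2) := by ring
      _ ≤ _ := by (clear * - hlog hCK hL; gcongr)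
  · rw [Set.indicator_of_notMem ht, norm_zero]
    (clear * - hCK hL hlog; positivity)

/-- the choice of `K` -/
lemma ee_leG {d : ℝ} (hd : -(1 / 2) ≤ d) (k : ℕ) : ee d k ≤ k := by
  have h1 : (k : ℝ) * (1/2 - d) ≤ k := by
    have : (0 : ℝ) ≤ k := Nat.cast_nonneg k
    nlinarith
  have h2 := Nat.floor_le_floor h1
  rwa [Nat.floor_natCast] at h2

lemma cc_ltG (d : ℝ) (hd : -(1 / 2) ≤ d) (k j : ℕ) (hj : j < 2 ^ (k - ee d k)) : cc d k j ≤ 2 * 2 ^ k := by
  rw [cc_eq]
  have h1 : (j + 1) * 2 ^ ee d k ≤ 2 ^ k := by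
    calc (j + 1) * 2 ^ ee d k ≤ 2 ^ (k - ee d k) * 2 ^ ee d k := Nat.mul_le_mul_right _ hj
      _ = 2 ^ k := by rw [← pow_add, Nat.sub_add_cancel (ee_leG hd k)]
  have h2 : ((j : ℝ) + 1) * 2 ^ ee d k ≤ 2 ^ k := by exact_mod_cast h1
  have h3 : (0 : ℝ) < 2 ^ ee d k := by positivity
  (clear * - h2 h3; linarith)

lemma uu_sepG {p : ℕ} (hp : 1 ≤ p) (d : ℝ) (hd : -(1 / 2) ≤ d) (k j j' : ℕ) (hjj : j < j')
    (hj : j' < 2 ^ (k - ee d k)) : lamk p d k ≤ uu d k j' - uu d k j := by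
  rw [uu_eq, uu_eq]
  have h1 : cc d k j + 2 ^ ee d k ≤ cc d k j' := by
    rw [cc_eq, cc_eq]
    have h2 : (j : ℝ) + 1 ≤ j' := by exact_mod_cast hjj
    have h3 : (0 : ℝ) < 2 ^ ee d k := by positivity
    (clear * - h2 h3; nlinarith)
  have h3 : (0 : ℝ) < 2 ^ ee d k := by positivity
  have h4 := Helper30.QRH.log_gap (cc_pos d k j) (by (clear * - h1 h3; linarith) : cc d k j ≤ cc d k j')
  refine le_trans ?_ h4
  have h5 := cc_ltG d hd k j' hj
  have h6 := cc_pos d k j'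
  unfold lamk
  have hp' : (1 : ℝ) ≤ p := by exact_mod_cast hp
  have hX : (0 : ℝ) < 2 ^ k := by positivity
  rw [div_le_div_iff₀ (by positivity) h6]
  have h7 : (2 : ℝ) * 2 ^ k ≤ 8 * p * 2 ^ k := by
    have : (2 : ℝ) ≤ 8 * p := by (clear * - hp'; linarith)
    exact mul_le_mul_of_nonneg_right this hX.le
  calc (2 : ℝ) ^ ee d k * cc d k j' ≤ 2 ^ ee d k * (8 * p * 2 ^ k) := by gcongr; (clear * - h5 h7; linarith)
    _ ≤ (cc d k j' - cc d k j) * (8 * p * 2 ^ k) := by
        apply mul_le_mul_of_nonneg_right _ (by positivity)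
        (clear * - h1; linarith)

lemma uu_absG {p : ℕ} (hp : 1 ≤ p) (d : ℝ) (hd : -(1 / 2) ≤ d) (k j j' : ℕ) (hne : j ≠ j')
    (hj : j < 2 ^ (k - ee d k)) (hj' : j' < 2 ^ (k - ee d k)) :
    lamk p d k ≤ |uu d k j - uu d k j'| := by
  rcases lt_or_gt_of_ne hne with h | h
  · rw [abs_sub_comm]
    exact (uu_sepG hp d hd k j j' h hj').trans (le_abs_self _)
  · exact (uu_sepG hp d hd k j' j h hj).trans (le_abs_self _)

lemma lamk_leG {p : ℕ} (hp : 1 ≤ p) (d : ℝ) (hd : -(1 / 2) ≤ d) (k : ℕ) : lamk p d k ≤ 1/2 := by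
  unfold lamk
  have hp' : (1 : ℝ) ≤ p := by exact_mod_cast hp
  have hX : (0 : ℝ) < 2 ^ k := by positivity
  rw [div_le_iff₀ (by positivity)]
  have h1 : (2 : ℝ) ^ ee d k ≤ 2 ^ k := pow_le_pow_right₀ (by norm_num) (ee_leG hd k)
  (clear * - hX h1 hp'; nlinarith)

lemma exp_uuG (d : ℝ) (hd : -(1 / 2) ≤ d) (k j : ℕ) (hj : j < 2 ^ (k - ee d k)) :
    Real.exp (0.575 * uu d k j) ≤ 2 * (2 : ℝ) ^ ((0.575 : ℝ) * k) := by
  rw [uu_eq, mul_comm, ← Real.rpow_def_of_pos (cc_pos d k j)]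
  calc cc d k j ^ (0.575 : ℝ) ≤ (2 * 2 ^ k) ^ (0.575 : ℝ) :=
        Real.rpow_le_rpow (cc_pos d k j).le (cc_ltG d hd k j hj) (by norm_num)
    _ = (2 : ℝ) ^ (0.575 : ℝ) * (2 : ℝ) ^ ((0.575 : ℝ) * k) := by
        rw [Real.mul_rpow (by norm_num) (by positivity), ← Real.rpow_natCast (2 : ℝ) k,
          ← Real.rpow_mul (by norm_num), mul_comm (k : ℝ)]
    _ ≤ 2 * (2 : ℝ) ^ ((0.575 : ℝ) * k) := by
        gcongr
        calc (2 : ℝ) ^ (0.575 : ℝ) ≤ (2 : ℝ) ^ (1 : ℝ) :=
              Real.rpow_le_rpow_of_exponent_le (by norm_num) (by norm_num)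
          _ = 2 := Real.rpow_one 2

theorem lineFewG (hK : KFacts) (hG : GBound) (hD : Duality) : LineFewG := by
  obtain ⟨CK0, hCK0⟩ := hK.bound
  obtain ⟨CG, hCG0, hCG⟩ := hG
  obtain ⟨CD, hCD⟩ := hD
  set CK : ℝ := |CK0| + 1 with hCKd
  have hCK1 : 1 ≤ CK := by linarith [abs_nonneg CK0]
  intro p d η hp hd hd1 hη
  have hp' : (1 : ℝ) ≤ p := by exact_mod_cast hp
  set C' : ℝ := 200 * |CD| * (2 * (CK ^ p * (CG * 36))) * (9 * p) * (16 * p) with hC'
  obtain ⟨K, hKk⟩ := LF.exists_K C' η hη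
  refine ⟨K + 1, ?_⟩
  intro k hk M Z hB
  have hk1 : 1 ≤ k := by omega
  have hk1' : (1 : ℝ) ≤ k := by exact_mod_cast hk1
  set lam := lamk p d k with hlam
  have hl : 0 < lam := LF.lamk_pos hp d k
  have hl2 : lam ≤ 1/2 := lamk_leG hp d hd k
  set T : ℝ := 2 ^ (5 * k) with hTd
  have hT : 1 ≤ T := one_le_pow₀ (by norm_num)
  obtain ⟨hG1, -⟩ := hCG T M Z hT hB
  set L : ℝ := CG * (36 * (k : ℝ) ^ 2) with hLd
  have hL0 : 0 ≤ L := by positivity
  have hlogT : (Real.log (T + 2)) ^ 2 ≤ 36 * (k : ℝ) ^ 2 := by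
    have h1 := LF.logT k hk1
    have h2 : 0 ≤ Real.log (T + 2) := Real.log_nonneg (by (clear * - hl hl2 hT; linarith))
    calc (Real.log (T + 2)) ^ 2 ≤ (6 * (k : ℝ)) ^ 2 := by (clear * - h2 h1; gcongr)
      _ = _ := by ring
  set B : ℝ := 2 * (CK ^ p * L) with hBd
  have hB0 : 0 ≤ B := by (clear * - hCG0 hk1; positivity)
  have hgb := gg_bound hp (lam := lam) (T := T) (CK := CK) (L := L) (Z := Z) (by (clear * - hCK1 hl hl2; linarith)) hL0
    (by
      intro s h0 h2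
      refine (hCK0 lam hl (by (clear * - hl hl2; linarith)) s h0 h2).trans ?_
      apply div_le_div_of_nonneg_right _ (by positivity)
      (clear * - hl hl2; linarith [le_abs_self CK0]))
    (by
      intro s h0 h2 h3
      refine (hG1 s h0 h2 h3).trans ?_
      rw [hLd]
      gcongr)
  set F := (Finset.range (2 ^ (k - ee d k))).filter (fun j =>
      1/100 * (2 : ℝ) ^ k ≤ ‖line p lam T Z (uu d k j)‖) with hF
  have hFj : ∀ j ∈ F, j < 2 ^ (k - ee d k) := by
    intro j hj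
    exact Finset.mem_range.1 (Finset.mem_filter.1 hj).1
  have hinj : Set.InjOn (uu d k) F := by
    intro a ha b hb hab
    by_contra hne
    have := uu_absG hp d hd k a b hne (hFj a ha) (hFj b hb)
    rw [hab, sub_self, abs_zero] at this
    (clear * - hl this; linarith)
  have hdual := hCD lam hl hl2 (gg p lam T Z) (gg_meas hl hB.diff) B hB0 hgb
    (F.image (uu d k)) (by
      intro u hu u' hu' hne
      obtain ⟨a, ha, rfl⟩ := Finset.mem_image.1 hu
      obtain ⟨b, hb, rfl⟩ := Finset.mem_image.1 hu'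
      exact uu_absG hp d hd k a b (fun h => hne (by rw [h])) (hFj a ha) (hFj b hb))
  rw [Finset.sum_image hinj, Finset.card_image_of_injOn hinj] at hdual
  -- lower bound for each term
  set E : ℝ := (2 : ℝ) ^ ((0.575 : ℝ) * k) with hE
  have hE0 : 0 < E := by positivity
  have hlow : ∀ j ∈ F, (2 : ℝ) ^ k / (200 * E) ≤
      ‖∫ t : ℝ, gg p lam T Z t * Complex.exp (t * (uu d k j) * Complex.I)‖ := by
    intro j hj
    have h1 := (Finset.mem_filter.1 hj).2
    have h2 := line_norm (p := p) (lam := lam) (T := T) (by (clear * - hl hl2 hT; linarith)) Z (uu d k j)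
    have h3 := exp_uuG d hd k j (hFj j hj)
    rw [div_le_iff₀ (by positivity)]
    have h4 : Real.exp (0.575 * uu d k j) *
        ‖∫ t : ℝ, gg p lam T Z t * Complex.exp (t * (uu d k j) * Complex.I)‖ ≤
        (2 * E) * ‖∫ t : ℝ, gg p lam T Z t * Complex.exp (t * (uu d k j) * Complex.I)‖ := by
      (clear * - h3; gcongr)
    (clear * - h1 h2 h4; linarith)
  have hsum : (F.card : ℝ) * ((2 : ℝ) ^ k / (200 * E)) ≤
      CD * B * Real.log (1 / lam) / lam * Real.sqrt F.card := by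
    refine le_trans ?_ hdual
    rw [← nsmul_eq_mul]
    exact Finset.card_nsmul_le_sum _ _ _ hlow
  -- final computation
  rcases Nat.eq_zero_or_pos F.card with h0 | hpos
  · rw [h0]
    simp only [Nat.cast_zero]
    positivity
  have hFc : (0 : ℝ) < F.card := by exact_mod_cast hpos
  set S : ℝ := Real.sqrt F.card with hS
  have hS0 : 0 < S := Real.sqrt_pos.2 hFc
  have hSS : (F.card : ℝ) = S * S := (Real.mul_self_sqrt hFc.le).symm
  have hlog0 : 0 ≤ Real.log (1 / lam) := Real.log_nonneg (by rw [le_div_iff₀ hl]; (clear * - hl hl2; linarith))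
  have hS1 : S * ((2 : ℝ) ^ k / (200 * E)) ≤ CD * B * Real.log (1 / lam) / lam := by
    rw [hSS] at hsum
    have : S * (S * ((2 : ℝ) ^ k / (200 * E))) ≤ S * (CD * B * Real.log (1 / lam) / lam) := by
      (clear * - hsum; linarith)
    exact le_of_mul_le_mul_left this hS0
  have h1 := LF.inv_lamk hp d k
  have h2 := LF.log_inv_lamk hp d k hk1
  have hS2 : CD * B * Real.log (1 / lam) / lam ≤
      |CD| * B * (9 * p * k) * (16 * p * (2 : ℝ) ^ ((1/2 + d) * k)) := by
    calc CD * B * Real.log (1 / lam) / lam = CD * (B * Real.log (1 / lam) * (1 / lam)) := by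
          (clear * - hl; field_simp)
      _ ≤ |CD| * (B * Real.log (1 / lam) * (1 / lam)) := by
          apply mul_le_mul_of_nonneg_right (le_abs_self _) (by (clear * - hCG0 hk1 hlog0 hl; positivity))
      _ ≤ |CD| * (B * (9 * p * k) * (16 * p * (2 : ℝ) ^ ((1/2 + d) * k))) := by (clear * - h2 hCG0 hk1 h1 hl hp; gcongr)
      _ = _ := by ring
  have hXk : (2 : ℝ) ^ k = (2 : ℝ) ^ (k : ℝ) := (Real.rpow_natCast _ _).symm
  have hS3 : S ≤ C' * (k : ℝ) ^ 3 * (2 : ℝ) ^ ((0.075 + d) * k) := by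
    have h3 : S * ((2 : ℝ) ^ k / (200 * E)) ≤
        |CD| * B * (9 * p * k) * (16 * p * (2 : ℝ) ^ ((1/2 + d) * k)) := hS1.trans hS2
    have h4 : (2 : ℝ) ^ ((1/2 + d) * k) * E = (2 : ℝ) ^ ((0.075 + d) * k) * (2 : ℝ) ^ k := by
      rw [hE, hXk, ← Real.rpow_add (by norm_num), ← Real.rpow_add (by norm_num)]
      congr 1
      ring
    rw [← mul_div_assoc, div_le_iff₀ (by positivity)] at h3
    have h5 : |CD| * B * (9 * p * k) * (16 * p * (2 : ℝ) ^ ((1/2 + d) * k)) * (200 * E) =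
        C' * (k : ℝ) ^ 3 * (2 : ℝ) ^ ((0.075 + d) * k) * (2 : ℝ) ^ k := by
      calc _ = 200 * |CD| * B * (9 * p * k) * (16 * p) * ((2 : ℝ) ^ ((1/2 + d) * k) * E) := by ring
        _ = 200 * |CD| * B * (9 * p * k) * (16 * p) *
            ((2 : ℝ) ^ ((0.075 + d) * k) * (2 : ℝ) ^ k) := by rw [h4]
        _ = _ := by
          rw [hC', hBd, hLd]
          ring
    rw [h5] at h3
    exact le_of_mul_le_mul_right h3 (by positivity)
  have hS4 : S ≤ (2 : ℝ) ^ ((0.075 + d + 3/2 * η) * k) := by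
    refine hS3.trans ?_
    have h6 := hKk k (by omega)
    calc C' * (k : ℝ) ^ 3 * (2 : ℝ) ^ ((0.075 + d) * k) ≤
        (2 : ℝ) ^ (3/2 * η * k) * (2 : ℝ) ^ ((0.075 + d) * k) := by (clear * - h6; gcongr)
      _ = _ := by
        rw [← Real.rpow_add (by norm_num)]
        congr 1
        ring
  rw [hSS]
  calc S * S ≤ (2 : ℝ) ^ ((0.075 + d + 3/2 * η) * k) * (2 : ℝ) ^ ((0.075 + d + 3/2 * η) * k) :=
        mul_le_mul hS4 hS4 hS0.le (by positivity)
    _ = (2 : ℝ) ^ ((0.15 + 2 * d + 3 * η) * k) := by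
      rw [← Real.rpow_add (by norm_num)]
      congr 1
      ring

end Pool.Agent.M17.Helper1.KL
end

/- Helper53.KN.Helper1.KL.Assembly -/
section
/-! Helper60/KG/Assembly.lean (helper60) adapted to the line 0.575 (box 57/100) by helper1 -/

set_option autoImplicit false
open Filter Topology MeasureTheory Complex
open scoped Classical

namespace Pool.Agent.M17.Helper1.KL

open Pool.Agent.M17.Helper10.QRH Pool.Agent.M17.Helper69.QRH
open Pool.Agent.M17.Helper46.KSZ (ev_sq KK_norm_le KK_one_ge)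

/-- numerical error of the shifted formula -/
lemma err_smallG (C : ℝ) (hC : 0 < C) (p : ℕ) (hp : 1 ≤ p) (d : ℝ) (hd : -(1 / 2) ≤ d) :
    ∃ K : ℕ, ∀ k : ℕ, K ≤ k → ∀ u : ℝ, Real.exp u ≤ 2 * 2 ^ k →
      C * Real.exp (2 * (u + ((p - 1 : ℕ) : ℝ) * lamk p d k)) *
        (Real.log ((2 : ℝ) ^ (5 * k) + 2)) ^ 2 / (lamk p d k ^ 2 * 2 ^ (5 * k)) ≤ 1/100 * 2 ^ k := by
  obtain ⟨K, hK⟩ := ev_sq (C * 8 * 25 * 64 * p ^ 2 * 100)
  refine ⟨max K 1, fun k hk u hu => ?_⟩
  have hkK : K ≤ k := le_trans (le_max_left _ _) hk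
  have hk1 : 1 ≤ k := le_trans (le_max_right _ _) hk
  have hk1r : (1 : ℝ) ≤ k := by exact_mod_cast hk1
  have hpr : (1 : ℝ) ≤ p := by exact_mod_cast hp
  set X : ℝ := (2 : ℝ) ^ k with hX
  have hX1 : 1 ≤ X := one_le_pow₀ (by norm_num)
  have hX0 : 0 < X := by (clear * - hX1; linarith)
  set H : ℝ := (2 : ℝ) ^ ee d k with hH
  have hH1 : 1 ≤ H := one_le_pow₀ (by norm_num)
  have hHX : H ≤ X := pow_le_pow_right₀ (by norm_num) (ee_leG hd k)
  have hlam : lamk p d k = H / (8 * p * X) := rfl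
  have hlam0 : 0 < lamk p d k := by rw [hlam]; positivity
  -- the exponential
  have hpl : ((p - 1 : ℕ) : ℝ) * lamk p d k ≤ 1 / 8 := by
    have h1 : ((p - 1 : ℕ) : ℝ) ≤ p := by exact_mod_cast Nat.sub_le p 1
    calc ((p - 1 : ℕ) : ℝ) * lamk p d k ≤ p * (H / (8 * p * X)) := by
          rw [hlam]; (clear * - h1 hp; gcongr)
      _ = H / X / 8 := by field_simp
      _ ≤ 1 / 8 := by
          have : H / X ≤ 1 := by rw [div_le_one hX0]; exact hHX
          (clear * - this; linarith)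
  have hexp : Real.exp (2 * (u + ((p - 1 : ℕ) : ℝ) * lamk p d k)) ≤ 8 * X ^ 2 := by
    have h1 : Real.exp (2 * (u + ((p - 1 : ℕ) : ℝ) * lamk p d k)) =
        Real.exp u ^ 2 * Real.exp (2 * (((p - 1 : ℕ) : ℝ) * lamk p d k)) := by
      rw [← Real.exp_nat_mul, ← Real.exp_add]; congr 1; push_cast; ring
    have h2 : Real.exp (2 * (((p - 1 : ℕ) : ℝ) * lamk p d k)) ≤ 2 := by
      have h3 : Real.exp (2 * (((p - 1 : ℕ) : ℝ) * lamk p d k)) ≤ Real.exp (1 / 2) :=
        Real.exp_le_exp.2 (by (clear * - hpl; linarith))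
      have h4 : Real.exp (1 / 2 : ℝ) ^ 2 ≤ 2 ^ 2 := by
        rw [← Real.exp_nat_mul]
        have := Real.exp_one_lt_d9
        norm_num
        (clear * - this; linarith)
      have h5 := Real.exp_pos (1/2 : ℝ)
      (clear * - h3 h4 h5; nlinarith)
    have h6 : Real.exp u ^ 2 ≤ (2 * X) ^ 2 := pow_le_pow_left₀ (Real.exp_pos _).le hu 2
    rw [h1]
    have h7 := Real.exp_pos (2 * (((p - 1 : ℕ) : ℝ) * lamk p d k))
    (clear * - h6 h2; nlinarith [sq_nonneg (Real.exp u)])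
  -- the logarithm
  have hlog : (Real.log ((2 : ℝ) ^ (5 * k) + 2)) ^ 2 ≤ 25 * (k : ℝ) ^ 2 := by
    have h1 : (2 : ℝ) ^ (5 * k) + 2 ≤ 2 ^ (5 * k + 1) := by
      have : (2 : ℝ) ^ 1 ≤ 2 ^ (5 * k) := pow_le_pow_right₀ (by norm_num) (by omega)
      rw [pow_succ]
      (clear * - this; linarith)
    have h2 : Real.log ((2 : ℝ) ^ (5 * k) + 2) ≤ 5 * k := by
      have h3 := Real.log_le_log (by positivity) h1
      rw [Real.log_pow] at h3
      push_cast at h3
      have h4 := Real.log_two_lt_d9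
      have h5 : (5 * (k : ℝ) + 1) * Real.log 2 ≤ (5 * k + 1) * 0.7 := by
        gcongr
        (clear * - h4; linarith)
      (clear * - hk1r h3 h5; linarith)
    have h6 : 0 ≤ Real.log ((2 : ℝ) ^ (5 * k) + 2) := Real.log_nonneg (by
      have : (0 : ℝ) < 2 ^ (5 * k) := by positivity
      (clear * - this; linarith))
    (clear * - h2 h6; nlinarith)
  have hT : (2 : ℝ) ^ (5 * k) = X ^ 5 := by rw [hX, ← pow_mul, mul_comm]
  have hden : 1 / (64 * p ^ 2) * X ^ 3 ≤ lamk p d k ^ 2 * 2 ^ (5 * k) := by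
    rw [hT, hlam]
    have : (H / (8 * p * X)) ^ 2 * X ^ 5 = H ^ 2 * (1 / (64 * p ^ 2) * X ^ 3) := by
      field_simp
      ring
    rw [this]
    have h1 : 1 ≤ H ^ 2 := one_le_pow₀ hH1
    have h2 : 0 ≤ 1 / (64 * (p : ℝ) ^ 2) * X ^ 3 := by positivity
    (clear * - h1 h2; nlinarith)
  have hden0 : 0 < lamk p d k ^ 2 * 2 ^ (5 * k) := by positivity
  rw [div_le_iff₀ hden0]
  have hmain := hK k hkK
  calc C * Real.exp (2 * (u + ((p - 1 : ℕ) : ℝ) * lamk p d k)) *
        (Real.log ((2 : ℝ) ^ (5 * k) + 2)) ^ 2 ≤ C * (8 * X ^ 2) * (25 * (k : ℝ) ^ 2) := by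
        (clear * - hexp hC hlog; gcongr)
    _ = 1 / (64 * p ^ 2) * X ^ 2 / 100 * (C * 8 * 25 * 64 * p ^ 2 * 100 * k ^ 2) := by
        (clear * - hp hk1 hX1 hC; field_simp)
    _ ≤ 1 / (64 * p ^ 2) * X ^ 2 / 100 * X := by gcongr
    _ ≤ 1 / 100 * X * (1 / (64 * p ^ 2) * X ^ 3) := by
        have h1 : X ^ 3 ≤ X ^ 4 := pow_le_pow_right₀ hX1 (by norm_num)
        have h2 : 0 ≤ 1 / (64 * (p : ℝ) ^ 2) / 100 := by positivity
        calc 1 / (64 * (p : ℝ) ^ 2) * X ^ 2 / 100 * X = 1 / (64 * (p : ℝ) ^ 2) / 100 * X ^ 3 := by ring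
          _ ≤ 1 / (64 * (p : ℝ) ^ 2) / 100 * X ^ 4 := by (clear * - h1 hp; gcongr)
          _ = _ := by ring
    _ ≤ 1 / 100 * X * (lamk p d k ^ 2 * 2 ^ (5 * k)) := by gcongr

theorem explicitCellsG (h1 : BoxExists) (h9 : ShiftIter) (h10 : PrimeSideG) (h11 : LineFewG)
    (h12 : HighZerosG) : ExplicitCellsG := by
  intro d η hd hd1 hη hη1
  obtain ⟨p, hp, K12, hK12⟩ := h12 d η hd hd1 hη
  obtain ⟨K10, hK10⟩ := h10 p d hp hd hd1
  obtain ⟨K11, hK11⟩ := h11 p d η hp hd hd1 hη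
  obtain ⟨C, hC, hC9⟩ := h9
  obtain ⟨Ke, hKe⟩ := err_smallG C hC p hp d hd
  have hpr : (1 : ℝ) ≤ p := by exact_mod_cast hp
  refine ⟨1 / (200 * p), by positivity, max (max K12 K10) (max (max K11 Ke) 10), fun k hk => ?_⟩
  have hkA : K12 ≤ k := le_trans (le_trans (le_max_left _ _) (le_max_left _ _)) hk
  have hkB : K10 ≤ k := le_trans (le_trans (le_max_right _ _) (le_max_left _ _)) hk
  have hkC : K11 ≤ k := le_trans (le_trans (le_trans (le_max_left _ _) (le_max_left _ _)) (le_max_right _ _)) hk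
  have hkD : Ke ≤ k := le_trans (le_trans (le_trans (le_max_right _ _) (le_max_left _ _)) (le_max_right _ _)) hk
  have hkE : 10 ≤ k := le_trans (le_trans (le_max_right _ _) (le_max_right _ _)) hk
  set X : ℝ := (2 : ℝ) ^ k with hX
  have hX10 : (1000 : ℝ) ≤ X := by
    have : (2 : ℝ) ^ 10 ≤ 2 ^ k := pow_le_pow_right₀ (by norm_num) hkE
    rw [hX]; norm_num at this ⊢; (clear * - this; linarith)
  have hX0 : 0 < X := by (clear * - hX10; linarith)
  have hX1 : 1 ≤ X := by (clear * - hX10; linarith)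
  have hXk : ((2 ^ k : ℕ) : ℝ) = X := by push_cast; rfl
  obtain ⟨M, Z, hBox⟩ := h1 (2 ^ (5 * k)) (by positivity)
  set T : ℝ := (2 : ℝ) ^ (5 * k) with hT
  have hT1 : 1 ≤ T := one_le_pow₀ (by norm_num)
  set lam : ℝ := lamk p d k with hlam
  set H : ℝ := (2 : ℝ) ^ ee d k with hH
  have hH1 : 1 ≤ H := one_le_pow₀ (by norm_num)
  have hHX : H ≤ X := pow_le_pow_right₀ (by norm_num) (ee_leG hd k)
  have hlamE : lam = H / (8 * p * X) := rfl
  have hlam0 : 0 < lam := by rw [hlamE]; positivity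
  have hplam : p * lam ≤ 1 / 8 := by
    rw [hlamE]
    have : (p : ℝ) * (H / (8 * p * X)) = H / X / 8 := by field_simp
    rw [this]
    have : H / X ≤ 1 := by rw [div_le_one hX0]; exact hHX
    (clear * - this; linarith)
  have hlam1 : lam ≤ 1 := by (clear * - hpr hplam; nlinarith)
  refine ⟨fun ρ => KK lam ρ ^ p, (Finset.range (2 ^ (k - ee d k))).filter (fun j =>
      1/100 * (2 : ℝ) ^ k ≤ ‖line p (lamk p d k) (2 ^ (5 * k)) Z (uu d k j)‖), ?_,
      hK11 k hkC M Z hBox, ?_⟩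
  · intro ρ hρ0 hρ1
    rw [norm_pow]
    have h2 := KK_norm_le hlam0 ρ
    have h3 : |ρ.re| ≤ 1 := abs_le.2 ⟨by (clear * - hρ0; linarith), hρ1⟩
    calc ‖KK lam ρ‖ ^ p ≤ (Real.exp (lam * |ρ.re|)) ^ p := pow_le_pow_left₀ (norm_nonneg _) h2 p
      _ = Real.exp (p * (lam * |ρ.re|)) := by rw [Real.exp_nat_mul]
      _ ≤ Real.exp (1 / 2) := by
          apply Real.exp_le_exp.2
          have : (p : ℝ) * (lam * |ρ.re|) = (p * lam) * |ρ.re| := by ring
          rw [this]
          have := abs_nonneg ρ.re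
          (clear * - hlam0 hplam h3 hpr this; nlinarith)
      _ ≤ 2 := by
          have h4 : Real.exp (1 / 2 : ℝ) ^ 2 ≤ 2 ^ 2 := by
            rw [← Real.exp_nat_mul]
            have := Real.exp_one_lt_d9
            norm_num
            (clear * - this; linarith)
          have h5 := Real.exp_pos (1/2 : ℝ)
          (clear * - h4 h5; nlinarith)
  intro j hj hjE hfew S hS
  set u : ℝ := uu d k j with hu
  -- the centre
  set y : ℕ := 2 ^ k + j * 2 ^ ee d k with hy
  have hyX : X ≤ y := by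
    rw [← hXk]
    exact_mod_cast (by rw [hy]; exact Nat.le_add_right _ _ : 2 ^ k ≤ y)
  have hek := ee_leG hd k
  have hy2 : (y : ℝ) + H ≤ 2 * X := by
    have h2 : y + 2 ^ ee d k ≤ 2 ^ (k + 1) := by
      have h3 : (j + 1) * 2 ^ ee d k ≤ 2 ^ (k - ee d k) * 2 ^ ee d k := Nat.mul_le_mul_right _ hj
      rw [← pow_add, Nat.sub_add_cancel hek] at h3
      rw [pow_succ, hy]
      have h4 : (j + 1) * 2 ^ ee d k = j * 2 ^ ee d k + 2 ^ ee d k := by ring
      omega
    have h3 : ((y + 2 ^ ee d k : ℕ) : ℝ) ≤ ((2 ^ (k + 1) : ℕ) : ℝ) := by exact_mod_cast h2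
    push_cast at h3
    rw [pow_succ] at h3
    rw [hH, hX]
    (clear * - h3; linarith)
  have heu : Real.exp u = (y : ℝ) + H / 2 := by
    rw [hu]
    unfold uu
    rw [Real.exp_log (by (clear * -; positivity))]
  have heuX : X ≤ Real.exp u := by rw [heu]; (clear * - hH1 hyX; linarith)
  have heuX2 : Real.exp u ≤ 2 * X := by rw [heu]; (clear * - hH1 hy2; linarith)
  have hu1 : 1 + ((p - 1 : ℕ) : ℝ) * lam ≤ u := by
    have h2 : ((p - 1 : ℕ) : ℝ) ≤ p := by exact_mod_cast Nat.sub_le p 1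
    have h3 : ((p - 1 : ℕ) : ℝ) * lam ≤ 1 / 8 := (mul_le_mul_of_nonneg_right h2 hlam0.le).trans hplam
    have h4 : (2 : ℝ) ≤ u := by
      by_contra hc
      have h5 : Real.exp u < Real.exp 2 := Real.exp_lt_exp.2 (not_le.1 hc)
      have h6 : Real.exp 2 ≤ 9 := by
        have h7 : Real.exp 2 = Real.exp 1 ^ 2 := by rw [← Real.exp_nat_mul]; norm_num
        rw [h7]
        have h8 := Real.exp_one_lt_d9
        have h9 := Real.exp_pos 1
        (clear * - hX10 hH1 hlam0 hplam hyX heu h5 h7 h8 hpr h9; nlinarith)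
      (clear * - hX10 hH1 hyX heu h5 h6; linarith)
    (clear * - h3 h4; linarith)
  have hp1 : p - 1 + 1 = p := Nat.sub_add_cancel hp
  -- the formula
  have hform := hC9 T M Z hT1 hBox lam u (p - 1) hlam0 hlam1 hu1
  rw [hp1] at hform
  have herr := hKe k hkD u heuX2
  have hform2 : ‖lhs (ker lam (p - 1)) p lam M u - line p lam T Z u‖ ≤ 1/100 * X :=
    hform.trans herr
  have hline : ‖line p lam T Z u‖ < 1/100 * X := by
    by_contra hc
    apply hjE
    rw [Finset.mem_filter, Finset.mem_range]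
    exact ⟨hj, not_lt.1 hc⟩
  have hlhs : ‖lhs (ker lam (p - 1)) p lam M u‖ ≤ 1/50 * X := by
    have := norm_add_le (lhs (ker lam (p - 1)) p lam M u - line p lam T Z u) (line p lam T Z u)
    rw [sub_add_cancel] at this
    (clear * - hform herr hline this; linarith)
  have hprime := hK10 k hkB j hj hfew
  set P : ℝ := ∑' n : ℕ, ArithmeticFunction.vonMangoldt n * ker lam (p - 1) (u - Real.log n) with hP
  have hP8 : P ≤ 1/8 * X := hprime
  obtain ⟨κ, hκ, hκe⟩ := KK_one_ge hlam0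
  have hκp : 1 ≤ κ ^ p := one_le_pow₀ hκ
  have hlhsE : lhs (ker lam (p - 1)) p lam M u = ((P - Real.exp u * κ ^ p : ℝ) : ℂ) +
      (M.map (fun ρ => Complex.exp (ρ * u) * KK lam ρ ^ p)).sum := by
    unfold lhs
    rw [hκe, ← hP]
    push_cast
    ring
  have hmainlow : Real.exp u - 1/8 * X - 1/50 * X ≤
      ‖(M.map (fun ρ => Complex.exp (ρ * u) * KK lam ρ ^ p)).sum‖ := by
    have h2 : ‖((P - Real.exp u * κ ^ p : ℝ) : ℂ)‖ ≥ Real.exp u - 1/8 * X := by
      rw [Complex.norm_real, Real.norm_eq_abs, abs_sub_comm]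
      refine le_trans ?_ (le_abs_self _)
      have := Real.exp_pos u
      (clear * - hprime hκp hH1 heu; nlinarith)
    have h3 := norm_sub_le_norm_add ((P - Real.exp u * κ ^ p : ℝ) : ℂ)
      (M.map (fun ρ => Complex.exp (ρ * u) * KK lam ρ ^ p)).sum
    rw [← hlhsE] at h3
    (clear * - hlhs h2 h3; linarith)
  -- low and high zeros
  set B : ℝ := (2 : ℝ) ^ ((1/2 + d + η) * k) with hB
  set Mh := M.filter (fun ρ => B < |ρ.im|) with hMh
  set Ml := M.filter (fun ρ => ¬ B < |ρ.im|) with hMl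
  have hsplit : Mh + Ml = M := Multiset.filter_add_not _ _
  have hhigh := hK12 k hkA M Z hBox j hj
  have hhigh2 : ‖(Mh.map (fun ρ => Complex.exp (ρ * u) * KK lam ρ ^ p)).sum‖ ≤ 1 := by
    refine le_trans ?_ hhigh
    have h2 := Multiset.le_sum_of_subadditive (fun z : ℂ => ‖z‖) (by simp) (fun a b => norm_add_le a b)
      (Mh.map (fun ρ => Complex.exp (ρ * u) * KK lam ρ ^ p))
    rw [Multiset.map_map] at h2
    exact h2
  have hlow : Real.exp u - 1/8 * X - 1/50 * X - 1 ≤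
      ‖(Ml.map (fun ρ => Complex.exp (ρ * u) * KK lam ρ ^ p)).sum‖ := by
    have h2 : (M.map (fun ρ => Complex.exp (ρ * u) * KK lam ρ ^ p)).sum =
        (Mh.map (fun ρ => Complex.exp (ρ * u) * KK lam ρ ^ p)).sum +
        (Ml.map (fun ρ => Complex.exp (ρ * u) * KK lam ρ ^ p)).sum := by
      rw [← hsplit, Multiset.map_add, Multiset.sum_add]
    have h3 := norm_add_le (Mh.map (fun ρ => Complex.exp (ρ * u) * KK lam ρ ^ p)).sum
      (Ml.map (fun ρ => Complex.exp (ρ * u) * KK lam ρ ^ p)).sum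
    rw [← h2] at h3
    (clear * - hmainlow hhigh2 h3; linarith)
  -- the finset
  have hBT : B < T + 2 := by
    have h2 : B ≤ T := by
      rw [hB, hT, ← Real.rpow_natCast]
      apply Real.rpow_le_rpow_of_exponent_le (by norm_num)
      push_cast
      exact mul_le_mul_of_nonneg_right (by (clear * - hd1 hη1; linarith)) k.cast_nonneg
    (clear * - h2; linarith)
  have hmemS : ∀ ρ, ρ ∈ S ↔ ρ ∈ Ml := by
    intro ρ
    rw [hS, hMl, Multiset.mem_filter]
    constructor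
    · rintro ⟨h2, h3, h4⟩
      refine ⟨?_, not_lt.2 h4⟩
      have hρT : |ρ.im| < T + 2 := lt_of_le_of_lt h4 hBT
      have hne := hBox.ne ρ h3 hρT
      have hρ1 : ρ ≠ 1 := by
        rintro rfl
        exact riemannZeta_one_ne_zero h2
      have hE0 : EZ ρ = 0 := by rw [EZ_eq hρ1, h2, mul_zero]
      have hQ := hBox.eq ρ
      rw [hE0] at hQ
      have hQ0 : Qp M ρ = 0 := by
        rcases mul_eq_zero.1 hQ.symm with h | h
        · exact h
        · exact absurd h hne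
      by_contra hc
      exact Qp_ne_zero M ρ (fun a ha hρa => hc (hρa ▸ ha)) hQ0
    · rintro ⟨h2, h3⟩
      obtain ⟨h4, h5, h6, h7⟩ := hBox.mem ρ h2
      exact ⟨h4, h5, not_lt.1 h3⟩
  have hSfin : Ml.toFinset = S := by
    ext ρ
    rw [Multiset.mem_toFinset, hmemS]
  have hsum : (Ml.map (fun ρ => Complex.exp (ρ * u) * KK lam ρ ^ p)).sum =
      Complex.exp u * ∑ ρ ∈ S, (analyticOrderNatAt riemannZeta ρ : ℂ) * (KK lam ρ ^ p) *
        Complex.exp ((ρ - 1) * u) := by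
    rw [Finset.sum_multiset_map_count, hSfin, Finset.mul_sum]
    refine Finset.sum_congr rfl fun ρ hρ => ?_
    have h2 := (hmemS ρ).1 hρ
    rw [hMl, Multiset.mem_filter] at h2
    obtain ⟨h4, h5, h6, h7⟩ := hBox.mem ρ h2.1
    have hcount : Ml.count ρ = analyticOrderNatAt riemannZeta ρ := by
      rw [hMl, Multiset.count_filter_of_pos (p := fun ρ : ℂ => ¬ B < |ρ.im|) h2.2]
      exact hBox.count ρ h4 h5 h7
    rw [hcount, nsmul_eq_mul]
    have h8 : Complex.exp (ρ * u) = Complex.exp u * Complex.exp ((ρ - 1) * u) := by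
      rw [← Complex.exp_add]; congr 1; ring
    rw [h8]
    ring
  rw [hsum, norm_mul, Complex.norm_exp, Complex.ofReal_re] at hlow
  have hupos := Real.exp_pos u
  have hfin : Real.exp u * (3/4) ≤ Real.exp u * ‖∑ ρ ∈ S, (analyticOrderNatAt riemannZeta ρ : ℂ) *
      (KK lam ρ ^ p) * Complex.exp ((ρ - 1) * u)‖ := by
    refine le_trans ?_ hlow
    (clear * - hX10 hH1 hyX heu; linarith)
  exact le_of_mul_le_mul_left hfin hupos

end Pool.Agent.M17.Helper1.KL
end

/- Helper53.KN.Helper9.KSZ.KerFacts -/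
section
/-! KSZ-E8: facts on the iterated triangle kernels. -/

set_option autoImplicit false
open MeasureTheory

namespace Pool.Agent.M17.Helper9.KSZ

open Pool.Agent.M17.Helper10.QRH Pool.Agent.M17.Helper46.KSZ Pool.Agent.M17.Helper79.QRH

theorem tri_integrable {lam : ℝ} (hl : 0 < lam) : Integrable (tri lam) := by
  refine (tri_cont lam).integrable_of_hasCompactSupport ?_
  refine HasCompactSupport.intro (K := Set.Icc (-lam) lam) isCompact_Icc ?_
  intro v hv
  refine tri_zero hl ?_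
  by_contra h
  push Not at h
  exact hv ⟨(abs_lt.1 h).1.le, (abs_lt.1 h).2.le⟩

theorem tri_integral {lam : ℝ} (hl : 0 < lam) : ∫ v : ℝ, tri lam v = 1 := by
  have h0 : ∫ v : ℝ, tri lam v = ∫ v in (-lam)..lam, tri lam v := by
    rw [intervalIntegral.integral_of_le (by linarith)]
    symm
    apply setIntegral_eq_integral_of_forall_compl_eq_zero
    intro v hv
    apply tri_zero hl
    rw [Set.mem_Ioc, not_and_or, not_lt, not_le] at hv
    rcases hv with h | h
    · rw [le_abs]; right; linarith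
    · rw [le_abs]; left; exact h.le
  have hc : ∀ a b : ℝ, IntervalIntegrable (tri lam) volume a b :=
    fun a b => (tri_cont lam).intervalIntegrable a b
  rw [h0, ← intervalIntegral.integral_add_adjacent_intervals (hc (-lam) 0) (hc 0 lam)]
  have h1 : ∫ v in (-lam)..0, tri lam v = ∫ v in (-lam)..0, (1 / lam + v / lam ^ 2) := by
    apply intervalIntegral.integral_congr
    intro v hv
    rw [Set.uIcc_of_le (by linarith)] at hv
    show tri lam v = _
    unfold tri
    rw [abs_of_nonpos hv.2]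
    have : 0 ≤ 1 - -v / lam := by
      have : -v / lam ≤ 1 := (div_le_one hl).2 (by linarith [hv.1])
      linarith
    rw [max_eq_right this]
    field_simp
    ring
  have h2 : ∫ v in (0 : ℝ)..lam, tri lam v = ∫ v in (0 : ℝ)..lam, (1 / lam - v / lam ^ 2) := by
    apply intervalIntegral.integral_congr
    intro v hv
    rw [Set.uIcc_of_le hl.le] at hv
    show tri lam v = _
    unfold tri
    rw [abs_of_nonneg hv.1]
    have : 0 ≤ 1 - v / lam := by
      have : v / lam ≤ 1 := (div_le_one hl).2 hv.2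
      linarith
    rw [max_eq_right this]
    field_simp
  rw [h1, h2]
  rw [intervalIntegral.integral_add (by simp) (by
    apply Continuous.intervalIntegrable; fun_prop)]
  rw [intervalIntegral.integral_sub (by simp) (by
    apply Continuous.intervalIntegrable; fun_prop)]
  simp only [intervalIntegral.integral_const, intervalIntegral.integral_div, integral_id]
  simp only [smul_eq_mul]
  field_simp
  ring

theorem kerFacts : KerFacts := by
  intro lam hl j
  induction j with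
  | zero =>
    refine ⟨tri_cont lam, fun v => tri_nonneg hl, fun v => tri_le hl, ?_⟩
    intro v hv
    refine tri_zero hl ?_
    simpa using hv
  | succ j ih =>
    obtain ⟨hc, hn, hb, hz⟩ := ih
    have hint : Integrable (fun w : ℝ => tri lam w * (1 / lam)) := (tri_integrable hl).mul_const _
    have hle : ∀ v w : ℝ, ‖tri lam w * ker lam j (v - w)‖ ≤ tri lam w * (1 / lam) := by
      intro v w
      rw [Real.norm_of_nonneg (mul_nonneg (tri_nonneg hl) (hn _))]
      exact mul_le_mul_of_nonneg_left (hb _) (tri_nonneg hl)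
    have hcw : ∀ v : ℝ, Continuous fun w : ℝ => tri lam w * ker lam j (v - w) := by
      intro v
      exact (tri_cont lam).mul (hc.comp (continuous_const.sub continuous_id))
    have hi : ∀ v : ℝ, Integrable fun w : ℝ => tri lam w * ker lam j (v - w) := by
      intro v
      exact hint.mono' (hcw v).aestronglyMeasurable (Filter.Eventually.of_forall (hle v))
    refine ⟨?_, ?_, ?_, ?_⟩
    · show Continuous fun v : ℝ => ∫ w : ℝ, tri lam w * ker lam j (v - w)
      refine continuous_of_dominated (bound := fun w : ℝ => tri lam w * (1 / lam))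
        (fun v => (hcw v).aestronglyMeasurable) (fun v => Filter.Eventually.of_forall (hle v))
        hint (Filter.Eventually.of_forall ?_)
      intro w
      exact continuous_const.mul (hc.comp (continuous_id.sub continuous_const))
    · intro v
      show 0 ≤ ∫ w : ℝ, tri lam w * ker lam j (v - w)
      exact integral_nonneg fun w => mul_nonneg (tri_nonneg hl) (hn _)
    · intro v
      show ∫ w : ℝ, tri lam w * ker lam j (v - w) ≤ 1 / lam
      calc ∫ w : ℝ, tri lam w * ker lam j (v - w) ≤ ∫ w : ℝ, tri lam w * (1 / lam) :=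
            integral_mono (hi v) hint fun w =>
              mul_le_mul_of_nonneg_left (hb _) (tri_nonneg hl)
        _ = 1 / lam := by rw [integral_mul_const, tri_integral hl, one_mul]
    · intro v hv
      show ∫ w : ℝ, tri lam w * ker lam j (v - w) = 0
      have : ∀ w : ℝ, tri lam w * ker lam j (v - w) = 0 := by
        intro w
        by_cases hw : lam ≤ |w|
        · rw [tri_zero hl hw, zero_mul]
        · push Not at hw
          rw [hz (v - w), mul_zero]
          push_cast at hv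
          have h1 : |v| ≤ |v - w| + |w| := by
            have := abs_add_le (v - w) w
            simpa using this
          nlinarith
      simp only [this, integral_zero]

end Pool.Agent.M17.Helper9.KSZ
end

/- Helper53.KN.Helper67.KC.MVCount -/
section
/-! KC-3 (MP_768c9c_nt): counting zeros by mean values. -/

set_option autoImplicit false
open Filter Topology MeasureTheory
open scoped Classical

namespace Pool.Agent.M17.Helper67.KC

open Pool.Agent.M17.Helper60.KS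

theorem cpow_exp {n : ℕ} (hn : 0 < n) (ρ : ℂ) :
    (n : ℂ) ^ (-ρ) = Complex.exp (((-Real.log n : ℝ) : ℂ) * ρ) := by
  have hn' : (n : ℂ) ≠ 0 := by exact_mod_cast hn.ne'
  have hlog : Complex.log (n : ℂ) = ((Real.log n : ℝ) : ℂ) := by
    rw [← Complex.ofReal_natCast, Complex.ofReal_log (Nat.cast_nonneg n)]
  rw [Complex.cpow_def_of_ne_zero hn', hlog]
  congr 1
  push_cast
  ring

/-- integers at logarithmic distance at most `1/T` -/
theorem close_of_log {n m : ℕ} {T R : ℝ} (hn : 0 < n) (hm : 0 < m) (hT : 0 < T)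
    (hnR : (n : ℝ) ≤ R) (hmR : (m : ℝ) ≤ R) (h : |Real.log n - Real.log m| ≤ 1 / T) :
    |(n : ℝ) - m| ≤ R / T := by
  have key : ∀ a b : ℝ, 0 < a → 0 < b → a ≤ R → Real.log a - Real.log b ≤ 1 / T →
      a - b ≤ R / T := by
    intro a b ha hb haR hab
    have h1 : Real.log (b / a) ≥ -(1 / T) := by
      rw [Real.log_div hb.ne' ha.ne']; (clear * - hab; linarith)
    have h2 : Real.log (b / a) ≤ b / a - 1 := Real.log_le_sub_one_of_pos (by positivity)
    have h3 : 1 - b / a ≤ 1 / T := by (clear * - h1 h2; linarith)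
    have h4 : a - b = a * (1 - b / a) := by (clear * - ha; field_simp)
    have h5 : a * (1 - b / a) ≤ a * (1 / T) := mul_le_mul_of_nonneg_left h3 ha.le
    have h6 : a * (1 / T) ≤ R * (1 / T) := mul_le_mul_of_nonneg_right haR (by positivity)
    rw [h4]
    calc a * (1 - b / a) ≤ R * (1 / T) := h5.trans h6
      _ = R / T := by ring
  have hn' : (0 : ℝ) < n := by exact_mod_cast hn
  have hm' : (0 : ℝ) < m := by exact_mod_cast hm
  have h1 := abs_le.1 h
  rw [abs_le]
  constructor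
  · have := key m n hm' hn' hmR (by (clear * - h1; linarith))
    (clear * - this; linarith)
  · exact key n m hn' hm' hnR (by (clear * - h1; linarith))

theorem card_close (S : Finset ℕ) (n : ℕ) (R : ℝ) (hR : 0 ≤ R) :
    ((S.filter (fun m : ℕ => |(n : ℝ) - (m : ℝ)| ≤ R)).card : ℝ) ≤ 2 * R + 1 := by
  have h1 : (S.filter (fun m : ℕ => |(n : ℝ) - (m : ℝ)| ≤ R)) ⊆ Finset.Icc (n - ⌊R⌋₊) (n + ⌊R⌋₊) := by
    intro m hm
    have h2 := abs_le.1 (Finset.mem_filter.1 hm).2
    rw [Finset.mem_Icc]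
    constructor
    · have : (n : ℝ) ≤ m + R := by linarith
      have h3 : n - m ≤ ⌊R⌋₊ := by
        apply Nat.le_floor
        rcases le_total m n with h | h
        · rw [Nat.cast_sub h]; (clear * - h2; linarith)
        · rw [Nat.sub_eq_zero_of_le h]; simpa using hR
      omega
    · have h3 : m - n ≤ ⌊R⌋₊ := by
        apply Nat.le_floor
        rcases le_total n m with h | h
        · rw [Nat.cast_sub h]; (clear * - h2; linarith)
        · rw [Nat.sub_eq_zero_of_le h]; simpa using hR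
      omega
  have h2 := Finset.card_le_card h1
  rw [Nat.card_Icc] at h2
  have h3 : (S.filter (fun m : ℕ => |(n : ℝ) - (m : ℝ)| ≤ R)).card ≤ 2 * ⌊R⌋₊ + 1 := by omega
  have h4 := Nat.floor_le hR
  have h5 : ((S.filter (fun m : ℕ => |(n : ℝ) - (m : ℝ)| ≤ R)).card : ℝ) ≤ 2 * ⌊R⌋₊ + 1 := by exact_mod_cast h3
  (clear * - h4 h5; linarith)

theorem mvCount (hD : DiscMV) : MVCount := by
  obtain ⟨C, hC, hD⟩ := hD
  intro h hh
  have hhr : (1 : ℝ) ≤ h := by exact_mod_cast hh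
  refine ⟨C * (2 * (h : ℝ) ^ 4), by (clear * - hC hh; positivity), ?_⟩
  intro Z g Q B V b b' T r hQ hT hr hr2 hb hbb hbb' hb1 hV hB hg hZ hZ1 hVρ
  have hQr : (1 : ℝ) ≤ Q := by exact_mod_cast hQ
  have hQ0 : (0 : ℝ) < Q := by (clear * - hr hr2 hQr; linarith)
  have hT0 : 0 < T := by (clear * - hT hr hr2; linarith)
  set S := Finset.Ioc Q (h * Q) with hS
  have hSpos : ∀ n ∈ S, 0 < n := fun n hn => by rw [hS, Finset.mem_Ioc] at hn; omega
  set M : ℝ := (B * B * ((h * (Q : ℝ) ^ (r - b)) * (h * (Q : ℝ) ^ (r - b)))) *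
    ((h * Q) * (2 * (h * Q / T) + 1)) with hM
  have hpair : ∀ σ : ℝ, b - r ≤ σ → σ ≤ b' + r →
      ∑ j ∈ S, ∑ k ∈ S, (if |(-Real.log j) - (-Real.log k)| ≤ 1 / T then
        ‖g j‖ * ‖g k‖ * Real.exp (σ * ((-Real.log j) + (-Real.log k))) else 0) ≤ M := by
    intro σ h1 _
    have hexp : ∀ n ∈ S, Real.exp (σ * (-Real.log n)) ≤ h * (Q : ℝ) ^ (r - b) := by
      intro n hn
      have hn0 : 0 < n := hSpos n hn
      have hnr : (0 : ℝ) < n := by exact_mod_cast hn0
      have hn1 : (1 : ℝ) ≤ n := by exact_mod_cast hn0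
      have hn' := Finset.mem_Ioc.1 hn
      have e : Real.exp (σ * (-Real.log n)) = (n : ℝ) ^ (-σ) := by
        rw [Real.rpow_def_of_pos hnr]; congr 1; ring
      rw [e]
      have h2 : (n : ℝ) ^ (-σ) ≤ (n : ℝ) ^ (r - b) :=
        Real.rpow_le_rpow_of_exponent_le hn1 (by (clear * - h1; linarith))
      refine h2.trans ?_
      have hQpos : 0 < (Q : ℝ) ^ (r - b) := by positivity
      rcases le_total 0 (r - b) with h3 | h3
      · have h4 : (n : ℝ) ≤ h * Q := by exact_mod_cast hn'.2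
        calc (n : ℝ) ^ (r - b) ≤ (h * Q) ^ (r - b) := Real.rpow_le_rpow hnr.le h4 h3
          _ = (h : ℝ) ^ (r - b) * (Q : ℝ) ^ (r - b) := Real.mul_rpow (by (clear * - hhr hr hr2; linarith)) hQ0.le
          _ ≤ (h : ℝ) ^ (1 : ℝ) * (Q : ℝ) ^ (r - b) :=
              mul_le_mul_of_nonneg_right
                (Real.rpow_le_rpow_of_exponent_le hhr (by (clear * - hr hr2 hb; linarith))) hQpos.le
          _ = h * (Q : ℝ) ^ (r - b) := by rw [Real.rpow_one]
      · have h4 : (Q : ℝ) ≤ n := by exact_mod_cast hn'.1.le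
        calc (n : ℝ) ^ (r - b) ≤ (Q : ℝ) ^ (r - b) := Real.rpow_le_rpow_of_nonpos hQ0 h4 h3
          _ = 1 * (Q : ℝ) ^ (r - b) := by ring
          _ ≤ h * (Q : ℝ) ^ (r - b) := by gcongr
    have hQp : 0 ≤ (h : ℝ) * (Q : ℝ) ^ (r - b) := by positivity
    have hterm : ∀ j ∈ S, ∑ k ∈ S, (if |(-Real.log j) - (-Real.log k)| ≤ 1 / T then
        ‖g j‖ * ‖g k‖ * Real.exp (σ * ((-Real.log j) + (-Real.log k))) else 0) ≤
        (B * B * ((h * (Q : ℝ) ^ (r - b)) * (h * (Q : ℝ) ^ (r - b)))) * (2 * (h * Q / T) + 1) := by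
      intro j hj
      have hj' := Finset.mem_Ioc.1 hj
      have hjR : (j : ℝ) ≤ h * Q := by exact_mod_cast hj'.2
      have hle : ∀ k ∈ S, (if |(-Real.log j) - (-Real.log k)| ≤ 1 / T then
          ‖g j‖ * ‖g k‖ * Real.exp (σ * ((-Real.log j) + (-Real.log k))) else 0) ≤
          if |(j : ℝ) - k| ≤ h * Q / T then
            B * B * ((h * (Q : ℝ) ^ (r - b)) * (h * (Q : ℝ) ^ (r - b))) else 0 := by
        intro k hk
        have hk' := Finset.mem_Ioc.1 hk
        have hkR : (k : ℝ) ≤ h * Q := by exact_mod_cast hk'.2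
        by_cases hc : |(-Real.log j) - (-Real.log k)| ≤ 1 / T
        · rw [if_pos hc]
          have hc' : |Real.log j - Real.log k| ≤ 1 / T := by
            rw [show Real.log j - Real.log k = -((-Real.log j) - (-Real.log k)) by ring, abs_neg]
            exact hc
          rw [if_pos (close_of_log (hSpos j hj) (hSpos k hk) hT0 hjR hkR hc')]
          have e : Real.exp (σ * ((-Real.log j) + (-Real.log k))) =
              Real.exp (σ * (-Real.log j)) * Real.exp (σ * (-Real.log k)) := by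
            rw [← Real.exp_add]; congr 1; ring
          rw [e]
          have := hexp j hj
          have := hexp k hk
          have := hg j
          have := hg k
          gcongr
        · rw [if_neg hc]
          split_ifs <;> (clear * - hB hh hQ; positivity)
      refine (Finset.sum_le_sum hle).trans ?_
      rw [← Finset.sum_filter, Finset.sum_const, nsmul_eq_mul, mul_comm]
      exact mul_le_mul_of_nonneg_left (card_close S j _ (by positivity)) (by positivity)
    refine (Finset.sum_le_card_nsmul _ _ _ hterm).trans ?_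
    rw [nsmul_eq_mul, hM]
    have hcard : (S.card : ℝ) ≤ h * Q := by
      rw [hS, Nat.card_Ioc]
      have : h * Q - Q ≤ h * Q := Nat.sub_le _ _
      exact_mod_cast this
    have h5 : 0 ≤ (B * B * ((h * (Q : ℝ) ^ (r - b)) * (h * (Q : ℝ) ^ (r - b)))) *
        (2 * (h * Q / T) + 1) := by (clear * - hB hh hQ hT; positivity)
    calc (S.card : ℝ) * ((B * B * ((h * (Q : ℝ) ^ (r - b)) * (h * (Q : ℝ) ^ (r - b)))) *
          (2 * (h * Q / T) + 1)) ≤ (h * Q) * ((B * B * ((h * (Q : ℝ) ^ (r - b)) *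
            (h * (Q : ℝ) ^ (r - b)))) * (2 * (h * Q / T) + 1)) := by (clear * - hcard hB hh hQ hT; gcongr)
      _ = _ := by ring
  have h1 := hD ℕ S g (fun n => -Real.log n) T b b' r M Z hT hr hr2 hbb hbb' hZ hZ1 hpair
  have h2 : (Z.card : ℝ) * V ^ 2 ≤ ∑ ρ ∈ Z, ‖∑ j ∈ S, g j * Complex.exp
      (((-Real.log j : ℝ) : ℂ) * ρ)‖ ^ 2 := by
    have h3 : ∀ ρ ∈ Z, V ^ 2 ≤ ‖∑ j ∈ S, g j * Complex.exp (((-Real.log j : ℝ) : ℂ) * ρ)‖ ^ 2 := by
      intro ρ hρ
      have h4 := hVρ ρ hρ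
      have e : DP g Q h ρ = ∑ j ∈ S, g j * Complex.exp (((-Real.log j : ℝ) : ℂ) * ρ) := by
        unfold DP
        apply Finset.sum_congr rfl
        intro n hn
        rw [cpow_exp (hSpos n hn)]
      rw [e] at h4
      exact pow_le_pow_left₀ hV.le h4 2
    have := Finset.card_nsmul_le_sum _ _ _ h3
    rwa [nsmul_eq_mul] at this
  refine (h2.trans h1).trans ?_
  have e1 : (Q : ℝ) ^ (1 - 2 * b + 2 * r) = Q * ((Q : ℝ) ^ (r - b) * (Q : ℝ) ^ (r - b)) := by
    rw [← Real.rpow_add hQ0]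
    nth_rewrite 2 [← Real.rpow_one (Q : ℝ)]
    rw [← Real.rpow_add hQ0]
    congr 1
    ring
  rw [e1, hM]
  have hq : 0 ≤ (Q : ℝ) ^ (r - b) := by positivity
  have e2 : C / r ^ 2 * T * ((B * B * ((h * (Q : ℝ) ^ (r - b)) * (h * (Q : ℝ) ^ (r - b)))) *
      ((h * Q) * (2 * (h * Q / T) + 1))) =
      (C * B ^ 2 / r ^ 2 * (Q * ((Q : ℝ) ^ (r - b) * (Q : ℝ) ^ (r - b)))) *
        ((h : ℝ) ^ 3 * (2 * h * Q + T)) := by
    (clear * - hT hh hQ hr hC; field_simp)
  rw [e2]
  have e3 : (h : ℝ) ^ 3 * (2 * h * Q + T) ≤ 2 * (h : ℝ) ^ 4 * (T + Q) := by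
    have h3 : (0 : ℝ) ≤ (h : ℝ) ^ 3 := by positivity
    have h4 : T ≤ 2 * h * T := by (clear * - hhr hr hr2 hT; nlinarith)
    calc (h : ℝ) ^ 3 * (2 * h * Q + T) ≤ (h : ℝ) ^ 3 * (2 * h * Q + 2 * h * T) := by (clear * - h4 hh; gcongr)
      _ = _ := by ring
  calc (C * B ^ 2 / r ^ 2 * (Q * ((Q : ℝ) ^ (r - b) * (Q : ℝ) ^ (r - b)))) *
        ((h : ℝ) ^ 3 * (2 * h * Q + T)) ≤
      (C * B ^ 2 / r ^ 2 * (Q * ((Q : ℝ) ^ (r - b) * (Q : ℝ) ^ (r - b)))) *
        (2 * (h : ℝ) ^ 4 * (T + Q)) := by (clear * - e3 hC hr hQ; gcongr)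
    _ = _ := by ring

end Pool.Agent.M17.Helper67.KC
end

/- Helper53.KN.Helper51.AV.GammaNum -/
section
/-! Project AV, module AV1b: numerical bounds for `e ^ (-γ)`. -/

set_option autoImplicit false

namespace Pool.Agent.M17.Helper51.AV

open Pool.Agent.M17.Helper40.AV Real

theorem harmonic_64 : (harmonic 64 : ℚ) < 4.74390 := by
  decide +kernel

theorem harmonic_63 : 4.72820 < (harmonic 63 : ℚ) := by
  decide +kernel

theorem log64 : Real.log 64 = 6 * Real.log 2 := by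
  rw [show (64 : ℝ) = 2 ^ 6 by norm_num, Real.log_pow]
  norm_num

theorem gamma_lt : eulerMascheroniConstant < 0.58505 := by
  have h1 := eulerMascheroniConstant_lt_eulerMascheroniSeq' 64
  rw [eulerMascheroniSeq', if_neg (by norm_num)] at h1
  have h2 : ((harmonic 64 : ℚ) : ℝ) < 4.74390 := by
    have := (Rat.cast_lt (K := ℝ)).2 harmonic_64
    refine this.trans_eq ?_
    norm_num
  have h3 := Real.log_two_gt_d9
  push_cast at h1
  rw [log64] at h1
  linarith

theorem gamma_gt : (0.569 : ℝ) < eulerMascheroniConstant := by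
  have h1 := eulerMascheroniSeq_lt_eulerMascheroniConstant 63
  rw [eulerMascheroniSeq] at h1
  have h2 : (4.72820 : ℝ) < ((harmonic 63 : ℚ) : ℝ) := by
    have := (Rat.cast_lt (K := ℝ)).2 harmonic_63
    refine lt_of_eq_of_lt ?_ this
    norm_num
  have h3 := Real.log_two_lt_d9
  have h4 : ((63 : ℕ) : ℝ) + 1 = 64 := by norm_num
  rw [h4, log64] at h1
  linarith

theorem gammaNum : GammaNum := by
  constructor
  · have h1 : Real.exp (-0.58505) ≤ Real.exp (-eulerMascheroniConstant) :=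
      Real.exp_le_exp.2 (by have := gamma_lt; linarith)
    refine le_trans ?_ h1
    rw [Real.exp_neg]
    have h2 : Real.exp 0.58505 ≤ 1.7952 := by
      have h3 := Real.exp_bound' (x := (0.58505 : ℝ)) (by norm_num) (by norm_num)
        (n := 8) (by norm_num)
      refine h3.trans ?_
      norm_num [Finset.sum_range_succ, Nat.factorial]
    have h4 : (0.557 : ℝ) ≤ (1.7952)⁻¹ := by norm_num
    exact h4.trans (inv_anti₀ (Real.exp_pos _) h2)
  · have h1 : Real.exp (-eulerMascheroniConstant) ≤ Real.exp (-0.569) :=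
      Real.exp_le_exp.2 (by have := gamma_gt; linarith)
    refine h1.trans ?_
    rw [Real.exp_neg]
    have h2 : 1.765 ≤ Real.exp 0.569 := by
      have h3 := Real.sum_le_exp_of_nonneg (x := (0.569 : ℝ)) (by norm_num) 5
      refine le_trans ?_ h3
      norm_num [Finset.sum_range_succ, Nat.factorial]
    have h4 : (1.765 : ℝ)⁻¹ ≤ 0.57 := by norm_num
    exact (inv_anti₀ (by norm_num) h2).trans h4

end Pool.Agent.M17.Helper51.AV
end

/- Helper53.KN.Helper73.KC.StepA -/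
section
/-! KC-8, part 2: subharmonicity against a family of Gaussians. -/

set_option autoImplicit false
open MeasureTheory Complex

namespace Pool.Agent.M17.Helper73.KC

open Pool.Agent.M17.Helper60.KS (Spaced1 InStrip)

lemma norm_shift (σ t a : ℝ) :
    ‖cexp (((σ : ℂ) + t * I - I * a) ^ 2 / 2)‖ ^ 2 = Real.exp (σ ^ 2 - (t - a) ^ 2) := by
  rw [Complex.norm_exp, ← Real.exp_nat_mul]
  congr 1
  have h1 : ((σ : ℂ) + t * I - I * a) ^ 2 / 2 =
      (((σ ^ 2 - (t - a) ^ 2) / 2 : ℝ) : ℂ) + ((σ * (t - a) : ℝ) : ℂ) * I := by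
    have := Complex.I_sq
    push_cast
    linear_combination (((t : ℂ) - a) ^ 2 / 2) * this
  have h2 : ∀ x y : ℝ, ((x : ℂ) + (y : ℂ) * I).re = x := fun x y => by simp
  rw [h1, h2]
  push_cast
  ring

theorem stepA (h12 : Pool.Agent.M17.Helper10.KSZ.A12') {G : ℂ → ℂ} (hG : Differentiable ℂ G)
    (Z : Finset ℂ) {b b' T r M : ℝ} (hr : 0 < r) (hr2 : r ≤ 1 / 2) (hb0 : 0 ≤ b) (hbb : b ≤ b')
    (hb1 : b' ≤ 1) (hT : 0 ≤ T) (hZ : InStrip Z b b' T) (hsp : Spaced1 Z)
    {κ : Type*} (P : Finset κ) (a : κ → ℝ)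
    (hint : ∀ σ : ℝ, Integrable (fun t : ℝ =>
      (∑ p ∈ P, Real.exp (-(t - a p) ^ 2)) * ‖G (σ + t * I)‖ ^ 2))
    (hM : ∀ σ : ℝ, b - r ≤ σ → σ ≤ b' + r → ∫ t : ℝ,
      (∑ p ∈ P, Real.exp (-(t - a p) ^ 2)) * ‖G (σ + t * I)‖ ^ 2 ≤ M) :
    ∑ ρ ∈ Z, ((P.filter (fun p => |ρ.im - a p| ≤ 1)).card : ℝ) * ‖G ρ‖ ^ 2 ≤
      2 * Real.exp 4 / r ^ 2 * M := by
  set F : κ → ℂ → ℂ := fun p w => G w * cexp ((w - I * a p) ^ 2 / 2) with hF
  have hFd : ∀ p, Differentiable ℂ (F p) := by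
    intro p
    refine hG.mul (Differentiable.cexp ?_)
    exact ((differentiable_id.sub_const _).pow 2).div_const 2
  have hFn : ∀ p (σ t : ℝ), ‖F p (σ + t * I)‖ ^ 2 =
      Real.exp (σ ^ 2) * (Real.exp (-(t - a p) ^ 2) * ‖G (σ + t * I)‖ ^ 2) := by
    intro p σ t
    rw [hF]
    simp only
    rw [norm_mul, mul_pow, norm_shift, show σ ^ 2 - (t - a p) ^ 2 = σ ^ 2 + (-(t - a p) ^ 2) by ring,
      Real.exp_add]
    ring
  -- nonnegativity of M
  have hM0 : 0 ≤ M := by
    refine le_trans ?_ (hM b (by linarith) (by linarith))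
    refine integral_nonneg fun t => ?_
    refine mul_nonneg (Finset.sum_nonneg fun p _ => (Real.exp_pos _).le) (by positivity)
  -- step 1: from G to F
  have h1 : ∀ ρ ∈ Z, ((P.filter (fun p => |ρ.im - a p| ≤ 1)).card : ℝ) * ‖G ρ‖ ^ 2 ≤
      Real.exp 1 * ∑ p ∈ P, ‖F p ρ‖ ^ 2 := by
    intro ρ _
    rw [← nsmul_eq_mul, ← Finset.sum_const, Finset.mul_sum]
    refine (Finset.sum_le_sum (g := fun p => Real.exp 1 * ‖F p ρ‖ ^ 2) fun p hp => ?_).trans
      (Finset.sum_le_sum_of_subset_of_nonneg (Finset.filter_subset _ _) fun p _ _ => by positivity)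
    have hp1 := (Finset.mem_filter.1 hp).2
    have h2 := hFn p ρ.re ρ.im
    rw [Complex.re_add_im] at h2
    rw [h2]
    have h3 : 1 ≤ Real.exp 1 * (Real.exp (ρ.re ^ 2) * Real.exp (-(ρ.im - a p) ^ 2)) := by
      rw [← Real.exp_add, ← Real.exp_add, Real.one_le_exp_iff]
      have : (ρ.im - a p) ^ 2 ≤ 1 := by
        rw [← sq_abs]
        (clear * - hp1 hr hr2; nlinarith [abs_nonneg (ρ.im - a p)])
      (clear * - this; nlinarith [sq_nonneg ρ.re])
    have h4 : 0 ≤ ‖G ρ‖ ^ 2 := by positivity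
    calc ‖G ρ‖ ^ 2 = 1 * ‖G ρ‖ ^ 2 := (one_mul _).symm
      _ ≤ (Real.exp 1 * (Real.exp (ρ.re ^ 2) * Real.exp (-(ρ.im - a p) ^ 2))) * ‖G ρ‖ ^ 2 :=
          mul_le_mul_of_nonneg_right h3 h4
      _ = _ := by ring
  -- step 2: area mean
  set σ₁ := b - r / 2 with hσ₁
  set σ₂ := b' + r / 2 with hσ₂
  set t₁ := -T - r / 2 with ht₁
  set t₂ := T + r / 2 with ht₂
  have h12' : σ₁ ≤ σ₂ := by rw [hσ₁, hσ₂]; (clear * - hr hbb; linarith)
  have ht12 : t₁ ≤ t₂ := by rw [ht₁, ht₂]; (clear * - hr hT; linarith)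
  have h2 : ∀ p, ∑ ρ ∈ Z, ‖F p ρ‖ ^ 2 ≤
      1 / (Real.pi * (r / 2) ^ 2) * ∫ σ in σ₁..σ₂, ∫ t in t₁..t₂, ‖F p (σ + t * I)‖ ^ 2 := by
    intro p
    refine h12 (F p) (hFd p) Z (r / 2) σ₁ σ₂ t₁ t₂ (by (clear * - hr; linarith)) h12' ht12 ?_ ?_
    · intro z hz w hw hzw
      have h3 := hsp z hz w hw hzw
      have h4 : |z.im - w.im| ≤ dist z w := by
        rw [Complex.dist_eq, ← Complex.sub_im]
        exact Complex.abs_im_le_norm _
      (clear * - hr hr2 h3 h4; linarith)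
    · intro z hz
      obtain ⟨h3, h4, h5⟩ := hZ z hz
      rw [abs_le] at h5
      refine ⟨?_, ?_, ?_, ?_⟩ <;> simp only [hσ₁, hσ₂, ht₁, ht₂] <;> (clear * - h3 h5 h4; linarith [h5.1, h5.2])
  -- continuity
  have hcont : ∀ p, Continuous (Function.uncurry fun (σ t : ℝ) => ‖F p (σ + t * I)‖ ^ 2) := by
    intro p
    have h3 : Continuous (F p) := (hFd p).continuous
    have h4 : Continuous (fun x : ℝ × ℝ => ((x.1 : ℂ) + x.2 * I)) := by fun_prop
    have h5 : (Function.uncurry fun (σ t : ℝ) => ‖F p (σ + t * I)‖ ^ 2) =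
        fun x : ℝ × ℝ => ‖F p ((x.1 : ℂ) + x.2 * I)‖ ^ 2 := by
      funext x
      rfl
    rw [h5]
    exact ((h3.comp h4).norm).pow 2
  have hcont1 : ∀ p, Continuous (fun σ : ℝ => ∫ t in t₁..t₂, ‖F p (σ + t * I)‖ ^ 2) := fun p =>
    intervalIntegral.continuous_parametric_intervalIntegral_of_continuous' (hcont p) _ _
  have hcont2 : ∀ p (σ : ℝ), Continuous (fun t : ℝ => ‖F p (σ + t * I)‖ ^ 2) := by
    intro p σ
    have h3 : Continuous (F p) := (hFd p).continuous
    have h4 : Continuous (fun t : ℝ => ((σ : ℂ) + t * I)) := by fun_prop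
    exact ((h3.comp h4).norm).pow 2
  -- the inner bound
  have hinner : ∀ σ : ℝ, b - r ≤ σ → σ ≤ b' + r →
      ∑ p ∈ P, ∫ t in t₁..t₂, ‖F p (σ + t * I)‖ ^ 2 ≤ Real.exp (9 / 4) * M := by
    intro σ hs1 hs2
    rw [← intervalIntegral.integral_finsetSum fun p _ => (hcont2 p σ).intervalIntegrable _ _]
    have h3 : (fun t : ℝ => ∑ p ∈ P, ‖F p (σ + t * I)‖ ^ 2) = fun t : ℝ => Real.exp (σ ^ 2) *
        ((∑ p ∈ P, Real.exp (-(t - a p) ^ 2)) * ‖G (σ + t * I)‖ ^ 2) := by
      funext t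
      rw [Finset.sum_mul, Finset.mul_sum]
      exact Finset.sum_congr rfl fun p _ => hFn p σ t
    rw [h3, intervalIntegral.integral_const_mul, intervalIntegral.integral_of_le ht12]
    have h4 : ∫ t in Set.Ioc t₁ t₂, (∑ p ∈ P, Real.exp (-(t - a p) ^ 2)) * ‖G (σ + t * I)‖ ^ 2 ≤ M := by
      refine le_trans (setIntegral_le_integral (hint σ) (Filter.Eventually.of_forall fun t => ?_))
        (hM σ hs1 hs2)
      exact mul_nonneg (Finset.sum_nonneg fun p _ => (Real.exp_pos _).le) (by (clear * -; positivity))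
    have h5 : Real.exp (σ ^ 2) ≤ Real.exp (9 / 4) := by
      rw [Real.exp_le_exp]
      have h6 : |σ| ≤ 3 / 2 := by
        rw [abs_le]
        constructor <;> (clear * - hr hr2 hb0 hs1 hb1 hs2; linarith)
      calc σ ^ 2 = |σ| ^ 2 := (sq_abs σ).symm
        _ ≤ (3 / 2) ^ 2 := pow_le_pow_left₀ (abs_nonneg _) h6 2
        _ = 9 / 4 := by norm_num
    calc Real.exp (σ ^ 2) * ∫ t in Set.Ioc t₁ t₂,
          (∑ p ∈ P, Real.exp (-(t - a p) ^ 2)) * ‖G (σ + t * I)‖ ^ 2 ≤
        Real.exp (σ ^ 2) * M := mul_le_mul_of_nonneg_left h4 (Real.exp_pos _).le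
      _ ≤ _ := mul_le_mul_of_nonneg_right h5 hM0
  -- the double integral
  have houter : ∑ p ∈ P, ∫ σ in σ₁..σ₂, ∫ t in t₁..t₂, ‖F p (σ + t * I)‖ ^ 2 ≤
      Real.exp (9 / 4) * M * (3 / 2) := by
    rw [← intervalIntegral.integral_finsetSum fun p _ => (hcont1 p).intervalIntegrable _ _]
    have h3 := intervalIntegral.norm_integral_le_of_norm_le_const (a := σ₁) (b := σ₂)
      (f := fun σ : ℝ => ∑ p ∈ P, ∫ t in t₁..t₂, ‖F p (σ + t * I)‖ ^ 2)
      (C := Real.exp (9 / 4) * M) (fun σ hσ => by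
        rw [Set.uIoc_of_le h12'] at hσ
        have h4 : 0 ≤ ∑ p ∈ P, ∫ t in t₁..t₂, ‖F p (σ + t * I)‖ ^ 2 :=
          Finset.sum_nonneg fun p _ => intervalIntegral.integral_nonneg ht12 fun t _ => by (clear * -; positivity)
        rw [Real.norm_of_nonneg h4]
        refine hinner σ ?_ ?_
        · have := hσ.1
          rw [hσ₁] at this
          (clear * - hr this; linarith)
        · have := hσ.2
          rw [hσ₂] at this
          (clear * - hr this; linarith))
    refine (Real.le_norm_self _).trans (h3.trans ?_)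
    refine mul_le_mul_of_nonneg_left ?_ (by positivity)
    rw [abs_of_nonneg (by (clear * - hr hbb hσ₁; linarith)), hσ₁, hσ₂]
    (clear * - hr2 hb0 hb1; linarith)
  -- assembly
  have hpi : 0 < Real.pi := Real.pi_pos
  calc ∑ ρ ∈ Z, ((P.filter (fun p => |ρ.im - a p| ≤ 1)).card : ℝ) * ‖G ρ‖ ^ 2
      ≤ ∑ ρ ∈ Z, Real.exp 1 * ∑ p ∈ P, ‖F p ρ‖ ^ 2 := Finset.sum_le_sum h1
    _ = Real.exp 1 * ∑ p ∈ P, ∑ ρ ∈ Z, ‖F p ρ‖ ^ 2 := by
        rw [← Finset.mul_sum, Finset.sum_comm]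
    _ ≤ Real.exp 1 * ∑ p ∈ P, (1 / (Real.pi * (r / 2) ^ 2) *
          ∫ σ in σ₁..σ₂, ∫ t in t₁..t₂, ‖F p (σ + t * I)‖ ^ 2) := by
        refine mul_le_mul_of_nonneg_left (Finset.sum_le_sum fun p _ => h2 p) (Real.exp_pos _).le
    _ = Real.exp 1 * (1 / (Real.pi * (r / 2) ^ 2)) *
          ∑ p ∈ P, ∫ σ in σ₁..σ₂, ∫ t in t₁..t₂, ‖F p (σ + t * I)‖ ^ 2 := by
        rw [← Finset.mul_sum]; ring
    _ ≤ Real.exp 1 * (1 / (Real.pi * (r / 2) ^ 2)) * (Real.exp (9 / 4) * M * (3 / 2)) := by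
        refine mul_le_mul_of_nonneg_left houter (by positivity)
    _ = (Real.exp 1 * Real.exp (9 / 4)) * (6 / Real.pi) / r ^ 2 * M := by
        field_simp
        ring
    _ ≤ 2 * Real.exp 4 / r ^ 2 * M := by
        refine mul_le_mul_of_nonneg_right ?_ hM0
        refine div_le_div_of_nonneg_right ?_ (by positivity)
        rw [← Real.exp_add]
        have h3 : Real.exp (1 + 9 / 4) ≤ Real.exp 4 := by
          rw [Real.exp_le_exp]; norm_num
        have h4 : 6 / Real.pi ≤ 2 := by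
          rw [div_le_iff₀ hpi]
          (clear * -; linarith [Real.pi_gt_three])
        calc Real.exp (1 + 9 / 4) * (6 / Real.pi) ≤ Real.exp 4 * 2 :=
              mul_le_mul h3 h4 (by positivity) (Real.exp_pos _).le
          _ = _ := by ring

end Pool.Agent.M17.Helper73.KC
end
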