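import Mathlib
import Pool.Agent.Helper53.KM.G02
import Pool.Agent.Helper53.KM.G09
import Pool.Agent.Helper53.KM.G10

/- Helper53.KN.Helper52.QRH.Explicit -/
section
/-! Project QRH, module A4: explicit formula with the triangle kernel. -/

set_option autoImplicit false
open Filter Topology MeasureTheory

namespace Pool.Agent.M17.Helper52.QRH

open Pool.Agent.M17.Helper10.QRH

namespace Expl

lemma tri_zero {lam v : ℝ} (hl : 0 < lam) (h : lam ≤ |v|) : tri lam v = 0 := by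
  unfold tri
  have : 1 - |v| / lam ≤ 0 := by
    rw [sub_nonpos, le_div_iff₀ hl]; (clear * - h; linarith)
  rw [max_eq_left this]; simp

lemma integral3 {f g h : ℝ → ℂ} (hf : Integrable f) (hg : Integrable g) (hh : Integrable h) :
    ∫ t : ℝ, (f t + g t - h t) = (∫ t, f t) + (∫ t, g t) - ∫ t, h t := by
  have h1 : ∫ t : ℝ, (f t + g t - h t) = ∫ t : ℝ, ((f + g) t - h t) := rfl
  rw [h1, integral_sub (hf.add hg) hh]
  have h2 : ∫ t : ℝ, (f + g) t = ∫ t : ℝ, (f t + g t) := rfl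
  rw [h2, integral_add hf hg]

lemma two_pi_cancel (z : ℂ) : 2 * (Real.pi : ℂ) * (1 / (2 * (Real.pi : ℂ)) * z) = z := by
  have hpc : (Real.pi : ℂ) ≠ 0 := by exact_mod_cast Real.pi_pos.ne'
  field_simp

lemma line_re (c t : ℝ) : ((c : ℂ) + t * Complex.I).re = c := by simp
lemma line_im (c t : ℝ) : ((c : ℂ) + t * Complex.I).im = t := by simp

section
variable (hK : KFacts) {lam : ℝ} (hl : 0 < lam) (hl1 : lam ≤ 1)
include hK hl

lemma KK_cont (c : ℝ) : Continuous (fun t : ℝ => KK lam (c + t * Complex.I)) := by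
  have := (hK.diff lam hl).continuous
  exact this.comp (by fun_prop)

include hl1

lemma KK_integrable (c : ℝ) (h0 : 0 ≤ c) (h2 : c ≤ 2) :
    Integrable (fun t : ℝ => KK lam (c + t * Complex.I)) := by
  obtain ⟨C, hC⟩ := hK.bound
  have h := (integrable_inv_one_add_sq.comp_mul_left' hl.ne').const_mul C
  refine h.mono' (KK_cont hK hl c).aestronglyMeasurable (Filter.Eventually.of_forall fun t => ?_)
  have := hC lam hl hl1 (c + t * Complex.I) (by simpa using h0) (by simpa using h2)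
  rwa [line_im, div_eq_mul_inv] at this

omit hK hl hl1 in
lemma norm_exp_line (c t u : ℝ) : ‖Complex.exp ((c + t * Complex.I) * u)‖ = Real.exp (c * u) := by
  rw [Complex.norm_exp]
  congr 1
  simp

lemma A_integrable (c : ℝ) (h0 : 0 ≤ c) (h2 : c ≤ 2) (u : ℝ) :
    Integrable (fun t : ℝ => KK lam (c + t * Complex.I) * Complex.exp ((c + t * Complex.I) * u)) := by
  refine (KK_integrable hK hl hl1 c h0 h2).mul_bdd (c := Real.exp (c * u)) ?_ ?_
  · exact Continuous.aestronglyMeasurable (by fun_prop)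
  · exact Filter.Eventually.of_forall fun t => (norm_exp_line c t u).le

/-- the polar terms -/
lemma polar (u : ℝ) (hu : 1 ≤ u) (ρ : ℂ) (hρ : ρ.re < 2) :
    Integrable (fun t : ℝ => KK lam ((2 : ℝ) + t * Complex.I) * (1 / (((2 : ℝ) + t * Complex.I) - ρ)) *
      Complex.exp (((2 : ℝ) + t * Complex.I) * u)) ∧
    ∫ t : ℝ, KK lam ((2 : ℝ) + t * Complex.I) * (1 / (((2 : ℝ) + t * Complex.I) - ρ)) *
      Complex.exp (((2 : ℝ) + t * Complex.I) * u) = 2 * Real.pi * (Complex.exp (ρ * u) * KK lam ρ) := by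
  set A : ℝ → ℂ := fun t => KK lam ((2 : ℝ) + t * Complex.I) * Complex.exp (((2 : ℝ) + t * Complex.I) * u)
    with hA
  have hAi : Integrable A := A_integrable hK hl hl1 2 (by norm_num) le_rfl u
  have hr : (ρ - 2).re < 0 := by simp; linarith
  have hBi : Integrable (fun v : ℝ => Complex.exp ((ρ - 2) * v)) (volume.restrict (Set.Ioi 0)) :=
    integrableOn_exp_mul_complex_Ioi hr 0
  have hne : ∀ t : ℝ, ((2 : ℝ) + t * Complex.I : ℂ) - ρ ≠ 0 := by
    intro t h
    have := congrArg Complex.re h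
    simp at this
    linarith
  have hinv : ∀ t : ℝ, (1 / ((((2 : ℝ) : ℂ) + t * Complex.I) - ρ)) =
      ∫ v in Set.Ioi (0 : ℝ), Complex.exp ((ρ - ((2 : ℝ) + t * Complex.I)) * v) := by
    intro t
    have hr' : (ρ - ((2 : ℝ) + t * Complex.I)).re < 0 := by simp; linarith
    rw [integral_exp_mul_complex_Ioi hr' 0]
    have h1 := hne t
    have h2 : ρ - (((2 : ℝ) : ℂ) + t * Complex.I) ≠ 0 := fun h => h1 (by rw [← neg_sub, h, neg_zero])
    simp only [Complex.ofReal_zero, mul_zero, Complex.exp_zero]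
    rw [div_eq_div_iff h1 h2]; ring
  -- the function on the product
  set f : ℝ → ℝ → ℂ := fun t v => A t * Complex.exp ((ρ - ((2 : ℝ) + t * Complex.I)) * v) with hf
  have hfi : Integrable (Function.uncurry f) (volume.prod (volume.restrict (Set.Ioi 0))) := by
    have h1 := hAi.mul_prod hBi
    have h2 : Integrable (fun z : ℝ × ℝ => (A z.1 * Complex.exp ((ρ - 2) * z.2)) *
        Complex.exp (((-(z.1 * z.2) : ℝ) : ℂ) * Complex.I)) (volume.prod (volume.restrict (Set.Ioi 0))) := by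
      refine h1.mul_bdd (c := 1) ?_ ?_
      · exact Continuous.aestronglyMeasurable (by fun_prop)
      · exact Filter.Eventually.of_forall fun z => by rw [Complex.norm_exp_ofReal_mul_I]
    refine h2.congr (Filter.Eventually.of_forall fun z => ?_)
    simp only [Function.uncurry, hf]
    rw [mul_assoc, ← Complex.exp_add]
    congr 2
    push_cast; ring
  have hcomb : ∀ t : ℝ, KK lam ((2 : ℝ) + t * Complex.I) * (1 / (((2 : ℝ) + t * Complex.I) - ρ)) *
      Complex.exp (((2 : ℝ) + t * Complex.I) * u) = ∫ v in Set.Ioi (0 : ℝ), f t v := by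
    intro t
    rw [hinv t, hf]
    simp only
    rw [integral_const_mul, hA]
    ring
  simp only [hcomb]
  refine ⟨hfi.integral_prod_left, ?_⟩
  rw [integral_integral_swap hfi]
  have hin : ∀ v : ℝ, ∫ t : ℝ, f t v = Complex.exp (ρ * v) * (2 * Real.pi * (tri lam (u - v) : ℂ)) := by
    intro v
    rw [hK.inv lam 2 (u - v) hl]
    have : ∀ t : ℝ, f t v = Complex.exp (ρ * v) * (KK lam ((2 : ℝ) + t * Complex.I) *
        Complex.exp (((2 : ℝ) + t * Complex.I) * ((u - v : ℝ) : ℂ))) := by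
      intro t
      simp only [hf, hA]
      rw [mul_assoc, ← Complex.exp_add, mul_left_comm, ← Complex.exp_add]
      congr 2
      push_cast; ring
    simp only [this]
    rw [integral_const_mul, two_pi_cancel]
  simp only [hin]
  have hset : ∫ v in Set.Ioi (0 : ℝ), Complex.exp (ρ * v) * (2 * Real.pi * (tri lam (u - v) : ℂ)) =
      ∫ v : ℝ, Complex.exp (ρ * v) * (2 * Real.pi * (tri lam (u - v) : ℂ)) := by
    refine setIntegral_eq_integral_of_forall_compl_eq_zero fun v hv => ?_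
    simp only [Set.mem_Ioi, not_lt] at hv
    rw [tri_zero hl (by rw [abs_of_nonneg (by linarith)]; linarith)]
    simp
  rw [hset]
  have hsub := integral_sub_left_eq_self
    (fun w : ℝ => Complex.exp (ρ * ((u - w : ℝ) : ℂ)) * (2 * Real.pi * (tri lam w : ℂ))) volume u
  simp only [sub_sub_cancel] at hsub
  rw [hsub]
  unfold KK
  rw [← integral_const_mul, ← integral_const_mul]
  congr 1
  ext w
  have : Complex.exp (ρ * ((u - w : ℝ) : ℂ)) = Complex.exp (ρ * u) * Complex.exp (-ρ * w) := by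
    rw [← Complex.exp_add]; congr 1; push_cast; ring
  rw [this]
  ring

lemma polar_sum (u : ℝ) (hu : 1 ≤ u) (M : Multiset ℂ) : (∀ ρ ∈ M, ρ.re < 2) →
    Integrable (fun t : ℝ => KK lam ((2 : ℝ) + t * Complex.I) *
      (M.map (fun ρ => 1 / (((2 : ℝ) + t * Complex.I) - ρ))).sum *
      Complex.exp (((2 : ℝ) + t * Complex.I) * u)) ∧
    ∫ t : ℝ, KK lam ((2 : ℝ) + t * Complex.I) * (M.map (fun ρ => 1 / (((2 : ℝ) + t * Complex.I) - ρ))).sum *
      Complex.exp (((2 : ℝ) + t * Complex.I) * u) =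
      2 * Real.pi * (M.map (fun ρ => Complex.exp (ρ * u) * KK lam ρ)).sum := by
  refine Multiset.induction_on M ?_ ?_
  · intro _
    simp
  · intro a s ih hs
    obtain ⟨i1, e1⟩ := ih (fun ρ hρ => hs ρ (Multiset.mem_cons_of_mem hρ))
    obtain ⟨i2, e2⟩ := polar hK hl hl1 u hu a (hs a (Multiset.mem_cons_self a s))
    have : ∀ t : ℝ, KK lam ((2 : ℝ) + t * Complex.I) *
      ((a ::ₘ s).map (fun ρ => 1 / (((2 : ℝ) + t * Complex.I) - ρ))).sum *
      Complex.exp (((2 : ℝ) + t * Complex.I) * u) =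
      KK lam ((2 : ℝ) + t * Complex.I) * (1 / (((2 : ℝ) + t * Complex.I) - a)) *
      Complex.exp (((2 : ℝ) + t * Complex.I) * u) +
      KK lam ((2 : ℝ) + t * Complex.I) * (s.map (fun ρ => 1 / (((2 : ℝ) + t * Complex.I) - ρ))).sum *
      Complex.exp (((2 : ℝ) + t * Complex.I) * u) := by
      intro t
      rw [Multiset.map_cons, Multiset.sum_cons]
      ring
    simp only [this]
    refine ⟨i2.add i1, ?_⟩
    rw [integral_add i2 i1, e1, e2, Multiset.map_cons, Multiset.sum_cons]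
    ring

/-- the Dirichlet series term -/
lemma series (u : ℝ) :
    ∫ t : ℝ, KK lam ((2 : ℝ) + t * Complex.I) *
      LSeries (fun n => (ArithmeticFunction.vonMangoldt n : ℂ)) ((2 : ℝ) + t * Complex.I) *
      Complex.exp (((2 : ℝ) + t * Complex.I) * u) =
      2 * Real.pi * ((∑' n : ℕ, ArithmeticFunction.vonMangoldt n * tri lam (u - Real.log n) : ℝ) : ℂ) := by
  set F : ℕ → ℝ → ℂ := fun n t => KK lam ((2 : ℝ) + t * Complex.I) *
      LSeries.term (fun n => (ArithmeticFunction.vonMangoldt n : ℂ)) ((2 : ℝ) + t * Complex.I) n *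
      Complex.exp (((2 : ℝ) + t * Complex.I) * u) with hF
  have hFe : ∀ n t, F n t = (ArithmeticFunction.vonMangoldt n : ℂ) * (KK lam ((2 : ℝ) + t * Complex.I) *
      Complex.exp (((2 : ℝ) + t * Complex.I) * ((u - Real.log n : ℝ) : ℂ))) := by
    intro n t
    rcases Nat.eq_zero_or_pos n with rfl | hn
    · simp [hF]
    · simp only [hF]
      rw [LSeries.term_of_ne_zero hn.ne']
      have hnc : (n : ℂ) ≠ 0 := by exact_mod_cast hn.ne'
      rw [Complex.cpow_def_of_ne_zero hnc, div_eq_mul_inv, ← Complex.exp_neg]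
      have h2 : Complex.exp (((2 : ℝ) + t * Complex.I) * ((u - Real.log n : ℝ) : ℂ)) =
        Complex.exp (-(Complex.log n * ((2 : ℝ) + t * Complex.I))) *
          Complex.exp (((2 : ℝ) + t * Complex.I) * u) := by
        rw [← Complex.exp_add]
        congr 1
        rw [← Complex.natCast_log]
        push_cast
        ring
      rw [h2]
      ring
  have hFi : ∀ n, Integrable (F n) := by
    intro n
    have := (A_integrable hK hl hl1 2 (by norm_num) le_rfl (u - Real.log n)).const_mul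
      (ArithmeticFunction.vonMangoldt n : ℂ)
    refine this.congr (Filter.Eventually.of_forall fun t => ?_)
    exact (hFe n t).symm
  have hsum : Summable (fun n => ∫ t, ‖F n t‖) := by
    have h1 : LSeriesSummable (fun n => (ArithmeticFunction.vonMangoldt n : ℂ)) ((2 : ℝ) : ℂ) :=
      ArithmeticFunction.LSeriesSummable_vonMangoldt (by simp)
    have h2 := (h1.norm).mul_right (Real.exp (2 * u) * ∫ t : ℝ, ‖KK lam ((2 : ℝ) + t * Complex.I)‖)
    refine h2.congr fun n => ?_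
    have : ∀ t : ℝ, ‖F n t‖ = (‖LSeries.term (fun n => (ArithmeticFunction.vonMangoldt n : ℂ)) ((2 : ℝ) : ℂ) n‖ *
        Real.exp (2 * u)) * ‖KK lam ((2 : ℝ) + t * Complex.I)‖ := by
      intro t
      simp only [hF]
      rw [norm_mul, norm_mul, norm_exp_line]
      rw [LSeries.norm_term_eq, LSeries.norm_term_eq, line_re, Complex.ofReal_re]
      ring
    simp only [this]
    rw [integral_const_mul]
    ring
  have hs := hasSum_integral_of_summable_integral_norm hFi hsum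
  have e1 : ∫ t : ℝ, ∑' n, F n t = ∫ t : ℝ, KK lam ((2 : ℝ) + t * Complex.I) *
      LSeries (fun n => (ArithmeticFunction.vonMangoldt n : ℂ)) ((2 : ℝ) + t * Complex.I) *
      Complex.exp (((2 : ℝ) + t * Complex.I) * u) := by
    congr 1
    ext t
    simp only [hF, LSeries]
    rw [tsum_mul_right, tsum_mul_left]
  rw [← e1, ← hs.tsum_eq]
  have e2 : ∀ n : ℕ, ∫ t : ℝ, F n t = 2 * Real.pi *
      ((ArithmeticFunction.vonMangoldt n * tri lam (u - Real.log n) : ℝ) : ℂ) := by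
    intro n
    simp only [hFe]
    rw [integral_const_mul]
    have := hK.inv lam 2 (u - Real.log n) hl
    rw [Complex.ofReal_mul, this, mul_left_comm, two_pi_cancel]
  simp only [e2]
  rw [tsum_mul_left, Complex.ofReal_tsum]

end

end Expl

end Pool.Agent.M17.Helper52.QRH
end

/- Helper53.KN.Helper1.KL.E6 -/
section
/-! Helper48/KSZ/E6.lean adapted to the line 0.575 (box 57/100) by helper1 -/

set_option autoImplicit false
open Filter Topology MeasureTheory Complex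
open scoped Classical

namespace Pool.Agent.M17.Helper1.KL

open Pool.Agent.M17.Helper10.QRH Pool.Agent.M17.Helper69.QRH 
open Pool.Agent.M17.Helper52.QRH Pool.Agent.M17.Helper52.QRH.Expl

theorem e6_ne {T : ℝ} {M : Multiset ℂ} {Z : ℂ → ℂ} (hB : Box T M Z) {s : ℂ} (hs : 1 < s.re) :
    Z s ≠ 0 := by
  intro h
  have h1 := hB.eq s
  rw [h, mul_zero] at h1
  have hs1 : s ≠ 1 := by
    rintro rfl
    simp at hs
  rw [EZ_eq hs1] at h1
  rcases mul_eq_zero.1 h1 with h2 | h2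
  · exact hs1 (sub_eq_zero.1 h2)
  · exact riemannZeta_ne_zero_of_one_lt_re hs h2

theorem e6_logDeriv {T : ℝ} {M : Multiset ℂ} {Z : ℂ → ℂ} (hB : Box T M Z) {s : ℂ}
    (hs : 1 < s.re) :
    -logDeriv Z s = LSeries (fun n => (ArithmeticFunction.vonMangoldt n : ℂ)) s
        - 1 / (s - 1) + (M.map (fun ρ => 1 / (s - ρ))).sum := by
  have hsM : ∀ ρ ∈ M, s ≠ ρ := by
    rintro ρ hρ rfl
    have := (hB.mem s hρ).2.2.1
    linarith
  have h1 : logDeriv EZ s = logDeriv (Qp M) s + logDeriv Z s := by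
    have h2 : EZ = fun z => Qp M z * Z z := funext hB.eq
    rw [h2, logDeriv_mul s (Qp_ne_zero M s hsM) (e6_ne hB hs)
      (Qp_differentiable M s) (hB.diff s)]
  rw [logDeriv_EZ hs, logDeriv_Qp M s hsM] at h1
  linear_combination h1

theorem lineTwo (hK : KFacts) (hG : GBound) : LineTwo := by
  intro T M Z hT hB lam u hl hl1 hu
  obtain ⟨C, hC, hGb⟩ := hG
  obtain ⟨-, hG2⟩ := hGb T M Z hT hB
  have hs1 : ∀ t : ℝ, 1 < (((2 : ℝ) : ℂ) + t * Complex.I).re := by
    intro t; rw [line_re]; norm_num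
  -- continuity of the logarithmic derivative on the line
  have hdZ : Differentiable ℂ (deriv Z) := by
    have h1 := hB.diff.differentiableOn.deriv isOpen_univ
    rwa [differentiableOn_univ] at h1
  have hcont : Continuous (fun t : ℝ => -logDeriv Z (((2 : ℝ) : ℂ) + t * Complex.I)) := by
    have h1 : Continuous (fun t : ℝ => deriv Z (((2 : ℝ) : ℂ) + t * Complex.I)) :=
      hdZ.continuous.comp (by fun_prop)
    have h2 : Continuous (fun t : ℝ => Z (((2 : ℝ) : ℂ) + t * Complex.I)) :=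
      hB.diff.continuous.comp (by fun_prop)
    have h3 := (h1.div h2 (fun t => e6_ne hB (hs1 t))).neg
    exact h3
  set J : ℝ → ℂ := fun t => KK lam (((2 : ℝ) : ℂ) + t * Complex.I) *
      (-logDeriv Z (((2 : ℝ) : ℂ) + t * Complex.I)) * Complex.exp ((((2 : ℝ) : ℂ) + t * Complex.I) * u)
    with hJ
  have iJ : Integrable J := by
    have hA := A_integrable hK hl hl1 2 (by norm_num) le_rfl u
    have h1 := hA.mul_bdd (c := C * (Real.log (T + 2)) ^ 2)
      (g := fun t : ℝ => -logDeriv Z (((2 : ℝ) : ℂ) + t * Complex.I)) hcont.aestronglyMeasurable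
      (Filter.Eventually.of_forall fun t => by
        rw [norm_neg]
        have := hG2 t
        simpa using this)
    refine h1.congr (Filter.Eventually.of_forall fun t => ?_)
    simp only [hJ]
    ring
  refine ⟨iJ, ?_⟩
  have hmem : ∀ ρ ∈ M, ρ.re < 2 := fun ρ hρ => by linarith [(hB.mem ρ hρ).2.2.1]
  obtain ⟨ip, ep⟩ := polar_sum hK hl hl1 u hu M hmem
  obtain ⟨i1, e1⟩ := polar hK hl hl1 u hu 1 (by simp)
  have es := series hK hl hl1 u
  have hdecomp : ∀ t : ℝ, KK lam ((2 : ℝ) + t * Complex.I) *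
      LSeries (fun n => (ArithmeticFunction.vonMangoldt n : ℂ)) ((2 : ℝ) + t * Complex.I) *
      Complex.exp (((2 : ℝ) + t * Complex.I) * u) = J t +
      KK lam ((2 : ℝ) + t * Complex.I) * (1 / (((2 : ℝ) + t * Complex.I) - 1)) *
      Complex.exp (((2 : ℝ) + t * Complex.I) * u) -
      KK lam ((2 : ℝ) + t * Complex.I) * (M.map (fun ρ => 1 / (((2 : ℝ) + t * Complex.I) - ρ))).sum *
      Complex.exp (((2 : ℝ) + t * Complex.I) * u) := by
    intro t
    have := e6_logDeriv hB (hs1 t)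
    simp only [hJ]
    rw [this]
    ring
  simp only [hdecomp] at es
  rw [integral3 iJ i1 ip, ep, e1] at es
  have hfin : ∫ t : ℝ, J t = 2 * Real.pi * lhs (tri lam) 1 lam M u := by
    unfold lhs
    simp only [pow_one]
    rw [one_mul] at es
    linear_combination es
  have hpc : (Real.pi : ℂ) ≠ 0 := by exact_mod_cast Real.pi_pos.ne'
  rw [show (∫ t : ℝ, KK lam ((2 : ℝ) + t * Complex.I) *
      (-logDeriv Z ((2 : ℝ) + t * Complex.I)) * Complex.exp (((2 : ℝ) + t * Complex.I) * u)) =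
      ∫ t : ℝ, J t from rfl, hfin,
    ← mul_assoc, one_div, inv_mul_cancel₀ (by simp), one_mul]

end Pool.Agent.M17.Helper1.KL
end

/- Helper53.KN.Helper48.KSZ.E6 -/
section
/-!
# KSZ-E6: the explicit identity on the line of real part two
-/

set_option autoImplicit false
open Filter Topology MeasureTheory Complex
open scoped Classical

namespace Pool.Agent.M17.Helper48.KSZ

open Pool.Agent.M17.Helper10.QRH Pool.Agent.M17.Helper69.QRH Pool.Agent.M17.Helper46.KSZ
open Pool.Agent.M17.Helper52.QRH Pool.Agent.M17.Helper52.QRH.Expl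

theorem e6_ne {T : ℝ} {M : Multiset ℂ} {Z : ℂ → ℂ} (hB : Box T M Z) {s : ℂ} (hs : 1 < s.re) :
    Z s ≠ 0 := by
  intro h
  have h1 := hB.eq s
  rw [h, mul_zero] at h1
  have hs1 : s ≠ 1 := by
    rintro rfl
    simp at hs
  rw [EZ_eq hs1] at h1
  rcases mul_eq_zero.1 h1 with h2 | h2
  · exact hs1 (sub_eq_zero.1 h2)
  · exact riemannZeta_ne_zero_of_one_lt_re hs h2

theorem e6_logDeriv {T : ℝ} {M : Multiset ℂ} {Z : ℂ → ℂ} (hB : Box T M Z) {s : ℂ}
    (hs : 1 < s.re) :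
    -logDeriv Z s = LSeries (fun n => (ArithmeticFunction.vonMangoldt n : ℂ)) s
        - 1 / (s - 1) + (M.map (fun ρ => 1 / (s - ρ))).sum := by
  have hsM : ∀ ρ ∈ M, s ≠ ρ := by
    rintro ρ hρ rfl
    have := (hB.mem s hρ).2.2.1
    linarith
  have h1 : logDeriv EZ s = logDeriv (Qp M) s + logDeriv Z s := by
    have h2 : EZ = fun z => Qp M z * Z z := funext hB.eq
    rw [h2, logDeriv_mul s (Qp_ne_zero M s hsM) (e6_ne hB hs)
      (Qp_differentiable M s) (hB.diff s)]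
  rw [logDeriv_EZ hs, logDeriv_Qp M s hsM] at h1
  linear_combination h1

theorem lineTwo (hK : KFacts) (hG : GBound) : LineTwo := by
  intro T M Z hT hB lam u hl hl1 hu
  obtain ⟨C, hC, hGb⟩ := hG
  obtain ⟨-, hG2⟩ := hGb T M Z hT hB
  have hs1 : ∀ t : ℝ, 1 < (((2 : ℝ) : ℂ) + t * Complex.I).re := by
    intro t; rw [line_re]; norm_num
  -- continuity of the logarithmic derivative on the line
  have hdZ : Differentiable ℂ (deriv Z) := by
    have h1 := hB.diff.differentiableOn.deriv isOpen_univ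
    rwa [differentiableOn_univ] at h1
  have hcont : Continuous (fun t : ℝ => -logDeriv Z (((2 : ℝ) : ℂ) + t * Complex.I)) := by
    have h1 : Continuous (fun t : ℝ => deriv Z (((2 : ℝ) : ℂ) + t * Complex.I)) :=
      hdZ.continuous.comp (by fun_prop)
    have h2 : Continuous (fun t : ℝ => Z (((2 : ℝ) : ℂ) + t * Complex.I)) :=
      hB.diff.continuous.comp (by fun_prop)
    have h3 := (h1.div h2 (fun t => e6_ne hB (hs1 t))).neg
    exact h3
  set J : ℝ → ℂ := fun t => KK lam (((2 : ℝ) : ℂ) + t * Complex.I) *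
      (-logDeriv Z (((2 : ℝ) : ℂ) + t * Complex.I)) * Complex.exp ((((2 : ℝ) : ℂ) + t * Complex.I) * u)
    with hJ
  have iJ : Integrable J := by
    have hA := A_integrable hK hl hl1 2 (by norm_num) le_rfl u
    have h1 := hA.mul_bdd (c := C * (Real.log (T + 2)) ^ 2)
      (g := fun t : ℝ => -logDeriv Z (((2 : ℝ) : ℂ) + t * Complex.I)) hcont.aestronglyMeasurable
      (Filter.Eventually.of_forall fun t => by
        rw [norm_neg]
        have := hG2 t
        simpa using this)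
    refine h1.congr (Filter.Eventually.of_forall fun t => ?_)
    simp only [hJ]
    ring
  refine ⟨iJ, ?_⟩
  have hmem : ∀ ρ ∈ M, ρ.re < 2 := fun ρ hρ => by linarith [(hB.mem ρ hρ).2.2.1]
  obtain ⟨ip, ep⟩ := polar_sum hK hl hl1 u hu M hmem
  obtain ⟨i1, e1⟩ := polar hK hl hl1 u hu 1 (by simp)
  have es := series hK hl hl1 u
  have hdecomp : ∀ t : ℝ, KK lam ((2 : ℝ) + t * Complex.I) *
      LSeries (fun n => (ArithmeticFunction.vonMangoldt n : ℂ)) ((2 : ℝ) + t * Complex.I) *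
      Complex.exp (((2 : ℝ) + t * Complex.I) * u) = J t +
      KK lam ((2 : ℝ) + t * Complex.I) * (1 / (((2 : ℝ) + t * Complex.I) - 1)) *
      Complex.exp (((2 : ℝ) + t * Complex.I) * u) -
      KK lam ((2 : ℝ) + t * Complex.I) * (M.map (fun ρ => 1 / (((2 : ℝ) + t * Complex.I) - ρ))).sum *
      Complex.exp (((2 : ℝ) + t * Complex.I) * u) := by
    intro t
    have := e6_logDeriv hB (hs1 t)
    simp only [hJ]
    rw [this]
    ring
  simp only [hdecomp] at es
  rw [integral3 iJ i1 ip, ep, e1] at es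
  have hfin : ∫ t : ℝ, J t = 2 * Real.pi * lhs (tri lam) 1 lam M u := by
    unfold lhs
    simp only [pow_one]
    rw [one_mul] at es
    linear_combination es
  have hpc : (Real.pi : ℂ) ≠ 0 := by exact_mod_cast Real.pi_pos.ne'
  rw [show (∫ t : ℝ, KK lam ((2 : ℝ) + t * Complex.I) *
      (-logDeriv Z ((2 : ℝ) + t * Complex.I)) * Complex.exp (((2 : ℝ) + t * Complex.I) * u)) =
      ∫ t : ℝ, J t from rfl, hfin,
    ← mul_assoc, one_div, inv_mul_cancel₀ (by simp), one_mul]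

end Pool.Agent.M17.Helper48.KSZ
end

/- Helper53.KN.Helper60.KG.LineFew -/
section
/-! KG-1, the line integral is small outside of few cells -/

set_option autoImplicit false
open Filter Topology MeasureTheory

namespace Pool.Agent.M17.Helper60.KG

open Pool.Agent.M17.Helper10.QRH Pool.Agent.M17.Helper69.QRH Pool.Agent.M17.Helper46.KSZ Pool.Agent.M17.Helper8.KSZ
open Pool.Agent.M17.Helper8.KSZ.LF (cc cc_pos cc_eq uu_eq lamk_pos)

/-- the line integral is small outside of few cells -/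
def LineFewG : Prop := ∀ (p : ℕ) (d η : ℝ), 1 ≤ p → -(1 / 2) ≤ d → d ≤ 1/100 → 0 < η → ∃ K : ℕ, ∀ k : ℕ, K ≤ k →
  ∀ (M : Multiset ℂ) (Z : ℂ → ℂ), Box (2 ^ (5 * k)) M Z →
    (((Finset.range (2 ^ (k - ee d k))).filter (fun j =>
      1/100 * (2 : ℝ) ^ k ≤ ‖line p (lamk p d k) (2 ^ (5 * k)) Z (uu d k j)‖)).card : ℝ) ≤
      (2 : ℝ) ^ ((0.21 + 2 * d + 3 * η) * k)

lemma ee_leG {d : ℝ} (hd : -(1 / 2) ≤ d) (k : ℕ) : ee d k ≤ k := by
  have h1 : (k : ℝ) * (1/2 - d) ≤ k := by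
    have : (0 : ℝ) ≤ k := Nat.cast_nonneg k
    nlinarith
  have h2 := Nat.floor_le_floor h1
  rwa [Nat.floor_natCast] at h2

lemma cc_ltG (d : ℝ) (hd : -(1 / 2) ≤ d) (k j : ℕ) (hj : j < 2 ^ (k - ee d k)) : cc d k j ≤ 2 * 2 ^ k := by
  rw [cc_eq]
  have h1 : (j + 1) * 2 ^ ee d k ≤ 2 ^ k := by
    calc (j + 1) * 2 ^ ee d k ≤ 2 ^ (k - ee d k) * 2 ^ ee d k := Nat.mul_le_mul_right _ hj
      _ = 2 ^ k := by rw [← pow_add, Nat.sub_add_cancel (ee_leG hd k)]
  have h2 : ((j : ℝ) + 1) * 2 ^ ee d k ≤ 2 ^ k := by exact_mod_cast h1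
  have h3 : (0 : ℝ) < 2 ^ ee d k := by positivity
  (clear * - h2 h3; linarith)

lemma uu_sepG {p : ℕ} (hp : 1 ≤ p) (d : ℝ) (hd : -(1 / 2) ≤ d) (k j j' : ℕ) (hjj : j < j')
    (hj : j' < 2 ^ (k - ee d k)) : lamk p d k ≤ uu d k j' - uu d k j := by
  rw [uu_eq, uu_eq]
  have h1 : cc d k j + 2 ^ ee d k ≤ cc d k j' := by
    rw [cc_eq, cc_eq]
    have h2 : (j : ℝ) + 1 ≤ j' := by exact_mod_cast hjj
    have h3 : (0 : ℝ) < 2 ^ ee d k := by positivity
    (clear * - h2 h3; nlinarith)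
  have h3 : (0 : ℝ) < 2 ^ ee d k := by positivity
  have h4 := Helper30.QRH.log_gap (cc_pos d k j) (by (clear * - h1 h3; linarith) : cc d k j ≤ cc d k j')
  refine le_trans ?_ h4
  have h5 := cc_ltG d hd k j' hj
  have h6 := cc_pos d k j'
  unfold lamk
  have hp' : (1 : ℝ) ≤ p := by exact_mod_cast hp
  have hX : (0 : ℝ) < 2 ^ k := by positivity
  rw [div_le_div_iff₀ (by positivity) h6]
  have h7 : (2 : ℝ) * 2 ^ k ≤ 8 * p * 2 ^ k := by
    have : (2 : ℝ) ≤ 8 * p := by (clear * - hp'; linarith)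
    exact mul_le_mul_of_nonneg_right this hX.le
  calc (2 : ℝ) ^ ee d k * cc d k j' ≤ 2 ^ ee d k * (8 * p * 2 ^ k) := by gcongr; (clear * - h5 h7; linarith)
    _ ≤ (cc d k j' - cc d k j) * (8 * p * 2 ^ k) := by
        apply mul_le_mul_of_nonneg_right _ (by positivity)
        (clear * - h1; linarith)

lemma uu_absG {p : ℕ} (hp : 1 ≤ p) (d : ℝ) (hd : -(1 / 2) ≤ d) (k j j' : ℕ) (hne : j ≠ j')
    (hj : j < 2 ^ (k - ee d k)) (hj' : j' < 2 ^ (k - ee d k)) :
    lamk p d k ≤ |uu d k j - uu d k j'| := by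
  rcases lt_or_gt_of_ne hne with h | h
  · rw [abs_sub_comm]
    exact (uu_sepG hp d hd k j j' h hj').trans (le_abs_self _)
  · exact (uu_sepG hp d hd k j' j h hj).trans (le_abs_self _)

lemma lamk_leG {p : ℕ} (hp : 1 ≤ p) (d : ℝ) (hd : -(1 / 2) ≤ d) (k : ℕ) : lamk p d k ≤ 1/2 := by
  unfold lamk
  have hp' : (1 : ℝ) ≤ p := by exact_mod_cast hp
  have hX : (0 : ℝ) < 2 ^ k := by positivity
  rw [div_le_iff₀ (by positivity)]
  have h1 : (2 : ℝ) ^ ee d k ≤ 2 ^ k := pow_le_pow_right₀ (by norm_num) (ee_leG hd k)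
  (clear * - hX h1 hp'; nlinarith)

lemma exp_uuG (d : ℝ) (hd : -(1 / 2) ≤ d) (k j : ℕ) (hj : j < 2 ^ (k - ee d k)) :
    Real.exp (0.605 * uu d k j) ≤ 2 * (2 : ℝ) ^ ((0.605 : ℝ) * k) := by
  rw [uu_eq, mul_comm, ← Real.rpow_def_of_pos (cc_pos d k j)]
  calc cc d k j ^ (0.605 : ℝ) ≤ (2 * 2 ^ k) ^ (0.605 : ℝ) :=
        Real.rpow_le_rpow (cc_pos d k j).le (cc_ltG d hd k j hj) (by norm_num)
    _ = (2 : ℝ) ^ (0.605 : ℝ) * (2 : ℝ) ^ ((0.605 : ℝ) * k) := by
        rw [Real.mul_rpow (by norm_num) (by positivity), ← Real.rpow_natCast (2 : ℝ) k,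
          ← Real.rpow_mul (by norm_num), mul_comm (k : ℝ)]
    _ ≤ 2 * (2 : ℝ) ^ ((0.605 : ℝ) * k) := by
        gcongr
        calc (2 : ℝ) ^ (0.605 : ℝ) ≤ (2 : ℝ) ^ (1 : ℝ) :=
              Real.rpow_le_rpow_of_exponent_le (by norm_num) (by norm_num)
          _ = 2 := Real.rpow_one 2

theorem lineFewG (hK : KFacts) (hG : GBound) (hD : Duality) : LineFewG := by
  obtain ⟨CK0, hCK0⟩ := hK.bound
  obtain ⟨CG, hCG0, hCG⟩ := hG
  obtain ⟨CD, hCD⟩ := hD
  set CK : ℝ := |CK0| + 1 with hCKd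
  have hCK1 : 1 ≤ CK := by linarith [abs_nonneg CK0]
  intro p d η hp hd hd1 hη
  have hp' : (1 : ℝ) ≤ p := by exact_mod_cast hp
  set C' : ℝ := 200 * |CD| * (2 * (CK ^ p * (CG * 36))) * (9 * p) * (16 * p) with hC'
  obtain ⟨K, hKk⟩ := LF.exists_K C' η hη
  refine ⟨K + 1, ?_⟩
  intro k hk M Z hB
  have hk1 : 1 ≤ k := by omega
  have hk1' : (1 : ℝ) ≤ k := by exact_mod_cast hk1
  set lam := lamk p d k with hlam
  have hl : 0 < lam := LF.lamk_pos hp d k
  have hl2 : lam ≤ 1/2 := lamk_leG hp d hd k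
  set T : ℝ := 2 ^ (5 * k) with hTd
  have hT : 1 ≤ T := one_le_pow₀ (by norm_num)
  obtain ⟨hG1, -⟩ := hCG T M Z hT hB
  set L : ℝ := CG * (36 * (k : ℝ) ^ 2) with hLd
  have hL0 : 0 ≤ L := by positivity
  have hlogT : (Real.log (T + 2)) ^ 2 ≤ 36 * (k : ℝ) ^ 2 := by
    have h1 := LF.logT k hk1
    have h2 : 0 ≤ Real.log (T + 2) := Real.log_nonneg (by (clear * - hl hl2 hT; linarith))
    calc (Real.log (T + 2)) ^ 2 ≤ (6 * (k : ℝ)) ^ 2 := by (clear * - h2 h1; gcongr)
      _ = _ := by ring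
  set B : ℝ := 2 * (CK ^ p * L) with hBd
  have hB0 : 0 ≤ B := by (clear * - hCG0 hk1; positivity)
  have hgb := LF.gg_bound hp (lam := lam) (T := T) (CK := CK) (L := L) (Z := Z) (by (clear * - hCK1 hl hl2; linarith)) hL0
    (by
      intro s h0 h2
      refine (hCK0 lam hl (by (clear * - hl hl2; linarith)) s h0 h2).trans ?_
      apply div_le_div_of_nonneg_right _ (by positivity)
      (clear * - hl hl2; linarith [le_abs_self CK0]))
    (by
      intro s h0 h2 h3
      refine (hG1 s h0 h2 h3).trans ?_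
      rw [hLd]
      gcongr)
  set F := (Finset.range (2 ^ (k - ee d k))).filter (fun j =>
      1/100 * (2 : ℝ) ^ k ≤ ‖line p lam T Z (uu d k j)‖) with hF
  have hFj : ∀ j ∈ F, j < 2 ^ (k - ee d k) := by
    intro j hj
    exact Finset.mem_range.1 (Finset.mem_filter.1 hj).1
  have hinj : Set.InjOn (uu d k) F := by
    intro a ha b hb hab
    by_contra hne
    have := uu_absG hp d hd k a b hne (hFj a ha) (hFj b hb)
    rw [hab, sub_self, abs_zero] at this
    (clear * - hl this; linarith)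
  have hdual := hCD lam hl hl2 (LF.gg p lam T Z) (LF.gg_meas hl hB.diff) B hB0 hgb
    (F.image (uu d k)) (by
      intro u hu u' hu' hne
      obtain ⟨a, ha, rfl⟩ := Finset.mem_image.1 hu
      obtain ⟨b, hb, rfl⟩ := Finset.mem_image.1 hu'
      exact uu_absG hp d hd k a b (fun h => hne (by rw [h])) (hFj a ha) (hFj b hb))
  rw [Finset.sum_image hinj, Finset.card_image_of_injOn hinj] at hdual
  -- lower bound for each term
  set E : ℝ := (2 : ℝ) ^ ((0.605 : ℝ) * k) with hE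
  have hE0 : 0 < E := by positivity
  have hlow : ∀ j ∈ F, (2 : ℝ) ^ k / (200 * E) ≤
      ‖∫ t : ℝ, LF.gg p lam T Z t * Complex.exp (t * (uu d k j) * Complex.I)‖ := by
    intro j hj
    have h1 := (Finset.mem_filter.1 hj).2
    have h2 := LF.line_norm (p := p) (lam := lam) (T := T) (by (clear * - hl hl2 hT; linarith)) Z (uu d k j)
    have h3 := exp_uuG d hd k j (hFj j hj)
    rw [div_le_iff₀ (by positivity)]
    have h4 : Real.exp (0.605 * uu d k j) *
        ‖∫ t : ℝ, LF.gg p lam T Z t * Complex.exp (t * (uu d k j) * Complex.I)‖ ≤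
        (2 * E) * ‖∫ t : ℝ, LF.gg p lam T Z t * Complex.exp (t * (uu d k j) * Complex.I)‖ := by
      (clear * - h3; gcongr)
    (clear * - h1 h2 h4; linarith)
  have hsum : (F.card : ℝ) * ((2 : ℝ) ^ k / (200 * E)) ≤
      CD * B * Real.log (1 / lam) / lam * Real.sqrt F.card := by
    refine le_trans ?_ hdual
    rw [← nsmul_eq_mul]
    exact Finset.card_nsmul_le_sum _ _ _ hlow
  -- final computation
  rcases Nat.eq_zero_or_pos F.card with h0 | hpos
  · rw [h0]
    simp only [Nat.cast_zero]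
    positivity
  have hFc : (0 : ℝ) < F.card := by exact_mod_cast hpos
  set S : ℝ := Real.sqrt F.card with hS
  have hS0 : 0 < S := Real.sqrt_pos.2 hFc
  have hSS : (F.card : ℝ) = S * S := (Real.mul_self_sqrt hFc.le).symm
  have hlog0 : 0 ≤ Real.log (1 / lam) := Real.log_nonneg (by rw [le_div_iff₀ hl]; (clear * - hl hl2; linarith))
  have hS1 : S * ((2 : ℝ) ^ k / (200 * E)) ≤ CD * B * Real.log (1 / lam) / lam := by
    rw [hSS] at hsum
    have : S * (S * ((2 : ℝ) ^ k / (200 * E))) ≤ S * (CD * B * Real.log (1 / lam) / lam) := by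
      (clear * - hsum; linarith)
    exact le_of_mul_le_mul_left this hS0
  have h1 := LF.inv_lamk hp d k
  have h2 := LF.log_inv_lamk hp d k hk1
  have hS2 : CD * B * Real.log (1 / lam) / lam ≤
      |CD| * B * (9 * p * k) * (16 * p * (2 : ℝ) ^ ((1/2 + d) * k)) := by
    calc CD * B * Real.log (1 / lam) / lam = CD * (B * Real.log (1 / lam) * (1 / lam)) := by
          (clear * - hl; field_simp)
      _ ≤ |CD| * (B * Real.log (1 / lam) * (1 / lam)) := by
          apply mul_le_mul_of_nonneg_right (le_abs_self _) (by (clear * - hCG0 hk1 hlog0 hl; positivity))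
      _ ≤ |CD| * (B * (9 * p * k) * (16 * p * (2 : ℝ) ^ ((1/2 + d) * k))) := by (clear * - h2 hCG0 hk1 h1 hl hp; gcongr)
      _ = _ := by ring
  have hXk : (2 : ℝ) ^ k = (2 : ℝ) ^ (k : ℝ) := (Real.rpow_natCast _ _).symm
  have hS3 : S ≤ C' * (k : ℝ) ^ 3 * (2 : ℝ) ^ ((0.105 + d) * k) := by
    have h3 : S * ((2 : ℝ) ^ k / (200 * E)) ≤
        |CD| * B * (9 * p * k) * (16 * p * (2 : ℝ) ^ ((1/2 + d) * k)) := hS1.trans hS2
    have h4 : (2 : ℝ) ^ ((1/2 + d) * k) * E = (2 : ℝ) ^ ((0.105 + d) * k) * (2 : ℝ) ^ k := by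
      rw [hE, hXk, ← Real.rpow_add (by norm_num), ← Real.rpow_add (by norm_num)]
      congr 1
      ring
    rw [← mul_div_assoc, div_le_iff₀ (by positivity)] at h3
    have h5 : |CD| * B * (9 * p * k) * (16 * p * (2 : ℝ) ^ ((1/2 + d) * k)) * (200 * E) =
        C' * (k : ℝ) ^ 3 * (2 : ℝ) ^ ((0.105 + d) * k) * (2 : ℝ) ^ k := by
      calc _ = 200 * |CD| * B * (9 * p * k) * (16 * p) * ((2 : ℝ) ^ ((1/2 + d) * k) * E) := by ring
        _ = 200 * |CD| * B * (9 * p * k) * (16 * p) *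
            ((2 : ℝ) ^ ((0.105 + d) * k) * (2 : ℝ) ^ k) := by rw [h4]
        _ = _ := by
          rw [hC', hBd, hLd]
          ring
    rw [h5] at h3
    exact le_of_mul_le_mul_right h3 (by positivity)
  have hS4 : S ≤ (2 : ℝ) ^ ((0.105 + d + 3/2 * η) * k) := by
    refine hS3.trans ?_
    have h6 := hKk k (by omega)
    calc C' * (k : ℝ) ^ 3 * (2 : ℝ) ^ ((0.105 + d) * k) ≤
        (2 : ℝ) ^ (3/2 * η * k) * (2 : ℝ) ^ ((0.105 + d) * k) := by (clear * - h6; gcongr)
      _ = _ := by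
        rw [← Real.rpow_add (by norm_num)]
        congr 1
        ring
  rw [hSS]
  calc S * S ≤ (2 : ℝ) ^ ((0.105 + d + 3/2 * η) * k) * (2 : ℝ) ^ ((0.105 + d + 3/2 * η) * k) :=
        mul_le_mul hS4 hS4 hS0.le (by positivity)
    _ = (2 : ℝ) ^ ((0.21 + 2 * d + 3 * η) * k) := by
      rw [← Real.rpow_add (by norm_num)]
      congr 1
      ring

end Pool.Agent.M17.Helper60.KG
end

/- Helper53.KN.Helper60.KG.Assembly -/
section
/-! KG-1, assembly -/

set_option autoImplicit false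
open Filter Topology MeasureTheory Complex
open scoped Classical

namespace Pool.Agent.M17.Helper60.KG

open Pool.Agent.M17.Helper10.QRH Pool.Agent.M17.Helper69.QRH Pool.Agent.M17.Helper46.KSZ

/-- the zeros with `3/5 < Re ρ` and `|Im ρ| ≤ 2^(s k)` -/
def zeroSetG (s : ℝ) (k : ℕ) : Set ℂ :=
  {ρ : ℂ | riemannZeta ρ = 0 ∧ 3/5 < ρ.re ∧ |ρ.im| ≤ (2 : ℝ) ^ (s * k)}

lemma zeroSetG_finite (s : ℝ) (k : ℕ) : (zeroSetG s k).Finite := by
  have h := zeroSet_finite ((s - 1 / 2) / 2) k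
  have e : (1 / 2 + 2 * ((s - 1 / 2) / 2)) = s := by ring
  unfold zeroSet at h
  rw [e] at h
  exact h

/-- explicit formula for cells of length `2^⌊k (1/2 - d)⌋`, `-1/2 ≤ d ≤ 1/100`, with room `η` -/
def ExplicitCellsG : Prop := ∀ d η : ℝ, -(1 / 2) ≤ d → d ≤ 1/100 → 0 < η → η ≤ 1 →
  ∃ c₀ : ℝ, 0 < c₀ ∧ ∃ K : ℕ, ∀ k : ℕ, K ≤ k →
  ∃ (c : ℂ → ℂ) (Ex : Finset ℕ), (∀ ρ : ℂ, 0 ≤ ρ.re → ρ.re ≤ 1 → ‖c ρ‖ ≤ 2) ∧
    (Ex.card : ℝ) ≤ (2 : ℝ) ^ ((0.21 + 2 * d + 3 * η) * k) ∧
    ∀ j < 2 ^ (k - ee d k), j ∉ Ex → Few c₀ d k j →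
      ∀ S : Finset ℂ, (∀ ρ, ρ ∈ S ↔ ρ ∈ zeroSetG (1/2 + d + η) k) →
      3/4 ≤ ‖∑ ρ ∈ S, (analyticOrderNatAt riemannZeta ρ : ℂ) * c ρ *
        Complex.exp ((ρ - 1) * uu d k j)‖

/-- numerical error of the shifted formula -/
lemma err_smallG (C : ℝ) (hC : 0 < C) (p : ℕ) (hp : 1 ≤ p) (d : ℝ) (hd : -(1 / 2) ≤ d) :
    ∃ K : ℕ, ∀ k : ℕ, K ≤ k → ∀ u : ℝ, Real.exp u ≤ 2 * 2 ^ k →
      C * Real.exp (2 * (u + ((p - 1 : ℕ) : ℝ) * lamk p d k)) *
        (Real.log ((2 : ℝ) ^ (5 * k) + 2)) ^ 2 / (lamk p d k ^ 2 * 2 ^ (5 * k)) ≤ 1/100 * 2 ^ k := by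
  obtain ⟨K, hK⟩ := ev_sq (C * 8 * 25 * 64 * p ^ 2 * 100)
  refine ⟨max K 1, fun k hk u hu => ?_⟩
  have hkK : K ≤ k := le_trans (le_max_left _ _) hk
  have hk1 : 1 ≤ k := le_trans (le_max_right _ _) hk
  have hk1r : (1 : ℝ) ≤ k := by exact_mod_cast hk1
  have hpr : (1 : ℝ) ≤ p := by exact_mod_cast hp
  set X : ℝ := (2 : ℝ) ^ k with hX
  have hX1 : 1 ≤ X := one_le_pow₀ (by norm_num)
  have hX0 : 0 < X := by (clear * - hX1; linarith)
  set H : ℝ := (2 : ℝ) ^ ee d k with hH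
  have hH1 : 1 ≤ H := one_le_pow₀ (by norm_num)
  have hHX : H ≤ X := pow_le_pow_right₀ (by norm_num) (ee_leG hd k)
  have hlam : lamk p d k = H / (8 * p * X) := rfl
  have hlam0 : 0 < lamk p d k := by rw [hlam]; positivity
  -- the exponential
  have hpl : ((p - 1 : ℕ) : ℝ) * lamk p d k ≤ 1 / 8 := by
    have h1 : ((p - 1 : ℕ) : ℝ) ≤ p := by exact_mod_cast Nat.sub_le p 1
    calc ((p - 1 : ℕ) : ℝ) * lamk p d k ≤ p * (H / (8 * p * X)) := by
          rw [hlam]; gcongr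
      _ = H / X / 8 := by field_simp
      _ ≤ 1 / 8 := by
          have : H / X ≤ 1 := by rw [div_le_one hX0]; exact hHX
          (clear * - this; linarith)
  have hexp : Real.exp (2 * (u + ((p - 1 : ℕ) : ℝ) * lamk p d k)) ≤ 8 * X ^ 2 := by
    have h1 : Real.exp (2 * (u + ((p - 1 : ℕ) : ℝ) * lamk p d k)) =
        Real.exp u ^ 2 * Real.exp (2 * (((p - 1 : ℕ) : ℝ) * lamk p d k)) := by
      rw [← Real.exp_nat_mul, ← Real.exp_add]; congr 1; push_cast; ring
    have h2 : Real.exp (2 * (((p - 1 : ℕ) : ℝ) * lamk p d k)) ≤ 2 := by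
      have h3 : Real.exp (2 * (((p - 1 : ℕ) : ℝ) * lamk p d k)) ≤ Real.exp (1 / 2) :=
        Real.exp_le_exp.2 (by (clear * - hpl; linarith))
      have h4 : Real.exp (1 / 2 : ℝ) ^ 2 ≤ 2 ^ 2 := by
        rw [← Real.exp_nat_mul]
        have := Real.exp_one_lt_d9
        norm_num
        (clear * - this; linarith)
      have h5 := Real.exp_pos (1/2 : ℝ)
      (clear * - h3 h4 h5; nlinarith)
    have h6 : Real.exp u ^ 2 ≤ (2 * X) ^ 2 := pow_le_pow_left₀ (Real.exp_pos _).le hu 2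
    rw [h1]
    have h7 := Real.exp_pos (2 * (((p - 1 : ℕ) : ℝ) * lamk p d k))
    (clear * - h6 h2; nlinarith [sq_nonneg (Real.exp u)])
  -- the logarithm
  have hlog : (Real.log ((2 : ℝ) ^ (5 * k) + 2)) ^ 2 ≤ 25 * (k : ℝ) ^ 2 := by
    have h1 : (2 : ℝ) ^ (5 * k) + 2 ≤ 2 ^ (5 * k + 1) := by
      have : (2 : ℝ) ^ 1 ≤ 2 ^ (5 * k) := pow_le_pow_right₀ (by norm_num) (by (clear * - p K hk1; omega))
      rw [pow_succ]
      (clear * - this; linarith)
    have h2 : Real.log ((2 : ℝ) ^ (5 * k) + 2) ≤ 5 * k := by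
      have h3 := Real.log_le_log (by positivity) h1
      rw [Real.log_pow] at h3
      push_cast at h3
      have h4 := Real.log_two_lt_d9
      have h5 : (5 * (k : ℝ) + 1) * Real.log 2 ≤ (5 * k + 1) * 0.7 := by
        gcongr
        (clear * - h4; linarith)
      (clear * - hk1r h3 h5; linarith)
    have h6 : 0 ≤ Real.log ((2 : ℝ) ^ (5 * k) + 2) := Real.log_nonneg (by
      have : (0 : ℝ) < 2 ^ (5 * k) := by positivity
      (clear * - this; linarith))
    (clear * - h2 h6; nlinarith)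
  have hT : (2 : ℝ) ^ (5 * k) = X ^ 5 := by rw [hX, ← pow_mul, mul_comm]
  have hden : 1 / (64 * p ^ 2) * X ^ 3 ≤ lamk p d k ^ 2 * 2 ^ (5 * k) := by
    rw [hT, hlam]
    have : (H / (8 * p * X)) ^ 2 * X ^ 5 = H ^ 2 * (1 / (64 * p ^ 2) * X ^ 3) := by
      field_simp
      ring
    rw [this]
    have h1 : 1 ≤ H ^ 2 := one_le_pow₀ hH1
    have h2 : 0 ≤ 1 / (64 * (p : ℝ) ^ 2) * X ^ 3 := by positivity
    (clear * - h1 h2; nlinarith)
  have hden0 : 0 < lamk p d k ^ 2 * 2 ^ (5 * k) := by positivity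
  rw [div_le_iff₀ hden0]
  have hmain := hK k hkK
  calc C * Real.exp (2 * (u + ((p - 1 : ℕ) : ℝ) * lamk p d k)) *
        (Real.log ((2 : ℝ) ^ (5 * k) + 2)) ^ 2 ≤ C * (8 * X ^ 2) * (25 * (k : ℝ) ^ 2) := by
        (clear * - hexp hC hlog; gcongr)
    _ = 1 / (64 * p ^ 2) * X ^ 2 / 100 * (C * 8 * 25 * 64 * p ^ 2 * 100 * k ^ 2) := by
        (clear * - hp hk1 hX1 hC; field_simp)
    _ ≤ 1 / (64 * p ^ 2) * X ^ 2 / 100 * X := by (clear * - hmain hp; gcongr)
    _ ≤ 1 / 100 * X * (1 / (64 * p ^ 2) * X ^ 3) := by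
        have h1 : X ^ 3 ≤ X ^ 4 := pow_le_pow_right₀ hX1 (by norm_num)
        have h2 : 0 ≤ 1 / (64 * (p : ℝ) ^ 2) / 100 := by positivity
        calc 1 / (64 * (p : ℝ) ^ 2) * X ^ 2 / 100 * X = 1 / (64 * (p : ℝ) ^ 2) / 100 * X ^ 3 := by ring
          _ ≤ 1 / (64 * (p : ℝ) ^ 2) / 100 * X ^ 4 := by (clear * - h1 hp; gcongr)
          _ = _ := by ring
    _ ≤ 1 / 100 * X * (lamk p d k ^ 2 * 2 ^ (5 * k)) := by (clear * - hden; gcongr)

theorem explicitCellsG (h1 : BoxExists) (h9 : ShiftIter) (h10 : PrimeSideG) (h11 : LineFewG)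
    (h12 : HighZerosG) : ExplicitCellsG := by
  intro d η hd hd1 hη hη1
  obtain ⟨p, hp, K12, hK12⟩ := h12 d η hd hd1 hη
  obtain ⟨K10, hK10⟩ := h10 p d hp hd hd1
  obtain ⟨K11, hK11⟩ := h11 p d η hp hd hd1 hη
  obtain ⟨C, hC, hC9⟩ := h9
  obtain ⟨Ke, hKe⟩ := err_smallG C hC p hp d hd
  have hpr : (1 : ℝ) ≤ p := by exact_mod_cast hp
  refine ⟨1 / (200 * p), by (clear * - hp; positivity), max (max K12 K10) (max (max K11 Ke) 10), fun k hk => ?_⟩
  have hkA : K12 ≤ k := le_trans (le_trans (le_max_left _ _) (le_max_left _ _)) hk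
  have hkB : K10 ≤ k := le_trans (le_trans (le_max_right _ _) (le_max_left _ _)) hk
  have hkC : K11 ≤ k := le_trans (le_trans (le_trans (le_max_left _ _) (le_max_left _ _)) (le_max_right _ _)) hk
  have hkD : Ke ≤ k := le_trans (le_trans (le_trans (le_max_right _ _) (le_max_left _ _)) (le_max_right _ _)) hk
  have hkE : 10 ≤ k := le_trans (le_trans (le_max_right _ _) (le_max_right _ _)) hk
  set X : ℝ := (2 : ℝ) ^ k with hX
  have hX10 : (1000 : ℝ) ≤ X := by
    have : (2 : ℝ) ^ 10 ≤ 2 ^ k := pow_le_pow_right₀ (by norm_num) hkE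
    rw [hX]; norm_num at this ⊢; (clear * - this; linarith)
  have hX0 : 0 < X := by (clear * - hX10; linarith)
  have hX1 : 1 ≤ X := by (clear * - hX10; linarith)
  have hXk : ((2 ^ k : ℕ) : ℝ) = X := by push_cast; rfl
  obtain ⟨M, Z, hBox⟩ := h1 (2 ^ (5 * k)) (by positivity)
  set T : ℝ := (2 : ℝ) ^ (5 * k) with hT
  have hT1 : 1 ≤ T := one_le_pow₀ (by norm_num)
  set lam : ℝ := lamk p d k with hlam
  set H : ℝ := (2 : ℝ) ^ ee d k with hH
  have hH1 : 1 ≤ H := one_le_pow₀ (by norm_num)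
  have hHX : H ≤ X := pow_le_pow_right₀ (by norm_num) (ee_leG hd k)
  have hlamE : lam = H / (8 * p * X) := rfl
  have hlam0 : 0 < lam := by rw [hlamE]; (clear * - hp; positivity)
  have hplam : p * lam ≤ 1 / 8 := by
    rw [hlamE]
    have : (p : ℝ) * (H / (8 * p * X)) = H / X / 8 := by field_simp
    rw [this]
    have : H / X ≤ 1 := by rw [div_le_one hX0]; exact hHX
    (clear * - this; linarith)
  have hlam1 : lam ≤ 1 := by (clear * - hpr hplam; nlinarith)
  refine ⟨fun ρ => KK lam ρ ^ p, (Finset.range (2 ^ (k - ee d k))).filter (fun j =>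
      1/100 * (2 : ℝ) ^ k ≤ ‖line p (lamk p d k) (2 ^ (5 * k)) Z (uu d k j)‖), ?_,
      hK11 k hkC M Z hBox, ?_⟩
  · intro ρ hρ0 hρ1
    rw [norm_pow]
    have h2 := KK_norm_le hlam0 ρ
    have h3 : |ρ.re| ≤ 1 := abs_le.2 ⟨by (clear * - hρ0; linarith), hρ1⟩
    calc ‖KK lam ρ‖ ^ p ≤ (Real.exp (lam * |ρ.re|)) ^ p := pow_le_pow_left₀ (norm_nonneg _) h2 p
      _ = Real.exp (p * (lam * |ρ.re|)) := by rw [Real.exp_nat_mul]
      _ ≤ Real.exp (1 / 2) := by
          apply Real.exp_le_exp.2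
          have : (p : ℝ) * (lam * |ρ.re|) = (p * lam) * |ρ.re| := by ring
          rw [this]
          have := abs_nonneg ρ.re
          (clear * - hlam0 hplam h3 hpr this; nlinarith)
      _ ≤ 2 := by
          have h4 : Real.exp (1 / 2 : ℝ) ^ 2 ≤ 2 ^ 2 := by
            rw [← Real.exp_nat_mul]
            have := Real.exp_one_lt_d9
            norm_num
            (clear * - this; linarith)
          have h5 := Real.exp_pos (1/2 : ℝ)
          (clear * - h4 h5; nlinarith)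
  intro j hj hjE hfew S hS
  set u : ℝ := uu d k j with hu
  -- the centre
  set y : ℕ := 2 ^ k + j * 2 ^ ee d k with hy
  have hyX : X ≤ y := by
    rw [← hXk]
    exact_mod_cast (by rw [hy]; exact Nat.le_add_right _ _ : 2 ^ k ≤ y)
  have hek := ee_leG hd k
  have hy2 : (y : ℝ) + H ≤ 2 * X := by
    have h2 : y + 2 ^ ee d k ≤ 2 ^ (k + 1) := by
      have h3 : (j + 1) * 2 ^ ee d k ≤ 2 ^ (k - ee d k) * 2 ^ ee d k := Nat.mul_le_mul_right _ hj
      rw [← pow_add, Nat.sub_add_cancel hek] at h3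
      rw [pow_succ, hy]
      have h4 : (j + 1) * 2 ^ ee d k = j * 2 ^ ee d k + 2 ^ ee d k := by ring
      (clear * - p K12 K10 K11 Ke h3 h4; omega)
    have h3 : ((y + 2 ^ ee d k : ℕ) : ℝ) ≤ ((2 ^ (k + 1) : ℕ) : ℝ) := by exact_mod_cast h2
    push_cast at h3
    rw [pow_succ] at h3
    rw [hH, hX]
    (clear * - h3; linarith)
  have heu : Real.exp u = (y : ℝ) + H / 2 := by
    rw [hu]
    unfold uu
    rw [Real.exp_log (by (clear * -; positivity))]
  have heuX : X ≤ Real.exp u := by rw [heu]; (clear * - hH1 hyX; linarith)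
  have heuX2 : Real.exp u ≤ 2 * X := by rw [heu]; (clear * - hH1 hy2; linarith)
  have hu1 : 1 + ((p - 1 : ℕ) : ℝ) * lam ≤ u := by
    have h2 : ((p - 1 : ℕ) : ℝ) ≤ p := by exact_mod_cast Nat.sub_le p 1
    have h3 : ((p - 1 : ℕ) : ℝ) * lam ≤ 1 / 8 := (mul_le_mul_of_nonneg_right h2 hlam0.le).trans hplam
    have h4 : (2 : ℝ) ≤ u := by
      by_contra hc
      have h5 : Real.exp u < Real.exp 2 := Real.exp_lt_exp.2 (not_le.1 hc)
      have h6 : Real.exp 2 ≤ 9 := by
        have h7 : Real.exp 2 = Real.exp 1 ^ 2 := by rw [← Real.exp_nat_mul]; norm_num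
        rw [h7]
        have h8 := Real.exp_one_lt_d9
        have h9 := Real.exp_pos 1
        (clear * - hX10 hH1 hlam0 hplam hyX heu h5 h7 h8 hpr h9; nlinarith)
      (clear * - hX10 hH1 hyX heu h5 h6; linarith)
    (clear * - h3 h4; linarith)
  have hp1 : p - 1 + 1 = p := Nat.sub_add_cancel hp
  -- the formula
  have hform := hC9 T M Z hT1 hBox lam u (p - 1) hlam0 hlam1 hu1
  rw [hp1] at hform
  have herr := hKe k hkD u heuX2
  have hform2 : ‖lhs (ker lam (p - 1)) p lam M u - line p lam T Z u‖ ≤ 1/100 * X :=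
    hform.trans herr
  have hline : ‖line p lam T Z u‖ < 1/100 * X := by
    by_contra hc
    apply hjE
    rw [Finset.mem_filter, Finset.mem_range]
    exact ⟨hj, not_lt.1 hc⟩
  have hlhs : ‖lhs (ker lam (p - 1)) p lam M u‖ ≤ 1/50 * X := by
    have := norm_add_le (lhs (ker lam (p - 1)) p lam M u - line p lam T Z u) (line p lam T Z u)
    rw [sub_add_cancel] at this
    (clear * - hform herr hline this; linarith)
  have hprime := hK10 k hkB j hj hfew
  set P : ℝ := ∑' n : ℕ, ArithmeticFunction.vonMangoldt n * ker lam (p - 1) (u - Real.log n) with hP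
  have hP8 : P ≤ 1/8 * X := hprime
  obtain ⟨κ, hκ, hκe⟩ := KK_one_ge hlam0
  have hκp : 1 ≤ κ ^ p := one_le_pow₀ hκ
  have hlhsE : lhs (ker lam (p - 1)) p lam M u = ((P - Real.exp u * κ ^ p : ℝ) : ℂ) +
      (M.map (fun ρ => Complex.exp (ρ * u) * KK lam ρ ^ p)).sum := by
    unfold lhs
    rw [hκe, ← hP]
    push_cast
    ring
  have hmainlow : Real.exp u - 1/8 * X - 1/50 * X ≤
      ‖(M.map (fun ρ => Complex.exp (ρ * u) * KK lam ρ ^ p)).sum‖ := by
    have h2 : ‖((P - Real.exp u * κ ^ p : ℝ) : ℂ)‖ ≥ Real.exp u - 1/8 * X := by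
      rw [Complex.norm_real, Real.norm_eq_abs, abs_sub_comm]
      refine le_trans ?_ (le_abs_self _)
      have := Real.exp_pos u
      (clear * - hprime hκp hH1 heu; nlinarith)
    have h3 := norm_sub_le_norm_add ((P - Real.exp u * κ ^ p : ℝ) : ℂ)
      (M.map (fun ρ => Complex.exp (ρ * u) * KK lam ρ ^ p)).sum
    rw [← hlhsE] at h3
    (clear * - hlhs h2 h3; linarith)
  -- low and high zeros
  set B : ℝ := (2 : ℝ) ^ ((1/2 + d + η) * k) with hB
  set Mh := M.filter (fun ρ => B < |ρ.im|) with hMh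
  set Ml := M.filter (fun ρ => ¬ B < |ρ.im|) with hMl
  have hsplit : Mh + Ml = M := Multiset.filter_add_not _ _
  have hhigh := hK12 k hkA M Z hBox j hj
  have hhigh2 : ‖(Mh.map (fun ρ => Complex.exp (ρ * u) * KK lam ρ ^ p)).sum‖ ≤ 1 := by
    refine le_trans ?_ hhigh
    have h2 := Multiset.le_sum_of_subadditive (fun z : ℂ => ‖z‖) (by simp) (fun a b => norm_add_le a b)
      (Mh.map (fun ρ => Complex.exp (ρ * u) * KK lam ρ ^ p))
    rw [Multiset.map_map] at h2
    exact h2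
  have hlow : Real.exp u - 1/8 * X - 1/50 * X - 1 ≤
      ‖(Ml.map (fun ρ => Complex.exp (ρ * u) * KK lam ρ ^ p)).sum‖ := by
    have h2 : (M.map (fun ρ => Complex.exp (ρ * u) * KK lam ρ ^ p)).sum =
        (Mh.map (fun ρ => Complex.exp (ρ * u) * KK lam ρ ^ p)).sum +
        (Ml.map (fun ρ => Complex.exp (ρ * u) * KK lam ρ ^ p)).sum := by
      rw [← hsplit, Multiset.map_add, Multiset.sum_add]
    have h3 := norm_add_le (Mh.map (fun ρ => Complex.exp (ρ * u) * KK lam ρ ^ p)).sum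
      (Ml.map (fun ρ => Complex.exp (ρ * u) * KK lam ρ ^ p)).sum
    rw [← h2] at h3
    (clear * - hmainlow hhigh2 h3; linarith)
  -- the finset
  have hBT : B < T + 2 := by
    have h2 : B ≤ T := by
      rw [hB, hT, ← Real.rpow_natCast]
      apply Real.rpow_le_rpow_of_exponent_le (by norm_num)
      push_cast
      exact mul_le_mul_of_nonneg_right (by (clear * - hd1 hη1; linarith)) k.cast_nonneg
    (clear * - h2; linarith)
  have hmemS : ∀ ρ, ρ ∈ S ↔ ρ ∈ Ml := by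
    intro ρ
    rw [hS, hMl, Multiset.mem_filter]
    constructor
    · rintro ⟨h2, h3, h4⟩
      refine ⟨?_, not_lt.2 h4⟩
      have hρT : |ρ.im| < T + 2 := lt_of_le_of_lt h4 hBT
      have hne := hBox.ne ρ h3 hρT
      have hρ1 : ρ ≠ 1 := by
        rintro rfl
        exact riemannZeta_one_ne_zero h2
      have hE0 : EZ ρ = 0 := by rw [EZ_eq hρ1, h2, mul_zero]
      have hQ := hBox.eq ρ
      rw [hE0] at hQ
      have hQ0 : Qp M ρ = 0 := by
        rcases mul_eq_zero.1 hQ.symm with h | h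
        · exact h
        · exact absurd h hne
      by_contra hc
      exact Qp_ne_zero M ρ (fun a ha hρa => hc (hρa ▸ ha)) hQ0
    · rintro ⟨h2, h3⟩
      obtain ⟨h4, h5, h6, h7⟩ := hBox.mem ρ h2
      exact ⟨h4, h5, not_lt.1 h3⟩
  have hSfin : Ml.toFinset = S := by
    ext ρ
    rw [Multiset.mem_toFinset, hmemS]
  have hsum : (Ml.map (fun ρ => Complex.exp (ρ * u) * KK lam ρ ^ p)).sum =
      Complex.exp u * ∑ ρ ∈ S, (analyticOrderNatAt riemannZeta ρ : ℂ) * (KK lam ρ ^ p) *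
        Complex.exp ((ρ - 1) * u) := by
    rw [Finset.sum_multiset_map_count, hSfin, Finset.mul_sum]
    refine Finset.sum_congr rfl fun ρ hρ => ?_
    have h2 := (hmemS ρ).1 hρ
    rw [hMl, Multiset.mem_filter] at h2
    obtain ⟨h4, h5, h6, h7⟩ := hBox.mem ρ h2.1
    have hcount : Ml.count ρ = analyticOrderNatAt riemannZeta ρ := by
      rw [hMl, Multiset.count_filter_of_pos (p := fun ρ : ℂ => ¬ B < |ρ.im|) h2.2]
      exact hBox.count ρ h4 h5 h7
    rw [hcount, nsmul_eq_mul]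
    have h8 : Complex.exp (ρ * u) = Complex.exp u * Complex.exp ((ρ - 1) * u) := by
      rw [← Complex.exp_add]; congr 1; ring
    rw [h8]
    ring
  rw [hsum, norm_mul, Complex.norm_exp, Complex.ofReal_re] at hlow
  have hupos := Real.exp_pos u
  have hfin : Real.exp u * (3/4) ≤ Real.exp u * ‖∑ ρ ∈ S, (analyticOrderNatAt riemannZeta ρ : ℂ) *
      (KK lam ρ ^ p) * Complex.exp ((ρ - 1) * u)‖ := by
    refine le_trans ?_ hlow
    (clear * - hX10 hH1 hyX heu; linarith)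
  exact le_of_mul_le_mul_left hfin hupos

end Pool.Agent.M17.Helper60.KG
end
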