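import Mathlib
import Pool.Agent.Helper53.KM.G02
import Pool.Agent.Helper53.KM.G11

/- Helper53.KN.Helper71.KSZ.N15 -/
section
/-!
Project KSZ (MP_768c9c_nt), module N15: Theorem N from one level.
-/

set_option autoImplicit false

open Finset Filter Topology

namespace Pool.Agent.M17.Helper71.KSZ

open Pool.Agent.M17.Helper18.KSZ

theorem mz_nonneg (ρ : ℂ) : 0 ≤ mz ρ := Nat.cast_nonneg _

/-- the level of an ordinate -/
theorem exists_level {X T : ℝ} (hX : 1 < X) (hT : 1 < T) (hTX : T ≤ X ^ (6 / 10 : ℝ)) :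
    ∃ j : ℕ, (X ^ ((1 / 2 : ℝ) ^ j)) ^ (3 / 10 : ℝ) ≤ T ∧
      T ≤ (X ^ ((1 / 2 : ℝ) ^ j)) ^ (6 / 10 : ℝ) := by
  have hX0 : 0 < X := by linarith
  have hlim : Tendsto (fun j : ℕ => X ^ ((1 / 2 : ℝ) ^ j * (3 / 10))) atTop (𝓝 1) := by
    have h1 : Tendsto (fun j : ℕ => (1 / 2 : ℝ) ^ j * (3 / 10)) atTop (𝓝 (0 * (3 / 10))) :=
      (tendsto_pow_atTop_nhds_zero_of_lt_one (by norm_num) (by norm_num)).mul_const _
    rw [zero_mul] at h1
    have h2 := (Real.continuous_const_rpow hX0.ne').continuousAt.tendsto.comp h1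
    rw [Real.rpow_zero] at h2
    exact h2
  have hex : ∃ j : ℕ, X ^ ((1 / 2 : ℝ) ^ j * (3 / 10)) < T :=
    (hlim.eventually (gt_mem_nhds hT)).exists
  classical
  refine ⟨Nat.find hex, ?_, ?_⟩
  · rw [← Real.rpow_mul hX0.le]
    exact (Nat.find_spec hex).le
  · rw [← Real.rpow_mul hX0.le]
    rcases Nat.eq_zero_or_pos (Nat.find hex) with h0 | h0
    · rw [h0, pow_zero, one_mul]
      exact hTX
    · have h1 := Nat.find_min hex (Nat.sub_lt h0 one_pos)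
      rw [not_lt] at h1
      refine h1.trans (le_of_eq ?_)
      congr 1
      obtain ⟨k, hk⟩ : ∃ k, Nat.find hex = k + 1 := ⟨Nat.find hex - 1, by omega⟩
      rw [hk, Nat.add_sub_cancel, pow_succ]
      ring

/-- the low zeros contribute `o(1)` -/
theorem low_zeros (ε B η : ℝ) (hη : 0 < η) : ∃ X0 : ℝ, ∀ X : ℝ, X0 ≤ X → ∀ Z : Finset ℂ,
    (∀ ρ ∈ Z, riemannZeta ρ = 0 ∧ 1 - ε ≤ ρ.re ∧ |ρ.im| ≤ B) →
    ∑ ρ ∈ Z, mz ρ * X ^ (ρ.re - 1) ≤ η := by
  classical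
  have hcomp : IsCompact (Set.Icc (1 - ε) 1 ×ℂ Set.Icc (-B) B) :=
    isCompact_Icc.reProdIm isCompact_Icc
  set F : Finset ℂ := hcomp.inter_riemannZetaZeros_finite.toFinset with hF
  have hmem : ∀ ρ : ℂ, riemannZeta ρ = 0 → 1 - ε ≤ ρ.re → |ρ.im| ≤ B → ρ ∈ F := by
    intro ρ h1 h2 h3
    rw [hF, Set.Finite.mem_toFinset]
    refine ⟨?_, mem_riemannZetaZeros.2 h1⟩
    rw [Complex.mem_reProdIm]
    refine ⟨⟨h2, ?_⟩, abs_le.1 h3⟩
    by_contra h
    exact riemannZeta_ne_zero_of_one_le_re (not_le.1 h).le h1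
  have hlim : Tendsto (fun X : ℝ => ∑ ρ ∈ F, mz ρ * X ^ (ρ.re - 1)) atTop
      (𝓝 (∑ ρ ∈ F, mz ρ * 0)) := by
    refine tendsto_finsetSum _ fun ρ hρ => Tendsto.const_mul _ ?_
    have h1 : riemannZeta ρ = 0 := by
      rw [hF, Set.Finite.mem_toFinset] at hρ
      exact mem_riemannZetaZeros.1 hρ.2
    have h2 : ρ.re < 1 := by
      by_contra h
      exact riemannZeta_ne_zero_of_one_le_re (not_lt.1 h) h1
    have h3 := tendsto_rpow_neg_atTop (y := 1 - ρ.re) (by linarith)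
    refine h3.congr fun X => ?_
    congr 1
    ring
  simp only [mul_zero, Finset.sum_const_zero] at hlim
  obtain ⟨X0, hX0⟩ := eventually_atTop.1 (hlim.eventually (ge_mem_nhds hη))
  refine ⟨max X0 0, fun X hX Z hZ => ?_⟩
  refine le_trans ?_ (hX0 X ((le_max_left _ _).trans hX))
  refine Finset.sum_le_sum_of_subset_of_nonneg ?_ ?_
  · intro ρ hρ
    obtain ⟨h1, h2, h3⟩ := hZ ρ hρ
    exact hmem ρ h1 h2 h3
  · intro ρ _ _
    exact mul_nonneg (mz_nonneg ρ) (Real.rpow_nonneg ((le_max_right _ _).trans hX) _)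

theorem theoremN (h10 : InA10) (h : OneLevel) : TheoremN := by
  classical
  obtain ⟨ε, hε, H⟩ := h
  refine ⟨ε, hε, fun η hη => ?_⟩
  obtain ⟨X1, hX1⟩ := H (η / 4) (by (clear * - hη; linarith))
  obtain ⟨T0, hT0, hzf⟩ := h10 1
  -- the threshold between low and high zeros
  set B : ℝ := max (max (T0 ^ (10 / 3 : ℝ)) X1) 3 with hB
  have hB3 : 3 ≤ B := le_max_right _ _
  have hBX1 : X1 ≤ B := (le_max_right _ _).trans (le_max_left _ _)
  have hBT0 : T0 ^ (10 / 3 : ℝ) ≤ B := (le_max_left _ _).trans (le_max_left _ _)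
  obtain ⟨X2, hX2⟩ := low_zeros ε (B ^ (6 / 10 : ℝ)) (η / 2) (by (clear * - hη; linarith))
  refine ⟨max X2 3, fun X hX Z hZ => ?_⟩
  have hXX2 : X2 ≤ X := (le_max_left _ _).trans hX
  have hX3 : 3 ≤ X := (le_max_right _ _).trans hX
  have hX0 : 0 < X := by linarith
  have hXone : 1 < X := by linarith
  rw [← Finset.sum_filter_add_sum_filter_not Z (fun ρ => |ρ.im| ≤ B ^ (6 / 10 : ℝ))]
  have hlow : ∑ ρ ∈ Z.filter (fun ρ => |ρ.im| ≤ B ^ (6 / 10 : ℝ)), mz ρ * X ^ (ρ.re - 1) ≤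
      η / 2 := by
    refine hX2 X hXX2 _ fun ρ hρ => ?_
    rw [Finset.mem_filter] at hρ
    obtain ⟨h1, h2, -⟩ := hZ ρ hρ.1
    exact ⟨h1, h2, hρ.2⟩
  set Zh := Z.filter (fun ρ => ¬ |ρ.im| ≤ B ^ (6 / 10 : ℝ)) with hZh
  -- levels
  have hlev : ∀ ρ : ℂ, ρ ∈ Zh → ∃ j : ℕ, (X ^ ((1 / 2 : ℝ) ^ j)) ^ (3 / 10 : ℝ) ≤ |ρ.im| ∧
      |ρ.im| ≤ (X ^ ((1 / 2 : ℝ) ^ j)) ^ (6 / 10 : ℝ) := by
    intro ρ hρ
    rw [hZh, Finset.mem_filter, not_le] at hρ
    obtain ⟨h1, h2, h3⟩ := hZ ρ hρ.1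
    refine exists_level hXone ?_ h3
    exact lt_of_le_of_lt (Real.one_le_rpow (by (clear * - hB3; linarith)) (by norm_num)) hρ.2
  choose! lev hlev1 hlev2 using hlev
  have hhigh : ∑ ρ ∈ Zh, mz ρ * X ^ (ρ.re - 1) ≤ η / 2 := by
    rw [← Finset.sum_fiberwise_of_maps_to (g := lev) (t := Zh.image lev)
      (fun ρ hρ => Finset.mem_image_of_mem _ hρ)]
    have hfib : ∀ j ∈ Zh.image lev, ∑ ρ ∈ Zh.filter (fun ρ => lev ρ = j), mz ρ * X ^ (ρ.re - 1) ≤
        η / 4 * (1 / 2 : ℝ) ^ j := by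
      intro j hj
      set Xj : ℝ := X ^ ((1 / 2 : ℝ) ^ j) with hXj
      have hXj0 : 0 < Xj := Real.rpow_pos_of_pos hX0 _
      -- facts about zeros of the fiber
      have hfacts : ∀ ρ ∈ Zh.filter (fun ρ => lev ρ = j), riemannZeta ρ = 0 ∧ 1 - ε ≤ ρ.re ∧
          Xj ^ (3 / 10 : ℝ) ≤ |ρ.im| ∧ |ρ.im| ≤ Xj ^ (6 / 10 : ℝ) ∧ B ^ (6 / 10 : ℝ) < |ρ.im| := by
        intro ρ hρ
        rw [Finset.mem_filter] at hρ
        have hρZ := hρ.1
        rw [hZh, Finset.mem_filter, not_le] at hρZ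
        obtain ⟨h1, h2, h3⟩ := hZ ρ hρZ.1
        have h4 := hlev1 ρ hρ.1
        have h5 := hlev2 ρ hρ.1
        rw [hρ.2] at h4 h5
        exact ⟨h1, h2, h4, h5, hρZ.2⟩
      -- the fiber is nonempty
      obtain ⟨ρ0, hρ0, hρ0j⟩ := Finset.mem_image.1 hj
      have hXjB : B < Xj := by
        obtain ⟨-, -, -, h5, h6⟩ := hfacts ρ0 (Finset.mem_filter.2 ⟨hρ0, hρ0j⟩)
        have h7 : B ^ (6 / 10 : ℝ) < Xj ^ (6 / 10 : ℝ) := lt_of_lt_of_le h6 h5
        exact (Real.rpow_lt_rpow_iff (by (clear * - hB3; linarith)) hXj0.le (by norm_num)).1 h7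
      have hXj1 : 1 < Xj := by (clear * - hB3 hXjB; linarith)
      have hlogXj : 0 < Real.log Xj := Real.log_pos hXj1
      have hone := hX1 Xj (hBX1.trans hXjB.le) (Zh.filter (fun ρ => lev ρ = j)) (by
        intro ρ hρ
        obtain ⟨h1, h2, h3, h4, -⟩ := hfacts ρ hρ
        exact ⟨h1, h2, h3, h4⟩)
      have hterm : ∀ ρ ∈ Zh.filter (fun ρ => lev ρ = j), mz ρ * X ^ (ρ.re - 1) ≤
          (mz ρ * Xj ^ (ρ.re - 1)) * (1 / 2 : ℝ) ^ j := by
        intro ρ hρ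
        obtain ⟨h1, h2, h3, h4, h5⟩ := hfacts ρ hρ
        have hT : T0 ≤ |ρ.im| := by
          have h6 : T0 ≤ Xj ^ (3 / 10 : ℝ) := by
            have h7 : (T0 ^ (10 / 3 : ℝ)) ^ (3 / 10 : ℝ) ≤ Xj ^ (3 / 10 : ℝ) :=
              Real.rpow_le_rpow (by positivity) (hBT0.trans hXjB.le) (by norm_num)
            rw [← Real.rpow_mul (by (clear * - hT0; linarith))] at h7
            norm_num at h7
            exact h7
          exact h6.trans h3
        have hz := hzf ρ h1 hT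
        have him1 : 1 < |ρ.im| := by (clear * - hT0 hT; linarith)
        have hlogim : 0 < Real.log |ρ.im| := Real.log_pos him1
        have hlogle : Real.log |ρ.im| ≤ Real.log Xj := by
          refine Real.log_le_log (by (clear * - hT0 hT; linarith)) (h4.trans ?_)
          have h8 := Real.rpow_le_rpow_of_exponent_le hXj1.le (by norm_num : (6 / 10 : ℝ) ≤ 1)
          rwa [Real.rpow_one] at h8
        have hx : 1 / Real.log Xj ≤ 1 - ρ.re := by
          have h9 : 1 / Real.log Xj ≤ 1 / Real.log |ρ.im| := one_div_le_one_div_of_le hlogim hlogle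
          (clear * - hz h9; linarith)
        have hx' : 1 ≤ (1 - ρ.re) * Real.log Xj := by
          rwa [div_le_iff₀ hlogXj] at hx
        -- X = Xj ^ (2 ^ j)
        have hXXj : X ^ (ρ.re - 1) = Xj ^ ((2 : ℝ) ^ j * (ρ.re - 1)) := by
          rw [hXj, ← Real.rpow_mul hX0.le, ← mul_assoc, ← mul_pow]
          norm_num
        rw [hXXj, mul_assoc]
        refine mul_le_mul_of_nonneg_left ?_ (mz_nonneg ρ)
        rw [show (2 : ℝ) ^ j * (ρ.re - 1) = (ρ.re - 1) + ((2 : ℝ) ^ j - 1) * (ρ.re - 1) by ring,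
          Real.rpow_add hXj0]
        refine mul_le_mul_of_nonneg_left ?_ (Real.rpow_nonneg hXj0.le _)
        rw [Real.rpow_def_of_pos hXj0]
        have h2j : (j : ℝ) ≤ (2 : ℝ) ^ j - 1 := by
          have h10 : (1 : ℝ) + j * 1 ≤ (1 + 1) ^ j := one_add_mul_le_pow (by norm_num) j
          norm_num at h10
          (clear * - h10; linarith)
        have h11 : Real.log Xj * (((2 : ℝ) ^ j - 1) * (ρ.re - 1)) ≤ -(j : ℝ) := by
          have h12 : (j : ℝ) * 1 ≤ ((2 : ℝ) ^ j - 1) * ((1 - ρ.re) * Real.log Xj) :=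
            mul_le_mul h2j hx' (by norm_num) (by (clear * - h2j; linarith [Nat.cast_nonneg (α := ℝ) j]))
          (clear * - h12; linarith)
        refine (Real.exp_le_exp.2 h11).trans ?_
        have h13 : Real.exp (-(j : ℝ)) = (Real.exp (-1)) ^ j := by
          rw [← Real.exp_nat_mul]
          congr 1
          ring
        rw [h13]
        refine pow_le_pow_left₀ (Real.exp_pos _).le ?_ j
        rw [Real.exp_neg, one_div]
        refine inv_anti₀ (by norm_num) ?_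
        have := Real.add_one_le_exp (1 : ℝ)
        (clear * - this; linarith)
      calc ∑ ρ ∈ Zh.filter (fun ρ => lev ρ = j), mz ρ * X ^ (ρ.re - 1)
          ≤ ∑ ρ ∈ Zh.filter (fun ρ => lev ρ = j), (mz ρ * Xj ^ (ρ.re - 1)) * (1 / 2 : ℝ) ^ j :=
            Finset.sum_le_sum hterm
        _ = (∑ ρ ∈ Zh.filter (fun ρ => lev ρ = j), mz ρ * Xj ^ (ρ.re - 1)) * (1 / 2 : ℝ) ^ j := by
            rw [Finset.sum_mul]
        _ ≤ η / 4 * (1 / 2 : ℝ) ^ j := mul_le_mul_of_nonneg_right hone (by positivity)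
    calc ∑ j ∈ Zh.image lev, ∑ ρ ∈ Zh.filter (fun ρ => lev ρ = j), mz ρ * X ^ (ρ.re - 1)
        ≤ ∑ j ∈ Zh.image lev, η / 4 * (1 / 2 : ℝ) ^ j := Finset.sum_le_sum hfib
      _ = η / 4 * ∑ j ∈ Zh.image lev, (1 / 2 : ℝ) ^ j := by rw [Finset.mul_sum]
      _ ≤ η / 4 * 2 := by
          refine mul_le_mul_of_nonneg_left ?_ (by (clear * - hη; linarith))
          exact (summable_geometric_two.sum_le_tsum _ (fun j _ => by positivity)).trans
            tsum_geometric_two.le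
      _ = η / 2 := by ring
  (clear * - hlow hhigh; linarith)

end Pool.Agent.M17.Helper71.KSZ
end

/- Helper53.KN.Helper67.KSZ.ZetaA -/
section
/-! KSZ (MP_768c9c_nt): approximation of zeta by a finite sum (A4). -/

set_option autoImplicit false
open Filter Topology

namespace Pool.Agent.M17.Helper67.KSZ

open Pool.Agent.M17.Helper69.QRH (EZ EZ_eq TT TT_bound EZ_eq_tsum)

theorem tail_step {x : ℝ} (hx : 0 < x) :
    (x + 1) ^ (-(3 / 2) : ℝ) ≤ 2 * x ^ (-(1 / 2) : ℝ) - 2 * (x + 1) ^ (-(1 / 2) : ℝ) := by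
  have hx1 : 0 < x + 1 := by (clear * - hx; linarith)
  set a := Real.sqrt x with ha
  set b := Real.sqrt (x + 1) with hb
  have ha0 : 0 < a := Real.sqrt_pos.2 hx
  have hb0 : 0 < b := Real.sqrt_pos.2 hx1
  have ha2 : a ^ 2 = x := Real.sq_sqrt hx.le
  have hb2 : b ^ 2 = x + 1 := Real.sq_sqrt hx1.le
  have hab : a ≤ b := Real.sqrt_le_sqrt (by linarith)
  have e1 : x ^ (-(1 / 2) : ℝ) = a⁻¹ := by
    rw [Real.rpow_neg hx.le, ← Real.sqrt_eq_rpow]
  have e2 : (x + 1) ^ (-(1 / 2) : ℝ) = b⁻¹ := by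
    rw [Real.rpow_neg hx1.le, ← Real.sqrt_eq_rpow]
  have e3 : (x + 1) ^ (-(3 / 2) : ℝ) = (b ^ 3)⁻¹ := by
    rw [Real.rpow_neg hx1.le]
    congr 1
    rw [show (3 / 2 : ℝ) = 1 + 1 / 2 by norm_num, Real.rpow_add hx1, Real.rpow_one,
      ← Real.sqrt_eq_rpow, ← hb]
    (clear * - hb0 hb2; nlinarith)
  rw [e1, e2, e3]
  have h1 : (b - a) * (a + b) = 1 := by (clear * - ha2 hb2; nlinarith)
  have h2 : 2 * a⁻¹ - 2 * b⁻¹ = 2 * (b - a) / (a * b) := by
    (clear * - hb0 ha0; field_simp)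
  rw [h2, inv_eq_one_div, div_le_div_iff₀ (by positivity) (by positivity)]
  have h3 : b - a = 1 / (a + b) := by
    rw [eq_div_iff (by (clear * - hx; positivity))]; exact h1
  rw [h3]
  have h4 : a * b * (a + b) ≤ 2 * b ^ 3 := by
    have : a * b * (a + b) ≤ b * b * (b + b) := by gcongr
    (clear * - this; nlinarith)
  rw [mul_one_div, div_mul_eq_mul_div, le_div_iff₀ (by positivity)]
  (clear * - h4; linarith)

theorem tail_sum {N : ℕ} (hN : 1 ≤ N) (M : ℕ) :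
    ∑ n ∈ Finset.range M, (((n + N : ℕ) : ℝ) + 1) ^ (-(3 / 2) : ℝ) ≤
      2 * (N : ℝ) ^ (-(1 / 2) : ℝ) - 2 * ((M + N : ℕ) : ℝ) ^ (-(1 / 2) : ℝ) := by
  induction M with
  | zero => simp
  | succ M ih =>
    rw [Finset.sum_range_succ]
    have hx : (0 : ℝ) < ((M + N : ℕ) : ℝ) := by exact_mod_cast (by omega : 0 < M + N)
    have h := tail_step hx
    have e : ((M + 1 + N : ℕ) : ℝ) = ((M + N : ℕ) : ℝ) + 1 := by push_cast; ring
    rw [e]
    (clear * - ih h; linarith)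

theorem summable_TT {s : ℂ} (hs : 0 < s.re) : Summable (fun n : ℕ => TT n s) := by
  refine Summable.of_norm_bounded
    ((Pool.Agent.M17.Helper69.QRH.summable_rpow_aux (r := -s.re - 1) (by (clear * - hs; linarith))).mul_left
      (‖s - 1‖ * ‖s‖)) fun n => ?_
  exact TT_bound n hs

theorem tail_TT {s : ℂ} (hs : 1 / 2 ≤ s.re) {N : ℕ} (hN : 1 ≤ N) :
    ‖∑' n : ℕ, TT (n + N) s‖ ≤ ‖s - 1‖ * ‖s‖ * (2 * (N : ℝ) ^ (-(1 / 2) : ℝ)) := by
  have hb : ∀ n : ℕ, ‖TT (n + N) s‖ ≤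
      ‖s - 1‖ * ‖s‖ * (((n + N : ℕ) : ℝ) + 1) ^ (-(3 / 2) : ℝ) := by
    intro n
    refine (TT_bound (n + N) (by (clear * - hs; linarith))).trans ?_
    apply mul_le_mul_of_nonneg_left _ (by (clear * -; positivity))
    apply Real.rpow_le_rpow_of_exponent_le
    · have : (0 : ℝ) ≤ ((n + N : ℕ) : ℝ) := Nat.cast_nonneg _
      (clear * -; linarith)
    · (clear * - hs; linarith)
  have hsum : Summable (fun n : ℕ => (((n + N : ℕ) : ℝ) + 1) ^ (-(3 / 2) : ℝ)) := by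
    have h1 := Pool.Agent.M17.Helper69.QRH.summable_rpow_aux (r := -(3 / 2)) (by norm_num)
    exact (summable_nat_add_iff N).2 h1
  refine tsum_of_norm_bounded ((hsum.mul_left (‖s - 1‖ * ‖s‖)).hasSum) hb |>.trans ?_
  rw [tsum_mul_left]
  apply mul_le_mul_of_nonneg_left _ (by positivity)
  refine hsum.tsum_le_of_sum_range_le fun M => ?_
  refine (tail_sum hN M).trans ?_
  have : (0 : ℝ) ≤ ((M + N : ℕ) : ℝ) ^ (-(1 / 2) : ℝ) := by positivity
  linarith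

theorem sum_TT (s : ℂ) (N : ℕ) : ∑ n ∈ Finset.range N, TT n s =
    (∑ n ∈ Finset.range N, (s - 1) * ((n : ℂ) + 1) ^ (-s)) + (((N : ℂ) + 1) ^ (1 - s) - 1) := by
  induction N with
  | zero => simp
  | succ N ih =>
    rw [Finset.sum_range_succ, Finset.sum_range_succ, ih]
    unfold TT
    push_cast
    have h1 : (N : ℂ) + 1 + 1 = N + 2 := by ring
    rw [h1]
    ring

theorem sum_Icc_one (F : ℕ → ℂ) (N : ℕ) :
    ∑ n ∈ Finset.Icc 1 N, F n = ∑ i ∈ Finset.range N, F (i + 1) := by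
  have : Finset.Icc 1 N = Finset.Ico 1 (N + 1) := by
    ext n; simp only [Finset.mem_Icc, Finset.mem_Ico]; omega
  rw [this, Finset.sum_Ico_eq_sum_range]
  simp only [Nat.add_sub_cancel]
  exact Finset.sum_congr rfl (fun i _ => by rw [add_comm])

/-- zeta is a finite sum plus an explicit error -/
theorem zeta_sum {s : ℂ} (hs : 1 / 2 ≤ s.re) (hs1 : s ≠ 1) (N : ℕ) :
    riemannZeta s - ∑ n ∈ Finset.Icc 1 N, (n : ℂ) ^ (-s) =
      (((N : ℂ) + 1) ^ (1 - s) + ∑' n : ℕ, TT (n + N) s) / (s - 1) := by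
  have h1 : (s - 1) * riemannZeta s = ∑' n : ℕ, TT n s + 1 := by
    rw [← EZ_eq hs1, EZ_eq_tsum (by linarith)]
  have h2 := (summable_TT (s := s) (by (clear * - hs; linarith))).sum_add_tsum_nat_add N
  rw [sum_TT] at h2
  have hne : s - 1 ≠ 0 := sub_ne_zero.2 hs1
  rw [eq_div_iff hne, sum_Icc_one]
  rw [← Finset.mul_sum] at h2
  have e : ∑ i ∈ Finset.range N, (((i + 1 : ℕ) : ℂ)) ^ (-s) =
      ∑ i ∈ Finset.range N, ((i : ℂ) + 1) ^ (-s) :=
    Finset.sum_congr rfl (fun i _ => by push_cast; rfl)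
  rw [e]
  linear_combination h1 - h2

/-- A4 -/
theorem A4 : ∃ C : ℝ, 0 < C ∧ ∀ σ t : ℝ, 1 / 2 ≤ σ → σ ≤ 2 → 2 ≤ t →
    ‖riemannZeta ((σ : ℂ) + (t : ℂ) * Complex.I) -
      ∑ n ∈ Finset.Icc 1 ⌊t ^ 2⌋₊, (n : ℂ) ^ (-((σ : ℂ) + (t : ℂ) * Complex.I))‖ ≤ C := by
  refine ⟨10, by norm_num, ?_⟩
  intro σ t hσ hσ2 ht
  set s : ℂ := (σ : ℂ) + (t : ℂ) * Complex.I with hs
  have hre : s.re = σ := by simp [hs]
  have him : s.im = t := by simp [hs]
  have ht0 : 0 < t := by linarith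
  set N : ℕ := ⌊t ^ 2⌋₊ with hN
  have hNle : (N : ℝ) ≤ t ^ 2 := Nat.floor_le (by positivity)
  have hNge : t ^ 2 / 2 ≤ (N : ℝ) := by
    have := Nat.lt_floor_add_one (t ^ 2)
    rw [← hN] at this
    (clear * - ht this; nlinarith)
  have hN1 : 1 ≤ N := by
    have : (1 : ℝ) ≤ N := by (clear * - ht hNge; nlinarith)
    exact_mod_cast this
  have hN0 : (0 : ℝ) < N := by exact_mod_cast hN1
  have hs1 : s ≠ 1 := by
    intro h
    have := congrArg Complex.im h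
    rw [him] at this
    simp at this
    (clear * - ht this; linarith)
  rw [zeta_sum (by rw [hre]; exact hσ) hs1 N, norm_div]
  have hns : t ≤ ‖s - 1‖ := by
    have h1 := Complex.abs_im_le_norm (s - 1)
    have h2 : (s - 1).im = t := by simp [him]
    rw [h2, abs_of_pos ht0] at h1
    exact h1
  have hns2 : ‖s‖ ≤ 2 * t := by
    calc ‖s‖ ≤ ‖(σ : ℂ)‖ + ‖(t : ℂ) * Complex.I‖ := norm_add_le _ _
      _ = |σ| + |t| := by simp
      _ ≤ 2 * t := by
        rw [abs_of_nonneg (by (clear * - hσ; linarith)), abs_of_pos ht0]; (clear * - hσ2 ht; linarith)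
  rw [div_le_iff₀ (by (clear * - ht hns; linarith))]
  refine (norm_add_le _ _).trans ?_
  have b1 : ‖((N : ℂ) + 1) ^ (1 - s)‖ ≤ 2 * ‖s - 1‖ := by
    have h2 : ((N : ℂ) + 1) = (((N : ℝ) + 1 : ℝ) : ℂ) := by push_cast; ring
    rw [h2, Complex.norm_cpow_eq_rpow_re_of_pos (by (clear * - hN1; positivity))]
    have h3 : (1 - s).re = 1 - σ := by simp [hre]
    rw [h3]
    have h4 : ((N : ℝ) + 1) ^ (1 - σ) ≤ ((N : ℝ) + 1) ^ (1 / 2 : ℝ) :=
      Real.rpow_le_rpow_of_exponent_le (by (clear * - hN0; linarith)) (by (clear * - hσ; linarith))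
    have h5 : ((N : ℝ) + 1) ^ (1 / 2 : ℝ) ≤ 2 * t := by
      rw [← Real.sqrt_eq_rpow, Real.sqrt_le_left (by positivity)]
      (clear * - ht hNle hN0; nlinarith)
    linarith
  have b2 := tail_TT (s := s) (by rw [hre]; exact hσ) hN1
  have b3 : ‖s‖ * (2 * (N : ℝ) ^ (-(1 / 2) : ℝ)) ≤ 8 := by
    have h6 : (N : ℝ) ^ (-(1 / 2) : ℝ) ≤ 2 / t := by
      rw [Real.rpow_neg hN0.le, ← Real.sqrt_eq_rpow, inv_le_comm₀ (Real.sqrt_pos.2 hN0)
        (by positivity), inv_div]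
      apply Real.le_sqrt_of_sq_le
      (clear * - hNge hN0; nlinarith)
    calc ‖s‖ * (2 * (N : ℝ) ^ (-(1 / 2) : ℝ)) ≤ (2 * t) * (2 * (2 / t)) := by (clear * - hns2 h6 hN1 ht; gcongr)
      _ = 8 := by field_simp; norm_num
  have b4 : ‖s - 1‖ * ‖s‖ * (2 * (N : ℝ) ^ (-(1 / 2) : ℝ)) ≤ 8 * ‖s - 1‖ := by
    have := mul_le_mul_of_nonneg_left b3 (norm_nonneg (s - 1))
    (clear * - this; linarith)
  (clear * - b1 b2 b4; linarith)

/-! ### dyadic decomposition -/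

theorem dyadic_aux (F : ℕ → ℂ) (B : ℝ) (M : ℕ) (hB : 0 ≤ B)
    (hF : ∀ N N1 : ℕ, 1 ≤ N → N < N1 → N1 ≤ 2 * N → N1 ≤ M → ‖∑ n ∈ Finset.Ioc N N1, F n‖ ≤ B) :
    ∀ J K : ℕ, K ≤ M → K ≤ 2 ^ J → ‖∑ n ∈ Finset.Ioc 1 K, F n‖ ≤ J * B := by
  intro J
  induction J with
  | zero =>
    intro K _ hK
    rw [Finset.Ioc_eq_empty (by simp at hK; omega)]
    simp
  | succ J ih =>
    intro K hKM hK
    by_cases h1 : K ≤ 1
    · rw [Finset.Ioc_eq_empty (by omega)]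
      simp only [Finset.sum_empty, norm_zero]
      (clear * - hB; positivity)
    push Not at h1
    set N := (K + 1) / 2 with hN
    have hN1 : 1 ≤ N := by omega
    have hNK : N < K := by omega
    have hK2 : K ≤ 2 * N := by omega
    have hNJ : N ≤ 2 ^ J := by
      rw [pow_succ] at hK; omega
    have e : Finset.Ioc 1 K = Finset.Ioc 1 N ∪ Finset.Ioc N K :=
      (Finset.Ioc_union_Ioc_eq_Ioc hN1 hNK.le).symm
    have hd : Disjoint (Finset.Ioc 1 N) (Finset.Ioc N K) := by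
      rw [Finset.disjoint_left]
      intro n h h'
      rw [Finset.mem_Ioc] at h h'
      omega
    rw [e, Finset.sum_union hd]
    refine (norm_add_le _ _).trans ?_
    have h2 := ih N (by omega) hNJ
    have h3 := hF N K hN1 hNK hK2 hKM
    push_cast
    (clear * - h2 h3; linarith)

/-- the dyadic decomposition of `[1, x]` -/
theorem dyadic (F : ℕ → ℂ) (B : ℝ) (M : ℕ) (hM : 1 ≤ M) (hB : 0 ≤ B) (h1 : ‖F 1‖ ≤ B)
    (hF : ∀ N N1 : ℕ, 1 ≤ N → N < N1 → N1 ≤ 2 * N → N1 ≤ M → ‖∑ n ∈ Finset.Ioc N N1, F n‖ ≤ B) :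
    ‖∑ n ∈ Finset.Icc 1 M, F n‖ ≤ (2 * Real.log M + 2) * B := by
  have e : Finset.Icc 1 M = insert 1 (Finset.Ioc 1 M) := by
    ext n; simp only [Finset.mem_Icc, Finset.mem_insert, Finset.mem_Ioc]; omega
  rw [e, Finset.sum_insert (by simp)]
  refine (norm_add_le _ _).trans ?_
  have h2 := dyadic_aux F B M hB hF (Nat.clog 2 M) M le_rfl (Nat.le_pow_clog (by norm_num) M)
  have h3 : ((Nat.clog 2 M : ℕ) : ℝ) ≤ 2 * Real.log M + 1 := by
    rcases Nat.lt_or_ge M 2 with h | h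
    · have : M = 1 := by omega
      subst this
      simp
    · have h4 : 2 ^ (Nat.clog 2 M - 1) < M := by
        have := Nat.pow_pred_clog_lt_self (b := 2) (by norm_num) (x := M) (by omega)
        simpa using this
      have h5 : ((Nat.clog 2 M - 1 : ℕ) : ℝ) * Real.log 2 ≤ Real.log M := by
        rw [← Real.log_pow]
        apply Real.log_le_log (by positivity)
        exact_mod_cast h4.le
      have h6 : 1 ≤ Nat.clog 2 M := Nat.one_le_iff_ne_zero.2 (by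
        intro h0
        have := (Nat.clog_pos (b := 2) (by norm_num) (n := M) h)
        omega)
      rw [Nat.cast_sub h6] at h5
      push_cast at h5
      have hl2 := Real.log_two_gt_d9
      have h7 : 0 ≤ ((Nat.clog 2 M : ℕ) : ℝ) - 1 := by
        have : (1 : ℝ) ≤ ((Nat.clog 2 M : ℕ) : ℝ) := by exact_mod_cast h6
        (clear * - this; linarith)
      (clear * - h5 h7 hl2; nlinarith)
  have h4 := mul_le_mul_of_nonneg_right h3 hB
  (clear * - h1 h2 h4; linarith)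

end Pool.Agent.M17.Helper67.KSZ
end
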