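import Mathlib
import Pool.Agent.Helper53.KM.G02
import Pool.Agent.Helper53.KM.G11

/- Helper53.KN.Helper73.KSZ.N6 -/
section
/-! KSZ-N6: partial sums of zeta at a zero near the line 1. -/

set_option autoImplicit false
open Filter Topology Complex

namespace Pool.Agent.M17.Helper73.KSZ

open Pool.Agent.M17.Helper69.QRH Pool.Agent.M17.Helper18.KSZ

/-- telescoping -/
lemma sum_TT (s : ℂ) (N : ℕ) : ∑ n ∈ Finset.range N, TT n s =
    (s - 1) * (∑ n ∈ Finset.Icc 1 N, (n : ℂ) ^ (-s)) + (((N : ℂ) + 1) ^ (1 - s) - 1) := by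
  induction N with
  | zero => simp
  | succ N ih =>
    rw [Finset.sum_range_succ, Finset.sum_Icc_succ_top (by omega), ih]
    unfold TT
    push_cast
    have h1 : (N : ℂ) + 1 + 1 = N + 2 := by ring
    rw [h1]
    ring

/-- tail of the power series -/
lemma tsum_tail_le {σ : ℝ} (hσ : 0 < σ) {N : ℕ} (hN : 1 ≤ N) :
    ∑' n : ℕ, (((n + N : ℕ) : ℝ) + 1) ^ (-σ - 1) ≤ (N : ℝ) ^ (-σ) / σ := by
  have hN0 : (0 : ℝ) < N := by exact_mod_cast hN
  have hnn : ∀ n : ℕ, 0 ≤ (((n + N : ℕ) : ℝ) + 1) ^ (-σ - 1) := fun n =>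
    Real.rpow_nonneg (by (clear * - hN; positivity)) _
  refine Real.tsum_le_of_sum_range_le hnn fun K => ?_
  -- mean value: x^{-σ-1} σ ≤ (x-1)^{-σ} - x^{-σ}
  have key : ∀ m : ℕ, 1 ≤ m → (((m : ℕ) : ℝ) + 1) ^ (-σ - 1) ≤
      ((m : ℝ) ^ (-σ) - ((m : ℝ) + 1) ^ (-σ)) / σ := by
    intro m hm
    have hm0 : (0 : ℝ) < m := by exact_mod_cast hm
    rw [le_div_iff₀ hσ]
    obtain ⟨c, hc, hc'⟩ := exists_hasDerivAt_eq_slope (fun y : ℝ => y ^ (-σ))
      (fun y : ℝ => -σ * y ^ (-σ - 1)) (show (m : ℝ) < m + 1 by (clear * -; linarith))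
      (by
        intro y hy
        exact (Real.continuousAt_rpow_const _ _ (Or.inl (by
          have := hy.1
          (clear * - hm0 this; linarith)))).continuousWithinAt)
      (by
        intro y hy
        have hy0 : y ≠ 0 := by
          have := hy.1
          (clear * - hm0 this; linarith)
        simpa using Real.hasDerivAt_rpow_const (p := -σ) (Or.inl hy0))
    have h1 : (m : ℝ) + 1 - m = 1 := by ring
    rw [h1, div_one] at hc'
    have h2 : ((m : ℝ) + 1) ^ (-σ - 1) ≤ c ^ (-σ - 1) :=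
      Real.rpow_le_rpow_of_nonpos (by (clear * - hm0 hc; linarith [hc.1])) hc.2.le (by (clear * - hσ; linarith))
    (clear * - hc' hσ h2; nlinarith)
  calc ∑ n ∈ Finset.range K, (((n + N : ℕ) : ℝ) + 1) ^ (-σ - 1)
      ≤ ∑ n ∈ Finset.range K, ((((n + N : ℕ) : ℝ) ^ (-σ) - (((n + 1 + N : ℕ) : ℝ)) ^ (-σ)) / σ) := by
        refine Finset.sum_le_sum fun n _ => ?_
        have := key (n + N) (by omega)
        have h3 : (((n + 1 + N : ℕ) : ℝ)) = ((n + N : ℕ) : ℝ) + 1 := by push_cast; ring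
        rw [h3]
        exact this
    _ = (((0 + N : ℕ) : ℝ) ^ (-σ) - (((K + N : ℕ) : ℝ)) ^ (-σ)) / σ := by
        rw [← Finset.sum_div, Finset.sum_range_sub' (fun n : ℕ => (((n + N : ℕ) : ℝ)) ^ (-σ))]
    _ ≤ (N : ℝ) ^ (-σ) / σ := by
        rw [Nat.zero_add]
        refine div_le_div_of_nonneg_right ?_ hσ.le
        have : 0 ≤ (((K + N : ℕ) : ℝ)) ^ (-σ) := Real.rpow_nonneg (by (clear * - hN; positivity)) _
        (clear * - this; linarith)

/-- approximation of zeta by partial sums, multiplied by `s - 1` -/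
lemma EZ_approx {s : ℂ} (hs : 1 / 4 < s.re) {N : ℕ} (hN : 1 ≤ N) :
    ‖EZ s - ((s - 1) * (∑ n ∈ Finset.Icc 1 N, (n : ℂ) ^ (-s)) + ((N : ℂ) + 1) ^ (1 - s))‖ ≤
      ‖s - 1‖ * ‖s‖ * ((N : ℝ) ^ (-s.re) / s.re) := by
  have hs0 : 0 < s.re := by (clear * - hs; linarith)
  have hS : Summable (fun n : ℕ => TT n s) := by
    refine Summable.of_norm_bounded
      ((summable_rpow_aux (r := -s.re - 1) (by (clear * - hs0; linarith))).mul_left (‖s - 1‖ * ‖s‖)) fun n => ?_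
    exact TT_bound n hs0
  have h1 : EZ s - ((s - 1) * (∑ n ∈ Finset.Icc 1 N, (n : ℂ) ^ (-s)) + ((N : ℂ) + 1) ^ (1 - s)) =
      ∑' n : ℕ, TT (n + N) s := by
    rw [EZ_eq_tsum hs, ← hS.sum_add_tsum_nat_add N, sum_TT]
    ring
  rw [h1]
  have hsum : Summable (fun n : ℕ => (((n + N : ℕ) : ℝ) + 1) ^ (-s.re - 1)) :=
    (summable_nat_add_iff N).2 (summable_rpow_aux (r := -s.re - 1) (by linarith))
  refine (tsum_of_norm_bounded (hsum.mul_left (‖s - 1‖ * ‖s‖)).hasSum fun n => ?_).trans ?_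
  · exact TT_bound (n + N) hs0
  · rw [tsum_mul_left]
    exact mul_le_mul_of_nonneg_left (tsum_tail_le hs0 hN) (by positivity)

/-- partial sums at a zero -/
lemma partial_sum_zero {ρ : ℂ} (h0 : riemannZeta ρ = 0) (hs : 1 / 4 < ρ.re) {N : ℕ} (hN : 1 ≤ N) :
    ‖∑ n ∈ Finset.Icc 1 N, (n : ℂ) ^ (-ρ)‖ ≤
      ((N : ℝ) + 1) ^ (1 - ρ.re) / ‖ρ - 1‖ + ‖ρ‖ * ((N : ℝ) ^ (-ρ.re) / ρ.re) := by
  have h1 : ρ ≠ 1 := by
    rintro rfl
    exact riemannZeta_ne_zero_of_one_le_re (by simp) h0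
  have h2 : 0 < ‖ρ - 1‖ := norm_pos_iff.2 (sub_ne_zero.2 h1)
  have hE : EZ ρ = 0 := by rw [EZ_eq h1, h0, mul_zero]
  have h3 := EZ_approx hs hN
  rw [hE, zero_sub, norm_neg] at h3
  have h4 : ‖((N : ℂ) + 1) ^ (1 - ρ)‖ = ((N : ℝ) + 1) ^ (1 - ρ.re) := by
    have h5 : ((N : ℂ) + 1) = (((N : ℝ) + 1 : ℝ) : ℂ) := by push_cast; ring
    rw [h5, Complex.norm_cpow_eq_rpow_re_of_pos (by (clear * - hN; positivity))]
    simp
  have h5 : ‖ρ - 1‖ * ‖∑ n ∈ Finset.Icc 1 N, (n : ℂ) ^ (-ρ)‖ ≤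
      ((N : ℝ) + 1) ^ (1 - ρ.re) + ‖ρ - 1‖ * ‖ρ‖ * ((N : ℝ) ^ (-ρ.re) / ρ.re) := by
    rw [← norm_mul, ← h4]
    have h6 : (ρ - 1) * ∑ n ∈ Finset.Icc 1 N, (n : ℂ) ^ (-ρ) =
        ((ρ - 1) * (∑ n ∈ Finset.Icc 1 N, (n : ℂ) ^ (-ρ)) + ((N : ℂ) + 1) ^ (1 - ρ)) -
          ((N : ℂ) + 1) ^ (1 - ρ) := by ring
    rw [h6]
    refine (norm_sub_le _ _).trans ?_
    (clear * - h3; linarith)
  rw [← le_div_iff₀' h2] at h5
  refine h5.trans (le_of_eq ?_)
  (clear * - hs h2 hN; field_simp)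

theorem zeroSum (h : ExpSum) : ZeroSum := by
  obtain ⟨c, ε, X0, hc, hε, hX⟩ := h
  set ε' : ℝ := min ε (1 / 20) with hε'
  have hε'0 : 0 < ε' := lt_min hε (by norm_num)
  set c' : ℝ := min c (1 / 10) / 2 with hc'
  have hc'0 : 0 < c' := by
    rw [hc']
    have : 0 < min c (1 / 10) := lt_min hc (by norm_num)
    (clear * - this; linarith)
  -- threshold: X^{c'} ≥ 6
  obtain ⟨X1, hX1⟩ : ∃ X1 : ℝ, ∀ X : ℝ, X1 ≤ X → 6 ≤ X ^ c' := by
    have := (tendsto_rpow_atTop hc'0).eventually_ge_atTop 6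
    exact this.exists_forall_of_atTop
  refine ⟨c', ε', max (max X0 X1) 2, hc'0, hε'0, fun X hXX ρ hρ hre him1 him2 M hM1 hM2 => ?_⟩
  have hX0 : X0 ≤ X := (le_max_left _ _).trans ((le_max_left _ _).trans hXX)
  have hX1' : X1 ≤ X := (le_max_right _ _).trans ((le_max_left _ _).trans hXX)
  have hX2 : 2 ≤ X := (le_max_right _ _).trans hXX
  have hXpos : 0 < X := by (clear * - hX2; linarith)
  have hX1le : 1 ≤ X := by (clear * - hX2; linarith)
  have hre1 : ρ.re ≤ 1 := by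
    by_contra hcon
    push Not at hcon
    exact riemannZeta_ne_zero_of_one_le_re hcon.le hρ
  have hre19 : 19 / 20 ≤ ρ.re := by
    have : ε' ≤ 1 / 20 := min_le_right _ _
    (clear * - hre this; linarith)
  set N : ℕ := ⌊X ^ (2 : ℝ)⌋₊ with hN
  have hX2X : X ≤ X ^ (2 : ℝ) := by
    nth_rw 1 [← Real.rpow_one X]
    exact Real.rpow_le_rpow_of_exponent_le hX1le (by norm_num)
  have hNle : (N : ℝ) ≤ X ^ (2 : ℝ) := Nat.floor_le (by positivity)
  have hNge : X ^ (2 : ℝ) / 2 ≤ N := by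
    have h1 := Nat.lt_floor_add_one (X ^ (2 : ℝ))
    rw [← hN] at h1
    have : (2 : ℝ) ≤ X ^ (2 : ℝ) := hX2.trans hX2X
    (clear * - hX2 hX2X h1; linarith)
  have hMN : M ≤ N := by
    refine Nat.le_floor ?_
    exact hM2.trans hX2X
  have hNpos : (0 : ℝ) < N := by
    refine lt_of_lt_of_le ?_ hNge
    positivity
  have hN1 : 1 ≤ N := by exact_mod_cast hNpos
  -- the long sum
  have hlong := partial_sum_zero hρ (by (clear * - hre19; linarith)) hN1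
  have hshort := hX X hX0 ρ.im ((Real.rpow_le_rpow_of_exponent_le hX1le (by norm_num)).trans him1)
    (him2.trans (Real.rpow_le_rpow_of_exponent_le hX1le (by norm_num))) M N
    ((Real.rpow_le_rpow_of_exponent_le hX1le (by norm_num)).trans hM1) hMN
    (hNle.trans (Real.rpow_le_rpow_of_exponent_le hX1le (by norm_num))) ρ.re
    (by
      have : ε' ≤ ε := min_le_left _ _
      (clear * - hre this; linarith)) hre1
  rw [Complex.re_add_im] at hshort
  have hsplit : ∑ n ∈ Finset.Icc 1 M, (n : ℂ) ^ (-ρ) =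
      ∑ n ∈ Finset.Icc 1 N, (n : ℂ) ^ (-ρ) - ∑ n ∈ Finset.Ioc M N, (n : ℂ) ^ (-ρ) := by
    have h1 : Finset.Icc 1 M = Finset.Ioc 0 M := rfl
    have h2 : Finset.Icc 1 N = Finset.Ioc 0 N := rfl
    rw [h1, h2, ← Finset.sum_Ioc_consecutive _ (Nat.zero_le M) hMN]
    ring
  rw [hsplit]
  refine (norm_sub_le _ _).trans ?_
  have hnorm1 : X ^ (3 / 10 : ℝ) ≤ ‖ρ - 1‖ := by
    refine him1.trans ?_
    have := Complex.abs_im_le_norm (ρ - 1)
    simpa using this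
  have hnorm2 : ‖ρ‖ ≤ 2 * X ^ (6 / 10 : ℝ) := by
    refine (Complex.norm_le_abs_re_add_abs_im ρ).trans ?_
    have h1 : |ρ.re| ≤ 1 := by rw [abs_le]; constructor <;> (clear * - hre19 hre1; linarith)
    have h2 : 1 ≤ X ^ (6 / 10 : ℝ) := Real.one_le_rpow hX1le (by norm_num)
    (clear * - him2 h1 h2; linarith)
  -- first term
  have hA : ((N : ℝ) + 1) ^ (1 - ρ.re) / ‖ρ - 1‖ ≤ 2 * X ^ (-(1 / 5) : ℝ) := by
    have h1 : ((N : ℝ) + 1) ^ (1 - ρ.re) ≤ (2 * X ^ (2 : ℝ)) ^ (1 / 20 : ℝ) := by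
      have h2 : ((N : ℝ) + 1) ≤ 2 * X ^ (2 : ℝ) := by
        have : 1 ≤ X ^ (2 : ℝ) := Real.one_le_rpow hX1le (by norm_num)
        (clear * - hX2 hX2X hNle; linarith)
      have h3 : (1 : ℝ) ≤ (N : ℝ) + 1 := by (clear * - hX2 hX2X hNge; linarith)
      calc ((N : ℝ) + 1) ^ (1 - ρ.re) ≤ ((N : ℝ) + 1) ^ (1 / 20 : ℝ) :=
            Real.rpow_le_rpow_of_exponent_le h3 (by (clear * - hre19; linarith))
        _ ≤ _ := Real.rpow_le_rpow (by (clear * - hN1; positivity)) h2 (by norm_num)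
    have h4 : (2 * X ^ (2 : ℝ)) ^ (1 / 20 : ℝ) ≤ 2 * X ^ (1 / 10 : ℝ) := by
      rw [Real.mul_rpow (by norm_num) (by (clear * - hX2; positivity)), ← Real.rpow_mul hXpos.le]
      have h5 : (2 : ℝ) ^ (1 / 20 : ℝ) ≤ 2 := by
        calc (2 : ℝ) ^ (1 / 20 : ℝ) ≤ (2 : ℝ) ^ (1 : ℝ) :=
              Real.rpow_le_rpow_of_exponent_le (by norm_num) (by norm_num)
          _ = 2 := Real.rpow_one 2
      have h6 : (2 : ℝ) * (1 / 20) = 1 / 10 := by norm_num
      rw [h6]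
      exact mul_le_mul_of_nonneg_right h5 (by positivity)
    calc ((N : ℝ) + 1) ^ (1 - ρ.re) / ‖ρ - 1‖ ≤ (2 * X ^ (1 / 10 : ℝ)) / X ^ (3 / 10 : ℝ) :=
          div_le_div₀ (by positivity) (h1.trans h4) (by positivity) hnorm1
      _ = 2 * X ^ (-(1 / 5) : ℝ) := by
          rw [mul_div_assoc, ← Real.rpow_sub hXpos]
          norm_num
  -- second term
  have hB : ‖ρ‖ * ((N : ℝ) ^ (-ρ.re) / ρ.re) ≤ 3 * (2 * X ^ (-(1 / 5) : ℝ)) := by
    have h1 : (N : ℝ) ^ (-ρ.re) ≤ 2 * X ^ (-(19 / 10) : ℝ) := by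
      calc (N : ℝ) ^ (-ρ.re) ≤ (X ^ (2 : ℝ) / 2) ^ (-ρ.re) :=
            Real.rpow_le_rpow_of_nonpos (by (clear * - hX2; positivity)) hNge (by (clear * - hre19; linarith))
        _ ≤ (X ^ (2 : ℝ) / 2) ^ (-(19 / 20) : ℝ) := by
            refine Real.rpow_le_rpow_of_exponent_le ?_ (by (clear * - hre19; linarith))
            have h9 : X * X ≤ X ^ (2 : ℝ) := by
              have : X ^ (2 : ℝ) = X * X := by
                rw [show (2 : ℝ) = ((2 : ℕ) : ℝ) by norm_num, Real.rpow_natCast]; ring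
              rw [this]
            (clear * - hX2 hX2X; nlinarith)
        _ = (2 : ℝ) ^ (19 / 20 : ℝ) * X ^ (-(19 / 10) : ℝ) := by
            rw [Real.div_rpow (by positivity) (by norm_num), ← Real.rpow_mul hXpos.le,
              Real.rpow_neg (by norm_num : (0 : ℝ) ≤ 2), div_inv_eq_mul, mul_comm]
            congr 2
            norm_num
        _ ≤ 2 * X ^ (-(19 / 10) : ℝ) := by
            refine mul_le_mul_of_nonneg_right ?_ (by positivity)
            calc (2 : ℝ) ^ (19 / 20 : ℝ) ≤ (2 : ℝ) ^ (1 : ℝ) :=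
                  Real.rpow_le_rpow_of_exponent_le (by norm_num) (by norm_num)
              _ = 2 := Real.rpow_one 2
    have h2 : (N : ℝ) ^ (-ρ.re) / ρ.re ≤ (2 * X ^ (-(19 / 10) : ℝ)) / (19 / 20) :=
      div_le_div₀ (by positivity) h1 (by norm_num) hre19
    calc ‖ρ‖ * ((N : ℝ) ^ (-ρ.re) / ρ.re) ≤
          (2 * X ^ (6 / 10 : ℝ)) * ((2 * X ^ (-(19 / 10) : ℝ)) / (19 / 20)) :=
          mul_le_mul hnorm2 h2 (by positivity) (by positivity)
      _ = (80 / 19) * X ^ (-(13 / 10) : ℝ) := by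
          have : X ^ (-(13 / 10) : ℝ) = X ^ (6 / 10 : ℝ) * X ^ (-(19 / 10) : ℝ) := by
            rw [← Real.rpow_add hXpos]; norm_num
          rw [this]; ring
      _ ≤ 3 * (2 * X ^ (-(1 / 5) : ℝ)) := by
          have h5 : X ^ (-(13 / 10) : ℝ) ≤ X ^ (-(1 / 5) : ℝ) :=
            Real.rpow_le_rpow_of_exponent_le hX1le (by norm_num)
          have h6 : 0 ≤ X ^ (-(1 / 5) : ℝ) := by positivity
          (clear * - h5 h6; nlinarith)
  -- conclusion
  have hC6 := hX1 X hX1'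
  have hc1 : X ^ (-c) ≤ X ^ (-(2 * c')) := by
    refine Real.rpow_le_rpow_of_exponent_le hX1le ?_
    rw [hc']
    have := min_le_left c (1 / 10)
    (clear * - this; linarith)
  have hc2 : X ^ (-(1 / 5) : ℝ) ≤ X ^ (-(2 * c')) * (1/ 2) := by
    have h7 : X ^ (-(1 / 5) : ℝ) = X ^ (-(1/10) : ℝ) * X ^ (-(1/10) : ℝ) := by
      rw [← Real.rpow_add hXpos]; norm_num
    have h8 : X ^ (-(1/10) : ℝ) ≤ X ^ (-(2 * c')) := by
      refine Real.rpow_le_rpow_of_exponent_le hX1le ?_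
      rw [hc']
      have := min_le_right c (1 / 10)
      (clear * - this; linarith)
    have h9 : X ^ (-(1/10) : ℝ) ≤ 1 / 6 := by
      have h10 : X ^ (-(1/10) : ℝ) ≤ X ^ (-c') := by
        refine Real.rpow_le_rpow_of_exponent_le hX1le ?_
        rw [hc']
        have := min_le_right c (1 / 10)
        (clear * - this; linarith)
      refine h10.trans ?_
      rw [Real.rpow_neg hXpos.le, one_div]
      exact inv_anti₀ (by norm_num) hC6
    have h11 : 0 ≤ X ^ (-(1/10) : ℝ) := by positivity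
    rw [h7]
    (clear * - h8 h9 h11; nlinarith)
  have hfin : X ^ (-(2 * c')) = X ^ (-c') * X ^ (-c') := by
    rw [← Real.rpow_add hXpos]; ring_nf
  have hinv : X ^ (-c') ≤ 1 / 6 := by
    rw [Real.rpow_neg hXpos.le, one_div]
    exact inv_anti₀ (by norm_num) hC6
  have hpos : 0 ≤ X ^ (-c') := by positivity
  have htot : ‖∑ n ∈ Finset.Icc 1 N, (n : ℂ) ^ (-ρ)‖ + ‖∑ n ∈ Finset.Ioc M N, (n : ℂ) ^ (-ρ)‖ ≤
      5 * X ^ (-(2 * c')) := by
    have h1 := hlong.trans (add_le_add hA hB)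
    (clear * - hlong hshort hA hB hc1 hc2; linarith)
  refine htot.trans ?_
  rw [hfin]
  (clear * - hinv hpos; nlinarith)

end Pool.Agent.M17.Helper73.KSZ
end
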