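import Mathlib
import Pool.Agent.Helper53.KM.G01
import Pool.Agent.Helper53.KM.G08
import Pool.Agent.Helper53.KM.G11

/- Helper53.KN.Helper16.KS.St -/
section
/-!
# Project KS (MP_768c9c_nt, S17468), construction D5: statements of the modules

Everything is stated for an arbitrary system `S : Sys`.  Sufficiently large constants may depend
on `S`.
-/

set_option autoImplicit false
open scoped Classical
open Filter Topology

namespace Pool.Agent.M17.Helper16.KS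

namespace Sys

variable (S : Sys)

/-! ## The events -/

/-- number of owners (active candidates) of the control prime `q` -/
noncomputable def own (k0 : ℕ) (R : Set ℕ) (q : ℕ) : ℕ :=
  ∑ k ∈ Finset.Ico k0 (top q), ∑ j ∈ S.badc k, ((S.act R k j).filter (fun x => x.1 = q)).card

/-- what we need to know about the set `R` -/
structure Good (k0 : ℕ) (R : Set ℕ) : Prop where
  prime : ∀ r ∈ R, r.Prime ∧ (2 : ℝ) ^ ((k0 : ℝ) / 5) ≤ r
  lower : ∀ k, k0 ≤ k → ∀ j ∈ S.badc k, ((S.Cand k j).card : ℝ) / 2 ≤ S.NN R k j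
  win1 : ∀ k, k0 ≤ k → ∀ j ∈ S.badc k, ∀ x h : ℕ, (2 : ℝ) ^ (0.498 * (k : ℝ)) ≤ h →
    h ≤ 2 ^ ec S.d k →
    ∑ y ∈ (S.act R k j).filter (fun y => x ≤ y.1 * y.2 ∧ y.1 * y.2 < x + h), 1 / S.pr y.2 ≤
      2 * (S.C1 * (h / 2 ^ ec S.d k) * (S.Cand k j).card)
  win2 : ∀ k, k0 ≤ k → ∀ j ∈ S.badc k, ∀ x h : ℕ, (2 : ℝ) ^ (0.38 * (k : ℝ)) ≤ h →
    h ≤ 2 ^ ec S.d k →
    ∑ y ∈ (S.act R k j).filter (fun y => x ≤ y.1 * y.2 ∧ y.1 * y.2 < x + h), 1 / S.pr y.2 ≤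
      2 * (S.C1 * k * (h / 2 ^ ec S.d k) * (S.Cand k j).card)
  mult : ∀ q : ℕ, (S.own k0 R q : ℝ) ≤ (q : ℝ) ^ S.tau
  massR : ∀ T : Finset ℕ, (∀ r ∈ T, r ∈ R) →
    ∑ r ∈ T, S.base r * (r : ℝ) ^ (-S.s) * (1 + Real.log r) ^ 2 ≤
      (2 : ℝ) ^ (-(S.tau / 10) * (k0 : ℝ))
  massC : ∀ k, k0 ≤ k → ∑ j ∈ S.badc k, ∑ x ∈ S.act R k j, S.wd k x.2 * (x.1 : ℝ) ^ (-S.s) ≤
    (2 : ℝ) ^ (-(S.c / 4) * (k : ℝ))
  crude : ∀ k x h : ℕ, (k0 : ℝ) / 2 ≤ k → 2 ^ k ≤ x → x < 2 ^ (k + 1) →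
    (2 : ℝ) ^ ((1/2 - 3 * S.d) * k) ≤ h → h ≤ x →
    ∑ n ∈ Finset.Ico x (x + h), CM (S.Fh k0 R) n ≤ h * (2 : ℝ) ^ ((S.s - 1 + 7 * S.tau) * k)
  rpart : ∀ k x h : ℕ, (k0 : ℝ) / 2 ≤ k → 2 ^ k ≤ x → x < 2 ^ (k + 1) →
    (2 : ℝ) ^ ((1/2 - 3 * S.d) * k) ≤ h → h ≤ x →
    ∑ n ∈ (Finset.Ico x (x + h)).filter (rough k0),
      ∑ e ∈ n.divisors.filter (fun e : ℕ => (2 : ℝ) ^ ((k : ℝ) / 8) ≤ (e : ℝ) ∧ inR R e),
        S.base e * ((n / e : ℕ) : ℝ) ^ (S.s - 1) ≤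
      h * (2 : ℝ) ^ ((S.s - 1 - S.tau / 20) * k)
  heavy1 : ∀ k, k0 ≤ k → ∀ j < nc S.d k, S.HP k0 R k j Q1 ≤ (2 : ℝ) ^ (-(S.ep / 100) * k) * S.G k
  heavy2 : ∀ k, k0 ≤ k → ∀ j < nc S.d k,
    S.HP k0 R k j S.Q2 ≤ (2 : ℝ) ^ (-(S.ep / 100) * k) * S.G k

end Sys

/-! ## The main chain -/

/-- (SYS) a control system exists [number theory: Theorem C (Helper60 / KS), CountE2, F2, RoughAvail3,
power lemma] -/
def ExistsSys : Prop := Nonempty Sys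

/-- (E) a good set `R` exists [probability: helper62, from the first moment inequalities below] -/
def ExistsGood : Prop := ∀ S : Sys, ∃ K0 : ℕ, ∀ k0 : ℕ, K0 ≤ k0 → ∃ R : Set ℕ, S.Good k0 R

/-- (STAR) the main inequality -/
def GoodStar : Prop := ∀ S : Sys, ∃ K0 : ℕ, ∀ k0 : ℕ, K0 ≤ k0 → ∀ R : Set ℕ, S.Good k0 R →
  S.Star k0 R

/-- (FP) fixed point: all cell sums vanish.  (`3 ≤ k0`, `S.K ≤ k0`; the normalisers `NN` of the bad
cells are positive.)  The proof: the sum of `ft` over the cell `i` is `t i * G i + P i t`, `P i` a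
polynomial with nonnegative coefficients and `P i 2 ≤ G i / 4` by `Star`. -/
def FP : Prop := ∀ S : Sys, ∀ k0 : ℕ, 3 ≤ k0 → S.K ≤ k0 → ∀ R : Set ℕ,
  (∀ r ∈ R, r.Prime) → (∀ k, k0 ≤ k → ∀ j ∈ S.badc k, 0 < S.NN R k j) → S.Star k0 R →
  ∃ t : ℕ × ℕ → ℝ, (∀ i, |t i| ≤ 1) ∧
    ∑ n ∈ Finset.Ico 1 (2 ^ k0), S.ft k0 R t n = 0 ∧
    ∀ k, k0 ≤ k → ∀ j < nc S.d k, ∑ n ∈ cell S.d k j, S.ft k0 R t n = 0

/-- (Last) from vanishing cell sums to the decay of the partial sums -/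
def Last : Prop := ∀ S : Sys, ∀ k0 : ℕ, 3 ≤ k0 → ∀ R : Set ℕ,
  (∀ r ∈ R, r.Prime) → (∀ k, k0 ≤ k → ∀ j ∈ S.badc k, 0 < S.NN R k j) → S.Star k0 R →
  ∀ t : ℕ × ℕ → ℝ, (∀ i, |t i| ≤ 1) →
    ∑ n ∈ Finset.Ico 1 (2 ^ k0), S.ft k0 R t n = 0 →
    (∀ k, k0 ≤ k → ∀ j < nc S.d k, ∑ n ∈ cell S.d k j, S.ft k0 R t n = 0) →
    ∃ C : ℝ, ∀ N : ℕ, 1 ≤ N →
      |∑ n ∈ Finset.Icc 1 N, S.ft k0 R t n| ≤ C * (N : ℝ) ^ (-(1/2 + S.d / 2))

/-! ## First moment inequalities (deterministic), the input of `ExistsGood` -/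

/-- (LOAD1) non-direct loads, conditional on any finite set `A`
[helper18 / helper35: load theorem] -/
def Load1 : Prop := ∀ S : Sys, ∃ K0 : ℕ, ∀ k0 : ℕ, K0 ≤ k0 → ∀ k, k0 ≤ k → ∀ j < nc S.d k,
  ∀ A : Finset ℕ, S.LP k0 k j Sys.Q1 A ≤ (2 : ℝ) ^ (-(S.ep / 50) * k) * S.G k

/-- (LOAD2) direct loads with a large cofactor, conditional on any finite set `A` -/
def Load2 : Prop := ∀ S : Sys, ∃ K0 : ℕ, ∀ k0 : ℕ, K0 ≤ k0 → ∀ k, k0 ≤ k → ∀ j < nc S.d k,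
  ∀ A : Finset ℕ, S.LP k0 k j S.Q2 A ≤ (2 : ℝ) ^ (-(S.ep / 50) * k) * S.G k

/-- (CRUDE1) crude mass of windows -/
def Crude1 : Prop := ∀ S : Sys, ∃ K0 : ℕ, ∀ k0 : ℕ, K0 ≤ k0 → ∀ k x h : ℕ, (k0 : ℝ) / 2 ≤ k →
  2 ^ k ≤ x → x < 2 ^ (k + 1) → (2 : ℝ) ^ ((1/2 - 3 * S.d) * k) ≤ h → h ≤ x → ∀ A : Finset ℕ,
  S.CP k0 x h A ≤ h * (2 : ℝ) ^ ((S.s - 1 + 6.5 * S.tau) * k)

/-- (RPART1) numbers with a large divisor composed of elements of `R` -/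
def RPart1 : Prop := ∀ S : Sys, ∃ K0 : ℕ, ∀ k0 : ℕ, K0 ≤ k0 → ∀ k x h : ℕ, (k0 : ℝ) / 2 ≤ k →
  2 ^ k ≤ x → x < 2 ^ (k + 1) → (2 : ℝ) ^ ((1/2 - 3 * S.d) * k) ≤ h → h ≤ x → ∀ A : Finset ℕ,
  ∑ n ∈ (Finset.Ico x (x + h)).filter (Sys.rough k0),
    ∑ e ∈ n.divisors.filter (fun e : ℕ => (2 : ℝ) ^ ((k : ℝ) / 8) ≤ (e : ℝ) ∧ A ⊆ e.primeFactors),
      S.base e * ((n / e : ℕ) : ℝ) ^ (S.s - 1) * S.pc A e.primeFactors ≤
    h * (2 : ℝ) ^ ((S.s - 1 - S.tau / 10) * k)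

/-- (MULT1) number of owners of a prime, all proper conditionings (`A` a strict subset of the
support) -/
def Mult1 : Prop := ∀ S : Sys, ∃ K0 : ℕ, ∀ k : ℕ, K0 ≤ k → ∀ q : ℕ, ∀ A : Finset ℕ,
  ∑ j ∈ S.badc k, ∑ x ∈ (S.Cand k j).filter (fun x => x.1 = q ∧ A ⊂ x.2.primeFactors),
    S.pc A x.2.primeFactors ≤ (2 : ℝ) ^ (-(S.c / 2) * (k : ℝ))

/-- (MASSC1) mass of the control primes -/
def MassC1 : Prop := ∀ S : Sys, ∃ K0 : ℕ, ∀ k : ℕ, K0 ≤ k → ∀ A : Finset ℕ,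
  ∑ j ∈ S.badc k, ∑ x ∈ (S.Cand k j).filter (fun x => A ⊆ x.2.primeFactors),
    S.wd k x.2 * (x.1 : ℝ) ^ (-S.s) * S.pc A x.2.primeFactors ≤ (2 : ℝ) ^ (-(S.c / 2) * (k : ℝ))

/-- (MASSR1) mass of `R` -/
def MassR1 : Prop := ∀ S : Sys, ∃ K0 : ℕ, ∀ k0 : ℕ, K0 ≤ k0 → ∀ T : Finset ℕ,
  (∀ r ∈ T, (2 : ℝ) ^ ((k0 : ℝ) / 5) ≤ r) →
  ∑ r ∈ T, S.pr r * (S.base r * (r : ℝ) ^ (-S.s) * (1 + Real.log r) ^ 2) ≤
    (2 : ℝ) ^ (-(S.tau / 6) * (k0 : ℝ))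

/-- (CAND1) proper conditionings of the candidates of a bad cell in a window (in particular of all
the candidates): the conditional normalised number is smaller by a power than the window, also after
multiplication with the number of bad cells of the class if the window is the whole cell. -/
def Cand1 : Prop := ∀ S : Sys, ∃ K0 : ℕ, ∀ k : ℕ, K0 ≤ k → ∀ j ∈ S.badc k,
  ∀ A : Finset ℕ, A.Nonempty →
  (∑ x ∈ (S.Cand k j).filter (fun x => A ⊆ x.2.primeFactors),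
      S.pc A x.2.primeFactors / S.pr x.2 ≤
    (2 : ℝ) ^ (-(S.u (S.cls k j) + S.c / 2) * k) * 2 ^ ec S.d k) ∧
  ∀ x h : ℕ, (2 : ℝ) ^ (0.38 * (k : ℝ)) ≤ h →
    ∑ y ∈ (S.Cand k j).filter (fun y => A ⊆ y.2.primeFactors ∧ x ≤ y.1 * y.2 ∧ y.1 * y.2 < x + h),
      S.pc A y.2.primeFactors / S.pr y.2 ≤ (2 : ℝ) ^ (-(0.01 : ℝ) * k) * h

/-! ## Consequences of `Good`, the parts of `GoodStar` -/

/-- (WOLE) `NN ≥ card / 2` and `many` -/
def WoLe : Prop := ∀ S : Sys, ∃ K0 : ℕ, ∀ k0 : ℕ, K0 ≤ k0 → ∀ R : Set ℕ, S.Good k0 R →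
  ∀ k, k0 ≤ k → ∀ j ∈ S.badc k, ∀ m : ℕ, 1 ≤ m →
    0 ≤ S.wo R k j m ∧ S.wo R k j m ≤ (2 / S.c1) / (k : ℝ) ^ 2 * S.wd k m

/-- (ORDLE) ordinary weights -/
def OrdLe : Prop := ∀ S : Sys, ∃ C : ℝ, ∃ K0 : ℕ, ∀ k0 : ℕ, K0 ≤ k0 → ∀ p : ℕ, p.Prime →
  0 ≤ S.ordw k0 p ∧ S.ordw k0 p ≤ C * ((p : ℝ) ^ (S.s - 1) / Real.log p ^ 3)

/-- (CTLLE) control weights -/
def CtlLe : Prop := ∀ S : Sys, ∃ K0 : ℕ, ∀ k0 : ℕ, K0 ≤ k0 → ∀ R : Set ℕ, S.Good k0 R →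
  ∀ q : ℕ, ∀ k1 ≤ top q, 0 ≤ S.ctl k0 k1 R q ∧ 2 * S.ctl k0 k1 R q ≤ (q : ℝ) ^ (S.s - 1 + 5 * S.tau)
    ∧ ((q : ℝ) < (2 : ℝ) ^ ((k0 : ℝ) / 3) → S.ctl k0 k1 R q = 0)

/-- (WPLE) `Wp ≤ Fh` -/
def WpLe : Prop := ∀ S : Sys, ∃ K0 : ℕ, ∀ k0 : ℕ, K0 ≤ k0 → ∀ R : Set ℕ, S.Good k0 R →
  ∀ p : ℕ, p.Prime → 0 ≤ S.Wp k0 R p ∧ S.Wp k0 R p ≤ S.Fh k0 R p

/-- (SUMW) the cofactors -/
def SumW : Prop := ∀ S : Sys, ∃ C : ℝ, ∃ K0 : ℕ, ∀ k0 : ℕ, K0 ≤ k0 → ∀ R : Set ℕ, S.Good k0 R →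
  ∀ T : Finset ℕ, (∀ n ∈ T, 2 ≤ n) →
    ∑ n ∈ T, S.W k0 R n * (n : ℝ) ^ (-S.s) * (1 + Real.log n) ^ 2 ≤ C / k0

/-- (RANK) light control part: numbers composed of control primes with owners in blocks `< κ` -/
def Rank : Prop := ∀ S : Sys, ∃ K0 : ℕ, ∀ k0 : ℕ, K0 ≤ k0 → ∀ R : Set ℕ, S.Good k0 R →
  ∀ T : Finset ℕ, (∀ n ∈ T, 2 ≤ n) → ∀ κ : ℕ,
    ∑ n ∈ T, CM (fun p => 6 * S.ctl k0 (min (top p) κ) R p) n * (n : ℝ) ^ (-S.s + S.c / 10) ≤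
      (2 : ℝ) ^ (-(S.c / 20) * (k0 : ℝ))

/-- (ORDWIN) ordinary numbers in windows `[x, x + h)`, `h ≥ x^(1/3)` -/
def OrdWin : Prop := ∀ S : Sys, ∃ C : ℝ, ∃ K0 : ℕ, ∀ k0 : ℕ, K0 ≤ k0 → ∀ x h : ℕ,
  (x : ℝ) ^ (1 / 3 : ℝ) ≤ h → h ≤ x → 2 ≤ x →
  ∑ n ∈ Finset.Ico x (x + h), CM (fun p => 6 * S.ordw k0 p) n ≤
    C * (h * (x : ℝ) ^ (S.s - 1) / Real.log x ^ 4) ∧
  ∑ n ∈ (Finset.Ico x (x + h)).filter (fun n => ¬ n.Prime), CM (fun p => 6 * S.ordw k0 p) n ≤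
    C / k0 * (h * (x : ℝ) ^ (S.s - 1) / Real.log x ^ 4)

/-- (LIGHT) cells, heavy control part removed -/
def Light : Prop := ∀ S : Sys, ∃ K0 : ℕ, ∀ k0 : ℕ, K0 ≤ k0 → ∀ R : Set ℕ, S.Good k0 R →
  ∀ k, k0 ≤ k → ∀ j < nc S.d k,
    ∑ n ∈ cell S.d k j, CM (S.Wl k0 R k) n ≤ (if S.bad k j then 0 else 2) * S.G k + S.G k / 20

/-- (EXPAND) expansion with respect to one heavy control prime -/
def Expand : Prop := ∀ S : Sys, ∃ K0 : ℕ, ∀ k0 : ℕ, K0 ≤ k0 → ∀ R : Set ℕ, S.Good k0 R →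
  ∀ k, k0 ≤ k → ∀ j < nc S.d k,
    ∑ n ∈ cell S.d k j, S.W k0 R n ≤ ∑ n ∈ cell S.d k j, CM (S.Wl k0 R k) n +
      (S.HT k0 R k j Sys.Q1 + S.HT k0 R k j S.Q2 + S.HT k0 R k j S.Q3 + S.HT k0 R k j Sys.Q4)

/-- (H12) non-direct terms and direct terms with large cofactor -/
def H12 : Prop := ∀ S : Sys, ∃ K0 : ℕ, ∀ k0 : ℕ, K0 ≤ k0 → ∀ R : Set ℕ, S.Good k0 R →
  ∀ k, k0 ≤ k → ∀ j < nc S.d k, S.HT k0 R k j Sys.Q1 + S.HT k0 R k j S.Q2 ≤ S.G k / 20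

/-- (H3) direct terms with small cofactor -/
def H3 : Prop := ∀ S : Sys, ∃ K0 : ℕ, ∀ k0 : ℕ, K0 ≤ k0 → ∀ R : Set ℕ, S.Good k0 R →
  ∀ k, k0 ≤ k → ∀ j < nc S.d k, S.HT k0 R k j S.Q3 ≤ S.G k / 20

/-- (H4) own terms -/
def H4 : Prop := ∀ S : Sys, ∃ K0 : ℕ, ∀ k0 : ℕ, K0 ≤ k0 → ∀ R : Set ℕ, S.Good k0 R →
  ∀ k, k0 ≤ k → ∀ j < nc S.d k,
    S.HT k0 R k j Sys.Q4 ≤ (if S.bad k j then 2 else 0) * S.G k + S.G k / 20

/-- (INIT) the initial cell -/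
def Init : Prop := ∀ S : Sys, ∃ K0 : ℕ, ∀ k0 : ℕ, K0 ≤ k0 → ∀ R : Set ℕ, S.Good k0 R →
  ∑ n ∈ Finset.Ico 1 (2 ^ k0), S.W k0 R n ≤ (2 + 1/4) * S.G0 k0

end Pool.Agent.M17.Helper16.KS
end

/- Helper53.KN.Helper33.KSZ.ZetaLocal -/
section
/-! KSZ A9: zeta locally. -/

set_option autoImplicit false
open Filter Topology Complex Metric

namespace Pool.Agent.M17.Helper33.KSZ

open Pool.Agent.M17.Helper10.QRH Pool.Agent.M17.Helper69.QRH

/-- Landau's lemma for `EZ` at `2 + i t`. -/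
theorem local_EZ : ∃ C : ℝ, 0 < C ∧ ∀ t : ℝ, ∃ S : Finset ℂ,
    (∀ z, z ∈ S ↔ z ∈ closedBall ((2 : ℂ) + t * I) 1.6 ∧ EZ z = 0) ∧
    (∑ c ∈ S, (analyticOrderNatAt EZ c : ℝ)) ≤ C * Real.log (|t| + 2) ∧
    ∀ z ∈ closedBall ((2 : ℂ) + t * I) 1.5, EZ z ≠ 0 →
      ‖deriv EZ z / EZ z - ∑ c ∈ S, (analyticOrderNatAt EZ c : ℂ) / (z - c)‖ ≤
        C * Real.log (|t| + 2) := by
  obtain ⟨C₀, hC₀, hEZ⟩ := EZ_bound'
  obtain ⟨C, hC, hlog⟩ := log_bound (K := 3 * C₀) (by positivity)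
  have hlog2 : 0 < Real.log 2 := Real.log_pos (by norm_num)
  have hL : 0 < Real.log (1.7 / 1.6 : ℝ) := Real.log_pos (by norm_num)
  set A : ℝ := 8 * 1.6 / (1.6 - 1.5) ^ 2 + 1 / Real.log (1.7 / 1.6) * (1.6 / (1.7 ^ 2 - 1.6 * 1.5))
    with hA
  have hA0 : 0 < A := by
    rw [hA]
    have : (0 : ℝ) < 1.6 / (1.7 ^ 2 - 1.6 * 1.5) := by norm_num
    (clear * -; positivity)
  refine ⟨C * A + C / Real.log (1.7 / 1.6), by (clear * - hC; positivity), fun t => ?_⟩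
  set s₀ : ℂ := 2 + t * I with hs₀
  have hs₀re : s₀.re = 2 := by simp [hs₀]
  have ht := abs_nonneg t
  have hlt : 0 < Real.log (|t| + 2) := Real.log_pos (by (clear * - ht; linarith))
  set M : ℝ := C * Real.log (|t| + 2) with hM
  have hM0 : 0 < M := by (clear * - hC hlt; positivity)
  have hcen := EZ_center t
  rw [← hs₀] at hcen
  have h0 : EZ s₀ ≠ 0 := by
    intro h
    rw [h, norm_zero] at hcen
    norm_num at hcen
  have hb : ∀ z ∈ ball s₀ 1.73, ‖EZ z‖ ≤ Real.exp M * ‖EZ s₀‖ := by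
    intro w hw
    rw [mem_ball, dist_eq_norm] at hw
    have h2 : 0.26 ≤ w.re := by
      have h3 := (abs_le.1 (Complex.abs_re_le_norm (w - s₀))).1
      rw [Complex.sub_re, hs₀re] at h3
      norm_num at h3 hw ⊢
      (clear * - h3 hw; linarith)
    have h4 : ‖w‖ ≤ 1.73 + (2 + |t|) := by
      calc ‖w‖ = ‖(w - s₀) + s₀‖ := by rw [sub_add_cancel]
        _ ≤ ‖w - s₀‖ + ‖s₀‖ := norm_add_le _ _
        _ ≤ 1.73 + (2 + |t|) := by
          gcongr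
          exact center_norm t
    have h5 : 1 + ‖w‖ ≤ 5 + |t| := by
      norm_num at h4 ⊢
      (clear * - h4; linarith)
    have h6 : 3 * C₀ * (5 + |t|) ^ 2 ≤ Real.exp M := by
      rw [← Real.log_le_iff_le_exp (by positivity)]
      exact hlog t
    calc ‖EZ w‖ ≤ C₀ * (1 + ‖w‖) ^ 2 := hEZ w h2
      _ ≤ C₀ * (5 + |t|) ^ 2 := by gcongr
      _ = 3 * C₀ * (5 + |t|) ^ 2 * (1 / 3) := by ring
      _ ≤ Real.exp M * ‖EZ s₀‖ := by gcongr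
  obtain ⟨S, hS, hcard, hld⟩ := landau_gen (s₀ := s₀) (r₁ := 1.5) (r₂ := 1.6) (r := 1.7)
    (R := 1.73) (M := M) (by norm_num) (by norm_num) (by norm_num) (by norm_num) hM0
    EZ_differentiable.differentiableOn h0 hb
  have hcard' : (∑ c ∈ S, (analyticOrderNatAt EZ c : ℝ)) ≤ M / Real.log (1.7 / 1.6) := by
    rw [le_div_iff₀ hL]
    exact hcard
  refine ⟨S, hS, ?_, ?_⟩
  · refine hcard'.trans ?_
    rw [hM, add_mul]
    have : 0 ≤ C * A * Real.log (|t| + 2) := by (clear * - hC hlt; positivity)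
    have h2 : C * Real.log (|t| + 2) / Real.log (1.7 / 1.6) =
      C / Real.log (1.7 / 1.6) * Real.log (|t| + 2) := by ring
    rw [h2]
    (clear * - this; linarith)
  · intro z hz hz0
    refine (hld z hz hz0).trans ?_
    have hq : (0 : ℝ) < 1.6 / (1.7 ^ 2 - 1.6 * 1.5) := by norm_num
    have h1 : (∑ c ∈ S, (analyticOrderNatAt EZ c : ℝ)) * (1.6 / (1.7 ^ 2 - 1.6 * 1.5)) ≤
        M / Real.log (1.7 / 1.6) * (1.6 / (1.7 ^ 2 - 1.6 * 1.5)) := by gcongr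
    have h2 : 8 * M * 1.6 / (1.6 - 1.5) ^ 2 + M / Real.log (1.7 / 1.6) *
        (1.6 / (1.7 ^ 2 - 1.6 * 1.5)) = M * A := by
      rw [hA]
      ring
    have h3 : M * A ≤ (C * A + C / Real.log (1.7 / 1.6)) * Real.log (|t| + 2) := by
      rw [hM, add_mul]
      have : 0 ≤ C / Real.log (1.7 / 1.6) * Real.log (|t| + 2) := by positivity
      (clear * - this; nlinarith)
    (clear * - hcard' h2 h3; linarith)

lemma zero_facts {ρ : ℂ} (h : riemannZeta ρ = 0) : ρ ≠ 1 ∧ ρ.re < 1 ∧ EZ ρ = 0 := by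
  have h1 : ρ ≠ 1 := by
    rintro rfl
    exact riemannZeta_one_ne_zero h
  refine ⟨h1, ?_, by rw [EZ_eq h1, h, mul_zero]⟩
  by_contra h3
  exact riemannZeta_ne_zero_of_one_le_re (not_lt.1 h3) h

lemma zero_of_EZ {z : ℂ} (hz : EZ z = 0) : riemannZeta z = 0 ∧ z ≠ 1 := by
  have h1 : z ≠ 1 := by
    rintro rfl
    rw [EZ_one] at hz
    exact one_ne_zero hz
  rw [EZ_eq h1] at hz
  exact ⟨(mul_eq_zero.1 hz).resolve_left (sub_ne_zero.2 h1), h1⟩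

lemma log_shift (t a : ℝ) (ha : |a| ≤ 1 / 2) :
    Real.log (|t + a| + 2) ≤ 2 * Real.log (|t| + 2) := by
  have ht := abs_nonneg t
  have h1 : |t + a| ≤ |t| + |a| := abs_add_le t a
  have h2 : Real.log (|t + a| + 2) ≤ Real.log ((|t| + 2) ^ 2) := by
    apply Real.log_le_log
    · have := abs_nonneg (t + a)
      (clear * - this; linarith)
    · (clear * - ha ht h1; nlinarith)
  rw [Real.log_pow] at h2
  push_cast at h2
  exact h2

lemma mem_disc {t : ℝ} {ρ : ℂ} (h1 : 1 / 2 ≤ ρ.re) (h2 : ρ.re < 1) (h3 : |ρ.im - t| ≤ 1 / 2) :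
    ρ ∈ closedBall ((2 : ℂ) + t * I) 1.6 := by
  rw [mem_closedBall, dist_eq_norm]
  have hre : (ρ - ((2 : ℂ) + t * I)).re = ρ.re - 2 := by simp
  have him : (ρ - ((2 : ℂ) + t * I)).im = ρ.im - t := by simp
  have h4 : ‖ρ - ((2 : ℂ) + t * I)‖ ^ 2 = (ρ.re - 2) ^ 2 + (ρ.im - t) ^ 2 := by
    rw [← Complex.normSq_eq_norm_sq, Complex.normSq_apply, hre, him]
    ring
  have h5 : (ρ.im - t) ^ 2 ≤ (1 / 2) ^ 2 := sq_le_sq' (by (clear * - h3; linarith [(abs_le.1 h3).1]))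
    (abs_le.1 h3).2
  have h6 : ‖ρ - ((2 : ℂ) + t * I)‖ ^ 2 ≤ 1.6 ^ 2 := by
    rw [h4]
    norm_num at h5 ⊢
    (clear * - h1 h2 h5; nlinarith)
  exact (pow_le_pow_iff_left₀ (norm_nonneg _) (by norm_num) (by norm_num)).1 h6

/-- **(A9 i)** -/
theorem zeta_count : ∃ C : ℝ, 0 < C ∧ ∀ (t : ℝ) (F : Finset ℂ),
    (∀ ρ ∈ F, riemannZeta ρ = 0 ∧ 1 / 2 ≤ ρ.re ∧ |ρ.im - t| ≤ 1) →
    ∑ ρ ∈ F, (analyticOrderNatAt riemannZeta ρ : ℝ) ≤ C * Real.log (|t| + 2) := by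
  classical
  obtain ⟨C, hC, hloc⟩ := local_EZ
  refine ⟨4 * C, by positivity, fun t F hF => ?_⟩
  obtain ⟨S1, hS1, hc1, -⟩ := hloc (t + 1 / 2)
  obtain ⟨S2, hS2, hc2, -⟩ := hloc (t + -(1 / 2))
  have hsub : F ⊆ S1 ∪ S2 := by
    intro ρ hρ
    obtain ⟨h1, h2, h3⟩ := hF ρ hρ
    obtain ⟨h4, h5, h6⟩ := zero_facts h1
    rw [abs_le] at h3
    rw [Finset.mem_union]
    rcases le_total t ρ.im with h7 | h7
    · left
      rw [hS1]
      refine ⟨mem_disc h2 h5 ?_, h6⟩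
      rw [abs_le]
      constructor <;> (clear * - h7 h3; linarith)
    · right
      rw [hS2]
      refine ⟨mem_disc h2 h5 ?_, h6⟩
      rw [abs_le]
      constructor <;> (clear * - h3 h7; linarith)
  have hl1 := log_shift t (1 / 2) (by rw [abs_of_pos (by norm_num)])
  have hl2 := log_shift t (-(1 / 2)) (by rw [abs_neg, abs_of_pos (by norm_num)])
  calc ∑ ρ ∈ F, (analyticOrderNatAt riemannZeta ρ : ℝ)
      = ∑ ρ ∈ F, (analyticOrderNatAt EZ ρ : ℝ) := by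
        refine Finset.sum_congr rfl fun ρ hρ => ?_
        rw [orderNat_EZ (zero_facts (hF ρ hρ).1).1]
    _ ≤ ∑ ρ ∈ S1 ∪ S2, (analyticOrderNatAt EZ ρ : ℝ) :=
        Finset.sum_le_sum_of_subset_of_nonneg hsub fun _ _ _ => Nat.cast_nonneg _
    _ ≤ ∑ ρ ∈ S1, (analyticOrderNatAt EZ ρ : ℝ) + ∑ ρ ∈ S2, (analyticOrderNatAt EZ ρ : ℝ) := by
        rw [← Finset.sum_union_inter]
        exact le_add_of_nonneg_right (Finset.sum_nonneg fun _ _ => Nat.cast_nonneg _)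
    _ ≤ C * (2 * Real.log (|t| + 2)) + C * (2 * Real.log (|t| + 2)) := by
        refine add_le_add (hc1.trans ?_) (hc2.trans ?_)
        · exact mul_le_mul_of_nonneg_left hl1 hC.le
        · exact mul_le_mul_of_nonneg_left hl2 hC.le
    _ = 4 * C * Real.log (|t| + 2) := by ring

lemma logDeriv_EZ_eq {s : ℂ} (hs : s ≠ 1) (hz : riemannZeta s ≠ 0) :
    deriv EZ s / EZ s = deriv riemannZeta s / riemannZeta s + 1 / (s - 1) := by
  have hev : EZ =ᶠ[𝓝 s] fun z : ℂ => (z - 1) * riemannZeta z := by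
    filter_upwards [isOpen_compl_singleton.mem_nhds (show s ∈ ({1} : Set ℂ)ᶜ from hs)] with z hz
    exact EZ_eq hz
  have h1 : HasDerivAt (fun z : ℂ => z - 1) 1 s := (hasDerivAt_id s).sub_const 1
  have h2 := h1.mul (differentiableAt_riemannZeta hs).hasDerivAt
  have h3 : deriv EZ s = 1 * riemannZeta s + (s - 1) * deriv riemannZeta s := by
    rw [hev.deriv_eq]
    exact h2.deriv
  have hs' : s - 1 ≠ 0 := sub_ne_zero.2 hs
  rw [h3, EZ_eq hs]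
  field_simp
  ring

end Pool.Agent.M17.Helper33.KSZ
end

/- Helper53.KN.Helper33.KSZ.ZetaNear -/
section
/-! KSZ A9 (iii): zeros near `1 + i t`; the 3-4-1 inequality; lower bound of zeta. -/

set_option autoImplicit false
open Filter Topology Complex Metric

namespace Pool.Agent.M17.Helper33.KSZ

open Pool.Agent.M17.Helper10.QRH Pool.Agent.M17.Helper69.QRH

/-- the coefficient function -/
noncomputable def Lam (n : ℕ) : ℂ := (ArithmeticFunction.vonMangoldt n : ℂ)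

/-- `∑ Λ(n) n^{-σ}` -/
noncomputable def VV (σ : ℝ) : ℝ := ∑' n : ℕ, ‖LSeries.term Lam (σ : ℂ) n‖

lemma summable_term {s : ℂ} (hs : 1 < s.re) : Summable (fun n => ‖LSeries.term Lam s n‖) :=
  (ArithmeticFunction.LSeriesSummable_vonMangoldt hs).norm

lemma norm_term_eq (s : ℂ) (n : ℕ) :
    ‖LSeries.term Lam s n‖ = ‖LSeries.term Lam ((s.re : ℝ) : ℂ) n‖ := by
  rw [LSeries.norm_term_eq, LSeries.norm_term_eq, Complex.ofReal_re]

lemma norm_LS_le {s : ℂ} (hs : 1 < s.re) : ‖LSeries Lam s‖ ≤ VV s.re := by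
  unfold VV LSeries
  refine (norm_tsum_le_tsum_norm (summable_term hs)).trans (le_of_eq ?_)
  exact tsum_congr fun n => norm_term_eq s n

lemma term_val {n : ℕ} (hn : n ≠ 0) (s : ℂ) : LSeries.term Lam s n =
    (ArithmeticFunction.vonMangoldt n : ℂ) * cexp (-(s * (Real.log n : ℂ))) := by
  rw [LSeries.term_of_ne_zero hn, Complex.cpow_def_of_ne_zero (by exact_mod_cast hn),
    Complex.exp_neg, ← Complex.natCast_log, Lam, mul_comm s, div_eq_mul_inv]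

lemma term_re (n : ℕ) (σ t : ℝ) : (LSeries.term Lam (σ + t * I) n).re =
    ‖LSeries.term Lam (σ : ℂ) n‖ * Real.cos (t * Real.log n) := by
  rcases eq_or_ne n 0 with rfl | hn
  · simp
  · obtain ⟨l, hl⟩ : ∃ l : ℝ, l = Real.log n := ⟨_, rfl⟩
    have h1 : ‖LSeries.term Lam (σ : ℂ) n‖ =
        ArithmeticFunction.vonMangoldt n * Real.exp (-(σ * l)) := by
      rw [term_val hn, ← hl, norm_mul, Complex.norm_exp, Complex.norm_real, Real.norm_eq_abs,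
        abs_of_nonneg ArithmeticFunction.vonMangoldt_nonneg]
      congr 2
      simp
    rw [h1, term_val hn, ← hl, Complex.re_ofReal_mul, Complex.exp_re]
    have h2 : (-((σ + t * I) * (l : ℂ))).re = -(σ * l) := by simp
    have h3 : (-((σ + t * I) * (l : ℂ))).im = -(t * l) := by simp
    rw [h2, h3, Real.cos_neg, mul_assoc]

lemma re_LS {σ : ℝ} (hσ : 1 < σ) (t : ℝ) : (LSeries Lam (σ + t * I)).re =
    ∑' n : ℕ, ‖LSeries.term Lam (σ : ℂ) n‖ * Real.cos (t * Real.log n) := by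
  have hs : 1 < ((σ : ℂ) + t * I).re := by simpa using hσ
  have h1 : Summable (fun n => LSeries.term Lam (σ + t * I) n) :=
    ArithmeticFunction.LSeriesSummable_vonMangoldt hs
  unfold LSeries
  rw [Complex.re_tsum h1]
  exact tsum_congr fun n => term_re n σ t

/-- the 3-4-1 inequality -/
lemma three_four_one {σ : ℝ} (hσ : 1 < σ) (t : ℝ) :
    0 ≤ 3 * VV σ + 4 * (LSeries Lam (σ + t * I)).re +
      (LSeries Lam (σ + (2 * t : ℝ) * I)).re := by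
  have hs : 1 < ((σ : ℝ) : ℂ).re := by simpa using hσ
  have hS := summable_term hs
  have hc : ∀ u : ℝ, Summable (fun n : ℕ => ‖LSeries.term Lam (σ : ℂ) n‖ *
      Real.cos (u * Real.log n)) := by
    intro u
    refine Summable.of_norm_bounded hS fun n => ?_
    rw [norm_mul, norm_norm]
    exact mul_le_of_le_one_right (norm_nonneg _) (Real.abs_cos_le_one _)
  rw [re_LS hσ t, re_LS hσ (2 * t), VV, ← tsum_mul_left, ← tsum_mul_left,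
    ← (hS.mul_left 3).tsum_add ((hc t).mul_left 4),
    ← ((hS.mul_left 3).add ((hc t).mul_left 4)).tsum_add (hc (2 * t))]
  refine tsum_nonneg fun n => ?_
  set θ := t * Real.log n with hθ
  have h1 : 2 * t * Real.log n = 2 * θ := by rw [hθ]; ring
  rw [h1, Real.cos_two_mul]
  have h2 : 3 * ‖LSeries.term Lam (σ : ℂ) n‖ + 4 * (‖LSeries.term Lam (σ : ℂ) n‖ * Real.cos θ) +
      ‖LSeries.term Lam (σ : ℂ) n‖ * (2 * Real.cos θ ^ 2 - 1) =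
      2 * ‖LSeries.term Lam (σ : ℂ) n‖ * (1 + Real.cos θ) ^ 2 := by ring
  rw [h2]
  (clear * -; positivity)

lemma EZ_ne {s : ℂ} (hs : 1 ≤ s.re) : EZ s ≠ 0 := by
  intro h
  have h1 := zero_of_EZ h
  have h2 := (zero_facts h1.1).2.1
  (clear * - hs h2; linarith)

lemma VV_eq {σ : ℝ} (hσ : 1 < σ) : VV σ = (LSeries Lam (σ : ℂ)).re := by
  have := re_LS hσ 0
  simp only [Complex.ofReal_zero, zero_mul, add_zero, Real.cos_zero, mul_one] at this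
  rw [this]
  rfl

lemma VV_bound : ∃ C : ℝ, 0 < C ∧ ∀ σ : ℝ, 1 < σ → σ ≤ 2 → VV σ ≤ 1 / (σ - 1) + C := by
  have hcont : ContinuousOn (fun σ : ℝ => logDeriv EZ (σ : ℂ)) (Set.Icc 1 2) := by
    have h1 : Continuous (deriv EZ) :=
      (EZ_differentiable.contDiff (n := 1)).continuous_deriv le_rfl
    have h2 : Continuous EZ := EZ_differentiable.continuous
    have h3 : ∀ σ ∈ Set.Icc (1 : ℝ) 2, EZ (σ : ℂ) ≠ 0 := fun σ hσ =>
      EZ_ne (by simpa using hσ.1)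
    exact ContinuousOn.div (h1.comp Complex.continuous_ofReal).continuousOn
      (h2.comp Complex.continuous_ofReal).continuousOn h3
  obtain ⟨C, hC⟩ := isCompact_Icc.exists_bound_of_continuousOn hcont
  refine ⟨|C| + 1, by (clear * -; positivity), fun σ h1 h2 => ?_⟩
  rw [VV_eq h1]
  have h3 : LSeries Lam (σ : ℂ) = 1 / ((σ : ℂ) - 1) - logDeriv EZ (σ : ℂ) := by
    rw [logDeriv_EZ (by simpa using h1)]
    unfold Lam
    ring
  have h4 : (1 / ((σ : ℂ) - 1)).re = 1 / (σ - 1) := by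
    have : (1 / ((σ : ℂ) - 1)) = ((1 / (σ - 1) : ℝ) : ℂ) := by push_cast; ring
    rw [this, Complex.ofReal_re]
  rw [h3, Complex.sub_re, h4]
  have h5 := hC σ ⟨h1.le, h2⟩
  have h6 := (abs_le.1 (Complex.abs_re_le_norm (logDeriv EZ (σ : ℂ)))).1
  have h7 := le_abs_self C
  (clear * - h5 h6 h7; linarith)

lemma deriv_zeta_div {s : ℂ} (hs : 1 < s.re) :
    deriv riemannZeta s / riemannZeta s = -LSeries Lam s := by
  have := ArithmeticFunction.LSeries_vonMangoldt_eq_deriv_riemannZeta_div hs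
  unfold Lam
  rw [this]
  ring

/-- **(A9 iii)** -/
theorem inA9 : Pool.Agent.M17.Helper18.KSZ.InA9 := by
  classical
  obtain ⟨C, hC, hloc⟩ := local_EZ
  obtain ⟨C₁, hC₁, hV⟩ := VV_bound
  have hlog2 : 0 < Real.log 2 := Real.log_pos (by norm_num)
  refine ⟨4 + 4 * (C₁ + 1 + 2 * C), by positivity, ?_⟩
  intro t r ht hr hr1 Z hZ
  obtain ⟨S, hS, hc, hld⟩ := hloc t
  have hlt : 0 ≤ Real.log (|t| + 2) := Real.log_nonneg (by linarith [abs_nonneg t])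
  have hl4 : 1 ≤ Real.log (|t| + 2) := by
    have h1 : Real.log (Real.exp 1) ≤ Real.log (|t| + 2) := by
      apply Real.log_le_log (Real.exp_pos 1)
      have := Real.exp_one_lt_d9
      (clear * - ht hr hr1 this; linarith)
    rwa [Real.log_exp] at h1
  set s : ℂ := ((1 + r : ℝ) : ℂ) + t * I with hs
  have hsre : s.re = 1 + r := by simp [hs]
  have hsim : s.im = t := by simp [hs]
  have hs1 : s ≠ 1 := by
    intro h
    have := congrArg Complex.re h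
    rw [hsre, Complex.one_re] at this
    (clear * - hr this; linarith)
  have hsre1 : 1 < s.re := by rw [hsre]; linarith
  have hzs : riemannZeta s ≠ 0 := riemannZeta_ne_zero_of_one_lt_re hsre1
  have hsB : s ∈ closedBall ((2 : ℂ) + t * I) 1.5 := by
    rw [mem_closedBall, dist_eq_norm]
    have h5 : s - ((2 : ℂ) + t * I) = ((r - 1 : ℝ) : ℂ) := by
      rw [hs]; push_cast; ring
    rw [h5, Complex.norm_real, Real.norm_eq_abs, abs_le]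
    norm_num
    constructor <;> linarith
  have hmain := hld s hsB (EZ_ne hsre1.le)
  rw [logDeriv_EZ_eq hs1 hzs] at hmain
  -- bound of the logarithmic derivative
  have h1 : ‖deriv riemannZeta s / riemannZeta s + 1 / (s - 1)‖ ≤ 1 / r + C₁ + 1 := by
    refine (norm_add_le _ _).trans ?_
    have h2 : ‖deriv riemannZeta s / riemannZeta s‖ ≤ 1 / r + C₁ := by
      rw [deriv_zeta_div hsre1, norm_neg]
      refine (norm_LS_le hsre1).trans ?_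
      rw [hsre]
      have := hV (1 + r) (by linarith) (by linarith)
      rwa [add_sub_cancel_left] at this
    have h3 : ‖1 / (s - 1)‖ ≤ 1 := by
      rw [norm_div, norm_one, div_le_one]
      · have h4 := Complex.abs_im_le_norm (s - 1)
        rw [Complex.sub_im, hsim, Complex.one_im, sub_zero] at h4
        (clear * - ht hr hr1 h4; linarith)
      · exact norm_pos_iff.2 (sub_ne_zero.2 hs1)
    linarith
  have h2 : (∑ c ∈ S, (analyticOrderNatAt EZ c : ℂ) / (s - c)).re ≤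
      1 / r + C₁ + 1 + C * Real.log (|t| + 2) := by
    have h3 := Complex.re_le_norm (∑ c ∈ S, (analyticOrderNatAt EZ c : ℂ) / (s - c))
    have h4 : ‖∑ c ∈ S, (analyticOrderNatAt EZ c : ℂ) / (s - c)‖ ≤
        ‖deriv riemannZeta s / riemannZeta s + 1 / (s - 1)‖ +
        ‖deriv riemannZeta s / riemannZeta s + 1 / (s - 1) -
          ∑ c ∈ S, (analyticOrderNatAt EZ c : ℂ) / (s - c)‖ := by
      have := norm_sub_le (deriv riemannZeta s / riemannZeta s + 1 / (s - 1))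
        (deriv riemannZeta s / riemannZeta s + 1 / (s - 1) -
          ∑ c ∈ S, (analyticOrderNatAt EZ c : ℂ) / (s - c))
      rwa [sub_sub_cancel] at this
    linarith
  -- lower bound
  have hre : ∀ c ∈ S, 0 ≤ ((analyticOrderNatAt EZ c : ℂ) / (s - c)).re := by
    intro c hcS
    have h3 := zero_facts (zero_of_EZ ((hS c).1 hcS).2).1
    have h4 : ((analyticOrderNatAt EZ c : ℂ) / (s - c)) =
      ((analyticOrderNatAt EZ c : ℝ) : ℂ) * (1 / (s - c)) := by push_cast; ring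
    rw [h4, Complex.re_ofReal_mul, one_div, Complex.inv_re]
    refine mul_nonneg (Nat.cast_nonneg _) (div_nonneg ?_ (Complex.normSq_nonneg _))
    rw [Complex.sub_re, hsre]
    (clear * - hr h3; linarith [h3.2.1])
  have hsub : Z ⊆ S := by
    intro ρ hρ
    obtain ⟨h3, h4⟩ := hZ ρ hρ
    rw [hS]
    refine ⟨?_, (zero_facts h3).2.2⟩
    rw [mem_closedBall, dist_eq_norm]
    calc ‖ρ - (2 + t * I)‖ = ‖(ρ - (1 + t * I)) + (-1)‖ := by congr 1; ring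
      _ ≤ ‖ρ - (1 + t * I)‖ + ‖(-1 : ℂ)‖ := norm_add_le _ _
      _ ≤ 1 / 10 + 1 := by
        rw [norm_neg, norm_one]
        (clear * - hr1 h4; linarith)
      _ ≤ 1.6 := by norm_num
  have h3 : (∑ ρ ∈ Z, (analyticOrderNatAt riemannZeta ρ : ℝ)) / (4 * r) ≤
      (∑ c ∈ S, (analyticOrderNatAt EZ c : ℂ) / (s - c)).re := by
    rw [Complex.re_sum, Finset.sum_div]
    refine le_trans (Finset.sum_le_sum fun ρ hρ => ?_)
      (Finset.sum_le_sum_of_subset_of_nonneg hsub fun c hc _ => hre c hc)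
    obtain ⟨h4, h5⟩ := hZ ρ hρ
    obtain ⟨h6, h7, h8⟩ := zero_facts h4
    have h9 : ((analyticOrderNatAt EZ ρ : ℂ) / (s - ρ)) =
      ((analyticOrderNatAt EZ ρ : ℝ) : ℂ) * (1 / (s - ρ)) := by push_cast; ring
    rw [h9, Complex.re_ofReal_mul, one_div, Complex.inv_re, orderNat_EZ h6, div_eq_mul_one_div]
    refine mul_le_mul_of_nonneg_left ?_ (Nat.cast_nonneg _)
    have h10 : r ≤ (s - ρ).re := by
      rw [Complex.sub_re, hsre]
      (clear * - h7; linarith)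
    have h11 : ‖s - ρ‖ ≤ 2 * r := by
      have h12 : s - ρ = ((r : ℝ) : ℂ) - (ρ - (1 + t * I)) := by
        rw [hs]; push_cast; ring
      rw [h12]
      refine (norm_sub_le _ _).trans ?_
      rw [Complex.norm_real, Real.norm_eq_abs, abs_of_pos hr]
      (clear * - h5; linarith)
    have h13 : Complex.normSq (s - ρ) ≤ 4 * r ^ 2 := by
      rw [Complex.normSq_eq_norm_sq]
      (clear * - hr h11 hr1; nlinarith [norm_nonneg (s - ρ)])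
    have h14 : 0 < Complex.normSq (s - ρ) := by
      rw [Complex.normSq_pos]
      intro h15
      rw [h15, Complex.zero_re] at h10
      (clear * - hr h10; linarith)
    rw [div_le_div_iff₀ (by positivity) h14]
    (clear * - h13 hr h10; nlinarith)
  have h4 := h3.trans h2
  rw [div_le_iff₀ (by positivity)] at h4
  show ∑ ρ ∈ Z, (analyticOrderNatAt riemannZeta ρ : ℝ) ≤ _
  refine h4.trans ?_
  have h5 : (1 / r + C₁ + 1 + C * Real.log (|t| + 2)) * (4 * r) =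
      4 + 4 * (C₁ + 1 + C * Real.log (|t| + 2)) * r := by
    field_simp
    ring
  rw [h5]
  have h6 : C₁ + 1 + C * Real.log (|t| + 2) ≤ (C₁ + 1 + 2 * C) * Real.log (|t| + 2) := by
    (clear * - hl4 hC hr hr1 hC₁; nlinarith)
  have h7 : 0 ≤ r * Real.log (|t| + 2) := by positivity
  (clear * - hr hr1 h7 hC hC₁; nlinarith)

end Pool.Agent.M17.Helper33.KSZ
end
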