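import Mathlib
import Pool.Agent.Helper53.KM.G05
import Pool.Agent.Helper53.KM.G06
import Pool.Agent.Helper53.KM.G12

/- Helper53.KN.Helper60.KC.ClassBoundG -/
section
/-! The bound for one class of zeros, general height exponent `τ`. -/

set_option autoImplicit false
set_option maxHeartbeats 4000000
open Filter Topology
open scoped Classical

namespace Pool.Agent.M17.Helper60.KC
open Pool.Agent.M17.Helper60.KS

/-- hypotheses of `ClassBound` -/
structure ClsG (τ ε0 δ d X x : ℝ) (Z : Finset ℂ) (c : ℂ → ℂ) (g : ℕ → ℂ) (N : ℕ) (U : Finset ℝ) : Prop where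
  hx0 : ε0 ≤ x
  hx1 : x ≤ 0.4 + δ
  hs : InStrip Z (1 - x) (1 - x + δ) (X ^ (τ + 2 * d) + 1)
  hsp : Spaced1 Z
  hg : ∀ n, ‖g n‖ ≤ (n.divisors.card : ℝ)
  hN0 : X ^ δ / 2 ≤ N
  hN1 : (N : ℝ) ≤ X ^ (yy x * τ + 45 * δ)
  hD : ∀ ρ ∈ Z, 1 / (16 * Real.log X) ≤ ‖DP g N 2 ρ‖
  hc : ∀ ρ ∈ Z, ‖c ρ‖ ≤ Real.log X ^ 2
  hU : ∀ u ∈ U, Real.log X ≤ u ∧ u ≤ Real.log X + 1
  hUs : SpacedR U (1 / X ^ (τ + 2 * d))
  hS : ∀ u ∈ U, 1 / Real.log X ^ 4 ≤ ‖∑ ρ ∈ Z, c ρ * Complex.exp ((ρ - 1) * (u : ℂ))‖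

/-- parameters -/
structure ParG (τ ε0 δ d : ℝ) : Prop where
  h1 : 0 < ε0
  h2 : ε0 ≤ 1/100
  h3 : δ = ε0 / 10 ^ 8
  h4 : 0 < d
  h5 : d ≤ δ
  h6 : 1/4 ≤ τ
  h7 : τ ≤ 1/2

lemma ParG.dpos {τ ε0 δ d : ℝ} (h : ParG τ ε0 δ d) : 0 < δ := by
  rw [h.h3]; have := h.h1; (clear * - this; positivity)

lemma ParG.dsmall {τ ε0 δ d : ℝ} (h : ParG τ ε0 δ d) : δ ≤ 1 / 10 ^ 9 := by
  have h2 := h.h2; have h3 := h.h3
  rw [h3]; linarith

/-- facts valid for large `X`; `l = log X`, `q = log N` -/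
lemma baseG {τ ε0 δ d : ℝ} (hp : ParG τ ε0 δ d) : ∀ᶠ X : ℝ in atTop, ∀ (x : ℝ) (Z : Finset ℂ) (c : ℂ → ℂ)
    (g : ℕ → ℂ) (N : ℕ) (U : Finset ℝ), ClsG τ ε0 δ d X x Z c g N U →
    8 ≤ X ∧ 10 ≤ Real.log X ∧ 1 ≤ N ∧ δ / 2 * Real.log X ≤ Real.log N ∧
      Real.log N ≤ (yy x * τ + 45 * δ) * Real.log X ∧ Real.log N ≤ Real.log X := by
  have hδ := hp.dpos
  have hτ1 := hp.h6
  have hτ2 := hp.h7
  have hδ' := hp.dsmall
  filter_upwards [small 1 0 (δ/2) (by (clear * - hδ; linarith)), eventually_ge_atTop (Real.exp 10), eventually_ge_atTop 8]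
    with X h1 h2 h8 x Z c g N U h
  have hX : (0:ℝ) < X := by (clear * - hδ hδ' h8; linarith)
  have hl : 10 ≤ Real.log X := by
    rw [Real.le_log_iff_exp_le hX]; exact h2
  have hl0 : 0 < Real.log X := by (clear * - hδ hδ' hl; linarith)
  have hN0 := h.hN0
  have hXd : (0:ℝ) < X ^ δ := Real.rpow_pos_of_pos hX _
  have hNpos : (0:ℝ) < N := by (clear * - hN0 hXd; linarith)
  have hN1 : 1 ≤ N := by
    have : 0 < N := by exact_mod_cast hNpos
    omega
  have h3 : Real.log (X ^ δ / 2) ≤ Real.log N := Real.log_le_log (by positivity) hN0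
  rw [Real.log_div (by positivity) (by norm_num), Real.log_rpow hX] at h3
  have h4 : Real.log 2 ≤ 1 := by have := Real.log_two_lt_d9; (clear * - hδ hδ' this; linarith)
  have h5 : Real.log N ≤ (yy x * τ + 45 * δ) * Real.log X := by
    rw [← Real.log_rpow hX]; exact Real.log_le_log hNpos h.hN1
  have h6 : yy x ≤ 0.92 := by
    unfold yy
    refine le_trans (min_le_right _ _) ?_
    have hx1 := h.hx1
    rw [div_le_iff₀ (by (clear * - hδ hδ' hx1; linarith))]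
    (clear * - hδ hδ' hx1; linarith)
  refine ⟨h8, hl, hN1, ?_, h5, ?_⟩
  · (clear * - h1 h3 h4; nlinarith)
  · refine le_trans h5 ?_
    have h7 : yy x * τ ≤ 0.92 * τ := mul_le_mul_of_nonneg_right h6 (by (clear * - hδ hτ1 hδ'; linarith))
    have : (yy x * τ + 45 * δ) ≤ 1 := by (clear * - hδ hτ2 hδ' h7; linarith)
    (clear * - hτ2 hδ' h1 h7 hδ; nlinarith)

/-- powers in the class -/
lemma pow_classG (hP : PowDP) {τ ε0 δ d : ℝ} (hp : ParG τ ε0 δ d) (k : ℕ) (hk : 1 ≤ k) (ε1 : ℝ) (hε1 : 0 < ε1) :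
    ∃ C1 : ℝ, 0 < C1 ∧ ∀ᶠ X : ℝ in atTop, ∀ (x : ℝ) (Z : Finset ℂ) (c : ℂ → ℂ)
    (g : ℕ → ℂ) (N : ℕ) (U : Finset ℝ), ClsG τ ε0 δ d X x Z c g N U →
    ∃ b : ℕ → ℂ, (∀ n, ‖b n‖ ≤ C1 * (N : ℝ) ^ ε1) ∧
      ∀ ρ ∈ Z, (1 / (16 * Real.log X)) ^ k ≤ ‖DP b (N ^ k) (2 ^ k) ρ‖ := by
  obtain ⟨C1, hC1, h⟩ := hP k ε1 hk hε1
  refine ⟨C1, hC1, ?_⟩
  filter_upwards [baseG hp] with X hb x Z c g N U hcl
  obtain ⟨h8, hl, hN, -⟩ := hb x Z c g N U hcl
  obtain ⟨b, hb1, hb2⟩ := h g N hN hcl.hg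
  refine ⟨b, hb1, fun ρ hρ => ?_⟩
  rw [← hb2, norm_pow]
  exact pow_le_pow_left₀ (by (clear * - hl; positivity)) (hcl.hD ρ hρ) k

/-- height -/
lemma logTG {X τ d : ℝ} (hX : 8 ≤ X) (hd : 0 < d) (hτ : 1/4 ≤ τ) :
    1 ≤ X ^ (τ + 2 * d) ∧ τ * Real.log X ≤ Real.log (X ^ (τ + 2 * d) + 1) ∧
      Real.log (X ^ (τ + 2 * d) + 1) ≤ (τ + 2 * d) * Real.log X + 1 := by
  have h1 : 1 ≤ X ^ (τ + 2 * d) := Real.one_le_rpow (by (clear * - hX; linarith)) (by (clear * - hd hτ; linarith))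
  have hX0 : 0 < X := by (clear * - hX; linarith)
  have hl : 0 < Real.log X := Real.log_pos (by (clear * - hX; linarith))
  refine ⟨h1, ?_, ?_⟩
  · calc τ * Real.log X ≤ (τ + 2 * d) * Real.log X := by (clear * - hd hl; nlinarith)
      _ = Real.log (X ^ (τ + 2 * d)) := (Real.log_rpow hX0 _).symm
      _ ≤ _ := Real.log_le_log (by linarith) (by (clear * -; linarith))
  · calc Real.log (X ^ (τ + 2 * d) + 1) ≤ Real.log (2 * X ^ (τ + 2 * d)) :=
          Real.log_le_log (by (clear * - h1; linarith)) (by (clear * - h1; linarith))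
      _ = Real.log 2 + (τ + 2 * d) * Real.log X := by
          rw [Real.log_mul (by norm_num) (by (clear * - h1; linarith)), Real.log_rpow hX0]
      _ ≤ _ := by have := Real.log_two_lt_d9; (clear * - this; linarith)

/-- first bound: mean values -/
lemma P1G (hMV : MVCount) (hP : PowDP) {τ ε0 δ d : ℝ} (hp : ParG τ ε0 δ d) (k : ℕ) (hk : 1 ≤ k) :
    ∀ᶠ X : ℝ in atTop, ∀ (x : ℝ) (Z : Finset ℂ) (c : ℂ → ℂ) (g : ℕ → ℂ) (N : ℕ) (U : Finset ℝ),
    ClsG τ ε0 δ d X x Z c g N U → Z.Nonempty → (k : ℝ) * Real.log N ≤ 2 * Real.log X →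
    Real.log Z.card ≤ max (2 * x * (k * Real.log N))
      (τ * Real.log X - k * Real.log N * (1 - 2 * x)) + 40 * δ * Real.log X := by
  have hδ := hp.dpos
  have hτ1 := hp.h6
  have hτ2 := hp.h7
  have hδ' := hp.dsmall
  have hd4 := hp.h4
  have hd5 := hp.h5
  obtain ⟨C1, hC1, hpc⟩ := pow_classG hP hp k hk (δ / 10) (by (clear * - hδ; positivity))
  obtain ⟨C, hC, hmv⟩ := hMV (2 ^ k) (Nat.one_le_two_pow)
  filter_upwards [baseG hp, hpc, small (2 * k * Real.log 16 + Real.log C + 2 * Real.log C1 + 5 + Real.log 2)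
    (2 * k + 2) δ hδ] with X hb hpc hsm x Z c g N U h hZ hkq
  obtain ⟨h8, hl, hN, hq0, hq1, hq2⟩ := hb x Z c g N U h
  obtain ⟨b, hb1, hb2⟩ := hpc x Z c g N U h
  have hx0 := h.hx0
  have hx1 := h.hx1
  have h1 := hp.h1
  obtain ⟨hT1, hT2, hT3⟩ := logTG h8 hd4 hτ1
  have hN' : (1:ℝ) ≤ N := by exact_mod_cast hN
  have hQ : 1 ≤ N ^ k := Nat.one_le_pow _ _ (by omega)
  have hl0 : 0 < Real.log X := by (clear * - hδ hδ' hl; linarith)
  have hkk : (1:ℝ) ≤ k := by exact_mod_cast hk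
  have hZc : (0:ℝ) < Z.card := by exact_mod_cast hZ.card_pos
  set l := Real.log X with hldef
  set q := Real.log N with hqdef
  set T := X ^ (τ + 2 * d) + 1 with hTdef
  have hq00 : 0 ≤ q := Real.log_nonneg hN'
  have hVpos : 0 < (1 / (16 * l)) ^ k := by (clear * - hl; positivity)
  have hB : 0 < C1 * (N:ℝ) ^ (δ / 10) := by (clear * - hC1 hN; positivity)
  have hmain := hmv Z b (N ^ k) (C1 * (N:ℝ) ^ (δ/10)) ((1 / (16 * l)) ^ k) (1 - x) (1 - x + δ) T (1 / l) hQ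
    (by (clear * - hδ hδ' hT1; linarith)) (by (clear * - hl; positivity)) (by rw [div_le_div_iff₀ hl0 (by norm_num)]; (clear * - hδ hδ' hl; linarith)) (by (clear * - hδ hδ' hx1; linarith))
    (by (clear * - hδ; linarith)) (by (clear * - hδ hδ'; linarith)) (by have := hp.h3; (clear * - hx0 h1 this; linarith)) hVpos hB.le hb1 h.hs h.hsp hb2
  have hQpos : (0:ℝ) < ((N ^ k : ℕ) : ℝ) := by exact_mod_cast hQ
  have hlogQ : Real.log ((N ^ k : ℕ) : ℝ) = k * q := by push_cast; rw [Real.log_pow]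
  have hlg := Real.log_le_log (by (clear * - hZ hl; positivity)) hmain
  have hTQ : (0:ℝ) < T + ((N ^ k : ℕ) : ℝ) := by (clear * - hδ hδ' hT1 hQpos; linarith)
  rw [Real.log_mul hZc.ne' (by (clear * - hl; positivity)), Real.log_pow, Real.log_pow, Real.log_div (by norm_num) (by (clear * - hl; positivity)),
    Real.log_one, Real.log_mul (by norm_num) hl0.ne', Real.log_mul (by (clear * - hC hC1 hN hl h8; positivity)) (by positivity),
    Real.log_mul (by (clear * - hC hC1 hN hl; positivity)) hTQ.ne', Real.log_div (by (clear * - hC hC1 hN; positivity)) (by positivity), Real.log_mul hC.ne' (by positivity),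
    Real.log_pow, Real.log_mul hC1.ne' (by positivity), Real.log_rpow (by (clear * - hδ hδ' hN'; linarith)), Real.log_rpow hQpos,
    Real.log_pow, Real.log_div (by norm_num) hl0.ne', Real.log_one, hlogQ] at hlg
  have hqq : (2 * (1 / l)) * (k * q) ≤ 4 := by
    have : (2 * (1 / l)) * (k * q) = 2 * (k * q) / l := by ring
    rw [this, div_le_iff₀ hl0]; (clear * - hkq; linarith)
  have hexp : (1 - 2 * (1 - x) + 2 * (1 / l)) * (k * q) = -(k * q * (1 - 2 * x)) + (2 * (1 / l)) * (k * q) := by ring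
  rw [hexp] at hlg
  have hdq : δ / 10 * q ≤ δ / 10 * l := mul_le_mul_of_nonneg_left hq2 (by positivity)
  simp only [Nat.cast_ofNat] at hlg
  rw [← hqdef] at hlg
  rcases log_add_le (show 0 < T by (clear * - hδ hδ' hT1; linarith)) hQpos with hc | hc
  · refine le_trans ?_ (add_le_add_left (le_max_right _ _) _)
    have hdl : d * l ≤ δ * l := mul_le_mul_of_nonneg_right hd5 hl0.le
    have hdl0 : 0 ≤ δ * l := by (clear * - hδ hl; positivity)
    (clear * - hsm hT3 hlg hqq hdq hc hdl hdl0; linarith)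
  · refine le_trans ?_ (add_le_add_left (le_max_left _ _) _)
    rw [hlogQ] at hc
    have hdl0 : 0 ≤ δ * l := by (clear * - hδ hl; positivity)
    (clear * - hδ hδ' hsm hlg hqq hdq hc hdl0; linarith)

/-- second bound: Huxley -/
lemma P2G (hMV : HuxleyCount) (hP : PowDP) {τ ε0 δ d : ℝ} (hp : ParG τ ε0 δ d) (k : ℕ) (hk : 1 ≤ k) :
    ∀ᶠ X : ℝ in atTop, ∀ (x : ℝ) (Z : Finset ℂ) (c : ℂ → ℂ) (g : ℕ → ℂ) (N : ℕ) (U : Finset ℝ),
    ClsG τ ε0 δ d X x Z c g N U → Z.Nonempty → (k : ℝ) * Real.log N ≤ 2 * Real.log X →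
    Real.log Z.card ≤ max (2 * x * (k * Real.log N))
      (τ * Real.log X - k * Real.log N * (2 - 6 * x)) + 40 * δ * Real.log X := by
  have hδ := hp.dpos
  have hτ1 := hp.h6
  have hτ2 := hp.h7
  have hδ' := hp.dsmall
  have hd4 := hp.h4
  have hd5 := hp.h5
  obtain ⟨C1, hC1, hpc⟩ := pow_classG hP hp k hk (δ / 10) (by (clear * - hδ; positivity))
  obtain ⟨C, hC, hmv⟩ := hMV (2 ^ k) (Nat.one_le_two_pow)
  filter_upwards [baseG hp, hpc, small (2 * k * Real.log 16 + Real.log C + 2 * Real.log C1 + 2 * Real.log 2)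
    (2 * k + 1) δ hδ, small (6 * k * Real.log 16 + Real.log C + 6 * Real.log C1 + 1 + 2 * Real.log 2)
    (6 * k + 1) δ hδ] with X hb hpc hsm1 hsm2 x Z c g N U h hZ hkq
  obtain ⟨h8, hl, hN, hq0, hq1, hq2⟩ := hb x Z c g N U h
  obtain ⟨b, hb1, hb2⟩ := hpc x Z c g N U h
  have hx0 := h.hx0
  have hx1 := h.hx1
  have h1 := hp.h1
  obtain ⟨hT1, hT2, hT3⟩ := logTG h8 hd4 hτ1
  have hN' : (1:ℝ) ≤ N := by exact_mod_cast hN
  have hQ : 1 ≤ N ^ k := Nat.one_le_pow _ _ (by omega)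
  have hl0 : 0 < Real.log X := by (clear * - hδ hδ' hl; linarith)
  have hkk : (1:ℝ) ≤ k := by exact_mod_cast hk
  have hZc : (0:ℝ) < Z.card := by exact_mod_cast hZ.card_pos
  have hT4 : Real.log (X ^ (τ + 2 * d) + 1 + 2) ≤ 2 * Real.log X := by
    rw [← Real.log_rpow (by (clear * - hδ hδ' h8; linarith) : (0:ℝ) < X)]
    apply Real.log_le_log (by (clear * - hδ hδ' hT1; linarith))
    have e1 : X ^ (τ + 2 * d) ≤ X := by
      calc X ^ (τ + 2 * d) ≤ X ^ (1:ℝ) := Real.rpow_le_rpow_of_exponent_le (by (clear * - hδ hδ' h8; linarith)) (by (clear * - hδ hτ2 hδ' hd5; linarith))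
        _ = X := Real.rpow_one _
    have e2 : X ^ (2:ℝ) = X * X := by rw [show (2:ℝ) = ((2:ℕ):ℝ) by norm_num, Real.rpow_natCast]; ring
    rw [e2]; (clear * - hδ' h8 e1 hδ; nlinarith)
  set l := Real.log X with hldef
  set q := Real.log N with hqdef
  set T := X ^ (τ + 2 * d) + 1 with hTdef
  have hq00 : 0 ≤ q := Real.log_nonneg hN'
  have hVpos : 0 < (1 / (16 * l)) ^ k := by (clear * - hl; positivity)
  have hB : 0 < C1 * (N:ℝ) ^ (δ / 10) := by (clear * - hC1 hN; positivity)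
  have hmain := hmv Z b (N ^ k) (C1 * (N:ℝ) ^ (δ/10)) ((1 / (16 * l)) ^ k) (1 - x) (1 - x + δ) T hQ
    (by (clear * - hδ hδ' hT1; linarith)) (by (clear * - hδ hδ' hx1; linarith))
    (by (clear * - hδ; linarith)) (by (clear * - hδ hδ'; linarith)) (by have := hp.h3; (clear * - hx0 h1 this; linarith)) hVpos hB hb1 h.hs h.hsp hb2
  have hQpos : (0:ℝ) < ((N ^ k : ℕ) : ℝ) := by exact_mod_cast hQ
  have hlogQ : Real.log ((N ^ k : ℕ) : ℝ) = k * q := by push_cast; rw [Real.log_pow]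
  have hlT : 0 < Real.log (T + 2) := Real.log_pos (by (clear * - hδ hδ' hT1; linarith))
  have hllT : Real.log (Real.log (T + 2)) ≤ Real.log 2 + Real.log l := by
    rw [← Real.log_mul (by norm_num) hl0.ne']
    exact Real.log_le_log hlT hT4
  have hlg := Real.log_le_log (by (clear * - hZ; positivity)) hmain
  have hTp : 0 < T := by (clear * - hδ hδ' hT1; linarith)
  have hin : (0:ℝ) < T * ((C1 * (N:ℝ) ^ (δ / 10)) ^ 4 * ((N ^ k : ℕ) : ℝ) ^ (2 - 4 * (1 - x)) / ((1 / (16 * l)) ^ k) ^ 4) := by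
    (clear * - h8 hC1 hN hl; positivity)
  have hlogin : Real.log (T * ((C1 * (N:ℝ) ^ (δ / 10)) ^ 4 * ((N ^ k : ℕ) : ℝ) ^ (2 - 4 * (1 - x)) / ((1 / (16 * l)) ^ k) ^ 4)) =
      Real.log T + (4 * (Real.log C1 + δ / 10 * q) + (2 - 4 * (1 - x)) * (k * q) + 4 * (k * (Real.log 16 + Real.log l))) := by
    rw [Real.log_mul hTp.ne' (by (clear * - hC1 hN hl; positivity)), Real.log_div (by (clear * - hC1 hN; positivity)) (by (clear * - hl; positivity)),
      Real.log_mul (by (clear * - hC1 hN; positivity)) (by positivity), Real.log_pow, Real.log_pow, Real.log_pow,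
      Real.log_mul hC1.ne' (by positivity), Real.log_rpow (by (clear * - hδ hδ' hN'; linarith)), Real.log_rpow hQpos,
      Real.log_div (by norm_num) (by positivity), Real.log_one, Real.log_mul (by norm_num) hl0.ne', hlogQ]
    simp only [Nat.cast_ofNat]
    rw [← hqdef]
    ring
  rw [Real.log_mul (by (clear * - hC hC1 hN hl hlT; positivity)) (by (clear * - h8 hC1 hN hl; positivity)), Real.log_mul (by (clear * - hC hC1 hN hl; positivity)) hlT.ne', Real.log_mul hC.ne' (by (clear * - hC1 hN hl; positivity)),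
    Real.log_div (by (clear * - hC1 hN; positivity)) (by positivity), Real.log_mul (by positivity) (by positivity),
    Real.log_pow, Real.log_mul hC1.ne' (by positivity), Real.log_rpow (by (clear * - hδ hδ' hN'; linarith)), Real.log_rpow hQpos,
    Real.log_pow, Real.log_pow, Real.log_div (by norm_num) (by (clear * - hl; positivity)), Real.log_one,
    Real.log_mul (by norm_num) hl0.ne', hlogQ] at hlg
  have hdq : δ / 10 * q ≤ δ / 10 * l := mul_le_mul_of_nonneg_left hq2 (by (clear * - hδ; positivity))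
  simp only [Nat.cast_ofNat] at hlg
  rw [← hqdef] at hlg
  have hdl0 : 0 ≤ δ * l := by (clear * - hδ hl; positivity)
  have hdl : d * l ≤ δ * l := mul_le_mul_of_nonneg_right hd5 hl0.le
  rcases log_add_le one_pos hin with hc | hc
  · refine le_trans ?_ (add_le_add_left (le_max_left _ _) _)
    rw [Real.log_one] at hc
    (clear * - hsm1 hllT hlg hdq hdl0 hc; linarith)
  · refine le_trans ?_ (add_le_add_left (le_max_right _ _) _)
    rw [hlogin] at hc
    (clear * - hsm2 hT3 hllT hlg hdq hdl0 hdl hc; linarith)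

/-- third bound -/
lemma P3G {τ ε0 δ d : ℝ} (hp : ParG τ ε0 δ d) :
    ∀ᶠ X : ℝ in atTop, ∀ (x : ℝ) (Z : Finset ℂ) (c : ℂ → ℂ) (g : ℕ → ℂ) (N : ℕ) (U : Finset ℝ),
    ClsG τ ε0 δ d X x Z c g N U → U.Nonempty →
    Z.Nonempty ∧ (x - 40 * δ) * Real.log X ≤ Real.log Z.card := by
  have hδ := hp.dpos
  have hτ1 := hp.h6
  have hτ2 := hp.h7
  have hδ' := hp.dsmall
  filter_upwards [baseG hp, small 0 6 δ hδ] with X hb hsm x Z c g N U h hU
  obtain ⟨h8, hl, hN, hq0, hq1, hq2⟩ := hb x Z c g N U h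
  obtain ⟨u, hu⟩ := hU
  have hu1 := h.hS u hu
  obtain ⟨hu2, hu3⟩ := h.hU u hu
  have hl0 : 0 < Real.log X := by (clear * - hδ hδ' hl; linarith)
  have hx0 := h.hx0
  have h1 := hp.h1
  have h3 := hp.h3
  have hterm : ∀ ρ ∈ Z, ‖c ρ * Complex.exp ((ρ - 1) * (u : ℂ))‖ ≤
      Real.log X ^ 2 * Real.exp ((-x + δ) * Real.log X) := by
    intro ρ hρ
    rw [norm_mul, Complex.norm_exp]
    apply mul_le_mul (h.hc ρ hρ) _ (Real.exp_pos _).le (by positivity)
    apply Real.exp_le_exp.mpr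
    have e : ((ρ - 1) * (u:ℂ)).re = (ρ.re - 1) * u := by
      simp [Complex.mul_re]
    rw [e]
    have h4 := (h.hs ρ hρ).2.1
    have : (ρ.re - 1) * u ≤ (-x + δ) * u := by
      apply mul_le_mul_of_nonneg_right (by (clear * - h4; linarith)) (by (clear * - hδ hδ' hl hu2; linarith))
    have h5 : (-x + δ) * u ≤ (-x + δ) * Real.log X := by
      apply mul_le_mul_of_nonpos_left hu2 (by (clear * - hδ hx0 h3; linarith))
    (clear * - this h5; linarith)
  have hsum : 1 / Real.log X ^ 4 ≤ Z.card * (Real.log X ^ 2 * Real.exp ((-x + δ) * Real.log X)) := by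
    refine le_trans hu1 ?_
    refine le_trans (norm_sum_le _ _) ?_
    refine le_trans (Finset.sum_le_sum hterm) ?_
    simp
  have hZ : Z.Nonempty := by
    rw [Finset.nonempty_iff_ne_empty]
    intro hZe
    rw [hZe] at hsum
    simp at hsum
    have : 0 < Real.log X ^ 4 := by positivity
    (clear * - hsum this; linarith)
  refine ⟨hZ, ?_⟩
  have hZc : (0:ℝ) < Z.card := by exact_mod_cast hZ.card_pos
  have hlg := Real.log_le_log (by (clear * - hl; positivity)) hsum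
  rw [Real.log_div (by norm_num) (by positivity), Real.log_one, Real.log_pow, Real.log_mul hZc.ne' (by (clear * - hl; positivity)),
    Real.log_mul (by positivity) (by positivity), Real.log_pow, Real.log_exp] at hlg
  simp only [Nat.cast_ofNat] at hlg
  have hdl0 : 0 ≤ δ * Real.log X := by (clear * - hδ hl; positivity)
  (clear * - hsm hlg hdl0; linarith)

lemma T_leG {X τ d : ℝ} (hX : 8 ≤ X) (hl : 10 ≤ Real.log X) (hd : 0 < d) (hd1 : d ≤ 1 / 10 ^ 9)
    (hτ : 1/4 ≤ τ) (hτ2 : τ ≤ 1/2) :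
    X ^ (τ + 2 * d) + 1 ≤ X := by
  obtain ⟨h1, -, h3⟩ := logTG hX hd hτ
  have hX0 : (0:ℝ) < X := by linarith
  rw [← Real.log_le_log_iff (by (clear * - hd hd1 h1; linarith)) hX0]
  have : (τ + 2 * d) * Real.log X ≤ (1/2 + 2 * (1 / 10 ^ 9)) * Real.log X := by
    apply mul_le_mul_of_nonneg_right (by (clear * - hd1 hτ2; linarith)) (by (clear * - hl hd hd1; linarith))
  (clear * - hl hd hd1 h3 this; linarith)

/-- fourth bound: S-lemma -/
lemma P4G (hS : SLemma) (hP : PowDP) {τ ε0 δ d : ℝ} (hp : ParG τ ε0 δ d) (k : ℕ) (hk : 1 ≤ k) :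
    ∀ᶠ X : ℝ in atTop, ∀ (x : ℝ) (Z : Finset ℂ) (c : ℂ → ℂ) (g : ℕ → ℂ) (N : ℕ) (U : Finset ℝ),
    ClsG τ ε0 δ d X x Z c g N U → Z.Nonempty → U.Nonempty → (k : ℝ) * Real.log N ≤ 2 * Real.log X →
    Real.log Z.card + 2 * x * (k * Real.log N) ≤ (2 * x - 50 * δ) * Real.log X →
    Real.log U.card ≤ max (τ * Real.log X + Real.log Z.card - 2 * x * Real.log X - k * Real.log N * (1 - 2 * x))
      (4 * (τ * Real.log X + Real.log Z.card - 2 * x * Real.log X - k * Real.log N * (1 - 2 * x)) -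
        τ * Real.log X) + 40 * δ * Real.log X := by
  have hδ := hp.dpos
  have hτ1 := hp.h6
  have hτ2 := hp.h7
  have hδ' := hp.dsmall
  have hd4 := hp.h4
  have hd5 := hp.h5
  obtain ⟨C1, hC1, hpc⟩ := pow_classG hP hp k hk (δ / 10) (by (clear * - hδ; positivity))
  obtain ⟨C, hC, hmv⟩ := hS (2 ^ k) (δ / 10) (Nat.one_le_two_pow) (by positivity)
  filter_upwards [baseG hp, hpc, small (2 * k * Real.log 16 + Real.log C + 2 * Real.log C1 + 2 * Real.log 2 + 1)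
    (2 * k + 12) δ hδ, small (2 * k * Real.log 16 + Real.log C + 2 * Real.log C1 + Real.log 2)
    (2 * k + 12) δ hδ] with X hb hpc hsm1 hsm2 x Z c g N U h hZ hU hkq hcond
  obtain ⟨h8, hl, hN, hq0, hq1, hq2⟩ := hb x Z c g N U h
  obtain ⟨b, hb1, hb2⟩ := hpc x Z c g N U h
  have hx0 := h.hx0
  have hx1 := h.hx1
  have h1 := hp.h1
  have h3 := hp.h3
  obtain ⟨hT1, hT2, hT3⟩ := logTG h8 hd4 hτ1
  have hN' : (1:ℝ) ≤ N := by exact_mod_cast hN
  have hQ : 1 ≤ N ^ k := Nat.one_le_pow _ _ (by omega)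
  have hl0 : 0 < Real.log X := by (clear * - hδ hδ' hl; linarith)
  have hkk : (1:ℝ) ≤ k := by exact_mod_cast hk
  have hZc : (0:ℝ) < Z.card := by exact_mod_cast hZ.card_pos
  have hUc : (0:ℝ) < U.card := by exact_mod_cast hU.card_pos
  have hTX := T_leG h8 hl hd4 (by (clear * - hδ' hd5; linarith)) hτ1 hτ2
  have hX0 : (0:ℝ) < X := by (clear * - hδ hδ' h8; linarith)
  have hQpos : (0:ℝ) < ((N ^ k : ℕ) : ℝ) := by exact_mod_cast hQ
  have hlogQ : Real.log ((N ^ k : ℕ) : ℝ) = k * Real.log N := by push_cast; rw [Real.log_pow]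
  have hQX : ((N ^ k : ℕ) : ℝ) ≤ X ^ 2 := by
    rw [← Real.log_le_log_iff hQpos (by positivity), hlogQ, Real.log_pow]
    simpa using hkq
  have hspT : SpacedR U (1 / (X ^ (τ + 2 * d) + 1)) := by
    intro u hu u' hu' hne
    refine le_trans ?_ (h.hUs u hu u' hu' hne)
    apply one_div_le_one_div_of_le (by (clear * - hδ hδ' hT1; linarith)) (by (clear * - hδ hδ'; linarith))
  set l := Real.log X with hldef
  set q := Real.log N with hqdef
  set T := X ^ (τ + 2 * d) + 1 with hTdef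
  have hq00 : 0 ≤ q := Real.log_nonneg hN'
  have hVpos : 0 < (1 / (16 * l)) ^ k := by (clear * - hl; positivity)
  have hB : 0 < C1 * (N:ℝ) ^ (δ / 10) := by (clear * - hC1 hN; positivity)
  have hTp : 0 < T := by (clear * - hδ hδ' hT1; linarith)
  have hmain := hmv X T (1 - x) (1 - x + δ) (C1 * (N:ℝ) ^ (δ/10)) ((1 / (16 * l)) ^ k) (l ^ 2) (1 / l ^ 4) Z c b (N ^ k) U
    h8 (by (clear * - hδ hδ' hT1; linarith)) hTX hQ hQX (by (clear * - hδ hδ' hx1; linarith)) (by (clear * - hδ; linarith)) (by (clear * - hδ hδ'; linarith)) (by (clear * - hx0 h1 h3; linarith)) hVpos hB.le (by positivity)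
    (by positivity) hb1 h.hs h.hsp hb2 h.hc h.hU hspT h.hS
  set P : ℝ := C * X ^ (δ / 10) * Z.card * (l ^ 2) ^ 2 * (C1 * (N:ℝ) ^ (δ/10)) ^ 2 * T * X ^ (2 * (1 - x + δ - 1)) *
    ((N ^ k : ℕ) : ℝ) ^ (-2 * (1 - x)) with hPdef
  set D : ℝ := (1 / l ^ 4) ^ 2 * ((1 / (16 * l)) ^ k) ^ 2 with hDdef
  have hPp : 0 < P := by positivity
  have hDp : 0 < D := by (clear * - hl; positivity)
  set Q : ℝ := ((N ^ k : ℕ) : ℝ) with hQdef
  have hlogP : Real.log P = Real.log C + δ / 10 * l + Real.log Z.card + 4 * Real.log l +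
      2 * (Real.log C1 + δ / 10 * q) + Real.log T + 2 * (-x + δ) * l - 2 * (1 - x) * (k * q) := by
    rw [hPdef, Real.log_mul (by positivity) (by positivity), Real.log_mul (by positivity) (by positivity),
      Real.log_mul (by positivity) hTp.ne', Real.log_mul (by positivity) (by positivity),
      Real.log_mul (by positivity) (by (clear * - hl; positivity)), Real.log_mul (by positivity) hZc.ne',
      Real.log_mul hC.ne' (by positivity), Real.log_pow, Real.log_pow, Real.log_pow, Real.log_mul hC1.ne' (by positivity),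
      Real.log_rpow hX0, Real.log_rpow hX0, Real.log_rpow (by (clear * - hδ hδ' hN'; linarith)), Real.log_rpow hQpos, hlogQ]
    simp only [Nat.cast_ofNat]
    rw [← hqdef]
    ring
  have hlogD : Real.log D = -(8 * Real.log l) - 2 * (k * (Real.log 16 + Real.log l)) := by
    rw [hDdef, Real.log_mul (by (clear * - hl; positivity)) (by positivity), Real.log_pow, Real.log_pow, Real.log_pow,
      Real.log_div (by norm_num) (by (clear * - hl; positivity)), Real.log_div (by norm_num) (by (clear * - hl; positivity)), Real.log_pow,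
      Real.log_one, Real.log_mul (by norm_num) hl0.ne']
    simp only [Nat.cast_ofNat]
    ring
  have hdq : δ / 10 * q ≤ δ / 10 * l := mul_le_mul_of_nonneg_left hq2 (by positivity)
  have hdl0 : 0 ≤ δ * l := by (clear * - hδ hl; positivity)
  have hdl : d * l ≤ δ * l := mul_le_mul_of_nonneg_right hd5 hl0.le
  have hc1 : P * Q ^ 2 / T ≤ D / 2 := by
    rw [← Real.log_le_log_iff (by positivity) (by (clear * - hl; positivity)), Real.log_div (by positivity) hTp.ne',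
      Real.log_mul hPp.ne' (by positivity), Real.log_pow, Real.log_div hDp.ne' (by norm_num), hlogP, hlogD, hlogQ]
    simp only [Nat.cast_ofNat]
    (clear * - hsm2 hcond hdq hdl0; linarith)
  set M' : ℝ := 1 + ((U.card : ℝ) ^ 3 / T) ^ (1/4 : ℝ) with hM'def
  have hM'p : 0 < M' := by positivity
  have hc2 : D * U.card ≤ 2 * P * Q * M' := by
    have e1 : D * (U.card : ℝ) ^ 2 ≤ P * (U.card * Q * M' + (U.card : ℝ) ^ 2 * Q ^ 2 / T) := by
      calc D * (U.card : ℝ) ^ 2 = (U.card : ℝ) ^ 2 * (1 / l ^ 4) ^ 2 * ((1 / (16 * l)) ^ k) ^ 2 := by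
            rw [hDdef]; ring
        _ ≤ _ := hmain
    have e2 : P * (U.card * Q * M' + (U.card : ℝ) ^ 2 * Q ^ 2 / T) =
        U.card * (P * Q * M') + (U.card : ℝ) ^ 2 * (P * Q ^ 2 / T) := by ring
    have e3 : (U.card : ℝ) ^ 2 * (P * Q ^ 2 / T) ≤ (U.card : ℝ) ^ 2 * (D / 2) :=
      mul_le_mul_of_nonneg_left hc1 (by positivity)
    have e4 : U.card * (D * U.card) ≤ U.card * (2 * P * Q * M') := by
      rw [e2] at e1; (clear * - e1 e3; linarith)
    exact le_of_mul_le_mul_left e4 hUc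
  have hlg := Real.log_le_log (by positivity) hc2
  rw [Real.log_mul hDp.ne' hUc.ne', Real.log_mul (by positivity) hM'p.ne', Real.log_mul (by positivity) hQpos.ne',
    Real.log_mul (by norm_num) hPp.ne', hlogP, hlogD, hlogQ] at hlg
  rcases log_add_le one_pos (show 0 < ((U.card : ℝ) ^ 3 / T) ^ (1/4 : ℝ) by positivity) with hc | hc
  · refine le_trans ?_ (add_le_add_left (le_max_left _ _) _)
    rw [Real.log_one] at hc
    (clear * - hsm1 hT3 hdq hdl0 hdl hlg hc; linarith)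
  · refine le_trans ?_ (add_le_add_left (le_max_right _ _) _)
    rw [Real.log_rpow (by positivity), Real.log_div (by positivity) hTp.ne', Real.log_pow] at hc
    simp only [Nat.cast_ofNat] at hc
    (clear * - hδ hδ' hsm1 hT3 hdq hdl0 hdl hlg hc; linarith)

/-- fifth bound: energy -/
lemma P5G (hF : FourthU) (hE : EnergyG) (hP : PowDP) {τ ε0 δ d : ℝ} (hp : ParG τ ε0 δ d) (k : ℕ) (hk : 1 ≤ k) :
    ∀ᶠ X : ℝ in atTop, ∀ (x : ℝ) (Z : Finset ℂ) (c : ℂ → ℂ) (g : ℕ → ℂ) (N : ℕ) (U : Finset ℝ),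
    ClsG τ ε0 δ d X x Z c g N U → Z.Nonempty → U.Nonempty → (k : ℝ) * Real.log N ≤ 2 * Real.log X →
    Real.log U.card ≤ τ * Real.log X - 4 * x * Real.log X + max (4 * x * (k * Real.log N) + Real.log Z.card)
      (τ * Real.log X + 2 * Real.log Z.card - (2 - 4 * x) * (k * Real.log N)) + 40 * δ * Real.log X := by
  have hδ := hp.dpos
  have hτ1 := hp.h6
  have hτ2 := hp.h7
  have hδ' := hp.dsmall
  have hd4 := hp.h4
  have hd5 := hp.h5
  obtain ⟨C1, hC1, hpc⟩ := pow_classG hP hp k hk (δ / 10) (by positivity)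
  obtain ⟨CF, hCF, hfu⟩ := hF
  obtain ⟨C, hC, hmv⟩ := hE (2 ^ k) (Nat.one_le_two_pow)
  filter_upwards [baseG hp, hpc, small (4 * k * Real.log 16 + Real.log CF + 2 * Real.log C + 4 * Real.log C1 +
    2 * Real.log 2 + 2 * Real.log 3 + 20) (4 * k + 30) δ hδ] with X hb hpc hsm1 x Z c g N U h hZ hU hkq
  obtain ⟨h8, hl, hN, hq0, hq1, hq2⟩ := hb x Z c g N U h
  obtain ⟨b, hb1, hb2⟩ := hpc x Z c g N U h
  have hx0 := h.hx0
  have hx1 := h.hx1
  have h1 := hp.h1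
  have h3 := hp.h3
  obtain ⟨hT1, hT2, hT3⟩ := logTG h8 hd4 hτ1
  have hN' : (1:ℝ) ≤ N := by exact_mod_cast hN
  have hQ : 1 ≤ N ^ k := Nat.one_le_pow _ _ (by omega)
  have hl0 : 0 < Real.log X := by (clear * - hδ hδ' hl; linarith)
  have hkk : (1:ℝ) ≤ k := by exact_mod_cast hk
  have hZc : (0:ℝ) < Z.card := by exact_mod_cast hZ.card_pos
  have hUc : (0:ℝ) < U.card := by exact_mod_cast hU.card_pos
  have hX0 : (0:ℝ) < X := by (clear * - hδ hδ' h8; linarith)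
  have hQpos : (0:ℝ) < ((N ^ k : ℕ) : ℝ) := by exact_mod_cast hQ
  have hlogQ : Real.log ((N ^ k : ℕ) : ℝ) = k * Real.log N := by push_cast; rw [Real.log_pow]
  have hspT : SpacedR U (1 / (X ^ (τ + 2 * d) + 1)) := by
    intro u hu u' hu' hne
    refine le_trans ?_ (h.hUs u hu u' hu' hne)
    apply one_div_le_one_div_of_le (by (clear * - hδ hδ' hT1; linarith)) (by (clear * - hδ hδ'; linarith))
  set l := Real.log X with hldef
  set q := Real.log N with hqdef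
  set T := X ^ (τ + 2 * d) + 1 with hTdef
  have hq00 : 0 ≤ q := Real.log_nonneg hN'
  have hVpos : 0 < (1 / (16 * l)) ^ k := by (clear * - hl; positivity)
  have hB : 0 < C1 * (N:ℝ) ^ (δ / 10) := by (clear * - hC1 hN; positivity)
  have hTp : 0 < T := by (clear * - hδ hδ' hT1; linarith)
  have hf1 := hfu Z c (l ^ 2) (1 - x + δ) T l U (by (clear * - hδ hδ' hT1; linarith)) hl0.le (by (clear * - hx0 h1 h3; linarith)) (by (clear * - hl; positivity))
    (fun ρ hρ => ⟨by (clear * - hδ hδ' hx1 h hρ; linarith [(h.hs ρ hρ).1]), (h.hs ρ hρ).2.1, (h.hs ρ hρ).2.2, h.hc ρ hρ⟩) h.hU hspT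
  have hf2 : (U.card : ℝ) * (1 / l ^ 4) ^ 4 ≤
      CF * (l ^ 2) ^ 4 * T * EZ Z * Real.exp (4 * (1 - x + δ - 1) * l) := by
    refine le_trans ?_ hf1
    rw [← nsmul_eq_mul]
    apply Finset.card_nsmul_le_sum
    intro u hu
    exact pow_le_pow_left₀ (by (clear * - hl; positivity)) (h.hS u hu) 4
  have hE0 : (0:ℝ) < EZ Z := by
    by_contra hcon
    have : (EZ Z : ℝ) = 0 := le_antisymm (not_lt.mp hcon) (by (clear * -; positivity))
    rw [this] at hf2
    have h5 : 0 < (U.card : ℝ) * (1 / l ^ 4) ^ 4 := by positivity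
    simp only [mul_zero, zero_mul] at hf2
    (clear * - h5 hf2; linarith)
  have hlf := Real.log_le_log (by positivity) hf2
  rw [Real.log_mul hUc.ne' (by (clear * - hl; positivity)), Real.log_pow, Real.log_div (by norm_num) (by positivity), Real.log_one,
    Real.log_pow, Real.log_mul (by (clear * - hCF hl h8 hE0; positivity)) (by positivity), Real.log_exp, Real.log_mul (by (clear * - hCF hl h8; positivity)) hE0.ne',
    Real.log_mul (by positivity) hTp.ne', Real.log_mul hCF.ne' (by (clear * - hl; positivity)), Real.log_pow, Real.log_pow] at hlf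
  simp only [Nat.cast_ofNat] at hlf
  have hmain := hmv Z b (N ^ k) (C1 * (N:ℝ) ^ (δ/10)) ((1 / (16 * l)) ^ k) (1 - x) (1 - x + δ) T (1 / l) hQ
    (by (clear * - hδ hδ' hT1; linarith)) (by (clear * - hl; positivity)) (by rw [div_le_div_iff₀ hl0 (by norm_num)]; (clear * - hδ hδ' hl; linarith)) (by (clear * - hδ hδ' hx1; linarith))
    (by (clear * - hδ; linarith)) (by (clear * - hδ hδ'; linarith)) (by (clear * - hx0 h1 h3; linarith)) hVpos hB.le hb1 h.hs h.hsp hb2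
  have hsE : 0 < Real.sqrt (EZ Z) := Real.sqrt_pos.mpr hE0
  have hsZ : 0 < Real.sqrt (Z.card : ℝ) := Real.sqrt_pos.mpr hZc
  have hsT : 0 < Real.sqrt T := Real.sqrt_pos.mpr hTp
  have hlogQ0 : 0 < 1 + Real.log ((N ^ k : ℕ) : ℝ) := by rw [hlogQ]; (clear * - hk; positivity)
  have hlg := Real.log_le_log (by (clear * - hE0 hl; positivity)) hmain
  have hlE : Real.log (Real.sqrt (EZ Z)) = Real.log (EZ Z) / 2 := Real.log_sqrt hE0.le
  have hlZ : Real.log (Real.sqrt (Z.card : ℝ)) = Real.log (Z.card) / 2 := Real.log_sqrt hZc.le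
  have hlT : Real.log (Real.sqrt T) = Real.log T / 2 := Real.log_sqrt hTp.le
  set A1 : ℝ := ((N ^ k : ℕ) : ℝ) ^ 2 * Real.sqrt (Z.card : ℝ) with hA1
  set A2 : ℝ := ((N ^ k : ℕ) : ℝ) * Z.card * Real.sqrt T with hA2
  have hA1p : 0 < A1 := by positivity
  have hA2p : 0 < A2 := by positivity
  have hlA1 : Real.log A1 = 2 * (k * q) + Real.log Z.card / 2 := by
    rw [hA1, Real.log_mul (by positivity) hsZ.ne', Real.log_pow, hlogQ, hlZ]
    simp only [Nat.cast_ofNat]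
  have hlA2 : Real.log A2 = k * q + Real.log Z.card + Real.log T / 2 := by
    rw [hA2, Real.log_mul (by positivity) hsT.ne', Real.log_mul hQpos.ne' hZc.ne', hlogQ, hlT]
  have hlQ1 : Real.log (1 + Real.log ((N ^ k : ℕ) : ℝ)) ≤ Real.log 3 + Real.log l := by
    rw [← Real.log_mul (by norm_num) hl0.ne', hlogQ]
    apply Real.log_le_log (by (clear * - hk; positivity))
    (clear * - hδ hδ' hl hkq; linarith)
  rw [Real.log_mul hsE.ne' (by (clear * - hl; positivity)), hlE, Real.log_pow, Real.log_pow, Real.log_div (by norm_num) (by positivity),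
    Real.log_one, Real.log_mul (by norm_num) hl0.ne', Real.log_mul (by (clear * - hC hC1 hN hl; positivity)) (by positivity),
    Real.log_mul (by (clear * - hC hC1 hN hl; positivity)) hlogQ0.ne', Real.log_mul (by (clear * - hC hC1 hN hl; positivity)) (by positivity),
    Real.log_div (by positivity) (by positivity), Real.log_mul hC.ne' (by positivity), Real.log_pow,
    Real.log_mul hC1.ne' (by positivity), Real.log_rpow (by (clear * - hδ hδ' hN'; linarith)), Real.log_rpow hQpos,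
    Real.log_pow, Real.log_div (by norm_num) hl0.ne', Real.log_one] at hlg
  simp only [Nat.cast_ofNat] at hlg
  rw [← hqdef] at hlg
  have hqq : (2 * (1 / l)) * (k * q) ≤ 4 := by
    have : (2 * (1 / l)) * (k * q) = 2 * (k * q) / l := by ring
    rw [this, div_le_iff₀ hl0]; (clear * - hkq; linarith)
  have hexp : (-2 * (1 - x) + 2 * (1 / l)) * Real.log ((N ^ k : ℕ) : ℝ) = -(2 - 2 * x) * (k * q) + (2 * (1 / l)) * (k * q) := by
    rw [hlogQ]; ring
  rw [hexp] at hlg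
  have hdq : δ / 10 * q ≤ δ / 10 * l := mul_le_mul_of_nonneg_left hq2 (by positivity)
  have hdl0 : 0 ≤ δ * l := by positivity
  have hdl : d * l ≤ δ * l := mul_le_mul_of_nonneg_right hd5 hl0.le
  rcases log_add_le hA1p hA2p with hc | hc
  · have hm := le_max_left (4 * x * (k * q) + Real.log Z.card) (τ * l + 2 * Real.log Z.card - (2 - 4 * x) * (k * q))
    rw [hlA1] at hc
    (clear * - hδ hδ' hsm1 hT3 hlf hlg hlQ1 hqq hdq hdl0 hdl hc hm; linarith)
  · have hm := le_max_right (4 * x * (k * q) + Real.log Z.card) (τ * l + 2 * Real.log Z.card - (2 - 4 * x) * (k * q))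
    rw [hlA2] at hc
    (clear * - hδ hδ' hsm1 hT3 hlf hlg hlQ1 hqq hdq hdl0 hdl hc hm; linarith)

lemma convG {z a b e t A B E : ℝ} (hl : 0 < t) (h : z ≤ max a b + e) (ha : a / t = A) (hb : b / t = B)
    (he : e / t ≤ E) : z / t ≤ max A B + E := by
  rw [← ha, ← hb]
  have h1 : z / t ≤ (max a b + e) / t := div_le_div_of_nonneg_right h hl.le
  have h2 : (max a b + e) / t = max a b / t + e / t := by ring
  have h3 : max a b / t ≤ max (a / t) (b / t) := by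
    rcases le_total a b with hab | hab
    · rw [max_eq_right hab]; exact le_max_right _ _
    · rw [max_eq_left hab]; exact le_max_left _ _
  (clear * - he h1 h2 h3; linarith)

/-- one class, general height exponent -/
theorem classBoundG (h1 : MVCount) (h2 : HuxleyCount) (h3 : SLemma) (h4 : FourthU) (h5 : EnergyG) (h6 : PowDP)
    {τ κ ρ0 : ℝ} (hτ1 : 1/4 ≤ τ) (hτ2 : τ ≤ 1/2) (hκ : κ * τ = 1) (h7 : NumericG κ ρ0) : ClassBoundG τ ρ0 := by
  intro ε0 δ d e1 e2 e3 e4 e5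
  have hp : ParG τ ε0 δ d := ⟨e1, e2, e3, e4, e5, hτ1, hτ2⟩
  have hδ := hp.dpos
  have hδ' := hp.dsmall
  have hτ : 0 < τ := by (clear * - hτ1; linarith)
  have hκ' : κ = 1 / τ := by field_simp; (clear * - hκ; linarith)
  have hall : ∀ᶠ X : ℝ in atTop, ∀ k ∈ Finset.Icc 1 ⌈(8:ℝ) / δ⌉₊,
      ∀ (x : ℝ) (Z : Finset ℂ) (c : ℂ → ℂ) (g : ℕ → ℂ) (N : ℕ) (U : Finset ℝ),
      ClsG τ ε0 δ d X x Z c g N U → Z.Nonempty → U.Nonempty → (k : ℝ) * Real.log N ≤ 2 * Real.log X →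
      (Real.log Z.card ≤ max (2 * x * (k * Real.log N))
        (τ * Real.log X - k * Real.log N * (1 - 2 * x)) + 40 * δ * Real.log X) ∧
      (Real.log Z.card ≤ max (2 * x * (k * Real.log N))
        (τ * Real.log X - k * Real.log N * (2 - 6 * x)) + 40 * δ * Real.log X) ∧
      (Real.log Z.card + 2 * x * (k * Real.log N) ≤ (2 * x - 50 * δ) * Real.log X →
        Real.log U.card ≤ max (τ * Real.log X + Real.log Z.card - 2 * x * Real.log X - k * Real.log N * (1 - 2 * x))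
          (4 * (τ * Real.log X + Real.log Z.card - 2 * x * Real.log X - k * Real.log N * (1 - 2 * x)) -
          τ * Real.log X) + 40 * δ * Real.log X) ∧
      (Real.log U.card ≤ τ * Real.log X - 4 * x * Real.log X + max (4 * x * (k * Real.log N) + Real.log Z.card)
        (τ * Real.log X + 2 * Real.log Z.card - (2 - 4 * x) * (k * Real.log N)) + 40 * δ * Real.log X) := by
    rw [Filter.eventually_all_finset]
    intro k hk
    have hk1 : 1 ≤ k := (Finset.mem_Icc.mp hk).1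
    filter_upwards [P1G h1 h6 hp k hk1, P2G h2 h6 hp k hk1, P4G h3 h6 hp k hk1, P5G h4 h5 h6 hp k hk1]
      with X a b c' d' x Z c g N U hcl hZ hU hkq
    exact ⟨a x Z c g N U hcl hZ hkq, b x Z c g N U hcl hZ hkq, c' x Z c g N U hcl hZ hU hkq,
      d' x Z c g N U hcl hZ hU hkq⟩
  obtain ⟨X0, hX0⟩ := (eventually_atTop.mp ((baseG hp).and ((P3G hp).and hall)))
  refine ⟨X0, fun X x Z c g N U hX f1 f2 f3 f4 f5 f6 f7 f8 f9 f10 f11 f12 => ?_⟩
  obtain ⟨hb, hP3, hA⟩ := hX0 X hX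
  have hcl : ClsG τ ε0 δ d X x Z c g N U := ⟨f1, f2, f3, f4, f5, f6, f7, f8, f9, f10, f11, f12⟩
  obtain ⟨h8, hl, hN, hq0, hq1, hq2⟩ := hb x Z c g N U hcl
  have hXp : (0:ℝ) < X := by (clear * - h8; linarith)
  rcases Finset.eq_empty_or_nonempty U with hU | hU
  · rw [hU]; simp; (clear * - h8; positivity)
  obtain ⟨hZ, hz⟩ := hP3 x Z c g N U hcl hU
  have hA' := fun k hk => hA k hk x Z c g N U hcl hZ hU
  have hUc : (0:ℝ) < U.card := by exact_mod_cast hU.card_pos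
  set l := Real.log X with hldef
  set q := Real.log N with hqdef
  have hl0 : 0 < l := by (clear * - hl; linarith)
  have hq : 0 < q := lt_of_lt_of_le (by positivity) hq0
  set t := τ * l with htdef
  have ht : 0 < t := by positivity
  have ht1 : l / 4 ≤ t := by rw [htdef]; (clear * - hτ1 hl; nlinarith)
  have ht2 : t ≤ l / 2 := by rw [htdef]; (clear * - hτ2 hl; nlinarith)
  have hn : δ ≤ q / t := by
    rw [le_div_iff₀ ht]; (clear * - hq0 hτ1 hτ2 hq; nlinarith)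
  have hnp : 0 < q / t := by (clear * - hq hτ1 hl; positivity)
  have key : ∀ k : ℕ, 1 ≤ k → (k : ℝ) ≤ 4 / (q / t) → k ∈ Finset.Icc 1 ⌈(8:ℝ) / δ⌉₊ ∧ (k : ℝ) * q ≤ 2 * l := by
    intro k hk hk4
    have hk5 : (k:ℝ) * (q / t) ≤ 4 := by rwa [le_div_iff₀ hnp] at hk4
    constructor
    · rw [Finset.mem_Icc]
      refine ⟨hk, ?_⟩
      have : (k:ℝ) ≤ 8 / δ := by
        rw [le_div_iff₀ hδ]
        have : (k:ℝ) * δ ≤ k * (q / t) := mul_le_mul_of_nonneg_left hn (by (clear * - hk; positivity))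
        (clear * - e2 e3 e4 e5 hk5 this; linarith)
      exact_mod_cast le_trans this (Nat.le_ceil _)
    · have : (k:ℝ) * (q / t) = (k * q) / t := by ring
      rw [this, div_le_iff₀ ht] at hk5
      (clear * - ht2 hk5; linarith)
  have he : (40 * δ * l) / t ≤ 1000 * δ := by
    rw [div_le_iff₀ ht]; (clear * - e3 e1 e2 e4 e5 hl ht1 ht; nlinarith)
  have hlt : l / t = κ := by rw [hκ', htdef]; (clear * - hl hτ1; field_simp)
  have hfin := h7 ε0 e1 e2 (1000 * δ) x (q / t) (Real.log Z.card / t) (Real.log U.card / t)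
    (by (clear * - hδ; positivity)) (by rw [e3]; (clear * -; linarith)) f1 (by (clear * - e4 e5 f2; linarith)) hnp
    (by
      rw [div_le_iff₀ ht]
      have h9 : (yy x * τ + 45 * δ) * l = yy x * t + 45 * δ * l := by rw [htdef]; ring
      rw [h9] at hq1
      have : 45 * δ * l ≤ 1000 * δ * t := by (clear * - e3 e1 e2 e4 e5 hl ht1 ht; nlinarith)
      (clear * - hq1 this; linarith))
    (by
      intro k hk hk4
      obtain ⟨g1, g2⟩ := key k hk hk4
      obtain ⟨a1, a2, a3, a4⟩ := hA' k g1 g2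
      exact convG ht a1 (by (clear * - ht hq hk; field_simp)) (by (clear * - ht; field_simp)) he)
    (by
      intro k hk hk4
      obtain ⟨g1, g2⟩ := key k hk hk4
      obtain ⟨a1, a2, a3, a4⟩ := hA' k g1 g2
      exact convG ht a2 (by (clear * - ht hq hk; field_simp)) (by (clear * - ht; field_simp)) he)
    (by
      rw [le_div_iff₀ ht, ← hlt]
      have h9 : (l / t * x - 1000 * δ) * t = l * x - 1000 * δ * t := by (clear * - ht; field_simp)
      rw [h9]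
      have : 40 * δ * l ≤ 1000 * δ * t := by (clear * - e3 e1 e2 e4 e5 hl ht1 ht; nlinarith)
      (clear * - hz this; linarith))
    (by
      intro k hk hk4 hcond
      obtain ⟨g1, g2⟩ := key k hk hk4
      obtain ⟨a1, a2, a3, a4⟩ := hA' k g1 g2
      have h9 : Real.log Z.card + 2 * x * (k * q) ≤ (2 * x - 50 * δ) * l := by
        have e6 : Real.log Z.card / t + 2 * x * (k * (q / t)) = (Real.log Z.card + 2 * x * (k * q)) / t := by
          ring
        rw [e6, div_le_iff₀ ht, ← hlt] at hcond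
        have h9 : (2 * (l / t) * x - 1000 * δ) * t = 2 * l * x - 1000 * δ * t := by (clear * - ht; field_simp)
        rw [h9] at hcond
        have : 50 * δ * l ≤ 1000 * δ * t := by (clear * - e3 e1 e2 e4 e5 hl ht1 ht; nlinarith)
        (clear * - hcond this; linarith)
      have hc1 : 2 * κ * x = 2 * x * (l / t) := by rw [hlt]; ring
      rw [hc1]
      exact convG ht (a3 h9) (by (clear * - ht; field_simp)) (by (clear * - ht; field_simp)) he)
    (by
      intro k hk hk4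
      obtain ⟨g1, g2⟩ := key k hk hk4
      obtain ⟨a1, a2, a3, a4⟩ := hA' k g1 g2
      have a5 : Real.log U.card - (t - 4 * x * l) ≤ max (4 * x * (k * q) + Real.log Z.card)
        (t + 2 * Real.log Z.card - (2 - 4 * x) * (k * q)) + 40 * δ * l := by (clear * - a4; linarith)
      have a6 := convG (A := 4 * x * (k * (q / t)) + Real.log Z.card / t)
        (B := 1 + 2 * (Real.log Z.card / t) - (2 - 4 * x) * (k * (q / t))) ht a5 (by (clear * - ht; field_simp))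
        (by (clear * - ht; field_simp)) he
      have e7 : (Real.log U.card - (t - 4 * x * l)) / t = Real.log U.card / t - (1 - 4 * x * (l / t)) := by
        (clear * - ht; field_simp)
      rw [e7, hlt] at a6
      have e8 : 4 * κ * x = 4 * x * κ := by ring
      rw [e8]
      (clear * - a6; linarith))
  rw [div_le_iff₀ ht] at hfin
  rw [← Real.log_le_log_iff hUc (by positivity), Real.log_rpow hXp]
  calc Real.log U.card ≤ ρ0 * t := hfin
    _ = τ * ρ0 * l := by rw [htdef]; ring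

end Pool.Agent.M17.Helper60.KC
end

/- Helper53.KN.Helper60.KC.MainG -/
section
/-! Counting theorem for cells of general length: `CountW w U`. -/

set_option autoImplicit false
set_option maxHeartbeats 4000000
open Filter Topology
open scoped Classical

namespace Pool.Agent.M17.Helper60.KC
open Pool.Agent.M17.Helper60.KS

/-- everything that holds at one large `X` -/
lemma main_countG {C τ ρ1 ε0 δ d X : ℝ} (hp : ParG τ ε0 δ d) (hC : 0 < C) (hX8 : 8 ≤ X) (hl : 10 ≤ Real.log X)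
    (hA : ∀ (t : ℝ) (F : Finset ℂ), (∀ ρ ∈ F, riemannZeta ρ = 0 ∧ 1/2 ≤ ρ.re ∧ |ρ.im - t| ≤ 1) →
      ∑ ρ ∈ F, (mz ρ : ℝ) ≤ C * Real.log (|t| + 2))
    (hN : ∀ F : Finset ℂ, (∀ ρ ∈ F, riemannZeta ρ = 0 ∧ 1 - ε0 ≤ ρ.re ∧ |ρ.im| ≤ X ^ (0.6 : ℝ)) →
      ∑ ρ ∈ F, (mz ρ : ℝ) * X ^ (ρ.re - 1) ≤ 1/16)
    (hD : ∀ x : ℝ, 0 < x → x ≤ 0.4 + δ → ∃ g : ℕ → ℂ, (∀ n, ‖g n‖ ≤ (n.divisors.card : ℝ)) ∧
      ∀ ρ : ℂ, riemannZeta ρ = 0 → 1 - x ≤ ρ.re → Real.log X ^ 2 ≤ |ρ.im| → |ρ.im| ≤ X ^ (τ + 2 * d) + 1 →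
      ∃ i : ℕ, X ^ δ / 2 ≤ (2 : ℝ) ^ i ∧ (2 : ℝ) ^ i ≤ X ^ (yy x * τ + 45 * δ) ∧
        1 / (16 * Real.log X) ≤ ‖DP g (2 ^ i) 2 ρ‖)
    (hK : ∀ (x : ℝ) (Z : Finset ℂ) (c : ℂ → ℂ) (g : ℕ → ℂ) (N : ℕ) (U : Finset ℝ),
      ClsG τ ε0 δ d X x Z c g N U → (U.card : ℝ) ≤ X ^ ρ1)
    (hS : SplitSpaced)
    (hx1 : X ^ (τ + 2 * d) + 4 ≤ X) (hx2 : X ^ (τ + 2 * d) + 1 ≤ X ^ (0.6 : ℝ))
    (hx3 : 240 * C * Real.log X ^ 4 ≤ X ^ ε0)
    (hx4 : 8 * (1 / δ + 2) * (C + 1) ≤ Real.log X)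
    (hx5 : 2 * (C * Real.log X) ≤ Real.log X ^ 2)
    (F : Finset ℂ) (c : ℂ → ℂ) (u : ℕ → ℝ) (J : ℕ)
    (hF : ∀ ρ ∈ F, riemannZeta ρ = 0 ∧ 0.6 < ρ.re ∧ |ρ.im| ≤ X ^ (τ + 2 * d) + 1)
    (hc : ∀ ρ ∈ F, ‖c ρ‖ ≤ 2)
    (hu : ∀ j < J, Real.log X ≤ u j ∧ u j ≤ Real.log X + 1)
    (hus : ∀ j < J, ∀ j' < J, j ≠ j' → 1 / X ^ (τ + 2 * d) ≤ |u j - u j'|) :
    (((Finset.range J).filter (fun j => 1/2 ≤ ‖∑ ρ ∈ F, (mz ρ : ℂ) * c ρ *
      Complex.exp ((ρ - 1) * (u j : ℂ))‖)).card : ℝ) ≤ Real.log X ^ 3 * X ^ ρ1 := by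
  have hδ := hp.dpos
  have hδ' := hp.dsmall
  have hX0 : 1 < X := by (clear * - hX8 hδ hδ'; linarith)
  set l := Real.log X with hldef
  have hl0 : 0 < l := by (clear * - hδ hδ' hl; linarith)
  have hXp : 0 < X := by (clear * - hX8 hδ hδ'; linarith)
  -- the three parts
  set P1 : ℂ → Prop := fun ρ => 1 - ε0 ≤ ρ.re with hP1
  set P2 : ℂ → Prop := fun ρ => |ρ.im| < l ^ 2 with hP2
  set F1 := F.filter P1 with hF1
  set F2 := (F.filter (fun ρ => ¬ P1 ρ)).filter P2 with hF2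
  set F3a := (F.filter (fun ρ => ¬ P1 ρ)).filter (fun ρ => ¬ P2 ρ) with hF3a
  set F3 := F3a.filter (fun ρ => mz ρ ≠ 0) with hF3
  set f : ℝ → ℂ → ℂ := fun v ρ => (mz ρ : ℂ) * c ρ * Complex.exp ((ρ - 1) * (v : ℂ)) with hf
  have hsplit : ∀ v : ℝ, ∑ ρ ∈ F, f v ρ = ∑ ρ ∈ F1, f v ρ + (∑ ρ ∈ F2, f v ρ + ∑ ρ ∈ F3, f v ρ) := by
    intro v
    have e3 : ∑ ρ ∈ F3a, f v ρ = ∑ ρ ∈ F3, f v ρ := by
      symm
      rw [hF3]
      apply Finset.sum_filter_of_ne
      intro ρ hρ h hm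
      apply h
      simp [hf, hm]
    rw [← e3, hF2, hF3a, Finset.sum_filter_add_sum_filter_not, hF1, Finset.sum_filter_add_sum_filter_not]
  have hpart1 : ∀ v : ℝ, l ≤ v → ‖∑ ρ ∈ F1, f v ρ‖ ≤ 1/8 := by
    intro v hv
    refine le_trans (norm_sum_le _ _) ?_
    have h1 : ∀ ρ ∈ F1, ‖f v ρ‖ ≤ 2 * ((mz ρ : ℝ) * X ^ (ρ.re - 1)) := by
      intro ρ hρ
      rw [hF1, Finset.mem_filter] at hρ
      exact term_le hX0 (hF ρ hρ.1).1 (hc ρ hρ.1) hv
    refine le_trans (Finset.sum_le_sum h1) ?_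
    rw [← Finset.mul_sum]
    have h2 := hN F1 (by
      intro ρ hρ
      rw [hF1, Finset.mem_filter] at hρ
      exact ⟨(hF ρ hρ.1).1, hρ.2, le_trans (hF ρ hρ.1).2.2 hx2⟩)
    (clear * - h2; linarith)
  have hpart2 : ∀ v : ℝ, l ≤ v → ‖∑ ρ ∈ F2, f v ρ‖ ≤ 1/8 := by
    intro v hv
    refine le_trans (norm_sum_le _ _) ?_
    have h1 : ∀ ρ ∈ F2, ‖f v ρ‖ ≤ 2 * X ^ (-ε0) * (mz ρ : ℝ) := by
      intro ρ hρ
      rw [hF2, Finset.mem_filter, Finset.mem_filter] at hρ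
      refine le_trans (term_le hX0 (hF ρ hρ.1.1).1 (hc ρ hρ.1.1) hv) ?_
      have h3 : ρ.re < 1 - ε0 := not_le.mp hρ.1.2
      have h4 : X ^ (ρ.re - 1) ≤ X ^ (-ε0) := Real.rpow_le_rpow_of_exponent_le hX0.le (by (clear * - hρ; linarith))
      have h5 : (0:ℝ) ≤ mz ρ := Nat.cast_nonneg _
      (clear * - h4; nlinarith)
    refine le_trans (Finset.sum_le_sum h1) ?_
    rw [← Finset.mul_sum]
    have h2 := low_zeros hC hA ⌈l ^ 2⌉₊ F2 (by
      intro ρ hρ
      rw [hF2, Finset.mem_filter, Finset.mem_filter] at hρ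
      have h3 : |ρ.im| < l ^ 2 := hρ.2
      refine ⟨(hF ρ hρ.1.1).1, by (clear * - hδ hδ' hF hρ; linarith [(hF ρ hρ.1.1).2.1]), ?_⟩
      exact le_trans h3.le (Nat.le_ceil _))
    have hM : (⌈l ^ 2⌉₊ : ℝ) < l ^ 2 + 1 := Nat.ceil_lt_add_one (by positivity)
    set M := (⌈l ^ 2⌉₊ : ℝ) with hMdef
    have hM0 : 0 ≤ M := Nat.cast_nonneg _
    have hlog : Real.log (M + 2) ≤ M + 1 := by
      have := Real.log_le_sub_one_of_pos (show 0 < M + 2 by linarith); (clear * - this; linarith)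
    have hl2 : 100 ≤ l ^ 2 := by (clear * - hl; nlinarith)
    have h6 : (2 * M + 1) * (C * Real.log (M + 2)) ≤ (5 * l ^ 2) * (C * (3 * l ^ 2)) := by
      apply mul_le_mul (by (clear * - hδ hδ' hM hl2; linarith)) _ _ (by positivity)
      · apply mul_le_mul_of_nonneg_left (by linarith) hC.le
      · have : 0 ≤ Real.log (M + 2) := Real.log_nonneg (by linarith)
        (clear * - hC this; positivity)
    have h7 : X ^ (-ε0) * X ^ ε0 = 1 := by
      rw [← Real.rpow_add hXp]; simp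
    have h8 : 0 < X ^ (-ε0) := Real.rpow_pos_of_pos hXp _
    calc 2 * X ^ (-ε0) * ∑ ρ ∈ F2, (mz ρ : ℝ) ≤ 2 * X ^ (-ε0) * ((5 * l ^ 2) * (C * (3 * l ^ 2))) := by
          apply mul_le_mul_of_nonneg_left (le_trans h2 h6) (by positivity)
      _ = 1/8 * (X ^ (-ε0) * (240 * C * l ^ 4)) := by ring
      _ ≤ 1/8 * (X ^ (-ε0) * X ^ ε0) := by
          apply mul_le_mul_of_nonneg_left _ (by norm_num)
          exact mul_le_mul_of_nonneg_left hx3 h8.le
      _ = 1/8 := by rw [h7]; norm_num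
  -- classes of F3
  have hF3' : ∀ ρ ∈ F3, riemannZeta ρ = 0 ∧ 0.6 < ρ.re ∧ ρ.re < 1 - ε0 ∧ l ^ 2 ≤ |ρ.im| ∧
      |ρ.im| ≤ X ^ (τ + 2 * d) + 1 ∧ 1 ≤ mz ρ ∧ ‖c ρ‖ ≤ 2 := by
    intro ρ hρ
    rw [hF3, Finset.mem_filter, hF3a, Finset.mem_filter, Finset.mem_filter] at hρ
    obtain ⟨⟨⟨h1, h2⟩, h3⟩, h4⟩ := hρ
    exact ⟨(hF ρ h1).1, (hF ρ h1).2.1, not_le.mp h2, not_lt.mp h3, (hF ρ h1).2.2, Nat.one_le_iff_ne_zero.mpr h4, hc ρ h1⟩
  have hD' : ∀ x : ℝ, ∃ g : ℕ → ℂ, 0 < x → x ≤ 0.4 + δ → ((∀ n, ‖g n‖ ≤ (n.divisors.card : ℝ)) ∧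
      ∀ ρ : ℂ, riemannZeta ρ = 0 → 1 - x ≤ ρ.re → l ^ 2 ≤ |ρ.im| → |ρ.im| ≤ X ^ (τ + 2 * d) + 1 →
      ∃ i : ℕ, X ^ δ / 2 ≤ (2 : ℝ) ^ i ∧ (2 : ℝ) ^ i ≤ X ^ (yy x * τ + 45 * δ) ∧
        1 / (16 * l) ≤ ‖DP g (2 ^ i) 2 ρ‖) := by
    intro x
    by_cases h : 0 < x ∧ x ≤ 0.4 + δ
    · obtain ⟨g, hg⟩ := hD x h.1 h.2
      exact ⟨g, fun _ _ => hg⟩
    · exact ⟨0, fun h1 h2 => absurd ⟨h1, h2⟩ h⟩
  choose G hG using hD'
  set a : ℂ → ℕ := fun ρ => ⌈(1 - ρ.re) / δ⌉₊ with ha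
  have hax : ∀ ρ ∈ F3, 1 - ρ.re ≤ δ * a ρ ∧ δ * a ρ < 1 - ρ.re + δ := by
    intro ρ hρ
    obtain ⟨-, h2, h3, -⟩ := hF3' ρ hρ
    have h1 := hp.h1
    constructor
    · have := Nat.le_ceil ((1 - ρ.re) / δ)
      rw [div_le_iff₀ hδ] at this
      rw [mul_comm]; exact this
    · have := Nat.ceil_lt_add_one (show 0 ≤ (1 - ρ.re) / δ by apply div_nonneg (by (clear * - h3 h1; linarith)) hδ.le)
      have h5 : δ * (a ρ : ℝ) < δ * ((1 - ρ.re) / δ + 1) := mul_lt_mul_of_pos_left this hδ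
      have h6 : δ * ((1 - ρ.re) / δ + 1) = 1 - ρ.re + δ := by (clear * - hδ; field_simp)
      (clear * - h5 h6; linarith)
  have hex : ∀ ρ ∈ F3, ∃ i : ℕ, X ^ δ / 2 ≤ (2 : ℝ) ^ i ∧ (2 : ℝ) ^ i ≤ X ^ (yy (δ * a ρ) * τ + 45 * δ) ∧
        1 / (16 * l) ≤ ‖DP (G (δ * a ρ)) (2 ^ i) 2 ρ‖ := by
    intro ρ hρ
    obtain ⟨h1, h2, h3, h4, h5, -⟩ := hF3' ρ hρ
    obtain ⟨h6, h7⟩ := hax ρ hρ
    have h8 := hp.h1
    exact (hG (δ * a ρ) (by (clear * - h3 h6 h8; linarith)) (by (clear * - h2 h7; linarith))).2 ρ h1 (by (clear * - h6; linarith)) h4 h5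
  choose! iF hiF using hex
  have hMM : ∀ t : ℝ, (F3.filter (fun ρ => |ρ.im - t| ≤ 1)).card ≤ ⌈C * l⌉₊ := by
    intro t
    rcases Finset.eq_empty_or_nonempty (F3.filter (fun ρ => |ρ.im - t| ≤ 1)) with he | ⟨ρ0, hρ0⟩
    · rw [he]; simp
    have h1 := hA t (F3.filter (fun ρ => |ρ.im - t| ≤ 1)) (by
      intro ρ hρ
      rw [Finset.mem_filter] at hρ
      obtain ⟨h1, h2, -⟩ := hF3' ρ hρ.1
      exact ⟨h1, by linarith, hρ.2⟩)
    rw [Finset.mem_filter] at hρ0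
    obtain ⟨-, -, -, -, h5, -⟩ := hF3' ρ0 hρ0.1
    have h6 : |t| ≤ |ρ0.im| + 1 := by
      have h7 : |t| ≤ |ρ0.im| + |ρ0.im - t| := by
        have := abs_sub_abs_le_abs_sub t ρ0.im
        rw [abs_sub_comm] at this; (clear * - this; linarith)
      (clear * - hρ0 h7; linarith [hρ0.2])
    have h8 : Real.log (|t| + 2) ≤ l := Real.log_le_log (by (clear * -; positivity)) (by (clear * - hx1 h5 h6; linarith))
    have h9 : ((F3.filter (fun ρ => |ρ.im - t| ≤ 1)).card : ℝ) ≤ ∑ ρ ∈ F3.filter (fun ρ => |ρ.im - t| ≤ 1), (mz ρ : ℝ) := by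
      rw [← nsmul_one]
      apply Finset.card_nsmul_le_sum
      intro ρ hρ
      rw [Finset.mem_filter] at hρ
      exact_mod_cast (hF3' ρ hρ.1).2.2.2.2.2.1
    have h10 : ((F3.filter (fun ρ => |ρ.im - t| ≤ 1)).card : ℝ) ≤ ⌈C * l⌉₊ :=
      le_trans h9 (le_trans h1 (le_trans (mul_le_mul_of_nonneg_left h8 hC.le) (Nat.le_ceil _)))
    exact_mod_cast h10
  obtain ⟨col, hcol1, hcol2⟩ := hS F3 ⌈C * l⌉₊ hMM
  set A0 := ⌈1 / δ⌉₊ + 1 with hA0
  set I0 := ⌈2 * l⌉₊ + 1 with hI0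
  set M0 := ⌈C * l⌉₊ with hM0
  set KK := Finset.range A0 ×ˢ (Finset.range I0 ×ˢ Finset.range M0) with hKK
  set φ : ℂ → ℕ × (ℕ × ℕ) := fun ρ => (a ρ, (iF ρ, col ρ)) with hφ
  have hmaps : ∀ ρ ∈ F3, φ ρ ∈ KK := by
    intro ρ hρ
    obtain ⟨h1, h2, h3, h4, h5, -⟩ := hF3' ρ hρ
    obtain ⟨h6, h7⟩ := hax ρ hρ
    obtain ⟨h8, h9, h10⟩ := hiF ρ hρ
    simp only [hφ, hKK, Finset.mem_product, Finset.mem_range]
    refine ⟨?_, ?_, hcol1 ρ hρ⟩
    · have : a ρ ≤ ⌈1 / δ⌉₊ := by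
        apply Nat.ceil_mono
        apply div_le_div_of_nonneg_right (by (clear * - hδ hδ' h2; linarith)) hδ.le
      omega
    · have e1 : yy (δ * a ρ) ≤ 0.92 := by
        unfold yy
        refine le_trans (min_le_right _ _) ?_
        rw [div_le_iff₀ (by (clear * - hδ hδ' h2 h7; linarith))]
        (clear * - hδ hδ' h2 h7; linarith)
      have e1' : yy (δ * a ρ) * τ ≤ 0.92 * τ := mul_le_mul_of_nonneg_right e1 (by have := hp.h6; (clear * - hδ hδ' this; linarith))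
      have hτ2 := hp.h7
      have e2 : (2:ℝ) ^ iF ρ ≤ X := by
        calc (2:ℝ) ^ iF ρ ≤ X ^ (yy (δ * a ρ) * τ + 45 * δ) := h9
          _ ≤ X ^ (1:ℝ) := Real.rpow_le_rpow_of_exponent_le hX0.le (by (clear * - hδ hδ' e1' hτ2; linarith))
          _ = X := Real.rpow_one _
      have e3 : (iF ρ : ℝ) * Real.log 2 ≤ l := by
        rw [← Real.log_pow]; exact Real.log_le_log (by positivity) e2
      have e4 : (iF ρ : ℝ) ≤ 2 * l := by
        have h12 : (1/2 : ℝ) ≤ Real.log 2 := by have := Real.log_two_gt_d9; (clear * - hδ hδ' this; linarith)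
        have h11 : (0:ℝ) ≤ iF ρ := Nat.cast_nonneg _
        (clear * - e3 h12; nlinarith)
      have e5 : (iF ρ : ℝ) ≤ ⌈2 * l⌉₊ := le_trans e4 (Nat.le_ceil _)
      have e6 : iF ρ ≤ ⌈2 * l⌉₊ := by exact_mod_cast e5
      omega
  have hKcard : (KK.card : ℝ) ≤ l ^ 3 := by
    rw [hKK, Finset.card_product, Finset.card_product, Finset.card_range, Finset.card_range, Finset.card_range]
    push_cast
    have e1 : (A0 : ℝ) ≤ 1 / δ + 2 := by
      rw [hA0]; push_cast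
      have := Nat.ceil_lt_add_one (show 0 ≤ 1 / δ by positivity); (clear * - this; linarith)
    have e2 : (I0 : ℝ) ≤ 4 * l := by
      rw [hI0]; push_cast
      have := Nat.ceil_lt_add_one (show 0 ≤ 2 * l by positivity); (clear * - hδ hδ' hl this; linarith)
    have e3 : (M0 : ℝ) ≤ (C + 1) * l := by
      rw [hM0]
      have := Nat.ceil_lt_add_one (show 0 ≤ C * l by positivity); (clear * - hδ hδ' hl this; linarith)
    calc (A0 : ℝ) * (I0 * M0) ≤ (1 / δ + 2) * ((4 * l) * ((C + 1) * l)) := by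
          apply mul_le_mul e1 _ (by positivity) (by positivity)
          apply mul_le_mul e2 e3 (by positivity) (by positivity)
      _ = (4 * (1 / δ + 2) * (C + 1)) * l ^ 2 := by ring
      _ ≤ l * l ^ 2 := by
          apply mul_le_mul_of_nonneg_right _ (by positivity)
          have : 0 ≤ (1 / δ + 2) * (C + 1) := by positivity
          (clear * - hδ hδ' hl hx4; linarith)
      _ = l ^ 3 := by ring
  set S : ℕ × (ℕ × ℕ) → ℝ → ℂ := fun κ v => ∑ ρ ∈ F3 with φ ρ = κ, f v ρ with hSdef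
  set BK : ℕ × (ℕ × ℕ) → Finset ℕ := fun κ => (Finset.range J).filter (fun j => 1 / l ^ 4 ≤ ‖S κ (u j)‖) with hBK
  have hcover : (Finset.range J).filter (fun j => 1/2 ≤ ‖∑ ρ ∈ F, f (u j) ρ‖) ⊆ KK.biUnion BK := by
    intro j hj
    rw [Finset.mem_filter, Finset.mem_range] at hj
    obtain ⟨hj1, hj2⟩ := hj
    obtain ⟨hu1, hu2⟩ := hu j hj1
    rw [Finset.mem_biUnion]
    by_contra hcon
    push Not at hcon
    have h1 : ∀ κ ∈ KK, ‖S κ (u j)‖ ≤ 1 / l ^ 4 := by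
      intro κ hκ
      have := hcon κ hκ
      rw [hBK, Finset.mem_filter, Finset.mem_range] at this
      push Not at this
      exact (this hj1).le
    have h2 : ‖∑ ρ ∈ F3, f (u j) ρ‖ ≤ l ^ 3 * (1 / l ^ 4) := by
      rw [← Finset.sum_fiberwise_of_maps_to hmaps]
      refine le_trans (norm_sum_le _ _) ?_
      refine le_trans (Finset.sum_le_sum h1) ?_
      rw [Finset.sum_const, nsmul_eq_mul]
      exact mul_le_mul_of_nonneg_right hKcard (by positivity)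
    have h3 : l ^ 3 * (1 / l ^ 4) = 1 / l := by field_simp
    have h4 : 1 / l ≤ 1/10 := by
      apply one_div_le_one_div_of_le (by norm_num) hl
    rw [hsplit] at hj2
    have h5 := norm_add_le (∑ ρ ∈ F1, f (u j) ρ) (∑ ρ ∈ F2, f (u j) ρ + ∑ ρ ∈ F3, f (u j) ρ)
    have h6 := norm_add_le (∑ ρ ∈ F2, f (u j) ρ) (∑ ρ ∈ F3, f (u j) ρ)
    have h7 := hpart1 (u j) hu1
    have h8 := hpart2 (u j) hu1
    rw [h3] at h2
    (clear * - hδ hδ' hj2 h2 h4 h5 h6 h7 h8; linarith)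
  have hBcard : ∀ κ ∈ KK, ((BK κ).card : ℝ) ≤ X ^ ρ1 := by
    intro κ hκ
    have hinj : Set.InjOn u (BK κ : Set ℕ) := by
      intro j hj j' hj' he
      by_contra hne
      rw [Finset.mem_coe, hBK, Finset.mem_filter, Finset.mem_range] at hj hj'
      have := hus j hj.1 j' hj'.1 hne
      rw [he, sub_self, abs_zero] at this
      have h2 : 0 < 1 / X ^ (τ + 2 * d) := by positivity
      (clear * - this h2; linarith)
    have hcardU : ((BK κ).image u).card = (BK κ).card := Finset.card_image_of_injOn hinj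
    rw [← hcardU]
    rcases Finset.eq_empty_or_nonempty (F3.filter (fun ρ => φ ρ = κ)) with he | ⟨ρ0, hρ0⟩
    · have : BK κ = ∅ := by
        rw [hBK]
        apply Finset.filter_eq_empty_iff.mpr
        intro j hj
        rw [hSdef]
        simp only [he, Finset.sum_empty, norm_zero, not_le]
        positivity
      rw [this]; simp; positivity
    obtain ⟨ka, ki, kc⟩ := κ
    have hρ0' := Finset.mem_filter.mp hρ0
    have hκeq : ∀ ρ ∈ F3.filter (fun ρ => φ ρ = (ka, (ki, kc))), ρ ∈ F3 ∧ a ρ = ka ∧ iF ρ = ki ∧ col ρ = kc := by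
      intro ρ hρ
      have h1 := Finset.mem_filter.mp hρ
      have h2 := h1.2
      simp only [hφ, Prod.mk.injEq] at h2
      exact ⟨h1.1, h2.1, h2.2.1, h2.2.2⟩
    obtain ⟨g1, g2, g3, g4⟩ := hκeq ρ0 hρ0
    obtain ⟨b1, b2, b3, b4, b5, b6, b7⟩ := hF3' ρ0 g1
    obtain ⟨b8, b9⟩ := hax ρ0 g1
    obtain ⟨b10, b11, b12⟩ := hiF ρ0 g1
    rw [g2] at b8 b9 b11 b12
    rw [g3] at b10 b11 b12
    have hε0 := hp.h1
    have hGx := (hG (δ * ka) (by (clear * - b3 b8 hε0; linarith)) (by (clear * - b2 b9; linarith))).1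
    apply hK (δ * ka) (F3.filter (fun ρ => φ ρ = (ka, (ki, kc)))) (fun ρ => (mz ρ : ℂ) * c ρ) (G (δ * ka)) (2 ^ ki)
    refine ⟨by (clear * - b3 b8; linarith), by (clear * - b2 b9; linarith), ?_, ?_, hGx, by push_cast; exact b10, by push_cast; exact b11, ?_, ?_, ?_, ?_, ?_⟩
    · intro ρ hρ
      obtain ⟨e1, e2, e3, e4⟩ := hκeq ρ hρ
      obtain ⟨c1, c2⟩ := hax ρ e1
      rw [e2] at c1 c2
      exact ⟨by (clear * - c1; linarith), by (clear * - c2; linarith), (hF3' ρ e1).2.2.2.2.1⟩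
    · intro ρ hρ ρ' hρ' hne
      obtain ⟨e1, e2, e3, e4⟩ := hκeq ρ hρ
      obtain ⟨e1', e2', e3', e4'⟩ := hκeq ρ' hρ'
      exact hcol2 kc ρ (Finset.mem_filter.mpr ⟨e1, e4⟩) ρ' (Finset.mem_filter.mpr ⟨e1', e4'⟩) hne
    · intro ρ hρ
      obtain ⟨e1, e2, e3, e4⟩ := hκeq ρ hρ
      have := (hiF ρ e1).2.2
      rw [e2, e3] at this
      exact this
    · intro ρ hρ
      obtain ⟨e1, e2, e3, e4⟩ := hκeq ρ hρ
      obtain ⟨d1, d2, d3, d4, d5, d6, d7⟩ := hF3' ρ e1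
      rw [norm_mul, Complex.norm_natCast]
      have h1 := hA ρ.im {ρ} (by
        intro ρ' hρ'
        rw [Finset.mem_singleton] at hρ'
        subst hρ'
        exact ⟨d1, by (clear * - hδ hδ' d2; linarith), by simp⟩)
      rw [Finset.sum_singleton] at h1
      have h2 : Real.log (|ρ.im| + 2) ≤ l := Real.log_le_log (by (clear * -; positivity)) (by (clear * - hx1 hδ hδ' d5; linarith))
      have h3 : (mz ρ : ℝ) ≤ C * l := le_trans h1 (mul_le_mul_of_nonneg_left h2 hC.le)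
      calc (mz ρ : ℝ) * ‖c ρ‖ ≤ (C * l) * 2 := mul_le_mul h3 d7 (norm_nonneg _) (by positivity)
        _ ≤ l ^ 2 := by (clear * - hx5; linarith)
    · intro v hv
      obtain ⟨j, hj, rfl⟩ := Finset.mem_image.mp hv
      rw [hBK, Finset.mem_filter, Finset.mem_range] at hj
      exact hu j hj.1
    · intro v hv v' hv' hne
      obtain ⟨j, hj, rfl⟩ := Finset.mem_image.mp hv
      obtain ⟨j', hj', rfl⟩ := Finset.mem_image.mp hv'
      rw [hBK, Finset.mem_filter, Finset.mem_range] at hj hj'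
      exact hus j hj.1 j' hj'.1 (fun h => hne (by rw [h]))
    · intro v hv
      obtain ⟨j, hj, rfl⟩ := Finset.mem_image.mp hv
      rw [hBK, Finset.mem_filter, Finset.mem_range] at hj
      exact hj.2
  have hfinal : (((Finset.range J).filter (fun j => 1/2 ≤ ‖∑ ρ ∈ F, f (u j) ρ‖)).card : ℝ) ≤
      ∑ κ ∈ KK, ((BK κ).card : ℝ) := by
    have h1 := le_trans (Finset.card_le_card hcover) Finset.card_biUnion_le
    exact_mod_cast h1
  calc (((Finset.range J).filter (fun j => 1/2 ≤ ‖∑ ρ ∈ F, f (u j) ρ‖)).card : ℝ) ≤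
      ∑ κ ∈ KK, ((BK κ).card : ℝ) := hfinal
    _ ≤ ∑ κ ∈ KK, X ^ ρ1 := Finset.sum_le_sum hBcard
    _ = KK.card * X ^ ρ1 := by rw [Finset.sum_const, nsmul_eq_mul]
    _ ≤ l ^ 3 * X ^ ρ1 := mul_le_mul_of_nonneg_right hKcard (by positivity)

/-- the elementary conditions of `main_countG` for large `X` -/
lemma large_XG {C τ ρ1 ε0 δ d A U : ℝ} (hp : ParG τ ε0 δ d) (hC : 0 < C) (hA : A < U) (hρ : ρ1 < U) :
    ∀ᶠ X : ℝ in atTop,
    8 ≤ X ∧ 10 ≤ Real.log X ∧ X ^ (τ + 2 * d) + 4 ≤ X ∧ X ^ (τ + 2 * d) + 1 ≤ X ^ (0.6 : ℝ) ∧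
    240 * C * Real.log X ^ 4 ≤ X ^ ε0 ∧ 8 * (1 / δ + 2) * (C + 1) ≤ Real.log X ∧
    2 * (C * Real.log X) ≤ Real.log X ^ 2 ∧
    X ^ A + Real.log X ^ 3 * X ^ ρ1 ≤ X ^ U := by
  have hδ := hp.dpos
  have hτ1 := hp.h6
  have hτ2 := hp.h7
  have hδ' := hp.dsmall
  have hd4 := hp.h4
  have hd5 := hp.h5
  have hε := hp.h1
  have ev : ∀ B : ℝ, ∀ᶠ X : ℝ in atTop, B ≤ Real.log X := fun B =>
    Real.tendsto_log_atTop.eventually (eventually_ge_atTop B)
  set η := min (U - A) (U - ρ1) with hηdef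
  have hη : 0 < η := lt_min (by (clear * - hA; linarith)) (by (clear * - hρ; linarith))
  have hη1 : η ≤ U - A := min_le_left _ _
  have hη2 : η ≤ U - ρ1 := min_le_right _ _
  filter_upwards [eventually_ge_atTop 8, ev 10, small (Real.log (240 * C)) 4 ε0 hε,
    ev (8 * (1 / δ + 2) * (C + 1)), ev (2 * C), small 0 3 (η/2) (by (clear * - hA hρ; positivity)), ev (2 / η)] with X h8 hl h3 h4 h5 h6 h7
  have hX : 0 < X := by (clear * - hδ hδ' h8; linarith)
  have hl0 : 0 < Real.log X := by (clear * - hδ hδ' hl; linarith)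
  set l := Real.log X with hldef
  have e1 : X ^ (τ + 2 * d) ≤ X ^ (0.51 : ℝ) := Real.rpow_le_rpow_of_exponent_le (by (clear * - hδ hδ' h8; linarith)) (by (clear * - hδ hτ2 hδ' hd5; linarith))
  have e2 : (2:ℝ) ≤ X ^ (0.09 : ℝ) := by
    rw [← Real.log_le_log_iff (by norm_num) (by positivity), Real.log_rpow hX]
    have := Real.log_two_lt_d9; (clear * - hδ hδ' hl this; linarith)
  have e3 : (4:ℝ) ≤ X ^ (0.51 : ℝ) := by
    rw [← Real.log_le_log_iff (by norm_num) (by positivity), Real.log_rpow hX]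
    have := Real.log_two_lt_d9
    have h44 : Real.log 4 = 2 * Real.log 2 := by
      rw [show (4:ℝ) = 2 ^ 2 by norm_num, Real.log_pow]; norm_num
    rw [h44]; (clear * - hδ hδ' hl this; linarith)
  have e4 : X ^ (0.6 : ℝ) = X ^ (0.51 : ℝ) * X ^ (0.09 : ℝ) := by
    rw [← Real.rpow_add hX]; norm_num
  have e5 : X ^ (τ + 2 * d) + 4 ≤ X ^ (0.6 : ℝ) := by
    rw [e4]; (clear * - e1 e2 e3 hδ hδ'; nlinarith)
  have e6 : X ^ (0.6 : ℝ) ≤ X := by
    calc X ^ (0.6 : ℝ) ≤ X ^ (1 : ℝ) := Real.rpow_le_rpow_of_exponent_le (by (clear * - hδ hδ' h8; linarith)) (by norm_num)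
      _ = X := Real.rpow_one _
  refine ⟨h8, hl, by (clear * - e5 e6; linarith), by (clear * - hδ hδ' e5; linarith), ?_, h4, ?_, ?_⟩
  · rw [← Real.log_le_log_iff (by positivity) (by positivity), Real.log_mul (by positivity) (by positivity),
      Real.log_pow, Real.log_rpow hX]
    simpa using h3
  · (clear * - h5 hδ hδ' hl; nlinarith)
  · have f1 : l ^ 3 ≤ X ^ (η / 2) := by
      rw [← Real.log_le_log_iff (by positivity) (by positivity), Real.log_pow, Real.log_rpow hX]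
      simpa using h6
    have f2 : l ^ 3 * X ^ ρ1 ≤ X ^ (U - η / 2) := by
      calc l ^ 3 * X ^ ρ1 ≤ X ^ (η / 2) * X ^ ρ1 :=
            mul_le_mul_of_nonneg_right f1 (by positivity)
        _ = X ^ (η / 2 + ρ1) := by rw [← Real.rpow_add hX]
        _ ≤ X ^ (U - η / 2) := Real.rpow_le_rpow_of_exponent_le (by (clear * - hδ hδ' h8; linarith)) (by (clear * - hη2; linarith))
    have f3 : X ^ A ≤ X ^ (U - η / 2) := Real.rpow_le_rpow_of_exponent_le (by (clear * - hδ hδ' h8; linarith)) (by (clear * - hA hη1; linarith))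
    have f4 : (2:ℝ) ≤ X ^ (η / 2) := by
      rw [← Real.log_le_log_iff (by norm_num) (by positivity), Real.log_rpow hX]
      have h22 := Real.log_two_lt_d9
      have h23 : 1 ≤ η / 2 * l := by
        rw [div_le_iff₀ hη] at h7; (clear * - h7; linarith)
      (clear * - hδ hδ' h22 h23; linarith)
    have f5 : X ^ U = X ^ (U - η / 2) * X ^ (η / 2) := by
      rw [← Real.rpow_add hX]; congr 1; ring
    have f6 : 0 < X ^ (U - η / 2) := by positivity
    rw [f5]; (clear * - f2 f3 hδ hδ' f4 f6; nlinarith)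

/-- the counting theorem for cells of length `2^⌊k(1/2+w-d)⌋` -/
theorem countW {w U κ ρ0 : ℝ} (hw0 : 0 ≤ w) (hw1 : w ≤ 1/4) (hκ : κ * (1/2 - w) = 1) (hU1 : 0.21 - 2 * w < U)
    (hU2 : (1/2 - w) * ρ0 < U) (hB : BadZeroG w) (hN : ThmN) (hA : A9i) (hD : DetectG)
    (hCB : ClassBoundG (1/2 - w) ρ0) (hS : SplitSpaced) : CountW w U := by
  obtain ⟨ε0, X1, e1, e2, hN⟩ := hN
  obtain ⟨C, hC, hA⟩ := hA
  set τ := 1/2 - w with hτdef
  set δ := ε0 / 10 ^ 8 with hδdef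
  refine ⟨min δ ((U - (0.21 - 2 * w)) / 10), lt_min (by positivity) (by (clear * - hU1; linarith)), fun d hd hd0 => ?_⟩
  have hd1 : d ≤ δ := le_trans hd0 (min_le_left _ _)
  have hd2 : d ≤ (U - (0.21 - 2 * w)) / 10 := le_trans hd0 (min_le_right _ _)
  have hτ1 : 1/4 ≤ τ := by (clear * - hw1 hτdef; linarith)
  have hτ2 : τ ≤ 1/2 := by (clear * - hw0 hτdef; linarith)
  have hp : ParG τ ε0 δ d := ⟨e1, e2, hδdef, hd, hd1, hτ1, hτ2⟩
  have hδ := hp.dpos
  have hδ' := hp.dsmall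
  obtain ⟨c0, hc0, K1, hB⟩ := hB d hd (by (clear * - e1 e2 hδdef hd1; linarith))
  obtain ⟨X2, hD⟩ := hD τ δ d hτ1 hτ2 hδ (by (clear * - e2 hδdef hd hd1; linarith)) hd hd1
  obtain ⟨X3, hCB⟩ := hCB ε0 δ d e1 e2 hδdef hd hd1
  refine ⟨c0, hc0, ?_⟩
  have hev : ∀ᶠ X : ℝ in atTop, (X1 ≤ X ∧ X2 ≤ X ∧ X3 ≤ X) ∧
      (8 ≤ X ∧ 10 ≤ Real.log X ∧ X ^ (τ + 2 * d) + 4 ≤ X ∧ X ^ (τ + 2 * d) + 1 ≤ X ^ (0.6 : ℝ) ∧
      240 * C * Real.log X ^ 4 ≤ X ^ ε0 ∧ 8 * (1 / δ + 2) * (C + 1) ≤ Real.log X ∧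
      2 * (C * Real.log X) ≤ Real.log X ^ 2 ∧
      X ^ (0.21 - 2 * w + 5 * d) + Real.log X ^ 3 * X ^ (τ * ρ0) ≤ X ^ U) := by
    filter_upwards [eventually_ge_atTop X1, eventually_ge_atTop X2, eventually_ge_atTop X3,
      large_XG hp hC (show 0.21 - 2 * w + 5 * d < U by (clear * - hd hd2; linarith)) hU2]
      with X a b c h using ⟨⟨a, b, c⟩, h⟩
  have hev2 : ∀ᶠ k : ℕ in atTop, K1 ≤ k ∧ ((X1 ≤ (2:ℝ) ^ k ∧ X2 ≤ (2:ℝ) ^ k ∧ X3 ≤ (2:ℝ) ^ k) ∧
      (8 ≤ (2:ℝ) ^ k ∧ 10 ≤ Real.log ((2:ℝ) ^ k) ∧ ((2:ℝ) ^ k) ^ (τ + 2 * d) + 4 ≤ (2:ℝ) ^ k ∧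
      ((2:ℝ) ^ k) ^ (τ + 2 * d) + 1 ≤ ((2:ℝ) ^ k) ^ (0.6 : ℝ) ∧
      240 * C * Real.log ((2:ℝ) ^ k) ^ 4 ≤ ((2:ℝ) ^ k) ^ ε0 ∧ 8 * (1 / δ + 2) * (C + 1) ≤ Real.log ((2:ℝ) ^ k) ∧
      2 * (C * Real.log ((2:ℝ) ^ k)) ≤ Real.log ((2:ℝ) ^ k) ^ 2 ∧
      ((2:ℝ) ^ k) ^ (0.21 - 2 * w + 5 * d) + Real.log ((2:ℝ) ^ k) ^ 3 * ((2:ℝ) ^ k) ^ (τ * ρ0) ≤
        ((2:ℝ) ^ k) ^ U)) :=
    (eventually_ge_atTop K1).and ((tendsto_pow_atTop_atTop_of_one_lt (by norm_num : (1:ℝ) < 2)).eventually hev)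
  obtain ⟨K, hK⟩ := eventually_atTop.mp hev2
  refine ⟨K, fun k hk => ?_⟩
  obtain ⟨hk1, ⟨hX1, hX2, hX3⟩, h8, hl, g1, g2, g3, g4, g5, g6⟩ := hK k hk
  obtain ⟨F, c, u, Exc, b1, b2, b3, b4, b5, b6⟩ := hB k hk1
  have hmain := main_countG hp hC h8 hl hA (fun F hF => hN _ hX1 F hF) (fun x hx0 hx1 => hD _ x hX2 hx0 hx1)
    (fun x Z c g N U h => hCB _ x Z c g N U hX3 h.hx0 h.hx1 h.hs h.hsp h.hg h.hN0 h.hN1 h.hD h.hc h.hU h.hUs h.hS)
    hS g1 g2 g3 g4 g5 F c u (2 ^ (k - ecw w d k)) b1 b2 b3 b4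
  set Bd := (Finset.range (2 ^ (k - ecw w d k))).filter (fun j => (npr k (ecw w d k) j : ℝ) < c0 * 2 ^ ecw w d k / k)
    with hBd
  set Lg := (Finset.range (2 ^ (k - ecw w d k))).filter (fun j => 1/2 ≤ ‖∑ ρ ∈ F, (mz ρ : ℂ) * c ρ *
      Complex.exp ((ρ - 1) * (u j : ℂ))‖) with hLg
  have hsub : Bd ⊆ Exc ∪ Lg := by
    intro j hj
    rw [hBd, Finset.mem_filter, Finset.mem_range] at hj
    rw [Finset.mem_union]
    by_cases hE : j ∈ Exc
    · exact Or.inl hE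
    · right
      rw [hLg, Finset.mem_filter, Finset.mem_range]
      exact ⟨hj.1, b6 j hj.1 hE hj.2⟩
  have hcard : (Bd.card : ℝ) ≤ Exc.card + Lg.card := by
    exact_mod_cast le_trans (Finset.card_le_card hsub) (Finset.card_union_le _ _)
  have hpow : (2:ℝ) ^ (U * (k:ℝ)) = ((2:ℝ) ^ k) ^ U := by
    rw [← Real.rpow_natCast, ← Real.rpow_mul (by norm_num)]
    ring_nf
  rw [hpow]
  (clear * - g6 b5 hmain hcard; linarith)

end Pool.Agent.M17.Helper60.KC
end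

/- Helper53.KN.Helper73.KC.LSum -/
section
/-! KC-8, part 3: mean values of exponential sums over zeros at well spaced real points, and the decomposition of
pairs `(n, n')` according to their reduced fraction. -/

set_option autoImplicit false
open MeasureTheory Complex

namespace Pool.Agent.M17.Helper73.KC

open Pool.Agent.M17.Helper60.KS (Spaced1 InStrip EZ)

/-- large sieve at well spaced real points -/
theorem lsum (h13 : Pool.Agent.M17.Helper10.KSZ.A13) : ∃ C : ℝ, 0 < C ∧ ∀ (ι : Type) (S : Finset ι)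
    (ω : ι → ℝ) (Y : Finset ℝ) (L Ω δ : ℝ), 1 ≤ L → 1 ≤ Ω → 0 < δ → (∀ j ∈ S, |ω j| ≤ Ω) →
    (∀ y ∈ Y, |y| ≤ L) → (∀ y ∈ Y, ∀ y' ∈ Y, y ≠ y' → δ ≤ |y - y'|) →
    ∑ y ∈ Y, ‖∑ j ∈ S, cexp (I * ω j * y)‖ ^ 2 ≤
      C * L * (Ω + 1 / δ) * (((S ×ˢ S).filter (fun p => |ω p.1 - ω p.2| ≤ 1)).card : ℝ) := by
  classical
  obtain ⟨C, hC, h⟩ := h13
  refine ⟨6 * C * Real.exp 2, by (clear * - hC; positivity), fun ι S ω Y L Ω δ hL hΩ hδ hω hY hsp => ?_⟩
  set r : ℝ := 1 / (Ω + 3 / δ) with hr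
  have hden : 0 < Ω + 3 / δ := by (clear * - hΩ hδ; positivity)
  have hr0 : 0 < r := by rw [hr]; positivity
  have hr1 : r * Ω ≤ 1 := by
    rw [hr, one_div, inv_mul_le_iff₀ hden]
    have : 0 < 3 / δ := by positivity
    (clear * - this; linarith)
  have hr1' : r ≤ 1 := by (clear * - hr1 hΩ hr0; nlinarith)
  have hr2 : 2 * r < δ := by
    have h1 : r < 1 / (3 / δ) := by
      rw [hr]
      exact one_div_lt_one_div_of_lt (by positivity) (by (clear * - hΩ; linarith))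
    rw [one_div_div] at h1
    (clear * - hr0 h1; linarith)
  set N : ℝ := (((S ×ˢ S).filter (fun p => |ω p.1 - ω p.2| ≤ 1)).card : ℝ) with hN
  have h1 := h ι S (fun _ => 1) ω (Y.image (fun y : ℝ => I * (y : ℂ))) r 0 0 L (Real.exp 2 * N) hr0 hr1'
    le_rfl hL ?_ ?_ ?_
  · have hinj : Set.InjOn (fun y : ℝ => I * (y : ℂ)) (Y : Set ℝ) := by
      intro x _ y _ hxy
      have := mul_left_cancel₀ Complex.I_ne_zero hxy
      exact_mod_cast this
    rw [Finset.sum_image hinj] at h1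
    have h2 : ∀ y : ℝ, ‖∑ j ∈ S, (1 : ℂ) * cexp ((ω j : ℂ) * (I * (y : ℂ)))‖ ^ 2 =
        ‖∑ j ∈ S, cexp (I * ω j * y)‖ ^ 2 := by
      intro y
      congr 2
      refine Finset.sum_congr rfl fun j _ => ?_
      rw [one_mul]
      congr 1
      ring
    simp only [h2] at h1
    refine h1.trans ?_
    have h3 : (0 - 0 + 2 * r) / r ^ 2 = 2 / r := by
      field_simp
      ring
    rw [h3]
    have h4 : 2 / r = 2 * (Ω + 3 / δ) := by
      rw [hr]
      field_simp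
    rw [h4]
    have h5 : 2 * (Ω + 3 / δ) ≤ 6 * (Ω + 1 / δ) := by
      have : 3 / δ = 3 * (1 / δ) := by ring
      rw [this]
      have : 0 < 1 / δ := by positivity
      (clear * - hΩ; linarith)
    have hN0 : 0 ≤ N := by (clear * -; positivity)
    calc C * (2 * (Ω + 3 / δ)) * L * (Real.exp 2 * N) ≤ C * (6 * (Ω + 1 / δ)) * L * (Real.exp 2 * N) := by
          have hL0 : 0 ≤ L := by (clear * - hL; linarith)
          (clear * - h5 hC hL; gcongr)
      _ = _ := by ring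
  · intro z hz w hw hzw
    obtain ⟨x, hx, rfl⟩ := Finset.mem_image.1 hz
    obtain ⟨y, hy, rfl⟩ := Finset.mem_image.1 hw
    have hxy : x ≠ y := by
      rintro rfl
      exact hzw rfl
    have h3 := hsp x hx y hy hxy
    rw [Complex.dist_eq, ← mul_sub, norm_mul, Complex.norm_I, one_mul, ← Complex.ofReal_sub,
      Complex.norm_real, Real.norm_eq_abs]
    linarith
  · intro z hz
    obtain ⟨x, hx, rfl⟩ := Finset.mem_image.1 hz
    have := hY x hx
    simp [this]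
  · intro σ hs1 hs2
    have hs : |σ| ≤ r := by
      rw [abs_le]
      constructor <;> linarith
    have h3 : ∀ j ∈ S, ∀ k ∈ S, (if |ω j - ω k| ≤ 1 / L then
        ‖(1 : ℂ)‖ * ‖(1 : ℂ)‖ * Real.exp (σ * (ω j + ω k)) else 0) ≤
        Real.exp 2 * (if |ω j - ω k| ≤ 1 then 1 else 0) := by
      intro j hj k hk
      by_cases hjk : |ω j - ω k| ≤ 1 / L
      · have hjk' : |ω j - ω k| ≤ 1 := hjk.trans (by
          rw [div_le_one (by (clear * - hL; linarith))]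
          exact hL)
        rw [if_pos hjk, if_pos hjk', norm_one, one_mul, one_mul, mul_one, Real.exp_le_exp]
        have h4 : |ω j + ω k| ≤ 2 * Ω := by
          refine (abs_add_le _ _).trans ?_
          (clear * - hω hj hk; linarith [hω j hj, hω k hk])
        calc σ * (ω j + ω k) ≤ |σ * (ω j + ω k)| := le_abs_self _
          _ = |σ| * |ω j + ω k| := abs_mul _ _
          _ ≤ r * (2 * Ω) := mul_le_mul hs h4 (abs_nonneg _) hr0.le
          _ ≤ 2 := by (clear * - hr1; nlinarith)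
      · rw [if_neg hjk]
        have := Real.exp_pos 2
        split_ifs <;> simp [this.le]
    calc ∑ j ∈ S, ∑ k ∈ S, (if |ω j - ω k| ≤ 1 / L then
        ‖(1 : ℂ)‖ * ‖(1 : ℂ)‖ * Real.exp (σ * (ω j + ω k)) else 0) ≤
        ∑ j ∈ S, ∑ k ∈ S, Real.exp 2 * (if |ω j - ω k| ≤ 1 then 1 else 0) :=
          Finset.sum_le_sum fun j hj => Finset.sum_le_sum fun k hk => h3 j hj k hk
      _ = Real.exp 2 * N := by
          simp only [← Finset.mul_sum]
          congr 1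
          rw [hN, Finset.card_filter]
          push_cast
          rw [Finset.sum_product]

/-- a spaced set has at most three points at distance at most one from a given one -/
lemma near_card {Z : Finset ℂ} (hsp : Spaced1 Z) (x : ℝ) :
    (Z.filter (fun ρ => |x - ρ.im| ≤ 1)).card ≤ 3 := by
  classical
  have h1 : (Z.filter (fun ρ => |x - ρ.im| ≤ 1)).card ≤ (Finset.Icc (⌊x⌋ - 1) (⌊x⌋ + 1)).card := by
    refine Finset.card_le_card_of_injOn (fun ρ => ⌊ρ.im⌋) ?_ ?_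
    · intro ρ hρ
      have h2 := (Finset.mem_filter.1 (by exact_mod_cast hρ)).2
      rw [abs_le] at h2
      simp only [Finset.coe_Icc, Set.mem_Icc]
      constructor
      · rw [Int.le_floor]
        push_cast
        (clear * - h2; linarith [Int.floor_le x, h2.2])
      · have h3 : ⌊ρ.im⌋ ≤ ⌊x + 1⌋ := Int.floor_le_floor (by (clear * - h2; linarith [h2.1]))
        simpa using h3
    · intro ρ hρ ρ' hρ' heq
      by_contra hne
      have h2 := (Finset.mem_filter.1 (by exact_mod_cast hρ)).1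
      have h3 := (Finset.mem_filter.1 (by exact_mod_cast hρ')).1
      have h4 := hsp ρ h2 ρ' h3 hne
      have h5 := Int.abs_sub_lt_one_of_floor_eq_floor heq
      linarith
  refine h1.trans (le_of_eq ?_)
  rw [Int.card_Icc]
  have : ⌊x⌋ + 1 + 1 - (⌊x⌋ - 1) = 3 := by ring
  rw [this]
  rfl

lemma pair_card {Z : Finset ℂ} (hsp : Spaced1 Z) :
    ((Z ×ˢ Z).filter (fun p => |p.1.im - p.2.im| ≤ 1)).card ≤ 3 * Z.card := by
  classical
  rw [Finset.card_filter, Finset.sum_product]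
  calc ∑ x ∈ Z, ∑ y ∈ Z, (if |x.im - y.im| ≤ 1 then 1 else 0) ≤ ∑ x ∈ Z, 3 := by
        refine Finset.sum_le_sum fun x _ => ?_
        rw [← Finset.card_filter]
        exact near_card hsp x.im
    _ = 3 * Z.card := by simp [mul_comm]

/-- the sum over the heights -/
noncomputable def WW (Z : Finset ℂ) (y : ℝ) : ℂ := ∑ ρ ∈ Z, cexp (I * (ρ.im : ℝ) * y)

lemma norm_WW_le (Z : Finset ℂ) (y : ℝ) : ‖WW Z y‖ ≤ Z.card := by
  unfold WW
  refine (norm_sum_le _ _).trans ?_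
  have : ∀ ρ ∈ Z, ‖cexp (I * (ρ.im : ℝ) * y)‖ = 1 := by
    intro ρ _
    rw [Complex.norm_exp]
    simp
  rw [Finset.sum_congr rfl this]
  simp

lemma WW_sq (Z : Finset ℂ) (y : ℝ) : WW Z y ^ 2 =
    ∑ p ∈ Z ×ˢ Z, cexp (I * ((p.1.im + p.2.im : ℝ) : ℂ) * y) := by
  unfold WW
  rw [sq, Finset.sum_mul_sum, Finset.sum_product]
  refine Finset.sum_congr rfl fun x _ => Finset.sum_congr rfl fun z _ => ?_
  rw [← Complex.exp_add]
  congr 1
  push_cast
  ring

/-- second and fourth moments, the main estimate at one scale -/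
theorem third_moment (h13 : Pool.Agent.M17.Helper10.KSZ.A13) : ∃ C : ℝ, 0 < C ∧ ∀ (Z : Finset ℂ)
    (Y : Finset ℝ) (L T : ℝ) (i : ℕ), 1 ≤ L → 1 ≤ T → (∀ ρ ∈ Z, |ρ.im| ≤ T) → Spaced1 Z →
    (∀ y ∈ Y, |y| ≤ L) → (∀ y ∈ Y, ∀ y' ∈ Y, y ≠ y' → 1 / (4 * 4 ^ i : ℝ) ≤ |y - y'|) →
    (Y.card : ℝ) ≤ 4 * 4 ^ i →
    ∑ y ∈ Y, ‖WW Z y‖ ^ 3 ≤ C * L * (4 ^ i * Real.sqrt (Z.card * EZ Z) +
      2 ^ i * Z.card * Real.sqrt (T * EZ Z)) := by
  classical
  obtain ⟨C, hC, h⟩ := lsum h13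
  refine ⟨24 * (1 + C), by positivity, fun Z Y L T i hL hT hZ hsp hYL hYs hYc => ?_⟩
  set n : ℝ := (Z.card : ℝ) with hn
  set E : ℝ := (EZ Z : ℝ) with hE
  have hn0 : 0 ≤ n := by (clear * -; positivity)
  have hE0 : 0 ≤ E := by positivity
  have hL0 : 0 ≤ L := by linarith
  set A : ℝ := (4 : ℝ) ^ i with hA
  have hA1 : 1 ≤ A := one_le_pow₀ (by norm_num)
  have hδ : (0 : ℝ) < 1 / (4 * A) := by positivity
  -- second moment
  have hS2 : ∑ y ∈ Y, ‖WW Z y‖ ^ 2 ≤ C * L * (T + 4 * A) * (3 * n) := by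
    have h1 := h ℂ Z (fun ρ => ρ.im) Y L T (1 / (4 * A)) hL hT hδ hZ hYL hYs
    rw [one_div_one_div] at h1
    refine h1.trans ?_
    refine mul_le_mul_of_nonneg_left ?_ (by positivity)
    rw [hn]
    exact_mod_cast pair_card hsp
  have hS2' : ∑ y ∈ Y, ‖WW Z y‖ ^ 2 ≤ 4 * A * n ^ 2 := by
    calc ∑ y ∈ Y, ‖WW Z y‖ ^ 2 ≤ ∑ y ∈ Y, n ^ 2 :=
          Finset.sum_le_sum fun y _ => pow_le_pow_left₀ (norm_nonneg _) (norm_WW_le Z y) 2
      _ = Y.card * n ^ 2 := by rw [Finset.sum_const, nsmul_eq_mul]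
      _ ≤ 4 * A * n ^ 2 := mul_le_mul_of_nonneg_right hYc (by (clear * -; positivity))
  -- fourth moment
  have hS4 : ∑ y ∈ Y, (‖WW Z y‖ ^ 2) ^ 2 ≤ C * L * (2 * T + 4 * A) * E := by
    have h1 := h (ℂ × ℂ) (Z ×ˢ Z) (fun p => p.1.im + p.2.im) Y L (2 * T) (1 / (4 * A)) hL
      (by linarith) hδ ?_ hYL hYs
    · rw [one_div_one_div] at h1
      have h2 : ∀ y : ℝ, ‖∑ j ∈ Z ×ˢ Z, cexp (I * ((j.1.im + j.2.im : ℝ) : ℂ) * y)‖ ^ 2 =
          (‖WW Z y‖ ^ 2) ^ 2 := by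
        intro y
        rw [← WW_sq, norm_pow]
      simp only [h2] at h1
      refine h1.trans (le_of_eq ?_)
      congr 1
      rw [hE, EZ]
      congr 2
      refine Finset.filter_congr fun p _ => ?_
      rw [show p.1.1.im + p.1.2.im - (p.2.1.im + p.2.2.im) =
        p.1.1.im + p.1.2.im - p.2.1.im - p.2.2.im by ring]
    · intro p hp
      rw [Finset.mem_product] at hp
      refine (abs_add_le _ _).trans ?_
      (clear * - hZ hp; linarith [hZ _ hp.1, hZ _ hp.2])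
  -- Cauchy-Schwarz
  have hCS : (∑ y ∈ Y, ‖WW Z y‖ ^ 3) ^ 2 ≤ (∑ y ∈ Y, ‖WW Z y‖ ^ 2) * ∑ y ∈ Y, (‖WW Z y‖ ^ 2) ^ 2 := by
    have h1 := Finset.sum_mul_sq_le_sq_mul_sq Y (fun y => ‖WW Z y‖) (fun y => ‖WW Z y‖ ^ 2)
    refine le_trans (le_of_eq ?_) h1
    congr 1
    refine Finset.sum_congr rfl fun y _ => ?_
    ring
  have hS4n : 0 ≤ ∑ y ∈ Y, (‖WW Z y‖ ^ 2) ^ 2 := Finset.sum_nonneg fun y _ => by (clear * -; positivity)
  have hS2n : 0 ≤ ∑ y ∈ Y, ‖WW Z y‖ ^ 2 := Finset.sum_nonneg fun y _ => by (clear * -; positivity)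
  have hpow : (2 : ℝ) ^ i * 2 ^ i = A := by
    rw [hA, ← mul_pow]; norm_num
  have hpos2 : (0 : ℝ) < 2 ^ i := by positivity
  have hterm1 : 0 ≤ A * Real.sqrt (n * E) := by (clear * -; positivity)
  have hterm2 : 0 ≤ 2 ^ i * n * Real.sqrt (T * E) := by (clear * -; positivity)
  have hK0 : 0 ≤ 24 * (1 + C) * L := by positivity
  by_cases hTA : T ≤ A
  · -- large scale
    have h1 : (∑ y ∈ Y, ‖WW Z y‖ ^ 3) ^ 2 ≤ (24 * (1 + C) * L * (A * Real.sqrt (n * E))) ^ 2 := by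
      refine hCS.trans ?_
      calc (∑ y ∈ Y, ‖WW Z y‖ ^ 2) * ∑ y ∈ Y, (‖WW Z y‖ ^ 2) ^ 2 ≤
          (C * L * (5 * A) * (3 * n)) * (C * L * (6 * A) * E) := by
            refine mul_le_mul (hS2.trans ?_) (hS4.trans ?_) hS4n (by (clear * - hC hL; positivity))
            · gcongr
              (clear * - hTA; linarith)
            · gcongr
              (clear * - hTA; linarith)
        _ = (C ^ 2 * 90) * (L ^ 2 * A ^ 2 * (n * E)) := by ring
        _ ≤ (576 * (1 + C) ^ 2) * (L ^ 2 * A ^ 2 * (n * E)) := by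
            refine mul_le_mul_of_nonneg_right ?_ (by (clear * - hL; positivity))
            (clear * - hC; nlinarith)
        _ = (24 * (1 + C) * L * (A * Real.sqrt (n * E))) ^ 2 := by
            rw [mul_pow, mul_pow, mul_pow A, Real.sq_sqrt (by (clear * -; positivity))]
            ring
    have h2 := abs_le_of_sq_le_sq h1 (by (clear * - hC hL; positivity))
    refine (le_abs_self _).trans (h2.trans ?_)
    refine mul_le_mul_of_nonneg_left ?_ hK0
    (clear * - hterm2; linarith)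
  · push Not at hTA
    have h1 : (∑ y ∈ Y, ‖WW Z y‖ ^ 3) ^ 2 ≤ (24 * (1 + C) * L * (2 ^ i * n * Real.sqrt (T * E))) ^ 2 := by
      refine hCS.trans ?_
      calc (∑ y ∈ Y, ‖WW Z y‖ ^ 2) * ∑ y ∈ Y, (‖WW Z y‖ ^ 2) ^ 2 ≤
          (4 * A * n ^ 2) * (C * L * (6 * T) * E) := by
            refine mul_le_mul hS2' (hS4.trans ?_) hS4n (by (clear * -; positivity))
            gcongr
            linarith
        _ = (24 * C * L) * (A * n ^ 2 * (T * E)) := by ring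
        _ ≤ (24 * (1 + C) * L) ^ 2 * (A * n ^ 2 * (T * E)) := by
            refine mul_le_mul_of_nonneg_right ?_ (by (clear * - hT; positivity))
            have h3 : 1 ≤ 24 * (1 + C) * L := by (clear * - hC hL; nlinarith)
            have h4 : 24 * C * L ≤ 24 * (1 + C) * L := by (clear * - hL; nlinarith)
            (clear * - hL hK0 h3; nlinarith)
        _ = (24 * (1 + C) * L * (2 ^ i * n * Real.sqrt (T * E))) ^ 2 := by
            have hs : Real.sqrt (T * E) ^ 2 = T * E := Real.sq_sqrt (by positivity)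
            have h5 : (24 * (1 + C) * L * (2 ^ i * n * Real.sqrt (T * E))) ^ 2 =
                (24 * (1 + C) * L) ^ 2 * (((2 : ℝ) ^ i * 2 ^ i) * n ^ 2 * Real.sqrt (T * E) ^ 2) := by
              ring
            rw [h5, hs, hpow]
    have h2 := abs_le_of_sq_le_sq h1 (by (clear * - hC hL; positivity))
    refine (le_abs_self _).trans (h2.trans ?_)
    refine mul_le_mul_of_nonneg_left ?_ hK0
    (clear * - hterm1; linarith)

end Pool.Agent.M17.Helper73.KC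
end

/- Helper53.KN.Helper73.KC.Pairs -/
section
/-! KC-8, part 4: decomposition of pairs `(n, n')` according to their reduced fraction. -/

set_option autoImplicit false
open MeasureTheory Complex

namespace Pool.Agent.M17.Helper73.KC

open Pool.Agent.M17.Helper60.KS (Spaced1 InStrip EZ)

/-- coprime pairs at scale `i` -/
def PP (N h i : ℕ) : Finset (ℕ × ℕ) :=
  ((Finset.Icc 1 N) ×ˢ (Finset.Icc 1 N)).filter (fun p => Nat.Coprime p.1 p.2 ∧
    p.1 ≤ h * p.2 ∧ p.2 ≤ h * p.1 ∧ Nat.log 2 (max p.1 p.2) = i)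

/-- all coprime pairs -/
def PA (N h : ℕ) : Finset (ℕ × ℕ) :=
  ((Finset.Icc 1 N) ×ˢ (Finset.Icc 1 N)).filter (fun p => Nat.Coprime p.1 p.2 ∧
    p.1 ≤ h * p.2 ∧ p.2 ≤ h * p.1)

def red (x : ℕ × ℕ) : ℕ × ℕ := (x.1 / Nat.gcd x.1 x.2, x.2 / Nat.gcd x.1 x.2)

lemma red_mem {Q h : ℕ} {x : ℕ × ℕ}
    (hx : x ∈ Finset.Ioc Q (h * Q) ×ˢ Finset.Ioc Q (h * Q)) : red x ∈ PA (h * Q) h := by
  rw [Finset.mem_product, Finset.mem_Ioc, Finset.mem_Ioc] at hx
  obtain ⟨⟨h1, h2⟩, h3, h4⟩ := hx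
  have hx1 : 0 < x.1 := by omega
  have hx2 : 0 < x.2 := by omega
  have hg : 0 < Nat.gcd x.1 x.2 := Nat.gcd_pos_of_pos_left _ hx1
  have e1 : Nat.gcd x.1 x.2 * (x.1 / Nat.gcd x.1 x.2) = x.1 := Nat.mul_div_cancel' (Nat.gcd_dvd_left _ _)
  have e2 : Nat.gcd x.1 x.2 * (x.2 / Nat.gcd x.1 x.2) = x.2 := Nat.mul_div_cancel' (Nat.gcd_dvd_right _ _)
  unfold PA red
  rw [Finset.mem_filter, Finset.mem_product, Finset.mem_Icc, Finset.mem_Icc]
  refine ⟨⟨⟨?_, ?_⟩, ?_, ?_⟩, ?_, ?_, ?_⟩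
  · exact Nat.div_pos (Nat.le_of_dvd hx1 (Nat.gcd_dvd_left _ _)) hg
  · exact (Nat.div_le_self _ _).trans h2
  · exact Nat.div_pos (Nat.le_of_dvd hx2 (Nat.gcd_dvd_right _ _)) hg
  · exact (Nat.div_le_self _ _).trans h4
  · exact Nat.coprime_div_gcd_div_gcd hg
  · refine Nat.le_of_mul_le_mul_left ?_ hg
    calc Nat.gcd x.1 x.2 * (x.1 / Nat.gcd x.1 x.2) = x.1 := e1
      _ ≤ h * Q := h2
      _ ≤ h * x.2 := Nat.mul_le_mul_left _ h3.le
      _ = h * (Nat.gcd x.1 x.2 * (x.2 / Nat.gcd x.1 x.2)) := by rw [e2]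
      _ = _ := by ring
  · refine Nat.le_of_mul_le_mul_left ?_ hg
    calc Nat.gcd x.1 x.2 * (x.2 / Nat.gcd x.1 x.2) = x.2 := e2
      _ ≤ h * Q := h4
      _ ≤ h * x.1 := Nat.mul_le_mul_left _ h1.le
      _ = h * (Nat.gcd x.1 x.2 * (x.1 / Nat.gcd x.1 x.2)) := by rw [e1]
      _ = _ := by ring

lemma fiber_card (Q h : ℕ) (p : ℕ × ℕ) (hp : p ∈ PA (h * Q) h) :
    (((Finset.Ioc Q (h * Q) ×ˢ Finset.Ioc Q (h * Q)).filter (fun x => red x = p)).card : ℝ) ≤
      ((h * Q : ℕ) : ℝ) / ((max p.1 p.2 : ℕ) : ℝ) := by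
  have hp1 : 1 ≤ p.1 := by
    have := (Finset.mem_filter.1 hp).1
    rw [Finset.mem_product, Finset.mem_Icc, Finset.mem_Icc] at this
    exact this.1.1
  have h1 : ((Finset.Ioc Q (h * Q) ×ˢ Finset.Ioc Q (h * Q)).filter (fun x => red x = p)).card ≤
      (Finset.Icc 1 (h * Q / max p.1 p.2)).card := by
    have key : ∀ x ∈ (Finset.Ioc Q (h * Q) ×ˢ Finset.Ioc Q (h * Q)).filter (fun x => red x = p),
        0 < Nat.gcd x.1 x.2 ∧ x.1 = Nat.gcd x.1 x.2 * p.1 ∧ x.2 = Nat.gcd x.1 x.2 * p.2 ∧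
        x.1 ≤ h * Q ∧ x.2 ≤ h * Q := by
      intro x hx
      rw [Finset.mem_filter, Finset.mem_product, Finset.mem_Ioc, Finset.mem_Ioc] at hx
      obtain ⟨⟨⟨h1, h2⟩, h3, h4⟩, h5⟩ := hx
      have hx1 : 0 < x.1 := by omega
      refine ⟨Nat.gcd_pos_of_pos_left _ hx1, ?_, ?_, h2, h4⟩
      · rw [← h5]
        exact (Nat.mul_div_cancel' (Nat.gcd_dvd_left _ _)).symm
      · rw [← h5]
        exact (Nat.mul_div_cancel' (Nat.gcd_dvd_right _ _)).symm
    refine Finset.card_le_card_of_injOn (fun x => Nat.gcd x.1 x.2) ?_ ?_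
    · intro x hx
      obtain ⟨h2, h3, h4, h5, h6⟩ := key x (by exact_mod_cast hx)
      simp only [Finset.coe_Icc, Set.mem_Icc]
      refine ⟨h2, ?_⟩
      rw [Nat.le_div_iff_mul_le (by omega)]
      rcases le_total p.1 p.2 with h7 | h7
      · rw [max_eq_right h7, ← h4]; exact h6
      · rw [max_eq_left h7, ← h3]; exact h5
    · intro x hx y hy hxy
      obtain ⟨h2, h3, h4, h5, h6⟩ := key x (by exact_mod_cast hx)
      obtain ⟨k2, k3, k4, k5, k6⟩ := key y (by exact_mod_cast hy)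
      simp only at hxy
      refine Prod.ext ?_ ?_
      · rw [h3, k3, hxy]
      · rw [h4, k4, hxy]
  have h2 : (Finset.Icc 1 (h * Q / max p.1 p.2)).card = h * Q / max p.1 p.2 := by simp
  rw [h2] at h1
  calc (((Finset.Ioc Q (h * Q) ×ˢ Finset.Ioc Q (h * Q)).filter (fun x => red x = p)).card : ℝ) ≤
      ((h * Q / max p.1 p.2 : ℕ) : ℝ) := by exact_mod_cast h1
    _ ≤ _ := Nat.cast_div_le

theorem gcd_decomp (φ : ℕ → ℕ → ℝ) (hφ0 : ∀ a b, 0 ≤ φ a b)
    (hφ : ∀ m a b, 1 ≤ m → 1 ≤ a → 1 ≤ b → φ (m * a) (m * b) = φ a b) (Q h : ℕ) :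
    ∑ n ∈ Finset.Ioc Q (h * Q), ∑ n' ∈ Finset.Ioc Q (h * Q), φ n n' ≤
      ∑ i ∈ Finset.range (Nat.log 2 (h * Q) + 1),
        (((h * Q : ℕ) : ℝ) / 2 ^ i) * ∑ p ∈ PP (h * Q) h i, φ p.1 p.2 := by
  classical
  rw [← Finset.sum_product (f := fun x => φ x.1 x.2),
    ← Finset.sum_fiberwise_of_maps_to (t := PA (h * Q) h) (g := red) (fun x hx => red_mem hx)]
  have h1 : ∀ p ∈ PA (h * Q) h,
      ∑ x ∈ (Finset.Ioc Q (h * Q) ×ˢ Finset.Ioc Q (h * Q)).filter (fun x => red x = p), φ x.1 x.2 ≤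
      (((h * Q : ℕ) : ℝ) / ((max p.1 p.2 : ℕ) : ℝ)) * φ p.1 p.2 := by
    intro p hp
    have h2 : ∀ x ∈ (Finset.Ioc Q (h * Q) ×ˢ Finset.Ioc Q (h * Q)).filter (fun x => red x = p),
        φ x.1 x.2 = φ p.1 p.2 := by
      intro x hx
      rw [Finset.mem_filter, Finset.mem_product, Finset.mem_Ioc, Finset.mem_Ioc] at hx
      obtain ⟨⟨⟨h1, h2⟩, h3, h4⟩, h5⟩ := hx
      have hx1 : 0 < x.1 := by omega
      have hx2 : 0 < x.2 := by omega
      have hg : 0 < Nat.gcd x.1 x.2 := Nat.gcd_pos_of_pos_left _ hx1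
      have e1 : Nat.gcd x.1 x.2 * p.1 = x.1 := by
        rw [← h5]
        exact Nat.mul_div_cancel' (Nat.gcd_dvd_left _ _)
      have e2 : Nat.gcd x.1 x.2 * p.2 = x.2 := by
        rw [← h5]
        exact Nat.mul_div_cancel' (Nat.gcd_dvd_right _ _)
      have hp1 : 1 ≤ p.1 := by
        by_contra hcon
        have : p.1 = 0 := by omega
        rw [this, mul_zero] at e1
        omega
      have hp2 : 1 ≤ p.2 := by
        by_contra hcon
        have : p.2 = 0 := by omega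
        rw [this, mul_zero] at e2
        omega
      have := hφ _ _ _ hg hp1 hp2
      rw [e1, e2] at this
      exact this
    rw [Finset.sum_congr rfl h2, Finset.sum_const, nsmul_eq_mul]
    exact mul_le_mul_of_nonneg_right (fiber_card Q h p hp) (hφ0 _ _)
  refine (Finset.sum_le_sum h1).trans ?_
  rw [← Finset.sum_fiberwise_of_maps_to (s := PA (h * Q) h) (t := Finset.range (Nat.log 2 (h * Q) + 1))
    (g := fun p => Nat.log 2 (max p.1 p.2)) (fun p hp => by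
      rw [Finset.mem_range, Nat.lt_succ_iff]
      refine Nat.log_mono_right ?_
      have := (Finset.mem_filter.1 hp).1
      rw [Finset.mem_product, Finset.mem_Icc, Finset.mem_Icc] at this
      exact max_le this.1.2 this.2.2)]
  refine Finset.sum_le_sum fun i _ => ?_
  have h2 : (PA (h * Q) h).filter (fun p => Nat.log 2 (max p.1 p.2) = i) = PP (h * Q) h i := by
    unfold PA PP
    rw [Finset.filter_filter]
    refine Finset.filter_congr fun p _ => ?_
    tauto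
  rw [h2, Finset.mul_sum]
  refine Finset.sum_le_sum fun p hp => ?_
  refine mul_le_mul_of_nonneg_right ?_ (hφ0 _ _)
  have hp' := (Finset.mem_filter.1 hp)
  rw [Finset.mem_product, Finset.mem_Icc, Finset.mem_Icc] at hp'
  have h3 : 2 ^ i ≤ max p.1 p.2 := by
    rw [← hp'.2.2.2.2]
    refine Nat.pow_log_le_self 2 ?_
    have := le_max_left p.1 p.2
    omega
  refine div_le_div_of_nonneg_left (by (clear * -; positivity)) (by positivity) ?_
  exact_mod_cast h3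

/-- value of the logarithm of the ratio -/
noncomputable def lr (p : ℕ × ℕ) : ℝ := Real.log p.1 - Real.log p.2

lemma log_sub_log_ge {m n M : ℕ} (hn : 0 < n) (hnm : n < m) (hm : m ≤ M) :
    1 / (M : ℝ) ≤ Real.log m - Real.log n := by
  have hm0 : (0 : ℝ) < m := by exact_mod_cast (by omega : 0 < m)
  have hn0 : (0 : ℝ) < n := by exact_mod_cast hn
  rw [← Real.log_div hm0.ne' hn0.ne']
  have h1 := Real.one_sub_inv_le_log_of_pos (x := (m : ℝ) / n) (by positivity)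
  refine le_trans ?_ h1
  rw [inv_div]
  have h2 : 1 - (n : ℝ) / m = ((m : ℝ) - n) / m := by
    field_simp
  rw [h2]
  have h3 : (1 : ℝ) ≤ (m : ℝ) - n := by
    have : ((n + 1 : ℕ) : ℝ) ≤ m := by exact_mod_cast hnm
    push_cast at this
    (clear * - this; linarith)
  have h4 : (m : ℝ) ≤ M := by exact_mod_cast hm
  calc 1 / (M : ℝ) ≤ 1 / (m : ℝ) := one_div_le_one_div_of_le hm0 h4
    _ ≤ ((m : ℝ) - n) / m := div_le_div_of_nonneg_right h3 hm0.le

lemma lr_spaced {N h i : ℕ} {p q : ℕ × ℕ} (hp : p ∈ PP N h i) (hq : q ∈ PP N h i) (hpq : p ≠ q) :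
    1 / (4 * 4 ^ i : ℝ) ≤ |lr p - lr q| := by
  have hp' := (Finset.mem_filter.1 hp)
  have hq' := (Finset.mem_filter.1 hq)
  rw [Finset.mem_product, Finset.mem_Icc, Finset.mem_Icc] at hp' hq'
  obtain ⟨⟨⟨p1, _⟩, p2, _⟩, pc, _, _, pl⟩ := hp'
  obtain ⟨⟨⟨q1, _⟩, q2, _⟩, qc, _, _, ql⟩ := hq'
  have hpm : max p.1 p.2 < 2 ^ (i + 1) := by
    rw [← pl]
    exact Nat.lt_pow_succ_log_self (by norm_num) _
  have hqm : max q.1 q.2 < 2 ^ (i + 1) := by
    rw [← ql]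
    exact Nat.lt_pow_succ_log_self (by norm_num) _
  have hp1 : p.1 < 2 ^ (i + 1) := lt_of_le_of_lt (le_max_left _ _) hpm
  have hp2 : p.2 < 2 ^ (i + 1) := lt_of_le_of_lt (le_max_right _ _) hpm
  have hq1 : q.1 < 2 ^ (i + 1) := lt_of_le_of_lt (le_max_left _ _) hqm
  have hq2 : q.2 < 2 ^ (i + 1) := lt_of_le_of_lt (le_max_right _ _) hqm
  have hne : p.1 * q.2 ≠ q.1 * p.2 := by
    intro heq
    apply hpq
    have h1 : p.1 ∣ q.1 * p.2 := ⟨q.2, heq.symm⟩
    have h2 : p.1 ∣ q.1 := pc.dvd_of_dvd_mul_right h1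
    have h3 : q.1 ∣ p.1 * q.2 := ⟨p.2, heq⟩
    have h4 : q.1 ∣ p.1 := qc.dvd_of_dvd_mul_right h3
    have h5 : p.1 = q.1 := Nat.dvd_antisymm h2 h4
    refine Prod.ext h5 ?_
    rw [h5] at heq
    exact (Nat.eq_of_mul_eq_mul_left (by omega) heq).symm
  have hb1 : p.1 * q.2 ≤ 4 * 4 ^ i := by
    calc p.1 * q.2 ≤ 2 ^ (i + 1) * 2 ^ (i + 1) := Nat.mul_le_mul hp1.le hq2.le
      _ = 4 * 4 ^ i := by rw [← mul_pow]; ring
  have hb2 : q.1 * p.2 ≤ 4 * 4 ^ i := by
    calc q.1 * p.2 ≤ 2 ^ (i + 1) * 2 ^ (i + 1) := Nat.mul_le_mul hq1.le hp2.le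
      _ = 4 * 4 ^ i := by rw [← mul_pow]; ring
  have cp1 : (p.1 : ℝ) ≠ 0 := by exact_mod_cast (by omega : p.1 ≠ 0)
  have cp2 : (p.2 : ℝ) ≠ 0 := by exact_mod_cast (by omega : p.2 ≠ 0)
  have cq1 : (q.1 : ℝ) ≠ 0 := by exact_mod_cast (by omega : q.1 ≠ 0)
  have cq2 : (q.2 : ℝ) ≠ 0 := by exact_mod_cast (by omega : q.2 ≠ 0)
  have hlr : lr p - lr q = Real.log ((p.1 * q.2 : ℕ) : ℝ) - Real.log ((q.1 * p.2 : ℕ) : ℝ) := by
    unfold lr
    push_cast
    rw [Real.log_mul cp1 cq2, Real.log_mul cq1 cp2]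
    ring
  rw [hlr]
  rcases lt_or_gt_of_ne hne with hlt | hgt
  · have := log_sub_log_ge (Nat.mul_pos (by omega) (by omega)) hlt hb2
    push_cast at this ⊢
    rw [abs_sub_comm]
    exact this.trans (le_abs_self _)
  · have := log_sub_log_ge (Nat.mul_pos (by omega) (by omega)) hgt hb1
    push_cast at this ⊢
    exact this.trans (le_abs_self _)

lemma lr_abs {N h i : ℕ} (hh : 1 ≤ h) {p : ℕ × ℕ} (hp : p ∈ PP N h i) : |lr p| ≤ h := by
  have hp' := (Finset.mem_filter.1 hp)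
  rw [Finset.mem_product, Finset.mem_Icc, Finset.mem_Icc] at hp'
  obtain ⟨⟨⟨p1, _⟩, p2, _⟩, pc, h1, h2, pl⟩ := hp'
  have cp1 : (0 : ℝ) < p.1 := by exact_mod_cast p1
  have cp2 : (0 : ℝ) < p.2 := by exact_mod_cast p2
  have ch : (0 : ℝ) < h := by exact_mod_cast hh
  have hlog : Real.log h ≤ h := (Real.log_le_sub_one_of_pos ch).trans (by (clear * -; linarith))
  have e1 : Real.log p.1 ≤ Real.log h + Real.log p.2 := by
    rw [← Real.log_mul ch.ne' cp2.ne']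
    exact Real.log_le_log cp1 (by exact_mod_cast h1)
  have e2 : Real.log p.2 ≤ Real.log h + Real.log p.1 := by
    rw [← Real.log_mul ch.ne' cp1.ne']
    exact Real.log_le_log cp2 (by exact_mod_cast h2)
  unfold lr
  rw [abs_le]
  constructor <;> (clear * - hlog e2 e1; linarith)

lemma PP_card (N h i : ℕ) : (PP N h i).card ≤ 4 * 4 ^ i := by
  have h1 : PP N h i ⊆ Finset.range (2 ^ (i + 1)) ×ˢ Finset.range (2 ^ (i + 1)) := by
    intro p hp
    have hp' := (Finset.mem_filter.1 hp)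
    have hpm : max p.1 p.2 < 2 ^ (i + 1) := by
      rw [← hp'.2.2.2.2]
      exact Nat.lt_pow_succ_log_self (by norm_num) _
    rw [Finset.mem_product, Finset.mem_range, Finset.mem_range]
    exact ⟨lt_of_le_of_lt (le_max_left _ _) hpm, lt_of_le_of_lt (le_max_right _ _) hpm⟩
  refine (Finset.card_le_card h1).trans (le_of_eq ?_)
  rw [Finset.card_product, Finset.card_range, ← mul_pow]
  ring

/-- the third moment over all pairs -/
theorem third_total (h13 : Pool.Agent.M17.Helper10.KSZ.A13) (h : ℕ) (hh : 1 ≤ h) : ∃ C : ℝ, 0 < C ∧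
    ∀ (Z : Finset ℂ) (Q : ℕ) (T : ℝ), 1 ≤ Q → 1 ≤ T → (∀ ρ ∈ Z, |ρ.im| ≤ T) → Spaced1 Z →
    ∑ n ∈ Finset.Ioc Q (h * Q), ∑ n' ∈ Finset.Ioc Q (h * Q),
      ‖WW Z (Real.log n - Real.log n')‖ ^ 3 ≤
      C * (1 + Real.log Q) * Real.sqrt (EZ Z) *
        ((Q : ℝ) ^ 2 * Real.sqrt Z.card + Q * Z.card * Real.sqrt T) := by
  classical
  obtain ⟨C, hC, hm⟩ := third_moment h13
  have ch : (1 : ℝ) ≤ h := by exact_mod_cast hh
  refine ⟨C * h * h * (2 * h + 2), by (clear * - hC hh; positivity), fun Z Q T hQ hT hZ hsp => ?_⟩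
  have cQ : (1 : ℝ) ≤ Q := by exact_mod_cast hQ
  set n : ℝ := (Z.card : ℝ) with hn
  set E : ℝ := (EZ Z : ℝ) with hE
  have hn0 : 0 ≤ n := by (clear * -; positivity)
  have hE0 : 0 ≤ E := by (clear * -; positivity)
  -- decomposition
  have h1 := gcd_decomp (fun a b => ‖WW Z (Real.log a - Real.log b)‖ ^ 3) (fun a b => by positivity)
    (fun m a b hm ha hb => by
      have e1 : (m : ℝ) ≠ 0 := by exact_mod_cast (by omega : m ≠ 0)
      have e2 : (a : ℝ) ≠ 0 := by exact_mod_cast (by omega : a ≠ 0)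
      have e3 : (b : ℝ) ≠ 0 := by exact_mod_cast (by omega : b ≠ 0)
      have : Real.log ((m * a : ℕ) : ℝ) - Real.log ((m * b : ℕ) : ℝ) = Real.log a - Real.log b := by
        push_cast
        rw [Real.log_mul e1 e2, Real.log_mul e1 e3]
        ring
      simp only [this]) Q h
  refine h1.trans ?_
  -- each scale
  have h2 : ∀ i, ∑ p ∈ PP (h * Q) h i, ‖WW Z (Real.log p.1 - Real.log p.2)‖ ^ 3 ≤
      C * h * (4 ^ i * Real.sqrt (n * E) + 2 ^ i * n * Real.sqrt (T * E)) := by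
    intro i
    have hinj : Set.InjOn lr (PP (h * Q) h i : Set (ℕ × ℕ)) := by
      intro p hp q hq hpq
      by_contra hne
      have := lr_spaced (by exact_mod_cast hp) (by exact_mod_cast hq) hne
      rw [hpq, sub_self, abs_zero] at this
      have h3 : (0 : ℝ) < 1 / (4 * 4 ^ i) := by positivity
      (clear * - this h3; linarith)
    have h3 := hm Z ((PP (h * Q) h i).image lr) h T i ch hT hZ hsp ?_ ?_ ?_
    · rw [Finset.sum_image hinj] at h3
      exact h3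
    · intro y hy
      obtain ⟨p, hp, rfl⟩ := Finset.mem_image.1 hy
      exact lr_abs hh hp
    · intro y hy y' hy' hyy
      obtain ⟨p, hp, rfl⟩ := Finset.mem_image.1 hy
      obtain ⟨q, hq, rfl⟩ := Finset.mem_image.1 hy'
      refine lr_spaced hp hq ?_
      rintro rfl
      exact hyy rfl
    · have h4 : ((PP (h * Q) h i).image lr).card ≤ 4 * 4 ^ i :=
        Finset.card_image_le.trans (PP_card _ _ _)
      exact_mod_cast h4
  set N : ℕ := h * Q with hN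
  set I : ℕ := Nat.log 2 N with hI
  have hN1 : 1 ≤ N := by
    rw [hN]
    exact Nat.mul_pos (by omega) (by omega)
  have cN : ((N : ℕ) : ℝ) = h * Q := by rw [hN]; push_cast; ring
  have hN0 : (0 : ℝ) ≤ N := by positivity
  have hs1 : 0 ≤ Real.sqrt (n * E) := Real.sqrt_nonneg _
  have hs2 : 0 ≤ Real.sqrt (T * E) := Real.sqrt_nonneg _
  -- sum over the scales
  have h3 : ∑ i ∈ Finset.range (I + 1), ((N : ℝ) / 2 ^ i) *
      ∑ p ∈ PP N h i, ‖WW Z (Real.log p.1 - Real.log p.2)‖ ^ 3 ≤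
      ∑ i ∈ Finset.range (I + 1), C * h * N * (2 ^ i * Real.sqrt (n * E) + n * Real.sqrt (T * E)) := by
    refine Finset.sum_le_sum fun i _ => ?_
    calc ((N : ℝ) / 2 ^ i) * ∑ p ∈ PP N h i, ‖WW Z (Real.log p.1 - Real.log p.2)‖ ^ 3 ≤
        ((N : ℝ) / 2 ^ i) * (C * h * (4 ^ i * Real.sqrt (n * E) + 2 ^ i * n * Real.sqrt (T * E))) :=
          mul_le_mul_of_nonneg_left (h2 i) (by positivity)
      _ = C * h * N * (2 ^ i * Real.sqrt (n * E) + n * Real.sqrt (T * E)) := by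
          have h4 : (4 : ℝ) ^ i = 2 ^ i * 2 ^ i := by
            rw [← mul_pow]; norm_num
          rw [h4]
          have h5 : (2 : ℝ) ^ i ≠ 0 := by positivity
          field_simp
  refine h3.trans ?_
  have h4 : ∑ i ∈ Finset.range (I + 1), (2 : ℝ) ^ i ≤ 2 * N := by
    rw [geom_sum_eq (by norm_num)]
    have h5 : (2 : ℝ) ^ I ≤ N := by
      exact_mod_cast Nat.pow_log_le_self 2 (by omega : N ≠ 0)
    rw [pow_succ]
    have : ((2 : ℝ) ^ I * 2 - 1) / (2 - 1) = 2 ^ I * 2 - 1 := by norm_num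
    rw [this]
    (clear * - h5; linarith)
  have hlogN : ((I + 1 : ℕ) : ℝ) ≤ (2 * h + 2) * (1 + Real.log Q) := by
    have h5 : (2 : ℝ) ^ I ≤ N := by
      exact_mod_cast Nat.pow_log_le_self 2 (by omega : N ≠ 0)
    have h6 : (I : ℝ) * Real.log 2 ≤ Real.log N := by
      rw [← Real.log_pow]
      exact Real.log_le_log (by positivity) h5
    have h7 : Real.log N = Real.log h + Real.log Q := by
      rw [cN, Real.log_mul (by positivity) (by positivity)]
    have h8 : Real.log h ≤ h := (Real.log_le_sub_one_of_pos (by (clear * - ch; linarith))).trans (by (clear * -; linarith))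
    have h9 : (1 / 2 : ℝ) < Real.log 2 := by (clear * -; linarith [Real.log_two_gt_d9])
    have h10 : 0 ≤ Real.log Q := Real.log_nonneg cQ
    have h11 : (I : ℝ) ≤ 2 * (h + Real.log Q) := by
      have : (0 : ℝ) ≤ I := by (clear * -; positivity)
      (clear * - h6 h7 h8 h9; nlinarith)
    push_cast
    (clear * - h11 h10; nlinarith)
  calc ∑ i ∈ Finset.range (I + 1), C * h * N * (2 ^ i * Real.sqrt (n * E) + n * Real.sqrt (T * E))
      = C * h * N * ((∑ i ∈ Finset.range (I + 1), (2 : ℝ) ^ i) * Real.sqrt (n * E) +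
          ((I + 1 : ℕ) : ℝ) * (n * Real.sqrt (T * E))) := by
        rw [← Finset.mul_sum, Finset.sum_add_distrib, Finset.sum_mul, Finset.sum_const,
          Finset.card_range, nsmul_eq_mul]
    _ ≤ C * h * N * ((2 * N) * Real.sqrt (n * E) +
          ((2 * h + 2) * (1 + Real.log Q)) * (n * Real.sqrt (T * E))) := by
        refine mul_le_mul_of_nonneg_left ?_ (by positivity)
        exact add_le_add (mul_le_mul_of_nonneg_right h4 hs1)
          (mul_le_mul_of_nonneg_right hlogN (by (clear * -; positivity)))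
    _ ≤ C * h * h * (2 * h + 2) * (1 + Real.log Q) * Real.sqrt E *
        ((Q : ℝ) ^ 2 * Real.sqrt n + Q * n * Real.sqrt T) := by
        rw [cN, Real.sqrt_mul hn0, Real.sqrt_mul (by (clear * - hT; linarith))]
        have h10 : 0 ≤ Real.log Q := Real.log_nonneg cQ
        set a := Real.sqrt n with ha
        set e := Real.sqrt E with he
        set τ := Real.sqrt T with hτ
        have ha0 : 0 ≤ a := Real.sqrt_nonneg _
        have he0 : 0 ≤ e := Real.sqrt_nonneg _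
        have hτ0 : 0 ≤ τ := Real.sqrt_nonneg _
        have e1 : C * h * (h * Q) * (2 * (h * Q) * (a * e) +
            (2 * h + 2) * (1 + Real.log Q) * (n * (τ * e))) =
            C * h * h * (2 * h) * 1 * e * ((Q : ℝ) ^ 2 * a) +
            C * h * h * (2 * h + 2) * (1 + Real.log Q) * e * (Q * n * τ) := by ring
        have e2 : C * h * h * (2 * h) * 1 * e * ((Q : ℝ) ^ 2 * a) ≤
            C * h * h * (2 * h + 2) * (1 + Real.log Q) * e * ((Q : ℝ) ^ 2 * a) := by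
          gcongr
          · (clear * -; linarith)
          · (clear * - h10; linarith)
        rw [e1, mul_add]
        (clear * - e2; linarith)

end Pool.Agent.M17.Helper73.KC
end
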