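import Mathlib
import Pool.Agent.Helper53.KM.G02
import Pool.Agent.Helper53.KM.G09
import Pool.Agent.Helper53.KM.G10
import Pool.Agent.Helper53.KM.G11
import Pool.Agent.Helper53.KM.G12
import Pool.Agent.Helper53.KM.G14
import Pool.Agent.Helper53.KM.G15

/- Helper53.KN.Helper60.KE.Dual2 -/
section
/-! CountE2: duality inequality with a Dirichlet polynomial factor (plain mean square). -/

set_option autoImplicit false
open Filter Topology MeasureTheory

namespace Pool.Agent.M17.Helper60.KE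

open Pool.Agent.M17.Helper52.QRH

/-- the weighted second moment of an exponential polynomial with coefficients -/
lemma second_momentW {lam : ℝ} (hl : 0 < lam) (R : Finset ℝ)
    (hR : ∀ u ∈ R, ∀ u' ∈ R, u ≠ u' → lam ≤ |u - u'|) (a : ℝ → ℂ) :
    Integrable (fun t : ℝ => 1 / (1 + (lam * t) ^ 2) *
      ‖∑ u ∈ R, a u * Complex.exp (t * u * Complex.I)‖ ^ 2) ∧
    ∫ t : ℝ, 1 / (1 + (lam * t) ^ 2) * ‖∑ u ∈ R, a u * Complex.exp (t * u * Complex.I)‖ ^ 2 ≤
      Real.pi / lam * C0 * ∑ u ∈ R, ‖a u‖ ^ 2 := by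
  have hexpand : ∀ t : ℝ, ((1 / (1 + (lam * t) ^ 2) *
      ‖∑ u ∈ R, a u * Complex.exp (t * u * Complex.I)‖ ^ 2 : ℝ) : ℂ) =
      ∑ u ∈ R, ∑ u' ∈ R, (a u * (starRingEnd ℂ) (a u')) *
        (((1 / (1 + (lam * t) ^ 2) : ℝ) : ℂ) * Complex.exp (t * (u - u' : ℝ) * Complex.I)) := by
    intro t
    have h1 : ((‖∑ u ∈ R, a u * Complex.exp (t * u * Complex.I)‖ ^ 2 : ℝ) : ℂ) =
        (∑ u ∈ R, a u * Complex.exp (t * u * Complex.I)) *
          (starRingEnd ℂ) (∑ u ∈ R, a u * Complex.exp (t * u * Complex.I)) := by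
      rw [Complex.mul_conj, Complex.normSq_eq_norm_sq]
    rw [Complex.ofReal_mul, h1, map_sum, Finset.sum_mul_sum, Finset.mul_sum]
    refine Finset.sum_congr rfl fun u _ => ?_
    rw [Finset.mul_sum]
    refine Finset.sum_congr rfl fun u' _ => ?_
    rw [map_mul, ← Complex.exp_conj]
    have h2 : (starRingEnd ℂ) (t * u' * Complex.I) = -(t * u' * Complex.I) := by
      simp
    have h3 : Complex.exp (t * (u - u' : ℝ) * Complex.I) =
        Complex.exp (t * u * Complex.I) * Complex.exp (-(t * u' * Complex.I)) := by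
      rw [← Complex.exp_add]; congr 1; push_cast; ring
    rw [h2, h3]
    ring
  have hint1 : ∀ v : ℝ, Integrable (fun t : ℝ => ((1 / (1 + (lam * t) ^ 2) : ℝ) : ℂ) *
      Complex.exp (t * v * Complex.I)) := by
    intro v
    have h := (lorentz_integrable hl).ofReal (𝕜 := ℂ)
    refine h.mul_bdd (c := 1) ?_ ?_
    · exact Continuous.aestronglyMeasurable (by fun_prop)
    · refine Filter.Eventually.of_forall fun t => ?_
      have : (t * v * Complex.I : ℂ) = ((t * v : ℝ) : ℂ) * Complex.I := by push_cast; ring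
      rw [this, Complex.norm_exp_ofReal_mul_I]
  have hintc : Integrable (fun t : ℝ => ((1 / (1 + (lam * t) ^ 2) *
      ‖∑ u ∈ R, a u * Complex.exp (t * u * Complex.I)‖ ^ 2 : ℝ) : ℂ)) := by
    simp only [hexpand]
    refine integrable_finsetSum _ fun u _ => integrable_finsetSum _ fun u' _ => ?_
    exact (hint1 (u - u')).const_mul _
  refine ⟨hintc.re, ?_⟩
  have h1 : ((∫ t : ℝ, 1 / (1 + (lam * t) ^ 2) *
      ‖∑ u ∈ R, a u * Complex.exp (t * u * Complex.I)‖ ^ 2 : ℝ) : ℂ) =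
      ∑ u ∈ R, ∑ u' ∈ R, (a u * (starRingEnd ℂ) (a u')) *
        ∫ t : ℝ, (((1 / (1 + (lam * t) ^ 2) : ℝ) : ℂ) * Complex.exp (t * (u - u' : ℝ) * Complex.I)) := by
    rw [← integral_complex_ofReal]
    simp only [hexpand]
    rw [integral_finsetSum _ (fun u _ => integrable_finsetSum _ fun u' _ => (hint1 (u - u')).const_mul _)]
    refine Finset.sum_congr rfl fun u _ => ?_
    rw [integral_finsetSum _ (fun u' _ => (hint1 (u - u')).const_mul _)]
    refine Finset.sum_congr rfl fun u' _ => ?_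
    rw [integral_const_mul]
  have h2 : ∫ t : ℝ, 1 / (1 + (lam * t) ^ 2) *
      ‖∑ u ∈ R, a u * Complex.exp (t * u * Complex.I)‖ ^ 2 ≤
      ‖((∫ t : ℝ, 1 / (1 + (lam * t) ^ 2) *
      ‖∑ u ∈ R, a u * Complex.exp (t * u * Complex.I)‖ ^ 2 : ℝ) : ℂ)‖ := by
    rw [Complex.norm_real]; exact le_abs_self _
  refine h2.trans ?_
  rw [h1]
  have hsymm : ∀ u u' : ℝ, Real.exp (-(|u - u'| / lam)) = Real.exp (-(|u' - u| / lam)) := by
    intro u u'; rw [abs_sub_comm]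
  calc _ ≤ ∑ u ∈ R, ∑ u' ∈ R, (‖a u‖ * ‖a u'‖) * (Real.pi / lam * Real.exp (-(|u - u'| / lam))) := by
        refine (norm_sum_le _ _).trans (Finset.sum_le_sum fun u _ => ?_)
        refine (norm_sum_le _ _).trans (Finset.sum_le_sum fun u' _ => ?_)
        rw [norm_mul, norm_fourier_lorentz hl, norm_mul, RCLike.norm_conj]
    _ ≤ ∑ u ∈ R, ∑ u' ∈ R, (1/2 * (‖a u‖ ^ 2 * (Real.pi / lam * Real.exp (-(|u - u'| / lam)))) +
          1/2 * (‖a u'‖ ^ 2 * (Real.pi / lam * Real.exp (-(|u' - u| / lam))))) := by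
        refine Finset.sum_le_sum fun u _ => Finset.sum_le_sum fun u' _ => ?_
        rw [hsymm u' u]
        have hE : 0 ≤ Real.pi / lam * Real.exp (-(|u - u'| / lam)) := by positivity
        have h3 : ‖a u‖ * ‖a u'‖ ≤ 1/2 * ‖a u‖ ^ 2 + 1/2 * ‖a u'‖ ^ 2 := by
          (clear * -; nlinarith [sq_nonneg (‖a u‖ - ‖a u'‖)])
        calc _ ≤ (1/2 * ‖a u‖ ^ 2 + 1/2 * ‖a u'‖ ^ 2) * (Real.pi / lam * Real.exp (-(|u - u'| / lam))) :=
              mul_le_mul_of_nonneg_right h3 hE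
          _ = _ := by ring
    _ = 1/2 * (∑ u ∈ R, ‖a u‖ ^ 2 * (Real.pi / lam * ∑ u' ∈ R, Real.exp (-(|u - u'| / lam)))) +
        1/2 * (∑ u' ∈ R, ‖a u'‖ ^ 2 * (Real.pi / lam * ∑ u ∈ R, Real.exp (-(|u' - u| / lam)))) := by
        simp only [Finset.sum_add_distrib]
        rw [Finset.sum_comm (s := R) (t := R) (f := fun u u' =>
          1/2 * (‖a u'‖ ^ 2 * (Real.pi / lam * Real.exp (-(|u' - u| / lam)))))]
        simp only [Finset.mul_sum]
    _ ≤ 1/2 * (∑ u ∈ R, ‖a u‖ ^ 2 * (Real.pi / lam * C0)) + 1/2 * (∑ u' ∈ R, ‖a u'‖ ^ 2 * (Real.pi / lam * C0)) := by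
        have hp : ∀ u ∈ R, ‖a u‖ ^ 2 * (Real.pi / lam * ∑ u' ∈ R, Real.exp (-(|u - u'| / lam))) ≤
            ‖a u‖ ^ 2 * (Real.pi / lam * C0) := by
          intro u _
          exact mul_le_mul_of_nonneg_left (mul_le_mul_of_nonneg_left (packing hl R hR u) (by positivity))
            (by positivity)
        have := Finset.sum_le_sum hp
        linarith
    _ = Real.pi / lam * C0 * ∑ u ∈ R, ‖a u‖ ^ 2 := by
        rw [← Finset.sum_mul]
        ring

lemma sq_le_of_amgm {S X Y : ℝ} (hS : 0 ≤ S) (hX : 0 ≤ X) (hY : 0 ≤ Y)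
    (h : ∀ a : ℝ, 0 < a → S ≤ a / 2 * X + 1 / (2 * a) * Y) : S ^ 2 ≤ X * Y := by
  rcases hS.eq_or_lt with h0 | h0
  · rw [← h0]; simpa using mul_nonneg hX hY
  rcases hX.eq_or_lt with hX0 | hX0
  · exfalso
    have := h ((Y + 1) / S) (by positivity)
    rw [← hX0, mul_zero, zero_add] at this
    have e : 1 / (2 * ((Y + 1) / S)) * Y = S * (Y / (2 * (Y + 1))) := by (clear * - h0 hY; field_simp)
    rw [e] at this
    have h2 : Y / (2 * (Y + 1)) < 1 := by rw [div_lt_one (by positivity)]; (clear * - hY; linarith)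
    (clear * - this h0 h2; nlinarith)
  · have := h (S / X) (by positivity)
    have e : S / X / 2 * X + 1 / (2 * (S / X)) * Y = S / 2 + X * Y / (2 * S) := by field_simp
    rw [e] at this
    have h2 : S / 2 ≤ X * Y / (2 * S) := by linarith
    rw [le_div_iff₀ (by positivity)] at h2
    (clear * - h2; nlinarith)

/-- duality with a Dirichlet polynomial factor -/
theorem duality2 {lam : ℝ} (hl : 0 < lam) (g : ℝ → ℂ) (hg : Measurable g) {B : ℝ} (hB : 0 ≤ B)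
    (hgb : ∀ t, ‖g t‖ ≤ B / (1 + (lam * t) ^ 2)) (V : Finset ℝ)
    (hV : ∀ u ∈ V, ∀ u' ∈ V, u ≠ u' → lam ≤ |u - u'|) (a : ℝ → ℂ) (R : Finset ℝ)
    (hR : ∀ u ∈ R, ∀ u' ∈ R, u ≠ u' → lam ≤ |u - u'|) :
    (∑ u ∈ R, ‖∫ t : ℝ, g t * (∑ v ∈ V, a v * Complex.exp (t * v * Complex.I)) *
      Complex.exp (t * u * Complex.I)‖) ^ 2 ≤
      B ^ 2 * ((Real.pi / lam * C0) ^ 2 * (∑ v ∈ V, ‖a v‖ ^ 2) * R.card) := by
  have hC0 := C0_pos
  choose ph hph1 hph2 using exists_phase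
  set Q : ℝ → ℂ := fun t => ∑ v ∈ V, a v * Complex.exp (t * v * Complex.I) with hQ
  have hlor := lorentz_integrable hl
  have hexp1 : ∀ t u : ℝ, ‖Complex.exp (t * u * Complex.I)‖ = 1 := by
    intro t u
    have : (t * u * Complex.I : ℂ) = ((t * u : ℝ) : ℂ) * Complex.I := by push_cast; ring
    rw [this, Complex.norm_exp_ofReal_mul_I]
  have hQc : Continuous Q := by
    rw [hQ]
    fun_prop
  have hQb : ∀ t, ‖Q t‖ ≤ ∑ v ∈ V, ‖a v‖ := by
    intro t
    refine (norm_sum_le _ _).trans (Finset.sum_le_sum fun v _ => ?_)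
    rw [norm_mul, hexp1, mul_one]
  have hgi : Integrable g := by
    refine (hlor.const_mul B).mono' hg.aestronglyMeasurable (Filter.Eventually.of_forall fun t => ?_)
    refine (hgb t).trans (le_of_eq ?_)
    ring
  have hgQ : Integrable (fun t : ℝ => g t * Q t) :=
    hgi.mul_bdd (c := ∑ v ∈ V, ‖a v‖) hQc.aestronglyMeasurable (Filter.Eventually.of_forall hQb)
  have hgi' : ∀ u : ℝ, Integrable (fun t : ℝ => g t * Q t * Complex.exp (t * u * Complex.I)) := by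
    intro u
    refine hgQ.mul_bdd (c := 1) (Continuous.aestronglyMeasurable (by fun_prop)) ?_
    exact Filter.Eventually.of_forall fun t => (hexp1 t u).le
  set ε : ℝ → ℂ := fun u => ph (∫ t : ℝ, g t * Q t * Complex.exp (t * u * Complex.I)) with hε
  obtain ⟨hI2, hI2b⟩ := second_moment hl R hR ε (fun u => hph1 _)
  obtain ⟨hI1, hI1b⟩ := second_momentW hl V hV a
  set S : ℝ → ℂ := fun t => ∑ u ∈ R, ε u * Complex.exp (t * u * Complex.I) with hS
  have hsum : ((∑ u ∈ R, ‖∫ t : ℝ, g t * Q t * Complex.exp (t * u * Complex.I)‖ : ℝ) : ℂ) =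
      ∫ t : ℝ, g t * Q t * S t := by
    push_cast
    have : ∀ t : ℝ, g t * Q t * S t = ∑ u ∈ R, ε u * (g t * Q t * Complex.exp (t * u * Complex.I)) := by
      intro t
      rw [hS]; simp only [Finset.mul_sum]
      refine Finset.sum_congr rfl fun u _ => by ring
    simp only [this]
    rw [integral_finsetSum _ (fun u _ => (hgi' u).const_mul _)]
    refine Finset.sum_congr rfl fun u _ => ?_
    rw [integral_const_mul, hε]
    exact (hph2 _).symm
  set X0 : ℝ := Real.pi / lam * C0 * ∑ v ∈ V, ‖a v‖ ^ 2 with hX0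
  set Y0 : ℝ := Real.pi / lam * R.card * C0 with hY0
  have hX0p : 0 ≤ X0 := by (clear * - hl hC0; positivity)
  have hY0p : 0 ≤ Y0 := by (clear * - hl hC0; positivity)
  have hamgm : ∀ b : ℝ, 0 < b → ∑ u ∈ R, ‖∫ t : ℝ, g t * Q t * Complex.exp (t * u * Complex.I)‖ ≤
      b / 2 * (B * X0) + 1 / (2 * b) * (B * Y0) := by
    intro b hb
    have e1 : ∑ u ∈ R, ‖∫ t : ℝ, g t * Q t * Complex.exp (t * u * Complex.I)‖ ≤
        ∫ t : ℝ, ‖g t * Q t * S t‖ := by
      have h2 : ∑ u ∈ R, ‖∫ t : ℝ, g t * Q t * Complex.exp (t * u * Complex.I)‖ ≤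
        ‖((∑ u ∈ R, ‖∫ t : ℝ, g t * Q t * Complex.exp (t * u * Complex.I)‖ : ℝ) : ℂ)‖ := by
        rw [Complex.norm_real]; exact le_abs_self _
      rw [hsum] at h2
      exact h2.trans (norm_integral_le_integral_norm _)
    refine e1.trans ?_
    have hi : Integrable (fun t : ℝ => (b / 2 * B) * (1 / (1 + (lam * t) ^ 2) * ‖Q t‖ ^ 2) +
        (1 / (2 * b) * B) * (1 / (1 + (lam * t) ^ 2) * ‖S t‖ ^ 2)) :=
      (hI1.const_mul _).add (hI2.const_mul _)
    calc ∫ t : ℝ, ‖g t * Q t * S t‖ ≤ ∫ t : ℝ, ((b / 2 * B) * (1 / (1 + (lam * t) ^ 2) * ‖Q t‖ ^ 2) +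
        (1 / (2 * b) * B) * (1 / (1 + (lam * t) ^ 2) * ‖S t‖ ^ 2)) := by
          refine integral_mono_of_nonneg (Filter.Eventually.of_forall fun t => norm_nonneg _) hi
            (Filter.Eventually.of_forall fun t => ?_)
          simp only
          rw [norm_mul, norm_mul]
          have hp : (0 : ℝ) < 1 + (lam * t) ^ 2 := by (clear * -; positivity)
          have b1 : ‖g t‖ * ‖Q t‖ * ‖S t‖ ≤ B / (1 + (lam * t) ^ 2) * (‖Q t‖ * ‖S t‖) := by
            rw [mul_assoc]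
            exact mul_le_mul_of_nonneg_right (hgb t) (by positivity)
          refine b1.trans ?_
          have b2 : ‖Q t‖ * ‖S t‖ ≤ b / 2 * ‖Q t‖ ^ 2 + 1 / (2 * b) * ‖S t‖ ^ 2 := by
            have key : b / 2 * ‖Q t‖ ^ 2 + 1 / (2 * b) * ‖S t‖ ^ 2 - ‖Q t‖ * ‖S t‖ =
              1 / (2 * b) * (b * ‖Q t‖ - ‖S t‖) ^ 2 := by
              field_simp
              ring
            have : 0 ≤ 1 / (2 * b) * (b * ‖Q t‖ - ‖S t‖) ^ 2 := by (clear * - hb; positivity)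
            (clear * - key this; linarith)
          calc B / (1 + (lam * t) ^ 2) * (‖Q t‖ * ‖S t‖) ≤
              B / (1 + (lam * t) ^ 2) * (b / 2 * ‖Q t‖ ^ 2 + 1 / (2 * b) * ‖S t‖ ^ 2) :=
                mul_le_mul_of_nonneg_left b2 (by (clear * - hB; positivity))
            _ = _ := by ring
      _ = (b / 2 * B) * (∫ t : ℝ, 1 / (1 + (lam * t) ^ 2) * ‖Q t‖ ^ 2) +
          (1 / (2 * b) * B) * ∫ t : ℝ, 1 / (1 + (lam * t) ^ 2) * ‖S t‖ ^ 2 := by
          rw [integral_add (hI1.const_mul _) (hI2.const_mul _), integral_const_mul, integral_const_mul]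
      _ ≤ (b / 2 * B) * X0 + (1 / (2 * b) * B) * Y0 := by
          (clear * - hI1b hb hB hI2b; gcongr)
      _ = _ := by ring
  have h1 := sq_le_of_amgm (Finset.sum_nonneg fun u _ => norm_nonneg _) (by (clear * - hB hl hC0; positivity)) (by (clear * - hB hl hC0; positivity)) hamgm
  refine h1.trans (le_of_eq ?_)
  rw [hX0, hY0]
  ring

end Pool.Agent.M17.Helper60.KE
end

/- Helper53.KN.Helper60.KE.Line -/
section
/-! CountE2: the line integral with the factor `P(s)`. -/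

set_option autoImplicit false
open Filter Topology MeasureTheory

namespace Pool.Agent.M17.Helper60.KE

open Pool.Agent.M17.Helper10.QRH Pool.Agent.M17.Helper69.QRH Pool.Agent.M17.Helper46.KSZ Pool.Agent.M17.Helper8.KSZ
open Pool.Agent.M17.Helper60.KS (PM S1 S1Lower)
open Pool.Agent.M17.Helper52.QRH (C0 C0_pos)

/-- the line integral is small outside of few cells -/
def LineFewE2 : Prop := ∀ (p : ℕ) (d : ℝ), 1 ≤ p → 0 < d → d ≤ 1/100 → ∃ K : ℕ, ∀ k : ℕ, K ≤ k →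
  ∀ (M : Multiset ℂ) (Z : ℂ → ℂ), Box (2 ^ (5 * k)) M Z →
    (((Finset.range (2 ^ (k - Pool.Agent.M17.Helper46.KSZ.ee d k))).filter (fun j =>
      1/100 * (2 : ℝ) ^ k * S1 k ≤
        ‖∑ m ∈ PM k, line p (lamk p d k) (2 ^ (5 * k)) Z (uu d k j - Real.log m)‖)).card : ℝ) ≤
      (2 : ℝ) ^ ((0.12 + 5 * d) * k)

lemma mem_PM {k m : ℕ} (h : m ∈ PM k) : 2 ^ KS.em k < m ∧ m ≤ 2 * 2 ^ KS.em k ∧ m.Prime := by
  unfold PM at h
  rw [Finset.mem_filter, Finset.mem_Ioc] at h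
  exact ⟨h.1.1, h.1.2, h.2⟩

lemma card_PM (k : ℕ) : (PM k).card ≤ 2 ^ KS.em k := by
  unfold PM
  refine (Finset.card_filter_le _ _).trans ?_
  rw [Nat.card_Ioc]
  omega

lemma em_bounds (k : ℕ) : (0.495 : ℝ) * k - 1 ≤ KS.em k ∧ (KS.em k : ℝ) ≤ 0.495 * k := by
  unfold KS.em
  have h1 : 200 * (99 * k / 200) ≤ 99 * k := Nat.mul_div_le _ _
  have h2 : 99 * k < 200 * (99 * k / 200) + 200 := by omega
  have h1' : 200 * ((99 * k / 200 : ℕ) : ℝ) ≤ 99 * k := by exact_mod_cast h1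
  have h2' : (99 : ℝ) * k < 200 * ((99 * k / 200 : ℕ) : ℝ) + 200 := by exact_mod_cast h2
  constructor <;> (clear * - h2' h1'; linarith)

lemma exists_K6 (C : ℝ) : ∃ K : ℕ, ∀ k : ℕ, K ≤ k → C * (k : ℝ) ^ 6 ≤ (2 : ℝ) ^ ((0.01 : ℝ) * k) := by
  have hr : 1 < (2 : ℝ) ^ (0.01 : ℝ) := Real.one_lt_rpow (by norm_num) (by norm_num)
  have h1 := (tendsto_pow_const_div_const_pow_of_one_lt 6 hr).const_mul C
  rw [mul_zero] at h1
  have h2 := h1.eventually (gt_mem_nhds (one_pos : (0 : ℝ) < 1))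
  obtain ⟨K, hK⟩ := Filter.eventually_atTop.1 h2
  refine ⟨K, fun k hk => ?_⟩
  have h3 := hK k hk
  have h4 : (0 : ℝ) < ((2 : ℝ) ^ (0.01 : ℝ)) ^ k := by positivity
  rw [← mul_div_assoc, div_lt_one h4] at h3
  rw [Real.rpow_mul (by norm_num), Real.rpow_natCast]
  exact h3.le

lemma gg_bound' {p : ℕ} (hp : 1 ≤ p) {lam T CK L : ℝ} {Z : ℂ → ℂ} (hCK : 0 ≤ CK) (hL : 0 ≤ L)
    (hKK : ∀ s : ℂ, 0 ≤ s.re → s.re ≤ 2 → ‖KK lam s‖ ≤ CK / (1 + (lam * s.im) ^ 2))
    (hG : ∀ s : ℂ, 0.605 ≤ s.re → s.re ≤ 2 → |s.im| ≤ T → ‖logDeriv Z s‖ ≤ L) (t : ℝ) :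
    ‖LF.gg p lam T Z t‖ ≤ (CK ^ p * L) / (1 + (lam * t) ^ 2) := by
  unfold LF.gg
  by_cases ht : t ∈ Set.Ioc (-T) T
  · rw [Set.indicator_of_mem ht, norm_mul, norm_pow, norm_neg]
    have h1 := hKK ((0.605 : ℝ) + t * Complex.I) (by rw [LF.line_re]; norm_num)
      (by rw [LF.line_re]; norm_num)
    rw [LF.line_im] at h1
    have h2 := hG ((0.605 : ℝ) + t * Complex.I) (by rw [LF.line_re])
      (by rw [LF.line_re]; norm_num) (by rw [LF.line_im]; exact abs_le.2 ⟨ht.1.le, ht.2⟩)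
    have h3 : (1 : ℝ) ≤ 1 + (lam * t) ^ 2 := by (clear * -; nlinarith [sq_nonneg (lam * t)])
    have h4 : ‖KK lam ((0.605 : ℝ) + t * Complex.I)‖ ^ p ≤ CK ^ p / (1 + (lam * t) ^ 2) := by
      calc ‖KK lam ((0.605 : ℝ) + t * Complex.I)‖ ^ p ≤ (CK / (1 + (lam * t) ^ 2)) ^ p := by
            (clear * - h1; gcongr)
        _ = CK ^ p / (1 + (lam * t) ^ 2) ^ p := by rw [div_pow]
        _ ≤ CK ^ p / (1 + (lam * t) ^ 2) := by
            apply div_le_div_of_nonneg_left (by positivity) (by (clear * -; positivity))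
            exact le_self_pow₀ h3 (by omega)
    calc ‖KK lam ((0.605 : ℝ) + t * Complex.I)‖ ^ p * ‖logDeriv Z ((0.605 : ℝ) + t * Complex.I)‖
        ≤ (CK ^ p / (1 + (lam * t) ^ 2)) * L := by (clear * - h4 h2 hCK; gcongr)
      _ = (CK ^ p * L) / (1 + (lam * t) ^ 2) := by ring
  · rw [Set.indicator_of_notMem ht, norm_zero]
    (clear * - hCK hL; positivity)

/-- the points `-log m` are spaced -/
lemma PM_sep {p : ℕ} (hp : 1 ≤ p) {d : ℝ} (hd : 0 < d) {k m m' : ℕ} (hm : m ∈ PM k) (hm' : m' ∈ PM k)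
    (h : m < m') : lamk p d k ≤ Real.log m' - Real.log m := by
  obtain ⟨a1, a2, a3⟩ := mem_PM hm
  obtain ⟨b1, b2, b3⟩ := mem_PM hm'
  have hm0 : (0 : ℝ) < m := by exact_mod_cast a3.pos
  have hm1 : (m : ℝ) + 1 ≤ m' := by exact_mod_cast h
  have hm'0 : (0 : ℝ) < m' := by (clear * - hm0 hm1; linarith)
  have h1 := Helper30.QRH.log_gap hm0 (by (clear * - hm1; linarith) : (m : ℝ) ≤ m')
  refine le_trans ?_ h1
  have h2 : (m' : ℝ) ≤ 2 * 2 ^ KS.em k := by exact_mod_cast b2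
  have h3 : 1 / (2 * (2 : ℝ) ^ KS.em k) ≤ ((m' : ℝ) - m) / m' :=
    div_le_div₀ (by (clear * - hm1; linarith)) (by (clear * - hm1; linarith)) hm'0 h2
  refine le_trans ?_ h3
  unfold lamk
  have hp' : (1 : ℝ) ≤ p := by exact_mod_cast hp
  rw [div_le_div_iff₀ (by positivity) (by positivity), one_mul]
  have h4 : Pool.Agent.M17.Helper46.KSZ.ee d k + KS.em k ≤ k := by
    have h5 : Pool.Agent.M17.Helper46.KSZ.ee d k ≤ k / 2 := by
      rw [Nat.le_div_iff_mul_le (by norm_num)]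
      unfold Pool.Agent.M17.Helper46.KSZ.ee
      have hk0 : (0 : ℝ) ≤ k := k.cast_nonneg
      rcases le_or_gt 0 ((k : ℝ) * (1/2 - d)) with h0 | h0
      · have h6 := Nat.floor_le h0
        have h8 : ((⌊(k : ℝ) * (1/2 - d)⌋₊ * 2 : ℕ) : ℝ) ≤ (k : ℕ) := by
          push_cast
          (clear * - h6 hd; nlinarith)
        exact_mod_cast h8
      · rw [Nat.floor_of_nonpos h0.le]
        simp
    have h7 : KS.em k ≤ k / 2 := by
      unfold KS.em
      omega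
    omega
  calc (2 : ℝ) ^ Pool.Agent.M17.Helper46.KSZ.ee d k * (2 * 2 ^ KS.em k) = 2 * 2 ^ (Pool.Agent.M17.Helper46.KSZ.ee d k + KS.em k) := by rw [pow_add]; ring
    _ ≤ 2 * 2 ^ k := by gcongr; norm_num
    _ ≤ 8 * p * 2 ^ k := by
        have : (0 : ℝ) < 2 ^ k := by positivity
        (clear * - this hp'; nlinarith)

lemma sum_sq_PM (k : ℕ) : ∑ m ∈ PM k, ((m : ℝ) ^ (-(0.605 : ℝ))) ^ 2 ≤ 2 * (2 : ℝ) ^ (-(0.1039 : ℝ) * k) := by
  have h0 : (0 : ℝ) < 2 ^ KS.em k := by positivity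
  have h1 : ∀ m ∈ PM k, ((m : ℝ) ^ (-(0.605 : ℝ))) ^ 2 ≤ ((2 : ℝ) ^ KS.em k) ^ (-(1.21 : ℝ)) := by
    intro m hm
    obtain ⟨a1, a2, a3⟩ := mem_PM hm
    have hm0 : (0 : ℝ) < m := by exact_mod_cast a3.pos
    have hm1 : (2 : ℝ) ^ KS.em k ≤ m := by exact_mod_cast a1.le
    have e : ((m : ℝ) ^ (-(0.605 : ℝ))) ^ 2 = (m : ℝ) ^ (-(1.21 : ℝ)) := by
      rw [← Real.rpow_natCast, ← Real.rpow_mul hm0.le]
      norm_num
    rw [e]
    exact Real.rpow_le_rpow_of_nonpos h0 hm1 (by norm_num)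
  refine (Finset.sum_le_card_nsmul _ _ _ h1).trans ?_
  rw [nsmul_eq_mul]
  have h2 : ((PM k).card : ℝ) ≤ 2 ^ KS.em k := by exact_mod_cast card_PM k
  calc ((PM k).card : ℝ) * ((2 : ℝ) ^ KS.em k) ^ (-(1.21 : ℝ)) ≤ 2 ^ KS.em k * ((2 : ℝ) ^ KS.em k) ^ (-(1.21 : ℝ)) := by
        gcongr
    _ = (2 : ℝ) ^ (-(0.21 : ℝ) * KS.em k) := by
        rw [← Real.rpow_natCast 2 (KS.em k), ← Real.rpow_mul (by norm_num), ← Real.rpow_add (by norm_num)]
        congr 1
        ring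
    _ ≤ (2 : ℝ) ^ (-(0.1039 : ℝ) * k + 1) := by
        apply Real.rpow_le_rpow_of_exponent_le (by norm_num)
        have := (em_bounds k).1
        (clear * - this; linarith)
    _ = 2 * (2 : ℝ) ^ (-(0.1039 : ℝ) * k) := by
        rw [Real.rpow_add_one (by norm_num)]; ring

/-- the sum of the line integrals -/
lemma sum_line (k p : ℕ) {lam T : ℝ} (hT : 0 ≤ T) (Z : ℂ → ℂ) (u : ℝ)
    (hint : ∀ v : ℝ, Integrable (fun t : ℝ => LF.gg p lam T Z t * Complex.exp (t * v * Complex.I))) :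
    ∑ m ∈ PM k, line p lam T Z (u - Real.log m) =
      (1 / (2 * Real.pi)) * (Complex.exp ((0.605 : ℝ) * u) *
        ∫ t : ℝ, LF.gg p lam T Z t * (∑ v ∈ (PM k).image (fun m : ℕ => -Real.log m),
          ((Real.exp (0.605 * v) : ℝ) : ℂ) * Complex.exp (t * v * Complex.I)) * Complex.exp (t * u * Complex.I)) := by
  have hinj : Set.InjOn (fun m : ℕ => -Real.log (m : ℝ)) (PM k : Set ℕ) := by
    intro a ha b hb hab
    have ha' := (mem_PM ha).2.2.pos
    have hb' := (mem_PM hb).2.2.pos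
    have h1 : Real.log (a : ℝ) = Real.log b := by
      have : -Real.log (a : ℝ) = -Real.log b := hab
      (clear * - hab; linarith)
    have h2 := Real.log_injOn_pos (Set.mem_Ioi.2 (by exact_mod_cast ha' : (0 : ℝ) < a))
      (Set.mem_Ioi.2 (by exact_mod_cast hb' : (0 : ℝ) < b)) h1
    exact_mod_cast h2
  have e1 : ∀ m ∈ PM k, line p lam T Z (u - Real.log m) =
      (1 / (2 * Real.pi)) * (Complex.exp ((0.605 : ℝ) * u) *
        (((Real.exp (0.605 * (-Real.log m)) : ℝ) : ℂ) *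
          ∫ t : ℝ, LF.gg p lam T Z t * Complex.exp (t * (u - Real.log m : ℝ) * Complex.I))) := by
    intro m _
    rw [LF.line_eq hT]
    congr 1
    rw [← mul_assoc]
    congr 1
    · rw [Complex.ofReal_exp, ← Complex.exp_add]
      congr 1
      push_cast
      ring
  rw [Finset.sum_congr rfl e1, ← Finset.mul_sum, ← Finset.mul_sum]
  congr 2
  have e2 : ∀ t : ℝ, LF.gg p lam T Z t * (∑ v ∈ (PM k).image (fun m : ℕ => -Real.log m),
      ((Real.exp (0.605 * v) : ℝ) : ℂ) * Complex.exp (t * v * Complex.I)) * Complex.exp (t * u * Complex.I) =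
      ∑ m ∈ PM k, ((Real.exp (0.605 * (-Real.log m)) : ℝ) : ℂ) *
        (LF.gg p lam T Z t * Complex.exp (t * (u - Real.log m : ℝ) * Complex.I)) := by
    intro t
    rw [Finset.sum_image hinj, Finset.mul_sum, Finset.sum_mul]
    refine Finset.sum_congr rfl fun m _ => ?_
    have : Complex.exp (t * (u - Real.log m : ℝ) * Complex.I) =
        Complex.exp (t * ((-Real.log m : ℝ) : ℂ) * Complex.I) * Complex.exp (t * u * Complex.I) := by
      rw [← Complex.exp_add]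
      congr 1
      push_cast
      ring
    rw [this]
    ring
  simp only [e2]
  rw [integral_finsetSum _ (fun m _ => (hint _).const_mul _)]
  exact Finset.sum_congr rfl fun m _ => (integral_const_mul _ _).symm

/-- LineFewE2 -/
theorem lineFewE2 (hS1 : S1Lower) (hK : KFacts) (hG : GBound) : LineFewE2 := by
  obtain ⟨cS, hcS, KS1, hKS1⟩ := hS1
  obtain ⟨CK0, hCK0⟩ := hK.bound
  obtain ⟨CG, hCG0, hCG⟩ := hG
  set CK : ℝ := |CK0| + 1 with hCKd
  have hCK1 : 1 ≤ CK := by linarith [abs_nonneg CK0]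
  have hC0 := C0_pos
  intro p d hp hd hd1
  have hp' : (1 : ℝ) ≤ p := by exact_mod_cast hp
  set C' : ℝ := (200 / cS) ^ 2 * (CK ^ p * (CG * 36)) ^ 2 * (Real.pi * C0) ^ 2 * (16 * p) ^ 2 * 2 with hC'
  obtain ⟨K, hKk⟩ := exists_K6 C'
  refine ⟨max K (max KS1 1), ?_⟩
  intro k hk M Z hB
  have hkK : K ≤ k := (le_max_left _ _).trans hk
  have hkS : KS1 ≤ k := ((le_max_left _ _).trans (le_max_right _ _)).trans hk
  have hk1 : 1 ≤ k := ((le_max_right _ _).trans (le_max_right _ _)).trans hk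
  have hk1' : (1 : ℝ) ≤ k := by exact_mod_cast hk1
  have hS := hKS1 k hkS
  have hSpos : 0 < S1 k := lt_of_lt_of_le (by (clear * - hcS hk1; positivity)) hS
  set lam := lamk p d k with hlam
  have hl : 0 < lam := LF.lamk_pos hp d k
  have hl2 : lam ≤ 1/2 := LF.lamk_le hp d hd k
  set T : ℝ := 2 ^ (5 * k) with hTd
  have hT : 1 ≤ T := one_le_pow₀ (by norm_num)
  obtain ⟨hG1, -⟩ := hCG T M Z hT hB
  set L : ℝ := CG * (36 * (k : ℝ) ^ 2) with hLd
  have hL0 : 0 ≤ L := by positivity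
  have hlogT : (Real.log (T + 2)) ^ 2 ≤ 36 * (k : ℝ) ^ 2 := by
    have h1 := LF.logT k hk1
    have h2 : 0 ≤ Real.log (T + 2) := Real.log_nonneg (by (clear * - hd hd1 hT; linarith))
    calc (Real.log (T + 2)) ^ 2 ≤ (6 * (k : ℝ)) ^ 2 := by (clear * - h2 h1; gcongr)
      _ = _ := by ring
  set B : ℝ := CK ^ p * L with hBd
  have hB0 : 0 ≤ B := by (clear * - hCG0 hk1; positivity)
  have hgb := gg_bound' hp (lam := lam) (T := T) (CK := CK) (L := L) (Z := Z) (by (clear * - hCK1 hd hd1; linarith)) hL0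
    (by
      intro s h0 h2
      refine (hCK0 lam hl (by (clear * - hd hd1 hl2; linarith)) s h0 h2).trans ?_
      apply div_le_div_of_nonneg_right _ (by (clear * -; positivity))
      (clear * - hd hd1; linarith [le_abs_self CK0]))
    (by
      intro s h0 h2 h3
      refine (hG1 s h0 h2 h3).trans ?_
      rw [hLd]
      (clear * - hlogT hCG0; gcongr))
  have hgm : Measurable (LF.gg p lam T Z) := LF.gg_meas hl hB.diff
  have hint : ∀ v : ℝ, Integrable (fun t : ℝ => LF.gg p lam T Z t * Complex.exp (t * v * Complex.I)) := by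
    intro v
    have hgi : Integrable (LF.gg p lam T Z) := by
      refine ((Helper52.QRH.lorentz_integrable hl).const_mul B).mono' hgm.aestronglyMeasurable
        (Filter.Eventually.of_forall fun t => ?_)
      refine (hgb t).trans (le_of_eq ?_)
      ring
    refine hgi.mul_bdd (c := 1) (Continuous.aestronglyMeasurable (by fun_prop)) ?_
    refine Filter.Eventually.of_forall fun t => ?_
    have : (t * v * Complex.I : ℂ) = ((t * v : ℝ) : ℂ) * Complex.I := by push_cast; ring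
    rw [this, Complex.norm_exp_ofReal_mul_I]
  set F := (Finset.range (2 ^ (k - Pool.Agent.M17.Helper46.KSZ.ee d k))).filter (fun j =>
      1/100 * (2 : ℝ) ^ k * S1 k ≤ ‖∑ m ∈ PM k, line p lam T Z (uu d k j - Real.log m)‖) with hF
  have hFj : ∀ j ∈ F, j < 2 ^ (k - Pool.Agent.M17.Helper46.KSZ.ee d k) := by
    intro j hj
    exact Finset.mem_range.1 (Finset.mem_filter.1 hj).1
  have hinj : Set.InjOn (uu d k) F := by
    intro a ha b hb hab
    by_contra hne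
    have := LF.uu_abs hp d hd k a b hne (hFj a ha) (hFj b hb)
    rw [hab, sub_self, abs_zero] at this
    (clear * - hl this; linarith)
  set V : Finset ℝ := (PM k).image (fun m : ℕ => -Real.log m) with hV
  have hVsep : ∀ u ∈ V, ∀ u' ∈ V, u ≠ u' → lam ≤ |u - u'| := by
    intro u hu u' hu' hne
    obtain ⟨a, ha, rfl⟩ := Finset.mem_image.1 hu
    obtain ⟨b, hb, rfl⟩ := Finset.mem_image.1 hu'
    have hab : a ≠ b := fun h => hne (by rw [h])
    rcases lt_or_gt_of_ne hab with h | h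
    · refine (PM_sep hp hd ha hb h).trans ?_
      refine le_trans (le_of_eq ?_) (le_abs_self _)
      ring
    · refine (PM_sep hp hd hb ha h).trans ?_
      rw [abs_sub_comm]
      refine le_trans (le_of_eq ?_) (le_abs_self _)
      ring
  have hRsep : ∀ u ∈ F.image (uu d k), ∀ u' ∈ F.image (uu d k), u ≠ u' → lam ≤ |u - u'| := by
    intro u hu u' hu' hne
    obtain ⟨a, ha, rfl⟩ := Finset.mem_image.1 hu
    obtain ⟨b, hb, rfl⟩ := Finset.mem_image.1 hu'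
    exact LF.uu_abs hp d hd k a b (fun h => hne (by rw [h])) (hFj a ha) (hFj b hb)
  have hdual := duality2 hl (LF.gg p lam T Z) hgm hB0 hgb V hVsep
    (fun v => ((Real.exp (0.605 * v) : ℝ) : ℂ)) (F.image (uu d k)) hRsep
  rw [Finset.sum_image hinj, Finset.card_image_of_injOn hinj] at hdual
  -- the sum of squares
  have hinjV : Set.InjOn (fun m : ℕ => -Real.log (m : ℝ)) (PM k : Set ℕ) := by
    intro a ha b hb hab
    have ha' := (mem_PM ha).2.2.pos
    have hb' := (mem_PM hb).2.2.pos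
    have h1 : Real.log (a : ℝ) = Real.log b := by
      have : -Real.log (a : ℝ) = -Real.log b := hab
      (clear * - hab; linarith)
    have h2 := Real.log_injOn_pos (Set.mem_Ioi.2 (by exact_mod_cast ha' : (0 : ℝ) < a))
      (Set.mem_Ioi.2 (by exact_mod_cast hb' : (0 : ℝ) < b)) h1
    exact_mod_cast h2
  have hA : ∑ v ∈ V, ‖((Real.exp (0.605 * v) : ℝ) : ℂ)‖ ^ 2 ≤ 2 * (2 : ℝ) ^ (-(0.1039 : ℝ) * k) := by
    rw [hV, Finset.sum_image hinjV]
    refine le_trans (le_of_eq ?_) (sum_sq_PM k)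
    refine Finset.sum_congr rfl fun m hm => ?_
    have hm0 : (0 : ℝ) < m := by exact_mod_cast (mem_PM hm).2.2.pos
    rw [Complex.norm_real, Real.norm_of_nonneg (Real.exp_pos _).le, Real.rpow_def_of_pos hm0]
    congr 2
    ring
  -- lower bound for each term
  set E : ℝ := (2 : ℝ) ^ ((0.605 : ℝ) * k) with hE
  have hE0 : 0 < E := by positivity
  set v0 : ℝ := (2 : ℝ) ^ k * S1 k / (200 * E) with hv0
  have hv0p : 0 < v0 := by (clear * - hSpos; positivity)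
  have hlow : ∀ j ∈ F, v0 ≤
      ‖∫ t : ℝ, LF.gg p lam T Z t * (∑ v ∈ V, ((Real.exp (0.605 * v) : ℝ) : ℂ) *
        Complex.exp (t * v * Complex.I)) * Complex.exp (t * (uu d k j) * Complex.I)‖ := by
    intro j hj
    have h1 := (Finset.mem_filter.1 hj).2
    rw [sum_line k p (by (clear * - hd hd1 hT; linarith)) Z (uu d k j) hint, norm_mul, norm_mul, Complex.norm_exp] at h1
    have h1a : ‖(1 / (2 * (Real.pi : ℂ)))‖ ≤ 1 := by
      rw [norm_div, norm_one, norm_mul, Complex.norm_real, Real.norm_of_nonneg Real.pi_pos.le,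
        Complex.norm_ofNat, div_le_one (by positivity)]
      (clear * - hd hd1; linarith [Real.pi_gt_three])
    have h2 : (((0.605 : ℝ) : ℂ) * (uu d k j : ℂ)).re = 0.605 * uu d k j := by
      rw [← Complex.ofReal_mul, Complex.ofReal_re]
    rw [h2] at h1
    have h3 := LF.exp_uu d hd k j (hFj j hj)
    set I0 : ℝ := ‖∫ t : ℝ, LF.gg p lam T Z t * (∑ v ∈ V, ((Real.exp (0.605 * v) : ℝ) : ℂ) *
        Complex.exp (t * v * Complex.I)) * Complex.exp (t * (uu d k j) * Complex.I)‖ with hI0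
    rw [hv0, div_le_iff₀ (by positivity)]
    have h4 : ‖(1 / (2 * (Real.pi : ℂ)))‖ * (Real.exp (0.605 * uu d k j) * I0) ≤ 1 * ((2 * E) * I0) := by
      apply mul_le_mul h1a _ (by (clear * -; positivity)) (by norm_num)
      exact mul_le_mul_of_nonneg_right h3 (norm_nonneg _)
    (clear * - h1 h4; nlinarith)
  have hsum : (F.card : ℝ) * v0 ≤ ∑ j ∈ F,
      ‖∫ t : ℝ, LF.gg p lam T Z t * (∑ v ∈ V, ((Real.exp (0.605 * v) : ℝ) : ℂ) *
        Complex.exp (t * v * Complex.I)) * Complex.exp (t * (uu d k j) * Complex.I)‖ := by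
    rw [← nsmul_eq_mul]
    exact Finset.card_nsmul_le_sum _ _ _ hlow
  have hsq : ((F.card : ℝ) * v0) ^ 2 ≤ B ^ 2 * ((Real.pi / lam * C0) ^ 2 *
      (2 * (2 : ℝ) ^ (-(0.1039 : ℝ) * k)) * F.card) := by
    refine (pow_le_pow_left₀ (by (clear * - hSpos; positivity)) hsum 2).trans (hdual.trans ?_)
    (clear * - hA hl hC0 hCG0 hk1; gcongr)
  rcases Nat.eq_zero_or_pos F.card with h0 | hpos
  · rw [h0]
    simp only [Nat.cast_zero]
    positivity
  have hFc : (0 : ℝ) < F.card := by exact_mod_cast hpos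
  have h5 : (F.card : ℝ) * v0 ^ 2 ≤ B ^ 2 * ((Real.pi / lam * C0) ^ 2 *
      (2 * (2 : ℝ) ^ (-(0.1039 : ℝ) * k))) := by
    have : F.card * ((F.card : ℝ) * v0 ^ 2) ≤ F.card * (B ^ 2 * ((Real.pi / lam * C0) ^ 2 *
      (2 * (2 : ℝ) ^ (-(0.1039 : ℝ) * k)))) := by
      calc F.card * ((F.card : ℝ) * v0 ^ 2) = ((F.card : ℝ) * v0) ^ 2 := by ring
        _ ≤ _ := hsq
        _ = _ := by ring
    exact le_of_mul_le_mul_left this hFc
  have h6 := LF.inv_lamk hp d k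
  have hXk : (2 : ℝ) ^ k = (2 : ℝ) ^ (k : ℝ) := (Real.rpow_natCast _ _).symm
  have h7 : (Real.pi / lam * C0) ^ 2 ≤ (Real.pi * C0) ^ 2 * ((16 * p) ^ 2 * (2 : ℝ) ^ ((1 + 2 * d) * k)) := by
    have e : Real.pi / lam * C0 = (Real.pi * C0) * (1 / lam) := by ring
    rw [e, mul_pow]
    have h8 : (1 / lam) ^ 2 ≤ (16 * p) ^ 2 * (2 : ℝ) ^ ((1 + 2 * d) * k) := by
      calc (1 / lam) ^ 2 ≤ (16 * p * (2 : ℝ) ^ ((1/2 + d) * k)) ^ 2 :=
            pow_le_pow_left₀ (by (clear * - hl; positivity)) h6 2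
        _ = (16 * p) ^ 2 * (2 : ℝ) ^ ((1 + 2 * d) * k) := by
            rw [mul_pow, ← Real.rpow_natCast ((2 : ℝ) ^ ((1/2 + d) * k)), ← Real.rpow_mul (by norm_num)]
            congr 2
            push_cast
            ring
    exact mul_le_mul_of_nonneg_left h8 (by positivity)
  have h9 : (cS / 200) ^ 2 * ((2 : ℝ) ^ ((0.79 : ℝ) * k) / (k : ℝ) ^ 2) ≤ v0 ^ 2 := by
    have h10 : cS / 200 * ((2 : ℝ) ^ ((0.395 : ℝ) * k) / k) ≤ v0 := by
      rw [hv0, hE, hXk]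
      have e : (2 : ℝ) ^ (k : ℝ) = (2 : ℝ) ^ ((0.395 : ℝ) * k) * (2 : ℝ) ^ ((0.605 : ℝ) * k) := by
        rw [← Real.rpow_add (by norm_num)]
        congr 1
        ring
      rw [e]
      have e2 : (2 : ℝ) ^ ((0.395 : ℝ) * k) * (2 : ℝ) ^ ((0.605 : ℝ) * k) * S1 k /
          (200 * (2 : ℝ) ^ ((0.605 : ℝ) * k)) = (2 : ℝ) ^ ((0.395 : ℝ) * k) / 200 * S1 k := by
        field_simp
      rw [e2]
      calc cS / 200 * ((2 : ℝ) ^ ((0.395 : ℝ) * k) / k) = (2 : ℝ) ^ ((0.395 : ℝ) * k) / 200 * (cS / k) := by ring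
        _ ≤ _ := by (clear * - hS; gcongr)
    have e79 : (2 : ℝ) ^ ((0.79 : ℝ) * k) = ((2 : ℝ) ^ ((0.395 : ℝ) * k)) ^ 2 := by
      rw [← Real.rpow_natCast ((2 : ℝ) ^ ((0.395 : ℝ) * k)), ← Real.rpow_mul (by norm_num)]
      congr 1
      push_cast
      ring
    calc (cS / 200) ^ 2 * ((2 : ℝ) ^ ((0.79 : ℝ) * k) / (k : ℝ) ^ 2) =
        (cS / 200 * ((2 : ℝ) ^ ((0.395 : ℝ) * k) / k)) ^ 2 := by
          rw [e79]; ring
      _ ≤ v0 ^ 2 := pow_le_pow_left₀ (by positivity) h10 2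
  have h11 : (F.card : ℝ) * ((cS / 200) ^ 2 * ((2 : ℝ) ^ ((0.79 : ℝ) * k) / (k : ℝ) ^ 2)) ≤
      B ^ 2 * ((Real.pi * C0) ^ 2 * ((16 * p) ^ 2 * (2 : ℝ) ^ ((1 + 2 * d) * k)) *
      (2 * (2 : ℝ) ^ (-(0.1039 : ℝ) * k))) := by
    refine (mul_le_mul_of_nonneg_left h9 hFc.le).trans (h5.trans ?_)
    (clear * - h7 hCG0 hk1; gcongr)
  have h12 : (F.card : ℝ) ≤ C' * (k : ℝ) ^ 6 * (2 : ℝ) ^ ((0.1061 + 2 * d) * k) := by
    have hpos2 : 0 < (cS / 200) ^ 2 * ((2 : ℝ) ^ ((0.79 : ℝ) * k) / (k : ℝ) ^ 2) := by (clear * - hcS hk1; positivity)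
    rw [← le_div_iff₀ hpos2] at h11
    refine h11.trans (le_of_eq ?_)
    have e3 : (2 : ℝ) ^ ((1 + 2 * d) * k) * (2 : ℝ) ^ (-(0.1039 : ℝ) * k) =
        (2 : ℝ) ^ ((0.1061 + 2 * d) * k) * (2 : ℝ) ^ ((0.79 : ℝ) * k) := by
      rw [← Real.rpow_add (by norm_num), ← Real.rpow_add (by norm_num)]
      congr 1
      ring
    rw [div_eq_iff hpos2.ne']
    have hk0 : (k : ℝ) ≠ 0 := by positivity
    calc B ^ 2 * ((Real.pi * C0) ^ 2 * ((16 * p) ^ 2 * (2 : ℝ) ^ ((1 + 2 * d) * k)) *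
      (2 * (2 : ℝ) ^ (-(0.1039 : ℝ) * k))) = B ^ 2 * ((Real.pi * C0) ^ 2 * (16 * p) ^ 2 * 2) *
        ((2 : ℝ) ^ ((1 + 2 * d) * k) * (2 : ℝ) ^ (-(0.1039 : ℝ) * k)) := by ring
      _ = B ^ 2 * ((Real.pi * C0) ^ 2 * (16 * p) ^ 2 * 2) * ((2 : ℝ) ^ ((0.1061 + 2 * d) * k) *
        (2 : ℝ) ^ ((0.79 : ℝ) * k)) := by rw [e3]
      _ = _ := by
        rw [hC', hBd, hLd]
        (clear * - hcS hp hC0 hk0 hCG0 hCK1; field_simp)
  refine h12.trans ?_
  calc C' * (k : ℝ) ^ 6 * (2 : ℝ) ^ ((0.1061 + 2 * d) * k) ≤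
      (2 : ℝ) ^ ((0.01 : ℝ) * k) * (2 : ℝ) ^ ((0.1061 + 2 * d) * k) := by
        gcongr
        exact hKk k hkK
    _ = (2 : ℝ) ^ ((0.1161 + 2 * d) * k) := by
        rw [← Real.rpow_add (by norm_num)]
        congr 1
        ring
    _ ≤ (2 : ℝ) ^ ((0.12 + 5 * d) * k) := by
        apply Real.rpow_le_rpow_of_exponent_le (by norm_num)
        apply mul_le_mul_of_nonneg_right _ (by (clear * - hk1; positivity))
        (clear * - hd hd1; linarith)

end Pool.Agent.M17.Helper60.KE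
end

/- Helper53.KN.Helper60.KE.St -/
section
/-! CountE2: the prime side of the explicit formula with the factor `P(s)`. -/

set_option autoImplicit false

namespace Pool.Agent.M17.Helper60.KE

open Pool.Agent.M17.Helper10.QRH Pool.Agent.M17.Helper69.QRH Pool.Agent.M17.Helper46.KSZ
open Pool.Agent.M17.Helper60.KS (PM S1 nE2)

/-- a cell with few numbers `q m` makes the prime side small -/
def PrimeSideE2 : Prop := ∀ (p : ℕ) (d : ℝ), 1 ≤ p → 0 < d → d ≤ 1/100 → ∃ c0 : ℝ, 0 < c0 ∧ ∃ K : ℕ,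
  ∀ k : ℕ, K ≤ k → ∀ j < 2 ^ (k - Pool.Agent.M17.Helper46.KSZ.ee d k), (nE2 k (Pool.Agent.M17.Helper46.KSZ.ee d k) j : ℝ) < c0 * 2 ^ Pool.Agent.M17.Helper46.KSZ.ee d k / (k : ℝ) ^ 2 →
    ∑ m ∈ PM k, (∑' n : ℕ, ArithmeticFunction.vonMangoldt n *
      ker (lamk p d k) (p - 1) (uu d k j - Real.log m - Real.log n)) ≤ 1/8 * (2 : ℝ) ^ k * S1 k

end Pool.Agent.M17.Helper60.KE
end

/- Helper53.KN.Helper60.KE.Assembly -/
section
/-! CountE2: assembly of the explicit formula with the factor `P(s)`: `BadZeroE2`. -/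

set_option autoImplicit false
open Filter Topology MeasureTheory Complex
open scoped Classical

namespace Pool.Agent.M17.Helper60.KE

open Pool.Agent.M17.Helper10.QRH Pool.Agent.M17.Helper69.QRH Pool.Agent.M17.Helper46.KSZ
open Pool.Agent.M17.Helper60.KS (PM S1 nE2 DP gP S1Lower)

lemma ev_cube (A : ℝ) : ∃ K : ℕ, ∀ k : ℕ, K ≤ k → A * (k : ℝ) ^ 3 ≤ (2 : ℝ) ^ ((0.5 : ℝ) * k) := by
  have hr : 1 < (2 : ℝ) ^ (0.5 : ℝ) := Real.one_lt_rpow (by norm_num) (by norm_num)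
  have h1 := (tendsto_pow_const_div_const_pow_of_one_lt 3 hr).const_mul A
  rw [mul_zero] at h1
  have h2 := h1.eventually (gt_mem_nhds (one_pos : (0 : ℝ) < 1))
  obtain ⟨K, hK⟩ := Filter.eventually_atTop.1 h2
  refine ⟨K, fun k hk => ?_⟩
  have h3 := hK k hk
  have h4 : (0 : ℝ) < ((2 : ℝ) ^ (0.5 : ℝ)) ^ k := by positivity
  rw [← mul_div_assoc, div_lt_one h4] at h3
  rw [Real.rpow_mul (by norm_num), Real.rpow_natCast]
  exact h3.le

/-- `2^(em k) ≤ 2^(k/2)` -/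
lemma pow_em_le (k : ℕ) : (2 : ℝ) ^ KS.em k ≤ (2 : ℝ) ^ ((0.5 : ℝ) * k) := by
  rw [← Real.rpow_natCast]
  apply Real.rpow_le_rpow_of_exponent_le (by norm_num)
  have := (em_bounds k).2
  have hk : (0 : ℝ) ≤ k := k.cast_nonneg
  linarith

/-- numerical error of the shifted formula -/
lemma err_small2 (C cS : ℝ) (hC : 0 < C) (hcS : 0 < cS) (p : ℕ) (hp : 1 ≤ p) (d : ℝ) (hd : 0 < d) :
    ∃ K : ℕ, ∀ k : ℕ, K ≤ k → cS / k ≤ S1 k → ∀ u : ℝ, Real.exp u ≤ 2 * 2 ^ k →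
      2 ^ KS.em k * (C * Real.exp (2 * (u + ((p - 1 : ℕ) : ℝ) * lamk p d k)) *
        (Real.log ((2 : ℝ) ^ (5 * k) + 2)) ^ 2 / (lamk p d k ^ 2 * 2 ^ (5 * k))) ≤ 1/100 * 2 ^ k * S1 k := by
  obtain ⟨K, hK⟩ := ev_cube (C * 8 * 25 * 64 * p ^ 2 * 100 / cS)
  refine ⟨max K 1, fun k hk hS u hu => ?_⟩
  have hkK : K ≤ k := le_trans (le_max_left _ _) hk
  have hk1 : 1 ≤ k := le_trans (le_max_right _ _) hk
  have hk1r : (1 : ℝ) ≤ k := by exact_mod_cast hk1
  have hpr : (1 : ℝ) ≤ p := by exact_mod_cast hp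
  have hSp : 0 < S1 k := lt_of_lt_of_le (by (clear * - hcS hk1; positivity)) hS
  set X : ℝ := (2 : ℝ) ^ k with hX
  have hX1 : 1 ≤ X := one_le_pow₀ (by norm_num)
  have hX0 : 0 < X := by (clear * - hX1; linarith)
  set H : ℝ := (2 : ℝ) ^ Pool.Agent.M17.Helper46.KSZ.ee d k with hH
  have hH1 : 1 ≤ H := one_le_pow₀ (by norm_num)
  have hHX : H ≤ X := pow_le_pow_right₀ (by norm_num) (ee_le hd k)
  have hlam : lamk p d k = H / (8 * p * X) := rfl
  have hlam0 : 0 < lamk p d k := by rw [hlam]; positivity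
  have hpl : ((p - 1 : ℕ) : ℝ) * lamk p d k ≤ 1 / 8 := by
    have h1 : ((p - 1 : ℕ) : ℝ) ≤ p := by exact_mod_cast Nat.sub_le p 1
    calc ((p - 1 : ℕ) : ℝ) * lamk p d k ≤ p * (H / (8 * p * X)) := by
          rw [hlam]; gcongr
      _ = H / X / 8 := by field_simp
      _ ≤ 1 / 8 := by
          have : H / X ≤ 1 := by rw [div_le_one hX0]; exact hHX
          (clear * - this; linarith)
  have hexp : Real.exp (2 * (u + ((p - 1 : ℕ) : ℝ) * lamk p d k)) ≤ 8 * X ^ 2 := by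
    have h1 : Real.exp (2 * (u + ((p - 1 : ℕ) : ℝ) * lamk p d k)) =
        Real.exp u ^ 2 * Real.exp (2 * (((p - 1 : ℕ) : ℝ) * lamk p d k)) := by
      rw [← Real.exp_nat_mul, ← Real.exp_add]; congr 1; push_cast; ring
    have h2 : Real.exp (2 * (((p - 1 : ℕ) : ℝ) * lamk p d k)) ≤ 2 := by
      have h3 : Real.exp (2 * (((p - 1 : ℕ) : ℝ) * lamk p d k)) ≤ Real.exp (1 / 2) :=
        Real.exp_le_exp.2 (by (clear * - hpl; linarith))
      have h4 : Real.exp (1 / 2 : ℝ) ^ 2 ≤ 2 ^ 2 := by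
        rw [← Real.exp_nat_mul]
        have := Real.exp_one_lt_d9
        norm_num
        (clear * - this; linarith)
      have h5 := Real.exp_pos (1/2 : ℝ)
      (clear * - h3 h4 h5; nlinarith)
    have h6 : Real.exp u ^ 2 ≤ (2 * X) ^ 2 := pow_le_pow_left₀ (Real.exp_pos _).le hu 2
    rw [h1]
    have h7 := Real.exp_pos (2 * (((p - 1 : ℕ) : ℝ) * lamk p d k))
    (clear * - h6 h2; nlinarith [sq_nonneg (Real.exp u)])
  have hlog : (Real.log ((2 : ℝ) ^ (5 * k) + 2)) ^ 2 ≤ 25 * (k : ℝ) ^ 2 := by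
    have h1 : (2 : ℝ) ^ (5 * k) + 2 ≤ 2 ^ (5 * k + 1) := by
      have : (2 : ℝ) ^ 1 ≤ 2 ^ (5 * k) := pow_le_pow_right₀ (by norm_num) (by omega)
      rw [pow_succ]
      (clear * - this; linarith)
    have h2 : Real.log ((2 : ℝ) ^ (5 * k) + 2) ≤ 5 * k := by
      have h3 := Real.log_le_log (by positivity) h1
      rw [Real.log_pow] at h3
      push_cast at h3
      have h4 := Real.log_two_lt_d9
      have h5 : (5 * (k : ℝ) + 1) * Real.log 2 ≤ (5 * k + 1) * 0.7 := by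
        gcongr
        (clear * - h4; linarith)
      linarith
    have h6 : 0 ≤ Real.log ((2 : ℝ) ^ (5 * k) + 2) := Real.log_nonneg (by
      have : (0 : ℝ) < 2 ^ (5 * k) := by positivity
      (clear * - this; linarith))
    (clear * - h2 h6; nlinarith)
  have hT : (2 : ℝ) ^ (5 * k) = X ^ 5 := by rw [hX, ← pow_mul, mul_comm]
  have hden : 1 / (64 * p ^ 2) * X ^ 3 ≤ lamk p d k ^ 2 * 2 ^ (5 * k) := by
    rw [hT, hlam]
    have : (H / (8 * p * X)) ^ 2 * X ^ 5 = H ^ 2 * (1 / (64 * p ^ 2) * X ^ 3) := by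
      field_simp
      ring
    rw [this]
    have h1 : 1 ≤ H ^ 2 := one_le_pow₀ hH1
    have h2 : 0 ≤ 1 / (64 * (p : ℝ) ^ 2) * X ^ 3 := by positivity
    (clear * - h1 h2; nlinarith)
  have hden0 : 0 < lamk p d k ^ 2 * 2 ^ (5 * k) := by positivity
  have hq : C * Real.exp (2 * (u + ((p - 1 : ℕ) : ℝ) * lamk p d k)) *
        (Real.log ((2 : ℝ) ^ (5 * k) + 2)) ^ 2 / (lamk p d k ^ 2 * 2 ^ (5 * k)) ≤
        C * 8 * 25 * 64 * p ^ 2 * k ^ 2 / X := by
    rw [div_le_iff₀ hden0]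
    calc C * Real.exp (2 * (u + ((p - 1 : ℕ) : ℝ) * lamk p d k)) *
          (Real.log ((2 : ℝ) ^ (5 * k) + 2)) ^ 2 ≤ C * (8 * X ^ 2) * (25 * (k : ℝ) ^ 2) := by
          (clear * - hexp hC hlog; gcongr)
      _ = C * 8 * 25 * 64 * p ^ 2 * k ^ 2 / X * (1 / (64 * p ^ 2) * X ^ 3) := by
          (clear * - hp hk1 hX1 hC; field_simp)
      _ ≤ C * 8 * 25 * 64 * p ^ 2 * k ^ 2 / X * (lamk p d k ^ 2 * 2 ^ (5 * k)) := by gcongr
  have hmain := hK k hkK
  have hMX : (2 : ℝ) ^ KS.em k ≤ (2 : ℝ) ^ ((0.5 : ℝ) * k) := pow_em_le k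
  have hXX : (2 : ℝ) ^ ((0.5 : ℝ) * k) * (2 : ℝ) ^ ((0.5 : ℝ) * k) = X := by
    rw [← Real.rpow_add (by norm_num), hX, ← Real.rpow_natCast]
    congr 1
    ring
  set Y : ℝ := (2 : ℝ) ^ ((0.5 : ℝ) * k) with hY
  have hY1 : 1 ≤ Y := Real.one_le_rpow (by norm_num) (by positivity)
  have hY0 : 0 < Y := by (clear * - hY1; linarith)
  calc 2 ^ KS.em k * (C * Real.exp (2 * (u + ((p - 1 : ℕ) : ℝ) * lamk p d k)) *
        (Real.log ((2 : ℝ) ^ (5 * k) + 2)) ^ 2 / (lamk p d k ^ 2 * 2 ^ (5 * k))) ≤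
        Y * (C * 8 * 25 * 64 * p ^ 2 * k ^ 2 / X) := by
        apply mul_le_mul hMX hq (by (clear * - hC hlam0; positivity)) hY0.le
    _ = (C * 8 * 25 * 64 * p ^ 2 * 100 / cS * (k : ℝ) ^ 3) * (1 / 100 * (cS / k)) / Y := by
        rw [← hXX]
        (clear * - hcS hk1 hp hC hY1; field_simp)
    _ ≤ Y * (1 / 100 * (cS / k)) / Y := by (clear * - hmain hcS hk1; gcongr)
    _ = 1 / 100 * (cS / k) := by (clear * - hY1 hk1 hcS; field_simp)
    _ ≤ 1 / 100 * S1 k := by (clear * - hS; gcongr)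
    _ ≤ 1 / 100 * X * S1 k := by (clear * - hSp hX1; nlinarith)

/-- explicit formula for the cells, with the factor `P(ρ)` -/
def ExplicitE2 : Prop := ∀ d : ℝ, 0 < d → d ≤ 1/100 → ∃ c₀ : ℝ, 0 < c₀ ∧ ∃ K : ℕ, ∀ k : ℕ, K ≤ k →
  ∃ (c : ℂ → ℂ) (Ex : Finset ℕ), (∀ ρ : ℂ, 0 ≤ ρ.re → ρ.re ≤ 1 → ‖c ρ‖ ≤ 2) ∧
    (Ex.card : ℝ) ≤ (2 : ℝ) ^ ((0.12 + 5 * d) * k) ∧
    ∀ j < 2 ^ (k - Pool.Agent.M17.Helper46.KSZ.ee d k), j ∉ Ex → (nE2 k (Pool.Agent.M17.Helper46.KSZ.ee d k) j : ℝ) < c₀ * 2 ^ Pool.Agent.M17.Helper46.KSZ.ee d k / (k : ℝ) ^ 2 →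
      ∀ S : Finset ℂ, (∀ ρ, ρ ∈ S ↔ ρ ∈ zeroSet d k) →
      1/2 * S1 k ≤ ‖∑ ρ ∈ S, (analyticOrderNatAt riemannZeta ρ : ℂ) * c ρ * DP gP (2 ^ KS.em k) 2 ρ *
        Complex.exp ((ρ - 1) * uu d k j)‖

lemma DP_eq (k : ℕ) (s : ℂ) : DP gP (2 ^ KS.em k) 2 s = ∑ m ∈ PM k, (m : ℂ) ^ (-s) := by
  unfold DP PM gP
  rw [Finset.sum_filter]
  refine Finset.sum_congr rfl fun m _ => ?_
  split_ifs <;> simp

lemma exp_sub_log {m : ℕ} (hm : 0 < m) (s : ℂ) (u : ℝ) :
    Complex.exp (s * ((u - Real.log m : ℝ) : ℂ)) = Complex.exp (s * u) * (m : ℂ) ^ (-s) := by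
  have hm' : (m : ℂ) ≠ 0 := by exact_mod_cast hm.ne'
  rw [Complex.cpow_def_of_ne_zero hm', ← Complex.exp_add]
  congr 1
  rw [← Complex.natCast_log]
  push_cast
  ring

lemma norm_DP_le (k : ℕ) {s : ℂ} (hs : 0 ≤ s.re) : ‖DP gP (2 ^ KS.em k) 2 s‖ ≤ 2 ^ KS.em k := by
  rw [DP_eq]
  refine (norm_sum_le _ _).trans ?_
  have h1 : ∀ m ∈ PM k, ‖(m : ℂ) ^ (-s)‖ ≤ 1 := by
    intro m hm
    have hm0 := (mem_PM hm).2.2.one_lt
    rw [Complex.norm_natCast_cpow_of_pos (by omega)]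
    apply Real.rpow_le_one_of_one_le_of_nonpos
    · exact_mod_cast hm0.le
    · simpa using hs
  refine (Finset.sum_le_card_nsmul _ _ _ h1).trans ?_
  rw [nsmul_eq_mul, mul_one]
  exact_mod_cast card_PM k

theorem explicitE2 (hS1 : S1Lower) (h1 : BoxExists) (h9 : ShiftIter) (h10 : PrimeSideE2) (h11 : LineFewE2)
    (h12 : HighZeros) : ExplicitE2 := by
  intro d hd hd1
  obtain ⟨cS, hcS, KS1, hKS1⟩ := hS1
  obtain ⟨p, hp, K12, hK12⟩ := h12 d hd hd1
  obtain ⟨c10, hc10, K10, hK10⟩ := h10 p d hp hd hd1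
  obtain ⟨K11, hK11⟩ := h11 p d hp hd hd1
  obtain ⟨C, hC, hC9⟩ := h9
  obtain ⟨Ke, hKe⟩ := err_small2 C cS hC hcS p hp d hd
  obtain ⟨Kc, hKc⟩ := ev_cube (100 / cS)
  have hpr : (1 : ℝ) ≤ p := by exact_mod_cast hp
  refine ⟨c10, hc10, max (max K12 K10) (max (max K11 Ke) (max (max KS1 Kc) 10)), fun k hk => ?_⟩
  have hkA : K12 ≤ k := le_trans (le_trans (le_max_left _ _) (le_max_left _ _)) hk
  have hkB : K10 ≤ k := le_trans (le_trans (le_max_right _ _) (le_max_left _ _)) hk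
  have hkC : K11 ≤ k := le_trans (le_trans (le_trans (le_max_left _ _) (le_max_left _ _)) (le_max_right _ _)) hk
  have hkD : Ke ≤ k := le_trans (le_trans (le_trans (le_max_right _ _) (le_max_left _ _)) (le_max_right _ _)) hk
  have hkX : max (max KS1 Kc) 10 ≤ k := le_trans (le_trans (le_max_right _ _) (le_max_right _ _)) hk
  have hkF : KS1 ≤ k := le_trans (le_trans (le_max_left _ _) (le_max_left _ _)) hkX
  have hkG : Kc ≤ k := le_trans (le_trans (le_max_right _ _) (le_max_left _ _)) hkX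
  have hkE : 10 ≤ k := le_trans (le_max_right _ _) hkX
  have hSk := hKS1 k hkF
  have hkr : (10 : ℝ) ≤ k := by exact_mod_cast hkE
  have hSp : 0 < S1 k := lt_of_lt_of_le (by positivity) hSk
  set X : ℝ := (2 : ℝ) ^ k with hX
  have hX10 : (1000 : ℝ) ≤ X := by
    have : (2 : ℝ) ^ 10 ≤ 2 ^ k := pow_le_pow_right₀ (by norm_num) hkE
    rw [hX]; norm_num at this ⊢; (clear * - hd hd1 this; linarith)
  have hX0 : 0 < X := by (clear * - hd hd1 hX10; linarith)
  have hX1 : 1 ≤ X := by (clear * - hd hd1 hX10; linarith)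
  have hXk : ((2 ^ k : ℕ) : ℝ) = X := by push_cast; rfl
  obtain ⟨M, Z, hBox⟩ := h1 (2 ^ (5 * k)) (by positivity)
  set T : ℝ := (2 : ℝ) ^ (5 * k) with hT
  have hT1 : 1 ≤ T := one_le_pow₀ (by norm_num)
  set lam : ℝ := lamk p d k with hlam
  set H : ℝ := (2 : ℝ) ^ Pool.Agent.M17.Helper46.KSZ.ee d k with hH
  have hH1 : 1 ≤ H := one_le_pow₀ (by norm_num)
  have hHX : H ≤ X := pow_le_pow_right₀ (by norm_num) (ee_le hd k)
  have hlamE : lam = H / (8 * p * X) := rfl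
  have hlam0 : 0 < lam := by rw [hlamE]; positivity
  have hplam : p * lam ≤ 1 / 8 := by
    rw [hlamE]
    have : (p : ℝ) * (H / (8 * p * X)) = H / X / 8 := by field_simp
    rw [this]
    have : H / X ≤ 1 := by rw [div_le_one hX0]; exact hHX
    (clear * - this; linarith)
  have hlam1 : lam ≤ 1 := by (clear * - hd hd1 hpr hplam; nlinarith)
  refine ⟨fun ρ => KK lam ρ ^ p, (Finset.range (2 ^ (k - Pool.Agent.M17.Helper46.KSZ.ee d k))).filter (fun j =>
      1/100 * (2 : ℝ) ^ k * S1 k ≤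
        ‖∑ m ∈ PM k, line p (lamk p d k) (2 ^ (5 * k)) Z (uu d k j - Real.log m)‖), ?_,
      hK11 k hkC M Z hBox, ?_⟩
  · intro ρ hρ0 hρ1
    rw [norm_pow]
    have h2 := KK_norm_le hlam0 ρ
    have h3 : |ρ.re| ≤ 1 := abs_le.2 ⟨by (clear * - hd hd1 hρ0; linarith), hρ1⟩
    calc ‖KK lam ρ‖ ^ p ≤ (Real.exp (lam * |ρ.re|)) ^ p := pow_le_pow_left₀ (norm_nonneg _) h2 p
      _ = Real.exp (p * (lam * |ρ.re|)) := by rw [Real.exp_nat_mul]
      _ ≤ Real.exp (1 / 2) := by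
          apply Real.exp_le_exp.2
          have : (p : ℝ) * (lam * |ρ.re|) = (p * lam) * |ρ.re| := by ring
          rw [this]
          have := abs_nonneg ρ.re
          (clear * - hd1 h3 hd hplam this; nlinarith)
      _ ≤ 2 := by
          have h4 : Real.exp (1 / 2 : ℝ) ^ 2 ≤ 2 ^ 2 := by
            rw [← Real.exp_nat_mul]
            have := Real.exp_one_lt_d9
            norm_num
            (clear * - hd hd1 this; linarith)
          have h5 := Real.exp_pos (1/2 : ℝ)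
          (clear * - h4 hd hd1 h5; nlinarith)
  intro j hj hjE hfew S hS
  set u : ℝ := uu d k j with hu
  -- the centre
  set y : ℕ := 2 ^ k + j * 2 ^ Pool.Agent.M17.Helper46.KSZ.ee d k with hy
  have hyX : X ≤ y := by
    rw [← hXk]
    exact_mod_cast (by rw [hy]; exact Nat.le_add_right _ _ : 2 ^ k ≤ y)
  have hek := ee_le hd k
  have hy2 : (y : ℝ) + H ≤ 2 * X := by
    have h2 : y + 2 ^ Pool.Agent.M17.Helper46.KSZ.ee d k ≤ 2 ^ (k + 1) := by
      have h3 : (j + 1) * 2 ^ Pool.Agent.M17.Helper46.KSZ.ee d k ≤ 2 ^ (k - Pool.Agent.M17.Helper46.KSZ.ee d k) * 2 ^ Pool.Agent.M17.Helper46.KSZ.ee d k := Nat.mul_le_mul_right _ hj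
      rw [← pow_add, Nat.sub_add_cancel hek] at h3
      rw [pow_succ, hy]
      have h4 : (j + 1) * 2 ^ Pool.Agent.M17.Helper46.KSZ.ee d k = j * 2 ^ Pool.Agent.M17.Helper46.KSZ.ee d k + 2 ^ Pool.Agent.M17.Helper46.KSZ.ee d k := by ring
      omega
    have h3 : ((y + 2 ^ Pool.Agent.M17.Helper46.KSZ.ee d k : ℕ) : ℝ) ≤ ((2 ^ (k + 1) : ℕ) : ℝ) := by exact_mod_cast h2
    push_cast at h3
    rw [pow_succ] at h3
    rw [hH, hX]
    (clear * - h3; linarith)
  have heu : Real.exp u = (y : ℝ) + H / 2 := by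
    rw [hu]
    unfold uu
    rw [Real.exp_log (by (clear * -; positivity))]
  have heuX : X ≤ Real.exp u := by rw [heu]; (clear * - hd hd1 hH1 hyX; linarith)
  have heuX2 : Real.exp u ≤ 2 * X := by rw [heu]; (clear * - hd hd1 hH1 hy2; linarith)
  have hu1 : 1 + ((p - 1 : ℕ) : ℝ) * lam ≤ u := by
    have h2 : ((p - 1 : ℕ) : ℝ) ≤ p := by exact_mod_cast Nat.sub_le p 1
    have h3 : ((p - 1 : ℕ) : ℝ) * lam ≤ 1 / 8 := (mul_le_mul_of_nonneg_right h2 hlam0.le).trans hplam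
    have h4 : (2 : ℝ) ≤ u := by
      by_contra hc
      have h5 : Real.exp u < Real.exp 2 := Real.exp_lt_exp.2 (not_le.1 hc)
      have h6 : Real.exp 2 ≤ 9 := by
        have h7 : Real.exp 2 = Real.exp 1 ^ 2 := by rw [← Real.exp_nat_mul]; norm_num
        rw [h7]
        have h8 := Real.exp_one_lt_d9
        have h9 := Real.exp_pos 1
        (clear * - hd1 hX10 hH1 hyX heu h7 hd h5 h8 h9; nlinarith)
      (clear * - hd hd1 hX10 hH1 hyX heu h5 h6; linarith)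
    (clear * - hd hd1 h3 h4; linarith)
  have hp1 : p - 1 + 1 = p := Nat.sub_add_cancel hp
  have hexp8 : (8 : ℝ) ≤ X ^ (1 : ℕ) := by rw [pow_one]; (clear * - hd hd1 hX10; linarith)
  -- the shifted points
  have hum : ∀ m ∈ PM k, 1 + ((p - 1 : ℕ) : ℝ) * lam ≤ u - Real.log m := by
    intro m hm
    obtain ⟨a1, a2, a3⟩ := mem_PM hm
    have hm0 : (0 : ℝ) < m := by exact_mod_cast a3.pos
    have h2 : ((p - 1 : ℕ) : ℝ) ≤ p := by exact_mod_cast Nat.sub_le p 1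
    have h3 : ((p - 1 : ℕ) : ℝ) * lam ≤ 1 / 8 := (mul_le_mul_of_nonneg_right h2 hlam0.le).trans hplam
    have h4 : (m : ℝ) ≤ 2 ^ (KS.em k + 1) := by
      rw [pow_succ, mul_comm]; exact_mod_cast a2
    have h5 : Real.log m ≤ (KS.em k + 1 : ℕ) * Real.log 2 := by
      have := Real.log_le_log hm0 h4
      rwa [Real.log_pow] at this
    have h6 : (k : ℝ) * Real.log 2 ≤ u := by
      have h7 : Real.log X ≤ u := by
        rw [Real.log_le_iff_le_exp hX0]; exact heuX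
      rwa [hX, Real.log_pow] at h7
    have h8 := (em_bounds k).2
    have h9 := Real.log_two_gt_d9
    push_cast at h5
    have h10 : ((k : ℝ) - (KS.em k + 1)) * Real.log 2 ≥ 4 * Real.log 2 := by
      apply mul_le_mul_of_nonneg_right _ (by (clear * - hd hd1 h9; linarith))
      (clear * - hd hd1 hkr h8; linarith)
    (clear * - hd hd1 h3 h6 h9 h5 h10; linarith)
  have hformm : ∀ m ∈ PM k, ‖lhs (ker lam (p - 1)) p lam M (u - Real.log m) -
      line p lam T Z (u - Real.log m)‖ ≤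
      C * Real.exp (2 * (u + ((p - 1 : ℕ) : ℝ) * lam)) * (Real.log (T + 2)) ^ 2 / (lam ^ 2 * T) := by
    intro m hm
    have hform := hC9 T M Z hT1 hBox lam (u - Real.log m) (p - 1) hlam0 hlam1 (hum m hm)
    rw [hp1] at hform
    refine hform.trans ?_
    have hm0 : (1 : ℝ) ≤ m := by exact_mod_cast (mem_PM hm).2.2.pos
    have hlogm : 0 ≤ Real.log m := Real.log_nonneg hm0
    have hexp : Real.exp (2 * (u - Real.log m + ((p - 1 : ℕ) : ℝ) * lam)) ≤
        Real.exp (2 * (u + ((p - 1 : ℕ) : ℝ) * lam)) := Real.exp_le_exp.2 (by (clear * - hlogm; linarith))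
    (clear * - hexp hC hlam0; gcongr)
  have herr := hKe k hkD hSk u heuX2
  have hform2 : ‖∑ m ∈ PM k, lhs (ker lam (p - 1)) p lam M (u - Real.log m) -
      ∑ m ∈ PM k, line p lam T Z (u - Real.log m)‖ ≤ 1/100 * X * S1 k := by
    rw [← Finset.sum_sub_distrib]
    refine (norm_sum_le _ _).trans ((Finset.sum_le_card_nsmul _ _ _ hformm).trans ?_)
    rw [nsmul_eq_mul]
    refine le_trans (mul_le_mul_of_nonneg_right ?_ ?_) herr
    · exact_mod_cast card_PM k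
    · (clear * - hC hlam0; positivity)
  have hline : ‖∑ m ∈ PM k, line p lam T Z (u - Real.log m)‖ < 1/100 * X * S1 k := by
    by_contra hc
    apply hjE
    rw [Finset.mem_filter, Finset.mem_range]
    exact ⟨hj, not_lt.1 hc⟩
  have hlhs : ‖∑ m ∈ PM k, lhs (ker lam (p - 1)) p lam M (u - Real.log m)‖ ≤ 1/50 * X * S1 k := by
    have := norm_add_le (∑ m ∈ PM k, lhs (ker lam (p - 1)) p lam M (u - Real.log m) -
      ∑ m ∈ PM k, line p lam T Z (u - Real.log m)) (∑ m ∈ PM k, line p lam T Z (u - Real.log m))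
    rw [sub_add_cancel] at this
    (clear * - hform2 hline this; linarith)
  have hprime := hK10 k hkB j hj hfew
  set P : ℝ := ∑ m ∈ PM k, ∑' n : ℕ, ArithmeticFunction.vonMangoldt n *
    ker lam (p - 1) (u - Real.log m - Real.log n) with hP
  have hP8 : P ≤ 1/8 * X * S1 k := hprime
  obtain ⟨κ, hκ, hκe⟩ := KK_one_ge hlam0
  have hκp : 1 ≤ κ ^ p := one_le_pow₀ hκ
  set PP : ℂ → ℂ := fun ρ => DP gP (2 ^ KS.em k) 2 ρ with hPP
  have hS1e : ∑ m ∈ PM k, Real.exp (u - Real.log m) = Real.exp u * S1 k := by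
    unfold S1
    rw [Finset.mul_sum]
    refine Finset.sum_congr rfl fun m hm => ?_
    have hm0 : (0 : ℝ) < m := by exact_mod_cast (mem_PM hm).2.2.pos
    rw [Real.exp_sub, Real.exp_log hm0]
    ring
  have hms : ∀ N : Multiset ℂ, ∑ m ∈ PM k, (N.map (fun ρ => Complex.exp (ρ * ((u - Real.log m : ℝ) : ℂ)) *
      KK lam ρ ^ p)).sum = (N.map (fun ρ => Complex.exp (ρ * u) * PP ρ * KK lam ρ ^ p)).sum := by
    intro N
    have hone : ∀ ρ : ℂ, ∑ m ∈ PM k, Complex.exp (ρ * ((u - Real.log m : ℝ) : ℂ)) * KK lam ρ ^ p =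
        Complex.exp (ρ * u) * PP ρ * KK lam ρ ^ p := by
      intro ρ
      rw [← Finset.sum_mul]
      congr 1
      rw [hPP]
      simp only
      rw [DP_eq, Finset.mul_sum]
      exact Finset.sum_congr rfl fun m hm => exp_sub_log (mem_PM hm).2.2.pos ρ u
    induction N using Multiset.induction_on with
    | empty => simp
    | cons a N ih =>
      simp only [Multiset.map_cons, Multiset.sum_cons]
      rw [Finset.sum_add_distrib, ih, hone]
  have hlhsE : ∑ m ∈ PM k, lhs (ker lam (p - 1)) p lam M (u - Real.log m) =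
      ((P - Real.exp u * S1 k * κ ^ p : ℝ) : ℂ) +
      (M.map (fun ρ => Complex.exp (ρ * u) * PP ρ * KK lam ρ ^ p)).sum := by
    rw [← hms M]
    have e1 : ∀ m ∈ PM k, lhs (ker lam (p - 1)) p lam M (u - Real.log m) =
        ((∑' n : ℕ, ArithmeticFunction.vonMangoldt n * ker lam (p - 1) (u - Real.log m - Real.log n) : ℝ) : ℂ)
        - ((Real.exp (u - Real.log m) : ℝ) : ℂ) * ((κ ^ p : ℝ) : ℂ) +
        (M.map (fun ρ => Complex.exp (ρ * ((u - Real.log m : ℝ) : ℂ)) * KK lam ρ ^ p)).sum := by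
      intro m _
      unfold lhs
      rw [hκe]
      push_cast
      ring
    rw [Finset.sum_congr rfl e1, Finset.sum_add_distrib, Finset.sum_sub_distrib, ← Finset.sum_mul,
      ← Complex.ofReal_sum, ← Complex.ofReal_sum, hS1e, ← hP]
    push_cast
    ring
  have hmainlow : Real.exp u * S1 k - 1/8 * X * S1 k - 1/50 * X * S1 k ≤
      ‖(M.map (fun ρ => Complex.exp (ρ * u) * PP ρ * KK lam ρ ^ p)).sum‖ := by
    have h2 : ‖((P - Real.exp u * S1 k * κ ^ p : ℝ) : ℂ)‖ ≥ Real.exp u * S1 k - 1/8 * X * S1 k := by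
      rw [Complex.norm_real, Real.norm_eq_abs, abs_sub_comm]
      refine le_trans ?_ (le_abs_self _)
      have h3 : 0 < Real.exp u * S1 k := mul_pos (Real.exp_pos u) hSp
      (clear * - hprime hd hd1 hκp h3; nlinarith)
    have h3 := norm_sub_le_norm_add ((P - Real.exp u * S1 k * κ ^ p : ℝ) : ℂ)
      (M.map (fun ρ => Complex.exp (ρ * u) * PP ρ * KK lam ρ ^ p)).sum
    rw [← hlhsE] at h3
    (clear * - hlhs h2 h3; linarith)
  -- low and high zeros
  set B : ℝ := (2 : ℝ) ^ ((1/2 + 2 * d) * k) with hB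
  set Mh := M.filter (fun ρ => B < |ρ.im|) with hMh
  set Ml := M.filter (fun ρ => ¬ B < |ρ.im|) with hMl
  have hsplit : Mh + Ml = M := Multiset.filter_add_not _ _
  have hhigh := hK12 k hkA M Z hBox j hj
  have hMsmall : (2 : ℝ) ^ KS.em k ≤ 1/100 * X * S1 k := by
    have h2 := hKc k hkG
    have h3 := pow_em_le k
    set Y : ℝ := (2 : ℝ) ^ ((0.5 : ℝ) * k) with hY
    have hYY : Y * Y = X := by
      rw [hY, ← Real.rpow_add (by norm_num), hX, ← Real.rpow_natCast]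
      congr 1
      ring
    have hY0 : 0 < Y := by positivity
    have hk0 : (0 : ℝ) < k := by (clear * - hd hd1 hkr; linarith)
    have h4 : 1 ≤ 1 / 100 * Y * S1 k := by
      have h5 : 100 / cS * (k : ℝ) ≤ Y := by
        refine le_trans ?_ h2
        apply mul_le_mul_of_nonneg_left _ (by positivity)
        exact le_self_pow₀ (by (clear * - hd hd1 hkr; linarith)) (by norm_num)
      calc (1 : ℝ) = 1 / 100 * (100 / cS * (k : ℝ)) * (cS / k) := by field_simp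
        _ ≤ 1 / 100 * Y * S1 k := by (clear * - h5 hSk hcS hkE; gcongr)
    calc (2 : ℝ) ^ KS.em k ≤ Y * 1 := by (clear * - h3; linarith)
      _ ≤ Y * (1 / 100 * Y * S1 k) := by (clear * - h4; gcongr)
      _ = 1/100 * X * S1 k := by rw [← hYY]; ring
  have hhigh2 : ‖(Mh.map (fun ρ => Complex.exp (ρ * u) * PP ρ * KK lam ρ ^ p)).sum‖ ≤ 1/100 * X * S1 k := by
    refine le_trans ?_ hMsmall
    have h2 := Multiset.le_sum_of_subadditive (fun z : ℂ => ‖z‖) (by simp) (fun a b => norm_add_le a b)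
      (Mh.map (fun ρ => Complex.exp (ρ * u) * PP ρ * KK lam ρ ^ p))
    rw [Multiset.map_map] at h2
    refine h2.trans ?_
    have h3 : (Mh.map (fun ρ => ‖Complex.exp (ρ * u) * PP ρ * KK lam ρ ^ p‖)).sum ≤
        (Mh.map (fun ρ => 2 ^ KS.em k * ‖Complex.exp (ρ * u) * KK lam ρ ^ p‖)).sum := by
      apply Multiset.sum_map_le_sum_map
      intro ρ hρ
      rw [hMh, Multiset.mem_filter] at hρ
      obtain ⟨-, h4, h5, -⟩ := hBox.mem ρ hρ.1
      rw [norm_mul, norm_mul, norm_mul]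
      have h6 := norm_DP_le k (s := ρ) (by (clear * - hd hd1 h4; linarith))
      calc ‖Complex.exp (ρ * u)‖ * ‖PP ρ‖ * ‖KK lam ρ ^ p‖ =
          ‖PP ρ‖ * (‖Complex.exp (ρ * u)‖ * ‖KK lam ρ ^ p‖) := by ring
        _ ≤ _ := mul_le_mul_of_nonneg_right h6 (by (clear * -; positivity))
    refine h3.trans ?_
    rw [Multiset.sum_map_mul_left]
    calc (2 : ℝ) ^ KS.em k * _ ≤ 2 ^ KS.em k * 1 := by
          apply mul_le_mul_of_nonneg_left hhigh (by positivity)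
      _ = 2 ^ KS.em k := mul_one _
  have hlow : Real.exp u * S1 k - 1/8 * X * S1 k - 1/50 * X * S1 k - 1/100 * X * S1 k ≤
      ‖(Ml.map (fun ρ => Complex.exp (ρ * u) * PP ρ * KK lam ρ ^ p)).sum‖ := by
    have h2 : (M.map (fun ρ => Complex.exp (ρ * u) * PP ρ * KK lam ρ ^ p)).sum =
        (Mh.map (fun ρ => Complex.exp (ρ * u) * PP ρ * KK lam ρ ^ p)).sum +
        (Ml.map (fun ρ => Complex.exp (ρ * u) * PP ρ * KK lam ρ ^ p)).sum := by
      rw [← hsplit, Multiset.map_add, Multiset.sum_add]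
    have h3 := norm_add_le (Mh.map (fun ρ => Complex.exp (ρ * u) * PP ρ * KK lam ρ ^ p)).sum
      (Ml.map (fun ρ => Complex.exp (ρ * u) * PP ρ * KK lam ρ ^ p)).sum
    rw [← h2] at h3
    (clear * - hmainlow hhigh2 h3; linarith)
  -- the finset
  have hBT : B < T + 2 := by
    have h2 : B ≤ T := by
      rw [hB, hT, ← Real.rpow_natCast]
      apply Real.rpow_le_rpow_of_exponent_le (by norm_num)
      push_cast
      exact mul_le_mul_of_nonneg_right (by (clear * - hd hd1; linarith)) k.cast_nonneg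
    (clear * - hd hd1 h2; linarith)
  have hmemS : ∀ ρ, ρ ∈ S ↔ ρ ∈ Ml := by
    intro ρ
    rw [hS, hMl, Multiset.mem_filter]
    constructor
    · rintro ⟨h2, h3, h4⟩
      refine ⟨?_, not_lt.2 h4⟩
      have hρT : |ρ.im| < T + 2 := lt_of_le_of_lt h4 hBT
      have hne := hBox.ne ρ h3 hρT
      have hρ1 : ρ ≠ 1 := by
        rintro rfl
        exact riemannZeta_one_ne_zero h2
      have hE0 : EZ ρ = 0 := by rw [EZ_eq hρ1, h2, mul_zero]
      have hQ := hBox.eq ρ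
      rw [hE0] at hQ
      have hQ0 : Qp M ρ = 0 := by
        rcases mul_eq_zero.1 hQ.symm with h | h
        · exact h
        · exact absurd h hne
      by_contra hc
      exact Qp_ne_zero M ρ (fun a ha hρa => hc (hρa ▸ ha)) hQ0
    · rintro ⟨h2, h3⟩
      obtain ⟨h4, h5, h6, h7⟩ := hBox.mem ρ h2
      exact ⟨h4, h5, not_lt.1 h3⟩
  have hSfin : Ml.toFinset = S := by
    ext ρ
    rw [Multiset.mem_toFinset, hmemS]
  have hsum : (Ml.map (fun ρ => Complex.exp (ρ * u) * PP ρ * KK lam ρ ^ p)).sum =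
      Complex.exp u * ∑ ρ ∈ S, (analyticOrderNatAt riemannZeta ρ : ℂ) * (KK lam ρ ^ p) *
        DP gP (2 ^ KS.em k) 2 ρ * Complex.exp ((ρ - 1) * u) := by
    rw [Finset.sum_multiset_map_count, hSfin, Finset.mul_sum]
    refine Finset.sum_congr rfl fun ρ hρ => ?_
    have h2 := (hmemS ρ).1 hρ
    rw [hMl, Multiset.mem_filter] at h2
    obtain ⟨h4, h5, h6, h7⟩ := hBox.mem ρ h2.1
    have hcount : Ml.count ρ = analyticOrderNatAt riemannZeta ρ := by
      rw [hMl, Multiset.count_filter_of_pos (p := fun ρ : ℂ => ¬ B < |ρ.im|) h2.2]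
      exact hBox.count ρ h4 h5 h7
    rw [hcount, nsmul_eq_mul]
    have h8 : Complex.exp (ρ * u) = Complex.exp u * Complex.exp ((ρ - 1) * u) := by
      rw [← Complex.exp_add]; congr 1; ring
    rw [h8, hPP]
    ring
  rw [hsum, norm_mul, Complex.norm_exp, Complex.ofReal_re] at hlow
  have hupos := Real.exp_pos u
  have hfin : Real.exp u * (1/2 * S1 k) ≤ Real.exp u * ‖∑ ρ ∈ S, (analyticOrderNatAt riemannZeta ρ : ℂ) *
      (KK lam ρ ^ p) * DP gP (2 ^ KS.em k) 2 ρ * Complex.exp ((ρ - 1) * u)‖ := by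
    refine le_trans ?_ hlow
    have h9 : X * S1 k ≤ Real.exp u * S1 k := mul_le_mul_of_nonneg_right heuX hSp.le
    have h10 : 0 < X * S1 k := mul_pos hX0 hSp
    (clear * - h9 h10; nlinarith)
  exact le_of_mul_le_mul_left hfin hupos

end Pool.Agent.M17.Helper60.KE
end

/- Helper53.KN.Helper60.KE.CountE2 -/
section
/-! CountE2: the counting theorem for the cells without numbers `q m`. -/

set_option autoImplicit false
set_option maxHeartbeats 4000000
open Filter Topology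
open scoped Classical

namespace Pool.Agent.M17.Helper60.KE
open Pool.Agent.M17.Helper60.KS Pool.Agent.M17.Helper60.KC

/-- the elementary conditions for large `X` -/
lemma large_XE {C ε0 δ d : ℝ} (hp : ParE ε0 δ d) (hC : 0 < C) : ∀ᶠ X : ℝ in atTop,
    8 ≤ X ∧ 10 ≤ Real.log X ∧ X ^ (1/2 + 2 * d) + 4 ≤ X ∧ X ^ (1/2 + 2 * d) + 1 ≤ X ^ (0.6 : ℝ) ∧
    240 * C * Real.log X ^ 4 ≤ X ^ (0.503 * ε0) ∧ 20 * (1 / δ + 2) * (C + 1) ≤ Real.log X ∧
    2 * (C * Real.log X) ≤ Real.log X ^ 2 ∧ 10 * C * Real.log X ^ 3 ≤ X ^ (0.4 : ℝ) ∧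
    X ^ (0.12 + 5 * d) + Real.log X ^ 4 * X ^ (0.171 : ℝ) ≤ X ^ (0.172 : ℝ) := by
  have hδ := hp.dpos
  have hδ' := hp.dsmall
  have hd4 := hp.h4
  have hd5 := hp.h5
  have hε := hp.h1
  have ev : ∀ B : ℝ, ∀ᶠ X : ℝ in atTop, B ≤ Real.log X := fun B =>
    Real.tendsto_log_atTop.eventually (eventually_ge_atTop B)
  filter_upwards [eventually_ge_atTop 8, ev 10, small (Real.log (240 * C)) 4 (0.503 * ε0) (by positivity),
    ev (20 * (1 / δ + 2) * (C + 1)), ev (2 * C), small 0 4 0.0005 (by norm_num), ev 10000,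
    small (Real.log (10 * C)) 3 0.4 (by norm_num)] with X h8 hl h3 h4 h5 h6 h7 h9
  have hX : 0 < X := by (clear * - hδ hδ' h8; linarith)
  have hl0 : 0 < Real.log X := by (clear * - hδ hδ' h7; linarith)
  set l := Real.log X with hldef
  have e1 : X ^ (1/2 + 2 * d) ≤ X ^ (0.51 : ℝ) := Real.rpow_le_rpow_of_exponent_le (by (clear * - hδ hδ' h8; linarith)) (by (clear * - hδ hδ' hd5; linarith))
  have e2 : (2:ℝ) ≤ X ^ (0.09 : ℝ) := by
    rw [← Real.log_le_log_iff (by norm_num) (by positivity), Real.log_rpow hX]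
    have := Real.log_two_lt_d9; (clear * - hδ hδ' h7 this; linarith)
  have e3 : (4:ℝ) ≤ X ^ (0.51 : ℝ) := by
    rw [← Real.log_le_log_iff (by norm_num) (by positivity), Real.log_rpow hX]
    have := Real.log_two_lt_d9
    have h44 : Real.log 4 = 2 * Real.log 2 := by
      rw [show (4:ℝ) = 2 ^ 2 by norm_num, Real.log_pow]; norm_num
    rw [h44]; (clear * - hδ hδ' h7 this; linarith)
  have e4 : X ^ (0.6 : ℝ) = X ^ (0.51 : ℝ) * X ^ (0.09 : ℝ) := by
    rw [← Real.rpow_add hX]; norm_num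
  have e5 : X ^ (1/2 + 2 * d) + 4 ≤ X ^ (0.6 : ℝ) := by
    rw [e4]; (clear * - e1 e2 e3 hδ hδ'; nlinarith)
  have e6 : X ^ (0.6 : ℝ) ≤ X := by
    calc X ^ (0.6 : ℝ) ≤ X ^ (1 : ℝ) := Real.rpow_le_rpow_of_exponent_le (by (clear * - hδ hδ' h8; linarith)) (by norm_num)
      _ = X := Real.rpow_one _
  refine ⟨h8, hl, by (clear * - e5 e6; linarith), by (clear * - hδ hδ' e5; linarith), ?_, h4, ?_, ?_, ?_⟩
  · rw [← Real.log_le_log_iff (by positivity) (by positivity), Real.log_mul (by positivity) (by positivity),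
      Real.log_pow, Real.log_rpow hX]
    simpa using h3
  · (clear * - h5 hδ hδ' hl; nlinarith)
  · rw [← Real.log_le_log_iff (by positivity) (by positivity), Real.log_mul (by positivity) (by positivity),
      Real.log_pow, Real.log_rpow hX]
    simpa using h9
  · have f1 : l ^ 4 ≤ X ^ (0.0005 : ℝ) := by
      rw [← Real.log_le_log_iff (by positivity) (by positivity), Real.log_pow, Real.log_rpow hX]
      simpa using h6
    have f2 : l ^ 4 * X ^ (0.171 : ℝ) ≤ X ^ (0.1715 : ℝ) := by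
      calc l ^ 4 * X ^ (0.171 : ℝ) ≤ X ^ (0.0005 : ℝ) * X ^ (0.171 : ℝ) :=
            mul_le_mul_of_nonneg_right f1 (by positivity)
        _ = X ^ (0.1715 : ℝ) := by rw [← Real.rpow_add hX]; norm_num
    have f3 : X ^ (0.12 + 5 * d) ≤ X ^ (0.1715 : ℝ) := Real.rpow_le_rpow_of_exponent_le (by (clear * - hδ hδ' h8; linarith)) (by (clear * - hδ hδ' hd5; linarith))
    have f4 : (2:ℝ) ≤ X ^ (0.0005 : ℝ) := by
      rw [← Real.log_le_log_iff (by norm_num) (by positivity), Real.log_rpow hX]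
      have := Real.log_two_lt_d9; (clear * - hδ hδ' h7 this; linarith)
    have f5 : X ^ (0.172 : ℝ) = X ^ (0.1715 : ℝ) * X ^ (0.0005 : ℝ) := by
      rw [← Real.rpow_add hX]; norm_num
    have f6 : 0 < X ^ (0.1715 : ℝ) := by positivity
    rw [f5]; (clear * - f2 f3 hδ hδ' f4 f6; nlinarith)

/-- the size of `P(ρ)` -/
lemma P_bound {k : ℕ} (hk : 500 ≤ k) (ρ : ℂ) (_h0 : 0 ≤ ρ.re) (h1 : ρ.re ≤ 1) :
    ‖DP gP (2 ^ em k) 2 ρ‖ ≤ S1 k * ((2:ℝ) ^ k) ^ (0.497 * (1 - ρ.re)) := by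
  have hkr : (500 : ℝ) ≤ k := by exact_mod_cast hk
  rw [DP_eq]
  refine (norm_sum_le _ _).trans ?_
  unfold S1
  rw [Finset.sum_mul]
  apply Finset.sum_le_sum
  intro m hm
  obtain ⟨a1, a2, a3⟩ := mem_PM hm
  have hm0 : (0:ℝ) < m := by exact_mod_cast a3.pos
  rw [Complex.norm_natCast_cpow_of_pos a3.pos, Complex.neg_re]
  have e1 : (m:ℝ) ^ (-ρ.re) = 1 / m * (m:ℝ) ^ (1 - ρ.re) := by
    rw [one_div, ← Real.rpow_neg_one, ← Real.rpow_add hm0]
    congr 1; ring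
  rw [e1]
  apply mul_le_mul_of_nonneg_left _ (by (clear * - hm0; positivity))
  have e2 : (m:ℝ) ≤ ((2:ℝ) ^ k) ^ (0.497 : ℝ) := by
    have e3 : (m:ℝ) ≤ 2 ^ (em k + 1) := by
      rw [pow_succ, mul_comm]; exact_mod_cast a2
    refine e3.trans ?_
    rw [← Real.rpow_natCast 2 k, ← Real.rpow_mul (by norm_num), ← Real.rpow_natCast]
    apply Real.rpow_le_rpow_of_exponent_le (by norm_num)
    have := (em_bounds k).2
    push_cast
    (clear * - hkr this; linarith)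
  calc (m:ℝ) ^ (1 - ρ.re) ≤ (((2:ℝ) ^ k) ^ (0.497 : ℝ)) ^ (1 - ρ.re) :=
        Real.rpow_le_rpow hm0.le e2 (by (clear * - h1; linarith))
    _ = ((2:ℝ) ^ k) ^ (0.497 * (1 - ρ.re)) := by rw [← Real.rpow_mul (by positivity)]

lemma S1_le_one (k : ℕ) : S1 k ≤ 1 := by
  unfold S1
  have h1 : ∀ m ∈ PM k, 1 / (m:ℝ) ≤ 1 / (2:ℝ) ^ em k := by
    intro m hm
    obtain ⟨a1, a2, a3⟩ := mem_PM hm
    apply one_div_le_one_div_of_le (by positivity)
    exact_mod_cast a1.le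
  refine (Finset.sum_le_card_nsmul _ _ _ h1).trans ?_
  rw [nsmul_eq_mul, mul_one_div, div_le_one (by positivity)]
  exact_mod_cast card_PM k

/-- counting theorem with the factor `P` -/
theorem countE2_of (hB : BadZeroE2) (hN : ThmNk 0.503) (hS1 : S1Lower) (hA : A9i) (hD : Detect)
    (hCB : ClassBoundE2) (hS : SplitSpaced) : CountE2 0.172 := by
  obtain ⟨ε0, X1, e1, e2, hN⟩ := hN
  obtain ⟨C, hC, hA⟩ := hA
  obtain ⟨cS, hcS, KS1, hKS1⟩ := hS1
  refine ⟨ε0 / 10 ^ 8, by (clear * - e1; positivity), fun d hd hd1 => ?_⟩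
  set δ := ε0 / 10 ^ 8 with hδdef
  have hp : ParE ε0 δ d := ⟨e1, e2, hδdef, hd, hd1⟩
  have hδ := hp.dpos
  have hδ' := hp.dsmall
  obtain ⟨c0, hc0, K1, hB⟩ := hB d hd (by (clear * - e2 hd hd1 hδdef; linarith))
  obtain ⟨X2, hD⟩ := hD δ d hδ (by (clear * - e2 hd hd1 hδdef; linarith)) hd hd1
  obtain ⟨X3, hCB⟩ := hCB ε0 δ d e1 e2 hδdef hd hd1
  refine ⟨c0, hc0, ?_⟩
  have hev : ∀ᶠ X : ℝ in atTop, (X1 ≤ X ∧ X2 ≤ X ∧ X3 ≤ X) ∧
      (8 ≤ X ∧ 10 ≤ Real.log X ∧ X ^ (1/2 + 2 * d) + 4 ≤ X ∧ X ^ (1/2 + 2 * d) + 1 ≤ X ^ (0.6 : ℝ) ∧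
      240 * C * Real.log X ^ 4 ≤ X ^ (0.503 * ε0) ∧ 20 * (1 / δ + 2) * (C + 1) ≤ Real.log X ∧
      2 * (C * Real.log X) ≤ Real.log X ^ 2 ∧ 10 * C * Real.log X ^ 3 ≤ X ^ (0.4 : ℝ) ∧
      X ^ (0.12 + 5 * d) + Real.log X ^ 4 * X ^ (0.171 : ℝ) ≤ X ^ (0.172 : ℝ)) := by
    filter_upwards [eventually_ge_atTop X1, eventually_ge_atTop X2, eventually_ge_atTop X3, large_XE hp hC]
      with X a b c h using ⟨⟨a, b, c⟩, h⟩
  have hev2 := (tendsto_pow_atTop_atTop_of_one_lt (by norm_num : (1:ℝ) < 2)).eventually hev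
  obtain ⟨K, hK⟩ := eventually_atTop.mp hev2
  refine ⟨max (max K K1) (max (max KS1 500) ⌈320 / cS⌉₊), fun k hk => ?_⟩
  have hkK : K ≤ k := le_trans (le_trans (le_max_left _ _) (le_max_left _ _)) hk
  have hk1 : K1 ≤ k := le_trans (le_trans (le_max_right _ _) (le_max_left _ _)) hk
  have hkS : KS1 ≤ k := le_trans (le_trans (le_trans (le_max_left _ _) (le_max_left _ _)) (le_max_right _ _)) hk
  have hk5 : 500 ≤ k := le_trans (le_trans (le_trans (le_max_right _ _) (le_max_left _ _)) (le_max_right _ _)) hk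
  have hkc : ⌈320 / cS⌉₊ ≤ k := le_trans (le_trans (le_max_right _ _) (le_max_right _ _)) hk
  have hkr : (500 : ℝ) ≤ k := by exact_mod_cast hk5
  obtain ⟨⟨hX1, hX2, hX3⟩, h8, hl, g1, g2, g3, g4, g5, g7, g6⟩ := hK k hkK
  obtain ⟨F, c, u, Exc, b1, b2, b3, b4, b5, b6⟩ := hB k hk1
  have hSk := hKS1 k hkS
  have hSl : 80 / Real.log ((2:ℝ) ^ k) ^ 2 ≤ S1 k := by
    refine le_trans ?_ hSk
    have h1 : (k:ℝ) / 2 ≤ Real.log ((2:ℝ) ^ k) := by
      rw [Real.log_pow]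
      have := Real.log_two_gt_d9
      (clear * - e2 hd hd1 hδdef hkr this; nlinarith)
    have h2 : (320 : ℝ) / cS ≤ k := le_trans (Nat.le_ceil _) (by exact_mod_cast hkc)
    rw [div_le_iff₀ hcS] at h2
    rw [div_le_div_iff₀ (by (clear * - hl; positivity)) (by positivity)]
    have h3 : ((k:ℝ) / 2) ^ 2 ≤ Real.log ((2:ℝ) ^ k) ^ 2 := pow_le_pow_left₀ (by positivity) h1 2
    calc 80 * (k:ℝ) = 320 * k / 4 := by ring
      _ ≤ (k * cS) * k / 4 := by (clear * - h2 hk5; gcongr)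
      _ = cS * ((k:ℝ) / 2) ^ 2 := by ring
      _ ≤ _ := by (clear * - h3 hcS; gcongr)
  have hM0 : ((2:ℝ) ^ k) ^ (0.495 : ℝ) / 4 ≤ ((2 ^ em k : ℕ) : ℝ) := by
    push_cast
    have h1 : ((2:ℝ) ^ k) ^ (0.495 : ℝ) ≤ 2 ^ (em k + 1) := by
      rw [← Real.rpow_natCast 2 k, ← Real.rpow_mul (by norm_num), ← Real.rpow_natCast]
      apply Real.rpow_le_rpow_of_exponent_le (by norm_num)
      have := (em_bounds k).1
      push_cast
      (clear * - this; linarith)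
    rw [pow_succ] at h1
    have : (0:ℝ) < 2 ^ em k := by positivity
    (clear * - h1 this; linarith)
  have hM1 : ((2 ^ em k : ℕ) : ℝ) ≤ ((2:ℝ) ^ k) ^ (0.495 : ℝ) := by
    push_cast
    rw [← Real.rpow_natCast 2 k, ← Real.rpow_mul (by norm_num), ← Real.rpow_natCast]
    apply Real.rpow_le_rpow_of_exponent_le (by norm_num)
    have := (em_bounds k).2
    (clear * - this; linarith)
  have hmain := main_countE (DP gP (2 ^ em k) 2) hp hC h8 hl hSl (S1_le_one k)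
    (fun ρ h0 h1 => P_bound hk5 ρ h0 h1) hA
    (fun F hF => hN _ hX1 F hF) (fun x hx0 hx1 => hD _ x hX2 hx0 hx1)
    (fun x V Z c g N U h => hCB _ x V Z c g N (2 ^ em k) U hX3 h.hx0 h.hx1 hM0 hM1 h.hV h.hs h.hsp h.hg h.hN0 h.hN1
      h.hD h.hP h.hc h.hU h.hUs h.hS)
    hS g1 g2 g3 g4 g5 g7 F c u (2 ^ (k - ec d k)) b1 b2 b3 b4
  set Bd := (Finset.range (2 ^ (k - ec d k))).filter (fun j =>
    (nE2 k (ec d k) j : ℝ) < c0 * 2 ^ ec d k / (k:ℝ) ^ 2) with hBd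
  set Lg := (Finset.range (2 ^ (k - ec d k))).filter (fun j => 1/2 * S1 k ≤ ‖∑ ρ ∈ F, (mz ρ : ℂ) * c ρ *
      DP gP (2 ^ em k) 2 ρ * Complex.exp ((ρ - 1) * (u j : ℂ))‖) with hLg
  have hsub : Bd ⊆ Exc ∪ Lg := by
    intro j hj
    rw [hBd, Finset.mem_filter, Finset.mem_range] at hj
    rw [Finset.mem_union]
    by_cases hE : j ∈ Exc
    · exact Or.inl hE
    · right
      rw [hLg, Finset.mem_filter, Finset.mem_range]
      exact ⟨hj.1, b6 j hj.1 hE hj.2⟩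
  have hcard : (Bd.card : ℝ) ≤ Exc.card + Lg.card := by
    exact_mod_cast le_trans (Finset.card_le_card hsub) (Finset.card_union_le _ _)
  have hpow : (2:ℝ) ^ (0.172 * (k:ℝ)) = ((2:ℝ) ^ k) ^ (0.172 : ℝ) := by
    rw [← Real.rpow_natCast, ← Real.rpow_mul (by norm_num)]
    ring_nf
  rw [hpow]
  (clear * - g6 b5 hmain hcard; linarith)

end Pool.Agent.M17.Helper60.KE
end

/- Helper53.KN.Helper60.KE.PrimeSide -/
section
/-! CountE2: the prime side. -/

set_option autoImplicit false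
open Filter Topology Finset
open scoped ArithmeticFunction.vonMangoldt

namespace Pool.Agent.M17.Helper60.KE

open Pool.Agent.M17.Helper10.QRH Pool.Agent.M17.Helper46.KSZ Pool.Agent.M17.Helper30.QRH
open Pool.Agent.M17.Helper60.KS (PM S1 nE2 S1Lower)

/-- the cofactors -/
noncomputable def cof (k y H m : ℕ) : Finset ℕ :=
  (range (2 ^ (k + 1))).filter (fun n => y ≤ m * n ∧ m * n < y + H)

lemma ker_sum_le2 {p : ℕ} {lam X : ℝ} (hK : KerFacts) (hp : 1 ≤ p) (k y H m : ℕ) (hm : 0 < m) (hlam : 0 < lam)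
    (hX : 0 < X) (hHX : p * lam * (4 * X) ≤ H) (hy : X ≤ y) (hy2 : (y : ℝ) + H ≤ 2 * X)
    (hyk : y + H ≤ 2 ^ (k + 1)) :
    ∑' n : ℕ, Λ n * ker lam (p - 1) (Real.log (y + H / 2) - Real.log m - Real.log n) ≤
      1 / lam * ∑ n ∈ cof k y H m, Λ n := by
  obtain ⟨_, hk0, hk1, hk2⟩ := hK lam hlam (p - 1)
  have hp1 : (((p - 1 : ℕ) : ℝ) + 1) = p := by
    rw [Nat.cast_sub hp]; push_cast; ring
  rw [hp1] at hk2
  set l' : ℝ := p * lam with hl'
  have hl'0 : 0 < l' := by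
    have : (0 : ℝ) < p := by exact_mod_cast hp
    (clear * - hp hlam; positivity)
  have hH : (0 : ℝ) < H := by
    refine lt_of_lt_of_le (by (clear * - hp hlam hX; positivity)) hHX
  have hy0 : (0 : ℝ) < y := by (clear * - hX hy; linarith)
  have hm0 : (0 : ℝ) < m := by exact_mod_cast hm
  have hz : ∀ n ∉ cof k y H m, Λ n * ker lam (p - 1) (Real.log (y + H / 2) - Real.log m - Real.log n) = 0 := by
    intro n hn
    rcases Nat.eq_zero_or_pos n with h0 | h0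
    · subst h0
      simp
    have hn0 : (0 : ℝ) < n := by exact_mod_cast h0
    have hlog : Real.log (y + H / 2) - Real.log m - Real.log n = Real.log (y + H / 2) - Real.log ((m * n : ℕ) : ℝ) := by
      push_cast
      rw [Real.log_mul hm0.ne' hn0.ne']
      ring
    have hmn0 : (0 : ℝ) < ((m * n : ℕ) : ℝ) := by exact_mod_cast Nat.mul_pos hm h0
    rw [hlog]
    rw [hk2, mul_zero]
    have hn' : m * n < y ∨ y + H ≤ m * n := by
      by_contra hcon
      push Not at hcon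
      apply hn
      rw [cof, mem_filter, mem_range]
      refine ⟨?_, hcon⟩
      have h1 : n ≤ m * n := Nat.le_mul_of_pos_left n hm
      omega
    rcases hn' with hn' | hn'
    · have h1 : ((m * n : ℕ) : ℝ) ≤ y := by exact_mod_cast hn'.le
      have h2 := Real.log_le_log hmn0 h1
      have h3 := log_gap (a := (y : ℝ)) (b := y + H / 2) hy0 (by (clear * - hH; linarith))
      have h4 : l' ≤ ((y : ℝ) + H / 2 - y) / (y + H / 2) := by
        rw [le_div_iff₀ (by (clear * - hy0 hH; positivity))]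
        (clear * - hHX hy2 hX; nlinarith)
      rw [le_abs]
      left
      (clear * - h2 h3 h4; linarith)
    · have h1 : (y : ℝ) + H ≤ ((m * n : ℕ) : ℝ) := by exact_mod_cast hn'
      have h2 := Real.log_le_log (by (clear * - hy0 hH; positivity)) h1
      have h3 := log_gap (a := (y : ℝ) + H / 2) (b := y + H) (by (clear * - hy0 hH; positivity)) (by (clear * - hH; linarith))
      have h4 : l' ≤ ((y : ℝ) + H - (y + H / 2)) / (y + H) := by
        rw [le_div_iff₀ (by (clear * - hy0 hH; positivity))]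
        (clear * - hHX hy2 hX; nlinarith)
      rw [le_abs]
      right
      (clear * - h2 h3 h4; linarith)
  rw [tsum_eq_sum hz, mul_sum]
  apply sum_le_sum
  intro n _
  rw [mul_comm]
  exact mul_le_mul_of_nonneg_right (hk1 _) ArithmeticFunction.vonMangoldt_nonneg

/-- pairs with a prime power cofactor -/
lemma pow_pairs (k y H M r : ℕ) (hM : 1 ≤ M) (P : Finset ℕ) (hP : ∀ m ∈ P, M < m)
    (hH : ∀ n m : ℕ, m ∈ P → y ≤ m * n → H ≤ n) (hy2 : y + H ≤ 2 ^ (k + 1)) (hr : 2 ^ (k + 1) ≤ M * 2 ^ (2 * r)) :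
    ((P ×ˢ range (2 ^ (k + 1))).filter (fun p => (IsPrimePow p.2 ∧ ¬ p.2.Prime) ∧ y ≤ p.1 * p.2 ∧
      p.1 * p.2 < y + H)).card ≤ (2 ^ r + 1) * (k + 1) := by
  classical
  have hcard : ((range (2 ^ r + 1)) ×ˢ (range (k + 1))).card = (2 ^ r + 1) * (k + 1) := by simp
  rw [← hcard]
  -- facts on an element
  have key : ∀ q : ℕ × ℕ, q ∈ (P ×ˢ range (2 ^ (k + 1))).filter (fun p => (IsPrimePow p.2 ∧ ¬ p.2.Prime) ∧
      y ≤ p.1 * p.2 ∧ p.1 * p.2 < y + H) → ∃ s a : ℕ, s.Prime ∧ 2 ≤ a ∧ s ^ a = q.2 ∧ s ≤ 2 ^ r ∧ a < k + 1 := by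
    intro q hq
    rw [mem_filter, mem_product, mem_range] at hq
    obtain ⟨⟨h1, h2⟩, ⟨h3, h4⟩, h5, h6⟩ := hq
    rw [isPrimePow_nat_iff] at h3
    obtain ⟨s, a, hs, ha, hsa⟩ := h3
    have ha2 : 2 ≤ a := by
      rcases Nat.lt_or_ge a 2 with h | h
      · have : a = 1 := by omega
        subst this
        rw [pow_one] at hsa
        rw [← hsa] at h4
        exact absurd hs h4
      · exact h
    have hMq := hP _ h1
    have h7 : M * q.2 < M * 2 ^ (2 * r) := by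
      have h8 : M * q.2 ≤ q.1 * q.2 := Nat.mul_le_mul_right _ hMq.le
      omega
    have h8 : q.2 < 2 ^ (2 * r) := Nat.lt_of_mul_lt_mul_left h7
    refine ⟨s, a, hs, ha2, hsa, ?_, ?_⟩
    · by_contra hcon
      push Not at hcon
      have h9 : (2 ^ r) ^ 2 ≤ s ^ 2 := Nat.pow_le_pow_left hcon.le 2
      have h10 : s ^ 2 ≤ s ^ a := Nat.pow_le_pow_right hs.pos ha2
      have h11 : (2 ^ r) ^ 2 = 2 ^ (2 * r) := by rw [← pow_mul, mul_comm]
      omega
    · by_contra hcon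
      push Not at hcon
      have h9 : 2 ^ (k + 1) ≤ s ^ a := (Nat.pow_le_pow_right (by norm_num) hcon).trans
        (Nat.pow_le_pow_left hs.two_le a)
      omega
  choose! fs fa hfs using key
  apply card_le_card_of_injOn (fun q => (fs q, fa q))
  · intro q hq
    obtain ⟨h1, h2, h3, h4, h5⟩ := hfs q hq
    rw [mem_coe, mem_product, mem_range, mem_range]
    exact ⟨Nat.lt_succ_of_le h4, h5⟩
  · intro q hq q' hq' he
    simp only [Prod.mk.injEq] at he
    obtain ⟨h1, h2, h3, h4, h5⟩ := hfs q hq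
    obtain ⟨h1', h2', h3', h4', h5'⟩ := hfs q' hq'
    have e2 : q.2 = q'.2 := by rw [← h3, ← h3', he.1, he.2]
    rw [mem_coe, mem_filter, mem_product, mem_range] at hq hq'
    obtain ⟨⟨a1, a2⟩, ⟨a3, a4⟩, a5, a6⟩ := hq
    obtain ⟨⟨b1, b2⟩, ⟨b3, b4⟩, b5, b6⟩ := hq'
    have hHn := hH q.2 q.1 a1 a5
    have e1 : q.1 = q'.1 := by
      rw [← e2] at b5 b6
      rcases lt_trichotomy q.1 q'.1 with h | h | h
      · have h7 : (q.1 + 1) * q.2 ≤ q'.1 * q.2 := Nat.mul_le_mul_right _ h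
        rw [add_mul, one_mul] at h7
        omega
      · exact h
      · have h7 : (q'.1 + 1) * q.2 ≤ q.1 * q.2 := Nat.mul_le_mul_right _ h
        rw [add_mul, one_mul] at h7
        omega
    exact Prod.ext e1 e2

/-- the sum of `Λ` over all cofactors -/
lemma cof_sum (k y H M r : ℕ) (hM : 1 ≤ M) (P : Finset ℕ) (hP : ∀ m ∈ P, M < m)
    (hH : ∀ n m : ℕ, m ∈ P → y ≤ m * n → H ≤ n) (hy2 : y + H ≤ 2 ^ (k + 1)) (hr : 2 ^ (k + 1) ≤ M * 2 ^ (2 * r)) :
    ∑ m ∈ P, ∑ n ∈ cof k y H m, Λ n ≤ ((k + 1) * Real.log 2) *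
      ((((P ×ˢ range (2 ^ (k + 1))).filter (fun p => p.2.Prime ∧ y ≤ p.1 * p.2 ∧ p.1 * p.2 < y + H)).card : ℝ) +
        ((2:ℝ) ^ r + 1) * (k + 1)) := by
  classical
  have e1 : ∑ m ∈ P, ∑ n ∈ cof k y H m, Λ n = ∑ q ∈ (P ×ˢ range (2 ^ (k + 1))).filter
      (fun p => y ≤ p.1 * p.2 ∧ p.1 * p.2 < y + H), Λ q.2 := by
    rw [sum_filter, sum_product]
    refine sum_congr rfl fun m _ => ?_
    rw [cof, sum_filter]
  rw [e1]
  have h1 : ∀ q ∈ (P ×ˢ range (2 ^ (k + 1))).filter (fun p => y ≤ p.1 * p.2 ∧ p.1 * p.2 < y + H),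
      Λ q.2 ≤ if IsPrimePow q.2 then ((k : ℝ) + 1) * Real.log 2 else 0 := by
    intro q hq
    rw [mem_filter, mem_product, mem_range] at hq
    split_ifs with h
    · refine ArithmeticFunction.vonMangoldt_le_log.trans ?_
      have h2 : (q.2 : ℝ) ≤ 2 ^ (k + 1) := by exact_mod_cast hq.1.2.le
      have hn0 : (0 : ℝ) < q.2 := by exact_mod_cast h.pos
      refine (Real.log_le_log hn0 h2).trans (le_of_eq ?_)
      rw [Real.log_pow]
      push_cast
      ring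
    · exact (ArithmeticFunction.vonMangoldt_eq_zero_iff.2 h).le
  refine (sum_le_sum h1).trans ?_
  rw [← sum_filter, sum_const, nsmul_eq_mul, mul_comm]
  have hlog : 0 ≤ ((k : ℝ) + 1) * Real.log 2 := by (clear * -; positivity)
  apply mul_le_mul_of_nonneg_left _ hlog
  have h3 : (((P ×ˢ range (2 ^ (k + 1))).filter (fun p => y ≤ p.1 * p.2 ∧ p.1 * p.2 < y + H)).filter
      (fun q => IsPrimePow q.2)).card ≤
      ((P ×ˢ range (2 ^ (k + 1))).filter (fun p => p.2.Prime ∧ y ≤ p.1 * p.2 ∧ p.1 * p.2 < y + H)).card +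
      ((P ×ˢ range (2 ^ (k + 1))).filter (fun p => (IsPrimePow p.2 ∧ ¬ p.2.Prime) ∧ y ≤ p.1 * p.2 ∧
      p.1 * p.2 < y + H)).card := by
    refine (card_le_card ?_).trans (card_union_le _ _)
    intro q hq
    rw [mem_filter, mem_filter] at hq
    rw [mem_union, mem_filter, mem_filter]
    by_cases hp : q.2.Prime
    · exact Or.inl ⟨hq.1.1, hp, hq.1.2⟩
    · exact Or.inr ⟨hq.1.1, ⟨hq.2, hp⟩, hq.1.2⟩
  have h4 := pow_pairs k y H M r hM P hP hH hy2 hr
  exact_mod_cast h3.trans (Nat.add_le_add_left h4 _)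

lemma ev_pow {a b : ℝ} (hab : a < b) (A : ℝ) : ∃ K : ℕ, ∀ k : ℕ, K ≤ k →
    A * (k : ℝ) ^ 4 * (2:ℝ) ^ (a * k) ≤ (2 : ℝ) ^ (b * k) := by
  have h1 : 1 < (2 : ℝ) ^ (b - a) := Real.one_lt_rpow (by norm_num) (by linarith)
  have h2 := (tendsto_pow_const_div_const_pow_of_one_lt 4 h1).const_mul A
  rw [mul_zero] at h2
  have h4 := h2.eventually (gt_mem_nhds (show (0 : ℝ) < 1 by norm_num))
  obtain ⟨K, hK⟩ := eventually_atTop.mp h4
  refine ⟨K, fun k hk => ?_⟩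
  have h5 := (hK k hk).le
  have h6 : (0 : ℝ) < ((2 : ℝ) ^ (b - a)) ^ k := by positivity
  rw [← mul_div_assoc, div_le_one h6] at h5
  have h7 : (2:ℝ) ^ (b * k) = ((2 : ℝ) ^ (b - a)) ^ k * (2:ℝ) ^ (a * k) := by
    rw [← Real.rpow_natCast, ← Real.rpow_mul (by norm_num), ← Real.rpow_add (by norm_num)]
    congr 1; ring
  rw [h7]
  exact mul_le_mul_of_nonneg_right h5 (by positivity)

/-- the prime side -/
theorem primeSideE2 (hS1 : S1Lower) (h8 : KerFacts) : PrimeSideE2 := by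
  intro p d hp hd0 hd
  obtain ⟨cS, hcS, KS1, hKS1⟩ := hS1
  have hp' : (1 : ℝ) ≤ p := by exact_mod_cast hp
  have hp0 : (0 : ℝ) < p := by (clear * - hd0 hd hp'; linarith)
  obtain ⟨K, hK⟩ := ev_pow (show (0.26:ℝ) < 0.48 by norm_num) (10000 * p / cS)
  refine ⟨cS / (200 * p), by (clear * - hcS hp; positivity), max (max K KS1) 1000, fun k hk j hj hfew => ?_⟩
  have hkK : K ≤ k := (le_max_left _ _).trans ((le_max_left _ _).trans hk)
  have hkS : KS1 ≤ k := (le_max_right _ _).trans ((le_max_left _ _).trans hk)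
  have hk1000 : 1000 ≤ k := (le_max_right _ _).trans hk
  have hkr : (1000 : ℝ) ≤ k := by exact_mod_cast hk1000
  have hkr0 : (0 : ℝ) < k := by (clear * - hd0 hd hkr; linarith)
  have hbig := hK k hkK
  have hSk := hKS1 k hkS
  have hem := em_bounds k
  obtain ⟨-, -, he3⟩ := Pool.Agent.M17.Helper18.KSZ.ee_large hd0 hd (by omega : 20 ≤ k)
  set e := Pool.Agent.M17.Helper46.KSZ.ee d k with he
  have heR : (0.49 : ℝ) * k - 1 ≤ e ∧ (e : ℝ) ≤ 0.5 * k := by
    constructor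
    · have h1 := Nat.lt_floor_add_one ((k : ℝ) * (1 / 2 - d))
      rw [he]; unfold Pool.Agent.M17.Helper46.KSZ.ee
      (clear * - h1 hd; nlinarith)
    · have h1 := Nat.floor_le (show 0 ≤ (k : ℝ) * (1 / 2 - d) by (clear * - hd0 hd hkr; nlinarith))
      rw [he]; unfold Pool.Agent.M17.Helper46.KSZ.ee
      (clear * - h1 hd0; nlinarith)
  set X : ℝ := (2 : ℝ) ^ k with hX
  have hX0 : 0 < X := by positivity
  set y : ℕ := 2 ^ k + j * 2 ^ e with hy
  have hyH : y + 2 ^ e ≤ 2 ^ (k + 1) := by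
    have h1 : (j + 1) * 2 ^ e ≤ 2 ^ (k - e) * 2 ^ e := Nat.mul_le_mul_right _ hj
    rw [← pow_add, Nat.sub_add_cancel he3] at h1
    rw [hy, pow_succ]
    (clear * - h1; nlinarith)
  have hlamdef : lamk p d k = (2 : ℝ) ^ e / (8 * p * X) := rfl
  have hlam0 : 0 < lamk p d k := by rw [hlamdef]; (clear * - hp; positivity)
  have hu : uu d k j = Real.log ((y : ℝ) + ((2 ^ e : ℕ) : ℝ) / 2) := by
    unfold uu
    rw [hy, he]
    push_cast
    ring_nf
  have hHX1 : (p : ℝ) * lamk p d k * (4 * X) ≤ ((2 ^ e : ℕ) : ℝ) := by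
    rw [hlamdef]
    push_cast
    have : (p : ℝ) * (2 ^ e / (8 * p * X)) * (4 * X) = 2 ^ e / 2 := by
      field_simp; ring
    rw [this]
    have : (0 : ℝ) < 2 ^ e := by positivity
    (clear * - this; linarith)
  have hyX : X ≤ y := by
    rw [hy, hX]; push_cast; have : (0 : ℝ) ≤ (j : ℝ) * 2 ^ e := by (clear * -; positivity)
    (clear * - this; linarith)
  have hyX2 : (y : ℝ) + ((2 ^ e : ℕ) : ℝ) ≤ 2 * X := by
    rw [hX]; have : ((y + 2 ^ e : ℕ) : ℝ) ≤ ((2 ^ (k + 1) : ℕ) : ℝ) := by exact_mod_cast hyH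
    push_cast at this ⊢
    rw [pow_succ] at this
    (clear * - this; linarith)
  have h1 : ∑ m ∈ PM k, (∑' n : ℕ, ArithmeticFunction.vonMangoldt n *
      ker (lamk p d k) (p - 1) (uu d k j - Real.log m - Real.log n)) ≤
      ∑ m ∈ PM k, 1 / lamk p d k * ∑ n ∈ cof k y (2 ^ e) m, Λ n := by
    apply sum_le_sum
    intro m hm
    rw [hu]
    exact ker_sum_le2 h8 hp k y (2 ^ e) m (mem_PM hm).2.2.pos hlam0 hX0 hHX1 hyX hyX2 hyH
  refine h1.trans ?_
  rw [← mul_sum]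
  set r : ℕ := (k + 2 - KS.em k) / 2 with hr
  have hemk : KS.em k ≤ k := by
    have : (KS.em k : ℝ) ≤ k := by (clear * - hd0 hd hkr hem; linarith [hem.2])
    exact_mod_cast this
  have hr1 : k + 1 ≤ KS.em k + 2 * r := by omega
  have hr2 : (r : ℝ) ≤ 0.2525 * k + 2 := by
    have h2 : 2 * r ≤ k + 2 - KS.em k := by omega
    have h3 : 2 * r + KS.em k ≤ k + 2 := by omega
    have h4 : 2 * (r : ℝ) + KS.em k ≤ k + 2 := by exact_mod_cast h3
    (clear * - hd0 hd hem h4; linarith [hem.1])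
  have hHn : ∀ n m : ℕ, m ∈ PM k → y ≤ m * n → 2 ^ e ≤ n := by
    intro n m hm hmn
    obtain ⟨a1, a2, a3⟩ := mem_PM hm
    by_contra hcon
    push Not at hcon
    have h2 : m * n ≤ 2 * 2 ^ KS.em k * 2 ^ e := Nat.mul_le_mul a2 hcon.le
    have h3 : 2 * 2 ^ KS.em k * 2 ^ e < 2 ^ k := by
      rw [mul_comm 2, ← pow_succ, ← pow_add]
      apply Nat.pow_lt_pow_right (by norm_num)
      have : ((KS.em k + 1 + e : ℕ) : ℝ) < k := by
        push_cast
        (clear * - hd0 hd hkr hem heR; linarith [hem.2, heR.2])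
      exact_mod_cast this
    omega
  have h2 := cof_sum k y (2 ^ e) (2 ^ KS.em k) r Nat.one_le_two_pow (PM k) (fun m hm => (mem_PM hm).1) hHn hyH (by
    rw [← pow_add]; exact Nat.pow_le_pow_right (by norm_num) hr1)
  have hfew' : (((PM k ×ˢ range (2 ^ (k + 1))).filter (fun p => p.2.Prime ∧ y ≤ p.1 * p.2 ∧
      p.1 * p.2 < y + 2 ^ e)).card : ℝ) ≤ cS / (200 * p) * 2 ^ e / (k : ℝ) ^ 2 := by
    have e1 : ((PM k ×ˢ range (2 ^ (k + 1))).filter (fun p => p.2.Prime ∧ y ≤ p.1 * p.2 ∧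
      p.1 * p.2 < y + 2 ^ e)).card = nE2 k e j := by
      unfold nE2
      congr 1
      apply filter_congr
      intro q _
      have : y + 2 ^ e = 2 ^ k + (j + 1) * 2 ^ e := by rw [hy]; ring
      rw [this, hy]
    rw [e1]
    exact hfew.le
  have h3 : 1 / lamk p d k * ∑ m ∈ PM k, ∑ n ∈ cof k y (2 ^ e) m, Λ n ≤
      1 / lamk p d k * (((k + 1) * Real.log 2) * (cS / (200 * p) * 2 ^ e / (k : ℝ) ^ 2 +
        ((2:ℝ) ^ r + 1) * (k + 1))) := by
    apply mul_le_mul_of_nonneg_left _ (by positivity)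
    refine h2.trans ?_
    apply mul_le_mul_of_nonneg_left _ (by positivity)
    (clear * - hfew'; linarith)
  refine h3.trans ?_
  -- numerical part
  have hr3 : ((2:ℝ) ^ r + 1) ≤ 8 * (2:ℝ) ^ ((0.26:ℝ) * k) := by
    have h4 : (2:ℝ) ^ r ≤ 4 * (2:ℝ) ^ ((0.26:ℝ) * k) := by
      rw [← Real.rpow_natCast, show (4:ℝ) = 2 ^ (2:ℝ) by norm_num, ← Real.rpow_add (by norm_num)]
      apply Real.rpow_le_rpow_of_exponent_le (by norm_num)
      (clear * - hd0 hd hkr hr2; linarith)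
    have h5 : 1 ≤ (2:ℝ) ^ ((0.26:ℝ) * k) := Real.one_le_rpow (by norm_num) (by positivity)
    (clear * - hd0 hd h4 h5; linarith)
  have he5 : (2:ℝ) ^ ((0.48:ℝ) * k) ≤ 2 ^ e := by
    rw [← Real.rpow_natCast 2 e]
    apply Real.rpow_le_rpow_of_exponent_le (by norm_num)
    (clear * - hd0 hd hkr heR; linarith [heR.1])
  set H : ℝ := (2:ℝ) ^ e with hH
  have hH0 : 0 < H := by positivity
  have hk1 : (k:ℝ) + 1 ≤ 1.001 * k := by (clear * - hkr; linarith)
  have hlog2 := Real.log_two_lt_d9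
  have hlog0 : 0 < Real.log 2 := Real.log_pos (by norm_num)
  have hkl : ((k:ℝ) + 1) * Real.log 2 ≤ 0.7 * k := by
    calc ((k:ℝ) + 1) * Real.log 2 ≤ (1.001 * k) * 0.6932 := by
          apply mul_le_mul hk1 (by (clear * - hd0 hd hlog2; linarith)) hlog0.le (by positivity)
      _ ≤ 0.7 * k := by (clear * - hd0 hd hkr; linarith)
  have hsec : ((2:ℝ) ^ r + 1) * (k + 1) ≤ cS / (1000 * p) * H / (k:ℝ) ^ 2 := by
    rw [le_div_iff₀ (by positivity)]
    calc ((2:ℝ) ^ r + 1) * (k + 1) * (k:ℝ) ^ 2 ≤ (8 * (2:ℝ) ^ ((0.26:ℝ) * k)) * (1.001 * k) * (k:ℝ) ^ 2 := by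
          (clear * - hr3 hk1 hk1000; gcongr)
      _ ≤ cS / (1000 * p) * ((10000 * p / cS) * (k : ℝ) ^ 4 * (2:ℝ) ^ ((0.26:ℝ) * k)) := by
          have e5 : cS / (1000 * p) * ((10000 * p / cS) * (k : ℝ) ^ 4 * (2:ℝ) ^ ((0.26:ℝ) * k)) =
            10 * (k : ℝ) ^ 4 * (2:ℝ) ^ ((0.26:ℝ) * k) := by
            field_simp; norm_num
          rw [e5]
          have h6 : (0:ℝ) < (2:ℝ) ^ ((0.26:ℝ) * k) := by positivity
          have h7 : 8 * (1.001 * (k:ℝ)) * (k:ℝ) ^ 2 ≤ 10 * (k : ℝ) ^ 4 := by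
            have : (k:ℝ) ^ 3 ≤ (k:ℝ) ^ 4 := pow_le_pow_right₀ (by (clear * - hd0 hd hkr; linarith)) (by norm_num)
            (clear * - this; nlinarith)
          calc _ = (8 * (1.001 * (k:ℝ)) * (k:ℝ) ^ 2) * (2:ℝ) ^ ((0.26:ℝ) * k) := by ring
            _ ≤ _ := by (clear * - h7; gcongr)
      _ ≤ cS / (1000 * p) * H := by
          gcongr
          exact hbig.trans he5
  rw [hlamdef]
  calc 1 / (H / (8 * p * X)) * (((k + 1) * Real.log 2) * (cS / (200 * p) * H / (k : ℝ) ^ 2 +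
        ((2:ℝ) ^ r + 1) * (k + 1))) ≤
      1 / (H / (8 * p * X)) * ((0.7 * k) * (cS / (200 * p) * H / (k : ℝ) ^ 2 +
        cS / (1000 * p) * H / (k:ℝ) ^ 2)) := by
        (clear * - hkl hsec hcS hp hk1000; gcongr)
    _ = (8 * 0.7 * 0.006) * X * (cS / k) := by
        field_simp
        norm_num
    _ ≤ 1 / 8 * X * (cS / k) := by
        gcongr
        norm_num
    _ ≤ 1 / 8 * X * S1 k := by
        (clear * - hSk; gcongr)

end Pool.Agent.M17.Helper60.KE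
end
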