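import Mathlib
import Pool.Agent.Helper53.KM.G03
import Pool.Agent.Helper53.KM.G13
import Pool.Agent.Helper53.KM.G19

/- Helper53.KN.Helper53.AV.SelbergP -/
section
/-!
# AV2: Selberg's sieve for multiples of `p` in an interval
-/

set_option autoImplicit false

namespace Pool.Agent.M17.Helper53AV

open Finset
open Pool.Agent.M17.Helper69.EK (AA mem_AA lamW GG_pos)

/-- the product of the primes in `(z, R]` -/
noncomputable def DD (z : ℝ) (R : ℕ) : ℕ := by
  classical
  exact ∏ p ∈ (Icc 1 R).filter (fun p : ℕ => p.Prime ∧ z < (p : ℝ)), p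

theorem coprime_DD {z : ℝ} {R l : ℕ} (hl : 1 ≤ l) (hlR : l ≤ R) :
    Nat.Coprime l (DD z R) ↔ ∀ r : ℕ, r.Prime → r ∣ l → (r : ℝ) ≤ z := by
  classical
  unfold DD
  constructor
  · intro h r hr hrl
    by_contra hz
    push Not at hz
    have hrR : r ≤ R := (Nat.le_of_dvd hl hrl).trans hlR
    have hmem : r ∈ (Icc 1 R).filter (fun p : ℕ => p.Prime ∧ z < (p : ℝ)) := by
      rw [Finset.mem_filter, Finset.mem_Icc]
      exact ⟨⟨hr.one_le, hrR⟩, hr, hz⟩
    exact Nat.not_coprime_of_dvd_of_dvd hr.one_lt hrl (Finset.dvd_prod_of_mem _ hmem) h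
  · intro h
    rw [Nat.coprime_prod_right_iff]
    intro p hp
    rw [Finset.mem_filter] at hp
    rw [Nat.coprime_comm, Nat.Prime.coprime_iff_not_dvd hp.2.1]
    intro hpl
    exact absurd (h p hp.2.1 hpl) (not_le.2 hp.2.2)

theorem GG_eq (z Y : ℝ) : Pool.Agent.M17.Helper40.AV.GG z Y =
    Pool.Agent.M17.Helper69.EK.GG (DD z ⌊Y⌋₊) ⌊Y⌋₊ := by
  classical
  unfold Pool.Agent.M17.Helper40.AV.GG Pool.Agent.M17.Helper69.EK.GG
  apply Finset.sum_congr _ (fun _ _ => rfl)
  ext l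
  rw [mem_AA, Finset.mem_filter, Finset.mem_Icc]
  constructor
  · rintro ⟨h1, h2, h3⟩
    exact ⟨h1, h2, (coprime_DD h1.1 h1.2).2 h3⟩
  · rintro ⟨h1, h2, h3⟩
    exact ⟨h1, h2, (coprime_DD h1.1 h1.2).1 h3⟩

/-- the number of multiples of `q` in an interval -/
theorem card_mult (y l q : ℕ) (hq : 0 < q) :
    |((((Finset.Ico y (y + l)).filter fun n => q ∣ n).card : ℕ) : ℝ) - (l : ℝ) / q| ≤ 1 := by
  have hq' : (0 : ℚ) < q := by exact_mod_cast hq
  have h0 : ((Finset.Ico y (y + l)).filter fun n => q ∣ n) =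
      (Finset.Ico y (y + l)).filter fun n => n ≡ 0 [MOD q] := by
    apply Finset.filter_congr
    intro n _
    exact (Nat.modEq_zero_iff_dvd).symm
  have h1 := Nat.Ico_filter_modEq_card y (y + l) hq 0
  rw [← h0] at h1
  simp only [Nat.cast_zero, sub_zero] at h1
  have hle : ⌈(y : ℚ) / (q : ℚ)⌉ ≤ ⌈((y + l : ℕ) : ℚ) / (q : ℚ)⌉ := by
    apply Int.ceil_mono
    apply div_le_div_of_nonneg_right _ hq'.le
    push_cast
    have : (0 : ℚ) ≤ l := Nat.cast_nonneg _
    linarith
  rw [max_eq_left (sub_nonneg.2 hle)] at h1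
  set N := ((Finset.Ico y (y + l)).filter fun n => q ∣ n).card with hN
  have h2 : (N : ℚ) = (⌈((y + l : ℕ) : ℚ) / (q : ℚ)⌉ : ℚ) - (⌈(y : ℚ) / (q : ℚ)⌉ : ℚ) := by
    exact_mod_cast h1
  have a1 := Int.le_ceil (((y + l : ℕ) : ℚ) / (q : ℚ))
  have a2 := Int.ceil_lt_add_one (((y + l : ℕ) : ℚ) / (q : ℚ))
  have a3 := Int.le_ceil ((y : ℚ) / (q : ℚ))
  have a4 := Int.ceil_lt_add_one ((y : ℚ) / (q : ℚ))
  have a5 : ((y + l : ℕ) : ℚ) / (q : ℚ) = (y : ℚ) / q + (l : ℚ) / q := by
    push_cast; rw [add_div]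
  have h3 : |(N : ℚ) - (l : ℚ) / q| ≤ 1 := by
    rw [abs_le]
    rw [a5] at a1 a2
    constructor
    · rw [h2, a5]; linarith
    · rw [h2, a5]; linarith
  have h4 : ((|(N : ℚ) - (l : ℚ) / q| : ℚ) : ℝ) ≤ ((1 : ℚ) : ℝ) := Rat.cast_le.2 h3
  push_cast at h4
  exact h4

theorem selbergP : Pool.Agent.M17.Helper40.AV.SelbergP := by
  classical
  intro y l p z Y hp hY
  rw [GG_eq]
  set R := ⌊Y⌋₊ with hR
  have hR1 : 1 ≤ R := (Nat.one_le_floor_iff Y).2 hY
  set D := DD z R with hD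
  have hG := GG_pos D R hR1
  set S := (Finset.Ico y (y + l)).filter fun n => p ∣ n with hS
  set lam := lamW D R with hlam
  -- the count is at most the sum of squares
  have h1 : ((((Finset.Ico y (y + l)).filter fun n => p ∣ n ∧
      ∀ r : ℕ, r.Prime → r ∣ n → z < r).card : ℕ) : ℝ) ≤
      ∑ n ∈ S, (∑ d ∈ (Icc 1 R).filter (fun d => d ∣ n / p), lam d) ^ 2 := by
    have hsub : ((Finset.Ico y (y + l)).filter fun n => p ∣ n ∧
      ∀ r : ℕ, r.Prime → r ∣ n → z < r) ⊆ S := by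
      intro n hn
      rw [Finset.mem_filter] at hn ⊢
      exact ⟨hn.1, hn.2.1⟩
    rw [Finset.card_eq_sum_ones, Nat.cast_sum]
    refine le_trans (Finset.sum_le_sum ?_) (Finset.sum_le_sum_of_subset_of_nonneg hsub
      (fun _ _ _ => sq_nonneg _))
    intro n hn
    rw [Finset.mem_filter] at hn
    have h2 : ∑ d ∈ (Icc 1 R).filter (fun d => d ∣ n / p), lam d = 1 := by
      rw [Finset.sum_eq_single 1]
      · exact lamW_one D R hR1
      · intro d hd hd1
        rw [Finset.mem_filter, Finset.mem_Icc] at hd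
        by_contra hne
        have hA := mem_AA.1 (lamW_ne hne)
        have h3 := (coprime_DD hd.1.1 hd.1.2).1 hA.2.2
        obtain ⟨r, hr, hrd⟩ := Nat.exists_prime_and_dvd hd1
        have h4 : r ∣ n := (hrd.trans hd.2).trans (Nat.div_dvd_of_dvd hn.2.1)
        exact absurd (h3 r hr hrd) (not_le.2 (hn.2.2 r hr h4))
      · intro h
        refine absurd ?_ h
        rw [Finset.mem_filter, Finset.mem_Icc]
        exact ⟨⟨le_refl _, hR1⟩, one_dvd _⟩
    rw [h2]
    norm_num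
  -- expansion
  have h2 : ∑ n ∈ S, (∑ d ∈ (Icc 1 R).filter (fun d => d ∣ n / p), lam d) ^ 2 =
      ∑ d₁ ∈ Icc 1 R, ∑ d₂ ∈ Icc 1 R, lam d₁ * lam d₂ *
        (((Finset.Ico y (y + l)).filter fun n => p * Nat.lcm d₁ d₂ ∣ n).card : ℝ) := by
    have h3 : ∀ n ∈ S, (∑ d ∈ (Icc 1 R).filter (fun d => d ∣ n / p), lam d) ^ 2 =
        ∑ d₁ ∈ Icc 1 R, ∑ d₂ ∈ Icc 1 R, lam d₁ * lam d₂ *
          (if p * Nat.lcm d₁ d₂ ∣ n then 1 else 0) := by
      intro n hn
      rw [hS, Finset.mem_filter] at hn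
      rw [Finset.sum_filter, sq, Finset.sum_mul_sum]
      apply Finset.sum_congr rfl
      intro d₁ _
      apply Finset.sum_congr rfl
      intro d₂ _
      have h4 : p * Nat.lcm d₁ d₂ ∣ n ↔ d₁ ∣ n / p ∧ d₂ ∣ n / p := by
        rw [← Nat.lcm_dvd_iff, Nat.dvd_div_iff_mul_dvd hn.2]
      by_cases c1 : d₁ ∣ n / p
      · by_cases c2 : d₂ ∣ n / p
        · rw [if_pos c1, if_pos c2, if_pos (h4.2 ⟨c1, c2⟩), mul_one]
        · rw [if_neg c2, if_neg (fun h => c2 (h4.1 h).2), mul_zero, mul_zero]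
      · rw [if_neg c1, if_neg (fun h => c1 (h4.1 h).1), mul_zero, zero_mul]
    rw [Finset.sum_congr rfl h3, Finset.sum_comm]
    apply Finset.sum_congr rfl
    intro d₁ _
    rw [Finset.sum_comm]
    apply Finset.sum_congr rfl
    intro d₂ _
    rw [← Finset.mul_sum]
    congr 1
    rw [← Finset.sum_filter, Finset.card_eq_sum_ones, Nat.cast_sum, hS, Finset.filter_filter]
    simp only [Nat.cast_one]
    apply Finset.sum_congr _ (fun _ _ => rfl)
    apply Finset.filter_congr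
    intro n _
    constructor
    · rintro ⟨_, h⟩; exact h
    · intro h; exact ⟨(Nat.dvd_mul_right _ _).trans h, h⟩
  have hp0 : (0 : ℝ) < p := by exact_mod_cast hp
  have h5 : ∀ d₁ ∈ Icc 1 R, ∀ d₂ ∈ Icc 1 R, lam d₁ * lam d₂ *
        (((Finset.Ico y (y + l)).filter fun n => p * Nat.lcm d₁ d₂ ∣ n).card : ℝ) ≤
      (l : ℝ) / p * (lam d₁ * lam d₂ / (Nat.lcm d₁ d₂ : ℝ)) + 1 := by
    intro d₁ h₁ d₂ h₂
    rw [Finset.mem_Icc] at h₁ h₂
    have hl0 : 0 < Nat.lcm d₁ d₂ := Nat.lcm_pos h₁.1 h₂.1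
    have h6 := card_mult y l (p * Nat.lcm d₁ d₂) (Nat.mul_pos hp hl0)
    set N := (((Finset.Ico y (y + l)).filter fun n => p * Nat.lcm d₁ d₂ ∣ n).card : ℝ) with hN
    have h7 : |lam d₁ * lam d₂| ≤ 1 := by
      rw [abs_mul]
      calc _ ≤ (1 : ℝ) * 1 := mul_le_mul (abs_lamW_le D R d₁ hR1) (abs_lamW_le D R d₂ hR1)
            (abs_nonneg _) zero_le_one
        _ = 1 := one_mul 1
    have h8 : lam d₁ * lam d₂ * (N - (l : ℝ) / ((p * Nat.lcm d₁ d₂ : ℕ) : ℝ)) ≤ 1 := by
      refine (le_abs_self _).trans ?_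
      rw [abs_mul]
      calc _ ≤ (1 : ℝ) * 1 := mul_le_mul h7 h6 (abs_nonneg _) zero_le_one
        _ = 1 := one_mul 1
    have h9 : (l : ℝ) / p * (lam d₁ * lam d₂ / (Nat.lcm d₁ d₂ : ℝ)) =
        lam d₁ * lam d₂ * ((l : ℝ) / ((p * Nat.lcm d₁ d₂ : ℕ) : ℝ)) := by
      push_cast
      have : ((Nat.lcm d₁ d₂ : ℕ) : ℝ) ≠ 0 := by exact_mod_cast hl0.ne'
      field_simp
    rw [h9]
    nlinarith
  have h6 : ∑ n ∈ S, (∑ d ∈ (Icc 1 R).filter (fun d => d ∣ n / p), lam d) ^ 2 ≤
      (l : ℝ) / p * (1 / Pool.Agent.M17.Helper69.EK.GG D R) + (R : ℝ) ^ 2 := by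
    rw [h2]
    refine (Finset.sum_le_sum fun d₁ h₁ => Finset.sum_le_sum fun d₂ h₂ => h5 d₁ h₁ d₂ h₂).trans ?_
    simp only [Finset.sum_add_distrib, ← Finset.mul_sum, Finset.sum_const, Nat.card_Icc,
      nsmul_eq_mul, mul_one, Nat.add_sub_cancel]
    rw [quad D R hR1]
    apply le_of_eq
    ring
  have hRY : (R : ℝ) ≤ Y := Nat.floor_le (by linarith)
  have hR0 : (0 : ℝ) ≤ R := Nat.cast_nonneg _
  have h7 : (l : ℝ) / p * (1 / Pool.Agent.M17.Helper69.EK.GG D R) ≤
      (l / p + 1) / Pool.Agent.M17.Helper69.EK.GG D R := by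
    rw [mul_one_div]
    apply div_le_div_of_nonneg_right _ hG.le
    linarith
  nlinarith [h1, h6, h7]

end Pool.Agent.M17.Helper53AV
end

/- Helper53.KN.Helper55.AV.SelUp -/
section
/-! Project AV (LS1): Selberg's upper bound for the number of rough integers in intervals. -/

set_option autoImplicit false

open Filter Topology

namespace Pool.Agent.M17.Helper55.AV

open Pool.Agent.M17.Helper40.AV

open Classical in
theorem rs_le (hS : SelbergP) (y l : ℕ) (z Y : ℝ) (hY : 1 ≤ Y) :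
    ((RS y l z).card : ℝ) ≤ (l + 1) / GG z Y + Y ^ 2 := by
  have h := hS y l 1 z Y le_rfl hY
  have e : (Finset.Ico y (y + l)).filter (fun n => 1 ∣ n ∧
      ∀ r : ℕ, r.Prime → r ∣ n → z < r) = RS y l z := by
    unfold RS
    refine Finset.filter_congr fun n _ => ?_
    simp
  rw [e] at h
  simpa using h

/-- the general form -/
theorem upB_of (hS : SelbergP) (hM : Mertens3) {s c : ℝ} (hs : 1 ≤ s) (hc : 0 < c)
    (h : ∀ κ : ℝ, 0 < κ → ∃ k : ℝ, 0 < k ∧ k ≤ s / 2 ∧ ∃ z₁ : ℝ, ∀ z : ℝ, z₁ ≤ z →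
      (c - κ) * Real.log z ≤ GG z (z ^ (s / 2 - k))) :
    UpB s (Real.exp Real.eulerMascheroniConstant / c) := by
  intro ε hε
  set γ₀ : ℝ := Real.exp (-Real.eulerMascheroniConstant) with hγ₀
  have hγpos : 0 < γ₀ := Real.exp_pos _
  have hmul : Real.exp Real.eulerMascheroniConstant * γ₀ = 1 := by
    rw [hγ₀, ← Real.exp_add, add_neg_cancel, Real.exp_zero]
  -- choice of kappa
  obtain ⟨κ, hκ0, hκc, hκ⟩ : ∃ κ : ℝ, 0 < κ ∧ κ < c ∧ 1 / (c - κ) < 1 / c + ε * γ₀ := by
    have h1 : Tendsto (fun κ : ℝ => 1 / (c - κ)) (𝓝 0) (𝓝 (1 / c)) := by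
      have : ContinuousAt (fun κ : ℝ => 1 / (c - κ)) 0 := by
        refine ContinuousAt.div continuousAt_const (continuousAt_const.sub continuousAt_id) ?_
        simpa using hc.ne'
      simpa [ContinuousAt] using this
    have h2 : ∀ᶠ κ : ℝ in 𝓝[>] 0, 1 / (c - κ) < 1 / c + ε * γ₀ :=
      (h1.mono_left nhdsWithin_le_nhds).eventually_lt_const (by
        have := mul_pos hε hγpos
        linarith)
    have h3 : ∀ᶠ κ : ℝ in 𝓝[>] 0, κ < c := nhdsWithin_le_nhds (Iio_mem_nhds hc)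
    have h4 : ∀ᶠ κ : ℝ in 𝓝[>] 0, 0 < κ := self_mem_nhdsWithin
    obtain ⟨κ, a, b, d⟩ := (h4.and (h3.and h2)).exists
    exact ⟨κ, a, b, d⟩
  obtain ⟨k, hk0, hks, z₁, hz₁⟩ := h κ hκ0
  have hcκ : 0 < c - κ := by (clear * - hκc; linarith)
  -- limits
  have t1 : Tendsto (fun z : ℝ => (1 + 1 / z) / (c - κ) + z ^ (-(2 * k)) * Real.log z) atTop
      (𝓝 (1 / (c - κ))) := by
    have a1 : Tendsto (fun z : ℝ => (1 + 1 / z) / (c - κ)) atTop (𝓝 ((1 + 0) / (c - κ))) := by
      apply Tendsto.div_const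
      apply Tendsto.const_add
      exact tendsto_const_nhds.div_atTop tendsto_id
    have a2 : Tendsto (fun z : ℝ => z ^ (-(2 * k)) * Real.log z) atTop (𝓝 0) := by
      have h1 := isLittleO_log_rpow_atTop (show (0 : ℝ) < 2 * k by (clear * - hk0; linarith))
      refine h1.tendsto_div_nhds_zero.congr' ?_
      filter_upwards [eventually_gt_atTop (0 : ℝ)] with z hz
      rw [Real.rpow_neg hz.le, div_eq_mul_inv, mul_comm]
    have := a1.add a2
    simpa using this
  have t2 : Tendsto (fun z : ℝ => (Real.exp Real.eulerMascheroniConstant / c + ε) *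
      (VV z * Real.log z)) atTop (𝓝 (1 / c + ε * γ₀)) := by
    have h1 := hM.const_mul (Real.exp Real.eulerMascheroniConstant / c + ε)
    have h2 : (Real.exp Real.eulerMascheroniConstant / c + ε) *
        Real.exp (-Real.eulerMascheroniConstant) = 1 / c + ε * γ₀ := by
      rw [← hγ₀, add_mul, div_mul_eq_mul_div, hmul]
    rwa [h2] at h1
  have e1 : ∀ᶠ z : ℝ in atTop, (1 + 1 / z) / (c - κ) + z ^ (-(2 * k)) * Real.log z <
      (Real.exp Real.eulerMascheroniConstant / c + ε) * (VV z * Real.log z) :=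
    t1.eventually_lt t2 hκ
  obtain ⟨z₀, hz₀⟩ := eventually_atTop.1 (e1.and ((eventually_ge_atTop z₁).and
    (eventually_gt_atTop (1 : ℝ))))
  refine ⟨z₀, fun z hz y l hl => ?_⟩
  obtain ⟨b1, b2, b3⟩ := hz₀ z hz
  have hz0 : 0 < z := by (clear * - b3; linarith)
  have hL : 0 < Real.log z := Real.log_pos b3
  have hzs : z ≤ z ^ s := by
    have := Real.rpow_le_rpow_of_exponent_le b3.le hs
    rwa [Real.rpow_one] at this
  have hl0 : (0 : ℝ) < l := by (clear * - hl b3 hzs; linarith)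
  set Y : ℝ := z ^ (s / 2 - k) with hY
  have hY1 : 1 ≤ Y := Real.one_le_rpow b3.le (by (clear * - hks; linarith))
  have hG := hz₁ z b2
  have hcL : 0 < (c - κ) * Real.log z := mul_pos hcκ hL
  have hGG : 0 < GG z Y := hcL.trans_le hG
  have hY2 : Y ^ 2 ≤ l * z ^ (-(2 * k)) := by
    have : Y ^ 2 = z ^ s * z ^ (-(2 * k)) := by
      rw [hY, ← Real.rpow_natCast, ← Real.rpow_mul hz0.le, ← Real.rpow_add hz0]
      congr 1
      push_cast
      ring
    rw [this]
    exact mul_le_mul_of_nonneg_right hl (Real.rpow_nonneg hz0.le _)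
  have hl1 : (l : ℝ) + 1 ≤ l * (1 + 1 / z) := by
    have : (1 : ℝ) ≤ l * (1 / z) := by
      rw [mul_one_div, le_div_iff₀ hz0]
      (clear * - hl hzs; linarith)
    (clear * - this; linarith)
  have h5 : ((l : ℝ) + 1) / GG z Y ≤ l * (1 + 1 / z) / ((c - κ) * Real.log z) := by
    have h50 : (0 : ℝ) ≤ (l : ℝ) + 1 := by (clear * - hl b3 hzs; linarith)
    calc ((l : ℝ) + 1) / GG z Y ≤ ((l : ℝ) + 1) / ((c - κ) * Real.log z) :=
          div_le_div_of_nonneg_left h50 hcL hG
      _ ≤ _ := div_le_div_of_nonneg_right hl1 hcL.le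
  have h6 := rs_le hS y l z Y hY1
  have h7 : l * (1 + 1 / z) / ((c - κ) * Real.log z) + l * z ^ (-(2 * k)) =
      (l / Real.log z) * ((1 + 1 / z) / (c - κ) + z ^ (-(2 * k)) * Real.log z) := by
    (clear * - b3 hL hcκ hl0; field_simp)
  calc ((RS y l z).card : ℝ) ≤ l * (1 + 1 / z) / ((c - κ) * Real.log z) + l * z ^ (-(2 * k)) := by
        (clear * - hY2 h5 h6; linarith)
    _ = (l / Real.log z) * ((1 + 1 / z) / (c - κ) + z ^ (-(2 * k)) * Real.log z) := h7
    _ ≤ (l / Real.log z) * ((Real.exp Real.eulerMascheroniConstant / c + ε) *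
        (VV z * Real.log z)) := mul_le_mul_of_nonneg_left b1.le (by (clear * - hl0 hL; positivity))
    _ = _ := by
      (clear * - hc hL hε hl0; field_simp)

theorem log_two_lt : Real.log 2 < 0.6932 := by
  have := Real.log_two_lt_d9
  (clear * - this; linarith)

theorem cu_pos {u : ℝ} (h1 : 1 ≤ u) (h2 : u ≤ 2) : 0 < cu u := by
  unfold cu
  have h3 : Real.log u ≤ Real.log 2 := Real.log_le_log (by linarith) h2
  have h4 := log_two_lt
  nlinarith

theorem cu_cont {u : ℝ} (h : 0 < u) : ContinuousAt cu u := by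
  unfold cu
  have : ContinuousAt Real.log u := Real.continuousAt_log h.ne'
  fun_prop

theorem selUp1 (hS : SelbergP) (hM : Mertens3) (hT : GGtriv) {s : ℝ} (h1 : 1 ≤ s) (h2 : s ≤ 2) :
    UpB s (Real.exp Real.eulerMascheroniConstant / (s / 2)) := by
  refine upB_of hS hM h1 (by linarith) fun κ hκ => ?_
  refine ⟨min κ (1 / 4), lt_min hκ (by norm_num), (min_le_right _ _).trans (by (clear * - h1; linarith)), 1,
    fun z hz => ?_⟩
  have hz0 : 0 < z := by linarith
  have hk1 : min κ (1 / 4) ≤ κ := min_le_left _ _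
  have hk2 : min κ (1 / 4) ≤ 1 / 4 := min_le_right _ _
  have hk3 : 0 < min κ (1 / 4) := lt_min hκ (by norm_num)
  have h3 := hT z (z ^ (s / 2 - min κ (1 / 4))) (Real.one_le_rpow hz (by (clear * - h1 hk2; linarith))) (by
    have := Real.rpow_le_rpow_of_exponent_le hz (show s / 2 - min κ (1 / 4) ≤ 1 by (clear * - h2 hk3; linarith))
    rwa [Real.rpow_one] at this)
  rw [Real.log_rpow hz0] at h3
  refine le_trans (mul_le_mul_of_nonneg_right ?_ (Real.log_nonneg hz)) h3
  (clear * - hk1; linarith)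

theorem selUp (hS : SelbergP) (hM : Mertens3) (hT : GGtriv) (hG : GGlow) : SelUp := by
  refine ⟨fun s h1 h2 => ?_, fun s h1 h2 => ?_⟩
  · have := selUp1 hS hM hT h1 h2
    rwa [div_div_eq_mul_div, mul_comm] at this
  · rcases h1.eq_or_lt with h3 | h3
    · subst h3
      have := selUp1 hS hM hT (s := 2) (by norm_num) le_rfl
      have e : cu (2 / 2) = 2 / 2 := by
        unfold cu
        norm_num
      rw [e]
      exact this
    · refine upB_of hS hM (by linarith) (cu_pos (by (clear * - h3; linarith)) (by (clear * - h2; linarith))) fun κ hκ => ?_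
      obtain ⟨C, hC⟩ := hG
      -- choice of k
      obtain ⟨k, hk0, hk1, hk2⟩ : ∃ k : ℝ, 0 < k ∧ 1 ≤ s / 2 - k ∧
          cu (s / 2) - κ / 2 < cu (s / 2 - k) := by
        have a1 : Tendsto (fun k : ℝ => cu (s / 2 - k)) (𝓝 0) (𝓝 (cu (s / 2))) := by
          have b1 : ContinuousAt (fun k : ℝ => cu (s / 2 - k)) 0 := by
            refine ContinuousAt.comp (g := cu) (f := fun k : ℝ => s / 2 - k) ?_
              (continuousAt_const.sub continuousAt_id)
            apply cu_cont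
            simp only [sub_zero]
            linarith
          simpa [ContinuousAt] using b1
        have a2 : ∀ᶠ k : ℝ in 𝓝[>] 0, cu (s / 2) - κ / 2 < cu (s / 2 - k) :=
          (a1.mono_left nhdsWithin_le_nhds).eventually_const_lt (by linarith)
        have a3 : ∀ᶠ k : ℝ in 𝓝[>] 0, k < s / 2 - 1 :=
          nhdsWithin_le_nhds (Iio_mem_nhds (by (clear * - h3; linarith)))
        have a4 : ∀ᶠ k : ℝ in 𝓝[>] 0, 0 < k := self_mem_nhdsWithin
        obtain ⟨k, c1, c2, c3⟩ := (a4.and (a3.and a2)).exists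
        exact ⟨k, c1, by linarith, c3⟩
      have e1 : ∀ᶠ z : ℝ in atTop, C ≤ κ / 2 * Real.log z := by
        have := Real.tendsto_log_atTop.const_mul_atTop (show 0 < κ / 2 by (clear * - hκ; linarith))
        exact this.eventually_ge_atTop C
      obtain ⟨z₁, hz₁⟩ := eventually_atTop.1 (e1.and (eventually_ge_atTop (2 : ℝ)))
      refine ⟨k, hk0, by (clear * - hk1; linarith), z₁, fun z hz => ?_⟩
      obtain ⟨d1, d2⟩ := hz₁ z hz
      have hL : 0 ≤ Real.log z := Real.log_nonneg (by (clear * - d2; linarith))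
      have h5 := hC z (s / 2 - k) d2 hk1 (by (clear * - h2 hk0; linarith))
      have h6 : (cu (s / 2) - κ / 2) * Real.log z ≤ cu (s / 2 - k) * Real.log z :=
        mul_le_mul_of_nonneg_right hk2.le hL
      unfold cu at h6 ⊢
      (clear * - d1 h5 h6; linarith)

end Pool.Agent.M17.Helper55.AV
end

/- Helper53.KN.Helper7.AV.GGlow -/
section
/-! Project AV (part of KS, MP_768c9c_nt), module AV3a: lower bounds for Selberg's sum. -/

set_option autoImplicit false

namespace Pool.Agent.M17.Helper7.AV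

open Finset Pool.Agent.M17.Helper40.AV

/-- all primes of `m` are at most `z` -/
def Sm (z : ℝ) (m : ℕ) : Prop := ∀ r : ℕ, r.Prime → r ∣ m → (r : ℝ) ≤ z

open Classical in
/-- the sum over smooth integers is at most Selberg's sum -/
theorem smooth_le (z Y : ℝ) :
    ∑ m ∈ (Icc 1 ⌊Y⌋₊).filter (fun m => Sm z m), (1 : ℝ) / m ≤ GG z Y := by
  set R := ⌊Y⌋₊ with hR
  have hGG : GG z Y = ∑ l ∈ (Icc 1 R).filter (fun m => Squarefree m ∧ Sm z m),
      (1 : ℝ) / l.totient := by
    unfold GG Sm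
    rfl
  rw [hGG]
  have hmaps : ∀ m ∈ (Icc 1 R).filter (fun m => Sm z m), (∏ p ∈ m.primeFactors, p) ∈
      (Icc 1 R).filter (fun m => Squarefree m ∧ Sm z m) := by
    intro m hm
    rw [Finset.mem_filter, Finset.mem_Icc] at hm
    rw [Finset.mem_filter, Finset.mem_Icc]
    have hdvd := Nat.prod_primeFactors_dvd m
    have hpos : 0 < ∏ p ∈ m.primeFactors, p := Nat.pos_of_dvd_of_pos hdvd (by omega)
    exact ⟨⟨hpos, (Nat.le_of_dvd (by omega) hdvd).trans hm.1.2⟩,
      Pool.Agent.M17.Helper69.EK.squarefree_prod_primes _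
        (fun p hp => Nat.prime_of_mem_primeFactors hp),
      fun r hr hrd => hm.2 r hr (hrd.trans hdvd)⟩
  rw [← Finset.sum_fiberwise_of_maps_to hmaps]
  apply Finset.sum_le_sum
  intro l hl
  rw [Finset.mem_filter] at hl
  rw [Pool.Agent.M17.Helper69.EK.totient_sqf hl.2.1]
  refine le_trans ?_ (Pool.Agent.M17.Helper69.EK.claim_rad l.primeFactors
    (fun p hp => Nat.prime_of_mem_primeFactors hp) R)
  apply Finset.sum_le_sum_of_subset_of_nonneg
  · intro m hm
    rw [Finset.mem_filter, Finset.mem_filter] at hm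
    rw [Finset.mem_filter]
    refine ⟨hm.1.1, ?_⟩
    rw [← hm.2, Nat.primeFactors_prod_primeFactors]
  · intro _ _ _
    (clear * -; positivity)

theorem harm_ge (n : ℕ) : Real.log ((n : ℝ) + 1) ≤ ∑ k ∈ Icc 1 n, (1 : ℝ) / k := by
  have h := log_add_one_le_harmonic n
  rw [harmonic_eq_sum_Icc] at h
  push_cast at h
  simpa [one_div] using h

theorem harm_le (n : ℕ) : ∑ k ∈ Icc 1 n, (1 : ℝ) / k ≤ 1 + Real.log n := by
  have h := harmonic_le_one_add_log n
  rw [harmonic_eq_sum_Icc] at h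
  push_cast at h
  simpa [one_div] using h

theorem ggtriv : GGtriv := by
  classical
  intro z Y hY hYz
  refine le_trans ?_ (smooth_le z Y)
  have h1 : (Icc 1 ⌊Y⌋₊).filter (fun m => Sm z m) = Icc 1 ⌊Y⌋₊ := by
    apply Finset.filter_true_of_mem
    intro m hm r _ hrm
    rw [Finset.mem_Icc] at hm
    have h2 : r ≤ m := Nat.le_of_dvd (by omega) hrm
    have h3 : (m : ℝ) ≤ Y := (Nat.le_floor_iff (by (clear * - hY; linarith))).1 hm.2
    have h4 : (r : ℝ) ≤ m := by exact_mod_cast h2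
    (clear * - hYz h3 h4; linarith)
  rw [h1]
  refine le_trans ?_ (harm_ge _)
  exact Real.log_le_log (by (clear * - hY; linarith)) (Nat.lt_floor_add_one Y).le

theorem multiples_le {N p : ℕ} (hp : 1 ≤ p) (hpN : p ≤ N) :
    ∑ m ∈ Icc 1 N, (if p ∣ m then (1 : ℝ) / m else 0) ≤
      1 / p * (1 + Real.log N - Real.log p) := by
  have h1 : ∑ m ∈ Icc 1 N, (if p ∣ m then (1 : ℝ) / m else 0) =
      ∑ k ∈ Icc 1 (N / p), (1 : ℝ) / p * (1 / k) := by
    rw [← Finset.sum_filter]
    symm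
    refine Finset.sum_bij (fun k _ => p * k) ?_ ?_ ?_ ?_
    · intro k hk
      rw [Finset.mem_Icc] at hk
      rw [Finset.mem_filter, Finset.mem_Icc]
      refine ⟨⟨Nat.mul_pos hp hk.1, ?_⟩, dvd_mul_right _ _⟩
      rw [mul_comm]
      exact (Nat.le_div_iff_mul_le hp).1 hk.2
    · intro a _ b _ hab
      exact Nat.eq_of_mul_eq_mul_left hp hab
    · intro m hm
      rw [Finset.mem_filter, Finset.mem_Icc] at hm
      obtain ⟨⟨hm1, hm2⟩, k, rfl⟩ := hm
      refine ⟨k, ?_, rfl⟩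
      rw [Finset.mem_Icc]
      refine ⟨Nat.pos_of_mul_pos_left hm1, ?_⟩
      rw [Nat.le_div_iff_mul_le hp, mul_comm]
      exact hm2
    · intro k _
      push_cast
      rw [one_div_mul_one_div]
  rw [h1, ← Finset.mul_sum]
  apply mul_le_mul_of_nonneg_left _ (by (clear * - hp; positivity))
  refine (harm_le _).trans ?_
  have hq : 1 ≤ N / p := (Nat.one_le_div_iff hp).2 hpN
  have h2 : ((N / p : ℕ) : ℝ) ≤ (N : ℝ) / p := Nat.cast_div_le
  have h3 : Real.log ((N / p : ℕ) : ℝ) ≤ Real.log N - Real.log p := by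
    rw [← Real.log_div (by norm_cast; omega) (by norm_cast; omega)]
    exact Real.log_le_log (by exact_mod_cast hq) h2
  (clear * - h3; linarith)

theorem gglow : GGlow := by
  classical
  obtain ⟨C, hC, hMI⟩ := Pool.Agent.M17.Helper44.mertens_interval
  obtain ⟨C0, hC0, hMF⟩ := Pool.Agent.M17.Helper44.mertens_first
  refine ⟨2 * C + (2 * C0 + Real.log 2) + (Real.log 2 + C / Real.log 2), ?_⟩
  intro z u hz hu1 hu2
  have hz0 : (0 : ℝ) < z := by linarith
  set L := Real.log z with hL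
  have hL2 : Real.log 2 ≤ L := Real.log_le_log (by norm_num) hz
  have hlog2 : 0 < Real.log 2 := Real.log_pos (by norm_num)
  have hL0 : 0 < L := by linarith
  set Y := z ^ u with hY
  have hlogY : Real.log Y = u * L := by rw [hY, Real.log_rpow hz0]
  have hzY : z ≤ Y := by
    rw [hY]
    calc z = z ^ (1 : ℝ) := (Real.rpow_one z).symm
      _ ≤ z ^ u := Real.rpow_le_rpow_of_exponent_le (by (clear * - hz; linarith)) hu1
  set N := ⌊Y⌋₊ with hN
  set M := ⌊z⌋₊ with hM
  have hM2 : 2 ≤ M := Nat.le_floor (by exact_mod_cast hz)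
  have hMN : M ≤ N := Nat.floor_le_floor hzY
  have hN0 : (0 : ℝ) < N := by
    have : (2 : ℝ) ≤ N := by exact_mod_cast hM2.trans hMN
    (clear * - this; linarith)
  have hNY : (N : ℝ) ≤ Y := Nat.floor_le (by (clear * - hz hzY; linarith))
  set P := (Ioc M N).filter Nat.Prime with hP
  -- the smooth part
  refine le_trans ?_ (smooth_le z Y)
  have hsplit : ∑ m ∈ Icc 1 N, (1 : ℝ) / m =
      ∑ m ∈ (Icc 1 N).filter (fun m => Sm z m), (1 : ℝ) / m +
      ∑ m ∈ (Icc 1 N).filter (fun m => ¬ Sm z m), (1 : ℝ) / m :=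
    (Finset.sum_filter_add_sum_filter_not _ _ _).symm
  have hns : ∑ m ∈ (Icc 1 N).filter (fun m => ¬ Sm z m), (1 : ℝ) / m ≤
      ∑ p ∈ P, 1 / (p : ℝ) * (1 + Real.log N - Real.log p) := by
    calc ∑ m ∈ (Icc 1 N).filter (fun m => ¬ Sm z m), (1 : ℝ) / m
        ≤ ∑ m ∈ (Icc 1 N).filter (fun m => ¬ Sm z m), ∑ p ∈ P,
            (if p ∣ m then (1 : ℝ) / m else 0) := by
          apply Finset.sum_le_sum
          intro m hm
          rw [Finset.mem_filter, Finset.mem_Icc] at hm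
          obtain ⟨⟨hm1, hm2⟩, hm3⟩ := hm
          unfold Sm at hm3
          push Not at hm3
          obtain ⟨r, hr, hrm, hrz⟩ := hm3
          have hrP : r ∈ P := by
            rw [hP, Finset.mem_filter, Finset.mem_Ioc]
            refine ⟨⟨(Nat.floor_lt hz0.le).2 hrz, ?_⟩, hr⟩
            exact (Nat.le_of_dvd (by omega) hrm).trans hm2
          calc (1 : ℝ) / m = if r ∣ m then (1 : ℝ) / m else 0 := by rw [if_pos hrm]
            _ ≤ _ := Finset.single_le_sum (f := fun p : ℕ => if p ∣ m then (1 : ℝ) / m else 0)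
              (fun p _ => by
                split_ifs
                · positivity
                · exact le_refl _) hrP
      _ ≤ ∑ m ∈ Icc 1 N, ∑ p ∈ P, (if p ∣ m then (1 : ℝ) / m else 0) := by
          apply Finset.sum_le_sum_of_subset_of_nonneg (Finset.filter_subset _ _)
          intro m _ _
          apply Finset.sum_nonneg
          intro p _
          split_ifs
          · (clear * -; positivity)
          · exact le_refl _
      _ = ∑ p ∈ P, ∑ m ∈ Icc 1 N, (if p ∣ m then (1 : ℝ) / m else 0) := Finset.sum_comm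
      _ ≤ _ := by
          apply Finset.sum_le_sum
          intro p hp
          rw [hP, Finset.mem_filter, Finset.mem_Ioc] at hp
          exact multiples_le hp.2.one_le hp.1.2
  have hA := (abs_le.1 (hMI z Y hz hzY)).2
  have hlogdiv : Real.log (Real.log Y / Real.log z) = Real.log u := by
    rw [hlogY, ← hL, mul_div_assoc, div_self hL0.ne', mul_one]
  rw [hlogdiv, ← hL] at hA
  set A := ∑ p ∈ P, (1 : ℝ) / p with hAdef
  set B := ∑ p ∈ P, Real.log p / p with hBdef
  have hexp : ∑ p ∈ P, 1 / (p : ℝ) * (1 + Real.log N - Real.log p) =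
      (1 + Real.log N) * A - B := by
    rw [hAdef, hBdef, Finset.mul_sum, ← Finset.sum_sub_distrib]
    apply Finset.sum_congr rfl
    intro p _
    ring
  have hA0 : 0 ≤ A := Finset.sum_nonneg fun _ _ => by (clear * -; positivity)
  have hB1 := (abs_le.1 (hMF N (by omega))).1
  have hB2 := (abs_le.1 (hMF M (by omega))).2
  have hBsplit : ∑ q ∈ (Ioc 0 N).filter Nat.Prime, Real.log q / q =
      ∑ q ∈ (Ioc 0 M).filter Nat.Prime, Real.log q / q + B := by
    rw [hBdef, hP, Finset.sum_filter, Finset.sum_filter, Finset.sum_filter]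
    rw [Finset.sum_Ioc_consecutive _ (Nat.zero_le _) hMN]
  have hlogM : Real.log M ≤ L := Real.log_le_log (by
    have : (2 : ℝ) ≤ M := by exact_mod_cast hM2
    (clear * - this; linarith)) (Nat.floor_le hz0.le)
  have hlogN : Real.log N ≤ u * L := by
    rw [← hlogY]
    exact Real.log_le_log hN0 hNY
  have hlogN' : u * L - Real.log 2 ≤ Real.log N := by
    rw [← hlogY, ← Real.log_div (by (clear * - hz hzY; linarith)) (by norm_num)]
    apply Real.log_le_log (by (clear * - hz hzY; linarith))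
    have h1 := Nat.lt_floor_add_one Y
    rw [← hN] at h1
    have h2 : (2 : ℝ) ≤ N := by exact_mod_cast hM2.trans hMN
    (clear * - hz hzY h1; linarith)
  have hH := harm_ge N
  have hH' : Real.log Y ≤ Real.log ((N : ℝ) + 1) :=
    Real.log_le_log (by (clear * - hz hzY; linarith)) (Nat.lt_floor_add_one Y).le
  have hlogu : 0 ≤ Real.log u := Real.log_nonneg hu1
  have hlogu2 : Real.log u ≤ Real.log 2 := Real.log_le_log (by (clear * - hu1; linarith)) hu2
  have hdivL : C / L ≤ C / Real.log 2 := div_le_div_of_nonneg_left hC.le hlog2 hL2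
  have hmain : (1 + Real.log N) * A ≤ (1 + u * L) * (Real.log u + C / L) := by
    apply mul_le_mul _ (by (clear * - hA; linarith)) hA0 (by positivity)
    (clear * - hlogN; linarith)
  have hCL : u * L * (C / L) = u * C := by
    field_simp
  have huC : u * C ≤ 2 * C := by (clear * - hC hu2; nlinarith)
  rw [hexp] at hns
  rw [hlogY] at hH'
  have e1 : (1 + u * L) * (Real.log u + C / L) = Real.log u + C / L + u * L * Real.log u +
      u * L * (C / L) := by ring
  rw [e1, hCL] at hmain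
  have e2 : (2 * u - 1 - u * Real.log u) * L = 2 * (u * L) - L - u * L * Real.log u := by ring
  rw [e2]
  linarith

end Pool.Agent.M17.Helper7.AV
end

/- Helper53.KN.Helper40.AV.Final2 -/
section
/-! Project AV: availability, part 2. -/

set_option autoImplicit false

namespace Pool.Agent.M17.Helper40.AV

theorem selUp' : SelUp :=
  Pool.Agent.M17.Helper55.AV.selUp Pool.Agent.M17.Helper53AV.selbergP Pool.Agent.M17.Helper9.AV.mertens3
    Pool.Agent.M17.Helper7.AV.ggtriv Pool.Agent.M17.Helper7.AV.gglow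

end Pool.Agent.M17.Helper40.AV
end

/- Helper53.KN.Helper40.AV.TailUp16 -/
section
/-! Project AV part 2 (KS, MP_768c9c_nt), module LS2: `TailUp`. -/

set_option autoImplicit false

open Filter Topology

namespace Pool.Agent.M17.Helper40.AV.T16

open Pool.Agent.M17.Helper40.AV

theorem exp_tail : Real.exp (4.2 - 2 * 7.99) ≤ 0.0000078 := by
  have h1 : (130000 : ℝ) ≤ Real.exp 11.78 := by
    refine le_trans ?_ (Real.sum_le_exp_of_nonneg (by norm_num) 32)
    norm_num [Finset.sum_range_succ, Nat.factorial]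
  have h2 : (4.2 - 2 * 7.99 : ℝ) = -11.78 := by norm_num
  rw [h2, Real.exp_neg]
  calc (Real.exp 11.78)⁻¹ ≤ (130000 : ℝ)⁻¹ := inv_anti₀ (by norm_num) h1
    _ ≤ 0.0000078 := by norm_num

open Classical in
theorem tailUp : UpB 16 1.00001 := by
  intro ε hε
  obtain ⟨z₁, hz₁, hG⟩ := Pool.Agent.M17.Helper30.AV.gGrankin
  have hS := Pool.Agent.M17.Helper53AV.selbergP
  obtain ⟨c, C, hc, _, hM⟩ := Pool.Agent.M17.Helper44.mertens_prod
  have hlog : ∀ᶠ z : ℝ in atTop, Real.log z ≤ (ε * c) * z ^ (0.02 : ℝ) := by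
    have h1 := (isLittleO_log_rpow_atTop (show (0 : ℝ) < 0.02 by norm_num)).bound
      (show (0 : ℝ) < ε * c by positivity)
    filter_upwards [h1, eventually_ge_atTop (1 : ℝ)] with z hz hz1
    rw [Real.norm_of_nonneg (Real.log_nonneg hz1),
      Real.norm_of_nonneg (Real.rpow_nonneg (by (clear * - hz1; linarith)) _)] at hz
    exact hz
  obtain ⟨z₂, hz₂⟩ := eventually_atTop.1 hlog
  refine ⟨max (max z₁ z₂) 10000000, fun z hz y l hl => ?_⟩
  have hza : z₁ ≤ z := le_trans (le_trans (le_max_left _ _) (le_max_left _ _)) hz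
  have hzb : z₂ ≤ z := le_trans (le_trans (le_max_right _ _) (le_max_left _ _)) hz
  have hzc : (10000000 : ℝ) ≤ z := le_trans (le_max_right _ _) hz
  have hz0 : 0 < z := by linarith
  have hz1 : 1 ≤ z := by linarith
  have hL : 0 < Real.log z := Real.log_pos (by linarith)
  have hV := vv_pos z
  have hVc : c / Real.log z ≤ VV z := (hM z (by linarith)).1
  have hY1 : (1 : ℝ) ≤ z ^ (7.99 : ℝ) := Real.one_le_rpow hz1 (by norm_num)
  have hsel := hS y l 1 z (z ^ (7.99 : ℝ)) le_rfl hY1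
  have hRS : (RS y l z) = ((Finset.Ico y (y + l)).filter fun n => 1 ∣ n ∧
      ∀ r : ℕ, r.Prime → r ∣ n → z < r) := by
    unfold RS
    ext n
    simp
  rw [← hRS] at hsel
  have hGz := hG z 7.99 hza (by norm_num)
  have hGp : 0 < GG z (z ^ (7.99 : ℝ)) := lt_of_lt_of_le one_pos (one_le_gg z hY1)
  have hinv : 1 / GG z (z ^ (7.99 : ℝ)) ≤ 1.0000079 * VV z := by
    rw [div_le_iff₀ hGp]
    have h1 : (0.9999922 : ℝ) ≤ VV z * GG z (z ^ (7.99 : ℝ)) := by
      have := exp_tail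
      (clear * - hGz this; linarith)
    (clear * - h1; nlinarith)
  have hY2 : (z ^ (7.99 : ℝ)) ^ 2 ≤ l * z ^ (-0.02 : ℝ) := by
    rw [← Real.rpow_natCast, ← Real.rpow_mul hz0.le]
    calc z ^ (7.99 * ((2 : ℕ) : ℝ)) = z ^ (16 : ℝ) * z ^ (-0.02 : ℝ) := by
          rw [← Real.rpow_add hz0]
          norm_num
      _ ≤ l * z ^ (-0.02 : ℝ) := mul_le_mul_of_nonneg_right hl (Real.rpow_nonneg hz0.le _)
  have hlz : z ^ (-0.02 : ℝ) ≤ ε * VV z := by
    have h1 := hz₂ z hzb
    have hp : 0 < z ^ (0.02 : ℝ) := Real.rpow_pos_of_pos hz0 _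
    rw [Real.rpow_neg hz0.le]
    calc (z ^ (0.02 : ℝ))⁻¹ ≤ ε * (c / Real.log z) := by
          rw [inv_le_iff_one_le_mul₀ hp]
          have h2 : 1 ≤ ε * c * z ^ (0.02 : ℝ) / Real.log z := by
            rw [le_div_iff₀ hL, one_mul]
            exact h1
          calc (1 : ℝ) ≤ ε * c * z ^ (0.02 : ℝ) / Real.log z := h2
            _ = _ := by ring
      _ ≤ ε * VV z := mul_le_mul_of_nonneg_left hVc hε.le
  have hl12 : (10000000 : ℝ) ≤ l := by
    calc (10000000 : ℝ) ≤ z := hzc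
      _ = z ^ (1 : ℝ) := (Real.rpow_one z).symm
      _ ≤ z ^ (16 : ℝ) := Real.rpow_le_rpow_of_exponent_le hz1 (by norm_num)
      _ ≤ l := hl
  have hl0 : (0 : ℝ) ≤ l := by (clear * - hl12; linarith)
  have h5 : ((l : ℝ) / (1 : ℕ) + 1) / GG z (z ^ (7.99 : ℝ)) ≤ (l + 1) * (1.0000079 * VV z) := by
    rw [Nat.cast_one, div_one, div_eq_mul_one_div]
    exact mul_le_mul_of_nonneg_left hinv (by (clear * - hl12; linarith))
  have h6 : (l : ℝ) * z ^ (-0.02 : ℝ) ≤ l * (ε * VV z) := mul_le_mul_of_nonneg_left hlz hl0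
  have h7 : 1.0000079 * VV z ≤ 0.000001 * l * VV z := by
    apply mul_le_mul_of_nonneg_right _ hV.le
    (clear * - hl12; linarith)
  calc ((RS y l z).card : ℝ) ≤ (l + 1) * (1.0000079 * VV z) + l * (ε * VV z) := by
        refine hsel.trans (add_le_add h5 (hY2.trans h6))
    _ = l * (1.0000079 * VV z) + 1.0000079 * VV z + l * (ε * VV z) := by ring
    _ ≤ l * (1.0000079 * VV z) + 0.000001 * l * VV z + l * (ε * VV z) := by (clear * - h7; linarith)
    _ ≤ (1.00001 + ε) * l * VV z := by (clear * - hV h7 hl0; nlinarith [mul_nonneg hl0 hV.le])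

end Pool.Agent.M17.Helper40.AV.T16
end
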