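import Mathlib
import Pool.Agent.Helper53.KM.G12
import Pool.Agent.Helper53.KM.G17
import Pool.Agent.Helper53.KM.G18

/- Helper53.KN.Helper26.KC.F4 -/
section
/-!
# KS, fourth moment, part 4: mollified sum at a zero and zeta on the critical line
-/

set_option autoImplicit false
open MeasureTheory Filter Topology Finset

namespace Pool.Agent.M17.Helper26.KC

open Pool.Agent.M17.Helper69.QRH

/-- growth on the critical line -/
theorem zeta_half_le : ∃ C : ℝ, 0 < C ∧ ∀ u : ℝ, ‖riemannZeta (1 / 2 + (u : ℂ) * Complex.I)‖ ≤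
    C * (2 + |u|) ^ 2 := by
  obtain ⟨CE, hCE0, hCE⟩ := EZ_growth
  refine ⟨2 * CE, by positivity, fun u => ?_⟩
  set s : ℂ := 1 / 2 + (u : ℂ) * Complex.I with hs
  have hsre : s.re = 1 / 2 := by simp [hs]
  have hsim : s.im = u := by simp [hs]
  have hs1 : s ≠ 1 := by
    intro h
    have := congrArg Complex.re h
    rw [hsre, Complex.one_re] at this
    norm_num at this
  have h1 := hCE s (by rw [hsre]; norm_num)
  rw [EZ_eq hs1, norm_mul] at h1
  have h2 : 1 / 2 ≤ ‖s - 1‖ := by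
    have := Complex.abs_re_le_norm (s - 1)
    rw [Complex.sub_re, hsre, Complex.one_re] at this
    have h3 : |(1 / 2 : ℝ) - 1| = 1 / 2 := by norm_num [abs_of_neg]
    (clear * - this; linarith)
  have h3 : ‖s‖ ≤ 1 + |u| := by
    refine (Complex.norm_le_abs_re_add_abs_im s).trans ?_
    rw [hsre, hsim, abs_of_pos (by norm_num)]
    (clear * -; linarith)
  have h4 : (1 + ‖s‖) ^ 2 ≤ (2 + |u|) ^ 2 := by
    apply pow_le_pow_left₀ (by (clear * -; positivity))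
    (clear * - h3; linarith)
  have h5 := norm_nonneg (riemannZeta s)
  have h6 : CE * (1 + ‖s‖) ^ 2 ≤ CE * (2 + |u|) ^ 2 := mul_le_mul_of_nonneg_left h4 hCE0.le
  (clear * - h1 h6 h2 h5; nlinarith)

theorem zeta_half_cont : Continuous (fun u : ℝ => riemannZeta (1 / 2 + (u : ℂ) * Complex.I)) := by
  rw [continuous_iff_continuousAt]
  intro u
  have h1 : (1 / 2 + (u : ℂ) * Complex.I) ≠ 1 := by
    intro h
    have := congrArg Complex.re h
    simp at this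
  exact ContinuousAt.comp (f := fun u : ℝ => 1 / 2 + (u : ℂ) * Complex.I)
    (differentiableAt_riemannZeta h1).continuousAt (by fun_prop)

/-- powers of zeta are integrable against a Gaussian -/
theorem zeta_pow_int {a : ℝ} (ha : 0 < a) {k : ℕ} (hk : k ≤ 4) (γ : ℝ) :
    Integrable (fun u : ℝ => ‖riemannZeta (1 / 2 + ((γ + u : ℝ) : ℂ) * Complex.I)‖ ^ k *
      Real.exp (-a * u ^ 2)) := by
  obtain ⟨C, hC, hC1⟩ := zeta_half_le
  have h1 : Integrable (fun u : ℝ => u ^ (8 : ℝ) * Real.exp (-a * u ^ 2)) :=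
    integrable_rpow_mul_exp_neg_mul_sq ha (by norm_num)
  have h2 : Integrable (fun u : ℝ => Real.exp (-a * u ^ 2)) := integrable_exp_neg_mul_sq ha
  refine (((h2.const_mul (2 ^ 7 * (2 + |γ|) ^ 8)).add (h1.const_mul (2 ^ 7))).const_mul
    ((1 + C) ^ 4)).mono' ?_ (Eventually.of_forall fun u => ?_)
  · refine Continuous.aestronglyMeasurable ?_
    exact ((zeta_half_cont.comp (by fun_prop : Continuous fun u : ℝ => γ + u)).norm.pow k).mul (by fun_prop)
  · rw [Real.norm_of_nonneg (by positivity)]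
    have e1 : u ^ (8 : ℝ) = u ^ 8 := by
      rw [show (8 : ℝ) = ((8 : ℕ) : ℝ) by norm_num, Real.rpow_natCast]
    have hu8 : u ^ 8 = |u| ^ 8 := by
      rw [show u ^ 8 = (u ^ 2) ^ 4 by ring, show |u| ^ 8 = (|u| ^ 2) ^ 4 by ring, sq_abs]
    have hγ := abs_nonneg γ
    have hu := abs_nonneg u
    have h3 : ‖riemannZeta (1 / 2 + ((γ + u : ℝ) : ℂ) * Complex.I)‖ ≤ (1 + C) * (2 + |γ| + |u|) ^ 2 := by
      refine (hC1 (γ + u)).trans ?_
      have h4 : (2 + |γ + u|) ^ 2 ≤ (2 + |γ| + |u|) ^ 2 := by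
        apply pow_le_pow_left₀ (by (clear * -; positivity))
        (clear * -; linarith [abs_add_le γ u])
      have h5 : (0 : ℝ) ≤ (2 + |γ| + |u|) ^ 2 := by (clear * -; positivity)
      (clear * - hC h4; nlinarith)
    have h4 : 1 ≤ (1 + C) * (2 + |γ| + |u|) ^ 2 := by (clear * - hγ hu hC; nlinarith)
    have h5 : ‖riemannZeta (1 / 2 + ((γ + u : ℝ) : ℂ) * Complex.I)‖ ^ k ≤
        (1 + C) ^ 4 * (2 + |γ| + |u|) ^ 8 := by
      calc ‖riemannZeta (1 / 2 + ((γ + u : ℝ) : ℂ) * Complex.I)‖ ^ k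
          ≤ ((1 + C) * (2 + |γ| + |u|) ^ 2) ^ k := pow_le_pow_left₀ (norm_nonneg _) h3 k
        _ ≤ ((1 + C) * (2 + |γ| + |u|) ^ 2) ^ 4 := pow_le_pow_right₀ h4 hk
        _ = _ := by ring
    have h6 : (2 + |γ| + |u|) ^ 8 ≤ 2 ^ 7 * ((2 + |γ|) ^ 8 + u ^ 8) := by
      rw [hu8]
      exact add_pow_le (by positivity) hu 8
    show _ ≤ (1 + C) ^ 4 * ((2 ^ 7 * (2 + |γ|) ^ 8) * Real.exp (-a * u ^ 2) +
      2 ^ 7 * (u ^ (8 : ℝ) * Real.exp (-a * u ^ 2)))
    rw [e1]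
    have h7 := Real.exp_pos (-a * u ^ 2)
    calc _ ≤ ((1 + C) ^ 4 * (2 + |γ| + |u|) ^ 8) * Real.exp (-a * u ^ 2) := by gcongr
      _ ≤ ((1 + C) ^ 4 * (2 ^ 7 * ((2 + |γ|) ^ 8 + u ^ 8))) * Real.exp (-a * u ^ 2) := by gcongr
      _ = _ := by ring

/-- the smoothed mollified sum at a zero, in terms of zeta on the critical line -/
theorem mellin_int {ρ : ℂ} (hρ : riemannZeta ρ = 0) (hρ1 : 1 / 2 < ρ.re) (hρ2 : ρ.re ≤ 1)
    (hγ : 1 ≤ |ρ.im|) {V : ℝ} (hV : 0 ≤ V) (D : ℕ) :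
    ‖∑ d ∈ Icc 1 D, (ArithmeticFunction.moebius d : ℂ) * (d : ℂ) ^ (-ρ) * In ρ V d‖ ≤
      D * Real.exp (1 - (ρ.re - 1 / 2) * V) / (ρ.re - 1 / 2) *
        (∫ t : ℝ, ‖riemannZeta (1 / 2 + ((ρ.im + t : ℝ) : ℂ) * Complex.I)‖ * Real.exp (-1 * t ^ 2)) +
        300 * (D * Real.exp (V - ρ.im ^ 2)) := by
  obtain ⟨s0, hs0def⟩ : ∃ s0 : ℝ, s0 = 1 / 2 := ⟨_, rfl⟩
  rw [← hs0def] at hρ1 ⊢
  have hs0 : 2 / 7 ≤ s0 := by rw [hs0def]; norm_num
  have hs1 : s0 ≤ 1 / 2 := hs0def.le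
  obtain ⟨CE, hCE0, hCE⟩ := EZ_growth
  have hρne : ρ ≠ 1 := by
    rintro rfl
    simp at hγ
    (clear * - hs0def hρ2 hρ1 hγ; linarith)
  have hEρ : EZ ρ = 0 := by rw [EZ_eq hρne, hρ, mul_zero]
  set s1 : ℂ := 1 - ρ with hs1def
  have hs1re : s1.re = 1 - ρ.re := by simp [hs1def]
  have hs1im : s1.im = -ρ.im := by simp [hs1def]
  set J0 : ℂ → ℂ := dslope EZ ρ with hJ0
  have hJ0d : Differentiable ℂ J0 := by
    rw [hJ0, ← differentiableOn_univ, Complex.differentiableOn_dslope univ_mem, differentiableOn_univ]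
    exact EZ_differentiable
  have hJ0ne : ∀ s : ℂ, s ≠ 0 → J0 (ρ + s) = EZ (ρ + s) / s := by
    intro s hs
    rw [hJ0, dslope_of_ne _ (by simpa using hs), slope_def_field, hEρ, sub_zero,
      add_sub_cancel_left]
  set J : ℂ → ℂ := fun s => J0 (ρ + s) * Mo D (ρ + s) * Complex.exp (s * V + s ^ 2) with hJ
  have hJd : Differentiable ℂ J := by
    rw [hJ]
    refine Differentiable.mul (Differentiable.mul ?_ ?_) (by fun_prop)
    · exact hJ0d.comp (by fun_prop)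
    · exact (Mo_diff D).comp (by fun_prop)
  -- real part of the left line
  set a : ℝ := s0 - ρ.re with ha
  have hexpn : ∀ s : ℂ, ‖Complex.exp (s * V + s ^ 2)‖ =
      Real.exp (s.re * V + s.re ^ 2) * Real.exp (-s.im ^ 2) := by
    intro s
    rw [Complex.norm_exp, ← Real.exp_add]
    congr 1
    simp [pow_two]
    ring
  -- decay of J
  have hdecay : ∀ s : ℂ, a ≤ s.re → s.re ≤ 2 → 1 ≤ |s.im| →
      ‖J s‖ ≤ (CE * D * Real.exp (2 * V + 4) * (64 * ((4 + ‖ρ‖) ^ 2 + 1))) * (1 + s.im ^ 2)⁻¹ := by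
    intro s h1 h2 h3
    have hs : 1 ≤ ‖s‖ := h3.trans (Complex.abs_im_le_norm s)
    have hsne : s ≠ 0 := by
      intro h; rw [h, norm_zero] at hs; (clear * - hρ2 hρ1 hs0def hs; linarith)
    have hre : (ρ + s).re = ρ.re + s.re := Complex.add_re _ _
    have hre0 : 2 / 7 ≤ (ρ + s).re := by rw [hre]; (clear * - hρ2 hρ1 hs0def h1; linarith)
    have e1 : ‖J0 (ρ + s)‖ ≤ CE * (4 + ‖ρ‖ + |s.im|) ^ 2 := by
      rw [hJ0ne s hsne, norm_div]
      refine (div_le_self (norm_nonneg _) hs).trans ((hCE _ hre0).trans ?_)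
      have h4 : ‖s‖ ≤ 2 + |s.im| := by
        refine (Complex.norm_le_abs_re_add_abs_im s).trans ?_
        have : |s.re| ≤ 2 := by rw [abs_le]; constructor <;> (clear * - hρ2 hρ1 hs0def h1 h2; linarith)
        (clear * - this; linarith)
      have h5 := norm_add_le ρ s
      have h6 := norm_nonneg (ρ + s)
      have h7 : 1 + ‖ρ + s‖ ≤ 4 + ‖ρ‖ + |s.im| := by (clear * - hρ2 hρ1 hs0def h4 h5; linarith)
      (clear * - h7 hCE0; gcongr)
    have e2 : ‖Mo D (ρ + s)‖ ≤ D := Mo_le D (by (clear * - hρ2 hρ1 hs0def h1 hre; linarith))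
    have e3 : ‖Complex.exp (s * V + s ^ 2)‖ ≤ Real.exp (2 * V + 4) * Real.exp (-(s.im ^ 2 / 4)) := by
      rw [hexpn]
      apply mul_le_mul _ _ (Real.exp_pos _).le (Real.exp_pos _).le
      · apply Real.exp_le_exp.mpr
        have h4 : -1 ≤ s.re := by (clear * - hρ2 hρ1 hs0def h1; linarith)
        (clear * - hs0def h2 hρ2 hV hρ1 h1; nlinarith)
      · apply Real.exp_le_exp.mpr
        (clear * -; nlinarith [sq_nonneg s.im])
    have e4 := exp_bound_aux' (4 + ‖ρ‖) s.im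
    calc ‖J s‖ = ‖J0 (ρ + s)‖ * ‖Mo D (ρ + s)‖ * ‖Complex.exp (s * V + s ^ 2)‖ := by
          simp only [hJ, norm_mul]
      _ ≤ (CE * (4 + ‖ρ‖ + |s.im|) ^ 2) * D *
          (Real.exp (2 * V + 4) * Real.exp (-(s.im ^ 2 / 4))) := by (clear * - e1 e2 hCE0 h3 e3; gcongr)
      _ = CE * D * Real.exp (2 * V + 4) *
          ((4 + ‖ρ‖ + |s.im|) ^ 2 * Real.exp (-(s.im ^ 2 / 4))) := by ring
      _ ≤ CE * D * Real.exp (2 * V + 4) *
          (64 * ((4 + ‖ρ‖) ^ 2 + 1) * (1 + s.im ^ 2)⁻¹) := by (clear * - e4 hCE0; gcongr)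
      _ = _ := by ring
  have hshift := shift_pole hJd (a := a) (b := 2) (s1 := s1) (by (clear * - hρ2 hρ1 hs0def; linarith))
    (by rw [hs1re]; rw [ha]; rw [show s0 - ρ.re - (1 - ρ.re) = -(1 - s0) by ring, abs_neg,
          abs_of_nonneg (by linarith)]; linarith)
    (by rw [hs1re, show (2 : ℝ) - (1 - ρ.re) = 1 + ρ.re by ring, abs_of_nonneg (by (clear * - hρ2 hρ1 hs0def; linarith))]; linarith)
    (by rw [hs1re]; rw [ha]; rw [show s0 - ρ.re - (1 - ρ.re) = -(1 - s0) by ring, abs_neg,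
          abs_of_nonneg (by linarith)]; linarith)
    (by rw [hs1re, show (2 : ℝ) - (1 - ρ.re) = 1 + ρ.re by ring, abs_of_nonneg (by linarith)]; linarith)
    hdecay
  -- the quotient away from the two special points
  have hquot : ∀ s : ℂ, s ≠ 0 → s ≠ s1 → J s / (s - s1) =
      riemannZeta (ρ + s) * Mo D (ρ + s) * Complex.exp (s * V + s ^ 2) / s := by
    intro s h1 h2
    have h3 : ρ + s ≠ 1 := by
      intro h
      apply h2
      rw [hs1def, ← h]
      ring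
    have h4 : s - s1 ≠ 0 := sub_ne_zero.mpr h2
    simp only [hJ]
    rw [hJ0ne s h1, EZ_eq h3]
    have h5 : ρ + s - 1 = s - s1 := by rw [hs1def]; ring
    rw [h5]
    (clear * - h4 h1; field_simp)
  -- right line
  have hright : ∫ t : ℝ, J (((2 : ℝ) : ℂ) + t * Complex.I) / (((2 : ℝ) : ℂ) + t * Complex.I - s1) =
      2 * Real.pi * ∑ d ∈ Icc 1 D, (ArithmeticFunction.moebius d : ℂ) * (d : ℂ) ^ (-ρ) * In ρ V d := by
    have h1 : ∀ t : ℝ, J (((2 : ℝ) : ℂ) + t * Complex.I) / (((2 : ℝ) : ℂ) + t * Complex.I - s1) =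
        ∑ d ∈ Icc 1 D, ((ArithmeticFunction.moebius d : ℂ) * (d : ℂ) ^ (-ρ)) *
        (riemannZeta (ρ + ((2 : ℝ) + t * Complex.I)) *
          (Complex.exp ((((2 : ℝ) : ℂ) + t * Complex.I) * ((V - Real.log d : ℝ) : ℂ) +
            (((2 : ℝ) : ℂ) + t * Complex.I) ^ 2) / (((2 : ℝ) : ℂ) + t * Complex.I))) := by
      intro t
      rw [hquot _ (line_ne (by norm_num)) (by
        intro h
        have := congrArg Complex.re h
        rw [line_re, hs1re] at this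
        (clear * - hρ2 hρ1 hs0def this; linarith))]
      unfold Mo
      rw [Finset.mul_sum, Finset.sum_mul, Finset.sum_div]
      apply Finset.sum_congr rfl
      intro d hd
      have hd0 : (0 : ℝ) < d := by exact_mod_cast (Finset.mem_Icc.mp hd).1
      have e1 : (d : ℂ) ^ (-(ρ + (((2 : ℝ) : ℂ) + t * Complex.I))) =
          (d : ℂ) ^ (-ρ) * Complex.exp (-(((2 : ℝ) : ℂ) + t * Complex.I) * (Real.log d : ℝ)) := by
        have h2 : (d : ℂ) = ((d : ℝ) : ℂ) := by push_cast; ring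
        rw [h2, cpow_eq_exp_log hd0, cpow_eq_exp_log hd0, ← Complex.exp_add]
        congr 1
        push_cast
        ring
      have e2 : Complex.exp ((((2 : ℝ) : ℂ) + t * Complex.I) * ((V - Real.log d : ℝ) : ℂ) +
            (((2 : ℝ) : ℂ) + t * Complex.I) ^ 2) =
          Complex.exp (-(((2 : ℝ) : ℂ) + t * Complex.I) * (Real.log d : ℝ)) *
          Complex.exp ((((2 : ℝ) : ℂ) + t * Complex.I) * V + (((2 : ℝ) : ℂ) + t * Complex.I) ^ 2) := by
        rw [← Complex.exp_add]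
        congr 1
        push_cast
        ring
      rw [e1, e2]
      ring
    simp_rw [h1]
    rw [integral_finsetSum]
    · rw [Finset.mul_sum]
      apply Finset.sum_congr rfl
      intro d _
      rw [integral_const_mul, (inner_mellin (by (clear * - hρ2 hρ1 hs0def; linarith)) (V - Real.log d)).2]
      unfold In
      ring
    · intro d _
      exact (inner_mellin (by (clear * - hρ2 hρ1 hs0def; linarith)) (V - Real.log d)).1.const_mul _
  -- left line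
  have hβ : 0 < ρ.re - s0 := by (clear * - hρ1; linarith)
  set Iz : ℝ := ∫ t : ℝ, ‖riemannZeta (1 / 2 + ((ρ.im + t : ℝ) : ℂ) * Complex.I)‖ *
    Real.exp (-1 * t ^ 2) with hIz
  have hIz0 : 0 ≤ Iz := integral_nonneg fun t => by positivity
  have hleft : ‖∫ t : ℝ, J ((a : ℂ) + t * Complex.I) / ((a : ℂ) + t * Complex.I - s1)‖ ≤
      (D * Real.exp (1 - (ρ.re - s0) * V) / (ρ.re - s0)) * Iz := by
    set B : ℝ := D * Real.exp (1 - (ρ.re - s0) * V) / (ρ.re - s0) with hB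
    have hB0 : 0 ≤ B := by rw [hB]; (clear * - hρ1; positivity)
    have h1 : ∀ t : ℝ, ‖J ((a : ℂ) + t * Complex.I) / ((a : ℂ) + t * Complex.I - s1)‖ ≤
        B * (‖riemannZeta (1 / 2 + ((ρ.im + t : ℝ) : ℂ) * Complex.I)‖ * Real.exp (-1 * t ^ 2)) := by
      intro t
      have hne : (a : ℂ) + t * Complex.I ≠ 0 := by
        intro h
        have := congrArg Complex.re h
        rw [line_re, Complex.zero_re] at this
        (clear * - hρ1 this; linarith)
      rw [hquot _ hne (by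
        intro h
        have := congrArg Complex.re h
        rw [line_re, hs1re] at this
        (clear * - hρ2 hρ1 this; linarith))]
      have e0 : ρ + ((a : ℂ) + t * Complex.I) = 1 / 2 + ((ρ.im + t : ℝ) : ℂ) * Complex.I := by
        apply Complex.ext
        · simp [ha, hs0def]
        · simp
      rw [e0, norm_div, norm_mul, norm_mul, norm_exp_line]
      have e2 : ‖Mo D (1 / 2 + ((ρ.im + t : ℝ) : ℂ) * Complex.I)‖ ≤ D := by
        apply Mo_le
        simp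
      have e3 : Real.exp (a * V + a ^ 2) ≤ Real.exp (1 - (ρ.re - s0) * V) := by
        apply Real.exp_le_exp.mpr
        have : a ^ 2 ≤ 1 := by (clear * - hρ2 hρ1 hs0def; nlinarith)
        rw [ha] at *
        (clear * - this; linarith)
      have e4 : ρ.re - s0 ≤ ‖(a : ℂ) + t * Complex.I‖ := by
        have h5 := Complex.abs_re_le_norm ((a : ℂ) + t * Complex.I)
        rw [line_re] at h5
        have h6 : |a| = ρ.re - s0 := by
          rw [ha, show s0 - ρ.re = -(ρ.re - s0) by ring, abs_neg, abs_of_pos hβ]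
        (clear * - h5 h6; linarith)
      calc ‖riemannZeta (1 / 2 + ((ρ.im + t : ℝ) : ℂ) * Complex.I)‖ *
            ‖Mo D (1 / 2 + ((ρ.im + t : ℝ) : ℂ) * Complex.I)‖ *
            (Real.exp (a * V + a ^ 2) * Real.exp (-1 * t ^ 2)) / ‖(a : ℂ) + t * Complex.I‖
          ≤ ‖riemannZeta (1 / 2 + ((ρ.im + t : ℝ) : ℂ) * Complex.I)‖ * D *
            (Real.exp (1 - (ρ.re - s0) * V) * Real.exp (-1 * t ^ 2)) / (ρ.re - s0) := by
            (clear * - e2 e3 hρ1 e4; gcongr)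
        _ = _ := by rw [hB]; ring
    have hi := zeta_pow_int one_pos (show 1 ≤ 4 by norm_num) ρ.im
    simp only [pow_one] at hi
    refine (norm_integral_le_of_norm_le (hi.const_mul B) (Eventually.of_forall h1)).trans ?_
    rw [integral_const_mul]
  -- value at the pole
  have hJs1 : ‖J s1‖ ≤ D * Real.exp (V + 1 - ρ.im ^ 2) := by
    have hs1ne : s1 ≠ 0 := by
      rw [hs1def]; exact sub_ne_zero.mpr hρne.symm
    have h1 : ρ + s1 = 1 := by rw [hs1def]; ring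
    have h2 : 1 ≤ ‖s1‖ := by
      have := Complex.abs_im_le_norm s1
      rw [hs1im, abs_neg] at this
      (clear * - hγ this; linarith)
    simp only [hJ]
    rw [norm_mul, norm_mul, hJ0ne s1 hs1ne, h1, EZ_one, norm_div, norm_one, hexpn, hs1re, hs1im]
    have h3 : ‖Mo D 1‖ ≤ D := Mo_le D (by simp)
    have h4 : (1 : ℝ) / ‖s1‖ ≤ 1 := by
      rw [div_le_one (by (clear * - hρ2 hρ1 hs0def h2; linarith))]; exact h2
    have h5 : Real.exp ((1 - ρ.re) * V + (1 - ρ.re) ^ 2) * Real.exp (-(-ρ.im) ^ 2) ≤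
        Real.exp (V + 1 - ρ.im ^ 2) := by
      rw [← Real.exp_add]
      apply Real.exp_le_exp.mpr
      have h6 : (1 - ρ.re) ^ 2 ≤ 1 := by (clear * - hρ2 hρ1 hs0def; nlinarith)
      have h7 : (1 - ρ.re) * V ≤ V := by (clear * - hV hρ1 hs0def; nlinarith)
      (clear * - h6 h7; nlinarith)
    have h6 := norm_nonneg (Mo D 1)
    calc 1 / ‖s1‖ * ‖Mo D 1‖ * (Real.exp ((1 - ρ.re) * V + (1 - ρ.re) ^ 2) * Real.exp (-(-ρ.im) ^ 2))
        ≤ 1 * D * Real.exp (V + 1 - ρ.im ^ 2) := by (clear * - h4 h3 h5; gcongr)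
      _ = _ := by ring
  rw [hright] at hshift
  have hpi := Real.pi_pos
  have hpi3 := Real.pi_gt_three
  set Sg : ℂ := ∑ d ∈ Icc 1 D, (ArithmeticFunction.moebius d : ℂ) * (d : ℂ) ^ (-ρ) * In ρ V d with hSg
  set B : ℝ := D * Real.exp (1 - (ρ.re - s0) * V) / (ρ.re - s0) with hB
  have hB0 : 0 ≤ B := by rw [hB]; (clear * - hρ1; positivity)
  have h1 : ‖2 * (Real.pi : ℂ) * Sg‖ ≤ 600 * ‖J s1‖ + B * Iz := by
    have := norm_sub_norm_le (2 * (Real.pi : ℂ) * Sg)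
      (∫ t : ℝ, J ((a : ℂ) + t * Complex.I) / ((a : ℂ) + t * Complex.I - s1))
    (clear * - hshift hleft this; linarith)
  rw [norm_mul, norm_mul, Complex.norm_real, Complex.norm_ofNat, Real.norm_of_nonneg hpi.le] at h1
  have h2 : D * Real.exp (V + 1 - ρ.im ^ 2) ≤ 3 * (D * Real.exp (V - ρ.im ^ 2)) := by
    rw [show V + 1 - ρ.im ^ 2 = 1 + (V - ρ.im ^ 2) by ring, Real.exp_add]
    have h3 := Real.exp_one_lt_d9
    have h4 : 0 ≤ (D : ℝ) * Real.exp (V - ρ.im ^ 2) := by (clear * -; positivity)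
    (clear * - h4 hρ2 hρ1 hs0def h3; nlinarith)
  have h3 : 0 ≤ (D : ℝ) * Real.exp (V - ρ.im ^ 2) := by (clear * -; positivity)
  have h4 : 0 ≤ B * Iz := mul_nonneg hB0 hIz0
  have h5 : 2 * Real.pi * ‖Sg‖ ≤ 600 * (3 * (D * Real.exp (V - ρ.im ^ 2))) + B * Iz := by
    (clear * - hJs1 h1 h2; linarith)
  have h6 : 2 * Real.pi * ‖Sg‖ ≤ 2 * Real.pi * (B * Iz + 300 * (D * Real.exp (V - ρ.im ^ 2))) := by
    (clear * - hJs1 h1 h2 hρ2 hρ1 hs0def hpi h4 hpi3 h3; nlinarith)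
  exact le_of_mul_le_mul_left h6 (by positivity)

end Pool.Agent.M17.Helper26.KC
end

/- Helper53.KN.Helper26.KC.F5 -/
section
/-!
# KS, fourth moment, part 5: few class II zeros
-/

set_option autoImplicit false
open MeasureTheory Filter Topology Finset

namespace Pool.Agent.M17.Helper26.KC

open Pool.Agent.M17.Helper60.KS (DP Spaced1)

/-- Gaussian sum over spaced points -/
theorem gsum {Z : Finset ℂ} (hZ : Spaced1 Z) (u : ℝ) :
    ∑ ρ ∈ Z, Real.exp (-(u - ρ.im) ^ 2 / 2) ≤ 6 := by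
  have hint : Integrable (fun y : ℝ => Real.exp (-(1 / 4) * (y - u) ^ 2)) :=
    (integrable_exp_neg_mul_sq (b := 1 / 4) (by norm_num)).comp_sub_right u
  have hterm : ∀ ρ ∈ Z, Real.exp (-(u - ρ.im) ^ 2 / 2) ≤
      (5 / 4) * ∫ y in Set.Ioo (ρ.im - 1 / 2) (ρ.im + 1 / 2), Real.exp (-(1 / 4) * (y - u) ^ 2) := by
    intro ρ _
    have h1 : ∀ y ∈ Set.Ioo (ρ.im - 1 / 2) (ρ.im + 1 / 2),
        (4 / 5) * Real.exp (-(u - ρ.im) ^ 2 / 2) ≤ Real.exp (-(1 / 4) * (y - u) ^ 2) := by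
      intro y hy
      have h2 : (y - ρ.im) ^ 2 ≤ 1 / 4 := by
        have h3 : |y - ρ.im| ≤ 1 / 2 := by
          rw [abs_le]; constructor <;> (clear * - hy; linarith [hy.1, hy.2])
        have := pow_le_pow_left₀ (abs_nonneg _) h3 2
        rw [sq_abs] at this
        (clear * - this; linarith)
      have h3 : -(u - ρ.im) ^ 2 / 2 - 1 / 8 ≤ -(1 / 4) * (y - u) ^ 2 := by
        nlinarith [sq_nonneg ((y - ρ.im) + (u - ρ.im))]
      have h4 : (4 / 5 : ℝ) ≤ Real.exp (-(1 / 8)) := by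
        have := Real.add_one_le_exp (-(1 / 8) : ℝ)
        (clear * - this; linarith)
      calc (4 / 5) * Real.exp (-(u - ρ.im) ^ 2 / 2)
          ≤ Real.exp (-(1 / 8)) * Real.exp (-(u - ρ.im) ^ 2 / 2) := by (clear * - h4; gcongr)
        _ = Real.exp (-(u - ρ.im) ^ 2 / 2 - 1 / 8) := by
            rw [← Real.exp_add]; congr 1; ring
        _ ≤ _ := Real.exp_le_exp.mpr h3
    have h2 : ∫ _y in Set.Ioo (ρ.im - 1 / 2) (ρ.im + 1 / 2), (4 / 5) * Real.exp (-(u - ρ.im) ^ 2 / 2) ≤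
        ∫ y in Set.Ioo (ρ.im - 1 / 2) (ρ.im + 1 / 2), Real.exp (-(1 / 4) * (y - u) ^ 2) := by
      refine setIntegral_mono_on ?_ hint.integrableOn measurableSet_Ioo h1
      exact integrableOn_const (by simp) enorm_ne_top
    rw [setIntegral_const, measureReal_def, Real.volume_Ioo] at h2
    rw [show ρ.im + 1 / 2 - (ρ.im - 1 / 2) = 1 by ring, ENNReal.toReal_ofReal zero_le_one, one_smul] at h2
    linarith
  have hdisj : (Z : Set ℂ).Pairwise (Function.onFun Disjoint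
      (fun ρ : ℂ => Set.Ioo (ρ.im - 1 / 2) (ρ.im + 1 / 2))) := by
    intro ρ hρ ρ' hρ' hne
    have h1 := hZ ρ hρ ρ' hρ' hne
    rw [Function.onFun, Set.disjoint_left]
    intro y hy hy'
    have h2 : |ρ.im - ρ'.im| < 1 := by
      rw [abs_lt]; constructor <;> (clear * - hy hy'; linarith [hy.1, hy.2, hy'.1, hy'.2])
    linarith
  have hsum : ∑ ρ ∈ Z, ∫ y in Set.Ioo (ρ.im - 1 / 2) (ρ.im + 1 / 2), Real.exp (-(1 / 4) * (y - u) ^ 2) =
      ∫ y in ⋃ ρ ∈ Z, Set.Ioo (ρ.im - 1 / 2) (ρ.im + 1 / 2), Real.exp (-(1 / 4) * (y - u) ^ 2) := by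
    rw [integral_biUnion_finset Z (fun ρ _ => measurableSet_Ioo) hdisj (fun ρ _ => hint.integrableOn)]
  have hle : ∫ y in ⋃ ρ ∈ Z, Set.Ioo (ρ.im - 1 / 2) (ρ.im + 1 / 2), Real.exp (-(1 / 4) * (y - u) ^ 2) ≤
      ∫ y, Real.exp (-(1 / 4) * (y - u) ^ 2) :=
    setIntegral_le_integral hint (Eventually.of_forall fun y => (Real.exp_pos _).le)
  have htot : ∫ y, Real.exp (-(1 / 4) * (y - u) ^ 2) ≤ 4 := by
    rw [integral_sub_right_eq_self (fun y : ℝ => Real.exp (-(1 / 4) * y ^ 2)) u, integral_gaussian,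
      Real.sqrt_le_left (by norm_num)]
    have := Real.pi_lt_d2
    rw [div_le_iff₀ (by norm_num)]
    (clear * - this; linarith)
  calc ∑ ρ ∈ Z, Real.exp (-(u - ρ.im) ^ 2 / 2)
      ≤ ∑ ρ ∈ Z, (5 / 4) * ∫ y in Set.Ioo (ρ.im - 1 / 2) (ρ.im + 1 / 2),
          Real.exp (-(1 / 4) * (y - u) ^ 2) := Finset.sum_le_sum hterm
    _ = (5 / 4) * ∑ ρ ∈ Z, ∫ y in Set.Ioo (ρ.im - 1 / 2) (ρ.im + 1 / 2),
          Real.exp (-(1 / 4) * (y - u) ^ 2) := by rw [Finset.mul_sum]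
    _ ≤ (5 / 4) * 4 := by rw [hsum]; gcongr; exact hle.trans htot
    _ ≤ 6 := by norm_num

/-- power mean without Hölder -/
theorem power_mean {z : ℝ → ℝ} (hz : ∀ t, 0 ≤ z t)
    (h1 : Integrable (fun t : ℝ => z t * Real.exp (-1 * t ^ 2)))
    (h4 : Integrable (fun t : ℝ => z t ^ 4 * Real.exp (-1 * t ^ 2))) {B : ℝ} (hB : 0 < B)
    (hI : B ≤ ∫ t : ℝ, z t * Real.exp (-1 * t ^ 2)) :
    B ^ 4 / 16 ≤ ∫ t : ℝ, z t ^ 4 * Real.exp (-1 * t ^ 2) := by
  have hg : Integrable (fun t : ℝ => Real.exp (-1 * t ^ 2)) := integrable_exp_neg_mul_sq one_pos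
  -- z ≤ z^4/(4 a^3) + 3a/4 with a = B/3
  have hpt : ∀ t : ℝ, z t * Real.exp (-1 * t ^ 2) ≤
      (27 / (4 * B ^ 3)) * (z t ^ 4 * Real.exp (-1 * t ^ 2)) + (B / 4) * Real.exp (-1 * t ^ 2) := by
    intro t
    have he := Real.exp_pos (-1 * t ^ 2)
    have h2 : z t ≤ (27 / (4 * B ^ 3)) * z t ^ 4 + B / 4 := by
      set y : ℝ := z t / B with hy
      have hzy : z t = y * B := by rw [hy]; field_simp
      have hy0 : 0 ≤ y := by rw [hy]; exact div_nonneg (hz t) hB.le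
      rw [hzy]
      have h3 : (27 / (4 * B ^ 3)) * (y * B) ^ 4 + B / 4 = B * (27 / 4 * y ^ 4 + 1 / 4) := by
        field_simp
      rw [h3]
      have h4 : y ≤ 27 / 4 * y ^ 4 + 1 / 4 := by
        (clear * -; nlinarith [sq_nonneg (9 * y ^ 2 - 1), sq_nonneg (3 * y - 1), sq_nonneg (y ^ 2), sq_nonneg (3 * y ^ 2 - y)])
      (clear * - hB h4; nlinarith)
    (clear * - he h2; nlinarith)
  have h2 := integral_mono h1 ((h4.const_mul (27 / (4 * B ^ 3))).add (hg.const_mul (B / 4))) hpt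
  have h3 : ∫ t : ℝ, ((27 / (4 * B ^ 3)) * (z t ^ 4 * Real.exp (-1 * t ^ 2)) +
      (B / 4) * Real.exp (-1 * t ^ 2)) = (27 / (4 * B ^ 3)) * (∫ t : ℝ, z t ^ 4 * Real.exp (-1 * t ^ 2)) +
      (B / 4) * Real.sqrt Real.pi := by
    rw [integral_add (h4.const_mul _) (hg.const_mul _), integral_const_mul, integral_const_mul,
      integral_gaussian, div_one]
  have h5 : Real.sqrt Real.pi ≤ 1.8 := by
    rw [Real.sqrt_le_left (by norm_num)]
    have := Real.pi_lt_d2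
    norm_num
    (clear * - this; linarith)
  change _ ≤ ∫ t : ℝ, ((27 / (4 * B ^ 3)) * (z t ^ 4 * Real.exp (-1 * t ^ 2)) +
      (B / 4) * Real.exp (-1 * t ^ 2)) at h2
  rw [h3] at h2
  have h6 : B / 2 ≤ (27 / (4 * B ^ 3)) * ∫ t : ℝ, z t ^ 4 * Real.exp (-1 * t ^ 2) := by (clear * - hB hI h2 h5; nlinarith)
  have h7 : (27 / (4 * B ^ 3)) * (∫ t : ℝ, z t ^ 4 * Real.exp (-1 * t ^ 2)) =
      (27 * ∫ t : ℝ, z t ^ 4 * Real.exp (-1 * t ^ 2)) / (4 * B ^ 3) := by ring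
  rw [h7, le_div_iff₀ (by positivity)] at h6
  have h8 : B / 2 * (4 * B ^ 3) = 2 * B ^ 4 := by ring
  rw [h8] at h6
  have h9 : 0 ≤ B ^ 4 := by positivity
  (clear * - h6 h9; linarith)

/-- spaced points with a large local mean of zeta on the critical line are few -/
theorem few_large (hFM : FourthMoment) {ε : ℝ} (hε : 0 < ε) : ∃ C : ℝ, 0 < C ∧
    ∀ (Z : Finset ℂ) (T B : ℝ), 1 ≤ T → 0 < B → Spaced1 Z → (∀ ρ ∈ Z, |ρ.im| ≤ T) →
    (∀ ρ ∈ Z, B ≤ ∫ t : ℝ, ‖riemannZeta (1 / 2 + ((ρ.im + t : ℝ) : ℂ) * Complex.I)‖ *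
      Real.exp (-1 * t ^ 2)) → (Z.card : ℝ) * B ^ 4 ≤ C * T ^ (1 + ε) := by
  obtain ⟨C, hC, hC1⟩ := hFM ε hε
  refine ⟨16 * 12 * C * 2 ^ (1 + ε), by positivity, ?_⟩
  intro Z T B hT hB hZ hZT hZB
  set h : ℝ → ℝ := fun u => ‖riemannZeta (1 / 2 + (u : ℂ) * Complex.I)‖ ^ 4 with hh
  have hh0 : ∀ u, 0 ≤ h u := fun u => by simp only [hh]; positivity
  have hshift : ∀ ρ ∈ Z, B ^ 4 / 16 ≤ ∫ u : ℝ, h u * Real.exp (-1 * (u - ρ.im) ^ 2) := by
    intro ρ hρ
    have h1 := power_mean (z := fun t : ℝ => ‖riemannZeta (1 / 2 + ((ρ.im + t : ℝ) : ℂ) * Complex.I)‖)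
      (fun t => norm_nonneg _)
      (by have := zeta_pow_int one_pos (show 1 ≤ 4 by norm_num) ρ.im
          simpa only [pow_one] using this)
      (zeta_pow_int one_pos le_rfl ρ.im) hB (hZB ρ hρ)
    refine h1.trans (le_of_eq ?_)
    rw [← integral_add_left_eq_self (fun u : ℝ => h u * Real.exp (-1 * (u - ρ.im) ^ 2)) ρ.im]
    apply integral_congr_ae
    refine Eventually.of_forall fun t => ?_
    simp only [hh, add_sub_cancel_left]
  have hTpos : 0 < T := by (clear * - hT; linarith)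
  have hmaj : Integrable (fun u : ℝ => h u * Real.exp (-(u / (2 * T)) ^ 2)) := by
    have h1 := zeta_pow_int (a := 1 / (2 * T) ^ 2) (by positivity) (le_refl 4) 0
    refine h1.congr (Eventually.of_forall fun u => ?_)
    simp only [hh, zero_add]
    congr 2
    field_simp
  have hpt : ∀ u : ℝ, ∑ ρ ∈ Z, h u * Real.exp (-1 * (u - ρ.im) ^ 2) ≤
      12 * (h u * Real.exp (-(u / (2 * T)) ^ 2)) := by
    intro u
    have h1 : ∀ ρ ∈ Z, h u * Real.exp (-1 * (u - ρ.im) ^ 2) ≤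
        (2 * (h u * Real.exp (-(u / (2 * T)) ^ 2))) * Real.exp (-(u - ρ.im) ^ 2 / 2) := by
      intro ρ hρ
      have h2 : -1 * (u - ρ.im) ^ 2 ≤ 1 / 2 + -(u / (2 * T)) ^ 2 + -(u - ρ.im) ^ 2 / 2 := by
        have h3 : (u / (2 * T)) ^ 2 = u ^ 2 / (4 * T ^ 2) := by ring
        have h4 : u ^ 2 ≤ 2 * T ^ 2 + 2 * (u - ρ.im) ^ 2 * T ^ 2 := by
          have h5 : ρ.im ^ 2 ≤ T ^ 2 := by
            have := pow_le_pow_left₀ (abs_nonneg _) (hZT ρ hρ) 2
            rwa [sq_abs] at this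
          have h6 : u ^ 2 ≤ 2 * ρ.im ^ 2 + 2 * (u - ρ.im) ^ 2 := by
            (clear * -; nlinarith [sq_nonneg (ρ.im - (u - ρ.im))])
          have h7 : (u - ρ.im) ^ 2 ≤ (u - ρ.im) ^ 2 * T ^ 2 := by
            have : 1 ≤ T ^ 2 := by (clear * - hT; nlinarith)
            (clear * - this; nlinarith [sq_nonneg (u - ρ.im)])
          (clear * - h5 h6 h7; nlinarith)
        have h5 : u ^ 2 / (4 * T ^ 2) ≤ 1 / 2 + (u - ρ.im) ^ 2 / 2 := by
          rw [div_le_iff₀ (by positivity)]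
          (clear * - h4; nlinarith)
        rw [h3]
        linarith
      have h3 : Real.exp (-1 * (u - ρ.im) ^ 2) ≤
          2 * Real.exp (-(u / (2 * T)) ^ 2) * Real.exp (-(u - ρ.im) ^ 2 / 2) := by
        calc Real.exp (-1 * (u - ρ.im) ^ 2)
            ≤ Real.exp (1 / 2 + -(u / (2 * T)) ^ 2 + -(u - ρ.im) ^ 2 / 2) := Real.exp_le_exp.mpr h2
          _ = Real.exp (1 / 2) * Real.exp (-(u / (2 * T)) ^ 2) * Real.exp (-(u - ρ.im) ^ 2 / 2) := by
              rw [Real.exp_add, Real.exp_add]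
          _ ≤ 2 * Real.exp (-(u / (2 * T)) ^ 2) * Real.exp (-(u - ρ.im) ^ 2 / 2) := by
              have h4 : Real.exp (1 / 2) ≤ 2 := by
                have h5 : (1 / 2 : ℝ) ≤ Real.log 2 := by (clear * -; linarith [Real.log_two_gt_d9])
                calc Real.exp (1 / 2) ≤ Real.exp (Real.log 2) := Real.exp_le_exp.mpr h5
                  _ = 2 := Real.exp_log (by norm_num)
              (clear * - h4; gcongr)
      have h4 := hh0 u
      calc h u * Real.exp (-1 * (u - ρ.im) ^ 2)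
          ≤ h u * (2 * Real.exp (-(u / (2 * T)) ^ 2) * Real.exp (-(u - ρ.im) ^ 2 / 2)) := by (clear * - h3; gcongr)
        _ = _ := by ring
    have h2 := hh0 u
    have h3 : 0 ≤ 2 * (h u * Real.exp (-(u / (2 * T)) ^ 2)) := by positivity
    calc ∑ ρ ∈ Z, h u * Real.exp (-1 * (u - ρ.im) ^ 2)
        ≤ ∑ ρ ∈ Z, (2 * (h u * Real.exp (-(u / (2 * T)) ^ 2))) * Real.exp (-(u - ρ.im) ^ 2 / 2) :=
          Finset.sum_le_sum h1
      _ = (2 * (h u * Real.exp (-(u / (2 * T)) ^ 2))) * ∑ ρ ∈ Z, Real.exp (-(u - ρ.im) ^ 2 / 2) := by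
          rw [Finset.mul_sum]
      _ ≤ (2 * (h u * Real.exp (-(u / (2 * T)) ^ 2))) * 6 := by
          gcongr
          exact gsum hZ u
      _ = _ := by ring
  have hiρ : ∀ ρ ∈ Z, Integrable (fun u : ℝ => h u * Real.exp (-1 * (u - ρ.im) ^ 2)) := by
    intro ρ _
    have h1 := (zeta_pow_int one_pos (le_refl 4) ρ.im).comp_sub_right ρ.im
    refine h1.congr (Eventually.of_forall fun u => ?_)
    simp only [hh, add_sub_cancel]
  have hsumI : ∑ ρ ∈ Z, ∫ u : ℝ, h u * Real.exp (-1 * (u - ρ.im) ^ 2) ≤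
      12 * ∫ u : ℝ, h u * Real.exp (-(u / (2 * T)) ^ 2) := by
    rw [← integral_finsetSum _ hiρ, ← integral_const_mul]
    exact integral_mono (integrable_finsetSum _ hiρ) (hmaj.const_mul _) hpt
  have hfm := hC1 (2 * T) (by (clear * - hT; linarith))
  have h1 : (Z.card : ℝ) * (B ^ 4 / 16) ≤ ∑ ρ ∈ Z, ∫ u : ℝ, h u * Real.exp (-1 * (u - ρ.im) ^ 2) := by
    have := Finset.card_nsmul_le_sum Z _ _ hshift
    rwa [nsmul_eq_mul] at this
  have h2 : ∫ u : ℝ, h u * Real.exp (-(u / (2 * T)) ^ 2) ≤ C * (2 * T) ^ (1 + ε) := by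
    refine le_trans (le_of_eq ?_) hfm
    apply integral_congr_ae
    refine Eventually.of_forall fun u => ?_
    simp only [hh]
    ring
  rw [Real.mul_rpow (by norm_num) hTpos.le] at h2
  have h3 : (Z.card : ℝ) * (B ^ 4 / 16) ≤ 12 * (C * (2 ^ (1 + ε) * T ^ (1 + ε))) := by
    linarith
  calc (Z.card : ℝ) * B ^ 4 = 16 * ((Z.card : ℝ) * (B ^ 4 / 16)) := by ring
    _ ≤ 16 * (12 * (C * (2 ^ (1 + ε) * T ^ (1 + ε)))) := by gcongr
    _ = _ := by ring

end Pool.Agent.M17.Helper26.KC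
end

/- Helper53.KN.Helper26.KC.F8 -/
section
/-!
# KS, fourth moment, part 8: detection at the length `T^(1/2)` with few exceptions, `x ≤ 0.45`
-/

set_option autoImplicit false
open MeasureTheory Filter Topology Finset

namespace Pool.Agent.M17.Helper26.KC

open Pool.Agent.M17.Helper60.KS (DP Spaced1)

/-- a zero that is not detected has a large local mean of zeta on the critical line -/
theorem undetected45 {τ δ : ℝ} (hτ1 : 1 / 10 ≤ τ) (hτ2 : τ ≤ 1) (hδ : 0 < δ) (hδ' : δ ≤ 1 / 1000) :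
    ∃ L0 : ℝ, ∀ L : ℝ, L0 ≤ L → ∀ x : ℝ, 0 < x → x ≤ 0.45 →
    ∃ g : ℕ → ℂ, (∀ n, ‖g n‖ ≤ (n.divisors.card : ℝ)) ∧
    ∀ ρ : ℂ, riemannZeta ρ = 0 → 1 - x ≤ ρ.re → L ^ 2 ≤ |ρ.im| →
    (¬ ∃ i : ℕ, Real.exp (δ * L) / 2 ≤ (2 : ℝ) ^ i ∧ (2 : ℝ) ^ i ≤ Real.exp ((τ / 2 + 45 * δ) * L) ∧
      1 / (16 * L) ≤ ‖DP g (2 ^ i) 2 ρ‖) →
    Real.exp ((1 / 2 - x) * ((τ / 2 + 40 * δ) * L) - δ * L) / 200 ≤
      ∫ t : ℝ, ‖riemannZeta (1 / 2 + ((ρ.im + t : ℝ) : ℂ) * Complex.I)‖ * Real.exp (-1 * t ^ 2) := by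
  set K : ℝ := 2 + 4 / δ with hK
  have hK2 : 2 ≤ K := by
    have : 0 < 4 / δ := by positivity
    (clear * - this; linarith)
  refine ⟨max 10 (max (2 * (K ^ 2 + 8)) (1 / δ)), ?_⟩
  intro L hL x hx hx'
  have hL1 : 10 ≤ L := (le_max_left _ _).trans hL
  have hL3 : 2 * (K ^ 2 + 8) ≤ L := (le_max_left _ _).trans ((le_max_right _ _).trans hL)
  have hL4 : 1 ≤ δ * L := by
    have : 1 / δ ≤ L := (le_max_right _ _).trans ((le_max_right _ _).trans hL)
    rw [div_le_iff₀ hδ] at this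
    (clear * - this; linarith)
  set V : ℝ := (τ / 2 + 40 * δ) * L with hV
  have hL0 : 0 ≤ L := by (clear * - hδ hδ' hL1; linarith)
  have hV0 : 0 ≤ V := by rw [hV]; positivity
  have hV1 : 40 * (δ * L) ≤ V := by
    rw [hV]
    have : 0 ≤ τ / 2 * L := by positivity
    (clear * - this; nlinarith)
  have hVL : V ≤ 0.6 * L := by
    rw [hV]
    apply mul_le_mul_of_nonneg_right _ hL0
    (clear * - hτ2 hδ hδ'; linarith)
  set D : ℕ := ⌊Real.exp (δ * L)⌋₊ with hD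
  have hD1 : 1 ≤ D := by
    rw [hD, Nat.one_le_floor_iff]
    exact Real.one_le_exp (by positivity)
  have hDle : (D : ℝ) ≤ Real.exp (δ * L) := Nat.floor_le (Real.exp_pos _).le
  set g : ℕ → ℂ := fun n => an D n * (Phi (V - Real.log n) : ℂ) with hg
  refine ⟨g, ?_, ?_⟩
  · intro n
    simp only [hg]
    rw [norm_mul, Complex.norm_real, Real.norm_of_nonneg (Phi_nonneg _)]
    have h1 := an_norm_le D n
    have h2 := Phi_le_one (V - Real.log n)
    have h3 := Phi_nonneg (V - Real.log n)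
    have h4 := norm_nonneg (an D n)
    (clear * - h2 hδ hδ' h1 h3; nlinarith)
  intro ρ hρ hβ hγ1 hnot
  push Not at hnot
  have hβ1 : ρ.re ≤ 1 := by
    by_contra h
    push Not at h
    exact riemannZeta_ne_zero_of_one_le_re h.le hρ
  have hρs0 : 1 / 2 < ρ.re := by (clear * - hδ hδ' hx' hβ; linarith)
  have hρ0 : 0 ≤ ρ.re := by (clear * - hδ hδ' hx' hβ; linarith)
  have hL100 : 100 ≤ L ^ 2 := by (clear * - hδ' hL4 hδ hL1; nlinarith)
  have hγge : 1 ≤ |ρ.im| := by (clear * - hδ hδ' hγ1 hL100; linarith)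
  have hmel := mellin_int hρ hρs0 hβ1 hγge hV0 D
  set Iz : ℝ := ∫ t : ℝ, ‖riemannZeta (1 / 2 + ((ρ.im + t : ℝ) : ℂ) * Complex.I)‖ *
    Real.exp (-1 * t ^ 2) with hIz
  have hIz0 : 0 ≤ Iz := integral_nonneg fun t => by positivity
  have hB2 : 300 * (D * Real.exp (V - ρ.im ^ 2)) ≤ 1 / 16 := by
    have h1 : (L ^ 2) ^ 2 ≤ ρ.im ^ 2 := by
      have := pow_le_pow_left₀ (by positivity) hγ1 2
      rwa [sq_abs] at this
    have h2 : 100 * L ≤ (L ^ 2) ^ 2 := by (clear * - hδ' hL4 hL100 hδ hL1; nlinarith)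
    have h3 : (D : ℝ) * Real.exp (V - ρ.im ^ 2) ≤ Real.exp (-(98 * L)) := by
      calc (D : ℝ) * Real.exp (V - ρ.im ^ 2) ≤ Real.exp (δ * L) * Real.exp (V - ρ.im ^ 2) := by (clear * - hDle; gcongr)
        _ = Real.exp (δ * L + (V - ρ.im ^ 2)) := (Real.exp_add _ _).symm
        _ ≤ _ := Real.exp_le_exp.mpr (by (clear * - hδ hδ' hL4 hV1 hVL h1 h2; nlinarith))
    have h4 : Real.exp (-(98 * L)) ≤ 1 / 4800 := by
      rw [Real.exp_neg, ← one_div, div_le_div_iff_of_pos_left one_pos (Real.exp_pos _) (by norm_num)]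
      have h5 := Real.quadratic_le_exp_of_nonneg (show (0 : ℝ) ≤ 98 * L by positivity)
      (clear * - hδ hδ' hL4 hV1 hVL hL100 h5; nlinarith)
    (clear * - h3 h4; linarith)
  obtain ⟨n, hn1, hn2⟩ := exists_nat_pow_near (x := Real.exp (V + δ * L)) (y := 2)
    (Real.one_le_exp (by positivity)) (by norm_num)
  have hlogN : V + δ * L ≤ Real.log ((2 ^ (n + 1) : ℕ) : ℝ) := by
    rw [Real.le_log_iff_exp_le (by positivity)]
    push_cast
    exact hn2.le
  have hfin := finite_sum (ρ := ρ) hρ0 (K := K) (V := V) (L1 := δ * L) hK2 (N0 := 2 ^ (n + 1)) D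
    (by positivity) hlogN
  have hB3 : (D : ℝ) * (2 * Real.exp (K ^ 2 + 2 * V - (K - 2) * (δ * L))) ≤ 1 / 16 := by
    have h1 : (K - 2) * (δ * L) = 4 * L := by
      rw [hK]; field_simp; ring
    rw [h1]
    calc (D : ℝ) * (2 * Real.exp (K ^ 2 + 2 * V - 4 * L))
        ≤ Real.exp (δ * L) * (2 * Real.exp (K ^ 2 + 2 * V - 4 * L)) := by gcongr
      _ = 2 * Real.exp (δ * L + (K ^ 2 + 2 * V - 4 * L)) := by rw [Real.exp_add]; ring
      _ ≤ 2 * Real.exp (-(L / 2 + 0)) := by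
          gcongr
          (clear * - hδ hδ' hL3 hL4 hV1 hVL; nlinarith)
      _ ≤ 1 / 16 := by
          rw [Real.exp_neg, ← div_eq_mul_inv, div_le_iff₀ (Real.exp_pos _)]
          have := exp_ge (L / 2 + 0) (by (clear * - hδ hδ' hL4 hV1 hVL K; nlinarith [sq_nonneg K]))
          (clear * - hδ hδ' this; linarith)
  have hB4 : 1 - Phi V ≤ 1 / 16 := by
    refine (one_sub_Phi_le 1 le_rfl V).trans ?_
    have h1 : (1 : ℝ) ^ 2 - 1 * V = -(V - 1) := by ring
    rw [h1, Real.exp_neg, ← one_div, div_le_div_iff_of_pos_left one_pos (Real.exp_pos _) (by norm_num)]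
    have := exp_ge (V - 1) (by (clear * - hδ hδ' hL4 hV1; linarith))
    (clear * - hδ hδ' this; linarith)
  have hdy := dyadic g ρ (n + 1)
  have hg1 : g 1 = (Phi V : ℂ) := by
    simp only [hg]
    rw [an_one hD1]
    simp
  have hlog2 := Real.log_two_gt_d9
  have hnL : ((n : ℝ) + 1) ≤ 8 * L := by
    have h1 : (n : ℝ) * Real.log 2 ≤ V + δ * L := by
      have h2 := Real.log_le_log (by positivity) hn1
      rwa [Real.log_pow, Real.log_exp] at h2
    have h2 : (n : ℝ) * (1 / 2) ≤ (n : ℝ) * Real.log 2 :=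
      mul_le_mul_of_nonneg_left (by (clear * - hδ hδ' hlog2; linarith)) (Nat.cast_nonneg _)
    (clear * - hδ hδ' hL4 hV1 hVL h1 h2; nlinarith)
  -- all blocks are small
  have hblock : ∀ i ∈ range (n + 1), ‖DP g (2 ^ i) 2 ρ‖ ≤ 1 / (16 * L) := by
    intro i hi
    rw [Finset.mem_range] at hi
    rcases le_or_gt (Real.exp (δ * L) / 2) ((2 : ℝ) ^ i) with hc | hc
    · refine (hnot i hc ?_).le
      calc (2 : ℝ) ^ i ≤ 2 ^ n := pow_le_pow_right₀ (by norm_num) (by (clear * - δ L hi; omega))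
        _ ≤ Real.exp (V + δ * L) := hn1
        _ ≤ _ := by
            apply Real.exp_le_exp.mpr
            rw [hV]
            (clear * - hδ hδ' hL4; nlinarith)
    · have h1 : 2 * 2 ^ i ≤ D := by
        rw [hD]
        apply Nat.le_floor
        push_cast
        (clear * - hc; linarith)
      have h2 : DP g (2 ^ i) 2 ρ = 0 := by
        unfold DP
        apply Finset.sum_eq_zero
        intro m hm
        rw [Finset.mem_Ioc] at hm
        have h3 : 1 ≤ 2 ^ i := Nat.one_le_two_pow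
        have h4 : an D m = 0 := an_zero (by omega) (by omega)
        simp only [hg]
        rw [h4, zero_mul, zero_mul]
      rw [h2, norm_zero]
      positivity
  have hsmall : ‖∑ i ∈ range (n + 1), DP g (2 ^ i) 2 ρ‖ ≤ 1 / 2 := by
    have h1 : ‖∑ i ∈ range (n + 1), DP g (2 ^ i) 2 ρ‖ ≤ (n + 1 : ℕ) * (1 / (16 * L)) := by
      refine (norm_sum_le _ _).trans ?_
      refine (Finset.sum_le_card_nsmul _ _ _ hblock).trans ?_
      rw [Finset.card_range, nsmul_eq_mul]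
    have h2 : ((n + 1 : ℕ) : ℝ) * (1 / (16 * L)) ≤ 1 / 2 := by
      rw [mul_one_div, div_le_iff₀ (by positivity)]
      push_cast
      (clear * - hnL; linarith)
    (clear * - h1 h2; linarith)
  set S : ℂ := ∑ d ∈ Icc 1 D, (ArithmeticFunction.moebius d : ℂ) * (d : ℂ) ^ (-ρ) * In ρ V d with hS
  set T : ℂ := ∑ n ∈ Icc 1 (2 ^ (n + 1)), g n * (n : ℂ) ^ (-ρ) with hT
  have h2 : ‖S - T‖ ≤ 1 / 16 := hfin.trans hB3
  have h4 : ∑ i ∈ range (n + 1), DP g (2 ^ i) 2 ρ = T - (Phi V : ℂ) := by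
    rw [hdy, hg1]; ring
  rw [h4] at hsmall
  have h5 : Phi V ≤ ‖T‖ + 1 / 2 := by
    have h6 := norm_sub_norm_le (Phi V : ℂ) T
    rw [norm_sub_rev, Complex.norm_real, Real.norm_of_nonneg (Phi_nonneg _)] at h6
    (clear * - hsmall h6; linarith)
  have h6 : 3 / 8 ≤ ‖S‖ := by
    have h7 := norm_sub_norm_le T S
    rw [norm_sub_rev] at h7
    (clear * - hB3 hB4 hfin h5 h7; linarith)
  -- conclusion
  have hβ2 : 1 / 20 ≤ ρ.re - 1 / 2 := by
    (clear * - hx' hβ; linarith)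
  have h7 : D * Real.exp (1 - (ρ.re - 1 / 2) * V) / (ρ.re - 1 / 2) ≤
      60 * (Real.exp (δ * L) * Real.exp (-((1 / 2 - x) * V))) := by
    have h8 : Real.exp (1 - (ρ.re - 1 / 2) * V) ≤ 3 * Real.exp (-((1 / 2 - x) * V)) := by
      rw [sub_eq_add_neg, Real.exp_add]
      have h9 := Real.exp_one_lt_d9
      have h10 : Real.exp (-((ρ.re - 1 / 2) * V)) ≤ Real.exp (-((1 / 2 - x) * V)) := by
        apply Real.exp_le_exp.mpr
        have : (1 / 2 - x) * V ≤ (ρ.re - 1 / 2) * V := mul_le_mul_of_nonneg_right (by (clear * - hβ; linarith)) hV0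
        (clear * - this; linarith)
      have h11 : Real.exp 1 ≤ 3 := by (clear * - hδ hδ' h9; linarith)
      exact mul_le_mul h11 h10 (Real.exp_pos _).le (by norm_num)
    calc D * Real.exp (1 - (ρ.re - 1 / 2) * V) / (ρ.re - 1 / 2)
        ≤ Real.exp (δ * L) * (3 * Real.exp (-((1 / 2 - x) * V))) / (1 / 20) := by (clear * - hDle h8 hβ2; gcongr)
      _ = _ := by ring
  have h8 : 5 / 16 ≤ 60 * (Real.exp (δ * L) * Real.exp (-((1 / 2 - x) * V))) * Iz := by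
    have h9 := mul_le_mul_of_nonneg_right h7 hIz0
    (clear * - hB2 hmel h6 h9; linarith)
  have h9 : Real.exp (δ * L) * Real.exp (-((1 / 2 - x) * V)) * Real.exp ((1 / 2 - x) * V - δ * L) = 1 := by
    rw [← Real.exp_add, ← Real.exp_add]
    rw [show δ * L + -((1 / 2 - x) * V) + ((1 / 2 - x) * V - δ * L) = 0 by ring, Real.exp_zero]
  set E : ℝ := Real.exp ((1 / 2 - x) * V - δ * L) with hE
  have hE0 : 0 < E := Real.exp_pos _
  have h10 : 5 / 16 * E ≤ 60 * Iz := by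
    calc 5 / 16 * E ≤ (60 * (Real.exp (δ * L) * Real.exp (-((1 / 2 - x) * V))) * Iz) * E := by gcongr
      _ = 60 * Iz * (Real.exp (δ * L) * Real.exp (-((1 / 2 - x) * V)) * E) := by ring
      _ = 60 * Iz := by rw [h9, mul_one]
  (clear * - hE0 h10; linarith)

theorem detectFM45 (hFM : FourthMoment) : DetectFM45 := by
  intro τ δ d hτ1 hτ2 hδ hδ' hd hd'
  obtain ⟨C, hC, hfew⟩ := few_large hFM hδ
  obtain ⟨L0, hL0⟩ := undetected45 hτ1 hτ2 hδ hδ'
  refine ⟨Real.exp (max (max L0 1) (4 * C * 200 ^ 4 / (60 * δ))), ?_⟩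
  intro X x hX hx hx'
  have hX0 : 0 < X := (Real.exp_pos _).trans_le hX
  set L : ℝ := Real.log X with hL
  have hLge : max (max L0 1) (4 * C * 200 ^ 4 / (60 * δ)) ≤ L := by
    rw [hL, Real.le_log_iff_exp_le hX0]; exact hX
  have hLa : L0 ≤ L := (le_max_left _ _).trans ((le_max_left _ _).trans hLge)
  have hLb : 1 ≤ L := (le_max_right _ _).trans ((le_max_left _ _).trans hLge)
  have hLc : 4 * C * 200 ^ 4 / (60 * δ) ≤ L := (le_max_right _ _).trans hLge
  have hpow : ∀ a : ℝ, X ^ a = Real.exp (a * L) := by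
    intro a
    rw [Real.rpow_def_of_pos hX0, mul_comm]
  obtain ⟨g, hg1, hg2⟩ := hL0 L hLa x hx hx'
  refine ⟨g, hg1, ?_⟩
  intro Z hZ hZp
  set V : ℝ := (τ / 2 + 40 * δ) * L with hV
  set B : ℝ := Real.exp ((1 / 2 - x) * V - δ * L) / 200 with hB
  have hB0 : 0 < B := by rw [hB]; positivity
  set T : ℝ := 2 * Real.exp ((τ + 2 * d) * L) with hT
  have hexp1 : 1 ≤ Real.exp ((τ + 2 * d) * L) := Real.one_le_exp (by (clear * - hτ1 hd hLb; positivity))
  have hT1 : 1 ≤ T := by rw [hT]; (clear * - hδ hδ' hexp1; linarith)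
  have key := hfew Z T B hT1 hB0 hZ
    (fun ρ hρ => by
      obtain ⟨_, _, _, h4, _⟩ := hZp ρ hρ
      rw [hpow] at h4
      rw [hT]; (clear * - hexp1 h4; linarith))
    (fun ρ hρ => by
      obtain ⟨h1, h2, h3, h4, h5⟩ := hZp ρ hρ
      simp_rw [hpow] at h5
      exact hg2 ρ h1 h2 h3 h5)
  have hT2 : T ^ (1 + δ) ≤ 4 * Real.exp ((τ + 2 * d) * (1 + δ) * L) := by
    rw [hT, Real.mul_rpow (by norm_num) (Real.exp_pos _).le, ← Real.exp_mul]
    have h1 : (2 : ℝ) ^ (1 + δ) ≤ 4 := by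
      calc (2 : ℝ) ^ (1 + δ) ≤ 2 ^ (2 : ℝ) :=
            Real.rpow_le_rpow_of_exponent_le (by norm_num) (by (clear * - hδ hδ'; linarith))
        _ = 4 := by norm_num
    have h2 : (τ + 2 * d) * L * (1 + δ) = (τ + 2 * d) * (1 + δ) * L := by ring
    rw [h2]
    gcongr
  have hB4 : B ^ 4 = Real.exp (4 * ((1 / 2 - x) * V - δ * L)) / 200 ^ 4 := by
    rw [hB, div_pow, ← Real.exp_nat_mul]
    norm_num
  set E4 : ℝ := Real.exp (4 * ((1 / 2 - x) * V - δ * L)) with hE4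
  have hE40 : 0 < E4 := Real.exp_pos _
  have h1 : (Z.card : ℝ) * E4 ≤ (4 * C * 200 ^ 4) * Real.exp ((τ + 2 * d) * (1 + δ) * L) := by
    rw [hB4] at key
    have h2 : (Z.card : ℝ) * E4 = 200 ^ 4 * ((Z.card : ℝ) * (E4 / 200 ^ 4)) := by
      (clear * - hE40; field_simp)
    rw [h2]
    calc 200 ^ 4 * ((Z.card : ℝ) * (E4 / 200 ^ 4)) ≤ 200 ^ 4 * (C * T ^ (1 + δ)) := by gcongr
      _ ≤ 200 ^ 4 * (C * (4 * Real.exp ((τ + 2 * d) * (1 + δ) * L))) := by (clear * - hT2 hC; gcongr)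
      _ = _ := by ring
  have h2 : 4 * C * 200 ^ 4 ≤ Real.exp (60 * δ * L) := by
    have h3 : 4 * C * 200 ^ 4 ≤ 60 * δ * L := by
      rw [div_le_iff₀ (by positivity)] at hLc
      (clear * - hLc; linarith)
    (clear * - hδ hδ' h3; linarith [Real.add_one_le_exp (60 * δ * L)])
  have h3 : (τ + 2 * d) * (1 + δ) * L ≤ 4 * ((1 / 2 - x) * V - δ * L) + 2 * x * τ * L := by
    rw [hV]
    have h4 : (τ + 2 * d) * (1 + δ) ≤
        4 * ((1 / 2 - x) * (τ / 2 + 40 * δ) - δ) + 2 * x * τ := by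
      have h5 : τ * δ ≤ δ := by (clear * - hτ2 hδ; nlinarith)
      have h6 : d * δ ≤ δ * (1 / 1000) := by (clear * - hδ hδ' hd'; nlinarith)
      have h7 : x * δ ≤ 0.45 * δ := by
        apply mul_le_mul_of_nonneg_right _ hδ.le
        (clear * - hx'; linarith)
      (clear * - hδ hd' h5 h6 h7; nlinarith)
    calc (τ + 2 * d) * (1 + δ) * L ≤ (4 * ((1 / 2 - x) * (τ / 2 + 40 * δ) - δ) + 2 * x * τ) * L := by
          (clear * - h4 hLb; gcongr)
      _ = _ := by ring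
  have h4 : (Z.card : ℝ) * E4 ≤ Real.exp ((2 * x * τ + 60 * δ) * L) * E4 := by
    calc (Z.card : ℝ) * E4 ≤ (4 * C * 200 ^ 4) * Real.exp ((τ + 2 * d) * (1 + δ) * L) := h1
      _ ≤ Real.exp (60 * δ * L) * Real.exp (4 * ((1 / 2 - x) * V - δ * L) + 2 * x * τ * L) := by
          (clear * - h2 h3; gcongr)
      _ = Real.exp ((2 * x * τ + 60 * δ) * L) * E4 := by
          rw [hE4, ← Real.exp_add, ← Real.exp_add]
          congr 1
          ring
  rw [hpow]
  exact le_of_mul_le_mul_right h4 hE40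

end Pool.Agent.M17.Helper26.KC
end
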