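import Mathlib
import Pool.Agent.Helper53.KM.G06
import Pool.Agent.Helper53.KM.G17
import Pool.Agent.Helper53.KM.G18

/- Helper53.KN.Helper26.KC.F1 -/
section
/-!
# KS, fourth moment, part 1: contour shifts in a strip, residue at zero
-/

set_option autoImplicit false
open MeasureTheory Filter Topology Finset

namespace Pool.Agent.M17.Helper26.KC

/-- `uniform_decay` in a strip -/
theorem uniform_decay_on {L : ℂ → ℂ} {a b A H : ℝ}
    (hL : ∀ s : ℂ, a ≤ s.re → s.re ≤ b → ContinuousAt L s)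
    (hA : ∀ s : ℂ, a ≤ s.re → s.re ≤ b → H ≤ |s.im| → ‖L s‖ ≤ A * (1 + s.im ^ 2)⁻¹) :
    ∃ A' : ℝ, 0 ≤ A' ∧ ∀ s : ℂ, a ≤ s.re → s.re ≤ b → ‖L s‖ ≤ A' * (1 + s.im ^ 2)⁻¹ := by
  have hcomp : IsCompact ((Set.Icc a b) ×ℂ (Set.Icc (-H) H)) :=
    (isCompact_Icc).reProdIm isCompact_Icc
  have hcont : ContinuousOn L ((Set.Icc a b) ×ℂ (Set.Icc (-H) H)) := by
    intro s hs
    rw [Complex.mem_reProdIm] at hs
    exact (hL s hs.1.1 hs.1.2).continuousWithinAt
  obtain ⟨B, hB⟩ := hcomp.exists_bound_of_continuousOn hcont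
  refine ⟨max |A| (|B| * (1 + H ^ 2)), le_max_of_le_left (abs_nonneg _), ?_⟩
  intro s h1 h2
  have hp : (0 : ℝ) < 1 + s.im ^ 2 := by positivity
  have hp' : 0 ≤ (1 + s.im ^ 2)⁻¹ := by (clear * -; positivity)
  rcases le_or_gt H |s.im| with h | h
  · refine (hA s h1 h2 h).trans ?_
    exact mul_le_mul_of_nonneg_right ((le_abs_self A).trans (le_max_left _ _)) hp'
  · have h3 : s ∈ (Set.Icc a b) ×ℂ (Set.Icc (-H) H) := by
      rw [Complex.mem_reProdIm]
      exact ⟨⟨h1, h2⟩, ⟨by (clear * - h; linarith [neg_abs_le s.im]), by linarith [le_abs_self s.im]⟩⟩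
    have h4 := (hB s h3).trans (le_abs_self B)
    have h5 : 1 + s.im ^ 2 ≤ 1 + H ^ 2 := by
      have : |s.im| ^ 2 ≤ H ^ 2 := pow_le_pow_left₀ (abs_nonneg _) h.le 2
      rw [sq_abs] at this
      linarith
    have h6 : 1 ≤ (1 + H ^ 2) * (1 + s.im ^ 2)⁻¹ := by
      rw [← div_eq_mul_inv, le_div_iff₀ hp]
      (clear * - h5; linarith)
    calc ‖L s‖ ≤ |B| * 1 := by (clear * - h4; linarith)
      _ ≤ |B| * ((1 + H ^ 2) * (1 + s.im ^ 2)⁻¹) := mul_le_mul_of_nonneg_left h6 (abs_nonneg _)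
      _ = |B| * (1 + H ^ 2) * (1 + s.im ^ 2)⁻¹ := by ring
      _ ≤ _ := mul_le_mul_of_nonneg_right (le_max_right _ _) hp'

theorem line_cont {L : ℂ → ℂ} {a b c : ℝ}
    (hL : ∀ s : ℂ, a ≤ s.re → s.re ≤ b → ContinuousAt L s) (h1 : a ≤ c) (h2 : c ≤ b) :
    Continuous (fun t : ℝ => L ((c : ℂ) + t * Complex.I)) := by
  rw [continuous_iff_continuousAt]
  intro t
  refine ContinuousAt.comp (f := fun t : ℝ => (c : ℂ) + t * Complex.I) (hL _ ?_ ?_) (by fun_prop)
  · rw [line_re]; exact h1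
  · rw [line_re]; exact h2

/-- contour shift in a strip -/
theorem shift_on {L : ℂ → ℂ} {a b A H : ℝ} (hab : a ≤ b)
    (hL : ∀ s : ℂ, a ≤ s.re → s.re ≤ b → DifferentiableAt ℂ L s)
    (hA0 : ∀ s : ℂ, a ≤ s.re → s.re ≤ b → H ≤ |s.im| → ‖L s‖ ≤ A * (1 + s.im ^ 2)⁻¹) :
    ∫ t : ℝ, L ((b : ℂ) + t * Complex.I) = ∫ t : ℝ, L ((a : ℂ) + t * Complex.I) := by
  have hLc : ∀ s : ℂ, a ≤ s.re → s.re ≤ b → ContinuousAt L s := fun s h1 h2 =>
    (hL s h1 h2).continuousAt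
  obtain ⟨A', hA', hA⟩ := uniform_decay_on hLc hA0
  have hdec : Tendsto (fun T : ℝ => A' * (1 + T ^ 2)⁻¹ * |b - a|) atTop (𝓝 0) := by
    have := (inv_one_add_sq_tendsto.const_mul A').mul_const |b - a|
    simpa using this
  have hup : Tendsto (fun T : ℝ => ∫ x : ℝ in a..b, L (x + (T : ℝ) * Complex.I)) atTop (𝓝 0) := by
    refine squeeze_zero_norm (fun T => ?_) hdec
    refine intervalIntegral.norm_integral_le_of_norm_le_const fun x hx => ?_
    rw [Set.uIoc_of_le hab] at hx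
    have := hA (x + T * Complex.I) (by rw [line_re]; exact hx.1.le) (by rw [line_re]; exact hx.2)
    rwa [line_im] at this
  have hdown : Tendsto (fun T : ℝ => ∫ x : ℝ in a..b, L (x + ((-T : ℝ) : ℂ) * Complex.I)) atTop
      (𝓝 0) := by
    refine squeeze_zero_norm (fun T => ?_) hdec
    refine intervalIntegral.norm_integral_le_of_norm_le_const fun x hx => ?_
    rw [Set.uIoc_of_le hab] at hx
    have := hA (x + ((-T : ℝ) : ℂ) * Complex.I) (by rw [line_re]; exact hx.1.le)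
      (by rw [line_re]; exact hx.2)
    rwa [line_im, neg_sq] at this
  have hv2 := intervalIntegral_tendsto_integral (line_integrable (line_cont hLc hab le_rfl) hA hab le_rfl)
    tendsto_neg_atTop_atBot tendsto_id
  have hv1 := intervalIntegral_tendsto_integral (line_integrable (line_cont hLc le_rfl hab) hA le_rfl hab)
    tendsto_neg_atTop_atBot tendsto_id
  have hrect : ∀ T : ℝ, (∫ x : ℝ in a..b, L (x + ((-T : ℝ) : ℂ) * Complex.I)) -
      (∫ x : ℝ in a..b, L (x + (T : ℂ) * Complex.I)) +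
      Complex.I * (∫ y : ℝ in (-T)..T, L (b + y * Complex.I)) -
      Complex.I * (∫ y : ℝ in (-T)..T, L (a + y * Complex.I)) = 0 := by
    intro T
    have hd : DifferentiableOn ℂ L (Set.uIcc ((a : ℂ) + ((-T : ℝ) : ℂ) * Complex.I).re
        ((b : ℂ) + (T : ℂ) * Complex.I).re ×ℂ Set.uIcc ((a : ℂ) + ((-T : ℝ) : ℂ) * Complex.I).im
        ((b : ℂ) + (T : ℂ) * Complex.I).im) := by
      intro s hs
      rw [Complex.mem_reProdIm, line_re, line_re, Set.uIcc_of_le hab] at hs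
      exact (hL s hs.1.1 hs.1.2).differentiableWithinAt
    have := Complex.integral_boundary_rect_eq_zero_of_differentiableOn L
      (a + ((-T : ℝ) : ℂ) * Complex.I) (b + (T : ℂ) * Complex.I) hd
    simpa only [line_re, line_im, smul_eq_mul] using this
  have hlim := ((hdown.sub hup).add (hv2.const_mul Complex.I)).sub (hv1.const_mul Complex.I)
  simp only [id_eq] at hlim
  have hz : Tendsto (fun T : ℝ => (0 : ℂ)) atTop (𝓝 (0 - 0 + Complex.I *
      (∫ t : ℝ, L (b + t * Complex.I)) - Complex.I * ∫ t : ℝ, L (a + t * Complex.I))) := by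
    refine hlim.congr fun T => ?_
    exact hrect T
  have heq := tendsto_nhds_unique tendsto_const_nhds hz
  have hI := Complex.I_ne_zero
  have : Complex.I * (∫ t : ℝ, L (b + t * Complex.I)) =
      Complex.I * ∫ t : ℝ, L (a + t * Complex.I) := by
    linear_combination -heq
  exact mul_left_cancel₀ hI this

theorem gd_neg (z : ℝ) : gd (-z) = gd z := by
  unfold gd; rw [neg_sq]

theorem Phi_zero : Phi 0 = 1 / 2 := by
  have h1 : 1 - Phi 0 = Phi 0 := by
    rw [one_sub_Phi]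
    unfold Phi
    have h2 : ∫ y in Set.Iic (0 : ℝ), gd (0 - y) = ∫ y in Set.Ioi (-0 : ℝ), gd (0 - -y) := by
      rw [integral_comp_neg_Ioi (-0 : ℝ) (fun y => gd (0 - y)), neg_neg]
    rw [h2, neg_zero]
    congr 1
    funext y
    rw [zero_sub, neg_neg, zero_sub, gd_neg]
  (clear * - h1; linarith)

/-- the kernel `e^(w^2)/w` on a vertical line to the right -/
theorem ker_pos {c : ℝ} (hc : 0 < c) :
    ∫ t : ℝ, Complex.exp (((c : ℂ) + t * Complex.I) ^ 2) / ((c : ℂ) + t * Complex.I) = Real.pi := by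
  have h := mellin_Phi hc 0
  rw [Phi_zero] at h
  have h2 : ∀ t : ℝ, Complex.exp (((c : ℂ) + t * Complex.I) * ((0 : ℝ) : ℂ) +
      ((c : ℂ) + t * Complex.I) ^ 2) / ((c : ℂ) + t * Complex.I) =
      Complex.exp (((c : ℂ) + t * Complex.I) ^ 2) / ((c : ℂ) + t * Complex.I) := by
    intro t
    rw [Complex.ofReal_zero, mul_zero, zero_add]
  simp_rw [h2] at h
  rw [h]
  push_cast
  ring

theorem ker_neg {c : ℝ} (hc : c < 0) :
    ∫ t : ℝ, Complex.exp (((c : ℂ) + t * Complex.I) ^ 2) / ((c : ℂ) + t * Complex.I) = -Real.pi := by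
  have h := ker_pos (c := -c) (by linarith)
  have h2 : ∀ t : ℝ, Complex.exp (((c : ℂ) + t * Complex.I) ^ 2) / ((c : ℂ) + t * Complex.I) =
      -(Complex.exp ((((-c : ℝ) : ℂ) + ((-t : ℝ) : ℂ) * Complex.I) ^ 2) /
        (((-c : ℝ) : ℂ) + ((-t : ℝ) : ℂ) * Complex.I)) := by
    intro t
    have e : (((-c : ℝ) : ℂ) + ((-t : ℝ) : ℂ) * Complex.I) = -((c : ℂ) + t * Complex.I) := by
      push_cast; ring
    rw [e, neg_sq, div_neg, neg_neg]
  simp_rw [h2]
  rw [integral_neg, integral_neg_eq_self (fun t : ℝ =>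
    Complex.exp ((((-c : ℝ) : ℂ) + (t : ℂ) * Complex.I) ^ 2) / (((-c : ℝ) : ℂ) + (t : ℂ) * Complex.I)), h]

theorem norm_exp_sq (s : ℂ) : ‖Complex.exp (s ^ 2)‖ = Real.exp (s.re ^ 2) * Real.exp (-s.im ^ 2) := by
  rw [Complex.norm_exp, ← Real.exp_add]
  congr 1
  simp [pow_two]
  ring

theorem exp_neg_sq_le (y : ℝ) : Real.exp (-y ^ 2) ≤ (1 + y ^ 2)⁻¹ := by
  rw [Real.exp_neg]
  apply inv_anti₀ (by positivity)
  linarith [Real.add_one_le_exp (y ^ 2)]

/-- residue at zero -/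
theorem residue_zero {F : ℂ → ℂ} (hF : Differentiable ℂ F) {a b A H : ℝ} (ha : a < 0) (hb : 0 < b)
    (hA0 : ∀ s : ℂ, a ≤ s.re → s.re ≤ b → H ≤ |s.im| → ‖F s‖ ≤ A * (1 + s.im ^ 2)⁻¹) :
    (∫ t : ℝ, F ((b : ℂ) + t * Complex.I) / ((b : ℂ) + t * Complex.I)) -
      (∫ t : ℝ, F ((a : ℂ) + t * Complex.I) / ((a : ℂ) + t * Complex.I)) = 2 * Real.pi * F 0 := by
  obtain ⟨A', hA', hA⟩ := uniform_decay hF.continuous hA0
  set E : ℂ → ℂ := fun s => Complex.exp (s ^ 2) with hE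
  have hEd : Differentiable ℂ E := by rw [hE]; fun_prop
  set R : ℝ := Real.exp ((|a| + |b|) ^ 2) with hR
  have hEA : ∀ s : ℂ, a ≤ s.re → s.re ≤ b → ‖E s‖ ≤ R * (1 + s.im ^ 2)⁻¹ := by
    intro s h1 h2
    simp only [hE]
    rw [norm_exp_sq]
    apply mul_le_mul _ (exp_neg_sq_le _) (Real.exp_pos _).le (Real.exp_pos _).le
    apply Real.exp_le_exp.mpr
    have h3 : |s.re| ≤ |a| + |b| := by
      rw [abs_le]
      constructor
      · linarith [neg_abs_le a, abs_nonneg b]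
      · (clear * - h2; linarith [le_abs_self b, abs_nonneg a])
    calc s.re ^ 2 = |s.re| ^ 2 := (sq_abs _).symm
      _ ≤ _ := pow_le_pow_left₀ (abs_nonneg _) h3 2
  set K : ℂ → ℂ := fun s => F s - F 0 * E s with hK
  have hKd : Differentiable ℂ K := by
    rw [hK]
    exact hF.sub (hEd.const_mul _)
  have hK1 : K 0 = 0 := by simp [hK, hE]
  set L : ℂ → ℂ := dslope K 0 with hL
  have hLd : Differentiable ℂ L := by
    rw [hL, ← differentiableOn_univ, Complex.differentiableOn_dslope univ_mem, differentiableOn_univ]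
    exact hKd
  have hLne : ∀ s : ℂ, s ≠ 0 → L s = F s / s - F 0 * (E s / s) := by
    intro s hs
    rw [hL, dslope_of_ne _ hs, slope_def_field, hK1]
    simp only [hK, sub_zero]
    ring
  have hLb : ∀ s : ℂ, a ≤ s.re → s.re ≤ b → 1 ≤ |s.im| →
      ‖L s‖ ≤ (A' + ‖F 0‖ * R) * (1 + s.im ^ 2)⁻¹ := by
    intro s h1 h2 h3
    have h4 : 1 ≤ ‖s‖ := h3.trans (Complex.abs_im_le_norm s)
    have h5 : s ≠ 0 := by
      intro h
      rw [h, norm_zero] at h4
      linarith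
    have h6 : L s = K s / s := by
      rw [hL, dslope_of_ne _ h5, slope_def_field, hK1, sub_zero, sub_zero]
    rw [h6, norm_div]
    have h7 : ‖K s‖ ≤ (A' + ‖F 0‖ * R) * (1 + s.im ^ 2)⁻¹ := by
      simp only [hK]
      refine (norm_sub_le _ _).trans ?_
      rw [norm_mul]
      have h8 := hA s h1 h2
      have h9 := mul_le_mul_of_nonneg_left (hEA s h1 h2) (norm_nonneg (F 0))
      linarith
    exact (div_le_self (norm_nonneg _) h4).trans h7
  have hsh := shift hLd (by linarith : a ≤ b) hLb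
  have hline : ∀ c : ℝ, a ≤ c → c ≤ b → c ≠ 0 →
      ∫ t : ℝ, L ((c : ℂ) + t * Complex.I) =
        (∫ t : ℝ, F ((c : ℂ) + t * Complex.I) / ((c : ℂ) + t * Complex.I)) -
        F 0 * ∫ t : ℝ, E ((c : ℂ) + t * Complex.I) / ((c : ℂ) + t * Complex.I) := by
    intro c hc1 hc2 hc3
    have hdist : ∀ t : ℝ, |c| ≤ ‖(c : ℂ) + t * Complex.I‖ := by
      intro t
      have h5 := Complex.abs_re_le_norm ((c : ℂ) + t * Complex.I)
      rwa [line_re] at h5
    have hc0 : 0 < |c| := abs_pos.mpr hc3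
    have hne : ∀ t : ℝ, (c : ℂ) + t * Complex.I ≠ 0 := by
      intro t h
      have := hdist t
      rw [h, norm_zero] at this
      linarith
    have hgen : ∀ (G : ℂ → ℂ) (B : ℝ), Continuous G →
        (∀ s : ℂ, a ≤ s.re → s.re ≤ b → ‖G s‖ ≤ B * (1 + s.im ^ 2)⁻¹) →
        Integrable (fun t : ℝ => G ((c : ℂ) + t * Complex.I) / ((c : ℂ) + t * Complex.I)) := by
      intro G B hG hB
      refine (integrable_inv_one_add_sq.const_mul (B / |c|)).mono' ?_ (Eventually.of_forall fun t => ?_)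
      · refine Continuous.aestronglyMeasurable ?_
        exact (hG.comp (by fun_prop)).div (by fun_prop) hne
      · have h1 := hB ((c : ℂ) + t * Complex.I) (by rw [line_re]; exact hc1)
          (by rw [line_re]; exact hc2)
        rw [line_im] at h1
        rw [norm_div, div_mul_eq_mul_div]
        exact div_le_div₀ ((norm_nonneg _).trans h1) h1 hc0 (hdist t)
    have i1 := hgen F A' hF.continuous hA
    have i2 := hgen E R hEd.continuous hEA
    have h1 : ∀ t : ℝ, L ((c : ℂ) + t * Complex.I) =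
        F ((c : ℂ) + t * Complex.I) / ((c : ℂ) + t * Complex.I) -
        F 0 * (E ((c : ℂ) + t * Complex.I) / ((c : ℂ) + t * Complex.I)) := fun t => hLne _ (hne t)
    simp_rw [h1]
    rw [integral_sub i1 (i2.const_mul _), integral_const_mul]
  rw [hline b (by linarith) le_rfl hb.ne', hline a le_rfl (by linarith) ha.ne] at hsh
  simp only [hE] at hsh
  rw [ker_pos hb, ker_neg ha] at hsh
  linear_combination hsh

end Pool.Agent.M17.Helper26.KC
end

/- Helper53.KN.Helper26.KC.F2 -/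
section
/-!
# KS, fourth moment, part 2: the identity between two vertical lines
-/

set_option autoImplicit false
open MeasureTheory Filter Topology Finset

namespace Pool.Agent.M17.Helper26.KC

open Pool.Agent.M17.Helper1.KSZ (FF)
open Pool.Agent.M17.Helper69.QRH

theorem feq {z : ℂ} (h0 : 0 < z.re) (h1 : z ≠ 1) :
    riemannZeta (1 - z) = 2 * (2 * Real.pi : ℂ) ^ (-z) * FF z * riemannZeta z := by
  rw [riemannZeta_one_sub (fun n hn => ?_) h1]
  · unfold FF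
    ring
  · have := congrArg Complex.re hn
    simp at this
    have h2 : (0 : ℝ) ≤ n := Nat.cast_nonneg n
    (clear * - h0 this; linarith)

theorem norm_two_pi_cpow {z : ℂ} (h0 : 0 ≤ z.re) : ‖(2 * Real.pi : ℂ) ^ (-z)‖ ≤ 1 := by
  have h1 : (2 * Real.pi : ℂ) = ((2 * Real.pi : ℝ) : ℂ) := by push_cast; ring
  rw [h1, Complex.norm_cpow_eq_rpow_re_of_pos (by positivity)]
  apply Real.rpow_le_one_of_one_le_of_nonpos
  · linarith [Real.pi_gt_three]
  · simpa using h0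

/-- growth of `(s-1)ζ(s)` in `Re s ≥ -1/4` -/
theorem growth4 (hff : FMff) : ∃ C : ℝ, 0 < C ∧ ∀ z : ℂ, -(1 / 4) ≤ z.re → 1 ≤ |z.im| →
    ‖EZ z‖ ≤ C * (1 + ‖z‖) ^ 4 := by
  obtain ⟨CE, hCE0, hCE⟩ := EZ_growth
  obtain ⟨CF, hCF0, hCF⟩ := hff
  refine ⟨CE + 8 * CF * CE, by (clear * - hCE0 hCF0; positivity), fun z hz him => ?_⟩
  have hz0 := norm_nonneg z
  rcases le_or_gt (2 / 7) z.re with h | h
  · refine (hCE z h).trans ?_
    have h1 : (1 + ‖z‖) ^ 2 ≤ (1 + ‖z‖) ^ 4 := pow_le_pow_right₀ (by (clear * - hz0; linarith)) (by norm_num)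
    have h2 : (0 : ℝ) ≤ (1 + ‖z‖) ^ 4 := by (clear * -; positivity)
    have h3 : 0 ≤ 8 * CF * CE * (1 + ‖z‖) ^ 4 := by positivity
    (clear * - h3 hCE0 h1; nlinarith)
  · set z' : ℂ := 1 - z with hz'
    have hre : z'.re = 1 - z.re := by simp [hz']
    have himz : z'.im = -z.im := by simp [hz']
    have hzz : z = 1 - z' := by rw [hz']; ring
    have h1 : z' ≠ 1 := by
      intro h1
      have := congrArg Complex.im h1
      rw [himz, Complex.one_im] at this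
      have h2 : z.im = 0 := by (clear * - this; linarith)
      rw [h2, abs_zero] at him
      linarith
    have hz1 : z ≠ 1 := by
      intro h1
      rw [h1, Complex.one_im, abs_zero] at him
      linarith
    have e1 : ‖FF z'‖ ≤ CF * (1 + ‖z‖) := by
      have h2 := hCF z'.re z'.im (by rw [hre]; (clear * - h; linarith)) (by rw [hre]; (clear * - hz; linarith))
      rw [Complex.re_add_im] at h2
      refine h2.trans ?_
      apply mul_le_mul_of_nonneg_left _ hCF0.le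
      have h3 : 1 + |z'.im| ≤ 1 + ‖z‖ := by
        rw [himz, abs_neg]
        (clear * -; linarith [Complex.abs_im_le_norm z])
      calc (1 + |z'.im|) ^ (z'.re - 1 / 2) ≤ (1 + |z'.im|) ^ (1 : ℝ) :=
            Real.rpow_le_rpow_of_exponent_le (by (clear * -; linarith [abs_nonneg z'.im])) (by rw [hre]; linarith)
        _ = 1 + |z'.im| := Real.rpow_one _
        _ ≤ _ := h3
    have hn' : ‖z'‖ ≤ 1 + ‖z‖ := by
      rw [hz']
      exact (norm_sub_le _ _).trans (by rw [norm_one])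
    have e2 : ‖riemannZeta z'‖ ≤ CE * (2 + ‖z‖) ^ 2 := by
      have h2 := hCE z' (by rw [hre]; (clear * - h; linarith))
      rw [EZ_eq h1, norm_mul] at h2
      have h3 : 1 ≤ ‖z' - 1‖ := by
        have := Complex.abs_im_le_norm (z' - 1)
        rw [Complex.sub_im, Complex.one_im, sub_zero, himz, abs_neg] at this
        (clear * - him this; linarith)
      have h4 : ‖riemannZeta z'‖ ≤ ‖z' - 1‖ * ‖riemannZeta z'‖ :=
        le_mul_of_one_le_left (norm_nonneg _) h3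
      have h5 : (1 + ‖z'‖) ^ 2 ≤ (2 + ‖z‖) ^ 2 := by
        apply pow_le_pow_left₀ (by (clear * -; positivity))
        (clear * - hn'; linarith)
      calc _ ≤ _ := h4
        _ ≤ _ := h2
        _ ≤ _ := by (clear * - h5 hCE0; gcongr)
    have e3 : ‖EZ z‖ = ‖z - 1‖ * (2 * ‖(2 * Real.pi : ℂ) ^ (-z')‖ * ‖FF z'‖ * ‖riemannZeta z'‖) := by
      rw [EZ_eq hz1, norm_mul]
      congr 1
      rw [hzz, feq (by rw [hre]; (clear * - h; linarith)) h1]
      simp only [norm_mul, Complex.norm_ofNat]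
    have e4 : ‖z - 1‖ ≤ 1 + ‖z‖ := (norm_sub_le _ _).trans (by rw [norm_one]; (clear * -; linarith))
    have e5 := norm_two_pi_cpow (z := z') (by rw [hre]; linarith)
    rw [e3]
    have h6 : (2 + ‖z‖) ^ 2 ≤ 4 * (1 + ‖z‖) ^ 2 := by (clear * - hz0; nlinarith)
    calc ‖z - 1‖ * (2 * ‖(2 * Real.pi : ℂ) ^ (-z')‖ * ‖FF z'‖ * ‖riemannZeta z'‖)
        ≤ (1 + ‖z‖) * (2 * 1 * (CF * (1 + ‖z‖)) * (CE * (2 + ‖z‖) ^ 2)) := by (clear * - e4 e5 e1 e2 hCF0; gcongr)
      _ ≤ (1 + ‖z‖) * (2 * 1 * (CF * (1 + ‖z‖)) * (CE * (4 * (1 + ‖z‖) ^ 2))) := by (clear * - h6 hCE0 hCF0; gcongr)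
      _ = 8 * CF * CE * (1 + ‖z‖) ^ 4 := by ring
      _ ≤ (CE + 8 * CF * CE) * (1 + ‖z‖) ^ 4 := by
          have : 0 ≤ CE * (1 + ‖z‖) ^ 4 := by positivity
          (clear * - this; nlinarith)

theorem exp_bound_four (R y : ℝ) :
    (R + |y|) ^ 4 * Real.exp (-(y ^ 2)) ≤ (64 * (R ^ 2 + 1)) ^ 2 * (1 + y ^ 2)⁻¹ := by
  have h1 := exp_bound_aux' R y
  have h2 : 0 ≤ (R + |y|) ^ 2 * Real.exp (-(y ^ 2 / 4)) := by (clear * -; positivity)
  have h3 := pow_le_pow_left₀ h2 h1 2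
  have h4 : Real.exp (-(y ^ 2)) ≤ Real.exp (-(y ^ 2 / 4)) ^ 2 := by
    rw [← Real.exp_nat_mul]
    apply Real.exp_le_exp.mpr
    push_cast
    (clear * -; nlinarith [sq_nonneg y])
  have h5 : (1 + y ^ 2)⁻¹ ^ 2 ≤ (1 + y ^ 2)⁻¹ := by
    have h6 : (1 + y ^ 2)⁻¹ ≤ 1 := inv_le_one_of_one_le₀ (by (clear * -; nlinarith [sq_nonneg y]))
    have h7 : 0 ≤ (1 + y ^ 2)⁻¹ := by positivity
    (clear * - h1 h6 h2; nlinarith)
  calc (R + |y|) ^ 4 * Real.exp (-(y ^ 2)) ≤ (R + |y|) ^ 4 * Real.exp (-(y ^ 2 / 4)) ^ 2 := by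
        gcongr
    _ = ((R + |y|) ^ 2 * Real.exp (-(y ^ 2 / 4))) ^ 2 := by ring
    _ ≤ (64 * (R ^ 2 + 1) * (1 + y ^ 2)⁻¹) ^ 2 := h3
    _ = (64 * (R ^ 2 + 1)) ^ 2 * (1 + y ^ 2)⁻¹ ^ 2 := by ring
    _ ≤ _ := by gcongr

theorem norm_expVw (V : ℝ) (w : ℂ) : ‖Complex.exp (w * V + w ^ 2)‖ =
    Real.exp (w.re * V + w.re ^ 2) * Real.exp (-w.im ^ 2) := by
  rw [Complex.norm_exp, ← Real.exp_add]
  congr 1
  simp [pow_two]
  ring

/-- the integrand -/
noncomputable def Ig (s : ℂ) (V : ℝ) (w : ℂ) : ℂ :=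
  riemannZeta (s + w) * Complex.exp (w * V + w ^ 2) / w

/-- the identity, with a small error from the pole of zeta -/
theorem two_lines (hff : FMff) (t V : ℝ) (hV : 0 ≤ V) :
    2 * Real.pi * ‖riemannZeta (1 / 2 + (t : ℂ) * Complex.I)‖ ≤
      ‖∫ v : ℝ, Ig (1 / 2 + (t : ℂ) * Complex.I) V (((2 : ℝ) : ℂ) + v * Complex.I)‖ +
      ‖∫ v : ℝ, Ig (1 / 2 + (t : ℂ) * Complex.I) V (((-(3 / 4) : ℝ) : ℂ) + v * Complex.I)‖ +
      2400 * Real.exp (V / 2 - t ^ 2) := by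
  obtain ⟨CG, hCG0, hCG⟩ := growth4 hff
  set s : ℂ := 1 / 2 + (t : ℂ) * Complex.I with hs
  have hsre : s.re = 1 / 2 := by simp [hs]
  have hsim : s.im = t := by simp [hs]
  set s1 : ℂ := 1 - s with hs1
  have hs1re : s1.re = 1 / 2 := by rw [hs1, Complex.sub_re, hsre, Complex.one_re]; norm_num
  have hs1im : s1.im = -t := by rw [hs1, Complex.sub_im, hsim, Complex.one_im, zero_sub]
  have hs1n : 1 / 2 ≤ ‖s1‖ := by
    have := Complex.abs_re_le_norm s1
    rw [hs1re, abs_of_pos (by norm_num)] at this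
    exact this
  have hs1ne : s1 ≠ 0 := by
    intro h; rw [h, norm_zero] at hs1n; (clear * - hs1n; linarith)
  set H : ℂ → ℂ := fun w => EZ (s + w) * Complex.exp (w * V + w ^ 2) with hH
  have hHd : Differentiable ℂ H := by
    rw [hH]
    refine Differentiable.mul ?_ (by fun_prop)
    exact EZ_differentiable.comp (by fun_prop)
  have hdecay : ∀ w : ℂ, (-(3 / 4) : ℝ) ≤ w.re → w.re ≤ 2 → |t| + 1 ≤ |w.im| →
      ‖H w‖ ≤ (CG * Real.exp (2 * V + 4) * (64 * ((4 + ‖s‖) ^ 2 + 1)) ^ 2) * (1 + w.im ^ 2)⁻¹ := by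
    intro w h1 h2 h3
    have e1 : ‖EZ (s + w)‖ ≤ CG * (4 + ‖s‖ + |w.im|) ^ 4 := by
      refine (hCG (s + w) ?_ ?_).trans ?_
      · rw [Complex.add_re, hsre]; (clear * - h1; linarith)
      · rw [Complex.add_im, hsim]
        have := abs_sub_abs_le_abs_sub w.im (-t)
        rw [abs_neg, sub_neg_eq_add, add_comm w.im t] at this
        (clear * - h3 this; linarith)
      · apply mul_le_mul_of_nonneg_left _ hCG0.le
        have h4 : ‖w‖ ≤ 2 + |w.im| := by
          refine (Complex.norm_le_abs_re_add_abs_im w).trans ?_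
          have : |w.re| ≤ 2 := by rw [abs_le]; constructor <;> (clear * - h1 h2; linarith)
          (clear * - this; linarith)
        have h5 := norm_add_le s w
        apply pow_le_pow_left₀ (by (clear * -; positivity))
        (clear * - h4 h5; linarith)
    have e3 : ‖Complex.exp (w * V + w ^ 2)‖ ≤ Real.exp (2 * V + 4) * Real.exp (-(w.im ^ 2)) := by
      rw [norm_expVw]
      apply mul_le_mul_of_nonneg_right _ (Real.exp_pos _).le
      apply Real.exp_le_exp.mpr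
      have h5 : w.re * V ≤ 2 * V := mul_le_mul_of_nonneg_right h2 hV
      have h4 : w.re ^ 2 ≤ 4 := by (clear * - h2 h1; nlinarith)
      (clear * - h5 h4; linarith)
    have e4 := exp_bound_four (4 + ‖s‖) w.im
    calc ‖H w‖ = ‖EZ (s + w)‖ * ‖Complex.exp (w * V + w ^ 2)‖ := by simp only [hH, norm_mul]
      _ ≤ (CG * (4 + ‖s‖ + |w.im|) ^ 4) * (Real.exp (2 * V + 4) * Real.exp (-(w.im ^ 2))) := by
          (clear * - e1 e3 hCG0; gcongr)
      _ = CG * Real.exp (2 * V + 4) * ((4 + ‖s‖ + |w.im|) ^ 4 * Real.exp (-(w.im ^ 2))) := by ring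
      _ ≤ CG * Real.exp (2 * V + 4) * ((64 * ((4 + ‖s‖) ^ 2 + 1)) ^ 2 * (1 + w.im ^ 2)⁻¹) := by
          gcongr
      _ = _ := by ring
  have hpole := shift_pole hHd (a := -(3 / 4)) (b := 2) (s1 := s1) (by norm_num)
    (by rw [hs1re]; norm_num [abs_of_neg]) (by rw [hs1re]; norm_num)
    (by rw [hs1re]; norm_num [abs_of_neg]) (by rw [hs1re]; norm_num) hdecay
  have hres := residue_zero hHd (a := -(3 / 4)) (b := 2) (by norm_num) (by norm_num) hdecay
  obtain ⟨A', hA', hA⟩ := uniform_decay hHd.continuous hdecay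
  have hline : ∀ c : ℝ, -(3 / 4) ≤ c → c ≤ 2 → 3 / 4 ≤ |c| → 1 ≤ |c - 1 / 2| →
      ∫ v : ℝ, Ig s V ((c : ℂ) + v * Complex.I) =
        (1 / s1) * ((∫ v : ℝ, H ((c : ℂ) + v * Complex.I) / ((c : ℂ) + v * Complex.I - s1)) -
          ∫ v : ℝ, H ((c : ℂ) + v * Complex.I) / ((c : ℂ) + v * Complex.I)) := by
    intro c hc1 hc2 hc3 hc4
    have hgen : ∀ z0 : ℂ, (∀ v : ℝ, 3 / 4 ≤ ‖(c : ℂ) + v * Complex.I - z0‖) →
        Integrable (fun v : ℝ => H ((c : ℂ) + v * Complex.I) / ((c : ℂ) + v * Complex.I - z0)) := by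
      intro z0 hz0
      refine (integrable_inv_one_add_sq.const_mul (A' / (3 / 4))).mono' ?_
        (Eventually.of_forall fun v => ?_)
      · refine Continuous.aestronglyMeasurable ?_
        refine (hHd.continuous.comp (by fun_prop)).div (by fun_prop) fun v h => ?_
        have := hz0 v
        rw [h, norm_zero] at this
        (clear * - this; linarith)
      · have h1 := hA ((c : ℂ) + v * Complex.I) (by rw [line_re]; exact hc1)
          (by rw [line_re]; exact hc2)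
        rw [line_im] at h1
        rw [norm_div, div_mul_eq_mul_div]
        exact div_le_div₀ ((norm_nonneg _).trans h1) h1 (by norm_num) (hz0 v)
    have d1 : ∀ v : ℝ, 3 / 4 ≤ ‖(c : ℂ) + v * Complex.I - s1‖ := by
      intro v
      have h5 := Complex.abs_re_le_norm ((c : ℂ) + v * Complex.I - s1)
      rw [Complex.sub_re, line_re, hs1re] at h5
      (clear * - hc4 h5; linarith)
    have d2 : ∀ v : ℝ, 3 / 4 ≤ ‖(c : ℂ) + v * Complex.I - 0‖ := by
      intro v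
      have h5 := Complex.abs_re_le_norm ((c : ℂ) + v * Complex.I)
      rw [line_re] at h5
      rw [sub_zero]
      (clear * - hc3 h5; linarith)
    have i1 := hgen s1 d1
    have i2 := hgen 0 d2
    simp_rw [sub_zero] at i2 d2
    rw [← integral_sub i1 i2, ← integral_const_mul]
    apply integral_congr_ae
    refine Eventually.of_forall fun v => ?_
    have n1 : (c : ℂ) + v * Complex.I - s1 ≠ 0 := by
      intro h; have := d1 v; rw [h, norm_zero] at this; (clear * - this; linarith)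
    have n2 : (c : ℂ) + v * Complex.I ≠ 0 := by
      intro h; have := d2 v; rw [h, norm_zero] at this; (clear * - this; linarith)
    have n3 : s + ((c : ℂ) + v * Complex.I) ≠ 1 := by
      intro h
      apply n1
      rw [hs1, ← h]; ring
    have e5 : s + ((c : ℂ) + v * Complex.I) - 1 = (c : ℂ) + v * Complex.I - s1 := by rw [hs1]; ring
    simp only [Ig, hH]
    rw [EZ_eq n3, e5]
    field_simp
    ring
  have l2 := hline 2 (by norm_num) le_rfl (by norm_num) (by norm_num)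
  have l3 := hline (-(3 / 4)) le_rfl (by norm_num) (by norm_num [abs_of_neg]) (by norm_num [abs_of_neg])
  have hH0 : H 0 = -s1 * riemannZeta s := by
    have hs_ne : s ≠ 1 := by
      intro h
      have := congrArg Complex.re h
      rw [hsre, Complex.one_re] at this
      norm_num at this
    simp only [hH, add_zero, zero_mul, ne_eq, OfNat.ofNat_ne_zero, not_false_eq_true, zero_pow,
      Complex.exp_zero, mul_one]
    rw [EZ_eq hs_ne, hs1]
    ring
  have hHs1 : ‖H s1‖ ≤ 2 * Real.exp (V / 2 - t ^ 2) := by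
    have h1 : s + s1 = 1 := by rw [hs1]; ring
    simp only [hH]
    rw [h1, EZ_one, one_mul, norm_expVw, hs1re, hs1im, neg_sq]
    have h2 : Real.exp (1 / 2 * V + (1 / 2) ^ 2) * Real.exp (-t ^ 2) =
        Real.exp (1 / 4) * Real.exp (V / 2 - t ^ 2) := by
      rw [← Real.exp_add, ← Real.exp_add]
      congr 1
      ring
    rw [h2]
    have h3 : Real.exp (1 / 4) ≤ 2 := by
      have h4 := Real.exp_one_lt_d9
      have h5 : Real.exp (1 / 4) ≤ Real.exp (1 / 4) ^ 4 := by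
        have h6 : 1 ≤ Real.exp (1 / 4) := Real.one_le_exp (by norm_num)
        calc Real.exp (1 / 4) = Real.exp (1 / 4) ^ 1 := (pow_one _).symm
          _ ≤ _ := pow_le_pow_right₀ h6 (by norm_num)
      have h6 : Real.exp (1 / 4) ^ 4 = Real.exp 1 := by
        rw [← Real.exp_nat_mul]; norm_num
      by_contra hcon
      push Not at hcon
      have h7 : (2 : ℝ) ^ 4 ≤ Real.exp (1 / 4) ^ 4 := pow_le_pow_left₀ (by norm_num) hcon.le 4
      rw [h6] at h7
      (clear * - h4 h7; linarith)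
    exact mul_le_mul_of_nonneg_right h3 (Real.exp_pos _).le
  set I2 := ∫ v : ℝ, Ig s V (((2 : ℝ) : ℂ) + v * Complex.I) with hI2
  set I3 := ∫ v : ℝ, Ig s V (((-(3 / 4) : ℝ) : ℂ) + v * Complex.I) with hI3
  set P2 := ∫ v : ℝ, H (((2 : ℝ) : ℂ) + v * Complex.I) / (((2 : ℝ) : ℂ) + v * Complex.I - s1)
  set P3 := ∫ v : ℝ, H (((-(3 / 4) : ℝ) : ℂ) + v * Complex.I) / (((-(3 / 4) : ℝ) : ℂ) + v * Complex.I - s1)
  set Q2 := ∫ v : ℝ, H (((2 : ℝ) : ℂ) + v * Complex.I) / (((2 : ℝ) : ℂ) + v * Complex.I)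
  set Q3 := ∫ v : ℝ, H (((-(3 / 4) : ℝ) : ℂ) + v * Complex.I) / (((-(3 / 4) : ℝ) : ℂ) + v * Complex.I)
  have hkey : 2 * (Real.pi : ℂ) * riemannZeta s = I2 - I3 - (P2 - P3) / s1 := by
    have hq : (Q2 - Q3) / s1 = -(2 * Real.pi * riemannZeta s) := by
      rw [hres, hH0, div_eq_iff hs1ne]; ring
    calc 2 * (Real.pi : ℂ) * riemannZeta s = -((Q2 - Q3) / s1) := by rw [hq]; ring
      _ = 1 / s1 * (P2 - Q2) - 1 / s1 * (P3 - Q3) - (P2 - P3) / s1 := by ring
      _ = I2 - I3 - (P2 - P3) / s1 := by rw [l2, l3]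
  have hn : 2 * Real.pi * ‖riemannZeta s‖ = ‖2 * (Real.pi : ℂ) * riemannZeta s‖ := by
    rw [norm_mul, norm_mul, Complex.norm_real, Complex.norm_ofNat, Real.norm_of_nonneg Real.pi_pos.le]
  rw [hn, hkey]
  have h1 : ‖(P2 - P3) / s1‖ ≤ 2400 * Real.exp (V / 2 - t ^ 2) := by
    rw [norm_div, div_le_iff₀ (by (clear * - hs1n; linarith))]
    have h2 : ‖P2 - P3‖ ≤ 1200 * Real.exp (V / 2 - t ^ 2) := by (clear * - hHs1 hpole; linarith)
    have h3 := Real.exp_pos (V / 2 - t ^ 2)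
    (clear * - hHs1 hpole hs1n h3; nlinarith)
  calc ‖I2 - I3 - (P2 - P3) / s1‖ ≤ ‖I2 - I3‖ + ‖(P2 - P3) / s1‖ := norm_sub_le _ _
    _ ≤ (‖I2‖ + ‖I3‖) + _ := add_le_add (norm_sub_le _ _) h1

end Pool.Agent.M17.Helper26.KC
end

/- Helper53.KN.Helper26.KC.F3 -/
section
/-!
# KS, fourth moment, part 3: approximate functional equation (inequality)
-/

set_option autoImplicit false
open MeasureTheory Filter Topology Finset

namespace Pool.Agent.M17.Helper26.KC

open Pool.Agent.M17.Helper1.KSZ (FF)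
open Pool.Agent.M17.Helper69.QRH

theorem FF_diff {s : ℂ} (hs : 0 < s.re) : DifferentiableAt ℂ FF s := by
  unfold FF
  refine DifferentiableAt.mul (Complex.differentiableAt_Gamma s (fun m hm => ?_)) ?_
  · have := congrArg Complex.re hm
    simp at this
    have h2 : (0 : ℝ) ≤ m := Nat.cast_nonneg m
    (clear * - hs this; linarith)
  · fun_prop

/-- the factor in the reflected integral -/
noncomputable def Af (s : ℂ) (V : ℝ) (w : ℂ) : ℂ :=
  2 * (2 * Real.pi : ℂ) ^ (-(1 - s - w)) * FF (1 - s - w) * Complex.exp (w * V + w ^ 2) / w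

theorem Af_diff {s : ℂ} {V : ℝ} {w : ℂ} (hs : s.re = 1 / 2) (hw : w.re < 0) :
    DifferentiableAt ℂ (Af s V) w := by
  have hw0 : w ≠ 0 := by
    rintro rfl; simp at hw
  have h2 : (2 * Real.pi : ℂ) ≠ 0 := by
    have := Real.pi_ne_zero
    exact mul_ne_zero two_ne_zero (by exact_mod_cast this)
  unfold Af
  refine DifferentiableAt.div (DifferentiableAt.mul (DifferentiableAt.mul ?_ ?_) (by fun_prop))
    (by fun_prop) hw0
  · refine DifferentiableAt.mul (by fun_prop) ?_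
    exact DifferentiableAt.const_cpow (by fun_prop) (Or.inl h2)
  · refine DifferentiableAt.comp (g := FF) (f := fun w : ℂ => 1 - s - w) w (FF_diff ?_) (by fun_prop)
    simp [hs]
    (clear * - hw; linarith)

theorem Af_norm {C : ℝ} (_hC : 0 < C)
    (hC1 : ∀ σ t : ℝ, 1 / 2 ≤ σ → σ ≤ 3 / 2 →
      ‖FF ((σ : ℂ) + t * Complex.I)‖ ≤ C * (1 + |t|) ^ (σ - 1 / 2))
    {ε t V : ℝ} (hε : 0 < ε) {w : ℂ} (h1 : w.re ≤ -ε) (h2 : -(3 / 4) ≤ w.re) :
    ‖Af (1 / 2 + (t : ℂ) * Complex.I) V w‖ ≤ 4 * C / ε * (1 + |t + w.im|) ^ (-w.re) *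
      Real.exp (w.re * V) * Real.exp (-w.im ^ 2) := by
  set z : ℂ := 1 - (1 / 2 + (t : ℂ) * Complex.I) - w with hz
  have hzre : z.re = 1 / 2 - w.re := by
    simp [hz]; ring
  have hzim : z.im = -(t + w.im) := by
    simp [hz]; ring
  have e1 : ‖FF z‖ ≤ C * (1 + |t + w.im|) ^ (-w.re) := by
    have h3 := hC1 z.re z.im (by rw [hzre]; (clear * - hε h1; linarith)) (by rw [hzre]; (clear * - hε h1 h2; linarith))
    rw [Complex.re_add_im, hzre, hzim, abs_neg] at h3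
    rwa [show 1 / 2 - w.re - 1 / 2 = -w.re by ring] at h3
  have e2 := norm_two_pi_cpow (z := z) (by rw [hzre]; (clear * - hε h1 h2; linarith))
  have e3 : ε ≤ ‖w‖ := by
    have := Complex.abs_re_le_norm w
    have h4 := neg_abs_le w.re
    (clear * - h1 this h4; linarith)
  have e4 : Real.exp (w.re ^ 2) ≤ 2 := by
    have h5 : w.re ^ 2 ≤ 9 / 16 := by (clear * - h2 hε h1; nlinarith)
    have h6 : Real.exp (w.re ^ 2) ≤ Real.exp (9 / 16) := Real.exp_le_exp.mpr h5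
    have h7 : Real.exp (9 / 16) ≤ 2 := by
      have h8 : (9 / 16 : ℝ) ≤ Real.log 2 := by
        have := Real.log_two_gt_d9
        (clear * - hε h1 h2 this; linarith)
      calc Real.exp (9 / 16) ≤ Real.exp (Real.log 2) := Real.exp_le_exp.mpr h8
        _ = 2 := Real.exp_log (by norm_num)
    (clear * - h6 h7; linarith)
  have e5 : ‖Complex.exp (w * V + w ^ 2)‖ ≤ 2 * (Real.exp (w.re * V) * Real.exp (-w.im ^ 2)) := by
    rw [norm_expVw, Real.exp_add]
    have h5 := Real.exp_pos (w.re * V)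
    have h6 := Real.exp_pos (-w.im ^ 2)
    calc Real.exp (w.re * V) * Real.exp (w.re ^ 2) * Real.exp (-w.im ^ 2)
        ≤ Real.exp (w.re * V) * 2 * Real.exp (-w.im ^ 2) := by (clear * - e4; gcongr)
      _ = _ := by ring
  unfold Af
  rw [← hz, norm_div, norm_mul, norm_mul, norm_mul, Complex.norm_ofNat]
  have h6 : (0 : ℝ) ≤ (1 + |t + w.im|) ^ (-w.re) := by positivity
  calc 2 * ‖(2 * Real.pi : ℂ) ^ (-z)‖ * ‖FF z‖ * ‖Complex.exp (w * V + w ^ 2)‖ / ‖w‖
      ≤ 2 * 1 * (C * (1 + |t + w.im|) ^ (-w.re)) *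
        (2 * (Real.exp (w.re * V) * Real.exp (-w.im ^ 2))) / ε := by gcongr
    _ = _ := by ring

/-- splitting of the zeta series -/
theorem zeta_split {z : ℂ} (hz : 1 < z.re) (M : ℕ) :
    riemannZeta z = ∑ m ∈ Icc 1 M, (m : ℂ) ^ (-z) + ∑' m : ℕ, ((m : ℂ) + M + 1) ^ (-z) := by
  have hs : Summable (fun n : ℕ => ((n : ℂ) + 1) ^ (-z)) := by
    refine Summable.of_norm ?_
    have h1 := summable_rpow_aux (r := -z.re) (by linarith)
    refine h1.congr fun n => ?_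
    have h2 : ((n : ℂ) + 1) = (((n : ℝ) + 1 : ℝ) : ℂ) := by push_cast; ring
    rw [h2, Complex.norm_cpow_eq_rpow_re_of_pos (by (clear * -; positivity)), Complex.neg_re]
  rw [zeta_eq_tsum_one_div_nat_add_one_cpow hz]
  have h1 : ∀ n : ℕ, 1 / ((n : ℂ) + 1) ^ z = ((n : ℂ) + 1) ^ (-z) := by
    intro n
    rw [one_div, Complex.cpow_neg]
  simp_rw [h1]
  rw [← hs.sum_add_tsum_nat_add M]
  congr 1
  · have h2 : Icc 1 M = Ico (0 + 1) (M + 1) := by
      ext x; simp only [Finset.mem_Icc, Finset.mem_Ico]; omega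
    rw [h2, ← Finset.sum_Ico_add' (fun m : ℕ => (m : ℂ) ^ (-z)) 0 M 1, Finset.range_eq_Ico]
    apply Finset.sum_congr rfl
    intro m _
    push_cast
    rfl
  · apply tsum_congr
    intro m
    push_cast
    rfl

theorem lin_exp_bound (R y : ℝ) (hR : 1 ≤ R) :
    (R + |y|) * Real.exp (-y ^ 2 / 2) ≤ 64 * (R ^ 2 + 1) * (1 + y ^ 2)⁻¹ := by
  refine le_trans ?_ (exp_bound_aux' R y)
  have h1 : 1 ≤ R + |y| := by linarith [abs_nonneg y]
  have h2 : R + |y| ≤ (R + |y|) ^ 2 := by (clear * - h1; nlinarith)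
  have h3 : Real.exp (-y ^ 2 / 2) ≤ Real.exp (-(y ^ 2 / 4)) := by
    apply Real.exp_le_exp.mpr
    (clear * -; nlinarith [sq_nonneg y])
  gcongr

theorem rpow_lin {ε t v : ℝ} (hε : 0 ≤ ε) (hε1 : ε ≤ 1) : (1 + |t + v|) ^ ε ≤ 1 + |t| + |v| := by
  calc (1 + |t + v|) ^ ε ≤ (1 + |t + v|) ^ (1 : ℝ) :=
        Real.rpow_le_rpow_of_exponent_le (by linarith [abs_nonneg (t + v)]) hε1
    _ = 1 + |t + v| := Real.rpow_one _
    _ ≤ _ := by (clear * -; linarith [abs_add_le t v])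

/-- integrability of the majorants -/
theorem major_int {ε t B : ℝ} (hε : 0 ≤ ε) (hε1 : ε ≤ 1) {P : ℝ → ℂ} (hP : Continuous P)
    (hB : ∀ v, ‖P v‖ ≤ B) :
    Integrable (fun v : ℝ => (1 + |t + v|) ^ ε * ‖P v‖ * Real.exp (-v ^ 2 / 2)) := by
  have hB0 : 0 ≤ B := (norm_nonneg _).trans (hB 0)
  refine (integrable_inv_one_add_sq.const_mul (B * (64 * ((1 + |t|) ^ 2 + 1)))).mono' ?_
    (Eventually.of_forall fun v => ?_)
  · refine Continuous.aestronglyMeasurable ?_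
    refine Continuous.mul (Continuous.mul ?_ hP.norm) (by fun_prop)
    exact Continuous.rpow_const (by fun_prop) (fun v => Or.inr hε)
  · rw [Real.norm_of_nonneg (by (clear * -; positivity))]
    have h1 := rpow_lin (t := t) (v := v) hε hε1
    have h2 := lin_exp_bound (1 + |t|) v (by linarith [abs_nonneg t])
    calc (1 + |t + v|) ^ ε * ‖P v‖ * Real.exp (-v ^ 2 / 2)
        ≤ (1 + |t| + |v|) * B * Real.exp (-v ^ 2 / 2) := by
          gcongr
          exact hB v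
      _ = B * ((1 + |t| + |v|) * Real.exp (-v ^ 2 / 2)) := by ring
      _ ≤ B * (64 * ((1 + |t|) ^ 2 + 1) * (1 + v ^ 2)⁻¹) := by gcongr
      _ = _ := by ring

/-- a bounded continuous factor against `Af` on a line -/
theorem Af_line {C : ℝ} (hC : 0 < C)
    (hC1 : ∀ σ t : ℝ, 1 / 2 ≤ σ → σ ≤ 3 / 2 →
      ‖FF ((σ : ℂ) + t * Complex.I)‖ ≤ C * (1 + |t|) ^ (σ - 1 / 2))
    {ε t V η : ℝ} (hε : 0 < ε) (h1 : ε ≤ η) (h2 : η ≤ 3 / 4) (v : ℝ) :
    ‖Af (1 / 2 + (t : ℂ) * Complex.I) V (((-η : ℝ) : ℂ) + v * Complex.I)‖ ≤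
      4 * C / ε * Real.exp (-η * V) * ((1 + |t + v|) ^ η * Real.exp (-v ^ 2 / 2)) := by
  have h := Af_norm hC hC1 (t := t) (V := V) hε (w := ((-η : ℝ) : ℂ) + v * Complex.I)
    (by rw [line_re]; (clear * - h1; linarith)) (by rw [line_re]; linarith)
  rw [line_re, line_im, neg_neg] at h
  refine h.trans ?_
  have h3 : Real.exp (-v ^ 2) ≤ Real.exp (-v ^ 2 / 2) := by
    apply Real.exp_le_exp.mpr
    (clear * -; nlinarith [sq_nonneg v])
  calc 4 * C / ε * (1 + |t + v|) ^ η * Real.exp (-η * V) * Real.exp (-v ^ 2)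
      ≤ 4 * C / ε * (1 + |t + v|) ^ η * Real.exp (-η * V) * Real.exp (-v ^ 2 / 2) := by gcongr
    _ = _ := by ring

theorem Af_cont {t V η : ℝ} (hη : 0 < η) :
    Continuous (fun v : ℝ => Af (1 / 2 + (t : ℂ) * Complex.I) V (((-η : ℝ) : ℂ) + v * Complex.I)) := by
  rw [continuous_iff_continuousAt]
  intro v
  refine ContinuousAt.comp (f := fun v : ℝ => ((-η : ℝ) : ℂ) + v * Complex.I)
    (Af_diff (by simp) (by rw [line_re]; linarith)).continuousAt (by fun_prop)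

theorem mul_bound {C : ℝ} (hC : 0 < C)
    (hC1 : ∀ σ t : ℝ, 1 / 2 ≤ σ → σ ≤ 3 / 2 →
      ‖FF ((σ : ℂ) + t * Complex.I)‖ ≤ C * (1 + |t|) ^ (σ - 1 / 2))
    {ε t V η B : ℝ} (hε : 0 < ε) (h1 : ε ≤ η) (h2 : η ≤ 3 / 4) {P : ℝ → ℂ} (hP : Continuous P)
    (hB : ∀ v, ‖P v‖ ≤ B) :
    Integrable (fun v : ℝ => Af (1 / 2 + (t : ℂ) * Complex.I) V (((-η : ℝ) : ℂ) + v * Complex.I) * P v) ∧
    ‖∫ v : ℝ, Af (1 / 2 + (t : ℂ) * Complex.I) V (((-η : ℝ) : ℂ) + v * Complex.I) * P v‖ ≤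
      4 * C / ε * Real.exp (-η * V) *
        ∫ v : ℝ, (1 + |t + v|) ^ η * ‖P v‖ * Real.exp (-v ^ 2 / 2) := by
  have hm := major_int (t := t) (ε := η) (by (clear * - hε h1; linarith)) (by (clear * - hε h1 h2; linarith)) hP hB
  have hb : ∀ v : ℝ, ‖Af (1 / 2 + (t : ℂ) * Complex.I) V (((-η : ℝ) : ℂ) + v * Complex.I) * P v‖ ≤
      4 * C / ε * Real.exp (-η * V) * ((1 + |t + v|) ^ η * ‖P v‖ * Real.exp (-v ^ 2 / 2)) := by
    intro v
    rw [norm_mul]
    have h3 := mul_le_mul_of_nonneg_right (Af_line hC hC1 (t := t) (V := V) hε h1 h2 v) (norm_nonneg (P v))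
    refine h3.trans (le_of_eq ?_)
    ring
  constructor
  · refine (hm.const_mul (4 * C / ε * Real.exp (-η * V))).mono' ?_ (Eventually.of_forall hb)
    exact ((Af_cont (by linarith)).mul hP).aestronglyMeasurable
  · rw [← integral_const_mul]
    exact norm_integral_le_of_norm_le (hm.const_mul _) (Eventually.of_forall hb)

theorem afe (hff : FMff) : FMafe := by
  intro ε hε hε4
  obtain ⟨C, hC, hC1⟩ := id hff
  refine ⟨4 * C / ε + 400, by (clear * - hC hε; positivity), ?_⟩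
  intro N M t hN hM
  have hN0 : 0 < N := by (clear * - hε hε4 hN; linarith)
  set V : ℝ := Real.log N with hV
  have hV0 : 0 ≤ V := Real.log_nonneg hN
  set s : ℂ := 1 / 2 + (t : ℂ) * Complex.I with hs
  have hsre : s.re = 1 / 2 := by simp [hs]
  have key := two_lines hff t V hV0
  rw [← hs] at key
  -- right line
  have hright : ∫ v : ℝ, Ig s V (((2 : ℝ) : ℂ) + v * Complex.I) = 2 * Real.pi * S1 N t := by
    have h1 := (inner_mellin (ρ := s) (by rw [hsre]; norm_num) V).2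
    unfold S1 Ig
    rw [← hs, ← hV, ← h1]
    apply integral_congr_ae
    refine Eventually.of_forall fun v => ?_
    simp only
    ring
  -- the polynomial and the tail
  set Pz : ℂ → ℂ := fun w => ∑ m ∈ Icc 1 M, (m : ℂ) ^ (-(1 - s - w)) with hPz
  have hPzd : Differentiable ℂ Pz := by
    rw [hPz]
    apply Differentiable.fun_sum
    intro m hm
    have h1 : (m : ℂ) ≠ 0 := by
      have := (Finset.mem_Icc.mp hm).1
      exact_mod_cast (by omega : m ≠ 0)
    exact Differentiable.const_cpow (by fun_prop) (Or.inl h1)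
  have hPzn : ∀ w : ℂ, w.re ≤ 1 / 2 → ‖Pz w‖ ≤ M := by
    intro w hw
    simp only [hPz]
    refine (norm_sum_le _ _).trans ?_
    have h1 : ∀ m ∈ Icc 1 M, ‖(m : ℂ) ^ (-(1 - s - w))‖ ≤ 1 := by
      intro m hm
      apply norm_natCast_cpow_neg_le (Finset.mem_Icc.mp hm).1
      simp [hsre]
      (clear * - hw; linarith)
    refine (Finset.sum_le_card_nsmul _ _ _ h1).trans ?_
    simp
  set Tz : ℝ → ℂ := fun v => ∑' m : ℕ, ((m : ℂ) + M + 1) ^ ((-(5 / 4) : ℂ) + ((t + v : ℝ) : ℂ) * Complex.I)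
    with hTz
  have hexp : ∀ v : ℝ, -(1 - s - (((-(3 / 4) : ℝ) : ℂ) + v * Complex.I)) =
      (-(5 / 4) : ℂ) + ((t + v : ℝ) : ℂ) * Complex.I := by
    intro v
    rw [hs]; push_cast; ring
  have hzre : ∀ v : ℝ, (1 - s - (((-(3 / 4) : ℝ) : ℂ) + v * Complex.I)).re = 5 / 4 := by
    intro v
    rw [Complex.sub_re, Complex.sub_re, line_re, hsre, Complex.one_re]; norm_num
  have hsplit : ∀ v : ℝ, riemannZeta (1 - s - (((-(3 / 4) : ℝ) : ℂ) + v * Complex.I)) =
      Pz (((-(3 / 4) : ℝ) : ℂ) + v * Complex.I) + Tz v := by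
    intro v
    rw [zeta_split (by rw [hzre]; norm_num) M]
    simp only [hPz, hTz]
    rw [← hexp v]
  have hne1 : ∀ v : ℝ, 1 - s - (((-(3 / 4) : ℝ) : ℂ) + v * Complex.I) ≠ 1 := by
    intro v h
    have := congrArg Complex.re h
    rw [hzre, Complex.one_re] at this
    norm_num at this
  have hTzc : Continuous Tz := by
    have h1 : Tz = fun v : ℝ => riemannZeta (1 - s - (((-(3 / 4) : ℝ) : ℂ) + v * Complex.I)) -
        Pz (((-(3 / 4) : ℝ) : ℂ) + v * Complex.I) := by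
      funext v; rw [hsplit v]; ring
    rw [h1]
    refine Continuous.sub ?_ (hPzd.continuous.comp (by fun_prop))
    rw [continuous_iff_continuousAt]
    intro v
    exact ContinuousAt.comp (f := fun v : ℝ => 1 - s - (((-(3 / 4) : ℝ) : ℂ) + v * Complex.I))
      (differentiableAt_riemannZeta (hne1 v)).continuousAt (by fun_prop)
  have hTzb : ∃ B : ℝ, ∀ v, ‖Tz v‖ ≤ B := by
    refine ⟨∑' m : ℕ, ((m : ℝ) + 1) ^ (-(5 / 4) : ℝ), fun v => ?_⟩
    simp only [hTz]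
    refine tsum_of_norm_bounded (summable_rpow_aux (r := -(5 / 4)) (by norm_num)).hasSum fun m => ?_
    have h2 : ((m : ℂ) + M + 1) = (((m : ℝ) + M + 1 : ℝ) : ℂ) := by push_cast; ring
    have hp : (0 : ℝ) < (m : ℝ) + M + 1 := by (clear * - hM; positivity)
    rw [h2, Complex.norm_cpow_eq_rpow_re_of_pos hp]
    have h3 : ((-(5 / 4) : ℂ) + ((t + v : ℝ) : ℂ) * Complex.I).re = -(5 / 4) := by
      have : (-(5 / 4) : ℂ) = ((-(5 / 4) : ℝ) : ℂ) := by push_cast; ring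
      rw [this, line_re]
    rw [h3]
    apply Real.rpow_le_rpow_of_nonpos (by positivity) _ (by norm_num)
    have : (0 : ℝ) ≤ M := Nat.cast_nonneg M
    (clear * -; linarith)
  obtain ⟨B, hB⟩ := hTzb
  have hleft1 : ∀ v : ℝ, Ig s V (((-(3 / 4) : ℝ) : ℂ) + v * Complex.I) =
      Af s V (((-(3 / 4) : ℝ) : ℂ) + v * Complex.I) * Pz (((-(3 / 4) : ℝ) : ℂ) + v * Complex.I) +
      Af s V (((-(3 / 4) : ℝ) : ℂ) + v * Complex.I) * Tz v := by
    intro v
    rw [← mul_add, ← hsplit v]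
    set w : ℂ := ((-(3 / 4) : ℝ) : ℂ) + v * Complex.I with hw
    have h1 : s + w = 1 - (1 - s - w) := by ring
    unfold Ig Af
    rw [h1, feq (by rw [hw, hzre]; norm_num) (by rw [hw]; exact hne1 v)]
    ring
  have hPline : ∀ η : ℝ, 0 < η → Continuous (fun v : ℝ => Pz (((-η : ℝ) : ℂ) + v * Complex.I)) :=
    fun η _ => hPzd.continuous.comp (by fun_prop)
  have hPlb : ∀ η : ℝ, 0 < η → ∀ v : ℝ, ‖Pz (((-η : ℝ) : ℂ) + v * Complex.I)‖ ≤ M := by
    intro η hη v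
    apply hPzn
    rw [line_re]; (clear * - hε hε4 hη; linarith)
  have m1 := mul_bound hC hC1 (t := t) (V := V) hε (η := 3 / 4) (by (clear * - hε hε4; linarith)) le_rfl
    (hPline (3 / 4) (by norm_num)) (hPlb (3 / 4) (by norm_num))
  have m2 := mul_bound hC hC1 (t := t) (V := V) hε (η := 3 / 4) (by (clear * - hε hε4; linarith)) le_rfl hTzc hB
  have m3 := mul_bound hC hC1 (t := t) (V := V) hε (η := ε) le_rfl (by (clear * - hε hε4; linarith))
    (hPline ε hε) (hPlb ε hε)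
  rw [← hs] at m1 m2 m3
  have hshift : ∫ v : ℝ, Af s V (((-ε : ℝ) : ℂ) + v * Complex.I) * Pz (((-ε : ℝ) : ℂ) + v * Complex.I) =
      ∫ v : ℝ, Af s V (((-(3 / 4) : ℝ) : ℂ) + v * Complex.I) *
        Pz (((-(3 / 4) : ℝ) : ℂ) + v * Complex.I) := by
    refine shift_on (L := fun w => Af s V w * Pz w) (a := -(3 / 4)) (b := -ε)
      (A := 4 * C / ε * M * (64 * ((1 + |t|) ^ 2 + 1))) (H := 0) (by (clear * - hε hε4; linarith)) ?_ ?_
    · intro w h1 h2
      exact (Af_diff hsre (by (clear * - hε h2; linarith))).mul hPzd.differentiableAt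
    · intro w h1 h2 _
      rw [norm_mul]
      have h3 := Af_norm hC hC1 (t := t) (V := V) hε (w := w) h2 h1
      rw [← hs] at h3
      have h4 := hPzn w (by (clear * - hε hε4 h2; linarith))
      have h5 : Real.exp (w.re * V) ≤ 1 := by
        rw [Real.exp_le_one_iff]
        exact mul_nonpos_of_nonpos_of_nonneg (by (clear * - hε h2; linarith)) hV0
      have h6 := rpow_lin (t := t) (v := w.im) (ε := -w.re) (by (clear * - hε h2; linarith)) (by (clear * - hε hε4 h1; linarith))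
      have h7 := lin_exp_bound (1 + |t|) w.im (by (clear * -; linarith [abs_nonneg t]))
      have h8 : Real.exp (-w.im ^ 2) ≤ Real.exp (-w.im ^ 2 / 2) := by
        apply Real.exp_le_exp.mpr
        (clear * -; nlinarith [sq_nonneg w.im])
      have h9 : (0 : ℝ) ≤ M := Nat.cast_nonneg M
      calc ‖Af s V w‖ * ‖Pz w‖
          ≤ (4 * C / ε * (1 + |t + w.im|) ^ (-w.re) * Real.exp (w.re * V) * Real.exp (-w.im ^ 2)) * M := by
            (clear * - h3 h4 hC hε; gcongr)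
        _ ≤ (4 * C / ε * (1 + |t| + |w.im|) * 1 * Real.exp (-w.im ^ 2 / 2)) * M := by (clear * - h6 hC hε h5 h8 hM; gcongr)
        _ = 4 * C / ε * M * ((1 + |t| + |w.im|) * Real.exp (-w.im ^ 2 / 2)) := by ring
        _ ≤ 4 * C / ε * M * (64 * ((1 + |t|) ^ 2 + 1) * (1 + w.im ^ 2)⁻¹) := by gcongr
        _ = _ := by ring
  have hleft : ∫ v : ℝ, Ig s V (((-(3 / 4) : ℝ) : ℂ) + v * Complex.I) =
      (∫ v : ℝ, Af s V (((-ε : ℝ) : ℂ) + v * Complex.I) * Pz (((-ε : ℝ) : ℂ) + v * Complex.I)) +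
      ∫ v : ℝ, Af s V (((-(3 / 4) : ℝ) : ℂ) + v * Complex.I) * Tz v := by
    rw [hshift]
    simp_rw [hleft1]
    exact integral_add m1.1 m2.1
  rw [hright, hleft] at key
  have hpi := Real.pi_pos
  have hpi3 := Real.pi_gt_three
  have hS1 : ‖2 * (Real.pi : ℂ) * S1 N t‖ = 2 * Real.pi * ‖S1 N t‖ := by
    rw [norm_mul, norm_mul, Complex.norm_real, Complex.norm_ofNat, Real.norm_of_nonneg hpi.le]
  rw [hS1] at key
  have hNε : Real.exp (-ε * V) = N ^ (-ε) := by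
    rw [Real.rpow_def_of_pos hN0, ← hV]; ring_nf
  have hN34 : Real.exp (-(3 / 4) * V) = N ^ (-(3 / 4) : ℝ) := by
    rw [Real.rpow_def_of_pos hN0, ← hV]; ring_nf
  have hsq : Real.exp (V / 2 - t ^ 2) = Real.sqrt N * Real.exp (-t ^ 2) := by
    rw [sub_eq_add_neg, Real.exp_add, Real.sqrt_eq_rpow, Real.rpow_def_of_pos hN0, ← hV]
    congr 2
    ring
  rw [hNε] at m3
  rw [hN34] at m2
  rw [hsq] at key
  have hint1 : ∀ v : ℝ, Pz (((-ε : ℝ) : ℂ) + v * Complex.I) =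
      ∑ m ∈ Icc 1 M, (m : ℂ) ^ ((-(1 / 2 + ε : ℝ) : ℂ) + ((t + v : ℝ) : ℂ) * Complex.I) := by
    intro v
    simp only [hPz]
    apply Finset.sum_congr rfl
    intro m _
    congr 1
    rw [hs]; push_cast; ring
  simp_rw [hint1] at m3
  set A1 : ℝ := ∫ v : ℝ, (1 + |t + v|) ^ ε * ‖∑ m ∈ Icc 1 M, (m : ℂ) ^ ((-(1 / 2 + ε : ℝ) : ℂ) +
      ((t + v : ℝ) : ℂ) * Complex.I)‖ * Real.exp (-v ^ 2 / 2) with hA1
  set A2 : ℝ := ∫ v : ℝ, (1 + |t + v|) ^ (3 / 4 : ℝ) * ‖Tz v‖ * Real.exp (-v ^ 2 / 2) with hA2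
  have hA10 : 0 ≤ A1 := integral_nonneg fun v => by (clear * -; positivity)
  have hA20 : 0 ≤ A2 := integral_nonneg fun v => by (clear * -; positivity)
  have hE0 : 0 ≤ Real.sqrt N * Real.exp (-t ^ 2) := by positivity
  have hNe0 : 0 ≤ N ^ (-ε) := by positivity
  have hN340 : (0 : ℝ) ≤ N ^ (-(3 / 4) : ℝ) := by positivity
  have h3 := m3.2
  have h2 := m2.2
  simp_rw [← hint1] at h3
  have h4 := norm_add_le (∫ v : ℝ, Af s V (((-ε : ℝ) : ℂ) + v * Complex.I) *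
    Pz (((-ε : ℝ) : ℂ) + v * Complex.I)) (∫ v : ℝ, Af s V (((-(3 / 4) : ℝ) : ℂ) + v * Complex.I) * Tz v)
  have hK : 0 ≤ 4 * C / ε := by positivity
  have h3' : ‖∫ v : ℝ, Af s V (((-ε : ℝ) : ℂ) + v * Complex.I) *
    Pz (((-ε : ℝ) : ℂ) + v * Complex.I)‖ ≤ 4 * C / ε * N ^ (-ε) * A1 := by
    refine h3.trans (le_of_eq ?_)
    rw [hA1]
  set X0 : ℝ := ‖riemannZeta s‖ with hX0
  have hfin : 2 * Real.pi * X0 ≤ 2 * Real.pi * (‖S1 N t‖ +
      (4 * C / ε + 400) * Real.sqrt N * Real.exp (-t ^ 2) +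
      (4 * C / ε + 400) * N ^ (-ε) * A1 + (4 * C / ε + 400) * N ^ (-(3 / 4) : ℝ) * A2) := by
    have b1 : 0 ≤ N ^ (-ε) * A1 := mul_nonneg hNe0 hA10
    have b2 : 0 ≤ N ^ (-(3 / 4) : ℝ) * A2 := mul_nonneg hN340 hA20
    have b3 : 4 * C / ε * (N ^ (-ε) * A1) ≤ 2 * Real.pi * ((4 * C / ε + 400) * (N ^ (-ε) * A1)) := by
      have : 0 ≤ 4 * C / ε * (N ^ (-ε) * A1) := mul_nonneg hK b1
      (clear * - hε hε4 hpi b1 this hpi3; nlinarith)
    have b4 : 4 * C / ε * (N ^ (-(3 / 4) : ℝ) * A2) ≤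
        2 * Real.pi * ((4 * C / ε + 400) * (N ^ (-(3 / 4) : ℝ) * A2)) := by
      have : 0 ≤ 4 * C / ε * (N ^ (-(3 / 4) : ℝ) * A2) := mul_nonneg hK b2
      (clear * - hε hε4 hpi b2 this hpi3; nlinarith)
    have b5 : 2400 * (Real.sqrt N * Real.exp (-t ^ 2)) ≤
        2 * Real.pi * ((4 * C / ε + 400) * (Real.sqrt N * Real.exp (-t ^ 2))) := by
      have : 0 ≤ 4 * C / ε * (Real.sqrt N * Real.exp (-t ^ 2)) := mul_nonneg hK hE0
      (clear * - hε hε4 hpi this hpi3 hE0; nlinarith)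
    (clear * - m2 h3 h4 key b3 b4 b5; nlinarith)
  exact le_of_mul_le_mul_left hfin (by positivity)

end Pool.Agent.M17.Helper26.KC
end

/- Helper53.KN.Helper5.KC.FM3 -/
section
/-!
# Project KS, FM-3: fourth moment of Dirichlet polynomials from the mean value theorem
-/

set_option autoImplicit false
open MeasureTheory Finset

namespace Pool.Agent.M17.Helper5.KC

open Pool.Agent.M17.Helper26.KC (FMmv2 FMmv4a FMmv4b)

/-- coefficients of the square of `∑_{M < n ≤ L} a n n^(it)` -/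
noncomputable def sqC (M L : ℕ) (a : ℕ → ℂ) (n : ℕ) : ℂ :=
  ∑ p ∈ (Ioc M L ×ˢ Ioc M L).filter (fun p => p.1 * p.2 = n), a p.1 * a p.2

theorem sq_eq (M L : ℕ) (a : ℕ → ℂ) (s : ℂ) :
    (∑ n ∈ Ioc M L, a n * (n : ℂ) ^ s) ^ 2 =
      ∑ n ∈ Icc 1 (L ^ 2), sqC M L a n * (n : ℂ) ^ s := by
  have h1 : (∑ n ∈ Ioc M L, a n * (n : ℂ) ^ s) ^ 2 =
      ∑ p ∈ Ioc M L ×ˢ Ioc M L, a p.1 * a p.2 * ((p.1 * p.2 : ℕ) : ℂ) ^ s := by
    rw [sq, Finset.sum_mul_sum, Finset.sum_product]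
    refine Finset.sum_congr rfl (fun x _ => Finset.sum_congr rfl (fun y _ => ?_))
    rw [Nat.cast_mul, Complex.natCast_mul_natCast_cpow]
    ring
  rw [h1, ← Finset.sum_fiberwise_of_maps_to (g := fun p : ℕ × ℕ => p.1 * p.2)
    (t := Icc 1 (L ^ 2)) (fun p hp => ?_)]
  · refine Finset.sum_congr rfl (fun n _ => ?_)
    rw [sqC, Finset.sum_mul]
    refine Finset.sum_congr rfl (fun p hp => ?_)
    rw [(Finset.mem_filter.1 hp).2]
  · simp only [Finset.mem_product, Finset.mem_Ioc] at hp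
    rw [Finset.mem_Icc]
    constructor
    · exact Nat.one_le_iff_ne_zero.2 (Nat.mul_ne_zero (by omega) (by omega))
    · rw [sq]
      exact Nat.mul_le_mul hp.1.2 hp.2.2

theorem sqC_eq_zero {M L : ℕ} {a : ℕ → ℂ} {n : ℕ} (hn : n ≤ M ^ 2) : sqC M L a n = 0 := by
  rw [sqC, Finset.filter_false_of_mem, Finset.sum_empty]
  intro p hp h
  simp only [Finset.mem_product, Finset.mem_Ioc] at hp
  have : M ^ 2 < p.1 * p.2 := by nlinarith [hp.1.1, hp.2.1]
  omega

theorem norm_sqC_le {M L : ℕ} {a : ℕ → ℂ} {σ : ℝ} (ha : ∀ n : ℕ, 1 ≤ n → ‖a n‖ ≤ (n : ℝ) ^ (-σ))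
    {n : ℕ} (hn : 1 ≤ n) : ‖sqC M L a n‖ ≤ (n.divisors.card : ℝ) * (n : ℝ) ^ (-σ) := by
  rw [sqC]
  have h1 : ∀ p ∈ (Ioc M L ×ˢ Ioc M L).filter (fun p => p.1 * p.2 = n),
      ‖a p.1 * a p.2‖ ≤ (n : ℝ) ^ (-σ) := by
    intro p hp
    simp only [Finset.mem_filter, Finset.mem_product, Finset.mem_Ioc] at hp
    rw [norm_mul, ← hp.2, Nat.cast_mul, Real.mul_rpow (Nat.cast_nonneg _) (Nat.cast_nonneg _)]
    exact mul_le_mul (ha _ (by omega)) (ha _ (by omega)) (norm_nonneg _) (by positivity)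
  refine (norm_sum_le_of_le _ h1).trans ?_
  rw [Finset.sum_const, nsmul_eq_mul]
  refine mul_le_mul_of_nonneg_right ?_ (by positivity)
  refine Nat.cast_le.2 ?_
  have h2 : (Ioc M L ×ˢ Ioc M L).filter (fun p => p.1 * p.2 = n) ⊆ n.divisorsAntidiagonal := by
    intro p hp
    simp only [Finset.mem_filter] at hp
    rw [Nat.mem_divisorsAntidiagonal]
    exact ⟨hp.2, by omega⟩
  refine (Finset.card_le_card h2).trans (le_of_eq ?_)
  rw [← Nat.map_div_right_divisors, Finset.card_map]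

/-- the fourth moment in terms of the sum of `(T + n) n^(-2σ)` -/
theorem gen (h2 : FMmv2) (σ : ℝ) {ε : ℝ} (hε : 0 < ε) : ∃ C : ℝ, 0 < C ∧
    ∀ (M L : ℕ) (a : ℕ → ℂ) (T : ℝ), 1 ≤ T → 1 ≤ L →
    (∀ n : ℕ, 1 ≤ n → ‖a n‖ ≤ (n : ℝ) ^ (-σ)) →
    ∫ t : ℝ, Real.exp (-(t / T) ^ 2) *
        ‖∑ n ∈ Ioc M L, a n * (n : ℂ) ^ ((t : ℂ) * Complex.I)‖ ^ 4 ≤
      C * (L : ℝ) ^ ε * ∑ n ∈ Ioc (M ^ 2) (L ^ 2), (T + n) * ((n : ℝ) ^ (-σ)) ^ 2 := by
  obtain ⟨C, hC, h⟩ := h2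
  obtain ⟨D, hD, hd⟩ := Pool.Agent.M17.Helper91.KC.card_divisors_bound (ε / 4) (by positivity)
  refine ⟨C * D ^ 2, by positivity, ?_⟩
  intro M L a T hT hL ha
  have hL0 : (0 : ℝ) < L := by exact_mod_cast hL
  have h4 : ∀ t : ℝ, Real.exp (-(t / T) ^ 2) *
        ‖∑ n ∈ Ioc M L, a n * (n : ℂ) ^ ((t : ℂ) * Complex.I)‖ ^ 4 =
      Real.exp (-(t / T) ^ 2) *
        ‖∑ n ∈ Icc 1 (L ^ 2), sqC M L a n * (n : ℂ) ^ ((t : ℂ) * Complex.I)‖ ^ 2 := by
    intro t
    rw [← sq_eq, norm_pow]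
    ring
  simp_rw [h4]
  refine (h (L ^ 2) (sqC M L a) T hT).trans ?_
  rw [show C * D ^ 2 * (L : ℝ) ^ ε * ∑ n ∈ Ioc (M ^ 2) (L ^ 2), (T + n) * ((n : ℝ) ^ (-σ)) ^ 2 =
    C * ∑ n ∈ Ioc (M ^ 2) (L ^ 2), (D ^ 2 * (L : ℝ) ^ ε) * ((T + n) * ((n : ℝ) ^ (-σ)) ^ 2) by
      rw [← Finset.mul_sum]; ring]
  refine mul_le_mul_of_nonneg_left ?_ hC.le
  have hsub : Ioc (M ^ 2) (L ^ 2) ⊆ Icc 1 (L ^ 2) := by
    intro n hn
    rw [Finset.mem_Ioc] at hn
    rw [Finset.mem_Icc]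
    omega
  rw [← Finset.sum_subset hsub (fun n hn hn' => ?_)]
  · refine Finset.sum_le_sum (fun n hn => ?_)
    rw [Finset.mem_Ioc] at hn
    have hn1 : 1 ≤ n := by omega
    have hn0 : (0 : ℝ) < n := by exact_mod_cast hn1
    have hb : ‖sqC M L a n‖ ≤ D * (n : ℝ) ^ (ε / 4) * (n : ℝ) ^ (-σ) :=
      (norm_sqC_le ha hn1).trans (mul_le_mul_of_nonneg_right (hd n hn1) (by positivity))
    have hb2 : ‖sqC M L a n‖ ^ 2 ≤ (D * (n : ℝ) ^ (ε / 4) * (n : ℝ) ^ (-σ)) ^ 2 :=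
      pow_le_pow_left₀ (norm_nonneg _) hb 2
    have hp : ((n : ℝ) ^ (ε / 4)) ^ 2 ≤ (L : ℝ) ^ ε := by
      have h5 : (n : ℝ) ≤ (L : ℝ) ^ (2 : ℝ) := by
        rw [Real.rpow_two]
        exact_mod_cast hn.2
      have h6 : (n : ℝ) ^ (ε / 4) ≤ ((L : ℝ) ^ (2 : ℝ)) ^ (ε / 4) :=
        Real.rpow_le_rpow hn0.le h5 (by positivity)
      have h7 : ((n : ℝ) ^ (ε / 4)) ^ 2 ≤ (((L : ℝ) ^ (2 : ℝ)) ^ (ε / 4)) ^ 2 :=
        pow_le_pow_left₀ (by (clear * - hn1; positivity)) h6 2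
      refine h7.trans (le_of_eq ?_)
      rw [← Real.rpow_mul hL0.le, ← Real.rpow_natCast, ← Real.rpow_mul hL0.le]
      congr 1
      push_cast
      ring
    have hTn : 0 ≤ T + n := by (clear * - hT hn0; linarith)
    calc (T + n) * ‖sqC M L a n‖ ^ 2
        ≤ (T + n) * (D * (n : ℝ) ^ (ε / 4) * (n : ℝ) ^ (-σ)) ^ 2 :=
          mul_le_mul_of_nonneg_left hb2 hTn
      _ = D ^ 2 * ((n : ℝ) ^ (ε / 4)) ^ 2 * ((T + n) * ((n : ℝ) ^ (-σ)) ^ 2) := by ring
      _ ≤ D ^ 2 * (L : ℝ) ^ ε * ((T + n) * ((n : ℝ) ^ (-σ)) ^ 2) := by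
          refine mul_le_mul_of_nonneg_right ?_ (by (clear * - hT hn1; positivity))
          exact mul_le_mul_of_nonneg_left hp (by positivity)
  · rw [Finset.mem_Icc] at hn
    rw [Finset.mem_Ioc] at hn'
    rw [sqC_eq_zero (by omega), norm_zero]
    ring

theorem mv4a : FMmv2 → FMmv4a := by
  intro h2 ε hε
  obtain ⟨C, hC, h⟩ := gen h2 (1 / 2) (half_pos hε)
  refine ⟨C * (1 + 2 / (ε / 2)), by (clear * - hC hε; positivity), ?_⟩
  intro L a T hT hL ha
  have hL0 : (0 : ℝ) < L := by exact_mod_cast hL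
  have hL1 : (1 : ℝ) ≤ L := by exact_mod_cast hL
  have h3 := h 0 L a T hT hL ha
  have e1 : Ioc 0 L = Icc 1 L := by
    ext n; rw [Finset.mem_Ioc, Finset.mem_Icc]; omega
  rw [e1] at h3
  refine h3.trans ?_
  have h5 : ∑ n ∈ Ioc (0 ^ 2) (L ^ 2), (T + (n : ℝ)) * ((n : ℝ) ^ (-(1 / 2) : ℝ)) ^ 2 ≤
      (1 + 2 / (ε / 2)) * (L : ℝ) ^ (ε / 2) * (T + (L : ℝ) ^ 2) := by
    have e2 : ∀ n ∈ Ioc (0 ^ 2) (L ^ 2), (T + (n : ℝ)) * ((n : ℝ) ^ (-(1 / 2) : ℝ)) ^ 2 =
        T * (n : ℝ)⁻¹ + 1 := by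
      intro n hn
      rw [Finset.mem_Ioc] at hn
      have hn0 : (0 : ℝ) < n := by exact_mod_cast (by omega : 0 < n)
      rw [← Real.rpow_natCast, ← Real.rpow_mul hn0.le]
      rw [show (-(1 / 2) : ℝ) * ((2 : ℕ) : ℝ) = -1 by norm_num, Real.rpow_neg_one]
      (clear * - hn0 hT; field_simp)
    rw [Finset.sum_congr rfl e2, Finset.sum_add_distrib, ← Finset.mul_sum]
    have e3 : Ioc (0 ^ 2) (L ^ 2) = Icc 1 (L ^ 2) := by
      ext n; rw [Finset.mem_Ioc, Finset.mem_Icc]; omega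
    have h6 : ∑ n ∈ Icc 1 (L ^ 2), ((n : ℝ))⁻¹ ≤ 1 + Real.log ((L : ℝ) ^ 2) := by
      have := harmonic_le_one_add_log (L ^ 2)
      rw [harmonic_eq_sum_Icc] at this
      push_cast at this
      exact this
    have h7 : Real.log ((L : ℝ) ^ 2) ≤ 2 * ((L : ℝ) ^ (ε / 2) / (ε / 2)) := by
      rw [Real.log_pow]
      have := Real.log_le_rpow_div hL0.le (half_pos hε)
      push_cast
      (clear * - this; linarith)
    have h8 : (1 : ℝ) ≤ (L : ℝ) ^ (ε / 2) := Real.one_le_rpow hL1 (by positivity)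
    rw [e3, Finset.sum_const, Nat.card_Icc, nsmul_eq_mul, mul_one]
    have h9 : ((L ^ 2 + 1 - 1 : ℕ) : ℝ) = (L : ℝ) ^ 2 := by
      rw [Nat.add_sub_cancel]; push_cast; rfl
    rw [h9]
    have h10 : (1 : ℝ) + Real.log ((L : ℝ) ^ 2) ≤ (1 + 2 / (ε / 2)) * (L : ℝ) ^ (ε / 2) := by
      have : 2 * ((L : ℝ) ^ (ε / 2) / (ε / 2)) = 2 / (ε / 2) * (L : ℝ) ^ (ε / 2) := by ring
      (clear * - h7 h8 this; nlinarith)
    have h11 : (1 : ℝ) ≤ (1 + 2 / (ε / 2)) * (L : ℝ) ^ (ε / 2) := by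
      have : 0 ≤ Real.log ((L : ℝ) ^ 2) := Real.log_nonneg (one_le_pow₀ hL1)
      (clear * - h10 this; linarith)
    have h12 : 0 ≤ (L : ℝ) ^ 2 := by positivity
    (clear * - h6 h10 hT h11 h12; nlinarith [mul_le_mul_of_nonneg_left (h6.trans h10) (by linarith : (0 : ℝ) ≤ T),
      mul_le_mul_of_nonneg_right h11 h12])
  have h13 : (L : ℝ) ^ (ε / 2) * (L : ℝ) ^ (ε / 2) ≤ (T * L) ^ ε := by
    rw [← Real.rpow_add hL0, add_halves]
    exact Real.rpow_le_rpow hL0.le (by (clear * - hT; nlinarith)) hε.le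
  have h14 : 0 ≤ T + (L : ℝ) ^ 2 := by positivity
  calc C * (L : ℝ) ^ (ε / 2) * ∑ n ∈ Ioc (0 ^ 2) (L ^ 2), (T + (n : ℝ)) * ((n : ℝ) ^ (-(1 / 2) : ℝ)) ^ 2
      ≤ C * (L : ℝ) ^ (ε / 2) * ((1 + 2 / (ε / 2)) * (L : ℝ) ^ (ε / 2) * (T + (L : ℝ) ^ 2)) :=
        mul_le_mul_of_nonneg_left h5 (by positivity)
    _ = C * (1 + 2 / (ε / 2)) * ((L : ℝ) ^ (ε / 2) * (L : ℝ) ^ (ε / 2)) * (T + (L : ℝ) ^ 2) := by ring
    _ ≤ C * (1 + 2 / (ε / 2)) * (T * L) ^ ε * (T + (L : ℝ) ^ 2) := by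
        refine mul_le_mul_of_nonneg_right ?_ h14
        exact mul_le_mul_of_nonneg_left h13 (by positivity)

theorem tele_step {x y : ℝ} (hx : 0 < x) (hy : 0 < y) (h : y ^ 2 = x ^ 2 + 1) :
    1 / (y ^ 2 * y) ≤ 2 * (1 / x - 1 / y) := by
  have hxy : x ≤ y := by nlinarith
  have h1 : 2 * (1 / x - 1 / y) = 2 / (x * y * (x + y)) := by
    have : (y - x) * (x + y) = 1 := by (clear * - h; nlinarith)
    have h2 : x + y ≠ 0 := by positivity
    field_simp
    linear_combination this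
  rw [h1, div_le_div_iff₀ (by positivity) (by positivity)]
  (clear * - hx hy hxy; nlinarith [mul_pos hx hy, mul_nonneg (mul_pos hx hy).le (sub_nonneg.2 hxy), mul_nonneg hy.le (sub_nonneg.2 hxy),
    mul_nonneg (mul_pos hy hy).le (sub_nonneg.2 hxy)])

theorem rpow_three_half {n : ℕ} (hn : 0 < n) :
    (n : ℝ) ^ (-(3 / 2) : ℝ) = 1 / (Real.sqrt n ^ 2 * Real.sqrt n) := by
  have hn0 : (0 : ℝ) < n := by exact_mod_cast hn
  rw [Real.rpow_neg hn0.le, one_div]
  congr 1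
  rw [show (3 / 2 : ℝ) = 1 + 1 / 2 by norm_num, Real.rpow_add hn0, Real.rpow_one, Real.sq_sqrt hn0.le,
    Real.sqrt_eq_rpow]

theorem tele {a b : ℕ} (ha : 1 ≤ a) (hab : a ≤ b) :
    ∑ n ∈ Ioc a b, (n : ℝ) ^ (-(3 / 2) : ℝ) ≤ 2 * (1 / Real.sqrt a - 1 / Real.sqrt b) := by
  induction b, hab using Nat.le_induction with
  | base => simp
  | succ b hb ih =>
    rw [Finset.sum_Ioc_succ_top hb, rpow_three_half (Nat.succ_pos b)]
    have hb0 : (0 : ℝ) < b := by exact_mod_cast (by omega : 0 < b)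
    have h1 := tele_step (Real.sqrt_pos.2 hb0) (Real.sqrt_pos.2 (by (clear * -; positivity) : (0 : ℝ) < ((b + 1 : ℕ) : ℝ)))
      (by rw [Real.sq_sqrt (by positivity), Real.sq_sqrt hb0.le]; push_cast; ring)
    (clear * - ih h1; linarith)

theorem mv4b : FMmv2 → FMmv4b := by
  intro h2 ε hε
  obtain ⟨C, hC, h⟩ := gen h2 (5 / 4) hε
  refine ⟨C * 2, by positivity, ?_⟩
  intro M L a T hT hM hML ha
  have hL : 1 ≤ L := hM.trans hML
  have hL0 : (0 : ℝ) < L := by exact_mod_cast hL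
  have hM0 : (0 : ℝ) < M := by exact_mod_cast hM
  refine (h M L a T hT hL ha).trans ?_
  have hT0 : 0 ≤ T := by (clear * - hT; linarith)
  have h5 : ∑ n ∈ Ioc (M ^ 2) (L ^ 2), (T + (n : ℝ)) * ((n : ℝ) ^ (-(5 / 4) : ℝ)) ^ 2 ≤
      2 * (T / (M : ℝ) ^ 3 + 1 / (M : ℝ)) := by
    have e2 : ∀ n ∈ Ioc (M ^ 2) (L ^ 2), (T + (n : ℝ)) * ((n : ℝ) ^ (-(5 / 4) : ℝ)) ^ 2 ≤
        (T / (M : ℝ) ^ 2 + 1) * (n : ℝ) ^ (-(3 / 2) : ℝ) := by
      intro n hn
      rw [Finset.mem_Ioc] at hn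
      have hn0 : (0 : ℝ) < n := by exact_mod_cast (by omega : 0 < n)
      have hMn : (M : ℝ) ^ 2 ≤ n := by exact_mod_cast hn.1.le
      rw [← Real.rpow_natCast, ← Real.rpow_mul hn0.le]
      rw [show (-(5 / 4) : ℝ) * ((2 : ℕ) : ℝ) = -(3 / 2) + -1 by norm_num, Real.rpow_add hn0, Real.rpow_neg_one]
      rw [show (T + (n : ℝ)) * ((n : ℝ) ^ (-(3 / 2) : ℝ) * (n : ℝ)⁻¹) =
        (T / n + 1) * (n : ℝ) ^ (-(3 / 2) : ℝ) by (clear * - hn0 hT; field_simp)]
      refine mul_le_mul_of_nonneg_right ?_ (by positivity)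
      have := div_le_div_of_nonneg_left hT0 (by positivity : (0 : ℝ) < (M : ℝ) ^ 2) hMn
      (clear * - this; linarith)
    refine (Finset.sum_le_sum e2).trans ?_
    rw [← Finset.mul_sum]
    have h6 := tele (Nat.one_le_pow 2 M hM) (Nat.pow_le_pow_left hML 2)
    have h7 : Real.sqrt ((M ^ 2 : ℕ) : ℝ) = M := by
      push_cast
      exact Real.sqrt_sq hM0.le
    rw [h7] at h6
    have h8 : 0 ≤ 1 / Real.sqrt ((L ^ 2 : ℕ) : ℝ) := by positivity
    have h9 : ∑ n ∈ Ioc (M ^ 2) (L ^ 2), (n : ℝ) ^ (-(3 / 2) : ℝ) ≤ 2 * (1 / M) := by linarith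
    refine (mul_le_mul_of_nonneg_left h9 (by positivity)).trans (le_of_eq ?_)
    field_simp
  have h13 : (L : ℝ) ^ ε ≤ (T * L) ^ ε := Real.rpow_le_rpow hL0.le (by (clear * - hT; nlinarith)) hε.le
  have h14 : 0 ≤ T / (M : ℝ) ^ 3 + 1 / (M : ℝ) := by positivity
  calc C * (L : ℝ) ^ ε * ∑ n ∈ Ioc (M ^ 2) (L ^ 2), (T + (n : ℝ)) * ((n : ℝ) ^ (-(5 / 4) : ℝ)) ^ 2
      ≤ C * (L : ℝ) ^ ε * (2 * (T / (M : ℝ) ^ 3 + 1 / (M : ℝ))) :=
        mul_le_mul_of_nonneg_left h5 (by positivity)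
    _ = C * 2 * (L : ℝ) ^ ε * (T / (M : ℝ) ^ 3 + 1 / (M : ℝ)) := by ring
    _ ≤ C * 2 * (T * L) ^ ε * (T / (M : ℝ) ^ 3 + 1 / (M : ℝ)) := by
        refine mul_le_mul_of_nonneg_right ?_ h14
        exact mul_le_mul_of_nonneg_left h13 (by positivity)

end Pool.Agent.M17.Helper5.KC
end

/- Helper53.KN.Helper73.KC.FM1 -/
section
set_option autoImplicit false

/-!
# FM-1 (project KS): `|Γ(s) cos(πs/2)| ≤ C (1+|t|)^(σ-1/2)` for `1/2 ≤ σ ≤ 3/2`
-/

open Complex Filter Topology Set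
open scoped ComplexConjugate

namespace Pool.Agent.M17.Helper73.KC

open Pool.Agent.M17.Helper1.KSZ (FF norm_FF_half norm_Gamma_le norm_cos_le)

/-- the line `3/2` -/
theorem norm_FF_three_half (y : ℝ) :
    ‖FF (3 / 2 + y * I)‖ = ‖(1 / 2 + y * I : ℂ)‖ * ‖FF (1 / 2 + y * I)‖ := by
  unfold FF
  have h0 : (1 / 2 + y * I : ℂ) ≠ 0 := by
    intro h
    have := congrArg Complex.re h
    simp at this
  have e1 : (3 / 2 + y * I : ℂ) = (1 / 2 + y * I) + 1 := by ring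
  have e2 : Complex.cos (Real.pi * (3 / 2 + y * I) / 2) = -Complex.sin (Real.pi * (1 / 2 + y * I) / 2) := by
    rw [← Complex.cos_add_pi_div_two]
    congr 1
    ring
  have e3 : Complex.sin (Real.pi * (1 / 2 + y * I) / 2) =
      conj (Complex.cos (Real.pi * (1 / 2 + y * I) / 2)) := by
    rw [← Complex.cos_conj, ← Complex.cos_pi_div_two_sub]
    congr 1
    rw [map_div₀, map_mul, map_add, map_mul, Complex.conj_ofReal, Complex.conj_ofReal, Complex.conj_I,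
      map_div₀, map_one, Complex.conj_ofNat]
    ring
  have e4 : Complex.Gamma (3 / 2 + y * I) = (1 / 2 + y * I) * Complex.Gamma (1 / 2 + y * I) := by
    rw [e1, Complex.Gamma_add_one _ h0]
  rw [e2, e3, e4, norm_mul, norm_mul, norm_neg, Complex.norm_conj, norm_mul, mul_assoc]

theorem norm_FF_half' (y : ℝ) : ‖FF (1 / 2 + y * I)‖ = Real.sqrt (Real.pi / 2) := by
  rw [← norm_FF_half y, Real.sqrt_sq (norm_nonneg _)]

/-- FM-1 -/
theorem ffBound : Pool.Agent.M17.Helper26.KC.FMff := by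
  obtain ⟨G0, hG0⟩ : ∃ G0 : ℝ, ∀ x ∈ Icc (1 / 2 : ℝ) (3 / 2), Real.Gamma x ≤ G0 := by
    have hcont : ContinuousOn Real.Gamma (Icc (1 / 2 : ℝ) (3 / 2)) := by
      intro x hx
      apply ContinuousAt.continuousWithinAt
      apply DifferentiableAt.continuousAt (𝕜 := ℝ)
      apply Real.differentiableAt_Gamma
      intro m hm
      have h1 : (0 : ℝ) < x := by (clear * - hm hx; linarith [hx.1])
      have h2 : (0 : ℝ) ≤ m := Nat.cast_nonneg m
      linarith
    obtain ⟨G0, hG0⟩ := (isCompact_Icc.image_of_continuousOn hcont).bddAbove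
    exact ⟨G0, fun x hx => hG0 ⟨x, hx, rfl⟩⟩
  have hG0nn : 0 ≤ G0 := (Real.Gamma_pos_of_pos (by norm_num : (0 : ℝ) < 1)).le.trans
    (hG0 1 ⟨by norm_num, by norm_num⟩)
  set K : ℝ := Real.sqrt (Real.pi / 2) with hK
  have hK0 : 0 < K := Real.sqrt_pos.2 (by positivity)
  refine ⟨5 * K, by positivity, fun σ t hσ1 hσ2 => ?_⟩
  set T : ℝ := 1 + |t| with hTdef
  have hT : 1 ≤ T := by have := abs_nonneg t; (clear * - this; linarith)
  have hT0 : 0 < T := by linarith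
  set G : ℂ → ℂ := fun s => FF s * (T : ℂ) ^ (-(s - 1 / 2)) / (s - t * I + 1) with hG
  have hden : ∀ s : ℂ, 1 / 2 ≤ s.re → 3 / 2 ≤ ‖s - t * I + 1‖ := by
    intro s hs
    have h1 := Complex.abs_re_le_norm (s - t * I + 1)
    have h2 : (s - t * I + 1).re = s.re + 1 := by simp
    rw [h2, abs_of_nonneg (by (clear * - hs; linarith))] at h1
    (clear * - hs h1; linarith)
  have hTn : ∀ s : ℂ, ‖(T : ℂ) ^ (-(s - 1 / 2))‖ = T ^ (-(s.re - 1 / 2)) := by
    intro s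
    rw [Complex.norm_cpow_eq_rpow_re_of_pos hT0]
    congr 1
    simp
  have hFdiff : ∀ s : ℂ, 0 < s.re → DifferentiableAt ℂ FF s := by
    intro s hs
    unfold FF
    refine DifferentiableAt.mul (Complex.differentiableAt_Gamma s (fun m hm => ?_)) ?_
    · have := congrArg Complex.re hm
      simp at this
      have h2 : (0 : ℝ) ≤ m := Nat.cast_nonneg m
      (clear * - hs this; linarith)
    · fun_prop
  have hGdiff : ∀ s : ℂ, 1 / 2 ≤ s.re → DifferentiableAt ℂ G s := by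
    intro s hs
    rw [hG]
    refine DifferentiableAt.div (DifferentiableAt.mul (hFdiff s (by (clear * - hs; linarith))) ?_) (by fun_prop) ?_
    · refine DifferentiableAt.const_cpow (by fun_prop) (Or.inl ?_)
      exact_mod_cast hT0.ne'
    · have := hden s hs
      intro h0
      rw [h0, norm_zero] at this
      (clear * - this; linarith)
  have key : ∀ s : ℂ, 1 / 2 ≤ s.re → s.re ≤ 3 / 2 → ‖G s‖ ≤ 2 * K := by
    intro s hs1 hs2
    refine PhragmenLindelof.vertical_strip (a := 1 / 2) (b := 3 / 2) (f := G) (C := 2 * K)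
      ?_ ?_ ?_ ?_ hs1 hs2
    · refine ⟨fun z hz => (hGdiff z hz.1.le).differentiableWithinAt, ?_⟩
      have hcl : closure (Complex.re ⁻¹' Ioo (1 / 2 : ℝ) (3 / 2)) ⊆ {z : ℂ | 1 / 2 ≤ z.re} := by
        apply closure_minimal (fun z hz => hz.1.le)
        exact isClosed_le continuous_const Complex.continuous_re
      exact fun z hz => (hGdiff z (hcl hz)).continuousAt.continuousWithinAt
    · refine ⟨1, ?_, Real.pi / 2, ?_⟩
      · rw [lt_div_iff₀ (by norm_num)]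
        (clear * -; linarith [Real.pi_gt_three])
      · refine Asymptotics.IsBigO.of_bound G0 ?_
        refine Filter.mem_inf_of_right ?_
        rw [Filter.mem_principal]
        intro z hz
        have hz1 : 1 / 2 < z.re := hz.1
        have hz2 : z.re < 3 / 2 := hz.2
        show ‖G z‖ ≤ G0 * ‖Real.exp (Real.pi / 2 * Real.exp (1 * |z.im|))‖
        rw [Real.norm_of_nonneg (Real.exp_pos _).le, one_mul]
        have h1 : ‖FF z‖ ≤ G0 * Real.exp (Real.pi / 2 * Real.exp |z.im|) := by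
          unfold FF
          rw [norm_mul]
          have h2 : ‖Complex.Gamma z‖ ≤ G0 :=
            (norm_Gamma_le (by (clear * - hz1; linarith))).trans (hG0 _ ⟨hz1.le, hz2.le⟩)
          have h3 := norm_cos_le (Real.pi * z / 2)
          have h4 : ((Real.pi : ℂ) * z / 2).im = Real.pi / 2 * z.im := by
            rw [show (Real.pi : ℂ) * z / 2 = ((Real.pi / 2 : ℝ) : ℂ) * z by push_cast; ring]
            exact Complex.im_ofReal_mul _ _
          rw [h4, abs_mul, abs_of_nonneg (by positivity : 0 ≤ Real.pi / 2)] at h3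
          have h5 : Real.exp (Real.pi / 2 * |z.im|) ≤ Real.exp (Real.pi / 2 * Real.exp |z.im|) := by
            apply Real.exp_le_exp.2
            have := Real.add_one_le_exp |z.im|
            apply mul_le_mul_of_nonneg_left _ (by positivity)
            (clear * - this; linarith)
          calc _ ≤ G0 * Real.exp (Real.pi / 2 * |z.im|) := by (clear * - h2 h3 hG0nn; gcongr)
            _ ≤ _ := by gcongr
        have h6 : T ^ (-(z.re - 1 / 2)) ≤ 1 :=
          Real.rpow_le_one_of_one_le_of_nonpos hT (by (clear * - hz1; linarith))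
        have h7 := hden z hz1.le
        rw [hG]
        show ‖FF z * (T : ℂ) ^ (-(z - 1 / 2)) / (z - t * I + 1)‖ ≤ _
        rw [norm_div, norm_mul, hTn, div_le_iff₀ (by (clear * - h7; linarith))]
        have h8 : 0 ≤ G0 * Real.exp (Real.pi / 2 * Real.exp |z.im|) := by positivity
        calc ‖FF z‖ * T ^ (-(z.re - 1 / 2)) ≤ (G0 * Real.exp (Real.pi / 2 * Real.exp |z.im|)) * 1 := by
              (clear * - h1 h6 hG0nn; gcongr)
          _ ≤ _ := by
              apply mul_le_mul_of_nonneg_left _ h8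
              (clear * - h7; linarith)
    · intro z hz
      have hz' : z = 1 / 2 + (z.im : ℂ) * I := by
        apply Complex.ext
        · simp [hz]
        · simp
      have h1 : ‖FF z‖ = K := by
        have := norm_FF_half' z.im
        rwa [← hz'] at this
      have h7 := hden z (by rw [hz])
      rw [hG]
      show ‖FF z * (T : ℂ) ^ (-(z - 1 / 2)) / (z - t * I + 1)‖ ≤ _
      rw [norm_div, norm_mul, hTn, div_le_iff₀ (by (clear * - h7; linarith)), h1, hz, sub_self, neg_zero,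
        Real.rpow_zero]
      (clear * - hK0 h7; nlinarith)
    · intro z hz
      have hz' : z = 3 / 2 + (z.im : ℂ) * I := by
        apply Complex.ext
        · simp [hz]
        · simp
      have h1 : ‖FF z‖ ≤ (1 + |z.im|) * K := by
        have := norm_FF_three_half z.im
        rw [← hz', norm_FF_half'] at this
        rw [this]
        apply mul_le_mul_of_nonneg_right _ hK0.le
        refine (norm_add_le _ _).trans ?_
        have e1 : ‖(1 / 2 : ℂ)‖ = 1 / 2 := by norm_num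
        rw [e1, norm_mul, Complex.norm_I, mul_one, Complex.norm_real, Real.norm_eq_abs]
        (clear * -; linarith)
      rw [hG]
      show ‖FF z * (T : ℂ) ^ (-(z - 1 / 2)) / (z - t * I + 1)‖ ≤ _
      have h7 := hden z (by rw [hz]; norm_num)
      rw [norm_div, norm_mul, hTn, div_le_iff₀ (by (clear * - h7; linarith)), hz]
      have h3 : T ^ (-((3 / 2 : ℝ) - 1 / 2)) = T⁻¹ := by
        rw [show -((3 / 2 : ℝ) - 1 / 2) = -1 by norm_num, Real.rpow_neg_one]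
      rw [h3]
      have h4 : 1 + |z.im| ≤ T * (1 + |z.im - t|) := by
        have h5 : |z.im| ≤ |z.im - t| + |t| := by
          have := abs_add_le (z.im - t) t
          rwa [sub_add_cancel] at this
        have h6 := mul_nonneg (abs_nonneg t) (abs_nonneg (z.im - t))
        rw [hTdef]
        (clear * - h5 h6; nlinarith)
      have h8 : |z.im - t| ≤ ‖z - t * I + 1‖ := by
        have h1 := Complex.abs_im_le_norm (z - t * I + 1)
        have e2 : (z - t * I + 1).im = z.im - t := by simp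
        rwa [e2] at h1
      have h9 : (1 + |z.im|) * T⁻¹ ≤ 1 + |z.im - t| := by
        rw [← div_eq_mul_inv, div_le_iff₀ hT0, mul_comm]
        exact h4
      have hTi : 0 ≤ T⁻¹ := inv_nonneg.2 hT0.le
      calc ‖FF z‖ * T⁻¹ ≤ ((1 + |z.im|) * K) * T⁻¹ := mul_le_mul_of_nonneg_right h1 hTi
        _ = K * ((1 + |z.im|) * T⁻¹) := by ring
        _ ≤ K * (1 + |z.im - t|) := mul_le_mul_of_nonneg_left h9 hK0.le
        _ ≤ K * (2 * ‖z - t * I + 1‖) := by
            apply mul_le_mul_of_nonneg_left _ hK0.le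
            (clear * - h7 h8; linarith)
        _ = _ := by ring
  have hfin := key ((σ : ℂ) + t * I) (by simpa using hσ1) (by simpa using hσ2)
  rw [hG] at hfin
  simp only at hfin
  have hre : ((σ : ℂ) + t * I).re = σ := by simp
  have hd1 : (σ : ℂ) + t * I - t * I + 1 = ((σ + 1 : ℝ) : ℂ) := by push_cast; ring
  rw [norm_div, norm_mul, hTn, hre, hd1, Complex.norm_real, Real.norm_of_nonneg (by (clear * - hσ1; linarith)),
    div_le_iff₀ (by (clear * - hσ1; linarith))] at hfin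
  have hp : T ^ (-(σ - 1 / 2)) = (T ^ (σ - 1 / 2))⁻¹ := Real.rpow_neg hT0.le _
  rw [hp] at hfin
  have hpos : 0 < T ^ (σ - 1 / 2) := Real.rpow_pos_of_pos hT0 _
  have h9 : ‖FF ((σ : ℂ) + t * I)‖ =
      ‖FF ((σ : ℂ) + t * I)‖ * (T ^ (σ - 1 / 2))⁻¹ * T ^ (σ - 1 / 2) := by
    (clear * - hT; field_simp)
  rw [h9]
  calc _ ≤ (2 * K * (σ + 1)) * T ^ (σ - 1 / 2) := mul_le_mul_of_nonneg_right hfin hpos.le
    _ ≤ (5 * K) * T ^ (σ - 1 / 2) := by
        apply mul_le_mul_of_nonneg_right _ hpos.le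
        (clear * - hK0 hσ2; nlinarith)

end Pool.Agent.M17.Helper73.KC
end

/- Helper53.KN.Helper52.KC.FMall -/
section
/-!
# Project KS: the fourth moment of zeta on the critical line, unconditional
-/

namespace Pool.Agent.M17.Helper52.KC

theorem fourth_moment : Pool.Agent.M17.Helper26.KC.FourthMoment :=
  fourthMoment (Pool.Agent.M17.Helper5.KC.mv4a Pool.Agent.M17.Helper65.KC.mv2)
    (Pool.Agent.M17.Helper5.KC.mv4b Pool.Agent.M17.Helper65.KC.mv2)
    (Pool.Agent.M17.Helper26.KC.afe Pool.Agent.M17.Helper73.KC.ffBound)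

end Pool.Agent.M17.Helper52.KC
end
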