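import Mathlib
import Pool.Agent.Helper53.KM.G02
import Pool.Agent.Helper53.KM.G06
import Pool.Agent.Helper53.KM.G07
import Pool.Agent.Helper53.KM.G08
import Pool.Agent.Helper53.KM.G09
import Pool.Agent.Helper53.KM.G10
import Pool.Agent.Helper53.KM.G11
import Pool.Agent.Helper53.KM.G13
import Pool.Agent.Helper53.KM.G20
import Pool.Agent.Helper53.KM.G21
import Pool.Agent.Helper53.KM.G25

/- Helper53.KN.Helper1.KL.BoxEx -/
section
/-! Box, existence: Helper33/KSZ/BoxEx.lean adapted to the line 0.575 (box 57/100) by helper1 -/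

set_option autoImplicit false
open Filter Topology Complex Metric

namespace Pool.Agent.M17.Helper1.KL

open Pool.Agent.M17.Helper33.KSZ
open Pool.Agent.M17.Helper10.QRH Pool.Agent.M17.Helper69.QRH

theorem boxExists : BoxExists := by
  intro T hT
  set U : Set ℂ := {z : ℂ | 57/100 < z.re ∧ |z.im| < T + 2} with hU
  have hUo : IsOpen U := by
    refine IsOpen.inter (isOpen_lt continuous_const Complex.continuous_re) ?_
    exact isOpen_lt (continuous_abs.comp Complex.continuous_im) continuous_const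
  have hUc : IsPreconnected U := by
    have h1 : U = {z : ℂ | 57/100 < z.re} ∩ ({z : ℂ | z.im < T + 2} ∩ {z : ℂ | -(T + 2) < z.im}) := by
      ext z
      simp only [hU, Set.mem_ofPred_eq, Set.mem_inter_iff, abs_lt]
      tauto
    rw [h1]
    exact ((convex_halfSpace_re_gt _).inter
      ((convex_halfSpace_im_lt _).inter (convex_halfSpace_im_gt _))).isPreconnected
  have hzero : ∀ z : ℂ, EZ z = 0 → riemannZeta z = 0 ∧ z.re < 1 := by
    intro z hz
    have h1 : z ≠ 1 := by
      rintro rfl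
      rw [EZ_one] at hz
      exact one_ne_zero hz
    rw [EZ_eq h1] at hz
    have h2 := (mul_eq_zero.1 hz).resolve_left (sub_ne_zero.2 h1)
    refine ⟨h2, ?_⟩
    by_contra h3
    exact riemannZeta_ne_zero_of_one_le_re (not_lt.1 h3) h2
  have hfin : {z : ℂ | z ∈ U ∧ EZ z = 0}.Finite := by
    have h1 := zeros_finite (s₀ := 0) (R := T + 10) (r := T + 4) (by linarith) (F := EZ)
      EZ_differentiable.differentiableOn
      ⟨1, by rw [mem_ball_zero_iff, norm_one]; linarith, by rw [EZ_one]; exact one_ne_zero⟩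
    refine h1.subset fun z hz => ⟨?_, hz.2⟩
    rw [mem_closedBall_zero_iff]
    have h2 := (hzero z hz.2).2
    have h3 : 57 / 100 < z.re := hz.1.1
    have h4 : |z.im| < T + 2 := hz.1.2
    refine (Complex.norm_le_abs_re_add_abs_im z).trans ?_
    rw [abs_of_pos (by linarith : 0 < z.re)]
    linarith
  obtain ⟨M, Z, hZ, hZ0, hM, hfac⟩ := factorFinite EZ EZ_differentiable U hUo hUc
    ⟨1, ⟨by norm_num, by simp only [Complex.one_im, abs_zero]; linarith⟩,
      by rw [EZ_one]; exact one_ne_zero⟩ hfin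
  refine ⟨M, Z, hZ, hfac, ?_, fun z h1 h2 => hZ0 z ⟨h1, h2⟩, ?_⟩
  · intro ρ hρ
    obtain ⟨h1, h2⟩ := hM ρ hρ
    obtain ⟨h3, h4⟩ := hzero ρ h2
    exact ⟨h3, h1.1, h4, h1.2⟩
  · intro ρ hρ h1 h2
    have h3 : ρ ≠ 1 := by
      rintro rfl
      exact riemannZeta_one_ne_zero hρ
    rw [← orderNat_EZ h3]
    have h4 := count_eq_order hZ hfac (hZ0 ρ ⟨h1, h2⟩)
    convert h4

end Pool.Agent.M17.Helper1.KL
end

/- Helper53.KN.Helper1.KL.Shift -/
section
/-! Helper8/KSZ/Shift.lean adapted to the line 0.575 (box 57/100) by helper1 -/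

set_option autoImplicit false
open Filter Topology MeasureTheory

namespace Pool.Agent.M17.Helper1.KL

open Pool.Agent.M17.Helper8.KSZ (tail_Ioi tail_Iic tail_bound line_re line_im)
open Pool.Agent.M17.Helper10.QRH Pool.Agent.M17.Helper69.QRH 

theorem shift (hK : KFacts) (hG : GBound) (h6 : LineTwo) : Shift := by
  obtain ⟨CK0, hCK0⟩ := hK.bound
  obtain ⟨CG, hCG0, hCG⟩ := hG
  set CK : ℝ := |CK0| + 1 with hCKd
  have hCK1 : 0 < CK := by positivity
  refine ⟨CK * CG + 1, by positivity, ?_⟩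
  intro T M Z hT hB lam u hl hl1 hu
  obtain ⟨hG1, hG2⟩ := hCG T M Z hT hB
  obtain ⟨hi, he⟩ := h6 T M Z hT hB lam u hl hl1 hu
  have hT0 : 0 < T := by linarith
  set L : ℝ := Real.log (T + 2) with hL
  have hL0 : 0 ≤ L := Real.log_nonneg (by (clear * - hT; linarith))
  set J : ℂ → ℂ := fun s => KK lam s * (-logDeriv Z s) * Complex.exp (s * u) with hJ
  have hZd : ∀ s : ℂ, 57/100 < s.re → |s.im| < T + 2 → DifferentiableAt ℂ (logDeriv Z) s := by
    intro s hs1 hs2
    have h1 : DifferentiableAt ℂ (deriv Z) s :=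
      (hB.diff.deriv s)
    exact h1.div (hB.diff s) (hB.ne s hs1 hs2)
  have hJd : ∀ s : ℂ, 57/100 < s.re → |s.im| < T + 2 → DifferentiableAt ℂ J s := by
    intro s hs1 hs2
    refine ((hK.diff lam hl s).mul (hZd s hs1 hs2).neg).mul ?_
    fun_prop
  -- bound
  set B : ℝ := CK * CG * Real.exp (2 * u) * L ^ 2 / lam ^ 2 with hBd
  have hB0 : 0 ≤ B := by (clear * - hCG0 hl; positivity)
  have hJb : ∀ s : ℂ, 0.575 ≤ s.re → s.re ≤ 2 → s.im ≠ 0 → ‖logDeriv Z s‖ ≤ CG * L ^ 2 →
      ‖J s‖ ≤ B / s.im ^ 2 := by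
    intro s hs1 hs2 hs3 hs4
    have b1 := hCK0 lam hl hl1 s (by (clear * - hs1; linarith)) hs2
    have hp : (0 : ℝ) < (lam * s.im) ^ 2 := by (clear * - hl hs3; positivity)
    have b1' : ‖KK lam s‖ ≤ CK / (lam * s.im) ^ 2 := by
      refine b1.trans ?_
      refine (div_le_div_of_nonneg_right ((le_abs_self CK0).trans (by linarith : |CK0| ≤ CK))
        (by positivity)).trans ?_
      exact div_le_div_of_nonneg_left hCK1.le hp (by linarith)
    have b3 : ‖Complex.exp (s * u)‖ ≤ Real.exp (2 * u) := by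
      rw [Complex.norm_exp]
      apply Real.exp_le_exp.2
      simp only [Complex.mul_re, Complex.ofReal_re, Complex.ofReal_im, mul_zero, sub_zero]
      (clear * - hs2 hu; nlinarith)
    calc ‖J s‖ = ‖KK lam s‖ * ‖logDeriv Z s‖ * ‖Complex.exp (s * u)‖ := by
          simp only [hJ, norm_mul, norm_neg]
      _ ≤ (CK / (lam * s.im) ^ 2) * (CG * L ^ 2) * Real.exp (2 * u) := by (clear * - b1' hs4 hl hs3 b3 hCG0; gcongr)
      _ = B / s.im ^ 2 := by
          rw [hBd]
          field_simp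
  -- tail
  have htail := tail_bound hi hT0 (C := B) (by
    intro t ht
    have ht0 : t ≠ 0 := by
      rintro rfl
      rw [abs_zero] at ht
      linarith
    have := hJb ((2 : ℝ) + t * Complex.I) (by rw [line_re]; norm_num) (by rw [line_re])
      (by rwa [line_im]) (by
        have := hG2 t
        push_cast
        exact this)
    rwa [line_im] at this)
  -- rectangle
  have hrect : (∫ x : ℝ in (0.575 : ℝ)..2, J (x + ((-T : ℝ) : ℂ) * Complex.I)) -
        (∫ x : ℝ in (0.575 : ℝ)..2, J (x + (T : ℂ) * Complex.I)) +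
        Complex.I * (∫ y : ℝ in (-T)..T, J ((2 : ℝ) + y * Complex.I)) -
        Complex.I * (∫ y : ℝ in (-T)..T, J ((0.575 : ℝ) + y * Complex.I)) = 0 := by
    have := Complex.integral_boundary_rect_eq_zero_of_differentiableOn J
        ((0.575 : ℝ) + ((-T : ℝ) : ℂ) * Complex.I) ((2 : ℝ) + (T : ℂ) * Complex.I) (by
      intro s hs
      rw [Complex.mem_reProdIm] at hs
      simp only [line_re, line_im] at hs
      obtain ⟨h2, h3⟩ := hs
      rw [Set.uIcc_of_le (by norm_num)] at h2
      rw [Set.uIcc_of_le (by (clear * - hT; linarith))] at h3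
      apply (hJd s (by (clear * - h2; linarith [h2.1, show (57 / 100 : ℝ) < 0.575 by norm_num])) ?_).differentiableWithinAt
      rw [abs_lt]
      constructor <;> linarith [h3.1, h3.2])
    simpa only [line_re, line_im, smul_eq_mul] using this
  have hhor : ∀ τ : ℝ, |τ| = T → ‖∫ x : ℝ in (0.575 : ℝ)..2, J (x + (τ : ℂ) * Complex.I)‖ ≤
      2 * (B / T) := by
    intro τ hτ
    have hτ0 : τ ≠ 0 := by
      rintro rfl
      rw [abs_zero] at hτ
      (clear * - hT hτ; linarith)
    have h1 := intervalIntegral.norm_integral_le_of_norm_le_const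
      (a := (0.575 : ℝ)) (b := 2) (C := B / T ^ 2)
      (f := fun x : ℝ => J (x + (τ : ℂ) * Complex.I)) (by
        intro x hx
        rw [Set.uIoc_of_le (by norm_num)] at hx
        have := hJb (x + (τ : ℂ) * Complex.I) (by rw [line_re]; exact hx.1.le)
          (by rw [line_re]; exact hx.2) (by rwa [line_im]) (hG1 _ (by rw [line_re]; exact hx.1.le)
          (by rw [line_re]; exact hx.2) (by rw [line_im, hτ]))
        rw [line_im, ← sq_abs, hτ] at this
        exact this)
    refine h1.trans ?_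
    have h2 : |(2 : ℝ) - 0.575| ≤ 2 := by norm_num
    have h3 : B / T ^ 2 ≤ B / T := by
      apply div_le_div_of_nonneg_left hB0 hT0
      (clear * - hT; nlinarith)
    calc B / T ^ 2 * |(2 : ℝ) - 0.575| ≤ (B / T) * 2 := by
          apply mul_le_mul h3 h2 (abs_nonneg _) (by (clear * - hCG0 hl hT; positivity))
      _ = 2 * (B / T) := by ring
  have h1 := hhor (-T) (by rw [abs_neg, abs_of_pos hT0])
  have h2 := hhor T (abs_of_pos hT0)
  -- difference of the vertical sides
  have hver : ‖(∫ y : ℝ in (-T)..T, J ((2 : ℝ) + y * Complex.I)) -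
      (∫ y : ℝ in (-T)..T, J ((0.575 : ℝ) + y * Complex.I))‖ ≤ 4 * (B / T) := by
    have h3 : Complex.I * ((∫ y : ℝ in (-T)..T, J ((2 : ℝ) + y * Complex.I)) -
      (∫ y : ℝ in (-T)..T, J ((0.575 : ℝ) + y * Complex.I))) =
      (∫ x : ℝ in (0.575 : ℝ)..2, J (x + (T : ℂ) * Complex.I)) -
      (∫ x : ℝ in (0.575 : ℝ)..2, J (x + ((-T : ℝ) : ℂ) * Complex.I)) := by
      linear_combination hrect
    have h4 : ‖Complex.I * ((∫ y : ℝ in (-T)..T, J ((2 : ℝ) + y * Complex.I)) -
      (∫ y : ℝ in (-T)..T, J ((0.575 : ℝ) + y * Complex.I)))‖ ≤ 4 * (B / T) := by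
      rw [h3]
      refine (norm_sub_le _ _).trans ?_
      (clear * - h1 h2; linarith)
    rwa [norm_mul, Complex.norm_I, one_mul] at h4
  have hline : line 1 lam T Z u = (1 / (2 * Real.pi)) *
      ∫ y : ℝ in (-T)..T, J ((0.575 : ℝ) + y * Complex.I) := by
    unfold line
    simp only [hJ, pow_one]
  rw [he, hline, ← mul_sub]
  have h5 : ‖(∫ t : ℝ, KK lam ((2 : ℝ) + t * Complex.I) *
      (-logDeriv Z ((2 : ℝ) + t * Complex.I)) * Complex.exp (((2 : ℝ) + t * Complex.I) * u)) -
      ∫ y : ℝ in (-T)..T, J ((0.575 : ℝ) + y * Complex.I)‖ ≤ 6 * (B / T) := by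
    have h6 : (∫ t : ℝ, KK lam ((2 : ℝ) + t * Complex.I) *
      (-logDeriv Z ((2 : ℝ) + t * Complex.I)) * Complex.exp (((2 : ℝ) + t * Complex.I) * u)) -
      (∫ y : ℝ in (-T)..T, J ((0.575 : ℝ) + y * Complex.I)) =
      ((∫ t : ℝ, KK lam ((2 : ℝ) + t * Complex.I) *
      (-logDeriv Z ((2 : ℝ) + t * Complex.I)) * Complex.exp (((2 : ℝ) + t * Complex.I) * u)) -
      ∫ y : ℝ in (-T)..T, J ((2 : ℝ) + y * Complex.I)) +
      ((∫ y : ℝ in (-T)..T, J ((2 : ℝ) + y * Complex.I)) -
      (∫ y : ℝ in (-T)..T, J ((0.575 : ℝ) + y * Complex.I))) := by ring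
    rw [h6]
    refine (norm_add_le _ _).trans ?_
    (clear * - htail hver; linarith)
  rw [norm_mul]
  have h7 : ‖(1 / (2 * Real.pi) : ℂ)‖ ≤ 1 / 6 := by
    rw [norm_div, norm_one, norm_mul, Complex.norm_real, Real.norm_of_nonneg Real.pi_pos.le]
    simp only [Complex.norm_ofNat]
    apply div_le_div_of_nonneg_left (by norm_num) (by norm_num)
    (clear * -; linarith [Real.pi_gt_three])
  calc ‖(1 / (2 * Real.pi) : ℂ)‖ * _ ≤ 1 / 6 * (6 * (B / T)) := by
        apply mul_le_mul h7 h5 (norm_nonneg _) (by norm_num)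
    _ = CK * CG * Real.exp (2 * u) * L ^ 2 / (lam ^ 2 * T) := by
        rw [hBd]
        (clear * - hT hl hCG0 hCK1; field_simp)
    _ ≤ (CK * CG + 1) * Real.exp (2 * u) * L ^ 2 / (lam ^ 2 * T) := by
        gcongr
        (clear * -; linarith)

end Pool.Agent.M17.Helper1.KL
end

/- Helper53.KN.Helper8.KSZ.ShiftIter -/
section
/-! KSZ-E9: the explicit formula with the iterated kernel. -/

set_option autoImplicit false
open Filter Topology MeasureTheory

namespace Pool.Agent.M17.Helper8.KSZ.Iter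

open Pool.Agent.M17.Helper10.QRH Pool.Agent.M17.Helper69.QRH Pool.Agent.M17.Helper46.KSZ
open Pool.Agent.M17.Helper79.QRH (tri_cont tri_zero tri_nonneg tri_le KK_eq KK_cont
  integral_eq_interval)

lemma tri_int {lam : ℝ} (hl : 0 < lam) : ∫ w in (-lam)..lam, tri lam w = 1 := by
  have hc := tri_cont lam
  rw [← intervalIntegral.integral_add_adjacent_intervals (b := 0)
    (hc.intervalIntegrable _ _) (hc.intervalIntegrable _ _)]
  have h1 : ∫ v in (-lam)..0, tri lam v = ∫ v in (-lam)..0, (1 + v / lam) / lam := by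
    apply intervalIntegral.integral_congr
    intro v hv
    rw [Set.uIcc_of_le (by (clear * - hl; linarith))] at hv
    show tri lam v = _
    unfold tri
    rw [abs_of_nonpos hv.2, max_eq_right]
    · ring
    · have : -v / lam ≤ 1 := by
        rw [div_le_one hl]
        linarith [hv.1]
      linarith
  have h2 : ∫ v in (0:ℝ)..lam, tri lam v = ∫ v in (0:ℝ)..lam, (1 - v / lam) / lam := by
    apply intervalIntegral.integral_congr
    intro v hv
    rw [Set.uIcc_of_le (by linarith)] at hv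
    show tri lam v = _
    unfold tri
    rw [abs_of_nonneg hv.1, max_eq_right]
    have : v / lam ≤ 1 := by
      rw [div_le_one hl]
      (clear * - hv; linarith [hv.2])
    (clear * - this; linarith)
  rw [h1, h2]
  simp only [intervalIntegral.integral_div]
  rw [intervalIntegral.integral_add (by simp) (by
      apply Continuous.intervalIntegrable; fun_prop),
    intervalIntegral.integral_sub (by simp) (by
      apply Continuous.intervalIntegrable; fun_prop)]
  simp only [intervalIntegral.integral_div, integral_id, intervalIntegral.integral_const,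
    smul_eq_mul]
  field_simp
  ring

/-- the basic averaging identity -/
lemma avg_exp {lam : ℝ} (hl : 0 < lam) (z : ℂ) (u : ℝ) :
    ∫ w in (-lam)..lam, (tri lam w : ℂ) * Complex.exp (z * ((u - w : ℝ) : ℂ)) =
      KK lam z * Complex.exp (z * u) := by
  rw [KK_eq hl, ← intervalIntegral.integral_mul_const]
  apply intervalIntegral.integral_congr
  intro w _
  beta_reduce
  rw [mul_assoc, ← Complex.exp_add]
  congr 2
  push_cast
  ring

lemma triC_cont (lam : ℝ) : Continuous (fun w : ℝ => (tri lam w : ℂ)) := by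
  have := tri_cont lam
  fun_prop

/-- multiset sums -/
lemma msum_cont (M : Multiset ℂ) (g : ℂ → ℂ) :
    Continuous (fun u : ℝ => (M.map (fun ρ => Complex.exp (ρ * u) * g ρ)).sum) := by
  induction M using Multiset.induction_on with
  | empty => simp only [Multiset.map_zero, Multiset.sum_zero]; exact continuous_const
  | cons a M ih =>
    simp only [Multiset.map_cons, Multiset.sum_cons]
    exact (by fun_prop : Continuous (fun u : ℝ => Complex.exp (a * u) * g a)).add ih

lemma avg_msum {lam : ℝ} (hl : 0 < lam) (M : Multiset ℂ) (g : ℂ → ℂ) (u : ℝ) :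
    ∫ w in (-lam)..lam, (tri lam w : ℂ) *
      (M.map (fun ρ => Complex.exp (ρ * ((u - w : ℝ) : ℂ)) * g ρ)).sum =
      (M.map (fun ρ => Complex.exp (ρ * u) * (g ρ * KK lam ρ))).sum := by
  induction M using Multiset.induction_on with
  | empty => simp
  | cons a M ih =>
    simp only [Multiset.map_cons, Multiset.sum_cons, mul_add]
    rw [intervalIntegral.integral_add, ih]
    · congr 1
      have h1 : ∫ w in (-lam)..lam, (tri lam w : ℂ) * (Complex.exp (a * ((u - w : ℝ) : ℂ)) * g a) =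
          (∫ w in (-lam)..lam, (tri lam w : ℂ) * Complex.exp (a * ((u - w : ℝ) : ℂ))) * g a := by
        rw [← intervalIntegral.integral_mul_const]
        apply intervalIntegral.integral_congr
        intro w _
        show _ = _
        ring
      rw [h1, avg_exp hl]
      ring
    · apply Continuous.intervalIntegrable
      have := triC_cont lam
      fun_prop
    · apply Continuous.intervalIntegrable
      have := triC_cont lam
      have h2 := (msum_cont M g).comp (by fun_prop : Continuous (fun w : ℝ => u - w))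
      exact this.mul h2

/-- the prime side as a finite sum -/
lemma tsum_eq {K : ℝ → ℝ} {R : ℝ} (hK0 : ∀ v, R ≤ |v| → K v = 0) {N : ℕ} (hN : 1 ≤ N)
    {u : ℝ} (hu : u + R ≤ Real.log N) :
    ∑' n : ℕ, ArithmeticFunction.vonMangoldt n * K (u - Real.log n) =
      ∑ n ∈ Finset.range N, ArithmeticFunction.vonMangoldt n * K (u - Real.log n) := by
  apply tsum_eq_sum
  intro n hn
  rw [Finset.mem_range, not_lt] at hn
  have h1 : Real.log N ≤ Real.log n :=
    Real.log_le_log (by exact_mod_cast hN) (by exact_mod_cast hn)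
  rw [hK0, mul_zero]
  rw [abs_sub_comm]
  exact le_trans (by (clear * - hu h1; linarith)) (le_abs_self _)

lemma fsum_cont {K : ℝ → ℝ} (hK : Continuous K) (N : ℕ) :
    Continuous (fun u : ℝ => ∑ n ∈ Finset.range N,
      ArithmeticFunction.vonMangoldt n * K (u - Real.log n)) := by
  fun_prop

lemma avg_fsum {lam : ℝ} (hl : 0 < lam) {K K' : ℝ → ℝ} (hK : Continuous K)
    (hK' : ∀ v, K' v = ∫ w : ℝ, tri lam w * K (v - w)) (N : ℕ) (u : ℝ) :
    ∫ w in (-lam)..lam, (tri lam w : ℂ) * ((∑ n ∈ Finset.range N,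
      ArithmeticFunction.vonMangoldt n * K ((u - w) - Real.log n) : ℝ) : ℂ) =
      ((∑ n ∈ Finset.range N,
      ArithmeticFunction.vonMangoldt n * K' (u - Real.log n) : ℝ) : ℂ) := by
  have hv : ∀ v, K' v = ∫ w in (-lam)..lam, tri lam w * K (v - w) := by
    intro v
    rw [hK', intervalIntegral.integral_of_le (by linarith)]
    symm
    apply setIntegral_eq_integral_of_forall_compl_eq_zero
    intro w hw
    rw [tri_zero hl, zero_mul]
    rw [Set.mem_Ioc, not_and_or, not_lt, not_le] at hw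
    rcases hw with h | h
    · rw [le_abs]; right; (clear * - h; linarith)
    · rw [le_abs]; left; exact h.le
  have ht := tri_cont lam
  have h1 : ∀ w : ℝ, (tri lam w : ℂ) * ((∑ n ∈ Finset.range N,
      ArithmeticFunction.vonMangoldt n * K ((u - w) - Real.log n) : ℝ) : ℂ) =
      ((∑ n ∈ Finset.range N, ArithmeticFunction.vonMangoldt n *
        (tri lam w * K ((u - Real.log n) - w)) : ℝ) : ℂ) := by
    intro w
    rw [← Complex.ofReal_mul, Finset.mul_sum]
    congr 1
    apply Finset.sum_congr rfl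
    intro n _
    rw [show u - w - Real.log n = u - Real.log n - w by ring]
    ring
  simp only [h1]
  rw [intervalIntegral.integral_ofReal, intervalIntegral.integral_finsetSum]
  · congr 1
    apply Finset.sum_congr rfl
    intro n _
    rw [intervalIntegral.integral_const_mul, hv]
  · intro n _
    apply Continuous.intervalIntegrable
    fun_prop

/-- the line integral of a continuous function -/
lemma lint_cont {G : ℝ → ℂ} (hG : Continuous G) (c T : ℝ) :
    Continuous (fun u : ℝ => ∫ t in (-T)..T, G t * Complex.exp (((c : ℂ) + t * Complex.I) * u)) := by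
  apply intervalIntegral.continuous_parametric_intervalIntegral_of_continuous'
  simp only [Function.uncurry_def]
  fun_prop

lemma avg_lint {lam : ℝ} (hl : 0 < lam) {G : ℝ → ℂ} (hG : Continuous G) (c T : ℝ) (u : ℝ) :
    ∫ w in (-lam)..lam, (tri lam w : ℂ) *
      (∫ t in (-T)..T, G t * Complex.exp (((c : ℂ) + t * Complex.I) * ((u - w : ℝ) : ℂ))) =
      ∫ t in (-T)..T, (G t * KK lam (c + t * Complex.I)) *
        Complex.exp (((c : ℂ) + t * Complex.I) * u) := by
  have h1 : ∀ w : ℝ, (tri lam w : ℂ) *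
      (∫ t in (-T)..T, G t * Complex.exp (((c : ℂ) + t * Complex.I) * ((u - w : ℝ) : ℂ))) =
      ∫ t in (-T)..T, (tri lam w : ℂ) *
        (G t * Complex.exp (((c : ℂ) + t * Complex.I) * ((u - w : ℝ) : ℂ))) := by
    intro w
    rw [intervalIntegral.integral_const_mul]
  simp only [h1]
  rw [intervalIntegral_intervalIntegral_swap]
  · apply intervalIntegral.integral_congr
    intro t _
    beta_reduce
    have h2 : ∫ w in (-lam)..lam, (tri lam w : ℂ) *
        (G t * Complex.exp (((c : ℂ) + t * Complex.I) * ((u - w : ℝ) : ℂ))) =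
        G t * ∫ w in (-lam)..lam, (tri lam w : ℂ) *
          Complex.exp (((c : ℂ) + t * Complex.I) * ((u - w : ℝ) : ℂ)) := by
      rw [← intervalIntegral.integral_const_mul]
      apply intervalIntegral.integral_congr
      intro w _
      show _ = _
      ring
    rw [h2, avg_exp hl]
    ring
  · have hc : Continuous (Function.uncurry fun (w t : ℝ) => (tri lam w : ℂ) *
        (G t * Complex.exp (((c : ℂ) + t * Complex.I) * ((u - w : ℝ) : ℂ)))) := by
      simp only [Function.uncurry_def]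
      exact ((triC_cont lam).comp continuous_fst).mul (by fun_prop)
    have h3 : IntegrableOn (Function.uncurry fun (w t : ℝ) => (tri lam w : ℂ) *
        (G t * Complex.exp (((c : ℂ) + t * Complex.I) * ((u - w : ℝ) : ℂ))))
        (Set.uIcc (-lam) lam ×ˢ Set.uIcc (-T) T) :=
      hc.continuousOn.integrableOn_compact (isCompact_uIcc.prod isCompact_uIcc)
    exact h3.mono_set (Set.prod_mono Set.uIoc_subset_uIcc Set.uIoc_subset_uIcc)

/-- a continuous function on `[-T, T]` extends -/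
lemma exists_ext {T : ℝ} (hT : 0 ≤ T) {G : ℝ → ℂ} (hG : ContinuousOn G (Set.Icc (-T) T)) :
    ∃ G' : ℝ → ℂ, Continuous G' ∧ ∀ t ∈ Set.Icc (-T) T, G' t = G t := by
  have h : -T ≤ T := by (clear * - hT; linarith)
  refine ⟨Set.IccExtend h ((Set.Icc (-T) T).domRestrict G), ?_, ?_⟩
  · exact (continuousOn_iff_continuous_domRestrict.1 hG).Icc_extend'
  · intro t ht
    rw [Set.IccExtend_of_mem _ _ ht]
    rfl

theorem step (hK : KFacts) (h8 : KerFacts) {C T : ℝ} (hT : 1 ≤ T) (hC : 0 < C) {M : Multiset ℂ}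
    {Z : ℂ → ℂ} (hB : Box T M Z) {lam : ℝ} (hl : 0 < lam) {j : ℕ}
    (ih : ∀ u : ℝ, 1 + j * lam ≤ u → ‖lhs (ker lam j) (j + 1) lam M u - line (j + 1) lam T Z u‖ ≤
      C * Real.exp (2 * (u + j * lam)) * (Real.log (T + 2)) ^ 2 / (lam ^ 2 * T))
    {u : ℝ} (hu : 1 + ((j + 1 : ℕ) : ℝ) * lam ≤ u) :
    ‖lhs (ker lam (j + 1)) (j + 1 + 1) lam M u - line (j + 1 + 1) lam T Z u‖ ≤
      C * Real.exp (2 * (u + ((j + 1 : ℕ) : ℝ) * lam)) * (Real.log (T + 2)) ^ 2 /
        (lam ^ 2 * T) := by
  obtain ⟨hkc, -, -, hkz⟩ := h8 lam hl j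
  obtain ⟨-, -, -, hkz'⟩ := h8 lam hl (j + 1)
  have hT0 : 0 < T := by linarith
  -- finite sums
  set N : ℕ := ⌈Real.exp (u + ((j : ℝ) + 2) * lam)⌉₊ with hN
  have hN1 : 1 ≤ N := Nat.one_le_iff_ne_zero.2 (Nat.ceil_pos.2 (Real.exp_pos _)).ne'
  have hNl : u + ((j : ℝ) + 2) * lam ≤ Real.log N := by
    rw [Real.le_log_iff_exp_le (by exact_mod_cast hN1)]
    exact Nat.le_ceil _
  have hs1 : ∀ w : ℝ, |w| ≤ lam → (∑' n : ℕ, ArithmeticFunction.vonMangoldt n *
      ker lam j ((u - w) - Real.log n)) = ∑ n ∈ Finset.range N,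
      ArithmeticFunction.vonMangoldt n * ker lam j ((u - w) - Real.log n) := by
    intro w hw
    apply tsum_eq (R := ((j : ℝ) + 1) * lam) hkz hN1
    have := (abs_le.1 hw).1
    (clear * - hNl this; linarith)
  have hs2 : (∑' n : ℕ, ArithmeticFunction.vonMangoldt n *
      ker lam (j + 1) (u - Real.log n)) = ∑ n ∈ Finset.range N,
      ArithmeticFunction.vonMangoldt n * ker lam (j + 1) (u - Real.log n) := by
    apply tsum_eq (R := (((j + 1 : ℕ) : ℝ) + 1) * lam) hkz' hN1
    push_cast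
    (clear * - hNl; linarith)
  -- the line
  have hGc : ContinuousOn (fun t : ℝ => KK lam ((0.605 : ℝ) + t * Complex.I) ^ (j + 1) *
      (-logDeriv Z ((0.605 : ℝ) + t * Complex.I))) (Set.Icc (-T) T) := by
    have h1 : Continuous (fun t : ℝ => KK lam ((0.605 : ℝ) + t * Complex.I)) :=
      (KK_cont hl).comp (by fun_prop)
    refine (h1.pow _).continuousOn.mul (ContinuousOn.neg ?_)
    intro t ht
    apply ContinuousAt.continuousWithinAt
    have hne : Z ((0.605 : ℝ) + t * Complex.I) ≠ 0 := by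
      apply hB.ne
      · simp only [Complex.add_re, Complex.ofReal_re, Complex.mul_re, Complex.I_re, mul_zero,
          Complex.ofReal_im, Complex.I_im, mul_one, sub_self, add_zero]
        norm_num
      · simp only [Complex.add_im, Complex.ofReal_im, Complex.mul_im, Complex.ofReal_re,
          Complex.I_im, mul_one, Complex.I_re, mul_zero, add_zero, zero_add]
        rw [abs_lt]
        constructor <;> (clear * - ht; linarith [ht.1, ht.2])
    have h2 : ContinuousAt (logDeriv Z) ((0.605 : ℝ) + t * Complex.I) := by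
      have h3 : DifferentiableAt ℂ (deriv Z) ((0.605 : ℝ) + t * Complex.I) := hB.diff.deriv _
      exact (h3.div (hB.diff _) hne).continuousAt
    exact ContinuousAt.comp (f := fun t : ℝ => ((0.605 : ℝ) : ℂ) + t * Complex.I) h2
      (by fun_prop)
  obtain ⟨G, hG, hGe⟩ := exists_ext hT0.le hGc
  have hline : ∀ v : ℝ, line (j + 1) lam T Z v = (1 / (2 * Real.pi)) * ∫ t in (-T)..T, G t *
      Complex.exp ((((0.605 : ℝ) : ℂ) + t * Complex.I) * v) := by
    intro v
    unfold line
    congr 1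
    apply intervalIntegral.integral_congr
    intro t ht
    rw [Set.uIcc_of_le (by linarith)] at ht
    beta_reduce
    rw [hGe t ht]
  have hline' : ∀ v : ℝ, line (j + 1 + 1) lam T Z v = (1 / (2 * Real.pi)) * ∫ t in (-T)..T,
      (G t * KK lam ((0.605 : ℝ) + t * Complex.I)) *
      Complex.exp ((((0.605 : ℝ) : ℂ) + t * Complex.I) * v) := by
    intro v
    unfold line
    congr 1
    apply intervalIntegral.integral_congr
    intro t ht
    rw [Set.uIcc_of_le (by (clear * - hT; linarith))] at ht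
    beta_reduce
    rw [hGe t ht]
    ring
  -- the four pieces
  have htc := triC_cont lam
  have i1 := avg_fsum (K' := ker lam (j + 1)) hl hkc (fun v => rfl) N u
  have i2 := avg_exp hl 1 u
  have i3 := avg_msum hl M (fun ρ => KK lam ρ ^ (j + 1)) u
  have i4 := avg_lint hl hG (0.605 : ℝ) T u
  have c1 : Continuous (fun w : ℝ => (tri lam w : ℂ) * ((∑ n ∈ Finset.range N,
      ArithmeticFunction.vonMangoldt n * ker lam j ((u - w) - Real.log n) : ℝ) : ℂ)) := by
    have h1 := (fsum_cont hkc N).comp (by fun_prop : Continuous (fun w : ℝ => u - w))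
    exact htc.mul (Complex.continuous_ofReal.comp h1)
  have c2 : Continuous (fun w : ℝ => (tri lam w : ℂ) * Complex.exp (1 * ((u - w : ℝ) : ℂ))) := by
    fun_prop
  have c3 : Continuous (fun w : ℝ => (tri lam w : ℂ) * (M.map (fun ρ =>
      Complex.exp (ρ * ((u - w : ℝ) : ℂ)) * KK lam ρ ^ (j + 1))).sum) := by
    have h1 := (msum_cont M (fun ρ => KK lam ρ ^ (j + 1))).comp
      (by fun_prop : Continuous (fun w : ℝ => u - w))
    exact htc.mul h1
  have c4 : Continuous (fun w : ℝ => (tri lam w : ℂ) * (∫ t in (-T)..T, G t *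
      Complex.exp ((((0.605 : ℝ) : ℂ) + t * Complex.I) * ((u - w : ℝ) : ℂ)))) := by
    have h1 := (lint_cont hG (0.605 : ℝ) T).comp (by fun_prop : Continuous (fun w : ℝ => u - w))
    exact htc.mul h1
  have key : lhs (ker lam (j + 1)) (j + 1 + 1) lam M u - line (j + 1 + 1) lam T Z u =
      ∫ w in (-lam)..lam, (tri lam w : ℂ) *
        (lhs (ker lam j) (j + 1) lam M (u - w) - line (j + 1) lam T Z (u - w)) := by
    have e1 : ∫ w in (-lam)..lam, (tri lam w : ℂ) *
        (lhs (ker lam j) (j + 1) lam M (u - w) - line (j + 1) lam T Z (u - w)) =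
        ∫ w in (-lam)..lam, ((((tri lam w : ℂ) * ((∑ n ∈ Finset.range N,
      ArithmeticFunction.vonMangoldt n * ker lam j ((u - w) - Real.log n) : ℝ) : ℂ)) -
        ((tri lam w : ℂ) * Complex.exp (1 * ((u - w : ℝ) : ℂ))) * KK lam 1 ^ (j + 1)) +
        (tri lam w : ℂ) * (M.map (fun ρ =>
      Complex.exp (ρ * ((u - w : ℝ) : ℂ)) * KK lam ρ ^ (j + 1))).sum) -
        (1 / (2 * Real.pi)) * ((tri lam w : ℂ) * (∫ t in (-T)..T, G t *
      Complex.exp ((((0.605 : ℝ) : ℂ) + t * Complex.I) * ((u - w : ℝ) : ℂ)))) := by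
      apply intervalIntegral.integral_congr
      intro w hw
      rw [Set.uIcc_of_le (by (clear * - hl; linarith))] at hw
      beta_reduce
      rw [hline]
      unfold lhs
      rw [hs1 w (abs_le.2 hw), one_mul]
      ring
    rw [e1, intervalIntegral.integral_sub, intervalIntegral.integral_add,
      intervalIntegral.integral_sub, intervalIntegral.integral_mul_const,
      intervalIntegral.integral_const_mul, i1, i2, i3, i4, hline']
    · unfold lhs
      rw [hs2]
      simp only [one_mul, ← pow_succ]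
      ring
    · exact c1.intervalIntegrable _ _
    · exact (c2.mul continuous_const).intervalIntegrable _ _
    · exact (c1.sub (c2.mul continuous_const)).intervalIntegrable _ _
    · exact c3.intervalIntegrable _ _
    · exact ((c1.sub (c2.mul continuous_const)).add c3).intervalIntegrable _ _
    · exact (continuous_const.mul c4).intervalIntegrable _ _
  rw [key]
  set B : ℝ := C * Real.exp (2 * (u + ((j + 1 : ℕ) : ℝ) * lam)) * (Real.log (T + 2)) ^ 2 /
        (lam ^ 2 * T) with hBd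
  have hb : ‖∫ w in (-lam)..lam, (tri lam w : ℂ) *
        (lhs (ker lam j) (j + 1) lam M (u - w) - line (j + 1) lam T Z (u - w))‖ ≤
      ∫ w in (-lam)..lam, tri lam w * B := by
    apply intervalIntegral.norm_integral_le_of_norm_le (by (clear * - hl; linarith))
    · refine Filter.Eventually.of_forall ?_
      intro w hw
      have hw' : |w| ≤ lam := abs_le.2 ⟨hw.1.le, hw.2⟩
      rw [norm_mul, Complex.norm_real, Real.norm_of_nonneg (tri_nonneg hl)]
      apply mul_le_mul_of_nonneg_left _ (tri_nonneg hl)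
      push_cast at hu
      refine (ih (u - w) ?_).trans ?_
      · (clear * - hu hw; linarith [hw.2])
      · have hexp : Real.exp (2 * (u - w + j * lam)) ≤
            Real.exp (2 * (u + ((j + 1 : ℕ) : ℝ) * lam)) := by
          apply Real.exp_le_exp.2
          push_cast
          (clear * - hw; linarith [hw.1])
        rw [hBd]
        (clear * - hexp hC hl hT; gcongr)
    · have := tri_cont lam
      apply Continuous.intervalIntegrable
      fun_prop
  rw [intervalIntegral.integral_mul_const, tri_int hl, one_mul] at hb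
  exact hb

end Pool.Agent.M17.Helper8.KSZ.Iter

namespace Pool.Agent.M17.Helper8.KSZ

open Pool.Agent.M17.Helper10.QRH Pool.Agent.M17.Helper69.QRH Pool.Agent.M17.Helper46.KSZ

theorem shiftIter (hK : KFacts) (h7 : Shift) (h8 : KerFacts) : ShiftIter := by
  obtain ⟨C, hC, hCs⟩ := h7
  refine ⟨C, hC, ?_⟩
  intro T M Z hT hB lam u j hl hl1
  induction j generalizing u with
  | zero =>
    intro hu
    have := hCs T M Z hT hB lam u hl hl1 (by simpa using hu)
    simpa [Helper46.KSZ.ker] using this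
  | succ j ih =>
    intro hu
    exact Iter.step hK h8 hT hC hB hl (fun v hv => ih v hv) hu

end Pool.Agent.M17.Helper8.KSZ
end

/- Helper53.KN.Helper1.KL.ShiftIter -/
section
/-! Helper8/KSZ/ShiftIter.lean adapted to the line 0.575 (box 57/100) by helper1 -/

set_option autoImplicit false
open Filter Topology MeasureTheory

namespace Pool.Agent.M17.Helper1.KL

open Pool.Agent.M17.Helper8.KSZ.Iter hiding step
open Pool.Agent.M17.Helper10.QRH Pool.Agent.M17.Helper69.QRH
open Pool.Agent.M17.Helper79.QRH (tri_cont tri_zero tri_nonneg tri_le KK_eq KK_cont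
  integral_eq_interval)

theorem step (hK : KFacts) (h8 : KerFacts) {C T : ℝ} (hT : 1 ≤ T) (hC : 0 < C) {M : Multiset ℂ}
    {Z : ℂ → ℂ} (hB : Box T M Z) {lam : ℝ} (hl : 0 < lam) {j : ℕ}
    (ih : ∀ u : ℝ, 1 + j * lam ≤ u → ‖lhs (ker lam j) (j + 1) lam M u - line (j + 1) lam T Z u‖ ≤
      C * Real.exp (2 * (u + j * lam)) * (Real.log (T + 2)) ^ 2 / (lam ^ 2 * T))
    {u : ℝ} (hu : 1 + ((j + 1 : ℕ) : ℝ) * lam ≤ u) :
    ‖lhs (ker lam (j + 1)) (j + 1 + 1) lam M u - line (j + 1 + 1) lam T Z u‖ ≤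
      C * Real.exp (2 * (u + ((j + 1 : ℕ) : ℝ) * lam)) * (Real.log (T + 2)) ^ 2 /
        (lam ^ 2 * T) := by
  obtain ⟨hkc, -, -, hkz⟩ := h8 lam hl j
  obtain ⟨-, -, -, hkz'⟩ := h8 lam hl (j + 1)
  have hT0 : 0 < T := by (clear * - hT; linarith)
  -- finite sums
  set N : ℕ := ⌈Real.exp (u + ((j : ℝ) + 2) * lam)⌉₊ with hN
  have hN1 : 1 ≤ N := Nat.one_le_iff_ne_zero.2 (Nat.ceil_pos.2 (Real.exp_pos _)).ne'
  have hNl : u + ((j : ℝ) + 2) * lam ≤ Real.log N := by
    rw [Real.le_log_iff_exp_le (by exact_mod_cast hN1)]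
    exact Nat.le_ceil _
  have hs1 : ∀ w : ℝ, |w| ≤ lam → (∑' n : ℕ, ArithmeticFunction.vonMangoldt n *
      ker lam j ((u - w) - Real.log n)) = ∑ n ∈ Finset.range N,
      ArithmeticFunction.vonMangoldt n * ker lam j ((u - w) - Real.log n) := by
    intro w hw
    apply tsum_eq (R := ((j : ℝ) + 1) * lam) hkz hN1
    have := (abs_le.1 hw).1
    (clear * - hNl this; linarith)
  have hs2 : (∑' n : ℕ, ArithmeticFunction.vonMangoldt n *
      ker lam (j + 1) (u - Real.log n)) = ∑ n ∈ Finset.range N,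
      ArithmeticFunction.vonMangoldt n * ker lam (j + 1) (u - Real.log n) := by
    apply tsum_eq (R := (((j + 1 : ℕ) : ℝ) + 1) * lam) hkz' hN1
    push_cast
    (clear * - hNl; linarith)
  -- the line
  have hGc : ContinuousOn (fun t : ℝ => KK lam ((0.575 : ℝ) + t * Complex.I) ^ (j + 1) *
      (-logDeriv Z ((0.575 : ℝ) + t * Complex.I))) (Set.Icc (-T) T) := by
    have h1 : Continuous (fun t : ℝ => KK lam ((0.575 : ℝ) + t * Complex.I)) :=
      (KK_cont hl).comp (by fun_prop)
    refine (h1.pow _).continuousOn.mul (ContinuousOn.neg ?_)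
    intro t ht
    apply ContinuousAt.continuousWithinAt
    have hne : Z ((0.575 : ℝ) + t * Complex.I) ≠ 0 := by
      apply hB.ne
      · simp only [Complex.add_re, Complex.ofReal_re, Complex.mul_re, Complex.I_re, mul_zero,
          Complex.ofReal_im, Complex.I_im, mul_one, sub_self, add_zero]
        norm_num
      · simp only [Complex.add_im, Complex.ofReal_im, Complex.mul_im, Complex.ofReal_re,
          Complex.I_im, mul_one, Complex.I_re, mul_zero, add_zero, zero_add]
        rw [abs_lt]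
        constructor <;> (clear * - ht; linarith [ht.1, ht.2])
    have h2 : ContinuousAt (logDeriv Z) ((0.575 : ℝ) + t * Complex.I) := by
      have h3 : DifferentiableAt ℂ (deriv Z) ((0.575 : ℝ) + t * Complex.I) := hB.diff.deriv _
      exact (h3.div (hB.diff _) hne).continuousAt
    exact ContinuousAt.comp (f := fun t : ℝ => ((0.575 : ℝ) : ℂ) + t * Complex.I) h2
      (by fun_prop)
  obtain ⟨G, hG, hGe⟩ := exists_ext hT0.le hGc
  have hline : ∀ v : ℝ, line (j + 1) lam T Z v = (1 / (2 * Real.pi)) * ∫ t in (-T)..T, G t *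
      Complex.exp ((((0.575 : ℝ) : ℂ) + t * Complex.I) * v) := by
    intro v
    unfold line
    congr 1
    apply intervalIntegral.integral_congr
    intro t ht
    rw [Set.uIcc_of_le (by (clear * - hT; linarith))] at ht
    beta_reduce
    rw [hGe t ht]
  have hline' : ∀ v : ℝ, line (j + 1 + 1) lam T Z v = (1 / (2 * Real.pi)) * ∫ t in (-T)..T,
      (G t * KK lam ((0.575 : ℝ) + t * Complex.I)) *
      Complex.exp ((((0.575 : ℝ) : ℂ) + t * Complex.I) * v) := by
    intro v
    unfold line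
    congr 1
    apply intervalIntegral.integral_congr
    intro t ht
    rw [Set.uIcc_of_le (by (clear * - hT; linarith))] at ht
    beta_reduce
    rw [hGe t ht]
    ring
  -- the four pieces
  have htc := triC_cont lam
  have i1 := avg_fsum (K' := ker lam (j + 1)) hl hkc (fun v => rfl) N u
  have i2 := avg_exp hl 1 u
  have i3 := avg_msum hl M (fun ρ => KK lam ρ ^ (j + 1)) u
  have i4 := avg_lint hl hG (0.575 : ℝ) T u
  have c1 : Continuous (fun w : ℝ => (tri lam w : ℂ) * ((∑ n ∈ Finset.range N,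
      ArithmeticFunction.vonMangoldt n * ker lam j ((u - w) - Real.log n) : ℝ) : ℂ)) := by
    have h1 := (fsum_cont hkc N).comp (by fun_prop : Continuous (fun w : ℝ => u - w))
    exact htc.mul (Complex.continuous_ofReal.comp h1)
  have c2 : Continuous (fun w : ℝ => (tri lam w : ℂ) * Complex.exp (1 * ((u - w : ℝ) : ℂ))) := by
    fun_prop
  have c3 : Continuous (fun w : ℝ => (tri lam w : ℂ) * (M.map (fun ρ =>
      Complex.exp (ρ * ((u - w : ℝ) : ℂ)) * KK lam ρ ^ (j + 1))).sum) := by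
    have h1 := (msum_cont M (fun ρ => KK lam ρ ^ (j + 1))).comp
      (by fun_prop : Continuous (fun w : ℝ => u - w))
    exact htc.mul h1
  have c4 : Continuous (fun w : ℝ => (tri lam w : ℂ) * (∫ t in (-T)..T, G t *
      Complex.exp ((((0.575 : ℝ) : ℂ) + t * Complex.I) * ((u - w : ℝ) : ℂ)))) := by
    have h1 := (lint_cont hG (0.575 : ℝ) T).comp (by fun_prop : Continuous (fun w : ℝ => u - w))
    exact htc.mul h1
  have key : lhs (ker lam (j + 1)) (j + 1 + 1) lam M u - line (j + 1 + 1) lam T Z u =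
      ∫ w in (-lam)..lam, (tri lam w : ℂ) *
        (lhs (ker lam j) (j + 1) lam M (u - w) - line (j + 1) lam T Z (u - w)) := by
    have e1 : ∫ w in (-lam)..lam, (tri lam w : ℂ) *
        (lhs (ker lam j) (j + 1) lam M (u - w) - line (j + 1) lam T Z (u - w)) =
        ∫ w in (-lam)..lam, ((((tri lam w : ℂ) * ((∑ n ∈ Finset.range N,
      ArithmeticFunction.vonMangoldt n * ker lam j ((u - w) - Real.log n) : ℝ) : ℂ)) -
        ((tri lam w : ℂ) * Complex.exp (1 * ((u - w : ℝ) : ℂ))) * KK lam 1 ^ (j + 1)) +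
        (tri lam w : ℂ) * (M.map (fun ρ =>
      Complex.exp (ρ * ((u - w : ℝ) : ℂ)) * KK lam ρ ^ (j + 1))).sum) -
        (1 / (2 * Real.pi)) * ((tri lam w : ℂ) * (∫ t in (-T)..T, G t *
      Complex.exp ((((0.575 : ℝ) : ℂ) + t * Complex.I) * ((u - w : ℝ) : ℂ)))) := by
      apply intervalIntegral.integral_congr
      intro w hw
      rw [Set.uIcc_of_le (by (clear * - hl; linarith))] at hw
      beta_reduce
      rw [hline]
      unfold lhs
      rw [hs1 w (abs_le.2 hw), one_mul]
      ring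
    rw [e1, intervalIntegral.integral_sub, intervalIntegral.integral_add,
      intervalIntegral.integral_sub, intervalIntegral.integral_mul_const,
      intervalIntegral.integral_const_mul, i1, i2, i3, i4, hline']
    · unfold lhs
      rw [hs2]
      simp only [one_mul, ← pow_succ]
      ring
    · exact c1.intervalIntegrable _ _
    · exact (c2.mul continuous_const).intervalIntegrable _ _
    · exact (c1.sub (c2.mul continuous_const)).intervalIntegrable _ _
    · exact c3.intervalIntegrable _ _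
    · exact ((c1.sub (c2.mul continuous_const)).add c3).intervalIntegrable _ _
    · exact (continuous_const.mul c4).intervalIntegrable _ _
  rw [key]
  set B : ℝ := C * Real.exp (2 * (u + ((j + 1 : ℕ) : ℝ) * lam)) * (Real.log (T + 2)) ^ 2 /
        (lam ^ 2 * T) with hBd
  have hb : ‖∫ w in (-lam)..lam, (tri lam w : ℂ) *
        (lhs (ker lam j) (j + 1) lam M (u - w) - line (j + 1) lam T Z (u - w))‖ ≤
      ∫ w in (-lam)..lam, tri lam w * B := by
    apply intervalIntegral.norm_integral_le_of_norm_le (by (clear * - hl; linarith))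
    · refine Filter.Eventually.of_forall ?_
      intro w hw
      have hw' : |w| ≤ lam := abs_le.2 ⟨hw.1.le, hw.2⟩
      rw [norm_mul, Complex.norm_real, Real.norm_of_nonneg (tri_nonneg hl)]
      apply mul_le_mul_of_nonneg_left _ (tri_nonneg hl)
      push_cast at hu
      refine (ih (u - w) ?_).trans ?_
      · (clear * - hu hw; linarith [hw.2])
      · have hexp : Real.exp (2 * (u - w + j * lam)) ≤
            Real.exp (2 * (u + ((j + 1 : ℕ) : ℝ) * lam)) := by
          apply Real.exp_le_exp.2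
          push_cast
          (clear * - hw; linarith [hw.1])
        rw [hBd]
        (clear * - hexp hC hl hT; gcongr)
    · have := tri_cont lam
      apply Continuous.intervalIntegrable
      fun_prop
  rw [intervalIntegral.integral_mul_const, tri_int hl, one_mul] at hb
  exact hb

theorem shiftIter (hK : KFacts) (h7 : Shift) (h8 : KerFacts) : ShiftIter := by
  obtain ⟨C, hC, hCs⟩ := h7
  refine ⟨C, hC, ?_⟩
  intro T M Z hT hB lam u j hl hl1
  induction j generalizing u with
  | zero =>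
    intro hu
    have := hCs T M Z hT hB lam u hl hl1 (by simpa using hu)
    simpa [Helper46.KSZ.ker] using this
  | succ j ih =>
    intro hu
    exact step hK h8 hT hC hB hl (fun v hv => ih v hv) hu

end Pool.Agent.M17.Helper1.KL
end

/- Helper53.KN.Helper46.KSZ.Final -/
section
/-!
KSZ, explicit formula part, final: `ExplicitCells` without hypotheses, and `BadZero` of helper60.
-/

set_option autoImplicit false
open Filter Topology MeasureTheory Complex
open scoped Classical

namespace Pool.Agent.M17.Helper46.KSZ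

open Pool.Agent.M17.Helper10.QRH Pool.Agent.M17.Helper69.QRH

theorem gBound' : GBound :=
  Helper67.KSZ.E5.gBound (Helper55.KSZ.localLog Helper33.KSZ.jensenEZ)
    (Helper67.KSZ.E4.farSum Helper33.KSZ.jensenEZ)

theorem cardBox' : CardBox := Helper67.KSZ.E4.cardBox Helper33.KSZ.jensenEZ

theorem explicitCells' : ExplicitCells :=
  explicitCells Helper33.KSZ.boxExists
    (Helper8.KSZ.shiftIter Helper79.QRH.kFacts
      (Helper8.KSZ.shift Helper79.QRH.kFacts gBound'
        (Helper48.KSZ.lineTwo Helper79.QRH.kFacts gBound')) Helper9.KSZ.kerFacts)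
    (Helper18.KSZ.primeSide Helper9.KSZ.kerFacts)
    (Helper8.KSZ.lineFew Helper79.QRH.kFacts gBound' Helper52.QRH.duality)
    (Helper18.KSZ.highZeros Helper79.QRH.kFacts cardBox')

lemma uu_range {d : ℝ} (hd : 0 < d) {k j : ℕ} (hj : j < 2 ^ (k - ee d k)) :
    Real.log (2 ^ k) ≤ uu d k j ∧ uu d k j ≤ Real.log (2 ^ k) + 1 ∧
      ((2 ^ k + j * 2 ^ ee d k : ℕ) : ℝ) + (2 : ℝ) ^ ee d k / 2 ≤ 2 * 2 ^ k := by
  have he := ee_le hd k
  have h1 : (j + 1) * 2 ^ ee d k ≤ 2 ^ k := by
    calc (j + 1) * 2 ^ ee d k ≤ 2 ^ (k - ee d k) * 2 ^ ee d k := Nat.mul_le_mul_right _ hj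
      _ = 2 ^ k := by rw [← pow_add, Nat.sub_add_cancel he]
  have h1r : ((j : ℝ) + 1) * 2 ^ ee d k ≤ 2 ^ k := by exact_mod_cast h1
  have hp : (0 : ℝ) < 2 ^ ee d k := by positivity
  have hpk : (0 : ℝ) < 2 ^ k := by positivity
  have hj0 : (0 : ℝ) ≤ j := j.cast_nonneg
  have hc : ((2 ^ k + j * 2 ^ ee d k : ℕ) : ℝ) + (2 : ℝ) ^ ee d k / 2 ≤ 2 * 2 ^ k := by
    push_cast
    (clear * - h1r hp; nlinarith)
  refine ⟨?_, ?_, hc⟩
  · unfold uu
    refine Real.log_le_log hpk ?_
    push_cast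
    (clear * - hp hj0; nlinarith [mul_nonneg hj0 hp.le])
  · unfold uu
    refine (Real.log_le_log (by (clear * -; positivity)) hc).trans ?_
    rw [Real.log_mul two_ne_zero hpk.ne']
    have := Real.log_two_lt_d9
    (clear * - this; linarith)

lemma uu_spacing {d : ℝ} (hd : 0 < d) {k : ℕ} (hk : 2 ≤ d * k) {j j' : ℕ}
    (hj : j < 2 ^ (k - ee d k)) (hj' : j' < 2 ^ (k - ee d k)) (hne : j < j') :
    1 / ((2 : ℝ) ^ k) ^ (1/2 + 2 * d) ≤ uu d k j' - uu d k j := by
  obtain ⟨-, -, h1⟩ := uu_range hd hj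
  obtain ⟨-, -, h2⟩ := uu_range hd hj'
  have hp : (0 : ℝ) < 2 ^ ee d k := by positivity
  have hpk : (0 : ℝ) < 2 ^ k := by positivity
  have hne' : (j : ℝ) + 1 ≤ j' := by exact_mod_cast hne
  set a : ℝ := ((2 ^ k + j * 2 ^ ee d k : ℕ) : ℝ) + (2 : ℝ) ^ ee d k / 2 with ha
  set b : ℝ := ((2 ^ k + j' * 2 ^ ee d k : ℕ) : ℝ) + (2 : ℝ) ^ ee d k / 2 with hb
  have ha0 : 0 < a := by (clear * -; positivity)
  have hb0 : 0 < b := by positivity
  have hab : a + 2 ^ ee d k ≤ b := by
    rw [ha, hb]; push_cast; (clear * - hp hne'; nlinarith)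
  have h3 : uu d k j' - uu d k j = - Real.log (a / b) := by
    unfold uu
    rw [← ha, ← hb, Real.log_div ha0.ne' hb0.ne']; ring
  have h4 : Real.log (a / b) ≤ a / b - 1 := Real.log_le_sub_one_of_pos (by (clear * -; positivity))
  have h5 : (2 : ℝ) ^ ee d k / (2 * 2 ^ k) ≤ 1 - a / b := by
    have : 1 - a / b = (b - a) / b := by (clear * - hb0; field_simp)
    rw [this]
    exact div_le_div₀ (by (clear * - hp hab; linarith)) (by (clear * - hab; linarith)) hb0 h2
  rw [h3]
  refine le_trans ?_ (h5.trans (by (clear * - h4; linarith)))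
  -- exponents
  have e1 : ((2 : ℝ) ^ k) ^ (1/2 + 2 * d) = (2 : ℝ) ^ ((k : ℝ) * (1/2 + 2 * d)) := by
    rw [← Real.rpow_natCast 2 k, ← Real.rpow_mul (by norm_num)]
  have e2 : (2 : ℝ) ^ ee d k = (2 : ℝ) ^ ((ee d k : ℕ) : ℝ) := (Real.rpow_natCast 2 _).symm
  have e3 : (2 : ℝ) * 2 ^ k = (2 : ℝ) ^ ((k : ℝ) + 1) := by
    rw [Real.rpow_add_one (by norm_num), Real.rpow_natCast]; ring
  have hfl : (k : ℝ) * (1/2 - d) - 1 < (ee d k : ℝ) := by
    have := Nat.lt_floor_add_one ((k : ℝ) * (1/2 - d))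
    unfold ee
    (clear * - this; linarith)
  rw [e1, e2, e3, ← Real.rpow_sub (by norm_num), one_div, ← Real.rpow_neg (by norm_num)]
  refine Real.rpow_le_rpow_of_exponent_le (by norm_num) ?_
  (clear * - hk hfl; nlinarith)

end Pool.Agent.M17.Helper46.KSZ
end

/- Helper53.KN.Helper60.KG.Final -/
section
/-! KG-1: `BadZeroG w`, unconditional -/

set_option autoImplicit false
open Filter Topology MeasureTheory Complex
open scoped Classical

namespace Pool.Agent.M17.Helper60.KG

open Pool.Agent.M17.Helper10.QRH Pool.Agent.M17.Helper69.QRH Pool.Agent.M17.Helper46.KSZ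

lemma uu_rangeG {d : ℝ} (hd : -(1 / 2) ≤ d) {k j : ℕ} (hj : j < 2 ^ (k - ee d k)) :
    Real.log (2 ^ k) ≤ uu d k j ∧ uu d k j ≤ Real.log (2 ^ k) + 1 ∧
      ((2 ^ k + j * 2 ^ ee d k : ℕ) : ℝ) + (2 : ℝ) ^ ee d k / 2 ≤ 2 * 2 ^ k := by
  have he := ee_leG hd k
  have h1 : (j + 1) * 2 ^ ee d k ≤ 2 ^ k := by
    calc (j + 1) * 2 ^ ee d k ≤ 2 ^ (k - ee d k) * 2 ^ ee d k := Nat.mul_le_mul_right _ hj
      _ = 2 ^ k := by rw [← pow_add, Nat.sub_add_cancel he]
  have h1r : ((j : ℝ) + 1) * 2 ^ ee d k ≤ 2 ^ k := by exact_mod_cast h1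
  have hp : (0 : ℝ) < 2 ^ ee d k := by positivity
  have hpk : (0 : ℝ) < 2 ^ k := by positivity
  have hj0 : (0 : ℝ) ≤ j := j.cast_nonneg
  have hc : ((2 ^ k + j * 2 ^ ee d k : ℕ) : ℝ) + (2 : ℝ) ^ ee d k / 2 ≤ 2 * 2 ^ k := by
    push_cast
    (clear * - h1r hp; nlinarith)
  refine ⟨?_, ?_, hc⟩
  · unfold uu
    refine Real.log_le_log hpk ?_
    push_cast
    (clear * - hp hj0; nlinarith [mul_nonneg hj0 hp.le])
  · unfold uu
    refine (Real.log_le_log (by (clear * -; positivity)) hc).trans ?_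
    rw [Real.log_mul two_ne_zero hpk.ne']
    have := Real.log_two_lt_d9
    (clear * - this; linarith)

lemma uu_spacingG {d η : ℝ} (hd : -(1 / 2) ≤ d) {k : ℕ} (hk : 2 ≤ η * k) {j j' : ℕ}
    (hj : j < 2 ^ (k - ee d k)) (hj' : j' < 2 ^ (k - ee d k)) (hne : j < j') :
    1 / ((2 : ℝ) ^ k) ^ (1/2 + d + η) ≤ uu d k j' - uu d k j := by
  obtain ⟨-, -, h1⟩ := uu_rangeG hd hj
  obtain ⟨-, -, h2⟩ := uu_rangeG hd hj'
  have hp : (0 : ℝ) < 2 ^ ee d k := by positivity
  have hpk : (0 : ℝ) < 2 ^ k := by positivity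
  have hne' : (j : ℝ) + 1 ≤ j' := by exact_mod_cast hne
  set a : ℝ := ((2 ^ k + j * 2 ^ ee d k : ℕ) : ℝ) + (2 : ℝ) ^ ee d k / 2 with ha
  set b : ℝ := ((2 ^ k + j' * 2 ^ ee d k : ℕ) : ℝ) + (2 : ℝ) ^ ee d k / 2 with hb
  have ha0 : 0 < a := by (clear * -; positivity)
  have hb0 : 0 < b := by positivity
  have hab : a + 2 ^ ee d k ≤ b := by
    rw [ha, hb]; push_cast; (clear * - hp hne'; nlinarith)
  have h3 : uu d k j' - uu d k j = - Real.log (a / b) := by
    unfold uu
    rw [← ha, ← hb, Real.log_div ha0.ne' hb0.ne']; ring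
  have h4 : Real.log (a / b) ≤ a / b - 1 := Real.log_le_sub_one_of_pos (by (clear * -; positivity))
  have h5 : (2 : ℝ) ^ ee d k / (2 * 2 ^ k) ≤ 1 - a / b := by
    have : 1 - a / b = (b - a) / b := by (clear * - hb0; field_simp)
    rw [this]
    exact div_le_div₀ (by (clear * - hp hab; linarith)) (by (clear * - hab; linarith)) hb0 h2
  rw [h3]
  refine le_trans ?_ (h5.trans (by (clear * - h4; linarith)))
  -- exponents
  have e1 : ((2 : ℝ) ^ k) ^ (1/2 + d + η) = (2 : ℝ) ^ ((k : ℝ) * (1/2 + d + η)) := by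
    rw [← Real.rpow_natCast 2 k, ← Real.rpow_mul (by norm_num)]
  have e2 : (2 : ℝ) ^ ee d k = (2 : ℝ) ^ ((ee d k : ℕ) : ℝ) := (Real.rpow_natCast 2 _).symm
  have e3 : (2 : ℝ) * 2 ^ k = (2 : ℝ) ^ ((k : ℝ) + 1) := by
    rw [Real.rpow_add_one (by norm_num), Real.rpow_natCast]; ring
  have hfl : (k : ℝ) * (1/2 - d) - 1 < (ee d k : ℝ) := by
    have := Nat.lt_floor_add_one ((k : ℝ) * (1/2 - d))
    unfold ee
    (clear * - this; linarith)
  rw [e1, e2, e3, ← Real.rpow_sub (by norm_num), one_div, ← Real.rpow_neg (by norm_num)]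
  refine Real.rpow_le_rpow_of_exponent_le (by norm_num) ?_
  (clear * - hk hfl; nlinarith)

theorem explicitCellsG' : ExplicitCellsG :=
  explicitCellsG Helper33.KSZ.boxExists
    (Helper8.KSZ.shiftIter Helper79.QRH.kFacts
      (Helper8.KSZ.shift Helper79.QRH.kFacts gBound'
        (Helper48.KSZ.lineTwo Helper79.QRH.kFacts gBound')) Helper9.KSZ.kerFacts)
    (primeSideG Helper9.KSZ.kerFacts)
    (lineFewG Helper79.QRH.kFacts gBound' Helper52.QRH.duality)
    (highZerosG Helper79.QRH.kFacts cardBox')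

lemma ee_eq_ecw (w d : ℝ) (k : ℕ) : ee (d - w) k = Helper60.KS.ecw w d k := by
  unfold ee Helper60.KS.ecw
  congr 1
  ring

/-- explicit formula for cells of length `2^(ecw w d k)` -/
theorem badZeroG {w : ℝ} (hw0 : 0 ≤ w) (hw : w ≤ 1 / 2) : Helper60.KS.BadZeroG w := by
  intro d hd0 hd
  obtain ⟨c₀, hc₀, K, hK⟩ := explicitCellsG' (d - w) d (by (clear * - hw hd0; linarith)) (by (clear * - hw0 hd; linarith)) hd0 (by (clear * - hd0 hd; linarith))
  refine ⟨c₀, hc₀, max K ⌈2 / d⌉₊, fun k hk => ?_⟩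
  obtain ⟨c, Ex, hc, hEx, hall⟩ := hK k ((le_max_left _ _).trans hk)
  have hdw : -(1 / 2) ≤ d - w := by (clear * - hw hd0; linarith)
  have hexp : 1 / 2 + (d - w) + d = 1 / 2 - w + 2 * d := by ring
  have hdk : 2 ≤ d * k := by
    have h1 : (⌈2 / d⌉₊ : ℝ) ≤ k := by exact_mod_cast (le_max_right _ _).trans hk
    have h2 := (Nat.le_ceil (2 / d)).trans h1
    rw [div_le_iff₀ hd0] at h2
    (clear * - h2; linarith)
  have hpow : ∀ x : ℝ, ((2 : ℝ) ^ k) ^ x = (2 : ℝ) ^ (x * k) := by
    intro x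
    rw [← Real.rpow_natCast 2 k, ← Real.rpow_mul (by norm_num), mul_comm]
  rw [hexp] at hall
  rw [← ee_eq_ecw w d k]
  have hmem : ∀ ρ, ρ ∈ (zeroSetG_finite (1 / 2 - w + 2 * d) k).toFinset ↔
      ρ ∈ zeroSetG (1 / 2 - w + 2 * d) k := fun ρ => by simp
  refine ⟨(zeroSetG_finite (1 / 2 - w + 2 * d) k).toFinset, c, uu (d - w) k, Ex, ?_, ?_, ?_, ?_, ?_, ?_⟩
  · intro ρ hρ
    obtain ⟨h0, h1, h2⟩ := (hmem ρ).1 hρ
    refine ⟨h0, by norm_num at h1 ⊢; exact h1, ?_⟩
    rw [hpow]
    (clear * - hd0 hd h2; linarith)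
  · intro ρ hρ
    obtain ⟨h0, h1, h2⟩ := (hmem ρ).1 hρ
    refine hc ρ (by (clear * - hd0 hd h1; linarith)) ?_
    by_contra hcon
    exact riemannZeta_ne_zero_of_one_le_re (not_le.1 hcon).le h0
  · intro j hj
    obtain ⟨h1, h2, -⟩ := uu_rangeG hdw (j := j) (k := k) hj
    exact ⟨h1, h2⟩
  · intro j hj j' hj' hne
    rw [← hexp]
    rcases lt_or_gt_of_ne hne with h | h
    · refine (uu_spacingG hdw hdk hj hj' h).trans ?_
      rw [abs_sub_comm]
      exact le_abs_self _
    · exact (uu_spacingG hdw hdk hj' hj h).trans (le_abs_self _)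
  · rw [hpow]
    refine hEx.trans (le_of_eq ?_)
    congr 1
    ring
  · intro j hj hjE hfew
    have h := hall j hj hjE hfew _ hmem
    refine le_trans (by norm_num) h

end Pool.Agent.M17.Helper60.KG
end

/- Helper53.KN.Helper1.KL.Final -/
section
/-!
# The explicit formula for cells of length `2^⌊k (1/2 + w - d)⌋`, `-0.33 ≤ w ≤ 1/2`

Adapted from `Helper60/KG/Final.lean` (helper60).
-/

set_option autoImplicit false
open Filter Topology MeasureTheory Complex
open scoped Classical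

namespace Pool.Agent.M17.Helper1.KL

open Pool.Agent.M17.Helper10.QRH Pool.Agent.M17.Helper69.QRH
open Pool.Agent.M17.Helper60.KG (uu_rangeG uu_spacingG ee_eq_ecw)

lemma zeroSetN_finite (s : ℝ) (k : ℕ) : (zeroSetG s k).Finite := by
  have hcomp : IsCompact (Set.Icc (57 / 100 : ℝ) 1 ×ℂ Set.Icc (-(2 : ℝ) ^ (s * k)) ((2 : ℝ) ^ (s * k))) :=
    isCompact_Icc.reProdIm isCompact_Icc
  refine hcomp.inter_riemannZetaZeros_finite.subset ?_
  rintro ρ ⟨h1, h2, h3⟩
  refine ⟨?_, mem_riemannZetaZeros.2 h1⟩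
  rw [Complex.mem_reProdIm]
  refine ⟨⟨h2.le, ?_⟩, abs_le.1 h3⟩
  by_contra h
  exact riemannZeta_ne_zero_of_one_le_re (not_le.1 h).le h1

theorem explicitCellsN : ExplicitCellsG := by
  have hJ := Helper33.KSZ.jensenEZ
  have hG : GBound := gBound (localLog hJ) (farSum hJ)
  exact explicitCellsG boxExists
    (shiftIter Helper79.QRH.kFacts
      (shift Helper79.QRH.kFacts hG (lineTwo Helper79.QRH.kFacts hG)) Helper9.KSZ.kerFacts)
    (primeSideG Helper9.KSZ.kerFacts)
    (lineFewG Helper79.QRH.kFacts hG Helper52.QRH.duality)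
    (highZerosG Helper79.QRH.kFacts (cardBox hJ))

/-- explicit formula for cells of length `2^(ecw w d k)`, line `0.575`; `w` may be negative -/
def BadZeroN (w : ℝ) : Prop := ∀ d : ℝ, 0 < d → d ≤ 1/100 → ∃ c0 : ℝ, 0 < c0 ∧ ∃ K : ℕ, ∀ k : ℕ, K ≤ k →
  ∃ (F : Finset ℂ) (c : ℂ → ℂ) (u : ℕ → ℝ) (Exc : Finset ℕ),
  (∀ ρ ∈ F, riemannZeta ρ = 0 ∧ 0.57 < ρ.re ∧ |ρ.im| ≤ ((2 : ℝ) ^ k) ^ (1/2 - w + 2 * d) + 1) ∧
  (∀ ρ ∈ F, ‖c ρ‖ ≤ 2) ∧
  (∀ j < 2 ^ (k - Helper60.KS.ecw w d k), Real.log (2 ^ k) ≤ u j ∧ u j ≤ Real.log (2 ^ k) + 1) ∧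
  (∀ j < 2 ^ (k - Helper60.KS.ecw w d k), ∀ j' < 2 ^ (k - Helper60.KS.ecw w d k), j ≠ j' →
    1 / ((2 : ℝ) ^ k) ^ (1/2 - w + 2 * d) ≤ |u j - u j'|) ∧
  (Exc.card : ℝ) ≤ ((2 : ℝ) ^ k) ^ (0.15 - 2 * w + 5 * d) ∧
  ∀ j < 2 ^ (k - Helper60.KS.ecw w d k), j ∉ Exc →
    (Helper60.KS.npr k (Helper60.KS.ecw w d k) j : ℝ) < c0 * 2 ^ Helper60.KS.ecw w d k / k →
    1/2 ≤ ‖∑ ρ ∈ F, (Helper60.KS.mz ρ : ℂ) * c ρ * Complex.exp ((ρ - 1) * (u j : ℂ))‖

/-- explicit formula for cells of length `2^(ecw w d k)` -/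
theorem badZeroN {w : ℝ} (hw0 : -(33 / 100) ≤ w) (hw : w ≤ 1 / 2) : BadZeroN w := by
  intro d hd0 hd
  obtain ⟨c₀, hc₀, K, hK⟩ := explicitCellsN (d - w) d (by linarith) (by linarith) hd0 (by linarith)
  refine ⟨c₀, hc₀, max K ⌈2 / d⌉₊, fun k hk => ?_⟩
  obtain ⟨c, Ex, hc, hEx, hall⟩ := hK k ((le_max_left _ _).trans hk)
  have hdw : -(1 / 2) ≤ d - w := by linarith
  have hexp : 1 / 2 + (d - w) + d = 1 / 2 - w + 2 * d := by ring
  have hdk : 2 ≤ d * k := by
    have h1 : (⌈2 / d⌉₊ : ℝ) ≤ k := by exact_mod_cast (le_max_right _ _).trans hk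
    have h2 := (Nat.le_ceil (2 / d)).trans h1
    rw [div_le_iff₀ hd0] at h2
    linarith
  have hpow : ∀ x : ℝ, ((2 : ℝ) ^ k) ^ x = (2 : ℝ) ^ (x * k) := by
    intro x
    rw [← Real.rpow_natCast 2 k, ← Real.rpow_mul (by norm_num), mul_comm]
  rw [hexp] at hall
  rw [← ee_eq_ecw w d k]
  have hmem : ∀ ρ, ρ ∈ (zeroSetN_finite (1 / 2 - w + 2 * d) k).toFinset ↔
      ρ ∈ zeroSetG (1 / 2 - w + 2 * d) k := fun ρ => by simp
  refine ⟨(zeroSetN_finite (1 / 2 - w + 2 * d) k).toFinset, c, uu (d - w) k, Ex, ?_, ?_, ?_, ?_, ?_, ?_⟩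
  · intro ρ hρ
    obtain ⟨h0, h1, h2⟩ := (hmem ρ).1 hρ
    refine ⟨h0, by norm_num at h1 ⊢; exact h1, ?_⟩
    rw [hpow]
    linarith
  · intro ρ hρ
    obtain ⟨h0, h1, h2⟩ := (hmem ρ).1 hρ
    refine hc ρ (by linarith) ?_
    by_contra hcon
    exact riemannZeta_ne_zero_of_one_le_re (not_le.1 hcon).le h0
  · intro j hj
    obtain ⟨h1, h2, -⟩ := uu_rangeG hdw (j := j) (k := k) hj
    exact ⟨h1, h2⟩
  · intro j hj j' hj' hne
    rw [← hexp]
    rcases lt_or_gt_of_ne hne with h | h
    · refine (uu_spacingG hdw hdk hj hj' h).trans ?_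
      rw [abs_sub_comm]
      exact le_abs_self _
    · exact (uu_spacingG hdw hdk hj' hj h).trans (le_abs_self _)
  · rw [hpow]
    refine hEx.trans (le_of_eq ?_)
    congr 1
    ring
  · intro j hj hjE hfew
    have h := hall j hj hjE hfew _ hmem
    refine le_trans (by norm_num) h

end Pool.Agent.M17.Helper1.KL
end
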