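import Mathlib
import Pool.Agent.Helper53.KM.G01
import Pool.Agent.Helper53.KM.G06
import Pool.Agent.Helper53.KM.G12
import Pool.Agent.Helper53.KM.G14
import Pool.Agent.Helper53.KM.G26

/- Helper53.KN.Helper1.KC.SLemma -/
section
/-! KC-6: SLemma (6.7) (project KSZ, MP_768c9c_nt). -/

set_option autoImplicit false
open Filter Topology
open scoped Classical ComplexConjugate

namespace Pool.Agent.M17.Helper1.KC

open Pool.Agent.M17.Helper60.KS

/-- unimodular factor -/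
noncomputable def eta (z : ℂ) : ℂ := if z = 0 then 0 else conj z / ‖z‖

theorem norm_eta_le (z : ℂ) : ‖eta z‖ ≤ 1 := by
  unfold eta
  split_ifs with h
  · simp
  · rw [norm_div, Complex.norm_conj, Complex.norm_real, norm_norm, div_self (norm_ne_zero_iff.2 h)]

theorem eta_mul (z : ℂ) : eta z * z = ‖z‖ := by
  unfold eta
  split_ifs with h
  · simp [h]
  · have h1 : (‖z‖ : ℂ) ≠ 0 := by exact_mod_cast norm_ne_zero_iff.2 h
    rw [div_mul_eq_mul_div, div_eq_iff h1, mul_comm (conj z), Complex.mul_conj']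
    ring

/-- first step: `(v |U|)^2 ≤ c0^2 |Z| ∑ |B(ρ)|^2` -/
theorem step1 (Z : Finset ℂ) (c : ℂ → ℂ) (U : Finset ℝ) (c0 v : ℝ) (hv : 0 ≤ v)
    (hc : ∀ ρ ∈ Z, ‖c ρ‖ ≤ c0)
    (hU : ∀ u ∈ U, v ≤ ‖∑ ρ ∈ Z, c ρ * Complex.exp ((ρ - 1) * (u : ℂ))‖) :
    ((U.card : ℝ) * v) ^ 2 ≤ c0 ^ 2 * (Z.card * ∑ ρ ∈ Z, ‖∑ u ∈ U,
      eta (∑ ρ ∈ Z, c ρ * Complex.exp ((ρ - 1) * (u : ℂ))) * Complex.exp ((ρ - 1) * (u : ℂ))‖ ^ 2) := by
  set S : ℝ → ℂ := fun u => ∑ ρ ∈ Z, c ρ * Complex.exp ((ρ - 1) * (u : ℂ)) with hS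
  set Bf : ℂ → ℂ := fun ρ => ∑ u ∈ U, eta (S u) * Complex.exp ((ρ - 1) * (u : ℂ)) with hB
  have h1 : (U.card : ℝ) * v ≤ ∑ u ∈ U, ‖S u‖ := by
    calc (U.card : ℝ) * v = ∑ u ∈ U, v := by rw [Finset.sum_const, nsmul_eq_mul]
      _ ≤ _ := Finset.sum_le_sum hU
  have h2 : ((∑ u ∈ U, ‖S u‖ : ℝ) : ℂ) = ∑ ρ ∈ Z, c ρ * Bf ρ := by
    push_cast
    calc ∑ u ∈ U, (‖S u‖ : ℂ) = ∑ u ∈ U, ∑ ρ ∈ Z, eta (S u) * (c ρ * Complex.exp ((ρ - 1) * (u : ℂ))) := by
          refine Finset.sum_congr rfl (fun u _ => ?_)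
          rw [← Finset.mul_sum, ← eta_mul]
      _ = ∑ ρ ∈ Z, ∑ u ∈ U, eta (S u) * (c ρ * Complex.exp ((ρ - 1) * (u : ℂ))) := Finset.sum_comm
      _ = _ := by
          refine Finset.sum_congr rfl (fun ρ _ => ?_)
          rw [hB, Finset.mul_sum]
          exact Finset.sum_congr rfl (fun u _ => by ring)
  have h3 : ∑ u ∈ U, ‖S u‖ ≤ c0 * ∑ ρ ∈ Z, ‖Bf ρ‖ := by
    have hnn : 0 ≤ ∑ u ∈ U, ‖S u‖ := Finset.sum_nonneg (fun _ _ => norm_nonneg _)
    calc ∑ u ∈ U, ‖S u‖ = ‖((∑ u ∈ U, ‖S u‖ : ℝ) : ℂ)‖ := by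
          rw [Complex.norm_real, Real.norm_of_nonneg hnn]
      _ = ‖∑ ρ ∈ Z, c ρ * Bf ρ‖ := by rw [h2]
      _ ≤ ∑ ρ ∈ Z, ‖c ρ * Bf ρ‖ := norm_sum_le _ _
      _ ≤ ∑ ρ ∈ Z, c0 * ‖Bf ρ‖ := by
          refine Finset.sum_le_sum (fun ρ hρ => ?_)
          rw [norm_mul]
          exact mul_le_mul_of_nonneg_right (hc ρ hρ) (norm_nonneg _)
      _ = _ := by rw [Finset.mul_sum]
  have h4 : (∑ ρ ∈ Z, ‖Bf ρ‖) ^ 2 ≤ Z.card * ∑ ρ ∈ Z, ‖Bf ρ‖ ^ 2 := sq_sum_le_card_mul_sum_sq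
  calc ((U.card : ℝ) * v) ^ 2 ≤ (c0 * ∑ ρ ∈ Z, ‖Bf ρ‖) ^ 2 :=
        pow_le_pow_left₀ (by (clear * - hv; positivity)) (h1.trans h3) 2
    _ = c0 ^ 2 * (∑ ρ ∈ Z, ‖Bf ρ‖) ^ 2 := by ring
    _ ≤ _ := by (clear * - h4; gcongr)

theorem cpow_eq_exp_log {n : ℕ} (hn : 0 < n) (s : ℂ) :
    (n : ℂ) ^ (-s) = Complex.exp (-(Real.log n : ℂ) * s) := by
  have hn' : (n : ℂ) ≠ 0 := by exact_mod_cast hn.ne'
  rw [Complex.cpow_def_of_ne_zero hn', ← Complex.ofReal_natCast, ← Complex.ofReal_log (by positivity)]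
  congr 1
  ring

/-- the product `B(ρ) G(ρ)` as one exponential sum -/
theorem prod_eq (U : Finset ℝ) (e : ℝ → ℂ) (g : ℕ → ℂ) (Q h : ℕ) (s : ℂ) :
    (∑ u ∈ U, e u * Complex.exp ((s - 1) * (u : ℂ))) * DP g Q h s =
      ∑ j ∈ U ×ˢ Finset.Ioc Q (h * Q), (e j.1 * g j.2 * Complex.exp (-(j.1 : ℂ))) *
        Complex.exp (((j.1 - Real.log j.2 : ℝ) : ℂ) * s) := by
  unfold DP
  rw [Finset.sum_mul_sum, Finset.sum_product]
  refine Finset.sum_congr rfl (fun u _ => Finset.sum_congr rfl (fun n hn => ?_))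
  rw [Finset.mem_Ioc] at hn
  rw [cpow_eq_exp_log (by omega)]
  have : Complex.exp (((u - Real.log n : ℝ) : ℂ) * s) =
      Complex.exp ((u : ℂ) * s) * Complex.exp (-(Real.log n : ℂ) * s) := by
    rw [← Complex.exp_add]; congr 1; push_cast; ring
  rw [this]
  have h2 : Complex.exp ((s - 1) * (u : ℂ)) = Complex.exp (-(u : ℂ)) * Complex.exp ((u : ℂ) * s) := by
    rw [← Complex.exp_add]; congr 1; ring
  rw [h2]
  ring

/-- size of one term on the line `σ` -/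
theorem term_le {X b b' r σ u : ℝ} {Q h n : ℕ} (hX : 8 ≤ X) (hr : r = 1 / Real.log X)
    (hr2 : r ≤ 1 / 2) (hr0 : 0 < r)
    (hQ1 : 1 ≤ Q) (hh : 1 ≤ h) (hQX : (Q : ℝ) ≤ X ^ 2) (hb : 0 ≤ b) (hb1 : b' ≤ 1)
    (hσ1 : b - r ≤ σ) (hσ2 : σ ≤ b' + r) (hu1 : Real.log X ≤ u) (hu2 : u ≤ Real.log X + 1)
    (hn1 : Q < n) (hn2 : n ≤ h * Q) :
    Real.exp (-u) * Real.exp (σ * (u - Real.log n)) ≤
      (Real.exp 2 * X ^ (b' - 1)) * (Real.exp 2 * h * (Q : ℝ) ^ (-b)) := by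
  have hX0 : 0 < X := by (clear * - hX hr2 hr0; linarith)
  have hlX : 0 < Real.log X := Real.log_pos (by (clear * - hX hr2 hr0; linarith))
  have hQr : (1 : ℝ) ≤ Q := by exact_mod_cast hQ1
  have hhr : (1 : ℝ) ≤ h := by exact_mod_cast hh
  have hn0 : (0 : ℝ) < n := by exact_mod_cast (by omega : 0 < n)
  have hn1r : (Q : ℝ) ≤ n := by exact_mod_cast hn1.le
  have hn2r : (n : ℝ) ≤ h * Q := by exact_mod_cast hn2
  have hrl : r * Real.log X = 1 := by rw [hr]; field_simp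
  have hlogn : 0 ≤ Real.log n := Real.log_nonneg (by (clear * - hQr hn1r; linarith))
  have e1 : Real.exp (-u) * Real.exp (σ * (u - Real.log n)) =
      Real.exp ((σ - 1) * u) * Real.exp (-σ * Real.log n) := by
    rw [← Real.exp_add, ← Real.exp_add]; congr 1; ring
  rw [e1]
  have hX2 : Real.exp 2 * X ^ (b' - 1) = Real.exp (2 + (b' - 1) * Real.log X) := by
    rw [Real.exp_add, Real.rpow_def_of_pos hX0, mul_comm (Real.log X)]
  have hQ2 : Real.exp 2 * h * (Q : ℝ) ^ (-b) = Real.exp (2 + Real.log h + (-b) * Real.log Q) := by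
    rw [Real.exp_add, Real.exp_add, Real.exp_log (by (clear * - hr2 hr0 hhr; linarith)), Real.rpow_def_of_pos (by linarith),
      mul_comm (Real.log Q)]
  rw [hX2, hQ2]
  have hQlog : 0 ≤ Real.log Q := Real.log_nonneg hQr
  have hhlog : 0 ≤ Real.log h := Real.log_nonneg hhr
  have hlogn2 : Real.log n ≤ Real.log h + Real.log Q := by
    rw [← Real.log_mul (by (clear * - hr2 hr0 hhr; linarith)) (by (clear * - hr2 hr0 hQr; linarith))]
    exact Real.log_le_log hn0 hn2r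
  have hlogn3 : Real.log Q ≤ Real.log n := Real.log_le_log (by (clear * - hr2 hr0 hQr; linarith)) hn1r
  have hlogQX : Real.log Q ≤ 2 * Real.log X := by
    have := Real.log_le_log (by (clear * - hr2 hr0 hQr; linarith)) hQX
    rwa [Real.log_pow] at this
  apply mul_le_mul
  · apply Real.exp_le_exp.2
    have h1 : (σ - 1) * u ≤ (b' + r - 1) * u := by
      apply mul_le_mul_of_nonneg_right _ (by (clear * - hu1 hlX; linarith)); (clear * - hσ2; linarith)
    have h2 : (b' - 1) * u ≤ (b' - 1) * Real.log X := by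
      apply mul_le_mul_of_nonpos_left hu1; (clear * - hb1; linarith)
    have h3 : r * u ≤ r * (Real.log X + 1) := mul_le_mul_of_nonneg_left hu2 hr0.le
    (clear * - hr2 hr0 hrl h1 h2 h3; nlinarith)
  · apply Real.exp_le_exp.2
    have h1 : -σ * Real.log n ≤ (r - b) * Real.log n := by
      apply mul_le_mul_of_nonneg_right _ hlogn; (clear * - hσ1; linarith)
    have h2 : r * Real.log n ≤ r * (Real.log h + Real.log Q) := mul_le_mul_of_nonneg_left hlogn2 hr0.le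
    have h3 : b * Real.log Q ≤ b * Real.log n := mul_le_mul_of_nonneg_left hlogn3 hb
    have h4 : r * Real.log Q ≤ r * (2 * Real.log X) := mul_le_mul_of_nonneg_left hlogQX hr0.le
    have h5 : r * Real.log h ≤ 1 * Real.log h := mul_le_mul_of_nonneg_right (by (clear * - hr2 hr0; linarith)) hhlog
    (clear * - hrl h1 h2 h3 h4 h5; nlinarith)
  · positivity
  · positivity

theorem log_sq_le {ε : ℝ} (hε : 0 < ε) {X : ℝ} (hX : 1 ≤ X) :
    Real.log X ^ 2 ≤ (4 / ε) ^ 2 * X ^ (ε / 2) := by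
  have hX0 : 0 < X := by (clear * - hX; linarith)
  have h1 : Real.log X ≤ X ^ (ε / 4) / (ε / 4) := Real.log_le_rpow_div hX0.le (by positivity)
  have h0 : 0 ≤ Real.log X := Real.log_nonneg hX
  calc Real.log X ^ 2 ≤ (X ^ (ε / 4) / (ε / 4)) ^ 2 := pow_le_pow_left₀ h0 h1 2
    _ = (4 / ε) ^ 2 * (X ^ (ε / 4)) ^ 2 := by field_simp
    _ = _ := by
        rw [← Real.rpow_natCast (X ^ (ε / 4)), ← Real.rpow_mul hX0.le]
        congr 2; push_cast; ring

theorem log8 : 2 ≤ Real.log 8 := by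
  have : Real.log 8 = 3 * Real.log 2 := by
    rw [show (8 : ℝ) = 2 ^ 3 by norm_num, Real.log_pow]; norm_num
  rw [this]; (clear * -; linarith [Real.log_two_gt_d9])

theorem sLemma : DiscMV → TwoWalk → SLemma := by
  intro hD hT h ε hh hε
  obtain ⟨C1, hC1, h1⟩ := hD
  obtain ⟨C2, hC2, h2⟩ := hT h (ε / 2) hh (by positivity)
  refine ⟨C1 * (4 / ε) ^ 2 * (Real.exp 2 * (Real.exp 2 * h)) ^ 2 * C2, by (clear * - hC1 hε hh hC2; positivity), ?_⟩
  intro X T b b' B V c0 v Z c g Q U hX hT1 hTX hQ1 hQX hb hbb' hb'b hb'1 hV hB hc0 hv hg hZ1 hZ2 hZ3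
    hc hU1 hU2 hU3
  have hX0 : 0 < X := by (clear * - hX; linarith)
  have hlX : 2 ≤ Real.log X := log8.trans (Real.log_le_log (by norm_num) hX)
  set r : ℝ := 1 / Real.log X with hr
  have hr0 : 0 < r := by (clear * - hlX; positivity)
  have hr2 : r ≤ 1 / 2 := one_div_le_one_div_of_le (by norm_num) hlX
  set e : ℝ → ℂ := fun u => eta (∑ ρ ∈ Z, c ρ * Complex.exp ((ρ - 1) * (u : ℂ))) with he
  set Bf : ℂ → ℂ := fun ρ => ∑ u ∈ U, e u * Complex.exp ((ρ - 1) * (u : ℂ)) with hBf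
  have s1 := step1 Z c U c0 v hv hc hU3
  set D : ℝ := B * ((Real.exp 2 * X ^ (b' - 1)) * (Real.exp 2 * h * (Q : ℝ) ^ (-b))) with hDdef
  have hD0 : 0 ≤ D := by (clear * - hB hX hh hQ1; positivity)
  have key := h1 (ℝ × ℕ) (U ×ˢ Finset.Ioc Q (h * Q))
    (fun j => e j.1 * g j.2 * Complex.exp (-(j.1 : ℂ))) (fun j => j.1 - Real.log j.2)
    T b b' r (D ^ 2 * ET U T Q (h * Q)) Z hT1 hr0 hr2 hbb' hb'b hZ1 hZ2 (by
      intro σ hσ1 hσ2
      have hterm : ∀ j ∈ U ×ˢ Finset.Ioc Q (h * Q),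
          ‖e j.1 * g j.2 * Complex.exp (-(j.1 : ℂ))‖ * Real.exp (σ * (j.1 - Real.log j.2)) ≤ D := by
        intro j hj
        rw [Finset.mem_product, Finset.mem_Ioc] at hj
        have hu := hU1 j.1 hj.1
        have ht := term_le hX hr hr2 hr0 hQ1 hh hQX hb hb'1 hσ1 hσ2 hu.1 hu.2 hj.2.1 hj.2.2
        rw [norm_mul, norm_mul]
        have e1 : ‖Complex.exp (-(j.1 : ℂ))‖ = Real.exp (-j.1) := by
          rw [Complex.norm_exp]; simp
        rw [e1]
        have e2 : ‖e j.1‖ ≤ 1 := norm_eta_le _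
        calc ‖e j.1‖ * ‖g j.2‖ * Real.exp (-j.1) * Real.exp (σ * (j.1 - Real.log j.2)) =
              (‖e j.1‖ * ‖g j.2‖) * (Real.exp (-j.1) * Real.exp (σ * (j.1 - Real.log j.2))) := by ring
          _ ≤ (1 * B) * ((Real.exp 2 * X ^ (b' - 1)) * (Real.exp 2 * h * (Q : ℝ) ^ (-b))) := by
              have := hg j.2
              (clear * - e2 this ht hB; gcongr)
          _ = D := by rw [one_mul]
      calc ∑ j ∈ U ×ˢ Finset.Ioc Q (h * Q), ∑ k ∈ U ×ˢ Finset.Ioc Q (h * Q),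
            (if |(j.1 - Real.log j.2) - (k.1 - Real.log k.2)| ≤ 1 / T then
              ‖e j.1 * g j.2 * Complex.exp (-(j.1 : ℂ))‖ * ‖e k.1 * g k.2 * Complex.exp (-(k.1 : ℂ))‖ *
              Real.exp (σ * ((j.1 - Real.log j.2) + (k.1 - Real.log k.2))) else 0) ≤
            ∑ j ∈ U ×ˢ Finset.Ioc Q (h * Q), ∑ k ∈ U ×ˢ Finset.Ioc Q (h * Q),
            (if |(j.1 - Real.log j.2) - (k.1 - Real.log k.2)| ≤ 1 / T then D ^ 2 else 0) := by
            refine Finset.sum_le_sum (fun j hj => Finset.sum_le_sum (fun k hk => ?_))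
            split_ifs
            · have hj' := hterm j hj
              have hk' := hterm k hk
              have e3 : Real.exp (σ * ((j.1 - Real.log j.2) + (k.1 - Real.log k.2))) =
                  Real.exp (σ * (j.1 - Real.log j.2)) * Real.exp (σ * (k.1 - Real.log k.2)) := by
                rw [← Real.exp_add]; congr 1; ring
              rw [e3]
              calc _ = (‖e j.1 * g j.2 * Complex.exp (-(j.1 : ℂ))‖ * Real.exp (σ * (j.1 - Real.log j.2))) *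
                    (‖e k.1 * g k.2 * Complex.exp (-(k.1 : ℂ))‖ * Real.exp (σ * (k.1 - Real.log k.2))) := by
                    ring
                _ ≤ D * D := mul_le_mul hj' hk' (by positivity) hD0
                _ = D ^ 2 := by ring
            · exact le_rfl
        _ = D ^ 2 * ((((U ×ˢ Finset.Ioc Q (h * Q)) ×ˢ (U ×ˢ Finset.Ioc Q (h * Q))).filter
              (fun p => |(p.1.1 - Real.log p.1.2) - (p.2.1 - Real.log p.2.2)| ≤ 1 / T)).card : ℝ) := by
            rw [← Finset.sum_product', ← Finset.sum_filter, Finset.sum_const, nsmul_eq_mul, mul_comm]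
        _ ≤ _ := by
            apply mul_le_mul_of_nonneg_left _ (by (clear * -; positivity))
            unfold ET
            have : (((U ×ˢ Finset.Ioc Q (h * Q)) ×ˢ (U ×ˢ Finset.Ioc Q (h * Q))).filter
              (fun p => |(p.1.1 - Real.log p.1.2) - (p.2.1 - Real.log p.2.2)| ≤ 1 / T)).card ≤
              (((U ×ˢ Finset.Icc Q (h * Q)) ×ˢ (U ×ˢ Finset.Icc Q (h * Q))).filter
              (fun p => |(p.1.1 - Real.log p.1.2) - (p.2.1 - Real.log p.2.2)| ≤ 1 / T)).card := by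
              apply Finset.card_le_card
              apply Finset.filter_subset_filter
              have : Finset.Ioc Q (h * Q) ⊆ Finset.Icc Q (h * Q) := Finset.Ioc_subset_Icc_self
              exact Finset.product_subset_product (Finset.product_subset_product_right this)
                (Finset.product_subset_product_right this)
            exact_mod_cast this)
  have hBG : V ^ 2 * ∑ ρ ∈ Z, ‖Bf ρ‖ ^ 2 ≤ C1 / r ^ 2 * T * (D ^ 2 * ET U T Q (h * Q)) := by
    refine le_trans ?_ key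
    rw [Finset.mul_sum]
    refine Finset.sum_le_sum (fun ρ hρ => ?_)
    rw [← prod_eq U e g Q h ρ, norm_mul, mul_pow, mul_comm (V ^ 2)]
    have := hZ3 ρ hρ
    (clear * - hV this; gcongr)
  have hET := h2 X T (Real.log X) U Q (by (clear * - hX hr0 hr2; linarith)) hT1 hTX hQ1 hQX hU1 hU2
  set R : ℝ := U.card * Q * (1 + ((U.card : ℝ) ^ 3 / T) ^ (1/4 : ℝ)) +
    (U.card : ℝ) ^ 2 * (Q : ℝ) ^ 2 / T with hR
  have hR0 : 0 ≤ R := by (clear * - hQ1 hT1; positivity)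
  have hlog := log_sq_le hε (X := X) (by (clear * - hX hr0 hr2; linarith))
  have hr2' : 1 / r ^ 2 = Real.log X ^ 2 := by rw [hr]; field_simp
  have hDsq : D ^ 2 = B ^ 2 * (Real.exp 2 * (Real.exp 2 * h)) ^ 2 * X ^ (2 * (b' - 1)) * (Q : ℝ) ^ (-2 * b) := by
    have hQ0 : (0 : ℝ) < Q := by exact_mod_cast hQ1
    have e1 : X ^ (2 * (b' - 1)) = (X ^ (b' - 1)) ^ 2 := by
      rw [← Real.rpow_natCast (X ^ (b' - 1)), ← Real.rpow_mul hX0.le]; congr 1; push_cast; ring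
    have e2 : (Q : ℝ) ^ (-2 * b) = ((Q : ℝ) ^ (-b)) ^ 2 := by
      rw [← Real.rpow_natCast ((Q : ℝ) ^ (-b)), ← Real.rpow_mul hQ0.le]; congr 1; push_cast; ring
    rw [e1, e2, hDdef]; ring
  have hXε : X ^ ε = X ^ (ε / 2) * X ^ (ε / 2) := by
    rw [← Real.rpow_add hX0]; congr 1; ring
  calc (U.card : ℝ) ^ 2 * v ^ 2 * V ^ 2 = ((U.card : ℝ) * v) ^ 2 * V ^ 2 := by ring
    _ ≤ (c0 ^ 2 * (Z.card * ∑ ρ ∈ Z, ‖Bf ρ‖ ^ 2)) * V ^ 2 := by (clear * - s1 hV; gcongr)
    _ = c0 ^ 2 * Z.card * (V ^ 2 * ∑ ρ ∈ Z, ‖Bf ρ‖ ^ 2) := by ring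
    _ ≤ c0 ^ 2 * Z.card * (C1 / r ^ 2 * T * (D ^ 2 * ET U T Q (h * Q))) := by (clear * - hBG; gcongr)
    _ = c0 ^ 2 * Z.card * (C1 * (1 / r ^ 2) * T * (D ^ 2 * ET U T Q (h * Q))) := by ring
    _ = c0 ^ 2 * Z.card * (C1 * Real.log X ^ 2 * T * (D ^ 2 * ET U T Q (h * Q))) := by rw [hr2']
    _ ≤ c0 ^ 2 * Z.card * (C1 * ((4 / ε) ^ 2 * X ^ (ε / 2)) * T * (D ^ 2 * (C2 * X ^ (ε / 2) * R))) := by
        (clear * - hlog hC1 hT1 hET hε hX; gcongr)
    _ = _ := by rw [hDsq, hXε]; ring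

end Pool.Agent.M17.Helper1.KC
end

/- Helper53.KN.Helper9.KC.Subharm -/
section
/-! KC-2, first part: the area mean value inequality. -/

set_option autoImplicit false
open MeasureTheory Set

namespace Pool.Agent.M17.Helper9.KC

theorem circle_mean {g : ℂ → ℂ} (hg : Differentiable ℂ g) (z : ℂ) (R : ℝ) :
    2 * Real.pi * ‖g z‖ ≤ ∫ θ in Ioo (-Real.pi) Real.pi,
      ‖g (z + (R * Real.cos θ : ℝ) + (R * Real.sin θ : ℝ) * Complex.I)‖ := by
  have hpi := Real.pi_pos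
  have h1 : Real.circleAverage g z R = g z := hg.diffContOnCl.circleAverage
  have h2 : g z = (2 * Real.pi)⁻¹ • ∫ θ in (0 : ℝ)..2 * Real.pi, g (circleMap z R θ) := by
    rw [← h1]; rfl
  have hper : Function.Periodic (fun θ : ℝ => g (circleMap z R θ)) (2 * Real.pi) := by
    intro θ
    simp only [periodic_circleMap z R θ]
  have h3 : ∫ θ in (0 : ℝ)..2 * Real.pi, g (circleMap z R θ) =
      ∫ θ in (-Real.pi)..Real.pi, g (circleMap z R θ) := by
    have := hper.intervalIntegral_add_eq 0 (-Real.pi)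
    rw [zero_add] at this
    rw [this]
    congr 1
    ring
  have h4 : ‖g z‖ ≤ (2 * Real.pi)⁻¹ * ∫ θ in (-Real.pi)..Real.pi, ‖g (circleMap z R θ)‖ := by
    rw [h2, norm_smul, Real.norm_of_nonneg (by positivity), h3]
    refine mul_le_mul_of_nonneg_left ?_ (by positivity)
    exact intervalIntegral.norm_integral_le_integral_norm (by linarith)
  have h5 : 2 * Real.pi * ‖g z‖ ≤ ∫ θ in (-Real.pi)..Real.pi, ‖g (circleMap z R θ)‖ := by
    have h6 := mul_le_mul_of_nonneg_left h4 (show 0 ≤ 2 * Real.pi by positivity)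
    rwa [← mul_assoc, mul_inv_cancel₀ (by positivity), one_mul] at h6
  refine h5.trans (le_of_eq ?_)
  rw [intervalIntegral.integral_of_le (by linarith), integral_Ioc_eq_integral_Ioo]
  refine setIntegral_congr_fun measurableSet_Ioo ?_
  intro θ _
  show ‖g (circleMap z R θ)‖ = _
  congr 2
  rw [circleMap, Complex.exp_mul_I]
  push_cast
  ring

/-- the open disc of radius `r` about `z`, in coordinates -/
def disc (z : ℂ) (r : ℝ) : Set (ℝ × ℝ) := {p | (p.1 - z.re) ^ 2 + (p.2 - z.im) ^ 2 < r ^ 2}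

theorem measurableSet_disc (z : ℂ) (r : ℝ) : MeasurableSet (disc z r) :=
  measurableSet_lt (by fun_prop) (by fun_prop)

/-- the area mean value inequality, in coordinates -/
theorem area_mean {g : ℂ → ℂ} (hg : Differentiable ℂ g) (z : ℂ) {r : ℝ} (hr : 0 < r) :
    Real.pi * r ^ 2 * ‖g z‖ ≤
      ∫ p in disc z r, ‖g ((p.1 : ℂ) + (p.2 : ℂ) * Complex.I)‖ := by
  have hpi := Real.pi_pos
  have hgc : Continuous g := hg.continuous
  let φ : ℝ × ℝ → ℝ := (disc z r).indicator fun p => ‖g ((p.1 : ℂ) + (p.2 : ℂ) * Complex.I)‖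
  have h0 : ∫ p in disc z r, ‖g ((p.1 : ℂ) + (p.2 : ℂ) * Complex.I)‖ = ∫ p, φ p :=
    (integral_indicator (measurableSet_disc z r)).symm
  have h1 : ∫ p, φ p = ∫ p : ℝ × ℝ, φ (p + (z.re, z.im)) :=
    (integral_add_right_eq_self φ (z.re, z.im)).symm
  have h2 : ∫ p : ℝ × ℝ, φ (p + (z.re, z.im)) =
      ∫ p in polarCoord.target, p.1 • φ (polarCoord.symm p + (z.re, z.im)) :=
    (integral_comp_polarCoord_symm (fun p => φ (p + (z.re, z.im)))).symm
  let ψ : ℝ × ℝ → ℝ := fun p => p.1 * ‖g (z + (p.1 * Real.cos p.2 : ℝ) +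
    (p.1 * Real.sin p.2 : ℝ) * Complex.I)‖
  have h3 : ∫ p in polarCoord.target, p.1 • φ (polarCoord.symm p + (z.re, z.im)) =
      ∫ p in polarCoord.target, (Ioo (0 : ℝ) r ×ˢ Ioo (-Real.pi) Real.pi).indicator ψ p := by
    refine setIntegral_congr_fun (by
      rw [polarCoord_target]
      exact measurableSet_Ioi.prod measurableSet_Ioo) ?_
    intro p hp
    rw [polarCoord_target] at hp
    obtain ⟨hp1, hp2⟩ := hp
    have hp1' : 0 < p.1 := hp1
    show p.1 • φ (polarCoord.symm p + (z.re, z.im)) = _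
    have hsymm : polarCoord.symm p = (p.1 * Real.cos p.2, p.1 * Real.sin p.2) := rfl
    rw [hsymm]
    by_cases hlt : p.1 < r
    · rw [indicator_of_mem (show p ∈ Ioo (0 : ℝ) r ×ˢ Ioo (-Real.pi) Real.pi from
        ⟨⟨hp1', hlt⟩, hp2⟩)]
      show p.1 • (disc z r).indicator _ _ = _
      rw [indicator_of_mem]
      · show p.1 * ‖g _‖ = p.1 * ‖g _‖
        congr 3
        apply Complex.ext <;> simp <;> ring
      · show (p.1 * Real.cos p.2 + z.re - z.re) ^ 2 + (p.1 * Real.sin p.2 + z.im - z.im) ^ 2 < r ^ 2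
        have : (p.1 * Real.cos p.2 + z.re - z.re) ^ 2 + (p.1 * Real.sin p.2 + z.im - z.im) ^ 2 =
            p.1 ^ 2 * (Real.cos p.2 ^ 2 + Real.sin p.2 ^ 2) := by ring
        rw [this, Real.cos_sq_add_sin_sq, mul_one]
        exact pow_lt_pow_left₀ hlt hp1'.le (by norm_num)
    · rw [indicator_of_notMem (show p ∉ Ioo (0 : ℝ) r ×ˢ Ioo (-Real.pi) Real.pi from
        fun h => hlt h.1.2)]
      show p.1 • (disc z r).indicator _ _ = _
      rw [indicator_of_notMem]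
      · simp
      · show ¬ (p.1 * Real.cos p.2 + z.re - z.re) ^ 2 + (p.1 * Real.sin p.2 + z.im - z.im) ^ 2 < r ^ 2
        have : (p.1 * Real.cos p.2 + z.re - z.re) ^ 2 + (p.1 * Real.sin p.2 + z.im - z.im) ^ 2 =
            p.1 ^ 2 * (Real.cos p.2 ^ 2 + Real.sin p.2 ^ 2) := by ring
        rw [this, Real.cos_sq_add_sin_sq, mul_one, not_lt]
        exact pow_le_pow_left₀ hr.le (not_lt.1 hlt) 2
  have h4 : ∫ p in polarCoord.target, (Ioo (0 : ℝ) r ×ˢ Ioo (-Real.pi) Real.pi).indicator ψ p =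
      ∫ p in Ioo (0 : ℝ) r ×ˢ Ioo (-Real.pi) Real.pi, ψ p := by
    rw [setIntegral_indicator (measurableSet_Ioo.prod measurableSet_Ioo)]
    congr 2
    rw [polarCoord_target]
    ext p
    constructor
    · rintro ⟨-, h⟩
      exact h
    · intro h
      exact ⟨⟨h.1.1, h.2⟩, h⟩
  have hψc : Continuous ψ := by
    show Continuous fun p : ℝ × ℝ => p.1 * ‖g (z + (p.1 * Real.cos p.2 : ℝ) +
      (p.1 * Real.sin p.2 : ℝ) * Complex.I)‖
    fun_prop
  have hψi : IntegrableOn ψ (Ioo (0 : ℝ) r ×ˢ Ioo (-Real.pi) Real.pi) (volume.prod volume) := by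
    have hK : IsCompact (Icc (0 : ℝ) r ×ˢ Icc (-Real.pi) Real.pi) := isCompact_Icc.prod isCompact_Icc
    exact (hψc.continuousOn.integrableOn_compact hK).mono_set
      (prod_mono Ioo_subset_Icc_self Ioo_subset_Icc_self)
  have h5 : ∫ p in Ioo (0 : ℝ) r ×ˢ Ioo (-Real.pi) Real.pi, ψ p =
      ∫ x in Ioo (0 : ℝ) r, ∫ y in Ioo (-Real.pi) Real.pi, ψ (x, y) :=
    setIntegral_prod ψ hψi
  rw [h0, h1, h2, h3, h4, h5]
  have h6 : ∫ x in Ioo (0 : ℝ) r, x * (2 * Real.pi * ‖g z‖) = Real.pi * r ^ 2 * ‖g z‖ := by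
    rw [integral_mul_const, ← integral_Ioc_eq_integral_Ioo,
      ← intervalIntegral.integral_of_le hr.le, integral_id]
    ring
  rw [← h6]
  have hprod : IntegrableOn (fun x : ℝ => ∫ y in Ioo (-Real.pi) Real.pi, ψ (x, y))
      (Ioo (0 : ℝ) r) := by
    have := hψi
    rw [IntegrableOn, ← Measure.prod_restrict] at this
    exact this.integral_prod_left
  refine setIntegral_mono_on ?_ hprod measurableSet_Ioo ?_
  · have : Continuous fun x : ℝ => x * (2 * Real.pi * ‖g z‖) := by fun_prop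
    exact (this.continuousOn.integrableOn_Icc).mono_set Ioo_subset_Icc_self
  · intro x hx
    show x * (2 * Real.pi * ‖g z‖) ≤ ∫ y in Ioo (-Real.pi) Real.pi, x * ‖g (z +
      (x * Real.cos y : ℝ) + (x * Real.sin y : ℝ) * Complex.I)‖
    rw [integral_const_mul]
    exact mul_le_mul_of_nonneg_left (circle_mean hg z x) hx.1.le

end Pool.Agent.M17.Helper9.KC
end

/- Helper53.KN.Helper9.KC.DiscMV -/
section
/-! KC-2: mean value at well spaced complex points. -/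

set_option autoImplicit false
open MeasureTheory Set

namespace Pool.Agent.M17.Helper9.KC

open Pool.Agent.M17.Helper60.KS

/-- sums over well spaced points are bounded by area integrals over rectangles -/
theorem sum_area {g : ℂ → ℂ} (hg : Differentiable ℂ g) {Z : Finset ℂ} {b b' T r : ℝ} (hr : 0 < r)
    (hr2 : r ≤ 1 / 2) (hZ : InStrip Z b b' T) (hs : Spaced1 Z) :
    Real.pi * r ^ 2 * ∑ ρ ∈ Z, ‖g ρ‖ ≤
      ∫ x in Icc (b - r) (b' + r), ∫ t in Icc (-(T + 1 / 2)) (T + 1 / 2),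
        ‖g ((x : ℂ) + (t : ℂ) * Complex.I)‖ := by
  let G : ℝ × ℝ → ℝ := fun p => ‖g ((p.1 : ℂ) + (p.2 : ℂ) * Complex.I)‖
  have hG : Continuous G := by
    have := hg.continuous
    show Continuous fun p : ℝ × ℝ => ‖g ((p.1 : ℂ) + (p.2 : ℂ) * Complex.I)‖
    fun_prop
  let K : Set (ℝ × ℝ) := Icc (b - r) (b' + r) ×ˢ Icc (-(T + 1 / 2)) (T + 1 / 2)
  have hK : IsCompact K := isCompact_Icc.prod isCompact_Icc
  have hGi : IntegrableOn G K := hG.continuousOn.integrableOn_compact hK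
  have habs : ∀ {x y : ℝ}, x ^ 2 + y ^ 2 < r ^ 2 → |x| < r ∧ |y| < r := by
    intro x y h
    constructor
    · exact abs_lt_of_sq_lt_sq (by (clear * - h; nlinarith [sq_nonneg y])) hr.le
    · exact abs_lt_of_sq_lt_sq (by (clear * - h; nlinarith [sq_nonneg x])) hr.le
  have hsub : ∀ ρ ∈ Z, disc ρ r ⊆ K := by
    intro ρ hρ p hp
    obtain ⟨h1, h2, h3⟩ := hZ ρ hρ
    obtain ⟨h4, h5⟩ := habs (show (p.1 - ρ.re) ^ 2 + (p.2 - ρ.im) ^ 2 < r ^ 2 from hp)
    rw [abs_lt] at h4 h5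
    rw [abs_le] at h3
    exact ⟨⟨by (clear * - h1 h4; linarith), by linarith⟩, ⟨by linarith, by linarith⟩⟩
  have hdis : Set.Pairwise (↑Z : Set ℂ) (Function.onFun Disjoint fun ρ => disc ρ r) := by
    intro ρ hρ ρ' hρ' hne
    rw [Function.onFun, Set.disjoint_left]
    intro p hp hp'
    have h1 := hs ρ hρ ρ' hρ' hne
    have h2 := (habs (show (p.1 - ρ.re) ^ 2 + (p.2 - ρ.im) ^ 2 < r ^ 2 from hp)).2
    have h3 := (habs (show (p.1 - ρ'.re) ^ 2 + (p.2 - ρ'.im) ^ 2 < r ^ 2 from hp')).2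
    rw [abs_lt] at h2 h3
    rcases le_abs.1 h1 with h | h <;> linarith
  have h1 : Real.pi * r ^ 2 * ∑ ρ ∈ Z, ‖g ρ‖ ≤ ∑ ρ ∈ Z, ∫ p in disc ρ r, G p := by
    rw [Finset.mul_sum]
    exact Finset.sum_le_sum fun ρ _ => area_mean hg ρ hr
  have h2 : ∑ ρ ∈ Z, ∫ p in disc ρ r, G p = ∫ p in ⋃ ρ ∈ Z, disc ρ r, G p :=
    (integral_biUnion_finset Z (fun ρ _ => measurableSet_disc ρ r) hdis
      (fun ρ hρ => hGi.mono_set (hsub ρ hρ))).symm
  have h3 : ∫ p in ⋃ ρ ∈ Z, disc ρ r, G p ≤ ∫ p in K, G p := by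
    refine setIntegral_mono_set hGi (Filter.Eventually.of_forall fun p => norm_nonneg _) ?_
    refine HasSubset.Subset.eventuallyLE ?_
    exact Set.iUnion₂_subset hsub
  have h4 : ∫ p in K, G p = ∫ x in Icc (b - r) (b' + r),
      ∫ t in Icc (-(T + 1 / 2)) (T + 1 / 2), G (x, t) := setIntegral_prod G hGi
  rw [h2] at h1
  exact h1.trans (h3.trans h4.le)

theorem discMV : MeanValue → DiscMV := by
  rintro ⟨C₀, hC₀, hMV⟩
  refine ⟨2 * Real.exp (9 / 4) * C₀ / Real.pi, by (clear * - hC₀; positivity), ?_⟩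
  intro ι S a y T b b' r M Z hT hr hr2 hbb hbb' hZ hs hM
  have hpi := Real.pi_pos
  let F : ℂ → ℂ := fun s => ∑ j ∈ S, a j * Complex.exp ((y j : ℂ) * s)
  have hF : Differentiable ℂ F := by
    show Differentiable ℂ fun s => ∑ j ∈ S, a j * Complex.exp ((y j : ℂ) * s)
    fun_prop
  have hF2 : Differentiable ℂ fun s => F s ^ 2 := hF.pow 2
  have hM0 : 0 ≤ M := by
    refine le_trans ?_ (hM b (by (clear * - hr; linarith)) (by (clear * - hr hbb; linarith)))
    refine Finset.sum_nonneg fun j _ => Finset.sum_nonneg fun k _ => ?_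
    split_ifs
    · (clear * -; positivity)
    · exact le_rfl
  have key : Real.pi * r ^ 2 * ∑ ρ ∈ Z, ‖F ρ ^ 2‖ ≤ 2 * (Real.exp (9 / 4) * (C₀ * T * M)) := by
    refine (sum_area hF2 hr hr2 hZ hs).trans ?_
    -- each vertical line
    have hline : ∀ x ∈ Icc (b - r) (b' + r), ∫ t in Icc (-(T + 1 / 2)) (T + 1 / 2),
        ‖F ((x : ℂ) + (t : ℂ) * Complex.I) ^ 2‖ ≤ Real.exp (9 / 4) * (C₀ * T * M) := by
      intro x hx
      let c : ι → ℂ := fun j => a j * (Real.exp (x * y j) : ℂ)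
      have hFc : ∀ t : ℝ, F ((x : ℂ) + (t : ℂ) * Complex.I) =
          ∑ j ∈ S, c j * Complex.exp (Complex.I * ((y j * t : ℝ) : ℂ)) := by
        intro t
        refine Finset.sum_congr rfl fun j _ => ?_
        show a j * Complex.exp ((y j : ℂ) * ((x : ℂ) + (t : ℂ) * Complex.I)) = _
        show _ = a j * (Real.exp (x * y j) : ℂ) * Complex.exp (Complex.I * ((y j * t : ℝ) : ℂ))
        rw [mul_assoc, Complex.ofReal_exp, ← Complex.exp_add]
        congr 2
        push_cast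
        ring
      let W : ℝ → ℝ := fun t => Real.exp (-(t / T) ^ 2) *
        ‖∑ j ∈ S, c j * Complex.exp (Complex.I * ((y j * t : ℝ) : ℂ))‖ ^ 2
      have hWc : Continuous W := by
        show Continuous fun t : ℝ => Real.exp (-(t / T) ^ 2) *
          ‖∑ j ∈ S, c j * Complex.exp (Complex.I * ((y j * t : ℝ) : ℂ))‖ ^ 2
        fun_prop
      have hWi : Integrable W := by
        have hg : Integrable fun t : ℝ => (∑ j ∈ S, ‖c j‖) ^ 2 * Real.exp (-(1 / T ^ 2) * t ^ 2) :=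
          (integrable_exp_neg_mul_sq (by positivity)).const_mul _
        refine hg.mono' hWc.aestronglyMeasurable (Filter.Eventually.of_forall fun t => ?_)
        show ‖Real.exp (-(t / T) ^ 2) *
          ‖∑ j ∈ S, c j * Complex.exp (Complex.I * ((y j * t : ℝ) : ℂ))‖ ^ 2‖ ≤ _
        rw [Real.norm_of_nonneg (by positivity), mul_comm]
        have e1 : -(t / T) ^ 2 = -(1 / T ^ 2) * t ^ 2 := by ring
        rw [e1]
        refine mul_le_mul_of_nonneg_right ?_ (Real.exp_nonneg _)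
        refine pow_le_pow_left₀ (norm_nonneg _) ?_ 2
        refine (norm_sum_le _ _).trans (Finset.sum_le_sum fun j _ => ?_)
        rw [norm_mul, mul_comm Complex.I, Complex.norm_exp_ofReal_mul_I, mul_one]
      have hle1 : ∫ t in Icc (-(T + 1 / 2)) (T + 1 / 2),
          ‖F ((x : ℂ) + (t : ℂ) * Complex.I) ^ 2‖ ≤
          ∫ t in Icc (-(T + 1 / 2)) (T + 1 / 2), Real.exp (9 / 4) * W t := by
        refine setIntegral_mono_on ?_ (hWi.const_mul _).integrableOn measurableSet_Icc ?_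
        · have : Continuous fun t : ℝ => ‖F ((x : ℂ) + (t : ℂ) * Complex.I) ^ 2‖ := by
            have := hF.continuous
            fun_prop
          exact this.continuousOn.integrableOn_Icc
        · intro t ht
          show _ ≤ Real.exp (9 / 4) * (Real.exp (-(t / T) ^ 2) *
            ‖∑ j ∈ S, c j * Complex.exp (Complex.I * ((y j * t : ℝ) : ℂ))‖ ^ 2)
          rw [← hFc, norm_pow, ← mul_assoc, ← Real.exp_add]
          have e1 : (t / T) ^ 2 ≤ 9 / 4 := by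
            have h1 : |t / T| ≤ 3 / 2 := by
              rw [abs_div, abs_of_pos (by linarith : 0 < T), div_le_iff₀ (by linarith)]
              have := abs_le.2 ⟨ht.1, ht.2⟩
              linarith
            have h2 : (t / T) ^ 2 = |t / T| ^ 2 := (sq_abs _).symm
            rw [h2]
            nlinarith [abs_nonneg (t / T)]
          have e2 : 1 ≤ Real.exp (9 / 4 + -(t / T) ^ 2) := Real.one_le_exp (by linarith)
          have e3 : 0 ≤ ‖F ((x : ℂ) + (t : ℂ) * Complex.I)‖ ^ 2 := by positivity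
          (clear * - e2; nlinarith)
      have hle2 : ∫ t in Icc (-(T + 1 / 2)) (T + 1 / 2), Real.exp (9 / 4) * W t ≤
          Real.exp (9 / 4) * ∫ t, W t := by
        rw [integral_const_mul]
        refine mul_le_mul_of_nonneg_left ?_ (Real.exp_nonneg _)
        refine setIntegral_le_integral hWi (Filter.Eventually.of_forall fun t => ?_)
        show 0 ≤ Real.exp (-(t / T) ^ 2) * _
        positivity
      refine hle1.trans (hle2.trans ?_)
      refine mul_le_mul_of_nonneg_left ?_ (Real.exp_nonneg _)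
      refine (hMV ι S c y T hT).trans ?_
      refine mul_le_mul_of_nonneg_left ?_ (by positivity)
      refine le_trans (le_of_eq ?_) (hM x hx.1 hx.2)
      refine Finset.sum_congr rfl fun j _ => Finset.sum_congr rfl fun k _ => ?_
      have hc : ∀ i, ‖c i‖ = ‖a i‖ * Real.exp (x * y i) := by
        intro i
        show ‖a i * (Real.exp (x * y i) : ℂ)‖ = _
        rw [norm_mul, Complex.norm_real, Real.norm_of_nonneg (Real.exp_nonneg _)]
      split_ifs
      · rw [hc, hc, mul_add, Real.exp_add]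
        ring
      · rfl
    have hprod : IntegrableOn (fun x : ℝ => ∫ t in Icc (-(T + 1 / 2)) (T + 1 / 2),
        ‖F ((x : ℂ) + (t : ℂ) * Complex.I) ^ 2‖) (Icc (b - r) (b' + r)) := by
      have hc : Continuous fun p : ℝ × ℝ => ‖F ((p.1 : ℂ) + (p.2 : ℂ) * Complex.I) ^ 2‖ := by
        have := hF.continuous
        fun_prop
      have h := hc.continuousOn.integrableOn_compact (μ := volume.prod volume)
        ((isCompact_Icc (a := b - r) (b := b' + r)).prod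
          (isCompact_Icc (a := -(T + 1 / 2)) (b := T + 1 / 2)))
      rw [IntegrableOn, ← Measure.prod_restrict] at h
      exact h.integral_prod_left
    have hD : 0 ≤ Real.exp (9 / 4) * (C₀ * T * M) := by positivity
    calc ∫ x in Icc (b - r) (b' + r), ∫ t in Icc (-(T + 1 / 2)) (T + 1 / 2),
          ‖F ((x : ℂ) + (t : ℂ) * Complex.I) ^ 2‖ ≤
          ∫ x in Icc (b - r) (b' + r), Real.exp (9 / 4) * (C₀ * T * M) :=
          setIntegral_mono_on hprod (integrableOn_const (by simp)) measurableSet_Icc hline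
      _ = (b' + r - (b - r)) * (Real.exp (9 / 4) * (C₀ * T * M)) := by
          rw [setIntegral_const]
          simp only [smul_eq_mul, Measure.real, Real.volume_Icc]
          rw [ENNReal.toReal_ofReal (by (clear * - hr hbb; linarith))]
      _ ≤ 2 * (Real.exp (9 / 4) * (C₀ * T * M)) :=
          mul_le_mul_of_nonneg_right (by linarith) hD
  have hgoal : ∑ ρ ∈ Z, ‖F ρ‖ ^ 2 ≤ 2 * Real.exp (9 / 4) * C₀ / Real.pi / r ^ 2 * T * M := by
    have e : ∑ ρ ∈ Z, ‖F ρ ^ 2‖ = ∑ ρ ∈ Z, ‖F ρ‖ ^ 2 :=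
      Finset.sum_congr rfl fun ρ _ => norm_pow _ _
    rw [e] at key
    have hp : 0 < Real.pi * r ^ 2 := by positivity
    have : 2 * Real.exp (9 / 4) * C₀ / Real.pi / r ^ 2 * T * M =
        2 * (Real.exp (9 / 4) * (C₀ * T * M)) / (Real.pi * r ^ 2) := by
      (clear * - hT hr hC₀; field_simp)
    rw [this, le_div_iff₀ hp, mul_comm]
    exact key
  exact hgoal

end Pool.Agent.M17.Helper9.KC
end

/- Helper53.KN.Helper1.KF.MS -/
section
/-!
# F2: mean square over the cells for one class of zeros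
-/

set_option autoImplicit false
open Filter Topology
open scoped Classical ComplexConjugate

namespace Pool.Agent.M17.Helper1.KF

open Pool.Agent.M17.Helper60.KS
open Pool.Agent.M17.Helper1.KC (eta norm_eta_le eta_mul step1)

/-- mean square: `|U| v^2 ≤ C c0^2 |Z| (log X)^2 T X^(2(b'-1))` -/
theorem msClass : ∃ C : ℝ, 0 < C ∧ ∀ (X T b b' c0 v : ℝ) (Z : Finset ℂ) (c : ℂ → ℂ) (U : Finset ℝ),
    8 ≤ X → 1 ≤ T → b ≤ b' → b' ≤ b + 1 → b' ≤ 1 → 0 ≤ c0 → 0 ≤ v → InStrip Z b b' T → Spaced1 Z →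
    (∀ ρ ∈ Z, ‖c ρ‖ ≤ c0) → (∀ u ∈ U, Real.log X ≤ u ∧ u ≤ Real.log X + 1) →
    (∀ u ∈ U, ∀ u' ∈ U, u ≠ u' → 1 / T < |u - u'|) →
    (∀ u ∈ U, v ≤ ‖∑ ρ ∈ Z, c ρ * Complex.exp ((ρ - 1) * (u : ℂ))‖) →
    (U.card : ℝ) * v ^ 2 ≤ C * c0 ^ 2 * Z.card * Real.log X ^ 2 * T * X ^ (2 * (b' - 1)) := by
  obtain ⟨C1, hC1, h1⟩ := Pool.Agent.M17.Helper9.KC.discMV Pool.Agent.M17.Helper65.KC.meanValue
  refine ⟨C1 * Real.exp 4, by positivity, ?_⟩
  intro X T b b' c0 v Z c U hX hT hb hb' hb1 hc0 hv hZ1 hZ2 hc hU1 hU2 hU3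
  have hX0 : 0 < X := by linarith
  have hlX : 2 ≤ Real.log X := Pool.Agent.M17.Helper1.KC.log8.trans (Real.log_le_log (by norm_num) hX)
  set l := Real.log X with hl
  set r : ℝ := 1 / l with hr
  have hr0 : 0 < r := by positivity
  have hr2 : r ≤ 1 / 2 := one_div_le_one_div_of_le (by norm_num) hlX
  have hrl : r * l = 1 := by rw [hr]; field_simp
  set e : ℝ → ℂ := fun u => eta (∑ ρ ∈ Z, c ρ * Complex.exp ((ρ - 1) * (u : ℂ))) with he
  have s1 := step1 Z c U c0 v hv hc hU3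
  have key := h1 ℝ U (fun u => e u * Complex.exp (-(u : ℂ))) (fun u => u)
    T b b' r ((U.card : ℝ) * (Real.exp 4 * X ^ (2 * (b' - 1)))) Z hT hr0 hr2 hb hb' hZ1 hZ2 (by
      intro σ hσ1 hσ2
      have hterm : ∀ u ∈ U, (∑ u' ∈ U, if |u - u'| ≤ 1 / T then ‖e u * Complex.exp (-(u : ℂ))‖ *
          ‖e u' * Complex.exp (-(u' : ℂ))‖ * Real.exp (σ * (u + u')) else 0) ≤
          Real.exp 4 * X ^ (2 * (b' - 1)) := by
        intro u hu
        rw [Finset.sum_eq_single u]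
        · rw [if_pos (by simp; (clear * - hT hr0 hr2; linarith))]
          have e1 : ‖e u * Complex.exp (-(u : ℂ))‖ ≤ Real.exp (-u) := by
            rw [norm_mul, Complex.norm_exp]
            have : ‖e u‖ ≤ 1 := norm_eta_le _
            calc ‖e u‖ * Real.exp (-(u : ℂ)).re ≤ 1 * Real.exp (-(u : ℂ)).re :=
                  mul_le_mul_of_nonneg_right this (Real.exp_pos _).le
              _ = Real.exp (-u) := by simp
          calc ‖e u * Complex.exp (-(u : ℂ))‖ * ‖e u * Complex.exp (-(u : ℂ))‖ * Real.exp (σ * (u + u)) ≤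
                Real.exp (-u) * Real.exp (-u) * Real.exp (σ * (u + u)) := by (clear * - e1; gcongr)
            _ = Real.exp (2 * (σ - 1) * u) := by
                rw [← Real.exp_add, ← Real.exp_add]; congr 1; ring
            _ ≤ Real.exp (4 + 2 * (b' - 1) * l) := by
                apply Real.exp_le_exp.2
                obtain ⟨hu1, hu2⟩ := hU1 u hu
                have f1 : (σ - 1) * u ≤ (b' + r - 1) * u := by
                  apply mul_le_mul_of_nonneg_right _ (by (clear * - hlX hr0 hr2 hu1; linarith)); linarith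
                have f2 : (b' - 1) * u ≤ (b' - 1) * l := by
                  apply mul_le_mul_of_nonpos_left hu1; linarith
                have f3 : r * u ≤ r * (l + 1) := mul_le_mul_of_nonneg_left hu2 hr0.le
                (clear * - hr0 hr2 hrl f1 f2 f3; nlinarith)
            _ = Real.exp 4 * X ^ (2 * (b' - 1)) := by
                rw [Real.exp_add, Real.rpow_def_of_pos hX0]
                congr 2
                ring
        · intro u' hu' hne
          rw [if_neg]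
          exact not_le.2 (hU2 u hu u' hu' (Ne.symm hne))
        · intro h; exact absurd hu h
      refine (Finset.sum_le_sum hterm).trans ?_
      rw [Finset.sum_const, nsmul_eq_mul])
  have hBeq : ∀ ρ : ℂ, ∑ u ∈ U, e u * Complex.exp ((ρ - 1) * (u : ℂ)) =
      ∑ u ∈ U, (e u * Complex.exp (-(u : ℂ))) * Complex.exp ((u : ℂ) * ρ) := by
    intro ρ
    refine Finset.sum_congr rfl (fun u _ => ?_)
    have : Complex.exp ((ρ - 1) * (u : ℂ)) = Complex.exp (-(u : ℂ)) * Complex.exp ((u : ℂ) * ρ) := by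
      rw [← Complex.exp_add]; congr 1; ring
    rw [this]; ring
  have hr2' : 1 / r ^ 2 = l ^ 2 := by rw [hr]; field_simp
  rcases Nat.eq_zero_or_pos U.card with hU0 | hU0
  · rw [hU0]
    simp only [Nat.cast_zero, zero_mul]
    (clear * - hC1 hlX hT hX; positivity)
  have hUp : (0 : ℝ) < U.card := by exact_mod_cast hU0
  have s2 : ((U.card : ℝ) * v) ^ 2 ≤ c0 ^ 2 * (Z.card * (C1 * l ^ 2 * T *
      ((U.card : ℝ) * (Real.exp 4 * X ^ (2 * (b' - 1)))))) := by
    refine s1.trans ?_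
    have : ∑ ρ ∈ Z, ‖∑ u ∈ U, e u * Complex.exp ((ρ - 1) * (u : ℂ))‖ ^ 2 ≤
        C1 * l ^ 2 * T * ((U.card : ℝ) * (Real.exp 4 * X ^ (2 * (b' - 1)))) := by
      calc ∑ ρ ∈ Z, ‖∑ u ∈ U, e u * Complex.exp ((ρ - 1) * (u : ℂ))‖ ^ 2 =
            ∑ ρ ∈ Z, ‖∑ u ∈ U, (e u * Complex.exp (-(u : ℂ))) * Complex.exp ((u : ℂ) * ρ)‖ ^ 2 := by
            refine Finset.sum_congr rfl (fun ρ _ => ?_)
            rw [hBeq]
        _ ≤ C1 / r ^ 2 * T * ((U.card : ℝ) * (Real.exp 4 * X ^ (2 * (b' - 1)))) := key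
        _ = _ := by rw [div_eq_mul_one_div, hr2']
    (clear * - this; gcongr)
  have s3 : (U.card : ℝ) * ((U.card : ℝ) * v ^ 2) ≤ (U.card : ℝ) * (C1 * Real.exp 4 * c0 ^ 2 * Z.card * l ^ 2 * T *
      X ^ (2 * (b' - 1))) := by
    calc (U.card : ℝ) * ((U.card : ℝ) * v ^ 2) = ((U.card : ℝ) * v) ^ 2 := by ring
      _ ≤ _ := s2
      _ = _ := by ring
  exact le_of_mul_le_mul_left s3 hUp

end Pool.Agent.M17.Helper1.KF
end

/- Helper53.KN.Helper1.KF.Cls -/
section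
/-!
# F2: the number of cells with a large sum over one class of zeros
-/

set_option autoImplicit false
open Filter Topology
open scoped Classical

namespace Pool.Agent.M17.Helper1.KF

open Pool.Agent.M17.Helper60.KS

/-- density theorem with exponent `A` for real parts `≥ 1 - x1` -/
def Dens (A x1 : ℝ) : Prop := ∀ τ ε : ℝ, 1/2 ≤ τ → τ ≤ 19/20 → 0 < ε → ∃ X0 : ℝ, ∀ (X x : ℝ) (Z : Finset ℂ), X0 ≤ X →
  0 < x → x ≤ x1 → Spaced1 Z →
  (∀ ρ ∈ Z, riemannZeta ρ = 0 ∧ 1 - x ≤ ρ.re ∧ Real.log X ^ 2 ≤ |ρ.im| ∧ |ρ.im| ≤ X ^ τ + 1) →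
  (Z.card : ℝ) ≤ X ^ (A * x * τ + ε)

/-- spaced heights are few -/
theorem card_spaced {Z : Finset ℂ} {T : ℝ} (hT : 0 ≤ T) (hZ : Spaced1 Z) (h : ∀ ρ ∈ Z, |ρ.im| ≤ T) :
    (Z.card : ℝ) ≤ 2 * T + 2 := by
  have hinj : Set.InjOn (fun ρ : ℂ => ⌊ρ.im⌋) (Z : Set ℂ) := by
    intro ρ hρ ρ' hρ' he
    by_contra hne
    have h1 := hZ ρ hρ ρ' hρ' hne
    have h2 : ⌊ρ.im⌋ = ⌊ρ'.im⌋ := he
    have h3 := Int.floor_le ρ.im
    have h4 := Int.lt_floor_add_one ρ.im
    have h5 := Int.floor_le ρ'.im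
    have h6 := Int.lt_floor_add_one ρ'.im
    rw [h2] at h3 h4
    have : |ρ.im - ρ'.im| < 1 := by rw [abs_lt]; constructor <;> (clear * - h3 h6 h4 h5; linarith)
    linarith
  have hsub : Z.image (fun ρ : ℂ => ⌊ρ.im⌋) ⊆ Finset.Icc ⌊-T⌋ ⌊T⌋ := by
    intro i hi
    obtain ⟨ρ, hρ, rfl⟩ := Finset.mem_image.1 hi
    obtain ⟨h1, h2⟩ := abs_le.1 (h ρ hρ)
    rw [Finset.mem_Icc]
    exact ⟨Int.floor_le_floor h1, Int.floor_le_floor h2⟩
  have h1 := Finset.card_le_card hsub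
  rw [Finset.card_image_of_injOn hinj, Int.card_Icc] at h1
  have h2 : ⌊-T⌋ ≤ ⌊T⌋ := Int.floor_le_floor (by (clear * - hT; linarith))
  have h3 : ((⌊T⌋ + 1 - ⌊-T⌋).toNat : ℝ) = (⌊T⌋ : ℝ) + 1 - (⌊-T⌋ : ℝ) := by
    have : ((⌊T⌋ + 1 - ⌊-T⌋).toNat : ℤ) = ⌊T⌋ + 1 - ⌊-T⌋ := Int.toNat_of_nonneg (by omega)
    have h4 : (((⌊T⌋ + 1 - ⌊-T⌋).toNat : ℤ) : ℝ) = ((⌊T⌋ + 1 - ⌊-T⌋ : ℤ) : ℝ) := by rw [this]
    push_cast at h4
    exact_mod_cast h4
  have h5 : (Z.card : ℝ) ≤ ((⌊T⌋ + 1 - ⌊-T⌋).toNat : ℝ) := by exact_mod_cast h1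
  have h6 := Int.floor_le T
  have h7 := Int.lt_floor_add_one (-T)
  rw [h3] at h5
  (clear * - h5 h6 h7; linarith)

/-- one class -/
theorem clsBound {A x1 τ ε0 η d : ℝ} (hA : 0 ≤ A) (hAx : A * x1 ≤ 2) (hD : Dens A x1) (hτ1 : 1/2 ≤ τ)
    (hτ2 : τ ≤ 9/10) (hε : 0 < ε0) (hη : 0 < η) (hη1 : η ≤ 1/1000) (hηε : η ≤ ε0)
    (h1 : 50 * η ≤ (2 - A * τ) * ε0) (h2 : 50 * η ≤ 2 * x1 - τ) (hd : 0 < d) (hd1 : d ≤ η) :
    ∃ X0 : ℝ, ∀ (X x : ℝ) (Z : Finset ℂ) (c : ℂ → ℂ) (U : Finset ℝ), X0 ≤ X → ε0 ≤ x → x ≤ 1/2 →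
    InStrip Z (1 - x) (1 - x + η) (X ^ (τ + 2 * d) + 1) → Spaced1 Z →
    (∀ ρ ∈ Z, riemannZeta ρ = 0 ∧ Real.log X ^ 2 ≤ |ρ.im|) →
    (∀ ρ ∈ Z, ‖c ρ‖ ≤ Real.log X ^ 2) → (∀ u ∈ U, Real.log X ≤ u ∧ u ≤ Real.log X + 1) →
    SpacedR U (1 / X ^ (τ + 2 * d)) →
    (∀ u ∈ U, 1 / Real.log X ^ 4 ≤ ‖∑ ρ ∈ Z, c ρ * Complex.exp ((ρ - 1) * (u : ℂ))‖) →
    (U.card : ℝ) ≤ X ^ (τ - 30 * η) := by
  obtain ⟨C, hC, hms⟩ := msClass
  obtain ⟨XD, hD⟩ := hD (τ + 2 * d) η (by (clear * - hτ1 hd; linarith)) (by (clear * - hτ2 hη hη1 hd1; linarith)) hη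
  have hsm := Pool.Agent.M17.Helper60.KC.small (Real.log (12 * C)) 14 η hη
  obtain ⟨X1, hX1⟩ := eventually_atTop.1 hsm
  refine ⟨max (max XD X1) (Real.exp 10), ?_⟩
  intro X x Z c U hX hx0 hx1 hZ1 hZ2 hZ3 hc hU1 hU2 hU3
  have hXD : XD ≤ X := (le_max_left _ _).trans ((le_max_left _ _).trans hX)
  have hXX1 : X1 ≤ X := (le_max_right _ _).trans ((le_max_left _ _).trans hX)
  have hXe : Real.exp 10 ≤ X := (le_max_right _ _).trans hX
  have hX0 : 0 < X := (Real.exp_pos _).trans_le hXe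
  have hl10 : 10 ≤ Real.log X := by
    rw [Real.le_log_iff_exp_le hX0]; exact hXe
  have hX8 : 8 ≤ X := by
    have := Real.add_one_le_exp (10 : ℝ)
    (clear * - hη hη1 hXe this; linarith)
  have hX1' : 1 < X := by (clear * - hη hη1 hX8; linarith)
  set l := Real.log X with hl
  have hl0 : 0 < l := by (clear * - hη hη1 hl10; linarith)
  have hlog : 12 * C * l ^ 14 ≤ X ^ η := by
    have := hX1 X hXX1
    rw [← Real.log_le_log_iff (by positivity) (by positivity), Real.log_mul (by positivity) (by positivity),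
      Real.log_pow, Real.log_rpow hX0]
    simpa using this
  set T0 := X ^ (τ + 2 * d) with hT0
  have hT0p : 1 ≤ T0 := Real.one_le_rpow hX1'.le (by (clear * - hτ1 hη hη1 hd; linarith))
  set T := T0 + 1 with hT
  have hT2 : T ≤ 2 * T0 := by (clear * - hT0p; linarith)
  have key := hms X T (1 - x) (1 - x + η) (l ^ 2) (1 / l ^ 4) Z c U hX8 (by (clear * - hη hη1 hT0p; linarith)) (by (clear * - hη; linarith)) (by (clear * - hη hη1; linarith))
    (by (clear * - hηε hx0; linarith)) (by positivity) (by positivity) hZ1 hZ2 hc hU1 (by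
      intro u hu u' hu' hne
      refine lt_of_lt_of_le ?_ (hU2 u hu u' hu' hne)
      apply one_div_lt_one_div_of_lt (by (clear * - hη hη1 hT0p; linarith))
      linarith) hU3
  -- the number of zeros
  have hr : ∃ rr : ℝ, (Z.card : ℝ) ≤ 6 * X ^ rr ∧ rr + τ + 2 * d - 2 * x ≤ τ - 33 * η := by
    rcases le_or_gt x x1 with hxx | hxx
    · refine ⟨A * x * (τ + 2 * d) + η, ?_, ?_⟩
      · have h3 := hD X x Z hXD (by (clear * - hε hx0; linarith)) hxx hZ2 (fun ρ hρ => ⟨(hZ3 ρ hρ).1, (hZ1 ρ hρ).1, (hZ3 ρ hρ).2,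
          (hZ1 ρ hρ).2.2⟩)
        have h4 : 0 < X ^ (A * x * (τ + 2 * d) + η) := by positivity
        (clear * - h3 h4; linarith)
      · have h5 : A * x ≤ 2 := (mul_le_mul_of_nonneg_left hxx hA).trans hAx
        have h6 : 0 ≤ 2 - A * τ := by
          by_contra hcon
          push Not at hcon
          have := mul_neg_of_neg_of_pos hcon hε
          (clear * - hη h1 this; linarith)
        have h7 : (2 - A * τ) * ε0 ≤ (2 - A * τ) * x := mul_le_mul_of_nonneg_left hx0 h6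
        have h8 : A * x * (2 * d) ≤ 2 * (2 * d) := mul_le_mul_of_nonneg_right h5 (by (clear * - hd; linarith))
        (clear * - hη h1 hd1 h7 h8; nlinarith)
    · refine ⟨τ + 2 * d, ?_, by (clear * - hη h2 hd1 hxx; linarith)⟩
      have h3 := card_spaced (by (clear * - hη hη1 hT0p; linarith)) hZ2 (fun ρ hρ => (hZ1 ρ hρ).2.2)
      (clear * - hT0p h3; linarith)
  obtain ⟨rr, hr1, hr2⟩ := hr
  have e1 : (U.card : ℝ) ≤ C * l ^ 14 * Z.card * T * X ^ (2 * (1 - x + η - 1)) := by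
    have h3 : (U.card : ℝ) * (1 / l ^ 4) ^ 2 * l ^ 8 = U.card := by (clear * - hl10; field_simp)
    calc (U.card : ℝ) = (U.card : ℝ) * (1 / l ^ 4) ^ 2 * l ^ 8 := h3.symm
      _ ≤ (C * (l ^ 2) ^ 2 * Z.card * l ^ 2 * T * X ^ (2 * (1 - x + η - 1))) * l ^ 8 :=
          mul_le_mul_of_nonneg_right key (by positivity)
      _ = _ := by ring
  calc (U.card : ℝ) ≤ C * l ^ 14 * Z.card * T * X ^ (2 * (1 - x + η - 1)) := e1
    _ ≤ C * l ^ 14 * (6 * X ^ rr) * (2 * X ^ (τ + 2 * d)) * X ^ (2 * (1 - x + η - 1)) := by (clear * - hr1 hC hl10 hT2 hX0; gcongr)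
    _ = (12 * C * l ^ 14) * (X ^ rr * X ^ (τ + 2 * d) * X ^ (2 * (1 - x + η - 1))) := by ring
    _ ≤ X ^ η * (X ^ rr * X ^ (τ + 2 * d) * X ^ (2 * (1 - x + η - 1))) := by (clear * - hlog hX0; gcongr)
    _ = X ^ (η + (rr + (τ + 2 * d) + 2 * (1 - x + η - 1))) := by
        rw [← Real.rpow_add hX0, ← Real.rpow_add hX0, ← Real.rpow_add hX0]
    _ ≤ X ^ (τ - 30 * η) := Real.rpow_le_rpow_of_exponent_le hX1'.le (by (clear * - hr2; linarith))

end Pool.Agent.M17.Helper1.KF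
end

/- Helper53.KN.Helper4.QRH.Squares -/
section
/-! Module B7 of project QRH: few integers of a short interval are divisible by the square of a
large prime. -/

set_option autoImplicit false

open Filter Topology
open scoped Classical

namespace Pool.Agent.M17.Helper4.QRH

open Pool.Agent.M17.Helper10.QRH

theorem card_dvd_Ico_le (x h d : ℕ) (hd : 0 < d) :
    (((Finset.Ico x (x + h)).filter (fun n => d ∣ n)).card : ℝ) ≤ (h : ℝ) / d + 1 := by
  have e1 : (Finset.Ico x (x + h)).filter (fun n => d ∣ n)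
      = (Finset.Ico x (x + h)).filter (fun n => n ≡ 0 [MOD d]) := by
    apply Finset.filter_congr
    intro n _
    rw [Nat.modEq_zero_iff_dvd]
  have h1 := Nat.Ico_filter_modEq_card x (x + h) hd 0
  rw [e1]
  have hd' : (0 : ℚ) < d := by exact_mod_cast hd
  have h2 : (max (⌈(((x + h : ℕ) : ℚ) - (0 : ℕ)) / (d : ℚ)⌉ - ⌈((x : ℚ) - (0 : ℕ)) / (d : ℚ)⌉) 0 : ℤ)
      ≤ (h : ℚ) / d + 1 := by
    have a1 := Int.ceil_lt_add_one ((((x + h : ℕ) : ℚ) - (0 : ℕ)) / (d : ℚ))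
    have a2 := Int.le_ceil (((x : ℚ) - (0 : ℕ)) / (d : ℚ))
    have e2 : (((x + h : ℕ) : ℚ) - (0 : ℕ)) / (d : ℚ) = ((x : ℚ) - (0 : ℕ)) / (d : ℚ) + h / d := by
      push_cast; ring
    rw [e2] at a1 ⊢
    push_cast
    apply max_le
    · (clear * - a1 a2; linarith)
    · (clear * - hd; positivity)
  rw [← h1] at h2
  have h3 : ((((((Finset.Ico x (x + h)).filter (fun n => n ≡ 0 [MOD d])).card : ℤ) : ℚ)) : ℝ)
      ≤ (((h : ℚ) / d + 1 : ℚ) : ℝ) := by exact_mod_cast h2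
  push_cast at h3
  exact h3

theorem sum_inv_sq_gt (z : ℝ) (hz : 1 ≤ z) (N : ℕ) :
    ∑ p ∈ (Finset.range (N + 1)).filter (fun p : ℕ => z < (p : ℝ)), 1 / ((p : ℝ) ^ 2) ≤ 2 / z := by
  have hf : 1 ≤ ⌊z⌋₊ := Nat.le_floor (by simpa using hz)
  have hsub : (Finset.range (N + 1)).filter (fun p : ℕ => z < (p : ℝ)) ⊆
      Finset.Ioc ⌊z⌋₊ (max ⌊z⌋₊ N) := by
    intro p hp
    rw [Finset.mem_filter, Finset.mem_range] at hp
    rw [Finset.mem_Ioc]
    refine ⟨(Nat.floor_lt (by (clear * - hz; linarith))).mpr hp.2, le_max_of_le_right (by omega)⟩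
  have h1 := Finset.sum_le_sum_of_subset_of_nonneg (f := fun p : ℕ => (((p : ℝ) ^ 2)⁻¹)) hsub
    (fun i _ _ => by (clear * -; positivity))
  have h2 := sum_Ioc_inv_sq_le_sub (α := ℝ) (k := ⌊z⌋₊) (n := max ⌊z⌋₊ N) (by omega)
    (le_max_left _ _)
  have h3 : (0 : ℝ) ≤ ((max ⌊z⌋₊ N : ℕ) : ℝ)⁻¹ := by (clear * - hf; positivity)
  have hf' : (1 : ℝ) ≤ (⌊z⌋₊ : ℝ) := by exact_mod_cast hf
  have h4 : ((⌊z⌋₊ : ℝ))⁻¹ ≤ 2 / z := by
    rw [inv_eq_one_div, div_le_div_iff₀ (by (clear * - hf'; linarith)) (by (clear * - hz; linarith))]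
    have := Nat.lt_floor_add_one z
    (clear * - hf' this; linarith)
  have e : ∑ p ∈ (Finset.range (N + 1)).filter (fun p : ℕ => z < (p : ℝ)), 1 / ((p : ℝ) ^ 2)
      = ∑ p ∈ (Finset.range (N + 1)).filter (fun p : ℕ => z < (p : ℝ)), (((p : ℝ) ^ 2)⁻¹) := by
    apply Finset.sum_congr rfl; intro p _; rw [one_div]
  rw [e]
  push_cast at h1 h2 h3 ⊢
  (clear * - h1 h4 h2 h3; linarith)

/-- at most one multiple `m p²` in an interval of length `h ≤ √x` -/
theorem sq_unique (x h m p q : ℕ) (hx : 1 ≤ x) (hh : (h : ℝ) ≤ (x : ℝ) ^ (1 / 2 : ℝ)) (hm : 1 ≤ m)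
    (h1 : x ≤ m * p ^ 2) (h2 : m * q ^ 2 < x + h) (hpq : p < q) : False := by
  have hx0 : (0 : ℝ) < x := by exact_mod_cast hx
  have hh2 : (h : ℝ) ^ 2 ≤ x := by
    have : ((x : ℝ) ^ (1 / 2 : ℝ)) ^ 2 = x := by
      rw [← Real.rpow_natCast, ← Real.rpow_mul hx0.le]; norm_num
    calc (h : ℝ) ^ 2 ≤ ((x : ℝ) ^ (1 / 2 : ℝ)) ^ 2 := by (clear * - hh; gcongr)
      _ = (x : ℝ) := this
  have hh3 : h ^ 2 ≤ x := by exact_mod_cast hh2
  have h3 : m * p ^ 2 + 2 * (m * p) < x + h := by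
    have : m * (p + 1) ^ 2 ≤ m * q ^ 2 := by gcongr; omega
    (clear * - hm h2 this; nlinarith)
  have h4 : 2 * (m * p) < h := by omega
  have h5 : (2 * (m * p)) ^ 2 < h ^ 2 := by
    apply Nat.pow_lt_pow_left h4 (by norm_num)
  have h6 : (2 * (m * p)) ^ 2 = 4 * m * (m * p ^ 2) := by ring
  have h7 : x ≤ 4 * m * (m * p ^ 2) := by (clear * - hx hh3 h5 hm h1; nlinarith)
  omega

theorem squares : Squares := by
  refine ⟨1, ?_⟩
  intro x h hx hh z hz
  have hx0 : (0 : ℝ) < x := by exact_mod_cast hx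
  have hx1 : (1 : ℝ) ≤ x := by exact_mod_cast hx
  set y : ℝ := (x : ℝ) ^ (1 / 3 : ℝ) with hy
  have hy1 : 1 ≤ y := Real.one_le_rpow hx1 (by norm_num)
  have hy3 : y ^ 3 = x := by
    rw [hy, ← Real.rpow_natCast, ← Real.rpow_mul hx0.le]; norm_num
  have hhx : (h : ℝ) ≤ x := by
    refine hh.trans ?_
    calc (x : ℝ) ^ (1 / 2 : ℝ) ≤ (x : ℝ) ^ (1 : ℝ) :=
          Real.rpow_le_rpow_of_exponent_le hx1 (by norm_num)
      _ = x := Real.rpow_one _
  set N := ⌊y⌋₊ with hN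
  set A := (Finset.Ico x (x + h)).filter (fun n => ∃ p : ℕ, p.Prime ∧ z < p ∧ p ^ 2 ∣ n) with hA
  set P := (Finset.range (N + 1)).filter (fun p : ℕ => z < (p : ℝ)) with hP
  set A1 := P.biUnion (fun p => (Finset.Ico x (x + h)).filter (fun n => p ^ 2 ∣ n)) with hA1
  set A2 := (Finset.Ico x (x + h)).filter (fun n => ∃ p : ℕ, y < (p : ℝ) ∧ p ^ 2 ∣ n) with hA2
  have hsub : A ⊆ A1 ∪ A2 := by
    intro n hn
    rw [hA, Finset.mem_filter] at hn
    obtain ⟨hn1, p, hp, hzp, hpn⟩ := hn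
    rw [Finset.mem_union]
    by_cases hpy : (p : ℝ) ≤ y
    · left
      rw [hA1, Finset.mem_biUnion]
      refine ⟨p, ?_, ?_⟩
      · rw [hP, Finset.mem_filter, Finset.mem_range]
        exact ⟨Nat.lt_succ_of_le (Nat.le_floor hpy), hzp⟩
      · rw [Finset.mem_filter]; exact ⟨hn1, hpn⟩
    · right
      rw [hA2, Finset.mem_filter]
      exact ⟨hn1, p, not_le.mp hpy, hpn⟩
  have hc1 : (A1.card : ℝ) ≤ 2 * h / z + y + 1 := by
    have h1 : (A1.card : ℝ) ≤ ∑ p ∈ P, ((((Finset.Ico x (x + h)).filter (fun n => p ^ 2 ∣ n)).card : ℕ) : ℝ) := by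
      exact_mod_cast Finset.card_biUnion_le
    have h2 : ∑ p ∈ P, ((((Finset.Ico x (x + h)).filter (fun n => p ^ 2 ∣ n)).card : ℕ) : ℝ)
        ≤ ∑ p ∈ P, ((h : ℝ) * (1 / (p : ℝ) ^ 2) + 1) := by
      apply Finset.sum_le_sum
      intro p hp
      have hp0 : 0 < p := by
        rw [hP, Finset.mem_filter] at hp
        have : (0 : ℝ) < p := by (clear * - hz hp; linarith [hp.2])
        exact_mod_cast this
      have := card_dvd_Ico_le x h (p ^ 2) (by (clear * - hp0; positivity))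
      push_cast at this
      rw [mul_one_div]
      exact this
    rw [Finset.sum_add_distrib, ← Finset.mul_sum, Finset.sum_const, nsmul_eq_mul, mul_one] at h2
    have h3 := mul_le_mul_of_nonneg_left (sum_inv_sq_gt z hz N) (Nat.cast_nonneg (α := ℝ) h)
    have h4 : (P.card : ℝ) ≤ y + 1 := by
      have h5 : P.card ≤ N + 1 := by
        rw [hP]
        exact (Finset.card_filter_le _ _).trans (by simp)
      have h6 : ((N + 1 : ℕ) : ℝ) ≤ y + 1 := by
        push_cast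
        have := Nat.floor_le (show 0 ≤ y by (clear * - hy1; linarith))
        (clear * - this; linarith)
      exact le_trans (by exact_mod_cast h5) h6
    have e : (h : ℝ) * (2 / z) = 2 * h / z := by ring
    rw [e] at h3
    (clear * - h1 h2 h3 h4; linarith)
  have hc2 : (A2.card : ℝ) ≤ 2 * y := by
    have hex : ∀ n : ℕ, ∃ p : ℕ, n ∈ A2 → y < (p : ℝ) ∧ p ^ 2 ∣ n := by
      intro n
      by_cases hn : n ∈ A2
      · rw [hA2, Finset.mem_filter] at hn
        obtain ⟨p, hp⟩ := hn.2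
        exact ⟨p, fun _ => hp⟩
      · exact ⟨0, fun h => absurd h hn⟩
    choose p hp using hex
    have hprop : ∀ n ∈ A2, 1 ≤ n / (p n) ^ 2 ∧ n = n / (p n) ^ 2 * (p n) ^ 2 ∧
        (((n / (p n) ^ 2 : ℕ)) : ℝ) ≤ 2 * y := by
      intro n hn
      obtain ⟨h1, h2⟩ := hp n hn
      have hn' := hn
      rw [hA2, Finset.mem_filter, Finset.mem_Ico] at hn'
      have hn0 : 0 < n := by omega
      have hp0 : 0 < p n := by
        have : (0 : ℝ) < p n := by (clear * - hy1 h1; linarith)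
        exact_mod_cast this
      have e1 : n / (p n) ^ 2 * (p n) ^ 2 = n := Nat.div_mul_cancel h2
      refine ⟨Nat.div_pos (Nat.le_of_dvd hn0 h2) (by positivity), e1.symm, ?_⟩
      have e2 : (((n / (p n) ^ 2 : ℕ)) : ℝ) * (p n : ℝ) ^ 2 = n := by exact_mod_cast e1
      have h3 : (n : ℝ) ≤ 2 * x := by
        have : (n : ℝ) < x + h := by exact_mod_cast hn'.1.2
        (clear * - hhx this; linarith)
      have h4 : (((n / (p n) ^ 2 : ℕ)) : ℝ) * y ^ 2 ≤ 2 * y * y ^ 2 := by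
        calc (((n / (p n) ^ 2 : ℕ)) : ℝ) * y ^ 2 ≤ (((n / (p n) ^ 2 : ℕ)) : ℝ) * (p n : ℝ) ^ 2 := by
              (clear * - hx h1; gcongr)
          _ = (n : ℝ) := e2
          _ ≤ 2 * (x : ℝ) := h3
          _ = 2 * y * y ^ 2 := by rw [← hy3]; ring
      exact le_of_mul_le_mul_right h4 (by positivity)
    have hcard : A2.card ≤ (Finset.Icc 1 ⌊2 * y⌋₊).card := by
      apply Finset.card_le_card_of_injOn (fun n => n / (p n) ^ 2)
      · intro n hn
        obtain ⟨h1, -, h3⟩ := hprop n hn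
        simp only [Finset.coe_Icc, Set.mem_Icc]
        exact ⟨h1, Nat.le_floor h3⟩
      · intro n hn n' hn' hnn
        obtain ⟨a1, a2, -⟩ := hprop n hn
        obtain ⟨b1, b2, -⟩ := hprop n' hn'
        simp only at hnn
        rw [← hnn] at b2 b1
        have c1 : x ≤ n ∧ n < x + h := by
          have := hn
          rw [Finset.mem_coe, hA2, Finset.mem_filter, Finset.mem_Ico] at this
          exact this.1
        have c2 : x ≤ n' ∧ n' < x + h := by
          have := hn'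
          rw [Finset.mem_coe, hA2, Finset.mem_filter, Finset.mem_Ico] at this
          exact this.1
        rcases lt_trichotomy (p n) (p n') with hlt | heq | hgt
        · exact (sq_unique x h _ _ _ hx hh a1 (a2 ▸ c1.1) (b2 ▸ c2.2) hlt).elim
        · rw [a2, b2, heq]
        · exact (sq_unique x h _ _ _ hx hh a1 (b2 ▸ c2.1) (a2 ▸ c1.2) hgt).elim
    rw [Nat.card_Icc] at hcard
    have h5 : ((⌊2 * y⌋₊ : ℕ) : ℝ) ≤ 2 * y := Nat.floor_le (by (clear * - hy1; linarith))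
    have h6 : (A2.card : ℝ) ≤ (⌊2 * y⌋₊ : ℕ) := by
      exact_mod_cast (by omega : A2.card ≤ ⌊2 * y⌋₊)
    (clear * - h5 h6; linarith)
  have hc : (A.card : ℝ) ≤ A1.card + A2.card := by
    exact_mod_cast (Finset.card_le_card hsub).trans (Finset.card_union_le _ _)
  linarith

end Pool.Agent.M17.Helper4.QRH
end

/- Helper53.KN.Helper59.KS.Weights -/
section
/-!
# Project KS: pointwise bounds of the weights (WoLe, OrdLe, CtlLe, WpLe)
-/

set_option autoImplicit false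
open scoped Classical

namespace Pool.Agent.M17.Helper59.KS

open Pool.Agent.M17.Helper16.KS Pool.Agent.M17.Helper16.KS.Sys

theorem woLe : WoLe := by
  intro S
  refine ⟨max S.K 1, fun k0 hk0 R hR k hk j hj m hm => ⟨S.wo_nonneg R k j m, ?_⟩⟩
  have hKk : S.K ≤ k := (le_max_left _ _).trans (hk0.trans hk)
  have hk1 : 1 ≤ k := (le_max_right _ _).trans (hk0.trans hk)
  have hkR : (0 : ℝ) < k := by exact_mod_cast hk1
  have hj' := (S.mem_badc).1 hj
  have h1 := hR.lower k hk j hj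
  have h2 := S.many k hKk j hj'.1 hj'.2
  have hc := S.c1_pos
  have hm0 : m ≠ 0 := by omega
  have hmR : (0 : ℝ) < m := by exact_mod_cast hm
  have he : (0 : ℝ) < 2 ^ ec S.d k := by positivity
  have hNN : S.c1 * 2 ^ ec S.d k / (2 * (k : ℝ) ^ 2) ≤ S.NN R k j := by
    refine le_trans ?_ h1
    rw [div_le_div_iff₀ (by positivity) (by positivity)]
    rw [div_le_iff₀ (by positivity)] at h2
    (clear * - h2; nlinarith)
  have hB : 0 < S.c1 * 2 ^ ec S.d k / (2 * (k : ℝ) ^ 2) := by (clear * - hc hk1; positivity)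
  have hpb : 0 < S.pr m * S.base m := mul_pos (S.pr_pos hm0) (S.base_pos hm0)
  have hmi : (m : ℝ) ^ (1 - S.s + S.tau) * (S.pr m * S.base m) = 1 := by
    rw [S.pr_mul_base hm0, ← Real.rpow_add hmR]
    have : 1 - S.s + S.tau + (S.s - 1 - S.tau) = 0 := by ring
    rw [this, Real.rpow_zero]
  unfold Sys.wo Sys.wd Sys.G
  rw [div_le_iff₀ (by rw [mul_assoc]; exact mul_pos (hB.trans_le hNN) hpb)]
  have hx : 0 ≤ (2 : ℝ) ^ ((S.s - 1) * k) := by positivity
  calc 2 ^ ec S.d k * (2 : ℝ) ^ ((S.s - 1) * k) / (k : ℝ) ^ 4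
      = 2 / S.c1 / (k : ℝ) ^ 2 * (2 : ℝ) ^ ((S.s - 1) * k) *
          (S.c1 * 2 ^ ec S.d k / (2 * (k : ℝ) ^ 2)) := by
        (clear * - hc hk1; field_simp)
    _ ≤ 2 / S.c1 / (k : ℝ) ^ 2 * (2 : ℝ) ^ ((S.s - 1) * k) * S.NN R k j := by
        (clear * - hNN hc hk1; gcongr)
    _ = 2 / S.c1 / (k : ℝ) ^ 2 * (2 : ℝ) ^ ((S.s - 1) * k) * S.NN R k j *
          ((m : ℝ) ^ (1 - S.s + S.tau) * (S.pr m * S.base m)) := by
        rw [hmi, mul_one]
    _ = 2 / S.c1 / (k : ℝ) ^ 2 * ((2 : ℝ) ^ ((S.s - 1) * k) * (m : ℝ) ^ (1 - S.s + S.tau)) *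
          (S.NN R k j * S.pr m * S.base m) := by ring

theorem ordLe : OrdLe := by
  intro S
  have hc := S.c1_pos
  have hc1 := S.c1_le
  have hs1 : S.s - 1 < 0 := by
    have := S.s_lt
    norm_num at this
    linarith
  have hC1 : (1 : ℝ) ≤ 16 / S.c1 := by
    rw [le_div_iff₀ hc]
    (clear * - hc1; linarith)
  refine ⟨16 / S.c1, max S.K 1, fun k0 hk0 p hp => ⟨S.ordw_nonneg k0 p, ?_⟩⟩
  have hK0 : S.K ≤ k0 := (le_max_left _ _).trans hk0
  have hk01 : 1 ≤ k0 := (le_max_right _ _).trans hk0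
  have hpR : (1 : ℝ) < p := by exact_mod_cast hp.one_lt
  have hp0 : (0 : ℝ) < p := by (clear * - hpR; linarith)
  have hlog : 0 < Real.log p := Real.log_pos hpR
  have hlog2 : Real.log 2 ≤ 1 := by
    have := Real.log_two_lt_d9
    (clear * - this; linarith)
  have hlog2' : 0 < Real.log 2 := Real.log_pos (by norm_num)
  -- upper bound of the logarithm
  have hlogle : ∀ n : ℕ, p < 2 ^ n → Real.log p ≤ n := by
    intro n hn
    have h1 : (p : ℝ) ≤ 2 ^ n := by exact_mod_cast hn.le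
    have h2 := Real.log_le_log hp0 h1
    rw [Real.log_pow] at h2
    refine h2.trans ?_
    have h3 : (0 : ℝ) ≤ n := Nat.cast_nonneg n
    (clear * - hlog2; nlinarith)
  have hpow : ∀ n : ℕ, p < 2 ^ n → (2 : ℝ) ^ ((S.s - 1) * n) ≤ (p : ℝ) ^ (S.s - 1) := by
    intro n hn
    have h1 : (p : ℝ) ≤ (2 : ℝ) ^ (n : ℝ) := by
      rw [Real.rpow_natCast]
      exact_mod_cast hn.le
    rw [mul_comm, Real.rpow_mul (by norm_num)]
    exact Real.rpow_le_rpow_of_nonpos hp0 h1 hs1.le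
  unfold Sys.ordw
  split_ifs with h1 h2 h3
  · (clear * - hc hpR hlog; positivity)
  · unfold Sys.phi0
    have hk0R : (0 : ℝ) < k0 := by exact_mod_cast hk01
    calc (2 : ℝ) ^ ((S.s - 1) * k0) / (k0 : ℝ) ^ 3
        ≤ (p : ℝ) ^ (S.s - 1) / Real.log p ^ 3 := by
          refine div_le_div₀ (by positivity) (hpow k0 h2) (by positivity) ?_
          exact pow_le_pow_left₀ hlog.le (hlogle k0 h2) 3
      _ = 1 * ((p : ℝ) ^ (S.s - 1) / Real.log p ^ 3) := (one_mul _).symm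
      _ ≤ 16 / S.c1 * ((p : ℝ) ^ (S.s - 1) / Real.log p ^ 3) := by
          exact mul_le_mul_of_nonneg_right hC1 (by positivity)
  · positivity
  · set k := Nat.log 2 p with hkdef
    have hkk0 : k0 ≤ k := by
      rw [hkdef]
      exact Nat.le_log_of_pow_le (by norm_num) (by omega)
    have hk1 : 1 ≤ k := hk01.trans hkk0
    have hkR : (0 : ℝ) < k := by exact_mod_cast hk1
    have hlt : p < 2 ^ (k + 1) := Nat.lt_pow_succ_log_self (by norm_num) p
    have hg := S.good k (hK0.trans hkk0) (S.idx p) (S.idx_lt p) h3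
    have he : (0 : ℝ) < 2 ^ ec S.d k := by positivity
    have hnp : 0 < S.c1 * 2 ^ ec S.d k / k := by positivity
    have hx : 0 < (2 : ℝ) ^ ((S.s - 1) * k) := by positivity
    have h4 : (2 : ℝ) ^ ((S.s - 1) * k) ≤ 2 * (p : ℝ) ^ (S.s - 1) := by
      have h5 := hpow (k + 1) hlt
      have h6 : (2 : ℝ) ^ ((S.s - 1) * k) =
          (2 : ℝ) ^ ((S.s - 1) * ((k + 1 : ℕ) : ℝ)) * (2 : ℝ) ^ (1 - S.s) := by
        rw [← Real.rpow_add (by norm_num)]
        congr 1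
        push_cast
        ring
      have h7 : (2 : ℝ) ^ (1 - S.s) ≤ 2 := by
        calc (2 : ℝ) ^ (1 - S.s) ≤ (2 : ℝ) ^ (1 : ℝ) :=
              Real.rpow_le_rpow_of_exponent_le (by norm_num) (by have := S.s_pos; (clear * - this; linarith))
          _ = 2 := Real.rpow_one 2
      rw [h6]
      calc (2 : ℝ) ^ ((S.s - 1) * ((k + 1 : ℕ) : ℝ)) * (2 : ℝ) ^ (1 - S.s)
          ≤ (p : ℝ) ^ (S.s - 1) * 2 := by (clear * - h5 h7 hpR; gcongr)
        _ = 2 * (p : ℝ) ^ (S.s - 1) := mul_comm _ _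
    have h8 : Real.log p ^ 3 ≤ 8 * (k : ℝ) ^ 3 := by
      have h9 : Real.log p ≤ 2 * k := by
        have := hlogle (k + 1) hlt
        push_cast at this
        have : (1 : ℝ) ≤ k := by exact_mod_cast hk1
        linarith
      calc Real.log p ^ 3 ≤ (2 * (k : ℝ)) ^ 3 := pow_le_pow_left₀ hlog.le h9 3
        _ = 8 * (k : ℝ) ^ 3 := by ring
    unfold Sys.G
    calc 2 ^ ec S.d k * (2 : ℝ) ^ ((S.s - 1) * k) / (k : ℝ) ^ 4 / (npr S.d k (S.idx p) : ℝ)
        ≤ 2 ^ ec S.d k * (2 : ℝ) ^ ((S.s - 1) * k) / (k : ℝ) ^ 4 / (S.c1 * 2 ^ ec S.d k / k) := by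
          (clear * - hk1 hc hg; gcongr)
      _ = (2 : ℝ) ^ ((S.s - 1) * k) * (8 / (8 * (k : ℝ) ^ 3)) / S.c1 := by
          field_simp
      _ ≤ (2 * (p : ℝ) ^ (S.s - 1)) * (8 / Real.log p ^ 3) / S.c1 := by
          (clear * - h4 hlog h8 hk1 hpR hc; gcongr)
      _ = 16 / S.c1 * ((p : ℝ) ^ (S.s - 1) / Real.log p ^ 3) := by ring

/-- one owner -/
theorem wd_le (S : Sys) {k j q : ℕ} (hk : S.K ≤ k) (hj : j ∈ S.badc k) {x : ℕ × ℕ}
    (hx : x ∈ S.Cand k j) (hq : x.1 = q) :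
    S.wd k x.2 ≤ 2 * (q : ℝ) ^ (S.s - 1 + 2 * S.tau) := by
  obtain ⟨hp, -, -, hm1, -, -, hlt, hge, -⟩ := S.cand_facts hk hj hx
  rw [hq] at hp hlt hge
  have hs := S.s_pos
  have hs' : S.s < 1 / 2 := by
    have := S.s_lt
    norm_num at this
    (clear * - hs this; linarith)
  have ht := S.tau_pos
  have hts : S.tau ≤ S.s := by
    have := S.tau_le_s
    have h1 : S.s / 10 ^ 6 ≤ S.s := by
      rw [div_le_iff₀ (by positivity)]
      (clear * - ht this; nlinarith)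
    (clear * - ht this; linarith)
  have hq0 : (0 : ℝ) < q := by exact_mod_cast hp.pos
  have hm0 : (0 : ℝ) < x.2 := by
    have : 0 < x.2 := by omega
    exact_mod_cast this
  have hprod : (x.2 : ℝ) ≤ (2 : ℝ) ^ ((k : ℝ) + 1) / q := by
    rw [le_div_iff₀ hq0]
    have h1 : (q : ℝ) * x.2 ≤ 2 ^ (k + 1) := by exact_mod_cast hlt.le
    have h2 : (2 : ℝ) ^ ((k : ℝ) + 1) = 2 ^ (k + 1) := by
      rw [← Nat.cast_succ, Real.rpow_natCast]
    rw [h2]
    (clear * - h1; linarith)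
  have hexp : 0 < 1 - S.s + S.tau := by (clear * - hs hs' ht; linarith)
  have h1 : (x.2 : ℝ) ^ (1 - S.s + S.tau) ≤
      (2 : ℝ) ^ (((k : ℝ) + 1) * (1 - S.s + S.tau)) * (q : ℝ) ^ (S.s - 1 - S.tau) := by
    calc (x.2 : ℝ) ^ (1 - S.s + S.tau) ≤ ((2 : ℝ) ^ ((k : ℝ) + 1) / q) ^ (1 - S.s + S.tau) :=
          Real.rpow_le_rpow hm0.le hprod hexp.le
      _ = (2 : ℝ) ^ (((k : ℝ) + 1) * (1 - S.s + S.tau)) * (q : ℝ) ^ (S.s - 1 - S.tau) := by
          rw [Real.div_rpow (by positivity) hq0.le, ← Real.rpow_mul (by norm_num), div_eq_mul_inv,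
            ← Real.rpow_neg hq0.le]
          congr 2
          ring
  have h2 : (2 : ℝ) ^ (S.tau * k) ≤ (q : ℝ) ^ (3 * S.tau) := by
    calc (2 : ℝ) ^ (S.tau * k) = ((2 : ℝ) ^ ((k : ℝ) / 3)) ^ (3 * S.tau) := by
          rw [← Real.rpow_mul (by norm_num)]
          congr 1
          ring
      _ ≤ (q : ℝ) ^ (3 * S.tau) := Real.rpow_le_rpow (by positivity) hge (by positivity)
  unfold Sys.wd
  calc (2 : ℝ) ^ ((S.s - 1) * k) * (x.2 : ℝ) ^ (1 - S.s + S.tau)
      ≤ (2 : ℝ) ^ ((S.s - 1) * k) *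
        ((2 : ℝ) ^ (((k : ℝ) + 1) * (1 - S.s + S.tau)) * (q : ℝ) ^ (S.s - 1 - S.tau)) := by
        (clear * - h1; gcongr)
    _ = ((2 : ℝ) ^ (1 - S.s + S.tau) * (2 : ℝ) ^ (S.tau * k)) * (q : ℝ) ^ (S.s - 1 - S.tau) := by
        rw [← mul_assoc, ← Real.rpow_add (by norm_num), ← Real.rpow_add (by norm_num)]
        congr 2
        ring
    _ ≤ (2 * (q : ℝ) ^ (3 * S.tau)) * (q : ℝ) ^ (S.s - 1 - S.tau) := by
        have h3 : (2 : ℝ) ^ (1 - S.s + S.tau) ≤ 2 := by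
          calc (2 : ℝ) ^ (1 - S.s + S.tau) ≤ (2 : ℝ) ^ (1 : ℝ) :=
                Real.rpow_le_rpow_of_exponent_le (by norm_num) (by (clear * - hts; linarith))
            _ = 2 := Real.rpow_one 2
        (clear * - h3 h2 hq0; gcongr)
    _ = 2 * (q : ℝ) ^ (S.s - 1 + 2 * S.tau) := by
        rw [mul_assoc, ← Real.rpow_add hq0]
        congr 2
        ring

theorem ctlLe : CtlLe := by
  intro S
  obtain ⟨K1, hK1⟩ := woLe S
  have hc := S.c1_pos
  obtain ⟨K2, hK2⟩ := exists_nat_gt (8 / S.c1)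
  refine ⟨max (max S.K K1) (max K2 1), fun k0 hk0 R hR q k1 hk1 => ⟨S.ctl_nonneg _ _ _ _, ?_, ?_⟩⟩
  · simp only [max_le_iff] at hk0
    obtain ⟨⟨a1, a2⟩, a3, a4⟩ := hk0
    have hk0R : (1 : ℝ) ≤ k0 := by exact_mod_cast a4
    have hmono := S.ctl_mono (k0 := k0) hk1 R q
    have hτ := S.tau_pos
    -- bound of the sum over all owners
    have hsum : S.ctl k0 (top q) R q ≤
        (S.own k0 R q : ℝ) * (2 / S.c1 / (k0 : ℝ) ^ 2 * (2 * (q : ℝ) ^ (S.s - 1 + 2 * S.tau))) := by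
      unfold Sys.ctl Sys.own Sys.cw
      push_cast
      rw [Finset.sum_mul]
      refine Finset.sum_le_sum fun k hk => ?_
      rw [Finset.sum_mul]
      refine Finset.sum_le_sum fun j hj => ?_
      rw [← nsmul_eq_mul]
      refine Finset.sum_le_card_nsmul _ _ _ fun x hx => ?_
      rw [Finset.mem_filter, S.mem_act] at hx
      obtain ⟨⟨hx1, hx2⟩, hx3⟩ := hx
      have hkk := (Finset.mem_Ico.1 hk).1
      have hKk : S.K ≤ k := a1.trans hkk
      have hm1 := (S.cand_facts hKk hj hx1).2.2.2.1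
      have h1 := (hK1 k0 a2 R hR k hkk j hj x.2 hm1.le).2
      have h2 := wd_le S hKk hj hx1 hx3
      have h3 : 2 / S.c1 / (k : ℝ) ^ 2 ≤ 2 / S.c1 / (k0 : ℝ) ^ 2 := by
        have : (k0 : ℝ) ≤ k := by exact_mod_cast hkk
        (clear * - hc a4 this; gcongr)
      calc S.wo R k j x.2 ≤ 2 / S.c1 / (k : ℝ) ^ 2 * S.wd k x.2 := h1
        _ ≤ 2 / S.c1 / (k0 : ℝ) ^ 2 * (2 * (q : ℝ) ^ (S.s - 1 + 2 * S.tau)) := by
            refine mul_le_mul h3 h2 (S.wd_nonneg _ _) (by positivity)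
    rcases Nat.eq_zero_or_pos q with hq | hq
    · -- no owners
      subst hq
      have h0 : S.ctl k0 (top 0) R 0 = 0 := by
        unfold Sys.ctl Sys.cw
        refine Finset.sum_eq_zero fun k hk => Finset.sum_eq_zero fun j hj => ?_
        refine Finset.sum_eq_zero fun x hx => ?_
        rw [Finset.mem_filter, S.mem_act] at hx
        obtain ⟨⟨hx1, hx2⟩, hx3⟩ := hx
        have hkk := (Finset.mem_Ico.1 hk).1
        have := (S.cand_facts (a1.trans hkk) hj hx1).1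
        rw [hx3] at this
        exact absurd this Nat.not_prime_zero
      have h1 : S.ctl k0 k1 R 0 = 0 := le_antisymm (hmono.trans h0.le) (S.ctl_nonneg _ _ _ _)
      rw [h1, mul_zero]
      exact Real.rpow_nonneg (Nat.cast_nonneg _) _
    · have hqR : (0 : ℝ) < q := by exact_mod_cast hq
      have hq1 : (1 : ℝ) ≤ q := by exact_mod_cast hq
      have hown := hR.mult q
      have hk2 : 8 / S.c1 ≤ (k0 : ℝ) ^ 2 := by
        have h1 : (K2 : ℝ) ≤ k0 := by exact_mod_cast a3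
        (clear * - hK2 h1 hk0R; nlinarith)
      have h8 : 8 / S.c1 / (k0 : ℝ) ^ 2 ≤ 1 := by
        rw [div_le_one (by (clear * - a4; positivity))]
        exact hk2
      calc 2 * S.ctl k0 k1 R q ≤ 2 * ((S.own k0 R q : ℝ) *
            (2 / S.c1 / (k0 : ℝ) ^ 2 * (2 * (q : ℝ) ^ (S.s - 1 + 2 * S.tau)))) := by
            have := hmono.trans hsum
            (clear * - hmono hsum; linarith)
        _ ≤ 2 * ((q : ℝ) ^ S.tau *
            (2 / S.c1 / (k0 : ℝ) ^ 2 * (2 * (q : ℝ) ^ (S.s - 1 + 2 * S.tau)))) := by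
            (clear * - hown hc a4 hq; gcongr)
        _ = 8 / S.c1 / (k0 : ℝ) ^ 2 * ((q : ℝ) ^ S.tau * (q : ℝ) ^ (S.s - 1 + 2 * S.tau)) := by
            ring
        _ ≤ 1 * ((q : ℝ) ^ S.tau * (q : ℝ) ^ (S.s - 1 + 2 * S.tau)) := by
            (clear * - h8 hq; gcongr)
        _ = (q : ℝ) ^ (S.s - 1 + 3 * S.tau) := by
            rw [one_mul, ← Real.rpow_add hqR]
            congr 1
            ring
        _ ≤ (q : ℝ) ^ (S.s - 1 + 5 * S.tau) :=
            Real.rpow_le_rpow_of_exponent_le hq1 (by (clear * - hτ; linarith))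
  · intro hq
    simp only [max_le_iff] at hk0
    obtain ⟨⟨a1, a2⟩, a3, a4⟩ := hk0
    unfold Sys.ctl Sys.cw
    refine Finset.sum_eq_zero fun k hk => Finset.sum_eq_zero fun j hj => ?_
    refine Finset.sum_eq_zero fun x hx => ?_
    rw [Finset.mem_filter, S.mem_act] at hx
    obtain ⟨⟨hx1, hx2⟩, hx3⟩ := hx
    have hkk := (Finset.mem_Ico.1 hk).1
    have h1 := (S.cand_facts (a1.trans hkk) hj hx1).2.2.2.2.2.2.2.1
    rw [hx3] at h1
    have h2 : (2 : ℝ) ^ ((k0 : ℝ) / 3) ≤ (2 : ℝ) ^ ((k : ℝ) / 3) := by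
      refine Real.rpow_le_rpow_of_exponent_le (by norm_num) ?_
      have : (k0 : ℝ) ≤ k := by exact_mod_cast hkk
      (clear * - this; linarith)
    (clear * - hq h1 h2; linarith)

theorem wpLe : WpLe := by
  intro S
  obtain ⟨C, K1, hK1⟩ := ordLe S
  obtain ⟨K2, hK2⟩ := ctlLe S
  have hτ := S.tau_pos
  obtain ⟨K3, hK3⟩ := exists_nat_gt (5 / S.tau)
  obtain ⟨K4, hK4⟩ := exists_nat_gt (10 * (2 * |C| + 1))
  refine ⟨max (max K1 K2) (max (max K3 K4) 2), fun k0 hk0 R hR p hp => ⟨S.Wp_nonneg _ _ _, ?_⟩⟩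
  simp only [max_le_iff] at hk0
  obtain ⟨⟨a1, a2⟩, ⟨a3, a4⟩, a5⟩ := hk0
  have hk0R : (2 : ℝ) ≤ k0 := by exact_mod_cast a5
  have hpR : (1 : ℝ) < p := by exact_mod_cast hp.one_lt
  have hp0 : (0 : ℝ) < p := by (clear * - hpR; linarith)
  unfold Sys.Fh
  split_ifs with h1
  · -- everything vanishes
    have hb : S.bR R p = 0 := by
      unfold Sys.bR
      rw [if_neg]
      intro hpR'
      exact absurd (hR.prime p hpR').2 (not_le.2 h1)
    have ho : S.ordw k0 p = 0 := by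
      unfold Sys.ordw
      rw [if_pos]
      have h2 : (p : ℝ) < (2 : ℝ) ^ ((k0 - 1 : ℕ) : ℝ) := by
        refine h1.trans_le (Real.rpow_le_rpow_of_exponent_le (by norm_num) ?_)
        rw [Nat.cast_sub (by omega)]
        push_cast
        (clear * - hk0R; linarith)
      rw [Real.rpow_natCast] at h2
      exact_mod_cast h2
    have hct : S.ctl k0 (top p) R p = 0 := by
      refine (hK2 k0 a2 R hR p (top p) le_rfl).2.2 (h1.trans_le ?_)
      refine Real.rpow_le_rpow_of_exponent_le (by norm_num) ?_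
      (clear * - hk0R; linarith)
    unfold Sys.Wp
    rw [hb, ho, hct]
    simp
  · rw [not_lt] at h1
    have ho := (hK1 k0 a1 p hp).2
    have hct := (hK2 k0 a2 R hR p (top p) le_rfl).2.1
    have hlog2 : (1 : ℝ) / 2 ≤ Real.log 2 := by
      have := Real.log_two_gt_d9
      (clear * - this; linarith)
    have hlog : (k0 : ℝ) / 10 ≤ Real.log p := by
      have h2 := Real.log_le_log (by positivity) h1
      rw [Real.log_rpow (by norm_num)] at h2
      nlinarith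
    have hlogC : 2 * |C| + 1 ≤ Real.log p := by
      have h3 : (K4 : ℝ) ≤ k0 := by exact_mod_cast a4
      (clear * - hK4 hlog h3; linarith)
    have hC0 : 0 ≤ |C| := abs_nonneg C
    have hlog1 : 1 ≤ Real.log p := by (clear * - hlogC hC0; linarith)
    have hlog3 : 2 * |C| ≤ Real.log p ^ 3 := by
      have h4 : Real.log p ≤ Real.log p ^ 3 := le_self_pow₀ hlog1 (by norm_num)
      (clear * - hlogC h4; linarith)
    have hpτ : 2 ≤ (p : ℝ) ^ S.tau := by
      calc (2 : ℝ) = (2 : ℝ) ^ (1 : ℝ) := (Real.rpow_one 2).symm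
        _ ≤ (2 : ℝ) ^ ((k0 : ℝ) / 5 * S.tau) := by
            refine Real.rpow_le_rpow_of_exponent_le (by norm_num) ?_
            have h5 : 5 / S.tau ≤ k0 := hK3.le.trans (by exact_mod_cast a3)
            rw [div_le_iff₀ hτ] at h5
            (clear * - h5; linarith)
        _ = ((2 : ℝ) ^ ((k0 : ℝ) / 5)) ^ S.tau := by rw [Real.rpow_mul (by norm_num)]
        _ ≤ (p : ℝ) ^ S.tau := Real.rpow_le_rpow (by positivity) h1 hτ.le
    have hA : 0 < (p : ℝ) ^ (S.s - 1) := by positivity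
    have hB : (p : ℝ) ^ (S.s - 1) ≤ (p : ℝ) ^ (S.s - 1 + 5 * S.tau) :=
      Real.rpow_le_rpow_of_exponent_le hpR.le (by (clear * - hτ; linarith))
    have ho2 : 2 * S.ordw k0 p ≤ (p : ℝ) ^ (S.s - 1) := by
      have h6 : C * ((p : ℝ) ^ (S.s - 1) / Real.log p ^ 3) ≤
          |C| * ((p : ℝ) ^ (S.s - 1) / Real.log p ^ 3) :=
        mul_le_mul_of_nonneg_right (le_abs_self C) (by (clear * - hpR hlog1; positivity))
      have h7 : 2 * (|C| * ((p : ℝ) ^ (S.s - 1) / Real.log p ^ 3)) ≤ (p : ℝ) ^ (S.s - 1) := by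
        have h8 : 2 * (|C| * ((p : ℝ) ^ (S.s - 1) / Real.log p ^ 3)) =
            (p : ℝ) ^ (S.s - 1) * (2 * |C|) / Real.log p ^ 3 := by ring
        rw [h8, div_le_iff₀ (by positivity)]
        exact mul_le_mul_of_nonneg_left hlog3 hA.le
      (clear * - ho h6 h7; linarith)
    have hG : 2 * (p : ℝ) ^ (S.s - 1 + 5 * S.tau) ≤ S.gam p := by
      unfold Sys.gam
      have h9 : S.s - 1 + 6 * S.tau = S.tau + (S.s - 1 + 5 * S.tau) := by ring
      rw [h9, Real.rpow_add hp0 S.tau]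
      exact mul_le_mul_of_nonneg_right hpτ (by positivity)
    unfold Sys.Wp
    (clear * - hct hB ho2 hG; linarith)

end Pool.Agent.M17.Helper59.KS
end
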