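import Mathlib
import Pool.Agent.Helper53.KM.G06
import Pool.Agent.Helper53.KM.G11
import Pool.Agent.Helper53.KM.G12
import Pool.Agent.Helper53.KM.G26

/- Helper53.KN.Helper61.KS.Collision -/
section
/-! Collision lemma (design D4 of the KS project, elementary core).

* `card_le_of_separated`: separated reals in an interval.
* `fracCount`: pairs of distinct primes with quotient in a short interval.
* `collision`: few cells have many primes `r` with a poor window inside `J/r`.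
* `regular`: in every block almost all primes are regular. -/

set_option autoImplicit false
open scoped Classical

namespace Pool.Agent.M17.Helper61.KS

/-- points of an interval of length `L` with mutual distances at least `δ` -/
theorem card_le_of_separated {ι : Type*} (S : Finset ι) (g : ι → ℝ) {a L δ : ℝ} (hδ : 0 < δ) (hL : 0 ≤ L)
    (hmem : ∀ i ∈ S, a ≤ g i ∧ g i ≤ a + L)
    (hsep : ∀ i ∈ S, ∀ j ∈ S, i ≠ j → δ ≤ |g i - g j|) :
    (S.card : ℝ) ≤ 1 + L / δ := by
  have hinj : Set.InjOn (fun i => ⌊(g i - a) / δ⌋₊) (S : Set ι) := by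
    intro i hi j hj hij
    by_contra hne
    have h1 := hsep i hi j hj hne
    have hi0 : 0 ≤ (g i - a) / δ := div_nonneg (by (clear * - hmem hi; linarith [(hmem i hi).1])) hδ.le
    have hj0 : 0 ≤ (g j - a) / δ := div_nonneg (by (clear * - hmem hj; linarith [(hmem j hj).1])) hδ.le
    have h2 := Nat.floor_le hi0
    have h3 := Nat.lt_floor_add_one ((g i - a) / δ)
    have h4 := Nat.floor_le hj0
    have h5 := Nat.lt_floor_add_one ((g j - a) / δ)
    simp only at hij
    rw [hij] at h2 h3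
    have h6 : |(g i - a) / δ - (g j - a) / δ| < 1 := by
      rw [abs_lt]; constructor <;> (clear * - h2 h5 h3 h4; linarith)
    have h7 : (g i - a) / δ - (g j - a) / δ = (g i - g j) / δ := by ring
    rw [h7, abs_div, abs_of_pos hδ, div_lt_one hδ] at h6
    (clear * - h1 h6; linarith)
  have hmaps : ∀ i ∈ S, ⌊(g i - a) / δ⌋₊ ∈ Finset.range (⌊L / δ⌋₊ + 1) := by
    intro i hi
    rw [Finset.mem_range, Nat.lt_succ_iff]
    apply Nat.floor_le_floor
    apply div_le_div_of_nonneg_right _ hδ.le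
    linarith [(hmem i hi).2]
  have hc := Finset.card_le_card_of_injOn _ hmaps hinj
  rw [Finset.card_range] at hc
  have h8 := Nat.floor_le (div_nonneg hL hδ.le)
  calc (S.card : ℝ) ≤ ((⌊L / δ⌋₊ + 1 : ℕ) : ℝ) := by exact_mod_cast hc
    _ = ⌊L / δ⌋₊ + 1 := by push_cast; ring
    _ ≤ 1 + L / δ := by linarith

/-- pairs of distinct primes `r, r'` of `[Q, 2Q]` with `|r/r' - z| ≤ η` -/
theorem fracCount {Q : ℝ} (hQ : 1 ≤ Q) (R : Finset ℕ) (hR : ∀ r ∈ R, r.Prime ∧ Q ≤ r ∧ (r : ℝ) ≤ 2 * Q)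
    (z η : ℝ) (hη : 0 ≤ η) :
    (((R ×ˢ R).filter (fun p => p.1 ≠ p.2 ∧ |(p.1 : ℝ) / p.2 - z| ≤ η)).card : ℝ) ≤ 1 + 8 * η * Q ^ 2 := by
  have key := card_le_of_separated ((R ×ˢ R).filter (fun p => p.1 ≠ p.2 ∧ |(p.1 : ℝ) / p.2 - z| ≤ η))
    (fun p => (p.1 : ℝ) / p.2) (a := z - η) (L := 2 * η) (δ := 1 / (4 * Q ^ 2)) (by (clear * - hQ; positivity)) (by linarith)
    (by
      intro p hp
      rw [Finset.mem_filter] at hp
      have := hp.2.2
      rw [abs_le] at this
      constructor <;> linarith)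
    (by
      intro p hp q hq hne
      rw [Finset.mem_filter, Finset.mem_product] at hp hq
      obtain ⟨⟨hp1, hp2⟩, hp3, -⟩ := hp
      obtain ⟨⟨hq1, hq2⟩, hq3, -⟩ := hq
      obtain ⟨pp1, pa1, pb1⟩ := hR _ hp1
      obtain ⟨pp2, pa2, pb2⟩ := hR _ hp2
      obtain ⟨qp1, qa1, qb1⟩ := hR _ hq1
      obtain ⟨qp2, qa2, qb2⟩ := hR _ hq2
      have h2pos : (0 : ℝ) < p.2 := by linarith
      have hq2pos : (0 : ℝ) < q.2 := by (clear * - hQ qa2; linarith)
      have hcross : (p.1 : ℤ) * q.2 - q.1 * p.2 ≠ 0 := by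
        intro h0
        have h1 : p.1 * q.2 = q.1 * p.2 := by
          have : (p.1 : ℤ) * q.2 = q.1 * p.2 := by (clear * - h0; linarith)
          exact_mod_cast this
        have h2 : p.1 ∣ q.1 * p.2 := Dvd.intro _ h1
        rcases (Nat.Prime.dvd_mul pp1).1 h2 with h3 | h3
        · have h4 : p.1 = q.1 := (Nat.prime_dvd_prime_iff_eq pp1 qp1).1 h3
          have h5 : q.2 = p.2 := by
            rw [h4] at h1
            exact Nat.eq_of_mul_eq_mul_left qp1.pos h1
          exact hne (Prod.ext h4 h5.symm)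
        · exact hp3 ((Nat.prime_dvd_prime_iff_eq pp1 pp2).1 h3)
      have hcross' : (1 : ℝ) ≤ |(p.1 : ℝ) * q.2 - q.1 * p.2| := by
        have : (1 : ℤ) ≤ |(p.1 : ℤ) * q.2 - q.1 * p.2| := Int.one_le_abs hcross
        have h' : ((1 : ℤ) : ℝ) ≤ ((|(p.1 : ℤ) * q.2 - q.1 * p.2| : ℤ) : ℝ) := by exact_mod_cast this
        push_cast at h'
        exact h'
      have heq : (p.1 : ℝ) / p.2 - (q.1 : ℝ) / q.2 = ((p.1 : ℝ) * q.2 - q.1 * p.2) / (p.2 * q.2) := by
        (clear * - hq2pos h2pos; field_simp)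
      rw [heq, abs_div, abs_of_pos (mul_pos h2pos hq2pos), div_le_div_iff₀ (by positivity) (mul_pos h2pos hq2pos)]
      have h9 : (p.2 : ℝ) * q.2 ≤ (2 * Q) * (2 * Q) := by
        apply mul_le_mul pb2 qb2 hq2pos.le (by linarith)
      (clear * - h9 hcross'; nlinarith [sq_nonneg Q]))
  refine key.trans (le_of_eq ?_)
  field_simp
  ring

/-- Cauchy-Schwarz for the fibres of a map -/
theorem sq_card_le {α β : Type*} [DecidableEq β] (A : Finset α) (P : Finset β) (φ : α → β) (h : ∀ a ∈ A, φ a ∈ P) :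
    (A.card : ℝ) ^ 2 ≤ P.card * (((A ×ˢ A).filter (fun p => φ p.1 = φ p.2)).card : ℝ) := by
  have h1 : A.card = ∑ b ∈ P, (A.filter (fun a => φ a = b)).card := Finset.card_eq_sum_card_fiberwise h
  have h2 : ((A ×ˢ A).filter (fun p => φ p.1 = φ p.2)).card = ∑ b ∈ P, (A.filter (fun a => φ a = b)).card ^ 2 := by
    have h3 : ∀ p ∈ (A ×ˢ A).filter (fun p => φ p.1 = φ p.2), φ p.1 ∈ P := by
      intro p hp
      rw [Finset.mem_filter, Finset.mem_product] at hp
      exact h _ hp.1.1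
    rw [Finset.card_eq_sum_card_fiberwise h3]
    refine Finset.sum_congr rfl (fun b _ => ?_)
    rw [sq, ← Finset.card_product]
    congr 1
    ext p
    simp only [Finset.mem_filter, Finset.mem_product]
    constructor
    · rintro ⟨⟨⟨h4, h5⟩, h6⟩, h7⟩
      exact ⟨⟨h4, h7⟩, ⟨h5, by rw [← h6, h7]⟩⟩
    · rintro ⟨⟨h4, h7⟩, ⟨h5, h8⟩⟩
      exact ⟨⟨⟨h4, h5⟩, by rw [h7, h8]⟩, h7⟩
  rw [h1, h2]
  push_cast
  have := sq_sum_le_card_mul_sum_sq (s := P) (f := fun b => ((A.filter (fun a => φ a = b)).card : ℝ))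
  exact this

/-- THE COLLISION LEMMA. `Js` cells with left end points `x i`, `B i` the set of primes `r` such that a poor window
meets `J/r`, `φ i r` such a window. -/
theorem collision {ι β : Type*} [DecidableEq ι] [DecidableEq β] (Js : Finset ι) (x : ι → ℝ) (R : Finset ℕ) (B : ι → Finset ℕ)
    (P : Finset β) (φ : ι → ℕ → β) {X lam Q ρ π0 : ℝ} (hX : 0 < X) (hlam : 0 < lam) (hQ : 1 ≤ Q) (hρ : 0 ≤ ρ) (hπ : 0 < π0)
    (hR : ∀ r ∈ R, r.Prime ∧ Q ≤ r ∧ (r : ℝ) ≤ 2 * Q) (hB : ∀ i ∈ Js, B i ⊆ R)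
    (hx : ∀ i ∈ Js, X ≤ x i) (hsep : ∀ i ∈ Js, ∀ j ∈ Js, i ≠ j → lam ≤ |x i - x j|)
    (hP : ∀ i ∈ Js, ∀ r ∈ B i, φ i r ∈ P)
    (hclose : ∀ i ∈ Js, ∀ j ∈ Js, ∀ r ∈ B i, ∀ r' ∈ B j, φ i r = φ j r' → |x i / r - x j / r'| ≤ ρ)
    (hcard : ∀ i ∈ Js, π0 ≤ ((B i).card : ℝ))
    (hcond : (P.card : ℝ) * (1 + 16 * ρ * Q ^ 3 / X) ≤ π0 ^ 2 / 2) :
    (Js.card : ℝ) * π0 ≤ 2 * P.card * (1 + 4 * ρ * Q / lam) := by
  set A : Finset (ι × ℕ) := (Js ×ˢ R).filter (fun p => p.2 ∈ B p.1) with hA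
  have memA : ∀ a ∈ A, a.1 ∈ Js ∧ a.2 ∈ B a.1 := by
    intro a ha
    rw [hA, Finset.mem_filter, Finset.mem_product] at ha
    exact ⟨ha.1.1, ha.2⟩
  set ψ : ι × ℕ → β := fun a => φ a.1 a.2 with hψ
  have hCS := sq_card_le A P ψ (fun a ha => hP _ (memA a ha).1 _ (memA a ha).2)
  -- number of pairs
  have hAcard : (Js.card : ℝ) * π0 ≤ A.card := by
    have h1 : A.card = ∑ i ∈ Js, (A.filter (fun a => a.1 = i)).card :=
      Finset.card_eq_sum_card_fiberwise (fun a ha => (memA a ha).1)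
    have h2 : ∀ i ∈ Js, π0 ≤ ((A.filter (fun a => a.1 = i)).card : ℝ) := by
      intro i hi
      refine (hcard i hi).trans ?_
      have : (B i).card ≤ (A.filter (fun a => a.1 = i)).card := by
        apply Finset.card_le_card_of_injOn (fun r => (i, r))
        · intro r hr
          have hr' : r ∈ B i := hr
          simp only [Finset.coe_filter, Set.mem_ofPred_eq, hA, Finset.mem_filter, Finset.mem_product]
          exact ⟨⟨⟨hi, hB i hi hr'⟩, hr'⟩, trivial⟩
        · intro r _ r' _ h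
          exact (Prod.ext_iff.1 h).2
      exact_mod_cast this
    rw [h1]
    push_cast
    calc (Js.card : ℝ) * π0 = ∑ i ∈ Js, π0 := by rw [Finset.sum_const, nsmul_eq_mul]
      _ ≤ _ := Finset.sum_le_sum h2
  -- split the collisions
  set C := (A ×ˢ A).filter (fun p => ψ p.1 = ψ p.2) with hC
  have hsplit : C.card = (C.filter (fun p => p.1.2 = p.2.2)).card + (C.filter (fun p => ¬ p.1.2 = p.2.2)).card :=
    (Finset.card_filter_add_card_filter_not _).symm
  have memC : ∀ p ∈ C, p.1 ∈ A ∧ p.2 ∈ A ∧ ψ p.1 = ψ p.2 := by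
    intro p hp
    rw [hC, Finset.mem_filter, Finset.mem_product] at hp
    exact ⟨hp.1.1, hp.1.2, hp.2⟩
  have hrpos : ∀ i ∈ Js, ∀ r ∈ B i, (0 : ℝ) < r ∧ (r : ℝ) ≤ 2 * Q := by
    intro i hi r hr
    obtain ⟨_, h2, h3⟩ := hR r (hB i hi hr)
    exact ⟨by (clear * - hQ h2; linarith), h3⟩
  have hC1 : ((C.filter (fun p => p.1.2 = p.2.2)).card : ℝ) ≤ A.card * (1 + 4 * ρ * Q / lam) := by
    have h1 : (C.filter (fun p => p.1.2 = p.2.2)).card
        = ∑ a ∈ A, ((C.filter (fun p => p.1.2 = p.2.2)).filter (fun p => p.1 = a)).card :=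
      Finset.card_eq_sum_card_fiberwise (fun p hp => (memC p (Finset.mem_filter.1 hp).1).1)
    rw [h1]
    push_cast
    have h2 : ∀ a ∈ A, (((C.filter (fun p => p.1.2 = p.2.2)).filter (fun p => p.1 = a)).card : ℝ) ≤ 1 + 4 * ρ * Q / lam := by
      intro a ha
      obtain ⟨ha1, ha2⟩ := memA a ha
      have h3 := card_le_of_separated (((C.filter (fun p => p.1.2 = p.2.2)).filter (fun p => p.1 = a)))
        (fun p => x p.2.1) (a := x a.1 - 2 * ρ * Q) (L := 4 * ρ * Q) (δ := lam) hlam (by (clear * - hρ hQ; positivity))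
        (by
          intro p hp
          rw [Finset.mem_filter, Finset.mem_filter] at hp
          obtain ⟨⟨hpC, hp2⟩, rfl⟩ := hp
          obtain ⟨m1, m2, m3⟩ := memC p hpC
          obtain ⟨n1, n2⟩ := memA _ m1
          obtain ⟨o1, o2⟩ := memA _ m2
          have h4 := hclose _ n1 _ o1 _ n2 _ o2 m3
          obtain ⟨q1, q2⟩ := hrpos _ n1 _ n2
          rw [← hp2, ← sub_div, abs_div, abs_of_pos q1, div_le_iff₀ q1] at h4
          have h5 : |x p.1.1 - x p.2.1| ≤ 2 * ρ * Q := by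
            refine h4.trans ?_
            (clear * - hρ q2; nlinarith)
          rw [abs_le] at h5
          constructor <;> (clear * - h5; linarith))
        (by
          intro p hp q hq hne
          rw [Finset.mem_filter, Finset.mem_filter] at hp hq
          obtain ⟨⟨hpC, hp2⟩, hpa⟩ := hp
          obtain ⟨⟨hqC, hq2⟩, hqa⟩ := hq
          obtain ⟨m1, m2, m3⟩ := memC p hpC
          obtain ⟨n1, n2, n3⟩ := memC q hqC
          have : p.2.1 ≠ q.2.1 := by
            intro h6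
            apply hne
            refine Prod.ext (hpa.trans hqa.symm) (Prod.ext h6 ?_)
            rw [← hp2, ← hq2, hpa, hqa]
          exact hsep _ (memA _ m2).1 _ (memA _ n2).1 this)
      exact h3
    calc (∑ a ∈ A, (((C.filter (fun p => p.1.2 = p.2.2)).filter (fun p => p.1 = a)).card : ℝ))
        ≤ ∑ a ∈ A, (1 + 4 * ρ * Q / lam) := Finset.sum_le_sum h2
      _ = _ := by rw [Finset.sum_const, nsmul_eq_mul]
  have hC2 : ((C.filter (fun p => ¬ p.1.2 = p.2.2)).card : ℝ) ≤ (Js.card : ℝ) ^ 2 * (1 + 16 * ρ * Q ^ 3 / X) := by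
    set C2 := C.filter (fun p => ¬ p.1.2 = p.2.2) with hC2def
    have h1 : C2.card = ∑ ij ∈ Js ×ˢ Js, (C2.filter (fun p => (p.1.1, p.2.1) = ij)).card := by
      apply Finset.card_eq_sum_card_fiberwise
      intro p hp
      obtain ⟨m1, m2, m3⟩ := memC p (Finset.mem_filter.1 hp).1
      exact Finset.mem_coe.2 (Finset.mem_product.2 ⟨(memA _ m1).1, (memA _ m2).1⟩)
    rw [h1]
    push_cast
    have h2 : ∀ ij ∈ Js ×ˢ Js, ((C2.filter (fun p => (p.1.1, p.2.1) = ij)).card : ℝ) ≤ 1 + 16 * ρ * Q ^ 3 / X := by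
      intro ij hij
      rw [Finset.mem_product] at hij
      have hxj : X ≤ x ij.2 := hx _ hij.2
      have hxj0 : 0 < x ij.2 := by (clear * - hX hxj; linarith)
      have h3 := fracCount hQ R hR (x ij.1 / x ij.2) (2 * ρ * Q / X) (by positivity)
      have h4 : (C2.filter (fun p => (p.1.1, p.2.1) = ij)).card
          ≤ ((R ×ˢ R).filter (fun p => p.1 ≠ p.2 ∧ |(p.1 : ℝ) / p.2 - x ij.1 / x ij.2| ≤ 2 * ρ * Q / X)).card := by
        apply Finset.card_le_card_of_injOn (fun p => (p.1.2, p.2.2))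
        · intro p hp
          have hp' : p ∈ C2.filter (fun p => (p.1.1, p.2.1) = ij) := hp
          rw [Finset.mem_filter] at hp'
          obtain ⟨hpC2, hpij⟩ := hp'
          rw [hC2def, Finset.mem_filter] at hpC2
          obtain ⟨hpC, hpne⟩ := hpC2
          obtain ⟨m1, m2, m3⟩ := memC p hpC
          obtain ⟨n1, n2⟩ := memA _ m1
          obtain ⟨o1, o2⟩ := memA _ m2
          have h5 := hclose _ n1 _ o1 _ n2 _ o2 m3
          have e1 : p.1.1 = ij.1 := by rw [← hpij]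
          have e2 : p.2.1 = ij.2 := by rw [← hpij]
          obtain ⟨q1, q2⟩ := hrpos _ n1 _ n2
          obtain ⟨r1, r2⟩ := hrpos _ o1 _ o2
          rw [e1, e2] at h5
          refine Finset.mem_coe.2 (Finset.mem_filter.2 ⟨Finset.mem_product.2 ⟨hB _ n1 n2, hB _ o1 o2⟩, hpne, ?_⟩)
          have h6 : (p.1.2 : ℝ) / p.2.2 - x ij.1 / x ij.2
              = -((x ij.1 / p.1.2 - x ij.2 / p.2.2) * (p.1.2 / x ij.2)) := by
            field_simp
            ring
          rw [h6, abs_neg, abs_mul, abs_of_pos (div_pos q1 hxj0)]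
          calc |x ij.1 / p.1.2 - x ij.2 / p.2.2| * (p.1.2 / x ij.2) ≤ ρ * (2 * Q / X) := by
                apply mul_le_mul h5 _ (div_pos q1 hxj0).le hρ
                exact div_le_div₀ (by (clear * - hQ; linarith)) q2 hX hxj
            _ = 2 * ρ * Q / X := by ring
        · intro p hp q hq hpq
          have hp' : p ∈ C2.filter (fun p => (p.1.1, p.2.1) = ij) := hp
          have hq' : q ∈ C2.filter (fun p => (p.1.1, p.2.1) = ij) := hq
          rw [Finset.mem_filter] at hp' hq'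
          have h7 := hp'.2.trans hq'.2.symm
          simp only [Prod.mk.injEq] at h7 hpq
          exact Prod.ext (Prod.ext h7.1 hpq.1) (Prod.ext h7.2 hpq.2)
      have h5 : ((C2.filter (fun p => (p.1.1, p.2.1) = ij)).card : ℝ) ≤ 1 + 8 * (2 * ρ * Q / X) * Q ^ 2 :=
        le_trans (by exact_mod_cast h4) h3
      refine h5.trans (le_of_eq ?_)
      ring
    calc (∑ ij ∈ Js ×ˢ Js, ((C2.filter (fun p => (p.1.1, p.2.1) = ij)).card : ℝ))
        ≤ ∑ ij ∈ Js ×ˢ Js, (1 + 16 * ρ * Q ^ 3 / X) := Finset.sum_le_sum h2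
      _ = _ := by
        rw [Finset.sum_const, nsmul_eq_mul, Finset.card_product]
        push_cast
        ring
  -- conclusion
  have hN : (A.card : ℝ) ^ 2 ≤ P.card * (A.card * (1 + 4 * ρ * Q / lam) + (Js.card : ℝ) ^ 2 * (1 + 16 * ρ * Q ^ 3 / X)) := by
    refine hCS.trans ?_
    apply mul_le_mul_of_nonneg_left _ (Nat.cast_nonneg _)
    have : ((C.card : ℕ) : ℝ) = ((C.filter (fun p => p.1.2 = p.2.2)).card : ℝ) + ((C.filter (fun p => ¬ p.1.2 = p.2.2)).card : ℝ) := by
      rw [hsplit]; push_cast; ring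
    rw [this]
    (clear * - hC1 hC2; linarith)
  have hM2 : (P.card : ℝ) * ((Js.card : ℝ) ^ 2 * (1 + 16 * ρ * Q ^ 3 / X)) ≤ (A.card : ℝ) ^ 2 / 2 := by
    calc (P.card : ℝ) * ((Js.card : ℝ) ^ 2 * (1 + 16 * ρ * Q ^ 3 / X))
        = (Js.card : ℝ) ^ 2 * (P.card * (1 + 16 * ρ * Q ^ 3 / X)) := by ring
      _ ≤ (Js.card : ℝ) ^ 2 * (π0 ^ 2 / 2) := mul_le_mul_of_nonneg_left hcond (sq_nonneg _)
      _ = ((Js.card : ℝ) * π0) ^ 2 / 2 := by ring
      _ ≤ (A.card : ℝ) ^ 2 / 2 := by
        apply div_le_div_of_nonneg_right _ (by norm_num)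
        exact pow_le_pow_left₀ (by (clear * - hπ; positivity)) hAcard 2
  rcases eq_or_lt_of_le (Nat.cast_nonneg (α := ℝ) A.card) with h0 | h0
  · rw [← h0] at hAcard
    have : (0 : ℝ) ≤ 2 * P.card * (1 + 4 * ρ * Q / lam) := by (clear * - hρ hQ hlam; positivity)
    (clear * - hAcard this; linarith)
  · refine hAcard.trans ?_
    have h1 : (A.card : ℝ) * A.card ≤ A.card * (2 * P.card * (1 + 4 * ρ * Q / lam)) := by (clear * - hN hM2; nlinarith)
    exact le_of_mul_le_mul_left h1 h0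

end Pool.Agent.M17.Helper61.KS
end

/- Helper53.KN.Helper79.PNT.Kernel -/
section
/-!
# The Fejer kernel and its Fourier transform
-/

set_option autoImplicit false

open MeasureTheory Filter Topology

namespace Pool.Agent.M17.Helper79.PNT

/-- the triangle weight of half width `l` -/
noncomputable def tri (l t : ℝ) : ℝ := max 0 (1 - |t| / l)

/-- the Fejer kernel -/
noncomputable def fej (v : ℝ) : ℝ := if v = 0 then 1 else 2 * (1 - Real.cos v) / v ^ 2

theorem fej_nonneg (v : ℝ) : 0 ≤ fej v := by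
  unfold fej
  split_ifs with h
  · norm_num
  · have := Real.cos_le_one v
    apply div_nonneg _ (by positivity)
    linarith

theorem fej_le_one (v : ℝ) : fej v ≤ 1 := by
  unfold fej
  split_ifs with h
  · exact le_refl _
  · rw [div_le_one (by positivity)]
    have := Real.one_sub_sq_div_two_le_cos (x := v)
    linarith

theorem fej_le (v : ℝ) : fej v ≤ 8 * (1 + v ^ 2)⁻¹ := by
  rcases le_total (v ^ 2) 1 with h | h
  · refine (fej_le_one v).trans ?_
    rw [← div_eq_mul_inv, le_div_iff₀ (by positivity)]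
    linarith
  · have hv : v ≠ 0 := by
      rintro rfl
      norm_num at h
    unfold fej
    rw [if_neg hv, ← div_eq_mul_inv, div_le_div_iff₀ (by positivity) (by positivity)]
    have h1 := Real.neg_one_le_cos v
    nlinarith [h1, h]

theorem measurable_fej : Measurable fej := by
  unfold fej
  refine Measurable.ite (measurableSet_singleton 0) measurable_const ?_
  fun_prop

theorem integrable_fej : Integrable fej := by
  refine (integrable_inv_one_add_sq.const_mul 8).mono' measurable_fej.aestronglyMeasurable ?_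
  filter_upwards with v
  rw [Real.norm_of_nonneg (fej_nonneg v)]
  exact fej_le v

theorem integral_fej_pos : 0 < ∫ v, fej v := by
  rw [integral_pos_iff_support_of_nonneg (fun v => fej_nonneg v) integrable_fej]
  have h : Set.Ioo (0 : ℝ) 1 ⊆ Function.support fej := by
    intro v hv
    simp only [Function.mem_support]
    unfold fej
    rw [if_neg hv.1.ne']
    have h1 : Real.cos v < 1 := by
      have := Real.cos_lt_cos_of_nonneg_of_le_pi (x := 0) (y := v) le_rfl
        (by linarith [hv.2, Real.pi_gt_three]) hv.1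
      simpa using this
    have h2 : 0 < v ^ 2 := by have := hv.1; positivity
    have : 0 < 2 * (1 - Real.cos v) / v ^ 2 := by
      apply div_pos _ h2
      linarith
    exact this.ne'
  refine lt_of_lt_of_le ?_ (measure_mono h)
  simp

theorem continuous_tri (l : ℝ) : Continuous (tri l) := by
  unfold tri
  fun_prop

theorem tri_nonneg (l t : ℝ) : 0 ≤ tri l t := le_max_left _ _

theorem tri_eq_zero {l t : ℝ} (hl : 0 < l) (ht : l ≤ |t|) : tri l t = 0 := by
  unfold tri
  apply max_eq_left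
  have : 1 ≤ |t| / l := by rwa [le_div_iff₀ hl, one_mul]
  linarith

theorem tri_eq {l t : ℝ} (hl : 0 < l) (ht : |t| ≤ l) : tri l t = 1 - |t| / l := by
  unfold tri
  apply max_eq_right
  have : |t| / l ≤ 1 := by rwa [div_le_one hl]
  linarith

theorem tri_support {l : ℝ} (hl : 0 < l) : Function.support (tri l) ⊆ Set.Ioc (-l) l := by
  intro t ht
  by_contra hcon
  apply ht
  apply tri_eq_zero hl
  by_contra h2
  push Not at h2
  rw [abs_lt] at h2
  exact hcon ⟨h2.1, h2.2.le⟩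

theorem hasCompactSupport_tri {l : ℝ} (hl : 0 < l) : HasCompactSupport (tri l) := by
  apply HasCompactSupport.of_support_subset_isCompact (isCompact_Icc (a := -l) (b := l))
  exact (tri_support hl).trans Set.Ioc_subset_Icc_self

theorem integrable_tri {l : ℝ} (hl : 0 < l) : Integrable (tri l) :=
  (continuous_tri l).integrable_of_hasCompactSupport (hasCompactSupport_tri hl)

/-- half of the Fourier integral -/
theorem integral_half {l v : ℝ} (hl : 0 < l) (hv : v ≠ 0) :
    ∫ t in (0:ℝ)..l, (1 - t / l) * Real.cos (t * v) = (1 - Real.cos (l * v)) / (l * v ^ 2) := by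
  have hd : ∀ t ∈ Set.uIcc (0:ℝ) l, HasDerivAt (fun t => (1 - t / l) * (Real.sin (t * v) / v) -
      Real.cos (t * v) / (l * v ^ 2)) ((1 - t / l) * Real.cos (t * v)) t := by
    intro t _
    have h1 : HasDerivAt (fun t : ℝ => 1 - t / l) (-(1 / l)) t := by
      simpa using ((hasDerivAt_id t).div_const l).const_sub 1
    have h0 : HasDerivAt (fun t : ℝ => t * v) v t := by simpa using (hasDerivAt_id t).mul_const v
    have h2 : HasDerivAt (fun t : ℝ => Real.sin (t * v) / v) (Real.cos (t * v) * v / v) t :=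
      h0.sin.div_const v
    have h3 : HasDerivAt (fun t : ℝ => Real.cos (t * v) / (l * v ^ 2))
        (-Real.sin (t * v) * v / (l * v ^ 2)) t := h0.cos.div_const _
    have h4 := (h1.fun_mul h2).fun_sub h3
    have hl' : l ≠ 0 := hl.ne'
    refine h4.congr_deriv ?_
    field_simp
    ring
  rw [intervalIntegral.integral_eq_sub_of_hasDerivAt hd]
  · have : l ≠ 0 := hl.ne'
    field_simp
    simp
    ring
  · apply Continuous.intervalIntegrable
    fun_prop

theorem integral_tri_cos {l : ℝ} (hl : 0 < l) (v : ℝ) :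
    ∫ t, tri l t * Real.cos (t * v) = l * fej (l * v) := by
  have h1 : ∫ t, tri l t * Real.cos (t * v) = ∫ t in (-l)..l, tri l t * Real.cos (t * v) := by
    symm
    apply intervalIntegral.integral_eq_integral_of_support_subset
    intro t ht
    apply tri_support hl
    intro h
    apply ht
    simp [h]
  have h2 : ∀ a b : ℝ, IntervalIntegrable (fun t => tri l t * Real.cos (t * v)) volume a b := by
    intro a b
    apply Continuous.intervalIntegrable
    exact (continuous_tri l).mul (by fun_prop)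
  rw [h1, ← intervalIntegral.integral_add_adjacent_intervals (h2 (-l) 0) (h2 0 l)]
  have h3 : ∫ t in (-l)..0, tri l t * Real.cos (t * v) = ∫ t in (0:ℝ)..l, tri l t * Real.cos (t * v) := by
    have := intervalIntegral.integral_comp_neg (a := 0) (b := l)
      (fun t => tri l t * Real.cos (t * v))
    simp only [neg_zero] at this
    rw [← this]
    apply intervalIntegral.integral_congr
    intro t _
    simp only [tri, abs_neg]
    rw [neg_mul, Real.cos_neg]
  have h4 : ∫ t in (0:ℝ)..l, tri l t * Real.cos (t * v) =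
      ∫ t in (0:ℝ)..l, (1 - t / l) * Real.cos (t * v) := by
    apply intervalIntegral.integral_congr
    intro t ht
    rw [Set.uIcc_of_le hl.le] at ht
    simp only
    rw [tri_eq hl (by rw [abs_of_nonneg ht.1]; exact ht.2), abs_of_nonneg ht.1]
  rw [h3, h4]
  by_cases hv : v = 0
  · subst hv
    simp only [mul_zero, Real.cos_zero, mul_one, fej, if_true]
    have hd : ∀ t ∈ Set.uIcc (0:ℝ) l, HasDerivAt (fun t => t - t ^ 2 / (2 * l)) (1 - t / l) t := by
      intro t _
      have h5 : HasDerivAt (fun t : ℝ => t - t ^ 2 / (2 * l)) (1 - (2 * t) / (2 * l)) t := by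
        have := (hasDerivAt_id' t).fun_sub ((hasDerivAt_pow 2 t).div_const (2 * l))
        simpa using this
      convert h5 using 1
      rw [mul_div_mul_left _ _ (by norm_num)]
    rw [intervalIntegral.integral_eq_sub_of_hasDerivAt hd]
    · field_simp
      ring
    · apply Continuous.intervalIntegrable
      fun_prop
  · rw [integral_half hl hv]
    unfold fej
    rw [if_neg (mul_ne_zero hl.ne' hv)]
    have : l ≠ 0 := hl.ne'
    field_simp
    ring

theorem integral_tri_sin {l : ℝ} (v : ℝ) :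
    ∫ t, tri l t * Real.sin (t * v) = 0 := by
  have h : ∫ t, tri l t * Real.sin (t * v) = -∫ t, tri l t * Real.sin (t * v) := by
    conv_lhs => rw [← integral_neg_eq_self]
    rw [← integral_neg]
    apply integral_congr_ae
    filter_upwards with t
    simp only [tri, abs_neg]
    rw [neg_mul, Real.sin_neg]
    ring
  linarith

/-- the Fourier transform of the triangle is the Fejer kernel -/
theorem integral_tri_exp {l : ℝ} (hl : 0 < l) (v : ℝ) :
    ∫ t : ℝ, (tri l t : ℂ) * Complex.exp (Complex.I * (t * v)) = ((l * fej (l * v) : ℝ) : ℂ) := by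
  have hc : Integrable (fun t => tri l t * Real.cos (t * v)) := by
    apply ((continuous_tri l).mul (by fun_prop)).integrable_of_hasCompactSupport
    exact (hasCompactSupport_tri hl).mul_right
  have hs : Integrable (fun t => tri l t * Real.sin (t * v)) := by
    apply ((continuous_tri l).mul (by fun_prop)).integrable_of_hasCompactSupport
    exact (hasCompactSupport_tri hl).mul_right
  have h1 : ∀ t : ℝ, (tri l t : ℂ) * Complex.exp (Complex.I * (t * v)) =
      ((tri l t * Real.cos (t * v) : ℝ) : ℂ) + ((tri l t * Real.sin (t * v) : ℝ) : ℂ) * Complex.I := by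
    intro t
    rw [mul_comm Complex.I, Complex.exp_mul_I]
    push_cast
    ring
  simp_rw [h1]
  rw [integral_add hc.ofReal (hs.ofReal.mul_const _), integral_mul_const]
  rw [integral_complex_ofReal, integral_complex_ofReal, integral_tri_cos hl, integral_tri_sin]
  simp

end Pool.Agent.M17.Helper79.PNT
end

/- Helper53.KN.Helper79.PNT.Tauber -/
section
/-!
# The Tauberian step of the Wiener-Ikehara theorem
-/

set_option autoImplicit false

open MeasureTheory Filter Topology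

namespace Pool.Agent.M17.Helper79.PNT

theorem exists_T {η : ℝ} (hη : 0 < η) :
    ∃ T : ℝ, 0 < T ∧ ∫ w in (Set.Icc (-T) T)ᶜ, fej w ≤ η * ∫ w, fej w := by
  have h := (aecover_Icc (μ := (volume : Measure ℝ)) tendsto_neg_atTop_atBot
    tendsto_id).integral_tendsto_of_countably_generated integrable_fej
  have hI := integral_fej_pos
  have h2 : ∀ᶠ T : ℝ in atTop, (1 - η) * ∫ w, fej w < ∫ w in Set.Icc (-T) T, fej w := by
    apply h.eventually_const_lt
    (clear * - hη hI; nlinarith)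
  obtain ⟨T, hT, hT0⟩ := (h2.and (eventually_gt_atTop 0)).exists
  refine ⟨T, hT0, ?_⟩
  have h3 := integral_add_compl (μ := (volume : Measure ℝ)) (s := Set.Icc (-T) T)
    measurableSet_Icc integrable_fej
  (clear * - hT h3; linarith)

section

variable {H : ℝ → ℝ} {A B : ℝ}

/-- the error function -/
noncomputable def err (H : ℝ → ℝ) (A : ℝ) (u : ℝ) : ℝ := H u - if 0 < u then A else 0

theorem measurable_err (hmeas : Measurable H) : Measurable (err H A) := by
  unfold err
  exact hmeas.sub (Measurable.ite measurableSet_Ioi measurable_const measurable_const)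

theorem integrable_err_fej (hmeas : Measurable H) (hbd : ∀ u, |err H A u| ≤ B) (l y : ℝ) :
    Integrable (fun w => err H A (y - w / l) * fej w) := by
  have h1 : Measurable (fun w : ℝ => err H A (y - w / l)) :=
    (measurable_err hmeas).comp (by fun_prop)
  refine (integrable_fej.const_mul B).mono' (h1.mul measurable_fej).aestronglyMeasurable ?_
  filter_upwards with w
  rw [Real.norm_eq_abs, abs_mul, abs_of_nonneg (fej_nonneg w)]
  exact mul_le_mul_of_nonneg_right (hbd _) (fej_nonneg w)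

theorem tauber (hA : 0 ≤ A) (hmeas : Measurable H) (hH0 : ∀ u, 0 ≤ H u)
    (hbd : ∀ u, |err H A u| ≤ B)
    (hmono : ∀ u v, u ≤ v → H u * Real.exp u ≤ H v * Real.exp v)
    (hconv : ∀ l : ℝ, 0 < l → Tendsto (fun y => ∫ w, err H A (y - w / l) * fej w) atTop (𝓝 0)) :
    Tendsto H atTop (𝓝 A) := by
  have hB : 0 ≤ B := (abs_nonneg _).trans (hbd 0)
  have hI := integral_fej_pos
  set I := ∫ w, fej w with hIdef
  rw [Metric.tendsto_nhds]
  intro ε hε
  set η : ℝ := min (1/2) (ε / (A + 4 * (1 + B) + 1)) with hη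
  have hη0 : 0 < η := by (clear * - hε hA hB; positivity)
  have hη2 : η ≤ 1/2 := min_le_left _ _
  have hηε : η * (A + 4 * (1 + B)) < ε := by
    have h1 : η ≤ ε / (A + 4 * (1 + B) + 1) := min_le_right _ _
    rw [le_div_iff₀ (by positivity)] at h1
    (clear * - hη0 h1; nlinarith)
  obtain ⟨T, hT0, hT⟩ := exists_T hη0
  -- choose `l`
  obtain ⟨l, hl0, hl⟩ : ∃ l : ℝ, 0 < l ∧ Real.exp (2 * T / l) ≤ 1 + η := by
    have h1 : Tendsto (fun l : ℝ => Real.exp (2 * T / l)) atTop (𝓝 1) := by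
      have h2 : Tendsto (fun l : ℝ => 2 * T / l) atTop (𝓝 0) := tendsto_const_nhds.div_atTop tendsto_id
      have h3 := (Real.continuous_exp.tendsto 0).comp h2
      rw [Real.exp_zero] at h3
      exact h3
    have h4 : ∀ᶠ l : ℝ in atTop, Real.exp (2 * T / l) < 1 + η := by
      apply h1.eventually_lt_const
      (clear * - hη0; linarith)
    obtain ⟨l, h5, h6⟩ := (h4.and (eventually_gt_atTop 0)).exists
    exact ⟨l, h6, h5.le⟩
  set F : ℝ → ℝ := fun y => ∫ w, err H A (y - w / l) * fej w with hF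
  set IT := ∫ w in Set.Icc (-T) T, fej w with hIT
  have hITI : (1 - η) * I ≤ IT ∧ IT ≤ I := by
    have h3 := integral_add_compl (μ := (volume : Measure ℝ)) (s := Set.Icc (-T) T)
      measurableSet_Icc integrable_fej
    have h4 : 0 ≤ ∫ w in (Set.Icc (-T) T)ᶜ, fej w :=
      setIntegral_nonneg measurableSet_Icc.compl fun w _ => fej_nonneg w
    constructor <;> (clear * - hT h3 h4; linarith)
  have hIT0 : 0 < IT := by (clear * - hI hITI hη2; nlinarith [hITI.1])
  -- tail bound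
  have htail : ∀ y, |∫ w in (Set.Icc (-T) T)ᶜ, err H A (y - w / l) * fej w| ≤ B * (η * I) := by
    intro y
    calc |∫ w in (Set.Icc (-T) T)ᶜ, err H A (y - w / l) * fej w|
        ≤ ∫ w in (Set.Icc (-T) T)ᶜ, |err H A (y - w / l) * fej w| := abs_integral_le_integral_abs
      _ ≤ ∫ w in (Set.Icc (-T) T)ᶜ, B * fej w := by
          apply setIntegral_mono_on
          · exact (integrable_err_fej hmeas hbd l y).abs.integrableOn
          · exact (integrable_fej.const_mul B).integrableOn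
          · exact measurableSet_Icc.compl
          · intro w _
            rw [abs_mul, abs_of_nonneg (fej_nonneg w)]
            exact mul_le_mul_of_nonneg_right (hbd _) (fej_nonneg w)
      _ ≤ B * (η * I) := by
          rw [integral_const_mul]
          exact mul_le_mul_of_nonneg_left hT hB
  have hsplit : ∀ y, F y = (∫ w in Set.Icc (-T) T, err H A (y - w / l) * fej w) +
      ∫ w in (Set.Icc (-T) T)ᶜ, err H A (y - w / l) * fej w := fun y =>
    (integral_add_compl measurableSet_Icc (integrable_err_fej hmeas hbd l y)).symm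
  have hTl : 0 < T / l := by positivity
  have hwl : ∀ w ∈ Set.Icc (-T) T, -(T / l) ≤ w / l ∧ w / l ≤ T / l := by
    intro w hw
    rw [← neg_div]
    exact ⟨div_le_div_of_nonneg_right hw.1 hl0.le, div_le_div_of_nonneg_right hw.2 hl0.le⟩
  -- lower bound for `F y`
  have hlow : ∀ y, T / l < y → (H (y - T / l) * Real.exp (-(2 * T / l)) - A) * IT ≤
      ∫ w in Set.Icc (-T) T, err H A (y - w / l) * fej w := by
    intro y hy
    rw [hIT, ← integral_const_mul]
    apply setIntegral_mono_on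
    · exact (integrable_fej.const_mul _).integrableOn
    · exact (integrable_err_fej hmeas hbd l y).integrableOn
    · exact measurableSet_Icc
    · intro w hw
      apply mul_le_mul_of_nonneg_right _ (fej_nonneg w)
      obtain ⟨h1, h2⟩ := hwl w hw
      unfold err
      rw [if_pos (by (clear * - hy h2; linarith))]
      have h3 := hmono (y - T / l) (y - w / l) (by (clear * - h2; linarith))
      have h4 : H (y - T / l) * Real.exp (-(2 * T / l)) ≤ H (y - w / l) := by
        have h5 : Real.exp (-(2 * T / l)) ≤ Real.exp (y - T / l) * Real.exp (-(y - w / l)) := by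
          rw [← Real.exp_add]
          apply Real.exp_le_exp.mpr
          have : 2 * T / l = T / l + T / l := by ring
          rw [this]
          (clear * - h1; linarith)
        calc H (y - T / l) * Real.exp (-(2 * T / l))
            ≤ H (y - T / l) * (Real.exp (y - T / l) * Real.exp (-(y - w / l))) :=
              mul_le_mul_of_nonneg_left h5 (hH0 _)
          _ = (H (y - T / l) * Real.exp (y - T / l)) * Real.exp (-(y - w / l)) := by ring
          _ ≤ (H (y - w / l) * Real.exp (y - w / l)) * Real.exp (-(y - w / l)) :=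
              mul_le_mul_of_nonneg_right h3 (Real.exp_pos _).le
          _ = H (y - w / l) := by
              rw [mul_assoc, ← Real.exp_add]
              simp
      (clear * - h4; linarith)
  have hupp : ∀ y, T / l < y → ∫ w in Set.Icc (-T) T, err H A (y - w / l) * fej w ≤
      (H (y + T / l) * Real.exp (2 * T / l) - A) * IT := by
    intro y hy
    rw [hIT, ← integral_const_mul]
    apply setIntegral_mono_on
    · exact (integrable_err_fej hmeas hbd l y).integrableOn
    · exact (integrable_fej.const_mul _).integrableOn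
    · exact measurableSet_Icc
    · intro w hw
      apply mul_le_mul_of_nonneg_right _ (fej_nonneg w)
      obtain ⟨h1, h2⟩ := hwl w hw
      unfold err
      rw [if_pos (by (clear * - hy h2; linarith))]
      have h3 := hmono (y - w / l) (y + T / l) (by (clear * - h1; linarith))
      have h4 : H (y - w / l) ≤ H (y + T / l) * Real.exp (2 * T / l) := by
        have h5 : Real.exp (y + T / l) * Real.exp (-(y - w / l)) ≤ Real.exp (2 * T / l) := by
          rw [← Real.exp_add]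
          apply Real.exp_le_exp.mpr
          have : 2 * T / l = T / l + T / l := by ring
          rw [this]
          (clear * - h2; linarith)
        calc H (y - w / l) = (H (y - w / l) * Real.exp (y - w / l)) * Real.exp (-(y - w / l)) := by
              rw [mul_assoc, ← Real.exp_add]
              simp
          _ ≤ (H (y + T / l) * Real.exp (y + T / l)) * Real.exp (-(y - w / l)) :=
              mul_le_mul_of_nonneg_right h3 (Real.exp_pos _).le
          _ = H (y + T / l) * (Real.exp (y + T / l) * Real.exp (-(y - w / l))) := by ring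
          _ ≤ H (y + T / l) * Real.exp (2 * T / l) := mul_le_mul_of_nonneg_left h5 (hH0 _)
      (clear * - h4; linarith)
  have hFη : ∀ᶠ y in atTop, |F y| < η * I := by
    have h1 := (hconv l hl0).abs
    rw [abs_zero] at h1
    exact h1.eventually_lt_const (by (clear * - hε hA hB hI; positivity))
  obtain ⟨Y, hY⟩ := (hFη.and (eventually_gt_atTop (T / l))).exists_forall_of_atTop
  filter_upwards [eventually_ge_atTop (Y + T / l)] with z hz
  have e1 : 0 < Real.exp (2 * T / l) := Real.exp_pos _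
  have e2 : Real.exp (-(2 * T / l)) * Real.exp (2 * T / l) = 1 := by
    rw [← Real.exp_add]; simp
  rw [Real.dist_eq, abs_lt]
  constructor
  · -- lower bound for `H z`, `y = z - T / l`
    have hy := hY (z - T / l) (by (clear * - hz; linarith))
    have h1 := hupp (z - T / l) hy.2
    rw [sub_add_cancel] at h1
    have h2 := hsplit (z - T / l)
    have h3 := htail (z - T / l)
    rw [abs_le] at h3
    have h4 := (abs_lt.mp hy.1).1
    have h5 : -((1 + B) * η * I) ≤ (H z * Real.exp (2 * T / l) - A) * IT := by (clear * - h1 h2 h3 h4; nlinarith [h3.2])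
    have h6 : A - 2 * (1 + B) * η ≤ H z * Real.exp (2 * T / l) := by
      by_contra hcon
      push Not at hcon
      have h7 : (H z * Real.exp (2 * T / l) - A) * IT < (-(2 * (1 + B) * η)) * IT := by
        apply mul_lt_mul_of_pos_right _ hIT0
        (clear * - hcon; linarith)
      have h8 : (-(2 * (1 + B) * η)) * IT ≤ -((1 + B) * η * I) := by
        have h9 : I ≤ 2 * IT := by (clear * - hITI hI hη2; nlinarith [hITI.1])
        have h10 : 0 ≤ (1 + B) * η := by (clear * - hB hε hA; positivity)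
        (clear * - h1 h2 h3 hη0 h4 h7 hη2 hITI h10; nlinarith)
      (clear * - h1 h2 h3 h4 h7 h8; linarith)
    have h7 : H z * Real.exp (2 * T / l) ≤ H z * (1 + η) := mul_le_mul_of_nonneg_left hl (hH0 z)
    have h8 : A - η * (A + 4 * (1 + B)) ≤ H z := by
      by_contra hcon
      push Not at hcon
      have h9 : H z * (1 + η) < (A - η * (A + 4 * (1 + B))) * (1 + η) :=
        mul_lt_mul_of_pos_right hcon (by (clear * - hη0 hη2; linarith))
      have h10 : 0 ≤ η * η * (A + 4 * (1 + B)) := by (clear * - hε hA hB; positivity)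
      have h11 : 0 ≤ (1 + B) * η := by (clear * - hB hε hA; positivity)
      (clear * - h6 h7 h9 h10 h11; nlinarith)
    (clear * - hηε h8; linarith)
  · have hy := hY (z + T / l) (by (clear * - hTl hz; linarith))
    have h1 := hlow (z + T / l) hy.2
    rw [add_sub_cancel_right] at h1
    have h2 := hsplit (z + T / l)
    have h3 := htail (z + T / l)
    rw [abs_le] at h3
    have h4 := (abs_lt.mp hy.1).2
    have h5 : (H z * Real.exp (-(2 * T / l)) - A) * IT ≤ (1 + B) * η * I := by (clear * - h1 h2 h3 h4; nlinarith [h3.1])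
    have h6 : H z * Real.exp (-(2 * T / l)) ≤ A + 2 * (1 + B) * η := by
      by_contra hcon
      push Not at hcon
      have h7 : (2 * (1 + B) * η) * IT < (H z * Real.exp (-(2 * T / l)) - A) * IT := by
        apply mul_lt_mul_of_pos_right _ hIT0
        (clear * - hcon; linarith)
      have h8 : (1 + B) * η * I ≤ (2 * (1 + B) * η) * IT := by
        have h9 : I ≤ 2 * IT := by (clear * - hITI hI hη2; nlinarith [hITI.1])
        have h10 : 0 ≤ (1 + B) * η := by (clear * - hB hε hA; positivity)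
        (clear * - h1 h2 h3 hη0 h4 h7 hη2 hITI h10; nlinarith)
      (clear * - h1 h2 h3 h4 h7 h8; linarith)
    have h7 : H z ≤ (A + 2 * (1 + B) * η) * (1 + η) := by
      calc H z = H z * Real.exp (-(2 * T / l)) * Real.exp (2 * T / l) := by rw [mul_assoc, e2, mul_one]
        _ ≤ (A + 2 * (1 + B) * η) * Real.exp (2 * T / l) := mul_le_mul_of_nonneg_right h6 e1.le
        _ ≤ (A + 2 * (1 + B) * η) * (1 + η) := mul_le_mul_of_nonneg_left hl (by (clear * - hA hB hε; positivity))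
    have h8 : (A + 2 * (1 + B) * η) * (1 + η) ≤ A + η * (A + 4 * (1 + B)) := by
      have h10 : 0 ≤ (1 + B) * η := by (clear * - hB hε hA; positivity)
      (clear * - hITI h3 hI hη0 hIT0 hη2; nlinarith)
    (clear * - hηε h7 h8; linarith)

end

end Pool.Agent.M17.Helper79.PNT
end

/- Helper53.KN.Helper79.PNT.WI -/
section
/-!
# The Wiener-Ikehara theorem (with an a priori Chebyshev bound)
-/

set_option autoImplicit false

open MeasureTheory Filter Topology

namespace Pool.Agent.M17.Helper79.PNT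

/-- summatory function -/
noncomputable def summ (a : ℕ → ℝ) (x : ℝ) : ℝ := ∑ k ∈ Finset.Icc 1 ⌊x⌋₊, a k

/-- normalised summatory function in the exponential variable -/
noncomputable def Hf (a : ℕ → ℝ) (u : ℝ) : ℝ := summ a (Real.exp u) * Real.exp (-u)

section

variable {a : ℕ → ℝ} {A M : ℝ} {G : ℂ → ℂ}

theorem monotone_summ (ha : ∀ n, 0 ≤ a n) : Monotone (summ a) := by
  intro x y hxy
  unfold summ
  apply Finset.sum_le_sum_of_subset_of_nonneg
  · exact Finset.Icc_subset_Icc_right (Nat.floor_mono hxy)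
  · intro k _ _
    exact ha k

theorem summ_nonneg (ha : ∀ n, 0 ≤ a n) (x : ℝ) : 0 ≤ summ a x :=
  Finset.sum_nonneg fun k _ => ha k

theorem measurable_summ (ha : ∀ n, 0 ≤ a n) : Measurable (summ a) :=
  (monotone_summ ha).measurable

theorem measurable_Hf (ha : ∀ n, 0 ≤ a n) : Measurable (Hf a) := by
  unfold Hf
  exact ((measurable_summ ha).comp Real.measurable_exp).mul (by fun_prop)

theorem Hf_nonneg (ha : ∀ n, 0 ≤ a n) (u : ℝ) : 0 ≤ Hf a u :=
  mul_nonneg (summ_nonneg ha _) (Real.exp_pos _).le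

theorem Hf_mul_exp (u : ℝ) : Hf a u * Real.exp u = summ a (Real.exp u) := by
  unfold Hf
  rw [mul_assoc, ← Real.exp_add]
  simp

theorem Hf_mono (ha : ∀ n, 0 ≤ a n) (u v : ℝ) (huv : u ≤ v) :
    Hf a u * Real.exp u ≤ Hf a v * Real.exp v := by
  rw [Hf_mul_exp, Hf_mul_exp]
  exact monotone_summ ha (Real.exp_le_exp.mpr huv)

theorem Hf_neg {u : ℝ} (hu : u < 0) : Hf a u = 0 := by
  unfold Hf summ
  have : ⌊Real.exp u⌋₊ = 0 := by
    rw [Nat.floor_eq_zero, ← Real.exp_zero]
    exact Real.exp_lt_exp.mpr hu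
  rw [this]
  simp

theorem summ_le (hM : ∀ n : ℕ, ∑ k ∈ Finset.Icc 1 n, a k ≤ M * n) (hM0 : 0 ≤ M) {x : ℝ} (hx : 0 ≤ x) :
    summ a x ≤ M * x :=
  (hM ⌊x⌋₊).trans (mul_le_mul_of_nonneg_left (Nat.floor_le hx) hM0)

theorem Hf_le (hM : ∀ n : ℕ, ∑ k ∈ Finset.Icc 1 n, a k ≤ M * n) (hM0 : 0 ≤ M) (u : ℝ) :
    Hf a u ≤ M := by
  unfold Hf
  have h1 := summ_le hM hM0 (Real.exp_pos u).le
  calc summ a (Real.exp u) * Real.exp (-u) ≤ (M * Real.exp u) * Real.exp (-u) :=
        mul_le_mul_of_nonneg_right h1 (Real.exp_pos _).le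
    _ = M := by
        rw [mul_assoc, ← Real.exp_add]
        simp

theorem err_le (ha : ∀ n, 0 ≤ a n) (hM : ∀ n : ℕ, ∑ k ∈ Finset.Icc 1 n, a k ≤ M * n)
    (hM0 : 0 ≤ M) (hA : 0 ≤ A) (u : ℝ) : |err (Hf a) A u| ≤ M + A := by
  unfold err
  have h1 := Hf_nonneg ha u
  have h2 := Hf_le hM hM0 u
  rw [abs_le]
  split_ifs <;> constructor <;> linarith

theorem exp_cpow (u : ℝ) (z : ℂ) : ((Real.exp u : ℝ) : ℂ) ^ z = Complex.exp (u * z) := by
  rw [Complex.cpow_def_of_ne_zero (by exact_mod_cast (Real.exp_pos u).ne'),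
    ← Complex.ofReal_log (Real.exp_pos u).le, Real.log_exp]

theorem integrableOn_exp_neg {z : ℂ} (hz : 0 < z.re) :
    IntegrableOn (fun u : ℝ => Complex.exp (-z * u)) (Set.Ioi 0) :=
  integrableOn_exp_mul_complex_Ioi (by simpa using hz) 0

theorem integrableOn_mul_exp {f : ℝ → ℝ} {B : ℝ} (hf : Measurable f) (hB : ∀ u, |f u| ≤ B)
    {z : ℂ} (hz : 0 < z.re) :
    IntegrableOn (fun u : ℝ => (f u : ℂ) * Complex.exp (-z * u)) (Set.Ioi 0) := by
  have h1 : IntegrableOn (fun u : ℝ => B * ‖Complex.exp (-z * u)‖) (Set.Ioi 0) :=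
    (integrableOn_exp_neg hz).norm.const_mul B
  refine Integrable.mono' h1 ?_ ?_
  · apply Measurable.aestronglyMeasurable
    exact (Complex.measurable_ofReal.comp hf).mul (by fun_prop)
  · filter_upwards with u
    rw [norm_mul, Complex.norm_real, Real.norm_eq_abs]
    exact mul_le_mul_of_nonneg_right (hB u) (norm_nonneg _)

theorem isBigO_sum (ha : ∀ n, 0 ≤ a n) (hM : ∀ n : ℕ, ∑ k ∈ Finset.Icc 1 n, a k ≤ M * n) :
    (fun n : ℕ => ∑ k ∈ Finset.Icc 1 n, a k) =O[atTop] fun n => (n : ℝ) ^ (1 : ℝ) := by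
  apply Asymptotics.IsBigO.of_bound M
  filter_upwards with n
  rw [Real.norm_of_nonneg (Finset.sum_nonneg fun k _ => ha k), Real.rpow_one,
    Real.norm_of_nonneg (Nat.cast_nonneg n)]
  exact hM n

/-- Laplace transform of `Hf` -/
theorem laplace_Hf (ha : ∀ n, 0 ≤ a n) (hM : ∀ n : ℕ, ∑ k ∈ Finset.Icc 1 n, a k ≤ M * n)
    {s : ℂ} (hs : 1 < s.re) :
    LSeries (fun n => (a n : ℂ)) s =
      s * ∫ u in Set.Ioi (0:ℝ), (Hf a u : ℂ) * Complex.exp (-(s - 1) * u) := by
  rw [LSeries_eq_mul_integral_of_nonneg a zero_le_one hs (isBigO_sum ha hM) ha]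
  congr 1
  have himg : Real.exp '' Set.Ioi 0 = Set.Ioi 1 := by
    ext x
    simp only [Set.mem_image, Set.mem_Ioi]
    constructor
    · rintro ⟨u, hu, rfl⟩
      exact Real.one_lt_exp_iff.mpr hu
    · intro hx
      refine ⟨Real.log x, Real.log_pos hx, Real.exp_log (by linarith)⟩
  rw [← himg, integral_image_eq_integral_abs_deriv_smul (f' := Real.exp) measurableSet_Ioi
    (fun x _ => (Real.hasDerivAt_exp x).hasDerivWithinAt) Real.exp_injective.injOn]
  apply setIntegral_congr_fun measurableSet_Ioi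
  intro u _
  simp only
  rw [abs_of_pos (Real.exp_pos u), exp_cpow, Complex.real_smul]
  unfold Hf summ
  push_cast
  have h1 : Complex.exp (u * -(s + 1)) * Complex.exp u = Complex.exp (-(u:ℂ)) * Complex.exp (-(s - 1) * u) := by
    rw [← Complex.exp_add, ← Complex.exp_add]
    congr 1
    ring
  calc Complex.exp ↑u * ((∑ k ∈ Finset.Icc 1 ⌊Real.exp u⌋₊, (a k : ℂ)) * Complex.exp (↑u * -(s + 1)))
      = (∑ k ∈ Finset.Icc 1 ⌊Real.exp u⌋₊, (a k : ℂ)) * (Complex.exp (↑u * -(s + 1)) * Complex.exp ↑u) := by ring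
    _ = _ := by rw [h1]; ring

theorem laplace_const {s : ℂ} (hs : 1 < s.re) (A : ℝ) :
    ∫ u in Set.Ioi (0:ℝ), (A : ℂ) * Complex.exp (-(s - 1) * u) = A / (s - 1) := by
  rw [integral_const_mul, integral_exp_mul_complex_Ioi (by simpa using hs)]
  have : s - 1 ≠ 0 := by
    intro h
    have := congrArg Complex.re h
    simp at this
    linarith
  simp only [Complex.ofReal_zero, mul_zero, Complex.exp_zero]
  field_simp

/-- The Laplace transform of the error -/
theorem laplace_err (ha : ∀ n, 0 ≤ a n) (hM : ∀ n : ℕ, ∑ k ∈ Finset.Icc 1 n, a k ≤ M * n)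
    (hM0 : 0 ≤ M) (hA : 0 ≤ A)
    (hG : ∀ s : ℂ, 1 < s.re → G s = LSeries (fun n => (a n : ℂ)) s - A / (s - 1))
    {s : ℂ} (hs : 1 < s.re) :
    ∫ u in Set.Ioi (0:ℝ), (err (Hf a) A u : ℂ) * Complex.exp (-(s - 1) * u) = (G s - A) / s := by
  have hs0 : s ≠ 0 := by
    rintro rfl
    simp at hs
    linarith
  have hs1 : s - 1 ≠ 0 := by
    intro h
    have := congrArg Complex.re h
    simp at this
    linarith
  have h1 : ∫ u in Set.Ioi (0:ℝ), (err (Hf a) A u : ℂ) * Complex.exp (-(s - 1) * u) =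
      ∫ u in Set.Ioi (0:ℝ), ((Hf a u : ℂ) * Complex.exp (-(s - 1) * u) -
        (A : ℂ) * Complex.exp (-(s - 1) * u)) := by
    apply setIntegral_congr_fun measurableSet_Ioi
    intro u hu
    simp only [err]
    rw [if_pos (Set.mem_Ioi.mp hu)]
    push_cast
    ring
  have hz : 0 < (s - 1).re := by simpa using hs
  rw [h1, integral_sub, laplace_const hs, hG s hs, laplace_Hf ha hM hs]
  · field_simp
    ring
  · apply integrableOn_mul_exp (measurable_Hf ha) (B := M) _ hz
    intro u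
    rw [abs_of_nonneg (Hf_nonneg ha u)]
    exact Hf_le hM hM0 u
  · exact (integrableOn_exp_neg hz).const_mul _

end

end Pool.Agent.M17.Helper79.PNT
end

/- Helper53.KN.Helper79.PNT.WI2 -/
section
/-!
# The Wiener-Ikehara theorem: smoothed identity and conclusion
-/

set_option autoImplicit false

open MeasureTheory Filter Topology

namespace Pool.Agent.M17.Helper79.PNT

section

variable {a : ℕ → ℝ} {A M : ℝ} {G : ℂ → ℂ}

theorem smooth_eps (ha : ∀ n, 0 ≤ a n) (hM : ∀ n : ℕ, ∑ k ∈ Finset.Icc 1 n, a k ≤ M * n)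
    (hM0 : 0 ≤ M) (hA : 0 ≤ A)
    (hG : ∀ s : ℂ, 1 < s.re → G s = LSeries (fun n => (a n : ℂ)) s - A / (s - 1))
    {l : ℝ} (hl : 0 < l) {ε : ℝ} (hε : 0 < ε) (y : ℝ) :
    ∫ t : ℝ, (tri l t : ℂ) * Complex.exp (Complex.I * (t * y)) *
        ((G (1 + ε + Complex.I * t) - A) / (1 + ε + Complex.I * t)) =
      ((∫ u in Set.Ioi (0:ℝ), err (Hf a) A u * Real.exp (-ε * u) * (l * fej (l * (y - u))) : ℝ) : ℂ) := by
  have hre : ∀ t : ℝ, 1 < (1 + ε + Complex.I * t : ℂ).re := by
    intro t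
    simp
    exact hε
  have hB : ∀ u, |err (Hf a) A u| ≤ M + A := err_le ha hM hM0 hA
  set F : ℝ → ℝ → ℂ := fun t u => (tri l t : ℂ) * Complex.exp (Complex.I * (t * y)) *
    ((err (Hf a) A u : ℂ) * Complex.exp (-(ε + Complex.I * t) * u)) with hF
  have h1 : ∀ t : ℝ, (tri l t : ℂ) * Complex.exp (Complex.I * (t * y)) *
        ((G (1 + ε + Complex.I * t) - A) / (1 + ε + Complex.I * t)) =
      ∫ u in Set.Ioi (0:ℝ), F t u := by
    intro t
    rw [← laplace_err ha hM hM0 hA hG (hre t), ← integral_const_mul]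
    apply setIntegral_congr_fun measurableSet_Ioi
    intro u _
    simp only [hF]
    congr 3
    ring
  simp_rw [h1]
  rw [integral_integral_swap]
  · rw [← integral_complex_ofReal]
    apply integral_congr_ae
    filter_upwards with u
    have h2 : ∀ t : ℝ, F t u = ((err (Hf a) A u * Real.exp (-ε * u) : ℝ) : ℂ) *
        ((tri l t : ℂ) * Complex.exp (Complex.I * (t * ((y - u : ℝ) : ℂ)))) := by
      intro t
      simp only [hF]
      push_cast
      have h3 : Complex.exp (Complex.I * (t * y)) * Complex.exp (-(ε + Complex.I * t) * u) =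
          Complex.exp (-ε * u) * Complex.exp (Complex.I * (t * (y - u))) := by
        rw [← Complex.exp_add, ← Complex.exp_add]
        congr 1
        ring
      linear_combination (tri l t : ℂ) * (err (Hf a) A u : ℂ) * h3
    simp_rw [h2]
    rw [integral_const_mul, integral_tri_exp hl]
    push_cast
    ring
  · -- integrability on the product
    have hg : IntegrableOn (fun u : ℝ => (M + A) * ‖Complex.exp (-(ε:ℂ) * u)‖) (Set.Ioi 0) :=
      (integrableOn_exp_neg (z := (ε : ℂ)) (by simpa using hε)).norm.const_mul _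
    have hprod := (integrable_tri hl).mul_prod hg
    refine hprod.mono' ?_ ?_
    · apply Measurable.aestronglyMeasurable
      have m1 : Measurable (fun p : ℝ × ℝ => (tri l p.1 : ℂ)) :=
        Complex.measurable_ofReal.comp ((continuous_tri l).measurable.comp measurable_fst)
      have m2 : Measurable (fun p : ℝ × ℝ => (err (Hf a) A p.2 : ℂ)) :=
        Complex.measurable_ofReal.comp ((measurable_err (measurable_Hf ha)).comp measurable_snd)
      have m3 : Measurable (fun p : ℝ × ℝ => Complex.exp (Complex.I * (p.1 * y))) := by fun_prop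
      have m4 : Measurable (fun p : ℝ × ℝ => Complex.exp (-(ε + Complex.I * p.1) * p.2)) := by
        fun_prop
      exact (m1.mul m3).mul (m2.mul m4)
    · filter_upwards with p
      simp only [Function.uncurry, hF]
      rw [norm_mul, norm_mul, norm_mul, Complex.norm_real, Complex.norm_real,
        Real.norm_of_nonneg (tri_nonneg _ _), Real.norm_eq_abs]
      have e1 : ‖Complex.exp (Complex.I * (p.1 * y))‖ = 1 := by
        rw [show Complex.I * ((p.1 : ℂ) * y) = ((p.1 * y : ℝ) : ℂ) * Complex.I by push_cast; ring]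
        exact Complex.norm_exp_ofReal_mul_I _
      have e2 : ‖Complex.exp (-(ε + Complex.I * p.1) * p.2)‖ = ‖Complex.exp (-(ε:ℂ) * p.2)‖ := by
        rw [Complex.norm_exp, Complex.norm_exp]
        congr 1
        simp
      rw [e1, e2, mul_one]
      apply mul_le_mul_of_nonneg_left _ (tri_nonneg _ _)
      exact mul_le_mul_of_nonneg_right (hB _) (norm_nonneg _)

theorem integrable_fej_comp {l : ℝ} (hl : 0 < l) (y : ℝ) :
    Integrable (fun u => l * fej (l * (y - u))) := by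
  have h1 : Integrable (fun v => fej (l * v)) := integrable_fej.comp_mul_left' hl.ne'
  have h2 := h1.comp_sub_left y
  exact h2.const_mul l

theorem smooth_zero (ha : ∀ n, 0 ≤ a n) (hM : ∀ n : ℕ, ∑ k ∈ Finset.Icc 1 n, a k ≤ M * n)
    (hM0 : 0 ≤ M) (hA : 0 ≤ A) (hGc : ContinuousOn G {s | 1 ≤ s.re})
    (hG : ∀ s : ℂ, 1 < s.re → G s = LSeries (fun n => (a n : ℂ)) s - A / (s - 1))
    {l : ℝ} (hl : 0 < l) (y : ℝ) :
    ∫ t : ℝ, (tri l t : ℂ) * Complex.exp (Complex.I * (t * y)) *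
        ((G (1 + Complex.I * t) - A) / (1 + Complex.I * t)) =
      ((∫ u in Set.Ioi (0:ℝ), err (Hf a) A u * (l * fej (l * (y - u))) : ℝ) : ℂ) := by
  have hB : ∀ u, |err (Hf a) A u| ≤ M + A := err_le ha hM hM0 hA
  set Φ : ℂ → ℂ := fun s => (G s - A) / s with hΦ
  have hΦc : ContinuousOn Φ {s | 1 ≤ s.re} := by
    apply (hGc.sub continuousOn_const).div continuousOn_id
    intro s hs
    rintro rfl
    have : (1:ℝ) ≤ (0:ℂ).re := hs
    norm_num at this
  -- the sequence
  set e : ℕ → ℝ := fun n => 1 / ((n : ℝ) + 1) with he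
  have he0 : ∀ n, 0 < e n := fun n => by simp only [he]; (clear * -; positivity)
  have he1 : ∀ n, e n ≤ 1 := fun n => by
    simp only [he]
    rw [div_le_one (by (clear * -; positivity))]
    have : (0:ℝ) ≤ n := Nat.cast_nonneg n
    (clear * -; linarith)
  have hlim : Tendsto e atTop (𝓝 0) := tendsto_one_div_add_atTop_nhds_zero_nat
  -- compact set
  set g : ℝ × ℝ → ℂ := fun p => Φ (1 + p.1 + Complex.I * p.2) with hg
  have hgc : ContinuousOn g (Set.Icc (0:ℝ) 1 ×ˢ Set.Icc (-l) l) := by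
    apply hΦc.comp
    · apply Continuous.continuousOn
      fun_prop
    · intro p hp
      simp
      exact hp.1.1
  obtain ⟨C, hC⟩ := (isCompact_Icc.prod isCompact_Icc).exists_bound_of_continuousOn hgc
  have hL : Tendsto (fun n => ∫ t : ℝ, (tri l t : ℂ) * Complex.exp (Complex.I * (t * y)) *
        Φ (1 + e n + Complex.I * t)) atTop (𝓝 (∫ t : ℝ, (tri l t : ℂ) *
          Complex.exp (Complex.I * (t * y)) * Φ (1 + Complex.I * t))) := by
    apply tendsto_integral_of_dominated_convergence (fun t => |C| * tri l t)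
    · intro n
      apply Continuous.aestronglyMeasurable
      apply Continuous.mul
      · apply Continuous.mul
        · exact Complex.continuous_ofReal.comp (continuous_tri l)
        · fun_prop
      · apply hΦc.comp_continuous (by fun_prop)
        intro t
        simp
        exact (he0 n).le
    · exact (integrable_tri hl).const_mul _
    · intro n
      filter_upwards with t
      by_cases ht : |t| ≤ l
      · rw [norm_mul, norm_mul, Complex.norm_real, Real.norm_of_nonneg (tri_nonneg _ _)]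
        have e1 : ‖Complex.exp (Complex.I * (t * y))‖ = 1 := by
          rw [show Complex.I * ((t : ℂ) * y) = ((t * y : ℝ) : ℂ) * Complex.I by push_cast; ring]
          exact Complex.norm_exp_ofReal_mul_I _
        rw [e1, mul_one, mul_comm]
        apply mul_le_mul_of_nonneg_right _ (tri_nonneg _ _)
        have := hC (e n, t) ⟨⟨(he0 n).le, he1 n⟩, abs_le.mp ht⟩
        exact this.trans (le_abs_self C)
      · rw [tri_eq_zero hl (by linarith [not_le.mp ht])]
        simp
    · filter_upwards with t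
      apply Tendsto.mul tendsto_const_nhds
      have h1 : ContinuousWithinAt Φ {s | 1 ≤ s.re} (1 + Complex.I * t) := by
        apply hΦc
        simp
      have h2 : Tendsto (fun n => (1 + e n + Complex.I * t : ℂ)) atTop
          (𝓝[{s | 1 ≤ s.re}] (1 + Complex.I * t)) := by
        apply tendsto_nhdsWithin_iff.mpr
        constructor
        · have h3 : Tendsto (fun n => ((e n : ℝ) : ℂ)) atTop (𝓝 ((0:ℝ):ℂ)) :=
            (Complex.continuous_ofReal.tendsto 0).comp hlim
          have h4 := (h3.const_add 1).add_const (Complex.I * t)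
          simpa using h4
        · filter_upwards with n
          simp
          exact (he0 n).le
      exact h1.tendsto.comp h2
  have hR : Tendsto (fun n => ((∫ u in Set.Ioi (0:ℝ), err (Hf a) A u * Real.exp (-(e n) * u) *
        (l * fej (l * (y - u))) : ℝ) : ℂ)) atTop
      (𝓝 ((∫ u in Set.Ioi (0:ℝ), err (Hf a) A u * (l * fej (l * (y - u))) : ℝ) : ℂ)) := by
    apply (Complex.continuous_ofReal.tendsto _).comp
    apply tendsto_integral_of_dominated_convergence (fun u => (M + A) * (l * fej (l * (y - u))))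
    · intro n
      apply Measurable.aestronglyMeasurable
      apply Measurable.mul
      · exact (measurable_err (measurable_Hf ha)).mul (by fun_prop)
      · exact (measurable_fej.comp (by fun_prop)).const_mul l
    · exact ((integrable_fej_comp hl y).const_mul _).integrableOn
    · intro n
      filter_upwards [ae_restrict_mem measurableSet_Ioi] with u hu
      have hk : 0 ≤ l * fej (l * (y - u)) := mul_nonneg hl.le (fej_nonneg _)
      rw [Real.norm_eq_abs, abs_mul, abs_mul, abs_of_nonneg hk, abs_of_pos (Real.exp_pos _)]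
      apply mul_le_mul_of_nonneg_right _ hk
      have h1 : Real.exp (-(e n) * u) ≤ 1 := by
        rw [Real.exp_le_one_iff]
        have : 0 < u := hu
        (clear * - this he0; nlinarith [he0 n])
      calc |err (Hf a) A u| * Real.exp (-(e n) * u) ≤ |err (Hf a) A u| * 1 :=
            mul_le_mul_of_nonneg_left h1 (abs_nonneg _)
        _ ≤ M + A := by rw [mul_one]; exact hB u
    · filter_upwards with u
      apply Tendsto.mul _ tendsto_const_nhds
      have h1 : Tendsto (fun n => Real.exp (-(e n) * u)) atTop (𝓝 (Real.exp (-0 * u))) :=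
        (Real.continuous_exp.tendsto _).comp ((hlim.neg).mul_const u)
      have h2 := h1.const_mul (err (Hf a) A u)
      simpa using h2
  have hEq : ∀ n, ∫ t : ℝ, (tri l t : ℂ) * Complex.exp (Complex.I * (t * y)) *
        Φ (1 + e n + Complex.I * t) = ((∫ u in Set.Ioi (0:ℝ), err (Hf a) A u *
          Real.exp (-(e n) * u) * (l * fej (l * (y - u))) : ℝ) : ℂ) := fun n =>
    smooth_eps ha hM hM0 hA hG hl (he0 n) y
  simp_rw [hEq] at hL
  exact tendsto_nhds_unique hL hR

theorem change_var (ha : ∀ n, 0 ≤ a n) {l : ℝ} (hl : 0 < l) (y : ℝ) :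
    ∫ u in Set.Ioi (0:ℝ), err (Hf a) A u * (l * fej (l * (y - u))) =
      ∫ w, err (Hf a) A (y - w / l) * fej w := by
  rw [← integral_Ici_eq_integral_Ioi, setIntegral_eq_integral_of_forall_compl_eq_zero]
  · rw [← integral_sub_left_eq_self _ volume y]
    have h1 := Measure.integral_comp_mul_left (fun w => err (Hf a) A (y - w / l) * fej w) l
    rw [abs_of_pos (inv_pos.mpr hl), smul_eq_mul] at h1
    have h2 : ∫ w, err (Hf a) A (y - w / l) * fej w =
        l * ∫ x, err (Hf a) A (y - l * x / l) * fej (l * x) := by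
      rw [h1, ← mul_assoc, mul_inv_cancel₀ hl.ne', one_mul]
    rw [h2, ← integral_const_mul]
    apply integral_congr_ae
    filter_upwards with x
    rw [mul_div_cancel_left₀ _ hl.ne', sub_sub_cancel]
    ring
  · intro u hu
    have : u < 0 := by simpa using hu
    unfold err
    rw [Hf_neg this, if_neg (by linarith)]
    simp

theorem conv_tendsto (ha : ∀ n, 0 ≤ a n) (hM : ∀ n : ℕ, ∑ k ∈ Finset.Icc 1 n, a k ≤ M * n)
    (hM0 : 0 ≤ M) (hA : 0 ≤ A) (hGc : ContinuousOn G {s | 1 ≤ s.re})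
    (hG : ∀ s : ℂ, 1 < s.re → G s = LSeries (fun n => (a n : ℂ)) s - A / (s - 1))
    {l : ℝ} (hl : 0 < l) :
    Tendsto (fun y => ∫ w, err (Hf a) A (y - w / l) * fej w) atTop (𝓝 0) := by
  set f : ℝ → ℂ := fun t => (tri l t : ℂ) * ((G (1 + Complex.I * t) - A) / (1 + Complex.I * t)) with hf
  have h1 := Real.tendsto_integral_exp_smul_cocompact f
  have h2 : Tendsto (fun y : ℝ => -y / (2 * Real.pi)) atTop (cocompact ℝ) := by
    apply Tendsto.mono_right _ atBot_le_cocompact
    have h3 : Tendsto (fun y : ℝ => y / (2 * Real.pi)) atTop atTop :=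
      tendsto_id.atTop_div_const (by positivity)
    have h4 := tendsto_neg_atTop_atBot.comp h3
    refine h4.congr fun y => ?_
    simp only [Function.comp]
    ring
  have h3 := h1.comp h2
  have h4 : ∀ y : ℝ, ((fun w : ℝ => ∫ v : ℝ, Real.fourierChar (-(v * w)) • f v) ∘
      fun y : ℝ => -y / (2 * Real.pi)) y =
      ((∫ w, err (Hf a) A (y - w / l) * fej w : ℝ) : ℂ) := by
    intro y
    rw [← change_var ha hl, ← smooth_zero ha hM hM0 hA hGc hG hl]
    simp only [Function.comp]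
    apply integral_congr_ae
    filter_upwards with t
    rw [Circle.smul_def, Real.fourierChar_apply, smul_eq_mul]
    have h5 : ((2 * Real.pi * -(t * (-y / (2 * Real.pi))) : ℝ) : ℂ) * Complex.I =
        Complex.I * (t * y) := by
      have h6 : 2 * Real.pi * -(t * (-y / (2 * Real.pi))) = t * y := by
        have := Real.pi_pos
        (clear * -; field_simp)
      rw [h6]
      push_cast
      ring
    rw [h5]
    simp only [hf]
    ring
  have h5 : Tendsto (fun y => ((∫ w, err (Hf a) A (y - w / l) * fej w : ℝ) : ℂ)) atTop (𝓝 0) :=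
    h3.congr h4
  have h6 := (Complex.continuous_re.tendsto 0).comp h5
  simpa [Function.comp_def] using h6

/-- **Wiener-Ikehara theorem** for nonnegative coefficients with an a priori bound -/
theorem wiener_ikehara (ha : ∀ n, 0 ≤ a n) (hM : ∀ n : ℕ, ∑ k ∈ Finset.Icc 1 n, a k ≤ M * n)
    (hM0 : 0 ≤ M) (hA : 0 ≤ A) (hGc : ContinuousOn G {s | 1 ≤ s.re})
    (hG : ∀ s : ℂ, 1 < s.re → G s = LSeries (fun n => (a n : ℂ)) s - A / (s - 1)) :
    Tendsto (fun x : ℝ => (∑ k ∈ Finset.Icc 1 ⌊x⌋₊, a k) / x) atTop (𝓝 A) := by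
  have h1 := tauber hA (measurable_Hf ha) (Hf_nonneg ha) (err_le ha hM hM0 hA) (Hf_mono ha)
    (fun l hl => conv_tendsto ha hM hM0 hA hGc hG hl)
  have h2 := h1.comp Real.tendsto_log_atTop
  refine h2.congr' ?_
  filter_upwards [eventually_gt_atTop 0] with x hx
  simp only [Function.comp, Hf, summ]
  rw [Real.exp_log hx, Real.exp_neg, Real.exp_log hx, div_eq_mul_inv]

end

end Pool.Agent.M17.Helper79.PNT
end

/- Helper53.KN.Helper79.PNT.Main -/
section
/-!
# The prime number theorem, also in arithmetic progressions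

Consequences of the Wiener-Ikehara theorem `wiener_ikehara`.

* `psi_ap`   : `∑_{k ≤ x, k ≡ a (q)} Λ k / x → 1 / φ(q)`
* `theta_ap` : `∑_{p ≤ x, p ≡ a (q)} log p / x → 1 / φ(q)`
* `pi_ap`    : `#{p ≤ x, p ≡ a (q)} log x / x → 1 / φ(q)`
* `psi_tendsto`, `theta_tendsto`, `pi_tendsto` : the prime number theorem
-/

set_option autoImplicit false

open Filter Topology

namespace Pool.Agent.M17.Helper79.PNT

open ArithmeticFunction in
theorem psi_ap {q : ℕ} [NeZero q] {a : ZMod q} (ha : IsUnit a) :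
    Tendsto (fun x : ℝ => (∑ k ∈ Finset.Icc 1 ⌊x⌋₊, vonMangoldt.residueClass a k) / x) atTop
      (𝓝 (q.totient : ℝ)⁻¹) := by
  have hle : ∀ n, vonMangoldt.residueClass a n ≤ vonMangoldt n := fun n =>
    vonMangoldt.residueClass_le a n
  apply wiener_ikehara (M := Real.log 4 + 4) (G := vonMangoldt.LFunctionResidueClassAux a)
    (fun n => vonMangoldt.residueClass_nonneg a n)
  · intro n
    have h1 := Chebyshev.psi_le_const_mul_self (x := (n : ℝ)) (Nat.cast_nonneg n)
    refine le_trans ?_ h1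
    unfold Chebyshev.psi
    rw [Nat.floor_natCast]
    exact Finset.sum_le_sum fun k _ => hle k
  · have := Real.log_nonneg (x := 4) (by norm_num)
    linarith
  · positivity
  · exact vonMangoldt.continuousOn_LFunctionResidueClassAux a
  · intro s hs
    have := vonMangoldt.eqOn_LFunctionResidueClassAux ha (x := s) hs
    simpa using this

open ArithmeticFunction in
/-- the prime number theorem for `ψ` -/
theorem psi_tendsto : Tendsto (fun x : ℝ => Chebyshev.psi x / x) atTop (𝓝 1) := by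
  have h := psi_ap (q := 1) (a := 1) isUnit_one
  simp only [Nat.totient_one, Nat.cast_one, inv_one] at h
  refine h.congr fun x => ?_
  congr 1
  unfold Chebyshev.psi
  apply Finset.sum_congr rfl
  intro k _
  simp only [vonMangoldt.residueClass, Set.indicator_apply, Set.mem_ofPred_eq]
  rw [if_pos (Subsingleton.elim _ _)]

/-- the prime number theorem for `θ` -/
theorem theta_tendsto : Tendsto (fun x : ℝ => Chebyshev.theta x / x) atTop (𝓝 1) := by
  have h1 : Tendsto (fun x : ℝ => (Chebyshev.psi - Chebyshev.theta) x / x) atTop (𝓝 0) := by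
    have h2 := Chebyshev.isBigO_psi_sub_theta_sqrt
    have h3 : (fun x : ℝ => Real.sqrt x) =o[atTop] (fun x : ℝ => x) := by
      rw [Asymptotics.isLittleO_iff_tendsto' (by
        filter_upwards [eventually_gt_atTop 0] with x hx h
        exact absurd h hx.ne')]
      have h4 : Tendsto (fun x : ℝ => (Real.sqrt x)⁻¹) atTop (𝓝 0) :=
        tendsto_inv_atTop_zero.comp Real.tendsto_sqrt_atTop
      refine h4.congr' ?_
      filter_upwards [eventually_gt_atTop 0] with x hx
      have := Real.mul_self_sqrt hx.le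
      have h5 : 0 < Real.sqrt x := Real.sqrt_pos.mpr hx
      rw [eq_div_iff hx.ne']
      nth_rewrite 2 [← this]
      field_simp
    exact (h2.trans_isLittleO h3).tendsto_div_nhds_zero
  have h2 := psi_tendsto.sub h1
  rw [sub_zero] at h2
  refine h2.congr fun x => ?_
  simp only [Pi.sub_apply]
  ring

end Pool.Agent.M17.Helper79.PNT
end

/- Helper53.KN.Helper29.KD.Coll -/
section
/-! Project KS, design D5: class 3.  Cells without numbers `q m`, `m` prime of size `X^b`, from the poor windows at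
level `X^(1-b)` (collision lemma). -/

set_option autoImplicit false
open Filter Topology
open scoped Classical

namespace Pool.Agent.M17.Helper29.KD

open Pool.Agent.M17.Helper60.KS (ec ecw npr CountW)

/-- primes in `(2^m, 2·2^m]` -/
noncomputable def PMx (m : ℕ) : Finset ℕ := (Finset.Ioc (2 ^ m) (2 * 2 ^ m)).filter Nat.Prime

/-- number of pairs `(m, q)`, `q` prime, `m ∈ PMx μ`, `m q` in the `j`-th cell of length `2^e` of `[2^k, 2^(k+1))` -/
noncomputable def nEx (μ k e j : ℕ) : ℕ :=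
  ((PMx μ ×ˢ Finset.range (2 ^ (k + 1))).filter (fun p => p.2.Prime ∧ 2 ^ k + j * 2 ^ e ≤ p.1 * p.2 ∧
    p.1 * p.2 < 2 ^ k + (j + 1) * 2 ^ e)).card

/-- at most `2^(U k)` cells of length `2^⌊k(1/2-d)⌋` contain fewer than `c0 2^e / k^2` numbers `q m`, `m` prime in
`(2^(em k), 2·2^(em k)]` -/
def CountEx (em : ℕ → ℕ) (U : ℝ) : Prop := ∃ d0 : ℝ, 0 < d0 ∧ ∀ d : ℝ, 0 < d → d ≤ d0 → ∃ c0 : ℝ, 0 < c0 ∧
  ∃ K : ℕ, ∀ k : ℕ, K ≤ k → (((Finset.range (2 ^ (k - ec d k))).filter (fun j =>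
    (nEx (em k) k (ec d k) j : ℝ) < c0 * 2 ^ ec d k / (k : ℝ) ^ 2)).card : ℝ) ≤ (2 : ℝ) ^ (U * (k : ℝ))

/-! ### Chebyshev for dyadic intervals -/

theorem card_PMx : ∃ K : ℕ, ∀ μ : ℕ, K ≤ μ → (2 : ℝ) ^ μ / (2 * (μ + 1)) ≤ (PMx μ).card := by
  have h := Pool.Agent.M17.Helper79.PNT.theta_tendsto
  rw [Metric.tendsto_atTop] at h
  obtain ⟨N, hN⟩ := h (1/10) (by norm_num)
  obtain ⟨K, hK⟩ := exists_nat_ge N
  refine ⟨K + 1, fun μ hμ => ?_⟩
  have hpow : ∀ n : ℕ, (n : ℝ) ≤ (2 : ℝ) ^ n := fun n => by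
    exact_mod_cast (Nat.lt_two_pow_self (n := n)).le
  have h1 : N ≤ (2 : ℝ) ^ μ := by
    refine hK.trans (le_trans ?_ (hpow μ))
    have : K ≤ μ := by omega
    exact_mod_cast this
  have hM : (0 : ℝ) < (2 : ℝ) ^ μ := by positivity
  have a1 := hN _ h1
  have a2 := hN (2 * 2 ^ μ) (by (clear * - h1 hM; linarith))
  rw [Real.dist_eq, abs_lt] at a1 a2
  have b1 : Chebyshev.theta ((2 : ℝ) ^ μ) ≤ 1.1 * 2 ^ μ := by
    have := a1.2
    rw [sub_lt_iff_lt_add, div_lt_iff₀ hM] at this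
    (clear * - this; linarith)
  have b2 : 0.9 * (2 * 2 ^ μ) ≤ Chebyshev.theta (2 * (2 : ℝ) ^ μ) := by
    have := a2.1
    rw [lt_sub_iff_add_lt, lt_div_iff₀ (by positivity)] at this
    (clear * - this; linarith)
  -- difference of theta
  have hth : Chebyshev.theta (2 * (2 : ℝ) ^ μ) - Chebyshev.theta ((2 : ℝ) ^ μ) = ∑ p ∈ PMx μ, Real.log p := by
    have e1 : (2 * (2 : ℝ) ^ μ) = ((2 * 2 ^ μ : ℕ) : ℝ) := by push_cast; ring
    have e2 : ((2 : ℝ) ^ μ) = ((2 ^ μ : ℕ) : ℝ) := by push_cast; ring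
    rw [e1, e2, Chebyshev.theta_eq_sum_Icc, Chebyshev.theta_eq_sum_Icc, Nat.floor_natCast, Nat.floor_natCast, PMx]
    have hd : (Finset.Icc 0 (2 * 2 ^ μ)).filter Nat.Prime
        = ((Finset.Icc 0 (2 ^ μ)).filter Nat.Prime) ∪ ((Finset.Ioc (2 ^ μ) (2 * 2 ^ μ)).filter Nat.Prime) := by
      ext x
      simp only [Finset.mem_filter, Finset.mem_Icc, Finset.mem_union, Finset.mem_Ioc]
      constructor
      · rintro ⟨⟨h1, h2⟩, h3⟩
        rcases le_or_gt x (2 ^ μ) with h | h
        · exact Or.inl ⟨⟨h1, h⟩, h3⟩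
        · exact Or.inr ⟨⟨h, h2⟩, h3⟩
      · rintro (⟨⟨h1, h2⟩, h3⟩ | ⟨⟨h1, h2⟩, h3⟩)
        · exact ⟨⟨h1, by omega⟩, h3⟩
        · exact ⟨⟨by omega, h2⟩, h3⟩
    rw [hd, Finset.sum_union]
    · ring
    · rw [Finset.disjoint_left]
      intro x hx hx'
      simp only [Finset.mem_filter, Finset.mem_Icc, Finset.mem_Ioc] at hx hx'
      omega
  have hle : ∑ p ∈ PMx μ, Real.log p ≤ ((PMx μ).card : ℝ) * (μ + 1) := by
    rw [← nsmul_eq_mul, ← Finset.sum_const]
    refine Finset.sum_le_sum (fun p hp => ?_)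
    rw [PMx, Finset.mem_filter, Finset.mem_Ioc] at hp
    have hp0 : (0 : ℝ) < p := by exact_mod_cast hp.2.pos
    have h2 : (p : ℝ) ≤ 2 ^ (μ + 1) := by
      rw [pow_succ]
      have := hp.1.2
      have : (p : ℝ) ≤ ((2 * 2 ^ μ : ℕ) : ℝ) := by exact_mod_cast this
      push_cast at this
      (clear * - this; linarith)
    calc Real.log p ≤ Real.log (2 ^ (μ + 1)) := Real.log_le_log hp0 h2
      _ = (μ + 1 : ℕ) * Real.log 2 := by rw [Real.log_pow]
      _ ≤ (μ + 1 : ℕ) * 1 := by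
        apply mul_le_mul_of_nonneg_left _ (Nat.cast_nonneg _)
        have := Real.log_two_lt_d9
        (clear * - this; linarith)
      _ = (μ : ℝ) + 1 := by push_cast; ring
  have : (0 : ℝ) < (μ : ℝ) + 1 := by (clear * -; positivity)
  rw [div_le_iff₀ (by (clear * -; positivity))]
  (clear * - hM b1 b2 hth hle; nlinarith)

/-! ### windows -/

/-- consecutive cells -/
theorem sum_npr (L e i0 n : ℕ) : ∑ i ∈ Finset.range n, npr L e (i0 + i)
    = ((Finset.Ico (2 ^ L + i0 * 2 ^ e) (2 ^ L + (i0 + n) * 2 ^ e)).filter Nat.Prime).card := by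
  induction n with
  | zero => simp
  | succ n ih =>
    rw [Finset.sum_range_succ, ih, npr]
    have hd : (Finset.Ico (2 ^ L + i0 * 2 ^ e) (2 ^ L + (i0 + (n + 1)) * 2 ^ e)).filter Nat.Prime
        = ((Finset.Ico (2 ^ L + i0 * 2 ^ e) (2 ^ L + (i0 + n) * 2 ^ e)).filter Nat.Prime) ∪
          ((Finset.Ico (2 ^ L + (i0 + n) * 2 ^ e) (2 ^ L + (i0 + n + 1) * 2 ^ e)).filter Nat.Prime) := by
      have e1 : 2 ^ L + i0 * 2 ^ e ≤ 2 ^ L + (i0 + n) * 2 ^ e :=
        Nat.add_le_add_left (Nat.mul_le_mul_right _ (Nat.le_add_right _ _)) _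
      have e2 : 2 ^ L + (i0 + n) * 2 ^ e ≤ 2 ^ L + (i0 + n + 1) * 2 ^ e :=
        Nat.add_le_add_left (Nat.mul_le_mul_right _ (Nat.le_add_right _ _)) _
      rw [← Finset.filter_union, Finset.Ico_union_Ico_eq_Ico e1 e2, add_assoc i0 n 1]
    rw [hd, Finset.card_union_of_disjoint]
    apply Finset.disjoint_filter_filter
    exact Finset.Ico_disjoint_Ico_consecutive _ _ _

/-- a window whose cells are all rich is rich -/
theorem window (L e' : ℕ) (v0 v1 c1 : ℝ) (hc1 : 0 ≤ c1) (hL : 0 < L) (h0 : (2 : ℝ) ^ L ≤ v0) (h1 : v1 ≤ 2 ^ (L + 1))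
    (hlen : 4 * (2 : ℝ) ^ e' ≤ v1 - v0) (he : e' ≤ L)
    (hrich : ∀ i : ℕ, i < 2 ^ (L - e') → v0 ≤ 2 ^ L + (i : ℝ) * 2 ^ e' → 2 ^ L + ((i : ℝ) + 1) * 2 ^ e' ≤ v1 →
      c1 * 2 ^ e' / L ≤ npr L e' i) :
    (v1 - v0) * c1 / (2 * L) ≤
      (((Finset.range (2 ^ (L + 1))).filter (fun q : ℕ => q.Prime ∧ v0 ≤ (q : ℝ) ∧ (q : ℝ) < v1)).card : ℝ) := by
  have ht : (0 : ℝ) < (2 : ℝ) ^ e' := by positivity
  have hL' : (0 : ℝ) < L := by exact_mod_cast hL
  set i0 := ⌈(v0 - 2 ^ L) / 2 ^ e'⌉₊ with hi0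
  set i1 := ⌊(v1 - 2 ^ L) / 2 ^ e'⌋₊ with hi1
  have hA0 : 0 ≤ (v0 - 2 ^ L) / (2 : ℝ) ^ e' := div_nonneg (by (clear * - h0; linarith)) ht.le
  have hA1 : 0 ≤ (v1 - 2 ^ L) / (2 : ℝ) ^ e' := div_nonneg (by (clear * - h0 hlen ht; linarith)) ht.le
  have e0 : (v0 - 2 ^ L) / (2 : ℝ) ^ e' ≤ i0 := Nat.le_ceil _
  have e0' : (i0 : ℝ) < (v0 - 2 ^ L) / (2 : ℝ) ^ e' + 1 := Nat.ceil_lt_add_one hA0
  have e1 : (i1 : ℝ) ≤ (v1 - 2 ^ L) / (2 : ℝ) ^ e' := Nat.floor_le hA1
  have e1' : (v1 - 2 ^ L) / (2 : ℝ) ^ e' < i1 + 1 := Nat.lt_floor_add_one _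
  have hlen' : 4 ≤ (v1 - v0) / (2 : ℝ) ^ e' := by rw [le_div_iff₀ ht]; (clear * - hlen; linarith)
  have hsub : (v1 - v0) / (2 : ℝ) ^ e' = (v1 - 2 ^ L) / (2 : ℝ) ^ e' - (v0 - 2 ^ L) / (2 : ℝ) ^ e' := by ring
  have hdiff : (v1 - v0) / (2 : ℝ) ^ e' / 2 ≤ (i1 : ℝ) - i0 := by (clear * - e0' e1' hlen' hsub; linarith)
  have hlt : i0 ≤ i1 := by
    have : (0 : ℝ) ≤ (i1 : ℝ) - i0 := by (clear * - e0' e1' hlen' hsub; linarith)
    have : (i0 : ℝ) ≤ i1 := by (clear * - e0' e1' hlen' hsub; linarith)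
    exact_mod_cast this
  obtain ⟨n, hn⟩ := Nat.exists_eq_add_of_le hlt
  have hn' : (n : ℝ) = i1 - i0 := by rw [hn]; push_cast; ring
  have b0 : v0 ≤ 2 ^ L + (i0 : ℝ) * 2 ^ e' := by
    rw [div_le_iff₀ ht] at e0; (clear * - e0; linarith)
  have b1 : 2 ^ L + (i1 : ℝ) * 2 ^ e' ≤ v1 := by
    rw [le_div_iff₀ ht] at e1; (clear * - e1; linarith)
  have hcell : ∀ i ∈ Finset.range n, c1 * 2 ^ e' / L ≤ (npr L e' (i0 + i) : ℝ) := by
    intro i hi
    rw [Finset.mem_range] at hi
    have hi' : ((i0 + i : ℕ) : ℝ) + 1 ≤ i1 := by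
      have : i0 + i + 1 ≤ i1 := by omega
      exact_mod_cast this
    have hup : 2 ^ L + (((i0 + i : ℕ) : ℝ) + 1) * 2 ^ e' ≤ v1 := by
      have := mul_le_mul_of_nonneg_right hi' ht.le
      (clear * - b1 this; linarith)
    apply hrich
    · have h2 : (((i0 + i : ℕ) : ℝ) + 1) * 2 ^ e' ≤ (2 : ℝ) ^ L := by
        have h3 : (2 : ℝ) ^ (L + 1) = 2 ^ L + 2 ^ L := by rw [pow_succ]; ring
        (clear * - h1 hup h3; linarith)
      have h4 : (2 : ℝ) ^ L = 2 ^ (L - e') * 2 ^ e' := by rw [← pow_add]; congr 1; omega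
      rw [h4] at h2
      have h5 := le_of_mul_le_mul_right h2 ht
      have h6 : i0 + i + 1 ≤ 2 ^ (L - e') := by exact_mod_cast h5
      omega
    · have : (i0 : ℝ) ≤ ((i0 + i : ℕ) : ℝ) := by push_cast; (clear * -; linarith [(Nat.cast_nonneg i : (0 : ℝ) ≤ i)])
      have := mul_le_mul_of_nonneg_right this ht.le
      (clear * - b0 this; linarith)
    · exact hup
  have hsum : (n : ℝ) * (c1 * 2 ^ e' / L) ≤ ∑ i ∈ Finset.range n, (npr L e' (i0 + i) : ℝ) := by
    have := Finset.sum_le_sum hcell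
    rw [Finset.sum_const, Finset.card_range, nsmul_eq_mul] at this
    exact this
  have hcard : (∑ i ∈ Finset.range n, (npr L e' (i0 + i) : ℝ)) ≤
      (((Finset.range (2 ^ (L + 1))).filter (fun q : ℕ => q.Prime ∧ v0 ≤ (q : ℝ) ∧ (q : ℝ) < v1)).card : ℝ) := by
    have h := sum_npr L e' i0 n
    have h' : (∑ i ∈ Finset.range n, (npr L e' (i0 + i) : ℝ))
        = (((Finset.Ico (2 ^ L + i0 * 2 ^ e') (2 ^ L + (i0 + n) * 2 ^ e')).filter Nat.Prime).card : ℝ) := by
      rw [← h]; push_cast; rfl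
    rw [h']
    have hsubset : ((Finset.Ico (2 ^ L + i0 * 2 ^ e') (2 ^ L + (i0 + n) * 2 ^ e')).filter Nat.Prime) ⊆
        ((Finset.range (2 ^ (L + 1))).filter (fun q : ℕ => q.Prime ∧ v0 ≤ (q : ℝ) ∧ (q : ℝ) < v1)) := by
      intro q hq
      rw [Finset.mem_filter, Finset.mem_Ico] at hq
      obtain ⟨⟨q1, q2⟩, q3⟩ := hq
      have q1' : (2 : ℝ) ^ L + i0 * 2 ^ e' ≤ q := by exact_mod_cast q1
      have q2' : (q : ℝ) < 2 ^ L + (i1 : ℝ) * 2 ^ e' := by
        rw [hn]; exact_mod_cast q2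
      rw [Finset.mem_filter, Finset.mem_range]
      refine ⟨?_, q3, by (clear * - b0 q1'; linarith), by (clear * - b1 q2'; linarith)⟩
      have : (q : ℝ) < 2 ^ (L + 1) := by (clear * - h1 b1 q2'; linarith)
      exact_mod_cast this
    exact_mod_cast Finset.card_le_card hsubset
  refine le_trans ?_ (hsum.trans hcard)
  have hn2 : (v1 - v0) / (2 : ℝ) ^ e' / 2 ≤ (n : ℝ) := by rw [hn']; exact hdiff
  have hq : (v1 - v0) * c1 / (2 * L) = ((v1 - v0) / (2 : ℝ) ^ e' / 2) * (c1 * 2 ^ e' / L) := by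
    (clear * - hL; field_simp)
  rw [hq]
  exact mul_le_mul_of_nonneg_right hn2 (by (clear * - hc1 hL; positivity))

/-- number of primes `q` with `m q` in `[x, x+s)` -/
noncomputable def Nm (k x s m : ℕ) : ℕ :=
  ((Finset.range (2 ^ (k + 1))).filter (fun q : ℕ => q.Prime ∧ x ≤ m * q ∧ m * q < x + s)).card

theorem nEx_eq (μ k e j : ℕ) : nEx μ k e j = ∑ m ∈ PMx μ, Nm k (2 ^ k + j * 2 ^ e) (2 ^ e) m := by
  have h : (j + 1) * 2 ^ e = j * 2 ^ e + 2 ^ e := by ring
  simp only [nEx, Nm, Finset.card_filter, Finset.sum_product, h, add_assoc]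

/-- poor cells at level `L` -/
noncomputable def Poor (w d' c1 : ℝ) (L : ℕ) : Finset ℕ :=
  (Finset.range (2 ^ (L - ecw w d' L))).filter (fun i =>
    (npr L (ecw w d' L) i : ℝ) < c1 * 2 ^ ecw w d' L / L)

/-- dichotomy for one window -/
theorem dich {w d' c1 : ℝ} {k μ e x m : ℕ} (hc1 : 0 ≤ c1) (hμ : μ + 2 ≤ k)
    (hx : 2 ^ k ≤ x) (hx1 : x + 2 ^ e ≤ 2 ^ (k + 1)) (hm : 2 ^ μ < m) (hm1 : m ≤ 2 * 2 ^ μ)
    (he : ∀ L : ℕ, (L = k - μ - 1 ∨ L = k - μ) → ecw w d' L ≤ L ∧ 16 * (2 : ℝ) ^ ecw w d' L * 2 ^ μ ≤ 2 ^ e)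
    (hno : ∀ L i : ℕ, (L = k - μ - 1 ∨ L = k - μ) → i ∈ Poor w d' c1 L →
      ¬ ((x : ℝ) ≤ m * (2 ^ L + i * 2 ^ ecw w d' L) ∧ m * (2 ^ L + ((i : ℝ) + 1) * 2 ^ ecw w d' L) ≤ x + 2 ^ e)) :
    2 ^ e * c1 / (8 * 2 ^ μ * k) ≤ (Nm k x (2 ^ e) m : ℝ) := by
  have hm0 : (0 : ℝ) < m := by
    have : 0 < m := lt_of_le_of_lt (Nat.zero_le _) hm
    exact_mod_cast this
  have hmM : ((2 : ℝ) ^ μ) < m := by exact_mod_cast hm
  have hmM1 : (m : ℝ) ≤ 2 * 2 ^ μ := by exact_mod_cast hm1
  have hM0 : (0 : ℝ) < (2 : ℝ) ^ μ := by positivity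
  have hxr : (2 : ℝ) ^ k ≤ x := by exact_mod_cast hx
  have hxr1 : (x : ℝ) + 2 ^ e ≤ 2 ^ (k + 1) := by exact_mod_cast hx1
  have hs : (0 : ℝ) < (2 : ℝ) ^ e := by positivity
  have hk0 : (0 : ℝ) < k := by
    have : 0 < k := by omega
    exact_mod_cast this
  -- choose the half window
  obtain ⟨L, v0, v1, hL, hv0, hv1, hL0, hL1, hlen⟩ : ∃ (L : ℕ) (v0 v1 : ℝ), (L = k - μ - 1 ∨ L = k - μ) ∧
      (x : ℝ) ≤ m * v0 ∧ m * v1 ≤ x + 2 ^ e ∧ (2 : ℝ) ^ L ≤ v0 ∧ v1 ≤ 2 ^ (L + 1) ∧ v1 - v0 = 2 ^ e / (2 * m) := by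
    rcases le_or_gt ((2 : ℝ) ^ (k - μ)) (x / m + 2 ^ e / (2 * m)) with h | h
    · refine ⟨k - μ, x / m + 2 ^ e / (2 * m), x / m + 2 ^ e / m, Or.inr rfl, ?_, ?_, h, ?_, ?_⟩
      · have : (m : ℝ) * (x / m + 2 ^ e / (2 * m)) = x + 2 ^ e / 2 := by field_simp
        rw [this]; (clear * - hs; linarith)
      · have : (m : ℝ) * (x / m + 2 ^ e / m) = x + 2 ^ e := by (clear * - hm0; field_simp)
        rw [this]
      · have h2 : (x : ℝ) / m + 2 ^ e / m = (x + 2 ^ e) / m := by ring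
        rw [h2, div_le_iff₀ hm0]
        have h3 : (2 : ℝ) ^ (k + 1) = 2 ^ (k - μ + 1) * 2 ^ μ := by rw [← pow_add]; congr 1; omega
        have h4 : (2 : ℝ) ^ (k - μ + 1) * 2 ^ μ ≤ 2 ^ (k - μ + 1) * m :=
          mul_le_mul_of_nonneg_left hmM.le (by positivity)
        (clear * - hxr1 h3 h4; linarith)
      · field_simp; ring
    · refine ⟨k - μ - 1, x / m, x / m + 2 ^ e / (2 * m), Or.inl rfl, ?_, ?_, ?_, ?_, ?_⟩
      · rw [mul_div_cancel₀ _ hm0.ne']
      · have : (m : ℝ) * (x / m + 2 ^ e / (2 * m)) = x + 2 ^ e / 2 := by (clear * - hm0; field_simp)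
        rw [this]; (clear * - hs; linarith)
      · rw [le_div_iff₀ hm0]
        have h3 : (2 : ℝ) ^ k = 2 ^ (k - μ - 1) * (2 * 2 ^ μ) := by
          rw [← mul_assoc, ← pow_succ, ← pow_add]; congr 1; omega
        have h4 : (2 : ℝ) ^ (k - μ - 1) * m ≤ 2 ^ (k - μ - 1) * (2 * 2 ^ μ) :=
          mul_le_mul_of_nonneg_left hmM1 (by positivity)
        (clear * - hxr h3 h4; linarith)
      · have h5 : k - μ - 1 + 1 = k - μ := by omega
        rw [h5]; exact h.le
      · ring
  obtain ⟨heL, hbig⟩ := he L hL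
  have hLpos : 0 < L := by rcases hL with h | h <;> omega
  have hLk : (L : ℝ) ≤ k := by
    have : L ≤ k := by rcases hL with h | h <;> omega
    exact_mod_cast this
  have hLr : (0 : ℝ) < L := by exact_mod_cast hLpos
  have hlen2 : 2 ^ e / (4 * 2 ^ μ) ≤ v1 - v0 := by
    rw [hlen]
    apply div_le_div_of_nonneg_left hs.le (by (clear * - hm0; positivity))
    (clear * - hmM1; linarith)
  have hlen4 : 4 * (2 : ℝ) ^ ecw w d' L ≤ v1 - v0 := by
    refine le_trans ?_ hlen2
    rw [le_div_iff₀ (by positivity)]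
    (clear * - hbig; nlinarith)
  have hw := window L (ecw w d' L) v0 v1 c1 hc1 hLpos hL0 hL1 hlen4 heL (by
    intro i hi hi0 hi1
    by_contra hcon
    push Not at hcon
    apply hno L i hL
    · rw [Poor, Finset.mem_filter, Finset.mem_range]
      exact ⟨hi, hcon⟩
    · constructor
      · exact hv0.trans (mul_le_mul_of_nonneg_left hi0 hm0.le)
      · exact (mul_le_mul_of_nonneg_left hi1 hm0.le).trans hv1)
  have hsub : ((Finset.range (2 ^ (L + 1))).filter (fun q : ℕ => q.Prime ∧ v0 ≤ (q : ℝ) ∧ (q : ℝ) < v1)) ⊆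
      ((Finset.range (2 ^ (k + 1))).filter (fun q : ℕ => q.Prime ∧ x ≤ m * q ∧ m * q < x + 2 ^ e)) := by
    intro q hq
    rw [Finset.mem_filter, Finset.mem_range] at hq ⊢
    obtain ⟨q1, q2, q3, q4⟩ := hq
    refine ⟨lt_of_lt_of_le q1 (Nat.pow_le_pow_right (by norm_num) (by rcases hL with h | h <;> (clear * - w d' e x m hμ q h; omega))), q2, ?_, ?_⟩
    · have : (x : ℝ) ≤ m * q := hv0.trans (mul_le_mul_of_nonneg_left q3 hm0.le)
      exact_mod_cast this
    · have : (m : ℝ) * q < x + 2 ^ e := lt_of_lt_of_le (mul_lt_mul_of_pos_left q4 hm0) hv1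
      exact_mod_cast this
  have hc : (((Finset.range (2 ^ (L + 1))).filter (fun q : ℕ => q.Prime ∧ v0 ≤ (q : ℝ) ∧ (q : ℝ) < v1)).card : ℝ) ≤
      (Nm k x (2 ^ e) m : ℝ) := by
    rw [Nm]
    exact_mod_cast Finset.card_le_card hsub
  refine le_trans ?_ (hw.trans hc)
  calc 2 ^ e * c1 / (8 * 2 ^ μ * k) = 2 ^ e / (4 * 2 ^ μ) * c1 / (2 * k) := by
        field_simp; ring
    _ ≤ (v1 - v0) * c1 / (2 * k) := by
        apply div_le_div_of_nonneg_right _ (by (clear * - hk0; positivity))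
        exact mul_le_mul_of_nonneg_right hlen2 hc1
    _ ≤ (v1 - v0) * c1 / (2 * L) := by
        apply div_le_div_of_nonneg_left _ (by positivity) (by (clear * - hLk; linarith))
        have : 0 ≤ v1 - v0 := le_trans (by positivity) hlen2
        (clear * - this hc1; positivity)

/-- the collision lemma for one `k` -/
theorem step {w d' c1 Pc : ℝ} {k μ e : ℕ} (hc1 : 0 < c1) (hμ : μ + 2 ≤ k) (hek : e ≤ k)
    (hcheb : (2 : ℝ) ^ μ / (2 * (μ + 1)) ≤ (PMx μ).card)
    (he : ∀ L : ℕ, (L = k - μ - 1 ∨ L = k - μ) → ecw w d' L ≤ L ∧ 16 * (2 : ℝ) ^ ecw w d' L * 2 ^ μ ≤ 2 ^ e)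
    (hP : ((Poor w d' c1 (k - μ - 1)).card : ℝ) + (Poor w d' c1 (k - μ)).card ≤ Pc)
    (hcond : Pc * (1 + 16 * 2 ^ e * 2 ^ (2 * μ) / 2 ^ k) ≤ ((2 : ℝ) ^ μ / (4 * k)) ^ 2 / 2) :
    (((Finset.range (2 ^ (k - e))).filter (fun j =>
      (nEx μ k e j : ℝ) < c1 / 32 * 2 ^ e / (k : ℝ) ^ 2)).card : ℝ) ≤ 40 * k * Pc / 2 ^ μ := by
  set Bad := (Finset.range (2 ^ (k - e))).filter (fun j => (nEx μ k e j : ℝ) < c1 / 32 * 2 ^ e / (k : ℝ) ^ 2)
    with hBad
  have hk0 : (0 : ℝ) < k := by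
    have : 0 < k := by omega
    exact_mod_cast this
  have hM : (0 : ℝ) < (2 : ℝ) ^ μ := by positivity
  have hs : (0 : ℝ) < (2 : ℝ) ^ e := by positivity
  let Hit : ℕ → ℕ → ℕ × ℕ → Prop := fun j m p => (p.1 = k - μ - 1 ∨ p.1 = k - μ) ∧ p.2 ∈ Poor w d' c1 p.1 ∧
    (((2 ^ k + j * 2 ^ e : ℕ) : ℝ) ≤ m * (2 ^ p.1 + p.2 * 2 ^ ecw w d' p.1) ∧
      m * (2 ^ p.1 + ((p.2 : ℝ) + 1) * 2 ^ ecw w d' p.1) ≤ ((2 ^ k + j * 2 ^ e : ℕ) : ℝ) + 2 ^ e)
  let B : ℕ → Finset ℕ := fun j => (PMx μ).filter (fun m => ∃ p, Hit j m p)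
  let φ : ℕ → ℕ → ℕ × ℕ := fun j m => if h : ∃ p, Hit j m p then h.choose else (0, 0)
  have hφ : ∀ j m, m ∈ B j → Hit j m (φ j m) := by
    intro j m hm
    have h : ∃ p, Hit j m p := (Finset.mem_filter.1 hm).2
    have : φ j m = h.choose := dif_pos h
    rw [this]
    exact h.choose_spec
  let P : Finset (ℕ × ℕ) := ((Poor w d' c1 (k - μ - 1)).image (fun i => (k - μ - 1, i))) ∪
    ((Poor w d' c1 (k - μ)).image (fun i => (k - μ, i)))
  have hPc : (P.card : ℝ) ≤ Pc := by
    refine le_trans ?_ hP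
    have h1 := Finset.card_union_le ((Poor w d' c1 (k - μ - 1)).image (fun i => (k - μ - 1, i)))
      ((Poor w d' c1 (k - μ)).image (fun i => (k - μ, i)))
    have h2 : ((Poor w d' c1 (k - μ - 1)).image (fun i => (k - μ - 1, i))).card ≤ (Poor w d' c1 (k - μ - 1)).card :=
      Finset.card_image_le
    have h3 : ((Poor w d' c1 (k - μ)).image (fun i => (k - μ, i))).card ≤ (Poor w d' c1 (k - μ)).card :=
      Finset.card_image_le
    have : P.card ≤ (Poor w d' c1 (k - μ - 1)).card + (Poor w d' c1 (k - μ)).card := by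
      show (_ ∪ _ : Finset (ℕ × ℕ)).card ≤ _
      omega
    exact_mod_cast this
  have hPMx : ∀ m ∈ PMx μ, m.Prime ∧ 2 ^ μ < m ∧ m ≤ 2 * 2 ^ μ := by
    intro m hm
    rw [PMx, Finset.mem_filter, Finset.mem_Ioc] at hm
    exact ⟨hm.2, hm.1.1, hm.1.2⟩
  -- many poor windows
  have hBcard : ∀ j ∈ Bad, (2 : ℝ) ^ μ / (4 * k) ≤ ((B j).card : ℝ) := by
    intro j hj
    rw [hBad, Finset.mem_filter, Finset.mem_range] at hj
    obtain ⟨hj1, hj2⟩ := hj
    set x := 2 ^ k + j * 2 ^ e with hxdef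
    have hx1 : x + 2 ^ e ≤ 2 ^ (k + 1) := by
      have h1 : (j + 1) * 2 ^ e ≤ 2 ^ (k - e) * 2 ^ e := Nat.mul_le_mul_right _ hj1
      have h2 : 2 ^ (k - e) * 2 ^ e = 2 ^ k := by rw [← pow_add]; congr 1; omega
      have h3 : (j + 1) * 2 ^ e = j * 2 ^ e + 2 ^ e := by ring
      rw [hxdef, pow_succ]
      omega
    have hsplit := Finset.card_filter_add_card_filter_not (s := PMx μ) (fun m => ∃ p, Hit j m p)
    set G := (PMx μ).filter (fun m => ¬ ∃ p, Hit j m p) with hG
    have hGn : ∀ m ∈ G, 2 ^ e * c1 / (8 * 2 ^ μ * k) ≤ (Nm k x (2 ^ e) m : ℝ) := by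
      intro m hm
      rw [hG, Finset.mem_filter] at hm
      obtain ⟨hm1, hm2⟩ := hm
      obtain ⟨-, hm3, hm4⟩ := hPMx m hm1
      apply dich (w := w) (d' := d') hc1.le hμ (by rw [hxdef]; omega) hx1 hm3 hm4 he
      intro L i hL hi hcon
      exact hm2 ⟨(L, i), hL, hi, hcon⟩
    have hsum : (G.card : ℝ) * (2 ^ e * c1 / (8 * 2 ^ μ * k)) ≤ (nEx μ k e j : ℝ) := by
      rw [nEx_eq]
      push_cast
      calc (G.card : ℝ) * (2 ^ e * c1 / (8 * 2 ^ μ * k)) = ∑ m ∈ G, 2 ^ e * c1 / (8 * 2 ^ μ * k) := by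
            rw [Finset.sum_const, nsmul_eq_mul]
        _ ≤ ∑ m ∈ G, (Nm k x (2 ^ e) m : ℝ) := Finset.sum_le_sum hGn
        _ ≤ ∑ m ∈ PMx μ, (Nm k x (2 ^ e) m : ℝ) := by
            apply Finset.sum_le_sum_of_subset_of_nonneg (Finset.filter_subset _ _)
            intro i _ _
            exact Nat.cast_nonneg _
    have hGcard : (G.card : ℝ) ≤ 2 ^ μ / (4 * k) := by
      have h1 : (G.card : ℝ) * (2 ^ e * c1 / (8 * 2 ^ μ * k)) ≤ c1 / 32 * 2 ^ e / (k : ℝ) ^ 2 := hsum.trans hj2.le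
      have h2 : c1 / 32 * 2 ^ e / (k : ℝ) ^ 2 = (2 ^ μ / (4 * k)) * (2 ^ e * c1 / (8 * 2 ^ μ * k)) := by
        field_simp; ring
      rw [h2] at h1
      exact le_of_mul_le_mul_right h1 (by (clear * - hc1 hk0; positivity))
    have hle : (2 : ℝ) ^ μ / (2 * k) ≤ (PMx μ).card := by
      refine le_trans ?_ hcheb
      apply div_le_div_of_nonneg_left hM.le (by (clear * -; positivity))
      have : μ + 1 ≤ k := by omega
      have : (μ : ℝ) + 1 ≤ k := by exact_mod_cast this
      (clear * - this; linarith)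
    have hadd : ((B j).card : ℝ) + G.card = (PMx μ).card := by exact_mod_cast hsplit
    have : (2 : ℝ) ^ μ / (2 * k) = 2 ^ μ / (4 * k) + 2 ^ μ / (4 * k) := by field_simp; ring
    (clear * - hGcard hle hadd this; linarith)
  have hXe : (2 : ℝ) ^ (2 * μ) = 2 ^ μ * 2 ^ μ := by rw [two_mul, pow_add]
  have key := Pool.Agent.M17.Helper61.KS.collision Bad (fun j => ((2 ^ k + j * 2 ^ e : ℕ) : ℝ)) (PMx μ) B P φ
    (X := 2 ^ k) (lam := 2 ^ e) (Q := 2 ^ μ) (ρ := 2 ^ e / 2 ^ μ) (π0 := 2 ^ μ / (4 * k))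
    (by positivity) hs (one_le_pow₀ (by norm_num)) (by positivity) (by (clear * - hk0; positivity))
    (by
      intro r hr
      obtain ⟨h1, h2, h3⟩ := hPMx r hr
      refine ⟨h1, ?_, ?_⟩
      · exact_mod_cast h2.le
      · exact_mod_cast h3)
    (fun j _ => Finset.filter_subset _ _)
    (by
      intro j _
      push_cast
      have : (0 : ℝ) ≤ (j : ℝ) * 2 ^ e := by (clear * -; positivity)
      (clear * - this; linarith))
    (by
      intro i _ j _ hij
      push_cast
      have h1 : (1 : ℝ) ≤ |(i : ℝ) - j| := by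
        have h2 : (i : ℤ) - j ≠ 0 := by (clear * - k μ e hij; omega)
        have h3 := Int.one_le_abs h2
        have : ((1 : ℤ) : ℝ) ≤ ((|(i : ℤ) - j| : ℤ) : ℝ) := by exact_mod_cast h3
        push_cast at this
        exact this
      have h4 : (2 : ℝ) ^ k + (i : ℝ) * 2 ^ e - (2 ^ k + (j : ℝ) * 2 ^ e) = ((i : ℝ) - j) * 2 ^ e := by ring
      rw [h4, abs_mul, abs_of_pos hs]
      (clear * - hs h1; nlinarith))
    (by
      intro j _ m hm
      obtain ⟨h1, h2, -⟩ := hφ j m hm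
      show _ ∈ (_ ∪ _ : Finset (ℕ × ℕ))
      rw [Finset.mem_union, Finset.mem_image, Finset.mem_image]
      rcases h1 with h | h
      · left
        exact ⟨(φ j m).2, by rw [← h]; exact h2, by rw [← h]⟩
      · right
        exact ⟨(φ j m).2, by rw [← h]; exact h2, by rw [← h]⟩)
    (by
      intro i _ j _ r hr r' hr' heq
      have h1 := hφ i r hr
      have h2 := hφ j r' hr'
      rw [← heq] at h2
      set p := φ i r with hp
      have hr0 : (2 : ℝ) ^ μ < r := by
        have := (hPMx r ((Finset.filter_subset _ _) hr)).2.1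
        exact_mod_cast this
      have hr0' : (2 : ℝ) ^ μ < r' := by
        have := (hPMx r' ((Finset.filter_subset _ _) hr')).2.1
        exact_mod_cast this
      have hrp : (0 : ℝ) < r := hM.trans hr0
      have hrp' : (0 : ℝ) < r' := hM.trans hr0'
      have aux : ∀ (j r : ℕ), (0 : ℝ) < r → (2 : ℝ) ^ μ < r → Hit j r p →
          0 ≤ (2 ^ p.1 + (p.2 : ℝ) * 2 ^ ecw w d' p.1) - ((2 ^ k + j * 2 ^ e : ℕ) : ℝ) / r ∧
          (2 ^ p.1 + (p.2 : ℝ) * 2 ^ ecw w d' p.1) - ((2 ^ k + j * 2 ^ e : ℕ) : ℝ) / r ≤ 2 ^ e / 2 ^ μ := by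
        intro j r h0 h1 h2
        obtain ⟨-, -, h3, h4⟩ := h2
        constructor
        · rw [sub_nonneg, div_le_iff₀ h0]
          (clear * - h3; linarith)
        · have h5 : (2 ^ p.1 + (p.2 : ℝ) * 2 ^ ecw w d' p.1) ≤ (((2 ^ k + j * 2 ^ e : ℕ) : ℝ) + 2 ^ e) / r := by
            rw [le_div_iff₀ h0]
            have h6 : (0 : ℝ) ≤ r * 2 ^ ecw w d' p.1 := by (clear * - h0; positivity)
            (clear * - h4 h6; nlinarith)
          have h7 : (((2 ^ k + j * 2 ^ e : ℕ) : ℝ) + 2 ^ e) / r - ((2 ^ k + j * 2 ^ e : ℕ) : ℝ) / r = 2 ^ e / r := by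
            ring
          have h8 : (2 : ℝ) ^ e / r ≤ 2 ^ e / 2 ^ μ := div_le_div_of_nonneg_left hs.le hM h1.le
          (clear * - h5 h7 h8; linarith)
      obtain ⟨a1, a2⟩ := aux i r hrp hr0 h1
      obtain ⟨b1, b2⟩ := aux j r' hrp' hr0' h2
      rw [abs_le]
      constructor <;> (clear * - a2 b1 a1 b2; linarith))
    hBcard
    (by
      refine le_trans ?_ hcond
      have h1 : 16 * ((2 : ℝ) ^ e / 2 ^ μ) * (2 ^ μ) ^ 3 / 2 ^ k = 16 * 2 ^ e * 2 ^ (2 * μ) / 2 ^ k := by
        rw [hXe]; field_simp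
      rw [h1]
      exact mul_le_mul_of_nonneg_right hPc (by positivity))
  have h5 : 1 + 4 * ((2 : ℝ) ^ e / 2 ^ μ) * 2 ^ μ / 2 ^ e = 5 := by field_simp; norm_num
  rw [h5] at key
  rw [le_div_iff₀ hM]
  have h6 : (Bad.card : ℝ) * 2 ^ μ = (Bad.card : ℝ) * (2 ^ μ / (4 * k)) * (4 * k) := by (clear * - hk0; field_simp)
  rw [h6]
  calc (Bad.card : ℝ) * (2 ^ μ / (4 * k)) * (4 * k) ≤ (2 * P.card * 5) * (4 * k) :=
        mul_le_mul_of_nonneg_right key (by (clear * - hk0; positivity))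
    _ ≤ (2 * Pc * 5) * (4 * k) := by
        apply mul_le_mul_of_nonneg_right _ (by positivity)
        (clear * - hPc; linarith)
    _ = 40 * k * Pc := by ring

/-! ### asymptotics -/

theorem ev_sq (C η : ℝ) (hη : 0 < η) : ∀ᶠ k : ℕ in atTop, C * (k : ℝ) ^ 2 ≤ (2 : ℝ) ^ (η * (k : ℝ)) := by
  have hr : |(2 : ℝ) ^ (-η)| < 1 := by
    rw [abs_of_pos (by positivity)]
    exact Real.rpow_lt_one_of_one_lt_of_neg (by norm_num) (by linarith)
  have h := (tendsto_pow_const_mul_const_pow_of_abs_lt_one 2 hr).const_mul C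
  rw [mul_zero] at h
  filter_upwards [h.eventually (eventually_le_nhds (show (0 : ℝ) < 1 by norm_num))] with k hk
  have h2 : ((2 : ℝ) ^ (-η)) ^ k = ((2 : ℝ) ^ (η * (k : ℝ)))⁻¹ := by
    rw [← Real.rpow_natCast, ← Real.rpow_mul (by norm_num), ← Real.rpow_neg (by norm_num)]
    congr 1
    ring
  rw [h2, ← mul_assoc, ← div_eq_mul_inv, div_le_one (by positivity)] at hk
  exact hk

theorem ev_lin (C η : ℝ) (hη : 0 < η) : ∀ᶠ k : ℕ in atTop, C ≤ η * (k : ℝ) := by
  have h : Tendsto (fun k : ℕ => η * (k : ℝ)) atTop atTop :=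
    Tendsto.const_mul_atTop hη tendsto_natCast_atTop_atTop
  exact h.eventually_ge_atTop C

/-- **class 3**: few cells are without numbers `q m`, `m` prime of size `X^b` -/
theorem countEx_of_countW {w U b U3 : ℝ} (hb1 : 1/4 < b) (hb2 : b < 1/2) (hw : 0 < 1/2 + w) (hU : 0 ≤ U)
    (h1 : (1 - b) * (1/2 + w) < 1/2 - b) (h2 : (1 - b) * U < 1/2) (h3 : (1 - b) * U - b < U3)
    (hW : CountW w U) : CountEx (fun k => ⌊b * (k : ℝ)⌋₊) U3 := by
  obtain ⟨d0', hd0', H⟩ := hW
  set d' := min d0' ((1/2 + w) / 2) with hd'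
  have hd'pos : 0 < d' := lt_min hd0' (by (clear * - hw; linarith))
  obtain ⟨c1, hc1, K1, H1⟩ := H d' hd'pos (min_le_left _ _)
  set g := (1/2 - b) - (1 - b) * (1/2 + w) with hg
  have hg0 : 0 < g := by (clear * - h1 hg; linarith)
  obtain ⟨K2, hK2⟩ := card_PMx
  refine ⟨g / 2, by (clear * - hg0; linarith), fun d hd hdle => ⟨c1 / 32, by positivity, ?_⟩⟩
  have hev : ∀ᶠ k : ℕ in atTop, (((Finset.range (2 ^ (k - ec d k))).filter (fun j =>
    (nEx (⌊b * (k : ℝ)⌋₊) k (ec d k) j : ℝ) < c1 / 32 * 2 ^ ec d k / (k : ℝ) ^ 2)).card : ℝ) ≤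
      (2 : ℝ) ^ (U3 * (k : ℝ)) := by
    filter_upwards [ev_lin (K2 + 1) b (by (clear * - hb1 hb2; linarith)), ev_lin 3 (1 - b) (by (clear * - hb1 hb2; linarith)),
      ev_lin (K1 + 1) (1 - b) (by (clear * - hb1 hb2; linarith)), ev_lin (5 + (1/2 + w)) (g / 2) (by (clear * - hd hdle; linarith)),
      ev_sq (512 * 2 ^ U) (2 * b - (1 - b) * U) (by (clear * - hb1 h2; linarith)), ev_sq (2048 * 2 ^ U) (1/2 - (1 - b) * U) (by (clear * - h2; linarith)),
      ev_sq (160 * 2 ^ U) (U3 + b - (1 - b) * U) (by (clear * - h3; linarith)), eventually_ge_atTop 1]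
      with k e1 e2 e3 e4 e5 e6 e7 e8
    set μ := ⌊b * (k : ℝ)⌋₊ with hμ
    have hk1 : (1 : ℝ) ≤ k := by exact_mod_cast e8
    have hbk : 0 ≤ b * (k : ℝ) := by (clear * - hb1 e8; positivity)
    have m1 : (μ : ℝ) ≤ b * k := Nat.floor_le hbk
    have m2 : b * k < μ + 1 := Nat.lt_floor_add_one _
    have hμ2 : μ + 3 ≤ k := by
      have : (μ : ℝ) + 3 ≤ k := by (clear * - e2 m1; linarith)
      exact_mod_cast this
    have hek : ec d k ≤ k := by
      rw [ec]
      apply Nat.floor_le_of_le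
      (clear * - hb1 hb2 e1 e2 hd; nlinarith)
    have hekr : (ec d k : ℝ) ≤ k / 2 := by
      rw [ec]
      rcases le_or_gt 0 ((k : ℝ) * (1/2 - d)) with h | h
      · refine (Nat.floor_le h).trans ?_
        (clear * - hd; nlinarith)
      · rw [Nat.floor_of_nonpos h.le]
        push_cast; (clear * - e8; positivity)
    have hekl : (k : ℝ) * (1/2 - d) < ec d k + 1 := Nat.lt_floor_add_one _
    have hg1 : (1/2 + w) < 1 := by (clear * - h1 hb1 hb2 hw; nlinarith)
    have hL : ∀ L : ℕ, (L = k - μ - 1 ∨ L = k - μ) → (L : ℝ) ≤ (1 - b) * k + 1 ∧ (1 - b) * k - 1 ≤ (L : ℝ) := by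
      intro L hL
      have c1 : ((k - μ - 1 : ℕ) : ℝ) = k - μ - 1 := by
        rw [Nat.cast_sub (by omega), Nat.cast_sub (by omega)]; push_cast; ring
      have c2 : ((k - μ : ℕ) : ℝ) = k - μ := by rw [Nat.cast_sub (by omega)]
      rcases hL with h | h
      · rw [h, c1]; constructor <;> (clear * - hb1 hb2 m2 m1; linarith)
      · rw [h, c2]; constructor <;> (clear * - m2 hb1 hb2 m1; linarith)
    have hecw : ∀ L : ℕ, (ecw w d' L : ℝ) ≤ L * (1/2 + w) := by
      intro L
      rw [ecw]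
      rcases le_or_gt 0 ((L : ℝ) * (1/2 + w - d')) with h | h
      · refine (Nat.floor_le h).trans ?_
        have : (0 : ℝ) ≤ L := Nat.cast_nonneg _
        (clear * - hd'pos; nlinarith)
      · rw [Nat.floor_of_nonpos h.le]
        push_cast; (clear * - hw; positivity)
    have he : ∀ L : ℕ, (L = k - μ - 1 ∨ L = k - μ) → ecw w d' L ≤ L ∧
        16 * (2 : ℝ) ^ ecw w d' L * 2 ^ μ ≤ 2 ^ (ec d k) := by
      intro L hLL
      obtain ⟨l1, l2⟩ := hL L hLL
      have hl := hecw L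
      have hL0 : (0 : ℝ) ≤ L := Nat.cast_nonneg _
      constructor
      · have : (ecw w d' L : ℝ) ≤ L := by (clear * - hl hg1; nlinarith)
        exact_mod_cast this
      · have hsum : ecw w d' L + μ + 4 ≤ ec d k := by
          have : (ecw w d' L : ℝ) + μ + 4 ≤ ec d k := by
            have h5 : (ecw w d' L : ℝ) ≤ ((1 - b) * k + 1) * (1/2 + w) := by (clear * - hl hb1 hb2 hw l1; nlinarith)
            have h6 : g / 2 * (k : ℝ) ≤ (g - d) * k := by (clear * - hdle; nlinarith)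
            have h7 : (g - d) * (k : ℝ) = (1/2 - d) * k - b * k - (1 - b) * k * (1/2 + w) := by rw [hg]; ring
            (clear * - e4 m1 hekl h5 h6 h7; nlinarith)
          exact_mod_cast this
        calc 16 * (2 : ℝ) ^ ecw w d' L * 2 ^ μ = 2 ^ (ecw w d' L + μ + 4) := by
              rw [pow_add, pow_add]; norm_num; ring
          _ ≤ 2 ^ (ec d k) := pow_le_pow_right₀ (by norm_num) hsum
    have hPoor : ∀ L : ℕ, (L = k - μ - 1 ∨ L = k - μ) →
        ((Poor w d' c1 L).card : ℝ) ≤ 2 ^ U * 2 ^ ((1 - b) * U * (k : ℝ)) := by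
      intro L hLL
      obtain ⟨l1, l2⟩ := hL L hLL
      have hK : K1 ≤ L := by
        have : (K1 : ℝ) ≤ L := by (clear * - e3 l2; linarith)
        exact_mod_cast this
      refine (H1 L hK).trans ?_
      rw [← Real.rpow_add (by norm_num)]
      apply Real.rpow_le_rpow_of_exponent_le (by norm_num)
      (clear * - hb1 hb2 hU l1; nlinarith)
    have hμpow : (2 : ℝ) ^ (b * (k : ℝ)) ≤ 2 * 2 ^ μ := by
      have h5 : (2 : ℝ) * 2 ^ μ = (2 : ℝ) ^ ((μ : ℝ) + 1) := by
        rw [Real.rpow_add (by norm_num), Real.rpow_natCast, Real.rpow_one]; ring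
      rw [h5]
      exact Real.rpow_le_rpow_of_exponent_le (by norm_num) m2.le
    have hs2 := step (w := w) (d' := d') (c1 := c1) (Pc := 2 * (2 ^ U * 2 ^ ((1 - b) * U * (k : ℝ)))) (k := k) (μ := μ)
      (e := ec d k) hc1 (by (clear * - d hμ2; omega)) hek
      (hK2 μ (by
        have : ((K2 : ℕ) : ℝ) ≤ μ := by (clear * - e1 m2; linarith)
        exact_mod_cast this)) he
      (by
        have a1 := hPoor (k - μ - 1) (Or.inl rfl)
        have a2 := hPoor (k - μ) (Or.inr rfl)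
        (clear * - a1 a2; linarith))
      (by
        have hM0 : (0 : ℝ) < (2 : ℝ) ^ μ := by positivity
        have q1 : (2 : ℝ) ^ (2 * μ) = 2 ^ μ * 2 ^ μ := by rw [two_mul, pow_add]
        have q2 : (2 : ℝ) ^ (ec d k) ≤ (2 : ℝ) ^ ((k : ℝ) / 2) := by
          rw [← Real.rpow_natCast]
          exact Real.rpow_le_rpow_of_exponent_le (by norm_num) hekr
        have q3 : (2 : ℝ) ^ k = (2 : ℝ) ^ ((k : ℝ) / 2) * (2 : ℝ) ^ ((k : ℝ) / 2) := by
          rw [← Real.rpow_add (by norm_num), ← Real.rpow_natCast]; congr 1; ring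
        set W := (2 : ℝ) ^ ((1 - b) * U * (k : ℝ)) with hW
        have hW0 : 0 < W := by positivity
        have q4 : (512 * 2 ^ U * (k : ℝ) ^ 2) * W ≤ 4 * (2 ^ μ * 2 ^ μ) := by
          calc (512 * 2 ^ U * (k : ℝ) ^ 2) * W ≤ (2 : ℝ) ^ ((2 * b - (1 - b) * U) * (k : ℝ)) * W :=
                mul_le_mul_of_nonneg_right e5 hW0.le
            _ = (2 : ℝ) ^ (b * (k : ℝ)) * (2 : ℝ) ^ (b * (k : ℝ)) := by
                rw [hW, ← Real.rpow_add (by norm_num), ← Real.rpow_add (by norm_num)]; congr 1; ring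
            _ ≤ (2 * 2 ^ μ) * (2 * 2 ^ μ) := mul_le_mul hμpow hμpow (by positivity) (by positivity)
            _ = _ := by ring
        have q5 : (2048 * 2 ^ U * (k : ℝ) ^ 2) * W ≤ (2 : ℝ) ^ ((k : ℝ) / 2) := by
          calc (2048 * 2 ^ U * (k : ℝ) ^ 2) * W ≤ (2 : ℝ) ^ ((1/2 - (1 - b) * U) * (k : ℝ)) * W :=
                mul_le_mul_of_nonneg_right e6 hW0.le
            _ = (2 : ℝ) ^ ((k : ℝ) / 2) := by
                rw [hW, ← Real.rpow_add (by norm_num)]; congr 1; ring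
        set A := (2 : ℝ) ^ ((k : ℝ) / 2) with hA
        have hA0 : 0 < A := by positivity
        have q6 : 16 * (2 : ℝ) ^ (ec d k) * 2 ^ (2 * μ) / 2 ^ k ≤ 16 * (2 ^ μ * 2 ^ μ) / A := by
          rw [q1, q3, div_le_div_iff₀ (by positivity) hA0]
          have : 16 * (2 : ℝ) ^ (ec d k) * (2 ^ μ * 2 ^ μ) * A ≤ 16 * A * (2 ^ μ * 2 ^ μ) * A := by
            (clear * - q2; gcongr)
          (clear * - this; linarith)
        have hPc0 : (0 : ℝ) ≤ 2 * (2 ^ U * W) := by positivity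
        refine (mul_le_mul_of_nonneg_left (add_le_add_right q6 1) hPc0).trans ?_
        have q7 : ((2 : ℝ) ^ μ / (4 * k)) ^ 2 / 2 = (2 ^ μ * 2 ^ μ) / (32 * (k : ℝ) ^ 2) := by field_simp; ring
        rw [q7, le_div_iff₀ (by positivity)]
        set N := (2 : ℝ) ^ μ * 2 ^ μ with hN
        have hN0 : 0 < N := by positivity
        have q8 : 2 * (2 ^ U * W) * (1 + 16 * N / A) * (32 * (k : ℝ) ^ 2)
            = (512 * 2 ^ U * (k : ℝ) ^ 2 * W) / 8 + (2048 * 2 ^ U * (k : ℝ) ^ 2 * W) / 2 * (N / A) := by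
          ring
        rw [q8]
        have q9 : (2048 * 2 ^ U * (k : ℝ) ^ 2 * W) / 2 * (N / A) ≤ A / 2 * (N / A) := by
          apply mul_le_mul_of_nonneg_right _ (by positivity)
          (clear * - q5; linarith)
        have q10 : A / 2 * (N / A) = N / 2 := by field_simp
        (clear * - q4 q9 q10; linarith))
    refine hs2.trans ?_
    rw [div_le_iff₀ (by positivity)]
    have hk2 : (k : ℝ) ≤ (k : ℝ) ^ 2 := by (clear * - hb1 hb2 e1 e2; nlinarith)
    calc 40 * (k : ℝ) * (2 * (2 ^ U * 2 ^ ((1 - b) * U * (k : ℝ))))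
        ≤ (160 * 2 ^ U * (k : ℝ) ^ 2) / 2 * 2 ^ ((1 - b) * U * (k : ℝ)) := by
          have : (0 : ℝ) < 2 ^ U * 2 ^ ((1 - b) * U * (k : ℝ)) := by positivity
          (clear * - hb1 hb2 hk2 this; nlinarith)
      _ ≤ (2 : ℝ) ^ ((U3 + b - (1 - b) * U) * (k : ℝ)) / 2 * 2 ^ ((1 - b) * U * (k : ℝ)) := by
          apply mul_le_mul_of_nonneg_right _ (by positivity)
          (clear * - e7; linarith)
      _ = (2 : ℝ) ^ (U3 * (k : ℝ)) * ((2 : ℝ) ^ (b * (k : ℝ)) / 2) := by
          have : (2 : ℝ) ^ ((U3 + b - (1 - b) * U) * (k : ℝ)) * 2 ^ ((1 - b) * U * (k : ℝ)) =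
              (2 : ℝ) ^ (U3 * (k : ℝ)) * (2 : ℝ) ^ (b * (k : ℝ)) := by
            rw [← Real.rpow_add (by norm_num), ← Real.rpow_add (by norm_num)]; congr 1; ring
          (clear * - this; linarith)
      _ ≤ (2 : ℝ) ^ (U3 * (k : ℝ)) * 2 ^ μ := by
          apply mul_le_mul_of_nonneg_left _ (by positivity)
          (clear * - hμpow; linarith)
  exact eventually_atTop.1 hev

end Pool.Agent.M17.Helper29.KD
end

/- Helper53.KN.Helper79.KS.FixGen -/
section
/-! The fixed point theorem for an arbitrary (discrete) set of indices; conditions for the relevant indices only. -/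

set_option autoImplicit false
open Filter Topology
open scoped BoundedContinuousFunction

namespace Pool.Agent.M17.Helper79.KS.Gen

variable {ι : Type*}

/-- value at the prime `p` -/
noncomputable def val (b : ℕ → ℝ) (w : ι → ℕ → ℝ) (t : ι → ℝ) (p : ℕ) : ℝ := b p + ∑' i, t i * w i p

/-- sum over the cell `i` -/
noncomputable def cellSum (b : ℕ → ℝ) (w : ι → ℕ → ℝ) (cl : ι → Finset ℕ) (t : ι → ℝ) (i : ι) : ℝ :=
  ∑ n ∈ cl i, cm (val b w t) n

section

variable {b : ℕ → ℝ} {w : ι → ℕ → ℝ} {cl : ι → Finset ℕ} {G : ι → ℝ}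

theorem summ (hw : ∀ i p, 0 ≤ w i p) (hsum : ∀ p, Summable (fun i => w i p)) {t : ι → ℝ} {C : ℝ}
    (ht : ∀ i, |t i| ≤ C) (p : ℕ) : Summable (fun i => t i * w i p) := by
  refine Summable.of_norm_bounded ((hsum p).mul_left C) fun i => ?_
  rw [Real.norm_eq_abs, abs_mul, abs_of_nonneg (hw i p)]
  exact mul_le_mul_of_nonneg_right (ht i) (hw i p)

theorem tsum_bound (hw : ∀ i p, 0 ≤ w i p) (hsum : ∀ p, Summable (fun i => w i p)) {t : ι → ℝ} {C : ℝ}
    (ht : ∀ i, |t i| ≤ C) (p : ℕ) : |∑' i, t i * w i p| ≤ C * ∑' i, w i p := by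
  have h1 := summ hw hsum ht p
  have h2 : ‖∑' i, t i * w i p‖ ≤ ∑' i, ‖t i * w i p‖ := norm_tsum_le_tsum_norm h1.norm
  rw [Real.norm_eq_abs] at h2
  refine h2.trans ?_
  rw [← tsum_mul_left]
  refine h1.norm.tsum_le_tsum (fun i => ?_) ((hsum p).mul_left C)
  rw [Real.norm_eq_abs, abs_mul, abs_of_nonneg (hw i p)]
  exact mul_le_mul_of_nonneg_right (ht i) (hw i p)

/-- the estimates for one cell -/
theorem cell_est [DecidableEq ι] (hb : ∀ p, 0 ≤ b p) (hw : ∀ i p, 0 ≤ w i p)
    (hsum : ∀ p, Summable (fun i => w i p)) (i : ι)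
    (hown : G i ≤ ∑ n ∈ cl i, lin b (w i) n)
    (hstar : ∑ n ∈ cl i, cm (fun p => b p + 2 * ∑' i, w i p) n ≤ 9 / 4 * G i)
    {t t' : ι → ℝ} {D : ℝ} (hD : 0 ≤ D) (ht : ∀ i, |t i| ≤ 1) (ht' : ∀ i, |t' i| ≤ 1)
    (htt : ∀ i, |t i - t' i| ≤ D) :
    |(cellSum b w cl t i - t i * ∑ n ∈ cl i, lin b (w i) n) -
        (cellSum b w cl t' i - t' i * ∑ n ∈ cl i, lin b (w i) n)| ≤ D / 8 * G i := by
  set ω : ℕ → ℝ := fun p => ∑' i, w i p with hω
  set x : ℕ → ℝ := fun p => ∑' i, t i * w i p with hx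
  set x' : ℕ → ℝ := fun p => ∑' i, t' i * w i p with hx'
  have haω : ∀ p, w i p ≤ ω p := fun p => (hsum p).le_tsum i fun j _ => hw j p
  have h1 : ∀ p, |x p| ≤ ω p := fun p => by
    have := tsum_bound hw hsum ht p
    rwa [one_mul] at this
  have h1' : ∀ p, |x' p| ≤ ω p := fun p => by
    have := tsum_bound hw hsum ht' p
    rwa [one_mul] at this
  have hsub : ∀ p, x p - x' p = ∑' i, (t i - t' i) * w i p := fun p => by
    rw [hx, hx']
    simp only
    rw [← (summ hw hsum ht p).tsum_sub (summ hw hsum ht' p)]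
    exact tsum_congr fun i => by ring
  have h2 : ∀ p, |x p - x' p| ≤ D * ω p := fun p => by
    rw [hsub p]
    exact tsum_bound hw hsum htt p
  have h3 : ∀ p, |(x p - t i * w i p) - (x' p - t' i * w i p)| ≤ D * (ω p - w i p) := fun p => by
    have e1 : (x p - t i * w i p) - (x' p - t' i * w i p) =
        ∑' j, (if j = i then 0 else (t j - t' j)) * w j p := by
      have e2 : (x p - t i * w i p) - (x' p - t' i * w i p) = (x p - x' p) - (t i - t' i) * w i p := by ring
      rw [e2, hsub p, (summ hw hsum htt p).tsum_eq_add_tsum_ite i, add_sub_cancel_left]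
      exact tsum_congr fun j => by split_ifs <;> ring
    have e3 : ω p - w i p = ∑' j, (if j = i then 0 else w j p) := by
      rw [hω]
      simp only
      rw [(hsum p).tsum_eq_add_tsum_ite i, add_sub_cancel_left]
    have hs : Summable (fun j => if j = i then 0 else w j p) := by
      refine Summable.of_nonneg_of_le (fun j => ?_) (fun j => ?_) (hsum p)
      · split_ifs
        · exact le_rfl
        · exact hw j p
      · split_ifs
        · exact hw j p
        · exact le_rfl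
    have hs2 : Summable (fun j => (if j = i then 0 else (t j - t' j)) * w j p) := by
      refine Summable.of_norm_bounded ((hsum p).mul_left D) fun j => ?_
      rw [Real.norm_eq_abs, abs_mul, abs_of_nonneg (hw j p)]
      refine mul_le_mul_of_nonneg_right ?_ (hw j p)
      split_ifs
      · simpa using hD
      · exact htt j
    rw [e1, e3, ← tsum_mul_left]
    refine (norm_tsum_le_tsum_norm hs2.norm).trans ?_
    refine hs2.norm.tsum_le_tsum (fun j => ?_) (hs.mul_left D)
    rw [Real.norm_eq_abs, abs_mul, abs_of_nonneg (hw j p)]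
    split_ifs
    · simp
    · exact mul_le_mul_of_nonneg_right (htt j) (hw j p)
  have key : ∀ n, |(cm (val b w t) n - t i * lin b (w i) n) - (cm (val b w t') n - t' i * lin b (w i) n)| ≤
      D / 2 * (cm (fun p => b p + 2 * ∑' i, w i p) n - cm b n - 2 * lin b (w i) n) := fun n =>
    (list_main (b := b) (a := w i) (ω := ω) (x := x) (x' := x') (t := t i) (t' := t' i) hb (hw i) haω hD h1 h1'
      h2 h3 n.primeFactorsList).2.2.2
  unfold cellSum
  rw [Finset.mul_sum, Finset.mul_sum, ← Finset.sum_sub_distrib, ← Finset.sum_sub_distrib,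
    ← Finset.sum_sub_distrib]
  refine (Finset.abs_sum_le_sum_abs _ _).trans ?_
  refine (Finset.sum_le_sum fun n _ => key n).trans ?_
  rw [← Finset.mul_sum, Finset.sum_sub_distrib, Finset.sum_sub_distrib, ← Finset.mul_sum]
  have c3 : 0 ≤ ∑ n ∈ cl i, cm b n := Finset.sum_nonneg fun n _ => cm_nonneg hb n
  calc D / 2 * (∑ n ∈ cl i, cm (fun p => b p + 2 * ∑' i, w i p) n -
        ∑ n ∈ cl i, cm b n - 2 * ∑ n ∈ cl i, lin b (w i) n) ≤ D / 2 * (G i / 4) :=
        mul_le_mul_of_nonneg_left (by linarith) (by linarith)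
    _ = D / 8 * G i := by ring

theorem cell_zero (hb : ∀ p, 0 ≤ b p) (hw : ∀ i p, 0 ≤ w i p) (hsum : ∀ p, Summable (fun i => w i p)) (i : ι)
    (hown : G i ≤ ∑ n ∈ cl i, lin b (w i) n)
    (hstar : ∑ n ∈ cl i, cm (fun p => b p + 2 * ∑' i, w i p) n ≤ 9 / 4 * G i) :
    |cellSum b w cl (fun _ => 0) i| ≤ G i / 4 := by
  have e0 : ∀ n, cm (val b w (fun _ => 0)) n = cm b n := fun n => by
    unfold cm val
    simp
  have hP : ∀ n, 0 ≤ cm b n := fun n => cm_nonneg hb n
  unfold cellSum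
  simp only [e0]
  rw [abs_of_nonneg (Finset.sum_nonneg fun n _ => hP n)]
  have h1 : ∀ n, cm b n + 2 * lin b (w i) n ≤ cm (fun p => b p + 2 * ∑' i, w i p) n := fun n =>
    list_low (b := b) (a := w i) (ω := fun p => ∑' i, w i p) hb (hw i)
      (fun p => (hsum p).le_tsum i fun j _ => hw j p) n.primeFactorsList
  have h2 := Finset.sum_le_sum (fun n (_ : n ∈ cl i) => h1 n)
  rw [Finset.sum_add_distrib, ← Finset.mul_sum] at h2
  linarith

end

/-- **Existence of the coefficients** (arbitrary discrete index set; conditions for the relevant indices). -/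
theorem exists_coeff [TopologicalSpace ι] [DiscreteTopology ι] (P : ι → Prop) (b : ℕ → ℝ) (w : ι → ℕ → ℝ)
    (cl : ι → Finset ℕ) (G τ : ι → ℝ)
    (hb : ∀ p, 0 ≤ b p) (hw : ∀ i p, 0 ≤ w i p) (hsum : ∀ p, Summable (fun i => w i p))
    (hG : ∀ i, P i → 0 < G i)
    (hown : ∀ i, P i → G i ≤ ∑ n ∈ cl i, lin b (w i) n)
    (hstar : ∀ i, P i → ∑ n ∈ cl i, cm (fun p => b p + 2 * ∑' i, w i p) n ≤ 9 / 4 * G i)
    (hτ : ∀ i, P i → |τ i| ≤ G i / 2) :
    ∃ t : ι → ℝ, (∀ i, |t i| ≤ 1) ∧ ∀ i, P i → cellSum b w cl t i = τ i := by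
  classical
  set L : ι → ℝ := fun i => ∑ n ∈ cl i, lin b (w i) n with hL
  have hL0 : ∀ i, P i → 0 < L i := fun i hi => (hG i hi).trans_le (hown i hi)
  -- the map
  set Φ : (ι → ℝ) → ι → ℝ := fun t i => if P i then (τ i - (cellSum b w cl t i - t i * L i)) / L i else 0
    with hΦ
  have hest : ∀ t : ι → ℝ, (∀ i, |t i| ≤ 1) → ∀ i, |Φ t i| ≤ 7 / 8 := by
    intro t ht i
    rw [hΦ]
    simp only
    split_ifs with hi
    · have h1 := cell_est (G := G) hb hw hsum i (hown i hi) (hstar i hi) (t := t) (t' := fun _ => 0)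
        zero_le_one ht (fun _ => by simp) (fun i => by simpa using ht i)
      have h2 := cell_zero (G := G) hb hw hsum i (hown i hi) (hstar i hi)
      simp only [zero_mul, sub_zero] at h1
      have h3 : |cellSum b w cl t i - t i * L i| ≤ G i / 8 + G i / 4 := by
        have := abs_sub_abs_le_abs_sub (cellSum b w cl t i - t i * L i) (cellSum b w cl (fun _ => 0) i)
        have e : (1 : ℝ) / 8 * G i = G i / 8 := by ring
        rw [e] at h1
        linarith
      rw [abs_div, abs_of_pos (hL0 i hi), div_le_iff₀ (hL0 i hi)]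
      have h4 : |τ i - (cellSum b w cl t i - t i * L i)| ≤ |τ i| + |cellSum b w cl t i - t i * L i| :=
        abs_sub _ _
      have h5 := hτ i hi
      have h6 : G i ≤ L i := hown i hi
      linarith
    · norm_num
  have hlip : ∀ t t' : ι → ℝ, (∀ i, |t i| ≤ 1) → (∀ i, |t' i| ≤ 1) → ∀ D : ℝ, 0 ≤ D →
      (∀ i, |t i - t' i| ≤ D) → ∀ i, |Φ t i - Φ t' i| ≤ D / 8 := by
    intro t t' ht ht' D hD htt i
    rw [hΦ]
    simp only
    split_ifs with hi
    · have h1 := cell_est (G := G) hb hw hsum i (hown i hi) (hstar i hi) hD ht ht' htt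
      rw [div_sub_div_same, abs_div, abs_of_pos (hL0 i hi), div_le_iff₀ (hL0 i hi)]
      have e : τ i - (cellSum b w cl t i - t i * L i) - (τ i - (cellSum b w cl t' i - t' i * L i)) =
          -((cellSum b w cl t i - t i * L i) - (cellSum b w cl t' i - t' i * L i)) := by ring
      rw [e, abs_neg]
      refine h1.trans ?_
      exact mul_le_mul_of_nonneg_left (hown i hi) (by linarith)
    · simp
      linarith
  -- the contraction of the space of bounded functions
  have hbd : ∀ t : ι →ᵇ ℝ, ∀ i, ‖Φ (fun j => clip (t j)) i‖ ≤ 7 / 8 := fun t i => by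
    rw [Real.norm_eq_abs]
    exact hest _ (fun j => clip_abs _) i
  set Ψ : (ι →ᵇ ℝ) → (ι →ᵇ ℝ) := fun t =>
    BoundedContinuousFunction.ofNormedAddCommGroupDiscrete (Φ (fun j => clip (t j))) (7 / 8) (hbd t) with hΨ
  have hcon : ContractingWith (1 / 8) Ψ := by
    refine ⟨by norm_num, LipschitzWith.of_dist_le_mul fun t t' => ?_⟩
    rw [BoundedContinuousFunction.dist_le (by positivity)]
    intro i
    have h1 := hlip (fun j => clip (t j)) (fun j => clip (t' j)) (fun j => clip_abs _) (fun j => clip_abs _)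
      (dist t t') dist_nonneg (fun j => (clip_lip _ _).trans (by
        have := BoundedContinuousFunction.dist_coe_le_dist (f := t) (g := t') j
        rwa [Real.dist_eq] at this)) i
    rw [Real.dist_eq]
    have e : ((1 / 8 : NNReal) : ℝ) * dist t t' = dist t t' / 8 := by
      push_cast; ring
    rw [e]
    exact h1
  set T := ContractingWith.fixedPoint Ψ hcon with hT
  have hfix : Ψ T = T := hcon.fixedPoint_isFixedPt
  have hTi : ∀ i, Φ (fun j => clip (T j)) i = T i := fun i => by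
    have := congrArg (fun g : ι →ᵇ ℝ => g i) hfix
    exact this
  have hT1 : ∀ i, |T i| ≤ 1 := fun i => by
    rw [← hTi i]
    exact (hest _ (fun j => clip_abs _) i).trans (by norm_num)
  have hclip : (fun j => clip (T j)) = fun j => T j := funext fun j => clip_of (hT1 j)
  refine ⟨fun j => T j, hT1, fun i hi => ?_⟩
  have h1 := hTi i
  rw [hclip] at h1
  rw [hΦ] at h1
  simp only [if_pos hi] at h1
  rw [div_eq_iff (hL0 i hi).ne'] at h1
  linarith

end Pool.Agent.M17.Helper79.KS.Gen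
end

/- Helper53.KN.Helper79.KS.FP -/
section
/-! Module FP of project KS: the fixed point. -/

set_option autoImplicit false
open scoped Classical
open Filter Topology

namespace Pool.Agent.M17.Helper79.KS.FPM

open Pool.Agent.M17.Helper16.KS
open Pool.Agent.M17.Helper16.KS.Sys

variable (S : Sys)

theorem CM_eq (g : ℕ → ℝ) (n : ℕ) : CM g n = cm g n := rfl

/-! ### geometry of the cells -/

theorem ec_le (k : ℕ) : ec S.d k ≤ k := by
  unfold ec
  have h0 : (k : ℝ) * (1/2 - S.d) ≤ k := by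
    have := S.d_pos
    have hk : (0 : ℝ) ≤ k := Nat.cast_nonneg k
    nlinarith
  calc ⌊(k : ℝ) * (1/2 - S.d)⌋₊ ≤ ⌊(k : ℝ)⌋₊ := Nat.floor_le_floor h0
    _ = k := Nat.floor_natCast k

theorem nc_mul (k : ℕ) : nc S.d k * 2 ^ ec S.d k = 2 ^ k := by
  unfold nc
  rw [← pow_add, Nat.sub_add_cancel (ec_le S k)]

theorem cell_ge {k j n : ℕ} (hn : n ∈ cell S.d k j) : 2 ^ k ≤ n := by
  unfold cell at hn
  rw [Finset.mem_Ico] at hn
  exact le_trans (Nat.le_add_right _ _) hn.1

theorem cell_lt {k j n : ℕ} (hj : j < nc S.d k) (hn : n ∈ cell S.d k j) : n < 2 ^ (k + 1) := by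
  unfold cell at hn
  rw [Finset.mem_Ico] at hn
  have h1 : (j + 1) * 2 ^ ec S.d k ≤ 2 ^ k := by
    rw [← nc_mul S k]
    exact Nat.mul_le_mul_right _ hj
  have h2 : 2 ^ (k + 1) = 2 ^ k + 2 ^ k := by ring
  omega

theorem cell_log {k j n : ℕ} (hj : j < nc S.d k) (hn : n ∈ cell S.d k j) : Nat.log 2 n = k :=
  Nat.log_eq_of_pow_le_of_lt_pow (cell_ge S hn) (cell_lt S hj hn)

theorem cell_idx {k j n : ℕ} (hj : j < nc S.d k) (hn : n ∈ cell S.d k j) : S.idx n = j := by
  unfold idx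
  rw [cell_log S hj hn]
  unfold cell at hn
  rw [Finset.mem_Ico] at hn
  have hp : 0 < 2 ^ ec S.d k := by positivity
  apply Nat.div_eq_of_lt_le
  · omega
  · have : (j + 1) * 2 ^ ec S.d k = j * 2 ^ ec S.d k + 2 ^ ec S.d k := by ring
    omega

theorem cell_cix {k0 k j n : ℕ} (hk : k0 ≤ k) (hj : j < nc S.d k) (hn : n ∈ cell S.d k j) :
    S.cix k0 n = (k, j) := by
  unfold cix
  have h1 : 2 ^ k0 ≤ 2 ^ k := Nat.pow_le_pow_right (by norm_num) hk
  have h2 := cell_ge S hn
  rw [if_neg (by omega), cell_log S hj hn, cell_idx S hj hn]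

/-! ### the weights -/

/-- control part of the weight of the cell `i` -/
noncomputable def wc (k0 : ℕ) (R : Set ℕ) (i : ℕ × ℕ) (p : ℕ) : ℝ :=
  if k0 ≤ i.1 ∧ i.1 < top p ∧ i.2 ∈ S.badc i.1 then S.cw R i.1 i.2 p else 0

/-- ordinary part of the weight of the cell `i` -/
noncomputable def wd' (k0 : ℕ) (i : ℕ × ℕ) (p : ℕ) : ℝ := if i = S.cix k0 p then S.ordw k0 p else 0

/-- weight of the cell `i` at the prime `p` -/
noncomputable def wt (k0 : ℕ) (R : Set ℕ) (i : ℕ × ℕ) (p : ℕ) : ℝ := wd' S k0 i p + wc S k0 R i p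

/-- finite set containing the support -/
noncomputable def sup (k0 : ℕ) (p : ℕ) : Finset (ℕ × ℕ) :=
  insert (S.cix k0 p) ((Finset.Ico k0 (top p)) ×ˢ (Finset.range (2 ^ top p)))

theorem badc_lt {k j : ℕ} (h : j ∈ S.badc k) : j < nc S.d k := by
  unfold badc at h
  rw [Finset.mem_filter, Finset.mem_range] at h
  exact h.1

theorem badc_bad {k j : ℕ} (h : j ∈ S.badc k) : S.bad k j := by
  unfold badc at h
  rw [Finset.mem_filter] at h
  exact h.2

theorem badc_sub {k T : ℕ} (hk : k < T) : S.badc k ⊆ Finset.range (2 ^ T) := by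
  intro j hj
  have h1 := badc_lt S hj
  rw [Finset.mem_range]
  have h2 : nc S.d k ≤ 2 ^ T := by
    unfold nc
    exact Nat.pow_le_pow_right (by norm_num) (by omega)
  omega

theorem wt_support (k0 : ℕ) (R : Set ℕ) (p : ℕ) (i : ℕ × ℕ) (hi : i ∉ sup S k0 p) : wt S k0 R i p = 0 := by
  unfold sup at hi
  rw [Finset.mem_insert, not_or, Finset.mem_product] at hi
  unfold wt wd' wc
  rw [if_neg hi.1, zero_add, if_neg]
  rintro ⟨h1, h2, h3⟩
  exact hi.2 ⟨Finset.mem_Ico.2 ⟨h1, h2⟩, badc_sub S h2 h3⟩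

theorem tsum_wt (k0 : ℕ) (R : Set ℕ) (t : ℕ × ℕ → ℝ) (p : ℕ) :
    ∑' i, t i * wt S k0 R i p = t (S.cix k0 p) * S.ordw k0 p +
      ∑ k ∈ Finset.Ico k0 (top p), ∑ j ∈ S.badc k, t (k, j) * S.cw R k j p := by
  have hA : ∑' i, t i * wd' S k0 i p = t (S.cix k0 p) * S.ordw k0 p := by
    rw [tsum_eq_single (S.cix k0 p)]
    · unfold wd'
      rw [if_pos rfl]
    · intro i hi
      unfold wd'
      rw [if_neg hi, mul_zero]
  have hs1 : Summable (fun i => t i * wd' S k0 i p) :=
    summable_of_ne_finset_zero (s := {S.cix k0 p}) (fun i hi => by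
      unfold wd'
      rw [if_neg (by simpa using hi), mul_zero])
  have hz : ∀ i ∉ (Finset.Ico k0 (top p)) ×ˢ (Finset.range (2 ^ top p)), t i * wc S k0 R i p = 0 := by
    intro i hi
    rw [Finset.mem_product] at hi
    unfold wc
    rw [if_neg, mul_zero]
    rintro ⟨h1, h2, h3⟩
    exact hi ⟨Finset.mem_Ico.2 ⟨h1, h2⟩, badc_sub S h2 h3⟩
  have hs2 : Summable (fun i => t i * wc S k0 R i p) := summable_of_ne_finset_zero hz
  have hB : ∑' i, t i * wc S k0 R i p =
      ∑ k ∈ Finset.Ico k0 (top p), ∑ j ∈ S.badc k, t (k, j) * S.cw R k j p := by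
    rw [tsum_eq_sum hz, Finset.sum_product]
    refine Finset.sum_congr rfl fun k hk => ?_
    rw [Finset.mem_Ico] at hk
    rw [← Finset.sum_subset (badc_sub S hk.2)]
    · refine Finset.sum_congr rfl fun j hj => ?_
      unfold wc
      rw [if_pos ⟨hk.1, hk.2, hj⟩]
    · intro j _ hj
      unfold wc
      rw [if_neg (fun h => hj h.2.2), mul_zero]
  rw [← hA, ← hB, ← hs1.tsum_add hs2]
  refine tsum_congr fun i => ?_
  unfold wt
  ring

theorem summ_wt (k0 : ℕ) (R : Set ℕ) (p : ℕ) : Summable (fun i => wt S k0 R i p) :=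
  summable_of_ne_finset_zero (wt_support S k0 R p)

theorem val_eq (k0 : ℕ) (R : Set ℕ) (t : ℕ × ℕ → ℝ) : Gen.val (S.bR R) (wt S k0 R) t = S.fp k0 R t := by
  funext p
  unfold Gen.val fp
  rw [tsum_wt]
  ring

theorem W_eq (k0 : ℕ) (R : Set ℕ) (n : ℕ) :
    cm (fun p => S.bR R p + 2 * ∑' i, wt S k0 R i p) n = S.W k0 R n := by
  unfold W
  rw [CM_eq]
  congr 1
  funext p
  have h := tsum_wt S k0 R (fun _ => 1) p
  simp only [one_mul] at h
  rw [h]
  unfold Wp ctl
  ring

/-! ### positivity -/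

theorem base_nonneg (m : ℕ) : 0 ≤ S.base m := Real.rpow_nonneg (Nat.cast_nonneg m) _

theorem base_pos {m : ℕ} (hm : m ≠ 0) : 0 < S.base m :=
  Real.rpow_pos_of_pos (Nat.cast_pos.2 (Nat.pos_of_ne_zero hm)) _

theorem pr_pos {m : ℕ} (hm : m ≠ 0) : 0 < S.pr m :=
  Real.rpow_pos_of_pos (Nat.cast_pos.2 (Nat.pos_of_ne_zero hm)) _

theorem pr_nonneg (m : ℕ) : 0 ≤ S.pr m := Real.rpow_nonneg (Nat.cast_nonneg m) _

theorem bR_nonneg (R : Set ℕ) (p : ℕ) : 0 ≤ S.bR R p := by
  unfold bR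
  split_ifs
  · exact base_nonneg S p
  · exact le_rfl

theorem G_pos {k : ℕ} (hk : 1 ≤ k) : 0 < S.G k := by
  unfold G
  have : (0 : ℝ) < k := by exact_mod_cast hk
  have h2 : (0 : ℝ) < (2 : ℝ) ^ ((S.s - 1) * (k : ℝ)) := Real.rpow_pos_of_pos (by norm_num) _
  (clear * - hk; positivity)

theorem G_nonneg (k : ℕ) : 0 ≤ S.G k := by
  unfold G
  have h2 : (0 : ℝ) ≤ (2 : ℝ) ^ ((S.s - 1) * (k : ℝ)) := Real.rpow_nonneg (by norm_num) _
  (clear * -; positivity)

theorem phi0_nonneg (k0 : ℕ) : 0 ≤ S.phi0 k0 := by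
  unfold phi0
  have h2 : (0 : ℝ) ≤ (2 : ℝ) ^ ((S.s - 1) * (k0 : ℝ)) := Real.rpow_nonneg (by norm_num) _
  (clear * -; positivity)

theorem ordw_nonneg (k0 p : ℕ) : 0 ≤ S.ordw k0 p := by
  unfold ordw
  split_ifs
  · exact le_rfl
  · exact phi0_nonneg S k0
  · exact le_rfl
  · exact div_nonneg (G_nonneg S _) (Nat.cast_nonneg _)

theorem NN_nonneg (R : Set ℕ) (k j : ℕ) : 0 ≤ S.NN R k j := by
  unfold NN
  exact Finset.sum_nonneg fun x _ => div_nonneg zero_le_one (pr_nonneg S _)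

theorem wo_nonneg (R : Set ℕ) (k j m : ℕ) : 0 ≤ S.wo R k j m := by
  unfold wo
  exact div_nonneg (G_nonneg S k) (mul_nonneg (mul_nonneg (NN_nonneg S R k j) (pr_nonneg S m)) (base_nonneg S m))

theorem cw_nonneg (R : Set ℕ) (k j q : ℕ) : 0 ≤ S.cw R k j q := by
  unfold cw
  exact Finset.sum_nonneg fun x _ => wo_nonneg S R k j _

theorem wd'_nonneg (k0 : ℕ) (i : ℕ × ℕ) (p : ℕ) : 0 ≤ wd' S k0 i p := by
  unfold wd'
  split_ifs
  · exact ordw_nonneg S k0 p
  · exact le_rfl

theorem wc_nonneg (k0 : ℕ) (R : Set ℕ) (i : ℕ × ℕ) (p : ℕ) : 0 ≤ wc S k0 R i p := by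
  unfold wc
  split_ifs
  · exact cw_nonneg S R _ _ p
  · exact le_rfl

theorem wt_nonneg (k0 : ℕ) (R : Set ℕ) (i : ℕ × ℕ) (p : ℕ) : 0 ≤ wt S k0 R i p :=
  add_nonneg (wd'_nonneg S k0 i p) (wc_nonneg S k0 R i p)

/-! ### the base weight of a product of elements of `R` -/

theorem cm_bR {R : Set ℕ} {m : ℕ} (hm : m ≠ 0) (hR : inR R m) : cm (S.bR R) m = S.base m := by
  have h1 : m.primeFactorsList.map (S.bR R) =
      m.primeFactorsList.map (fun p : ℕ => ((p : ℕ) : ℝ) ^ (-(1/2 + S.del))) := by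
    apply List.map_congr_left
    intro p hp
    have h2 := Nat.prime_of_mem_primeFactorsList hp
    have h3 := Nat.dvd_of_mem_primeFactorsList hp
    unfold bR
    rw [if_pos (hR p h2 h3)]
    rfl
  unfold cm
  rw [h1]
  have h2 := Real.list_prod_map_rpow' (m.primeFactorsList) (fun p : ℕ => (p : ℝ))
    (fun i _ => Nat.cast_nonneg i) (-(1/2 + S.del))
  rw [h2]
  unfold base
  congr 1
  have h3 := Nat.prod_primeFactorsList hm
  have h4 : ((m.primeFactorsList.prod : ℕ) : ℝ) = (m.primeFactorsList.map (fun p : ℕ => (p : ℝ))).prod := by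
    rw [Nat.cast_list_prod]
  rw [← h4, h3]

/-! ### the own parts -/

theorem own_init (k0 : ℕ) (hk0 : 3 ≤ k0) (R : Set ℕ) :
    S.G0 k0 ≤ ∑ n ∈ Finset.Ico 1 (2 ^ k0), lin (S.bR R) (wt S k0 R (0, 0)) n := by
  have h1 : (Finset.Ico (2 ^ (k0 - 1)) (2 ^ k0)).filter Nat.Prime ⊆ Finset.Ico 1 (2 ^ k0) := by
    intro n hn
    rw [Finset.mem_filter, Finset.mem_Ico] at hn
    rw [Finset.mem_Ico]
    exact ⟨hn.2.one_lt.le, hn.1.2⟩
  refine le_trans ?_ (Finset.sum_le_sum_of_subset_of_nonneg h1 fun n _ _ =>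
    lin_nonneg (bR_nonneg S R) (wt_nonneg S k0 R _) n)
  have h2 : ∀ n ∈ (Finset.Ico (2 ^ (k0 - 1)) (2 ^ k0)).filter Nat.Prime,
      S.phi0 k0 ≤ lin (S.bR R) (wt S k0 R (0, 0)) n := by
    intro n hn
    rw [Finset.mem_filter, Finset.mem_Ico] at hn
    rw [lin_prime _ _ hn.2]
    unfold wt
    have h3 : wd' S k0 (0, 0) n = S.phi0 k0 := by
      unfold wd' cix ordw
      rw [if_pos hn.1.2, if_pos rfl, if_neg (by omega), if_pos hn.1.2]
    rw [h3]
    have := wc_nonneg S k0 R (0, 0) n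
    (clear * - this; linarith)
  refine le_trans (le_of_eq ?_) (Finset.card_nsmul_le_sum _ _ _ h2)
  unfold G0
  rw [nsmul_eq_mul]
  ring

theorem G0_pos (k0 : ℕ) (hk0 : 3 ≤ k0) : 0 < S.G0 k0 := by
  unfold G0
  apply mul_pos
  · unfold phi0
    have h2 : (0 : ℝ) < (2 : ℝ) ^ ((S.s - 1) * (k0 : ℝ)) := Real.rpow_pos_of_pos (by norm_num) _
    have : (0 : ℝ) < k0 := by
      have : 0 < k0 := by omega
      exact_mod_cast this
    (clear * - hk0; positivity)
  · rw [Nat.cast_pos, Finset.card_pos]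
    obtain ⟨p, hp, h1, h2⟩ := Nat.exists_prime_lt_and_le_two_mul (2 ^ (k0 - 1)) (by positivity)
    have h3 : 2 * 2 ^ (k0 - 1) = 2 ^ k0 := by
      rw [← pow_succ', Nat.sub_add_cancel (by omega)]
    refine ⟨p, Finset.mem_filter.2 ⟨Finset.mem_Ico.2 ⟨h1.le, ?_⟩, hp⟩⟩
    rw [h3] at h2
    refine lt_of_le_of_ne h2 fun h => ?_
    rw [h] at hp
    exact Nat.Prime.not_prime_pow (by omega) hp

theorem own_good (k0 : ℕ) (hk0 : 3 ≤ k0) (hK : S.K ≤ k0) (R : Set ℕ) {k j : ℕ} (hk : k0 ≤ k)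
    (hj : j < nc S.d k) (hb : ¬ S.bad k j) :
    S.G k ≤ ∑ n ∈ cell S.d k j, lin (S.bR R) (wt S k0 R (k, j)) n := by
  have hk1 : 0 < k := by omega
  have hn0 : (0 : ℝ) < npr S.d k j := by
    have h1 := S.good k (hK.trans hk) j hj hb
    refine lt_of_lt_of_le ?_ h1
    have := S.c1_pos
    have : (0 : ℝ) < k := by exact_mod_cast hk1
    positivity
  have h1 : (cell S.d k j).filter Nat.Prime ⊆ cell S.d k j := Finset.filter_subset _ _
  refine le_trans ?_ (Finset.sum_le_sum_of_subset_of_nonneg h1 fun n _ _ =>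
    lin_nonneg (bR_nonneg S R) (wt_nonneg S k0 R _) n)
  have h2 : ∀ n ∈ (cell S.d k j).filter Nat.Prime,
      S.G k / npr S.d k j ≤ lin (S.bR R) (wt S k0 R (k, j)) n := by
    intro n hn
    rw [Finset.mem_filter] at hn
    rw [lin_prime _ _ hn.2]
    unfold wt
    have h3 : wd' S k0 (k, j) n = S.G k / npr S.d k j := by
      unfold wd'
      rw [cell_cix S hk hj hn.1, if_pos rfl]
      unfold ordw
      have h4 := cell_ge S hn.1
      have h5 : 2 ^ k0 ≤ 2 ^ k := Nat.pow_le_pow_right (by norm_num) hk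
      have h6 : 2 ^ (k0 - 1) ≤ 2 ^ k0 := Nat.pow_le_pow_right (by norm_num) (by omega)
      rw [if_neg (by omega), if_neg (by omega), cell_log S hj hn.1, cell_idx S hj hn.1, if_neg hb]
    rw [h3]
    have := wc_nonneg S k0 R (k, j) n
    (clear * - this; linarith)
  refine le_trans (le_of_eq ?_) (Finset.card_nsmul_le_sum _ _ _ h2)
  rw [nsmul_eq_mul]
  have : (((cell S.d k j).filter Nat.Prime).card : ℝ) = npr S.d k j := rfl
  rw [this, mul_div_cancel₀ _ hn0.ne']

theorem lt_top {k q : ℕ} (h : (2 : ℝ) ^ ((k : ℝ) / 3) ≤ q) : k < top q := by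
  unfold top
  have h1 : q < 2 ^ (Nat.log 2 q + 1) := Nat.lt_pow_succ_log_self (by norm_num) q
  have h2 : (q : ℝ) < (2 : ℝ) ^ ((Nat.log 2 q + 1 : ℕ) : ℝ) := by
    rw [Real.rpow_natCast]
    exact_mod_cast h1
  have h3 := (Real.rpow_lt_rpow_left_iff (by norm_num : (1 : ℝ) < 2)).1 (h.trans_lt h2)
  have h4 : (k : ℝ) < 3 * ((Nat.log 2 q + 1 : ℕ) : ℝ) := by linarith
  exact_mod_cast h4

theorem own_bad (k0 : ℕ) (hk0 : 3 ≤ k0) (hK : S.K ≤ k0) (R : Set ℕ) {k j : ℕ} (hk : k0 ≤ k)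
    (hj : j ∈ S.badc k) (hNN : 0 < S.NN R k j) :
    S.G k ≤ ∑ n ∈ cell S.d k j, lin (S.bR R) (wt S k0 R (k, j)) n := by
  have hjn := badc_lt S hj
  have hbad := badc_bad S hj
  have hcand : ∀ x ∈ S.act R k j, x.1.Prime ∧ (2 : ℝ) ^ ((k : ℝ) / 3) ≤ x.1 ∧ 1 < x.2 ∧
      x.1 * x.2 ∈ cell S.d k j ∧ inR R x.2 := by
    intro x hx
    unfold act at hx
    rw [Finset.mem_filter] at hx
    have h := S.cand k (hK.trans hk) j hjn hbad x hx.1
    exact ⟨h.1, h.2.1, h.2.2.2.1, h.2.2.2.2.1, hx.2⟩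
  have hinj : Set.InjOn (fun x : ℕ × ℕ => x.1 * x.2) (S.act R k j : Set (ℕ × ℕ)) := by
    intro x hx y hy hxy
    have hx' := Finset.mem_coe.1 hx
    have hy' := Finset.mem_coe.1 hy
    unfold act at hx' hy'
    rw [Finset.mem_filter] at hx' hy'
    exact S.inj k (hK.trans hk) j hjn hbad x hx'.1 y hy'.1 hxy
  have h1 : (S.act R k j).image (fun x : ℕ × ℕ => x.1 * x.2) ⊆ cell S.d k j := by
    intro n hn
    rw [Finset.mem_image] at hn
    obtain ⟨x, hx, rfl⟩ := hn
    exact (hcand x hx).2.2.2.1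
  refine le_trans ?_ (Finset.sum_le_sum_of_subset_of_nonneg h1 fun n _ _ =>
    lin_nonneg (bR_nonneg S R) (wt_nonneg S k0 R _) n)
  rw [Finset.sum_image hinj]
  have h2 : ∀ x ∈ S.act R k j, S.G k / S.NN R k j * (1 / S.pr x.2) ≤
      lin (S.bR R) (wt S k0 R (k, j)) (x.1 * x.2) := by
    intro x hx
    obtain ⟨g1, g2, g3, g4, g5⟩ := hcand x hx
    have hm : x.2 ≠ 0 := by omega
    refine le_trans ?_ (lin_ge (bR_nonneg S R) (wt_nonneg S k0 R (k, j)) g1 hm)
    rw [cm_bR S hm g5]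
    have h3 : S.wo R k j x.2 ≤ wt S k0 R (k, j) x.1 := by
      unfold wt
      have h4 := wd'_nonneg S k0 (k, j) x.1
      have h5 : wc S k0 R (k, j) x.1 = S.cw R k j x.1 := by
        unfold wc
        rw [if_pos ⟨hk, lt_top g2, hj⟩]
      have h6 : S.wo R k j x.2 ≤ S.cw R k j x.1 := by
        unfold cw
        exact Finset.single_le_sum (f := fun x : ℕ × ℕ => S.wo R k j x.2) (fun y _ => wo_nonneg S R k j _)
          (Finset.mem_filter.2 ⟨hx, rfl⟩)
      rw [h5]
      (clear * - h4 h6; linarith)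
    refine le_trans (le_of_eq ?_) (mul_le_mul_of_nonneg_right h3 (base_nonneg S _))
    unfold wo
    have e1 := (base_pos S hm).ne'
    have e2 := (pr_pos S hm).ne'
    have e3 := hNN.ne'
    field_simp
  refine le_trans (le_of_eq ?_) (Finset.sum_le_sum h2)
  rw [← Finset.mul_sum]
  have : ∑ x ∈ S.act R k j, 1 / S.pr x.2 = S.NN R k j := rfl
  rw [this, div_mul_cancel₀ _ hNN.ne']

/-- **Module FP.** -/
theorem fp : FP := by
  intro S k0 hk0 hK R hR hNN hstar
  set P : ℕ × ℕ → Prop := fun i => i = (0, 0) ∨ (k0 ≤ i.1 ∧ i.2 < nc S.d i.1) with hP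
  set cl : ℕ × ℕ → Finset ℕ := fun i => if i = (0, 0) then Finset.Ico 1 (2 ^ k0) else cell S.d i.1 i.2
    with hcl
  set G : ℕ × ℕ → ℝ := fun i => if i = (0, 0) then S.G0 k0 else S.G i.1 with hGdef
  have hne : ∀ k j : ℕ, k0 ≤ k → ((k, j) : ℕ × ℕ) ≠ (0, 0) := by
    intro k j hk h
    rw [Prod.mk.injEq] at h
    omega
  have hG : ∀ i, P i → 0 < G i := by
    intro i hi
    rw [hGdef]
    simp only
    split_ifs with h
    · exact G0_pos S k0 hk0
    · rcases hi with hi | hi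
      · exact absurd hi h
      · exact G_pos S (by omega)
  have hown : ∀ i, P i → G i ≤ ∑ n ∈ cl i, lin (S.bR R) (wt S k0 R i) n := by
    intro i hi
    rw [hGdef, hcl]
    simp only
    split_ifs with h
    · rw [h]
      exact own_init S k0 hk0 R
    · rcases hi with hi | hi
      · exact absurd hi h
      · obtain ⟨k, j⟩ := i
        by_cases hb : S.bad k j
        · have hj : j ∈ S.badc k := by
            unfold badc
            exact Finset.mem_filter.2 ⟨Finset.mem_range.2 hi.2, hb⟩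
          exact own_bad S k0 hk0 hK R hi.1 hj (hNN k hi.1 j hj)
        · exact own_good S k0 hk0 hK R hi.1 hi.2 hb
  have hst : ∀ i, P i → ∑ n ∈ cl i, cm (fun p => S.bR R p + 2 * ∑' i, wt S k0 R i p) n ≤ 9 / 4 * G i := by
    intro i hi
    have e : (9 : ℝ) / 4 = 2 + 1 / 4 := by norm_num
    rw [hGdef, hcl, e]
    simp only [W_eq]
    split_ifs with h
    · exact hstar.1
    · rcases hi with hi | hi
      · exact absurd hi h
      · exact hstar.2 i.1 hi.1 i.2 hi.2
  obtain ⟨t, ht, h0⟩ := Gen.exists_coeff P (S.bR R) (wt S k0 R) cl G (fun _ => 0) (bR_nonneg S R)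
    (wt_nonneg S k0 R) (summ_wt S k0 R) hG hown hst (fun i hi => by
      have := hG i hi
      simp only [abs_zero]
      (clear * - this; linarith))
  refine ⟨t, ht, ?_, ?_⟩
  · have h := h0 (0, 0) (Or.inl rfl)
    unfold Gen.cellSum at h
    rw [val_eq, hcl] at h
    simp only [if_true] at h
    exact h
  · intro k hk j hj
    have h := h0 (k, j) (Or.inr ⟨hk, hj⟩)
    unfold Gen.cellSum at h
    rw [val_eq, hcl] at h
    simp only [if_neg (hne k j hk)] at h
    exact h

end Pool.Agent.M17.Helper79.KS.FPM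
end
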