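import Mathlib
import Pool.Agent.Helper53.KM.G01
import Pool.Agent.Helper53.KM.G05
import Pool.Agent.Helper53.KM.G07
import Pool.Agent.Helper53.KM.G19
import Pool.Agent.Helper53.KM.G26

/- Helper53.KN.Helper18.KL.Pairs -/
section
/-! Project KS: pairs `(n, n')`, `n' ∣ n`, in two cells. -/

set_option autoImplicit false
open scoped Classical
open Finset

namespace Pool.Agent.M17.Helper18.KL

open Pool.Agent.M17.Helper16.KS

/-- pairs in two cells with large quotient -/
noncomputable def PP (d : ℝ) (k j k' j' : ℕ) (L : ℝ) : Finset (ℕ × ℕ) :=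
  (cell d k j ×ˢ cell d k' j').filter (fun y => y.2 ∣ y.1 ∧ L ≤ ((y.1 / y.2 : ℕ) : ℝ))

theorem mem_PP {d : ℝ} {k j k' j' : ℕ} {L : ℝ} {y : ℕ × ℕ} :
    y ∈ PP d k j k' j' L ↔ y.1 ∈ cell d k j ∧ y.2 ∈ cell d k' j' ∧ y.2 ∣ y.1 ∧ L ≤ ((y.1 / y.2 : ℕ) : ℝ) := by
  unfold PP
  rw [Finset.mem_filter, Finset.mem_product]
  tauto

theorem card_cell (d : ℝ) (k j : ℕ) : (cell d k j).card = 2 ^ ec d k := by
  rw [Pool.Agent.M17.Helper88.KS.cell_eq, Nat.card_Ico, Nat.add_sub_cancel_left]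

/-- candidates first -/
theorem pairs_ii {d : ℝ} {k j k' j' : ℕ} (L : ℝ) :
    ((PP d k j k' j' L).card : ℝ) ≤ (2 : ℝ) ^ ec d k' * ((2 : ℝ) ^ ec d k / 2 ^ k' + 1) := by
  set M : ℕ := ⌊(2 : ℝ) ^ ec d k / 2 ^ k' + 1⌋₊ with hM
  have hMr : (M : ℝ) ≤ (2 : ℝ) ^ ec d k / 2 ^ k' + 1 := Nat.floor_le (by (clear * -; positivity))
  have h1 : (PP d k j k' j' L).card ≤ M * (cell d k' j').card := by
    refine Finset.card_le_mul_card_image_of_maps_to (f := fun y : ℕ × ℕ => y.2) ?_ M ?_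
    · intro y hy
      exact (mem_PP.1 hy).2.1
    · intro n' hn'
      have hn'1 : 2 ^ k' ≤ n' := cell_ge hn'
      have hn'0 : 0 < n' := by
        have : 0 < 2 ^ k' := by positivity
        omega
      have h2 : ((PP d k j k' j' L).filter (fun y : ℕ × ℕ => y.2 = n')).card ≤
          ((cell d k j).filter (fun n => n' ∣ n)).card := by
        refine Finset.card_le_card_of_injOn (fun y => y.1) ?_ ?_
        · intro y hy
          rw [Finset.mem_coe, Finset.mem_filter] at hy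
          have := mem_PP.1 hy.1
          rw [Finset.mem_coe, Finset.mem_filter]
          refine ⟨this.1, ?_⟩
          rw [← hy.2]; exact this.2.2.1
        · intro y hy y' hy' hyy
          rw [Finset.mem_coe, Finset.mem_filter] at hy hy'
          exact Prod.ext hyy (hy.2.trans hy'.2.symm)
      refine h2.trans (Nat.le_floor ?_)
      rw [Pool.Agent.M17.Helper88.KS.cell_eq]
      refine (Pool.Agent.M17.Helper88.KS.card_mult_le _ _ _ hn'0).trans ?_
      push_cast
      have h3 : ((2 : ℝ) ^ ec d k) / n' ≤ (2 : ℝ) ^ ec d k / 2 ^ k' := by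
        refine div_le_div_of_nonneg_left (by positivity) (by positivity) ?_
        exact_mod_cast hn'1
      (clear * - h3; linarith)
  rw [card_cell] at h1
  calc ((PP d k j k' j' L).card : ℝ) ≤ (M : ℝ) * ((2 ^ ec d k' : ℕ) : ℝ) := by exact_mod_cast h1
    _ ≤ ((2 : ℝ) ^ ec d k / 2 ^ k' + 1) * ((2 ^ ec d k' : ℕ) : ℝ) :=
      mul_le_mul_of_nonneg_right hMr (Nat.cast_nonneg _)
    _ = _ := by push_cast; ring

/-- cofactors first -/
theorem pairs_i {d : ℝ} (hd : 0 < d) {k j k' j' : ℕ} (hj : j < nc d k) (hj' : j' < nc d k') (L : ℝ) :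
    ((PP d k j k' j' L).card : ℝ) ≤
      ((2 : ℝ) ^ ec d k / 2 ^ k' + 2 ^ (k + 1) * 2 ^ ec d k' / (2 ^ k') ^ 2 + 1) *
        ((2 : ℝ) ^ ec d k * 2 ^ (k' + 1) / 2 ^ k + 1) := by
  set E : ℝ := (2 : ℝ) ^ ec d k with hE
  set E' : ℝ := (2 : ℝ) ^ ec d k' with hE'
  have hE0 : 0 < E := by positivity
  have hE'0 : 0 < E' := by positivity
  set M : ℕ := ⌊E * 2 ^ (k' + 1) / 2 ^ k + 1⌋₊ with hM
  have hMr : (M : ℝ) ≤ E * 2 ^ (k' + 1) / 2 ^ k + 1 := Nat.floor_le (by positivity)
  set x0 : ℕ := 2 ^ k + j * 2 ^ ec d k with hx0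
  set x0' : ℕ := 2 ^ k' + j' * 2 ^ ec d k' with hx0'
  have hx0k : 2 ^ k ≤ x0 := Nat.le_add_right _ _
  have hx0'k : 2 ^ k' ≤ x0' := Nat.le_add_right _ _
  have hx0lt : x0 ≤ 2 ^ (k + 1) := by
    have hmem : x0 ∈ cell d k j := by
      rw [Pool.Agent.M17.Helper88.KS.cell_eq, Finset.mem_Ico]
      have : 0 < 2 ^ ec d k := by positivity
      omega
    exact (cell_lt hd hj hmem).le
  set α : ℝ := (x0 : ℝ) / (x0' + E') with hα
  set β : ℝ := ((x0 : ℝ) + E) / x0' with hβ
  have hx0'r : (2 : ℝ) ^ k' ≤ x0' := by exact_mod_cast hx0'k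
  have hx0'p : (0 : ℝ) < x0' := lt_of_lt_of_le (by positivity) hx0'r
  have hx0r : (x0 : ℝ) ≤ 2 ^ (k + 1) := by exact_mod_cast hx0lt
  have hx0n : (0 : ℝ) ≤ x0 := Nat.cast_nonneg _
  -- the cofactors
  have hmemP : ∀ y ∈ PP d k j k' j' L, 0 < y.2 ∧ y.1 = y.2 * (y.1 / y.2) ∧
      α ≤ ((y.1 / y.2 : ℕ) : ℝ) ∧ ((y.1 / y.2 : ℕ) : ℝ) ≤ β ∧ 2 ^ k ≤ y.1 ∧ y.2 < 2 ^ (k' + 1) := by
    intro y hy
    rw [mem_PP] at hy
    obtain ⟨h1, h2, h3, _⟩ := hy
    have g1 := cell_ge h1
    have g2 := cell_ge h2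
    have g3 := cell_lt hd hj' h2
    have hy2 : 0 < y.2 := by
      have : 0 < 2 ^ k' := by positivity
      omega
    have e1 : y.1 = y.2 * (y.1 / y.2) := (Nat.mul_div_cancel' h3).symm
    rw [Pool.Agent.M17.Helper88.KS.cell_eq, Finset.mem_Ico] at h1 h2
    have r1 : (x0 : ℝ) ≤ y.1 := by exact_mod_cast h1.1
    have r2 : (y.1 : ℝ) ≤ x0 + E := by
      have : (y.1 : ℝ) ≤ ((x0 + 2 ^ ec d k : ℕ) : ℝ) := by exact_mod_cast h1.2.le
      push_cast at this
      exact this
    have r3 : (x0' : ℝ) ≤ y.2 := by exact_mod_cast h2.1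
    have r4 : (y.2 : ℝ) ≤ x0' + E' := by
      have : (y.2 : ℝ) ≤ ((x0' + 2 ^ ec d k' : ℕ) : ℝ) := by exact_mod_cast h2.2.le
      push_cast at this
      exact this
    have e2 : (y.1 : ℝ) = (y.2 : ℝ) * ((y.1 / y.2 : ℕ) : ℝ) := by exact_mod_cast e1
    have hl0 : (0 : ℝ) ≤ ((y.1 / y.2 : ℕ) : ℝ) := Nat.cast_nonneg _
    refine ⟨hy2, e1, ?_, ?_, g1, g3⟩
    · rw [hα, div_le_iff₀ (by (clear * -; positivity))]
      calc (x0 : ℝ) ≤ y.1 := r1
        _ = (y.2 : ℝ) * ((y.1 / y.2 : ℕ) : ℝ) := e2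
        _ ≤ (x0' + E') * ((y.1 / y.2 : ℕ) : ℝ) := mul_le_mul_of_nonneg_right r4 hl0
        _ = _ := by ring
    · rw [hβ, le_div_iff₀ hx0'p]
      calc ((y.1 / y.2 : ℕ) : ℝ) * x0' ≤ ((y.1 / y.2 : ℕ) : ℝ) * y.2 := mul_le_mul_of_nonneg_left r3 hl0
        _ = y.1 := by rw [mul_comm, ← e2]
        _ ≤ _ := r2
  have h1 : (PP d k j k' j' L).card ≤ M * (Icc ⌈α⌉₊ ⌊β⌋₊).card := by
    refine Finset.card_le_mul_card_image_of_maps_to (f := fun y : ℕ × ℕ => y.1 / y.2) ?_ M ?_
    · intro y hy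
      have := hmemP y hy
      rw [Finset.mem_Icc]
      exact ⟨Nat.ceil_le.2 this.2.2.1, Nat.le_floor this.2.2.2.1⟩
    · intro l _
      rcases Finset.eq_empty_or_nonempty ((PP d k j k' j' L).filter (fun y : ℕ × ℕ => y.1 / y.2 = l)) with he | ⟨z, hz⟩
      · rw [he]; simp
      rw [Finset.mem_filter] at hz
      have hz1 := hmemP z hz.1
      have hl1 : 2 ^ k ≤ 2 ^ (k' + 1) * l := by
        calc 2 ^ k ≤ z.1 := hz1.2.2.2.2.1
          _ = z.2 * (z.1 / z.2) := hz1.2.1
          _ = z.2 * l := by rw [hz.2]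
          _ ≤ 2 ^ (k' + 1) * l := Nat.mul_le_mul_right _ hz1.2.2.2.2.2.le
      have hl0 : 0 < l := by
        rcases Nat.eq_zero_or_pos l with h | h
        · rw [h, mul_zero] at hl1
          have : 0 < 2 ^ k := by positivity
          omega
        · exact h
      have h2 : ((PP d k j k' j' L).filter (fun y : ℕ × ℕ => y.1 / y.2 = l)).card ≤
          ((cell d k j).filter (fun n => l ∣ n)).card := by
        refine Finset.card_le_card_of_injOn (fun y => y.1) ?_ ?_
        · intro y hy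
          rw [Finset.mem_coe, Finset.mem_filter] at hy
          have hy1 := mem_PP.1 hy.1
          have hy2 := hmemP y hy.1
          rw [Finset.mem_coe, Finset.mem_filter]
          refine ⟨hy1.1, ?_⟩
          rw [← hy.2]; exact Nat.div_dvd_of_dvd hy1.2.2.1
        · intro y hy y' hy' hyy
          rw [Finset.mem_coe, Finset.mem_filter] at hy hy'
          have hy2 := hmemP y hy.1
          have hy2' := hmemP y' hy'.1
          simp only at hyy
          refine Prod.ext hyy ?_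
          have e1 : y.1 = y.2 * l := by conv_lhs => rw [hy2.2.1, hy.2]
          have e2 : y'.1 = y'.2 * l := by conv_lhs => rw [hy2'.2.1, hy'.2]
          rw [e1, e2] at hyy
          exact Nat.eq_of_mul_eq_mul_right hl0 hyy
      refine h2.trans (Nat.le_floor ?_)
      rw [Pool.Agent.M17.Helper88.KS.cell_eq]
      refine (Pool.Agent.M17.Helper88.KS.card_mult_le _ _ _ hl0).trans ?_
      push_cast
      rw [← hE]
      have hl1r : (2 : ℝ) ^ k ≤ 2 ^ (k' + 1) * l := by exact_mod_cast hl1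
      have hlr : (0 : ℝ) < l := by exact_mod_cast hl0
      have h3 : E / l ≤ E * 2 ^ (k' + 1) / 2 ^ k := by
        rw [div_le_div_iff₀ hlr (by positivity)]
        calc E * 2 ^ k ≤ E * (2 ^ (k' + 1) * l) := mul_le_mul_of_nonneg_left hl1r hE0.le
          _ = _ := by ring
      (clear * - h3; linarith)
  have h2 : ((Icc ⌈α⌉₊ ⌊β⌋₊).card : ℝ) ≤ β - α + 1 := by
    have hα0 : 0 ≤ α := by (clear * -; positivity)
    have hβ0 : 0 ≤ β := by (clear * -; positivity)
    have hαβ : α ≤ β := by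
      rw [hα, hβ, div_le_div_iff₀ (by (clear * -; positivity)) hx0'p]
      (clear * - hE'0 hE0; nlinarith)
    rw [Nat.card_Icc]
    rcases le_or_gt ⌈α⌉₊ (⌊β⌋₊ + 1) with h | h
    · rw [Nat.cast_sub h]
      push_cast
      have a1 := Nat.le_ceil α
      have a2 := Nat.floor_le hβ0
      (clear * - a1 a2; linarith)
    · have : ⌊β⌋₊ + 1 - ⌈α⌉₊ = 0 := by omega
      rw [this]
      push_cast
      (clear * - hαβ; linarith)
  have h3 : β - α ≤ E / 2 ^ k' + 2 ^ (k + 1) * E' / (2 ^ k') ^ 2 := by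
    have e1 : β - α = E / x0' + (x0 : ℝ) * E' / (x0' * (x0' + E')) := by
      rw [hα, hβ]
      field_simp
      ring
    rw [e1]
    refine add_le_add ?_ ?_
    · exact div_le_div_of_nonneg_left hE0.le (by positivity) hx0'r
    · refine div_le_div₀ (by positivity) (mul_le_mul_of_nonneg_right hx0r hE'0.le) (by positivity) ?_
      rw [sq]
      refine mul_le_mul hx0'r (by (clear * - hE'0 hx0'r; linarith)) (by positivity) (by (clear * -; positivity))
  calc ((PP d k j k' j' L).card : ℝ) ≤ (M : ℝ) * ((Icc ⌈α⌉₊ ⌊β⌋₊).card : ℝ) := by exact_mod_cast h1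
    _ ≤ (E * 2 ^ (k' + 1) / 2 ^ k + 1) * (E / 2 ^ k' + 2 ^ (k + 1) * E' / (2 ^ k') ^ 2 + 1) := by
      refine mul_le_mul hMr (by (clear * - h2 h3; linarith)) (Nat.cast_nonneg _) (by positivity)
    _ = _ := by ring

/-- the final count for one cell of block `k'` -/
theorem pairs_bound {d : ℝ} (hd : 0 < d) (hd1 : d ≤ 1 / 1000) {k j k' j' : ℕ} (hj : j < nc d k) (hj' : j' < nc d k')
    {u c : ℝ} (hu0 : 0 ≤ u) (hu : u ≤ 0.22) (hc0 : 0 < c) (hc : c ≤ 1 / 100) :
    (2 : ℝ) ^ (u * k') * ((PP d k j k' j' ((2 : ℝ) ^ ((u + c) * k'))).card : ℝ) ≤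
      24 * (2 : ℝ) ^ ec d k * (2 : ℝ) ^ ((2 * d - c) * k') := by
  set E : ℝ := (2 : ℝ) ^ ec d k with hE
  have hE0 : 0 < E := by positivity
  have hE1 := Pool.Agent.M17.Helper88.KS.ec_real_le d (by (clear * - hd hd1; linarith)) k
  have hE2 := Pool.Agent.M17.Helper88.KS.ec_real_ge d k
  have hE'1 := Pool.Agent.M17.Helper88.KS.ec_real_le d (by (clear * - hd hd1; linarith)) k'
  rw [← hE] at hE1 hE2
  set r : ℝ := (k : ℝ) with hr
  set r' : ℝ := (k' : ℝ) with hr'
  have hr0 : 0 ≤ r := Nat.cast_nonneg k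
  have hr'0 : 0 ≤ r' := Nat.cast_nonneg k'
  have p1 : (2 : ℝ) ^ k = (2 : ℝ) ^ r := (Real.rpow_natCast _ _).symm
  have p2 : (2 : ℝ) ^ k' = (2 : ℝ) ^ r' := (Real.rpow_natCast _ _).symm
  rcases Finset.eq_empty_or_nonempty (PP d k j k' j' ((2 : ℝ) ^ ((u + c) * r'))) with he | ⟨z, hz⟩
  · rw [he, Finset.card_empty, Nat.cast_zero, mul_zero]
    positivity
  -- the exponents
  have hLe : (u + c) * r' ≤ r - r' + 1 := by
    have h1 := mem_PP.1 hz
    have g1 := cell_lt hd hj h1.1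
    have g2 := cell_ge h1.2.1
    have h2 : ((z.1 / z.2 : ℕ) : ℝ) ≤ (z.1 : ℝ) / z.2 := Nat.cast_div_le
    have h3 : (z.1 : ℝ) / z.2 ≤ (2 : ℝ) ^ (r + 1) / (2 : ℝ) ^ r' := by
      have a1 : (z.1 : ℝ) ≤ (2 : ℝ) ^ (r + 1) := by
        have : (z.1 : ℝ) ≤ ((2 ^ (k + 1) : ℕ) : ℝ) := by exact_mod_cast g1.le
        push_cast at this
        rwa [← Real.rpow_natCast, Nat.cast_add, Nat.cast_one] at this
      have a2 : (2 : ℝ) ^ r' ≤ z.2 := by
        rw [← p2]; exact_mod_cast g2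
      exact div_le_div₀ (by positivity) a1 (by positivity) a2
    have h4 := (h1.2.2.2.trans h2).trans h3
    rw [← Real.rpow_sub (by norm_num), Real.rpow_le_rpow_left_iff (by norm_num)] at h4
    (clear * - h4; linarith)
  rcases le_or_gt (2 * r') r with hcase | hcase
  · -- candidates first
    have h1 := pairs_ii (d := d) (k := k) (j := j) (k' := k') (j' := j') ((2 : ℝ) ^ ((u + c) * r'))
    rw [← hE] at h1
    have hinv : 1 ≤ E * (2 : ℝ) ^ (1 - (1 / 2 - d) * r) := by
      calc (1 : ℝ) = (2 : ℝ) ^ ((1 / 2 - d) * r - 1) * (2 : ℝ) ^ (1 - (1 / 2 - d) * r) := by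
            rw [← Real.rpow_add (by norm_num)]
            norm_num
        _ ≤ _ := mul_le_mul_of_nonneg_right hE2 (by positivity)
    have h2 : E / 2 ^ k' + 1 ≤ E * ((2 : ℝ) ^ (-r') + (2 : ℝ) ^ (1 - (1 / 2 - d) * r)) := by
      rw [mul_add]
      refine add_le_add (le_of_eq ?_) hinv
      rw [p2, Real.rpow_neg (by norm_num)]
      rfl
    have h3 : (2 : ℝ) ^ (-r') + (2 : ℝ) ^ (1 - (1 / 2 - d) * r) ≤ 3 * (2 : ℝ) ^ (-r' + 2 * d * r') := by
      have a1 : (2 : ℝ) ^ (-r') ≤ (2 : ℝ) ^ (-r' + 2 * d * r') :=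
        Real.rpow_le_rpow_of_exponent_le (by norm_num) (by nlinarith)
      have a2 : (2 : ℝ) ^ (1 - (1 / 2 - d) * r) ≤ 2 * (2 : ℝ) ^ (-r' + 2 * d * r') := by
        rw [Real.rpow_sub (by norm_num), Real.rpow_one, div_eq_mul_inv, ← Real.rpow_neg (by norm_num)]
        refine mul_le_mul_of_nonneg_left ?_ (by norm_num)
        refine Real.rpow_le_rpow_of_exponent_le (by norm_num) ?_
        (clear * - hcase hd1; nlinarith)
      (clear * - a1 a2; linarith)
    calc (2 : ℝ) ^ (u * r') * ((PP d k j k' j' ((2 : ℝ) ^ ((u + c) * r'))).card : ℝ)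
        ≤ (2 : ℝ) ^ (u * r') * ((2 : ℝ) ^ ((1 / 2 - d) * r') * (E * (3 * (2 : ℝ) ^ (-r' + 2 * d * r')))) := by
          refine mul_le_mul_of_nonneg_left (h1.trans ?_) (by positivity)
          refine mul_le_mul hE'1 ?_ (by positivity) (by positivity)
          exact h2.trans (mul_le_mul_of_nonneg_left h3 hE0.le)
      _ = 3 * E * ((2 : ℝ) ^ (u * r' + (1 / 2 - d) * r' + (-r' + 2 * d * r'))) := by
          have e0 : (2 : ℝ) ^ (u * r' + (1 / 2 - d) * r' + (-r' + 2 * d * r')) =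
              (2 : ℝ) ^ (u * r') * (2 : ℝ) ^ ((1 / 2 - d) * r') * (2 : ℝ) ^ (-r' + 2 * d * r') := by
            rw [← Real.rpow_add (by norm_num), ← Real.rpow_add (by norm_num)]
          rw [e0]
          ring
      _ ≤ 24 * E * (2 : ℝ) ^ ((2 * d - c) * r') := by
          have a1 : (2 : ℝ) ^ (u * r' + (1 / 2 - d) * r' + (-r' + 2 * d * r')) ≤ (2 : ℝ) ^ ((2 * d - c) * r') := by
            refine Real.rpow_le_rpow_of_exponent_le (by norm_num) ?_
            have : (u + 1 / 2 - 1 + c - d) * r' ≤ 0 := by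
              have h5 : u + 1 / 2 - 1 + c - d ≤ 0 := by norm_num at hu; (clear * - hd hd1 hc hu; linarith)
              nlinarith
            (clear * - this; nlinarith)
          have a2 : 0 < (2 : ℝ) ^ ((2 * d - c) * r') := by positivity
          (clear * - hd hd1 hE0 a1 a2; nlinarith)
  · -- cofactors first
    have h1 := pairs_i hd hj hj' ((2 : ℝ) ^ ((u + c) * r'))
    rw [← hE] at h1
    have b1 : E / 2 ^ k' ≤ 1 := by
      rw [p2, div_le_one (by positivity)]
      refine hE1.trans (Real.rpow_le_rpow_of_exponent_le (by norm_num) ?_)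
      nlinarith
    have b2 : (2 : ℝ) ^ (k + 1) * 2 ^ ec d k' / (2 ^ k') ^ 2 ≤ (2 : ℝ) ^ (r + 1 - 3 / 2 * r') := by
      have e1 : (2 : ℝ) ^ (k + 1) = (2 : ℝ) ^ (r + 1) := by
        rw [← Real.rpow_natCast]; push_cast; rfl
      have e2 : ((2 : ℝ) ^ k') ^ 2 = (2 : ℝ) ^ (2 * r') := by
        rw [p2, ← Real.rpow_natCast, ← Real.rpow_mul (by norm_num)]
        congr 1
        push_cast
        ring
      rw [e1, e2, div_le_iff₀ (by positivity), ← Real.rpow_add (by norm_num)]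
      calc (2 : ℝ) ^ (r + 1) * 2 ^ ec d k' ≤ (2 : ℝ) ^ (r + 1) * (2 : ℝ) ^ ((1 / 2 - d) * r') :=
            mul_le_mul_of_nonneg_left hE'1 (by positivity)
        _ = (2 : ℝ) ^ (r + 1 + (1 / 2 - d) * r') := (Real.rpow_add (by norm_num) _ _).symm
        _ ≤ _ := Real.rpow_le_rpow_of_exponent_le (by norm_num) (by nlinarith)
    have hinv : 1 ≤ E * (2 : ℝ) ^ (1 - (1 / 2 - d) * r) := by
      calc (1 : ℝ) = (2 : ℝ) ^ ((1 / 2 - d) * r - 1) * (2 : ℝ) ^ (1 - (1 / 2 - d) * r) := by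
            rw [← Real.rpow_add (by norm_num)]
            norm_num
        _ ≤ _ := mul_le_mul_of_nonneg_right hE2 (by positivity)
    have b3 : E * 2 ^ (k' + 1) / 2 ^ k + 1 ≤ 4 * E * (2 : ℝ) ^ (r' - r + 2 * d * r') := by
      have e1 : E * 2 ^ (k' + 1) / 2 ^ k = 2 * E * (2 : ℝ) ^ (r' - r) := by
        rw [pow_succ, p1, p2, Real.rpow_sub (by norm_num)]
        ring
      have e2 : (2 : ℝ) ^ (r' - r) ≤ (2 : ℝ) ^ (r' - r + 2 * d * r') :=
        Real.rpow_le_rpow_of_exponent_le (by norm_num) (by nlinarith)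
      have e3 : (2 : ℝ) ^ (1 - (1 / 2 - d) * r) ≤ 2 * (2 : ℝ) ^ (r' - r + 2 * d * r') := by
        rw [Real.rpow_sub (by norm_num), Real.rpow_one, div_eq_mul_inv, ← Real.rpow_neg (by norm_num)]
        refine mul_le_mul_of_nonneg_left ?_ (by norm_num)
        refine Real.rpow_le_rpow_of_exponent_le (by norm_num) ?_
        (clear * - hcase hd; nlinarith)
      rw [e1]
      (clear * - hinv hd hd1 hE0 e2 e3; nlinarith)
    calc (2 : ℝ) ^ (u * r') * ((PP d k j k' j' ((2 : ℝ) ^ ((u + c) * r'))).card : ℝ)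
        ≤ (2 : ℝ) ^ (u * r') * ((2 + (2 : ℝ) ^ (r + 1 - 3 / 2 * r')) * (4 * E * (2 : ℝ) ^ (r' - r + 2 * d * r'))) := by
          refine mul_le_mul_of_nonneg_left (h1.trans ?_) (by positivity)
          refine mul_le_mul (by (clear * - b1 b2; linarith)) b3 (by positivity) (by positivity)
      _ = 8 * E * ((2 : ℝ) ^ (u * r' + (r' - r + 2 * d * r')) +
            (2 : ℝ) ^ (u * r' + (r - 3 / 2 * r') + (r' - r + 2 * d * r'))) := by
          rw [Real.rpow_add (by norm_num) (u * r' + (r - 3 / 2 * r')), Real.rpow_add (by norm_num) (u * r'),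
            Real.rpow_add (by norm_num) (u * r'),
            show r + 1 - 3 / 2 * r' = 1 + (r - 3 / 2 * r') by ring, Real.rpow_add (by norm_num) 1, Real.rpow_one]
          ring
      _ ≤ 8 * E * (2 * (2 : ℝ) ^ ((2 * d - c) * r') + (2 : ℝ) ^ ((2 * d - c) * r')) := by
          refine mul_le_mul_of_nonneg_left (add_le_add ?_ ?_) (by positivity)
          · calc (2 : ℝ) ^ (u * r' + (r' - r + 2 * d * r')) ≤ (2 : ℝ) ^ (1 + (2 * d - c) * r') :=
                Real.rpow_le_rpow_of_exponent_le (by norm_num) (by (clear * - hLe; nlinarith))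
              _ = 2 * (2 : ℝ) ^ ((2 * d - c) * r') := by
                rw [Real.rpow_add (by norm_num), Real.rpow_one]
          · refine Real.rpow_le_rpow_of_exponent_le (by norm_num) ?_
            have h5 : u - 1 / 2 + c ≤ 0 := by norm_num at hu; (clear * - hd hd1 hc hu; linarith)
            nlinarith
      _ = 24 * E * (2 : ℝ) ^ ((2 * d - c) * r') := by ring

end Pool.Agent.M17.Helper18.KL
end

/- Helper53.KN.Helper60.KX.Expand -/
section
/-! Project KS, task 1705: Expand. -/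

set_option autoImplicit false
open scoped Classical
open Finset

namespace Pool.Agent.M17.Helper60.KX

open Pool.Agent.M17.Helper16.KS Pool.Agent.M17.Helper33.KS

lemma CM_mul (g : ℕ → ℝ) {m n : ℕ} (hm : m ≠ 0) (hn : n ≠ 0) : CM g (m * n) = CM g m * CM g n := by
  unfold CM
  rw [((Nat.perm_primeFactorsList_mul hm hn).map g).prod_eq, List.map_append, List.prod_append]

lemma CM_prime (g : ℕ → ℝ) {p : ℕ} (hp : p.Prime) : CM g p = g p := by
  unfold CM
  rw [Nat.primeFactorsList_prime hp]; simp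

lemma CM_one (g : ℕ → ℝ) : CM g 1 = 1 := by
  unfold CM; simp

lemma CM_eq (g : ℕ → ℝ) (n : ℕ) : n ≠ 0 → CM g n = cm g n := by
  induction n using Nat.recOnMul with
  | zero => intro h; exact absurd rfl h
  | one => intro _; rw [CM_one]; simp
  | prime p hp => intro _; rw [CM_prime g hp, cm_prime g hp]
  | mul m n hm hn =>
    intro h
    have hm0 : m ≠ 0 := fun h' => h (by simp [h'])
    have hn0 : n ≠ 0 := fun h' => h (by simp [h'])
    rw [CM_mul g hm0 hn0, hm hm0, hn hn0, map_mul]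

lemma CM_nonneg {g : ℕ → ℝ} (hg : ∀ p, p.Prime → 0 ≤ g p) {n : ℕ} (hn : n ≠ 0) : 0 ≤ CM g n := by
  rw [CM_eq g n hn]; exact cm_nonneg hg n

lemma CM_mono {g h : ℕ → ℝ} {n : ℕ} (hn : n ≠ 0) (hg : ∀ p, p.Prime → p ∣ n → 0 ≤ g p)
    (hgh : ∀ p, p.Prime → p ∣ n → g p ≤ h p) : CM g n ≤ CM h n := by
  rw [CM_eq g n hn, CM_eq h n hn]; exact cm_mono hg hgh

section nonneg

variable (S : Sys)

lemma base_nonneg (m : ℕ) : 0 ≤ S.base m := by unfold Sys.base; (clear * -; positivity)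
lemma pr_nonneg (m : ℕ) : 0 ≤ S.pr m := by unfold Sys.pr; positivity
lemma G_nonneg (k : ℕ) : 0 ≤ S.G k := by unfold Sys.G; (clear * -; positivity)
lemma NN_nonneg (R : Set ℕ) (k j : ℕ) : 0 ≤ S.NN R k j := by
  unfold Sys.NN
  exact sum_nonneg fun x _ => by have := pr_nonneg S x.2; positivity
lemma wo_nonneg (R : Set ℕ) (k j m : ℕ) : 0 ≤ S.wo R k j m := by
  unfold Sys.wo
  have h1 := G_nonneg S k
  have h2 := NN_nonneg S R k j
  have h3 := pr_nonneg S m
  have h4 := base_nonneg S m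
  positivity
lemma cw_nonneg (R : Set ℕ) (k j q : ℕ) : 0 ≤ S.cw R k j q := by
  unfold Sys.cw
  exact sum_nonneg fun x _ => wo_nonneg S R k j x.2
lemma ctl_nonneg (k0 k1 : ℕ) (R : Set ℕ) (q : ℕ) : 0 ≤ S.ctl k0 k1 R q := by
  unfold Sys.ctl
  exact sum_nonneg fun k _ => sum_nonneg fun j _ => cw_nonneg S R k j q
lemma bR_nonneg (R : Set ℕ) (p : ℕ) : 0 ≤ S.bR R p := by
  unfold Sys.bR
  split_ifs
  · exact base_nonneg S p
  · exact le_rfl
lemma phi0_nonneg (k0 : ℕ) : 0 ≤ S.phi0 k0 := by unfold Sys.phi0; positivity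
lemma ordw_nonneg (k0 p : ℕ) : 0 ≤ S.ordw k0 p := by
  unfold Sys.ordw
  split_ifs
  · exact le_rfl
  · exact phi0_nonneg S k0
  · exact le_rfl
  · have := G_nonneg S (Nat.log 2 p)
    (clear * - this; positivity)
lemma Wp_nonneg (k0 : ℕ) (R : Set ℕ) (p : ℕ) : 0 ≤ S.Wp k0 R p := by
  unfold Sys.Wp
  have h1 := bR_nonneg S R p
  have h2 := ordw_nonneg S k0 p
  have h3 := ctl_nonneg S k0 (top p) R p
  positivity
lemma Wl_nonneg (k0 : ℕ) (R : Set ℕ) (k p : ℕ) : 0 ≤ S.Wl k0 R k p := by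
  unfold Sys.Wl
  have h1 := bR_nonneg S R p
  have h2 := ordw_nonneg S k0 p
  have h3 := ctl_nonneg S k0 (min (top p) ⌈S.kap * k⌉₊) R p
  (clear * - h1 h2 h3; positivity)
lemma W_nonneg (k0 : ℕ) (R : Set ℕ) {n : ℕ} (hn : n ≠ 0) : 0 ≤ S.W k0 R n :=
  CM_nonneg (fun p _ => Wp_nonneg S k0 R p) hn

end nonneg

lemma cell_bounds {d : ℝ} (hd : 0 < d) {k j n : ℕ} (hj : j < nc d k) (hn : n ∈ cell d k j) :
    2 ^ k ≤ n ∧ n < 2 ^ (k + 1) := by
  unfold cell at hn
  unfold nc at hj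
  rw [mem_Ico] at hn
  have he : ec d k ≤ k := by
    unfold ec
    apply Nat.floor_le_of_le
    have : (0:ℝ) ≤ k := k.cast_nonneg
    (clear * - hd; nlinarith)
  have h1 : (j + 1) * 2 ^ ec d k ≤ 2 ^ (k - ec d k) * 2 ^ ec d k := Nat.mul_le_mul_right _ hj
  rw [← pow_add, Nat.sub_add_cancel he] at h1
  rw [pow_succ]
  constructor
  · exact le_trans (Nat.le_add_right _ _) hn.1
  · omega

/-- splitting of the four cases -/
lemma four_cases {ι : Type} (T : Finset ι) (f : ι → ℝ) (P B1 B2 B3 B4 : ι → Prop) [DecidablePred P]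
    [DecidablePred B1] [DecidablePred B2] [DecidablePred B3] [DecidablePred B4] (hf : ∀ x ∈ T, 0 ≤ f x)
    (h : ∀ x ∈ T, P x → B1 x ∨ B2 x ∨ B3 x ∨ B4 x) :
    ∑ x ∈ T.filter P, f x ≤ ∑ x ∈ T.filter B1, f x + ∑ x ∈ T.filter B2, f x +
      ∑ x ∈ T.filter B3, f x + ∑ x ∈ T.filter B4, f x := by
  simp only [sum_filter]
  rw [← sum_add_distrib, ← sum_add_distrib, ← sum_add_distrib]
  apply sum_le_sum
  intro x hx
  have h0 := hf x hx
  have n1 : 0 ≤ (if B1 x then f x else 0) := by split_ifs <;> [exact h0; exact le_rfl]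
  have n2 : 0 ≤ (if B2 x then f x else 0) := by split_ifs <;> [exact h0; exact le_rfl]
  have n3 : 0 ≤ (if B3 x then f x else 0) := by split_ifs <;> [exact h0; exact le_rfl]
  have n4 : 0 ≤ (if B4 x then f x else 0) := by split_ifs <;> [exact h0; exact le_rfl]
  by_cases hP : P x
  · rw [if_pos hP]
    rcases h x hx hP with h | h | h | h
    · rw [if_pos h] at n1 ⊢; (clear * - n2 n3 n4; linarith)
    · rw [if_pos h] at n2 ⊢; (clear * - n1 n3 n4; linarith)
    · rw [if_pos h] at n3 ⊢; linarith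
    · rw [if_pos h] at n4 ⊢; linarith
  · rw [if_neg hP]; linarith

/-- (EXPAND) -/
theorem expand : Expand := by
  intro S
  refine ⟨S.K, fun k0 hk0 R _hR k hk j hj => ?_⟩
  have hkK : S.K ≤ k := le_trans hk0 hk
  -- pointwise
  set t : ℕ → ℕ × ℕ → ℕ × ℕ → ℝ := fun n i x =>
    (n.factorization x.1 : ℝ) * (2 * S.wo R i.1 i.2 x.2 * S.W k0 R (n / x.1)) with ht
  have hpt : ∀ n ∈ cell S.d k j, S.W k0 R n ≤ CM (S.Wl k0 R k) n +
      ∑ k' ∈ S.hvy k0 k, ∑ j' ∈ S.badc k',
        (∑ x ∈ (S.act R k' j').filter (fun x => x.1 ∣ n ∧ Sys.Q1 (k', j') n x), t n (k', j') x +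
        ∑ x ∈ (S.act R k' j').filter (fun x => x.1 ∣ n ∧ S.Q2 (k', j') n x), t n (k', j') x +
        ∑ x ∈ (S.act R k' j').filter (fun x => x.1 ∣ n ∧ S.Q3 (k', j') n x), t n (k', j') x +
        ∑ x ∈ (S.act R k' j').filter (fun x => x.1 ∣ n ∧ Sys.Q4 (k', j') n x), t n (k', j') x) := by
    intro n hn
    obtain ⟨hn1, hn2⟩ := cell_bounds S.d_pos hj hn
    have hn0 : n ≠ 0 := by
      have : 0 < 2 ^ k := by positivity
      omega
    set Gh : ℕ → ℝ := fun p => 2 * (S.ctl k0 (top p) R p - S.ctl k0 (min (top p) ⌈S.kap * k⌉₊) R p) with hGh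
    have hGh0 : ∀ p, p.Prime → 0 ≤ Gh p := by
      intro p _
      have : S.ctl k0 (min (top p) ⌈S.kap * k⌉₊) R p ≤ S.ctl k0 (top p) R p := by
        unfold Sys.ctl
        apply sum_le_sum_of_subset_of_nonneg
        · exact Ico_subset_Ico_right (min_le_left _ _)
        · intro i _ _
          exact sum_nonneg fun j _ => cw_nonneg S R i j p
      simp only [hGh]
      (clear * - this; linarith)
    have hsum : S.Wp k0 R = fun p => S.Wl k0 R k p + Gh p := by
      funext p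
      simp only [hGh, Sys.Wp, Sys.Wl]
      ring
    have h1 := cm_tele (F := S.Wl k0 R k) (G := Gh) (fun p _ => Wl_nonneg S k0 R k p) hGh0 n hn0
    rw [← hsum, ← CM_eq _ n hn0, ← CM_eq _ n hn0] at h1
    refine h1.trans ?_
    apply add_le_add_right
    have h2 : ∀ p ∈ n.primeFactors, (n.factorization p : ℝ) * (Gh p * cm (S.Wp k0 R) (n / p)) ≤
        ∑ k' ∈ S.hvy k0 k, ∑ j' ∈ S.badc k', ∑ x ∈ (S.act R k' j').filter (fun x => x.1 = p), t n (k', j') x := by
      intro p hp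
      have hpp := Nat.prime_of_mem_primeFactors hp
      have hpn := Nat.dvd_of_mem_primeFactors hp
      have hnp : n / p ≠ 0 := by
        have := Nat.div_pos (Nat.le_of_dvd (Nat.pos_of_ne_zero hn0) hpn) hpp.pos
        omega
      have htop : top p ≤ 3 * (k + 1) := by
        unfold top
        have h3 : p < 2 ^ (k + 1) := lt_of_le_of_lt (Nat.le_of_dvd (Nat.pos_of_ne_zero hn0) hpn) hn2
        have h4 : Nat.log 2 p < k + 1 := Nat.log_lt_of_lt_pow hpp.ne_zero h3
        omega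
      have hGle : Gh p ≤ 2 * ∑ k' ∈ S.hvy k0 k, ∑ j' ∈ S.badc k', S.cw R k' j' p := by
        have h3 : S.ctl k0 (top p) R p ≤ S.ctl k0 (min (top p) ⌈S.kap * k⌉₊) R p +
            ∑ k' ∈ S.hvy k0 k, ∑ j' ∈ S.badc k', S.cw R k' j' p := by
          unfold Sys.ctl
          have hdis : Disjoint (Ico k0 (min (top p) ⌈S.kap * k⌉₊)) (S.hvy k0 k) := by
            rw [disjoint_left]
            intro a ha hb
            unfold Sys.hvy at hb
            rw [mem_Ico] at ha hb
            have h5 := lt_min_iff.mp ha.2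
            have h6 := max_le_iff.mp hb.1
            omega
          rw [← sum_union hdis]
          apply sum_le_sum_of_subset_of_nonneg
          · intro a ha
            rw [mem_Ico] at ha
            rw [mem_union, mem_Ico]
            by_cases h5 : a < ⌈S.kap * k⌉₊
            · left; exact ⟨ha.1, lt_min ha.2 h5⟩
            · right
              unfold Sys.hvy
              rw [mem_Ico]
              exact ⟨max_le ha.1 (not_lt.mp h5), lt_of_lt_of_le ha.2 htop⟩
          · intro i _ _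
            exact sum_nonneg fun j _ => cw_nonneg S R i j p
        simp only [hGh]
        (clear * - h3; linarith)
      have hW0 : 0 ≤ S.W k0 R (n / p) := W_nonneg S k0 R hnp
      have hWeq : cm (S.Wp k0 R) (n / p) = S.W k0 R (n / p) := (CM_eq _ _ hnp).symm
      rw [hWeq]
      calc (n.factorization p : ℝ) * (Gh p * S.W k0 R (n / p)) ≤
          (n.factorization p : ℝ) * ((2 * ∑ k' ∈ S.hvy k0 k, ∑ j' ∈ S.badc k', S.cw R k' j' p) *
            S.W k0 R (n / p)) := by
            (clear * - hGle hW0; gcongr)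
        _ = ∑ k' ∈ S.hvy k0 k, ∑ j' ∈ S.badc k', ∑ x ∈ (S.act R k' j').filter (fun x => x.1 = p),
            t n (k', j') x := by
            rw [mul_sum, sum_mul, mul_sum]
            refine sum_congr rfl fun k' _ => ?_
            rw [mul_sum, sum_mul, mul_sum]
            refine sum_congr rfl fun j' _ => ?_
            unfold Sys.cw
            rw [mul_sum, sum_mul, mul_sum]
            refine sum_congr rfl fun x hx => ?_
            have hxp : x.1 = p := (mem_filter.mp hx).2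
            simp only [ht]
            rw [hxp]
    refine (sum_le_sum h2).trans ?_
    rw [sum_comm]
    apply sum_le_sum
    intro k' hk'
    rw [sum_comm]
    apply sum_le_sum
    intro j' hj'
    -- fibrewise
    have h3 : ∑ p ∈ n.primeFactors, ∑ x ∈ (S.act R k' j').filter (fun x => x.1 = p), t n (k', j') x =
        ∑ x ∈ (S.act R k' j').filter (fun x => x.1 ∈ n.primeFactors), t n (k', j') x := by
      rw [← sum_fiberwise_of_maps_to (s := (S.act R k' j').filter (fun x => x.1 ∈ n.primeFactors))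
        (t := n.primeFactors) (g := fun x => x.1) (fun x hx => (mem_filter.mp hx).2)]
      refine sum_congr rfl fun p hp => ?_
      congr 1
      ext x
      simp only [mem_filter]
      constructor
      · rintro ⟨a, b⟩
        exact ⟨⟨a, by rw [b]; exact hp⟩, b⟩
      · rintro ⟨⟨a, _⟩, b⟩
        exact ⟨a, b⟩
    rw [h3]
    apply four_cases
    · intro x hx
      by_cases hx1 : x.1 ∣ n
      · have hnx : n / x.1 ≠ 0 := by
          have hx0 : 0 < x.1 := Nat.pos_of_dvd_of_pos hx1 (Nat.pos_of_ne_zero hn0)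
          have := Nat.div_pos (Nat.le_of_dvd (Nat.pos_of_ne_zero hn0) hx1) hx0
          omega
        have h4 := wo_nonneg S R k' j' x.2
        have h5 := W_nonneg S k0 R hnx
        simp only [ht]
        (clear * - h4 h5; positivity)
      · have : n.factorization x.1 = 0 := Nat.factorization_eq_zero_of_not_dvd hx1
        simp only [ht]
        rw [this]; simp
    · intro x hx hxn
      have hx1 : x.1 ∣ n := Nat.dvd_of_mem_primeFactors hxn
      have hx0 : 0 < x.1 := Nat.pos_of_dvd_of_pos hx1 (Nat.pos_of_ne_zero hn0)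
      by_cases hd2 : x.2 ∣ n / x.1
      · by_cases hQ2 : (2 : ℝ) ^ ((S.u (S.cls k' j') + S.c) * k') ≤ ((n / x.1 / x.2 : ℕ) : ℝ)
        · right; left; exact ⟨hx1, hd2, hQ2⟩
        · by_cases hQ3 : 1 < n / x.1 / x.2
          · right; right; left; exact ⟨hx1, hd2, hQ3, not_le.mp hQ2⟩
          · right; right; right
            refine ⟨hx1, ?_⟩
            unfold Sys.Q4
            have hnx : 0 < n / x.1 := Nat.div_pos (Nat.le_of_dvd (Nat.pos_of_ne_zero hn0) hx1) hx0
            have hx20 : 0 < x.2 := Nat.pos_of_dvd_of_pos hd2 hnx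
            have h5 : 0 < n / x.1 / x.2 := Nat.div_pos (Nat.le_of_dvd hnx hd2) hx20
            have h6 : n / x.1 / x.2 = 1 := by omega
            have h7 : n / x.1 = x.2 := by
              have := Nat.div_mul_cancel hd2
              rw [h6, one_mul] at this
              exact this.symm
            have h8 := Nat.div_mul_cancel hx1
            rw [h7, mul_comm] at h8
            exact h8.symm
      · left; exact ⟨hx1, hd2⟩
  refine (sum_le_sum hpt).trans (le_of_eq ?_)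
  unfold Sys.HT
  rw [sum_add_distrib]
  congr 1
  rw [← sum_add_distrib, ← sum_add_distrib, ← sum_add_distrib]
  refine sum_congr rfl fun n _ => ?_
  rw [← sum_add_distrib, ← sum_add_distrib, ← sum_add_distrib]
  refine sum_congr rfl fun k' _ => ?_
  rw [← sum_add_distrib, ← sum_add_distrib, ← sum_add_distrib]

end Pool.Agent.M17.Helper60.KX
end

/- Helper53.KN.Helper60.KX.H12 -/
section
/-! Project KS, task 1705: H12. -/

set_option autoImplicit false
open scoped Classical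
open Finset Filter Topology

namespace Pool.Agent.M17.Helper60.KX

open Pool.Agent.M17.Helper16.KS Pool.Agent.M17.Helper33.KS

lemma ev_lin (A a : ℝ) (ha : 0 < a) : ∃ K : ℕ, ∀ k : ℕ, K ≤ k → A * ((k : ℝ) + 1) ≤ (2 : ℝ) ^ (a * k) := by
  have h1 : 1 < (2 : ℝ) ^ a := Real.one_lt_rpow (by norm_num) ha
  have h2 := (tendsto_pow_const_div_const_pow_of_one_lt 1 h1).const_mul (2 * |A|)
  rw [mul_zero] at h2
  have h4 := h2.eventually (gt_mem_nhds (show (0 : ℝ) < 1 by norm_num))
  obtain ⟨K, hK⟩ := eventually_atTop.mp h4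
  refine ⟨max K 1, fun k hk => ?_⟩
  have hk1 : (1:ℝ) ≤ k := by exact_mod_cast (le_max_right _ _).trans hk
  have h5 := (hK k ((le_max_left _ _).trans hk)).le
  have h6 : (0 : ℝ) < ((2 : ℝ) ^ a) ^ k := by positivity
  rw [← mul_div_assoc, div_le_one h6, pow_one] at h5
  rw [Real.rpow_mul (by norm_num), Real.rpow_natCast]
  refine le_trans ?_ h5
  have h7 := le_abs_self A
  have h8 := abs_nonneg A
  nlinarith

lemma fact_le {n k : ℕ} (hn : n ≠ 0) (h : n < 2 ^ (k + 1)) (p : ℕ) : n.factorization p ≤ k := by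
  by_cases hp : p.Prime
  · have h1 : p ^ n.factorization p ≤ n := Nat.ordProj_le p hn
    have h2 : 2 ^ n.factorization p ≤ p ^ n.factorization p := Nat.pow_le_pow_left hp.two_le _
    have h3 : 2 ^ n.factorization p < 2 ^ (k + 1) := lt_of_le_of_lt (h2.trans h1) h
    have := (Nat.pow_lt_pow_iff_right (by norm_num : 1 < 2)).mp h3
    omega
  · rw [Nat.factorization_eq_zero_of_not_prime _ hp]; omega

lemma ep_pos (S : Sys) : 0 < S.ep := by
  have h1 := S.d_pos
  have h2 := S.d_le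
  have h3 := S.c_le
  have hc : 0 < S.c := by
    by_contra hcon
    push Not at hcon
    have : S.c / 10 ^ 5 ≤ 0 := div_nonpos_of_nonpos_of_nonneg hcon (by positivity)
    linarith
  have he : 0 < S.eta := by linarith
  unfold Sys.ep
  positivity

lemma tau_pos (S : Sys) : 0 < S.tau := by
  have := ep_pos S
  unfold Sys.tau
  positivity

lemma wd_nonneg (S : Sys) (k m : ℕ) : 0 ≤ S.wd k m := by unfold Sys.wd; positivity

lemma HT_le_HP (S : Sys) (k0 : ℕ) (R : Set ℕ) (k j : ℕ) (Q : ℕ × ℕ → ℕ → ℕ × ℕ → Prop) (hj : j < nc S.d k)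
    (hk : k0 ≤ k) (hSK : S.K ≤ k0) (hk01 : 1 ≤ k0)
    (hwo : ∀ k, k0 ≤ k → ∀ j ∈ S.badc k, ∀ m : ℕ, 1 ≤ m →
      0 ≤ S.wo R k j m ∧ S.wo R k j m ≤ (2 / S.c1) / (k : ℝ) ^ 2 * S.wd k m)
    (hwp : ∀ p : ℕ, p.Prime → 0 ≤ S.Wp k0 R p ∧ S.Wp k0 R p ≤ S.Fh k0 R p) :
    S.HT k0 R k j Q ≤ (4 / S.c1) * ((k : ℝ) + 1) * S.HP k0 R k j Q := by
  have hc1 := S.c1_pos
  unfold Sys.HT Sys.HP
  rw [mul_sum]
  apply sum_le_sum
  intro n hn
  obtain ⟨hn1, hn2⟩ := cell_bounds S.d_pos hj hn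
  have hn0 : n ≠ 0 := by
    have : 0 < 2 ^ k := by positivity
    omega
  rw [mul_sum]
  apply sum_le_sum
  intro k' hk'
  have hk'0 : k0 ≤ k' := by
    unfold Sys.hvy at hk'
    rw [mem_Ico] at hk'
    exact (max_le_iff.mp hk'.1).1
  rw [mul_sum]
  apply sum_le_sum
  intro j' hj'
  rw [mul_sum]
  apply sum_le_sum
  intro x hx
  rw [mem_filter] at hx
  obtain ⟨hxa, hxn, hQ⟩ := hx
  have hxc : x ∈ S.Cand k' j' := (mem_filter.mp hxa).1
  have hjb := mem_filter.mp hj'
  have hcand := S.cand k' (hSK.trans hk'0) j' (mem_range.mp hjb.1) hjb.2 x hxc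
  have hx2 : 1 < x.2 := hcand.2.2.2.1
  obtain ⟨hw0, hw1⟩ := hwo k' hk'0 j' hj' x.2 hx2.le
  have hx0 : 0 < x.1 := hcand.1.pos
  have hnx : n / x.1 ≠ 0 := by
    have := Nat.div_pos (Nat.le_of_dvd (Nat.pos_of_ne_zero hn0) hxn) hx0
    omega
  have hW : S.W k0 R (n / x.1) ≤ CM (S.Fh k0 R) (n / x.1) :=
    CM_mono hnx (fun p hp _ => (hwp p hp).1) (fun p hp _ => (hwp p hp).2)
  have hW0 := W_nonneg S k0 R hnx
  have hCM0 : 0 ≤ CM (S.Fh k0 R) (n / x.1) := hW0.trans hW
  have hf : (n.factorization x.1 : ℝ) ≤ k + 1 := by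
    have := fact_le hn0 hn2 x.1
    have h1 : (n.factorization x.1 : ℝ) ≤ k := by exact_mod_cast this
    linarith
  have hk'1 : (1:ℝ) ≤ k' := by exact_mod_cast hk01.trans hk'0
  have hwd := wd_nonneg S k' x.2
  have hw2 : S.wo R k' j' x.2 ≤ 2 / S.c1 * S.wd k' x.2 := by
    refine hw1.trans ?_
    apply mul_le_mul_of_nonneg_right _ hwd
    apply div_le_self (by positivity)
    nlinarith
  calc (n.factorization x.1 : ℝ) * (2 * S.wo R k' j' x.2 * S.W k0 R (n / x.1)) ≤
      ((k : ℝ) + 1) * (2 * (2 / S.c1 * S.wd k' x.2) * CM (S.Fh k0 R) (n / x.1)) := by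
        gcongr
    _ = 4 / S.c1 * ((k : ℝ) + 1) * (S.wd k' x.2 * CM (S.Fh k0 R) (n / x.1)) := by ring

/-- (H12) -/
theorem h12 (h1 : WoLe) (h2 : WpLe) : H12 := by
  intro S
  obtain ⟨K1, h1⟩ := h1 S
  obtain ⟨K2, h2⟩ := h2 S
  have hep := ep_pos S
  have hc1 := S.c1_pos
  obtain ⟨K3, hK3⟩ := ev_lin (4 / S.c1 * 40) (S.ep / 100) (by positivity)
  refine ⟨max (max K1 K2) (max (max K3 S.K) 1), fun k0 hk0 R hR k hk j hj => ?_⟩
  have a1 : K1 ≤ k0 := le_trans (le_trans (le_max_left _ _) (le_max_left _ _)) hk0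
  have a2 : K2 ≤ k0 := le_trans (le_trans (le_max_right _ _) (le_max_left _ _)) hk0
  have a3 : K3 ≤ k0 := le_trans (le_trans (le_trans (le_max_left _ _) (le_max_left _ _)) (le_max_right _ _)) hk0
  have a4 : S.K ≤ k0 := le_trans (le_trans (le_trans (le_max_right _ _) (le_max_left _ _)) (le_max_right _ _)) hk0
  have a5 : 1 ≤ k0 := le_trans (le_trans (le_max_right _ _) (le_max_right _ _)) hk0
  have hG := G_nonneg S k
  have hkey := hK3 k (a3.trans hk)
  have hb : ∀ Q : ℕ × ℕ → ℕ → ℕ × ℕ → Prop,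
      S.HP k0 R k j Q ≤ (2 : ℝ) ^ (-(S.ep / 100) * k) * S.G k → S.HT k0 R k j Q ≤ S.G k / 40 := by
    intro Q hQ
    refine (HT_le_HP S k0 R k j Q hj hk a4 a5 (h1 k0 a1 R hR) (h2 k0 a2 R hR)).trans ?_
    have h3 : (2 : ℝ) ^ (S.ep / 100 * k) * (2 : ℝ) ^ (-(S.ep / 100) * k) = 1 := by
      rw [← Real.rpow_add (by norm_num)]
      have : S.ep / 100 * (k:ℝ) + -(S.ep / 100) * k = 0 := by ring
      rw [this, Real.rpow_zero]
    have h4 : (0:ℝ) < (2 : ℝ) ^ (-(S.ep / 100) * k) := by positivity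
    have hk1 : (0:ℝ) ≤ (k:ℝ) + 1 := by positivity
    calc 4 / S.c1 * ((k : ℝ) + 1) * S.HP k0 R k j Q ≤
        4 / S.c1 * ((k : ℝ) + 1) * ((2 : ℝ) ^ (-(S.ep / 100) * k) * S.G k) := by gcongr
      _ = 1 / 40 * ((4 / S.c1 * 40 * ((k : ℝ) + 1)) * (2 : ℝ) ^ (-(S.ep / 100) * k)) * S.G k := by ring
      _ ≤ 1 / 40 * ((2 : ℝ) ^ (S.ep / 100 * k) * (2 : ℝ) ^ (-(S.ep / 100) * k)) * S.G k := by gcongr
      _ = S.G k / 40 := by rw [h3]; ring
  have b1 := hb Sys.Q1 (hR.heavy1 k hk j hj)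
  have b2 := hb S.Q2 (hR.heavy2 k hk j hj)
  linarith

end Pool.Agent.M17.Helper60.KX
end

/- Helper53.KN.Helper60.KX.H4 -/
section
/-! Project KS, task 1705: H4 (own terms). -/

set_option autoImplicit false
open scoped Classical
open Finset Filter Topology

namespace Pool.Agent.M17.Helper60.KX

open Pool.Agent.M17.Helper16.KS Pool.Agent.M17.Helper33.KS

lemma cell_inj {d : ℝ} (hd : 0 < d) {k j k' j' n : ℕ} (hj : j < nc d k) (hj' : j' < nc d k')
    (hn : n ∈ cell d k j) (hn' : n ∈ cell d k' j') : k' = k ∧ j' = j := by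
  obtain ⟨a1, a2⟩ := cell_bounds hd hj hn
  obtain ⟨b1, b2⟩ := cell_bounds hd hj' hn'
  have hk : k' = k := by
    have h1 : 2 ^ k < 2 ^ (k' + 1) := lt_of_le_of_lt a1 b2
    have h2 : 2 ^ k' < 2 ^ (k + 1) := lt_of_le_of_lt b1 a2
    have h3 := (Nat.pow_lt_pow_iff_right (by norm_num : 1 < 2)).mp h1
    have h4 := (Nat.pow_lt_pow_iff_right (by norm_num : 1 < 2)).mp h2
    omega
  subst hk
  refine ⟨rfl, ?_⟩
  unfold cell at hn hn'
  rw [mem_Ico] at hn hn'
  rcases lt_trichotomy j' j with h | h | h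
  · have : (j' + 1) * 2 ^ ec d k' ≤ j * 2 ^ ec d k' := Nat.mul_le_mul_right _ h
    omega
  · exact h
  · have : (j + 1) * 2 ^ ec d k' ≤ j' * 2 ^ ec d k' := Nat.mul_le_mul_right _ h
    omega

lemma small_params (S : Sys) : S.s ≤ 1 / 10 ^ 6 ∧ 0 < S.s ∧ 5 * S.tau ≤ 1 / 10 ^ 6 ∧ 0 < S.c ∧ S.c ≤ 1 / 100 ∧
    0 < S.eta ∧ S.d ≤ 1 / 10 ^ 6 ∧ S.del ≤ 0.06 := by
  have h1 := S.d_pos
  have h2 := S.d_le
  have h3 := S.c_le
  have h4 := S.eta_le
  have h5 := S.del_le
  have hc : 0 < S.c := by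
    by_contra hcon
    push Not at hcon
    have : S.c / 10 ^ 5 ≤ 0 := div_nonpos_of_nonpos_of_nonneg hcon (by positivity)
    (clear * - h1 h2 hcon; linarith)
  have he : 0 < S.eta := by (clear * - h1 h2 h3; linarith)
  have hc1 : S.c ≤ 1 / 100 := by linarith
  have hd1 : S.d ≤ 1 / 10 ^ 6 := by
    refine h2.trans ?_
    rw [div_le_div_iff₀ (by positivity) (by positivity)]
    (clear * - h1 h2 h3 h4 h5; linarith)
  refine ⟨?_, ?_, ?_, hc, hc1, he, hd1, by (clear * - h5; linarith)⟩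
  · unfold Sys.s; (clear * - h1 h2 h3 h4 h5; linarith)
  · unfold Sys.s; (clear * - h1; linarith)
  · unfold Sys.tau Sys.ep
    have e1 : S.c * S.eta ≤ 1 := by (clear * - h2 h3 h4 h5 h1; nlinarith)
    have e2 : S.c * S.eta * S.d ≤ 1 * (1 / 10 ^ 6) := by
      apply mul_le_mul e1 hd1 h1.le (by norm_num)
    linarith

/-- number of prime factors -/
lemma omega_le {m k : ℕ} (hm : m ≠ 0) (hk : 10 ≤ k) (hlt : m < 2 ^ (k + 1))
    (hp : ∀ p : ℕ, p.Prime → p ∣ m → (2 : ℝ) ^ ((k : ℝ) / 5) ≤ p) : m.primeFactorsList.length ≤ 5 := by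
  have h1 : cm (fun _ => (2 : ℝ) ^ ((k : ℝ) / 5)) m ≤ cm (fun p => (p : ℝ) ^ (1 : ℝ)) m := by
    apply cm_mono
    · intro p _ _; positivity
    · intro p hp1 hp2
      rw [Real.rpow_one]; exact hp p hp1 hp2
  rw [cm_const _ hm, cm_rpow _ hm, Real.rpow_one] at h1
  have h2 : (m : ℝ) < 2 ^ (k + 1) := by exact_mod_cast hlt
  have h3 : (2 : ℝ) ^ ((k : ℝ) / 5 * m.primeFactorsList.length) < (2 : ℝ) ^ ((k : ℝ) + 1) := by
    rw [Real.rpow_mul (by norm_num), Real.rpow_natCast, Real.rpow_add (by norm_num), Real.rpow_one,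
      Real.rpow_natCast, ← pow_succ]
    exact lt_of_le_of_lt h1 h2
  rw [Real.rpow_lt_rpow_left_iff (by norm_num)] at h3
  have hkr : (10 : ℝ) ≤ k := by exact_mod_cast hk
  by_contra hcon
  push Not at hcon
  have h4 : (6 : ℝ) ≤ m.primeFactorsList.length := by exact_mod_cast hcon
  (clear * - h3 hkr h4; nlinarith)

/-- `W(m)` for products of elements of `R` -/
lemma W_le_base {S : Sys} {k0 k : ℕ} {R : Set ℕ} {m : ℕ} (hm : m ≠ 0) (hk : 10 ≤ k) (hlt : m < 2 ^ (k + 1))
    (hp : ∀ p : ℕ, p.Prime → p ∣ m → (2 : ℝ) ^ ((k : ℝ) / 5) ≤ p)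
    (hW : ∀ p : ℕ, p.Prime → p ∣ m → S.Wp k0 R p ≤ 1.001 * S.base p) :
    S.W k0 R m ≤ 1.01 * S.base m := by
  unfold Sys.W
  rw [CM_eq _ m hm]
  have h1 : cm (S.Wp k0 R) m ≤ cm (fun p => 1.001 * S.base p) m :=
    cm_mono (fun p _ _ => Wp_nonneg S k0 R p) hW
  refine h1.trans ?_
  rw [cm_mul_fun, cm_const _ hm]
  have h2 : cm (fun p => S.base p) m = S.base m := by
    unfold Sys.base
    exact cm_rpow _ hm
  rw [h2]
  apply mul_le_mul_of_nonneg_right _ (base_nonneg S m)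
  have h3 := omega_le hm hk hlt hp
  calc (1.001 : ℝ) ^ m.primeFactorsList.length ≤ 1.001 ^ 5 := pow_le_pow_right₀ (by norm_num) h3
    _ ≤ 1.01 := by norm_num

lemma prime_large {S : Sys} {k j : ℕ} {p : ℕ} (hp : p.Prime)
    (h : (2 : ℝ) ^ ((S.u (S.cls k j) + S.c) * k) ≤ (p : ℝ) ^ (1/2 - S.del)) :
    (2 : ℝ) ^ ((k : ℝ) / 5) ≤ p := by
  obtain ⟨-, -, -, hc, -, -, -, hdel⟩ := small_params S
  have hu := S.u_ge (S.cls k j)
  have hdel0 : 0 ≤ S.del := by
    have := S.eta_le; have := (small_params S).2.2.2.2.2.1; linarith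
  have hp1 : (1 : ℝ) ≤ p := by exact_mod_cast hp.one_lt.le
  have hk0 : (0:ℝ) ≤ k := k.cast_nonneg
  have h1 : (p : ℝ) ^ (1/2 - S.del) ≤ (p : ℝ) ^ (1/2 : ℝ) :=
    Real.rpow_le_rpow_of_exponent_le hp1 (by (clear * - hdel0; linarith))
  have h2 : (2 : ℝ) ^ ((k : ℝ) / 10) ≤ (2 : ℝ) ^ ((S.u (S.cls k j) + S.c) * k) := by
    apply Real.rpow_le_rpow_of_exponent_le (by norm_num)
    (clear * - hc hu; nlinarith)
  have h3 : (2 : ℝ) ^ ((k : ℝ) / 10) ≤ (p : ℝ) ^ (1/2 : ℝ) := h2.trans (h.trans h1)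
  have h4 : ((2 : ℝ) ^ ((k : ℝ) / 10)) ^ (2 : ℝ) ≤ ((p : ℝ) ^ (1/2 : ℝ)) ^ (2 : ℝ) :=
    Real.rpow_le_rpow (by positivity) h3 (by norm_num)
  rw [← Real.rpow_mul (by norm_num), ← Real.rpow_mul (by positivity)] at h4
  norm_num at h4
  have e : (k : ℝ) / 10 * 2 = k / 5 := by ring
  rw [e] at h4
  exact h4

lemma own_sum (S : Sys) (k0 : ℕ) (R : Set ℕ) (k j : ℕ) (hk10 : 10 ≤ k) (hKk : S.K ≤ k) (hj : j < nc S.d k)
    (hbad : S.bad k j)
    (hlow : ((S.Cand k j).card : ℝ) / 2 ≤ S.NN R k j)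
    (hW : ∀ p : ℕ, p.Prime → p ∈ R → (2 : ℝ) ^ ((k : ℝ) / 5) ≤ p → S.Wp k0 R p ≤ 1.001 * S.base p) :
    ∑ x ∈ S.act R k j, 2 * S.wo R k j x.2 * S.W k0 R x.2 ≤ 2.02 * S.G k := by
  have hkr : (10:ℝ) ≤ k := by exact_mod_cast hk10
  have hcard := S.many k hKk j hj hbad
  have hc1 := S.c1_pos
  have hNN : 0 < S.NN R k j := by
    refine lt_of_lt_of_le ?_ hlow
    have : 0 < S.c1 * 2 ^ ec S.d k / (k:ℝ) ^ 2 := by (clear * - hc1 hk10; positivity)
    (clear * - hcard this; linarith)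
  have h1 : ∀ x ∈ S.act R k j, 2 * S.wo R k j x.2 * S.W k0 R x.2 ≤ 2.02 * (S.G k / S.NN R k j * (1 / S.pr x.2)) := by
    intro x hx
    have hxa := mem_filter.mp hx
    have hcand := S.cand k hKk j hj hbad x hxa.1
    obtain ⟨c1, c2, c3, c4, c5, c6, c7⟩ := hcand
    have hx2 : x.2 ≠ 0 := by omega
    have hx1 := c1.pos
    have hlt : x.2 < 2 ^ (k + 1) := by
      have h3 := (cell_bounds S.d_pos hj c5).2
      have h4 : x.2 ≤ x.1 * x.2 := Nat.le_mul_of_pos_left x.2 hx1
      omega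
    have hpl : ∀ p : ℕ, p.Prime → p ∣ x.2 → (2 : ℝ) ^ ((k : ℝ) / 5) ≤ p := by
      intro p hp hpx
      exact prime_large hp (c6 p hp (Dvd.dvd.mul_left hpx x.1))
    have h5 : S.W k0 R x.2 ≤ 1.01 * S.base x.2 := by
      apply W_le_base hx2 hk10 hlt hpl
      intro p hp hpx
      exact hW p hp (hxa.2 p hp hpx) (hpl p hp hpx)
    have hwo := wo_nonneg S R k j x.2
    have hx2r : (0:ℝ) < x.2 := by exact_mod_cast Nat.pos_of_ne_zero hx2
    have hbase : 0 < S.base x.2 := by unfold Sys.base; positivity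
    have hpr : 0 < S.pr x.2 := by unfold Sys.pr; positivity
    calc 2 * S.wo R k j x.2 * S.W k0 R x.2 ≤ 2 * S.wo R k j x.2 * (1.01 * S.base x.2) := by (clear * - h5 hwo; gcongr)
      _ = 2.02 * (S.G k / S.NN R k j * (1 / S.pr x.2)) := by
          unfold Sys.wo
          field_simp
          norm_num
          ring
  refine (sum_le_sum h1).trans ?_
  rw [← mul_sum, ← mul_sum]
  have h2 : ∑ x ∈ S.act R k j, 1 / S.pr x.2 = S.NN R k j := rfl
  rw [h2, div_mul_cancel₀ _ hNN.ne']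

lemma HT4_le (S : Sys) (k0 : ℕ) (R : Set ℕ) (k j : ℕ) (hSK : S.K ≤ k0) (hj : j < nc S.d k) :
    S.HT k0 R k j Sys.Q4 ≤ if S.bad k j then ∑ x ∈ S.act R k j, 2 * S.wo R k j x.2 * S.W k0 R x.2 else 0 := by
  unfold Sys.HT
  -- pointwise in n
  have hpt : ∀ n ∈ cell S.d k j, ∑ k' ∈ S.hvy k0 k, ∑ j' ∈ S.badc k',
      ∑ x ∈ (S.act R k' j').filter (fun x => x.1 ∣ n ∧ Sys.Q4 (k', j') n x),
        (n.factorization x.1 : ℝ) * (2 * S.wo R k' j' x.2 * S.W k0 R (n / x.1)) ≤
      if S.bad k j then ∑ x ∈ (S.act R k j).filter (fun x => x.1 * x.2 = n),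
        2 * S.wo R k j x.2 * S.W k0 R x.2 else 0 := by
    intro n hn
    obtain ⟨hn1, hn2⟩ := cell_bounds S.d_pos hj hn
    have hn0 : n ≠ 0 := by
      have : 0 < 2 ^ k := by positivity
      omega
    have hzero : ∀ k' ∈ S.hvy k0 k, ∀ j' ∈ S.badc k', ¬ (k' = k ∧ j' = j) →
        (S.act R k' j').filter (fun x => x.1 ∣ n ∧ Sys.Q4 (k', j') n x) = ∅ := by
      intro k' hk' j' hj' hne
      rw [filter_eq_empty_iff]
      intro x hx hcon
      have hxa := mem_filter.mp hx
      have hb := mem_filter.mp hj'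
      have hk'0 : k0 ≤ k' := by
        unfold Sys.hvy at hk'
        rw [mem_Ico] at hk'
        exact (max_le_iff.mp hk'.1).1
      have hc := (S.cand k' (hSK.trans hk'0) j' (mem_range.mp hb.1) hb.2 x hxa.1).2.2.2.2.1
      have hq : n = x.1 * x.2 := hcon.2
      rw [← hq] at hc
      exact hne (cell_inj S.d_pos hj (mem_range.mp hb.1) hn hc)
    have hW0 : ∀ m : ℕ, m ≠ 0 → 0 ≤ S.W k0 R m := fun m hm => W_nonneg S k0 R hm
    by_cases hkj : k ∈ S.hvy k0 k ∧ j ∈ S.badc k
    · obtain ⟨hk1, hj1⟩ := hkj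
      have hbad : S.bad k j := (mem_filter.mp hj1).2
      have hk0k : k0 ≤ k := by
        unfold Sys.hvy at hk1
        rw [mem_Ico] at hk1
        exact (max_le_iff.mp hk1.1).1
      rw [if_pos hbad]
      rw [sum_eq_single_of_mem k hk1, sum_eq_single_of_mem j hj1]
      · have e : (S.act R k j).filter (fun x => x.1 ∣ n ∧ Sys.Q4 (k, j) n x) =
            (S.act R k j).filter (fun x => x.1 * x.2 = n) := by
          apply filter_congr
          intro x _
          unfold Sys.Q4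
          constructor
          · rintro ⟨_, h⟩; exact h.symm
          · intro h; exact ⟨⟨x.2, h.symm⟩, h.symm⟩
        rw [e]
        apply sum_le_sum
        intro x hx
        rw [mem_filter] at hx
        obtain ⟨hxa, hxn⟩ := hx
        have hxc := (mem_filter.mp hxa).1
        obtain ⟨c1, c2, c3, c4, c5, c6, c7⟩ := S.cand k (hSK.trans hk0k) j hj hbad x hxc
        have h1 : n / x.1 = x.2 := by
          rw [← hxn]; exact Nat.mul_div_cancel_left _ c1.pos
        have h2 : n.factorization x.1 ≤ 1 := by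
          rw [← hxn]
          exact c3.natFactorization_le_one _
        rw [h1]
        have h3 := wo_nonneg S R k j x.2
        have h4 := hW0 x.2 (by omega)
        have h5 : (n.factorization x.1 : ℝ) ≤ 1 := by exact_mod_cast h2
        have h6 : 0 ≤ 2 * S.wo R k j x.2 * S.W k0 R x.2 := by (clear * - h3 h4; positivity)
        (clear * - h5 h6; nlinarith)
      · intro j' hj' hne
        rw [hzero k hk1 j' hj' (fun h => hne h.2), sum_empty]
      · intro k' hk' hne
        apply sum_eq_zero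
        intro j' hj'
        rw [hzero k' hk' j' hj' (fun h => hne h.1), sum_empty]
    · have h0 : ∑ k' ∈ S.hvy k0 k, ∑ j' ∈ S.badc k',
          ∑ x ∈ (S.act R k' j').filter (fun x => x.1 ∣ n ∧ Sys.Q4 (k', j') n x),
            (n.factorization x.1 : ℝ) * (2 * S.wo R k' j' x.2 * S.W k0 R (n / x.1)) = 0 := by
        apply sum_eq_zero
        intro k' hk'
        apply sum_eq_zero
        intro j' hj'
        rw [hzero k' hk' j' hj', sum_empty]
        rintro ⟨rfl, rfl⟩
        exact hkj ⟨hk', hj'⟩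
      rw [h0]
      split_ifs with hbad
      · apply sum_nonneg
        intro x hx
        rw [mem_filter] at hx
        have h3 := wo_nonneg S R k j x.2
        have hx2 : x.2 ≠ 0 := by
          intro h
          have := hx.2
          rw [h, mul_zero] at this
          exact hn0 this.symm
        have h4 := hW0 x.2 hx2
        (clear * - h3 h4; positivity)
      · exact le_rfl
  refine (sum_le_sum hpt).trans ?_
  by_cases hbad : S.bad k j
  · simp only [hbad, if_true]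
    have hle : ∑ n ∈ cell S.d k j, ∑ x ∈ (S.act R k j).filter (fun x => x.1 * x.2 = n),
        2 * S.wo R k j x.2 * S.W k0 R x.2 =
        ∑ x ∈ (S.act R k j).filter (fun x => x.1 * x.2 ∈ cell S.d k j), 2 * S.wo R k j x.2 * S.W k0 R x.2 := by
      rw [← sum_fiberwise_of_maps_to (s := (S.act R k j).filter (fun x => x.1 * x.2 ∈ cell S.d k j))
        (t := cell S.d k j) (g := fun x => x.1 * x.2) (fun x hx => (mem_filter.mp hx).2)]
      refine sum_congr rfl fun n hn => ?_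
      congr 1
      ext x
      simp only [mem_filter]
      constructor
      · rintro ⟨a, b⟩; exact ⟨⟨a, by rw [b]; exact hn⟩, b⟩
      · rintro ⟨⟨a, _⟩, b⟩; exact ⟨a, b⟩
    rw [hle]
    apply sum_le_sum_of_subset_of_nonneg (filter_subset _ _)
    intro x _ _
    have h3 := wo_nonneg S R k j x.2
    by_cases hx2 : x.2 = 0
    · have : S.W k0 R x.2 = 1 := by rw [hx2]; unfold Sys.W CM; simp
      rw [this]; (clear * - h3; positivity)
    · have h4 := W_nonneg S k0 R hx2
      (clear * - h3 h4; positivity)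
  · simp [hbad]

/-- (H4) -/
theorem h4 (h1 : OrdLe) (h2 : CtlLe) : H4 := by
  intro S
  obtain ⟨C, K1, h1⟩ := h1 S
  obtain ⟨K2, h2⟩ := h2 S
  obtain ⟨hs1, hs0, htau, hc, hc1, heta, hd, hdel⟩ := small_params S
  obtain ⟨K3, hK3⟩ := ev_lin (1000 * (2 * |C| + 1)) 0.08 (by norm_num)
  refine ⟨max (max K1 K2) (max (max K3 S.K) 10), fun k0 hk0 R hR k hk j hj => ?_⟩
  have a1 : K1 ≤ k0 := le_trans (le_trans (le_max_left _ _) (le_max_left _ _)) hk0
  have a2 : K2 ≤ k0 := le_trans (le_trans (le_max_right _ _) (le_max_left _ _)) hk0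
  have a3 : K3 ≤ k0 := le_trans (le_trans (le_trans (le_max_left _ _) (le_max_left _ _)) (le_max_right _ _)) hk0
  have a4 : S.K ≤ k0 := le_trans (le_trans (le_trans (le_max_right _ _) (le_max_left _ _)) (le_max_right _ _)) hk0
  have a5 : 10 ≤ k0 := le_trans (le_trans (le_max_right _ _) (le_max_right _ _)) hk0
  have hG := G_nonneg S k
  have hW : ∀ p : ℕ, p.Prime → p ∈ R → (2 : ℝ) ^ ((k : ℝ) / 5) ≤ p → S.Wp k0 R p ≤ 1.001 * S.base p := by
    intro p hp hpR hpl
    obtain ⟨-, ho⟩ := h1 k0 a1 p hp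
    obtain ⟨-, hct, -⟩ := h2 k0 a2 R hR p (top p) le_rfl
    have hkr : (10:ℝ) ≤ k := by exact_mod_cast a5.trans hk
    have hp4 : (4:ℝ) ≤ p := by
      refine le_trans ?_ hpl
      calc (4:ℝ) = (2:ℝ) ^ (2:ℝ) := by norm_num
        _ ≤ _ := Real.rpow_le_rpow_of_exponent_le (by norm_num) (by (clear * - hkr; linarith))
    have hp0 : (0:ℝ) < p := by (clear * - hs1 hs0 hp4; linarith)
    have hp1 : (1:ℝ) ≤ p := by (clear * - hs1 hs0 hp4; linarith)
    have hlog : 1 ≤ Real.log p := by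
      have h3 : Real.log 4 ≤ Real.log p := Real.log_le_log (by norm_num) hp4
      have h4 : Real.log 4 = 2 * Real.log 2 := by
        rw [show (4:ℝ) = 2 ^ 2 by norm_num, Real.log_pow]; norm_num
      have := Real.log_two_gt_d9
      (clear * - hs1 hs0 h3 h4 this; linarith)
    have hlog3 : (1:ℝ) ≤ Real.log p ^ 3 := one_le_pow₀ hlog
    have hpw : (p:ℝ) ^ (S.s - 1) ≤ (p:ℝ) ^ (S.s - 1 + 5 * S.tau) := by
      apply Real.rpow_le_rpow_of_exponent_le hp1
      have := tau_pos S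
      (clear * - this; linarith)
    have ho2 : S.ordw k0 p ≤ |C| * (p:ℝ) ^ (S.s - 1 + 5 * S.tau) := by
      refine ho.trans ?_
      have e1 : (p:ℝ) ^ (S.s - 1) / Real.log p ^ 3 ≤ (p:ℝ) ^ (S.s - 1 + 5 * S.tau) :=
        (div_le_self (by positivity) hlog3).trans hpw
      calc C * ((p:ℝ) ^ (S.s - 1) / Real.log p ^ 3) ≤ |C| * ((p:ℝ) ^ (S.s - 1) / Real.log p ^ 3) := by
            apply mul_le_mul_of_nonneg_right (le_abs_self C) (by positivity)
        _ ≤ _ := mul_le_mul_of_nonneg_left e1 (abs_nonneg C)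
    have hbase : 0 < S.base p := by unfold Sys.base; positivity
    have hratio : (p:ℝ) ^ (S.s - 1 + 5 * S.tau) ≤ (p:ℝ) ^ (-(0.4:ℝ)) * S.base p := by
      unfold Sys.base
      rw [← Real.rpow_add hp0]
      apply Real.rpow_le_rpow_of_exponent_le hp1
      (clear * - hs1 hs0 htau hdel; linarith)
    have hsm : 1000 * (2 * |C| + 1) * (p:ℝ) ^ (-(0.4:ℝ)) ≤ 1 := by
      have e2 : (2:ℝ) ^ ((0.08:ℝ) * k) ≤ (p:ℝ) ^ (0.4:ℝ) := by
        have : ((2 : ℝ) ^ ((k : ℝ) / 5)) ^ (0.4:ℝ) ≤ (p:ℝ) ^ (0.4:ℝ) :=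
          Real.rpow_le_rpow (by positivity) hpl (by norm_num)
        rw [← Real.rpow_mul (by norm_num)] at this
        have e3 : (k:ℝ) / 5 * 0.4 = 0.08 * k := by ring
        rwa [e3] at this
      have e4 := (hK3 k (a3.trans hk)).trans e2
      have e5 : 1000 * (2 * |C| + 1) ≤ (p:ℝ) ^ (0.4:ℝ) := by
        refine le_trans ?_ e4
        have : 0 ≤ 1000 * (2 * |C| + 1) := by (clear * -; positivity)
        (clear * - this; nlinarith)
      rw [Real.rpow_neg hp0.le, ← div_eq_mul_inv, div_le_one (by positivity)]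
      exact e5
    unfold Sys.Wp Sys.bR
    rw [if_pos hpR]
    have hA := abs_nonneg C
    calc S.base p + 2 * S.ordw k0 p + 2 * S.ctl k0 (top p) R p ≤
        S.base p + 2 * (|C| * (p:ℝ) ^ (S.s - 1 + 5 * S.tau)) + (p:ℝ) ^ (S.s - 1 + 5 * S.tau) := by
          (clear * - hct ho2; linarith)
      _ = S.base p + (2 * |C| + 1) * (p:ℝ) ^ (S.s - 1 + 5 * S.tau) := by ring
      _ ≤ S.base p + (2 * |C| + 1) * ((p:ℝ) ^ (-(0.4:ℝ)) * S.base p) := by (clear * - hratio; gcongr)
      _ = S.base p + (1000 * (2 * |C| + 1) * (p:ℝ) ^ (-(0.4:ℝ))) * S.base p / 1000 := by ring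
      _ ≤ S.base p + 1 * S.base p / 1000 := by (clear * - hsm hbase; gcongr)
      _ = 1.001 * S.base p := by ring
  refine (HT4_le S k0 R k j a4 hj).trans ?_
  by_cases hbad : S.bad k j
  · simp only [hbad, if_true]
    have hjb : j ∈ S.badc k := mem_filter.mpr ⟨mem_range.mpr hj, hbad⟩
    have := own_sum S k0 R k j (a5.trans hk) (a4.trans hk) hj hbad (hR.lower k hk j hjb) hW
    (clear * - hG this; linarith)
  · simp only [hbad, if_false]
    (clear * - hG; linarith)

end Pool.Agent.M17.Helper60.KX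
end

/- Helper53.KN.Helper6.KSZ.AreaMean -/
section
/-! Area mean value property of holomorphic functions (project KSZ, input A12). -/

set_option autoImplicit false
open MeasureTheory Metric Set Complex
open scoped Real

namespace Pool.Agent.M17.Helper6.KSZ

theorem circle_int (G : ℂ → ℂ) (hG : Differentiable ℂ G) (z : ℂ) (ρ : ℝ) :
    ∫ θ in Ioo (-π) π, G (z + ρ * exp (θ * I)) = (2 * π) • G z := by
  have h1 : Real.circleAverage G z ρ = G z := by
    apply DiffContOnCl.circleAverage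
    exact hG.diffContOnCl
  have h2 := Real.circleAverage_eq_integral_add (f := G) (c := z) (R := ρ) (-π)
  rw [h1] at h2
  have h3 : ∫ θ in Ioo (-π) π, G (z + ρ * exp (θ * I)) = ∫ θ in (-π)..π, G (circleMap z ρ θ) := by
    rw [intervalIntegral.integral_of_le (by linarith [Real.pi_pos]), integral_Ioc_eq_integral_Ioo]
    rfl
  have h4 : ∫ θ in (-π)..π, G (circleMap z ρ θ) = ∫ θ in (0 : ℝ)..2 * π, G (circleMap z ρ (θ + -π)) := by
    have := intervalIntegral.integral_comp_add_right (a := 0) (b := 2 * π)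
      (fun θ => G (circleMap z ρ θ)) (-π)
    rw [this]
    congr 1 <;> ring
  rw [h3, h4]
  have hpi : (2 * π) ≠ 0 := by positivity
  rw [h2, smul_smul, mul_inv_cancel₀ hpi, one_smul]

theorem area_mean (G : ℂ → ℂ) (hG : Differentiable ℂ G) (z : ℂ) (r : ℝ) (hr : 0 ≤ r) :
    ∫ w in closedBall z r, G w = (π * r ^ 2) • G z := by
  have hpi := Real.pi_pos
  have e1 : ∫ w in closedBall z r, G w = ∫ w in closedBall (0 : ℂ) r, G (z + w) := by
    have := (measurePreserving_add_left (volume : Measure ℂ) z).setIntegral_preimage_emb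
      (measurableEmbedding_addLeft z) G (closedBall z r)
    rw [← this]
    congr 2
    ext w
    simp [mem_closedBall, dist_eq_norm]
  have e2 : ∫ w in closedBall (0 : ℂ) r, G (z + w) =
      ∫ w, (closedBall (0 : ℂ) r).indicator (fun w => G (z + w)) w := by
    rw [integral_indicator measurableSet_closedBall]
  have e3 := Complex.integral_comp_polarCoord_symm
    ((closedBall (0 : ℂ) r).indicator (fun w => G (z + w)))
  have e4 : ∫ p in polarCoord.target,
      p.1 • ((closedBall (0 : ℂ) r).indicator (fun w => G (z + w)) (Complex.polarCoord.symm p)) =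
      ∫ p in (Ioc 0 r ×ˢ Ioo (-π) π), (fun p : ℝ × ℝ => p.1 • G (z + p.1 * exp (p.2 * I))) p := by
    have hT : polarCoord.target = Ioi (0 : ℝ) ×ˢ Ioo (-π) π := polarCoord_target
    rw [hT]
    have hsub : Ioc (0:ℝ) r ×ˢ Ioo (-π) π ⊆ Ioi (0 : ℝ) ×ˢ Ioo (-π) π :=
      prod_mono (fun x hx => hx.1) subset_rfl
    have hm : MeasurableSet (Ioc (0:ℝ) r ×ˢ Ioo (-π) π) := measurableSet_Ioc.prod measurableSet_Ioo
    have k1 : ∫ p in Ioi (0 : ℝ) ×ˢ Ioo (-π) π,
        p.1 • ((closedBall (0 : ℂ) r).indicator (fun w => G (z + w)) (Complex.polarCoord.symm p)) =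
        ∫ p in Ioc (0:ℝ) r ×ˢ Ioo (-π) π,
        p.1 • ((closedBall (0 : ℂ) r).indicator (fun w => G (z + w)) (Complex.polarCoord.symm p)) := by
      refine setIntegral_eq_of_subset_of_forall_sdiff_eq_zero
        (measurableSet_Ioi.prod measurableSet_Ioo) hsub ?_
      rintro ⟨a, b⟩ ⟨⟨ha, hb⟩, hn⟩
      rw [indicator_of_notMem, smul_zero]
      rw [mem_closedBall_zero_iff, norm_polarCoord_symm]
      intro h
      apply hn
      have ha' : (0 : ℝ) < a := ha
      simp only [abs_of_pos ha'] at h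
      exact ⟨⟨ha, h⟩, hb⟩
    rw [k1]
    refine setIntegral_congr_fun hm ?_
    rintro ⟨a, b⟩ ⟨ha, hb⟩
    have hmem : Complex.polarCoord.symm (a, b) ∈ closedBall (0 : ℂ) r := by
      rw [mem_closedBall_zero_iff, norm_polarCoord_symm]
      have ha' : (0 : ℝ) < a ∧ a ≤ r := ha
      simp only [abs_of_pos ha'.1]
      exact ha'.2
    simp only
    rw [indicator_of_mem hmem, Complex.polarCoord_symm_apply]
    simp only [Complex.ofReal_cos, Complex.ofReal_sin, Complex.exp_mul_I]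
  have hcont : Continuous (fun p : ℝ × ℝ => p.1 • G (z + p.1 * exp (p.2 * I))) := by
    have := hG.continuous
    fun_prop
  have e5 : ∫ p in (Ioc 0 r ×ˢ Ioo (-π) π), (fun p : ℝ × ℝ => p.1 • G (z + p.1 * exp (p.2 * I))) p =
      ∫ ρ in Ioc 0 r, ∫ θ in Ioo (-π) π, ρ • G (z + ρ * exp (θ * I)) := by
    rw [Measure.volume_eq_prod, setIntegral_prod]
    rw [← Measure.volume_eq_prod]
    have hc : IntegrableOn (fun p : ℝ × ℝ => p.1 • G (z + p.1 * exp (p.2 * I)))
        (Icc 0 r ×ˢ Icc (-π) π) := hcont.continuousOn.integrableOn_compact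
          (isCompact_Icc.prod isCompact_Icc)
    exact hc.mono_set (prod_mono Ioc_subset_Icc_self Ioo_subset_Icc_self)
  have e6 : ∫ ρ in Ioc 0 r, ∫ θ in Ioo (-π) π, ρ • G (z + ρ * exp (θ * I)) =
      ∫ ρ in Ioc 0 r, ρ • ((2 * π) • G z) := by
    refine setIntegral_congr_fun measurableSet_Ioc ?_
    intro ρ _
    simp only
    rw [integral_smul, circle_int G hG z ρ]
  rw [e1, e2, ← e3, e4, e5, e6, integral_smul_const, ← intervalIntegral.integral_of_le hr,
    integral_id, smul_smul]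
  congr 1
  ring

/-- (A12) subharmonicity of the modulus, area form -/
theorem norm_le_area (G : ℂ → ℂ) (hG : Differentiable ℂ G) (z : ℂ) (r : ℝ) (hr : 0 < r) :
    ‖G z‖ ≤ 1 / (π * r ^ 2) * ∫ w in closedBall z r, ‖G w‖ := by
  have hpi := Real.pi_pos
  have h := area_mean G hG z r hr.le
  have h2 : (π * r ^ 2) * ‖G z‖ ≤ ∫ w in closedBall z r, ‖G w‖ := by
    calc (π * r ^ 2) * ‖G z‖ = ‖(π * r ^ 2) • G z‖ := by
          rw [norm_smul, Real.norm_eq_abs, abs_of_pos (by positivity)]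
      _ = ‖∫ w in closedBall z r, G w‖ := by rw [h]
      _ ≤ _ := norm_integral_le_integral_norm _
  rw [one_div, inv_mul_eq_div, le_div_iff₀ (by positivity)]
  linarith

/-- the same for powers -/
theorem pow_le_area (F : ℂ → ℂ) (hF : Differentiable ℂ F) (m : ℕ) (z : ℂ) (r : ℝ) (hr : 0 < r) :
    ‖F z‖ ^ m ≤ 1 / (π * r ^ 2) * ∫ w in closedBall z r, ‖F w‖ ^ m := by
  have := norm_le_area (fun w => F w ^ m) (hF.pow m) z r hr
  simpa only [norm_pow] using this

/-- sum over separated points -/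
theorem sum_le_area {ι : Type*} (s : Finset ι) (pt : ι → ℂ) (F : ℂ → ℂ) (hF : Differentiable ℂ F)
    (m : ℕ) (r : ℝ) (hr : 0 < r) (hsep : ∀ i ∈ s, ∀ j ∈ s, i ≠ j → 2 * r < dist (pt i) (pt j))
    (Ω : Set ℂ) (hsub : ∀ i ∈ s, closedBall (pt i) r ⊆ Ω)
    (hint : IntegrableOn (fun w => ‖F w‖ ^ m) Ω) :
    ∑ i ∈ s, ‖F (pt i)‖ ^ m ≤ 1 / (π * r ^ 2) * ∫ w in Ω, ‖F w‖ ^ m := by
  have hpi := Real.pi_pos
  have h1 : ∑ i ∈ s, ‖F (pt i)‖ ^ m ≤
      ∑ i ∈ s, 1 / (π * r ^ 2) * ∫ w in closedBall (pt i) r, ‖F w‖ ^ m :=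
    Finset.sum_le_sum (fun i _ => pow_le_area F hF m (pt i) r hr)
  refine h1.trans ?_
  rw [← Finset.mul_sum]
  apply mul_le_mul_of_nonneg_left _ (by positivity)
  have hd : (↑s : Set ι).PairwiseDisjoint (fun i => closedBall (pt i) r) := by
    intro i hi j hj hij
    apply closedBall_disjoint_closedBall
    have := hsep i hi j hj hij
    linarith
  have h2 : ∑ i ∈ s, ∫ w in closedBall (pt i) r, ‖F w‖ ^ m =
      ∫ w in ⋃ i ∈ s, closedBall (pt i) r, ‖F w‖ ^ m := by
    rw [integral_biUnion_finset s (fun i _ => measurableSet_closedBall) hd]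
    intro i hi
    exact hint.mono_set (hsub i hi)
  rw [h2]
  apply setIntegral_mono_set hint
  · exact Filter.Eventually.of_forall (fun w => by positivity)
  · apply LE.le.eventuallyLE
    exact iUnion₂_subset hsub

end Pool.Agent.M17.Helper6.KSZ
end

/- Helper53.KN.Helper6.KSZ.MeanValue -/
section
/-! Mean values (project KSZ, inputs A11, A11', A12, A12', A13). -/

set_option autoImplicit false
open MeasureTheory Finset
open scoped Real

namespace Pool.Agent.M17.Helper6.KSZ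

open Pool.Agent.M17.Helper10.KSZ

/-! ### bins -/

section bins

variable {ι : Type} (S : Finset ι) (a : ι → ℝ) (b : ι → ℤ)

noncomputable def binSum (γ : ℤ) : ℝ := ∑ k ∈ S.filter (fun k => b k = γ), a k

theorem binSum_zero {γ : ℤ} (h : γ ∉ S.image b) : binSum S a b γ = 0 := by
  unfold binSum
  rw [Finset.sum_eq_zero]
  intro k hk
  exfalso
  exact h (Finset.mem_image.2 ⟨k, (Finset.mem_filter.1 hk).1, (Finset.mem_filter.1 hk).2⟩)

theorem pair_shift (d : ℤ) :
    ∑ j ∈ S, ∑ k ∈ S, (if b k = b j + d then a j * a k else 0) =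
      ∑ β ∈ S.image b, binSum S a b β * binSum S a b (β + d) := by
  have h1 : ∀ j ∈ S, ∑ k ∈ S, (if b k = b j + d then a j * a k else 0) =
      a j * binSum S a b (b j + d) := by
    intro j _
    unfold binSum
    rw [Finset.mul_sum, Finset.sum_filter]
  rw [Finset.sum_congr rfl h1]
  rw [← Finset.sum_fiberwise_of_maps_to (t := S.image b) (g := b)
    (fun j hj => Finset.mem_image_of_mem _ hj)]
  refine Finset.sum_congr rfl (fun β _ => ?_)
  unfold binSum
  rw [Finset.sum_mul]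
  refine Finset.sum_congr rfl (fun j hj => ?_)
  rw [(Finset.mem_filter.1 hj).2]

theorem shift_le (d : ℤ) :
    ∑ β ∈ S.image b, binSum S a b (β + d) ^ 2 ≤ ∑ β ∈ S.image b, binSum S a b β ^ 2 := by
  have h1 : ∑ β ∈ S.image b, binSum S a b (β + d) ^ 2 =
      ∑ γ ∈ (S.image b).image (fun β => β + d), binSum S a b γ ^ 2 := by
    rw [Finset.sum_image (s := S.image b) (g := fun β => β + d)
      (fun x _ y _ h => by simpa using h)]
  rw [h1]
  have h2 : ∑ γ ∈ (S.image b).image (fun β => β + d), binSum S a b γ ^ 2 =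
      ∑ γ ∈ ((S.image b).image (fun β => β + d)).filter (fun γ => γ ∈ S.image b),
        binSum S a b γ ^ 2 := by
    rw [Finset.sum_filter]
    refine Finset.sum_congr rfl (fun γ _ => ?_)
    by_cases h : γ ∈ S.image b
    · rw [if_pos h]
    · rw [if_neg h, binSum_zero S a b h]; norm_num
  rw [h2]
  refine Finset.sum_le_sum_of_subset_of_nonneg ?_ (fun γ _ _ => sq_nonneg _)
  intro γ hγ
  exact (Finset.mem_filter.1 hγ).2

theorem pair_shift_le (d : ℤ) :
    ∑ j ∈ S, ∑ k ∈ S, (if b k = b j + d then a j * a k else 0) ≤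
      ∑ β ∈ S.image b, binSum S a b β ^ 2 := by
  rw [pair_shift]
  have h1 : ∑ β ∈ S.image b, binSum S a b β * binSum S a b (β + d) ≤
      ∑ β ∈ S.image b, (binSum S a b β ^ 2 / 2 + binSum S a b (β + d) ^ 2 / 2) := by
    refine Finset.sum_le_sum (fun β _ => ?_)
    (clear * -; nlinarith [sq_nonneg (binSum S a b β - binSum S a b (β + d))])
  refine h1.trans ?_
  rw [Finset.sum_add_distrib, ← Finset.sum_div, ← Finset.sum_div]
  have := shift_le S a b d
  (clear * - this; linarith)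

theorem pair_le (ha : ∀ j ∈ S, 0 ≤ a j) (m : ℕ) :
    ∑ j ∈ S, ∑ k ∈ S, (if |b j - b k| ≤ m then a j * a k else 0) ≤
      (2 * m + 1) * ∑ β ∈ S.image b, binSum S a b β ^ 2 := by
  have h1 : ∀ j ∈ S, ∀ k ∈ S, (if |b j - b k| ≤ m then a j * a k else 0) ≤
      ∑ d ∈ Finset.Icc (-(m : ℤ)) m, (if b k = b j + d then a j * a k else 0) := by
    intro j hj k hk
    have hnn : 0 ≤ a j * a k := mul_nonneg (ha j hj) (ha k hk)
    by_cases h : |b j - b k| ≤ m
    · rw [if_pos h]
      have hmem : b k - b j ∈ Finset.Icc (-(m : ℤ)) m := by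
        rw [abs_le] at h
        rw [Finset.mem_Icc]
        omega
      refine le_trans (le_of_eq ?_) (Finset.single_le_sum (f := fun d =>
        (if b k = b j + d then a j * a k else 0)) (fun d _ => ?_) hmem)
      · rw [if_pos (by ring)]
      · split_ifs
        · exact hnn
        · exact le_rfl
    · rw [if_neg h]
      refine Finset.sum_nonneg (fun d _ => ?_)
      split_ifs
      · exact hnn
      · exact le_rfl
  calc ∑ j ∈ S, ∑ k ∈ S, (if |b j - b k| ≤ m then a j * a k else 0) ≤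
        ∑ j ∈ S, ∑ k ∈ S, ∑ d ∈ Finset.Icc (-(m : ℤ)) m, (if b k = b j + d then a j * a k else 0) :=
        Finset.sum_le_sum (fun j hj => Finset.sum_le_sum (fun k hk => h1 j hj k hk))
    _ = ∑ d ∈ Finset.Icc (-(m : ℤ)) m, ∑ j ∈ S, ∑ k ∈ S,
        (if b k = b j + d then a j * a k else 0) := by
        rw [Finset.sum_comm]
        rw [Finset.sum_congr rfl (fun k _ => Finset.sum_comm)]
        rw [Finset.sum_comm]
        refine Finset.sum_congr rfl (fun d _ => ?_)
        rw [Finset.sum_comm]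
    _ ≤ ∑ d ∈ Finset.Icc (-(m : ℤ)) m, ∑ β ∈ S.image b, binSum S a b β ^ 2 :=
        Finset.sum_le_sum (fun d _ => pair_shift_le S a b d)
    _ = _ := by
        rw [Finset.sum_const, Int.card_Icc, nsmul_eq_mul]
        congr 1
        have : ((m : ℤ) + 1 - -(m : ℤ)).toNat = 2 * m + 1 := by omega
        rw [this]
        push_cast
        ring

theorem diag_eq :
    ∑ β ∈ S.image b, binSum S a b β ^ 2 =
      ∑ j ∈ S, ∑ k ∈ S, (if b k = b j then a j * a k else 0) := by
  have := pair_shift S a b 0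
  simp only [add_zero] at this
  rw [this]
  refine Finset.sum_congr rfl (fun β _ => ?_)
  ring

end bins

/-- (A11') with the better constant `2m+1` -/
theorem a11'_strong (ι : Type) (S : Finset ι) (a : ι → ℝ) (y : ι → ℝ) (T : ℝ) (m : ℕ)
    (hT : 0 < T) (ha : ∀ j ∈ S, 0 ≤ a j) :
    (∑ j ∈ S, ∑ k ∈ S, if |y j - y k| ≤ m / T then a j * a k else 0) ≤
      (2 * m + 1) * ∑ j ∈ S, ∑ k ∈ S, if |y j - y k| ≤ 1 / T then a j * a k else 0 := by
  set b : ι → ℤ := fun j => ⌊T * y j⌋ with hb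
  have h1 : (∑ j ∈ S, ∑ k ∈ S, if |y j - y k| ≤ m / T then a j * a k else 0) ≤
      ∑ j ∈ S, ∑ k ∈ S, (if |b j - b k| ≤ m then a j * a k else 0) := by
    refine Finset.sum_le_sum (fun j hj => Finset.sum_le_sum (fun k hk => ?_))
    have hnn : 0 ≤ a j * a k := mul_nonneg (ha j hj) (ha k hk)
    by_cases h : |y j - y k| ≤ m / T
    · rw [if_pos h, if_pos]
      rw [abs_le, neg_le_iff_add_nonneg] at h ⊢
      have e1 : T * y j ≤ T * y k + m := by
        have : y j - y k ≤ m / T := h.2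
        rw [le_div_iff₀ hT] at this
        (clear * - this; linarith)
      have e2 : T * y k ≤ T * y j + m := by
        have : y k - y j ≤ m / T := by (clear * - h; linarith [h.1])
        rw [le_div_iff₀ hT] at this
        (clear * - this; linarith)
      have f1 := Int.floor_le_floor e1
      have f2 := Int.floor_le_floor e2
      rw [Int.floor_add_natCast] at f1 f2
      simp only [hb]
      constructor <;> omega
    · rw [if_neg h]
      split_ifs
      · exact hnn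
      · exact le_rfl
  have h2 := pair_le S a b ha m
  have h3 : ∑ β ∈ S.image b, binSum S a b β ^ 2 ≤
      ∑ j ∈ S, ∑ k ∈ S, if |y j - y k| ≤ 1 / T then a j * a k else 0 := by
    rw [diag_eq]
    refine Finset.sum_le_sum (fun j hj => Finset.sum_le_sum (fun k hk => ?_))
    have hnn : 0 ≤ a j * a k := mul_nonneg (ha j hj) (ha k hk)
    by_cases h : b k = b j
    · rw [if_pos h, if_pos]
      have e1 := Int.abs_sub_lt_one_of_floor_eq_floor (R := ℝ) h.symm
      rw [← mul_sub, abs_mul, abs_of_pos hT] at e1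
      rw [le_div_iff₀ hT]
      (clear * - e1; linarith)
    · rw [if_neg h]
      split_ifs
      · exact hnn
      · exact le_rfl
  refine h1.trans (h2.trans ?_)
  exact mul_le_mul_of_nonneg_left h3 (by (clear * -; positivity))

/-! ### Gaussian mean value -/

/-- the kernel as complex function -/
noncomputable def gk (T u t : ℝ) : ℂ :=
  ((Real.exp (-(t / T) ^ 2) : ℝ) : ℂ) * Complex.exp (Complex.I * (u * t : ℝ))

theorem gk_eq (T u t : ℝ) (hT : 0 < T) :
    gk T u t = Complex.exp (Complex.I * (u : ℂ) * t) * Complex.exp (-((1 / T ^ 2 : ℝ) : ℂ) * (t : ℂ) ^ 2) := by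
  unfold gk
  rw [mul_comm, Complex.ofReal_exp]
  congr 1
  · congr 1; push_cast; ring
  · congr 1
    push_cast
    have : (T : ℂ) ≠ 0 := by exact_mod_cast hT.ne'
    (clear * - this; field_simp)

theorem gk_integral (T u : ℝ) (hT : 0 < T) :
    ‖∫ t : ℝ, gk T u t‖ = Real.sqrt π * T * Real.exp (-(T * u) ^ 2 / 4) := by
  have hpi := Real.pi_pos
  have hb : 0 < (((1 / T ^ 2 : ℝ) : ℂ)).re := by
    rw [Complex.ofReal_re]; (clear * - hT; positivity)
  have h := fourierIntegral_gaussian hb (u : ℂ)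
  simp only [gk_eq T u _ hT]
  rw [h, norm_mul]
  congr 1
  · have e : ((π : ℂ) / ((1 / T ^ 2 : ℝ) : ℂ)) = ((π * T ^ 2 : ℝ) : ℂ) := by
      push_cast
      have : (T : ℂ) ≠ 0 := by exact_mod_cast hT.ne'
      (clear * - this; field_simp)
    rw [e, show (1 / 2 : ℂ) = (((1 / 2 : ℝ)) : ℂ) by push_cast; ring, ← Complex.ofReal_cpow (by positivity),
      Complex.norm_real, Real.norm_eq_abs, abs_of_nonneg (by positivity), ← Real.sqrt_eq_rpow,
      Real.sqrt_mul hpi.le, Real.sqrt_sq hT.le]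
  · have e : (-(u : ℂ) ^ 2 / (4 * ((1 / T ^ 2 : ℝ) : ℂ))) = ((-(T * u) ^ 2 / 4 : ℝ) : ℂ) := by
      push_cast
      have : (T : ℂ) ≠ 0 := by exact_mod_cast hT.ne'
      (clear * - this; field_simp)
    rw [e, ← Complex.ofReal_exp, Complex.norm_real, Real.norm_eq_abs, abs_of_nonneg (by positivity)]

theorem gk_integrable (T u : ℝ) (hT : 0 < T) : Integrable (gk T u) := by
  by_contra H
  have h := gk_integral T u hT
  rw [integral_undef H, norm_zero] at h
  have : 0 < Real.sqrt π * T * Real.exp (-(T * u) ^ 2 / 4) := by positivity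
  (clear * - h this; linarith)

section mv

variable {ι : Type} (S : Finset ι) (a : ι → ℂ) (y : ι → ℝ) (T : ℝ)

theorem mv_expand (t : ℝ) :
    ((Real.exp (-(t / T) ^ 2) *
      ‖∑ j ∈ S, a j * Complex.exp (Complex.I * (y j * t : ℝ))‖ ^ 2 : ℝ) : ℂ) =
    ∑ j ∈ S, ∑ k ∈ S, (a j * (starRingEnd ℂ) (a k)) * gk T (y j - y k) t := by
  push_cast
  rw [← Complex.mul_conj', map_sum, Finset.sum_mul_sum, Finset.mul_sum]
  refine Finset.sum_congr rfl (fun j _ => ?_)
  rw [Finset.mul_sum]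
  refine Finset.sum_congr rfl (fun k _ => ?_)
  unfold gk
  have e : Complex.exp (Complex.I * ((y j - y k) * t : ℝ)) =
      Complex.exp (Complex.I * (y j * t : ℝ)) *
        (starRingEnd ℂ) (Complex.exp (Complex.I * (y k * t : ℝ))) := by
    rw [← Complex.exp_conj, ← Complex.exp_add]
    congr 1
    simp only [map_mul, Complex.conj_I, Complex.conj_ofReal]
    push_cast
    ring
  rw [e, map_mul, Complex.ofReal_exp]
  push_cast
  ring

theorem mv_integrable (hT : 0 < T) :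
    Integrable (fun t : ℝ => Real.exp (-(t / T) ^ 2) *
      ‖∑ j ∈ S, a j * Complex.exp (Complex.I * (y j * t : ℝ))‖ ^ 2) := by
  have h : Integrable (fun t : ℝ => ∑ j ∈ S, ∑ k ∈ S,
      (a j * (starRingEnd ℂ) (a k)) * gk T (y j - y k) t) :=
    integrable_finsetSum _ (fun j _ => integrable_finsetSum _ (fun k _ =>
      (gk_integrable T _ hT).const_mul _))
  have h2 : Integrable (fun t : ℝ => ((Real.exp (-(t / T) ^ 2) *
      ‖∑ j ∈ S, a j * Complex.exp (Complex.I * (y j * t : ℝ))‖ ^ 2 : ℝ) : ℂ)) := by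
    simp only [mv_expand]
    exact h
  have h3 := h2.re
  simpa only [RCLike.re_eq_complex_re, Complex.ofReal_re] using h3

theorem mv_le (hT : 0 < T) :
    ∫ t : ℝ, Real.exp (-(t / T) ^ 2) *
      ‖∑ j ∈ S, a j * Complex.exp (Complex.I * (y j * t : ℝ))‖ ^ 2 ≤
    Real.sqrt π * T * ∑ j ∈ S, ∑ k ∈ S, (‖a j‖ * ‖a k‖) *
      Real.exp (-(T * (y j - y k)) ^ 2 / 4) := by
  set f : ℝ → ℝ := fun t => Real.exp (-(t / T) ^ 2) *
      ‖∑ j ∈ S, a j * Complex.exp (Complex.I * (y j * t : ℝ))‖ ^ 2 with hf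
  have h1 : ((∫ t : ℝ, f t : ℝ) : ℂ) = ∑ j ∈ S, ∑ k ∈ S,
      (a j * (starRingEnd ℂ) (a k)) * ∫ t : ℝ, gk T (y j - y k) t := by
    rw [← integral_complex_ofReal]
    simp only [hf, mv_expand]
    rw [integral_finsetSum]
    · refine Finset.sum_congr rfl (fun j _ => ?_)
      rw [integral_finsetSum]
      · refine Finset.sum_congr rfl (fun k _ => ?_)
        rw [integral_const_mul]
      · intro k _
        exact (gk_integrable T _ hT).const_mul _
    · intro j _
      exact integrable_finsetSum _ (fun k _ => (gk_integrable T _ hT).const_mul _)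
  have h2 : ∫ t : ℝ, f t ≤ ‖((∫ t : ℝ, f t : ℝ) : ℂ)‖ := by
    rw [Complex.norm_real]
    exact le_abs_self _
  refine h2.trans ?_
  rw [h1]
  refine (norm_sum_le _ _).trans ?_
  rw [Finset.mul_sum]
  refine Finset.sum_le_sum (fun j _ => (norm_sum_le _ _).trans ?_)
  rw [Finset.mul_sum]
  refine Finset.sum_le_sum (fun k _ => le_of_eq ?_)
  rw [norm_mul, norm_mul, RCLike.norm_conj, gk_integral T _ hT]
  ring

end mv

/-! ### from Gaussian weights to pairs at distance `1/T` -/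

theorem gw_summable : Summable (fun m : ℕ => Real.exp (-(m : ℝ) ^ 2 / 4) * (2 * (m : ℝ) + 3)) := by
  have h1 : Summable (fun m : ℕ => Real.exp 1 * (2 * ((m : ℝ) ^ 1 * Real.exp (-1) ^ m) +
      3 * ((m : ℝ) ^ 0 * Real.exp (-1) ^ m))) := by
    have hr : ‖Real.exp (-1)‖ < 1 := by
      rw [Real.norm_eq_abs, abs_of_pos (Real.exp_pos _)]
      have := Real.exp_lt_exp.2 (show (-1 : ℝ) < 0 by norm_num)
      rwa [Real.exp_zero] at this
    exact (((summable_pow_mul_geometric_of_norm_lt_one 1 hr).mul_left 2).add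
      ((summable_pow_mul_geometric_of_norm_lt_one 0 hr).mul_left 3)).mul_left _
  refine Summable.of_nonneg_of_le (fun m => by (clear * -; positivity)) (fun m => ?_) h1
  have e1 : Real.exp (-(m : ℝ) ^ 2 / 4) ≤ Real.exp 1 * Real.exp (-1) ^ m := by
    rw [← Real.exp_nat_mul, ← Real.exp_add]
    apply Real.exp_le_exp.2
    nlinarith [sq_nonneg ((m : ℝ) / 2 - 1)]
  have e2 : (0 : ℝ) ≤ 2 * m + 3 := by (clear * -; positivity)
  calc Real.exp (-(m : ℝ) ^ 2 / 4) * (2 * (m : ℝ) + 3) ≤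
        (Real.exp 1 * Real.exp (-1) ^ m) * (2 * (m : ℝ) + 3) := mul_le_mul_of_nonneg_right e1 e2
    _ = _ := by ring

theorem gw_pairs {ι : Type} (S : Finset ι) (c : ι → ℝ) (y : ι → ℝ) (T : ℝ) (hT : 0 < T)
    (hc : ∀ j ∈ S, 0 ≤ c j) :
    ∑ j ∈ S, ∑ k ∈ S, (c j * c k) * Real.exp (-(T * (y j - y k)) ^ 2 / 4) ≤
      (∑' m : ℕ, Real.exp (-(m : ℝ) ^ 2 / 4) * (2 * (m : ℝ) + 3)) *
        ∑ j ∈ S, ∑ k ∈ S, if |y j - y k| ≤ 1 / T then c j * c k else 0 := by
  set D := ∑ j ∈ S, ∑ k ∈ S, if |y j - y k| ≤ 1 / T then c j * c k else 0 with hD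
  have hD0 : 0 ≤ D := by
    refine Finset.sum_nonneg (fun j hj => Finset.sum_nonneg (fun k hk => ?_))
    split_ifs
    · exact mul_nonneg (hc j hj) (hc k hk)
    · exact le_rfl
  -- a common bound for the distances
  obtain ⟨M, hM⟩ : ∃ M : ℕ, ∀ j ∈ S, ∀ k ∈ S, T * |y j - y k| < M := by
    obtain ⟨M, hM⟩ := exists_nat_gt (∑ j ∈ S, ∑ k ∈ S, T * |y j - y k|)
    refine ⟨M, fun j hj k hk => lt_of_le_of_lt ?_ hM⟩
    calc T * |y j - y k| ≤ ∑ k ∈ S, T * |y j - y k| :=
          Finset.single_le_sum (f := fun k => T * |y j - y k|) (fun k _ => by (clear * - hT; positivity)) hk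
      _ ≤ _ := Finset.single_le_sum (f := fun j => ∑ k ∈ S, T * |y j - y k|)
          (fun j _ => Finset.sum_nonneg (fun k _ => by (clear * - hT; positivity))) hj
  have h1 : ∀ j ∈ S, ∀ k ∈ S, (c j * c k) * Real.exp (-(T * (y j - y k)) ^ 2 / 4) ≤
      ∑ m ∈ Finset.range M, Real.exp (-(m : ℝ) ^ 2 / 4) *
        (if |y j - y k| ≤ ((m + 1 : ℕ) : ℝ) / T then c j * c k else 0) := by
    intro j hj k hk
    have hnn : 0 ≤ c j * c k := mul_nonneg (hc j hj) (hc k hk)
    set x := T * |y j - y k| with hx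
    have hx0 : 0 ≤ x := by (clear * - hT; positivity)
    have hxM := hM j hj k hk
    have hfl : ⌊x⌋₊ ∈ Finset.range M := by
      rw [Finset.mem_range]
      exact (Nat.floor_lt hx0).2 hxM
    refine le_trans ?_ (Finset.single_le_sum (f := fun m : ℕ => Real.exp (-(m : ℝ) ^ 2 / 4) *
        (if |y j - y k| ≤ ((m + 1 : ℕ) : ℝ) / T then c j * c k else 0)) (fun m _ => ?_) hfl)
    · rw [if_pos]
      · rw [mul_comm]
        apply mul_le_mul_of_nonneg_right _ hnn
        apply Real.exp_le_exp.2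
        have e1 : (T * (y j - y k)) ^ 2 = x ^ 2 := by
          rw [hx, mul_pow, mul_pow, sq_abs]
        have e2 := Nat.floor_le hx0
        have e3 : (0 : ℝ) ≤ (⌊x⌋₊ : ℝ) := Nat.cast_nonneg _
        rw [e1]
        (clear * - e2 hx0; nlinarith)
      · rw [le_div_iff₀ hT]
        have := (Nat.lt_floor_add_one x).le
        push_cast
        (clear * - this; linarith)
    · split_ifs
      · (clear * - hnn; positivity)
      · simp
  calc ∑ j ∈ S, ∑ k ∈ S, (c j * c k) * Real.exp (-(T * (y j - y k)) ^ 2 / 4) ≤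
        ∑ j ∈ S, ∑ k ∈ S, ∑ m ∈ Finset.range M, Real.exp (-(m : ℝ) ^ 2 / 4) *
        (if |y j - y k| ≤ ((m + 1 : ℕ) : ℝ) / T then c j * c k else 0) :=
        Finset.sum_le_sum (fun j hj => Finset.sum_le_sum (fun k hk => h1 j hj k hk))
    _ = ∑ m ∈ Finset.range M, Real.exp (-(m : ℝ) ^ 2 / 4) * ∑ j ∈ S, ∑ k ∈ S,
        (if |y j - y k| ≤ ((m + 1 : ℕ) : ℝ) / T then c j * c k else 0) := by
        rw [Finset.sum_congr rfl (fun j _ => Finset.sum_comm), Finset.sum_comm]
        refine Finset.sum_congr rfl (fun m _ => ?_)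
        rw [Finset.mul_sum]
        refine Finset.sum_congr rfl (fun j _ => ?_)
        rw [Finset.mul_sum]
    _ ≤ ∑ m ∈ Finset.range M, Real.exp (-(m : ℝ) ^ 2 / 4) * ((2 * (m : ℝ) + 3) * D) := by
        refine Finset.sum_le_sum (fun m _ => ?_)
        apply mul_le_mul_of_nonneg_left _ (Real.exp_pos _).le
        have := a11'_strong ι S c y T (m + 1) hT hc
        refine this.trans (le_of_eq ?_)
        push_cast
        ring
    _ = (∑ m ∈ Finset.range M, Real.exp (-(m : ℝ) ^ 2 / 4) * (2 * (m : ℝ) + 3)) * D := by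
        rw [Finset.sum_mul]
        refine Finset.sum_congr rfl (fun m _ => ?_)
        ring
    _ ≤ _ := by
        apply mul_le_mul_of_nonneg_right _ hD0
        exact gw_summable.sum_le_tsum _ (fun m _ => by positivity)

theorem a11 : A11 := by
  refine ⟨Real.sqrt π * (∑' m : ℕ, Real.exp (-(m : ℝ) ^ 2 / 4) * (2 * (m : ℝ) + 3)), ?_, ?_⟩
  · have hpi := Real.pi_pos
    have : 0 < ∑' m : ℕ, Real.exp (-(m : ℝ) ^ 2 / 4) * (2 * (m : ℝ) + 3) :=
      gw_summable.tsum_pos (fun m => by (clear * -; positivity)) 0 (by (clear * -; positivity))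
    positivity
  · intro ι S a y T hT
    refine ⟨mv_integrable S a y T hT, (mv_le S a y T hT).trans ?_⟩
    have h := gw_pairs S (fun j => ‖a j‖) y T hT (fun j _ => norm_nonneg _)
    calc Real.sqrt π * T * ∑ j ∈ S, ∑ k ∈ S, (‖a j‖ * ‖a k‖) *
          Real.exp (-(T * (y j - y k)) ^ 2 / 4) ≤ Real.sqrt π * T *
          ((∑' m : ℕ, Real.exp (-(m : ℝ) ^ 2 / 4) * (2 * (m : ℝ) + 3)) *
          ∑ j ∈ S, ∑ k ∈ S, if |y j - y k| ≤ 1 / T then ‖a j‖ * ‖a k‖ else 0) := by
          apply mul_le_mul_of_nonneg_left h (by positivity)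
      _ = _ := by ring

/-! ### separated points -/

theorem rect_integral (f : ℂ → ℝ) (hf : Continuous f) (σ₁ σ₂ t₁ t₂ : ℝ) (h1 : σ₁ ≤ σ₂)
    (h2 : t₁ ≤ t₂) :
    ∫ w in (Set.Icc σ₁ σ₂ ×ℂ Set.Icc t₁ t₂), f w =
      ∫ σ in σ₁..σ₂, ∫ t in t₁..t₂, f (σ + t * Complex.I) := by
  have e1 := (Complex.volume_preserving_equiv_real_prod.symm).setIntegral_preimage_emb
    Complex.measurableEquivRealProd.symm.measurableEmbedding f (Set.Icc σ₁ σ₂ ×ℂ Set.Icc t₁ t₂)
  rw [← e1]
  have e2 : Complex.measurableEquivRealProd.symm ⁻¹' (Set.Icc σ₁ σ₂ ×ℂ Set.Icc t₁ t₂) =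
      Set.Icc σ₁ σ₂ ×ˢ Set.Icc t₁ t₂ := by
    ext ⟨x, y⟩
    simp [Complex.measurableEquivRealProd, Complex.mem_reProdIm]
    tauto
  have e3 : ∀ p : ℝ × ℝ, f (Complex.measurableEquivRealProd.symm p) = f (p.1 + p.2 * Complex.I) := by
    intro p
    congr 1
    apply Complex.ext <;> simp [Complex.measurableEquivRealProd]
  rw [e2]
  simp only [e3]
  rw [Measure.volume_eq_prod, setIntegral_prod]
  · rw [intervalIntegral.integral_of_le h1, ← integral_Icc_eq_integral_Ioc]
    refine setIntegral_congr_fun measurableSet_Icc ?_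
    intro σ _
    simp only
    rw [intervalIntegral.integral_of_le h2, ← integral_Icc_eq_integral_Ioc]
  · rw [← Measure.volume_eq_prod]
    apply ContinuousOn.integrableOn_compact (isCompact_Icc.prod isCompact_Icc)
    apply Continuous.continuousOn
    fun_prop

theorem a12' : A12' := by
  intro F hF Z r σ₁ σ₂ t₁ t₂ hr h1 h2 hsep hZ
  have hc : Continuous (fun w => ‖F w‖ ^ 2) := by
    have := hF.continuous
    fun_prop
  rw [← rect_integral (fun w => ‖F w‖ ^ 2) hc σ₁ σ₂ t₁ t₂ h1 h2]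
  refine sum_le_area Z (fun z => z) F hF 2 r hr hsep _ ?_ ?_
  · intro z hz w hw
    rw [Metric.mem_closedBall, dist_eq_norm] at hw
    have hre := (Complex.abs_re_le_norm (w - z)).trans hw
    have him := (Complex.abs_im_le_norm (w - z)).trans hw
    rw [Complex.sub_re, abs_le] at hre
    rw [Complex.sub_im, abs_le] at him
    obtain ⟨a1, a2, a3, a4⟩ := hZ z hz
    rw [Complex.mem_reProdIm]
    exact ⟨⟨by linarith [hre.1], by (clear * - hre a2; linarith [hre.2])⟩, ⟨by (clear * - him a3; linarith [him.1]), by (clear * - him a4; linarith [him.2])⟩⟩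
  · exact hc.continuousOn.integrableOn_compact (isCompact_Icc.reProdIm isCompact_Icc)

theorem a13 : A13 := by
  obtain ⟨C, hC, hA⟩ := a11
  refine ⟨Real.exp 4 * C, by positivity, ?_⟩
  intro ι S a y Z r σ₁ σ₂ T B hr hr1 hσ hT hsep hZ hB
  have hpi := Real.pi_pos
  set F : ℂ → ℂ := fun z => ∑ j ∈ S, a j * Complex.exp (y j * z) with hF
  have hFd : Differentiable ℂ F := by
    rw [hF]
    fun_prop
  have hT0 : 0 < T := by linarith
  have h1 := a12' F hFd Z r (σ₁ - r) (σ₂ + r) (-(T + r)) (T + r) hr (by (clear * - hr hσ; linarith)) (by linarith) hsep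
    (by
      intro z hz
      obtain ⟨b1, b2, b3⟩ := hZ z hz
      rw [abs_le] at b3
      exact ⟨by linarith, by linarith, by linarith [b3.1], by linarith [b3.2]⟩)
  refine h1.trans ?_
  have hline : ∀ σ ∈ Set.Icc (σ₁ - r) (σ₂ + r),
      ∫ t in (-(T + r))..(T + r), ‖F (σ + t * Complex.I)‖ ^ 2 ≤ Real.exp 4 * (C * T * B) := by
    intro σ hσ'
    have hexp : ∀ t : ℝ, F (σ + t * Complex.I) =
        ∑ j ∈ S, (a j * Complex.exp ((y j * σ : ℝ))) * Complex.exp (Complex.I * (y j * t : ℝ)) := by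
      intro t
      rw [hF]
      refine Finset.sum_congr rfl (fun j _ => ?_)
      rw [mul_assoc, ← Complex.exp_add]
      congr 2
      push_cast
      ring
    obtain ⟨hint, hval⟩ := hA ι S (fun j => a j * Complex.exp ((y j * σ : ℝ))) y T hT0
    have hD : (∑ j ∈ S, ∑ k ∈ S, if |y j - y k| ≤ 1 / T then
        ‖a j * Complex.exp ((y j * σ : ℝ))‖ * ‖a k * Complex.exp ((y k * σ : ℝ))‖ else 0) ≤ B := by
      refine le_trans (le_of_eq ?_) (hB σ hσ'.1 hσ'.2)
      refine Finset.sum_congr rfl (fun j _ => Finset.sum_congr rfl (fun k _ => ?_))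
      split_ifs
      · rw [norm_mul, norm_mul, ← Complex.ofReal_exp, ← Complex.ofReal_exp, Complex.norm_real,
          Complex.norm_real, Real.norm_eq_abs, Real.norm_eq_abs, abs_of_pos (Real.exp_pos _),
          abs_of_pos (Real.exp_pos _)]
        have : Real.exp (σ * (y j + y k)) = Real.exp (y j * σ) * Real.exp (y k * σ) := by
          rw [← Real.exp_add]; congr 1; ring
        rw [this]
        ring
      · rfl
    simp only [← hexp] at hint hval
    have hle : ∫ t in (-(T + r))..(T + r), ‖F (σ + t * Complex.I)‖ ^ 2 ≤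
        ∫ t : ℝ, Real.exp 4 * (Real.exp (-(t / T) ^ 2) * ‖F (σ + t * Complex.I)‖ ^ 2) := by
      rw [intervalIntegral.integral_of_le (by (clear * - hr hT; linarith))]
      have hc : Continuous (fun t : ℝ => ‖F (σ + t * Complex.I)‖ ^ 2) := by
        have := hFd.continuous
        fun_prop
      calc ∫ t in Set.Ioc (-(T + r)) (T + r), ‖F (σ + t * Complex.I)‖ ^ 2 ≤
            ∫ t in Set.Ioc (-(T + r)) (T + r),
              Real.exp 4 * (Real.exp (-(t / T) ^ 2) * ‖F (σ + t * Complex.I)‖ ^ 2) := by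
            apply setIntegral_mono_on
            · exact (hc.integrableOn_Icc (a := -(T + r)) (b := T + r)).mono_set Set.Ioc_subset_Icc_self
            · exact (hint.const_mul _).integrableOn
            · exact measurableSet_Ioc
            · intro t ht
              have ht2 : |t| ≤ 2 * T := by
                rw [abs_le]
                constructor <;> (clear * - hr1 hT ht; linarith [ht.1, ht.2])
              have h5 : (t / T) ^ 2 ≤ 4 := by
                have : |t / T| ≤ 2 := by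
                  rw [abs_div, abs_of_pos hT0, div_le_iff₀ hT0]
                  exact ht2
                have h6 := sq_le_sq' (by (clear * -; linarith [abs_nonneg (t / T)])) this
                rw [sq_abs] at h6
                (clear * - h6; linarith)
              have h7 : 1 ≤ Real.exp 4 * Real.exp (-(t / T) ^ 2) := by
                rw [← Real.exp_add]
                exact Real.one_le_exp (by (clear * - h5; linarith))
              have h8 : 0 ≤ ‖F (σ + t * Complex.I)‖ ^ 2 := by positivity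
              calc ‖F (σ + t * Complex.I)‖ ^ 2 = 1 * ‖F (σ + t * Complex.I)‖ ^ 2 := by ring
                _ ≤ (Real.exp 4 * Real.exp (-(t / T) ^ 2)) * ‖F (σ + t * Complex.I)‖ ^ 2 :=
                    mul_le_mul_of_nonneg_right h7 h8
                _ = _ := by ring
        _ ≤ _ := setIntegral_le_integral (hint.const_mul _)
              (Filter.Eventually.of_forall (fun t => by positivity))
    refine hle.trans ?_
    rw [integral_const_mul]
    apply mul_le_mul_of_nonneg_left _ (Real.exp_pos _).le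
    refine hval.trans ?_
    exact mul_le_mul_of_nonneg_left hD (by positivity)
  have hB0 : 0 ≤ Real.exp 4 * (C * T * B) := by
    have := hline σ₁ ⟨by linarith, by linarith⟩
    refine le_trans ?_ this
    apply intervalIntegral.integral_nonneg (by (clear * - hr hT; linarith))
    intro t _
    positivity
  have h2 : ∫ σ in (σ₁ - r)..(σ₂ + r), ∫ t in (-(T + r))..(T + r), ‖F (σ + t * Complex.I)‖ ^ 2 ≤
      (σ₂ - σ₁ + 2 * r) * (Real.exp 4 * (C * T * B)) := by
    have h3 : ∫ σ in (σ₁ - r)..(σ₂ + r), ∫ t in (-(T + r))..(T + r), ‖F (σ + t * Complex.I)‖ ^ 2 ≤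
        ∫ σ in (σ₁ - r)..(σ₂ + r), Real.exp 4 * (C * T * B) := by
      apply intervalIntegral.integral_mono_on (by linarith)
      · apply Continuous.intervalIntegrable
        have hc : Continuous (Function.uncurry (fun (σ t : ℝ) => ‖F (σ + t * Complex.I)‖ ^ 2)) := by
          have := hFd.continuous
          fun_prop
        exact intervalIntegral.continuous_parametric_intervalIntegral_of_continuous' hc _ _
      · exact intervalIntegrable_const
      · exact fun σ hσ' => hline σ hσ'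
    refine h3.trans (le_of_eq ?_)
    rw [intervalIntegral.integral_const, smul_eq_mul]
    ring
  have h4 : 1 / (π * r ^ 2) ≤ 1 / r ^ 2 := by
    apply one_div_le_one_div_of_le (by positivity)
    have : 1 ≤ π := by (clear * - hpi; linarith [Real.pi_gt_three])
    (clear * - this; nlinarith [sq_nonneg r])
  calc 1 / (π * r ^ 2) * ∫ σ in (σ₁ - r)..(σ₂ + r), ∫ t in (-(T + r))..(T + r),
        ‖F (σ + t * Complex.I)‖ ^ 2 ≤
        1 / (π * r ^ 2) * ((σ₂ - σ₁ + 2 * r) * (Real.exp 4 * (C * T * B))) :=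
        mul_le_mul_of_nonneg_left h2 (by positivity)
    _ ≤ 1 / r ^ 2 * ((σ₂ - σ₁ + 2 * r) * (Real.exp 4 * (C * T * B))) := by
        apply mul_le_mul_of_nonneg_right h4
        apply mul_nonneg (by (clear * - hr hσ; linarith)) hB0
    _ = _ := by ring

end Pool.Agent.M17.Helper6.KSZ
end
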