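import Mathlib
import Pool.Agent.Helper53.KM.G01
import Pool.Agent.Helper53.KM.G13
import Pool.Agent.Helper53.KM.G17
import Pool.Agent.Helper53.KM.G26

/- Helper53.KN.Helper15.KS.H3b -/
section
/-!
# Project KS (MP_768c9c_nt): Prop `H3`, bounds for the weights
-/

set_option autoImplicit false
open scoped Classical

namespace Pool.Agent.M17.Helper15.KS.H3

open Pool.Agent.M17.Helper16.KS

variable (S : Sys)

/-- prime factors of candidates are large -/
theorem cand_prime_ge {k' j' : ℕ} (hk : S.K ≤ k') (hj : j' ∈ S.badc k') {x : ℕ × ℕ}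
    (hx : x ∈ S.Cand k' j') {p : ℕ} (hp : p.Prime) (hpx : p ∣ x.1 * x.2) :
    (2 : ℝ) ^ ((S.u (S.cls k' j') + S.c) * k') ≤ p ∧ (2 : ℝ) ^ ((k' : ℝ) / 5) ≤ p := by
  rw [S.mem_badc] at hj
  obtain ⟨-, -, -, -, -, h6, -⟩ := S.cand k' hk j' hj.1 hj.2 x hx
  have h := h6 p hp hpx
  have hp0 : (0 : ℝ) ≤ p := Nat.cast_nonneg p
  have hp1 : (1 : ℝ) ≤ p := by exact_mod_cast hp.one_lt.le
  have hdel := S.del_pos
  have hc := S.c_pos
  have hu := S.u_ge (S.cls k' j')
  have h1 : (p : ℝ) ^ (1/2 - S.del) ≤ (p : ℝ) ^ (1/2 : ℝ) :=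
    Real.rpow_le_rpow_of_exponent_le hp1 (by (clear * - hdel; linarith))
  have h2 : (p : ℝ) ^ (1/2 : ℝ) ≤ p := by
    calc (p : ℝ) ^ (1/2 : ℝ) ≤ (p : ℝ) ^ (1 : ℝ) :=
          Real.rpow_le_rpow_of_exponent_le hp1 (by norm_num)
      _ = p := Real.rpow_one _
  refine ⟨h.trans (h1.trans h2), ?_⟩
  have h3 : (2 : ℝ) ^ ((k' : ℝ) / 10) ≤ (p : ℝ) ^ (1/2 : ℝ) := by
    refine le_trans (Real.rpow_le_rpow_of_exponent_le (by norm_num) ?_) (h.trans h1)
    have : (0 : ℝ) ≤ k' := Nat.cast_nonneg _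
    (clear * - hc hu; nlinarith)
  calc (2 : ℝ) ^ ((k' : ℝ) / 5) = ((2 : ℝ) ^ ((k' : ℝ) / 10)) ^ (2 : ℝ) := by
        rw [← Real.rpow_mul (by norm_num)]
        congr 1
        ring
    _ ≤ ((p : ℝ) ^ (1/2 : ℝ)) ^ (2 : ℝ) := Real.rpow_le_rpow (by positivity) h3 (by norm_num)
    _ = p := by
        rw [← Real.rpow_mul hp0]
        norm_num

theorem gam_le {p : ℕ} (hp : 2 ^ 20 ≤ p) : S.gam p ≤ S.base p * (1 / 20) := by
  have hp0 : (0 : ℝ) < p := by
    have : 0 < p := lt_of_lt_of_le (by positivity) hp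
    exact_mod_cast this
  have hp1 : (1 : ℝ) ≤ p := by
    have : 1 ≤ p := le_trans (by norm_num) hp
    exact_mod_cast this
  have hp2 : (2 : ℝ) ^ (20 : ℝ) ≤ p := by
    rw [show (20 : ℝ) = ((20 : ℕ) : ℝ) by norm_num, Real.rpow_natCast]
    exact_mod_cast hp
  unfold Sys.gam Sys.base
  have h1 := S.s_lt
  have h2 := S.tau_le_s
  have h3 := S.del_le
  have h4 := S.tau_pos
  norm_num at h1
  have h5 : S.tau ≤ 1 / 1000000 := by
    have : S.s / 10 ^ 6 ≤ S.s := by
      rw [div_le_iff₀ (by positivity)]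
      (clear * - h2 h4; nlinarith [S.s_pos])
    (clear * - h2 h4 h1; linarith)
  have h6 : (p : ℝ) ^ (S.s - 1 + 6 * S.tau) =
      (p : ℝ) ^ (-(1/2 + S.del)) * (p : ℝ) ^ (S.s - 1 + 6 * S.tau + (1/2 + S.del)) := by
    rw [← Real.rpow_add hp0]
    congr 1
    ring
  rw [h6]
  apply mul_le_mul_of_nonneg_left _ (by positivity)
  calc (p : ℝ) ^ (S.s - 1 + 6 * S.tau + (1/2 + S.del)) ≤ (p : ℝ) ^ (-(2/5) : ℝ) :=
        Real.rpow_le_rpow_of_exponent_le hp1 (by (clear * - h2 h3 h4 h1; linarith))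
    _ ≤ ((2 : ℝ) ^ (20 : ℝ)) ^ (-(2/5) : ℝ) :=
        Real.rpow_le_rpow_of_nonpos (by positivity) hp2 (by norm_num)
    _ = (2 : ℝ) ^ (-(8 : ℝ)) := by
        rw [← Real.rpow_mul (by norm_num)]
        norm_num
    _ ≤ 1 / 20 := by
        rw [Real.rpow_neg (by norm_num), show (8 : ℝ) = ((8 : ℕ) : ℝ) by norm_num,
          Real.rpow_natCast]
        norm_num

theorem W_m_le {k0 : ℕ} {R : Set ℕ} (hR : S.Good k0 R)
    (hW : ∀ p : ℕ, p.Prime → 0 ≤ S.Wp k0 R p ∧ S.Wp k0 R p ≤ S.Fh k0 R p)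
    {k' j' : ℕ} (hk : S.K ≤ k') (hk' : 100 ≤ k') (hj : j' ∈ S.badc k') {x : ℕ × ℕ}
    (hx : x ∈ S.act R k' j') : S.W k0 R x.2 ≤ 2 * S.base x.2 := by
  rw [S.mem_act] at hx
  obtain ⟨hx, hxR⟩ := hx
  obtain ⟨h1, h2, h3, h4, h5, h6, h7, -, -⟩ := S.cand_facts hk hj hx
  have hm0 : x.2 ≠ 0 := by omega
  have hge : ∀ p : ℕ, p.Prime → p ∣ x.2 → (2 : ℝ) ^ ((k' : ℝ) / 5) ≤ p := fun p hp hpm =>
    (cand_prime_ge S hk hj hx hp (hpm.mul_left _)).2
  have hge2 : ∀ p : ℕ, p.Prime → p ∣ x.2 → 2 ^ 20 ≤ p := by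
    intro p hp hpm
    have h8 := hge p hp hpm
    have h9 : (2 : ℝ) ^ (20 : ℝ) ≤ p := by
      refine le_trans (Real.rpow_le_rpow_of_exponent_le (by norm_num) ?_) h8
      have : (100 : ℝ) ≤ k' := by exact_mod_cast hk'
      (clear * - this; linarith)
    rw [show (20 : ℝ) = ((20 : ℕ) : ℝ) by norm_num, Real.rpow_natCast] at h9
    exact_mod_cast h9
  have hlen : (x.2.primeFactorsList.length : ℝ) ≤ 5 * (k' + 1) / k' := by
    refine Sys.rough_omega_le (k0 := k') (k := k') (by omega) hm0 hge ?_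
    refine lt_of_le_of_lt ?_ h7
    exact Nat.le_mul_of_pos_left _ h1.pos
  have hlen2 : x.2.primeFactorsList.length ≤ 10 := by
    have hk'R : (100 : ℝ) ≤ k' := by exact_mod_cast hk'
    have h8 : (5 : ℝ) * (k' + 1) / k' ≤ 10 := by
      rw [div_le_iff₀ (by (clear * - hk'R; linarith))]
      (clear * - hk'R; linarith)
    exact_mod_cast hlen.trans h8
  have hFh : ∀ p : ℕ, p.Prime → p ∣ x.2 → S.Wp k0 R p ≤ S.base p * (21 / 20) := by
    intro p hp hpm
    have hpR : p ∈ R := hxR p hp hpm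
    refine (hW p hp).2.trans ?_
    have h8 : ¬ ((p : ℝ) < (2 : ℝ) ^ ((k0 : ℝ) / 5)) := not_lt.mpr (hR.prime p hpR).2
    unfold Sys.Fh Sys.bR
    rw [if_neg h8, if_pos hpR]
    have := gam_le S (hge2 p hp hpm)
    (clear * - this; linarith)
  unfold Sys.W
  have hmono : CM (S.Wp k0 R) x.2 ≤ CM (fun p => S.base p * (21 / 20)) x.2 :=
    CM_mono (fun p hp _ => (hW p hp).1) hFh
  refine hmono.trans ?_
  rw [CM_mul_fun S.base (fun _ => 21 / 20), S.CM_base hm0, CM_const]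
  have h9 : ((21 : ℝ) / 20) ^ x.2.primeFactorsList.length ≤ (21 / 20) ^ 10 :=
    pow_le_pow_right₀ (by norm_num) hlen2
  have h10 : ((21 : ℝ) / 20) ^ 10 ≤ 2 := by norm_num
  have h11 := S.base_nonneg x.2
  (clear * - h11 h9; nlinarith)

theorem W_zero {k0 : ℕ} {R : Set ℕ}
    (hW : ∀ p : ℕ, p.Prime → 0 ≤ S.Wp k0 R p ∧ S.Wp k0 R p ≤ S.Fh k0 R p) {l : ℕ} (hl : 2 ≤ l)
    (hlt : (l : ℝ) < (2 : ℝ) ^ ((k0 : ℝ) / 5)) : S.W k0 R l = 0 := by
  obtain ⟨p, hp, hpl⟩ := Nat.exists_prime_and_dvd (show l ≠ 1 by omega)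
  have hple : p ≤ l := Nat.le_of_dvd (by omega) hpl
  have h1 : S.Fh k0 R p = 0 := by
    unfold Sys.Fh
    rw [if_pos]
    refine lt_of_le_of_lt ?_ hlt
    exact_mod_cast hple
  have h2 : S.Wp k0 R p = 0 := le_antisymm (h1 ▸ (hW p hp).2) (hW p hp).1
  exact CM_eq_zero (by omega) hp hpl h2

end Pool.Agent.M17.Helper15.KS.H3
end

/- Helper53.KN.Helper15.KS.H3a -/
section
/-!
# Project KS (MP_768c9c_nt): Prop `H3`, numerical part
-/

set_option autoImplicit false
open scoped Classical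

namespace Pool.Agent.M17.Helper15.KS.H3

open Pool.Agent.M17.Helper16.KS

/-- left end of a window: `wl l a ≤ y ↔ a ≤ y * l` -/
def wl (l a : ℕ) : ℕ := (a + l - 1) / l

theorem wl_le_iff {l a y : ℕ} (hl : 0 < l) : wl l a ≤ y ↔ a ≤ y * l := by
  unfold wl
  have h1 : (a + l - 1) / l ≤ y ↔ (a + l - 1) / l < y + 1 := Nat.lt_succ_iff.symm
  rw [h1, Nat.div_lt_iff_lt_mul hl, add_mul, one_mul]
  omega

theorem lt_wl_iff {l a y : ℕ} (hl : 0 < l) : y < wl l a ↔ y * l < a := by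
  rw [← not_le, wl_le_iff hl, not_le]

theorem wl_ge {l a : ℕ} (hl : 0 < l) : (a : ℝ) / l ≤ wl l a := by
  have h : a ≤ wl l a * l := (wl_le_iff hl).1 le_rfl
  have hl' : (0 : ℝ) < l := by exact_mod_cast hl
  rw [div_le_iff₀ hl']
  exact_mod_cast h

theorem wl_lt {l a : ℕ} (hl : 0 < l) : (wl l a : ℝ) < a / l + 1 := by
  have h : wl l a * l ≤ a + l - 1 := Nat.div_mul_le_self _ _
  have h2 : wl l a * l < a + l := by omega
  have hl' : (0 : ℝ) < l := by exact_mod_cast hl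
  have h3 : (wl l a : ℝ) * l < a + l := by exact_mod_cast h2
  rw [← sub_lt_iff_lt_add, lt_div_iff₀ hl', sub_mul, one_mul]
  (clear * - h3; linarith)

theorem wl_mono {l a b : ℕ} (hab : a ≤ b) : wl l a ≤ wl l b := by
  unfold wl
  exact Nat.div_le_div_right (by omega)

theorem log_facts {l : ℕ} (hl : 32 ≤ l) :
    (2 : ℝ) ^ ((Nat.log 2 l : ℕ) : ℝ) ≤ l ∧ (l : ℝ) < (2 : ℝ) ^ (((Nat.log 2 l : ℕ) : ℝ) + 1) ∧
      5 ≤ Nat.log 2 l := by
  refine ⟨?_, ?_, ?_⟩
  · rw [Real.rpow_natCast]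
    exact_mod_cast Nat.pow_log_le_self 2 (by omega)
  · have h : l < 2 ^ (Nat.log 2 l + 1) := Nat.lt_pow_succ_log_self (by norm_num) l
    have h2 : (((Nat.log 2 l : ℕ) : ℝ) + 1) = ((Nat.log 2 l + 1 : ℕ) : ℝ) := by push_cast; rfl
    rw [h2, Real.rpow_natCast]
    exact_mod_cast h
  · exact Nat.le_log_of_pow_le (by norm_num) (by norm_num; exact hl)

theorem numeric (S : Sys) {k k' l : ℕ} (hk' : 6010 ≤ k') (hl : 32 ≤ l)
    (hlt : (l : ℝ) < (2 : ℝ) ^ (0.226 * (k' : ℝ)))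
    (hk : k' + Nat.log 2 l = k ∨ k' + Nat.log 2 l + 1 = k) :
    (2 : ℝ) ^ (0.38 * (k' : ℝ) + 1) ≤ (2 : ℝ) ^ ec S.d k / l ∧
    (2 : ℝ) ^ ec S.d k / l + 1 ≤ 2 ^ ec S.d k' ∧
    ((2 : ℝ) ^ (0.498 * (k' : ℝ) + 1) ≤ (2 : ℝ) ^ ec S.d k / l ∨ (k' : ℝ) ≤ 500 * Real.log l) ∧
    k ≤ 2 * k' ∧
    (2 : ℝ) ^ ((S.s - 1) * k') ≤ 2 * ((2 : ℝ) ^ ((S.s - 1) * k) * (l : ℝ) ^ (1 - S.s)) := by
  obtain ⟨g1, g2, g3⟩ := log_facts hl
  set lam : ℕ := Nat.log 2 l with hlam
  have hl0 : (0 : ℝ) < l := by exact_mod_cast (by omega : 0 < l)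
  have hd0 := S.d_pos
  have hd := S.d_le'
  have hd' : S.d ≤ 1 / 10 ^ 7 := by
    refine hd.trans ?_
    norm_num
  have hk'R : (6010 : ℝ) ≤ k' := by exact_mod_cast hk'
  have hlamR : (5 : ℝ) ≤ lam := by exact_mod_cast g3
  have hlam2 : (lam : ℝ) < 0.226 * k' :=
    (Real.rpow_lt_rpow_left_iff (by norm_num : (1 : ℝ) < 2)).mp (g1.trans_lt hlt)
  have hkle : (k : ℝ) ≤ k' + lam + 1 := by
    rcases hk with h | h
    · rw [← h]; push_cast; (clear * - hd0 hd; linarith)
    · rw [← h]; push_cast; (clear * -; linarith)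
  have hkge : (k' : ℝ) + lam ≤ k := by
    rcases hk with h | h
    · rw [← h]; push_cast; (clear * -; linarith)
    · rw [← h]; push_cast; (clear * - hd0 hd; linarith)
  -- the exponents
  have e1 : (k : ℝ) * (1/2 - S.d) - 1 < ec S.d k := Nat.sub_one_lt_floor _
  have e2 : (ec S.d k : ℝ) ≤ (k : ℝ) * (1/2 - S.d) := by
    apply Nat.floor_le
    apply mul_nonneg (Nat.cast_nonneg _)
    norm_num at hd'
    (clear * - hd0 hd; linarith)
  have e3 : (k' : ℝ) * (1/2 - S.d) - 1 < ec S.d k' := Nat.sub_one_lt_floor _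
  norm_num at hd'
  have f1 : (k' : ℝ) * S.d ≤ k' * (1 / 10000000) := mul_le_mul_of_nonneg_left hd' (by (clear * - hd0 hd hk'R; linarith))
  have f2 : (lam : ℝ) * S.d ≤ lam * (1 / 10000000) := mul_le_mul_of_nonneg_left hd' (by (clear * - hd0 hd hlamR; linarith))
  have f3 : 0 ≤ (lam : ℝ) * S.d := by positivity
  have f4 : ((k' : ℝ) + lam) * (1/2 - S.d) ≤ (k : ℝ) * (1/2 - S.d) :=
    mul_le_mul_of_nonneg_right hkge (by (clear * - hd0 hd; linarith))
  have f5 : (k : ℝ) * (1/2 - S.d) ≤ ((k' : ℝ) + lam + 1) * (1/2 - S.d) :=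
    mul_le_mul_of_nonneg_right hkle (by (clear * - hd0 hd; linarith))
  have hlow : (2 : ℝ) ^ ((k' : ℝ) * (1/2 - S.d) - lam * (1/2 + S.d) - 2) ≤
      (2 : ℝ) ^ ec S.d k / l := by
    rw [le_div_iff₀ hl0, ← Real.rpow_natCast 2 (ec S.d k)]
    calc (2 : ℝ) ^ ((k' : ℝ) * (1/2 - S.d) - lam * (1/2 + S.d) - 2) * l
        ≤ (2 : ℝ) ^ ((k' : ℝ) * (1/2 - S.d) - lam * (1/2 + S.d) - 2) *
            (2 : ℝ) ^ ((lam : ℝ) + 1) := mul_le_mul_of_nonneg_left g2.le (by positivity)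
      _ = (2 : ℝ) ^ (((k' : ℝ) * (1/2 - S.d) - lam * (1/2 + S.d) - 2) + ((lam : ℝ) + 1)) :=
          (Real.rpow_add (by norm_num) _ _).symm
      _ ≤ (2 : ℝ) ^ (ec S.d k : ℝ) := by
          apply Real.rpow_le_rpow_of_exponent_le (by norm_num)
          (clear * - e1 f4; nlinarith)
  refine ⟨?_, ?_, ?_, ?_, ?_⟩
  · refine le_trans (Real.rpow_le_rpow_of_exponent_le (by norm_num) ?_) hlow
    (clear * - hd0 hd hk'R hlam2 f1 f2; nlinarith)
  · have hE : (1 : ℝ) ≤ ec S.d k' := by (clear * - hd0 hd hk'R e3 f1; nlinarith)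
    have h1 : (2 : ℝ) ^ ec S.d k / l ≤ (2 : ℝ) ^ ((ec S.d k' : ℝ) - 1) := by
      rw [div_le_iff₀ hl0, ← Real.rpow_natCast 2 (ec S.d k)]
      calc (2 : ℝ) ^ (ec S.d k : ℝ) ≤ (2 : ℝ) ^ (((ec S.d k' : ℝ) - 1) + lam) := by
            apply Real.rpow_le_rpow_of_exponent_le (by norm_num)
            (clear * - hd0 hlamR e2 e3 f3 f5; nlinarith)
        _ = (2 : ℝ) ^ ((ec S.d k' : ℝ) - 1) * (2 : ℝ) ^ (lam : ℝ) :=
            Real.rpow_add (by norm_num) _ _
        _ ≤ (2 : ℝ) ^ ((ec S.d k' : ℝ) - 1) * l := mul_le_mul_of_nonneg_left g1 (by positivity)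
    have h2 : (1 : ℝ) ≤ (2 : ℝ) ^ ((ec S.d k' : ℝ) - 1) :=
      Real.one_le_rpow (by norm_num) (by (clear * - hd0 hd hk'R e3 f1; linarith))
    have h3 : (2 : ℝ) ^ ec S.d k' = 2 * (2 : ℝ) ^ ((ec S.d k' : ℝ) - 1) := by
      rw [← Real.rpow_natCast 2 (ec S.d k')]
      rw [show ((ec S.d k' : ℕ) : ℝ) = 1 + ((ec S.d k' : ℝ) - 1) by ring,
        Real.rpow_add (by norm_num), Real.rpow_one]
      ring_nf
    rw [h3]
    (clear * - h1 h2; linarith)
  · by_cases hc : (k' : ℝ) ≤ 500 * Real.log l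
    · exact Or.inr hc
    · left
      rw [not_le] at hc
      have h1 : (lam : ℝ) * Real.log 2 ≤ Real.log l := by
        have h2 := Real.log_le_log (by positivity) g1
        rwa [Real.log_rpow (by norm_num)] at h2
      have h3 := Real.log_two_gt_d9
      have h4 : (lam : ℝ) * 0.6931 ≤ Real.log l := by
        refine le_trans ?_ h1
        apply mul_le_mul_of_nonneg_left _ (by (clear * - hd0 hd hlamR; linarith))
        (clear * - hd0 hd h3; linarith)
      have h5 : (lam : ℝ) * 346.55 < k' := by (clear * - hc h4; linarith)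
      refine le_trans (Real.rpow_le_rpow_of_exponent_le (by norm_num) ?_) hlow
      (clear * - hd0 hd hk'R f1 f2 hc h4; nlinarith)
  · have h1 : (k : ℝ) ≤ 2 * k' := by (clear * - hd0 hd hk'R hlam2 hkle; linarith)
    exact_mod_cast h1
  · have hs0 := S.s_pos
    have hs1 := S.s_lt
    have hs2 : S.s < 1 := hs1.trans (by norm_num)
    calc (2 : ℝ) ^ ((S.s - 1) * k') ≤
          (2 : ℝ) ^ ((S.s - 1) * k + ((lam : ℝ) * (1 - S.s) + (1 - S.s))) := by
          apply Real.rpow_le_rpow_of_exponent_le (by norm_num)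
          (clear * - hkle hd0 hd hs1; nlinarith)
      _ = (2 : ℝ) ^ ((S.s - 1) * k) * (((2 : ℝ) ^ (lam : ℝ)) ^ (1 - S.s) * (2 : ℝ) ^ (1 - S.s)) := by
          rw [Real.rpow_add (by norm_num), Real.rpow_add (by norm_num), ← Real.rpow_mul (by norm_num)]
      _ ≤ (2 : ℝ) ^ ((S.s - 1) * k) * ((l : ℝ) ^ (1 - S.s) * 2) := by
          apply mul_le_mul_of_nonneg_left _ (by positivity)
          apply mul_le_mul _ _ (by positivity) (by positivity)
          · exact Real.rpow_le_rpow (by positivity) g1 (by (clear * - hd0 hd hs1; linarith))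
          · calc (2 : ℝ) ^ (1 - S.s) ≤ (2 : ℝ) ^ (1 : ℝ) :=
                  Real.rpow_le_rpow_of_exponent_le (by norm_num) (by (clear * - hs0; linarith))
              _ = 2 := Real.rpow_one _
      _ = _ := by ring

end Pool.Agent.M17.Helper15.KS.H3
end

/- Helper53.KN.Helper15.KS.H3c -/
section
/-!
# Project KS (MP_768c9c_nt): Prop `H3`, the bound for one cofactor
-/

set_option autoImplicit false
open scoped Classical

namespace Pool.Agent.M17.Helper15.KS.H3

open Pool.Agent.M17.Helper16.KS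

variable (S : Sys)

theorem G_step {k k' l h : ℕ} (hk0 : 0 < k') (hl : 32 ≤ l)
    (hh : (h : ℝ) ≤ 2 * ((2 : ℝ) ^ ec S.d k / l)) (hk : k ≤ 2 * k') (hk1 : 0 < k)
    (hs : (2 : ℝ) ^ ((S.s - 1) * k') ≤ 2 * ((2 : ℝ) ^ ((S.s - 1) * k) * (l : ℝ) ^ (1 - S.s))) :
    S.G k' * ((h : ℝ) / 2 ^ ec S.d k') ≤ 64 * (S.G k * (l : ℝ) ^ (-S.s)) := by
  have hl0 : (0 : ℝ) < l := by exact_mod_cast (by omega : 0 < l)
  have hk0R : (0 : ℝ) < k' := by exact_mod_cast hk0
  have hk1R : (0 : ℝ) < k := by exact_mod_cast hk1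
  have h4 : 1 / (k' : ℝ) ^ 4 ≤ 16 / (k : ℝ) ^ 4 := by
    rw [div_le_div_iff₀ (by positivity) (by positivity)]
    have h5 : (k : ℝ) ≤ 2 * k' := by exact_mod_cast hk
    calc 1 * (k : ℝ) ^ 4 = (k : ℝ) ^ 4 := one_mul _
      _ ≤ (2 * (k' : ℝ)) ^ 4 := pow_le_pow_left₀ hk1R.le h5 4
      _ = 16 * (k' : ℝ) ^ 4 := by ring
  have e1 : S.G k' * ((h : ℝ) / 2 ^ ec S.d k') =
      h * (2 : ℝ) ^ ((S.s - 1) * k') * (1 / (k' : ℝ) ^ 4) := by
    unfold Sys.G
    field_simp
  have e2 : (l : ℝ) ^ (1 - S.s) = l * (l : ℝ) ^ (-S.s) := by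
    rw [show 1 - S.s = 1 + -S.s by ring, Real.rpow_add hl0, Real.rpow_one]
  rw [e1]
  calc (h : ℝ) * (2 : ℝ) ^ ((S.s - 1) * k') * (1 / (k' : ℝ) ^ 4)
      ≤ (2 * ((2 : ℝ) ^ ec S.d k / l)) *
          (2 * ((2 : ℝ) ^ ((S.s - 1) * k) * (l : ℝ) ^ (1 - S.s))) * (16 / (k : ℝ) ^ 4) := by
        apply mul_le_mul (mul_le_mul hh hs (by positivity) (by (clear * - hl; positivity))) h4 (by positivity)
          (by positivity)
    _ = 64 * (S.G k * (l : ℝ) ^ (-S.s)) := by
        rw [e2]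
        unfold Sys.G
        field_simp
        ring

/-- two cells at most meet a short window -/
theorem cells_two {L w0 h j' y M : ℕ} (hh : h ≤ L) (h1 : M + j' * L ≤ y)
    (h2 : y < M + (j' + 1) * L) (h3 : w0 ≤ y) (h4 : y < w0 + h) :
    j' = (w0 - M) / L ∨ j' = (w0 - M) / L + 1 := by
  have hL : 0 < L := by
    rcases Nat.eq_zero_or_pos L with h | h
    · subst h; omega
    · exact h
  have h5 : (w0 - M) / L ≤ j' := by
    have h6 : (w0 - M) / L < j' + 1 := by
      rw [Nat.div_lt_iff_lt_mul hL]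
      omega
    omega
  have h7 : j' < (w0 - M) / L + 2 := by
    by_contra hcon
    rw [not_lt] at hcon
    have h8 : ((w0 - M) / L + 2) * L ≤ j' * L := Nat.mul_le_mul_right _ hcon
    have h9 := Nat.lt_div_mul_add hL (a := w0 - M)
    rw [add_mul] at h8
    omega
  omega

theorem cell_part {k0 : ℕ} {R : Set ℕ} (hR : S.Good k0 R) {k' j' : ℕ} (hk' : k0 ≤ k')
    (hj' : j' ∈ S.badc k') {l w0 h k : ℕ} (hl : 32 ≤ l) (hk1 : 0 < k) (hk0 : 0 < k')
    (hhL : h ≤ 2 ^ ec S.d k')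
    (hh38 : (2 : ℝ) ^ (0.38 * (k' : ℝ)) ≤ h)
    (hh498 : (2 : ℝ) ^ (0.498 * (k' : ℝ)) ≤ h ∨ (k' : ℝ) ≤ 500 * Real.log l)
    (hh : (h : ℝ) ≤ 2 * ((2 : ℝ) ^ ec S.d k / l)) (hk : k ≤ 2 * k')
    (hs : (2 : ℝ) ^ ((S.s - 1) * k') ≤ 2 * ((2 : ℝ) ^ ((S.s - 1) * k) * (l : ℝ) ^ (1 - S.s))) :
    4 * S.G k' / S.NN R k' j' *
      ∑ y ∈ (S.act R k' j').filter (fun y => w0 ≤ y.1 * y.2 ∧ y.1 * y.2 < w0 + h), 1 / S.pr y.2 ≤
    512000 * S.C1 * (S.G k * ((l : ℝ) ^ (-S.s) * (1 + Real.log l))) := by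
  have hC1 : 0 < S.C1 := by (clear * -; linarith [S.C1_ge])
  have hlog : 0 ≤ Real.log (l : ℝ) := Real.log_natCast_nonneg l
  have hG := S.G_nonneg k'
  have hGk := S.G_nonneg k
  have hcard : (0 : ℝ) ≤ ((S.Cand k' j').card : ℝ) := Nat.cast_nonneg _
  have hl0 : (0 : ℝ) < l := by exact_mod_cast (by omega : 0 < l)
  have hhr : 0 ≤ (h : ℝ) / 2 ^ ec S.d k' := by (clear * -; positivity)
  -- the window
  have hwin : ∑ y ∈ (S.act R k' j').filter (fun y => w0 ≤ y.1 * y.2 ∧ y.1 * y.2 < w0 + h),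
      1 / S.pr y.2 ≤
      2 * (S.C1 * (500 * (1 + Real.log l)) * (h / 2 ^ ec S.d k') * (S.Cand k' j').card) := by
    by_cases hc : (2 : ℝ) ^ (0.498 * (k' : ℝ)) ≤ h
    · refine (hR.win1 k' hk' j' hj' w0 h hc hhL).trans ?_
      have h1 : S.C1 * 1 ≤ S.C1 * (500 * (1 + Real.log l)) :=
        mul_le_mul_of_nonneg_left (by (clear * - hlog; linarith)) hC1.le
      rw [mul_one] at h1
      have h2 := mul_le_mul_of_nonneg_right (mul_le_mul_of_nonneg_right h1 hhr) hcard
      (clear * - h2; linarith)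
    · have hk500 : (k' : ℝ) ≤ 500 * Real.log l := by
        rcases hh498 with h1 | h1
        · exact absurd h1 hc
        · exact h1
      refine (hR.win2 k' hk' j' hj' w0 h hh38 hhL).trans ?_
      have h1 : S.C1 * k' ≤ S.C1 * (500 * (1 + Real.log l)) :=
        mul_le_mul_of_nonneg_left (by (clear * - hk500; linarith)) hC1.le
      have h2 := mul_le_mul_of_nonneg_right (mul_le_mul_of_nonneg_right h1 hhr) hcard
      (clear * - h2; linarith)
  have hlow := hR.lower k' hk' j' hj'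
  have hstep := G_step S hk0 hl hh hk hk1 hs
  have hRHS : 0 ≤ 512000 * S.C1 * (S.G k * ((l : ℝ) ^ (-S.s) * (1 + Real.log l))) := by (clear * - hC1 hGk hl; positivity)
  rcases eq_or_lt_of_le (S.NN_nonneg R k' j') with hN | hN
  · rw [← hN, div_zero, zero_mul]
    exact hRHS
  · rw [div_mul_eq_mul_div, div_le_iff₀ hN]
    have h1 : ((S.Cand k' j').card : ℝ) ≤ 2 * S.NN R k' j' := by (clear * - hlow; linarith)
    have h2 : S.C1 * (500 * (1 + Real.log l)) * (h / 2 ^ ec S.d k') * (S.Cand k' j').card ≤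
        S.C1 * (500 * (1 + Real.log l)) * (h / 2 ^ ec S.d k') * (2 * S.NN R k' j') :=
      mul_le_mul_of_nonneg_left h1 (by (clear * - hC1; positivity))
    calc 4 * S.G k' * ∑ y ∈ (S.act R k' j').filter
          (fun y => w0 ≤ y.1 * y.2 ∧ y.1 * y.2 < w0 + h), 1 / S.pr y.2
        ≤ 4 * S.G k' * (2 * (S.C1 * (500 * (1 + Real.log l)) * (h / 2 ^ ec S.d k') *
            (2 * S.NN R k' j'))) := by
          apply mul_le_mul_of_nonneg_left _ (by (clear * - hG; positivity))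
          (clear * - hwin h2; linarith)
      _ = 8000 * S.C1 * (1 + Real.log l) * S.NN R k' j' *
            (S.G k' * ((h : ℝ) / 2 ^ ec S.d k')) := by ring
      _ ≤ 8000 * S.C1 * (1 + Real.log l) * S.NN R k' j' *
            (64 * (S.G k * (l : ℝ) ^ (-S.s))) := by
          apply mul_le_mul_of_nonneg_left hstep (by positivity)
      _ = _ := by ring

theorem inner_le {k0 : ℕ} {R : Set ℕ} (hR : S.Good k0 R) (hk0 : 6010 ≤ k0) (hK : S.K ≤ k0)
    {k j k' l : ℕ} (hj : j < nc S.d k) (hk' : k0 ≤ k') (hl : 32 ≤ l) :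
    ∑ j' ∈ S.badc k', ∑ x ∈ S.act R k' j',
      (if (x.1 * x.2 * l ∈ cell S.d k j ∧
          (l : ℝ) < (2 : ℝ) ^ ((S.u (S.cls k' j') + S.c) * k'))
        then 4 * S.G k' / S.NN R k' j' * (1 / S.pr x.2) else 0) ≤
    (if (k' + Nat.log 2 l = k ∨ k' + Nat.log 2 l + 1 = k) then
      1024000 * S.C1 * (S.G k * ((l : ℝ) ^ (-S.s) * (1 + Real.log l))) else 0) := by
  have hl0 : 0 < l := by omega
  by_cases hit : k' + Nat.log 2 l = k ∨ k' + Nat.log 2 l + 1 = k
  · rw [if_pos hit]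
    have hC1 : 0 < S.C1 := by (clear * -; linarith [S.C1_ge])
    have hlog : 0 ≤ Real.log (l : ℝ) := Real.log_natCast_nonneg l
    have hGk := S.G_nonneg k
    have hl0R : (0 : ℝ) < l := by exact_mod_cast hl0
    set B : ℝ := 512000 * S.C1 * (S.G k * ((l : ℝ) ^ (-S.s) * (1 + Real.log l))) with hB
    have hB0 : 0 ≤ B := by (clear * - hC1 hGk hl; positivity)
    set a : ℕ := 2 ^ k + j * 2 ^ ec S.d k with ha
    set b : ℕ := 2 ^ k + (j + 1) * 2 ^ ec S.d k with hb
    set w0 : ℕ := wl l a with hw0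
    set h : ℕ := wl l b - w0 with hh
    have hab : a ≤ b := by
      rw [ha, hb]
      have : j * 2 ^ ec S.d k ≤ (j + 1) * 2 ^ ec S.d k := Nat.mul_le_mul_right _ (by omega)
      omega
    have hw01 : w0 ≤ wl l b := wl_mono hab
    have hwh : w0 + h = wl l b := by omega
    have hmem : ∀ y : ℕ, y * l ∈ cell S.d k j ↔ w0 ≤ y ∧ y < w0 + h := by
      intro y
      rw [mem_cell, hwh, hw0, wl_le_iff hl0, lt_wl_iff hl0]
    have hcast : (b : ℝ) - a = 2 ^ ec S.d k := by
      rw [ha, hb]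
      push_cast
      ring
    have hhr : (h : ℝ) = (wl l b : ℝ) - w0 := by
      rw [hh, Nat.cast_sub hw01]
    have hh1 : (h : ℝ) < (2 : ℝ) ^ ec S.d k / l + 1 := by
      have h1 := wl_ge (l := l) (a := a) hl0
      have h2 := wl_lt (l := l) (a := b) hl0
      have h3 : (b : ℝ) / l - a / l = (2 : ℝ) ^ ec S.d k / l := by rw [← sub_div, hcast]
      rw [hhr]
      (clear * - h1 h2 h3; linarith)
    have hh2 : (2 : ℝ) ^ ec S.d k / l - 1 < (h : ℝ) := by
      have h1 := wl_lt (l := l) (a := a) hl0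
      have h2 := wl_ge (l := l) (a := b) hl0
      have h3 : (b : ℝ) / l - a / l = (2 : ℝ) ^ ec S.d k / l := by rw [← sub_div, hcast]
      rw [hhr]
      (clear * - h1 h2 h3; linarith)
    set i0 : ℕ := (w0 - 2 ^ k') / 2 ^ ec S.d k' with hi0
    have hterm : ∀ j' ∈ S.badc k', ∑ x ∈ S.act R k' j',
        (if (x.1 * x.2 * l ∈ cell S.d k j ∧
            (l : ℝ) < (2 : ℝ) ^ ((S.u (S.cls k' j') + S.c) * k'))
          then 4 * S.G k' / S.NN R k' j' * (1 / S.pr x.2) else 0) ≤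
        if (j' = i0 ∨ j' = i0 + 1) then B else 0 := by
      intro j' hj'
      by_cases hbd : (l : ℝ) < (2 : ℝ) ^ ((S.u (S.cls k' j') + S.c) * k')
      · have hlt : (l : ℝ) < (2 : ℝ) ^ (0.226 * (k' : ℝ)) := by
          refine hbd.trans_le (Real.rpow_le_rpow_of_exponent_le (by norm_num) ?_)
          have h1 := S.u_le (S.cls k' j')
          have h2 := S.c_le'
          apply mul_le_mul_of_nonneg_right _ (Nat.cast_nonneg _)
          norm_num at h1 h2 ⊢
          (clear * - h1 h2; linarith)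
        obtain ⟨n1, n2, n3, n4, n5⟩ := numeric S (by omega) hl hlt hit
        have hone : (1 : ℝ) ≤ (2 : ℝ) ^ (0.38 * (k' : ℝ)) :=
          Real.one_le_rpow (by norm_num) (by (clear * -; positivity))
        have hone2 : (1 : ℝ) ≤ (2 : ℝ) ^ (0.498 * (k' : ℝ)) :=
          Real.one_le_rpow (by norm_num) (by (clear * -; positivity))
        rw [Real.rpow_add (by norm_num), Real.rpow_one] at n1
        have hhL : h ≤ 2 ^ ec S.d k' := by
          have h1 : (h : ℝ) < ((2 ^ ec S.d k' : ℕ) : ℝ) := by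
            push_cast
            (clear * - hh1 n2; linarith)
          exact_mod_cast h1.le
        by_cases hj2 : j' = i0 ∨ j' = i0 + 1
        · rw [if_pos hj2]
          have hcell := cell_part S hR hk' hj' (l := l) (w0 := w0) (h := h) (k := k) hl
            (by omega) (by omega) hhL (by (clear * - hh2 n1 hone; linarith))
            (by
              rcases n3 with h1 | h1
              · left
                rw [Real.rpow_add (by norm_num), Real.rpow_one] at h1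
                (clear * - hh2 n1 hone h1; linarith)
              · exact Or.inr h1) (by (clear * - hh1 n1 hone; linarith)) n4 n5
          refine le_trans (le_of_eq ?_) hcell
          rw [Finset.mul_sum, Finset.sum_filter]
          refine Finset.sum_congr rfl fun x hx => ?_
          have hiff : (x.1 * x.2 * l ∈ cell S.d k j ∧
            (l : ℝ) < (2 : ℝ) ^ ((S.u (S.cls k' j') + S.c) * k')) ↔
            (w0 ≤ x.1 * x.2 ∧ x.1 * x.2 < w0 + h) := by
            rw [hmem]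
            exact ⟨fun h1 => h1.1, fun h1 => ⟨h1, hbd⟩⟩
          by_cases hq : w0 ≤ x.1 * x.2 ∧ x.1 * x.2 < w0 + h
          · rw [if_pos (hiff.2 hq), if_pos hq]
          · rw [if_neg (fun h1 => hq (hiff.1 h1)), if_neg hq]
        · rw [if_neg hj2]
          apply le_of_eq
          apply Finset.sum_eq_zero
          intro x hx
          rw [if_neg]
          rintro ⟨h1, -⟩
          rw [hmem] at h1
          rw [S.mem_act] at hx
          obtain ⟨-, -, -, -, h5, -, -, -, -⟩ := S.cand_facts (hK.trans hk') hj' hx.1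
          rw [mem_cell] at h5
          exact hj2 (cells_two hhL h5.1 h5.2 h1.1 h1.2)
      · have hz : ∑ x ∈ S.act R k' j',
          (if (x.1 * x.2 * l ∈ cell S.d k j ∧
            (l : ℝ) < (2 : ℝ) ^ ((S.u (S.cls k' j') + S.c) * k'))
            then 4 * S.G k' / S.NN R k' j' * (1 / S.pr x.2) else 0) = 0 := by
          apply Finset.sum_eq_zero
          intro x _
          rw [if_neg (fun h1 => hbd h1.2)]
        rw [hz]
        split_ifs
        · exact hB0
        · exact le_rfl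
    refine (Finset.sum_le_sum hterm).trans ?_
    rw [← Finset.sum_filter, Finset.sum_const, nsmul_eq_mul]
    have hcard : ((S.badc k').filter (fun j' => j' = i0 ∨ j' = i0 + 1)).card ≤ 2 := by
      refine (Finset.card_le_card (t := {i0, i0 + 1}) ?_).trans Finset.card_le_two
      intro j' hj'
      rw [Finset.mem_filter] at hj'
      rw [Finset.mem_insert, Finset.mem_singleton]
      exact hj'.2
    have hcard' : (((S.badc k').filter (fun j' => j' = i0 ∨ j' = i0 + 1)).card : ℝ) ≤ 2 := by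
      exact_mod_cast hcard
    calc _ ≤ 2 * B := mul_le_mul_of_nonneg_right hcard' hB0
      _ = _ := by rw [hB]; ring
  · rw [if_neg hit]
    apply le_of_eq
    apply Finset.sum_eq_zero
    intro j' hj'
    apply Finset.sum_eq_zero
    intro x hx
    rw [if_neg]
    rintro ⟨h1, -⟩
    apply hit
    rw [S.mem_act] at hx
    obtain ⟨-, -, -, -, -, h6, h7, -, -⟩ := S.cand_facts (hK.trans hk') hj' hx.1
    have h8 := cell_ge h1
    have h9 := cell_lt S.d_pos hj h1
    have hlog1 : 2 ^ Nat.log 2 l ≤ l := Nat.pow_log_le_self 2 hl0.ne'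
    have hlog2 : l < 2 ^ (Nat.log 2 l + 1) := Nat.lt_pow_succ_log_self (by norm_num) l
    have h10 : 2 ^ (k' + Nat.log 2 l) < 2 ^ (k + 1) := by
      rw [pow_add]
      exact lt_of_le_of_lt (Nat.mul_le_mul h6 hlog1) h9
    have h11 : 2 ^ k < 2 ^ (k' + 1 + (Nat.log 2 l + 1)) := by
      rw [pow_add]
      exact lt_of_le_of_lt h8 (Nat.mul_lt_mul'' h7 hlog2)
    have h12 := (Nat.pow_lt_pow_iff_right (by norm_num : 1 < 2)).1 h10
    have h13 := (Nat.pow_lt_pow_iff_right (by norm_num : 1 < 2)).1 h11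
    omega

end Pool.Agent.M17.Helper15.KS.H3
end

/- Helper53.KN.Helper15.KS.H3 -/
section
/-!
# Project KS (MP_768c9c_nt): Prop `H3` (direct terms with a small cofactor)
-/

set_option autoImplicit false
open scoped Classical

namespace Pool.Agent.M17.Helper15.KS

open Pool.Agent.M17.Helper16.KS
open Pool.Agent.M17.Helper15.KS.H3

namespace H3

variable (S : Sys)

/-- one term -/
theorem term_le {k0 : ℕ} {R : Set ℕ} (hR : S.Good k0 R)
    (hW : ∀ p : ℕ, p.Prime → 0 ≤ S.Wp k0 R p ∧ S.Wp k0 R p ≤ S.Fh k0 R p)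
    {k' j' : ℕ} (hk : S.K ≤ k') (hk' : 100 ≤ k') (hj : j' ∈ S.badc k') {x : ℕ × ℕ}
    (hx : x ∈ S.act R k' j') {n : ℕ} (_hn : n ≠ 0) (hxn : x.1 ∣ n) (hQ : S.Q3 (k', j') n x) :
    (n.factorization x.1 : ℝ) * (2 * S.wo R k' j' x.2 * S.W k0 R (n / x.1)) ≤
      4 * S.G k' / S.NN R k' j' * (1 / S.pr x.2) * S.W k0 R (n / x.1 / x.2) := by
  obtain ⟨hq1, hq2, hq3⟩ := hQ
  have hWm := W_m_le S hR hW hk hk' hj hx
  rw [S.mem_act] at hx
  obtain ⟨hx, hxR⟩ := hx
  obtain ⟨h1, h2, h3, h4, h5, h6, h7, -, -⟩ := S.cand_facts hk hj hx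
  set l := n / x.1 / x.2 with hl
  have hm0 : x.2 ≠ 0 := by omega
  have hl0 : l ≠ 0 := by omega
  have hn1 : n / x.1 = x.2 * l := by rw [hl, Nat.mul_div_cancel' hq1]
  have hn2 : n = x.1 * (x.2 * l) := by rw [← hn1, Nat.mul_div_cancel' hxn]
  -- the multiplicity is one
  have hge := (cand_prime_ge S hk hj hx h1 (dvd_mul_right _ _)).1
  have hlq : l < x.1 := by
    have h8 : (l : ℝ) < x.1 := lt_of_lt_of_le hq3 hge
    exact_mod_cast h8
  have hfac : n.factorization x.1 = 1 := by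
    have e1 : (x.2 * l).factorization x.1 = 0 := by
      apply Nat.factorization_eq_zero_of_not_dvd
      intro hdvd
      rcases (Nat.Prime.dvd_mul h1).1 hdvd with h8 | h8
      · have := Nat.Coprime.eq_one_of_dvd h3 h8
        exact h1.one_lt.ne' this
      · exact absurd (Nat.le_of_dvd (Nat.pos_of_ne_zero hl0) h8) (by omega)
    rw [hn2, Nat.factorization_mul h1.ne_zero (mul_ne_zero hm0 hl0), Finsupp.add_apply, e1,
      h1.factorization_self]
  rw [hfac, Nat.cast_one, one_mul, hn1, S.W_mul k0 R hm0 hl0]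
  have hpr := S.pr_pos hm0
  have hba := S.base_pos hm0
  have hN := S.NN_nonneg R k' j'
  have hG := S.G_nonneg k'
  have hWl := S.W_nonneg k0 R l
  have e2 : S.wo R k' j' x.2 * S.base x.2 = S.G k' / S.NN R k' j' * (1 / S.pr x.2) := by
    unfold Sys.wo
    rcases eq_or_lt_of_le hN with h8 | h8
    · rw [← h8]
      simp
    · (clear * - hba hpr h8; field_simp)
  have hwo := S.wo_nonneg R k' j' x.2
  calc 2 * S.wo R k' j' x.2 * (S.W k0 R x.2 * S.W k0 R l)
      ≤ 2 * S.wo R k' j' x.2 * (2 * S.base x.2 * S.W k0 R l) := by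
        apply mul_le_mul_of_nonneg_left _ (by (clear * - hwo; positivity))
        exact mul_le_mul_of_nonneg_right hWm hWl
    _ = 4 * (S.wo R k' j' x.2 * S.base x.2) * S.W k0 R l := by ring
    _ = _ := by
        rw [e2]
        ring

theorem HT_le {k0 : ℕ} {R : Set ℕ} (hR : S.Good k0 R)
    (hW : ∀ p : ℕ, p.Prime → 0 ≤ S.Wp k0 R p ∧ S.Wp k0 R p ≤ S.Fh k0 R p)
    (hk0 : 100 ≤ k0) (hK : S.K ≤ k0) {k j : ℕ} (hj : j < nc S.d k) :
    S.HT k0 R k j S.Q3 ≤ ∑ l ∈ Finset.Ico 2 (2 ^ (k + 1)), S.W k0 R l *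
      ∑ k' ∈ S.hvy k0 k, ∑ j' ∈ S.badc k', ∑ x ∈ S.act R k' j',
      (if (x.1 * x.2 * l ∈ cell S.d k j ∧
          (l : ℝ) < (2 : ℝ) ^ ((S.u (S.cls k' j') + S.c) * k'))
        then 4 * S.G k' / S.NN R k' j' * (1 / S.pr x.2) else 0) := by
  have e1 : S.HT k0 R k j S.Q3 = ∑ k' ∈ S.hvy k0 k, ∑ j' ∈ S.badc k', ∑ x ∈ S.act R k' j',
      ∑ n ∈ (cell S.d k j).filter (fun n => x.1 ∣ n ∧ S.Q3 (k', j') n x),
        (n.factorization x.1 : ℝ) * (2 * S.wo R k' j' x.2 * S.W k0 R (n / x.1)) := by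
    unfold Sys.HT
    simp only [Finset.sum_filter]
    rw [Finset.sum_comm]
    refine Finset.sum_congr rfl fun k' _ => ?_
    rw [Finset.sum_comm]
    refine Finset.sum_congr rfl fun j' _ => ?_
    rw [Finset.sum_comm]
  have e2 : ∑ l ∈ Finset.Ico 2 (2 ^ (k + 1)), S.W k0 R l *
      ∑ k' ∈ S.hvy k0 k, ∑ j' ∈ S.badc k', ∑ x ∈ S.act R k' j',
      (if (x.1 * x.2 * l ∈ cell S.d k j ∧
          (l : ℝ) < (2 : ℝ) ^ ((S.u (S.cls k' j') + S.c) * k'))
        then 4 * S.G k' / S.NN R k' j' * (1 / S.pr x.2) else 0) =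
      ∑ k' ∈ S.hvy k0 k, ∑ j' ∈ S.badc k', ∑ x ∈ S.act R k' j',
      ∑ l ∈ (Finset.Ico 2 (2 ^ (k + 1))).filter (fun l => x.1 * x.2 * l ∈ cell S.d k j ∧
          (l : ℝ) < (2 : ℝ) ^ ((S.u (S.cls k' j') + S.c) * k')),
        4 * S.G k' / S.NN R k' j' * (1 / S.pr x.2) * S.W k0 R l := by
    simp only [Finset.mul_sum, Finset.sum_filter]
    rw [Finset.sum_comm]
    refine Finset.sum_congr rfl fun k' _ => ?_
    rw [Finset.sum_comm]
    refine Finset.sum_congr rfl fun j' _ => ?_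
    rw [Finset.sum_comm]
    refine Finset.sum_congr rfl fun x _ => ?_
    refine Finset.sum_congr rfl fun l _ => ?_
    split_ifs <;> ring
  rw [e1, e2]
  refine Finset.sum_le_sum fun k' hk' => Finset.sum_le_sum fun j' hj' =>
    Finset.sum_le_sum fun x hx => ?_
  have hk'0 : k0 ≤ k' := by
    unfold Sys.hvy at hk'
    rw [Finset.mem_Ico] at hk'
    exact le_trans (le_max_left _ _) hk'.1
  have hxc := S.cand_facts (hK.trans hk'0) hj' ((S.mem_act).1 hx).1
  obtain ⟨h1, h2, h3, h4, h5, h6, h7, -, -⟩ := hxc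
  have hm0 : x.2 ≠ 0 := by omega
  have hfac : ∀ n ∈ (cell S.d k j).filter (fun n => x.1 ∣ n ∧ S.Q3 (k', j') n x),
      n = x.1 * x.2 * (n / x.1 / x.2) := by
    intro n hn
    rw [Finset.mem_filter] at hn
    obtain ⟨-, ha, hb, -⟩ := hn
    rw [mul_assoc, Nat.mul_div_cancel' hb, Nat.mul_div_cancel' ha]
  have hstep1 : ∑ n ∈ (cell S.d k j).filter (fun n => x.1 ∣ n ∧ S.Q3 (k', j') n x),
        (n.factorization x.1 : ℝ) * (2 * S.wo R k' j' x.2 * S.W k0 R (n / x.1)) ≤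
      ∑ n ∈ (cell S.d k j).filter (fun n => x.1 ∣ n ∧ S.Q3 (k', j') n x),
        4 * S.G k' / S.NN R k' j' * (1 / S.pr x.2) * S.W k0 R (n / x.1 / x.2) := by
    refine Finset.sum_le_sum fun n hn => ?_
    rw [Finset.mem_filter] at hn
    have hn0 : n ≠ 0 := by
      have := cell_ge hn.1
      have h9 : 0 < 2 ^ k := by positivity
      omega
    exact term_le S hR hW (hK.trans hk'0) (by omega) hj' hx hn0 hn.2.1 hn.2.2
  refine hstep1.trans ?_
  have hinj : Set.InjOn (fun n : ℕ => n / x.1 / x.2)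
      ((cell S.d k j).filter (fun n => x.1 ∣ n ∧ S.Q3 (k', j') n x) : Set ℕ) := by
    intro n hn m hm hnm
    simp only at hnm
    rw [hfac n hn, hfac m hm, hnm]
  have hsum : ∑ n ∈ (cell S.d k j).filter (fun n => x.1 ∣ n ∧ S.Q3 (k', j') n x),
        4 * S.G k' / S.NN R k' j' * (1 / S.pr x.2) * S.W k0 R (n / x.1 / x.2) =
      ∑ l ∈ ((cell S.d k j).filter (fun n => x.1 ∣ n ∧ S.Q3 (k', j') n x)).image
        (fun n : ℕ => n / x.1 / x.2),
        4 * S.G k' / S.NN R k' j' * (1 / S.pr x.2) * S.W k0 R l := by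
    rw [Finset.sum_image hinj]
  rw [hsum]
  apply Finset.sum_le_sum_of_subset_of_nonneg
  · intro l hl
    rw [Finset.mem_image] at hl
    obtain ⟨n, hn, rfl⟩ := hl
    have hn2 := hfac n hn
    rw [Finset.mem_filter] at hn ⊢
    obtain ⟨hn1, hdvd, hq1, hq2, hq3⟩ := hn
    refine ⟨?_, ?_, hq3⟩
    · rw [Finset.mem_Ico]
      refine ⟨hq2, ?_⟩
      refine lt_of_le_of_lt ?_ (cell_lt S.d_pos hj hn1)
      exact (Nat.div_le_self _ _).trans (Nat.div_le_self _ _)
    · rw [← hn2]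
      exact hn1
  · intro l _ _
    have := S.pr_nonneg x.2
    have := S.G_nonneg k'
    have := S.NN_nonneg R k' j'
    have := S.W_nonneg k0 R l
    positivity

end H3

/-- the Prop `H3` -/
theorem h3 (hWp : WpLe) (hSW : SumW) : Pool.Agent.M17.Helper16.KS.H3 := by
  intro S
  obtain ⟨K1, hK1⟩ := hWp S
  obtain ⟨C, K2, hK2⟩ := hSW S
  obtain ⟨N, hN⟩ := exists_nat_ge (20 * (2048000 * S.C1 * |C|))
  refine ⟨K1 + K2 + S.K + N + 6010, ?_⟩
  intro k0 hk0 R hR k hk j hj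
  have hW := hK1 k0 (by omega) R hR
  have hS := hK2 k0 (by omega) R hR
  have hC1 : 0 < S.C1 := by (clear * -; linarith [S.C1_ge])
  have hGk := S.G_nonneg k
  have hk0R : (0 : ℝ) < k0 := by exact_mod_cast (by omega : 0 < k0)
  refine (H3.HT_le S hR hW (by omega) (by omega) hj).trans ?_
  have hterm : ∀ l ∈ Finset.Ico 2 (2 ^ (k + 1)), S.W k0 R l *
      ∑ k' ∈ S.hvy k0 k, ∑ j' ∈ S.badc k', ∑ x ∈ S.act R k' j',
      (if (x.1 * x.2 * l ∈ cell S.d k j ∧
          (l : ℝ) < (2 : ℝ) ^ ((S.u (S.cls k' j') + S.c) * k'))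
        then 4 * S.G k' / S.NN R k' j' * (1 / S.pr x.2) else 0) ≤
      2048000 * S.C1 * S.G k * (S.W k0 R l * (l : ℝ) ^ (-S.s) * (1 + Real.log l) ^ 2) := by
    intro l hl
    rw [Finset.mem_Ico] at hl
    have hWl := S.W_nonneg k0 R l
    have hlog : 0 ≤ Real.log (l : ℝ) := Real.log_natCast_nonneg l
    have hRHS : 0 ≤ 2048000 * S.C1 * S.G k *
        (S.W k0 R l * (l : ℝ) ^ (-S.s) * (1 + Real.log l) ^ 2) := by (clear * - hC1 hGk hWl; positivity)
    by_cases hsm : (l : ℝ) < (2 : ℝ) ^ ((k0 : ℝ) / 5)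
    · rw [H3.W_zero S hW hl.1 hsm, zero_mul]
      simp
    · have hl32 : 32 ≤ l := by
        rw [not_lt] at hsm
        have h1 : (2 : ℝ) ^ (5 : ℝ) ≤ l := by
          refine le_trans (Real.rpow_le_rpow_of_exponent_le (by norm_num) ?_) hsm
          have : (25 : ℝ) ≤ k0 := by exact_mod_cast (by omega : 25 ≤ k0)
          (clear * - this; linarith)
        rw [show (5 : ℝ) = ((5 : ℕ) : ℝ) by norm_num, Real.rpow_natCast] at h1
        have h2 : (32 : ℝ) ≤ l := by
          refine le_trans ?_ h1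
          norm_num
        exact_mod_cast h2
      set B : ℝ := 1024000 * S.C1 * (S.G k * ((l : ℝ) ^ (-S.s) * (1 + Real.log l))) with hB
      have hB0 : 0 ≤ B := by (clear * - hC1 hGk hl32; positivity)
      have hinner : ∑ k' ∈ S.hvy k0 k, ∑ j' ∈ S.badc k', ∑ x ∈ S.act R k' j',
          (if (x.1 * x.2 * l ∈ cell S.d k j ∧
            (l : ℝ) < (2 : ℝ) ^ ((S.u (S.cls k' j') + S.c) * k'))
            then 4 * S.G k' / S.NN R k' j' * (1 / S.pr x.2) else 0) ≤ 2 * B := by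
        have h1 : ∀ k' ∈ S.hvy k0 k, ∑ j' ∈ S.badc k', ∑ x ∈ S.act R k' j',
          (if (x.1 * x.2 * l ∈ cell S.d k j ∧
            (l : ℝ) < (2 : ℝ) ^ ((S.u (S.cls k' j') + S.c) * k'))
            then 4 * S.G k' / S.NN R k' j' * (1 / S.pr x.2) else 0) ≤
            (if (k' + Nat.log 2 l = k ∨ k' + Nat.log 2 l + 1 = k) then B else 0) := by
          intro k' hk'
          have hk'0 : k0 ≤ k' := by
            unfold Sys.hvy at hk'
            rw [Finset.mem_Ico] at hk'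
            exact le_trans (le_max_left _ _) hk'.1
          exact H3.inner_le S hR (by omega) (by omega) hj hk'0 hl32
        refine (Finset.sum_le_sum h1).trans ?_
        rw [← Finset.sum_filter, Finset.sum_const, nsmul_eq_mul]
        have hcard : ((S.hvy k0 k).filter
            (fun k' => k' + Nat.log 2 l = k ∨ k' + Nat.log 2 l + 1 = k)).card ≤ 2 := by
          refine (Finset.card_le_card (t := {k - Nat.log 2 l, k - Nat.log 2 l - 1}) ?_).trans
            Finset.card_le_two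
          intro k' hk'
          rw [Finset.mem_filter] at hk'
          rw [Finset.mem_insert, Finset.mem_singleton]
          omega
        have hcard' : (((S.hvy k0 k).filter
            (fun k' => k' + Nat.log 2 l = k ∨ k' + Nat.log 2 l + 1 = k)).card : ℝ) ≤ 2 := by
          exact_mod_cast hcard
        exact mul_le_mul_of_nonneg_right hcard' hB0
      refine (mul_le_mul_of_nonneg_left hinner hWl).trans ?_
      have h2 : S.W k0 R l * (2 * B) =
          2048000 * S.C1 * S.G k * (S.W k0 R l * (l : ℝ) ^ (-S.s) * (1 + Real.log l)) := by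
        rw [hB]
        ring
      rw [h2]
      apply mul_le_mul_of_nonneg_left _ (by positivity)
      apply mul_le_mul_of_nonneg_left _ (by positivity)
      (clear * - hlog; nlinarith)
  refine (Finset.sum_le_sum hterm).trans ?_
  rw [← Finset.mul_sum]
  have hsum := hS (Finset.Ico 2 (2 ^ (k + 1))) (fun n hn => (Finset.mem_Ico.1 hn).1)
  have h3 : C / k0 ≤ |C| / k0 := div_le_div_of_nonneg_right (le_abs_self C) hk0R.le
  have h4 : 2048000 * S.C1 * (|C| / k0) ≤ 1 / 20 := by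
    rw [← mul_div_assoc, div_le_div_iff₀ hk0R (by norm_num)]
    have h5 : (N : ℝ) ≤ k0 := by exact_mod_cast (by omega : N ≤ k0)
    (clear * - hN h5; linarith)
  calc 2048000 * S.C1 * S.G k * ∑ i ∈ Finset.Ico 2 (2 ^ (k + 1)),
        S.W k0 R i * (i : ℝ) ^ (-S.s) * (1 + Real.log i) ^ 2
      ≤ 2048000 * S.C1 * S.G k * (|C| / k0) := by
        apply mul_le_mul_of_nonneg_left _ (by positivity)
        exact hsum.trans h3
    _ = S.G k * (2048000 * S.C1 * (|C| / k0)) := by ring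
    _ ≤ S.G k * (1 / 20) := mul_le_mul_of_nonneg_left h4 hGk
    _ = S.G k / 20 := by ring

end Pool.Agent.M17.Helper15.KS
end

/- Helper53.KN.Helper18.KP.Hold -/
section
/-! Project KS, lemma POW: Hölder and detection. -/

set_option autoImplicit false
open MeasureTheory Filter Topology Finset
open scoped Classical ENNReal

namespace Pool.Agent.M17.Helper18.KP

open Pool.Agent.M17.Helper60.KS Pool.Agent.M17.Helper65.KC

theorem GP_continuous {ι : Type} (S : Finset ι) (n : ι → ℕ) (v : ℝ) : Continuous (fun t : ℝ => GP S n v t) := by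
  unfold GP
  fun_prop

theorem GP_norm_le {ι : Type} (S : Finset ι) (n : ι → ℕ) (v t : ℝ) : ‖GP S n v t‖ ≤ S.card := by
  unfold GP
  refine (norm_sum_le _ _).trans ?_
  have : ∀ j ∈ S, ‖Complex.exp (Complex.I * (((v * Real.log (n j)) * t : ℝ) : ℂ))‖ ≤ 1 := by
    intro j _
    rw [mul_comm, Complex.norm_exp_ofReal_mul_I]
  refine (Finset.sum_le_sum this).trans ?_
  simp

theorem gauss_int (T : ℝ) (hT : 0 < T) : Integrable (fun t : ℝ => Real.exp (-(t / T) ^ 2)) ∧
    ∫ t : ℝ, Real.exp (-(t / T) ^ 2) = Real.sqrt Real.pi * T := by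
  have e : (fun t : ℝ => Real.exp (-(t / T) ^ 2)) = fun t : ℝ => Real.exp (-(1 / T ^ 2) * t ^ 2) := by
    funext t
    congr 1
    ring
  rw [e]
  refine ⟨integrable_exp_neg_mul_sq (by positivity), ?_⟩
  rw [integral_gaussian, div_div_eq_mul_div, div_one, Real.sqrt_mul Real.pi_pos.le, Real.sqrt_sq hT.le]

/-- weighted integrability of continuous bounded functions -/
theorem weight_integrable (T : ℝ) (hT : 0 < T) (f : ℝ → ℝ) (hf : Continuous f) (B : ℝ) (hB : ∀ t, |f t| ≤ B) :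
    Integrable (fun t : ℝ => Real.exp (-(t / T) ^ 2) * f t) := by
  have h := (gauss_int T hT).1
  exact h.mul_bdd (c := B) hf.aestronglyMeasurable (Filter.Eventually.of_forall fun t => by
    rw [Real.norm_eq_abs]; exact hB t)

/-- Hölder's inequality with even integer exponents and Gaussian weight -/
theorem holder {α : Type} (s : Finset α) (κ : α → ℕ) (hκ : ∀ i ∈ s, 1 ≤ κ i)
    (hs : ∑ i ∈ s, (1 : ℝ) / (2 * κ i) ≤ 1) (G : α → ℝ → ℂ) (hG : ∀ i ∈ s, Continuous (G i))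
    (N : α → ℝ) (hN : ∀ i ∈ s, ∀ t, ‖G i t‖ ≤ N i) (B : α → ℝ) (hB0 : ∀ i ∈ s, 0 ≤ B i)
    (T : ℝ) (hT : 1 ≤ T)
    (hB : ∀ i ∈ s, ∫ t : ℝ, Real.exp (-(t / T) ^ 2) * ‖G i t‖ ^ (2 * κ i) ≤ T * B i ^ (κ i)) :
    ∫ t : ℝ, Real.exp (-(t / T) ^ 2) * ∏ i ∈ s, ‖G i t‖ ≤ 2 * T * ∏ i ∈ s, Real.sqrt (B i) := by
  have hT0 : 0 < T := by (clear * - hT; linarith)
  set q : ℝ := 1 - ∑ i ∈ s, (1 : ℝ) / (2 * κ i) with hq
  have hq0 : 0 ≤ q := by rw [hq]; (clear * - hs; linarith)
  set p : α → ℝ := fun i => (1 : ℝ) / (2 * κ i) with hp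
  have hp0 : ∀ i ∈ s, 0 ≤ p i := fun i _ => by rw [hp]; (clear * -; positivity)
  have hpq : q + ∑ i ∈ s, p i = 1 := by rw [hq]; ring
  have hppos : ∀ i ∈ s, 0 < p i := fun i hi => by
    have : 0 < κ i := hκ i hi
    rw [hp]; positivity
  -- the inequality in ENNReal
  have hmeasg : AEMeasurable (fun t : ℝ => ENNReal.ofReal (Real.exp (-(t / T) ^ 2))) volume := by
    refine Measurable.aemeasurable ?_
    exact ENNReal.measurable_ofReal.comp (Continuous.measurable (by fun_prop))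
  have hmeasf : ∀ i ∈ s, AEMeasurable (fun t : ℝ => ENNReal.ofReal (Real.exp (-(t / T) ^ 2) * ‖G i t‖ ^ (2 * κ i)))
      volume := by
    intro i hi
    refine Measurable.aemeasurable ?_
    refine ENNReal.measurable_ofReal.comp (Continuous.measurable ?_)
    have := hG i hi
    fun_prop
  have key := ENNReal.lintegral_mul_prod_norm_pow_le (μ := (volume : Measure ℝ)) s hmeasg hmeasf q hpq hq0 hp0
  -- the integrand
  have hpt : ∀ t : ℝ, (ENNReal.ofReal (Real.exp (-(t / T) ^ 2))) ^ q * ∏ i ∈ s,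
      (ENNReal.ofReal (Real.exp (-(t / T) ^ 2) * ‖G i t‖ ^ (2 * κ i))) ^ (p i) =
      ENNReal.ofReal (Real.exp (-(t / T) ^ 2) * ∏ i ∈ s, ‖G i t‖) := by
    intro t
    set g := Real.exp (-(t / T) ^ 2) with hg
    have hg0 : 0 < g := Real.exp_pos _
    have h1 : ∀ i ∈ s, (ENNReal.ofReal (g * ‖G i t‖ ^ (2 * κ i))) ^ (p i) =
        ENNReal.ofReal (g ^ (p i) * ‖G i t‖) := by
      intro i hi
      rw [ENNReal.ofReal_rpow_of_nonneg (by (clear * -; positivity)) (hp0 i hi)]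
      congr 1
      rw [Real.mul_rpow hg0.le (by (clear * -; positivity))]
      congr 1
      have hk : (0 : ℝ) < κ i := by exact_mod_cast hκ i hi
      rw [← Real.rpow_natCast, ← Real.rpow_mul (norm_nonneg _)]
      have : ((2 * κ i : ℕ) : ℝ) * p i = 1 := by
        rw [hp]; push_cast; (clear * - hk; field_simp)
      rw [this, Real.rpow_one]
    rw [Finset.prod_congr rfl h1, ← ENNReal.ofReal_prod_of_nonneg (fun i _ => by positivity),
      ENNReal.ofReal_rpow_of_nonneg hg0.le hq0, ← ENNReal.ofReal_mul (by positivity)]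
    congr 1
    rw [Finset.prod_mul_distrib, ← mul_assoc]
    congr 1
    rw [← Real.rpow_sum_of_pos hg0, ← Real.rpow_add hg0, hpq, Real.rpow_one]
  simp_rw [hpt] at key
  -- left side
  have hcontP : Continuous (fun t : ℝ => ∏ i ∈ s, ‖G i t‖) :=
    continuous_finsetProd s fun i hi => (hG i hi).norm
  have hboundP : ∀ t, |∏ i ∈ s, ‖G i t‖| ≤ ∏ i ∈ s, N i := by
    intro t
    rw [abs_of_nonneg (Finset.prod_nonneg fun i _ => norm_nonneg _)]
    exact Finset.prod_le_prod (fun i _ => norm_nonneg _) fun i hi => hN i hi t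
  have hintL := weight_integrable T hT0 _ hcontP _ hboundP
  have hL : ENNReal.ofReal (∫ t : ℝ, Real.exp (-(t / T) ^ 2) * ∏ i ∈ s, ‖G i t‖) =
      ∫⁻ t : ℝ, ENNReal.ofReal (Real.exp (-(t / T) ^ 2) * ∏ i ∈ s, ‖G i t‖) :=
    ofReal_integral_eq_lintegral_ofReal hintL (Filter.Eventually.of_forall fun t => by
      have : 0 ≤ ∏ i ∈ s, ‖G i t‖ := Finset.prod_nonneg fun i _ => norm_nonneg _
      (clear * -; positivity))
  rw [← hL] at key
  -- right side
  have hR1 : (∫⁻ t : ℝ, ENNReal.ofReal (Real.exp (-(t / T) ^ 2))) ≤ ENNReal.ofReal (2 * T) := by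
    rw [← ofReal_integral_eq_lintegral_ofReal (gauss_int T hT0).1
      (Filter.Eventually.of_forall fun t => (Real.exp_pos _).le), (gauss_int T hT0).2]
    refine ENNReal.ofReal_le_ofReal (mul_le_mul_of_nonneg_right ?_ hT0.le)
    rw [Real.sqrt_le_left (by norm_num)]
    have := Real.pi_le_four
    (clear * - this; linarith)
  have hR2 : ∀ i ∈ s, (∫⁻ t : ℝ, ENNReal.ofReal (Real.exp (-(t / T) ^ 2) * ‖G i t‖ ^ (2 * κ i))) ≤
      ENNReal.ofReal (T * B i ^ (κ i)) := by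
    intro i hi
    have hb : ∀ t, |‖G i t‖ ^ (2 * κ i)| ≤ N i ^ (2 * κ i) := by
      intro t
      rw [abs_of_nonneg (by positivity)]
      exact pow_le_pow_left₀ (norm_nonneg _) (hN i hi t) _
    have hc : Continuous (fun t : ℝ => ‖G i t‖ ^ (2 * κ i)) := ((hG i hi).norm).pow _
    rw [← ofReal_integral_eq_lintegral_ofReal (weight_integrable T hT0 _ hc _ hb)
      (Filter.Eventually.of_forall fun t => by positivity)]
    exact ENNReal.ofReal_le_ofReal (hB i hi)
  have key2 := key.trans (mul_le_mul' (ENNReal.rpow_le_rpow hR1 hq0)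
    (Finset.prod_le_prod' fun i hi => ENNReal.rpow_le_rpow (hR2 i hi) (hp0 i hi)))
  -- convert back
  have h3 : ∀ i ∈ s, (ENNReal.ofReal (T * B i ^ (κ i))) ^ (p i) =
      ENNReal.ofReal (T ^ (p i) * Real.sqrt (B i)) := by
    intro i hi
    have hB00 := hB0 i hi
    rw [ENNReal.ofReal_rpow_of_nonneg (by (clear * - hT hB00; positivity)) (hp0 i hi), Real.mul_rpow hT0.le (by positivity)]
    congr 2
    have hk : (0 : ℝ) < κ i := by exact_mod_cast hκ i hi
    rw [← Real.rpow_natCast, ← Real.rpow_mul hB00, Real.sqrt_eq_rpow]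
    congr 1
    rw [hp]; (clear * - hk; field_simp)
  rw [Finset.prod_congr rfl h3, ← ENNReal.ofReal_prod_of_nonneg (fun i _ => by positivity),
      ENNReal.ofReal_rpow_of_nonneg (by positivity) hq0, ← ENNReal.ofReal_mul (by positivity)] at key2
  have key3 := (ENNReal.ofReal_le_ofReal_iff (by (clear * - hT; positivity))).1 key2
  refine key3.trans ?_
  rw [Finset.prod_mul_distrib, ← Real.rpow_sum_of_pos hT0, Real.mul_rpow (by norm_num) hT0.le, ← mul_assoc]
  refine mul_le_mul_of_nonneg_right ?_ (Finset.prod_nonneg fun i _ => Real.sqrt_nonneg _)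
  rw [mul_assoc, ← Real.rpow_add hT0, hpq, Real.rpow_one]
  refine mul_le_mul_of_nonneg_right ?_ hT0.le
  calc (2 : ℝ) ^ q ≤ 2 ^ (1 : ℝ) := Real.rpow_le_rpow_of_exponent_le (by norm_num) (by
        have : 0 ≤ ∑ i ∈ s, p i := Finset.sum_nonneg hp0
        (clear * - this; linarith))
    _ = 2 := Real.rpow_one 2

/-- detection of the points near `y0` -/
theorem detect {ι : Type} (S : Finset ι) (n : ι → ℕ) (v y0 T : ℝ) (hT : 1 ≤ T) :
    ((S.filter (fun j => |v * Real.log (n j) - y0| ≤ 1 / T)).card : ℝ) ≤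
      1 / T * ∫ t : ℝ, Real.exp (-(t / T) ^ 2) * ‖GP S n v t‖ := by
  have hT0 : 0 < T := by linarith
  have hint : Integrable (fun t : ℝ => Real.exp (-(t / T) ^ 2) * ‖GP S n v t‖) :=
    weight_integrable T hT0 _ (GP_continuous S n v).norm S.card (fun t => by
      rw [abs_of_nonneg (norm_nonneg _)]; exact GP_norm_le S n v t)
  -- the twisted integral
  have h1 : ∫ t : ℝ, ∑ j ∈ S, (Complex.exp (Complex.I * ((v * Real.log (n j) - y0 : ℝ) : ℂ) * t) *
      Complex.exp (-(1 / T ^ 2 : ℂ) * (t : ℂ) ^ 2)) =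
      ∑ j ∈ S, ((Real.sqrt Real.pi * T * Real.exp (-(T * (v * Real.log (n j) - y0)) ^ 2 / 4) : ℝ) : ℂ) := by
    rw [integral_finsetSum]
    · exact Finset.sum_congr rfl fun j _ => gauss_integral T _ hT0
    · intro j _
      exact gauss_integrable T _ hT0
  have h2 : ∀ t : ℝ, ‖∑ j ∈ S, (Complex.exp (Complex.I * ((v * Real.log (n j) - y0 : ℝ) : ℂ) * t) *
      Complex.exp (-(1 / T ^ 2 : ℂ) * (t : ℂ) ^ 2))‖ = Real.exp (-(t / T) ^ 2) * ‖GP S n v t‖ := by
    intro t
    have e1 : ∑ j ∈ S, (Complex.exp (Complex.I * ((v * Real.log (n j) - y0 : ℝ) : ℂ) * t) *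
      Complex.exp (-(1 / T ^ 2 : ℂ) * (t : ℂ) ^ 2)) =
      (Complex.exp (((-y0 * t : ℝ) : ℂ) * Complex.I) * ((Real.exp (-(t / T) ^ 2) : ℝ) : ℂ)) * GP S n v t := by
      unfold GP
      rw [Finset.mul_sum]
      refine Finset.sum_congr rfl fun j _ => ?_
      rw [Complex.ofReal_exp, ← Complex.exp_add, ← Complex.exp_add, ← Complex.exp_add]
      congr 1
      push_cast
      ring
    rw [e1, norm_mul, norm_mul, Complex.norm_exp_ofReal_mul_I, one_mul, Complex.norm_real,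
      Real.norm_of_nonneg (Real.exp_pos _).le]
  have h3 : ‖∑ j ∈ S, ((Real.sqrt Real.pi * T * Real.exp (-(T * (v * Real.log (n j) - y0)) ^ 2 / 4) : ℝ) : ℂ)‖ ≤
      ∫ t : ℝ, Real.exp (-(t / T) ^ 2) * ‖GP S n v t‖ := by
    rw [← h1]
    refine (norm_integral_le_integral_norm _).trans (le_of_eq ?_)
    exact integral_congr_ae (Filter.Eventually.of_forall h2)
  rw [← Complex.ofReal_sum, Complex.norm_real, Real.norm_of_nonneg (Finset.sum_nonneg fun j _ => by positivity)]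
    at h3
  have h4 : ∀ j ∈ S.filter (fun j => |v * Real.log (n j) - y0| ≤ 1 / T), T ≤
      Real.sqrt Real.pi * T * Real.exp (-(T * (v * Real.log (n j) - y0)) ^ 2 / 4) := by
    intro j hj
    rw [Finset.mem_filter] at hj
    have h5 : (T * (v * Real.log (n j) - y0)) ^ 2 ≤ 1 := by
      rw [sq_le_one_iff_abs_le_one, abs_mul, abs_of_pos hT0]
      calc T * |v * Real.log (n j) - y0| ≤ T * (1 / T) := mul_le_mul_of_nonneg_left hj.2 hT0.le
        _ = 1 := by field_simp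
    have h6 : Real.exp (-(1 / 4)) ≤ Real.exp (-(T * (v * Real.log (n j) - y0)) ^ 2 / 4) :=
      Real.exp_le_exp.2 (by (clear * - h5; linarith))
    have h7 : (3 / 4 : ℝ) ≤ Real.exp (-(1 / 4)) := by
      have := Real.add_one_le_exp (-(1 / 4) : ℝ)
      (clear * - this; linarith)
    have h8 : (4 / 3 : ℝ) ≤ Real.sqrt Real.pi := by
      apply Real.le_sqrt_of_sq_le
      have := Real.pi_gt_three
      norm_num
      (clear * - this; linarith)
    calc T = (4 / 3) * T * (3 / 4) := by ring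
      _ ≤ Real.sqrt Real.pi * T * Real.exp (-(T * (v * Real.log (n j) - y0)) ^ 2 / 4) :=
        mul_le_mul (mul_le_mul_of_nonneg_right h8 hT0.le) (h7.trans h6) (by norm_num) (by positivity)
  have h9 : ((S.filter (fun j => |v * Real.log (n j) - y0| ≤ 1 / T)).card : ℝ) * T ≤
      ∑ j ∈ S, Real.sqrt Real.pi * T * Real.exp (-(T * (v * Real.log (n j) - y0)) ^ 2 / 4) := by
    refine le_trans ?_ (Finset.sum_le_sum_of_subset_of_nonneg
      (Finset.filter_subset (fun j => |v * Real.log (n j) - y0| ≤ 1 / T) S) fun j _ _ => by positivity)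
    have := Finset.card_nsmul_le_sum (S.filter (fun j => |v * Real.log (n j) - y0| ≤ 1 / T))
      (fun j => Real.sqrt Real.pi * T * Real.exp (-(T * (v * Real.log (n j) - y0)) ^ 2 / 4)) T h4
    rwa [nsmul_eq_mul] at this
  rw [div_mul_eq_mul_div, one_mul, le_div_iff₀ hT0]
  exact h9.trans h3

end Pool.Agent.M17.Helper18.KP
end

/- Helper53.KN.Helper18.KP.Box -/
section
/-! Project KS, lemma POW: points in a dyadic box. -/

set_option autoImplicit false
open MeasureTheory Filter Topology Finset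
open scoped Classical

namespace Pool.Agent.M17.Helper18.KP

open Pool.Agent.M17.Helper60.KS Pool.Agent.M17.Helper65.KC

/-- value of a tuple -/
def val {r : ℕ} (c : Fin r → ℕ) : ℕ := ∏ i, c i ^ ((i : ℕ) + 1)

theorem log_val {r : ℕ} (c : Fin r → ℕ) (hc : ∀ i, 1 ≤ c i) :
    Real.log (val c) = ∑ i : Fin r, (((i : ℕ) : ℝ) + 1) * Real.log (c i) := by
  unfold val
  push_cast
  rw [Real.log_prod]
  · refine Finset.sum_congr rfl fun i _ => ?_
    rw [Real.log_pow]
    push_cast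
    ring
  · intro i _
    have := hc i
    have : (c i : ℝ) ≠ 0 := by exact_mod_cast (by omega : c i ≠ 0)
    positivity

theorem GP_prod {r : ℕ} (S : Fin r → Finset ℕ) (hS : ∀ i, ∀ a ∈ S i, 1 ≤ a) (t : ℝ) :
    GP (Fintype.piFinset S) val 1 t = ∏ i : Fin r, GP (S i) id (((i : ℕ) : ℝ) + 1) t := by
  unfold GP
  rw [Finset.prod_univ_sum]
  refine Finset.sum_congr rfl fun c hc => ?_
  have hc1 : ∀ i, 1 ≤ c i := fun i => hS i _ ((Fintype.mem_piFinset.1 hc) i)
  rw [← Complex.exp_sum, log_val c hc1, one_mul]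
  congr 1
  rw [← Finset.mul_sum]
  congr 1
  rw [Finset.sum_mul]
  push_cast
  rfl

/-- the box -/
def box {r : ℕ} (C : Fin r → ℕ) : Finset (Fin r → ℕ) := Fintype.piFinset (fun i => Ico (C i) (2 * C i))

theorem core (r K : ℕ) (ε : ℝ) (hε : 0 < ε) : ∃ A : ℝ, 0 < A ∧ ∀ (T : ℝ) (C κ : Fin r → ℕ), 1 ≤ T →
    (∀ i, 1 ≤ C i) → (∀ i, 1 ≤ κ i ∧ κ i ≤ K) → (∀ i, (C i : ℝ) ^ (κ i) ≤ T) →
    ∑ i, (1 : ℝ) / (2 * κ i) ≤ 1 → ∀ y0 : ℝ,
    (((box C).filter (fun c => |Real.log (val c) - y0| ≤ 1 / T)).card : ℝ) ≤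
      A * T ^ ε * ∏ i, Real.sqrt (C i) := by
  obtain ⟨Cm, hCm, hmom⟩ := moment
  set ε' : ℝ := ε / (r + 1) with hε'
  have hε'0 : 0 < ε' := by positivity
  obtain ⟨Cd, hCd, hdiv⟩ := Pool.Agent.M17.Helper89.SLE.divisor_bound ε' hε'0
  set C2 : ℝ := max 1 (Cm * (1 + 3 * 2 ^ K)) with hC2
  have hC21 : 1 ≤ C2 := le_max_left _ _
  set Q : ℝ := Cd * (2 ^ K) ^ ε' * C2 with hQ
  have h2K : (1 : ℝ) ≤ (2 ^ K) ^ ε' := Real.one_le_rpow (one_le_pow₀ (by norm_num)) hε'0.le
  have hQ1 : 1 ≤ Q := by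
    rw [hQ]
    have : 1 ≤ Cd * (2 ^ K) ^ ε' := by (clear * - hCd h2K; nlinarith)
    (clear * - hC21 this; nlinarith)
  refine ⟨2 * Q ^ r, by positivity, ?_⟩
  intro T C κ hT hC hκ hCκ hsum y0
  have hT0 : 0 < T := by linarith
  set D : ℕ := ⌊Cd * (2 ^ K * T) ^ ε'⌋₊ with hD
  have hDr : (D : ℝ) ≤ Cd * (2 ^ K * T) ^ ε' := Nat.floor_le (by positivity)
  have hTε : 1 ≤ T ^ ε' := Real.one_le_rpow hT hε'0.le
  have hDQ : (D : ℝ) * C2 ≤ Q * T ^ ε' := by
    rw [hQ]
    calc (D : ℝ) * C2 ≤ Cd * (2 ^ K * T) ^ ε' * C2 := mul_le_mul_of_nonneg_right hDr (by (clear * - hC21; linarith))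
      _ = Cd * (2 ^ K) ^ ε' * C2 * T ^ ε' := by
        rw [Real.mul_rpow (by positivity) hT0.le]; ring
  set B : Fin r → ℝ := fun i => C i * (D * C2) with hB
  set G : Fin r → ℝ → ℂ := fun i t => GP (Ico (C i) (2 * C i)) id (((i : ℕ) : ℝ) + 1) t with hG
  have hcard : ∀ i, (Ico (C i) (2 * C i)).card = C i := by
    intro i; rw [Nat.card_Ico]; omega
  have hmomi : ∀ i ∈ (Finset.univ : Finset (Fin r)), ∫ t : ℝ, Real.exp (-(t / T) ^ 2) * ‖G i t‖ ^ (2 * κ i) ≤
      T * B i ^ (κ i) := by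
    intro i _
    have h1 := hmom (κ i) ℕ (Ico (C i) (2 * C i)) id (((i : ℕ) : ℝ) + 1) T (2 * C i) 1 D hT
      (by have : (0 : ℝ) ≤ (i : ℕ) := Nat.cast_nonneg _
          linarith) ?_ ?_ ?_
    · refine h1.trans ?_
      rw [hcard i]
      have hCi : (0 : ℝ) < C i := by exact_mod_cast hC i
      have hk := hκ i
      have e1 : (((2 * C i : ℕ) : ℝ)) ^ (κ i) ≤ 2 ^ K * T := by
        push_cast
        rw [mul_pow]
        exact mul_le_mul (pow_le_pow_right₀ (by norm_num) hk.2) (hCκ i) (by positivity) (by positivity)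
      have e2 : 1 + 3 * (((2 * C i : ℕ) : ℝ)) ^ (κ i) / T ≤ 1 + 3 * 2 ^ K := by
        have : 3 * (((2 * C i : ℕ) : ℝ)) ^ (κ i) / T ≤ 3 * 2 ^ K := by
          rw [div_le_iff₀ hT0]; (clear * - e1; linarith)
        (clear * - this; linarith)
      have e3 : Cm * (1 + 3 * (((2 * C i : ℕ) : ℝ)) ^ (κ i) / T) ≤ C2 ^ (κ i) := by
        calc Cm * (1 + 3 * (((2 * C i : ℕ) : ℝ)) ^ (κ i) / T) ≤ Cm * (1 + 3 * 2 ^ K) :=
              mul_le_mul_of_nonneg_left e2 hCm.le
          _ ≤ C2 := le_max_right _ _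
          _ = C2 ^ 1 := (pow_one _).symm
          _ ≤ C2 ^ (κ i) := pow_le_pow_right₀ hC21 hk.1
      calc Cm * T * ((C i : ℝ) ^ κ i * ((1 : ℕ) * (D : ℝ)) ^ κ i * (1 + 3 * (((2 * C i : ℕ) : ℝ)) ^ κ i / T))
          = T * ((C i : ℝ) ^ κ i * (D : ℝ) ^ κ i) * (Cm * (1 + 3 * (((2 * C i : ℕ) : ℝ)) ^ (κ i) / T)) := by
            push_cast; ring
        _ ≤ T * ((C i : ℝ) ^ κ i * (D : ℝ) ^ κ i) * C2 ^ (κ i) :=
            mul_le_mul_of_nonneg_left e3 (by (clear * - hT hCi; positivity))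
        _ = T * B i ^ (κ i) := by rw [hB]; simp only; rw [mul_pow, mul_pow]; ring
    · intro j hj
      rw [Finset.mem_Ico] at hj
      have := hC i
      exact ⟨by simp only [id]; omega, by simp only [id]; omega⟩
    · intro m'
      refine Finset.card_le_one.2 ?_
      intro a ha b hb
      rw [Finset.mem_filter] at ha hb
      simp only [id] at ha hb
      rw [ha.2, hb.2]
    · intro m' hm1 hm2
      refine Nat.le_floor ?_
      refine (hdiv m' hm1).trans ?_
      refine mul_le_mul_of_nonneg_left ?_ (by (clear * - hCd; linarith))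
      refine Real.rpow_le_rpow (Nat.cast_nonneg _) ?_ hε'0.le
      have : (m' : ℝ) ≤ ((2 * C i : ℕ) : ℝ) ^ (κ i) := by exact_mod_cast hm2
      refine this.trans ?_
      push_cast
      rw [mul_pow]
      exact mul_le_mul (pow_le_pow_right₀ (by norm_num) (hκ i).2) (hCκ i) (by positivity) (by positivity)
  have hH := holder (Finset.univ : Finset (Fin r)) κ (fun i _ => (hκ i).1) hsum G
    (fun i _ => GP_continuous _ _ _) (fun i => ((Ico (C i) (2 * C i)).card : ℝ))
    (fun i _ t => GP_norm_le _ _ _ _) B (fun i _ => by rw [hB]; (clear * -; positivity)) T hT hmomi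
  have hdet := detect (box C) val 1 y0 T hT
  simp only [one_mul] at hdet
  refine hdet.trans ?_
  have e4 : ∀ t : ℝ, ‖GP (box C) val 1 t‖ = ∏ i, ‖G i t‖ := by
    intro t
    rw [box, GP_prod _ (fun i a ha => by rw [Finset.mem_Ico] at ha; have := hC i; omega), norm_prod]
  simp_rw [e4]
  have e5 : ∏ i, Real.sqrt (B i) ≤ (Q ^ r * T ^ ε) * ∏ i, Real.sqrt (C i) := by
    have e6 : ∀ i, Real.sqrt (B i) ≤ Real.sqrt (C i) * (Q * T ^ ε') := by
      intro i
      rw [hB]
      simp only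
      rw [Real.sqrt_mul (Nat.cast_nonneg _)]
      refine mul_le_mul_of_nonneg_left ?_ (Real.sqrt_nonneg _)
      refine (Real.sqrt_le_sqrt hDQ).trans ?_
      have h1 : 1 ≤ Q * T ^ ε' := by (clear * - hQ1 hTε; nlinarith)
      rw [Real.sqrt_le_left (by (clear * - h1; linarith))]
      (clear * - h1; nlinarith)
    refine (Finset.prod_le_prod (fun i _ => Real.sqrt_nonneg _) fun i _ => e6 i).trans ?_
    rw [Finset.prod_mul_distrib, Finset.prod_const, Finset.card_univ, Fintype.card_fin, mul_comm]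
    refine mul_le_mul_of_nonneg_right ?_ (Finset.prod_nonneg fun i _ => Real.sqrt_nonneg _)
    rw [mul_pow, ← Real.rpow_natCast (T ^ ε'), ← Real.rpow_mul hT0.le]
    refine mul_le_mul_of_nonneg_left ?_ (by positivity)
    refine Real.rpow_le_rpow_of_exponent_le hT ?_
    rw [hε', div_mul_eq_mul_div, div_le_iff₀ (by positivity)]
    (clear * - hε; nlinarith)
  calc 1 / T * ∫ t : ℝ, Real.exp (-(t / T) ^ 2) * ∏ i, ‖G i t‖
      ≤ 1 / T * (2 * T * ∏ i, Real.sqrt (B i)) := mul_le_mul_of_nonneg_left hH (by positivity)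
    _ = 2 * ∏ i, Real.sqrt (B i) := by (clear * - hT; field_simp)
    _ ≤ 2 * ((Q ^ r * T ^ ε) * ∏ i, Real.sqrt (C i)) := by (clear * - e5; linarith)
    _ = 2 * Q ^ r * T ^ ε * ∏ i, Real.sqrt (C i) := by ring

end Pool.Agent.M17.Helper18.KP
end

/- Helper53.KN.Helper18.KP.Arith -/
section
/-! Project KS, lemma POW: decomposition of an integer by exponents. -/

set_option autoImplicit false
open Finset
open scoped Classical

namespace Pool.Agent.M17.Helper18.KP

/-- the product of the primes of exponent exactly `e` -/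
noncomputable def cp (k e : ℕ) : ℕ := ∏ p ∈ k.primeFactors.filter (fun p => k.factorization p = e), p

noncomputable def ap (V k : ℕ) : ℕ :=
  ∏ p ∈ k.primeFactors.filter (fun p => V ≤ k.factorization p), p ^ (k.factorization p / V)

noncomputable def bp (V k : ℕ) : ℕ :=
  ∏ p ∈ k.primeFactors.filter (fun p => V ≤ k.factorization p), p ^ (k.factorization p % V)

theorem cp_pos (k e : ℕ) : 1 ≤ cp k e := by
  refine Nat.one_le_iff_ne_zero.2 (Finset.prod_ne_zero_iff.2 fun p hp => ?_)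
  rw [Finset.mem_filter] at hp
  exact (Nat.prime_of_mem_primeFactors hp.1).ne_zero

theorem ap_pos (V k : ℕ) : 1 ≤ ap V k := by
  refine Nat.one_le_iff_ne_zero.2 (Finset.prod_ne_zero_iff.2 fun p hp => ?_)
  rw [Finset.mem_filter] at hp
  exact pow_ne_zero _ (Nat.prime_of_mem_primeFactors hp.1).ne_zero

theorem bp_pos (V k : ℕ) : 1 ≤ bp V k := by
  refine Nat.one_le_iff_ne_zero.2 (Finset.prod_ne_zero_iff.2 fun p hp => ?_)
  rw [Finset.mem_filter] at hp
  exact pow_ne_zero _ (Nat.prime_of_mem_primeFactors hp.1).ne_zero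

theorem bp_dvd (V k : ℕ) (hV : 1 ≤ V) : bp V k ∣ ap V k ^ V := by
  unfold bp ap
  rw [← Finset.prod_pow]
  refine Finset.prod_dvd_prod_of_dvd _ _ fun p hp => ?_
  rw [Finset.mem_filter] at hp
  rw [← pow_mul]
  refine pow_dvd_pow _ ?_
  have h1 : k.factorization p % V < V := Nat.mod_lt _ (by omega)
  have h2 : 1 ≤ k.factorization p / V := (Nat.one_le_div_iff (by omega)).2 hp.2
  calc k.factorization p % V ≤ V := h1.le
    _ = 1 * V := (one_mul V).symm
    _ ≤ k.factorization p / V * V := Nat.mul_le_mul_right V h2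

theorem fiber_prod (r k : ℕ) (F : ℕ → ℕ) :
    ∏ i : Fin r, ∏ p ∈ k.primeFactors.filter (fun p => k.factorization p = (i : ℕ) + 1), F p =
      ∏ p ∈ k.primeFactors.filter (fun p => ¬ r + 1 ≤ k.factorization p), F p := by
  rw [← Finset.prod_range (fun i => ∏ p ∈ k.primeFactors.filter (fun p => k.factorization p = i + 1), F p)]
  rw [← Finset.prod_fiberwise_of_maps_to (s := k.primeFactors.filter (fun p => ¬ r + 1 ≤ k.factorization p))
    (t := Finset.range r) (g := fun p => k.factorization p - 1)]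
  · refine Finset.prod_congr rfl fun i hi => ?_
    rw [Finset.mem_range] at hi
    refine Finset.prod_congr ?_ fun _ _ => rfl
    ext p
    simp only [Finset.mem_filter]
    constructor
    · rintro ⟨h1, h2⟩
      exact ⟨⟨h1, by omega⟩, by omega⟩
    · rintro ⟨⟨h1, h2⟩, h3⟩
      have h4 : 0 < k.factorization p :=
        (Nat.prime_of_mem_primeFactors h1).factorization_pos_of_dvd (by
          have := Nat.mem_primeFactors.1 h1; exact this.2.2) (Nat.dvd_of_mem_primeFactors h1)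
      exact ⟨h1, by omega⟩
  · intro p hp
    rw [Finset.mem_filter] at hp
    have h4 : 0 < k.factorization p :=
        (Nat.prime_of_mem_primeFactors hp.1).factorization_pos_of_dvd (by
          have := Nat.mem_primeFactors.1 hp.1; exact this.2.2) (Nat.dvd_of_mem_primeFactors hp.1)
    rw [Finset.mem_range]
    omega

theorem decomp (r k : ℕ) (hk : k ≠ 0) :
    k = ap (r + 1) k ^ (r + 1) * bp (r + 1) k * val (fun i : Fin r => cp k ((i : ℕ) + 1)) := by
  have h1 : ap (r + 1) k ^ (r + 1) * bp (r + 1) k =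
      ∏ p ∈ k.primeFactors.filter (fun p => r + 1 ≤ k.factorization p), p ^ k.factorization p := by
    unfold ap bp
    rw [← Finset.prod_pow, ← Finset.prod_mul_distrib]
    refine Finset.prod_congr rfl fun p _ => ?_
    rw [← pow_mul, ← pow_add]
    congr 1
    rw [mul_comm]
    exact Nat.div_add_mod _ _
  have h2 : val (fun i : Fin r => cp k ((i : ℕ) + 1)) =
      ∏ p ∈ k.primeFactors.filter (fun p => ¬ r + 1 ≤ k.factorization p), p ^ k.factorization p := by
    rw [← fiber_prod r k (fun p => p ^ k.factorization p)]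
    unfold val cp
    refine Finset.prod_congr rfl fun i _ => ?_
    rw [← Finset.prod_pow]
    refine Finset.prod_congr rfl fun p hp => ?_
    rw [Finset.mem_filter] at hp
    rw [hp.2]
  rw [h1, h2, Finset.prod_filter_mul_prod_filter_not]
  conv_lhs => rw [← Nat.prod_factorization_pow_eq_self hk]
  rfl

theorem prod_cp_le (r k : ℕ) : ∏ i : Fin r, cp k ((i : ℕ) + 1) ≤ ∏ p ∈ k.primeFactors, p := by
  have h1 : ∏ i : Fin r, cp k ((i : ℕ) + 1) =
      ∏ p ∈ k.primeFactors.filter (fun p => ¬ r + 1 ≤ k.factorization p), p := fiber_prod r k (fun p => p)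
  rw [h1]
  refine Finset.prod_le_prod_of_subset_of_one_le' (Finset.filter_subset _ _) fun p hp _ => ?_
  exact (Nat.prime_of_mem_primeFactors hp).one_le

end Pool.Agent.M17.Helper18.KP
end

/- Helper53.KN.Helper18.KP.Box2 -/
section
/-! Project KS, lemma POW: points in a dyadic box, the other cases. -/

set_option autoImplicit false
open MeasureTheory Filter Topology Finset
open scoped Classical

namespace Pool.Agent.M17.Helper18.KP

open Pool.Agent.M17.Helper60.KS Pool.Agent.M17.Helper65.KC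

theorem core2 (r : ℕ) (ε : ℝ) (hε : 0 < ε) : ∃ A : ℝ, 0 < A ∧ ∀ (T : ℝ) (C : Fin r → ℕ), 1 ≤ T →
    (∀ i, 1 ≤ C i) → ∀ i0 : Fin r, 1 ≤ (i0 : ℕ) → T ≤ (C i0 : ℝ) ^ 2 → ((val C : ℕ) : ℝ) ≤ 2 * T ^ 2 →
    ∀ y0 : ℝ, (((box C).filter (fun c => |Real.log (val c) - y0| ≤ 1 / T)).card : ℝ) ≤
      A * T ^ ε * ∏ i, Real.sqrt (C i) := by
  obtain ⟨Cm, hCm, hmom⟩ := moment
  set ε' : ℝ := ε / (r + 2) with hε'
  have hε'0 : 0 < ε' := by (clear * - hε; positivity)
  obtain ⟨Cd, hCd, hdiv⟩ := Pool.Agent.M17.Helper89.SLE.divisor_bound ε' hε'0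
  set s : ℕ := ∑ i : Fin r, ((i : ℕ) + 1) with hs
  set C2 : ℝ := max 1 (Cm * (1 + 3 * 2 ^ (s + 4))) with hC2
  have hC21 : 1 ≤ C2 := le_max_left _ _
  set Q : ℝ := Cd * (2 ^ (s + 4)) ^ ε' with hQ
  have h2K : (1 : ℝ) ≤ (2 ^ (s + 4)) ^ ε' := Real.one_le_rpow (one_le_pow₀ (by norm_num)) hε'0.le
  have hQ1 : 1 ≤ Q := by
    rw [hQ]; (clear * - hCd h2K; nlinarith)
  refine ⟨2 * (Q ^ (r + 2) * C2 ^ 2), by positivity, ?_⟩
  intro T C hT hC i0 hi0 hTC hval y0
  have hT0 : 0 < T := by (clear * - hT; linarith)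
  set D : ℕ := ⌊Cd * (2 ^ (s + 4) * T) ^ ε'⌋₊ with hD
  have hDr : (D : ℝ) ≤ Cd * (2 ^ (s + 4) * T) ^ ε' := Nat.floor_le (by positivity)
  have hTε : 1 ≤ T ^ ε' := Real.one_le_rpow hT hε'0.le
  have hDQ : (D : ℝ) ≤ Q * T ^ ε' := by
    rw [hQ]
    calc (D : ℝ) ≤ Cd * (2 ^ (s + 4) * T) ^ ε' := hDr
      _ = Cd * (2 ^ (s + 4)) ^ ε' * T ^ ε' := by
        rw [Real.mul_rpow (by positivity) hT0.le]; ring
  have hDdiv : ∀ m : ℕ, 1 ≤ m → (m : ℝ) ≤ 2 ^ (s + 4) * T → m.divisors.card ≤ D := by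
    intro m hm1 hm2
    refine Nat.le_floor ?_
    refine (hdiv m hm1).trans ?_
    refine mul_le_mul_of_nonneg_left ?_ (by (clear * - hCd; linarith))
    exact Real.rpow_le_rpow (Nat.cast_nonneg _) hm2 hε'0.le
  -- the rest
  set S' : Fin r → Finset ℕ := fun i => if i = i0 then {1} else Ico (C i) (2 * C i) with hS'
  have hS'1 : ∀ i, ∀ a ∈ S' i, 1 ≤ a := by
    intro i a ha
    rw [hS'] at ha
    simp only at ha
    split_ifs at ha with h
    · rw [Finset.mem_singleton] at ha; omega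
    · rw [Finset.mem_Ico] at ha
      have := hC i
      omega
  set R := Fintype.piFinset S' with hR
  -- size of the values on the rest
  have hCi0 : (1 : ℝ) ≤ C i0 := by exact_mod_cast hC i0
  have hbig : T ≤ (C i0 : ℝ) ^ ((i0 : ℕ) + 1) :=
    hTC.trans (pow_le_pow_right₀ hCi0 (by omega))
  have hvalR : ∀ c ∈ R, 1 ≤ val c ∧ ((val c : ℕ) : ℝ) ≤ 2 ^ (s + 4) * T := by
    intro c hc
    have hc1 : ∀ i, c i ∈ S' i := fun i => (Fintype.mem_piFinset.1 hc) i
    refine ⟨Nat.one_le_iff_ne_zero.2 (Finset.prod_ne_zero_iff.2 fun i _ => ?_), ?_⟩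
    · have := hS'1 i _ (hc1 i)
      exact pow_ne_zero _ (by omega)
    · have h1 : val c * C i0 ^ ((i0 : ℕ) + 1) ≤ 2 ^ s * val C := by
        have e1 : val c * C i0 ^ ((i0 : ℕ) + 1) =
            ∏ i : Fin r, (c i ^ ((i : ℕ) + 1) * (if i = i0 then C i ^ ((i : ℕ) + 1) else 1)) := by
          rw [Finset.prod_mul_distrib, Finset.prod_ite_eq' Finset.univ i0]
          simp [val]
        have e2 : 2 ^ s * val C = ∏ i : Fin r, (2 ^ ((i : ℕ) + 1) * C i ^ ((i : ℕ) + 1)) := by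
          rw [Finset.prod_mul_distrib, Finset.prod_pow_eq_pow_sum]
          rfl
        rw [e1, e2]
        refine Finset.prod_le_prod' fun i _ => ?_
        have h2 := hc1 i
        rw [hS'] at h2
        simp only at h2
        split_ifs with h
        · rw [if_pos h, Finset.mem_singleton] at h2
          rw [h2, one_pow, one_mul]
          exact Nat.le_mul_of_pos_left _ (by positivity)
        · rw [if_neg h, Finset.mem_Ico] at h2
          rw [mul_one, ← mul_pow]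
          exact Nat.pow_le_pow_left (by omega) _
      have h3 : ((val c : ℕ) : ℝ) * (C i0 : ℝ) ^ ((i0 : ℕ) + 1) ≤ 2 ^ s * ((val C : ℕ) : ℝ) := by exact_mod_cast h1
      have h4 : ((val c : ℕ) : ℝ) * T ≤ 2 ^ s * (2 * T ^ 2) := by
        calc ((val c : ℕ) : ℝ) * T ≤ ((val c : ℕ) : ℝ) * (C i0 : ℝ) ^ ((i0 : ℕ) + 1) :=
              mul_le_mul_of_nonneg_left hbig (Nat.cast_nonneg _)
          _ ≤ 2 ^ s * ((val C : ℕ) : ℝ) := h3
          _ ≤ 2 ^ s * (2 * T ^ 2) := mul_le_mul_of_nonneg_left hval (by positivity)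
      have h5 : ((val c : ℕ) : ℝ) ≤ 2 ^ s * (2 * T) := by
        have : ((val c : ℕ) : ℝ) * T ≤ (2 ^ s * (2 * T)) * T := by
          calc ((val c : ℕ) : ℝ) * T ≤ 2 ^ s * (2 * T ^ 2) := h4
            _ = (2 ^ s * (2 * T)) * T := by ring
        exact le_of_mul_le_mul_right this hT0
      calc ((val c : ℕ) : ℝ) ≤ 2 ^ s * (2 * T) := h5
        _ ≤ 2 ^ s * (16 * T) := mul_le_mul_of_nonneg_left (by (clear * - hT; linarith)) (by positivity)
        _ = 2 ^ (s + 4) * T := by rw [pow_add]; norm_num; ring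
  set M : ℕ := ⌊2 ^ (s + 4) * T⌋₊ with hM
  have hMr : (M : ℝ) ≤ 2 ^ (s + 4) * T := Nat.floor_le (by positivity)
  have hvalM : ∀ c ∈ R, 1 ≤ val c ∧ val c ≤ M := fun c hc =>
    ⟨(hvalR c hc).1, Nat.le_floor (hvalR c hc).2⟩
  have hfib : ∀ m : ℕ, (R.filter (fun c => val c = m)).card ≤ D ^ r := by
    intro m
    rcases Finset.eq_empty_or_nonempty (R.filter (fun c => val c = m)) with he | ⟨q, hq⟩
    · rw [he]; simp
    rw [Finset.mem_filter] at hq
    have hm := hvalR q hq.1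
    rw [hq.2] at hm
    have hsub : R.filter (fun c => val c = m) ⊆ Fintype.piFinset (fun _ : Fin r => m.divisors) := by
      intro c hc
      rw [Finset.mem_filter] at hc
      rw [Fintype.mem_piFinset]
      intro i
      rw [Nat.mem_divisors]
      refine ⟨?_, by omega⟩
      rw [← hc.2]
      exact (dvd_pow_self (c i) (by omega : (i : ℕ) + 1 ≠ 0)).trans
        (Finset.dvd_prod_of_mem (fun i : Fin r => c i ^ ((i : ℕ) + 1)) (Finset.mem_univ i))
    refine (Finset.card_le_card hsub).trans ?_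
    rw [Fintype.card_piFinset]
    simp only [Finset.prod_const, Finset.card_univ, Fintype.card_fin]
    exact Nat.pow_le_pow_left (hDdiv m hm.1 hm.2) r
  -- moments
  have hM1 : 1 + 3 * (M : ℝ) / T ≤ 1 + 3 * 2 ^ (s + 4) := by
    have : 3 * (M : ℝ) / T ≤ 3 * 2 ^ (s + 4) := by
      rw [div_le_iff₀ hT0]; (clear * - hMr; linarith)
    (clear * - this; linarith)
  have hmomF : ∫ t : ℝ, Real.exp (-(t / T) ^ 2) * ‖GP R val 1 t‖ ^ (2 * 1) ≤
      T * (R.card * ((D : ℝ) ^ (r + 1) * C2)) ^ 1 := by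
    have h1 := hmom 1 (Fin r → ℕ) R val 1 T M (D ^ r) D hT le_rfl hvalM hfib
      (fun m hm1 hm2 => hDdiv m hm1 (by
        rw [pow_one] at hm2
        exact le_trans (by exact_mod_cast hm2) hMr))
    refine h1.trans ?_
    rw [pow_one, pow_one, pow_one, pow_one]
    have e3 : Cm * (1 + 3 * (M : ℝ) / T) ≤ C2 :=
      (mul_le_mul_of_nonneg_left hM1 hCm.le).trans (le_max_right _ _)
    calc Cm * T * ((R.card : ℝ) * (((D ^ r : ℕ) : ℝ) * (D : ℝ)) * (1 + 3 * (M : ℝ) / T))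
        = T * ((R.card : ℝ) * (D : ℝ) ^ (r + 1)) * (Cm * (1 + 3 * (M : ℝ) / T)) := by push_cast; ring
      _ ≤ T * ((R.card : ℝ) * (D : ℝ) ^ (r + 1)) * C2 := mul_le_mul_of_nonneg_left e3 (by (clear * - hT; positivity))
      _ = T * (R.card * ((D : ℝ) ^ (r + 1) * C2)) := by ring
  have hC0T : (C i0 : ℝ) ≤ 2 * T := by
    have h1 : C i0 ^ ((i0 : ℕ) + 1) ≤ val C := by
      refine Nat.le_of_dvd ?_ (Finset.dvd_prod_of_mem (fun i : Fin r => C i ^ ((i : ℕ) + 1)) (Finset.mem_univ i0))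
      exact Nat.pos_of_ne_zero (Finset.prod_ne_zero_iff.2 fun i _ => pow_ne_zero _ (by have := hC i; omega))
    have h2 : (C i0 : ℝ) ^ 2 ≤ 2 * T ^ 2 := by
      calc (C i0 : ℝ) ^ 2 ≤ (C i0 : ℝ) ^ ((i0 : ℕ) + 1) := pow_le_pow_right₀ hCi0 (by omega)
        _ ≤ ((val C : ℕ) : ℝ) := by exact_mod_cast h1
        _ ≤ 2 * T ^ 2 := hval
    have h3 : (C i0 : ℝ) ^ 2 ≤ (2 * T) ^ 2 := by (clear * - hT hTC h2; nlinarith)
    exact le_of_sq_le_sq h3 (by positivity)
  have hmomT : ∫ t : ℝ, Real.exp (-(t / T) ^ 2) *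
      ‖GP (Ico (C i0) (2 * C i0)) id (((i0 : ℕ) : ℝ) + 1) t‖ ^ (2 * 1) ≤ T * (C i0 * (D * C2)) ^ 1 := by
    have h1 := hmom 1 ℕ (Ico (C i0) (2 * C i0)) id (((i0 : ℕ) : ℝ) + 1) T (2 * C i0) 1 D hT
      (by have : (0 : ℝ) ≤ ((i0 : ℕ) : ℝ) := Nat.cast_nonneg _
          (clear * -; linarith)) ?_ ?_ ?_
    · refine h1.trans ?_
      have hc : (Ico (C i0) (2 * C i0)).card = C i0 := by rw [Nat.card_Ico]; omega
      rw [hc, pow_one, pow_one, pow_one, pow_one]
      have e2 : 1 + 3 * (((2 * C i0 : ℕ) : ℝ)) / T ≤ 1 + 3 * 2 ^ (s + 4) := by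
        have : 3 * (((2 * C i0 : ℕ) : ℝ)) / T ≤ 3 * 2 ^ (s + 4) := by
          rw [div_le_iff₀ hT0]
          push_cast
          have h16 : (16 : ℝ) ≤ 2 ^ (s + 4) := by
            rw [pow_add]
            have : (1 : ℝ) ≤ 2 ^ s := one_le_pow₀ (by norm_num)
            norm_num
            (clear * - this; linarith)
          (clear * - hT hC0T h16; nlinarith)
        (clear * - this; linarith)
      have e3 : Cm * (1 + 3 * (((2 * C i0 : ℕ) : ℝ)) / T) ≤ C2 :=
        (mul_le_mul_of_nonneg_left e2 hCm.le).trans (le_max_right _ _)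
      calc Cm * T * ((C i0 : ℝ) * (((1 : ℕ) : ℝ) * (D : ℝ)) * (1 + 3 * (((2 * C i0 : ℕ) : ℝ)) / T))
          = T * ((C i0 : ℝ) * (D : ℝ)) * (Cm * (1 + 3 * (((2 * C i0 : ℕ) : ℝ)) / T)) := by push_cast; ring
        _ ≤ T * ((C i0 : ℝ) * (D : ℝ)) * C2 := mul_le_mul_of_nonneg_left e3 (by (clear * - hT hCi0; positivity))
        _ = T * (C i0 * (D * C2)) := by ring
    · intro j hj
      rw [Finset.mem_Ico] at hj
      have := hC i0
      exact ⟨by simp only [id]; omega, by simp only [id]; omega⟩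
    · intro m'
      refine Finset.card_le_one.2 ?_
      intro a ha b hb
      rw [Finset.mem_filter] at ha hb
      simp only [id] at ha hb
      rw [ha.2, hb.2]
    · intro m' hm1 hm2
      refine hDdiv m' hm1 ?_
      rw [pow_one] at hm2
      have h6 : (m' : ℝ) ≤ 2 * C i0 := by exact_mod_cast hm2
      have h16 : (16 : ℝ) ≤ 2 ^ (s + 4) := by
        rw [pow_add]
        have : (1 : ℝ) ≤ 2 ^ s := one_le_pow₀ (by norm_num)
        norm_num
        (clear * - this; linarith)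
      (clear * - hT hC0T h6 h16; nlinarith)
  -- Hölder
  set G : Bool → ℝ → ℂ := fun b t => bif b then GP (Ico (C i0) (2 * C i0)) id (((i0 : ℕ) : ℝ) + 1) t
    else GP R val 1 t with hG
  set B : Bool → ℝ := fun b => bif b then C i0 * (D * C2) else R.card * ((D : ℝ) ^ (r + 1) * C2) with hB
  have hH := holder (Finset.univ : Finset Bool) (fun _ => 1) (fun _ _ => le_rfl)
    (by rw [Fintype.sum_bool]; norm_num) G
    (fun b _ => by cases b <;> exact GP_continuous _ _ _)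
    (fun b => bif b then ((Ico (C i0) (2 * C i0)).card : ℝ) else (R.card : ℝ))
    (fun b _ t => by cases b <;> exact GP_norm_le _ _ _ _) B
    (fun b _ => by cases b <;> (rw [hB]; simp only [cond_true, cond_false]; (clear * - hCi0; positivity))) T hT
    (fun b _ => by cases b; exacts [hmomF, hmomT])
  rw [Fintype.prod_bool] at hH
  have hdet := detect (box C) val 1 y0 T hT
  simp only [one_mul] at hdet
  refine hdet.trans ?_
  have e4 : ∀ t : ℝ, ‖GP (box C) val 1 t‖ = ∏ b : Bool, ‖G b t‖ := by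
    intro t
    rw [Fintype.prod_bool]
    simp only [hG, cond_true, cond_false]
    rw [hR, GP_prod S' hS'1, box, GP_prod _ (fun i a ha => by rw [Finset.mem_Ico] at ha; have := hC i; omega),
      norm_prod, norm_prod]
    have e5 : ∀ i : Fin r, ‖GP (Ico (C i) (2 * C i)) id (((i : ℕ) : ℝ) + 1) t‖ =
        (if i = i0 then ‖GP (Ico (C i) (2 * C i)) id (((i : ℕ) : ℝ) + 1) t‖ else 1) *
          ‖GP (S' i) id (((i : ℕ) : ℝ) + 1) t‖ := by
      intro i
      split_ifs with h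
      · have : ‖GP (S' i) id (((i : ℕ) : ℝ) + 1) t‖ = 1 := by
          rw [hS']
          simp only [if_pos h]
          unfold GP
          simp
        rw [this, mul_one]
      · rw [one_mul, hS']
        simp only [if_neg h]
    rw [Finset.prod_congr rfl (fun i _ => e5 i), Finset.prod_mul_distrib, Finset.prod_ite_eq' Finset.univ i0]
    simp
  have hRcard : (C i0 : ℝ) * R.card = ∏ i, (C i : ℝ) := by
    have e6 : R.card = ∏ i : Fin r, (if i = i0 then 1 else C i) := by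
      rw [hR, Fintype.card_piFinset]
      refine Finset.prod_congr rfl fun i _ => ?_
      rw [hS']
      simp only
      split_ifs with h
      · simp
      · rw [Nat.card_Ico]; omega
    have e7 : C i0 * R.card = ∏ i : Fin r, C i := by
      rw [e6]
      have e8 : ∀ i : Fin r, C i = (if i = i0 then C i else 1) * (if i = i0 then 1 else C i) := by
        intro i; split_ifs <;> simp
      conv_rhs => rw [Finset.prod_congr rfl (fun i _ => e8 i)]
      rw [Finset.prod_mul_distrib, Finset.prod_ite_eq' Finset.univ i0]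
      simp
    exact_mod_cast e7
  have e9 : Real.sqrt (B true) * Real.sqrt (B false) ≤ (Q ^ (r + 2) * C2 ^ 2 * T ^ ε) * ∏ i, Real.sqrt (C i) := by
    have e10 : B true * B false = (∏ i, (C i : ℝ)) * ((D : ℝ) ^ (r + 2) * C2 ^ 2) := by
      rw [← hRcard, hB]
      simp only [cond_true, cond_false]
      ring
    rw [← Real.sqrt_mul (by rw [hB]; simp only [cond_true]; (clear * - hCi0; positivity)), e10,
      Real.sqrt_mul (Finset.prod_nonneg fun i _ => Nat.cast_nonneg _)]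
    have e11 : Real.sqrt (∏ i, (C i : ℝ)) = ∏ i, Real.sqrt (C i) := by
      rw [Real.sqrt_eq_rpow, ← Real.finsetProd_rpow _ _ (fun i _ => Nat.cast_nonneg _)]
      exact Finset.prod_congr rfl fun i _ => (Real.sqrt_eq_rpow _).symm
    rw [e11, mul_comm]
    refine mul_le_mul_of_nonneg_right ?_ (Finset.prod_nonneg fun i _ => Real.sqrt_nonneg _)
    have e12 : (D : ℝ) ^ (r + 2) * C2 ^ 2 ≤ Q ^ (r + 2) * C2 ^ 2 * T ^ ε := by
      have e13 : (D : ℝ) ^ (r + 2) ≤ (Q * T ^ ε') ^ (r + 2) := pow_le_pow_left₀ (Nat.cast_nonneg _) hDQ _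
      have e14 : (Q * T ^ ε') ^ (r + 2) ≤ Q ^ (r + 2) * T ^ ε := by
        rw [mul_pow, ← Real.rpow_natCast (T ^ ε'), ← Real.rpow_mul hT0.le]
        refine mul_le_mul_of_nonneg_left ?_ (by positivity)
        refine Real.rpow_le_rpow_of_exponent_le hT ?_
        rw [hε']
        push_cast
        have : ((r : ℝ) + 2) ≠ 0 := by (clear * -; positivity)
        rw [div_mul_cancel₀ _ this]
      calc (D : ℝ) ^ (r + 2) * C2 ^ 2 ≤ (Q ^ (r + 2) * T ^ ε) * C2 ^ 2 :=
            mul_le_mul_of_nonneg_right (e13.trans e14) (by positivity)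
        _ = Q ^ (r + 2) * C2 ^ 2 * T ^ ε := by ring
    refine (Real.sqrt_le_sqrt e12).trans ?_
    have h1 : 1 ≤ Q ^ (r + 2) * C2 ^ 2 * T ^ ε := by
      have a1 : 1 ≤ Q ^ (r + 2) := one_le_pow₀ hQ1
      have a2 : 1 ≤ C2 ^ 2 := one_le_pow₀ hC21
      have a3 : 1 ≤ T ^ ε := Real.one_le_rpow hT hε.le
      have a4 : 1 ≤ Q ^ (r + 2) * C2 ^ 2 := by (clear * - a2 a1; nlinarith)
      (clear * - a3 a4; nlinarith)
    rw [Real.sqrt_le_left (by (clear * - h1; linarith))]
    (clear * - h1; nlinarith)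
  simp_rw [e4]
  calc 1 / T * ∫ t : ℝ, Real.exp (-(t / T) ^ 2) * ∏ b : Bool, ‖G b t‖
      ≤ 1 / T * (2 * T * (Real.sqrt (B true) * Real.sqrt (B false))) :=
        mul_le_mul_of_nonneg_left hH (by positivity)
    _ = 2 * (Real.sqrt (B true) * Real.sqrt (B false)) := by (clear * - hT; field_simp)
    _ ≤ 2 * ((Q ^ (r + 2) * C2 ^ 2 * T ^ ε) * ∏ i, Real.sqrt (C i)) := by (clear * - e9; linarith)
    _ = 2 * (Q ^ (r + 2) * C2 ^ 2) * T ^ ε * ∏ i, Real.sqrt (C i) := by ring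

end Pool.Agent.M17.Helper18.KP
end

/- Helper53.KN.Helper18.KP.Num -/
section
/-! Project KS, lemma POW: the exponents of Hölder's inequality. -/

set_option autoImplicit false
open Finset
open scoped Classical

namespace Pool.Agent.M17.Helper18.KP

/-- number of factors used for a variable of logarithmic size `c` -/
noncomputable def kap (K : ℕ) (c : ℝ) : ℕ := if c ≤ 0 then K else min ⌊1 / c⌋₊ K

theorem kap_le (K : ℕ) (c : ℝ) : kap K c ≤ K := by
  unfold kap
  split_ifs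
  · exact le_rfl
  · exact min_le_right _ _

theorem kap_pos {K : ℕ} (hK : 1 ≤ K) {c : ℝ} (hc : c ≤ 1) : 1 ≤ kap K c := by
  unfold kap
  split_ifs with h
  · exact hK
  · push Not at h
    refine le_min ?_ hK
    rw [Nat.one_le_floor_iff, le_div_iff₀ h]
    (clear * - hc; linarith)

theorem kap_mul (K : ℕ) {c : ℝ} : (kap K c : ℝ) * c ≤ 1 := by
  unfold kap
  split_ifs with h
  · have : (0 : ℝ) ≤ K := Nat.cast_nonneg K
    nlinarith
  · push Not at h
    have h1 : ((min ⌊1 / c⌋₊ K : ℕ) : ℝ) ≤ 1 / c := by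
      refine le_trans ?_ (Nat.floor_le (by (clear * - h; positivity)))
      exact_mod_cast min_le_left _ _
    rwa [le_div_iff₀ h] at h1

theorem one_div_kap {K : ℕ} (hK : 1 ≤ K) {c : ℝ} (h0 : 0 ≤ c) (hc : c ≤ 1 / 2) :
    (1 : ℝ) / kap K c ≤ 1 / K ∨ (0 < c ∧ ∃ k : ℕ, 2 ≤ k ∧ kap K c = k ∧ (1 : ℝ) < (k + 1) * c) := by
  unfold kap
  split_ifs with h
  · left; exact le_rfl
  · push Not at h
    rcases le_or_gt K ⌊1 / c⌋₊ with h1 | h1
    · left; rw [min_eq_right h1]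
    · right
      rw [min_eq_left h1.le]
      refine ⟨h, ⌊1 / c⌋₊, ?_, rfl, ?_⟩
      · refine Nat.le_floor ?_
        rw [le_div_iff₀ h]
        push_cast
        (clear * - hc; linarith)
      · have := Nat.lt_floor_add_one (1 / c)
        rwa [div_lt_iff₀ h] at this

theorem one_div_kap_a {K : ℕ} (hK : 1 ≤ K) {c : ℝ} (h0 : 0 ≤ c) (hc : c ≤ 1 / 2) :
    (1 : ℝ) / kap K c ≤ 3 / 2 * c + 1 / K := by
  have hK0 : (0 : ℝ) < K := by exact_mod_cast hK
  rcases one_div_kap hK h0 hc with h | ⟨hc0, k, hk2, hk, hk1⟩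
  · linarith
  · rw [hk]
    have hk0 : (0 : ℝ) < k := by exact_mod_cast (by omega : 0 < k)
    have hk3 : (2 : ℝ) ≤ k := by exact_mod_cast hk2
    have h1 : (1 : ℝ) / k ≤ 3 / 2 * c := by
      rw [div_le_iff₀ hk0]
      (clear * - hk3 hk1; nlinarith)
    have h2 : (0 : ℝ) < 1 / K := by positivity
    (clear * - h1 h2; linarith)

theorem one_div_kap_b {K : ℕ} (hK : 1 ≤ K) {c : ℝ} (h0 : 0 ≤ c) (hc : c ≤ 1 / 2) :
    (1 : ℝ) / kap K c ≤ c + 1 / 6 + 1 / K := by
  have hK0 : (0 : ℝ) < K := by exact_mod_cast hK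
  rcases one_div_kap hK h0 hc with h | ⟨hc0, k, hk2, hk, hk1⟩
  · (clear * - h0 h; linarith)
  · rw [hk]
    have hk0 : (0 : ℝ) < k := by exact_mod_cast (by omega : 0 < k)
    have hk3 : (2 : ℝ) ≤ k := by exact_mod_cast hk2
    have h1 : (1 : ℝ) / (k + 1) < c := by
      rw [div_lt_iff₀ (by positivity)]
      (clear * - hk1; linarith)
    have h3 : (1 : ℝ) / k - 1 / (k + 1) ≤ 1 / 6 := by
      rw [div_sub_div _ _ hk0.ne' (by (clear * - hk2; positivity)), div_le_div_iff₀ (by positivity) (by norm_num)]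
      (clear * - hk3; nlinarith)
    have h2 : (0 : ℝ) < 1 / K := by positivity
    (clear * - h1 h3 h2; linarith)

/-- the sum of the reciprocals is at most `2` -/
theorem sum_kap {m K : ℕ} (hK : 1 ≤ K) (c : Fin (m + 2) → ℝ) (η : ℝ) (hη : 0 ≤ η)
    (h0 : ∀ i, 0 ≤ c i) (h1 : c 0 ≤ 1) (h2 : ∀ i : Fin (m + 1), c i.succ ≤ 1 / 2)
    (hs : ∑ i : Fin (m + 2), ((i : ℕ) + 1 : ℝ) * c i ≤ 2 + η)
    (hη2 : 3 / 4 * η + (m + 2) / K ≤ 1 / 12) :
    ∑ i : Fin (m + 2), (1 : ℝ) / kap K (c i) ≤ 2 := by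
  have hK0 : (0 : ℝ) < K := by exact_mod_cast hK
  rcases le_or_gt (c 0) (1 / 2) with hc | hc
  · have h3 : ∀ i ∈ (Finset.univ : Finset (Fin (m + 2))), (1 : ℝ) / kap K (c i) ≤ 3 / 2 * c i + 1 / K := by
      intro i _
      refine one_div_kap_a hK (h0 i) ?_
      rcases Fin.eq_zero_or_eq_succ i with rfl | ⟨j, rfl⟩
      · exact hc
      · exact h2 j
    refine (Finset.sum_le_sum h3).trans ?_
    rw [Finset.sum_add_distrib, ← Finset.mul_sum, Finset.sum_const, Finset.card_univ, Fintype.card_fin,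
      nsmul_eq_mul]
    have h4 : ∑ i : Fin (m + 2), c i ≤ (c 0 + (2 + η)) / 2 := by
      rw [Fin.sum_univ_succ] at hs ⊢
      have h5 : ∑ i : Fin (m + 1), 2 * c i.succ ≤ ∑ i : Fin (m + 1), (((i.succ : Fin (m + 2)) : ℕ) + 1 : ℝ) * c i.succ := by
        refine Finset.sum_le_sum fun i _ => mul_le_mul_of_nonneg_right ?_ (h0 _)
        rw [Fin.val_succ]
        push_cast
        have : (0 : ℝ) ≤ (i : ℕ) := Nat.cast_nonneg _
        (clear * -; linarith)
      rw [← Finset.mul_sum] at h5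
      simp only [Fin.val_zero, Nat.cast_zero, zero_add, one_mul] at hs
      (clear * - h5 hs; linarith)
    have h6 : ((m + 2 : ℕ) : ℝ) * (1 / K) = (m + 2) / K := by push_cast; ring
    rw [h6]
    (clear * - hη2 hc h4; linarith)
  · rw [Fin.sum_univ_succ, Fin.sum_univ_succ] at hs ⊢
    simp only [Fin.val_zero, Nat.cast_zero, zero_add, one_mul, Fin.val_succ] at hs
    have h3 : ∀ i ∈ (Finset.univ : Finset (Fin m)), (1 : ℝ) / kap K (c i.succ.succ) ≤
        3 / 2 * c i.succ.succ + 1 / K := by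
      intro i _
      exact one_div_kap_a hK (h0 _) (h2 _)
    have h4 := Finset.sum_le_sum h3
    rw [Finset.sum_add_distrib, ← Finset.mul_sum, Finset.sum_const, Finset.card_univ, Fintype.card_fin,
      nsmul_eq_mul] at h4
    have h5 := one_div_kap_b hK (h0 (Fin.succ 0)) (h2 0)
    have h6 : (1 : ℝ) / kap K (c 0) ≤ 1 := by
      rw [div_le_one (by exact_mod_cast kap_pos hK h1)]
      exact_mod_cast kap_pos hK h1
    have h7 : ∑ i : Fin m, 3 * c i.succ.succ ≤ ∑ i : Fin m, ((((i : ℕ) + 1 + 1 : ℕ) : ℝ) + 1) * c i.succ.succ := by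
      refine Finset.sum_le_sum fun i _ => mul_le_mul_of_nonneg_right ?_ (h0 _)
      push_cast
      have : (0 : ℝ) ≤ (i : ℕ) := Nat.cast_nonneg _
      (clear * -; linarith)
    rw [← Finset.mul_sum] at h7
    have h8 : (m : ℝ) * (1 / K) + 1 / K ≤ (m + 2) / K := by
      rw [← sub_nonneg]
      have : ((m : ℝ) + 2) / K - ((m : ℝ) * (1 / K) + 1 / K) = 1 / K := by ring
      rw [this]; positivity
    push_cast at hs h7
    (clear * - hη hη2 hc h4 h5 h6 h8 hs h7; linarith)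

end Pool.Agent.M17.Helper18.KP
end

/- Helper53.KN.Helper18.KP.Box3 -/
section
/-! Project KS, lemma POW: points in a dyadic box, all cases. -/

set_option autoImplicit false
open MeasureTheory Filter Topology Finset
open scoped Classical

namespace Pool.Agent.M17.Helper18.KP

open Pool.Agent.M17.Helper60.KS Pool.Agent.M17.Helper65.KC

theorem core0 (m : ℕ) (T : ℝ) (C : Fin (m + 1) → ℕ) (hT : 2 ≤ T)
    (hC : ∀ i, 1 ≤ C i) (hC0 : T < C 0) (hval : ((val C : ℕ) : ℝ) ≤ 2 * T ^ 2) (y0 : ℝ) :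
    (((box C).filter (fun c => |Real.log (val c) - y0| ≤ 1 / T)).card : ℝ) ≤
      26 * ∏ i, Real.sqrt (C i) := by
  have hT0 : 0 < T := by (clear * - hT; linarith)
  set X : ℕ := ∏ i : Fin m, C i.succ with hX
  set E : ℕ := ⌊13 * (C 0 : ℝ) / T⌋₊ with hE
  have hEr : (E : ℝ) ≤ 13 * (C 0 : ℝ) / T := Nat.floor_le (by (clear * - hT; positivity))
  -- counting by fibres
  have hcount : ((box C).filter (fun c => |Real.log (val c) - y0| ≤ 1 / T)).card ≤
      E * (Fintype.piFinset (fun i : Fin m => Ico (C i.succ) (2 * C i.succ))).card := by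
    refine Finset.card_le_mul_card_image_of_maps_to (f := fun c : Fin (m + 1) → ℕ => fun i : Fin m => c i.succ) ?_ E ?_
    · intro c hc
      rw [Finset.mem_filter, box, Fintype.mem_piFinset] at hc
      rw [Fintype.mem_piFinset]
      intro i
      exact hc.1 i.succ
    · intro d _
      set F := ((box C).filter (fun c => |Real.log (val c) - y0| ≤ 1 / T)).filter
        (fun c : Fin (m + 1) → ℕ => (fun i : Fin m => c i.succ) = d) with hF
      rcases Finset.eq_empty_or_nonempty F with he | ⟨q, hq⟩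
      · rw [he]; simp
      have hq' := hq
      rw [hF, Finset.mem_filter, Finset.mem_filter, box, Fintype.mem_piFinset] at hq'
      have hq0 := hq'.1.1 0
      rw [Finset.mem_Ico] at hq0
      have hT2 : 1 ≤ T / 2 := by (clear * - hT; linarith)
      have h1 := card_log_near (2 * C 0) (q 0) (T / 2) hT2 (by have := hC 0; omega)
      have h2 : F.card ≤ ((Icc 1 (2 * C 0)).filter (fun k : ℕ => |Real.log (q 0) - Real.log k| ≤ 1 / (T / 2))).card := by
        refine Finset.card_le_card_of_injOn (fun c => c 0) ?_ ?_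
        · intro c hc
          have hc' := hc
          rw [Finset.mem_coe, hF, Finset.mem_filter, Finset.mem_filter, box, Fintype.mem_piFinset] at hc'
          have hc0 := hc'.1.1 0
          rw [Finset.mem_Ico] at hc0
          rw [Finset.mem_coe, Finset.mem_filter, Finset.mem_Icc]
          have := hC 0
          refine ⟨⟨by show 1 ≤ c 0; omega, by show c 0 ≤ 2 * C 0; omega⟩, ?_⟩
          have hc1 : ∀ i, 1 ≤ c i := fun i => by
            have h3 := hc'.1.1 i
            rw [Finset.mem_Ico] at h3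
            have := hC i
            omega
          have hq1 : ∀ i, 1 ≤ q i := fun i => by
            have h3 := hq'.1.1 i
            rw [Finset.mem_Ico] at h3
            have := hC i
            omega
          have h4 := hc'.1.2
          have h5 := hq'.1.2
          rw [log_val c hc1, Fin.sum_univ_succ] at h4
          rw [log_val q hq1, Fin.sum_univ_succ] at h5
          have h6 : ∀ i : Fin m, c i.succ = q i.succ := fun i => by
            have e1 := congrFun hc'.2 i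
            have e2 := congrFun hq'.2 i
            rw [e1, e2]
          have h7 : ∑ i : Fin m, ((((i.succ : Fin (m + 1)) : ℕ) : ℝ) + 1) * Real.log (c i.succ) =
              ∑ i : Fin m, ((((i.succ : Fin (m + 1)) : ℕ) : ℝ) + 1) * Real.log (q i.succ) :=
            Finset.sum_congr rfl fun i _ => by rw [h6 i]
          rw [h7] at h4
          simp only [Fin.val_zero, Nat.cast_zero, zero_add, one_mul] at h4 h5
          rw [abs_le] at h4 h5
          have h8 : 1 / (T / 2) = 1 / T + 1 / T := by field_simp; norm_num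
          show |Real.log (q 0) - Real.log (c 0)| ≤ 1 / (T / 2)
          rw [h8, abs_le]
          constructor <;> (clear * - h4 h5; linarith [h4.1, h4.2, h5.1, h5.2])
        · intro c hc c' hc' hcc
          have a1 := hc
          have a2 := hc'
          rw [Finset.mem_coe, hF, Finset.mem_filter] at a1 a2
          funext i
          rcases Fin.eq_zero_or_eq_succ i with rfl | ⟨j, rfl⟩
          · exact hcc
          · have e1 := congrFun a1.2 j
            have e2 := congrFun a2.2 j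
            rw [e1, e2]
      refine h2.trans (Nat.le_floor ?_)
      refine h1.trans ?_
      have h9 : (q 0 : ℝ) ≤ 2 * C 0 := by exact_mod_cast hq0.2.le
      rw [div_div_eq_mul_div, ← sub_nonneg]
      have h10 : 13 * (C 0 : ℝ) / T - (1 + 3 * (q 0 : ℝ) * 2 / T) = (13 * C 0 - T - 6 * q 0) / T := by
        field_simp; ring
      rw [h10]
      refine div_nonneg ?_ hT0.le
      (clear * - hC0 h9; linarith)
  have hcardX : (Fintype.piFinset (fun i : Fin m => Ico (C i.succ) (2 * C i.succ))).card = X := by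
    rw [Fintype.card_piFinset, hX]
    refine Finset.prod_congr rfl fun i _ => ?_
    rw [Nat.card_Ico]; omega
  rw [hcardX] at hcount
  have h1 : (((box C).filter (fun c => |Real.log (val c) - y0| ≤ 1 / T)).card : ℝ) ≤ 13 * (C 0 : ℝ) / T * X := by
    calc (((box C).filter (fun c => |Real.log (val c) - y0| ≤ 1 / T)).card : ℝ) ≤ (E : ℝ) * X := by
          exact_mod_cast hcount
      _ ≤ _ := mul_le_mul_of_nonneg_right hEr (Nat.cast_nonneg _)
  -- X² C0 ≤ val C
  have h2 : X ^ 2 * C 0 ≤ val C := by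
    unfold val
    rw [Fin.prod_univ_succ, hX, ← Finset.prod_pow, mul_comm]
    simp only [Fin.val_zero, zero_add, pow_one]
    refine Nat.mul_le_mul_left _ (Finset.prod_le_prod' fun i _ => ?_)
    refine Nat.pow_le_pow_right (hC _) ?_
    rw [Fin.val_succ]
    omega
  have h3 : (X : ℝ) ^ 2 * C 0 ≤ 2 * T ^ 2 := le_trans (by exact_mod_cast h2) hval
  have hC0' : (C 0 : ℝ) ≤ 2 * T ^ 2 := by
    have : C 0 ≤ X ^ 2 * C 0 := by
      have hX1 : 1 ≤ X := by
        rw [hX]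
        exact Nat.one_le_iff_ne_zero.2 (Finset.prod_ne_zero_iff.2 fun i _ => by have := hC i.succ; omega)
      exact Nat.le_mul_of_pos_left _ (by (clear * - hX1; positivity))
    have h4 : (C 0 : ℝ) ≤ (X : ℝ) ^ 2 * C 0 := by exact_mod_cast this
    (clear * - h3 h4; linarith)
  have h5 : ((X : ℝ) * C 0) ≤ 2 * T ^ 2 := by
    have : ((X : ℝ) * C 0) ^ 2 ≤ (2 * T ^ 2) ^ 2 := by
      have a0 : (0 : ℝ) ≤ C 0 := Nat.cast_nonneg _
      calc ((X : ℝ) * C 0) ^ 2 = ((X : ℝ) ^ 2 * C 0) * C 0 := by ring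
        _ ≤ (2 * T ^ 2) * (2 * T ^ 2) := mul_le_mul h3 hC0' a0 (by positivity)
        _ = (2 * T ^ 2) ^ 2 := by ring
    exact le_of_sq_le_sq this (by positivity)
  have h6 : ∏ i, Real.sqrt (C i) = Real.sqrt ((X : ℝ) * C 0) := by
    rw [Fin.prod_univ_succ, Real.sqrt_mul (Nat.cast_nonneg _), hX]
    push_cast
    rw [mul_comm]
    congr 1
    rw [Real.sqrt_eq_rpow, ← Real.finsetProd_rpow _ _ (fun i _ => Nat.cast_nonneg _)]
    exact Finset.prod_congr rfl fun i _ => (Real.sqrt_eq_rpow _)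
  rw [h6]
  refine h1.trans ?_
  set Z := (X : ℝ) * C 0 with hZ
  have hZ0 : 0 ≤ Z := by (clear * -; positivity)
  have h7 : Real.sqrt Z ≤ 2 * T := by
    rw [Real.sqrt_le_left (by positivity)]
    (clear * - hT hC0 hC0' h5; nlinarith)
  have h8 : 13 * (C 0 : ℝ) / T * X = 13 * (Real.sqrt Z * Real.sqrt Z) / T := by
    rw [Real.mul_self_sqrt hZ0, hZ]; ring
  rw [h8, div_le_iff₀ hT0]
  have := Real.sqrt_nonneg Z
  (clear * - h7 this; nlinarith)

theorem box_bound (m : ℕ) (ε : ℝ) (hε : 0 < ε) : ∃ A : ℝ, 0 < A ∧ ∀ (T : ℝ) (C : Fin (m + 2) → ℕ),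
    2 ^ 18 ≤ T → (∀ i, 1 ≤ C i) → ((val C : ℕ) : ℝ) ≤ 2 * T ^ 2 → ∀ y0 : ℝ,
    (((box C).filter (fun c => |Real.log (val c) - y0| ≤ 1 / T)).card : ℝ) ≤
      A * T ^ ε * ∏ i, Real.sqrt (C i) := by
  set K : ℕ := 24 * (m + 2) with hK
  have hK1 : 1 ≤ K := by omega
  obtain ⟨A1, hA1, h1⟩ := core (m + 2) K ε hε
  obtain ⟨A2, hA2, h2⟩ := core2 (m + 2) ε hε
  refine ⟨A1 + A2 + 26, by (clear * - hA1 hA2; positivity), ?_⟩
  intro T C hT hC hval y0
  have hT1 : 1 < T := by (clear * - hT; linarith)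
  have hT0 : 0 < T := by (clear * - hT; linarith)
  have hTε : 1 ≤ T ^ ε := Real.one_le_rpow hT1.le hε.le
  have hP : 0 ≤ ∏ i, Real.sqrt (C i) := Finset.prod_nonneg fun i _ => Real.sqrt_nonneg _
  have hTP : 0 ≤ T ^ ε * ∏ i, Real.sqrt (C i) := by (clear * - hT; positivity)
  rcases lt_or_ge T (C 0 : ℝ) with hc0 | hc0
  · refine (core0 (m + 1) T C (by linarith) hC hc0 hval y0).trans ?_
    (clear * - hA1 hTP hA2 hTε hP; nlinarith)
  by_cases hbig : ∃ i : Fin (m + 1), T < (C i.succ : ℝ) ^ 2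
  · obtain ⟨i, hi⟩ := hbig
    refine (h2 T C hT1.le hC i.succ (by rw [Fin.val_succ]; omega) hi.le hval y0).trans ?_
    (clear * - hTP hA1; nlinarith)
  push Not at hbig
  have hlogT : 0 < Real.log T := Real.log_pos hT1
  set γ : Fin (m + 2) → ℝ := fun i => Real.log (C i) / Real.log T with hγ
  have hγ0 : ∀ i, 0 ≤ γ i := fun i => div_nonneg (Real.log_nonneg (by exact_mod_cast hC i)) hlogT.le
  have hγ1 : γ 0 ≤ 1 := by
    rw [hγ]; simp only
    rw [div_le_one hlogT]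
    exact Real.log_le_log (by exact_mod_cast hC 0) hc0
  have hγ2 : ∀ i : Fin (m + 1), γ i.succ ≤ 1 / 2 := by
    intro i
    rw [hγ]; simp only
    rw [div_le_iff₀ hlogT]
    have hCi : (0 : ℝ) < C i.succ := by exact_mod_cast hC i.succ
    have := Real.log_le_log (by positivity) (hbig i)
    rw [Real.log_pow] at this
    push_cast at this
    (clear * - this; linarith)
  set η : ℝ := Real.log 2 / Real.log T with hη
  have hlog2 : 0 < Real.log 2 := Real.log_pos (by norm_num)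
  have hη0 : 0 ≤ η := by positivity
  have hη1 : η ≤ 1 / 18 := by
    rw [hη, div_le_iff₀ hlogT]
    have := Real.log_le_log (by positivity) hT
    rw [Real.log_pow] at this
    push_cast at this
    (clear * - this; linarith)
  have hsum : ∑ i : Fin (m + 2), ((i : ℕ) + 1 : ℝ) * γ i ≤ 2 + η := by
    have e1 : ∑ i : Fin (m + 2), ((i : ℕ) + 1 : ℝ) * γ i = Real.log (val C) / Real.log T := by
      rw [log_val C hC, Finset.sum_div]
      refine Finset.sum_congr rfl fun i _ => ?_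
      rw [hγ]; simp only
      ring
    rw [e1, div_le_iff₀ hlogT, hη]
    have hv : (0 : ℝ) < ((val C : ℕ) : ℝ) := by
      have : 0 < val C := Nat.pos_of_ne_zero (Finset.prod_ne_zero_iff.2 fun i _ =>
        pow_ne_zero _ (by have := hC i; omega))
      exact_mod_cast this
    have := Real.log_le_log hv hval
    rw [Real.log_mul (by norm_num) (by positivity), Real.log_pow] at this
    push_cast at this
    refine this.trans (le_of_eq ?_)
    field_simp
    ring
  have hnum := sum_kap hK1 γ η hη0 hγ0 hγ1 hγ2 hsum (by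
    have : ((m : ℝ) + 2) / K = 1 / 24 := by
      rw [hK]; push_cast
      have : ((m : ℝ) + 2) ≠ 0 := by (clear * -; positivity)
      field_simp
    rw [this]
    (clear * - hη1; linarith))
  have hκ : ∀ i, 1 ≤ kap K (γ i) ∧ kap K (γ i) ≤ K := by
    intro i
    refine ⟨kap_pos hK1 ?_, kap_le K _⟩
    rcases Fin.eq_zero_or_eq_succ i with rfl | ⟨j, rfl⟩
    · exact hγ1
    · (clear * - hγ2; linarith [hγ2 j])
  have hpow : ∀ i, (C i : ℝ) ^ (kap K (γ i)) ≤ T := by
    intro i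
    have hCi : (0 : ℝ) < C i := by exact_mod_cast hC i
    rw [← Real.log_le_log_iff (by positivity) hT0, Real.log_pow]
    have h3 := kap_mul K (c := γ i)
    have h4 : Real.log (C i) = γ i * Real.log T := by
      rw [hγ]; simp only
      field_simp
    rw [h4, ← mul_assoc]
    (clear * - hlogT h3; nlinarith)
  have hsum2 : ∑ i, (1 : ℝ) / (2 * kap K (γ i)) ≤ 1 := by
    have : ∑ i, (1 : ℝ) / (2 * kap K (γ i)) = (∑ i, (1 : ℝ) / kap K (γ i)) / 2 := by
      rw [Finset.sum_div]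
      refine Finset.sum_congr rfl fun i _ => ?_
      rw [div_div, mul_comm]
    rw [this]
    (clear * - hnum; linarith)
  refine (h1 T C (fun i => kap K (γ i)) hT1.le hC hκ hpow hsum2 y0).trans ?_
  (clear * - hTP hA2; nlinarith)

end Pool.Agent.M17.Helper18.KP
end

/- Helper53.KN.Helper18.KP.Pow -/
section
/-! Project KS, lemma POW. -/

set_option autoImplicit false
open MeasureTheory Filter Topology Finset
open scoped Classical

namespace Pool.Agent.M17.Helper18.KP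

/-- the weight `(k/rad k)^(1/2)` -/
noncomputable def wt (k : ℕ) : ℝ := Real.sqrt ((k : ℝ) / ∏ p ∈ k.primeFactors, (p : ℝ))

theorem rad_pos (k : ℕ) : (1 : ℝ) ≤ ∏ p ∈ k.primeFactors, (p : ℝ) := by
  have : (1 : ℝ) = ∏ p ∈ k.primeFactors, (1 : ℝ) := by simp
  rw [this]
  refine Finset.prod_le_prod (fun _ _ => by norm_num) fun p hp => ?_
  exact_mod_cast (Nat.prime_of_mem_primeFactors hp).one_le

theorem wt_le_sqrt (k : ℕ) : wt k ≤ Real.sqrt k := by
  unfold wt
  refine Real.sqrt_le_sqrt ?_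
  exact div_le_self (Nat.cast_nonneg _) (rad_pos k)

theorem wt_nonneg (k : ℕ) : 0 ≤ wt k := Real.sqrt_nonneg _

theorem wt_le (r k : ℕ) : wt k ≤ Real.sqrt k * ∏ i : Fin r, (Real.sqrt (cp k ((i : ℕ) + 1)))⁻¹ := by
  have h1 : (∏ i : Fin r, (cp k ((i : ℕ) + 1) : ℝ)) ≤ ∏ p ∈ k.primeFactors, (p : ℝ) := by
    have h := (Nat.cast_le (α := ℝ)).2 (prod_cp_le r k)
    push_cast at h
    exact h
  have h0 : 0 < ∏ i : Fin r, (cp k ((i : ℕ) + 1) : ℝ) :=
    Finset.prod_pos fun i _ => by exact_mod_cast cp_pos k _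
  have h2 : Real.sqrt k * ∏ i : Fin r, (Real.sqrt (cp k ((i : ℕ) + 1)))⁻¹ =
      Real.sqrt ((k : ℝ) / ∏ i : Fin r, (cp k ((i : ℕ) + 1) : ℝ)) := by
    rw [Real.sqrt_div (Nat.cast_nonneg _), div_eq_mul_inv, Finset.prod_inv_distrib]
    congr 2
    rw [Real.sqrt_eq_rpow, ← Real.finsetProd_rpow _ _ (fun i _ => Nat.cast_nonneg _)]
    exact Finset.prod_congr rfl fun i _ => (Real.sqrt_eq_rpow _)
  rw [h2]
  unfold wt
  refine Real.sqrt_le_sqrt ?_
  exact div_le_div_of_nonneg_left (Nat.cast_nonneg _) h0 h1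

theorem log2_le (δ : ℝ) (hδ : 0 < δ) : ∃ A : ℝ, 0 < A ∧ ∀ n : ℕ, 1 ≤ n → ((Nat.log 2 n : ℕ) : ℝ) + 1 ≤ A * (n : ℝ) ^ δ := by
  refine ⟨1 / (δ * Real.log 2) + 1, by have := Real.log_pos (show (1 : ℝ) < 2 by norm_num); positivity, ?_⟩
  intro n hn
  have hn1 : (1 : ℝ) ≤ n := by exact_mod_cast hn
  have hl2 : 0 < Real.log 2 := Real.log_pos (by norm_num)
  have h1 : ((2 ^ Nat.log 2 n : ℕ) : ℝ) ≤ n := by exact_mod_cast Nat.pow_log_le_self 2 (by omega)
  have h2 : ((Nat.log 2 n : ℕ) : ℝ) * Real.log 2 ≤ Real.log n := by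
    have := Real.log_le_log (by positivity) h1
    push_cast at this
    rwa [Real.log_pow] at this
  have h3 : Real.log n ≤ (n : ℝ) ^ δ / δ := Real.log_le_rpow_div (by (clear * - hn1; linarith)) hδ
  have h4 : (1 : ℝ) ≤ (n : ℝ) ^ δ := Real.one_le_rpow hn1 hδ.le
  have h5 : ((Nat.log 2 n : ℕ) : ℝ) ≤ 1 / (δ * Real.log 2) * (n : ℝ) ^ δ := by
    rw [div_mul_eq_mul_div, one_mul, le_div_iff₀ (by positivity)]
    rw [le_div_iff₀ hδ] at h3
    calc ((Nat.log 2 n : ℕ) : ℝ) * (δ * Real.log 2) = (((Nat.log 2 n : ℕ) : ℝ) * Real.log 2) * δ := by ring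
      _ ≤ Real.log n * δ := mul_le_mul_of_nonneg_right h2 hδ.le
      _ ≤ (n : ℝ) ^ δ := h3
  (clear * - h4 h5; linarith)

/-- short windows, large `x` -/
theorem pow_short_large (ε : ℝ) (hε : 0 < ε) : ∃ A : ℝ, 0 < A ∧ ∀ x y : ℝ, (2 : ℝ) ^ 36 ≤ x → 0 ≤ y →
    y ≤ Real.sqrt x → ∑ k ∈ Icc ⌈x⌉₊ ⌊x + y⌋₊, wt k ≤ A * Real.sqrt x * x ^ ε := by
  -- parameters
  obtain ⟨m, hm⟩ : ∃ m : ℕ, 4 / ε ≤ m := exists_nat_ge _
  set r : ℕ := m + 2 with hr
  set V : ℕ := r + 1 with hV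
  set ε1 : ℝ := ε / 4 with hε1
  have hε10 : 0 < ε1 := by positivity
  set ε2 : ℝ := ε1 / r with hε2
  have hr0 : (0 : ℝ) < r := by rw [hr]; (clear * -; positivity)
  have hε20 : 0 < ε2 := by positivity
  obtain ⟨A0, hA0, hbox⟩ := box_bound m ε1 hε10
  obtain ⟨Cd, hCd, hdiv⟩ := Pool.Agent.M17.Helper89.SLE.divisor_bound ε1 hε10
  obtain ⟨Al, hAl, hlog⟩ := log2_le ε2 hε20
  refine ⟨2 * A0 * (2 * (Cd * 2 ^ ε1) * (Al * 2 ^ ε2) ^ r), by positivity, ?_⟩
  intro x y hx hy hyx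
  have hx1 : (1 : ℝ) ≤ x := le_trans (by norm_num) hx
  have hx0 : 0 < x := by (clear * - hx; linarith)
  set T : ℝ := Real.sqrt x with hT
  have hTsq : T ^ 2 = x := Real.sq_sqrt hx0.le
  have hT18 : (2 : ℝ) ^ 18 ≤ T := by
    rw [hT]
    apply Real.le_sqrt_of_sq_le
    rw [← pow_mul]
    exact hx
  have hT1 : (1 : ℝ) ≤ T := le_trans (by norm_num) hT18
  have hT0 : 0 < T := by (clear * - hT18; linarith)
  have hTx : T ≤ x := by (clear * - hTsq hy hT18 hyx; nlinarith)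
  have hyx' : y ≤ x := hyx.trans hTx
  set K := Icc ⌈x⌉₊ ⌊x + y⌋₊ with hK
  have hKmem : ∀ k ∈ K, x ≤ k ∧ (k : ℝ) ≤ x + y ∧ 1 ≤ k := by
    intro k hk
    rw [hK, Finset.mem_Icc] at hk
    have h1 : x ≤ k := Nat.ceil_le.1 hk.1
    have h2 : (k : ℝ) ≤ x + y := (Nat.le_floor_iff (by (clear * - hx hy; linarith))).1 hk.2
    refine ⟨h1, h2, ?_⟩
    have : (1 : ℝ) ≤ k := by (clear * - hx h1; linarith)
    exact_mod_cast this
  set X2 : ℕ := ⌊2 * x⌋₊ with hX2
  have hX2r : (X2 : ℝ) ≤ 2 * x := Nat.floor_le (by (clear * - hx; linarith))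
  have hkX2 : ∀ k ∈ K, k ≤ X2 := fun k hk => Nat.le_floor (by have := hKmem k hk; (clear * - hyx hTx this; linarith))
  have hX21 : 1 ≤ X2 := Nat.le_floor (by push_cast; (clear * - hx; linarith))
  set L : ℕ := Nat.log 2 X2 with hL
  set Amax : ℕ := ⌊(2 * x) ^ ((1 : ℝ) / V)⌋₊ with hAmax
  set keys : Finset (Σ _ : ℕ, ℕ × (Fin r → ℕ)) :=
    (Icc 1 Amax).sigma (fun a => (a ^ V).divisors.filter (fun _ => a ^ V ≤ X2) ×ˢ
      Fintype.piFinset (fun _ : Fin r => Finset.range (L + 1))) with hkeys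
  set g : ℕ → (Σ _ : ℕ, ℕ × (Fin r → ℕ)) := fun k => ⟨ap V k, (bp V k, fun i => Nat.log 2 (cp k ((i : ℕ) + 1)))⟩
    with hg
  have hapk : ∀ k ∈ K, ap V k ^ V ≤ k ∧ ∀ i : Fin r, cp k ((i : ℕ) + 1) ≤ k := by
    intro k hk
    have hk1 := (hKmem k hk).2.2
    have hd := decomp r k (by omega)
    have hvpos : 1 ≤ val (fun i : Fin r => cp k ((i : ℕ) + 1)) :=
      Nat.one_le_iff_ne_zero.2 (Finset.prod_ne_zero_iff.2 fun i _ => pow_ne_zero _ (Nat.one_le_iff_ne_zero.1 (cp_pos k _)))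
    have ha := ap_pos V k
    have hb := bp_pos V k
    constructor
    · calc ap V k ^ V ≤ ap V k ^ V * (bp V k * val (fun i : Fin r => cp k ((i : ℕ) + 1))) :=
            Nat.le_mul_of_pos_right _ (by (clear * - hb hvpos; positivity))
        _ = k := by rw [← mul_assoc]; exact hd.symm
    · intro i
      have h1 : cp k ((i : ℕ) + 1) ∣ k := by
        refine (dvd_pow_self _ (by omega : (i : ℕ) + 1 ≠ 0)).trans ?_
        refine (Finset.dvd_prod_of_mem (fun i : Fin r => cp k ((i : ℕ) + 1) ^ ((i : ℕ) + 1)) (Finset.mem_univ i)).trans ?_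
        exact (Dvd.intro_left _ hd.symm)
      exact Nat.le_of_dvd (by omega) h1
  have hmaps : ∀ k ∈ K, g k ∈ keys := by
    intro k hk
    have h1 := hapk k hk
    have h2 := hkX2 k hk
    rw [hkeys, Finset.mem_sigma, Finset.mem_product, Finset.mem_filter, Fintype.mem_piFinset]
    refine ⟨?_, ⟨?_, ?_⟩, ?_⟩
    · rw [Finset.mem_Icc]
      refine ⟨ap_pos V k, Nat.le_floor ?_⟩
      have h3 : ((ap V k : ℝ)) ^ V ≤ 2 * x := by
        have : ((ap V k ^ V : ℕ) : ℝ) ≤ 2 * x := le_trans (by exact_mod_cast h1.1.trans h2) hX2r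
        exact_mod_cast this
      have h4 := Real.rpow_le_rpow (by (clear * -; positivity)) h3 (by (clear * -; positivity) : (0 : ℝ) ≤ 1 / V)
      have h5 : (((ap V k : ℝ)) ^ V) ^ ((1 : ℝ) / V) = ap V k := by
        rw [← Real.rpow_natCast, ← Real.rpow_mul (Nat.cast_nonneg _), mul_one_div_cancel, Real.rpow_one]
        rw [hV]; positivity
      rwa [h5] at h4
    · rw [Nat.mem_divisors]
      exact ⟨bp_dvd V k (by omega), pow_ne_zero _ (Nat.one_le_iff_ne_zero.1 (ap_pos V k))⟩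
    · exact h1.1.trans h2
    · intro i
      rw [Finset.mem_range]
      have := Nat.log_mono_right (b := 2) ((h1.2 i).trans h2)
      show Nat.log 2 (cp k ((i : ℕ) + 1)) < L + 1
      omega
  rw [← Finset.sum_fiberwise_of_maps_to hmaps]
  -- bound for one key
  have hkey : ∀ κ ∈ keys, ∑ k ∈ K.filter (fun k => g k = κ), wt k ≤ 2 * T * (A0 * T ^ ε1) := by
    intro κ _
    rcases Finset.eq_empty_or_nonempty (K.filter (fun k => g k = κ)) with he | ⟨k0, hk0⟩
    · rw [he, Finset.sum_empty]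
      positivity
    rw [Finset.mem_filter] at hk0
    set w : ℕ := κ.1 ^ V * κ.2.1 with hw
    set C : Fin r → ℕ := fun i => 2 ^ (κ.2.2 i) with hC
    have hC1 : ∀ i, 1 ≤ C i := fun i => Nat.one_le_two_pow
    have hfacts : ∀ k ∈ K, g k = κ → k = w * val (fun i : Fin r => cp k ((i : ℕ) + 1)) ∧
        ∀ i : Fin r, C i ≤ cp k ((i : ℕ) + 1) ∧ cp k ((i : ℕ) + 1) < 2 * C i := by
      intro k hk hgk
      have hk1 := (hKmem k hk).2.2
      have hd := decomp r k (by omega)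
      have e1 : κ.1 = ap V k := by rw [← hgk]
      have e2 : κ.2.1 = bp V k := by rw [← hgk]
      have e3 : κ.2.2 = fun i : Fin r => Nat.log 2 (cp k ((i : ℕ) + 1)) := by rw [← hgk]
      refine ⟨?_, fun i => ?_⟩
      · rw [hw, e1, e2]; exact hd
      · rw [hC, e3]
        simp only
        have hc := cp_pos k ((i : ℕ) + 1)
        refine ⟨Nat.pow_log_le_self 2 (by omega), ?_⟩
        rw [mul_comm, ← pow_succ]
        exact Nat.lt_pow_succ_log_self (by norm_num) _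
    have hw1 : 1 ≤ w := by
      have := (hfacts k0 hk0.1 hk0.2).1
      rcases Nat.eq_zero_or_pos w with h | h
      · rw [h, zero_mul] at this
        have := (hKmem k0 hk0.1).2.2
        omega
      · exact h
    have hvalC : ((val C : ℕ) : ℝ) ≤ 2 * T ^ 2 := by
      rw [hTsq]
      have h1 := hfacts k0 hk0.1 hk0.2
      have h2 : val C ≤ val (fun i : Fin r => cp k0 ((i : ℕ) + 1)) := by
        unfold val
        exact Finset.prod_le_prod' fun i _ => Nat.pow_le_pow_left (h1.2 i).1 _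
      have h3 : val (fun i : Fin r => cp k0 ((i : ℕ) + 1)) ≤ k0 := by
        calc val (fun i : Fin r => cp k0 ((i : ℕ) + 1)) ≤ w * val (fun i : Fin r => cp k0 ((i : ℕ) + 1)) :=
              Nat.le_mul_of_pos_left _ (by omega)
          _ = k0 := h1.1.symm
      exact le_trans (by exact_mod_cast (h2.trans h3).trans (hkX2 k0 hk0.1)) hX2r
    set y0 : ℝ := Real.log x - Real.log w with hy0
    have hN := hbox T C hT18 hC1 hvalC y0
    have hcard : (K.filter (fun k => g k = κ)).card ≤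
        ((box C).filter (fun c => |Real.log (val c) - y0| ≤ 1 / T)).card := by
      refine Finset.card_le_card_of_injOn (fun k => fun i : Fin r => cp k ((i : ℕ) + 1)) ?_ ?_
      · intro k hk
        rw [Finset.mem_coe, Finset.mem_filter] at hk
        have h1 := hfacts k hk.1 hk.2
        have h2 := hKmem k hk.1
        rw [Finset.mem_coe, Finset.mem_filter, box, Fintype.mem_piFinset]
        refine ⟨fun i => Finset.mem_Ico.2 (h1.2 i), ?_⟩
        have hk0' : (0 : ℝ) < k := by (clear * - hx h2; linarith)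
        have hw0 : (0 : ℝ) < w := by exact_mod_cast hw1
        have hv0 : (0 : ℝ) < ((val (fun i : Fin r => cp k ((i : ℕ) + 1)) : ℕ) : ℝ) := by
          have : 0 < val (fun i : Fin r => cp k ((i : ℕ) + 1)) :=
            Nat.pos_of_ne_zero (Finset.prod_ne_zero_iff.2 fun i _ => pow_ne_zero _ (Nat.one_le_iff_ne_zero.1 (cp_pos k _)))
          exact_mod_cast this
        have h3 : Real.log k = Real.log w + Real.log ((val (fun i : Fin r => cp k ((i : ℕ) + 1)) : ℕ) : ℝ) := by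
          rw [← Real.log_mul hw0.ne' hv0.ne']
          congr 1
          exact_mod_cast h1.1
        have h4 : Real.log ((val (fun i : Fin r => cp k ((i : ℕ) + 1)) : ℕ) : ℝ) - y0 = Real.log k - Real.log x := by
          rw [h3, hy0]; ring
        rw [h4, abs_of_nonneg (by have := Real.log_le_log hx0 h2.1; (clear * - this; linarith))]
        rw [← Real.log_div hk0'.ne' hx0.ne']
        have h5 := Real.log_le_sub_one_of_pos (show 0 < (k : ℝ) / x by (clear * - hk0' hx; positivity))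
        refine h5.trans ?_
        have h6 : (k : ℝ) / x - 1 ≤ T / x := by
          rw [div_sub_one hx0.ne']
          refine div_le_div_of_nonneg_right ?_ hx0.le
          (clear * - hyx h2; linarith)
        refine h6.trans (le_of_eq ?_)
        rw [← hTsq]
        field_simp
      · intro k hk k' hk' hkk
        rw [Finset.mem_coe, Finset.mem_filter] at hk hk'
        have h1 := (hfacts k hk.1 hk.2).1
        have h2 := (hfacts k' hk'.1 hk'.2).1
        rw [h1, h2]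
        simp only at hkk
        rw [hkk]
    have hterm : ∀ k ∈ K.filter (fun k => g k = κ), wt k ≤ 2 * T * ∏ i, (Real.sqrt (C i))⁻¹ := by
      intro k hk
      rw [Finset.mem_filter] at hk
      have h1 := hfacts k hk.1 hk.2
      have h2 := hKmem k hk.1
      refine (wt_le r k).trans ?_
      refine mul_le_mul ?_ ?_ (Finset.prod_nonneg fun i _ => by (clear * -; positivity)) (by positivity)
      · rw [Real.sqrt_le_left (by positivity)]
        (clear * - hx hyx hTsq hTx h2; nlinarith)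
      · refine Finset.prod_le_prod (fun i _ => by (clear * -; positivity)) fun i _ => ?_
        have hCi : (0 : ℝ) < C i := by exact_mod_cast hC1 i
        refine inv_anti₀ (Real.sqrt_pos.2 hCi) (Real.sqrt_le_sqrt ?_)
        exact_mod_cast (h1.2 i).1
    have hP : (∏ i, (Real.sqrt (C i))⁻¹) * ∏ i, Real.sqrt (C i) = 1 := by
      rw [← Finset.prod_mul_distrib]
      refine Finset.prod_eq_one fun i _ => ?_
      have hCi : (0 : ℝ) < C i := by exact_mod_cast hC1 i
      exact inv_mul_cancel₀ (Real.sqrt_pos.2 hCi).ne'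
    calc ∑ k ∈ K.filter (fun k => g k = κ), wt k
        ≤ ∑ k ∈ K.filter (fun k => g k = κ), 2 * T * ∏ i, (Real.sqrt (C i))⁻¹ := Finset.sum_le_sum hterm
      _ = ((K.filter (fun k => g k = κ)).card : ℝ) * (2 * T * ∏ i, (Real.sqrt (C i))⁻¹) := by
        rw [Finset.sum_const, nsmul_eq_mul]
      _ ≤ (A0 * T ^ ε1 * ∏ i, Real.sqrt (C i)) * (2 * T * ∏ i, (Real.sqrt (C i))⁻¹) := by
        refine mul_le_mul_of_nonneg_right ?_ (by
          have : 0 ≤ ∏ i, (Real.sqrt (C i))⁻¹ := Finset.prod_nonneg fun i _ => by positivity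
          positivity)
        exact le_trans (by exact_mod_cast hcard) hN
      _ = 2 * T * (A0 * T ^ ε1) * ((∏ i, (Real.sqrt (C i))⁻¹) * ∏ i, Real.sqrt (C i)) := by ring
      _ = 2 * T * (A0 * T ^ ε1) := by rw [hP, mul_one]
  refine (Finset.sum_le_sum hkey).trans ?_
  rw [Finset.sum_const, nsmul_eq_mul]
  -- number of keys
  have h2x1 : (1 : ℝ) ≤ 2 * x := by (clear * - hx; linarith)
  have hkeyscard : (keys.card : ℝ) ≤ (2 * x) ^ ((1 : ℝ) / V) * ((Cd * 2 ^ ε1 * x ^ ε1) * (Al * 2 ^ ε2 * x ^ ε2) ^ r) := by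
    rw [hkeys, Finset.card_sigma]
    push_cast
    have h1 : ∀ a ∈ Icc 1 Amax, (((((a ^ V).divisors.filter (fun _ => a ^ V ≤ X2)) ×ˢ
        Fintype.piFinset (fun _ : Fin r => Finset.range (L + 1))).card : ℕ) : ℝ) ≤
        (Cd * 2 ^ ε1 * x ^ ε1) * (Al * 2 ^ ε2 * x ^ ε2) ^ r := by
      intro a ha
      rw [Finset.mem_Icc] at ha
      rw [Finset.card_product, Fintype.card_piFinset]
      push_cast
      simp only [Finset.card_range, Finset.prod_const, Finset.card_univ, Fintype.card_fin]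
      push_cast
      refine mul_le_mul ?_ ?_ (by (clear * -; positivity)) (by positivity)
      · by_cases haX : a ^ V ≤ X2
        · rw [Finset.filter_true_of_mem (fun _ _ => haX)]
          refine (hdiv (a ^ V) (Nat.pow_pos (by omega))).trans ?_
          rw [mul_assoc, ← Real.mul_rpow (by norm_num) hx0.le]
          refine mul_le_mul_of_nonneg_left ?_ (by (clear * - hCd; linarith))
          refine Real.rpow_le_rpow (Nat.cast_nonneg _) ?_ hε10.le
          exact le_trans (by exact_mod_cast haX) hX2r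
        · rw [Finset.filter_false_of_mem (fun _ _ => haX)]
          rw [Finset.card_empty]
          push_cast
          positivity
      · refine pow_le_pow_left₀ (by (clear * -; positivity)) ?_ r
        refine (hlog X2 hX21).trans ?_
        rw [mul_assoc, ← Real.mul_rpow (by norm_num) hx0.le]
        exact mul_le_mul_of_nonneg_left (Real.rpow_le_rpow (Nat.cast_nonneg _) hX2r hε20.le) hAl.le
    refine (Finset.sum_le_sum h1).trans ?_
    rw [Finset.sum_const, nsmul_eq_mul, Nat.card_Icc, Nat.add_sub_cancel]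
    exact mul_le_mul_of_nonneg_right (Nat.floor_le (by positivity)) (by positivity)
  have h2V : (2 * x) ^ ((1 : ℝ) / V) ≤ 2 * x ^ ε1 := by
    have hV1 : (1 : ℝ) ≤ V := by rw [hV]; push_cast; (clear * - hr0; linarith)
    have h3 : (1 : ℝ) / V ≤ ε1 := by
      rw [div_le_iff₀ (by (clear * - hV1; linarith))]
      have h4 : 4 / ε ≤ V := by rw [hV, hr]; push_cast; (clear * - hm; linarith)
      rw [div_le_iff₀ hε] at h4
      rw [hε1]
      (clear * - h4; linarith)
    rw [Real.mul_rpow (by norm_num) hx0.le]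
    refine mul_le_mul ?_ (Real.rpow_le_rpow_of_exponent_le hx1 h3) (by positivity) (by norm_num)
    calc (2 : ℝ) ^ ((1 : ℝ) / V) ≤ 2 ^ (1 : ℝ) := Real.rpow_le_rpow_of_exponent_le (by norm_num) (by
          rw [div_le_one (by (clear * - hV1; linarith))]; exact hV1)
      _ = 2 := Real.rpow_one 2
  have hTε : T ^ ε1 ≤ x ^ ε1 := Real.rpow_le_rpow hT0.le hTx hε10.le
  have hfin : x ^ ε1 * x ^ ε1 * (x ^ ε2) ^ r * x ^ ε1 = x ^ ε := by
    rw [← Real.rpow_natCast (x ^ ε2), ← Real.rpow_mul hx0.le, ← Real.rpow_add hx0, ← Real.rpow_add hx0,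
      ← Real.rpow_add hx0]
    congr 1
    rw [hε2, div_mul_cancel₀ _ hr0.ne', hε1]
    ring
  calc (keys.card : ℝ) * (2 * T * (A0 * T ^ ε1))
      ≤ (2 * x ^ ε1 * ((Cd * 2 ^ ε1 * x ^ ε1) * (Al * 2 ^ ε2 * x ^ ε2) ^ r)) * (2 * T * (A0 * x ^ ε1)) := by
        refine mul_le_mul ?_ ?_ (by (clear * - hx hA0; positivity)) (by (clear * - hx hCd hAl; positivity))
        · refine hkeyscard.trans ?_
          exact mul_le_mul_of_nonneg_right h2V (by positivity)
        · exact mul_le_mul_of_nonneg_left (mul_le_mul_of_nonneg_left hTε hA0.le) (by positivity)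
    _ = 2 * A0 * (2 * (Cd * 2 ^ ε1) * (Al * 2 ^ ε2) ^ r) * T * (x ^ ε1 * x ^ ε1 * (x ^ ε2) ^ r * x ^ ε1) := by
        rw [mul_pow (Al * 2 ^ ε2)]
        ring
    _ = 2 * A0 * (2 * (Cd * 2 ^ ε1) * (Al * 2 ^ ε2) ^ r) * T * x ^ ε := by rw [hfin]

end Pool.Agent.M17.Helper18.KP
end

/- Helper53.KN.Helper18.KP.Final -/
section
/-! Project KS, lemma POW: final statements. -/

set_option autoImplicit false
open MeasureTheory Filter Topology Finset
open scoped Classical

namespace Pool.Agent.M17.Helper18.KP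

theorem pow_short (ε : ℝ) (hε : 0 < ε) : ∃ A : ℝ, 0 < A ∧ ∀ x y : ℝ, 1 ≤ x → 0 ≤ y →
    y ≤ Real.sqrt x → ∑ k ∈ Icc ⌈x⌉₊ ⌊x + y⌋₊, wt k ≤ A * Real.sqrt x * x ^ ε := by
  obtain ⟨A, hA, h⟩ := pow_short_large ε hε
  refine ⟨A + 2 ^ 60, by (clear * - hA; positivity), ?_⟩
  intro x y hx hy hyx
  have hx0 : 0 < x := by (clear * - hx; linarith)
  have hs : 0 ≤ Real.sqrt x := Real.sqrt_nonneg x
  have hs1 : 1 ≤ Real.sqrt x := Real.one_le_sqrt.2 hx
  have hxε : 1 ≤ x ^ ε := Real.one_le_rpow hx hε.le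
  have hP : 0 ≤ Real.sqrt x * x ^ ε := by positivity
  rcases le_or_gt ((2 : ℝ) ^ 36) x with hl | hl
  · refine (h x y hl hy hyx).trans ?_
    (clear * - hP; nlinarith)
  · have hsx : Real.sqrt x ≤ x := by
      (clear * - hx0 hy hs1 hyx; nlinarith [Real.mul_self_sqrt hx0.le])
    have h1 : ∀ k ∈ Icc ⌈x⌉₊ ⌊x + y⌋₊, wt k ≤ 2 * Real.sqrt x := by
      intro k hk
      rw [Finset.mem_Icc] at hk
      have h2 : (k : ℝ) ≤ x + y := (Nat.le_floor_iff (by (clear * - hx hy; linarith))).1 hk.2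
      refine (wt_le_sqrt k).trans ?_
      have h3 : (k : ℝ) ≤ 4 * x := by (clear * - hx hyx hsx h2; linarith)
      calc Real.sqrt k ≤ Real.sqrt (4 * x) := Real.sqrt_le_sqrt h3
        _ = 2 * Real.sqrt x := by
          rw [Real.sqrt_mul (by norm_num), show (4 : ℝ) = 2 ^ 2 by norm_num, Real.sqrt_sq (by norm_num)]
    refine (Finset.sum_le_sum h1).trans ?_
    rw [Finset.sum_const, nsmul_eq_mul]
    have hcard : ((Icc ⌈x⌉₊ ⌊x + y⌋₊).card : ℝ) ≤ 2 ^ 38 := by
      have h2 : (Icc ⌈x⌉₊ ⌊x + y⌋₊).card ≤ ⌊x + y⌋₊ + 1 := by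
        rw [Nat.card_Icc]; omega
      have h3 : (⌊x + y⌋₊ : ℝ) ≤ x + y := Nat.floor_le (by (clear * - hx hy; linarith))
      have h4 : ((Icc ⌈x⌉₊ ⌊x + y⌋₊).card : ℝ) ≤ (⌊x + y⌋₊ : ℝ) + 1 := by exact_mod_cast h2
      have : (2 : ℝ) ^ 38 = 4 * 2 ^ 36 := by norm_num
      (clear * - hyx hl hsx h3 h4; linarith)
    calc ((Icc ⌈x⌉₊ ⌊x + y⌋₊).card : ℝ) * (2 * Real.sqrt x) ≤ 2 ^ 38 * (2 * Real.sqrt x) :=
          mul_le_mul_of_nonneg_right hcard (by positivity)
      _ ≤ 2 ^ 60 * Real.sqrt x := by (clear * - hs1; nlinarith)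
      _ ≤ 2 ^ 60 * (Real.sqrt x * x ^ ε) := by
        refine mul_le_mul_of_nonneg_left ?_ (by positivity)
        (clear * - hy hxε hyx; nlinarith)
      _ ≤ (A + 2 ^ 60) * Real.sqrt x * x ^ ε := by (clear * - hA hP; nlinarith)

theorem sum_biUnion_le' (s : Finset ℕ) (t : ℕ → Finset ℕ) (f : ℕ → ℝ) (hf : ∀ k, 0 ≤ f k) :
    ∑ k ∈ s.biUnion t, f k ≤ ∑ j ∈ s, ∑ k ∈ t j, f k := by
  induction s using Finset.induction with
  | empty => simp
  | insert a s ha ih =>
    rw [Finset.biUnion_insert, Finset.sum_insert ha]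
    have h1 : ∑ k ∈ t a ∪ s.biUnion t, f k ≤ ∑ k ∈ t a, f k + ∑ k ∈ s.biUnion t, f k := by
      rw [← Finset.sum_union_inter]
      have : 0 ≤ ∑ k ∈ t a ∩ s.biUnion t, f k := Finset.sum_nonneg fun k _ => hf k
      linarith
    (clear * - ih h1; linarith)

/-- POW with `wt` -/
theorem pow_wt (ε : ℝ) (hε : 0 < ε) : ∃ A : ℝ, 0 < A ∧ ∀ x y : ℝ, 1 ≤ x → 0 ≤ y →
    y ≤ x → ∑ k ∈ Icc ⌈x⌉₊ ⌊x + y⌋₊, wt k ≤ A * (y + Real.sqrt x) * x ^ ε := by
  obtain ⟨A, hA, h⟩ := pow_short ε hε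
  refine ⟨2 * (A * 2 ^ ε) * 2, by positivity, ?_⟩
  intro x y hx hy hyx
  have hx0 : 0 < x := by (clear * - hx; linarith)
  have hs1 : 1 ≤ Real.sqrt x := Real.one_le_sqrt.2 hx
  have hs0 : 0 < Real.sqrt x := by linarith
  -- number of windows
  set J : ℕ := ⌊y / Real.sqrt x⌋₊ + 1 with hJ
  have hJr : (J : ℝ) ≤ y / Real.sqrt x + 1 := by
    rw [hJ]; push_cast
    have := Nat.floor_le (show 0 ≤ y / Real.sqrt x by positivity)
    (clear * - this; linarith)
  have hcover : Icc ⌈x⌉₊ ⌊x + y⌋₊ ⊆ (Finset.range J).biUnion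
      (fun j => Icc ⌈x + j * Real.sqrt x⌉₊ ⌊x + j * Real.sqrt x + Real.sqrt x⌋₊) := by
    intro k hk
    rw [Finset.mem_Icc] at hk
    have h1 : x ≤ k := Nat.ceil_le.1 hk.1
    have h2 : (k : ℝ) ≤ x + y := (Nat.le_floor_iff (by (clear * - hx hy; linarith))).1 hk.2
    rw [Finset.mem_biUnion]
    have h3 : 0 ≤ ((k : ℝ) - x) / Real.sqrt x := div_nonneg (by (clear * - h1; linarith)) hs0.le
    refine ⟨⌊((k : ℝ) - x) / Real.sqrt x⌋₊, ?_, ?_⟩
    · rw [Finset.mem_range, hJ]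
      have : ⌊((k : ℝ) - x) / Real.sqrt x⌋₊ ≤ ⌊y / Real.sqrt x⌋₊ :=
        Nat.floor_le_floor (div_le_div_of_nonneg_right (by (clear * - h2; linarith)) hs0.le)
      omega
    · have h4 := Nat.floor_le h3
      have h5 := Nat.lt_floor_add_one (((k : ℝ) - x) / Real.sqrt x)
      rw [le_div_iff₀ hs0] at h4
      rw [div_lt_iff₀ hs0] at h5
      rw [Finset.mem_Icc]
      constructor
      · refine Nat.ceil_le.2 ?_
        (clear * - h4; linarith)
      · refine Nat.le_floor ?_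
        (clear * - h5; linarith)
  have h1 : ∑ k ∈ Icc ⌈x⌉₊ ⌊x + y⌋₊, wt k ≤ ∑ j ∈ Finset.range J,
      ∑ k ∈ Icc ⌈x + j * Real.sqrt x⌉₊ ⌊x + j * Real.sqrt x + Real.sqrt x⌋₊, wt k := by
    refine (Finset.sum_le_sum_of_subset_of_nonneg hcover fun k _ _ => wt_nonneg k).trans ?_
    exact sum_biUnion_le' _ _ _ wt_nonneg
  have h2 : ∀ j ∈ Finset.range J, ∑ k ∈ Icc ⌈x + j * Real.sqrt x⌉₊ ⌊x + j * Real.sqrt x + Real.sqrt x⌋₊, wt k ≤
      2 * (A * 2 ^ ε) * Real.sqrt x * x ^ ε := by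
    intro j hj
    have hj0 : (0 : ℝ) ≤ j := Nat.cast_nonneg j
    have hjx : (j : ℝ) * Real.sqrt x ≤ x := by
      rw [Finset.mem_range, hJ] at hj
      have h3 : (j : ℝ) ≤ ⌊y / Real.sqrt x⌋₊ := by exact_mod_cast (by omega : j ≤ ⌊y / Real.sqrt x⌋₊)
      have h4 := Nat.floor_le (show 0 ≤ y / Real.sqrt x by positivity)
      have h5 : (j : ℝ) ≤ y / Real.sqrt x := h3.trans h4
      rw [le_div_iff₀ hs0] at h5
      (clear * - hyx h5; linarith)
    have hx' : x ≤ x + j * Real.sqrt x := by (clear * - hs1; nlinarith)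
    have h3 := h (x + j * Real.sqrt x) (Real.sqrt x) (by linarith) hs0.le (Real.sqrt_le_sqrt hx')
    refine h3.trans ?_
    have h4 : Real.sqrt (x + j * Real.sqrt x) ≤ 2 * Real.sqrt x := by
      calc Real.sqrt (x + j * Real.sqrt x) ≤ Real.sqrt (4 * x) := Real.sqrt_le_sqrt (by (clear * - hx hjx; linarith))
        _ = 2 * Real.sqrt x := by
          rw [Real.sqrt_mul (by norm_num), show (4 : ℝ) = 2 ^ 2 by norm_num, Real.sqrt_sq (by norm_num)]
    have h5 : (x + j * Real.sqrt x) ^ ε ≤ 2 ^ ε * x ^ ε := by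
      rw [← Real.mul_rpow (by norm_num) hx0.le]
      exact Real.rpow_le_rpow (by positivity) (by (clear * - hjx; linarith)) hε.le
    calc A * Real.sqrt (x + j * Real.sqrt x) * (x + j * Real.sqrt x) ^ ε
        ≤ A * (2 * Real.sqrt x) * (2 ^ ε * x ^ ε) := by
          refine mul_le_mul (mul_le_mul_of_nonneg_left h4 hA.le) h5 (by positivity) (by positivity)
      _ = 2 * (A * 2 ^ ε) * Real.sqrt x * x ^ ε := by ring
  refine h1.trans ((Finset.sum_le_sum h2).trans ?_)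
  rw [Finset.sum_const, Finset.card_range, nsmul_eq_mul]
  have h6 : (J : ℝ) * Real.sqrt x ≤ y + Real.sqrt x := by
    calc (J : ℝ) * Real.sqrt x ≤ (y / Real.sqrt x + 1) * Real.sqrt x := mul_le_mul_of_nonneg_right hJr hs0.le
      _ = y + Real.sqrt x := by field_simp
  have hxε : 0 < x ^ ε := by positivity
  calc (J : ℝ) * (2 * (A * 2 ^ ε) * Real.sqrt x * x ^ ε) = 2 * (A * 2 ^ ε) * (J * Real.sqrt x) * x ^ ε := by ring
    _ ≤ 2 * (A * 2 ^ ε) * (y + Real.sqrt x) * x ^ ε := by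
      refine mul_le_mul_of_nonneg_right (mul_le_mul_of_nonneg_left h6 (by positivity)) hxε.le
    _ ≤ 2 * (A * 2 ^ ε) * 2 * (y + Real.sqrt x) * x ^ ε := by
      refine mul_le_mul_of_nonneg_right (mul_le_mul_of_nonneg_right ?_ (by positivity)) hxε.le
      have : 0 < 2 * (A * 2 ^ ε) := by positivity
      (clear * - this; linarith)

/-- **Lemma POW**: `∑_{x ≤ k ≤ x+y} (k / rad k)^(1/2) ≤ C (y + x^(1/2)) x^ε`. -/
theorem pow_half (ε : ℝ) (hε : 0 < ε) : ∃ C : ℝ, 0 < C ∧ ∀ x y : ℝ, 1 ≤ x → 0 ≤ y → y ≤ x →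
    ∑ k ∈ Icc ⌈x⌉₊ ⌊x + y⌋₊, ((k : ℝ) / ∏ p ∈ k.primeFactors, (p : ℝ)) ^ (1 / 2 : ℝ) ≤
      C * (y + x ^ (1 / 2 : ℝ)) * x ^ ε := by
  obtain ⟨A, hA, h⟩ := pow_wt ε hε
  refine ⟨A, hA, fun x y hx hy hyx => ?_⟩
  have h1 := h x y hx hy hyx
  simp only [wt, Real.sqrt_eq_rpow] at h1
  exact h1

end Pool.Agent.M17.Helper18.KP
end
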