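import Mathlib
import Pool.Agent.Helper53.KM.G11
import Pool.Agent.Helper53.KM.G14
import Pool.Agent.Helper53.KM.G22
import Pool.Agent.Helper53.KM.G23
import Pool.Agent.Helper53.KM.G24
import Pool.Agent.Helper53.KM.G25
import Pool.Agent.Helper53.KM.G26

/- Helper53.KN.Helper18.KSZ.N1 -/
section
/-!
# N1: existence of the sieve weights
-/

set_option autoImplicit false

open Finset

namespace Pool.Agent.M17.Helper18.KSZ

/-- N1 -/
theorem sieveWeights (h1 : LamBasic) (h2 : LamSmall) (h3 : LamMean) : SieveWeights := by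
  obtain ⟨b, hb⟩ := h2
  obtain ⟨C, hC, hm⟩ := h3 b
  refine ⟨((4 * b + 4 : ℕ) : ℝ), C, ?_, hC, fun w hw => ⟨lamE b w, ?_⟩⟩
  · have : (1 : ℕ) ≤ 4 * b + 4 := by omega
    exact_mod_cast this
  obtain ⟨e1, e2, e3, e4, _⟩ := h1 b w hw
  exact ⟨e1, e2, e3, e4, fun x hx hwx S hS => hb b le_rfl w hw x hx hwx S hS, hm w hw⟩

end Pool.Agent.M17.Helper18.KSZ
end

/- Helper53.KN.Helper18.KSZ.N11 -/
section
/-!
# N11: well spaced points
-/

set_option autoImplicit false

open Finset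

namespace Pool.Agent.M17.Helper18.KSZ

/-- sum of inverse squares of positive integers in a finite set -/
lemma sum_inv_sq_le_two (s : Finset ℕ) (h : ∀ n ∈ s, 0 < n) : ∑ n ∈ s, ((n : ℝ) ^ 2)⁻¹ ≤ 2 := by
  have h1 : s ⊆ Finset.Ioo 0 (s.sup id + 1) := by
    intro n hn
    rw [Finset.mem_Ioo]
    exact ⟨h n hn, Nat.lt_succ_of_le (Finset.le_sup (f := id) hn)⟩
  refine (Finset.sum_le_sum_of_subset_of_nonneg h1 fun n _ _ => by positivity).trans ?_
  have h2 := sum_Ioo_inv_sq_le (α := ℝ) 0 (s.sup id + 1)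
  simpa using h2

/-- one side -/
lemma spaced_side {δ : ℝ} (hδ : 0 < δ) (G : Finset ℂ) (v : ℂ → ℝ) (h1 : ∀ z ∈ G, δ ≤ v z)
    (h2 : ∀ z ∈ G, ∀ z' ∈ G, z ≠ z' → δ ≤ |v z - v z'|) :
    ∑ z ∈ G, 1 / (v z) ^ 2 ≤ 2 / δ ^ 2 := by
  classical
  set k : ℂ → ℕ := fun z => ⌊v z / δ⌋₊ with hk
  have hkpos : ∀ z ∈ G, 0 < k z := by
    intro z hz
    rw [hk]
    apply Nat.floor_pos.mpr
    rw [le_div_iff₀ hδ, one_mul]
    exact h1 z hz
  have hinj : Set.InjOn k (G : Set ℂ) := by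
    intro z hz z' hz' heq
    by_contra hne
    have h3 := h2 z hz z' hz' hne
    have hv : 0 ≤ v z / δ := div_nonneg (hδ.le.trans (h1 z hz)) hδ.le
    have hv' : 0 ≤ v z' / δ := div_nonneg (hδ.le.trans (h1 z' hz')) hδ.le
    have a1 := Nat.floor_le hv
    have a2 := Nat.lt_floor_add_one (v z / δ)
    have a3 := Nat.floor_le hv'
    have a4 := Nat.lt_floor_add_one (v z' / δ)
    have heq' : (⌊v z / δ⌋₊ : ℝ) = (⌊v z' / δ⌋₊ : ℝ) := by
      have : ⌊v z / δ⌋₊ = ⌊v z' / δ⌋₊ := heq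
      rw [this]
    have a5 : |v z / δ - v z' / δ| < 1 := by
      rw [abs_lt]
      constructor <;> linarith
    rw [← sub_div, abs_div, abs_of_pos hδ, div_lt_one hδ] at a5
    linarith
  calc ∑ z ∈ G, 1 / (v z) ^ 2 ≤ ∑ z ∈ G, ((k z : ℝ) ^ 2)⁻¹ * (1 / δ ^ 2) := by
        apply Finset.sum_le_sum
        intro z hz
        have h3 : (0 : ℝ) < k z := by exact_mod_cast hkpos z hz
        have h4 : (k z : ℝ) ≤ v z / δ :=
          Nat.floor_le (div_nonneg (hδ.le.trans (h1 z hz)) hδ.le)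
        have h5 : (k z : ℝ) * δ ≤ v z := (le_div_iff₀ hδ).mp h4
        have h6 : 0 < (k z : ℝ) * δ := by positivity
        calc 1 / (v z) ^ 2 ≤ 1 / ((k z : ℝ) * δ) ^ 2 := by
              apply one_div_le_one_div_of_le (by positivity)
              exact pow_le_pow_left₀ h6.le h5 2
          _ = _ := by
              field_simp
    _ = (∑ z ∈ G, ((k z : ℝ) ^ 2)⁻¹) * (1 / δ ^ 2) := by rw [Finset.sum_mul]
    _ = (∑ n ∈ G.image k, ((n : ℝ) ^ 2)⁻¹) * (1 / δ ^ 2) := by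
        rw [Finset.sum_image hinj]
    _ ≤ 2 * (1 / δ ^ 2) := by
        apply mul_le_mul_of_nonneg_right _ (by positivity)
        apply sum_inv_sq_le_two
        intro n hn
        rw [Finset.mem_image] at hn
        obtain ⟨z, hz, rfl⟩ := hn
        exact hkpos z hz
    _ = 2 / δ ^ 2 := by ring

/-- N11 -/
theorem spaced : Spaced := by
  classical
  intro δ hδ Γ hΓ ρ hρ
  have hne : ∀ ρ' ∈ Γ.erase ρ, δ ≤ |ρ.im - ρ'.im| := by
    intro ρ' hρ'
    exact hΓ ρ hρ ρ' (Finset.mem_of_mem_erase hρ') (Finset.ne_of_mem_erase hρ').symm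
  rw [← Finset.sum_filter_add_sum_filter_not (Γ.erase ρ) (fun ρ' => ρ'.im ≤ ρ.im)]
  have e1 : ∑ ρ' ∈ (Γ.erase ρ).filter (fun ρ' => ρ'.im ≤ ρ.im), 1 / (ρ.im - ρ'.im) ^ 2 ≤
      2 / δ ^ 2 := by
    apply spaced_side hδ _ (fun z => ρ.im - z.im)
    · intro z hz
      rw [Finset.mem_filter] at hz
      have h1 := hne z hz.1
      rwa [abs_of_nonneg (by linarith [hz.2])] at h1
    · intro z hz z' hz' hzz
      rw [Finset.mem_filter] at hz hz'
      have h1 := hΓ z (Finset.mem_of_mem_erase hz.1) z' (Finset.mem_of_mem_erase hz'.1) hzz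
      have : ρ.im - z.im - (ρ.im - z'.im) = -(z.im - z'.im) := by ring
      rw [this, abs_neg]
      exact h1
  have e2 : ∑ ρ' ∈ (Γ.erase ρ).filter (fun ρ' => ¬ ρ'.im ≤ ρ.im), 1 / (ρ.im - ρ'.im) ^ 2 ≤
      2 / δ ^ 2 := by
    have e3 : ∑ ρ' ∈ (Γ.erase ρ).filter (fun ρ' => ¬ ρ'.im ≤ ρ.im), 1 / (ρ.im - ρ'.im) ^ 2 =
        ∑ ρ' ∈ (Γ.erase ρ).filter (fun ρ' => ¬ ρ'.im ≤ ρ.im), 1 / (ρ'.im - ρ.im) ^ 2 := by
      refine Finset.sum_congr rfl fun z _ => ?_
      congr 1
      ring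
    rw [e3]
    apply spaced_side hδ _ (fun z => z.im - ρ.im)
    · intro z hz
      rw [Finset.mem_filter] at hz
      have h1 := hne z hz.1
      rw [abs_sub_comm, abs_of_nonneg (by linarith [not_le.mp hz.2])] at h1
      exact h1
    · intro z hz z' hz' hzz
      rw [Finset.mem_filter] at hz hz'
      have h1 := hΓ z (Finset.mem_of_mem_erase hz.1) z' (Finset.mem_of_mem_erase hz'.1) hzz
      have : z.im - ρ.im - (z'.im - ρ.im) = z.im - z'.im := by ring
      rw [this]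
      exact h1
  calc _ ≤ 2 / δ ^ 2 + 2 / δ ^ 2 := add_le_add e1 e2
    _ = 4 / δ ^ 2 := by ring

end Pool.Agent.M17.Helper18.KSZ
end

/- Helper53.KN.Helper18.KSZ.N14 -/
section
/-!
# N14: the zeros of one level
-/

set_option autoImplicit false

open Finset

namespace Pool.Agent.M17.Helper18.KSZ

lemma mz_nonneg (ρ : ℂ) : 0 ≤ mz ρ := Nat.cast_nonneg _

/-- tails of `∑ k ^ 6 * exp (-k / 2)` -/
lemma tail_small (B η : ℝ) (_hB : 0 < B) (hη : 0 < η) : ∃ k0 : ℕ, ∀ t : Finset ℕ,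
    (∀ k ∈ t, k0 ≤ k) → ∑ k ∈ t, B * ((k : ℝ) ^ 6 * Real.exp (-(1 / 2) * k)) ≤ η := by
  have hs : Summable (fun k : ℕ => B * ((k : ℝ) ^ 6 * Real.exp (-(1 / 2) * k))) := by
    apply Summable.mul_left
    exact Real.summable_pow_mul_exp_neg_nat_mul 6 (by norm_num)
  obtain ⟨s, hs'⟩ := summable_iff_vanishing_norm.mp hs η hη
  refine ⟨s.sup id + 1, fun t ht => ?_⟩
  have h1 := hs' t (by
    rw [Finset.disjoint_left]
    intro k hk hk'
    have h2 := ht k hk
    have h3 : k ≤ s.sup id := Finset.le_sup (f := id) hk'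
    omega)
  exact (Real.le_norm_self _).trans h1.le

/-- N14 -/
theorem oneLevel (h10 : InA10) (h : DensityM) : OneLevel := by
  classical
  obtain ⟨ε1, C, X1, hε1, hC, hD⟩ := h
  refine ⟨ε1 / 2, by linarith, fun η hη => ?_⟩
  obtain ⟨k0, hk0⟩ := tail_small (Real.exp 1 * C) η (by positivity) hη
  obtain ⟨T0, hT0, hT⟩ := h10 (k0 + 1)
  -- thresholds
  have hev : ∀ᶠ X : ℝ in Filter.atTop, X1 ≤ X ∧ 1 < X ∧ T0 ≤ X ^ (3 / 10 : ℝ) ∧
      2 / ε1 ≤ Real.log X := by
    refine (Filter.eventually_ge_atTop X1).and ((Filter.eventually_gt_atTop 1).and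
      (((tendsto_rpow_atTop (by norm_num : (0 : ℝ) < 3 / 10)).eventually_ge_atTop T0).and
      (Real.tendsto_log_atTop.eventually_ge_atTop _)))
  obtain ⟨X0, hX0⟩ := hev.exists_forall_of_atTop
  refine ⟨X0, fun X hX Z hZ => ?_⟩
  obtain ⟨hXX1, hX1, hXT, hXL⟩ := hX0 X hX
  have hXpos : 0 < X := by linarith
  set L : ℝ := Real.log X with hL
  have hL0 : 0 < L := Real.log_pos hX1
  set N : ℕ := ⌊ε1 * L⌋₊ with hN
  have hre : ∀ ρ ∈ Z, ρ.re < 1 := by
    intro ρ hρ
    by_contra h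
    push Not at h
    exact riemannZeta_ne_zero_of_one_le_re h (hZ ρ hρ).1
  set kk : ℂ → ℕ := fun ρ => ⌈(1 - ρ.re) * L⌉₊ with hkk
  have hkk0 : ∀ ρ ∈ Z, k0 ≤ kk ρ := by
    intro ρ hρ
    obtain ⟨h1, h2, h3, h4⟩ := hZ ρ hρ
    have h5 := hT ρ h1 (hXT.trans h3)
    have h6 : 0 < Real.log |ρ.im| := Real.log_pos (by linarith [hXT.trans h3])
    have h7 : Real.log |ρ.im| ≤ L := by
      have h8 : |ρ.im| ≤ X := by
        refine h4.trans ?_
        calc X ^ (6 / 10 : ℝ) ≤ X ^ (1 : ℝ) :=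
              Real.rpow_le_rpow_of_exponent_le hX1.le (by norm_num)
          _ = X := Real.rpow_one X
      exact Real.log_le_log (by linarith [hXT.trans h3]) h8
    have h9 : ((k0 : ℝ) + 1) / Real.log |ρ.im| ≤ 1 - ρ.re := by linarith
    have h10' : ((k0 : ℝ) + 1) ≤ (1 - ρ.re) * L := by
      calc ((k0 : ℝ) + 1) ≤ (1 - ρ.re) * Real.log |ρ.im| := by
            rwa [div_le_iff₀ h6] at h9
        _ ≤ (1 - ρ.re) * L := mul_le_mul_of_nonneg_left h7 (by linarith [hre ρ hρ])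
    have h11 : (k0 : ℝ) ≤ kk ρ := by
      have := Nat.le_ceil ((1 - ρ.re) * L)
      simp only [hkk]
      linarith
    exact_mod_cast h11
  have hkk1 : ∀ ρ ∈ Z, 1 ≤ kk ρ := by
    intro ρ hρ
    have : 0 < (1 - ρ.re) * L := mul_pos (by linarith [hre ρ hρ]) hL0
    exact Nat.ceil_pos.mpr this
  have hkkN : ∀ ρ ∈ Z, kk ρ ≤ N := by
    intro ρ hρ
    rw [hN]
    apply Nat.le_floor
    have h1 : (1 - ρ.re) * L ≤ ε1 / 2 * L :=
      mul_le_mul_of_nonneg_right (by linarith [(hZ ρ hρ).2.1]) hL0.le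
    have h2 : (kk ρ : ℝ) < (1 - ρ.re) * L + 1 :=
      Nat.ceil_lt_add_one (mul_nonneg (by linarith [hre ρ hρ]) hL0.le)
    have h3 : 2 ≤ ε1 * L := by
      have := (div_le_iff₀ hε1).mp hXL
      linarith
    linarith
  -- fiberwise
  set t : Finset ℕ := (Finset.range (N + 1)).filter (fun k => k0 ≤ k ∧ 1 ≤ k) with ht
  have hmaps : ∀ ρ ∈ Z, kk ρ ∈ t := by
    intro ρ hρ
    rw [ht, Finset.mem_filter, Finset.mem_range]
    exact ⟨Nat.lt_succ_of_le (hkkN ρ hρ), hkk0 ρ hρ, hkk1 ρ hρ⟩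
  rw [← Finset.sum_fiberwise_of_maps_to hmaps]
  refine le_trans ?_ (hk0 t (fun k hk => by
    rw [ht, Finset.mem_filter] at hk
    exact hk.2.1))
  apply Finset.sum_le_sum
  intro k hk
  rw [ht, Finset.mem_filter, Finset.mem_range] at hk
  have hkN : (k : ℝ) ≤ ε1 * L := by
    have h1 : k ≤ N := by omega
    exact (Nat.le_floor_iff (by positivity)).mp h1
  have hk1 : (1 : ℝ) ≤ k := by exact_mod_cast hk.2.2
  have h1 : ∀ ρ ∈ Z.filter (fun ρ => kk ρ = k), mz ρ * X ^ (ρ.re - 1) ≤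
      mz ρ * Real.exp (1 - k) := by
    intro ρ hρ
    rw [Finset.mem_filter] at hρ
    apply mul_le_mul_of_nonneg_left _ (mz_nonneg ρ)
    rw [Real.rpow_def_of_pos hXpos]
    apply Real.exp_le_exp.mpr
    have h2 : (kk ρ : ℝ) < (1 - ρ.re) * L + 1 :=
      Nat.ceil_lt_add_one (mul_nonneg (by linarith [hre ρ hρ.1]) hL0.le)
    rw [hρ.2] at h2
    rw [← hL]
    linarith
  refine (Finset.sum_le_sum h1).trans ?_
  rw [← Finset.sum_mul]
  have h3 := hD X hXX1 k hk1 hkN (Z.filter (fun ρ => kk ρ = k)) (by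
    intro ρ hρ
    rw [Finset.mem_filter] at hρ
    refine ⟨(hZ ρ hρ.1).1, ?_, (hZ ρ hρ.1).2.2.1, (hZ ρ hρ.1).2.2.2⟩
    have h2 : (1 - ρ.re) * L ≤ kk ρ := Nat.le_ceil _
    rw [hρ.2] at h2
    have h4 : 1 - ρ.re ≤ k / L := by
      rw [le_div_iff₀ hL0]; exact h2
    rw [← hL]
    linarith)
  refine (mul_le_mul_of_nonneg_right h3 (Real.exp_pos _).le).trans (le_of_eq ?_)
  have h5 : Real.exp (k / 2 : ℝ) * Real.exp (1 - k) = Real.exp 1 * Real.exp (-(1 / 2) * k) := by
    rw [← Real.exp_add, ← Real.exp_add]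
    congr 1
    ring
  calc C * (k : ℝ) ^ 6 * Real.exp (k / 2) * Real.exp (1 - k) =
      C * (k : ℝ) ^ 6 * (Real.exp (k / 2 : ℝ) * Real.exp (1 - k)) := by ring
    _ = _ := by rw [h5]; ring

end Pool.Agent.M17.Helper18.KSZ
end

/- Helper53.KN.Helper26.KSZ.N1b -/
section
/-!
# KSZ-N1b: the Brun-Hooley weights are small on smooth numbers
-/

set_option autoImplicit false

open Finset

namespace Pool.Agent.M17.Helper26.KSZ

open Pool.Agent.M17.Helper18.KSZ

/-- the multiplicative majorant -/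
noncomputable def fm (x : ℝ) (n : ℕ) : ℝ := 8 ^ n.primeFactors.card * (n : ℝ) ^ (x - 1)

theorem fm_one (x : ℝ) : fm x 1 = 1 := by
  simp [fm]

theorem fm_mul (x : ℝ) {m n : ℕ} (h : Nat.Coprime m n) : fm x (m * n) = fm x m * fm x n := by
  unfold fm
  have h1 : (m * n).primeFactors.card = m.primeFactors.card + n.primeFactors.card := by
    rw [h.primeFactors_mul, Finset.card_union_of_disjoint h.disjoint_primeFactors]
  rw [h1, pow_add, Nat.cast_mul, Real.mul_rpow (Nat.cast_nonneg _) (Nat.cast_nonneg _)]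
  ring

theorem fm_nonneg (x : ℝ) (n : ℕ) : 0 ≤ fm x n := by
  unfold fm; (clear * -; positivity)

theorem fm_prime_pow (x : ℝ) {p : ℕ} (hp : p.Prime) (n : ℕ) :
    fm x (p ^ (n + 1)) = 8 * ((p : ℝ) ^ (x - 1)) ^ (n + 1) := by
  unfold fm
  rw [Nat.primeFactors_prime_pow (Nat.succ_ne_zero n) hp, Finset.card_singleton, pow_one,
    Nat.cast_pow, ← Real.rpow_natCast, ← Real.rpow_mul (Nat.cast_nonneg _), mul_comm _ (x - 1),
    Real.rpow_mul (Nat.cast_nonneg _), Real.rpow_natCast]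

theorem q_lt_one {x : ℝ} (hx : x < 1) {p : ℕ} (hp : p.Prime) : (p : ℝ) ^ (x - 1) < 1 := by
  apply Real.rpow_lt_one_of_one_lt_of_neg
  · exact_mod_cast hp.one_lt
  · linarith

theorem fm_summable {x : ℝ} (hx : x < 1) {p : ℕ} (hp : p.Prime) :
    Summable (fun n : ℕ => ‖fm x (p ^ n)‖) := by
  have hq : (p : ℝ) ^ (x - 1) < 1 := q_lt_one hx hp
  have hq0 : 0 ≤ (p : ℝ) ^ (x - 1) := Real.rpow_nonneg (Nat.cast_nonneg _) _
  have h1 : Summable (fun n : ℕ => 8 * ((p : ℝ) ^ (x - 1)) ^ n) :=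
    (summable_geometric_of_lt_one hq0 hq).mul_left 8
  refine Summable.of_nonneg_of_le (fun _ => norm_nonneg _) (fun n => ?_) h1
  rw [Real.norm_of_nonneg (fm_nonneg _ _)]
  rcases n with _ | n
  · rw [pow_zero, fm_one]; norm_num
  · rw [fm_prime_pow x hp]

theorem fm_tsum_le {w x : ℝ} (hx : 0 ≤ x) (hx1 : x < 1) (hwx : w ^ x ≤ 11 / 10)
    {p : ℕ} (hp : p.Prime) (hpw : (p : ℝ) ≤ w) : ∑' n : ℕ, fm x (p ^ n) ≤ 1 + 20 / p := by
  have hq : (p : ℝ) ^ (x - 1) < 1 := q_lt_one hx1 hp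
  have hq0 : 0 ≤ (p : ℝ) ^ (x - 1) := Real.rpow_nonneg (Nat.cast_nonneg _) _
  have hs : Summable (fun n : ℕ => fm x (p ^ n)) := (fm_summable hx1 hp).of_norm
  have hp2 : (2 : ℝ) ≤ p := by exact_mod_cast hp.two_le
  have hp0 : (0 : ℝ) < p := by (clear * - hp2; linarith)
  have h1 : (p : ℝ) ^ (x - 1) ≤ 11 / 10 / p := by
    rw [Real.rpow_sub_one (by (clear * - hp2; positivity))]
    have : (p : ℝ) ^ x ≤ w ^ x := Real.rpow_le_rpow (by positivity) hpw hx
    gcongr
    (clear * - hwx this; linarith)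
  rw [hs.tsum_eq_zero_add, pow_zero, fm_one]
  have h2 : ∑' n : ℕ, fm x (p ^ (n + 1)) = 8 * ((p : ℝ) ^ (x - 1) * (1 - (p : ℝ) ^ (x - 1))⁻¹) := by
    rw [← tsum_geometric_of_lt_one hq0 hq, ← tsum_mul_left, ← tsum_mul_left]
    apply tsum_congr
    intro n
    rw [fm_prime_pow x hp, pow_succ]
    ring
  rw [h2]
  have h3 : (p : ℝ) ^ (x - 1) ≤ 11 / 20 := by
    refine h1.trans ?_
    rw [div_le_iff₀ hp0]
    (clear * - hp2; linarith)
  have h4 : (1 - (p : ℝ) ^ (x - 1))⁻¹ ≤ 20 / 9 := by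
    rw [inv_le_comm₀ (by (clear * - hq; linarith)) (by norm_num)]
    norm_num
    (clear * - h3; linarith)
  have h5 : (p : ℝ) ^ (x - 1) * (1 - (p : ℝ) ^ (x - 1))⁻¹ ≤ 11 / 10 / p * (20 / 9) := by
    apply mul_le_mul h1 h4
    · apply inv_nonneg.mpr; (clear * - hq; linarith)
    · positivity
  have h6 : 8 * (11 / 10 / (p : ℝ) * (20 / 9)) ≤ 20 / p := by
    rw [show 8 * (11 / 10 / (p : ℝ) * (20 / 9)) = (8 * (11 / 10) * (20 / 9)) / p by ring]
    gcongr
    norm_num
  (clear * - h5 h6; linarith)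

theorem x_lt_one {w x : ℝ} (hw : 2 ≤ w) (hx : 0 ≤ x) (hwx : w ^ x ≤ 11 / 10) : x < 1 := by
  by_contra h
  push Not at h
  have h1 : (2 : ℝ) ^ (1 : ℝ) ≤ 2 ^ x := Real.rpow_le_rpow_of_exponent_le (by norm_num) h
  have h2 : (2 : ℝ) ^ x ≤ w ^ x := Real.rpow_le_rpow (by norm_num) hw hx
  rw [Real.rpow_one] at h1
  linarith

theorem euler_le {w x : ℝ} (hw : 2 ≤ w) (hx : 0 ≤ x) (hwx : w ^ x ≤ 11 / 10)
    (P : Finset ℕ) (hP : ∀ p ∈ P, p.Prime ∧ (p : ℝ) ≤ w) (T : Finset ℕ)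
    (hT : ∀ n ∈ T, 0 < n ∧ n.primeFactors ⊆ P) :
    ∑ n ∈ T, fm x n ≤ ∏ p ∈ P, (1 + 20 / (p : ℝ)) := by
  classical
  have hx1 := x_lt_one hw hx hwx
  have hfact : ∀ n ∈ T, n ∈ Nat.factoredNumbers P := by
    intro n hn
    obtain ⟨h0, h1⟩ := hT n hn
    rw [Nat.mem_factoredNumbers]
    refine ⟨h0.ne', fun p hp => h1 ?_⟩
    exact List.mem_toFinset.mpr hp
  have h1 := (EulerProduct.summable_and_hasSum_factoredNumbers_prod_filter_prime_tsum
    (fm_one x) (fun {m n} h => fm_mul x h) (fun {p} hp => fm_summable hx1 hp) P).2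
  have h2 : ∑ n ∈ T, fm x n =
      ∑ n ∈ T.subtype (fun n => n ∈ Nat.factoredNumbers P), fm x n := by
    rw [Finset.sum_subtype_of_mem (fun n => fm x n) hfact]
  rw [h2]
  refine (sum_le_hasSum (f := fun m : Nat.factoredNumbers P => fm x (m : ℕ))
    (T.subtype (fun n => n ∈ Nat.factoredNumbers P)) (fun i _ => fm_nonneg x i) h1).trans ?_
  rw [Finset.filter_true_of_mem (fun p hp => (hP p hp).1)]
  apply Finset.prod_le_prod
  · intro p _
    exact tsum_nonneg fun n => fm_nonneg x _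
  · intro p hp
    exact fm_tsum_le hx hx1 hwx (hP p hp).1 (hP p hp).2

/-- theta -/
noncomputable def th (b j : ℕ) : ℝ := (1 / 16) ^ (b + j)

theorem th_nonneg (b j : ℕ) : 0 ≤ th b j := by unfold th; positivity

theorem g_le (b j k : ℕ) :
    (if k = 0 then (1 : ℝ) else if k ≤ 2 * (b + j) then 0 else (2 : ℝ) ^ k) ≤
      if k = 0 then 1 else th b j * 8 ^ k := by
  split_ifs with h1 h2
  · exact le_refl _
  · have := th_nonneg b j; positivity
  · push Not at h2
    have h3 : (16 : ℝ) ^ (b + j) ≤ 4 ^ k := by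
      have : (16 : ℝ) ^ (b + j) = 4 ^ (2 * (b + j)) := by
        rw [pow_mul]; norm_num
      rw [this]
      exact pow_le_pow_right₀ (by norm_num) h2.le
    have h4 : (8 : ℝ) ^ k = 2 ^ k * 4 ^ k := by
      rw [← mul_pow]; norm_num
    unfold th
    rw [h4, one_div, inv_pow]
    have h5 : (0 : ℝ) < 16 ^ (b + j) := by positivity
    have h6 : 1 ≤ ((16 : ℝ) ^ (b + j))⁻¹ * 4 ^ k := by
      rw [inv_mul_eq_div, le_div_iff₀ h5]
      (clear * - h3; linarith)
    have h7 : (0 : ℝ) < 2 ^ k := by positivity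
    (clear * - h6 h7; nlinarith)

theorem blocks_cover {w : ℝ} (hw : 2 ≤ w) {n : ℕ} (hn : smooth w n) :
    n.primeFactors ⊆ (range (Helper44.nb w)).biUnion (Helper96.CPAP.pb Nat.Prime w) := by
  intro p hp
  have hpp := Nat.prime_of_mem_primeFactors hp
  have hpd := Nat.dvd_of_mem_primeFactors hp
  have h1 : p ∈ Helper96.CPAP.pU Nat.Prime w :=
    (Helper96.CPAP.mem_pU (fun q hq => hq) (by (clear * - hw; linarith))).mpr ⟨hpp, hn p hpp hpd⟩
  rw [← Helper96.CPAP.biUnion_pb (fun q hq => hq) hw, Finset.mem_biUnion] at h1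
  obtain ⟨j, _, hj⟩ := h1
  exact Finset.mem_biUnion.mpr ⟨j, Finset.mem_range.mpr j.2, hj⟩

theorem card_primeFactors {w : ℝ} (hw : 2 ≤ w) {n : ℕ} (hn : smooth w n) :
    n.primeFactors.card = ∑ j ∈ range (Helper44.nb w), omB w j n := by
  classical
  unfold omB
  rw [← Finset.card_biUnion]
  · congr 1
    ext p
    rw [Finset.mem_biUnion]
    constructor
    · intro hp
      obtain ⟨j, hj, hpj⟩ := Finset.mem_biUnion.mp (blocks_cover hw hn hp)
      exact ⟨j, hj, Finset.mem_inter.mpr ⟨hp, hpj⟩⟩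
    · rintro ⟨j, _, hj⟩
      exact (Finset.mem_inter.mp hj).1
  · intro i _ j _ hij
    exact Finset.disjoint_of_subset_left Finset.inter_subset_right
      (Finset.disjoint_of_subset_right Finset.inter_subset_right
        (Helper96.CPAP.pb_disjoint (by linarith) hij))

open Classical in
/-- blocks met by n -/
noncomputable def Jn (w : ℝ) (n : ℕ) : Finset ℕ :=
  (range (Helper44.nb w)).filter (fun j => omB w j n ≠ 0)

theorem prod_le {b : ℕ} {w : ℝ} (hw : 2 ≤ w) {n : ℕ} (hn : smooth w n) :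
    ∏ j ∈ range (Helper44.nb w),
      (if omB w j n = 0 then 1 else if omB w j n ≤ 2 * (b + j) then 0 else (2 : ℝ) ^ omB w j n) ≤
    (∏ j ∈ Jn w n, th b j) * 8 ^ n.primeFactors.card := by
  classical
  calc ∏ j ∈ range (Helper44.nb w),
      (if omB w j n = 0 then 1 else if omB w j n ≤ 2 * (b + j) then 0 else (2 : ℝ) ^ omB w j n)
      ≤ ∏ j ∈ range (Helper44.nb w), (if omB w j n = 0 then 1 else th b j * 8 ^ omB w j n) := by
        apply Finset.prod_le_prod
        · intro j _; split_ifs <;> positivity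
        · intro j _; exact g_le b j _
    _ = ∏ j ∈ range (Helper44.nb w), ((if omB w j n ≠ 0 then th b j else 1) * 8 ^ omB w j n) := by
        apply Finset.prod_congr rfl
        intro j _
        by_cases h : omB w j n = 0
        · simp [h]
        · simp [h]
    _ = (∏ j ∈ Jn w n, th b j) * 8 ^ n.primeFactors.card := by
        rw [Finset.prod_mul_distrib, card_primeFactors hw hn, Finset.prod_pow_eq_pow_sum]
        unfold Jn
        rw [Finset.prod_filter]

theorem Jn_ne_empty {w : ℝ} (hw : 2 ≤ w) {n : ℕ} (h1 : 1 < n) (hn : smooth w n) :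
    Jn w n ≠ ∅ := by
  classical
  obtain ⟨p, hp, hpn⟩ := Nat.exists_prime_and_dvd h1.ne'
  have h2 : p ∈ n.primeFactors := Nat.mem_primeFactors.mpr ⟨hp, hpn, by omega⟩
  obtain ⟨j, hj, hpj⟩ := Finset.mem_biUnion.mp (blocks_cover hw hn h2)
  have h3 : j ∈ Jn w n := by
    unfold Jn
    rw [Finset.mem_filter]
    refine ⟨hj, ?_⟩
    unfold omB
    rw [Finset.card_ne_zero]
    exact ⟨p, Finset.mem_inter.mpr ⟨h2, hpj⟩⟩
  intro h4
  rw [h4] at h3
  simp at h3

theorem prod_pb_le {S0 : ℝ} (hS : ∀ w : ℝ, 2 ≤ w → ∀ j : ℕ,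
    ∑ q ∈ Helper96.CPAP.pb Nat.Prime w j, (1 : ℝ) / q ≤ S0) {w : ℝ} (hw : 2 ≤ w) (j : ℕ) :
    ∏ p ∈ Helper96.CPAP.pb Nat.Prime w j, (1 + 20 / (p : ℝ)) ≤ Real.exp (20 * S0) := by
  calc ∏ p ∈ Helper96.CPAP.pb Nat.Prime w j, (1 + 20 / (p : ℝ))
      ≤ ∏ p ∈ Helper96.CPAP.pb Nat.Prime w j, Real.exp (20 * (1 / (p : ℝ))) := by
        apply Finset.prod_le_prod
        · intro p _; (clear * -; positivity)
        · intro p _
          have := Real.add_one_le_exp (20 * (1 / (p : ℝ)))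
          rw [show 20 / (p : ℝ) = 20 * (1 / (p : ℝ)) by ring]
          (clear * - this; linarith)
    _ = Real.exp (∑ p ∈ Helper96.CPAP.pb Nat.Prime w j, 20 * (1 / (p : ℝ))) := by
        rw [Real.exp_sum]
    _ ≤ Real.exp (20 * S0) := by
        rw [← Finset.mul_sum]
        apply Real.exp_le_exp.mpr
        have := hS w hw j
        (clear * - this; linarith)

theorem sum_th_le (b N : ℕ) : ∑ j ∈ range N, th b j ≤ 2 * (1 / 16) ^ b := by
  unfold th
  have h1 : ∑ j ∈ range N, ((1 : ℝ) / 16) ^ (b + j) = (1 / 16) ^ b * ∑ j ∈ range N, (1 / 16 : ℝ) ^ j := by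
    rw [Finset.mul_sum]
    apply Finset.sum_congr rfl
    intro j _
    rw [pow_add]
  rw [h1]
  have h2 : ∑ j ∈ range N, (1 / 16 : ℝ) ^ j ≤ 2 := by
    have h3 := (summable_geometric_of_lt_one (r := (1 / 16 : ℝ)) (by norm_num) (by norm_num))
    refine (h3.sum_le_tsum (range N) (fun i _ => by positivity)).trans ?_
    rw [tsum_geometric_of_lt_one (by norm_num) (by norm_num)]
    norm_num
  have h3 : (0 : ℝ) < (1 / 16) ^ b := by positivity
  (clear * - h2 h3; nlinarith)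

theorem lamSmall (h : LamBasic) : LamSmall := by
  classical
  obtain ⟨S0, hS0, hS1⟩ := Helper96.CPAP.sum_inv_pb_le
  have hS : ∀ w : ℝ, 2 ≤ w → ∀ j : ℕ,
      ∑ q ∈ Helper96.CPAP.pb Nat.Prime w j, (1 : ℝ) / q ≤ S0 :=
    fun w hw j => hS1 Nat.Prime (fun q hq => hq) w hw j
  set E : ℝ := Real.exp (20 * S0) with hE
  have hE0 : 0 < E := Real.exp_pos _
  obtain ⟨b0, hb0⟩ := exists_pow_lt_of_lt_one (x := 1 / (20 * E)) (by positivity)
    (show (1 / 16 : ℝ) < 1 by norm_num)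
  refine ⟨b0, ?_⟩
  intro b hb w hw x hx hwx S hS'
  have hb1 : (1 / 16 : ℝ) ^ b < 1 / (20 * E) :=
    lt_of_le_of_lt (pow_le_pow_of_le_one (by norm_num) (by norm_num) hb) hb0
  obtain ⟨_, _, _, _, hbet⟩ := h b w hw
  -- termwise bound
  have hterm : ∀ n ∈ S, bet (lamE b w) n * (n : ℝ) ^ (x - 1) ≤ (∏ j ∈ Jn w n, th b j) * fm x n := by
    intro n hn
    obtain ⟨h1, h2⟩ := hS' n hn
    have h3 := (hbet n (by omega)).trans (prod_le (b := b) hw h2)
    unfold fm
    rw [← mul_assoc]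
    exact mul_le_mul_of_nonneg_right h3 (Real.rpow_nonneg (Nat.cast_nonneg _) _)
  refine (Finset.sum_le_sum hterm).trans ?_
  set R := range (Helper44.nb w) with hR
  have hmaps : ∀ n ∈ S, Jn w n ∈ R.powerset.erase ∅ := by
    intro n hn
    obtain ⟨h1, h2⟩ := hS' n hn
    rw [Finset.mem_erase, Finset.mem_powerset]
    exact ⟨Jn_ne_empty hw h1 h2, Finset.filter_subset _ _⟩
  rw [← Finset.sum_fiberwise_of_maps_to hmaps]
  have hJ : ∀ J ∈ R.powerset.erase ∅,
      ∑ n ∈ S with Jn w n = J, (∏ j ∈ Jn w n, th b j) * fm x n ≤ ∏ j ∈ J, (th b j * E) := by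
    intro J hJ
    have h1 : ∑ n ∈ S with Jn w n = J, (∏ j ∈ Jn w n, th b j) * fm x n =
        (∏ j ∈ J, th b j) * ∑ n ∈ S with Jn w n = J, fm x n := by
      rw [Finset.mul_sum]
      apply Finset.sum_congr rfl
      intro n hn
      rw [(Finset.mem_filter.mp hn).2]
    rw [h1, Finset.prod_mul_distrib]
    apply mul_le_mul_of_nonneg_left _ (Finset.prod_nonneg fun j _ => th_nonneg b j)
    have h2 : ∑ n ∈ S with Jn w n = J, fm x n ≤
        ∏ p ∈ J.biUnion (Helper96.CPAP.pb Nat.Prime w), (1 + 20 / (p : ℝ)) := by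
      apply euler_le hw hx hwx
      · intro p hp
        obtain ⟨j, hj, hpj⟩ := Finset.mem_biUnion.mp hp
        have hjR : j ∈ R := (Finset.mem_powerset.mp (Finset.mem_of_mem_erase hJ)) hj
        have h3 : p ∈ Helper96.CPAP.pU Nat.Prime w := by
          rw [← Helper96.CPAP.biUnion_pb (fun q hq => hq) hw, Finset.mem_biUnion]
          exact ⟨⟨j, Finset.mem_range.mp hjR⟩, Finset.mem_univ _, hpj⟩
        exact (Helper96.CPAP.mem_pU (fun q hq => hq) (by (clear * - hw; linarith))).mp h3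
      · intro n hn
        obtain ⟨hnS, hnJ⟩ := Finset.mem_filter.mp hn
        obtain ⟨h1, h2⟩ := hS' n hnS
        refine ⟨by omega, ?_⟩
        intro p hp
        obtain ⟨j, hj, hpj⟩ := Finset.mem_biUnion.mp (blocks_cover hw h2 hp)
        refine Finset.mem_biUnion.mpr ⟨j, ?_, hpj⟩
        rw [← hnJ]
        unfold Jn
        rw [Finset.mem_filter]
        refine ⟨hj, ?_⟩
        unfold omB
        rw [Finset.card_ne_zero]
        exact ⟨p, Finset.mem_inter.mpr ⟨hp, hpj⟩⟩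
    refine h2.trans ?_
    rw [Finset.prod_biUnion]
    · apply Finset.prod_le_prod
      · intro j _; exact Finset.prod_nonneg fun p _ => by (clear * -; positivity)
      · intro j _; exact prod_pb_le hS hw j
    · intro i _ j _ hij
      exact Helper96.CPAP.pb_disjoint (by (clear * - hw; linarith)) hij
  refine (Finset.sum_le_sum hJ).trans ?_
  have hall : ∑ J ∈ R.powerset.erase ∅, ∏ j ∈ J, (th b j * E) = ∏ j ∈ R, (1 + th b j * E) - 1 := by
    rw [Finset.prod_one_add, ← Finset.sum_erase_add _ _ (Finset.empty_mem_powerset R)]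
    simp
  rw [hall]
  have h5 : ∏ j ∈ R, (1 + th b j * E) ≤ Real.exp (∑ j ∈ R, th b j * E) := by
    rw [Real.exp_sum]
    apply Finset.prod_le_prod
    · intro j _; have := th_nonneg b j; (clear * - this; positivity)
    · intro j _
      have := Real.add_one_le_exp (th b j * E)
      (clear * - this; linarith)
  have h6 : ∑ j ∈ R, th b j * E ≤ 1 / 10 := by
    rw [← Finset.sum_mul]
    have h7 := sum_th_le b (Helper44.nb w)
    have h8 : (∑ j ∈ R, th b j) * E ≤ (2 * (1 / (20 * E))) * E := by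
      apply mul_le_mul_of_nonneg_right _ hE0.le
      (clear * - hb1 h7; linarith)
    refine h8.trans (le_of_eq ?_)
    field_simp
    norm_num
  have h7 : Real.exp (∑ j ∈ R, th b j * E) ≤ 9 / 8 := by
    refine (Real.exp_le_exp.mpr h6).trans ?_
    have h8 := Real.exp_bound' (x := 1 / 10) (by norm_num) (by norm_num) (n := 3) (by norm_num)
    simp [Finset.sum_range_succ] at h8
    norm_num at h8 ⊢
    (clear * - h8; linarith)
  (clear * - h5 h7; linarith)

end Pool.Agent.M17.Helper26.KSZ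
end

/- Helper53.KN.Helper36.KSZ.N3 -/
section
/-!
# Project KSZ, N3: sums over rough integers
-/

set_option autoImplicit false

open Finset

namespace Pool.Agent.M17.Helper36.KSZ

open Pool.Agent.M17.Helper18.KSZ Pool.Agent.M17.Helper44

/-- `k ^ omega(m) / m` -/
noncomputable def fk (k : ℕ) (m : ℕ) : ℝ := (k : ℝ) ^ m.primeFactors.card / m

lemma fk_one (k : ℕ) : fk k 1 = 1 := by simp [fk]

lemma fk_mul (k : ℕ) {m n : ℕ} (h : Nat.Coprime m n) : fk k (m * n) = fk k m * fk k n := by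
  unfold fk
  rw [h.primeFactors_mul, Finset.card_union_of_disjoint h.disjoint_primeFactors, pow_add]
  push_cast
  rw [mul_div_mul_comm]

lemma fk_nonneg (k m : ℕ) : 0 ≤ fk k m := by unfold fk; positivity

lemma fk_prime_pow (k : ℕ) {p : ℕ} (hp : p.Prime) (n : ℕ) :
    fk k (p ^ (n + 1)) = (k : ℝ) * (1 / (p : ℝ)) * (1 / (p : ℝ)) ^ n := by
  unfold fk
  rw [Nat.primeFactors_prime_pow (Nat.succ_ne_zero n) hp]
  simp only [Finset.card_singleton, pow_one]
  push_cast
  rw [pow_succ, one_div, inv_pow, div_eq_mul_inv, mul_inv]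
  ring

lemma hasSum_fk (k : ℕ) {p : ℕ} (hp : p.Prime) :
    HasSum (fun n : ℕ => fk k (p ^ n)) (1 + (k : ℝ) / ((p : ℝ) - 1)) := by
  have hp1 : (1 : ℝ) < p := by exact_mod_cast hp.one_lt
  have h0 : (0 : ℝ) ≤ 1 / (p : ℝ) := by positivity
  have h1 : 1 / (p : ℝ) < 1 := by rw [div_lt_one (by linarith)]; exact hp1
  have h2 := (hasSum_geometric_of_lt_one h0 h1).mul_left ((k : ℝ) * (1 / (p : ℝ)))
  have h3 : (k : ℝ) * (1 / (p : ℝ)) * (1 - 1 / (p : ℝ))⁻¹ = (k : ℝ) / ((p : ℝ) - 1) := by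
    have hp0 : (p : ℝ) ≠ 0 := by positivity
    have hp2 : (p : ℝ) - 1 ≠ 0 := by linarith
    field_simp
  rw [h3] at h2
  have hg : HasSum (fun n : ℕ => fk k (p ^ (n + 1))) ((k : ℝ) / ((p : ℝ) - 1)) := by
    have : (fun n : ℕ => fk k (p ^ (n + 1))) =
        fun n : ℕ => (k : ℝ) * (1 / (p : ℝ)) * (1 / (p : ℝ)) ^ n := by
      funext n; exact fk_prime_pow k hp n
    rw [this]; exact h2
  have h4 := (hasSum_nat_add_iff (f := fun n => fk k (p ^ n)) 1).mp hg
  simp only [Finset.range_one, Finset.sum_singleton, pow_zero, fk_one] at h4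
  rwa [add_comm] at h4

/-- Euler product bound for a finite set of integers with prime factors in `s` -/
lemma sum_fk_le (k : ℕ) (s T : Finset ℕ) (hs : ∀ p ∈ s, p.Prime)
    (hT : ∀ m ∈ T, ∀ p : ℕ, p.Prime → p ∣ m → p ∈ s) :
    ∑ m ∈ T, fk k m ≤ ∏ p ∈ s, (1 + (k : ℝ) / ((p : ℝ) - 1)) := by
  have h := (EulerProduct.summable_and_hasSum_factoredNumbers_prod_filter_prime_tsum
    (f := fk k) (fk_one k) (fun h => fk_mul k h)
    (fun {p} hp => by
      have := (hasSum_fk k hp).summable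
      refine this.congr ?_
      intro n
      rw [Real.norm_of_nonneg (fk_nonneg k _)]) s).2
  have hprod : ∏ p ∈ s with Nat.Prime p, ∑' n : ℕ, fk k (p ^ n) =
      ∏ p ∈ s, (1 + (k : ℝ) / ((p : ℝ) - 1)) := by
    rw [Finset.filter_true_of_mem hs]
    exact Finset.prod_congr rfl (fun p hp => (hasSum_fk k (hs p hp)).tsum_eq)
  rw [hprod] at h
  have h' : HasSum ((Nat.factoredNumbers s).indicator (fk k))
      (∏ p ∈ s, (1 + (k : ℝ) / ((p : ℝ) - 1))) := hasSum_subtype_iff_indicator.mp h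
  have h5 := sum_le_hasSum T (fun i _ => Set.indicator_nonneg (fun m _ => fk_nonneg k m) i) h'
  refine le_trans (le_of_eq ?_) h5
  refine Finset.sum_congr rfl (fun m hm => ?_)
  rw [Set.indicator_of_mem (Nat.mem_factoredNumbers'.mpr (hT m hm))]

lemma prod_ratio : ∃ C : ℝ, 0 < C ∧ ∀ w Y : ℝ, 2 ≤ w → w ≤ Y →
    ∏ p ∈ primesUpTo Y \ primesUpTo w, (1 - (1 : ℝ) / p)⁻¹ ≤ C * (Real.log Y / Real.log w) := by
  obtain ⟨c, C, hc, hC, h⟩ := mertens_prod
  refine ⟨C / c, by positivity, ?_⟩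
  intro w Y hw hY
  have hlw : 0 < Real.log w := Real.log_pos (by linarith)
  have hlY : 0 < Real.log Y := Real.log_pos (by linarith)
  have hsub : primesUpTo w ⊆ primesUpTo Y := by
    intro q hq
    rw [mem_primesUpTo (by linarith)] at hq ⊢
    exact ⟨hq.1, le_trans hq.2 hY⟩
  have h1 := (h Y (by linarith)).1
  have h2 := (h w hw).2
  have hpos : ∀ s : Finset ℕ, s ⊆ primesUpTo Y → 0 < ∏ q ∈ s, (1 - (1 : ℝ) / q) := by
    intro s hs
    refine Finset.prod_pos (fun q hq => ?_)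
    have := hs hq
    rw [mem_primesUpTo (by linarith)] at this
    have hq2 : (2 : ℝ) ≤ q := by exact_mod_cast this.1.two_le
    have : (1 : ℝ) / q ≤ 1 / 2 := one_div_le_one_div_of_le (by norm_num) hq2
    linarith
  have hmul := Finset.prod_sdiff (f := fun q : ℕ => (1 - (1 : ℝ) / q)) hsub
  have hd := hpos (primesUpTo Y \ primesUpTo w) Finset.sdiff_subset
  have hwp := hpos (primesUpTo w) hsub
  rw [Finset.prod_inv_distrib, inv_le_comm₀ hd (by positivity)]
  -- lower bound for the product over the difference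
  have h3 : c / Real.log Y ≤ (∏ q ∈ primesUpTo Y \ primesUpTo w, (1 - (1 : ℝ) / q)) *
      (C / Real.log w) := by
    calc c / Real.log Y ≤ ∏ q ∈ primesUpTo Y, (1 - (1 : ℝ) / q) := h1
      _ = (∏ q ∈ primesUpTo Y \ primesUpTo w, (1 - (1 : ℝ) / q)) *
          ∏ q ∈ primesUpTo w, (1 - (1 : ℝ) / q) := hmul.symm
      _ ≤ _ := mul_le_mul_of_nonneg_left h2 hd.le
  have h4 : (C / c * (Real.log Y / Real.log w))⁻¹ = (c / Real.log Y) / (C / Real.log w) := by
    field_simp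
  rw [h4, div_le_iff₀ (by positivity)]
  exact h3

theorem roughSums : RoughSums := by
  classical
  obtain ⟨C, hC, hR⟩ := prod_ratio
  have key : ∀ (k : ℕ) (w Y : ℝ), 2 ≤ w → w ≤ Y →
      ∑ m ∈ (Icc 1 ⌊Y⌋₊).filter (rough w), fk k m ≤ (C * (Real.log Y / Real.log w)) ^ k := by
    intro k w Y hw hY
    set s := primesUpTo Y \ primesUpTo w with hs
    have hsp : ∀ p ∈ s, p.Prime := by
      intro p hp
      rw [hs, Finset.mem_sdiff, mem_primesUpTo (by linarith)] at hp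
      exact hp.1.1
    have h1 := sum_fk_le k s ((Icc 1 ⌊Y⌋₊).filter (rough w)) hsp (by
      intro m hm p hp hpm
      rw [Finset.mem_filter, Finset.mem_Icc] at hm
      rw [hs, Finset.mem_sdiff, mem_primesUpTo (by linarith), mem_primesUpTo (by linarith)]
      have hm1 : (m : ℝ) ≤ Y := (Nat.le_floor_iff (by linarith)).mp hm.1.2
      have hpm' : (p : ℝ) ≤ m := by exact_mod_cast Nat.le_of_dvd (by omega) hpm
      exact ⟨⟨hp, by linarith⟩, fun h => absurd h.2 (not_le.mpr (hm.2 p hp hpm))⟩)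
    refine h1.trans ?_
    have h2 : ∏ p ∈ s, (1 + (k : ℝ) / ((p : ℝ) - 1)) ≤ ∏ p ∈ s, ((1 - (1 : ℝ) / p)⁻¹) ^ k := by
      refine Finset.prod_le_prod (fun p hp => ?_) (fun p hp => ?_)
      · have : (2 : ℝ) ≤ p := by exact_mod_cast (hsp p hp).two_le
        have : 0 < (p : ℝ) - 1 := by linarith
        positivity
      · have hp2 : (2 : ℝ) ≤ p := by exact_mod_cast (hsp p hp).two_le
        have hp1 : 0 < (p : ℝ) - 1 := by linarith
        have hp0 : (p : ℝ) ≠ 0 := by positivity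
        have h3 : (1 - (1 : ℝ) / p)⁻¹ = 1 + 1 / ((p : ℝ) - 1) := by
          have : (p : ℝ) - 1 ≠ 0 := hp1.ne'
          field_simp
          ring
        rw [h3]
        have h4 := one_add_mul_le_pow (a := 1 / ((p : ℝ) - 1))
          (le_trans (by norm_num) (by positivity : (0 : ℝ) ≤ 1 / ((p : ℝ) - 1))) k
        rw [mul_one_div] at h4
        exact h4
    refine h2.trans ?_
    rw [Finset.prod_pow]
    refine pow_le_pow_left₀ ?_ (hR w Y hw hY) k
    refine Finset.prod_nonneg (fun p hp => ?_)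
    have hp2 : (2 : ℝ) ≤ p := by exact_mod_cast (hsp p hp).two_le
    have : (1 : ℝ) / p ≤ 1 / 2 := one_div_le_one_div_of_le (by norm_num) hp2
    exact inv_nonneg.mpr (by linarith)
  refine ⟨max C (C ^ 4), lt_max_of_lt_left hC, ?_⟩
  intro w Y hw hY
  have hlw : 0 < Real.log w := Real.log_pos (by linarith)
  have hlY : 0 < Real.log Y := Real.log_pos (by linarith)
  constructor
  · have h := key 1 w Y hw hY
    rw [pow_one] at h
    have h5 : ∑ m ∈ (Icc 1 ⌊Y⌋₊).filter (rough w), 1 / (m : ℝ) =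
        ∑ m ∈ (Icc 1 ⌊Y⌋₊).filter (rough w), fk 1 m := by
      refine Finset.sum_congr rfl (fun m _ => ?_)
      simp [fk]
    rw [h5]
    exact h.trans (mul_le_mul_of_nonneg_right (le_max_left _ _) (by positivity))
  · have h := key 4 w Y hw hY
    rw [mul_pow] at h
    have h5 : ∑ m ∈ (Icc 1 ⌊Y⌋₊).filter (rough w), 4 ^ m.primeFactors.card / (m : ℝ) =
        ∑ m ∈ (Icc 1 ⌊Y⌋₊).filter (rough w), fk 4 m := by
      refine Finset.sum_congr rfl (fun m _ => ?_)
      simp [fk]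
    rw [h5]
    exact h.trans (mul_le_mul_of_nonneg_right (le_max_right _ _) (by positivity))

end Pool.Agent.M17.Helper36.KSZ
end

/- Helper53.KN.Helper44.Smooth -/
section
/-!
# Smooth and rough parts
-/

set_option autoImplicit false

open Finset

namespace Pool.Agent.M17.Helper44

/-- The part of `N` composed of primes `≤ y`. -/
noncomputable def sm (y N : ℕ) : ℕ := (N.factorization.filter (fun q => q ≤ y)).prod (fun q e => q ^ e)

/-- The part of `N` composed of primes `> y`. -/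
noncomputable def ro (y N : ℕ) : ℕ := (N.factorization.filter (fun q => ¬ q ≤ y)).prod (fun q e => q ^ e)

theorem factorization_sm (y N : ℕ) :
    (sm y N).factorization = N.factorization.filter (fun q => q ≤ y) := by
  unfold sm
  apply Nat.prod_pow_factorization_eq_self
  intro q hq
  rw [Finsupp.support_filter, Finset.mem_filter] at hq
  exact Nat.prime_of_mem_primeFactors (by simpa using hq.1)

theorem factorization_ro (y N : ℕ) :
    (ro y N).factorization = N.factorization.filter (fun q => ¬ q ≤ y) := by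
  unfold ro
  apply Nat.prod_pow_factorization_eq_self
  intro q hq
  rw [Finsupp.support_filter, Finset.mem_filter] at hq
  exact Nat.prime_of_mem_primeFactors (by simpa using hq.1)

theorem sm_pos (y N : ℕ) : 0 < sm y N := by
  unfold sm
  apply Nat.pos_of_ne_zero
  rw [Finsupp.prod, Finset.prod_ne_zero_iff]
  intro q hq
  rw [Finsupp.support_filter, Finset.mem_filter] at hq
  have : q.Prime := Nat.prime_of_mem_primeFactors (by simpa using hq.1)
  exact pow_ne_zero _ this.ne_zero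

theorem ro_pos (y N : ℕ) : 0 < ro y N := by
  unfold ro
  apply Nat.pos_of_ne_zero
  rw [Finsupp.prod, Finset.prod_ne_zero_iff]
  intro q hq
  rw [Finsupp.support_filter, Finset.mem_filter] at hq
  have : q.Prime := Nat.prime_of_mem_primeFactors (by simpa using hq.1)
  exact pow_ne_zero _ this.ne_zero

theorem sm_mul_ro {y N : ℕ} (hN : N ≠ 0) : sm y N * ro y N = N := by
  apply Nat.eq_of_factorization_eq (mul_ne_zero (sm_pos y N).ne' (ro_pos y N).ne') hN
  intro q
  rw [Nat.factorization_mul (sm_pos y N).ne' (ro_pos y N).ne', factorization_sm, factorization_ro,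
    Finsupp.add_apply, Finsupp.filter_apply, Finsupp.filter_apply]
  by_cases h : q ≤ y <;> simp [h]

theorem sm_mul {y a b : ℕ} (ha : a ≠ 0) (hb : b ≠ 0) : sm y (a * b) = sm y a * sm y b := by
  apply Nat.eq_of_factorization_eq (sm_pos _ _).ne' (mul_ne_zero (sm_pos _ _).ne' (sm_pos _ _).ne')
  intro q
  rw [Nat.factorization_mul (sm_pos y a).ne' (sm_pos y b).ne', factorization_sm, factorization_sm,
    factorization_sm, Nat.factorization_mul ha hb, Finsupp.filter_add]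

theorem prime_dvd_sm {y N q : ℕ} (hq : q.Prime) (h : q ∣ sm y N) : q ≤ y ∧ q ∣ N := by
  have h1 : (sm y N).factorization q ≠ 0 := by
    rw [← Nat.pos_iff_ne_zero]
    exact hq.factorization_pos_of_dvd (sm_pos y N).ne' h
  rw [factorization_sm, Finsupp.filter_apply] at h1
  split_ifs at h1 with hqy
  · exact ⟨hqy, Nat.dvd_of_factorization_pos h1⟩
  · exact absurd rfl h1

theorem prime_dvd_ro {y N q : ℕ} (hq : q.Prime) (h : q ∣ ro y N) : y < q ∧ q ∣ N := by
  have h1 : (ro y N).factorization q ≠ 0 := by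
    rw [← Nat.pos_iff_ne_zero]
    exact hq.factorization_pos_of_dvd (ro_pos y N).ne' h
  rw [factorization_ro, Finsupp.filter_apply] at h1
  by_cases hqy : q ≤ y
  · rw [if_neg (by simpa using hqy)] at h1
    exact absurd rfl h1
  · rw [if_pos hqy] at h1
    exact ⟨by omega, Nat.dvd_of_factorization_pos h1⟩

/-- Uniqueness of the decomposition into smooth and rough parts. -/
theorem sm_unique {y M R : ℕ} (hM : M ≠ 0) (hR : R ≠ 0)
    (h1 : ∀ q : ℕ, q.Prime → q ∣ M → q ≤ y) (h2 : ∀ q : ℕ, q.Prime → q ∣ R → y < q) :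
    M = sm y (M * R) := by
  rw [sm_mul hM hR]
  have e1 : sm y M = M := by
    apply Nat.eq_of_factorization_eq (sm_pos _ _).ne' hM
    intro q
    rw [factorization_sm, Finsupp.filter_apply]
    split_ifs with hq
    · rfl
    · symm
      by_contra hne
      have hq' : q.Prime := by
        by_contra hnp
        exact hne (Nat.factorization_eq_zero_of_not_prime _ hnp)
      exact hq (h1 q hq' (Nat.dvd_of_factorization_pos hne))
  have e2 : sm y R = 1 := by
    by_contra hne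
    obtain ⟨q, hq, hqd⟩ := Nat.exists_prime_and_dvd hne
    have h3 := prime_dvd_sm hq hqd
    have h4 := h2 q hq h3.2
    omega
  rw [e1, e2, mul_one]

end Pool.Agent.M17.Helper44
end

/- Helper53.KN.Helper36.KSZ.N2 -/
section
/-!
# Project KSZ, N2: coefficients of the mollified zeta function
-/

set_option autoImplicit false

open Finset

namespace Pool.Agent.M17.Helper36.KSZ

open Pool.Agent.M17.Helper18.KSZ Pool.Agent.M17.Helper44

section basic

variable {w : ℝ}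

lemma smooth_iff (hw : 0 ≤ w) {n : ℕ} : smooth w n ↔ ∀ p : ℕ, p.Prime → p ∣ n → p ≤ ⌊w⌋₊ := by
  unfold smooth
  constructor
  · intro h p hp hpn; exact (Nat.le_floor_iff hw).mpr (h p hp hpn)
  · intro h p hp hpn; exact (Nat.le_floor_iff hw).mp (h p hp hpn)

lemma rough_iff (hw : 0 ≤ w) {n : ℕ} : rough w n ↔ ∀ p : ℕ, p.Prime → p ∣ n → ⌊w⌋₊ < p := by
  unfold rough
  constructor
  · intro h p hp hpn; exact (Nat.floor_lt hw).mpr (h p hp hpn)
  · intro h p hp hpn; exact (Nat.floor_lt hw).mp (h p hp hpn)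

lemma smooth_sm (hw : 0 ≤ w) (n : ℕ) : smooth w (sm ⌊w⌋₊ n) := by
  rw [smooth_iff hw]
  intro p hp h
  exact (prime_dvd_sm hp h).1

lemma rough_ro (hw : 0 ≤ w) (n : ℕ) : rough w (ro ⌊w⌋₊ n) := by
  rw [rough_iff hw]
  intro p hp h
  exact (prime_dvd_ro hp h).1

lemma coprime_sr {a m : ℕ} (ha : smooth w a) (hm : rough w m) : Nat.Coprime a m := by
  refine Nat.coprime_of_dvd (fun p hp h1 h2 => ?_)
  exact absurd (ha p hp h1) (not_le.mpr (hm p hp h2))

lemma sm_eq (hw : 0 ≤ w) {a m : ℕ} (ha0 : a ≠ 0) (hm0 : m ≠ 0) (ha : smooth w a) (hm : rough w m) :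
    sm ⌊w⌋₊ (a * m) = a ∧ ro ⌊w⌋₊ (a * m) = m := by
  have h1 := sm_unique ha0 hm0 ((smooth_iff hw).mp ha) ((rough_iff hw).mp hm)
  have h2 : sm ⌊w⌋₊ (a * m) * ro ⌊w⌋₊ (a * m) = a * m := sm_mul_ro (mul_ne_zero ha0 hm0)
  refine ⟨h1.symm, ?_⟩
  rw [← h1] at h2
  exact Nat.eq_of_mul_eq_mul_left (Nat.pos_of_ne_zero ha0) h2

lemma rough_of_dvd {a b : ℕ} (hb : rough w b) (h : a ∣ b) : rough w a :=
  fun p hp hpa => hb p hp (hpa.trans h)

end basic

section coef

variable {K C w : ℝ} {lam : ℕ → ℝ}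

lemma mur_ne {D : ℝ} {d : ℕ} (h : mur w D d ≠ 0) : rough w d ∧ (d : ℝ) ≤ D := by
  unfold mur at h
  split_ifs at h with h1
  · exact h1
  · exact absurd rfl h

lemma abs_mur_le (D : ℝ) (d : ℕ) : |mur w D d| ≤ 1 := by
  unfold mur
  split_ifs with h1
  · have := @ArithmeticFunction.abs_moebius_le_one d
    exact_mod_cast this
  · simp

/-- the convolution has one term only -/
lemma cc_eq (hw : 0 ≤ w) (hS : SW K C w lam) (D : ℝ) {d : ℕ} (hd : d ≠ 0) :
    cc lam w D d = lam (sm ⌊w⌋₊ d) * mur w D (ro ⌊w⌋₊ d) := by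
  unfold cc
  rw [Finset.sum_eq_single (sm ⌊w⌋₊ d, ro ⌊w⌋₊ d)]
  · rintro ⟨a, m⟩ hx hne
    rw [Nat.mem_divisorsAntidiagonal] at hx
    by_contra hcon
    have h1 : lam a ≠ 0 := left_ne_zero_of_mul hcon
    have h2 : mur w D m ≠ 0 := right_ne_zero_of_mul hcon
    have ha := (hS.supp a h1).2.1
    have hm := (mur_ne h2).1
    have ha0 : a ≠ 0 := by rintro rfl; exact hx.2 (by rw [← hx.1]; simp)
    have hm0 : m ≠ 0 := by rintro rfl; exact hx.2 (by rw [← hx.1]; simp)
    obtain ⟨e1, e2⟩ := sm_eq hw ha0 hm0 ha hm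
    have hx1 : a * m = d := hx.1
    rw [hx1] at e1 e2
    exact hne (by rw [e1, e2])
  · intro h
    exact absurd (Nat.mem_divisorsAntidiagonal.mpr ⟨sm_mul_ro hd, hd⟩) h

lemma bet_mul (hS : SW K C w lam) {a m : ℕ} (ha : 0 < a) (hm : 0 < m) (hr : rough w m) :
    bet lam (a * m) = bet lam a := by
  unfold bet
  symm
  refine Finset.sum_subset (Nat.divisors_subset_of_dvd (by positivity) (Dvd.intro _ rfl)) ?_
  intro d hd hda
  by_contra hne
  have hs := (hS.supp d hne).2.1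
  have hcop := coprime_sr hs hr
  rw [Nat.mem_divisors] at hd
  exact hda (Nat.mem_divisors.mpr ⟨hcop.dvd_of_dvd_mul_right hd.1, ha.ne'⟩)

lemma alp_mul {D : ℝ} {a m : ℕ} (ha : 0 < a) (hm : 0 < m) (hs : smooth w a) :
    alp w D (a * m) = alp w D m := by
  unfold alp
  symm
  refine Finset.sum_subset (Nat.divisors_subset_of_dvd (by positivity) (Dvd.intro_left _ rfl)) ?_
  intro d hd hda
  by_contra hne
  have hr := (mur_ne hne).1
  have hcop := (coprime_sr hs hr).symm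
  rw [Nat.mem_divisors] at hd
  exact hda (Nat.mem_divisors.mpr ⟨hcop.dvd_of_dvd_mul_left hd.1, hm.ne'⟩)

lemma sum_moebius_divisors {m : ℕ} (hm : m ≠ 0) :
    ∑ d ∈ m.divisors, (ArithmeticFunction.moebius d : ℝ) = if m = 1 then 1 else 0 := by
  have h : ((ArithmeticFunction.moebius : ArithmeticFunction ℤ) *
      (ArithmeticFunction.zeta : ArithmeticFunction ℤ)) m = (1 : ArithmeticFunction ℤ) m := by
    rw [ArithmeticFunction.moebius_mul_coe_zeta]
  rw [ArithmeticFunction.coe_mul_zeta_apply, ArithmeticFunction.one_apply] at h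
  have h2 : ((∑ d ∈ m.divisors, ArithmeticFunction.moebius d : ℤ) : ℝ) =
      (((if m = 1 then 1 else 0 : ℤ)) : ℝ) := by rw [h]
  push_cast at h2
  exact h2

lemma alp_small {D : ℝ} (hw : 0 ≤ w) {n : ℕ} (hn : 0 < n) (hD : (n : ℝ) ≤ D) :
    alp w D n = if ro ⌊w⌋₊ n = 1 then 1 else 0 := by
  have hdec : sm ⌊w⌋₊ n * ro ⌊w⌋₊ n = n := sm_mul_ro hn.ne'
  have h1 : alp w D n = alp w D (ro ⌊w⌋₊ n) := by
    conv_lhs => rw [← hdec]
    exact alp_mul (sm_pos _ _) (ro_pos _ _) (smooth_sm hw n)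
  rw [h1, ← sum_moebius_divisors (ro_pos _ _).ne']
  unfold alp
  refine Finset.sum_congr rfl (fun d hd => ?_)
  rw [Nat.mem_divisors] at hd
  unfold mur
  rw [if_pos]
  refine ⟨rough_of_dvd (rough_ro hw n) hd.1, le_trans ?_ hD⟩
  have : d ∣ n := hd.1.trans ⟨_, by rw [mul_comm]; exact hdec.symm⟩
  exact_mod_cast Nat.le_of_dvd hn this

lemma abs_alp_le {D : ℝ} {m : ℕ} (hm : 0 < m) : |alp w D m| ≤ 2 ^ m.primeFactors.card := by
  classical
  have h1 : |alp w D m| ≤ ∑ d ∈ m.divisors, (if Squarefree d then (1 : ℝ) else 0) := by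
    unfold alp
    refine (Finset.abs_sum_le_sum_abs _ _).trans (Finset.sum_le_sum (fun d _ => ?_))
    split_ifs with h
    · exact abs_mur_le D d
    · unfold mur
      rw [ArithmeticFunction.moebius_eq_zero_of_not_squarefree h]
      simp
  refine h1.trans ?_
  rw [← Finset.sum_filter, Finset.sum_const, nsmul_eq_mul, mul_one]
  have h2 : (m.divisors.filter Squarefree).card ≤ m.primeFactors.powerset.card := by
    refine Finset.card_le_card_of_injOn (fun d => d.primeFactors) ?_ ?_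
    · intro d hd
      rw [Finset.mem_coe, Finset.mem_filter, Nat.mem_divisors] at hd
      exact Finset.mem_coe.mpr (Finset.mem_powerset.mpr (Nat.primeFactors_mono hd.1.1 hm.ne'))
    · intro d hd d' hd' h
      rw [Finset.mem_coe, Finset.mem_filter] at hd hd'
      have e1 := Nat.prod_primeFactors_of_squarefree hd.2
      have e2 := Nat.prod_primeFactors_of_squarefree hd'.2
      have h' : d.primeFactors = d'.primeFactors := h
      rw [← e1, ← e2, h']
  rw [Finset.card_powerset] at h2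
  exact_mod_cast h2

theorem coeffs : Coeffs := by
  classical
  intro K C w lam hw hS D hD
  have hw0 : 0 ≤ w := by linarith
  refine ⟨?_, ?_, ?_, ?_, ?_, ?_⟩
  · rw [cc_eq hw0 hS D one_ne_zero]
    have h1 : smooth w 1 := fun p hp h => absurd (Nat.dvd_one.mp h) hp.one_lt.ne'
    have h2 : rough w 1 := fun p hp h => absurd (Nat.dvd_one.mp h) hp.one_lt.ne'
    obtain ⟨e1, e2⟩ := sm_eq hw0 one_ne_zero one_ne_zero h1 h2
    rw [mul_one] at e1 e2
    rw [e1, e2, hS.one, one_mul]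
    unfold mur
    rw [if_pos ⟨h2, by simpa using hD⟩]
    simp
  · intro d
    rcases eq_or_ne d 0 with rfl | hd
    · simp [cc]
    · rw [cc_eq hw0 hS D hd, abs_mul]
      exact mul_le_one₀ (hS.abs_le _) (abs_nonneg _) (abs_mur_le D _)
  · intro d hne
    have hd : d ≠ 0 := by rintro rfl; exact hne (by simp [cc])
    rw [cc_eq hw0 hS D hd] at hne
    have h1 := hS.supp _ (left_ne_zero_of_mul hne)
    have h2 := mur_ne (right_ne_zero_of_mul hne)
    refine ⟨Nat.pos_of_ne_zero hd, ?_⟩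
    have hdec : sm ⌊w⌋₊ d * ro ⌊w⌋₊ d = d := sm_mul_ro hd
    calc (d : ℝ) = (sm ⌊w⌋₊ d : ℝ) * (ro ⌊w⌋₊ d : ℝ) := by
          rw [← Nat.cast_mul, hdec]
      _ ≤ w ^ K * D := mul_le_mul h1.2.2 h2.2 (Nat.cast_nonneg _) (le_trans (Nat.cast_nonneg _) h1.2.2)
  · intro n hn
    have hL : ∑ d ∈ n.divisors, cc lam w D d =
        ∑ d ∈ n.divisors, lam (sm ⌊w⌋₊ d) * mur w D (ro ⌊w⌋₊ d) := by
      refine Finset.sum_congr rfl (fun d hd => ?_)
      exact cc_eq hw0 hS D (Nat.pos_of_mem_divisors hd).ne'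
    rw [hL]
    have hR : bet lam n * alp w D n =
        ∑ x ∈ (n.divisors ×ˢ n.divisors).filter (fun x => smooth w x.1 ∧ rough w x.2),
          lam x.1 * mur w D x.2 := by
      unfold bet alp
      rw [Finset.sum_mul_sum, ← Finset.sum_product', Finset.sum_filter_of_ne]
      rintro x - hx
      exact ⟨(hS.supp _ (left_ne_zero_of_mul hx)).2.1, (mur_ne (right_ne_zero_of_mul hx)).1⟩
    rw [hR]
    refine Finset.sum_nbij' (fun d => (sm ⌊w⌋₊ d, ro ⌊w⌋₊ d)) (fun x => x.1 * x.2) ?_ ?_ ?_ ?_ ?_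
    · intro d hd
      have hd0 : d ≠ 0 := (Nat.pos_of_mem_divisors hd).ne'
      rw [Nat.mem_divisors] at hd
      have hdec : sm ⌊w⌋₊ d * ro ⌊w⌋₊ d = d := sm_mul_ro hd0
      rw [Finset.mem_filter, Finset.mem_product, Nat.mem_divisors, Nat.mem_divisors]
      refine ⟨⟨⟨(Dvd.intro _ hdec).trans hd.1, hn.ne'⟩, ⟨(Dvd.intro_left _ hdec).trans hd.1, hn.ne'⟩⟩,
        smooth_sm hw0 d, rough_ro hw0 d⟩
    · intro x hx
      rw [Finset.mem_filter, Finset.mem_product, Nat.mem_divisors, Nat.mem_divisors] at hx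
      exact Nat.mem_divisors.mpr
        ⟨(coprime_sr hx.2.1 hx.2.2).mul_dvd_of_dvd_of_dvd hx.1.1.1 hx.1.2.1, hn.ne'⟩
    · intro d hd
      exact sm_mul_ro (Nat.pos_of_mem_divisors hd).ne'
    · intro x hx
      rw [Finset.mem_filter, Finset.mem_product] at hx
      obtain ⟨e1, e2⟩ := sm_eq hw0 (Nat.pos_of_mem_divisors hx.1.1).ne'
        (Nat.pos_of_mem_divisors hx.1.2).ne' hx.2.1 hx.2.2
      exact Prod.ext e1 e2
    · intro d _; rfl
  · intro n hn hnD
    rw [alp_small hw0 hn hnD]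
    have hdec : sm ⌊w⌋₊ n * ro ⌊w⌋₊ n = n := sm_mul_ro hn.ne'
    by_cases h : ro ⌊w⌋₊ n = 1
    · rw [if_pos h, if_pos]
      rw [h, mul_one] at hdec
      rw [← hdec]
      exact smooth_sm hw0 n
    · rw [if_neg h, if_neg]
      intro hs
      obtain ⟨p, hp, hpd⟩ := Nat.exists_prime_and_dvd h
      have h1 := rough_ro hw0 n p hp hpd
      have h2 := hs p hp (hpd.trans (Dvd.intro_left _ hdec))
      linarith
  · intro a m ha hm hs hr
    exact ⟨bet_mul hS ha hm hr, alp_mul ha hm hs, abs_alp_le hm⟩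

end coef

end Pool.Agent.M17.Helper36.KSZ
end

/- Helper53.KN.Helper36.KSZ.N4 -/
section
/-!
# Project KSZ, N4: first factor of the duality argument
-/

set_option autoImplicit false

open Finset

namespace Pool.Agent.M17.Helper36.KSZ

open Pool.Agent.M17.Helper18.KSZ Pool.Agent.M17.Helper44

lemma sum_bet_smooth {K C w : ℝ} {lam : ℕ → ℝ} (hS : SW K C w lam) (A : Finset ℕ)
    (hA : ∀ a ∈ A, 0 < a ∧ smooth w a) : ∑ a ∈ A, bet lam a / (a : ℝ) ≤ 9 / 8 := by
  classical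
  have h1 := hS.small 0 le_rfl (by rw [Real.rpow_zero]; norm_num) (A.erase 1) (by
    intro n hn
    rw [Finset.mem_erase] at hn
    have := hA n hn.2
    exact ⟨by omega, this.2⟩)
  have h2 : ∑ a ∈ A.erase 1, bet lam a / (a : ℝ) ≤ 1 / 8 := by
    refine le_trans (le_of_eq (Finset.sum_congr rfl (fun n _ => ?_))) h1
    rw [zero_sub, Real.rpow_neg_one, div_eq_mul_inv]
  by_cases h : 1 ∈ A
  · rw [← Finset.add_sum_erase A _ h]
    have h3 : bet lam 1 = 1 := by simp [bet, hS.one]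
    rw [h3, Nat.cast_one, div_one]
    linarith
  · rw [← Finset.erase_eq_of_notMem h]
    linarith

theorem firstFactor (h3 : RoughSums) : FirstFactor := by
  classical
  obtain ⟨C3, hC3, hR⟩ := h3
  intro K C _ _
  refine ⟨9 / 8 * C3, by positivity, ?_⟩
  intro w lam hw hS D Y hD hY
  have hw0 : 0 ≤ w := by linarith
  obtain ⟨hR1, hR2⟩ := hR w Y hw hY
  have hlw : 0 < Real.log w := Real.log_pos (by linarith)
  have hlY : 0 < Real.log Y := Real.log_pos (by linarith)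
  -- general inequality
  have key : ∀ (g : ℕ → ℝ) (B : ℝ), (∀ m, 0 ≤ g m) →
      (∀ n, 0 < n → g n = g (ro ⌊w⌋₊ n)) →
      ∑ m ∈ (Icc 1 ⌊Y⌋₊).filter (rough w), g m / (m : ℝ) ≤ B →
      ∑ n ∈ Icc 1 ⌊Y⌋₊, bet lam n * g n / (n : ℝ) ≤ 9 / 8 * B := by
    intro g B hg hgr hB
    set A := (Icc 1 ⌊Y⌋₊).filter (smooth w) with hA
    set M := (Icc 1 ⌊Y⌋₊).filter (rough w) with hM
    let φ : ℕ → ℕ × ℕ := fun n => (sm ⌊w⌋₊ n, ro ⌊w⌋₊ n)
    let F : ℕ × ℕ → ℝ := fun x => bet lam x.1 / (x.1 : ℝ) * (g x.2 / (x.2 : ℝ))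
    have hinj : Set.InjOn φ (Icc 1 ⌊Y⌋₊ : Finset ℕ) := by
      intro n hn n' hn' h
      rw [Finset.mem_coe, Finset.mem_Icc] at hn hn'
      have e1 : sm ⌊w⌋₊ n = sm ⌊w⌋₊ n' := congrArg Prod.fst h
      have e2 : ro ⌊w⌋₊ n = ro ⌊w⌋₊ n' := congrArg Prod.snd h
      rw [← sm_mul_ro (y := ⌊w⌋₊) (show n ≠ 0 by omega),
        ← sm_mul_ro (y := ⌊w⌋₊) (show n' ≠ 0 by omega), e1, e2]
    have hstep : ∑ n ∈ Icc 1 ⌊Y⌋₊, bet lam n * g n / (n : ℝ) =
        ∑ n ∈ Icc 1 ⌊Y⌋₊, F (φ n) := by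
      refine Finset.sum_congr rfl (fun n hn => ?_)
      rw [Finset.mem_Icc] at hn
      have hn0 : n ≠ 0 := by omega
      have hdec : sm ⌊w⌋₊ n * ro ⌊w⌋₊ n = n := sm_mul_ro hn0
      have e1 : bet lam n = bet lam (sm ⌊w⌋₊ n) := by
        conv_lhs => rw [← hdec]
        exact bet_mul hS (sm_pos _ _) (ro_pos _ _) (rough_ro hw0 n)
      have e3 : (n : ℝ) = (sm ⌊w⌋₊ n : ℝ) * (ro ⌊w⌋₊ n : ℝ) := by
        rw [← Nat.cast_mul, hdec]
      change _ = bet lam (sm ⌊w⌋₊ n) / (sm ⌊w⌋₊ n : ℝ) * (g (ro ⌊w⌋₊ n) / (ro ⌊w⌋₊ n : ℝ))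
      rw [e1, hgr n (by omega)]
      conv_lhs => rw [e3]
      rw [mul_div_mul_comm]
    rw [hstep, ← Finset.sum_image (f := F) hinj]
    have hsub : (Icc 1 ⌊Y⌋₊).image φ ⊆ A ×ˢ M := by
      intro x hx
      rw [Finset.mem_image] at hx
      obtain ⟨n, hn, rfl⟩ := hx
      rw [Finset.mem_Icc] at hn
      have hn0 : n ≠ 0 := by omega
      have hdec : sm ⌊w⌋₊ n * ro ⌊w⌋₊ n = n := sm_mul_ro hn0
      have l1 : sm ⌊w⌋₊ n ≤ n := Nat.le_of_dvd (by omega) (Dvd.intro _ hdec)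
      have l2 : ro ⌊w⌋₊ n ≤ n := Nat.le_of_dvd (by omega) (Dvd.intro_left _ hdec)
      rw [Finset.mem_product, hA, hM, Finset.mem_filter, Finset.mem_filter, Finset.mem_Icc,
        Finset.mem_Icc]
      exact ⟨⟨⟨sm_pos _ _, l1.trans hn.2⟩, smooth_sm hw0 n⟩,
        ⟨⟨ro_pos _ _, l2.trans hn.2⟩, rough_ro hw0 n⟩⟩
    have hbn : ∀ x ∈ A ×ˢ M, 0 ≤ F x := by
      intro x hx
      rw [Finset.mem_product, hA, Finset.mem_filter, Finset.mem_Icc] at hx
      exact mul_nonneg (div_nonneg (hS.nonneg _ hx.1.1.1) (Nat.cast_nonneg _))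
        (div_nonneg (hg _) (Nat.cast_nonneg _))
    refine (Finset.sum_le_sum_of_subset_of_nonneg hsub (fun x hx _ => hbn x hx)).trans ?_
    have hprod : ∑ x ∈ A ×ˢ M, F x =
        (∑ a ∈ A, bet lam a / (a : ℝ)) * ∑ m ∈ M, g m / (m : ℝ) := by
      rw [Finset.sum_product, Finset.sum_mul_sum]
    rw [hprod]
    refine mul_le_mul (sum_bet_smooth hS A ?_) hB ?_ (by norm_num)
    · intro a ha
      rw [hA, Finset.mem_filter, Finset.mem_Icc] at ha
      exact ⟨ha.1.1, ha.2⟩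
    · exact Finset.sum_nonneg (fun m _ => div_nonneg (hg m) (Nat.cast_nonneg _))
  constructor
  · have h := key (fun _ => 1) (C3 * (Real.log Y / Real.log w)) (fun _ => zero_le_one)
      (fun _ _ => rfl) hR1
    simp only [mul_one] at h
    linarith
  · have h := key (fun n => alp w D n ^ 2) (C3 * (Real.log Y / Real.log w) ^ 4)
      (fun _ => sq_nonneg _) (by
        intro n hn
        have hdec : sm ⌊w⌋₊ n * ro ⌊w⌋₊ n = n := sm_mul_ro hn.ne'
        have : alp w D n = alp w D (ro ⌊w⌋₊ n) := by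
          conv_lhs => rw [← hdec]
          exact alp_mul (sm_pos _ _) (ro_pos _ _) (smooth_sm hw0 n)
        rw [this]) (by
        refine le_trans (Finset.sum_le_sum (fun m hm => ?_)) hR2
        rw [Finset.mem_filter, Finset.mem_Icc] at hm
        refine div_le_div_of_nonneg_right ?_ (Nat.cast_nonneg _)
        have h1 := abs_alp_le (w := w) (D := D) (show 0 < m by omega)
        have h2 : alp w D m ^ 2 ≤ (2 ^ m.primeFactors.card) ^ 2 := by
          rw [← sq_abs]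
          exact pow_le_pow_left₀ (abs_nonneg _) h1 2
        refine h2.trans (le_of_eq ?_)
        rw [← pow_mul, mul_comm, pow_mul]
        norm_num)
    linarith

end Pool.Agent.M17.Helper36.KSZ
end

/- Helper53.KN.Helper48.KSZ.N7 -/
section
/-!
# KSZ-N7: detection of zeros
-/

set_option autoImplicit false

open Finset

namespace Pool.Agent.M17.Helper48.KSZ

open Pool.Agent.M17.Helper18.KSZ

theorem n7_swap (f : ℕ → ℕ → ℂ) (N : ℕ) :
    ∑ n ∈ Icc 1 N, ∑ d ∈ n.divisors, f d (n / d) =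
      ∑ d ∈ Icc 1 N, ∑ m ∈ Icc 1 (N / d), f d m := by
  rw [Finset.sum_sigma', Finset.sum_sigma']
  refine Finset.sum_nbij' (fun p => ⟨p.2, p.1 / p.2⟩) (fun p => ⟨p.1 * p.2, p.1⟩) ?_ ?_ ?_ ?_ ?_
  · rintro ⟨n, d⟩ h
    simp only [mem_sigma, mem_Icc, Nat.mem_divisors] at h ⊢
    obtain ⟨⟨h1, h2⟩, h3, h4⟩ := h
    have hd : 0 < d := Nat.pos_of_dvd_of_pos h3 h1
    have hdn : d ≤ n := Nat.le_of_dvd h1 h3
    refine ⟨⟨hd, hdn.trans h2⟩, Nat.div_pos hdn hd, Nat.div_le_div_right h2⟩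
  · rintro ⟨d, m⟩ h
    simp only [mem_sigma, mem_Icc, Nat.mem_divisors] at h ⊢
    obtain ⟨⟨h1, h2⟩, h3, h4⟩ := h
    have h5 : d * m ≤ N := by
      calc d * m ≤ d * (N / d) := Nat.mul_le_mul_left d h4
        _ ≤ N := Nat.mul_div_le N d
    have h6 : 0 < d * m := Nat.mul_pos h1 h3
    exact ⟨⟨h6, h5⟩, Dvd.intro m rfl, h6.ne'⟩
  · rintro ⟨n, d⟩ h
    simp only [mem_sigma, mem_Icc, Nat.mem_divisors] at h
    obtain ⟨⟨h1, h2⟩, h3, h4⟩ := h
    simp only
    rw [Nat.mul_div_cancel' h3]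
  · rintro ⟨d, m⟩ h
    simp only [mem_sigma, mem_Icc] at h
    obtain ⟨⟨h1, h2⟩, h3, h4⟩ := h
    simp only
    rw [Nat.mul_div_cancel_left m (by omega)]
  · rintro ⟨n, d⟩ h
    rfl

/-- harmonic type bound -/
theorem n7_harm (N : ℕ) (ε : ℝ) (hε : 0 ≤ ε) (σ : ℝ) (hσ : 1 - ε ≤ σ) (hN : 1 ≤ N) :
    ∑ d ∈ Icc 1 N, (d : ℝ) ^ (-σ) ≤ (N : ℝ) ^ ε * (1 + Real.log N) := by
  have h1 : ∀ d ∈ Icc 1 N, (d : ℝ) ^ (-σ) ≤ (N : ℝ) ^ ε * (d : ℝ)⁻¹ := by
    intro d hd
    rw [mem_Icc] at hd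
    have hd1 : (1 : ℝ) ≤ (d : ℝ) := by exact_mod_cast hd.1
    have hd0 : (0 : ℝ) < (d : ℝ) := by (clear * - hd1; linarith)
    have hdN : (d : ℝ) ≤ (N : ℝ) := by exact_mod_cast hd.2
    calc (d : ℝ) ^ (-σ) ≤ (d : ℝ) ^ (ε + (-1)) :=
          Real.rpow_le_rpow_of_exponent_le hd1 (by linarith)
      _ = (d : ℝ) ^ ε * (d : ℝ)⁻¹ := by
          rw [Real.rpow_add hd0, Real.rpow_neg_one]
      _ ≤ (N : ℝ) ^ ε * (d : ℝ)⁻¹ := by
          apply mul_le_mul_of_nonneg_right
          · exact Real.rpow_le_rpow hd0.le hdN hε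
          · positivity
  calc ∑ d ∈ Icc 1 N, (d : ℝ) ^ (-σ) ≤ ∑ d ∈ Icc 1 N, (N : ℝ) ^ ε * (d : ℝ)⁻¹ :=
        Finset.sum_le_sum h1
    _ = (N : ℝ) ^ ε * ∑ d ∈ Icc 1 N, (d : ℝ)⁻¹ := by rw [Finset.mul_sum]
    _ ≤ (N : ℝ) ^ ε * (1 + Real.log N) := by
        apply mul_le_mul_of_nonneg_left _ (by positivity)
        have := harmonic_le_one_add_log N
        rw [harmonic_eq_sum_Icc] at this
        push_cast at this
        exact this

/-- N7 -/
theorem detect (h2 : Coeffs) (h6 : ZeroSum) : Detect := by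
  intro K C hK hC
  obtain ⟨c, ε6, X6, hc, hε6, hZ⟩ := h6
  have hlim : ∀ᶠ X : ℝ in Filter.atTop,
      X ^ ((6 / 100 : ℝ) * c) * (1 + Real.log X) * X ^ (-c) ≤ 1 / 8 := by
    have h : Filter.Tendsto (fun X : ℝ => (1 + Real.log X) * X ^ (-((94 / 100 : ℝ) * c)))
        Filter.atTop (nhds 0) := by
      have ha : Filter.Tendsto (fun X : ℝ => X ^ (-((94 / 100 : ℝ) * c))) Filter.atTop (nhds 0) :=
        tendsto_rpow_neg_atTop (by (clear * - hc; positivity))
      have hb : Filter.Tendsto (fun X : ℝ => Real.log X * X ^ (-((94 / 100 : ℝ) * c)))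
          Filter.atTop (nhds 0) := by
        have hb1 := (isLittleO_log_rpow_atTop (r := (94 / 100 : ℝ) * c) (by positivity)).tendsto_div_nhds_zero
        refine hb1.congr' ?_
        filter_upwards [Filter.eventually_gt_atTop 0] with X hX
        rw [Real.rpow_neg hX.le, div_eq_mul_inv]
      have := ha.add hb
      rw [add_zero] at this
      refine this.congr (fun X => ?_)
      ring
    have h' := h.eventually (eventually_le_nhds (show (0 : ℝ) < 1 / 8 by norm_num))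
    filter_upwards [h', Filter.eventually_gt_atTop 0] with X hX hX0
    calc X ^ ((6 / 100 : ℝ) * c) * (1 + Real.log X) * X ^ (-c)
        = (1 + Real.log X) * (X ^ ((6 / 100 : ℝ) * c) * X ^ (-c)) := by ring
      _ = (1 + Real.log X) * X ^ (-((94 / 100 : ℝ) * c)) := by
          rw [← Real.rpow_add hX0]; congr 2; ring
      _ ≤ 1 / 8 := hX
  have hlim2 : ∀ᶠ X : ℝ in Filter.atTop, X ^ (1 / 10 : ℝ) + 2 ≤ X ^ (14 / 100 : ℝ) := by
    have h : Filter.Tendsto (fun X : ℝ => X ^ (4 / 100 : ℝ)) Filter.atTop Filter.atTop :=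
      tendsto_rpow_atTop (by norm_num)
    filter_upwards [h.eventually (Filter.eventually_ge_atTop 3),
      Filter.eventually_ge_atTop 1] with X hX hX1
    have hX0 : 0 < X := by linarith
    have h1 : (1 : ℝ) ≤ X ^ (1 / 10 : ℝ) := Real.one_le_rpow hX1 (by norm_num)
    have h3 : X ^ (14 / 100 : ℝ) = X ^ (1 / 10 : ℝ) * X ^ (4 / 100 : ℝ) := by
      rw [← Real.rpow_add hX0]; norm_num
    rw [h3]
    (clear * - hX h1; nlinarith)
  obtain ⟨X1, hX1⟩ := Filter.eventually_atTop.1 hlim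
  obtain ⟨X2, hX2⟩ := Filter.eventually_atTop.1 hlim2
  refine ⟨min ε6 c, max (max X1 X2) (max X6 2), lt_min hε6 hc, ?_⟩
  intro X hX w lam hw hwK hSW ρ hρ0 hρre hwρ him1 him2
  have hXX1 : X1 ≤ X := le_trans (le_trans (le_max_left _ _) (le_max_left _ _)) hX
  have hXX2 : X2 ≤ X := le_trans (le_trans (le_max_right _ _) (le_max_left _ _)) hX
  have hXX6 : X6 ≤ X := le_trans (le_trans (le_max_left _ _) (le_max_right _ _)) hX
  have hX2' : (2 : ℝ) ≤ X := le_trans (le_trans (le_max_right _ _) (le_max_right _ _)) hX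
  have hX0 : (0 : ℝ) < X := by (clear * - hX2'; linarith)
  have hX1' : (1 : ℝ) ≤ X := by (clear * - hX2'; linarith)
  have hb1 := hX1 X hXX1
  have hb2 := hX2 X hXX2
  set D : ℝ := X ^ (1 / 20 : ℝ) with hD
  set Y : ℝ := X ^ (1 / 5 : ℝ) with hY
  have hD1 : (1 : ℝ) ≤ D := Real.one_le_rpow hX1' (by norm_num)
  have hDY : D ≤ Y := Real.rpow_le_rpow_of_exponent_le hX1' (by norm_num)
  have hY1 : (1 : ℝ) ≤ Y := hD1.trans hDY
  obtain ⟨hc1, hcabs, hcsupp, hcsum, hcalp, -⟩ := h2 K C w lam hw hSW D hD1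
  have hre1 : ρ.re < 1 := by
    by_contra hcon
    exact riemannZeta_ne_zero_of_one_le_re (not_lt.1 hcon) hρ0
  set N : ℕ := ⌊Y⌋₊ with hN
  set N0 : ℕ := ⌊D⌋₊ with hN0
  have hN01 : 1 ≤ N0 := Nat.one_le_floor_iff _ |>.2 hD1
  have hN0N : N0 ≤ N := Nat.floor_le_floor hDY
  -- the total sum
  have htot : ∑ n ∈ Icc 1 N, ((bet lam n * alp w D n : ℝ) : ℂ) * (n : ℂ) ^ (-ρ) =
      ∑ d ∈ Icc 1 N, (cc lam w D d : ℂ) * (d : ℂ) ^ (-ρ) *
        ∑ m ∈ Icc 1 (N / d), (m : ℂ) ^ (-ρ) := by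
    have h1 : ∀ n ∈ Icc 1 N, ((bet lam n * alp w D n : ℝ) : ℂ) * (n : ℂ) ^ (-ρ) =
        ∑ d ∈ n.divisors, (fun (a b : ℕ) => (cc lam w D a : ℂ) * (a : ℂ) ^ (-ρ) *
          (b : ℂ) ^ (-ρ)) d (n / d) := by
      intro n hn
      rw [mem_Icc] at hn
      rw [← hcsum n (by omega)]
      push_cast
      rw [Finset.sum_mul]
      refine Finset.sum_congr rfl (fun d hd => ?_)
      have hdn : d ∣ n := Nat.dvd_of_mem_divisors hd
      have : (n : ℂ) = (d : ℂ) * ((n / d : ℕ) : ℂ) := by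
        rw [← Nat.cast_mul, Nat.mul_div_cancel' hdn]
      rw [mul_assoc]
      congr 1
      conv_lhs => rw [this]
      rw [Complex.natCast_mul_natCast_cpow]
    rw [Finset.sum_congr rfl h1, n7_swap (fun (a b : ℕ) => (cc lam w D a : ℂ) * (a : ℂ) ^ (-ρ) *
          (b : ℂ) ^ (-ρ)) N]
    refine Finset.sum_congr rfl (fun d hd => ?_)
    rw [Finset.mul_sum]
  have hbnd : ‖∑ n ∈ Icc 1 N, ((bet lam n * alp w D n : ℝ) : ℂ) * (n : ℂ) ^ (-ρ)‖ ≤ 1 / 8 := by
    rw [htot]
    set Q : ℝ := X ^ (6 / 100 : ℝ) with hQ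
    have hQ1 : (1 : ℝ) ≤ Q := Real.one_le_rpow hX1' (by norm_num)
    have hwKD : w ^ K * D ≤ Q := by
      calc w ^ K * D ≤ X ^ (1 / 100 : ℝ) * X ^ (1 / 20 : ℝ) :=
            mul_le_mul_of_nonneg_right hwK (by positivity)
        _ = Q := by rw [← Real.rpow_add hX0]; norm_num [hQ]
    have hterm : ∀ d ∈ Icc 1 N, ‖(cc lam w D d : ℂ) * (d : ℂ) ^ (-ρ) *
        ∑ m ∈ Icc 1 (N / d), (m : ℂ) ^ (-ρ)‖ ≤
        if d ≤ ⌊Q⌋₊ then (d : ℝ) ^ (-ρ.re) * X ^ (-c) else 0 := by
      intro d hd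
      rw [mem_Icc] at hd
      by_cases hcd : cc lam w D d = 0
      · rw [hcd]
        simp only [Complex.ofReal_zero, zero_mul, norm_zero]
        split_ifs
        · (clear * - hX2'; positivity)
        · exact le_rfl
      · obtain ⟨hd0, hdle⟩ := hcsupp d hcd
        have hdQ : (d : ℝ) ≤ Q := hdle.trans hwKD
        rw [if_pos (Nat.le_floor hdQ)]
        have hd0' : (0 : ℝ) < (d : ℝ) := by exact_mod_cast hd0
        have hdY : (d : ℝ) ≤ Y := hdQ.trans (Real.rpow_le_rpow_of_exponent_le hX1' (by norm_num))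
        have hNd : X ^ (1 / 10 : ℝ) ≤ ((N / d : ℕ) : ℝ) := by
          have h1 : Y - 1 < (N : ℝ) := by
            have := Nat.lt_floor_add_one Y
            rw [← hN] at this
            (clear * - this; linarith)
          have h2 : (N : ℝ) < (d : ℝ) * (((N / d : ℕ) : ℝ) + 1) := by
            have := Nat.lt_mul_div_succ N hd0
            exact_mod_cast this
          have h3 : Y = X ^ (14 / 100 : ℝ) * Q := by
            rw [hY, hQ, ← Real.rpow_add hX0]; norm_num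
          have h4 : X ^ (14 / 100 : ℝ) * Q - 1 < Q * (((N / d : ℕ) : ℝ) + 1) := by
            calc X ^ (14 / 100 : ℝ) * Q - 1 = Y - 1 := by rw [h3]
              _ < (N : ℝ) := h1
              _ < (d : ℝ) * (((N / d : ℕ) : ℝ) + 1) := h2
              _ ≤ Q * (((N / d : ℕ) : ℝ) + 1) :=
                  mul_le_mul_of_nonneg_right hdQ (by (clear * -; positivity))
          have hQ0 : 0 < Q := by (clear * - hQ1; linarith)
          have h5 : X ^ (14 / 100 : ℝ) * Q - Q ≤ Q * (((N / d : ℕ) : ℝ) + 1) := by (clear * - hQ1 h4; linarith)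
          have h6' : X ^ (14 / 100 : ℝ) - 1 ≤ (((N / d : ℕ) : ℝ) + 1) := by
            have : Q * (X ^ (14 / 100 : ℝ) - 1) ≤ Q * (((N / d : ℕ) : ℝ) + 1) := by
              calc Q * (X ^ (14 / 100 : ℝ) - 1) = X ^ (14 / 100 : ℝ) * Q - Q := by ring
                _ ≤ _ := h5
            exact le_of_mul_le_mul_left this hQ0
          (clear * - hb2 h6'; linarith)
        have hNX : ((N / d : ℕ) : ℝ) ≤ X := by
          calc ((N / d : ℕ) : ℝ) ≤ (N : ℝ) := by exact_mod_cast Nat.div_le_self N d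
            _ ≤ Y := Nat.floor_le (by positivity)
            _ ≤ X ^ (1 : ℝ) := Real.rpow_le_rpow_of_exponent_le hX1' (by norm_num)
            _ = X := Real.rpow_one X
        have hin := hZ X hXX6 ρ hρ0 (by have := min_le_left ε6 c; (clear * - hρre this; linarith)) him1 him2 (N / d) hNd hNX
        rw [norm_mul, norm_mul, Complex.norm_real, Real.norm_eq_abs]
        have hn : ‖(d : ℂ) ^ (-ρ)‖ = (d : ℝ) ^ (-ρ.re) := by
          rw [Complex.norm_natCast_cpow_of_pos hd0, Complex.neg_re]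
        rw [hn]
        calc |cc lam w D d| * (d : ℝ) ^ (-ρ.re) * ‖∑ m ∈ Icc 1 (N / d), (m : ℂ) ^ (-ρ)‖
            ≤ 1 * (d : ℝ) ^ (-ρ.re) * X ^ (-c) := by
              apply mul_le_mul _ hin (norm_nonneg _) (by (clear * - hd0; positivity))
              exact mul_le_mul_of_nonneg_right (hcabs d) (by (clear * - hd0; positivity))
          _ = _ := by ring
    have hQfl : 1 ≤ ⌊Q⌋₊ := Nat.one_le_floor_iff _ |>.2 hQ1
    calc ‖∑ d ∈ Icc 1 N, (cc lam w D d : ℂ) * (d : ℂ) ^ (-ρ) *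
          ∑ m ∈ Icc 1 (N / d), (m : ℂ) ^ (-ρ)‖
        ≤ ∑ d ∈ Icc 1 N, (if d ≤ ⌊Q⌋₊ then (d : ℝ) ^ (-ρ.re) * X ^ (-c) else 0) :=
          norm_sum_le_of_le _ hterm
      _ = ∑ d ∈ (Icc 1 N).filter (fun d => d ≤ ⌊Q⌋₊), (d : ℝ) ^ (-ρ.re) * X ^ (-c) := by
          rw [Finset.sum_filter]
      _ ≤ ∑ d ∈ Icc 1 ⌊Q⌋₊, (d : ℝ) ^ (-ρ.re) * X ^ (-c) := by
          apply Finset.sum_le_sum_of_subset_of_nonneg
          · intro d hd
            rw [mem_filter, mem_Icc] at hd
            rw [mem_Icc]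
            exact ⟨hd.1.1, hd.2⟩
          · intro d _ _
            (clear * - hX2'; positivity)
      _ = (∑ d ∈ Icc 1 ⌊Q⌋₊, (d : ℝ) ^ (-ρ.re)) * X ^ (-c) := by rw [Finset.sum_mul]
      _ ≤ (((⌊Q⌋₊ : ℕ) : ℝ) ^ c * (1 + Real.log ((⌊Q⌋₊ : ℕ) : ℝ))) * X ^ (-c) := by
          apply mul_le_mul_of_nonneg_right _ (by positivity)
          apply n7_harm _ c hc.le
          · have := min_le_right ε6 c; (clear * - hρre this; linarith)
          · exact hQfl
      _ ≤ (X ^ ((6 / 100 : ℝ) * c) * (1 + Real.log X)) * X ^ (-c) := by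
          apply mul_le_mul_of_nonneg_right _ (by positivity)
          have hfl : ((⌊Q⌋₊ : ℕ) : ℝ) ≤ Q := Nat.floor_le (by positivity)
          have hfl1 : (1 : ℝ) ≤ ((⌊Q⌋₊ : ℕ) : ℝ) := by exact_mod_cast hQfl
          have hQX : Q ≤ X := by
            calc Q ≤ X ^ (1 : ℝ) := Real.rpow_le_rpow_of_exponent_le hX1' (by norm_num)
              _ = X := Real.rpow_one X
          have hlog : Real.log ((⌊Q⌋₊ : ℕ) : ℝ) ≤ Real.log X :=
            Real.log_le_log (by (clear * - hfl1; linarith)) (hfl.trans hQX)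
          have hlog0 : 0 ≤ Real.log ((⌊Q⌋₊ : ℕ) : ℝ) := Real.log_nonneg hfl1
          apply mul_le_mul _ (by (clear * - hlog; linarith)) (by (clear * - hlog0; linarith)) (by positivity)
          calc ((⌊Q⌋₊ : ℕ) : ℝ) ^ c ≤ Q ^ c := Real.rpow_le_rpow (by positivity) hfl hc.le
            _ = X ^ ((6 / 100 : ℝ) * c) := by rw [hQ, ← Real.rpow_mul hX0.le]
      _ ≤ 1 / 8 := hb1
  -- splitting
  have hsplit : ∑ n ∈ Icc 1 N, ((bet lam n * alp w D n : ℝ) : ℂ) * (n : ℂ) ^ (-ρ) =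
      (1 + ∑ n ∈ Ioc 1 N0, ((bet lam n * alp w D n : ℝ) : ℂ) * (n : ℂ) ^ (-ρ)) +
      ∑ n ∈ Ioc N0 N, ((bet lam n * alp w D n : ℝ) : ℂ) * (n : ℂ) ^ (-ρ) := by
    have e1 : Icc 1 N = insert 1 (Ioc 1 N) := by
      ext n; simp only [mem_Icc, mem_insert, mem_Ioc]; omega
    have e2 : Ioc 1 N = Ioc 1 N0 ∪ Ioc N0 N := by
      ext n; simp only [mem_union, mem_Ioc]; omega
    have hdj : Disjoint (Ioc 1 N0) (Ioc N0 N) := by
      rw [Finset.disjoint_left]
      intro n hn hn'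
      rw [mem_Ioc] at hn hn'
      omega
    have h11 : bet lam 1 * alp w D 1 = 1 := by
      rw [← hcsum 1 one_pos, Nat.divisors_one, Finset.sum_singleton, hc1]
    rw [e1, Finset.sum_insert (by simp), e2, Finset.sum_union hdj, h11]
    simp [add_assoc]
  have hmid : ‖∑ n ∈ Ioc 1 N0, ((bet lam n * alp w D n : ℝ) : ℂ) * (n : ℂ) ^ (-ρ)‖ ≤ 1 / 8 := by
    classical
    have hterm : ∀ n ∈ Ioc 1 N0, ‖((bet lam n * alp w D n : ℝ) : ℂ) * (n : ℂ) ^ (-ρ)‖ ≤
        if smooth w n then bet lam n * (n : ℝ) ^ ((1 - ρ.re) - 1) else 0 := by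
      intro n hn
      rw [mem_Ioc] at hn
      have hn0 : 0 < n := by omega
      have hnD : (n : ℝ) ≤ D := by
        calc (n : ℝ) ≤ (N0 : ℝ) := by exact_mod_cast hn.2
          _ ≤ D := Nat.floor_le (by positivity)
      rw [hcalp n hn0 hnD]
      split_ifs with hs
      · rw [mul_one, norm_mul, Complex.norm_real, Real.norm_eq_abs,
          abs_of_nonneg (hSW.nonneg n hn0), Complex.norm_natCast_cpow_of_pos hn0, Complex.neg_re]
        rw [show (1 - ρ.re) - 1 = -ρ.re by ring]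
      · simp
    calc ‖∑ n ∈ Ioc 1 N0, ((bet lam n * alp w D n : ℝ) : ℂ) * (n : ℂ) ^ (-ρ)‖
        ≤ ∑ n ∈ Ioc 1 N0, (if smooth w n then bet lam n * (n : ℝ) ^ ((1 - ρ.re) - 1) else 0) :=
          norm_sum_le_of_le _ hterm
      _ = ∑ n ∈ (Ioc 1 N0).filter (smooth w), bet lam n * (n : ℝ) ^ ((1 - ρ.re) - 1) := by
          rw [Finset.sum_filter]
      _ ≤ 1 / 8 := by
          apply hSW.small (1 - ρ.re) (by (clear * - hre1; linarith)) hwρ
          intro n hn
          rw [mem_filter, mem_Ioc] at hn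
          exact ⟨hn.1.1, hn.2⟩
  rw [hsplit] at hbnd
  set A := ∑ n ∈ Ioc 1 N0, ((bet lam n * alp w D n : ℝ) : ℂ) * (n : ℂ) ^ (-ρ) with hA
  set B := ∑ n ∈ Ioc N0 N, ((bet lam n * alp w D n : ℝ) : ℂ) * (n : ℂ) ^ (-ρ) with hB
  have h7 : (1 : ℝ) ≤ ‖1 + A + B‖ + ‖A‖ + ‖B‖ := by
    have : (1 : ℂ) = (1 + A + B) - A - B := by ring
    calc (1 : ℝ) = ‖(1 : ℂ)‖ := by simp
      _ = ‖(1 + A + B) - A - B‖ := by rw [← this]
      _ ≤ ‖(1 + A + B) - A‖ + ‖B‖ := norm_sub_le _ _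
      _ ≤ ‖1 + A + B‖ + ‖A‖ + ‖B‖ := by (clear * -; linarith [norm_sub_le (1 + A + B) A])
  (clear * - hmid hbnd h7; linarith)

end Pool.Agent.M17.Helper48.KSZ
end

/- Helper53.KN.Helper7.KSZ.N8 -/
section
/-!
Project KSZ, N8: the inner sum of the kernel for small ordinates.
-/

set_option autoImplicit false

open Finset MeasureTheory

namespace Pool.Agent.M17.Helper7.KSZ

open Pool.Agent.M17.Helper18.KSZ

/-! ### the trapezoid -/

theorem trap_decomp (v : ℝ) : max 0 (min 1 (min (40 * v - 1) (5 - 20 * v))) =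
    40 * max 0 (v - 1 / 40) - 40 * max 0 (v - 1 / 20) - 20 * max 0 (v - 1 / 5)
      + 20 * max 0 (v - 1 / 4) := by
  rcases le_total v (1 / 40) with h1 | h1
  · rw [max_eq_left (a := (0:ℝ)) (b := v - 1 / 40) (by (clear * - h1; linarith)),
      max_eq_left (a := (0:ℝ)) (b := v - 1 / 20) (by (clear * - h1; linarith)),
      max_eq_left (a := (0:ℝ)) (b := v - 1 / 5) (by linarith),
      max_eq_left (a := (0:ℝ)) (b := v - 1 / 4) (by linarith),
      max_eq_left]
    · ring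
    · exact (min_le_right _ _).trans ((min_le_left _ _).trans (by (clear * - h1; linarith)))
  rw [max_eq_right (a := (0:ℝ)) (b := v - 1 / 40) (by (clear * - h1; linarith))]
  rcases le_total v (1 / 20) with h2 | h2
  · rw [max_eq_left (a := (0:ℝ)) (b := v - 1 / 20) (by (clear * - h2; linarith)),
      max_eq_left (a := (0:ℝ)) (b := v - 1 / 5) (by linarith),
      max_eq_left (a := (0:ℝ)) (b := v - 1 / 4) (by linarith),
      min_eq_left (a := 40 * v - 1) (by (clear * - h2; linarith)), min_eq_right (by (clear * - h2; linarith)),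
      max_eq_right (by (clear * - h1; linarith))]
    ring
  rw [max_eq_right (a := (0:ℝ)) (b := v - 1 / 20) (by (clear * - h2; linarith))]
  rcases le_total v (1 / 5) with h3 | h3
  · rw [max_eq_left (a := (0:ℝ)) (b := v - 1 / 5) (by (clear * - h3; linarith)),
      max_eq_left (a := (0:ℝ)) (b := v - 1 / 4) (by (clear * - h3; linarith)),
      min_eq_left (a := (1:ℝ)), max_eq_right (by norm_num)]
    · ring
    · exact le_min (by (clear * - h2; linarith)) (by (clear * - h3; linarith))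
  rw [max_eq_right (a := (0:ℝ)) (b := v - 1 / 5) (by (clear * - h3; linarith))]
  rcases le_total v (1 / 4) with h4 | h4
  · rw [max_eq_left (a := (0:ℝ)) (b := v - 1 / 4) (by (clear * - h4; linarith)),
      min_eq_right (a := 40 * v - 1) (by (clear * - h3; linarith)), min_eq_right (by (clear * - h3; linarith)),
      max_eq_right (by (clear * - h4; linarith))]
    ring
  rw [max_eq_right (a := (0:ℝ)) (b := v - 1 / 4) (by (clear * - h4; linarith)), max_eq_left]
  · ring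
  · exact (min_le_right _ _).trans ((min_le_right _ _).trans (by (clear * - h4; linarith)))

theorem trap_nonneg (X y : ℝ) : 0 ≤ trap X y := le_max_left _ _

theorem trap_le_one (X y : ℝ) : trap X y ≤ 1 :=
  max_le (by norm_num) (min_le_left _ _)

theorem trap_zero {X y : ℝ} (h : Real.log y / Real.log X ≤ 1 / 40) : trap X y = 0 := by
  unfold trap
  rw [max_eq_left]
  exact (min_le_right _ _).trans ((min_le_left _ _).trans (by (clear * - h; linarith)))

theorem trap_zero' {X y : ℝ} (h : 1 / 4 ≤ Real.log y / Real.log X) : trap X y = 0 := by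
  unfold trap
  rw [max_eq_left]
  exact (min_le_right _ _).trans ((min_le_right _ _).trans (by (clear * - h; linarith)))

theorem trap_lip {X a b : ℝ} (hL : 0 < Real.log X) :
    |trap X a - trap X b| ≤ 40 / Real.log X * |Real.log a - Real.log b| := by
  have key : ∀ v w : ℝ, |max 0 (min 1 (min (40 * v - 1) (5 - 20 * v))) -
      max 0 (min 1 (min (40 * w - 1) (5 - 20 * w)))| ≤ 40 * |v - w| := by
    intro v w
    have h1 := abs_max_sub_max_le_max (0 : ℝ) (min 1 (min (40 * v - 1) (5 - 20 * v))) 0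
      (min 1 (min (40 * w - 1) (5 - 20 * w)))
    have h2 := abs_min_sub_min_le_max (1 : ℝ) (min (40 * v - 1) (5 - 20 * v)) 1
      (min (40 * w - 1) (5 - 20 * w))
    have h3 := abs_min_sub_min_le_max (40 * v - 1) (5 - 20 * v) (40 * w - 1) (5 - 20 * w)
    rw [sub_self, abs_zero] at h1 h2
    have h0 : 0 ≤ 40 * |v - w| := by (clear * -; positivity)
    have h4 : |40 * v - 1 - (40 * w - 1)| ≤ 40 * |v - w| := by
      have : 40 * v - 1 - (40 * w - 1) = 40 * (v - w) := by ring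
      rw [this, abs_mul, abs_of_pos (by norm_num : (0:ℝ) < 40)]
    have h5 : |5 - 20 * v - (5 - 20 * w)| ≤ 40 * |v - w| := by
      have : 5 - 20 * v - (5 - 20 * w) = -20 * (v - w) := by ring
      rw [this, abs_mul]
      have h6 : |(-20 : ℝ)| = 20 := by norm_num
      rw [h6]
      (clear * - h0; nlinarith [abs_nonneg (v - w)])
    exact h1.trans (max_le h0 (h2.trans (max_le h0 (h3.trans (max_le h4 h5)))))
  have h := key (Real.log a / Real.log X) (Real.log b / Real.log X)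
  refine h.trans_eq ?_
  rw [← sub_div, abs_div, abs_of_pos hL]
  ring

/-! ### powers -/

theorem cpow_sub_le {s : ℂ} (hs : s ≠ 0) (hre : 0 ≤ s.re) {m y : ℝ} (hm : 0 < m) (hy : m ≤ y) :
    ‖(y : ℂ) ^ (-s) - (m : ℂ) ^ (-s)‖ ≤ ‖s‖ * m ^ (-s.re - 1) * (y - m) := by
  have h1 : ∀ x ∈ Set.Icc m y, HasDerivWithinAt (fun x : ℝ => (x : ℂ) ^ (-s))
      (-s * (x : ℂ) ^ (-s - 1)) (Set.Icc m y) x := fun x hx =>
    (hasDerivAt_ofReal_cpow_const (lt_of_lt_of_le hm hx.1).ne' (neg_ne_zero.2 hs)).hasDerivWithinAt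
  have h2 : ∀ x ∈ Set.Icc m y, ‖-s * (x : ℂ) ^ (-s - 1)‖ ≤ ‖s‖ * m ^ (-s.re - 1) := by
    intro x hx
    have hx0 : 0 < x := lt_of_lt_of_le hm hx.1
    rw [norm_mul, norm_neg, Complex.norm_cpow_eq_rpow_re_of_pos hx0]
    refine mul_le_mul_of_nonneg_left ?_ (norm_nonneg _)
    have e : (-s - 1).re = -s.re - 1 := by simp
    rw [e]
    exact Real.rpow_le_rpow_of_nonpos hm hx.1 (by linarith)
  have h3 := (convex_Icc m y).norm_image_sub_le_of_norm_hasDerivWithin_le h1 h2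
    (Set.left_mem_Icc.2 hy) (Set.right_mem_Icc.2 hy)
  rwa [Real.norm_of_nonneg (sub_nonneg.2 hy)] at h3

/-! ### the integral of one piece -/

theorem piece {L d a Y : ℝ} {s : ℂ} (hL : 0 < L) (hd : 0 < d) (hs : s ≠ 1)
    (h1 : 1 ≤ Real.exp (a * L) / d) (h2 : Real.exp (a * L) / d ≤ Y) :
    ∫ y in (1 : ℝ)..Y, ((max 0 (Real.log (d * y) / L - a) : ℝ) : ℂ) * (y : ℂ) ^ (-s) =
      ((Real.log (d * Y) / L - a : ℝ) : ℂ) * ((Y : ℂ) ^ (1 - s) / (1 - s))
        - (Y : ℂ) ^ (1 - s) / ((L : ℂ) * (1 - s) ^ 2)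
        + ((Real.exp (a * L) / d : ℝ) : ℂ) ^ (1 - s) / ((L : ℂ) * (1 - s) ^ 2) := by
  set y0 := Real.exp (a * L) / d with hy0
  have hy0pos : 0 < y0 := by positivity
  have hw : (1 : ℂ) - s ≠ 0 := sub_ne_zero.2 (Ne.symm hs)
  have hLc : (L : ℂ) ≠ 0 := by exact_mod_cast hL.ne'
  have hcont : ContinuousOn (fun y : ℝ => ((max 0 (Real.log (d * y) / L - a) : ℝ) : ℂ) *
      (y : ℂ) ^ (-s)) (Set.Ioi 0) := by
    intro y hy
    have hy' : (0 : ℝ) < y := hy
    have c1 : ContinuousAt (fun y : ℝ => Real.log (d * y)) y :=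
      (Real.continuousAt_log (by (clear * - hd hy'; positivity))).comp (by fun_prop : ContinuousAt (fun y : ℝ => d * y) y)
    have c2 : ContinuousAt (fun y : ℝ => max 0 (Real.log (d * y) / L - a)) y :=
      continuousAt_const.max ((c1.div_const L).sub continuousAt_const)
    have c3 : ContinuousAt (fun y : ℝ => ((max 0 (Real.log (d * y) / L - a) : ℝ) : ℂ)) y :=
      Complex.continuous_ofReal.continuousAt.comp c2
    exact (c3.mul (Complex.continuousAt_ofReal_cpow_const _ _ (Or.inr hy'.ne'))).continuousWithinAt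
  have i1 : IntervalIntegrable (fun y : ℝ => ((max 0 (Real.log (d * y) / L - a) : ℝ) : ℂ) *
      (y : ℂ) ^ (-s)) volume 1 y0 := by
    apply ContinuousOn.intervalIntegrable
    apply hcont.mono
    intro y hy
    rw [Set.uIcc_of_le h1] at hy
    exact lt_of_lt_of_le one_pos hy.1
  have i2 : IntervalIntegrable (fun y : ℝ => ((max 0 (Real.log (d * y) / L - a) : ℝ) : ℂ) *
      (y : ℂ) ^ (-s)) volume y0 Y := by
    apply ContinuousOn.intervalIntegrable
    apply hcont.mono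
    intro y hy
    rw [Set.uIcc_of_le h2] at hy
    exact lt_of_lt_of_le hy0pos hy.1
  rw [← intervalIntegral.integral_add_adjacent_intervals i1 i2]
  have hlog0 : Real.log (d * y0) = a * L := by
    rw [hy0, mul_div_cancel₀ _ hd.ne', Real.log_exp]
  have e1 : ∫ y in (1 : ℝ)..y0, ((max 0 (Real.log (d * y) / L - a) : ℝ) : ℂ) * (y : ℂ) ^ (-s)
      = 0 := by
    rw [intervalIntegral.integral_congr (g := fun _ => (0 : ℂ))]
    · simp
    · intro y hy
      rw [Set.uIcc_of_le h1] at hy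
      have hypos : 0 < y := lt_of_lt_of_le one_pos hy.1
      have h3 : Real.log (d * y) ≤ a * L := by
        rw [← hlog0]
        exact Real.log_le_log (by positivity) (mul_le_mul_of_nonneg_left hy.2 hd.le)
      have h4 : Real.log (d * y) / L - a ≤ 0 := by
        rw [sub_nonpos, div_le_iff₀ hL]; exact h3
      simp only
      rw [max_eq_left h4]
      simp
  have e2 : ∫ y in y0..Y, ((max 0 (Real.log (d * y) / L - a) : ℝ) : ℂ) * (y : ℂ) ^ (-s)
      = (((Real.log (d * Y) / L - a : ℝ) : ℂ) * ((Y : ℂ) ^ (1 - s) / (1 - s))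
        - (Y : ℂ) ^ (1 - s) / ((L : ℂ) * (1 - s) ^ 2))
        - (((Real.log (d * y0) / L - a : ℝ) : ℂ) * ((y0 : ℂ) ^ (1 - s) / (1 - s))
        - (y0 : ℂ) ^ (1 - s) / ((L : ℂ) * (1 - s) ^ 2)) := by
    refine intervalIntegral.integral_eq_sub_of_hasDerivAt (f := fun y : ℝ =>
      ((Real.log (d * y) / L - a : ℝ) : ℂ) * ((y : ℂ) ^ (1 - s) / (1 - s))
        - (y : ℂ) ^ (1 - s) / ((L : ℂ) * (1 - s) ^ 2)) ?_ i2
    intro y hy
    rw [Set.uIcc_of_le h2] at hy
    have hypos : 0 < y := lt_of_lt_of_le hy0pos hy.1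
    have hyc : (y : ℂ) ≠ 0 := by exact_mod_cast hypos.ne'
    have d1 : HasDerivAt (fun y : ℝ => Real.log (d * y) / L - a) (1 / y / L) y := by
      have h5 : HasDerivAt (fun y : ℝ => d * y) d y := by
        simpa using (hasDerivAt_id y).const_mul d
      have h6 := h5.log (by (clear * - hd hypos; positivity))
      have h7 := (h6.div_const L).sub_const a
      refine h7.congr_deriv ?_
      (clear * - hd hL hypos; field_simp)
    have d2 : HasDerivAt (fun y : ℝ => ((Real.log (d * y) / L - a : ℝ) : ℂ))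
        (((1 / y / L : ℝ)) : ℂ) y := d1.ofReal_comp
    have d3 : HasDerivAt (fun y : ℝ => (y : ℂ) ^ (1 - s)) ((1 - s) * (y : ℂ) ^ (-s)) y := by
      have h8 := hasDerivAt_ofReal_cpow_const hypos.ne' hw
      have h9 : (1 : ℂ) - s - 1 = -s := by ring
      rwa [h9] at h8
    have d4 := (d2.mul (d3.div_const (1 - s))).sub (d3.div_const ((L : ℂ) * (1 - s) ^ 2))
    refine d4.congr_deriv ?_
    have h10 : (y : ℂ) ^ (1 - s) = (y : ℂ) * (y : ℂ) ^ (-s) := by
      rw [sub_eq_add_neg, Complex.cpow_add _ _ hyc, Complex.cpow_one]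
    have h11 : 0 ≤ Real.log (d * y) / L - a := by
      rw [sub_nonneg, le_div_iff₀ hL, ← hlog0]
      exact Real.log_le_log (by positivity) (mul_le_mul_of_nonneg_left hy.1 hd.le)
    rw [max_eq_right h11, h10]
    push_cast
    field_simp
    ring
  rw [e1, e2, hlog0]
  have e3 : a * L / L - a = 0 := by field_simp; ring
  rw [e3]
  push_cast
  ring

/-! ### the full integral -/

theorem rpos_cpow {x : ℝ} (hx : 0 < x) (z : ℂ) :
    (x : ℂ) ^ z = Complex.exp ((Real.log x : ℂ) * z) := by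
  rw [Complex.cpow_def_of_ne_zero (by exact_mod_cast hx.ne'), ← Complex.ofReal_log hx.le]

theorem integral_trap {X : ℝ} {d : ℕ} {s : ℂ} (hX : 1 < X) (hd : 1 ≤ d)
    (hdX : (d : ℝ) ≤ X ^ (1 / 100 : ℝ)) (hs : s ≠ 1) {Y : ℝ} (hY : X ≤ Y) :
    ∫ y in (1 : ℝ)..Y, (trap X ((d : ℝ) * y) : ℂ) * (y : ℂ) ^ (-s) =
      (d : ℂ) ^ (s - 1) * Itr X s := by
  have hX0 : 0 < X := by (clear * - hX; linarith)
  set L := Real.log X with hLdef
  have hL : 0 < L := Real.log_pos hX
  have hd0 : (0 : ℝ) < d := by exact_mod_cast hd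
  have hd1 : (1 : ℝ) ≤ d := by exact_mod_cast hd
  have hexp : ∀ a : ℝ, Real.exp (a * L) = X ^ a := by
    intro a; rw [Real.rpow_def_of_pos hX0, mul_comm]
  have hpow : ∀ a : ℝ, 1 / 100 ≤ a → a ≤ 1 → 1 ≤ Real.exp (a * L) / d ∧ Real.exp (a * L) / d ≤ Y := by
    intro a h1 h2
    rw [hexp]
    constructor
    · rw [one_le_div hd0]
      exact hdX.trans (Real.rpow_le_rpow_of_exponent_le hX.le h1)
    · rw [div_le_iff₀ hd0]
      calc X ^ a ≤ X ^ (1 : ℝ) := Real.rpow_le_rpow_of_exponent_le hX.le h2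
        _ = X := Real.rpow_one X
        _ ≤ Y := hY
        _ = Y * 1 := (mul_one Y).symm
        _ ≤ Y * d := mul_le_mul_of_nonneg_left hd1 (by (clear * - hX hY; linarith))
  have hYpos : 0 < Y := by (clear * - hX hY; linarith)
  have hY1 : 1 ≤ Y := by (clear * - hX hY; linarith)
  have hp : ∀ a : ℝ, 1 / 100 ≤ a → a ≤ 1 → _ := fun a h1 h2 =>
    piece (L := L) (d := (d : ℝ)) (a := a) (Y := Y) (s := s) hL hd0 hs (hpow a h1 h2).1 (hpow a h1 h2).2
  have hint : ∀ a : ℝ, IntervalIntegrable (fun y : ℝ =>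
      ((max 0 (Real.log ((d : ℝ) * y) / L - a) : ℝ) : ℂ) * (y : ℂ) ^ (-s)) volume 1 Y := by
    intro a
    apply ContinuousOn.intervalIntegrable
    intro y hy
    rw [Set.uIcc_of_le hY1] at hy
    have hy' : (0 : ℝ) < y := lt_of_lt_of_le one_pos hy.1
    have c1 : ContinuousAt (fun y : ℝ => Real.log ((d : ℝ) * y)) y :=
      (Real.continuousAt_log (by (clear * - hd hy'; positivity))).comp
        (by fun_prop : ContinuousAt (fun y : ℝ => (d : ℝ) * y) y)
    have c2 : ContinuousAt (fun y : ℝ => max 0 (Real.log ((d : ℝ) * y) / L - a)) y :=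
      continuousAt_const.max ((c1.div_const L).sub continuousAt_const)
    have c3 : ContinuousAt (fun y : ℝ => ((max 0 (Real.log ((d : ℝ) * y) / L - a) : ℝ) : ℂ)) y :=
      Complex.continuous_ofReal.continuousAt.comp c2
    exact (c3.mul (Complex.continuousAt_ofReal_cpow_const _ _ (Or.inr hy'.ne'))).continuousWithinAt
  have e0 : ∀ y : ℝ, (trap X ((d : ℝ) * y) : ℂ) * (y : ℂ) ^ (-s) =
      40 * (((max 0 (Real.log ((d : ℝ) * y) / L - 1 / 40) : ℝ) : ℂ) * (y : ℂ) ^ (-s))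
      - 40 * (((max 0 (Real.log ((d : ℝ) * y) / L - 1 / 20) : ℝ) : ℂ) * (y : ℂ) ^ (-s))
      - 20 * (((max 0 (Real.log ((d : ℝ) * y) / L - 1 / 5) : ℝ) : ℂ) * (y : ℂ) ^ (-s))
      + 20 * (((max 0 (Real.log ((d : ℝ) * y) / L - 1 / 4) : ℝ) : ℂ) * (y : ℂ) ^ (-s)) := by
    intro y
    unfold trap
    rw [trap_decomp]
    push_cast
    ring
  simp only [e0]
  rw [intervalIntegral.integral_add ((((hint _).const_mul _).sub ((hint _).const_mul _)).sub
      ((hint _).const_mul _)) ((hint _).const_mul _),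
    intervalIntegral.integral_sub (((hint _).const_mul _).sub ((hint _).const_mul _))
      ((hint _).const_mul _),
    intervalIntegral.integral_sub ((hint _).const_mul _) ((hint _).const_mul _),
    intervalIntegral.integral_const_mul, intervalIntegral.integral_const_mul,
    intervalIntegral.integral_const_mul, intervalIntegral.integral_const_mul,
    hp (1 / 40) (by norm_num) (by norm_num), hp (1 / 20) (by norm_num) (by norm_num),
    hp (1 / 5) (by norm_num) (by norm_num), hp (1 / 4) (by norm_num) (by norm_num)]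
  have hw : (1 : ℂ) - s ≠ 0 := sub_ne_zero.2 (Ne.symm hs)
  have hLc : (L : ℂ) ≠ 0 := by exact_mod_cast hL.ne'
  have hXc : (X : ℂ) ≠ 0 := by exact_mod_cast hX0.ne'
  have hdc : (d : ℂ) ≠ 0 := by exact_mod_cast hd0.ne'
  have hq : ∀ a : ℝ, ((Real.exp (a * L) / d : ℝ) : ℂ) ^ (1 - s)
      = (d : ℂ) ^ (s - 1) * (X : ℂ) ^ ((a : ℂ) * (1 - s)) := by
    intro a
    rw [hexp]
    have h1 : ((X ^ a / (d : ℝ) : ℝ) : ℂ) = ((X ^ a : ℝ) : ℂ) * (((d : ℝ)⁻¹ : ℝ) : ℂ) := by
      push_cast; rw [div_eq_mul_inv]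
    rw [h1, Complex.mul_cpow_ofReal_nonneg (Real.rpow_nonneg hX0.le _) (by positivity)]
    have h2 : (((X ^ a : ℝ)) : ℂ) ^ (1 - s) = (X : ℂ) ^ ((a : ℂ) * (1 - s)) := by
      rw [rpos_cpow (Real.rpow_pos_of_pos hX0 _), rpos_cpow hX0, Real.log_rpow hX0]
      push_cast
      ring_nf
    have h3 : ((((d : ℝ)⁻¹ : ℝ)) : ℂ) ^ (1 - s) = (d : ℂ) ^ (s - 1) := by
      have h4 : (d : ℂ) = ((d : ℝ) : ℂ) := by push_cast; rfl
      rw [h4, rpos_cpow (inv_pos.2 hd0), rpos_cpow hd0, Real.log_inv]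
      push_cast
      ring_nf
    rw [h2, h3]; ring
  rw [hq, hq, hq, hq]
  unfold Itr
  rw [← hLdef]
  have c1 : (((1 / 40 : ℝ)) : ℂ) * (1 - s) = (1 - s) / 40 := by push_cast; ring
  have c2 : (((1 / 20 : ℝ)) : ℂ) * (1 - s) = (1 - s) / 20 := by push_cast; ring
  have c3 : (((1 / 5 : ℝ)) : ℂ) * (1 - s) = (1 - s) / 5 := by push_cast; ring
  have c4 : (((1 / 4 : ℝ)) : ℂ) * (1 - s) = (1 - s) / 4 := by push_cast; ring
  rw [c1, c2, c3, c4]
  push_cast
  field_simp
  ring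

/-! ### the comparison of the sum and the integral -/

theorem innerSmall : InnerSmall := by
  obtain ⟨B, hB⟩ : ∃ B : ℝ, B = ∑' m : ℕ, (m : ℝ) ^ (-(6 / 5) : ℝ) := ⟨_, rfl⟩
  have hsum : Summable fun m : ℕ => (m : ℝ) ^ (-(6 / 5) : ℝ) :=
    Real.summable_nat_rpow.2 (by norm_num)
  have hB0 : 0 ≤ B := hB ▸ tsum_nonneg fun m => Real.rpow_nonneg (Nat.cast_nonneg m) _
  refine ⟨80 * B + 1, 2 ^ 100, by (clear * - hB0; positivity), fun X hX d hd hdX s hs1 hs2 hs => ?_⟩
  have hX1 : 1 < X := lt_of_lt_of_le (by norm_num) hX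
  have hX0 : 0 < X := by (clear * - hX; linarith)
  set L := Real.log X with hLdef
  have hL : 1 ≤ L := by
    have h1 : Real.log (2 ^ 100) ≤ L := Real.log_le_log (by positivity) hX
    rw [Real.log_pow] at h1
    have h2 := Real.log_two_gt_d9
    push_cast at h1
    (clear * - h1 h2; linarith)
  have hLpos : 0 < L := by (clear * - hL; linarith)
  have hd0 : (0 : ℝ) < d := by exact_mod_cast hd
  have hs0 : s ≠ 0 := fun h => by rw [h] at hs1; norm_num at hs1
  set M := ⌊X⌋₊ with hM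
  have hMX : X ≤ (M : ℝ) + 1 := (Nat.lt_floor_add_one X).le
  -- the summand as a function
  set g : ℝ → ℂ := fun y => (trap X ((d : ℝ) * y) : ℂ) * (y : ℂ) ^ (-s) with hg
  have hI : ∫ y in (1 : ℝ)..((M + 1 : ℕ) : ℝ), g y = (d : ℂ) ^ (s - 1) * Itr X s :=
    integral_trap hX1 hd hdX hs (by push_cast; exact hMX)
  have hgc : ContinuousOn g (Set.Ici 1) := by
    intro y hy
    have hy' : (0 : ℝ) < y := lt_of_lt_of_le one_pos hy
    have c1 : ContinuousAt (fun y : ℝ => Real.log ((d : ℝ) * y)) y :=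
      (Real.continuousAt_log (by (clear * - hd hy'; positivity))).comp
        (by fun_prop : ContinuousAt (fun y : ℝ => (d : ℝ) * y) y)
    have c2 : ContinuousAt (fun y : ℝ => trap X ((d : ℝ) * y)) y := by
      unfold trap
      exact continuousAt_const.max (continuousAt_const.min
        (((continuousAt_const.mul (c1.div_const _)).sub continuousAt_const).min
          (continuousAt_const.sub (continuousAt_const.mul (c1.div_const _)))))
    have c3 : ContinuousAt (fun y : ℝ => ((trap X ((d : ℝ) * y) : ℝ) : ℂ)) y :=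
      Complex.continuous_ofReal.continuousAt.comp c2
    exact (c3.mul (Complex.continuousAt_ofReal_cpow_const _ _ (Or.inr hy'.ne'))).continuousWithinAt
  have hint : ∀ k ∈ Set.Ico 1 (M + 1), IntervalIntegrable g volume ((k : ℕ) : ℝ) ((k + 1 : ℕ) : ℝ) := by
    intro k hk
    apply ContinuousOn.intervalIntegrable
    apply hgc.mono
    intro y hy
    rw [Set.uIcc_of_le (by push_cast; (clear * -; linarith))] at hy
    have h1 : (1 : ℝ) ≤ k := by exact_mod_cast hk.1
    exact h1.trans hy.1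
  have hsplit := intervalIntegral.sum_integral_adjacent_intervals_Ico (f := g) (μ := volume)
    (a := fun k : ℕ => (k : ℝ)) (m := 1) (n := M + 1) (by omega) hint
  simp only [Nat.cast_one] at hsplit
  rw [hI] at hsplit
  have hIcc : Icc 1 M = Ico 1 (M + 1) := by
    ext k; simp only [mem_Icc, mem_Ico]; omega
  rw [← hsplit, hIcc, ← Finset.sum_sub_distrib]
  -- one term
  have hterm : ∀ m ∈ Ico 1 (M + 1), ‖(trap X ((d : ℝ) * m) : ℂ) * (m : ℂ) ^ (-s) -
      ∫ y in ((m : ℕ) : ℝ)..((m + 1 : ℕ) : ℝ), g y‖ ≤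
      80 * (1 + ‖s‖) * X ^ (-(1 / 100) : ℝ) * (m : ℝ) ^ (-(6 / 5) : ℝ) := by
    intro m hm
    have hm1 : 1 ≤ m := (mem_Ico.1 hm).1
    have hm0 : (0 : ℝ) < m := by exact_mod_cast hm1
    have hm1' : (1 : ℝ) ≤ m := by exact_mod_cast hm1
    have e1 : (trap X ((d : ℝ) * m) : ℂ) * (m : ℂ) ^ (-s) -
        ∫ y in ((m : ℕ) : ℝ)..((m + 1 : ℕ) : ℝ), g y
        = ∫ y in ((m : ℕ) : ℝ)..((m + 1 : ℕ) : ℝ), (g m - g y) := by
      rw [intervalIntegral.integral_sub intervalIntegrable_const (hint m (by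
        have := mem_Ico.1 hm; exact ⟨this.1, this.2⟩)), intervalIntegral.integral_const]
      simp [hg]
    rw [e1]
    have hbound : ∀ y ∈ Set.uIoc ((m : ℕ) : ℝ) ((m + 1 : ℕ) : ℝ), ‖g m - g y‖ ≤
        80 * (1 + ‖s‖) * X ^ (-(1 / 100) : ℝ) * (m : ℝ) ^ (-(6 / 5) : ℝ) := by
      intro y hy
      rw [Set.uIoc_of_le (by push_cast; (clear * -; linarith))] at hy
      have hym : (m : ℝ) ≤ y := hy.1.le
      have hym1 : y ≤ m + 1 := by have := hy.2; push_cast at this; exact this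
      have hy0 : 0 < y := by (clear * - hm0 hym; linarith)
      have hRnn : 0 ≤ 80 * (1 + ‖s‖) * X ^ (-(1 / 100) : ℝ) * (m : ℝ) ^ (-(6 / 5) : ℝ) := by
        (clear * - hs0 hX hm1; positivity)
      -- small m: everything vanishes
      rcases le_or_gt ((m : ℝ) + 1) (X ^ (3 / 200 : ℝ)) with hsm | hbig
      · have hz : ∀ u : ℝ, 0 < u → u ≤ m + 1 → trap X ((d : ℝ) * u) = 0 := by
          intro u hu0 hu
          apply trap_zero
          rw [← hLdef, div_le_iff₀ hLpos]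
          have h1 : (d : ℝ) * u ≤ X ^ (1 / 40 : ℝ) := by
            calc (d : ℝ) * u ≤ X ^ (1 / 100 : ℝ) * X ^ (3 / 200 : ℝ) :=
                  mul_le_mul hdX (hu.trans hsm) hu0.le (Real.rpow_nonneg hX0.le _)
              _ = X ^ (1 / 40 : ℝ) := by rw [← Real.rpow_add hX0]; norm_num
          calc Real.log ((d : ℝ) * u) ≤ Real.log (X ^ (1 / 40 : ℝ)) :=
                Real.log_le_log (by (clear * - hd hu0; positivity)) h1
            _ = 1 / 40 * L := by rw [Real.log_rpow hX0]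
        have h1 : g m = 0 := by
          simp only [hg]; rw [hz m hm0 (by (clear * -; linarith))]; simp
        have h2 : g y = 0 := by
          simp only [hg]; rw [hz y hy0 hym1]; simp
        rw [h1, h2, sub_zero, norm_zero]
        exact hRnn
      · -- large m
        have hP : X ^ (3 / 200 : ℝ) ≤ 2 * m := by
          have h2 : (2 : ℝ) ≤ X ^ (3 / 200 : ℝ) := by
            calc (2 : ℝ) = 2 ^ (1 : ℝ) := (Real.rpow_one 2).symm
              _ ≤ 2 ^ (3 / 2 : ℝ) := Real.rpow_le_rpow_of_exponent_le (by norm_num) (by norm_num)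
              _ = ((2 : ℝ) ^ (100 : ℕ)) ^ (3 / 200 : ℝ) := by
                rw [← Real.rpow_natCast, ← Real.rpow_mul (by norm_num)]; norm_num
              _ ≤ X ^ (3 / 200 : ℝ) := Real.rpow_le_rpow (by positivity) hX (by norm_num)
          (clear * - hbig h2; linarith)
        have hmpow : (m : ℝ) ^ (-s.re - 1) ≤ 2 * X ^ (-(1 / 100) : ℝ) * (m : ℝ) ^ (-(6 / 5) : ℝ) := by
          have h1 : (m : ℝ) ^ (-s.re - 1) ≤ (m : ℝ) ^ (-(19 / 10) : ℝ) :=
            Real.rpow_le_rpow_of_exponent_le hm1' (by (clear * - hs1; linarith))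
          have h2 : (m : ℝ) ^ (-(19 / 10) : ℝ) = (m : ℝ) ^ (-(6 / 5) : ℝ) * (m : ℝ) ^ (-(7 / 10) : ℝ) := by
            rw [← Real.rpow_add hm0]; norm_num
          have h3 : (m : ℝ) ^ (-(7 / 10) : ℝ) ≤ (X ^ (3 / 200 : ℝ) / 2) ^ (-(7 / 10) : ℝ) :=
            Real.rpow_le_rpow_of_nonpos (by positivity) (by (clear * - hm1' hbig; linarith)) (by norm_num)
          have h4 : (X ^ (3 / 200 : ℝ) / 2) ^ (-(7 / 10) : ℝ)
              ≤ 2 * X ^ (-(1 / 100) : ℝ) := by
            rw [Real.div_rpow (by positivity) (by norm_num), ← Real.rpow_mul hX0.le,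
              div_eq_mul_inv, ← Real.rpow_neg (by norm_num), mul_comm]
            refine mul_le_mul ?_ ?_ (Real.rpow_nonneg hX0.le _) (by norm_num)
            · calc (2 : ℝ) ^ (-(-(7 / 10)) : ℝ) ≤ 2 ^ (1 : ℝ) :=
                  Real.rpow_le_rpow_of_exponent_le (by norm_num) (by norm_num)
                _ = 2 := Real.rpow_one 2
            · exact Real.rpow_le_rpow_of_exponent_le hX1.le (by norm_num)
          calc (m : ℝ) ^ (-s.re - 1) ≤ (m : ℝ) ^ (-(6 / 5) : ℝ) * (m : ℝ) ^ (-(7 / 10) : ℝ) := by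
                rw [← h2]; exact h1
            _ ≤ (m : ℝ) ^ (-(6 / 5) : ℝ) * (2 * X ^ (-(1 / 100) : ℝ)) :=
                mul_le_mul_of_nonneg_left (h3.trans h4) (Real.rpow_nonneg hm0.le _)
            _ = _ := by ring
        have hdiff : ‖g m - g y‖ ≤ (40 / L + ‖s‖) * (m : ℝ) ^ (-s.re - 1) := by
          have e2 : g m - g y = ((trap X ((d : ℝ) * m) - trap X ((d : ℝ) * y) : ℝ) : ℂ)
                * (y : ℂ) ^ (-s) -
              (trap X ((d : ℝ) * m) : ℂ) * ((y : ℂ) ^ (-s) - ((m : ℝ) : ℂ) ^ (-s)) := by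
            simp only [hg]
            push_cast
            ring
          rw [e2]
          refine (norm_sub_le _ _).trans ?_
          rw [norm_mul, norm_mul, Complex.norm_real, Complex.norm_real, add_mul]
          have t1 : ‖trap X ((d : ℝ) * m) - trap X ((d : ℝ) * y)‖ ≤ 40 / L * (1 / m) := by
            rw [Real.norm_eq_abs]
            refine (trap_lip hLpos).trans ?_
            refine mul_le_mul_of_nonneg_left ?_ (by positivity)
            rw [Real.log_mul hd0.ne' hm0.ne', Real.log_mul hd0.ne' hy0.ne', abs_sub_comm]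
            have h5 : Real.log d + Real.log y - (Real.log d + Real.log m) = Real.log (y / m) := by
              rw [Real.log_div hy0.ne' hm0.ne']; ring
            rw [h5, abs_of_nonneg (Real.log_nonneg (by rw [one_le_div hm0]; exact hym))]
            have h6 := Real.log_le_sub_one_of_pos (div_pos hy0 hm0)
            have h7 : y / m - 1 ≤ 1 / m := by
              rw [div_sub_one hm0.ne']
              exact div_le_div_of_nonneg_right (by (clear * - hym1; linarith)) hm0.le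
            exact h6.trans h7
          have t2 : ‖(y : ℂ) ^ (-s)‖ ≤ (m : ℝ) ^ (-s.re) := by
            rw [Complex.norm_cpow_eq_rpow_re_of_pos hy0, Complex.neg_re]
            exact Real.rpow_le_rpow_of_nonpos hm0 hym (by (clear * - hs1; linarith))
          have t3 : ‖(y : ℂ) ^ (-s) - ((m : ℝ) : ℂ) ^ (-s)‖ ≤ ‖s‖ * (m : ℝ) ^ (-s.re - 1) := by
            refine (cpow_sub_le hs0 (by (clear * - hs1; linarith)) hm0 hym).trans ?_
            have h8 : 0 ≤ ‖s‖ * (m : ℝ) ^ (-s.re - 1) := by positivity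
            (clear * - hym1 h8; nlinarith)
          have t4 : ‖trap X ((d : ℝ) * m)‖ ≤ 1 := by
            rw [Real.norm_of_nonneg (trap_nonneg _ _)]; exact trap_le_one _ _
          have h9 : (m : ℝ) ^ (-s.re - 1) = 1 / m * (m : ℝ) ^ (-s.re) := by
            rw [Real.rpow_sub hm0, Real.rpow_one]; ring
          refine add_le_add ?_ ?_
          · rw [h9, ← mul_assoc]
            exact mul_le_mul t1 t2 (norm_nonneg _) (by positivity)
          · calc _ ≤ 1 * (‖s‖ * (m : ℝ) ^ (-s.re - 1)) :=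
                  mul_le_mul t4 t3 (norm_nonneg _) (by norm_num)
              _ = _ := one_mul _
        have h10 : 40 / L + ‖s‖ ≤ 40 * (1 + ‖s‖) := by
          have h11 : 40 / L ≤ 40 := div_le_self (by norm_num) hL
          (clear * - h11; nlinarith [norm_nonneg s])
        calc ‖g m - g y‖ ≤ (40 / L + ‖s‖) * (m : ℝ) ^ (-s.re - 1) := hdiff
          _ ≤ (40 * (1 + ‖s‖)) * (2 * X ^ (-(1 / 100) : ℝ) * (m : ℝ) ^ (-(6 / 5) : ℝ)) :=
            mul_le_mul h10 hmpow (Real.rpow_nonneg hm0.le _) (by positivity)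
          _ = _ := by ring
    have h12 := intervalIntegral.norm_integral_le_of_norm_le_const hbound
    have h13 : |(((m + 1 : ℕ) : ℝ)) - (m : ℝ)| = 1 := by push_cast; simp
    rwa [h13, mul_one] at h12
  calc ‖∑ m ∈ Ico 1 (M + 1), ((trap X ((d : ℝ) * m) : ℂ) * (m : ℂ) ^ (-s) -
        ∫ y in ((m : ℕ) : ℝ)..((m + 1 : ℕ) : ℝ), g y)‖
      ≤ ∑ m ∈ Ico 1 (M + 1), 80 * (1 + ‖s‖) * X ^ (-(1 / 100) : ℝ) * (m : ℝ) ^ (-(6 / 5) : ℝ) :=
        norm_sum_le_of_le _ hterm
    _ = 80 * (1 + ‖s‖) * X ^ (-(1 / 100) : ℝ) * ∑ m ∈ Ico 1 (M + 1), (m : ℝ) ^ (-(6 / 5) : ℝ) := by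
        rw [Finset.mul_sum]
    _ ≤ 80 * (1 + ‖s‖) * X ^ (-(1 / 100) : ℝ) * B := by
        refine mul_le_mul_of_nonneg_left ?_ (by positivity)
        rw [hB]
        exact hsum.sum_le_tsum _ fun m _ => Real.rpow_nonneg (Nat.cast_nonneg m) _
    _ ≤ (80 * B + 1) * (1 + ‖s‖) * X ^ (-(1 / 100) : ℝ) := by
        have h1 : 0 ≤ (1 + ‖s‖) * X ^ (-(1 / 100) : ℝ) := by positivity
        (clear * - h1; nlinarith)

end Pool.Agent.M17.Helper7.KSZ
end

/- Helper53.KN.Helper7.KSZ.N10 -/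
section
/-!
Project KSZ, N10: the kernel of the duality argument.
-/

set_option autoImplicit false

open Finset MeasureTheory

namespace Pool.Agent.M17.Helper7.KSZ

open Pool.Agent.M17.Helper18.KSZ

theorem sum_mult (G : ℕ → ℂ) (M d : ℕ) (hd : 1 ≤ d) (hG : ∀ k, M < k → G k = 0) :
    ∑ n ∈ (Icc 1 M).filter (fun n => d ∣ n), G n = ∑ m ∈ Icc 1 M, G (d * m) := by
  have h1 : ∑ m ∈ Icc 1 M, G (d * m) = ∑ m ∈ (Icc 1 M).filter (fun m => d * m ≤ M), G (d * m) := by
    rw [Finset.sum_filter]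
    refine Finset.sum_congr rfl fun m _ => ?_
    split_ifs with h
    · rfl
    · exact hG _ (by omega)
  rw [h1]
  refine Finset.sum_nbij' (fun n => n / d) (fun m => d * m) ?_ ?_ ?_ ?_ ?_
  · intro n hn
    simp only [mem_filter, mem_Icc] at hn ⊢
    obtain ⟨⟨h2, h3⟩, k, rfl⟩ := hn
    rw [Nat.mul_div_cancel_left k (by omega)]
    have hk : 1 ≤ k := by
      rcases Nat.eq_zero_or_pos k with h | h
      · rw [h] at h2; simp at h2
      · exact h
    refine ⟨⟨hk, ?_⟩, h3⟩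
    calc k = 1 * k := (one_mul k).symm
      _ ≤ d * k := Nat.mul_le_mul_right k hd
      _ ≤ M := h3
  · intro m hm
    simp only [mem_filter, mem_Icc] at hm ⊢
    refine ⟨⟨?_, hm.2⟩, Dvd.intro _ rfl⟩
    exact Nat.mul_pos (by omega) (by omega)
  · intro n hn
    simp only [mem_filter, mem_Icc] at hn
    exact Nat.mul_div_cancel' hn.2
  · intro m _
    exact Nat.mul_div_cancel_left m (by omega)
  · intro n hn
    simp only [mem_filter, mem_Icc] at hn
    rw [Nat.mul_div_cancel' hn.2]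

theorem sum_div_swap (F : ℕ → ℕ → ℂ) (M : ℕ) :
    ∑ n ∈ Icc 1 M, ∑ d ∈ n.divisors, F d n
      = ∑ d ∈ Icc 1 M, ∑ n ∈ (Icc 1 M).filter (fun n => d ∣ n), F d n := by
  refine Finset.sum_comm' ?_
  intro n d
  simp only [mem_Icc, Nat.mem_divisors, mem_filter]
  constructor
  · rintro ⟨⟨h1, h2⟩, h3, h4⟩
    refine ⟨⟨⟨h1, h2⟩, h3⟩, Nat.pos_of_dvd_of_pos h3 (by omega), (Nat.le_of_dvd (by omega) h3).trans h2⟩
  · rintro ⟨⟨⟨h1, h2⟩, h3⟩, h4, h5⟩
    exact ⟨⟨h1, h2⟩, h3, by omega⟩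

/-- the kernel as a double sum -/
theorem ker_eq {K C w X : ℝ} {lam : ℕ → ℝ} (hX : 1 < X) (hK : w ^ K ≤ X)
    (h : SW K C w lam) (s : ℂ) :
    Ker lam X s = ∑ d ∈ Icc 1 ⌊w ^ K⌋₊, (lam d : ℂ) * (d : ℂ) ^ (-s) *
      ∑ m ∈ Icc 1 ⌊X⌋₊, (trap X ((d : ℝ) * m) : ℂ) * (m : ℂ) ^ (-s) := by
  have hX0 : 0 < X := by (clear * - hX; linarith)
  have hLpos : 0 < Real.log X := Real.log_pos hX
  set M := ⌊X⌋₊ with hM
  have hvan : ∀ k : ℕ, M < k → trap X (k : ℝ) = 0 := by
    intro k hk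
    have hkX : X < k := Nat.lt_of_floor_lt hk
    apply trap_zero'
    rw [le_div_iff₀ hLpos]
    have h1 : Real.log X ≤ Real.log k := Real.log_le_log hX0 hkX.le
    (clear * - hLpos h1; linarith)
  unfold Ker
  have e1 : ∀ n ∈ Icc 1 M, ((bet lam n * trap X n : ℝ) : ℂ) * (n : ℂ) ^ (-s)
      = ∑ d ∈ n.divisors, (lam d : ℂ) * ((trap X (n : ℝ) : ℂ) * (n : ℂ) ^ (-s)) := by
    intro n _
    rw [← Finset.sum_mul]
    unfold bet
    push_cast
    ring
  rw [Finset.sum_congr rfl e1, sum_div_swap (fun d n => (lam d : ℂ) * ((trap X (n : ℝ) : ℂ) *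
    (n : ℂ) ^ (-s))) M]
  have hDM : ⌊w ^ K⌋₊ ≤ M := Nat.floor_le_floor hK
  rw [← Finset.sum_subset (Finset.Icc_subset_Icc_right hDM)]
  · refine Finset.sum_congr rfl fun d hd => ?_
    rw [mem_Icc] at hd
    rw [← Finset.mul_sum, sum_mult (fun n => (trap X (n : ℝ) : ℂ) * (n : ℂ) ^ (-s)) M d hd.1
      (fun k hk => by rw [hvan k hk]; simp), mul_assoc]
    congr 1
    rw [Finset.mul_sum]
    refine Finset.sum_congr rfl fun m _ => ?_
    push_cast
    rw [Complex.natCast_mul_natCast_cpow]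
    ring
  · intro d hd hd'
    rw [mem_Icc] at hd
    have hlam : lam d = 0 := by
      by_contra hne
      obtain ⟨h1, -, h3⟩ := h.supp d hne
      apply hd'
      rw [mem_Icc]
      exact ⟨h1, Nat.le_floor h3⟩
    refine Finset.sum_eq_zero fun n _ => ?_
    rw [hlam]; simp

theorem itr_bound {X : ℝ} {s : ℂ} (hX : 1 < X) (hs2 : s.re ≤ 1) (him : s.im ≠ 0) :
    ‖Itr X s‖ ≤ 120 * X ^ ((1 - s.re) / 4) / (Real.log X * s.im ^ 2) := by
  have hX0 : 0 < X := by linarith
  have hLpos : 0 < Real.log X := Real.log_pos hX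
  have hb : ∀ k : ℝ, 4 ≤ k → ‖(X : ℂ) ^ ((1 - s) / k)‖ ≤ X ^ ((1 - s.re) / 4) := by
    intro k hk
    rw [Complex.norm_cpow_eq_rpow_re_of_pos hX0]
    apply Real.rpow_le_rpow_of_exponent_le hX.le
    have e : ((1 - s) / (k : ℂ)).re = (1 - s.re) / k := by
      rw [Complex.div_ofReal_re]; simp
    rw [e]
    exact div_le_div_of_nonneg_left (by (clear * - hs2; linarith)) (by norm_num) hk
  unfold Itr
  rw [norm_div]
  have hnum : ‖20 * ((X : ℂ) ^ ((1 - s) / 4) - (X : ℂ) ^ ((1 - s) / 5)) -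
      40 * ((X : ℂ) ^ ((1 - s) / 20) - (X : ℂ) ^ ((1 - s) / 40))‖ ≤ 120 * X ^ ((1 - s.re) / 4) := by
    have b4 := hb 4 (by norm_num)
    have b5 := hb 5 (by norm_num)
    have b20 := hb 20 (by norm_num)
    have b40 := hb 40 (by norm_num)
    push_cast at b4 b5 b20 b40
    have n1 := norm_sub_le (20 * ((X : ℂ) ^ ((1 - s) / 4) - (X : ℂ) ^ ((1 - s) / 5)))
      (40 * ((X : ℂ) ^ ((1 - s) / 20) - (X : ℂ) ^ ((1 - s) / 40)))
    have n2 := norm_sub_le ((X : ℂ) ^ ((1 - s) / 4)) ((X : ℂ) ^ ((1 - s) / 5))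
    have n3 := norm_sub_le ((X : ℂ) ^ ((1 - s) / 20)) ((X : ℂ) ^ ((1 - s) / 40))
    rw [norm_mul, norm_mul] at n1
    have e20 : ‖(20 : ℂ)‖ = 20 := by norm_num
    have e40 : ‖(40 : ℂ)‖ = 40 := by norm_num
    rw [e20, e40] at n1
    linarith
  have hden : Real.log X * s.im ^ 2 ≤ ‖(Real.log X : ℂ) * (1 - s) ^ 2‖ := by
    rw [norm_mul, norm_pow, Complex.norm_real, Real.norm_of_nonneg hLpos.le]
    refine mul_le_mul_of_nonneg_left ?_ hLpos.le
    have h1 : |s.im| ≤ ‖1 - s‖ := by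
      have h2 := Complex.abs_im_le_norm (1 - s)
      simpa using h2
    calc s.im ^ 2 = |s.im| ^ 2 := (sq_abs _).symm
      _ ≤ ‖1 - s‖ ^ 2 := pow_le_pow_left₀ (abs_nonneg _) h1 2
  have hpos : 0 < Real.log X * s.im ^ 2 := by (clear * - hLpos him; positivity)
  exact div_le_div₀ (by positivity) hnum hpos hden

theorem kerBound (h8 : InnerSmall) (h9 : InnerLarge) : KerBound := by
  intro K C hK hC
  obtain ⟨C8, X8, hC8, H8⟩ := h8
  obtain ⟨c9, ε9, X9, hc9, hε9, H9⟩ := h9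
  -- constants
  set ε := min (min ε9 c9) (1 / 10) with hε
  have hεpos : 0 < ε := lt_min (lt_min hε9 hc9) (by norm_num)
  have hε1 : ε ≤ ε9 := (min_le_left _ _).trans (min_le_left _ _)
  have hε2 : ε ≤ c9 := (min_le_left _ _).trans (min_le_right _ _)
  have hε3 : ε ≤ 1 / 10 := min_le_right _ _
  obtain ⟨Z, hZ⟩ : ∃ Z : ℝ, Z = ∑' d : ℕ, (d : ℝ) ^ (-(1 + ε)) := ⟨_, rfl⟩
  have hZsum : Summable fun d : ℕ => (d : ℝ) ^ (-(1 + ε)) :=
    Real.summable_nat_rpow.2 (by (clear * - hεpos; linarith))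
  have hZ0 : 0 ≤ Z := hZ ▸ tsum_nonneg fun m => Real.rpow_nonneg (Nat.cast_nonneg m) _
  set c := min (c9 / 4) (1 / 1000) with hc
  have hcpos : 0 < c := lt_min (by (clear * - hc9; linarith)) (by norm_num)
  have hc1 : c ≤ c9 / 4 := min_le_left _ _
  have hc2 : c ≤ 1 / 1000 := min_le_right _ _
  set K0 := (3 * C8 + 1) * Z + 1 with hK0
  have hK0pos : 1 ≤ K0 := by
    have : 0 ≤ (3 * C8 + 1) * Z := by (clear * - hC8 hZ0; positivity)
    (clear * - this; linarith)
  refine ⟨c, ε, 120 * C, max (max X8 X9) (max 2 (K0 ^ (1 / c))), hcpos, hεpos, by positivity,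
    fun X hX w lam hw hwK hSW s hs1 hs2 him him2 => ?_⟩
  have hX8 : X8 ≤ X := (le_max_left _ _).trans ((le_max_left _ _).trans hX)
  have hX9 : X9 ≤ X := (le_max_right _ _).trans ((le_max_left _ _).trans hX)
  have hX2 : 2 ≤ X := (le_max_left _ _).trans ((le_max_right _ _).trans hX)
  have hXK : K0 ^ (1 / c) ≤ X := (le_max_right _ _).trans ((le_max_right _ _).trans hX)
  have hX1 : 1 < X := by (clear * - hcpos hc2 hX2; linarith)
  have hX0 : 0 < X := by (clear * - hcpos hc2 hX2; linarith)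
  have hLpos : 0 < Real.log X := Real.log_pos hX1
  have hlogw : 0 < Real.log w := Real.log_pos (by (clear * - hcpos hc2 hw; linarith))
  have hwX : w ^ K ≤ X := hwK.trans (by
    calc X ^ (1 / 100 : ℝ) ≤ X ^ (1 : ℝ) := Real.rpow_le_rpow_of_exponent_le hX1.le (by norm_num)
      _ = X := Real.rpow_one X)
  have hKc : K0 ≤ X ^ c := by
    calc K0 = (K0 ^ (1 / c)) ^ c := by
          rw [← Real.rpow_mul (by (clear * - hcpos hc2 hK0pos; linarith)), one_div, inv_mul_cancel₀ hcpos.ne', Real.rpow_one]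
      _ ≤ X ^ c := Real.rpow_le_rpow (by (clear * - hC8 hZ0; positivity)) hXK hcpos.le
  rw [ker_eq hX1 hwX hSW s]
  set D := ⌊w ^ K⌋₊ with hD
  have hDX : (D : ℝ) ≤ X ^ (1 / 100 : ℝ) := (Nat.floor_le (by positivity)).trans hwK
  -- the sum of `d ^ (-Re s)`
  have hdsum : ∀ R : ℝ, 0 ≤ R → ∀ f : ℕ → ℂ, (∀ d ∈ Icc 1 D, ‖f d‖ ≤ R) →
      ‖∑ d ∈ Icc 1 D, (lam d : ℂ) * (d : ℂ) ^ (-s) * f d‖ ≤ X ^ (2 * ε / 100) * Z * R := by
    intro R hR f hf
    have hd1 : ∀ d ∈ Icc 1 D, ‖(lam d : ℂ) * (d : ℂ) ^ (-s) * f d‖ ≤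
        X ^ (2 * ε / 100) * R * (d : ℝ) ^ (-(1 + ε)) := by
      intro d hd
      have hd' := hd
      rw [mem_Icc] at hd
      have hd0 : (0 : ℝ) < d := by exact_mod_cast hd.1
      have hd1' : (1 : ℝ) ≤ d := by exact_mod_cast hd.1
      have hdX : (d : ℝ) ≤ X ^ (1 / 100 : ℝ) := by
        have : (d : ℝ) ≤ D := by exact_mod_cast hd.2
        exact this.trans hDX
      rw [norm_mul, norm_mul, Complex.norm_real, Real.norm_eq_abs]
      have h1 : ‖(d : ℂ) ^ (-s)‖ ≤ X ^ (2 * ε / 100) * (d : ℝ) ^ (-(1 + ε)) := by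
        rw [show (d : ℂ) = ((d : ℝ) : ℂ) by push_cast; rfl,
          Complex.norm_cpow_eq_rpow_re_of_pos hd0, Complex.neg_re]
        calc (d : ℝ) ^ (-s.re) ≤ (d : ℝ) ^ (2 * ε + -(1 + ε)) :=
              Real.rpow_le_rpow_of_exponent_le hd1' (by (clear * - hs1; linarith))
          _ = (d : ℝ) ^ (2 * ε) * (d : ℝ) ^ (-(1 + ε)) := Real.rpow_add hd0 _ _
          _ ≤ X ^ (2 * ε / 100) * (d : ℝ) ^ (-(1 + ε)) := by
              refine mul_le_mul_of_nonneg_right ?_ (Real.rpow_nonneg hd0.le _)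
              calc (d : ℝ) ^ (2 * ε) ≤ (X ^ (1 / 100 : ℝ)) ^ (2 * ε) :=
                    Real.rpow_le_rpow hd0.le hdX (by (clear * - hεpos; linarith))
                _ = X ^ (2 * ε / 100) := by rw [← Real.rpow_mul hX0.le]; ring_nf
      calc |lam d| * ‖(d : ℂ) ^ (-s)‖ * ‖f d‖
          ≤ 1 * (X ^ (2 * ε / 100) * (d : ℝ) ^ (-(1 + ε))) * R := by
            refine mul_le_mul ?_ (hf d hd') (norm_nonneg _) (by (clear * - hX2 hd0; positivity))
            exact mul_le_mul (hSW.abs_le d) h1 (norm_nonneg _) (by norm_num)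
        _ = _ := by ring
    calc ‖∑ d ∈ Icc 1 D, (lam d : ℂ) * (d : ℂ) ^ (-s) * f d‖
        ≤ ∑ d ∈ Icc 1 D, X ^ (2 * ε / 100) * R * (d : ℝ) ^ (-(1 + ε)) := norm_sum_le_of_le _ hd1
      _ = X ^ (2 * ε / 100) * R * ∑ d ∈ Icc 1 D, (d : ℝ) ^ (-(1 + ε)) := by rw [Finset.mul_sum]
      _ ≤ X ^ (2 * ε / 100) * R * Z := by
          refine mul_le_mul_of_nonneg_left ?_ (by (clear * - hX2 hR; positivity))
          rw [hZ]
          exact hZsum.sum_le_tsum _ fun m _ => Real.rpow_nonneg (Nat.cast_nonneg m) _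
      _ = _ := by ring
  rcases le_total |s.im| (X ^ (1 / 200 : ℝ)) with hsm | hlg
  · -- small ordinates
    have hs1' : s ≠ 1 := fun h => him (by rw [h]; simp)
    have hs9 : 9 / 10 ≤ s.re := by (clear * - hε3 hs1; linarith)
    have hnorm : 1 + ‖s‖ ≤ 3 * X ^ (1 / 200 : ℝ) := by
      have h1 := Complex.norm_le_abs_re_add_abs_im s
      have h2 : |s.re| ≤ 1 := abs_le.2 ⟨by (clear * - hε3 hcpos hc2 hs1; linarith), hs2⟩
      have h3 : 1 ≤ X ^ (1 / 200 : ℝ) := Real.one_le_rpow hX1.le (by norm_num)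
      (clear * - hsm h1 h2 h3; linarith)
    set f : ℕ → ℂ := fun d => ∑ m ∈ Icc 1 ⌊X⌋₊, (trap X ((d : ℝ) * m) : ℂ) * (m : ℂ) ^ (-s) with hf
    have hsplit : ∑ d ∈ Icc 1 D, (lam d : ℂ) * (d : ℂ) ^ (-s) * f d =
        Itr X s * ((∑ d ∈ Icc 1 D, lam d / d : ℝ) : ℂ) +
        ∑ d ∈ Icc 1 D, (lam d : ℂ) * (d : ℂ) ^ (-s) * (f d - (d : ℂ) ^ (s - 1) * Itr X s) := by
      push_cast
      rw [Finset.mul_sum, ← Finset.sum_add_distrib]
      refine Finset.sum_congr rfl fun d hd => ?_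
      rw [mem_Icc] at hd
      have hd0 : (d : ℂ) ≠ 0 := by exact_mod_cast (by omega : d ≠ 0)
      have h1 : (d : ℂ) ^ (-s) * (d : ℂ) ^ (s - 1) = 1 / d := by
        rw [← Complex.cpow_add _ _ hd0]
        have : -s + (s - 1) = -1 := by ring
        rw [this, Complex.cpow_neg_one, one_div]
      have h2 : (lam d : ℂ) * (d : ℂ) ^ (-s) * ((d : ℂ) ^ (s - 1) * Itr X s)
          = Itr X s * ((lam d : ℂ) / d) := by
        calc _ = (lam d : ℂ) * ((d : ℂ) ^ (-s) * (d : ℂ) ^ (s - 1)) * Itr X s := by ring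
          _ = _ := by rw [h1]; ring
      rw [mul_sub, h2]; ring
    have herr := hdsum (C8 * (3 * X ^ (1 / 200 : ℝ)) * X ^ (-(1 / 100) : ℝ)) (by (clear * - hC8 hX2; positivity))
      (fun d => f d - (d : ℂ) ^ (s - 1) * Itr X s) (by
        intro d hd
        rw [mem_Icc] at hd
        have hdX : (d : ℝ) ≤ X ^ (1 / 100 : ℝ) := by
          have : (d : ℝ) ≤ D := by exact_mod_cast hd.2
          exact this.trans hDX
        refine (H8 X hX8 d hd.1 hdX s hs9 hs2 hs1').trans ?_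
        refine mul_le_mul_of_nonneg_right ?_ (Real.rpow_nonneg hX0.le _)
        exact mul_le_mul_of_nonneg_left hnorm hC8.le)
    have hmain : ‖Itr X s * ((∑ d ∈ Icc 1 D, lam d / d : ℝ) : ℂ)‖ ≤
        120 * C * X ^ ((1 - s.re) / 4) / (Real.log w * Real.log X * s.im ^ 2) := by
      rw [norm_mul, Complex.norm_real, Real.norm_eq_abs]
      calc ‖Itr X s‖ * |∑ d ∈ Icc 1 D, lam d / d|
          ≤ 120 * X ^ ((1 - s.re) / 4) / (Real.log X * s.im ^ 2) * (C / Real.log w) :=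
            mul_le_mul (itr_bound hX1 hs2 him) hSW.mean (abs_nonneg _) (by (clear * - hX2 hLpos him; positivity))
        _ = _ := by
            have : s.im ^ 2 ≠ 0 := by (clear * - him; positivity)
            (clear * - hlogw hC him hLpos hX2; field_simp)
    have hsmall : X ^ (2 * ε / 100) * Z * (C8 * (3 * X ^ (1 / 200 : ℝ)) * X ^ (-(1 / 100) : ℝ))
        ≤ X ^ (-c) := by
      have h1 : X ^ (2 * ε / 100) * X ^ (1 / 200 : ℝ) * X ^ (-(1 / 100) : ℝ) ≤ X ^ (-(2 * c)) := by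
        rw [← Real.rpow_add hX0, ← Real.rpow_add hX0]
        exact Real.rpow_le_rpow_of_exponent_le hX1.le (by (clear * - hε3 hcpos hc2; linarith))
      have h2 : 3 * C8 * Z ≤ X ^ c := by
        refine le_trans ?_ hKc
        rw [hK0]; (clear * - hZ0 hcpos hc2; nlinarith)
      calc X ^ (2 * ε / 100) * Z * (C8 * (3 * X ^ (1 / 200 : ℝ)) * X ^ (-(1 / 100) : ℝ))
          = (3 * C8 * Z) * (X ^ (2 * ε / 100) * X ^ (1 / 200 : ℝ) * X ^ (-(1 / 100) : ℝ)) := by ring
        _ ≤ X ^ c * X ^ (-(2 * c)) := mul_le_mul h2 h1 (by positivity) (by positivity)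
        _ = X ^ (-c) := by rw [← Real.rpow_add hX0]; ring_nf
    calc ‖∑ d ∈ Icc 1 D, (lam d : ℂ) * (d : ℂ) ^ (-s) * f d‖
        = ‖Itr X s * ((∑ d ∈ Icc 1 D, lam d / d : ℝ) : ℂ) +
        ∑ d ∈ Icc 1 D, (lam d : ℂ) * (d : ℂ) ^ (-s) * (f d - (d : ℂ) ^ (s - 1) * Itr X s)‖ := by
          rw [hsplit]
      _ ≤ _ := norm_add_le _ _
      _ ≤ 120 * C * X ^ ((1 - s.re) / 4) / (Real.log w * Real.log X * s.im ^ 2) + X ^ (-c) :=
          add_le_add hmain (herr.trans hsmall)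
  · -- large ordinates
    have herr := hdsum (X ^ (-c9)) (by positivity)
      (fun d => ∑ m ∈ Icc 1 ⌊X⌋₊, (trap X ((d : ℝ) * m) : ℂ) * (m : ℂ) ^ (-s)) (by
        intro d hd
        rw [mem_Icc] at hd
        have hdX : (d : ℝ) ≤ X ^ (1 / 100 : ℝ) := by
          have : (d : ℝ) ≤ D := by exact_mod_cast hd.2
          exact this.trans hDX
        exact H9 X hX9 d hd.1 hdX s (by (clear * - hε1 hs1; linarith)) hs2 hlg him2)
    have hsmall : X ^ (2 * ε / 100) * Z * X ^ (-c9) ≤ X ^ (-c) := by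
      have h1 : X ^ (2 * ε / 100) * X ^ (-c9) ≤ X ^ (-(2 * c)) := by
        rw [← Real.rpow_add hX0]
        exact Real.rpow_le_rpow_of_exponent_le hX1.le (by (clear * - hε2 hcpos hc1; linarith))
      have h2 : Z ≤ X ^ c := by
        refine le_trans ?_ hKc
        rw [hK0]; (clear * - hcpos hc2 hC8 hZ0; nlinarith)
      calc X ^ (2 * ε / 100) * Z * X ^ (-c9) = Z * (X ^ (2 * ε / 100) * X ^ (-c9)) := by ring
        _ ≤ X ^ c * X ^ (-(2 * c)) := mul_le_mul h2 h1 (by (clear * - hX2; positivity)) (by positivity)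
        _ = X ^ (-c) := by rw [← Real.rpow_add hX0]; ring_nf
    have hmain0 : 0 ≤ 120 * C * X ^ ((1 - s.re) / 4) / (Real.log w * Real.log X * s.im ^ 2) := by
      (clear * - hC hX2 hlogw hLpos him; positivity)
    have := herr.trans hsmall
    (clear * - herr hsmall hmain0; linarith)

end Pool.Agent.M17.Helper7.KSZ
end

/- Helper53.KN.Helper7.KSZ.N9 -/
section
/-!
Project KSZ, N9: the inner sum of the kernel for large ordinates.
-/

set_option autoImplicit false

open Finset MeasureTheory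

namespace Pool.Agent.M17.Helper7.KSZ

open Pool.Agent.M17.Helper18.KSZ

/-- Abel summation -/
theorem abel_sum (w : ℕ → ℂ) (a : ℕ → ℂ) (M0 n : ℕ) (h : M0 ≤ n) :
    ∑ m ∈ Ioc M0 n, w m * a m = w n * (∑ m ∈ Ioc M0 n, a m)
      - ∑ k ∈ Ico M0 n, (w (k + 1) - w k) * (∑ m ∈ Ioc M0 k, a m) := by
  induction n, h using Nat.le_induction with
  | base => simp
  | succ n hn ih =>
    rw [Finset.sum_Ioc_succ_top hn, Finset.sum_Ioc_succ_top hn, Finset.sum_Ico_succ_top hn, ih]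
    ring

theorem innerLarge (h : ExpSum) : InnerLarge := by
  obtain ⟨c, ε, X0, hc, hε, H⟩ := h
  set c' := min c (3 / 400) / 2 with hc'
  have hc'pos : 0 < c' := by
    have : 0 < min c (3 / 400) := lt_min hc (by norm_num)
    (clear * - hc' this; linarith)
  have hc1 : 2 * c' ≤ c := by
    have : min c (3 / 400) ≤ c := min_le_left _ _
    linarith
  have hc2 : 2 * c' ≤ 3 / 400 := by
    have : min c (3 / 400) ≤ 3 / 400 := min_le_right _ _
    linarith
  refine ⟨c', min ε (1 / 2), max (max X0 2) ((42 : ℝ) ^ (1 / c')), hc'pos,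
    lt_min hε (by norm_num), fun X hX d hd hdX s hs1 hs2 ht1 ht2 => ?_⟩
  have hXX0 : X0 ≤ X := (le_max_left _ _).trans ((le_max_left _ _).trans hX)
  have hX2 : 2 ≤ X := (le_max_right _ _).trans ((le_max_left _ _).trans hX)
  have hX42 : (42 : ℝ) ^ (1 / c') ≤ X := (le_max_right _ _).trans hX
  have hX1 : 1 < X := by (clear * - hc'pos hc2 hX2; linarith)
  have hX0 : 0 < X := by (clear * - hc'pos hc2 hX2; linarith)
  set L := Real.log X with hLdef
  have hLpos : 0 < L := Real.log_pos hX1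
  have hd0 : (0 : ℝ) < d := by exact_mod_cast hd
  have hre : 1 / 2 ≤ s.re := by
    have : min ε (1 / 2) ≤ 1 / 2 := min_le_right _ _
    (clear * - hs1 this; linarith)
  have hreε : 1 - ε ≤ s.re := by
    have : min ε (1 / 2) ≤ ε := min_le_left _ _
    (clear * - hs1 this; linarith)
  set M := ⌊X⌋₊ with hM
  set M0 := ⌈X ^ (3 / 200 : ℝ)⌉₊ with hM0
  have hM0X : X ^ (3 / 200 : ℝ) ≤ M0 := Nat.le_ceil _
  have hP1 : 1 ≤ X ^ (3 / 200 : ℝ) := Real.one_le_rpow hX1.le (by norm_num)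
  have hM01 : 1 ≤ M0 := by
    have : (1 : ℝ) ≤ M0 := hP1.trans hM0X
    exact_mod_cast this
  have hM0M : M0 ≤ M := by
    rw [hM, Nat.le_floor_iff hX0.le]
    have h1 : (M0 : ℝ) < X ^ (3 / 200 : ℝ) + 1 := Nat.ceil_lt_add_one (by positivity)
    -- X ^ (3/200) + 1 ≤ X since X ≥ 42 ^ (1 / c')
    have h42 : (42 : ℝ) ≤ X := by
      have h2 : (42 : ℝ) ^ (1 : ℝ) ≤ (42 : ℝ) ^ (1 / c') := by
        apply Real.rpow_le_rpow_of_exponent_le (by norm_num)
        rw [le_div_iff₀ hc'pos]; (clear * - hc'pos hc2; linarith)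
      rw [Real.rpow_one] at h2
      exact h2.trans hX42
    have h3 : X ^ (3 / 200 : ℝ) ≤ X ^ (1 / 2 : ℝ) :=
      Real.rpow_le_rpow_of_exponent_le hX1.le (by norm_num)
    have h4 : X ^ (1 / 2 : ℝ) * X ^ (1 / 2 : ℝ) = X := by
      rw [← Real.rpow_add hX0]; norm_num
    have h5 : 2 ≤ X ^ (1 / 2 : ℝ) := by
      by_contra hcon
      push Not at hcon
      have h6 : 0 ≤ X ^ (1 / 2 : ℝ) := by positivity
      (clear * - hc2 h1 h42 h4 hcon hc'pos hM0X hP1 h3; nlinarith)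
    (clear * - h42 h3 h4 hc'pos hc2 h1 hP1; nlinarith)
  have hMX : (M : ℝ) ≤ X := Nat.floor_le hX0.le
  -- vanishing for small m
  have hz : ∀ m : ℕ, 1 ≤ m → m < M0 → trap X ((d : ℝ) * m) = 0 := by
    intro m hm1 hm
    have hm0 : (0 : ℝ) < m := by exact_mod_cast hm1
    have hmX : (m : ℝ) ≤ X ^ (3 / 200 : ℝ) := (Nat.lt_ceil.1 hm).le
    apply trap_zero
    rw [← hLdef, div_le_iff₀ hLpos]
    have h1 : (d : ℝ) * m ≤ X ^ (1 / 40 : ℝ) := by
      calc (d : ℝ) * m ≤ X ^ (1 / 100 : ℝ) * X ^ (3 / 200 : ℝ) :=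
            mul_le_mul hdX hmX hm0.le (Real.rpow_nonneg hX0.le _)
        _ = X ^ (1 / 40 : ℝ) := by rw [← Real.rpow_add hX0]; norm_num
    calc Real.log ((d : ℝ) * m) ≤ Real.log (X ^ (1 / 40 : ℝ)) :=
          Real.log_le_log (by positivity) h1
      _ = 1 / 40 * L := by rw [Real.log_rpow hX0]
  set w : ℕ → ℂ := fun m => (trap X ((d : ℝ) * m) : ℂ) with hw
  set a : ℕ → ℂ := fun m => (m : ℂ) ^ (-s) with ha
  have hwle : ∀ m, ‖w m‖ ≤ 1 := by
    intro m
    simp only [hw]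
    rw [Complex.norm_real, Real.norm_of_nonneg (trap_nonneg _ _)]
    exact trap_le_one _ _
  -- splitting
  have hsplit : ∑ m ∈ Icc 1 M, w m * a m = w M0 * a M0 + ∑ m ∈ Ioc M0 M, w m * a m := by
    have e1 : Icc 1 M = Ico 1 M0 ∪ Icc M0 M := by
      ext k; simp only [mem_Icc, mem_union, mem_Ico]; omega
    have e2 : Icc M0 M = insert M0 (Ioc M0 M) := by
      ext k; simp only [mem_Icc, mem_insert, mem_Ioc]; omega
    rw [e1, Finset.sum_union, e2, Finset.sum_insert (by simp)]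
    · have e3 : ∑ m ∈ Ico 1 M0, w m * a m = 0 := by
        refine Finset.sum_eq_zero fun m hm => ?_
        rw [mem_Ico] at hm
        simp only [hw]
        rw [hz m hm.1 hm.2]; simp
      rw [e3, zero_add]
    · rw [Finset.disjoint_left]
      intro k hk hk'
      rw [mem_Ico] at hk
      rw [mem_Icc] at hk'
      omega
  -- partial sums
  have hA : ∀ k, M0 ≤ k → k ≤ M → ‖∑ m ∈ Ioc M0 k, a m‖ ≤ X ^ (-c) := by
    intro k hk1 hk2
    have h1 := H X hXX0 s.im ht1 ht2 M0 k hM0X hk1 ?_ s.re hreε hs2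
    · rw [Complex.re_add_im] at h1
      exact h1
    · calc (k : ℝ) ≤ M := by exact_mod_cast hk2
        _ ≤ X := hMX
        _ = X ^ (1 : ℝ) := (Real.rpow_one X).symm
        _ ≤ X ^ (4 : ℝ) := Real.rpow_le_rpow_of_exponent_le hX1.le (by norm_num)
  have hXc : 0 < X ^ (-c) := Real.rpow_pos_of_pos hX0 _
  have hmain : ‖∑ m ∈ Ioc M0 M, w m * a m‖ ≤ 41 * X ^ (-c) := by
    rw [abel_sum w a M0 M hM0M]
    refine (norm_sub_le _ _).trans ?_
    have h1 : ‖w M * ∑ m ∈ Ioc M0 M, a m‖ ≤ 1 * X ^ (-c) := by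
      rw [norm_mul]
      exact mul_le_mul (hwle M) (hA M hM0M le_rfl) (norm_nonneg _) (by norm_num)
    have h2 : ‖∑ k ∈ Ico M0 M, (w (k + 1) - w k) * ∑ m ∈ Ioc M0 k, a m‖ ≤ 40 * X ^ (-c) := by
      calc ‖∑ k ∈ Ico M0 M, (w (k + 1) - w k) * ∑ m ∈ Ioc M0 k, a m‖
          ≤ ∑ k ∈ Ico M0 M, 40 / L * (Real.log ((k + 1 : ℕ) : ℝ) - Real.log (k : ℝ)) * X ^ (-c) := by
            refine norm_sum_le_of_le _ fun k hk => ?_
            rw [mem_Ico] at hk
            have hk0 : (0 : ℝ) < k := by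
              have : 1 ≤ k := hM01.trans hk.1
              exact_mod_cast this
            have hk1 : (0 : ℝ) < ((k + 1 : ℕ) : ℝ) := by positivity
            rw [norm_mul]
            refine mul_le_mul ?_ (hA k hk.1 hk.2.le) (norm_nonneg _) ?_
            · simp only [hw]
              rw [← Complex.ofReal_sub, Complex.norm_real, Real.norm_eq_abs]
              refine (trap_lip hLpos).trans_eq ?_
              rw [Real.log_mul hd0.ne' hk1.ne', Real.log_mul hd0.ne' hk0.ne', ← hLdef]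
              congr 1
              rw [add_sub_add_left_eq_sub, abs_of_nonneg]
              rw [sub_nonneg]
              exact Real.log_le_log hk0 (by push_cast; (clear * - hc'pos hc2; linarith))
            · refine mul_nonneg (by positivity) ?_
              rw [sub_nonneg]
              exact Real.log_le_log hk0 (by push_cast; (clear * - hc'pos hc2; linarith))
        _ = 40 / L * (Real.log (M : ℝ) - Real.log (M0 : ℝ)) * X ^ (-c) := by
            rw [← Finset.sum_mul, ← Finset.mul_sum]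
            congr 2
            exact Finset.sum_Ico_sub (fun k : ℕ => Real.log (k : ℝ)) hM0M
        _ ≤ 40 * X ^ (-c) := by
            refine mul_le_mul_of_nonneg_right ?_ hXc.le
            have h3 : Real.log (M : ℝ) ≤ L :=
              Real.log_le_log (by exact_mod_cast hM01.trans hM0M) hMX
            have h4 : 0 ≤ Real.log (M0 : ℝ) := Real.log_nonneg (by exact_mod_cast hM01)
            calc 40 / L * (Real.log (M : ℝ) - Real.log (M0 : ℝ)) ≤ 40 / L * L :=
                  mul_le_mul_of_nonneg_left (by (clear * - h3 h4; linarith)) (by positivity)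
              _ = 40 := by field_simp
    (clear * - h1 h2; linarith)
  have hfirst : ‖w M0 * a M0‖ ≤ X ^ (-(2 * c')) := by
    rw [norm_mul]
    have h1 : ‖a M0‖ ≤ X ^ (-(2 * c')) := by
      have hM0pos : (0 : ℝ) < M0 := by exact_mod_cast hM01
      have h2 : a M0 = ((M0 : ℝ) : ℂ) ^ (-s) := by simp [ha]
      rw [h2, Complex.norm_cpow_eq_rpow_re_of_pos hM0pos, Complex.neg_re]
      calc (M0 : ℝ) ^ (-s.re) ≤ (M0 : ℝ) ^ (-(1 / 2) : ℝ) :=
            Real.rpow_le_rpow_of_exponent_le (by exact_mod_cast hM01) (by (clear * - hre; linarith))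
        _ ≤ (X ^ (3 / 200 : ℝ)) ^ (-(1 / 2) : ℝ) :=
            Real.rpow_le_rpow_of_nonpos (by positivity) hM0X (by norm_num)
        _ = X ^ (-(3 / 400) : ℝ) := by rw [← Real.rpow_mul hX0.le]; norm_num
        _ ≤ X ^ (-(2 * c')) := Real.rpow_le_rpow_of_exponent_le hX1.le (by (clear * - hc2; linarith))
    calc ‖w M0‖ * ‖a M0‖ ≤ 1 * X ^ (-(2 * c')) :=
          mul_le_mul (hwle M0) h1 (norm_nonneg _) (by norm_num)
      _ = _ := one_mul _
  have hXc2 : X ^ (-c) ≤ X ^ (-(2 * c')) :=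
    Real.rpow_le_rpow_of_exponent_le hX1.le (by (clear * - hc1; linarith))
  have h42 : 42 * X ^ (-(2 * c')) ≤ X ^ (-c') := by
    have h1 : (42 : ℝ) ≤ X ^ c' := by
      calc (42 : ℝ) = ((42 : ℝ) ^ (1 / c')) ^ c' := by
            rw [← Real.rpow_mul (by norm_num), one_div, inv_mul_cancel₀ hc'pos.ne', Real.rpow_one]
        _ ≤ X ^ c' := Real.rpow_le_rpow (by positivity) hX42 hc'pos.le
    calc 42 * X ^ (-(2 * c')) ≤ X ^ c' * X ^ (-(2 * c')) :=
          mul_le_mul_of_nonneg_right h1 (Real.rpow_nonneg hX0.le _)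
      _ = X ^ (-c') := by rw [← Real.rpow_add hX0]; ring_nf
  have hgoal : ∑ m ∈ Icc 1 M, (trap X ((d : ℝ) * m) : ℂ) * (m : ℂ) ^ (-s)
      = w M0 * a M0 + ∑ m ∈ Ioc M0 M, w m * a m := hsplit
  rw [hgoal]
  calc ‖w M0 * a M0 + ∑ m ∈ Ioc M0 M, w m * a m‖
      ≤ ‖w M0 * a M0‖ + ‖∑ m ∈ Ioc M0 M, w m * a m‖ := norm_add_le _ _
    _ ≤ X ^ (-(2 * c')) + 41 * X ^ (-c) := add_le_add hfirst hmain
    _ ≤ 42 * X ^ (-(2 * c')) := by (clear * - hXc2; linarith)
    _ ≤ X ^ (-c') := h42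

end Pool.Agent.M17.Helper7.KSZ
end

/- Helper53.KN.Helper85.KSZ.N1a -/
section
/-!
KSZ-N1a: the algebra of the Brun-Hooley weights.
-/

set_option autoImplicit false

open Finset

namespace Pool.Agent.M17.Helper85.KSZ

open Pool.Agent.M17.Helper18.KSZ
open Pool.Agent.M17.Helper44 (nb zs tr)
open Pool.Agent.M17.Helper96.CPAP (pb pU mem_pb mem_pU pb_disjoint biUnion_pb)

/-- splitting a sum over subsets of a disjoint union -/
theorem sum_powerset_split (S B : Finset ℕ) (f : Finset ℕ → ℝ) :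
    ∑ s ∈ S.powerset, f s =
      ∑ t ∈ (S ∩ B).powerset, ∑ u ∈ (S \ B).powerset, f (u ∪ t) := by
  rw [← Finset.sum_product']
  symm
  refine Finset.sum_nbij' (fun x => x.2 ∪ x.1) (fun s => (s ∩ B, s \ B)) ?_ ?_ ?_ ?_ ?_
  · rintro ⟨t, u⟩ h
    rw [Finset.mem_product, Finset.mem_powerset, Finset.mem_powerset] at h
    rw [Finset.mem_powerset]
    exact Finset.union_subset (h.2.trans Finset.sdiff_subset) (h.1.trans Finset.inter_subset_left)
  · intro s hs
    rw [Finset.mem_powerset] at hs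
    rw [Finset.mem_product, Finset.mem_powerset, Finset.mem_powerset]
    exact ⟨Finset.inter_subset_inter_right hs, Finset.sdiff_subset_sdiff hs (Finset.Subset.refl _)⟩
  · rintro ⟨t, u⟩ h
    rw [Finset.mem_product, Finset.mem_powerset, Finset.mem_powerset] at h
    have h1 : ∀ a ∈ t, a ∈ B := fun a ha => (Finset.mem_inter.mp (h.1 ha)).2
    have h2 : ∀ a ∈ u, a ∉ B := fun a ha => (Finset.mem_sdiff.mp (h.2 ha)).2
    ext a
    · simp only [Finset.mem_inter, Finset.mem_union]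
      constructor
      · rintro ⟨h3 | h3, h4⟩
        · exact absurd h4 (h2 a h3)
        · exact h3
      · intro h3
        exact ⟨Or.inr h3, h1 a h3⟩
    · simp only [Finset.mem_sdiff, Finset.mem_union]
      constructor
      · rintro ⟨h3 | h3, h4⟩
        · exact h3
        · exact absurd (h1 a h3) h4
      · intro h3
        exact ⟨Or.inl h3, h2 a h3⟩
  · intro s _
    ext a
    simp only [Finset.mem_inter, Finset.mem_union, Finset.mem_sdiff]
    tauto
  · rintro ⟨t, u⟩ _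
    rfl

/-- sums over subsets factor over disjoint blocks -/
theorem sum_powerset_blocks (B : ℕ → Finset ℕ) (hB : ∀ i j, i ≠ j → Disjoint (B i) (B j))
    (g : ℕ → ℕ → ℝ) (k : ℕ) : ∀ S : Finset ℕ, (∀ a ∈ S, ∃ j < k, a ∈ B j) →
    ∑ s ∈ S.powerset, ∏ j ∈ range k, g j (s ∩ B j).card =
      ∏ j ∈ range k, ∑ t ∈ (S ∩ B j).powerset, g j t.card := by
  induction k with
  | zero =>
    intro S hS
    have : S = ∅ := by
      rw [Finset.eq_empty_iff_forall_notMem]
      intro a ha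
      obtain ⟨j, hj, _⟩ := hS a ha
      omega
    subst this
    simp
  | succ k ih =>
    intro S hS
    rw [sum_powerset_split S (B k), Finset.prod_range_succ]
    have h1 : ∀ t ∈ (S ∩ B k).powerset, ∀ u ∈ (S \ B k).powerset,
        ∏ j ∈ range (k + 1), g j ((u ∪ t) ∩ B j).card =
          g k t.card * ∏ j ∈ range k, g j (u ∩ B j).card := by
      intro t ht u hu
      rw [Finset.mem_powerset] at ht hu
      rw [Finset.prod_range_succ, mul_comm]
      congr 1
      · congr 2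
        ext a
        simp only [Finset.mem_inter, Finset.mem_union]
        constructor
        · rintro ⟨h3 | h3, h4⟩
          · exact absurd h4 (Finset.mem_sdiff.mp (hu h3)).2
          · exact h3
        · intro h3
          exact ⟨Or.inr h3, (Finset.mem_inter.mp (ht h3)).2⟩
      · apply Finset.prod_congr rfl
        intro j hj
        rw [Finset.mem_range] at hj
        congr 2
        ext a
        simp only [Finset.mem_inter, Finset.mem_union]
        constructor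
        · rintro ⟨h3 | h3, h4⟩
          · exact ⟨h3, h4⟩
          · exfalso
            exact Finset.disjoint_left.mp (hB j k (by omega)) h4 (Finset.mem_inter.mp (ht h3)).2
        · rintro ⟨h3, h4⟩
          exact ⟨Or.inl h3, h4⟩
    rw [Finset.sum_congr rfl (fun t ht => Finset.sum_congr rfl (h1 t ht))]
    simp only [← Finset.mul_sum]
    rw [← Finset.sum_mul]
    rw [ih (S \ B k) (by
      intro a ha
      rw [Finset.mem_sdiff] at ha
      obtain ⟨j, hj, haj⟩ := hS a ha.1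
      refine ⟨j, ?_, haj⟩
      rcases Nat.lt_succ_iff_lt_or_eq.mp hj with h | h
      · exact h
      · subst h
        exact absurd haj ha.2)]
    rw [mul_comm]
    congr 1
    apply Finset.prod_congr rfl
    intro j hj
    rw [Finset.mem_range] at hj
    have : (S \ B k) ∩ B j = S ∩ B j := by
      ext a
      simp only [Finset.mem_inter, Finset.mem_sdiff]
      constructor
      · rintro ⟨⟨h3, _⟩, h5⟩
        exact ⟨h3, h5⟩
      · rintro ⟨h3, h5⟩
        exact ⟨⟨h3, fun h6 => Finset.disjoint_left.mp (hB j k (by omega)) h5 h6⟩, h5⟩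
    rw [this]

theorem sum_divisors_sqf {n : ℕ} (hn : 0 < n) (f : ℕ → ℝ) (hf : ∀ d, ¬ Squarefree d → f d = 0) :
    ∑ d ∈ n.divisors, f d = ∑ t ∈ n.primeFactors.powerset, f (∏ p ∈ t, p) := by
  classical
  rw [← Finset.sum_filter_of_ne (p := Squarefree) (fun d _ hd => by
    by_contra h
    exact hd (hf d h))]
  refine Finset.sum_nbij' (fun d => d.primeFactors) (fun t => ∏ p ∈ t, p) ?_ ?_ ?_ ?_ ?_
  · intro d hd
    rw [Finset.mem_filter, Nat.mem_divisors] at hd
    rw [Finset.mem_powerset]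
    exact Nat.primeFactors_mono hd.1.1 hd.1.2
  · intro t ht
    rw [Finset.mem_powerset] at ht
    have hp : ∀ p ∈ t, p.Prime := fun p hp => (Nat.mem_primeFactors.mp (ht hp)).1
    rw [Finset.mem_filter, Nat.mem_divisors]
    refine ⟨⟨?_, hn.ne'⟩, ?_⟩
    · exact (Finset.prod_dvd_prod_of_subset t n.primeFactors (fun p => p) ht).trans
        (Nat.prod_primeFactors_dvd n)
    · rw [Nat.squarefree_iff_prime_squarefree]
      intro q hq hqq
      have h1 : (∏ p ∈ t, p).primeFactors = t := Nat.primeFactors_prod hp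
      have h2 : q ∈ t := by
        rw [← h1]
        refine Nat.mem_primeFactors.mpr ⟨hq, (dvd_mul_left q q).trans hqq, ?_⟩
        exact Finset.prod_ne_zero_iff.mpr fun p hp' => (hp p hp').ne_zero
      rw [← Finset.mul_prod_erase t (fun p => p) h2] at hqq
      have h3 : q ∣ ∏ p ∈ t.erase q, p := Nat.dvd_of_mul_dvd_mul_left hq.pos hqq
      rw [Prime.dvd_finsetProd_iff hq.prime] at h3
      obtain ⟨p, hp', hqp⟩ := h3
      have h4 := (Nat.prime_dvd_prime_iff_eq hq (hp p (Finset.mem_of_mem_erase hp'))).mp hqp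
      exact Finset.ne_of_mem_erase hp' h4.symm
  · intro d hd
    rw [Finset.mem_filter] at hd
    exact Nat.prod_primeFactors_of_squarefree hd.2
  · intro t ht
    rw [Finset.mem_powerset] at ht
    exact Nat.primeFactors_prod fun p hp => (Nat.mem_primeFactors.mp (ht hp)).1
  · intro d hd
    rw [Finset.mem_filter] at hd
    rw [Nat.prod_primeFactors_of_squarefree hd.2]

theorem lamE_sqf (b : ℕ) (w : ℝ) (d : ℕ) (hd : ¬ Squarefree d) : lamE b w d = 0 := by
  unfold lamE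
  rw [ArithmeticFunction.moebius_eq_zero_of_not_squarefree hd]
  simp

theorem mem_union_pb {w : ℝ} (hw : 2 ≤ w) {p : ℕ} (hp : p.Prime) (hpw : (p : ℝ) ≤ w) :
    ∃ j < nb w, p ∈ pb Nat.Prime w j := by
  have h : p ∈ pU Nat.Prime w := (mem_pU (fun _ h => h) (by linarith)).mpr ⟨hp, hpw⟩
  rw [← biUnion_pb (fun _ h => h) hw, Finset.mem_biUnion] at h
  obtain ⟨j, _, hj⟩ := h
  exact ⟨j, j.2, hj⟩

theorem le_of_mem_pb {w : ℝ} (hw : 2 ≤ w) {p j : ℕ} (h : p ∈ pb Nat.Prime w j) :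
    (p : ℝ) ≤ zs w j := by
  rw [mem_pb] at h
  exact (Nat.le_floor_iff (Helper44.zs_pos (by (clear * - hw; linarith)) j).le).mp h.1.2

theorem zs_le {w : ℝ} (hw : 2 ≤ w) (j : ℕ) : zs w j ≤ w := by
  have := Helper44.zs_anti (w := w) (by linarith) (Nat.zero_le j)
  rwa [Helper44.zs_zero] at this

theorem card_eq_sum_pb {w : ℝ} (hw : 2 ≤ w) (t : Finset ℕ)
    (ht : ∀ p ∈ t, p.Prime ∧ (p : ℝ) ≤ w) :
    t = (range (nb w)).biUnion (fun j => t ∩ pb Nat.Prime w j) := by
  ext p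
  rw [Finset.mem_biUnion]
  constructor
  · intro hp
    obtain ⟨j, hj, hpj⟩ := mem_union_pb hw (ht p hp).1 (ht p hp).2
    exact ⟨j, Finset.mem_range.mpr hj, Finset.mem_inter.mpr ⟨hp, hpj⟩⟩
  · rintro ⟨j, _, hj⟩
    exact (Finset.mem_inter.mp hj).1

theorem disj_pb {w : ℝ} (hw : 2 ≤ w) (t : Finset ℕ) :
    ((range (nb w) : Finset ℕ) : Set ℕ).PairwiseDisjoint (fun j => t ∩ pb Nat.Prime w j) := by
  intro i _ j _ hij
  exact Disjoint.mono Finset.inter_subset_right Finset.inter_subset_right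
    (pb_disjoint (by linarith) hij)

theorem bet_eq (b : ℕ) {w : ℝ} (hw : 2 ≤ w) {n : ℕ} (hn : 0 < n) :
    bet (lamE b w) n = ∏ j ∈ range (nb w),
      tr (n.primeFactors ∩ pb Nat.Prime w j) (2 * (b + j)) (fun _ => 1) := by
  classical
  unfold bet
  rw [sum_divisors_sqf hn _ (lamE_sqf b w)]
  set S : Finset ℕ := n.primeFactors.filter (fun p => (p : ℝ) ≤ w) with hS
  have hSsub : S.powerset ⊆ n.primeFactors.powerset :=
    Finset.powerset_mono.mpr (Finset.filter_subset _ _)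
  rw [← Finset.sum_subset hSsub]
  · have hterm : ∀ t ∈ S.powerset, lamE b w (∏ p ∈ t, p) =
        ∏ j ∈ range (nb w), (fun (j c : ℕ) => if c ≤ 2 * (b + j) then (-1 : ℝ) ^ c else 0) j
          (t ∩ pb Nat.Prime w j).card := by
      intro t ht
      rw [Finset.mem_powerset] at ht
      have hp : ∀ p ∈ t, p.Prime := fun p hp =>
        (Nat.mem_primeFactors.mp (Finset.mem_filter.mp (ht hp)).1).1
      have hpw : ∀ p ∈ t, (p : ℝ) ≤ w := fun p hp => (Finset.mem_filter.mp (ht hp)).2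
      have hpf : (∏ p ∈ t, p).primeFactors = t := Nat.primeFactors_prod hp
      have hpos : 0 < ∏ p ∈ t, p := Finset.prod_pos fun p h => (hp p h).pos
      have hsm : smooth w (∏ p ∈ t, p) := by
        intro q hq hqd
        have : q ∈ t := by
          rw [← hpf]
          exact Nat.mem_primeFactors.mpr ⟨hq, hqd, hpos.ne'⟩
        exact hpw q this
      have hsq : Squarefree (∏ p ∈ t, p) := by
        rw [Nat.squarefree_iff_prime_squarefree]
        intro q hq hqq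
        have h2 : q ∈ t := by
          rw [← hpf]
          exact Nat.mem_primeFactors.mpr ⟨hq, (dvd_mul_left q q).trans hqq, hpos.ne'⟩
        rw [← Finset.mul_prod_erase t (fun p => p) h2] at hqq
        have h3 : q ∣ ∏ p ∈ t.erase q, p := Nat.dvd_of_mul_dvd_mul_left hq.pos hqq
        rw [Prime.dvd_finsetProd_iff hq.prime] at h3
        obtain ⟨p, hp', hqp⟩ := h3
        have h4 := (Nat.prime_dvd_prime_iff_eq hq (hp p (Finset.mem_of_mem_erase hp'))).mp hqp
        exact Finset.ne_of_mem_erase hp' h4.symm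
      have hmu : (ArithmeticFunction.moebius (∏ p ∈ t, p) : ℝ) = (-1 : ℝ) ^ t.card := by
        rw [ArithmeticFunction.moebius_apply_of_squarefree hsq]
        have : ArithmeticFunction.cardFactors (∏ p ∈ t, p) = t.card := by
          rw [← (ArithmeticFunction.cardDistinctFactors_eq_cardFactors_iff_squarefree hpos.ne').mpr hsq]
          rw [ArithmeticFunction.cardDistinctFactors_apply, ← List.card_toFinset]
          change (∏ p ∈ t, p).primeFactors.card = t.card
          rw [hpf]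
        rw [this]
        push_cast
        rfl
      have hcard : t.card = ∑ j ∈ range (nb w), (t ∩ pb Nat.Prime w j).card := by
        conv_lhs => rw [card_eq_sum_pb hw t (fun p h => ⟨hp p h, hpw p h⟩)]
        exact Finset.card_biUnion (fun i hi j hj hij => disj_pb hw t (by exact_mod_cast hi)
          (by exact_mod_cast hj) hij)
      unfold lamE
      rw [hpf, hmu, hcard]
      by_cases hall : ∀ j < nb w, (t ∩ pb Nat.Prime w j).card ≤ 2 * (b + j)
      · rw [if_pos ⟨hpos, hsm, hall⟩, ← Finset.prod_pow_eq_pow_sum]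
        apply Finset.prod_congr rfl
        intro j hj
        simp only [hall j (Finset.mem_range.mp hj), if_true]
      · rw [if_neg (fun h => hall h.2.2)]
        push Not at hall
        obtain ⟨j, hj, hlt⟩ := hall
        symm
        apply Finset.prod_eq_zero (Finset.mem_range.mpr hj)
        simp only [not_le.mpr hlt, if_false]
    rw [Finset.sum_congr rfl hterm]
    refine (sum_powerset_blocks (fun j => pb Nat.Prime w j)
      (fun i j hij => pb_disjoint (by (clear * - hw; linarith)) hij)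
      (fun (j c : ℕ) => if c ≤ 2 * (b + j) then (-1 : ℝ) ^ c else 0) (nb w) S (by
        intro p hp
        rw [hS, Finset.mem_filter] at hp
        exact mem_union_pb hw (Nat.mem_primeFactors.mp hp.1).1 hp.2)).trans ?_
    apply Finset.prod_congr rfl
    intro j _
    have hinter : S ∩ pb Nat.Prime w j = n.primeFactors ∩ pb Nat.Prime w j := by
      ext p
      rw [Finset.mem_inter, Finset.mem_inter, hS, Finset.mem_filter]
      constructor
      · rintro ⟨⟨h1, _⟩, h3⟩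
        exact ⟨h1, h3⟩
      · rintro ⟨h1, h3⟩
        exact ⟨⟨h1, (le_of_mem_pb hw h3).trans (zs_le hw j)⟩, h3⟩
    rw [hinter]
    unfold tr
    apply Finset.sum_congr rfl
    intro t _
    simp
  · intro t ht ht'
    rw [Finset.mem_powerset] at ht
    have hp : ∀ p ∈ t, p.Prime := fun p hp => (Nat.mem_primeFactors.mp (ht hp)).1
    have hpf : (∏ p ∈ t, p).primeFactors = t := Nat.primeFactors_prod hp
    unfold lamE
    rw [if_neg]
    rintro ⟨_, hsm, _⟩
    apply ht'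
    rw [Finset.mem_powerset]
    intro p hpt
    rw [hS, Finset.mem_filter]
    exact ⟨ht hpt, hsm p (hp p hpt) (Finset.dvd_prod_of_mem (fun p => p) hpt)⟩

theorem tr_nonneg (A : Finset ℕ) (m : ℕ) : 0 ≤ tr A (2 * m) (fun _ => 1) := by
  have h := Helper44.prod_le_tr_even A (fun _ => 1) (fun _ _ => ⟨zero_le_one, le_rfl⟩) (2 * m)
    (even_two_mul m)
  refine le_trans ?_ h
  exact Finset.prod_nonneg fun _ _ => by simp

theorem tr_le (A : Finset ℕ) (m : ℕ) : tr A m (fun _ => 1) ≤ (2 : ℝ) ^ A.card := by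
  unfold tr
  have h1 : ∀ t ∈ A.powerset,
      (if t.card ≤ m then (-1 : ℝ) ^ t.card * ∏ _i ∈ t, (1 : ℝ) else 0) ≤ 1 := by
    intro t _
    split_ifs
    · rw [Finset.prod_const_one, mul_one]
      rcases neg_one_pow_eq_or ℝ t.card with h | h <;> rw [h]
      norm_num
    · norm_num
  refine (Finset.sum_le_sum h1).trans ?_
  rw [Finset.sum_const, Finset.card_powerset]
  simp

theorem tr_zero_of_le (A : Finset ℕ) (m : ℕ) (hA : A.card ≠ 0) (hm : A.card ≤ m) :
    tr A m (fun _ => 1) = 0 := by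
  unfold tr
  have h1 : ∀ t ∈ A.powerset,
      (if t.card ≤ m then (-1 : ℝ) ^ t.card * ∏ _i ∈ t, (1 : ℝ) else 0) = (-1 : ℝ) ^ t.card := by
    intro t ht
    rw [Finset.mem_powerset] at ht
    rw [if_pos ((Finset.card_le_card ht).trans hm), Finset.prod_const_one, mul_one]
  rw [Finset.sum_congr rfl h1]
  have hne : A.Nonempty := Finset.card_ne_zero.mp hA
  have h2 := Finset.sum_powerset_neg_one_pow_card_of_nonempty hne
  have h3 : ((∑ m ∈ A.powerset, (-1 : ℤ) ^ m.card : ℤ) : ℝ) = 0 := by rw [h2]; simp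
  push_cast at h3
  exact h3

/-- N1a -/
theorem lamBasic : LamBasic := by
  intro b w hw
  have hw1 : (1 : ℝ) ≤ w := by linarith
  refine ⟨?_, ?_, ?_, ?_, ?_⟩
  · unfold lamE
    rw [if_pos]
    · simp
    · refine ⟨one_pos, ?_, ?_⟩
      · intro p hp hd
        exact absurd (Nat.dvd_one.mp hd) hp.one_lt.ne'
      · intro j _
        simp
  · intro d
    unfold lamE
    split_ifs
    · have := ArithmeticFunction.abs_moebius_le_one (n := d)
      exact_mod_cast this
    · simp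
  · intro d hd
    have hcond : 0 < d ∧ smooth w d ∧ ∀ j < nb w,
        (d.primeFactors ∩ pb Nat.Prime w j).card ≤ 2 * (b + j) := by
      by_contra h
      apply hd
      unfold lamE
      rw [if_neg h]
    refine ⟨hcond.1, hcond.2.1, ?_⟩
    have hsq : Squarefree d := by
      by_contra h
      exact hd (lamE_sqf b w d h)
    have hmem : ∀ p ∈ d.primeFactors, p.Prime ∧ (p : ℝ) ≤ w := by
      intro p hp
      rw [Nat.mem_primeFactors] at hp
      exact ⟨hp.1, hcond.2.1 p hp.1 hp.2.1⟩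
    have h1 : (d : ℝ) = ∏ p ∈ d.primeFactors, (p : ℝ) := by
      conv_lhs => rw [← Nat.prod_primeFactors_of_squarefree hsq]
      push_cast
      rfl
    have h2 : ∏ p ∈ d.primeFactors, (p : ℝ) =
        ∏ j ∈ range (nb w), ∏ p ∈ d.primeFactors ∩ pb Nat.Prime w j, (p : ℝ) := by
      conv_lhs => rw [card_eq_sum_pb hw _ hmem]
      exact Finset.prod_biUnion (disj_pb hw _)
    have h3 : ∀ j ∈ range (nb w), ∏ p ∈ d.primeFactors ∩ pb Nat.Prime w j, (p : ℝ) ≤
        w ^ ((1 / 2 : ℝ) ^ j * (2 * ((b : ℝ) + j))) := by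
      intro j hj
      rw [Finset.mem_range] at hj
      have hz1 : 1 ≤ zs w j := Helper44.one_le_zs hw1 j
      calc ∏ p ∈ d.primeFactors ∩ pb Nat.Prime w j, (p : ℝ)
          ≤ ∏ _p ∈ d.primeFactors ∩ pb Nat.Prime w j, zs w j := by
            apply Finset.prod_le_prod
            · intro p _
              exact Nat.cast_nonneg p
            · intro p hp
              exact le_of_mem_pb hw (Finset.mem_inter.mp hp).2
        _ = zs w j ^ (d.primeFactors ∩ pb Nat.Prime w j).card := by rw [Finset.prod_const]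
        _ ≤ zs w j ^ (2 * (b + j)) := pow_le_pow_right₀ hz1 (hcond.2.2 j hj)
        _ = w ^ ((1 / 2 : ℝ) ^ j * (2 * ((b : ℝ) + j))) := by
            unfold zs
            rw [← Real.rpow_natCast, ← Real.rpow_mul (by (clear * - hw; linarith))]
            push_cast
            rfl
    rw [h1, h2]
    refine (Finset.prod_le_prod (fun j _ => Finset.prod_nonneg fun p _ => Nat.cast_nonneg p) h3).trans ?_
    rw [← Real.rpow_sum_of_pos (by linarith)]
    apply Real.rpow_le_rpow_of_exponent_le hw1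
    have h4 := Helper44.sum_geo_le (nb w)
    have h5 := Helper44.sum_geo_mul_le (nb w)
    have h6 : ∑ j ∈ range (nb w), (1 / 2 : ℝ) ^ j * (2 * ((b : ℝ) + j)) =
        2 * b * ∑ j ∈ range (nb w), (1 / 2 : ℝ) ^ j +
          2 * ∑ j ∈ range (nb w), (j : ℝ) * (1 / 2 : ℝ) ^ j := by
      rw [Finset.mul_sum, Finset.mul_sum, ← Finset.sum_add_distrib]
      apply Finset.sum_congr rfl
      intro j _
      ring
    rw [h6]
    have hb : (0 : ℝ) ≤ b := Nat.cast_nonneg b
    push_cast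
    (clear * - h5 h4; nlinarith)
  · intro n hn
    rw [bet_eq b hw hn]
    exact Finset.prod_nonneg fun j _ => tr_nonneg _ _
  · intro n hn
    rw [bet_eq b hw hn]
    apply Finset.prod_le_prod
    · intro j _
      exact tr_nonneg _ _
    · intro j _
      unfold omB
      split_ifs with h1 h2
      · have h3 := tr_le (n.primeFactors ∩ pb Nat.Prime w j) (2 * (b + j))
        rw [h1, pow_zero] at h3
        exact h3
      · exact (tr_zero_of_le _ _ h1 h2).le
      · exact tr_le _ _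

end Pool.Agent.M17.Helper85.KSZ
end

/- Helper53.KN.Helper94.KSZ.N13 -/
section
/-!
Project KSZ, module N13: density with multiplicities.
-/

set_option autoImplicit false

open Finset

namespace Pool.Agent.M17.Helper94.KSZ

open Pool.Agent.M17.Helper18.KSZ

/-- a maximal spaced subset -/
theorem exists_maximal_spaced (Z : Finset ℂ) (δ : ℝ) :
    ∃ G ⊆ Z, (∀ ρ ∈ G, ∀ ρ' ∈ G, ρ ≠ ρ' → δ ≤ |ρ.im - ρ'.im|) ∧
      ∀ ρ ∈ Z, ρ ∈ G ∨ ∃ g ∈ G, |ρ.im - g.im| < δ := by
  classical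
  let P : Finset (Finset ℂ) := Z.powerset.filter
    (fun G => ∀ ρ ∈ G, ∀ ρ' ∈ G, ρ ≠ ρ' → δ ≤ |ρ.im - ρ'.im|)
  have hP : P.Nonempty := ⟨∅, by simp [P]⟩
  obtain ⟨G, hG, hmax⟩ := P.exists_max_image Finset.card hP
  simp only [P, mem_filter, mem_powerset] at hG hmax
  refine ⟨G, hG.1, hG.2, fun ρ hρ => ?_⟩
  by_contra hcon
  push Not at hcon
  obtain ⟨h1, h2⟩ := hcon
  have h3 := hmax (insert ρ G) ⟨insert_subset hρ hG.1, ?_⟩
  · rw [card_insert_of_notMem h1] at h3
    omega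
  · intro a ha b hb hab
    rw [mem_insert] at ha hb
    rcases ha with rfl | ha <;> rcases hb with rfl | hb
    · exact absurd rfl hab
    · exact h2 b hb
    · rw [abs_sub_comm]
      exact h2 a ha
    · exact hG.2 a ha b hb hab

theorem sum_biUnion_le_sum {α β : Type*} [DecidableEq α] [DecidableEq β] (s : Finset α)
    (t : α → Finset β) (f : β → ℝ) (hf : ∀ b, 0 ≤ f b) :
    ∑ b ∈ s.biUnion t, f b ≤ ∑ a ∈ s, ∑ b ∈ t a, f b := by
  induction s using Finset.induction_on with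
  | empty => simp
  | insert a s ha ih =>
    rw [biUnion_insert, sum_insert ha]
    have h1 := Finset.sum_union_inter (s₁ := t a) (s₂ := s.biUnion t) (f := f)
    have h2 : 0 ≤ ∑ b ∈ t a ∩ s.biUnion t, f b := Finset.sum_nonneg fun b _ => hf b
    (clear * - ih h1 h2; linarith)

theorem mz_nonneg (ρ : ℂ) : 0 ≤ mz ρ := Nat.cast_nonneg _

/-- N13 -/
theorem densityM (h9 : InA9) (h : Density) : DensityM := by
  classical
  obtain ⟨C9, hC9, h9⟩ := h9
  obtain ⟨ε, C, X0, hε, hC, h⟩ := h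
  refine ⟨min ε (1 / 20), 5 * C * C9, max X0 16, by (clear * - hε; positivity), by positivity, ?_⟩
  intro X hX c hc1 hc2 Z hZ
  have hX0 : X0 ≤ X := (le_max_left _ _).trans hX
  have hX16 : 16 ≤ X := (le_max_right _ _).trans hX
  have hXp : 0 < X := by (clear * - hX16; linarith)
  have hL1 : 1 ≤ Real.log X := by
    have h1 : Real.log 16 ≤ Real.log X := Real.log_le_log (by norm_num) hX16
    have h2 : Real.log 16 = 4 * Real.log 2 := by
      rw [show (16 : ℝ) = 2 ^ 4 by norm_num, Real.log_pow]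
      norm_num
    have h3 : 0.6931471803 < Real.log 2 := Real.log_two_gt_d9
    (clear * - h1 h2 h3; linarith)
  set L := Real.log X with hL
  have hLp : 0 < L := by (clear * - hL1; linarith)
  have hc3 : c ≤ ε * L := hc2.trans (mul_le_mul_of_nonneg_right (min_le_left _ _) hLp.le)
  have hc4 : c ≤ 1 / 20 * L := hc2.trans (mul_le_mul_of_nonneg_right (min_le_right _ _) hLp.le)
  obtain ⟨G, hGZ, hG1, hG2⟩ := exists_maximal_spaced Z (1 / L)
  have hcard : (G.card : ℝ) ≤ C * c ^ 5 * Real.exp (c / 2) :=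
    h X hX0 c hc1 hc3 G (fun ρ hρ => hZ ρ (hGZ hρ)) hG1
  have hX3 : 2 ≤ X ^ (3 / 10 : ℝ) := by
    calc (2 : ℝ) ≤ (16 : ℝ) ^ (3 / 10 : ℝ) := by
          rw [show (16 : ℝ) = (2 : ℝ) ^ (4 : ℝ) by norm_num, ← Real.rpow_mul (by norm_num)]
          calc (2 : ℝ) = (2 : ℝ) ^ (1 : ℝ) := by norm_num
            _ ≤ (2 : ℝ) ^ ((4 : ℝ) * (3 / 10)) :=
              Real.rpow_le_rpow_of_exponent_le (by norm_num) (by norm_num)
      _ ≤ X ^ (3 / 10 : ℝ) := Real.rpow_le_rpow (by norm_num) hX16 (by norm_num)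
  have hX6 : X ^ (6 / 10 : ℝ) ≤ X := by
    calc X ^ (6 / 10 : ℝ) ≤ X ^ (1 : ℝ) :=
          Real.rpow_le_rpow_of_exponent_le (by (clear * - hX16; linarith)) (by norm_num)
      _ = X := Real.rpow_one X
  have hcL : 0 < c / L := by positivity
  have hr : 2 * c / L ≤ 1 / 10 := by
    rw [div_le_iff₀ hLp]
    (clear * - hc4; linarith)
  -- the contribution of the points near g
  have hg : ∀ g ∈ G, ∑ ρ ∈ Z.filter (fun ρ => |ρ.im - g.im| < 1 / L), mz ρ ≤ 5 * C9 * c := by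
    intro g hgG
    obtain ⟨_, _, hg3, hg6⟩ := hZ g (hGZ hgG)
    have h1 := h9 g.im (2 * c / L) (hX3.trans hg3) (by positivity) hr
      (Z.filter (fun ρ => |ρ.im - g.im| < 1 / L)) ?_
    · refine h1.trans ?_
      have h2 : Real.log (|g.im| + 2) ≤ 2 * L := by
        have h3 : |g.im| + 2 ≤ X ^ 2 := by
          have := hg6.trans hX6
          (clear * - hX16 hX6 hg6; nlinarith)
        have h4 := Real.log_le_log (by (clear * -; positivity)) h3
        rw [Real.log_pow] at h4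
        exact_mod_cast h4
      have h5 : 2 * c / L * Real.log (|g.im| + 2) ≤ 4 * c := by
        calc 2 * c / L * Real.log (|g.im| + 2) ≤ 2 * c / L * (2 * L) :=
              mul_le_mul_of_nonneg_left h2 (by positivity)
          _ = 4 * c := by field_simp; ring
      (clear * - hC9 hc1 h5; nlinarith)
    · intro ρ hρ
      rw [mem_filter] at hρ
      obtain ⟨hρ0, hρ1, _, _⟩ := hZ ρ hρ.1
      refine ⟨hρ0, ?_⟩
      have h2 : ρ.re < 1 := by
        by_contra h3
        exact riemannZeta_ne_zero_of_one_le_re (not_lt.1 h3) hρ0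
      have h4 := Complex.norm_le_abs_re_add_abs_im (ρ - (1 + (g.im : ℂ) * Complex.I))
      have h5 : (ρ - (1 + (g.im : ℂ) * Complex.I)).re = ρ.re - 1 := by simp
      have h6 : (ρ - (1 + (g.im : ℂ) * Complex.I)).im = ρ.im - g.im := by simp
      rw [h5, h6, abs_of_neg (by (clear * - h2; linarith))] at h4
      have h7 : 1 / L ≤ c / L := div_le_div_of_nonneg_right hc1 hLp.le
      have h8 : 2 * c / L = c / L + c / L := by ring
      (clear * - hρ hρ1 h4 h7 h8; linarith [hρ.2])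
  have hcov : Z ⊆ G.biUnion (fun g => Z.filter (fun ρ => |ρ.im - g.im| < 1 / L)) := by
    intro ρ hρ
    rw [mem_biUnion]
    rcases hG2 ρ hρ with h1 | ⟨g, hg1, hg2⟩
    · exact ⟨ρ, h1, mem_filter.2 ⟨hρ, by rw [sub_self, abs_zero]; positivity⟩⟩
    · exact ⟨g, hg1, mem_filter.2 ⟨hρ, hg2⟩⟩
  calc ∑ ρ ∈ Z, mz ρ
      ≤ ∑ ρ ∈ G.biUnion (fun g => Z.filter (fun ρ => |ρ.im - g.im| < 1 / L)), mz ρ :=
        Finset.sum_le_sum_of_subset_of_nonneg hcov fun ρ _ _ => mz_nonneg ρ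
    _ ≤ ∑ g ∈ G, ∑ ρ ∈ Z.filter (fun ρ => |ρ.im - g.im| < 1 / L), mz ρ :=
        sum_biUnion_le_sum _ _ _ mz_nonneg
    _ ≤ ∑ _g ∈ G, 5 * C9 * c := Finset.sum_le_sum hg
    _ = G.card * (5 * C9 * c) := by rw [sum_const, nsmul_eq_mul]
    _ ≤ (C * c ^ 5 * Real.exp (c / 2)) * (5 * C9 * c) :=
        mul_le_mul_of_nonneg_right hcard (by positivity)
    _ = 5 * C * C9 * c ^ 6 * Real.exp (c / 2) := by ring

end Pool.Agent.M17.Helper94.KSZ
end

/- Helper53.KN.Helper18.KSZ.TheoremN0 -/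
section
/-!
# Theorem N (zeros of zeta near the line 1), assembly; the zero-free region (A10) is a hypothesis
-/

set_option autoImplicit false

namespace Pool.Agent.M17.Helper18.KSZ

theorem inA3 : InA3 := fun A hA => Helper67.KSZ.A3 A hA

theorem expSum : ExpSum := Helper94.KSZ.expSum inA3

theorem sieveW : SieveWeights :=
  sieveWeights Helper85.KSZ.lamBasic (Helper26.KSZ.lamSmall Helper85.KSZ.lamBasic)
    (Helper91.KSZ.lamMean Helper85.KSZ.lamBasic)

theorem firstF : FirstFactor := Helper36.KSZ.firstFactor Helper36.KSZ.roughSums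

theorem zeroSum : ZeroSum := Helper73.KSZ.zeroSum expSum

theorem detect : Detect := Helper48.KSZ.detect Helper36.KSZ.coeffs zeroSum

theorem kerBound : KerBound := Helper7.KSZ.kerBound Helper7.KSZ.innerSmall
  (Helper7.KSZ.innerLarge expSum)

theorem density' : Density := density sieveW firstF detect kerBound spaced

theorem densityM' : DensityM := Helper94.KSZ.densityM Helper33.KSZ.inA9 density'

/-- Theorem N from the zero-free region -/
theorem theoremN_of (h10 : InA10) : TheoremN :=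
  Helper71.KSZ.theoremN h10 (oneLevel h10 densityM')

end Pool.Agent.M17.Helper18.KSZ
end
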