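import Mathlib
import Pool.Agent.Helper53.KM.G14
import Pool.Agent.Helper53.KM.G22
import Pool.Agent.Helper53.KM.G26

/- Helper53.KN.Helper67.KSZ.ZetaB -/
section
/-! KSZ (MP_768c9c_nt): growth of zeta (A5). -/

set_option autoImplicit false
open Filter Topology

namespace Pool.Agent.M17.Helper67.KSZ

/-! ### optimal exponents for `N ≤ t` -/

theorem Ek (m : ℕ) : ∃ C : ℝ, 0 < C ∧ ∀ (N N1 : ℕ) (t : ℝ), 1 ≤ N → N < N1 → N1 ≤ 2 * N →
    (N : ℝ) ≤ t → ‖Sit t N N1‖ ≤ C * (t ^ (1 / (2 ^ (m + 2) - 2) : ℝ) *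
      (N : ℝ) ^ (1 - (m + 2) * (1 / (2 ^ (m + 2) - 2)) : ℝ)) := by
  induction m with
  | zero =>
    obtain ⟨C, hC, h⟩ := Sit_half
    refine ⟨2 * C, by positivity, ?_⟩
    intro N N1 t hN hN1 hN2 htN
    have hNr : (1 : ℝ) ≤ N := by exact_mod_cast hN
    have ht1 : 1 ≤ t := hNr.trans htN
    have ht0 : 0 < t := by (clear * - htN hNr; linarith)
    refine (h N N1 t hN hN1 hN2 ht0).trans ?_
    have e0 : (1 / (2 ^ (0 + 2) - 2) : ℝ) = 1 / 2 := by norm_num
    have e1 : (1 - (((0 : ℕ) : ℝ) + 2) * (1 / 2) : ℝ) = 0 := by norm_num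
    rw [e0, e1, Real.rpow_zero, mul_one]
    have h1 : (N : ℝ) / t ≤ t ^ (1 / 2 : ℝ) := by
      have h2 : (N : ℝ) / t ≤ 1 := by rw [div_le_one ht0]; exact htN
      exact h2.trans (Real.one_le_rpow ht1 (by norm_num))
    (clear * - hC h1; nlinarith)
  | succ m ih =>
    obtain ⟨C1, hC1, h1⟩ := ih
    obtain ⟨C2, hC2, h2⟩ := A1 (m + 3) (by omega)
    set p : ℝ := 2 ^ m with hp
    have hp1 : 1 ≤ p := one_le_pow₀ (by norm_num)
    have hp0 : 0 < p := by (clear * - hp1; linarith)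
    have h4 : (2 : ℝ) ^ (m + 2) = 4 * p := by rw [pow_add]; ring
    have h8 : (2 : ℝ) ^ (m + 3) = 8 * p := by rw [pow_add]; ring
    have h8' : (2 : ℝ) ^ (m + 1 + 2) = 8 * p := by rw [← h8]
    rw [h4] at h1
    rw [h8] at h2
    rw [h8']
    set α' : ℝ := 1 / (4 * p - 2) with hα'
    set α : ℝ := 1 / (8 * p - 2) with hα
    have hq1 : 0 < 4 * p - 2 := by (clear * - hp1; linarith)
    have hq2 : 0 < 8 * p - 2 := by (clear * - hp1; linarith)
    have hα0 : 0 < α := by (clear * - hq2; positivity)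
    have hα'0 : 0 < α' := by (clear * - hq1; positivity)
    have hαα' : α ≤ α' := by
      rw [hα, hα']
      apply one_div_le_one_div_of_le hq1
      (clear * - hp1; linarith)
    set γ : ℝ := (m : ℝ) + 1 + 1 / (2 * p) with hγ
    have hm0 : (0 : ℝ) ≤ m := Nat.cast_nonneg m
    have hγ0 : 0 < γ := by (clear * -; positivity)
    have i1 : 2 * ((m : ℝ) + 3) * α - 4 / (8 * p) = 2 * α * γ := by
      rw [hα, hγ]
      field_simp
      ring
    have i2 : ((m : ℝ) + 2) * α' - ((m : ℝ) + 3) * α = (α' - α) * γ := by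
      have j1 : α' * (4 * p - 2) = 1 := by rw [hα']; exact one_div_mul_cancel hq1.ne'
      have j2 : α * (8 * p - 2) = 1 := by rw [hα]; exact one_div_mul_cancel hq2.ne'
      have j3 : γ * (2 * p) = 2 * p * (m + 1) + 1 := by
        rw [hγ]; (clear * - hp1; field_simp)
      have j4 : 0 < (4 * p - 2) * (8 * p - 2) * (2 * p) := by (clear * - hq1 hq2; positivity)
      have j5 : (((m : ℝ) + 2) * α' - ((m : ℝ) + 3) * α - (α' - α) * γ) *
          ((4 * p - 2) * (8 * p - 2) * (2 * p)) = 0 := by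
        linear_combination (((m : ℝ) + 2) * (8 * p - 2) * (2 * p) - γ * (2 * p) * (8 * p - 2)) * j1 -
          (((m : ℝ) + 3) * (4 * p - 2) * (2 * p) - γ * (2 * p) * (4 * p - 2)) * j2 -
          ((8 * p - 2) - (4 * p - 2)) * j3
      have j6 := (mul_eq_zero.1 j5).resolve_right j4.ne'
      (clear * - j6; linarith)
    refine ⟨C1 + 2 * C2, by (clear * - hC1 hC2; positivity), ?_⟩
    intro N N1 t hN hN1 hN2 htN
    have hNr : (1 : ℝ) ≤ N := by exact_mod_cast hN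
    have hN0 : (0 : ℝ) < N := by (clear * - hNr; linarith)
    have ht1 : 1 ≤ t := hNr.trans htN
    have ht0 : 0 < t := by (clear * - htN hNr; linarith)
    have ecast : (((m + 1 : ℕ) : ℝ) + 2) = (m : ℝ) + 3 := by push_cast; ring
    rw [ecast]
    set R : ℝ := t ^ α * (N : ℝ) ^ (1 - ((m : ℝ) + 3) * α) with hR
    have hR0 : 0 < R := by (clear * - ht1 hN; positivity)
    rcases le_total ((N : ℝ) ^ γ) t with h | h
    · refine (h2 N N1 t hN hN1 hN2 ht0).trans ?_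
      have b1 : (N : ℝ) * (t / (N : ℝ) ^ (m + 3)) ^ α = R := by
        rw [hR, Real.div_rpow ht0.le (by (clear * - hN; positivity)), ← Real.rpow_natCast, ← Real.rpow_mul hN0.le,
          Real.rpow_sub hN0, Real.rpow_one]
        push_cast
        ring
      have b2 : (N : ℝ) ^ (1 - 4 / (8 * p)) * ((N : ℝ) ^ (m + 3) / t) ^ α ≤ R := by
        have e1 : (N : ℝ) ^ (1 - 4 / (8 * p)) * ((N : ℝ) ^ (m + 3) / t) ^ α =
            (N : ℝ) ^ (1 - ((m : ℝ) + 3) * α) * t ^ (-α) * ((N : ℝ) ^ γ) ^ (2 * α) := by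
          rw [Real.div_rpow (by (clear * - hN; positivity)) ht0.le, ← Real.rpow_natCast, ← Real.rpow_mul hN0.le,
            ← Real.rpow_mul hN0.le, Real.rpow_neg ht0.le, mul_right_comm, ← Real.rpow_add hN0,
            ← mul_div_assoc, ← Real.rpow_add hN0, div_eq_mul_inv]
          congr 2
          push_cast
          (clear * - i1; linarith)
        rw [e1, hR]
        have e2 : ((N : ℝ) ^ γ) ^ (2 * α) ≤ t ^ (2 * α) :=
          Real.rpow_le_rpow (by (clear * - hN; positivity)) h (by (clear * - hq2; positivity))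
        calc (N : ℝ) ^ (1 - ((m : ℝ) + 3) * α) * t ^ (-α) * ((N : ℝ) ^ γ) ^ (2 * α) ≤
            (N : ℝ) ^ (1 - ((m : ℝ) + 3) * α) * t ^ (-α) * t ^ (2 * α) := by (clear * - e2 hN ht1; gcongr)
          _ = t ^ α * (N : ℝ) ^ (1 - ((m : ℝ) + 3) * α) := by
            rw [mul_assoc, ← Real.rpow_add ht0, mul_comm]
            congr 2
            ring
      calc C2 * ((N : ℝ) * (t / (N : ℝ) ^ (m + 3)) ^ α + (N : ℝ) ^ (1 - 4 / (8 * p)) *
            ((N : ℝ) ^ (m + 3) / t) ^ α) ≤ C2 * (R + R) := by rw [b1]; (clear * - b2 hC2; gcongr)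
        _ ≤ (C1 + 2 * C2) * R := by (clear * - hC1 hR0; nlinarith)
    · refine (h1 N N1 t hN hN1 hN2 htN).trans ?_
      have b1 : t ^ α' * (N : ℝ) ^ (1 - ((m : ℝ) + 2) * α') ≤ R := by
        have e1 : t ^ (α' - α) ≤ ((N : ℝ) ^ γ) ^ (α' - α) :=
          Real.rpow_le_rpow ht0.le h (by (clear * - hαα'; linarith))
        have e2 : t ^ α' = t ^ α * t ^ (α' - α) := by
          rw [← Real.rpow_add ht0]; congr 1; ring
        have e3 : ((N : ℝ) ^ γ) ^ (α' - α) * (N : ℝ) ^ (1 - ((m : ℝ) + 2) * α') =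
            (N : ℝ) ^ (1 - ((m : ℝ) + 3) * α) := by
          rw [← Real.rpow_mul hN0.le, ← Real.rpow_add hN0]
          congr 1
          (clear * - i2; linarith)
        rw [e2, hR, ← e3]
        calc t ^ α * t ^ (α' - α) * (N : ℝ) ^ (1 - ((m : ℝ) + 2) * α') ≤
            t ^ α * ((N : ℝ) ^ γ) ^ (α' - α) * (N : ℝ) ^ (1 - ((m : ℝ) + 2) * α') := by (clear * - e1 ht1 hN; gcongr)
          _ = _ := by ring
      calc C1 * (t ^ α' * (N : ℝ) ^ (1 - ((m : ℝ) + 2) * α')) ≤ C1 * R := by (clear * - b1 hC1; gcongr)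
        _ ≤ (C1 + 2 * C2) * R := by (clear * - hC2 hR0; nlinarith)

/-! ### from blocks to zeta -/

theorem zeta_of_blocks : ∃ C : ℝ, 0 < C ∧ ∀ σ t B : ℝ, 1 / 2 ≤ σ → σ ≤ 2 → 2 ≤ t → 1 ≤ B →
    (∀ N N1 : ℕ, 1 ≤ N → N < N1 → N1 ≤ 2 * N → (N1 : ℝ) ≤ t ^ 2 →
      ‖∑ n ∈ Finset.Ioc N N1, (n : ℂ) ^ (-((σ : ℂ) + (t : ℂ) * Complex.I))‖ ≤ B) →
    ‖riemannZeta ((σ : ℂ) + (t : ℂ) * Complex.I)‖ ≤ C * B * Real.log t := by
  obtain ⟨C, hC, h⟩ := A4
  refine ⟨2 * C + 8, by positivity, ?_⟩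
  intro σ t B hσ hσ2 ht hB hblk
  have h1 := h σ t hσ hσ2 ht
  set s : ℂ := (σ : ℂ) + (t : ℂ) * Complex.I with hs
  set M := ⌊t ^ 2⌋₊ with hM
  have hMle : (M : ℝ) ≤ t ^ 2 := Nat.floor_le (by positivity)
  have hM1 : 1 ≤ M := by
    apply Nat.one_le_iff_ne_zero.2
    intro h0
    rw [hM, Nat.floor_eq_zero] at h0
    (clear * - ht h0; nlinarith)
  have hM0 : (0 : ℝ) < M := by exact_mod_cast hM1
  have h2 := dyadic (fun n => (n : ℂ) ^ (-s)) B M hM1 (by (clear * - hB; linarith)) (by simpa using hB)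
    (fun N N1 a b c d => hblk N N1 a b c (le_trans (by exact_mod_cast d) hMle))
  have hlt : Real.log 2 ≤ Real.log t := Real.log_le_log (by norm_num) ht
  have hl2 := Real.log_two_gt_d9
  have hlM : Real.log M ≤ 2 * Real.log t := by
    have := Real.log_le_log hM0 hMle
    rw [Real.log_pow] at this
    exact_mod_cast this
  have h3 : ‖riemannZeta s‖ ≤ C + (2 * Real.log M + 2) * B := by
    have e : riemannZeta s = (riemannZeta s - ∑ n ∈ Finset.Icc 1 M, (n : ℂ) ^ (-s)) +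
        ∑ n ∈ Finset.Icc 1 M, (n : ℂ) ^ (-s) := by ring
    rw [e]
    exact (norm_add_le _ _).trans (add_le_add h1 h2)
  have hlt0 : 1 / 2 ≤ Real.log t := by (clear * - hlt hl2; linarith)
  have h4 : C ≤ 2 * C * B * Real.log t := by
    have : 1 / 2 ≤ B * Real.log t := by (clear * - hB hlt hl2; nlinarith)
    (clear * - hC this; nlinarith)
  have h5 : (2 * Real.log M + 2) * B ≤ 8 * B * Real.log t := by
    have : 2 * Real.log M + 2 ≤ 8 * Real.log t := by (clear * - hlt hl2 hlM; linarith)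
    have := mul_le_mul_of_nonneg_right this (show 0 ≤ B by (clear * - hB; linarith))
    (clear * - this; linarith)
  (clear * - h3 h4 h5; linarith)

/-- blocks beyond `t` -/
theorem block_large : ∃ C : ℝ, 1 ≤ C ∧ ∀ (σ t : ℝ) (N N1 : ℕ), 1 / 2 ≤ σ → 1 ≤ t → t ≤ N →
    N < N1 → N1 ≤ 2 * N → (N1 : ℝ) ≤ t ^ 2 →
      ‖∑ n ∈ Finset.Ioc N N1, (n : ℂ) ^ (-((σ : ℂ) + (t : ℂ) * Complex.I))‖ ≤ C := by
  obtain ⟨C, hC, h⟩ := A2'
  refine ⟨C + 1, by (clear * - hC; linarith), ?_⟩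
  intro σ t N N1 hσ ht htN hN1 hN2 hN3
  have hNr : (1 : ℝ) ≤ N := ht.trans htN
  have hN : 1 ≤ N := by exact_mod_cast hNr
  have ht0 : 0 < t := by (clear * - ht; linarith)
  refine (h N N1 σ t hN hN1 hN2 ht0 htN (by (clear * - hσ; linarith))).trans ?_
  have h1 : (N : ℝ) ^ (1 - σ) / t ≤ 1 := by
    rw [div_le_one ht0]
    have h2 : (N : ℝ) ^ (1 - σ) ≤ (N : ℝ) ^ (1 / 2 : ℝ) :=
      Real.rpow_le_rpow_of_exponent_le hNr (by (clear * - hσ; linarith))
    have h3 : (N : ℝ) ≤ t ^ 2 := by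
      have : (N : ℝ) ≤ N1 := by exact_mod_cast hN1.le
      (clear * - hN3 this; linarith)
    have h4 : (N : ℝ) ^ (1 / 2 : ℝ) ≤ t := by
      rw [← Real.sqrt_eq_rpow]
      exact Real.sqrt_le_iff.2 ⟨ht0.le, h3⟩
    (clear * - h2 h4; linarith)
  (clear * - hC h1; nlinarith)

/-- A5 (a): the critical line, Weyl's exponent -/
theorem A5a : ∃ C : ℝ, 0 < C ∧ ∀ t : ℝ, 2 ≤ t →
    ‖riemannZeta ((1 / 2 : ℂ) + (t : ℂ) * Complex.I)‖ ≤ C * t ^ (1 / 6 : ℝ) * Real.log t := by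
  obtain ⟨C0, hC0, h0⟩ := zeta_of_blocks
  obtain ⟨C1, hC1, h1⟩ := block_large
  obtain ⟨C2, hC2, h2⟩ := Ek 1
  refine ⟨C0 * (C1 + C2), by (clear * - hC0 hC1 hC2; positivity), ?_⟩
  intro t ht
  have ht0 : 0 < t := by (clear * - ht; linarith)
  have ht1 : 1 ≤ t := by linarith
  have htp : 1 ≤ t ^ (1 / 6 : ℝ) := Real.one_le_rpow ht1 (by norm_num)
  have h3 := h0 (1 / 2) t ((C1 + C2) * t ^ (1 / 6 : ℝ)) le_rfl (by norm_num) ht (by (clear * - hC1 hC2 htp; nlinarith)) ?_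
  · push_cast at h3
    refine h3.trans (le_of_eq (by ring))
  · intro N N1 hN hN1 hN2 hN3
    have hNr : (1 : ℝ) ≤ N := by exact_mod_cast hN
    have hN0 : (0 : ℝ) < N := by (clear * - hNr; linarith)
    rcases le_total (N : ℝ) t with h | h
    · refine (abel_pow (B := C2 * (t ^ (1 / 6 : ℝ) * (N : ℝ) ^ (1 / 2 : ℝ))) hN (by norm_num)
        (by (clear * - hC2 ht hN; positivity)) ?_).trans ?_
      · intro N' a b
        have h4 := h2 N N' t hN a (by omega) h
        have e1 : (1 / (2 ^ (1 + 2) - 2) : ℝ) = 1 / 6 := by norm_num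
        rw [e1] at h4
        have e2 : (1 - (((1 : ℕ) : ℝ) + 2) * (1 / 6) : ℝ) = 1 / 2 := by norm_num
        rw [e2] at h4
        exact h4
      · have e3 : (N : ℝ) ^ (-(1 / 2) : ℝ) * (C2 * (t ^ (1 / 6 : ℝ) * (N : ℝ) ^ (1 / 2 : ℝ))) =
            C2 * t ^ (1 / 6 : ℝ) := by
          have : (N : ℝ) ^ (-(1 / 2) : ℝ) * (N : ℝ) ^ (1 / 2 : ℝ) = 1 := by
            rw [← Real.rpow_add hN0]; simp
          linear_combination (C2 * t ^ (1 / 6 : ℝ)) * this
        rw [e3]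
        (clear * - hC1 htp; nlinarith)
    · refine (h1 (1 / 2) t N N1 le_rfl ht1 h hN1 hN2 hN3).trans ?_
      (clear * - hC2 htp hC1; nlinarith)

/-- A5 (b): near the line 1 -/
theorem A5b : ∃ C : ℝ, 0 < C ∧ ∀ σ t : ℝ, 2 ≤ t → 5 / 7 ≤ σ → σ ≤ 1 →
    ‖riemannZeta ((σ : ℂ) + (t : ℂ) * Complex.I)‖ ≤ C * t ^ ((1 - σ) / 4) * Real.log t := by
  obtain ⟨C0, hC0, h0⟩ := zeta_of_blocks
  obtain ⟨C1, hC1, h1⟩ := block_large
  obtain ⟨C2, hC2, h2⟩ := Ek 2
  refine ⟨C0 * (C1 + C2 + 1), by positivity, ?_⟩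
  intro σ t ht hσ hσ1
  have ht0 : 0 < t := by (clear * - ht; linarith)
  have ht1 : 1 ≤ t := by (clear * - ht; linarith)
  have htp : 1 ≤ t ^ ((1 - σ) / 4) := Real.one_le_rpow ht1 (by (clear * - hσ1; linarith))
  have h3 := h0 σ t ((C1 + C2 + 1) * t ^ ((1 - σ) / 4)) (by (clear * - hσ; linarith)) (by (clear * - hσ1; linarith)) ht (by (clear * - hC1 hC2 htp; nlinarith)) ?_
  · refine h3.trans (le_of_eq (by ring))
  · intro N N1 hN hN1 hN2 hN3
    have hNr : (1 : ℝ) ≤ N := by exact_mod_cast hN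
    have hN0 : (0 : ℝ) < N := by (clear * - hNr; linarith)
    rcases le_total (N : ℝ) t with h | h
    · rcases le_total (N : ℝ) (t ^ (1 / 4 : ℝ)) with h' | h'
      · refine (abel_pow (B := N) hN (by (clear * - hσ; linarith)) (by positivity) ?_).trans ?_
        · intro N' a b
          exact norm_Sit_le t (by omega)
        · have e3 : (N : ℝ) ^ (-σ) * N = (N : ℝ) ^ (1 - σ) := by
            rw [show (1 - σ) = -σ + 1 by ring, Real.rpow_add hN0, Real.rpow_one]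
          rw [e3]
          have e4 : (N : ℝ) ^ (1 - σ) ≤ t ^ ((1 - σ) / 4) := by
            calc (N : ℝ) ^ (1 - σ) ≤ (t ^ (1 / 4 : ℝ)) ^ (1 - σ) :=
                  Real.rpow_le_rpow hN0.le h' (by (clear * - hσ1; linarith))
              _ = t ^ ((1 - σ) / 4) := by
                  rw [← Real.rpow_mul ht0.le]; congr 1; ring
          (clear * - hC1 hC2 htp e4; nlinarith)
      · refine (abel_pow (B := C2 * (t ^ (1 / 14 : ℝ) * (N : ℝ) ^ (5 / 7 : ℝ))) hN (by (clear * - hσ; linarith))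
          (by (clear * - hC2 ht hN; positivity)) ?_).trans ?_
        · intro N' a b
          have h4 := h2 N N' t hN a (by omega) h
          have e1 : (1 / (2 ^ (2 + 2) - 2) : ℝ) = 1 / 14 := by norm_num
          rw [e1] at h4
          have e2 : (1 - (((2 : ℕ) : ℝ) + 2) * (1 / 14) : ℝ) = 5 / 7 := by norm_num
          rw [e2] at h4
          exact h4
        · have e3 : (N : ℝ) ^ (-σ) * (C2 * (t ^ (1 / 14 : ℝ) * (N : ℝ) ^ (5 / 7 : ℝ))) =
              C2 * (t ^ (1 / 14 : ℝ) * (N : ℝ) ^ (5 / 7 - σ)) := by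
            have : (N : ℝ) ^ (5 / 7 - σ) = (N : ℝ) ^ (-σ) * (N : ℝ) ^ (5 / 7 : ℝ) := by
              rw [← Real.rpow_add hN0]; congr 1; ring
            rw [this]; ring
          rw [e3]
          have e4 : t ^ (1 / 14 : ℝ) * (N : ℝ) ^ (5 / 7 - σ) ≤ t ^ ((1 - σ) / 4) := by
            calc t ^ (1 / 14 : ℝ) * (N : ℝ) ^ (5 / 7 - σ) ≤
                t ^ (1 / 14 : ℝ) * (t ^ (1 / 4 : ℝ)) ^ (5 / 7 - σ) := by
                  apply mul_le_mul_of_nonneg_left _ (by positivity)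
                  exact Real.rpow_le_rpow_of_nonpos (by positivity) h' (by (clear * - hσ; linarith))
              _ = t ^ ((1 - σ) / 4) := by
                  rw [← Real.rpow_mul ht0.le, ← Real.rpow_add ht0]; congr 1; ring
          calc C2 * (t ^ (1 / 14 : ℝ) * (N : ℝ) ^ (5 / 7 - σ)) ≤ C2 * t ^ ((1 - σ) / 4) := by gcongr
            _ ≤ _ := by (clear * - hC1 htp; nlinarith)
    · refine (h1 σ t N N1 (by linarith) ht1 h hN1 hN2 hN3).trans ?_
      (clear * - hC2 htp hC1; nlinarith)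

/-- A5 (c): right of the line 1 -/
theorem A5c : ∃ C : ℝ, 0 < C ∧ ∀ σ t : ℝ, 2 ≤ t → 1 ≤ σ →
    ‖riemannZeta ((σ : ℂ) + (t : ℂ) * Complex.I)‖ ≤ C * Real.log t := by
  obtain ⟨C0, hC0, h0⟩ := zeta_of_blocks
  set Z : ℝ := ∑' n : ℕ, ((n : ℝ) + 1) ^ (-2 : ℝ) with hZ
  have hZs : Summable (fun n : ℕ => ((n : ℝ) + 1) ^ (-2 : ℝ)) :=
    Pool.Agent.M17.Helper69.QRH.summable_rpow_aux (by norm_num)
  have hZ0 : 0 ≤ Z := tsum_nonneg fun n => by (clear * -; positivity)
  refine ⟨C0 + 2 * Z, by (clear * - hC0; positivity), ?_⟩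
  intro σ t ht hσ
  have ht0 : 0 < t := by linarith
  have hlt : Real.log 2 ≤ Real.log t := Real.log_le_log (by norm_num) ht
  have hl2 := Real.log_two_gt_d9
  rcases le_total σ 2 with h | h
  · have h3 := h0 σ t 1 (by (clear * - hσ; linarith)) h ht le_rfl ?_
    · rw [mul_one] at h3
      (clear * - hZ0 h3 hlt hl2; nlinarith)
    · intro N N1 hN hN1 hN2 hN3
      have hNr : (1 : ℝ) ≤ N := by exact_mod_cast hN
      have hN0 : (0 : ℝ) < N := by (clear * - hNr; linarith)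
      refine (abel_pow (B := N) hN (by (clear * - hσ; linarith)) (by positivity) ?_).trans ?_
      · intro N' a b
        exact norm_Sit_le t (by omega)
      · have e3 : (N : ℝ) ^ (-σ) * N = (N : ℝ) ^ (1 - σ) := by
          rw [show (1 - σ) = -σ + 1 by ring, Real.rpow_add hN0, Real.rpow_one]
        rw [e3]
        exact Real.rpow_le_one_of_one_le_of_nonpos hNr (by (clear * - hσ; linarith))
  · set s : ℂ := (σ : ℂ) + (t : ℂ) * Complex.I with hs
    have hre : s.re = σ := by simp [hs]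
    have h5 : ‖riemannZeta s‖ ≤ Z := by
      rw [zeta_eq_tsum_one_div_nat_add_one_cpow (by rw [hre]; (clear * - h; linarith))]
      refine tsum_of_norm_bounded hZs.hasSum fun n => ?_
      have e1 : ((n : ℂ) + 1) = (((n : ℝ) + 1 : ℝ) : ℂ) := by push_cast; ring
      have hn : (0 : ℝ) ≤ n := Nat.cast_nonneg n
      rw [norm_div, norm_one, e1, Complex.norm_cpow_eq_rpow_re_of_pos (by positivity), hre,
        one_div, ← Real.rpow_neg (by positivity)]
      exact Real.rpow_le_rpow_of_exponent_le (by (clear * -; linarith)) (by linarith)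
    nlinarith

end Pool.Agent.M17.Helper67.KSZ
end

/- Helper53.KN.Helper67.KSZ.ZetaC -/
section
/-! KSZ (MP_768c9c_nt): zeta near the line 1 (A6). -/

set_option autoImplicit false
open Filter Topology Asymptotics

namespace Pool.Agent.M17.Helper67.KSZ

/-- A6: near the line 1 -/
theorem A6 (K : ℝ) (hK : 1 ≤ K) : ∃ t0 : ℝ, 3 ≤ t0 ∧ ∀ t σ : ℝ, t0 ≤ t →
    1 - K * Real.log (Real.log t) / Real.log t ≤ σ →
    ‖riemannZeta ((σ : ℂ) + (t : ℂ) * Complex.I)‖ ≤ Real.log t ^ 3 := by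
  have hK0 : 0 < K := by linarith
  obtain ⟨C0, hC0, h0⟩ := zeta_of_blocks
  obtain ⟨C1, hC1, h1⟩ := A5c
  set A : ℝ := max K 2 with hA
  have hA1 : 1 ≤ A := le_trans (by norm_num) (le_max_right K 2)
  have hAK : K ≤ A := le_max_left _ _
  have hA2 : 2 ≤ A := le_max_right _ _
  obtain ⟨c, C3, hc, hC3, h3⟩ := A3 A hA1
  -- eventual inequalities
  have ev1 : ∀ᶠ t : ℝ in atTop, K * Real.log (Real.log t) / Real.log t ≤ 1 / 2 := by
    have e1 := (Real.isLittleO_log_id_atTop.comp_tendsto Real.tendsto_log_atTop).def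
      (show 0 < 1 / (2 * K) by positivity)
    filter_upwards [e1, eventually_ge_atTop (Real.exp 1)] with t ht ht1
    have hL : 1 ≤ Real.log t := by
      rw [← Real.log_exp 1]; exact Real.log_le_log (Real.exp_pos 1) ht1
    simp only [Function.comp_apply, id_eq, Real.norm_eq_abs] at ht
    rw [abs_of_pos (show 0 < Real.log t by linarith)] at ht
    have h5 : Real.log (Real.log t) ≤ 1 / (2 * K) * Real.log t := (le_abs_self _).trans ht
    rw [div_le_iff₀ (by linarith)]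
    calc K * Real.log (Real.log t) ≤ K * (1 / (2 * K) * Real.log t) := by gcongr
      _ = 1 / 2 * Real.log t := by field_simp
  have ev2 : ∀ᶠ t : ℝ in atTop, C3 * (Real.log t ^ (2 * K) * t ^ (-(c / K))) ≤ 1 := by
    have e1 := (isLittleO_log_rpow_rpow_atTop (2 * K) (show 0 < c / K by positivity)).def
      (show 0 < 1 / C3 by positivity)
    filter_upwards [e1, eventually_ge_atTop (Real.exp 1)] with t ht ht1
    have ht0 : 0 < t := lt_of_lt_of_le (Real.exp_pos 1) ht1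
    have hL : 1 ≤ Real.log t := by
      rw [← Real.log_exp 1]; exact Real.log_le_log (Real.exp_pos 1) ht1
    rw [Real.norm_of_nonneg (by positivity), Real.norm_of_nonneg (by positivity)] at ht
    rw [Real.rpow_neg ht0.le]
    have hp : 0 < t ^ (c / K) := by positivity
    calc C3 * (Real.log t ^ (2 * K) * (t ^ (c / K))⁻¹) ≤
        C3 * ((1 / C3 * t ^ (c / K)) * (t ^ (c / K))⁻¹) := by (clear * - ht ht0 hC3; gcongr)
      _ = 1 := by field_simp
  obtain ⟨t1, ht1⟩ := eventually_atTop.1 ev1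
  obtain ⟨t2, ht2⟩ := eventually_atTop.1 ev2
  refine ⟨max (max t1 t2) (max (Real.exp (C0 + C1 + 1)) 3), le_trans (le_max_right _ _) (le_max_right _ _), ?_⟩
  intro t σ ht hσ
  have b1 := ht1 t (le_trans (le_trans (le_max_left _ _) (le_max_left _ _)) ht)
  have b2 := ht2 t (le_trans (le_trans (le_max_right _ _) (le_max_left _ _)) ht)
  have b3 : Real.exp (C0 + C1 + 1) ≤ t := le_trans (le_trans (le_max_left _ _) (le_max_right _ _)) ht
  have b4 : 3 ≤ t := le_trans (le_trans (le_max_right _ _) (le_max_right _ _)) ht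
  set L := Real.log t with hL
  have hLC : C0 + C1 + 1 ≤ L := by
    rw [hL, ← Real.log_exp (C0 + C1 + 1)]; exact Real.log_le_log (Real.exp_pos _) b3
  have hL1 : 1 ≤ L := by (clear * - hC0 hC1 hLC; linarith)
  have ht0 : 0 < t := by linarith
  have htr : 1 ≤ t := by (clear * - b4; linarith)
  have hL2 : L ≤ L ^ 2 := by (clear * - hC0 hC1 hLC; nlinarith)
  rcases le_total 1 σ with h | h
  · refine (h1 σ t (by linarith) h).trans ?_
    calc C1 * L ≤ L * L := by gcongr; (clear * - hC0 hLC; linarith)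
      _ ≤ L ^ 3 := by (clear * - hC0 hC1 hLC; nlinarith)
  have hσ2 : 1 / 2 ≤ σ := by linarith
  have hσ3 : 1 - σ ≤ K * Real.log L / L := by (clear * - hσ; linarith)
  have h5 := h0 σ t L hσ2 (by (clear * - h; linarith)) (by (clear * - b4; linarith)) hL1 ?_
  · refine h5.trans ?_
    calc C0 * L * L ≤ L * L * L := by gcongr; (clear * - hC1 hLC; linarith)
      _ = L ^ 3 := by ring
  · intro N N1 hN hN1 hN2 hN3
    have hNr : (1 : ℝ) ≤ N := by exact_mod_cast hN
    have hN0 : (0 : ℝ) < N := by (clear * - hNr; linarith)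
    -- `x^(1-σ)` for `x = t^a`
    have hpow : t ^ (1 - σ) ≤ L ^ K := by
      rw [Real.rpow_def_of_pos ht0, Real.rpow_def_of_pos (by (clear * - hC0 hC1 hLC; linarith) : (0 : ℝ) < L)]
      apply Real.exp_le_exp.2
      rw [← hL]
      calc L * (1 - σ) ≤ L * (K * Real.log L / L) := by (clear * - hσ3 hL1; gcongr)
        _ = Real.log L * K := by (clear * - hL1 hK; field_simp)
    have hpos1 : 0 < t ^ (1 - σ) := by positivity
    rcases le_total (N : ℝ) (t ^ (1 / K)) with h' | h'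
    · refine (abel_pow (B := N) hN (by (clear * - hσ b1; linarith)) (by positivity) ?_).trans ?_
      · intro N' a b
        exact norm_Sit_le t (by omega)
      · have e3 : (N : ℝ) ^ (-σ) * N = (N : ℝ) ^ (1 - σ) := by
          rw [show (1 - σ) = -σ + 1 by ring, Real.rpow_add hN0, Real.rpow_one]
        rw [e3]
        calc (N : ℝ) ^ (1 - σ) ≤ (t ^ (1 / K)) ^ (1 - σ) :=
              Real.rpow_le_rpow hN0.le h' (by (clear * - h; linarith))
          _ = (t ^ (1 - σ)) ^ (1 / K) := by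
              rw [← Real.rpow_mul ht0.le, ← Real.rpow_mul ht0.le]; congr 1; ring
          _ ≤ (L ^ K) ^ (1 / K) := Real.rpow_le_rpow hpos1.le hpow (by positivity)
          _ = L := by
              rw [← Real.rpow_mul (by (clear * - hC0 hC1 hLC; linarith)), mul_one_div_cancel hK0.ne', Real.rpow_one]
    · have hNt2 : (N : ℝ) ≤ t ^ 2 := by
        have : (N : ℝ) ≤ N1 := by exact_mod_cast hN1.le
        (clear * - hN3 this; linarith)
      have c1 : (N : ℝ) ^ (1 / A) ≤ t := by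
        calc (N : ℝ) ^ (1 / A) ≤ (N : ℝ) ^ (1 / 2 : ℝ) :=
              Real.rpow_le_rpow_of_exponent_le hNr (one_div_le_one_div_of_le (by norm_num) hA2)
          _ ≤ t := by
              rw [← Real.sqrt_eq_rpow]
              exact Real.sqrt_le_iff.2 ⟨ht0.le, hNt2⟩
      have c2 : t ≤ (N : ℝ) ^ A := by
        calc t = (t ^ (1 / K)) ^ K := by
              rw [← Real.rpow_mul ht0.le, one_div_mul_cancel hK0.ne', Real.rpow_one]
          _ ≤ (N : ℝ) ^ K := Real.rpow_le_rpow (by positivity) h' hK0.le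
          _ ≤ (N : ℝ) ^ A := Real.rpow_le_rpow_of_exponent_le hNr hAK
      refine (abel_pow (B := C3 * (N : ℝ) ^ (1 - c)) hN (by (clear * - hσ b1; linarith)) (by (clear * - hC3 hN; positivity)) ?_).trans ?_
      · intro N' a b
        exact h3 N N' t hN a (by omega) c1 c2
      · have e3 : (N : ℝ) ^ (-σ) * (C3 * (N : ℝ) ^ (1 - c)) =
            C3 * ((N : ℝ) ^ (1 - σ) * (N : ℝ) ^ (-c)) := by
          have : (N : ℝ) ^ (-σ) * (N : ℝ) ^ (1 - c) = (N : ℝ) ^ (1 - σ) * (N : ℝ) ^ (-c) := by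
            rw [← Real.rpow_add hN0, ← Real.rpow_add hN0]; congr 1; ring
          linear_combination C3 * this
        rw [e3]
        have d1 : (N : ℝ) ^ (1 - σ) ≤ L ^ (2 * K) := by
          calc (N : ℝ) ^ (1 - σ) ≤ (t ^ 2) ^ (1 - σ) := Real.rpow_le_rpow hN0.le hNt2 (by (clear * - h; linarith))
            _ = (t ^ (1 - σ)) ^ (2 : ℝ) := by
                rw [← Real.rpow_natCast, ← Real.rpow_mul ht0.le, ← Real.rpow_mul ht0.le]
                congr 1; push_cast; ring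
            _ ≤ (L ^ K) ^ (2 : ℝ) := Real.rpow_le_rpow hpos1.le hpow (by norm_num)
            _ = L ^ (2 * K) := by rw [← Real.rpow_mul (by (clear * - hC0 hC1 hLC; linarith))]; congr 1; ring
        have d2 : (N : ℝ) ^ (-c) ≤ t ^ (-(c / K)) := by
          calc (N : ℝ) ^ (-c) ≤ (t ^ (1 / K)) ^ (-c) :=
                Real.rpow_le_rpow_of_nonpos (by positivity) h' (by (clear * - hc; linarith))
            _ = t ^ (-(c / K)) := by rw [← Real.rpow_mul ht0.le]; congr 1; ring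
        calc C3 * ((N : ℝ) ^ (1 - σ) * (N : ℝ) ^ (-c)) ≤ C3 * (L ^ (2 * K) * t ^ (-(c / K))) := by
              (clear * - d1 d2 hN hL1 hC3; gcongr)
          _ ≤ 1 := b2
          _ ≤ L := hL1

end Pool.Agent.M17.Helper67.KSZ
end

/- Helper53.KN.Helper33.KSZ.ZFR -/
section
/-! KSZ A10: zero-free region with a large constant. -/

set_option autoImplicit false
open Filter Topology Complex Metric

namespace Pool.Agent.M17.Helper33.KSZ

open Pool.Agent.M17.Helper10.QRH Pool.Agent.M17.Helper69.QRH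

lemma zeta_lower : ∃ c : ℝ, 0 < c ∧ ∀ s : ℂ, 1 < s.re → s.re ≤ 2 →
    c * (s.re - 1) ≤ ‖riemannZeta s‖ := by
  have hcont : ContinuousOn (fun σ : ℝ => EZ (σ : ℂ)) (Set.Icc 1 2) :=
    (EZ_differentiable.continuous.comp Complex.continuous_ofReal).continuousOn
  obtain ⟨C, hC⟩ := isCompact_Icc.exists_bound_of_continuousOn hcont
  have hCpos : 0 < |C| + 1 := by (clear * -; positivity)
  refine ⟨1 / (|C| + 1), by (clear * -; positivity), fun s h1 h2 => ?_⟩
  have hs0 : 0 < s.re - 1 := by linarith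
  set σ := s.re with hσ
  have hσ1 : 1 < ((σ : ℝ) : ℂ).re := by simpa using h1
  have hmul := ArithmeticFunction.LSeries_zeta_mul_Lseries_moebius h1
  rw [ArithmeticFunction.LSeries_zeta_eq_riemannZeta h1] at hmul
  -- bound of the Moebius series
  have hmu : ‖LSeries (fun n => ((ArithmeticFunction.moebius n : ℤ) : ℂ)) s‖ ≤
      ‖riemannZeta (σ : ℂ)‖ := by
    have hsum : Summable (fun n : ℕ => ‖LSeries.term (fun n => ((ArithmeticFunction.zeta n : ℕ) : ℂ))
        (σ : ℂ) n‖) := (ArithmeticFunction.LSeriesSummable_zeta_iff.2 hσ1).norm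
    have hz : ∑' n : ℕ, ‖LSeries.term (fun n => ((ArithmeticFunction.zeta n : ℕ) : ℂ)) (σ : ℂ) n‖ =
        ‖riemannZeta (σ : ℂ)‖ := by
      have h3 : ∀ n : ℕ, LSeries.term (fun n => ((ArithmeticFunction.zeta n : ℕ) : ℂ)) (σ : ℂ) n =
          ((‖LSeries.term (fun n => ((ArithmeticFunction.zeta n : ℕ) : ℂ)) (σ : ℂ) n‖ : ℝ) : ℂ) := by
        intro n
        rcases eq_or_ne n 0 with rfl | hn
        · simp
        · rw [LSeries.norm_term_eq, LSeries.term_of_ne_zero hn, if_neg hn,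
            ArithmeticFunction.zeta_apply_ne hn, Complex.ofReal_re]
          have h4 : ((n : ℂ)) = (((n : ℝ)) : ℂ) := by push_cast; rfl
          rw [h4, ← Complex.ofReal_cpow (Nat.cast_nonneg n)]
          simp
      have h5 : riemannZeta (σ : ℂ) =
          ((∑' n : ℕ, ‖LSeries.term (fun n => ((ArithmeticFunction.zeta n : ℕ) : ℂ)) (σ : ℂ) n‖ : ℝ)
            : ℂ) := by
        rw [← ArithmeticFunction.LSeries_zeta_eq_riemannZeta hσ1, LSeries, Complex.ofReal_tsum]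
        exact tsum_congr h3
      rw [h5, Complex.norm_real, Real.norm_eq_abs, abs_of_nonneg]
      exact tsum_nonneg fun n => norm_nonneg _
    rw [← hz, LSeries]
    have hle : ∀ n : ℕ, ‖LSeries.term (fun n => ((ArithmeticFunction.moebius n : ℤ) : ℂ)) s n‖ ≤
        ‖LSeries.term (fun n => ((ArithmeticFunction.zeta n : ℕ) : ℂ)) (σ : ℂ) n‖ := by
      intro n
      rw [LSeries.norm_term_eq, LSeries.norm_term_eq]
      rcases eq_or_ne n 0 with rfl | hn
      · simp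
      · rw [if_neg hn, if_neg hn, Complex.ofReal_re, ArithmeticFunction.zeta_apply_ne hn]
        have h6 : ‖(((ArithmeticFunction.moebius n : ℤ)) : ℂ)‖ ≤ 1 := by
          rw [Complex.norm_intCast]
          exact_mod_cast ArithmeticFunction.abs_moebius_le_one
        have h7 : ‖(((1 : ℕ)) : ℂ)‖ = 1 := by simp
        rw [h7]
        gcongr
    exact tsum_of_norm_bounded hsum.hasSum hle
  have hEZ : ‖riemannZeta (σ : ℂ)‖ * (σ - 1) ≤ |C| + 1 := by
    have h3 : (σ : ℂ) ≠ 1 := by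
      intro h
      have := congrArg Complex.re h
      rw [Complex.ofReal_re, Complex.one_re] at this
      linarith
    have h4 := hC σ ⟨h1.le, h2⟩
    rw [EZ_eq h3, norm_mul] at h4
    have h5 : ‖(σ : ℂ) - 1‖ = σ - 1 := by
      have : (σ : ℂ) - 1 = ((σ - 1 : ℝ) : ℂ) := by push_cast; ring
      rw [this, Complex.norm_real, Real.norm_eq_abs, abs_of_pos hs0]
    rw [h5] at h4
    have := le_abs_self C
    linarith
  have h6 : 1 ≤ ‖riemannZeta s‖ * ‖riemannZeta (σ : ℂ)‖ := by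
    have h7 : ‖riemannZeta s * LSeries (fun n => ((ArithmeticFunction.moebius n : ℤ) : ℂ)) s‖ = 1 := by
      rw [hmul, norm_one]
    rw [norm_mul] at h7
    rw [← h7]
    exact mul_le_mul_of_nonneg_left hmu (norm_nonneg _)
  rw [div_mul_eq_mul_div, one_mul, div_le_iff₀ hCpos]
  calc σ - 1 ≤ (σ - 1) * (‖riemannZeta s‖ * ‖riemannZeta (σ : ℂ)‖) :=
        le_mul_of_one_le_right hs0.le h6
    _ = ‖riemannZeta s‖ * (‖riemannZeta (σ : ℂ)‖ * (σ - 1)) := by ring
    _ ≤ ‖riemannZeta s‖ * (|C| + 1) := by (clear * - hEZ; gcongr)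

/-- growth conditions in terms of `L = log γ` -/
lemma large_conditions (A : ℝ) (hA : 0 < A) : ∀ᶠ γ : ℝ in atTop,
    A ≤ γ ∧ A ≤ Real.log γ ∧ A ≤ Real.log (Real.log γ) ∧
      A * Real.log (Real.log γ) ≤ Real.log γ := by
  have h1 : Tendsto Real.log atTop atTop := Real.tendsto_log_atTop
  have h2 : Tendsto (fun γ => Real.log (Real.log γ)) atTop atTop := h1.comp h1
  have h3 : ∀ᶠ L : ℝ in atTop, A * Real.log L ≤ L := by
    have h4 : Tendsto (fun x : ℝ => Real.log x / x) atTop (𝓝 0) := by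
      have := Real.isLittleO_log_id_atTop.tendsto_div_nhds_zero
      simpa using this
    have h5 : ∀ᶠ x : ℝ in atTop, Real.log x / x < 1 / A := h4.eventually_lt_const (by positivity)
    filter_upwards [h5, eventually_gt_atTop 0] with x hx hx0
    rw [div_lt_div_iff₀ hx0 hA] at hx
    (clear * - hx; linarith)
  filter_upwards [eventually_ge_atTop A, h1.eventually_ge_atTop A, h2.eventually_ge_atTop A,
    h1.eventually h3] with γ a b c d
  exact ⟨a, b, c, d⟩

lemma order_pos {ρ : ℂ} (h : riemannZeta ρ = 0) : 1 ≤ analyticOrderNatAt riemannZeta ρ := by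
  obtain ⟨h1, h2, h3⟩ := zero_facts h
  rw [← orderNat_EZ h1]
  have hEA : AnalyticOnNhd ℂ EZ Set.univ :=
    EZ_differentiable.differentiableOn.analyticOnNhd isOpen_univ
  have hnot : ¬ ∀ᶠ z in 𝓝 ρ, EZ z = 0 := by
    intro h4
    have h5 := hEA.eqOn_zero_of_preconnected_of_eventuallyEq_zero isPreconnected_univ
      (Set.mem_univ ρ) h4 (Set.mem_univ (1 : ℂ))
    rw [EZ_one] at h5
    exact one_ne_zero h5
  have htop : analyticOrderAt EZ ρ ≠ ⊤ := by
    rw [Ne, analyticOrderAt_eq_top]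
    exact hnot
  have h0 : analyticOrderAt EZ ρ ≠ 0 := by
    rw [Ne, (hEA ρ (Set.mem_univ ρ)).analyticOrderAt_eq_zero]
    exact fun h4 => h4 h3
  rw [Nat.one_le_iff_ne_zero]
  intro h4
  apply h0
  rw [← Nat.cast_analyticOrderNatAt htop, h4]
  rfl

/-- the logarithmic derivative at `1 + δ + i u` -/
lemma near_one {K L l R δ c₂ u : ℝ} (hK : 0 < K) (hL : 0 < L) (hl : 0 < l)
    (hR : R = K * l / (4 * L)) (hR0 : 0 < R) (hδ0 : 0 < δ) (hδ1 : δ ≤ 1) (hu : R < u)
    (hexp : Real.exp l = L) (hc₂ : 0 < c₂)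
    (hc : ∀ s : ℂ, 1 < s.re → s.re ≤ 2 → c₂ * (s.re - 1) ≤ ‖riemannZeta s‖)
    (hbig : 8 ≤ L ^ 2 * (c₂ * δ))
    (hb : ∀ z ∈ ball (((1 + δ : ℝ) : ℂ) + u * I) R, ‖riemannZeta z‖ ≤ (2 * L) ^ 3) :
    ∃ S : Finset ℂ, (∀ z, z ∈ S ↔ z ∈ closedBall (((1 + δ : ℝ) : ℂ) + u * I) (R / 2) ∧
        riemannZeta z = 0) ∧
      (LSeries Lam (((1 + δ : ℝ) : ℂ) + u * I)).re ≤
        -(∑ c ∈ S, (analyticOrderNatAt riemannZeta c : ℂ) /
          ((((1 + δ : ℝ) : ℂ) + u * I) - c)).re + 1080 * L / K := by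
  set s₀ : ℂ := ((1 + δ : ℝ) : ℂ) + u * I with hs₀
  have hre : s₀.re = 1 + δ := by simp [hs₀]
  have him : s₀.im = u := by simp [hs₀]
  have hne : riemannZeta s₀ ≠ 0 := riemannZeta_ne_zero_of_one_lt_re (by rw [hre]; (clear * - hδ0; linarith))
  have hd : DifferentiableOn ℂ riemannZeta (ball s₀ R) := by
    intro z hz
    refine (differentiableAt_riemannZeta ?_).differentiableWithinAt
    rintro rfl
    rw [mem_ball, dist_eq_norm] at hz
    have h1 := Complex.abs_im_le_norm (1 - s₀)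
    rw [Complex.sub_im, him, Complex.one_im, zero_sub, abs_neg] at h1
    have h2 := le_abs_self u
    (clear * - hu hz h1 h2; linarith)
  have hlow := hc s₀ (by rw [hre]; linarith) (by rw [hre]; linarith)
  rw [hre, add_sub_cancel_left] at hlow
  have hM : 0 < 5 * l := by positivity
  have hb' : ∀ z ∈ ball s₀ R, ‖riemannZeta z‖ ≤ Real.exp (5 * l) * ‖riemannZeta s₀‖ := by
    intro z hz
    refine (hb z hz).trans ?_
    have h1 : Real.exp (5 * l) = L ^ 5 := by
      rw [← hexp, ← Real.exp_nat_mul]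
      norm_num
    rw [h1]
    calc (2 * L) ^ 3 = L ^ 3 * 8 := by ring
      _ ≤ L ^ 3 * (L ^ 2 * (c₂ * δ)) := by (clear * - hbig hL; gcongr)
      _ = L ^ 5 * (c₂ * δ) := by ring
      _ ≤ L ^ 5 * ‖riemannZeta s₀‖ := by gcongr
  obtain ⟨S, hS, -, hld⟩ := landau hR0 hM hd hne hb'
  refine ⟨S, hS, ?_⟩
  have h1 := hld s₀ (mem_closedBall_self (by positivity)) hne
  rw [deriv_zeta_div (by rw [hre]; linarith)] at h1
  have h2 : 54 * (5 * l) / R = 1080 * L / K := by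
    rw [hR]
    field_simp
    ring
  rw [h2] at h1
  have h3 := (abs_le.1 ((Complex.abs_re_le_norm _).trans h1)).1
  rw [Complex.sub_re, Complex.neg_re] at h3
  (clear * - h3; linarith)

lemma re_nonneg_aux {s c : ℂ} (h : c.re < s.re) (m : ℕ) : 0 ≤ ((m : ℂ) / (s - c)).re := by
  have h4 : ((m : ℂ) / (s - c)) = ((m : ℝ) : ℂ) * (1 / (s - c)) := by push_cast; ring
  rw [h4, Complex.re_ofReal_mul, one_div, Complex.inv_re]
  refine mul_nonneg (Nat.cast_nonneg _) (div_nonneg ?_ (Complex.normSq_nonneg _))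
  rw [Complex.sub_re]
  linarith

theorem zfr_pos (C₀ : ℝ) (hC₀ : 0 < C₀) : ∃ T₀ : ℝ, 3 ≤ T₀ ∧ ∀ ρ : ℂ, riemannZeta ρ = 0 →
    T₀ ≤ ρ.im → ρ.re ≤ 1 - C₀ / Real.log ρ.im := by
  obtain ⟨C₁, hC₁, hV⟩ := VV_bound
  obtain ⟨c₂, hc₂, hlow⟩ := zeta_lower
  set κ : ℝ := 1 / 54000 with hκ
  have hκ0 : 0 < κ := by rw [hκ]; norm_num
  set K : ℝ := 1 + 4 * C₀ / κ with hKdef
  have hK1 : 1 ≤ K := by rw [hKdef]; have : 0 < 4 * C₀ / κ := by positivity
                         (clear * - this; linarith)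
  have hK0 : 0 < K := by (clear * - hK1; linarith)
  have hKC : 4 * C₀ ≤ κ * K := by
    rw [hKdef, mul_add, mul_div_cancel₀ _ hκ0.ne']
    (clear * - hκ0; linarith)
  obtain ⟨t₀, ht₀, hA6⟩ := Pool.Agent.M17.Helper67.KSZ.A6 K hK1
  set A : ℝ := 100 + t₀ + 30 * C₁ * (κ * K) + 8 / (c₂ * (κ * K)) + K + 2 * (κ * K) with hA
  have hp1 : 0 < 30 * C₁ * (κ * K) := by positivity
  have hp2 : 0 < 8 / (c₂ * (κ * K)) := by positivity
  have hp3 : 0 < 2 * (κ * K) := by positivity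
  have hA0 : 0 < A := by rw [hA]; linarith
  obtain ⟨T₁, hT₁⟩ := eventually_atTop.1 (large_conditions A hA0)
  refine ⟨max 3 T₁, le_max_left _ _, fun ρ hρ hγ => ?_⟩
  obtain ⟨hc1, hc2, hc3, hc4⟩ := hT₁ ρ.im ((le_max_right _ _).trans hγ)
  set γ : ℝ := ρ.im with hγdef
  set L : ℝ := Real.log γ with hL
  set l : ℝ := Real.log L with hl
  have hγ3 : 3 ≤ γ := (le_max_left _ _).trans hγ
  have hLA : 100 ≤ L := by rw [hA] at hc2; linarith
  have hlA : 100 ≤ l := by rw [hA] at hc3; linarith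
  have hL0 : 0 < L := by (clear * - hC₀ hK1 hKC ht₀ hp1 hp2 hc2; linarith)
  have hl0 : 0 < l := by (clear * - hC₀ hK1 hKC ht₀ hp1 hp2 hc3; linarith)
  have hexp : Real.exp l = L := Real.exp_log hL0
  set R : ℝ := K * l / (4 * L) with hR
  have hR0 : 0 < R := by positivity
  have hKl : K * l ≤ L := by
    refine le_trans ?_ hc4
    refine mul_le_mul_of_nonneg_right ?_ hl0.le
    rw [hA]
    (clear * - hC₀ hKC ht₀ hA hp1 hp2; linarith)
  have hR1 : R ≤ 1 / 4 := by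
    rw [hR, div_le_iff₀ (by positivity)]
    (clear * - hKl; linarith)
  set δ : ℝ := κ * K / L with hδ
  have hδ0 : 0 < δ := by positivity
  have hδ1 : δ ≤ 1 / 2 := by
    rw [hδ, div_le_iff₀ hL0]
    rw [hA] at hc2
    linarith
  have hδC : 3 * C₁ ≤ 1 / (10 * δ) := by
    rw [le_div_iff₀ (by positivity)]
    have h1 : 30 * C₁ * (κ * K) ≤ L := by rw [hA] at hc2; linarith
    have h2 : 3 * C₁ * (10 * δ) = 30 * C₁ * (κ * K) / L := by rw [hδ]; ring
    rw [h2, div_le_one hL0]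
    exact h1
  have hbig : 8 ≤ L ^ 2 * (c₂ * δ) := by
    have h1 : 8 / (c₂ * (κ * K)) ≤ L := by rw [hA] at hc2; linarith
    rw [div_le_iff₀ (by positivity)] at h1
    have h2 : L ^ 2 * (c₂ * δ) = L * (c₂ * (κ * K)) := by
      rw [hδ]
      field_simp
    rw [h2]
    exact h1
  -- growth
  have hLup : Real.log (2 * γ + 1) ≤ 2 * L := by
    have h1 : Real.log (2 * γ + 1) ≤ Real.log (γ ^ 2) := Real.log_le_log (by (clear * - hC₀ hK1 hKC ht₀ hp1 hp2 hc1 hR0 hR1; linarith)) (by (clear * - hK1 hKC ht₀ hc1 hR0 hR1 hC₀ hC₁ hp1 hp2; nlinarith))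
    rw [Real.log_pow] at h1
    push_cast at h1
    exact h1
  have hLlow : L / 2 ≤ Real.log (γ - 1) := by
    have h1 : Real.log γ ≤ Real.log ((γ - 1) ^ 2) := Real.log_le_log (by (clear * - hC₀ hK1 hKC ht₀ hp1 hp2 hc1 hR0 hR1; linarith)) (by (clear * - hK1 ht₀ hc1 hR0 hR1 hC₀ hκ0 hKC hp1 hp2 hA; nlinarith))
    rw [Real.log_pow] at h1
    push_cast at h1
    (clear * - h1; linarith)
  have hgrow : ∀ z : ℂ, γ - 1 ≤ z.im → z.im ≤ 2 * γ + 1 → 1 - R ≤ z.re →
      ‖riemannZeta z‖ ≤ (2 * L) ^ 3 := by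
    intro z h1 h2 h3
    have h4 : L / 2 ≤ Real.log z.im := hLlow.trans (Real.log_le_log (by (clear * - hC₀ hK1 hKC ht₀ hp1 hp2 hc1 hR0 hR1; linarith)) h1)
    have h5 : Real.log z.im ≤ 2 * L := (Real.log_le_log (by (clear * - hC₀ hK1 hKC ht₀ hp1 hp2 hc1 hR0 hR1 h1; linarith)) h2).trans hLup
    have h6 : l / 2 ≤ Real.log (Real.log z.im) := by
      have h7 : Real.log (L / 2) ≤ Real.log (Real.log z.im) := Real.log_le_log (by positivity) h4
      rw [Real.log_div hL0.ne' (by norm_num)] at h7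
      have h8 := Real.log_two_lt_d9
      (clear * - hC₀ hK1 hKC ht₀ hp1 hp2 hc3 hR0 hR1 h7 h8; linarith)
    have h7 : R ≤ K * Real.log (Real.log z.im) / Real.log z.im := by
      rw [hR, div_le_div_iff₀ (by positivity) (by (clear * - hC₀ hK1 hKC ht₀ hp1 hp2 hc2 hR0 hR1 h4; linarith))]
      have h8 : K * l * Real.log z.im ≤ K * l * (2 * L) := by (clear * - h5 hC₀ hlA; gcongr)
      have h9 : K * (l / 2) * (4 * L) ≤ K * Real.log (Real.log z.im) * (4 * L) := by (clear * - h6 hC₀ hLA; gcongr)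
      have h10 : K * (l / 2) * (4 * L) = K * l * (2 * L) := by ring
      (clear * - h8 h9; linarith)
    have h8 := hA6 z.im z.re (by rw [hA] at hc1; (clear * - hC₀ hK1 hKC hA hp1 hp2 hc1 hR0 hR1 h1; linarith)) (by (clear * - h3 h7; linarith))
    rw [Complex.re_add_im] at h8
    refine h8.trans ?_
    have h9 : 0 ≤ Real.log z.im := by (clear * - hC₀ hK1 hKC ht₀ hp1 hp2 hc2 hR0 hR1 h4; linarith)
    (clear * - h9 h5; gcongr)
  have hball1 : ∀ z ∈ ball (((1 + δ : ℝ) : ℂ) + γ * I) R, ‖riemannZeta z‖ ≤ (2 * L) ^ 3 := by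
    intro z hz
    rw [mem_ball, dist_eq_norm] at hz
    have h1 := Complex.abs_im_le_norm (z - (((1 + δ : ℝ) : ℂ) + γ * I))
    have h2 := Complex.abs_re_le_norm (z - (((1 + δ : ℝ) : ℂ) + γ * I))
    have h3 : (z - (((1 + δ : ℝ) : ℂ) + γ * I)).im = z.im - γ := by simp
    have h4 : (z - (((1 + δ : ℝ) : ℂ) + γ * I)).re = z.re - (1 + δ) := by simp
    rw [h3, abs_le] at h1
    rw [h4, abs_le] at h2
    exact hgrow z (by (clear * - hR0 hR1 hz h1; linarith [h1.1])) (by (clear * - hC₀ hK1 hKC ht₀ hp1 hp2 hc1 hR0 hR1 hz h1; linarith [h1.2])) (by (clear * - hδ0 hz h2; linarith [h2.1]))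
  have hball2 : ∀ z ∈ ball (((1 + δ : ℝ) : ℂ) + ((2 * γ : ℝ) : ℂ) * I) R,
      ‖riemannZeta z‖ ≤ (2 * L) ^ 3 := by
    intro z hz
    rw [mem_ball, dist_eq_norm] at hz
    have h1 := Complex.abs_im_le_norm (z - (((1 + δ : ℝ) : ℂ) + ((2 * γ : ℝ) : ℂ) * I))
    have h2 := Complex.abs_re_le_norm (z - (((1 + δ : ℝ) : ℂ) + ((2 * γ : ℝ) : ℂ) * I))
    have h3 : (z - (((1 + δ : ℝ) : ℂ) + ((2 * γ : ℝ) : ℂ) * I)).im = z.im - 2 * γ := by simp
    have h4 : (z - (((1 + δ : ℝ) : ℂ) + ((2 * γ : ℝ) : ℂ) * I)).re = z.re - (1 + δ) := by simp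
    rw [h3, abs_le] at h1
    rw [h4, abs_le] at h2
    exact hgrow z (by (clear * - hC₀ hK1 hKC ht₀ hp1 hp2 hc1 hR0 hR1 hz h1; linarith [h1.1])) (by (clear * - hR0 hR1 hz h1; linarith [h1.2])) (by (clear * - hδ0 hz h2; linarith [h2.1]))
  obtain ⟨S₁, hS₁, hr₁⟩ := near_one hK0 hL0 hl0 hR hR0 hδ0 (by (clear * - hR0 hR1 hδ1; linarith)) (u := γ) (by (clear * - hC₀ hK1 hKC ht₀ hp1 hp2 hc1 hR0 hR1; linarith))
    hexp hc₂ hlow hbig hball1
  obtain ⟨S₂, hS₂, hr₂⟩ := near_one hK0 hL0 hl0 hR hR0 hδ0 (by (clear * - hR0 hR1 hδ1; linarith)) (u := 2 * γ)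
    (by (clear * - hC₀ hK1 hKC ht₀ hp1 hp2 hc1 hR0 hR1; linarith)) hexp hc₂ hlow hbig hball2
  obtain ⟨hρ1, hρre, -⟩ := zero_facts hρ
  by_contra hcon
  rw [not_le] at hcon
  have hβ : 1 - ρ.re < C₀ / L := by (clear * - hcon; linarith)
  have hC₀L : C₀ / L ≤ δ / 4 := by
    rw [hδ, div_div, div_le_div_iff₀ hL0 (by positivity)]
    (clear * - hKC hC₀ hK1 ht₀ hp1 hp2 hc2; nlinarith)
  -- ρ is in S₁
  have hs1ρ : (((1 + δ : ℝ) : ℂ) + γ * I) - ρ = ((1 + δ - ρ.re : ℝ) : ℂ) := by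
    apply Complex.ext
    · simp
    · simp [hγdef]
  have hδR : δ + δ / 4 ≤ R / 2 := by
    have h1 : δ * (5 / 4) = (κ * K * 5 / 4) / L := by rw [hδ]; ring
    have h2 : R / 2 = (K * l / 8) / L := by rw [hR]; field_simp; ring
    have h3 : δ + δ / 4 = δ * (5 / 4) := by ring
    rw [h3, h1, h2]
    apply div_le_div_of_nonneg_right _ hL0.le
    have h4 : κ ≤ 1 := by rw [hκ]; norm_num
    (clear * - hK1 ht₀ hp2 hc3 hδ1 hρre hcon hC₀L hC₀ hκ0 hKC hA hp1; nlinarith)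
  have hρS : ρ ∈ S₁ := by
    rw [hS₁]
    refine ⟨?_, hρ⟩
    rw [mem_closedBall, dist_comm, dist_eq_norm, hs1ρ, Complex.norm_real, Real.norm_eq_abs,
      abs_of_pos (by (clear * - hρre hcon hC₀L; linarith))]
    (clear * - hcon hC₀L hδR; linarith)
  have hsum1 : 1 / (1 + δ - ρ.re) ≤ (∑ c ∈ S₁, (analyticOrderNatAt riemannZeta c : ℂ) /
      ((((1 + δ : ℝ) : ℂ) + γ * I) - c)).re := by
    rw [Complex.re_sum]
    have h1 : 1 / (1 + δ - ρ.re) ≤ ((analyticOrderNatAt riemannZeta ρ : ℂ) /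
        ((((1 + δ : ℝ) : ℂ) + γ * I) - ρ)).re := by
      rw [hs1ρ]
      have h2 : ((analyticOrderNatAt riemannZeta ρ : ℂ) / ((1 + δ - ρ.re : ℝ) : ℂ)) =
        (((analyticOrderNatAt riemannZeta ρ : ℝ) / (1 + δ - ρ.re) : ℝ) : ℂ) := by push_cast; ring
      rw [h2, Complex.ofReal_re]
      apply div_le_div_of_nonneg_right _ (by (clear * - hρre hcon hC₀L; linarith))
      exact_mod_cast order_pos hρ
    refine h1.trans (Finset.single_le_sum (f := fun c => ((analyticOrderNatAt riemannZeta c : ℂ) /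
        ((((1 + δ : ℝ) : ℂ) + γ * I) - c)).re) (fun c hc => ?_) hρS)
    refine re_nonneg_aux ?_ _
    have h3 := (zero_facts ((hS₁ c).1 hc).2).2.1
    have h4 : ((((1 + δ : ℝ) : ℂ) + γ * I)).re = 1 + δ := by simp
    rw [h4]
    (clear * - hρre hcon hC₀L h3; linarith)
  have hsum2 : 0 ≤ (∑ c ∈ S₂, (analyticOrderNatAt riemannZeta c : ℂ) /
      ((((1 + δ : ℝ) : ℂ) + ((2 * γ : ℝ) : ℂ) * I) - c)).re := by
    rw [Complex.re_sum]
    refine Finset.sum_nonneg fun c hc => re_nonneg_aux ?_ _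
    have h3 := (zero_facts ((hS₂ c).1 hc).2).2.1
    have h4 : ((((1 + δ : ℝ) : ℂ) + ((2 * γ : ℝ) : ℂ) * I)).re = 1 + δ := by simp
    rw [h4]
    (clear * - hρre hcon hC₀L h3; linarith)
  have h341 := three_four_one (σ := 1 + δ) (by (clear * - hρre hcon hC₀L; linarith)) γ
  have hV1 := hV (1 + δ) (by (clear * - hρre hcon hC₀L; linarith)) (by (clear * - hR1 hρre hcon hC₀L hδR; linarith))
  rw [add_sub_cancel_left] at hV1
  have hLK : 1080 * L / K = 1 / (50 * δ) := by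
    rw [hδ, hκ]
    field_simp
    norm_num
  rw [hLK] at hr₁ hr₂
  have hfin : 4 * (1 / (1 + δ - ρ.re)) ≤ 3 * (1 / δ) + 3 * C₁ + 5 * (1 / (50 * δ)) := by
    (clear * - hr₁ hr₂ hsum1 hsum2 h341 hV1; linarith)
  have h5 : 5 * (1 / (50 * δ)) = 1 / (10 * δ) := by field_simp; norm_num
  have h6 : 3 * (1 / δ) + 1 / (10 * δ) + 1 / (10 * δ) = 16 / (5 * δ) := by field_simp; norm_num
  have h7 : 4 * (1 / (1 + δ - ρ.re)) ≤ 16 / (5 * δ) := by (clear * - hδC hr₁ hr₂ hsum1 hsum2 h341 hV1 h5 h6; linarith)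
  have h8 : 0 < 1 + δ - ρ.re := by (clear * - hρre hcon hC₀L; linarith)
  rw [mul_one_div, div_le_div_iff₀ h8 (by (clear * - hC₀ hLA; positivity))] at h7
  (clear * - hcon hC₀L h7; linarith)

/-- **(A10)** -/
theorem inA10 : Pool.Agent.M17.Helper18.KSZ.InA10 := by
  intro C0
  obtain ⟨T₀, hT₀, h⟩ := zfr_pos (max C0 1) (lt_max_of_lt_right one_pos)
  refine ⟨T₀, by linarith, fun ρ hρ hγ => ?_⟩
  have hlog : 0 < Real.log |ρ.im| := Real.log_pos (by linarith)
  have hmain : ρ.re ≤ 1 - max C0 1 / Real.log |ρ.im| := by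
    rcases le_total 0 ρ.im with h1 | h1
    · rw [abs_of_nonneg h1] at hγ ⊢
      exact h ρ hρ hγ
    · rw [abs_of_nonpos h1] at hγ ⊢
      have h2 : riemannZeta ((starRingEnd ℂ) ρ) = 0 := by
        rw [riemannZeta_conj, hρ, map_zero]
      have h3 := h ((starRingEnd ℂ) ρ) h2 (by rw [Complex.conj_im]; exact hγ)
      rwa [Complex.conj_im, Complex.conj_re] at h3
  refine hmain.trans ?_
  have h4 : C0 / Real.log |ρ.im| ≤ max C0 1 / Real.log |ρ.im| :=
    div_le_div_of_nonneg_right (le_max_left _ _) hlog.le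
  (clear * - h4; linarith)

end Pool.Agent.M17.Helper33.KSZ
end
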