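import Mathlib
import Pool.Agent.Helper53.KM.G06
import Pool.Agent.Helper53.KM.G12
import Pool.Agent.Helper53.KM.G14
import Pool.Agent.Helper53.KM.G26

/- Helper53.KN.Helper35.KE.Numeric -/
section
/-! CountE2 (cells with few products `q m`, `m ~ X^b` prime, `b = (1-e)/2`): the numerical lemma. -/

set_option autoImplicit false

namespace Pool.Agent.M17.Helper35.KE
open Pool.Agent.M17.Helper60.KS

/-- numerical lemma for the classes of zeros with `|P(ρ)| ~ M^(x-y)`, `M = X^b`, `e = 1 - 2b` -/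
def NumericE2 (e : ℝ) : Prop := ∀ ε0 : ℝ, 0 < ε0 → ε0 ≤ 1/100 → ∀ ε x n y r ϱ : ℝ, 0 < ε → ε ≤ ε0 / 10 ^ 5 →
  ε0 ≤ x → x ≤ 0.4 + ε → 0 < n → n ≤ yy x + ε →
  (∀ k : ℕ, 1 ≤ k → (k : ℝ) ≤ 4 / n → r ≤ max (2 * x * (k * n)) (1 - k * n * (2 - 6 * x)) + ε) →
  r ≤ 2 * (1 - e) * y + e + ε →
  (r ≤ 2 * (1 + e) * x - ε →
    ϱ ≤ max (e + r - 2 * (1 + e) * x) (4 * (e + r - 2 * (1 + e) * x) - 1) + ε) →
  (∀ j : ℕ, 1 ≤ j → (j : ℝ) ≤ 4 / n → r + 2 * x * (j * n) ≤ 2 * ((1 + e) * x + (1 - e) * y) - ε →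
    ϱ ≤ max (1 + r - 2 * ((1 + e) * x + (1 - e) * y) - j * n * (1 - 2 * x))
      (4 * (1 + r - 2 * ((1 + e) * x + (1 - e) * y) - j * n * (1 - 2 * x)) - 1) + ε) →
  ϱ ≤ 0.34

lemma fin {w ε ϱ : ℝ} (h : ϱ ≤ max w (4 * w - 1) + ε) (hw : w ≤ 0.3348) (hε : ε ≤ 1 / 10000) : ϱ ≤ 0.34 := by
  have h1 : max w (4 * w - 1) ≤ 0.3392 := max_le (by (clear * - hw; linarith)) (by linarith)
  linarith

/-- largest multiple below `c` -/
lemma mult {n c : ℝ} (hn : 0 < n) (hc : n ≤ c) : ∃ K : ℕ, 1 ≤ K ∧ (K : ℝ) * n ≤ c ∧ c < ((K : ℝ) + 1) * n := by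
  refine ⟨⌊c / n⌋₊, ?_, ?_, ?_⟩
  · rw [Nat.one_le_floor_iff, le_div_iff₀ hn]; (clear * - hc; linarith)
  · have h0 : 0 ≤ c / n := div_nonneg (by linarith) hn.le
    have := Nat.floor_le h0
    rwa [le_div_iff₀ hn] at this
  · have := Nat.lt_floor_add_one (c / n)
    rwa [div_lt_iff₀ hn] at this

theorem numericE2 (e : ℝ) (he0 : 0 ≤ e) (he1 : e ≤ 0.04) : NumericE2 e := by
  intro ε0 h0 h1 ε x n y r ϱ hε0 hε hx0 hx1 hn0 hn hH hP1 hP2 hS
  have hεs : ε ≤ 1 / 10 ^ 7 := by (clear * - h1 hε; linarith)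
  have hxp : 0 < x := by (clear * - hε0 hε hx0; linarith)
  have hex0 : 0 ≤ e * x := by positivity
  by_cases hr : r ≤ 2 * (1 + e) * x - ε
  · exact fin (hP2 hr) (by (clear * - he1 h1 hε0 hε hr; linarith)) (by (clear * - h1 hε0 hε; linarith))
  rw [not_le] at hr
  -- the S bound for a multiple m
  have key : ∀ K : ℕ, 1 ≤ K → (K : ℝ) * n ≤ 1.04 → 2 * x * (K * n) ≤ 2 * (1 + e) * x - e - 2 * ε →
      (1 + e) - 2 * (1 + e) * x - K * n * (1 - 2 * x) + ε ≤ 0.3348 → ϱ ≤ 0.34 := by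
    intro K hK hK1 hK2 hK3
    refine fin (hS K hK ?_ (by (clear * - hP1 hK2; linarith))) ?_ (by (clear * - h1 hε0 hε; linarith))
    · rw [le_div_iff₀ hn0]; (clear * - h1 hε0 hε hK1; linarith)
    · (clear * - hP1 hK3; linarith)
  have hy1 : n ≤ 1/3 / (1 - 2 * x) + ε ∧ n ≤ 2/7 / (5/7 - x) + ε := by
    unfold yy at hn
    exact ⟨by (clear * - hn; linarith [min_le_left ((1/3) / (1 - 2 * x)) ((2/7) / (5/7 - x))]),
      by (clear * - hn; linarith [min_le_right ((1/3) / (1 - 2 * x)) ((2/7) / (5/7 - x))])⟩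
  obtain ⟨hy1, hy2⟩ := hy1
  rcases le_or_gt 0.22 x with hx | hx
  · -- x ≥ 0.22
    have hn1 : n ≤ 0.92 := by
      have h3 : 2/7 / (5/7 - x) ≤ 0.91 := by
        rw [div_le_iff₀ (by (clear * - h1 hε0 hε hx1; linarith))]; (clear * - h1 hε0 hε hx1; linarith)
      (clear * - h1 hε0 hε hy2 h3; linarith)
    obtain ⟨K, hK, hK1, hK2⟩ := mult (c := 0.948) hn0 (by (clear * - h1 hε0 hε hn1; linarith))
    have hKr : (1:ℝ) ≤ K := by exact_mod_cast hK
    have hm : 0.474 ≤ (K:ℝ) * n := by (clear * - hKr hK2; nlinarith)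
    have hex : e * 0.22 ≤ e * x := mul_le_mul_of_nonneg_left hx he0
    have hxm : x * (K * n) ≤ x * 0.948 := mul_le_mul_of_nonneg_left hK1 hxp.le
    have hm2 : 0.474 * (1 - 2 * x) ≤ (K:ℝ) * n * (1 - 2 * x) := mul_le_mul_of_nonneg_right hm (by (clear * - h1 hε0 hε hx1; linarith))
    refine key K hK (by (clear * - h1 hε0 hε hK1; linarith)) ?_ ?_
    · (clear * - he1 h1 hε0 hε hx hex hxm; linarith)
    · (clear * - he1 h1 hε0 hε hx hex hm2; linarith)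
  · have hn1 : n ≤ 0.6 := by
      have h3 : 1/3 / (1 - 2 * x) ≤ 0.5953 := by
        rw [div_le_iff₀ (by (clear * - h1 hε0 hε hx1; linarith))]; (clear * - h1 hε0 hε hx; linarith)
      (clear * - h1 hε0 hε hy1 h3; linarith)
    obtain ⟨K, hK, hK1, hK2⟩ := mult (c := 0.999 + e) hn0 (by (clear * - he0 h1 hε0 hε hn1; linarith))
    set m : ℝ := (K:ℝ) * n with hm
    have hKr : (1:ℝ) ≤ K := by exact_mod_cast hK
    have hm0 : 0 < m := by positivity
    have hm1 : n ≤ m := by rw [hm]; (clear * - h1 hε0 hε hn0 hKr; nlinarith)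
    have hex : e * x ≤ e * 0.22 := mul_le_mul_of_nonneg_left hx.le he0
    have hsm : m * (2 - 6 * x) ≤ 1 - 2 * (1 + e) * x + 2 * ε := by
      by_contra hcon
      rw [not_le] at hcon
      have h4 := hH K hK (by rw [le_div_iff₀ hn0]; (clear * - he1 h1 hε0 hε hK1; linarith))
      have h5 : max (2 * x * m) (1 - m * (2 - 6 * x)) < 2 * (1 + e) * x - 2 * ε := by
        refine max_lt ?_ (by (clear * - hcon; linarith))
        have h6 : x * m ≤ x * (0.999 + e) := mul_le_mul_of_nonneg_left hK1 hxp.le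
        have h7 : 1000 * ε < x := by (clear * - hε0 hε hx0; linarith)
        (clear * - hε0 hε hx0 h6; linarith)
      (clear * - hr h4 h5; linarith)
    have hm74 : m ≤ 0.83 := by
      by_contra hcon
      rw [not_le] at hcon
      have : 0.83 * (2 - 6 * x) ≤ m * (2 - 6 * x) := mul_le_mul_of_nonneg_right hcon.le (by (clear * - h1 hε0 hε hx; linarith))
      (clear * - h1 hε0 hε hex0 hx hsm this; linarith)
    have hxm : x * m ≤ x * 0.83 := mul_le_mul_of_nonneg_left hm74 hxp.le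
    have hcond : 0.16 ≤ x → 2 * x * m ≤ 2 * (1 + e) * x - e - 2 * ε := by
      intro hx16
      have : e * 0.16 ≤ e * x := mul_le_mul_of_nonneg_left hx16 he0
      (clear * - he1 h1 hε0 hε hex0 hxm hx16; linarith)
    rcases Nat.lt_or_ge 1 K with h2 | h2
    · have hK2r : (2:ℝ) ≤ K := by exact_mod_cast h2
      have h8 : 2 * n ≤ m := by rw [hm]; (clear * - hn0 hK2r; nlinarith)
      have h9 : 0.666 * (1 + e) ≤ m := by
        have : (K + 1 : ℝ) * n = m + n := by rw [hm]; ring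
        rw [this] at hK2
        (clear * - he0 hK2 h8; linarith)
      have h9' : 0.666 * (1 + e) * (2 - 6 * x) ≤ m * (2 - 6 * x) := mul_le_mul_of_nonneg_right h9 (by (clear * - h1 hε0 hε hx; linarith))
      have h10 : 0.16 ≤ x := by (clear * - he0 h1 hε0 hε hex hsm h9'; nlinarith)
      have h11 : 0.666 * (1 + e) * (1 - 2 * x) ≤ m * (1 - 2 * x) := mul_le_mul_of_nonneg_right h9 (by (clear * - h1 hε0 hε hx; linarith))
      refine key K hK (by (clear * - h1 hε0 hε hex0 hx hsm hxm; linarith)) (hcond h10) ?_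
      have hex1 : e * 0.16 ≤ e * x := mul_le_mul_of_nonneg_left h10 he0
      (clear * - he1 h1 hε0 hε hex0 hK2 hsm hxm h8; linarith)
    · have hK' : K = 1 := by (clear * - hK h2; omega)
      have hmn : m = n := by rw [hm, hK']; simp
      have h9 : 0.999 + e ≤ 2 * m := by
        have : (K + 1 : ℝ) * n = m + n := by rw [hm]; ring
        rw [this] at hK2
        (clear * - hK2 hm1; linarith)
      have h12 : (n - ε) * (1 - 2 * x) ≤ 1/3 := by
        have h11 : n - ε ≤ 1/3 / (1 - 2 * x) := by (clear * - hy1; linarith)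
        rwa [le_div_iff₀ (by (clear * - h1 hε0 hε hx1; linarith))] at h11
      have h13 : (0.4995 - ε) * (1 - 2 * x) ≤ (n - ε) * (1 - 2 * x) :=
        mul_le_mul_of_nonneg_right (by (clear * - he0 hK2 hmn; linarith)) (by (clear * - h1 hε0 hε hx1; linarith))
      have h10 : 0.16 ≤ x := by (clear * - h1 hε h12 h13 h0 hε0 hx0; nlinarith)
      have h14 : (1 + e) * (1 - 2 * x) ≤ (2 * m + 0.001) * (1 - 2 * x) :=
        mul_le_mul_of_nonneg_right (by (clear * - hK2 hm1; linarith)) (by (clear * - h1 hε0 hε hx1; linarith))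
      refine key K hK (by (clear * - h1 hε0 hε hn1 hmn; linarith)) (hcond h10) ?_
      rw [hmn] at h14
      have h15 : ε * (1 - 2 * x) ≤ ε := by (clear * - hε0 hε hx0; nlinarith)
      have h16 : (K:ℝ) * n * (1 - 2 * x) = n * (1 - 2 * x) := by rw [← hm, hmn]
      rw [h16]
      (clear * - h1 hε0 hε h12 h13 h14 h15; linarith)

end Pool.Agent.M17.Helper35.KE
end

/- Helper53.KN.Helper35.KE.ClassBound -/
section
/-! CountE2: the bound for one class of zeros, with the factor `P(ρ) = ∑_{M < p ≤ 2M} p^(-ρ)`, `M ~ X^θ`,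
`0.48 ≤ θ ≤ 1/2`. -/

set_option autoImplicit false
set_option maxHeartbeats 4000000
open Filter Topology
open scoped Classical

namespace Pool.Agent.M17.Helper35.KE
open Pool.Agent.M17.Helper60.KS Pool.Agent.M17.Helper60.KC

/-- coefficients of the prime polynomial -/
noncomputable def prc (n : ℕ) : ℂ := if n.Prime then 1 else 0

/-- one class of zeros: height `T^(1/2+2d)`, real parts near `1 - x`, detected by `DP g N 2`, and with
`V ≤ |P(ρ)| ≤ 2 V` -/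
def ClassBoundE2a (θ : ℝ) : Prop := ∀ ε0 δ d : ℝ, 0 < ε0 → ε0 ≤ 1/100 → δ = ε0 / 10 ^ 7 → 0 < d → d ≤ δ → ∃ X0 : ℝ,
  ∀ (X x V : ℝ) (M : ℕ) (Z : Finset ℂ) (c : ℂ → ℂ) (g : ℕ → ℂ) (N : ℕ) (U : Finset ℝ), X0 ≤ X → ε0 ≤ x →
  x ≤ 0.4 + δ → InStrip Z (1 - x) (1 - x + δ) (X ^ (1/2 + 2 * d) + 1) → Spaced1 Z →
  (∀ n, ‖g n‖ ≤ (n.divisors.card : ℝ)) →
  X ^ δ / 2 ≤ N → (N : ℝ) ≤ X ^ (yy x / 2 + 45 * δ) → (∀ ρ ∈ Z, 1 / (16 * Real.log X) ≤ ‖DP g N 2 ρ‖) →
  X ^ θ / 4 ≤ M → (M : ℝ) ≤ X ^ θ → X ^ (-2 : ℝ) ≤ V →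
  (∀ ρ ∈ Z, V ≤ ‖DP prc M 2 ρ‖ ∧ ‖DP prc M 2 ρ‖ ≤ 2 * V) →
  (∀ ρ ∈ Z, ‖c ρ‖ ≤ Real.log X ^ 2) → (∀ u ∈ U, Real.log X ≤ u ∧ u ≤ Real.log X + 1) →
  SpacedR U (1 / X ^ (1/2 + 2 * d)) →
  (∀ u ∈ U, 1 / Real.log X ^ 6 ≤ ‖∑ ρ ∈ Z, c ρ * DP prc M 2 ρ * Complex.exp ((ρ - 1) * (u : ℂ))‖) →
  (U.card : ℝ) ≤ X ^ (0.17 : ℝ)

/-- hypotheses of `ClassBoundE2a` -/
structure Cls2 (θ ε0 δ d X x V : ℝ) (M : ℕ) (Z : Finset ℂ) (c : ℂ → ℂ) (g : ℕ → ℂ) (N : ℕ) (U : Finset ℝ) :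
    Prop where
  ht0 : 0.48 ≤ θ
  ht1 : θ ≤ 1/2
  hx0 : ε0 ≤ x
  hx1 : x ≤ 0.4 + δ
  hs : InStrip Z (1 - x) (1 - x + δ) (X ^ (1/2 + 2 * d) + 1)
  hsp : Spaced1 Z
  hg : ∀ n, ‖g n‖ ≤ (n.divisors.card : ℝ)
  hN0 : X ^ δ / 2 ≤ N
  hN1 : (N : ℝ) ≤ X ^ (yy x / 2 + 45 * δ)
  hD : ∀ ρ ∈ Z, 1 / (16 * Real.log X) ≤ ‖DP g N 2 ρ‖
  hM0 : X ^ θ / 4 ≤ M
  hM1 : (M : ℝ) ≤ X ^ θ
  hV : X ^ (-2 : ℝ) ≤ V
  hP : ∀ ρ ∈ Z, V ≤ ‖DP prc M 2 ρ‖ ∧ ‖DP prc M 2 ρ‖ ≤ 2 * V
  hc : ∀ ρ ∈ Z, ‖c ρ‖ ≤ Real.log X ^ 2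
  hU : ∀ u ∈ U, Real.log X ≤ u ∧ u ≤ Real.log X + 1
  hUs : SpacedR U (1 / X ^ (1/2 + 2 * d))
  hS : ∀ u ∈ U, 1 / Real.log X ^ 6 ≤ ‖∑ ρ ∈ Z, c ρ * DP prc M 2 ρ * Complex.exp ((ρ - 1) * (u : ℂ))‖

lemma Cls2.toCls {θ ε0 δ d X x V : ℝ} {M : ℕ} {Z : Finset ℂ} {c : ℂ → ℂ} {g : ℕ → ℂ} {N : ℕ} {U : Finset ℝ}
    (h : Cls2 θ ε0 δ d X x V M Z c g N U) : Cls ε0 δ d X x Z (fun _ => 0) g N ∅ where
  hx0 := h.hx0
  hx1 := h.hx1
  hs := h.hs
  hsp := h.hsp
  hg := h.hg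
  hN0 := h.hN0
  hN1 := h.hN1
  hD := h.hD
  hc := fun ρ _ => by simp; positivity
  hU := by simp
  hUs := by intro u hu; simp at hu
  hS := by simp

lemma prc_le (n : ℕ) : ‖prc n‖ ≤ 1 := by
  unfold prc; split_ifs <;> simp

/-- size of `M` -/
lemma logM {θ ε0 δ d X x V : ℝ} {M : ℕ} {Z : Finset ℂ} {c : ℂ → ℂ} {g : ℕ → ℂ} {N : ℕ} {U : Finset ℝ}
    (h : Cls2 θ ε0 δ d X x V M Z c g N U) (hX : 8 ≤ X) : 1 ≤ M ∧ Real.log M ≤ θ * Real.log X ∧
      θ * Real.log X - 2 ≤ Real.log M ∧ (M : ℝ) ≤ X ^ (1/2 + 2 * d) ∨ d ≤ 0 := by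
  rcases le_or_gt d 0 with hd | hd
  · right; exact hd
  left
  have hX0 : (0:ℝ) < X := by (clear * - hX; linarith)
  have hp : (0:ℝ) < X ^ θ := Real.rpow_pos_of_pos hX0 _
  have hMp : (0:ℝ) < M := by (clear * - hp h; linarith [h.hM0])
  have hM1 : 1 ≤ M := by
    have : 0 < M := by exact_mod_cast hMp
    omega
  refine ⟨hM1, ?_, ?_, ?_⟩
  · rw [← Real.log_rpow hX0]; exact Real.log_le_log hMp h.hM1
  · have h3 : Real.log (X ^ θ / 4) ≤ Real.log M := Real.log_le_log (by positivity) h.hM0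
    rw [Real.log_div (by positivity) (by norm_num), Real.log_rpow hX0] at h3
    have h4 : Real.log 4 ≤ 2 := by
      rw [show (4:ℝ) = 2 ^ 2 by norm_num, Real.log_pow]; have := Real.log_two_lt_d9; push_cast; (clear * - this; linarith)
    (clear * - h3 h4; linarith)
  · refine le_trans h.hM1 ?_
    exact Real.rpow_le_rpow_of_exponent_le (by (clear * - hX; linarith)) (by linarith [h.ht1])

/-- mean value bound for `P` -/
lemma Q1 (hMV : MVCount) {θ ε0 δ d : ℝ} (hp : Par ε0 δ d) :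
    ∀ᶠ X : ℝ in atTop, ∀ (x V : ℝ) (M : ℕ) (Z : Finset ℂ) (c : ℂ → ℂ) (g : ℕ → ℂ) (N : ℕ) (U : Finset ℝ),
    Cls2 θ ε0 δ d X x V M Z c g N U → Z.Nonempty →
    Real.log Z.card + 2 * Real.log V ≤ (1/2 - θ + 2 * θ * x) * Real.log X + 40 * δ * Real.log X := by
  have hδ := hp.dpos
  have hδ' := hp.dsmall
  have hd4 := hp.h4
  have hd5 := hp.h5
  obtain ⟨C, hC, hmv⟩ := hMV 2 (by norm_num)
  filter_upwards [base hp, small (Real.log C + 10 + Real.log 2) 2 δ hδ] with X hb hsm x V M Z c g N U h hZ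
  obtain ⟨h8, hl, hN, hq0, hq1, hq2⟩ := hb x Z _ g N _ h.toCls
  have hx0 := h.hx0
  have hx1 := h.hx1
  have h1 := hp.h1
  obtain ⟨hT1, hT2, hT3⟩ := logT h8 hd4
  have hX0 : (0:ℝ) < X := by (clear * - hδ hδ' h8; linarith)
  rcases logM h h8 with ⟨hM, hM1, hM2, hM3⟩ | hd0
  swap
  · (clear * - hd4 hd0; linarith)
  have hl0 : 0 < Real.log X := by (clear * - hδ hδ' hl; linarith)
  have hZc : (0:ℝ) < Z.card := by exact_mod_cast hZ.card_pos
  have hVp : 0 < V := lt_of_lt_of_le (Real.rpow_pos_of_pos hX0 _) h.hV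
  set l := Real.log X with hldef
  set T := X ^ (1/2 + 2 * d) + 1 with hTdef
  have hmain := hmv Z prc M 1 V (1 - x) (1 - x + δ) T (1 / l) hM
    (by (clear * - hδ hδ' hT1; linarith)) (by (clear * - hl; positivity)) (by rw [div_le_div_iff₀ hl0 (by norm_num)]; (clear * - hδ hδ' hl; linarith)) (by (clear * - hδ hδ' hx1; linarith))
    (by (clear * - hδ; linarith)) (by (clear * - hδ hδ'; linarith)) (by have := hp.h3; (clear * - hx0 h1 this; linarith)) hVp zero_le_one prc_le h.hs h.hsp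
    (fun ρ hρ => (h.hP ρ hρ).1)
  have hMp : (0:ℝ) < (M:ℝ) := by exact_mod_cast hM
  have hlg := Real.log_le_log (by (clear * - hZ hVp; positivity)) hmain
  have hTM : T + (M:ℝ) ≤ 2 * T := by (clear * - hδ hδ' hM3; linarith)
  have hTp : 0 < T := by (clear * - hδ hδ' hT1; linarith)
  have hlTM : Real.log (T + M) ≤ Real.log 2 + Real.log T := by
    rw [← Real.log_mul (by norm_num) hTp.ne']
    exact Real.log_le_log (by (clear * - hδ hδ' hT1 hMp; linarith)) hTM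
  rw [Real.log_mul hZc.ne' (by positivity), Real.log_pow, Real.log_mul (by (clear * - hC hl h8 hM; positivity)) (by positivity),
    Real.log_mul (by positivity) (by positivity), Real.log_div (by positivity) (by positivity),
    Real.log_mul hC.ne' (by positivity), Real.log_pow, Real.log_pow, Real.log_div (by norm_num) hl0.ne',
    Real.log_one, Real.log_rpow hMp] at hlg
  simp only [Nat.cast_ofNat] at hlg
  have htl : θ * l ≤ 1/2 * l := mul_le_mul_of_nonneg_right h.ht1 hl0.le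
  have hqq : (2 * (1 / l)) * Real.log M ≤ 4 := by
    have : (2 * (1 / l)) * Real.log M = 2 * Real.log M / l := by ring
    rw [this, div_le_iff₀ hl0]; (clear * - hδ hδ' hl hM1 htl; linarith)
  have hexp : (1 - 2 * (1 - x) + 2 * (1 / l)) * Real.log M = -((1 - 2 * x) * Real.log M) +
      (2 * (1 / l)) * Real.log M := by ring
  rw [hexp] at hlg
  have hm : (1 - 2 * x) * (θ * l - 2) ≤ (1 - 2 * x) * Real.log M :=
    mul_le_mul_of_nonneg_left hM2 (by (clear * - hδ hδ' hx1; linarith))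
  have hdl : d * l ≤ δ * l := mul_le_mul_of_nonneg_right hd5 hl0.le
  have hdl0 : 0 ≤ δ * l := by (clear * - hδ hl; positivity)
  have hm2 : (1 - 2 * x) * (θ * l - 2) = θ * l - 2 * (θ * x * l) - 2 * (1 - 2 * x) := by ring
  rw [hm2] at hm
  have : (1/2 - θ + 2 * θ * x) * l = l / 2 - θ * l + 2 * (θ * x * l) := by ring
  rw [this]
  (clear * - hδ hδ' hx0 h1 hsm hT3 hlg hlTM hqq hm hdl hdl0; linarith)

/-- general form of the S-lemma in a class -/
lemma SG (hS : SLemma) {θ ε0 δ d : ℝ} (hp : Par ε0 δ d) (hh : ℕ) (hh1 : 1 ≤ hh) :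
    ∀ᶠ X : ℝ in atTop, ∀ (x V : ℝ) (M : ℕ) (Z : Finset ℂ) (c : ℂ → ℂ) (g : ℕ → ℂ) (N : ℕ) (U : Finset ℝ),
    Cls2 θ ε0 δ d X x V M Z c g N U → Z.Nonempty → U.Nonempty →
    ∀ (b : ℕ → ℂ) (Q : ℕ) (B VG ω : ℝ), 1 ≤ Q → Real.log Q ≤ 2 * Real.log X → 0 < B → 0 < VG →
    (∀ n, ‖b n‖ ≤ B) → (∀ ρ ∈ Z, VG ≤ ‖DP b Q hh ρ‖) →
    2 * Real.log V + 2 * Real.log B - 2 * Real.log VG ≤ ω →
    Real.log Z.card + ω + 2 * x * Real.log Q ≤ (2 * x - 10 * δ) * Real.log X →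
    Real.log U.card ≤ max (Real.log X / 2 + Real.log Z.card + ω - 2 * x * Real.log X - Real.log Q * (1 - 2 * x))
      (4 * (Real.log X / 2 + Real.log Z.card + ω - 2 * x * Real.log X - Real.log Q * (1 - 2 * x)) -
        Real.log X / 2) + 40 * δ * Real.log X := by
  have hδ := hp.dpos
  have hδ' := hp.dsmall
  have hd4 := hp.h4
  have hd5 := hp.h5
  obtain ⟨C, hC, hmv⟩ := hS hh (δ / 10) hh1 (by (clear * - hδ; positivity))
  filter_upwards [base hp, small (Real.log C + 6 * Real.log 2 + 1) 16 δ hδ] with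
    X hb hsm x V M Z c g N U h hZ hU b Q B VG ω hQ hkq hB hVG hb1 hb2 hω hcond
  obtain ⟨h8, hl, hN, hq0, hq1, hq2⟩ := hb x Z _ g N _ h.toCls
  have hx0 := h.hx0
  have hx1 := h.hx1
  have h1 := hp.h1
  have h3 := hp.h3
  obtain ⟨hT1, hT2, hT3⟩ := logT h8 hd4
  have hl0 : 0 < Real.log X := by (clear * - hδ hδ' hl; linarith)
  have hZc : (0:ℝ) < Z.card := by exact_mod_cast hZ.card_pos
  have hUc : (0:ℝ) < U.card := by exact_mod_cast hU.card_pos
  have hTX := T_le h8 hl hd4 (by (clear * - hδ' hd5; linarith))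
  have hX0 : (0:ℝ) < X := by (clear * - hδ hδ' h8; linarith)
  have hVp : 0 < V := lt_of_lt_of_le (Real.rpow_pos_of_pos hX0 _) h.hV
  have hQpos : (0:ℝ) < (Q : ℝ) := by exact_mod_cast hQ
  have hQX : (Q : ℝ) ≤ X ^ 2 := by
    rw [← Real.log_le_log_iff hQpos (by positivity), Real.log_pow]
    simpa using hkq
  have hspT : SpacedR U (1 / (X ^ (1/2 + 2 * d) + 1)) := by
    intro u hu u' hu' hne
    refine le_trans ?_ (h.hUs u hu u' hu' hne)
    apply one_div_le_one_div_of_le (by (clear * - hδ hδ' hT1; linarith)) (by (clear * - hδ hδ'; linarith))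
  set l := Real.log X with hldef
  set T := X ^ (1/2 + 2 * d) + 1 with hTdef
  have hTp : 0 < T := by (clear * - hδ hδ' hT1; linarith)
  have hlQ0 : 0 ≤ Real.log Q := Real.log_nonneg (by exact_mod_cast hQ)
  have hcP : ∀ ρ ∈ Z, ‖c ρ * DP prc M 2 ρ‖ ≤ l ^ 2 * (2 * V) := by
    intro ρ hρ
    rw [norm_mul]
    exact mul_le_mul (h.hc ρ hρ) (h.hP ρ hρ).2 (norm_nonneg _) (by positivity)
  have hmain := hmv X T (1 - x) (1 - x + δ) B VG (l ^ 2 * (2 * V)) (1 / l ^ 6) Z (fun ρ => c ρ * DP prc M 2 ρ)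
    b Q U h8 (by (clear * - hδ hδ' hT1; linarith)) hTX hQ hQX (by (clear * - hδ hδ' hx1; linarith)) (by (clear * - hδ; linarith)) (by (clear * - hδ hδ'; linarith)) (by (clear * - hx0 h1 h3; linarith)) hVG hB.le
    (by (clear * - hl hVp; positivity)) (by (clear * - hl; positivity)) hb1 h.hs h.hsp hb2 hcP h.hU hspT h.hS
  set P : ℝ := C * X ^ (δ / 10) * Z.card * (l ^ 2 * (2 * V)) ^ 2 * B ^ 2 * T * X ^ (2 * (1 - x + δ - 1)) *
    (Q : ℝ) ^ (-2 * (1 - x)) with hPdef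
  set D : ℝ := (1 / l ^ 6) ^ 2 * VG ^ 2 with hDdef
  have hPp : 0 < P := by (clear * - hC h8 hZ h3 hp hδ hδ' hd5 hmv h hx1 hb hsm hcond hq0 hq1 hmain hPdef hl hVp hB hQ; positivity)
  have hDp : 0 < D := by positivity
  have hlogP : Real.log P = Real.log C + δ / 10 * l + Real.log Z.card + 4 * Real.log l + 2 * Real.log 2 +
      2 * Real.log V + 2 * Real.log B + Real.log T + 2 * (-x + δ) * l - 2 * (1 - x) * Real.log Q := by
    rw [hPdef, Real.log_mul (by (clear * - hC h8 hZ h3 hp hδ hδ' hd5 hmv h hx1 hb hsm hcond hq0 hq1 hmain hPdef hPp hl hVp hB; positivity)) (by positivity), Real.log_mul (by (clear * - hC h8 hZ h3 hp hδ hδ' hd5 hmv h hx1 hb hsm hcond hq0 hq1 hmain hPdef hPp hl hVp hB; positivity)) (by positivity),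
      Real.log_mul (by (clear * - hC h8 hZ h3 hp hδ hδ' hd5 hmv h hx1 hb hsm hcond hq0 hq1 hmain hPdef hPp hl hVp hB; positivity)) hTp.ne', Real.log_mul (by (clear * - hC h8 hZ h3 hp hδ hδ' hd5 hmv h hx1 hb hsm hcond hq0 hq1 hmain hPdef hPp hl hVp; positivity)) (by positivity),
      Real.log_mul (by (clear * - hC h8 hZ h3 hp hδ hδ' hd5 hmv h hx1 hb hsm hcond hq0 hq1 hmain hPdef hPp; positivity)) (by positivity), Real.log_mul (by positivity) hZc.ne',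
      Real.log_mul hC.ne' (by positivity), Real.log_pow, Real.log_mul (by positivity) (by positivity),
      Real.log_mul (by norm_num) hVp.ne', Real.log_pow, Real.log_pow,
      Real.log_rpow hX0, Real.log_rpow hX0, Real.log_rpow hQpos]
    simp only [Nat.cast_ofNat]
    ring
  have hlogD : Real.log D = -(12 * Real.log l) + 2 * Real.log VG := by
    rw [hDdef, Real.log_mul (by positivity) (by positivity), Real.log_pow, Real.log_pow,
      Real.log_div (by norm_num) (by positivity), Real.log_pow, Real.log_one]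
    simp only [Nat.cast_ofNat]
    ring
  have hdl0 : 0 ≤ δ * l := by positivity
  have hdl : d * l ≤ δ * l := mul_le_mul_of_nonneg_right hd5 hl0.le
  have hlog2 : 0 ≤ Real.log 2 := Real.log_nonneg (by norm_num)
  have hc1 : P * (Q:ℝ) ^ 2 / T ≤ D / 2 := by
    rw [← Real.log_le_log_iff (by positivity) (by positivity), Real.log_div (by (clear * - hC h8 hZ h3 hp hδ hδ' hd5 hmv h hx1 hb hsm hcond hq0 hq1 hmain hPdef hPp hlogP hdl0 hdl hl hVp hB hQ; positivity)) hTp.ne',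
      Real.log_mul hPp.ne' (by positivity), Real.log_pow, Real.log_div hDp.ne' (by norm_num), hlogP, hlogD]
    simp only [Nat.cast_ofNat]
    (clear * - hδ hδ' hω hsm hcond hdl0 hlog2; linarith)
  set M' : ℝ := 1 + ((U.card : ℝ) ^ 3 / T) ^ (1/4 : ℝ) with hM'def
  have hM'p : 0 < M' := by (clear * - hU h3 hp hδ hδ' hd5 hmv h hx1 hb hsm hcond hq0 hq1 hPdef hPp hlogP hdl0 hdl hc1 hmain h8; positivity)
  have hc2 : D * U.card ≤ 2 * P * Q * M' := by
    have e1 : D * (U.card : ℝ) ^ 2 ≤ P * (U.card * Q * M' + (U.card : ℝ) ^ 2 * (Q:ℝ) ^ 2 / T) := by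
      calc D * (U.card : ℝ) ^ 2 = (U.card : ℝ) ^ 2 * (1 / l ^ 6) ^ 2 * VG ^ 2 := by
            rw [hDdef]; ring
        _ ≤ _ := hmain
    have e2 : P * (U.card * Q * M' + (U.card : ℝ) ^ 2 * (Q:ℝ) ^ 2 / T) =
        U.card * (P * Q * M') + (U.card : ℝ) ^ 2 * (P * (Q:ℝ) ^ 2 / T) := by ring
    have e3 : (U.card : ℝ) ^ 2 * (P * (Q:ℝ) ^ 2 / T) ≤ (U.card : ℝ) ^ 2 * (D / 2) :=
      mul_le_mul_of_nonneg_left hc1 (by (clear * - hU h3 hp hδ hδ' hd5 hmv h hx1 hb hsm hcond hq0 hq1 hPdef hPp hlogP hdl0 hdl hc1 hmain e1 e2; positivity))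
    have e4 : U.card * (D * U.card) ≤ U.card * (2 * P * Q * M') := by
      rw [e2] at e1; (clear * - e1 e3; linarith)
    exact le_of_mul_le_mul_left e4 hUc
  have hlg := Real.log_le_log (by (clear * - hl hVG hU h3 hp hδ hδ' hd5 hmv h hx1 hb hsm hcond hq0 hq1 hPdef hPp hlogP hdl0 hdl hc1 hmain hc2; positivity)) hc2
  rw [Real.log_mul hDp.ne' hUc.ne', Real.log_mul (by (clear * - hC h8 hZ h3 hp hδ hδ' hd5 hmv h hx1 hb hsm hcond hq0 hq1 hPdef hPp hlogP hdl0 hdl hc1 hmain hc2 hlg hl hVp hB hQ; positivity)) hM'p.ne', Real.log_mul (by (clear * - hC h8 hZ h3 hp hδ hδ' hd5 hmv h hx1 hb hsm hcond hq0 hq1 hPdef hPp hlogP hdl0 hdl hc1 hmain hc2 hlg hl hVp hB hQ; positivity)) hQpos.ne',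
    Real.log_mul (by norm_num) hPp.ne', hlogP, hlogD] at hlg
  rcases log_add_le one_pos (show 0 < ((U.card : ℝ) ^ 3 / T) ^ (1/4 : ℝ) by (clear * - hU h3 hp hδ hδ' hd5 hmv h hx1 hb hsm hcond hq0 hq1 hPdef hPp hlogP hdl0 hdl hc1 hmain hc2 hlg h8; positivity)) with hc | hc
  · refine le_trans ?_ (add_le_add_left (le_max_left _ _) _)
    rw [Real.log_one] at hc
    (clear * - hω hsm hT3 hdl0 hdl hlog2 hlg hc; linarith)
  · refine le_trans ?_ (add_le_add_left (le_max_right _ _) _)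
    rw [Real.log_rpow (by (clear * - hU h3 hp hδ hδ' hd5 hmv h hx1 hb hsm hcond hq0 hq1 hPdef hPp hlogP hdl0 hdl hc1 hmain hc2 hlg h8; positivity)), Real.log_div (by (clear * - hU h3 hp hδ hδ' hd5 hmv h hx1 hb hsm hcond hq0 hq1 hPdef hPp hlogP hdl0 hdl hc1 hmain hc2 hlg; positivity)) hTp.ne', Real.log_pow] at hc
    simp only [Nat.cast_ofNat] at hc
    (clear * - hδ hδ' hω hsm hT3 hdl0 hdl hlog2 hlg hc; linarith)

/-- S-lemma with the powers of the detecting polynomial -/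
lemma P4' (hS : SLemma) (hP : PowDP) {θ ε0 δ d : ℝ} (hp : Par ε0 δ d) (k : ℕ) (hk : 1 ≤ k) :
    ∀ᶠ X : ℝ in atTop, ∀ (x V : ℝ) (M : ℕ) (Z : Finset ℂ) (c : ℂ → ℂ) (g : ℕ → ℂ) (N : ℕ) (U : Finset ℝ),
    Cls2 θ ε0 δ d X x V M Z c g N U → Z.Nonempty → U.Nonempty → (k : ℝ) * Real.log N ≤ 2 * Real.log X →
    Real.log Z.card + 2 * Real.log V + 2 * x * (k * Real.log N) ≤ (2 * x - 50 * δ) * Real.log X →
    Real.log U.card ≤ max (Real.log X / 2 + Real.log Z.card + 2 * Real.log V - 2 * x * Real.log X -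
        k * Real.log N * (1 - 2 * x))
      (4 * (Real.log X / 2 + Real.log Z.card + 2 * Real.log V - 2 * x * Real.log X - k * Real.log N * (1 - 2 * x)) -
        Real.log X / 2) + 44 * δ * Real.log X := by
  have hδ := hp.dpos
  have hδ' := hp.dsmall
  obtain ⟨C1, hC1, hpc⟩ := pow_class hP hp k hk (δ / 10) (by positivity)
  filter_upwards [base hp, hpc, SG hS hp (2 ^ k) (Nat.one_le_two_pow),
    small (2 * Real.log C1 + 2 * k * Real.log 16) (2 * k) (δ / 2) (by positivity)] with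
    X hb hpc hsg hsm x V M Z c g N U h hZ hU hkq hcond
  obtain ⟨h8, hl, hN, hq0, hq1, hq2⟩ := hb x Z _ g N _ h.toCls
  obtain ⟨b, hb1, hb2⟩ := hpc x Z _ g N _ h.toCls
  have hN' : (1:ℝ) ≤ N := by exact_mod_cast hN
  have hQ : 1 ≤ N ^ k := Nat.one_le_pow _ _ (by omega)
  have hl0 : 0 < Real.log X := by (clear * - hδ hδ' hl; linarith)
  have hkk : (1:ℝ) ≤ k := by exact_mod_cast hk
  have hlogQ : Real.log ((N ^ k : ℕ) : ℝ) = k * Real.log N := by push_cast; rw [Real.log_pow]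
  have hdl0 : 0 ≤ δ * Real.log X := by positivity
  have hdq : δ / 10 * Real.log N ≤ δ / 10 * Real.log X := mul_le_mul_of_nonneg_left hq2 (by positivity)
  have h1 := hsg x V M Z c g N U h hZ hU b (N ^ k) (C1 * (N:ℝ) ^ (δ / 10)) ((1 / (16 * Real.log X)) ^ k)
    (2 * Real.log V + δ * Real.log X) hQ (by rw [hlogQ]; exact hkq) (by (clear * - hC1 hN; positivity)) (by positivity) hb1 hb2
    (by
      rw [Real.log_mul hC1.ne' (by positivity), Real.log_rpow (by (clear * - hδ hδ' hN'; linarith)), Real.log_pow,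
        Real.log_div (by norm_num) (by positivity), Real.log_one, Real.log_mul (by norm_num) hl0.ne']
      (clear * - hsm hdl0 hdq; linarith))
    (by rw [hlogQ]; (clear * - hcond hdl0; linarith))
  rw [hlogQ] at h1
  refine le_trans h1 ?_
  set A := Real.log X / 2 + Real.log Z.card + 2 * Real.log V - 2 * x * Real.log X - k * Real.log N * (1 - 2 * x)
    with hA
  have hm1 := le_max_left A (4 * A - Real.log X / 2)
  have hm2 := le_max_right A (4 * A - Real.log X / 2)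
  have : max (Real.log X / 2 + Real.log Z.card + (2 * Real.log V + δ * Real.log X) - 2 * x * Real.log X -
      k * Real.log N * (1 - 2 * x)) (4 * (Real.log X / 2 + Real.log Z.card + (2 * Real.log V + δ * Real.log X) -
      2 * x * Real.log X - k * Real.log N * (1 - 2 * x)) - Real.log X / 2) ≤
      max A (4 * A - Real.log X / 2) + 4 * (δ * Real.log X) := by
    apply max_le
    · (clear * - hdl0 hA hm1; linarith)
    · (clear * - hA hm2; linarith)
  (clear * - this; linarith)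

/-- S-lemma with `P` itself -/
lemma P5' (hS : SLemma) {θ ε0 δ d : ℝ} (hp : Par ε0 δ d) :
    ∀ᶠ X : ℝ in atTop, ∀ (x V : ℝ) (M : ℕ) (Z : Finset ℂ) (c : ℂ → ℂ) (g : ℕ → ℂ) (N : ℕ) (U : Finset ℝ),
    Cls2 θ ε0 δ d X x V M Z c g N U → Z.Nonempty → U.Nonempty →
    Real.log Z.card ≤ ((2 - 2 * θ) * x - 50 * δ) * Real.log X →
    Real.log U.card ≤ max ((1/2 - θ) * Real.log X + Real.log Z.card - (2 - 2 * θ) * x * Real.log X)
      (4 * ((1/2 - θ) * Real.log X + Real.log Z.card - (2 - 2 * θ) * x * Real.log X) - Real.log X / 2) +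
        44 * δ * Real.log X := by
  have hδ := hp.dpos
  have hδ' := hp.dsmall
  have hd4 := hp.h4
  filter_upwards [base hp, SG hS hp 2 (by norm_num), small 2 0 δ hδ] with
    X hb hsg hsm x V M Z c g N U h hZ hU hcond
  obtain ⟨h8, hl, hN, hq0, hq1, hq2⟩ := hb x Z _ g N _ h.toCls
  have hX0 : (0:ℝ) < X := by (clear * - hδ hδ' h8; linarith)
  rcases logM h h8 with ⟨hM, hM1, hM2, hM3⟩ | hd0
  swap
  · (clear * - hd4 hd0; linarith)
  have hVp : 0 < V := lt_of_lt_of_le (Real.rpow_pos_of_pos hX0 _) h.hV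
  have hl0 : 0 < Real.log X := by (clear * - hδ hδ' hl; linarith)
  have hdl0 : 0 ≤ δ * Real.log X := by positivity
  have hx0 := h.hx0
  have hx1 := h.hx1
  have h1' := hp.h1
  have hxM : 2 * x * Real.log M ≤ 2 * x * (θ * Real.log X) := mul_le_mul_of_nonneg_left hM1 (by (clear * - hx0 h1'; linarith))
  have ht1 := h.ht1
  have htl : θ * Real.log X ≤ 1/2 * Real.log X := mul_le_mul_of_nonneg_right ht1 hl0.le
  have h1 := hsg x V M Z c g N U h hZ hU prc M 1 V 0 hM (by (clear * - hδ hδ' hl hM1 htl; linarith)) one_pos hVp prc_le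
    (fun ρ hρ => (h.hP ρ hρ).1) (by rw [Real.log_one]; (clear * -; linarith)) (by (clear * - hδ hδ' hsm hcond hxM; linarith))
  refine le_trans h1 ?_
  have hm : (1 - 2 * x) * (θ * Real.log X - 2) ≤ (1 - 2 * x) * Real.log M :=
    mul_le_mul_of_nonneg_left hM2 (by (clear * - hδ hδ' hx1; linarith))
  set A := (1/2 - θ) * Real.log X + Real.log Z.card - (2 - 2 * θ) * x * Real.log X with hA
  have hm1 := le_max_left A (4 * A - Real.log X / 2)
  have hm2 := le_max_right A (4 * A - Real.log X / 2)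
  have hA2 : Real.log X / 2 + Real.log Z.card + 0 - 2 * x * Real.log X - Real.log M * (1 - 2 * x) ≤
      A + δ * Real.log X := by
    rw [hA]; (clear * - hsm hM2 hxM; linarith)
  have : max (Real.log X / 2 + Real.log Z.card + 0 - 2 * x * Real.log X - Real.log M * (1 - 2 * x))
      (4 * (Real.log X / 2 + Real.log Z.card + 0 - 2 * x * Real.log X - Real.log M * (1 - 2 * x)) -
      Real.log X / 2) ≤ max A (4 * A - Real.log X / 2) + 4 * (δ * Real.log X) := by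
    apply max_le
    · (clear * - hδ hδ' hsm hM2 hxM hA hm1; linarith)
    · (clear * - hsm hM2 hxM hA hm2; linarith)
  (clear * - this; linarith)

theorem classBoundE2a_of (h1 : MVCount) (h2 : HuxleyCount) (h3 : SLemma) (h6 : PowDP) (θ : ℝ) (ht0 : 0.48 ≤ θ)
    (ht1 : θ ≤ 1/2) : ClassBoundE2a θ := by
  intro ε0 δ d e1 e2 e3 e4 e5
  have hp : Par ε0 δ d := ⟨e1, e2, e3, e4, e5⟩
  have hδ := hp.dpos
  have hδ' := hp.dsmall
  have hall : ∀ᶠ X : ℝ in atTop, ∀ k ∈ Finset.Icc 1 ⌈(8:ℝ) / δ⌉₊,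
      ∀ (x V : ℝ) (M : ℕ) (Z : Finset ℂ) (c : ℂ → ℂ) (g : ℕ → ℂ) (N : ℕ) (U : Finset ℝ),
      Cls2 θ ε0 δ d X x V M Z c g N U → Z.Nonempty → U.Nonempty → (k : ℝ) * Real.log N ≤ 2 * Real.log X →
      (Real.log Z.card ≤ max (2 * x * (k * Real.log N))
        (Real.log X / 2 - k * Real.log N * (2 - 6 * x)) + 40 * δ * Real.log X) ∧
      (Real.log Z.card + 2 * Real.log V + 2 * x * (k * Real.log N) ≤ (2 * x - 50 * δ) * Real.log X →
        Real.log U.card ≤ max (Real.log X / 2 + Real.log Z.card + 2 * Real.log V - 2 * x * Real.log X -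
          k * Real.log N * (1 - 2 * x))
        (4 * (Real.log X / 2 + Real.log Z.card + 2 * Real.log V - 2 * x * Real.log X -
          k * Real.log N * (1 - 2 * x)) - Real.log X / 2) + 44 * δ * Real.log X) := by
    rw [Filter.eventually_all_finset]
    intro k hk
    have hk1 : 1 ≤ k := (Finset.mem_Icc.mp hk).1
    filter_upwards [P2 h2 h6 hp k hk1, P4' (θ := θ) h3 h6 hp k hk1]
      with X b c' x V M Z c g N U hcl hZ hU hkq
    exact ⟨b x Z _ g N _ hcl.toCls hZ hkq, c' x V M Z c g N U hcl hZ hU hkq⟩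
  obtain ⟨X0, hX0⟩ := (eventually_atTop.mp ((base hp).and ((Q1 (θ := θ) h1 hp).and ((P5' (θ := θ) h3 hp).and hall))))
  refine ⟨X0, fun X x V M Z c g N U hX f1 f2 f3 f4 f5 f6 f7 f8 g1 g2 g3 g4 f9 f10 f11 f12 => ?_⟩
  obtain ⟨hb, hQ1, hP5, hA⟩ := hX0 X hX
  have hcl : Cls2 θ ε0 δ d X x V M Z c g N U :=
    ⟨ht0, ht1, f1, f2, f3, f4, f5, f6, f7, f8, g1, g2, g3, g4, f9, f10, f11, f12⟩
  obtain ⟨h8, hl, hN, hq0, hq1, hq2⟩ := hb x Z _ g N _ hcl.toCls
  have hXp : (0:ℝ) < X := by (clear * - h8; linarith)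
  rcases Finset.eq_empty_or_nonempty U with hU | hU
  · rw [hU]; simp; positivity
  rcases Finset.eq_empty_or_nonempty Z with hZ | hZ
  · exfalso
    obtain ⟨u, hu⟩ := hU
    have := f12 u hu
    rw [hZ] at this
    simp only [Finset.sum_empty, norm_zero] at this
    have hl6 : 0 < 1 / Real.log X ^ 6 := by positivity
    (clear * - this hl6; linarith)
  have hz1 := hQ1 x V M Z c g N U hcl hZ
  have hz2 := hP5 x V M Z c g N U hcl hZ hU
  have hA' := fun k hk => hA k hk x V M Z c g N U hcl hZ hU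
  have hUc : (0:ℝ) < U.card := by exact_mod_cast hU.card_pos
  set l := Real.log X with hldef
  set q := Real.log N with hqdef
  have hl0 : 0 < l := by (clear * - hl; linarith)
  have hq : 0 < q := lt_of_lt_of_le (by (clear * - hδ hl; positivity)) hq0
  have hn : δ ≤ 2 * q / l := by
    rw [le_div_iff₀ hl0]; (clear * - hq0; linarith)
  have hnp : 0 < 2 * q / l := by (clear * - hq hl; positivity)
  have key : ∀ k : ℕ, 1 ≤ k → (k : ℝ) ≤ 4 / (2 * q / l) → k ∈ Finset.Icc 1 ⌈(8:ℝ) / δ⌉₊ ∧ (k : ℝ) * q ≤ 2 * l := by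
    intro k hk hk4
    have hk5 : (k:ℝ) * (2 * q / l) ≤ 4 := by rwa [le_div_iff₀ hnp] at hk4
    constructor
    · rw [Finset.mem_Icc]
      refine ⟨hk, ?_⟩
      have : (k:ℝ) ≤ 8 / δ := by
        rw [le_div_iff₀ hδ]
        have : (k:ℝ) * δ ≤ k * (2 * q / l) := mul_le_mul_of_nonneg_left hn (by (clear * - hk; positivity))
        (clear * - hk5 this; linarith)
      exact_mod_cast le_trans this (Nat.le_ceil _)
    · have : (k:ℝ) * (2 * q / l) = 2 * (k * q) / l := by ring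
      rw [this, div_le_iff₀ hl0] at hk5
      (clear * - hk5; linarith)
  have he : 2 * (40 * δ * l) / l ≤ 100 * δ := by
    rw [div_le_iff₀ hl0]; (clear * - e3 e1 e2 e4 e5 hl; nlinarith)
  have he' : 2 * (44 * δ * l) / l ≤ 100 * δ := by
    rw [div_le_iff₀ hl0]; (clear * - e3 e1 e2 e4 e5 hl; nlinarith)
  have htp : 0 < θ := by (clear * - ht0; linarith)
  set y : ℝ := x - Real.log V / (θ * l) with hydef
  have hyv : 2 * θ * y = 2 * θ * x - 2 * Real.log V / l := by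
    rw [hydef]; (clear * - hl ht0; field_simp)
  have hdl0 : 0 ≤ δ * l := by (clear * - hδ hl; positivity)
  set e : ℝ := 1 - 2 * θ with hedef
  have hyv' : 2 * ((1 + e) * x + (1 - e) * y) = 4 * x - 4 * Real.log V / l := by
    have : 2 * ((1 + e) * x + (1 - e) * y) = 4 * x - 4 * θ * x + 2 * (2 * θ * y) := by rw [hedef]; ring
    rw [this, hyv]; ring
  have hfin := numericE2 e (by rw [hedef]; (clear * - ht1; linarith)) (by rw [hedef]; (clear * - ht0; linarith)) ε0 e1 e2 (100 * δ) x (2 * q / l) y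
    (2 * Real.log Z.card / l) (2 * Real.log U.card / l)
    (by positivity) (by rw [e3]; (clear * -; linarith)) f1 (by (clear * - e4 e5 f2; linarith)) hnp
    (by
      rw [div_le_iff₀ hl0]
      have : (yy x + 100 * δ) * l = 2 * ((yy x / 2 + 45 * δ) * l) + 10 * δ * l := by ring
      rw [this]
      (clear * - hq1 hdl0; linarith))
    (by
      intro k hk hk4
      obtain ⟨g1, g2⟩ := key k hk hk4
      obtain ⟨a2, a3⟩ := hA' k g1 g2
      exact conv hl0 a2 (by (clear * - hl hq hk; field_simp)) (by (clear * - hl; field_simp)) he)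
    (by
      have h9 : 2 * (1 - e) * y = 4 * (θ * x) - 4 * Real.log V / l := by
        have : 2 * (1 - e) * y = 2 * (2 * θ * y) := by rw [hedef]; ring
        rw [this, hyv]; ring
      rw [h9]
      have h10 : 2 * Real.log Z.card / l + 4 * Real.log V / l ≤ 4 * (θ * x) + e + 100 * δ := by
        rw [← add_div, div_le_iff₀ hl0]
        have h11 : (4 * (θ * x) + e + 100 * δ) * l = 2 * ((1/2 - θ + 2 * θ * x) * l) + 100 * (δ * l) := by
          rw [hedef]; ring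
        rw [h11]
        (clear * - hz1 hdl0; linarith)
      (clear * - h10; linarith))
    (by
      intro hr
      have h11 : Real.log Z.card ≤ ((2 - 2 * θ) * x - 50 * δ) * l := by
        rw [div_le_iff₀ hl0] at hr
        have h12 : (2 * (1 + e) * x - 100 * δ) * l = 2 * (((2 - 2 * θ) * x - 50 * δ) * l) := by
          rw [hedef]; ring
        rw [h12] at hr
        (clear * - hr; linarith)
      exact conv hl0 (hz2 h11) (by rw [hedef]; field_simp; ring) (by rw [hedef]; field_simp; ring) he')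
    (by
      intro k hk hk4 hcond
      obtain ⟨g1, g2⟩ := key k hk hk4
      obtain ⟨a2, a3⟩ := hA' k g1 g2
      have h9 : Real.log Z.card + 2 * Real.log V + 2 * x * (k * q) ≤ (2 * x - 50 * δ) * l := by
        have e6 : 2 * ((1 + e) * x + (1 - e) * y) - 100 * δ = 2 * ((2 * x - 50 * δ) * l - 2 * Real.log V) / l := by
          rw [hyv']; field_simp; ring
        have e7 : 2 * Real.log Z.card / l + 2 * x * (k * (2 * q / l)) = 2 * (Real.log Z.card + 2 * x * (k * q)) / l := by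
          ring
        rw [e6, e7, div_le_div_iff_of_pos_right hl0] at hcond
        (clear * - hcond; linarith)
      refine conv hl0 (a3 h9) ?_ ?_ he'
      · rw [hyv']
        field_simp; ring
      · rw [hyv']
        field_simp; ring)
  rw [div_le_iff₀ hl0] at hfin
  rw [← Real.log_le_log_iff hUc (by positivity), Real.log_rpow hXp]
  (clear * - hfin; linarith)

/-- the form used by helper60 -/
theorem classBoundE2 (h1 : MVCount) (h2 : HuxleyCount) (h3 : SLemma) (h6 : PowDP) :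
    Pool.Agent.M17.Helper60.KS.ClassBoundE2 := by
  intro ε0 δ d e1 e2 e3 e4 e5
  obtain ⟨X0, h⟩ := classBoundE2a_of h1 h2 h3 h6 0.495 (by norm_num) (by norm_num) (ε0 / 10) δ d (by positivity)
    (by (clear * - e2; linarith)) (by rw [e3]; ring) e4 e5
  refine ⟨max X0 1, fun X x V Z c g N M U hX f1 f2 hM0 hM1 hV f3 f4 f5 f6 f7 f8 f9 f10 f11 f12 f13 => ?_⟩
  have hX1 : 1 ≤ X := le_trans (le_max_right _ _) hX
  have h3 := h X x V M Z c g N U (le_trans (le_max_left _ _) hX) (by (clear * - e1 f1; linarith)) f2 f3 f4 f5 f6 f7 f8 hM0 hM1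
    (le_trans (Real.rpow_le_rpow_of_exponent_le hX1 (by norm_num)) hV) f9 f10 f11 f12 f13
  exact le_trans h3 (Real.rpow_le_rpow_of_exponent_le hX1 (by norm_num))

end Pool.Agent.M17.Helper35.KE
end

/- Helper53.KN.Helper61.KS.Pt -/
section
/-!
# Project KS: pointwise bounds (`WoLe`, `OrdLe`, `CtlLe`, `WpLe`)
-/

set_option autoImplicit false
open scoped Classical
open Filter Topology

namespace Pool.Agent.M17.Helper61.KS

open Pool.Agent.M17.Helper16.KS Pool.Agent.M17.Helper16.KS.Sys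

variable (S : Sys)

theorem c_pos : 0 < S.c := by
  have h1 := S.d_pos
  have h2 := S.d_le
  have h3 : 0 < S.c / 10 ^ 5 := lt_of_lt_of_le h1 h2
  by_contra h
  have : S.c / 10 ^ 5 ≤ 0 := div_nonpos_of_nonpos_of_nonneg (not_lt.1 h) (by positivity)
  (clear * - h1 h2 h; linarith)

theorem eta_pos : 0 < S.eta := by
  have h1 := c_pos S
  have h2 := S.c_le
  (clear * - h1 h2; linarith)

theorem c_le' : S.c ≤ 0.006 := by
  have h1 := S.c_le
  have h2 := S.eta_le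
  have h3 := S.del_le
  have h4 : S.eta ≤ 3/50 := h2.trans h3
  (clear * - h1 h2 h3; linarith)

theorem d_le' : S.d ≤ 0.006 / 10 ^ 5 := by
  have h1 := S.d_le
  have h2 := c_le' S
  calc S.d ≤ S.c / 10 ^ 5 := h1
    _ ≤ 0.006 / 10 ^ 5 := by gcongr

theorem s_pos : 0 < S.s := by
  have := S.d_pos
  unfold Sys.s
  linarith

theorem s_lt : S.s < 1/100 := by
  have h := d_le' S
  unfold Sys.s
  norm_num at h ⊢
  linarith

theorem ep_pos : 0 < S.ep := by
  unfold Sys.ep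
  exact mul_pos (mul_pos (c_pos S) (eta_pos S)) S.d_pos

theorem tau_pos : 0 < S.tau := by
  unfold Sys.tau
  exact div_pos (ep_pos S) (by positivity)

theorem tau_lt : S.tau < 1/1000 := by
  have h1 := c_le' S
  have h2 := d_le' S
  have h3 : S.eta ≤ 3/50 := S.eta_le.trans S.del_le
  have h4 := S.d_pos
  have h5 := c_pos S
  have h6 := eta_pos S
  unfold Sys.tau Sys.ep
  have h7 : S.c * S.eta * S.d ≤ 0.006 * (3/50) * (0.006 / 10 ^ 5) := by gcongr
  have h8 : S.c * S.eta * S.d / 10 ^ 4 ≤ 0.006 * (3/50) * (0.006 / 10 ^ 5) / 10 ^ 4 := by gcongr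
  refine lt_of_le_of_lt h8 ?_
  norm_num

theorem ec_le (k : ℕ) : ec S.d k ≤ k := by
  unfold ec
  refine Nat.floor_le_of_le ?_
  have h := S.d_pos
  have hk : (0 : ℝ) ≤ k := Nat.cast_nonneg k
  (clear * - h; nlinarith)

theorem pr_mul_base (m : ℕ) (hm : 1 ≤ m) : S.pr m * S.base m = (m : ℝ) ^ (-(1 - S.s + S.tau)) := by
  have hm' : (0 : ℝ) < m := by exact_mod_cast hm
  unfold Sys.pr Sys.base
  rw [← Real.rpow_add hm']
  congr 1
  unfold Sys.hh
  ring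

theorem pr_pos {m : ℕ} (hm : 1 ≤ m) : 0 < S.pr m := by
  have hm' : (0 : ℝ) < m := by exact_mod_cast hm
  exact Real.rpow_pos_of_pos hm' _

theorem base_pos {m : ℕ} (hm : 1 ≤ m) : 0 < S.base m := by
  have hm' : (0 : ℝ) < m := by exact_mod_cast hm
  exact Real.rpow_pos_of_pos hm' _

theorem base_nonneg (m : ℕ) : 0 ≤ S.base m := Real.rpow_nonneg (Nat.cast_nonneg m) _

theorem wd_eq (k m : ℕ) (hm : 1 ≤ m) :
    S.wd k m = (2 : ℝ) ^ ((S.s - 1) * k) / (S.pr m * S.base m) := by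
  have hm' : (0 : ℝ) < m := by exact_mod_cast hm
  rw [pr_mul_base S m hm, Real.rpow_neg hm'.le, div_inv_eq_mul]
  rfl

theorem mem_badc {k j : ℕ} : j ∈ S.badc k ↔ j < nc S.d k ∧ S.bad k j := by
  simp [Sys.badc]

theorem card_ge {k j : ℕ} (hk : S.K ≤ k) (hj : j ∈ S.badc k) :
    S.c1 * 2 ^ ec S.d k / k ^ 2 ≤ ((S.Cand k j).card : ℝ) :=
  S.many k hk j ((mem_badc S).1 hj).1 ((mem_badc S).1 hj).2

theorem card_pos {k j : ℕ} (hk : S.K ≤ k) (hj : j ∈ S.badc k) :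
    (0 : ℝ) < ((S.Cand k j).card : ℝ) := by
  refine lt_of_lt_of_le ?_ (card_ge S hk hj)
  have h1 : 0 < S.c1 := S.c1_pos
  have h2 : (0 : ℝ) < k := by
    have := S.K_pos
    exact_mod_cast lt_of_lt_of_le this hk
  (clear * - h1 h2; positivity)

theorem NN_pos {k0 : ℕ} {R : Set ℕ} (hG : S.Good k0 R) {k j : ℕ} (hk0 : k0 ≤ k) (hk : S.K ≤ k)
    (hj : j ∈ S.badc k) : 0 < S.NN R k j := by
  have h1 := hG.lower k hk0 j hj
  have h2 := card_pos S hk hj
  (clear * - h1 h2; linarith)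

/-- pointwise bound of `wo` -/
theorem wo_le' {k0 : ℕ} {R : Set ℕ} (hG : S.Good k0 R) {k j : ℕ} (hk0 : k0 ≤ k) (hk : S.K ≤ k)
    (hj : j ∈ S.badc k) {m : ℕ} (hm : 1 ≤ m) :
    0 ≤ S.wo R k j m ∧ S.wo R k j m ≤ (2 / S.c1) / (k : ℝ) ^ 2 * S.wd k m := by
  have hk1 : (0 : ℝ) < k := by
    have := S.K_pos
    exact_mod_cast lt_of_lt_of_le this hk
  have h1 := hG.lower k hk0 j hj
  have h2 := card_ge S hk hj
  have h3 : S.c1 * 2 ^ ec S.d k / (2 * (k : ℝ) ^ 2) ≤ S.NN R k j := by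
    have : S.c1 * 2 ^ ec S.d k / (2 * (k : ℝ) ^ 2) = S.c1 * 2 ^ ec S.d k / k ^ 2 / 2 := by
      (clear * - hk1; field_simp)
    rw [this]
    (clear * - h1 h2; linarith)
  have hN : 0 < S.NN R k j := NN_pos S hG hk0 hk hj
  have hp := pr_pos S hm
  have hb := base_pos S hm
  have hc1 := S.c1_pos
  have hG0 : 0 ≤ S.G k := by
    unfold Sys.G
    (clear * - hk1; positivity)
  refine ⟨?_, ?_⟩
  · unfold Sys.wo
    exact div_nonneg hG0 (by (clear * - hN hp hb; positivity))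
  · rw [wd_eq S k m hm]
    unfold Sys.wo
    have h4 : S.NN R k j * S.pr m * S.base m = S.NN R k j * (S.pr m * S.base m) := by ring
    rw [h4]
    have h5 : S.G k / (S.NN R k j * (S.pr m * S.base m)) ≤
        S.G k / (S.c1 * 2 ^ ec S.d k / (2 * (k : ℝ) ^ 2) * (S.pr m * S.base m)) := by
      apply div_le_div_of_nonneg_left hG0
      · positivity
      · exact mul_le_mul_of_nonneg_right h3 (by positivity)
    refine h5.trans (le_of_eq ?_)
    unfold Sys.G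
    field_simp

theorem woLe : WoLe := by
  intro S
  refine ⟨S.K, fun k0 hk0 R hG k hk j hj m hm => ?_⟩
  exact wo_le' S hG hk (hk0.trans hk) hj hm

theorem rpow_s_le {k : ℕ} {n : ℕ} (hn : 1 ≤ n) (h : n < 2 ^ (k + 1)) :
    (2 : ℝ) ^ ((S.s - 1) * k) ≤ 2 * (n : ℝ) ^ (S.s - 1) := by
  have hs := s_pos S
  have hs1 := s_lt S
  have hn' : (0 : ℝ) < n := by exact_mod_cast hn
  have h1 : (n : ℝ) ≤ (2 : ℝ) ^ (k + 1) := by exact_mod_cast h.le
  have h2 : ((2 : ℝ) ^ (k + 1)) ^ (S.s - 1) ≤ (n : ℝ) ^ (S.s - 1) :=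
    Real.rpow_le_rpow_of_nonpos hn' h1 (by (clear * - hs hs1; linarith))
  have h3 : ((2 : ℝ) ^ (k + 1)) ^ (S.s - 1) = (2 : ℝ) ^ ((S.s - 1) * k) * 2 ^ (S.s - 1) := by
    rw [← Real.rpow_natCast, ← Real.rpow_mul (by norm_num), ← Real.rpow_add (by norm_num)]
    congr 1
    push_cast
    ring
  have h4 : (1/2 : ℝ) ≤ 2 ^ (S.s - 1) := by
    have : (2 : ℝ) ^ (-1 : ℝ) ≤ 2 ^ (S.s - 1) :=
      Real.rpow_le_rpow_of_exponent_le (by norm_num) (by (clear * - hs; linarith))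
    rw [Real.rpow_neg_one] at this
    norm_num at this ⊢
    (clear * - this; linarith)
  have h5 : (0 : ℝ) < (2 : ℝ) ^ ((S.s - 1) * k) := Real.rpow_pos_of_pos (by norm_num) _
  rw [h3] at h2
  (clear * - h2 hs hs1 h4 h5; nlinarith)

/-! ### ordinary weights -/

theorem log2_le (p : ℕ) (hp : 2 ≤ p) : Real.log p ≤ 2 * (Nat.log 2 p : ℝ) := by
  have h1 : p < 2 ^ (Nat.log 2 p + 1) := Nat.lt_pow_succ_log_self (by norm_num) p
  have h2 : (p : ℝ) ≤ (2 : ℝ) ^ (Nat.log 2 p + 1) := by exact_mod_cast h1.le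
  have h3 : Real.log p ≤ (Nat.log 2 p + 1 : ℕ) * Real.log 2 := by
    rw [← Real.log_pow]
    exact Real.log_le_log (by positivity) h2
  have h4 : Real.log 2 < 1 := by
    have := Real.log_two_lt_d9
    (clear * - this; linarith)
  have h5 : 1 ≤ Nat.log 2 p := Nat.log_pos (by norm_num) hp
  have h6 : (1 : ℝ) ≤ Nat.log 2 p := by exact_mod_cast h5
  have h7 : (0 : ℝ) < Real.log 2 := Real.log_pos (by norm_num)
  push_cast at h3
  (clear * - h4 h6 h3; nlinarith)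

theorem idx_lt {n k : ℕ} (h1 : 2 ^ k ≤ n) (h2 : n < 2 ^ (k + 1)) :
    S.idx n < nc S.d k := by
  have hlog : Nat.log 2 n = k := Nat.log_eq_of_pow_le_of_lt_pow h1 h2
  unfold Sys.idx nc
  rw [hlog]
  have h3 : n - 2 ^ k < 2 ^ k := by
    have : 2 ^ (k + 1) = 2 ^ k + 2 ^ k := by ring
    omega
  rw [Nat.div_lt_iff_lt_mul (by positivity), ← pow_add]
  have h4 : k - ec S.d k + ec S.d k = k := Nat.sub_add_cancel (ec_le S k)
  rw [h4]
  exact h3

theorem ordLe : OrdLe := by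
  intro S
  refine ⟨16 / S.c1, max S.K 2, fun k0 hk0 p hp => ?_⟩
  have hK : S.K ≤ k0 := (le_max_left _ _).trans hk0
  have h2k : 2 ≤ k0 := (le_max_right _ _).trans hk0
  have hc1 := S.c1_pos
  have hc1' := S.c1_le
  have hs := s_pos S
  have hs1 := s_lt S
  have hp2 : 2 ≤ p := hp.two_le
  have hp0 : (0 : ℝ) < p := by exact_mod_cast hp.pos
  have hlogp : 0 < Real.log p := Real.log_pos (by exact_mod_cast hp.one_lt)
  have hC : (16 : ℝ) ≤ 16 / S.c1 := by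
    rw [le_div_iff₀ hc1]
    (clear * - hc1'; linarith)
  have hrhs : 0 ≤ 16 / S.c1 * ((p : ℝ) ^ (S.s - 1) / Real.log p ^ 3) := by (clear * - hc1 hp2 hlogp; positivity)
  unfold Sys.ordw
  split_ifs with h1 h2 h3
  · exact ⟨le_rfl, hrhs⟩
  · -- initial block
    have hk0' : (0 : ℝ) < k0 := by
      have : 0 < k0 := by omega
      exact_mod_cast this
    have h4 : Real.log p ≤ k0 := by
      have h5 : (p : ℝ) ≤ (2 : ℝ) ^ k0 := by exact_mod_cast h2.le
      have h6 : Real.log p ≤ (k0 : ℝ) * Real.log 2 := by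
        rw [← Real.log_pow]
        exact Real.log_le_log hp0 h5
      have h7 : Real.log 2 < 1 := by
        have := Real.log_two_lt_d9
        (clear * - hs hs1 this; linarith)
      (clear * - h6 h7; nlinarith)
    have h5 : (2 : ℝ) ^ ((S.s - 1) * k0) ≤ (p : ℝ) ^ (S.s - 1) := by
      have h6 : (p : ℝ) ≤ (2 : ℝ) ^ k0 := by exact_mod_cast h2.le
      have h7 : ((2 : ℝ) ^ k0) ^ (S.s - 1) ≤ (p : ℝ) ^ (S.s - 1) :=
        Real.rpow_le_rpow_of_nonpos hp0 h6 (by (clear * - hs hs1; linarith))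
      rw [← Real.rpow_natCast, ← Real.rpow_mul (by norm_num)] at h7
      rw [mul_comm]
      exact h7
    unfold Sys.phi0
    refine ⟨by (clear * - h2k; positivity), ?_⟩
    calc (2 : ℝ) ^ ((S.s - 1) * k0) / k0 ^ 3 ≤ (p : ℝ) ^ (S.s - 1) / Real.log p ^ 3 := by
          gcongr
      _ ≤ 16 / S.c1 * ((p : ℝ) ^ (S.s - 1) / Real.log p ^ 3) := by
          refine le_mul_of_one_le_left (by (clear * - hp2 hlogp; positivity)) ?_
          (clear * - hs hs1 hC; linarith)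
  · exact ⟨le_rfl, hrhs⟩
  · set k := Nat.log 2 p with hk
    have hkp : 2 ^ k ≤ p := Nat.pow_log_le_self 2 (by omega)
    have hkp2 : p < 2 ^ (k + 1) := Nat.lt_pow_succ_log_self (by norm_num) p
    have hk0k : k0 ≤ k := by
      have : 2 ^ k0 ≤ p := not_lt.1 h2
      exact (Nat.le_log_iff_pow_le (by norm_num) (by omega)).2 this
    have hkpos : (0 : ℝ) < k := by
      have : 0 < k := by omega
      exact_mod_cast this
    have hj := idx_lt S hkp hkp2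
    have hgood := S.good k (hK.trans hk0k) _ hj h3
    have hn : 0 < S.c1 * 2 ^ ec S.d k / k := by (clear * - hc1 hkpos; positivity)
    have hG0 : 0 ≤ S.G k := by
      unfold Sys.G
      (clear * - hkpos; positivity)
    refine ⟨div_nonneg hG0 (hn.le.trans hgood), ?_⟩
    have h5 : S.G k / npr S.d k (S.idx p) ≤ S.G k / (S.c1 * 2 ^ ec S.d k / k) :=
      div_le_div_of_nonneg_left hG0 hn hgood
    have h6 : S.G k / (S.c1 * 2 ^ ec S.d k / k) = (2 : ℝ) ^ ((S.s - 1) * k) / (S.c1 * k ^ 3) := by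
      unfold Sys.G
      field_simp
    have h7 := rpow_s_le S (by omega : 1 ≤ p) hkp2
    have h8 : Real.log p ≤ 2 * k := log2_le p hp2
    have h9 : Real.log p ^ 3 ≤ 8 * (k : ℝ) ^ 3 := by
      calc Real.log p ^ 3 ≤ (2 * k : ℝ) ^ 3 := by gcongr
        _ = 8 * (k : ℝ) ^ 3 := by ring
    refine h5.trans ?_
    rw [h6]
    calc (2 : ℝ) ^ ((S.s - 1) * k) / (S.c1 * k ^ 3) ≤
        2 * (p : ℝ) ^ (S.s - 1) / (S.c1 * k ^ 3) := by (clear * - h7 hc1 hkpos; gcongr)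
      _ = 16 / S.c1 * ((p : ℝ) ^ (S.s - 1) / (8 * (k : ℝ) ^ 3)) := by
          field_simp
          ring
      _ ≤ 16 / S.c1 * ((p : ℝ) ^ (S.s - 1) / Real.log p ^ 3) := by (clear * - hp2 hlogp h9 hc1; gcongr)

/-! ### control weights -/

theorem cell_bounds {k j n : ℕ} (hj : j < nc S.d k) (hn : n ∈ cell S.d k j) :
    2 ^ k ≤ n ∧ n < 2 ^ (k + 1) := by
  unfold cell at hn
  rw [Finset.mem_Ico] at hn
  have hec := ec_le S k
  have h1 : (j + 1) * 2 ^ ec S.d k ≤ 2 ^ k := by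
    have h2 : (j + 1) ≤ 2 ^ (k - ec S.d k) := by
      unfold nc at hj
      omega
    calc (j + 1) * 2 ^ ec S.d k ≤ 2 ^ (k - ec S.d k) * 2 ^ ec S.d k := Nat.mul_le_mul_right _ h2
      _ = 2 ^ k := by
        rw [← pow_add, Nat.sub_add_cancel hec]
  have h3 : 2 ^ (k + 1) = 2 ^ k + 2 ^ k := by ring
  constructor
  · have : 0 ≤ j * 2 ^ ec S.d k := Nat.zero_le _
    omega
  · omega

theorem act_facts {k j : ℕ} (hk : S.K ≤ k) (hj : j ∈ S.badc k) {R : Set ℕ} {x : ℕ × ℕ}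
    (hx : x ∈ S.act R k j) : x.1.Prime ∧ (2 : ℝ) ^ ((k : ℝ) / 3) ≤ x.1 ∧ 1 < x.2 ∧
      2 ^ k ≤ x.1 * x.2 ∧ x.1 * x.2 < 2 ^ (k + 1) := by
  have hj' := (mem_badc S).1 hj
  unfold Sys.act at hx
  rw [Finset.mem_filter] at hx
  obtain ⟨h1, h2, h3, h4, h5, h6, h7⟩ := S.cand k hk j hj'.1 hj'.2 x hx.1
  exact ⟨h1, h2, h4, cell_bounds S hj'.1 h5⟩

theorem two_pow_le_cube {k q : ℕ} (h : (2 : ℝ) ^ ((k : ℝ) / 3) ≤ q) : (2 : ℝ) ^ k ≤ (q : ℝ) ^ 3 := by
  have h1 : ((2 : ℝ) ^ ((k : ℝ) / 3)) ^ 3 ≤ (q : ℝ) ^ 3 := by gcongr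
  have h2 : ((2 : ℝ) ^ ((k : ℝ) / 3)) ^ 3 = (2 : ℝ) ^ k := by
    rw [← Real.rpow_natCast ((2 : ℝ) ^ ((k : ℝ) / 3)) 3, ← Real.rpow_mul (by norm_num),
      ← Real.rpow_natCast (2 : ℝ) k]
    congr 1
    push_cast
    ring
  rw [h2] at h1
  exact h1

/-- one control weight -/
theorem wo_le_q {k0 : ℕ} {R : Set ℕ} (hG : S.Good k0 R) {k j : ℕ} (hk0 : k0 ≤ k) (hk : S.K ≤ k)
    (hj : j ∈ S.badc k) {x : ℕ × ℕ} (hx : x ∈ S.act R k j) :
    S.wo R k j x.2 ≤ (8 / S.c1) / (k : ℝ) ^ 2 * (x.1 : ℝ) ^ (S.s - 1 + 2 * S.tau) := by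
  obtain ⟨h1, h2, h3, h4, h5⟩ := act_facts S hk hj hx
  have hs := s_pos S
  have hs1 := s_lt S
  have ht := tau_pos S
  have ht1 := tau_lt S
  have hc1 := S.c1_pos
  have hkpos : (0 : ℝ) < k := by
    have := S.K_pos
    exact_mod_cast lt_of_lt_of_le this hk
  have hq : (0 : ℝ) < x.1 := by exact_mod_cast h1.pos
  have hm : (0 : ℝ) < x.2 := by
    have : 0 < x.2 := by omega
    exact_mod_cast this
  have h6 := (wo_le' S hG hk0 hk hj h3.le).2
  have h7 := rpow_s_le S (n := x.1 * x.2) (Nat.mul_pos h1.pos (by omega)) h5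
  have h8 : ((x.1 * x.2 : ℕ) : ℝ) ^ (S.s - 1) = (x.1 : ℝ) ^ (S.s - 1) * (x.2 : ℝ) ^ (S.s - 1) := by
    push_cast
    exact Real.mul_rpow hq.le hm.le
  have h9 : (x.2 : ℝ) ^ (S.s - 1) * (x.2 : ℝ) ^ (1 - S.s + S.tau) = (x.2 : ℝ) ^ S.tau := by
    rw [← Real.rpow_add hm]
    congr 1
    ring
  -- bound of `m`
  have h10 : (x.2 : ℝ) ≤ 2 * (x.1 : ℝ) ^ 2 := by
    have h11 := two_pow_le_cube h2
    have h12 : (x.1 : ℝ) * x.2 ≤ (2 : ℝ) ^ (k + 1) := by exact_mod_cast h5.le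
    have h13 : (x.1 : ℝ) * x.2 ≤ x.1 * (2 * (x.1 : ℝ) ^ 2) := by
      calc (x.1 : ℝ) * x.2 ≤ (2 : ℝ) ^ (k + 1) := h12
        _ = 2 * (2 : ℝ) ^ k := by ring
        _ ≤ 2 * (x.1 : ℝ) ^ 3 := by (clear * - h11; gcongr)
        _ = x.1 * (2 * (x.1 : ℝ) ^ 2) := by ring
    exact le_of_mul_le_mul_left h13 hq
  have h14 : (x.2 : ℝ) ^ S.tau ≤ 2 * (x.1 : ℝ) ^ (2 * S.tau) := by
    calc (x.2 : ℝ) ^ S.tau ≤ (2 * (x.1 : ℝ) ^ 2) ^ S.tau :=
          Real.rpow_le_rpow hm.le h10 ht.le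
      _ = 2 ^ S.tau * (x.1 : ℝ) ^ (2 * S.tau) := by
          rw [Real.mul_rpow (by norm_num) (by (clear * - hq; positivity)), ← Real.rpow_natCast (x.1 : ℝ) 2,
            ← Real.rpow_mul hq.le]
          norm_num
      _ ≤ 2 * (x.1 : ℝ) ^ (2 * S.tau) := by
          have : (2 : ℝ) ^ S.tau ≤ 2 ^ (1 : ℝ) :=
            Real.rpow_le_rpow_of_exponent_le (by norm_num) (by (clear * - ht ht1; linarith))
          rw [Real.rpow_one] at this
          (clear * - this hq; gcongr)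
  calc S.wo R k j x.2 ≤ (2 / S.c1) / (k : ℝ) ^ 2 * S.wd k x.2 := h6
    _ = (2 / S.c1) / (k : ℝ) ^ 2 * ((2 : ℝ) ^ ((S.s - 1) * k) * (x.2 : ℝ) ^ (1 - S.s + S.tau)) := rfl
    _ ≤ (2 / S.c1) / (k : ℝ) ^ 2 * ((2 * ((x.1 * x.2 : ℕ) : ℝ) ^ (S.s - 1)) *
        (x.2 : ℝ) ^ (1 - S.s + S.tau)) := by (clear * - h7 h3 hc1 hkpos; gcongr)
    _ = (4 / S.c1) / (k : ℝ) ^ 2 * ((x.1 : ℝ) ^ (S.s - 1) * (x.2 : ℝ) ^ S.tau) := by
        rw [h8, ← h9]
        ring
    _ ≤ (4 / S.c1) / (k : ℝ) ^ 2 * ((x.1 : ℝ) ^ (S.s - 1) * (2 * (x.1 : ℝ) ^ (2 * S.tau))) := by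
        (clear * - h14 hq hc1 hkpos; gcongr)
    _ = (8 / S.c1) / (k : ℝ) ^ 2 * (x.1 : ℝ) ^ (S.s - 1 + 2 * S.tau) := by
        rw [Real.rpow_add hq]
        ring

theorem cw_nonneg {k0 : ℕ} {R : Set ℕ} (hG : S.Good k0 R) {k j : ℕ} (hk0 : k0 ≤ k) (hk : S.K ≤ k)
    (hj : j ∈ S.badc k) (q : ℕ) : 0 ≤ S.cw R k j q := by
  unfold Sys.cw
  refine Finset.sum_nonneg fun x hx => ?_
  rw [Finset.mem_filter] at hx
  exact (wo_le' S hG hk0 hk hj (act_facts S hk hj hx.1).2.2.1.le).1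

theorem ctl_nonneg {k0 : ℕ} {R : Set ℕ} (hG : S.Good k0 R) (hK : S.K ≤ k0) (k1 q : ℕ) :
    0 ≤ S.ctl k0 k1 R q := by
  unfold Sys.ctl
  refine Finset.sum_nonneg fun k hk => Finset.sum_nonneg fun j hj => ?_
  rw [Finset.mem_Ico] at hk
  exact cw_nonneg S hG hk.1 (hK.trans hk.1) hj q

theorem ctl_mono {k0 : ℕ} {R : Set ℕ} (hG : S.Good k0 R) (hK : S.K ≤ k0) {k1 k2 : ℕ} (h : k1 ≤ k2)
    (q : ℕ) : S.ctl k0 k1 R q ≤ S.ctl k0 k2 R q := by
  unfold Sys.ctl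
  refine Finset.sum_le_sum_of_subset_of_nonneg (Finset.Ico_subset_Ico_right h) fun k hk _ => ?_
  rw [Finset.mem_Ico] at hk
  exact Finset.sum_nonneg fun j hj => cw_nonneg S hG hk.1 (hK.trans hk.1) hj q

theorem ctl_zero {k0 : ℕ} {R : Set ℕ} (hK : S.K ≤ k0) (k1 q : ℕ)
    (h : (q : ℝ) < (2 : ℝ) ^ ((k0 : ℝ) / 3)) : S.ctl k0 k1 R q = 0 := by
  unfold Sys.ctl
  refine Finset.sum_eq_zero fun k hk => Finset.sum_eq_zero fun j hj => ?_
  rw [Finset.mem_Ico] at hk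
  unfold Sys.cw
  refine Finset.sum_eq_zero fun x hx => ?_
  rw [Finset.mem_filter] at hx
  exfalso
  have h1 := (act_facts S (hK.trans hk.1) hj hx.1).2.1
  rw [hx.2] at h1
  have h2 : (2 : ℝ) ^ ((k0 : ℝ) / 3) ≤ (2 : ℝ) ^ ((k : ℝ) / 3) := by
    apply Real.rpow_le_rpow_of_exponent_le (by norm_num)
    have : (k0 : ℝ) ≤ k := by exact_mod_cast hk.1
    (clear * - this; linarith)
  (clear * - h h1 h2; linarith)

/-- a prime which is not a candidate has no control weight -/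
theorem ctl_zero_of_not_prime {k0 : ℕ} {R : Set ℕ} (hK : S.K ≤ k0) (k1 q : ℕ)
    (h : ¬ q.Prime) : S.ctl k0 k1 R q = 0 := by
  unfold Sys.ctl
  refine Finset.sum_eq_zero fun k hk => Finset.sum_eq_zero fun j hj => ?_
  rw [Finset.mem_Ico] at hk
  unfold Sys.cw
  refine Finset.sum_eq_zero fun x hx => ?_
  rw [Finset.mem_filter] at hx
  exact absurd (hx.2 ▸ (act_facts S (hK.trans hk.1) hj hx.1).1) h

theorem ctl_le_own {k0 : ℕ} {R : Set ℕ} (hG : S.Good k0 R) (hK : S.K ≤ k0) {k1 q : ℕ}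
    (hk1 : k1 ≤ top q) : S.ctl k0 k1 R q ≤
      (S.own k0 R q : ℝ) * ((8 / S.c1) / (k0 : ℝ) ^ 2 * (q : ℝ) ^ (S.s - 1 + 2 * S.tau)) := by
  have hc1 := S.c1_pos
  have hk0pos : (0 : ℝ) < k0 := by
    have := S.K_pos
    exact_mod_cast lt_of_lt_of_le this hK
  refine (ctl_mono S hG hK hk1 q).trans ?_
  unfold Sys.ctl Sys.own
  push_cast
  rw [Finset.sum_mul]
  refine Finset.sum_le_sum fun k hk => ?_
  rw [Finset.sum_mul]
  refine Finset.sum_le_sum fun j hj => ?_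
  rw [Finset.mem_Ico] at hk
  unfold Sys.cw
  rw [← nsmul_eq_mul]
  refine Finset.sum_le_card_nsmul _ _ _ fun x hx => ?_
  rw [Finset.mem_filter] at hx
  have h1 := wo_le_q S hG hk.1 (hK.trans hk.1) hj hx.1
  rw [hx.2] at h1
  refine h1.trans ?_
  have h2 : (k0 : ℝ) ≤ k := by exact_mod_cast hk.1
  gcongr

theorem ctl_le_pow {k0 : ℕ} {R : Set ℕ} (hG : S.Good k0 R) (hK : S.K ≤ k0) {k1 q : ℕ}
    (hk1 : k1 ≤ top q) : S.ctl k0 k1 R q ≤
      (8 / S.c1) / (k0 : ℝ) ^ 2 * (q : ℝ) ^ (S.s - 1 + 3 * S.tau) := by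
  have hc1 := S.c1_pos
  have ht := tau_pos S
  have h1 := ctl_le_own S hG hK hk1
  have h2 := hG.mult q
  have hB : (0 : ℝ) ≤ (8 / S.c1) / (k0 : ℝ) ^ 2 * (q : ℝ) ^ (S.s - 1 + 2 * S.tau) := by (clear * - hc1; positivity)
  rcases Nat.eq_zero_or_pos q with h0 | h0
  · rw [ctl_zero_of_not_prime S hK k1 q (by rw [h0]; exact Nat.not_prime_zero)]
    (clear * - hc1; positivity)
  · have hq : (0 : ℝ) < q := by exact_mod_cast h0
    calc S.ctl k0 k1 R q ≤
        (S.own k0 R q : ℝ) * ((8 / S.c1) / (k0 : ℝ) ^ 2 * (q : ℝ) ^ (S.s - 1 + 2 * S.tau)) := h1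
      _ ≤ (q : ℝ) ^ S.tau * ((8 / S.c1) / (k0 : ℝ) ^ 2 * (q : ℝ) ^ (S.s - 1 + 2 * S.tau)) := by
          gcongr
      _ = (8 / S.c1) / (k0 : ℝ) ^ 2 * (q : ℝ) ^ (S.s - 1 + 3 * S.tau) := by
          have : (q : ℝ) ^ (S.s - 1 + 3 * S.tau) =
              (q : ℝ) ^ S.tau * (q : ℝ) ^ (S.s - 1 + 2 * S.tau) := by
            rw [← Real.rpow_add hq]
            congr 1
            ring
          rw [this]
          ring

theorem ctlLe : CtlLe := by
  intro S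
  have hc1 := S.c1_pos
  refine ⟨max S.K ⌈16 / S.c1⌉₊, fun k0 hk0 R hG q k1 hk1 => ?_⟩
  have hK : S.K ≤ k0 := (le_max_left _ _).trans hk0
  have hk0' : 16 / S.c1 ≤ k0 := (Nat.le_ceil _).trans (by exact_mod_cast (le_max_right _ _).trans hk0)
  have hk0pos : (1 : ℝ) ≤ k0 := by
    have := S.K_pos
    exact_mod_cast this.trans hK
  have ht := tau_pos S
  refine ⟨ctl_nonneg S hG hK k1 q, ?_, fun h => ctl_zero S hK k1 q h⟩
  rcases Nat.eq_zero_or_pos q with h0 | h0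
  · rw [ctl_zero_of_not_prime S hK k1 q (by rw [h0]; exact Nat.not_prime_zero)]
    simp only [mul_zero]
    (clear * -; positivity)
  · have hq : (1 : ℝ) ≤ q := by exact_mod_cast h0
    have h1 := ctl_le_pow S hG hK hk1
    have h2 : 2 * ((8 / S.c1) / (k0 : ℝ) ^ 2) ≤ 1 := by
      have h3 : 16 / S.c1 ≤ (k0 : ℝ) ^ 2 := by (clear * - hk0' hk0pos; nlinarith)
      have h4 : 2 * ((8 / S.c1) / (k0 : ℝ) ^ 2) = (16 / S.c1) / (k0 : ℝ) ^ 2 := by ring
      rw [h4, div_le_one (by positivity)]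
      exact h3
    calc 2 * S.ctl k0 k1 R q ≤ 2 * ((8 / S.c1) / (k0 : ℝ) ^ 2 * (q : ℝ) ^ (S.s - 1 + 3 * S.tau)) := by
          (clear * - h1; linarith)
      _ = 2 * ((8 / S.c1) / (k0 : ℝ) ^ 2) * (q : ℝ) ^ (S.s - 1 + 3 * S.tau) := by ring
      _ ≤ 1 * (q : ℝ) ^ (S.s - 1 + 3 * S.tau) := by (clear * - h2 h0; gcongr)
      _ ≤ (q : ℝ) ^ (S.s - 1 + 5 * S.tau) := by
          rw [one_mul]
          exact Real.rpow_le_rpow_of_exponent_le hq (by (clear * - ht; linarith))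

theorem one_le_ordC_aux {C : ℝ} (hC : 0 ≤ C) {t : ℝ} (ht : 0 < t) :
    ∃ K0 : ℕ, ∀ k0 : ℕ, K0 ≤ k0 → ∀ p : ℝ, (2 : ℝ) ^ ((k0 : ℝ) / 5) ≤ p → C ≤ p ^ t := by
  refine ⟨⌈5 / t * Real.logb 2 (C + 1)⌉₊, fun k0 hk0 p hp => ?_⟩
  have h1 : 5 / t * Real.logb 2 (C + 1) ≤ k0 := (Nat.le_ceil _).trans (by exact_mod_cast hk0)
  have h2 : (0 : ℝ) < (2 : ℝ) ^ ((k0 : ℝ) / 5) := Real.rpow_pos_of_pos (by norm_num) _
  have h3 : ((2 : ℝ) ^ ((k0 : ℝ) / 5)) ^ t ≤ p ^ t := Real.rpow_le_rpow h2.le hp ht.le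
  refine le_trans ?_ h3
  rw [← Real.rpow_mul (by norm_num)]
  have h4 : Real.logb 2 (C + 1) ≤ (k0 : ℝ) / 5 * t := by
    have h5 : Real.logb 2 (C + 1) = 5 / t * Real.logb 2 (C + 1) * (t / 5) := by
      (clear * - ht; field_simp)
    rw [h5]
    calc 5 / t * Real.logb 2 (C + 1) * (t / 5) ≤ (k0 : ℝ) * (t / 5) := by gcongr
      _ = (k0 : ℝ) / 5 * t := by ring
  calc C ≤ C + 1 := by (clear * -; linarith)
    _ = (2 : ℝ) ^ Real.logb 2 (C + 1) := by
        rw [Real.rpow_logb (by norm_num) (by norm_num) (by (clear * - hC; linarith))]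
    _ ≤ (2 : ℝ) ^ ((k0 : ℝ) / 5 * t) := Real.rpow_le_rpow_of_exponent_le (by norm_num) h4

theorem bR_nonneg (R : Set ℕ) (p : ℕ) : 0 ≤ S.bR R p := by
  unfold Sys.bR
  split_ifs
  · exact base_nonneg S p
  · exact le_rfl

theorem wpLe : WpLe := by
  intro S
  obtain ⟨C, K1, hord⟩ := ordLe S
  obtain ⟨K2, hctl⟩ := ctlLe S
  have ht := tau_pos S
  obtain ⟨K3, hlarge⟩ := one_le_ordC_aux (C := 8 * |C| + 1) (by (clear * -; positivity)) ht
  refine ⟨max (max K1 K2) (max K3 2), fun k0 hk0 R hG p hp => ?_⟩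
  have hK1 : K1 ≤ k0 := (le_max_left _ _).trans ((le_max_left _ _).trans hk0)
  have hK2 : K2 ≤ k0 := (le_max_right _ _).trans ((le_max_left _ _).trans hk0)
  have hK3 : K3 ≤ k0 := (le_max_left _ _).trans ((le_max_right _ _).trans hk0)
  have h2k : 2 ≤ k0 := (le_max_right _ _).trans ((le_max_right _ _).trans hk0)
  have h2k' : (2 : ℝ) ≤ k0 := by exact_mod_cast h2k
  obtain ⟨ho1, ho2⟩ := hord k0 hK1 p hp
  obtain ⟨hc1, hc2, hc3⟩ := hctl k0 hK2 R hG p (top p) le_rfl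
  have hb := bR_nonneg S R p
  refine ⟨by unfold Sys.Wp; (clear * - hb ho1 hc1; positivity), ?_⟩
  have hp1 : (1 : ℝ) ≤ p := by exact_mod_cast hp.one_le
  have hp0 : (0 : ℝ) < p := by (clear * - hp1; linarith)
  unfold Sys.Wp Sys.Fh
  split_ifs with h
  · have h1 : S.bR R p = 0 := by
      unfold Sys.bR
      rw [if_neg]
      intro hR
      exact absurd ((hG.prime p hR).2) (not_le.2 h)
    have h2 : S.ordw k0 p = 0 := by
      unfold Sys.ordw
      rw [if_pos]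
      have h3 : (p : ℝ) < ((2 ^ (k0 - 1) : ℕ) : ℝ) := by
        refine lt_of_lt_of_le h ?_
        push_cast
        rw [← Real.rpow_natCast]
        apply Real.rpow_le_rpow_of_exponent_le (by norm_num)
        rw [Nat.cast_sub (by omega)]
        push_cast
        (clear * - h2k'; linarith)
      exact_mod_cast h3
    have h4 : S.ctl k0 (top p) R p = 0 := by
      apply hc3
      refine lt_of_lt_of_le h ?_
      apply Real.rpow_le_rpow_of_exponent_le (by norm_num)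
      (clear * - h2k'; linarith)
    rw [h1, h2, h4]
    norm_num
  · have hpt := hlarge k0 hK3 p (not_lt.1 h)
    have hlog : Real.log 2 ≤ Real.log p := Real.log_le_log (by norm_num) (by exact_mod_cast hp.two_le)
    have hlog2 : (0.69 : ℝ) < Real.log 2 := by
      have := Real.log_two_gt_d9
      (clear * - this; linarith)
    have hlog3 : (1/4 : ℝ) ≤ Real.log p ^ 3 := by
      have : (0.69 : ℝ) ^ 3 ≤ Real.log p ^ 3 := by
        have h5 : (0.69 : ℝ) ≤ Real.log p := by linarith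
        gcongr
      norm_num at this ⊢
      (clear * - this; linarith)
    have hps : 0 < (p : ℝ) ^ (S.s - 1) := Real.rpow_pos_of_pos hp0 _
    have h5 : 2 * S.ordw k0 p ≤ 8 * |C| * (p : ℝ) ^ (S.s - 1) := by
      have h6 : (p : ℝ) ^ (S.s - 1) / Real.log p ^ 3 ≤ (p : ℝ) ^ (S.s - 1) / (1/4) := by
        (clear * - hp1 hlog3; gcongr)
      have h7 : C * ((p : ℝ) ^ (S.s - 1) / Real.log p ^ 3) ≤
          |C| * ((p : ℝ) ^ (S.s - 1) / (1/4)) := by
        calc C * ((p : ℝ) ^ (S.s - 1) / Real.log p ^ 3) ≤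
            |C| * ((p : ℝ) ^ (S.s - 1) / Real.log p ^ 3) := by
              gcongr
              exact le_abs_self C
          _ ≤ |C| * ((p : ℝ) ^ (S.s - 1) / (1/4)) := by (clear * - h6; gcongr)
      calc 2 * S.ordw k0 p ≤ 2 * (|C| * ((p : ℝ) ^ (S.s - 1) / (1/4))) := by (clear * - ho2 h7; linarith)
        _ = 8 * |C| * (p : ℝ) ^ (S.s - 1) := by ring
    have h8 : (p : ℝ) ^ (S.s - 1 + 5 * S.tau) = (p : ℝ) ^ (S.s - 1) * (p : ℝ) ^ (5 * S.tau) :=
      Real.rpow_add hp0 _ _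
    have h9 : S.gam p = (p : ℝ) ^ (S.s - 1) * ((p : ℝ) ^ (5 * S.tau) * (p : ℝ) ^ S.tau) := by
      unfold Sys.gam
      rw [← Real.rpow_add hp0, ← Real.rpow_add hp0]
      congr 1
      ring
    have h10 : 1 ≤ (p : ℝ) ^ (5 * S.tau) := Real.one_le_rpow hp1 (by (clear * - ht; linarith))
    have h11 : 8 * |C| + (p : ℝ) ^ (5 * S.tau) ≤ (p : ℝ) ^ (5 * S.tau) * (p : ℝ) ^ S.tau := by
      have h12 : (p : ℝ) ^ (5 * S.tau) * (8 * |C| + 1) ≤ (p : ℝ) ^ (5 * S.tau) * (p : ℝ) ^ S.tau := by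
        (clear * - hpt hp1; gcongr)
      have h13 : 0 ≤ 8 * |C| := by (clear * -; positivity)
      (clear * - ho1 h10 hc1 hpt hc2 h8 hps h5; nlinarith)
    rw [h9]
    rw [h8] at hc2
    have h14 := mul_le_mul_of_nonneg_left h11 hps.le
    (clear * - hc2 h5 h14; nlinarith)

end Pool.Agent.M17.Helper61.KS
end
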