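import Mathlib
import Pool.Agent.Helper53.KM.G01
import Pool.Agent.Helper53.KM.G07
import Pool.Agent.Helper53.KM.G11
import Pool.Agent.Helper53.KM.G20
import Pool.Agent.Helper53.KM.G26
import Pool.Agent.Helper53.KM.G29

/- Helper53.KN.Helper79.RG.Lower -/
section
/-!
# The average over the primes of the sum of the reciprocal gaps is at least one

`lower_ineq` is an explicit inequality (Cauchy-Schwarz on windows), `lower_first` is the
asymptotic lower bound, which uses the prime number theorem.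
-/

set_option autoImplicit false

open Finset Filter Topology

namespace Pool.Agent.M17.Helper79.RG

/-- the primes below `x` -/
def PR (x : ℕ) : Finset ℕ := (range x).filter Nat.Prime

theorem mem_PR {x p : ℕ} : p ∈ PR x ↔ p < x ∧ p.Prime := by
  unfold PR
  rw [Finset.mem_filter, Finset.mem_range]

/-! ### telescoping -/

/-! ### windows -/

/-- indicator of a window -/
def win (h p y : ℕ) : ℝ := if p ≤ y ∧ y < p + h then 1 else 0

/-! ### asymptotics -/

end Pool.Agent.M17.Helper79.RG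
end

/- Helper53.KN.Helper96.CPAP.Count -/
section
/-!
# Counting lemma for the sieve over an arithmetic progression of `k`-tuples
-/

set_option autoImplicit false

open Finset

namespace Pool.Agent.M17.Helper96.CPAP


theorem count_shift {p : ℕ → Prop} [DecidablePred p] {D : ℕ} (hp : ∀ n, p (n + D) ↔ p n) (n : ℕ) :
    Nat.count (fun k => p (D + k)) n = Nat.count p n := by
  induction n with
  | zero => simp
  | succ n ih =>
    rw [Nat.count_succ, Nat.count_succ, ih]
    congr 1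
    by_cases h : p n
    · rw [if_pos h, if_pos]
      rw [add_comm]; exact (hp n).mpr h
    · rw [if_neg h, if_neg]
      rw [add_comm]; exact fun h' => h ((hp n).mp h')

theorem count_periodic {p : ℕ → Prop} [DecidablePred p] {D : ℕ} (hp : ∀ n, p (n + D) ↔ p n)
    (Q r : ℕ) : Nat.count p (Q * D + r) = Q * Nat.count p D + Nat.count p r := by
  induction Q with
  | zero => simp
  | succ Q ih =>
    have e : (Q + 1) * D + r = D + (Q * D + r) := by ring
    rw [e, Nat.count_add, count_shift hp, ih]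
    ring

theorem count_periodic_bound {p : ℕ → Prop} [DecidablePred p] {D : ℕ} (hD : 0 < D)
    (hp : ∀ n, p (n + D) ↔ p n) (N : ℕ) :
    |(Nat.count p N : ℝ) - N * ((Nat.count p D : ℝ) / D)| ≤ Nat.count p D := by
  have hN : N = N / D * D + N % D := by rw [mul_comm]; exact (Nat.div_add_mod N D).symm
  have hlt : N % D < D := Nat.mod_lt _ hD
  have h1 : Nat.count p N = N / D * Nat.count p D + Nat.count p (N % D) := by
    conv_lhs => rw [hN]
    exact count_periodic hp _ _
  have h2 : Nat.count p (N % D) ≤ Nat.count p D := Nat.count_monotone p hlt.le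
  have hD0 : (0 : ℝ) < D := by exact_mod_cast hD
  set ρ : ℝ := (Nat.count p D : ℝ) with hρ
  have hρ0 : 0 ≤ ρ := by positivity
  have h3 : (Nat.count p N : ℝ) = (N / D : ℕ) * ρ + Nat.count p (N % D) := by
    rw [h1]; push_cast; ring
  have h4 : (N : ℝ) = (N / D : ℕ) * D + (N % D : ℕ) := by exact_mod_cast hN
  have h5 : (N : ℝ) * (ρ / D) = (N / D : ℕ) * ρ + (N % D : ℕ) * (ρ / D) := by
    conv_lhs => rw [h4]
    field_simp
  rw [h3, h5]
  have h6 : ((N % D : ℕ) : ℝ) ≤ D := by exact_mod_cast hlt.le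
  have h7 : 0 ≤ ((N % D : ℕ) : ℝ) * (ρ / D) := by positivity
  have h8 : ((N % D : ℕ) : ℝ) * (ρ / D) ≤ ρ := by
    calc ((N % D : ℕ) : ℝ) * (ρ / D) ≤ D * (ρ / D) :=
          mul_le_mul_of_nonneg_right h6 (by positivity)
      _ = ρ := by field_simp
  have h9 : (Nat.count p (N % D) : ℝ) ≤ ρ := by rw [hρ]; exact_mod_cast h2
  have h10 : (0 : ℝ) ≤ Nat.count p (N % D) := by positivity
  rw [abs_le]
  constructor <;> linarith

theorem card_crt {q D : ℕ} (hco : Nat.Coprime q D) (hq : 0 < q) (hD : 0 < D) (A B : ℕ → Prop)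
    [DecidablePred A] [DecidablePred B]
    (hA : ∀ n, A (n % q) ↔ A n) (hB : ∀ n, B (n % D) ↔ B n) :
    ((range (q * D)).filter (fun n => A n ∧ B n)).card =
      ((range q).filter A).card * ((range D).filter B).card := by
  rw [← Finset.card_product]
  refine Finset.card_nbij' (fun n => (n % q, n % D))
    (fun x => (Nat.chineseRemainder hco x.1 x.2 : ℕ)) ?_ ?_ ?_ ?_
  · intro n hn
    rw [Finset.mem_coe, Finset.mem_filter, Finset.mem_range] at hn
    rw [Finset.mem_coe, Finset.mem_product, Finset.mem_filter, Finset.mem_filter, Finset.mem_range,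
      Finset.mem_range]
    exact ⟨⟨Nat.mod_lt _ hq, (hA n).mpr hn.2.1⟩, ⟨Nat.mod_lt _ hD, (hB n).mpr hn.2.2⟩⟩
  · rintro ⟨x, y⟩ hx
    rw [Finset.mem_coe, Finset.mem_product, Finset.mem_filter, Finset.mem_filter, Finset.mem_range,
      Finset.mem_range] at hx
    rw [Finset.mem_coe, Finset.mem_filter, Finset.mem_range]
    have h1 := (Nat.chineseRemainder hco x y).2
    refine ⟨Nat.chineseRemainder_lt_mul hco x y hq.ne' hD.ne', ?_, ?_⟩
    · rw [← hA, h1.1, hA]; exact hx.1.2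
    · rw [← hB, h1.2, hB]; exact hx.2.2
  · intro n hn
    rw [Finset.mem_coe, Finset.mem_filter, Finset.mem_range] at hn
    have h1 := (Nat.chineseRemainder hco (n % q) (n % D)).2
    have h2 : (Nat.chineseRemainder hco (n % q) (n % D) : ℕ) ≡ n [MOD q * D] := by
      rw [← Nat.modEq_and_modEq_iff_modEq_mul hco]
      exact ⟨h1.1.trans (Nat.mod_modEq _ _), h1.2.trans (Nat.mod_modEq _ _)⟩
    exact Nat.ModEq.eq_of_lt_of_lt h2 (Nat.chineseRemainder_lt_mul hco _ _ hq.ne' hD.ne') hn.1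
  · rintro ⟨x, y⟩ hx
    rw [Finset.mem_coe, Finset.mem_product, Finset.mem_filter, Finset.mem_filter, Finset.mem_range,
      Finset.mem_range] at hx
    have h1 := (Nat.chineseRemainder hco x y).2
    simp only [Prod.mk.injEq]
    constructor
    · rw [h1.1]; exact Nat.mod_eq_of_lt hx.1.1
    · rw [h1.2]; exact Nat.mod_eq_of_lt hx.2.1

end Pool.Agent.M17.Helper96.CPAP
end

/- Helper53.KN.Helper79.RG.Sieve -/
section
/-!
# Upper bound sieve for prime tuples, uniform in the shifts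
-/

set_option autoImplicit false

open Finset

namespace Pool.Agent.M17.Helper79.RG

open Pool.Agent.M17.Helper44 Pool.Agent.M17.Helper96.CPAP

/-- sum of the reciprocals of the prime factors -/
noncomputable def sig (n : ℕ) : ℝ := ∑ q ∈ n.primeFactors, (1 : ℝ) / q

theorem sig_nonneg (n : ℕ) : 0 ≤ sig n := Finset.sum_nonneg fun q _ => by (clear * -; positivity)

@[simp] theorem sig_zero : sig 0 = 0 := by simp [sig]

/-- the exponent of the singular factor of a tuple -/
noncomputable def sigT {k : ℕ} (b : Fin k → ℕ) : ℝ := ∑ i, ∑ j, sig (b i - b j)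

theorem sigT_nonneg {k : ℕ} (b : Fin k → ℕ) : 0 ≤ sigT b :=
  Finset.sum_nonneg fun _ _ => Finset.sum_nonneg fun _ _ => sig_nonneg _

theorem sum_biUnion_le' {ι : Type*} [DecidableEq ι] (S : Finset ι) (t : ι → Finset ℕ)
    (f : ℕ → ℝ) (hf : ∀ q, 0 ≤ f q) :
    ∑ q ∈ S.biUnion t, f q ≤ ∑ p ∈ S, ∑ q ∈ t p, f q := by
  induction S using Finset.induction_on with
  | empty => simp
  | insert a S ha ih =>
    rw [Finset.biUnion_insert, Finset.sum_insert ha]
    have a1 := Finset.sum_union_inter (s₁ := t a) (s₂ := S.biUnion t) (f := f)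
    have a3 : 0 ≤ ∑ q ∈ t a ∩ S.biUnion t, f q := Finset.sum_nonneg fun q _ => hf q
    (clear * - ih a1 a3; linarith)

/-- sieving primes of a tuple -/
def PT {k : ℕ} (b : Fin k → ℕ) (q : ℕ) : Prop :=
  q.Prime ∧ 2 * k ≤ q ∧ ∀ i j, i ≠ j → ¬ b i ≡ b j [MOD q]

theorem occ_mod' {k : ℕ} {b : Fin k → ℕ} {q : ℕ} (n : ℕ) :
    (∃ i, q ∣ n % q + b i) ↔ (∃ i, q ∣ n + b i) := by
  apply exists_congr
  intro i
  have h : n % q + b i ≡ n + b i [MOD q] := Nat.ModEq.add_right _ (Nat.mod_modEq n q)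
  exact ⟨fun h' => (Nat.ModEq.dvd_iff h dvd_rfl).mp h', fun h' => (Nat.ModEq.dvd_iff h dvd_rfl).mpr h'⟩

theorem card_occ {k : ℕ} {b : Fin k → ℕ} {q : ℕ} (hq : PT b q) :
    ((range q).filter (fun n => ∃ i, q ∣ n + b i)).card = k := by
  classical
  have : Fact q.Prime := ⟨hq.1⟩
  set f : Fin k → ℕ := fun i => (-(b i : ZMod q)).val with hf
  have key : ∀ (n : ℕ) (i : Fin k), q ∣ n + b i ↔ (n : ZMod q) = -(b i : ZMod q) := by
    intro n i
    rw [← ZMod.natCast_eq_zero_iff]
    push_cast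
    exact ⟨fun h => eq_neg_of_add_eq_zero_left h, fun h => by rw [h]; ring⟩
  have himg : (range q).filter (fun n => ∃ i, q ∣ n + b i) = univ.image f := by
    ext n
    rw [Finset.mem_filter, Finset.mem_range, Finset.mem_image]
    constructor
    · rintro ⟨hn, i, hdv⟩
      refine ⟨i, mem_univ _, ?_⟩
      rw [key] at hdv
      simp only [hf]
      rw [← hdv, ZMod.val_natCast, Nat.mod_eq_of_lt hn]
    · rintro ⟨i, _, rfl⟩
      refine ⟨ZMod.val_lt _, i, ?_⟩
      rw [key]
      simp [hf]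
  rw [himg, Finset.card_image_of_injective, Finset.card_univ, Fintype.card_fin]
  intro i j hij
  simp only [hf] at hij
  by_contra hne
  apply hq.2.2 i j hne
  have h1 := ZMod.val_injective q hij
  rw [neg_inj] at h1
  exact (ZMod.natCast_eq_natCast_iff _ _ _).mp h1

theorem card_occ_prod' {k : ℕ} {b : Fin k → ℕ} (I : Finset ℕ) (hI : ∀ q ∈ I, PT b q) :
    ((range (∏ q ∈ I, q)).filter (fun n => ∀ q ∈ I, ∃ i, q ∣ n + b i)).card = k ^ I.card := by
  classical
  induction I using Finset.induction_on with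
  | empty => simp
  | insert q I hqI ih =>
    have hq := hI q (Finset.mem_insert_self _ _)
    have hI' : ∀ q ∈ I, PT b q := fun q' hq' => hI q' (Finset.mem_insert_of_mem hq')
    have hco : Nat.Coprime q (∏ q ∈ I, q) := by
      apply Nat.Coprime.prod_right
      intro q' hq'
      exact (Nat.coprime_primes hq.1 (hI' q' hq').1).mpr (fun h => hqI (h ▸ hq'))
    have hpos : 0 < ∏ q ∈ I, q := Finset.prod_pos fun q' hq' => (hI' q' hq').1.pos
    rw [Finset.prod_insert hqI, Finset.card_insert_of_notMem hqI, pow_succ, mul_comm (k ^ I.card),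
      ← ih hI']
    have e : ((range q).filter (fun n => ∃ i, q ∣ n + b i)).card = k := card_occ hq
    have h2 := card_crt hco hq.1.pos hpos (fun n => ∃ i, q ∣ n + b i)
      (fun n => ∀ q ∈ I, ∃ i, q ∣ n + b i) (fun n => occ_mod' n) (by
        intro n
        apply forall₂_congr
        intro q' hq'
        apply exists_congr
        intro i
        have hdvd : q' ∣ ∏ q ∈ I, q := Finset.dvd_prod_of_mem _ hq'
        have h : (n % ∏ q ∈ I, q) + b i ≡ n + b i [MOD q'] :=
          Nat.ModEq.add_right _ ((Nat.mod_modEq n _).of_dvd hdvd)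
        exact ⟨fun h' => (Nat.ModEq.dvd_iff h dvd_rfl).mp h',
          fun h' => (Nat.ModEq.dvd_iff h dvd_rfl).mpr h'⟩)
    rw [e] at h2
    rw [← h2]
    congr 1
    apply Finset.filter_congr
    intro n _
    rw [Finset.forall_mem_insert]

theorem count_bound' {k : ℕ} {b : Fin k → ℕ} (I : Finset ℕ) (hI : ∀ q ∈ I, PT b q) (N : ℕ) :
    |evCount (range N) (fun n => ∀ q ∈ I, ∃ i, q ∣ n + b i) -
      (N : ℝ) * ∏ q ∈ I, ((k : ℝ) / q)| ≤ 1 * ((k : ℝ) + 1) ^ I.card := by
  classical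
  have hpos : 0 < ∏ q ∈ I, q := Finset.prod_pos fun q' hq' => (hI q' hq').1.pos
  have hper : ∀ n, (∀ q ∈ I, ∃ i, q ∣ (n + ∏ q ∈ I, q) + b i) ↔
      (∀ q ∈ I, ∃ i, q ∣ n + b i) := by
    intro n
    apply forall₂_congr
    intro q' hq'
    apply exists_congr
    intro i
    have hdvd : q' ∣ ∏ q ∈ I, q := Finset.dvd_prod_of_mem _ hq'
    have h : (n + ∏ q ∈ I, q) + b i ≡ n + b i [MOD q'] := by
      apply Nat.ModEq.add_right
      have h1 : ∏ q ∈ I, q ≡ 0 [MOD q'] := (Nat.modEq_zero_iff_dvd).mpr hdvd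
      simpa using h1.add_left n
    exact ⟨fun h' => (Nat.ModEq.dvd_iff h dvd_rfl).mp h',
      fun h' => (Nat.ModEq.dvd_iff h dvd_rfl).mpr h'⟩
  have h1 := count_periodic_bound (p := fun n => ∀ q ∈ I, ∃ i, q ∣ n + b i) hpos hper N
  rw [Nat.count_eq_card_filter_range, Nat.count_eq_card_filter_range, card_occ_prod' I hI] at h1
  rw [evCount_eq, Finset.prod_div_distrib, Finset.prod_const]
  push_cast at h1
  refine h1.trans ?_
  rw [one_mul]
  exact pow_le_pow_left₀ (by (clear * -; positivity)) (by (clear * -; linarith)) _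

/-- sum of the reciprocals of the sieving primes -/
theorem sum_pU_ge (k : ℕ) : ∃ C : ℝ, 0 < C ∧ ∀ b : Fin k → ℕ, Function.Injective b →
    ∀ w : ℝ, 2 ≤ w →
      Real.log (Real.log w) - C - sigT b ≤ ∑ q ∈ pU (PT b) w, (1 : ℝ) / q := by
  classical
  obtain ⟨C, hC, hM⟩ := sum_primesUpTo_bounds
  refine ⟨C + ∑ q ∈ range (2 * k), (1 : ℝ) / q, ?_, ?_⟩
  · have : 0 ≤ ∑ q ∈ range (2 * k), (1 : ℝ) / q := Finset.sum_nonneg fun q _ => by positivity
    linarith
  intro b hb w hw
  have hw0 : 0 ≤ w := by (clear * - hw; linarith)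
  have h1 := (abs_le.mp (hM w hw)).1
  set Bad : Finset ℕ := (univ : Finset (Fin k × Fin k)).biUnion
    (fun p => (b p.1 - b p.2).primeFactors) with hBad
  have hsub : primesUpTo w ⊆ pU (PT b) w ∪ (range (2 * k) ∪ Bad) := by
    intro q hq
    rw [mem_primesUpTo hw0] at hq
    rw [Finset.mem_union, Finset.mem_union]
    by_cases h2 : 2 * k ≤ q
    · by_cases h3 : ∀ i j, i ≠ j → ¬ b i ≡ b j [MOD q]
      · left
        rw [mem_pU (fun q h => h.1) hw0]
        exact ⟨⟨hq.1, h2, h3⟩, hq.2⟩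
      · right; right
        push Not at h3
        obtain ⟨i, j, hij, hmod⟩ := h3
        rw [hBad, Finset.mem_biUnion]
        rcases lt_or_gt_of_ne (fun h => hij (hb h) : b i ≠ b j) with h4 | h4
        · refine ⟨(j, i), mem_univ _, ?_⟩
          simp only
          rw [Nat.mem_primeFactors]
          exact ⟨hq.1, (Nat.modEq_iff_dvd' h4.le).mp hmod, by omega⟩
        · refine ⟨(i, j), mem_univ _, ?_⟩
          simp only
          rw [Nat.mem_primeFactors]
          exact ⟨hq.1, (Nat.modEq_iff_dvd' h4.le).mp hmod.symm, by omega⟩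
    · right; left
      rw [Finset.mem_range]
      omega
  have h2 : ∑ q ∈ primesUpTo w, (1 : ℝ) / q ≤
      ∑ q ∈ pU (PT b) w, (1 : ℝ) / q + (∑ q ∈ range (2 * k), (1 : ℝ) / q + ∑ q ∈ Bad, (1 : ℝ) / q) := by
    calc ∑ q ∈ primesUpTo w, (1 : ℝ) / q ≤ ∑ q ∈ pU (PT b) w ∪ (range (2 * k) ∪ Bad), (1 : ℝ) / q :=
          Finset.sum_le_sum_of_subset_of_nonneg hsub (fun q _ _ => by (clear * -; positivity))
      _ ≤ _ := by
          have a1 := Finset.sum_union_inter (s₁ := pU (PT b) w) (s₂ := range (2 * k) ∪ Bad)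
            (f := fun q : ℕ => (1 : ℝ) / q)
          have a2 := Finset.sum_union_inter (s₁ := range (2 * k)) (s₂ := Bad)
            (f := fun q : ℕ => (1 : ℝ) / q)
          have a3 : 0 ≤ ∑ q ∈ pU (PT b) w ∩ (range (2 * k) ∪ Bad), (1 : ℝ) / q :=
            Finset.sum_nonneg fun q _ => by positivity
          have a4 : 0 ≤ ∑ q ∈ range (2 * k) ∩ Bad, (1 : ℝ) / q :=
            Finset.sum_nonneg fun q _ => by (clear * -; positivity)
          linarith
  have h3 : ∑ q ∈ Bad, (1 : ℝ) / q ≤ sigT b := by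
    have h4 : ∑ q ∈ Bad, (1 : ℝ) / q ≤ ∑ p : Fin k × Fin k, sig (b p.1 - b p.2) := by
      rw [hBad]
      exact sum_biUnion_le' (univ : Finset (Fin k × Fin k))
        (fun p => (b p.1 - b p.2).primeFactors) (fun q : ℕ => (1 : ℝ) / q)
        (fun q => by (clear * -; positivity))
    refine h4.trans ?_
    unfold sigT
    rw [Fintype.sum_prod_type]
  linarith

/-- The sieve product -/
theorem prod_pU_le (k : ℕ) : ∃ C : ℝ, 0 < C ∧ ∀ b : Fin k → ℕ, Function.Injective b →
    ∀ w : ℝ, 2 ≤ w →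
      ∏ q ∈ pU (PT b) w, (1 - (k : ℝ) / q) ≤ C * Real.exp (k * sigT b) / (Real.log w) ^ k := by
  obtain ⟨C, hC, hS⟩ := sum_pU_ge k
  refine ⟨Real.exp (k * C), Real.exp_pos _, ?_⟩
  intro b hb w hw
  have hw0 : 0 ≤ w := by linarith
  have hlw : 0 < Real.log w := Real.log_pos (by (clear * - hw; linarith))
  have h1 := hS b hb w hw
  calc ∏ q ∈ pU (PT b) w, (1 - (k : ℝ) / q) ≤ ∏ q ∈ pU (PT b) w, Real.exp (-((k : ℝ) * (1 / q))) := by
        apply Finset.prod_le_prod
        · intro q hq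
          rw [mem_pU (fun q h => h.1) hw0] at hq
          have hq0 : (0 : ℝ) < q := by exact_mod_cast hq.1.1.pos
          have h3 : (2 : ℝ) * k ≤ q := by exact_mod_cast hq.1.2.1
          rw [sub_nonneg, div_le_one hq0]
          have : (0 : ℝ) ≤ k := Nat.cast_nonneg k
          (clear * - hq0 h3; linarith)
        · intro q _
          have := Real.add_one_le_exp (-((k : ℝ) * (1 / q)))
          rw [mul_one_div] at this ⊢
          (clear * - this; linarith)
    _ = Real.exp (-(k * ∑ q ∈ pU (PT b) w, (1 : ℝ) / q)) := by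
        rw [← Real.exp_sum, Finset.sum_neg_distrib, Finset.mul_sum]
    _ ≤ Real.exp (-(k * (Real.log (Real.log w) - C - sigT b))) := by
        apply Real.exp_le_exp.mpr
        have : (0 : ℝ) ≤ k := Nat.cast_nonneg k
        have := mul_le_mul_of_nonneg_left h1 this
        linarith
    _ = Real.exp (k * C) * Real.exp (k * sigT b) / (Real.log w) ^ k := by
        have h5 : (Real.log w) ^ k = Real.exp (k * Real.log (Real.log w)) := by
          rw [Real.exp_nat_mul, Real.exp_log hlw]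
        rw [h5, ← Real.exp_add, ← Real.exp_sub]
        congr 1
        ring

/-- **Upper bound sieve for prime tuples**, uniform in the shifts. -/
theorem tuple_sieve (k : ℕ) (hk : 0 < k) : ∃ C : ℝ, 0 < C ∧ ∀ b : Fin k → ℕ, Function.Injective b →
    ∀ N : ℕ, 2 ≤ N →
      (((range N).filter (fun m => ∀ i, (m + b i).Prime)).card : ℝ) ≤
        C * Real.exp (k * sigT b) * N / (Real.log N) ^ k := by
  classical
  obtain ⟨K, c, hK, -, hsieve⟩ := sieveK k
  obtain ⟨C1, hC1, hprod⟩ := prod_pU_le k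
  have hk' : (0 : ℝ) < k := by exact_mod_cast hk
  have h2K : (0 : ℝ) < 2 * K := by linarith
  set C : ℝ := (2 * K) ^ k * 2 ^ k + 3 * (2 * k) ^ k + 2 * C1 * (2 * K) ^ k with hC
  refine ⟨C, by (clear * - hK hk hC1; positivity), ?_⟩
  intro b hb N hN
  have hN0 : (0 : ℝ) < N := by positivity
  have hN1 : (1 : ℝ) < N := by exact_mod_cast (by omega : 1 < N)
  have hlN : 0 < Real.log N := Real.log_pos hN1
  have hE : 1 ≤ Real.exp (k * sigT b) := Real.one_le_exp (by have := sigT_nonneg b; (clear * - hk this; positivity))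
  have hcardN : (((range N).filter (fun m => ∀ i, (m + b i).Prime)).card : ℝ) ≤ N := by
    have := Finset.card_filter_le (range N) (fun m => ∀ i, (m + b i).Prime)
    rw [card_range] at this
    exact_mod_cast this
  set w : ℝ := (N : ℝ) ^ (1 / (2 * K)) with hw
  have hlogw : Real.log w = Real.log N / (2 * K) := by
    rw [hw, Real.log_rpow hN0]; ring
  by_cases hw2 : w < 2
  · -- small `N`
    have h1 : Real.log N ≤ 2 * K * 2 := by
      have h2 : Real.log w ≤ Real.log 2 := Real.log_le_log (by positivity) hw2.le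
      have h3 : Real.log 2 ≤ 2 := by have := Real.log_two_lt_d9; (clear * - this; linarith)
      rw [hlogw, div_le_iff₀ h2K] at h2
      (clear * - h2 h3 hK; nlinarith)
    have h2 : (Real.log N) ^ k ≤ (2 * K) ^ k * 2 ^ k := by
      rw [← mul_pow]
      exact pow_le_pow_left₀ hlN.le h1 k
    rw [le_div_iff₀ (by positivity)]
    calc (((range N).filter (fun m => ∀ i, (m + b i).Prime)).card : ℝ) * (Real.log N) ^ k
        ≤ N * ((2 * K) ^ k * 2 ^ k) := by gcongr
      _ ≤ N * (C * Real.exp (k * sigT b)) := by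
          apply mul_le_mul_of_nonneg_left _ hN0.le
          have h3 : (2 * K) ^ k * 2 ^ k ≤ C := by
            rw [hC]
            have : 0 ≤ 3 * (2 * (k : ℝ)) ^ k := by positivity
            have : 0 ≤ 2 * C1 * (2 * K) ^ k := by positivity
            linarith
          have h4 : 0 ≤ C := by rw [hC]; positivity
          (clear * - h3 hE h4; nlinarith)
      _ = C * Real.exp (k * sigT b) * N := by ring
  · push Not at hw2
    have hw0 : (0 : ℝ) < w := by (clear * - hw2; linarith)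
    have hs := (hsieve ℕ (PT b) (fun q h => ⟨h.1, h.2.1⟩) (fun _ => k)
      (fun q _ => ⟨Nat.cast_nonneg k, le_refl _⟩) w hw2 (range N)
      (fun q m => ∃ i, q ∣ m + b i) N 1 hN0.le zero_le_one
      (fun I hI => count_bound' I (fun q hq => (hI q hq).1) N)).1
    have hsub : (range N).filter (fun m => ∀ i, (m + b i).Prime) ⊆
        (range (⌊w⌋₊ + 1)) ∪
        (range N).filter (fun m => ∀ q : ℕ, PT b q → (q : ℝ) ≤ w → ¬ ∃ i, q ∣ m + b i) := by
      intro m hm
      rw [Finset.mem_filter] at hm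
      rw [Finset.mem_union, Finset.mem_filter, Finset.mem_range]
      by_cases hmw : (m : ℝ) ≤ w
      · left
        have := Nat.le_floor hmw
        omega
      · right
        push Not at hmw
        refine ⟨hm.1, ?_⟩
        rintro q hq hqw ⟨i, hi⟩
        have h1 := (Nat.prime_dvd_prime_iff_eq hq.1 (hm.2 i)).mp hi
        have h2 : (m : ℝ) ≤ q := by
          rw [h1]
          exact_mod_cast Nat.le_add_right _ _
        (clear * - hmw hqw h2; linarith)
    have hcard := Finset.card_le_card hsub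
    have hcard2 := hcard.trans (Finset.card_union_le _ _)
    rw [card_range] at hcard2
    rw [evCount_eq] at hs
    have hwK : w ^ K = Real.sqrt N := by
      rw [hw, ← Real.rpow_mul hN0.le, Real.sqrt_eq_rpow]
      congr 1
      field_simp
    have hww : w ≤ Real.sqrt N := by
      rw [← hwK]
      exact Real.self_le_rpow_of_one_le (by (clear * - hw2; linarith)) hK
    have hfl : (⌊w⌋₊ : ℝ) ≤ w := Nat.floor_le hw0.le
    have hsq : Real.sqrt N ≤ (2 * k) ^ k * N / (Real.log N) ^ k := by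
      rw [le_div_iff₀ (by positivity)]
      have h1 : Real.log N ≤ (N : ℝ) ^ (1 / (2 * (k : ℝ))) / (1 / (2 * k)) :=
        Real.log_le_rpow_div hN0.le (by positivity)
      have h2 : (Real.log N) ^ k ≤ (2 * k) ^ k * Real.sqrt N := by
        calc (Real.log N) ^ k ≤ ((N : ℝ) ^ (1 / (2 * (k : ℝ))) / (1 / (2 * k))) ^ k :=
              pow_le_pow_left₀ hlN.le h1 k
          _ = (2 * k) ^ k * Real.sqrt N := by
              rw [div_div_eq_mul_div, div_one, mul_pow, ← Real.rpow_natCast ((N : ℝ) ^ _),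
                ← Real.rpow_mul hN0.le, Real.sqrt_eq_rpow, mul_comm]
              congr 2
              field_simp
      calc Real.sqrt N * (Real.log N) ^ k ≤ Real.sqrt N * ((2 * k) ^ k * Real.sqrt N) :=
            mul_le_mul_of_nonneg_left h2 (Real.sqrt_nonneg _)
        _ = (2 * k) ^ k * (Real.sqrt N * Real.sqrt N) := by ring
        _ = (2 * k) ^ k * N := by rw [Real.mul_self_sqrt hN0.le]
    have hpr := hprod b hb w hw2
    have hc3 : (((range N).filter (fun m => ∀ i, (m + b i).Prime)).card : ℝ) ≤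
        (⌊w⌋₊ : ℝ) + 1 + (2 * N * (∏ q ∈ pU (PT b) w, (1 - (k : ℝ) / q)) + 1 * w ^ K) := by
      have : (((range N).filter (fun m => ∀ i, (m + b i).Prime)).card : ℝ) ≤
        ((⌊w⌋₊ + 1 + ((range N).filter (fun m => ∀ q : ℕ, PT b q → (q : ℝ) ≤ w →
          ¬ ∃ i, q ∣ m + b i)).card : ℕ) : ℝ) := by exact_mod_cast hcard2
      push_cast at this
      (clear * - hs this; linarith)
    have hmain : 2 * N * (∏ q ∈ pU (PT b) w, (1 - (k : ℝ) / q)) ≤
        2 * C1 * (2 * K) ^ k * Real.exp (k * sigT b) * N / (Real.log N) ^ k := by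
      calc 2 * N * (∏ q ∈ pU (PT b) w, (1 - (k : ℝ) / q))
          ≤ 2 * N * (C1 * Real.exp (k * sigT b) / (Real.log w) ^ k) :=
            mul_le_mul_of_nonneg_left hpr (by positivity)
        _ = 2 * C1 * (2 * K) ^ k * Real.exp (k * sigT b) * N / (Real.log N) ^ k := by
            rw [hlogw, div_pow]
            field_simp
    have h1w : 1 ≤ w := by (clear * - hw2; linarith)
    have hEsq : 3 * ((2 * k) ^ k * N / (Real.log N) ^ k) ≤
        3 * (2 * k) ^ k * Real.exp (k * sigT b) * N / (Real.log N) ^ k := by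
      have h1 : 3 * ((2 * (k : ℝ)) ^ k * N / (Real.log N) ^ k) =
        (3 * (2 * k) ^ k * N / (Real.log N) ^ k) * 1 := by ring
      rw [h1]
      calc (3 * (2 * (k : ℝ)) ^ k * N / (Real.log N) ^ k) * 1
          ≤ (3 * (2 * (k : ℝ)) ^ k * N / (Real.log N) ^ k) * Real.exp (k * sigT b) :=
            mul_le_mul_of_nonneg_left hE (by positivity)
        _ = _ := by ring
    calc (((range N).filter (fun m => ∀ i, (m + b i).Prime)).card : ℝ)
        ≤ 3 * Real.sqrt N + 2 * N * (∏ q ∈ pU (PT b) w, (1 - (k : ℝ) / q)) := by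
          rw [hwK] at hc3
          (clear * - hw2 hww hfl hc3; linarith)
      _ ≤ 3 * (2 * k) ^ k * Real.exp (k * sigT b) * N / (Real.log N) ^ k +
          2 * C1 * (2 * K) ^ k * Real.exp (k * sigT b) * N / (Real.log N) ^ k := by
          (clear * - hsq hmain hEsq; linarith)
      _ ≤ C * Real.exp (k * sigT b) * N / (Real.log N) ^ k := by
          have h3 : 0 ≤ (2 * K) ^ k * 2 ^ k * Real.exp (k * sigT b) * N / (Real.log N) ^ k := by
            positivity
          have h4 : C * Real.exp (k * sigT b) * N / (Real.log N) ^ k =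
            (2 * K) ^ k * 2 ^ k * Real.exp (k * sigT b) * N / (Real.log N) ^ k +
            3 * (2 * k) ^ k * Real.exp (k * sigT b) * N / (Real.log N) ^ k +
            2 * C1 * (2 * K) ^ k * Real.exp (k * sigT b) * N / (Real.log N) ^ k := by
            rw [hC]; ring
          rw [h4]
          (clear * - h3; linarith)

end Pool.Agent.M17.Helper79.RG
end

/- Helper53.KN.Helper79.RG.Window -/
section
/-!
# Windows: variance, transfer between scales, Brun-Titchmarsh, close pairs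
-/

set_option autoImplicit false

open Finset Filter Topology

namespace Pool.Agent.M17.Helper79.RG

/-- the number of primes `p < x` with `y - h < p ≤ y` -/
noncomputable def cw (x h y : ℕ) : ℝ := ∑ p ∈ PR x, win h p y

theorem cw_eq (x h y : ℕ) :
    cw x h y = (((PR x).filter (fun p => p ≤ y ∧ y < p + h)).card : ℝ) := by
  unfold cw win
  rw [Finset.sum_boole]

/-! ### mean deviation and the transfer -/

/-! ### Brun-Titchmarsh -/

theorem cw_le : ∃ B : ℝ, 0 < B ∧ ∀ x h y : ℕ, 2 ≤ h → cw x h y ≤ B * h / Real.log h := by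
  obtain ⟨C, hC, H⟩ := tuple_sieve 1 one_pos
  refine ⟨C, hC, ?_⟩
  intro x h y hh
  have h1 := H (fun _ => y + 1 - h) (Function.injective_of_subsingleton _) h hh
  have h2 : sigT (fun _ : Fin 1 => y + 1 - h) = 0 := by simp [sigT]
  rw [h2, mul_zero, Real.exp_zero, mul_one, pow_one] at h1
  refine le_trans ?_ h1
  rw [cw_eq]
  norm_cast
  apply Finset.card_le_card_of_injOn (fun p => p - (y + 1 - h))
  · intro p hp
    rw [Finset.mem_coe, Finset.mem_filter, mem_PR] at hp
    rw [Finset.mem_coe, Finset.mem_filter, Finset.mem_range]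
    simp only
    refine ⟨by omega, ?_⟩
    intro _
    have : p - (y + 1 - h) + (y + 1 - h) = p := by omega
    rw [this]
    exact hp.1.2
  · intro p hp q hq hpq
    rw [Finset.mem_coe, Finset.mem_filter, mem_PR] at hp hq
    simp only at hpq
    omega

/-! ### close pairs -/

end Pool.Agent.M17.Helper79.RG
end

/- Helper53.KN.Helper15.KS.Ord -/
section
/-!
# Project KS, closure lemma, ordinary part (MP_768c9c_nt)

A completely multiplicative majorant with `F p ≤ C₀ p^(s-1) / (log p)^A` at the primes `p ≥ P₀`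
and `F p = 0` for `p < P₀` is small on the composite numbers of every interval `[y, y+h)`,
`h ≥ y^(1/3)`.
-/

set_option autoImplicit false

open Finset Filter Topology

namespace Pool.Agent.M17.Helper15.KS

/-- A completely multiplicative nonnegative function supported on products of primes `≥ P0`, at
most `C0 p^(s-1) / (log p)^A` at the prime `p`. -/
structure OrdMaj (C0 s : ℝ) (A : ℕ) (P0 : ℕ) (F : ℕ → ℝ) : Prop where
  one : F 1 = 1
  mul : ∀ a b : ℕ, 0 < a → 0 < b → F (a * b) = F a * F b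
  nonneg : ∀ n : ℕ, 0 ≤ F n
  small : ∀ p : ℕ, p.Prime → p < P0 → F p = 0
  le : ∀ p : ℕ, p.Prime → F p ≤ C0 * (p : ℝ) ^ (s - 1) / (Real.log p) ^ A

variable {C0 s : ℝ} {A P0 : ℕ} {F : ℕ → ℝ}

/-- Brun-Titchmarsh -/
theorem bt : ∃ B : ℝ, 0 < B ∧ ∀ x M : ℕ, 2 ≤ M →
    (((Finset.Ico x (x + M)).filter Nat.Prime).card : ℝ) ≤ B * M / Real.log M := by
  obtain ⟨B, hB, H⟩ := Pool.Agent.M17.Helper79.RG.cw_le
  refine ⟨B, hB, fun x M hM => ?_⟩
  have h1 := H (x + M) M (x + M - 1) hM
  rw [Pool.Agent.M17.Helper79.RG.cw_eq] at h1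
  refine le_trans ?_ h1
  norm_cast
  apply Finset.card_le_card
  intro p hp
  rw [Finset.mem_filter, Finset.mem_Ico] at hp
  rw [Finset.mem_filter, Pool.Agent.M17.Helper79.RG.mem_PR]
  refine ⟨⟨hp.1.2, hp.2⟩, ?_, ?_⟩
  · omega
  · omega

/-- a dichotomy: balanced divisor, or a large prime factor -/
theorem dichotomy {n z : ℕ} (hz : 2 ≤ z) (hn : z ^ 3 ≤ n) :
    (∃ u, u ∣ n ∧ z ≤ u ∧ z ≤ n / u) ∨ (∃ p e, p.Prime ∧ n = p * e ∧ e < z) := by
  classical
  have hn0 : 0 < n := lt_of_lt_of_le (by positivity) hn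
  set S := n.divisors.filter (fun u => z ≤ n / u) with hS
  have h1S : 1 ∈ S := by
    rw [hS, Finset.mem_filter, Nat.mem_divisors]
    refine ⟨⟨one_dvd _, hn0.ne'⟩, ?_⟩
    rw [Nat.div_one]
    refine le_trans ?_ hn
    calc z = z ^ 1 := (pow_one z).symm
      _ ≤ z ^ 3 := Nat.pow_le_pow_right (by omega) (by norm_num)
  have hne : S.Nonempty := ⟨1, h1S⟩
  set u := S.max' hne with hu
  have huS : u ∈ S := S.max'_mem hne
  rw [hS, Finset.mem_filter, Nat.mem_divisors] at huS
  obtain ⟨⟨hud, -⟩, huz⟩ := huS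
  by_cases hzu : z ≤ u
  · exact Or.inl ⟨u, hud, hzu, huz⟩
  · right
    rw [not_le] at hzu
    obtain ⟨v, hv⟩ := hud
    have hu0 : 0 < u := Nat.pos_of_ne_zero (by rintro h; rw [h, zero_mul] at hv; omega)
    have hdiv : n / u = v := by rw [hv]; exact Nat.mul_div_cancel_left v hu0
    rw [hdiv] at huz
    have hv1 : v ≠ 1 := by omega
    obtain ⟨p, hp, hpv⟩ := Nat.exists_prime_and_dvd hv1
    obtain ⟨w, hw⟩ := hpv
    have hw0 : 0 < w := Nat.pos_of_ne_zero (by rintro h; rw [h, mul_zero] at hw; omega)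
    -- `u p` is a larger divisor
    have hup : n = (u * p) * w := by rw [hv, hw]; ring
    have hwz : w < z := by
      by_contra hcon
      rw [not_lt] at hcon
      have hmem : u * p ∈ S := by
        rw [hS, Finset.mem_filter, Nat.mem_divisors]
        refine ⟨⟨⟨w, hup⟩, hn0.ne'⟩, ?_⟩
        rw [hup, Nat.mul_div_cancel_left w (Nat.mul_pos hu0 hp.pos)]
        exact hcon
      have := S.le_max' _ hmem
      rw [← hu] at this
      have h2 : u * 2 ≤ u * p := Nat.mul_le_mul_left _ hp.two_le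
      omega
    have hpz : z ≤ p := by
      by_contra hcon
      rw [not_le] at hcon
      have h2 : n < z ^ 3 := by
        calc n = u * p * w := hup
          _ < z * z * z := by
            apply Nat.mul_lt_mul_of_lt_of_le (Nat.mul_lt_mul'' hzu hcon) hwz.le (by omega)
          _ = z ^ 3 := by ring
      omega
    refine ⟨p, u * w, hp, by rw [hup]; ring, ?_⟩
    by_contra hcon
    rw [not_lt] at hcon
    have hmem : u * w ∈ S := by
      rw [hS, Finset.mem_filter, Nat.mem_divisors]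
      refine ⟨⟨⟨p, by rw [hup]; ring⟩, hn0.ne'⟩, ?_⟩
      have : n = u * w * p := by rw [hup]; ring
      rw [this, Nat.mul_div_cancel_left p (Nat.mul_pos hu0 hw0)]
      exact hpz
    have := S.le_max' _ hmem
    rw [← hu] at this
    omega

namespace OrdMaj

theorem zero_of_lt (h : OrdMaj C0 s A P0 F) {n : ℕ} (hn : 2 ≤ n) (hlt : n < P0) : F n = 0 := by
  obtain ⟨p, hp, hpn⟩ := Nat.exists_prime_and_dvd (show n ≠ 1 by omega)
  have hple : p ≤ n := Nat.le_of_dvd (by omega) hpn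
  obtain ⟨m, hm⟩ := hpn
  have hm0 : 0 < m := Nat.pos_of_ne_zero (by rintro h; rw [h, mul_zero] at hm; omega)
  rw [hm, h.mul p m hp.pos hm0, h.small p hp (by omega), zero_mul]

theorem pointwise (h : OrdMaj C0 s A P0 F) (hC : 0 ≤ C0) (hP : 3 ≤ P0)
    (hlog : C0 ≤ (Real.log P0 / 2) ^ A) :
    ∀ n : ℕ, 2 ≤ n → F n ≤ C0 * (n : ℝ) ^ (s - 1) / (Real.log n) ^ A := by
  intro n
  induction n using Nat.strong_induction_on with
  | _ n ih =>
    intro hn
    have hlogn : 0 < Real.log n := Real.log_pos (by exact_mod_cast (by omega : 1 < n))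
    have hRHS : 0 ≤ C0 * (n : ℝ) ^ (s - 1) / (Real.log n) ^ A := by (clear * - hC hn hlogn; positivity)
    by_cases hp : n.Prime
    · exact h.le n hp
    · obtain ⟨p, hpp, hpn⟩ := Nat.exists_prime_and_dvd (show n ≠ 1 by omega)
      obtain ⟨m, hm⟩ := hpn
      have hm0 : 0 < m := Nat.pos_of_ne_zero (by rintro h; rw [h, mul_zero] at hm; omega)
      have hm1 : m ≠ 1 := by
        rintro rfl
        rw [mul_one] at hm
        exact hp (hm ▸ hpp)
      have hm2 : 2 ≤ m := by omega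
      have hmn : m < n := by
        rw [hm]
        calc m = 1 * m := (one_mul m).symm
          _ < p * m := Nat.mul_lt_mul_of_pos_right hpp.one_lt hm0
      have hF : F n = F p * F m := by rw [hm, h.mul p m hpp.pos hm0]
      by_cases hpP : p < P0
      · rw [hF, h.small p hpp hpP, zero_mul]
        exact hRHS
      by_cases hmP : m < P0
      · rw [hF, h.zero_of_lt hm2 hmP, mul_zero]
        exact hRHS
      rw [not_lt] at hpP hmP
      have hP0 : (0 : ℝ) < P0 := by exact_mod_cast (by omega : 0 < P0)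
      have hL : 0 < Real.log P0 := Real.log_pos (by exact_mod_cast (by omega : 1 < P0))
      have ha : Real.log P0 ≤ Real.log p := Real.log_le_log hP0 (by exact_mod_cast hpP)
      have hb : Real.log P0 ≤ Real.log m := Real.log_le_log hP0 (by exact_mod_cast hmP)
      have hp0 : (0 : ℝ) < p := by exact_mod_cast hpp.pos
      have hm0' : (0 : ℝ) < m := by exact_mod_cast hm0
      have hn' : (n : ℝ) = p * m := by rw [hm]; push_cast; ring
      have hlogsum : Real.log n = Real.log p + Real.log m := by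
        rw [hn', Real.log_mul hp0.ne' hm0'.ne']
      have h1 := h.le p hpp
      have h2 := ih m hmn hm2
      have h3 : F n ≤ (C0 * (p : ℝ) ^ (s - 1) / (Real.log p) ^ A) *
          (C0 * (m : ℝ) ^ (s - 1) / (Real.log m) ^ A) := by
        rw [hF]
        exact mul_le_mul h1 h2 (h.nonneg m) (le_trans (h.nonneg p) h1)
      refine le_trans h3 ?_
      have h4 : (n : ℝ) ^ (s - 1) = (p : ℝ) ^ (s - 1) * (m : ℝ) ^ (s - 1) := by
        rw [hn', Real.mul_rpow hp0.le hm0'.le]
      have h5 : (C0 * (p : ℝ) ^ (s - 1) / (Real.log p) ^ A) *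
          (C0 * (m : ℝ) ^ (s - 1) / (Real.log m) ^ A)
          = C0 * (n : ℝ) ^ (s - 1) * (C0 / (Real.log p * Real.log m) ^ A) := by
        rw [h4, mul_pow]
        have e1 : (Real.log p) ^ A ≠ 0 := (pow_pos (lt_of_lt_of_le hL ha) A).ne'
        have e2 : (Real.log m) ^ A ≠ 0 := (pow_pos (lt_of_lt_of_le hL hb) A).ne'
        (clear * - e2 hm0 e1 hp0; field_simp)
      rw [h5, mul_div_assoc]
      have e3 : 0 < (n : ℝ) ^ (s - 1) := Real.rpow_pos_of_pos (by exact_mod_cast (by omega : 0 < n)) _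
      rw [mul_assoc]
      refine mul_le_mul_of_nonneg_left ?_ hC
      rw [div_eq_mul_inv ((n : ℝ) ^ (s - 1)), ]
      refine mul_le_mul_of_nonneg_left ?_ e3.le
      rw [div_le_iff₀ (pow_pos (mul_pos (lt_of_lt_of_le hL ha) (lt_of_lt_of_le hL hb)) A),
        inv_mul_eq_div, le_div_iff₀ (pow_pos hlogn A)]
      calc C0 * (Real.log n) ^ A ≤ (Real.log P0 / 2) ^ A * (Real.log n) ^ A :=
            mul_le_mul_of_nonneg_right hlog (by positivity)
        _ = (Real.log P0 / 2 * Real.log n) ^ A := (mul_pow _ _ _).symm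
        _ ≤ (Real.log p * Real.log m) ^ A := by
            apply pow_le_pow_left₀ (by positivity)
            rw [hlogsum]
            (clear * - hb hL ha; nlinarith [mul_le_mul_of_nonneg_left hb (le_trans hL.le ha),
              mul_le_mul_of_nonneg_right ha (le_trans hL.le hb)])

end OrdMaj

theorem tail_sum {M : ℕ} (hM : 3 ≤ M) (N : ℕ) :
    ∑ e ∈ Finset.Ico M (M + N), 1 / ((e : ℝ) * (Real.log e) ^ 2) ≤
      1 / Real.log ((M : ℝ) - 1) - 1 / Real.log ((M : ℝ) + N - 1) := by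
  induction N with
  | zero => simp
  | succ N ih =>
    rw [← add_assoc, Finset.sum_Ico_succ_top (by omega)]
    have hM' : (3 : ℝ) ≤ M := by exact_mod_cast hM
    have hN0 : (0 : ℝ) ≤ N := Nat.cast_nonneg N
    set a : ℝ := (M : ℝ) + N with ha
    have hcast : ((M + N : ℕ) : ℝ) = a := by push_cast; rfl
    have ha3 : 3 ≤ a := by linarith
    have h1 : 0 < Real.log (a - 1) := Real.log_pos (by linarith)
    have h2 : 0 < Real.log a := Real.log_pos (by linarith)
    have h3 : Real.log (a - 1) ≤ Real.log a := Real.log_le_log (by linarith) (by (clear * -; linarith))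
    have h4 : 1 / a ≤ Real.log a - Real.log (a - 1) := by
      have h5 := Real.log_le_sub_one_of_pos (show 0 < (a - 1) / a by
        apply div_pos <;> linarith)
      rw [Real.log_div (by linarith) (by linarith)] at h5
      have h6 : (a - 1) / a - 1 = - (1 / a) := by field_simp; ring
      rw [h6] at h5
      (clear * - h5; linarith)
    have h7 : 1 / (a * (Real.log a) ^ 2) ≤ 1 / Real.log (a - 1) - 1 / Real.log a := by
      rw [div_sub_div _ _ h1.ne' h2.ne', div_le_div_iff₀ (by (clear * - hM h2; positivity)) (by positivity)]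
      have h8 : 1 ≤ a * (Real.log a - Real.log (a - 1)) := by
        rw [div_le_iff₀ (by linarith)] at h4
        (clear * - h4; linarith)
      (clear * - h8 h2 h3; nlinarith [mul_le_mul_of_nonneg_right h8 (mul_pos h2 h2).le,
        mul_le_mul_of_nonneg_right h3 h2.le])
    rw [hcast]
    have h9 : (M : ℝ) + ((N + 1 : ℕ) : ℝ) - 1 = a := by push_cast; ring
    rw [h9]
    have h10 : (M : ℝ) + N - 1 = a - 1 := rfl
    rw [h10] at ih
    (clear * - ih h7; linarith)

theorem tail_sum_le {M : ℕ} (hM : 3 ≤ M) (T : Finset ℕ) (hT : ∀ e ∈ T, M ≤ e) :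
    ∑ e ∈ T, 1 / ((e : ℝ) * (Real.log e) ^ 2) ≤ 1 / Real.log ((M : ℝ) - 1) := by
  have hM' : (3 : ℝ) ≤ M := by exact_mod_cast hM
  set N := T.sup id + 1 with hN
  have hsub : T ⊆ Finset.Ico M (M + N) := by
    intro e he
    rw [Finset.mem_Ico]
    have : e ≤ T.sup id := Finset.le_sup (f := id) he
    exact ⟨hT e he, by omega⟩
  refine le_trans (Finset.sum_le_sum_of_subset_of_nonneg hsub fun e _ _ => by (clear * -; positivity)) ?_
  refine le_trans (tail_sum hM N) ?_
  have : 0 ≤ 1 / Real.log ((M : ℝ) + N - 1) := by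
    apply div_nonneg zero_le_one
    apply Real.log_nonneg
    have : (0 : ℝ) ≤ N := Nat.cast_nonneg N
    (clear * - hM'; linarith)
  (clear * - this; linarith)

/-- Prime factor part: the primes `p` with `y ≤ p e < y + h`. -/
theorem prime_part {B : ℝ} (hB : 0 < B)
    (hbt : ∀ x M : ℕ, 2 ≤ M →
      (((Finset.Ico x (x + M)).filter Nat.Prime).card : ℝ) ≤ B * M / Real.log M)
    (h : OrdMaj C0 s A P0 F) (hC : 0 ≤ C0) (hs1 : s ≤ 1)
    {y H e : ℕ} (he : 1 ≤ e) (hy : 2 ≤ y) (hHe : (y : ℝ) ^ (1 / 5 : ℝ) ≤ (H : ℝ) / e)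
    (hye : (y : ℝ) ^ (1 / 2 : ℝ) ≤ (y : ℝ) / e) (T : Finset ℕ)
    (hT : ∀ p ∈ T, p.Prime ∧ y ≤ p * e ∧ p * e < y + H) :
    ∑ p ∈ T, F p ≤ 15 * B * C0 * 2 ^ A * ((H : ℝ) * (y : ℝ) ^ (s - 1)
      / (Real.log y) ^ (A + 1)) * (e : ℝ) ^ (-s) := by
  have hy0 : (0 : ℝ) < y := by positivity
  have hy1 : (1 : ℝ) < y := by exact_mod_cast (by omega : 1 < y)
  have he0 : (0 : ℝ) < e := by exact_mod_cast (by omega : 0 < e)
  have hly : 0 < Real.log y := Real.log_pos hy1
  have h1le : (1 : ℝ) ≤ (H : ℝ) / e :=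
    le_trans (Real.one_le_rpow hy1.le (by norm_num)) hHe
  -- the interval
  set x : ℕ := (y + e - 1) / e with hx
  set M : ℕ := H / e + 2 with hM
  have hM2 : 2 ≤ M := by rw [hM]; exact Nat.le_add_left 2 _
  have hsub : T ⊆ (Finset.Ico x (x + M)).filter Nat.Prime := by
    intro p hp
    obtain ⟨h1, h2, h3⟩ := hT p hp
    rw [Finset.mem_filter, Finset.mem_Ico]
    refine ⟨⟨?_, ?_⟩, h1⟩
    · rw [hx]
      have h4 : (y + e - 1) / e < p + 1 := by
        rw [Nat.div_lt_iff_lt_mul (by omega), add_mul, one_mul]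
        omega
      omega
    · by_contra hcon
      rw [not_lt] at hcon
      have h5 : y ≤ x * e := by
        have h6 := Nat.lt_div_mul_add (a := y + e - 1) (b := e) (by omega)
        rw [← hx] at h6
        omega
      have h7 : H < (H / e + 1) * e := by
        have h8 := Nat.lt_div_mul_add (a := H) (b := e) (by omega)
        rw [add_mul, one_mul]
        exact h8
      have h9 : (x + (H / e + 1)) * e ≤ p * e := Nat.mul_le_mul_right e (by omega)
      rw [add_mul] at h9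
      omega
  have hcard : (T.card : ℝ) ≤ B * M / Real.log M :=
    le_trans (by exact_mod_cast Finset.card_le_card hsub) (hbt x M hM2)
  have hMle : (M : ℝ) ≤ 3 * ((H : ℝ) / e) := by
    have h5 : ((H / e : ℕ) : ℝ) ≤ (H : ℝ) / e := Nat.cast_div_le
    rw [hM]
    push_cast
    (clear * - h1le h5; linarith)
  have hMge : (H : ℝ) / e ≤ M := by
    have h5 : (H : ℝ) / e < (H / e : ℕ) + 1 := by
      rw [div_lt_iff₀ he0]
      have h8 := Nat.lt_div_mul_add (a := H) (b := e) (by omega)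
      have h7 : H < (H / e + 1) * e := by
        rw [add_mul, one_mul]
        exact h8
      exact_mod_cast h7
    rw [hM]
    push_cast
    (clear * - h5; linarith)
  have hlogM : Real.log y / 5 ≤ Real.log M := by
    have h6 : Real.log ((y : ℝ) ^ (1 / 5 : ℝ)) ≤ Real.log M :=
      Real.log_le_log (Real.rpow_pos_of_pos hy0 _) (le_trans hHe hMge)
    rw [Real.log_rpow hy0] at h6
    (clear * - h6; linarith)
  have hcard2 : (T.card : ℝ) ≤ 15 * B * ((H : ℝ) / e) / Real.log y := by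
    refine le_trans hcard ?_
    rw [div_le_div_iff₀ (by (clear * - hly hlogM; linarith)) hly]
    have h7 : B * M * Real.log y ≤ B * (3 * ((H : ℝ) / e)) * (5 * Real.log M) := by
      apply mul_le_mul (mul_le_mul_of_nonneg_left hMle hB.le) (by (clear * - hlogM; linarith)) hly.le
      (clear * - hB h1le; positivity)
    (clear * - h7; linarith)
  -- the values
  have hval : ∀ p ∈ T, F p ≤ C0 * 2 ^ A * (((y : ℝ) / e) ^ (s - 1) / (Real.log y) ^ A) := by
    intro p hp
    obtain ⟨h1, h2, h3⟩ := hT p hp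
    have hp1 : (y : ℝ) / e ≤ p := by
      rw [div_le_iff₀ he0]
      exact_mod_cast h2
    have hye0 : 0 < (y : ℝ) / e := by (clear * - hy he; positivity)
    have hlogp : Real.log y / 2 ≤ Real.log p := by
      have h6 : Real.log ((y : ℝ) ^ (1 / 2 : ℝ)) ≤ Real.log p :=
        Real.log_le_log (Real.rpow_pos_of_pos hy0 _) (le_trans hye hp1)
      rw [Real.log_rpow hy0] at h6
      (clear * - h6; linarith)
    have h8 : (p : ℝ) ^ (s - 1) ≤ ((y : ℝ) / e) ^ (s - 1) :=
      Real.rpow_le_rpow_of_nonpos hye0 hp1 (by (clear * - hs1; linarith))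
    refine le_trans (h.le p h1) ?_
    rw [mul_div_assoc, mul_assoc]
    refine mul_le_mul_of_nonneg_left ?_ hC
    have h9 : (Real.log y) ^ A ≤ 2 ^ A * (Real.log p) ^ A := by
      rw [← mul_pow]
      exact pow_le_pow_left₀ hly.le (by (clear * - hlogp; linarith)) A
    have h10 : 0 < Real.log p := by (clear * - hly hlogp; linarith)
    rw [← mul_div_assoc, div_le_div_iff₀ (by positivity) (by positivity)]
    calc (p : ℝ) ^ (s - 1) * (Real.log y) ^ A
        ≤ ((y : ℝ) / e) ^ (s - 1) * (2 ^ A * (Real.log p) ^ A) :=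
          mul_le_mul h8 h9 (by positivity) (by positivity)
      _ = 2 ^ A * ((y : ℝ) / e) ^ (s - 1) * (Real.log p) ^ A := by ring
  calc ∑ p ∈ T, F p ≤ ∑ p ∈ T, C0 * 2 ^ A * (((y : ℝ) / e) ^ (s - 1) / (Real.log y) ^ A) :=
        Finset.sum_le_sum hval
    _ = T.card * (C0 * 2 ^ A * (((y : ℝ) / e) ^ (s - 1) / (Real.log y) ^ A)) := by
        rw [Finset.sum_const, nsmul_eq_mul]
    _ ≤ (15 * B * ((H : ℝ) / e) / Real.log y) *
        (C0 * 2 ^ A * (((y : ℝ) / e) ^ (s - 1) / (Real.log y) ^ A)) :=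
        mul_le_mul_of_nonneg_right hcard2 (by (clear * - hC hy he hly; positivity))
    _ = _ := by
        have h11 : ((y : ℝ) / e) ^ (s - 1) = (y : ℝ) ^ (s - 1) * ((e : ℝ) * (e : ℝ) ^ (-s)) := by
          rw [Real.div_rpow hy0.le he0.le, div_eq_mul_inv, ← Real.rpow_neg he0.le]
          congr 1
          rw [show -(s - 1) = 1 + (-s) by ring, Real.rpow_add he0, Real.rpow_one]
        rw [h11, pow_succ]
        have e1 : (Real.log y) ^ A ≠ 0 := (pow_pos hly A).ne'
        (clear * - he e1 hy hly hB; field_simp)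

/-- elementary size facts -/
theorem size_facts {y H : ℕ} (hy : 2 ^ 120 ≤ y) (hH : (y : ℝ) ^ (1 / 3 : ℝ) ≤ H) :
    ∃ z : ℕ, 2 ≤ z ∧ z ^ 3 ≤ y ∧ (y : ℝ) ^ (1 / 8 : ℝ) ≤ z ∧
      ∀ e : ℕ, 1 ≤ e → e < z → (y : ℝ) ^ (1 / 5 : ℝ) ≤ (H : ℝ) / e ∧
        (y : ℝ) ^ (1 / 2 : ℝ) ≤ (y : ℝ) / e := by
  have hy0 : (0 : ℝ) < y := by
    have : 0 < y := lt_of_lt_of_le (by norm_num) hy
    exact_mod_cast this
  have hy14 : (2 : ℝ) ^ (120 : ℝ) ≤ y := by
    have : ((2 ^ 120 : ℕ) : ℝ) ≤ y := by exact_mod_cast hy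
    refine le_trans (le_of_eq ?_) this
    rw [show (120 : ℝ) = ((120 : ℕ) : ℝ) by norm_num, Real.rpow_natCast]
    norm_num
  have key : ∀ a : ℝ, 0 ≤ a → (2 : ℝ) ^ (120 * a) ≤ (y : ℝ) ^ a := by
    intro a ha
    rw [Real.rpow_mul (by norm_num)]
    exact Real.rpow_le_rpow (by positivity) hy14 ha
  have hy1 : (1 : ℝ) ≤ (y : ℝ) ^ (1 / 8 : ℝ) := by
    refine le_trans ?_ (key (1 / 8) (by norm_num))
    exact Real.one_le_rpow (by norm_num) (by norm_num)
  set z : ℕ := ⌊(y : ℝ) ^ (1 / 8 : ℝ)⌋₊ + 1 with hz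
  have hfl : (⌊(y : ℝ) ^ (1 / 8 : ℝ)⌋₊ : ℝ) ≤ (y : ℝ) ^ (1 / 8 : ℝ) := Nat.floor_le (by (clear * - hy1; linarith))
  have hfl1 : 1 ≤ ⌊(y : ℝ) ^ (1 / 8 : ℝ)⌋₊ := Nat.le_floor (by exact_mod_cast hy1)
  have hzle : (z : ℝ) ≤ 2 * (y : ℝ) ^ (1 / 8 : ℝ) := by
    rw [hz]
    push_cast
    (clear * - hy1 hfl; linarith)
  refine ⟨z, by omega, ?_, ?_, ?_⟩
  · have h1 : (z : ℝ) ^ 3 ≤ y := by
      calc (z : ℝ) ^ 3 ≤ (2 * (y : ℝ) ^ (1 / 8 : ℝ)) ^ 3 :=
            pow_le_pow_left₀ (Nat.cast_nonneg _) hzle 3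
        _ = 8 * (y : ℝ) ^ (3 / 8 : ℝ) := by
            rw [mul_pow, ← Real.rpow_natCast ((y : ℝ) ^ (1 / 8 : ℝ)) 3, ← Real.rpow_mul hy0.le]
            norm_num
        _ ≤ (y : ℝ) ^ (5 / 8 : ℝ) * (y : ℝ) ^ (3 / 8 : ℝ) := by
            apply mul_le_mul_of_nonneg_right _ (by positivity)
            refine le_trans ?_ (key (5 / 8) (by norm_num))
            calc (8 : ℝ) = (2 : ℝ) ^ (3 : ℝ) := by
                  rw [show (3 : ℝ) = ((3 : ℕ) : ℝ) by norm_num, Real.rpow_natCast]; norm_num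
              _ ≤ (2 : ℝ) ^ (120 * (5 / 8) : ℝ) :=
                  Real.rpow_le_rpow_of_exponent_le (by norm_num) (by norm_num)
        _ = y := by
            rw [← Real.rpow_add hy0]
            norm_num
    exact_mod_cast h1
  · rw [hz]
    push_cast
    exact (Nat.lt_floor_add_one _).le
  · intro e he hez
    have he0 : (0 : ℝ) < e := by exact_mod_cast (by omega : 0 < e)
    have hez' : (e : ℝ) ≤ 2 * (y : ℝ) ^ (1 / 8 : ℝ) := by
      refine le_trans ?_ hzle
      exact_mod_cast hez.le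
    constructor
    · rw [le_div_iff₀ he0]
      refine le_trans ?_ hH
      calc (y : ℝ) ^ (1 / 5 : ℝ) * e ≤ (y : ℝ) ^ (1 / 5 : ℝ) * (2 * (y : ℝ) ^ (1 / 8 : ℝ)) :=
            mul_le_mul_of_nonneg_left hez' (by positivity)
        _ ≤ (y : ℝ) ^ (1 / 5 : ℝ) * ((y : ℝ) ^ (1 / 120 : ℝ) * (y : ℝ) ^ (1 / 8 : ℝ)) := by
            apply mul_le_mul_of_nonneg_left _ (by positivity)
            apply mul_le_mul_of_nonneg_right _ (by positivity)
            refine le_trans ?_ (key (1 / 120) (by norm_num))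
            calc (2 : ℝ) = (2 : ℝ) ^ (1 : ℝ) := (Real.rpow_one _).symm
              _ ≤ (2 : ℝ) ^ (120 * (1 / 120) : ℝ) :=
                  Real.rpow_le_rpow_of_exponent_le (by norm_num) (by norm_num)
        _ = (y : ℝ) ^ (1 / 3 : ℝ) := by
            rw [← Real.rpow_add hy0, ← Real.rpow_add hy0]
            norm_num
    · rw [le_div_iff₀ he0]
      calc (y : ℝ) ^ (1 / 2 : ℝ) * e ≤ (y : ℝ) ^ (1 / 2 : ℝ) * (2 * (y : ℝ) ^ (1 / 8 : ℝ)) :=
            mul_le_mul_of_nonneg_left hez' (by positivity)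
        _ ≤ (y : ℝ) ^ (1 / 2 : ℝ) * ((y : ℝ) ^ (3 / 8 : ℝ) * (y : ℝ) ^ (1 / 8 : ℝ)) := by
            apply mul_le_mul_of_nonneg_left _ (by positivity)
            apply mul_le_mul_of_nonneg_right _ (by positivity)
            refine le_trans ?_ (key (3 / 8) (by norm_num))
            calc (2 : ℝ) = (2 : ℝ) ^ (1 : ℝ) := (Real.rpow_one _).symm
              _ ≤ (2 : ℝ) ^ (120 * (3 / 8) : ℝ) :=
                  Real.rpow_le_rpow_of_exponent_le (by norm_num) (by norm_num)
        _ = y := by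
            rw [← Real.rpow_add hy0, ← Real.rpow_add hy0]
            norm_num

/-- The weighted sum of a majorant. -/
theorem mass_small (h : OrdMaj C0 s A P0 F) (hC : 0 ≤ C0) (hA : 2 ≤ A) (hP : 4 ≤ P0)
    (hlog : C0 ≤ (Real.log P0 / 2) ^ A) (T : Finset ℕ) (hT : ∀ e ∈ T, 2 ≤ e) :
    ∑ e ∈ T, F e * (e : ℝ) ^ (-s) ≤ C0 / Real.log ((P0 : ℝ) - 1) := by
  classical
  have h1 : ∑ e ∈ T, F e * (e : ℝ) ^ (-s) = ∑ e ∈ T.filter (fun e => P0 ≤ e),
      F e * (e : ℝ) ^ (-s) := by
    rw [Finset.sum_filter]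
    refine Finset.sum_congr rfl fun e he => ?_
    split_ifs with hc
    · rfl
    · rw [h.zero_of_lt (hT e he) (by omega), zero_mul]
  rw [h1]
  have h2 : ∀ e ∈ T.filter (fun e => P0 ≤ e), F e * (e : ℝ) ^ (-s) ≤
      C0 * (1 / ((e : ℝ) * (Real.log e) ^ 2)) := by
    intro e he
    rw [Finset.mem_filter] at he
    have he4 : 4 ≤ e := le_trans hP he.2
    have he0 : (0 : ℝ) < e := by exact_mod_cast (by omega : 0 < e)
    have hlog1 : 1 ≤ Real.log e := by
      rw [Real.le_log_iff_exp_le he0]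
      have : (4 : ℝ) ≤ e := by exact_mod_cast he4
      (clear * - this; linarith [Real.exp_one_lt_d9])
    have h3 := h.pointwise hC (by omega) hlog e (hT e he.1)
    have h4 : C0 * (e : ℝ) ^ (s - 1) / (Real.log e) ^ A ≤
        C0 * (e : ℝ) ^ (s - 1) / (Real.log e) ^ 2 := by
      apply div_le_div_of_nonneg_left (by (clear * - hC he4; positivity)) (by positivity)
      exact pow_le_pow_right₀ hlog1 hA
    calc F e * (e : ℝ) ^ (-s) ≤ C0 * (e : ℝ) ^ (s - 1) / (Real.log e) ^ 2 * (e : ℝ) ^ (-s) :=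
          mul_le_mul_of_nonneg_right (le_trans h3 h4) (by positivity)
      _ = C0 * (((e : ℝ) ^ (s - 1) * (e : ℝ) ^ (-s)) / (Real.log e) ^ 2) := by ring
      _ = _ := by
          rw [← Real.rpow_add he0, show s - 1 + -s = -1 by ring, Real.rpow_neg_one]
          field_simp
  refine le_trans (Finset.sum_le_sum h2) ?_
  rw [← Finset.mul_sum, div_eq_mul_one_div C0]
  refine mul_le_mul_of_nonneg_left ?_ hC
  exact tail_sum_le (by omega) _ fun e he => (Finset.mem_filter.1 he).2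

/-- Composite integers of a window, at a fixed level. -/
theorem composite_level {B : ℝ} (hB : 0 < B)
    (hbt : ∀ x M : ℕ, 2 ≤ M →
      (((Finset.Ico x (x + M)).filter Nat.Prime).card : ℝ) ≤ B * M / Real.log M)
    (h : OrdMaj C0 s A P0 F) (hC : 0 ≤ C0) (hs1 : s ≤ 1) (hA : 2 ≤ A) (hP : 4 ≤ P0)
    (hlog : C0 ≤ (Real.log P0 / 2) ^ A) {y H : ℕ} (hy : 2 ^ 120 ≤ y)
    (hH : (y : ℝ) ^ (1 / 3 : ℝ) ≤ H) :
    ∑ n ∈ (Finset.Ico y (y + H)).filter (fun n => 2 ≤ n ∧ ¬ n.Prime), F n ≤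
      (C0 ^ 2 * 8 ^ (2 * A) / Real.log y + 15 * B * C0 * 2 ^ A * (C0 / Real.log ((P0 : ℝ) - 1)))
        * ((H : ℝ) * (y : ℝ) ^ (s - 1) / (Real.log y) ^ (A + 1)) := by
  classical
  obtain ⟨z, hz2, hz3, hzy, hze⟩ := size_facts hy hH
  have hy2 : 2 ≤ y := le_trans (by norm_num) hy
  have hy0 : (0 : ℝ) < y := by exact_mod_cast (by omega : 0 < y)
  have hlogy1 : 1 ≤ Real.log y := by
    rw [Real.le_log_iff_exp_le hy0]
    have : (2 ^ 120 : ℝ) ≤ y := by exact_mod_cast hy
    (clear * - this; linarith [Real.exp_one_lt_d9])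
  have hlogy0 : 0 < Real.log y := by (clear * - hlogy1; linarith)
  have hlogz : Real.log y / 8 ≤ Real.log z := by
    have h6 : Real.log ((y : ℝ) ^ (1 / 8 : ℝ)) ≤ Real.log z :=
      Real.log_le_log (Real.rpow_pos_of_pos hy0 _) hzy
    rw [Real.log_rpow hy0] at h6
    (clear * - h6; linarith)
  set S := (Finset.Ico y (y + H)).filter (fun n => 2 ≤ n ∧ ¬ n.Prime) with hS
  set G : ℝ := (H : ℝ) * (y : ℝ) ^ (s - 1) / (Real.log y) ^ (A + 1) with hG
  have hsplit := Finset.sum_filter_add_sum_filter_not S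
    (fun n => ∃ u, u ∣ n ∧ z ≤ u ∧ z ≤ n / u) F
  rw [← hsplit]
  -- balanced part
  have hpart1 : ∑ n ∈ S.filter (fun n => ∃ u, u ∣ n ∧ z ≤ u ∧ z ≤ n / u), F n ≤
      C0 ^ 2 * 8 ^ (2 * A) / Real.log y * G := by
    have hb : ∀ n ∈ S.filter (fun n => ∃ u, u ∣ n ∧ z ≤ u ∧ z ≤ n / u), F n ≤
        C0 ^ 2 * 8 ^ (2 * A) * ((y : ℝ) ^ (s - 1) / (Real.log y) ^ (2 * A)) := by
      intro n hn
      rw [Finset.mem_filter, hS, Finset.mem_filter, Finset.mem_Ico] at hn
      obtain ⟨⟨⟨hyn, -⟩, hn2, -⟩, u, hu, hzu, hzv⟩ := hn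
      obtain ⟨v, hv⟩ := hu
      have hu0 : 0 < u := by omega
      have hdiv : n / u = v := by rw [hv]; exact Nat.mul_div_cancel_left v hu0
      rw [hdiv] at hzv
      have hu' : (0 : ℝ) < u := by exact_mod_cast hu0
      have hv' : (0 : ℝ) < v := by exact_mod_cast (by omega : 0 < v)
      have hz' : (0 : ℝ) < z := by exact_mod_cast (by omega : 0 < z)
      have h1 := h.pointwise hC (by omega) hlog u (by omega)
      have h2 := h.pointwise hC (by omega) hlog v (by omega)
      have hlu : Real.log y / 8 ≤ Real.log u :=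
        le_trans hlogz (Real.log_le_log hz' (by exact_mod_cast hzu))
      have hlv : Real.log y / 8 ≤ Real.log v :=
        le_trans hlogz (Real.log_le_log hz' (by exact_mod_cast hzv))
      have h3 : ∀ w : ℕ, (0 : ℝ) < w → Real.log y / 8 ≤ Real.log w →
          C0 * (w : ℝ) ^ (s - 1) / (Real.log w) ^ A ≤
            C0 * (w : ℝ) ^ (s - 1) * (8 ^ A / (Real.log y) ^ A) := by
        intro w hw hlw
        have hlw0 : 0 < Real.log w := by (clear * - hlogy1 hlw; linarith)
        rw [div_eq_mul_inv]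
        refine mul_le_mul_of_nonneg_left ?_ (by (clear * - hC hw; positivity))
        rw [inv_eq_one_div, div_le_div_iff₀ (by positivity) (by positivity), one_mul, ← mul_pow]
        exact pow_le_pow_left₀ (by (clear * - hlogy1; linarith)) (by (clear * - hlw; linarith)) A
      rw [hv, h.mul u v hu0 (by omega)]
      calc F u * F v ≤ (C0 * (u : ℝ) ^ (s - 1) * (8 ^ A / (Real.log y) ^ A)) *
            (C0 * (v : ℝ) ^ (s - 1) * (8 ^ A / (Real.log y) ^ A)) :=
            mul_le_mul (le_trans h1 (h3 u hu' hlu)) (le_trans h2 (h3 v hv' hlv)) (h.nonneg v)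
              (by (clear * - hC hu0 hlogy1; positivity))
        _ = C0 ^ 2 * 8 ^ (2 * A) * (((u : ℝ) ^ (s - 1) * (v : ℝ) ^ (s - 1)) /
              (Real.log y) ^ (2 * A)) := by
            rw [pow_mul' (8 : ℝ) 2 A, pow_mul' (Real.log y) 2 A]
            (clear * - hv' hlogy1 hu0; field_simp)
        _ ≤ _ := by
            refine mul_le_mul_of_nonneg_left ?_ (by (clear * -; positivity))
            apply div_le_div_of_nonneg_right _ (by positivity)
            rw [← Real.mul_rpow hu'.le hv'.le]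
            apply Real.rpow_le_rpow_of_nonpos hy0 _ (by (clear * - hs1; linarith))
            have : (y : ℝ) ≤ n := by exact_mod_cast hyn
            rw [hv] at this
            push_cast at this
            exact this
    have hcard : ((S.filter (fun n => ∃ u, u ∣ n ∧ z ≤ u ∧ z ≤ n / u)).card : ℝ) ≤ H := by
      have h1 : (S.filter (fun n => ∃ u, u ∣ n ∧ z ≤ u ∧ z ≤ n / u)).card ≤ H := by
        calc _ ≤ S.card := Finset.card_filter_le _ _
          _ ≤ (Finset.Ico y (y + H)).card := Finset.card_filter_le _ _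
          _ = H := by rw [Nat.card_Ico]; omega
      exact_mod_cast h1
    refine le_trans (Finset.sum_le_sum hb) ?_
    rw [Finset.sum_const, nsmul_eq_mul]
    refine le_trans (mul_le_mul_of_nonneg_right hcard (by (clear * - hy hlogy1; positivity))) ?_
    rw [hG]
    have h5 : (Real.log y) ^ (A + 1) * Real.log y ≤ (Real.log y) ^ (2 * A) := by
      rw [← pow_succ]
      exact pow_le_pow_right₀ hlogy1 (by omega)
    have h6 : (H : ℝ) * (C0 ^ 2 * 8 ^ (2 * A) * ((y : ℝ) ^ (s - 1) / (Real.log y) ^ (2 * A)))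
        = (C0 ^ 2 * 8 ^ (2 * A) * (H * (y : ℝ) ^ (s - 1))) / (Real.log y) ^ (2 * A) := by ring
    have h7 : C0 ^ 2 * 8 ^ (2 * A) / Real.log y *
        ((H : ℝ) * (y : ℝ) ^ (s - 1) / (Real.log y) ^ (A + 1))
        = (C0 ^ 2 * 8 ^ (2 * A) * (H * (y : ℝ) ^ (s - 1))) /
          ((Real.log y) ^ (A + 1) * Real.log y) := by
      field_simp
    rw [h6, h7]
    exact div_le_div_of_nonneg_left (by (clear * - hy; positivity))
      (mul_pos (pow_pos hlogy0 _) hlogy0) h5
  -- part with a large prime factor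
  have hpart2 : ∑ n ∈ S.filter (fun n => ¬ ∃ u, u ∣ n ∧ z ≤ u ∧ z ≤ n / u), F n ≤
      15 * B * C0 * 2 ^ A * (C0 / Real.log ((P0 : ℝ) - 1)) * G := by
    set S2 := S.filter (fun n => ¬ ∃ u, u ∣ n ∧ z ≤ u ∧ z ≤ n / u) with hS2
    have hex : ∀ n ∈ S2, ∃ p e, p.Prime ∧ n = p * e ∧ e < z ∧ 2 ≤ e := by
      intro n hn
      rw [hS2, Finset.mem_filter, hS, Finset.mem_filter, Finset.mem_Ico] at hn
      obtain ⟨⟨⟨hyn, -⟩, hn2, hnp⟩, hno⟩ := hn
      rcases dichotomy hz2 (le_trans hz3 hyn) with h1 | ⟨p, e, hp, hpe, hez⟩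
      · exact absurd h1 hno
      · refine ⟨p, e, hp, hpe, hez, ?_⟩
        rcases Nat.lt_or_ge e 2 with h2 | h2
        · exfalso
          interval_cases e
          · rw [mul_zero] at hpe; omega
          · rw [mul_one] at hpe; exact hnp (hpe ▸ hp)
        · exact h2
    choose! p e hp using hex
    set R := ((Finset.Ico 2 z) ×ˢ (Finset.range (y + H))).filter
      (fun x => x.2.Prime ∧ y ≤ x.2 * x.1 ∧ x.2 * x.1 < y + H) with hR
    have hinj : Set.InjOn (fun n => (e n, p n)) (S2 : Set ℕ) := by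
      intro a ha b hb hab
      simp only [Prod.mk.injEq] at hab
      rw [(hp a ha).2.1, (hp b hb).2.1, hab.1, hab.2]
    have himg : S2.image (fun n => (e n, p n)) ⊆ R := by
      intro x hx
      rw [Finset.mem_image] at hx
      obtain ⟨n, hn, rfl⟩ := hx
      obtain ⟨h1, h2, h3, h4⟩ := hp n hn
      rw [hS2, Finset.mem_filter, hS, Finset.mem_filter, Finset.mem_Ico] at hn
      rw [hR, Finset.mem_filter, Finset.mem_product, Finset.mem_Ico, Finset.mem_range]
      simp only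
      rw [← h2]
      refine ⟨⟨⟨h4, h3⟩, ?_⟩, h1, hn.1.1⟩
      have : p n * 1 ≤ p n * e n := Nat.mul_le_mul_left _ (by omega)
      rw [← h2] at this
      omega
    have hsum1 : ∑ n ∈ S2, F n = ∑ x ∈ S2.image (fun n => (e n, p n)), F x.2 * F x.1 := by
      rw [Finset.sum_image hinj]
      refine Finset.sum_congr rfl fun n hn => ?_
      obtain ⟨h1, h2, h3, h4⟩ := hp n hn
      simp only
      rw [← h.mul (p n) (e n) h1.pos (by omega), ← h2]
    have hsum2 : ∑ n ∈ S2, F n ≤ ∑ e ∈ Finset.Ico 2 z, ∑ p ∈ (Finset.range (y + H)).filter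
        (fun p => p.Prime ∧ y ≤ p * e ∧ p * e < y + H), F p * F e := by
      rw [hsum1]
      refine le_trans (Finset.sum_le_sum_of_subset_of_nonneg himg
        fun x _ _ => mul_nonneg (h.nonneg _) (h.nonneg _)) ?_
      rw [hR, Finset.sum_filter, Finset.sum_product]
      apply le_of_eq
      refine Finset.sum_congr rfl fun e _ => ?_
      rw [Finset.sum_filter]
    refine le_trans hsum2 ?_
    have hsum3 : ∀ e ∈ Finset.Ico 2 z, ∑ p ∈ (Finset.range (y + H)).filter
        (fun p => p.Prime ∧ y ≤ p * e ∧ p * e < y + H), F p * F e ≤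
        15 * B * C0 * 2 ^ A * G * (F e * (e : ℝ) ^ (-s)) := by
      intro e he
      rw [Finset.mem_Ico] at he
      rw [← Finset.sum_mul]
      have h1 := prime_part hB hbt h hC hs1 (by omega) hy2 (hze e (by omega) he.2).1
        (hze e (by omega) he.2).2 ((Finset.range (y + H)).filter
        (fun p => p.Prime ∧ y ≤ p * e ∧ p * e < y + H)) (fun p hp => (Finset.mem_filter.1 hp).2)
      refine le_trans (mul_le_mul_of_nonneg_right h1 (h.nonneg e)) (le_of_eq ?_)
      rw [hG]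
      ring
    refine le_trans (Finset.sum_le_sum hsum3) ?_
    rw [← Finset.mul_sum]
    have hm := mass_small h hC hA hP hlog (Finset.Ico 2 z) (fun e he => (Finset.mem_Ico.1 he).1)
    calc 15 * B * C0 * 2 ^ A * G * ∑ e ∈ Finset.Ico 2 z, F e * (e : ℝ) ^ (-s)
        ≤ 15 * B * C0 * 2 ^ A * G * (C0 / Real.log ((P0 : ℝ) - 1)) :=
          mul_le_mul_of_nonneg_left hm (by rw [hG]; (clear * - hB hC hy hlogy1; positivity))
      _ = _ := by ring
  calc _ ≤ C0 ^ 2 * 8 ^ (2 * A) / Real.log y * G +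
      15 * B * C0 * 2 ^ A * (C0 / Real.log ((P0 : ℝ) - 1)) * G := add_le_add hpart1 hpart2
    _ = _ := by ring

/-- All integers `≥ 2` of a window, at a fixed level. -/
theorem total_level {B : ℝ} (hB : 0 < B)
    (hbt : ∀ x M : ℕ, 2 ≤ M →
      (((Finset.Ico x (x + M)).filter Nat.Prime).card : ℝ) ≤ B * M / Real.log M)
    (h : OrdMaj C0 s A P0 F) (hC : 0 ≤ C0) (hs1 : s ≤ 1) (hA : 2 ≤ A) (hP : 4 ≤ P0)
    (hlog : C0 ≤ (Real.log P0 / 2) ^ A) {y H : ℕ} (hy : 2 ^ 120 ≤ y)
    (hH : (y : ℝ) ^ (1 / 3 : ℝ) ≤ H) :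
    ∑ n ∈ (Finset.Ico y (y + H)), F n ≤
      (15 * B * C0 * 2 ^ A + (C0 ^ 2 * 8 ^ (2 * A) / Real.log y +
        15 * B * C0 * 2 ^ A * (C0 / Real.log ((P0 : ℝ) - 1))))
        * ((H : ℝ) * (y : ℝ) ^ (s - 1) / (Real.log y) ^ (A + 1)) := by
  classical
  have hy2 : 2 ≤ y := le_trans (by norm_num) hy
  have h1 := composite_level hB hbt h hC hs1 hA hP hlog hy hH
  obtain ⟨z, hz2, hz3, hzy, hze⟩ := size_facts hy hH
  have h2 := prime_part hB hbt h hC hs1 (le_refl 1) hy2 (hze 1 le_rfl (by omega)).1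
        (hze 1 le_rfl (by omega)).2 ((Finset.Ico y (y + H)).filter (fun p => p.Prime))
        (fun p hp => by
          rw [Finset.mem_filter, Finset.mem_Ico] at hp
          exact ⟨hp.2, by omega, by omega⟩)
  rw [Nat.cast_one, Real.one_rpow, mul_one] at h2
  have h3 : ∑ n ∈ (Finset.Ico y (y + H)), F n =
      ∑ p ∈ (Finset.Ico y (y + H)).filter (fun p => p.Prime), F p +
        ∑ n ∈ (Finset.Ico y (y + H)).filter (fun n => 2 ≤ n ∧ ¬ n.Prime), F n := by
    rw [← Finset.sum_filter_add_sum_filter_not (Finset.Ico y (y + H)) Nat.Prime]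
    congr 1
    refine Finset.sum_congr ?_ fun _ _ => rfl
    ext n
    rw [Finset.mem_filter, Finset.mem_filter, Finset.mem_Ico]
    constructor
    · rintro ⟨h4, h5⟩
      exact ⟨h4, by omega, h5⟩
    · rintro ⟨h4, _, h5⟩
      exact ⟨h4, h5⟩
  rw [h3, add_mul]
  exact add_le_add h2 h1

end Pool.Agent.M17.Helper15.KS
end

/- Helper53.KN.Helper15.KS.OrdWin -/
section
/-!
# Project KS (MP_768c9c_nt): Prop `OrdWin`
-/

set_option autoImplicit false

open Finset Filter Topology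

namespace Pool.Agent.M17.Helper15.KS

open Pool.Agent.M17.Helper16.KS

theorem CM_one (g : ℕ → ℝ) : CM g 1 = 1 := by simp [CM]

theorem CM_prime (g : ℕ → ℝ) {p : ℕ} (hp : p.Prime) : CM g p = g p := by
  simp [CM, Nat.primeFactorsList_prime hp]

theorem CM_mul (g : ℕ → ℝ) {a b : ℕ} (ha : 0 < a) (hb : 0 < b) :
    CM g (a * b) = CM g a * CM g b := by
  unfold CM
  have h := Nat.perm_primeFactorsList_mul ha.ne' hb.ne'
  rw [(h.map g).prod_eq, List.map_append, List.prod_append]

theorem CM_nonneg {g : ℕ → ℝ} (hg : ∀ p : ℕ, p.Prime → 0 ≤ g p) (n : ℕ) : 0 ≤ CM g n := by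
  unfold CM
  apply List.prod_nonneg
  intro x hx
  rw [List.mem_map] at hx
  obtain ⟨p, hp, rfl⟩ := hx
  exact hg p (Nat.prime_of_mem_primeFactorsList hp)

theorem s_le_one (S : Sys) : S.s ≤ 1 := by
  have h1 := S.d_le
  have h2 := S.c_le
  have h3 := S.eta_le
  have h4 := S.del_le
  unfold Sys.s
  have h5 : S.d ≤ 1 := by
    have : S.c ≤ 1 := by linarith
    have h6 : S.c / 10 ^ 5 ≤ 1 := by
      rw [div_le_iff₀ (by norm_num)]
      (clear * - h2 h3 h4; linarith)
    linarith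
  (clear * - h1 h2 h3 h4; linarith)

theorem ordMaj (S : Sys) {C : ℝ} {k0 : ℕ}
    (h : ∀ p : ℕ, p.Prime →
      0 ≤ S.ordw k0 p ∧ S.ordw k0 p ≤ C * ((p : ℝ) ^ (S.s - 1) / Real.log p ^ 3)) :
    OrdMaj (6 * |C|) S.s 3 (2 ^ (k0 - 1)) (CM (fun p => 6 * S.ordw k0 p)) where
  one := CM_one _
  mul := fun a b ha hb => CM_mul _ ha hb
  nonneg := CM_nonneg fun p hp => mul_nonneg (by norm_num) (h p hp).1
  small := by
    intro p hp hlt
    rw [CM_prime _ hp]
    have : S.ordw k0 p = 0 := by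
      unfold Sys.ordw
      rw [if_pos hlt]
    rw [this, mul_zero]
  le := by
    intro p hp
    rw [CM_prime _ hp]
    have h1 := (h p hp).2
    have h2 : 0 ≤ (p : ℝ) ^ (S.s - 1) / Real.log p ^ 3 := by
      have : 0 ≤ Real.log (p : ℝ) := Real.log_natCast_nonneg p
      (clear * -; positivity)
    have h3 : C * ((p : ℝ) ^ (S.s - 1) / Real.log p ^ 3) ≤
        |C| * ((p : ℝ) ^ (S.s - 1) / Real.log p ^ 3) :=
      mul_le_mul_of_nonneg_right (le_abs_self C) h2
    calc 6 * S.ordw k0 p ≤ 6 * (|C| * ((p : ℝ) ^ (S.s - 1) / Real.log p ^ 3)) := by (clear * - h1 h3; linarith)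
      _ = _ := by ring

theorem log_pow_ge {k0 : ℕ} (hk : 8 ≤ k0) : (k0 : ℝ) / 2 ≤ Real.log ((2 : ℝ) ^ (k0 - 1) / 2) := by
  have h1 : ((2 : ℝ) ^ (k0 - 1) / 2) = 2 ^ (k0 - 2) := by
    obtain ⟨m, rfl⟩ : ∃ m, k0 = m + 2 := ⟨k0 - 2, by omega⟩
    simp only [show m + 2 - 1 = m + 1 by omega, show m + 2 - 2 = m by omega]
    rw [pow_succ]
    ring
  rw [h1, Real.log_pow]
  have h2 := Real.log_two_gt_d9
  have h3 : (8 : ℝ) ≤ k0 := by exact_mod_cast hk
  have h4 : ((k0 - 2 : ℕ) : ℝ) = (k0 : ℝ) - 2 := by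
    rw [Nat.cast_sub (by omega)]
    norm_num
  rw [h4]
  (clear * - h3 h2; nlinarith)

theorem ordWin (hOL : OrdLe) : OrdWin := by
  intro S
  obtain ⟨C, K1, hC⟩ := hOL S
  obtain ⟨B, hB, hbt⟩ := bt
  obtain ⟨N, hN⟩ := exists_nat_ge (6 * |C|)
  set C0 : ℝ := 6 * |C| with hC0
  have hC0' : 0 ≤ C0 := by (clear * -; positivity)
  refine ⟨2 * (C0 ^ 2 * 8 ^ (2 * 3) + 15 * B * C0 * 2 ^ 3 * C0) + 15 * B * C0 * 2 ^ 3,
    K1 + 4 * (N + 1) + 130, ?_⟩
  intro k0 hk0 x h hxh hhx hx2
  have hk0' : 130 ≤ k0 := by omega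
  have hmaj := ordMaj S (hC k0 (by omega))
  rw [← hC0] at hmaj
  have hlP := log_pow_ge (k0 := k0) (by omega)
  have hk0R : (130 : ℝ) ≤ k0 := by exact_mod_cast hk0'
  have hpow : (2 : ℝ) ^ 129 ≤ 2 ^ (k0 - 1) := pow_le_pow_right₀ (by norm_num) (by omega)
  have hpowN : 2 ^ 129 ≤ 2 ^ (k0 - 1) := Nat.pow_le_pow_right (by norm_num) (by omega)
  have hcast : ((2 ^ (k0 - 1) : ℕ) : ℝ) = 2 ^ (k0 - 1) := by push_cast; rfl
  have hlog : C0 ≤ (Real.log ((2 ^ (k0 - 1) : ℕ) : ℝ) / 2) ^ 3 := by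
    rw [hcast]
    have h1 : Real.log ((2 : ℝ) ^ (k0 - 1) / 2) ≤ Real.log ((2 : ℝ) ^ (k0 - 1)) := by
      apply Real.log_le_log (by positivity)
      have : (0 : ℝ) < 2 ^ (k0 - 1) := by positivity
      (clear * - hpow; linarith)
    have h2 : (N : ℝ) + 1 ≤ k0 / 4 := by
      have : ((4 * (N + 1) : ℕ) : ℝ) ≤ k0 := by exact_mod_cast (by omega)
      push_cast at this
      (clear * - this; linarith)
    have h3 : (N : ℝ) + 1 ≤ Real.log ((2 : ℝ) ^ (k0 - 1)) / 2 := by (clear * - hlP h1 h2; linarith)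
    have h4 : (0 : ℝ) ≤ N := Nat.cast_nonneg N
    have h5 : (N : ℝ) + 1 ≤ (Real.log ((2 : ℝ) ^ (k0 - 1)) / 2) ^ 3 :=
      le_trans h3 (le_self_pow₀ (by (clear * - hlP hk0R h1; linarith)) (by norm_num))
    (clear * - hN h5; linarith)
  have hs := s_le_one S
  have hx0 : (0 : ℝ) < x := by exact_mod_cast (by omega : 0 < x)
  have hlx0 : 0 < Real.log (x : ℝ) := Real.log_pos (by exact_mod_cast (by omega : 1 < x))
  have hG0 : 0 ≤ (h : ℝ) * (x : ℝ) ^ (S.s - 1) / Real.log x ^ 4 := by (clear * - hx2 hlx0; positivity)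
  have hfil : (Finset.Ico x (x + h)).filter (fun n => ¬ n.Prime) =
      (Finset.Ico x (x + h)).filter (fun n => 2 ≤ n ∧ ¬ n.Prime) := by
    apply Finset.filter_congr
    intro n hn
    rw [Finset.mem_Ico] at hn
    constructor
    · intro h1; exact ⟨by omega, h1⟩
    · intro h1; exact h1.2
  rw [hfil]
  rcases Nat.lt_or_ge (2 * x) (2 ^ (k0 - 1)) with hsm | hla
  · -- everything vanishes
    have hz : ∀ n ∈ Finset.Ico x (x + h), CM (fun p => 6 * S.ordw k0 p) n = 0 := by
      intro n hn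
      rw [Finset.mem_Ico] at hn
      exact hmaj.zero_of_lt (by omega) (by omega)
    constructor
    · rw [Finset.sum_eq_zero hz]
      exact mul_nonneg (by (clear * - hB; positivity)) hG0
    · rw [Finset.sum_eq_zero fun n hn => hz n (Finset.mem_of_mem_filter n hn)]
      exact mul_nonneg (by (clear * - hB hk0'; positivity)) hG0
  · have hx120 : 2 ^ 120 ≤ x := by
      have h1 : 2 ^ 129 ≤ 2 * x := le_trans hpowN hla
      have h2 : (2 : ℕ) ^ 129 = 2 * (2 ^ 8 * 2 ^ 120) := by norm_num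
      omega
    have hP4 : 4 ≤ 2 ^ (k0 - 1) := le_trans (by norm_num) hpowN
    have hlx : (k0 : ℝ) / 2 ≤ Real.log x := by
      refine le_trans hlP (Real.log_le_log (by positivity) ?_)
      have : ((2 ^ (k0 - 1) : ℕ) : ℝ) ≤ ((2 * x : ℕ) : ℝ) := by exact_mod_cast hla
      push_cast at this
      (clear * - this; linarith)
    have hlP1 : (k0 : ℝ) / 2 ≤ Real.log (((2 ^ (k0 - 1) : ℕ) : ℝ) - 1) := by
      rw [hcast]
      refine le_trans hlP (Real.log_le_log (by positivity) ?_)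
      have h1 : (2 : ℝ) ≤ 2 ^ (k0 - 1) := le_trans (by norm_num) hpow
      (clear * - hpow; linarith)
    have hA : (2 : ℕ) ≤ 3 := by norm_num
    have e1 := composite_level hB hbt hmaj hC0' hs hA hP4 hlog hx120 hxh
    have e2 := total_level hB hbt hmaj hC0' hs hA hP4 hlog hx120 hxh
    have hk0pos : (0 : ℝ) < k0 := by (clear * - hk0R; linarith)
    have f1 : C0 ^ 2 * 8 ^ (2 * 3) / Real.log x ≤ 2 * (C0 ^ 2 * 8 ^ (2 * 3)) / k0 := by
      rw [div_le_div_iff₀ hlx0 hk0pos]
      have : 0 ≤ C0 ^ 2 * 8 ^ (2 * 3) := by (clear * -; positivity)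
      (clear * - hlx this; nlinarith [mul_le_mul_of_nonneg_left hlx this])
    have f2 : 15 * B * C0 * 2 ^ 3 * (C0 / Real.log (((2 ^ (k0 - 1) : ℕ) : ℝ) - 1)) ≤
        2 * (15 * B * C0 * 2 ^ 3 * C0) / k0 := by
      rw [← mul_div_assoc, div_le_div_iff₀ (by (clear * - hk0R hlP1; linarith)) hk0pos]
      have : 0 ≤ 15 * B * C0 * 2 ^ 3 * C0 := by (clear * - hB; positivity)
      (clear * - hlP1 this; nlinarith [mul_le_mul_of_nonneg_left hlP1 this])
    have f3 : C0 ^ 2 * 8 ^ (2 * 3) / Real.log x +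
        15 * B * C0 * 2 ^ 3 * (C0 / Real.log (((2 ^ (k0 - 1) : ℕ) : ℝ) - 1)) ≤
        2 * (C0 ^ 2 * 8 ^ (2 * 3) + 15 * B * C0 * 2 ^ 3 * C0) / k0 := by
      refine le_trans (add_le_add f1 f2) (le_of_eq ?_)
      ring
    have f4 : 2 * (C0 ^ 2 * 8 ^ (2 * 3) + 15 * B * C0 * 2 ^ 3 * C0) / k0 ≤
        2 * (C0 ^ 2 * 8 ^ (2 * 3) + 15 * B * C0 * 2 ^ 3 * C0) := by
      apply div_le_self (by (clear * - hB; positivity))
      (clear * - hk0R; linarith)
    have f5 : 0 ≤ 15 * B * C0 * 2 ^ 3 := by (clear * - hB; positivity)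
    constructor
    · refine le_trans e2 ?_
      apply mul_le_mul_of_nonneg_right _ hG0
      (clear * - f3 f4; linarith)
    · refine le_trans e1 ?_
      apply mul_le_mul_of_nonneg_right _ hG0
      refine le_trans f3 ?_
      apply div_le_div_of_nonneg_right _ hk0pos.le
      (clear * - f5; linarith)

end Pool.Agent.M17.Helper15.KS
end

/- Helper53.KN.Helper18.KL.Red -/
section
/-! Project KS: reduction of the conditional expectations to the relative weights. -/

set_option autoImplicit false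
open scoped Classical
open Finset

namespace Pool.Agent.M17.Helper18.KL

open Pool.Agent.M17.Helper16.KS

theorem gam_le_base (S : Sys) {p : ℕ} (hp : 1 ≤ p) : S.gam p ≤ S.base p := by
  unfold Sys.gam Sys.base
  refine Real.rpow_le_rpow_of_exponent_le (by exact_mod_cast hp) ?_
  have h1 := S.del_le
  have h2 := S.s_lt
  have h3 := S.tau_le_s
  have h4 := S.s_pos
  have h5 : S.s / 10 ^ 6 ≤ S.s := by rw [div_le_iff₀ (by positivity)]; (clear * - h4; nlinarith)
  norm_num at h2
  (clear * - h1 h3 h4 h2; linarith)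

theorem base_le (S : Sys) {p : ℕ} (hp : 1 ≤ p) : S.base p ≤ S.gam p * (p : ℝ) ^ S.hh := by
  unfold Sys.gam Sys.base
  have hp0 : (0 : ℝ) < p := by exact_mod_cast hp
  rw [← Real.rpow_add hp0]
  refine Real.rpow_le_rpow_of_exponent_le (by exact_mod_cast hp) ?_
  have h3 := S.tau_pos
  rw [S.hh_eq]
  (clear * - h3; linarith)

/-- one prime -/
theorem prime_term (S : Sys) (D O : Finset ℕ) {p v : ℕ} (hp : 1 ≤ p) (hv : 1 ≤ v) :
    (if p ∈ D then (S.base p + S.gam p) ^ v else S.gam p ^ v) * (if p ∈ D ∧ p ∉ O then S.pr p else 1) ≤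
      2 ^ v * S.gam p ^ v * ((if p ∈ O then p ^ v else p ^ (v - 1) : ℕ) : ℝ) ^ S.hh := by
  have hp0 : (0 : ℝ) < p := by exact_mod_cast hp
  have hp1 : (1 : ℝ) ≤ p := by exact_mod_cast hp
  have hg := S.gam_nonneg p
  have hb := S.base_nonneg p
  have h2v : (1 : ℝ) ≤ 2 ^ v := one_le_pow₀ (by norm_num)
  have hhh := (hh_le S).2.1
  by_cases hD : p ∈ D
  · rw [if_pos hD]
    have h1 : (S.base p + S.gam p) ^ v ≤ 2 ^ v * S.gam p ^ v * ((p : ℝ) ^ S.hh) ^ v := by
      have h2 : S.base p + S.gam p ≤ 2 * S.gam p * (p : ℝ) ^ S.hh := by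
        have := gam_le_base S hp
        have := base_le S hp
        linarith
      calc (S.base p + S.gam p) ^ v ≤ (2 * S.gam p * (p : ℝ) ^ S.hh) ^ v := pow_le_pow_left₀ (by positivity) h2 v
        _ = _ := by rw [mul_pow, mul_pow]
    have h3 : ((p : ℝ) ^ S.hh) ^ v = ((p : ℝ) ^ v) ^ S.hh := by
      rw [← Real.rpow_natCast, ← Real.rpow_natCast, ← Real.rpow_mul hp0.le, ← Real.rpow_mul hp0.le, mul_comm]
    by_cases hO : p ∈ O
    · rw [if_neg (by tauto), if_pos hO, mul_one]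
      push_cast
      rw [← h3]
      exact h1
    · rw [if_pos ⟨hD, hO⟩, if_neg hO]
      push_cast
      have h4 : ((p : ℝ) ^ v) ^ S.hh * S.pr p = ((p : ℝ) ^ (v - 1)) ^ S.hh := by
        unfold Sys.pr
        have e1 : (p : ℝ) ^ v = (p : ℝ) ^ (v - 1) * p := by
          rw [← pow_succ]; congr 1; omega
        rw [e1, Real.mul_rpow (by positivity) hp0.le, mul_assoc, ← Real.rpow_add hp0]
        rw [add_neg_cancel, Real.rpow_zero, mul_one]
      calc (S.base p + S.gam p) ^ v * S.pr p ≤ (2 ^ v * S.gam p ^ v * ((p : ℝ) ^ S.hh) ^ v) * S.pr p :=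
            mul_le_mul_of_nonneg_right h1 (S.pr_nonneg p)
        _ = 2 ^ v * S.gam p ^ v * (((p : ℝ) ^ v) ^ S.hh * S.pr p) := by rw [h3]; ring
        _ = _ := by rw [h4]
  · rw [if_neg hD, if_neg (by tauto), mul_one]
    have h1 : (1 : ℝ) ≤ ((if p ∈ O then p ^ v else p ^ (v - 1) : ℕ) : ℝ) ^ S.hh := by
      refine Real.one_le_rpow ?_ hhh.le
      split_ifs <;> exact_mod_cast Nat.one_le_pow _ _ hp
    have h2 : 0 ≤ S.gam p ^ v := by positivity
    calc S.gam p ^ v ≤ 2 ^ v * S.gam p ^ v := by (clear * - h2v h2; nlinarith)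
      _ ≤ 2 ^ v * S.gam p ^ v * ((if p ∈ O then p ^ v else p ^ (v - 1) : ℕ) : ℝ) ^ S.hh := by
        have : 0 ≤ 2 ^ v * S.gam p ^ v := by (clear * - hg; positivity)
        (clear * - h1 this; nlinarith)

/-- product over the primes of `l` -/
theorem Fe_bound (S : Sys) (D O : Finset ℕ) {l : ℕ} (hl : l ≠ 0) (hD : D ⊆ l.primeFactors) :
    S.Fe D l * ∏ p ∈ D \ O, S.pr p ≤
      2 ^ l.primeFactorsList.length * (l : ℝ) ^ (S.s - 1 + 6 * S.tau) * (sig O l : ℝ) ^ S.hh := by
  have h1 : ∏ p ∈ D \ O, S.pr p = ∏ p ∈ l.primeFactors, if p ∈ D ∧ p ∉ O then S.pr p else 1 := by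
    rw [← Finset.prod_filter]
    refine Finset.prod_congr ?_ fun _ _ => rfl
    ext p
    simp only [Finset.mem_sdiff, Finset.mem_filter]
    constructor
    · rintro ⟨h1, h2⟩; exact ⟨hD h1, h1, h2⟩
    · rintro ⟨_, h1, h2⟩; exact ⟨h1, h2⟩
  have h2 : (2 : ℝ) ^ l.primeFactorsList.length = ∏ p ∈ l.primeFactors, (2 : ℝ) ^ l.factorization p := by
    rw [← CM_const, CM_eq_prod]
  have h3 : (l : ℝ) ^ (S.s - 1 + 6 * S.tau) = ∏ p ∈ l.primeFactors, S.gam p ^ l.factorization p := by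
    rw [← CM_rpow _ hl, CM_eq_prod]
    rfl
  have h4 : (sig O l : ℝ) ^ S.hh = ∏ p ∈ l.primeFactors,
      ((if p ∈ O then p ^ l.factorization p else p ^ (l.factorization p - 1) : ℕ) : ℝ) ^ S.hh := by
    unfold sig
    rw [Nat.cast_prod, Real.finsetProd_rpow _ _ (fun i _ => Nat.cast_nonneg _)]
  rw [h1, h2, h3, h4]
  unfold Sys.Fe
  rw [← Finset.prod_mul_distrib, ← Finset.prod_mul_distrib, ← Finset.prod_mul_distrib]
  refine Finset.prod_le_prod (fun p _ => ?_) fun p hp => ?_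
  · refine mul_nonneg ?_ ?_
    · split_ifs
      · exact pow_nonneg (add_nonneg (S.base_nonneg _) (S.gam_nonneg _)) _
      · exact pow_nonneg (S.gam_nonneg _) _
    · split_ifs
      · exact S.pr_nonneg _
      · norm_num
  · have hpp := Nat.prime_of_mem_primeFactors hp
    exact prime_term S D O hpp.one_le (hpp.factorization_pos_of_dvd hl (Nat.dvd_of_mem_primeFactors hp))

theorem mA_pos (A : Finset ℕ) (m : ℕ) : 1 ≤ mA A m := by
  refine Nat.one_le_iff_ne_zero.2 (Finset.prod_ne_zero_iff.2 fun p hp => ?_)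
  rw [Finset.mem_inter] at hp
  exact (Nat.prime_of_mem_primeFactors hp.1).ne_zero

theorem mA_mul {A : Finset ℕ} {m : ℕ} (hm : Squarefree m) :
    mA A m * ∏ p ∈ m.primeFactors \ A, p = m := by
  unfold mA
  rw [← Finset.prod_union]
  · rw [Finset.union_comm, Finset.sdiff_union_inter]
    exact Nat.prod_primeFactors_of_squarefree hm
  · exact Finset.disjoint_of_subset_left Finset.inter_subset_right Finset.disjoint_sdiff

theorem prod_pr_sdiff (S : Sys) {A : Finset ℕ} {m : ℕ} (hm : Squarefree m) :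
    ∏ p ∈ m.primeFactors \ A, S.pr p = ((mA A m : ℝ) / m) ^ S.hh := by
  have h1 : ∏ p ∈ m.primeFactors \ A, S.pr p = (((∏ p ∈ m.primeFactors \ A, p : ℕ)) : ℝ) ^ (-S.hh) := by
    rw [Nat.cast_prod, ← Real.finsetProd_rpow _ _ (fun i _ => Nat.cast_nonneg _)]
    rfl
  have h2 := mA_mul (A := A) hm
  have h3 : ((∏ p ∈ m.primeFactors \ A, p : ℕ) : ℝ) ≠ 0 := by
    have : (∏ p ∈ m.primeFactors \ A, p) ≠ 0 := Finset.prod_ne_zero_iff.2 fun p hp =>
      (Nat.prime_of_mem_primeFactors (Finset.sdiff_subset hp)).ne_zero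
    exact_mod_cast this
  have h4 : (mA A m : ℝ) ≠ 0 := by
    have := mA_pos A m
    exact_mod_cast (by omega : mA A m ≠ 0)
  have h5 : (mA A m : ℝ) / m = (((∏ p ∈ m.primeFactors \ A, p : ℕ)) : ℝ)⁻¹ := by
    have h6 : (m : ℝ) = (mA A m : ℝ) * ((∏ p ∈ m.primeFactors \ A, p : ℕ) : ℝ) := by exact_mod_cast h2.symm
    rw [h6]
    field_simp
  rw [h1, h5, Real.inv_rpow (Nat.cast_nonneg _), Real.rpow_neg (Nat.cast_nonneg _)]

theorem pc_eq (S : Sys) {A D : Finset ℕ} {m : ℕ} (hm : Squarefree m) :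
    S.pc A (m.primeFactors ∪ D) = ((mA A m : ℝ) / m) ^ S.hh * ∏ p ∈ D \ (A ∪ m.primeFactors), S.pr p := by
  unfold Sys.pc
  have h1 : (m.primeFactors ∪ D) \ A = (m.primeFactors \ A) ∪ (D \ (A ∪ m.primeFactors)) := by
    ext p
    simp only [Finset.mem_sdiff, Finset.mem_union]
    tauto
  rw [h1, Finset.prod_union, prod_pr_sdiff S hm]
  rw [Finset.disjoint_left]
  intro p hp hp2
  rw [Finset.mem_sdiff] at hp hp2
  exact hp2.2 (Finset.mem_union_right _ hp.1)

/-- the power of `2^k` in one term -/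
theorem level_bound (S : Sys) {k k' q m l : ℕ} (hq : 1 ≤ q) (hm : 1 ≤ m) (hl : 1 ≤ l)
    (h1 : q * m < 2 ^ (k' + 1)) (h2 : 2 ^ k ≤ q * l) (h3 : q * l < 2 ^ (k + 1)) (hk' : k' < 3 * (k + 1)) :
    S.wd k' m * (l : ℝ) ^ (S.s - 1 + 6 * S.tau) ≤
      2 * (2 : ℝ) ^ (9 * S.tau * (k + 1)) * (2 : ℝ) ^ ((S.s - 1) * k) := by
  have hq0 : (0 : ℝ) < q := by exact_mod_cast hq
  have hm0 : (0 : ℝ) < m := by exact_mod_cast hm
  have hl0 : (0 : ℝ) < l := by exact_mod_cast hl
  have hq1 : (1 : ℝ) ≤ q := by exact_mod_cast hq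
  have hs := S.s_pos
  have hs1 : S.s ≤ 1 := by have := S.s_lt; norm_num at this; (clear * - hs this; linarith)
  have ht := S.tau_pos
  have e1 : (q : ℝ) * m ≤ (2 : ℝ) ^ ((k' : ℝ) + 1) := by
    have : ((q * m : ℕ) : ℝ) ≤ ((2 ^ (k' + 1) : ℕ) : ℝ) := by exact_mod_cast h1.le
    push_cast at this
    rwa [← Real.rpow_natCast, Nat.cast_add, Nat.cast_one] at this
  have e2 : (2 : ℝ) ^ (k : ℝ) ≤ (q : ℝ) * l := by
    have : ((2 ^ k : ℕ) : ℝ) ≤ ((q * l : ℕ) : ℝ) := by exact_mod_cast h2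
    push_cast at this
    rwa [Real.rpow_natCast]
  have e3 : (q : ℝ) * l ≤ (2 : ℝ) ^ ((k : ℝ) + 1) := by
    have : ((q * l : ℕ) : ℝ) ≤ ((2 ^ (k + 1) : ℕ) : ℝ) := by exact_mod_cast h3.le
    push_cast at this
    rwa [← Real.rpow_natCast, Nat.cast_add, Nat.cast_one] at this
  -- m^(1-s) l^(s-1)
  have e4 : (m : ℝ) ^ (1 - S.s) * (l : ℝ) ^ (S.s - 1) ≤
      (2 : ℝ) ^ (((k' : ℝ) + 1) * (1 - S.s)) * (2 : ℝ) ^ ((S.s - 1) * k) := by
    have e5 : (m : ℝ) ^ (1 - S.s) ≤ ((2 : ℝ) ^ ((k' : ℝ) + 1) / q) ^ (1 - S.s) := by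
      refine Real.rpow_le_rpow hm0.le ?_ (by (clear * - hs1; linarith))
      rw [le_div_iff₀ hq0]; (clear * - e1; linarith)
    have e6 : (l : ℝ) ^ (S.s - 1) ≤ ((2 : ℝ) ^ (k : ℝ) / q) ^ (S.s - 1) := by
      refine Real.rpow_le_rpow_of_nonpos (by (clear * - hq; positivity)) ?_ (by (clear * - hs1; linarith))
      rw [div_le_iff₀ hq0]; (clear * - e2; linarith)
    refine (mul_le_mul e5 e6 (by positivity) (by positivity)).trans (le_of_eq ?_)
    rw [Real.div_rpow (by positivity) hq0.le, Real.div_rpow (by positivity) hq0.le, ← Real.rpow_mul (by norm_num),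
      ← Real.rpow_mul (by norm_num)]
    have e7 : (q : ℝ) ^ (S.s - 1) = ((q : ℝ) ^ (1 - S.s))⁻¹ := by
      rw [← Real.rpow_neg hq0.le]; congr 1; ring
    rw [e7]
    have e8 : (q : ℝ) ^ (1 - S.s) ≠ 0 := by positivity
    field_simp
  have e9 : (m : ℝ) ^ S.tau ≤ (2 : ℝ) ^ (((k' : ℝ) + 1) * S.tau) := by
    rw [Real.rpow_mul (by norm_num)]
    refine Real.rpow_le_rpow hm0.le ?_ ht.le
    (clear * - e1 hq1; nlinarith)
  have e10 : (l : ℝ) ^ (6 * S.tau) ≤ (2 : ℝ) ^ (((k : ℝ) + 1) * (6 * S.tau)) := by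
    rw [Real.rpow_mul (x := 2) (by norm_num) ((k : ℝ) + 1) (6 * S.tau)]
    refine Real.rpow_le_rpow hl0.le ?_ (by (clear * - ht; linarith))
    (clear * - e3 hq1; nlinarith)
  have e11 : S.wd k' m * (l : ℝ) ^ (S.s - 1 + 6 * S.tau) =
      (2 : ℝ) ^ ((S.s - 1) * k') * ((m : ℝ) ^ (1 - S.s) * (l : ℝ) ^ (S.s - 1)) * (m : ℝ) ^ S.tau *
        (l : ℝ) ^ (6 * S.tau) := by
    unfold Sys.wd
    rw [Real.rpow_add hm0, Real.rpow_add hl0]
    ring
  rw [e11]
  have e12 : (2 : ℝ) ^ ((S.s - 1) * k') * ((m : ℝ) ^ (1 - S.s) * (l : ℝ) ^ (S.s - 1)) * (m : ℝ) ^ S.tau *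
        (l : ℝ) ^ (6 * S.tau) ≤ (2 : ℝ) ^ ((S.s - 1) * k') *
        ((2 : ℝ) ^ (((k' : ℝ) + 1) * (1 - S.s)) * (2 : ℝ) ^ ((S.s - 1) * k)) * (2 : ℝ) ^ (((k' : ℝ) + 1) * S.tau) *
        (2 : ℝ) ^ (((k : ℝ) + 1) * (6 * S.tau)) := by
    refine mul_le_mul ?_ e10 (by positivity) (by positivity)
    refine mul_le_mul ?_ e9 (by positivity) (by positivity)
    exact mul_le_mul_of_nonneg_left e4 (by positivity)
  refine e12.trans ?_
  have e13 : (2 : ℝ) ^ ((S.s - 1) * k') * ((2 : ℝ) ^ (((k' : ℝ) + 1) * (1 - S.s)) * (2 : ℝ) ^ ((S.s - 1) * k)) *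
        (2 : ℝ) ^ (((k' : ℝ) + 1) * S.tau) * (2 : ℝ) ^ (((k : ℝ) + 1) * (6 * S.tau)) =
      (2 : ℝ) ^ (1 - S.s) * (2 : ℝ) ^ (((k' : ℝ) + 1) * S.tau + ((k : ℝ) + 1) * (6 * S.tau)) *
        (2 : ℝ) ^ ((S.s - 1) * k) := by
    rw [← Real.rpow_add (by norm_num), ← Real.rpow_add (by norm_num), ← Real.rpow_add (by norm_num),
      ← Real.rpow_add (by norm_num), ← Real.rpow_add (by norm_num), ← Real.rpow_add (by norm_num)]
    congr 1
    ring
  rw [e13]
  refine mul_le_mul_of_nonneg_right ?_ (by positivity)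
  have e14 : (2 : ℝ) ^ (1 - S.s) ≤ 2 := by
    calc (2 : ℝ) ^ (1 - S.s) ≤ 2 ^ (1 : ℝ) := Real.rpow_le_rpow_of_exponent_le (by norm_num) (by (clear * - hs; linarith))
      _ = 2 := Real.rpow_one _
  refine mul_le_mul e14 ?_ (by positivity) (by norm_num)
  refine Real.rpow_le_rpow_of_exponent_le (by norm_num) ?_
  have : (k' : ℝ) + 1 ≤ 3 * (k + 1) := by exact_mod_cast hk'
  (clear * - ht this; nlinarith)

theorem red : Red := by
  intro S
  set K0 : ℕ := max (S.K + 1) ⌈4 / S.tau⌉₊ with hK0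
  refine ⟨K0, ?_⟩
  intro k0 hk0 k hk j hj Q A
  have ht := S.tau_pos
  have hk01 : 1 ≤ k0 := by
    have : S.K + 1 ≤ K0 := le_max_left _ _
    omega
  have hk0K : S.K ≤ k0 := by
    have : S.K + 1 ≤ K0 := le_max_left _ _
    omega
  have hk0t : 4 / S.tau ≤ k0 := by
    calc 4 / S.tau ≤ (⌈4 / S.tau⌉₊ : ℝ) := Nat.le_ceil _
      _ ≤ K0 := by exact_mod_cast le_max_right _ _
      _ ≤ k0 := by exact_mod_cast hk0
  have hk0r : (0 : ℝ) < k0 := by exact_mod_cast hk01
  have hkr : (k0 : ℝ) ≤ k := by exact_mod_cast hk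
  have hk0t' : 4 ≤ S.tau * k0 := by rw [div_le_iff₀ ht] at hk0t; (clear * - hk0t; linarith)
  unfold Sys.LP LS
  rw [Finset.mul_sum]
  refine Finset.sum_le_sum fun n hn => ?_
  rw [Finset.mul_sum]
  refine Finset.sum_le_sum fun k' hk' => ?_
  rw [Finset.mul_sum]
  refine Finset.sum_le_sum fun j' hj' => ?_
  rw [Finset.mem_filter] at hn
  obtain ⟨hncell, hrough⟩ := hn
  have hnge := cell_ge hncell
  have hnlt := cell_lt S.d_pos hj hncell
  have hn0 : n ≠ 0 := by
    have : 0 < 2 ^ k := by positivity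
    omega
  unfold Sys.hvy at hk'
  rw [Finset.mem_Ico] at hk'
  have hk'K : S.K ≤ k' := by
    have := (le_max_left k0 ⌈S.kap * k⌉₊).trans hk'.1
    omega
  -- compare termwise
  have hinner : ∀ x ∈ (S.Cand k' j').filter (fun x => x.1 ∣ n ∧ Q (k', j') n x),
      ∑ D ∈ (n / x.1).primeFactors.powerset.filter (fun D => A ⊆ x.2.primeFactors ∪ D),
        S.wd k' x.2 * S.Fe D (n / x.1) * S.pc A (x.2.primeFactors ∪ D) ≤
      if A ⊆ x.2.primeFactors ∪ (n / x.1).primeFactors then
        (2 : ℝ) ^ (20 * S.tau * k) * (2 : ℝ) ^ ((S.s - 1) * k) * tw S A x.2 (n / x.1) else 0 := by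
    intro x hx
    rw [Finset.mem_filter] at hx
    obtain ⟨hxC, hxn, _⟩ := hx
    obtain ⟨hq, hsq, hcop, hm1, hxcell, hge, hlt, _, _⟩ := S.cand_facts hk'K hj' hxC
    set l := n / x.1 with hl
    have hql : x.1 * l = n := Nat.mul_div_cancel' hxn
    have hl0 : l ≠ 0 := by
      rintro h0
      rw [h0, mul_zero] at hql
      exact hn0 hql.symm
    split_ifs with hA
    · -- each D
      have hterm : ∀ D ∈ l.primeFactors.powerset.filter (fun D => A ⊆ x.2.primeFactors ∪ D),
          S.wd k' x.2 * S.Fe D l * S.pc A (x.2.primeFactors ∪ D) ≤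
          2 * (2 : ℝ) ^ (9 * S.tau * (k + 1)) * (2 : ℝ) ^ ((S.s - 1) * k) * 2 ^ l.primeFactorsList.length *
            tw S A x.2 l := by
        intro D hD
        rw [Finset.mem_filter, Finset.mem_powerset] at hD
        have h1 := Fe_bound S D (A ∪ x.2.primeFactors) hl0 hD.1
        rw [pc_eq S hsq]
        have h2 := level_bound S (k := k) (k' := k') (q := x.1) (m := x.2) (l := l) hq.one_le hm1.le
          (Nat.one_le_iff_ne_zero.2 hl0) hlt (by rw [hql]; exact hnge) (by rw [hql]; exact hnlt) hk'.2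
        have h3 : tw S A x.2 l = ((mA A x.2 : ℝ) / x.2) ^ S.hh * (sig (A ∪ x.2.primeFactors) l : ℝ) ^ S.hh := by
          unfold tw
          rw [Real.mul_rpow (by (clear * - hm1; positivity)) (Nat.cast_nonneg _)]
        rw [h3]
        have hwd := S.wd_nonneg k' x.2
        calc S.wd k' x.2 * S.Fe D l * (((mA A x.2 : ℝ) / x.2) ^ S.hh *
                ∏ p ∈ D \ (A ∪ x.2.primeFactors), S.pr p)
            = S.wd k' x.2 * (S.Fe D l * ∏ p ∈ D \ (A ∪ x.2.primeFactors), S.pr p) *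
                ((mA A x.2 : ℝ) / x.2) ^ S.hh := by ring
          _ ≤ S.wd k' x.2 * (2 ^ l.primeFactorsList.length * (l : ℝ) ^ (S.s - 1 + 6 * S.tau) *
                (sig (A ∪ x.2.primeFactors) l : ℝ) ^ S.hh) * ((mA A x.2 : ℝ) / x.2) ^ S.hh :=
              mul_le_mul_of_nonneg_right (mul_le_mul_of_nonneg_left h1 hwd) (by (clear * - hm1; positivity))
          _ = (S.wd k' x.2 * (l : ℝ) ^ (S.s - 1 + 6 * S.tau)) * (2 ^ l.primeFactorsList.length *
                (((mA A x.2 : ℝ) / x.2) ^ S.hh * (sig (A ∪ x.2.primeFactors) l : ℝ) ^ S.hh)) := by ring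
          _ ≤ (2 * (2 : ℝ) ^ (9 * S.tau * (k + 1)) * (2 : ℝ) ^ ((S.s - 1) * k)) *
                (2 ^ l.primeFactorsList.length *
                (((mA A x.2 : ℝ) / x.2) ^ S.hh * (sig (A ∪ x.2.primeFactors) l : ℝ) ^ S.hh)) :=
              mul_le_mul_of_nonneg_right h2 (by (clear * - hm1; positivity))
          _ = _ := by ring
      have htw0 : 0 ≤ tw S A x.2 l := by unfold tw; (clear * - hm1; positivity)
      refine (Finset.sum_le_card_nsmul _ _ _ hterm).trans ?_
      rw [nsmul_eq_mul]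
      have hcard : (((l.primeFactors.powerset.filter (fun D => A ⊆ x.2.primeFactors ∪ D)).card : ℕ) : ℝ) ≤
          2 ^ l.primeFactorsList.length := by
        have h1 : (l.primeFactors.powerset.filter (fun D => A ⊆ x.2.primeFactors ∪ D)).card ≤
            2 ^ l.primeFactorsList.length := by
          refine (Finset.card_filter_le _ _).trans ?_
          rw [Finset.card_powerset]
          exact Nat.pow_le_pow_right (by norm_num) (List.toFinset_card_le _)
        exact_mod_cast h1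
      have hlrough : Sys.rough k0 l := fun p hp hpl => hrough p hp (hpl.trans (Nat.div_dvd_of_dvd hxn))
      have hll : l < 2 ^ (k + 1) := (Nat.div_le_self _ _).trans_lt hnlt
      have hom := Sys.rough_omega_le hk01 hl0 hlrough hll
      have hom2 : (l.primeFactorsList.length : ℝ) ≤ 5 / 2 * S.tau * k := by
        refine hom.trans ?_
        rw [div_le_iff₀ hk0r]
        have h1 : (k : ℝ) + 1 ≤ 2 * k := by
          have : (1 : ℝ) ≤ k := by
            have : (1 : ℝ) ≤ k0 := by exact_mod_cast hk01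
            (clear * - hkr this; linarith)
          (clear * - this; linarith)
        have hk1 : (0 : ℝ) ≤ k := Nat.cast_nonneg k
        calc 5 * ((k : ℝ) + 1) ≤ 10 * k := by (clear * - h1; linarith)
          _ = 5 / 2 * 4 * k := by ring
          _ ≤ 5 / 2 * (S.tau * k0) * k := by (clear * - hk0t'; nlinarith)
          _ = 5 / 2 * S.tau * k * k0 := by ring
      have hpow : (2 : ℝ) ^ l.primeFactorsList.length ≤ (2 : ℝ) ^ (5 / 2 * S.tau * k) := by
        rw [← Real.rpow_natCast]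
        exact Real.rpow_le_rpow_of_exponent_le (by norm_num) hom2
      have hfin : (2 : ℝ) ^ l.primeFactorsList.length * (2 * (2 : ℝ) ^ (9 * S.tau * (k + 1)) *
          2 ^ l.primeFactorsList.length) ≤ (2 : ℝ) ^ (20 * S.tau * k) := by
        calc (2 : ℝ) ^ l.primeFactorsList.length * (2 * (2 : ℝ) ^ (9 * S.tau * (k + 1)) *
              2 ^ l.primeFactorsList.length)
            ≤ (2 : ℝ) ^ (5 / 2 * S.tau * k) * (2 * (2 : ℝ) ^ (9 * S.tau * (k + 1)) *
              (2 : ℝ) ^ (5 / 2 * S.tau * k)) := by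
              refine mul_le_mul hpow ?_ (by positivity) (by positivity)
              exact mul_le_mul_of_nonneg_left hpow (by positivity)
          _ = (2 : ℝ) ^ (5 / 2 * S.tau * k + (1 + 9 * S.tau * (k + 1) + 5 / 2 * S.tau * k)) := by
              rw [Real.rpow_add (by norm_num), Real.rpow_add (by norm_num) (1 + 9 * S.tau * (k + 1)),
                Real.rpow_add (by norm_num) (1 : ℝ), Real.rpow_one]
          _ ≤ (2 : ℝ) ^ (20 * S.tau * k) := by
              refine Real.rpow_le_rpow_of_exponent_le (by norm_num) ?_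
              have h1 : 4 ≤ S.tau * k := by (clear * - hk0t' ht hkr; nlinarith)
              have h2 : S.tau ≤ 1 / 100 := by
                have := S.tau_le_s
                have := S.s_lt
                norm_num at *
                linarith
              (clear * - ht h1 h2; nlinarith)
      calc (((l.primeFactors.powerset.filter (fun D => A ⊆ x.2.primeFactors ∪ D)).card : ℕ) : ℝ) *
            (2 * (2 : ℝ) ^ (9 * S.tau * (k + 1)) * (2 : ℝ) ^ ((S.s - 1) * k) * 2 ^ l.primeFactorsList.length *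
            tw S A x.2 l)
          ≤ 2 ^ l.primeFactorsList.length *
            (2 * (2 : ℝ) ^ (9 * S.tau * (k + 1)) * (2 : ℝ) ^ ((S.s - 1) * k) * 2 ^ l.primeFactorsList.length *
            tw S A x.2 l) := mul_le_mul_of_nonneg_right hcard (by positivity)
        _ = ((2 : ℝ) ^ l.primeFactorsList.length * (2 * (2 : ℝ) ^ (9 * S.tau * (k + 1)) *
              2 ^ l.primeFactorsList.length)) * ((2 : ℝ) ^ ((S.s - 1) * k) * tw S A x.2 l) := by ring
        _ ≤ (2 : ℝ) ^ (20 * S.tau * k) * ((2 : ℝ) ^ ((S.s - 1) * k) * tw S A x.2 l) :=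
            mul_le_mul_of_nonneg_right hfin (by (clear * - htw0; positivity))
        _ = _ := by ring
    · -- no D
      rw [Finset.sum_eq_zero]
      intro D hD
      rw [Finset.mem_filter, Finset.mem_powerset] at hD
      exact absurd (hD.2.trans (Finset.union_subset_union_right hD.1)) hA
  refine (Finset.sum_le_sum hinner).trans ?_
  rw [← Finset.sum_filter, Finset.filter_filter, Finset.mul_sum]
  refine le_of_eq (Finset.sum_congr ?_ fun _ _ => rfl)
  refine Finset.filter_congr fun x _ => ?_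
  simp only [and_assoc]

end Pool.Agent.M17.Helper18.KL
end

/- Helper53.KN.Helper62.KS.Cand -/
section
/-!
# Candidates of a cell and owners of a prime: conditional expectations (project KS, MP_768c9c_nt)

The random set `R` contains the prime `p ≥ P0` with probability `p ^ (-h)`.
-/

set_option autoImplicit false

open MeasureTheory

namespace Pool.Agent.M17.Helper62.KS

/-- multiples of `a` in an interval -/
theorem card_mult_le (a x E : ℕ) (ha : 0 < a) :
    (((Finset.Ico x (x + E)).filter (fun n => a ∣ n)).card : ℝ) ≤ E / a + 1 := by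
  have h1 : ((Finset.Ico x (x + E)).filter (fun n => a ∣ n)).card ≤ E / a + 1 := by
    have h2 : ((Finset.Ico x (x + E)).filter (fun n => a ∣ n)) ⊆
        (Finset.Ico ((x + a - 1) / a) ((x + a - 1) / a + (E / a + 1))).image (fun j => a * j) := by
      intro n hn
      rw [Finset.mem_filter, Finset.mem_Ico] at hn
      obtain ⟨⟨hn1, hn2⟩, j, rfl⟩ := hn
      rw [Finset.mem_image]
      refine ⟨j, ?_, rfl⟩
      rw [Finset.mem_Ico]
      constructor
      · rw [Nat.div_le_iff_le_mul_add_pred ha]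
        omega
      · have h3 : (x + a - 1) / a * a + (x + a - 1) % a = x + a - 1 := Nat.div_add_mod' _ _
        have h4 : (x + a - 1) % a < a := Nat.mod_lt _ ha
        have h5 : E / a * a + E % a = E := Nat.div_add_mod' _ _
        have h6 : E % a < a := Nat.mod_lt _ ha
        by_contra hcon
        push Not at hcon
        have h7 : ((x + a - 1) / a + (E / a + 1)) * a ≤ j * a := Nat.mul_le_mul_right a hcon
        have h8 : ((x + a - 1) / a + (E / a + 1)) * a =
            (x + a - 1) / a * a + (E / a * a + a) := by ring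
        have h9 : j * a = a * j := mul_comm _ _
        omega
    refine (Finset.card_le_card h2).trans (Finset.card_image_le.trans ?_)
    simp
  have h2 : ((E / a : ℕ) : ℝ) ≤ (E : ℝ) / a := Nat.cast_div_le
  calc (((Finset.Ico x (x + E)).filter (fun n => a ∣ n)).card : ℝ) ≤ ((E / a + 1 : ℕ) : ℝ) := by
        exact_mod_cast h1
    _ = ((E / a : ℕ) : ℝ) + 1 := by push_cast; rfl
    _ ≤ E / a + 1 := by linarith

/-! ### Owners of a prime -/

end Pool.Agent.M17.Helper62.KS
end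

/- Helper53.KN.Helper40.KS.Win -/
section
/-!
# Project KS (MP_768c9c_nt), design D5: upper bounds for the numbers of candidates in windows
-/

set_option autoImplicit false

open Filter Topology

namespace Pool.Agent.M17.Helper40.KS

open Pool.Agent.M17.Helper40.AV

open Classical in
/-- integers without small prime factors in a short window -/
theorem rough_up : ∃ C : ℝ, 0 < C ∧ ∃ K : ℕ, ∀ k : ℕ, K ≤ k → ∀ x h : ℕ,
    (2 : ℝ) ^ (0.38 * (k : ℝ)) ≤ h → ∀ T : Finset ℕ,
    (∀ n ∈ T, x ≤ n ∧ n < x + h ∧ ∀ p : ℕ, p.Prime → p ∣ n → (2 : ℝ) ^ (0.19 * (k : ℝ)) < p) →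
    (T.card : ℝ) ≤ C * (h / k) := by
  obtain ⟨z₁, hz₁⟩ := selUp'.1 2 (by norm_num) le_rfl 1 one_pos
  have hM := Pool.Agent.M17.Helper9.AV.mertens3
  set g := Real.exp Real.eulerMascheroniConstant with hg
  have hg0 : 0 < g := Real.exp_pos _
  have h1 := hM.eventually_lt_const
    (show Real.exp (-Real.eulerMascheroniConstant) < 1 by
      have := Pool.Agent.M17.Helper51.AV.gammaNum.2
      (clear * - this; linarith))
  obtain ⟨z₂, hz₂⟩ := eventually_atTop.1 h1
  have tz : Tendsto (fun k : ℕ => (2 : ℝ) ^ (0.19 * (k : ℝ))) atTop atTop := by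
    have : Tendsto (fun k : ℕ => 0.19 * (k : ℝ)) atTop atTop :=
      tendsto_natCast_atTop_atTop.const_mul_atTop (by norm_num)
    exact (tendsto_rpow_atTop_of_base_gt_one 2 (by norm_num)).comp this
  obtain ⟨K, hK⟩ := eventually_atTop.1 ((tz.eventually_ge_atTop z₁).and
    (tz.eventually_ge_atTop z₂))
  refine ⟨(2 * g / 2 + 1) * (1 / (0.19 * Real.log 2)), by positivity, max K 1, ?_⟩
  intro k hk x h hh T hT
  have hk1 : (1 : ℝ) ≤ k := by exact_mod_cast (le_max_right K 1).trans hk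
  have hk0 : (0 : ℝ) < k := by (clear * - hk1; linarith)
  obtain ⟨b1, b2⟩ := hK k ((le_max_left K 1).trans hk)
  set z := (2 : ℝ) ^ (0.19 * (k : ℝ)) with hz
  have hz0 : 0 < z := Real.rpow_pos_of_pos (by norm_num) _
  have hlz : Real.log z = 0.19 * Real.log 2 * k := by
    rw [hz, Real.log_rpow (by norm_num)]; ring
  have hl2 : 0 < Real.log 2 := Real.log_pos (by norm_num)
  have c1 := hz₁ z b1 x h (by
    rw [hz, ← Real.rpow_mul (by norm_num)]
    refine le_trans (le_of_eq ?_) hh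
    congr 1; ring)
  have c2 := hz₂ z b2
  have hVV : VV z ≤ 1 / (0.19 * Real.log 2 * k) := by
    rw [le_div_iff₀ (by (clear * - hk1; positivity))]
    rw [← hlz]
    exact c2.le
  have hsub : T ⊆ RS x h z := by
    intro n hn
    obtain ⟨d1, d2, d3⟩ := hT n hn
    unfold RS
    rw [Finset.mem_filter, Finset.mem_Ico]
    exact ⟨⟨d1, d2⟩, d3⟩
  have hcard : (T.card : ℝ) ≤ ((RS x h z).card : ℝ) := by exact_mod_cast Finset.card_le_card hsub
  calc (T.card : ℝ) ≤ _ := hcard
    _ ≤ (2 * g / 2 + 1) * h * VV z := c1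
    _ ≤ (2 * g / 2 + 1) * h * (1 / (0.19 * Real.log 2 * k)) :=
        mul_le_mul_of_nonneg_left hVV (by (clear * -; positivity))
    _ = _ := by field_simp

/-- products of two large primes in a short window -/
theorem pairs_rough : ∃ C : ℝ, 0 < C ∧ ∃ K : ℕ, ∀ k : ℕ, K ≤ k → ∀ x h : ℕ,
    (2 : ℝ) ^ (0.38 * (k : ℝ)) ≤ h → ∀ T : Finset (ℕ × ℕ),
    (∀ y ∈ T, y.1.Prime ∧ y.2.Prime ∧ (2 : ℝ) ^ (0.19 * (k : ℝ)) < y.1 ∧
      (2 : ℝ) ^ (0.19 * (k : ℝ)) < y.2 ∧ x ≤ y.1 * y.2 ∧ y.1 * y.2 < x + h) →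
    (T.card : ℝ) ≤ C * (h / k) := by
  classical
  obtain ⟨C, hC, K, H⟩ := rough_up
  refine ⟨2 * C, by positivity, K, fun k hk x h hh T hT => ?_⟩
  have h1 := H k hk x h hh (T.image fun y => y.1 * y.2) (by
    intro n hn
    obtain ⟨y, hy, rfl⟩ := Finset.mem_image.1 hn
    obtain ⟨a1, a2, a3, a4, a5, a6⟩ := hT y hy
    refine ⟨a5, a6, fun p hp hpd => ?_⟩
    rcases (Nat.Prime.dvd_mul hp).1 hpd with h | h
    · rw [(Nat.prime_dvd_prime_iff_eq hp a1).1 h]; exact a3
    · rw [(Nat.prime_dvd_prime_iff_eq hp a2).1 h]; exact a4)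
  have h2 : T.card ≤ 2 * (T.image fun y => y.1 * y.2).card := by
    refine Finset.card_le_mul_card_image T 2 ?_
    intro n hn
    obtain ⟨y, hy, hyn⟩ := Finset.mem_image.1 hn
    obtain ⟨a1, a2, a3, a4, a5, a6⟩ := hT y hy
    refine (Finset.card_le_card (t := {y, (y.2, y.1)}) ?_).trans Finset.card_le_two
    intro w hw
    rw [Finset.mem_filter] at hw
    obtain ⟨hw, hwn⟩ := hw
    obtain ⟨b1, b2, -, -, -, -⟩ := hT w hw
    rw [Finset.mem_insert, Finset.mem_singleton]
    have e : w.1 * w.2 = y.1 * y.2 := by rw [hwn, ← hyn]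
    have hd : w.1 ∣ y.1 * y.2 := ⟨w.2, e.symm⟩
    rcases (Nat.Prime.dvd_mul b1).1 hd with h | h
    · left
      have e1 := (Nat.prime_dvd_prime_iff_eq b1 a1).1 h
      rw [e1] at e
      exact Prod.ext e1 (Nat.eq_of_mul_eq_mul_left a1.pos e)
    · right
      have e1 := (Nat.prime_dvd_prime_iff_eq b1 a2).1 h
      rw [e1, mul_comm y.1 y.2] at e
      exact Prod.ext e1 (Nat.eq_of_mul_eq_mul_left a2.pos e)
  calc (T.card : ℝ) ≤ 2 * ((T.image fun y => y.1 * y.2).card : ℝ) := by exact_mod_cast h2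
    _ ≤ 2 * (C * (h / k)) := by (clear * - h1; linarith)
    _ = _ := by ring

/-- Brun-Titchmarsh for products `q m` of two primes, `m` in a dyadic interval -/
theorem pairs_bt {θ₁ θ₂ : ℝ} (h1 : 0 < θ₁) (h2 : θ₂ < 0.498) : ∃ C : ℝ, 0 < C ∧ ∃ K : ℕ,
    ∀ k : ℕ, K ≤ k → ∀ mu : ℕ, θ₁ * k ≤ mu → (mu : ℝ) ≤ θ₂ * k → ∀ x h : ℕ,
    (2 : ℝ) ^ (0.498 * (k : ℝ)) ≤ h → ∀ T : Finset (ℕ × ℕ),
    (∀ y ∈ T, y.1.Prime ∧ y.2.Prime ∧ 2 ^ mu < y.2 ∧ y.2 ≤ 2 * 2 ^ mu ∧
      x ≤ y.1 * y.2 ∧ y.1 * y.2 < x + h) →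
    (T.card : ℝ) ≤ C * (h / k ^ 2) := by
  classical
  obtain ⟨B, hB, hbt⟩ := Pool.Agent.M17.Helper15.KS.bt
  have hl2 : 0 < Real.log 2 := Real.log_pos (by norm_num)
  set ε := 0.498 - θ₂ with hε
  have hε0 : 0 < ε := by rw [hε]; (clear * - h2; linarith)
  obtain ⟨K1, hK1⟩ := exists_nat_gt (4 / ε)
  obtain ⟨K2, hK2⟩ := exists_nat_gt (2 / θ₁)
  set Q := B * (2 / (θ₁ * Real.log 2)) with hQ
  set P := B * 4 * (2 / (ε * Real.log 2)) with hP
  refine ⟨Q * P, by (clear * - hB h1 h2; positivity), max (max K1 K2) 1, ?_⟩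
  intro k hk mu hmu1 hmu2 x h hh T hT
  have hkK1 : (K1 : ℝ) ≤ k := by
    exact_mod_cast ((le_max_left K1 K2).trans (le_max_left _ 1)).trans hk
  have hkK2 : (K2 : ℝ) ≤ k := by
    exact_mod_cast ((le_max_right K1 K2).trans (le_max_left _ 1)).trans hk
  have hk1 : (1 : ℝ) ≤ k := by exact_mod_cast (le_max_right _ 1).trans hk
  have hk0 : (0 : ℝ) < k := by (clear * - hk1; linarith)
  have hεk : 4 < ε * k := by
    rw [div_lt_iff₀ hε0] at hK1
    (clear * - hK1 hε h2 hkK1; nlinarith)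
  have hθk : 2 < θ₁ * k := by
    rw [div_lt_iff₀ h1] at hK2
    (clear * - hK2 h1 hkK2; nlinarith)
  set M : ℕ := 2 ^ mu with hMdef
  have hM0 : 0 < M := by positivity
  have hMr : (M : ℝ) = (2 : ℝ) ^ (mu : ℝ) := by
    rw [hMdef]; push_cast; rw [Real.rpow_natCast]
  have hmu2' : (2 : ℝ) < mu := by (clear * - hmu1 hθk; linarith)
  have hM2 : 2 ≤ M := by
    have : (2 : ℝ) ≤ M := by
      rw [hMr]
      calc (2 : ℝ) = (2 : ℝ) ^ (1 : ℝ) := (Real.rpow_one 2).symm
        _ ≤ _ := Real.rpow_le_rpow_of_exponent_le (by norm_num) (by (clear * - hmu1 hθk; linarith))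
    exact_mod_cast this
  -- number of the `m`
  set PMs := (Finset.Ico (M + 1) (M + 1 + M)).filter Nat.Prime with hPMs
  have hPM : (PMs.card : ℝ) ≤ Q * M / k := by
    have b := hbt (M + 1) M hM2
    refine b.trans ?_
    have hlM : Real.log M = mu * Real.log 2 := by
      rw [hMr, Real.log_rpow (by norm_num)]
    have hlMpos : θ₁ * k * Real.log 2 / 2 ≤ Real.log M := by
      rw [hlM]
      have : θ₁ * k * Real.log 2 ≤ mu * Real.log 2 := mul_le_mul_of_nonneg_right hmu1 hl2.le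
      have h0 : 0 < θ₁ * k * Real.log 2 := by (clear * - h1 hk1; positivity)
      (clear * - this h0; linarith)
    have h0 : 0 < θ₁ * k * Real.log 2 / 2 := by positivity
    calc B * M / Real.log M ≤ B * M / (θ₁ * k * Real.log 2 / 2) :=
          div_le_div_of_nonneg_left (by positivity) h0 hlMpos
      _ = Q * M / k := by rw [hQ]; (clear * - hk1 h1 hM0 hB; field_simp)
  -- number of the `q` for given `m`
  have hfib : ∀ m ∈ PMs, ((T.filter fun y => y.2 = m).card : ℝ) ≤ P * (h / M) / k := by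
    intro m hm
    rw [hPMs, Finset.mem_filter, Finset.mem_Ico] at hm
    obtain ⟨⟨hm1, hm2⟩, hmp⟩ := hm
    have hm0 : 0 < m := hmp.pos
    set a := x / m with ha
    set L := h / m + 2 with hL
    have hL2 : 2 ≤ L := by rw [hL]; exact Nat.le_add_left 2 _
    have b := hbt a L hL2
    have hsub : (T.filter fun y => y.2 = m).card ≤ ((Finset.Ico a (a + L)).filter Nat.Prime).card := by
      refine Finset.card_le_card_of_injOn (fun y => y.1) ?_ ?_
      · intro y hy
        rw [Finset.mem_coe, Finset.mem_filter] at hy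
        obtain ⟨hyT, hym⟩ := hy
        obtain ⟨c1, c2, c3, c4, c5, c6⟩ := hT y hyT
        rw [hym] at c5 c6
        simp only [Finset.coe_filter, Finset.mem_Ico, Set.mem_ofPred_eq]
        refine ⟨⟨?_, ?_⟩, c1⟩
        · rw [ha]
          exact (Nat.div_le_div_right c5).trans (by rw [Nat.mul_div_cancel _ hm0])
        · rw [ha, hL]
          have e1 : y.1 ≤ (x + h) / m := by
            rw [Nat.le_div_iff_mul_le hm0]
            exact c6.le
          have e2 : (x + h) / m ≤ x / m + h / m + 1 := by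
            rw [Nat.add_div hm0]
            split_ifs <;> omega
          omega
      · intro y hy w hw hyw
        rw [Finset.mem_coe, Finset.mem_filter] at hy hw
        exact Prod.ext hyw (by rw [hy.2, hw.2])
    have hhm : (2 : ℝ) ^ (ε * k) / 2 ≤ (h : ℝ) / m := by
      have hmM : (m : ℝ) ≤ 2 * M := by
        have : m ≤ 2 * M := by omega
        exact_mod_cast this
      have hm0' : (0 : ℝ) < m := by exact_mod_cast hm0
      rw [le_div_iff₀ hm0']
      calc (2 : ℝ) ^ (ε * k) / 2 * m ≤ (2 : ℝ) ^ (ε * k) / 2 * (2 * M) :=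
            mul_le_mul_of_nonneg_left hmM (by positivity)
        _ = (2 : ℝ) ^ (ε * k) * (2 : ℝ) ^ (mu : ℝ) := by rw [hMr]; ring
        _ = (2 : ℝ) ^ (ε * k + mu) := by rw [← Real.rpow_add (by norm_num)]
        _ ≤ (2 : ℝ) ^ (0.498 * (k : ℝ)) := by
            apply Real.rpow_le_rpow_of_exponent_le (by norm_num)
            rw [hε]
            (clear * - hmu2; linarith)
        _ ≤ h := hh
    have hLlow : (h : ℝ) / m ≤ L := by
      rw [hL]; push_cast
      have := Nat.lt_div_mul_add hm0 (a := h)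
      have hm0' : (0 : ℝ) < m := by exact_mod_cast hm0
      rw [div_le_iff₀ hm0']
      have h3 : (h : ℝ) < (h / m : ℕ) * m + m := by exact_mod_cast this
      (clear * - hm0' h3; nlinarith)
    have hbig : (2 : ℝ) ≤ (2 : ℝ) ^ (ε * k) / 2 := by
      rw [le_div_iff₀ (by norm_num)]
      calc (2 : ℝ) * 2 = (2 : ℝ) ^ (2 : ℝ) := by norm_num
        _ ≤ _ := Real.rpow_le_rpow_of_exponent_le (by norm_num) (by (clear * - hεk; linarith))
    have hLup : (L : ℝ) ≤ 2 * (h / m) := by
      rw [hL]; push_cast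
      have h3 : ((h / m : ℕ) : ℝ) ≤ (h : ℝ) / m := Nat.cast_div_le
      (clear * - hhm hbig h3; linarith)
    have hLM : (L : ℝ) ≤ 2 * (h / M) := by
      refine hLup.trans ?_
      have hMm : (M : ℝ) ≤ m := by exact_mod_cast (by omega : M ≤ m)
      have hM0' : (0 : ℝ) < M := by exact_mod_cast hM0
      have : (h : ℝ) / m ≤ h / M := div_le_div_of_nonneg_left (by (clear * -; positivity)) hM0' hMm
      (clear * - this; linarith)
    have hlog : ε * k * Real.log 2 / 2 ≤ Real.log L := by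
      have h4 : (2 : ℝ) ^ (ε * k) / 2 ≤ L := hhm.trans hLlow
      have h5 : Real.log ((2 : ℝ) ^ (ε * k) / 2) ≤ Real.log L :=
        Real.log_le_log (by positivity) h4
      rw [Real.log_div (by positivity) (by norm_num), Real.log_rpow (by norm_num)] at h5
      (clear * - hl2 h5 hεk; nlinarith)
    have h0 : 0 < ε * k * Real.log 2 / 2 := by (clear * - h2 hk1; positivity)
    calc ((T.filter fun y => y.2 = m).card : ℝ) ≤
          (((Finset.Ico a (a + L)).filter Nat.Prime).card : ℝ) := by exact_mod_cast hsub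
      _ ≤ B * L / Real.log L := b
      _ ≤ B * (2 * (h / M)) / (ε * k * Real.log 2 / 2) := by
          apply div_le_div₀ (by (clear * - hB; positivity)) _ h0 hlog
          exact mul_le_mul_of_nonneg_left hLM hB.le
      _ ≤ P * (h / M) / k := by
          rw [hP]
          have hM0' : (0 : ℝ) < M := by exact_mod_cast hM0
          rw [div_le_div_iff₀ h0 hk0]
          have : B * 4 * (2 / (ε * Real.log 2)) * (↑h / ↑M) * (ε * ↑k * Real.log 2 / 2) =
            B * 4 * (h / M) * k := by (clear * - hε0 hk1 hM0 hB; field_simp)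
          rw [this]
          have h6 : 0 ≤ (h : ℝ) / M := by (clear * -; positivity)
          (clear * - hB h6 hk0; nlinarith [mul_nonneg (mul_nonneg hB.le h6) hk0.le])
  have hsplit : T.card = ∑ m ∈ PMs, (T.filter fun y => y.2 = m).card := by
    apply Finset.card_eq_sum_card_fiberwise
    intro y hy
    obtain ⟨c1, c2, c3, c4, c5, c6⟩ := hT y hy
    rw [hPMs, Finset.coe_filter, Set.mem_ofPred_eq, Finset.mem_Ico]
    refine ⟨⟨?_, ?_⟩, c2⟩
    · rw [hMdef]; omega
    · rw [hMdef]; omega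
  have hM0' : (0 : ℝ) < M := by exact_mod_cast hM0
  calc (T.card : ℝ) = ∑ m ∈ PMs, ((T.filter fun y => y.2 = m).card : ℝ) := by
        rw [hsplit]; push_cast; rfl
    _ ≤ ∑ m ∈ PMs, P * (h / M) / k := Finset.sum_le_sum hfib
    _ = PMs.card * (P * (h / M) / k) := by rw [Finset.sum_const, nsmul_eq_mul]
    _ ≤ (Q * M / k) * (P * (h / M) / k) :=
        mul_le_mul_of_nonneg_right hPM (by (clear * - hB h2 hk1; positivity))
    _ = Q * P * (h / k ^ 2) := by (clear * - hM0 hk1; field_simp)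

end Pool.Agent.M17.Helper40.KS
end
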