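import Mathlib
import Pool.Agent.Helper53.KM.G01
import Pool.Agent.Helper53.KM.G03
import Pool.Agent.Helper53.KM.G04
import Pool.Agent.Helper53.KM.G11
import Pool.Agent.Helper53.KM.G18
import Pool.Agent.Helper53.KM.G19
import Pool.Agent.Helper53.KM.G20
import Pool.Agent.Helper53.KM.G26
import Pool.Agent.Helper53.KM.G29

/- Helper53.KN.Helper16.KS.Last -/
section
/-!
# Project KS: the decay of the partial sums (Prop `Last`)
-/

set_option autoImplicit false
open scoped Classical

namespace Pool.Agent.M17.Helper16.KS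

namespace Sys

variable (S : Sys)

/-- the first `J` cells of a block -/
theorem sum_cells (f : ℕ → ℝ) (k J : ℕ) :
    ∑ n ∈ Finset.Ico (2 ^ k) (2 ^ k + J * 2 ^ ec S.d k), f n =
      ∑ j ∈ Finset.range J, ∑ n ∈ cell S.d k j, f n := by
  induction J with
  | zero => simp
  | succ J ih =>
    rw [Finset.sum_range_succ, ← ih]
    unfold cell
    rw [Finset.sum_Ico_consecutive]
    · exact Nat.le_add_right _ _
    · exact Nat.add_le_add_left (Nat.mul_le_mul_right _ (Nat.le_succ J)) _

theorem nc_mul (k : ℕ) : nc S.d k * 2 ^ ec S.d k = 2 ^ k := by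
  unfold nc
  rw [← pow_add, Nat.sub_add_cancel (ec_le S.d S.d_pos k)]

theorem sum_block (f : ℕ → ℝ) (k : ℕ) :
    ∑ n ∈ Finset.Ico (2 ^ k) (2 ^ (k + 1)), f n =
      ∑ j ∈ Finset.range (nc S.d k), ∑ n ∈ cell S.d k j, f n := by
  rw [← S.sum_cells f k (nc S.d k), S.nc_mul]
  congr 2
  ring

theorem sum_blocks_zero (f : ℕ → ℝ) (k0 : ℕ) (h0 : ∑ n ∈ Finset.Ico 1 (2 ^ k0), f n = 0)
    (h : ∀ k, k0 ≤ k → ∀ j < nc S.d k, ∑ n ∈ cell S.d k j, f n = 0) (k : ℕ) (hk : k0 ≤ k) :
    ∑ n ∈ Finset.Ico 1 (2 ^ k), f n = 0 := by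
  induction k, hk using Nat.le_induction with
  | base => exact h0
  | succ k hk ih =>
    rw [← Finset.sum_Ico_consecutive f (m := 1) (n := 2 ^ k) (k := 2 ^ (k + 1))
      Nat.one_le_two_pow (Nat.pow_le_pow_right (by norm_num) (Nat.le_succ k)), ih, S.sum_block]
    rw [Finset.sum_eq_zero fun j hj => h k hk j (Finset.mem_range.mp hj)]
    simp

/-- `|fp| ≤ Wp` -/
theorem abs_fp_le (k0 : ℕ) (R : Set ℕ) (t : ℕ × ℕ → ℝ) (ht : ∀ i, |t i| ≤ 1) (p : ℕ) :
    |S.fp k0 R t p| ≤ S.Wp k0 R p := by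
  have h1 := S.bR_nonneg R p
  have h2 := S.ordw_nonneg k0 p
  have h3 : |t (S.cix k0 p) * S.ordw k0 p| ≤ S.ordw k0 p := by
    rw [abs_mul, abs_of_nonneg h2]
    calc |t (S.cix k0 p)| * S.ordw k0 p ≤ 1 * S.ordw k0 p :=
          mul_le_mul_of_nonneg_right (ht _) h2
      _ = _ := one_mul _
  have h4 : |∑ k ∈ Finset.Ico k0 (top p), ∑ j ∈ S.badc k, t (k, j) * S.cw R k j p| ≤
      S.ctl k0 (top p) R p := by
    unfold ctl
    refine (Finset.abs_sum_le_sum_abs _ _).trans (Finset.sum_le_sum fun k _ => ?_)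
    refine (Finset.abs_sum_le_sum_abs _ _).trans (Finset.sum_le_sum fun j _ => ?_)
    have h5 := S.cw_nonneg R k j p
    rw [abs_mul, abs_of_nonneg h5]
    calc |t (k, j)| * S.cw R k j p ≤ 1 * S.cw R k j p := mul_le_mul_of_nonneg_right (ht _) h5
      _ = _ := one_mul _
  have h5 := S.ctl_nonneg k0 (top p) R p
  unfold fp Wp
  refine (abs_add_le _ _).trans ((add_le_add (abs_add_le _ _) le_rfl).trans ?_)
  rw [abs_of_nonneg h1]
  (clear * - h2 h3 h4 h5; linarith)

theorem abs_ft_le (k0 : ℕ) (R : Set ℕ) (t : ℕ × ℕ → ℝ) (ht : ∀ i, |t i| ≤ 1) (n : ℕ) :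
    |S.ft k0 R t n| ≤ S.W k0 R n := by
  unfold ft W
  rw [abs_CM]
  exact CM_mono (fun p _ _ => abs_nonneg _) (fun p _ _ => S.abs_fp_le k0 R t ht p)

theorem G_le (k : ℕ) (hk : 1 ≤ k) : S.G k ≤ (2 : ℝ) ^ (-(1/2 + S.d / 2) * k) := by
  have hd := S.d_pos
  have h1 : (2 : ℝ) ^ ec S.d k ≤ (2 : ℝ) ^ ((k : ℝ) * (1/2 - S.d)) := by
    rw [← Real.rpow_natCast]
    refine Real.rpow_le_rpow_of_exponent_le (by norm_num) ?_
    unfold ec
    refine Nat.floor_le (mul_nonneg (Nat.cast_nonneg _) ?_)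
    have := S.d_le'
    norm_num at this ⊢
    linarith
  have h2 : (1 : ℝ) ≤ (k : ℝ) ^ 4 := one_le_pow₀ (by exact_mod_cast hk)
  have h3 : S.G k ≤ 2 ^ ec S.d k * (2 : ℝ) ^ ((S.s - 1) * k) := by
    unfold G
    exact div_le_self (by positivity) h2
  refine h3.trans ?_
  calc (2 : ℝ) ^ ec S.d k * (2 : ℝ) ^ ((S.s - 1) * k)
      ≤ (2 : ℝ) ^ ((k : ℝ) * (1/2 - S.d)) * (2 : ℝ) ^ ((S.s - 1) * k) :=
        mul_le_mul_of_nonneg_right h1 (by positivity)
    _ = (2 : ℝ) ^ (-(1/2 + S.d / 2) * k) := by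
        rw [← Real.rpow_add (by norm_num), S.s_eq]
        congr 1
        ring

end Sys

theorem last : Last := by
  intro S k0 hk0 R _ _ hstar t ht h0 hcell
  have hd := S.d_pos
  set e : ℝ := 1/2 + S.d / 2 with he
  have he0 : 0 < e := by rw [he]; (clear * - hd; linarith)
  set C0 : ℝ := ∑ n ∈ Finset.Ico 1 (2 ^ k0), S.W k0 R n with hC0
  have hC00 : 0 ≤ C0 := Finset.sum_nonneg fun n _ => S.W_nonneg _ _ _
  refine ⟨C0 * (2 : ℝ) ^ (e * k0) + (2 + 1/4) * (2 : ℝ) ^ e, fun N hN => ?_⟩
  have hNr : (0 : ℝ) < N := by exact_mod_cast hN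
  have hNe : 0 < (N : ℝ) ^ (-e) := Real.rpow_pos_of_pos hNr _
  rw [add_mul]
  by_cases hlt : N < 2 ^ k0
  · -- small `N`
    have h1 : |∑ n ∈ Finset.Icc 1 N, S.ft k0 R t n| ≤ C0 := by
      refine (Finset.abs_sum_le_sum_abs _ _).trans ?_
      refine (Finset.sum_le_sum fun n _ => S.abs_ft_le k0 R t ht n).trans ?_
      refine Finset.sum_le_sum_of_subset_of_nonneg ?_ fun n _ _ => S.W_nonneg _ _ _
      intro n hn
      rw [Finset.mem_Icc] at hn
      rw [Finset.mem_Ico]
      omega
    have h2 : (1 : ℝ) ≤ (2 : ℝ) ^ (e * k0) * (N : ℝ) ^ (-e) := by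
      have h3 : (N : ℝ) ≤ (2 : ℝ) ^ (k0 : ℝ) := by
        rw [Real.rpow_natCast]
        exact_mod_cast hlt.le
      have h4 : (N : ℝ) ^ e ≤ (2 : ℝ) ^ (e * k0) := by
        refine (Real.rpow_le_rpow hNr.le h3 he0.le).trans ?_
        rw [← Real.rpow_mul (by norm_num), mul_comm]
      rw [Real.rpow_neg hNr.le, ← div_eq_mul_inv, le_div_iff₀ (Real.rpow_pos_of_pos hNr _), one_mul]
      exact h4
    have h5 : C0 ≤ C0 * (2 : ℝ) ^ (e * k0) * (N : ℝ) ^ (-e) := by
      rw [mul_assoc]
      exact le_mul_of_one_le_right hC00 h2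
    have h6 : 0 ≤ (2 + 1/4) * (2 : ℝ) ^ e * (N : ℝ) ^ (-e) := by (clear * - hN; positivity)
    (clear * - h1 h5 h6; linarith)
  · rw [not_lt] at hlt
    have hN0 : N ≠ 0 := by omega
    set k := Nat.log 2 N with hk
    have hkk : k0 ≤ k := Nat.le_log_of_pow_le (by norm_num) hlt
    have hk1 : 1 ≤ k := by omega
    set j := S.idx N with hj
    have hjlt : j < nc S.d k := S.idx_lt N
    have hmem : N ∈ cell S.d k j := S.mem_cell_idx hN0
    rw [mem_cell] at hmem
    -- decomposition
    have h1 : ∑ n ∈ Finset.Icc 1 N, S.ft k0 R t n =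
        ∑ n ∈ Finset.Ico (2 ^ k + j * 2 ^ ec S.d k) (N + 1), S.ft k0 R t n := by
      have h2 : Finset.Icc 1 N = Finset.Ico 1 (N + 1) := by
        ext x
        rw [Finset.mem_Icc, Finset.mem_Ico]
        omega
      rw [h2, ← Finset.sum_Ico_consecutive (S.ft k0 R t) (m := 1) (n := 2 ^ k) (k := N + 1)
        Nat.one_le_two_pow (by omega), S.sum_blocks_zero _ k0 h0 hcell k hkk, zero_add,
        ← Finset.sum_Ico_consecutive (S.ft k0 R t) (m := 2 ^ k) (n := 2 ^ k + j * 2 ^ ec S.d k)
        (k := N + 1) (Nat.le_add_right _ _) (by omega), S.sum_cells,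
        Finset.sum_eq_zero fun i hi => hcell k hkk i ((Finset.mem_range.mp hi).trans hjlt), zero_add]
    have h3 : |∑ n ∈ Finset.Icc 1 N, S.ft k0 R t n| ≤ (2 + 1/4) * S.G k := by
      rw [h1]
      refine (Finset.abs_sum_le_sum_abs _ _).trans ?_
      refine (Finset.sum_le_sum fun n _ => S.abs_ft_le k0 R t ht n).trans ?_
      refine le_trans ?_ (hstar.2 k hkk j hjlt)
      refine Finset.sum_le_sum_of_subset_of_nonneg ?_ fun n _ _ => S.W_nonneg _ _ _
      intro n hn
      rw [Finset.mem_Ico] at hn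
      rw [mem_cell]
      omega
    have h4 : S.G k ≤ (2 : ℝ) ^ e * (N : ℝ) ^ (-e) := by
      refine (S.G_le k hk1).trans ?_
      have h5 : (N : ℝ) ≤ (2 : ℝ) ^ ((k : ℝ) + 1) := by
        have h6 : N < 2 ^ (k + 1) := Nat.lt_pow_succ_log_self (by norm_num) N
        have h7 : (2 : ℝ) ^ ((k : ℝ) + 1) = ((2 ^ (k + 1) : ℕ) : ℝ) := by
          push_cast
          rw [← Real.rpow_natCast]
          push_cast
          rfl
        rw [h7]
        exact_mod_cast h6.le
      have h8 : (N : ℝ) ^ e ≤ (2 : ℝ) ^ (e * ((k : ℝ) + 1)) := by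
        refine (Real.rpow_le_rpow hNr.le h5 he0.le).trans ?_
        rw [← Real.rpow_mul (by norm_num), mul_comm]
      rw [Real.rpow_neg hNr.le, ← div_eq_mul_inv, le_div_iff₀ (Real.rpow_pos_of_pos hNr _)]
      calc (2 : ℝ) ^ (-e * k) * (N : ℝ) ^ e ≤ (2 : ℝ) ^ (-e * k) * (2 : ℝ) ^ (e * ((k : ℝ) + 1)) :=
            mul_le_mul_of_nonneg_left h8 (by positivity)
        _ = (2 : ℝ) ^ e := by
            rw [← Real.rpow_add (by norm_num)]
            congr 1
            ring
    have h9 : 0 ≤ C0 * (2 : ℝ) ^ (e * k0) * (N : ℝ) ^ (-e) := by (clear * - hC00 hN; positivity)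
    calc |∑ n ∈ Finset.Icc 1 N, S.ft k0 R t n| ≤ (2 + 1/4) * S.G k := h3
      _ ≤ (2 + 1/4) * ((2 : ℝ) ^ e * (N : ℝ) ^ (-e)) :=
          mul_le_mul_of_nonneg_left h4 (by norm_num)
      _ ≤ _ := by
          rw [← mul_assoc]
          (clear * - h9; linarith)

end Pool.Agent.M17.Helper16.KS
end

/- Helper53.KN.Helper5.AV.StepLo -/
section
/-! Project AV part 2 (KS, MP_768c9c_nt), module LS4: the Buchstab step for lower bounds. -/

set_option autoImplicit false

open Filter Topology

namespace Pool.Agent.M17.Helper5.AV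

open Pool.Agent.M17.Helper40.AV

theorem band_up {t F ε' Z a b : ℝ} {y l : ℕ} (ht : 1 < t) (hε' : 0 ≤ ε')
    (hU : ∀ z : ℝ, Z ≤ z → ∀ y l : ℕ, z ^ (t - 1) ≤ l → ((RS y l z).card : ℝ) ≤ (F + ε') * l * VV z)
    (ha1 : 1 ≤ a) (hab : a ≤ b) (hZ : Z ≤ a - 1 / 2) (hbl : b ^ t ≤ l) :
    ∑ p ∈ PI a b, NP y l p ≤ (F + ε') * l * (VV a - VV b) + (|F| + ε') * b := by
  have hb0 : 0 ≤ b := by (clear * - ha1 hab; linarith)
  have hterm : ∀ p ∈ PI a b, NP y l p ≤
      (F + ε') * l * (VV ((p : ℝ) - 1 / 2) / p) + (|F| + ε') := by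
    intro p hp
    obtain ⟨hpp, hpa, hpb⟩ := (mem_PI hb0).1 hp
    have hp0 : (0 : ℝ) < p := by exact_mod_cast hpp.pos
    have hl1 : (l : ℝ) / p ≤ ((l / p + 1 : ℕ) : ℝ) := by
      rw [div_le_iff₀ hp0]
      have h1 := Nat.div_add_mod l p
      have h2 := Nat.mod_lt l hpp.pos
      have h3 : l ≤ (l / p + 1) * p := by
        rw [Nat.add_mul, Nat.one_mul, Nat.mul_comm (l / p) p]
        omega
      exact_mod_cast h3
    have hl2 : ((l / p + 1 : ℕ) : ℝ) ≤ (l : ℝ) / p + 1 := by
      push_cast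
      have := Nat.cast_div_le (α := ℝ) (m := l) (n := p)
      (clear * - this; linarith)
    have hcond : ((p : ℝ) - 1 / 2) ^ (t - 1) ≤ ((l / p + 1 : ℕ) : ℝ) := by
      have h1 : ((p : ℝ) - 1 / 2) ^ (t - 1) ≤ (p : ℝ) ^ (t - 1) :=
        Real.rpow_le_rpow (by (clear * - ha1 hpa; linarith)) (by (clear * -; linarith)) (by (clear * - ht; linarith))
      have h2 : (p : ℝ) ^ (t - 1) ≤ (l : ℝ) / p := by
        rw [le_div_iff₀ hp0]
        calc (p : ℝ) ^ (t - 1) * p = (p : ℝ) ^ (t - 1) * (p : ℝ) ^ (1 : ℝ) := by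
              rw [Real.rpow_one]
          _ = (p : ℝ) ^ t := by
              rw [← Real.rpow_add hp0]
              congr 1
              ring
          _ ≤ b ^ t := Real.rpow_le_rpow hp0.le hpb (by (clear * - ht; linarith))
          _ ≤ l := hbl
      exact h1.trans (h2.trans hl1)
    have h3 := (NP_le y l p hpp).trans (hU ((p : ℝ) - 1 / 2) (by linarith) _ _ hcond)
    have hV0 := vv_pos ((p : ℝ) - 1 / 2)
    have hV1 := vv_le_one ((p : ℝ) - 1 / 2)
    have h4 : (F + ε') * ((l / p + 1 : ℕ) : ℝ) * VV ((p : ℝ) - 1 / 2) =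
        (F + ε') * l * (VV ((p : ℝ) - 1 / 2) / p) +
          (F + ε') * ((((l / p + 1 : ℕ) : ℝ) - l / p) * VV ((p : ℝ) - 1 / 2)) := by
      field_simp
      ring
    have h5 : (F + ε') * ((((l / p + 1 : ℕ) : ℝ) - l / p) * VV ((p : ℝ) - 1 / 2)) ≤
        |F| + ε' := by
      have h6 : 0 ≤ (((l / p + 1 : ℕ) : ℝ) - l / p) * VV ((p : ℝ) - 1 / 2) :=
        mul_nonneg (by (clear * - hl1; linarith)) hV0.le
      have h7 : (((l / p + 1 : ℕ) : ℝ) - l / p) * VV ((p : ℝ) - 1 / 2) ≤ 1 := by
        calc _ ≤ (1 : ℝ) * 1 := mul_le_mul (by (clear * - hl2; linarith)) hV1 hV0.le (by norm_num)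
          _ = 1 := one_mul 1
      calc (F + ε') * ((((l / p + 1 : ℕ) : ℝ) - l / p) * VV ((p : ℝ) - 1 / 2))
          ≤ (|F| + ε') * ((((l / p + 1 : ℕ) : ℝ) - l / p) * VV ((p : ℝ) - 1 / 2)) := by
            apply mul_le_mul_of_nonneg_right _ h6
            (clear * -; linarith [le_abs_self F])
        _ ≤ (|F| + ε') * 1 := by
            apply mul_le_mul_of_nonneg_left h7
            (clear * - hε'; positivity)
        _ = |F| + ε' := mul_one _
    rw [h4] at h3
    (clear * - h3 h5; linarith)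
  have htel := Pool.Agent.M17.Helper14.AV.telescope a b ha1 hab
  calc ∑ p ∈ PI a b, NP y l p
      ≤ ∑ p ∈ PI a b, ((F + ε') * l * (VV ((p : ℝ) - 1 / 2) / p) + (|F| + ε')) :=
        Finset.sum_le_sum hterm
    _ = (F + ε') * l * (VV a - VV b) + (PI a b).card * (|F| + ε') := by
        rw [Finset.sum_add_distrib, ← Finset.mul_sum, ← htel, Finset.sum_const, nsmul_eq_mul]
    _ ≤ (F + ε') * l * (VV a - VV b) + (|F| + ε') * b := by
        have h1 := card_PI_le (a := a) hb0
        have h2 : ((PI a b).card : ℝ) * (|F| + ε') ≤ b * (|F| + ε') :=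
          mul_le_mul_of_nonneg_right h1 (by (clear * - hε'; positivity))
        (clear * - h2; linarith)

theorem buch (y l : ℕ) {w z : ℝ} (hw : 1 ≤ w) (hwz : w ≤ z) :
    ((RS y l w).card : ℝ) ≤ (RS y l z).card + ∑ p ∈ PI w z, NP y l p := by
  refine (Pool.Agent.M17.Helper14.AV.buchstab y l w z hw hwz).trans_eq ?_
  congr 1
  refine Finset.sum_congr rfl fun p _ => ?_
  unfold NP
  congr!

theorem stepLo (hM : Mertens3) : StepLo := by
  intro s T g n t F hs ht0 htn hlt hU hL ε hε
  have hmono : ∀ j ≤ n, ∀ i ≤ j, t i ≤ t j := by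
    intro j
    induction j with
    | zero =>
      intro _ i hi
      rw [Nat.le_zero.1 hi]
    | succ j ih =>
      intro hj i hi
      rcases Nat.lt_or_ge i (j + 1) with h | h
      · exact (ih (by omega) i (by omega)).trans (hlt j (by omega)).le
      · have : i = j + 1 := by omega
        rw [this]
  have hsi : ∀ i ≤ n, s ≤ t i := fun i hi => ht0 ▸ hmono i hi 0 (Nat.zero_le i)
  have hTi : ∀ i ≤ n, t i ≤ T := fun i hi => htn ▸ hmono n le_rfl i hi
  have hsT : s ≤ T := htn ▸ hsi n le_rfl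
  have hs0 : 0 < s := by (clear * - hs; linarith)
  have hT0 : 0 < T := by linarith
  obtain ⟨ε', hε'def⟩ : ∃ ε' : ℝ, ε' = ε / (8 * (T / s + 1)) := ⟨_, rfl⟩
  have hε' : 0 < ε' := by rw [hε'def]; (clear * - hε hT0 hs; positivity)
  have hεT : ε' * (T / s) ≤ ε / 8 := by
    rw [hε'def, div_mul_eq_mul_div, div_le_iff₀ (by positivity)]
    have : 0 ≤ T / s := by positivity
    (clear * - hε; nlinarith)
  have hex : ∀ i, ∃ Z : ℝ, i < n → ∀ z : ℝ, Z ≤ z → ∀ y l : ℕ, z ^ (t i - 1) ≤ l →
      ((RS y l z).card : ℝ) ≤ (F i + ε') * l * VV z := by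
    intro i
    by_cases hi : i < n
    · obtain ⟨Z, hZ⟩ := hU i hi ε' hε'
      exact ⟨Z, fun _ => hZ⟩
    · exact ⟨0, fun h => absurd h hi⟩
  choose Z hZ using hex
  obtain ⟨ZL, hZL⟩ := hL ε' hε'
  obtain ⟨Zm, hZmdef⟩ : ∃ Zm : ℝ, Zm = ∑ i ∈ Finset.range n, |Z i| := ⟨_, rfl⟩
  have hZm : ∀ i < n, Z i ≤ Zm := by
    intro i hi
    rw [hZmdef]
    exact (le_abs_self _).trans (Finset.single_le_sum (f := fun i => |Z i|)
      (fun j _ => abs_nonneg _) (Finset.mem_range.2 hi))
  obtain ⟨K, hKdef⟩ : ∃ K : ℝ, K = ∑ i ∈ Finset.range n, (|F i| + ε') := ⟨_, rfl⟩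
  have hK0 : 0 ≤ K := by
    rw [hKdef]
    exact Finset.sum_nonneg fun i _ => by (clear * - hε'; positivity)
  obtain ⟨c, C, hc, _, hMP⟩ := Pool.Agent.M17.Helper44.mertens_prod
  obtain ⟨f, hf⟩ : ∃ f : ℝ, f = T / s * g - 1 / s * ∑ i ∈ Finset.range n, (t (i + 1) - t i) * F i :=
    ⟨_, rfl⟩
  rw [← hf]
  -- eventual facts
  have hsTpos : 0 < s / T := by positivity
  have e1 : ∀ᶠ z : ℝ in atTop, 1 < z := eventually_gt_atTop 1
  have e2 : ∀ᶠ z : ℝ in atTop, max ZL (Zm + 1) ≤ z ^ (s / T) :=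
    (tendsto_rpow_top hsTpos).eventually_ge_atTop _
  have hlim : Tendsto (fun z : ℝ => (g - ε') * (VV (z ^ (s / T)) / VV z) -
      ∑ i ∈ Finset.range n, (F i + ε') * (VV (z ^ (s / t (i + 1))) / VV z -
        VV (z ^ (s / t i)) / VV z)) atTop
      (𝓝 ((g - ε') * (T / s) - ∑ i ∈ Finset.range n, (F i + ε') * (t (i + 1) / s - t i / s))) := by
    refine ((ratio_tendsto hM hs0 hT0).const_mul _).sub (tendsto_finsetSum _ fun i hi => ?_)
    have hi' := Finset.mem_range.1 hi
    refine Tendsto.const_mul _ ?_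
    exact (ratio_tendsto hM hs0 (hs0.trans_le (hsi (i + 1) (by omega)))).sub
      (ratio_tendsto hM hs0 (hs0.trans_le (hsi i (by omega))))
  have hlimval : f - ε / 4 ≤
      (g - ε') * (T / s) - ∑ i ∈ Finset.range n, (F i + ε') * (t (i + 1) / s - t i / s) := by
    have h1 : ∑ i ∈ Finset.range n, (F i + ε') * (t (i + 1) / s - t i / s) =
        1 / s * ∑ i ∈ Finset.range n, (t (i + 1) - t i) * F i + ε' * ((T - s) / s) := by
      have h2 : ∑ i ∈ Finset.range n, (t (i + 1) - t i) = T - s := by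
        rw [Finset.sum_range_sub, ht0, htn]
      rw [← h2, Finset.sum_div, Finset.mul_sum, Finset.mul_sum, ← Finset.sum_add_distrib]
      refine Finset.sum_congr rfl fun i _ => ?_
      field_simp
    rw [h1, hf]
    have h3 : ε' * ((T - s) / s) ≤ ε' * (T / s) := by
      apply mul_le_mul_of_nonneg_left _ hε'.le
      apply div_le_div_of_nonneg_right (by (clear * - hs; linarith)) hs0.le
    (clear * - hεT h3; nlinarith)
  have e3 := hlim.eventually_const_lt (show f - ε / 2 < _ by (clear * - hε hlimval; linarith))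
  have e4 : ∀ᶠ z : ℝ in atTop, Real.log z ≤ (ε * c / (4 * (K + 1))) * z ^ (s - 1) := by
    have h1 := (isLittleO_log_rpow_atTop (show 0 < s - 1 by (clear * - hs; linarith))).bound
      (show (0 : ℝ) < ε * c / (4 * (K + 1)) by (clear * - hε hc hK0; positivity))
    filter_upwards [h1, eventually_ge_atTop (1 : ℝ)] with z hz hz1
    rw [Real.norm_of_nonneg (Real.log_nonneg hz1),
      Real.norm_of_nonneg (Real.rpow_nonneg (by (clear * - hz1; linarith)) _)] at hz
    exact hz
  obtain ⟨z₀, hz₀⟩ := eventually_atTop.1 (e1.and (e2.and (e3.and (e4.and (eventually_ge_atTop 2)))))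
  refine ⟨z₀, fun z hz y l hl => ?_⟩
  obtain ⟨h1, h2, h3, h4, h5⟩ := hz₀ z hz
  have hz0 : 0 < z := by (clear * - h1; linarith)
  have hLz : 0 < Real.log z := Real.log_pos h1
  have hV := vv_pos z
  have hl0 : (0 : ℝ) ≤ l := Nat.cast_nonneg l
  obtain ⟨w, hw⟩ : ∃ w : ℕ → ℝ, w = fun i => z ^ (s / t i) := ⟨_, rfl⟩
  have hw0 : w 0 = z := by
    rw [hw]
    simp only [ht0, div_self hs0.ne', Real.rpow_one]
  have hwn : w n = z ^ (s / T) := by
    rw [hw]
    simp only [htn]
  have hwpos : ∀ i, 0 < w i := fun i => by rw [hw]; exact Real.rpow_pos_of_pos hz0 _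
  have hwlt : ∀ i < n, w (i + 1) ≤ w i := by
    intro i hi
    rw [hw]
    apply Real.rpow_le_rpow_of_exponent_le h1.le
    exact div_le_div_of_nonneg_left hs0.le (hs0.trans_le (hsi i hi.le)) (hlt i hi).le
  have hwge : ∀ i ≤ n, w n ≤ w i := by
    intro i hi
    rw [hw]
    apply Real.rpow_le_rpow_of_exponent_le h1.le
    exact div_le_div_of_nonneg_left hs0.le (hs0.trans_le (hsi i hi)) (hmono n le_rfl i hi)
  have hwle : ∀ i ≤ n, w i ≤ z := by
    intro i hi
    rw [← hw0]
    rw [hw]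
    apply Real.rpow_le_rpow_of_exponent_le h1.le
    rw [ht0]
    exact div_le_div_of_nonneg_left hs0.le hs0 (hsi i hi)
  have hwn1 : 1 ≤ w n := by
    rw [hwn]
    exact Real.one_le_rpow h1.le hsTpos.le
  have hwnZ : Zm + 1 ≤ w n := by
    rw [hwn]
    exact (le_max_right _ _).trans h2
  have hlow := hZL (w n) (by rw [hwn]; exact (le_max_left _ _).trans h2) y l (by
    rw [hwn, ← Real.rpow_mul hz0.le, div_mul_cancel₀ _ hT0.ne']
    exact hl)
  have hB := buch y l hwn1 (hwle n le_rfl)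
  have hsum : ∑ p ∈ PI (w n) z, NP y l p ≤
      ∑ i ∈ Finset.range n, ((F i + ε') * l * (VV (w (i + 1)) - VV (w i)) + (|F i| + ε') * z) := by
    have h6 := sum_bands w (NP y l) n (fun i _ => (hwpos i).le) hwlt
    rw [hw0] at h6
    rw [h6]
    refine Finset.sum_le_sum fun i hi => ?_
    have hi' := Finset.mem_range.1 hi
    have h7 := band_up (t := t i) (F := F i) (ε' := ε') (Z := Z i) (a := w (i + 1)) (b := w i)
      (y := y) (l := l) (by (clear * - hs hsi hi'; linarith [hsi i hi'.le])) hε'.le (hZ i hi')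
      (hwn1.trans (hwge (i + 1) (by omega))) (hwlt i hi')
      (by (clear * - hwnZ hZm hi' hwge; linarith [hZm i hi', hwge (i + 1) (by omega)]))
      (by
        rw [hw]
        rw [← Real.rpow_mul hz0.le, div_mul_cancel₀ _ (hs0.trans_le (hsi i hi'.le)).ne']
        exact hl)
    have h8 : (|F i| + ε') * w i ≤ (|F i| + ε') * z :=
      mul_le_mul_of_nonneg_left (hwle i hi'.le) (by (clear * - hε'; positivity))
    (clear * - h7 h8; linarith)
  rw [Finset.sum_add_distrib, ← Finset.sum_mul, ← hKdef] at hsum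
  have hKz : K * z ≤ ε / 4 * (l * VV z) := by
    have hVc : c / Real.log z ≤ VV z := (hMP z h5).1
    have h6 : z ^ s = z * z ^ (s - 1) := by
      rw [← Real.rpow_one_add' hz0.le (by (clear * - hs; linarith))]
      congr 1
      ring
    have h7 : K * Real.log z ≤ ε * c / 4 * z ^ (s - 1) := by
      calc K * Real.log z ≤ (K + 1) * ((ε * c / (4 * (K + 1))) * z ^ (s - 1)) :=
            mul_le_mul (by (clear * -; linarith)) h4 hLz.le (by positivity)
        _ = ε * c / 4 * z ^ (s - 1) := by (clear * - hK0 h1 hc hε; field_simp)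
    have h8 : K ≤ ε / 4 * (c / Real.log z) * z ^ (s - 1) := by
      have : ε / 4 * (c / Real.log z) * z ^ (s - 1) = (ε * c / 4 * z ^ (s - 1)) / Real.log z := by
        ring
      rw [this, le_div_iff₀ hLz]
      exact h7
    calc K * z ≤ (ε / 4 * (c / Real.log z) * z ^ (s - 1)) * z :=
          mul_le_mul_of_nonneg_right h8 hz0.le
      _ = ε / 4 * ((z * z ^ (s - 1)) * (c / Real.log z)) := by ring
      _ ≤ ε / 4 * (l * VV z) := by
          apply mul_le_mul_of_nonneg_left _ (by positivity)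
          rw [← h6]
          exact mul_le_mul hl hVc (by positivity) hl0
  have hΦ : (l * VV z) * ((g - ε') * (VV (z ^ (s / T)) / VV z) -
      ∑ i ∈ Finset.range n, (F i + ε') * (VV (z ^ (s / t (i + 1))) / VV z -
        VV (z ^ (s / t i)) / VV z)) =
      (g - ε') * l * VV (w n) -
        ∑ i ∈ Finset.range n, (F i + ε') * l * (VV (w (i + 1)) - VV (w i)) := by
    rw [mul_sub, Finset.mul_sum, hwn]
    congr 1
    · (clear * - hV; field_simp)
    · refine Finset.sum_congr rfl fun i _ => ?_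
      rw [hw]
      (clear * - hV; field_simp)
  have h9 : (l * VV z) * (f - ε / 2) ≤ (l * VV z) * ((g - ε') * (VV (z ^ (s / T)) / VV z) -
      ∑ i ∈ Finset.range n, (F i + ε') * (VV (z ^ (s / t (i + 1))) / VV z -
        VV (z ^ (s / t i)) / VV z)) := mul_le_mul_of_nonneg_left h3.le (by (clear * - hV; positivity))
  rw [hΦ] at h9
  have h10 : 0 ≤ l * VV z := by (clear * - hV; positivity)
  (clear * - hlow hB hsum hKz h9 hε h10; nlinarith)

end Pool.Agent.M17.Helper5.AV
end

/- Helper53.KN.Helper79.QRH.RoughFL -/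
section
/-!
# QRH-B6: fundamental lemma for rough numbers in short intervals
-/

set_option autoImplicit false

open Finset Real

namespace Pool.Agent.M17.Helper79.QRH


/-- multiples of `d` in an interval -/
theorem card_dvd_Ico (d : ℕ) (hd : 0 < d) (y l : ℕ) :
    |(((Finset.Ico y (y + l)).filter (fun n => d ∣ n)).card : ℝ) - l / d| ≤ 1 := by
  have h1 := Nat.Ico_filter_modEq_card y (y + l) hd 0
  have h2 : (Finset.Ico y (y + l)).filter (fun n => n ≡ 0 [MOD d]) =
      (Finset.Ico y (y + l)).filter (fun n => d ∣ n) := by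
    ext n
    simp only [Finset.mem_filter, Nat.modEq_zero_iff_dvd]
  rw [h2] at h1
  have hd' : (0 : ℚ) < d := by exact_mod_cast hd
  obtain ⟨p, hp⟩ : ∃ p : ℚ, p = ((y + l : ℕ) - (0 : ℕ) : ℚ) / d := ⟨_, rfl⟩
  obtain ⟨q, hq⟩ : ∃ q : ℚ, q = ((y : ℕ) - (0 : ℕ) : ℚ) / d := ⟨_, rfl⟩
  rw [← hp, ← hq] at h1
  have hpq : p - q = l / d := by
    rw [hp, hq]
    push_cast
    ring
  have c1 := Int.le_ceil p
  have c2 := Int.ceil_lt_add_one p
  have c3 := Int.le_ceil q
  have c4 := Int.ceil_lt_add_one q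
  have hnn : (0 : ℚ) ≤ (l : ℚ) / d := by positivity
  have hQ : |((((Finset.Ico y (y + l)).filter (fun n => d ∣ n)).card : ℤ) : ℚ) - l / d| ≤ 1 := by
    rw [h1, abs_le]
    rcases le_total (⌈p⌉ - ⌈q⌉) 0 with h | h
    · rw [max_eq_right h]
      have h' : ((⌈p⌉ - ⌈q⌉ : ℤ) : ℚ) ≤ 0 := by exact_mod_cast h
      push_cast at h' ⊢
      constructor <;> linarith
    · rw [max_eq_left h]
      push_cast
      constructor <;> linarith
  have hR : |((((Finset.Ico y (y + l)).filter (fun n => d ∣ n)).card : ℕ) : ℝ) - l / d| =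
      ((|((((Finset.Ico y (y + l)).filter (fun n => d ∣ n)).card : ℤ) : ℚ) - l / d| : ℚ) : ℝ) := by
    push_cast
    rfl
  rw [hR]
  exact_mod_cast hQ

end Pool.Agent.M17.Helper79.QRH
end

/- Helper53.KN.Helper82.AV.RoughQ -/
section
/-!
# Project AV, module AV0: fundamental lemma with a quantitative level (helper82; the proofs follow
Helper79/QRH/FL.lean and RoughFL.lean)
-/

set_option autoImplicit false
set_option linter.unusedSectionVars false

open Finset Real

namespace Pool.Agent.M17.Helper82.AV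

open Pool.Agent.M17.Helper79.QRH
open Pool.Agent.M17.Helper44 Pool.Agent.M17.Helper96.CPAP

/-- The summability of `n * (x ^ n / n!)`. -/
theorem roughq_summable (x : ℝ) : Summable (fun n : ℕ => (n : ℝ) * (x ^ n / (n.factorial : ℝ))) := by
  rw [← summable_nat_add_iff 1]
  have h : (fun n : ℕ => ((n + 1 : ℕ) : ℝ) * (x ^ (n + 1) / ((n + 1).factorial : ℝ))) =
      fun n : ℕ => x * (x ^ n / (n.factorial : ℝ)) := by
    funext n
    rw [Nat.factorial_succ]
    push_cast
    have h1 : (n : ℝ) + 1 ≠ 0 := by positivity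
    have h2 : (n.factorial : ℝ) ≠ 0 := by positivity
    field_simp
    ring
  rw [h]
  exact (Real.summable_pow_div_factorial x).mul_left x

/-- The `k`-dimensional Brun-Hooley sieve with main term accuracy `1 ± δ` and level `K`, where
`δ K` is small. -/
theorem sieveFLQ (k : ℕ) (η : ℝ) (hη0 : 0 < η) (hη1 : η ≤ 1) :
    ∃ δ K : ℝ, 0 < δ ∧ δ ≤ 1 ∧ 1 ≤ K ∧ δ * K ≤ (4 * (k : ℝ) + 9) * η ∧ ∀ (α : Type) (P : ℕ → Prop),
    (∀ q, P q → q.Prime ∧ 2 * k ≤ q) → ∀ ν : ℕ → ℝ, (∀ q, P q → 0 ≤ ν q ∧ ν q ≤ k) →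
    ∀ w : ℝ, 2 ≤ w → ∀ (Ω : Finset α) (occ : ℕ → α → Prop) (X E : ℝ), 0 ≤ X → 0 ≤ E →
    (∀ I : Finset ℕ, (∀ q ∈ I, P q ∧ (q : ℝ) ≤ w) →
      |evCount Ω (fun ω => ∀ q ∈ I, occ q ω) - X * ∏ q ∈ I, (ν q / q)| ≤
        E * ((k : ℝ) + 1) ^ I.card) →
    evCount Ω (fun ω => ∀ q : ℕ, P q → (q : ℝ) ≤ w → ¬ occ q ω) ≤
        Real.exp δ * X * (∏ q ∈ pU P w, (1 - ν q / q)) + E * w ^ K ∧
    (1 - δ) * X * (∏ q ∈ pU P w, (1 - ν q / q)) - E * w ^ K ≤
      evCount Ω (fun ω => ∀ q : ℕ, P q → (q : ℝ) ≤ w → ¬ occ q ω) := by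
  obtain ⟨S0, hS0, hS⟩ := sum_inv_pb_le
  set S1 : ℝ := k * S0 with hS1
  have hS1n : 0 ≤ S1 := by (clear * - hS0; positivity)
  have hsum := roughq_summable S1
  obtain ⟨s0, hs0⟩ := summable_iff_vanishing_norm.mp hsum (Real.exp (-(2 * S1)) * η)
    (by positivity)
  set b := s0.sup id + 1 with hb
  have hb1 : (1 : ℝ) ≤ b := by
    have : 1 ≤ b := by omega
    exact_mod_cast this
  have hb2 : (0 : ℝ) < 2 * b + 1 := by (clear * - hb1; linarith)
  set δ : ℝ := η / (2 * b + 1) with hδ
  have hδ0 : 0 < δ := by positivity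
  have hδ1 : δ ≤ 1 := by
    rw [hδ, div_le_one hb2]
    (clear * - hη1 hb1; linarith)
  set K0 : ℝ := ((k : ℝ) + 2) * (4 * b + 6) with hK0
  have hK0' : 0 ≤ K0 := by positivity
  have hk0 : (0 : ℝ) ≤ k := Nat.cast_nonneg k
  refine ⟨δ, K0 + 2, hδ0, hδ1, by linarith, ?_, ?_⟩
  · rw [hδ, div_mul_eq_mul_div, div_le_iff₀ hb2]
    have h1 : K0 + 2 ≤ (4 * (k : ℝ) + 9) * (2 * b + 1) := by
      rw [hK0]
      (clear * - hb1 hk0; nlinarith [mul_nonneg hk0 (sub_nonneg.2 hb1)])
    calc η * (K0 + 2) ≤ η * ((4 * (k : ℝ) + 9) * (2 * b + 1)) :=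
          mul_le_mul_of_nonneg_left h1 hη0.le
      _ = (4 * (k : ℝ) + 9) * η * (2 * b + 1) := by ring
  intro α P hP ν hν w hw Ω occ X E hX hE hcnt
  have hP' : ∀ q, P q → q.Prime := fun q h => (hP q h).1
  have hw1 : (1 : ℝ) ≤ w := by (clear * - hw; linarith)
  have hw0 : (0 : ℝ) < w := by linarith
  have hdisj : ∀ i j : Fin (nb w), i ≠ j → Disjoint (pb P w i) (pb P w j) := by
    intro i j hij
    exact pb_disjoint hw1 (fun h => hij (Fin.ext h))
  have hx : ∀ j : ℕ, ∀ i ∈ pb P w j, 0 ≤ ν i / i ∧ ν i / i ≤ 1 / 2 := by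
    intro j i hi
    rw [mem_pb] at hi
    have h1 := hP i hi.2
    have h2 := hν i hi.2
    have hq0 : (0 : ℝ) < i := by exact_mod_cast h1.1.pos
    have h3 : (2 : ℝ) * k ≤ i := by exact_mod_cast h1.2
    refine ⟨div_nonneg h2.1 hq0.le, ?_⟩
    rw [div_le_iff₀ hq0]
    (clear * - h2 h3; linarith)
  have hcnt' : ∀ I : Finset ℕ,
      I ⊆ Finset.univ.biUnion (fun j : Fin (nb w) => pb P w j) →
      |evCount Ω (fun ω => ∀ i ∈ I, occ i ω) - X * ∏ i ∈ I, (ν i / i)| ≤
        E * ((k : ℝ) + 1) ^ I.card := by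
    intro I hI
    apply hcnt
    intro q hq
    have := hI hq
    rwa [biUnion_pb hP' hw, mem_pU hP' hw0.le] at this
  have hsumx : ∀ j : ℕ, ∑ i ∈ pb P w j, ν i / i ≤ S1 := by
    intro j
    calc ∑ i ∈ pb P w j, ν i / i ≤ ∑ i ∈ pb P w j, k * ((1 : ℝ) / i) := by
          apply Finset.sum_le_sum
          intro i hi
          rw [mem_pb] at hi
          have hq0 : (0 : ℝ) < i := by exact_mod_cast (hP' i hi.2).pos
          rw [mul_one_div]
          exact div_le_div_of_nonneg_right (hν i hi.2).2 hq0.le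
      _ = k * ∑ i ∈ pb P w j, (1 : ℝ) / i := by rw [Finset.mul_sum]
      _ ≤ k * S0 := mul_le_mul_of_nonneg_left (hS P hP' w hw j) (by positivity)
  have hVlow : ∀ j : Fin (nb w), Real.exp (-(2 * S1)) ≤ ∏ i ∈ pb P w j, (1 - ν i / i) := by
    intro j
    calc Real.exp (-(2 * S1)) ≤ Real.exp (-∑ i ∈ pb P w j, 2 * (ν i / i)) := by
          apply Real.exp_le_exp.mpr
          rw [← Finset.mul_sum]
          have := hsumx j
          (clear * - this; linarith)
      _ = ∏ i ∈ pb P w j, Real.exp (-(2 * (ν i / i))) := by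
          rw [← Finset.sum_neg_distrib, Real.exp_sum]
      _ ≤ _ := by
          apply Finset.prod_le_prod
          · intro i _; exact (Real.exp_pos _).le
          · intro i hi
            have := hx j i hi
            exact one_sub_ge_exp this.1 this.2
  have hr : ∑ j : Fin (nb w), es (pb P w j) (2 * (b + (j : ℕ)) + 1) (fun q => ν q / q) /
      ∏ i ∈ pb P w j, (1 - ν i / i) ≤ δ := by
    have hterm : ∀ j : Fin (nb w), es (pb P w j) (2 * (b + (j : ℕ)) + 1) (fun q => ν q / q) /
        ∏ i ∈ pb P w j, (1 - ν i / i) ≤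
        (S1 ^ (2 * (b + (j : ℕ)) + 1) / ((2 * (b + (j : ℕ)) + 1).factorial : ℝ)) *
          Real.exp (2 * S1) := by
      intro j
      have h1 : es (pb P w j) (2 * (b + (j : ℕ)) + 1) (fun q => ν q / q) ≤
          S1 ^ (2 * (b + (j : ℕ)) + 1) / ((2 * (b + (j : ℕ)) + 1).factorial : ℝ) := by
        refine (es_le_pow_div_factorial _ _ (fun i hi => (hx j i hi).1) _).trans ?_
        apply div_le_div_of_nonneg_right _ (by positivity)
        apply pow_le_pow_left₀ (Finset.sum_nonneg fun i hi => (hx j i hi).1) (hsumx j)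
      have h2 := hVlow j
      have h3 : 0 < Real.exp (-(2 * S1)) := Real.exp_pos _
      rw [div_le_iff₀ (h3.trans_le h2)]
      calc es (pb P w j) (2 * (b + (j : ℕ)) + 1) (fun q => ν q / q)
          ≤ S1 ^ (2 * (b + (j : ℕ)) + 1) / ((2 * (b + (j : ℕ)) + 1).factorial : ℝ) * 1 := by
            rw [mul_one]; exact h1
        _ = S1 ^ (2 * (b + (j : ℕ)) + 1) / ((2 * (b + (j : ℕ)) + 1).factorial : ℝ) *
              (Real.exp (2 * S1) * Real.exp (-(2 * S1))) := by
            rw [← Real.exp_add]; simp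
        _ ≤ S1 ^ (2 * (b + (j : ℕ)) + 1) / ((2 * (b + (j : ℕ)) + 1).factorial : ℝ) *
              (Real.exp (2 * S1) * ∏ i ∈ pb P w j, (1 - ν i / i)) := by
            (clear * - h2 hS0; gcongr)
        _ = _ := by ring
    calc ∑ j : Fin (nb w), es (pb P w j) (2 * (b + (j : ℕ)) + 1) (fun q => ν q / q) /
          ∏ i ∈ pb P w j, (1 - ν i / i)
        ≤ ∑ j : Fin (nb w), (S1 ^ (2 * (b + (j : ℕ)) + 1) /
            ((2 * (b + (j : ℕ)) + 1).factorial : ℝ)) * Real.exp (2 * S1) :=
          Finset.sum_le_sum fun j _ => hterm j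
      _ = (∑ n ∈ (Finset.univ : Finset (Fin (nb w))).image
            (fun j : Fin (nb w) => 2 * (b + (j : ℕ)) + 1),
            S1 ^ n / (n.factorial : ℝ)) * Real.exp (2 * S1) := by
          rw [← Finset.sum_mul, Finset.sum_image]
          intro i _ j _ hij
          apply Fin.ext
          simp only at hij
          omega
      _ ≤ (Real.exp (-(2 * S1)) * δ) * Real.exp (2 * S1) := by
          apply mul_le_mul_of_nonneg_right _ (Real.exp_pos _).le
          have h4 := hs0 ((Finset.univ : Finset (Fin (nb w))).image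
            (fun j : Fin (nb w) => 2 * (b + (j : ℕ)) + 1)) ?_
          · rw [Real.norm_eq_abs] at h4
            have h5 := (le_abs_self _).trans h4.le
            rw [hδ, mul_div_assoc', le_div_iff₀ hb2, mul_comm, Finset.mul_sum]
            refine le_trans (Finset.sum_le_sum fun n hn => ?_) h5
            rw [Finset.mem_image] at hn
            obtain ⟨j, _, rfl⟩ := hn
            apply mul_le_mul_of_nonneg_right _ (by (clear * - hS0; positivity))
            push_cast
            (clear * - α; linarith [Nat.cast_nonneg (α := ℝ) (j : ℕ)])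
          · rw [Finset.disjoint_left]
            intro n hn hn'
            rw [Finset.mem_image] at hn
            obtain ⟨j, _, rfl⟩ := hn
            have : id (2 * (b + (j : ℕ)) + 1) ≤ s0.sup id := Finset.le_sup (f := id) hn'
            simp only [id] at this
            omega
      _ = δ := by
          rw [mul_comm (Real.exp (-(2 * S1))) δ, mul_assoc, ← Real.exp_add]; simp
  have hmain := brun_hooleyD Ω occ (fun j : Fin (nb w) => pb P w j) hdisj (fun q => ν q / q)
    (fun j i hi => hx j i hi) X E ((k : ℝ) + 1) δ hX hE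
    (by (clear * - α; linarith [Nat.cast_nonneg (α := ℝ) k])) hδ1
    hcnt' (fun j => 2 * (b + (j : ℕ)))
    (fun j => even_two_mul _) hr
  -- identify the event
  have hevent : (fun ω : α => ∀ j : Fin (nb w), ∀ i ∈ pb P w j, ¬ occ i ω) =
      (fun ω => ∀ q : ℕ, P q → (q : ℝ) ≤ w → ¬ occ q ω) := by
    funext ω
    apply propext
    constructor
    · intro h q hq hqw
      have : q ∈ (Finset.univ : Finset (Fin (nb w))).biUnion (fun j => pb P w j) := by
        rw [biUnion_pb hP' hw, mem_pU hP' hw0.le]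
        exact ⟨hq, hqw⟩
      rw [Finset.mem_biUnion] at this
      obtain ⟨j, _, hj⟩ := this
      exact h j q hj
    · intro h j i hi
      have hi' : i ∈ (Finset.univ : Finset (Fin (nb w))).biUnion (fun j => pb P w j) :=
        Finset.mem_biUnion.mpr ⟨j, Finset.mem_univ _, hi⟩
      rw [biUnion_pb hP' hw, mem_pU hP' hw0.le] at hi'
      exact h i hi'.1 hi'.2
  rw [hevent] at hmain
  -- the product
  have hprodV : ∏ j : Fin (nb w), ∏ i ∈ pb P w j, (1 - ν i / i) =
      ∏ q ∈ pU P w, (1 - ν q / q) := by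
    rw [← Finset.prod_biUnion, biUnion_pb hP' hw]
    intro i _ j _ hij
    exact hdisj i j hij
  rw [hprodV] at hmain
  have hprod := prod_pb_card_le hP' k hw b
  have hprod0 : 0 ≤ ∏ j : Fin (nb w),
      (((k : ℝ) + 1) * ((pb P w j).card : ℝ) + 1) ^ (2 * (b + (j : ℕ)) + 1) :=
    Finset.prod_nonneg fun j _ => by (clear * -; positivity)
  have hwK : w ^ (K0 + 2) = w ^ K0 * w ^ 2 := by
    rw [Real.rpow_add hw0]
    norm_num
  have hwK0 : 0 < w ^ K0 := Real.rpow_pos_of_pos hw0 _
  have hnb : (nb w : ℝ) + 1 ≤ w ^ 2 := by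
    unfold nb
    push_cast
    have := Nat.floor_le hw0.le
    (clear * - hw this; nlinarith)
  constructor
  · refine hmain.1.trans ?_
    have h2 : E * ∏ j : Fin (nb w),
        (((k : ℝ) + 1) * ((pb P w j).card : ℝ) + 1) ^ (2 * (b + (j : ℕ)) + 1) ≤
        E * w ^ (K0 + 2) := by
      apply mul_le_mul_of_nonneg_left _ hE
      refine hprod.trans ?_
      rw [hwK]
      have : (1 : ℝ) ≤ w ^ 2 := one_le_pow₀ hw1
      (clear * - hprod hprod0 hnb; nlinarith)
    (clear * - h2; linarith)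
  · refine le_trans ?_ hmain.2
    have h2 : E * (((nb w : ℕ) + 1) *
        ∏ j : Fin (nb w), (((k : ℝ) + 1) * ((pb P w j).card : ℝ) + 1) ^ (2 * (b + (j : ℕ)) + 1)) ≤
        E * w ^ (K0 + 2) := by
      apply mul_le_mul_of_nonneg_left _ hE
      rw [hwK, mul_comm (w ^ K0)]
      exact mul_le_mul hnb hprod hprod0 (by positivity)
    (clear * - h2; linarith)

/-- AV0. -/
theorem roughQ : Pool.Agent.M17.Helper40.AV.RoughQ := by
  classical
  intro η0 hη0
  obtain ⟨η, hη⟩ : ∃ η, η = min (η0 / 60) 1 := ⟨_, rfl⟩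
  have hηpos : 0 < η := by rw [hη]; exact lt_min (by positivity) one_pos
  have hη1 : η ≤ 1 := by rw [hη]; exact min_le_right _ _
  have hηe : η ≤ η0 / 60 := by rw [hη]; exact min_le_left _ _
  obtain ⟨δ, K, hδ0, hδ1, hK, hδK, hFL⟩ := sieveFLQ 1 η hηpos hη1
  obtain ⟨c, C, hc, hC, hM⟩ := mertens_prod
  -- the threshold
  have hlim : ∀ᶠ z : ℝ in Filter.atTop, Real.log z / z ≤ δ * c := by
    have h1 : Filter.Tendsto (fun z : ℝ => Real.log z / z) Filter.atTop (nhds 0) :=
      Real.isLittleO_log_id_atTop.tendsto_div_nhds_zero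
    have h2 : (0 : ℝ) < δ * c := by positivity
    filter_upwards [(tendsto_order.1 h1).2 _ h2] with z hz using hz.le
  obtain ⟨z1, hz1⟩ := Filter.eventually_atTop.1 hlim
  refine ⟨2 * δ, K + 1, max z1 2, by (clear * - hδ0; linarith), by (clear * - hK; linarith), ?_, ?_⟩
  · push_cast at hδK
    (clear * - hηe hδK hηpos hδ1 hδ0 hK; nlinarith)
  intro z hz y l hl
  have hz2 : 2 ≤ z := (le_max_right _ _).trans hz
  have hz0 : 0 < z := by linarith
  have hlog := hz1 z ((le_max_left _ _).trans hz)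
  have hlz : 0 < Real.log z := Real.log_pos (by linarith)
  have hl0 : (0 : ℝ) ≤ l := Nat.cast_nonneg l
  obtain ⟨V, hV⟩ : ∃ V, V = ∏ r ∈ primesUpTo z, (1 - (1 : ℝ) / r) := ⟨_, rfl⟩
  have hVc : c / Real.log z ≤ V := by rw [hV]; exact (hM z hz2).1
  have hV0 : 0 < V := lt_of_lt_of_le (by positivity) hVc
  have hpU : pU Nat.Prime z = primesUpTo z := by
    ext q
    rw [mem_pU (fun _ h => h) hz0.le, mem_primesUpTo hz0.le]
  have hcnt : ∀ I : Finset ℕ, (∀ q ∈ I, q.Prime ∧ (q : ℝ) ≤ z) →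
      |evCount (Finset.Ico y (y + l)) (fun n => ∀ q ∈ I, q ∣ n) -
        (l : ℝ) * ∏ q ∈ I, ((1 : ℝ) / q)| ≤ 1 * (((1 : ℕ) : ℝ) + 1) ^ I.card := by
    intro I hI
    have hdvd : ∀ n : ℕ, (∀ q ∈ I, q ∣ n) ↔ (∏ q ∈ I, q) ∣ n := by
      intro n
      constructor
      · intro h
        exact Finset.prod_primes_dvd n (fun q hq => (hI q hq).1.prime) h
      · intro h q hq
        exact (Finset.dvd_prod_of_mem _ hq).trans h
    have hpos : 0 < ∏ q ∈ I, q := Finset.prod_pos fun q hq => (hI q hq).1.pos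
    have h1 := card_dvd_Ico (∏ q ∈ I, q) hpos y l
    have h2 : evCount (Finset.Ico y (y + l)) (fun n => ∀ q ∈ I, q ∣ n) =
        (((Finset.Ico y (y + l)).filter (fun n => (∏ q ∈ I, q) ∣ n)).card : ℝ) := by
      rw [evCount_eq]
      congr 2
      ext n
      simp only [Finset.mem_filter, hdvd]
    have h3 : (l : ℝ) * ∏ q ∈ I, ((1 : ℝ) / q) = l / ((∏ q ∈ I, q : ℕ) : ℝ) := by
      push_cast
      rw [Finset.prod_div_distrib, Finset.prod_const_one, mul_one_div]
    rw [h2, h3]
    refine h1.trans ?_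
    rw [one_mul]
    apply one_le_pow₀
    push_cast
    norm_num
  obtain ⟨_, hlow⟩ := hFL ℕ Nat.Prime (fun q hq => ⟨hq, by have := hq.two_le; omega⟩)
    (fun _ => 1) (fun q _ => ⟨zero_le_one, by push_cast; exact le_rfl⟩) z hz2
    (Finset.Ico y (y + l)) (fun q n => q ∣ n) l 1 hl0 zero_le_one hcnt
  rw [hpU, ← hV] at hlow
  have hev : evCount (Finset.Ico y (y + l))
      (fun n => ∀ q : ℕ, q.Prime → (q : ℝ) ≤ z → ¬ q ∣ n) =
      (((Finset.Ico y (y + l)).filter (fun n => ∀ r : ℕ, r.Prime → r ∣ n → z < r)).card : ℝ) := by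
    rw [evCount_eq]
    congr 2
    ext n
    simp only [Finset.mem_filter]
    constructor
    · rintro ⟨h1, h2⟩
      exact ⟨h1, fun r hr hrn => not_le.1 fun h => h2 r hr h hrn⟩
    · rintro ⟨h1, h2⟩
      exact ⟨h1, fun r hr h hrn => absurd (h2 r hr hrn) (not_lt.2 h)⟩
  rw [hev] at hlow
  have hVV : Pool.Agent.M17.Helper40.AV.VV z = V := by rw [hV]; rfl
  rw [hVV]
  -- the error term
  have herr : 1 * z ^ K ≤ δ * l * V := by
    rw [one_mul]
    have h1 : z ^ (K + 1) = z ^ K * z := by rw [Real.rpow_add hz0, Real.rpow_one]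
    rw [h1] at hl
    have h2 : z ^ K ≤ l / z := by
      rw [le_div_iff₀ hz0]
      exact hl
    refine h2.trans ?_
    have h3 : (l : ℝ) / z ≤ δ * l * (c / Real.log z) := by
      have h4 : (l : ℝ) / z = l * (Real.log z / z) / Real.log z := by
        (clear * - hlz hz2; field_simp)
      rw [h4, mul_div_assoc' (δ * (l : ℝ)) c]
      apply div_le_div_of_nonneg_right _ hlz.le
      calc (l : ℝ) * (Real.log z / z) ≤ l * (δ * c) := mul_le_mul_of_nonneg_left hlog hl0
        _ = δ * l * c := by ring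
    exact h3.trans (mul_le_mul_of_nonneg_left hVc (by (clear * - hδ0; positivity)))
  have hlow' : (1 - δ) * l * V - 1 * z ^ K ≤
      ((Pool.Agent.M17.Helper40.AV.RS y l z).card : ℝ) := hlow
  (clear * - herr hlow'; linarith)

end Pool.Agent.M17.Helper82.AV
end

/- Helper53.KN.Helper40.AV.Tab64 -/
section
/-! Project AV: kernel computation of the sieve functions on the grid `i / 64`, up to `16`. -/

set_option autoImplicit false

open Filter Topology

namespace Pool.Agent.M17.Helper40.AV.T16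

open Pool.Agent.M17.Helper40.AV
open Pool.Agent.M17.Helper59.AV.Tab (tot tot_eq ceil_div upb_mono lob_mono lob_zero)
open Pool.Agent.M17.Helper59.AV (cu_low cu_high)

theorem tailLo16 : LoB 16 0.99999 :=
  tailLo Pool.Agent.M17.Helper82.AV.roughQ Pool.Agent.M17.Helper9.AV.mertens3
    Pool.Agent.M17.Helper51.AV.gammaNum Pool.Agent.M17.Helper53AV.selbergP
    Pool.Agent.M17.Helper30.AV.gGrankin Pool.Agent.M17.Helper14.AV.buchstab
    Pool.Agent.M17.Helper14.AV.telescope Pool.Agent.M17.Helper33.AV.primeInt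

/-! ### the computation -/

/-- suffix sums -/
def suff : List ℕ → List ℕ
  | [] => [0]
  | a :: l => (a + (suff l).headD 0) :: suff l

/-- new lower values -/
def goLo : ℕ → List ℕ → List ℕ → List ℕ
  | _, [], _ => []
  | _, _ :: _, [] => []
  | m, a :: l, s :: r => max a ((10239897600 - s) / (64 + m)) :: goLo (m + 1) l r

/-- new upper values -/
def goUp : ℕ → List ℕ → List ℕ → List ℕ
  | _, [], _ => []
  | _, _ :: _, [] => []
  | m, a :: l, s :: r => min a ((10240102400 - s + (63 + m)) / (64 + m)) :: goUp (m + 1) l r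

/-- new lower table -/
def lo (F f : List ℕ) : List ℕ := f.take 64 ++ goLo 64 (f.drop 64) (suff F)

/-- new upper table -/
def up (f F : List ℕ) : List ℕ := F.take 64 ++ goUp 64 (F.drop 64) (suff f)

/-- initial upper table -/
def g0 (i : ℕ) : ℕ :=
  if i ≤ 128 then (2280960000 + (i - 1)) / i
  else if i ≤ 192 then (2280960000000 + (127999 + 783 * (i - 128))) / (128000 + 783 * (i - 128))
  else (2280960000000 + (92991 + 443 * min i 256)) / (92992 + 443 * min i 256)

/-- initial upper table -/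
def F0 : List ℕ := (List.range 896).map fun m => g0 (64 + m)

/-- initial lower table -/
def f0 : List ℕ := (List.range 896).map fun _ => 0

/-- all rounds -/
def iter : ℕ → List ℕ × List ℕ
  | 0 => (F0, f0)
  | n + 1 =>
    let p := iter n
    let f' := lo p.1 p.2
    (up f' p.1, f')

set_option maxRecDepth 1000000 in
theorem final9 : (suff (iter 9).1).getD 64 0 ≤ 8674400000 := by decide +kernel

/-! ### correctness -/

theorem suff_length (l : List ℕ) : (suff l).length = l.length + 1 := by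
  induction l with
  | nil => rfl
  | cons a l ih => simp [suff, ih]

theorem suff_getD (l : List ℕ) : ∀ k : ℕ, (suff l).getD k 0 = tot l k := by
  induction l with
  | nil =>
    intro k
    unfold tot
    rcases k with _ | k <;> simp [suff]
  | cons a l ih =>
    intro k
    rcases k with _ | k
    · have h := ih 0
      unfold tot at h ⊢
      rw [List.drop_zero] at h
      simp only [suff, List.getD_cons_zero, List.drop_zero, List.sum_cons]
      rw [← h]
      congr 1
      cases suff l <;> rfl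
    · unfold tot
      simp only [suff, List.getD_cons_succ, List.drop_succ_cons]
      exact ih k

theorem goLo_getD (l : List ℕ) : ∀ (m : ℕ) (r : List ℕ) (j : ℕ), j < l.length → j < r.length →
    (goLo m l r).getD j 0 = max (l.getD j 0) ((10239897600 - r.getD j 0) / (64 + (m + j))) := by
  induction l with
  | nil => intro m r j h; simp at h
  | cons a l ih =>
    intro m r j h1 h2
    rcases r with _ | ⟨s, r⟩
    · simp at h2
    rcases j with _ | j
    · simp [goLo]
    · simp only [goLo, List.getD_cons_succ]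
      rw [ih (m + 1) r j (by simpa using h1) (by simpa using h2)]
      congr 3
      ring

theorem goUp_getD (l : List ℕ) : ∀ (m : ℕ) (r : List ℕ) (j : ℕ), j < l.length → j < r.length →
    (goUp m l r).getD j 0 =
      min (l.getD j 0) ((10240102400 - r.getD j 0 + (63 + (m + j))) / (64 + (m + j))) := by
  induction l with
  | nil => intro m r j h; simp at h
  | cons a l ih =>
    intro m r j h1 h2
    rcases r with _ | ⟨s, r⟩
    · simp at h2
    rcases j with _ | j
    · simp [goUp]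
    · simp only [goUp, List.getD_cons_succ]
      rw [ih (m + 1) r j (by simpa using h1) (by simpa using h2)]
      have e : m + 1 + j = m + (j + 1) := by ring
      rw [e]

theorem goLo_length (l : List ℕ) : ∀ (m : ℕ) (r : List ℕ), l.length ≤ r.length →
    (goLo m l r).length = l.length := by
  induction l with
  | nil => intro m r h; rfl
  | cons a l ih =>
    intro m r h1
    rcases r with _ | ⟨s, r⟩
    · simp at h1
    simp only [goLo, List.length_cons]
    rw [ih (m + 1) r (by simpa using h1)]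

theorem goUp_length (l : List ℕ) : ∀ (m : ℕ) (r : List ℕ), l.length ≤ r.length →
    (goUp m l r).length = l.length := by
  induction l with
  | nil => intro m r h; rfl
  | cons a l ih =>
    intro m r h1
    rcases r with _ | ⟨s, r⟩
    · simp at h1
    simp only [goUp, List.length_cons]
    rw [ih (m + 1) r (by simpa using h1)]

theorem lo_length {F f : List ℕ} (hF : F.length = 896) (hf : f.length = 896) :
    (lo F f).length = 896 := by
  unfold lo
  rw [List.length_append, goLo_length _ _ _ (by rw [suff_length, List.length_drop]; omega),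
    List.length_take, List.length_drop, hf]
  rfl

theorem up_length {f F : List ℕ} (hf : f.length = 896) (hF : F.length = 896) :
    (up f F).length = 896 := by
  unfold up
  rw [List.length_append, goUp_length _ _ _ (by rw [suff_length, List.length_drop]; omega),
    List.length_take, List.length_drop, hF]
  rfl

theorem lo_getD {F f : List ℕ} (hF : F.length = 896) (hf : f.length = 896) {m : ℕ} (hm : m < 896) :
    (lo F f).getD m 0 = if m < 64 then f.getD m 0 else
      max (f.getD m 0) ((10239897600 - tot F (m - 64)) / (64 + m)) := by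
  have ht : (f.take 64).length = 64 := by rw [List.length_take, hf]; rfl
  unfold lo
  split_ifs with c
  · rw [List.getD_append _ _ _ _ (by rw [ht]; exact c)]
    rw [List.getD_eq_getElem?_getD, List.getD_eq_getElem?_getD, List.getElem?_take_of_lt c]
  · rw [List.getD_append_right _ _ _ _ (by rw [ht]; omega), ht,
      goLo_getD _ _ _ _ (by rw [List.length_drop, hf]; omega) (by rw [suff_length, hF]; omega),
      suff_getD]
    have e1 : (f.drop 64).getD (m - 64) 0 = f.getD m 0 := by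
      rw [List.getD_eq_getElem?_getD, List.getD_eq_getElem?_getD, List.getElem?_drop]
      congr 2
      omega
    have e2 : 64 + (64 + (m - 64)) = 64 + m := by omega
    rw [e1, e2]

theorem up_getD {f F : List ℕ} (hf : f.length = 896) (hF : F.length = 896) {m : ℕ} (hm : m < 896) :
    (up f F).getD m 0 = if m < 64 then F.getD m 0 else
      min (F.getD m 0) ((10240102400 - tot f (m - 64) + (63 + m)) / (64 + m)) := by
  have ht : (F.take 64).length = 64 := by rw [List.length_take, hF]; rfl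
  unfold up
  split_ifs with c
  · rw [List.getD_append _ _ _ _ (by rw [ht]; exact c)]
    rw [List.getD_eq_getElem?_getD, List.getD_eq_getElem?_getD, List.getElem?_take_of_lt c]
  · rw [List.getD_append_right _ _ _ _ (by rw [ht]; omega), ht,
      goUp_getD _ _ _ _ (by rw [List.length_drop, hF]; omega) (by rw [suff_length, hf]; omega),
      suff_getD]
    have e1 : (F.drop 64).getD (m - 64) 0 = F.getD m 0 := by
      rw [List.getD_eq_getElem?_getD, List.getD_eq_getElem?_getD, List.getElem?_drop]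
      congr 2
      omega
    have e2 : 64 + (m - 64) = m := by omega
    rw [e1, e2]

theorem getD_map (g : ℕ → ℕ) {m : ℕ} (hm : m < 896) :
    ((List.range 896).map g).getD m 0 = g m := by
  rw [List.getD_eq_getElem?_getD, List.getElem?_map, List.getElem?_range hm]
  rfl

/-- valid upper table -/
def UpT (F : List ℕ) : Prop := F.length = 896 ∧
  ∀ m : ℕ, m < 896 → UpB (((64 + m : ℕ) : ℝ) / 64) ((F.getD m 0 : ℕ) / 10000000)

/-- valid lower table -/
def LoT (f : List ℕ) : Prop := f.length = 896 ∧ (∀ m : ℕ, m < 64 → f.getD m 0 = 0) ∧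
  ∀ m : ℕ, m < 896 → LoB (((64 + m : ℕ) : ℝ) / 64) ((f.getD m 0 : ℕ) / 10000000)

theorem lot_f0 : LoT f0 := by
  refine ⟨by rw [f0, List.length_map, List.length_range], fun m hm => ?_, fun m hm => ?_⟩
  · unfold f0
    rw [getD_map _ (by omega)]
  · unfold f0
    rw [getD_map _ (by omega)]
    simpa using lob_zero _

theorem upt_F0 (h : SelUp) : UpT F0 := by
  have hg : Real.exp Real.eulerMascheroniConstant ≤ 1.782 := exp_gamma_le
  refine ⟨by rw [F0, List.length_map, List.length_range], fun m hm => ?_⟩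
  unfold F0
  rw [getD_map _ hm]
  set i : ℕ := 64 + m with hi
  have hi1 : (64 : ℝ) ≤ i := by
    rw [hi]
    exact_mod_cast Nat.le_add_right 64 m
  have hi0 : (0 : ℝ) < i := by (clear * - hi1; linarith)
  have hin : 0 < i := by omega
  unfold g0
  split_ifs with c1 c2
  · have hc : (i : ℝ) ≤ 128 := by exact_mod_cast c1
    refine upb_mono (h.1 (i / 64) (by rw [le_div_iff₀ (by norm_num)]; (clear * - hi1; linarith))
      (by rw [div_le_iff₀ (by norm_num)]; (clear * - hc; linarith))) le_rfl ?_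
    have h1 := ceil_div 2280960000 i hin
    have h2 : 2 * Real.exp Real.eulerMascheroniConstant / (i / 64) ≤ 2 * 1.782 / (i / 64) := by
      gcongr
    have h3 : 2 * 1.782 / ((i : ℝ) / 64) = ((2280960000 : ℕ) : ℝ) / i / 10000000 := by
      field_simp
      norm_num
    rw [h3] at h2
    exact h2.trans (div_le_div_of_nonneg_right h1 (by norm_num))
  · have hc : (i : ℝ) ≤ 192 := by exact_mod_cast c2
    have hc' : (128 : ℝ) < i := by exact_mod_cast (not_le.1 c1)
    refine upb_mono (h.2 (i / 64) (by rw [le_div_iff₀ (by norm_num)]; (clear * - hc'; linarith))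
      (by rw [div_le_iff₀ (by norm_num)]; (clear * - hc; linarith))) le_rfl ?_
    have h0 := cu_low (u := (i / 64 : ℝ) / 2) (by (clear * - hc'; linarith)) (by (clear * - hc; linarith))
    have hd : ((128000 + 783 * (i - 128) : ℕ) : ℝ) = 128000 + 783 * (i - 128) := by
      rw [Nat.cast_add, Nat.cast_mul, Nat.cast_sub (by omega)]
      norm_num
    have hd' : 0 < 128000 + 783 * (i - 128) := by omega
    have h1 := ceil_div 2280960000000 (128000 + 783 * (i - 128)) hd'
    rw [hd] at h1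
    rw [show 128000 + 783 * (i - 128) - 1 = 127999 + 783 * (i - 128) by omega] at h1
    have hpos : (0 : ℝ) < 128000 + 783 * (i - 128) := by (clear * - hc'; linarith)
    have h2 : Real.exp Real.eulerMascheroniConstant / cu ((i / 64 : ℝ) / 2) ≤
        1.782 / ((128000 + 783 * (i - 128)) / 128000) := by
      apply div_le_div₀ (by norm_num) hg (by positivity)
      refine le_trans (le_of_eq ?_) h0
      ring
    have h3 : 1.782 / ((128000 + 783 * ((i : ℝ) - 128)) / 128000) =
        ((2280960000000 : ℕ) : ℝ) / (128000 + 783 * (i - 128)) / 10000000 := by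
      have := hpos.ne'
      field_simp
      norm_num
    rw [h3] at h2
    exact h2.trans (div_le_div_of_nonneg_right h1 (by norm_num))
  · have hc' : (192 : ℝ) < i := by exact_mod_cast (not_le.1 c2)
    have hk1 : ((min i 256 : ℕ) : ℝ) ≤ i := by exact_mod_cast min_le_left _ _
    have hk2 : ((min i 256 : ℕ) : ℝ) ≤ 256 := by exact_mod_cast min_le_right _ _
    have hk3 : (192 : ℝ) ≤ ((min i 256 : ℕ) : ℝ) := by
      have : 192 ≤ min i 256 := by omega
      exact_mod_cast this
    generalize min i 256 = k at hk1 hk2 hk3 ⊢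
    refine upb_mono (h.2 (k / 64) (by rw [le_div_iff₀ (by norm_num)]; (clear * - hk3; linarith))
      (by rw [div_le_iff₀ (by norm_num)]; linarith)) (by (clear * - hk1; linarith)) ?_
    have h0 := cu_high (u := (k / 64 : ℝ) / 2) (by (clear * - hk3; linarith)) (by (clear * - hk2; linarith))
    have h1 := ceil_div 2280960000000 (92992 + 443 * k) (by omega)
    rw [show 92992 + 443 * k - 1 = 92991 + 443 * k by omega] at h1
    have hd : ((92992 + 443 * k : ℕ) : ℝ) = 92992 + 443 * k := by push_cast; ring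
    rw [hd] at h1
    have hpos : (0 : ℝ) < 92992 + 443 * k := by (clear * - hk3; linarith)
    have h2 : Real.exp Real.eulerMascheroniConstant / cu ((k / 64 : ℝ) / 2) ≤
        1.782 / ((92992 + 443 * k) / 128000) := by
      apply div_le_div₀ (by norm_num) hg (by positivity)
      refine le_trans (le_of_eq ?_) h0
      ring
    have h3 : 1.782 / ((92992 + 443 * (k : ℝ)) / 128000) =
        ((2280960000000 : ℕ) : ℝ) / (92992 + 443 * k) / 10000000 := by
      have := hpos.ne'
      field_simp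
      norm_num
    rw [h3] at h2
    exact h2.trans (div_le_div_of_nonneg_right h1 (by norm_num))

theorem lot_lo (hTL : LoB 16 0.99999) (hLo : StepLo) {F f : List ℕ} (hF : UpT F) (hf : LoT f) :
    LoT (lo F f) := by
  refine ⟨lo_length hF.1 hf.1, fun m hm => ?_, fun m hm => ?_⟩
  · rw [lo_getD hF.1 hf.1 (by omega), if_pos hm]
    exact hf.2.1 m hm
  rw [lo_getD hF.1 hf.1 hm]
  split_ifs with c
  · exact hf.2.2 m hm
  have hm16 : 64 ≤ m := not_lt.1 c
  rcases le_total (f.getD m 0) ((10239897600 - tot F (m - 64)) / (64 + m)) with c2 | c2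
  swap
  · rw [max_eq_left c2]
    exact hf.2.2 m hm
  rw [max_eq_right c2]
  have hmR : (64 : ℝ) ≤ m := by exact_mod_cast hm16
  rcases le_total 10239897600 (tot F (m - 64)) with c3 | c3
  · rw [Nat.sub_eq_zero_of_le c3, Nat.zero_div]
    simpa using lob_zero _
  have hs : (((64 + m : ℕ) : ℝ) / 64) = (64 + m) / 64 := by push_cast; ring
  have key := hLo ((64 + m : ℝ) / 64) 16 0.99999 (960 - m) (fun j => ((64 + m : ℝ) + j) / 64)
    (fun j => ((F.getD (m - 64 + j) 0 : ℕ) : ℝ) / 10000000)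
    (by (clear * - hmR; linarith)) (by simp) (by
      rw [Nat.cast_sub (by omega)]
      push_cast
      ring) (fun j _ => by push_cast; (clear * -; linarith)) (fun j hj => by
        have h1 := hF.2 (m - 64 + j) (by omega)
        have e : (((64 + (m - 64 + j) : ℕ) : ℝ) / 64) = ((64 + m : ℝ) + j) / 64 - 1 := by
          rw [show 64 + (m - 64 + j) = m + j by omega]
          push_cast
          ring
        rw [e] at h1
        exact h1) hTL
  rw [hs]
  refine lob_mono key ?_
  have e1 : ∑ j ∈ Finset.range (960 - m), (((64 + m : ℝ) + ((j + 1 : ℕ) : ℝ)) / 64 -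
      ((64 + m : ℝ) + j) / 64) * (((F.getD (m - 64 + j) 0 : ℕ) : ℝ) / 10000000) =
      (tot F (m - 64) : ℝ) / 640000000 := by
    rw [tot_eq F (960 - m) (m - 64) (by rw [hF.1]; omega), Nat.cast_sum, Finset.sum_div]
    apply Finset.sum_congr rfl
    intro j _
    push_cast
    ring
  have hd : (((10239897600 - tot F (m - 64)) / (64 + m) : ℕ) : ℝ) ≤
      (10239897600 - tot F (m - 64)) / (64 + m) := by
    refine Nat.cast_div_le.trans (le_of_eq ?_)
    rw [Nat.cast_sub c3]
    push_cast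
    ring
  have e2 : (16 : ℝ) / ((64 + m) / 64) * 0.99999 - 1 / ((64 + m) / 64) *
      ((tot F (m - 64) : ℝ) / 640000000) =
      (10239897600 - tot F (m - 64)) / (64 + m) / 10000000 := by
    have : (64 + m : ℝ) ≠ 0 := by positivity
    field_simp
    norm_num
    ring
  rw [e1, e2]
  exact div_le_div_of_nonneg_right hd (by norm_num)

theorem upt_up (hTU : UpB 16 1.00001) (hUp : StepUp) {F f : List ℕ} (hF : UpT F) (hf : LoT f) :
    UpT (up f F) := by
  refine ⟨up_length hf.1 hF.1, fun m hm => ?_⟩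
  rw [up_getD hf.1 hF.1 hm]
  split_ifs with c
  · exact hF.2 m hm
  have hm16 : 64 ≤ m := not_lt.1 c
  rcases le_total (F.getD m 0) ((10240102400 - tot f (m - 64) + (63 + m)) / (64 + m)) with c2 | c2
  · rw [min_eq_left c2]
    exact hF.2 m hm
  rw [min_eq_right c2]
  have hmR : (64 : ℝ) ≤ m := by exact_mod_cast hm16
  have hs : (((64 + m : ℕ) : ℝ) / 64) = (64 + m) / 64 := by push_cast; ring
  have key := hUp ((64 + m : ℝ) / 64) 16 1.00001 (960 - m) (fun j => ((64 + m : ℝ) + j) / 64)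
    (fun j => ((f.getD (m - 64 + j) 0 : ℕ) : ℝ) / 10000000)
    (by (clear * - hmR; linarith)) (by simp) (by
      rw [Nat.cast_sub (by omega)]
      push_cast
      ring) (fun j _ => by push_cast; (clear * -; linarith)) (fun j hj => by
        rcases lt_or_ge (m - 64 + j) 64 with c3 | c3
        · left
          rw [hf.2.1 _ c3]
          simp
        right
        have h1 := hf.2.2 (m - 64 + j) (by omega)
        have e : (((64 + (m - 64 + j) : ℕ) : ℝ) / 64) = ((64 + m : ℝ) + j) / 64 - 1 := by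
          rw [show 64 + (m - 64 + j) = m + j by omega]
          push_cast
          ring
        rw [e] at h1
        refine ⟨?_, h1⟩
        have h2 : 128 ≤ m + j := by omega
        have h3 : (128 : ℝ) ≤ m + j := by exact_mod_cast h2
        (clear * - h3; linarith)) hTU
  rw [hs]
  refine upb_mono key le_rfl ?_
  have e1 : ∑ j ∈ Finset.range (960 - m), (((64 + m : ℝ) + ((j + 1 : ℕ) : ℝ)) / 64 -
      ((64 + m : ℝ) + j) / 64) * (((f.getD (m - 64 + j) 0 : ℕ) : ℝ) / 10000000) =
      (tot f (m - 64) : ℝ) / 640000000 := by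
    rw [tot_eq f (960 - m) (m - 64) (by rw [hf.1]; omega), Nat.cast_sum, Finset.sum_div]
    apply Finset.sum_congr rfl
    intro j _
    push_cast
    ring
  have hd : ((10240102400 : ℝ) - tot f (m - 64)) / (64 + m) ≤
      (((10240102400 - tot f (m - 64) + (63 + m)) / (64 + m) : ℕ) : ℝ) := by
    have h1 := ceil_div (10240102400 - tot f (m - 64)) (64 + m) (by omega)
    have e0 : (64 + m - 1) = 63 + m := by omega
    rw [e0] at h1
    refine le_trans ?_ h1
    have h2 : (10240102400 : ℝ) - tot f (m - 64) ≤ ((10240102400 - tot f (m - 64) : ℕ) : ℝ) := by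
      rw [sub_le_iff_le_add]
      have : 10240102400 ≤ (10240102400 - tot f (m - 64)) + tot f (m - 64) := by omega
      exact_mod_cast this
    have h3 : ((64 + m : ℕ) : ℝ) = 64 + m := by push_cast; ring
    rw [h3]
    exact div_le_div_of_nonneg_right h2 (by positivity)
  have e2 : (16 : ℝ) / ((64 + m) / 64) * 1.00001 - 1 / ((64 + m) / 64) *
      ((tot f (m - 64) : ℝ) / 640000000) =
      (10240102400 - tot f (m - 64)) / (64 + m) / 10000000 := by
    have : (64 + m : ℝ) ≠ 0 := by positivity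
    field_simp
    norm_num
    ring
  rw [e1, e2]
  exact div_le_div_of_nonneg_right hd (by norm_num)

theorem iter_zero : iter 0 = (F0, f0) := rfl

theorem iter_succ (n : ℕ) :
    iter (n + 1) = (up (lo (iter n).1 (iter n).2) (iter n).1, lo (iter n).1 (iter n).2) := rfl

attribute [local irreducible] F0 f0 lo up

theorem tables (n : ℕ) : UpT (iter n).1 ∧ LoT (iter n).2 := by
  have hLo := Pool.Agent.M17.Helper5.AV.stepLo Pool.Agent.M17.Helper9.AV.mertens3
  have hUp := Pool.Agent.M17.Helper71.AV.stepUp Pool.Agent.M17.Helper9.AV.mertens3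
  induction n with
  | zero =>
    rw [iter_zero]
    exact ⟨upt_F0 selUp', lot_f0⟩
  | succ n ih =>
    have h1 : LoT (lo (iter n).1 (iter n).2) := lot_lo tailLo16 hLo ih.1 ih.2
    have h2 := upt_up tailUp hUp ih.1 h1
    rw [iter_succ]
    exact ⟨h2, h1⟩

end Pool.Agent.M17.Helper40.AV.T16
end
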