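import Mathlib
import Pool.Agent.Helper53.KM.G06
import Pool.Agent.Helper53.KM.G13
import Pool.Agent.Helper53.KM.G16
import Pool.Agent.Helper53.KM.G18
import Pool.Agent.Helper53.KM.G19
import Pool.Agent.Helper53.KM.G20
import Pool.Agent.Helper53.KM.G33
import Pool.Agent.Helper53.KM.G39
import Pool.Agent.Helper53.KM.G40

/- Helper53.KN.Helper18.KSZ.TheoremN -/
section
/-!
# Theorem N (zeros of zeta near the line 1), unconditional
-/

set_option autoImplicit false

namespace Pool.Agent.M17.Helper18.KSZ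

/-- Theorem N -/
theorem theoremN : TheoremN := theoremN_of Helper33.KSZ.inA10

end Pool.Agent.M17.Helper18.KSZ
end

/- Helper53.KN.Helper60.KC.Final -/
section
/-! The counting theorem, unconditional. -/

set_option autoImplicit false
open Filter Topology
open scoped Classical

namespace Pool.Agent.M17.Helper60.KC
open Pool.Agent.M17.Helper60.KS

theorem inA2 : A2 := by
  obtain ⟨C, hC, h⟩ := Pool.Agent.M17.Helper67.KSZ.A2
  refine ⟨C, hC, fun N N1 t κ h1 h2 h3 h4 h5 h6 => ?_⟩
  have := h N N1 κ t h1 h2 h3 (by linarith) h5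
  rwa [← Real.sqrt_eq_rpow] at this

theorem inA5 : A5 := by
  obtain ⟨C1, hC1, h1⟩ := Pool.Agent.M17.Helper67.KSZ.A5a
  obtain ⟨C2, hC2, h2⟩ := Pool.Agent.M17.Helper67.KSZ.A5b
  refine ⟨max C1 C2, lt_max_of_lt_left hC1, fun t ht => ?_, fun σ t a b ht => ?_⟩
  · refine le_trans (h1 t ht) ?_
    have : 0 < Real.log t := Real.log_pos (by linarith)
    have h3 := le_max_left C1 C2
    gcongr
  · refine le_trans (h2 σ t ht a b) ?_
    have : 0 < Real.log t := Real.log_pos (by linarith)
    have h3 := le_max_right C1 C2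
    have h4 : 0 < t := by linarith
    gcongr

theorem inThmN : ThmN := by
  obtain ⟨ε, hε, h⟩ := Pool.Agent.M17.Helper18.KSZ.theoremN
  obtain ⟨X0, h⟩ := h (1/16) (by norm_num)
  refine ⟨min ε (1/100), X0, lt_min hε (by norm_num), min_le_right _ _, fun X hX F hF => ?_⟩
  refine h X hX F (fun ρ hρ => ?_)
  obtain ⟨a, b, c⟩ := hF ρ hρ
  refine ⟨a, by linarith [min_le_left ε (1/100 : ℝ)], ?_⟩
  have : (6/10 : ℝ) = 0.6 := by norm_num
  rwa [this]

theorem inA9i : A9i := Pool.Agent.M17.Helper33.KSZ.zeta_count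

theorem meanValue : MeanValue := Pool.Agent.M17.Helper65.KC.meanValue
theorem discMV : DiscMV := Pool.Agent.M17.Helper9.KC.discMV meanValue
theorem mvCount : MVCount := Pool.Agent.M17.Helper67.KC.mvCount discMV
theorem huxleyCount : HuxleyCount := Pool.Agent.M17.Helper72.KC.huxleyCount inA2
theorem twoWalk : TwoWalk := Pool.Agent.M17.Helper71.KC.twoWalk Pool.Agent.M17.Helper65.KC.pairCount
theorem sLemma : SLemma := Pool.Agent.M17.Helper1.KC.sLemma discMV twoWalk
theorem inDetect : Detect := Pool.Agent.M17.Helper26.KC.detect inA5 (Pool.Agent.M17.Helper1.KSZ.a7_helper60 inA5)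

end Pool.Agent.M17.Helper60.KC
end
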