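import Mathlib
import Pool.Agent.Helper53.KM.G06
import Pool.Agent.Helper53.KM.G10
import Pool.Agent.Helper53.KM.G14
import Pool.Agent.Helper53.KM.G16
import Pool.Agent.Helper53.KM.G17
import Pool.Agent.Helper53.KM.G18
import Pool.Agent.Helper53.KM.G20
import Pool.Agent.Helper53.KM.G27
import Pool.Agent.Helper53.KM.G28
import Pool.Agent.Helper53.KM.G32
import Pool.Agent.Helper53.KM.G37
import Pool.Agent.Helper53.KM.G41
import Pool.Agent.Helper53.KM.G45
import Pool.Agent.Helper53.KM.G46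

/- Helper53.KN.Helper4.KC.Count -/
section
/-! Helper lemma for KC-7: Gaussian pair sums against the number of close pairs. -/

set_option autoImplicit false
open scoped BigOperators Classical

namespace Pool.Agent.M17.Helper4.KC

noncomputable def kd (d : ℤ) : ℝ := Real.exp (-|(d : ℝ)|)

lemma kd_nonneg (d : ℤ) : 0 ≤ kd d := (Real.exp_pos _).le

lemma kd_neg (d : ℤ) : kd (-d) = kd d := by simp [kd]

lemma summable_kd : Summable kd := by
  have h1 : Summable (fun n : ℕ => Real.exp (-(n : ℝ))) := by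
    have := Real.summable_exp_neg_nat
    simpa using this
  refine Summable.of_nat_of_neg ?_ ?_
  · refine h1.congr (fun n => ?_)
    simp [kd]
  · refine h1.congr (fun n => ?_)
    simp [kd]

noncomputable def C1 : ℝ := ∑' d : ℤ, kd d

lemma sum_kd_le (M : Finset ℤ) (m : ℤ) : ∑ m' ∈ M, kd (m - m') ≤ C1 := by
  have h : ∑ m' ∈ M, kd (m - m') = ∑ d ∈ M.image (fun m' => m - m'), kd d := by
    rw [Finset.sum_image]
    intro a _ b _ hab
    simp only at hab
    omega
  rw [h]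
  exact summable_kd.sum_le_tsum _ (fun d _ => kd_nonneg d)

lemma C1_nonneg : 0 ≤ C1 := tsum_nonneg kd_nonneg

theorem pair_sum_kd {ι : Type} (S : Finset ι) (m : ι → ℤ) :
    ∑ p ∈ S, ∑ q ∈ S, kd (m p - m q) ≤
      C1 * ((S ×ˢ S).filter (fun p => m p.1 = m p.2)).card := by
  set N : ℤ → ℝ := fun a => ((S.filter (fun q => m q = a)).card : ℝ) with hN
  set M := S.image m with hM
  have e1 : ∀ p : ι, ∑ q ∈ S, kd (m p - m q) = ∑ a ∈ M, N a * kd (m p - a) := by
    intro p
    rw [Finset.sum_comp (fun a => kd (m p - a)) m]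
    refine Finset.sum_congr rfl (fun a _ => ?_)
    rw [nsmul_eq_mul]
  have e2 : ∑ p ∈ S, ∑ q ∈ S, kd (m p - m q) = ∑ a ∈ M, N a * ∑ b ∈ M, N b * kd (a - b) := by
    rw [Finset.sum_congr rfl (fun p _ => e1 p)]
    rw [Finset.sum_comp (fun a => ∑ b ∈ M, N b * kd (a - b)) m]
    refine Finset.sum_congr rfl (fun a _ => ?_)
    rw [nsmul_eq_mul]
  have e3 : (((S ×ˢ S).filter (fun p => m p.1 = m p.2)).card : ℝ) = ∑ a ∈ M, N a * N a := by
    rw [Finset.card_filter, Nat.cast_sum, Finset.sum_product]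
    have : ∀ p ∈ S, (∑ q ∈ S, (((if m p = m q then 1 else 0 : ℕ)) : ℝ)) = N (m p) := by
      intro p _
      rw [hN]
      simp only
      rw [Finset.card_filter, Nat.cast_sum]
      refine Finset.sum_congr rfl (fun q _ => ?_)
      simp only [eq_comm]
    rw [Finset.sum_congr rfl this]
    rw [Finset.sum_comp (fun a => N a) m]
    refine Finset.sum_congr rfl (fun a _ => ?_)
    rw [nsmul_eq_mul]
  rw [e2, e3]
  have hNn : ∀ a, 0 ≤ N a := fun a => Nat.cast_nonneg _
  calc ∑ a ∈ M, N a * ∑ b ∈ M, N b * kd (a - b)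
      = ∑ a ∈ M, ∑ b ∈ M, N a * N b * kd (a - b) := by
        refine Finset.sum_congr rfl (fun a _ => ?_)
        rw [Finset.mul_sum]
        refine Finset.sum_congr rfl (fun b _ => ?_)
        ring
    _ ≤ ∑ a ∈ M, ∑ b ∈ M, ((N a * N a) * kd (a - b) / 2 + (N b * N b) * kd (b - a) / 2) := by
        refine Finset.sum_le_sum (fun a _ => Finset.sum_le_sum (fun b _ => ?_))
        have h1 : kd (b - a) = kd (a - b) := by rw [← kd_neg]; congr 1; ring
        rw [h1]
        have h2 := kd_nonneg (a - b)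
        nlinarith [mul_nonneg (sq_nonneg (N a - N b)) h2]
    _ = ∑ a ∈ M, ∑ b ∈ M, (N a * N a) * kd (a - b) := by
        have : ∑ a ∈ M, ∑ b ∈ M, (N b * N b) * kd (b - a) / 2 =
            ∑ a ∈ M, ∑ b ∈ M, (N a * N a) * kd (a - b) / 2 := Finset.sum_comm
        simp only [Finset.sum_add_distrib]
        rw [this, ← Finset.sum_add_distrib]
        refine Finset.sum_congr rfl (fun a _ => ?_)
        rw [← Finset.sum_add_distrib]
        refine Finset.sum_congr rfl (fun b _ => ?_)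
        ring
    _ = ∑ a ∈ M, (N a * N a) * ∑ b ∈ M, kd (a - b) := by
        refine Finset.sum_congr rfl (fun a _ => ?_)
        rw [Finset.mul_sum]
    _ ≤ ∑ a ∈ M, (N a * N a) * C1 := by
        refine Finset.sum_le_sum (fun a _ => ?_)
        exact mul_le_mul_of_nonneg_left (sum_kd_le M a) (mul_nonneg (hNn a) (hNn a))
    _ = C1 * ∑ a ∈ M, N a * N a := by
        rw [← Finset.sum_mul]; ring

/-- Gaussian pair sum is bounded by the number of pairs at distance at most one. -/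
theorem pair_sum_gauss {ι : Type} (S : Finset ι) (y : ι → ℝ) :
    ∑ p ∈ S, ∑ q ∈ S, Real.exp (-(y p - y q) ^ 2 / 4) ≤
      Real.exp 2 * C1 * ((S ×ˢ S).filter (fun p => |y p.1 - y p.2| ≤ 1)).card := by
  have h1 := pair_sum_kd S (fun p => ⌊y p⌋)
  have h2 : (((S ×ˢ S).filter (fun p => ⌊y p.1⌋ = ⌊y p.2⌋)).card : ℝ) ≤
      ((S ×ˢ S).filter (fun p => |y p.1 - y p.2| ≤ 1)).card := by
    norm_cast
    refine Finset.card_le_card (fun p hp => ?_)
    rw [Finset.mem_filter] at hp ⊢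
    refine ⟨hp.1, ?_⟩
    have a1 := Int.floor_le (y p.1)
    have a2 := Int.lt_floor_add_one (y p.1)
    have b1 := Int.floor_le (y p.2)
    have b2 := Int.lt_floor_add_one (y p.2)
    have h := hp.2
    rw [h] at a1 a2
    rw [abs_le]
    constructor <;> linarith
  have h3 : ∀ p q : ι, Real.exp (-(y p - y q) ^ 2 / 4) ≤ Real.exp 2 * kd (⌊y p⌋ - ⌊y q⌋) := by
    intro p q
    rw [kd, ← Real.exp_add]
    apply Real.exp_le_exp.mpr
    have a1 := Int.floor_le (y p)
    have a2 := Int.lt_floor_add_one (y p)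
    have b1 := Int.floor_le (y q)
    have b2 := Int.lt_floor_add_one (y q)
    push_cast
    have h4 : |((⌊y p⌋ : ℝ) - ⌊y q⌋)| ≤ |y p - y q| + 1 := by
      have : ((⌊y p⌋ : ℝ) - ⌊y q⌋) = (y p - y q) + ((y q - ⌊y q⌋) - (y p - ⌊y p⌋)) := by ring
      rw [this]
      refine (abs_add_le _ _).trans ?_
      gcongr
      rw [abs_le]
      constructor <;> linarith
    have h5 : |y p - y q| ≤ (y p - y q) ^ 2 / 4 + 1 := by
      rw [abs_le]
      constructor <;> nlinarith [sq_nonneg (y p - y q - 2), sq_nonneg (y p - y q + 2)]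
    linarith
  calc ∑ p ∈ S, ∑ q ∈ S, Real.exp (-(y p - y q) ^ 2 / 4)
      ≤ ∑ p ∈ S, ∑ q ∈ S, Real.exp 2 * kd (⌊y p⌋ - ⌊y q⌋) :=
        Finset.sum_le_sum (fun p _ => Finset.sum_le_sum (fun q _ => h3 p q))
    _ = Real.exp 2 * ∑ p ∈ S, ∑ q ∈ S, kd (⌊y p⌋ - ⌊y q⌋) := by
        rw [Finset.mul_sum]
        refine Finset.sum_congr rfl (fun p _ => ?_)
        rw [Finset.mul_sum]
    _ ≤ Real.exp 2 * (C1 * ((S ×ˢ S).filter (fun p => ⌊y p.1⌋ = ⌊y p.2⌋)).card) := by
        gcongr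
    _ ≤ Real.exp 2 * (C1 * ((S ×ˢ S).filter (fun p => |y p.1 - y p.2| ≤ 1)).card) := by
        have := C1_nonneg
        gcongr
    _ = _ := by ring

end Pool.Agent.M17.Helper4.KC
end

/- Helper53.KN.Helper4.KC.Gallagher -/
section
/-! Sobolev-Gallagher inequality at spaced points with a Gaussian weight. -/

set_option autoImplicit false
open scoped BigOperators Classical
open MeasureTheory

namespace Pool.Agent.M17.Helper4.KC

/-- one interval -/
theorem sobolev_one (h h' k : ℝ → ℝ) (hd : ∀ x, HasDerivAt h (h' x) x)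
    (hk : Continuous k) (hh' : Continuous h') (hle : ∀ x, |h' x| ≤ k x) (u δ : ℝ) (hδ : 0 < δ) :
    h u ≤ δ⁻¹ * (∫ x in u..(u + δ), h x) + ∫ x in u..(u + δ), k x := by
  have hc : Continuous h := continuous_iff_continuousAt.mpr (fun x => (hd x).continuousAt)
  have hk0 : ∀ x, 0 ≤ k x := fun x => (abs_nonneg _).trans (hle x)
  have key : ∀ t ∈ Set.Icc u (u + δ), h u - (∫ x in u..(u + δ), k x) ≤ h t := by
    intro t ht
    have h1 : ∫ x in u..t, h' x = h t - h u :=
      intervalIntegral.integral_eq_sub_of_hasDerivAt (fun x _ => hd x) (hh'.intervalIntegrable _ _)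
    have h2 : -(∫ x in u..t, h' x) ≤ ∫ x in u..t, k x := by
      rw [← intervalIntegral.integral_neg]
      apply intervalIntegral.integral_mono_on ht.1 (hh'.neg.intervalIntegrable _ _)
        (hk.intervalIntegrable _ _)
      intro x _
      exact (neg_le_abs _).trans (hle x)
    have h3 : ∫ x in u..t, k x ≤ ∫ x in u..(u + δ), k x := by
      apply intervalIntegral.integral_mono_interval le_rfl ht.1 ht.2 _ (hk.intervalIntegrable _ _)
      exact Filter.Eventually.of_forall hk0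
    linarith
  have h4 : ∫ x in u..(u + δ), (h u - (∫ x in u..(u + δ), k x)) ≤ ∫ x in u..(u + δ), h x := by
    apply intervalIntegral.integral_mono_on (by linarith) (by simp) (hc.intervalIntegrable _ _)
    exact key
  rw [intervalIntegral.integral_const, smul_eq_mul] at h4
  have h5 : (u + δ - u) = δ := by ring
  rw [h5] at h4
  have h6 : h u - (∫ x in u..(u + δ), k x) ≤ δ⁻¹ * ∫ x in u..(u + δ), h x := by
    rw [inv_mul_eq_div, le_div_iff₀ hδ]
    linarith
  linarith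

/-- sum over spaced points in `[u0, u0+1]` -/
theorem sum_spaced_le (Φ : ℝ → ℝ) (hΦ : Continuous Φ) (hΦ0 : ∀ x, 0 ≤ Φ x) (U : Finset ℝ) (u0 δ : ℝ)
    (hδ : 0 < δ) (hδ1 : δ ≤ 1) (hU : ∀ u ∈ U, u0 ≤ u ∧ u ≤ u0 + 1)
    (hs : ∀ u ∈ U, ∀ u' ∈ U, u ≠ u' → δ ≤ |u - u'|)
    (hint : Integrable (fun x => Real.exp (-(x - u0) ^ 2) * Φ x)) :
    ∑ u ∈ U, ∫ x in u..(u + δ), Φ x ≤
      Real.exp 4 * ∫ x, Real.exp (-(x - u0) ^ 2) * Φ x := by
  have e1 : ∀ u ∈ U, ∫ x in u..(u + δ), Φ x = ∫ x, (Set.Ioc u (u + δ)).indicator Φ x := by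
    intro u _
    rw [intervalIntegral.integral_of_le (by (clear * - hδ; linarith)), integral_indicator measurableSet_Ioc]
  have i1 : ∀ u ∈ U, Integrable ((Set.Ioc u (u + δ)).indicator Φ) := by
    intro u _
    rw [integrable_indicator_iff measurableSet_Ioc]
    exact (hΦ.intervalIntegrable u (u + δ)).1
  rw [Finset.sum_congr rfl e1, ← integral_finsetSum U i1, ← integral_const_mul]
  apply integral_mono
  · exact integrable_finsetSum U i1
  · exact hint.const_mul _
  intro x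
  simp only
  by_cases hx : ∃ u ∈ U, x ∈ Set.Ioc u (u + δ)
  · obtain ⟨u, hu, hxu⟩ := hx
    rw [Finset.sum_eq_single u]
    · rw [Set.indicator_of_mem hxu]
      have h1 : 1 ≤ Real.exp 4 * Real.exp (-(x - u0) ^ 2) := by
        rw [← Real.exp_add]
        apply Real.one_le_exp
        have a1 := (hU u hu).1
        have a2 := (hU u hu).2
        have b1 := hxu.1
        have b2 := hxu.2
        nlinarith
      calc Φ x = 1 * Φ x := (one_mul _).symm
        _ ≤ (Real.exp 4 * Real.exp (-(x - u0) ^ 2)) * Φ x := by gcongr; exact hΦ0 x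
        _ = _ := by ring
    · intro v hv hvu
      apply Set.indicator_of_notMem
      intro hxv
      have := hs v hv u hu hvu
      have b1 := hxu.1
      have b2 := hxu.2
      have c1 := hxv.1
      have c2 := hxv.2
      rcases abs_cases (v - u) with h | h <;> linarith
    · intro h
      exact absurd hu h
  · push Not at hx
    rw [Finset.sum_eq_zero]
    · have := hΦ0 x
      positivity
    · intro u hu
      exact Set.indicator_of_notMem (hx u hu) _

/-- Gallagher with Gaussian weight for a complex valued function. -/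
theorem gallagher (g g' : ℝ → ℂ) (hd : ∀ x, HasDerivAt g (g' x) x) (hg' : Continuous g')
    (U : Finset ℝ) (u0 T : ℝ) (hT : 1 ≤ T) (hU : ∀ u ∈ U, u0 ≤ u ∧ u ≤ u0 + 1)
    (hs : ∀ u ∈ U, ∀ u' ∈ U, u ≠ u' → 1 / T ≤ |u - u'|)
    (hint : Integrable (fun x => Real.exp (-(x - u0) ^ 2) * ‖g x‖ ^ 2))
    (hint' : Integrable (fun x => Real.exp (-(x - u0) ^ 2) * ‖g' x‖ ^ 2)) :
    ∑ u ∈ U, ‖g u‖ ^ 2 ≤ Real.exp 4 * (2 * T * (∫ x, Real.exp (-(x - u0) ^ 2) * ‖g x‖ ^ 2) +
      T⁻¹ * ∫ x, Real.exp (-(x - u0) ^ 2) * ‖g' x‖ ^ 2) := by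
  have hT0 : 0 < T := by linarith
  have hgc : Continuous g := continuous_iff_continuousAt.mpr (fun x => (hd x).continuousAt)
  set Φ : ℝ → ℝ := fun x => 2 * T * ‖g x‖ ^ 2 + T⁻¹ * ‖g' x‖ ^ 2 with hΦ
  have hΦc : Continuous Φ := by
    rw [hΦ]; fun_prop
  have hΦ0 : ∀ x, 0 ≤ Φ x := fun x => by rw [hΦ]; (clear * - hT; positivity)
  have hδ : (0 : ℝ) < 1 / T := by positivity
  have hδ1 : 1 / T ≤ 1 := by rw [div_le_one hT0]; exact hT
  have hintΦ : Integrable (fun x => Real.exp (-(x - u0) ^ 2) * Φ x) := by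
    have := (hint.const_mul (2 * T)).add (hint'.const_mul T⁻¹)
    refine this.congr (Filter.Eventually.of_forall (fun x => ?_))
    simp only [Pi.add_apply, hΦ]
    ring
  have h1 := sum_spaced_le Φ hΦc hΦ0 U u0 (1 / T) hδ hδ1 hU hs hintΦ
  have h2 : ∀ u ∈ U, ‖g u‖ ^ 2 ≤ ∫ x in u..(u + 1 / T), Φ x := by
    intro u _
    have hds : ∀ x, HasDerivAt (fun y => ‖g y‖ ^ 2) (2 * inner ℝ (g x) (g' x)) x := fun x =>
      (hd x).norm_sq
    have hc1 : Continuous (fun x => 2 * inner ℝ (g x) (g' x)) := by fun_prop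
    have h3 := sobolev_one (fun y => ‖g y‖ ^ 2) (fun x => 2 * inner ℝ (g x) (g' x))
      (fun x => T * ‖g x‖ ^ 2 + T⁻¹ * ‖g' x‖ ^ 2) hds (by fun_prop) hc1 (by
        intro x
        rw [abs_mul, abs_two]
        have h4 := abs_real_inner_le_norm (g x) (g' x)
        have h5 : 2 * (‖g x‖ * ‖g' x‖) ≤ T * ‖g x‖ ^ 2 + T⁻¹ * ‖g' x‖ ^ 2 := by
          have h6 : 0 ≤ T⁻¹ * (T * ‖g x‖ - ‖g' x‖) ^ 2 := by (clear * - hT; positivity)
          have h7 : T⁻¹ * (T * ‖g x‖ - ‖g' x‖) ^ 2 =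
              T * ‖g x‖ ^ 2 + T⁻¹ * ‖g' x‖ ^ 2 - 2 * (‖g x‖ * ‖g' x‖) := by
            field_simp
            ring
          (clear * - h6 h7; linarith)
        (clear * - h4 h5; linarith)) u (1 / T) hδ
    refine h3.trans (le_of_eq ?_)
    rw [one_div, inv_inv, ← intervalIntegral.integral_const_mul, ← intervalIntegral.integral_add]
    · apply intervalIntegral.integral_congr
      intro x _
      simp only [hΦ]
      ring
    · exact Continuous.intervalIntegrable (by fun_prop) _ _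
    · exact Continuous.intervalIntegrable (by fun_prop) _ _
  refine (Finset.sum_le_sum h2).trans (h1.trans (le_of_eq ?_))
  congr 1
  rw [← integral_const_mul, ← integral_const_mul, ← integral_add (hint.const_mul _) (hint'.const_mul _)]
  apply integral_congr_ae
  refine Filter.Eventually.of_forall (fun x => ?_)
  simp only [hΦ]
  ring

end Pool.Agent.M17.Helper4.KC
end

/- Helper53.KN.Helper4.KC.FourthU -/
section
/-! KC-7: fourth moment over spaced points by additive energy. -/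

set_option autoImplicit false
open scoped BigOperators Classical ComplexConjugate
open MeasureTheory

namespace Pool.Agent.M17.Helper4.KC

theorem gauss_mean {ι : Type} (S : Finset ι) (a w : ι → ℂ) (u0 K A : ℝ) (hu0 : 0 ≤ u0) (hK0 : K ≤ 0)
    (hA : ∀ p ∈ S, ‖a p‖ ≤ A) (hw : ∀ p ∈ S, -2 ≤ (w p).re ∧ (w p).re ≤ K) :
    Integrable (fun x : ℝ => Real.exp (-(x - u0) ^ 2) * ‖∑ p ∈ S, a p * Complex.exp (w p * x)‖ ^ 2) ∧
    ∫ x : ℝ, Real.exp (-(x - u0) ^ 2) * ‖∑ p ∈ S, a p * Complex.exp (w p * x)‖ ^ 2 ≤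
      Real.sqrt Real.pi * Real.exp 4 * A ^ 2 * Real.exp (2 * K * u0) *
        ∑ p ∈ S, ∑ q ∈ S, Real.exp (-((w p).im - (w q).im) ^ 2 / 4) := by
  set P : ι → ι → ℝ → ℂ := fun p q x => Complex.exp ((-1 : ℂ) * (x : ℂ) ^ 2 +
    ((2 * u0 : ℝ) + w p + conj (w q)) * (x : ℂ) + ((-(u0 ^ 2) : ℝ) : ℂ)) with hP
  have key : ∀ x : ℝ, ((Real.exp (-(x - u0) ^ 2) *
      ‖∑ p ∈ S, a p * Complex.exp (w p * x)‖ ^ 2 : ℝ) : ℂ) =
      ∑ p ∈ S, ∑ q ∈ S, (a p * conj (a q)) * P p q x := by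
    intro x
    push_cast
    rw [← Complex.mul_conj', map_sum, Finset.sum_mul_sum, Finset.mul_sum]
    refine Finset.sum_congr rfl (fun p _ => ?_)
    rw [Finset.mul_sum]
    refine Finset.sum_congr rfl (fun q _ => ?_)
    rw [map_mul, ← Complex.exp_conj, map_mul, Complex.conj_ofReal, hP]
    simp only
    have : Complex.exp (-((x : ℂ) - u0) ^ 2) * (a p * Complex.exp (w p * x) *
        (conj (a q) * Complex.exp (conj (w q) * x))) =
        (a p * conj (a q)) * (Complex.exp (-((x : ℂ) - u0) ^ 2) * Complex.exp (w p * x) *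
          Complex.exp (conj (w q) * x)) := by ring
    rw [this, ← Complex.exp_add, ← Complex.exp_add]
    congr 2
    push_cast
    ring
  have hPi : ∀ p q : ι, Integrable (P p q) := fun p q =>
    integrable_cexp_quadratic' (by simp) _ _
  have hint : Integrable (fun x : ℝ => ∑ p ∈ S, ∑ q ∈ S, (a p * conj (a q)) * P p q x) :=
    integrable_finsetSum _ (fun p _ => integrable_finsetSum _ (fun q _ => (hPi p q).const_mul _))
  have hintC : Integrable (fun x : ℝ => ((Real.exp (-(x - u0) ^ 2) *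
      ‖∑ p ∈ S, a p * Complex.exp (w p * x)‖ ^ 2 : ℝ) : ℂ)) :=
    hint.congr (Filter.Eventually.of_forall (fun x => (key x).symm))
  have hintR : Integrable (fun x : ℝ => Real.exp (-(x - u0) ^ 2) *
      ‖∑ p ∈ S, a p * Complex.exp (w p * x)‖ ^ 2) := by
    have := hintC.re
    simpa only [RCLike.re_to_complex, Complex.ofReal_re] using this
  refine ⟨hintR, ?_⟩
  have hnn : 0 ≤ ∫ x : ℝ, Real.exp (-(x - u0) ^ 2) *
      ‖∑ p ∈ S, a p * Complex.exp (w p * x)‖ ^ 2 := by
    apply integral_nonneg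
    intro x
    simp only [Pi.zero_apply]
    positivity
  have e1 : ((∫ x : ℝ, Real.exp (-(x - u0) ^ 2) *
      ‖∑ p ∈ S, a p * Complex.exp (w p * x)‖ ^ 2 : ℝ) : ℂ) =
      ∑ p ∈ S, ∑ q ∈ S, (a p * conj (a q)) * ∫ x : ℝ, P p q x := by
    rw [← integral_complex_ofReal]
    rw [integral_congr_ae (Filter.Eventually.of_forall key)]
    rw [integral_finsetSum _ (fun p _ => integrable_finsetSum _ (fun q _ => (hPi p q).const_mul _))]
    refine Finset.sum_congr rfl (fun p _ => ?_)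
    rw [integral_finsetSum _ (fun q _ => (hPi p q).const_mul _)]
    refine Finset.sum_congr rfl (fun q _ => ?_)
    rw [integral_const_mul]
  have e2 : ∀ p ∈ S, ∀ q ∈ S, ‖∫ x : ℝ, P p q x‖ ≤
      Real.sqrt Real.pi * Real.exp 4 * Real.exp (2 * K * u0) *
        Real.exp (-((w p).im - (w q).im) ^ 2 / 4) := by
    intro p hp q hq
    rw [hP]
    simp only
    rw [integral_cexp_quadratic (by simp)]
    rw [norm_mul]
    have f1 : ‖((Real.pi : ℂ) / -(-1 : ℂ)) ^ (1 / 2 : ℂ)‖ = Real.sqrt Real.pi := by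
      rw [neg_neg, div_one]
      rw [Complex.norm_cpow_eq_rpow_re_of_pos Real.pi_pos]
      rw [Real.sqrt_eq_rpow]
      norm_num
    rw [f1, mul_assoc, mul_assoc]
    apply mul_le_mul_of_nonneg_left _ (Real.sqrt_nonneg _)
    rw [Complex.norm_exp, ← Real.exp_add, ← Real.exp_add]
    apply Real.exp_le_exp.mpr
    have f2 : (((-(u0 ^ 2) : ℝ) : ℂ) - ((2 * u0 : ℝ) + w p + conj (w q)) ^ 2 / (4 * (-1 : ℂ))) =
        ((u0 : ℝ) : ℂ) * (w p + conj (w q)) + (w p + conj (w q)) ^ 2 * ((1 / 4 : ℝ) : ℂ) := by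
      push_cast
      ring
    rw [f2]
    obtain ⟨h1, h2⟩ := hw p hp
    obtain ⟨h3, h4⟩ := hw q hq
    rw [Complex.add_re, Complex.re_ofReal_mul, Complex.re_mul_ofReal, sq]
    simp only [Complex.add_re, Complex.conj_re, Complex.mul_re, Complex.add_im, Complex.conj_im]
    have g1 : u0 * ((w p).re + (w q).re) ≤ 2 * K * u0 := by (clear * - hu0 h2 h4; nlinarith)
    have g2 : ((w p).re + (w q).re) * ((w p).re + (w q).re) ≤ 16 := by (clear * - h1 h3 hK0 h2 h4; nlinarith)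
    (clear * - g1 g2; nlinarith)
  have e3 : ∫ x : ℝ, Real.exp (-(x - u0) ^ 2) *
      ‖∑ p ∈ S, a p * Complex.exp (w p * x)‖ ^ 2 =
      ‖∑ p ∈ S, ∑ q ∈ S, (a p * conj (a q)) * ∫ x : ℝ, P p q x‖ := by
    rw [← e1, Complex.norm_real, Real.norm_of_nonneg hnn]
  rw [e3]
  refine (norm_sum_le _ _).trans ?_
  rw [Finset.mul_sum]
  refine Finset.sum_le_sum (fun p hp => ?_)
  refine (norm_sum_le _ _).trans ?_
  rw [Finset.mul_sum]
  refine Finset.sum_le_sum (fun q hq => ?_)
  rw [norm_mul, norm_mul, RCLike.norm_conj]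
  have hA0 : 0 ≤ A := (norm_nonneg _).trans (hA p hp)
  calc ‖a p‖ * ‖a q‖ * ‖∫ x : ℝ, P p q x‖ ≤ A * A * (Real.sqrt Real.pi * Real.exp 4 *
        Real.exp (2 * K * u0) * Real.exp (-((w p).im - (w q).im) ^ 2 / 4)) := by
        have := hA p hp
        have := hA q hq
        have := e2 p hp q hq
        gcongr
    _ = _ := by ring

end Pool.Agent.M17.Helper4.KC

open Pool.Agent.M17.Helper4.KC in
/-- KC-7 -/
theorem Pool.Agent.M17.Helper4.KC.fourthU : Pool.Agent.M17.Helper60.KS.FourthU := by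
  have hC1 : 0 < C1 := by
    have h1 := sum_kd_le {0} 0
    simp only [Finset.sum_singleton, sub_zero] at h1
    have h2 : kd 0 = 1 := by simp [kd]
    linarith
  refine ⟨18 * Real.exp 4 * (Real.sqrt Real.pi * Real.exp 4) * (Real.exp 2 * C1), by positivity, ?_⟩
  intro Z c B b T u0 U hT hu0 hb hB hZ hU hs
  have hT0 : 0 < T := by linarith
  set S := Z ×ˢ Z with hS
  set a : ℂ × ℂ → ℂ := fun p => c p.1 * c p.2 with ha
  set w : ℂ × ℂ → ℂ := fun p => p.1 + p.2 - 2 with hw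
  set g : ℝ → ℂ := fun x => ∑ p ∈ S, a p * Complex.exp (w p * x) with hg
  set g' : ℝ → ℂ := fun x => ∑ p ∈ S, (a p * w p) * Complex.exp (w p * x) with hg'
  have hsq : ∀ x : ℝ, (∑ ρ ∈ Z, c ρ * Complex.exp ((ρ - 1) * (x : ℂ))) ^ 2 = g x := by
    intro x
    rw [sq, Finset.sum_mul_sum, hg, hS]
    simp only
    rw [Finset.sum_product]
    refine Finset.sum_congr rfl (fun p _ => Finset.sum_congr rfl (fun q _ => ?_))
    rw [ha, hw]
    simp only
    have : (p + q - 2) * (x : ℂ) = (p - 1) * x + (q - 1) * x := by ring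
    rw [this, Complex.exp_add]
    ring
  have hfour : ∀ u : ℝ, ‖∑ ρ ∈ Z, c ρ * Complex.exp ((ρ - 1) * (u : ℂ))‖ ^ 4 = ‖g u‖ ^ 2 := by
    intro u
    rw [← hsq u, norm_pow]
    ring
  have hwre : ∀ p ∈ S, -2 ≤ (w p).re ∧ (w p).re ≤ 2 * (b - 1) := by
    intro p hp
    rw [hS, Finset.mem_product] at hp
    obtain ⟨h1, h2, _, _⟩ := hZ p.1 hp.1
    obtain ⟨h3, h4, _, _⟩ := hZ p.2 hp.2
    rw [hw]
    simp only [Complex.sub_re, Complex.add_re]
    have : (2 : ℂ).re = 2 := rfl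
    rw [this]
    constructor <;> (clear * - h1 h3 h2 h4; linarith)
  have haB : ∀ p ∈ S, ‖a p‖ ≤ B ^ 2 := by
    intro p hp
    rw [hS, Finset.mem_product] at hp
    obtain ⟨_, _, _, h1⟩ := hZ p.1 hp.1
    obtain ⟨_, _, _, h2⟩ := hZ p.2 hp.2
    rw [ha]
    simp only [norm_mul]
    rw [sq]
    (clear * - h1 h2 hB; gcongr)
  have hwB : ∀ p ∈ S, ‖w p‖ ≤ 4 * T := by
    intro p hp
    have h5 := hwre p hp
    rw [hS, Finset.mem_product] at hp
    obtain ⟨h1, _, h1', _⟩ := hZ p.1 hp.1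
    obtain ⟨h2, _, h2', _⟩ := hZ p.2 hp.2
    refine (Complex.norm_le_abs_re_add_abs_im _).trans ?_
    have h6 : |(w p).re| ≤ 2 := by rw [abs_le]; constructor <;> (clear * - h5 hb; linarith)
    have h7 : |(w p).im| ≤ 2 * T := by
      rw [hw]
      simp only [Complex.sub_im, Complex.add_im]
      have : (2 : ℂ).im = 0 := rfl
      rw [this, sub_zero]
      exact (abs_add_le _ _).trans (by (clear * - h1' h2'; linarith))
    linarith
  have hawB : ∀ p ∈ S, ‖a p * w p‖ ≤ B ^ 2 * (4 * T) := by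
    intro p hp
    rw [norm_mul]
    have := haB p hp
    have := hwB p hp
    gcongr
  have hd : ∀ x : ℝ, HasDerivAt g (g' x) x := by
    intro x
    rw [hg, hg']
    apply HasDerivAt.fun_sum
    intro p _
    have h1 : HasDerivAt (fun y : ℝ => w p * (y : ℂ)) (w p) x := by
      have := (hasDerivAt_id x).ofReal_comp.const_mul (w p)
      simpa using this
    have h2 := h1.cexp.const_mul (a p)
    refine h2.congr_deriv ?_
    ring
  have hg'c : Continuous g' := by
    rw [hg']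
    fun_prop
  obtain ⟨i1, b1⟩ := gauss_mean S a w u0 (2 * (b - 1)) (B ^ 2) hu0 (by (clear * - hb; linarith)) haB hwre
  obtain ⟨i2, b2⟩ := gauss_mean S (fun p => a p * w p) w u0 (2 * (b - 1)) (B ^ 2 * (4 * T)) hu0
    (by (clear * - hb; linarith)) hawB hwre
  have hG := gallagher g g' hd hg'c U u0 T hT hU hs i1 i2
  have hE : ∑ p ∈ S, ∑ q ∈ S, Real.exp (-((w p).im - (w q).im) ^ 2 / 4) ≤
      Real.exp 2 * C1 * (Pool.Agent.M17.Helper60.KS.EZ Z) := by
    have h1 := pair_sum_gauss S (fun p => (w p).im)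
    refine h1.trans (le_of_eq ?_)
    congr 2
    rw [Pool.Agent.M17.Helper60.KS.EZ, hS]
    congr 1
    apply Finset.filter_congr
    intro p _
    have : (w p.1).im - (w p.2).im = p.1.1.im + p.1.2.im - p.2.1.im - p.2.2.im := by
      rw [hw]
      simp only [Complex.sub_im, Complex.add_im]
      ring
    rw [this]
  set E : ℝ := Real.exp 2 * C1 * (Pool.Agent.M17.Helper60.KS.EZ Z) with hEdef
  have hexp : Real.exp (2 * (2 * (b - 1)) * u0) = Real.exp (4 * (b - 1) * u0) := by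
    congr 1; ring
  rw [hexp] at b1 b2
  calc ∑ u ∈ U, ‖∑ ρ ∈ Z, c ρ * Complex.exp ((ρ - 1) * (u : ℂ))‖ ^ 4
      = ∑ u ∈ U, ‖g u‖ ^ 2 := Finset.sum_congr rfl (fun u _ => hfour u)
    _ ≤ _ := hG
    _ ≤ Real.exp 4 * (2 * T * (Real.sqrt Real.pi * Real.exp 4 * (B ^ 2) ^ 2 *
          Real.exp (4 * (b - 1) * u0) * E) +
        T⁻¹ * (Real.sqrt Real.pi * Real.exp 4 * (B ^ 2 * (4 * T)) ^ 2 *
          Real.exp (4 * (b - 1) * u0) * E)) := by
        gcongr
        · exact b1.trans (by (clear * - hE; gcongr))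
        · exact b2.trans (by (clear * - hE; gcongr))
    _ = _ := by
        rw [hEdef]
        field_simp
        ring
end

/- Helper53.KN.Helper73.KC.Energy -/
section
/-! KC-8: additive energy of large values. -/

set_option autoImplicit false
open MeasureTheory Complex

namespace Pool.Agent.M17.Helper73.KC

open Pool.Agent.M17.Helper60.KS (Spaced1 InStrip EZ DP EnergyG)

lemma EZ_eq_sum (Z : Finset ℂ) : EZ Z = ∑ ρ ∈ Z, ((Z ×ˢ (Z ×ˢ Z)).filter
    (fun p : ℂ × (ℂ × ℂ) => |ρ.im - (p.2.1.im + p.2.2.im - p.1.im)| ≤ 1)).card := by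
  classical
  unfold EZ
  rw [Finset.card_filter, Finset.sum_product, Finset.sum_product]
  refine Finset.sum_congr rfl fun x _ => ?_
  rw [Finset.card_filter, Finset.sum_product]
  refine Finset.sum_congr rfl fun y _ => Finset.sum_congr rfl fun z _ => ?_
  have : x.im - (z.1.im + z.2.im - y.im) = x.im + y.im - z.1.im - z.2.im := by ring
  simp only [this]

lemma norm_triple (Z : Finset ℂ) (y : ℝ) :
    ‖∑ p ∈ Z ×ˢ (Z ×ˢ Z), cexp (-(I * ((p.2.1.im + p.2.2.im - p.1.im : ℝ) : ℂ) * (y : ℂ)))‖ =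
      ‖WW Z y‖ ^ 3 := by
  classical
  have h1 : ∑ p ∈ Z ×ˢ (Z ×ˢ Z), cexp (-(I * ((p.2.1.im + p.2.2.im - p.1.im : ℝ) : ℂ) * (y : ℂ))) =
      WW Z y * ((starRingEnd ℂ) (WW Z y) * (starRingEnd ℂ) (WW Z y)) := by
    have hc : (starRingEnd ℂ) (WW Z y) = ∑ ρ ∈ Z, cexp (-(I * (ρ.im : ℝ) * y)) := by
      unfold WW
      rw [map_sum]
      refine Finset.sum_congr rfl fun ρ _ => ?_
      rw [← Complex.exp_conj]
      congr 1
      simp
    rw [hc, Finset.sum_mul_sum, Finset.sum_product]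
    unfold WW
    rw [Finset.sum_mul]
    refine Finset.sum_congr rfl fun x _ => ?_
    rw [Finset.sum_product, Finset.mul_sum]
    refine Finset.sum_congr rfl fun z _ => ?_
    rw [Finset.mul_sum]
    refine Finset.sum_congr rfl fun w _ => ?_
    rw [← Complex.exp_add, ← Complex.exp_add]
    congr 1
    push_cast
    ring
  rw [h1, norm_mul, norm_mul, RCLike.norm_conj]
  ring

lemma DP_differentiable (g : ℕ → ℂ) (Q h : ℕ) : Differentiable ℂ (DP g Q h) := by
  unfold DP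
  refine Differentiable.fun_sum fun n hn => ?_
  have hn0 : (n : ℂ) ≠ 0 := by
    rw [Finset.mem_Ioc] at hn
    exact_mod_cast (by omega : n ≠ 0)
  exact (differentiable_const _).mul (differentiable_id.neg.const_cpow (Or.inl hn0))

lemma DP_eq (g : ℕ → ℂ) (Q h : ℕ) (σ t : ℝ) : DP g Q h (σ + t * I) =
    ∑ j ∈ Finset.Ioc Q (h * Q), (g j * (j : ℂ) ^ (-(σ : ℂ))) * cexp (-(I * t * (Real.log j : ℝ))) := by
  unfold DP
  refine Finset.sum_congr rfl fun n hn => ?_
  have hn0 : (n : ℂ) ≠ 0 := by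
    rw [Finset.mem_Ioc] at hn
    exact_mod_cast (by omega : n ≠ 0)
  rw [mul_assoc]
  congr 1
  rw [Complex.cpow_def_of_ne_zero hn0, Complex.cpow_def_of_ne_zero hn0, ← Complex.exp_add,
    ← Complex.natCast_log]
  congr 1
  ring

lemma coef_bound {g : ℕ → ℂ} {Q h : ℕ} {B b r σ : ℝ} (hh : 1 ≤ h) (hQ : 1 ≤ Q) (hr : r ≤ 1 / 2)
    (hr0 : 0 < r)
    (hb : 0 ≤ b) (hB : 0 ≤ B) (hg : ∀ n, ‖g n‖ ≤ B) (hσ : b - r ≤ σ) {j : ℕ}
    (hj : j ∈ Finset.Ioc Q (h * Q)) :
    ‖g j * (j : ℂ) ^ (-(σ : ℂ))‖ ≤ B * (h * (Q : ℝ) ^ (-b + r)) := by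
  rw [Finset.mem_Ioc] at hj
  have hj0 : 0 < j := by omega
  have cj : (0 : ℝ) < j := by exact_mod_cast hj0
  have cQ : (1 : ℝ) ≤ Q := by exact_mod_cast hQ
  have ch : (1 : ℝ) ≤ h := by exact_mod_cast hh
  rw [norm_mul]
  refine mul_le_mul (hg j) ?_ (norm_nonneg _) hB
  rw [← Complex.ofReal_neg, ← Complex.ofReal_natCast, Complex.norm_cpow_eq_rpow_re_of_pos cj,
    Complex.ofReal_re]
  have hQb : 0 ≤ (Q : ℝ) ^ (-b + r) := by positivity
  rcases le_or_gt 0 σ with h1 | h1
  · calc (j : ℝ) ^ (-σ) ≤ (Q : ℝ) ^ (-σ) :=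
          Real.rpow_le_rpow_of_nonpos (by (clear * - hr hr0 cQ; linarith)) (by exact_mod_cast hj.1.le) (by (clear * - h1; linarith))
      _ ≤ (Q : ℝ) ^ (-b + r) := Real.rpow_le_rpow_of_exponent_le cQ (by (clear * - hσ; linarith))
      _ = 1 * (Q : ℝ) ^ (-b + r) := (one_mul _).symm
      _ ≤ h * (Q : ℝ) ^ (-b + r) := mul_le_mul_of_nonneg_right ch hQb
  · calc (j : ℝ) ^ (-σ) ≤ ((h : ℝ) * Q) ^ (-σ) := by
          refine Real.rpow_le_rpow cj.le ?_ (by (clear * - h1; linarith))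
          exact_mod_cast hj.2
      _ = (h : ℝ) ^ (-σ) * (Q : ℝ) ^ (-σ) := Real.mul_rpow (by (clear * - hr hr0 ch; linarith)) (by (clear * - hr hr0 cQ; linarith))
      _ ≤ h * (Q : ℝ) ^ (-b + r) := by
          refine mul_le_mul ?_ (Real.rpow_le_rpow_of_exponent_le cQ (by (clear * - hσ; linarith))) (by positivity)
            (by (clear * - hr hr0 ch; linarith))
          calc (h : ℝ) ^ (-σ) ≤ (h : ℝ) ^ (1 : ℝ) :=
                Real.rpow_le_rpow_of_exponent_le ch (by (clear * - hr hr0 hb hσ; linarith))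
            _ = h := Real.rpow_one _

theorem energyG_of (h12 : Pool.Agent.M17.Helper10.KSZ.A12') (h13 : Pool.Agent.M17.Helper10.KSZ.A13) :
    EnergyG := by
  classical
  intro h hh
  obtain ⟨C3, hC3, h3⟩ := third_total h13 h hh
  have ch : (1 : ℝ) ≤ h := by exact_mod_cast hh
  refine ⟨2 * Real.exp 4 * 2 * h ^ 2 * C3, by (clear * - hh hC3; positivity), ?_⟩
  intro Z g Q B V b b' T r hQ hT hr0 hr hb hbb hbb1 hb1 hV hB hg hZ hsp hVG
  have cQ : (1 : ℝ) ≤ Q := by exact_mod_cast hQ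
  have hT0 : 0 ≤ T := by (clear * - hT hr0 hr; linarith)
  set P : Finset (ℂ × (ℂ × ℂ)) := Z ×ˢ (Z ×ˢ Z) with hP
  set a : ℂ × (ℂ × ℂ) → ℝ := fun p => p.2.1.im + p.2.2.im - p.1.im with ha
  set S3 : ℝ := ∑ n ∈ Finset.Ioc Q (h * Q), ∑ n' ∈ Finset.Ioc Q (h * Q),
      ‖WW Z (Real.log n - Real.log n')‖ ^ 3 with hS3
  have hS30 : 0 ≤ S3 := Finset.sum_nonneg fun _ _ => Finset.sum_nonneg fun _ _ => by (clear * -; positivity)
  set D : ℝ := B * (h * (Q : ℝ) ^ (-b + r)) with hD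
  have hD0 : 0 ≤ D := by (clear * - hB hh hQ; positivity)
  have hmean : ∀ σ : ℝ, b - r ≤ σ → ∫ t : ℝ,
      (∑ p ∈ P, Real.exp (-(t - a p) ^ 2)) * ‖DP g Q h (σ + t * I)‖ ^ 2 ≤ 2 * (D ^ 2 * S3) := by
    intro σ hσ
    have h4 := (gauss_mean P a (Finset.Ioc Q (h * Q)) (fun j => g j * (j : ℂ) ^ (-(σ : ℂ)))
      (fun j => Real.log j)).2
    simp only [← DP_eq] at h4
    refine h4.trans ?_
    refine mul_le_mul_of_nonneg_left ?_ (by norm_num)
    rw [hS3, Finset.mul_sum]
    refine Finset.sum_le_sum fun j hj => ?_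
    rw [Finset.mul_sum]
    refine Finset.sum_le_sum fun k hk => ?_
    have h5 := norm_triple Z (Real.log j - Real.log k)
    rw [h5]
    have h6 := coef_bound hh hQ hr hr0 hb hB hg hσ hj
    have h7 := coef_bound hh hQ hr hr0 hb hB hg hσ hk
    refine mul_le_mul_of_nonneg_right ?_ (by (clear * -; positivity))
    calc ‖g j * (j : ℂ) ^ (-(σ : ℂ))‖ * ‖g k * (k : ℂ) ^ (-(σ : ℂ))‖ ≤ D * D :=
          mul_le_mul h6 h7 (norm_nonneg _) hD0
      _ = D ^ 2 := by ring
  have hint : ∀ σ : ℝ, Integrable (fun t : ℝ =>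
      (∑ p ∈ P, Real.exp (-(t - a p) ^ 2)) * ‖DP g Q h (σ + t * I)‖ ^ 2) := by
    intro σ
    have h4 := (gauss_mean P a (Finset.Ioc Q (h * Q)) (fun j => g j * (j : ℂ) ^ (-(σ : ℂ)))
      (fun j => Real.log j)).1
    simp only [← DP_eq] at h4
    exact h4
  have hA := stepA h12 (DP_differentiable g Q h) Z hr0 hr hb hbb hb1 hT0 hZ hsp P a hint
    (M := 2 * (D ^ 2 * S3)) (fun σ h1 _ => hmean σ h1)
  -- lower bound
  have hlow : (EZ Z : ℝ) * V ^ 2 ≤ ∑ ρ ∈ Z,
      ((P.filter (fun p => |ρ.im - a p| ≤ 1)).card : ℝ) * ‖DP g Q h ρ‖ ^ 2 := by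
    rw [EZ_eq_sum]
    push_cast
    rw [Finset.sum_mul]
    refine Finset.sum_le_sum fun ρ hρ => ?_
    refine mul_le_mul_of_nonneg_left (pow_le_pow_left₀ hV.le (hVG ρ hρ) 2) (by (clear * -; positivity))
  have hS := h3 Z Q T hQ hT (fun ρ hρ => (hZ ρ hρ).2.2) hsp
  set E : ℝ := (EZ Z : ℝ) with hE
  have hE0 : 0 ≤ E := by (clear * -; positivity)
  set R : ℝ := (Q : ℝ) ^ 2 * Real.sqrt Z.card + Q * Z.card * Real.sqrt T with hR
  have hR0 : 0 ≤ R := by (clear * - hQ hT; positivity)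
  have hlogQ : 0 ≤ Real.log Q := Real.log_nonneg cQ
  have hDsq : D ^ 2 = B ^ 2 * h ^ 2 * (Q : ℝ) ^ (-2 * b + 2 * r) := by
    rw [hD, mul_pow, mul_pow, ← Real.rpow_natCast ((Q : ℝ) ^ (-b + r)) 2, ← Real.rpow_mul (by (clear * - hr0 hr cQ; linarith))]
    have : (-b + r) * ((2 : ℕ) : ℝ) = -2 * b + 2 * r := by push_cast; ring
    rw [this]
    ring
  have hfin : E * V ^ 2 ≤ (2 * Real.exp 4 * 2 * h ^ 2 * C3 * B ^ 2 / r ^ 2 *
      (Q : ℝ) ^ (-2 * b + 2 * r) * (1 + Real.log Q) * R) * Real.sqrt E := by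
    refine hlow.trans (hA.trans ?_)
    calc 2 * Real.exp 4 / r ^ 2 * (2 * (D ^ 2 * S3)) ≤
        2 * Real.exp 4 / r ^ 2 * (2 * (D ^ 2 * (C3 * (1 + Real.log Q) * Real.sqrt E * R))) := by
          (clear * - hS hr0; gcongr)
      _ = _ := by
          rw [hDsq]
          ring
  rcases eq_or_lt_of_le hE0 with hz | hz
  · rw [← hz, Real.sqrt_zero, zero_mul]
    (clear * - hh hC3 hr0 hQ hT; positivity)
  · have hsE : 0 < Real.sqrt E := Real.sqrt_pos.2 hz
    have h8 : Real.sqrt E * (Real.sqrt E * V ^ 2) = E * V ^ 2 := by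
      rw [← mul_assoc, Real.mul_self_sqrt hE0]
    refine le_of_mul_le_mul_left ?_ hsE
    rw [h8]
    refine hfin.trans (le_of_eq ?_)
    ring

end Pool.Agent.M17.Helper73.KC
end

/- Helper53.KN.Helper73.KC.EnergyFinal -/
section
/-! KC-8, final form. -/

set_option autoImplicit false

namespace Pool.Agent.M17.Helper73.KC

theorem energyG : Pool.Agent.M17.Helper60.KS.EnergyG :=
  energyG_of Pool.Agent.M17.Helper6.KSZ.a12' Pool.Agent.M17.Helper6.KSZ.a13

end Pool.Agent.M17.Helper73.KC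
end

/- Helper53.KN.Helper60.KC.FinalG -/
section
/-! The counting theorem for cells of general length, unconditional. -/

set_option autoImplicit false
open Filter Topology
open scoped Classical

namespace Pool.Agent.M17.Helper60.KC
open Pool.Agent.M17.Helper60.KS

theorem inDetectG : DetectG := detectG inA5 (Pool.Agent.M17.Helper1.KSZ.a7_helper60 inA5)

/-- the counting theorem, from the numerical input only -/
theorem countW_of_numeric {w U κ ρ0 : ℝ} (hw0 : 0 ≤ w) (hw1 : w ≤ 1/4) (hκ : κ * (1/2 - w) = 1)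
    (hU1 : 0.21 - 2 * w < U) (hU2 : (1/2 - w) * ρ0 < U) (hN : NumericG κ ρ0) : CountW w U :=
  countW hw0 hw1 hκ hU1 hU2 (Pool.Agent.M17.Helper60.KG.badZeroG hw0 (by linarith)) inThmN inA9i inDetectG
    (classBoundG mvCount huxleyCount sLemma Pool.Agent.M17.Helper4.KC.fourthU Pool.Agent.M17.Helper73.KC.energyG
      Pool.Agent.M17.Helper91.KC.powDP (by linarith) (by linarith) hκ hN)
    Pool.Agent.M17.Helper46.KC.splitSpaced

/-- cells of length `X^(1/2-d)`: at most `X^0.2156` bad ones -/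
theorem count_000 : CountW 0 0.2156 :=
  countW_of_numeric (κ := 2) (ρ0 := 0.431) (by norm_num) (by norm_num) (by norm_num) (by norm_num) (by norm_num)
    Pool.Agent.M17.Helper65.KC.numericZ

end Pool.Agent.M17.Helper60.KC
end

/- Helper53.KN.Helper1.KL.S1Lower -/
section
/-! Project KS: a lower bound for the sum of `1/m` over the primes `m ∈ (M, 2M]`, `M = 2^(em k)`, from `count_000`. -/

set_option autoImplicit false
open Filter Topology Finset
open scoped Classical

namespace Pool.Agent.M17.Helper1.KL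

open Pool.Agent.M17.Helper60.KS

/-- at least `c 2^n / n` primes in `[2^n, 2^(n+1))` -/
theorem primes_block : ∃ c : ℝ, 0 < c ∧ ∃ K : ℕ, ∀ n : ℕ, K ≤ n →
    c * 2 ^ n / n ≤ (((Finset.Ico (2 ^ n) (2 ^ (n + 1))).filter Nat.Prime).card : ℝ) := by
  obtain ⟨d0, hd0, H⟩ := Helper60.KC.count_000
  set d : ℝ := min d0 (1 / 4) with hd
  have hdpos : 0 < d := lt_min hd0 (by norm_num)
  obtain ⟨c0, hc0, K, hK⟩ := H d hdpos (min_le_left _ _)
  refine ⟨c0 / 2, by positivity, max K 10, fun n hn => ?_⟩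
  have hnK : K ≤ n := (le_max_left _ _).trans hn
  have hn10 : 10 ≤ n := (le_max_right _ _).trans hn
  have hn10' : (10 : ℝ) ≤ n := by exact_mod_cast hn10
  have hbad := hK n hnK
  set e : ℕ := ecw 0 d n with he
  have hed : (e : ℝ) ≤ n / 2 := by
    have h1 : (e : ℝ) ≤ (n : ℝ) * (1/2 + 0 - d) := by
      rw [he]
      unfold ecw
      apply Nat.floor_le
      have : d ≤ 1 / 4 := min_le_right _ _
      apply mul_nonneg (by (clear * - hdpos hn10' this; linarith)) (by (clear * - hdpos this; linarith))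
    (clear * - h1 hdpos; nlinarith)
  have hen : e ≤ n := by
    have : (e : ℝ) ≤ n := by (clear * - hn10' hed; linarith)
    exact_mod_cast this
  set B := (Finset.range (2 ^ (n - e))).filter (fun j => (npr n e j : ℝ) < c0 * 2 ^ e / n) with hB
  set G := (Finset.range (2 ^ (n - e))).filter (fun j => ¬ (npr n e j : ℝ) < c0 * 2 ^ e / n) with hG
  have hcard : B.card + G.card = 2 ^ (n - e) := by
    rw [hB, hG, Finset.card_filter_add_card_filter_not, Finset.card_range]
  have hB2 : (B.card : ℝ) ≤ 2 ^ (n - e) / 2 := by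
    refine hbad.trans ?_
    have h1 : (2 : ℝ) ^ (n - e) = (2 : ℝ) ^ ((n : ℝ) - e) := by
      rw [← Nat.cast_sub hen, Real.rpow_natCast]
    rw [h1, ← Real.rpow_sub_one (by norm_num)]
    apply Real.rpow_le_rpow_of_exponent_le (by norm_num)
    (clear * - hn10' hed; linarith)
  have hG2 : (2 : ℝ) ^ (n - e) / 2 ≤ G.card := by
    have h1 : (B.card : ℝ) + G.card = 2 ^ (n - e) := by exact_mod_cast hcard
    (clear * - hB2 h1; linarith)
  -- the primes
  have hsum : ∑ j ∈ G, npr n e j ≤ ((Finset.Ico (2 ^ n) (2 ^ (n + 1))).filter Nat.Prime).card := by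
    have h1 : ∀ j, npr n e j = ((Finset.Ico (2 ^ n + j * 2 ^ e) (2 ^ n + (j + 1) * 2 ^ e)).filter
        Nat.Prime).card := fun j => rfl
    rw [Finset.sum_congr rfl (fun j _ => h1 j), ← Finset.card_biUnion]
    · apply Finset.card_le_card
      intro p hp
      rw [Finset.mem_biUnion] at hp
      obtain ⟨j, hj, hp⟩ := hp
      rw [Finset.mem_filter, Finset.mem_Ico] at hp ⊢
      rw [hG, Finset.mem_filter, Finset.mem_range] at hj
      refine ⟨⟨by omega, lt_of_lt_of_le hp.1.2 ?_⟩, hp.2⟩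
      have h2 : (j + 1) * 2 ^ e ≤ 2 ^ (n - e) * 2 ^ e := Nat.mul_le_mul_right _ hj.1
      rw [← pow_add, Nat.sub_add_cancel hen] at h2
      rw [pow_succ]
      omega
    · intro i _ j _ hij
      rw [Function.onFun, Finset.disjoint_left]
      intro p hp hp'
      rw [Finset.mem_filter, Finset.mem_Ico] at hp hp'
      rcases lt_or_gt_of_ne hij with h | h
      · have h2 : (i + 1) * 2 ^ e ≤ j * 2 ^ e := Nat.mul_le_mul_right _ h
        omega
      · have h2 : (j + 1) * 2 ^ e ≤ i * 2 ^ e := Nat.mul_le_mul_right _ h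
        omega
  have hsum' : (G.card : ℝ) * (c0 * 2 ^ e / n) ≤
      (((Finset.Ico (2 ^ n) (2 ^ (n + 1))).filter Nat.Prime).card : ℝ) := by
    refine le_trans ?_ (by exact_mod_cast hsum : ((∑ j ∈ G, npr n e j : ℕ) : ℝ) ≤ _)
    rw [Nat.cast_sum, ← nsmul_eq_mul]
    apply Finset.card_nsmul_le_sum
    intro j hj
    rw [hG, Finset.mem_filter] at hj
    exact not_lt.1 hj.2
  refine le_trans (le_of_eq ?_) ((mul_le_mul_of_nonneg_right hG2 (by positivity)).trans hsum')
  have h3 : (2 : ℝ) ^ n = 2 ^ (n - e) * 2 ^ e := by rw [← pow_add, Nat.sub_add_cancel hen]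
  rw [h3]
  ring

theorem s1Lower : S1Lower := by
  obtain ⟨c, hc, K, hK⟩ := primes_block
  refine ⟨c / 2, by positivity, 3 * K + 10, fun k hk => ?_⟩
  have hkpos : (0 : ℝ) < k := by
    have : 0 < k := by omega
    exact_mod_cast this
  set n : ℕ := Helper60.KS.em k with hn
  have hnK : K ≤ n := by rw [hn]; unfold Helper60.KS.em; omega
  have hn2 : 2 ≤ n := by rw [hn]; unfold Helper60.KS.em; omega
  have hnk : n ≤ k := by rw [hn]; unfold Helper60.KS.em; (clear * - hk; omega)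
  have hnpos : (0 : ℝ) < n := by
    have : 0 < n := by omega
    exact_mod_cast this
  have h1 := hK n hnK
  have hsub : (Finset.Ico (2 ^ n) (2 ^ (n + 1))).filter Nat.Prime ⊆ PM k := by
    intro p hp
    rw [Finset.mem_filter, Finset.mem_Ico] at hp
    unfold PM
    rw [Finset.mem_filter, Finset.mem_Ioc, ← hn]
    refine ⟨⟨lt_of_le_of_ne hp.1.1 ?_, ?_⟩, hp.2⟩
    · intro h
      rw [← h] at hp
      exact Nat.Prime.not_prime_pow hn2 hp.2
    · have := hp.1.2
      rw [pow_succ] at this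
      omega
  have h2 : ((((Finset.Ico (2 ^ n) (2 ^ (n + 1))).filter Nat.Prime).card : ℕ) : ℝ) *
      (1 / 2 ^ (n + 1)) ≤ S1 k := by
    unfold S1
    refine le_trans ?_ (Finset.sum_le_sum_of_subset_of_nonneg hsub (fun i _ _ => by positivity))
    rw [← nsmul_eq_mul]
    apply Finset.card_nsmul_le_sum
    intro p hp
    rw [Finset.mem_filter, Finset.mem_Ico] at hp
    have h3 : (p : ℝ) ≤ 2 ^ (n + 1) := by
      have : p ≤ 2 ^ (n + 1) := hp.1.2.le
      exact_mod_cast this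
    have h4 : (0 : ℝ) < p := by exact_mod_cast hp.2.pos
    exact one_div_le_one_div_of_le h4 h3
  refine le_trans ?_ h2
  refine le_trans ?_ (mul_le_mul_of_nonneg_right h1 (by positivity))
  have h5 : c * 2 ^ n / n * (1 / 2 ^ (n + 1)) = c / 2 / n := by
    rw [pow_succ]
    (clear * - hn2 hc; field_simp)
  rw [h5]
  have h6 : (n : ℝ) ≤ k := by exact_mod_cast hnk
  exact div_le_div_of_nonneg_left (by positivity) hnpos h6

end Pool.Agent.M17.Helper1.KL
end

/- Helper53.KN.Helper60.KE.Final -/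
section
/-! CountE2: `BadZeroE2` from the prime side. -/

set_option autoImplicit false
open Filter Topology MeasureTheory Complex
open scoped Classical

namespace Pool.Agent.M17.Helper60.KE

open Pool.Agent.M17.Helper10.QRH Pool.Agent.M17.Helper69.QRH Pool.Agent.M17.Helper46.KSZ

theorem explicitE2' (h10 : PrimeSideE2) : ExplicitE2 :=
  explicitE2 Helper1.KL.s1Lower Helper33.KSZ.boxExists
    (Helper8.KSZ.shiftIter Helper79.QRH.kFacts
      (Helper8.KSZ.shift Helper79.QRH.kFacts gBound'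
        (Helper48.KSZ.lineTwo Helper79.QRH.kFacts gBound')) Helper9.KSZ.kerFacts)
    h10
    (lineFewE2 Helper1.KL.s1Lower Helper79.QRH.kFacts gBound')
    (Helper18.KSZ.highZeros Helper79.QRH.kFacts cardBox')

/-- explicit formula for the cells with the factor `P(s)` -/
theorem badZeroE2 (h10 : PrimeSideE2) : Helper60.KS.BadZeroE2 := by
  intro d hd0 hd
  obtain ⟨c₀, hc₀, K, hK⟩ := explicitE2' h10 d hd0 hd
  refine ⟨c₀, hc₀, max K ⌈2 / d⌉₊, fun k hk => ?_⟩
  obtain ⟨c, Ex, hc, hEx, hall⟩ := hK k ((le_max_left _ _).trans hk)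
  have hfin := explicitCells'.1 d k
  have hdk : 2 ≤ d * k := by
    have h1 : (⌈2 / d⌉₊ : ℝ) ≤ k := by exact_mod_cast (le_max_right _ _).trans hk
    have h2 := (Nat.le_ceil (2 / d)).trans h1
    rw [div_le_iff₀ hd0] at h2
    linarith
  have hpow : ∀ x : ℝ, ((2 : ℝ) ^ k) ^ x = (2 : ℝ) ^ (x * k) := by
    intro x
    rw [← Real.rpow_natCast 2 k, ← Real.rpow_mul (by norm_num), mul_comm]
  have hmem : ∀ ρ, ρ ∈ hfin.toFinset ↔ ρ ∈ zeroSet d k := fun ρ => by simp
  refine ⟨hfin.toFinset, c, uu d k, Ex, ?_, ?_, ?_, ?_, ?_, ?_⟩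
  · intro ρ hρ
    obtain ⟨h0, h1, h2⟩ := (hmem ρ).1 hρ
    refine ⟨h0, by norm_num at h1 ⊢; exact h1, ?_⟩
    rw [hpow]
    linarith
  · intro ρ hρ
    obtain ⟨h0, h1, h2⟩ := (hmem ρ).1 hρ
    refine hc ρ (by linarith) ?_
    by_contra hcon
    exact riemannZeta_ne_zero_of_one_le_re (not_le.1 hcon).le h0
  · intro j hj
    obtain ⟨h1, h2, -⟩ := uu_range hd0 (j := j) (k := k) hj
    exact ⟨h1, h2⟩
  · intro j hj j' hj' hne
    rcases lt_or_gt_of_ne hne with h | h
    · refine (uu_spacing hd0 hdk hj hj' h).trans ?_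
      rw [abs_sub_comm]
      exact le_abs_self _
    · exact (uu_spacing hd0 hdk hj' hj h).trans (le_abs_self _)
  · rw [hpow]
    exact hEx
  · intro j hj hjE hfew
    exact hall j hj hjE hfew _ hmem

end Pool.Agent.M17.Helper60.KE
end

/- Helper53.KN.Helper60.KE.All -/
section
/-! CountE2, unconditional. -/

set_option autoImplicit false

namespace Pool.Agent.M17.Helper60.KE
open Pool.Agent.M17.Helper60.KS

theorem primeSideE2' : PrimeSideE2 := primeSideE2 Helper1.KL.s1Lower Helper9.KSZ.kerFacts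

theorem inBadZeroE2 : BadZeroE2 := badZeroE2 primeSideE2'

theorem inClassBoundE2 : ClassBoundE2 :=
  Helper35.KE.classBoundE2 KC.mvCount KC.huxleyCount KC.sLemma Helper91.KC.powDP

/-- **CountE2**, unconditional: at most `2^(0.172 k)` cells of length about `X^(1/2-d)` in `[X, 2X)`, `X = 2^k`,
contain fewer than `c0 2^e / k^2` numbers `q m`, `q` prime, `m` prime in `(M, 2M]`, `M` about `X^0.495`. -/
theorem countE2 : CountE2 0.172 :=
  countE2_of inBadZeroE2 (Helper1.KL.thmNk (by norm_num)) Helper1.KL.s1Lower KC.inA9i KC.inDetect inClassBoundE2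
    Helper46.KC.splitSpaced

end Pool.Agent.M17.Helper60.KE
end
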