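import Mathlib
import Pool.Agent.Helper53.KM.G06
import Pool.Agent.Helper53.KM.G17
import Pool.Agent.Helper53.KM.G32
import Pool.Agent.Helper53.KM.G33
import Pool.Agent.Helper53.KM.G45
import Pool.Agent.Helper53.KM.G46

/- Helper53.KN.Helper1.KF.Main -/
section
/-!
# F2: almost all cells of length `X^(1/2 + w - d)`, `w ≤ 0`, contain the right order of primes
-/

set_option autoImplicit false
set_option maxHeartbeats 4000000
open Filter Topology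
open scoped Classical

namespace Pool.Agent.M17.Helper1.KF

open Pool.Agent.M17.Helper60.KS
open Pool.Agent.M17.Helper60.KC (term_le low_zeros small)

/-- everything that holds at one large `X` -/
lemma main_count {C τ ρ1 ε0 η d X : ℝ} (hε : 0 < ε0) (hη : 0 < η) (hη1 : η ≤ 1/1000)
    (hC : 0 < C) (hX8 : 8 ≤ X) (hl : 10 ≤ Real.log X)
    (hA : ∀ (t : ℝ) (F : Finset ℂ), (∀ ρ ∈ F, riemannZeta ρ = 0 ∧ 1/2 ≤ ρ.re ∧ |ρ.im - t| ≤ 1) →
      ∑ ρ ∈ F, (mz ρ : ℝ) ≤ C * Real.log (|t| + 2))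
    (hN : ∀ F : Finset ℂ, (∀ ρ ∈ F, riemannZeta ρ = 0 ∧ 1 - ε0 ≤ ρ.re ∧ |ρ.im| ≤ X ^ (τ + 2 * d) + 1) →
      ∑ ρ ∈ F, (mz ρ : ℝ) * X ^ (ρ.re - 1) ≤ 1/16)
    (hK : ∀ (x : ℝ) (Z : Finset ℂ) (c : ℂ → ℂ) (U : Finset ℝ), ε0 ≤ x → x ≤ 1/2 →
      InStrip Z (1 - x) (1 - x + η) (X ^ (τ + 2 * d) + 1) → Spaced1 Z →
      (∀ ρ ∈ Z, riemannZeta ρ = 0 ∧ Real.log X ^ 2 ≤ |ρ.im|) →
      (∀ ρ ∈ Z, ‖c ρ‖ ≤ Real.log X ^ 2) → (∀ u ∈ U, Real.log X ≤ u ∧ u ≤ Real.log X + 1) →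
      SpacedR U (1 / X ^ (τ + 2 * d)) →
      (∀ u ∈ U, 1 / Real.log X ^ 4 ≤ ‖∑ ρ ∈ Z, c ρ * Complex.exp ((ρ - 1) * (u : ℂ))‖) →
      (U.card : ℝ) ≤ X ^ ρ1)
    (hS : SplitSpaced)
    (hx1 : X ^ (τ + 2 * d) + 4 ≤ X)
    (hx3 : 240 * C * Real.log X ^ 4 ≤ X ^ ε0)
    (hx4 : 8 * (1 / η + 2) * (C + 1) ≤ Real.log X)
    (hx5 : 2 * (C * Real.log X) ≤ Real.log X ^ 2)
    (F : Finset ℂ) (c : ℂ → ℂ) (u : ℕ → ℝ) (J : ℕ)
    (hF : ∀ ρ ∈ F, riemannZeta ρ = 0 ∧ 0.57 < ρ.re ∧ |ρ.im| ≤ X ^ (τ + 2 * d) + 1)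
    (hc : ∀ ρ ∈ F, ‖c ρ‖ ≤ 2)
    (hu : ∀ j < J, Real.log X ≤ u j ∧ u j ≤ Real.log X + 1)
    (hus : ∀ j < J, ∀ j' < J, j ≠ j' → 1 / X ^ (τ + 2 * d) ≤ |u j - u j'|) :
    (((Finset.range J).filter (fun j => 1/2 ≤ ‖∑ ρ ∈ F, (mz ρ : ℂ) * c ρ *
      Complex.exp ((ρ - 1) * (u j : ℂ))‖)).card : ℝ) ≤ Real.log X ^ 3 * X ^ ρ1 := by
  have hX0 : 1 < X := by (clear * - hη hη1 hX8; linarith)
  set l := Real.log X with hldef
  have hl0 : 0 < l := by linarith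
  have hXp : 0 < X := by (clear * - hη hη1 hX8; linarith)
  -- the three parts
  set P1 : ℂ → Prop := fun ρ => 1 - ε0 ≤ ρ.re with hP1
  set P2 : ℂ → Prop := fun ρ => |ρ.im| < l ^ 2 with hP2
  set F1 := F.filter P1 with hF1
  set F2 := (F.filter (fun ρ => ¬ P1 ρ)).filter P2 with hF2
  set F3a := (F.filter (fun ρ => ¬ P1 ρ)).filter (fun ρ => ¬ P2 ρ) with hF3a
  set F3 := F3a.filter (fun ρ => mz ρ ≠ 0) with hF3
  set f : ℝ → ℂ → ℂ := fun v ρ => (mz ρ : ℂ) * c ρ * Complex.exp ((ρ - 1) * (v : ℂ)) with hf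
  have hsplit : ∀ v : ℝ, ∑ ρ ∈ F, f v ρ = ∑ ρ ∈ F1, f v ρ + (∑ ρ ∈ F2, f v ρ + ∑ ρ ∈ F3, f v ρ) := by
    intro v
    have e3 : ∑ ρ ∈ F3a, f v ρ = ∑ ρ ∈ F3, f v ρ := by
      symm
      rw [hF3]
      apply Finset.sum_filter_of_ne
      intro ρ hρ h hm
      apply h
      simp [hf, hm]
    rw [← e3, hF2, hF3a, Finset.sum_filter_add_sum_filter_not, hF1, Finset.sum_filter_add_sum_filter_not]
  have hpart1 : ∀ v : ℝ, l ≤ v → ‖∑ ρ ∈ F1, f v ρ‖ ≤ 1/8 := by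
    intro v hv
    refine le_trans (norm_sum_le _ _) ?_
    have h1 : ∀ ρ ∈ F1, ‖f v ρ‖ ≤ 2 * ((mz ρ : ℝ) * X ^ (ρ.re - 1)) := by
      intro ρ hρ
      rw [hF1, Finset.mem_filter] at hρ
      exact term_le hX0 (hF ρ hρ.1).1 (hc ρ hρ.1) hv
    refine le_trans (Finset.sum_le_sum h1) ?_
    rw [← Finset.mul_sum]
    have h2 := hN F1 (by
      intro ρ hρ
      rw [hF1, Finset.mem_filter] at hρ
      exact ⟨(hF ρ hρ.1).1, hρ.2, (hF ρ hρ.1).2.2⟩)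
    (clear * - h2; linarith)
  have hpart2 : ∀ v : ℝ, l ≤ v → ‖∑ ρ ∈ F2, f v ρ‖ ≤ 1/8 := by
    intro v hv
    refine le_trans (norm_sum_le _ _) ?_
    have h1 : ∀ ρ ∈ F2, ‖f v ρ‖ ≤ 2 * X ^ (-ε0) * (mz ρ : ℝ) := by
      intro ρ hρ
      rw [hF2, Finset.mem_filter, Finset.mem_filter] at hρ
      refine le_trans (term_le hX0 (hF ρ hρ.1.1).1 (hc ρ hρ.1.1) hv) ?_
      have h3 : ρ.re < 1 - ε0 := not_le.mp hρ.1.2
      have h4 : X ^ (ρ.re - 1) ≤ X ^ (-ε0) := Real.rpow_le_rpow_of_exponent_le hX0.le (by (clear * - hρ; linarith))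
      have h5 : (0:ℝ) ≤ mz ρ := Nat.cast_nonneg _
      (clear * - h4; nlinarith)
    refine le_trans (Finset.sum_le_sum h1) ?_
    rw [← Finset.mul_sum]
    have h2 := low_zeros hC hA ⌈l ^ 2⌉₊ F2 (by
      intro ρ hρ
      rw [hF2, Finset.mem_filter, Finset.mem_filter] at hρ
      have h3 : |ρ.im| < l ^ 2 := hρ.2
      refine ⟨(hF ρ hρ.1.1).1, by (clear * - hη hη1 hF hρ; linarith [(hF ρ hρ.1.1).2.1]), ?_⟩
      exact le_trans h3.le (Nat.le_ceil _))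
    have hM : (⌈l ^ 2⌉₊ : ℝ) < l ^ 2 + 1 := Nat.ceil_lt_add_one (by positivity)
    set M := (⌈l ^ 2⌉₊ : ℝ) with hMdef
    have hM0 : 0 ≤ M := Nat.cast_nonneg _
    have hlog : Real.log (M + 2) ≤ M + 1 := by
      have := Real.log_le_sub_one_of_pos (show 0 < M + 2 by linarith); (clear * - this; linarith)
    have hl2 : 100 ≤ l ^ 2 := by (clear * - hl; nlinarith)
    have h6 : (2 * M + 1) * (C * Real.log (M + 2)) ≤ (5 * l ^ 2) * (C * (3 * l ^ 2)) := by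
      apply mul_le_mul (by (clear * - hη hη1 hM hl2; linarith)) _ _ (by positivity)
      · apply mul_le_mul_of_nonneg_left (by (clear * - hη hη1 hM hlog hl2; linarith)) hC.le
      · have : 0 ≤ Real.log (M + 2) := Real.log_nonneg (by linarith)
        (clear * - hC this; positivity)
    have h7 : X ^ (-ε0) * X ^ ε0 = 1 := by
      rw [← Real.rpow_add hXp]; simp
    have h8 : 0 < X ^ (-ε0) := Real.rpow_pos_of_pos hXp _
    calc 2 * X ^ (-ε0) * ∑ ρ ∈ F2, (mz ρ : ℝ) ≤ 2 * X ^ (-ε0) * ((5 * l ^ 2) * (C * (3 * l ^ 2))) := by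
          apply mul_le_mul_of_nonneg_left (le_trans h2 h6) (by positivity)
      _ = 1/8 * (X ^ (-ε0) * (240 * C * l ^ 4)) := by ring
      _ ≤ 1/8 * (X ^ (-ε0) * X ^ ε0) := by
          apply mul_le_mul_of_nonneg_left _ (by norm_num)
          exact mul_le_mul_of_nonneg_left hx3 h8.le
      _ = 1/8 := by rw [h7]; norm_num
  -- classes of F3
  have hF3' : ∀ ρ ∈ F3, riemannZeta ρ = 0 ∧ 0.57 < ρ.re ∧ ρ.re < 1 - ε0 ∧ l ^ 2 ≤ |ρ.im| ∧
      |ρ.im| ≤ X ^ (τ + 2 * d) + 1 ∧ 1 ≤ mz ρ ∧ ‖c ρ‖ ≤ 2 := by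
    intro ρ hρ
    rw [hF3, Finset.mem_filter, hF3a, Finset.mem_filter, Finset.mem_filter] at hρ
    obtain ⟨⟨⟨h1, h2⟩, h3⟩, h4⟩ := hρ
    exact ⟨(hF ρ h1).1, (hF ρ h1).2.1, not_le.mp h2, not_lt.mp h3, (hF ρ h1).2.2, Nat.one_le_iff_ne_zero.mpr h4, hc ρ h1⟩
  set a : ℂ → ℕ := fun ρ => ⌈(1 - ρ.re) / η⌉₊ with ha
  have hax : ∀ ρ ∈ F3, 1 - ρ.re ≤ η * a ρ ∧ η * a ρ < 1 - ρ.re + η := by
    intro ρ hρ
    obtain ⟨-, h2, h3, -⟩ := hF3' ρ hρ
    constructor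
    · have := Nat.le_ceil ((1 - ρ.re) / η)
      rw [div_le_iff₀ hη] at this
      rw [mul_comm]; exact this
    · have := Nat.ceil_lt_add_one (show 0 ≤ (1 - ρ.re) / η by apply div_nonneg (by (clear * - hε h3; linarith)) hη.le)
      have h5 : η * (a ρ : ℝ) < η * ((1 - ρ.re) / η + 1) := mul_lt_mul_of_pos_left this hη
      have h6 : η * ((1 - ρ.re) / η + 1) = 1 - ρ.re + η := by (clear * - hη; field_simp)
      (clear * - h5 h6; linarith)
  have hMM : ∀ t : ℝ, (F3.filter (fun ρ => |ρ.im - t| ≤ 1)).card ≤ ⌈C * l⌉₊ := by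
    intro t
    rcases Finset.eq_empty_or_nonempty (F3.filter (fun ρ => |ρ.im - t| ≤ 1)) with he | ⟨ρ0, hρ0⟩
    · rw [he]; simp
    have h1 := hA t (F3.filter (fun ρ => |ρ.im - t| ≤ 1)) (by
      intro ρ hρ
      rw [Finset.mem_filter] at hρ
      obtain ⟨h1, h2, -⟩ := hF3' ρ hρ.1
      exact ⟨h1, by (clear * - hη hη1 h2; linarith), hρ.2⟩)
    rw [Finset.mem_filter] at hρ0
    obtain ⟨-, -, -, -, h5, -⟩ := hF3' ρ0 hρ0.1
    have h6 : |t| ≤ |ρ0.im| + 1 := by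
      have h7 : |t| ≤ |ρ0.im| + |ρ0.im - t| := by
        have := abs_sub_abs_le_abs_sub t ρ0.im
        rw [abs_sub_comm] at this; (clear * - this; linarith)
      linarith [hρ0.2]
    have h8 : Real.log (|t| + 2) ≤ l := Real.log_le_log (by (clear * -; positivity)) (by (clear * - hx1 h5 h6; linarith))
    have h9 : ((F3.filter (fun ρ => |ρ.im - t| ≤ 1)).card : ℝ) ≤ ∑ ρ ∈ F3.filter (fun ρ => |ρ.im - t| ≤ 1), (mz ρ : ℝ) := by
      rw [← nsmul_one]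
      apply Finset.card_nsmul_le_sum
      intro ρ hρ
      rw [Finset.mem_filter] at hρ
      exact_mod_cast (hF3' ρ hρ.1).2.2.2.2.2.1
    have h10 : ((F3.filter (fun ρ => |ρ.im - t| ≤ 1)).card : ℝ) ≤ ⌈C * l⌉₊ :=
      le_trans h9 (le_trans h1 (le_trans (mul_le_mul_of_nonneg_left h8 hC.le) (Nat.le_ceil _)))
    exact_mod_cast h10
  obtain ⟨col, hcol1, hcol2⟩ := hS F3 ⌈C * l⌉₊ hMM
  set A0 := ⌈1 / η⌉₊ + 1 with hA0
  set M0 := ⌈C * l⌉₊ with hM0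
  set KK := Finset.range A0 ×ˢ Finset.range M0 with hKK
  set φ : ℂ → ℕ × ℕ := fun ρ => (a ρ, col ρ) with hφ
  have hmaps : ∀ ρ ∈ F3, φ ρ ∈ KK := by
    intro ρ hρ
    obtain ⟨h1, h2, h3, h4, h5, -⟩ := hF3' ρ hρ
    simp only [hφ, hKK, Finset.mem_product, Finset.mem_range]
    refine ⟨?_, hcol1 ρ hρ⟩
    have : a ρ ≤ ⌈1 / η⌉₊ := by
      apply Nat.ceil_mono
      apply div_le_div_of_nonneg_right (by (clear * - hη hη1 h2; linarith)) hη.le
    omega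
  have hKcard : (KK.card : ℝ) ≤ l ^ 3 := by
    rw [hKK, Finset.card_product, Finset.card_range, Finset.card_range]
    push_cast
    have e1 : (A0 : ℝ) ≤ 1 / η + 2 := by
      rw [hA0]; push_cast
      have := Nat.ceil_lt_add_one (show 0 ≤ 1 / η by positivity); (clear * - this; linarith)
    have e3 : (M0 : ℝ) ≤ (C + 1) * l := by
      rw [hM0]
      have := Nat.ceil_lt_add_one (show 0 ≤ C * l by positivity); (clear * - hη hη1 hl this; linarith)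
    have hl1 : 1 ≤ l := by (clear * - hη hη1 hl; linarith)
    calc (A0 : ℝ) * M0 ≤ (1 / η + 2) * ((C + 1) * l) := by
          apply mul_le_mul e1 e3 (by positivity) (by positivity)
      _ = ((1 / η + 2) * (C + 1)) * l := by ring
      _ ≤ l * l := by
          apply mul_le_mul_of_nonneg_right _ (by positivity)
          have : 0 ≤ (1 / η + 2) * (C + 1) := by positivity
          (clear * - hη hη1 hl hx4; linarith)
      _ = l ^ 2 := by ring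
      _ ≤ l ^ 3 := pow_le_pow_right₀ hl1 (by norm_num)
  set S : ℕ × ℕ → ℝ → ℂ := fun κ v => ∑ ρ ∈ F3 with φ ρ = κ, f v ρ with hSdef
  set BK : ℕ × ℕ → Finset ℕ := fun κ => (Finset.range J).filter (fun j => 1 / l ^ 4 ≤ ‖S κ (u j)‖) with hBK
  have hcover : (Finset.range J).filter (fun j => 1/2 ≤ ‖∑ ρ ∈ F, f (u j) ρ‖) ⊆ KK.biUnion BK := by
    intro j hj
    rw [Finset.mem_filter, Finset.mem_range] at hj
    obtain ⟨hj1, hj2⟩ := hj
    obtain ⟨hu1, hu2⟩ := hu j hj1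
    rw [Finset.mem_biUnion]
    by_contra hcon
    push Not at hcon
    have h1 : ∀ κ ∈ KK, ‖S κ (u j)‖ ≤ 1 / l ^ 4 := by
      intro κ hκ
      have := hcon κ hκ
      rw [hBK, Finset.mem_filter, Finset.mem_range] at this
      push Not at this
      exact (this hj1).le
    have h2 : ‖∑ ρ ∈ F3, f (u j) ρ‖ ≤ l ^ 3 * (1 / l ^ 4) := by
      rw [← Finset.sum_fiberwise_of_maps_to hmaps]
      refine le_trans (norm_sum_le _ _) ?_
      refine le_trans (Finset.sum_le_sum h1) ?_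
      rw [Finset.sum_const, nsmul_eq_mul]
      exact mul_le_mul_of_nonneg_right hKcard (by positivity)
    have h3 : l ^ 3 * (1 / l ^ 4) = 1 / l := by field_simp
    have h4 : 1 / l ≤ 1/10 := by
      apply one_div_le_one_div_of_le (by norm_num) hl
    rw [hsplit] at hj2
    have h5 := norm_add_le (∑ ρ ∈ F1, f (u j) ρ) (∑ ρ ∈ F2, f (u j) ρ + ∑ ρ ∈ F3, f (u j) ρ)
    have h6 := norm_add_le (∑ ρ ∈ F2, f (u j) ρ) (∑ ρ ∈ F3, f (u j) ρ)
    have h7 := hpart1 (u j) hu1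
    have h8 := hpart2 (u j) hu1
    rw [h3] at h2
    (clear * - hη hη1 hj2 h2 h4 h5 h6 h7 h8; linarith)
  have hBcard : ∀ κ ∈ KK, ((BK κ).card : ℝ) ≤ X ^ ρ1 := by
    intro κ hκ
    have hinj : Set.InjOn u (BK κ : Set ℕ) := by
      intro j hj j' hj' he
      by_contra hne
      rw [Finset.mem_coe, hBK, Finset.mem_filter, Finset.mem_range] at hj hj'
      have := hus j hj.1 j' hj'.1 hne
      rw [he, sub_self, abs_zero] at this
      have h2 : 0 < 1 / X ^ (τ + 2 * d) := by positivity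
      (clear * - this h2; linarith)
    have hcardU : ((BK κ).image u).card = (BK κ).card := Finset.card_image_of_injOn hinj
    rw [← hcardU]
    rcases Finset.eq_empty_or_nonempty (F3.filter (fun ρ => φ ρ = κ)) with he | ⟨ρ0, hρ0⟩
    · have : BK κ = ∅ := by
        rw [hBK]
        apply Finset.filter_eq_empty_iff.mpr
        intro j hj
        rw [hSdef]
        simp only [he, Finset.sum_empty, norm_zero, not_le]
        positivity
      rw [this]; simp; positivity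
    obtain ⟨ka, kc⟩ := κ
    have hρ0' := Finset.mem_filter.mp hρ0
    have hκeq : ∀ ρ ∈ F3.filter (fun ρ => φ ρ = (ka, kc)), ρ ∈ F3 ∧ a ρ = ka ∧ col ρ = kc := by
      intro ρ hρ
      have h1 := Finset.mem_filter.mp hρ
      have h2 := h1.2
      simp only [hφ, Prod.mk.injEq] at h2
      exact ⟨h1.1, h2.1, h2.2⟩
    obtain ⟨g1, g2, g4⟩ := hκeq ρ0 hρ0
    obtain ⟨b1, b2, b3, b4, b5, b6, b7⟩ := hF3' ρ0 g1
    obtain ⟨b8, b9⟩ := hax ρ0 g1
    rw [g2] at b8 b9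
    refine hK (η * ka) (F3.filter (fun ρ => φ ρ = (ka, kc))) (fun ρ => (mz ρ : ℂ) * c ρ) _
      (by (clear * - b3 b8; linarith)) (by (clear * - hη hη1 b2 b9; linarith)) ?_ ?_ ?_ ?_ ?_ ?_ ?_
    · intro ρ hρ
      obtain ⟨e1, e2, e4⟩ := hκeq ρ hρ
      obtain ⟨c1, c2⟩ := hax ρ e1
      rw [e2] at c1 c2
      exact ⟨by (clear * - c1; linarith), by (clear * - c2; linarith), (hF3' ρ e1).2.2.2.2.1⟩
    · intro ρ hρ ρ' hρ' hne
      obtain ⟨e1, e2, e4⟩ := hκeq ρ hρ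
      obtain ⟨e1', e2', e4'⟩ := hκeq ρ' hρ'
      exact hcol2 kc ρ (Finset.mem_filter.mpr ⟨e1, e4⟩) ρ' (Finset.mem_filter.mpr ⟨e1', e4'⟩) hne
    · intro ρ hρ
      obtain ⟨e1, e2, e4⟩ := hκeq ρ hρ
      exact ⟨(hF3' ρ e1).1, (hF3' ρ e1).2.2.2.1⟩
    · intro ρ hρ
      obtain ⟨e1, e2, e4⟩ := hκeq ρ hρ
      obtain ⟨d1, d2, d3, d4, d5, d6, d7⟩ := hF3' ρ e1
      rw [norm_mul, Complex.norm_natCast]
      have h1 := hA ρ.im {ρ} (by
        intro ρ' hρ'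
        rw [Finset.mem_singleton] at hρ'
        subst hρ'
        exact ⟨d1, by (clear * - hη hη1 d2; linarith), by simp⟩)
      rw [Finset.sum_singleton] at h1
      have h2 : Real.log (|ρ.im| + 2) ≤ l := Real.log_le_log (by (clear * -; positivity)) (by (clear * - hη hη1 hx1 d5; linarith))
      have h3 : (mz ρ : ℝ) ≤ C * l := le_trans h1 (mul_le_mul_of_nonneg_left h2 hC.le)
      calc (mz ρ : ℝ) * ‖c ρ‖ ≤ (C * l) * 2 := mul_le_mul h3 d7 (norm_nonneg _) (by positivity)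
        _ ≤ l ^ 2 := by (clear * - hx5; linarith)
    · intro v hv
      obtain ⟨j, hj, rfl⟩ := Finset.mem_image.mp hv
      rw [hBK, Finset.mem_filter, Finset.mem_range] at hj
      exact hu j hj.1
    · intro v hv v' hv' hne
      obtain ⟨j, hj, rfl⟩ := Finset.mem_image.mp hv
      obtain ⟨j', hj', rfl⟩ := Finset.mem_image.mp hv'
      rw [hBK, Finset.mem_filter, Finset.mem_range] at hj hj'
      exact hus j hj.1 j' hj'.1 (fun h => hne (by rw [h]))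
    · intro v hv
      obtain ⟨j, hj, rfl⟩ := Finset.mem_image.mp hv
      rw [hBK, Finset.mem_filter, Finset.mem_range] at hj
      exact hj.2
  have hfinal : (((Finset.range J).filter (fun j => 1/2 ≤ ‖∑ ρ ∈ F, f (u j) ρ‖)).card : ℝ) ≤
      ∑ κ ∈ KK, ((BK κ).card : ℝ) := by
    have h1 := le_trans (Finset.card_le_card hcover) Finset.card_biUnion_le
    exact_mod_cast h1
  calc (((Finset.range J).filter (fun j => 1/2 ≤ ‖∑ ρ ∈ F, f (u j) ρ‖)).card : ℝ) ≤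
      ∑ κ ∈ KK, ((BK κ).card : ℝ) := hfinal
    _ ≤ ∑ κ ∈ KK, X ^ ρ1 := Finset.sum_le_sum hBcard
    _ = KK.card * X ^ ρ1 := by rw [Finset.sum_const, nsmul_eq_mul]
    _ ≤ l ^ 3 * X ^ ρ1 := mul_le_mul_of_nonneg_right hKcard (by positivity)

/-- the elementary conditions of `main_count` for large `X` -/
lemma large_X {C τ' τ1 ρ1 ε0 η A U : ℝ} (hε : 0 < ε0) (hτ : τ' < τ1) (hτ0 : 0 ≤ τ') (hτ1 : τ' < 1) (hC : 0 < C)
    (hA : A < U) (hρ : ρ1 < U) :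
    ∀ᶠ X : ℝ in atTop,
    8 ≤ X ∧ 10 ≤ Real.log X ∧ X ^ τ' + 4 ≤ X ∧ X ^ τ' + 1 ≤ X ^ τ1 ∧
    240 * C * Real.log X ^ 4 ≤ X ^ ε0 ∧ 8 * (1 / η + 2) * (C + 1) ≤ Real.log X ∧
    2 * (C * Real.log X) ≤ Real.log X ^ 2 ∧
    X ^ A + Real.log X ^ 3 * X ^ ρ1 ≤ X ^ U := by
  have ev : ∀ B : ℝ, ∀ᶠ X : ℝ in atTop, B ≤ Real.log X := fun B =>
    Real.tendsto_log_atTop.eventually (eventually_ge_atTop B)
  set ζ := min (U - A) (U - ρ1) with hζdef
  have hζ : 0 < ζ := lt_min (by (clear * - hA; linarith)) (by (clear * - hρ; linarith))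
  have hζ1 : ζ ≤ U - A := min_le_left _ _
  have hζ2 : ζ ≤ U - ρ1 := min_le_right _ _
  filter_upwards [eventually_ge_atTop 8, ev 10, small (Real.log (240 * C)) 4 ε0 hε,
    ev (8 * (1 / η + 2) * (C + 1)), ev (2 * C), small 0 3 (ζ/2) (by (clear * - hA hρ; positivity)), ev (2 / ζ),
    ev (2 / (1 - τ')), ev (2 / (τ1 - τ'))] with X h8 hl h3 h4 h5 h6 h7 h9 h10
  have hX : 0 < X := by (clear * - h8; linarith)
  have hX1 : 1 ≤ X := by (clear * - h8; linarith)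
  have hl0 : 0 < Real.log X := by (clear * - hl; linarith)
  set l := Real.log X with hldef
  have e1 : 1 ≤ X ^ τ' := Real.one_le_rpow hX1 hτ0
  have g1 : 5 ≤ X ^ (1 - τ') := by
    rw [div_le_iff₀ (by (clear * - hτ1; linarith))] at h9
    have h11 : (5:ℝ) ≤ Real.exp 2 := by
      have h12 := Real.add_one_le_exp (2:ℝ)
      have h13 : Real.exp 2 = Real.exp 1 * Real.exp 1 := by rw [← Real.exp_add]; norm_num
      have h14 := Real.exp_one_gt_d9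
      rw [h13]; (clear * - h14; nlinarith)
    refine h11.trans ?_
    rw [Real.rpow_def_of_pos hX]
    exact Real.exp_le_exp.2 (by (clear * - h9; linarith))
  have g2 : 2 ≤ X ^ (τ1 - τ') := by
    rw [div_le_iff₀ (by (clear * - hτ; linarith))] at h10
    have h11 : (2:ℝ) ≤ Real.exp 2 := by
      have h12 := Real.add_one_le_exp (2:ℝ); (clear * - h12; linarith)
    refine h11.trans ?_
    rw [Real.rpow_def_of_pos hX]
    exact Real.exp_le_exp.2 (by (clear * - h10; linarith))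
  have g3 : X = X ^ τ' * X ^ (1 - τ') := by
    rw [← Real.rpow_add hX]; norm_num
  have g4 : X ^ τ1 = X ^ τ' * X ^ (τ1 - τ') := by
    rw [← Real.rpow_add hX]; norm_num
  refine ⟨h8, hl, ?_, ?_, ?_, h4, ?_, ?_⟩
  · have : X ^ τ' * 5 ≤ X ^ τ' * X ^ (1 - τ') := mul_le_mul_of_nonneg_left g1 (by positivity)
    (clear * - h8 g3 this; linarith)
  · rw [g4]
    have : X ^ τ' * 2 ≤ X ^ τ' * X ^ (τ1 - τ') := mul_le_mul_of_nonneg_left g2 (by positivity)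
    (clear * - e1 this; linarith)
  · rw [← Real.log_le_log_iff (by positivity) (by positivity), Real.log_mul (by positivity) (by positivity),
      Real.log_pow, Real.log_rpow hX]
    simpa using h3
  · (clear * - h5 hl; nlinarith)
  · have f1 : l ^ 3 ≤ X ^ (ζ / 2) := by
      rw [← Real.log_le_log_iff (by positivity) (by positivity), Real.log_pow, Real.log_rpow hX]
      simpa using h6
    have f2 : l ^ 3 * X ^ ρ1 ≤ X ^ (U - ζ / 2) := by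
      calc l ^ 3 * X ^ ρ1 ≤ X ^ (ζ / 2) * X ^ ρ1 :=
            mul_le_mul_of_nonneg_right f1 (by positivity)
        _ = X ^ (ζ / 2 + ρ1) := by rw [← Real.rpow_add hX]
        _ ≤ X ^ (U - ζ / 2) := Real.rpow_le_rpow_of_exponent_le (by (clear * - h8; linarith)) (by (clear * - hζ2; linarith))
    have f3 : X ^ A ≤ X ^ (U - ζ / 2) := Real.rpow_le_rpow_of_exponent_le (by (clear * - h8; linarith)) (by (clear * - hA hζ1; linarith))
    have f4 : (2:ℝ) ≤ X ^ (ζ / 2) := by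
      rw [← Real.log_le_log_iff (by norm_num) (by positivity), Real.log_rpow hX]
      have h22 := Real.log_two_lt_d9
      have h23 : 1 ≤ ζ / 2 * l := by
        rw [div_le_iff₀ hζ] at h7; (clear * - h7; linarith)
      (clear * - h22 h23; linarith)
    have f5 : X ^ U = X ^ (U - ζ / 2) * X ^ (ζ / 2) := by
      rw [← Real.rpow_add hX]; congr 1; ring
    have f6 : 0 < X ^ (U - ζ / 2) := by positivity
    rw [f5]; (clear * - f2 f3 f4 f6; nlinarith)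

/-- **almost all cells**: for `w1 ≤ w ≤ 0` all but `X^(1/2 - w - 20 η)` of the `X^(1/2 - w + d)` cells of length
`X^(1/2 + w - d)` contain the right order of primes; `η > 0` is independent of `w` and `d`. -/
theorem countW_uniform {A x1 w1 η1 : ℝ} (hA : 0 ≤ A) (hAx : A * x1 ≤ 2) (hD : Dens A x1)
    (hw1 : -(33/100) ≤ w1) (h1 : A * (1/2 - w1) < 2) (h2 : 1/2 - w1 < 2 * x1) (hη1p : 0 < η1) :
    ∃ η : ℝ, 0 < η ∧ η ≤ η1 ∧ ∀ w : ℝ, w1 ≤ w → w ≤ 0 → CountW w (1/2 - w - 20 * η) := by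
  obtain ⟨C, hC, hA9⟩ := Pool.Agent.M17.Helper60.KC.inA9i
  obtain ⟨ε1, hε1, hN⟩ := Pool.Agent.M17.Helper1.KL.theoremNHeight (τ := 9/10) (by norm_num) (by norm_num)
  obtain ⟨XN, hN⟩ := hN (1/16) (by norm_num)
  set ε0 := min ε1 (1/100) with hε0
  have hε0p : 0 < ε0 := lt_min hε1 (by norm_num)
  have hε0a : ε0 ≤ ε1 := min_le_left _ _
  have hε0b : ε0 ≤ 1/100 := min_le_right _ _
  set τ1 := 1/2 - w1 with hτ1def
  set η := min (min (((2 - A * τ1) * ε0) / 50) ((2 * x1 - τ1) / 50)) (min (min (1/2500) η1) ε0) with hηdef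
  have hη : 0 < η := by
    refine lt_min (lt_min ?_ ?_) (lt_min (lt_min (by norm_num) hη1p) hε0p)
    · have : 0 < 2 - A * τ1 := by (clear * - h1; linarith)
      (clear * - h1 hε1; positivity)
    · have : 0 < 2 * x1 - τ1 := by (clear * - h2; linarith)
      positivity
  have hη1' : η ≤ 1/2500 := (min_le_right _ _).trans ((min_le_left _ _).trans (min_le_left _ _))
  have hη1 : η ≤ 1/1000 := by (clear * - hη hη1'; linarith)
  have hηη1 : η ≤ η1 := (min_le_right _ _).trans ((min_le_left _ _).trans (min_le_right _ _))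
  have hη2 : η ≤ ε0 := (min_le_right _ _).trans (min_le_right _ _)
  have hη3' : 50 * η ≤ (2 - A * τ1) * ε0 := by
    have : η ≤ ((2 - A * τ1) * ε0) / 50 := (min_le_left _ _).trans (min_le_left _ _)
    (clear * - this; linarith)
  have hη4' : 50 * η ≤ 2 * x1 - τ1 := by
    have : η ≤ (2 * x1 - τ1) / 50 := (min_le_left _ _).trans (min_le_right _ _)
    (clear * - this; linarith)
  refine ⟨η, hη, hηη1, fun w hww hw0 => ?_⟩
  set τ := 1/2 - w with hτdef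
  have hτ1 : 1/2 ≤ τ := by (clear * - hτ1def hw0; linarith)
  have hτ2 : τ ≤ 83/100 := by (clear * - hw1 hτ1def hww; linarith)
  have hττ : τ ≤ τ1 := by (clear * - hww; linarith)
  have hη3 : 50 * η ≤ (2 - A * τ) * ε0 := by
    have h3 : A * τ ≤ A * τ1 := mul_le_mul_of_nonneg_left hττ hA
    have h4 : (2 - A * τ1) * ε0 ≤ (2 - A * τ) * ε0 := mul_le_mul_of_nonneg_right (by (clear * - h3; linarith)) hε0p.le
    (clear * - hη3' h4; linarith)
  have hη4 : 50 * η ≤ 2 * x1 - τ := by (clear * - hη4' hww; linarith)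
  refine ⟨η, hη, fun d hd hd0 => ?_⟩
  obtain ⟨c0, hc0, K1, hB⟩ := Pool.Agent.M17.Helper1.KL.badZeroN (w := w) (by (clear * - hw1 hww; linarith)) (by (clear * - hη hη1' hw0; linarith)) d hd (by (clear * - hη hη1' hd0; linarith))
  obtain ⟨X3, hCB⟩ := clsBound hA hAx hD hτ1 (by (clear * - hw1 hτ1def hη hη1' hww; linarith)) hε0p hη hη1 hη2 hη3 hη4 hd hd0
  refine ⟨c0, hc0, ?_⟩
  have hev : ∀ᶠ X : ℝ in atTop, (XN ≤ X ∧ X3 ≤ X) ∧
      (8 ≤ X ∧ 10 ≤ Real.log X ∧ X ^ (τ + 2 * d) + 4 ≤ X ∧ X ^ (τ + 2 * d) + 1 ≤ X ^ (9/10 : ℝ) ∧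
      240 * C * Real.log X ^ 4 ≤ X ^ ε0 ∧ 8 * (1 / η + 2) * (C + 1) ≤ Real.log X ∧
      2 * (C * Real.log X) ≤ Real.log X ^ 2 ∧
      X ^ (0.15 - 2 * w + 5 * d) + Real.log X ^ 3 * X ^ (τ - 30 * η) ≤ X ^ (τ - 20 * η)) := by
    have hlarge := large_X (C := C) (τ' := τ + 2 * d) (τ1 := 9/10) (ρ1 := τ - 30 * η) (ε0 := ε0) (η := η)
      (A := 0.15 - 2 * w + 5 * d) (U := τ - 20 * η) hε0p (by linarith) (by (clear * - hτ1def hη hη1' hw0 hd; linarith)) (by linarith) hC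
      (by
        rw [hτdef]
        norm_num
        (clear * - hw1 hη hη1' hww hd0; linarith)) (by (clear * - hη; linarith))
    filter_upwards [eventually_ge_atTop XN, eventually_ge_atTop X3, hlarge]
      with X a c h using ⟨⟨a, c⟩, h⟩
  have hev2 : ∀ᶠ k : ℕ in atTop, K1 ≤ k ∧ ((XN ≤ (2:ℝ) ^ k ∧ X3 ≤ (2:ℝ) ^ k) ∧
      (8 ≤ (2:ℝ) ^ k ∧ 10 ≤ Real.log ((2:ℝ) ^ k) ∧ ((2:ℝ) ^ k) ^ (τ + 2 * d) + 4 ≤ (2:ℝ) ^ k ∧
      ((2:ℝ) ^ k) ^ (τ + 2 * d) + 1 ≤ ((2:ℝ) ^ k) ^ (9/10 : ℝ) ∧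
      240 * C * Real.log ((2:ℝ) ^ k) ^ 4 ≤ ((2:ℝ) ^ k) ^ ε0 ∧ 8 * (1 / η + 2) * (C + 1) ≤ Real.log ((2:ℝ) ^ k) ∧
      2 * (C * Real.log ((2:ℝ) ^ k)) ≤ Real.log ((2:ℝ) ^ k) ^ 2 ∧
      ((2:ℝ) ^ k) ^ (0.15 - 2 * w + 5 * d) + Real.log ((2:ℝ) ^ k) ^ 3 * ((2:ℝ) ^ k) ^ (τ - 30 * η) ≤
        ((2:ℝ) ^ k) ^ (τ - 20 * η))) :=
    (eventually_ge_atTop K1).and ((tendsto_pow_atTop_atTop_of_one_lt (by norm_num : (1:ℝ) < 2)).eventually hev)
  obtain ⟨K, hK⟩ := eventually_atTop.mp hev2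
  refine ⟨K, fun k hk => ?_⟩
  obtain ⟨hk1, ⟨hX1, hX3⟩, h8, hl, g1, g2, g3, g4, g5, g6⟩ := hK k hk
  obtain ⟨F, c, u, Exc, b1, b2, b3, b4, b5, b6⟩ := hB k hk1
  have hmain := main_count (τ := τ) (ρ1 := τ - 30 * η) (d := d) hε0p hη hη1 hC h8 hl hA9
    (fun F hF => hN _ hX1 F (fun ρ hρ => ⟨(hF ρ hρ).1, by (clear * - hε0a hF hρ; linarith [(hF ρ hρ).2.1]), (hF ρ hρ).2.2.trans g2⟩))
    (fun x Z c U a1 a2 a3 a4 a5 a6 a7 a8 a9 => hCB _ x Z c U hX3 a1 a2 a3 a4 a5 a6 a7 a8 a9)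
    Pool.Agent.M17.Helper46.KC.splitSpaced g1 g3 g4 g5 F c u (2 ^ (k - ecw w d k)) b1 b2 b3 b4
  set Bd := (Finset.range (2 ^ (k - ecw w d k))).filter (fun j => (npr k (ecw w d k) j : ℝ) < c0 * 2 ^ ecw w d k / k)
    with hBd
  set Lg := (Finset.range (2 ^ (k - ecw w d k))).filter (fun j => 1/2 ≤ ‖∑ ρ ∈ F, (mz ρ : ℂ) * c ρ *
      Complex.exp ((ρ - 1) * (u j : ℂ))‖) with hLg
  have hsub : Bd ⊆ Exc ∪ Lg := by
    intro j hj
    rw [hBd, Finset.mem_filter, Finset.mem_range] at hj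
    rw [Finset.mem_union]
    by_cases hE : j ∈ Exc
    · exact Or.inl hE
    · right
      rw [hLg, Finset.mem_filter, Finset.mem_range]
      exact ⟨hj.1, b6 j hj.1 hE hj.2⟩
  have hcard : (Bd.card : ℝ) ≤ Exc.card + Lg.card := by
    exact_mod_cast le_trans (Finset.card_le_card hsub) (Finset.card_union_le _ _)
  have hpow : (2:ℝ) ^ ((τ - 20 * η) * (k:ℝ)) = ((2:ℝ) ^ k) ^ (τ - 20 * η) := by
    rw [← Real.rpow_natCast, ← Real.rpow_mul (by norm_num)]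
    ring_nf
  rw [hpow]
  (clear * - g6 b5 hmain hcard; linarith)

end Pool.Agent.M17.Helper1.KF
end
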