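import Mathlib
import Pool.Agent.Helper53.KM.G33
import Pool.Agent.Helper53.KM.G35
import Pool.Agent.Helper53.KM.G37
import Pool.Agent.Helper53.KM.G44

/- Helper53.KN.Helper40.AV.Fine64 -/
section
/-! The linear sieve lower bound near `s = 2`, sharper. -/

set_option autoImplicit false

open Filter Topology

namespace Pool.Agent.M17.Helper40.AV.T16

open Pool.Agent.M17.Helper40.AV
open Pool.Agent.M17.Helper59.AV.Tab (tot tot_eq ceil_div upb_mono lob_mono lob_zero)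

attribute [local irreducible] F0 f0 lo up iter

/-- near `s = 2` -/
theorem lob_204 : LoB 2.04 0.0555 := by
  have hE : Real.exp Real.eulerMascheroniConstant ≤ 1.782 := exp_gamma_le
  have hE0 := Real.exp_pos Real.eulerMascheroniConstant
  obtain ⟨hUT, -⟩ := tables 9
  have hfin := final9
  rw [suff_getD] at hfin
  generalize (iter 9).1 = F at hUT hfin
  -- the partition
  set L : ℝ := Real.log 2 - Real.log 1.04 with hL
  have hLu : L ≤ 0.654 := by
    have h1 := Real.log_two_lt_d9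
    have h2 := Real.le_log_one_add_of_nonneg (show (0 : ℝ) ≤ 0.04 by norm_num)
    norm_num at h2
    have : Real.log 1.04 = Real.log (26 / 25) := by norm_num
    (clear * - hL h1 h2; linarith)
  have hL0 : 0 ≤ L := by
    have : Real.log 1.04 ≤ Real.log 2 := Real.log_le_log (by norm_num) (by norm_num)
    (clear * - hL this; linarith)
  set r : ℝ := Real.exp (L / 1000) with hr
  have hr1 : 1 ≤ r := Real.one_le_exp (by positivity)
  have hrN : 1.04 * r ^ 1000 = 2 := by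
    rw [hr, ← Real.exp_nat_mul]
    push_cast
    rw [mul_div_cancel₀ _ (by norm_num : (1000 : ℝ) ≠ 0), hL, Real.exp_sub,
      Real.exp_log (by norm_num), Real.exp_log (by norm_num)]
    norm_num
  have hr2 : 1000 * (r - 1) ≤ L + L ^ 2 / 1000 := by
    have h1 := Real.abs_exp_sub_one_sub_id_le (x := L / 1000) (by
      rw [abs_of_nonneg (by positivity)]
      (clear * - hLu; linarith))
    have h2 := (abs_le.1 h1).2
    rw [← hr] at h2
    have : (L / 1000) ^ 2 = L ^ 2 / 1000 / 1000 := by ring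
    rw [this] at h2
    (clear * - h2; linarith)
  have hrj : ∀ j : ℕ, j ≤ 1000 → 1.04 * r ^ j ≤ 2 := by
    intro j hj
    rw [← hrN]
    exact mul_le_mul_of_nonneg_left (pow_le_pow_right₀ hr1 hj) (by norm_num)
  have hrj0 : ∀ j : ℕ, 1 ≤ r ^ j := fun j => one_le_pow₀ hr1
  have hr1' : 1 < r := by
    rcases hr1.eq_or_lt with h | h
    · exfalso
      rw [← h] at hrN
      norm_num at hrN
    · exact h
  set C : ℝ := 2 * Real.exp Real.eulerMascheroniConstant with hC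
  have hLo := Pool.Agent.M17.Helper5.AV.stepLo Pool.Agent.M17.Helper9.AV.mertens3
  have key := hLo 2.04 16 0.99999 1832
    (fun j => if j < 1000 then 1 + 1.04 * r ^ j else 3 + ((j : ℝ) - 1000) / 64)
    (fun j => if j < 1000 then C / (1.04 * r ^ j) else
      ((F.getD (64 + (j - 1000)) 0 : ℕ) : ℝ) / 10000000)
    (by norm_num) (by norm_num) (by norm_num) (fun j hj => by
      by_cases h1 : j + 1 < 1000
      · rw [if_pos (by omega : j < 1000), if_pos h1]
        have : r ^ j < r ^ (j + 1) := by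
          rw [pow_succ]
          exact lt_mul_of_one_lt_right (by (clear * - hrj0; linarith [hrj0 j])) hr1'
        (clear * - this; linarith)
      · rw [if_neg h1]
        by_cases h2 : j < 1000
        · have hj9 : j = 999 := by omega
          subst hj9
          rw [if_pos h2]
          have : 1.04 * r ^ 999 < 1.04 * r ^ 1000 := by
            apply mul_lt_mul_of_pos_left _ (by norm_num)
            rw [pow_succ r 999]
            exact lt_mul_of_one_lt_right (by (clear * - hrj0; linarith [hrj0 999])) hr1'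
          push_cast
          linarith
        · rw [if_neg h2]
          push_cast
          (clear * -; linarith))
    (fun j hj => by
      by_cases h2 : j < 1000
      · simp only [if_pos h2]
        have h3 := hrj j h2.le
        have h4 := hrj0 j
        have h5 := selUp'.1 (1.04 * r ^ j) (by (clear * - h4; linarith)) h3
        rw [add_sub_cancel_left]
        exact h5
      · simp only [if_neg h2]
        have h3 := hUT.2 (64 + (j - 1000)) (by omega)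
        have e : (((64 + (64 + (j - 1000)) : ℕ) : ℝ) / 64) = 3 + ((j : ℝ) - 1000) / 64 - 1 := by
          push_cast [Nat.cast_sub (not_lt.1 h2)]
          ring
        rw [e] at h3
        exact h3) tailLo16
  refine lob_mono key ?_
  -- the sum
  have hsum : ∑ i ∈ Finset.range 1832,
      ((if i + 1 < 1000 then 1 + 1.04 * r ^ (i + 1) else 3 + (((i + 1 : ℕ) : ℝ) - 1000) / 64) -
        (if i < 1000 then 1 + 1.04 * r ^ i else 3 + ((i : ℝ) - 1000) / 64)) *
      (if i < 1000 then C / (1.04 * r ^ i) else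
        ((F.getD (64 + (i - 1000)) 0 : ℕ) : ℝ) / 10000000) =
      1000 * (C * (r - 1)) + (tot F 64 : ℝ) / 640000000 := by
    have hsplit : ∀ g : ℕ → ℝ, ∑ i ∈ Finset.range 1832, g i =
        ∑ i ∈ Finset.range 1000, g i + ∑ j ∈ Finset.range 832, g (1000 + j) :=
      fun g => Finset.sum_range_add g 1000 832
    rw [hsplit]
    refine congrArg₂ (· + ·) ?_ ?_
    · have : ∀ i ∈ Finset.range 1000,
          ((if i + 1 < 1000 then 1 + 1.04 * r ^ (i + 1) else
            3 + (((i + 1 : ℕ) : ℝ) - 1000) / 64) -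
          (if i < 1000 then 1 + 1.04 * r ^ i else 3 + ((i : ℝ) - 1000) / 64)) *
          (if i < 1000 then C / (1.04 * r ^ i) else
            ((F.getD (64 + (i - 1000)) 0 : ℕ) : ℝ) / 10000000) = C * (r - 1) := by
        intro i hi
        rw [Finset.mem_range] at hi
        have h4 := hrj0 i
        have h5 : (0 : ℝ) < r ^ i := by (clear * - h4; linarith)
        rw [if_pos hi, if_pos hi]
        have h6 : (if i + 1 < 1000 then 1 + 1.04 * r ^ (i + 1) else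
            3 + (((i + 1 : ℕ) : ℝ) - 1000) / 64) = 1 + 1.04 * r ^ (i + 1) := by
          by_cases h1 : i + 1 < 1000
          · rw [if_pos h1]
          · have hi9 : i = 999 := by omega
            subst hi9
            rw [if_neg h1, show (999 + 1 : ℕ) = 1000 by norm_num, hrN]
            norm_num
        rw [h6, pow_succ]
        field_simp
        ring
      rw [Finset.sum_congr rfl this, Finset.sum_const, Finset.card_range, nsmul_eq_mul]
      norm_num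
    · rw [tot_eq F 832 64 (by rw [hUT.1]), Nat.cast_sum, Finset.sum_div]
      apply Finset.sum_congr rfl
      intro j _
      rw [if_neg (by omega), if_neg (by omega), if_neg (by omega),
        show 64 + (1000 + j - 1000) = 64 + j by omega]
      push_cast
      ring
  rw [hsum]
  have h7 : C ≤ 3.564 := by rw [hC]; (clear * - hE; linarith)
  have h8 : (tot F 64 : ℝ) ≤ 8674400000 := by exact_mod_cast hfin
  have h9 : 1000 * (C * (r - 1)) ≤ 3.564 * (0.654 + 0.654 ^ 2 / 1000) := by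
    calc 1000 * (C * (r - 1)) = C * (1000 * (r - 1)) := by ring
      _ ≤ 3.564 * (0.654 + 0.654 ^ 2 / 1000) := by
        apply mul_le_mul h7 _ (by (clear * - hr1'; linarith)) (by norm_num)
        refine hr2.trans ?_
        have : L ^ 2 ≤ 0.654 ^ 2 := pow_le_pow_left₀ hL0 hLu 2
        (clear * - hLu this; linarith)
  have h10 : 1000 * (C * (r - 1)) + (tot F 64 : ℝ) / 640000000 ≤ 15.8862 := by
    have : (tot F 64 : ℝ) / 640000000 ≤ 8674400000 / 640000000 := by gcongr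
    norm_num at h9 this ⊢
    (clear * - h8 h9; linarith)
  have : (16 : ℝ) / 2.04 * 0.99999 - 1 / 2.04 *
      (1000 * (C * (r - 1)) + (tot F 64 : ℝ) / 640000000) ≥
      16 / 2.04 * 0.99999 - 1 / 2.04 * 15.8862 := by
    have : (1 : ℝ) / 2.04 * (1000 * (C * (r - 1)) + (tot F 64 : ℝ) / 640000000) ≤
      1 / 2.04 * 15.8862 := mul_le_mul_of_nonneg_left h10 (by norm_num)
    (clear * - h8 h9; linarith)
  refine le_trans ?_ this
  norm_num

end Pool.Agent.M17.Helper40.AV.T16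
end

/- Helper53.KN.Helper40.AV.Rough3 -/
section
/-! Rough squarefree integers with at most three prime factors in every short interval. -/

set_option autoImplicit false

open Filter Topology

namespace Pool.Agent.M17.Helper40.AV

open Pool.Agent.M17.Helper44 (primesUpTo mem_primesUpTo)

open Classical in
/-- squarefree integers with at most three prime factors, all `> x ^ ζ`, in every interval of
length `x ^ (1/2 - d)` -/
def RoughAvail3 (ζ d : ℝ) : Prop :=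
  ∃ c : ℝ, 0 < c ∧ ∃ X₀ : ℕ, ∀ x h : ℕ, X₀ ≤ x → (x : ℝ) ^ (1 / 2 - d : ℝ) ≤ h →
    (h : ℝ) ≤ (x : ℝ) ^ (1 / 2 : ℝ) →
    c * h / Real.log x ≤ (((Finset.Ico x (x + h)).filter (fun n => Squarefree n ∧
      n.primeFactors.card ≤ 3 ∧ ∀ p : ℕ, p.Prime → p ∣ n → (x : ℝ) ^ ζ < p)).card : ℝ)

/-- four large primes: at least three are small -/
theorem three_small {n : ℕ} {X : ℝ} (hX : 1 < X) (hX2 : 2 ≤ X ^ (0.0002 : ℝ)) (hn0 : n ≠ 0)
    (hn : (n : ℝ) < 2 * X) (hr : ∀ p : ℕ, p.Prime → p ∣ n → X ^ (0.245 : ℝ) < p)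
    (h4 : 4 ≤ n.primeFactors.card) :
    3 ≤ (n.primeFactors.filter fun p : ℕ => (p : ℝ) ≤ X ^ (0.2551 : ℝ)).card := by
  have hX0 : 0 < X := by (clear * - hX; linarith)
  by_contra hcon
  have hcon' : (n.primeFactors.filter fun p : ℕ => (p : ℝ) ≤ X ^ (0.2551 : ℝ)).card ≤ 2 := by omega
  have hsplit := Finset.card_filter_add_card_filter_not (s := n.primeFactors)
    (fun p : ℕ => (p : ℝ) ≤ X ^ (0.2551 : ℝ))
  have h2 : 2 ≤ (n.primeFactors.filter fun p : ℕ => ¬ (p : ℝ) ≤ X ^ (0.2551 : ℝ)).card := by omega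
  obtain ⟨T, hT, hTc⟩ := Finset.exists_subset_card_eq h2
  have hTS : T ⊆ n.primeFactors := hT.trans (Finset.filter_subset _ _)
  have h3 : 2 ≤ (n.primeFactors \ T).card := by
    rw [Finset.card_sdiff_of_subset hTS]
    omega
  obtain ⟨U, hU, hUc⟩ := Finset.exists_subset_card_eq h3
  have hUS : U ⊆ n.primeFactors := hU.trans Finset.sdiff_subset
  have hdis : Disjoint T U := by
    rw [Finset.disjoint_left]
    intro p hp hp'
    exact (Finset.mem_sdiff.1 (hU hp')).2 hp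
  have hprod : (∏ p ∈ T, p) * (∏ p ∈ U, p) ∣ n := by
    rw [← Finset.prod_union hdis]
    exact (Finset.prod_dvd_prod_of_subset _ _ _ (Finset.union_subset hTS hUS)).trans
      (Nat.prod_primeFactors_dvd n)
  have hle : (((∏ p ∈ T, p) * (∏ p ∈ U, p) : ℕ) : ℝ) ≤ n := by
    exact_mod_cast Nat.le_of_dvd (Nat.pos_of_ne_zero hn0) hprod
  have hT1 : (X ^ (0.2551 : ℝ)) ^ 2 ≤ ((∏ p ∈ T, p : ℕ) : ℝ) := by
    push_cast
    rw [← hTc, ← Finset.prod_const]
    refine Finset.prod_le_prod (fun p _ => Real.rpow_nonneg hX0.le _) fun p hp => ?_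
    have := (Finset.mem_filter.1 (hT hp)).2
    exact (not_le.1 this).le
  have hU1 : (X ^ (0.245 : ℝ)) ^ 2 ≤ ((∏ p ∈ U, p : ℕ) : ℝ) := by
    push_cast
    rw [← hUc, ← Finset.prod_const]
    refine Finset.prod_le_prod (fun p _ => Real.rpow_nonneg hX0.le _) fun p hp => ?_
    have hp' := hUS hp
    exact (hr p (Nat.prime_of_mem_primeFactors hp') (Nat.dvd_of_mem_primeFactors hp')).le
  have hmul : (X ^ (0.2551 : ℝ)) ^ 2 * (X ^ (0.245 : ℝ)) ^ 2 = X * X ^ (0.0002 : ℝ) := by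
    rw [← Real.rpow_natCast, ← Real.rpow_natCast, ← Real.rpow_mul hX0.le, ← Real.rpow_mul hX0.le,
      ← Real.rpow_add hX0]
    nth_rewrite 2 [← Real.rpow_one X]
    rw [← Real.rpow_add hX0]
    congr 1
    norm_num
  have h5 : X * X ^ (0.0002 : ℝ) ≤ n := by
    rw [← hmul]
    push_cast at hle
    refine le_trans ?_ hle
    push_cast at hT1 hU1
    exact mul_le_mul hT1 hU1 (by positivity) ((by positivity : (0 : ℝ) ≤ (X ^ (0.2551 : ℝ)) ^ 2).trans hT1)
  have h6 : X * 2 ≤ X * X ^ (0.0002 : ℝ) := mul_le_mul_of_nonneg_left hX2 hX0.le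
  (clear * - hn h5 h6; linarith)

open Classical in
/-- double counting -/
theorem four_le {x h : ℕ} (hx : 1 < x) (hX2 : (2 : ℝ) ≤ (x : ℝ) ^ (0.0002 : ℝ))
    (hh : h ≤ x) (S : Finset ℕ)
    (hS : S ⊆ (RS x h ((x : ℝ) ^ (0.245 : ℝ))).filter fun n => 4 ≤ n.primeFactors.card) :
    3 * (S.card : ℝ) ≤ ∑ p ∈ PI ((x : ℝ) ^ (0.245 : ℝ)) ((x : ℝ) ^ (0.2551 : ℝ)),
      ((((Finset.Ico x (x + h)).filter fun n => p ∣ n ∧
        ∀ r : ℕ, r.Prime → r ∣ n → (x : ℝ) ^ (0.245 : ℝ) < r).card : ℕ) : ℝ) := by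
  have hx1 : (1 : ℝ) < x := by exact_mod_cast hx
  have hx0 : (0 : ℝ) < x := by (clear * - hx1; linarith)
  have key : ∀ n ∈ S, (3 : ℝ) ≤ ∑ p ∈ PI ((x : ℝ) ^ (0.245 : ℝ)) ((x : ℝ) ^ (0.2551 : ℝ)),
      (if p ∣ n then (1 : ℝ) else 0) := by
    intro n hn
    have hn' := hS hn
    rw [Finset.mem_filter, RS, Finset.mem_filter, Finset.mem_Ico] at hn'
    obtain ⟨⟨⟨hn1, hn2⟩, hn3⟩, hn4⟩ := hn'
    have hn0 : n ≠ 0 := by omega
    have hn5 : (n : ℝ) < 2 * x := by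
      have : n < 2 * x := by omega
      exact_mod_cast this
    have h1 := three_small hx1 hX2 hn0 hn5 hn3 hn4
    rw [← Finset.sum_filter, Finset.sum_const, nsmul_eq_mul, mul_one]
    have h2 : (n.primeFactors.filter fun p : ℕ => (p : ℝ) ≤ (x : ℝ) ^ (0.2551 : ℝ)) ⊆
        (PI ((x : ℝ) ^ (0.245 : ℝ)) ((x : ℝ) ^ (0.2551 : ℝ))).filter fun p => p ∣ n := by
      intro p hp
      rw [Finset.mem_filter] at hp
      have hpp := Nat.prime_of_mem_primeFactors hp.1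
      have hpd := Nat.dvd_of_mem_primeFactors hp.1
      rw [Finset.mem_filter, mem_PI (Real.rpow_nonneg hx0.le _)]
      exact ⟨⟨hpp, hn3 p hpp hpd, hp.2⟩, hpd⟩
    exact_mod_cast h1.trans (Finset.card_le_card h2)
  calc 3 * (S.card : ℝ) = ∑ _n ∈ S, (3 : ℝ) := by rw [Finset.sum_const, nsmul_eq_mul]; ring
    _ ≤ ∑ n ∈ S, ∑ p ∈ PI ((x : ℝ) ^ (0.245 : ℝ)) ((x : ℝ) ^ (0.2551 : ℝ)),
        (if p ∣ n then (1 : ℝ) else 0) := Finset.sum_le_sum key
    _ = ∑ p ∈ PI ((x : ℝ) ^ (0.245 : ℝ)) ((x : ℝ) ^ (0.2551 : ℝ)),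
        ∑ n ∈ S, (if p ∣ n then (1 : ℝ) else 0) := Finset.sum_comm
    _ ≤ _ := by
        refine Finset.sum_le_sum fun p hp => ?_
        rw [← Finset.sum_filter, Finset.sum_const, nsmul_eq_mul, mul_one]
        have hsub : S.filter (fun n => p ∣ n) ⊆ (Finset.Ico x (x + h)).filter fun n => p ∣ n ∧
            ∀ r : ℕ, r.Prime → r ∣ n → (x : ℝ) ^ (0.245 : ℝ) < r := by
          intro n hn
          rw [Finset.mem_filter] at hn
          have hn' := hS hn.1
          rw [Finset.mem_filter, RS, Finset.mem_filter] at hn'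
          rw [Finset.mem_filter]
          exact ⟨hn'.1.1, hn.2, hn'.1.2⟩
        exact_mod_cast Finset.card_le_card hsub

open Classical in
/-- the sieve bound -/
theorem four_up : ∃ X₀ : ℝ, ∀ X : ℝ, X₀ ≤ X → ∀ y l : ℕ, X ^ (0.4998 : ℝ) ≤ l →
    ∑ p ∈ PI (X ^ (0.245 : ℝ)) (X ^ (0.2551 : ℝ)),
      ((((Finset.Ico y (y + l)).filter fun n => p ∣ n ∧
        ∀ r : ℕ, r.Prime → r ∣ n → X ^ (0.245 : ℝ) < r).card : ℕ) : ℝ) ≤
      0.34 * (l / Real.log X) := by
  have hS := Pool.Agent.M17.Helper53AV.selbergP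
  have hT := Pool.Agent.M17.Helper7.AV.ggtriv
  have hP := Pool.Agent.M17.Helper33.AV.primeInt 0.245 0.2551 (fun _ => 1) (by norm_num) (by norm_num)
    continuousOn_const
  have hI : ∫ a in (0.245 : ℝ)..(0.2551 : ℝ), (1 : ℝ) / a < 0.0413 := by
    rw [integral_one_div_of_pos (by norm_num) (by norm_num)]
    have h1 : (0.2551 : ℝ) / 0.245 = 2551 / 2450 := by norm_num
    rw [h1]
    have h2 := Real.log_le_sub_one_of_pos (show (0 : ℝ) < 2551 / 2450 by norm_num)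
    norm_num at h2 ⊢
    linarith
  have e1 := hP.eventually_lt_const hI
  have e2 : ∀ᶠ X : ℝ in atTop, X ^ (0.2551 : ℝ) ≤ 0.0001 * X ^ (0.4998 : ℝ) := by
    have h1 := (tendsto_rpow_top (show (0 : ℝ) < 0.2447 by norm_num)).eventually_ge_atTop 10000
    filter_upwards [h1, eventually_gt_atTop (1 : ℝ)] with X hX hX1
    have hX0 : 0 < X := by (clear * - hX1; linarith)
    have h2 : X ^ (0.4998 : ℝ) = X ^ (0.2551 : ℝ) * X ^ (0.2447 : ℝ) := by
      rw [← Real.rpow_add hX0]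
      norm_num
    rw [h2]
    have h3 : 0 ≤ X ^ (0.2551 : ℝ) := Real.rpow_nonneg hX0.le _
    (clear * - hX h3; nlinarith)
  have e3 : ∀ᶠ X : ℝ in atTop, X ^ (0.4995 : ℝ) * Real.log X ≤ 0.0001 * X ^ (0.4998 : ℝ) := by
    have h1 := (isLittleO_log_rpow_atTop (show (0 : ℝ) < 0.0003 by norm_num)).def
      (show (0 : ℝ) < 0.0001 by norm_num)
    filter_upwards [h1, eventually_gt_atTop (1 : ℝ)] with X hX hX1
    have hX0 : 0 < X := by (clear * - hX1; linarith)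
    rw [Real.norm_of_nonneg (Real.log_nonneg hX1.le),
      Real.norm_of_nonneg (Real.rpow_nonneg hX0.le _)] at hX
    have h2 : X ^ (0.4998 : ℝ) = X ^ (0.4995 : ℝ) * X ^ (0.0003 : ℝ) := by
      rw [← Real.rpow_add hX0]
      norm_num
    rw [h2]
    calc X ^ (0.4995 : ℝ) * Real.log X ≤ X ^ (0.4995 : ℝ) * (0.0001 * X ^ (0.0003 : ℝ)) :=
          mul_le_mul_of_nonneg_left hX (Real.rpow_nonneg hX0.le _)
      _ = _ := by ring
  obtain ⟨X₀, hX₀⟩ := eventually_atTop.1 ((e1.and (e2.and e3)).and (eventually_gt_atTop (1 : ℝ)))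
  refine ⟨X₀, fun X hX y l hl => ?_⟩
  obtain ⟨⟨h1, h2, h3⟩, hX1⟩ := hX₀ X hX
  have hX0 : 0 < X := by (clear * - hX1; linarith)
  have hL : 0 < Real.log X := Real.log_pos hX1
  have hl0 : (0 : ℝ) < l := lt_of_lt_of_le (Real.rpow_pos_of_pos hX0 _) hl
  have hY1 : 1 ≤ X ^ (0.1222 : ℝ) := Real.one_le_rpow hX1.le (by norm_num)
  have hYz : X ^ (0.1222 : ℝ) ≤ X ^ (0.245 : ℝ) :=
    Real.rpow_le_rpow_of_exponent_le hX1.le (by norm_num)
  have hG := hT (X ^ (0.245 : ℝ)) (X ^ (0.1222 : ℝ)) hY1 hYz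
  rw [Real.log_rpow hX0] at hG
  have hG0 : 0 < 0.1222 * Real.log X := by (clear * - hL; positivity)
  have hd0 : 0 ≤ (l : ℝ) / Real.log X := by (clear * - hl0 hL; positivity)
  have hone : ∀ p ∈ PI (X ^ (0.245 : ℝ)) (X ^ (0.2551 : ℝ)),
      ((((Finset.Ico y (y + l)).filter fun n => p ∣ n ∧
        ∀ r : ℕ, r.Prime → r ∣ n → X ^ (0.245 : ℝ) < r).card : ℕ) : ℝ) ≤
      l / (0.1222 * Real.log X) * (1 / p * 1) + (1 / (0.1222 * Real.log X) + X ^ (0.2444 : ℝ)) := by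
    intro p hp
    obtain ⟨hpp, -, -⟩ := (mem_PI (Real.rpow_nonneg hX0.le _)).1 hp
    have hp0 : (0 : ℝ) < p := by exact_mod_cast hpp.pos
    refine (hS y l p (X ^ (0.245 : ℝ)) (X ^ (0.1222 : ℝ)) hpp.one_le hY1).trans ?_
    have h4 : (X ^ (0.1222 : ℝ)) ^ 2 = X ^ (0.2444 : ℝ) := by
      rw [← Real.rpow_natCast, ← Real.rpow_mul hX0.le]
      norm_num
    rw [h4]
    have h5 : ((l : ℝ) / p + 1) / GG (X ^ (0.245 : ℝ)) (X ^ (0.1222 : ℝ)) ≤
        ((l : ℝ) / p + 1) / (0.1222 * Real.log X) :=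
      div_le_div_of_nonneg_left (by (clear * - hl0 hp0; positivity)) hG0 hG
    have h6 : ((l : ℝ) / p + 1) / (0.1222 * Real.log X) =
        l / (0.1222 * Real.log X) * (1 / p * 1) + 1 / (0.1222 * Real.log X) := by
      (clear * - hp0 hL hl0; field_simp)
    (clear * - h5 h6; linarith)
  refine (Finset.sum_le_sum hone).trans ?_
  rw [Finset.sum_add_distrib, ← Finset.mul_sum, Finset.sum_const, nsmul_eq_mul]
  have hcard : ((PI (X ^ (0.245 : ℝ)) (X ^ (0.2551 : ℝ))).card : ℝ) ≤ X ^ (0.2551 : ℝ) := by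
    have h4 : PI (X ^ (0.245 : ℝ)) (X ^ (0.2551 : ℝ)) ⊆ Finset.Ioc 0 ⌊X ^ (0.2551 : ℝ)⌋₊ := by
      intro p hp
      obtain ⟨hpp, -, h5⟩ := (mem_PI (Real.rpow_nonneg hX0.le _)).1 hp
      rw [Finset.mem_Ioc]
      exact ⟨hpp.pos, Nat.le_floor h5⟩
    have h5 := Finset.card_le_card h4
    rw [Nat.card_Ioc] at h5
    have h6 : (((PI (X ^ (0.245 : ℝ)) (X ^ (0.2551 : ℝ))).card : ℕ) : ℝ) ≤
        (⌊X ^ (0.2551 : ℝ)⌋₊ : ℕ) := by exact_mod_cast h5
    exact h6.trans (Nat.floor_le (Real.rpow_nonneg hX0.le _))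
  have h7 : (l : ℝ) / (0.1222 * Real.log X) *
      (∑ p ∈ PI (X ^ (0.245 : ℝ)) (X ^ (0.2551 : ℝ)), (1 : ℝ) / p * 1) ≤
      0.33798 * (l / Real.log X) := by
    calc (l : ℝ) / (0.1222 * Real.log X) *
        (∑ p ∈ PI (X ^ (0.245 : ℝ)) (X ^ (0.2551 : ℝ)), (1 : ℝ) / p * 1) ≤
        (l : ℝ) / (0.1222 * Real.log X) * 0.0413 :=
          mul_le_mul_of_nonneg_left h1.le (by (clear * - hl0 hL; positivity))
      _ = (0.0413 / 0.1222) * (l / Real.log X) := by
          (clear * - hL hl0; field_simp)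
      _ ≤ _ := by
          apply mul_le_mul_of_nonneg_right _ (by (clear * - hl0 hL; positivity))
          norm_num
  have h8 : ((PI (X ^ (0.245 : ℝ)) (X ^ (0.2551 : ℝ))).card : ℝ) *
      (1 / (0.1222 * Real.log X) + X ^ (0.2444 : ℝ)) ≤ 0.001 * (l / Real.log X) := by
    have h9 : (0 : ℝ) ≤ 1 / (0.1222 * Real.log X) + X ^ (0.2444 : ℝ) := by (clear * - hL hX1; positivity)
    refine (mul_le_mul_of_nonneg_right hcard h9).trans ?_
    rw [mul_add]
    have h10 : X ^ (0.2551 : ℝ) * (1 / (0.1222 * Real.log X)) ≤ 0.00082 * (l / Real.log X) +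
        0.00001 * (l / Real.log X) := by
      calc X ^ (0.2551 : ℝ) * (1 / (0.1222 * Real.log X)) ≤
          (0.0001 * l) * (1 / (0.1222 * Real.log X)) := by
            apply mul_le_mul_of_nonneg_right _ (by positivity)
            (clear * - hl h2; linarith)
        _ = (0.0001 / 0.1222) * (l / Real.log X) := by (clear * - hL hl0; field_simp)
        _ ≤ 0.00083 * (l / Real.log X) := by
            apply mul_le_mul_of_nonneg_right _ (by (clear * - hl0 hL; positivity))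
            norm_num
        _ = _ := by ring
    have h11 : X ^ (0.2551 : ℝ) * X ^ (0.2444 : ℝ) ≤ 0.0001 * (l / Real.log X) := by
      rw [← Real.rpow_add hX0, mul_div_assoc', le_div_iff₀ hL,
        show (0.2551 : ℝ) + 0.2444 = 0.4995 by norm_num]
      (clear * - hl h3; linarith)
    (clear * - hd0 h10 h11; linarith)
  (clear * - hd0 h7 h8; linarith)

open Classical in
/-- every interval of length `x ^ (1/2 - 1/5000)` contains many squarefree integers with at most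
three prime factors, all of which exceed `x ^ 0.245` -/
theorem roughAvail3_245 : RoughAvail3 0.245 0.0002 := by
  obtain ⟨z₁, hz₁⟩ := T16.lob_204 0.0001 (by norm_num)
  obtain ⟨X4, hX4⟩ := Pool.Agent.M17.Helper4.QRH.squares
  obtain ⟨X6, hX6⟩ := four_up
  have hM := Pool.Agent.M17.Helper9.AV.mertens3
  have hγ : (0.561 : ℝ) < Real.exp (-Real.eulerMascheroniConstant) := by
    rw [Real.exp_neg]
    calc (0.561 : ℝ) < (1.782 : ℝ)⁻¹ := by norm_num
      _ ≤ _ := inv_anti₀ (Real.exp_pos _) exp_gamma_le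
  have tz := tendsto_rpow_top (show (0 : ℝ) < 0.245 by norm_num)
  have e0 : ∀ᶠ x : ℝ in atTop, z₁ ≤ x ^ (0.245 : ℝ) := tz.eventually_ge_atTop z₁
  have e3 : ∀ᶠ x : ℝ in atTop, 0.561 ≤ VV (x ^ (0.245 : ℝ)) * Real.log (x ^ (0.245 : ℝ)) := by
    have h1 := (hM.comp tz).eventually_const_lt hγ
    filter_upwards [h1] with x hx
    exact hx.le
  have e1 : ∀ᶠ x : ℝ in atTop, 2 / x ^ (0.245 : ℝ) ≤ 0.001 / Real.log x := by
    have h1 := (isLittleO_log_rpow_atTop (show (0 : ℝ) < 0.245 by norm_num)).def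
      (show (0 : ℝ) < 0.0005 by norm_num)
    filter_upwards [h1, eventually_gt_atTop (1 : ℝ)] with x hx hx1
    have hx0 : 0 < x := by (clear * - hx1; linarith)
    rw [Real.norm_of_nonneg (Real.log_nonneg hx1.le),
      Real.norm_of_nonneg (Real.rpow_nonneg hx0.le _)] at hx
    rw [div_le_div_iff₀ (Real.rpow_pos_of_pos hx0 _) (Real.log_pos hx1)]
    (clear * - hx; linarith)
  have e2 : ∀ᶠ x : ℝ in atTop, 4 * x ^ (1 / 3 : ℝ) ≤ 0.001 / Real.log x *
      x ^ (1 / 2 - 0.0002 : ℝ) := by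
    have h1 := (isLittleO_log_rpow_atTop (show (0 : ℝ) < 1 / 10 by norm_num)).def
      (show (0 : ℝ) < 0.00025 by norm_num)
    filter_upwards [h1, eventually_gt_atTop (1 : ℝ)] with x hx hx1
    have hx0 : 0 < x := by (clear * - hx1; linarith)
    have hL := Real.log_pos hx1
    rw [Real.norm_of_nonneg hL.le, Real.norm_of_nonneg (Real.rpow_nonneg hx0.le _)] at hx
    rw [div_mul_eq_mul_div, le_div_iff₀ hL]
    have h2 : x ^ (1 / 3 : ℝ) * x ^ (1 / 10 : ℝ) ≤ x ^ (1 / 2 - 0.0002 : ℝ) := by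
      rw [← Real.rpow_add hx0]
      exact Real.rpow_le_rpow_of_exponent_le hx1.le (by norm_num)
    have h3 : 0 < x ^ (1 / 3 : ℝ) := Real.rpow_pos_of_pos hx0 _
    calc 4 * x ^ (1 / 3 : ℝ) * Real.log x ≤ 4 * x ^ (1 / 3 : ℝ) * (0.00025 * x ^ (1 / 10 : ℝ)) :=
          mul_le_mul_of_nonneg_left hx (by positivity)
      _ = 0.001 * (x ^ (1 / 3 : ℝ) * x ^ (1 / 10 : ℝ)) := by ring
      _ ≤ _ := mul_le_mul_of_nonneg_left h2 (by norm_num)
  have e4 : ∀ᶠ x : ℝ in atTop, 2 ≤ x ^ (0.0002 : ℝ) :=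
    (tendsto_rpow_top (show (0 : ℝ) < 0.0002 by norm_num)).eventually_ge_atTop 2
  obtain ⟨X5, hX5⟩ := eventually_atTop.1 (e0.and (e3.and (e1.and (e2.and e4))))
  refine ⟨0.001, by norm_num, max (max ⌈X6⌉₊ X4) (max ⌈X5⌉₊ 2), ?_⟩
  intro x h hx hh1 hh2
  have hxX6 : X6 ≤ x := (Nat.le_ceil X6).trans (by exact_mod_cast (by omega : ⌈X6⌉₊ ≤ x))
  have hxX5 : X5 ≤ x := (Nat.le_ceil X5).trans (by exact_mod_cast (by omega : ⌈X5⌉₊ ≤ x))
  have hx2 : 2 ≤ x := by omega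
  have hx1 : (1 : ℝ) < x := by exact_mod_cast (by omega : 1 < x)
  have hx0 : (0 : ℝ) < x := by (clear * - hx1; linarith)
  have hL : 0 < Real.log x := Real.log_pos hx1
  have hh1' : (x : ℝ) ^ (0.4998 : ℝ) ≤ h :=
    (Real.rpow_le_rpow_of_exponent_le hx1.le (by norm_num)).trans hh1
  have hhx : h ≤ x := by
    have h1 : (h : ℝ) ≤ x := hh2.trans (by
      calc (x : ℝ) ^ (1 / 2 : ℝ) ≤ (x : ℝ) ^ (1 : ℝ) :=
            Real.rpow_le_rpow_of_exponent_le hx1.le (by norm_num)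
        _ = x := Real.rpow_one _)
    exact_mod_cast h1
  obtain ⟨b0, b3, b1, b2, b4⟩ := hX5 x hxX5
  have a1 := hz₁ ((x : ℝ) ^ (0.245 : ℝ)) b0 x h (by
    rw [← Real.rpow_mul hx0.le]
    exact (Real.rpow_le_rpow_of_exponent_le hx1.le (by norm_num)).trans hh1')
  have a3 := hX6 x hxX6 x h hh1'
  have z8 : (1 : ℝ) ≤ (x : ℝ) ^ (0.245 : ℝ) := Real.one_le_rpow hx1.le (by norm_num)
  have a5 := hX4 x h (by omega) hh2 ((x : ℝ) ^ (0.245 : ℝ)) z8
  -- the sets
  set A := RS x h ((x : ℝ) ^ (0.245 : ℝ)) with hA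
  set T := (Finset.Ico x (x + h)).filter (fun n => Squarefree n ∧
      n.primeFactors.card ≤ 3 ∧ ∀ p : ℕ, p.Prime → p ∣ n → (x : ℝ) ^ (0.245 : ℝ) < p) with hT
  set Q := (Finset.Ico x (x + h)).filter
    (fun n => ∃ p : ℕ, p.Prime ∧ (x : ℝ) ^ (0.245 : ℝ) < p ∧ p ^ 2 ∣ n) with hQ
  set S := A.filter fun n => 4 ≤ n.primeFactors.card with hS
  have hcover : A ⊆ T ∪ (Q ∪ S) := by
    intro n hn
    have hn' := hn
    rw [hA, RS, Finset.mem_filter] at hn'
    obtain ⟨hn1, hn3⟩ := hn'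
    rw [Finset.mem_union, Finset.mem_union]
    by_cases hsq : Squarefree n
    · by_cases hq : n.primeFactors.card ≤ 3
      · left
        rw [hT, Finset.mem_filter]
        exact ⟨hn1, hsq, hq, hn3⟩
      · right; right
        rw [hS, Finset.mem_filter]
        exact ⟨hn, by omega⟩
    · right; left
      rw [hQ, Finset.mem_filter]
      refine ⟨hn1, ?_⟩
      rw [Nat.squarefree_iff_prime_squarefree] at hsq
      push Not at hsq
      obtain ⟨p, hp, hpn⟩ := hsq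
      exact ⟨p, hp, hn3 p hp ((dvd_mul_right p p).trans hpn), by rwa [sq]⟩
  have c1 : (A.card : ℝ) ≤ T.card + (Q.card + S.card) := by
    have h1 := Finset.card_le_card hcover
    have h2 := Finset.card_union_le T (Q ∪ S)
    have h3 := Finset.card_union_le Q S
    exact_mod_cast (by omega : A.card ≤ T.card + (Q.card + S.card))
  have c2 := four_le (by omega : 1 < x) b4 hhx S (by rw [hS])
  have d : (0 : ℝ) ≤ h / Real.log x := by (clear * - hL; positivity)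
  have c3 : (Q.card : ℝ) ≤ 0.002 * (h / Real.log x) := by
    have h1 : (2 : ℝ) * h / (x : ℝ) ^ (0.245 : ℝ) ≤ 0.001 * (h / Real.log x) := by
      calc (2 : ℝ) * h / (x : ℝ) ^ (0.245 : ℝ) = h * (2 / (x : ℝ) ^ (0.245 : ℝ)) := by ring
        _ ≤ h * (0.001 / Real.log x) := mul_le_mul_of_nonneg_left b1 (Nat.cast_nonneg h)
        _ = _ := by ring
    have h2 : 4 * (x : ℝ) ^ (1 / 3 : ℝ) ≤ 0.001 * (h / Real.log x) := by
      calc 4 * (x : ℝ) ^ (1 / 3 : ℝ) ≤ 0.001 / Real.log x * (x : ℝ) ^ (1 / 2 - 0.0002 : ℝ) := b2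
        _ ≤ 0.001 / Real.log x * h := mul_le_mul_of_nonneg_left hh1 (by positivity)
        _ = _ := by ring
    have h3 : (Q.card : ℝ) ≤ 2 * h / (x : ℝ) ^ (0.245 : ℝ) + 4 * (x : ℝ) ^ (1 / 3 : ℝ) := by
      convert a5 using 2
    (clear * - a5 h1 h2; linarith)
  have hh0 : (0 : ℝ) ≤ h := Nat.cast_nonneg h
  have a1' : 0.1265 * (h / Real.log x) ≤ A.card := by
    refine le_trans ?_ a1
    rw [Real.log_rpow hx0] at b3
    have h1 : 2.289 / Real.log x ≤ VV ((x : ℝ) ^ (0.245 : ℝ)) := by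
      rw [div_le_iff₀ hL]
      (clear * - b3; nlinarith)
    calc 0.1265 * (h / Real.log x) ≤ (0.0555 - 0.0001) * h * (2.289 / Real.log x) := by
          have : (0.0555 - 0.0001) * h * (2.289 / Real.log x) =
              ((0.0555 - 0.0001) * 2.289) * (h / Real.log x) := by ring
          rw [this]
          apply mul_le_mul_of_nonneg_right _ d
          norm_num
      _ ≤ _ := mul_le_mul_of_nonneg_left h1 (by (clear * -; positivity))
  have a3' : (S.card : ℝ) ≤ 0.1134 * (h / Real.log x) := by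
    have := c2.trans a3
    (clear * - a3 c2; linarith)
  rw [mul_div_assoc]
  (clear * - a3 c1 c2 c3 a1'; linarith)

end Pool.Agent.M17.Helper40.AV
end

/- Helper53.KN.Helper60.KX.SysA -/
section
/-! Project KS, task 1712: the system, candidates of the three classes. -/

set_option autoImplicit false
open scoped Classical
open Finset Filter Topology

namespace Pool.Agent.M17.Helper60.KX

open Pool.Agent.M17.Helper16.KS
open Pool.Agent.M17.Helper29.KD (PMx nEx)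

/-! ### candidates with a prime `m` in a dyadic interval -/

noncomputable def candP (d : ℝ) (μ k j : ℕ) : Finset (ℕ × ℕ) :=
  (range (2 ^ (k + 1)) ×ˢ PMx μ).filter (fun x => x.1.Prime ∧ x.1 * x.2 ∈ cell d k j)

lemma card_candP (d : ℝ) (μ k j : ℕ) : (candP d μ k j).card = nEx μ k (ec d k) j := by
  unfold candP nEx cell
  apply card_nbij' Prod.swap Prod.swap
  · intro x hx
    simp only [coe_filter, mem_product, mem_range, Set.mem_setOf_eq, mem_Ico, Prod.fst_swap, Prod.snd_swap] at hx ⊢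
    obtain ⟨⟨a, b⟩, c, e, f⟩ := hx
    exact ⟨⟨b, a⟩, c, by rw [mul_comm x.2 x.1]; exact e, by rw [mul_comm x.2 x.1]; exact f⟩
  · intro x hx
    simp only [coe_filter, mem_product, mem_range, Set.mem_setOf_eq, mem_Ico, Prod.fst_swap, Prod.snd_swap] at hx ⊢
    obtain ⟨⟨a, b⟩, c, e, f⟩ := hx
    exact ⟨⟨b, a⟩, c, by rw [mul_comm x.2 x.1]; exact e, by rw [mul_comm x.2 x.1]; exact f⟩
  · intro x _; exact Prod.swap_swap x
  · intro x _; exact Prod.swap_swap x

lemma mem_PMx {μ m : ℕ} : m ∈ PMx μ ↔ (2 ^ μ < m ∧ m ≤ 2 * 2 ^ μ) ∧ m.Prime := by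
  unfold PMx
  rw [mem_filter, mem_Ioc]

lemma mem_candP {d : ℝ} {μ k j : ℕ} {x : ℕ × ℕ} : x ∈ candP d μ k j ↔
    (x.1 < 2 ^ (k + 1) ∧ (2 ^ μ < x.2 ∧ x.2 ≤ 2 * 2 ^ μ) ∧ x.2.Prime) ∧ x.1.Prime ∧ x.1 * x.2 ∈ cell d k j := by
  unfold candP
  rw [mem_filter, mem_product, mem_range, mem_PMx]

lemma q_large {d : ℝ} (hd : 0 < d) {μ k j : ℕ} (hj : j < nc d k) (hμ : 2 * μ + 2 < k) {x : ℕ × ℕ}
    (hx : x ∈ candP d μ k j) : 2 ^ (k - μ - 1) ≤ x.1 ∧ 2 * 2 ^ μ < x.1 := by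
  obtain ⟨⟨h1, ⟨h2, h3⟩, h4⟩, h5, h6⟩ := mem_candP.mp hx
  have h7 := (cell_bounds hd hj h6).1
  have h8 : 2 ^ (k - μ - 1) ≤ x.1 := by
    have h9 : 2 ^ k ≤ x.1 * (2 * 2 ^ μ) := h7.trans (Nat.mul_le_mul_left _ h3)
    have h10 : 2 ^ k = 2 ^ (k - μ - 1) * (2 * 2 ^ μ) := by
      rw [mul_comm 2, ← pow_succ, ← pow_add]
      congr 1
      omega
    rw [h10] at h9
    exact Nat.le_of_mul_le_mul_right h9 (by positivity)
  refine ⟨h8, lt_of_lt_of_le ?_ h8⟩
  rw [mul_comm, ← pow_succ]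
  exact Nat.pow_lt_pow_right (by norm_num) (by omega)

/-- candidate conditions -/
lemma candP_facts {d : ℝ} (hd : 0 < d) {μ k j : ℕ} (hj : j < nc d k) (hμ : 2 * μ + 2 < k) (hk6 : 10 ≤ k)
    {U c : ℝ} (hμ1 : (U + c) * k ≤ 0.49 * μ) (hμ2 : 0.51 * (μ + 1) ≤ (1/2 - U - c) * k) {x : ℕ × ℕ}
    (hx : x ∈ candP d μ k j) :
    x.1.Prime ∧ (2 : ℝ) ^ ((k : ℝ) / 3) ≤ x.1 ∧
    Squarefree (x.1 * x.2) ∧ 1 < x.2 ∧ x.1 * x.2 ∈ cell d k j ∧
    (∀ p : ℕ, p.Prime → p ∣ x.1 * x.2 → (2 : ℝ) ^ ((U + c) * k) ≤ (p : ℝ) ^ (1/2 - (1/100 : ℝ))) ∧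
    (x.2 : ℝ) ^ (1/2 + (1/100 : ℝ)) ≤ (2 : ℝ) ^ ((1/2 - U - c) * k) := by
  obtain ⟨hq1, hq2⟩ := q_large hd hj hμ hx
  obtain ⟨⟨h1, ⟨h2, h3⟩, h4⟩, h5, h6⟩ := mem_candP.mp hx
  have hkr : (10 : ℝ) ≤ k := by exact_mod_cast hk6
  have hμr : 2 * (μ : ℝ) + 3 ≤ k := by exact_mod_cast (by omega : 2 * μ + 3 ≤ k)
  have hbig : ∀ p : ℕ, 2 ^ μ < p → (2 : ℝ) ^ ((U + c) * k) ≤ (p : ℝ) ^ (1/2 - (1/100 : ℝ)) := by
    intro p hp
    have e1 : ((2:ℝ) ^ μ) ^ (0.49 : ℝ) ≤ (p : ℝ) ^ (0.49 : ℝ) := by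
      apply Real.rpow_le_rpow (by positivity) _ (by norm_num)
      exact_mod_cast hp.le
    have e2 : ((2:ℝ) ^ μ) ^ (0.49 : ℝ) = (2:ℝ) ^ (0.49 * (μ:ℝ)) := by
      rw [← Real.rpow_natCast, ← Real.rpow_mul (by norm_num)]; congr 1; ring
    have e3 : (1/2 - (1/100 : ℝ)) = 0.49 := by norm_num
    rw [e3]
    refine le_trans ?_ e1
    rw [e2]
    exact Real.rpow_le_rpow_of_exponent_le (by norm_num) hμ1
  refine ⟨h5, ?_, ?_, h4.one_lt, h6, ?_, ?_⟩
  · have e1 : (2:ℝ) ^ (k - μ - 1) ≤ x.1 := by exact_mod_cast hq1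
    refine le_trans ?_ e1
    rw [← Real.rpow_natCast]
    apply Real.rpow_le_rpow_of_exponent_le (by norm_num)
    have e2 : ((k - μ - 1 : ℕ) : ℝ) = k - μ - 1 := by
      rw [Nat.cast_sub (by omega), Nat.cast_sub (by omega)]; push_cast; ring
    rw [e2]
    (clear * - hkr hμr; linarith)
  · rw [Nat.squarefree_mul ((Nat.coprime_primes h5 h4).mpr (by omega))]
    exact ⟨h5.squarefree, h4.squarefree⟩
  · intro p hp hpd
    apply hbig
    rcases (Nat.Prime.dvd_mul hp).mp hpd with h | h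
    · rw [(Nat.prime_dvd_prime_iff_eq hp h5).mp h]; omega
    · rw [(Nat.prime_dvd_prime_iff_eq hp h4).mp h]; exact h2
  · have e1 : (x.2 : ℝ) ≤ (2:ℝ) ^ (μ + 1) := by
      rw [pow_succ, mul_comm]; exact_mod_cast h3
    have e3 : (1/2 + (1/100 : ℝ)) = 0.51 := by norm_num
    rw [e3]
    calc (x.2 : ℝ) ^ (0.51:ℝ) ≤ ((2:ℝ) ^ (μ + 1)) ^ (0.51:ℝ) := Real.rpow_le_rpow (by (clear * -; positivity)) e1 (by norm_num)
      _ = (2:ℝ) ^ (0.51 * ((μ:ℝ) + 1)) := by
          rw [← Real.rpow_natCast, ← Real.rpow_mul (by norm_num)]; congr 1; push_cast; ring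
      _ ≤ _ := Real.rpow_le_rpow_of_exponent_le (by norm_num) hμ2

lemma candP_inj {d : ℝ} (hd : 0 < d) {μ k j : ℕ} (hj : j < nc d k) (hμ : 2 * μ + 2 < k) {x y : ℕ × ℕ}
    (hx : x ∈ candP d μ k j) (hy : y ∈ candP d μ k j) (h : x.1 * x.2 = y.1 * y.2) : x = y := by
  obtain ⟨hq1, hq2⟩ := q_large hd hj hμ hx
  obtain ⟨hq1', hq2'⟩ := q_large hd hj hμ hy
  obtain ⟨⟨h1, ⟨h2, h3⟩, h4⟩, h5, h6⟩ := mem_candP.mp hx
  obtain ⟨⟨h1', ⟨h2', h3'⟩, h4'⟩, h5', h6'⟩ := mem_candP.mp hy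
  have hd1 : x.1 ∣ y.1 * y.2 := ⟨x.2, h.symm⟩
  have e1 : x.1 = y.1 := by
    rcases (Nat.Prime.dvd_mul h5).mp hd1 with h7 | h7
    · exact (Nat.prime_dvd_prime_iff_eq h5 h5').mp h7
    · have := (Nat.prime_dvd_prime_iff_eq h5 h4').mp h7
      omega
  have e2 : x.2 = y.2 := by
    rw [e1] at h
    exact Nat.eq_of_mul_eq_mul_left h5'.pos h
  exact Prod.ext e1 e2

/-! ### rough candidates -/

/-- largest prime factor -/
def bigP (n : ℕ) : ℕ := n.primeFactors.sup id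

lemma bigP_mem {n : ℕ} (hn : 2 ≤ n) : bigP n ∈ n.primeFactors := by
  have hne : n.primeFactors.Nonempty := by
    rw [Nat.nonempty_primeFactors]; omega
  obtain ⟨i, hi, h⟩ := exists_mem_eq_sup n.primeFactors hne id
  unfold bigP
  rw [h]; exact hi

lemma le_bigP {n p : ℕ} (hp : p ∈ n.primeFactors) : p ≤ bigP n := le_sup (f := id) hp

noncomputable def rset (d : ℝ) (k j : ℕ) : Finset ℕ :=
  (cell d k j).filter (fun n => Squarefree n ∧ n.primeFactors.card ≤ 3 ∧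
    (∀ p : ℕ, p.Prime → p ∣ n → (2 : ℝ) ^ ((0.245 : ℝ) * k) < p) ∧ ¬ n.Prime)

noncomputable def candR (d : ℝ) (k j : ℕ) : Finset (ℕ × ℕ) :=
  (rset d k j).image (fun n => (bigP n, n / bigP n))

lemma bigP_mul {n : ℕ} (hn : 2 ≤ n) : bigP n * (n / bigP n) = n :=
  Nat.mul_div_cancel' (Nat.dvd_of_mem_primeFactors (bigP_mem hn))

lemma two_le_cell {d : ℝ} (hd : 0 < d) {k j n : ℕ} (hk : 1 ≤ k) (hj : j < nc d k) (hn : n ∈ cell d k j) :
    2 ≤ n := by
  have h1 := (cell_bounds hd hj hn).1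
  have h2 : 2 ^ 1 ≤ 2 ^ k := Nat.pow_le_pow_right (by norm_num) hk
  omega

lemma card_candR {d : ℝ} (hd : 0 < d) {k j : ℕ} (hk : 1 ≤ k) (hj : j < nc d k) :
    (candR d k j).card = (rset d k j).card := by
  unfold candR
  apply card_image_of_injOn
  intro n hn n' hn' h
  rw [mem_coe] at hn hn'
  have a := two_le_cell hd hk hj (mem_filter.mp hn).1
  have b := two_le_cell hd hk hj (mem_filter.mp hn').1
  simp only [Prod.mk.injEq] at h
  calc n = bigP n * (n / bigP n) := (bigP_mul a).symm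
    _ = bigP n' * (n' / bigP n') := by rw [h.2, h.1]
    _ = n' := bigP_mul b

lemma mem_candR {d : ℝ} (hd : 0 < d) {k j : ℕ} (hk : 1 ≤ k) (hj : j < nc d k) {x : ℕ × ℕ}
    (hx : x ∈ candR d k j) : ∃ n ∈ rset d k j, x.1 * x.2 = n ∧ x.1 = bigP n ∧ x.2 = n / bigP n := by
  obtain ⟨n, hn, rfl⟩ := mem_image.mp hx
  exact ⟨n, hn, bigP_mul (two_le_cell hd hk hj (mem_filter.mp hn).1), rfl, rfl⟩

lemma candR_inj {d : ℝ} (hd : 0 < d) {k j : ℕ} (hk : 1 ≤ k) (hj : j < nc d k) {x y : ℕ × ℕ}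
    (hx : x ∈ candR d k j) (hy : y ∈ candR d k j) (h : x.1 * x.2 = y.1 * y.2) : x = y := by
  obtain ⟨n, hn, h1, h2, h3⟩ := mem_candR hd hk hj hx
  obtain ⟨n', hn', h1', h2', h3'⟩ := mem_candR hd hk hj hy
  have e : n = n' := by rw [← h1, ← h1', h]
  subst e
  exact Prod.ext (by rw [h2, h2']) (by rw [h3, h3'])

lemma candR_facts {d : ℝ} (hd : 0 < d) {k j : ℕ} (hj : j < nc d k) (hk6 : 100 ≤ k)
    {U c : ℝ} (hU : U + c ≤ 0.12) (hU0 : 0 ≤ U + c) {x : ℕ × ℕ} (hx : x ∈ candR d k j) :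
    x.1.Prime ∧ (2 : ℝ) ^ ((k : ℝ) / 3) ≤ x.1 ∧
    Squarefree (x.1 * x.2) ∧ 1 < x.2 ∧ x.1 * x.2 ∈ cell d k j ∧
    (∀ p : ℕ, p.Prime → p ∣ x.1 * x.2 → (2 : ℝ) ^ ((U + c) * k) ≤ (p : ℝ) ^ (1/2 - (1/100 : ℝ))) ∧
    (x.2 : ℝ) ^ (1/2 + (1/100 : ℝ)) ≤ (2 : ℝ) ^ ((1/2 - U - c) * k) := by
  obtain ⟨n, hn, h1, h2, h3⟩ := mem_candR hd (by omega) hj hx
  obtain ⟨hnc, hsq, hcard, hr, hnp⟩ := mem_filter.mp hn
  have hn2 := two_le_cell hd (by omega) hj hnc
  have hb := bigP_mem hn2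
  have hbp := Nat.prime_of_mem_primeFactors hb
  obtain ⟨hc1, hc2⟩ := cell_bounds hd hj hnc
  have hkr : (100 : ℝ) ≤ k := by exact_mod_cast hk6
  have hn0 : n ≠ 0 := by omega
  have hcube : n ≤ bigP n ^ 3 := by
    calc n = ∏ p ∈ n.primeFactors, p := (Nat.prod_primeFactors_of_squarefree hsq).symm
      _ ≤ ∏ _p ∈ n.primeFactors, bigP n := prod_le_prod' fun p hp => le_bigP hp
      _ = bigP n ^ n.primeFactors.card := by rw [prod_const]
      _ ≤ bigP n ^ 3 := Nat.pow_le_pow_right hbp.pos hcard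
  have hx1 : x.1 = bigP n := h2
  have hthird : (2 : ℝ) ^ ((k : ℝ) / 3) ≤ bigP n := by
    have e1 : (2:ℝ) ^ k ≤ (bigP n : ℝ) ^ 3 := by exact_mod_cast hc1.trans hcube
    have e2 : ((2:ℝ) ^ k) ^ (1/3 : ℝ) ≤ ((bigP n : ℝ) ^ 3) ^ (1/3 : ℝ) :=
      Real.rpow_le_rpow (by positivity) e1 (by norm_num)
    rw [← Real.rpow_natCast, ← Real.rpow_mul (by norm_num), ← Real.rpow_natCast, ← Real.rpow_mul (by (clear * -; positivity))] at e2
    norm_num at e2
    have e3 : (k:ℝ) * (1/3) = k / 3 := by ring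
    rw [e3] at e2
    exact e2
  have hx2pos : 0 < x.2 := by
    rcases Nat.eq_zero_or_pos x.2 with h | h
    · rw [h, mul_zero] at h1; omega
    · exact h
  refine ⟨by rw [hx1]; exact hbp, by rw [hx1]; exact hthird, by rw [h1]; exact hsq, ?_, by rw [h1]; exact hnc, ?_, ?_⟩
  · by_contra hcon
    have : x.2 = 1 := by omega
    rw [this, mul_one, hx1] at h1
    exact hnp (by rw [← h1]; exact hbp)
  · intro p hp hpd
    rw [h1] at hpd
    have e1 := hr p hp hpd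
    have e3 : (1/2 - (1/100 : ℝ)) = 0.49 := by norm_num
    rw [e3]
    calc (2 : ℝ) ^ ((U + c) * k) ≤ (2:ℝ) ^ ((0.245 : ℝ) * k * 0.49) := by
          apply Real.rpow_le_rpow_of_exponent_le (by norm_num)
          (clear * - hkr hU; nlinarith)
      _ = ((2:ℝ) ^ ((0.245 : ℝ) * k)) ^ (0.49:ℝ) := by rw [Real.rpow_mul (by norm_num)]
      _ ≤ (p:ℝ) ^ (0.49:ℝ) := Real.rpow_le_rpow (by positivity) e1.le (by norm_num)
  · have e1 : (x.2 : ℝ) ≤ (2:ℝ) ^ ((2 * (k:ℝ)) / 3 + 1) := by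
      have e2 : (x.1 : ℝ) * x.2 ≤ (2:ℝ) ^ ((k:ℝ) + 1) := by
        rw [Real.rpow_add (by norm_num), Real.rpow_one, Real.rpow_natCast, ← pow_succ]
        exact_mod_cast (by rw [h1]; exact hc2.le : x.1 * x.2 ≤ 2 ^ (k + 1))
      have e3 : (2 : ℝ) ^ ((k : ℝ) / 3) * x.2 ≤ (2:ℝ) ^ ((k : ℝ) / 3) * (2:ℝ) ^ ((2 * (k:ℝ)) / 3 + 1) := by
        rw [← Real.rpow_add (by norm_num)]
        have e4 : (k : ℝ) / 3 + (2 * (k:ℝ) / 3 + 1) = k + 1 := by ring
        rw [e4]
        refine le_trans ?_ e2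
        apply mul_le_mul_of_nonneg_right _ (by positivity)
        rw [hx1]; exact hthird
      exact le_of_mul_le_mul_left e3 (by positivity)
    have e3 : (1/2 + (1/100 : ℝ)) = 0.51 := by norm_num
    rw [e3]
    calc (x.2 : ℝ) ^ (0.51:ℝ) ≤ ((2:ℝ) ^ ((2 * (k:ℝ)) / 3 + 1)) ^ (0.51:ℝ) :=
          Real.rpow_le_rpow (by positivity) e1 (by norm_num)
      _ = (2:ℝ) ^ (((2 * (k:ℝ)) / 3 + 1) * 0.51) := by rw [← Real.rpow_mul (by norm_num)]
      _ ≤ _ := by
          apply Real.rpow_le_rpow_of_exponent_le (by norm_num)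
          (clear * - hkr hU; nlinarith)

/-- lower bound for the number of rough candidates in a prime-poor cell -/
lemma rset_lower {d : ℝ} (hd : 0 < d) (hd1 : d ≤ 1/10000) : ∃ cr : ℝ, 0 < cr ∧ ∃ K : ℕ, ∀ k : ℕ, K ≤ k →
    ∀ j < nc d k, cr * 2 ^ ec d k / k ≤ ((rset d k j).card : ℝ) + npr d k j := by
  obtain ⟨c, hc, X0, hX⟩ := Pool.Agent.M17.Helper40.AV.roughAvail3_245
  refine ⟨c, hc, max X0 20000, fun k hk j hj => ?_⟩
  have hkX : X0 ≤ k := (le_max_left _ _).trans hk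
  have hk2 : 20000 ≤ k := (le_max_right _ _).trans hk
  have hkr : (20000 : ℝ) ≤ k := by exact_mod_cast hk2
  set x : ℕ := 2 ^ k + j * 2 ^ ec d k with hx
  have hec1 : (k : ℝ) * (1/2 - d) - 1 < ec d k := by
    have := Nat.lt_floor_add_one ((k : ℝ) * (1/2 - d))
    unfold ec; linarith
  have hec2 : (ec d k : ℝ) ≤ k * (1/2 - d) := by
    unfold ec
    exact Nat.floor_le (by (clear * - hd hd1 hkr; nlinarith))
  have hxk : 2 ^ k ≤ x := Nat.le_add_right _ _
  have hpos : 0 < 2 ^ ec d k := by positivity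
  have hxlt : x < 2 ^ (k + 1) := by
    have hm : x ∈ cell d k j := by
      unfold cell
      rw [mem_Ico, add_mul, one_mul]
      omega
    exact (cell_bounds hd hj hm).2
  have hxkr : (2:ℝ) ^ (k:ℝ) ≤ x := by rw [Real.rpow_natCast]; exact_mod_cast hxk
  have hxltr : (x:ℝ) ≤ (2:ℝ) ^ ((k:ℝ) + 1) := by
    rw [Real.rpow_add (by norm_num), Real.rpow_one, Real.rpow_natCast, ← pow_succ]; exact_mod_cast hxlt.le
  have hx0 : (0:ℝ) < x := lt_of_lt_of_le (by positivity) hxkr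
  have hbig : X0 ≤ x := by
    have : k < 2 ^ k := Nat.lt_two_pow_self
    omega
  have hH : ((2 ^ ec d k : ℕ) : ℝ) = (2:ℝ) ^ (ec d k : ℝ) := by
    rw [Real.rpow_natCast]; push_cast; rfl
  have h1 : (x : ℝ) ^ (1 / 2 - 0.0002 : ℝ) ≤ ((2 ^ ec d k : ℕ) : ℝ) := by
    rw [hH]
    calc (x : ℝ) ^ (1 / 2 - 0.0002 : ℝ) ≤ ((2:ℝ) ^ ((k:ℝ) + 1)) ^ (1 / 2 - 0.0002 : ℝ) :=
          Real.rpow_le_rpow hx0.le hxltr (by norm_num)
      _ = (2:ℝ) ^ (((k:ℝ) + 1) * (1 / 2 - 0.0002)) := by rw [← Real.rpow_mul (by norm_num)]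
      _ ≤ _ := by
          apply Real.rpow_le_rpow_of_exponent_le (by norm_num)
          (clear * - hd hd1 hkr hec1; nlinarith)
  have h2 : ((2 ^ ec d k : ℕ) : ℝ) ≤ (x : ℝ) ^ (1 / 2 : ℝ) := by
    rw [hH]
    calc (2:ℝ) ^ (ec d k : ℝ) ≤ (2:ℝ) ^ ((k:ℝ) * (1/2)) := by
          apply Real.rpow_le_rpow_of_exponent_le (by norm_num)
          (clear * - hec2 hd; nlinarith)
      _ = ((2:ℝ) ^ (k:ℝ)) ^ (1/2 : ℝ) := by rw [← Real.rpow_mul (by norm_num)]
      _ ≤ _ := Real.rpow_le_rpow (by positivity) hxkr (by norm_num)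
  have h3 := hX x (2 ^ ec d k) hbig h1 h2
  have hlog : Real.log x ≤ k := by
    have e1 := Real.log_le_log hx0 hxltr
    rw [Real.log_rpow (by norm_num)] at e1
    have e2 := Real.log_two_lt_d9
    have e3 : ((k:ℝ) + 1) * Real.log 2 ≤ ((k:ℝ) + 1) * 0.6932 := by
      apply mul_le_mul_of_nonneg_left _ (by positivity)
      (clear * - hd hd1 e2; linarith)
    (clear * - hd hd1 hkr e1 e3; linarith)
  have hlog0 : 0 < Real.log x := by
    apply Real.log_pos
    refine lt_of_lt_of_le ?_ hxkr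
    exact Real.one_lt_rpow (by norm_num) (by (clear * - hd hd1 hkr; linarith))
  have h4 : c * 2 ^ ec d k / k ≤ c * ((2 ^ ec d k : ℕ) : ℝ) / Real.log x := by
    push_cast
    apply div_le_div_of_nonneg_left (by positivity) hlog0 hlog
  refine (h4.trans h3).trans ?_
  have hcell : Ico x (x + 2 ^ ec d k) = cell d k j := by
    unfold cell
    rw [hx]
    congr 1
    ring
  have hsub : (Ico x (x + 2 ^ ec d k)).filter (fun n => Squarefree n ∧
      n.primeFactors.card ≤ 3 ∧ ∀ p : ℕ, p.Prime → p ∣ n → (x : ℝ) ^ (0.245:ℝ) < p) ⊆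
      rset d k j ∪ (cell d k j).filter Nat.Prime := by
    intro n hn
    rw [mem_filter, hcell] at hn
    obtain ⟨a, b, c', e⟩ := hn
    rw [mem_union]
    by_cases hnp : n.Prime
    · right; exact mem_filter.mpr ⟨a, hnp⟩
    · left
      refine mem_filter.mpr ⟨a, b, c', ?_, hnp⟩
      intro p hp hpn
      refine lt_of_le_of_lt ?_ (e p hp hpn)
      calc (2 : ℝ) ^ ((0.245 : ℝ) * k) = ((2:ℝ) ^ (k:ℝ)) ^ (0.245:ℝ) := by
            rw [← Real.rpow_mul (by norm_num)]; congr 1; ring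
        _ ≤ _ := Real.rpow_le_rpow (by positivity) hxkr (by norm_num)
  have h5 := (card_le_card hsub).trans (card_union_le _ _)
  unfold npr
  exact_mod_cast h5

end Pool.Agent.M17.Helper60.KX
end
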