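import Mathlib
import Pool.Agent.Helper53.KM.G01
import Pool.Agent.Helper53.KM.G19
import Pool.Agent.Helper53.KM.G34
import Pool.Agent.Helper53.KM.G38
import Pool.Agent.Helper53.KM.G42

/- Helper53.KN.Helper14.KSP.Count -/
section
/-! Integers composed of few given primes are rare (Rankin), and the sum of `1/rad`. -/

set_option autoImplicit false

open Finset

namespace Pool.Agent.M17.Helper14.KSP

/-- product of the prime factors of `k` outside `G` -/
def radG (G : Finset ℕ) (k : ℕ) : ℕ := ∏ p ∈ k.primeFactors \ G, p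

/-- `n ↦ n ^ (-η)` -/
noncomputable def fη (η : ℝ) : ℕ →* ℝ where
  toFun n := (n : ℝ) ^ (-η)
  map_one' := by rw [Nat.cast_one]; exact Real.one_rpow _
  map_mul' m n := by push_cast; exact Real.mul_rpow (Nat.cast_nonneg _) (Nat.cast_nonneg _)

theorem fη_apply (η : ℝ) (n : ℕ) : fη η n = (n : ℝ) ^ (-η) := rfl

/-- Rankin's bound. -/
theorem card_factored_le (η : ℝ) (hη : 0 < η) (s : Finset ℕ) (N : ℕ) :
    (((Icc 1 N).filter (fun n => n.primeFactors ⊆ s)).card : ℝ) ≤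
      (N : ℝ) ^ η * ∏ p ∈ s with p.Prime, (1 - (p : ℝ) ^ (-η))⁻¹ := by
  have hf : ∀ {p : ℕ}, p.Prime → ‖fη η p‖ < 1 := by
    intro p hp
    rw [fη_apply, Real.norm_of_nonneg (by positivity)]
    exact Real.rpow_lt_one_of_one_lt_of_neg (by exact_mod_cast hp.one_lt) (by (clear * - hη; linarith))
  obtain ⟨hsum, hhas⟩ :=
    EulerProduct.summable_and_hasSum_factoredNumbers_prod_filter_prime_geometric
      (f := fη η) hf s
  have hle : (((Icc 1 N).filter (fun n => n.primeFactors ⊆ s)).card : ℝ) ≤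
      (N : ℝ) ^ η * ∑ n ∈ (Icc 1 N).filter (fun n => n.primeFactors ⊆ s), (n : ℝ) ^ (-η) := by
    rw [mul_sum, card_eq_sum_ones]
    push_cast
    refine sum_le_sum fun n hn => ?_
    have hn1 := mem_Icc.mp (mem_filter.mp hn).1
    have hn0 : (0 : ℝ) < n := by exact_mod_cast hn1.1
    have hnN : (n : ℝ) ≤ N := by exact_mod_cast hn1.2
    have h1 : (n : ℝ) ^ η ≤ (N : ℝ) ^ η := Real.rpow_le_rpow hn0.le hnN hη.le
    calc (1 : ℝ) = (n : ℝ) ^ η * (n : ℝ) ^ (-η) := by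
          rw [← Real.rpow_add hn0]; simp
      _ ≤ (N : ℝ) ^ η * (n : ℝ) ^ (-η) := mul_le_mul_of_nonneg_right h1 (by positivity)
  refine hle.trans (mul_le_mul_of_nonneg_left ?_ (by positivity))
  -- the finite sum is at most the full sum
  have hmem : ∀ n ∈ (Icc 1 N).filter (fun n => n.primeFactors ⊆ s), n ∈ Nat.factoredNumbers s := by
    intro n hn
    have hn1 := mem_filter.mp hn
    exact Nat.mem_factoredNumbers_of_primeFactors_subset
      (by have := (mem_Icc.mp hn1.1).1; omega) hn1.2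
  set A := (Icc 1 N).filter (fun n => n.primeFactors ⊆ s) with hA
  have h2 : ∑ n ∈ A, (n : ℝ) ^ (-η) = ∑ m ∈ A.attach, fη η (m : ℕ) := by
    rw [← sum_attach A]; rfl
  set ι : {x // x ∈ A} → Nat.factoredNumbers s := fun x => ⟨x.1, hmem x.1 x.2⟩ with hι
  have hinj : Function.Injective ι := by
    intro x y hxy
    apply Subtype.ext
    have := congrArg Subtype.val hxy
    simpa [hι] using this
  have h3 : ∑ m ∈ A.attach, fη η (m : ℕ) =
      ∑ m ∈ A.attach.map ⟨ι, hinj⟩, fη η (m : ℕ) := by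
    rw [sum_map]; rfl
  rw [h2, h3]
  have h4 := sum_le_hasSum (A.attach.map ⟨ι, hinj⟩)
    (fun m _ => by rw [fη_apply]; (clear * -; positivity)) hhas
  simpa [fη_apply] using h4

/-- The Euler factor over few primes is small. -/
theorem prod_le (ε B : ℝ) (hε : 0 < ε) (hB : 0 < B) (η : ℝ) (hη : 0 < η) :
    ∃ C : ℝ, 0 < C ∧ ∀ (N : ℕ) (s : Finset ℕ), 1 ≤ N → (s.card : ℝ) ≤ B * Real.log N →
      ∏ p ∈ s with p.Prime, (1 - (p : ℝ) ^ (-η))⁻¹ ≤ C * (N : ℝ) ^ ε := by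
  -- threshold P0
  obtain ⟨P0, hP0, hP1, hP2⟩ : ∃ P0 : ℕ, 2 ≤ P0 ∧ (P0 : ℝ) ^ (-η) ≤ 1 / 2 ∧
      2 * B * (P0 : ℝ) ^ (-η) ≤ ε := by
    have ht : Filter.Tendsto (fun n : ℕ => (n : ℝ) ^ (-η)) Filter.atTop (nhds 0) :=
      (tendsto_rpow_neg_atTop hη).comp tendsto_natCast_atTop_atTop
    have hpos : 0 < min (1 / 2) (ε / (2 * B)) := lt_min (by norm_num) (by positivity)
    obtain ⟨P0, h1, h2⟩ := ((ht.eventually (gt_mem_nhds hpos)).and
      (Filter.eventually_ge_atTop 2)).exists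
    refine ⟨P0, h2, (h1.le.trans (min_le_left _ _)), ?_⟩
    have := h1.le.trans (min_le_right _ _)
    rw [le_div_iff₀ (by positivity)] at this
    (clear * - this; linarith)
  set C1 : ℝ := (1 - (2 : ℝ) ^ (-η))⁻¹ with hC1
  have h2η : (2 : ℝ) ^ (-η) < 1 := Real.rpow_lt_one_of_one_lt_of_neg (by norm_num) (by (clear * - hη; linarith))
  have hC1a : 1 ≤ C1 := by
    rw [hC1]
    exact (one_le_inv₀ (by (clear * - h2η; linarith))).mpr (by
      have : 0 < (2 : ℝ) ^ (-η) := by positivity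
      (clear * - this; linarith))
  refine ⟨C1 ^ P0, by (clear * - h2η; positivity), ?_⟩
  intro N s hN hs
  have hfac : ∀ p ∈ s.filter (fun p => p.Prime), (1 - (p : ℝ) ^ (-η))⁻¹ ≤
      (if p < P0 then C1 else 1) * Real.exp (2 * (P0 : ℝ) ^ (-η)) := by
    intro p hp
    have hpp : p.Prime := (mem_filter.mp hp).2
    by_cases h : p < P0
    · rw [if_pos h]
      have h1 : (p : ℝ) ^ (-η) ≤ (2 : ℝ) ^ (-η) :=
        Real.rpow_le_rpow_of_nonpos (by norm_num) (by exact_mod_cast hpp.two_le) (by (clear * - hη; linarith))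
      have h2 : (1 - (p : ℝ) ^ (-η))⁻¹ ≤ C1 := by
        rw [hC1]
        exact inv_anti₀ (by (clear * - h2η; linarith)) (by (clear * - h1; linarith))
      have h3 : (1 : ℝ) ≤ Real.exp (2 * (P0 : ℝ) ^ (-η)) := Real.one_le_exp (by positivity)
      (clear * - h2 h3 hC1a; nlinarith)
    · rw [if_neg h, one_mul]
      have hp0 : (P0 : ℝ) ≤ p := by exact_mod_cast not_lt.mp h
      have h1 : (p : ℝ) ^ (-η) ≤ (P0 : ℝ) ^ (-η) :=
        Real.rpow_le_rpow_of_nonpos (by positivity) hp0 (by (clear * - hη; linarith))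
      have h0 : 0 ≤ (p : ℝ) ^ (-η) := by positivity
      set x := (p : ℝ) ^ (-η) with hx
      have hx2 : x ≤ 1 / 2 := h1.trans hP1
      have h4 : (1 - x)⁻¹ ≤ 1 + 2 * x := by
        rw [inv_le_iff_one_le_mul₀ (by (clear * - hP1 h1; linarith))]
        (clear * - hP1 h0 h1; nlinarith)
      have h5 : 1 + 2 * x ≤ Real.exp (2 * x) := by
        have := Real.add_one_le_exp (2 * x); (clear * - this; linarith)
      have h6 : Real.exp (2 * x) ≤ Real.exp (2 * (P0 : ℝ) ^ (-η)) :=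
        Real.exp_le_exp.mpr (by (clear * - h1; linarith))
      (clear * - h4 h5 h6; linarith)
  have hnn : ∀ p ∈ s.filter (fun p => p.Prime), 0 ≤ (1 - (p : ℝ) ^ (-η))⁻¹ := by
    intro p hp
    have hpp : p.Prime := (mem_filter.mp hp).2
    have : (p : ℝ) ^ (-η) < 1 :=
      Real.rpow_lt_one_of_one_lt_of_neg (by exact_mod_cast hpp.one_lt) (by linarith)
    exact inv_nonneg.mpr (by linarith)
  calc ∏ p ∈ s with p.Prime, (1 - (p : ℝ) ^ (-η))⁻¹
      ≤ ∏ p ∈ s with p.Prime, ((if p < P0 then C1 else 1) * Real.exp (2 * (P0 : ℝ) ^ (-η))) :=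
        prod_le_prod hnn hfac
    _ = (∏ p ∈ s with p.Prime, (if p < P0 then C1 else 1)) *
          Real.exp (2 * (P0 : ℝ) ^ (-η)) ^ (s.filter (fun p => p.Prime)).card := by
        rw [prod_mul_distrib, prod_const]
    _ ≤ C1 ^ P0 * (N : ℝ) ^ ε := by
        refine mul_le_mul ?_ ?_ (by positivity) (by positivity)
        · rw [prod_ite, prod_const, prod_const_one, mul_one]
          refine pow_le_pow_right₀ hC1a ?_
          calc ((s.filter (fun p => p.Prime)).filter (fun p => p < P0)).card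
              ≤ (range P0).card := card_le_card (fun p hp => mem_range.mpr (mem_filter.mp hp).2)
            _ = P0 := card_range P0
        · rw [← Real.exp_nat_mul]
          have hN0 : (0 : ℝ) < N := by exact_mod_cast hN
          rw [Real.rpow_def_of_pos hN0]
          refine Real.exp_le_exp.mpr ?_
          have hc : ((s.filter (fun p => p.Prime)).card : ℝ) ≤ B * Real.log N :=
            le_trans (by exact_mod_cast card_filter_le _ _) hs
          have hlog : 0 ≤ Real.log N := Real.log_nonneg (by exact_mod_cast hN)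
          calc ((s.filter (fun p => p.Prime)).card : ℝ) * (2 * (P0 : ℝ) ^ (-η))
              ≤ (B * Real.log N) * (2 * (P0 : ℝ) ^ (-η)) :=
                mul_le_mul_of_nonneg_right hc (by positivity)
            _ = Real.log N * (2 * B * (P0 : ℝ) ^ (-η)) := by ring
            _ ≤ Real.log N * ε := mul_le_mul_of_nonneg_left hP2 hlog

/-- Few primes: few integers. -/
theorem card_le (ε B : ℝ) (hε : 0 < ε) (hB : 0 < B) :
    ∃ C : ℝ, 0 < C ∧ ∀ (N : ℕ) (s : Finset ℕ), 1 ≤ N → (s.card : ℝ) ≤ B * Real.log N →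
      (((Icc 1 N).filter (fun n => n.primeFactors ⊆ s)).card : ℝ) ≤ C * (N : ℝ) ^ ε := by
  obtain ⟨C, hC, h⟩ := prod_le (ε / 2) B (by (clear * - hε; linarith)) hB (ε / 2) (by (clear * - hε; linarith))
  refine ⟨C, hC, fun N s hN hs => ?_⟩
  have hN0 : (0 : ℝ) < N := by exact_mod_cast hN
  calc (((Icc 1 N).filter (fun n => n.primeFactors ⊆ s)).card : ℝ)
      ≤ (N : ℝ) ^ (ε / 2) * ∏ p ∈ s with p.Prime, (1 - (p : ℝ) ^ (-(ε / 2)))⁻¹ :=
        card_factored_le (ε / 2) (by (clear * - hε; linarith)) s N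
    _ ≤ (N : ℝ) ^ (ε / 2) * (C * (N : ℝ) ^ (ε / 2)) :=
        mul_le_mul_of_nonneg_left (h N s hN hs) (by positivity)
    _ = C * (N : ℝ) ^ ε := by
        have : (N : ℝ) ^ ε = (N : ℝ) ^ (ε / 2) * (N : ℝ) ^ (ε / 2) := by
          rw [← Real.rpow_add hN0]; congr 1; ring
        rw [this]; ring

theorem card_primeFactors_le (n N : ℕ) (hn : n ≠ 0) (h : n ≤ N) :
    (n.primeFactors.card : ℝ) ≤ 2 * Real.log N := by
  have h1 : 2 ^ n.primeFactors.card ≤ n := by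
    calc 2 ^ n.primeFactors.card = ∏ _p ∈ n.primeFactors, 2 := by rw [prod_const]
      _ ≤ ∏ p ∈ n.primeFactors, p :=
        prod_le_prod' fun p hp => (Nat.prime_of_mem_primeFactors hp).two_le
      _ ≤ n := Nat.le_of_dvd (Nat.pos_of_ne_zero hn) (Nat.prod_primeFactors_dvd n)
  have h2 : (2 : ℝ) ^ n.primeFactors.card ≤ N := by exact_mod_cast h1.trans h
  have h3 := Real.log_le_log (by positivity) h2
  rw [Real.log_pow] at h3
  have h4 : (1 / 2 : ℝ) < Real.log 2 := by have := Real.log_two_gt_d9; (clear * - this; linarith)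
  have h5 : (0 : ℝ) ≤ n.primeFactors.card := Nat.cast_nonneg _
  (clear * - h3 h4; nlinarith)

/-- `∑ 1/rad*` is `N^o(1)`. -/
theorem sum_inv_radG_le (ε B : ℝ) (hε : 0 < ε) (hB : 0 < B) :
    ∃ C : ℝ, 0 < C ∧ ∀ (N : ℕ) (G : Finset ℕ), 1 ≤ N → (G.card : ℝ) ≤ B * Real.log N →
      ∑ h ∈ Icc 1 N, (1 : ℝ) / radG G h ≤ C * (N : ℝ) ^ ε := by
  obtain ⟨C, hC, hcard⟩ := card_le (ε / 2) (B + 2) (by linarith) (by (clear * - hB; linarith))
  -- log N <= C2 N^(ε/2)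
  refine ⟨C * (1 + 2 / ε), by positivity, fun N G hN hG => ?_⟩
  have hN0 : (0 : ℝ) < N := by exact_mod_cast hN
  have hmap : ∀ h ∈ Icc 1 N, radG G h ∈ Icc 1 N := by
    intro h hh
    have h1 := mem_Icc.mp hh
    have hd : radG G h ∣ h := by
      refine dvd_trans (prod_dvd_prod_of_subset _ _ _ sdiff_subset) (Nat.prod_primeFactors_dvd h)
    have h0 : 0 < h := by omega
    exact mem_Icc.mpr ⟨Nat.pos_of_dvd_of_pos hd h0, (Nat.le_of_dvd h0 hd).trans h1.2⟩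
  rw [← sum_fiberwise_of_maps_to hmap]
  have hfib : ∀ r ∈ Icc 1 N, ∑ h ∈ (Icc 1 N).filter (fun h => radG G h = r),
      (1 : ℝ) / radG G h ≤ C * (N : ℝ) ^ (ε / 2) * (1 / r) := by
    intro r hr
    have hr1 := mem_Icc.mp hr
    have hr0 : (0 : ℝ) < r := by exact_mod_cast hr1.1
    have h1 : ∑ h ∈ (Icc 1 N).filter (fun h => radG G h = r), (1 : ℝ) / radG G h =
        (((Icc 1 N).filter (fun h => radG G h = r)).card : ℝ) * (1 / r) := by
      rw [sum_congr rfl (fun h hh => by rw [(mem_filter.mp hh).2]), sum_const, nsmul_eq_mul]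
    rw [h1]
    refine mul_le_mul_of_nonneg_right ?_ (by (clear * - hr0; positivity))
    have hsub : (Icc 1 N).filter (fun h => radG G h = r) ⊆
        (Icc 1 N).filter (fun n => n.primeFactors ⊆ G ∪ r.primeFactors) := by
      intro h hh
      obtain ⟨hh1, hh2⟩ := mem_filter.mp hh
      refine mem_filter.mpr ⟨hh1, fun p hp => ?_⟩
      by_cases hpG : p ∈ G
      · exact mem_union_left _ hpG
      · refine mem_union_right _ ?_
        rw [Nat.mem_primeFactors]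
        refine ⟨Nat.prime_of_mem_primeFactors hp, ?_, by omega⟩
        rw [← hh2]
        exact dvd_prod_of_mem _ (mem_sdiff.mpr ⟨hp, hpG⟩)
    refine le_trans (by exact_mod_cast card_le_card hsub) (hcard N _ hN ?_)
    have h2 : ((G ∪ r.primeFactors).card : ℝ) ≤ G.card + r.primeFactors.card := by
      exact_mod_cast card_union_le _ _
    have h3 := card_primeFactors_le r N (by omega) hr1.2
    calc ((G ∪ r.primeFactors).card : ℝ) ≤ G.card + r.primeFactors.card := h2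
      _ ≤ B * Real.log N + 2 * Real.log N := add_le_add hG h3
      _ = (B + 2) * Real.log N := by ring
  refine (sum_le_sum hfib).trans ?_
  rw [← mul_sum]
  have hharm : ∑ r ∈ Icc 1 N, (1 : ℝ) / r ≤ 1 + Real.log N := by
    have h := harmonic_le_one_add_log N
    rw [harmonic_eq_sum_Icc] at h
    push_cast at h
    simpa [one_div] using h
  have hlog : Real.log N ≤ (N : ℝ) ^ (ε / 2) / (ε / 2) :=
    Real.log_le_rpow_div hN0.le (by (clear * - hε; linarith))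
  have h1N : (1 : ℝ) ≤ (N : ℝ) ^ (ε / 2) := Real.one_le_rpow (by exact_mod_cast hN) (by (clear * - hε; linarith))
  have hsum : ∑ r ∈ Icc 1 N, (1 : ℝ) / r ≤ (1 + 2 / ε) * (N : ℝ) ^ (ε / 2) := by
    calc ∑ r ∈ Icc 1 N, (1 : ℝ) / r ≤ 1 + Real.log N := hharm
      _ ≤ (N : ℝ) ^ (ε / 2) + (N : ℝ) ^ (ε / 2) / (ε / 2) := add_le_add h1N hlog
      _ = (1 + 2 / ε) * (N : ℝ) ^ (ε / 2) := by field_simp
  calc C * (N : ℝ) ^ (ε / 2) * ∑ r ∈ Icc 1 N, (1 : ℝ) / r
      ≤ C * (N : ℝ) ^ (ε / 2) * ((1 + 2 / ε) * (N : ℝ) ^ (ε / 2)) :=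
        mul_le_mul_of_nonneg_left hsum (by positivity)
    _ = C * (1 + 2 / ε) * (N : ℝ) ^ ε := by
        have : (N : ℝ) ^ ε = (N : ℝ) ^ (ε / 2) * (N : ℝ) ^ (ε / 2) := by
          rw [← Real.rpow_add hN0]; congr 1; ring
        rw [this]; ring

end Pool.Agent.M17.Helper14.KSP
end

/- Helper53.KN.Helper48.KS.PowC -/
section
/-!
# Project KS: `PowC (1/100) (1/1000)` from `pow_half`
-/

set_option autoImplicit false

namespace Pool.Agent.M17.Helper48.KS

open Finset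
open Pool.Agent.M17.Helper16.KS (PowC rad)

theorem rad_cast (k : ℕ) : ((rad k : ℕ) : ℝ) = ∏ p ∈ k.primeFactors, (p : ℝ) := by
  unfold rad; push_cast; rfl

theorem rad_pos' (k : ℕ) : 0 < rad k :=
  Finset.prod_pos fun _ hp => (Nat.prime_of_mem_primeFactors hp).pos

theorem rad_dvd' (k : ℕ) : rad k ∣ k := Nat.prod_primeFactors_dvd k

theorem rad_dvd_rad {a b : ℕ} (h : a ∣ b) (hb : b ≠ 0) : rad a ∣ rad b :=
  Finset.prod_dvd_prod_of_subset _ _ _ (Nat.primeFactors_mono h hb)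

theorem radG_empty (k : ℕ) : Pool.Agent.M17.Helper14.KSP.radG ∅ k = rad k := by
  unfold Pool.Agent.M17.Helper14.KSP.radG rad
  rw [Finset.sdiff_empty]

theorem sum_half_rad : ∃ C : ℝ, 0 < C ∧ ∀ N : ℕ,
    ∑ z ∈ Icc 1 N, (z : ℝ) ^ (-(1 / 2 : ℝ)) / (rad z : ℝ) ≤ C := by
  obtain ⟨C, hC, h⟩ := Pool.Agent.M17.Helper14.KSP.sum_inv_radG_le (1 / 4) 1 (by norm_num) (by norm_num)
  set r : ℝ := (2 : ℝ) ^ (-(1 / 4 : ℝ)) with hr
  have hr0 : 0 < r := by positivity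
  have hr1 : r < 1 := Real.rpow_lt_one_of_one_lt_of_neg (by norm_num) (by norm_num)
  refine ⟨C * 2 ^ (1 / 4 : ℝ) * (1 - r)⁻¹, by
    have : 0 < 1 - r := by (clear * - hr1; linarith)
    (clear * - hC hr1; positivity), ?_⟩
  intro N
  have hmaps : ∀ z ∈ Icc 1 N, Nat.log 2 z ∈ Finset.range (Nat.log 2 N + 1) := by
    intro z hz
    rw [Finset.mem_range, Nat.lt_succ_iff]
    exact Nat.log_mono_right (Finset.mem_Icc.mp hz).2
  rw [← Finset.sum_fiberwise_of_maps_to hmaps]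
  have hin : ∀ i ∈ Finset.range (Nat.log 2 N + 1),
      ∑ z ∈ Icc 1 N with Nat.log 2 z = i, (z : ℝ) ^ (-(1 / 2 : ℝ)) / (rad z : ℝ) ≤
        C * 2 ^ (1 / 4 : ℝ) * r ^ i := by
    intro i _
    have h1 : ∀ z ∈ (Icc 1 N).filter (fun z => Nat.log 2 z = i),
        (z : ℝ) ^ (-(1 / 2 : ℝ)) / (rad z : ℝ) ≤
          ((2 : ℝ) ^ i) ^ (-(1 / 2 : ℝ)) * (1 / (rad z : ℝ)) := by
      intro z hz
      rw [Finset.mem_filter, Finset.mem_Icc] at hz
      have hz1 : (2 : ℝ) ^ i ≤ z := by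
        have := Nat.pow_log_le_self 2 (show z ≠ 0 by omega)
        rw [hz.2] at this
        exact_mod_cast this
      rw [div_eq_mul_one_div]
      apply mul_le_mul_of_nonneg_right _ (by (clear * -; positivity))
      exact Real.rpow_le_rpow_of_nonpos (by positivity) hz1 (by norm_num)
    have h2 : ∑ z ∈ (Icc 1 N).filter (fun z => Nat.log 2 z = i), (1 / (rad z : ℝ)) ≤
        ∑ z ∈ Icc 1 (2 ^ (i + 1)), (1 / (rad z : ℝ)) := by
      apply Finset.sum_le_sum_of_subset_of_nonneg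
      · intro z hz
        rw [Finset.mem_filter, Finset.mem_Icc] at hz
        rw [Finset.mem_Icc]
        refine ⟨hz.1.1, ?_⟩
        have := Nat.lt_pow_succ_log_self (b := 2) (by norm_num) z
        rw [hz.2] at this
        exact this.le
      · intro z _ _
        (clear * -; positivity)
    have h3 := h (2 ^ (i + 1)) ∅ Nat.one_le_two_pow (by
      simp only [Finset.card_empty, Nat.cast_zero, one_mul]
      exact Real.log_nonneg (by exact_mod_cast Nat.one_le_two_pow))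
    simp only [radG_empty] at h3
    calc ∑ z ∈ (Icc 1 N).filter (fun z => Nat.log 2 z = i),
          (z : ℝ) ^ (-(1 / 2 : ℝ)) / (rad z : ℝ)
        ≤ ∑ z ∈ (Icc 1 N).filter (fun z => Nat.log 2 z = i),
            ((2 : ℝ) ^ i) ^ (-(1 / 2 : ℝ)) * (1 / (rad z : ℝ)) := Finset.sum_le_sum h1
      _ = ((2 : ℝ) ^ i) ^ (-(1 / 2 : ℝ)) *
            ∑ z ∈ (Icc 1 N).filter (fun z => Nat.log 2 z = i), (1 / (rad z : ℝ)) := by
          rw [Finset.mul_sum]
      _ ≤ ((2 : ℝ) ^ i) ^ (-(1 / 2 : ℝ)) * (C * ((2 ^ (i + 1) : ℕ) : ℝ) ^ (1 / 4 : ℝ)) :=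
          mul_le_mul_of_nonneg_left (h2.trans h3) (by positivity)
      _ = C * 2 ^ (1 / 4 : ℝ) * r ^ i := by
          push_cast
          rw [← Real.rpow_natCast, ← Real.rpow_natCast, ← Real.rpow_mul (by norm_num),
            ← Real.rpow_mul (by norm_num), hr, ← Real.rpow_natCast, ← Real.rpow_mul (by norm_num)]
          push_cast
          have e1 : (2 : ℝ) ^ (((i : ℝ) + 1) * (1 / 4)) = 2 ^ (1 / 4 : ℝ) * 2 ^ ((i : ℝ) / 4) := by
            rw [← Real.rpow_add (by norm_num)]; congr 1; ring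
          have e2 : (2 : ℝ) ^ ((i : ℝ) * -(1 / 2)) * 2 ^ ((i : ℝ) / 4) =
              2 ^ (-(1 / 4 : ℝ) * i) := by
            rw [← Real.rpow_add (by norm_num)]; congr 1; ring
          rw [e1, ← e2]
          ring
  refine (Finset.sum_le_sum hin).trans ?_
  rw [← Finset.mul_sum]
  apply mul_le_mul_of_nonneg_left _ (by positivity)
  have hsum := (summable_geometric_of_lt_one hr0.le hr1).sum_le_tsum
    (Finset.range (Nat.log 2 N + 1)) (fun i _ => by positivity)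
  rwa [tsum_geometric_of_lt_one hr0.le hr1] at hsum

theorem div_rad_cast (k : ℕ) : (k : ℝ) / (rad k : ℝ) = ((k / rad k : ℕ) : ℝ) := by
  rw [Nat.cast_div (rad_dvd' k) (by exact_mod_cast (rad_pos' k).ne')]

theorem one_le_div_rad {k : ℕ} (hk : k ≠ 0) : 1 ≤ k / rad k :=
  (Nat.one_le_div_iff (rad_pos' k)).mpr (Nat.le_of_dvd (Nat.pos_of_ne_zero hk) (rad_dvd' k))

/-- `z rad z ∣ k` if `k / rad k = z` -/
theorem mul_rad_dvd {k z : ℕ} (hk : k ≠ 0) (h : k / rad k = z) : z * rad z ∣ k := by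
  have h1 : k = z * rad k := by
    rw [← h]; exact (Nat.div_mul_cancel (rad_dvd' k)).symm
  have h2 : rad z ∣ rad k := rad_dvd_rad ⟨rad k, h1⟩ hk
  conv_rhs => rw [h1]
  exact Nat.mul_dvd_mul_left z h2

theorem powC_explicit : PowC (1 / 100) (1 / 1000) := by
  classical
  obtain ⟨C1, hC1, hpow⟩ := Pool.Agent.M17.Helper18.KP.pow_half (1 / 2000) (by norm_num)
  obtain ⟨C2, hC2, hrad⟩ := sum_half_rad
  refine ⟨2 * C1 + (C2 + 1), ?_⟩
  intro x y B hxN hyl hyx hB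
  have hx : (1 : ℝ) ≤ x := by exact_mod_cast hxN
  have hx0 : (0 : ℝ) < x := by (clear * - hx; linarith)
  have hy0 : (0 : ℝ) < y := lt_of_lt_of_le (by positivity) hyl
  have hkpos : ∀ k ∈ Finset.Ico x (x + y), k ≠ 0 := by
    intro k hk
    have := (Finset.mem_Ico.mp hk).1
    omega
  set S := (Finset.Ico x (x + y)).filter (fun k : ℕ => B ≤ (k : ℝ) / (rad k : ℝ)) with hS
  rw [← Finset.sum_filter_add_sum_filter_not S
    (fun k : ℕ => (x : ℝ) ^ (1 / 5 : ℝ) ≤ (k : ℝ) / (rad k : ℝ))]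
  have hBη : (0 : ℝ) < B ^ (-(1 / 1000 : ℝ)) := by positivity
  -- large powerful part
  have hA : ∑ k ∈ S.filter (fun k : ℕ => (x : ℝ) ^ (1 / 5 : ℝ) ≤ (k : ℝ) / (rad k : ℝ)),
      ((k : ℝ) / (rad k : ℝ)) ^ (1 / 2 - 1 / 100 : ℝ) ≤ 2 * C1 * y * B ^ (-(1 / 1000 : ℝ)) := by
    have h1 : ∀ k ∈ S.filter (fun k : ℕ => (x : ℝ) ^ (1 / 5 : ℝ) ≤ (k : ℝ) / (rad k : ℝ)),
        ((k : ℝ) / (rad k : ℝ)) ^ (1 / 2 - 1 / 100 : ℝ) ≤
          B ^ (-(1 / 1000 : ℝ)) * (x : ℝ) ^ (-(9 / 5000 : ℝ)) *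
            ((k : ℝ) / ∏ p ∈ k.primeFactors, (p : ℝ)) ^ (1 / 2 : ℝ) := by
      intro k hk
      rw [Finset.mem_filter, hS, Finset.mem_filter] at hk
      obtain ⟨⟨_, hkB⟩, hkx⟩ := hk
      rw [← rad_cast]
      set z := (k : ℝ) / (rad k : ℝ) with hz
      have hz0 : 0 < z := by (clear * - hB hkB; linarith)
      have e1 : z ^ (1 / 2 - 1 / 100 : ℝ) =
          z ^ (-(1 / 1000 : ℝ)) * z ^ (-(9 / 1000 : ℝ)) * z ^ (1 / 2 : ℝ) := by
        rw [← Real.rpow_add hz0, ← Real.rpow_add hz0]; norm_num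
      have e2 : z ^ (-(1 / 1000 : ℝ)) ≤ B ^ (-(1 / 1000 : ℝ)) :=
        Real.rpow_le_rpow_of_nonpos (by (clear * - hB; linarith)) hkB (by norm_num)
      have e3 : z ^ (-(9 / 1000 : ℝ)) ≤ (x : ℝ) ^ (-(9 / 5000 : ℝ)) := by
        have := Real.rpow_le_rpow_of_nonpos (z := -(9 / 1000 : ℝ))
          (show (0 : ℝ) < (x : ℝ) ^ (1 / 5 : ℝ) by positivity) hkx (by norm_num)
        rw [← Real.rpow_mul hx0.le] at this
        refine this.trans (le_of_eq ?_)
        norm_num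
      rw [e1]
      (clear * - e2 e3 hz0 hB; gcongr)
    refine (Finset.sum_le_sum h1).trans ?_
    rw [← Finset.mul_sum]
    have h2 : ∑ k ∈ S.filter (fun k : ℕ => (x : ℝ) ^ (1 / 5 : ℝ) ≤ (k : ℝ) / (rad k : ℝ)),
        ((k : ℝ) / ∏ p ∈ k.primeFactors, (p : ℝ)) ^ (1 / 2 : ℝ) ≤
        ∑ k ∈ Finset.Icc ⌈(x : ℝ)⌉₊ ⌊(x : ℝ) + y⌋₊,
          ((k : ℝ) / ∏ p ∈ k.primeFactors, (p : ℝ)) ^ (1 / 2 : ℝ) := by
      apply Finset.sum_le_sum_of_subset_of_nonneg
      · intro k hk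
        rw [Finset.mem_filter, hS, Finset.mem_filter, Finset.mem_Ico] at hk
        rw [Finset.mem_Icc, Nat.ceil_natCast]
        refine ⟨hk.1.1.1, ?_⟩
        have : (x : ℝ) + y = ((x + y : ℕ) : ℝ) := by push_cast; ring
        rw [this, Nat.floor_natCast]
        omega
      · intro k _ _
        (clear * -; positivity)
    have h3 := hpow x y hx hy0.le (by exact_mod_cast hyx)
    have h4 : (x : ℝ) ^ (1 / 2 : ℝ) ≤ y * (x : ℝ) ^ (1 / 1000 : ℝ) := by
      calc (x : ℝ) ^ (1 / 2 : ℝ) = (x : ℝ) ^ (1 / 2 - 1 / 1000 : ℝ) * (x : ℝ) ^ (1 / 1000 : ℝ) := by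
            rw [← Real.rpow_add hx0]; norm_num
        _ ≤ y * (x : ℝ) ^ (1 / 1000 : ℝ) := mul_le_mul_of_nonneg_right hyl (by positivity)
    have h5 : (1 : ℝ) ≤ (x : ℝ) ^ (1 / 1000 : ℝ) := Real.one_le_rpow hx (by norm_num)
    have h6 : (y : ℝ) + (x : ℝ) ^ (1 / 2 : ℝ) ≤ 2 * y * (x : ℝ) ^ (1 / 1000 : ℝ) := by (clear * - h4 h5; nlinarith)
    have h7 : (x : ℝ) ^ (-(9 / 5000 : ℝ)) * ((x : ℝ) ^ (1 / 1000 : ℝ) * (x : ℝ) ^ (1 / 2000 : ℝ)) ≤
        1 := by
      rw [← Real.rpow_add hx0, ← Real.rpow_add hx0]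
      exact Real.rpow_le_one_of_one_le_of_nonpos hx (by norm_num)
    calc B ^ (-(1 / 1000 : ℝ)) * (x : ℝ) ^ (-(9 / 5000 : ℝ)) *
          ∑ k ∈ S.filter (fun k : ℕ => (x : ℝ) ^ (1 / 5 : ℝ) ≤ (k : ℝ) / (rad k : ℝ)),
            ((k : ℝ) / ∏ p ∈ k.primeFactors, (p : ℝ)) ^ (1 / 2 : ℝ)
        ≤ B ^ (-(1 / 1000 : ℝ)) * (x : ℝ) ^ (-(9 / 5000 : ℝ)) *
            (C1 * (2 * y * (x : ℝ) ^ (1 / 1000 : ℝ)) * (x : ℝ) ^ (1 / 2000 : ℝ)) := by
          apply mul_le_mul_of_nonneg_left _ (by positivity)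
          refine h2.trans (h3.trans ?_)
          gcongr
      _ = 2 * C1 * y * B ^ (-(1 / 1000 : ℝ)) * ((x : ℝ) ^ (-(9 / 5000 : ℝ)) *
            ((x : ℝ) ^ (1 / 1000 : ℝ) * (x : ℝ) ^ (1 / 2000 : ℝ))) := by ring
      _ ≤ 2 * C1 * y * B ^ (-(1 / 1000 : ℝ)) * 1 :=
          mul_le_mul_of_nonneg_left h7 (by positivity)
      _ = 2 * C1 * y * B ^ (-(1 / 1000 : ℝ)) := mul_one _
  -- small powerful part
  have hBp : ∑ k ∈ S.filter (fun k : ℕ => ¬ (x : ℝ) ^ (1 / 5 : ℝ) ≤ (k : ℝ) / (rad k : ℝ)),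
      ((k : ℝ) / (rad k : ℝ)) ^ (1 / 2 - 1 / 100 : ℝ) ≤ (C2 + 1) * y * B ^ (-(1 / 1000 : ℝ)) := by
    set T := S.filter (fun k : ℕ => ¬ (x : ℝ) ^ (1 / 5 : ℝ) ≤ (k : ℝ) / (rad k : ℝ)) with hT
    set M := ⌊(x : ℝ) ^ (1 / 5 : ℝ)⌋₊ with hM
    have hMle : (M : ℝ) ≤ (x : ℝ) ^ (1 / 5 : ℝ) := Nat.floor_le (by positivity)
    have hTmem : ∀ k ∈ T, k ∈ Finset.Ico x (x + y) ∧ B ≤ ((k / rad k : ℕ) : ℝ) ∧
        ((k / rad k : ℕ) : ℝ) < (x : ℝ) ^ (1 / 5 : ℝ) := by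
      intro k hk
      rw [hT, Finset.mem_filter, hS, Finset.mem_filter, not_le, div_rad_cast] at hk
      exact ⟨hk.1.1, hk.1.2, hk.2⟩
    have h1 : ∀ k ∈ T, ((k : ℝ) / (rad k : ℝ)) ^ (1 / 2 - 1 / 100 : ℝ) ≤
        B ^ (-(1 / 1000 : ℝ)) * ((k / rad k : ℕ) : ℝ) ^ (1 / 2 : ℝ) := by
      intro k hk
      obtain ⟨hk1, hk2, _⟩ := hTmem k hk
      rw [div_rad_cast]
      set z : ℝ := ((k / rad k : ℕ) : ℝ) with hz
      have hz1 : 1 ≤ z := by
        rw [hz]; exact_mod_cast one_le_div_rad (hkpos k hk1)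
      have hz0 : 0 < z := by (clear * - hB hk2; linarith)
      have e1 : z ^ (1 / 2 - 1 / 100 : ℝ) =
          z ^ (-(1 / 1000 : ℝ)) * z ^ (-(9 / 1000 : ℝ)) * z ^ (1 / 2 : ℝ) := by
        rw [← Real.rpow_add hz0, ← Real.rpow_add hz0]; norm_num
      have e2 : z ^ (-(1 / 1000 : ℝ)) ≤ B ^ (-(1 / 1000 : ℝ)) :=
        Real.rpow_le_rpow_of_nonpos (by (clear * - hB; linarith)) hk2 (by norm_num)
      have e3 : z ^ (-(9 / 1000 : ℝ)) ≤ 1 :=
        Real.rpow_le_one_of_one_le_of_nonpos hz1 (by norm_num)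
      rw [e1]
      calc z ^ (-(1 / 1000 : ℝ)) * z ^ (-(9 / 1000 : ℝ)) * z ^ (1 / 2 : ℝ)
          ≤ B ^ (-(1 / 1000 : ℝ)) * 1 * z ^ (1 / 2 : ℝ) := by (clear * - e2 e3 hz1 hB; gcongr)
        _ = B ^ (-(1 / 1000 : ℝ)) * z ^ (1 / 2 : ℝ) := by rw [mul_one]
    refine (Finset.sum_le_sum h1).trans ?_
    rw [← Finset.mul_sum]
    have hmaps : ∀ k ∈ T, k / rad k ∈ Icc 1 M := by
      intro k hk
      obtain ⟨hk1, _, hk3⟩ := hTmem k hk
      rw [Finset.mem_Icc]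
      exact ⟨one_le_div_rad (hkpos k hk1), Nat.le_floor hk3.le⟩
    rw [← Finset.sum_fiberwise_of_maps_to hmaps]
    have h2 : ∀ z ∈ Icc 1 M, ∑ k ∈ T with k / rad k = z, ((k / rad k : ℕ) : ℝ) ^ (1 / 2 : ℝ) ≤
        y * ((z : ℝ) ^ (-(1 / 2 : ℝ)) / (rad z : ℝ)) + (x : ℝ) ^ (1 / 10 : ℝ) := by
      intro z hz
      rw [Finset.mem_Icc] at hz
      have hz0 : (0 : ℝ) < z := by exact_mod_cast hz.1
      have hr0 : (0 : ℝ) < (rad z : ℝ) := by exact_mod_cast rad_pos' z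
      have h3 : ∀ k ∈ T.filter (fun k => k / rad k = z), ((k / rad k : ℕ) : ℝ) ^ (1 / 2 : ℝ) =
          (z : ℝ) ^ (1 / 2 : ℝ) := by
        intro k hk
        rw [(Finset.mem_filter.mp hk).2]
      rw [Finset.sum_congr rfl h3, Finset.sum_const, nsmul_eq_mul]
      have h4 : ((T.filter (fun k => k / rad k = z)).card : ℝ) ≤ (y : ℝ) / ((z * rad z : ℕ) : ℝ) + 1 := by
        refine le_trans ?_ (Pool.Agent.M17.Helper14.KSP.card_multiples_le x y (z * rad z)
          (Nat.mul_pos hz.1 (rad_pos' z)))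
        have : T.filter (fun k => k / rad k = z) ⊆
            (Finset.Ico x (x + y)).filter (fun k => z * rad z ∣ k) := by
          intro k hk
          rw [Finset.mem_filter] at hk
          obtain ⟨hk1, _, _⟩ := hTmem k hk.1
          rw [Finset.mem_filter]
          exact ⟨hk1, mul_rad_dvd (hkpos k hk1) hk.2⟩
        exact_mod_cast Finset.card_le_card this
      have h5 : (z : ℝ) ^ (1 / 2 : ℝ) ≤ (x : ℝ) ^ (1 / 10 : ℝ) := by
        have h6 : (z : ℝ) ≤ (x : ℝ) ^ (1 / 5 : ℝ) := le_trans (by exact_mod_cast hz.2) hMle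
        calc (z : ℝ) ^ (1 / 2 : ℝ) ≤ ((x : ℝ) ^ (1 / 5 : ℝ)) ^ (1 / 2 : ℝ) :=
              Real.rpow_le_rpow hz0.le h6 (by norm_num)
          _ = (x : ℝ) ^ (1 / 10 : ℝ) := by rw [← Real.rpow_mul hx0.le]; norm_num
      have h7 : (z : ℝ) ^ (1 / 2 : ℝ) = z * (z : ℝ) ^ (-(1 / 2 : ℝ)) := by
        nth_rewrite 2 [← Real.rpow_one (z : ℝ)]
        rw [← Real.rpow_add hz0]; norm_num
      calc ((T.filter (fun k => k / rad k = z)).card : ℝ) * (z : ℝ) ^ (1 / 2 : ℝ)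
          ≤ ((y : ℝ) / ((z * rad z : ℕ) : ℝ) + 1) * (z : ℝ) ^ (1 / 2 : ℝ) :=
            mul_le_mul_of_nonneg_right h4 (by positivity)
        _ = (y : ℝ) / ((z * rad z : ℕ) : ℝ) * (z : ℝ) ^ (1 / 2 : ℝ) + (z : ℝ) ^ (1 / 2 : ℝ) := by
            ring
        _ = y * ((z : ℝ) ^ (-(1 / 2 : ℝ)) / (rad z : ℝ)) + (z : ℝ) ^ (1 / 2 : ℝ) := by
            congr 1
            rw [h7]
            push_cast
            (clear * - hz0 hr0 hy0; field_simp)
        _ ≤ y * ((z : ℝ) ^ (-(1 / 2 : ℝ)) / (rad z : ℝ)) + (x : ℝ) ^ (1 / 10 : ℝ) := by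
            (clear * - h5; linarith)
    have h3 : ∑ z ∈ Icc 1 M, (y * ((z : ℝ) ^ (-(1 / 2 : ℝ)) / (rad z : ℝ)) +
        (x : ℝ) ^ (1 / 10 : ℝ)) ≤ (C2 + 1) * y := by
      rw [Finset.sum_add_distrib, ← Finset.mul_sum, Finset.sum_const, Nat.card_Icc, nsmul_eq_mul,
        Nat.add_sub_cancel]
      have h4 := mul_le_mul_of_nonneg_left (hrad M) hy0.le
      have h5 : (M : ℝ) * (x : ℝ) ^ (1 / 10 : ℝ) ≤ y := by
        calc (M : ℝ) * (x : ℝ) ^ (1 / 10 : ℝ) ≤ (x : ℝ) ^ (1 / 5 : ℝ) * (x : ℝ) ^ (1 / 10 : ℝ) :=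
              mul_le_mul_of_nonneg_right hMle (by positivity)
          _ = (x : ℝ) ^ (3 / 10 : ℝ) := by rw [← Real.rpow_add hx0]; norm_num
          _ ≤ (x : ℝ) ^ (1 / 2 - 1 / 1000 : ℝ) :=
              Real.rpow_le_rpow_of_exponent_le hx (by norm_num)
          _ ≤ y := hyl
      (clear * - h4 h5; linarith)
    calc B ^ (-(1 / 1000 : ℝ)) * ∑ z ∈ Icc 1 M, ∑ k ∈ T with k / rad k = z,
          ((k / rad k : ℕ) : ℝ) ^ (1 / 2 : ℝ)
        ≤ B ^ (-(1 / 1000 : ℝ)) * ((C2 + 1) * y) :=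
          mul_le_mul_of_nonneg_left ((Finset.sum_le_sum h2).trans h3) hBη.le
      _ = (C2 + 1) * y * B ^ (-(1 / 1000 : ℝ)) := by ring
  calc _ ≤ 2 * C1 * y * B ^ (-(1 / 1000 : ℝ)) + (C2 + 1) * y * B ^ (-(1 / 1000 : ℝ)) :=
        add_le_add hA hBp
    _ = (2 * C1 + (C2 + 1)) * y * B ^ (-(1 / 1000 : ℝ)) := by ring

/-- `PowC 0.01 η` for some `η > 0`. -/
theorem powC : ∃ η : ℝ, 0 < η ∧ η ≤ 1 / 100 ∧ PowC (1 / 100) η :=
  ⟨1 / 1000, by norm_num, by norm_num, powC_explicit⟩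

end Pool.Agent.M17.Helper48.KS
end

/- Helper53.KN.Helper26.KS.EvCR -/
section
/-!
# Project KS: the events `crude` and `rpart` (EvCrude, EvRPart) from the first moments
-/

set_option autoImplicit false
open scoped Classical

namespace Pool.Agent.M17.Helper26.KS

open Pool.Agent.M17.Helper16.KS Pool.Agent.M17.Helper62.KS Pool.Agent.M17.Helper33.KS

/-- upper tail with a power saving -/
theorem tail_pow (ρ : ℝ) (hρ : 0 < ρ) : ∃ K0 : ℕ, ∀ k0 : ℕ, K0 ≤ k0 → ∀ k : ℕ,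
    (k0 : ℝ) / 2 ≤ k → ∀ P : ℕ → ℝ, (∀ i, 0 ≤ P i ∧ P i ≤ 1) →
    ∀ {τ : Type} (T : Finset τ) (w : τ → ℝ) (Su : τ → Finset ℕ), (∀ t ∈ T, 0 ≤ w t) →
    (∀ t ∈ T, ((Su t).card : ℝ) ≤ 5 * (k + 2) / k0) → ∀ L l : ℝ, 0 < l →
    L ≤ l * (2 : ℝ) ^ (-(ρ * k)) →
    (∀ A : Finset ℕ,
      ∑ t ∈ T.filter (fun t => A ⊆ Su t), w t * ∏ i ∈ Su t \ A, P i ≤ L) →
    pr P {R | l ≤ YY T w Su R} ≤ (2 : ℝ) ^ (-(4 * (k : ℝ))) := by
  obtain ⟨M, hM⟩ := exists_nat_ge (8 / ρ)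
  obtain ⟨K1, hK1⟩ := exists_nat_ge (20 * (M : ℝ) / ρ)
  refine ⟨K1 + 4, ?_⟩
  intro k0 hk0 k hk P hP τ T w Su hw hS L l hl hLl hL
  have hk0r : ((K1 : ℝ) + 4) ≤ k0 := by exact_mod_cast hk0
  have hK1n : (0 : ℝ) ≤ K1 := Nat.cast_nonneg _
  have hk0p : (0 : ℝ) < k0 := by (clear * - hk0r; linarith)
  have hk2 : (2 : ℝ) ≤ k := by (clear * - hk hk0r; linarith)
  have hMn : (0 : ℝ) ≤ M := Nat.cast_nonneg _
  have hρM : 20 * (M : ℝ) ≤ ρ * k0 := by
    have h1 : 20 * (M : ℝ) / ρ ≤ k0 := by (clear * - hK1 hk0r; linarith)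
    rw [div_le_iff₀ hρ] at h1
    linarith
  have hM8 : 8 ≤ ρ * M := by
    rw [div_le_iff₀ hρ] at hM
    (clear * - hM; linarith)
  set D : ℕ := ⌊5 * ((k : ℝ) + 2) / k0⌋₊ with hD
  have hDle : (D : ℝ) ≤ 5 * ((k : ℝ) + 2) / k0 := Nat.floor_le (by positivity)
  have hS' : ∀ t ∈ T, (Su t).card ≤ D := fun t ht => Nat.le_floor (hS t ht)
  have h1 := pr_upper P hP T w Su hw D hS' L (fun A => by
    have := hL A
    convert this) M l hl
  refine h1.trans ?_
  have hDM : (D : ℝ) * M ≤ ρ * k / 2 := by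
    have h2 : (D : ℝ) * M ≤ 5 * ((k : ℝ) + 2) / k0 * M := mul_le_mul_of_nonneg_right hDle hMn
    refine h2.trans ?_
    rw [div_mul_eq_mul_div, div_le_iff₀ hk0p]
    have h3 : 5 * ((k : ℝ) + 2) * M ≤ 10 * k * M := by
      apply mul_le_mul_of_nonneg_right _ hMn
      (clear * - hk hk0r; linarith)
    have h4 : (20 * (M : ℝ)) * k ≤ (ρ * k0) * k := mul_le_mul_of_nonneg_right hρM (by (clear * - hk hk0r; linarith))
    (clear * - h3 h4; nlinarith)
  have hL0 : 0 ≤ L := le_trans (Finset.sum_nonneg fun t ht =>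
    mul_nonneg (hw t (Finset.mem_filter.mp ht).1) (Finset.prod_nonneg fun i _ => (hP i).1)) (hL ∅)
  have h5 : (2 : ℝ) ^ (D * M) * L / l ≤ (2 : ℝ) ^ (-(ρ * k / 2)) := by
    rw [div_le_iff₀ hl]
    have h6 : (2 : ℝ) ^ (D * M) ≤ (2 : ℝ) ^ (ρ * k / 2) := by
      rw [← Real.rpow_natCast]
      apply Real.rpow_le_rpow_of_exponent_le (by norm_num)
      push_cast
      exact hDM
    calc (2 : ℝ) ^ (D * M) * L ≤ (2 : ℝ) ^ (ρ * k / 2) * (l * (2 : ℝ) ^ (-(ρ * k))) :=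
          mul_le_mul h6 hLl hL0 (by positivity)
      _ = ((2 : ℝ) ^ (ρ * k / 2) * (2 : ℝ) ^ (-(ρ * k))) * l := by ring
      _ = (2 : ℝ) ^ (-(ρ * k / 2)) * l := by
          rw [← Real.rpow_add (by norm_num)]
          congr 2
          ring
  have h7 : ((2 : ℝ) ^ (D * M) * L / l) ^ M ≤ ((2 : ℝ) ^ (-(ρ * k / 2))) ^ M :=
    pow_le_pow_left₀ (by positivity) h5 M
  refine h7.trans ?_
  rw [← Real.rpow_natCast, ← Real.rpow_mul (by norm_num)]
  apply Real.rpow_le_rpow_of_exponent_le (by norm_num)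
  (clear * - hM8; nlinarith)

/-- union bound over the windows -/
theorem union_win (k : ℕ) (hk : 2 ≤ k) (P : ℕ → ℝ) (cond : ℕ → ℕ → Prop)
    (hc : ∀ x h, cond x h → x < 2 ^ (k + 1) ∧ h < 2 ^ (k + 1)) (F : ℕ → ℕ → Set (Set ℕ))
    (h : ∀ x h, cond x h → pr P (F x h) ≤ (2 : ℝ) ^ (-(4 * (k : ℝ)))) :
    pr P {R | ∃ x h, cond x h ∧ R ∈ F x h} ≤ (2 : ℝ) ^ (-(1 * (k : ℝ))) := by
  set s : Finset (ℕ × ℕ) := ((Finset.range (2 ^ (k + 1))) ×ˢ (Finset.range (2 ^ (k + 1)))).filter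
    (fun y => cond y.1 y.2) with hs
  have h1 : {R : Set ℕ | ∃ x h, cond x h ∧ R ∈ F x h} ⊆ ⋃ y ∈ s, F y.1 y.2 := by
    rintro R ⟨x, h', hxh, hR⟩
    obtain ⟨hx1, hx2⟩ := hc x h' hxh
    rw [Set.mem_iUnion₂]
    refine ⟨(x, h'), ?_, hR⟩
    rw [hs, Finset.mem_filter, Finset.mem_product, Finset.mem_range, Finset.mem_range]
    exact ⟨⟨hx1, hx2⟩, hxh⟩
  have h2 := pr_biUnion_le_card P s (fun y => F y.1 y.2) ((2 : ℝ) ^ (-(4 * (k : ℝ))))
    (fun y hy => h y.1 y.2 (Finset.mem_filter.mp hy).2)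
  refine (pr_mono P h1).trans (h2.trans ?_)
  have h3 : (s.card : ℝ) ≤ (2 : ℝ) ^ (2 * (k : ℝ) + 2) := by
    have h4 : s.card ≤ 2 ^ (k + 1) * 2 ^ (k + 1) := by
      refine (Finset.card_filter_le _ _).trans ?_
      rw [Finset.card_product, Finset.card_range]
    have h5 : (s.card : ℝ) ≤ ((2 ^ (k + 1) * 2 ^ (k + 1) : ℕ) : ℝ) := by exact_mod_cast h4
    refine h5.trans (le_of_eq ?_)
    push_cast
    rw [← pow_add, ← Real.rpow_natCast]
    congr 1
    push_cast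
    ring
  have hk1 : (2 : ℝ) ≤ k := by exact_mod_cast hk
  calc (s.card : ℝ) * (2 : ℝ) ^ (-(4 * (k : ℝ)))
      ≤ (2 : ℝ) ^ (2 * (k : ℝ) + 2) * (2 : ℝ) ^ (-(4 * (k : ℝ))) :=
        mul_le_mul_of_nonneg_right h3 (by positivity)
    _ = (2 : ℝ) ^ (2 - 2 * (k : ℝ)) := by
        rw [← Real.rpow_add (by norm_num)]
        congr 1
        ring
    _ ≤ _ := by
        apply Real.rpow_le_rpow_of_exponent_le (by norm_num)
        (clear * - hk1; linarith)

theorem card_le_omega {k0 k x h n : ℕ} (hk0 : 1 ≤ k0) (hn0 : n ≠ 0) (hn : Sys.rough k0 n)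
    (hx : x < 2 ^ (k + 1)) (hh : h ≤ x) (hnx : n ∈ Finset.Ico x (x + h)) {D : Finset ℕ}
    (hD : D ⊆ n.primeFactors) : ((D.card : ℕ) : ℝ) ≤ 5 * (k + 2) / k0 := by
  have h1 : n < 2 ^ (k + 1 + 1) := by
    have h2 := (Finset.mem_Ico.mp hnx).2
    have h3 : 2 ^ (k + 1 + 1) = 2 ^ (k + 1) + 2 ^ (k + 1) := by ring
    omega
  have h2 := Sys.rough_omega_le hk0 hn0 hn h1
  have h3 : D.card ≤ n.primeFactorsList.length := by
    refine (Finset.card_le_card hD).trans ?_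
    exact List.toFinset_card_le _
  have h4 : ((D.card : ℕ) : ℝ) ≤ (n.primeFactorsList.length : ℝ) := by exact_mod_cast h3
  refine h4.trans (h2.trans (le_of_eq ?_))
  push_cast
  ring

theorem prod_PP_le (S : Sys) (k0 : ℕ) (A D : Finset ℕ) :
    ∏ i ∈ D \ A, S.PP k0 i ≤ S.pc A D := by
  unfold Sys.pc
  exact Finset.prod_le_prod (fun i _ => (S.PP_mem k0 i).1) fun i _ => S.PP_le k0 i

/-- EvCrude from Crude1 -/
theorem evCrude (hC : Crude1) : EvCrude := by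
  intro S
  obtain ⟨K1, hK1⟩ := hC S
  obtain ⟨K2, hK2⟩ := tail_pow (S.tau / 2) (by have := S.tau_pos; (clear * - this; linarith))
  refine ⟨1, one_pos, K1 + K2 + 4, ?_⟩
  intro k0 hk0 k hk
  have hk0r : (4 : ℝ) ≤ k0 := by exact_mod_cast (by omega : 4 ≤ k0)
  have hk2' : (2 : ℝ) ≤ k := by (clear * - hk hk0r; linarith)
  have hk2 : 2 ≤ k := by exact_mod_cast hk2'
  set cond : ℕ → ℕ → Prop := fun x h => 2 ^ k ≤ x ∧ x < 2 ^ (k + 1) ∧
    (2 : ℝ) ^ ((1/2 - 3 * S.d) * k) ≤ h ∧ h ≤ x with hcond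
  set F : ℕ → ℕ → Set (Set ℕ) := fun x h => {R | h * (2 : ℝ) ^ ((S.s - 1 + 7 * S.tau) * k) ≤
    ∑ n ∈ Finset.Ico x (x + h), CM (S.Fh k0 R) n} with hF
  refine (pr_mono _ ?_).trans (union_win k hk2 (S.PP k0) cond ?_ F ?_)
  · rintro R ⟨x, h, h1, h2, h3, h4, h5⟩
    exact ⟨x, h, ⟨h1, h2, h3, h4⟩, h5.le⟩
  · rintro x h ⟨h1, h2, h3, h4⟩
    exact ⟨h2, lt_of_le_of_lt h4 h2⟩
  · rintro x h ⟨h1, h2, h3, h4⟩
    have hh0 : (0 : ℝ) < h := lt_of_lt_of_le (by positivity) h3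
    set T : Finset (Σ _ : ℕ, Finset ℕ) :=
      ((Finset.Ico x (x + h)).filter (Sys.rough k0)).sigma (fun n => n.primeFactors.powerset)
      with hT
    have hx0 : 0 < x := lt_of_lt_of_le (by positivity) h1
    have key := hK2 k0 (by omega) k hk (S.PP k0) (S.PP_mem k0) T
      (fun t => S.Fe t.2 t.1) (fun t => t.2) (fun t _ => S.Fe_nonneg _ _) ?_
      (h * (2 : ℝ) ^ ((S.s - 1 + 6.5 * S.tau) * k)) (h * (2 : ℝ) ^ ((S.s - 1 + 7 * S.tau) * k))
      (by (clear * - hh0; positivity)) ?_ ?_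
    · refine (pr_mono _ ?_).trans key
      intro R hR
      have hR' : h * (2 : ℝ) ^ ((S.s - 1 + 7 * S.tau) * k) ≤
        ∑ n ∈ Finset.Ico x (x + h), CM (S.Fh k0 R) n := hR
      refine hR'.trans ?_
      unfold YY
      rw [hT, Finset.sum_sigma]
      have h6 : ∑ n ∈ Finset.Ico x (x + h), CM (S.Fh k0 R) n =
          ∑ n ∈ (Finset.Ico x (x + h)).filter (Sys.rough k0), CM (S.Fh k0 R) n := by
        rw [Finset.sum_filter]
        refine Finset.sum_congr rfl fun n hn => ?_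
        split_ifs with hr
        · rfl
        · refine S.CM_Fh_eq_zero k0 R ?_ hr
          have := (Finset.mem_Ico.mp hn).1
          omega
      rw [h6]
      refine Finset.sum_le_sum fun n hn => ?_
      refine (S.CM_Fh_le k0 R (Finset.mem_filter.mp hn).2).trans (le_of_eq ?_)
      rw [Finset.sum_filter]
      refine Finset.sum_congr rfl fun D _ => ?_
      show (if ∀ p ∈ D, p ∈ R then S.Fe D n else 0) = S.Fe D n * ind R D
      unfold ind
      by_cases hD : ∀ p ∈ D, p ∈ R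
      · have hD' : (D : Set ℕ) ⊆ R := fun p hp => hD p (Finset.mem_coe.mp hp)
        rw [if_pos hD, if_pos hD', mul_one]
      · have hD' : ¬ (D : Set ℕ) ⊆ R := fun h => hD fun p hp => h (Finset.mem_coe.mpr hp)
        rw [if_neg hD, if_neg hD', mul_zero]
    · rintro ⟨n, D⟩ ht
      rw [hT, Finset.mem_sigma, Finset.mem_filter, Finset.mem_powerset] at ht
      have hn0 : n ≠ 0 := by
        have h10 : x ≤ n := (Finset.mem_Ico.mp ht.1.1).1
        omega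
      exact card_le_omega (by omega) hn0 ht.1.2 h2 h4 ht.1.1 ht.2
    · rw [mul_assoc, ← Real.rpow_add (by norm_num)]
      apply mul_le_mul_of_nonneg_left _ hh0.le
      apply Real.rpow_le_rpow_of_exponent_le (by norm_num)
      apply le_of_eq
      ring
    · intro A
      refine le_trans ?_ (hK1 k0 (by omega) k x h hk h1 h2 h3 h4 A)
      unfold Sys.CP
      rw [Finset.sum_filter, hT, Finset.sum_sigma]
      refine Finset.sum_le_sum fun n _ => ?_
      rw [← Finset.sum_filter]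
      refine Finset.sum_le_sum_of_subset_of_nonneg ?_ ?_ |>.trans
        (Finset.sum_le_sum (s := n.primeFactors.powerset.filter (fun D => A ⊆ D))
          fun D _ => ?_)
      · exact fun D hD => hD
      · intro D _ _
        exact mul_nonneg (S.Fe_nonneg _ _) (Finset.prod_nonneg fun i _ => (S.PP_mem k0 i).1)
      · exact mul_le_mul_of_nonneg_left (prod_PP_le S k0 A D) (S.Fe_nonneg _ _)

/-- EvRPart from RPart1 -/
theorem evRPart (hC : RPart1) : EvRPart := by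
  intro S
  obtain ⟨K1, hK1⟩ := hC S
  obtain ⟨K2, hK2⟩ := tail_pow (S.tau / 20) (by have := S.tau_pos; (clear * - this; linarith))
  refine ⟨1, one_pos, K1 + K2 + 4, ?_⟩
  intro k0 hk0 k hk
  have hk0r : (4 : ℝ) ≤ k0 := by exact_mod_cast (by omega : 4 ≤ k0)
  have hk2' : (2 : ℝ) ≤ k := by (clear * - hk hk0r; linarith)
  have hk2 : 2 ≤ k := by exact_mod_cast hk2'
  set cond : ℕ → ℕ → Prop := fun x h => 2 ^ k ≤ x ∧ x < 2 ^ (k + 1) ∧
    (2 : ℝ) ^ ((1/2 - 3 * S.d) * k) ≤ h ∧ h ≤ x with hcond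
  set F : ℕ → ℕ → Set (Set ℕ) := fun x h => {R | h * (2 : ℝ) ^ ((S.s - 1 - S.tau / 20) * k) ≤
    ∑ n ∈ (Finset.Ico x (x + h)).filter (Sys.rough k0),
      ∑ e ∈ n.divisors.filter (fun e : ℕ => (2 : ℝ) ^ ((k : ℝ) / 8) ≤ (e : ℝ) ∧ inR R e),
        S.base e * ((n / e : ℕ) : ℝ) ^ (S.s - 1)} with hF
  refine (pr_mono _ ?_).trans (union_win k hk2 (S.PP k0) cond ?_ F ?_)
  · rintro R ⟨x, h, h1, h2, h3, h4, h5⟩
    exact ⟨x, h, ⟨h1, h2, h3, h4⟩, h5.le⟩
  · rintro x h ⟨h1, h2, h3, h4⟩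
    exact ⟨h2, lt_of_le_of_lt h4 h2⟩
  · rintro x h ⟨h1, h2, h3, h4⟩
    have hh0 : (0 : ℝ) < h := lt_of_lt_of_le (by positivity) h3
    set T : Finset (Σ _ : ℕ, ℕ) :=
      ((Finset.Ico x (x + h)).filter (Sys.rough k0)).sigma
        (fun n => n.divisors.filter (fun e : ℕ => (2 : ℝ) ^ ((k : ℝ) / 8) ≤ (e : ℝ))) with hT
    have hx0 : 0 < x := lt_of_lt_of_le (by positivity) h1
    have hw0 : ∀ t : (Σ _ : ℕ, ℕ), 0 ≤ S.base t.2 * ((t.1 / t.2 : ℕ) : ℝ) ^ (S.s - 1) := fun t =>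
      mul_nonneg (S.base_nonneg _) (Real.rpow_nonneg (Nat.cast_nonneg _) _)
    have key := hK2 k0 (by omega) k hk (S.PP k0) (S.PP_mem k0) T
      (fun t => S.base t.2 * ((t.1 / t.2 : ℕ) : ℝ) ^ (S.s - 1)) (fun t => t.2.primeFactors)
      (fun t _ => hw0 t) ?_
      (h * (2 : ℝ) ^ ((S.s - 1 - S.tau / 10) * k)) (h * (2 : ℝ) ^ ((S.s - 1 - S.tau / 20) * k))
      (by (clear * - hh0; positivity)) ?_ ?_
    · refine (pr_mono _ ?_).trans key
      intro R hR
      have hR' : h * (2 : ℝ) ^ ((S.s - 1 - S.tau / 20) * k) ≤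
        ∑ n ∈ (Finset.Ico x (x + h)).filter (Sys.rough k0),
      ∑ e ∈ n.divisors.filter (fun e : ℕ => (2 : ℝ) ^ ((k : ℝ) / 8) ≤ (e : ℝ) ∧ inR R e),
        S.base e * ((n / e : ℕ) : ℝ) ^ (S.s - 1) := hR
      refine hR'.trans ?_
      unfold YY
      rw [hT, Finset.sum_sigma]
      refine Finset.sum_le_sum fun n hn => ?_
      rw [← Finset.filter_filter, Finset.sum_filter]
      refine Finset.sum_le_sum fun e he => ?_
      have he0 : e ≠ 0 := by
        have := Nat.dvd_of_mem_divisors (Finset.mem_filter.mp he).1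
        rintro rfl
        have h8 := Nat.eq_zero_of_zero_dvd this
        have := (Finset.mem_Ico.mp (Finset.mem_filter.mp hn).1).1
        omega
      split_ifs with hR
      · have h9 : ind R e.primeFactors = 1 := by
          unfold ind
          rw [if_pos]
          intro p hp
          have hp' := Nat.mem_primeFactors.mp (Finset.mem_coe.mp hp)
          exact hR p hp'.1 hp'.2.1
        simp only [h9, mul_one]
        exact le_rfl
      · exact mul_nonneg (hw0 ⟨n, e⟩) (ind_nonneg _ _)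
    · rintro ⟨n, e⟩ ht
      rw [hT, Finset.mem_sigma, Finset.mem_filter, Finset.mem_filter] at ht
      have hn0 : n ≠ 0 := by
        have h10 : x ≤ n := (Finset.mem_Ico.mp ht.1.1).1
        omega
      exact card_le_omega (by omega) hn0 ht.1.2 h2 h4 ht.1.1
        (Nat.primeFactors_mono (Nat.dvd_of_mem_divisors ht.2.1) hn0)
    · rw [mul_assoc, ← Real.rpow_add (by norm_num)]
      apply mul_le_mul_of_nonneg_left _ hh0.le
      apply Real.rpow_le_rpow_of_exponent_le (by norm_num)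
      apply le_of_eq
      ring
    · intro A
      refine le_trans ?_ (hK1 k0 (by omega) k x h hk h1 h2 h3 h4 A)
      rw [Finset.sum_filter, hT, Finset.sum_sigma]
      refine Finset.sum_le_sum fun n _ => ?_
      rw [← Finset.sum_filter, Finset.filter_filter]
      refine Finset.sum_le_sum fun e _ => ?_
      exact mul_le_mul_of_nonneg_left (prod_PP_le S k0 A _) (hw0 ⟨n, e⟩)

end Pool.Agent.M17.Helper26.KS
end

/- Helper53.KN.Helper61.KS.EvHeavy -/
section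
/-!
# Project KS: heavy loads (`EvHeavy1`, `EvHeavy2` from `Load1`, `Load2`)
-/

set_option autoImplicit false
open scoped Classical

namespace Pool.Agent.M17.Helper61.KS

open Pool.Agent.M17.Helper16.KS Pool.Agent.M17.Helper16.KS.Sys Pool.Agent.M17.Helper62.KS
  Pool.Agent.M17.Helper33.KS

/-- index set of the expanded loads: `(n, k', j', x, D)` -/
abbrev HI : Type := Σ _ : ℕ, Σ _ : ℕ, Σ _ : ℕ, Σ _ : ℕ × ℕ, Finset ℕ

variable (S : Sys)

noncomputable def hT (k0 k j : ℕ) (Q : ℕ × ℕ → ℕ → ℕ × ℕ → Prop) : Finset HI :=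
  ((cell S.d k j).filter (rough k0)).sigma fun n => (S.hvy k0 k).sigma fun k' =>
    (S.badc k').sigma fun j' =>
      ((S.Cand k' j').filter (fun x => x.1 ∣ n ∧ Q (k', j') n x)).sigma fun x =>
        (n / x.1).primeFactors.powerset

noncomputable def hW (t : HI) : ℝ :=
  S.wd t.2.1 t.2.2.2.1.2 * S.Fe t.2.2.2.2 (t.1 / t.2.2.2.1.1)

def hSup (t : HI) : Finset ℕ := t.2.2.2.1.2.primeFactors ∪ t.2.2.2.2

theorem hW_nonneg (t : HI) : 0 ≤ hW S t := mul_nonneg (S.wd_nonneg _ _) (S.Fe_nonneg _ _)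

theorem rough_of_dvd {k0 m n : ℕ} (h : rough k0 n) (hm : m ∣ n) : rough k0 m :=
  fun p hp hpm => h p hp (hpm.trans hm)

theorem hvy_facts {k0 k k' : ℕ} (h : k' ∈ S.hvy k0 k) : k0 ≤ k' := by
  unfold Sys.hvy at h
  rw [Finset.mem_Ico] at h
  exact (le_max_left _ _).trans h.1

theorem cand_big {k0 k' j' : ℕ} (hK : S.K ≤ k') (hk : k0 ≤ k') (hj : j' ∈ S.badc k')
    {x : ℕ × ℕ} (hx : x ∈ S.Cand k' j') : (2 : ℝ) ^ ((k0 : ℝ) / 5) ≤ x.1 := by
  obtain ⟨-, -, -, -, -, -, -, h1, -⟩ := S.cand_facts hK hj hx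
  refine le_trans ?_ h1
  apply Real.rpow_le_rpow_of_exponent_le (by norm_num)
  have h2 : (k0 : ℝ) ≤ k' := by exact_mod_cast hk
  have h3 : (0 : ℝ) ≤ k' := Nat.cast_nonneg _
  (clear * - h2; linarith)

/-- the load is at most the random sum -/
theorem HP_le_YY {k0 : ℕ} (hK : S.K ≤ k0) (R : Set ℕ) (k j : ℕ)
    (Q : ℕ × ℕ → ℕ → ℕ × ℕ → Prop) :
    S.HP k0 R k j Q ≤ YY (hT S k0 k j Q) (hW S) hSup R := by
  unfold Sys.HP YY
  simp only [hT, Finset.sum_sigma, hW, hSup]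
  rw [Finset.sum_filter]
  refine Finset.sum_le_sum fun n hn => ?_
  have hn0 : n ≠ 0 := by
    have := cell_ge hn
    have h2 : 0 < 2 ^ k := by positivity
    omega
  by_cases hr : rough k0 n
  · rw [if_pos hr]
    refine Finset.sum_le_sum fun k' hk' => Finset.sum_le_sum fun j' hj' => ?_
    have hsub : (S.act R k' j').filter (fun x => x.1 ∣ n ∧ Q (k', j') n x) ⊆
        (S.Cand k' j').filter (fun x => x.1 ∣ n ∧ Q (k', j') n x) := by
      intro x hx
      rw [Finset.mem_filter] at hx ⊢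
      exact ⟨((S.mem_act).1 hx.1).1, hx.2⟩
    refine le_trans ?_ (Finset.sum_le_sum_of_subset_of_nonneg hsub fun x _ _ =>
      Finset.sum_nonneg fun D _ => mul_nonneg (mul_nonneg (S.wd_nonneg _ _) (S.Fe_nonneg _ _))
        (ind_nonneg _ _))
    refine Finset.sum_le_sum fun x hx => ?_
    rw [Finset.mem_filter] at hx
    have hx1 := (S.mem_act).1 hx.1
    have hxr : rough k0 (n / x.1) := rough_of_dvd hr (Nat.div_dvd_of_dvd hx.2.1)
    have hx2 : x.2 ≠ 0 := by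
      obtain ⟨-, -, -, h4, -⟩ := S.cand_facts (hK.trans (hvy_facts S hk')) hj' hx1.1
      omega
    calc S.wd k' x.2 * CM (S.Fh k0 R) (n / x.1) ≤
        S.wd k' x.2 * ∑ D ∈ (n / x.1).primeFactors.powerset.filter (fun D => ∀ p ∈ D, p ∈ R),
          S.Fe D (n / x.1) := mul_le_mul_of_nonneg_left (S.CM_Fh_le k0 R hxr) (S.wd_nonneg _ _)
      _ = ∑ D ∈ (n / x.1).primeFactors.powerset, (if ∀ p ∈ D, p ∈ R then
            S.wd k' x.2 * S.Fe D (n / x.1) else 0) := by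
          rw [Finset.mul_sum, Finset.sum_filter]
      _ ≤ _ := by
          refine Finset.sum_le_sum fun D _ => ?_
          split_ifs with hD
          · have h1 : ind R (x.2.primeFactors ∪ D) = 1 := by
              unfold ind
              rw [if_pos]
              intro p hp
              rw [Finset.mem_coe, Finset.mem_union] at hp
              rcases hp with hp | hp
              · have := Nat.mem_primeFactors.mp hp
                exact hx1.2 p this.1 this.2.1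
              · exact hD p hp
            rw [h1, mul_one]
          · exact mul_nonneg (mul_nonneg (S.wd_nonneg _ _) (S.Fe_nonneg _ _)) (ind_nonneg _ _)
  · rw [if_neg hr]
    refine le_of_eq ?_
    refine Finset.sum_eq_zero fun k' hk' => Finset.sum_eq_zero fun j' hj' =>
      Finset.sum_eq_zero fun x hx => ?_
    rw [Finset.mem_filter] at hx
    have hx1 := (S.mem_act).1 hx.1
    have hkk := hvy_facts S hk'
    have hxp := (S.cand_facts (hK.trans hkk) hj' hx1.1).1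
    have hbig := cand_big S (hK.trans hkk) hkk hj' hx1.1
    obtain ⟨m, hm⟩ := hx.2.1
    have hm0 : m ≠ 0 := by
      rintro rfl
      exact hn0 (by rw [hm, mul_zero])
    have hdiv : n / x.1 = m := by rw [hm, Nat.mul_div_cancel_left _ hxp.pos]
    have hnr : ¬ rough k0 m := by
      intro h
      apply hr
      intro p hp hpn
      rw [hm, hp.dvd_mul] at hpn
      rcases hpn with h1 | h1
      · rw [(Nat.prime_dvd_prime_iff_eq hp hxp).1 h1]
        exact hbig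
      · exact h p hp h1
    rw [hdiv, S.CM_Fh_eq_zero k0 R hm0 hnr, mul_zero]

/-- the conditional expectations -/
theorem cond_le_LP (k0 k j : ℕ) (Q : ℕ × ℕ → ℕ → ℕ × ℕ → Prop) (A : Finset ℕ) :
    ∑ t ∈ (hT S k0 k j Q).filter (fun t => A ⊆ hSup t), hW S t * ∏ i ∈ hSup t \ A, S.PP k0 i ≤
      S.LP k0 k j Q A := by
  rw [Finset.sum_filter]
  unfold Sys.LP
  simp only [hT, Finset.sum_sigma, hW, hSup]
  refine Finset.sum_le_sum fun n hn => Finset.sum_le_sum fun k' hk' =>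
    Finset.sum_le_sum fun j' hj' => Finset.sum_le_sum fun x hx => ?_
  rw [Finset.sum_filter]
  refine Finset.sum_le_sum fun D _ => ?_
  split_ifs with h
  · refine mul_le_mul_of_nonneg_left ?_ (mul_nonneg (S.wd_nonneg _ _) (S.Fe_nonneg _ _))
    unfold Sys.pc
    exact Finset.prod_le_prod (fun i _ => (S.PP_mem k0 i).1) fun i _ => S.PP_le k0 i
  · exact le_rfl

theorem u_big (i : Fin 3) : (1 : ℝ) / 10 ≤ S.u i + S.c := by
  have := S.u_ge i
  have := S.c_pos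
  linarith

/-- size of the supports -/
theorem hSup_card {k0 k j : ℕ} (hK : S.K ≤ k0) (hk0 : 1 ≤ k0) (hk : k0 ≤ k)
    (hj : j < nc S.d k) (Q : ℕ × ℕ → ℕ → ℕ × ℕ → Prop) {t : HI} (ht : t ∈ hT S k0 k j Q) :
    ((hSup t).card : ℝ) ≤ 20 * k / k0 := by
  obtain ⟨n, k', j', x, D⟩ := t
  simp only [hT, Finset.mem_sigma, Finset.mem_filter, Finset.mem_powerset] at ht
  obtain ⟨⟨hn, hr⟩, hk', hj', ⟨hx, hxn, -⟩, hD⟩ := ht
  simp only [hSup]
  have hkk := hvy_facts S hk'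
  have hK' := hK.trans hkk
  have hk0' : (1 : ℝ) ≤ k0 := by exact_mod_cast hk0
  have hkR : (k0 : ℝ) ≤ k := by exact_mod_cast hk
  have hk'1 : (1 : ℝ) ≤ k' := by exact_mod_cast hk0.trans hkk
  obtain ⟨hp, -, -, h4, -, -, h7, -, -⟩ := S.cand_facts hK' hj' hx
  have hn0 : n ≠ 0 := by
    have := cell_ge hn
    have h2 : 0 < 2 ^ k := by positivity
    omega
  -- prime factors of `x.2`
  have h5 : ((x.2.primeFactors).card : ℝ) ≤ 10 := by
    have hb := (S.mem_badc).1 hj'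
    obtain ⟨-, -, -, -, -, h6, -⟩ := S.cand k' hK' j' hb.1 hb.2 x hx
    have hrx : rough k' x.2 := by
      intro p hp' hpx
      have h8 := h6 p hp' (hpx.mul_left _)
      have hp1 : (1 : ℝ) ≤ p := by exact_mod_cast hp'.one_le
      have h9 : (p : ℝ) ^ (1/2 - S.del) ≤ (p : ℝ) ^ (1/2 : ℝ) :=
        Real.rpow_le_rpow_of_exponent_le hp1 (by (clear * -; linarith [S.del_pos]))
      have h10 : (2 : ℝ) ^ ((k' : ℝ) / 10) ≤ (p : ℝ) ^ (1/2 : ℝ) := by
        refine le_trans ?_ (h8.trans h9)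
        apply Real.rpow_le_rpow_of_exponent_le (by norm_num)
        have := u_big S (S.cls k' j')
        (clear * - this; nlinarith)
      have h11 : ((2 : ℝ) ^ ((k' : ℝ) / 10)) ^ (2 : ℝ) ≤ ((p : ℝ) ^ (1/2 : ℝ)) ^ (2 : ℝ) :=
        Real.rpow_le_rpow (by positivity) h10 (by norm_num)
      rw [← Real.rpow_mul (by norm_num), ← Real.rpow_mul (by (clear * - hp1; positivity))] at h11
      norm_num at h11
      calc (2 : ℝ) ^ ((k' : ℝ) / 5) = (2 : ℝ) ^ ((k' : ℝ) / 10 * 2) := by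
            congr 1
            ring
        _ ≤ p := h11
    have hx20 : x.2 ≠ 0 := by omega
    have hx2lt : x.2 < 2 ^ (k' + 1) := lt_of_le_of_lt (Nat.le_mul_of_pos_left _ hp.pos) h7
    have h8 := rough_omega_le (hk0.trans hkk) hx20 hrx hx2lt
    have h9 : ((x.2.primeFactors).card : ℝ) ≤ (x.2.primeFactorsList.length : ℝ) := by
      exact_mod_cast List.toFinset_card_le _
    refine h9.trans (h8.trans ?_)
    rw [div_le_iff₀ (by (clear * - hk'1; linarith))]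
    (clear * - hk'1; linarith)
  -- `D`
  have h6 : (D.card : ℝ) ≤ 5 * (k + 1) / k0 := by
    have hm0 : n / x.1 ≠ 0 := by
      obtain ⟨m, hm⟩ := hxn
      rw [hm, Nat.mul_div_cancel_left _ hp.pos]
      rintro rfl
      exact hn0 (by rw [hm, mul_zero])
    have hmlt : n / x.1 < 2 ^ (k + 1) :=
      lt_of_le_of_lt (Nat.div_le_self _ _) (cell_lt S.d_pos hj hn)
    have hmr : rough k0 (n / x.1) := rough_of_dvd hr (Nat.div_dvd_of_dvd hxn)
    have h8 := rough_omega_le hk0 hm0 hmr hmlt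
    have h9 : (D.card : ℝ) ≤ ((n / x.1).primeFactorsList.length : ℝ) := by
      have := Finset.card_le_card hD
      exact_mod_cast this.trans (List.toFinset_card_le _)
    exact h9.trans h8
  have h7 : (((x.2.primeFactors ∪ D).card : ℕ) : ℝ) ≤
      (x.2.primeFactors).card + (D.card : ℝ) := by
    exact_mod_cast Finset.card_union_le _ _
  refine h7.trans ((add_le_add h5 h6).trans ?_)
  rw [le_div_iff₀ (by (clear * - hk0'; linarith)), add_mul, div_mul_cancel₀ _ (by (clear * - hk0'; linarith))]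
  (clear * - hk0' hkR; nlinarith)

theorem nc_le (k : ℕ) : (nc S.d k : ℝ) ≤ (2 : ℝ) ^ k := by
  unfold nc
  push_cast
  exact pow_le_pow_right₀ (by norm_num) (Nat.sub_le _ _)

/-- general form of `EvHeavy1`, `EvHeavy2` -/
theorem evHeavy (Q : ℕ × ℕ → ℕ → ℕ × ℕ → Prop)
    (hL : ∃ K0 : ℕ, ∀ k0 : ℕ, K0 ≤ k0 → ∀ k, k0 ≤ k → ∀ j < nc S.d k, ∀ A : Finset ℕ,
      S.LP k0 k j Q A ≤ (2 : ℝ) ^ (-(S.ep / 50) * k) * S.G k) :
    ∃ e : ℝ, 0 < e ∧ ∃ K0 : ℕ, ∀ k0, K0 ≤ k0 → ∀ k, k0 ≤ k →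
      Pool.Agent.M17.Helper62.KS.pr (S.PP k0) {R | ∃ j < nc S.d k,
        (2 : ℝ) ^ (-(S.ep / 100) * k) * S.G k < S.HP k0 R k j Q} ≤ (2 : ℝ) ^ (-(e * k)) := by
  obtain ⟨K1, hL⟩ := hL
  have hep := S.ep_pos
  set J : ℕ := ⌈400 / S.ep⌉₊ with hJ
  have hJ1 : 400 / S.ep ≤ J := Nat.le_ceil _
  have hJpos : (0 : ℝ) < J := lt_of_lt_of_le (by positivity) hJ1
  refine ⟨1, one_pos, max (max K1 S.K) (⌈4000 * J / S.ep⌉₊ + 1), fun k0 hk0 k hk => ?_⟩
  have hK1 : K1 ≤ k0 := (le_max_left _ _).trans ((le_max_left _ _).trans hk0)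
  have hK : S.K ≤ k0 := (le_max_right _ _).trans ((le_max_left _ _).trans hk0)
  have hk01 : 1 ≤ k0 := S.K_pos.trans hK
  have hk0J : 4000 * J / S.ep ≤ k0 := by
    have h1 : ⌈4000 * J / S.ep⌉₊ + 1 ≤ k0 := (le_max_right _ _).trans hk0
    have h2 : ⌈4000 * J / S.ep⌉₊ ≤ k0 := by omega
    exact (Nat.le_ceil _).trans (by exact_mod_cast h2)
  have hk0' : (0 : ℝ) < k0 := by exact_mod_cast hk01
  have hkpos : (0 : ℝ) < k := by exact_mod_cast lt_of_lt_of_le hk01 hk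
  have hG : 0 < S.G k := S.G_pos (hk01.trans hk)
  set l : ℝ := (2 : ℝ) ^ (-(S.ep / 100) * k) * S.G k with hl
  have hlpos : 0 < l := by positivity
  set D : ℕ := ⌊20 * (k : ℝ) / k0⌋₊ with hD
  have hDle : (D : ℝ) ≤ 20 * k / k0 := Nat.floor_le (by (clear * - hkpos hk01; positivity))
  -- one cell
  have hone : ∀ j ∈ Finset.range (nc S.d k), Pool.Agent.M17.Helper62.KS.pr (S.PP k0)
      {R | l ≤ YY (hT S k0 k j Q) (hW S) hSup R} ≤ (2 : ℝ) ^ (-(2 * (k : ℝ))) := by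
    intro j hj
    rw [Finset.mem_range] at hj
    have h1 := pr_upper (S.PP k0) (S.PP_mem k0) (hT S k0 k j Q) (hW S) hSup
      (fun t _ => hW_nonneg S t) D (fun t ht => ?_) ((2 : ℝ) ^ (-(S.ep / 50) * k) * S.G k)
      (fun A => (cond_le_LP S k0 k j Q A).trans (hL k0 hK1 k hk j hj A)) J l hlpos
    · refine h1.trans ?_
      have h2 : (2 : ℝ) ^ (D * J) * ((2 : ℝ) ^ (-(S.ep / 50) * k) * S.G k) / l ≤
          (2 : ℝ) ^ (-(S.ep / 200) * k) := by
        rw [hl, ← mul_assoc, mul_div_mul_right _ _ hG.ne', div_le_iff₀ (by positivity),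
          ← Real.rpow_natCast, ← Real.rpow_add (by norm_num), ← Real.rpow_add (by norm_num)]
        apply Real.rpow_le_rpow_of_exponent_le (by norm_num)
        push_cast
        have h3 : (D : ℝ) * J ≤ S.ep / 200 * k := by
          calc (D : ℝ) * J ≤ 20 * k / k0 * J := by gcongr
            _ = 20 * J * k / k0 := by ring
            _ ≤ S.ep / 200 * k := by
                rw [div_le_iff₀ hk0']
                rw [div_le_iff₀ hep] at hk0J
                (clear * - hk0J; nlinarith)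
        (clear * - h3; nlinarith)
      have h0 : 0 ≤ (2 : ℝ) ^ (D * J) * ((2 : ℝ) ^ (-(S.ep / 50) * k) * S.G k) / l := by
        positivity
      calc ((2 : ℝ) ^ (D * J) * ((2 : ℝ) ^ (-(S.ep / 50) * k) * S.G k) / l) ^ J ≤
          ((2 : ℝ) ^ (-(S.ep / 200) * k)) ^ J := pow_le_pow_left₀ h0 h2 _
        _ = (2 : ℝ) ^ (-(S.ep / 200) * k * J) := by
            rw [← Real.rpow_natCast, ← Real.rpow_mul (by norm_num)]
        _ ≤ (2 : ℝ) ^ (-(2 * (k : ℝ))) := by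
            apply Real.rpow_le_rpow_of_exponent_le (by norm_num)
            rw [div_le_iff₀ hep] at hJ1
            (clear * - hJ1; nlinarith)
    · exact Nat.le_floor (hSup_card S hK hk01 hk hj Q ht)
  have hsub : {R | ∃ j < nc S.d k, l < S.HP k0 R k j Q} ⊆
      ⋃ j ∈ Finset.range (nc S.d k), {R | l ≤ YY (hT S k0 k j Q) (hW S) hSup R} := by
    rintro R ⟨j, hj, hR⟩
    simp only [Set.mem_iUnion]
    refine ⟨j, Finset.mem_range.2 hj, ?_⟩
    exact hR.le.trans (HP_le_YY S hK R k j Q)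
  refine (pr_mono _ hsub).trans ((pr_biUnion_le_card _ _ _ _ hone).trans ?_)
  rw [Finset.card_range]
  calc (nc S.d k : ℝ) * (2 : ℝ) ^ (-(2 * (k : ℝ))) ≤ (2 : ℝ) ^ k * (2 : ℝ) ^ (-(2 * (k : ℝ))) := by
        gcongr
        exact nc_le S k
    _ = (2 : ℝ) ^ (-(1 * (k : ℝ))) := by
        rw [← Real.rpow_natCast, ← Real.rpow_add (by norm_num)]
        congr 1
        ring

theorem evHeavy1 (h : Load1) : EvHeavy1 := fun S => evHeavy S Sys.Q1 (h S)

theorem evHeavy2 (h : Load2) : EvHeavy2 := fun S => evHeavy S S.Q2 (h S)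

end Pool.Agent.M17.Helper61.KS
end

/- Helper53.KN.Helper62.KS.EvMass -/
section
/-!
# Masses of the random set and of the control primes (project KS, MP_768c9c_nt)
-/

set_option autoImplicit false

open MeasureTheory
open scoped Classical
open Pool.Agent.M17.Helper33.KS Pool.Agent.M17.Helper16.KS

namespace Pool.Agent.M17.Helper62.KS

theorem evMassC (hM : MassC1) : EvMassC := by
  intro S
  obtain ⟨K1, hK1⟩ := hM S
  have hc := c_pos S
  refine ⟨S.c / 4, by linarith, max K1 (max S.K 2), fun k0 hk0 k hk => ?_⟩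
  have hkK1 : K1 ≤ k := ((le_max_left _ _).trans hk0).trans hk
  have hkK : S.K ≤ k := (((le_max_left _ _).trans (le_max_right _ _)).trans hk0).trans hk
  have hk2 : 2 ≤ k := (((le_max_right _ _).trans (le_max_right _ _)).trans hk0).trans hk
  rw [PP_eq_PP]
  have hw : ∀ x : ℕ × ℕ, 0 ≤ S.wd k x.2 * (x.1 : ℝ) ^ (-S.s) := fun x =>
    mul_nonneg (wd_nonneg S k x.2) (Real.rpow_nonneg (Nat.cast_nonneg _) _)
  have h1 : IsPoly (PP S k0) 5
      (fun R => ∑ j ∈ S.badc k, ∑ x ∈ S.Cand k j,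
        (S.wd k x.2 * (x.1 : ℝ) ^ (-S.s)) * ind R x.2.primeFactors)
      (fun A => ∑ j ∈ S.badc k, ∑ x ∈ S.Cand k j,
        if A ⊆ x.2.primeFactors then (S.wd k x.2 * (x.1 : ℝ) ^ (-S.s)) *
          ∏ i ∈ x.2.primeFactors \ A, PP S k0 i else 0) :=
    IsPoly.sum _ _ _ fun j hj => IsPoly.sum _ _ _ fun x hx =>
      IsPoly.single _ (hw x) _ (cand_card S hkK hk2 hj hx)
  have h2 : IsPoly (PP S k0) 5
      (fun R => ∑ j ∈ S.badc k, ∑ x ∈ S.act R k j, S.wd k x.2 * (x.1 : ℝ) ^ (-S.s))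
      (fun A => ∑ j ∈ S.badc k, ∑ x ∈ (S.Cand k j).filter (fun x => A ⊆ x.2.primeFactors),
        S.wd k x.2 * (x.1 : ℝ) ^ (-S.s) * S.pc A x.2.primeFactors) := by
    refine h1.mono (fun R => Finset.sum_le_sum fun j hj => ?_)
      fun A => Finset.sum_le_sum fun j hj => ?_
    · unfold Sys.act
      rw [Finset.sum_filter]
      refine Finset.sum_le_sum fun x hx => ?_
      rw [ind_inR (cand_facts S hkK hj hx).2.2.2.1]
      split_ifs
      · rw [mul_one]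
      · rw [mul_zero]
    · rw [Finset.sum_filter]
      refine Finset.sum_le_sum fun x _ => ?_
      split_ifs
      · exact mul_le_mul_of_nonneg_left (prod_PP_le S k0 A _) (hw x)
      · exact le_rfl
  refine (h2.markov (PP_mem S k0) ((2 : ℝ) ^ (-(S.c / 2) * (k : ℝ)))
    ((2 : ℝ) ^ (-(S.c / 4) * (k : ℝ))) (by positivity) (hK1 k hkK1 ∅)).trans (le_of_eq ?_)
  rw [← Real.rpow_sub (by norm_num)]
  congr 1
  ring

theorem evMassR (hM : MassR1) : EvMassR := by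
  intro S
  obtain ⟨K1, hK1⟩ := hM S
  have ht := tau_pos S
  refine ⟨S.tau / 24, by linarith, K1, fun k0 hk0 l hl => ?_⟩
  rw [PP_eq_PP]
  set g : ℕ → ℝ := fun r => S.base r * (r : ℝ) ^ (-S.s) * (1 + Real.log r) ^ 2 with hg
  have hg0 : ∀ r, 0 ≤ g r := fun r =>
    mul_nonneg (mul_nonneg (base_nonneg S r) (Real.rpow_nonneg (Nat.cast_nonneg _) _))
      (sq_nonneg _)
  set T0 : Finset ℕ := (Finset.range (⌈(2 : ℝ) ^ (((l : ℝ) + 1) / 5)⌉₊)).filter
    (fun r => (2 : ℝ) ^ ((l : ℝ) / 5) ≤ r) with hT0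
  have h1 : IsPoly (PP S k0) 1 (fun R => ∑ r ∈ T0, g r * ind R {r})
      (fun A => ∑ r ∈ T0, if A ⊆ {r} then g r * ∏ i ∈ {r} \ A, PP S k0 i else 0) :=
    IsPoly.sum _ _ _ fun r _ => IsPoly.single _ (hg0 r) _ (by simp)
  have hset : {R : Set ℕ | ∃ T : Finset ℕ, (∀ r ∈ T, r ∈ R ∧ (2 : ℝ) ^ ((l : ℝ) / 5) ≤ r ∧
      (r : ℝ) < (2 : ℝ) ^ (((l : ℝ) + 1) / 5)) ∧
      (2 : ℝ) ^ (-(S.tau / 8) * (l : ℝ)) <
        ∑ r ∈ T, S.base r * (r : ℝ) ^ (-S.s) * (1 + Real.log r) ^ 2} ⊆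
      {R | (2 : ℝ) ^ (-(S.tau / 8) * (l : ℝ)) < ∑ r ∈ T0, g r * ind R {r}} := by
    intro R hR
    obtain ⟨T, hT, hlt⟩ := hR
    refine lt_of_lt_of_le hlt ?_
    have h2 : T ⊆ T0 := by
      intro r hr
      rw [hT0, Finset.mem_filter, Finset.mem_range]
      refine ⟨?_, (hT r hr).2.1⟩
      have h3 : (r : ℝ) < (⌈(2 : ℝ) ^ (((l : ℝ) + 1) / 5)⌉₊ : ℝ) :=
        lt_of_lt_of_le (hT r hr).2.2 (Nat.le_ceil _)
      exact_mod_cast h3
    calc ∑ r ∈ T, S.base r * (r : ℝ) ^ (-S.s) * (1 + Real.log r) ^ 2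
        = ∑ r ∈ T, g r * ind R {r} := by
          refine Finset.sum_congr rfl fun r hr => ?_
          have h3 : ind R {r} = 1 := by
            unfold ind
            rw [if_pos]
            simpa using (hT r hr).1
          rw [h3, mul_one]
      _ ≤ ∑ r ∈ T0, g r * ind R {r} :=
          Finset.sum_le_sum_of_subset_of_nonneg h2 fun r _ _ => mul_nonneg (hg0 r) (ind_nonneg _ _)
  refine (pr_mono _ hset).trans ?_
  have hmean : (fun A => ∑ r ∈ T0, if A ⊆ {r} then g r * ∏ i ∈ {r} \ A, PP S k0 i else 0)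
      (∅ : Finset ℕ) ≤ (2 : ℝ) ^ (-(S.tau / 6) * (l : ℝ)) := by
    refine le_trans (Finset.sum_le_sum fun r _ => ?_) (hK1 l (hk0.trans hl) T0 fun r hr => ?_)
    · rw [if_pos (Finset.empty_subset _), Finset.sdiff_empty, Finset.prod_singleton, mul_comm]
      exact mul_le_mul_of_nonneg_right (PP_le S k0 r) (hg0 r)
    · rw [hT0, Finset.mem_filter] at hr
      exact hr.2
  refine (h1.markov (PP_mem S k0) ((2 : ℝ) ^ (-(S.tau / 6) * (l : ℝ)))
    ((2 : ℝ) ^ (-(S.tau / 8) * (l : ℝ))) (by positivity) hmean).trans (le_of_eq ?_)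
  rw [← Real.rpow_sub (by norm_num)]
  congr 1
  ring

end Pool.Agent.M17.Helper62.KS
end

/- Helper53.KN.Helper62.KS.EGFinal -/
section
/-!
# ExistsGood from the first moment inequalities (project KS, MP_768c9c_nt)
-/

set_option autoImplicit false

open Pool.Agent.M17.Helper16.KS

namespace Pool.Agent.M17.Helper62.KS

theorem existsGood_of (hC : Cand1) (hM : Mult1) (hMC : MassC1) (hMR : MassR1) (hCr : Crude1)
    (hR : RPart1) (h1 : Load1) (h2 : Load2) : ExistsGood :=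
  existsGood (evLow hC) (evWin1 hC) (evWin2 hC) (evMult hM) (evMassR hMR) (evMassC hMC)
    (Pool.Agent.M17.Helper26.KS.evCrude hCr) (Pool.Agent.M17.Helper26.KS.evRPart hR)
    (Pool.Agent.M17.Helper61.KS.evHeavy1 h1) (Pool.Agent.M17.Helper61.KS.evHeavy2 h2)

end Pool.Agent.M17.Helper62.KS
end
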