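import Mathlib
import Pool.Agent.Helper53.KM.G01
import Pool.Agent.Helper53.KM.G07
import Pool.Agent.Helper53.KM.G26
import Pool.Agent.Helper53.KM.G34
import Pool.Agent.Helper53.KM.G36
import Pool.Agent.Helper53.KM.G37
import Pool.Agent.Helper53.KM.G43

/- Helper53.KN.Helper18.KL.LL -/
section
/-! Project KS: direct terms with a large cofactor. -/

set_option autoImplicit false
open scoped Classical
open Finset Filter Topology

namespace Pool.Agent.M17.Helper18.KL

open Pool.Agent.M17.Helper16.KS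

theorem sig_mul_squarefree {A : Finset ℕ} {m l : ℕ} (hm : Squarefree m) (hml : m ∣ l) (hl : l ≠ 0)
    (hdis : ∀ p : ℕ, p.Prime → p ∣ m → p ∉ A) : sig (A ∪ m.primeFactors) l = m * sig A l := by
  have hm0 : m ≠ 0 := hm.ne_zero
  have hsub : m.primeFactors ⊆ l.primeFactors := Nat.primeFactors_mono hml hl
  have h1 : m = ∏ p ∈ l.primeFactors, if p ∈ m.primeFactors then p else 1 := by
    conv_lhs => rw [← Nat.prod_primeFactors_of_squarefree hm]
    rw [← Finset.prod_filter]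
    refine Finset.prod_congr ?_ fun _ _ => rfl
    ext p
    rw [Finset.mem_filter]
    exact ⟨fun h => ⟨hsub h, h⟩, fun h => h.2⟩
  have h2 : m * sig A l = (∏ p ∈ l.primeFactors, if p ∈ m.primeFactors then p else 1) * sig A l := by
    rw [← h1]
  rw [h2]
  unfold sig
  rw [← Finset.prod_mul_distrib]
  refine Finset.prod_congr rfl fun p hp => ?_
  have hpp := Nat.prime_of_mem_primeFactors hp
  have hv : 1 ≤ l.factorization p := hpp.factorization_pos_of_dvd hl (Nat.dvd_of_mem_primeFactors hp)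
  by_cases hpm : p ∈ m.primeFactors
  · have hpA : p ∉ A := hdis p hpp (Nat.dvd_of_mem_primeFactors hpm)
    rw [if_pos (Finset.mem_union_right _ hpm), if_pos hpm, if_neg hpA, ← pow_succ']
    congr 1
    omega
  · rw [if_neg hpm, one_mul]
    by_cases hpA : p ∈ A
    · rw [if_pos (Finset.mem_union_left _ hpA), if_pos hpA]
    · rw [if_neg (by rw [Finset.mem_union]; tauto), if_neg hpA]

theorem sig_mono (A : Finset ℕ) {l n : ℕ} (hl : l ∣ n) (hn : n ≠ 0) : sig A l ≤ sig A n := by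
  have hl0 : l ≠ 0 := by rintro rfl; exact hn (Nat.eq_zero_of_zero_dvd hl)
  have hsub : l.primeFactors ⊆ n.primeFactors := Nat.primeFactors_mono hl hn
  unfold sig
  have h1 : ∏ p ∈ l.primeFactors, (if p ∈ A then p ^ l.factorization p else p ^ (l.factorization p - 1)) ≤
      ∏ p ∈ l.primeFactors, (if p ∈ A then p ^ n.factorization p else p ^ (n.factorization p - 1)) := by
    refine Finset.prod_le_prod' fun p hp => ?_
    have hpp := Nat.prime_of_mem_primeFactors hp
    have hv : l.factorization p ≤ n.factorization p := (Nat.factorization_le_iff_dvd hl0 hn).2 hl p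
    split_ifs
    · exact Nat.pow_le_pow_right hpp.pos hv
    · exact Nat.pow_le_pow_right hpp.pos (by omega)
  refine h1.trans (Finset.prod_le_prod_of_subset_of_one_le' hsub fun p hp _ => ?_)
  have hpp := Nat.prime_of_mem_primeFactors hp
  split_ifs <;> exact Nat.one_le_pow _ _ hpp.pos

theorem mA_eq_one {A : Finset ℕ} {m : ℕ} (hdis : ∀ p : ℕ, p.Prime → p ∣ m → p ∉ A) : mA A m = 1 := by
  unfold mA
  have : m.primeFactors ∩ A = ∅ := by
    rw [Finset.eq_empty_iff_forall_notMem]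
    intro p hp
    rw [Finset.mem_inter] at hp
    exact hdis p (Nat.prime_of_mem_primeFactors hp.1) (Nat.dvd_of_mem_primeFactors hp.1) hp.2
  rw [this, Finset.prod_empty]

theorem tw_le (S : Sys) {A : Finset ℕ} {m l n : ℕ} (hm : Squarefree m) (hml : m ∣ l) (hln : l ∣ n) (hn : n ≠ 0)
    (hdis : ∀ p : ℕ, p.Prime → p ∣ m → p ∉ A) : tw S A m l ≤ (sig A n : ℝ) ^ S.hh := by
  have hl0 : l ≠ 0 := by rintro rfl; exact hn (Nat.eq_zero_of_zero_dvd hln)
  have hm0 : (m : ℝ) ≠ 0 := by exact_mod_cast hm.ne_zero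
  unfold tw
  rw [mA_eq_one hdis, sig_mul_squarefree hm hml hl0 hdis]
  refine Real.rpow_le_rpow (by (clear * - hm0; positivity)) ?_ (hh_le S).2.1.le
  push_cast
  have : (1 : ℝ) / m * (m * (sig A l : ℝ)) = sig A l := by (clear * - hm0; field_simp)
  rw [this]
  exact_mod_cast sig_mono A hln hn

theorem card_divisors_le {n : ℕ} (hn : n ≠ 0) : (n.divisors.card : ℝ) ≤ 2 ^ n.primeFactorsList.length := by
  rw [Nat.card_divisors hn, ← CM_const, CM_eq_prod]
  push_cast
  refine Finset.prod_le_prod (fun _ _ => by (clear * -; positivity)) fun p _ => ?_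
  have : n.factorization p + 1 ≤ 2 ^ n.factorization p := Nat.lt_two_pow_self
  exact_mod_cast this

theorem lin_le_rpow (ρ C : ℝ) (hρ : 0 < ρ) : ∃ K1 : ℕ, ∀ k : ℕ, K1 ≤ k → C * ((k : ℝ) + 1) ≤ (2 : ℝ) ^ (ρ * k) := by
  have hr : 1 < (2 : ℝ) ^ ρ := Real.one_lt_rpow (by norm_num) hρ
  have h1 := tendsto_pow_const_div_const_pow_of_one_lt 1 hr
  have h2 : Tendsto (fun n : ℕ => (2 * |C| + 1) * ((n : ℝ) ^ 1 / ((2 : ℝ) ^ ρ) ^ n)) atTop (𝓝 0) := by
    simpa using h1.const_mul (2 * |C| + 1)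
  have h3 := (h2.eventually (gt_mem_nhds (show (0 : ℝ) < 1 by norm_num))).and (eventually_ge_atTop 1)
  obtain ⟨K1, hK1⟩ := eventually_atTop.1 h3
  refine ⟨K1, fun k hk => ?_⟩
  obtain ⟨h4, h5⟩ := hK1 k hk
  have hk1 : (1 : ℝ) ≤ k := by exact_mod_cast h5
  have h6 : 0 < ((2 : ℝ) ^ ρ) ^ k := by positivity
  rw [pow_one, ← mul_div_assoc, div_lt_one h6] at h4
  have h7 : ((2 : ℝ) ^ ρ) ^ k = (2 : ℝ) ^ (ρ * k) := by
    rw [← Real.rpow_natCast, ← Real.rpow_mul (by norm_num)]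
  rw [← h7]
  have h8 : C ≤ |C| := le_abs_self C
  have h9 : 0 ≤ |C| := abs_nonneg C
  (clear * - h4 hk1 h8 h9; nlinarith)

/-- number of candidates dividing `n` -/
theorem cnt_x (S : Sys) {k' n : ℕ} (hk' : S.K ≤ k') (hn : n ≠ 0) :
    ∑ j' ∈ S.badc k', (((S.Cand k' j').filter (fun x => x.1 * x.2 ∣ n)).card : ℝ) ≤ 2 ^ n.primeFactorsList.length := by
  refine le_trans ?_ (card_divisors_le hn)
  have h1 : ∑ j' ∈ S.badc k', ((S.Cand k' j').filter (fun x => x.1 * x.2 ∣ n)).card ≤ n.divisors.card := by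
    rw [← Finset.card_sigma]
    refine Finset.card_le_card_of_injOn (fun y => y.2.1 * y.2.2) ?_ ?_
    · intro y hy
      rw [Finset.mem_coe, Finset.mem_sigma, Finset.mem_filter] at hy
      rw [Finset.mem_coe, Nat.mem_divisors]
      exact ⟨hy.2.2, hn⟩
    · intro y hy z hz hyz
      rw [Finset.mem_coe, Finset.mem_sigma, Finset.mem_filter] at hy hz
      simp only at hyz
      have c1 := S.cand_facts hk' hy.1 hy.2.1
      have c2 := S.cand_facts hk' hz.1 hz.2.1
      have b1 := S.mem_badc.1 hy.1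
      have b2 := S.mem_badc.1 hz.1
      have e1 : z.1 = y.1 := by
        have := S.cell_disj (k := k') (k' := k') b1.1 b2.1 c1.2.2.2.2.1 (by rw [hyz]; exact c2.2.2.2.2.1)
        exact this.2
      obtain ⟨yj, yx⟩ := y
      obtain ⟨zj, zx⟩ := z
      simp only at e1 hyz hy hz
      subst e1
      have e2 := S.inj k' hk' _ b1.1 b1.2 yx hy.2.1 zx hz.2.1 hyz
      rw [e2]
  exact_mod_cast h1

/-- sum over the bad cells -/
theorem sum_badc (S : Sys) {k' : ℕ} (hk' : S.K ≤ k') (f : ℕ → ℝ) (M : ℝ) (hM : 0 ≤ M)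
    (hf : ∀ j' ∈ S.badc k', (2 : ℝ) ^ (S.u (S.cls k' j') * k') * f j' ≤ M) :
    ∑ j' ∈ S.badc k', f j' ≤ 3 * M := by
  have h1 : ∀ j' ∈ S.badc k', f j' ≤ M * (2 : ℝ) ^ (-(S.u (S.cls k' j') * k')) := by
    intro j' hj'
    have := hf j' hj'
    rw [Real.rpow_neg (by norm_num), ← div_eq_mul_inv, le_div_iff₀ (by positivity)]
    (clear * - this; linarith)
  refine (Finset.sum_le_sum h1).trans ?_
  rw [← Finset.mul_sum, mul_comm 3 M]
  refine mul_le_mul_of_nonneg_left ?_ hM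
  rw [← Finset.sum_fiberwise (S.badc k') (fun j' => S.cls k' j')]
  have h2 : ∀ i : Fin 3, ∑ j' ∈ (S.badc k').filter (fun j' => S.cls k' j' = i),
      (2 : ℝ) ^ (-(S.u (S.cls k' j') * k')) ≤ 1 := by
    intro i
    have h3 : ∑ j' ∈ (S.badc k').filter (fun j' => S.cls k' j' = i), (2 : ℝ) ^ (-(S.u (S.cls k' j') * k')) =
        (((S.badc k').filter (fun j' => S.cls k' j' = i)).card : ℝ) * (2 : ℝ) ^ (-(S.u i * k')) := by
      rw [← nsmul_eq_mul, ← Finset.sum_const]
      refine Finset.sum_congr rfl fun j' hj' => ?_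
      rw [Finset.mem_filter] at hj'
      rw [hj'.2]
    rw [h3, Real.rpow_neg (by norm_num), ← div_eq_mul_inv, div_le_one (by positivity)]
    have h4 := S.few k' hk' i
    unfold Sys.badc
    rw [Finset.filter_filter]
    exact h4
  refine (Finset.sum_le_sum fun i _ => h2 i).trans ?_
  simp

theorem ll : LL := by
  intro S
  obtain ⟨C, hC, hB⟩ := powB S S.eta S.eta_pos le_rfl
  set ρ : ℝ := S.ep / 100 with hρ
  have hρ0 : 0 < ρ := by have := S.ep_pos; (clear * - this; positivity)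
  obtain ⟨K1, hK1⟩ := lin_le_rpow ρ (3 * (5 * C + 72)) hρ0
  refine ⟨max (max (S.K + 5) K1) ⌈45 / ρ⌉₊, ?_⟩
  intro k0 hk0 k hk j hj A
  have hk0K : S.K + 5 ≤ k0 := ((le_max_left _ _).trans (le_max_left _ _)).trans hk0
  have hk0K1 : K1 ≤ k0 := ((le_max_right _ _).trans (le_max_left _ _)).trans hk0
  have hk0ρ : 45 / ρ ≤ k0 := by
    calc 45 / ρ ≤ (⌈45 / ρ⌉₊ : ℝ) := Nat.le_ceil _
      _ ≤ k0 := by exact_mod_cast (le_max_right _ _).trans hk0
  have hk01 : 1 ≤ k0 := by omega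
  have hk0r : (0 : ℝ) < k0 := by exact_mod_cast hk01
  have hkr : (k0 : ℝ) ≤ k := by exact_mod_cast hk
  have hk1r : (1 : ℝ) ≤ k := by
    have : (1 : ℝ) ≤ k0 := by exact_mod_cast hk01
    (clear * - hkr this; linarith)
  have hk0ρ' : 45 ≤ ρ * k0 := by rw [div_le_iff₀ hρ0] at hk0ρ; (clear * - hk0ρ; linarith)
  have hep := S.ep_pos
  have hc := S.c_pos
  have hd := S.d_pos
  have heta := S.eta_pos
  have hhh := hh_le S
  set E : ℝ := (2 : ℝ) ^ ec S.d k with hE
  have hE0 : 0 < E := by positivity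
  -- is there a term at all
  by_cases hA : ∃ n ∈ (cell S.d k j).filter (Sys.rough k0), A ⊆ n.primeFactors
  swap
  · have h0 : LS S k0 k j (QL S A) A = 0 := by
      unfold LS
      refine Finset.sum_eq_zero fun n hn => Finset.sum_eq_zero fun k' _ => Finset.sum_eq_zero fun j' _ => ?_
      rw [Finset.filter_eq_empty_iff.2, Finset.sum_empty]
      rintro x _ ⟨hx1, hx2, hx3⟩
      refine hA ⟨n, hn, ?_⟩
      have hn0 : n ≠ 0 := by
        rw [Finset.mem_filter] at hn
        have := cell_ge hn.1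
        have : 0 < 2 ^ k := by positivity
        omega
      intro p hp
      have hp1 := hx3 hp
      rw [Finset.mem_union] at hp1
      rcases hp1 with hp1 | hp1
      · exact absurd hp (hx2.2 p (Nat.prime_of_mem_primeFactors hp1) (Nat.dvd_of_mem_primeFactors hp1))
      · exact Nat.primeFactors_mono (Nat.div_dvd_of_dvd hx1) hn0 hp1
    rw [h0]
    positivity
  obtain ⟨n0, hn0, hAn0⟩ := hA
  rw [Finset.mem_filter] at hn0
  have hn00 : n0 ≠ 0 := by
    have := cell_ge hn0.1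
    have : 0 < 2 ^ k := by positivity
    omega
  have hom : ∀ n ∈ (cell S.d k j).filter (Sys.rough k0), (n.primeFactorsList.length : ℝ) ≤ 5 * (k + 1) / k0 := by
    intro n hn
    rw [Finset.mem_filter] at hn
    have h1 := cell_ge hn.1
    have h2 : 0 < 2 ^ k := by positivity
    exact Sys.rough_omega_le hk01 (by omega) hn.2 (cell_lt S.d_pos hj hn.1)
  have hAcard : (A.card : ℝ) ≤ 5 * (k + 1) / k0 := by
    have h1 : A.card ≤ n0.primeFactorsList.length :=
      (Finset.card_le_card hAn0).trans (List.toFinset_card_le _)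
    refine le_trans (by exact_mod_cast h1) (hom n0 (Finset.mem_filter.2 hn0))
  set P0 : ℕ := ⌈(2 : ℝ) ^ ((k0 : ℝ) / 5)⌉₊ with hP0
  have hP0r : (2 : ℝ) ^ ((k0 : ℝ) / 5) ≤ P0 := Nat.le_ceil _
  have hP02 : 2 ≤ P0 := by
    have h1 : (2 : ℝ) ^ (1 : ℝ) ≤ (2 : ℝ) ^ ((k0 : ℝ) / 5) := by
      refine Real.rpow_le_rpow_of_exponent_le (by norm_num) ?_
      have : (5 : ℝ) ≤ k0 := by exact_mod_cast (by omega : 5 ≤ k0)
      (clear * - this; linarith)
    rw [Real.rpow_one] at h1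
    have : (2 : ℝ) ≤ P0 := h1.trans hP0r
    exact_mod_cast this
  have hAP : ∀ p ∈ A, p.Prime ∧ P0 ≤ p := by
    intro p hp
    have hp1 := hAn0 hp
    have hpp := Nat.prime_of_mem_primeFactors hp1
    refine ⟨hpp, Nat.ceil_le.2 ?_⟩
    exact hn0.2 p hpp (Nat.dvd_of_mem_primeFactors hp1)
  set x0 : ℕ := 2 ^ k + j * 2 ^ ec S.d k with hx0
  have hx01 : 1 ≤ x0 := by
    have : 0 < 2 ^ k := by positivity
    omega
  have hx0mem : x0 ∈ cell S.d k j := by
    rw [Pool.Agent.M17.Helper88.KS.cell_eq, Finset.mem_Ico]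
    have : 0 < 2 ^ ec S.d k := by positivity
    omega
  have hx0lt : x0 < 2 ^ (k + 1) := cell_lt S.d_pos hj hx0mem
  have hlog : (Nat.log P0 (2 * x0) : ℝ) ≤ 5 * (k + 2) / k0 := by
    have h1 : P0 ^ Nat.log P0 (2 * x0) ≤ 2 * x0 := Nat.pow_log_le_self P0 (by omega)
    have h2 : (P0 : ℝ) ^ Nat.log P0 (2 * x0) ≤ (2 : ℝ) ^ ((k : ℝ) + 2) := by
      have h3 : P0 ^ Nat.log P0 (2 * x0) ≤ 2 ^ (k + 2) := by
        refine h1.trans ?_
        calc 2 * x0 ≤ 2 * 2 ^ (k + 1) := by omega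
          _ = 2 ^ (k + 2) := by ring
      have h4 : ((P0 ^ Nat.log P0 (2 * x0) : ℕ) : ℝ) ≤ ((2 ^ (k + 2) : ℕ) : ℝ) := by exact_mod_cast h3
      push_cast at h4
      rw [← Real.rpow_natCast 2 (k + 2)] at h4
      push_cast at h4
      exact h4
    have h5 : ((2 : ℝ) ^ ((k0 : ℝ) / 5)) ^ Nat.log P0 (2 * x0) ≤ (2 : ℝ) ^ ((k : ℝ) + 2) :=
      (pow_le_pow_left₀ (by positivity) hP0r _).trans h2
    rw [← Real.rpow_natCast, ← Real.rpow_mul (by norm_num), Real.rpow_le_rpow_left_iff (by norm_num)] at h5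
    rw [le_div_iff₀ hk0r]
    (clear * - h5; linarith)
  have hloss : (2 : ℝ) ^ (5 * ((k : ℝ) + 1) / k0) * 2 ^ (A.card + Nat.log P0 (2 * x0)) ≤ (2 : ℝ) ^ (ρ * k) := by
    rw [← Real.rpow_natCast 2 (A.card + _), ← Real.rpow_add (by norm_num)]
    refine Real.rpow_le_rpow_of_exponent_le (by norm_num) ?_
    push_cast
    have h1 : 5 * ((k : ℝ) + 1) / k0 + (A.card + Nat.log P0 (2 * x0)) ≤ (5 * (k + 1) + 5 * (k + 1) + 5 * (k + 2)) / k0 := by
      rw [add_div, add_div]
      (clear * - hAcard hlog; linarith)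
    refine h1.trans ?_
    rw [div_le_iff₀ hk0r]
    (clear * - hk1r heta hhh hk0ρ'; nlinarith)
  -- bounds for the two parts
  have hkapk : ∀ k' ∈ S.hvy k0 k, S.d / 10 * k ≤ k' := by
    intro k' hk'
    unfold Sys.hvy at hk'
    rw [Finset.mem_Ico] at hk'
    have h1 : (⌈S.kap * k⌉₊ : ℝ) ≤ k' := by exact_mod_cast (le_max_right _ _).trans hk'.1
    have h2 := Nat.le_ceil (S.kap * k)
    unfold Sys.kap at h1 h2
    (clear * - h1 h2; linarith)
  have hk'K : ∀ k' ∈ S.hvy k0 k, S.K ≤ k' := by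
    intro k' hk'
    unfold Sys.hvy at hk'
    rw [Finset.mem_Ico] at hk'
    have := (le_max_left k0 ⌈S.kap * k⌉₊).trans hk'.1
    omega
  have hE2 := Pool.Agent.M17.Helper88.KS.ec_real_ge S.d k
  rw [← hE] at hE2
  have hT1 : ∀ k' ∈ S.hvy k0 k, ∑ n ∈ ((cell S.d k j).filter (Sys.rough k0)).filter
      (fun n => (2 : ℝ) ^ (S.c * k') ≤ (sig A n : ℝ)), (sig A n : ℝ) ^ S.hh * 2 ^ n.primeFactorsList.length ≤
      5 * C * (2 : ℝ) ^ (ρ * k) * (2 : ℝ) ^ (-(S.ep / 10) * k) * E := by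
    intro k' hk'
    have hkk := hkapk k' hk'
    have hB1 := hB x0 (2 ^ ec S.d k) P0 A ((2 : ℝ) ^ (S.c * k')) hx01 ?_ hP02 hAP
      (Real.one_le_rpow (by norm_num) (by (clear * - hc; positivity)))
    · have h1 : ∑ n ∈ ((cell S.d k j).filter (Sys.rough k0)).filter
          (fun n => (2 : ℝ) ^ (S.c * k') ≤ (sig A n : ℝ)), (sig A n : ℝ) ^ S.hh * 2 ^ n.primeFactorsList.length ≤
          (2 : ℝ) ^ (5 * ((k : ℝ) + 1) / k0) * ∑ n ∈ (Ico x0 (x0 + 2 ^ ec S.d k)).filter
          (fun n => (2 : ℝ) ^ (S.c * k') ≤ (sig A n : ℝ)), (sig A n : ℝ) ^ S.hh := by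
        rw [Finset.mul_sum]
        refine (Finset.sum_le_sum (g := fun n => (2 : ℝ) ^ (5 * ((k : ℝ) + 1) / k0) * (sig A n : ℝ) ^ S.hh)
          fun n hn => ?_).trans
          (Finset.sum_le_sum_of_subset_of_nonneg ?_ fun n _ _ => by (clear * -; positivity))
        · rw [Finset.mem_filter] at hn
          rw [mul_comm]
          refine mul_le_mul_of_nonneg_right ?_ (by (clear * -; positivity))
          rw [← Real.rpow_natCast]
          exact Real.rpow_le_rpow_of_exponent_le (by norm_num) (hom n hn.1)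
        · intro n hn
          rw [Finset.mem_filter, Finset.mem_filter, Pool.Agent.M17.Helper88.KS.cell_eq] at hn
          rw [Finset.mem_filter]
          exact ⟨hn.1.1, hn.2⟩
      refine h1.trans ((mul_le_mul_of_nonneg_left hB1 (by positivity)).trans ?_)
      push_cast
      rw [← hE]
      have e1 : ((2 : ℝ) ^ (S.c * (k' : ℝ))) ^ (-S.eta) ≤ (2 : ℝ) ^ (-(S.ep / 10) * k) := by
        rw [← Real.rpow_mul (by norm_num)]
        refine Real.rpow_le_rpow_of_exponent_le (by norm_num) ?_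
        rw [S.ep_eq]
        have : S.c * S.eta * (S.d / 10 * k) ≤ S.c * S.eta * k' := mul_le_mul_of_nonneg_left hkk (by positivity)
        (clear * - this; nlinarith)
      have e2 : (x0 : ℝ) ^ (1 / 2 - S.eta) ≤ 4 * E * (2 : ℝ) ^ (-(S.ep / 10) * k) := by
        have a1 : (x0 : ℝ) ≤ (2 : ℝ) ^ ((k : ℝ) + 1) := by
          calc (x0 : ℝ) ≤ (2 : ℝ) ^ (k + 1) := by exact_mod_cast hx0lt.le
            _ = (2 : ℝ) ^ ((k : ℝ) + 1) := by rw [← Real.rpow_natCast]; push_cast; rfl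
        have heta2 := S.eta_le'
        have a2 : (x0 : ℝ) ^ (1 / 2 - S.eta) ≤ (2 : ℝ) ^ (((k : ℝ) + 1) * (1 / 2 - S.eta)) := by
          rw [Real.rpow_mul (by norm_num)]
          exact Real.rpow_le_rpow (Nat.cast_nonneg _) a1 (by (clear * - heta heta2; linarith))
        refine a2.trans ?_
        calc (2 : ℝ) ^ (((k : ℝ) + 1) * (1 / 2 - S.eta))
            ≤ (2 : ℝ) ^ (2 + ((1 / 2 - S.d) * k - 1) + -(S.ep / 10) * k) := by
              refine Real.rpow_le_rpow_of_exponent_le (by norm_num) ?_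
              have a3 : S.ep / 10 ≤ S.eta / 10 := by
                rw [S.ep_eq]
                have b1 := S.d_le'
                have b2 := S.c_le'
                have b3 : S.c * S.d ≤ 1 := by
                  norm_num at b1
                  (clear * - hd b2 b1 hc; nlinarith)
                (clear * - heta b3; nlinarith)
              have a4 : S.d ≤ S.eta / 10 := by
                have b1 := S.d_le_c
                have b2 := S.c_le
                have : S.c / 10 ^ 5 ≤ S.c := by rw [div_le_iff₀ (by positivity)]; (clear * - hd b1; nlinarith)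
                (clear * - hd b1 b2; linarith)
              (clear * - hρ hρ0 heta2 a3 heta a4; nlinarith)
          _ = 4 * (2 : ℝ) ^ ((1 / 2 - S.d) * k - 1) * (2 : ℝ) ^ (-(S.ep / 10) * k) := by
              rw [Real.rpow_add (by norm_num), Real.rpow_add (by norm_num) (2 : ℝ)]
              norm_num
          _ ≤ 4 * E * (2 : ℝ) ^ (-(S.ep / 10) * k) := by
              refine mul_le_mul_of_nonneg_right ?_ (by positivity)
              (clear * - hE2; linarith)
      have e3 : E * ((2 : ℝ) ^ (S.c * (k' : ℝ))) ^ (-S.eta) + (x0 : ℝ) ^ (1 / 2 - S.eta) ≤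
          5 * E * (2 : ℝ) ^ (-(S.ep / 10) * k) := by
        have := mul_le_mul_of_nonneg_left e1 hE0.le
        (clear * - e2 this; linarith)
      calc (2 : ℝ) ^ (5 * ((k : ℝ) + 1) / k0) * (C * 2 ^ (A.card + Nat.log P0 (2 * x0)) *
            (E * ((2 : ℝ) ^ (S.c * (k' : ℝ))) ^ (-S.eta) + (x0 : ℝ) ^ (1 / 2 - S.eta)))
          ≤ (2 : ℝ) ^ (5 * ((k : ℝ) + 1) / k0) * (C * 2 ^ (A.card + Nat.log P0 (2 * x0)) *
            (5 * E * (2 : ℝ) ^ (-(S.ep / 10) * k))) :=
            mul_le_mul_of_nonneg_left (mul_le_mul_of_nonneg_left e3 (by positivity)) (by positivity)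
        _ = 5 * C * ((2 : ℝ) ^ (5 * ((k : ℝ) + 1) / k0) * 2 ^ (A.card + Nat.log P0 (2 * x0))) *
            (2 : ℝ) ^ (-(S.ep / 10) * k) * E := by ring
        _ ≤ 5 * C * (2 : ℝ) ^ (ρ * k) * (2 : ℝ) ^ (-(S.ep / 10) * k) * E := by
            refine mul_le_mul_of_nonneg_right (mul_le_mul_of_nonneg_right
              (mul_le_mul_of_nonneg_left hloss (by positivity)) (by positivity)) hE0.le
    · exact (Nat.pow_le_pow_right (by norm_num) (ec_le S.d S.d_pos k)).trans (Nat.le_add_right _ _)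
  have hT2 : ∀ k' ∈ S.hvy k0 k, (2 : ℝ) ^ (S.c / 2 * k') * ∑ j' ∈ S.badc k',
      ((PP S.d k j k' j' ((2 : ℝ) ^ ((S.u (S.cls k' j') + S.c) * k'))).card : ℝ) ≤
      72 * (2 : ℝ) ^ (-(S.ep / 10) * k) * E := by
    intro k' hk'
    have hkk := hkapk k' hk'
    have hKk := hk'K k' hk'
    have hd1 : S.d ≤ 1 / 1000 := by
      have := S.d_le'
      norm_num at this
      (clear * - hd this; linarith)
    have h1 := sum_badc S hKk (fun j' => ((PP S.d k j k' j' ((2 : ℝ) ^ ((S.u (S.cls k' j') + S.c) * k'))).card : ℝ))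
      (24 * E * (2 : ℝ) ^ ((2 * S.d - S.c) * k')) (by positivity) (fun j' hj' => by
        have b := S.mem_badc.1 hj'
        exact pairs_bound S.d_pos hd1 hj b.1 (by have := S.u_ge (S.cls k' j'); (clear * - hd hd1 this; linarith))
          (S.u_le _) hc (by have := S.c_le'; norm_num at this; (clear * - hd hd1 this; linarith)))
    calc (2 : ℝ) ^ (S.c / 2 * k') * ∑ j' ∈ S.badc k',
          ((PP S.d k j k' j' ((2 : ℝ) ^ ((S.u (S.cls k' j') + S.c) * k'))).card : ℝ)
        ≤ (2 : ℝ) ^ (S.c / 2 * k') * (3 * (24 * E * (2 : ℝ) ^ ((2 * S.d - S.c) * k'))) :=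
          mul_le_mul_of_nonneg_left h1 (by positivity)
      _ = 72 * ((2 : ℝ) ^ (S.c / 2 * k') * (2 : ℝ) ^ ((2 * S.d - S.c) * k')) * E := by ring
      _ ≤ 72 * (2 : ℝ) ^ (-(S.ep / 10) * k) * E := by
          refine mul_le_mul_of_nonneg_right (mul_le_mul_of_nonneg_left ?_ (by norm_num)) hE0.le
          rw [← Real.rpow_add (by norm_num)]
          refine Real.rpow_le_rpow_of_exponent_le (by norm_num) ?_
          have b1 : 2 * S.d ≤ S.c / 10 := by
            have := S.d_le_c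
            have : S.c / 10 ^ 5 ≤ S.c / 20 := by
              rw [div_le_div_iff₀ (by positivity) (by norm_num)]; (clear * - hd this; nlinarith)
            linarith
          have b2 : S.c / 2 * k' + (2 * S.d - S.c) * k' ≤ -(S.c / 3) * k' := by
            have : (0 : ℝ) ≤ k' := Nat.cast_nonneg _
            (clear * - hc b1; nlinarith)
          have b3 : S.ep / 10 * k ≤ S.c / 3 * k' := by
            rw [S.ep_eq]
            have heta2 := S.eta_le'
            have b4 : S.c * (S.d / 10 * k) ≤ S.c * k' := mul_le_mul_of_nonneg_left hkk hc.le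
            have b5 : 0 ≤ S.c * (S.d / 10 * k) := by (clear * - hc hd hk1r; positivity)
            (clear * - b4 hd hhh b5 hd1 heta2; nlinarith)
          (clear * - b2 b3; linarith)
  -- the sum
  have hsum : LS S k0 k j (QL S A) A ≤ ∑ k' ∈ S.hvy k0 k,
      (∑ n ∈ ((cell S.d k j).filter (Sys.rough k0)).filter
        (fun n => (2 : ℝ) ^ (S.c * k') ≤ (sig A n : ℝ)), (sig A n : ℝ) ^ S.hh * 2 ^ n.primeFactorsList.length +
      (2 : ℝ) ^ (S.c / 2 * k') * ∑ j' ∈ S.badc k',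
        ((PP S.d k j k' j' ((2 : ℝ) ^ ((S.u (S.cls k' j') + S.c) * k'))).card : ℝ)) := by
    unfold LS
    rw [Finset.sum_comm]
    refine Finset.sum_le_sum fun k' hk' => ?_
    have hKk := hk'K k' hk'
    -- pointwise
    have hpt : ∀ n ∈ (cell S.d k j).filter (Sys.rough k0), ∀ j' ∈ S.badc k',
        ∑ x ∈ (S.Cand k' j').filter (fun x => x.1 ∣ n ∧ QL S A (k', j') n x ∧
          A ⊆ x.2.primeFactors ∪ (n / x.1).primeFactors), tw S A x.2 (n / x.1) ≤
        (if (2 : ℝ) ^ (S.c * k') ≤ (sig A n : ℝ) then (sig A n : ℝ) ^ S.hh *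
          (((S.Cand k' j').filter (fun x => x.1 * x.2 ∣ n)).card : ℝ) else 0) +
        (2 : ℝ) ^ (S.c / 2 * k') * (((S.Cand k' j').filter (fun x => x.1 * x.2 ∣ n ∧
          (2 : ℝ) ^ ((S.u (S.cls k' j') + S.c) * k') ≤ ((n / (x.1 * x.2) : ℕ) : ℝ))).card : ℝ) := by
      intro n hn j' hj'
      rw [Finset.mem_filter] at hn
      have hn0' : n ≠ 0 := by
        have := cell_ge hn.1
        have : 0 < 2 ^ k := by positivity
        omega
      have hsub : (S.Cand k' j').filter (fun x => x.1 ∣ n ∧ QL S A (k', j') n x ∧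
          A ⊆ x.2.primeFactors ∪ (n / x.1).primeFactors) ⊆ (S.Cand k' j').filter (fun x => x.1 * x.2 ∣ n ∧
          (2 : ℝ) ^ ((S.u (S.cls k' j') + S.c) * k') ≤ ((n / (x.1 * x.2) : ℕ) : ℝ)) := by
        intro x hx
        rw [Finset.mem_filter] at hx ⊢
        obtain ⟨hx1, hx2, hx3, _⟩ := hx
        refine ⟨hx1, ?_, ?_⟩
        · have := Nat.mul_dvd_mul_left x.1 hx3.1.1
          rwa [Nat.mul_div_cancel' hx2] at this
        · have := hx3.1.2
          rwa [Nat.div_div_eq_div_mul] at this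
      have htw : ∀ x ∈ (S.Cand k' j').filter (fun x => x.1 ∣ n ∧ QL S A (k', j') n x ∧
          A ⊆ x.2.primeFactors ∪ (n / x.1).primeFactors), tw S A x.2 (n / x.1) ≤ (sig A n : ℝ) ^ S.hh := by
        intro x hx
        rw [Finset.mem_filter] at hx
        have cf := S.cand_facts hKk hj' hx.1
        exact tw_le S cf.2.1 hx.2.2.1.1.1 (Nat.div_dvd_of_dvd hx.2.1) hn0' hx.2.2.1.2
      split_ifs with hlarge
      · have h1 := Finset.sum_le_card_nsmul _ _ _ htw
        rw [nsmul_eq_mul] at h1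
        refine h1.trans ?_
        have h2 : ((((S.Cand k' j').filter (fun x => x.1 ∣ n ∧ QL S A (k', j') n x ∧
          A ⊆ x.2.primeFactors ∪ (n / x.1).primeFactors)).card : ℕ) : ℝ) ≤
            (((S.Cand k' j').filter (fun x => x.1 * x.2 ∣ n)).card : ℝ) := by
          have := Finset.card_le_card (hsub.trans (fun x hx => by
            rw [Finset.mem_filter] at hx ⊢; exact ⟨hx.1, hx.2.1⟩) :
            (S.Cand k' j').filter (fun x => x.1 ∣ n ∧ QL S A (k', j') n x ∧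
              A ⊆ x.2.primeFactors ∪ (n / x.1).primeFactors) ⊆ (S.Cand k' j').filter (fun x => x.1 * x.2 ∣ n))
          exact_mod_cast this
        have h3 : 0 ≤ (sig A n : ℝ) ^ S.hh := by (clear * -; positivity)
        have h4 : 0 ≤ (2 : ℝ) ^ (S.c / 2 * k') * (((S.Cand k' j').filter (fun x => x.1 * x.2 ∣ n ∧
          (2 : ℝ) ^ ((S.u (S.cls k' j') + S.c) * k') ≤ ((n / (x.1 * x.2) : ℕ) : ℝ))).card : ℝ) := by (clear * -; positivity)
        (clear * - h4 heta hhh h2 h3; nlinarith)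
      · push Not at hlarge
        have hsig : (sig A n : ℝ) ^ S.hh ≤ (2 : ℝ) ^ (S.c / 2 * k') := by
          have hs1 : (1 : ℝ) ≤ sig A n := by exact_mod_cast sig_pos A hn0'
          calc (sig A n : ℝ) ^ S.hh ≤ (sig A n : ℝ) ^ (1 / 2 : ℝ) :=
                Real.rpow_le_rpow_of_exponent_le hs1 (by have := S.del_pos; (clear * - heta hhh; linarith [hhh.1]))
            _ ≤ ((2 : ℝ) ^ (S.c * k')) ^ (1 / 2 : ℝ) := Real.rpow_le_rpow (by (clear * - hs1; positivity)) hlarge.le (by norm_num)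
            _ = (2 : ℝ) ^ (S.c / 2 * k') := by
              rw [← Real.rpow_mul (by norm_num)]; congr 1; ring
        have h1 := Finset.sum_le_card_nsmul _ _ _ (fun x hx => (htw x hx).trans hsig)
        rw [nsmul_eq_mul] at h1
        refine h1.trans ?_
        rw [zero_add, mul_comm]
        refine mul_le_mul_of_nonneg_left ?_ (by positivity)
        exact_mod_cast Finset.card_le_card hsub
    calc ∑ n ∈ (cell S.d k j).filter (Sys.rough k0), ∑ j' ∈ S.badc k',
          ∑ x ∈ (S.Cand k' j').filter (fun x => x.1 ∣ n ∧ QL S A (k', j') n x ∧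
            A ⊆ x.2.primeFactors ∪ (n / x.1).primeFactors), tw S A x.2 (n / x.1)
        ≤ ∑ n ∈ (cell S.d k j).filter (Sys.rough k0), ∑ j' ∈ S.badc k',
          ((if (2 : ℝ) ^ (S.c * k') ≤ (sig A n : ℝ) then (sig A n : ℝ) ^ S.hh *
            (((S.Cand k' j').filter (fun x => x.1 * x.2 ∣ n)).card : ℝ) else 0) +
          (2 : ℝ) ^ (S.c / 2 * k') * (((S.Cand k' j').filter (fun x => x.1 * x.2 ∣ n ∧
            (2 : ℝ) ^ ((S.u (S.cls k' j') + S.c) * k') ≤ ((n / (x.1 * x.2) : ℕ) : ℝ))).card : ℝ)) :=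
          Finset.sum_le_sum fun n hn => Finset.sum_le_sum fun j' hj' => hpt n hn j' hj'
      _ = ∑ n ∈ (cell S.d k j).filter (Sys.rough k0), ∑ j' ∈ S.badc k',
            (if (2 : ℝ) ^ (S.c * k') ≤ (sig A n : ℝ) then (sig A n : ℝ) ^ S.hh *
            (((S.Cand k' j').filter (fun x => x.1 * x.2 ∣ n)).card : ℝ) else 0) +
          ∑ n ∈ (cell S.d k j).filter (Sys.rough k0), ∑ j' ∈ S.badc k',
            (2 : ℝ) ^ (S.c / 2 * k') * (((S.Cand k' j').filter (fun x => x.1 * x.2 ∣ n ∧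
            (2 : ℝ) ^ ((S.u (S.cls k' j') + S.c) * k') ≤ ((n / (x.1 * x.2) : ℕ) : ℝ))).card : ℝ) := by
          rw [← Finset.sum_add_distrib]
          exact Finset.sum_congr rfl fun n _ => Finset.sum_add_distrib
      _ ≤ _ := by
          refine add_le_add ?_ ?_
          · rw [Finset.sum_filter (s := (cell S.d k j).filter (Sys.rough k0))]
            refine Finset.sum_le_sum fun n hn => ?_
            rw [Finset.mem_filter] at hn
            have hn0' : n ≠ 0 := by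
              have := cell_ge hn.1
              have : 0 < 2 ^ k := by positivity
              omega
            split_ifs with hlarge
            · rw [← Finset.mul_sum]
              exact mul_le_mul_of_nonneg_left (cnt_x S hKk hn0') (by (clear * -; positivity))
            · simp
          · rw [Finset.sum_comm, Finset.mul_sum]
            refine Finset.sum_le_sum fun j' hj' => ?_
            rw [← Finset.mul_sum]
            refine mul_le_mul_of_nonneg_left ?_ (by positivity)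
            have h1 : ∑ n ∈ (cell S.d k j).filter (Sys.rough k0), ((S.Cand k' j').filter (fun x => x.1 * x.2 ∣ n ∧
                (2 : ℝ) ^ ((S.u (S.cls k' j') + S.c) * k') ≤ ((n / (x.1 * x.2) : ℕ) : ℝ))).card ≤
                (PP S.d k j k' j' ((2 : ℝ) ^ ((S.u (S.cls k' j') + S.c) * k'))).card := by
              rw [← Finset.card_sigma]
              refine Finset.card_le_card_of_injOn (fun y => (y.1, y.2.1 * y.2.2)) ?_ ?_
              · intro y hy
                rw [Finset.mem_coe, Finset.mem_sigma, Finset.mem_filter, Finset.mem_filter] at hy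
                have cf := S.cand_facts hKk hj' hy.2.1
                rw [Finset.mem_coe, mem_PP]
                exact ⟨hy.1.1, cf.2.2.2.2.1, hy.2.2.1, hy.2.2.2⟩
              · intro y hy z hz hyz
                rw [Finset.mem_coe, Finset.mem_sigma, Finset.mem_filter, Finset.mem_filter] at hy hz
                have b := S.mem_badc.1 hj'
                simp only [Prod.mk.injEq] at hyz
                obtain ⟨yn, yx⟩ := y
                obtain ⟨zn, zx⟩ := z
                simp only at hyz hy hz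
                obtain ⟨e1, e2⟩ := hyz
                subst e1
                have e3 := S.inj k' hKk _ b.1 b.2 yx hy.2.1 zx hz.2.1 e2
                rw [e3]
            exact_mod_cast h1
  refine hsum.trans ?_
  have hterm : ∀ k' ∈ S.hvy k0 k, (∑ n ∈ ((cell S.d k j).filter (Sys.rough k0)).filter
        (fun n => (2 : ℝ) ^ (S.c * k') ≤ (sig A n : ℝ)), (sig A n : ℝ) ^ S.hh * 2 ^ n.primeFactorsList.length +
      (2 : ℝ) ^ (S.c / 2 * k') * ∑ j' ∈ S.badc k',
        ((PP S.d k j k' j' ((2 : ℝ) ^ ((S.u (S.cls k' j') + S.c) * k'))).card : ℝ)) ≤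
      (5 * C + 72) * (2 : ℝ) ^ (ρ * k) * (2 : ℝ) ^ (-(S.ep / 10) * k) * E := by
    intro k' hk'
    have h1 := hT1 k' hk'
    have h2 := hT2 k' hk'
    have h3 : (1 : ℝ) ≤ (2 : ℝ) ^ (ρ * k) := Real.one_le_rpow (by norm_num) (by (clear * - hep hk1r; positivity))
    have h4 : 0 ≤ (2 : ℝ) ^ (-(S.ep / 10) * k) * E := by positivity
    have h5 : 72 * ((2 : ℝ) ^ (-(S.ep / 10) * k) * E) ≤ 72 * (2 : ℝ) ^ (ρ * k) * ((2 : ℝ) ^ (-(S.ep / 10) * k) * E) := by
      (clear * - heta hhh h3 h4; nlinarith)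
    (clear * - h1 h2 h5; nlinarith)
  refine (Finset.sum_le_card_nsmul _ _ _ hterm).trans ?_
  rw [nsmul_eq_mul]
  have hcardh : ((S.hvy k0 k).card : ℝ) ≤ 3 * (k + 1) := by
    have : (S.hvy k0 k).card ≤ 3 * (k + 1) := by
      unfold Sys.hvy
      rw [Nat.card_Ico]
      (clear * - K1 j hk01; omega)
    exact_mod_cast this
  have hK1' := hK1 k (hk0K1.trans hk)
  calc ((S.hvy k0 k).card : ℝ) * ((5 * C + 72) * (2 : ℝ) ^ (ρ * k) * (2 : ℝ) ^ (-(S.ep / 10) * k) * E)
      ≤ (3 * (k + 1)) * ((5 * C + 72) * (2 : ℝ) ^ (ρ * k) * (2 : ℝ) ^ (-(S.ep / 10) * k) * E) :=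
        mul_le_mul_of_nonneg_right hcardh (by positivity)
    _ = (3 * (5 * C + 72) * (k + 1)) * ((2 : ℝ) ^ (ρ * k) * (2 : ℝ) ^ (-(S.ep / 10) * k) * E) := by ring
    _ ≤ (2 : ℝ) ^ (ρ * k) * ((2 : ℝ) ^ (ρ * k) * (2 : ℝ) ^ (-(S.ep / 10) * k) * E) :=
        mul_le_mul_of_nonneg_right hK1' (by positivity)
    _ = (2 : ℝ) ^ (ρ * k + ρ * k + -(S.ep / 10) * k) * E := by
        rw [Real.rpow_add (by norm_num), Real.rpow_add (by norm_num) (ρ * k)]; ring
    _ ≤ (2 : ℝ) ^ (-(S.ep / 40) * k) * E := by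
        refine mul_le_mul_of_nonneg_right ?_ hE0.le
        refine Real.rpow_le_rpow_of_exponent_le (by norm_num) ?_
        rw [hρ]
        (clear * - hρ hρ0; nlinarith)

end Pool.Agent.M17.Helper18.KL
end

/- Helper53.KN.Helper18.KL.Load2 -/
section
/-! Project KS: Load2 from its parts. -/

set_option autoImplicit false
open scoped Classical
open Finset Filter Topology

namespace Pool.Agent.M17.Helper18.KL

open Pool.Agent.M17.Helper16.KS

theorem tw_nonneg (S : Sys) (A : Finset ℕ) (m l : ℕ) : 0 ≤ tw S A m l := by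
  unfold tw; positivity

theorem LS_le_add (S : Sys) (k0 k j : ℕ) (Q Q1 Q2 : ℕ × ℕ → ℕ → ℕ × ℕ → Prop) (A : Finset ℕ)
    (h : ∀ k' ∈ S.hvy k0 k, ∀ j' ∈ S.badc k', ∀ x ∈ S.Cand k' j', ∀ n, Q (k', j') n x →
      Q1 (k', j') n x ∨ Q2 (k', j') n x) :
    LS S k0 k j Q A ≤ LS S k0 k j Q1 A + LS S k0 k j Q2 A := by
  unfold LS
  rw [← Finset.sum_add_distrib]
  refine Finset.sum_le_sum fun n _ => ?_
  rw [← Finset.sum_add_distrib]
  refine Finset.sum_le_sum fun k' hk' => ?_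
  rw [← Finset.sum_add_distrib]
  refine Finset.sum_le_sum fun j' hj' => ?_
  rw [Finset.sum_filter, Finset.sum_filter, Finset.sum_filter, ← Finset.sum_add_distrib]
  refine Finset.sum_le_sum fun x hx => ?_
  have h0 := tw_nonneg S A x.2 (n / x.1)
  have h1 := h k' hk' j' hj' x hx n
  by_cases hQ : x.1 ∣ n ∧ Q (k', j') n x ∧ A ⊆ x.2.primeFactors ∪ (n / x.1).primeFactors
  · rw [if_pos hQ]
    rcases h1 hQ.2.1 with h2 | h2
    · rw [if_pos ⟨hQ.1, h2, hQ.2.2⟩]
      split_ifs <;> linarith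
    · rw [if_pos (show x.1 ∣ n ∧ Q2 (k', j') n x ∧ A ⊆ x.2.primeFactors ∪ (n / x.1).primeFactors from
        ⟨hQ.1, h2, hQ.2.2⟩)]
      split_ifs <;> linarith
  · rw [if_neg hQ]
    split_ifs <;> linarith

theorem pow_le_rpow (ρ C : ℝ) (m : ℕ) (hρ : 0 < ρ) : ∃ K1 : ℕ, ∀ k : ℕ, K1 ≤ k → C * (k : ℝ) ^ m ≤ (2 : ℝ) ^ (ρ * k) := by
  have hr : 1 < (2 : ℝ) ^ ρ := Real.one_lt_rpow (by norm_num) hρ
  have h1 := tendsto_pow_const_div_const_pow_of_one_lt m hr
  have h2 : Tendsto (fun n : ℕ => (|C| + 1) * ((n : ℝ) ^ m / ((2 : ℝ) ^ ρ) ^ n)) atTop (𝓝 0) := by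
    simpa using h1.const_mul (|C| + 1)
  obtain ⟨K1, hK1⟩ := eventually_atTop.1 (h2.eventually (gt_mem_nhds (show (0 : ℝ) < 1 by norm_num)))
  refine ⟨K1, fun k hk => ?_⟩
  have h4 := hK1 k hk
  have h6 : 0 < ((2 : ℝ) ^ ρ) ^ k := by positivity
  rw [← mul_div_assoc, div_lt_one h6] at h4
  have h7 : ((2 : ℝ) ^ ρ) ^ k = (2 : ℝ) ^ (ρ * k) := by
    rw [← Real.rpow_natCast, ← Real.rpow_mul (by norm_num)]
  rw [← h7]
  have h8 : C ≤ |C| + 1 := by linarith [le_abs_self C]
  have h9 : 0 ≤ (k : ℝ) ^ m := by positivity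
  nlinarith

/-- final numerics for both load theorems -/
theorem load_of_small (hred : Red) (S : Sys) (Q : ℕ × ℕ → ℕ → ℕ × ℕ → Prop)
    (hQ : ∃ K0 : ℕ, ∀ k0 : ℕ, K0 ≤ k0 → ∀ k, k0 ≤ k → ∀ j < nc S.d k, ∀ A : Finset ℕ,
      LS S k0 k j Q A ≤ 2 * ((2 : ℝ) ^ (-(S.ep / 40) * k) * 2 ^ ec S.d k)) :
    ∃ K0 : ℕ, ∀ k0 : ℕ, K0 ≤ k0 → ∀ k, k0 ≤ k → ∀ j < nc S.d k,
      ∀ A : Finset ℕ, S.LP k0 k j Q A ≤ (2 : ℝ) ^ (-(S.ep / 50) * k) * S.G k := by
  obtain ⟨K1, h1⟩ := hred S
  obtain ⟨K2, h2⟩ := hQ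
  obtain ⟨K3, h3⟩ := pow_le_rpow (3 / 1000 * S.ep) 2 4 (by have := S.ep_pos; positivity)
  refine ⟨max (max K1 K2) (max K3 1), ?_⟩
  intro k0 hk0 k hk j hj A
  have a1 : K1 ≤ k0 := ((le_max_left _ _).trans (le_max_left _ _)).trans hk0
  have a2 : K2 ≤ k0 := ((le_max_right _ _).trans (le_max_left _ _)).trans hk0
  have a3 : K3 ≤ k := (((le_max_left _ _).trans (le_max_right _ _)).trans hk0).trans hk
  have a4 : 1 ≤ k := (((le_max_right _ _).trans (le_max_right _ _)).trans hk0).trans hk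
  have hk1 : (1 : ℝ) ≤ k := by exact_mod_cast a4
  have hkpos : (0 : ℝ) < (k : ℝ) ^ 4 := by positivity
  refine (h1 k0 a1 k hk j hj Q A).trans ?_
  have h4 := h2 k0 a2 k hk j hj A
  have h5 := h3 k a3
  have hep := S.ep_pos
  unfold Sys.G
  calc (2 : ℝ) ^ (20 * S.tau * k) * (2 : ℝ) ^ ((S.s - 1) * k) * LS S k0 k j Q A
      ≤ (2 : ℝ) ^ (20 * S.tau * k) * (2 : ℝ) ^ ((S.s - 1) * k) *
        (2 * ((2 : ℝ) ^ (-(S.ep / 40) * k) * 2 ^ ec S.d k)) := mul_le_mul_of_nonneg_left h4 (by positivity)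
    _ = (2 * (k : ℝ) ^ 4) * ((2 : ℝ) ^ (20 * S.tau * k) * (2 : ℝ) ^ (-(S.ep / 40) * k)) *
        (2 ^ ec S.d k * (2 : ℝ) ^ ((S.s - 1) * k) / k ^ 4) := by
        field_simp
    _ ≤ (2 : ℝ) ^ (3 / 1000 * S.ep * k) * ((2 : ℝ) ^ (20 * S.tau * k) * (2 : ℝ) ^ (-(S.ep / 40) * k)) *
        (2 ^ ec S.d k * (2 : ℝ) ^ ((S.s - 1) * k) / k ^ 4) := by
        refine mul_le_mul_of_nonneg_right (mul_le_mul_of_nonneg_right h5 (by positivity)) (by positivity)
    _ = (2 : ℝ) ^ (-(S.ep / 50) * k) * (2 ^ ec S.d k * (2 : ℝ) ^ ((S.s - 1) * k) / k ^ 4) := by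
        rw [← Real.rpow_add (by norm_num), ← Real.rpow_add (by norm_num)]
        congr 2
        rw [S.tau_eq]
        ring

theorem load2_of (hred : Red) (hJ : JF) (hL : LL) : Load2 := by
  intro S
  refine load_of_small hred S S.Q2 ?_
  obtain ⟨K1, h1⟩ := hJ S
  obtain ⟨K2, h2⟩ := hL S
  refine ⟨max (max K1 K2) S.K, ?_⟩
  intro k0 hk0 k hk j hj A
  have a1 : K1 ≤ k0 := ((le_max_left _ _).trans (le_max_left _ _)).trans hk0
  have a2 : K2 ≤ k0 := ((le_max_right _ _).trans (le_max_left _ _)).trans hk0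
  have a3 : S.K ≤ k0 := (le_max_right _ _).trans hk0
  have h3 := h1 k0 a1 k hk j hj A
  have h4 := h2 k0 a2 k hk j hj A
  have h5 := LS_le_add S k0 k j S.Q2 (QJ A) (QL S A) A ?_
  · linarith
  · intro k' hk' j' hj' x hx n hQ
    by_cases hdis : ∀ p : ℕ, p.Prime → p ∣ x.2 → p ∉ A
    · right
      exact ⟨hQ, hdis⟩
    · left
      push Not at hdis
      refine ⟨hdis, ?_⟩
      intro p _ hpx _
      exact hpx.trans hQ.1

end Pool.Agent.M17.Helper18.KL
end

/- Helper53.KN.Helper35.KL.Load -/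
section
/-! Project KS: the load theorems `Load1`, `Load2`. -/

set_option autoImplicit false

namespace Pool.Agent.M17.Helper35.KL

theorem load1 : Pool.Agent.M17.Helper16.KS.Load1 :=
  Pool.Agent.M17.Helper88.KS.load1_of Pool.Agent.M17.Helper18.KL.red kF jF

theorem load2 : Pool.Agent.M17.Helper16.KS.Load2 :=
  Pool.Agent.M17.Helper18.KL.load2_of Pool.Agent.M17.Helper18.KL.red jF Pool.Agent.M17.Helper18.KL.ll

end Pool.Agent.M17.Helper35.KL
end
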