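import Mathlib
import Pool.Agent.Helper53.KM.G33
import Pool.Agent.Helper53.KM.G34
import Pool.Agent.Helper53.KM.G35
import Pool.Agent.Helper53.KM.G36
import Pool.Agent.Helper53.KM.G37
import Pool.Agent.Helper53.KM.G38
import Pool.Agent.Helper53.KM.G41
import Pool.Agent.Helper53.KM.G42
import Pool.Agent.Helper53.KM.G43
import Pool.Agent.Helper53.KM.G44
import Pool.Agent.Helper53.KM.G50
import Pool.Agent.Helper53.KM.G51
import Pool.Agent.Helper53.KM.G52
import Pool.Agent.Helper53.KM.G53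

/- Helper53.KN.Helper16.KS.Main -/
section
/-!
# Project KS: the main theorem from the load estimates KF and JF
-/

set_option autoImplicit false

namespace Pool.Agent.M17.Helper16.KS

theorem goodStar : GoodStar :=
  star_assembly
    (Pool.Agent.M17.Helper33.KS.light (Pool.Agent.M17.Helper15.KS.ordWin Pool.Agent.M17.Helper61.KS.ordLe)
      Pool.Agent.M17.Helper29.KS.rank Pool.Agent.M17.Helper61.KS.wpLe Pool.Agent.M17.Helper61.KS.ordLe)
    Pool.Agent.M17.Helper60.KX.expand
    (Pool.Agent.M17.Helper60.KX.h12 Pool.Agent.M17.Helper61.KS.woLe Pool.Agent.M17.Helper61.KS.wpLe)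
    (Pool.Agent.M17.Helper15.KS.h3 Pool.Agent.M17.Helper61.KS.wpLe Pool.Agent.M17.Helper29.KS.sumW)
    (Pool.Agent.M17.Helper60.KX.h4 Pool.Agent.M17.Helper61.KS.ordLe Pool.Agent.M17.Helper61.KS.ctlLe)
    (Pool.Agent.M17.Helper72.KS.init Pool.Agent.M17.Helper61.KS.woLe)

theorem existsSys : ExistsSys := Pool.Agent.M17.Helper60.KX.existsSys Pool.Agent.M17.Helper48.KS.powC

theorem existsGood (hKF : Pool.Agent.M17.Helper18.KL.KF) (hJF : Pool.Agent.M17.Helper18.KL.JF) :
    ExistsGood :=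
  Pool.Agent.M17.Helper62.KS.existsGood_of Pool.Agent.M17.Helper88.KS.cand1 Pool.Agent.M17.Helper88.KS.mult1
    Pool.Agent.M17.Helper29.KS.massC1 Pool.Agent.M17.Helper29.KS.massR1 Pool.Agent.M17.Helper14.KS.crude1
    Pool.Agent.M17.Helper14.KS.rpart1
    (Pool.Agent.M17.Helper88.KS.load1_of Pool.Agent.M17.Helper18.KL.red hKF hJF)
    (Pool.Agent.M17.Helper88.KS.load2_of Pool.Agent.M17.Helper18.KL.red hJF Pool.Agent.M17.Helper18.KL.ll)

theorem target_of_KF_JF (hKF : Pool.Agent.M17.Helper18.KL.KF) (hJF : Pool.Agent.M17.Helper18.KL.JF) :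
    Target :=
  target existsSys (existsGood hKF hJF) goodStar Pool.Agent.M17.Helper79.KS.FPM.fp last

/-- the negation of the question of Kahane and Saias -/
theorem target_final : Target :=
  target_of_KF_JF Pool.Agent.M17.Helper35.KL.kF Pool.Agent.M17.Helper35.KL.jF

end Pool.Agent.M17.Helper16.KS
end

/- Helper53.KN.Helper10.KS.Assembly -/
section
/-! Assembly of project KS (MP_768c9c_nt, S17468). -/

set_option autoImplicit false

namespace Pool.Agent.M17.Helper10.KS

open Pool.Agent.M17.Helper16.KS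

theorem existsSys_all : ExistsSys := Helper60.KX.existsSys Helper48.KS.powC

theorem light_all : Light :=
  Helper33.KS.light (Helper15.KS.ordWin Helper59.KS.ordLe) Helper29.KS.rank Helper59.KS.wpLe
    Helper59.KS.ordLe

theorem goodStar_all : GoodStar :=
  star_assembly light_all Helper60.KX.expand
    (Helper60.KX.h12 Helper29.KS.woLe Helper59.KS.wpLe)
    (Helper15.KS.h3 Helper59.KS.wpLe Helper29.KS.sumW)
    (Helper60.KX.h4 Helper59.KS.ordLe Helper59.KS.ctlLe)
    (Helper72.KS.init Helper29.KS.woLe)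

theorem existsGood_all : ExistsGood :=
  Helper62.KS.existsGood_of Helper88.KS.cand1 Helper88.KS.mult1 Helper29.KS.massC1
    Helper29.KS.massR1 Helper14.KS.crude1 Helper14.KS.rpart1 Helper35.KL.load1 Helper35.KL.load2

theorem powerSaving_all :
    ∃ f : ℕ → ℝ, f 1 = 1 ∧ (∀ m n : ℕ, 0 < m → 0 < n → f (m * n) = f m * f n) ∧
      ∃ δ C : ℝ, 0 < δ ∧ ∀ N : ℕ, 0 < N →
        |∑ n ∈ Finset.Icc 1 N, f n| ≤ C * (N : ℝ) ^ (-(1/2 + δ)) := by
  obtain ⟨a, g, C, e, he, ha, hC⟩ :=
    exists_f existsSys_all existsGood_all goodStar_all Helper79.KS.FPM.fp last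
  exact ⟨a, by rw [ha, CM_one], fun m n hm hn => by rw [ha, ha, ha, CM_mul g hm.ne' hn.ne'],
    e, C, he, fun N hN => hC N hN⟩

end Pool.Agent.M17.Helper10.KS
end
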